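import Pool.Agent.Lib.MP_7f377f_mp.G.S23T4
import Pool.Agent.Lib.MP_7f377f_mp.G.Q5TanB
import Pool.Agent.Lib.MP_7f377f_mp.G.Q5TanG

/-! The step for second variations. -/

noncomputable section

open Pool.Agent.Lib.MP_7f377f_mp.Jet

set_option linter.unusedSectionVars false
variable [Pool.Agent.Lib.MP_7f377f_mp.GD]

namespace Pool.Agent.Lib.MP_7f377f_mp.RG.Q4.En

open Finset Real Metric Sg Pos Function Filter Topology

/-- the second derivative of the new activities -/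
def d2K (S : Sd) (b r s : Lx × Ac) : Ac :=
  dA fun t => dK S (b.1 + t • r.1) (b.2 + t • r.2) s.1 s.2

section families

variable {ι : Type} [DecidableEq ι] {r : ι → ℝ} {p : Pa} {n : ℕ} {Φ Φ' : (ι → ℂ) → Lx}
  {K K' : (ι → ℂ) → Ac} {k k' : Mj} {φ : Lx} {J : Ac} {ρ : ℝ} {F : ℂ → ℂ → Conf → ℂ}

theorem upd_diff (s : ι → ℂ) (i j : ι) : Differentiable ℂ fun t => update s j t i := by
  by_cases e : i = j
  · simpa only [e, update_self] using differentiable_fun_id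
  · simpa only [update_of_ne e] using differentiable_const _

theorem fl_cst (hr : ∀ i, 0 < r i) (a : LO p φ) : FL r p fun _ => φ :=
  ⟨hr, fun _ _ _ _ _ => differentiableOn_const _, fun _ _ => a.meas,
    fun x => (a.bd x).imp fun _ m _ _ => m⟩

theorem fl_lin (h : FL r p Φ) (h' : FL r p Φ') (i : ι) : FL r p fun s => Φ s + s i • Φ' s :=
  ⟨h.pos, fun s hs j x B => (h.hol s hs j x B).add
      ((upd_diff s i j).differentiableOn.mul (h'.hol s hs j x B)),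
    fun s hs x => (h.meas s hs x).add ((h'.meas s hs x).const_mul _), fun x =>
      let ⟨_, m⟩ := h.bd x
      let ⟨_, m'⟩ := h'.bd x
      ⟨_, fun s hs B u v => norm_add_le_of_le (m s hs B u v)
        (norm_mul_le_of_le (hs i).le (m' s hs B u v))⟩⟩

theorem fa_cst (hr : ∀ i, 0 < r i) (a : KM p n k J) : FA r p n k fun _ => J :=
  ⟨hr, fun _ _ _ _ _ _ => differentiableOn_const _, fun _ _ => a⟩

theorem fa_lin (h : FA r p n k K) (h' : FA r p n k' K') (k0 : ∀ X c, 0 ≤ k' X c) (i : ι) :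
    FA r p n (k + r i • k') fun s => K s + s i • K' s :=
  ⟨h.pos, fun s hs j X c U => (h.hol s hs j X c U).add
      ((upd_diff s i j).differentiableOn.mul (h'.hol s hs j X c U)),
    fun s hs => ((h.km s hs).add ((h'.km s hs).smul _)).mono fun X c => add_le_add le_rfl
      (mul_le_mul_of_nonneg_right (hs i).le (k0 X c))⟩

/-- the derivative in one of two parameters -/
theorem h1_dF (h : HD (fun _ : Bool => ρ) fun s => F (s true) (s false)) :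
    H1 ρ fun t => dF (F t) := by
  obtain ⟨M, hM⟩ := h.1
  have r0 := h.pos true
  have m : ∀ {t u : ℂ}, t ∈ ball (0 : ℂ) ρ → u ∈ ball (0 : ℂ) ρ →
      (fun c => cond c t u) ∈ Pd fun _ : Bool => ρ := fun ht hu c => by
    cases c
    exacts [mem_ball_zero_iff.1 hu, mem_ball_zero_iff.1 ht]
  have z := mem_ball_self (x := (0 : ℂ)) r0
  have a : ∀ U, ∀ t ∈ ball (0 : ℂ) ρ, DifferentiableOn ℂ (F t · U) (ball 0 ρ) := fun U t ht => by
    simpa using (hM U).hol _ (m ht z) false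
  have c : ∀ U, ∀ t ∈ ball (0 : ℂ) ρ, ∀ u ∈ ball (0 : ℂ) ρ, ‖F t u U‖ ≤ M :=
    fun U t ht u hu => (hM U).bd _ (m ht hu)
  refine ⟨⟨M / ρ, fun U => ⟨fun _ => r0, fun s _ i => ?_, fun s hs => ?_⟩⟩, fun s hs => ?_⟩
  · simpa [dF] using deriv_hol (f := fun t u => F t u U) isOpen_ball r0 (a U) (c U) fun u hu => by
      simpa using (hM U).hol _ (m z hu) true
  · exact deriv_le (a U _ (mem_ball_zero_iff.2 (hs ()))) (c U _ (mem_ball_zero_iff.2 (hs ()))) r0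
  · exact deriv_meas r0 (fun U => a U _ (mem_ball_zero_iff.2 (hs ())))
      fun u hu => h.2 _ (m (mem_ball_zero_iff.2 (hs ())) hu)

end families

section step

variable {S S' : Sd} {b d r s : Lx × Ac} {φ ψ ψ' ψ'' : Lx} {K K' K'' : Ac} {ρ ρ' β θ : ℝ} {k : Mj}
  {g gr gs g2 : Conf → ℂ} {u ω xr yr xs ys : ℝ}

theorem line_rm (h : S.Nu 100) (a : Rm S ψ K) (a' : Dir S ψ' K') : ∃ ρ β θ k, 0 < ρ ∧
    S.Q ^ 100 * β < 1 ∧ S.Q ^ 100 * θ < 1 ∧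
      ∀ t ∈ ball (0 : ℂ) ρ, S.Sml β θ k (ψ + t • ψ') (K + t • K') := by
  obtain ⟨β, θ, k, s, s1, s2⟩ := a
  obtain ⟨b', θ', k', p1, p2, p3⟩ := a'
  obtain ⟨r, r0, r1, r2⟩ := room (b' := b' + 1) (θ' := θ' + 1) s1 s2
  have := mul_pos (pow_pos S.Q0 100) r0
  have r3 : S.Q ^ 100 * (β + r * b') < 1 := by linarith
  have r4 : S.Q ^ 100 * (θ + r * θ') < 1 := by linarith
  exact ⟨r, _, _, _, r0, r3, r4, fam_sml h s p1 p2 p3 r0.le r3.le r4.le⟩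

theorem dK_hol (h : S.Nu 100) (f : St2 S) (r0 : 0 < ρ) (r1 : 0 < ρ')
    (F : ∀ t ∈ ball (0 : ℂ) ρ, ∀ u ∈ ball (0 : ℂ) ρ',
      S.Sml β θ k (ψ + t • ψ' + u • ψ'') (K + t • K' + u • K'')) :
    HolA (ball 0 ρ) fun t => dK S (ψ + t • ψ') (K + t • K') ψ'' K'' := fun X c U => by
  have z := F 0 (mem_ball_self r0) 0 (mem_ball_self r1)
  obtain ⟨m, -, m2⟩ := f.K _ _ _ z.b_le z.θ_le (pu_nn h z.pu) z.kn
  refine deriv_hol isOpen_ball r1 (fun t ht => f.hol _ _ _ _ _ _ isOpen_ball (F t ht)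
    (holL_line _ _ _) (holA_line _ _ _) X c U) (fun t ht u hu => ((m2 _ _ (F t ht u hu)).per X c U) ▸
      (m2 _ _ (F t ht u hu)).bd X c _ (Mx.per_pc _ _)) fun u hu =>
    f.hol _ _ _ _ _ _ isOpen_ball (fun t ht => F t ht u hu) (fun v B => ?_) (fun X c U => ?_) X c U
  all_goals simp only [Pi.add_apply, Pi.smul_apply, smul_eq_mul]; fun_prop

theorem d2K_diff (h : S.Nu 100) (f : St2 S) (a : Rm S b.1 b.2) (ar : Dir S r.1 r.2)
    (as : Dir S s.1 s.2) (X : Finset St) (c : Finset (Finset St)) (U : Conf) : HasDerivAt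
      (fun t : ℂ => dK S (b.1 + t • r.1) (b.2 + t • r.2) s.1 s.2 X c U) (d2K S b r s X c U) 0 := by
  obtain ⟨ρ, β, θ, k, r0, s1, s2, F⟩ := line_rm h a ar
  obtain ⟨b', θ', k', p1, p2, p3⟩ := as
  obtain ⟨r, r1, r2, r3⟩ := room (b' := b') (θ' := θ') s1 s2
  exact ((dK_hol h f r0 r1 (fun t ht => fam_sml h (F t ht) p1 p2 p3 r1.le r2 r3) X c U).differentiableAt
    (ball_mem_nhds _ r0)).hasDerivAt

/-- the size of the second derivative -/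
theorem d2K_bd (h : S.Nu 100) (f : St2 S) (z0 : Sz S.p S.nf S.QM S.g u u ω b.1 b.2)
    (zr : Sz S.p S.nf S.QM S.g xr yr ω r.1 r.2) (zs : Sz S.p S.nf S.QM S.g xs ys ω s.1 s.2)
    (h1 : √S.g ≤ ω) (hω : S.Q ^ 100 * ω ≤ 1) (hu : S.Q ^ 115 * u * S.g ^ 2 ≤ ω) (hr : 0 < xr + yr)
    (hs : 0 < xs + ys) : ∃ m, KM S.p' S.n m (d2K S b r s) ∧
      kN S.p' S.n m (S.Q ^ 112 * (xr + yr) * (xs + ys) * S.g ^ 4) := by
  obtain ⟨k, k1, k2⟩ := z0.2
  obtain ⟨d, d1, d2⟩ := zs.2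
  obtain ⟨j, j1, j2⟩ := zr.2
  obtain ⟨x0, y0⟩ := zr.nn h
  obtain ⟨x1, y1⟩ := zs.nn h
  have u0 := (z0.nn h).1
  have g0 := h.ok.g0
  have Q0 := S.Q0
  have s0 := sqrt_pos.2 g0
  have ω0 := s0.trans_le h1
  have a0 : ∀ {i j : ℕ} {t : ℝ}, i < j → 0 ≤ t → 1000 * (S.Q ^ i * t) ≤ S.Q ^ j * t :=
    fun e t0 => (mul_assoc _ _ _).ge.trans (mul_le_mul_of_nonneg_right (qpw h e) t0)
  have a1 := qsq h (i := 102) (by norm_num)
  have a2 : ω ≤ 1 / 1000 := by linarith [qom h hω (i := 0) (by norm_num)]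
  obtain ⟨β, hb⟩ : ∃ β, ω = S.Q ^ 102 * β := ⟨ω / S.Q ^ 102, by field_simp⟩
  have b0 : 0 < β := (mul_pos_iff_of_pos_left (pow_pos Q0 102)).1 (hb ▸ ω0)
  obtain ⟨θ, hθ⟩ : ∃ θ, θ = S.Q ^ 92 * β ^ 2 := ⟨_, rfl⟩
  have θ0 : 0 < θ := by rw [hθ]; positivity
  have B : Bl S β θ := by
    rw [hθ]
    refine ⟨le_of_mul_le_mul_left ?_ (pow_pos Q0 102), ?_, ?_, ?_⟩
    · have := mul_le_mul a1 h1 s0.le zero_le_one
      rwa [mul_assoc, mul_self_sqrt g0.le, one_mul, hb] at this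
    · linarith [a0 (i := 91) (j := 92) (by norm_num) (sq_nonneg β),
        mul_nonneg (pow_pos Q0 91).le (sq_nonneg β)]
    · linarith [a0 (i := 100) (j := 102) (by norm_num) b0.le]
    · have := a0 (i := 192) (j := 204) (by norm_num) (sq_nonneg β)
      have e : S.Q ^ 204 * β ^ 2 = ω ^ 2 := by rw [hb]; ring
      nlinarith
  have u1 : 1000 * (S.Q ^ 10 * u * S.g ^ 2) ≤ β := le_of_mul_le_mul_left (by
    linarith [a0 (i := 112) (j := 115) (by norm_num) (mul_nonneg u0 (sq_nonneg S.g))])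
    (pow_pos Q0 102)
  have u2 : 1000 * (ω * u * S.g ^ 2) ≤ θ := by
    have := mul_le_mul_of_nonneg_left u1 (mul_pos (pow_pos Q0 92) b0).le
    rw [hb, hθ]; linarith
  have c1 := mul_pos (pow_pos Q0 100) b0
  have c2 := mul_pos (pow_pos Q0 100) θ0
  have s1 : S.Sml (β / 2) (θ / 2) k b.1 b.2 := ⟨by linarith [B.b_le], by linarith [B.θ_le],
    pu_mono (z0.pu h hω) (by linarith), k1, k2.mono (by linarith)⟩
  obtain ⟨e, he⟩ : ∃ e, e = 2 * S.Q ^ 10 * (xr + yr) * S.g ^ 2 / β := ⟨_, rfl⟩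
  obtain ⟨ε, hε⟩ : ∃ ε, ε = S.Q ^ 10 * (xs + ys) * S.g ^ 2 / β := ⟨_, rfl⟩
  have e0 : 0 < e := by rw [he]; positivity
  have ε0 : 0 < ε := by rw [hε]; positivity
  have e1 : ∀ t : ℝ, t / 2 + e⁻¹ * (e * (t / 2)) = t := fun t => by field_simp; ring
  have e2 : ∀ t : ℝ, t + ε⁻¹ * (ε * t) = 2 * t := fun t => by field_simp; ring
  have j3 : kN S.p S.nf j (e * (θ / 2)) := j2.mono (by
    rw [show e * (θ / 2) = ω * (xr + yr) * S.g ^ 2 by rw [he, hθ, hb]; field_simp]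
    gcongr; linarith)
  have d3 : kN S.p S.nf d (ε * θ) := d2.mono (by
    rw [show ε * θ = ω * (xs + ys) * S.g ^ 2 by rw [hε, hθ, hb]; field_simp]
    gcongr; linarith)
  have p1 : PU S.p (ε * β) s.1 := pu_mono (zs.pu h hω) (by rw [hε]; field_simp; rfl)
  have F := fam_sml h s1 (b' := e * (β / 2)) (pu_mono (zr.pu h hω) (by rw [he]; field_simp; rfl))
    j1 j3 (inv_pos.2 e0).le (by rw [e1]; linarith [B.b_le]) (by rw [e1]; linarith [B.θ_le])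
  rw [e1, e1] at F
  obtain ⟨m, m1, m2⟩ := lipK h f B (F 0 (mem_ball_self (inv_pos.2 e0))).kn d3 ε0
  refine ⟨_, (km_schwarz e0 (fun t ht => (m2 _ _ _ _ (F t ht) p1 d1).1) (dK_hol h f (inv_pos.2 e0)
    (inv_pos.2 ε0) fun t ht => fam_sml h (F t ht) p1 d1 d3 (inv_pos.2 ε0).le (e2 β ▸ B.b_le)
      (e2 θ ▸ B.θ_le))).1, (((kN_up m1).smul ε0.le).smul (by positivity)).mono ?_⟩
  calc _ = 32 * S.Q ^ 111 * (xr + yr) * (xs + ys) * S.g ^ 4 := by rw [he, hε, hθ]; field_simp; ring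
    _ ≤ _ := by
      gcongr ?_ * _ * _ * _
      linarith [qpw h (i := 111) (j := 112) (by norm_num), pow_pos Q0 111]

theorem d2K_real (h : S.Nu 100) (f : St2 S) (a : Rm S b.1 b.2) (ar : Dir S r.1 r.2)
    (as : Dir S s.1 s.2) (r0 : Re S.p S.nf b.1 b.2) (r1 : Re S.p S.nf r.1 r.2)
    (r2 : Re S.p S.nf s.1 s.2) : RealA (d2K S b r s) := fun X c U => by
  obtain ⟨ρ, _, _, _, ρ0, s1, s2, F⟩ := line_rm h a ar
  refine (Complex.imCLM.hasFDerivAt.comp_hasDerivAt (0 : ℝ)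
    (d2K_diff h f a ar as X c U).comp_ofReal).unique
    ((hasDerivAt_const (0 : ℝ) (0 : ℝ)).congr_of_eventuallyEq ?_)
  filter_upwards [ball_mem_nhds (0 : ℝ) ρ0] with t ht
  exact dK_real h f ⟨_, _, _, F t (by simpa using ht), s1, s2⟩ as (r0.comb r1 t).1 (r0.comb r1 t).2.1
    r2.1 r2.2.1 X c U

theorem d2K_cov (h : S.Nu 100) (r0 : TCov S.nf b.1 b.2) (r1 : TCov S.nf r.1 r.2)
    (r2 : TCov S.nf s.1 s.2) (v : St) {o : LP St} (ho : o ∈ lps S.Λ') :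
    trA S.n v (d2K S b r s) o.1 o.2 = d2K S b r s o.1 o.2 := funext fun U =>
  congrArg (deriv · 0) (funext fun t : ℂ => congrFun (dK_cov (ψ := b.1 + t • r.1)
    (K := b.2 + t • r.2) h (fun v => ⟨(congrArg₂ (· + t • ·) (r0 v).1 (r1 v).1 :), fun o ho =>
      (congrArg₂ (· + t • ·) ((r0 v).2 o ho) ((r1 v).2 o ho) :)⟩) r2 v ho) U)

theorem ts2_re (h : S.Nu 100) (f : St2 S) (a : Rm S b.1 b.2) (ar : Dir S r.1 r.2)
    (as : Dir S s.1 s.2) (ad : Dir S d.1 d.2) (r0 : Re S.p S.nf b.1 b.2) (r1 : Re S.p S.nf r.1 r.2)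
    (r2 : Re S.p S.nf s.1 s.2) (r3 : Re S.p S.nf d.1 d.2) :
    Re S.p' S.n (S.PL d.1 d.2) (dK S b.1 b.2 d.1 d.2 + d2K S b r s) :=
  have p := pl_re h f a ad r0 r3
  ⟨p.1, fun X c U => by simp [p.2.1 X c U, d2K_real h f a ar as r0 r1 r2 X c U],
    fun v => ⟨(p.2.2 v).1, fun o ho => (congrArg₂ (· + ·) ((p.2.2 v).2 o ho)
      (d2K_cov h r0.2.2 r1.2.2 r2.2.2 v ho) :)⟩⟩

/-- the free energy of a direction -/
def mu (S : Sd) (d : Lx × Ac) : ℂ := ∑ y ∈ S.Λ', (S.Ey d.1 d.2 y - S.Ey 0 0 y)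

variable (h : S.Nu 100) (f : St2 S) (pu : S.Pu) (ht : S.TOk) (e1 : S'.p = S.p') (e2 : S'.nf = S.n)
  (e3 : ∀ ψ K, S.Φ' ψ K = S'.Φ (S.PL ψ K + φ))
include h f

theorem cu_step (a : Rm S b.1 b.2) (a' : Dir S d.1 d.2) : Cu (fun t => (S.PL (b.1 + t • d.1)
    (b.2 + t • d.2) + φ, S.KK (b.1 + t • d.1) (b.2 + t • d.2))) (S.PL d.1 d.2, dK S b.1 b.2 d.1 d.2) :=
  let ⟨_, _, _, s0, _⟩ := a
  let ⟨_, _, _, d1, d2, _⟩ := a'
  ⟨fun x B => by
    simp only [f.lin _ _ _ _ _ _ _ _ _ s0.pu d1 s0.km d2, add_right_comm _ (_ • _)]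
    exact der_line _ _, dK_diff h f a a'⟩

theorem cu_step2 (a : Rm S b.1 b.2) (ar : Dir S r.1 r.2) (as : Dir S s.1 s.2) (ad : Dir S d.1 d.2) :
    Cu (fun t => (S.PL (s.1 + t • d.1) (s.2 + t • d.2), dK S (b.1 + t • r.1) (b.2 + t • r.2)
      (s.1 + t • d.1) (s.2 + t • d.2))) (S.PL d.1 d.2, dK S b.1 b.2 d.1 d.2 + d2K S b r s) := by
  obtain ⟨ρ, _, _, _, ρ0, s1, s2, F⟩ := line_rm h a ar
  obtain ⟨_, _, _, c1, c2, -⟩ := id as
  obtain ⟨_, _, _, d1, d2, -⟩ := id ad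
  refine ⟨fun x B => ?_, fun X c U => ?_⟩
  · simp only [f.lin _ _ _ _ _ _ _ _ _ c1 d1 c2 d2]
    exact der_line _ _
  · refine (((d2K_diff h f a ar as X c U).add ((hasDerivAt_id' (0 : ℂ)).fun_mul
      (d2K_diff h f a ar ad X c U))).congr_deriv (by simp [add_comm])).congr_of_eventuallyEq ?_
    filter_upwards [ball_mem_nhds _ ρ0] with t ht
    rw [dK_add h f ⟨_, _, _, F t ht, s1, s2⟩ as (ad.smul h t), dK_smul]
    rfl

include pu ht e1 e2 e3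

/-- the first variation of the identity of the step -/
theorem tt_dR (a : Rm S b.1 b.2) (a' : Dir S d.1 d.2) : BC (Rep S.p S.nf (S.Φ b.1) b.2) ∧
    BC (dR S b d) ∧ ∀ W, Per S.n W → TT S.l (S.β * S.L ^ 2) S.n (dR S b d) W =
      Complex.exp (∑ y ∈ S.Λ', S.Ey b.1 b.2 y) * (mu S d * Rep S'.p S'.nf
        (S'.Φ (S.PL b.1 b.2 + φ)) (S.KK b.1 b.2) W + dR S' (S.PL b.1 b.2 + φ, S.KK b.1 b.2)
          (S.PL d.1 d.2, dK S b.1 b.2 d.1 d.2) W) := by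
  obtain ⟨r, _, _, _, r0, sm⟩ := line_sml h a a'
  obtain ⟨_, _, _, s0, -⟩ := id a
  obtain ⟨_, _, _, d1, d2, d3⟩ := id a'
  have H := h1_line h.p_ok.1 (sqrt_nonneg _) (h.lo_Φ ht s0.pu.lo) d1.lo s0.km d2 d3.1 r0
  simp only [← phi_line] at H
  have B := H.bc
  change _ ∧ BC (dR S b d) at B
  simp only [zero_smul, add_zero] at B
  refine ⟨B.1, B.2, fun W hW => ?_⟩
  have D := rep_deriv (S := S') rfl (cu_step (φ := φ) h f a a') W
  rw [e1, e2] at *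
  have i := fun t ht => f.id _ _ _ _ _ (sm t ht) W hW
  simp only [e3, ey_lin pu a.dir a', sum_add_distrib, ← mul_sum] at i
  have D' := ((H.tt _ _ _ W).congr_of_eventuallyEq (Filter.mem_of_superset (ball_mem_nhds _ r0)
    fun t ht => (i t ht).symm)).unique ((der_line _ _).cexp.fun_mul D)
  change TT _ _ _ (dR S b d) W = _ at D'
  simp only [zero_smul, add_zero, zero_mul] at D'
  rw [D', mu]
  ring

/-- second variations are carried through the step -/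
theorem Rt2.next (a : Rm S b.1 b.2) (ar : Dir S r.1 r.2) (as : Dir S s.1 s.2) (ad : Dir S d.1 d.2)
    (p : Rt2 S b r s d g gr gs g2) : Rt2 S' (S.PL b.1 b.2 + φ, S.KK b.1 b.2)
      (S.PL r.1 r.2, dK S b.1 b.2 r.1 r.2) (S.PL s.1 s.2, dK S b.1 b.2 s.1 s.2)
      (S.PL d.1 d.2, dK S b.1 b.2 d.1 d.2 + d2K S b r s) (TT S.l (S.β * S.L ^ 2) S.n g)
      (TT S.l (S.β * S.L ^ 2) S.n gr) (TT S.l (S.β * S.L ^ 2) S.n gs)
      (TT S.l (S.β * S.L ^ 2) S.n g2) := by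
  obtain ⟨κ, κr, κs, κ2, p⟩ := p
  obtain ⟨ρ, _, _, _, ρ0, s1, s2, F⟩ := line_rm h a ar
  obtain ⟨_, _, _, s0, -⟩ := id a
  obtain ⟨_, _, _, b1, b2, b3⟩ := id ar
  obtain ⟨_, _, _, c1, c2, c3⟩ := id as
  obtain ⟨_, _, _, d1, d2, d3⟩ := id ad
  have o : ∀ _ : Bool, 0 < ρ := fun _ => ρ0
  have H := h1_dF (F := fun t u => Rep S.p S.nf (S.Φ b.1 + t • r.1 + u • (s.1 + t • d.1))
    (b.2 + t • r.2 + u • (s.2 + t • d.2))) (hd_rep h.p_ok.1 (sqrt_nonneg _)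
      (fl_lin (fl_lin (fl_cst o (h.lo_Φ ht s0.pu.lo)) (fl_cst o b1.lo) true)
        (fl_lin (fl_cst o c1.lo) (fl_cst o d1.lo) true) false)
      (fa_lin (fa_lin (fa_cst o s0.km) (fa_cst o b2) b3.1 true)
        (fa_lin (fa_cst o c2) (fa_cst o d2) d3.1 true)
        (fun X c => add_nonneg (c3.1 X c) (mul_nonneg ρ0.le (d3.1 X c))) false))
  simp only [← phi_line] at H
  change H1 ρ fun t => dR S (b + t • r) (s + t • d) at H
  have e : dF (fun t => dR S (b + t • r) (s + t • d)) = fun U => d2R S b r s U + dR S b d U :=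
    funext fun U => by simpa [dF] using (dR_deriv (S := S) (cu_line b r) (cu_line s d) U).deriv
  have B2 := e ▸ H.bc.2
  obtain ⟨B0, Br, Tr⟩ := tt_dR h f pu ht e1 e2 e3 a ar
  obtain ⟨-, Bs, Ts⟩ := tt_dR h f pu ht e1 e2 e3 a as
  refine ⟨κ * Complex.exp (∑ y ∈ S.Λ', S.Ey b.1 b.2 y), κr + mu S r, κs + mu S s,
    κ2 + mu S d - mu S r * mu S s - κr * mu S s - κs * mu S r, fun W hW => ?_⟩
  rw [e2] at hW
  have D := rep_deriv (S := S') rfl (cu_step (φ := φ) h f a ar) W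
  have D2 := dR_deriv (S := S') (cu_step (φ := φ) h f a ar) (cu_step2 h f a ar as ad) W
  have i := fun t (ht' : t ∈ ball (0 : ℂ) ρ) => (tt_dR (b := b + t • r) (d := s + t • d) h f pu ht e1 e2 e3
    ⟨_, _, _, F t ht', s1, s2⟩ (as.add h (ad.smul h t))).2.2 W hW
  have m : ∀ t : ℂ, mu S (s + t • d) = mu S s + t * mu S d := fun t => by
    simp only [mu, Prod.fst_add, Prod.snd_add, Prod.smul_fst, Prod.smul_snd, ey_lin pu as ad,
      mul_sum, ← sum_add_distrib]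
    exact sum_congr rfl fun _ _ => by ring
  simp only [m, Prod.fst_add, Prod.snd_add, Prod.smul_fst, Prod.smul_snd, ey_lin pu a.dir ar,
    sum_add_distrib, ← mul_sum] at i
  have D' := ((H.tt _ _ _ W).congr_of_eventuallyEq (Filter.mem_of_superset (ball_mem_nhds _ ρ0)
    fun t ht => (i t ht).symm)).unique ((der_line _ _).cexp.fun_mul
      (((der_line _ _).fun_mul D).fun_add D2))
  rw [e] at D'
  simp only [zero_smul, add_zero, zero_mul] at D'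
  have t0 := (TT_mul (fun U hU => (p U hU).1) W).trans (congrArg (κ * ·) (f.id _ _ _ _ _ s0 W hW))
  rw [e3, ← e1, show Rep S'.p S.n = Rep S'.p S'.nf by rw [e2]] at t0
  have w : ∀ {x y : Conf → ℂ} {c : ℂ}, BC y → (∀ U, Per S.nf U → x U = κ * y U + c * g U) →
      TT S.l (S.β * S.L ^ 2) S.n x W = κ * TT S.l (S.β * S.L ^ 2) S.n y W +
        c * TT S.l (S.β * S.L ^ 2) S.n g W := fun {x y c} hy e => by
    rw [TT_congr (f := x) _ fun U hU => (e U hU).trans (by rw [(p U hU).1]),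
      TT_add _ (hy.cm κ) ((B0.cm κ).cm c), Q4.TT_mul, Q4.TT_mul, ← TT_congr _ fun U hU => (p U hU).1]
  have t1 := w Br fun U hU => (p U hU).2.1
  have t2 := w Bs fun U hU => (p U hU).2.2.1
  have ad : ∀ {x y : Conf → ℂ}, BC x → BC y → BC fun U => x U + y U := fun a c =>
    ⟨a.1.add c.1, let ⟨_, u⟩ := a.2; let ⟨_, v⟩ := c.2; ⟨_, fun U => norm_add_le_of_le (u U) (v U)⟩⟩
  have t3 := w (x := g2) (c := 2 * κr * κs + κ2) (ad B2 (ad (Br.cm κs) (Bs.cm κr))) fun U hU => by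
    obtain ⟨-, p2, p3, p4⟩ := p U hU
    rw [p4, p2, p3]; ring
  rw [TT_add _ B2 (ad (Br.cm κs) (Bs.cm κr)), TT_add _ (Br.cm κs) (Bs.cm κr), Q4.TT_mul, Q4.TT_mul,
    D'] at t3
  rw [t3, t2, t1, Tr W hW, Ts W hW, t0]
  refine ⟨by ring, by ring, by ring, ?_⟩
  rw [← mu]
  ring

end step

namespace Gl

variable (G : Gl)

/-- the second jet `d` over the directions `r`, `s` represents the second variation `f2` -/
structure Tn2 (k : ℕ) (z : Z) (b : Lx × Ac) (f : Conf → ℂ) (x y ω : ℝ) (r s d : Lx × Ac)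
    (fr fs f2 : Conf → ℂ) : Prop where
  sz : G.Sz k x y ω d.1 d.2
  re : Re (G.p k) (G.N k) d.1 d.2
  rt : Rt2 (G.sl k z) b r s d f fr fs f2

/-- the step of second jets -/
def ts2 (k : ℕ) (z : Z) (b r s d : Lx × Ac) : Lx × Ac :=
  ((G.sd k z).PL d.1 d.2, dK (G.sd k z) b.1 b.2 d.1 d.2 + d2K (G.sd k z) b r s)

/-- the second jet `d` at level `i` carried down along the run from level `J` -/
def tc2 (b : ℝ) (J i : ℕ) (r s d : Lx × Ac) (k : ℕ) : Lx × Ac :=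
  dw (fun k d => G.ts2 k (G.zz b J (k + 1)) (G.zz b J (k + 1)).d (G.tc b J i r (k + 1))
    (G.tc b J i s (k + 1)) d) d i k

/-- a second jet along the run from level `J` -/
abbrev Tr2 (b : ℝ) (J k : ℕ) (x y : ℝ) (r s d : Lx × Ac) (fr fs f2 : Conf → ℂ) : Prop :=
  G.Tn2 k (G.zz b J k) (G.zz b J k).d (G.f b J k) x y √(G.g k) r s d fr fs f2

variable {G} {b x y x' y' xr yr xs ys u ω ω' ω1 τ α P D : ℝ} {J i j k : ℕ} {z : Z}
  {c d d' r s : Lx × Ac} {f fr fs f2 f1 w1 w2 : Conf → ℂ}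

theorem tc2_top : G.tc2 b J i r s d i = d := dw_top ..

theorem tc2_step (h : k < i) : G.tc2 b J i r s d k = G.ts2 k (G.zz b J (k + 1))
    (G.zz b J (k + 1)).d (G.tc b J i r (k + 1)) (G.tc b J i s (k + 1)) (G.tc2 b J i r s d (k + 1)) :=
  dw_step _ _ h

namespace Ok

variable (h : G.Ok)
include h

theorem tn2_nn (a : G.Tn2 k z c f x y ω r s d fr fs f2) : 0 ≤ x ∧ 0 ≤ y :=
  have := (a.sz.1 0).1.nonneg (h.ρ0 k)
  ⟨this.1, (mul_nonneg_iff_of_pos_left (pow_pos (h.Q0 k) 2)).1 this.2.1⟩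

theorem tn2_mono (a : G.Tn2 k z c f x y ω r s d fr fs f2) (h0 : 0 ≤ ω) (h1 : x ≤ x') (h2 : y ≤ y') :
    G.Tn2 k z c f x' y' ω r s d fr fs f2 := ⟨h.sz_up a.sz h0 h1 h2, a.re, a.rt⟩

theorem tn2_nb (a : G.Tn2 k z c f x y ω r s d fr fs f2) :
    G.Tn2 k z c f (nb (d.1 0)) y ω r s d fr fs f2 :=
  ⟨⟨pm_nb (h.ρ0 k) a.sz.1 (TCov.cx (h.N_odd k) a.re.2.2) le_rfl le_rfl, a.sz.2⟩, a.re, a.rt⟩

/-- differences of two second variations -/
theorem tn2_sub (a : G.Tn2 k z c f x y ω r r d f1 f1 f2) (a' : G.Tn2 k z c f x' y' ω s s d' w1 w1 w2)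
    (f0 : f 1 ≠ 0) : G.Tn2 k z c f (x + α ^ 2 * x') (y + α ^ 2 * y') ω (r - (α : ℂ) • s)
      (r + (α : ℂ) • s) (d - (α : ℂ) ^ 2 • d') (fun U => f1 U - α * w1 U) (fun U => f1 U + α * w1 U)
      fun U => f2 U - α ^ 2 * w2 U := by
  have p := sz_sub (h.ρ0 k) a.sz (sz_smul (h.ρ0 k) a'.sz (α ^ 2))
  have q := a.re.comb a'.re (-α ^ 2)
  rw [norm_pow, Complex.norm_real, norm_eq_abs, sq_abs] at p
  rw [Complex.ofReal_neg, Complex.ofReal_pow, neg_smul, neg_smul, ← sub_eq_add_neg,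
    ← sub_eq_add_neg] at q
  exact ⟨p, q, a.rt.sub a'.rt f0 α⟩

theorem tn2_step (hp : G.Pu) (t : G.Tz J (k + 1) z) (rc : Re (G.p (k + 1)) (G.N (k + 1)) c.1 c.2)
    (tg : Tg (G.sd k z) ω c.1 c.2) (sc : G.Sz (k + 1) u u ω1 c.1 c.2)
    (ar : G.Tn (k + 1) z c f xr yr ω1 r fr) (as : G.Tn (k + 1) z c f xs ys ω1 s fs)
    (h1 : √(G.g (k + 1)) ≤ ω1) (h2 : G.Q k ^ 100 * ω1 ≤ 1)
    (h3 : G.Q k ^ 115 * u * G.g (k + 1) ^ 2 ≤ ω1) (hr : 0 < xr + yr) (hs : 0 < xs + ys)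
    (a : G.Tn2 (k + 1) z c f x y ω r s d fr fs f2) (h0 : 0 < x + y) (e : ω ≤ ω')
    (hτ : G.Q k ^ 113 * (xr + yr) * (xs + ys) * G.g (k + 1) ^ 2 ≤ ω' * τ) :
    G.Tn2 k (G.nx k z) (G.hs k z c) (TT (G.l k) (G.a k) (G.N k) f)
      (x + G.Q k ^ 50 * ω * (x + y)) (G.cr k * (x + y + τ)) ω' (G.ts k z c r) (G.ts k z c s)
      (G.ts2 k z c r s d) (TT (G.l k) (G.a k) (G.N k) fr) (TT (G.l k) (G.a k) (G.N k) fs)
      (TT (G.l k) (G.a k) (G.N k) f2) ∧ ∀ a a' δ δ', Cv 0 δ a → Cv 0 δ' a' →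
        ‖qc ((G.ts2 k z c r s d).1 0) a a' - qc (d.1 0) a a'‖ ≤
          G.Q k ^ 50 * ω * (x + y) * δ * δ' := by
  have nu := (h.sd_all k z).nu
  have st := h.st2 t
  have n := h.sd_nf k z
  have Q0 := h.Q0 k
  have g0 := h.g0 (k + 1)
  have g1 := h.g0 k
  have c0 := h.cr0 k
  have ω0 := ((sqrt_pos.2 g0).trans_le tg.lo).trans_le e
  have τ0 : 0 ≤ τ := (mul_nonneg_iff_of_pos_left ω0).1 (le_trans (by positivity) hτ)
  have sz := h.sz_sd a.sz z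
  have dr : ∀ {x y} {d : Lx × Ac}, G.Sz (k + 1) x y ω1 d.1 d.2 → Dir (G.sd k z) d.1 d.2 := fun a =>
    let ⟨_, k1, k2⟩ := (h.sz_sd a z).2
    ⟨_, _, _, (h.sz_sd a z).pu nu h2, k1, k2⟩
  have p : Rt2 (G.sd k z) c r s d f fr fs f2 := by
    have := a.rt
    unfold Rt2 d2R dR at this ⊢
    rw [h.sl_nf] at this
    rw [n]
    exact this
  obtain ⟨q, m, m1, m2⟩ := tg.step nu st sz h0 e
  obtain ⟨j, j1, j2⟩ := d2K_bd nu st (h.sz_sd sc z) (h.sz_sd ar.sz z) (h.sz_sd as.sz z) h1 h2 h3 hr hs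
  have a2 := ts2_re nu st tg.rm (dr ar.sz) (dr as.sz) (tg.dir nu sz) (by rw [n]; exact rc)
    (by rw [n]; exact ar.re) (by rw [n]; exact as.re) (by rw [n]; exact a.re)
  have a3 := Rt2.next (S' := G.sl k (G.nx k z)) nu st (hp k z (h.tok_sd t)) (h.tok_sd t) rfl
    (h.sl_nf ..) h.phi_eq tg.rm (dr ar.sz) (dr as.sz) (tg.dir nu sz) p
  have a4 := (lin_step nu st sz tg.lo tg.hi).2 (TCov.cx (h.N_odd _) a.re.2.2)
  refine ⟨⟨⟨PM.mono (h.rh0 k) q le_rfl ?_ ?_, _, m1.add j1, (m2.add j2).mono ?_⟩, a2, a3⟩, a4⟩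
  · show G.Q k ^ 2 * (G.cr k * _) ≤ _
    gcongr _ * (_ * ?_); linarith
  · show G.Q k ^ 50 * _ * (G.cr k * _) * G.g k ^ 2 ≤ _
    gcongr _ * (_ * ?_) * _; linarith
  · show ω' * (G.cr k * _) * G.g k ^ 2 + G.Q k ^ 112 * _ * _ * G.g (k + 1) ^ 4 ≤ _
    have a1 : 16 ≤ G.Q k * G.cr k := cr_Q nu
    suffices G.Q k ^ 112 * (xr + yr) * (xs + ys) * G.g (k + 1) ^ 4 ≤
      ω' * (G.cr k * τ) * G.g k ^ 2 by linarith
    refine le_of_mul_le_mul_left ?_ Q0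
    calc _ = 1 * (G.Q k ^ 113 * (xr + yr) * (xs + ys) * G.g (k + 1) ^ 2) * G.g (k + 1) ^ 2 := by ring
      _ ≤ G.Q k * G.cr k * (ω' * τ) * G.g k ^ 2 := by gcongr; exacts [by linarith, h.g_succ k]
      _ = _ := by ring

variable (A : G.Tu b J)
include A

/-- the flux lemma along the run -/
theorem tr2_fd (hk : k ≤ J) (ar : G.Tr b J k xr yr r fr) (as : G.Tr b J k xs ys s fs)
    (hr : 0 < xr + yr) (a : G.Tr2 b J k x y r s d fr fs f2) (P1 : G.Q k ^ 14 ≤ P)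
    (P2 : P ≤ G.Q k ^ 250) : |gm2 (G.N k) (G.g k / P) (G.f b J k) fr fs f2 - (qc (d.1 0) e1 e1).re| ≤
      G.ep k / 1000 * (x + y) + G.Q k ^ 3 * √(G.g k) * G.g k ^ 2 * (xr + yr) * (xs + ys) ∧
      ∀ D, Asy (G.N k) (G.g k / P) D (lg2 (G.f b J k) fr fs f2) → ∀ a a' δ δ', Cv 0 δ a → Cv 0 δ' a' →
        ‖qc (d.1 0) a a' - ((qc (d.1 0) e1 e1).re * m0 a a' : ℝ)‖ ≤ 64 * (G.ep k / 1000 * (x + y) +
          G.Q k ^ 3 * √(G.g k) * G.g k ^ 2 * (xr + yr) * (xs + ys) + D) * δ * δ' := by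
  have g := A.gd k hk
  have Q0 := h.Q0 k
  obtain ⟨x0, y0⟩ := h.tn2_nn a
  have P3 : P ^ 2 ≤ G.Q k ^ 500 := (pow_le_pow_left₀ ((pow_pos Q0 _).le.trans P1) P2 2).trans_eq (by ring)
  have e : 10 * P ^ 2 * √(G.g k) * (x + y) ≤ G.ep k / 1000 * (x + y) := by
    rw [ep, pow_succ, mul_div_right_comm]
    gcongr
    nlinarith only [P3, h.cQ k (C := 10000) (by norm_num), pow_pos Q0 500]
  have w : ∀ i ≤ 1000, G.Q k ^ i * √(G.g k) ≤ 1 := fun i hi => (mul_le_mul_of_nonneg_right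
    (pow_le_pow_right₀ (h.Q1 k) hi) (sqrt_nonneg _)).trans (h.Qsg k)
  have := (h.lf g.tz).fd2 (b := (G.zz b J k).d) (P := P) le_rfl (w 100 (by norm_num)) P1
    (P3.trans (by linarith [h.Qbb k (i := 500) (by norm_num), pow_pos Q0 500] : _ ≤ G.bb k))
    (h.sz_sl g.dt.sz _) (h.sz_sl ar.sz _) (h.sz_sl as.sz _) (h.u_g k (by linarith [h.u_one k])) le_rfl
    ((mul_le_mul_of_nonneg_right P3 (sqrt_nonneg _)).trans (w 500 (by norm_num))) hr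
    (h.sz_sl a.sz _) (h.re_sl a.re _) a.rt
    (fun e => (((h.f_facts J k).1 b A.b0).2.2 (ab 0)).2.ne' (congrArg _ e))
  rw [h.sl_nf] at this
  refine ⟨this.1.trans (add_le_add e le_rfl), fun D hD a a' δ δ' h1 h2 =>
    (this.2 D hD a a' δ δ' h1 h2).trans ?_⟩
  exact mul_le_mul_of_nonneg_right (mul_le_mul_of_nonneg_right (mul_le_mul_of_nonneg_left
    (add_le_add (add_le_add e le_rfl) le_rfl) (by norm_num)) h1.nonneg) h2.nonneg

/-- the marginal part is slaved to the second variation of the measured coupling -/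
theorem tr2_nb (hk : k ≤ J) (ar : G.Tr b J k xr yr r fr) (as : G.Tr b J k xs ys s fs)
    (hr : 0 < xr + yr) (a : G.Tr2 b J k x y r s d fr fs f2)
    (hD : Asy (G.N k) (G.fx k) D (lg2 (G.f b J k) fr fs f2)) : nb (d.1 0) ≤
      512 * |gm2 (G.N k) (G.fx k) (G.f b J k) fr fs f2| + 5 * G.ep k * (x + y) +
        4608 * (G.Q k ^ 3 * √(G.g k) * G.g k ^ 2 * (xr + yr) * (xs + ys)) + 4096 * D := by
  obtain ⟨a1, a2⟩ := h.tr2_fd A hk ar as hr a (pow_le_pow_right₀ (h.Q1 k) (by norm_num)) le_rfl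
  obtain ⟨x0, y0⟩ := h.tn2_nn a
  have := mul_nonneg (h.ep0 k) (add_nonneg x0 y0)
  have := (abs_sub_abs_le_abs_sub _ _).trans ((abs_sub_comm _ _).trans_le a1)
  refine (nb_le (C := 8 * |(qc (d.1 0) e1 e1).re| + 64 * (G.ep k / 1000 * (x + y) +
    G.Q k ^ 3 * √(G.g k) * G.g k ^ 2 * (xr + yr) * (xs + ys) + D))
    fun s s' δ δ' h1 h2 => ?_).trans (by unfold fx; linarith)
  have c := mul_le_mul_of_nonneg_left (m0_le h1 h2) (abs_nonneg (qc (d.1 0) e1 e1).re)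
  rw [← abs_mul, ← norm_eq_abs, ← Complex.norm_real] at c
  linarith [norm_sub_norm_le (qc (d.1 0) s s') (((qc (d.1 0) e1 e1).re * m0 s s' : ℝ) : ℂ),
    a2 D hD s s' δ δ' h1 h2]

variable (hp : G.Pu)
include hp

theorem tr2_step (hk : k < J) (ar : G.Tr b J (k + 1) xr yr r fr) (as : G.Tr b J (k + 1) xs ys s fs)
    (hr : 0 < xr + yr) (hs : 0 < xs + ys) (a : G.Tr2 b J (k + 1) x y r s d fr fs f2) (h0 : 0 < x + y)
    (hτ : G.Q k ^ 113 * (xr + yr) * (xs + ys) * G.g (k + 1) ^ 2 ≤ √(G.g k) * τ) :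
    G.Tr2 b J k (x + G.Q k ^ 50 * √(G.g (k + 1)) * (x + y)) (G.cr k * (x + y + τ))
      (G.ts k (G.zz b J (k + 1)) (G.zz b J (k + 1)).d r)
      (G.ts k (G.zz b J (k + 1)) (G.zz b J (k + 1)).d s)
      (G.ts2 k (G.zz b J (k + 1)) (G.zz b J (k + 1)).d r s d) (TT (G.l k) (G.a k) (G.N k) fr)
      (TT (G.l k) (G.a k) (G.N k) fs) (TT (G.l k) (G.a k) (G.N k) f2) ∧
    ∀ a a' δ δ', Cv 0 δ a → Cv 0 δ' a' →
      ‖qc ((G.ts2 k (G.zz b J (k + 1)) (G.zz b J (k + 1)).d r s d).1 0) a a' - qc (d.1 0) a a'‖ ≤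
        G.Q k ^ 50 * √(G.g (k + 1)) * (x + y) * δ * δ' := by
  have g := A.gd (k + 1) hk
  have t := (h.gd_tg g).2.1
  have g0 := h.g0 (k + 1)
  have := h.tn2_step hp g.tz g.dt.re t g.dt.sz ar as le_rfl t.hi (by
    have a1 : G.Q k ^ 115 * √(G.g (k + 1)) ≤ 1 := qsq (h.sd_all k (G.zz b J (k + 1))).nu (by norm_num)
    have a2 := mul_le_mul_of_nonneg_left (show G.g (k + 1) ^ 2 ≤ √(G.g (k + 1)) * √(G.g (k + 1)) by
      rw [mul_self_sqrt g0.le]; nlinarith [h.g1 (k + 1)]) (pow_pos (h.Q0 k) 115).le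
    nlinarith [sqrt_nonneg (G.g (k + 1))]) hr hs a h0 (h.gd_tg g).2.2 hτ
  rw [Tr2, zz_step b hk, h.f_step b hk]
  exact this

/-- the two sided system of a flow of second jets -/
theorem tr2_sys {xr yr xs ys τ : ℕ → ℝ} (hi : i ≤ J) (H : ∀ j < i, k ≤ j →
      G.Tr b J (j + 1) (xr j) (yr j) (G.tc b J i r (j + 1)) (G.tt fr i (j + 1)) ∧
      G.Tr b J (j + 1) (xs j) (ys j) (G.tc b J i s (j + 1)) (G.tt fs i (j + 1)) ∧
      0 < xr j + yr j ∧ 0 < xs j + ys j ∧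
      G.Q j ^ 113 * (xr j + yr j) * (xs j + ys j) * G.g (j + 1) ^ 2 ≤ √(G.g j) * τ j)
    (a : G.Tr2 b J i x y r s d fr fs f2) (y0 : 0 < y) : ∃ w : ℕ → ℝ, w i = y ∧
    (∀ j ≤ i, k ≤ j → 0 < w j ∧ G.Tr2 b J j (nb ((G.tc2 b J i r s d j).1 0)) (w j) (G.tc b J i r j)
      (G.tc b J i s j) (G.tc2 b J i r s d j) (G.tt fr i j) (G.tt fs i j) (G.tt f2 i j)) ∧
    ∀ j < i, k ≤ j → w j = G.cr j * (nb ((G.tc2 b J i r s d (j + 1)).1 0) + w (j + 1) + τ j) ∧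
      ∀ a a' δ δ', Cv 0 δ a → Cv 0 δ' a' → ‖qc ((G.tc2 b J i r s d j).1 0) a a' -
        qc ((G.tc2 b J i r s d (j + 1)).1 0) a a'‖ ≤ G.Q j ^ 50 * √(G.g (j + 1)) *
          (nb ((G.tc2 b J i r s d (j + 1)).1 0) + w (j + 1)) * δ * δ' := by
  obtain ⟨w, hw⟩ : ∃ w, w = dw (fun j w => G.cr j *
    (nb ((G.tc2 b J i r s d (j + 1)).1 0) + w + τ j)) y i := ⟨_, rfl⟩
  have ws : ∀ j < i, w j = G.cr j * (nb ((G.tc2 b J i r s d (j + 1)).1 0) + w (j + 1) + τ j) :=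
    fun j hj => by rw [hw, dw_step _ _ hj]
  have wt : w i = y := by rw [hw, dw_top]
  have K : ∀ j ≤ i, k ≤ j → 0 < w j ∧ G.Tr2 b J j (nb ((G.tc2 b J i r s d j).1 0)) (w j)
      (G.tc b J i r j) (G.tc b J i s j) (G.tc2 b J i r s d j) (G.tt fr i j) (G.tt fs i j)
      (G.tt f2 i j) :=
    dw_ind (fun _ => by simp only [wt, tc_top, tc2_top, tt_top]; exact ⟨y0, h.tn2_nb a⟩)
      fun j hj ih hk => by
      obtain ⟨i1, i2⟩ := ih (by omega)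
      obtain ⟨b1, b2, b3, b4, b5⟩ := H j hj hk
      have p := add_pos_of_nonneg_of_pos (nb_nonneg ((G.tc2 b J i r s d (j + 1)).1 0)) i1
      have := h.Q0 j
      have τ0 : 0 ≤ τ j := (mul_nonneg_iff_of_pos_left (sqrt_pos.2 (h.g0 j))).1
        (le_trans (by positivity) b5)
      rw [ws j hj, tc2_step hj, tc_step r hj, tc_step s hj, tt_step fr hj, tt_step fs hj,
        tt_step f2 hj]
      exact ⟨mul_pos (h.cr0 j) (by linarith),
        h.tn2_nb (h.tr2_step A hp (hj.trans_le hi) b1 b2 b3 b4 i2 p b5).1⟩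
  refine ⟨w, wt, K, fun j hj hk => ⟨ws j hj, ?_⟩⟩
  obtain ⟨b1, b2, b3, b4, b5⟩ := H j hj hk
  obtain ⟨i1, i2⟩ := K _ hj (by omega)
  rw [tc2_step hj]
  exact (h.tr2_step A hp (hj.trans_le hi) b1 b2 b3 b4 i2
    (add_pos_of_nonneg_of_pos (nb_nonneg _) i1) b5).2

end Ok

end Gl

end Pool.Agent.Lib.MP_7f377f_mp.RG.Q4.En
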