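import Pool.Agent.Lib.MP_7f377f_mp.G.S23T2
import Pool.Agent.Lib.MP_7f377f_mp.G.Q5Dif

/-! The marginal part of the second jet is read from the logarithm of the density. -/

noncomputable section

open Pool.Agent.Lib.MP_7f377f_mp.Jet

set_option linter.unusedSectionVars false
variable [Pool.Agent.Lib.MP_7f377f_mp.GD]

namespace Pool.Agent.Lib.MP_7f377f_mp.RG.Q4.En

open Finset Real Metric Sd Pos Function

/-- the logarithm along rays depends holomorphically on a parameter -/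
theorem lg1_par {Φ : ℂ × ℂ → ℂ} {r : ℝ} (hd : Differentiable ℂ Φ)
    (h0 : ∀ μ ∈ ball (0 : ℂ) 2, ∀ t ∈ ball (0 : ℂ) r, Φ (μ, t) ≠ 0) :
    DifferentiableOn ℂ (fun t => lg1 (fun μ => Φ (μ, t)) 1) (ball 0 r) := by
  intro t0 ht0
  have mr := mem_ball_self (x := (0 : ℂ)) (pos_of_mem_ball ht0)
  have m0 : (0 : ℂ) ∈ ball (0 : ℂ) 2 := by simp
  have m1 : (1 : ℂ) ∈ ball (0 : ℂ) 2 := by simp
  have := ((convex_ball (0 : ℂ) 2).prod (convex_ball (0 : ℂ) r)).contractibleSpace ⟨(0, 0), m0, mr⟩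
  obtain ⟨L, l1, l2⟩ := Complex.exists_continuousOn_eqOn_exp_comp
    (U := ball (0 : ℂ) 2 ×ˢ ball (0 : ℂ) r) (SimplyConnectedSpace.ofContractible _)
    (isOpen_ball.prod isOpen_ball) hd.continuous.continuousOn fun ⟨p, hp, q⟩ => h0 _ hp.1 _ hp.2 q
  have k : ∀ μ ∈ ball (0 : ℂ) 2, DifferentiableOn ℂ (fun t => L (μ, t)) (ball 0 r) := fun μ hμ => by
    have d : DifferentiableOn ℂ (fun t => Φ (μ, t)) (ball 0 r) := by fun_prop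
    refine ((lg1_spec d (h0 μ hμ)).1.add_const (L (μ, 0))).congr fun t ht => ?_
    rw [lg1_eq (g := fun t => L (μ, t)) d (h0 μ hμ)
      (l1.comp (by fun_prop) fun _ h => ⟨hμ, h⟩) (fun t ht => l2 ⟨hμ, ht⟩) ht, sub_add_cancel]
  exact (((k 1 m1).sub (k 0 m0)).congr fun t ht => lg1_eq (g := fun μ => L (μ, t)) (by fun_prop)
    (fun μ hμ => h0 μ hμ t ht) (l1.comp (by fun_prop) fun _ h => ⟨h, ht⟩)
    (fun μ hμ => l2 ⟨hμ, ht⟩) m1) t0 ht0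

section jets

variable {ι : Type} [DecidableEq ι] {ρ ρ' : ι → ℝ} {A T : Finset ι} {a a' : (ι → ℂ) → ℂ} {c c' γ : ℂ}

/-- equal jets of exponentials -/
theorem eqv_log (e : Eqv ρ A (fun s => c * Complex.exp (a s)) fun s => c' * Complex.exp (a' s))
    (h : Hb ρ a) (h' : Hb ρ a') (hc : c ≠ 0) (hT : T ⊆ A) (hn : T.Nonempty) :
    jd T a = jd T a' := by
  obtain ⟨i, hi⟩ := hn
  obtain ⟨_, h⟩ := h
  obtain ⟨_, h'⟩ := h'
  have d := h.sub h'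
  have e1 := (e.mul (Hb.refl (A := A) ⟨_, h'⟩).neg.exp).pd (hT hi)
  have e2 := ((e1.mul (Hb.refl ⟨_, d.rs i⟩).neg.exp).eq _ (erase_subset_erase i hT)).trans
    ((jd_congr h.pos (g' := 0) (fun s hs => by simp [Jet.pd, mul_assoc, ← Complex.exp_add]) _).trans
      (jd_zero _))
  rw [jd_congr h.pos (g' := c • Jet.pd i (a - a')) (fun s hs => ?_), jd_smul,
    ← d.jd_insert (notMem_erase i T), insert_erase hi, jd_sub h h'] at e2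
  · exact sub_eq_zero.1 ((mul_eq_zero.1 e2).resolve_left hc)
  · have := (((d.dAt hs i).hasDerivAt.cexp).const_mul c).deriv
    simp only [Jet.pd, Jet.rs, mul_assoc, ← Complex.exp_add, ← sub_eq_add_neg, Pi.sub_apply, Pi.smul_apply,
      smul_eq_mul] at this ⊢
    rw [this, mul_assoc, mul_right_comm, ← Complex.exp_add, add_neg_cancel, Complex.exp_zero, one_mul]

theorem eqv_sc (e : Eqv ρ A a a') (h0 : ∀ i, 0 < ρ' i) (h : ∀ i, ‖γ‖ * ρ' i ≤ ρ i) :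
    Eqv ρ' A (fun s => a (γ • s)) fun s => a' (γ • s) := by
  have u : ∀ (s : ι → ℂ) i t, γ • update s i t = update (γ • s) i (γ * t) :=
    fun s i t => by ext j; by_cases h : j = i <;> simp [h]
  have k : ∀ {a : (ι → ℂ) → ℂ}, Hb ρ a → Hb ρ' fun s => a (γ • s) := fun ⟨M, m⟩ =>
    ⟨M, h0, fun s hs i => by
      simp only [u]
      exact (m.hol _ (pd_scale m.pos h hs) i).comp (f := fun t => γ * t) (by fun_prop) fun t ht => by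
        simpa using pd_scale m.pos h (Pd.upd hs ht) i,
      fun s hs => m.bd _ (pd_scale m.pos h hs)⟩
  exact ⟨k e.fst, k e.snd, fun S hS => by rw [jd_sc, jd_sc, e.eq S hS]⟩

theorem qc_ma {p : Pa} {e : Finset ι → Lx} (h0 : 0 < p.ρ) (h : ∀ T ⊆ A, ∃ x y w, PM p x y w (e T))
    (u v : V) : (fun s => qc (ma A e s 0) u v) = ma A fun T => qc (e T 0) u v := funext fun s => by
  choose! x y w h using h
  have := fun T (hT : T ∈ A.powerset) => (h T (mem_powerset.1 hT) 0).1.smul h0 (mon T s)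
  rw [show ma A e s 0 = fun B => ∑ T ∈ A.powerset, mon T s * e T 0 B by ext; simp [ma], qc,
    (Ps.sum _ h0 fun T hT => (this T hT).1).2]
  exact sum_congr rfl fun T hT => (this T hT).2 _ _

end jets

/-- the mixed derivative of a function of the sum -/
theorem jd_sum2 {φ : ℂ → ℂ} {σ : ℝ} (σ0 : 0 < σ) (h : DifferentiableOn ℂ φ (ball 0 σ)) :
    Hb (fun _ : Fin 2 => σ / 4) (fun s => φ (s 0 + s 1)) ∧
      jd univ (fun s : Fin 2 → ℂ => φ (s 0 + s 1)) = iteratedDeriv 2 φ 0 := by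
  have l := sh_lin (r := fun _ : Fin 2 => σ / 4) (fun _ => by positivity) univ 1
  simp only [Fin.sum_univ_two, Pi.one_apply, mul_one, norm_one] at l
  have a := Hb.comp ⟨_, l⟩ h (isCompact_closedBall 0 (σ / 2))
    (closedBall_subset_ball (by linarith)) fun s hs =>
      mem_closedBall_zero_iff.2 ((l.bd s hs).trans_eq (by ring))
  refine ⟨a, ?_⟩
  rw [show (univ : Finset (Fin 2)) = insert 0 {1} from rfl, a.choose_spec.jd_insert (by simp),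
    jd_single, iteratedDeriv_succ, iteratedDeriv_one]
  simp [Jet.pd, deriv_comp_add_const]

namespace LF

variable {ι : Type} [DecidableEq ι] {S : Sd} {v e ω P X x y θ θ' : ℝ} {F : Mt} {ϑ : Lk → Ang}
  {A T : Finset ι} {W W' : ι → Finset St} {ρ : ι → ℝ} {ψ ψ' : (ι → ℂ) → Lx} {K K' : (ι → ℂ) → Ac}
  (h : LF S v e) (h2 : √S.g ≤ ω) (h3 : S.Q ^ 100 * ω ≤ 1) (P1 : S.Q ^ 14 ≤ P) (P2 : P ^ 2 ≤ S.β)
  (hF : As F) (hd : ‖F‖ ≤ 2 * tq S.nf (S.g / P)) (hϑ : Fx S.nf F ϑ)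
  (hu : S.Q ^ 300 * (1 + 12 * X) * S.g ^ 2 ≤ 1) (f : Fi S.p S.nf A W ρ θ ψ K)
  (a : ∀ s ∈ Pd ρ, Sz S.p S.nf S.Q S.g X X ω (ψ s) (K s) ∧ ∀ v, ψ s v = ψ s 0)
include h h2 a f

theorem ld_zero (hx : 0 ≤ x) : Sz S.p S.nf S.Q S.g x x ω (0 : Lx × Ac).1 (0 : Lx × Ac).2 := by
  simpa using sz_mono h.ρ0 S.Q0.le ((sqrt_nonneg _).trans h2)
    (sz_smul h.ρ0 (a 0 (zero_mem f.pos)).1 0) (x' := x) (y' := x) (by simpa) (by simpa)

include h3 P1 P2 hF hd hϑ hu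

/-- the logarithm of the density of a family -/
theorem ld_hb : Hb ρ (fun s => Ldc S 0 (ψ s, K s) (ab ϑ)) ∧ Rdc S 0 (ab ϑ) ≠ 0 ∧ ∀ s ∈ Pd ρ,
    Rdc S (ψ s, K s) (ab ϑ) = Rdc S 0 (ab ϑ) * Complex.exp (Ldc S 0 (ψ s, K s) (ab ϑ)) := by
  have k := fun s hs => h.ro1 h2 h3 P1 P2 hF hd hϑ (b := 0) (d := 0) (d' := (ψ s, K s))
    (h.ld_zero h2 f a zero_le_one) (h.ld_zero h2 f a (((a s hs).1.1 0).1.nonneg h.ρ0).1) (a s hs).1 hu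
    (by simpa using (a s hs).1) (by simpa using (a s hs).2)
  have nz : ∀ s ∈ Pd ρ, ∀ μ ∈ ball (0 : ℂ) 2, Rdc S (0 + μ • (ψ s, K s)) (ab ϑ) ≠ 0 :=
    fun s hs μ hμ => by
      simpa only [smul_zero, add_zero] using (k s hs).1 0 μ (by simp)
        (by linarith [mem_ball_zero_iff.1 hμ])
  obtain ⟨M, m⟩ := hb_ma (A := A) f.pos fun T => qc (jL T ψ 0) (pt F) (pt F)
  rw [← qc_ma h.ρ0 fun T hT => (f.pu T hT).choose_spec.1, ← f.psi] at m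
  refine ⟨⟨5 * P ^ 2 * ω * (X + X) * tq S.nf (S.g / P) ^ 2 * S.nf ^ 4 + S.nf ^ 4 * M +
    ‖Ldc S 0 0 (ab ϑ)‖, f.pos, fun s hs i => ?_, fun s hs => ?_⟩, ?_, fun s hs => ?_⟩
  · obtain ⟨u, w, e⟩ : ∃ u w : Lx × Ac, ∀ t, (ψ (update s i t), K (update s i t)) = u + t • w := by
      rw [f.psi, f.act]
      by_cases hi : i ∈ A
      · exact ⟨(_, _), (_, _), fun t => Prod.ext (ma_line hi) (ma_line hi)⟩
      · exact ⟨(_, _), 0, fun t => by rw [smul_zero, add_zero, ma_upd hi, ma_upd hi]⟩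
    have e' : ∀ μ t : ℂ, 0 + μ • (u + t • w) = 0 + μ • u + (μ * t) • w := fun μ t => by module
    simp only [Ldc, e, e']
    refine lg1_par (Φ := fun p => Rdc S (0 + p.1 • u + (p.1 * p.2) • w) (ab ϑ))
      (rd_diff (by fun_prop) (by fun_prop) _) fun μ hμ t ht => ?_
    simpa only [e, e'] using nz _ (Pd.upd hs ht) μ hμ
  · have b1 := (k s hs).2
    have b2 : ‖(S.nf : ℂ) ^ 4 * _‖ ≤ _ := norm_mul_le_of_le (by simp : _ ≤ (S.nf : ℝ) ^ 4) (m.bd s hs)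
    rw [sub_zero] at b1
    exact (congrArg _ (by ring)).trans_le (norm_add_le_of_le (norm_sub_le_of_le b1 b2) le_rfl)
  · simpa using nz 0 (zero_mem f.pos) 0 (by simp)
  · simpa [Ldc] using (lg1_spec (rd_line _).differentiableOn (nz s hs)).2 1 (by simp)

/-- the jets of the logarithms of two families -/
theorem ld_dif (f' : Fi S.p S.nf A W' ρ θ' ψ' K')
    (a' : ∀ s ∈ Pd ρ, Sz S.p S.nf S.Q S.g X X ω (ψ' s) (K' s) ∧ ∀ v, ψ' s v = ψ' s 0)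
    (D : Sf S.p S.nf S.Q S.g ρ x y ω (ψ - ψ') (K - K')) (hT : T ⊆ A) :
    ‖jd T (fun s => Ldc S 0 (ψ s, K s) (ab ϑ)) - jd T (fun s => Ldc S 0 (ψ' s, K' s) (ab ϑ)) +
      S.nf ^ 4 * qc ((jL T ψ - jL T ψ') 0) (pt F) (pt F)‖ ≤
      5 * P ^ 2 * ω * (x + y) * tq S.nf (S.g / P) ^ 2 * S.nf ^ 4 / ∏ i ∈ T, ρ i := by
  obtain ⟨_, l⟩ := (h.ld_hb h2 h3 P1 P2 hF hd hϑ hu f a).1
  obtain ⟨_, l'⟩ := (h.ld_hb h2 h3 P1 P2 hF hd hϑ hu f' a').1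
  have e : ψ - ψ' = ma A fun T => jL T ψ - jL T ψ' := funext fun s => by
    rw [Pi.sub_apply, congrFun f.psi s, congrFun f'.psi s]
    simp only [ma, smul_sub, sum_sub_distrib]
  have q := qc_ma (e := fun T => jL T ψ - jL T ψ') h.ρ0 (fun T hT => by
    obtain ⟨_, ⟨_, _, _, u⟩, -⟩ := f.pu T hT
    obtain ⟨_, ⟨_, _, _, u'⟩, -⟩ := f'.pu T hT
    exact ⟨_, _, _, fun v => ⟨((u v).1.sub (u' v).1 h.ρ0).1, (u v).2.sub (u' v).2⟩⟩) (pt F) (pt F)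
  have m := (sh_ma f.pos A fun T => qc ((jL T ψ - jL T ψ') 0) (pt F) (pt F)).smul (S.nf ^ 4)
  rw [← jd_sub l l', ← jd_ma (fun T => qc ((jL T ψ - jL T ψ') 0) (pt F) (pt F)) hT, ← jd_smul,
    ← jd_add (l.sub l') m]
  refine SH.jd_le ⟨f.pos, ((l.sub l').add m).hol, fun s hs => ?_⟩ T
  rw [← q, ← e]
  exact (h.ro1 h2 h3 P1 P2 hF hd hϑ (b := 0) (d := (ψ' s, K' s)) (d' := (ψ s, K s))
    (h.ld_zero h2 f a zero_le_one) (a' s hs).1 (a s hs).1 hu (D.sz hs)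
    fun v => congrArg₂ (· - ·) ((a s hs).2 v) ((a' s hs).2 v)).2

end LF

namespace Gl

/-- the second variation of the logarithm of the density is almost constant on flux fields -/
def D2s (G : Gl) (b : ℝ) (J k : ℕ) (ε : ℝ) : Prop := ∀ ϑ, Fw (G.N k) (G.g k / G.Q k ^ 14) ϑ →
  ‖iteratedDeriv 2 (fun s => lf1 (G.fb b J k) s (ab ϑ) - lf1 (G.fb b J k) s (ab 0)) 0‖ ≤
    ε * (tq (G.N k) (G.g k / G.Q k ^ 14) ^ 2 * G.N k ^ 4)

variable {G : Gl} {b b' θ θ' x y X ε : ℝ} {I J J' k : ℕ} {z : Z} {Y Y' : Fy (Fin 2)}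
  {r0 r0' r r' ρ : Fin 2 → ℝ} {γ : ℂ}

theorem fr_fb2 (s : Fin 2 → ℂ) : G.fr univ (fun _ => 1) b J k s = G.fb b J k (s 0 + s 1) := by
  simp only [fr, fb, sF, Fin.sum_univ_two, add_smul]

theorem Ok.p14 (h : G.Ok) (k : ℕ) : (G.Q k ^ 14) ^ 2 ≤ G.bb k := by
  rw [← pow_mul]
  linarith [h.Qbb k (i := 14 * 2) (by norm_num), pow_pos (h.Q0 k) (14 * 2)]

/-- the second jet of the logarithm of the density -/
theorem Ok.ld_jt (h : G.Ok) (t : G.Tz I k z) (hJ : k ≤ J)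
    (F : G.Fd k z univ r0 r θ Y (G.fr univ (fun _ => 1) b J k)) (ρ0 : ∀ i, 0 < ρ i)
    (hρ : ∀ i, ‖γ‖ * ρ i ≤ r i)
    (a : ∀ s ∈ Pd ρ, G.Sz k X X (G.Q k ^ 100)⁻¹ (Y.ψ (γ • s)) (Y.K (γ • s)) ∧
      ∀ v, Y.ψ (γ • s) v = Y.ψ (γ • s) 0) (hX : G.Q k ^ 300 * (1 + 12 * X) * G.g k ^ 2 ≤ 1)
    {ϑ : Lk → Ang} (w : Fw (G.N k) (G.g k / G.Q k ^ 14) ϑ) :
    ContDiffAt ℂ 2 (lf1 (G.fb b J k) · (ab ϑ)) 0 ∧
      γ ^ 2 * iteratedDeriv 2 (lf1 (G.fb b J k) · (ab ϑ)) 0 = γ ^ 2 * jd univ Y.E +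
        jd univ fun s => Ldc (G.sl k z) 0 (Y.ψ (γ • s), Y.K (γ • s)) (ab ϑ) := by
  have n := h.sl_nf k z
  have e : Eqv r0 univ (fun s => G.fb b J k (s 0 + s 1) (ab ϑ)) fun s =>
      Complex.exp (Y.E s) * Rdc (G.sl k z) (Y.ψ s, Y.K s) (ab ϑ) := by
    simp only [← fr_fb2, Rdc, n]
    exact ⟨F.eq.fst.hb _, F.eq.snd.hb _, F.eq.eq _ w.per⟩
  obtain ⟨Φ, w1, w2, w3⟩ := w
  obtain ⟨l1, l2, l3⟩ := (h.lf t).ld_hb (P := G.Q k ^ 14) (h.sg_le k)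
    (mul_inv_cancel₀ (pow_pos (h.Q0 k) _).ne').le le_rfl (h.p14 k) w1 (n ▸ w2) (n ▸ w3) hX (n ▸ F.fi.sc (h.ρ0 k) ρ0 hρ) fun s hs => ⟨h.sz_sl (a s hs).1 z, (a s hs).2⟩
  have c0 : G.fb b J k 0 (ab ϑ) ≠ 0 := by
    have := l3 0 (zero_mem ρ0)
    rw [smul_zero] at this
    simpa [this, l2] using e.zero.trans_ne (by simp [this, l2])
  obtain ⟨σ, σ0, nz⟩ := Metric.eventually_nhds_iff_ball.1 (((fb_diff hJ (ab ϑ)).differentiableAt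
    (ball_mem_nhds 0 one_pos)).continuousAt.eventually_ne c0)
  obtain ⟨d1, d2⟩ := lg1_spec (fb_diff hJ (ab ϑ)) nz
  obtain ⟨d3, d4⟩ := jd_sum2 σ0 d1
  obtain ⟨r1, p1, q1, q2⟩ : ∃ r1 : Fin 2 → ℝ, (∀ i, 0 < r1 i) ∧ (∀ i, r1 i ≤ r0 i) ∧ ∀ i, r1 i ≤ σ / 4 :=
    ⟨fun i => min (r0 i) (σ / 4), fun i => lt_min (e.pos i) (by positivity),
      fun _ => min_le_left _ _, fun _ => min_le_right _ _⟩
  obtain ⟨r2, p2, q3, q4⟩ : ∃ r2 : Fin 2 → ℝ, (∀ i, 0 < r2 i) ∧ (∀ i, r2 i ≤ ρ i) ∧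
      ∀ i, ‖γ‖ * r2 i ≤ r1 i := ⟨fun i => min (ρ i) (r1 i / (‖γ‖ + 1)),
    fun i => lt_min (ρ0 i) (by have := p1 i; positivity), fun _ => min_le_left _ _, fun i => by
      have := (le_div_iff₀ (by positivity)).1 (min_le_right (ρ i) (r1 i / (‖γ‖ + 1)))
      nlinarith [lt_min (ρ0 i) (show 0 < r1 i / (‖γ‖ + 1) by have := p1 i; positivity)]⟩
  have e1 := e.shrink p1 q1
  have e2 := eqv_sc ((e1.fst.congr (A := univ) (g' := fun s => G.fb b J k 0 (ab ϑ) *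
    Complex.exp (lg1 (G.fb b J k · (ab ϑ)) (s 0 + s 1))) fun s hs => d2 _ (mem_ball_zero_iff.2 (by
      linarith [norm_add_le (s 0) (s 1), hs 0, hs 1, q2 0, q2 1]))).symm.trans e1) p2 q4
  obtain ⟨_, u1⟩ := (eqv_sc (A := univ) (Hb.refl (F.ma ▸ hb_ma p1 _ : Hb r1 Y.E)) p2 q4).fst
  have u2 := l1.choose_spec.shrink p2 q3
  refine ⟨(d1.analyticAt (ball_mem_nhds 0 σ0)).contDiffAt, ?_⟩
  have := eqv_log (e2.trans (e2.snd.congr fun s hs => by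
      beta_reduce
      rw [l3 s fun i => (hs i).trans_le (q3 i), mul_left_comm, ← Complex.exp_add]
      rfl))
    (eqv_sc (A := univ) ((Hb.refl d3).shrink p1 q2) p2 q4).fst ⟨_, u1.add u2⟩ c0 Subset.rfl
    univ_nonempty
  rw [jd_sc (fun s => lg1 _ (s 0 + s 1)), d4] at this
  exact this.trans ((jd_add u1 u2 _).trans (by rw [jd_sc]; rfl))

/-- the marginal part of the difference of the second jets -/
theorem Ok.cv_nb (h : G.Ok) (t : G.Tz I k z) (hJ : k ≤ J) (hJ' : k ≤ J')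
    (F : G.Fd k z univ r0 r θ Y (G.fr univ (fun _ => 1) b J k))
    (F' : G.Fd k z univ r0' r' θ' Y' (G.fr univ (fun _ => 1) b' J' k))
    (ρ0 : ∀ i, 0 < ρ i) (hρ : ∀ i, ρ i ≤ r i ∧ ‖γ‖ * ρ i ≤ r' i)
    (a : ∀ s ∈ Pd ρ, G.Sz k X X (G.Q k ^ 100)⁻¹ (Y.ψ s) (Y.K s) ∧ ∀ v, Y.ψ s v = Y.ψ s 0)
    (a' : ∀ s ∈ Pd ρ, G.Sz k X X (G.Q k ^ 100)⁻¹ (Y'.ψ (γ • s)) (Y'.K (γ • s)) ∧
      ∀ v, Y'.ψ (γ • s) v = Y'.ψ (γ • s) 0) (hX : G.Q k ^ 300 * (1 + 12 * X) * G.g k ^ 2 ≤ 1)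
    (D : G.Df2 k ρ x y Y (Y'.sc γ)) (e : G.D2s b J k ε) (e' : G.D2s b' J' k ε) :
    nb ((Y.jt univ - γ ^ 2 • Y'.jt univ).1 0) ≤
      17000 * (1 + ‖γ‖ ^ 2) * ε + 10 ^ 5 * (x + y) / (G.Q k ^ 72 * (ρ 0 * ρ 1)) := by
  have n := h.sl_nf k z
  have L := h.lf t
  have q := h.Q0 k
  have n0 : G.N k ≠ 0 := (h.N_odd k).pos.ne'
  have t0 : 0 < tq (G.N k) (G.g k / G.Q k ^ 14) :=
    n ▸ (L.tq_bd (le_self_pow₀ (h.Q1 k) (by norm_num)) (h.p14 k)).1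
  have j := fun ϑ => h.ld_jt (γ := 1) (ϑ := ϑ) t hJ F ρ0 (fun i => by simpa using (hρ i).1)
    (by simpa only [one_smul] using a) hX
  have j' := fun ϑ => h.ld_jt (ϑ := ϑ) t hJ' F' ρ0 (fun i => (hρ i).2) a' hX
  simp only [one_pow, one_mul, one_smul] at j
  have f := F.fi.mono ρ0 (fun i => (hρ i).1) le_rfl fun _ => Subset.rfl
  have f' := F'.fi.sc (h.ρ0 k) ρ0 fun i => (hρ i).2
  obtain ⟨H, hH⟩ : ∃ H : Conf → ℂ, ∀ U, H U = iteratedDeriv 2 (lf1 (G.fb b J k) · U) 0 -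
    γ ^ 2 * iteratedDeriv 2 (lf1 (G.fb b' J' k) · U) 0 := ⟨_, fun _ => rfl⟩
  have B : ∀ ϑ, Fw (G.N k) (G.g k / G.Q k ^ 14) ϑ → ‖H (ab ϑ) - H (ab 0)‖ ≤
      (1 + ‖γ‖ ^ 2) * ε * tq (G.N k) (G.g k / G.Q k ^ 14) ^ 2 * G.N k ^ 4 := fun ϑ w => by
    have b1 := e ϑ w
    have b2 := e' ϑ w
    erw [iteratedDeriv_sub (j ϑ w).1 (j 0 (fw_zero t0)).1] at b1
    erw [iteratedDeriv_sub (j' ϑ w).1 (j' 0 (fw_zero t0)).1] at b2
    refine ((congrArg _ ?_).trans_le (norm_sub_le_of_le b1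
      (norm_mul_le_of_le (norm_pow γ 2).le b2))).trans_eq (by ring)
    rw [hH, hH]
    ring
  have B2 := fun ϑ ϑ' w w' => (congrArg _ (sub_sub_sub_cancel_right ..).symm).trans_le
    (norm_sub_le_of_le (B ϑ w) (B ϑ' w'))
  obtain ⟨_, ⟨_, _, _, u⟩, -⟩ := f.pu univ Subset.rfl
  obtain ⟨_, ⟨_, _, _, u'⟩, -⟩ := f'.pu univ Subset.rfl
  have R : Roc (G.N k) (G.g k / G.Q k ^ 14) (5 * (x + y) / (G.Q k ^ 72 * (ρ 0 * ρ 1)))
      ((jL univ Y.ψ - jL univ fun s => Y'.ψ (γ • s)) 0) H :=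
    ⟨jd univ Y.E - γ ^ 2 * jd univ Y'.E, fun Φ ϑ w1 w2 w3 => by
      have := L.ld_dif (P := G.Q k ^ 14) (h.sg_le k) (mul_inv_cancel₀ (pow_pos q _).ne').le le_rfl
        (h.p14 k) w1 (n ▸ w2) (n ▸ w3) hX (n ▸ f) (fun s hs => ⟨h.sz_sl (a s hs).1 z, (a s hs).2⟩)
        (n ▸ f') (fun s hs => ⟨h.sz_sl (a' s hs).1 z, (a' s hs).2⟩) (by rw [n]; exact D) Subset.rfl
      rw [n, Fin.prod_univ_two] at this
      rw [hH, (j ϑ ⟨Φ, w1, w2, w3⟩).2, (j' ϑ ⟨Φ, w1, w2, w3⟩).2]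
      refine ((congrArg _ (by ring)).trans_le this).trans_eq ?_
      change _ * tq _ (G.g k / _) ^ 2 * _ / _ = _
      have := ρ0 0
      have := ρ0 1
      field_simp⟩
  have := (R.iso (D := 2 * ((1 + ‖γ‖ ^ 2) * ε)) n0 t0 ((u 0).1.sub (u' 0).1 (h.ρ0 k)).1).2
    fun ϑ w => ⟨fun σ => (B2 _ _ (w.pm σ) w).trans_eq (by ring),
      fun i => (B2 _ _ (w.rf i) w).trans_eq (by ring)⟩
  have r1 : ‖rc1 (G.N k) (G.g k / G.Q k ^ 14) H‖ ≤ (1 + ‖γ‖ ^ 2) * ε := by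
    rw [rc1, norm_div, norm_sub_rev, Complex.norm_real, norm_of_nonneg (by positivity),
      div_le_iff₀ (by positivity)]
    exact (B _ (fw_fl n0 t0)).trans_eq (by ring)
  rw [jL_sc] at this
  refine le_trans this ?_
  rw [mul_div_assoc, mul_div_assoc]
  linarith [(norm_nonneg _).trans r1]

end Gl

end Pool.Agent.Lib.MP_7f377f_mp.RG.Q4.En
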