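import Pool.Agent.Lib.MP_7f377f_mp.G.S23F3a
import Pool.Agent.Lib.MP_7f377f_mp.G.Q5TanG

/-! The difference of two invariant families: the two sided system for all jets. -/

noncomputable section

open Pool.Agent.Lib.MP_7f377f_mp.Jet

set_option linter.unusedSectionVars false
variable [Pool.Agent.Lib.MP_7f377f_mp.GD]

namespace Pool.Agent.Lib.MP_7f377f_mp.RG.Q4.En.Gl

open Finset Real Sg Pos

variable {ι : Type} [DecidableEq ι] {A T : Finset ι} {ρ : ι → ℝ} {G : Gl} {J i k m n : ℕ}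
  {y a θ θ' : ℝ}

/-- the sizes of the differences of all jets -/
def Dj (G : Gl) (k : ℕ) (A : Finset ι) (ρ : ι → ℝ) (x y : ℝ) (Y Y' : Fy ι) : Prop :=
  ∀ T ⊆ A, G.Sz k (x / ∏ a ∈ T, ρ a) (y / ∏ a ∈ T, ρ a) (G.Q k ^ 100)⁻¹
    (Y.jt T - Y'.jt T).1 (Y.jt T - Y'.jt T).2

/-- the same with the true sizes of the marginal parts -/
def Dn (G : Gl) (k : ℕ) (A : Finset ι) (ρ : ι → ℝ) (y : ℝ) (Y Y' : Fy ι) : Prop :=
  ∀ T ⊆ A, G.Sz k (nb ((Y.jt T - Y'.jt T).1 0)) (y / ∏ a ∈ T, ρ a) (G.Q k ^ 100)⁻¹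
    (Y.jt T - Y'.jt T).1 (Y.jt T - Y'.jt T).2

/-- the total size of the marginal parts -/
def xn (A : Finset ι) (ρ : ι → ℝ) (Y Y' : Fy ι) : ℝ :=
  ∑ T ∈ A.powerset, (∏ a ∈ T, ρ a) * nb ((Y.jt T - Y'.jt T).1 0)

/-- the differences of the jets do not depend on the site -/
def Iv (A : Finset ι) (Y Y' : Fy ι) : Prop :=
  ∀ T ⊆ A, ∀ v, (Y.jt T - Y'.jt T).1 v = (Y.jt T - Y'.jt T).1 0

omit [GD] [DecidableEq ι] in
theorem sum_four (hA : A.card ≤ 2) (y0 : 0 ≤ y) : ∑ _ ∈ A.powerset, y ≤ 4 * y := by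
  rw [sum_const, card_powerset, nsmul_eq_mul]
  refine mul_le_mul_of_nonneg_right ?_ y0
  exact_mod_cast Nat.pow_le_pow_right two_pos hA

namespace Ok

variable (h : G.Ok)
include h

omit [DecidableEq ι] in
theorem cr_prod' (hn : k + 40 * n ≤ i) :
    ∏ j ∈ Ico k i, 2 * (8 * G.cr j) ≤ ((G.L k : ℝ) ^ n)⁻¹ := by
  have L1 := h.L1 k
  refine le_of_pow_le_pow_left₀ (n := 40) (by norm_num) (by positivity) ?_
  rw [← prod_pow]
  refine (prod_le_prod (g := fun _ => (G.L k : ℝ)⁻¹) (fun _ _ => by positivity)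
    fun j hj => ?_).trans ?_
  · have a : (1000 * G.cr j) ^ 40 * G.L j ≤ 1 := cr_pow (h.sd_all j _).nu
    have c := h.cr0 j
    rw [← one_div, le_div_iff₀ (by linarith), ← mul_assoc]
    refine le_trans ?_ a
    gcongr
    exacts [by norm_num, h.L_mono (mem_Ico.1 hj).1]
  · rw [prod_const, Nat.card_Ico, inv_pow, inv_pow, ← pow_mul]
    exact inv_anti₀ (by positivity) (pow_le_pow_right₀ (by linarith) (by omega))

/-- one step for the differences of the jets -/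
theorem dn_step {z : Z} {Y Y' : Fy ι} (t : G.Tz J (k + 1) z) (e : G.Tw k A ρ Y Y')
    (hA : A.card ≤ 2) (s : G.Dn (k + 1) A ρ y Y Y') (y0 : 0 < y) (c : Iv A Y Y')
    (c' : Iv A (G.fs A k z Y) (G.fs A k z Y')) :
    G.Dn k A ρ (2 * G.cr k * (xn A ρ Y Y' + 4 * y)) (G.fs A k z Y) (G.fs A k z Y') ∧
      xn A ρ Y Y' ≤ xn A ρ (G.fs A k z Y) (G.fs A k z Y') +
        64 / G.Q k ^ 50 * (xn A ρ Y Y' + 4 * y) := by
  have nu := (h.sd_all k z).nu
  have f := h.st2 t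
  have q := h.Q0 k
  have c0 := h.cr0 k
  have g0 := h.g0 (k + 1)
  have r0 : ∀ T : Finset ι, 0 < ∏ a ∈ T, ρ a := fun T => prod_pos fun a _ => e.fi.pos a
  have x0 : ∀ T ∈ A.powerset, 0 ≤ (∏ a ∈ T, ρ a) * nb ((Y.jt T - Y'.jt T).1 0) := fun T _ =>
    mul_nonneg (r0 T).le (nb_nonneg _)
  have X0 : 0 ≤ xn A ρ Y Y' := sum_nonneg x0
  have ω0 := inv_pos.2 (pow_pos (h.Q0 (k + 1)) 100)
  have ω1 := h.om_up k
  have D : G.Df2 (k + 1) ρ (xn A ρ Y Y') (4 * y) Y Y' := by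
    have u := (sf_of (a := fun T => Y.jt T - Y'.jt T) (y := fun _ => y) (h.ρ0 _) e.fi.pos
      (x := fun T => (∏ a ∈ T, ρ a) * nb ((Y.jt T - Y'.jt T).1 0)) fun T hT => by
        rw [mul_div_cancel_left₀ _ (r0 T).ne']
        exact s T hT).mono (h.ρ0 _) ω0.le le_rfl (sum_four hA y0.le)
    unfold Df2 xn
    convert u using 1 <;> funext s
    · rw [Pi.sub_apply, congrFun e.fi.psi s, congrFun e.fi'.psi s]
      simp only [Jet.ma, Fy.jt, Prod.fst_sub, smul_sub, sum_sub_distrib]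
    · rw [Pi.sub_apply, congrFun e.fi.act s, congrFun e.fi'.act s]
      simp only [Jet.ma, Fy.jt, Prod.snd_sub, smul_sub, sum_sub_distrib]
  obtain ⟨-, d, d1, d2⟩ := h.dif1 (cl := fun _ => ()) (c := 2) (C := 2 * G.cr k) t e D
    (by linarith) (fun _ _ _ _ e => (e rfl).elim) (fun _ => (card_filter_le _ _).trans hA)
    (by rw [sd_cr]; linarith) (by
      have : 16 ≤ G.Q k * G.cr k := cr_Q nu
      linarith)
  have p : ∀ T ⊆ A, ((G.fs A k z Y).jt T - (G.fs A k z Y').jt T).1 =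
      (G.sd k z).PL (Y.jt T - Y'.jt T).1 (Y.jt T - Y'.jt T).2 := fun T hT => by
    have u := pl_sub f ((h.fi_sd e.fi z).dir hT) ((h.fi_sd e.fi' z).dir hT) 1
    simp only [one_smul] at u
    exact (congrArg₂ (· - ·) ((h.fi_sd e.fi z).jL_step nu f _ hT)
      ((h.fi_sd e.fi' z).jL_step nu f _ hT)).trans ((add_sub_add_right_eq_sub ..).trans u.symm)
  have w : ∀ T ⊆ A, G.cr k * (nb ((Y.jt T - Y'.jt T).1 0) + y / ∏ a ∈ T, ρ a) ≤
      2 * G.cr k * (xn A ρ Y Y' + 4 * y) / ∏ a ∈ T, ρ a := fun T hT => by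
    rw [le_div_iff₀ (r0 T), mul_assoc, add_mul, div_mul_cancel₀ _ (r0 T).ne', mul_comm (nb _)]
    nlinarith [show _ ≤ xn A ρ Y Y' from single_le_sum x0 (mem_powerset.2 hT)]
  refine ⟨fun T hT => ⟨pm_nb (h.ρ0 k) (p T hT ▸ lin_step_c nu f (h.sz_fine z (s T hT)) (h.sg_le _)
    (h.om_le k)) (c' T hT) (mul_le_mul_of_nonneg_left (w T hT) (sq_nonneg _)) ?_, ?_⟩, ?_⟩
  · have := (h.sz_nn (s T hT)).2
    have := nb_nonneg ((Y.jt T - Y'.jt T).1 0)
    have := r0 T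
    change G.Q k ^ 50 * _ * (G.cr k * _) * G.g (k + 1) ^ 2 ≤ _
    gcongr
    exacts [w T hT, h.g_succ k]
  · have j : ∀ Y : Fy ι, (G.fs A k z Y).K = ma A fun T => ((G.fs A k z Y).jt T).2 :=
      fun Y => ma_congr fun T hT => (jA_trK hT).symm
    have e1 : (G.fs A k z Y).K - (G.fs A k z Y').K = ma A fun T =>
        ((G.fs A k z Y).jt T - (G.fs A k z Y').jt T).2 := funext fun s => by
      rw [Pi.sub_apply, congrFun (j Y) s, congrFun (j Y') s]
      simp only [Prod.snd_sub, Jet.ma, smul_sub, sum_sub_distrib]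
    rw [e1] at d2
    have := FA.km_jA ⟨e.fi.pos, sa_ma _ _ _, d2⟩ T
    rw [jA_ma _ hT] at this
    exact ⟨(∏ a ∈ T, ρ a)⁻¹ • d, this.mono fun _ _ => (div_eq_inv_mul _ _).le,
      (d1.smul (inv_pos.2 (r0 T)).le).mono (le_of_eq (by ring))⟩
  · have η0 : 0 ≤ 64 / G.Q k ^ 50 := by positivity
    refine le_trans ?_ (add_le_add le_rfl (mul_le_mul_of_nonneg_left
      (add_le_add le_rfl (sum_four hA y0.le)) η0))
    rw [xn, xn, ← sum_add_distrib, mul_sum, ← sum_add_distrib]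
    refine sum_le_sum fun T hT => ?_
    have hT' := mem_powerset.1 hT
    have a1 := nb_sub ((lin_step nu f (h.sz_fine z (s T hT')) (h.sg_le _) (h.om_le k)).2 (c T hT'))
    rw [← p T hT'] at a1
    refine (mul_le_mul_of_nonneg_left a1 (r0 T).le).trans ?_
    have := nb_nonneg ((Y.jt T - Y'.jt T).1 0)
    have := r0 T
    rw [mul_add]
    refine add_le_add le_rfl ?_
    calc _ ≤ (∏ a ∈ T, ρ a) * (64 * (G.Q k ^ 50 * (G.Q k ^ 100)⁻¹ *
          (nb ((Y.jt T - Y'.jt T).1 0) + y / ∏ a ∈ T, ρ a))) := by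
          change _ * (64 * (G.Q k ^ 50 * _ * _)) ≤ _
          gcongr
      _ = _ := by field_simp

/-- the two sided system for the differences of the jets of two invariant families -/
theorem dn_two {z : ℕ → Z} {Y Y' : ℕ → Fy ι} (hA : A.card ≤ 2) (ρ0 : ∀ x, 0 < ρ x)
    (st : ∀ k, m ≤ k → k < i → G.Tz J (k + 1) (z k) ∧ Y k = G.fs A k (z k) (Y (k + 1)) ∧
      Y' k = G.fs A k (z k) (Y' (k + 1)) ∧ G.Tw k A ρ (Y (k + 1)) (Y' (k + 1)))
    (iv : ∀ k, m ≤ k → k ≤ i → Iv A (Y k) (Y' k)) (top : G.Dn i A ρ y (Y i) (Y' i)) (y0 : 0 < y)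
    (bot : ∀ w, G.Dn m A ρ w (Y m) (Y' m) → xn A ρ (Y m) (Y' m) ≤ 4 * w + a) (a0 : 0 ≤ a)
    (hw : (i - m : ℕ) ≤ G.Q m ^ 40) (hk : m ≤ k) (hn : k + 40 * n ≤ i) :
    G.Dj k A ρ (4 * y / G.L k ^ n + 2 * a) (4 * y / G.L k ^ n + 2 * a) (Y k) (Y' k) := by
  have mi : m ≤ i := by omega
  obtain ⟨x, hx⟩ : ∃ x : ℕ → ℝ, ∀ k, xn A ρ (Y k) (Y' k) = x k := ⟨_, fun _ => rfl⟩
  obtain ⟨w, hw'⟩ : ∃ w, w = dw (fun k w => 2 * G.cr k * (x (k + 1) + 4 * w)) y i := ⟨_, rfl⟩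
  have r0 : ∀ T : Finset ι, 0 < ∏ a ∈ T, ρ a := fun T => prod_pos fun a _ => ρ0 a
  have x0 : ∀ k, ∀ T ∈ A.powerset, 0 ≤ (∏ a ∈ T, ρ a) * nb (((Y k).jt T - (Y' k).jt T).1 0) :=
    fun k T _ => mul_nonneg (r0 T).le (nb_nonneg _)
  have x1 : ∀ k, 0 ≤ x k := fun k => hx k ▸ sum_nonneg (x0 k)
  have wt : w i = y := by rw [hw', dw_top]
  have ws : ∀ k < i, w k = 2 * G.cr k * (x (k + 1) + 4 * w (k + 1)) := fun k hk => by
    rw [hw', dw_step _ _ hk]
  have w0 : ∀ k ≤ i, 0 < w k := dw_ind (wt ▸ y0) fun k hk ih =>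
    ws k hk ▸ mul_pos (by linarith [h.cr0 k]) (by linarith [x1 (k + 1)])
  have s1 := fun k (hk : k < i) (hm : m ≤ k) s => by
    obtain ⟨a1, a2, a3, a4⟩ := st k hm hk
    have := h.dn_step a1 a4 hA s (w0 _ hk) (iv _ (by omega) hk) (a2 ▸ a3 ▸ iv k hm hk.le)
    rw [← a2, ← a3, hx, hx, ← ws k hk] at this
    exact this
  have sz : ∀ k ≤ i, m ≤ k → G.Dn k A ρ (w k) (Y k) (Y' k) :=
    dw_ind (fun _ => wt ▸ top) fun k hk ih hm => (s1 k hk hm (ih (by omega))).1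
  have Q0 := h.Q0 m
  have e0 : 0 < 64 / G.Q m ^ 50 := by positivity
  have e1 := h.inv_c m (j := 50) (by norm_num)
  obtain ⟨t1, t2⟩ := two_sided_src (I := i - m) (k := k - m) (C := 1)
    (η := fun _ => 64 / G.Q m ^ 50) (c := fun j => 8 * G.cr (m + j)) (s := 0) (t := 0)
    (x := fun j => x (m + j)) (y := fun j => 4 * w (m + j)) (a := a) (τ := 0) (γ := 1 / 100)
    ⟨le_rfl, fun _ _ => e0.le, fun _ _ => by rw [div_eq_mul_inv]; linarith,
      fun j _ => by linarith [h.cr0 (m + j)], fun j _ => by linarith [h.cr1 (m + j)]⟩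
    ⟨by simpa only [add_zero, one_mul, hx] using bot _ (sz m mi le_rfl), fun j hj => by
      have hj' : m + j < i := by omega
      have b1 := (s1 _ hj' le_self_add (sz _ hj' (by omega))).2
      have b2 : 64 / G.Q (m + j) ^ 50 ≤ 64 / G.Q m ^ 50 := by gcongr; exact h.Q_mono le_self_add
      simp only [Pi.zero_apply, ← add_assoc]
      linarith [mul_le_mul_of_nonneg_right b2 (add_nonneg (x1 (m + j + 1))
        (mul_pos four_pos (w0 _ hj')).le), mul_nonneg e0.le (x1 (m + j))], fun j hj => by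
      simp only [Pi.zero_apply, ← add_assoc, ws _ (show m + j < i by omega)]
      linarith⟩ (by
      rw [sum_const, card_range, nsmul_eq_mul, ← mul_div_assoc, ← mul_div_assoc,
        div_le_one (pow_pos Q0 _)]
      linarith [h.qpw m (i := 40) (j := 50) (by norm_num), pow_pos Q0 40])
    a0 (fun _ _ => le_rfl) (by simp; exact le_rfl) le_rfl (fun _ _ => le_rfl) (by norm_num)
    (fun j _ => by linarith [h.cr1 (m + j)]) (by norm_num)
    (by simp only [Nat.add_sub_cancel' mi, wt]; linarith) (Nat.sub_le_sub_right (by omega) m)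
  rw [prod_Ico_add (fun j => 2 * (8 * G.cr j)), Nat.sub_add_cancel hk, Nat.sub_add_cancel mi] at t1 t2
  simp only [Nat.add_sub_cancel' mi, Nat.add_sub_cancel' hk, wt] at t1 t2
  have b3 := mul_le_mul_of_nonneg_right (h.cr_prod' hn) (mul_pos four_pos y0).le
  rw [← div_eq_inv_mul] at b3
  refine fun T hT => h.sz_up (sz k (by omega) hk T hT) (inv_pos.2 (pow_pos (h.Q0 k) _)).le ?_
    (div_le_div_of_nonneg_right (by linarith [w0 k (by omega)]) (r0 T).le)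
  rw [le_div_iff₀' (r0 T)]
  linarith [(single_le_sum (x0 k) (mem_powerset.2 hT)).trans_eq (hx k)]

end Ok

end Pool.Agent.Lib.MP_7f377f_mp.RG.Q4.En.Gl
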