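import Pool.Agent.Lib.MP_7f377f_mp.G.S23F1

/-! Families with overlapping sources along a run. -/

noncomputable section

open Pool.Agent.Lib.MP_7f377f_mp.Jet

set_option linter.unusedSectionVars false
variable [Pool.Agent.Lib.MP_7f377f_mp.GD]

namespace Pool.Agent.Lib.MP_7f377f_mp.RG.Q4.En

open Finset Real Sg Pos
open scoped Classical

variable {ι κ : Type} [DecidableEq ι] [DecidableEq κ] {A T : Finset ι} {r r0 : ι → ℝ}
  {B : ι → Prop} {ψ : (ι → ℂ) → Lx} {K : (ι → ℂ) → Ac} {cl : ι → κ} {p : Pa} {n c J i j k l : ℕ}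
  {W : ι → Finset St} {s : ι → ℂ} {σ a b d θ τ : ℝ} {x : ι} {F : ι → Sr}

/-- the radii: below the level `l` they grow for small sources and shrink for big sources -/
def rd (B : ι → Prop) (σ : ℝ) (l k : ℕ) (x : ι) : ℝ :=
  if B x then σ / 2 ^ (l - k) else 2 ^ (l - k) * σ

section

omit [DecidableEq ι]

theorem rd_top (hk : l ≤ k) : rd B σ l k = fun _ => σ := by
  ext x; simp [rd, Nat.sub_eq_zero_of_le hk]

theorem rd_le (σ0 : 0 < σ) (hj : j ≤ k) (x : ι) : σ / 2 ^ (l - j) ≤ rd B σ l k x := by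
  have a : σ / 2 ^ (l - j) ≤ σ / 2 ^ (l - k) := by
    gcongr
    norm_num
  rw [rd]
  split_ifs
  exacts [a, a.trans ((div_le_self σ0.le (one_le_pow₀ one_le_two)).trans
    (le_mul_of_one_le_left σ0.le (one_le_pow₀ one_le_two)))]

theorem rd_pos (σ0 : 0 < σ) (x : ι) : 0 < rd B σ l k x :=
  lt_of_lt_of_le (by positivity) (rd_le σ0 le_rfl x)

theorem rd_step (σ0 : 0 < σ) (x : ι) : rd B σ l k x ≤ 2 * rd B σ l (k + 1) x := by
  have a : (2 : ℝ) ^ (l - k) ≤ 2 * 2 ^ (l - (k + 1)) := by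
    rw [← pow_succ']; exact pow_le_pow_right₀ one_le_two (by omega)
  have a' : σ / 2 ^ (l - k) ≤ σ / 2 ^ (l - (k + 1)) := by
    gcongr
    exacts [one_le_two, k.le_succ]
  simp only [rd]
  split_ifs
  · linarith [(by positivity : 0 < σ / 2 ^ (l - (k + 1)))]
  · nlinarith

theorem sF_le3 (hc : ∀ v, (tch A W {rc n v}).card ≤ c) (hZ : ∀ i x, rc n x ∉ W i → F i x = 0)
    (hF : ∀ i ∈ A, ∀ x μ ν, ‖F i x μ ν‖ ≤ a) (hs : ∀ i ∈ A, ‖s i‖ ≤ σ) (h0 : 0 ≤ σ * a)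
    (x : St) (μ ν : Fin 4) : ‖sF A F s x μ ν‖ ≤ c * (σ * a) := by
  simp only [sF, Finset.sum_apply, Pi.smul_apply, smul_eq_mul]
  rw [← sum_subset (s₁ := tch A W {rc n x}) (filter_subset _ _) fun i hi u => by
    rw [hZ i x fun e => u (mem_tch.2 ⟨hi, by simpa using e⟩)]; simp]
  refine (norm_sum_le _ _).trans ((sum_le_card_nsmul _ _ _ fun i hi => norm_mul_le_of_le
    (hs i (mem_tch.1 hi).1) (hF i (mem_tch.1 hi).1 x μ ν)).trans ?_)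
  rw [nsmul_eq_mul]
  gcongr
  exact hc x

end

namespace Gl

/-- the tangents of the run `(b, J)`, carried from level `i` on along the base points `H` -/
def vh (G : Gl) (F : ι → Sr) (b' : ℝ) (J' : ℕ) (b : ℝ) (J : ℕ) (H : ℕ → Lx × Ac) (i : ℕ) (x : ι) :
    ℕ → Lx × Ac := dw (fun n => G.ts n (G.zz b' J' (n + 1)) (H (n + 1))) (G.tv (F x) b J i) i

/-- the family of the run `(b, J)`, carried from level `i` on with the tree data of `(b', J')` -/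
def fh (G : Gl) (A : Finset ι) (F : ι → Sr) (W : ι → Finset St) (b' : ℝ) (J' : ℕ) (b : ℝ)
    (J i : ℕ) : ℕ → Fy ι := G.fw A b' J' ((G.fm A F W b J i).hy
      ((G.sl i (G.zz b J i)).Φ 0 - (G.sl i (G.zz b' J' i)).Φ 0)) i

variable {G : Gl} {H : ℕ → Lx × Ac} {v : ι → ℕ → Lx × Ac} {f : ℕ → (ι → ℂ) → Conf → ℂ}
  {φ : Lx} {L : Ac} {F1 : Sr} {g : St → ℂ} {W1 : Finset St}

namespace Ok

variable (h : G.Ok)
include h

omit [DecidableEq ι] [DecidableEq κ] in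
theorem sig_up (σ0 : 0 < σ) (hσ : σ * G.Q l ^ 1200 ≤ G.bb l) (hk : l ≤ k) :
    σ * G.Q k ^ 240 ≤ G.bb k := by
  have a := h.mono5 hk (C := 240) (by norm_num)
  have := h.Q0 k
  refine le_of_mul_le_mul_right (le_trans ?_ a) (pow_pos (h.Q0 l) _)
  rw [mul_right_comm]
  gcongr

/-- the family at the top of a run -/
theorem top3 (t : G.Tu b J) (σ0 : 0 < σ) (hZ : ∀ a x, rc (G.N J) x ∉ W a → F a x = 0)
    (hF : ∀ i ∈ A, ∀ x μ ν, ‖F i x μ ν‖ ≤ 2) (ha : σ * G.Q J ^ 2 ≤ G.bb J)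
    (hc : Cls (G.N J) ((2 * c + 2) * (G.p J).D) A cl W) (hk : ∀ a, (A.filter (cl · = a)).card ≤ c)
    (h2 : (2 : ℝ) ^ c ≤ G.Q J) (p0 : ∀ x, 0 < r0 x) (p1 : ∀ x, r0 x ≤ σ) :
    G.Fd J (G.zz b J J) A r0 (fun _ => σ) (G.Q J ^ 329)⁻¹ (G.ft A F W b J) (G.fr A F b J J) ∧
      (G.ft A F W b J).bs = (G.zz b J J).d ∧ ∀ x ∈ A, (G.ft A F W b J).jt {x} = G.tv (F x) b J J := by
  refine ⟨?_, fm_top (G := G) (A := A) ▸ fm_bs J le_rfl, fun x hx => by rw [ft_jt hx, tv, tn_top]⟩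
  have v := (t.gd J le_rfl).tz.v
  have q := h.Q0 J
  have c2 : (c : ℝ) ≤ G.Q J := le_trans (by exact_mod_cast Nat.lt_two_pow_self.le) h2
  rw [zz_top] at v ⊢
  refine ((h.fam_top (m := 2 * c) v (fun _ => σ0) (fun s hs x μ ν => (sF_le3 (fun _ => tch_one hc
    (h.cD_pos c J) hk _) hZ hF (fun x _ => (hs x).le) (by positivity) x μ ν).trans ?_) hZ
    (fun x hx => ⟨_, hF x hx⟩) hc (by push_cast; exact le_rfl) hk (by omega)).mono (fun _ => σ0)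
    (fun _ => le_rfl) ?_).les3 p0 p1
  · nlinarith [mul_le_mul c2 (h.cQ J (C := 8) (by norm_num)) (by norm_num) q.le]
  · have g0 := h.g0 J
    have := mul_le_mul h2 ((pow_le_pow_of_le_one g0.le (h.g1 J) (show 2 ≤ 31 by norm_num)).trans
      (h.g_le J)) (by positivity) q.le
    have e := h.pw_inv J (i := 1) (j := 3999) (l := 4000) rfl
    rw [pow_one] at e
    linarith [h.inv_le J (i := 329) (j := 3999) (by norm_num), inv_pos.2 (pow_pos q 3999)]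

omit [DecidableEq ι] [DecidableEq κ] in
theorem ow3_of (σ0 : 0 < σ) (hσ : σ * G.Q l ^ 1200 ≤ G.bb l)
    (hs : ∀ k, j ≤ k → k < i → H k = G.hs k (G.zz b J (k + 1)) (H (k + 1)))
    (bz : ∀ k, j ≤ k → k ≤ i → G.Bz k (H k))
    (tt : ∀ k, j ≤ k → k < i → f k = fun s => TT (G.l k) (G.a k) (G.N k) (f (k + 1) s))
    (ts : ∀ k, j ≤ k → k < i → ∀ x ∈ A,
      v x k = G.ts k (G.zz b J (k + 1)) (H (k + 1)) (v x (k + 1)))
    (sz : ∀ k, l ≤ k → k ≤ i → ∀ x ∈ A,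
      G.Sz k (G.Q k ^ 2) (G.Q k ^ 2) (G.Q k ^ 100)⁻¹ (v x k).1 (v x k).2)
    (big : ∀ k, j ≤ k → k ≤ l → ∀ x ∈ A, B x →
      PU (G.p k) ((G.Q k ^ 214)⁻¹ / (σ / 2 ^ (l - k))) (v x k).1) :
    G.Ow3 A B b J i l j (fun _ => σ / 2 ^ (l - j)) (rd B σ l) H v (fun k => σ * G.Q k ^ 16) f := by
  refine ⟨hs, bz, tt, ts, fun k a _ x => ⟨rd_le σ0 a x, fun _ => rd_step σ0 x⟩, fun k a a' => ?_,
    le_trans ?_ hσ, fun k a a' x hx e => by rw [rd, if_pos e]; exact big k a a' x hx e⟩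
  · have q := h.Q0 k
    have e : G.Q k ^ 2 ≤ σ * G.Q k ^ 16 / σ := by
      rw [mul_div_cancel_left₀ _ σ0.ne']; exact pow_le_pow_right₀ (h.Q1 k) (by norm_num)
    exact ⟨by positivity, (le_of_eq (by ring)).trans (h.sig_up σ0 hσ a), fun x hx => by
      rw [rd_top a]; exact h.sz_le (sz k a a' x hx) (by positivity) e e le_rfl⟩
  · rw [mul_left_comm, ← pow_add]
    exact mul_le_mul_of_nonneg_left (pow_le_pow_right₀ (h.Q1 l) (by norm_num)) σ0.le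

omit [DecidableEq ι] [DecidableEq κ] in
/-- tangents grow slowly -/
theorem ts_grow {z : ℕ → Z} {u : ℕ → Lx × Ac} {ω : ℕ → ℝ} {N : ℝ} (N0 : 0 < N)
    (st : ∀ k, j ≤ k → k < l → St2 (G.sd k (z (k + 1))) ∧
      Tg (G.sd k (z (k + 1))) (ω (k + 1)) (H (k + 1)).1 (H (k + 1)).2 ∧ ω (k + 1) ≤ ω k)
    (hu : ∀ k, j ≤ k → k < l → u k = G.ts k (z (k + 1)) (H (k + 1)) (u (k + 1)))
    (e : G.Sz l N N (ω l) (u l).1 (u l).2) : ∀ k ≤ l, j ≤ k →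
    G.Sz k (1.01 ^ (l - k) * N) (1.01 ^ (l - k) * N) (ω k) (u k).1 (u k).2 :=
  dw_ind (fun _ => by simpa using e) fun k hk ih a => by
    obtain ⟨s1, s2, s3⟩ := st k a hk
    have := s2.step1 (h.sd_all k _).nu s1 (h.sz_fine _ (ih (by omega))) (by positivity) s3
    rw [hu k a hk, show l - k = l - (k + 1) + 1 by omega, pow_succ', mul_assoc 1.01]
    exact this

omit [DecidableEq ι] [DecidableEq κ] in
/-- every tangent is admissible for a big source -/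
theorem big_ts (σ0 : 0 < σ) (hσ : σ * G.Q l ^ 1200 ≤ G.bb l) (hk : k ≤ l) {ω : ℝ}
    (hω : G.Q k ^ 100 * ω ≤ 1)
    (e : G.Sz k (1.01 ^ (l - k) * G.Q l ^ 2) (1.01 ^ (l - k) * G.Q l ^ 2) ω φ L) :
    PU (G.p k) ((G.Q k ^ 214)⁻¹ / (σ / 2 ^ (l - k))) φ := by
  have q := h.Q0 k
  have q' := h.Q0 l
  have a : ∀ k ≤ l, 1.01 ^ (l - k) * G.g k ^ 2 ≤ 2 ^ (l - k) * G.g l ^ 2 :=
    dw_ind (by simp) fun k hk ih => by
      rw [show l - k = l - (k + 1) + 1 by omega, pow_succ', pow_succ' (2 : ℝ)]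
      nlinarith [mul_le_mul_of_nonneg_left (h.g_up k) (pow_pos (show (0 : ℝ) < 1.01 by norm_num)
        (l - (k + 1))).le, (by positivity : 0 ≤ (1.01 : ℝ) ^ (l - (k + 1)) * G.g (k + 1) ^ 2)]
  refine pu_mono (h.sz_pu e hω) ?_
  rw [div_div_eq_mul_div, le_div_iff₀ σ0, le_inv_mul_iff₀ (pow_pos q _)]
  calc _ = 2 * G.Q k ^ 224 * G.Q l ^ 2 * σ * (1.01 ^ (l - k) * G.g k ^ 2) := by ring
    _ ≤ G.Q l * G.Q l ^ 224 * G.Q l ^ 2 * σ * (2 ^ (l - k) * G.g l ^ 2) := by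
      gcongr ?_ * ?_ ^ 224 * _ * _ * ?_
      exacts [h.cQ l (by norm_num), h.Q_mono hk, a k hk]
    _ = 2 ^ (l - k) * (σ * G.Q l ^ 227 * G.g l ^ 2) := by ring
    _ ≤ _ := mul_le_of_le_one_right (by positivity) (h.bg l ▸ mul_le_mul_of_nonneg_right
      (le_trans (mul_le_mul_of_nonneg_left (pow_le_pow_right₀ (h.Q1 l) (by norm_num)) σ0.le) hσ)
      (sq_nonneg _))

variable (t : G.Tu b J)
include t

omit [DecidableEq ι] [DecidableEq κ] in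
theorem pf_sz (hu : G.Tv b J) (P : G.Pf J a τ F1 g) (a0 : 0 < a)
    (hτ : 1.01 ^ (J - l) * (10 ^ 37 * τ) ≤ 1) (τ0 : 0 ≤ τ) (ha : G.rt J l * a ≤ 4) (h1 : l ≤ k)
    (h2 : k ≤ J) : G.Sz k (G.Q k ^ 2) (G.Q k ^ 2) √(G.g k) (G.tv F1 b J k).1 (G.tv F1 b J k).2 :=
  have e := h.pe_sq a0 hτ τ0 ha h1
  h.sz_le (h.tv_sz' t hu P.lip a0 P.le P.near h2) (sqrt_nonneg _) e (by linarith) le_rfl

omit [DecidableEq ι] [DecidableEq κ] in
theorem pf_big (hu : G.Tv b J) (P : G.Pf J a τ F1 g) (a0 : 0 < a)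
    (hτ : 1.01 ^ (J - l) * (10 ^ 37 * τ) ≤ 1) (τ0 : 0 ≤ τ) (ha : G.rt J l * a ≤ 4) (hl : l ≤ J)
    (σ0 : 0 < σ) (hσ : σ * G.Q l ^ 1200 ≤ G.bb l) (hk : k ≤ l) :
    PU (G.p k) ((G.Q k ^ 214)⁻¹ / (σ / 2 ^ (l - k))) (G.tv F1 b J k).1 :=
  h.big_ts σ0 hσ hk (qsq (h.sl_all k (G.top0 0 0)).nu (by norm_num)) (h.ts_grow (j := 0)
    (z := G.zz b J) (H := fun k => (G.zz b J k).d) (ω := fun k => √(G.g k)) (pow_pos (h.Q0 l) _)
    (fun k _ hk => h.gd_tg (t.gd _ (by omega))) (fun _ _ hk => tn_step (hk.trans_le hl))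
    (h.pf_sz t hu P a0 hτ τ0 ha le_rfl hl) k hk k.zero_le)

omit h t [DecidableEq ι] [DecidableEq κ] in
theorem pf_le (P : G.Pf J a τ F1 g) (hτ : 1.01 ^ (J - l) * (10 ^ 37 * τ) ≤ 1) (τ0 : 0 ≤ τ)
    (y : St) (μ ν : Fin 4) : ‖F1 y μ ν‖ ≤ 2 := by
  have := mul_le_mul_of_nonneg_right (one_le_pow₀ (show (1 : ℝ) ≤ 1.01 by norm_num) :
    _ ≤ _ ^ (J - l)) (show 0 ≤ 10 ^ 37 * τ by positivity)
  linarith [norm_le_norm_add_norm_sub' (F1 y μ ν) (g y), P.le y, P.near y μ ν]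

variable {g : ι → St → ℂ} (hu : G.Tv b J) (P : ∀ x ∈ A, G.Pf J a τ (F x) (g x)) (a0 : 0 < a)
  (hτ : 1.01 ^ (J - l) * (10 ^ 37 * τ) ≤ 1) (τ0 : 0 ≤ τ) (ha : G.rt J l * a ≤ 4) (σ0 : 0 < σ)
  (hσ : σ * G.Q l ^ 1200 ≤ G.bb l)
include hu P a0 hτ τ0 ha σ0 hσ

omit [DecidableEq ι] [DecidableEq κ] in
theorem ow3_run (hl : l ≤ J) :
    G.Ow3 A B b J J l j (fun _ => σ / 2 ^ (l - j)) (rd B σ l) (fun k => (G.zz b J k).d)
      (fun x => G.tv (F x) b J) (fun k => σ * G.Q k ^ 16) (G.fr A F b J) :=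
  h.ow3_of σ0 hσ (fun k _ hk => by rw [zz_step b hk]; rfl) (fun _ _ hk => h.bz_run t hk)
    (fun _ _ hk => fr_step hk) (fun _ _ hk _ _ => tn_step hk) (fun k a a' x hx => h.sz_le
      (h.pf_sz t hu (P x hx) a0 hτ τ0 ha a a') (sqrt_nonneg _) le_rfl le_rfl (h.sg_le k))
    fun _ _ a x hx _ => h.pf_big t hu (P x hx) a0 hτ τ0 ha hl σ0 hσ a

/-- the family of the sources of a run -/
theorem run3 (hp : G.Pu) (hl : l ≤ J) (hj : j ≤ l) (hZ : ∀ a x, rc (G.N J) x ∉ W a → F a x = 0)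
    (geo : G.Geo3 A B cl c W J l j)
    (e3 : G.J2 A b J J l (fun _ => σ / 2 ^ (l - j)) (rd B σ l) (fun k => (G.zz b J k).d)
      (fun x => G.tv (F x) b J) (fun k => σ * G.Q k ^ 16) (G.fr A F b J) (G.fm A F W b J)) :
    G.Fo3 A B cl b J J l j (fun _ => σ / 2 ^ (l - j)) (rd B σ l) (fun k => (G.zz b J k).d)
      (fun x => G.tv (F x) b J) (G.fr A F b J) (G.fm A F W b J) := by
  obtain ⟨e, e1, e2⟩ := h.top3 t σ0 hZ (fun x hx => pf_le (P x hx) hτ τ0) (le_trans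
    (mul_le_mul_of_nonneg_left (pow_le_pow_right₀ (h.Q1 J) (by norm_num)) σ0.le)
    (h.sig_up σ0 hσ hl)) (by simpa only [zs_top] using geo.grp J (hj.trans hl) le_rfl) geo.card
    (h.two_le geo.big (hj.trans hl)) (r0 := fun _ => σ / 2 ^ (l - j)) (fun _ => by positivity)
    fun _ => div_le_self σ0.le (one_le_pow₀ one_le_two)
  exact h.flow3 t hp le_rfl hl hj (h.ow3_run t hu P a0 hτ τ0 ha σ0 hσ hl) geo (by rwa [rd_top hl])
    e1 e2 e3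

omit [DecidableEq ι] [DecidableEq κ] σ0 hσ hτ τ0 ha in
theorem vh_pos {b' γ x1 y1 : ℝ} {J' m : ℕ} {u : ℕ → Lx × Ac} (t' : G.Tu b' J')
    (Y : G.Hy b' J' b J i m γ x1 y1 H u) (h1 : i ≤ J') (h2 : i ≤ J) (hx : x ∈ A) (hk : k ≤ i) :
    G.Sz k (G.pe J k a τ) (G.pe J k a τ) (G.Q k ^ 280)⁻¹
      ((G.vh F b' J' b J H i x k).1 - mL (G.fd J k (g x)) (u k).1)
      ((G.vh F b' J' b J H i x k).2 - mA (G.fd J k (g x)) (u k).2) :=
  h.tv_hyb (j := 0) (ω := fun n => (G.Q n ^ 280)⁻¹) t hu (P x hx).lip a0 (P x hx).le (P x hx).near h2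
    (fun n _ e => ⟨h.st2 (t'.gd _ (by omega)).tz, Y.tg n e, h.inv_up n.le_succ _⟩)
    (fun n _ e => Y.us n e) (fun _ _ e => dw_step _ _ e) Y.u0 (dw_top ..) (h.hy_sg i)
    (fun n _ e => Y.un n e) hk k.zero_le

/-- the family of the run `(b, J)`, carried from level `i` on with the tree data of `(b', J')` -/
theorem hyb3 {b' γ x1 y1 : ℝ} {J' m : ℕ} {u : ℕ → Lx × Ac} (hp : G.Pu) (t' : G.Tu b' J')
    (Y : G.Hy b' J' b J i m γ x1 y1 H u) (h1 : i ≤ J') (h2 : i ≤ J) (hl : l ≤ i) (hj : j ≤ l)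
    (geo : G.Geo3 A B cl c W J l j)
    (o : G.On A b J (fun _ => σ / 2 ^ (l - j)) (rd B σ l) (fun k => (G.zz b J k).d)
      (fun x => G.tv (F x) b J) (G.fr A F b J) (G.fm A F W b J) i)
    (e3 : G.J2 A b' J' i l (fun _ => σ / 2 ^ (l - j)) (rd B σ l) H (G.vh F b' J' b J H i)
      (fun k => σ * G.Q k ^ 16) (G.fr A F b J) (G.fh A F W b' J' b J i)) :
    G.Fo3 A B cl b' J' i l j (fun _ => σ / 2 ^ (l - j)) (rd B σ l) H (G.vh F b' J' b J H i)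
      (G.fr A F b J) (G.fh A F W b' J' b J i) := by
  have ω : ∀ n, 0 ≤ (G.Q n ^ 280)⁻¹ ∧ (G.Q n ^ 280)⁻¹ ≤ (G.Q n ^ 100)⁻¹ := fun n => by
    constructor <;> linarith [h.inv_le n (show 100 < 280 by norm_num),
      inv_pos.2 (pow_pos (h.Q0 n) 280)]
  have sz : ∀ n, l ≤ n → n ≤ i → ∀ x ∈ A, G.Sz n (G.Q n ^ 2) (G.Q n ^ 2) (G.Q n ^ 280)⁻¹
      (G.vh F b' J' b J H i x n).1 (G.vh F b' J' b J H i x n).2 := fun n a e x hx =>
    have e' := h.pe_sq (J := J) a0 hτ τ0 ha a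
    h.sz_le (h.pos_sz (fun _ => (P x hx).le _) (h.vh_pos t hu P a0 t' Y h1 h2 hx e) (Y.un n e))
      (ω n).1 e' (by linarith) le_rfl
  obtain ⟨_, _, _, bi⟩ := (Y.bz i le_rfl).1.1
  rw [Y.top, ← show _ = (G.zz b J i).ψ from congrArg Prod.fst o.bs] at bi
  exact h.flow3 t' hp h1 hl hj (h.ow3_of σ0 hσ (fun n _ => Y.hs n) (fun n _ => Y.bz n)
    (fun n _ e => fr_step (e.trans_le h2)) (fun n _ e x _ => dw_step _ _ e)
    (fun n a e x hx => h.sz_le (sz n a e x hx) (ω n).1 le_rfl le_rfl (ω n).2)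
    fun n _ e x hx _ => h.big_ts σ0 hσ e ((mul_le_mul_of_nonneg_left (ω n).2
      (pow_pos (h.Q0 n) _).le).trans_eq (mul_inv_cancel₀ (pow_pos (h.Q0 n) _).ne'))
      (h.ts_grow (j := 0) (z := G.zz b' J') (ω := fun n => (G.Q n ^ 280)⁻¹) (pow_pos (h.Q0 l) _)
        (fun n _ e => ⟨h.st2 (t'.gd _ (by omega)).tz, Y.tg n (by omega), h.inv_up n.le_succ _⟩)
        (fun _ _ e => dw_step _ _ (e.trans_le hl)) (sz l le_rfl hl x hx) n e n.zero_le))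
    (by rw [Fy.hy, fm_Z h2]; exact geo.down h2 hl) (o.fd.hy bi)
    (by rw [Y.top]; exact Prod.ext (congrArg (·.1 + _) o.bs) (congrArg Prod.snd o.bs :))
    (fun x hx => (Fy.hy_jt o.fd.fi hx).trans ((o.jt x hx).trans (dw_top ..).symm)) e3

end Ok

end Gl

end Pool.Agent.Lib.MP_7f377f_mp.RG.Q4.En
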