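import Pool.Agent.Lib.MP_7f377f_mp.G.S23F1

/-! Families with overlapping sources: comparison of two flows along the same run. -/

noncomputable section

open Pool.Agent.Lib.MP_7f377f_mp.Jet

set_option linter.unusedSectionVars false
variable [Pool.Agent.Lib.MP_7f377f_mp.GD]

namespace Pool.Agent.Lib.MP_7f377f_mp.RG.Q4.En

open Finset Real Sg Pos

variable {ι κ : Type} [DecidableEq ι] [DecidableEq κ] {A T : Finset ι} {r ρ : ι → ℝ} {p : Pa}
  {n : ℕ} {ψ : (ι → ℂ) → Lx} {K : (ι → ℂ) → Ac} {Z : ι → Finset St} {Q g ω θ : ℝ}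

omit [DecidableEq κ] in
/-- one majorant for a multi-affine family -/
theorem km_ma3 {a : Finset ι → Ac} {θ : Finset ι → ℝ} (r0 : ∀ i, 0 < r i)
    (e : ∀ T ⊆ A, ∃ d, KM p n d (a T) ∧ kN p n d (θ T / ∏ i ∈ T, r i)) :
    ∃ d, kN p n d (∑ T ∈ A.powerset, θ T) ∧ ∀ s ∈ Pd r, KM p n d (ma A a s) := by
  choose! d h1 h2 using e
  have q : ∀ T : Finset ι, 0 < ∏ i ∈ T, r i := fun T => prod_pos fun i _ => r0 i
  have : ∀ B ⊆ A.powerset, kN p n (∑ T ∈ B, (∏ i ∈ T, r i) • d T) (∑ T ∈ B, θ T) ∧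
      ∀ s ∈ Pd r, KM p n (∑ T ∈ B, (∏ i ∈ T, r i) • d T) (∑ T ∈ B, mon T s • a T) := fun B => by
    induction B using Finset.induction_on with
    | empty => exact fun _ => ⟨⟨fun _ _ => le_rfl, fun _ => by simp⟩, fun _ _ => km_zero⟩
    | insert T B hT ih =>
      intro u
      have v := mem_powerset.1 (u (mem_insert_self _ _))
      obtain ⟨i1, i2⟩ := ih ((subset_insert _ _).trans u)
      simp only [sum_insert hT]
      exact ⟨(((h2 T v).smul (q T).le).mono (mul_div_cancel₀ _ (q T).ne').le).add i1,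
        fun s hs => (((h1 T v).smul _).mono fun X c => mul_le_mul_of_nonneg_right
          (mon_le hs T) ((h2 T v).1 X c)).add (i2 s hs)⟩
  exact ⟨_, this _ Subset.rfl⟩

omit [DecidableEq κ] in
/-- the size of a multi-affine family from the sizes of all its jets -/
theorem sf_of {a : Finset ι → Lx × Ac} {x y : Finset ι → ℝ} (h0 : 0 < p.ρ) (r0 : ∀ i, 0 < r i)
    (e : ∀ T ⊆ A, Sz p n Q g (x T / ∏ i ∈ T, r i) (y T / ∏ i ∈ T, r i) ω (a T).1 (a T).2) :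
    Sf p n Q g r (∑ T ∈ A.powerset, x T) (∑ T ∈ A.powerset, y T) ω (ma A fun T => (a T).1)
      (ma A fun T => (a T).2) := by
  have q : ∀ T : Finset ι, 0 < ∏ i ∈ T, r i := fun T => prod_pos fun i _ => r0 i
  refine ⟨fun s hs v => ?_, ?_⟩
  · have u := fun T (hT : T ∈ A.powerset) => (e T (mem_powerset.1 hT)).1 v
    have : ma A (fun T => (a T).1) s v = fun B => ∑ T ∈ A.powerset, mon T s * (a T).1 v B := by
      ext B
      simp only [Jet.ma, Finset.sum_apply, Pi.smul_apply, smul_eq_mul]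
    rw [this]
    refine ⟨(Ps.sum _ h0 fun T hT => ((u T hT).1.smul h0 _).1).1.mono' h0 ?_ ?_ ?_,
      measurable_sum _ fun T hT => (u T hT).2.const_mul _⟩
    · exact sum_le_sum fun T hT => (mul_le_mul_of_nonneg_right (mon_le hs T)
        ((u T hT).1.nonneg h0).1).trans_eq (mul_div_cancel₀ _ (q T).ne')
    · rw [mul_sum]
      exact sum_le_sum fun T hT => (mul_le_mul_of_nonneg_right (mon_le hs T)
        ((u T hT).1.nonneg h0).2.1).trans_eq (by have := (q T).ne'; field_simp)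
    · rw [mul_sum, sum_mul]
      exact sum_le_sum fun T hT => (mul_le_mul_of_nonneg_right (mon_le hs T)
        ((u T hT).1.nonneg h0).2.2).trans_eq (by have := (q T).ne'; field_simp)
  · rw [mul_sum, sum_mul]
    exact km_ma3 r0 fun T hT => (e T hT).2.imp fun _ w => ⟨w.1, w.2.mono (le_of_eq (by ring))⟩

omit [DecidableEq κ] in
/-- local terms do not see two sources which do not meet -/
theorem ML.van2 (h : ML n A Z ψ) (hT : T ⊆ A) {x y : ι} (hx : x ∈ T) (hy : y ∈ T)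
    (e : Disjoint (Z x) (Z y)) : jL T ψ = 0 :=
  funext fun v => h.van hT fun u => Tch.meet ⟨v, u⟩ hx hy e

namespace Gl

variable {G : Gl} {b C M θ' : ℝ} {J i i' j k l m c : ℕ} {W W' : ι → Finset St} {z : En.Z}
  {B : ι → Prop} {cl : ι → κ} {r0 r0' : ι → ℝ}

namespace Ok

variable (h : G.Ok)
include h

omit [DecidableEq κ] in
/-- the difference of two families from the differences of all jets -/
theorem df2_of3 {Y Y' : Fy ι} {x : Finset ι → ℝ} (F : Fi (G.p k) (G.N k) A W r θ Y.ψ Y.K)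
    (F' : Fi (G.p k) (G.N k) A W' r θ' Y'.ψ Y'.K)
    (e : ∀ T ⊆ A, G.Sz k (x T / ∏ i ∈ T, r i) (x T / ∏ i ∈ T, r i) (G.Q k ^ 100)⁻¹
      (Y.jt T - Y'.jt T).1 (Y.jt T - Y'.jt T).2) (hX : ∑ T ∈ A.powerset, x T ≤ M) :
    G.Df2 k r M M Y Y' := by
  have u := (sf_of (a := fun T => Y.jt T - Y'.jt T) (h.ρ0 k) F.pos e).mono (h.ρ0 k)
    (inv_pos.2 (pow_pos (h.Q0 k) 100)).le hX hX
  unfold Df2
  convert u using 1 <;> funext s
  · rw [Pi.sub_apply, congrFun F.psi s, congrFun F'.psi s]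
    simp only [Jet.ma, Fy.jt, Prod.fst_sub, smul_sub, sum_sub_distrib]
  · rw [Pi.sub_apply, congrFun F.act s, congrFun F'.act s]
    simp only [Jet.ma, Fy.jt, Prod.snd_sub, smul_sub, sum_sub_distrib]

omit [DecidableEq κ] in
/-- jets in two distant sources: the activities -/
theorem far_jet3 {Y : Fy ι} (t : G.Tz J (k + 1) z)
    (F : Fi (G.p (k + 1)) (G.N (k + 1)) A W r (G.Q (k + 1) ^ 329)⁻¹ Y.ψ Y.K)
    (pu : ∀ s ∈ Pd r, PU (G.p (k + 1)) (G.Q k ^ 210)⁻¹ (Y.ψ s)) (hT : T ⊆ A) {x y : ι}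
    (hx : x ∈ T) (hy : y ∈ T)
    (far : Sep (G.N k) (C * (G.p k).D) (nxt (G.sd k z) (W x)) (nxt (G.sd k z) (W y))) :
    ∃ d, KM (G.p k) (G.N k) d (jA T (G.fs A k z Y).K) ∧
      kN (G.p k) (G.N k) d (exp (2 - C) / ∏ i ∈ T, r i) := by
  have B := h.bl_big k z
  have q := h.Q0 k
  have a0 := inv_pos.2 (pow_pos q 329)
  have r0 : 0 < ∏ i ∈ T, r i := prod_pos fun i _ => F.pos i
  obtain ⟨d, d1, -, d2⟩ := ((h.fi_sd F z).mono F.pos (fun _ => le_rfl) (by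
    linarith [h.inv_up k.le_succ 329]) fun _ => Subset.rfl).jet_far (h.sd_all k z).nu (h.st2 t)
    (fun s hs => pu_mono (pu s hs) (by linarith [inv_pos.2 (pow_pos q 210)])) B.b_le B.θ_le hT hx hy
    far
  refine ⟨d, d1, d2.mono ?_⟩
  rw [show C * (G.p k).D / (G.sd k z).p'.D = C from mul_div_cancel_right₀ _ (h.D_pos k).ne',
    div_eq_mul_inv]
  refine mul_le_mul_of_nonneg_left (mul_le_of_le_one_right (by positivity)
    ((B.th (h.sd_all k z).nu).trans ((div_le_one q).2 ?_))) (exp_pos _).le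
  have := h.inv_le k (show 0 < 329 by norm_num)
  rw [pow_zero, inv_one] at this
  exact le_trans (by linarith) (h.Q1 k)

omit [DecidableEq ι] [DecidableEq κ] in
/-- a pure activity -/
theorem sz_act {L : Ac} {τ R : ℝ} (τ0 : 0 ≤ τ) (R0 : 0 < R)
    (e : ∃ d, KM (G.p k) (G.N k) d L ∧ kN (G.p k) (G.N k) d (τ / R)) :
    G.Sz k (G.Q k ^ 100 * τ * G.bb k / R) (G.Q k ^ 100 * τ * G.bb k / R) (G.Q k ^ 100)⁻¹ 0 L := by
  have q := h.Q0 k
  have b0 := h.b0 k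
  refine ⟨PM.mono (h.ρ0 k) (pm_zero (h.ρ0 k)) (by positivity) (by positivity) (by positivity),
    e.imp fun _ a => ⟨a.1, a.2.mono (le_of_eq ?_)⟩⟩
  have := h.bg k
  field_simp
  linear_combination (-τ) * this

omit [DecidableEq κ] in
/-- jets in two distant sources -/
theorem far_sz3 {Y : Fy ι} (t : G.Tz J (k + 1) z)
    (F : Fi (G.p (k + 1)) (G.N (k + 1)) A W r (G.Q (k + 1) ^ 329)⁻¹ Y.ψ Y.K)
    (pu : ∀ s ∈ Pd r, PU (G.p (k + 1)) (G.Q k ^ 210)⁻¹ (Y.ψ s)) (hT : T ⊆ A) {x y : ι}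
    (hx : x ∈ T) (hy : y ∈ T) (C0 : 0 < C)
    (far : Sep (G.N k) (C * (G.p k).D) (nxt (G.sd k z) (W x)) (nxt (G.sd k z) (W y)))
    (ml : ML (G.N k) A (fun a => nxt (G.sd k z) (W a)) (G.fs A k z Y).ψ) :
    G.Sz k (G.Q k ^ 100 * exp (2 - C) * G.bb k / ∏ i ∈ T, r i)
      (G.Q k ^ 100 * exp (2 - C) * G.bb k / ∏ i ∈ T, r i) (G.Q k ^ 100)⁻¹
      ((G.fs A k z Y).jt T).1 ((G.fs A k z Y).jt T).2 := by
  have := h.sz_act (exp_pos (2 - C)).le (prod_pos fun i _ => F.pos i)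
    (h.far_jet3 t F pu hT hx hy far)
  rw [← ml.van2 hT hx hy (far.disj (mul_pos C0 (h.D_pos k)))] at this
  exact this

variable {r r' : ℕ → ι → ℝ} {H H' : ℕ → Lx × Ac} {v v' : ι → ℕ → Lx × Ac}
  {f f' : ℕ → (ι → ℂ) → Conf → ℂ} {Y Y' : ℕ → Fy ι} {x y w : ℝ} {l' j' : ℕ} {B' : ι → Prop}
  {cl' : ι → κ}

omit [DecidableEq κ] in
/-- the family of a flow on a smaller polydisc, with rescaled sources -/
theorem Fo3.sc {γ : ℂ} (P : G.Fo3 A B cl b J i l j r0 r H v f Y) (hj : j ≤ k) (hi : k ≤ i)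
    (ρ0 : ∀ a, 0 < ρ a) (hρ : ∀ a, ‖γ‖ * ρ a ≤ r k a) :
    Fi (G.p k) (G.N k) A (Y k).Z ρ (G.Q k ^ 329)⁻¹ ((Y k).sc γ).ψ ((Y k).sc γ).K ∧
      ∀ s ∈ Pd ρ, PU (G.p k) (G.Q k ^ 211)⁻¹ (((Y k).sc γ).ψ s) :=
  have F := (P.on k hj hi).fd.fi
  ⟨F.sc (h.ρ0 k) ρ0 hρ, fun _ hs => P.pu k hj hi _ (pd_scale F.pos hρ hs)⟩

omit [DecidableEq κ] in
/-- jets in two distant sources along a flow -/
theorem Fo3.far {γ : ℂ} (t : G.Tu b J) (P : G.Fo3 A B cl b J i l j r0 r H v f Y) (hj : j ≤ k)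
    (hi : k < i) (hJ : i ≤ J) (ρ0 : ∀ a, 0 < ρ a) (hρ : ∀ a, ‖γ‖ * ρ a ≤ r (k + 1) a)
    (hT : T ⊆ A) {a a' : ι} (hx : a ∈ T) (hy : a' ∈ T) (C0 : 0 < C)
    (far : Sep (G.N k) (C * (G.p k).D) ((Y k).Z a) ((Y k).Z a')) :
    G.Sz k (G.Q k ^ 100 * exp (2 - C) * G.bb k / ∏ i ∈ T, ρ i)
      (G.Q k ^ 100 * exp (2 - C) * G.bb k / ∏ i ∈ T, ρ i) (G.Q k ^ 100)⁻¹
      (((Y k).sc γ).jt T).1 (((Y k).sc γ).jt T).2 := by
  obtain ⟨F, pu⟩ := Fo3.sc h P (hj.trans k.le_succ) hi ρ0 hρ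
  have u := h.sz_act (exp_pos (2 - C)).le (prod_pos fun i _ => ρ0 i)
    (h.far_jet3 (t.gd (k + 1) (by omega)).tz F (fun s hs => pu_mono (pu s hs) (by
      linarith [h.inv_up k.le_succ 211, h.inv_le k (show 210 < 211 by norm_num),
        inv_pos.2 (pow_pos (h.Q0 k) 211)])) hT hx hy (by rw [P.st k hi] at far; exact far))
  rw [fs_sc, ← P.st k hi] at u
  have e : (((Y k).sc γ).jt T).1 = 0 := by
    rw [Fy.sc_jt, Prod.smul_fst]
    exact smul_eq_zero_of_right _ ((P.on k hj hi.le).fd.fi.ml.van2 hT hx hy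
      (far.disj (mul_pos C0 (h.D_pos k))))
  rw [e]
  exact u

omit [DecidableEq κ] in
/-- the difference of two flows at level `k` from the base points, the first jets and the higher
jets in sources which are not far from each other -/
theorem df2_fo3 {γ : ℂ} (t : G.Tu b J) (P : G.Fo3 A B cl b J i l j r0 r H v f Y)
    (P' : G.Fo3 A B' cl' b J i' l' j' r0' r' H' v' f' Y') (hj : j ≤ k) (hj' : j' ≤ k) (hi : k < i)
    (hi' : k < i') (hJ : i ≤ J) (hJ' : i' ≤ J) (Z : (Y' k).Z = (Y k).Z) (ρ0 : ∀ a, 0 < ρ a)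
    (hρ : ∀ n, k ≤ n → n ≤ k + 1 → ∀ a, ρ a ≤ r n a ∧ ‖γ‖ * ρ a ≤ r' n a) (hA : A.card ≤ c)
    (C0 : 0 < C) (x0 : 0 ≤ x) (w0 : 0 ≤ w)
    (e0 : G.Sz k y y (G.Q k ^ 100)⁻¹ ((H k).1 - (H' k).1) ((H k).2 - (H' k).2))
    (e1 : ∀ a ∈ A, G.Sz k (x / ρ a) (x / ρ a) (G.Q k ^ 100)⁻¹ (v a k - γ • v' a k).1
      (v a k - γ • v' a k).2)
    (e2 : ∀ T ⊆ A, 2 ≤ T.card →
      (∃ a ∈ T, ∃ a' ∈ T, Sep (G.N k) (C * (G.p k).D) ((Y k).Z a) ((Y k).Z a')) ∨
      G.Sz k (w / ∏ a ∈ T, ρ a) (w / ∏ a ∈ T, ρ a) (G.Q k ^ 100)⁻¹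
        ((Y k).jt T - γ ^ T.card • (Y' k).jt T).1 ((Y k).jt T - γ ^ T.card • (Y' k).jt T).2)
    (hX : y + c * x + 2 ^ c * (w + 2 * (G.Q k ^ 100 * exp (2 - C) * G.bb k)) ≤ M) :
    G.Df2 k ρ M M (Y k) ((Y' k).sc γ) := by
  have o := P.on k hj hi.le
  have o' := P'.on k hj' hi'.le
  have τ0 : 0 < G.Q k ^ 100 * exp (2 - C) * G.bb k := by
    have := h.Q0 k; have := h.b0 k; positivity
  have ω0 := (inv_pos.2 (pow_pos (h.Q0 k) 100)).le
  have y0 := (h.sz_nn e0).1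
  have one : ∀ Y : Fy ι, Y.sc 1 = Y := fun Y => by simp [Fy.sc]
  refine h.df2_of3 (x := fun T => (if T = ∅ then y else 0) + (if T.card = 1 then x else 0) +
    (w + 2 * (G.Q k ^ 100 * exp (2 - C) * G.bb k)))
    (o.fd.fi.mono ρ0 (fun a => (hρ k le_rfl k.le_succ a).1) le_rfl fun _ => Subset.rfl)
    (Fo3.sc h P' hj' hi'.le ρ0 fun a => (hρ k le_rfl k.le_succ a).2).1 (fun T hT => ?_)
    ((sum_three hA x0 (by linarith)).trans hX)
  have q : 0 < ∏ a ∈ T, ρ a := prod_pos fun a _ => ρ0 a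
  rcases Nat.lt_trichotomy T.card 1 with e | e | e
  · obtain rfl := card_eq_zero.1 (Nat.lt_one_iff.1 e)
    have u : (Y k).jt ∅ - ((Y' k).sc γ).jt ∅ = H k - H' k := by
      rw [← o.bs, ← o'.bs, ← Fy.sc_bs (γ := γ) (Y := Y' k)]
      simp only [Fy.jt, Fy.bs, jL_empty, jA_empty]
    rw [u]
    have u' : y ≤ ((if (∅ : Finset ι) = ∅ then y else 0) +
        (if (∅ : Finset ι).card = 1 then x else 0) +
        (w + 2 * (G.Q k ^ 100 * exp (2 - C) * G.bb k))) / ∏ a ∈ ∅, ρ a := by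
      rw [if_pos rfl, if_neg e.ne, prod_empty, div_one]
      linarith
    exact h.sz_le e0 ω0 u' u' le_rfl
  · obtain ⟨a, rfl⟩ := card_eq_one.1 e
    have ha := singleton_subset_iff.1 hT
    have u : x / ρ a ≤ ((if ({a} : Finset ι) = ∅ then y else 0) +
        (if ({a} : Finset ι).card = 1 then x else 0) +
        (w + 2 * (G.Q k ^ 100 * exp (2 - C) * G.bb k))) / ∏ a ∈ {a}, ρ a := by
      rw [if_neg (singleton_ne_empty a), if_pos e, prod_singleton]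
      exact div_le_div_of_nonneg_right (by linarith) (ρ0 a).le
    rw [Fy.sc_jt, card_singleton, pow_one, o.jt a ha, o'.jt a ha]
    exact h.sz_le (e1 a ha) ω0 u u le_rfl
  · rw [if_neg (card_pos.1 (by omega)).ne_empty, if_neg e.ne', zero_add, zero_add]
    rcases e2 T hT e with ⟨a, ha, a', ha', u⟩ | u
    · have u1 := Fo3.far h (γ := 1) t P hj hi hJ ρ0
        (fun a => by simpa using (hρ _ k.le_succ le_rfl a).1) hT ha ha' C0 u
      have u2 := Fo3.far h t P' hj' hi' hJ' ρ0 (fun a => (hρ _ k.le_succ le_rfl a).2) hT ha ha' C0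
        (Z ▸ u)
      rw [one] at u1
      have u3 : G.Q k ^ 100 * exp (2 - C) * G.bb k / ∏ i ∈ T, ρ i +
          G.Q k ^ 100 * exp (2 - C) * G.bb k / ∏ i ∈ T, ρ i ≤
          (w + 2 * (G.Q k ^ 100 * exp (2 - C) * G.bb k)) / ∏ i ∈ T, ρ i := by
        rw [← add_div]
        exact div_le_div_of_nonneg_right (by linarith) q.le
      exact h.sz_le (sz_sub (h.ρ0 k) u1 u2) ω0 u3 u3 le_rfl
    · have u3 : w / ∏ i ∈ T, ρ i ≤
          (w + 2 * (G.Q k ^ 100 * exp (2 - C) * G.bb k)) / ∏ i ∈ T, ρ i :=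
        div_le_div_of_nonneg_right (by linarith) q.le
      rw [Fy.sc_jt]
      exact h.sz_le u ω0 u3 u3 le_rfl

end Ok

end Gl

end Pool.Agent.Lib.MP_7f377f_mp.RG.Q4.En
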