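import Pool.Agent.Lib.MP_7f377f_mp.G.S23T9

/-! Complex data on larger flux fields. -/

noncomputable section

set_option linter.unusedSectionVars false
variable [Pool.Agent.Lib.MP_7f377f_mp.GD]

namespace Pool.Agent.Lib.MP_7f377f_mp.RG.Q4.En

open Finset Real Sd Metric Pos

theorem LF.cx_bd14 {S : Sd} {v e u ω : ℝ} {ψ : Lx} {K : Ac} {ϑ : Lk → Ang} (h : LF S v e)
    (z : Sz S.p S.nf S.Q S.g u u ω ψ K) (hu : S.Q ^ 100 * u * S.g ^ 2 ≤ 1) (hω : ω ≤ 1)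
    (a : Fw S.nf (S.g / S.Q ^ 14) ϑ) : exp (-(2 * S.nf ^ 4)) ≤ ‖Rep S.p S.nf (S.Φ ψ) K (ab ϑ)‖ ∧
      ‖Rep S.p S.nf (S.Φ ψ) K (ab ϑ)‖ ≤ exp (2 * S.nf ^ 4) := by
  obtain ⟨F, hF, hd, hϑ⟩ := a
  obtain ⟨hψ, k, k1, k2⟩ := z
  have Q0 := S.Q0
  have g0 := h.nu.ok.g0
  have b0 := h.nu.ok.β0
  obtain ⟨t0, -, t2, t3⟩ := h.tq_bd (le_self_pow₀ S.Q1 (by norm_num) : S.Q ≤ S.Q ^ 14)
    ((pow_mul _ _ _).ge.trans ((S.Qw (by norm_num)).trans h.nu.ok.Qβ))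
  have u0 := ((hψ 0).1.nonneg h.ρ0).1
  have w0 : 0 ≤ u * S.g ^ 2 := by positivity
  rw [mul_assoc] at hu
  have w1 : ∀ i < 100, 1000 * (S.Q ^ i * (u * S.g ^ 2)) ≤ 1 := fun i hi =>
    (mul_assoc _ _ _).ge.trans ((mul_le_mul_of_nonneg_right (qpw h.nu hi) w0).trans hu)
  have w2 := mul_le_mul_of_nonneg_right hω w0
  rw [← one_add_one_eq_two]
  refine rep_cx h.pg1.1 h.nu.ok.odd_nf k1 k2 (le_trans ?_ h.pg1.2) hϑ.per (h.chi hϑ hd t3)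
    fun x => ?_
  · rw [inv_eq_one_div, le_div_iff₀ Q0]
    nlinarith [w1 1 (by norm_num), mul_le_mul_of_nonneg_left w2 Q0.le]
  obtain ⟨c1, c2, -, -, -⟩ := h.small (by linarith) t3
  obtain ⟨k0, k3, -, -⟩ := (hψ 0).1.elim
  have cv := (cc_val k3.cc hF hd c1).1
  have v1 := (hψ x).1.bd_em cv c2
  have v2 := (h.tree_ps.1 x).1.bd_em cv c2
  rw [hϑ.bx hF, Sd.Φ]
  refine (norm_add_le_of_le (norm_mul_le_of_le (Complex.norm_real _).le v2) v1).trans ?_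
  generalize tq S.nf (S.g / S.Q ^ 14) = t at *
  have ρ0 := h.ρ0
  have l1 := L1 S.toTd
  have t4 : S.Q ^ 28 * t ^ 2 ≤ 4 * S.g ^ 2 := by
    rw [show S.Q ^ 28 * t ^ 2 = (S.Q ^ 14 * t) ^ 2 by ring, show 4 * S.g ^ 2 = (2 * S.g) ^ 2 by ring]
    gcongr
  have t5 : S.Q ^ 28 * (S.β * t ^ 2) ≤ 4 := by
    nlinarith [mul_le_mul_of_nonneg_left t4 b0.le, h.nu.ok.βg]
  have t6 : t ≤ 1 := by nlinarith [h.nu.ok.g1, h.nu.cQ' (C := 2) (by norm_num)]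
  have t7 : 1000 * (S.Q * (S.β * t ^ 2)) ≤ 4 / 1000 := by
    have := mul_le_mul_of_nonneg_right ((mul_le_mul_of_nonneg_left (qpw h.nu
      (i := 1) (j := 2) (by norm_num)) (by norm_num : (0 : ℝ) ≤ 1000)).trans
      (qpw h.nu (j := 28) (by norm_num))) (show 0 ≤ S.β * t ^ 2 by positivity)
    linarith
  have t8 : t ^ 2 ≤ 4 * S.g ^ 2 := (le_mul_of_one_le_left (by positivity) (one_le_pow₀ S.Q1)).trans t4
  rw [norm_of_nonneg b0.le]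
  calc _ ≤ S.β * (3 * (S.Q + S.Q) * (2 * (2 * t)) ^ 2 + S.Q * (64 * t ^ 2 * 1)) +
        (3 * (S.Q ^ 2 * u + S.Q ^ 2 * u) * (16 * (4 * S.g ^ 2)) + S.Q ^ 50 * 1 * u * S.g ^ 2 * 1 ^ 3) := by
        gcongr ?_ * (3 * (?_ + ?_) * _ + ?_) + (3 * (?_ + _) * ?_ + ?_)
        · exact h.nu.L_le_Q
        · exact div_le_self Q0.le l1
        · rw [show S.Q * S.p.ρ ^ 3 * (2 * (2 * t) / S.p.ρ) ^ 3 = S.Q * (64 * t ^ 2 * t) by
            field_simp; ring]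
          gcongr
        · exact le_mul_of_one_le_left u0 (one_le_pow₀ S.Q1)
        · linarith
        · exact mul_le_mul (by gcongr) (pow_le_pow_left₀ (by positivity) ((div_le_one ρ0).2 c2) 3)
            (by positivity) (by positivity)
    _ ≤ 1 := by nlinarith [w1 2 (by norm_num), w1 50 (by norm_num)]

namespace Gl.Ok

variable {G : Gl} (h : G.Ok) {b σ X : ℝ} {J k : ℕ} {z : Z} {F : ℂ → Conf → ℂ} {y : ℂ → Lx × Ac}
  {s : ℂ}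
include h

theorem fc_nz14 (g : G.Gd b J k z) (e : G.Fc6 k z σ X F y) (hX : X ≤ G.xq k)
    (hs : s ∈ ball (0 : ℂ) σ) : Nz1 (G.N k) (G.g k / G.Q k ^ 14) (F s) := fun ϑ ϑ' a a' => by
  obtain ⟨κ, κ0, p⟩ := e.rp s hs
  have B := fun ϑ (a : Fw (G.N k) (G.g k / G.Q k ^ 14) ϑ) => (h.lf g.tz).cx_bd14
    (h.sz_sl (h.fc_bs g e hs) _) (ϑ := ϑ) ((h.xq_le (m := 0) (by linarith [h.xq1 k]) le_rfl
      (by norm_num)).trans_eq (by simp))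
    (by linarith [h.oq_le k (n := 0) (by norm_num), h.oq0 k]) (by rw [h.sl_nf]; exact a)
  have b1 := B ϑ a
  have b2 := (B ϑ' a').1
  rw [p _ a.per, p _ a'.per, norm_mul, norm_mul, mul_left_comm]
  refine ⟨mul_ne_zero κ0 (norm_pos_iff.1 ((exp_pos _).trans_le b1.1)),
    mul_le_mul_of_nonneg_left (b1.2.trans (le_trans (le_of_eq ?_)
      (mul_le_mul_of_nonneg_left b2 (exp_pos _).le))) (norm_nonneg _)⟩
  rw [← exp_add, h.sl_nf]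
  congr 1
  ring

end Gl.Ok

end Pool.Agent.Lib.MP_7f377f_mp.RG.Q4.En
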