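import Pool.Agent.Lib.MP_7f377f_mp.G.Q4AfY

/-! The one loop term at the end of a chain, with every precision. -/

noncomputable section

set_option linter.unusedSectionVars false
variable [Pool.Agent.Lib.MP_7f377f_mp.GD]

namespace Pool.Agent.Lib.MP_7f377f_mp.RG.Q4.En

open Filter

/-- the one loop term at the end of a chain, with every precision -/
def AfU (c Kt K0 : ℕ) : Prop := ∀ Ka : ℕ, ∃ (K' l0 : ℕ) (bnat : ℕ → ℝ),
  ∀ l ≥ l0, ∀ n ≥ S0 l, ∀ d, Chn c Kt K0 l n ((LL l : ℝ) ^ K')⁻¹ d →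
    ∀ a : V, (∀ μ ν, dd a 0 μ ν = kF 1 μ ν) → ‖qc (d n).ol a a + bnat l‖ ≤ ((LL l : ℝ) ^ Ka)⁻¹

theorem afu_ev {c : ℕ} (t : TL c) : ∀ᶠ S in ev c, AfU S.c S.Kt S.K0 := by
  obtain ⟨a0, h⟩ := Af.af_main c t.1 t.2
  choose! a1 h using h
  refine Eventually.filter_mono inf_le_left ?_
  filter_upwards [ev_Kt a0, ev_K0 a1, ev_c] with S h0 h1 h3 Ka
  obtain ⟨K', l0, bn, -, q⟩ := h S.Kt h0 S.K0 h1 Ka
  exact ⟨K', l0, bn, h3 ▸ q⟩

end Pool.Agent.Lib.MP_7f377f_mp.RG.Q4.En
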