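import Pool.Agent.Lib.MP_7f377f_mp.G.S23T5
import Pool.Agent.Lib.MP_7f377f_mp.G.S23TN
import Pool.Agent.Lib.MP_7f377f_mp.G.S23U
import Pool.Agent.Lib.MP_7f377f_mp.G.Q5Fm

/-! The second derivative of the measured coupling with respect to the bare coupling is small. -/

noncomputable section

set_option linter.unusedSectionVars false
variable [Pool.Agent.Lib.MP_7f377f_mp.GD]

namespace Pool.Agent.Lib.MP_7f377f_mp.RG.Q4.En

open Finset Real Metric Filter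

/-- the second derivative of the logarithm at a flux field -/
def dl (F : ℂ → Conf → ℂ) (ϑ : Lk → Ang) : ℂ := iteratedDeriv 2 (lg1 (F · (ab ϑ))) 0

theorem lg1_cd {R : ℂ → ℂ} {σ : ℝ} (σ0 : 0 < σ) (hd : DifferentiableOn ℂ R (ball 0 σ))
    (h0 : ∀ t ∈ ball (0 : ℂ) σ, R t ≠ 0) : ContDiffAt ℂ 2 (lg1 R) 0 :=
  ((lg1_spec hd h0).1.analyticAt (ball_mem_nhds _ σ0)).contDiffAt

theorem lr_d2 {u v : Fin 2 → ℂ → ℂ} (c : Fin 2 → ℝ) (hu : ∀ i, ContDiffAt ℂ 2 (lg1 (u i)) 0)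
    (hv : ∀ i, ContDiffAt ℂ 2 (lg1 (v i)) 0) : iteratedDeriv 2 (lr c u v) 0 =
      c 0 * (iteratedDeriv 2 (lg1 (u 0)) 0 - iteratedDeriv 2 (lg1 (v 0)) 0) -
        c 1 * (iteratedDeriv 2 (lg1 (u 1)) 0 - iteratedDeriv 2 (lg1 (v 1)) 0) := by
  have a := fun i => (hu i).sub (hv i)
  rw [← iteratedDeriv_sub (hu 0) (hv 0), ← iteratedDeriv_sub (hu 1) (hv 1),
    ← iteratedDeriv_const_mul_field, ← iteratedDeriv_const_mul_field]
  exact iteratedDeriv_sub (contDiffAt_const.mul (a 0)) (contDiffAt_const.mul (a 1))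

theorem dd_e1 (μ ν : Fin 4) : dd e1 0 μ ν = kF 1 μ ν := by
  rw [e1, dd_pt (as_EE _)]
  fin_cases μ <;> fin_cases ν <;> simp [EE, EZ, kF]

namespace Gl.Ok

variable {G : Gl} (h : G.Ok) {b s P : ℝ} {J i j k a K' : ℕ} {z : Z}
include h

theorem Q_sq1 (j : ℕ) : G.Q (j + 1) ≤ G.Q j ^ 2 := by
  have a : G.L (j + 1) ≤ 3 * G.L j := by
    rcases h.sch.size j with e | e <;> unfold L l at * <;> omega
  rw [Q, Q, ← pow_mul, mul_comm, pow_mul]
  have : G.L (j + 1) ≤ G.L j ^ 2 := by nlinarith [h.L_big j]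
  exact pow_le_pow_left₀ (Nat.cast_nonneg _) (by exact_mod_cast this) _

theorem rh_le (hk : k ≤ j) : 1000 * G.rh k ≤ G.bb j := by
  have := h.Q0 k
  rw [rh, ← mul_div_assoc, div_le_iff₀ (by positivity), mul_comm]
  exact mul_le_mul (h.b_mono hk) (by simpa using h.qpw k (i := 0) (j := 6000) (by norm_num))
    (by norm_num) (h.b0 j).le

theorem rh0' (k : ℕ) : 0 < G.rh k := div_pos (h.b0 k) (pow_pos (h.Q0 k) _)

theorem QB (hB : a * G.K ≤ G.Bk k) (hk : k ≤ j) : G.Q j ^ a ≤ G.bb j := by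
  rw [Q, ← pow_mul, mul_comm]
  exact h.Lbk j (hB.trans (h.B_mono hk))

theorem Qs (hB : 4 * a * G.K ≤ G.Bk k) (hk : k ≤ j) : G.Q j ^ a * √(G.g j) ≤ 1 :=
  le_of_sq_le_sq (le_of_sq_le_sq (by
    rw [mul_pow, sq_sqrt (h.g0 j).le, mul_pow, ← pow_mul, ← pow_mul, one_pow, one_pow, ← h.bg j]
    exact mul_le_mul_of_nonneg_right ((pow_le_pow_right₀ (h.Q1 j) (by omega)).trans (h.QB hB hk))
      (sq_nonneg _)) (by norm_num)) zero_le_one

/-- the exact change of the coupling in one step -/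
theorem v_step (hk : j < J) (d : G.Gd b J (j + 1) z) (hv : |z.v - 1| ≤ 20⁻¹) :
    |G.bb j * (G.nx j z).v - G.bb (j + 1) * z.v - (qc (G.sd j z).ol e1 e1).re| ≤
      G.g (j + 1) ^ 2 + 2 * (G.Q j ^ 50 * √(G.g (j + 1))) := by
  have t := (h.gd_tg d).2.1
  have a1 := (Complex.abs_re_le_norm _).trans ((lin_step (h.sd_all j z).nu (h.st2 d.tz)
    (h.sz_sd d.dt.sz z) le_rfl t.hi).2 (TCov.cx (h.N_odd _) d.dt.re.2.2) _ _ _ _ cv_e1 cv_e1)
  change _ ≤ G.Q j ^ 50 * √(G.g (j + 1)) * (1 + 1) * 1 * 1 at a1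
  rw [Complex.sub_re] at a1
  have e : G.kp j z * z.v = _ := div_mul_cancel₀ _ (by linarith [(abs_le.1 hv).1])
  refine (congrArg _ ?_).trans_le (((abs_sub_abs_le_abs_sub _ _).trans a1 |>
    sub_le_iff_le_add.1).trans (by linarith [d.q]))
  change G.bb j * (G.lam j z * z.v) - _ - _ = _
  rw [lam, ← mul_assoc, mul_div_cancel₀ _ (h.b0 j).ne', add_mul, e]
  ring

/-- the measured coupling with a fine probe -/
theorem meas_a (b0 : 0 ≤ b) (d : G.Gd b J j z) (hB : 20 * a * G.K ≤ G.Bk k) (hk : k ≤ j)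
    (ha : 100 ≤ a) (P1 : G.Q j ≤ P) (P3 : P ≤ G.Q j ^ a) : G.g j / P ≤ tq (G.N j) (G.g j / P) ∧
      |bh (G.N j) (G.g j / P) (G.f b J j) - G.bb j * z.v| ≤
        3 * (G.Q j ^ 2 / P ^ 2) + 7 * (G.Q j ^ (a + 1))⁻¹ ∧
      ∀ F ϑ, As F → ‖F‖ ≤ 2 * tq (G.N j) (G.g j / P) → Fx (G.N j) F ϑ →
        |log (G.f b J j (ab ϑ)).re - log (G.f b J j (ab 0)).re +
          G.N j ^ 4 * (G.bb j * z.v * m0 (pt F) (pt F))| ≤
          20 * tq (G.N j) (G.g j / P) ^ 2 * G.N j ^ 4 := by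
  obtain ⟨a1, k0, a2, a3⟩ := h.sz_sl d.dt.sz z
  have q0 := h.Q0 j
  have q1 := h.Q1 j
  have g0 := h.g0 j
  have lf := h.lf d.tz
  have w : ∀ i ≤ 5 * a, G.Q j ^ i * √(G.g j) ≤ 1 := fun i hi => (mul_le_mul_of_nonneg_right
    (pow_le_pow_right₀ q1 hi) (sqrt_nonneg _)).trans (h.Qs (by linarith) hk)
  have w' : ∀ i ≤ 20 * a, G.Q j ^ i * G.g j ^ 2 ≤ 1 := fun i hi => (mul_le_mul_of_nonneg_right
    ((pow_le_pow_right₀ q1 hi).trans (h.QB hB hk)) (sq_nonneg _)).trans_eq (h.bg j)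
  have g1 : G.g j ^ 2 ≤ 1 := by simpa using w' 0 (by omega)
  have P0 := q0.trans_le P1
  have P4 : P ^ 2 ≤ G.Q j ^ (a * 2) := (pow_le_pow_left₀ P0.le P3 2).trans_eq (pow_mul _ _ _).symm
  have P2 : P ^ 2 ≤ G.bb j := P4.trans ((pow_le_pow_right₀ q1 (by omega)).trans (h.QB hB hk))
  obtain ⟨t0, t, -⟩ := lf.tq_bd P1 P2
  have s := ((h.f_facts J j).1 b b0).2.1
  have c := h.cQ j (C := 1000) (by norm_num)
  have u1 : (1 + G.Q j ^ 2 * 1) * G.g j ^ 2 ≤ 1 := by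
    nlinarith only [w' 3 (by omega), mul_le_mul_of_nonneg_right
      (h.qpw j (i := 2) (j := 3) (by norm_num)) (sq_nonneg (G.g j)),
      mul_le_mul_of_nonneg_right (one_le_pow₀ (n := 2) q1) (sq_nonneg (G.g j))]
  have u2 : G.Q j ^ 50 * √(G.g j) * 1 * G.g j ^ 2 ≤ 1 := by
    linarith only [mul_le_mul_of_nonneg_left g1 (show 0 ≤ G.Q j ^ 50 * √(G.g j) by positivity),
      w 50 (by omega)]
  have u3 : 2 * G.Q j * (√(G.g j) * 1 * G.g j ^ 2) ≤ 1 := by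
    nlinarith only [mul_le_mul_of_nonneg_left g1 (show 0 ≤ G.Q j * √(G.g j) by positivity),
      w 2 (by omega), mul_le_mul_of_nonneg_right c (show 0 ≤ G.Q j * √(G.g j) by positivity),
      show 0 ≤ G.Q j * √(G.g j) by positivity]
  have u4 : G.Q j ^ 2 / P ^ 2 + G.Q j ^ 50 * √(G.g j) * 1 * G.g j ^ 2 /
      (G.Q j ^ 9 * G.g j ^ 2) + 2 * P ^ 2 * (√(G.g j) * 1 * G.g j ^ 2) / G.g j ^ 2 ≤
      G.Q j ^ 2 / P ^ 2 + 2 * (G.Q j ^ (a + 1))⁻¹ := by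
    rw [add_assoc, add_le_add_iff_left, ← div_eq_mul_inv, le_div_iff₀ (by positivity)]
    have e0 : 0 ≤ G.Q j ^ (3 * a + 1) * √(G.g j) := by positivity
    have e2 := mul_le_mul_of_nonneg_right c e0
    calc _ = G.Q j ^ (a + 42) * √(G.g j) + 2 * (P ^ 2 * G.Q j ^ (a + 1) * √(G.g j)) := by
          field_simp; ring
      _ ≤ G.Q j ^ (a + 42) * √(G.g j) + 2 * (G.Q j ^ (a * 2) * G.Q j ^ (a + 1) * √(G.g j)) := by
          gcongr
      _ ≤ _ := by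
        have := w (3 * a + 1 + 1) (by omega)
        rw [pow_succ' _ (3 * a + 1), mul_assoc] at this
        rw [← pow_add, show a * 2 + (a + 1) = 3 * a + 1 by ring]
        linarith only [e0, e2, this, w (a + 42) (by omega)]
  rw [← h.sl_nf j z] at s ⊢
  refine ⟨(div_le_iff₀' (by positivity)).2 t, ?_, fun F ϑ b1 b2 b3 => ?_⟩
  · have := (lf.flux a1 a2 a3 (h.re_sl d.dt.re z) s d.dt.rp u1 u2 u3 P1 P2 u4).1
    have e : G.g j ^ 2 ≤ (G.Q j ^ (a + 1))⁻¹ := by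
      rw [inv_eq_one_div, le_div_iff₀' (by positivity)]; exact w' _ (by omega)
    have q := abs_le.1 (d.q.trans e)
    change |bh _ (G.g j / _) _ - (G.bb j * z.v + (qc (z.ψ 0) e1 e1).re)| ≤ _ at this
    rw [abs_le] at this ⊢
    constructor <;> linarith only [this.1, this.2, q.1, q.2]
  obtain ⟨E, H⟩ := lf.flux0 a1 a2 a3 (h.re_sl d.dt.re z) d.dt.rp u1 u2 u3 P1 P2 (η := 3)
    (u4.trans (by linarith [inv_le_one_of_one_le₀ (one_le_pow₀ (n := a + 1) q1),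
      (div_le_one (pow_pos P0 2)).2 (pow_le_pow_left₀ q0.le P1 2)]))
  change 0 < tq _ (G.g j / _) at t0
  change ∀ F ϑ, As F → ‖F‖ ≤ 2 * tq _ (G.g j / _) → _ → _ ∧ |_ + _ * (G.bb j * _ + _)| ≤
    3 * tq _ (G.g j / _) ^ 2 * _ at H
  generalize tq (G.sl j z).nf (G.g j / P) = t at *
  have n0 : (0 : ℝ) ≤ (G.sl j z).nf ^ 4 := by positivity
  have g2 : 1000 * G.g j ^ 2 ≤ 1 := by
    linarith [mul_le_mul_of_nonneg_right c (sq_nonneg (G.g j)), w' 1 (by omega)]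
  have key : ∀ F ϑ, As F → ‖F‖ ≤ 2 * t → Fx (G.sl j z).nf F ϑ → |log (G.f b J j (ab ϑ)).re - E +
      (G.sl j z).nf ^ 4 * (G.bb j * z.v * m0 (pt F) (pt F))| ≤ 10 * t ^ 2 * (G.sl j z).nf ^ 4 :=
    fun F ϑ b1 b2 b3 => by
      have c1 := (cv_pt b1 0).mono le_rfl b2
      have c2 := lf.cd c1 c1
      have c3 := abs_le.1 ((Complex.abs_re_le_norm _).trans ((a1 0).1.cb _ _ _ _ c1 c1))
      have c4 := abs_le.1 (H F ϑ b1 b2 b3).2
      have c5 := mul_le_mul_of_nonneg_right g2 (sq_nonneg t)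
      rw [cc_eq b1, abs_le] at c2
      change _ ≤ G.bb j * _ - G.bb j * _ * _ ∧ G.bb j * _ - G.bb j * _ * _ ≤ 64 * G.g j ^ 2 * _ * _ at c2
      change -(64 * G.g j ^ 2 * _ * _) ≤ _ ∧ _ at c2
      rw [abs_le]
      constructor <;> linarith only [c4.1, c4.2, mul_le_mul_of_nonneg_left (show
        G.bb j * (G.sl j z).m (pt F) (pt F) + (qc (z.ψ 0) (pt F) (pt F)).re -
          G.bb j * z.v * m0 (pt F) (pt F) ≤ 5 * t ^ 2 by linarith only [c2.2, c3.2, c5, sq_nonneg t]) n0,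
        mul_le_mul_of_nonneg_left (show G.bb j * z.v * m0 (pt F) (pt F) - (G.bb j *
          (G.sl j z).m (pt F) (pt F) + (qc (z.ψ 0) (pt F) (pt F)).re) ≤ 5 * t ^ 2 by
            linarith only [c2.1, c3.1, c5, sq_nonneg t]) n0, mul_nonneg (sq_nonneg t) n0]
  have z0 : As (0 : Mt) := fun _ _ => by simp
  have k0 := key 0 0 z0 (by simpa using t0.le) fx_zero
  have k1 := key F ϑ b1 b2 b3
  rw [m0_pt z0] at k0
  simp only [Pi.zero_apply, ne_eq, OfNat.ofNat_ne_zero, not_false_eq_true, zero_pow, sum_const_zero,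
    mul_zero, add_zero] at k0
  rw [abs_le] at *
  constructor <;> linarith only [k0.1, k0.2, k1.1, k1.2]

theorem meas_b (b0 : 0 ≤ b) (d : G.Gd b J j z) (hB : 20 * a * G.K ≤ G.Bk k) (hk : k ≤ j)
    (ha : 100 ≤ a) :
    |bh (G.N j) (G.g j / G.Q j ^ a) (G.f b J j) - G.bb j * z.v| ≤ 10 * (G.Q j ^ (a + 1))⁻¹ := by
  have q0 := h.Q0 j
  have : G.Q j ^ 2 / (G.Q j ^ a) ^ 2 ≤ (G.Q j ^ (a + 1))⁻¹ := by
    rw [inv_eq_one_div, div_le_div_iff₀ (by positivity) (by positivity), ← pow_add, ← pow_mul, one_mul]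
    exact pow_le_pow_right₀ (h.Q1 j) (by omega)
  linarith [(h.meas_a b0 d hB hk ha (le_self_pow₀ (h.Q1 j) (by omega)) le_rfl).2.1]

theorem fw14 (P1 : G.Q j ^ 14 ≤ P) {ϑ : Lk → Ang} (c : Fw (G.N j) (G.g j / P) ϑ) :
    Fw (G.N j) (G.g j / G.Q j ^ 14) ϑ :=
  c.mono (div_le_div_of_nonneg_left (h.g0 j).le (pow_pos (h.Q0 j) _) P1)

theorem fw0 (j : ℕ) : Fw (G.N j) (G.g j / G.Q j ^ 14) 0 :=
  h.fw14 (pow_le_pow_right₀ (h.Q1 j) (by norm_num)) (fw_zero (h.tq0 j))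

/-- the one loop term with a better precision -/
theorem af_a {ε : ℝ} {c : ℂ} (hJ : j + G.l j < J) (e : G.l (j + G.l j) = G.l j)
    (d : ∀ i, j < i → i ≤ J → G.Tz J i (G.zz b J i))
    (w : ∀ i, j ≤ i → i < J → |G.lam i (G.zz b J (i + 1)) - 1| ≤ 3 * G.Q i / G.bb i)
    (hB : G.K + K' + 1 ≤ G.Bk j) (af : ∀ t, Chn G.c G.Kt G.K0 (G.l j) (G.l j) ((G.L j : ℝ) ^ K')⁻¹ t →
      ‖qc (t (G.l j)).ol e1 e1 + c‖ ≤ ε) : ‖qc (G.sd j (G.zz b J (j + 1))).ol e1 e1 + c‖ ≤ ε := by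
  obtain ⟨t, ht⟩ : ∃ t : ℕ → Td, ∀ s, t s = G.td (j + G.l j - s) (G.zz b J (j + G.l j - s + 1)) :=
    ⟨_, fun _ => rfl⟩
  have l0 : (0 : ℝ) < G.L j := by linarith [h.L1 j]
  have := af t (Chain.chn (S := G.sd j (G.zz b J (j + 1))) ⟨fun i hi => ?_, fun i hi => ?_,
    fun i hi => ⟨G.lam (j + G.l j - i) (G.zz b J (j + G.l j - i + 1)), ?_, ?_⟩⟩)
  · rwa [ht, Nat.add_sub_cancel] at this
  · rw [ht]
    exact ⟨rfl, rfl, rfl, h.l_eq e (by omega) (by omega)⟩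
  · have D := d (j + G.l j - i + 1) (by omega) (by omega)
    rw [ht]
    refine ⟨_, _, _, _, ?_, D.v, ze0 D, ?_, D.tr _ (.inr rfl), h.ln D (.inr rfl)⟩
    · rcases Nat.eq_zero_or_pos i with rfl | i0
      · exact (h.sch.size (j + G.l j)).imp (·.trans (congrArg LL e))
          fun a => ⟨rfl, a.trans (congrArg (3 * LL ·) e)⟩
      · exact .inl (congrArg LL (h.l_eq e (by omega) (by omega)))
    · have a := (h.Lbk j (i := K') (by omega)).trans (h.b_mono (show j ≤ j + G.l j - i + 1 by omega))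
      have c := (one_le_pow₀ (h.Q1 _)).trans (h.Qb (j + G.l j - i + 1))
      rw [inv_eq_one_div, le_div_iff₀ (pow_pos l0 _)]
      exact (mul_le_mul_of_nonneg_left (a.trans (le_self_pow₀ c two_ne_zero)) (ze0 D)).trans
        (h.ze1 D)
  · refine (w _ (by omega) (by omega)).trans ?_
    have a := (h.Lbk j hB).trans (h.b_mono (show j ≤ j + G.l j - i by omega))
    rw [Q, show G.L (j + G.l j - i) = G.L j from congrArg LL (h.l_eq e (by omega) (by omega)),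
      inv_eq_one_div, div_le_div_iff₀ (h.b0 _) (pow_pos l0 _), one_mul, mul_assoc, ← pow_add]
    refine le_trans ?_ a
    rw [pow_succ']
    gcongr
    linarith [h.L1 j]
  · rw [ht, ht, show j + G.l j - (i + 1) + 1 = j + G.l j - i by omega,
      zz_step b (show j + G.l j - i < J by omega)]
    exact ⟨td_m _ _ _, td_T _ _ _⟩

variable (hp : G.Pu) (A : G.Tu b J) (hB : 10 ^ 4 * G.K ≤ G.Bk k)
include A

theorem bs0 (hk : k ≤ J) (hs : |s| < G.rh k) : 0 ≤ b + s ∧ |(b + s) / G.bb J - 1| ≤ 20⁻¹ := by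
  have a := A.v J le_rfl
  have b0 := h.b0 J
  have c := h.inv_le J (i := 0) (j := 409) (by norm_num)
  have e := h.rh_le hk
  rw [zz_top] at a
  change |b / G.bb J - 1| ≤ _ at a
  rw [pow_zero, inv_one] at c
  have a1 : |s / G.bb J| ≤ 1000⁻¹ := by
    rw [abs_div, abs_of_pos b0, div_le_iff₀ b0]; linarith
  have a2 : |(b + s) / G.bb J - 1| ≤ 20⁻¹ := by
    rw [add_div, add_sub_right_comm]
    exact (abs_add_le _ _).trans (by linarith)
  refine ⟨?_, a2⟩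
  have := (le_div_iff₀ b0).1 (show 0 ≤ (b + s) / G.bb J by linarith [(abs_le.1 a2).1])
  simpa using this

include hp hB

theorem cx_nz (hk : k ≤ j) (hj : j ≤ J) {s : ℂ} (hs : s ∈ ball (0 : ℂ) (G.rh k)) :
    Nz1 (G.N j) (G.g j / G.Q j ^ 14) (G.fb b J j s) :=
  have r := h.rh_sq hB
  h.fc_nz14 (A.gd j hj) (h.cx_all A r j hj j hj le_rfl hk).1 (le_trans (mul_le_mul_of_nonneg_right
    ((h.cQ j (by norm_num)).trans (le_self_pow₀ (h.Q1 j) (by norm_num))) r.1.le) (r.2 j hk)) hs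

theorem lg_fb (hk : k ≤ j) (hj : j ≤ J) (hs : |s| < G.rh k) {ϑ : Lk → Ang}
    (a : Fw (G.N j) (G.fx j) ϑ) : lg1 (G.fb b J j · (ab ϑ)) s =
      (log (G.f (b + s) J j (ab ϑ)).re - log (G.f b J j (ab ϑ)).re : ℝ) := by
  have := lg1_real (fb_diff hj (ab ϑ)) (fun t ht => ((h.cx_run hp A hB hk hj ht).1 ϑ ϑ a a).1)
    (fun s hs => by
      rw [h.fb_real hj]
      exact ((h.f_facts J j).1 _ (h.bs0 A (hk.trans hj) hs).1).2.2 _) hs
  have e := h.fb_real (b := b) hj 0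
  rw [Complex.ofReal_zero, add_zero] at e
  rwa [h.fb_real hj, e] at this

/-- the runs with a real change of the bare coupling -/
theorem rl_run (hk : k ≤ J) (hs : |s| < G.rh k) : ∀ j ≤ J, k ≤ j →
    G.Gd (b + s) J j (G.zz (b + s) J j) ∧ |(G.zz (b + s) J j).v - 1| ≤ 20⁻¹ := by
  obtain ⟨b0, b1⟩ := h.bs0 A hk hs
  refine dw_ind (fun _ => ?_) fun j hj ih hk => ?_
  · rw [zz_top]
    exact ⟨h.gd_top (b1.trans (by norm_num)), b1⟩
  obtain ⟨d, v⟩ := ih (by omega)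
  have D := (h.gd_step b0 hj d v).1
  rw [← zz_step _ hj] at D
  refine ⟨D, ?_⟩
  have a1 := (h.meas b0 D).2
  have a2 := (h.meas A.b0 (A.gd j hj.le)).2
  have a3 := (h.cx_run hp A hB hk hj.le (s := s) (by simpa using hs)).2
  have a4 := A.v j hj.le
  rw [Bh, rc1, lf1, lf1, h.lg_fb hp A hB hk hj.le hs (fw_zero (h.tq0 j)), h.lg_fb hp A hB hk hj.le hs
    (fw_fl (h.N_odd j).pos.ne' (h.tq0 j)), ← Complex.ofReal_sub, ← Complex.ofReal_div,
    Complex.norm_real, norm_eq_abs, sub_sub_sub_comm, sub_div] at a3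
  change |bh _ (G.fx j) _ - bh _ (G.fx j) _| ≤ _ at a3
  have b0 := h.b0 j
  have c := h.inv_le j (i := 0) (j := 409) (by norm_num)
  have c' := h.inv_le j (i := 0) (j := 490) (by norm_num)
  rw [pow_zero, inv_one] at c c'
  have e := mul_le_mul_of_nonneg_left (a4.trans (show _ ≤ 1000⁻¹ by linarith)) b0.le
  refine le_of_mul_le_mul_left ?_ b0
  rw [← abs_of_pos b0, ← abs_mul, abs_of_pos b0, mul_sub] at e ⊢
  unfold fx at a3
  rw [abs_le] at *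
  have := h.Qbb j (i := 0) (by norm_num)
  have := h.rh_le hk
  constructor <;> linarith

theorem dl_cd (hj : j ≤ J) (hk : k ≤ j) {ϑ : Lk → Ang} (a : Fw (G.N j) (G.g j / G.Q j ^ 14) ϑ) :
    ContDiffAt ℂ 2 (lg1 (G.fb b J j · (ab ϑ))) 0 :=
  lg1_cd (h.rh0' k) (fb_diff hj _) fun _ ht => (h.cx_nz hp A hB hk hj ht ϑ ϑ a a).1

/-- the two constants theorem for the second derivatives -/
theorem d2_gen {j : Fin 2 → ℕ} (hj : ∀ s, k ≤ j s ∧ j s ≤ J) {ϑ ϑ' : Fin 2 → Lk → Ang}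
    (a1 : ∀ s, Fw (G.N (j s)) (G.g (j s) / G.Q (j s) ^ 14) (ϑ s))
    (a2 : ∀ s, Fw (G.N (j s)) (G.g (j s) / G.Q (j s) ^ 14) (ϑ' s))
    {c : Fin 2 → ℝ} (hc : ∀ s, |c s| * G.N (j s) ^ 4 ≤ G.Q k ^ (4 * a + 1) * G.bb (k + 1))
    {E η : ℝ} (η1 : (G.Q k ^ a)⁻¹ ≤ η) (ha : (5 * a + 2) * G.K ≤ G.Bk k)
    (hη : ∀ t : ℝ, |t| < G.rh k →
      |c 0 * (log (G.f (b + t) J (j 0) (ab (ϑ 0))).re - log (G.f (b + t) J (j 0) (ab (ϑ' 0))).re) -
        c 1 * (log (G.f (b + t) J (j 1) (ab (ϑ 1))).re -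
          log (G.f (b + t) J (j 1) (ab (ϑ' 1))).re) + E| ≤ η) :
    ‖c 0 * (dl (G.fb b J (j 0)) (ϑ 0) - dl (G.fb b J (j 0)) (ϑ' 0)) -
      c 1 * (dl (G.fb b J (j 1)) (ϑ 1) - dl (G.fb b J (j 1)) (ϑ' 1))‖ ≤
        G.Q k ^ 12001 * G.g k ^ 4 * η := by
  have q0 := h.Q0 k
  have b0 := h.b0 k
  have L1 := h.L1 k
  have η0 : 0 < η := (by positivity : 0 < (G.Q k ^ a)⁻¹).trans_le η1
  have n0 : ∀ s, (0 : ℝ) < G.N (j s) ^ 4 := fun s =>
    pow_pos (Nat.cast_pos.2 (h.N_odd _).pos) _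
  have w := fun s t (ht : t ∈ ball (0 : ℂ) (G.rh k)) =>
    h.cx_nz hp A hB (hj s).1 (hj s).2 ht
  have r : ∀ s (t : ℝ), |t| < G.rh k → Pos (G.fb b J (j s) t) := fun s t ht => by
    rw [h.fb_real (hj s).2]
    exact ((h.f_facts J _).1 _ (h.bs0 A ((hj s).1.trans (hj s).2) ht).1).2.2
  have B : 10 ^ 9 * (100 + G.c + G.K + 4 * G.Bk k + 1) ≤ G.l k := (h.sl_all k (G.top0 0 0)).nu.l_big
  have B1 := h.B1.trans (h.B_lo k)
  have := (two_lr (u := fun s t => G.fb b J (j s) t (ab (ϑ s)))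
    (v := fun s t => G.fb b J (j s) t (ab (ϑ' s))) (A := fun s => 4 * G.N (j s) ^ 4) (c := c) (E := E)
    (M := 30 * G.Bk k) (x := G.L k) (a := 5 * G.Bk k) (h.rh0' k) (fun s => mul_pos four_pos (n0 s))
    (fun s => fb_diff (hj s).2 _) (fun s => fb_diff (hj s).2 _)
    (fun s t ht => ⟨(w s t ht _ _ (a1 s) (a2 s)).1, (w s t ht _ _ (a2 s) (a1 s)).1,
      (w s t ht _ _ (a1 s) (a2 s)).2, (w s t ht _ _ (a2 s) (a1 s)).2⟩)
    (fun s t ht => ⟨r s t ht _, r s t ht _⟩) (fun t ht => by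
      simp only [h.fb_real (hj _).2]
      exact hη t ht) η0
    (by exact_mod_cast (by omega : 2 ≤ 30 * G.Bk k)) (by push_cast; linarith) (by linarith)
    ?_).2
  · rw [lr_d2 c (fun s => h.dl_cd hp A hB (hj s).2 (hj s).1 (a1 s))
      fun s => h.dl_cd hp A hB (hj s).2 (hj s).1 (a2 s)] at this
    refine this.trans ?_
    have e1 : (120 * G.Bk k : ℝ) ≤ G.L k := by
      exact_mod_cast (by unfold L LL; omega : 120 * G.Bk k ≤ G.L k)
    have e2 : 16 * (30 * G.Bk k : ℝ) ^ 2 * G.L k ≤ G.Q k := by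
      refine le_trans ?_ (h.LQ' k (i := 3) (by norm_num))
      rw [pow_succ _ 2, show 16 * (30 * G.Bk k : ℝ) ^ 2 = (120 * G.Bk k) ^ 2 by ring]
      gcongr
    rw [div_le_iff₀ (pow_pos (h.rh0' k) 2)]
    calc _ ≤ G.Q k * η := mul_le_mul_of_nonneg_right e2 η0.le
      _ = G.Q k * η * (G.bb k * G.g k ^ 2) ^ 2 := by rw [h.bg, one_pow, mul_one]
      _ = _ := by rw [rh]; field_simp
  · have e1 : G.bb (k + 1) ≤ (G.L k : ℝ) ^ (4 * G.Bk k) := h.sch.upp k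
    have e2 : G.Q k ^ (5 * a + 2) ≤ (G.L k : ℝ) ^ G.Bk k := by
      rw [Q, ← pow_mul]
      exact pow_le_pow_right₀ (by linarith) (by linarith)
    have e3 : 16 * G.Q k ^ (4 * a + 1) ≤ (G.L k : ℝ) ^ G.Bk k * (G.Q k ^ a)⁻¹ := by
      rw [← div_eq_mul_inv, le_div_iff₀ (pow_pos q0 _), mul_assoc, ← pow_add]
      linarith [h.qpw k (i := 4 * a + 1 + a) (j := 5 * a + 2) (by omega), pow_pos q0 (4 * a + 1 + a)]
    calc _ ≤ 16 * G.Q k ^ (4 * a + 1) * G.bb (k + 1) := by linarith [hc 0, hc 1]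
      _ ≤ (G.L k : ℝ) ^ G.Bk k * η * (G.L k : ℝ) ^ (4 * G.Bk k) :=
        mul_le_mul (e3.trans (by gcongr)) e1 (h.b0 _).le (by positivity)
      _ = _ := by ring

omit hp hB in
/-- the probes -/
theorem pr_b (ha : 100 ≤ a) (hB : 20 * a * G.K ≤ G.Bk i) (hi : i ≤ j) (hj : j ≤ J) (hk : j ≤ k + 1)
    (P1 : G.Q j ^ 14 ≤ P) (P2 : P ≤ G.Q j ^ a) : 0 < tq (G.N j) (G.g j / P) ∧
    Fw (G.N j) (G.g j / G.Q j ^ 14) (fl (G.N j) (G.g j / P)) ∧
      |((G.N j : ℝ) ^ 4 * tq (G.N j) (G.g j / P) ^ 2)⁻¹| * G.N j ^ 4 ≤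
        G.Q k ^ (4 * a) * G.bb (k + 1) := by
  have q0 := h.Q0 j
  have g0 := h.g0 j
  have P0 := (pow_pos q0 14).trans_le P1
  have t := (h.meas_a A.b0 (A.gd j hj) hB hi ha ((le_self_pow₀ (h.Q1 j) (by norm_num)).trans P1) P2).1
  have x0 : 0 < G.g j / P := by positivity
  have t0 := x0.trans_le t
  have n0 : (0 : ℝ) < G.N j := Nat.cast_pos.2 (h.N_odd _).pos
  refine ⟨t0, h.fw14 P1 (fw_fl (h.N_odd j).pos.ne' t0), ?_⟩
  rw [abs_of_pos (by positivity), mul_inv, mul_right_comm, inv_mul_cancel₀ (by positivity), one_mul]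
  refine (inv_anti₀ (by positivity) (pow_le_pow_left₀ x0.le t 2)).trans ?_
  calc _ = P ^ 2 * G.bb j := by
        rw [div_pow, inv_div, div_eq_iff (by positivity), mul_assoc, h.bg, mul_one]
    _ ≤ ((G.Q k ^ 2) ^ a) ^ 2 * G.bb (k + 1) := by
        gcongr
        exacts [(h.b0 j).le, P2.trans (pow_le_pow_left₀ q0.le ((h.Q_mono hk).trans (h.Q_sq1 k)) _),
          h.b_mono hk]
    _ = _ := by ring

end Gl.Ok

/-- the second derivative of the coupling which is measured by a fine probe -/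
def Gl.b2 (G : Gl) (b : ℝ) (J a j : ℕ) : ℂ := (((G.N j : ℝ) ^ 4 * tq (G.N j) (G.g j / G.Q j ^ a) ^ 2)⁻¹ : ℝ) *
  (dl (G.fb b J j) 0 - dl (G.fb b J j) (fl (G.N j) (G.g j / G.Q j ^ a)))

namespace Gl.Ok

variable {G : Gl} (h : G.Ok) {b η E P : ℝ} {J i j k a K' : ℕ} (hp : G.Pu) (A : G.Tu b J)
  (ha : 12010 ≤ a) (hB : 20 * a * G.K ≤ G.Bk k)
include h hp A ha hB

omit hp A in
theorem B4 (hk : k ≤ j) : 10 ^ 4 * G.K ≤ G.Bk j ∧ (5 * a + 2) * G.K ≤ G.Bk j ∧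
    20 * a * G.K ≤ G.Bk j :=
  have := hB.trans (h.B_mono hk)
  ⟨le_trans (Nat.mul_le_mul_right _ (by omega)) this,
    le_trans (Nat.mul_le_mul_right _ (by omega)) this, this⟩

/-- one step -/
theorem b2_step (hk : k ≤ j) (hj : j < J) (η1 : (G.Q j ^ a)⁻¹ ≤ η) (hη : ∀ s : ℝ, |s| < G.rh j →
    |(qc (G.sd j (G.zz (b + s) J (j + 1))).ol e1 e1).re + E| ≤ η / 2) :
    ‖G.b2 b J a j - G.b2 b J a (j + 1)‖ ≤ G.Q j ^ 12001 * G.g j ^ 4 * η := by
  obtain ⟨B1, B2, B3⟩ := h.B4 ha hB hk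
  have q0 := h.Q0 j
  have q1 := h.Q1 j
  have u := fun n => pow_le_pow_right₀ (h.Q1 n) (show 14 ≤ a by omega)
  have p0 := (h.pr_b A (k := j) (by omega) B3 le_rfl hj.le j.le_succ (u _) le_rfl).2
  have p1 := (h.pr_b A (k := j) (by omega) B3 j.le_succ hj le_rfl (u _) le_rfl).2
  have e : G.Q j ^ (4 * a) * G.bb (j + 1) ≤ G.Q j ^ (4 * a + 1) * G.bb (j + 1) :=
    mul_le_mul_of_nonneg_right (pow_le_pow_right₀ q1 (by omega)) (h.b0 _).le
  refine h.d2_gen hp A B1 (j := ![j, j + 1]) (ϑ := 0) (E := E)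
    (ϑ' := ![fl (G.N j) (G.g j / G.Q j ^ a), fl (G.N (j + 1)) (G.g (j + 1) / G.Q (j + 1) ^ a)])
    (c := ![((G.N j : ℝ) ^ 4 * tq (G.N j) (G.g j / G.Q j ^ a) ^ 2)⁻¹,
      ((G.N (j + 1) : ℝ) ^ 4 * tq (G.N (j + 1)) (G.g (j + 1) / G.Q (j + 1) ^ a) ^ 2)⁻¹])
    (Fin.forall_fin_two.2 ⟨⟨le_rfl, hj.le⟩, j.le_succ, hj⟩) (fun s => h.fw0 _)
    (Fin.forall_fin_two.2 ⟨p0.1, p1.1⟩) (Fin.forall_fin_two.2 ⟨p0.2.trans e, p1.2.trans e⟩) η1 B2
    fun t ht => ?_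
  have b0 := (h.bs0 A hj.le ht).1
  obtain ⟨d0, -⟩ := h.rl_run hp A B1 hj.le ht j hj.le le_rfl
  obtain ⟨d1, v1⟩ := h.rl_run hp A B1 hj.le ht (j + 1) hj j.le_succ
  have m0 := h.meas_b b0 d0 B3 le_rfl (by omega)
  have m1 := h.meas_b b0 d1 B3 j.le_succ (by omega)
  have m2 := h.v_step hj d1 v1
  have m3 := hη t ht
  rw [← zz_step _ hj] at m2
  have c1 : (G.Q (j + 1) ^ (a + 1))⁻¹ ≤ (G.Q j ^ (a + 1))⁻¹ :=
    inv_anti₀ (by positivity) (pow_le_pow_left₀ q0.le (h.Q_mono j.le_succ) _)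
  have c2 := h.inv_le j (i := a) (j := a + 1) (by omega)
  have c3 : G.Q j ^ 50 * √(G.g (j + 1)) ≤ (G.Q j ^ (a + 1))⁻¹ := by
    rw [inv_eq_one_div, le_div_iff₀' (by positivity), ← mul_assoc, ← pow_add]
    exact (mul_le_mul (pow_le_pow_right₀ q1 (by omega)) (sqrt_le_sqrt (h.g_succ j)) (sqrt_nonneg _)
      (by positivity)).trans (h.Qs (a := 5 * a) (by linarith) le_rfl)
  have c4 : G.g (j + 1) ^ 2 ≤ G.Q j ^ 50 * √(G.g (j + 1)) := by
    have g0 := h.g0 (j + 1)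
    have : G.g (j + 1) ≤ √(G.g (j + 1)) := le_sqrt_of_sq_le (by nlinarith [h.g1 (j + 1)])
    nlinarith [h.g1 (j + 1), mul_le_mul_of_nonneg_right (one_le_pow₀ (n := 50) q1)
      (sqrt_nonneg (G.g (j + 1)))]
  simp only [bh, div_eq_inv_mul (_ - _)] at m0 m1
  simp only [Matrix.cons_val_zero, Matrix.cons_val_one, Pi.zero_apply]
  have c5 := inv_pos.2 (pow_pos q0 a)
  rw [abs_le] at *
  constructor <;> linarith

omit h hp A ha hB in
theorem b2_top : G.b2 b J a J = 0 := by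
  have : ∀ ϑ, dl (G.fb b J J) ϑ = 0 := fun ϑ => by
    simp only [dl, fb_top]
    rw [show lg1 _ = _ from funext fun s => lg1_exp (s := s) _ (wil b (G.N J) (ab ϑ))
      (Complex.ofReal_ne_zero.2 (exp_pos _).ne')]
    simp [iteratedDeriv_succ]
  simp [b2, this]

/-- the sum over all levels -/
theorem b2_le {bn : ℕ → ℝ} (e : a = 12010 + i) (hk : k ≤ J) (hK : G.K + K' + 1 ≤ G.Bk k)
    (af : ∀ j, k ≤ j → ∀ t, Chn G.c G.Kt G.K0 (G.l j) (G.l j) ((G.L j : ℝ) ^ K')⁻¹ t →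
      ‖qc (t (G.l j)).ol e1 e1 + bn (G.l j)‖ ≤ (G.Q j ^ (a + 1))⁻¹) :
    ‖G.b2 b J a k‖ ≤ G.g k ^ 2 / G.Q k ^ (i + 1) := by
  have g0 := h.g0 k
  have q0 := h.Q0 k
  have gg : ∀ j, k ≤ j → G.g j ^ 2 ≤ G.g k ^ 2 := fun j hj =>
    pow_le_pow_left₀ (h.g0 j).le (antitone_nat_of_succ_le h.g_succ hj) 2
  have run := fun j (hj : k ≤ j) (jJ : j ≤ J) s => h.rl_run hp A (h.B4 ha hB hj).1 jJ (s := s)
  have st := fun j (hj : k ≤ j) (jJ : j ≤ J) s hs n (h1 : j ≤ n) (h2 : n < J) => h.gd_step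
    (h.bs0 A jJ hs).1 h2 (run j hj jJ s hs _ h2 (by omega)).1 (run j hj jJ s hs _ h2 (by omega)).2
  have := h.tail (k := k) (J := J) (i := i + 1)
    (f := fun j => dist (G.b2 b J a j) (G.b2 b J a (j + 1)) / G.g k ^ 2) (fun j hj => ?_)
    fun j hj c => ?_
  · rw [← sum_div, div_le_iff₀ (by positivity)] at this
    rw [← sub_zero (G.b2 b J a k), ← b2_top (G := G) (b := b) (J := J) (a := a), ← dist_eq_norm]
    refine ((dist_le_Ico_sum_dist _ hk).trans this).trans ?_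
    rw [div_mul_eq_mul_div]
    exact div_le_div_of_nonneg_right (mul_le_of_le_one_left (sq_nonneg _)
      ((div_le_one (by linarith [h.L1 k])).2 (by linarith [h.L1 k]))) (by positivity)
  all_goals
    obtain ⟨j1, j2⟩ := mem_Ico.1 hj
    have q := h.Q0 j
    have q1 := h.Q1 j
    rw [div_le_iff₀ (by positivity), dist_eq_norm]
  · refine (h.b2_step hp A ha hB j1 j2 (η := G.Q j ^ 2) (E := 0)
      ((inv_le_one_of_one_le₀ (one_le_pow₀ q1)).trans (one_le_pow₀ q1)) fun s hs => by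
        rw [add_zero]
        exact (st j j1 j2.le s hs j le_rfl j2).2.2.2.1.trans (by
          linarith [h.qpw j (i := 1) (j := 2) (by norm_num)])).trans ?_
    rw [div_mul_eq_mul_div, le_div_iff₀ (by positivity), one_mul]
    calc _ = G.Q j ^ (12005 + i) * G.g j ^ 2 * G.g j ^ 2 := by ring
      _ ≤ G.bb j * G.g j ^ 2 * G.g k ^ 2 := by
        gcongr ?_ * _ * ?_
        exacts [(h.bg j).ge.trans' zero_le_one,
          (pow_le_pow_right₀ q1 (by omega)).trans (h.QB hB j1), gg j j1]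
      _ = _ := by rw [h.bg, one_mul]
  · simp only [Bad, not_or, not_le, not_not] at c
    refine (h.b2_step hp A ha hB j1 j2 (E := bn (G.l j)) le_rfl fun s hs => by
      have := (Complex.abs_re_le_norm _).trans (h.af_a (b := b + s) c.2.1 c.2.2
        (fun n h1 h2 => (run j j1 j2.le s hs n h2 h1.le).1.tz)
        (fun n h1 h2 => (st j j1 j2.le s hs n h1 h2).2.2.1) (hK.trans (h.B_mono j1)) (af j j1))
      rw [Complex.add_re, Complex.ofReal_re] at this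
      linarith [h.inv_le j (i := a) (j := a + 1) (by omega), inv_pos.2 (pow_pos q (a + 1))]).trans ?_
    calc _ = G.g j ^ 2 / G.Q j ^ (i + 9) * G.g j ^ 2 := by rw [e]; field_simp; ring
      _ ≤ _ := mul_le_mul (div_le_div_of_nonneg_left (sq_nonneg _) (by positivity)
        (pow_le_pow_right₀ q1 (by omega))) (gg j j1) (sq_nonneg _) (by positivity)

/-- all fluxes -/
theorem d2_all (e : a = 12010 + i) (hk : k ≤ J) (H : ‖G.b2 b J a k‖ ≤ G.g k ^ 2 / G.Q k ^ (i + 1))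
    (P1 : G.Q k ^ 14 ≤ P) (P2 : P ≤ G.Q k ^ 250) {ϑ : Lk → Ang}
    (c : Fw (G.N k) (G.g k / P) ϑ) : ‖dl (G.fb b J k) ϑ - dl (G.fb b J k) 0‖ ≤
      G.g k ^ 2 / G.Q k ^ i * (tq (G.N k) (G.g k / P) ^ 2 * G.N k ^ 4) := by
  obtain ⟨B1, B2, B3⟩ := h.B4 ha hB le_rfl
  obtain ⟨F, c1, c2, c3⟩ := id c
  have q0 := h.Q0 k
  have q1 := h.Q1 k
  have g0 := h.g0 k
  have b1 := h.b0 (k + 1)
  have n0 : (0 : ℝ) < G.N k := Nat.cast_pos.2 (h.N_odd _).pos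
  have P3 := P2.trans (pow_le_pow_right₀ q1 (show 250 ≤ a by omega))
  obtain ⟨t0, -, p0⟩ := h.pr_b A (k := k) (by omega) B3 le_rfl hk k.le_succ P1 P3
  have p1 := (h.pr_b A (k := k) (by omega) B3 le_rfl hk k.le_succ
    (pow_le_pow_right₀ q1 (by omega)) le_rfl).2
  obtain ⟨κ, hκ⟩ : ∃ κ, κ = m0 (pt F) (pt F) / tq (G.N k) (G.g k / P) ^ 2 := ⟨_, rfl⟩
  have κ1 : |κ| ≤ 32 := by
    have c1 := (cv_pt c1 0).mono le_rfl c2
    rw [hκ, abs_div, abs_of_pos (pow_pos t0 2), div_le_iff₀ (pow_pos t0 2)]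
    exact (m0_le c1 c1).trans_eq (by ring)
  have cq := h.cQ k (C := 1000) (by norm_num)
  have := h.d2_gen hp A B1 (j := fun _ => k) (ϑ := ![ϑ, fl (G.N k) (G.g k / G.Q k ^ a)]) (E := 0)
    (ϑ' := 0) (η := G.Q k) (c := ![((G.N k : ℝ) ^ 4 * tq (G.N k) (G.g k / P) ^ 2)⁻¹,
      κ * ((G.N k : ℝ) ^ 4 * tq (G.N k) (G.g k / G.Q k ^ a) ^ 2)⁻¹])
    (fun _ => ⟨le_rfl, hk⟩) (Fin.forall_fin_two.2 ⟨h.fw14 P1 c, p1.1⟩) (fun s => h.fw0 _)
    (Fin.forall_fin_two.2 ⟨p0.trans (mul_le_mul_of_nonneg_right (pow_le_pow_right₀ q1 (by omega))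
      b1.le), by
      simp only [Matrix.cons_val_one, Matrix.cons_val_zero]
      rw [abs_mul κ, mul_assoc, pow_succ' _ (4 * a), mul_assoc (G.Q k)]
      exact mul_le_mul (by linarith) p1.2 (by positivity) q0.le⟩)
    ((inv_le_one_of_one_le₀ (one_le_pow₀ q1)).trans q1) B2 fun t ht => ?_
  · simp only [Matrix.cons_val_zero, Matrix.cons_val_one, Pi.zero_apply] at this
    have e1 := mul_le_mul κ1 H (norm_nonneg _) (by norm_num)
    rw [← norm_eq_abs, ← Complex.norm_real, ← norm_mul] at e1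
    have e2 := norm_sub_le_of_le this e1
    rw [show ∀ x y : ℂ, x - y - κ * G.b2 b J a k = x - (y + κ * G.b2 b J a k) from fun _ _ => by ring,
      show _ + κ * G.b2 b J a k = 0 by rw [b2]; push_cast; ring, sub_zero, norm_mul,
      Complex.norm_real, norm_of_nonneg (by positivity), inv_mul_le_iff₀' (by positivity),
      mul_comm ((G.N k : ℝ) ^ 4)] at e2
    refine e2.trans (mul_le_mul_of_nonneg_right ?_ (by positivity))
    have e3 : G.Q k ^ 12001 * G.g k ^ 4 * G.Q k ≤ G.g k ^ 2 / G.Q k ^ (i + 1) := by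
      rw [le_div_iff₀ (by positivity)]
      calc _ = G.Q k ^ (12003 + i) * G.g k ^ 2 * G.g k ^ 2 := by ring
        _ ≤ G.bb k * G.g k ^ 2 * G.g k ^ 2 := by
          gcongr
          exact (pow_le_pow_right₀ q1 (by omega)).trans (h.QB hB le_rfl)
        _ = _ := by rw [h.bg, one_mul]
    have e4 := mul_le_mul_of_nonneg_left (h.inv_le k (i := i) (j := i + 1) (by omega))
      (sq_nonneg (G.g k))
    have e5 : 0 ≤ G.g k ^ 2 * (G.Q k ^ (i + 1))⁻¹ := by positivity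
    simp only [div_eq_mul_inv] at e3 ⊢
    linarith
  · have b0 := (h.bs0 A hk ht).1
    obtain ⟨d0, -⟩ := h.rl_run hp A B1 hk ht k hk le_rfl
    have m0 := h.meas_b b0 d0 B3 le_rfl (by omega)
    have m1 := (h.meas_a b0 d0 B3 le_rfl (by omega) ((le_self_pow₀ q1 (by norm_num)).trans P1)
      P3).2.2 F ϑ c1 c2 c3
    have m2 := mul_le_mul κ1 (m0.trans (mul_le_of_le_one_right (by norm_num)
      (inv_le_one_of_one_le₀ (one_le_pow₀ q1)))) (abs_nonneg _) (by norm_num)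
    have m3 := mul_le_mul_of_nonneg_left m1
      (show 0 ≤ ((G.N k : ℝ) ^ 4 * tq (G.N k) (G.g k / P) ^ 2)⁻¹ by positivity)
    change _ * |_| ≤ _ * (20 * tq _ (G.g k / P) ^ 2 * _) at m3
    rw [show ((G.N k : ℝ) ^ 4 * tq (G.N k) (G.g k / P) ^ 2)⁻¹ * (20 * tq (G.N k) (G.g k / P) ^ 2 *
      G.N k ^ 4) = 20 by field_simp, ← abs_of_nonneg (show 0 ≤ ((G.N k : ℝ) ^ 4 * tq (G.N k) (G.g k / P) ^ 2)⁻¹ by positivity),
      ← abs_mul] at m3
    rw [← abs_mul, bh] at m2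
    simp only [Matrix.cons_val_zero, Matrix.cons_val_one, Pi.zero_apply]
    refine (le_of_eq_of_le (congrArg _ ?_) ((abs_add_le _ _).trans (add_le_add m3 m2))).trans
      (by linarith)
    rw [hκ]
    field_simp
    ring

end Gl.Ok

/-- the second variation of the logarithm of the density is almost constant on flux fields -/
theorem d2_small {G : Gl} (h : G.Oks) (a : AfU G.c G.Kt G.K0) (N : ℕ) : ∀ᶠ k in atTop, ∀ m b J,
    (G.wm m).Tu b J → k ≤ J → ∀ P, G.Q k ^ 14 ≤ P → P ≤ G.Q k ^ 250 →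
      ∀ ϑ, Fw ((G.wm m).N k) (G.g k / P) ϑ →
      ‖iteratedDeriv 2 (fun s => lf1 ((G.wm m).fb b J k) s (ab ϑ) -
        lf1 ((G.wm m).fb b J k) s (ab 0)) 0‖ ≤
        G.g k ^ 2 / G.Q k ^ N * (tq ((G.wm m).N k) (G.g k / P) ^ 2 * (G.wm m).N k ^ 4) := by
  obtain ⟨K', l0, bn, af⟩ := a (G.K * (12010 + N + 1))
  have s := (h 0).1.sch
  filter_upwards [s.Btop.eventually_ge_atTop (20 * (12010 + N) * G.K),
    s.Btop.eventually_ge_atTop (G.K + K' + 1), eventually_forall_ge_atTop.2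
      ((s.top.eventually_ge_atTop l0).and (s.top.eventually (log_pow_le 2)))]
    with k h1 h2 h3 m b J A hk P P1 P2 ϑ c
  obtain ⟨o, p⟩ := h m
  have B := (o.B4 (k := k) (Nat.le_add_right _ N) h1 le_rfl).1
  have := o.d2_all p A (Nat.le_add_right _ N) h1 rfl hk (o.b2_le p A (Nat.le_add_right _ N) h1
    (bn := bn) rfl hk h2 fun j hj t ht => (af _ (h3 j hj).1 _ (h3 j hj).2 t ht e1 dd_e1).trans_eq
      (congrArg _ (pow_mul _ _ _))) P1 P2 c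
  rwa [dl, dl, ← iteratedDeriv_sub (o.dl_cd p A B hk le_rfl (o.fw14 P1 c))
    (o.dl_cd p A B hk le_rfl (o.fw0 k))] at this

end Pool.Agent.Lib.MP_7f377f_mp.RG.Q4.En
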