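import Pool.Agent.Lib.MP_7f377f_mp.G.S23D
import Pool.Agent.Lib.MP_7f377f_mp.G.S23T6
import Pool.Agent.Lib.MP_7f377f_mp.G.S23F3a

/-! The second jet of the family of two constant sources. -/

noncomputable section

open Pool.Agent.Lib.MP_7f377f_mp.Jet

set_option linter.unusedSectionVars false
variable [Pool.Agent.Lib.MP_7f377f_mp.GD]

namespace Pool.Agent.Lib.MP_7f377f_mp.RG.Q4.En

open Finset Real Metric Sg Pos Filter Function

variable {ι : Type} [DecidableEq ι] {A : Finset ι} {x y : ι} {r r0 : ι → ℝ}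

theorem jd_pair {M : ℝ} {g : (ι → ℂ) → ℂ} (h : SH r M g) (e : x ≠ y) : jd {x, y} g =
    deriv (fun t => deriv (fun u => g (update (Pi.single x t) y u)) 0) 0 := by
  rw [pair_comm, h.jd_insert (by simpa using e.symm), jd_single]
  rfl

theorem ma_pair {V : Type} [AddCommMonoid V] [Module ℂ V] (a : Finset ι → V) (hx : x ∈ A)
    (hy : y ∈ A) (e : x ≠ y) (t u : ℂ) : ma A a (update (Pi.single x t) y u) =
      a ∅ + t • a {x} + u • (a {y} + t • a {x, y}) := by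
  have := mem_erase.2 ⟨e, hx⟩
  rw [ma_line hy, ma_single this, ma_single this, pair_comm x]
  rfl

/-- the jets of a family of densities -/
def jf (T : Finset ι) (f : (ι → ℂ) → Conf → ℂ) (U : Conf) : ℂ := jd T (f · U)

/-- the mixed second variation of the logarithm -/
def l2 (f : (Fin 2 → ℂ) → Conf → ℂ) : Conf → ℝ := lg2 (f 0) (jf {0} f) (jf {1} f) (jf univ f)

/-- the second variation of the logarithm is almost constant on flux fields -/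
def Fl2 (n : ℕ) (x D : ℝ) (f : (Fin 2 → ℂ) → Conf → ℂ) : Prop := f 0 (ab 0) ≠ 0 ∧
  ∀ ϑ, Fw n x ϑ → |l2 f (ab ϑ) - l2 f (ab 0)| ≤ D * (tq n x ^ 2 * n ^ 4)

theorem Fl2.asy {n : ℕ} {x D : ℝ} {f : (Fin 2 → ℂ) → Conf → ℂ} (m : Fl2 n x D f) :
    Asy n x (2 * D) (l2 f) :=
  have w := fun {ϑ ϑ'} u v => (abs_sub_le _ _ _).trans
    (add_le_add (m.2 ϑ u) ((abs_sub_comm _ _).trans_le (m.2 ϑ' v)))
  fun _ u => ⟨fun e => (w (u.pm e) u).trans_eq (by ring), fun j => (w (u.rf j) u).trans_eq (by ring)⟩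

theorem Fl2.gm {n : ℕ} {x D : ℝ} {f : (Fin 2 → ℂ) → Conf → ℂ} (m : Fl2 n x D f) (n0 : n ≠ 0)
    (t0 : 0 < tq n x) : |gm2 n x (f 0) (jf {0} f) (jf {1} f) (jf univ f)| ≤ D := by
  rw [gm2, abs_div, abs_of_pos (a := _ * _) (by positivity), div_le_iff₀ (by positivity),
    abs_sub_comm, mul_comm (_ ^ 4)]
  exact m.2 _ (fw_fl n0 t0)

theorem d2_lg1 {R : ℂ → ℂ} {σ : ℝ} (σ0 : 0 < σ) (hd : DifferentiableOn ℂ R (ball 0 σ))
    (h0 : R 0 ≠ 0) : ContDiffAt ℂ 2 (lg1 R) 0 ∧ iteratedDeriv 2 (lg1 R) 0 =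
      deriv (deriv R) 0 / R 0 - deriv R 0 / R 0 * (deriv R 0 / R 0) := by
  have o := ball_mem_nhds (0 : ℂ) σ0
  obtain ⟨ρ, ρ0, n⟩ := Metric.eventually_nhds_iff_ball.1
    (((hd.continuousOn.continuousAt o).eventually_ne h0).and o)
  have hd' := hd.mono fun t ht => (n t ht).2
  obtain ⟨a, c⟩ := lg1_spec hd' fun t ht => (n t ht).1
  have o' := ball_mem_nhds (0 : ℂ) ρ0
  have e : ∀ t ∈ ball (0 : ℂ) ρ, deriv (lg1 R) t = deriv R t / R t := fun t ht => by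
    have m := isOpen_ball.mem_nhds ht
    rw [eq_div_iff (n t ht).1, ((((a.differentiableAt m).hasDerivAt.cexp.const_mul
      (R 0)).congr_of_eventuallyEq (mem_of_superset m c)).deriv), c t ht]
    ring
  refine ⟨(a.analyticAt o').contDiffAt, ?_⟩
  rw [iteratedDeriv_succ, iteratedDeriv_one, EventuallyEq.deriv_eq (mem_of_superset o' e),
    deriv_fun_div ((hd'.deriv isOpen_ball).differentiableAt o') (hd'.differentiableAt o') h0]
  field_simp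

namespace Gl

variable (G : Gl)

/-- base points -/
def Bw2 (k : ℕ) (H : Lx × Ac) : Prop := G.Sz k (G.bb k / G.Q k ^ 300) (G.bb k / G.Q k ^ 300)
  (G.Q k ^ 100)⁻¹ H.1 H.2 ∧ Re (G.p k) (G.N k) H.1 H.2

/-- first jets -/
def Uw2 (k : ℕ) (u : Lx × Ac) : Prop :=
  G.Sz k 1000 1000 (G.Q k ^ 100)⁻¹ u.1 u.2 ∧ Re (G.p k) (G.N k) u.1 u.2

/-- a family of two coinciding sources -/
structure W2 (k : ℕ) (z : Z) (σ : ℝ) (Y : Fy (Fin 2)) (f : (Fin 2 → ℂ) → Conf → ℂ) : Prop where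
  fd : G.Fd k z univ (fun _ => σ) (fun _ => σ) (G.Q k ^ 329)⁻¹ Y f
  pu : ∀ s ∈ Pd fun _ => σ, PU (G.p k) (G.Q k ^ 212)⁻¹ (Y.ψ s)
  bs : G.Bw2 k Y.bs
  jt : ∀ x, G.Uw2 k (Y.jt {x})
  sz : G.Sz k (G.Q k ^ 220 * G.g k ^ 2) (G.Q k ^ 220 * G.g k ^ 2) (G.Q k ^ 100)⁻¹
    (Y.jt univ).1 (Y.jt univ).2
  re : Re (G.p k) (G.N k) (Y.jt univ).1 (Y.jt univ).2

/-- the family of two constant sources at the levels from `j` on -/
def W1 (b : ℝ) (J j : ℕ) : Prop := ∀ W : Fin 2 → Finset St, (∀ x, W x = box (G.N J / 2)) →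
  ∀ k, j ≤ k → k ≤ J → G.W2 k (G.zz b J k) (G.sg j) (G.fm univ (fun _ => 1) W b J k)
    (G.fr univ (fun _ => 1) b J k) ∧ ∀ x, (G.fm univ (fun _ => 1) W b J k).jt {x} = G.tu b J k

/-- the same for all small radii -/
def W1f (b : ℝ) (J j : ℕ) : Prop := ∀ σ, 0 < σ → (∀ k, j ≤ k → k ≤ J → G.Q k ^ 225 * σ ≤ G.bb k) →
  ∀ W : Fin 2 → Finset St, (∀ x, W x = box (G.N J / 2)) → ∀ k, j ≤ k → k ≤ J →
    G.W2 k (G.zz b J k) σ (G.fm univ (fun _ => 1) W b J k) (G.fr univ (fun _ => 1) b J k) ∧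
      ∀ x, (G.fm univ (fun _ => 1) W b J k).jt {x} = G.tu b J k

variable {G} {b σ θ β D P : ℝ} {J i j k : ℕ} {z : Z} {Y : Fy ι} {f : (ι → ℂ) → Conf → ℂ}
  {W : ι → Finset St}

theorem fr_fb (s : Fin 2 → ℂ) : G.fr univ (fun _ => 1) b J k s = G.fb b J k (s 0 + s 1) := by
  simp only [fr, fb, sF, Fin.sum_univ_two, add_smul]

namespace Ok

variable (h : G.Ok)
include h

/-- the jets of the family represent the jets of the densities -/
theorem rt2_of_fd (e : G.Fd k z A r0 r θ Y f) (hx : x ∈ A) (hy : y ∈ A) (u : x ≠ y) :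
    Rt2 (G.sl k z) Y.bs (Y.jt {x}) (Y.jt {y}) (Y.jt {x, y}) (f 0) (jf {x} f) (jf {y} f)
      (jf {x, y} f) := by
  have w := e.eq
  rw [← h.sl_nf k z] at w
  obtain ⟨M, hM⟩ := w.snd.1
  refine ⟨Complex.exp (Y.E 0), jd {x} Y.E, jd {y} Y.E, jd {x, y} Y.E - jd {x} Y.E * jd {y} Y.E,
    fun U hU => ?_⟩
  have q := w.eq U hU
  have q0 : f 0 U = Complex.exp (Y.E 0) * Rep (G.sl k z).p _ ((G.sl k z).Φ Y.bs.1) Y.bs.2 U :=
    (jd_empty (f · U)).symm.trans ((q ∅ (empty_subset _)).trans (jd_empty _))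
  have q1 : ∀ i ∈ A, jf {i} f U = Complex.exp (Y.E 0) * dR (G.sl k z) Y.bs (Y.jt {i}) U +
      jd {i} Y.E * f 0 U := fun i hi => by
    have E := fun t => (congrFun e.ma _).trans (ma_single (t := t) hi)
    rw [jf, q _ (singleton_subset_iff.2 hi), jd_single, q0]
    simp only [E, e.fi.single hi, e.fi.ml.single hi, jd_empty, smul_eq_mul]
    refine ((der_line _ _).cexp.fun_mul (rep_deriv (S := G.sl k z) rfl
      (cu_line Y.bs (Y.jt {i})) U)).deriv.trans ?_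
    simp only [zero_smul, add_zero, zero_mul]
    ring
  refine ⟨q0, q1 x hx, q1 y hy, ?_⟩
  have E := fun t s => (congrFun e.ma _).trans (ma_pair _ hx hy u t s)
  have E1 := fun t s => (congrFun e.fi.psi _).trans (ma_pair _ hx hy u t s)
  have E2 := fun t s => (congrFun e.fi.act _).trans (ma_pair _ hx hy u t s)
  have d := fun t : ℂ => ((der_line (Y.E 0 + t * jd {x} Y.E) (jd {y} Y.E + t * jd {x, y} Y.E)).cexp.fun_mul
    (rep_deriv (S := G.sl k z) rfl (cu_line (Y.bs + t • Y.jt {x})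
      (Y.jt {y} + t • Y.jt {x, y})) U)).deriv
  simp only [zero_smul, add_zero, zero_mul] at d
  rw [q1 x hx, q1 y hy, jf, q _ (insert_subset hx (singleton_subset_iff.2 hy)), jd_pair (hM U) u, q0]
  simp only [E, E1, E2, jd_empty, smul_eq_mul, jL_empty, jA_empty]
  refine ((congrArg (deriv · 0) (funext d)).trans ((((der_line _ _).cexp.fun_mul
    (der_line _ _)).fun_mul (rep_deriv (S := G.sl k z) rfl (cu_line Y.bs (Y.jt {x})) U)).fun_add
    ((der_line _ _).cexp.fun_mul (dR_deriv (cu_line _ _) (cu_line _ _) U))).deriv).trans ?_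
  simp only [zero_smul, add_zero, zero_mul]
  ring

/-- the recursion of second jets -/
theorem fs_jt2 (t : G.Tz J (k + 1) z) (e : Fi (G.p (k + 1)) (G.N (k + 1)) A W r θ Y.ψ Y.K)
    (pu : ∀ s ∈ Pd r, PU (G.p (k + 1)) β (Y.ψ s)) (hb : G.Q k ^ 100 * β < 1)
    (hθ : G.Q k ^ 100 * θ < 1) (hx : x ∈ A) (hy : y ∈ A) (u : x ≠ y) :
    (G.fs A k z Y).jt {x, y} = G.ts2 k z Y.bs (Y.jt {x}) (Y.jt {y}) (Y.jt {x, y}) := by
  have nu := (h.sd_all k z).nu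
  have st := h.st2 t
  have F := h.fi_sd e z
  have sx := singleton_subset_iff.2 hx
  have sy := singleton_subset_iff.2 hy
  have s2 := insert_subset hx sy
  refine Prod.ext ((F.jL_step nu st _ s2).trans (by
    rw [if_neg (insert_ne_empty _ _), add_zero]; rfl)) ((jA_trK s2).trans ?_)
  obtain ⟨_, -, a⟩ := F.fa_up st pu hb.le hθ.le
  obtain ⟨_, sm⟩ := F.sml pu hb.le hθ.le
  have E1 := fun t s => (congrFun e.psi _).trans (ma_pair _ hx hy u t s)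
  have E2 := fun t s => (congrFun e.act _).trans (ma_pair _ hx hy u t s)
  ext X c U
  rw [jA, jd_pair (a.sh X c U) u]
  simp only [E1, E2, jL_empty, jA_empty]
  exact ((cu_step2 (b := Y.bs) (r := Y.jt {x}) (s := Y.jt {y}) (d := Y.jt {x, y}) nu st
    ⟨_, _, _, sm 0 (zero_mem F.pos), hb, hθ⟩ (F.dir sx) (F.dir sy) (F.dir s2)).2 X c U).deriv

theorem l2_fr (b0 : 0 ≤ b) (hk : k ≤ J) (U : Conf) :
    ContDiffAt ℂ 2 (lf1 (G.fb b J k) · U) 0 ∧ l2 (G.fr univ (fun _ => 1) b J k) U =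
      (iteratedDeriv 2 (lf1 (G.fb b J k) · U) 0).re := by
  have H := (fb_h1 (G := G) (b := b) hk one_pos).1
  have d := fb_diff (G := G) (b := b) (r := 1) hk U
  have e := h.fb_real (b := b) hk 0
  rw [Complex.ofReal_zero, add_zero] at e
  obtain ⟨a, c⟩ := d2_lg1 one_pos d (fun u => (((h.f_facts J k).1 b b0).2.2 U).2.ne'
    (congrArg Complex.re (e ▸ u)))
  refine ⟨a, .trans ?_ (congrArg _ c.symm)⟩
  obtain ⟨M, hM⟩ := H
  have s : SH (fun _ : Fin 2 => 1 / 2) M fun s => G.fb b J k (s 0 + s 1) U := by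
    have m : ∀ s ∈ Pd fun _ : Fin 2 => (1 / 2 : ℝ), ‖s 0 + s 1‖ < 1 := fun s hs =>
      (norm_add_le _ _).trans_lt (by linarith [hs 0, hs 1])
    exact ⟨fun _ => by norm_num, fun s hs i => d.comp (f := fun t => update s i t 0 + update s i t 1)
      ((upd_diff s 0 i).add (upd_diff s 1 i)).differentiableOn
      fun t ht => mem_ball_zero_iff.2 (m _ (Pd.upd hs ht)),
      fun s hs => (hM U).bd (fun _ => s 0 + s 1) fun _ => m s hs⟩
  simp only [l2, lg2, jf, fr_fb, jd_single]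
  rw [show (univ : Finset (Fin 2)) = {0, 1} from rfl, jd_pair s zero_ne_one]
  simp [deriv_comp_const_add (G.fb b J k · U)]

theorem fl2_fr {n : ℕ} {x : ℝ} (b0 : 0 ≤ b) (hk : k ≤ J) (e : ∀ ϑ, Fw n x ϑ → ‖iteratedDeriv 2
    (fun s => lf1 (G.fb b J k) s (ab ϑ) - lf1 (G.fb b J k) s (ab 0)) 0‖ ≤
      D * (tq n x ^ 2 * n ^ 4)) : Fl2 n x D (G.fr univ (fun _ => 1) b J k) := by
  refine ⟨fun u => (((h.f_facts J k).1 b b0).2.2 _).2.ne' (congrArg Complex.re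
    (h.fr_zero k hk ▸ u)), fun ϑ a => le_trans ?_ (e ϑ a)⟩
  obtain ⟨a1, a2⟩ := h.l2_fr b0 hk (ab ϑ)
  obtain ⟨b1, b2⟩ := h.l2_fr b0 hk (ab 0)
  rw [a2, b2, ← Complex.sub_re, ← iteratedDeriv_sub a1 b1]
  exact Complex.abs_re_le_norm _

variable {Y : Fy (Fin 2)} {f : (Fin 2 → ℂ) → Conf → ℂ}

theorem w2_pu (F : Fi (G.p k) (G.N k) univ Y.Z (fun _ => σ) θ Y.ψ Y.K) (a : G.Bw2 k Y.bs)
    (c : ∀ x, G.Uw2 k (Y.jt {x})) (e : G.Sz k (G.Q k ^ 220 * G.g k ^ 2) (G.Q k ^ 220 * G.g k ^ 2)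
      (G.Q k ^ 100)⁻¹ (Y.jt univ).1 (Y.jt univ).2) (hσ : G.Q k ^ 225 * σ ≤ G.bb k) :
    Sf (G.p k) (G.N k) (G.Q k) (G.g k) (fun _ => σ) (G.bb k / G.Q k ^ 223) (G.bb k / G.Q k ^ 223)
      (G.Q k ^ 100)⁻¹ Y.ψ Y.K ∧ ∀ s ∈ Pd fun _ => σ, PU (G.p k) (G.Q k ^ 212)⁻¹ (Y.ψ s) := by
  have q := h.Q0 k
  have σ0 := F.pos 0
  have b0 := h.b0 k
  have ω0 := (inv_pos.2 (pow_pos q 100)).le
  have s := (sf_of (A := univ) (a := Y.jt) (x := fun _ => G.bb k / G.Q k ^ 224)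
    (y := fun _ => G.bb k / G.Q k ^ 224) (h.ρ0 k) F.pos fun T _ => by
      suffices ∃ v, v * σ ^ T.card * G.Q k ^ 224 ≤ G.bb k ∧
          G.Sz k v v (G.Q k ^ 100)⁻¹ (Y.jt T).1 (Y.jt T).2 by
        obtain ⟨v, v1, v2⟩ := this
        rw [← le_div_iff₀ (by positivity), ← le_div_iff₀ (by positivity)] at v1
        rw [prod_const]
        exact h.sz_up v2 ω0 v1 v1
      rcases Nat.lt_trichotomy T.card 1 with u | u | u
      · obtain rfl := card_eq_zero.1 (Nat.lt_one_iff.1 u)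
        refine ⟨_, ?_, by simp only [Fy.jt, jL_empty, jA_empty]; exact a.1⟩
        rw [card_empty, pow_zero, mul_one, div_mul_eq_mul_div, div_le_iff₀ (by positivity)]
        gcongr
        exacts [h.Q1 k, by norm_num]
      · obtain ⟨v, rfl⟩ := card_eq_one.1 u
        refine ⟨_, ?_, (c v).1⟩
        rw [u, pow_one]
        linarith [mul_le_mul_of_nonneg_right (h.qpw k (show 224 < 225 by norm_num)) σ0.le]
      · obtain rfl := eq_univ_of_card T (le_antisymm (card_le_univ T) u)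
        refine ⟨_, ?_, e⟩
        calc _ = G.Q k ^ 444 * σ ^ 2 * G.g k ^ 2 := by simp; ring
          _ ≤ (G.Q k ^ 225 * σ) ^ 2 * G.g k ^ 2 := by
            rw [mul_pow, ← pow_mul]; gcongr; exacts [h.Q1 k, by norm_num]
          _ ≤ G.bb k ^ 2 * G.g k ^ 2 := by gcongr
          _ = _ := by rw [sq (G.bb k), mul_assoc, h.bg, mul_one]).mono (h.ρ0 k) ω0
    (x' := G.bb k / G.Q k ^ 223) (y' := G.bb k / G.Q k ^ 223) ?_ ?_
  on_goal 1 =>
    rw [show (ma univ fun T => (Y.jt T).1) = Y.ψ from F.psi.symm,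
      show (ma univ fun T => (Y.jt T).2) = Y.K from F.act.symm] at s
    exact ⟨s, fun v hv => pu_mono (h.sz_pu (s.sz hv) (h.om_one le_rfl))
      (h.pu_num (by positivity) (mul_div_cancel₀ _ (by positivity)).le)⟩
  all_goals
    rw [sum_const, card_powerset, nsmul_eq_mul, ← mul_div_assoc, div_le_div_iff₀ (by positivity)
      (by positivity)]
    simp
    nlinarith [mul_le_mul_of_nonneg_left (h.qpw k (show 223 < 224 by norm_num)) b0.le,
      mul_pos b0 (pow_pos q 223)]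

/-- one step in an arbitrary frame -/
theorem w2_step (hp : G.Pu) (t : G.Ad J k z) (t' : G.Tz J k (G.nx k z)) (e : G.W2 (k + 1) z σ Y f)
    (hσ : G.Q k ^ 225 * σ ≤ G.bb k) (a : G.Bw2 k (G.hs k z Y.bs))
    (c : ∀ x, G.Uw2 k (G.ts k z Y.bs (Y.jt {x})))
    (m : Fl2 (G.N k) (G.g k / G.Q k ^ 14) (G.Q k ^ 200 * G.g k ^ 2)
      fun s => TT (G.l k) (G.a k) (G.N k) (f s)) :
    G.W2 k (G.nx k z) σ (G.fs univ k z Y) fun s => TT (G.l k) (G.a k) (G.N k) (f s) := by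
  have nu := (h.sd_all k z).nu
  have q := h.Q0 k
  have q1 := h.Q0 (k + 1)
  have g0 := h.g0 k
  have g1 := h.g0 (k + 1)
  have gg := h.g_succ k
  have c0 := h.cr0 k
  have i := fun n => h.om_succ k n
  have i0 := fun n => inv_pos.2 (pow_pos q n)
  have lt : ∀ n, 100 < n → G.Q k ^ 100 * (G.Q (k + 1) ^ n)⁻¹ < 1 := fun n hn => by
    have := h.om_one (((mul_le_mul_of_nonneg_left (i n) (by norm_num)).trans (h.inv_le k hn)))
    nlinarith [mul_pos (pow_pos q 100) (inv_pos.2 (pow_pos q1 n))]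
  have fd := h.fam1' (c := 2) (cl := fun _ => ()) t e.fd (fun _ => le_rfl) (fun s hs => pu_mono
    (e.pu s hs) (by linarith [i 212, h.om_mono k (show 210 ≤ 212 by norm_num), i0 210]))
    (fun _ _ _ _ u => (u rfl).elim) (fun _ => (card_le_univ _).trans_eq (by simp))
    (h.cQ k (by norm_num))
  have j1 := fun x => h.fs_jt t.tz e.fd.fi (mem_univ x)
  have j2 : (G.fs univ k z Y).jt univ = G.ts2 k z _ _ _ (Y.jt univ) := h.fs_jt2 t.tz e.fd.fi e.pu (lt _ (by norm_num))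
    (lt _ (by norm_num)) (mem_univ 0) (mem_univ 1) zero_ne_one
  have R := h.rt2_of_fd e.fd (mem_univ 0) (mem_univ 1) zero_ne_one
  have R' : Rt2 _ _ _ _ (Fy.jt _ univ) _ _ _ (jf univ _) :=
    h.rt2_of_fd fd (mem_univ 0) (mem_univ 1) zero_ne_one
  have h3 : G.Q k ^ 115 * (G.bb (k + 1) / G.Q (k + 1) ^ 300) * G.g (k + 1) ^ 2 ≤
      (G.Q (k + 1) ^ 100)⁻¹ := by
    rw [mul_assoc, div_mul_eq_mul_div, h.bg, one_div,
      ← h.pw_inv (k + 1) (i := 200) (j := 100) (l := 300) rfl]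
    gcongr
    exact (pow_le_pow_left₀ q.le (h.Q_mono k.le_succ) _).trans
      (pow_le_pow_right₀ (h.Q1 _) (by norm_num))
  obtain ⟨⟨s1, s2, -⟩, -⟩ := h.tn2_step (τ := G.Q k ^ 214 * G.g k ^ 2) hp t.tz e.bs.2
    (tg_of_sz nu (h.st2 t.tz) (h.sz_sd e.bs.1 z) (h.sg_le _) (h.om_le k) le_rfl h3) e.bs.1
    ⟨(e.jt 0).1, (e.jt 0).2, R.rt.1⟩ ⟨(e.jt 1).1, (e.jt 1).2, R.rt.2⟩ (h.sg_le _) (h.om_le k) h3
    (by norm_num) (by norm_num) ⟨e.sz, e.re, R⟩ (by positivity) (i 100) (by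
      rw [← mul_assoc, mul_comm _⁻¹, ← div_eq_mul_inv, show G.Q k ^ 214 / G.Q k ^ 100 =
        G.Q k ^ 113 * G.Q k by field_simp, mul_assoc (_ ^ _)]
      gcongr
      exact h.cQ k (by norm_num))
  rw [← j2] at s1 s2
  rw [← fs_bs (A := univ)] at a
  simp only [← j1] at c
  have m1 : G.Q (k + 1) ^ 110 ≤ (G.sd k z).r * G.Q k ^ 110 := nu.QM_pow (by norm_num)
  have m2 : G.Q (k + 1) ^ 110 ≤ G.Q k ^ 111 := nu.QM_pow' (by norm_num)
  have m3 : 1000 * G.cr k * (G.sd k z).r ^ 2 ≤ 1 := by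
    have := nu.cs_le (k := 4) (by omega)
    have c := mul_le_mul_of_nonneg_right (nu.cr' (C := 2000) (by norm_num))
      (show 0 ≤ ((G.sd k z).r : ℝ) ^ 3 * (G.sd k z).cs by have := Sd.Nu.cs0 (S := G.sd k z); positivity)
    rw [← G.sd_cr k z, Sd.cr]
    linarith
  have p : ∀ {i j : ℕ}, i < j → 1000 * (G.Q k ^ i * G.g k ^ 2) ≤ G.Q k ^ j * G.g k ^ 2 := fun u =>
    (mul_assoc _ _ _).ge.trans (mul_le_mul_of_nonneg_right (h.qpw k u) (sq_nonneg _))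
  obtain ⟨X, hX⟩ : ∃ X, X = G.Q (k + 1) ^ 220 * G.g (k + 1) ^ 2 := ⟨_, rfl⟩
  have X0 : 0 < X := by rw [hX]; positivity
  have X1 : X ≤ G.Q k ^ 222 * G.g k ^ 2 := by
    rw [hX, show 220 = 110 * 2 from rfl, show 222 = 111 * 2 from rfl, pow_mul, pow_mul]; gcongr
  have X2 : 1000 * (G.cr k * X) ≤ G.Q k ^ 220 * G.g k ^ 2 := by
    calc _ ≤ 1000 * (G.cr k * (((G.sd k z).r * G.Q k ^ 110) ^ 2 * G.g k ^ 2)) := by
          rw [hX, show 220 = 110 * 2 from rfl, pow_mul]; gcongr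
      _ = 1000 * G.cr k * (G.sd k z).r ^ 2 * (G.Q k ^ 220 * G.g k ^ 2) := by ring
      _ ≤ _ := mul_le_of_le_one_left (by positivity) m3
  rw [← hX] at s1
  have s3 := h.sz_up s1 (i0 _).le (x' := 3 * (G.Q k ^ 222 * G.g k ^ 2))
    (y' := G.Q k ^ 220 * G.g k ^ 2) (by
      have : G.Q k ^ 50 * (G.Q (k + 1) ^ 100)⁻¹ ≤ 1 := le_trans (by
        gcongr; exacts [h.Q1 k, by norm_num]) (h.om_le k)
      nlinarith) (by
      have := mul_pos (pow_pos q 214) (pow_pos g0 2)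
      nlinarith [p (show 214 < 220 by norm_num), h.cr1 k])
  have lf := h.lf t'
  have P2 : (G.Q k ^ 14) ^ 2 ≤ G.bb k := by
    linarith [h.Qbb k (show 28 < 4000 by norm_num), pow_pos q 28]
  have t0 := (lf.tq_bd (le_self_pow₀ (h.Q1 k) (by norm_num)) P2).1
  obtain ⟨f1, f2⟩ := lf.fd2 (h.sg_le k) (h.om_one le_rfl) le_rfl P2 (h.sz_sl a.1 _)
    (h.sz_sl (c 0).1 _) (h.sz_sl (c 1).1 _) (by
      change G.Q k ^ 300 * _ * G.g k ^ 2 ≤ 1
      rw [mul_div_cancel₀ _ (by positivity), h.bg]) le_rfl (by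
      rw [← pow_mul]
      exact (mul_le_mul_of_nonneg_right (pow_le_pow_right₀ (h.Q1 k) (by norm_num)) (i0 _).le).trans
        (h.om_one le_rfl)) (by norm_num) (h.sz_sl s3 _) (h.re_sl s2 _) R' m.1
  rw [h.sl_nf] at f1 f2 t0
  have D0 := mul_pos (pow_pos q 200) (pow_pos g0 2)
  have η : 10 * (G.Q k ^ 14) ^ 2 * (G.Q k ^ 100)⁻¹ * (3 * (G.Q k ^ 222 * G.g k ^ 2) +
      G.Q k ^ 220 * G.g k ^ 2) + G.Q k ^ 3 * (G.Q k ^ 100)⁻¹ * G.g k ^ 2 * (1000 + 1000) *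
        (1000 + 1000) ≤ G.Q k ^ 200 * G.g k ^ 2 := by
    have := mul_le_mul_of_nonneg_right (h.inv_c k (j := 97) (by norm_num)) (sq_nonneg (G.g k))
    calc _ = 30 * (G.Q k ^ 150 * G.g k ^ 2) + 10 * (G.Q k ^ 148 * G.g k ^ 2) +
          4 * 10 ^ 6 * (G.Q k ^ 97)⁻¹ * G.g k ^ 2 := by field_simp; ring
      _ ≤ _ := by
        linarith [p (show 150 < 200 by norm_num), p (show 148 < 200 by norm_num),
          p (show 0 < 200 by norm_num), mul_pos (i0 97) (pow_pos g0 2)]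
  have f3 := f2 _ m.asy
  have f4 := m.gm (h.N_odd k).pos.ne' t0
  have f5 := ((abs_sub_abs_le_abs_sub _ _).trans ((abs_sub_comm _ _).trans_le f1)).trans η
  have s4 : G.Sz k (G.Q k ^ 220 * G.g k ^ 2) _ _ _ _ :=
    sz_cb s3 (TCov.cx (h.N_odd k) s2.2.2) fun v v' δ δ' h1 h2 => by
      have c := mul_le_mul_of_nonneg_left (m0_le h1 h2)
        (abs_nonneg (qc (((G.fs univ k z Y).jt univ).1 0) e1 e1).re)
      rw [← abs_mul, ← norm_eq_abs, ← Complex.norm_real] at c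
      have δ0 := mul_nonneg h1.nonneg h2.nonneg
      refine ((norm_le_norm_sub_add _ _).trans (add_le_add (f3 v v' δ δ' h1 h2) c)).trans ?_
      have b1 := mul_le_mul_of_nonneg_right η δ0
      have b2 := mul_le_mul_of_nonneg_right ((sub_le_iff_le_add.1 f5).trans (add_le_add le_rfl f4)) δ0
      have b3 := mul_le_mul_of_nonneg_right (p (show 200 < 220 by norm_num)) δ0
      change 64 * (10 * (G.Q k ^ 14) ^ 2 * (G.Q k ^ 100)⁻¹ * _ + G.Q k ^ 3 * _ * G.g k ^ 2 * _ * _ +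
        _) * δ * δ' + _ ≤ _
      linarith [mul_nonneg D0.le δ0]
  exact ⟨fd, (h.w2_pu fd.fi a c s4 hσ).2, a, c, s4, s2⟩

/-- many steps in arbitrary frames -/
theorem w2_chainf {z : ℕ → Z} {Y : ℕ → Fy (Fin 2)} {f : ℕ → (Fin 2 → ℂ) → Conf → ℂ}
    {H u : ℕ → Lx × Ac} (hp : G.Pu)
    (hσ : ∀ k, j ≤ k → k < i → G.Q k ^ 225 * σ ≤ G.bb k)
    (st : ∀ k, j ≤ k → k < i → G.Ad J k (z (k + 1)) ∧ z k = G.nx k (z (k + 1)) ∧ G.Tz J k (z k) ∧
      Y k = G.fs univ k (z (k + 1)) (Y (k + 1)) ∧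
      (f k = fun s => TT (G.l k) (G.a k) (G.N k) (f (k + 1) s)) ∧
      H k = G.hs k (z (k + 1)) (H (k + 1)) ∧ u k = G.ts k (z (k + 1)) (H (k + 1)) (u (k + 1)) ∧
      G.Bw2 k (H k) ∧ G.Uw2 k (u k) ∧
      Fl2 (G.N k) (G.g k / G.Q k ^ 14) (G.Q k ^ 200 * G.g k ^ 2) (f k))
    (e : G.W2 i (z i) σ (Y i) (f i)) (e1 : (Y i).bs = H i) (e2 : ∀ x, (Y i).jt {x} = u i) :
    ∀ k ≤ i, j ≤ k → G.W2 k (z k) σ (Y k) (f k) ∧ (Y k).bs = H k ∧ ∀ x, (Y k).jt {x} = u k := by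
  refine dw_ind (fun _ => ⟨e, e1, e2⟩) fun k hk ih hj => ?_
  obtain ⟨a1, a2, a3, a4, a5, a6, a7, a8, a9, a⟩ := st k hj hk
  obtain ⟨c1, c2, c3⟩ := ih (by omega)
  rw [a2] at a3
  rw [a5] at a
  rw [a2, a4, a5, fs_bs, c2]
  exact ⟨h.w2_step hp a1 a3 c1 (hσ k hj hk) (c2 ▸ a6 ▸ a8)
    (fun x => by rw [c2, c3, ← a7]; exact a9) a, a6.symm,
    fun x => by rw [h.fs_jt a1.tz c1.fd.fi (mem_univ x), c2, c3, a7]⟩

theorem sg225 (hσ : σ ≤ G.sg j) (hk : j ≤ k) : G.Q k ^ 225 * σ ≤ G.bb k :=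
  (le_of_eq (by ring)).trans (h.sig_le hσ hk).1

theorem w2_chain {z : ℕ → Z} {Y : ℕ → Fy (Fin 2)} {f : ℕ → (Fin 2 → ℂ) → Conf → ℂ}
    {H u : ℕ → Lx × Ac} (hp : G.Pu) (hσ : σ ≤ G.sg j)
    (st : ∀ k, j ≤ k → k < i → G.Ad J k (z (k + 1)) ∧ z k = G.nx k (z (k + 1)) ∧ G.Tz J k (z k) ∧
      Y k = G.fs univ k (z (k + 1)) (Y (k + 1)) ∧
      (f k = fun s => TT (G.l k) (G.a k) (G.N k) (f (k + 1) s)) ∧
      H k = G.hs k (z (k + 1)) (H (k + 1)) ∧ u k = G.ts k (z (k + 1)) (H (k + 1)) (u (k + 1)) ∧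
      G.Bw2 k (H k) ∧ G.Uw2 k (u k) ∧
      Fl2 (G.N k) (G.g k / G.Q k ^ 14) (G.Q k ^ 200 * G.g k ^ 2) (f k))
    (e : G.W2 i (z i) σ (Y i) (f i)) (e1 : (Y i).bs = H i) (e2 : ∀ x, (Y i).jt {x} = u i) :
    ∀ k ≤ i, j ≤ k → G.W2 k (z k) σ (Y k) (f k) ∧ (Y k).bs = H k ∧ ∀ x, (Y k).jt {x} = u k :=
  h.w2_chainf hp (fun _ a _ => h.sg225 hσ a) st e e1 e2

theorem w1f_of (hp : G.Pu) (t : G.Tu b J) (e : ∀ k, j ≤ k → k ≤ J → ∀ ϑ,
    Fw (G.N k) (G.g k / G.Q k ^ 14) ϑ → ‖iteratedDeriv 2 (fun s => lf1 (G.fb b J k) s (ab ϑ) -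
      lf1 (G.fb b J k) s (ab 0)) 0‖ ≤ G.Q k ^ 200 * G.g k ^ 2 *
        (tq (G.N k) (G.g k / G.Q k ^ 14) ^ 2 * G.N k ^ 4)) : G.W1f b J j := by
  intro σ σ0 hσ W hW k hj hk
  have B : ∀ k ≤ J, G.Bw2 k (G.zz b J k).d ∧ G.Uw2 k (G.tu b J k) := fun k hk => by
    have a := (t.gd k hk).dt
    have c := (h.tan_main hp t hk).1
    have : 1 ≤ G.bb k / G.Q k ^ 300 := (one_le_div (pow_pos (h.Q0 k) _)).2 (by
      linarith [h.Qbb k (show 300 < 4000 by norm_num), pow_pos (h.Q0 k) 300])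
    exact ⟨⟨h.sz_le a.sz (sqrt_nonneg _) this this (h.sg_le k), a.re⟩,
      h.sz_le c.sz (sqrt_nonneg _) le_rfl (by norm_num) (h.sg_le k), c.re⟩
  have q := h.Q0 J
  have g0 := h.g0 J
  have b0 := h.b0 J
  have σ1 := hσ J (hj.trans hk) le_rfl
  have v := (t.gd J le_rfl).tz.v
  rw [zz_top] at v
  change |b / G.bb J - 1| ≤ _ at v
  have hF : ∀ {ρ : ℝ}, ρ * 2 ≤ G.bb J / 4 → ∀ s ∈ Pd fun _ : Fin 2 => ρ, ∀ x μ ν,
      ‖sF univ (fun _ => 1) s x μ ν‖ ≤ G.bb J / 4 := fun u s hs x μ ν => by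
    simpa [sF] using (norm_add_le _ _).trans (by linarith [hs 0, hs 1] : _ ≤ G.bb J / 4)
  have T := fun {ρ : ℝ} (ρ0 : 0 < ρ) u => h.fam_top (c := 2) (cl := fun _ => ()) (W := W) v
    (fun _ => ρ0) (hF u) (fun a x e => (e (hW a ▸ rc_mem (h.N_odd J) x)).elim)
    (fun _ _ => ⟨1, fun _ _ _ => norm_one.le⟩) (fun _ _ _ _ u => (u rfl).elim) le_rfl
    (fun _ => (card_le_univ _).trans_eq (by simp)) le_rfl
  have g2 := pow_le_pow_of_le_one g0.le (h.g1 J) (show 2 ≤ 31 by norm_num)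
  have σ2 := mul_le_mul_of_nonneg_right (h.qpw J (show 0 < 225 by norm_num)) σ0.le
  have fd := (T σ0 (by linarith)).mono (θ' := (G.Q J ^ 329)⁻¹) (fun _ => σ0)
    (fun _ => le_rfl) (by
      linarith [h.g_le J, h.inv_le J (i := 329) (j := 4000) (by norm_num), pow_pos g0 2])
  have j0 : (G.ft univ (fun _ : Fin 2 => 1) W b J).bs = (G.zz b J J).d :=
    fm_top (G := G) (W := W) ▸ fm_bs J le_rfl
  have j1 : ∀ x, (G.ft univ (fun _ : Fin 2 => 1) W b J).jt {x} = G.tu b J J := fun x => by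
    rw [ft_jt (mem_univ x), tu, tc_top]
  have j2 : ((G.ft univ (fun _ : Fin 2 => 1) W b J).jt univ).1 = 0 := (jL_src Subset.rfl).trans (by simp)
  have j3 : ((G.ft univ (fun _ : Fin 2 => 1) W b J).jt univ).2 =
      jA univ fun s => sK (G.p J) (G.N J) b (sF univ (fun _ : Fin 2 => 1) s) := by
    rw [← jA_trK Subset.rfl]; rfl
  have ρ0 : 0 < G.bb J / 8 := by positivity
  have s : G.Sz J (G.Q J ^ 220 * G.g J ^ 2) (G.Q J ^ 220 * G.g J ^ 2) (G.Q J ^ 100)⁻¹ _ _ :=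
    ⟨j2 ▸ PM.mono (h.ρ0 J) (pm_zero (h.ρ0 J)) (by positivity) (by positivity) (by positivity),
      ((T ρ0 (by linarith)).fi.kjet univ).imp fun _ a => ⟨a.1, a.2.mono (by
        have e : G.bb J = (G.g J ^ 2)⁻¹ := eq_inv_of_mul_eq_one_left (h.bg J)
        have := mul_le_mul (h.qpw J (show 0 < 120 by norm_num)) (pow_le_pow_of_le_one g0.le (h.g1 J)
          (show 4 ≤ 35 by norm_num)) (by positivity) (by positivity)
        calc _ = 256 * G.g J ^ 35 := by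
              simp only [prod_const, card_univ, Fintype.card_fin, e]; field_simp; ring
          _ ≤ G.Q J ^ 120 * G.g J ^ 4 := by linarith [pow_pos g0 35]
          _ = _ := by field_simp)⟩⟩
  have a := src_fa (h.sl_all J (G.top b J)).nu (β := b) (fun _ => ρ0) (hF (by linarith)) (by
    have := (le_div_iff₀ b0).1 (show 2⁻¹ ≤ b / G.bb J by linarith [(abs_le.1 v).1])
    change G.bb J / 2 ≤ b
    linarith)
  rw [h.sl_nf] at a
  refine (h.w2_chainf (z := G.zz b J) (Y := G.fm univ (fun _ => 1) W b J)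
    (H := fun k => (G.zz b J k).d) hp (fun k a c => hσ k a c.le) (fun k a c => ⟨h.ad t c (h.pu_all t hp k c), zz_step b c, (t.gd k c.le).tz, fm_step c,
      fr_step c, by rw [zz_step b c]; rfl, tc_step _ c, (B k c.le).1, (B k c.le).2,
      h.fl2_fr t.b0 c.le (e k a c.le)⟩) ?_ (fm_bs J le_rfl) (fm_top (G := G) (W := W) ▸ j1) k hk hj).imp_right
    And.right
  have b1 := j0 ▸ (B J le_rfl).1
  have b2 := fun x => j1 x ▸ (B J le_rfl).2
  rw [fm_top, zz_top]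
  refine ⟨fd, (h.w2_pu fd.fi b1 b2 s σ1).2, b1, b2, s, ?_⟩
  rw [j2, j3]
  exact ⟨fun _ _ _ _ => rfl, fun X c U => jd_real (a.sh X c U) (fun s _ u => sK_real
    (fun _ _ _ => by simp [sF, u]) X c U) _, fun w => ⟨rfl, fun o ho => funext fun U => congrArg (jd _)
      (funext fun s => (congrFun (sK_tr (h.N_odd J) w ho) U).trans (by congr))⟩⟩

theorem w1_f (e : G.W1f b J j) : G.W1 b J j :=
  e _ (div_pos (h.b0 j) (pow_pos (h.Q0 j) _)) fun _ a _ => h.sg225 le_rfl a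

end Ok

end Gl

/-- the second jet of two constant sources is of the order of the square of the coupling -/
theorem w1f {G : Gl} (h : G.Oks) (a : AfU G.c G.Kt G.K0) : ∀ᶠ j in atTop, ∀ m b J,
    (G.wm m).Tu b J → (G.wm m).W1f b J j := by
  filter_upwards [eventually_forall_ge_atTop.2 (d2_small h a 0)] with j e m b J t
  have o := (h m).1
  refine o.w1f_of (h m).2 t fun k u v ϑ w => (e k u m b J t v _ le_rfl
    (pow_le_pow_right₀ (o.Q1 k) (by norm_num)) ϑ w).trans (mul_le_mul_of_nonneg_right ?_ (by positivity))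
  rw [pow_zero, div_one]
  exact le_mul_of_one_le_left (sq_nonneg _) (one_le_pow₀ (o.Q1 k))

theorem w1 {G : Gl} (h : G.Oks) (a : AfU G.c G.Kt G.K0) : ∀ᶠ j in atTop, ∀ m b J,
    (G.wm m).Tu b J → (G.wm m).W1 b J j :=
  (w1f h a).mono fun _ e m b J t => (h m).1.w1_f (e m b J t)

end Pool.Agent.Lib.MP_7f377f_mp.RG.Q4.En
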