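import Pool.Agent.Lib.MP_7f377f_mp.G.S23E3
import Pool.Agent.Lib.MP_7f377f_mp.G.S23E4
import Pool.Agent.Lib.MP_7f377f_mp.G.S23W
import Pool.Agent.Lib.MP_7f377f_mp.G.S23F2
import Pool.Agent.Lib.MP_7f377f_mp.G.Q5CmH

/-! The second jets of two runs agree up to the square of the ratio of the tangents. -/

noncomputable section

open Pool.Agent.Lib.MP_7f377f_mp.Jet

set_option linter.unusedSectionVars false
variable [Pool.Agent.Lib.MP_7f377f_mp.GD]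

namespace Pool.Agent.Lib.MP_7f377f_mp.RG.Q4.En

open Finset Real Sg Pos Filter

namespace Gl

/-- the hybrid family of two constant sources on the levels `[j, i]` -/
def Hw (G : Gl) (W : Fin 2 → Finset St) (b : ℝ) (J : ℕ) (b' : ℝ) (J' i j : ℕ) : Prop :=
  ∀ n, j ≤ n → n ≤ i → G.W2 n (G.zz b J n) (G.sg j) (G.fh univ (fun _ => 1) W b J b' J' i n)
    (G.fr univ (fun _ => 1) b' J' n) ∧
    (G.fh univ (fun _ => 1) W b J b' J' i n).bs = G.hy b J b' J' i n ∧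
    ∀ x, (G.fh univ (fun _ => 1) W b J b' J' i n).jt {x} = G.uh b J b' J' i n

/-- comparison of the first and the second jets with those of the short run -/
def Hp3 (G : Gl) (c l : ℕ) : Prop := ∀ b b' J', G.Tu b (G.lJ c l) → G.Tu b' J' → G.lJ c l ≤ J' →
  ∃ γ : ℝ, |γ - 1| ≤ (G.Q l)⁻¹ ∧ G.Hy b (G.lJ c l) b' J' (G.li c l) (G.lk c l) γ
    (32 / G.Q l ^ pT c) (4 / G.Q l ^ pT c * G.bb (G.lk c l))
    (G.hy b (G.lJ c l) b' J' (G.li c l)) (G.uh b (G.lJ c l) b' J' (G.li c l)) ∧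
    ∀ W W' : Fin 2 → Finset St, (∀ x, W x = box (G.N (G.lJ c l) / 2)) →
      (∀ x, W' x = box (G.N J' / 2)) → G.Hw W' b (G.lJ c l) b' J' (G.li c l) l ∧
      G.Sz (G.lk c l) (G.g (G.lk c l) ^ 2 * (1 / G.Q l ^ pT c * G.Q l ^ 2500))
        (G.g (G.lk c l) ^ 2 * (1 / G.Q l ^ pT c * G.Q l ^ 2500)) (G.Q (G.lk c l) ^ 100)⁻¹
        ((G.fh univ (fun _ => 1) W' b (G.lJ c l) b' J' (G.li c l) (G.lk c l)).jt univ -
          (γ : ℂ) ^ 2 • (G.fm univ (fun _ => 1) W b (G.lJ c l) (G.lk c l)).jt univ).1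
        ((G.fh univ (fun _ => 1) W' b (G.lJ c l) b' J' (G.li c l) (G.lk c l)).jt univ -
          (γ : ℂ) ^ 2 • (G.fm univ (fun _ => 1) W b (G.lJ c l) (G.lk c l)).jt univ).2

variable {G : Gl} {b b' σ σ' ρ ε ε' θ θ' x y w : ℝ} {I J J' c i j k l m n : ℕ} {z z' : Z}
  {Y Y' : Fy (Fin 2)} {f f' : (Fin 2 → ℂ) → Conf → ℂ} {W W' : Fin 2 → Finset St} {γ : ℂ}

omit [GD] in
theorem fin2_cases : ∀ T : Finset (Fin 2), T = ∅ ∨ (∃ x, T = {x}) ∨ T = univ := by decide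

omit [GD] in
theorem sum_pw2 (a : Finset (Fin 2) → ℝ) :
    ∑ T ∈ univ.powerset, a T = a ∅ + a {0} + a {1} + a univ := by
  rw [show (univ : Finset (Fin 2)).powerset = {∅, {0}, {1}, univ} by decide,
    sum_insert (by decide), sum_insert (by decide), sum_pair (by decide)]
  ring

theorem jt_empty : Y.jt ∅ = Y.bs := Prod.ext jL_empty jA_empty

theorem D2s.mono (d : G.D2s b J k ε) (e : ε ≤ ε') : G.D2s b J k ε' := fun ϑ c =>
  (d ϑ c).trans (mul_le_mul_of_nonneg_right e (by positivity))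

namespace Ok

variable (h : G.Ok)
include h

theorem zs_box (hk : k ≤ J) : G.zs (box (G.N J / 2)) J k = box (G.N k / 2) := by
  rcases hk.eq_or_lt with rfl | e
  · exact zs_top
  refine Subset.antisymm (fun y hy => ?_) fun y hy =>
    rc_eq (h.N_odd k) hy ▸ h.mem_zs k hk y (rc_mem (h.N_odd J) _)
  rw [zs_step e (G.top0 0 0)] at hy
  exact (mem_nxt.1 hy).1 ▸ rc_mem (h.N_odd k) y

/-- the jets do not depend on the site -/
theorem w2_cx (e : G.W2 k z σ Y f) (T : Finset (Fin 2)) (v : St) :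
    (Y.jt T).1 v = (Y.jt T).1 0 := by
  rcases fin2_cases T with rfl | ⟨x, rfl⟩ | rfl
  exacts [jt_empty ▸ TCov.cx (h.N_odd k) e.bs.2.2.2 v, TCov.cx (h.N_odd k) (e.jt x).2.2.2 v,
    TCov.cx (h.N_odd k) e.re.2.2 v]

theorem w2_iv (e : G.W2 k z σ Y f) (e' : G.W2 k z' σ' Y' f') : Iv univ Y (Y'.sc γ) :=
  fun T _ v => by
    rw [Fy.sc_jt]
    exact congrArg₂ (fun s t => s - γ ^ T.card • t) (h.w2_cx e T v) (h.w2_cx e' T v)

/-- the hybrid family -/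
theorem hy_w2 (hp : G.Pu) (A : G.Tu b J) (B : G.Tu b' J') (hJ : J ≤ J')
    (hi : i + 20 * (405 * G.K + 1) + 1 ≤ J) (a : G.W1 b' J' j) (hW : ∀ x, W x = box (G.N J' / 2))
    (d : ∀ k, j ≤ k → k ≤ J' → G.D2s b' J' k (G.Q k ^ 200 * G.g k ^ 2)) :
    G.Hw W b J b' J' i j := fun n hj hn => by
  have i1 : i ≤ J := by omega
  have i2 := i1.trans hJ
  have hd := h.dfc (z := G.zz b J i) A B hJ hi
  have ω0 := fun k => (inv_pos.2 (pow_pos (h.Q0 k) 280)).le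
  have bw : ∀ k ≤ i, G.Bw2 k (G.hy b J b' J' i k) := fun k hk => by
    have u : G.u k ≤ G.bb k / G.Q k ^ 300 := div_le_div_of_nonneg_left (h.b0 k).le
      (pow_pos (h.Q0 k) _) (pow_le_pow_right₀ (h.Q1 k) (by norm_num))
    have t := h.hy_dt A B i1 i2 hd k hk
    exact ⟨h.sz_le t.sz (ω0 k) u u (h.om_mono k (by norm_num)), t.re⟩
  have uw : ∀ k ≤ i, G.Uw2 k (G.uh b J b' J' i k) := fun k hk => by
    have t := h.uh_tn A B i1 i2 hd hp (fun _ => h.tan_main hp B) k hk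
    exact ⟨h.sz_le t.sz (ω0 k) le_rfl (by norm_num) (h.om_mono k (by norm_num)), t.re⟩
  obtain ⟨e, e1⟩ := a W hW i (hj.trans hn) i2
  obtain ⟨φ, hφ⟩ : ∃ φ, φ = (G.sl i (G.zz b' J' i)).Φ 0 - (G.sl i (G.zz b J i)).Φ 0 := ⟨_, rfl⟩
  have t : G.fh univ (fun _ => 1) W b J b' J' i i = (G.fm univ (fun _ => 1) W b' J' i).hy φ :=
    hφ ▸ fw_top
  have j0 : ((G.fm univ (fun _ => 1) W b' J' i).hy φ).bs = G.hy b J b' J' i i := by
    rw [hy_top, ← hφ]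
    exact congrArg (fun a : Lx × Ac => (a.1 + φ, a.2)) (fm_bs i i2)
  have j1 : ∀ x, ((G.fm univ (fun _ => 1) W b' J' i).hy φ).jt {x} = G.uh b J b' J' i i := fun x => by
    rw [Fy.hy_jt e.fd.fi (mem_univ x), e1, uh_top]
  have j2 : ((G.fm univ (fun _ => 1) W b' J' i).hy φ).jt univ =
      (G.fm univ (fun _ => 1) W b' J' i).jt univ :=
    Prod.ext ((e.fd.fi.jL_add Subset.rfl).trans (by rw [if_neg (by decide), add_zero]; rfl)) rfl
  have b1 := j0 ▸ bw i le_rfl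
  have F : G.Fd i (G.zz b J i) univ _ _ _ ((G.fm univ (fun _ => 1) W b' J' i).hy φ) _ :=
    hφ ▸ e.fd.hy (hφ ▸ b1.1.1)
  have b2 := fun x => j1 x ▸ uw i le_rfl
  have b3 := j2 ▸ e.sz
  have σ0 := e.fd.fi.pos 0
  refine h.w2_chain (z := G.zz b J) (H := G.hy b J b' J' i) (u := G.uh b J b' J' i) (J := J)
    (Y := G.fh univ (fun _ => 1) W b J b' J' i) hp le_rfl
    (fun k a c => ⟨h.ad A (by omega) (h.pu_all A hp k (by omega)), zz_step b (by omega),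
      (A.gd k (by omega)).tz, fw_step c, fr_step (by omega), hy_step c, uh_step c, bw k c.le,
      uw k c.le, h.fl2_fr B.b0 (by omega) (d k a (by omega))⟩)
    (t ▸ ⟨F, (h.w2_pu F.fi b1 b2 b3 ?_).2, b1, b2, b3, j2 ▸ e.re⟩) (t ▸ j0) (t ▸ j1) n hn hj
  exact (mul_le_mul_of_nonneg_right (pow_le_pow_right₀ (h.Q1 i) (by norm_num)) σ0.le).trans
    ((mul_comm _ _).trans_le (h.sig_up σ0 (div_mul_cancel₀ _ (pow_pos (h.Q0 j) _).ne').le
      (hj.trans hn)))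

/-- the size of a family with a small base point -/
theorem w2_sf (e : G.W2 k z (G.sg k) Y f)
    (a : G.Sz k (G.u k) (G.u k) (G.Q k ^ 100)⁻¹ Y.bs.1 Y.bs.2) {s : Fin 2 → ℂ}
    (hs : s ∈ Pd fun _ => G.sg k) : G.Sz k (4 * G.u k) (4 * G.u k) (G.Q k ^ 100)⁻¹ (Y.ψ s) (Y.K s) ∧
      ∀ v, Y.ψ s v = Y.ψ s 0 := by
  have q := h.Q0 k
  have ω0 := (inv_pos.2 (pow_pos q 100)).le
  have u0 : 0 ≤ G.u k := by linarith [h.u_one k]
  have b0 := h.b0 k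
  have u := ((sf_of (A := univ) (a := Y.jt) (x := fun _ => G.u k) (y := fun _ => G.u k) (h.ρ0 k)
    e.fd.fi.pos fun T _ => by
      rcases fin2_cases T with rfl | ⟨x, rfl⟩ | rfl
      · rw [prod_empty, div_one, jt_empty]
        exact a
      · have : 1000 ≤ G.u k / ∏ _ ∈ {x}, G.sg k := by
          rw [prod_singleton, show G.u k / G.sg k = G.Q k ^ 800 by rw [Gl.u, sg]; field_simp]
          simpa using h.qpw k (show 0 < 800 by norm_num)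
        exact h.sz_up (e.jt x).1 ω0 this this
      · have : G.Q k ^ 220 * G.g k ^ 2 ≤ G.u k / ∏ _ : Fin 2, G.sg k := by
          rw [Fin.prod_const, show G.u k / G.sg k ^ 2 = G.Q k ^ 2000 * (G.bb k)⁻¹ by
            rw [Gl.u, sg]; field_simp, ← eq_inv_of_mul_eq_one_right (h.bg k)]
          gcongr
          exacts [h.Q1 k, by norm_num]
        exact h.sz_up e.sz ω0 this this).mono (h.ρ0 k) ω0 (sum_four (by simp) u0)
    (sum_four (by simp) u0)).sz hs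
  rw [congrFun e.fd.fi.psi s, congrFun e.fd.fi.act s]
  refine ⟨u, fun v => ?_⟩
  simp only [Jet.ma, Finset.sum_apply, Pi.smul_apply]
  exact sum_congr rfl fun T _ => congrArg _ (h.w2_cx e T v)

/-- a crude bound for the differences of the jets -/
theorem w2_dn (e : G.W2 k z σ Y f) (e' : G.W2 k z' σ' Y' f') (hγ : ‖γ‖ ≤ 2) (ρ0 : 0 < ρ)
    (hρ : ρ * G.Q k ^ 240 ≤ G.bb k) : G.Dn k univ (fun _ => ρ) (G.bb k) Y (Y'.sc γ) := fun T hT => by
  have q := h.Q0 k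
  have ω0 := (inv_pos.2 (pow_pos q 100)).le
  have b0 := h.b0 k
  have s : ∀ X, G.Sz k X X (G.Q k ^ 100)⁻¹ (Y.jt T).1 (Y.jt T).2 →
      G.Sz k X X (G.Q k ^ 100)⁻¹ (Y'.jt T).1 (Y'.jt T).2 → 5 * X * ∏ _ ∈ T, ρ ≤ G.bb k →
      G.Sz k (nb ((Y.jt T - (Y'.sc γ).jt T).1 0)) (G.bb k / ∏ _ ∈ T, ρ) (G.Q k ^ 100)⁻¹
        (Y.jt T - (Y'.sc γ).jt T).1 (Y.jt T - (Y'.sc γ).jt T).2 := fun X a a' u => by
    have g : ‖γ ^ T.card‖ ≤ 4 := by
      rw [norm_pow]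
      exact (pow_le_pow_left₀ (norm_nonneg _) hγ _).trans ((pow_le_pow_right₀ one_le_two
        ((card_le_univ T).trans_eq (Fintype.card_fin 2))).trans_eq (by norm_num))
    have t := h.sz_up (sz_sub (h.ρ0 k) a (sz_smul (h.ρ0 k) a' (γ ^ T.card))) ω0 le_rfl
      (le_trans (by nlinarith [(h.sz_nn a).1])
        ((le_div_iff₀ (prod_pos fun _ _ => ρ0)).2 u))
    have c := h.w2_iv (γ := γ) e e' T hT
    rw [Fy.sc_jt] at c ⊢
    exact ⟨pm_nb (h.ρ0 k) t.1 c le_rfl le_rfl, t.2⟩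
  have a1 := mul_le_mul_of_nonneg_left (h.qpw k (show 220 < 240 by norm_num)) ρ0.le
  have a2 := mul_le_mul_of_nonneg_left (h.qpw k (show 1 < 220 by norm_num)) ρ0.le
  have a3 := mul_le_mul_of_nonneg_left (h.cQ k (C := 1000) (by norm_num)) ρ0.le
  rw [pow_one] at a2
  rcases fin2_cases T with rfl | ⟨x, rfl⟩ | rfl
  · refine s _ (jt_empty ▸ e.bs.1) (jt_empty ▸ e'.bs.1) ?_
    rw [prod_empty, mul_one, div_eq_mul_inv]
    nlinarith [h.inv_c k (j := 300) (by norm_num)]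
  · refine s _ (e.jt x).1 (e'.jt x).1 ?_
    rw [prod_singleton]
    linarith
  · refine s _ e.sz e'.sz ?_
    rw [Fin.prod_const]
    calc _ = 5 * (ρ * G.Q k ^ 220) * G.g k ^ 2 * ρ := by ring
      _ ≤ G.bb k * G.g k ^ 2 * ρ := by gcongr; linarith
      _ ≤ _ := by rw [h.bg]; linarith

theorem df2_dn {ι : Type} [DecidableEq ι] {A : Finset ι} {ρ : ι → ℝ} {Y Y' : Fy ι}
    {W W' : ι → Finset St} (F : Fi (G.p k) (G.N k) A W ρ θ Y.ψ Y.K)
    (F' : Fi (G.p k) (G.N k) A W' ρ θ' Y'.ψ Y'.K) (hA : A.card ≤ 2) (s : G.Dn k A ρ y Y Y') :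
    G.Df2 k ρ (xn A ρ Y Y') (4 * y) Y Y' := by
  have u := (sf_of (a := fun T => Y.jt T - Y'.jt T) (y := fun _ => y) (h.ρ0 _) F.pos
    (x := fun T => (∏ a ∈ T, ρ a) * nb ((Y.jt T - Y'.jt T).1 0)) fun T hT => by
      rw [mul_div_cancel_left₀ _ (prod_pos fun a _ => F.pos a).ne']
      exact s T hT).mono (h.ρ0 _) (inv_pos.2 (pow_pos (h.Q0 k) 100)).le le_rfl
        (sum_four hA (by simpa using (h.sz_nn (s ∅ (empty_subset _))).2))
  unfold Df2 xn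
  convert u using 1 <;> funext s
  · rw [Pi.sub_apply, congrFun F.psi s, congrFun F'.psi s]
    simp only [Jet.ma, Fy.jt, Prod.fst_sub, smul_sub, sum_sub_distrib]
  · rw [Pi.sub_apply, congrFun F.act s, congrFun F'.act s]
    simp only [Jet.ma, Fy.jt, Prod.snd_sub, smul_sub, sum_sub_distrib]

/-- the marginal parts at the lowest level -/
theorem w2_bot (t : G.Tz I m z) (hJ : m ≤ J) (hJ' : m ≤ J') (hρ : 2 * ρ = G.sg m)
    (e : G.W2 m z (G.sg m) Y (G.fr univ (fun _ => 1) b' J' m))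
    (e' : G.W2 m z (G.sg m) Y' (G.fr univ (fun _ => 1) b J m))
    (a : G.Sz m (G.u m) (G.u m) (G.Q m ^ 100)⁻¹ Y.bs.1 Y.bs.2)
    (a' : G.Sz m (G.u m) (G.u m) (G.Q m ^ 100)⁻¹ Y'.bs.1 Y'.bs.2) (hγ : ‖γ‖ ≤ 2)
    (dh : G.Sz m y y (G.Q m ^ 100)⁻¹ (Y.bs - Y'.bs).1 (Y.bs - Y'.bs).2)
    (du : ∀ a, G.Sz m x x (G.Q m ^ 100)⁻¹ (Y.jt {a} - γ • Y'.jt {a}).1 (Y.jt {a} - γ • Y'.jt {a}).2)
    (d : G.D2s b J m ε) (d' : G.D2s b' J' m ε) (ε0 : 0 ≤ ε)
    (D : G.Dn m univ (fun _ => ρ) w Y (Y'.sc γ)) :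
    xn univ (fun _ => ρ) Y (Y'.sc γ) ≤ 4 * w + 2 * (64 * y + 128 * ρ * x + 85000 * ρ ^ 2 * ε) := by
  have q := h.Q0 m
  have σ0 := e.fd.fi.pos 0
  have ρ0 : 0 < ρ := by linarith
  have r1 : ρ ≤ G.sg m := by linarith
  have r2 : ‖γ‖ * ρ ≤ G.sg m := hρ ▸ mul_le_mul_of_nonneg_right hγ ρ0.le
  have D2 := h.df2_dn (e.fd.fi.mono (fun _ => ρ0) (fun _ => r1) le_rfl fun _ => Subset.rfl)
    (e'.fd.fi.sc (h.ρ0 m) (fun _ => ρ0) fun _ => r2) (by simp) D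
  have c := h.cv_nb t hJ' hJ e.fd e'.fd (fun _ => ρ0) (fun _ => ⟨r1, r2⟩)
    (fun s hs => h.w2_sf e a fun i => (hs i).trans_le r1)
    (fun s hs => h.w2_sf e' a' (pd_scale e'.fd.fi.pos (fun _ => r2) hs)) (by
      have := mul_le_mul_of_nonneg_right (h.Qbb m (i := 300) (by norm_num)) (sq_nonneg (G.g m))
      rw [h.bg] at this
      linarith [h.u_g m (x := 132 * G.u m) le_rfl]) D2 d' d
  obtain ⟨x0, w0⟩ := h.sz_nn (D2.sz (zero_mem fun _ => ρ0))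
  have c1 : 10 ^ 5 * (xn univ (fun _ => ρ) Y (Y'.sc γ) + 4 * w) / (G.Q m ^ 72 * (ρ * ρ)) ≤
      (xn univ (fun _ => ρ) Y (Y'.sc γ) + 4 * w) / 2 / ρ ^ 2 := by
    rw [div_le_div_iff₀ (by positivity) (by positivity)]
    nlinarith [mul_le_mul_of_nonneg_right ((h.cQ m (C := 10 ^ 6) (by norm_num)).trans
      (le_self_pow₀ (h.Q1 m) (show 72 ≠ 0 by norm_num))) (mul_nonneg (add_nonneg x0 w0) (sq_nonneg ρ))]
  have c2 : 17000 * (1 + ‖γ‖ ^ 2) * ε ≤ 85000 * ε := by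
    gcongr
    nlinarith [norm_nonneg γ]
  have c3 := mul_le_mul_of_nonneg_left (c.trans (add_le_add c2 c1)) (sq_nonneg ρ)
  rw [mul_add, mul_div_cancel₀ _ (by positivity)] at c3
  have c4 := fun a => mul_le_mul_of_nonneg_left (Ps.nb ((du a).1 0).1).2 ρ0.le
  have c5 : xn univ (fun _ => ρ) Y (Y'.sc γ) = nb ((Y.bs - Y'.bs).1 0) +
      ρ * nb ((Y.jt {0} - γ • Y'.jt {0}).1 0) + ρ * nb ((Y.jt {1} - γ • Y'.jt {1}).1 0) +
      ρ ^ 2 * nb ((Y.jt univ - γ ^ 2 • Y'.jt univ).1 0) := by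
    rw [xn, sum_pw2]
    simp only [Fy.sc_jt, prod_const, card_empty, card_singleton, card_fin, pow_zero, pow_one,
      one_smul, one_mul, jt_empty]
  linarith [c4 0, c4 1, (Ps.nb (dh.1 0).1).2]

/-- the second jets of the hybrid family and of the family of the short run -/
theorem jt_cmp {γ x' : ℝ} (A : G.Tu b J) (B : G.Tu b' J') (hJ : J ≤ J')
    (hi : i + 20 * (405 * G.K + 1) + 1 ≤ J) (hm : m ≤ k) (hk : k + 40 * n ≤ i)
    (hw : (i - m : ℕ) ≤ G.Q m ^ 40) (hρ : 2 * ρ = G.sg m) (a : G.W1 b J m)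
    (a' : G.Hw W' b J b' J' i m) (hW : ∀ x, W x = box (G.N J / 2))
    (hW' : ∀ x, W' x = box (G.N J' / 2))
    (P : G.Hy b J b' J' i m γ x y (G.hy b J b' J' i) (G.uh b J b' J' i)) (d : G.D2s b J m ε)
    (d' : G.D2s b' J' m ε) (ε0 : 0 ≤ ε) (hx : (4 * G.bb i / G.L k ^ n +
      2 * (2 * (64 * y + 128 * ρ * x + 85000 * ρ ^ 2 * ε))) / ρ ^ 2 ≤ x') :
    G.Sz k x' x' (G.Q k ^ 100)⁻¹
      ((G.fh univ (fun _ => 1) W' b J b' J' i k).jt univ -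
        (γ : ℂ) ^ 2 • (G.fm univ (fun _ => 1) W b J k).jt univ).1
      ((G.fh univ (fun _ => 1) W' b J b' J' i k).jt univ -
        (γ : ℂ) ^ 2 • (G.fm univ (fun _ => 1) W b J k).jt univ).2 := by
  have i1 : i ≤ J := by omega
  have i2 := i1.trans hJ
  have mi : m ≤ i := by omega
  have σ0 : 0 < G.sg m := div_pos (h.b0 m) (pow_pos (h.Q0 m) _)
  have ρ0 : 0 < ρ := by linarith
  have r1 : ρ ≤ G.sg m := by linarith
  have hγ : ‖(γ : ℂ)‖ ≤ 2 := by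
    rw [Complex.norm_real, norm_eq_abs]
    linarith [abs_sub_abs_le_abs_sub γ 1, P.one, abs_one (α := ℝ)]
  have r2 : ‖(γ : ℂ)‖ * ρ ≤ G.sg m := hρ ▸ mul_le_mul_of_nonneg_right hγ ρ0.le
  have e := fun k (a : m ≤ k) (c : k ≤ i) => (a' k a c).1
  have e' := fun k (a1 : m ≤ k) (c : k ≤ i) => (a W hW k a1 (c.trans i1)).1
  have Z : ∀ k ≤ i, (G.fm univ (fun _ => 1) W b J k).Z =
      (G.fh univ (fun _ => 1) W' b J b' J' i k).Z := fun k hk => by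
    rw [fm_Z (hk.trans i1), fh, fw_Z k hk]
    funext x
    rw [show ((G.fm univ (fun _ => 1) W' b' J' i).hy _).Z x = _ from congrFun (fm_Z i2) x, zs_zs i2 hk,
      hW, hW', h.zs_box (hk.trans i1), h.zs_box (hk.trans i2)]
  have pu : ∀ k, (G.Q (k + 1) ^ 212)⁻¹ ≤ (G.Q k ^ 210)⁻¹ := fun k =>
    (h.om_succ k _).trans (h.om_mono k (by norm_num))
  have ω0 := fun k => (inv_pos.2 (pow_pos (h.Q0 k) 100)).le
  have b0 := fm_bs (G := G) (A := univ) (F := fun _ : Fin 2 => 1) (W := W) (b := b) m (mi.trans i1)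
  have D := h.dn_two (J := J) (z := fun k => G.zz b J (k + 1)) (ρ := fun _ => ρ) (i := i) (m := m)
    (Y := G.fh univ (fun _ => 1) W' b J b' J' i) (A := univ)
    (Y' := fun k => (G.fm univ (fun _ => 1) W b J k).sc γ) (by simp) (fun _ => ρ0)
    (fun k a c => ⟨(A.gd _ (by omega)).tz, fw_step c, by rw [fs_sc, ← fm_step (by omega)],
      (e _ (by omega) c).fd.fi.mono (fun _ => ρ0) (fun _ => r1) le_rfl fun _ => Subset.rfl,
      Z _ c ▸ (e' _ (by omega) c).fd.fi.sc (h.ρ0 _) (fun _ => ρ0) fun _ => r2,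
      fun s hs => pu_mono ((e _ (by omega) c).pu s fun x => (hs x).trans_le r1) (pu k),
      fun s hs => pu_mono ((e' _ (by omega) c).pu _ (pd_scale (fun _ => σ0) (fun _ => r2) hs)) (pu k)⟩)
    (fun k a c => h.w2_iv (e k a c) (e' k a c))
    (h.w2_dn (e i mi le_rfl) (e' i mi le_rfl) hγ ρ0 ((mul_le_mul_of_nonneg_right r1
      (pow_pos (h.Q0 i) _).le).trans (h.sig_up σ0 (div_mul_cancel₀ _ (pow_pos (h.Q0 m) _).ne').le mi)))
    (h.b0 i) (fun w => h.w2_bot (A.gd m (mi.trans i1)).tz (mi.trans i1) (mi.trans i2) hρ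
      (e m le_rfl mi) (e' m le_rfl mi)
      ((a' m le_rfl mi).2.1 ▸ h.sz_le (h.hy_dt A B i1 i2 (h.dfc A B hJ hi) m mi).sz
        (inv_pos.2 (pow_pos (h.Q0 m) _)).le le_rfl le_rfl (h.om_mono m (by norm_num)))
      (b0 ▸ h.sz_le (A.gd m (mi.trans i1)).dt.sz (sqrt_nonneg _) (h.u_one m) (h.u_one m)
        ((h.hy_sg m).trans (h.om_mono m (by norm_num)))) hγ
      (by rw [(a' m le_rfl mi).2.1, b0]; exact P.dh)
      (fun x => (a' m le_rfl mi).2.2 x ▸ (a W hW m le_rfl (mi.trans i1)).2 x ▸ P.du) d d' ε0)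
    (by have := (h.sz_nn P.dh).1; have := (h.sz_nn P.du).1; positivity) hw hm hk univ Subset.rfl
  rw [Fin.prod_const, Fy.sc_jt, card_fin] at D
  exact h.sz_up D (ω0 k) hx hx

/-- the hybrid tower with one ratio for all levels -/
theorem hy_all (hp : G.Pu) (A : G.Tu b J) (B : G.Tu b' J') (hJ : J ≤ J')
    (hi : i + 20 * (405 * G.K + 1) + 1 ≤ J) (e : m + 160 * G.Bk i = i) :
    G.bb m ≤ G.L m ^ (4 * G.Bk i) ∧ (i - m : ℕ) ≤ G.Q m ∧ ∃ γ : ℝ, ∀ k n, m ≤ k → k + 40 * n ≤ i →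
      |γ - 1| ≤ 4 / G.Q k ^ 30 ∧ G.g m ^ 2 ≤ 2 * G.g k ^ 2 ∧ √(G.g m) ≤ 2 * √(G.g k) ∧
      G.Hy b J b' J' i k γ (31 / G.L k ^ n + G.Q k ^ 508 * √(G.g k)) (G.bb k / G.L k ^ n)
        (G.hy b J b' J' i) (G.uh b J b' J' i) := by
  have i1 : i ≤ J := by omega
  have i2 := i1.trans hJ
  have hd := h.dfc (z := G.zz b J i) A B hJ hi
  have TA : G.TM b J := fun _ => h.tan_main hp A
  have TB : G.TM b' J' := fun _ => h.tan_main hp B
  have u : ∀ j ≤ i, i ≤ j + 160 * G.Bk i → 2 * G.u i ≤ G.bb j := fun j h1 h2 => by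
    have := (h.win1 h1 le_rfl (by omega)).2.2
    have := mul_le_mul_of_nonneg_left (h.inv_c i (j := 400) (by norm_num)) (h.b0 i).le
    rw [Gl.u, div_eq_mul_inv]
    linarith [h.b0 j]
  have v1 : G.bb m ≤ G.L m ^ (4 * G.Bk i) := ((h.sch.le m).1.trans (h.sch.upp m)).trans
    (pow_le_pow_right₀ (le_trans (by norm_num) (h.L1 m))
      (Nat.mul_le_mul_left 4 (h.B_mono (show m ≤ i by omega))))
  have v2 : ((i - m : ℕ) : ℝ) ≤ G.Q m := le_trans (Nat.cast_le.2 ((Nat.lt_pow_self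
    (by norm_num)).le.trans (h.pow_low (by omega) (by omega)))) (h.LQ m)
  obtain ⟨γ, γ1, s⟩ := h.uh_cmp (m := m) (n := 4 * G.Bk i) A B i1 i2 hd hp TA TB (by omega)
    ((u m (by omega) e.ge).trans v1) (h.win1 (by omega) le_rfl (by omega)).2.2
    (v2.trans (le_self_pow₀ (h.Q1 m) (by norm_num)))
  refine ⟨v1, v2, γ, fun k n hm hk => ?_⟩
  obtain ⟨-, w1, w2⟩ := h.win1 (j := i) hm (by omega) (by omega)
  have Q0 := h.Q0 k
  have Qm := h.Q0 m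
  have L0 : (0 : ℝ) < G.L k ^ n := pow_pos (by linarith [h.L1 k]) _
  have γ2 : |γ - 1| ≤ 4 / G.Q k ^ 30 := γ1.trans (by
    rw [show 60 = 2 * 30 from rfl, pow_mul]; gcongr)
  have g2 : G.g m ^ 2 ≤ 2 * G.g k ^ 2 := le_of_mul_le_mul_left (by
    nlinarith [h.bg m, h.bg k, mul_le_mul_of_nonneg_right w2 (sq_nonneg (G.g k))]) (h.b0 m)
  have g1 : √(G.g m) ≤ 2 * √(G.g k) := by
    have a1 := h.g0 k
    have a2 : G.g m ≤ 2 * G.g k := le_of_sq_le_sq (by nlinarith) (by linarith)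
    exact sqrt_le_iff.2 ⟨by positivity, by rw [mul_pow, sq_sqrt a1.le]; linarith⟩
  have x1 : G.Q m ^ 507 * √(G.g m) ≤ G.Q k ^ 508 * √(G.g k) :=
    (mul_le_mul (pow_le_pow_left₀ Qm.le (h.Q_mono hm) _) g1 (sqrt_nonneg _)
      (pow_pos Q0 _).le).trans (by
        nlinarith [h.qpw k (i := 507) (j := 508) (by norm_num), sqrt_nonneg (G.g k), pow_pos Q0 507])
  have o0 := (inv_pos.2 (pow_pos Q0 100)).le
  have y1 : 2 * G.u i / G.L k ^ n ≤ G.bb k / G.L k ^ n := by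
    gcongr; exact u k (by omega) (by omega)
  refine ⟨γ2, g2, g1, hy_top, fun _ => hy_step, fun j hj => h.bz_hyb (h.hy_dt A B i1 i2 hd j hj),
    fun j hj => (h.hy_tg A B i1 i2 hd hj).2.1, uh_top, fun _ => uh_step,
    fun j hj => (h.uh_tn A B i1 i2 hd hp TB j hj).sz, γ2.trans ?_,
    sz_gen (h.rh0 k) Q0.le (s k n hm hk) (by linarith) (by linarith)
      (mul_le_mul (h.om_mono k (by norm_num)) (by linarith) (add_nonneg (by positivity)
        (mul_nonneg (pow_pos Qm _).le (sqrt_nonneg _))) o0),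
    h.sz_up (h.hy_dif A B i1 i2 hd hk) o0 y1 y1⟩
  linarith [h.inv_c k (j := 30) (by norm_num), div_eq_mul_inv 4 (G.Q k ^ 30), inv_pos.2 (pow_pos Q0 30)]

theorem cmp_num {β L L' δ η : ℝ} (hρ : 2 * ρ = G.sg m) (hβ : β ≤ 2 * G.bb m) (hL : G.bb m ≤ L')
    (L0 : 0 < L) (η0 : 0 < η) (h1 : L⁻¹ ≤ δ) (h2 : √(G.g m) ≤ 2 * δ) (h3 : η⁻¹ ≤ δ) :
    (4 * β / L + 2 * (2 * (64 * (G.bb m / L') + 128 * ρ * (31 / L' + G.Q m ^ 508 * √(G.g m)) +
      85000 * ρ ^ 2 * (G.g m ^ 2 / η)))) / ρ ^ 2 ≤ 5000 * (G.Q m ^ 2400 * G.g m ^ 2 * δ) := by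
  have q := h.Q0 m
  have b0 := h.b0 m
  have g0 := h.g0 m
  have L1 := b0.trans_le hL
  have δ0 := (inv_pos.2 L0).trans_le h1
  have ρ0 : 0 < ρ := by linarith [div_pos b0 (pow_pos q 1200), show G.sg m = _ / _ from rfl]
  have e : ρ⁻¹ = 2 * (G.Q m ^ 1200 * G.g m ^ 2) := by
    rw [eq_inv_of_mul_eq_one_right (h.bg m), ← div_eq_mul_inv, ← inv_div, ← sg, ← hρ]
    field_simp
  have s1 : G.g m ^ 2 ≤ √(G.g m) := (pow_le_of_le_one g0.le (h.g1 m) two_ne_zero).trans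
    ((le_sqrt g0.le g0.le).2 (pow_le_of_le_one g0.le (h.g1 m) two_ne_zero))
  have s2 : L'⁻¹ ≤ G.g m ^ 2 := (inv_anti₀ b0 hL).trans_eq (eq_inv_of_mul_eq_one_right (h.bg m)).symm
  have a1 : β / L * ρ⁻¹ ^ 2 ≤ 8 * (G.Q m ^ 2400 * G.g m ^ 2 * δ) := by
    rw [div_eq_mul_inv, e]
    calc _ ≤ 2 * G.bb m * δ * (2 * (G.Q m ^ 1200 * G.g m ^ 2)) ^ 2 := by gcongr
      _ = 8 * (G.Q m ^ 2400 * G.g m ^ 2 * δ) * (G.bb m * G.g m ^ 2) := by ring
      _ = _ := by rw [h.bg, mul_one]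
  have a2 : G.bb m / L' * ρ⁻¹ ^ 2 ≤ 8 * (G.Q m ^ 2400 * G.g m ^ 2 * δ) := by
    rw [e]
    calc _ ≤ 1 * (2 * (G.Q m ^ 1200 * G.g m ^ 2)) ^ 2 := by gcongr; exact (div_le_one L1).2 hL
      _ = 4 * (G.Q m ^ 2400 * G.g m ^ 2 * G.g m ^ 2) := by ring
      _ ≤ 4 * (G.Q m ^ 2400 * G.g m ^ 2 * (2 * δ)) := by gcongr; exact s1.trans h2
      _ = _ := by ring
  have a3 : (31 / L' + G.Q m ^ 508 * √(G.g m)) * ρ⁻¹ ≤ G.Q m ^ 2400 * G.g m ^ 2 * δ := by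
    have t1 := h.qpw m (show 0 < 508 by norm_num)
    have t2 := h.qpw m (show 1708 < 2400 by norm_num)
    rw [e, div_eq_mul_inv]
    calc _ ≤ (G.Q m ^ 508 * (2 * δ) + G.Q m ^ 508 * (2 * δ)) * (2 * (G.Q m ^ 1200 * G.g m ^ 2)) := by
          gcongr
          exacts [by linarith [pow_zero (G.Q m)], s2.trans (s1.trans h2)]
      _ = 8 * G.Q m ^ 1708 * G.g m ^ 2 * δ := by ring
      _ ≤ _ := by gcongr; linarith [pow_pos q 1708]
  have a4 : 340000 * (G.g m ^ 2 / η) ≤ G.Q m ^ 2400 * G.g m ^ 2 * δ := by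
    rw [mul_assoc, div_eq_mul_inv]
    exact mul_le_mul ((h.cQ m (by norm_num)).trans (le_self_pow₀ (h.Q1 m) (by norm_num)))
      (by gcongr) (by positivity) (by positivity)
  refine le_trans (le_of_eq ?_) (show 4 * (β / L * ρ⁻¹ ^ 2) + 256 * (G.bb m / L' * ρ⁻¹ ^ 2) +
    512 * ((31 / L' + G.Q m ^ 508 * √(G.g m)) * ρ⁻¹) + 340000 * (G.g m ^ 2 / η) ≤ _ by
      linarith [mul_pos (mul_pos (pow_pos q 2400) (pow_pos g0 2)) δ0])
  field_simp
  ring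

theorem hp3 (hp : G.Pu) (hB : (41 * pT c + 3000) * G.K ≤ G.Bk l)
    (e : m + 160 * G.Bk (G.li c l) = G.li c l) (a : ∀ b J, G.Tu b J → G.W1 b J m ∧ G.W1 b J l ∧
      ∀ k, m ≤ k → k ≤ J → G.D2s b J k (G.g k ^ 2 / G.Q k ^ (2 * pT c))) : G.Hp3 c l := by
  intro b b' J' t t' hJ
  have o : l ≤ G.lk c l := Nat.le_add_right _ _
  have o' : G.lk c l ≤ G.li c l := Nat.le_add_right _ _
  have o2 : G.li c l ≤ G.lJ c l := (Nat.le_add_right _ _).trans (Nat.le_add_right _ _)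
  have hK : (4 * pT c + 3000) * G.K ≤ G.Bk (G.lk c l) :=
    ((Nat.mul_le_mul_right _ (by omega)).trans hB).trans (h.B_mono o)
  have ml : m ≤ l := by
    have := h.B_mono (o.trans o')
    have : G.li c l = l + (41 * pT c + 2) * G.K := by rw [li, lk]; ring
    have : (41 * pT c + 2) * G.K ≤ (41 * pT c + 3000) * G.K := Nat.mul_le_mul_right _ (by omega)
    omega
  obtain ⟨v1, v2, γ, H⟩ := h.hy_all hp t t' hJ le_rfl e
  obtain ⟨e1, g2, g1, Y⟩ := H (G.lk c l) (G.K * pT c) (ml.trans o) le_rfl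
  obtain ⟨-, w1, -⟩ := h.win1 (j := G.li c l) ml (o.trans o') (by omega)
  have d : ∀ j, m ≤ j → ∀ k, j ≤ k → k ≤ J' → G.D2s b' J' k (G.Q k ^ 200 * G.g k ^ 2) :=
    fun j hj k a1 a2 => ((a b' J' t').2.2 k (hj.trans a1) a2).mono ((div_le_self (sq_nonneg _)
      (one_le_pow₀ (h.Q1 k))).trans (le_mul_of_one_le_left (sq_nonneg _) (one_le_pow₀ (h.Q1 k))))
  have S := fun W W' hW hW' x' => h.jt_cmp (W := W) (W' := W') (x' := x')
    (n := G.K * pT c) t t' hJ le_rfl (ml.trans o) le_rfl (v2.trans (le_self_pow₀ (h.Q1 m)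
      (by norm_num))) (mul_div_cancel₀ _ two_ne_zero) (a b _ t).1
    (h.hy_w2 hp t t' hJ le_rfl (a b' J' t').1 hW' (d m le_rfl)) hW hW'
    (H m (4 * G.Bk (G.li c l)) le_rfl (by omega)).2.2.2 ((a b _ t).2.2 m le_rfl (by omega))
    ((a b' J' t').2.2 m le_rfl (by omega)) (div_pos (pow_pos (h.g0 m) _) (pow_pos (h.Q0 m) _)).le
  have T := fun W hW => h.hy_w2 (W := W) hp t t' hJ le_rfl (a b' J' t').2.1 hW (d l ml)
  have w2 := (h.win1 (show m ≤ G.li c l by omega) le_rfl (by omega)).2.2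
  have q := h.Q_mono o
  unfold Hp3 at *
  clear o' o2 H e
  generalize G.lk c l = k at *
  have q0 := h.Q0 l
  have q1 := h.Q0 k
  have q2 := h.Q0 m
  have a1 : (G.Q k ^ pT c)⁻¹ ≤ (G.Q l ^ pT c)⁻¹ := by gcongr
  have a0 : 0 < (G.Q k ^ pT c)⁻¹ := by positivity
  have g : G.Q k ^ 508 * √(G.g k) ≤ (G.Q k ^ pT c)⁻¹ := by
    rw [inv_eq_one_div, le_div_iff₀' (by positivity), ← mul_assoc, ← pow_add]
    refine le_of_sq_le_sq (le_of_sq_le_sq ?_ (by norm_num)) zero_le_one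
    rw [mul_pow, mul_pow, sq_sqrt (h.g0 k).le, one_pow, one_pow, ← h.bg k, Q, ← pow_mul, ← pow_mul,
      ← pow_mul]
    exact mul_le_mul_of_nonneg_right (h.Lbk k (by nlinarith)) (sq_nonneg _)
  rw [pow_mul, ← Q] at Y S
  refine ⟨γ, e1.trans (le_trans ?_ (inv_anti₀ q0 q)), { Y with
    du := h.sz_le Y.du (by positivity) ?_ ?_ le_rfl
    dh := h.sz_le Y.dh (by positivity) ?_ ?_ le_rfl }, fun W W' hW hW' => ⟨T W' hW',
      S W W' hW hW' _ ((h.cmp_num (mul_div_cancel₀ _ two_ne_zero) w2 v1 (by positivity)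
        (by positivity) a1 (by
          linarith [le_mul_of_one_le_left (sqrt_nonneg (G.g k)) (one_le_pow₀ (n := 508) (h.Q1 k))])
        (by rw [pow_mul]; gcongr)).trans ?_)⟩⟩
  · have := h.inv_le k (i := 1) (j := 30) (by norm_num)
    rw [pow_one] at this
    linarith [div_eq_mul_inv 4 (G.Q k ^ 30), inv_pos.2 (pow_pos q1 30)]
  iterate 4 simp only [div_eq_mul_inv]; nlinarith [h.b0 k]
  calc _ ≤ 5000 * (G.Q l ^ 2400 * (2 * G.g k ^ 2) * (G.Q l ^ pT c)⁻¹) := by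
        gcongr; exact h.Q_mono ml
    _ = G.g k ^ 2 * (1 / G.Q l ^ pT c * (10000 * G.Q l ^ 2400)) := by ring
    _ ≤ _ := by
        gcongr
        linarith [h.qpw l (show 2400 < 2401 by norm_num), h.qpw l (show 2401 < 2500 by norm_num),
          pow_pos q0 2400]

end Ok

end Gl

/-- the comparison of the second jets at high levels -/
theorem hy_pack3 {G : Gl} (h : G.Oks) (a : AfU G.c G.Kt G.K0) (c : ℕ) :
    ∀ᶠ l in atTop, ∀ m, (G.wm m).Hp3 c l := by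
  have o := (h 0).1
  obtain ⟨j, hj⟩ := eventually_atTop.1 ((w1 h a).and (d2_small h a (2 * pT c)))
  filter_upwards [o.sch.Btop.eventually_ge_atTop ((41 * pT c + 3000) * G.K),
    eventually_ge_atTop j, eventually_forall_ge_atTop.2
      (o.ev_jL.and (o.sch.Btop.eventually_ge_atTop j))] with l h1 h2 h3 m
  obtain ⟨h4, h5⟩ := h3 (G.li c l) ((Nat.le_add_right _ _).trans (Nat.le_add_right _ _))
  have h6 : j + 160 * G.Bk (G.li c l) ≤ G.li c l := (Nat.lt_pow_self (by norm_num)).le.trans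
    ((o.pow_L _ (by change j ≤ G.Bk _ at h5; change _ ≤ 120 * (G.K + 4 * G.Bk _ + 1); omega)).trans h4)
  have h7 := Nat.le_sub_of_add_le h6
  exact (h m).1.hp3 (h m).2 h1 (Nat.sub_add_cancel (le_of_add_le_right h6)) fun b J t =>
    ⟨(hj _ h7).1 m b J t, (hj _ h2).1 m b J t, fun k h8 h9 => (hj _ (h7.trans h8)).2 m b J t h9 _
      le_rfl (pow_le_pow_right₀ ((h m).1.Q1 k) (by norm_num))⟩

end Pool.Agent.Lib.MP_7f377f_mp.RG.Q4.En
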