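import Pool.Agent.Lib.MP_7f377f_mp.G.S23R2
import Pool.Agent.Lib.MP_7f377f_mp.G.S23F1
import Pool.Agent.Lib.MP_7f377f_mp.G.Q5CmR
import Pool.Agent.Lib.MP_7f377f_mp.G.Q5Poly

/-! Small test sources with an overlapping big source: the geometry. -/

noncomputable section

open Pool.Agent.Lib.MP_7f377f_mp.Jet

set_option linter.unusedSectionVars false
variable [Pool.Agent.Lib.MP_7f377f_mp.GD]

namespace Pool.Agent.Lib.MP_7f377f_mp.YM7

/-- size and slope of a test function -/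
structure Nfn (f : R4 → ℝ) (Λ : ℝ) : Prop where
  pos : 0 < Λ
  bd : ∀ y, |f y| ≤ Λ
  lip : ∀ y z, |f y - f z| ≤ Λ * dist y z

theorem Tf.nf {k : ℕ} {f : Fin k → R4 → ℝ} {Λ δ : ℝ} (H : Tf f Λ δ) (i : Fin k) : Nfn (f i) Λ :=
  ⟨one_pos.trans_le H.one, H.bd i, H.lip i⟩

theorem Nfn.t1 {f : R4 → ℝ} {Λ X : ℝ} (H : Nfn f Λ) (h1 : 1 ≤ X) (h2 : Λ ≤ X)
    (h3 : ∀ y, f y ≠ 0 → ∀ l, |y l| ≤ X) : Tf1 f X :=
  t1_of h1 h3 (fun y => (H.bd y).trans h2) fun y z => (H.lip y z).trans (by gcongr)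

variable {n m lam : ℕ} [NeZero n] {κ : Type} {f : κ → R4 → ℝ} {Λ X s τ δ : κ → ℝ} {a : ℝ}
  {v : Weak.Site 4 n} {S : κ → κ → Prop} {D : κ → κ → ℕ} {c : Weak.Site 4 m}

/-- a change of the normalisations -/
theorem Clb.amp (h : Clb a s τ δ lam S D c (tsv X f s v)) (H : ∀ i, Tf1 (f i) (X i))
    (H' : ∀ i, Nfn (f i) (Λ i)) (s0 : ∀ i, 0 < s i) (hτ : ∀ i, 0 ≤ τ i)
    (hn : ∀ i, 2 * X i + 2 * s i < s i * n) : Clb a s τ δ lam S D c (tsv Λ f s v) := by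
  have k : ∀ i x μ ν, tsv Λ f s v i x μ ν ≠ 0 → tsv X f s v i x μ ν ≠ 0 := fun i x μ ν e =>
    mul_ne_zero (inv_ne_zero (one_pos.trans_le (H i).one).ne') (right_ne_zero_of_mul e)
  refine ⟨fun i => ⟨⟨fun x => tsv Λ f s v i x 0 0, fun x => ?_, fun x l => ?_, fun x μ ν => by
    simpa [tsv, tsr] using hτ i⟩, fun x μ ν e => (h.1 i).2 x μ ν (k _ _ _ _ e)⟩,
    fun i j u t t' e x μ ν y μ' ν' b b' => h.2 i j u t t' e _ _ _ _ _ _ (k _ _ _ _ b) (k _ _ _ _ b')⟩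
  · simp only [tsv, tsr]
    rw [abs_mul, abs_inv, abs_of_pos (H' i).pos, inv_mul_le_one₀ (H' i).pos]
    exact (H' i).bd _
  · simp only [tsv, tsr]
    rw [← mul_sub, abs_mul, abs_inv, abs_of_pos (H' i).pos, inv_mul_le_iff₀ (H' i).pos,
      add_sub_right_comm]
    exact grad_site (H' i).pos.le (fun y l t => by simpa using (H' i).lip (y + .single l t) y)
      ((H i).cube 0) (s0 i) (hn i) _ l

omit [NeZero n] in
theorem InT.mono {F : Src n} {δ δ' : ℝ} (h : InT a δ lam c F) (e : δ' ≤ δ) : InT a δ' lam c F :=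
  fun x μ ν u l => (h x μ ν u l).imp e.trans fun k => k.trans (by linarith)

omit [NeZero n] in
theorem Clb.mono {F : κ → Src n} {τ' δ' : κ → ℝ} {S' : κ → κ → Prop} {D' : κ → κ → ℕ}
    (h : Clb a s τ δ lam S D c F) (h1 : ∀ i, τ i ≤ τ' i) (h2 : ∀ i, δ' i ≤ δ i)
    (h3 : ∀ i j, S' i j → S i j ∧ D' i j ≤ D i j) : Clb a s τ' δ' lam S' D' c F :=
  ⟨fun i => ⟨(h.1 i).1.imp fun _ k => ⟨k.1, k.2.1, fun x μ ν => (k.2.2 x μ ν).trans (h1 i)⟩,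
    (h.1 i).2.mono (h2 i)⟩, fun i j u t t' e x μ ν y μ' ν' b b' =>
      (h.2 i j (h3 i j u).1 t t' e x μ ν y μ' ν' b b').imp fun _ => (h3 i j u).2.trans⟩

/-- a big source with index `0` and two small sources -/
def ts3 (L0 Λ d0 d a : ℝ) (f0 : R4 → ℝ) (f : Fin 2 → R4 → ℝ) (v : Weak.Site 4 n) : Fin 3 → Src n :=
  tsv ![L0, Λ, Λ] ![f0, f 0, f 1] (fun i => a / ![d0, d, d] i) v

/-- the separated pairs -/
abbrev Sm3 (i j : Fin 3) : Prop := i ≠ 0 ∧ j ≠ 0 ∧ i ≠ j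

theorem corr_ts3 [MeasurableSpace SU2] [BorelSpace SU2] (h : MeasureTheory.Measure SU2)
    [h.IsHaarMeasure] [MeasureTheory.IsProbabilityMeasure h] (b a : ℝ) {L0 Λ d0 d : ℝ}
    (h0 : L0 ≠ 0) (h1 : Λ ≠ 0) (h2 : d ≠ 0) (f0 : R4 → ℝ) (f : Fin 2 → R4 → ℝ)
    (v : Weak.Site 4 n) :
    corr h b n a (fun i y => ![fun y => f0 ((d0⁻¹ * d) • y), f 0, f 1] i (d⁻¹ • y)) =
      L0 * Λ ^ 2 * gcorr h b n (ts3 L0 Λ d0 d a f0 f v) := by
  have := corr_tsv h b (f := ![f0, f 0, f 1]) (Λ := ![L0, Λ, Λ]) (fun i => by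
    fin_cases i <;> assumption) a ![d0, d, d] v
  rw [Fin.prod_univ_three] at this
  rw [sq, ← mul_assoc]
  refine Eq.trans (congrArg _ (funext fun i => ?_)) this
  fin_cases i
  · funext y
    simp [smul_smul, h2]
  all_goals rfl

end Pool.Agent.Lib.MP_7f377f_mp.YM7

namespace Pool.Agent.Lib.MP_7f377f_mp.RG.Q4.En.Gl

open Finset Real Sg Br YM7

/-- the size of a cell at level `j` -/
def nz3 (G : Gl) (j u : ℕ) : ℕ := (2 * (u + 4 * G.L j ^ G.K0) + 1) ^ 4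

/-- the bound for the corrections -/
def mr4 (G : Gl) (j u k : ℕ) : ℝ :=
  2 ^ k * exp (256 * (cI (G.g j) * u ^ 4 + k * G.nz3 j u)) * exp (k * G.nz3 j u)

namespace Ok

variable {G : Gl} (h : G.Ok) {c i j l J k n m u v : ℕ} {Λ δ d a b w C Δ : ℝ}
  {ι κ : Type} [DecidableEq ι] [DecidableEq κ] {A : Finset ι} {B : ι → Prop} {W : ι → Finset St}
include h

omit [DecidableEq ι] in
theorem geo3_of {cl : ι → κ} {R : ℕ} (hl : l ≤ i) (h3 : Cls (G.N i) Δ A cl W)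
    (h4 : (40 * c + 46) * ((G.L j : ℝ) ^ G.K0 * G.rt i j) ≤ Δ)
    (uni : ∀ x ∈ A, ∀ y ∈ A, B x → B y → cl x = cl y → x = y)
    (hc : ∀ a, (A.filter (cl · = a)).card ≤ c) (hL : 1000 * 3 ^ c ≤ G.L j)
    (hR : ∀ a, ∃ y, ∀ x ∈ A, ¬ B x → cl x = a → W x ⊆ tb (G.N i) R {y})
    (hV : ((2 * (R / G.rt i l + 4 * G.L l ^ G.K0) + 1) ^ 4 : ℕ) ≤ G.Q l ^ 50) :
    G.Geo3 A B cl c W i l j :=
  ⟨fun _ a b => h.zs_cls h3 (by positivity) (by linarith) a b, uni, hc, hL, fun a =>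
    let ⟨_, e⟩ := hR a
    ⟨_, (Nat.cast_le.2 (h.zs_card Subset.rfl hl)).trans hV, fun x hx b u =>
      zs_mono (e x hx b u) l hl⟩⟩

/-- the separation of two sets at lower levels -/
theorem sep_zs {X X' : Finset St} (e : Sep (G.N i) Δ X X') (C0 : 0 ≤ C)
    (hΔ : (20 * C + 6) * ((G.L j : ℝ) ^ G.K0 * G.rt i j) ≤ Δ) (hj : j ≤ k) (hk : k ≤ i) :
    Sep (G.N k) (C * (G.p k).D) (G.zs X i k) (G.zs X' i k) :=
  h.zs_cls (A := univ) (cl := id) (W := fun t => cond t X X') (fun x _ y _ u => by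
    cases x <;> cases y
    exacts [(u rfl).elim, e.symm, e, (u rfl).elim]) C0 hΔ hj hk true (mem_univ _) false
    (mem_univ _) nofun

omit [DecidableEq ι] in
/-- sources which are separated at the top, down to level `l` -/
theorem cls_ds (S : Cls (G.N J) (G.ds J l) A id W) : (∀ n, l ≤ n → n ≤ J →
      Cls (G.N n) (3 * (G.p n).D) A id fun i => G.zs (W i) J n) ∧
    ∀ n, l + G.K0 + 1 ≤ n → n ≤ J → G.L n ≤ G.L l ^ 2 →
      Cls (G.N n) (G.L l * (G.p n).D) A id fun i => G.zs (W i) J n := by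
  refine ⟨fun _ a b => h.zs_cls S zero_le_three (by simp [ds]; norm_num) a b, fun n h1 h2 h3 =>
    h.zs_cls S (Nat.cast_nonneg _) ?_ le_rfl h2⟩
  have L := h.L_big l
  have a1 : G.L l ^ (G.K0 + 1) ≤ G.rt n l :=
    (Nat.pow_le_pow_right (by omega) (by omega)).trans (h.le_rt l (by omega))
  have a2 : (20 * G.L l + 6) * (G.L n ^ G.K0 * G.rt J n) ≤ G.ds J l := by
    rw [ds, ← h.rt_mul (show l ≤ n by omega) h2]
    calc _ ≤ 66 * G.L l * ((G.L l ^ 2) ^ G.K0 * G.rt J n) := by gcongr; omega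
      _ = 66 * (G.L l ^ G.K0 * (G.L l ^ (G.K0 + 1) * G.rt J n)) := by ring
      _ ≤ _ := by gcongr
  exact_mod_cast a2

omit h in
/-- a site near the middle of the cell -/
theorem ex_mid (a0 : 0 < a) (ad : a ≤ d) (lam : ℕ) : |a * (lam / 2 : ℕ) - a * lam / 2| ≤ d := by
  have e1 : (2 * (lam / 2 : ℕ) : ℝ) ≤ lam := by exact_mod_cast Nat.mul_div_le lam 2
  have e2 : (lam : ℝ) ≤ 2 * (lam / 2 : ℕ) + 1 := by exact_mod_cast (by omega : lam ≤ _)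
  exact abs_le.2 ⟨by nlinarith, by nlinarith⟩

variable (V : G.Lv c j l Λ δ d) (hl : l < J) (ha : a * 3 ^ G.e J = 1) (Λ1 : 1 ≤ Λ) (δ0 : 0 < δ)
  [NeZero (G.N J)] [NeZero m] (hn : G.N j = m * u) (hu : 3 ^ G.e j ≤ 3 * u)
include V hl ha Λ1 δ0 hn hu

omit [DecidableEq ι] in
/-- sources in cells; the small ones live near the middle -/
theorem geo_in3 [Fintype ι] {F : ι → Src (G.N J)} {cl : ι → Weak.Site 4 m}
    (P : ∀ x, YM7.InT a 10⁻¹ (G.rt J j * u) (cl x) (F x)) (P' : ∀ x, ¬ B x →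
      YM7.InT a (a * (G.rt J j * u : ℕ) / 2 - d * (Λ + 2)) (G.rt J j * u) (cl x) (F x))
    (uni : ∀ x y, B x → B y → cl x = cl y → x = y) (hc : ∀ y, (univ.filter (cl · = y)).card ≤ c) :
    G.Geo3 univ B cl c (fun x => sup (F x)) J l j ∧
      (∀ x, ((G.zs (sup (F x)) J j).card : ℝ) ≤ G.nz3 j u) ∧
      ∀ n ≤ l, ∀ x, ¬ B x → (G.zs (sup (F x)) J n).card ≤ G.Q l ^ 50 := by
  have _ := δ0
  have _ := hu
  have a0 := a_pos ha
  have hj := V.le.trans hl.le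
  have a3 : G.N J = m * (G.rt J j * u) := by rw [← h.rt_N hj, hn, mul_left_comm]
  have E := fun x e => h.sup_ball V hl ha Λ1 (P' x e)
  refine ⟨h.geo3_of hl.le (fun x _ y _ => sep_cell a3 a0 (P x) (P y)) ?_ (fun x _ y _ => uni x y)
    hc V.big (fun y => ⟨mid (G.rt J j * u) y, fun x _ e u => u ▸ E x e⟩)
    (h.vol_le V hl ha Λ1 le_rfl), fun x => Nat.cast_le.2 ?_, fun n e x u =>
      (Nat.cast_le.2 (h.zs_card (E x u) (e.trans hl.le))).trans (h.vol_le V hl ha Λ1 e)⟩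
  · have b1 := (h.Lb j (i := G.K0 + 1) (by have := h.B1; omega)).trans (h.b_e j)
    have b2 : (1000 * 3 ^ c : ℝ) ≤ G.L j := by exact_mod_cast V.big
    have b3 : (c : ℝ) + 1 ≤ 3 ^ c := by exact_mod_cast Nat.lt_pow_self (by norm_num)
    have b4 : 5 * (40 * c + 46) * (G.L j : ℝ) ^ G.K0 ≤ 3 ^ G.e j :=
      (mul_le_mul_of_nonneg_right (by linarith) (by positivity)).trans ((pow_succ' _ _).ge.trans b1)
    rw [← h.rt_e hj] at ha
    rw [le_div_iff₀ a0]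
    nlinarith [mul_le_mul_of_nonneg_right b4 (show 0 ≤ G.rt J j * a by positivity)]
  · have := h.zs_card (sup_cell (h.N_odd J) a0 (by norm_num) (P x)) hj
    rwa [Nat.mul_div_cancel_left _ (Nat.cast_pos.1 (rt_pos _ _))] at this

variable {f : κ → R4 → ℝ} {Lm X dd am : κ → ℝ} {S : κ → κ → Prop} {D : κ → κ → ℕ}
  (hd : ∀ i, d ≤ dd i) (hX : ∀ i, dd i * X i ≤ 50⁻¹)
include hd hX

/-- the test sources: scales `dd`, supports of size `dd * X`, normalisations `Lm` -/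
theorem clb_ts (H : ∀ i, Tf1 (f i) (X i)) (H' : ∀ i, Nfn (f i) (Lm i))
    (hv : |a * v - a * (G.rt J j * u : ℕ) / 2| ≤ d)
    (hS : ∀ i j, S i j → ∀ y z, f i ((dd i)⁻¹ • y) ≠ 0 → f j ((dd j)⁻¹ • z) ≠ 0 →
      ∃ l, D i j * a ≤ |y l - z l|) :
    Clb (m := m) a (fun i => a / dd i) (fun _ => 0)
      (fun i => a * (G.rt J j * u : ℕ) / 2 - (dd i * X i + d)) (G.rt J j * u) S D 0
      (tsv Lm f (fun i => a / dd i) (Fi.cst (G.N J) fun _ => v)) := by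
  have a0 := a_pos ha
  have d0 := V.d0
  have a1 := d_le V Λ1 δ0
  have a2 := h.lam_ge V hl ha hu
  have a3 : G.rt J j * u ≤ G.N J := by
    rw [← h.rt_N (V.le.trans hl.le), hn]
    exact Nat.mul_le_mul_left _ (Nat.le_mul_of_pos_left _ (NeZero.pos m))
  have a4 := mul_le_mul_of_nonneg_left (Nat.cast_le (α := ℝ).2 a3) a0.le
  have a5 := (div_le_one d0).1 (h.s_le V hl ha).1
  have a6 : d ≤ 100⁻¹ := by nlinarith
  refine (clb_mid H a0 (fun i => a5.trans (hd i)) (fun _ => le_rfl) a3 (fun i => by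
    linarith [hX i]) (fun i => by linarith [hX i]) (fun i => by linarith) hS).amp H H'
    (fun i => div_pos a0 (d0.trans_le (hd i))) (fun _ => le_rfl) fun i => ?_
  have := d0.trans_le (hd i)
  rw [← sub_pos, show a / dd i * G.N J - (2 * X i + 2 * (a / dd i)) =
    (a * G.N J - 2 * (dd i * X i) - 2 * a) / dd i by field_simp; ring]
  exact div_pos (by linarith [hX i]) this

variable [Fintype κ] {E : κ → Prop}

omit hd in
/-- the geometry of the arrays -/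
theorem geo_arr3 (hc : Fintype.card κ ≤ c) (uni : ∀ i j, E i → E j → i = j)
    (hE : ∀ i, ¬ E i → dd i * X i ≤ d * Λ) (hS : ∀ i j, i ≠ j → ¬ E i → ¬ E j →
      S i j ∧ G.ds J l ≤ D i j) {s τ : κ → ℝ} {F : Weak.Site 4 m → κ → Src (G.N J)}
    (hF : ∀ y, Clb a s τ (fun i => a * (G.rt J j * u : ℕ) / 2 - (dd i * X i + 2 * d))
      (G.rt J j * u) S D y (F y)) :
    G.Geo3 univ (fun p : Weak.Site 4 m × κ => E p.2) Prod.fst c (fun p => sup (F p.1 p.2)) J l j ∧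
      (∀ p : Weak.Site 4 m × κ, ((G.zs (sup (F p.1 p.2)) J j).card : ℝ) ≤ G.nz3 j u) ∧
      ∀ p q : Weak.Site 4 m × κ, p ≠ q → ¬ E p.2 → ¬ E q.2 →
        Sep (G.N J) (G.ds J l) (sup (F p.1 p.2)) (sup (F q.1 q.2)) := by
  classical
  have a0 := a_pos ha
  have d0 := V.d0
  have a1 := d_le V Λ1 δ0
  have a2 := h.lam_ge V hl ha hu
  have a6 : d * 4 ≤ 100⁻¹ := by nlinarith
  have k : ∀ i, 10⁻¹ ≤ a * (G.rt J j * u : ℕ) / 2 - (dd i * X i + 2 * d) := fun i => by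
    linarith [hX i]
  have g := h.geo_in3 V hl ha Λ1 δ0 hn hu (B := fun p : Weak.Site 4 m × κ => E p.2)
    (F := fun p => F p.1 p.2) (cl := Prod.fst) (fun p => ((hF p.1).1 p.2).2.mono (k _))
    (fun p e => ((hF p.1).1 p.2).2.mono (by linarith [hE _ e]))
    (fun p q e e' u => Prod.ext u (uni _ _ e e')) fun y => le_trans (card_le_card_of_injOn Prod.snd
      (fun _ _ => mem_univ _) fun p hp q hq e =>
        Prod.ext ((mem_filter.1 hp).2.trans (mem_filter.1 hq).2.symm) e) hc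
  refine ⟨g.1, g.2.1, fun p q e u u' => clb_id (by
    rw [← h.rt_N (V.le.trans hl.le), hn, mul_left_comm]) a0 k hF {p, q} ?_ (fun x hx y hy e => ?_)
    p (by simp) q (by simp) e⟩
  · have := h.ds_le V hl ha
    rw [← mul_div_assoc, div_le_iff₀ d0] at this
    rw [le_div_iff₀ a0]
    push_cast at this
    nlinarith [mul_pos d0 δ0]
  · have z : ∀ x ∈ ({p, q} : Finset _), ¬ E x.2 := by simpa using ⟨u, u'⟩
    exact (hS _ _ e (z x hx) (z y hy)).imp id Nat.cast_le.2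

omit hd in
/-- the geometry of one family -/
theorem geo_ts3 (hc : Fintype.card κ ≤ c) (uni : ∀ i j, E i → E j → i = j)
    (hE : ∀ i, ¬ E i → dd i * X i ≤ d * Λ) {s τ : κ → ℝ} {F : κ → Src (G.N J)}
    (hF : Clb (m := m) a s τ (fun i => a * (G.rt J j * u : ℕ) / 2 - (dd i * X i + d))
      (G.rt J j * u) S D 0 F) :
    G.Geo3 univ E (fun _ => (0 : Weak.Site 4 m)) c (fun i => sup (F i)) J l j ∧
      (∀ i, ((G.zs (sup (F i)) J j).card : ℝ) ≤ G.nz3 j u) ∧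
      ∀ n ≤ l, ∀ i, ¬ E i → (G.zs (sup (F i)) J n).card ≤ G.Q l ^ 50 := by
  have d0 := V.d0
  have a1 := d_le V Λ1 δ0
  have a2 := h.lam_ge V hl ha hu
  have a6 : d * 4 ≤ 100⁻¹ := by nlinarith
  exact h.geo_in3 V hl ha Λ1 δ0 hn hu (fun i => (hF.1 i).2.mono (by linarith [hX i]))
    (fun i e => (hF.1 i).2.mono (by linarith [hE _ e])) (fun i j e e' _ => uni i j e e')
    fun _ => (card_le_univ _).trans hc

omit hd in
/-- the moments of the test sources -/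
theorem red_ts3 (b0 : 0 ≤ b) (w0 : 0 < w) (m1 : 1 < m) {s : κ → ℝ}
    (hP : ∀ F : _ → κ → _, (∀ y, Clb a s (fun i => 4 * s i) (fun i => a * (G.rt J j * u : ℕ) / 2 -
      (dd i * X i + 2 * d)) (G.rt J j * u) S D y (F y)) → ∃ Y, G.Fe b J j
        (fun p : Weak.Site 4 m × κ => am p.2 • F p.1 p.2) w (G.nz3 j u) Y ∧ Y.Ec univ Prod.fst)
    {F : κ → Src (G.N J)} (hF : Clb (m := m) a s (fun _ => 0) (fun i => a * (G.rt J j * u : ℕ) / 2 -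
      (dd i * X i + d)) (G.rt J j * u) S (fun i j => D i j + 2) 0 F) {Y : Fy κ}
    (e : G.Fe b J j (fun i => am i • F i) w (G.nz3 j u) Y) :
    Red (YM7.ex (Fi.tr haar) b (G.N J)) (fun i => am i • F i) w (G.mr4 j u (Fintype.card κ))
      (ce Y.E) := by
  have d0 := V.d0
  have a1 := d_le V Λ1 δ0
  have a2 := h.lam_ge V hl ha hu
  have a6 : d * 4 ≤ 100⁻¹ := by nlinarith
  exact h.red_clb b0 (V.le.trans hl.le) w0 hn m1 (a_pos ha) (fun i => by linarith [hX i])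
    (fun i => by linarith [(div_le_one d0).1 (h.s_le V hl ha).1]) (fun _ => (zero_add _).le) hP hF e
    (Nat.cast_nonneg _)

omit hd hX [Fintype κ] [DecidableEq κ]

variable {f : Fin 2 → R4 → ℝ} {f0 : R4 → ℝ} {X0 L0 d0 : ℝ} (H : YM7.Tf f Λ δ)
  (H0 : Tf1 f0 X0)
  (H1 : Nfn f0 L0) (h0 : d ≤ d0) (h1 : d0 * X0 ≤ 50⁻¹)
  (hv : |a * v - a * (G.rt J j * u : ℕ) / 2| ≤ d)
include H H0 H1 h0 h1 hv

omit h hl ha hn hu H H0 H1 hv [NeZero (G.N J)] [NeZero m] in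
theorem ts3_par : (∀ i, d ≤ ![d0, d, d] i) ∧ (∀ i, ![d0, d, d] i * ![X0, Λ, Λ] i ≤ 50⁻¹) ∧
    ∀ i, ¬ i = 0 → ![d0, d, d] i * ![X0, Λ, Λ] i ≤ d * Λ := by
  have a1 := d_le V Λ1 δ0
  have a2 : d * Λ ≤ 50⁻¹ := by nlinarith [V.d0]
  simp only [Fin.forall_fin_succ, IsEmpty.forall_iff]
  simp [h0, h1, a2]

/-- a big source and two small sources -/
theorem clb_ts3 {S : Fin 3 → Fin 3 → Prop} {D : Fin 3 → Fin 3 → ℕ} (hS : ∀ i j, S i j →
      (i ≠ 0 ∧ j ≠ 0 ∧ i ≠ j ∧ D i j ≤ G.ds J l + 2) ∨ (i = 0 ∧ j ≠ 0 ∧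
        ∀ y, f0 (d0⁻¹ • y) ≠ 0 → ∃ l, D i j * a + d * Λ ≤ |y l|)) :
    Clb (m := m) a (fun i => a / ![d0, d, d] i) (fun _ => 0) (fun i => a * (G.rt J j * u : ℕ) / 2 -
      (![d0, d, d] i * ![X0, Λ, Λ] i + d)) (G.rt J j * u) S D 0
      (ts3 L0 Λ d0 d a f0 f (Fi.cst (G.N J) fun _ => v)) := by
  obtain ⟨p1, p2, -⟩ := ts3_par V Λ1 δ0 h0 h1
  have e0 := V.d0
  have a0 := a_pos ha
  have k : ∀ i j : Fin 2, i ≠ j → ∀ y z : R4, f i (d⁻¹ • y) ≠ 0 → f j (d⁻¹ • z) ≠ 0 →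
      ∃ l', ((G.ds J l + 2 : ℕ) : ℝ) * a ≤ |y l' - z l'| := fun i j e y z hy hz =>
    (H.sep i j e _ _ hy hz).imp fun l' u => by
      have := (h.ds_le V hl ha).trans u
      rwa [PiLp.smul_apply, PiLp.smul_apply, ← smul_sub, smul_eq_mul, abs_mul, abs_inv,
        abs_of_pos e0, ← mul_div_assoc, ← div_eq_inv_mul, div_le_div_iff_of_pos_right e0] at this
  have k' : ∀ (i : Fin 2) (z : R4), f i (d⁻¹ • z) ≠ 0 → ∀ l, |z l| ≤ d * Λ := fun i z e l => by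
    have := H.cube i _ e l
    rwa [PiLp.smul_apply, smul_eq_mul, abs_mul, abs_inv, abs_of_pos e0, inv_mul_le_iff₀ e0] at this
  refine h.clb_ts V hl ha Λ1 δ0 hn hu p1 p2 (fun i => ?_) (fun i => ?_) hv fun i j s y z hy hz => ?_
  · fin_cases i
    exacts [H0, H.t1 0, H.t1 1]
  · fin_cases i
    exacts [H1, H.nf 0, H.nf 1]
  · rcases hS i j s with ⟨b1, b2, b3, b4⟩ | ⟨rfl, b2, b3⟩
    · refine Exists.imp (fun _ => le_trans (mul_le_mul_of_nonneg_right (Nat.cast_le.2 b4) a0.le)) ?_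
      fin_cases i <;> fin_cases j <;> first | exact (b1 rfl).elim | exact (b2 rfl).elim | skip
      exacts [(b3 rfl).elim, k 0 1 (by decide) y z hy hz, k 1 0 (by decide) y z hy hz, (b3 rfl).elim]
    · refine (b3 y hy).imp fun l u => ?_
      have : |z l| ≤ d * Λ := by
        fin_cases j
        exacts [(b2 rfl).elim, k' 0 z hz l, k' 1 z hz l]
      linarith [abs_sub_abs_le_abs_sub (y l) (z l)]

/-- the big source vanishes near the small ones -/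
theorem sep_ts3 {D0 : ℕ} (hD : ∀ y, f0 (d0⁻¹ • y) ≠ 0 → ∃ l, D0 * a + d * Λ ≤ |y l|) {i : Fin 3}
    (hi : i ≠ 0) : Sep (G.N J) D0 (sup (ts3 L0 Λ d0 d a f0 f (Fi.cst (G.N J) fun _ => v) 0))
      (sup (ts3 L0 Λ d0 d a f0 f (Fi.cst (G.N J) fun _ => v) i)) :=
  clb_sep (h.clb_ts3 V hl ha Λ1 δ0 hn hu H H0 H1 h0 h1 hv (S := fun i j => i = 0 ∧ j ≠ 0)
    (D := fun _ _ => D0) fun _ _ e => .inr ⟨e.1, e.2, hD⟩) ⟨rfl, hi⟩

/-- the small sources are separated -/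
theorem sep_ts3' : Sep (G.N J) (G.ds J l)
    (sup (ts3 L0 Λ d0 d a f0 f (Fi.cst (G.N J) fun _ => v) 1))
    (sup (ts3 L0 Λ d0 d a f0 f (Fi.cst (G.N J) fun _ => v) 2)) :=
  clb_sep (h.clb_ts3 V hl ha Λ1 δ0 hn hu H H0 H1 h0 h1 hv (S := Sm3) (D := fun _ _ => G.ds J l)
    fun _ _ e => .inl ⟨e.1, e.2.1, e.2.2, Nat.le_add_right _ _⟩) (i := 1) (j := 2) (by decide)

/-- the moments of a big source and two small sources -/
theorem red_run3 (b0 : 0 ≤ b) (w0 : 0 < w) (m1 : 1 < m) {am : Fin 3 → ℝ}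
    (hP : ∀ F : Weak.Site 4 m → Fin 3 → Src (G.N J),
      (∀ y i, Nrm (a / ![d0, d, d] i) (4 * (a / ![d0, d, d] i)) (F y i)) →
      G.Geo3 univ (fun p : Weak.Site 4 m × Fin 3 => p.2 = 0) Prod.fst c
        (fun p => sup (F p.1 p.2)) J l j →
      (∀ p : Weak.Site 4 m × Fin 3, ((G.zs (sup (F p.1 p.2)) J j).card : ℝ) ≤ G.nz3 j u) →
      (∀ p q : Weak.Site 4 m × Fin 3, p ≠ q → ¬ p.2 = 0 → ¬ q.2 = 0 →
        Sep (G.N J) (G.ds J l) (sup (F p.1 p.2)) (sup (F q.1 q.2))) → ∃ Y, G.Fe b J j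
        (fun p : Weak.Site 4 m × Fin 3 => am p.2 • F p.1 p.2) w (G.nz3 j u) Y ∧ Y.Ec univ Prod.fst)
    (hc : 3 ≤ c) {Y : Fy (Fin 3)} (e : G.Fe b J j
      (fun i => am i • ts3 L0 Λ d0 d a f0 f (Fi.cst (G.N J) fun _ => v) i) w (G.nz3 j u) Y) :
    Red (YM7.ex (Fi.tr haar) b (G.N J))
      (fun i => am i • ts3 L0 Λ d0 d a f0 f (Fi.cst (G.N J) fun _ => v) i) w (G.mr4 j u 3)
      (ce Y.E) := by
  obtain ⟨-, p2, p3⟩ := ts3_par V Λ1 δ0 h0 h1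
  exact h.red_ts3 V hl ha Λ1 δ0 hn hu p2 b0 w0 m1 (S := Sm3) (D := fun _ _ => G.ds J l)
    (fun F hF =>
      let ⟨g1, g2, g3⟩ := h.geo_arr3 V hl ha Λ1 δ0 hn hu p2 (E := (· = 0)) hc
        (fun _ _ e e' => e.trans e'.symm) p3 (fun _ _ e u u' => ⟨⟨u, u', e⟩, le_rfl⟩) hF
      hP F (fun y i => ((hF y).1 i).1) g1 g2 g3)
    (h.clb_ts3 V hl ha Λ1 δ0 hn hu H H0 H1 h0 h1 hv fun _ _ e => .inl ⟨e.1, e.2.1, e.2.2, le_rfl⟩) e

/-- the geometry of a big source and two small sources -/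
theorem geo_run3 (hc : 3 ≤ c) {F : Fin 3 → Src (G.N J)}
    (hF : F = ts3 L0 Λ d0 d a f0 f (Fi.cst (G.N J) fun _ => v)) :
    (∀ i, Nrm (a / ![d0, d, d] i) 0 (F i)) ∧
      G.Geo3 univ (· = 0) (fun _ => (0 : Weak.Site 4 m)) c (fun i => sup (F i)) J l j ∧
      (∀ i, ((G.zs (sup (F i)) J j).card : ℝ) ≤ G.nz3 j u) ∧
      (∀ n ≤ l, ∀ i, ¬ i = 0 → (G.zs (sup (F i)) J n).card ≤ G.Q l ^ 50) ∧
      Cls (G.N J) (G.ds J l) {1, 2} id fun i => sup (F i) := by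
  obtain ⟨-, p2, p3⟩ := ts3_par V Λ1 δ0 h0 h1
  have C := h.clb_ts3 V hl ha Λ1 δ0 hn hu H H0 H1 h0 h1 hv (S := Sm3) (D := fun _ _ => G.ds J l)
    fun _ _ e => .inl ⟨e.1, e.2.1, e.2.2, Nat.le_add_right _ _⟩
  rw [← hF] at C
  obtain ⟨g1, g2, g3⟩ := h.geo_ts3 V hl ha Λ1 δ0 hn hu p2 (E := (· = 0)) hc
    (fun _ _ e e' => e.trans e'.symm) p3 C
  have z : ∀ i ∈ ({1, 2} : Finset (Fin 3)), i ≠ 0 := by decide
  exact ⟨fun i => (C.1 i).1, g1, g2, g3, fun i hi j hj e => clb_sep C ⟨z i hi, z j hj, e⟩⟩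

end Ok

end Pool.Agent.Lib.MP_7f377f_mp.RG.Q4.En.Gl
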