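import Pool.Agent.Lib.MP_7f377f_mp.G.TsC
import Pool.Agent.Lib.MP_7f377f_mp.G.TsD
import Pool.Agent.Lib.MP_7f377f_mp.G.SmeF

/-! The short distance law, uniformly in the positions and the sizes of the sources. -/

noncomputable section

namespace Pool.Agent.Lib.MP_7f377f_mp.Ope

open MeasureTheory Filter Topology Set Real YM7 Pur MvPolynomial Weak

set_option linter.unusedSectionVars false

theorem norm_prod_sub {I K : Type} [NormedCommRing K] [NormOneClass K] (s : Finset I) {a b : I → K}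
    {M ε : ℝ} (M1 : 1 ≤ M) (ε0 : 0 ≤ ε)
    (h : ∀ i ∈ s, ‖a i‖ ≤ M ∧ ‖b i‖ ≤ M ∧ ‖a i - b i‖ ≤ ε) :
    ‖∏ i ∈ s, a i - ∏ i ∈ s, b i‖ ≤ s.card * M ^ s.card * ε := by
  classical
  induction s using Finset.induction_on with
  | empty => simp
  | insert i s hi ih =>
    have h1 := h i (Finset.mem_insert_self _ _)
    have h2 := ih fun j hj => h j (Finset.mem_insert_of_mem hj)
    have h3 : ‖∏ j ∈ s, b j‖ ≤ M ^ s.card := (Finset.norm_prod_le _ _).trans
      ((Finset.prod_le_prod (fun _ _ => norm_nonneg _) fun j hj =>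
        (h j (Finset.mem_insert_of_mem hj)).2.1).trans_eq (Finset.prod_const M))
    rw [Finset.prod_insert hi, Finset.prod_insert hi, Finset.card_insert_of_notMem hi,
      show a i * ∏ j ∈ s, a j - b i * ∏ j ∈ s, b j = a i * (∏ j ∈ s, a j - ∏ j ∈ s, b j) +
        (a i - b i) * ∏ j ∈ s, b j by ring]
    refine (norm_add_le _ _).trans ((add_le_add ((norm_mul_le _ _).trans
      (mul_le_mul h1.1 h2 (norm_nonneg _) (by linarith))) ((norm_mul_le _ _).trans
      (mul_le_mul h1.2.2 (h3.trans (pow_le_pow_right₀ M1 (Nat.le_add_right _ 1))) (norm_nonneg _)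
        ε0))).trans_eq ?_)
    push_cast
    ring

theorem cnt {ι : Type} [Fintype ι] [DecidableEq ι] {f : ι → R4 → ℝ} {X s M : ℝ} (s0 : 0 < s)
    (s1 : s ≤ X) (M0 : 0 ≤ M) (hc : ∀ i y, f i y ≠ 0 → ∀ l, |y l| ≤ X) (hb : ∀ i y, |f i y| ≤ X)
    {g : (ι → Fin 4 → ℤ) → ℝ} (hg : ∀ z, (∀ i, f i (YM5.pt s (z i)) ≠ 0) → |g z| ≤ M) :
    |∑' z, (∏ i, f i (YM5.pt s (z i))) * g z| ≤ (X * (3 * X / s) ^ 4) ^ Fintype.card ι * M := by
  have X0 : 0 < X := s0.trans_le s1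
  have N0 : 0 ≤ ⌊X / s⌋ := Int.floor_nonneg.2 (by positivity)
  rw [tsum_eq_sum (s := Fintype.piFinset fun _ => Fintype.piFinset fun _ =>
    Finset.Icc (-⌊X / s⌋) ⌊X / s⌋) fun z hz => ?_]
  · refine (Finset.abs_sum_le_sum_abs _ _).trans ((Finset.sum_le_card_nsmul _ _
      (X ^ Fintype.card ι * M) fun z _ => ?_).trans ?_)
    · by_cases e : ∀ i, f i (YM5.pt s (z i)) ≠ 0
      · rw [abs_mul, Finset.abs_prod]
        exact mul_le_mul ((Finset.prod_le_prod (fun _ _ => abs_nonneg _) fun i _ => hb i _).trans_eq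
          (Finset.prod_const X)) (hg z e) (abs_nonneg _) (by positivity)
      · obtain ⟨i, hi⟩ := not_forall.1 e
        rw [Finset.prod_eq_zero (Finset.mem_univ i) (not_not.1 hi), zero_mul, abs_zero]
        positivity
    · simp only [Fintype.card_piFinset, Int.card_Icc, Finset.prod_const, Finset.card_univ,
        Fintype.card_fin, nsmul_eq_mul, Nat.cast_pow]
      have : (((⌊X / s⌋ + 1 - -⌊X / s⌋).toNat : ℕ) : ℝ) ≤ 3 * X / s := by
        rw [← Int.cast_natCast, Int.toNat_of_nonneg (by omega), mul_div_assoc]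
        push_cast
        linarith [Int.floor_le (X / s), (one_le_div s0).2 s1]
      rw [mul_pow, ← mul_assoc, mul_comm (X ^ _)]
      gcongr
  · by_contra e
    refine hz (Fintype.mem_piFinset.2 fun i => Fintype.mem_piFinset.2 fun l =>
      Finset.mem_Icc.2 (abs_le.1 (Int.le_floor.2 ?_)))
    have := hc i _ (Finset.prod_ne_zero_iff.1 (left_ne_zero_of_mul e) i (Finset.mem_univ i)) l
    rwa [YM5.pt, abs_mul, abs_of_pos s0, ← le_div_iff₀' s0, ← Int.cast_abs] at this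

variable [GD] {k : ℕ}

theorem bump_dist (c : Fin 4 → ℤ) (y z : R4) : |bump 1 c y - bump 1 c z| ≤ 8 * dist y z := by
  refine (norm_prod_sub (M := 1) (ε := 2 * dist y z) (a := fun l => hat (y l / 1 - c l))
    (b := fun l => hat (z l / 1 - c l)) Finset.univ le_rfl (by positivity) fun l _ =>
    ⟨abs_hat _, abs_hat _, (hat_lip _ _).trans ?_⟩).trans_eq (by simp; ring)
  rw [sub_sub_sub_cancel_right, div_one, div_one]
  exact mul_le_mul_of_nonneg_left (PiLp.dist_apply_le y z l) two_pos.le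

theorem tf_piece {f : Fin k → R4 → ℝ} {X δ : ℝ} (H : Tf f X δ) (c : Fin k → Fin 4 → ℤ) :
    Tf (fun i y => bump 1 (c i) y * f i y) (9 * X) δ ∧ Dia 2 fun i y => bump 1 (c i) y * f i y := by
  have X1 := H.one
  have b : ∀ i y, |bump 1 (c i) y| ≤ 1 := fun i y => abs_prod_hat _ _
  refine ⟨⟨by linarith, H.pos, fun i y e l => (H.cube i y (right_ne_zero_of_mul e) l).trans
    (by linarith), fun i y => ?_, fun i y z => ?_, fun i j e y z e1 e2 =>
      H.sep i j e y z (right_ne_zero_of_mul e1) (right_ne_zero_of_mul e2)⟩, fun i y z e1 e2 l => ?_⟩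
  · rw [abs_mul]
    nlinarith [b i y, H.bd i y, abs_nonneg (f i y)]
  · rw [show bump 1 (c i) y * f i y - bump 1 (c i) z * f i z = bump 1 (c i) y * (f i y - f i z) +
      (bump 1 (c i) y - bump 1 (c i) z) * f i z by ring]
    refine (abs_add_le _ _).trans ?_
    rw [abs_mul, abs_mul]
    refine (add_le_add (mul_le_mul (b i y) (H.lip i y z) (abs_nonneg _) one_pos.le)
      (mul_le_mul (bump_dist _ y z) (H.bd i z) (abs_nonneg _) (by positivity))).trans_eq (by ring)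
  · have a1 := abs_le.1 (bump_supp one_pos (left_ne_zero_of_mul e1) l)
    have a2 := abs_le.1 (bump_supp one_pos (left_ne_zero_of_mul e2) l)
    exact abs_le.2 ⟨by linarith [a1.1, a2.2], by linarith [a1.2, a2.1]⟩

theorem loops_lq (K : Fin k → Fin k → Lb.Lab ℝ) (c : ℝ) (h1 : ∀ i j, Lb.an * K i j = K i j)
    (h2 : ∀ i j, K i j * Lb.an = K i j) :
    (Lb.lq (GD.d / 2 : ℝ) fun i j => if j = i then 0 else (c / 2) • K i j) =
      c ^ k * YM5.loops K := by
  let J : Lb.Lab ℝ := Matrix.diagonal fun a => if a.1 < a.2 then c else 0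
  have h3 : Lb.an * J * Lb.an = (c / 2) • Lb.an := by
    ext ⟨a, b⟩ ⟨c, d⟩
    simp only [Lb.mul_an, Lb.an_mul, J, Matrix.diagonal_apply, Prod.swap_prod_mk, Prod.mk.injEq,
      Matrix.smul_apply, smul_eq_mul]
    simp only [Lb.an, Matrix.of_apply, Prod.swap_prod_mk, Prod.mk.injEq]
    split_ifs <;> first | omega | ring
  have h4 : (Lb.lq (GD.d / 2 : ℝ) fun i j => if j = i then 0 else (c / 2) • K i j) =
      Lb.lq (GD.d / 2 : ℝ) fun i j => J * if j = i then 0 else K i j := by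
    trans Lb.lq (GD.d / 2 : ℝ) fun i j => (J * (Lb.an * if j = i then 0 else K i j)) * Lb.an
    · rw [← Lb.lq_move fun _ => Lb.an]
      simp only [← Matrix.mul_assoc, h3]
      simp only [Matrix.smul_mul, mul_ite, mul_zero, h1]
    · simp only [mul_ite, mul_zero, h1, ite_mul, zero_mul, Matrix.mul_assoc, h2]
  rw [h4, Lb.lq_der fun i => by simp]
  simp only [YM5.loops, loopSum, Finset.mul_sum]
  rw [Finset.sum_comm]
  refine Finset.sum_congr rfl fun σ _ => ?_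
  split_ifs with hσ
  · rw [Lb.tm, Finset.mul_sum]
    refine Finset.sum_congr rfl fun a _ => ?_
    simp only [← Finset.mul_sum]
    rw [Finset.sum_const, Finset.card_univ,
      Fintype.card_fun, Fintype.card_bool, Fintype.card_fin, nsmul_eq_mul, Nat.cast_pow,
      Nat.cast_ofNat, mul_left_comm (∏ _, _), mul_left_comm (c ^ k)]
    refine congrArg _ ?_
    rw [← Fin.prod_const k, ← Fin.prod_const k, ← Finset.prod_mul_distrib,
      ← Finset.prod_mul_distrib, ← Finset.prod_mul_distrib]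
    refine Finset.prod_congr rfl fun i _ => ?_
    rw [YM5.wt, if_neg (hσ i), Matrix.diagonal_mul]
    split_ifs <;> ring
  · simp

theorem an_kM (κ : Fin 4 → Fin 4 → (Fin 4 → ℤ) → ℝ) (v : Fin 4 → ℤ) :
    Lb.an * Matrix.of (kM κ v) = Matrix.of (kM κ v) ∧
      Matrix.of (kM κ v) * Lb.an = Matrix.of (kM κ v) := by
  constructor <;> ext a b
  · simp only [Lb.an_mul, Matrix.of_apply, kM, Prod.fst_swap, Prod.snd_swap]
    ring
  · simp only [Lb.mul_an, Matrix.of_apply, kM, Prod.fst_swap, Prod.snd_swap]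
    ring

theorem tf_inj {f : Fin k → R4 → ℝ} {X δ s : ℝ} (H : Tf f X δ) {z : Fin k → Fin 4 → ℤ}
    (hz : ∀ i, f i (YM5.pt s (z i)) ≠ 0) : Function.Injective z := fun i j e => by
  by_contra c
  obtain ⟨l, hl⟩ := H.sep i j c _ _ (hz i) (hz j)
  rw [e, sub_self, abs_zero] at hl
  exact hl.not_gt H.pos

variable [MeasurableSpace SU2] [BorelSpace SU2] {h : Measure SU2} [h.IsHaarMeasure]
  [IsProbabilityMeasure h]

theorem corr_sum {n : ℕ} [NeZero n] {Z : Type} [Fintype Z] (b a : ℝ) (g : Fin k → Z → R4 → ℝ) :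
    corr h b n a (fun i y => ∑ z, g i z y) = ∑ z : Fin k → Z, corr h b n a fun i => g i (z i) := by
  simp only [corr_eq, ← gM_apply]
  rw [← MultilinearMap.map_sum (gM h b k) fun i z x _ _ =>
    g i z (WithLp.toLp 2 fun l => a * (x l).valMinAbs)]
  congr 1
  funext i x _ _
  simp only [Finset.sum_apply]

theorem cmp3_all {ι : Type} {Φ : Filter ι} {n : ι → ℕ} [∀ p, NeZero (n p)] {a b : ι → ℝ}
    {P : ℝ → ℝ → Prop} {K C : ℕ} (H : Cmp3 h Φ n a b P (fun _ => Dia 2) K (C + 4 * K)) :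
    Cmp3 h Φ n a b (fun d X => P d (9 * X)) (fun _ _ => True) K C := by
  intro δ δ0 η η0 D₀
  filter_upwards [H δ δ0 η η0 (9 * max D₀ 1)] with d ⟨X, a₀, h1, h2, h3, h4, h5⟩
  obtain ⟨X, rfl⟩ : ∃ Y, X = 9 * Y := ⟨X / 9, by ring⟩
  have u1 := le_max_left D₀ 1
  have u2 := le_max_right D₀ 1
  have X1 : 1 ≤ X := by linarith
  refine ⟨X, a₀, by linarith, h2, h3, by linarith, h5.mono fun p ⟨n₀, _, b₀, γ, e1, e2, e3, e4, e5⟩ =>
    ⟨n₀, ‹_›, b₀, γ, le_trans ?_ e1, e2, e3, e4, fun k hk f hf _ => ?_⟩⟩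
  · have : 1 ≤ X * (d / a₀) := one_le_mul_of_one_le_of_one_le X1 (by linarith)
    exact (pow_le_pow_right₀ this le_self_add).trans (pow_le_pow_left₀ (by linarith)
      (by nlinarith) _)
  have b0 : 0 ≤ b₀ := le_trans (pow_nonneg (mul_nonneg (by linarith) (by linarith)) _) e1
  have e : (fun i y => f i (d⁻¹ • y)) = fun i y => ∑ z : Fin 4 → Fin (2 * ⌈X⌉₊ + 1),
      bump 1 (fun l => z l - ⌈X⌉₊) (d⁻¹ • y) * f i (d⁻¹ • y) := by
    funext i y
    rw [← Finset.sum_mul]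
    by_cases hy : f i (d⁻¹ • y) = 0
    · rw [hy, mul_zero]
    · rw [sum_bump one_pos fun l => (hf.cube i _ hy l).trans ((Nat.le_ceil X).trans_eq
        (one_mul _).symm), one_mul]
  rw [e, corr_sum, corr_sum, Finset.mul_sum, ← Finset.sum_sub_distrib]
  have X0 : 0 < (9 * X) ^ (C + 4 * K) := by positivity
  refine (mul_le_mul_of_nonneg_left (mul_le_mul_of_nonneg_left (Finset.abs_sum_le_sum_abs _ _)
    (by positivity)) (by positivity)).trans ?_
  rw [Finset.mul_sum]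
  refine (mul_le_mul_of_nonneg_left (Finset.sum_le_card_nsmul _ _ ((9 * X) ^ (C + 4 * K))⁻¹
    fun z _ => ?_) (by positivity)).trans ?_
  · obtain ⟨t1, t2⟩ := tf_piece hf fun i l => z i l - ⌈X⌉₊
    exact ((le_div_iff₀' X0).2 (e5 k hk _ t1 t2)).trans_eq (one_div _)
  · simp only [Finset.card_univ, Fintype.card_fun, Fintype.card_fin, nsmul_eq_mul]
    rw [← mul_assoc, ← div_eq_mul_inv, div_le_one X0, pow_add, pow_mul]
    push_cast
    have := Nat.ceil_lt_add_one (zero_le_one.trans X1)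
    refine mul_le_mul (pow_le_pow_left₀ (by linarith) (by linarith) _) ((pow_le_pow_left₀
      (by positivity) (pow_le_pow_left₀ (by positivity) (by linarith) _) _).trans
      (pow_le_pow_right₀ (one_le_pow₀ (by linarith)) hk)) (by positivity) (by positivity)

variable (h) in
theorem lat_sum : ∃ κ, YM5.Green κ ∧ ∀ k C : ℕ, ∃ (C' : ℕ) (D₀ : ℝ), ∀ (n : ℕ) [NeZero n]
    (a b d X δ : ℝ) (f : Fin k → R4 → ℝ), Tf f X δ → 0 < a → D₀ ≤ X → 1 ≤ d / a →
    (X * (d / a)) ^ C' ≤ b → 2 * b ≤ n →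
    X ^ C * |(π ^ 2 * b) ^ k * corr h b n a (fun i y => f i (d⁻¹ • y)) - LS κ (a / d) f| ≤ 1 := by
  obtain ⟨κ, hκ, hm⟩ := YM5.lat_all h
  refine ⟨κ, hκ, fun k C => ?_⟩
  obtain ⟨C₀, q, hC₀, hq, hL⟩ := hm k
  obtain ⟨p, hp⟩ : ∃ p, p = 5 * k + C + 1 := ⟨_, rfl⟩
  obtain ⟨c, hc⟩ : ∃ c, c = (π ^ 2) ^ k * ∑ a : Fin k → Fin 4 × Fin 4, ∏ i, YM5.wt (a i) := ⟨_, rfl⟩
  have w0 : ∀ a : Fin k → Fin 4 × Fin 4, 0 ≤ ∏ i, YM5.wt (a i) := fun a =>
    Finset.prod_nonneg fun i _ => YM5.wt_nonneg _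
  have c0 : 0 ≤ c := hc ▸ mul_nonneg (by positivity) (Finset.sum_nonneg fun a _ => w0 a)
  refine ⟨(p * q + 1) * 2, C₀ * 2 ^ q * 8 + 81 ^ k * c, fun n _ a b d X δ f H a0 hX hd hb hbn => ?_⟩
  have X1 := H.one
  have d0 : 0 < d := (div_pos_iff_of_pos_right a0).1 (by linarith)
  have n0 : (n : ℝ) ≠ 0 := NeZero.ne _
  have en : n * (d / a / n) = d / a := mul_div_cancel₀ _ n0
  rw [← YM5.corr_zoom h f b en]
  have ez : ∀ (i : Fin k) (x : Site 4 n), YM5.zoom (d / a / n) (f i)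
      (fun l => ZMod.toAddCircle (x l)) = f i (YM5.pt (a / d) (lift x)) := fun i x => by
    rw [YM5.zoom_site, en, inv_div]
    rfl
  have s0 : 0 < a / d := div_pos a0 d0
  have eE : X * (d / a) = X / (a / d) := by field_simp
  have XE : X ≤ X / (a / d) := eE ▸ le_mul_of_one_le_right (by linarith) hd
  have s1 : a / d ≤ X := (inv_div d a ▸ inv_le_one_of_one_le₀ hd).trans X1
  rw [eE] at hb
  generalize a / d = t at *
  obtain ⟨E, hE⟩ : ∃ E, E = X / t := ⟨_, rfl⟩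
  rw [← hE] at hb XE
  have c1 : 1 ≤ C₀ * 2 ^ q := one_le_mul_of_one_le_of_one_le hC₀ (one_le_pow₀ one_le_two)
  have c2 : 0 ≤ 81 ^ k * c := by positivity
  have E2 : 1 ≤ E := by linarith
  have E0 : 0 < E := by linarith
  have Ep : 1 ≤ E ^ p := one_le_pow₀ E2
  obtain ⟨s, hs1, hs2⟩ : ∃ s : ℕ, E ^ p ≤ s ∧ s ≤ 2 * E ^ p :=
    ⟨⌈E ^ p⌉₊, Nat.le_ceil _, by linarith [Nat.ceil_lt_add_one (zero_le_one.trans Ep)]⟩
  have s1' : (1 : ℝ) ≤ s := Ep.trans hs1
  rw [pow_mul] at hb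
  have b0 : 0 ≤ b := (sq_nonneg _).trans hb
  have r2 : √(2 * b) ^ 2 = 2 * b := sq_sqrt (by linarith)
  have hr : 8 * (C₀ * s ^ q) ≤ √(2 * b) := by
    refine le_sqrt_of_sq_le (le_trans (pow_le_pow_left₀ (by positivity) ?_ 2)
      (hb.trans (by linarith)))
    calc _ ≤ 8 * (C₀ * (2 * E ^ p) ^ q) := by gcongr
      _ = E ^ (p * q) * (C₀ * 2 ^ q * 8) := by rw [mul_pow, ← pow_mul]; ring
      _ ≤ _ := by rw [pow_succ]; gcongr; linarith
  generalize √(2 * b) = r at hr r2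
  have sq : (s : ℝ) ≤ C₀ * s ^ q := (le_self_pow₀ s1' (by omega)).trans
    (le_mul_of_one_le_left (by positivity) hC₀)
  have sn : 8 * s ≤ n := by
    have : r ≤ r ^ 2 := le_self_pow₀ (by linarith) two_ne_zero
    have : (8 * s : ℝ) ≤ n := by linarith
    exact_mod_cast this
  have xs : ∀ z : Fin k → Fin 4 → ℤ, (∀ i, f i (YM5.pt t (z i)) ≠ 0) →
      ∀ i l, (z i l).natAbs ≤ s := by
    intro z hz i l
    have h3 : |t * z i l| ≤ X := H.cube i _ (hz i) l
    rw [abs_mul, abs_of_pos s0, ← le_div_iff₀' s0, ← hE] at h3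
    have := h3.trans ((le_self_pow₀ E2 (show p ≠ 0 by omega)).trans hs1)
    rw [← Int.cast_abs, ← Nat.cast_natAbs] at this
    exact_mod_cast this
  have sl : ∀ g : (Fin k → Fin 4 → ℤ) → ℝ, ∑ x : Fin k → Site 4 n,
      (∏ i, f i (YM5.pt t (lift (x i)))) * g (fun i => lift (x i)) =
      ∑' z, (∏ i, f i (YM5.pt t (z i))) * g z := fun g =>
    YM5.sum_lift (fun z => (∏ i, f i (YM5.pt t (z i))) * g z) fun z hz i l => by
      have := xs z (fun i => Finset.prod_ne_zero_iff.1 (left_ne_zero_of_mul hz) i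
        (Finset.mem_univ i)) i l
      have := NeZero.pos n
      omega
  have key := cnt s0 s1 (M := c / s) (by positivity) H.cube H.bd (g := fun z => (π ^ 2) ^ k *
    (∑ a : Fin k → Fin 4 × Fin 4, (∏ i, YM5.wt (a i)) * YM5.pc h r (fun i l => (z i l : ZMod n)) a) -
      Lb.lq (GD.d / 2 : ℝ) fun i j => kL κ (z j - z i)) fun z hz => by
    have e1 : (fun i j => kL κ (z j - z i)) = fun i j => if j = i then 0 else
        (π ^ 2 / 2) • Matrix.of (kM κ (z j - z i)) := by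
      simp only [kL, sub_eq_zero, (tf_inj H hz).eq_iff]
    rw [e1, loops_lq _ _ (fun _ _ => (an_kM κ _).1) fun _ _ => (an_kM κ _).2, ← mul_sub, abs_mul,
      abs_of_pos (by positivity), hc, mul_div_assoc, YM5.loops, ← Finset.sum_sub_distrib,
      Finset.sum_div]
    refine mul_le_mul_of_nonneg_left ((Finset.abs_sum_le_sum_abs _ _).trans
      (Finset.sum_le_sum fun a _ => ?_)) (by positivity)
    rw [← mul_sub, abs_mul, abs_of_nonneg (w0 a), div_eq_mul_one_div]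
    refine mul_le_mul_of_nonneg_left ?_ (w0 a)
    have h5 : ∀ i j : Fin k, lift ((fun l => (z j l : ZMod n)) - fun l => (z i l : ZMod n)) =
        z j - z i := by
      intro i j
      rw [← lift_cast (L := n) (z j - z i) fun l => by
        have := xs _ hz i l
        have := xs _ hz j l
        have := NeZero.pos n
        rw [Pi.sub_apply]
        omega]
      congr 1
      funext l
      simp
    have := hL s n r (by exact_mod_cast s1') trivial
      (by linarith [show 0 ≤ C₀ * s ^ q by positivity]) (by linarith) (fun i l => z i l) a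
      fun i l => by
        have := NeZero.pos n
        have := xs _ hz i l
        rwa [vma_cast (by omega) (by omega)]
    simpa only [h5, Matrix.of_apply] using this
  rw [← sl] at key
  rw [mul_pow, mul_assoc, YM5.corr_expand h r2, LS, ← sl, Finset.mul_sum, ← Finset.sum_sub_distrib]
  simp only [ez]
  simp only [lift, ZMod.coe_valMinAbs, mul_sub, mul_left_comm _ ((π ^ 2) ^ k)] at key ⊢
  refine (mul_le_mul_of_nonneg_left key (by positivity)).trans ?_
  rw [Fintype.card_fin, mul_div_assoc, ← hE, ← mul_div_assoc, ← mul_div_assoc,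
    div_le_one (by positivity)]
  calc _ ≤ E ^ C * ((E * (3 * E) ^ 4) ^ k * c) := by gcongr
    _ = E ^ (5 * k + C) * (81 ^ k * c) := by
      rw [show (81 : ℝ) = 3 ^ 4 by norm_num]
      ring
    _ ≤ _ := le_trans (by rw [hp, pow_succ]; gcongr; linarith) hs1

theorem exists_diag {A : ℕ → ℝ → Prop} (H : ∀ n, ∀ᶠ d in 𝓝[>] (0 : ℝ), A n d) :
    ∃ N : ℝ → ℕ, Tendsto N (𝓝[>] 0) atTop ∧ ∀ᶠ d in 𝓝[>] (0 : ℝ), A (N d) d := by
  classical
  choose ε ε0 hε using fun n => mem_nhdsGT_iff_exists_Ioo_subset.1 (H n)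
  refine ⟨fun d => Nat.findGreatest (fun n => d < ε n) ⌊d⁻¹⌋₊, tendsto_atTop.2 fun n => ?_, ?_⟩
  · filter_upwards [Ioo_mem_nhdsGT (ε0 n), tendsto_inv_nhdsGT_zero.eventually_ge_atTop (n : ℝ)]
      with d h1 h2 using Nat.le_findGreatest (Nat.le_floor h2) h1.2
  · filter_upwards [Ioo_mem_nhdsGT (ε0 0)] with d h1
    exact hε _ ⟨h1.1, Nat.findGreatest_spec (P := fun n => d < ε n) (Nat.zero_le _) h1.2⟩

variable {ι : Type} {Φ : Filter ι} {n : ι → ℕ} [∀ p, NeZero (n p)] {a b : ι → ℝ}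
  {U : Ultrafilter ι} {S₀ : ∀ {k : ℕ}, (Fin k → R4 → ℝ) → ℝ} {S : Pol →ₗ[ℂ] ℂ}

theorem afu_of (hL : L6.Lim h Φ n a b U S₀ S) {P : ℕ → ℝ → ℝ → Prop}
    (H : ∀ q K C, Cmp3 h Φ n a b (P q) (fun _ _ => True) K C) :
    ∃ (X : ℝ → ℝ) (N : ℝ → ℕ), Afu S X ∧ Tendsto N (𝓝[>] 0) atTop ∧
      ∀ᶠ d in 𝓝[>] (0 : ℝ), P (N d) d (X d) := by
  obtain ⟨κ, hκ, hs⟩ := lat_sum h
  choose C' D' hs using hs
  obtain ⟨c, hc⟩ : ∃ c, c = 11 * GD.b0 / (48 * π ^ 2) := ⟨_, rfl⟩
  have c0 : 0 < c := by have := GD.b0_pos; rw [hc]; positivity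
  have cq : 1 * (c⁻¹ - 0) / π ^ 2 = qc := by
    have := GD.b0_pos
    rw [hc, qc]
    field_simp
    ring
  have q0 : 0 < qc := by rw [← cq, sub_zero]; positivity
  have key : ∀ m : ℕ, ∀ᶠ d in 𝓝[>] (0 : ℝ), ∃ X s μ : ℝ, (m ≤ X ∧ X ≤ log d⁻¹ ∧ P m d X) ∧
      (0 < s ∧ s ≤ 1 / (m + 1 : ℝ)) ∧ |μ - qc| ≤ 1 / (m + 1 : ℝ) ∧ ∀ k ≤ m,
      ∀ f : Fin k → R4 → ℝ, Adm f → Tf f X (1 / (m + 1 : ℝ)) → X ^ m * ‖((log d⁻¹ ^ k : ℝ) : ℂ) *
        S (mon fun i y => f i (d⁻¹ • y)) - (μ ^ k * LS κ s f : ℝ)‖ ≤ 1 := fun m => by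
    have m0 : (0 : ℝ) < 1 / (m + 1) := by positivity
    have m1 : 1 / (m + 1 : ℝ) ≤ 1 := by
      rw [div_le_one (by positivity)]
      linarith [Nat.cast_nonneg (α := ℝ) m]
    have t1 : ContinuousAt (fun v : ℝ × ℝ × ℝ => v.1⁻¹ - v.2.1) (c, 0, 1) :=
      (continuousAt_fst.inv₀ c0.ne').sub (by fun_prop)
    have t2 : ContinuousAt (fun v : ℝ × ℝ × ℝ => v.2.2 * (v.1⁻¹ - v.2.1) / π ^ 2) (c, 0, 1) :=
      (ContinuousAt.mul (by fun_prop) t1).div_const _
    obtain ⟨ρ, ρ0, hρ⟩ := Metric.eventually_nhds_iff.1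
      ((Metric.tendsto_nhds.1 t1 _ (half_pos (inv_pos.2 c0))).and (Metric.tendsto_nhds.1 t2 _ m0))
    obtain ⟨D₁, hD₁⟩ := eventually_atTop.1
      (isLittleO_log_id_atTop.tendsto_div_nhds_zero.eventually_lt_const ρ0)
    obtain ⟨R, hR⟩ : ∃ R, R = 2 * c⁻¹ + qc + 1 := ⟨_, rfl⟩
    have ci := inv_pos.2 c0
    have R1 : 1 ≤ R := by linarith
    obtain ⟨D₀, hD⟩ := Finite.exists_le fun k : Fin (m + 1) => D' k (m + 1)
    obtain ⟨C, hC⟩ := Finite.exists_le fun k : Fin (m + 1) => C' k (m + 1)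
    filter_upwards [H m m (C + m + 2) _ m0 _ (half_pos ρ0)
      (max (max D₀ D₁) (2 * R ^ m + 2 * c + m + 1))] with d ⟨X, a₀, h1, h2, a0, h3, h4⟩
    simp only [max_le_iff] at h1 h3
    have Rm : 1 ≤ R ^ m := one_le_pow₀ R1
    have m2 := Nat.cast_nonneg (α := ℝ) m
    have X1 : 1 ≤ X := by linarith [h1.2]
    have e1 : 1 ≤ d / a₀ := by linarith [h3.2]
    have d0 : 0 < d := (div_pos_iff_of_pos_right a0).1 (by linarith)
    have h5 : ∀ᶠ p in Φ, ∃ μ, μ ∈ Metric.closedBall qc (1 / (m + 1 : ℝ)) ∧ X ≤ log d⁻¹ ∧ ∀ k ≤ m,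
        ∀ f : Fin k → R4 → ℝ, Tf f X (1 / (m + 1 : ℝ)) → X ^ m * |log d⁻¹ ^ k *
        corr h (b p) (n p) (a p) (fun i y => f i (d⁻¹ • y)) - μ ^ k * LS κ (a₀ / d) f| ≤ 1 := by
      filter_upwards [h4] with p ⟨n₀, _, b₀, γ, u1, u2, u3, u4, u5⟩
      have v1 : 1 ≤ X * (d / a₀) := one_le_mul_of_one_le_of_one_le X1 e1
      have v2 : (X * (d / a₀)) ^ 2 ≤ b₀ := (pow_le_pow_right₀ v1 (by omega)).trans u1
      have v3 : X ^ 2 ≤ b₀ := (pow_le_pow_left₀ (by linarith)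
        (le_mul_of_one_le_right (by linarith) e1) 2).trans v2
      have v4 : d / a₀ ≤ b₀ := (le_mul_of_one_le_left (by linarith) X1).trans
        ((le_self_pow₀ v1 two_ne_zero).trans v2)
      have b0 : 0 < b₀ := by linarith
      have hl : |log (d / a₀) / b₀| < ρ := by
        rw [abs_of_nonneg (div_nonneg (log_nonneg e1) b0.le)]
        exact (div_le_div_of_nonneg_right (log_le_log (by linarith) v4) b0.le).trans_lt
          (hD₁ b₀ (h3.1.2.trans v4))
      obtain ⟨w1, w2⟩ := hρ (y := (b₀ / log a₀⁻¹, log (d / a₀) / b₀, γ)) (by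
        simp only [Prod.dist_eq, max_lt_iff, Real.dist_eq, sub_zero]
        exact ⟨by rw [hc]; linarith, hl, by linarith⟩)
      have e2 : (b₀ / log a₀⁻¹)⁻¹ - log (d / a₀) / b₀ = log d⁻¹ / b₀ := by
        rw [inv_div, ← sub_div, log_div d0.ne' a0.ne', log_inv, log_inv]
        ring
      simp only [e2, cq] at w1 w2
      rw [Real.dist_eq, sub_zero] at w1
      rw [Real.dist_eq] at w2
      obtain ⟨r, hr⟩ : ∃ r, r = log d⁻¹ / b₀ := ⟨_, rfl⟩
      have e3 : log d⁻¹ = r * b₀ := by rw [hr, div_mul_cancel₀ _ b0.ne']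
      rw [← hr] at w1 w2
      obtain ⟨μ, hμ⟩ : ∃ μ, μ = γ * r / π ^ 2 := ⟨_, rfl⟩
      rw [← hμ] at w2
      have w3 := abs_lt.1 w1
      have w4 := abs_lt.1 w2
      refine ⟨μ, w2.le, ?_, fun k hk f hf => ?_⟩
      · have : 1 ≤ r * X := by
          have := mul_le_mul (show c⁻¹ / 2 ≤ r by linarith) (show 2 * c ≤ X by linarith [h1.2])
            (by positivity) (by linarith)
          rwa [show c⁻¹ / 2 * (2 * c) = 1 by field_simp] at this
        rw [e3]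
        nlinarith [mul_le_mul_of_nonneg_left v3 (show 0 ≤ r by linarith)]
      have k1 := Nat.lt_succ_of_le hk
      have z1 := (mul_le_mul_of_nonneg_right (pow_le_pow_right₀ X1 (show m + 1 ≤ _ by omega))
        (by positivity)).trans (u5 k hk f hf trivial)
      have z2 := hs k (m + 1) n₀ a₀ b₀ d X _ f hf a0 ((hD ⟨k, k1⟩).trans h1.1.1) e1
        ((pow_le_pow_right₀ v1 ((hC ⟨k, k1⟩).trans (by omega))).trans u1) u2
      generalize corr h (b p) (n p) (a p) _ = x at z1 ⊢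
      generalize corr h b₀ n₀ a₀ _ = y at z1 z2
      generalize LS κ _ f = z at z2 ⊢
      have e4 : (r * b₀) ^ k * x - μ ^ k * z = r ^ k * (b₀ ^ k * (x - γ ^ k * y)) +
          μ ^ k * ((π ^ 2 * b₀) ^ k * y - z) := by
        have : μ ^ k * (π ^ 2) ^ k = r ^ k * γ ^ k := by
          rw [← mul_pow, ← mul_pow, hμ, div_mul_cancel₀ _ (by positivity), mul_comm]
        rw [mul_pow, mul_pow]
        linear_combination (b₀ ^ k * y) * -this
      have p1 : ∀ t : ℝ, |t| ≤ R → |t ^ k| ≤ R ^ m := fun t ht => abs_pow t k ▸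
        (pow_le_pow_left₀ (abs_nonneg _) ht _).trans (pow_le_pow_right₀ R1 hk)
      rw [e3, e4]
      refine le_of_mul_le_mul_left ?_ (show 0 < X by linarith)
      rw [← mul_assoc, ← pow_succ']
      refine (mul_le_mul_of_nonneg_left (abs_add_le _ _) (by positivity)).trans ?_
      rw [abs_mul, abs_mul, abs_mul, abs_of_pos (pow_pos b0 k), mul_add, mul_left_comm,
        mul_left_comm _ |μ ^ k|]
      linarith [mul_le_mul (p1 r (abs_le.2 ⟨by linarith, by linarith⟩)) z1 (by positivity)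
        (by positivity), mul_le_mul (p1 μ (abs_le.2 ⟨by linarith, by linarith⟩)) z2 (by positivity)
        (by positivity), h1.2]
    obtain ⟨μ, h6⟩ := (h5.filter_mono hL.le).choice
    obtain ⟨ν, ν1, ν2⟩ := (isCompact_closedBall qc _).ultrafilter_le_nhds (U.map μ)
      (le_principal_iff.2 (h6.mono fun _ e => e.1))
    refine ⟨X, a₀ / d, ν, ⟨by linarith [h1.2], h6.exists.elim fun _ e => e.2.1, h2⟩,
      ⟨by positivity, ?_⟩, ν1, fun k hk f hf H => ?_⟩
    · rw [← inv_div, one_div]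
      exact inv_anti₀ (by positivity) (by linarith [h3.2])
    have hf' := hf.smul (inv_pos.2 d0).ne'
    rw [hL.lift hf', ← Complex.ofReal_mul, ← Complex.ofReal_sub, Complex.norm_real]
    exact le_of_tendsto ((((hL.cv hf').const_mul _).sub (((show Tendsto μ U _ from ν2).pow
      k).mul_const _)).abs.const_mul _) (h6.mono fun _ e => e.2.2 k hk f H)
  obtain ⟨N, N1, N2⟩ := exists_diag key
  obtain ⟨X, N3⟩ := N2.choice
  obtain ⟨s, N4⟩ := N3.choice
  obtain ⟨μ, N5⟩ := N4.choice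
  have t := tendsto_one_div_add_atTop_nhds_zero_nat (𝕜 := ℝ).comp N1
  have tX : Tendsto X (𝓝[>] 0) atTop := tendsto_atTop_mono' _ (N5.mono fun _ e => e.1.1)
    (tendsto_natCast_atTop_atTop.comp N1)
  refine ⟨X, N, ⟨κ, s, μ, hκ, tX, N5.mono fun _ e => e.1.2.1, tendsto_nhdsWithin_iff.2
    ⟨squeeze_zero' (N5.mono fun _ e => e.2.1.1.le) (N5.mono fun _ e => e.2.1.2) t,
      N5.mono fun _ e => e.2.1.1⟩, tendsto_sub_nhds_zero_iff.1
    (squeeze_zero_norm' (N5.mono fun _ e => e.2.2.1) t), fun K C δ δ0 => ?_⟩, N1,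
    N5.mono fun _ e => e.1.2.2⟩
  filter_upwards [N5, N1.eventually_ge_atTop K, N1.eventually_ge_atTop C,
    t.eventually_le_const δ0] with d e1 e2 e3 e4 k hk f hf H
  exact (mul_le_mul_of_nonneg_right (pow_le_pow_right₀ H.one e3) (norm_nonneg _)).trans
    (e1.2.2.2 k (hk.trans e2) f hf ⟨H.one, by positivity, H.cube, H.bd, H.lip, fun i j e y z a b =>
      (H.sep i j e y z a b).imp fun _ c => le_trans e4 c⟩)

end Pool.Agent.Lib.MP_7f377f_mp.Ope

namespace Pool.Agent.Lib.MP_7f377f_mp.RG.Q4.En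

open Filter Topology YM7 Pur Sg Br

variable [GD]

/-- the uniform short distance law -/
theorem afu {G : Gl} {β : ℕ × ℕ → ℝ} (o : G.Oks) (hβ : G.Tus β) {U : Ultrafilter (ℕ × ℕ)}
    {S₀ : ∀ {k : ℕ}, (Fin k → R4 → ℝ) → ℝ} {S : Pol →ₗ[ℂ] ℂ}
    (hL : L6.Lim (Fi.tr haar) (atTop ×ˢ atTop) G.nn G.aa β U S₀ S) : ∃ X, Ope.Afu S X ∧
      ∀ q, ∀ᶠ d in 𝓝[>] (0 : ℝ), ∀ l, d * 3 ^ G.e l ≤ G.Q l ^ q → G.Q l ^ q ≤ X d := by
  have : (Fi.tr haar).IsHaarMeasure := (inferInstance : haar.IsHaarMeasure)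
  have : MeasureTheory.IsProbabilityMeasure (Fi.tr haar) :=
    (inferInstance : MeasureTheory.IsProbabilityMeasure haar)
  obtain ⟨X, N, h1, h2, h3⟩ := Ope.afu_of hL fun q K C δ δ0 η η0 D =>
    (Ope.cmp3_all (cmp3_main G β o hβ q K (C + 4 * K)) δ δ0 η η0 D).mono
      fun d ⟨X, a, e1, e2, e3, e4, e5⟩ => ⟨X, a, e1, e2, e3, e4,
        e5.filter_mono (prod_mono le_top le_rfl)⟩
  refine ⟨X, h1, fun q => ?_⟩
  filter_upwards [h3, h2.eventually_ge_atTop (q + 1)] with d e1 e2 l hl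
  have q1 : 1 ≤ G.Q l := (o 0).1.Q1 l
  have q9 : 9 ≤ G.Q l := (o 0).1.cQ l (by norm_num)
  have := (pow_le_pow_right₀ q1 e2).trans (e1 l (hl.trans (pow_le_pow_right₀ q1 (by omega))))
  rw [pow_succ'] at this
  nlinarith [one_le_pow₀ (n := q) q1]

end Pool.Agent.Lib.MP_7f377f_mp.RG.Q4.En
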