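import Pool.Agent.Lib.MP_7f377f_mp.G.S23P
import Pool.Agent.Lib.MP_7f377f_mp.G.TsP

/-! The third moment with an overlapping source at weak coupling. -/

noncomputable section

namespace Pool.Agent.Lib.MP_7f377f_mp.Ope

open MeasureTheory Filter Topology Real YM7 Weak
open RG (St)

set_option linter.unusedSectionVars false

theorem ex_box {ι : Type} [Fintype ι] [DecidableEq ι] {f : ι → R4 → ℝ} {X s : ℝ} (s0 : 0 < s)
    (hc : ∀ i y, f i y ≠ 0 → ∀ l, |y l| ≤ X) :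
    ∃ T : Finset (ι → St), ∀ z ∉ T, ∏ i, f i (YM5.pt s (z i)) = 0 := by
  refine ⟨Fintype.piFinset fun _ => Fintype.piFinset fun _ => Finset.Icc (-⌊X / s⌋) ⌊X / s⌋,
    fun z hz => by_contra fun e => hz (Fintype.mem_piFinset.2 fun i => Fintype.mem_piFinset.2
      fun l => Finset.mem_Icc.2 (abs_le.1 (Int.le_floor.2 ?_)))⟩
  have := hc i _ (Finset.prod_ne_zero_iff.1 e i (Finset.mem_univ i)) l
  rwa [YM5.pt, abs_mul, abs_of_pos s0, ← le_div_iff₀' s0, ← Int.cast_abs] at this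

theorem sm_box {ι : Type} [Fintype ι] [DecidableEq ι] {f : ι → R4 → ℝ} {X s : ℝ} (s0 : 0 < s)
    (hc : ∀ i y, f i y ≠ 0 → ∀ l, |y l| ≤ X) (g : (ι → St) → ℝ) :
    Summable fun z => (∏ i, f i (YM5.pt s (z i))) * g z := by
  obtain ⟨T, hT⟩ := ex_box s0 hc
  exact summable_of_ne_finset_zero (s := T) fun z hz => by rw [hT z hz, zero_mul]

variable [GD] {k : ℕ}

theorem loops_two (K : Fin 2 → Fin 2 → Fin 4 × Fin 4 → Fin 4 × Fin 4 → ℝ) : YM5.loops K =
    2 * GD.d * ∑ a, ∑ b, YM5.wt a * YM5.wt b * (K 0 1 a b * K 1 0 b a) := by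
  have hs : ∀ σ : Equiv.Perm (Fin 2), (∀ i, σ i ≠ i) ↔ σ = Equiv.swap 0 1 := by decide
  have hc : (Equiv.swap (0 : Fin 2) 1).cycleType.card = 1 :=
    Equiv.Perm.card_cycleType_eq_one.2 (Equiv.Perm.isCycle_swap (by decide))
  simp only [YM5.loops, loopSum, hs, Finset.sum_ite_eq', Finset.mem_univ, if_true, hc,
    Fin.prod_univ_two, Equiv.swap_apply_left, Equiv.swap_apply_right]
  rw [← (finTwoArrowEquiv (Fin 4 × Fin 4)).symm.sum_comp, Fintype.sum_prod_type]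
  simp only [Finset.mul_sum]
  refine Finset.sum_congr rfl fun a _ => Finset.sum_congr rfl fun b _ => ?_
  simp
  ring

theorem loops_three (K : Fin 3 → Fin 3 → Fin 4 × Fin 4 → Fin 4 × Fin 4 → ℝ) : YM5.loops K =
    4 * GD.d * ∑ a, ∑ b, YM5.wt a * YM5.wt b *
      (K 1 2 a b * ∑ c, YM5.wt c * (K 2 0 b c * K 0 1 c a) +
        K 2 1 b a * ∑ c, YM5.wt c * (K 1 0 a c * K 0 2 c b)) := by
  have hs : (Finset.univ.filter fun σ : Equiv.Perm (Fin 3) => ∀ i, σ i ≠ i) =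
      {finRotate 3, (finRotate 3)⁻¹} := by decide
  have hc := Equiv.Perm.card_cycleType_eq_one.2 (isCycle_finRotate (n := 1))
  have e1 : ∀ i, finRotate 3 i = ![1, 2, 0] i := by decide
  have e2 : ∀ i, (finRotate 3)⁻¹ i = ![2, 0, 1] i := by decide
  simp only [YM5.loops, loopSum, ← Finset.sum_filter, hs]
  simp only [Finset.sum_pair (show finRotate 3 ≠ (finRotate 3)⁻¹ by decide),
    Equiv.Perm.cycleType_inv, hc, e1, e2, Fin.prod_univ_three]
  rw [← (Fin.consEquiv fun _ => Fin 4 × Fin 4).sum_comp, Fintype.sum_prod_type_right,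
    ← (finTwoArrowEquiv (Fin 4 × Fin 4)).symm.sum_comp, Fintype.sum_prod_type]
  simp only [Finset.mul_sum, ← Finset.sum_add_distrib]
  refine Finset.sum_congr rfl fun a _ => Finset.sum_congr rfl fun b _ =>
    Finset.sum_congr rfl fun c _ => ?_
  simp
  ring

/-- the lattice loop sum -/
def LK (s : ℝ) (f : Fin k → R4 → ℝ) : ℝ := ∑' z : Fin k → St,
  (∏ i, f i (YM5.pt s (z i))) * YM5.loops fun i j => kM kk (z j - z i)

theorem LK_tri : ∃ C, 0 ≤ C ∧ ∀ (f : Fin 2 → R4 → ℝ) (ξ : R4 → ℝ) (Λ δ s X M R : ℝ), Tf f Λ δ →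
    0 < s → s ≤ 1 → 1 ≤ R → (∀ y, ξ y ≠ 0 → ∀ l, |y l| ≤ X) → (∀ y, |1 - ξ y| ≤ M) →
    (∀ y : R4, (∀ l, |y l| ≤ Λ + R) → ξ y = 1) →
    |LK s ![ξ, f 0, f 1] - 2 * LK s f| ≤ C * M * Λ ^ 10 / (δ ^ 4 * R ^ 4) := by
  obtain ⟨C, C0, h⟩ := Kw.kM_dec
  obtain ⟨C', C0', h'⟩ := Kw.kM_cut
  refine ⟨3 ^ 8 * (4 * GD.d * (16 * (16 * (2 * (C * C'))))), by positivity,
    fun f ξ Λ δ s X M R H s0 s1 R1 hX hM h1 => ?_⟩
  have M0 := (abs_nonneg _).trans (hM 0)
  have Λ1 := H.one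
  have δ0 := H.pos
  obtain ⟨T, hT⟩ := ex_box (f := fun _ : Unit => ξ) s0 fun _ => hX
  have e0 : ∀ g : St → ℝ, ∑' x, ξ (YM5.pt s x) * g x =
      ∑ x ∈ T.map (Equiv.funUnique Unit St).toEmbedding, ξ (YM5.pt s x) * g x := fun g =>
    tsum_eq_sum fun x hx => by
      have := hT (fun _ => x) fun e => hx (Finset.mem_map.2 ⟨_, e, rfl⟩)
      rw [Fintype.prod_unique] at this
      rw [this, zero_mul]
  generalize T.map _ = T' at e0
  have e1 : LK s ![ξ, f 0, f 1] = ∑' w : Fin 2 → St, (∏ i, f i (YM5.pt s (w i))) * ∑' x,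
      ξ (YM5.pt s x) * YM5.loops fun i j => kM kk ((![x, w 0, w 1] : Fin 3 → St) j -
        (![x, w 0, w 1] : Fin 3 → St) i) := by
    have := sm_box (f := ![ξ, f 0, f 1]) (X := max X Λ) s0 (fun i y hy l => by
      fin_cases i
      exacts [le_max_of_le_left (hX y hy l), le_max_of_le_right (H.cube 0 y hy l),
        le_max_of_le_right (H.cube 1 y hy l)]) fun z => YM5.loops fun i j => kM kk (z j - z i)
    let E := (Equiv.prodComm _ _).trans (Fin.consEquiv fun _ : Fin 3 => St)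
    rw [LK, ← E.tsum_eq]
    refine (E.summable_iff.2 this).tsum_prod.trans (tsum_congr fun w => ?_)
    rw [← tsum_mul_left]
    refine tsum_congr fun x => ?_
    have : E (w, x) = ![x, w 0, w 1] := by
      funext i
      fin_cases i <;> rfl
    simp only [Function.comp, this, Fin.prod_univ_three, Fin.prod_univ_two, Matrix.cons_val]
    ring
  rw [e1, LK, ← tsum_mul_left]
  simp only [mul_left_comm (2 : ℝ)]
  rw [← (sm_box s0 H.cube _).tsum_sub (sm_box s0 H.cube _)]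
  simp only [← mul_sub]
  refine (cnt s0 (s1.trans Λ1) (M := 4 * GD.d * (16 * (16 * (2 * (C * (s / δ) ^ 4 *
    (M * (C' / (R / s) ^ 4))))))) (by positivity) H.cube H.bd fun w hw => ?_).trans_eq (by
      rw [Fintype.card_fin]
      field_simp)
  have R1' : 1 ≤ R / s := (one_le_div s0).2 (s1.trans R1)
  have nr : ∀ i (x : St), ‖x - w i‖ < R / s → ξ (YM5.pt s x) = 1 := fun i x hx => h1 _ fun l => by
    have a1 : |s * w i l| ≤ Λ := H.cube i _ (hw i) l
    have a2 : |((x - w i) l : ℝ)| ≤ ‖x - w i‖ := norm_le_pi_norm (x - w i) l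
    have a3 := (le_div_iff₀' s0).1 (a2.trans hx.le)
    rw [← abs_of_pos s0, ← abs_mul, Pi.sub_apply, Int.cast_sub, mul_sub] at a3
    change |s * x l| ≤ _
    linarith [abs_sub_abs_le_abs_sub (s * x l) (s * w i l)]
  have k1 : ∀ i j, i ≠ j → ∀ a b, |kM kk (w i - w j) a b| ≤ C * (s / δ) ^ 4 := fun i j e a b => by
    obtain ⟨l, hl⟩ := H.sep i j e _ _ (hw i) (hw j)
    have a2 : |((w i - w j) l : ℝ)| ≤ ‖w i - w j‖ := norm_le_pi_norm (w i - w j) l
    simp only [YM5.pt, ← mul_sub, abs_mul, abs_of_pos s0] at hl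
    rw [Pi.sub_apply, Int.cast_sub] at a2
    refine (h _ a b).trans (mul_le_mul_of_nonneg_left (pow_le_pow_left₀ (Kw.iw_pos _).le ?_ _) C0)
    rw [Kw.iw, inv_le_comm₀ (by positivity) (by positivity), inv_div, div_le_iff₀' s0]
    nlinarith
  have k2 := fun i j a b => h' (fun x => ξ (YM5.pt s x)) (w i) (w j) M (R / s) a b R1'
    (fun x => hM _) fun x hx => hx.elim (nr i x) fun e => nr j x (by rwa [norm_sub_rev])
  have e2 : ∑' x, ξ (YM5.pt s x) * (YM5.loops fun i j => kM kk ((![x, w 0, w 1] : Fin 3 → St) j -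
      (![x, w 0, w 1] : Fin 3 → St) i)) - 2 * (YM5.loops fun i j => kM kk (w j - w i)) =
      4 * GD.d * ∑ a, ∑ b, YM5.wt a * YM5.wt b * (kM kk (w 1 - w 0) a b *
        (∑' x, ξ (YM5.pt s x) * ∑ c, YM5.wt c * (kM kk (x - w 1) b c * kM kk (w 0 - x) c a) -
          2⁻¹ * kM kk (w 0 - w 1) b a) + kM kk (w 0 - w 1) b a *
        (∑' x, ξ (YM5.pt s x) * ∑ c, YM5.wt c * (kM kk (x - w 0) a c * kM kk (w 1 - x) c b) -
          2⁻¹ * kM kk (w 1 - w 0) a b)) := by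
    simp only [e0, loops_two, loops_three, Matrix.cons_val]
    generalize kM kk = P
    simp only [mul_left_comm (ξ _) (4 * _)]
    rw [← Finset.mul_sum, ← mul_assoc, ← mul_assoc, show (2 : ℝ) * 2 = 4 by norm_num, ← mul_sub]
    refine congrArg _ ?_
    conv_lhs => enter [1, 2, x]; rw [Finset.mul_sum]; enter [2, a]; rw [Finset.mul_sum]
    rw [Finset.sum_comm, ← Finset.sum_sub_distrib]
    refine Finset.sum_congr rfl fun a _ => ?_
    rw [Finset.sum_comm, ← Finset.sum_sub_distrib]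
    refine Finset.sum_congr rfl fun b _ => ?_
    simp only [mul_left_comm (ξ _) (_ * _), mul_add (ξ _), mul_left_comm (ξ _) (P _ _ _),
      ← Finset.mul_sum, Finset.sum_add_distrib]
    ring
  rw [e2, abs_mul, abs_of_nonneg (by positivity)]
  refine mul_le_mul_of_nonneg_left ?_ (by positivity)
  have sb : ∀ (g : Fin 4 × Fin 4 → ℝ) (B : ℝ), (∀ a, |g a| ≤ B) → |∑ a, g a| ≤ 16 * B :=
    fun g B hg => (Finset.abs_sum_le_sum_abs _ _).trans
      ((Finset.sum_le_card_nsmul _ _ B fun a _ => hg a).trans_eq (by simp))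
  have w1 : ∀ a, |YM5.wt a| ≤ 1 := fun a => by
    unfold YM5.wt
    split_ifs <;> norm_num
  refine sb _ _ fun a => sb _ _ fun b => ?_
  rw [abs_mul, abs_mul, two_mul]
  refine (mul_le_of_le_one_left (abs_nonneg _) (mul_le_one₀ (w1 a) (abs_nonneg _) (w1 b))).trans
    ((abs_add_le _ _).trans (add_le_add ?_ ?_)) <;> rw [abs_mul]
  exacts [mul_le_mul (k1 1 0 (by decide) _ _) (k2 1 0 _ _) (abs_nonneg _) (by positivity),
    mul_le_mul (k1 0 1 (by decide) _ _) (k2 0 1 _ _) (abs_nonneg _) (by positivity)]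

variable [MeasurableSpace SU2] [BorelSpace SU2] (h : Measure SU2) [h.IsHaarMeasure]
  [IsProbabilityMeasure h]

theorem lat_loops (k : ℕ) : ∃ (C : ℕ) (D₀ : ℝ), ∀ (n : ℕ) [NeZero n] (a b d X : ℝ)
    (f : Fin k → R4 → ℝ), (∀ i y, f i y ≠ 0 → ∀ l, |y l| ≤ X) → (∀ i y, |f i y| ≤ X) → 0 < a →
    D₀ ≤ X → 1 ≤ d / a → (X * (d / a)) ^ C ≤ b → 2 * b ≤ n →
    X * |b ^ k * corr h b n a (fun i y => f i (d⁻¹ • y)) - LK (a / d) f| ≤ 1 := by
  obtain ⟨C₀, q, hC₀, hq, hL⟩ := Kw.lat_kk h k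
  obtain ⟨p, hp⟩ : ∃ p, p = 5 * k + 1 + 1 := ⟨_, rfl⟩
  obtain ⟨c, hc⟩ : ∃ c, c = ∑ a : Fin k → Fin 4 × Fin 4, ∏ i, YM5.wt (a i) := ⟨_, rfl⟩
  have w0 : ∀ a : Fin k → Fin 4 × Fin 4, 0 ≤ ∏ i, YM5.wt (a i) := fun a =>
    Finset.prod_nonneg fun i _ => YM5.wt_nonneg _
  have c0 : 0 ≤ c := hc ▸ Finset.sum_nonneg fun a _ => w0 a
  have c1 : 1 ≤ C₀ * 2 ^ q := one_le_mul_of_one_le_of_one_le hC₀ (one_le_pow₀ one_le_two)
  have c2 : 0 ≤ 81 ^ k * c := by positivity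
  refine ⟨(p * q + 1) * 2, C₀ * 2 ^ q * 8 + 81 ^ k * c,
    fun n _ a b d X f H1 H2 a0 hX hd hb hbn => ?_⟩
  have X1 : 1 ≤ X := by linarith
  have d0 : 0 < d := (div_pos_iff_of_pos_right a0).1 (by linarith)
  have n0 : (n : ℝ) ≠ 0 := NeZero.ne _
  have en : n * (d / a / n) = d / a := mul_div_cancel₀ _ n0
  rw [← YM5.corr_zoom h f b en]
  have ez : ∀ (i : Fin k) (x : Site 4 n), YM5.zoom (d / a / n) (f i)
      (fun l => ZMod.toAddCircle (x l)) = f i (YM5.pt (a / d) (lift x)) := fun i x => by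
    rw [YM5.zoom_site, en, inv_div]
    rfl
  have s0 : 0 < a / d := div_pos a0 d0
  have eE : X * (d / a) = X / (a / d) := by field_simp
  have XE : X ≤ X / (a / d) := eE ▸ le_mul_of_one_le_right (by linarith) hd
  have s1 : a / d ≤ X := (inv_div d a ▸ inv_le_one_of_one_le₀ hd).trans X1
  rw [eE] at hb
  generalize a / d = t at *
  obtain ⟨E, hE⟩ : ∃ E, E = X / t := ⟨_, rfl⟩
  rw [← hE] at hb XE
  have E2 : 1 ≤ E := by linarith
  have E0 : 0 < E := by linarith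
  have Ep : 1 ≤ E ^ p := one_le_pow₀ E2
  obtain ⟨s, hs1, hs2⟩ : ∃ s : ℕ, E ^ p ≤ s ∧ s ≤ 2 * E ^ p :=
    ⟨⌈E ^ p⌉₊, Nat.le_ceil _, by linarith [Nat.ceil_lt_add_one (zero_le_one.trans Ep)]⟩
  have s1' : (1 : ℝ) ≤ s := Ep.trans hs1
  rw [pow_mul] at hb
  have b0 : 0 ≤ b := (sq_nonneg _).trans hb
  have r2 : √(2 * b) ^ 2 = 2 * b := sq_sqrt (by linarith)
  have hr : 8 * (C₀ * s ^ q) ≤ √(2 * b) := by
    refine le_sqrt_of_sq_le (le_trans (pow_le_pow_left₀ (by positivity) ?_ 2)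
      (hb.trans (by linarith)))
    calc _ ≤ 8 * (C₀ * (2 * E ^ p) ^ q) := by gcongr
      _ = E ^ (p * q) * (C₀ * 2 ^ q * 8) := by rw [mul_pow, ← pow_mul]; ring
      _ ≤ _ := by rw [pow_succ]; gcongr; linarith
  generalize √(2 * b) = r at hr r2
  have sq : (s : ℝ) ≤ C₀ * s ^ q := (le_self_pow₀ s1' (by omega)).trans
    (le_mul_of_one_le_left (by positivity) hC₀)
  have sn : 8 * s ≤ n := by
    have : r ≤ r ^ 2 := le_self_pow₀ (by linarith) two_ne_zero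
    have : (8 * s : ℝ) ≤ n := by linarith
    exact_mod_cast this
  have xs : ∀ z : Fin k → Fin 4 → ℤ, (∀ i, f i (YM5.pt t (z i)) ≠ 0) →
      ∀ i l, (z i l).natAbs ≤ s := by
    intro z hz i l
    have h3 : |t * z i l| ≤ X := H1 i _ (hz i) l
    rw [abs_mul, abs_of_pos s0, ← le_div_iff₀' s0, ← hE] at h3
    have := h3.trans ((le_self_pow₀ E2 (show p ≠ 0 by omega)).trans hs1)
    rw [← Int.cast_abs, ← Nat.cast_natAbs] at this
    exact_mod_cast this
  have sl : ∀ g : (Fin k → Fin 4 → ℤ) → ℝ, ∑ x : Fin k → Site 4 n,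
      (∏ i, f i (YM5.pt t (lift (x i)))) * g (fun i => lift (x i)) =
      ∑' z, (∏ i, f i (YM5.pt t (z i))) * g z := fun g =>
    YM5.sum_lift (fun z => (∏ i, f i (YM5.pt t (z i))) * g z) fun z hz i l => by
      have := xs z (fun i => Finset.prod_ne_zero_iff.1 (left_ne_zero_of_mul hz) i
        (Finset.mem_univ i)) i l
      have := NeZero.pos n
      omega
  have key := cnt s0 s1 (M := c / s) (by positivity) H1 H2 (g := fun z =>
    ∑ a : Fin k → Fin 4 × Fin 4, (∏ i, YM5.wt (a i)) * YM5.pc h r (fun i l => (z i l : ZMod n)) a -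
      YM5.loops fun i j => kM kk (z j - z i)) fun z hz => by
    rw [hc, YM5.loops, ← Finset.sum_sub_distrib, Finset.sum_div]
    refine (Finset.abs_sum_le_sum_abs _ _).trans (Finset.sum_le_sum fun a _ => ?_)
    rw [← mul_sub, abs_mul, abs_of_nonneg (w0 a), div_eq_mul_one_div]
    refine mul_le_mul_of_nonneg_left ?_ (w0 a)
    have h5 : ∀ i j : Fin k, lift ((fun l => (z j l : ZMod n)) - fun l => (z i l : ZMod n)) =
        z j - z i := by
      intro i j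
      rw [← lift_cast (L := n) (z j - z i) fun l => by
        have := xs _ hz i l
        have := xs _ hz j l
        have := NeZero.pos n
        rw [Pi.sub_apply]
        omega]
      congr 1
      funext l
      simp
    have := hL s n r (by exact_mod_cast s1')
      (by linarith [show 0 ≤ C₀ * s ^ q by positivity]) (by linarith) (fun i l => z i l) a
      fun i l => by
        have := NeZero.pos n
        have := xs _ hz i l
        rwa [vma_cast (by omega) (by omega)]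
    simpa only [h5] using this
  rw [← sl] at key
  rw [YM5.corr_expand h r2, LK, ← sl, ← Finset.sum_sub_distrib]
  simp only [ez]
  simp only [lift, ZMod.coe_valMinAbs, mul_sub] at key ⊢
  refine (mul_le_mul_of_nonneg_left key (by positivity)).trans ?_
  rw [Fintype.card_fin, mul_div_assoc, ← hE, ← mul_div_assoc, ← mul_div_assoc,
    div_le_one (by positivity)]
  calc _ ≤ E * ((E * (3 * E) ^ 4) ^ k * c) := by gcongr
    _ = E ^ (5 * k + 1) * (81 ^ k * c) := by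
      rw [show (81 : ℝ) = 3 ^ 4 by norm_num]
      ring
    _ ≤ _ := le_trans (by rw [hp, pow_succ _ (5 * k + 1)]; gcongr; linarith) hs1

/-- the third moment is twice the second one -/
theorem tri_rel : ∃ C : ℕ, ∀ Λ δ M η : ℝ, 0 < η → ∃ D₀ : ℝ, ∀ (n : ℕ) [NeZero n] (a b d X : ℝ)
    (f : Fin 2 → R4 → ℝ) (ξ : R4 → ℝ), Tf f Λ δ → 0 < a → D₀ ≤ X → 1 ≤ d / a →
    (X * (d / a)) ^ C ≤ b → 2 * b ≤ n → (∀ y, ξ y ≠ 0 → ∀ l, |y l| ≤ X) → (∀ y, |1 - ξ y| ≤ M) →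
    (∀ y : R4, (∀ l, |y l| ≤ D₀) → ξ y = 1) →
    |b ^ 3 * corr h b n a (fun i y => ![ξ, f 0, f 1] i (d⁻¹ • y)) -
      2 * (b ^ 2 * corr h b n a fun i y => f i (d⁻¹ • y))| ≤ η := by
  obtain ⟨C, C0, h1⟩ := LK_tri
  obtain ⟨C2, D2, h2⟩ := lat_loops h 2
  obtain ⟨C3, D3, h3⟩ := lat_loops h 3
  refine ⟨C2 + C3, fun Λ δ M η η0 => ?_⟩
  obtain ⟨R, R1, hR⟩ : ∃ R, 1 ≤ R ∧ C * M * Λ ^ 10 / δ ^ 4 / R ^ 4 ≤ η / 2 :=
    ((eventually_ge_atTop 1).and ((tendsto_const_nhds.div_atTop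
      (tendsto_pow_atTop four_ne_zero)).eventually_le_const (half_pos η0))).exists
  refine ⟨max (max D2 D3) (max (Λ + R) (max (M + 1) (6 / η))),
    fun n _ a b d X f ξ H a0 hX hd hb hn c1 c2 c3 => ?_⟩
  have c4 := fun (y : R4) (hy : ∀ l, |y l| ≤ Λ + R) => c3 y fun l =>
    (hy l).trans (le_max_of_le_right (le_max_left _ _))
  simp only [max_le_iff] at hX
  obtain ⟨⟨x2, x3⟩, x4, x5, x6⟩ := hX
  have Λ1 := H.one
  have d0 : 0 < d := (div_pos_iff_of_pos_right a0).1 (by linarith)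
  have u1 : 1 ≤ X * (d / a) := one_le_mul_of_one_le_of_one_le (by linarith) hd
  have a1 := h1 f ξ Λ δ (a / d) X M R H (div_pos a0 d0)
    (inv_div d a ▸ inv_le_one_of_one_le₀ hd) R1 c1 c2 c4
  have b1 := fun i y hy l => (H.cube i y hy l).trans (show Λ ≤ X by linarith)
  have b2 := fun i y => (H.bd i y).trans (show Λ ≤ X by linarith)
  have a2 := h2 n a b d X f b1 b2 a0 x2 hd ((pow_le_pow_right₀ u1 le_self_add).trans hb) hn
  have a3 := h3 n a b d X ![ξ, f 0, f 1] (fun i => by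
    fin_cases i
    exacts [c1, b1 0, b1 1]) (fun i => by
    fin_cases i
    exacts [fun y => show |ξ y| ≤ X by
      linarith [c2 y, abs_sub_abs_le_abs_sub (ξ y) 1, abs_sub_comm (ξ y) 1, abs_one (α := ℝ)],
      b2 0, b2 1]) a0 x3 hd ((pow_le_pow_right₀ u1 le_add_self).trans hb) hn
  have k : ∀ u : ℝ, X * |u| ≤ 1 → |u| ≤ η / 6 := fun u e => by
    rw [div_le_iff₀ η0] at x6
    nlinarith [abs_nonneg u]
  rw [← div_div] at a1
  have := abs_le.1 (a1.trans hR)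
  have := abs_le.1 (k _ a2)
  have := abs_le.1 (k _ a3)
  exact abs_le.2 ⟨by linarith, by linarith⟩

/-- the short distance law of the third moment from a weakly coupled lattice theory -/
theorem tri_core : ∃ C : ℕ, ∀ f : Fin 2 → R4 → ℝ, Adm f → ∀ M : ℝ, ∀ η' > 0, ∃ η > 0, ∃ D₀ : ℝ,
    1 ≤ D₀ ∧ ∀ (n : ℕ) [NeZero n] (a b d X γ s : ℝ) (ξ : R4 → ℝ), 0 < a → D₀ ≤ d / a → D₀ ≤ X →
      (X * (d / a)) ^ C ≤ b → 2 * b ≤ n → (∀ y, ξ y ≠ 0 → ∀ l, |y l| ≤ X) →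
      (∀ y, |1 - ξ y| ≤ M) → (∀ y : R4, (∀ l, |y l| ≤ D₀) → ξ y = 1) →
      |b / log a⁻¹ - 11 * GD.b0 / (48 * π ^ 2)| ≤ η → |γ - 1| ≤ η →
      b ^ 3 * |s - γ * corr h b n a fun i y => ![ξ, f 0, f 1] i (d⁻¹ • y)| ≤ η →
      |log d⁻¹ ^ 3 * s - 2 / (11 * GD.b0 / (48 * π ^ 2)) * Pur.kap f| ≤ η' := by
  obtain ⟨C, hC⟩ := YM5.smear h 2
  obtain ⟨C', hC'⟩ := tri_rel h
  refine ⟨C + C' + 1, fun f hf M η' hη' => ?_⟩
  obtain ⟨Λ, δ, H⟩ := hf.tf
  rw [Pur.kap]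
  generalize hI : ∫ y : Fin 2 → R4, (∏ i, f i (y i)) * free y = I
  have c0 : (11 * GD.b0 / (48 * π ^ 2) : ℝ) ≠ 0 := by have := GD.b0_pos; positivity
  have hG : ContinuousAt (fun v : Fin 5 → ℝ => ((v 0)⁻¹ - v 1) ^ 3 * (v 2 * v 3 + v 4))
      ![11 * GD.b0 / (48 * π ^ 2), 0, 1, 2 * ((π ^ 2)⁻¹ ^ 2 * I), 0] :=
    ((((continuous_apply 0).continuousAt.inv₀ c0).sub (continuous_apply 1).continuousAt).pow
      3).mul (by fun_prop)
  obtain ⟨ρ, ρ0, hρ⟩ := Metric.continuousAt_iff.1 hG η' hη'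
  obtain ⟨D₀, hD⟩ := hC f (fun i => (hf.1 i).2.continuous) (fun i => (hf.1 i).1) hf.2 (ρ / 8)
    (by positivity)
  obtain ⟨D₂, hD₂⟩ := hC' Λ δ M (ρ / 4) (by positivity)
  obtain ⟨D₁, hD₁⟩ := eventually_atTop.1
    ((isLittleO_log_id_atTop.tendsto_div_nhds_zero.eventually_lt_const (half_pos ρ0)).and
      ((eventually_ge_atTop D₀).and ((eventually_ge_atTop 1).and (eventually_ge_atTop D₂))))
  obtain ⟨-, -, v1, v2⟩ := hD₁ D₁ le_rfl
  refine ⟨ρ / 2, half_pos ρ0, D₁, v1, fun n _ a b d X γ s ξ a0 hd hX hb hn c1 c2 c3 hq hγ hs => ?_⟩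
  obtain ⟨-, u1, u2, -⟩ := hD₁ _ hd
  have n0 : (n : ℝ) ≠ 0 := NeZero.ne _
  have e : n * (d / a / n) = d / a := mul_div_cancel₀ _ n0
  have u3 : d / a ≤ X * (d / a) := le_mul_of_one_le_left (by linarith) (by linarith)
  have Db : d / a ≤ b := (u3.trans (le_self_pow₀ (u2.trans u3) (Nat.succ_ne_zero _))).trans hb
  have b0 : 0 < b := by linarith
  have d0 : 0 < d := (div_pos_iff_of_pos_right a0).1 (by linarith)
  have hv := hD n b (d / a / n) (by rwa [e]) (by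
    rw [e]
    exact ((pow_le_pow_left₀ (by linarith) u3 _).trans
      (pow_le_pow_right₀ (u2.trans u3) (by omega))).trans hb) hn
  rw [YM5.corr_zoom h f b e] at hv
  have hw := hD₂ n a b d X f ξ H a0 (v2.trans hX) u2
    ((pow_le_pow_right₀ (u2.trans u3) (by omega)).trans hb) hn c1 c2
    fun y hy => c3 y fun l => (hy l).trans v2
  have hu : |b ^ 3 * corr h b n a (fun i y => ![ξ, f 0, f 1] i (d⁻¹ • y)) -
      2 * ((π ^ 2)⁻¹ ^ 2 * I)| ≤ ρ / 2 := by
    have := abs_le.1 hw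
    have := abs_le.1 (show |_ - _ * I| ≤ ρ / 8 from hI ▸ hv)
    exact abs_le.2 ⟨by linarith, by linarith⟩
  generalize corr h b n a (fun i y => ![ξ, f 0, f 1] i (d⁻¹ • y)) = c at hu hs
  have hl : |log (d / a) / b| ≤ ρ / 2 := by
    rw [abs_of_nonneg (div_nonneg (log_nonneg u2) b0.le)]
    exact (div_le_div_of_nonneg_right (log_le_log (by linarith) Db) b0.le).trans
      (hD₁ b (hd.trans Db)).1.le
  have := hρ (x := ![b / log a⁻¹, log (d / a) / b, γ, b ^ 3 * c, b ^ 3 * (s - γ * c)])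
    ((dist_pi_lt_iff ρ0).2 fun i => lt_of_le_of_lt (by
      fin_cases i
      · exact hq
      · exact (dist_zero_right _).trans_le hl
      · exact hγ
      · exact hu
      · rw [← abs_of_pos (pow_pos b0 3), ← abs_mul] at hs
        exact (dist_zero_right _).trans_le hs) (half_lt_self ρ0))
  refine le_of_eq_of_le (congrArg abs ?_) this.le
  simp only [Matrix.cons_val]
  have e1 : (b / log a⁻¹)⁻¹ - log (d / a) / b = log d⁻¹ / b := by
    rw [inv_div, ← sub_div, log_div d0.ne' a0.ne', log_inv, log_inv]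
    ring
  have := GD.b0_pos
  rw [e1]
  congr 1
  · field_simp
    ring
  · field_simp
    ring

end Pool.Agent.Lib.MP_7f377f_mp.Ope
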