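import Pool.Agent.Lib.MP_7f377f_mp.G.S23H2
import Pool.Agent.Lib.MP_7f377f_mp.G.S23P2
import Pool.Agent.Lib.MP_7f377f_mp.G.S3D

/-! The third moment with a source which is constant near two close sources. -/

noncomputable section

open Pool.Agent.Lib.MP_7f377f_mp.Jet

set_option linter.unusedSectionVars false
variable [Pool.Agent.Lib.MP_7f377f_mp.GD]

namespace Pool.Agent.Lib.MP_7f377f_mp.RG.Q4.En.Gl

open Finset Real Sg Br YM7 Filter Topology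

/-- the cut off at the distance `X` -/
def chi (X : ℝ) (y : R4) : ℝ := max 0 (min 1 (X - ‖y‖))

section
variable {X : ℝ} {y : R4}

theorem chi_mem : 0 ≤ chi X y ∧ chi X y ≤ 1 := ⟨le_max_left .., max_le zero_le_one (min_le_left ..)⟩

theorem chi_one (e : ‖y‖ + 1 ≤ X) : chi X y = 1 := by
  rw [chi, min_eq_left (by linarith), max_eq_right zero_le_one]

theorem chi_ne (e : chi X y ≠ 0) : ‖y‖ ≤ X := le_of_not_gt fun u =>
  e (max_eq_left ((min_le_right ..).trans (by linarith)))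

theorem chi_lip (z : R4) : |chi X y - chi X z| ≤ dist y z := by
  rw [chi, chi, max_comm, max_comm 0]
  refine (abs_max_sub_max_le_abs ..).trans ((abs_min_sub_min_le_max ..).trans ?_)
  rw [sub_self, abs_zero, sub_sub_sub_cancel_left, abs_sub_comm, dist_eq_norm]
  exact max_le (norm_nonneg _) (abs_norm_sub_norm_le ..)

theorem chi_cube (e : chi X y ≠ 0) (i : Fin 4) : |y i| ≤ X :=
  (PiLp.norm_apply_le y i).trans (chi_ne e)

theorem chi_box {D : ℝ} (e : ∀ i, |y i| ≤ D) (hD : 2 * D + 1 ≤ X) : chi X y = 1 := chi_one (by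
  linarith [dist_le_two (y := y) (z := 0) fun i => by simpa using e i, dist_zero_right y])

/-- the near and the far part of the source -/
theorem chi_cut {ξ : R4 → ℝ} {L B ε d D : ℝ} (L0 : 0 ≤ L) (hL : ∀ y z, |ξ y - ξ z| ≤ L * dist y z)
    (hB : ∀ y, |ξ y| ≤ B) (h1 : ∀ y, ξ y ≠ 0 → ‖y‖ ≤ 50⁻¹) (h2 : ∀ y, ‖y‖ < ε → ξ y = 1)
    (d0 : 0 < d) (d1 : d ≤ 1) (h3 : d * X ≤ 50⁻¹) (h4 : d * X ≤ ε) (hD : 2 * D + 1 ≤ X) :
    Nfn (chi X) (L + B + 1) ∧ Nfn (fun y => ξ (d • y) - chi X y) (L + B + 1) ∧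
      (∀ y, chi X y ≠ 0 → ∀ i, |y i| ≤ 50⁻¹ / d) ∧
      (∀ y, ξ (d • y) - chi X y ≠ 0 → ∀ i, |y i| ≤ 50⁻¹ / d) ∧
      ∀ y, ξ (d • y) - chi X y ≠ 0 → ∃ i, D ≤ |y i| := by
  have B0 := (abs_nonneg _).trans (hB 0)
  have nd : ∀ y : R4, ‖d • y‖ = d * ‖y‖ := fun y => by rw [norm_smul, norm_of_nonneg d0.le]
  have c := fun y e i => (chi_cube (X := X) (y := y) e i).trans ((le_div_iff₀' d0).2 h3)
  refine ⟨⟨by linarith, fun y => ?_, fun y z => (chi_lip z).trans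
    (le_mul_of_one_le_left dist_nonneg (by linarith))⟩, ⟨by linarith, fun y => ?_, fun y z => ?_⟩,
    c, fun y e i => ?_, fun y e => ?_⟩
  · rw [abs_of_nonneg chi_mem.1]
    linarith [(chi_mem (X := X) (y := y)).2]
  · have := abs_le.1 (hB (d • y))
    have := chi_mem (X := X) (y := y)
    exact abs_le.2 ⟨by linarith, by linarith⟩
  · have a := hL (d • y) (d • z)
    rw [dist_smul₀, norm_of_nonneg d0.le] at a
    rw [sub_sub_sub_comm]
    linarith [abs_sub (ξ (d • y) - ξ (d • z)) (chi X y - chi X z), chi_lip (X := X) (y := y) z,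
      mul_nonneg B0 (dist_nonneg (x := y) (y := z)), mul_le_mul_of_nonneg_left
        (mul_le_of_le_one_left (dist_nonneg (x := y) (y := z)) d1) L0]
  · by_cases u : ξ (d • y) = 0
    · exact c y (fun v => e (by rw [u, v, sub_zero])) i
    · exact (PiLp.norm_apply_le y i).trans ((le_div_iff₀' d0).2 (nd y ▸ h1 _ u))
  · by_contra! u
    have a := dist_le_two (y := y) (z := 0) fun i => by simpa using (u i).le
    rw [dist_zero_right] at a
    refine e (sub_eq_zero.2 ((h2 _ ?_).trans (chi_box (fun i => (u i).le) hD).symm))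
    rw [nd]
    exact (mul_lt_mul_of_pos_left (by linarith) d0).trans_le h4

theorem cube_one {γ η : ℝ} (h1 : |γ - 1| ≤ η / 7) (h2 : |γ - 1| ≤ 1) : |γ ^ 3 - 1| ≤ η := by
  rw [show γ ^ 3 - 1 = (γ - 1) * (γ ^ 2 + γ + 1) by ring, abs_mul]
  have := abs_le.1 h2
  have : |γ ^ 2 + γ + 1| ≤ 7 := abs_le.2 ⟨by nlinarith, by nlinarith⟩
  nlinarith [abs_nonneg (γ - 1), abs_nonneg (γ ^ 2 + γ + 1)]

theorem cut_num {L Y d A : ℝ} (L1 : 1000 ≤ L) (Y1 : 1 ≤ Y) (d0 : 0 < d) (hA : A ≤ L)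
    (e : Y * L * d * L ≤ 1) : d * (Y * L) * A ≤ 1 ∧ d * A ≤ 1 ∧ 2 * (A / 4 + 26 * Y) + 1 ≤ Y * L := by
  have a : d * (Y * L) * A ≤ 1 := (mul_le_mul_of_nonneg_left hA (by positivity)).trans (by linarith)
  have b : 1 ≤ Y * L := by nlinarith
  refine ⟨a, ?_, by nlinarith⟩
  rcases le_total A 0 with u | u
  · nlinarith
  · nlinarith [mul_le_mul_of_nonneg_left b (mul_nonneg d0.le u)]

end

variable {G : Gl} {c C j l J : ℕ} {Λ δ d : ℝ}

/-- the place of the cut -/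
theorem Ok.cut_le (h : G.Ok) (hB : pB c C * G.K + pB c C ≤ G.Bk l) (V : G.Lv c j l Λ δ d) :
    (G.L l : ℝ) ^ (G.K0 + 2 * (pP c * G.K)) * G.L l ≤ d * 3 ^ G.e (G.lJ c l) ∧
      (G.L l : ℝ) ^ (G.K0 + 2 * (pP c * G.K)) * G.L l * d * G.L l ≤ 1 := by
  have k := h.K0_le
  have L := h.L1 l
  have e : G.lJ c l = l + (G.K * (41 * pT c + 8102) + 21) := by unfold lJ li lk; ring
  have p : pT c * G.K = 3 * (pP c * G.K) + 70 * G.K := by rw [pT]; ring
  rw [← pow_succ]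
  constructor
  · have a : (G.L l : ℝ) ^ (G.lJ c l - l) ≤ G.rt (G.lJ c l) l := by
      exact_mod_cast h.le_rt l (by omega)
    rw [← h.rt_e (show l ≤ G.lJ c l by omega), mul_left_comm d]
    exact (pow_le_pow_right₀ (by linarith) (by rw [e, Nat.add_sub_cancel_left]; nlinarith)).trans
      (a.trans (le_mul_of_one_le_right (Nat.cast_nonneg _) V.one))
  · have a := (h.Lbk l (i := G.K0 + 2 * (pP c * G.K) + 1 + (G.K0 + 2) + 1) (le_trans (by
      unfold pB; nlinarith [Nat.zero_le ((41 * pT c + 8200) * (C + 1) * G.K)])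
        (le_of_add_le_left hB))).trans (h.b_e l)
    refine le_of_mul_le_mul_right ?_ (pow_pos three_pos (G.e l))
    rw [one_mul]
    refine le_trans ?_ a
    rw [pow_succ _ (_ + _ + _ + _), pow_add _ (_ + _ + _), mul_right_comm, mul_assoc _ d]
    gcongr
    exact V.up

variable {β : ℕ × ℕ → ℝ}

/-- the third moment at short distances -/
theorem Oks.mn_of (o : G.Oks) (hβ : G.Tus β)
    (H : ∀ c j, 4 ≤ c → ∀ᶠ l in atTop, ∀ m, (G.wm m).Fe3 c j l ∧ (G.wm m).Cm3 c j l)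
    (ξ f g : R4 → ℝ)
    (hξ : S3.Ds (Metric.ball 0 (1 / 100)) ξ) (h1 : ∀ᶠ y in 𝓝 0, ξ y = 1)
    (hf : S3.Ds Set.univ f) (hg : S3.Ds (tsupport f)ᶜ g) (δ : ℝ) (δ0 : 0 < δ) :
    ∀ᶠ t : ℝ in 𝓝[>] 0, ∀ᶠ p in (⊤ : Filter ℕ) ×ˢ atTop,
      |log t⁻¹ ^ 3 * YM7.corr (Fi.tr haar) (β p) (G.nn p) (G.aa p)
        ![ξ, fun y => f (t⁻¹ • y), fun y => g (t⁻¹ • y)] -
          2 / (11 * GD.b0 / (48 * π ^ 2)) * Pur.kap ![f, g]| ≤ δ := by
  have hh : (Fi.tr haar).IsHaarMeasure := (inferInstance : haar.IsHaarMeasure)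
  obtain ⟨C, hC⟩ := Ope.tri_core (Fi.tr haar)
  have ad : Adm ![f, g] := ⟨fun i => by
      fin_cases i
      exacts [⟨hf.2.1, hf.1.of_le (by simp)⟩, ⟨hg.2.1, hg.1.of_le (by simp)⟩], fun i j e => by
    have := Set.disjoint_left.2 fun y hy hy' => hg.2.2 hy hy'
    fin_cases i <;> fin_cases j
    exacts [(e rfl).elim, this.symm, this, (e rfl).elim]⟩
  obtain ⟨η, η0, D, D1, hD⟩ := hC _ ad 1 δ δ0
  obtain ⟨Λ, d1, H1⟩ := ad.tf
  obtain ⟨L, hL⟩ := hξ.1.lipschitzWith_of_hasCompactSupport hξ.2.1 (by simp)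
  obtain ⟨B, hB⟩ := hξ.1.continuous.bounded_above_of_compact_support hξ.2.1
  obtain ⟨ε, ε0, hε⟩ := Metric.eventually_nhds_iff_ball.1 h1
  obtain ⟨c, c4⟩ : ∃ c, 4 ≤ c := ⟨_, le_rfl⟩
  have o0 := (o 0).1
  obtain ⟨j, j0, j1⟩ := ((eventually_gt_atTop 0).and
    (o0.L_nat.eventually_ge_atTop (1000 * 3 ^ c))).exists
  obtain ⟨E, hE⟩ : ∃ E, E = (L + B + 1) * Λ ^ 2 * (10 * (G.mr4 j (3 ^ (G.e j - 1)) 3 *
    exp (3 * G.mr4 j (3 ^ (G.e j - 1)) 3)) + 2) := ⟨_, rfl⟩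
  have B0 := (norm_nonneg _).trans (hB 0)
  have L0 := L.coe_nonneg
  have Λ1 := H1.one
  have ε1 := inv_pos.2 ε0
  have E0 : 0 < E := by rw [hE, mr4]; positivity
  filter_upwards [o0.ev_lv Λ1 H1.pos j1 ((o0.lw_ev c j (4 * (D + Λ) + ε⁻¹ + 50 * (L + B + 1))
    (lt_min (lt_min (div_pos η0 (show 0 < 7 by norm_num)) one_pos) (div_pos η0 E0))).and
    ((o0.sch.Btop.eventually_ge_atTop (pB c (2 * C) * G.K + pB c (2 * C))).and (H c j c4)))]
    with d ⟨l, ⟨w, hb, H⟩, V⟩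
  filter_upwards [tendsto_snd.eventually_ge_atTop (G.lJ c l)] with p hp
  obtain ⟨h, -⟩ := o p.1
  obtain ⟨b, t⟩ := h.run (G.lJ c l)
  have V' : (G.wm p.1).Lv c j l Λ d1 d := ⟨V.1, V.2, V.3, V.4, V.5, V.6, V.7, V.8⟩
  have o1 : l < G.lJ c l := by unfold Gl.lJ Gl.li Gl.lk; omega
  obtain ⟨x1, x2⟩ := h.cut_le hb V'
  have d0 := V.d0
  have Y1 : 1 ≤ ((G.wm p.1).L l : ℝ) ^ ((G.wm p.1).K0 + 2 * (pP c * (G.wm p.1).K)) :=
    one_le_pow₀ (by linarith [h.L1 l])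
  obtain ⟨x3, x4, x5⟩ := cut_num (h.L1 l) Y1 d0 w.2.2.2.2.1 x2
  have x6 := w.2.2.2.2.1.trans (h.d_big V' o1)
  generalize _ * ((G.wm p.1).L l : ℝ) = X at x1 x3 x5
  have X0 : 2 * D + 1 ≤ X := by linarith
  have p0 : 0 ≤ d * X := mul_nonneg d0.le (by linarith)
  have p1 : ∀ {A : ℝ}, 0 < A → A ≤ 4 * (D + Λ) + ε⁻¹ + 50 * (L + B + 1) → d * X ≤ A⁻¹ ∧ d ≤ A⁻¹ :=
    fun a a' => by
      rw [← one_div, le_div_iff₀ a, le_div_iff₀ a]
      exact ⟨(mul_le_mul_of_nonneg_left a' p0).trans x3,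
        (mul_le_mul_of_nonneg_left a' d0.le).trans x4⟩
  have p2 := (p1 (A := 50 * (L + B + 1)) (by positivity) (by linarith)).2
  rw [mul_inv, ← div_eq_mul_inv, le_div_comm₀ d0 (by positivity)] at p2
  obtain ⟨n1, n2, s1, s2, far⟩ := chi_cut (X := X) (ε := ε) L0 hL.dist_le_mul hB (fun y e =>
    (mem_ball_zero_iff.1 (hξ.2.2 (subset_tsupport _ e))).le.trans (by norm_num))
    (fun y e => hε y (mem_ball_zero_iff.2 e)) d0
    ((p1 one_pos (by linarith)).2.trans_eq inv_one) (p1 (by norm_num) (by linarith)).1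
    ((p1 ε1 (by linarith)).1.trans_eq (inv_inv _))
    (D := Λ + 26 * ((G.wm p.1).L l : ℝ) ^ ((G.wm p.1).K0 + 2 * (pP c * (G.wm p.1).K)))
    (by linarith)
  obtain ⟨γ, g1, g2⟩ := h.cmp_three hb w V' H1 c4 j0 (H p.1).1 (H p.1).2 t (hβ p) hp n1 n2 s1 s2
    (by linarith) p2 (mul_div_cancel₀ _ d0.ne').le far
  have g4 := w.2.2.2.2.2.1
  simp only [le_min_iff] at g4
  refine hD _ (3 ^ G.e (G.lJ c l))⁻¹ b d X (γ ^ 3) _ (chi X) (by positivity) ?_ (by linarith) ?_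
    (h.top_two t).2 (fun _ => chi_cube) (fun y => abs_le.2 ⟨by
      linarith [(chi_mem (X := X) (y := y)).2], by linarith [(chi_mem (X := X) (y := y)).1]⟩)
    (fun y e => chi_box e X0) ?_ (cube_one (g1.trans g4.1.1) (g1.trans g4.1.2)) ?_
  · rw [div_inv_eq_mul]
    exact le_trans (by linarith) x6
  · rw [div_inv_eq_mul]
    refine le_trans ?_ (((le_div_iff₀' two_pos).2
      (h.lw_pow hb le_rfl d0.le (V'.up.trans_eq (pow_succ' ..)))).trans (h.top_half t))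
    rw [pow_mul, sq]
    exact pow_le_pow_left₀ (mul_nonneg (by linarith) (by positivity))
      (mul_le_mul_of_nonneg_right x1 (by positivity)) _
  · rw [inv_inv]
    have := t.v _ le_rfl
    rw [Gl.zz_top] at this
    exact (w.2.2.2.2.2.2 _ b o1.le this).trans ((min_le_left ..).trans ((min_le_left ..).trans
      (by linarith)))
  · refine le_trans (le_of_eq ?_) (g2.trans (hE ▸ (le_div_iff₀' E0).1 g4.2 :))
    congr 4
    funext i y
    fin_cases i <;> simp [smul_inv_smul₀ d0.ne']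

end Pool.Agent.Lib.MP_7f377f_mp.RG.Q4.En.Gl
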