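import Pool.Agent.Lib.MP_7f377f_mp.G.AnD
import Pool.Agent.Lib.MP_7f377f_mp.G.S15A
import Pool.Agent.Lib.MP_7f377f_mp.G.S23H1
import Pool.Agent.Lib.MP_7f377f_mp.G.S23C3
import Pool.Agent.Lib.MP_7f377f_mp.G.S23B2

/-! The third moments with an overlapping source from the bounds for pairs. -/

noncomputable section

namespace Pool.Agent.Lib.MP_7f377f_mp.An

open Filter Topology Set YM7 S3 RG RG.Q4 RG.Q4.En

theorem tri_of [GD] {G β U S₀ S} (R : Rn G β U S₀ S) (j2 : G.J2R)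
    (pz : ∀ᶠ l in atTop, ∀ m b J, (G.wm m).Tu b J → l < J →
      (G.wm m).Pz3 b J l ∧ (G.wm m).Pc b J l)
    (hq : ∀ c, 4 ≤ c → ∀ᶠ l in atTop, ∀ m, (G.wm m).Hq c l)
    (nr : ∀ a v f g, Ds univ a → Ds univ v → Rad a → Rad v → ∀ hf : Adm ![f], Ds Sb f → Ds Sb g →
      Ds (tsupport f)ᶜ g → ∀ δ > (0 : ℝ), ∀ᶠ s : ℝ in 𝓝[>] 0, ∀ᶠ e : ℕ in atTop, ∀ᶠ p in L6.fast,
        |∑ x ∈ (Ope.fin_gp hf e).toFinset, (3 ^ e)⁻¹ ^ 4 * f (Ope.gp e x) *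
          corr (Fi.tr haar) (β p) (G.nn p) (G.aa p)
            ![bz s (Ope.gp e x) a, bz s (Ope.gp e x) v, g]| ≤ δ * s ^ 4) :
    Tri U fun p => corr (Fi.tr haar) (β p) (G.nn p) (G.aa p) := by
  have o := (R.ok 0).1
  refine ⟨fun g B hg hB _ => R.ok.tri_bd R.tu (Gl.ov2_of R.ok j2) R.lim.le g B
      ⟨hg.1, hg.2.1, subset_univ _⟩ hB,
    fun a v f g h1 h2 h3 h4 hf h5 h6 h7 δ δ0 => (nr a v f g h1 h2 h3 h4 hf h5 h6 h7 δ δ0).mono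
      fun s u => u.mono fun e => Eventually.filter_mono R.lim.le,
    fun ξ f g h1 h2 h3 h4 δ δ0 => (R.ok.mn_of R.tu (fun c j c4 => ?_) ξ f g h1 h2 h3 h4 δ δ0).mono
      fun t => Eventually.filter_mono (R.lim'.le.trans (prod_mono_left _ le_top))⟩
  filter_upwards [Gl.fe3_ev R.ok (pz.mono fun l e m b J t u => (e m b J t u).1) c j, pz, hq c c4,
    o.lw_ev c j 0 one_pos, o.sch.Btop.eventually_ge_atTop (pB c 0 * G.K + pB c 0)]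
    with l a1 a2 a3 a4 a5 m
  exact ⟨a1 m, (R.ok m).1.cm3_of (R.ok m).2 a5 a4 (by omega) (a2 m) (a3 m)⟩

end Pool.Agent.Lib.MP_7f377f_mp.An
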