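import Pool.Agent.Lib.MP_7f377f_mp.G.S23N0

/-! Abstract classes of words: scalar slots. -/

noncomputable section

open Pool.Agent.Lib.MP_7f377f_mp.Jet

set_option linter.unusedSectionVars false
variable [Pool.Agent.Lib.MP_7f377f_mp.GD]

namespace Pool.Agent.Lib.MP_7f377f_mp.RG.Q4.En.Gl

open Finset Real Sg Br YM7 Ob Pos Ty Mg
open Weak (Site corner)
open scoped Classical

variable {G : Gl} {b a a' N A μ ν τ : ℝ} {J k l n' s ρ : ℕ} [NeZero (G.N J)] [NeZero n']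
  {R : Wc (G.N J)} {B : Cfg (G.N J) → ℝ} {I : (Site 4 (G.N J) → ℝ) → Ac} {φ : Site 4 (G.N J) → ℝ}

/-- the flow with growing radii -/
theorem Ok.sl_ov {γ : Type} [Fintype γ] [DecidableEq γ] (h : G.Ok) (t : G.Tu b J) (hp : G.Pu)
    (kJ : k ≤ J) {X : γ → Conf → ℂ} {Y : Fy γ} {W : γ → Finset St} {r : ℕ → γ → ℝ} {m : ℕ → ℕ}
    (a1 : G.Fd k (G.zz b J k) univ (r k) (r k) (G.Q k ^ 329)⁻¹ Y
      fun s => G.tt (pr b (G.N J) X s) J k) (a2 : Y.bs = (G.zz b J k).d) (a3 : Y.Ec univ id)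
    (a4 : Y.Z = fun q => G.zs (W q) J k) (hl : l ≤ k)
    (sz : ∀ j, l ≤ j → j ≤ k → ∀ q, ∃ N, G.Q j ^ 223 * (r j q * N) ≤ G.bb j ∧
      G.Sz j N N (G.Q j ^ 100)⁻¹ (G.tn b J (Y.jt {q}) k j).1 (G.tn b J (Y.jt {q}) k j).2)
    (rad : ∀ j, l ≤ j → j ≤ k → 1 ≤ m j ∧ 40 * (m j : ℝ) ≤ G.Q j ∧
      Cls (G.N j) ((m j + 2) * (G.p j).D) univ id (fun q => G.zs (W q) J j) ∧
      ∀ q, 0 < r j q ∧ (j < k → r j q ≤ m j * r (j + 1) q))
    (bot : ∀ q, τ ≤ r l q ∧ G.Sz l N N (G.Q l ^ 100)⁻¹ (G.tn b J (Y.jt {q}) k l).1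
      (G.tn b J (Y.jt {q}) k l).2) (τ0 : 0 < τ) (N0 : 0 ≤ N)
    (hN : G.Q l ^ 273 * (τ * N) ≤ G.bb l) : G.Sl b J l X τ W := by
  have ne := nonempty_Icc.2 hl
  have e : ∀ j, l ≤ j → j ≤ k → ∀ q, (Icc l k).inf' ne (r · q) ≤ r j q :=
    fun j a a' q => inf'_le _ (mem_Icc.2 ⟨a, a'⟩)
  have p : ∀ q, 0 < (Icc l k).inf' ne (r · q) := fun q => (lt_inf'_iff _).2 fun j hj =>
    ((rad j (mem_Icc.1 hj).1 (mem_Icc.1 hj).2).2.2.2 q).1
  have s : ∀ {f}, HD (r k) f → HD (fun q => (Icc l k).inf' ne (r · q)) f := fun a =>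
    have e := e k hl le_rfl
    ⟨a.1.imp fun _ a U => (a U).shrink p e, fun s hs => a.2 s fun q => (hs q).trans_le (e q)⟩
  obtain ⟨c1, c2, c3, c4, -⟩ := h.chainG t hp kJ (l := l) (r := r) (m := m) (Y := Y)
    ⟨fun j a a' q _ => sz j a a' q, fun j a a' => by
      simpa only [a4, zs_zs kJ a'] using (rad j a a').2.2.1, fun j a a' => ⟨(rad j a a').1,
      (rad j a a').2.1, fun q => ⟨e j a a' q, ((rad j a a').2.2.2 q).2⟩⟩⟩
    ⟨a1.fi, a1.ma, s a1.eq.fst,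
      s a1.eq.snd, a1.eq.eq⟩ a2 a3 l hl le_rfl
  simp only [show ∀ f, G.tt (G.tt f J k) k l = G.tt f J l from fun f => dw_dw _ _ kJ l hl] at c1
  refine ⟨_, _, N, c1.mono (fun _ => τ0) (fun q => (bot q).1) le_rfl, c2, c4, N0, hN, fun q => ?_⟩
  rw [c3 q (mem_univ q), fw_Z l hl, a4]
  exact ⟨(bot q).2, (zs_zs kJ hl).le⟩

namespace Am

variable (M : G.Am b J k n' s ρ a R) (h : G.Ok) (t : G.Tu b J) (hp : G.Pu)
include M h t hp

theorem entry2 (H : R B I N) (hφ : Lqq a' φ) (a0 : 0 < a') (A0 : 0 < A) (hμ : |μ| ≤ A) {N' x : ℝ}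
    (hN : N ≤ N') (hx : |x| ≤ N') : G.Sz k (2 * G.Q k ^ 2 * (G.rt J k * (A * a' * 4)) * N')
      (2 * G.Q k ^ 2 * (G.rt J k * (A * a' * 4)) * N') (G.Q k ^ 280)⁻¹
      ((G.uk b J k I μ (μ * x) φ).1 - mL (G.fd J k fun y => ((μ * φ (Fi.cst _ y) : ℝ) : ℂ))
        ((0, I 1) - (x : ℂ) • G.tu b J k : Lx × Ac).1)
      ((G.uk b J k I μ (μ * x) φ).2 - mA (G.fd J k fun y => ((μ * φ (Fi.cst _ y) : ℝ) : ℂ))
        ((0, I 1) - (x : ℂ) • G.tu b J k : Lx × Ac).2) := by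
  have N0 := (M.pos H).1
  have r0 := Ok.rt_pos (G := G) J k
  have N1 := N0.trans_le hN
  obtain ⟨p1, p2, p3⟩ := Ok.lip_sy (G := G) (J := J) (ν := -(μ * x)) (x := A * N') hφ a0 (by
    rw [abs_neg, abs_mul]; exact mul_le_mul hμ hx (abs_nonneg _) A0.le)
  have s1 := h.sz_le (h.tv_pos t (fun _ hk => (h.tan_main hp t hk).1.sz) p1 (by positivity) p2 p3
    M.lt.le) (sqrt_nonneg _) (h.pe_two M.lt.le (by positivity)) (h.pe_two M.lt.le (by positivity))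
    (h.hy_sg k)
  have s2 := M.slow H (fun x => μ * φ x) _ (by positivity)
    (Ok.lip_sy (G := G) (J := J) hφ a0 hμ).1
  have p : 0 ≤ G.Q k ^ 2 * (G.rt J k * (A * a' * 4)) := by positivity
  have := mul_le_mul_of_nonneg_left hN p
  have p' : 0 ≤ G.Q k ^ 2 * (G.rt J k * (A * N' * a')) := by positivity
  refine (congrArg₂ (G.Sz k _ _ _) ?_ ?_).mp (h.sz_up (sz_add (h.rh0 k) s1 s2) (h.om0 k).le
    (by linarith) (by linarith))
  · funext y
    simp only [uk, mL, fd, neg_mul, Prod.fst_add, Prod.fst_sub, Prod.smul_fst, Pi.sub_apply,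
      Pi.add_apply, Pi.smul_apply, Pi.zero_apply]
    push_cast
    module
  · funext X
    simp only [uk, mA, fd, neg_mul, Prod.snd_add, Prod.snd_sub, Prod.smul_snd, Pi.sub_apply,
      Pi.add_apply, Pi.smul_apply]
    push_cast
    module

/-- the size of a slot -/
theorem dx_sz (lk : l < k) (l0 : 0 < l) (a0 : 0 < a') (a1 : G.rt J l * a' ≤ 1) (H : R B I N)
    (hφ : Lqq a' φ) (hD : G.Dx b J k l (I 1) N μ ν) : ∃ z : ℕ → ℝ, (∀ m, 0 < z m) ∧ z l = 1 ∧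
      z (l + 1) = 1 ∧ (∀ m, l < m → z m ≤ G.L m * z (m + 1)) ∧ z k * |ν| ≤ 1 ∧
      |μ| * z k * N * G.Q k ^ 7 ≤ 1 ∧ ∀ m, l ≤ m → m ≤ k →
      G.Sz m (G.Q m ^ 3 / z m) (G.Q m ^ 3 / z m) (G.Q m ^ 100)⁻¹
        (G.tn b J (G.uk b J k I μ ν φ) k m).1 (G.tn b J (G.uk b J k I μ ν φ) k m).2 := by
  have kJ := M.lt.le
  have N0 := (M.pos H).1
  have q0 := h.Q0 k
  have qk := h.cQ k (C := 10 ^ 20) le_rfl
  have q7 : 13 * G.Q k ^ 2 ≤ G.Q k ^ 7 := by
    rw [show 7 = 5 + 2 from rfl, pow_add]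
    exact mul_le_mul_of_nonneg_right (le_trans (by linarith) (le_self_pow₀ (h.Q1 k) (by norm_num)))
      (by positivity)
  have r0 := Ok.rt_pos (G := G) J k
  have ra : ∀ m, l ≤ m → m ≤ k → G.rt k m * (G.rt J k * a') ≤ 1 := fun m h1 h2 => by
    rw [← mul_assoc, ← Nat.cast_mul, h.rt_mul h2 kJ]
    exact (mul_le_mul_of_nonneg_right (h.rt_anti h1 (h2.trans kJ)) a0.le).trans a1
  have Q3 : ∀ m, 1 ≤ G.Q m ^ 3 := fun m => one_le_pow₀ (h.Q1 m)
  rcases hD with ⟨N', x, hN, hx, rfl, hμ, hs⟩ | ⟨rfl, hν⟩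
  · have N1 := N0.trans_le hN
    have c0 := h.cP0 (l + 1) k
    obtain ⟨A, A0, A1⟩ : ∃ A, 0 < A ∧ A * (G.cP (l + 1) k * N' * G.Q k ^ 7) = 1 :=
      ⟨_, by positivity, inv_mul_cancel₀ (by positivity)⟩
    have A2 : |μ| ≤ A := le_of_mul_le_mul_right (a := G.cP (l + 1) k * N' * G.Q k ^ 7)
      (by linarith) (by positivity)
    obtain ⟨q1, q2, -⟩ := Ok.lip_sy (G := G) (J := J) hφ a0 A2
    refine ⟨G.cP (l + 1), h.cP0 _, by simp [cP], cP_top, fun m hm => ?_, ?_,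
      le_trans (by gcongr) hμ, fun m h1 h2 => ?_⟩
    · have := h.pw_cP (i := m + 1) m m.le_succ
      rw [h.rt_step m.lt_succ_self, rt_top, cP_step m.lt_succ_self, cP_top] at this
      rw [cP, cP, prod_Ico_succ_top hm]
      push_cast at this
      simp only [Nat.add_sub_cancel_left, pow_one, mul_one] at this
      nlinarith only [this, h.cP0 (l + 1) m, show ∏ n ∈ Ico (l + 1) m, 2 * G.cr n = G.cP (l + 1) m from rfl]
    · rw [abs_mul]
      have := mul_le_mul_of_nonneg_left hx (mul_nonneg (abs_nonneg μ) c0.le)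
      nlinarith only [this, hμ, mul_le_mul_of_nonneg_left (one_le_pow₀ (h.Q1 k) (n := 7))
        (show 0 ≤ |μ| * G.cP (l + 1) k * N' by positivity)]
    · have s := h.slot t kJ N1 (j := 0) (fun m _ hm => hs m hm) (fun _ => q2 _)
        (h.fd_lip q1 k kJ) (by positivity) (by positivity) (M.entry2 h t hp H hφ a0 A0 A2 hN hx) h2
        (l0.trans_le h1)
      have e : G.cP m k * (G.rt k m * (2 * G.Q k ^ 2 * (G.rt J k * (A * a' * 4)) * N' + G.Q m ^ 2 *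
          (G.rt J k * (A * a' * 4)) * N') + A * N') ≤ G.Q m ^ 3 / G.cP (l + 1) m := by
        have b1 : G.cP (l + 1) m * G.cP m k ≤ G.cP (l + 1) k := by
          rcases h1.eq_or_lt with rfl | h1
          · rw [cP_step lk, show G.cP (l + 1) l = 1 by simp [cP], one_mul]
            exact mul_le_of_le_one_left c0.le (by linarith [h.cr1 l, h.cr0 l])
          · exact (prod_Ico_consecutive _ h1 h2).le
        have b2 : G.Q m ^ 2 ≤ G.Q k ^ 2 := pow_le_pow_left₀ (h.Q0 m).le (h.Q_mono h2) _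
        have b3 := ra m h1 h2
        have p : 0 ≤ G.rt k m * (G.rt J k * a') := by positivity
        have b4 : G.rt k m * (2 * G.Q k ^ 2 * (G.rt J k * (A * a' * 4)) * N' + G.Q m ^ 2 *
            (G.rt J k * (A * a' * 4)) * N') + A * N' ≤ A * N' * G.Q k ^ 7 := by
          have : G.rt k m * (G.rt J k * a') * (8 * G.Q k ^ 2 + 4 * G.Q m ^ 2) + 1 ≤ G.Q k ^ 7 := by
            nlinarith only [mul_le_mul_of_nonneg_right b3 (show 0 ≤ 8 * G.Q k ^ 2 + 4 * G.Q m ^ 2 by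
              positivity), b2, q7, one_le_pow₀ (h.Q1 k) (n := 2)]
          nlinarith only [mul_le_mul_of_nonneg_left this (show 0 ≤ A * N' by positivity)]
        rw [le_div_iff₀' (h.cP0 _ _), ← mul_assoc]
        refine le_trans (mul_le_mul b1 b4 (by positivity) c0.le) ?_
        linarith [Q3 m]
      exact h.sz_le s (h.om0 m).le e e (h.om_100 m)
  · exact M.dv_sz h t hp lk l0 a0 a1 H hφ (.inr (.inr ⟨rfl, hν⟩))

theorem ks2 (lk : l < k) : G.Ks b J l n' s ρ a (G.Dy b J k l R) := by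
  refine ⟨fun y e L => e (y :: L), fun {B ν} e => ?_, fun {B ν} e lam c a1 a2 U V a3 => ?_,
    fun γ _ _ B ν φ a' l0 a0 a1 a2 hB hφ hs => ?_⟩
  · obtain ⟨B₀, I, N, μ, H, -, z⟩ := e []
    exact (funext z : B = _) ▸ (M.pos H).2.2.1.const_mul μ
  · obtain ⟨B₀, I, N, μ, H, -, z⟩ := e []
    exact (z _).trans ((congrArg _ ((M.pos H).2.2.2 lam c a1 a2 U V a3)).trans (z _).symm)
  choose B₀ I N μ H hD e using fun q => hB q []
  choose z z0 z1 z2 z3 z4 z5 z6 using fun q => M.dx_sz h t hp lk l0 a0 a2 (H q) (hφ q) (hD q)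
  have s0 := h.sg0 l
  have kJ := M.lt.le
  have D0 : ∀ j, 0 < (G.L j : ℝ) ^ G.K0 * G.rt J j := fun j =>
    mul_pos (pow_pos (by linarith [h.L1 j]) _) (Ok.rt_pos J j)
  have d1 : 66 * ((G.L l : ℝ) ^ G.K0 * G.rt J l) ≤ G.dl J l := by exact_mod_cast Ok.dl_ge
  obtain ⟨X, Y, o, y1, y2, y3, y4, y5⟩ := M.arr γ B₀ I N μ ν (fun q => G.sg l * z q k) φ l lk
    (fun q => ⟨H q, TG.lqq_mono (hφ q) a1, mul_pos s0 (z0 q k), by
      rw [mul_assoc]; exact mul_le_of_le_one_right s0.le (z4 q), by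
      nlinarith only [mul_le_mul_of_nonneg_left (z5 q) s0.le]⟩) hs
  refine ⟨X, (congrArg (Xo _ X) (funext fun q => ltr_mul (B := B q) (e q))).mpr o, h.sl_ov t hp kJ
    (r := fun m q => G.sg l * z q m) (m := fun j => if j = l then 1 else G.L j) (N := G.Q l ^ 3)
    y1 y2 y3 y4 lk.le (fun j j1 j2 q => ⟨_, ?_, y5 q ▸ z6 q j j1 j2⟩) (fun j j1 j2 => ?_)
    (fun q => ⟨by rw [z1, mul_one], by simpa [z1, y5] using z6 q l le_rfl lk.le⟩)
    s0 (pow_pos (h.Q0 l) _).le ?_⟩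
  · rw [mul_assoc, mul_div_cancel₀ _ (z0 q j).ne']
    exact (le_of_eq (by ring)).trans (h.sg_bb j1 (i := 226) (by norm_num))
  · split_ifs with e
    · subst e
      refine ⟨le_rfl, by simpa using h.cQ j (by norm_num), ?_, fun q => ⟨mul_pos s0 (z0 q j),
        fun _ => by simp [z1, z2]⟩⟩
      exact h.zs_cls hs (by positivity) (by norm_num; linarith) le_rfl (j2.trans kJ)
    · have e' := lt_of_le_of_ne j1 (Ne.symm e)
      have L := h.L1 j
      refine ⟨le_trans (by norm_num) (h.L_big j), le_trans (by nlinarith) (h.LQ' j (i := 2)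
        (by norm_num)), h.zs_cls hs (by positivity) (le_trans (mul_le_mul_of_nonneg_right
          (by linarith) (D0 j).le) (h.dl_le e' (j2.trans kJ))) le_rfl (j2.trans kJ),
        fun q => ⟨mul_pos s0 (z0 q j), fun _ => ?_⟩⟩
      rw [mul_left_comm]
      exact mul_le_mul_of_nonneg_left (z3 q j e') s0.le
  · rw [sg, mul_comm (_ / _), ← mul_assoc, ← pow_add, mul_div_left_comm]
    exact mul_le_of_le_one_right (h.b0 l).le ((div_le_one (pow_pos (h.Q0 l) _)).2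
      (pow_le_pow_right₀ (h.Q1 l) (by norm_num)))

omit h t hp in
theorem dy_fld (hν : |ν| ≤ 1) : G.Dy b J k l R (fun _ => 0) ν := fun _ =>
  let ⟨B, I, N, H⟩ := M.ex
  ⟨B, I, N, 0, H, .inr ⟨rfl, hν⟩, fun _ => (zero_mul _).symm⟩

/-- scalar words without their marginal part -/
theorem dy_sca (H : R B I N) (e : ∀ g ∈ T1, ∀ U, B (Ob.cg g.1 U) = sb g.2 * B U) :
    ∃ ν : ℝ, |ν| ≤ 3 * N ∧ ∀ μ : ℝ, |μ| * (31 * N) * G.Q k ^ 7 ≤ 1 → l < k →
      G.Dy b J k l R (fun U => μ * B U) (μ * ν) := by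
  obtain ⟨m1, m2⟩ := M.sgn h (M.pos H).2.2.1 e
  have N0 := (M.pos H).1
  obtain ⟨c1, c2⟩ := h.sca_of t hp M.lt.le (M.tx H) m1 m2 N0 (div_mul_cancel₀ _ (by
    linarith [(abs_le.1 (h.df_rs t hp)).1] : G.rs b J 0 ((0, 1), (0, 1)) (G.df b J 0) ≠ 0)).symm
  refine ⟨_, c1.trans_eq (by ring), fun μ hμ _ L => ⟨B, I, N, μ, H, .inl ⟨31 * N, _, by linarith,
    c1.trans (by linarith), rfl, le_trans ?_ hμ, fun m hm => ?_⟩, fun U => congrArg _ ?_⟩⟩
  · have := h.Q0 k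
    gcongr
    exact mul_le_of_le_one_right (abs_nonneg _) (h.cP1 _ _)
  · rw [show 31 * N = 20 * N + 11 * N by ring]
    exact (c2 m hm).sz
  · induction L with
    | nil => rfl
    | cons j L ih =>
      refine (e (.inr j, false) (by fin_cases j <;> simp [T1, Ty.rf]) _).trans ?_
      rw [ih]
      simp [sb]

end Am

end Pool.Agent.Lib.MP_7f377f_mp.RG.Q4.En.Gl
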