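import Pool.Agent.Lib.MP_7f377f_mp.G.NsR

/-! Two separated slots: the covariance. -/

noncomputable section

open Pool.Agent.Lib.MP_7f377f_mp.Jet

set_option linter.unusedSectionVars false
variable [Pool.Agent.Lib.MP_7f377f_mp.GD]

namespace Pool.Agent.Lib.MP_7f377f_mp.RG.Q4.En.Gl

open Finset Real Sg Br YM7 Ob MeasureTheory
open Weak (Site corner)

/-- the constant of the covariance -/
def ck2 (G : Gl) (l u : ℕ) : ℝ :=
  cB 2 (cJ / G.g l * u ^ 4 + G.cz l u 2) (exp (G.cz l u 2)) * (G.sg l)⁻¹ ^ 2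

namespace Ok

variable {G : Gl} {b a a' Λ δ : ℝ} {J l n' s m u ρ μ Δ : ℕ} [NeZero (G.N J)] [NeZero n'] [NeZero m]
  {κ' : Type} [Fintype κ'] [DecidableEq κ'] {D : (Cfg (G.N J) → ℝ) → ℝ → Prop} (h : G.Ok)
  (tu : G.Tu b J) (hp : G.Pu) (K : G.Ks b J l n' s ρ a D) (hJ : l < J) (hN : G.N J = n' * s)
  (hs : s ∣ G.rt J l) (l0 : 0 < l) (a1 : a' ≤ a)
include h tu hp K hJ hN hs l0 a1

omit hp K hN hs l0 a1 in
/-- separated small slots at their own level -/
theorem fo_kt {ι : Type} [Fintype ι] [DecidableEq ι] {X : ι → Conf → ℂ} {W : ι → Finset St}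
    {M : ℝ} (S : G.Sl b J l X (G.sg l) W) (hc : Cls (G.N J) (G.dl J l) univ id W)
    (hM : ∀ x, (G.zs (W x) J l).card ≤ M) :
    ∃ Y, G.Fob b J l X (G.sg l)⁻¹ M Y ∧ Y.Ec univ id := by
  obtain ⟨Y, r0, N, e, e1, e3, N0, hN, sz⟩ := S
  have σ0 := h.sg_pos l
  have q := h.Q0 l
  have z := e1 ▸ h.bz_run tu hJ.le
  have c := h.zs_cls hc (C := 3) (j := l) (by norm_num) (by
    norm_num; exact_mod_cast dl_ge (G := G) (J := J) (l := l)) le_rfl hJ.le
  have n := h.pu_num (mul_nonneg σ0.le N0) ((mul_le_mul_of_nonneg_right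
    (pow_le_pow_right₀ (h.Q1 l) (by norm_num)) (mul_nonneg σ0.le N0)).trans hN)
  refine ⟨Y, ⟨_, _, _, _, _, _, (tu.gd l hJ.le).tz, e, z.2.1, z.2.2, fun s hs => pu_mono
    ((e.fi.mono e.fi.pos (fun _ => le_rfl) le_rfl fun q => (sz q).2).ml.pu_one (h.ρ0 l) c
      (mul_pos three_pos (h.D_pos l)) z.1 (fun x _ => h.sz_pu (sz x).1
        (mul_inv_cancel₀ (pow_pos q _).ne').le) (by positivity) fun x _ => (hs x).le) ?_,
    (h.th_le l).1, (h.th_le l).2, fun x =>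
      ⟨(inv_inv _).le, (Nat.cast_le.2 (card_le_card (sz x).2)).trans (hM x)⟩⟩, e3⟩
  linarith [h.inv_le l (show 211 < 212 by norm_num), inv_pos.2 (pow_pos q 212)]

theorem rg_kt (a0 : 0 < a') (a2 : G.rt J l * a' ≤ 1) (hn : G.N l = m * u) (m1 : 1 < m)
    (hD : G.dl J l + 2 * ρ ≤ Δ) (hμ : G.dl J l + 2 * ρ ≤ 2 * μ) :
    Ob.Rg (Fi.tr haar) b (G.rt J l * u) (Lk n' s D (κ' := κ') (G.rt J l * u) μ Δ a')
      (G.sg l)⁻¹ (G.sg l)⁻¹ (cJ / G.g l * u ^ 4 + G.cz l u (Fintype.card κ'))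
      (exp (G.cz l u (Fintype.card κ'))) := by
  have : (Fi.tr haar).IsHaarMeasure := (inferInstance : haar.IsHaarMeasure)
  have hN' : G.N J = m * (G.rt J l * u) := by rw [← h.rt_N hJ.le, hn, mul_left_comm]
  have hl : G.rt J l * u < G.N J := by
    have := (h.N_odd J).pos
    rw [hN'] at this ⊢
    exact lt_mul_of_one_lt_left (Nat.pos_of_mul_pos_left this) m1
  have hs' : s ∣ G.rt J l * u := hs.mul_right _
  have d0 : 0 < G.dl J l := by
    have : 0 < G.L l := by exact_mod_cast (show (0 : ℝ) < G.L l by linarith [h.L1 l])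
    unfold dl rt
    positivity
  have σ0 := inv_pos.2 (h.sg_pos l)
  refine h.rg_fo tu.b0 hJ.le σ0 hn (Nat.cast_nonneg _) ⟨?_, ?_, ?_⟩ fun O hO => ?_
  · rintro O ⟨B, ν, φ, -, e⟩ i
    exact (e i).2 ▸ cont_ltr (K.cont (e i).1)
  · rintro O ⟨B, ν, φ, p, e⟩ y
    exact ⟨fun i V => B i (Weak.refl y V), ν, _, p.rf hl y, fun i => ⟨K.rf y (e i).1,
      funext fun U => (congrFun (e i).2 _).trans (ltr_rcl hN hs' y U)⟩⟩
  · rintro O ⟨B, ν, φ, p, e⟩ i U V hU
    rw [(e i).2]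
    exact ltr_dl (K.dep (e i).1) hl (by omega) (p.mar i) hU
  choose A ν φ p e using hO
  have hμ' : (G.dl J l : ℝ) + 2 * ρ ≤ 2 * μ := by exact_mod_cast hμ
  have I := fun q : Site 4 m × κ' => (p q.1).inT (ρ := ρ) (δ := μ - ρ) hl (by omega) zero_le_one
    (by linarith) q.1 q.2
  have hc : Cls (G.N J) (G.dl J l) univ id fun q : Site 4 m × κ' =>
      sup (fat ρ fun x => φ q.1 q.2 (x - corner (G.rt J l * u) q.1)) := by
    rintro ⟨x, i⟩ - ⟨y, i'⟩ - v
    rcases eq_or_ne x y with rfl | w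
    · exact sep_sp ((p x).sp hD _) fun w => v (Prod.ext rfl w)
    · exact (sep_cell hN' one_pos (I (x, i)) (I (y, i')) w).mono (by linarith) (by rfl) (by rfl)
  obtain ⟨X, o, S⟩ := K.core _ _ _ _ _ l0 a0 a1 a2 (fun q : Site 4 m × κ' => (e q.1 q.2).1)
    (fun q => TG.lqq_sub ((p q.1).lp q.2) _) hc
  obtain ⟨Y, y1, y2⟩ := h.fo_kt tu hJ S hc fun x => Nat.cast_le.2 (h.zs_cell one_pos I hJ.le
    (by linarith [Nat.cast_nonneg (α := ℝ) (G.dl J l)]) x)
  refine ⟨X, Y, ?_, y1, fun T hT i hi j hj v => y2 T hT i hi j hj fun w => v (congrArg _ w),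
    fun T hT => by rw [jd_two y2 (subset_univ T) hT, norm_zero]; positivity⟩
  refine (congrArg (Xo _ X) (funext₂ fun q U => ?_)).mpr o
  rw [arr, (e q.1 q.2).2, ltr_shift hN hs']

/-- the covariance of two slots near the origin -/
theorem two_tf {f : Fin 2 → R4 → ℝ} {B : Fin 2 → Cfg (G.N J) → ℝ} {ν : Fin 2 → ℝ}
    (H : YM7.Tf f Λ δ) (ha : a' * 3 ^ G.e J = 1) (hn : G.N l = m * (3 * u)) (m5 : 5 < m)
    (hu : 2 * Λ + 2 ≤ a' * (G.rt J l * u : ℕ)) (hd : a' * (G.dl J l + 2 * ρ : ℕ) ≤ δ) (δ1 : δ ≤ 1)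
    (e : ∀ i, D (B i) (ν i)) :
    |∫ U, ∏ i, Ob.ce (Fi.tr haar) b (ltr n' s (B i) 1 (ν i) fun y => Λ⁻¹ * f i (xp a' y)) U
      ∂wilson (Fi.tr haar) b (G.N J)| ≤ G.ck2 l (3 * u) := by
  have : (Fi.tr haar).IsHaarMeasure := (inferInstance : haar.IsHaarMeasure)
  have x0 : 0 < a' := pos_of_mul_pos_left (ha ▸ one_pos) (by positivity)
  obtain ⟨w, hw⟩ : ∃ w, w = G.rt J l * u := ⟨_, rfl⟩
  have e1 : G.rt J l * (3 * u) = 3 * w := by rw [hw]; ring
  have hN' : G.N J = m * (3 * w) := by rw [← e1, ← h.rt_N hJ.le, hn, mul_left_comm]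
  have w0 : 0 < w := Nat.pos_of_mul_pos_left (Nat.pos_of_mul_pos_left (hN' ▸ (h.N_odd J).pos))
  have n1 : 18 * w ≤ G.N J := by nlinarith
  have n2 : a' * (18 * w) ≤ a' * G.N J := mul_le_mul_of_nonneg_left (by exact_mod_cast n1) x0.le
  have w1 : a' ≤ a' * w := le_mul_of_one_le_right x0.le (by exact_mod_cast w0)
  have r0 := H.one
  rw [← hw] at hu
  have A := (h.rg_kt (κ' := Fin 2) (a' := 1⁻¹ * a') tu hp K hJ hN hs l0 (by simpa) (by positivity)
    (by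
      rw [inv_one, one_mul]
      exact (le_mul_of_one_le_right (mul_pos (rt_pos _ _) x0).le
        (one_le_pow₀ (by norm_num))).trans_eq (h.rt_a hJ.le ha)) hn (by omega) le_rfl
    (μ := G.dl J l + 2 * ρ) (by omega)).clu le_rfl ⟨B, ν, _, pc_xp H x0 one_pos
      (z := Pur.dg (a' * w)) (fun _ => by
        rw [e1, Nat.cast_mul 3]; constructor <;> simp only [Pur.dg, Nat.cast_ofNat] <;> linarith)
      (by linarith) (by rw [e1, Nat.cast_mul 3, Nat.cast_ofNat]; linarith), fun i => ⟨e i, rfl⟩⟩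
    0 1 1 (by simp) (by omega)
  have e2 : ∀ U : Cfg (G.N J), Ob.fl (G.rt J l * (3 * u)) 0 U = U := fun U => by
    funext e
    simp only [Ob.fl, Pi.zero_apply, Int.not_odd_zero, if_false, List.foldr_fixed, mul_zero,
      Int.cast_zero]
    exact congrArg U (Prod.ext (add_zero _) rfl)
  simp only [show Pur.cells 0 1 = {0} by decide, prod_singleton, e2, card_singleton, pow_one,
    Fintype.card_fin, inv_one, one_smul] at A
  have c := fun i => cont_ltr (n' := n') (s := s) (μ := 1) (ν := ν i)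
    (φ := fun y => Λ⁻¹ * f i (xp a' y)) (K.cont (e i))
  have e3 : ∀ i, ltr n' s (B i) 1 (ν i) (fun y => Λ⁻¹ * f i (xp a' y - Pur.dg (a' * w))) =
      fun U => ltr n' s (B i) 1 (ν i) (fun y => Λ⁻¹ * f i (xp a' y))
        (Weak.shift (corner w (1 : Site 4 2)) U) := fun i => funext fun U => by
    rw [ltr_shift hN (hw ▸ hs.mul_right u)]
    congr 2 with y
    have := xp_add (V := a' * w) (s := fun _ => -w) (H.cube i) x0
      (fun _ => by simp [abs_mul, abs_of_pos x0]) (by linarith) y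
    refine congrArg _ (Eq.trans ?_ (this.symm.trans ?_))
    · congr 1 with l
      simp [Pur.dg, sub_eq_add_neg]
    · congr 2 with l
      simp [corner, sub_eq_add_neg, ZMod.val_one]
  simp only [e3, Ob.ce, YM7.ex, Weak.int_mp (mp_shift' (Fi.tr haar) b _) (c _)] at A
  rwa [Weak.int_mp (mp_shift' (Fi.tr haar) b _)
    (continuous_finsetProd _ fun i _ => (c i).fun_sub continuous_const)] at A

end Ok

end Pool.Agent.Lib.MP_7f377f_mp.RG.Q4.En.Gl
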