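import Pool.Agent.Lib.MP_7f377f_mp.G.S23B2
import Pool.Agent.Lib.MP_7f377f_mp.G.ObC

/-! Third moments with two overlapping sources: symmetrised sources. -/

noncomputable section

open Pool.Agent.Lib.MP_7f377f_mp.Jet

set_option linter.unusedSectionVars false
variable [Pool.Agent.Lib.MP_7f377f_mp.GD]

namespace Pool.Agent.Lib.MP_7f377f_mp.YM7

open Weak

variable {n m lam : ℕ} [NeZero n] {κ : Type} {a R δ : ℝ} {F : κ → Src n} {τ : κ → ℝ}
  {v : Site 4 n} {S : κ → κ → Prop} {D : ℕ}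

/-- translated sources are admissible -/
theorem clb_src {c : Site 4 m} (a0 : 0 < a) (δ0 : 0 < δ) (hl : lam ≤ n) (hn : 4 * R < a * n)
    (hF : ∀ i, Nrm a (τ i) (F i)) (hR : ∀ i x μ ν, F i x μ ν ≠ 0 → ∀ l, |xp a x l| ≤ R)
    (hv : ∀ l, δ + R ≤ a * ((v - corner lam c : Site 4 n) l).val ∧
      a * ((v - corner lam c : Site 4 n) l).val ≤ a * lam - δ - R)
    (hS : ∀ i j, S i j → ∀ x μ ν y μ' ν', F i x μ ν ≠ 0 → F j y μ' ν' ≠ 0 →
      ∃ l, D * a ≤ |xp a x l - xp a y l|) :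
    Clb a (fun _ => a) τ (fun _ => δ) lam S (fun _ _ => D) c fun i x => F i (x - v) := by
  refine ⟨fun i => ⟨?_, fun x μ ν h l => ?_⟩, fun i j s => ?_⟩
  · simpa only [Sz, Nrm, one_mul] using (hF i).sz.shift v
  · have b := hR i _ _ _ h l
    obtain ⟨c1, c2⟩ := hv l
    simp only [xp] at b
    generalize ht : ((x - v) l).valMinAbs = t at b
    generalize hu : (v - corner lam c : Site 4 n) l = u at c1 c2
    obtain ⟨b1, b2⟩ := abs_le.1 b
    have l' : (lam : ℝ) ≤ n := by exact_mod_cast hl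
    have u0 : (0 : ℝ) < u.val + t := (mul_pos_iff_of_pos_left a0).1 (by linarith)
    have u1 : (u.val + t : ℝ) < n := lt_of_mul_lt_mul_left (by nlinarith) a0.le
    have e : (((x - corner lam c : Site 4 n) l).val : ℤ) = u.val + t := by
      rw [show (x - corner lam c : Site 4 n) l = (u.val + t : ℤ) by simp [← ht, ← hu],
        ZMod.val_intCast, Int.emod_eq_of_lt (by exact_mod_cast u0.le) (by exact_mod_cast u1)]
    have e' : (((x - corner lam c : Site 4 n) l).val : ℝ) = u.val + t := by exact_mod_cast e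
    rw [e']
    constructor <;> linarith
  · intro t t' e x μ ν y μ' ν' h h'
    obtain ⟨l, hl⟩ : ∃ l, D * a ≤ |xp a (x - v) l - xp a (y - v) l| := by
      cases t <;> cases t'
      · exact (e rfl).elim
      · simpa only [abs_sub_comm] using hS i j s _ _ _ _ _ _ h' h
      · exact hS i j s _ _ _ _ _ _ h h'
      · exact (e rfl).elim
    have a1 := hR _ _ _ _ h l
    have a2 := hR _ _ _ _ h' l
    simp only [xp, ← mul_sub, abs_mul, abs_of_pos a0] at hl a1 a2
    have c : |((x - v) l).valMinAbs + -((y - v) l).valMinAbs| * 2 < n := by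
      have : |(((x - v) l).valMinAbs - ((y - v) l).valMinAbs : ℝ)| * 2 < n :=
        lt_of_mul_lt_mul_left (by
          nlinarith [abs_sub (((x - v) l).valMinAbs : ℝ) ((y - v) l).valMinAbs]) a0.le
      exact_mod_cast this
    have d := vma_add c
    rw [Int.cast_neg, ZMod.coe_valMinAbs, show (x - v) l + -(y - v) l = (x - y) l by simp] at d
    refine ⟨l, ?_⟩
    have : (D : ℝ) ≤ |((x - y) l).valMinAbs| := by
      rw [d]; push_cast; exact le_of_mul_le_mul_left (by rw [← sub_eq_add_neg]; linarith) a0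
    rw [← Int.natCast_natAbs] at this
    exact_mod_cast this

end Pool.Agent.Lib.MP_7f377f_mp.YM7

namespace Pool.Agent.Lib.MP_7f377f_mp.RG.Q4.En.Gl

open Finset Real Sg Br YM7 Filter Topology
open scoped NNReal

variable {G : Gl} {J j m u : ℕ} {a b w Λ δ τ : ℝ}

theorem Ok.gb_one [NeZero (G.N J)] [NeZero m] (h : G.Ok) (b0 : 0 ≤ b) (hj : j ≤ J) (w0 : 0 < w)
    (hn : G.N j = m * u) (m1 : 3 ≤ m) (a1 : a * 3 ^ G.e J = 1) (τ0 : 0 ≤ τ)
    (hτ : 1.01 ^ (J - j) * (10 ^ 37 * (τ + 4 * a)) ≤ 1) (H : G.Ovt b J j w) (Λ1 : 1 ≤ Λ)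
    {F : Fin 3 → Src (G.N J)} (hF : ∀ i, Nrm a τ (F i))
    (hR : ∀ i x μ ν, F i x μ ν ≠ 0 → ∀ l, |xp a x l| ≤ Λ)
    (hs : ∀ i, i ≠ 2 → ∀ x μ ν y μ' ν', F i x μ ν ≠ 0 → F 2 y μ' ν' ≠ 0 →
      ∃ l, δ ≤ |xp a x l - xp a y l|) (δ1 : δ ≤ 1)
    (hδ : 128 ≤ δ * G.L j) (hl : 2 * Λ + 6 ≤ a * (G.rt J j * u : ℕ)) :
    |gcorr (Fi.tr haar) b (G.N J) F| ≤ G.mr3 j u * exp (3 * G.mr3 j u) * w ^ 3 := by
  have a0 : 0 < a := pos_of_mul_pos_left (a1 ▸ one_pos) (by positivity)
  have r := Ok.rt_pos (G := G) J j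
  have a2 : a ≤ 1 := a1 ▸ le_mul_of_one_le_right a0.le (one_le_pow₀ (by norm_num))
  have a3 : G.rt J j * a ≤ 1 := h.rt_a hj a1 ▸ le_mul_of_one_le_right
    (mul_pos r a0).le (one_le_pow₀ (by norm_num))
  have hn' : G.N J = m * (G.rt J j * u) := by rw [← h.rt_N hj, hn, mul_left_comm]
  have K : 1 ≤ G.L j ^ G.K0 * G.rt J j := Nat.mul_pos (pow_pos (by linarith [h.L_big j]) _)
    (pow_pos three_pos _)
  have hD : ((126 * (G.L j ^ G.K0 * G.rt J j) + 2 : ℕ) : ℝ) * a ≤ δ := by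
    have b := mul_le_mul_of_nonneg_left ((h.Lb j (i := G.K0 + 1) (by have := h.B1; omega)).trans
      (h.b_e j)) (mul_pos r a0).le
    have y0 : 0 ≤ (G.L j : ℝ) ^ G.K0 * (G.rt J j * a) := by positivity
    have K' : (1 : ℝ) ≤ G.L j ^ G.K0 * G.rt J j := by exact_mod_cast K
    have δ0 : 0 < δ := pos_of_mul_pos_left (lt_of_lt_of_le (by norm_num) hδ) (Nat.cast_nonneg _)
    rw [h.rt_a hj a1, pow_succ] at b
    push_cast
    nlinarith [mul_le_mul_of_nonneg_right hδ y0, mul_le_mul_of_nonneg_right K' a0.le,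
      mul_le_mul_of_nonneg_left b δ0.le]
  set lam := G.rt J j * u with hlam
  set D := 126 * (G.L j ^ G.K0 * G.rt J j)
  have hD' : (D : ℝ) ≤ 2 * 1 / a := by
    rw [le_div_iff₀ a0]
    push_cast at hD
    nlinarith
  have two : ∀ t, (univ.filter fun i : Fin 3 => decide (i = 2) = t).card ≤ 2 := by decide
  have M : ∀ {δ c} {F : Src (G.N J)}, 0 ≤ δ → YM7.InT (m := m) a δ lam c F →
      ((G.zs (sup F) J j).card : ℝ) ≤ ((2 * (u + 4 * G.L j ^ G.K0) + 1) ^ 4 : ℕ) := fun δ0 e => by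
    have := h.zs_card (sup_cell (h.N_odd J) a0 δ0 e) hj
    rw [hlam, Nat.mul_div_cancel_left _ (Nat.cast_pos.1 r)] at this
    exact Nat.cast_le.2 this
  have ml : (3 : ℝ) * lam ≤ G.N J := by
    rw [hn']
    exact_mod_cast Nat.mul_le_mul_right _ m1
  have ln : lam ≤ G.N J := Nat.cast_le (α := ℝ).1 (by linarith [lam.cast_nonneg (α := ℝ)])
  have l0 : 0 < lam := Nat.cast_pos (α := ℝ).1 ((mul_pos_iff_of_pos_left a0).1 (by linarith))
  have C := clb_src (m := m) (lam := lam) (c := 0) (δ := a * lam / 2 - (Λ + 1)) (D := D + 2)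
    (v := Fi.cst (G.N J) fun _ => (lam / 2 : ℕ)) (S := fun i j => ¬ (i = 2 ↔ j = 2)) a0
    (by linarith) ln (by nlinarith) hF hR (fun l => by
      have e1 : (2 * (lam / 2 : ℕ) : ℝ) ≤ lam := by exact_mod_cast Nat.mul_div_le lam 2
      have e2 : (lam : ℝ) ≤ 2 * (lam / 2 : ℕ) + 1 := by exact_mod_cast (by omega : lam ≤ _)
      simp only [Fi.cst, Weak.corner, Pi.sub_apply, Pi.zero_apply, ZMod.val_zero, mul_zero,
        Nat.cast_zero, sub_zero, Int.cast_natCast,
        ZMod.val_cast_of_lt ((Nat.div_lt_self l0 one_lt_two).trans_le ln)]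
      constructor <;> nlinarith) fun i j s x μ ν y μ' ν' hx hy => by
      by_cases e : j = 2
      · exact (hs i (fun k => s (iff_of_true k e)) _ _ _ _ _ _ hx (e ▸ hy)).imp fun _ => hD.trans
      · obtain rfl : i = 2 := by_contra fun k => s (iff_of_false k e)
        exact (hs j e _ _ _ _ _ _ hy hx).imp fun _ k => hD.trans (k.trans_eq (abs_sub_comm _ _))
  have hh : (Fi.tr haar).IsHaarMeasure := (inferInstance : haar.IsHaarMeasure)
  rw [← gcorr_shift _ _ _ (Fi.cst (G.N J) fun _ => (lam / 2 : ℕ))]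
  generalize (fun i x => F i (x - Fi.cst (G.N J) fun _ => (lam / 2 : ℕ))) = F at C
  have τ1 : 0 ≤ τ + 4 * a := by positivity
  have y := H _ _ (fun i => decide (i = 2)) F _ a _ D _ a0 τ1 a3 hτ (fun i => (C.1 i).1.imp
    fun g k => ⟨k.1, k.2.1, fun x μ ν => (k.2.2 x μ ν).trans (by linarith)⟩) (fun _ => Subset.rfl)
    (fun i _ j _ k => (clb_sep C (by simpa using k)).mono (by simp) Subset.rfl Subset.rfl)
    (by simp [D]) two fun i => M (by linarith) (C.1 i).2
  have R := h.red_clb (A := fun _ => 1) (τ := fun _ => τ + 4 * a)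
    (δ := fun _ => a * lam / 2 - (Λ + 2))
    (D := fun _ _ => D) b0 hj w0 hn (by omega) a0 (fun _ => by linarith) (fun _ => by linarith)
    (fun _ => le_rfl) (fun F hF => ?_) C (by simpa only [one_smul] using y.1)
    (Nat.cast_nonneg _)
  · have := R.gcorr3
    rwa [ce, if_neg univ_nonempty.ne_empty, y.2 _ Subset.rfl 0 (mem_univ _) 2 (mem_univ _)
      (by decide), add_zero, Complex.norm_real, prod_const_one, one_mul, Fintype.card_fin] at this
  · have c := clb_cell (δ0 := 1) hn' a0 (fun _ => by linarith) hF univ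
    have y := H _ _ (fun p : Weak.Site 4 m × Fin 3 => (p.1, decide (p.2 = 2)))
      (fun p => F p.1 p.2) _ a _ D _ a0 τ1 a3 hτ (fun p => ((hF p.1).1 p.2).1) (fun _ => Subset.rfl)
      (fun ⟨x, i⟩ u ⟨y, j⟩ u' k => by
        rcases eq_or_ne x y with rfl | e
        · exact clb_sep (hF x) (by simpa using k)
        · exact (c _ u _ u' e).mono hD' Subset.rfl Subset.rfl) (by simp [D])
      (fun y => (card_le_card_of_injOn Prod.snd (fun p hp => by
        simpa using congrArg Prod.snd (mem_filter.1 hp).2) fun p hp q hq e => Prod.ext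
          (Prod.mk.inj ((mem_filter.1 hp).2.trans (mem_filter.1 hq).2.symm)).1 e).trans (two y.2))
      fun p => M (by linarith) ((hF p.1).1 p.2).2
    exact ⟨_, by simpa only [one_smul] using y.1, fun T hT p hp q hq k =>
      y.2 T hT p hp q hq fun e => k (Prod.ext_iff.1 e).1⟩

variable {β : ℕ × ℕ → ℝ} (h : G.Oks) (hβ : G.Tus β) (H : ∀ᶠ j in atTop, ∃ w > 0, ∀ m b J,
  (G.wm m).Tu b J → j < J → (G.wm m).Ovt b J j w)
include h hβ H

/-- two sources near `B`, one source near `K` -/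
theorem Oks.bnd3 {B K : Set R4} (hB : IsCompact B) (hK : IsCompact K) (d : Disjoint B K) :
    ∃ C : ℝ, 0 ≤ C ∧ ∀ᶠ p in L6.fast, Bnd (n := G.nn p) (Fi.tr haar) (β p) (G.aa p)
      ((10 ^ 37)⁻¹ * En.ta p) C fun i : Fin 3 =>
        {x | ∃ y ∈ if i = 2 then K else B, dist y (xp (G.aa p) x) ≤ 10 * G.aa p} := by
  have o := (h 0).1
  obtain ⟨R, R0, hR⟩ := (hB.union hK).isBounded.exists_pos_norm_le
  obtain ⟨δ, δ0, hδ⟩ : ∃ δ > (0 : ℝ), ∀ y ∈ B, ∀ z ∈ K, δ ≤ dist y z := by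
    obtain ⟨δ, δ0, e⟩ := d.exists_cthickenings hB hK.isClosed
    exact ⟨δ, δ0, fun y hy z hz => le_of_not_gt fun u => Set.disjoint_left.1 e
      (Metric.mem_cthickening_of_dist_le z y δ B hy (dist_comm y z ▸ u.le))
      (Metric.self_subset_cthickening K hz)⟩
  have δ2 : 0 < min (δ / 5) 1 := by positivity
  obtain ⟨j, ⟨w, w0, H⟩, j1⟩ := (H.and (o.ev_L (128 / min (δ / 5) 1))).exists
  obtain ⟨e, he⟩ := pow_unbounded_of_one_lt (2 * (R + 1) + 6) (show (1 : ℝ) < 3 by norm_num)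
  refine ⟨|G.mr3 j (3 ^ (G.e j + e)) * exp (3 * G.mr3 j (3 ^ (G.e j + e))) * w ^ 3|,
    abs_nonneg _, ?_⟩
  have lim := h.lims hβ atTop
  filter_upwards [(L6.ev_fast.2 (.of_forall fun J => ((eventually_ge_atTop _).filter_mono
    L6.hyp_le).mono fun s hs => ⟨s, hs, Nat.two_mul_div_two_add_one_of_odd (odd3 s)⟩) :
      ∀ᶠ p in L6.fast, ∃ s, e + 1 ≤ s ∧ 2 * p.1 + 1 = 3 ^ s), L6.fast_le
    (tendsto_snd.eventually_ge_atTop (j + 3)), L6.fast_le
    (lim.2.2.eventually_ge_atTop (2 * 10 ^ 37)), L6.fast_le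
    ((lim.1.mono_right nhdsWithin_le_nhds).eventually_le_const
      (show 0 < min (δ / 5) 1 / 20 by positivity))] with p ⟨s, s0, m1⟩ p1 p2 p3 F hF hO
  obtain ⟨o', -⟩ := h p.1
  have a0 := G.aa_pos p
  have a1 : G.aa p * 3 ^ (G.wm p.1).e p.2 = 1 := inv_mul_cancel₀ (by positivity)
  have hj : j ≤ p.2 := by omega
  have t0 : 0 < En.ta p := inv_pos.2 (by positivity)
  change G.aa p ≤ _ at p3
  have d1 := min_le_left (δ / 5) 1
  have d2 := min_le_right (δ / 5) 1
  refine (o'.gb_one (m := 3 ^ (s - e)) (u := 3 ^ (G.e j + e)) (Λ := R + 1) (hβ p).b0 hj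
    w0 (by
      rw [← pow_add, show s - e + (G.e j + e) = s + G.e j by omega, pow_add, ← m1]; rfl)
    (le_self_pow₀ (by norm_num) (by omega)) a1 (by positivity) ((mul_le_mul_of_nonneg_left (by
      rw [le_div_iff₀ a0] at p2; linarith) (by positivity)).trans (ta_le (p := p) (by omega) j))
    (H _ _ _ (hβ p) (by omega)) (by linarith) hF (fun i x μ ν u l => ?_)
    (fun i hi x μ ν y μ' ν' hx hy => ?_) d2 ((div_le_iff₀' δ2).1 j1) (by
      have := o'.rt_a hj a1
      push_cast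
      rw [pow_add, ← mul_assoc, ← mul_assoc, mul_comm (G.aa p)]
      exact he.le.trans ((one_mul _).ge.trans (congrArg (· * _) this).ge))).trans (le_abs_self _)
  · obtain ⟨y, hy, e⟩ := hO i x μ ν u
    refine (PiLp.norm_apply_le _ l).trans ((norm_le_norm_add_norm_sub y _).trans ?_)
    rw [← dist_eq_norm]
    exact add_le_add (hR y (by split_ifs at hy <;> simp [hy])) (e.trans (by linarith))
  · by_contra! c
    obtain ⟨z, b1, e1⟩ := hO i x μ ν hx
    obtain ⟨z', b2, e2⟩ := hO 2 y μ' ν' hy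
    rw [if_neg hi] at b1
    linarith [(hδ z b1 z' b2).trans ((dist_triangle4_right z z' _ _).trans
      (add_le_add_three e1 e2 (dist_le_two fun l => (c l).le)))]

/-- sources which sample the test functions -/
theorem Oks.near3 {f : Fin 3 → R4 → ℝ} (hf : ∀ i, S3.Ds Set.univ (f i))
    (d : ∀ i, i ≠ 2 → Disjoint (tsupport (f i)) (tsupport (f 2)))
    {F : ∀ p, Fin 3 → Src (G.nn p)} (hN : ∀ᶠ p in L6.fast, ∀ i, Near (G.aa p) (F p i) (f i)) :
    Tendsto (fun p => gcorr (Fi.tr haar) (β p) (G.nn p) (F p) -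
      YM7.corr (Fi.tr haar) (β p) (G.nn p) (G.aa p) f) L6.fast (𝓝 0) := by
  have hh : (Fi.tr haar).IsHaarMeasure := (inferInstance : haar.IsHaarMeasure)
  obtain ⟨C, C0, hC⟩ := h.bnd3 hβ H ((hf 0).2.1.isCompact.union (hf 1).2.1) (hf 2).2.1
    (Set.disjoint_union_left.2 ⟨d 0 (by decide), d 1 (by decide)⟩)
  choose L hL using fun i => (hf i).1.lipschitzWith_of_hasCompactSupport (hf i).2.1 (by simp)
  obtain ⟨R, R0, hR⟩ := (isCompact_iUnion fun i => (hf i).2.1.isCompact).isBounded.exists_pos_norm_le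
  have h1 : ∀ i, ∀ y ∈ tsupport (f i), ‖y‖ ≤ R := fun i y hy => hR y (Set.mem_iUnion.2 ⟨i, hy⟩)
  obtain ⟨D, hD⟩ : ∃ D : ℝ, D = (∑ i, (L i : ℝ)) * (2 * R + 1) := ⟨_, rfl⟩
  have l1 : ∀ i, L i * (2 * R + 1) ≤ D := fun i => hD ▸ mul_le_mul_of_nonneg_right
    (single_le_sum (fun i _ => (L i).coe_nonneg) (mem_univ i)) (by positivity)
  have l2 : ∀ i, L i ≤ D := fun i =>
    (le_mul_of_one_le_right (L i).coe_nonneg (by linarith)).trans (l1 i)
  have D0 := (L 0).coe_nonneg.trans (l2 0)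
  have lim := h.lims hβ atTop
  have t0 := ((tendsto_inv_atTop_zero.comp lim.2.2).const_mul (10 ^ 38)).mono_left L6.fast_le
  have t1 := t0.const_mul (2 ^ 3 * (C * D ^ 3))
  rw [mul_zero] at t0
  rw [mul_zero, mul_zero] at t1
  refine squeeze_zero_norm' ?_ t1
  filter_upwards [hC, hN, t0.eventually_le_const one_pos, L6.fast_le
    ((tendsto_natCast_atTop_atTop (R := ℝ).comp tendsto_fst).eventually_ge_atTop (R + 1))]
    with p h4 h5 h7 h8
  have a0 := G.aa_pos p
  have a1 : G.aa p ≤ 1 := inv_le_one_of_one_le₀ (one_le_pow₀ (by norm_num))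
  have τ0 : 0 < En.ta p := inv_pos.2 (by positivity)
  have on : ∀ i (E : Src (G.nn p)), Near (G.aa p) E (f i) → YM7.On {x | ∃ y ∈ if i = 2 then
      tsupport (f 2) else tsupport (f 0) ∪ tsupport (f 1), dist y (xp (G.aa p) x) ≤ 10 * G.aa p} E :=
    fun i E hE x μ ν hx => by
      obtain ⟨t, ht, e⟩ := (hE x μ ν).resolve_left fun h => hx h.1
      have := subset_tsupport (f i) (e ▸ hx :)
      refine ⟨t, ?_, ht⟩
      fin_cases i
      exacts [.inl this, .inr this, this]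
  rw [corr_eq]
  refine h4.pert (ε := 10 ^ 38 * (En.ta p / G.aa p)⁻¹) C0 D0 (by positivity) h7
    (fun i => sz_src (hL i).dist_le_mul (fun y => (sup_le (hL i) R0.le
      (fun y hy => h1 i y (subset_tsupport _ hy)) y).trans (l1 i)) (cube_of (h1 i)) (l2 i) a0
      (by rw [aa_nn]; change _ ≤ (p.1 : ℝ) at h8; linarith) (by positivity))
    (fun i => sz_small (by positivity) a0.le fun x μ ν => ?_) (fun i => on i _ (h5 i))
    fun i => on i _ (near_src a0.le _)
  rcases h5 i x μ ν with e | ⟨t, ht, e⟩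
  · change |F p i x μ ν - f i (xp (G.aa p) x)| ≤ _
    rw [e.1, e.2, sub_zero, abs_zero]
    positivity
  · simp only [Pi.sub_apply, e]
    refine ((hL i).dist_le_mul _ _).trans
      ((mul_le_mul (l2 i) ht dist_nonneg D0).trans_eq ?_)
    field_simp

omit H in
/-- symmetrised sources -/
theorem Oks.sy3 (H : G.J2R) {f : Fin 3 → R4 → ℝ} (hf : ∀ i, S3.Ds Set.univ (f i))
    (d : ∀ i, i ≠ 2 → Disjoint (tsupport (f i)) (tsupport (f 2))) :
    Tendsto (fun p => YM7.corr (Fi.tr haar) (β p) (G.nn p) (G.aa p) f -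
      gcorr (Fi.tr haar) (β p) (G.nn p) fun i => Ob.sy fun x => f i (xp (G.aa p) x))
      L6.fast (𝓝 0) := by
  obtain ⟨R, R0, hR⟩ := (isCompact_iUnion fun i => (hf i).2.1.isCompact).isBounded.exists_pos_norm_le
  have := (h.near3 hβ (ovt_ev h H) hf d (F := fun p i => Ob.sy fun x => f i (xp (G.aa p) x)) ?_).neg
  · simpa only [neg_sub, neg_zero] using this
  filter_upwards [L6.fast_le
    ((tendsto_natCast_atTop_atTop (R := ℝ).comp tendsto_fst).eventually_ge_atTop (R + 2))]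
    with p h8 i
  have a1 : G.aa p ≤ 1 := inv_le_one_of_one_le₀ (one_le_pow₀ (by norm_num))
  exact Ob.near_sy (hf i).1.continuous (cube_of fun y hy => hR y (Set.mem_iUnion.2 ⟨i, hy⟩))
    (G.aa_pos p) (by rw [aa_nn]; change _ ≤ (p.1 : ℝ) at h8; linarith)

end Pool.Agent.Lib.MP_7f377f_mp.RG.Q4.En.Gl
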