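import Pool.Agent.Lib.MP_7f377f_mp.G.TyW
import Pool.Agent.Lib.MP_7f377f_mp.G.TyU
import Pool.Agent.Lib.MP_7f377f_mp.G.TyL
import Pool.Agent.Lib.MP_7f377f_mp.G.AnD

/-! Smeared products of two letters on the lattice. -/

noncomputable section

open Pool.Agent.Lib.MP_7f377f_mp.Jet

set_option linter.unusedSectionVars false
variable [Pool.Agent.Lib.MP_7f377f_mp.GD]

namespace Pool.Agent.Lib.MP_7f377f_mp.Ob

open MeasureTheory Weak Finset YM7 Pur An
open RG.Q4.En.Ty (T1 sb)

variable {n n' s e : ℕ} [NeZero n] [NeZero n'] {b a d w R R' c c' : ℝ} {u : Fin 2 → R4 → ℝ}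
  {f g : R4 → ℝ} [MeasurableSpace SU2] [BorelSpace SU2] (h : Measure SU2) [h.IsHaarMeasure]
  [IsProbabilityMeasure h]

/-- the product of two letters at the scale `d` -/
def wd2 (b a d w : ℝ) (u : Fin 2 → R4 → ℝ) (U : Cfg n) : ℝ :=
  w * ∏ i, cen h b (sy fun x => u i (xp (a / d) x)) U

/-- invariant letters give scalar words -/
theorem wd2_inv (hn : Odd n) (hu : ∀ i, Rad (u i)) :
    ∀ g ∈ T1, ∀ U : Cfg n, wd2 h b a d w u (cg g.1 U) = sb g.2 * wd2 h b a d w u U := by
  intro g hg U
  rw [show g.2 = false from (by decide : ∀ g ∈ T1, g.2 = false) g hg, sb, if_neg Bool.false_ne_true,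
    Int.cast_one, one_mul]
  refine congrArg (w * ·) (prod_congr rfl fun i _ => ?_)
  rw [← cen_of h b (mp_cg g.1) fun U => (gfield_sy_cg g.1 _ U).symm]
  simp only [← xp_sg1 hn, hu i _]

/-- the sum over the grid is a covariance -/
theorem wd2_cov (hf : Adm ![f]) (hR : ∀ y, f y ≠ 0 → ∀ l, |y l| ≤ R)
    (hu : ∀ i y, u i y ≠ 0 → ∀ l, |y l| ≤ R') (hn : n = n' * s) (a0 : 0 < a) (d0 : 0 < d)
    (R0 : 0 ≤ R') (hs : a * s = (3 ^ e)⁻¹) (hb : 2 * (R + R' * d + 2 * a) < a * n) :
    ∫ U, ce h b (smr n' s (wd2 h b a d w u) fun y : Site 4 n => c * f (xp a y)) U *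
      ce h b (gfield (sy fun y : Site 4 n => c' * g (xp a y))) U ∂wilson h b n =
    c * c' * ∑ x ∈ (Ope.fin_gp hf e).toFinset, w * f (Ope.gp e x) * gcorr h b n fun i => sy fun y =>
      (![bz d (Ope.gp e x) (u 0), bz d (Ope.gp e x) (u 1), g] : Fin 3 → R4 → ℝ) i (xp a y) := by
  have s0 : 0 < s := Nat.pos_of_ne_zero fun u => by
    rw [u, Nat.cast_zero, mul_zero] at hs
    exact absurd hs (by positivity : (0 : ℝ) < (3 ^ e)⁻¹).ne
  let v : Site 4 n' → Fin 4 → ℤ := fun y l => (y l).valMinAbs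
  have e1 : ∀ x : Fin 4 → ℤ, Ope.gp e x = WithLp.toLp 2 fun l => a * ((s * x l : ℤ) : ℝ) :=
    fun x => by simp only [Ope.gp, ← hs, Int.cast_mul, Int.cast_natCast, mul_assoc]
  have e2 : ∀ y, (corner s y : Site 4 n) = fun l => ((s * v y l : ℤ) : ZMod n) := fun y =>
    funext fun l => corner_int hn _ _ (ZMod.coe_valMinAbs _).symm
  have e3 : ∀ y, xp a (corner s y : Site 4 n) = Ope.gp e (v y) := fun y => by
    rw [e1, e2, xp]
    refine congrArg _ (funext fun l => ?_)
    obtain ⟨h1, h2⟩ := ZMod.valMinAbs_mem_Ioc (y l)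
    have s1 : (0 : ℤ) < s := by exact_mod_cast s0
    rw [vma_cast (by rw [hn]; push_cast; nlinarith) (by rw [hn]; push_cast; nlinarith)]
  have hv : Function.Injective v := fun y z u => funext fun l =>
    ZMod.valMinAbs_inj.1 (congrFun u l)
  have ht : (Ope.fin_gp hf e).toFinset ⊆ univ.image v := fun x hx => by
    refine mem_image.2 ⟨fun l => (x l : ZMod n'), mem_univ _, funext fun l => ?_⟩
    have h1 := hR _ ((Set.Finite.mem_toFinset _).1 hx) l
    rw [e1] at h1
    change |a * ((s * x l : ℤ) : ℝ)| ≤ R at h1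
    have s1 : (0 : ℝ) < a * s := by positivity
    rw [Int.cast_mul, Int.cast_natCast, ← mul_assoc, abs_mul, abs_of_pos s1] at h1
    have h2 : (|(x l : ℝ)| * 2 : ℝ) < n' := by
      refine lt_of_mul_lt_mul_left ?_ s1.le
      rw [hn, Nat.cast_mul] at hb
      nlinarith [mul_nonneg R0 d0.le]
    have h3 : |x l| * 2 < n' := by exact_mod_cast h2
    exact vma_cast (by linarith [neg_abs_le (x l)]) (by linarith [le_abs_self (x l)])
  have it : ∀ {O : Cfg n → ℝ}, Continuous O → Integrable O (wilson h b n) := fun c =>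
    (BoundedContinuousFunction.mkOfCompact ⟨_, c⟩).integrable _
  have cw : Continuous (wd2 h b a d w u : Cfg n → ℝ) :=
    (continuous_finsetProd _ fun _ _ => continuous_cen h b _).const_mul _
  obtain ⟨G, hG⟩ : ∃ G : Src n, G = sy fun y => g (xp a y) := ⟨_, rfl⟩
  have cG := continuous_cen h b G
  have cs : ∀ y : Site 4 n', Continuous fun U : Cfg n => c * f (xp a (corner s y : Site 4 n)) *
      wd2 h b a d w u (shift (corner s y) U) * (c' * cen h b G U) := fun y =>
    ((cw.comp (continuous_shift _)).const_mul _).mul (cG.const_mul _)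
  have z : ∫ U, cen h b G U ∂wilson h b n = 0 := by
    simp [cen, integral_sub (it (continuous_gfield G)) (integrable_const _)]
  have e4 : ∀ U, ce h b (gfield (sy fun y : Site 4 n => c' * g (xp a y))) U = c' * cen h b G U :=
    fun U => by simp only [ce, ex, RG.Q4.En.Gl.TG.gfield_mul, integral_const_mul, cen, mul_sub, hG]
  rw [sum_subset ht fun x _ hx => by
    rw [of_not_not (a := f _ = 0) fun u => hx ((Set.Finite.mem_toFinset _).2 u), mul_zero, zero_mul],
    sum_image fun _ _ _ _ u => hv u, mul_sum]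
  simp only [e4]
  simp only [ce, sub_mul, smr, sum_mul]
  rw [integral_sub (it (continuous_finsetSum _ fun y _ => cs y))
    (it ((cG.const_mul _).const_mul _)), integral_const_mul, integral_const_mul, z, mul_zero,
    mul_zero, sub_zero, integral_finsetSum _ fun y _ => it (cs y)]
  refine sum_congr rfl fun y _ => ?_
  rw [e3, gcorr_eq, ← mul_assoc, ← integral_const_mul]
  by_cases u0 : f (Ope.gp e (v y)) = 0
  · simp only [u0, mul_zero, zero_mul]
  have h1 := hR _ u0
  have e5 : ∀ i (x : Site 4 n), u i (xp (a / d) (x - corner s y)) =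
      bz d (Ope.gp e (v y)) (u i) (xp a x) := fun i x => by
    have := xp_add (f := fun y => u i (d⁻¹ • y)) (R := R' * d) (s := fun l => -(s * v y l)) (V := R)
      (fun y hy l => by
        have := hu i _ hy l
        rwa [PiLp.smul_apply, smul_eq_mul, abs_mul, abs_of_pos (inv_pos.2 d0),
          inv_mul_le_iff₀' d0] at this) a0
      (fun l => by rw [e1] at h1; simpa using h1 l) (by linarith) x
    simp only [Int.cast_neg, mul_neg, ← Pi.neg_def, WithLp.toLp_neg, ← sub_eq_add_neg, ← e1,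
      ← e2] at this
    refine (congrArg _ ?_).trans this
    ext l
    simp only [xp, PiLp.smul_apply, smul_eq_mul]
    ring
  refine congrArg _ (funext fun U => ?_)
  have e6 : ∀ i, (fun x => sy (fun x : Site 4 n => u i (xp (a / d) x)) (x - corner s y)) =
      sy fun x => bz d (Ope.gp e (v y)) (u i) (xp a x) := fun i => by
    funext x μ ν
    simp only [sy, ← e5, add_sub_right_comm]
  simp only [wd2, cen_shift, e6, Fin.prod_univ_succ, Fin.prod_univ_zero, Matrix.cons_val_zero,
    Matrix.cons_val_succ, ← hG, Fin.succ_zero_eq_one]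
  ring

end Pool.Agent.Lib.MP_7f377f_mp.Ob
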