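import Pool.Agent.Lib.MP_7f377f_mp.G.S23N3
import Pool.Agent.Lib.MP_7f377f_mp.G.S23N4
import Pool.Agent.Lib.MP_7f377f_mp.G.S23N5
import Pool.Agent.Lib.MP_7f377f_mp.G.S23N6
import Pool.Agent.Lib.MP_7f377f_mp.G.S23N7
import Pool.Agent.Lib.MP_7f377f_mp.G.AnK

/-! Third moments with two overlapping sources at a small scale. -/

noncomputable section

open Pool.Agent.Lib.MP_7f377f_mp.Jet

set_option linter.unusedSectionVars false
variable [Pool.Agent.Lib.MP_7f377f_mp.GD]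

namespace Pool.Agent.Lib.MP_7f377f_mp.RG.Q4.En.Gl

open Finset Real Sg Br YM7 Ob MeasureTheory Filter Topology An

theorem ce_lin {n : ℕ} [NeZero n] (b x y : ℝ) {O O' : Cfg n → ℝ} (c : Continuous O)
    (c' : Continuous O') (U : Cfg n) : Ob.ce (Fi.tr haar) b (fun U => x * O U + y * O' U) U =
      x * Ob.ce (Fi.tr haar) b O U + y * Ob.ce (Fi.tr haar) b O' U := by
  have : (Fi.tr haar).IsHaarMeasure := (inferInstance : haar.IsHaarMeasure)
  have i := fun {O : Cfg n → ℝ} (c : Continuous O) (x : ℝ) => (c.const_mul x).integrable_of_hasCompactSupport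
    (μ := wilson (Fi.tr haar) b n) (HasCompactSupport.of_compactSpace _)
  simp only [Ob.ce, YM7.ex, integral_add (i c x) (i c' y), integral_const_mul]
  ring

namespace Ok

variable {G : Gl} (h : G.Ok) {c j J k l e i q u m v n' s ρ : ℕ} {Λ d x b Γ δ A a N : ℝ}
  [NeZero (G.N J)] [NeZero q] [NeZero m] [NeZero n'] {w f : Fin 2 → R4 → ℝ} {R : Wc (G.N J)}
  {B : Cfg (G.N J) → ℝ} {I : (Weak.Site 4 (G.N J) → ℝ) → Ac} (T : G.Tu b J) (hp : G.Pu)
include h T hp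

/-- the covariance of a smeared scalar word and a field -/
theorem cov_am (M : G.Am b J k n' s ρ a R) (H : R B I N)
    (inv : ∀ g ∈ Ty.T1, ∀ U, B (Ob.cg g.1 U) = Ty.sb g.2 * B U) (lk : l < k) (l0 : 0 < l)
    (hs : s ∣ G.rt J l) (a1 : x ≤ a) (F : YM7.Tf f Γ δ) (ha : x * 3 ^ G.e J = 1)
    (hm : G.N l = m * (3 * v)) (m5 : 5 < m) (hv : 2 * Γ + 2 ≤ x * (G.rt J l * v : ℕ))
    (hd : x * (G.dl J l + 2 * ρ : ℕ) ≤ δ) (δ1 : δ ≤ 1) :
    |∫ U, Ob.ce (Fi.tr haar) b (smr n' s B fun y => Γ⁻¹ * f 0 (xp x y)) U *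
      Ob.ce (Fi.tr haar) b (gfield (Ob.sy fun y => Γ⁻¹ * f 1 (xp x y))) U
        ∂wilson (Fi.tr haar) b (G.N J)| ≤ 34 * G.Q k ^ 7 * N * G.ck2 l (3 * v) := by
  have : (Fi.tr haar).IsHaarMeasure := (inferInstance : haar.IsHaarMeasure)
  obtain ⟨N0, -, cB, -⟩ := M.pos H
  obtain ⟨ν, n1, n2⟩ := M.dy_sca (l := l) h T hp H inv
  have q := one_le_pow₀ (h.Q1 k) (n := 7)
  have p : 0 < 31 * N * G.Q k ^ 7 := by positivity
  have two := fun B ν => h.two_tf (B := B) (ν := ν) T hp (M.ks2 h T hp lk) (lk.trans M.lt) M.hn hs l0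
    a1 F ha hm m5 hv hd δ1
  have fl := M.dy_fld (l := l) (ν := 1) abs_one.le
  have s1 := two ![fun U => (31 * N * G.Q k ^ 7)⁻¹ * B U, fun _ => 0]
    ![(31 * N * G.Q k ^ 7)⁻¹ * ν, 1] (Fin.forall_fin_two.2 ⟨n2 _ (by
      rw [abs_of_pos (inv_pos.2 p), mul_assoc, inv_mul_cancel₀ p.ne']) lk, fl⟩)
  have s2 := two (fun _ _ => 0) (fun _ => 1) fun _ => fl
  have z : ∀ φ : Weak.Site 4 (G.N J) → ℝ, ltr n' s (fun _ => 0) 1 1 φ = gfield (Ob.sy φ) :=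
    fun φ => funext fun U => by simp [ltr, smr]
  have c : ∀ φ, Continuous (smr n' s B φ) := fun φ =>
    continuous_finsetSum _ fun _ _ => (cB.comp (Weak.continuous_shift _)).const_mul _
  have y : ∀ (μ : ℝ) (φ : Weak.Site 4 (G.N J) → ℝ), ltr n' s (fun U => μ * B U) 1 (μ * ν) φ =
      fun U => μ * smr n' s B φ U + μ * ν * gfield (Ob.sy φ) U := fun μ φ => funext fun U => by
    simp only [ltr, smr, one_mul, mul_sum, mul_left_comm μ]
  simp only [Fin.prod_univ_two, Matrix.cons_val_zero, Matrix.cons_val_one, z, y] at s1 s2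
  simp only [ce_lin b _ _ (c _) (continuous_gfield _), add_mul, mul_assoc _ (Ob.ce _ _ _ _)] at s1
  have ci := fun {O O' : Cfg (G.N J) → ℝ} (c : Continuous O) (c' : Continuous O') (x : ℝ) =>
    (((c.sub continuous_const).mul (c'.sub continuous_const)).const_mul x).integrable_of_hasCompactSupport
      (μ := wilson (Fi.tr haar) b (G.N J)) (f := fun U => x * (Ob.ce (Fi.tr haar) b O U *
        Ob.ce (Fi.tr haar) b O' U)) (HasCompactSupport.of_compactSpace _)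
  rw [integral_add (ci (c _) (continuous_gfield _) _) (ci (continuous_gfield _)
    (continuous_gfield _) _), integral_const_mul, integral_const_mul, mul_assoc _ ν, ← mul_add, abs_mul,
    abs_of_pos (inv_pos.2 (by positivity)), inv_mul_le_iff₀ (by positivity)] at s1
  have s3 := mul_le_mul n1 s2 (abs_nonneg _) (by positivity)
  rw [← abs_mul] at s3
  have s4 := mul_le_mul_of_nonneg_right q (mul_nonneg N0.le ((abs_nonneg _).trans s2))
  refine (abs_le.2 ⟨?_, ?_⟩) <;> nlinarith only [abs_le.1 s1, abs_le.1 s3, s4]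

/-- the product of two letters at the scale `d` -/
theorem nr_one (V : G.Lv 1 j (k + 1) (Λ + 2) 1 d) (hl : k + 1 < J) (ha : x * 3 ^ G.e J = 1)
    (hn : G.N j = q * u) (hu : 3 ^ G.e j ≤ 3 * u) (q1 : 1 < q) (he : G.e k ≤ e) (he' : e ≤ G.e J)
    (hn' : n' = G.m * 3 ^ e) (up : d * 3 ^ G.e k ≤ A * G.L k ^ G.K0) (hi : Λ * A + 1 ≤ i)
    (c1 : 2 ≤ c) (c2 : 2 * (i + 1) * (2 * i + 1) ^ 4 ≤ c) (c3 : 400 * 2 ^ c ≤ G.Q k)
    (c4 : 2 * c + 3 ≤ G.L k) (hΛ : 2 * Λ ≤ G.Q k) (i1 : (40 * i + 1 : ℝ) ≤ G.L k)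
    (i2 : 20 * i + Λ + 3 ≤ G.L k) (hC : 4 * exp (c * (1 + G.mr j u 1) + c + 2) ≤ G.Q k)
    (uo : G.Uo b J k) (lk : l < k) (l0 : 0 < l) (W : ∀ i, YM7.Tf (fun _ : Fin 1 => w i) Λ 1)
    (r : ∀ i, Rad (w i)) (F : YM7.Tf f Γ δ) (hm : G.N l = m * (3 * v)) (m5 : 5 < m)
    (hv : 2 * Γ + 2 ≤ x * (G.rt J l * v : ℕ)) (hd : x * G.dl J l + 2 * (G.Q k * d) ≤ δ)
    (δ1 : δ ≤ 1) :
    |∫ U, Ob.ce (Fi.tr haar) b (smr n' (3 ^ (G.e J - e)) (wd2 (Fi.tr haar) b x d ((3 ^ e)⁻¹ ^ 4) w)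
      fun y => Γ⁻¹ * f 0 (xp x y)) U * Ob.ce (Fi.tr haar) b (gfield (Ob.sy fun y => Γ⁻¹ * f 1 (xp x y))) U
        ∂wilson (Fi.tr haar) b (G.N J)| ≤
      34 * G.Q k ^ 7 * (d ^ 4 * (G.Q k ^ (2 * c + 289 + 2401 * 2) * G.bb k / G.bb k ^ 2)) *
        G.ck2 l (3 * v) := by
  have : (Fi.tr haar).IsHaarMeasure := (inferInstance : haar.IsHaarMeasure)
  have Λ1 := (W 0).one
  have a0 := a_pos ha
  have d0 := V.d0
  have s0 := div_pos a0 d0
  have a6 : x / (2 * d) = x / d / 2 := by rw [mul_comm, div_div]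
  have a1 := d_le V (by linarith) one_pos
  have a2 := h.s_le V hl ha
  have a3 : 1 ≤ x * G.N J := by
    rw [← ha, N]
    push_cast
    gcongr
    exact le_mul_of_one_le_left (by positivity) (Nat.one_le_cast.2 h.odd.pos)
  have a4 : 4 * Λ + 2 < x / d * G.N J := by
    rw [div_mul_eq_mul_div, lt_div_iff₀ d0]
    nlinarith
  have L := h.L1 k
  have a7 : 1 ≤ d * 3 ^ G.e k := by
    have b1 := V.lo
    have b2 : (G.L k : ℝ) ≤ G.L (k + 1) := Nat.cast_le.2 (h.L_mono k.le_succ)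
    have b3 : (G.L (k + 1) : ℝ) ≤ G.L (k + 1) ^ G.K0 := le_self_pow₀ (by linarith) (by
      have := (h.sl_all 0 (G.top0 0 0)).nu.K0_ge
      change _ ≤ G.K0 at this
      omega)
    rw [h.e_succ] at b1
    refine le_of_mul_le_mul_left ?_ (show (0 : ℝ) < G.L k by linarith)
    linarith
  let Y : Lwd (G.N J) Unit (Fin 2) := ⟨fun _ i y => (2 * Λ)⁻¹ * w i (xp (x / d) y), fun _ _ => 0,
    fun _ => (3 ^ e)⁻¹ ^ 4 * (2 * Λ) ^ 2⟩
  have lp : ∀ z i, Lqq (x / (2 * d)) (Y.g z i) := fun _ i => a6 ▸ pad_lp (E := (Equiv.sumEmpty _ _).symm)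
    (σ := 1) (c := fun _ : Unit => 1) (r := 0) (fun _ => W i) s0 (by linarith) () 0
  have sp : ∀ z i y, Y.g z i y ≠ 0 → ∀ l, (y l).valMinAbs.natAbs ≤ ⌊Λ / (x / d)⌋₊ := fun _ i =>
    pad_sup (E := (Equiv.sumEmpty _ _).symm) (σ := 1) (c := fun _ : Unit => 1) (r := 0)
      (fun _ => W i) s0 () 0
  have ob : Y.ob (Fi.tr haar) b = wd2 (Fi.tr haar) b x d ((3 ^ e)⁻¹ ^ 4) w := funext fun U => by
    simp only [Y, Lwd.ob, wd2, cen_sy_mul, add_zero, Fin.prod_univ_two, univ_unique, sum_singleton]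
    field_simp
  have M := h.am_rv T hp ⟨h.gk_of (κ := Fin 2) V hl ha he he' hn' (by linarith) up hi
    (by simpa using c1) c2 c3 (C := 1 + G.mr j u 1) (by unfold mr; positivity), by
      rw [a6, ← mul_div_assoc, h.a_rt ha (by omega)]
      linarith [inv_le_one_of_one_le₀ a7], by
      rw [show J - k = J - (k + 1) + 1 by omega, pow_succ, a6]
      nlinarith [a2.2, mul_pos (pow_pos (show (0 : ℝ) < 1.01 by norm_num) (J - (k + 1))) s0],
    le_rfl, c4, uo⟩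
  rw [← ob]
  refine h.cov_am T hp M ⟨Unit, inferInstance, Y, ⟨lp, sp, fun z i y => ?_⟩, h.nw_of (m := 2) (r := 0)
    V he (by simp) le_rfl (by positivity) (by linarith) hΛ i1 hC (le_of_eq ?_), rfl, rfl⟩
    (ob ▸ wd2_inv _ (h.N_odd J) r) lk l0 (pow_dvd_pow 3 (Nat.sub_le_sub_left
      ((h.sch.mono.monotone lk.le).trans he) _)) (by
        rw [le_div_iff₀ (by positivity)]; nlinarith) F ha hm m5 hv ?_ δ1
  · simpa [Y] using h.cen_ej T hp V hl ha Λ1 one_pos hn hu q1 (lp z i) (sp z i) (by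
      have := (le_div_iff₀ s0).1 (Nat.floor_le (show 0 ≤ Λ / (x / d) by positivity))
      rw [← mul_div_assoc, div_le_iff₀ d0] at this
      linarith) y
  · simp only [Y, univ_unique, sum_singleton]
    rw [abs_of_pos (by positivity)]
    field_simp
  · have := h.rad_of V hl ha (by linarith) i2
    rw [Nat.cast_add, Nat.cast_mul 2]
    push_cast at this ⊢
    linarith

end Ok

theorem tf_two {w : Fin 2 → R4 → ℝ} (hw : ∀ i, S3.Ds Set.univ (w i)) :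
    ∃ Λ, ∀ i, YM7.Tf (fun _ : Fin 1 => w i) Λ 1 := by
  choose Λ δ H using fun i => YM7.Adm.tf (f := fun _ : Fin 1 => w i)
    ⟨fun _ => ⟨(hw i).2.1, (hw i).1.of_le (by simp)⟩, Subsingleton.pairwise⟩
  have e : ∀ i, Λ i ≤ Λ 0 + Λ 1 := Fin.forall_fin_two.2 ⟨by linarith [(H 1).one], by linarith [(H 0).one]⟩
  exact ⟨_, fun i => ⟨(H i).one.trans (e i), one_pos, fun a y u l => ((H i).cube a y u l).trans (e i),
    fun a y => ((H i).bd a y).trans (e i), fun a y z => ((H i).lip a y z).trans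
      (mul_le_mul_of_nonneg_right (e i) dist_nonneg), fun _ _ u => (u (Subsingleton.elim _ _)).elim⟩⟩

omit [GD] in
theorem bz_far {w g : R4 → ℝ} {z : R4} {Λ d δ : ℝ} (d0 : 0 < d) (hd : Λ * d < δ)
    (hw : ∀ y, w y ≠ 0 → ∀ l, |y l| ≤ Λ) (hg : ∀ y, g y ≠ 0 → ∃ l, δ ≤ |z l - y l|) :
    Disjoint (tsupport (bz d z w)) (tsupport g) := by
  have c : ∀ l, Continuous fun y : R4 => |z l - y l| := fun l => by fun_prop
  have a1 : tsupport (bz d z w) ⊆ ⋂ l, {y : R4 | |z l - y l| ≤ Λ * d} :=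
    closure_minimal (fun y u => Set.mem_iInter.2 fun l => by
      have := hw _ u l
      simp only [PiLp.smul_apply, PiLp.sub_apply, smul_eq_mul, abs_mul, abs_inv, abs_of_pos d0] at this
      rwa [inv_mul_le_iff₀' d0, abs_sub_comm] at this)
      (isClosed_iInter fun l => isClosed_le (c l) continuous_const)
  have a2 : tsupport g ⊆ ⋃ l, {y : R4 | δ ≤ |z l - y l|} :=
    closure_minimal (fun y u => Set.mem_iUnion.2 (hg y u))
      (isClosed_iUnion_of_finite fun l => isClosed_le continuous_const (c l))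
  refine Set.disjoint_left.2 fun y u v => ?_
  obtain ⟨l, e⟩ := Set.mem_iUnion.1 (a2 v)
  exact (hd.trans_le e).not_ge (Set.mem_iInter.1 (a1 u) l)

theorem Oks.tri_nr {G : Gl} {β : ℕ × ℕ → ℝ} (o : G.Oks) (hβ : G.Tus β) (H : G.J2R)
    (U : ∀ᶠ k in atTop, ∀ m b J, (G.wm m).Tu b J → k ≤ J → (G.wm m).Uo b J k)
    {Φ : Filter (ℕ × ℕ)} (hΦ : Φ ≤ L6.fast) (a v f g : R4 → ℝ) (ha : S3.Ds Set.univ a)
    (hv : S3.Ds Set.univ v) (ra : Rad a) (rv : Rad v) (hf : YM7.Adm ![f])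
    (hg : S3.Ds (tsupport f)ᶜ g) (ε : ℝ) (ε0 : 0 < ε) :
    ∀ᶠ s : ℝ in 𝓝[>] 0, ∀ᶠ e : ℕ in atTop, ∀ᶠ p in Φ,
      |∑ x ∈ (Ope.fin_gp hf e).toFinset, (3 ^ e)⁻¹ ^ 4 * f (Ope.gp e x) *
        YM7.corr (Fi.tr haar) (β p) (G.nn p) (G.aa p)
          ![bz s (Ope.gp e x) a, bz s (Ope.gp e x) v, g]| ≤ ε * s ^ 4 := by
  have : (Fi.tr haar).IsHaarMeasure := (inferInstance : haar.IsHaarMeasure)
  have h := (o 0).1
  obtain ⟨Γ, δ', F'⟩ := YM7.Adm.tf (Ope.adm_two.2 ⟨Ope.adm_one.1 hf, ⟨hg.2.1, hg.1.of_le (by simp)⟩,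
    (Set.subset_compl_iff_disjoint_left.1 hg.2.2)⟩)
  obtain ⟨δ, δ0, δ1, F⟩ : ∃ δ, 0 < δ ∧ δ ≤ 1 ∧ YM7.Tf ![f, g] Γ δ :=
    have p := lt_min F'.pos one_pos
    ⟨_, p, min_le_right _ _, F'.one, p, F'.cube, F'.bd, F'.lip, fun i j u y z a b =>
      (F'.sep i j u y z a b).imp fun _ => (min_le_left _ _).trans⟩
  have Γ1 := F.one
  have hw : ∀ i, S3.Ds Set.univ (![a, v] i) := Fin.forall_fin_two.2 ⟨ha, hv⟩
  obtain ⟨Λ, W⟩ := tf_two hw
  have Λ1 := (W 0).one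
  obtain ⟨j, j1, j2⟩ := ((eventually_ge_atTop 1).and
    (h.L_nat.eventually_ge_atTop (1000 * 3 ^ 1))).exists
  obtain ⟨A, hA⟩ : ∃ A : ℝ, A = (68 / 1 + 1) * 3 ^ (G.K0 + 1) := ⟨_, rfl⟩
  obtain ⟨i, hi⟩ := exists_nat_ge (Λ * A + 1)
  obtain ⟨c, hc⟩ : ∃ c, c = 2 + 2 * (i + 1) * (2 * i + 1) ^ 4 := ⟨_, rfl⟩
  obtain ⟨u, hu⟩ : ∃ u, 3 ^ G.e j = 3 * u :=
    dvd_pow_self 3 (Nat.one_le_iff_ne_zero.1 (j1.trans h.sch.mono.le_apply))
  obtain ⟨l, l0, l1⟩ := ((eventually_gt_atTop 0).and (h.ev_L (132 * 3 ^ (G.K0 + 1) / δ))).exists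
  obtain ⟨z, hz⟩ := pow_unbounded_of_one_lt (2 * Γ + 2) (show (1 : ℝ) < 3 by norm_num)
  obtain ⟨K, hK⟩ : ∃ K, K = G.ck2 l (3 * 3 ^ (G.e l + z)) := ⟨_, rfl⟩
  obtain ⟨n, hn⟩ : ∃ n, n = 2 * c + 289 + 2401 * 2 := ⟨_, rfl⟩
  have e := U.and ((h.ev_L A).and ((h.L_nat.eventually_ge_atTop (2 * c + 3)).and
    ((h.ev_L (2 * Λ)).and ((h.ev_L (400 * 2 ^ c)).and ((h.ev_L (20 * i + Λ + 3)).and
    ((h.ev_L (40 * i + 1)).and ((h.ev_L (4 * exp (c * (1 + G.mr j u 1) + c + 2))).and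
    ((eventually_gt_atTop l).and ((h.ev_L (4 / δ)).and ((h.ev_L (68 * Γ ^ 2 * K / ε)).and
    (h.sch.Btop.eventually_ge_atTop (G.K * (n + 8)))))))))))))
  have e' := ((tendsto_sub_atTop_nat 1).eventually e).and (eventually_ge_atTop 1)
  filter_upwards [h.ev_lv' (Λ := Λ + 2) (by linarith) one_pos j2 e',
    Ioo_mem_nhdsGT (show 0 < δ / Λ by positivity)] with d ⟨k, ⟨b, k1⟩, V, up⟩ ⟨d0, d1⟩
  obtain ⟨k, rfl⟩ := Nat.exists_eq_add_of_le' k1
  rw [Nat.add_sub_cancel] at b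
  obtain ⟨b0, b1, b2, b3, b4, b5, b6, b7, b8, b9, b10, b11⟩ := b
  rw [lt_div_iff₀' (by linarith)] at d1
  have up' : d * 3 ^ G.e k ≤ A * G.L k ^ G.K0 := hA ▸ h.dk_le (by positivity) up
  have L : (1 : ℝ) ≤ G.L k := by linarith [h.L1 k, show ((G.wm 0).L k : ℝ) = G.L k from rfl]
  have LQ : (G.L k : ℝ) ≤ G.Q k := h.LQ k
  have A0 : 0 ≤ A := by rw [hA]; positivity
  have q0 : 0 < G.Q k := h.Q0 k
  have bb0 : 0 < G.bb k := h.b0 k
  have x1 : 4 * (G.Q k * d) ≤ δ := by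
    have y1 : d * 3 ^ G.e k ≤ G.Q k := up'.trans (le_trans (mul_le_mul_of_nonneg_left
      (pow_le_pow_right₀ L (Nat.le_succ _)) A0) (h.LK b1))
    have y2 : G.Q k ^ 3 ≤ 3 ^ G.e k := ((pow_le_pow_right₀ (L.trans LQ) (by norm_num)).trans
      (h.Qb k)).trans (h.b_e k)
    have y3 : 4 ≤ δ * G.Q k := (div_le_iff₀' δ0).1 (b9.trans LQ)
    refine le_of_mul_le_mul_right ?_ (pow_pos q0 3)
    nlinarith only [mul_le_mul_of_nonneg_right y3 (sq_nonneg (G.Q k)), mul_le_mul_of_nonneg_right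
      (mul_le_mul y3 (L.trans LQ) zero_le_one (by positivity)) (sq_nonneg (G.Q k)),
      mul_le_mul_of_nonneg_left ((mul_le_mul_of_nonneg_left y2 d0.le).trans y1) q0.le]
  have x2 : Γ ^ 2 * (34 * G.Q k ^ 7 * (d ^ 4 * (G.Q k ^ n * G.bb k / G.bb k ^ 2)) * K) ≤
      ε * d ^ 4 / 2 := by
    have y1 : G.Q k ^ (n + 8) ≤ G.bb k := by rw [Q, ← pow_mul]; exact h.Lbk k b11
    have y2 : 68 * Γ ^ 2 * K ≤ ε * G.Q k := (div_le_iff₀' ε0).1 (b10.trans LQ)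
    calc _ = d ^ 4 / 2 * (68 * Γ ^ 2 * K * G.Q k ^ (n + 7) / G.bb k) := by field_simp; ring
      _ ≤ d ^ 4 / 2 * (ε * G.Q k * G.Q k ^ (n + 7) / G.Q k ^ (n + 8)) := by gcongr
      _ = _ := by field_simp; ring
  filter_upwards [eventually_ge_atTop (G.e k)] with e he
  have lim := tendsto_finsetSum (Ope.fin_gp hf e).toFinset fun x hx => (o.sy3 hβ H
    (f := ![bz d (Ope.gp e x) a, bz d (Ope.gp e x) v, g]) (fun i => by
      fin_cases i
      exacts [(ds_bz d0 _ ha).mono (Set.subset_univ _), (ds_bz d0 _ hv).mono (Set.subset_univ _),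
        hg.mono (Set.subset_univ _)]) fun i u => by
      have y := fun i => bz_far (g := g) (z := Ope.gp e x) d0 d1 ((W i).cube 0) fun y u =>
        F.sep 0 1 (by decide) _ y ((Set.Finite.mem_toFinset _).1 hx) u
      fin_cases i
      exacts [y 0, y 1, (u rfl).elim]).const_mul (((3 : ℝ) ^ e)⁻¹ ^ 4 * f (Ope.gp e x))
  simp only [mul_zero, sum_const_zero, mul_sub, sum_sub_distrib] at lim
  refine Eventually.filter_mono hΦ ?_
  filter_upwards [(L6.ev_fast.2 (.of_forall fun J => ((eventually_ge_atTop _).filter_mono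
    L6.hyp_le).mono fun s hs => ⟨s, hs, Nat.two_mul_div_two_add_one_of_odd (odd3 s)⟩) :
      ∀ᶠ p in L6.fast, ∃ s, z + 3 ≤ s ∧ 2 * p.1 + 1 = 3 ^ s), L6.fast_le
    (tendsto_snd.eventually_ge_atTop (k + 2 + e)), lim.abs.eventually_le_const
      (show |(0 : ℝ)| < ε * d ^ 4 / 2 by rw [abs_zero]; positivity)] with p ⟨s, s0, m1⟩ hp y0
  have h' := (o p.1).1
  have T := hβ p
  have V' : (G.wm p.1).Lv 1 j (k + 1) (Λ + 2) 1 d :=
    ⟨V.le, V.d0, V.sm, V.lo, V.one, V.hi, V.up, V.big⟩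
  have a0 := G.aa_pos p
  have a1 : G.aa p * 3 ^ (G.wm p.1).e p.2 = 1 := inv_mul_cancel₀ (by positivity)
  have a2 : G.aa p ≤ 1 := a1 ▸ le_mul_of_one_le_right a0.le (one_le_pow₀ (by norm_num))
  have he' : e ≤ G.e p.2 := le_trans (by omega) h.sch.mono.le_apply
  have : NeZero ((2 * p.1 + 1) * 3) := ⟨by positivity⟩
  have lJ : l ≤ p.2 := by omega
  have r1 := h'.rt_a lJ a1
  have y1 := h'.nr_one (q := (2 * p.1 + 1) * 3) (m := 3 ^ (s - z - 1)) (v := 3 ^ (G.e l + z))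
    (n' := nq p.1 e) T (o p.1).2 V' (by omega) a1 (by rw [mul_assoc, ← hu]; rfl) hu.le (by omega) he
    he' rfl up' hi (hc ▸ Nat.le_add_right _ _) (hc ▸ Nat.le_add_left _ _) (b4.trans LQ) b2
    (b3.trans LQ) b6 b5 (b7.trans LQ) (b0 _ _ _ T (by omega)) b8 l0 W
    (Fin.forall_fin_two.2 ⟨ra, rv⟩) F (by
      rw [← pow_succ', ← pow_add, show s - z - 1 + (G.e l + z + 1) = s + G.e l by omega, pow_add,
        ← m1]; rfl)
    (lt_of_lt_of_le (by norm_num) (Nat.pow_le_pow_right three_pos (show 2 ≤ _ by omega))) (by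
      push_cast
      rw [pow_add, ← mul_assoc, ← mul_assoc, mul_comm (G.aa p)]
      exact hz.le.trans ((one_mul _).ge.trans (congrArg (· * _) r1).ge)) (by
      have y2 := mul_le_mul_of_nonneg_left ((h'.Lb l (i := G.K0 + 1) (by
        have := h.B1; change _ ≤ G.B0 at this ⊢; change _ + G.K0 + _ ≤ _ at this; omega)).trans
        (h'.b_e l)) (mul_pos (Ok.rt_pos (G := G.wm p.1) p.2 l) a0).le
      have y3 := mul_le_mul_of_nonneg_right ((div_le_iff₀' δ0).1 l1)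
        (show 0 ≤ ((G.wm p.1).L l : ℝ) ^ G.K0 * ((G.wm p.1).rt p.2 l * G.aa p) by positivity)
      rw [r1, pow_succ] at y2
      rw [dl]
      push_cast
      change _ ≤ δ * ((G.wm p.1).L l : ℝ) * _ at y3
      change _ * (_ * 3 ^ (G.K0 + 1) * (_ ^ G.K0 * _)) + 2 * (G.Q k * d) ≤ δ
      nlinarith only [mul_le_mul_of_nonneg_left y2 δ0.le, y3, x1]) δ1
  simp only [Matrix.cons_val_zero, Matrix.cons_val_one] at y1
  rw [wd2_cov (e := e) _ hf (F.cube 0) (fun i => (W i).cube 0) (by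
      rw [nq, mul_assoc, ← pow_add]
      exact congrArg (_ * 3 ^ ·) (Nat.add_sub_cancel' he').symm) a0 d0 (by linarith) (by
      change (3 ^ G.e p.2)⁻¹ * ((3 ^ (G.e p.2 - e) : ℕ) : ℝ) = _
      push_cast
      rw [pow_sub₀ _ three_ne_zero he', inv_mul_cancel_left₀ (by positivity)]) (by
      have y2 : G.aa p * (G.wm p.1).N p.2 = 3 ^ s := by
        rw [N, Nat.cast_mul, mul_left_comm, Nat.cast_pow, Nat.cast_ofNat, a1, mul_one]
        exact_mod_cast m1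
      have y3 : (3 : ℝ) ^ (z + 3) ≤ 3 ^ s := pow_le_pow_right₀ (by norm_num) s0
      rw [pow_add] at y3
      linarith), abs_mul, abs_of_pos (by positivity), ← sq, inv_pow,
    inv_mul_le_iff₀ (by positivity), ← hn] at y1
  exact (sub_le_iff_le_add.1 ((abs_sub_abs_le_abs_sub _ _).trans y0)).trans
    ((add_le_add_right (y1.trans (hK ▸ x2)) _).trans_eq (add_halves _))

end Pool.Agent.Lib.MP_7f377f_mp.RG.Q4.En.Gl
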