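import Pool.Agent.Lib.MP_7f377f_mp.G.S23N0
import Pool.Agent.Lib.MP_7f377f_mp.G.S23B2
import Pool.Agent.Lib.MP_7f377f_mp.G.S23F5

/-! The flow of families with two overlapping sources in each class and arbitrary radii. -/

noncomputable section

open Pool.Agent.Lib.MP_7f377f_mp.Jet

set_option linter.unusedSectionVars false
variable [Pool.Agent.Lib.MP_7f377f_mp.GD]

namespace Pool.Agent.Lib.MP_7f377f_mp.RG.Q4.En

open Finset Real Sg Pos Filter
open scoped Classical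

variable {ι : Type} [DecidableEq ι] {A : Finset ι} {a : ι → ℝ}

theorem trK_sv (K : (ι → ℂ) → Ac) :
    (trK A fun s => K fun x => a x * s x) = fun s => trK A K fun x => a x * s x := by
  funext s
  simp only [trK, jA_sv, ma_sv]

namespace Gl

/-- the jets in two slowly varying sources are bounded above the level `l`, for all radii -/
def Pz4 (G : Gl) (b : ℝ) (J l : ℕ) : Prop := ∀ (ι κ : Type) [DecidableEq ι] [DecidableEq κ]
  (A : Finset ι) (cl : ι → κ) (c : ℕ) (F : ι → Sr) (g : ι → St → ℂ) (W : ι → Finset St) (σ a τ : ℝ)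
  (r0 : ι → ℝ) (r : ℕ → ι → ℝ), G.Nov J l σ a τ → (∀ x ∈ A, G.Pf J a τ (F x) (g x)) →
  (∀ x y, rc (G.N J) y ∉ W x → F x y = 0) → (∀ n, l ≤ n → r n = fun _ => σ) →
  (∀ n, l ≤ n → n ≤ J → Cls (G.N n) ((2 * c + 2) * (G.p n).D) A cl fun x => G.zs (W x) J n) →
  (∀ y, (A.filter (cl · = y)).card ≤ c) → 1000 * 3 ^ c ≤ G.L l → ∀ k, l ≤ k → k ≤ J →
  (∀ n, k ≤ n → n ≤ J → G.On A b J r0 r (fun k => (G.zz b J k).d) (fun x => G.tv (F x) b J)
    (G.fr A F b J) (G.fm A F W b J) n) → (∀ n, k < n → n ≤ J → G.Pn r (G.fm A F W b J) n) →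
  ∀ x ∈ A, ∀ y ∈ A, x ≠ y → G.Sz k (G.Q k ^ 16 / σ) (G.Q k ^ 16 / σ) (G.Q k ^ 100)⁻¹
    ((G.fm A F W b J k).jt {x, y}).1 ((G.fm A F W b J k).jt {x, y}).2

variable {G : Gl} {b : ℝ} {J k l : ℕ} {F : ι → Sr} {W : ι → Finset St}

theorem fs_sv (z : En.Z) (Y : Fy ι) : G.fs A k z (Y.sv a) = (G.fs A k z Y).sv a := by
  simp only [fs, Fy.sv, ← trK_sv]

omit [DecidableEq ι] in
theorem sF_sv (s : ι → ℂ) : sF A (fun x => (a x : ℂ) • F x) s = sF A F fun x => a x * s x := by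
  simp only [sF, smul_smul, mul_comm]

/-- rescaling of the sources -/
theorem fm_sv : ∀ k ≤ J, G.fm A (fun x => (a x : ℂ) • F x) W b J k = (G.fm A F W b J k).sv a :=
  dw_ind (by simp only [fm_top, ft, Fy.sv, ← trK_sv, sF_sv]; rfl) fun k hk ih => by
    rw [fm_step hk, fm_step hk, ih, fs_sv]

namespace Ok

variable (h : G.Ok)
include h

theorem pz3_of (e : G.Pz4 b J l) : G.Pz3 b J l :=
  fun ι κ _ _ A cl c F g W a τ r0 r a0 τ0 P hτ ha => e ι κ A cl c F g W _ a τ r0 r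
    ⟨h.sg0 l, fun _ hj _ => h.sg_bb hj le_rfl, a0, ha, τ0, hτ⟩ P

theorem uo_of (t : G.Tu b J) (hp : G.Pu) (L : 1000 * 3 ^ 2 ≤ G.L l) (e : G.Pz4 b J l) :
    G.Uo b J l := by
  intro ι κ _ _ A cl F W r σ a τ n r0 P hZ C hk j j1 j2
  choose! g P using P
  have σ0 := n.s0
  obtain ⟨F', hF⟩ : ∃ F' : ι → Sr, F' = fun x => ((r x / σ : ℝ) : ℂ) • F x := ⟨_, rfl⟩
  have P' : ∀ x ∈ A, G.Pf J a τ (F' x) (g x) := hF ▸ P
  have hZ' : ∀ x y, rc (G.N J) y ∉ W x → F' x y = 0 := fun x y u => by simp [hF, hZ x y u]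
  have C' : ∀ k, l ≤ k → k ≤ J → Cls (G.N k) ((2 * (2 : ℕ) + 2) * (G.p k).D) A cl
      fun x => G.zs (W x) J k := fun k a a' => by
    rw [show (2 * (2 : ℕ) + 2 : ℝ) = 6 by norm_num]; exact C k a a'
  obtain ⟨e0, e1, e2⟩ := h.top3 (r0 := fun _ => σ) t σ0 hZ' (fun x hx => pf_le (P' x hx) n.t1 n.t0)
    (le_trans (by rw [mul_comm]; gcongr; exacts [h.Q1 J, by norm_num]) (n.sb J (j1.trans j2) le_rfl))
    (by simpa only [zs_top] using C' J (j1.trans j2) le_rfl) hk (h.two_le L (j1.trans j2))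
    (fun _ => σ0) fun _ => le_rfl
  obtain ⟨o, q, -⟩ := h.flow_up (r := fun _ _ => σ) (H := fun k => (G.zz b J k).d)
    (v := fun x => G.tv (F' x) b J) (N := fun k => σ * G.Q k ^ 16) (f := G.fr A F' b J) t hp le_rfl j2
    (fun k _ hk => ⟨by rw [zz_step b hk]; rfl, fr_step hk, fun _ => by linarith,
      fun _ _ => Gl.tn_step hk⟩)
    (fun k a a' => ⟨h.bz_run t a', fun _ => le_rfl, (mul_pos σ0 (pow_pos (h.Q0 k) _)).le,
      (le_of_eq (by ring)).trans (n.sb k (j1.trans a) a'), C' k (j1.trans a) a', fun x hx => by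
        have u : G.Q k ^ 2 ≤ σ * G.Q k ^ 16 / σ := by
          rw [mul_div_cancel_left₀ _ σ0.ne']; exact pow_le_pow_right₀ (h.Q1 k) (by norm_num)
        exact h.sz_le (h.pf_sz t (h.tv_all hp t) (P' x hx) n.a0 n.t1 n.t0 n.a4 (j1.trans a) a')
          (sqrt_nonneg _) u u (h.sg_le k)⟩) hk (L.trans (h.L_mono j1)) e0 e1 e2
    (fun k a a' o q T hT h2 => by
      have hA := hT.sub
      obtain ⟨v, hv⟩ := hT
      rw [fw_Z k a'] at hv
      obtain ⟨x, y, u, rfl⟩ := card_eq_two.1 (le_antisymm ((card_le_card hv).trans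
        (tch_one (C' k (j1.trans a) a') (h.cD_pos 2 k) hk _)) h2)
      rw [prod_pair u, mul_div_mul_left _ _ σ0.ne']
      exact e ι κ A cl 2 F' g W σ _ τ _ _ n P' hZ' (fun _ _ => rfl) C' hk L k (j1.trans a) a' o q
        x (hA (by simp)) y (hA (by simp)) u) ft_ec
  have p : ∀ x, 0 < σ / r x := fun x => div_pos σ0 (r0 x)
  have u : (fun x => ((σ / r x : ℝ) : ℂ) • F' x) = F := funext fun x => by
    rw [hF, smul_smul, ← Complex.ofReal_mul, div_mul_div_cancel₀ (r0 x).ne', div_self σ0.ne',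
      Complex.ofReal_one, one_smul]
  have w : (fun _ => σ) / (fun x => σ / r x) = r := funext fun x => div_div_cancel₀ σ0.ne'
  have d := h.fd_sv o.fd p
  have m := fm_sv (G := G) (A := A) (a := fun x => σ / r x) (F := F') (W := W) (b := b) j j2
  rw [u] at m
  rw [w, ← funext (fr_smul (G := G) (A := A) (F := F')), u] at d
  exact ⟨m ▸ d, fun s hs => by rw [m]; exact q _ (sv_mem p (by rwa [← w] at hs))⟩

end Ok

theorem uo_ev (o : G.Oks)
    (e : ∀ᶠ l in atTop, ∀ m b J, (G.wm m).Tu b J → l ≤ J → (G.wm m).Pz4 b J l) :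
    ∀ᶠ l in atTop, ∀ m b J, (G.wm m).Tu b J → l ≤ J → (G.wm m).Uo b J l := by
  filter_upwards [e, (o 0).1.L_nat.eventually_ge_atTop (1000 * 3 ^ 2)] with l e hL m b J t u
  exact (o m).1.uo_of t (o m).2 hL (e m b J t u)

end Gl

end Pool.Agent.Lib.MP_7f377f_mp.RG.Q4.En
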