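import Pool.Agent.Lib.MP_7f377f_mp.G.S23R5
import Pool.Agent.Lib.MP_7f377f_mp.G.S23N8

/-! The jets in two slowly varying sources for all radii. -/

noncomputable section

open Pool.Agent.Lib.MP_7f377f_mp.Jet

set_option linter.unusedSectionVars false
variable [Pool.Agent.Lib.MP_7f377f_mp.GD]

namespace Pool.Agent.Lib.MP_7f377f_mp.RG.Q4.En.Gl

open Finset Real Sg Pos Filter

variable {G : Gl} {b : ℝ} {J l : ℕ}

theorem Ok.pz4_of (h : G.Ok) (t : G.Tu b J) (w : G.W1f b J l) : G.Pz4 b J l := by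
  intro _ _ _ _ _ _ _ _ _ _ σ _ _ _ _ v P _ hr _ _ _ k hl hk o q _ hx _ hy e
  have u := fun n a c => And.intro (w σ v.s0 (fun k a c => (mul_le_mul_of_nonneg_right
    (pow_le_pow_right₀ (h.Q1 k) (by norm_num)) v.s0.le).trans (v.sb k a c)) _ (fun _ => rfl) n a c).1
    ((mul_comm _ _).trans_le (v.sb n a c))
  exact (h.dm_two P v.a0 v.t0 v.t1 hx hy e hl v.a4 (o k le_rfl hk).fd.fi (u k hl hk).1 (u k hl hk).2
    (h.dm_run P v.a0 v.t0 v.t1 hx hy e hl t hk u fun n a b =>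
      hr n (by omega) ▸ ⟨⟨_, (o n a.le b).fd.fi⟩, q n a b⟩)).1

variable (o : G.Oks) (u : AfU G.c G.Kt G.K0)
include o u

theorem pz4_ev : ∀ᶠ l in atTop, ∀ m b J, (G.wm m).Tu b J → l ≤ J → (G.wm m).Pz4 b J l :=
  (w1f o u).mono fun _ w m b J t _ => (o m).1.pz4_of t (w m b J t)

theorem uo_all : ∀ᶠ l in atTop, ∀ m b J, (G.wm m).Tu b J → l ≤ J → (G.wm m).Uo b J l :=
  uo_ev o (pz4_ev o u)

end Pool.Agent.Lib.MP_7f377f_mp.RG.Q4.En.Gl
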