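import Pool.Agent.Lib.MP_7f377f_mp.G.S21K
import Pool.Agent.Lib.MP_7f377f_mp.G.S23H3
import Pool.Agent.Lib.MP_7f377f_mp.G.S23C4
import Pool.Agent.Lib.MP_7f377f_mp.G.S23N9
import Pool.Agent.Lib.MP_7f377f_mp.G.S23R6

/-! The third moments with an overlapping source along the run. -/

noncomputable section

namespace Pool.Agent.Lib.MP_7f377f_mp.An

open Filter Topology Set YM7 S3 RG RG.Q4 RG.Q4.En

theorem nr_stub [GD] {G β U S₀ S} (R : Rn G β U S₀ S) (u : AfU G.c G.Kt G.K0) :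
    ∀ a v f g, Ds univ a → Ds univ v → Rad a → Rad v → ∀ hf : Adm ![f], Ds Sb f → Ds Sb g →
      Ds (tsupport f)ᶜ g → ∀ δ > (0 : ℝ), ∀ᶠ s : ℝ in 𝓝[>] 0, ∀ᶠ e : ℕ in atTop, ∀ᶠ p in L6.fast,
        |∑ x ∈ (Ope.fin_gp hf e).toFinset, (3 ^ e)⁻¹ ^ 4 * f (Ope.gp e x) *
          corr (Fi.tr haar) (β p) (G.nn p) (G.aa p)
            ![bz s (Ope.gp e x) a, bz s (Ope.gp e x) v, g]| ≤ δ * s ^ 4 :=
  fun a v f g ha hv ra rv hf _ _ => R.ok.tri_nr R.tu (Gl.j2r R.ok u) (Gl.uo_all R.ok u) le_rfl a v f g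
    ha hv ra rv hf

theorem tri_run [GD] : ∃ P : Sd → Prop, (∀ c, TL c → ∀ᶠ S in ev c, P S) ∧
    ∀ {G β U S₀ S}, Rn G β U S₀ S → G.HP P →
      Tri U fun p => YM7.corr (Fi.tr haar) (β p) (G.nn p) (G.aa p) :=
  ⟨fun S => AfU S.c S.Kt S.K0, fun _ => afu_ev, fun R h =>
    have u := R.hp (P := fun c Kt K0 _ => AfU c Kt K0) h
    tri_of R (Gl.j2r R.ok u) (Gl.pzc_ev R.ok u) (fun c _ => Gl.hq_ev R.ok u c) (nr_stub R u)⟩

end Pool.Agent.Lib.MP_7f377f_mp.An
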