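import Pool.Agent.Lib.MP_7f377f_mp.G.S23F2
import Pool.Agent.Lib.MP_7f377f_mp.G.Q5CmL
import Pool.Agent.Lib.MP_7f377f_mp.G.Q5Gen

/-! One big source over small sources: what the glue uses of the flow. -/

noncomputable section

open Pool.Agent.Lib.MP_7f377f_mp.Jet

set_option linter.unusedSectionVars false
variable [Pool.Agent.Lib.MP_7f377f_mp.GD]

namespace Pool.Agent.Lib.MP_7f377f_mp.RG.Q4.En.Gl

open Finset Real Sg Pos Br YM7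
open scoped Classical

variable (G : Gl)

/-- the level from which on the sources are not seen -/
def lf (c l : ℕ) : ℕ := l - 2 * (pP c * G.K)

/-- the small sources are separated at the levels `[k, J]` -/
def Ss {ι : Type} [Fintype ι] [DecidableEq ι] (B : ι → Prop) (W : ι → Finset St) (C : ℝ)
    (J k : ℕ) : Prop := ∀ n, k ≤ n → n ≤ J →
  Cls (G.N n) (C * (G.p n).D) (univ.filter (¬ B ·)) id fun x => G.zs (W x) J n

/-- families along one run -/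
def Fe3 (c j l : ℕ) : Prop := ∀ b J, G.Tu b J → l < J →
  ∀ (ι κ : Type) [Fintype ι] [DecidableEq ι] [DecidableEq κ] (B : ι → Prop) (cl : ι → κ)
    (F : ι → Src (G.N J)) (W : ι → Finset St) (a τ M : ℝ), 0 < a → 0 ≤ τ → (∀ x, Nrm a τ (F x)) →
    1.01 ^ (J - l) * (10 ^ 37 * τ) ≤ 1 → G.rt J l * a ≤ 1 → (∀ x, sup (F x) ⊆ W x) →
    G.Geo3 univ B cl c W J l j → G.Ss B W 3 J l → (∀ x, (G.zs (W x) J j).card ≤ M) →
    ∃ Y, G.Fe b J j (fun x => rd B (G.sg l) l j x • F x) 1 M Y ∧ Y.Ec univ cl ∧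
      ∀ m, j ≤ m → m ≤ l → ∀ x y z, B x → ¬ B y → ¬ B z → y ≠ z →
        (∀ n, m ≤ n → n ≤ J → Disjoint (G.zs (W x) J n) (G.zs (W y) J n)) →
        ‖jd {x, y, z} Y.E‖ ≤ 2 ^ (l - j) * (100 ^ (l - m) * G.rt l m : ℝ)⁻¹

/-- comparison with the short run -/
def Cm3 (c j l : ℕ) : Prop := ∀ b b' J', G.Tu b (G.lJ c l) → G.Tu b' J' → G.lJ c l ≤ J' →
  ∃ γ : ℝ, |γ - 1| ≤ (G.Q l)⁻¹ ∧ ∀ (F : Fin 3 → Src (G.N (G.lJ c l))) (F' : Fin 3 → Src (G.N J'))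
    (g : Fin 3 → St → ℂ) (W : Fin 3 → Finset St) (a M : ℝ), 0 < a → G.rt J' l * a ≤ 4 →
    (∀ v, LipT (G.N J') a (g v)) → (∀ v z, ‖g v z‖ ≤ 1) →
    (∀ v, symF (F' v) = fun z _ _ => g v z) →
    (∀ v, symF (F v) = fun z _ _ => G.fd J' (G.lJ c l) (g v) z) → (∀ v, sup (F' v) ⊆ W v) →
    G.Geo3 univ (· = 0) (fun _ => ()) c W J' l j → G.Ss (· = 0) W 3 J' l →
    Sep (G.N (G.lk c l)) (G.L l * (G.p (G.lk c l)).D) (G.zs (W 1) J' (G.lk c l))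
      (G.zs (W 2) J' (G.lk c l)) → (∀ n ≤ l, (G.zs (W 1) J' n).card ≤ G.Q l ^ 50) →
    (∀ v, (G.zs (W v) J' j).card ≤ M) →
    ∃ Z Z' : Fy (Fin 3), G.Fe b (G.lJ c l) j (fun x => rd (· = 0) (G.sg l) l j x • F x) 1 M Z ∧
      G.Fe b' J' j (fun x => rd (· = 0) (G.sg l) l j x • F' x) 1 M Z' ∧
      ‖jd univ Z'.E - γ ^ 3 * jd univ Z.E‖ ≤ 2 ^ (l - j) * (G.Q l ^ pP c)⁻¹

end Pool.Agent.Lib.MP_7f377f_mp.RG.Q4.En.Gl
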