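import Pool.Agent.Lib.MP_7f377f_mp.G.S23G
import Pool.Agent.Lib.MP_7f377f_mp.G.S23C1
import Pool.Agent.Lib.MP_7f377f_mp.G.Q5Cm2

/-! One big source over two small sources: comparison of the third moments of two runs. -/

noncomputable section

open Pool.Agent.Lib.MP_7f377f_mp.Jet

set_option linter.unusedSectionVars false
variable [Pool.Agent.Lib.MP_7f377f_mp.GD]

namespace Pool.Agent.Lib.MP_7f377f_mp.RG.Q4.En

open Finset Real Sg Br YM7
open scoped Classical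

omit [GD] in
theorem rd_tri (σ : ℝ) (l j : ℕ) : ∏ i : Fin 3, rd (· = 0) σ l j i = 2 ^ (l - j) * σ ^ 3 := by
  simp [Fin.prod_univ_three, rd]
  field_simp

omit [GD] in
theorem mem12 : ∀ p : Fin 3, ¬ p = 0 → p ∈ ({1, 2} : Finset (Fin 3)) := by decide

theorem corr_add0 {n : ℕ} [NeZero n] (b a : ℝ) (x y f g : R4 → ℝ) :
    YM7.corr (Fi.tr haar) b n a ![x + y, f, g] =
      YM7.corr (Fi.tr haar) b n a ![x, f, g] + YM7.corr (Fi.tr haar) b n a ![y, f, g] := by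
  have hh : (Fi.tr haar).IsHaarMeasure := (inferInstance : haar.IsHaarMeasure)
  have := (gM (n := n) (Fi.tr haar) b 3).cons_add (fun i x _ _ => ![f, g] i (xp a x))
    (fun z _ _ => x (xp a z)) fun z _ _ => y (xp a z)
  simp only [gM_apply] at this
  simp only [corr_eq]
  convert this using 2
  all_goals try congr 1
  all_goals funext i; fin_cases i <;> rfl

namespace Gl

variable {G : Gl} {c C j l J J' m u v : ℕ} {Λ δ d η X X0 L0 a b b' : ℝ} {f : Fin 2 → R4 → ℝ}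
  {χ ξ : R4 → ℝ}

theorem Geo3.unit {ι κ : Type} [DecidableEq κ] {A : Finset ι} {B : ι → Prop} {W : ι → Finset St}
    {y : κ} (g : G.Geo3 A B (fun _ => y) c W J l j) : G.Geo3 A B (fun _ => ()) c W J l j :=
  ⟨fun _ _ _ _ _ _ _ e => (e rfl).elim, fun x hx z hz b b' _ => g.uni x hx z hz b b' rfl,
    fun _ => by simpa using g.card y, g.big, fun _ => (g.vol y).imp fun _ e =>
      ⟨e.1, fun x hx b _ => e.2 x hx b rfl⟩⟩

namespace Ok

variable (h : G.Ok)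
include h

theorem ss_of {ι : Type} [Fintype ι] [DecidableEq ι] {B : ι → Prop} {W : ι → Finset St}
    (S : ∀ p q, p ≠ q → ¬ B p → ¬ B q → Sep (G.N J) (G.ds J l) (W p) (W q)) : G.Ss B W 3 J l :=
  (h.cls_ds fun p hp q hq e => S p q e (mem_filter.1 hp).2 (mem_filter.1 hq).2).1

theorem b_sg3 (b0 : 0 ≤ b) (hb : b ≤ 4 * G.bb l) (hc : 4 ≤ c) :
    b ^ 3 * (G.Q l ^ pP c)⁻¹ ≤ G.sg l ^ 3 * (G.Q l)⁻¹ := by
  have q := h.Q0 l
  have s := h.sg_pos l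
  have a : b ≤ G.sg l * G.Q l ^ 1201 := by
    rw [sg, pow_succ _ 1200, ← mul_assoc, div_mul_cancel₀ _ (by positivity)]
    nlinarith [h.cQ l (C := 4) (by norm_num), h.b0 l]
  rw [pP, pow_succ _ (1201 * c), mul_inv, ← mul_assoc]
  refine mul_le_mul_of_nonneg_right ?_ (by positivity)
  rw [mul_inv_le_iff₀ (by positivity)]
  refine (pow_le_pow_left₀ b0 a 3).trans ?_
  rw [mul_pow, ← pow_mul]
  exact mul_le_mul_of_nonneg_left (pow_le_pow_right₀ (h.Q1 l) (by omega)) (by positivity)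

section
variable [NeZero (G.N J)] [NeZero m] (E : G.Fe3 c j l) (t : G.Tu b J) (V : G.Lv c j l Λ δ d)
  (hl : l < J) (ha : a * 3 ^ G.e J = 1) (hn : G.N j = m * u) (hu : 3 ^ G.e j ≤ 3 * u) (m1 : 1 < m)
  (hc : 3 ≤ c) (H : YM7.Tf f Λ δ) (H0 : Tf1 χ X0) (H1 : Nfn χ L0) (h1 : d * X0 ≤ 50⁻¹)
  (hv : |a * v - a * (G.rt J j * u : ℕ) / 2| ≤ d)
include E t V hl ha hn hu m1 hc H H0 H1 h1 hv

/-- the third moment is the third jet of the free energy -/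
theorem gc_run {Y : Fy (Fin 3)} (e : G.Fe b J j (fun x => rd (· = 0) (G.sg l) l j x •
      ts3 L0 Λ d d a χ f (Fi.cst (G.N J) fun _ => v) x) 1 (G.nz3 j u) Y) :
    ‖(2 ^ (l - j) * G.sg l ^ 3 * gcorr (Fi.tr haar) b (G.N J)
      (ts3 L0 Λ d d a χ f (Fi.cst (G.N J) fun _ => v)) : ℝ) + jd univ Y.E‖ ≤
      G.mr4 j u 3 * exp (3 * G.mr4 j u 3) := by
  have hh : (Fi.tr haar).IsHaarMeasure := (inferInstance : haar.IsHaarMeasure)
  have s0 := div_pos (a_pos ha) V.d0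
  have dd : ∀ i : Fin 3, ![d, d, d] i = d := fun i => by fin_cases i <;> rfl
  have := (h.red_run3 V hl ha H.one H.pos hn hu H H0 H1 le_rfl h1 hv t.b0 one_pos m1
    (fun F p1 p2 p3 p4 => (E b J t hl _ _ _ _ (fun p : Weak.Site 4 m × Fin 3 => F p.1 p.2) _ (a / d)
      (4 * (a / d)) _ s0 (by positivity) (fun p => by simpa only [dd] using p1 p.1 p.2)
      (h.s_le V hl ha).2 (h.s_rt V hl ha) (fun _ => Subset.rfl) p2 (h.ss_of p4) p3).imp
        fun _ k => ⟨k.1, k.2.1⟩) hc e).gcorr3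
  rwa [rd_tri, ce, if_neg univ_nonempty.ne_empty, one_pow, mul_one] at this

/-- the big source vanishes near the small ones -/
theorem gc_far {n : ℕ} (h2 : j ≤ n) (h3 : n ≤ l)
    (far : ∀ y, χ y ≠ 0 → ∃ i, Λ + 26 * G.L l ^ (G.K0 + (l - n)) ≤ |y i|) :
    2 ^ (l - j) * G.sg l ^ 3 * |gcorr (Fi.tr haar) b (G.N J)
      (ts3 L0 Λ d d a χ f (Fi.cst (G.N J) fun _ => v))| ≤ G.mr4 j u 3 * exp (3 * G.mr4 j u 3) +
        2 ^ (l - j) * (G.rt l n : ℝ)⁻¹ := by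
  have a0 := a_pos ha
  have d0 := V.d0
  have s0 := div_pos a0 d0
  have dd : ∀ i : Fin 3, ![d, d, d] i = d := fun i => by fin_cases i <;> rfl
  obtain ⟨g1, g2, g3, -, g5⟩ := h.geo_run3 V hl ha H.one H.pos hn hu H H0 H1 le_rfl h1 hv hc rfl
  have S := h.sep_ts3 V hl ha H.one H.pos hn hu H H0 H1 le_rfl h1 hv (i := 1)
    (D0 := 26 * (G.L n ^ G.K0 * G.rt J n)) (fun y e => (far _ e).imp fun i k => by
      have b1 : (G.L n : ℝ) ^ G.K0 * G.rt l n ≤ G.L l ^ (G.K0 + (l - n)) := by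
        rw [pow_add]
        gcongr
        exacts [h.L_mono h3, by exact_mod_cast h.rt_le n h3]
      have b2 := h.s_rt V hl ha
      rw [← mul_div_assoc, div_le_one d0] at b2
      rw [PiLp.smul_apply, smul_eq_mul, abs_mul, abs_inv, abs_of_pos d0, le_inv_mul_iff₀ d0] at k
      rw [← h.rt_mul h3 hl.le]
      push_cast
      nlinarith [mul_le_mul b1 b2 (by positivity) (by positivity)]) (by decide)
  obtain ⟨Y, y1, -, y2⟩ := E b J t hl _ _ _ _ _ _ (a / d) 0 _ s0 le_rfl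
    (fun i => by simpa only [dd] using g1 i) (by simp) (h.s_rt V hl ha) (fun _ => Subset.rfl) g2
    (h.ss_of fun p q e b1 b2 => g5 p (mem12 p b1) q (mem12 q b2) e) g3
  have y3 := y2 n h2 h3 0 1 2 rfl (by decide) (by decide) (by decide) fun k k1 k2 =>
    (h.sep_zs S zero_le_one (by push_cast; linarith) k1 k2).disj (by simpa using h.D_pos k)
  have y4 := h.gc_run E t V hl ha hn hu m1 hc H H0 H1 h1 hv y1
  have := norm_sub_le_of_le y4 y3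
  rw [show ({0, 1, 2} : Finset (Fin 3)) = univ from rfl, add_sub_cancel_right, Complex.norm_real,
    Real.norm_eq_abs, abs_mul, abs_of_nonneg (by have := h.sg_pos l; positivity)] at this
  refine this.trans ?_
  gcongr
  exacts [rt_pos _ _, le_mul_of_one_le_left (Nat.cast_nonneg _) (one_le_pow₀ (by norm_num))]

end

/-- the third moments of two runs -/
theorem cmp_three [NeZero (G.N (G.lJ c l))] [NeZero (G.N J')]
    (hB : pB c C * G.K + pB c C ≤ G.Bk l) (w : G.Lw c l j X η) (V : G.Lv c j l Λ δ d)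
    (H : YM7.Tf f Λ δ) (hc : 4 ≤ c) (j0 : 0 < j) (E : G.Fe3 c j l) (E' : G.Cm3 c j l)
    (t : G.Tu b (G.lJ c l)) (t' : G.Tu b' J') (hJ' : G.lJ c l ≤ J') (n1 : Nfn χ L0) (n2 : Nfn ξ L0)
    (s1 : ∀ y, χ y ≠ 0 → ∀ i, |y i| ≤ X0) (s2 : ∀ y, ξ y ≠ 0 → ∀ i, |y i| ≤ X0) (X1 : 1 ≤ X0)
    (X2 : L0 ≤ X0) (h1 : d * X0 ≤ 50⁻¹)
    (far : ∀ y, ξ y ≠ 0 → ∃ i, Λ + 26 * G.L l ^ (G.K0 + 2 * (pP c * G.K)) ≤ |y i|) :
    ∃ γ : ℝ, |γ - 1| ≤ (G.Q l)⁻¹ ∧ b ^ 3 * |YM7.corr (Fi.tr haar) b' (G.N J') (3 ^ G.e J')⁻¹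
      (fun i y => ![χ + ξ, f 0, f 1] i (d⁻¹ • y)) - γ ^ 3 * YM7.corr (Fi.tr haar) b (G.N (G.lJ c l))
        (3 ^ G.e (G.lJ c l))⁻¹ fun i y => ![χ, f 0, f 1] i (d⁻¹ • y)| ≤ L0 * Λ ^ 2 *
      (10 * (G.mr4 j (3 ^ (G.e j - 1)) 3 * exp (3 * G.mr4 j (3 ^ (G.e j - 1)) 3)) + 2) *
        (G.Q l)⁻¹ := by
  have hh : (Fi.tr haar).IsHaarMeasure := (inferInstance : haar.IsHaarMeasure)
  have o1 : l + G.K0 + 1 ≤ G.lk c l := by
    have := h.K0_le
    unfold lk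
    nlinarith [Nat.zero_le (G.K * pT c)]
  have o3 : G.lk c l < G.lJ c l := by unfold lJ li; omega
  obtain ⟨γ, g1, g2⟩ := E' b b' J' t t' hJ'
  refine ⟨γ, g1, ?_⟩
  have b4 : b ≤ 4 * G.bb l := by
    linarith [(h.top_two t).1, (h.lw_win hB (show l ≤ G.lJ c l by omega) le_rfl).2.2]
  have W := (h.lw_win hB (show l ≤ G.lk c l by omega) o3.le).1
  generalize G.lJ c l = J at *
  have o4 : l < J := by omega
  have o5 := o4.trans_le hJ'
  have e1 : 3 * 3 ^ (G.e j - 1) = 3 ^ G.e j := by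
    rw [← pow_succ', Nat.sub_add_cancel (j0.trans_le h.sch.mono.le_apply)]
  have hn : G.N j = 3 * G.m * 3 ^ (G.e j - 1) := by rw [N, ← e1]; ring
  have m1 : 1 < 3 * G.m := by have := h.odd.pos; omega
  have : NeZero (3 * G.m) := ⟨by omega⟩
  have a1 : ∀ n, ((3 : ℝ) ^ G.e n)⁻¹ * 3 ^ G.e n = 1 := fun n => inv_mul_cancel₀ (by positivity)
  have e2 : (G.rt J' J : ℝ) * (3 ^ G.e J')⁻¹ = (3 ^ G.e J)⁻¹ := by
    rw [← h.rt_e hJ', mul_inv, mul_inv_cancel_left₀ (rt_pos _ _).ne']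
  have d0 := V.d0
  have hv := ex_mid (a_pos (a1 J)) ((div_le_one d0).1 (h.s_le V o4 (a1 J)).1)
    (G.rt J j * 3 ^ (G.e j - 1))
  generalize G.rt J j * 3 ^ (G.e j - 1) / 2 = v at hv
  have hv' : |((3 : ℝ) ^ G.e J')⁻¹ * (G.rt J' J * v : ℕ) -
      (3 ^ G.e J')⁻¹ * (G.rt J' j * 3 ^ (G.e j - 1) : ℕ) / 2| ≤ d := by
    rw [← h.rt_mul (V.le.trans o4.le) hJ']
    rw [← e2] at hv
    refine le_of_eq_of_le ?_ hv
    push_cast
    ring_nf
  have c3 : 3 ≤ c := by omega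
  have s0 : 0 < ((3 : ℝ) ^ G.e J')⁻¹ / d := div_pos (by positivity) d0
  have dd : ∀ i : Fin 3, ![d, d, d] i = d := fun i => by fin_cases i <;> rfl
  have t1 := n1.t1 X1 X2 s1
  obtain ⟨p1, p2, p3, p4, p5⟩ := h.geo_run3 V o5 (a1 J') H.one H.pos hn e1.ge H t1 n1 le_rfl h1 hv'
    c3 rfl
  obtain ⟨Z, Z', z1, z2, z3⟩ := g2 (ts3 L0 Λ d d (3 ^ G.e J)⁻¹ χ f (Fi.cst _ fun _ => v)) _
    (fun i => prf (G.N J') (![L0, Λ, Λ] i) (fun _ : Fin 1 => ![χ, f 0, f 1] i)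
      ((3 ^ G.e J')⁻¹ / ![d, d, d] i) (fun _ => (G.rt J' J * v : ℕ)) 0) _ (4 * ((3 ^ G.e J')⁻¹ / d)) _
    (by positivity) (by linarith [h.s_rt V o5 (a1 J')]) (fun i => by
      obtain ⟨g, k1, -, -, k2⟩ := nrm_lip (p1 i)
      rw [dd, ← (funext fun x => sub_eq_zero.1 (norm_le_zero_iff.1 (k2 x 0 0)) : _ = g)] at k1
      exact k1)
    (fun i z => (nrm_le (p1 i) z 0 0).trans_eq (add_zero 1)) (fun _ => rfl) (fun i => by
      rw [show (fun _ => ((G.rt J' J * v : ℕ) : ℤ)) = (G.rt J' J : ℤ) • (fun _ => (v : ℤ) : St) from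
        funext fun _ => Nat.cast_mul .., fd_prf h hJ', ← mul_div_assoc, e2]
      rfl) (fun _ => Subset.rfl) p2.unit
    (h.ss_of fun p q e b1 b2 => p5 p (mem12 p b1) q (mem12 q b2) e)
    ((h.cls_ds p5).2 _ o1 (by omega) W 1 (by decide) 2 (by decide) (by decide))
    (fun n e => p4 n e 1 (by decide)) p3
  have y1 := h.gc_run E t V o4 (a1 J) hn e1.ge m1 c3 H t1 n1 h1 hv z1
  have y2 := h.gc_run E t' V o5 (a1 J') hn e1.ge m1 c3 H t1 n1 h1 hv' z2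
  have y3 := h.gc_far E t' V o5 (a1 J') hn e1.ge m1 c3 H (n2.t1 X1 X2 s2) n2 h1 hv' (h.le_lf w)
    lf_le (by rwa [h.sub_lf w])
  have k : ∀ {n} [NeZero n] b a (x : R4 → ℝ) v, YM7.corr (Fi.tr haar) b n a ![fun y => x (d⁻¹ • y),
      fun y => f 0 (d⁻¹ • y), fun y => f 1 (d⁻¹ • y)] =
      L0 * Λ ^ 2 * gcorr (Fi.tr haar) b n (ts3 L0 Λ d d a x f v) := fun b a x v => by
    rw [← corr_ts3 _ _ _ n1.pos.ne' (one_pos.trans_le H.one).ne' d0.ne', inv_mul_cancel₀ d0.ne']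
    congr 1
    funext i
    fin_cases i <;> simp
  have k' : ∀ x : R4 → ℝ, (fun i y => ![x, f 0, f 1] i (d⁻¹ • y)) = ![fun y => x (d⁻¹ • y),
      fun y => f 0 (d⁻¹ • y), fun y => f 1 (d⁻¹ • y)] := fun x => funext fun i => by
    fin_cases i <;> rfl
  rw [k', k', show (fun y => (χ + ξ) (d⁻¹ • y)) = (fun y => χ (d⁻¹ • y)) + fun y => ξ (d⁻¹ • y) from
    rfl, corr_add0, k b _ _ (Fi.cst (G.N J) fun _ => v),
    k b' _ χ (Fi.cst (G.N J') fun _ => (G.rt J' J * v : ℕ)),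
    k b' _ ξ (Fi.cst (G.N J') fun _ => (G.rt J' J * v : ℕ))]
  generalize gcorr _ b (G.N J) _ = x1 at y1 ⊢
  generalize gcorr _ b' (G.N J') (ts3 _ _ _ _ _ χ _ _) = x2 at y2 ⊢
  generalize gcorr _ b' (G.N J') _ = x3 at y3 ⊢
  have M0 := (norm_nonneg _).trans y1
  generalize G.mr4 j _ 3 * _ = M at *
  have q := h.Q0 l
  have s := h.sg_pos l
  have γ2 : ‖(γ : ℂ) ^ 3‖ ≤ 8 := by
    rw [norm_pow, Complex.norm_real, show (8 : ℝ) = 2 ^ 3 by norm_num]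
    refine pow_le_pow_left₀ (norm_nonneg _) ?_ 3
    linarith [abs_sub_abs_le_abs_sub γ 1, abs_one (α := ℝ), Real.norm_eq_abs γ,
      inv_le_one_of_one_le₀ (h.Q1 l)]
  have y4 := norm_sub_le_of_le (norm_sub_le_of_le y2 z3) (norm_mul_le_of_le γ2 y1)
  rw [show ∀ A B e e' g : ℂ, A + e' - (e' - g * e) - g * (B + e) = A - g * B from
    fun _ _ _ _ _ => by ring, ← Complex.ofReal_pow, ← Complex.ofReal_mul, ← Complex.ofReal_sub,
    Complex.norm_real, mul_left_comm, ← mul_sub, Real.norm_eq_abs, abs_mul,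
    abs_of_nonneg (by positivity)] at y4
  have y5 : (G.rt l (G.lf c l) : ℝ)⁻¹ ≤ (G.Q l ^ pP c)⁻¹ := inv_anti₀ (by positivity) (h.lf_rt hB w)
  have y6 : M ≤ 2 ^ (l - j) * (G.Q l ^ pP c)⁻¹ * M := le_mul_of_one_le_left M0 (by
    rw [le_mul_inv_iff₀ (by positivity), one_mul]; exact w.2.1)
  have y7 : G.sg l ^ 3 * |x2 + x3 - γ ^ 3 * x1| ≤ (10 * M + 2) * (G.Q l ^ pP c)⁻¹ := by
    refine le_of_mul_le_mul_left ?_ (pow_pos (two_pos (α := ℝ)) (l - j))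
    have := mul_le_mul_of_nonneg_left (abs_add_le (x2 - γ ^ 3 * x1) x3)
      (show 0 ≤ 2 ^ (l - j) * G.sg l ^ 3 by positivity)
    rw [sub_add_eq_add_sub] at this
    nlinarith [mul_le_mul_of_nonneg_left y5 (pow_pos (two_pos (α := ℝ)) (l - j)).le]
  have L0' := n1.pos
  rw [mul_left_comm, ← mul_add, ← mul_sub, abs_mul, abs_of_nonneg (by positivity), mul_left_comm,
    mul_assoc _ (_ + _)]
  refine mul_le_mul_of_nonneg_left (le_of_mul_le_mul_left ?_ (pow_pos s 3)) (by positivity)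
  have := mul_le_mul_of_nonneg_left (h.b_sg3 t.b0 b4 hc) (show 0 ≤ 10 * M + 2 by positivity)
  nlinarith [mul_le_mul_of_nonneg_left y7 (pow_nonneg t.b0 3)]

end Ok

end Gl

end Pool.Agent.Lib.MP_7f377f_mp.RG.Q4.En
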