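import Pool.Agent.Lib.MP_7f377f_mp.G.S22M
import Pool.Agent.Lib.MP_7f377f_mp.G.S23K
import Pool.Agent.Lib.MP_7f377f_mp.YZW

/-! The final assembly with the stress tensor exposed. -/

noncomputable section

namespace Pool.Agent.Lib.MP_7f377f_mp.Bw
variable [Pool.Agent.Lib.MP_7f377f_mp.GD]

open Filter Topology Set YM7 Pur Wm Lm Wv S3 Sw MvPolynomial
open Ro (Iso)

theorem mainY {V P : Type} [NormedAddCommGroup V] [NormedSpace ℝ V] [CommRing P] [Algebra ℂ P]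
    {Φ : Fil V} {N : Net P} {x : V → (R4 → ℝ) → P} {U W : P →ₗ[ℂ] ℂ} {ρ : Iso →* V →ₗ[ℝ] V}
    {A : ℝ → V ≃ₗ[ℝ] V} {S : Cor V} {ι : Pol →ₐ[ℂ] P} {φ o : V} {T₀ : Fin 4 → Fin 4 → V}
    {h : R4 → ℝ} {M c : ℝ → ℝ} {L : Ope.Tn} (B : Bg Φ N x U W ρ A S ι φ o)
    (s : Sm (W ∘ₗ ι.toLinearMap) h M c L) (F : Fb Φ ρ S T₀) :
    ∃ T D δ σ, Cu Φ N x W ρ T ∧ Ops Φ N x W T D δ σ ∧ Wt T A D δ σ T₀ ∧ Nsb N x W T ∧
      (∀ l, σ (om l) φ = 0) ∧ Cu Φ N x U ρ T ∧ Ops Φ N x U T D δ σ ∧ ∀ (a : ℝ) g, Ds (Hs 0 0) g → ∀ η > (0 : ℝ),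
        ∃ b ∈ net.loc (Hs 0 0), N.nq W 0 (x (a • T 0 1) g - ι b) ≤ η := by
  obtain ⟨H, _, _, _, ⟨r⟩⟩ := B.rW.st.exists_rep 0
  have := fun n : R4 => (em (‖n‖ = 1)).elim (fun e => (B.mg h n s.rd s.sm e).imp fun _ a _ => a)
    fun e => ⟨0, fun e' => (e e').elim⟩
  choose m hm using this
  obtain ⟨T, t⟩ := exists_tl B s hm r
  have a : Al Φ x U ρ A S ι φ o T r h M c L m := ⟨B, s, hm, F.up, t⟩
  obtain ⟨D, d⟩ := B.rU.der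
  obtain ⟨δ, σ, q⟩ := B.rU.ops (a.cuU d) d
  have cov := fun w μ ν => by simpa using a.cov (B.sy_prm w) μ ν
  refine ⟨T, D, δ, σ, a.cuW d, B.opsW q, ⟨a.wtr q, a.wro q F.cl2, aft B.rW (a.cuW d) (B.opsW q) F
    a.ne t.cen cov B.comm (a.wtr q)⟩, nsb_of (a.cur (a.cuW d)), a.sig q F.cl2, a.cuU d, q,
    fun z g hg η η0 => ?_⟩
  obtain ⟨Γ, h1, -⟩ := vec B.rW r hg (N.one _)
  have k : Γ (z • T 0 1) ∈ Kk ι r := by
    rw [map_smul, h1, mul_one]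
    exact Submodule.smul_of_tower_mem _ _ (B.mem_one (t.kk 0 1) hg)
  obtain ⟨_, ⟨b, b1, rfl⟩, b2⟩ := Metric.mem_closure_iff.1 k _ (Real.sqrt_pos.2 η0)
  refine ⟨b, ns_le b1, ?_⟩
  rw [r.nq (sub_mem (B.rW.memd _ hg) (B.emb.mem (ns_le b1))), map_sub, ← mul_one (x _ g), ← h1,
    ← dist_eq_norm]
  exact (Real.le_sqrt dist_nonneg η0.le).1 b2.le

end Pool.Agent.Lib.MP_7f377f_mp.Bw

namespace Pool.Agent.Lib.MP_7f377f_mp.Zg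
variable [Pool.Agent.Lib.MP_7f377f_mp.GD]
set_option linter.unusedSectionVars false

section
open MeasureTheory Filter Topology Set YM7 Pur Wm Lm Wv S3 Matrix Sw MvPolynomial Complex
open Ro (Iso)
open YZ (Lab rho FF lag Fp Loc)

variable {V P : Type} [NormedAddCommGroup V] [NormedSpace ℝ V] [CommRing P] [Algebra ℂ P]
  {Φ : Fil V} {N : Net P} {x : V → (R4 → ℝ) → P} {S W : P →ₗ[ℂ] ℂ} {ρ : Iso →* V →ₗ[ℝ] V}
  {A M : ℝ → V ≃ₗ[ℝ] V} {S₀ : Cor V} {d m : ℕ} {L : Subalgebra ℂ (Lab d)}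
  {p : Fin 2 → Lab d →ₗ[ℝ] V} {inc : V →ₗ[ℝ] Lab d} {lg φ u : V} {T t0 : Fin 4 → Fin 4 → V}
  {D : Fin 4 → V →ₗ[ℝ] V} {σ : Mat → V →ₗ[ℝ] V} {sc : ℝ → V →ₗ[ℝ] V} {J : V ≃ₗ[ℝ] V} {β q : ℝ}

theorem Br.wardA (h : Br Φ ρ S₀ L p inc lg t0) (hr : Rg Φ N x W ρ A S₀) (hc : Cu Φ N x W ρ T)
    (ho : Ops Φ N x W T D D σ) (hf : Fx Φ x W ρ A sc T t0 β φ u lg J M)
    (hu : ∀ f, C1 univ f → ∀ Z ∈ N.loc (tsupport f)ᶜ, W (x u f * Z) = (∫ y, f y : ℝ) * W Z) {γ : ℝ}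
    (e : ∀ μ ν, T μ ν = J ((-1 : ℝ) • t0 μ ν) + if μ = ν then (-(β / 4)) • φ + γ • u else 0) :
    YZ.WardA L β fun _ c f => W (∏ i, xc (fun c => x (J c)) (fun b c => p b c) (c i) (f i)) := by
  intro k c g ξ a ν hg h1 h2 h3
  obtain ⟨s, e1⟩ : ∃ s : ℝ, s = -1 := ⟨_, rfl⟩
  obtain ⟨s', e2⟩ : ∃ s : ℝ, s = -(β / 4) := ⟨_, rfl⟩
  rw [← e1, ← e2] at e
  have hs : ∀ i, Ds univ (g i) := fun i => ⟨(h1 i).1, (hg.1 i).1, subset_univ _⟩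
  have hξ : Ds univ ξ := ⟨h2, h3, subset_univ _⟩
  have l : Lc N W x := hr.linc
  have G := hf.gen hr.gen
  have a1 : ∀ μ, (if μ = ν then (1 - β / 4 : ℂ) • lag else 0) - FF μ ν =
      inc (s • t0 μ ν + if μ = ν then s' • lg else 0) := fun μ => by
    split_ifs with e <;> simp [h.it0, h.ilg, e, e1, e2, sub_smul, smul_sub]
    rw [← Complex.coe_smul (β / 4)]
    push_cast
    abel
  have a2 : ∀ μ, J (s • t0 μ ν + if μ = ν then s' • lg else 0) =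
      (if μ = ν then -γ else 0) • u + T μ ν := fun μ => by
    rw [e]
    split_ifs <;> simp [hf.jl]
    abel
  have a3 : ∀ (c : Fin k → V) μ, ∏ i, x (c i) (g i) ∈ N.loc (tsupport (pd μ ξ))ᶜ := fun c μ =>
    gen_mem hr.gen c hg fun i y hy e => ((gs_diff hξ (h1 i).2 μ).2.2 e).2 hy
  have a4 : ∀ (c : Fin k → V), ∑ μ, W (xc (fun c => x (J c)) (fun b c => p b c)
      (inc (s • t0 μ ν + if μ = ν then s' • lg else 0)) (pd μ ξ) * ∏ i, x (c i) (g i)) =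
        ∑ μ, W (x (T μ ν) (pd μ ξ) * ∏ i, x (c i) (g i)) := fun c =>
    Finset.sum_congr rfl fun μ _ => by
      have b := dc (hξ.pd μ)
      rw [(((l.comp J).zr G).xc (q := fun b c => p b c) G b (h.p_inc _).2).2.2 _ (a3 c μ)]
      simp only [h.p_inc, a2, l _ _ _ _ b _ (a3 c μ), hu _ b _ (a3 c μ), int_pd hξ]
      simp
  simp only [Fin.prod_univ_succ, cons_val_zero, cons_val_succ, a1, xc_prod, Finset.mul_sum,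
    mul_smul_comm, map_sum, map_smul]
  rw [Finset.sum_comm, Finset.sum_comm (s := Finset.univ (α := Fin k))]
  refine Finset.sum_congr rfl fun r _ => ?_
  rw [← Finset.smul_sum]
  refine (congrArg _ ((a4 _).trans (ward0 hr hc ho _ hg hs hξ (fun i => (h1 i).2) ν))).trans ?_
  simp only [Finset.smul_sum]
  rfl

end

section
open MeasureTheory Filter Topology Set YM7 Pur Wm Lm Wv Matrix Sw MvPolynomial
open Ro (Iso)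

variable {d m : ℕ} {𝒜 : Set (Matrix (Fin d) (Fin d) ℝ)} [o : Og 𝒜] {P : Type} [CommRing P]
  [Algebra ℂ P] {N : Net P} {x : V0 𝒜 → (R4 → ℝ) → P} {S : P →ₗ[ℂ] ℂ} {A : ℝ → V0 𝒜 ≃ₗ[ℝ] V0 𝒜}
  {φ : V0 𝒜}

/-- what is known about the fields and the stress tensor -/
structure TpY (O : Matrix (Fin d) (Fin d) ℝ) (N : Net P) (x : V0 𝒜 → (R4 → ℝ) → P)
    (S W : P →ₗ[ℂ] ℂ) (A : ℝ → V0 𝒜 ≃ₗ[ℝ] V0 𝒜) (φ : V0 𝒜) (T : Fin 4 → Fin 4 → V0 𝒜)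
    (J : V0 𝒜 ≃ₗ[ℝ] V0 𝒜) (M : ℝ → V0 𝒜 ≃ₗ[ℝ] V0 𝒜) (p : Fin 2 → YZ.Lab d →ₗ[ℝ] V0 𝒜)
    (inc : V0 𝒜 →ₗ[ℝ] YZ.Lab d) : Prop extends Tp O N x S W A φ T J M p inc where
  af : ∀ μ ν, Tendsto (fun t => (A t).symm (T μ ν)) (𝓝[>] 0) (𝓝 (-Zf.kap⁻¹ • tt 𝒜 μ ν))
  rS : Rg (fil 𝒜) N x S (r0 𝒜) A (S0 𝒜)
  cS : Cu (fil 𝒜) N x S (r0 𝒜) T
  oS : ∃ D σ, Ops (fil 𝒜) N x S T D D σ

/-- the statement with a property of the data at the top -/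
def LkY [MeasurableSpace SU2] (h : Measure SU2) (r : GD.G →* unitaryGroup (Fin m) ℂ)
    (O : Matrix (Fin d) (Fin d) ℝ) (N : Net P) (x : V0 𝒜 → (R4 → ℝ) → P) (S : P →ₗ[ℂ] ℂ)
    (A : ℝ → V0 𝒜 ≃ₗ[ℝ] V0 𝒜) (φ : V0 𝒜) : Prop :=
  ∃ W T J M p inc, ∃ H : TpY O N x S W A φ T J M p inc, ∀ Y,
    Y (fun _ c f => W (∏ i, xc (fun c => x (J c)) (fun b => p b) (c i) (f i)))
      (fun t => H.br.mm (M t)) → OutX h r ((Zf.Iv ℂ 𝒜).comap (Zf.ad O))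
        (4 * GD.t ^ 2 * (11 * GD.b0 / (48 * Real.pi ^ 2))) Y

theorem topY [MeasurableSpace SU2] [BorelSpace SU2] {h : Measure SU2} [h.IsHaarMeasure]
    [IsProbabilityMeasure h] {n : ℕ → ℕ+} {a b : ℕ → ℝ} {F : ℕ → V0 𝒜 →ₗ[ℝ] YZ.Cfg SU2 ℤ → ℝ}
    {r : GD.G →* unitaryGroup (Fin m) ℂ} (hn : GD.n = m + m)
    (ht : ∀ a, (GD.rho a).trace = 2 * (r a).1.trace.re) {O : Matrix (Fin d) (Fin d) ℝ}
    (hO : O * Oᵀ = 1) {G β U S₀} (R : RG.Q4.En.Rn G β U S₀ (S ∘ₗ (aeval (x φ)).toLinearMap))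
    (lat : Lat x S h φ n a b F) (sl : Sl N x S (r0 𝒜) (u0 𝒜))
    (la : La (fil 𝒜) (r0 𝒜) A φ (l0 𝒜)) (bs : Bs (fil 𝒜) N x S A (S0 𝒜) φ) :
    LkY h r O N x S A φ := by
  have b0 := GD.b0_pos
  have t0 := GD.t_pos
  obtain ⟨p, inc, br, hi⟩ := br1 (𝒜 := 𝒜) hO
  obtain ⟨B, b1, b2⟩ := fil_count (fil 𝒜)
  have e := Wx.emb_of sl.gen la.rf
  have q := Wx.qbd_of sl.gen (inv4 _) sl.st sl.lin sl.prod
  obtain ⟨W, w1, w2, w3, w4, w5, -, w6, w7, w8, w9, w10⟩ := Wx.pur sl.gen sl.st sl.lin q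
    (Wx.q1s_of sl.gen (inv4 _) sl.st sl.lin sl.prod) b1 b2 sl.linc e R.rot
  have u := bs.bl S sl.st.one Net.Dom.refl
  have w := bs.bl W w1 w2
  have l := low_of sl.gen sl.st (fun t => la.c1 t 0) (u.af 2)
  have rW : Rg (fil 𝒜) N x W (r0 𝒜) A (S0 𝒜) :=
    ⟨sl.gen, w3, w5, w7, w6, w.mg1, w.mg2, la.up, la.c1, w.af, l⟩
  have v1 : (W ∘ₗ (aeval (x φ) : Pol →ₐ[ℂ] P).toLinearMap) 1 = 1 := by simpa using w1
  have i := R.inp.dom w8 v1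
  obtain ⟨_, D₀, M₀, T₁, -, o1, o2, -⟩ := R.main
  have d0 : (0 : ℝ) < GD.d := by exact_mod_cast GD.d3.trans_lt' three_pos
  obtain ⟨k, M, c, L, sm⟩ := Bw.exists_sm o1 o2 (by rw [Ope.qc]; positivity) ⟨v1, w8, w10⟩ i w9
    R.inp R.rot fun k f hf => by simpa [mon] using sl.real k (fun _ => φ) f hf
  have rS : Rg (fil 𝒜) N x S (r0 𝒜) A (S0 𝒜) :=
    ⟨sl.gen, sl.st, sl.lin, sl.linc, q.bd sl.st, u.mg1, u.mg2, la.up, la.c1, u.af, l⟩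
  obtain ⟨T, D, δ, σ, cu, op, wt, ns, sφ, cS, oS, den⟩ := Bw.mainY (o := u0 𝒜) ⟨rS, rW, sl.real,
      w2, e, fun f => aeval_X _ _, la.mem, u0_mem 4, ⟨la.rf, la.pm⟩, r0_u0, sl.unit, sl.iv, la.c2,
      fun h n h1 h2 h3 => (bs.mg h n h1 h2 h3).imp fun _ e => e W w1 w2⟩ sm fb1
  obtain ⟨J, X, ou⟩ := rW.out cu op fr1 wt ns
  obtain ⟨J, M, fx⟩ := fix (φ := (4 * GD.t ^ 2)⁻¹ • φ)
    (β := 4 * GD.t ^ 2 * (11 * GD.b0 / (48 * Real.pi ^ 2))) rW w.bd fr1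
    (neg_ne_zero.2 (inv_ne_zero Zf.kap_ne)) cu wt ou (by positivity)
    (Submodule.smul_mem _ _ la.mem) (fun l => by rw [map_smul, la.rf])
    (fun l => by rw [map_smul, sφ, smul_zero]) (la.sg.congr fun t => by
      rw [smul_smul]
      congr 2
      field_simp)
  have ph : Ph (fil 𝒜) N x W A φ (u0 𝒜) (l0 𝒜) := ⟨⟨48 / (11 * GD.b0), by positivity,
    fun k f hf => by simpa [mon] using i.af k f hf⟩, la.sg, la.mem, fun f hf =>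
      Wx.unit_dom sl.gen w2 hf (sl.unit f hf)⟩
  exact ⟨W, T, J, M, p, inc, ⟨⟨hO, br, hi, sl, la, bs, e, q, w1, w2, w4, w8, w9, w10, w, rW, ph, cu,
    ⟨_, _, ou.eq ▸ op⟩, fx, den, fun e => smul_ne_zero (neg_ne_zero.2 (inv_ne_zero Zf.kap_ne)) tt_ne
      (tendsto_nhds_unique (wt.af 0 1) (by simp [e]))⟩, wt.af, rS, cS, _, _, ou.eq ▸ oS⟩,
    fun Y y => (coreX hn ht rfl br sc0 lat w4 ph rW w.mu cu (ou.eq ▸ op) fx).mono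
      fun _ _ k => k.1 ▸ k.2 ▸ y⟩

end

open MeasureTheory Filter Topology Set YM7 L6 Wy Pur Wm Lm Wv Matrix Sw MvPolynomial RG RG.Q4 RG.Q4.En
open Ro (Iso)

variable {G : Gl} {β : ℕ × ℕ → ℝ} {U : Ultrafilter (ℕ × ℕ)}
  {S₀ : ∀ {k : ℕ}, (Fin k → R4 → ℝ) → ℝ} {S : Pol →ₗ[ℂ] ℂ} {m : ℕ}
  {𝒜 : Set (Matrix (Fin GD.d) (Fin GD.d) ℝ)} [o : Og 𝒜] {O : ℕ × ℕ → V0 𝒜 →ₗ[ℝ] Fz → ℝ}
  {A : ℝ → V0 𝒜 ≃ₗ[ℝ] V0 𝒜} {φ : V0 𝒜}

theorem runY {r : GD.G →* unitaryGroup (Fin m) ℂ} (hn : GD.n = m + m)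
    (ht : ∀ a, (GD.rho a).trace = 2 * (r a).1.trace.re) {B} (hB : B * Bᵀ = 1) (R : Rn G β U S₀ S)
    (H : Ri 𝒜 (Fi.tr haar) G.nn G.aa β U O A φ) :
    ∃ (P : Type) (_ : CommRing P) (_ : Algebra ℂ P) (N : Net P) (x : V0 𝒜 → (R4 → ℝ) → P)
      (S : P →ₗ[ℂ] ℂ), Rn G β U S₀ (S ∘ₗ (aeval (x φ)).toLinearMap) ∧
        LkY (Fi.tr haar) r B N x S A φ := by
  classical
  have : (Fi.tr haar).IsHaarMeasure := (inferInstance : haar.IsHaarMeasure)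
  have := (fil 𝒜).fin 4
  have F := fm_of R
  have i := inv4 (r0 𝒜)
  have P : Pl (fun p c => O p c) fun μ => r0 𝒜 (rfL μ) :=
    ⟨fun c => (H.obs c).imp fun _ e p => obs_re (e p), H.rf⟩
  obtain ⟨ψ, Γ, g, a1, a2, a3, a4⟩ := H.en
  have a0 := ((fil 𝒜).F 4).closed_of_finiteDimensional.mem_of_tendsto a2 (.of_forall a1)
  have E := el_inl a4.el
  obtain ⟨y, e'⟩ := H.obs φ
  obtain ⟨X, x⟩ : ∃ X : _ → _, ∀ p,
      (if p ∈ Γ then dl (Fi.tr haar) G.nn G.aa β p else O p φ) = X p := ⟨_, fun _ => rfl⟩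
  have g' : ∀ᶠ p in U, X p = dl (Fi.tr haar) G.nn G.aa β p :=
    mem_of_superset g fun p e => (x p).symm.trans (if_pos e)
  have D : ∀ p, YZ.Obs (1 + y) fun W => (X p W : ℂ) := fun p => by
    rw [← x]
    split_ifs
    · simpa using obs_add (F := fun W => dl (Fi.tr haar) G.nn G.aa β p W) (obs_dz _ _) (e' p) 0
    · simpa [add_comm] using obs_add (e' p) (obs_dz 0 1) 0
  simp only [x] at a4
  obtain ⟨T', L'⟩ := Wy.exists_lim (h1 := i.1) (h2 := i.2) F P (pb F i E) R.lim.le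
  obtain ⟨T, e1, rfl⟩ := (L'.mod2 (hθ := i) F P a1 a0 a2 ⟨_, fun p => obs_re (D p)⟩ a4
    fun c => if c = φ then 1 else 0).old F
    (φ := φ) (g'.mono fun p e W => by simp [e, dl]) R.lim
  have L := L'.congr e1
  have sl : Sl (netL i.1 i.2) xL T (r0 𝒜) (u0 𝒜) := ⟨gen_L _ _, L.st F P (pb F i E), L.linF F P,
    fun t a b => L.lab F P (.of_forall fun p W => by simp), L.prodL F P E,
    fun k c f => L.real c, fun σ k c f => L.perm F P σ (H.pm σ) c, L.unit F H.one⟩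
  have la : La (fil 𝒜) (r0 𝒜) A φ (l0 𝒜) := ⟨a0, H.p1, H.p2, H.up, H.c1, H.c2,
    sg_of rfl (Lc.ml sl.linc sl.gen) a0 H.p1 H.p2 (fun t => (H.up t).2) H.c1 H.c2
      (H.ci.dom (fp_fp0 𝒜) L F P sl.st Net.Dom.refl sl.st.one).1
      (fun k f hf => by simpa [mon, Pur.kap] using R.inp.af k f hf) H.pos⟩
  obtain ⟨t, t1⟩ : ∃ t : V0 𝒜 →ₗ[ℝ] ℝ, t φ = 1 := Module.Projective.exists_dual_eq_one ℝ fun e =>
    l0_ne (tendsto_nhds_unique la.sg (by simp [e]))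
  obtain ⟨B', b1, b2⟩ := fil_count (fil 𝒜)
  obtain ⟨n, a, b, O', lat⟩ := LimL.lat
    (O := fun p => O p + t.smulRight (X p - O p φ))
    (L.mod2 (hθ := i) F P a1 a0 a2 ⟨_, fun p => obs_re (D p)⟩ a4 t) F
    (PB.mod2 F i P a1 a0 a3 ⟨_, fun p => obs_re (D p)⟩ a4.el t) b1 b2
    ((R.ok.fam R.tu).cpl.mono_left fast_le) (fun c => (H.obs c).elim fun x e =>
      ⟨x + (1 + y + y), fun p => by
        convert obs_add (e p) (obs_add (D p) (e' p) (-1)) (t c) using 2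
        simp [sub_eq_add_neg, mul_add]⟩) (φ := φ)
    (g'.mono fun p e => ⟨_, by
      simp only [LinearMap.add_apply, LinearMap.smulRight_apply, t1, one_smul, add_sub_cancel, e]
      rfl⟩)
  exact ⟨_, _, _, _, _, _, R, topY hn ht hB R lat sl la (H.ci.bs L F P sl.st sl.lin sl.prod
    (fp_fp0 𝒜) (fun t => (H.up t).2) a0)⟩

end Pool.Agent.Lib.MP_7f377f_mp.Zg
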