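import Pool.Agent.Lib.MP_7f377f_mp.G.TyC

/-! Smeared words: admissible slots on the lattice. -/

noncomputable section

set_option linter.unusedSectionVars false
variable [Pool.Agent.Lib.MP_7f377f_mp.GD]

namespace Pool.Agent.Lib.MP_7f377f_mp.RG.Q4.En

open Finset Real Sg YM7 Ob Pos Ty

theorem wact_rs {n : ℕ} [NeZero n] (hn : Odd n) {U : Conf} (hU : Per n U) :
    Mx.wact n U = gfield (sy 1) (Fi.rs n U) := by
  have e := Br.wil_lf hn 1 (Fi.rs n U)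
  have := gfield_site (n := n) 1 (Fi.rs n U)
  simp only [Pi.one_apply, one_mul] at this
  rw [Fi.lf_rs, Sh.pc_per hU, wil, Real.exp_eq_exp, one_mul, neg_one_mul, neg_inj, ← this] at e
  refine e.trans (congrFun (congrArg _ ?_) _)
  funext x i j
  simp only [sy, Pi.one_apply]
  norm_num

theorem rsp_congr {n : ℕ} (hn : n ≠ 0) (x : ℝ) (e : Pl × Pl) (f : Conf → ℂ) {f' g' : Conf → ℂ}
    (a : ∀ U, Per n U → f' U = g' U) : rsp n x e (lg f f') = rsp n x e (lg f g') := by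
  simp only [rsp, lg, a _ (fx_fp hn x _).per, a _ ((fx_fp hn x _).add (fx_fp hn x _)).per,
    a _ (fx_zero (n := n)).per]

theorem sgn_list {n : ℕ} [NeZero n] {B : Cfg n → ℝ} {T : Ty} (hT : ∀ i, ∃ χ, (.inr i, χ) ∈ T)
    (s : ∀ g ∈ T, ∀ U, B (Ob.cg g.1 U) = sb g.2 * B U) (L : List (Fin 4)) :
    ∃ χ : ℝ, |χ| = 1 ∧ ∀ U, B (L.foldr Weak.refl U) = χ * B U := by
  induction L with
  | nil => exact ⟨1, abs_one, fun U => (one_mul _).symm⟩
  | cons i L ih =>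
    obtain ⟨χ, h1, h2⟩ := ih
    obtain ⟨σ, hσ⟩ := hT i
    exact ⟨sb σ * χ, by rw [abs_mul, sb_abs, h1, one_mul], fun U => by
      rw [mul_assoc, ← h2]
      exact s _ hσ _⟩

namespace Gl.Ok

variable {G : Gl} {b x y c : ℝ} {J i : ℕ} {d : Lx × Ac} {f' : Conf → ℂ} (h : G.Ok) (A : G.Tu b J)
  (hp : G.Pu)
include h A hp

theorem tu_e1 {k : ℕ} (hk : k ≤ J) : |(qc ((G.tu b J k).1 0) e1 e1).re - 1| ≤ 10⁻¹ := by
  obtain ⟨a1, a2⟩ := (h.tan_main hp A hk).2 _ le_rfl (pow_le_pow_right₀ (h.Q1 k) (by norm_num))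
  have a3 := (Complex.abs_re_le_norm _).trans (a2 _ _ _ _ cv_e1 cv_e1)
  have a4 := h.ep_le k (i := 4) (by norm_num)
  rw [Complex.sub_re, Complex.ofReal_re, m0_e1] at a3
  rw [ep, ← mul_assoc (G.Q k ^ 4), ← pow_add, show 4 + 501 = 505 from rfl] at a4
  rw [abs_le] at *
  constructor <;> linarith [h.inv_c k (j := 60) (by norm_num)]

theorem df_rs : |G.rs b J 0 ((0, 1), (0, 1)) (G.df b J 0) - 1| ≤ 2⁻¹ := by
  have a1 := abs_le.1 ((h.tw_fd A (Nat.zero_le _)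
    (h.tw_of (h.tan_main hp A (Nat.zero_le _)).1)).1 ((0, 1), (0, 1)))
  have a2 := abs_le.1 (h.tu_e1 A hp (Nat.zero_le _))
  rw [e1] at a2
  exact abs_le.2 ⟨by linarith [h.inv_c 0 (j := 250) (by norm_num)],
    by linarith [h.inv_c 0 (j := 250) (by norm_num)]⟩

/-- a scalar direction with a given marginal part -/
theorem sca_of (hi : i ≤ J) (a : G.Tx b J i x y d f') (mf : BC f') (s : Sgn (G.N i) T1 f')
    (y0 : 0 < y) (hc : G.rs b J 0 ((0, 1), (0, 1)) (G.tt f' i 0) =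
      c * G.rs b J 0 ((0, 1), (0, 1)) (G.df b J 0)) : |c| ≤ 2 * x + y ∧ ∀ m ≤ i,
    G.Tx b J m (G.cP m i * (20 * x + 11 * y)) (G.cP m i * (20 * x + 11 * y))
      (G.tc b J i (d - (c : ℂ) • G.tu b J i) m) (G.tt (fun U => f' U - c * G.df b J i U) i m) := by
  have tu := h.tw_of (h.tan_main hp A hi).1
  have a' := h.tn_sub (α := c) a tu (h.om0 _).le (h.f_ne A i 1)
  have K := fun m hm => h.kill A hp (m := m) det1 hi (Nat.zero_le _) a' (by positivity)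
    (mf.1.sub ((df_bc hi).1.const_mul _)) (s.sub (sym_sgn (h.df_sym hi) (by decide)) c) le_rfl
    (fun e he => by
      rw [List.mem_singleton.1 he, tt_sub mf (df_bc hi) _ (Nat.zero_le _), df,
        tt_tt hi _ (Nat.zero_le _), ← df, rs, lg_sub]
      simp only [rs, rsp] at hc ⊢
      rw [abs_nonpos_iff, ← sub_eq_zero.2 hc]
      ring) (Nat.zero_le _) hm
  have c1 : |c| ≤ 2 * x + y := by
    have k1 := ((K i le_rfl).sz.1 0).1.cb _ _ _ _ cv_e1 cv_e1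
    have k2 := (a.sz.1 0).1.cb _ _ _ _ cv_e1 cv_e1
    have k3 := (PM.sub (h.rh0 i) a.sz.1 (sz_smul (h.rh0 i) tu.sz c).1).2 0 e1 e1
    have k4 := ((tu.sz.1 0).1.smul (h.rh0 i) c).2 (cc e1) (cc e1)
    have k5 := mul_le_mul_of_nonneg_left (show 0.9 ≤ ‖qc ((G.tu b J i).1 0) e1 e1‖ by
      linarith [(abs_le.1 (h.tu_e1 A hp hi)).1, Complex.re_le_norm (qc ((G.tu b J i).1 0) e1 e1)])
      (abs_nonneg c)
    rw [tc_top, cP_top] at k1
    erw [k3] at k1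
    rw [show qc (((c : ℂ) • (G.tu b J i).1) 0) e1 e1 = c * qc ((G.tu b J i).1 0) e1 e1 from k4] at k1
    have k6 := norm_sub_norm_le (c * qc ((G.tu b J i).1 0) e1 e1) (qc (d.1 0) e1 e1)
    rw [norm_sub_rev, norm_mul, Complex.norm_real, norm_eq_abs] at k6
    linarith [(h.tn_nn a).1]
  refine ⟨c1, fun m hm => ?_⟩
  have := mul_le_mul_of_nonneg_left (show y + |c| * 10 ≤ 20 * x + 11 * y by linarith) (h.cP0 m i).le
  have p : 0 < G.cP m i * (y + |c| * 10) := mul_pos (h.cP0 m i) (by positivity)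
  exact h.tn_mono (K m hm) (h.om0 _).le (by linarith) (by linarith)

end Gl.Ok

end Pool.Agent.Lib.MP_7f377f_mp.RG.Q4.En

namespace Pool.Agent.Lib.MP_7f377f_mp.RG.Q4.En.Gl.Ok

open Finset Real Sg Br YM7 Ob Pos Ty
open Weak (Site corner)

variable {G : Gl} {b a C N μ ν x y : ℝ} {J k l n' c : ℕ} [NeZero (G.N J)] [NeZero n'] {P : Grd}
  {κ : Type} [Fintype κ] [DecidableEq κ] [Inhabited κ] {B O O' : Cfg (G.N J) → ℝ} {T : Ty}
  {E : List (Pl × Pl)} (h : G.Ok)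
include h

theorem ms_lin (hO : Continuous O) (hO' : Continuous O') (e : Pl × Pl) :
    G.ms b J e (fun U => x * O U + y * O' U) = x * G.ms b J e O + y * G.ms b J e O' := by
  have e1 : (fun U => (wil b (G.N J) U : ℂ) * (x * O (Fi.rs _ U) + y * O' (Fi.rs _ U) : ℝ)) =
      fun U => (x : ℂ) * (wil b (G.N J) U * O (Fi.rs _ U)) +
        (y : ℂ) * (wil b (G.N J) U * O' (Fi.rs _ U)) := funext fun U => by push_cast; ring
  rw [ms, e1, tt_add ((bc_ob hO).cm _) ((bc_ob hO').cm _) (Nat.zero_le _),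
    tt_mul _ _ (Nat.zero_le _), tt_mul _ _ (Nat.zero_le _)]
  simp only [ms, rs, rsp, lg, add_div, mul_div_assoc, Complex.add_re, Complex.re_ofReal_mul]
  ring

/-- the field is minus the derivative with respect to the coupling -/
theorem ms_fld (e : Pl × Pl) : G.ms b J e (gfield (sy 1)) = -G.rs b J 0 e (G.df b J 0) := by
  have o := h.N_odd
  rw [ms, rs, rsp_congr (o 0).pos.ne' _ _ _ (g' := fun U => ((-1 : ℝ) : ℂ) * G.df b J 0 U)
    fun W hW => ?_]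
  · simp only [rs, rsp, lg, mul_div_assoc, Complex.re_ofReal_mul]
    ring
  · rw [df, ← congrFun (tt_mul _ _ (Nat.zero_le _)) W]
    refine h.tt_congr (fun U hU => ?_) (Nat.zero_le _) W hW
    rw [sO_one, wact_rs (o J) hU]
    push_cast
    ring

omit h in
theorem ds_fld (hν : |ν| ≤ 1) : G.Ds b J k l n' P κ a c C (fun _ => 0) ν := fun _ =>
  ⟨Empty, inferInstance, ⟨Empty.elim, Empty.elim, Empty.elim⟩, 0,
    ⟨fun x => x.elim, fun x => x.elim, fun x => x.elim, fun x => x.elim⟩, .inr (.inr ⟨rfl, hν⟩),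
    fun _ => (zero_mul _).symm⟩

omit h in
theorem ds_gen (H : ∀ L : List (Fin 4), G.Rw b J k P κ a c C (fun U => B (L.foldr Weak.refl U)) N)
    (hμ : |μ| * 1.01 ^ (k - l) * N * G.Q k ^ 7 ≤ 1) :
    G.Ds b J k l n' P κ a c C (fun U => μ * B U) 0 := fun L =>
  let ⟨α, i, Λ, W, hN, e⟩ := H L
  ⟨α, i, Λ, μ, W, .inr (.inl ⟨N, hN, rfl, hμ⟩), fun U => congrArg _ (e U).symm⟩

variable (t : G.Tu b J) (hp : G.Pu)
include t hp

theorem ms_ne (J0 : 0 < J) : G.ms b J ((0, 1), (0, 1)) (gfield (sy 1)) ≠ 0 := by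
  have _ := J0
  rw [h.ms_fld]
  linarith [(abs_le.1 (h.df_rs t hp)).1, (abs_le.1 (h.df_rs t hp)).2]

variable (K : G.Gk J k n' P κ a c C) (H : G.Rw b J k P κ a c C B N)
include K H

omit t hp H in
theorem sgn_smr (hB : Continuous B) (s : ∀ g ∈ T, ∀ U, B (Ob.cg g.1 U) = sb g.2 * B U) :
    BC (G.tt (fun U => wil b (G.N J) U * smr n' P.s B 1 (Fi.rs (G.N J) U)) J k) ∧
      Sgn (G.N k) T (G.tt (fun U => wil b (G.N J) U * smr n' P.s B 1 (Fi.rs (G.N J) U)) J k) :=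
  have c : Continuous (smr n' P.s B 1) :=
    continuous_finsetSum _ fun _ _ => (hB.comp (Weak.continuous_shift _)).const_mul _
  ⟨tt_bc (bc_ob c) K.lt.le, h.sgn_tt (bc_ob c).1
    (sgn_ob (h.N_odd J) fun g hg => smr_cg K.hn g.1 (s g hg)) K.lt.le⟩

/-- typed words without marginal part -/
theorem ds_kill (hD : Det T E) (hT : ∀ i, ∃ χ, (.inr i, χ) ∈ T)
    (s : ∀ g ∈ T, ∀ U, B (Ob.cg g.1 U) = sb g.2 * B U)
    (z : ∀ e ∈ E, G.ms b J e (smr n' P.s B 1) = 0)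
    (hμ : |μ| * G.cP (l + 1) k * N * G.Q k ^ 7 ≤ 1) :
    G.Ds b J k l n' P κ a c C (fun U => μ * B U) 0 := fun L => by
  obtain ⟨χ, c1, c2⟩ := sgn_list hT s L
  obtain ⟨α, i, Λ, W, hN, e⟩ := H
  obtain rfl : Λ.ob (Fi.tr haar) b = B := funext e
  have : (Fi.tr haar).IsHaarMeasure := (inferInstance : haar.IsHaarMeasure)
  obtain ⟨m1, m2⟩ := h.sgn_smr (b := b) K (cont_wob Λ) s
  refine ⟨α, i, Λ, μ * χ, W, .inl ⟨N, 0, hN, abs_zero.trans_le hN.1.le, (mul_zero _).symm,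
    by rwa [abs_mul, c1, mul_one], fun m hm => ?_⟩, fun U => by rw [mul_assoc, ← c2]⟩
  rw [Complex.ofReal_zero, zero_smul, sub_zero]
  refine (h.tn_mono (h.kill t hp hD K.lt.le (Nat.zero_le _) (h.tx_g t hp K W hN) hN.1 m1.1 m2
    le_rfl (fun e he => ?_) (Nat.zero_le _) hm) (h.om0 _).le ?_ (by simp)).sz
  · rw [tt_tt K.lt.le _ (Nat.zero_le _)]
    exact (congrArg abs (z e he)).trans_le abs_zero.le
  · linarith [mul_pos (h.cP0 m k) hN.1]

/-- scalar words -/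
theorem ds_sca (s : ∀ g ∈ T1, ∀ U, B (Ob.cg g.1 U) = sb g.2 * B U)
    (z : G.ms b J ((0, 1), (0, 1)) (smr n' P.s B 1) +
      ν * G.ms b J ((0, 1), (0, 1)) (gfield (sy 1)) = 0) : |ν| ≤ 3 * N ∧
    (|μ| * G.cP (l + 1) k * (31 * N) * G.Q k ^ 7 ≤ 1 →
      G.Ds b J k l n' P κ a c C (fun U => μ * B U) (μ * ν)) := by
  obtain ⟨α, i, Λ, W, hN, e⟩ := H
  obtain rfl : Λ.ob (Fi.tr haar) b = B := funext e
  have : (Fi.tr haar).IsHaarMeasure := (inferInstance : haar.IsHaarMeasure)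
  obtain ⟨m1, m2⟩ := h.sgn_smr (b := b) K (cont_wob Λ) s
  obtain ⟨c1, c2⟩ := h.sca_of t hp (c := ν) K.lt.le (h.tx_g t hp K W hN) m1 m2 hN.1 (by
    rw [tt_tt K.lt.le _ (Nat.zero_le _)]
    rw [h.ms_fld, mul_neg, ← sub_eq_add_neg, sub_eq_zero] at z
    exact z)
  have N0 := hN.1
  refine ⟨by linarith, fun hμ L => ⟨α, i, Λ, μ, W, .inl ⟨31 * N, ν, ⟨by linarith, hN.2.trans
    (mul_le_mul_of_nonneg_right (by linarith) (pow_pos (div_pos (h.b0 _) (pow_pos (h.Q0 _) _)) _).le)⟩, by linarith, rfl, hμ,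
    fun m hm => ?_⟩, fun U => congrArg _ ?_⟩⟩
  · rw [show 31 * N = 20 * N + 11 * N by ring]
    exact (c2 m hm).sz
  · induction L with
    | nil => rfl
    | cons j L ih =>
      refine (s (.inr j, false) (by fin_cases j <;> simp [T1, Ty.rf]) _).trans ?_
      rw [ih]
      simp [sb]

end Pool.Agent.Lib.MP_7f377f_mp.RG.Q4.En.Gl.Ok
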