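import Pool.Agent.Lib.MP_7f377f_mp.G.NsC
import Pool.Agent.Lib.MP_7f377f_mp.G.TyQ
import Pool.Agent.Lib.MP_7f377f_mp.G.S23F1

/-! Words of two overlapping letters: definitions. -/

noncomputable section

open Pool.Agent.Lib.MP_7f377f_mp.Jet

set_option linter.unusedSectionVars false
variable [Pool.Agent.Lib.MP_7f377f_mp.GD]

namespace Pool.Agent.Lib.MP_7f377f_mp.RG.Q4.En

open Finset Real Sg Pos Br YM7 Ob
open Weak (Site corner)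
open scoped Classical

/-- a shift of the free energy -/
def Fy.sh {ι : Type} (Y : Fy ι) (e : (ι → ℂ) → ℂ) : Fy ι := ⟨Y.ψ, Y.K, fun s => Y.E s - e s, Y.Z⟩

namespace Gl

variable (G : Gl) (b : ℝ) (J k l : ℕ)

/-- the numbers for slowly varying sources -/
structure Nov (σ a τ : ℝ) : Prop where
  s0 : 0 < σ
  sb : ∀ j, l ≤ j → j ≤ J → G.Q j ^ 240 * σ ≤ G.bb j
  a0 : 0 < a
  a4 : G.rt J l * a ≤ 4
  t0 : 0 ≤ τ
  t1 : 1.01 ^ (J - l) * (10 ^ 37 * τ) ≤ 1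

/-- the flow of families with at most two overlapping sources in each class -/
def Uo : Prop := ∀ (ι κ : Type) [DecidableEq ι] [DecidableEq κ] (A : Finset ι) (cl : ι → κ)
  (F : ι → Sr) (W : ι → Finset St) (r : ι → ℝ) (σ a τ : ℝ), G.Nov J l σ a τ → (∀ x, 0 < r x) →
  (∀ x ∈ A, ∃ g, G.Pf J a τ (((r x / σ : ℝ) : ℂ) • F x) g) →
  (∀ x y, rc (G.N J) y ∉ W x → F x y = 0) →
  (∀ j, l ≤ j → j ≤ J → Cls (G.N j) (6 * (G.p j).D) A cl fun x => G.zs (W x) J j) →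
  (∀ y, (A.filter (cl · = y)).card ≤ 2) → ∀ j, l ≤ j → j ≤ J →
    G.Fd j (G.zz b J j) A r r (G.Q j ^ 329)⁻¹ (G.fm A F W b J j) (G.fr A F b J j) ∧
      ∀ s ∈ Pd r, PU (G.p j) (G.Q j ^ 211)⁻¹ ((G.fm A F W b J j).ψ s)

/-- the free energy of second order of two sources -/
def eh (F : Fin 2 → Sr) : ℂ := jd univ (G.fm univ F (fun _ => ∅) b J (k + 1)).E

/-- the insertion of the product of two overlapping sources -/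
def cSo (F : Fin 2 → Sr) (a : Fin 2 → ℂ) (Z0 X0 : Finset St) : Ac :=
  G.cIn b J ((G.ft univ F (fun _ => ∅) b J).sh fun s => G.eh b J k F * (s 0 * s 1)) J k a Z0 X0

section
variable {γ Ω : Type} [Fintype γ] [DecidableEq γ] [DecidableEq Ω]

/-- the insertion of a word -/
def wO (S : Ws γ Ω (Fin 2)) (ω : Ω) : Ac := G.cSo b J k (S.F ω) (S.a ω) (S.Z0 ω) (S.X0 ω)

/-- as `Mw`, but the two letters of a word may overlap -/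
structure Mov (S : Ws γ Ω (Fin 2)) (c : ℕ) (C σ : ℝ) (ρ : γ → ℝ) (σ' a τ : ℝ) : Prop where
  lt : k < J
  card : 2 ≤ c
  C0 : 0 ≤ C
  big : 400 * 2 ^ c ≤ G.Q k
  pos : 0 < σ ∧ ∀ q, 0 < ρ q
  wd : ∀ ω ∈ S.Om, (S.X0 ω).Nonempty ∧ S.Z0 ω ⊆ S.X0 ω ∧
    tb (G.N k) ((G.p k).R + 3) (S.Z0 ω) ⊆ S.X0 ω ∧ S.X0 ω ⊆ G.zs (S.W (S.cl ω)) J k ∧
    tau (G.N k) (G.p k).D (S.X0 ω) ≤ c
  lF : ∀ ω l x, rc (G.N J) x ∉ S.V ω l → S.F ω l x = 0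
  lP : ∀ q x, rc (G.N J) x ∉ S.W q → S.P q x = 0
  lt' : ∀ ω ∈ S.Om, ∀ l, S.V ω l ⊆ S.W (S.cl ω) ∧ G.zs (S.V ω l) J k ⊆ S.Z0 ω ∧
    (∃ g, G.Pf J a τ (((σ / σ' : ℝ) : ℂ) • S.F ω l) g) ∧
    σ * ‖G.ej b J (k + 1) (S.F ω l) - S.a ω l‖ ≤ C
  sl : ∀ q, ∃ g, G.Pf J a τ (((ρ q / σ' : ℝ) : ℂ) • S.P q) g
  cel : ∀ j, k ≤ j → j ≤ J →
    Cls (G.N j) ((2 * c + 5) * (G.p j).D) univ id fun q => G.zs (S.W q) J j
  nm : G.Nov J k σ' a τ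
  uo : G.Uo b J k

end

variable [NeZero (G.N J)] (n' : ℕ) [NeZero n'] (P : Grd) {α : Type} [Fintype α]

/-- admissible letters -/
structure Wv (a C : ℝ) (Λ : Lwd (G.N J) α (Fin 2)) : Prop where
  lp : ∀ x i, Lqq a (Λ.g x i)
  sup : ∀ x i y, Λ.g x i y ≠ 0 → ∀ l, (y l).valMinAbs.natAbs ≤ P.R
  cen : ∀ x i v, G.sg (k + 1) * ‖G.ej b J (k + 1) (symF (ltv (Λ.g x i) v)) -
    (YM7.ex (Fi.tr haar) b (G.N J) (gfield (sy (Λ.g x i))) - Λ.τ x i : ℝ)‖ ≤ C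

/-- the insertion of the words with the profile `φ` -/
def Kov (Λ : Lwd (G.N J) α (Fin 2)) (φ : Site 4 (G.N J) → ℝ) : Ac :=
  ∑ ω : Site 4 n' × α, ((φ (corner P.s ω.1) * Λ.w ω.2 : ℝ) : ℂ) • G.wO b J k (G.gwT b J k n' P Λ) ω

/-- the class of the words -/
def Rv (a : ℝ) (c : ℕ) (C : ℝ) : Wc (G.N J) := fun B I N =>
  ∃ (α : Type) (_ : Fintype α) (Λ : Lwd (G.N J) α (Fin 2)), G.Wv b J k P a C Λ ∧
    G.Nw J k P c C Λ N ∧ B = Λ.ob (Fi.tr haar) b ∧ I = G.Kov b J k n' P Λ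

/-- the geometry of the grid and of the words -/
structure Gv (ρ : ℕ) (a : ℝ) (c : ℕ) (C : ℝ) : Prop where
  gk : G.Gk J k n' P (Fin 2) a c C
  a1 : G.rt J k * a ≤ 1
  a2 : 1.01 ^ (J - k) * (10 ^ 37 * (2 * a)) ≤ 1
  rad : G.rt J k * (P.j * (G.p k).D + 1) + P.R + 1 ≤ ρ
  big : 2 * c + 3 ≤ G.L k
  uo : G.Uo b J k

/-- two kinds of slots: words without their marginal part, fields -/
def Dx (K : Ac) (N μ ν : ℝ) : Prop :=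
  (∃ N' c', N ≤ N' ∧ |c'| ≤ N' ∧ ν = μ * c' ∧ |μ| * G.cP (l + 1) k * N' * G.Q k ^ 7 ≤ 1 ∧
    ∀ m ≤ k, G.Sz m (G.cP m k * N') (G.cP m k * N') (G.Q m ^ 280)⁻¹
      (G.tc b J k ((0, K) - (c' : ℂ) • G.tu b J k) m).1
      (G.tc b J k ((0, K) - (c' : ℂ) • G.tu b J k) m).2) ∨ (μ = 0 ∧ |ν| ≤ 1)

/-- admissible slots, together with their mirror images -/
def Dy (R : Wc (G.N J)) (B : Cfg (G.N J) → ℝ) (ν : ℝ) : Prop := ∀ L : List (Fin 4),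
  ∃ B₀ I N μ, R B₀ I N ∧ G.Dx b J k l (I 1) N μ ν ∧ ∀ U, B (L.foldr Weak.refl U) = μ * B₀ U

end Gl

end Pool.Agent.Lib.MP_7f377f_mp.RG.Q4.En
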