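import Pool.Agent.Lib.MP_7f377f_mp.G.CaX2a

/-! Merging of overlapping letters. -/

noncomputable section

open Pool.Agent.Lib.MP_7f377f_mp.Jet

set_option linter.unusedSectionVars false
variable [Pool.Agent.Lib.MP_7f377f_mp.GD]

namespace Pool.Agent.Lib.MP_7f377f_mp.RG.Q4.En

open Finset Function Sg Real Pos Mg
open scoped Classical

attribute [local irreducible] box lbox tb tau rc

variable {ι κ Ω α : Type} [DecidableEq ι] [DecidableEq κ] [DecidableEq Ω]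

namespace Gl

variable (G : Gl) (D : Wd St ι Ω) (b : ℝ) (J : ℕ) (Y : Fy ι) (i k : ℕ) (a : ι → ℂ)

/-- as `Mh`, but the letters of a word may overlap: the flow of the subfamilies is a hypothesis -/
structure Mo (c : ℕ) (C : ℝ) (r : ι → ℝ) (f : (ι → ℂ) → Conf → ℂ) (W Zc : ι → Finset St) :
    Prop where
  lt : k < i
  le : i ≤ J
  c1 : 1 ≤ c
  C0 : 0 ≤ C
  geo : D.Ok (box (G.N k / 2))
  wd : ∀ ω ∈ D.Om, tb (G.N k) ((G.p k).R + 3) (D.Z0 ω) ⊆ D.X0 ω ∧ D.X0 ω ⊆ Zc (D.cl ω) ∧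
    (D.A ω).card ≤ c ∧ tau (G.N k) (G.p k).D (D.X0 ω) ≤ c
  zA : ∀ ω ∈ D.Om, ∀ x ∈ D.A ω, G.zs (Y.Z x) i k ⊆ D.Z0 ω ∧ Y.Z x ⊆ W (D.cl ω)
  et : ∀ ω ∈ D.Om, ∀ s ∈ Pd r, ‖(G.fw D.al b J Y i (k + 1)).E (cutS (D.A ω) s) -
    (G.fw D.al b J Y i (k + 1)).E 0 - ∑ x ∈ D.A ω, s x * a x‖ ≤ c * C
  zB : ∀ x ∈ D.B, Y.Z x ⊆ W x ∧ G.zs (W x) i k ⊆ Zc x
  cel : ∀ j, k < j → j < i →
    Cls (G.N j) ((2 * c + 2) * (G.p j).D) D.B id fun x => G.zs (W x) i j
  las : 400 * 2 ^ c ≤ G.Q k ∧ Cls (G.N k) ((2 * c + 5) * (G.p k).D) D.B id Zc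
  fl : ∀ N, D.Tr N → ∀ j, k ≤ j → j ≤ i → G.Fd j (G.zz b J j) (D.ad N) r r (G.Q j ^ 329)⁻¹
    (G.fw (D.ad N) b J (Y.cut (D.ad N)) i j) (fun s => G.tt (f (cutS (D.ad N) s)) i j) ∧
      ∀ s ∈ Pd r, PU (G.p j) (G.Q j ^ 211)⁻¹ ((G.fw (D.ad N) b J (Y.cut (D.ad N)) i j).ψ s)
  ec : ∀ N, D.Tr N → Y.Ec (D.ad N) D.ce
  bs : Y.bs = (G.zz b J i).d
  um : Um D (G.p i) 0 (G.N i) r (G.Q i ^ 329)⁻¹ Y.K
  loc : Loc (G.N i) Y.Z Y.ψ Y.K

variable {G D b J Y i k a} {c j l : ℕ} {C Wt θ : ℝ} {r r2 σ : ι → ℝ}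
  {f f' : (ι → ℂ) → Conf → ℂ} {W Zc : ι → Finset St} {N : Finset Ω} {A T : Finset ι} {s : ι → ℂ}
  {w : Ω → ℂ} {ω : Ω} {z : En.Z}

namespace Mo

variable (M : G.Mo D b J Y i k a c C r f W Zc)
include M

theorem card (ω) (h : ω ∈ D.Om) : (D.A ω).card ≤ c := (M.wd ω h).2.2.1

theorem zW (x) (hx : x ∈ D.al) : Y.Z x ⊆ W (D.ce x) := by
  rcases mem_union.1 hx with h | h
  · obtain ⟨ω, h, e⟩ := mem_biUnion.1 h
    exact ce_A M.geo h e ▸ (M.zA ω h x e).2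
  · rw [ce_B M.geo h]; exact (M.zB x h).1

theorem zC (x) (hx : x ∈ D.al) : G.zs (Y.Z x) i k ⊆ Zc (D.ce x) :=
  (zs_mono (M.zW x hx) k M.lt.le).trans (M.zB _ (ce_mem M.geo hx)).2

variable (h : G.Ok) (t : G.Tu b J) (hp : G.Pu)
include h t hp

theorem ad (hj : j < i) : G.Ad J j (G.zz b J (j + 1)) :=
  h.ad t (hj.trans_le M.le) (h.pu_all t hp j (hj.trans_le M.le))

omit t hp in
theorem cls (hN : D.Tr N) (hj : j < i) (hk : k ≤ j) : Cls (G.N j) ((2 * c + 2) * (G.p j).D)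
    (D.ad N) D.ce fun x => G.zs (Y.Z x) i j := by
  rcases hk.eq_or_lt with rfl | hk
  · exact fun x hx y hy e => (cls_ce M.geo M.zC hN.1 M.las.2 x hx y hy e).mono
      (mul_le_mul_of_nonneg_right (by linarith) (h.D_pos k).le) Subset.rfl Subset.rfl
  · exact cls_ce M.geo (fun x hx => zs_mono (M.zW x hx) j hj.le) hN.1 (M.cel j hk hj)

/-- the subfamilies -/
theorem up (hN : D.Tr N) (hj : j ≤ i) (hk : k ≤ j) : G.Fd j (G.zz b J j) (D.ad N) r r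
      (G.Q j ^ 329)⁻¹ ((G.fw D.al b J Y i j).cut (D.ad N))
      (fun s => G.tt (f (cutS (D.ad N) s)) i j) ∧ (G.fw D.al b J Y i j).bs = (G.zz b J j).d ∧
      (∀ x ∈ D.ad N, (G.fw D.al b J Y i j).jt {x} = G.tn b J (Y.jt {x}) i j) ∧
      ((G.fw D.al b J Y i j).cut (D.ad N)).Ec (D.ad N) D.ce ∧
      ∀ s ∈ Pd r, PU (G.p j) (G.Q j ^ 211)⁻¹ ((G.fw D.al b J Y i j).ψ (cutS (D.ad N) s)) := by
  have F := fun j a a' => fw_cut (G := G) (b := b) (J := J) (Y := Y) (ad_sub hN.1) j a' ▸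
    M.fl N hN j a a'
  have u : ∀ j ≤ i, k ≤ j → (G.fw D.al b J Y i j).bs = (G.zz b J j).d ∧
      (∀ x ∈ D.ad N, (G.fw D.al b J Y i j).jt {x} = G.tn b J (Y.jt {x}) i j) :=
    dw_ind (fun _ => by simp only [fw_top, tn_top, implies_true, M.bs, and_self])
      fun j hj ih a => by
      obtain ⟨a1, a2⟩ := ih (by omega)
      have ad := M.ad h t hp hj
      refine ⟨by rw [fw_step hj, fs_bs, a1, zz_step b ad.lt]; rfl, fun x hx => ?_⟩
      have e := singleton_subset_iff.2 hx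
      rw [← cut_jt e, fw_step hj, ← fs_cut (ad_sub hN.1), h.fs_jt ad.tz (F _ (by omega) hj).1.fi hx,
        cut_bs, cut_jt e, a1, a2 x hx, tn_step hj]
      rfl
  refine ⟨(F j hk hj).1, (u j hj hk).1, (u j hj hk).2, ?_, (F j hk hj).2⟩
  rw [← fw_cut (ad_sub hN.1) j hj]
  exact h.fw_ec (j := k) (r := fun _ => r) (d := fun j => (2 * c + 2) * (G.p j).D)
    (fun j a a' => ⟨(M.ad h t hp a').pu, (M.fl N hN _ (by omega) a').1, by
      have := h.D_pos j; positivity, by rw [fw_Z j a'.le]; exact M.cls h hN a' a⟩)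
    (ec_cut (M.ec N hN)) j hj hk

theorem um_step {ρ d : ℝ} {μ : ℕ} {V : ι → Finset St} (hj : j < i) (hk : k ≤ j)
    (u : Um D (G.p (j + 1)) 0 (G.N (j + 1)) r (G.Q (j + 1) ^ 329)⁻¹
      (G.fw D.al b J Y i (j + 1)).K) (hV : ∀ x ∈ D.al, G.zs (Y.Z x) i j ⊆ V (D.ce x))
    (cl : Cls (G.N j) d D.B id V) (hm : (μ + 2 : ℝ) * (G.p j).D ≤ d) (ρ0 : 0 ≤ ρ) (hρ : 2 * c * ρ ≤ μ)
    (hQ : 400 * (1 + ρ) ^ c ≤ G.Q j) (hr : ∀ x, 0 < σ x) (e : ∀ x, σ x ≤ ρ * r x) :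
    Um D (G.p j) (1 / 2) (G.N j) σ ((G.Q j ^ 329)⁻¹ / 20) (G.fw D.al b J Y i j).K := by
  obtain ⟨k0, k1, k2⟩ := u
  have B := h.bl_big j (G.zz b J (j + 1))
  have T := h.th_big j (G.zz b J (j + 1))
  have st := h.st2 (M.ad h t hp hj).tz
  have q := h.Q0 j
  rw [ad_zero, ← h.sd_nf j (G.zz b J (j + 1))] at k1
  obtain ⟨k', a1, a2⟩ := st.K _ _ k0 B.b_le B.θ_le (by positivity) (k1.mono T.1)
  have l := fw_loc (A := D.al) (b := b) (J := J) h M.loc (j + 1) hj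
  rw [← h.sd_nf j (G.zz b J (j + 1))] at l
  rw [fw_step hj]
  refine (um_trK M.geo (fun x hx => ?_) M.card M.c1 (h.ps0 j).D a1 (fun N hN => ?_)
    (l.step (h.sd_all j _).nu) cl hm ρ0 hρ hr e).mono le_rfl ((T.2 _ (by positivity)).trans ?_)
  · rw [fw_Z _ hj, ← zs_step hj]
    exact hV x hx
  · obtain ⟨F, -, -, -, S⟩ := M.up h t hp hN hj (hk.trans j.le_succ)
    exact fa_KK st F.fi.pos (F.fi.sl _) (F.fi.sa _) (fun s hs => ⟨B.b_le, B.θ_le,
      h.pu_big (S s hs), by rw [h.sd_nf]; exact k2 N hN s hs, k1.mono T.1⟩) a2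
  · rw [div_eq_inv_mul _ 20]
    exact mul_le_mul_of_nonneg_right ((div_le_iff₀ q).2 (by linarith)) (by positivity)

theorem pos (x : ι) : 0 < r x := (M.fl ∅ tr_empty k le_rfl M.lt.le).1.fi.pos x

theorem um_up : ∀ j ≤ i, k < j →
    Um D (G.p j) 0 (G.N j) r (G.Q j ^ 329)⁻¹ (G.fw D.al b J Y i j).K :=
  dw_ind (fun _ => by simpa only [fw_top] using M.um) fun j hj ih hk =>
    (M.um_step h t hp (μ := 2 * c) hj hk.le (ih (by omega)) (fun x hx =>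
      zs_mono (M.zW x hx) j hj.le) (M.cel j hk hj) (by push_cast; rfl) zero_le_one
      (by push_cast; linarith) (one_add_one_eq_two (R := ℝ) ▸ M.las.1.trans (h.Q_mono hk.le))
      (M.pos h t hp) fun x => (one_mul _).ge).mono (by norm_num) (div_le_self
        (inv_pos.2 (pow_pos (h.Q0 j) _)).le (by norm_num))

/-- the subfamilies at the level of the merging -/
theorem low (hN : D.Tr N) : G.Fd k (G.zz b J k) (D.ad N) r r
      (G.Q k ^ 329)⁻¹ ((G.fw D.al b J Y i k).cut (D.ad N))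
      (fun s => G.tt (f (cutS (D.ad N) s)) i k) ∧ (G.fw D.al b J Y i k).bs = (G.zz b J k).d ∧
      (∀ x ∈ D.ad N, (G.fw D.al b J Y i k).jt {x} = G.tn b J (Y.jt {x}) i k) ∧
      ((G.fw D.al b J Y i k).cut (D.ad N)).Ec (D.ad N) D.ce ∧ ∀ s ∈ Pd r,
        PU (G.p k) (G.Q k ^ 210)⁻¹ ((G.fw D.al b J Y i k).ψ (cutS (D.ad N) s)) := by
  obtain ⟨a1, a2, a3, a4, a5⟩ := M.up h t hp hN M.lt.le le_rfl
  exact ⟨a1, a2, a3, a4, fun s hs => pu_mono (a5 s hs) (by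
    linarith [h.inv_le k (show 210 < 211 by norm_num), inv_pos.2 (pow_pos (h.Q0 k) 211)])⟩

theorem ent_cut (hN : D.Tr N) (s : ι → ℂ) : ent D.al (G.fw D.al b J Y i k).ψ (cutS (D.ad N) s) =
    (G.fw D.al b J Y i k).ψ (cutS (D.ad N) s) :=
  (ma_cut _ (ad_sub hN.1)).trans ((congrFun (ma_congr fun _ hT => (jL_cut hT).symm) s).trans
    (congrFun (M.low h t hp hN).1.fi.psi s).symm)

omit t hp in
theorem z0_le (hω : ω ∈ D.Om) : ((D.Z0 ω).card : ℝ) ≤ G.Q k ^ 2 := by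
  have g := M.geo.sub ω hω
  have a := (card_le_card g.1).trans ((card_le_tau (h.ps0 k).D fun x hx =>
    rc_eq (h.N_odd k) (g.2.2 hx)).trans (Nat.mul_le_mul_right _ (M.wd ω hω).2.2.2))
  have c2 : (c : ℝ) ≤ 2 ^ c := by exact_mod_cast c.lt_two_pow_self.le
  calc _ ≤ (c : ℝ) * (2 * (G.p k).D + 1) ^ 4 := by exact_mod_cast a
    _ ≤ G.Q k * G.Q k := mul_le_mul (by linarith [M.las.1, c.cast_nonneg (α := ℝ)]) (h.DQ k)
      (by positivity) (h.Q0 k).le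
    _ = _ := (sq _).symm

theorem eta_le (hω : ω ∈ D.Om) (hs : s ∈ Pd r) (U : Conf) :
    ‖eta D (G.fw D.al b J Y i k).E a ω s U‖ ≤ exp (c * C + 1) := by
  have hN := tr_one hω
  have sA : D.A ω ⊆ D.ad {ω} := a_sub (mem_singleton_self ω)
  obtain ⟨F, -, -, -, S⟩ := M.up h t hp hN M.lt k.le_succ
  have ad := M.ad h t hp M.lt
  have q := h.Q0 k
  have cc : cutS (D.ad {ω}) (cutS (D.A ω) s) = cutS (D.A ω) s := by rw [cut_comm, cut_cut sA]
  have l := fw_loc (A := D.al) (b := b) (J := J) h M.loc (k + 1) M.lt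
  rw [← h.sd_nf k (G.zz b J (k + 1))] at l
  obtain ⟨k0, k1, k2⟩ := F.fi.km
  rw [← h.sd_nf k (G.zz b J (k + 1))] at k1 k2
  have ey := fun s hs => ey_le ad.pu (S s hs) (k2 s hs) k1
  refine (Complex.norm_exp_le_exp_norm _).trans (exp_le_exp.2 ?_)
  rw [Mh.tr_E (M.low h t hp hN).1 sA, fw_step M.lt]
  simp only [fs]
  rw [add_sub_add_comm, add_sub_right_comm, ← sum_sub_distrib]
  refine norm_add_le_of_le (M.et ω hω s hs) ?_
  rw [← sum_subset (inter_subset_left (s₂ := D.Z0 ω)) fun y h1 h2 => sub_eq_zero.2 (ind_zero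
    (g := fun s => (G.sd k _).Ey _ _ y) fun x hx => l.ey (h.sd_all k _).nu fun e => h2 ?_)]
  swap
  · rw [fw_Z _ M.lt, ← zs_step M.lt] at e
    exact mem_inter.2 ⟨h1, (M.zA ω hω x hx).1 (rc_eq (h.N_odd k) h1 ▸ e)⟩
  refine (norm_sum_le_of_le _ (n := fun _ => 2 * (G.Q k * (G.Q (k + 1) ^ 211)⁻¹ +
    (G.Q (k + 1) ^ 329)⁻¹)) fun y _ => ?_).trans ?_
  · have a1 := ey _ (cut_mem (B := D.A ω) hs) y
    have a2 := ey 0 (zero_mem F.fi.pos) y
    simp only [Fy.cut, cc, cut_zero] at a1 a2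
    exact (norm_sub_le_norm_sub_add_norm_sub _ _ _).trans
      ((add_le_add a1 ((norm_sub_rev _ _).trans_le a2)).trans_eq (two_mul _).symm)
  · have a1 := mul_le_mul_of_nonneg_left (h.inv_up k.le_succ 211) q.le
    have a2 := (h.inv_up k.le_succ 329).trans ((inv_anti₀ (pow_pos q _) (pow_le_pow_right₀ (h.Q1 k)
      (show 211 ≤ 329 by norm_num))).trans (le_mul_of_one_le_left (by positivity) (h.Q1 k)))
    have a3 := h.inv_le k (i := 0) (j := 208) (by norm_num)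
    have q' := h.Q0 (k + 1)
    rw [sum_const, nsmul_eq_mul]
    calc _ ≤ G.Q k ^ 2 * (4 * (G.Q k * (G.Q k ^ 211)⁻¹)) := mul_le_mul ((Nat.cast_le.2
          (card_le_card inter_subset_right)).trans (M.z0_le h hω)) (by linarith) (by positivity)
          (by positivity)
      _ = 4 * (G.Q k ^ 208)⁻¹ := by field_simp
      _ ≤ 1 := by simp only [pow_zero, inv_one] at a3; linarith [inv_pos.2 (pow_pos q 208)]

theorem lc : Lc (G.N k) D (ent D.al (G.fw D.al b J Y i k).ψ) (G.fw D.al b J Y i k).K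
    (eta D (G.fw D.al b J Y i k).E a) r (G.fw D.al b J Y i k).Z Zc := by
  have p := M.pos h t hp
  have l := fw_loc (A := D.al) (b := b) (J := J) h M.loc k M.lt.le
  refine ⟨h.N_odd k, fun X c U => ?_, fun x B => ?_, fun ω U => ((((hb_ma p _).refl (A := ∅)).sub
    (eqv_const p _)).sub (Hb.refl ⟨_, sh_lin p _ a⟩)).exp.fst, ⟨fun x y hy => ?_, l.act⟩,
    fun ω h1 x h2 => ?_, fun x hx => ?_, fun ω _ x hx s t => funext fun U => ?_⟩
  · simp only [fw_step M.lt, fs, trK_eq]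
    exact hb_ma p _
  · simp only [ent, ma_apply]
    exact hb_ma p _
  · refine ind_pi.2 fun B => ?_
    simp only [ent, ma_apply]
    exact (ind_pi.1 (l.psi x y hy) B).tr _
  · rw [fw_Z _ M.lt.le]
    exact (M.zA ω h1 x h2).1
  · rw [fw_Z _ M.lt.le]
    exact (M.zC x (mem_union_right _ hx)).trans_eq (by rw [ce_B M.geo hx])
  · rw [eta, eta, Jet.tr, ma_upd hx, sum_congr rfl fun y hy => by
      rw [update_of_ne (ne_of_mem_of_not_mem hy hx)]]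

theorem hyp : ∃ kk, kN ((G.p k).ad (1 / 2)) (G.N k) kk ((G.Q k ^ 329)⁻¹ / 20) ∧
    Hyp (G.p k) (G.N k) D (ent D.al (G.fw D.al b J Y i k).ψ) (G.fw D.al b J Y i k).K
      (eta D (G.fw D.al b J Y i k).E a) r kk (G.Q k ^ 210)⁻¹ 1
      (fun _ => exp (c * C + 1)) Zc := by
  have p := M.pos h t hp
  obtain ⟨kk, k1, k2⟩ := M.um_step h t hp (μ := 2 * c + 3) M.lt le_rfl
    (M.um_up h t hp _ M.lt k.lt_add_one) M.zC M.las.2 (by push_cast; linarith) zero_le_one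
    (by push_cast; linarith) (one_add_one_eq_two (R := ℝ) ▸ M.las.1) p fun _ => (one_mul _).ge
  have F := fun N hN => M.low h t hp (N := N) hN
  refine ⟨kk, k1, (h.sl_all k (G.top0 0 0)).nu.p_ok.1, sqrt_nonneg _, M.geo,
    fun ω h => ⟨(M.wd ω h).1, (M.wd ω h).2.1⟩, k1.1, (inv_pos.2 (pow_pos (h.Q0 k) _)).le, le_rfl,
    fun _ => (exp_pos _).le, fun N a b => ⟨p, (F N ⟨a, b⟩).1.fi.sa _, k2 N ⟨a, b⟩⟩, fun N a b => ?_,
    fun N a b s hs => ?_, fun ω hω => ⟨fun _ _ => .const _, fun s hs x U =>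
      ((M.lc h t hp).eη ω U).choose_spec.hol s hs x, fun s hs U _ => ?_⟩⟩
  · simp only [M.ent_cut h t hp ⟨a, b⟩]
    exact (F N ⟨a, b⟩).1.fi.sl _
  · rw [M.ent_cut h t hp ⟨a, b⟩]
    exact (F N ⟨a, b⟩).2.2.2.2 s hs
  · rw [one_mul]
    exact ⟨M.eta_le h t hp hω hs U, fun _ => M.eta_le h t hp hω hs U⟩

omit t hp in
theorem vw_le {v : Ω → ℝ} (v0 : ∀ ω, 0 ≤ v ω) (p : ∀ x, 0 < r x) {δ : ℝ}
    (δ1 : δ ≤ 1) (hv : ∀ y, ∑ ω ∈ D.Om.filter (y ∈ D.X0 ·), v ω / ∏ x ∈ D.A ω, r x ≤ Wt)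
    (y : St) : ∑ ω ∈ D.Om.filter (y ∈ D.X0 ·), v ω * vw D r (G.Q k ^ 210)⁻¹
      (fun _ => exp (c * C + 1)) ω * exp (((G.p k).a + δ) * tau (G.N k) (G.p k).D (D.X0 ω)) ≤
      G.cM k c C * Wt := by
  have q := h.Q0 k
  refine le_trans (sum_le_sum fun ω hω => ?_) ((mul_sum _ _ _).ge.trans
    (mul_le_mul_of_nonneg_left (hv y) (mul_pos (exp_pos _) (pow_pos q _)).le))
  have hω := (mem_filter.1 hω).1
  have a1 := mul_le_mul_of_nonneg_left (M.z0_le h hω) (inv_pos.2 (pow_pos q 210)).le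
  have a2 := h.inv_le k (i := 0) (j := 208) (by norm_num)
  have a3 : (tau (G.N k) (G.p k).D (D.X0 ω) : ℝ) ≤ c := Nat.cast_le.2 (M.wd ω hω).2.2.2
  have a4 := mul_le_mul (add_le_add_right δ1 (G.p k).a) a3 (Nat.cast_nonneg _)
    (add_nonneg (h.ps0 k).a zero_le_one)
  rw [mul_comm _ (_ ^ 2), h.pw_inv k (j := 208) rfl] at a1
  rw [show (G.Q k ^ 0)⁻¹ = 1 by simp] at a2
  refine le_trans (le_of_eq (by rw [vw]; ring)) (mul_le_mul_of_nonneg_right (show exp (c * C + 1) *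
    exp (2 * (G.Q k ^ 210)⁻¹ * (D.Z0 ω).card) * exp (((G.p k).a + δ) * tau (G.N k) (G.p k).D
      (D.X0 ω)) ≤ _ from ?_) (div_nonneg (v0 ω) (prod_nonneg fun x _ => (p x).le)))
  rw [cM, ← exp_log (pow_pos q (2 * c)), log_pow, ← exp_add, ← exp_add, ← exp_add, exp_le_exp]
  change _ ≤ (2 * log (G.Q k) + 1) * c at a4
  push_cast
  nlinarith [inv_pos.2 (pow_pos q 208)]

/-- the free energy of a family of words -/
theorem en (hN : D.Tr N) (s : ι → ℂ) : (G.fw D.al b J Y i k).E (cutS (D.ad N) s) =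
    ∑ ω ∈ N, (tr (D.A ω) (G.fw D.al b J Y i k).E (cutS (D.ad N) s) - (G.fw D.al b J Y i k).E 0) +
      (G.fw D.al b J Y i k).E (cutS D.B (cutS (D.ad N) s)) := by
  obtain ⟨F, -, -, e, -⟩ := M.low h t hp hN
  have e' := fun T hT x hx y hy ne => (jd_cut hT).symm.trans (e T hT x hx y hy ne)
  have cA := fun ω (h : ω ∈ N) x => ce_A (i := x) M.geo (hN.1 h)
  have : cutS D.B (cutS (D.ad N) s) = cutS (D.B \ N.image D.cl) (cutS (D.ad N) s) := funext fun x => by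
    by_cases a : x ∈ D.B
    · by_cases a' : x ∈ N.image D.cl <;> simp [cutS, a, a', Wd.ad,
        disjoint_right.1 (a_out M.geo hN.1) a]
    · simp [cutS, a]
  rw [this, ← Mh.tr_E F subset_union_right, ← cut_cut (Subset.refl (D.ad N)), ← Mh.tr_E F Subset.rfl,
    cut_cut Subset.rfl, Jet.tr, Wd.ad, ma_union ((a_out M.geo hN.1).mono_right sdiff_subset)
      fun T hT x hx y hy a1 a2 => e' T hT x hx y hy ?_, ma_bi (fun ω a ω' a' =>
        M.geo.dis ω (hN.1 a) ω' (hN.1 a')) fun T hT x hx y hy ω a ω' a' ne a1 a2 => e' T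
          (hT.trans subset_union_left) x hx y hy ?_, jd_empty]
  · simp only [Jet.tr]
    ring
  · rw [cA ω a x a1, cA ω' a' y a2]
    exact fun e => ne (hN.2 a a' e)
  · obtain ⟨ω, a, a1⟩ := mem_biUnion.1 a1
    rw [cA ω a x a1, ce_B M.geo (mem_sdiff.1 a2).1]
    exact fun e => (mem_sdiff.1 a2).2 (e ▸ mem_image_of_mem _ a)

/-- the merging of the words -/
theorem merge (hr : ∀ x, r2 x ≤ r x) (e : Md D a w (G.N i) r2 f f')
    (hw : ∀ y, ∑ ω ∈ D.Om.filter (y ∈ D.X0 ·),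
      ‖w ω‖ * r2 (D.cl ω) / ∏ x ∈ D.A ω, r x ≤ Wt) (sm : G.Q k ^ 330 * (G.cM k c C * Wt) ≤ 1) :
    G.Fd k (G.zz b J k) D.B r2 r2 (G.Q k ^ 329)⁻¹ (G.mg D b J Y i k a w Zc)
      (fun s => G.tt (f' s) i k) ∧ (G.mg D b J Y i k a w Zc).bs = (G.zz b J k).d ∧
      (G.mg D b J Y i k a w Zc).Ec D.B id ∧ ∀ x ∈ D.B, (G.mg D b J Y i k a w Zc).jt {x} =
        G.tn b J (Y.jt {x}) i k + (0, ∑ ω ∈ D.Om.filter (D.cl · = x), w ω • G.ins D b J Y i k a ω) := by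
  have q := h.Q0 k
  have p2 := e.hd.pos
  have p := M.pos h t hp
  have L := M.lc h t hp
  obtain ⟨kk, k1, H⟩ := M.hyp h t hp
  obtain ⟨F, a1, a2, a3, -⟩ := M.low h t hp tr_empty
  have ec := M.ent_cut h t hp tr_empty
  rw [ad_empty] at F a2 a3 ec
  have q0 := inv_pos.2 (pow_pos q 330)
  have q1 := h.inv_le k (show 329 < 330 by norm_num)
  have f1 : Fi (G.p k) (G.N k) D.B Zc r2 (G.Q k ^ 329)⁻¹ (G.mg D b J Y i k a w Zc).ψ
      (G.mg D b J Y i k a w Zc).K := by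
    have := H.fi (w := w) (m := 2 * c + 3) (δ := 1 / 6) (θ' := (G.Q k ^ 330)⁻¹) L (h.ps0 k) p2 hr
      (by simp only [ec]; exact F.fi) (by norm_num) (by norm_num; simpa using k1) M.las.2
      (by push_cast; linarith) (by
        have : (1 : ℝ) ≤ c := by exact_mod_cast M.c1
        push_cast
        linarith [log_two_lt_d9, mul_one (2 : ℝ) ▸ (rfl : log 2 = log 2)])
      (fun y => (M.vw_le h (fun ω => mul_nonneg (norm_nonneg _) (p2 _).le) p (by norm_num)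
        hw y).trans (by rwa [← mul_one (_⁻¹), le_inv_mul_iff₀ (pow_pos q _)]))
      (le_trans (by
        have := exp_pos (4 * ((G.p k).a + 1 / 6))
        gcongr; norm_num) (Mh.sm_le h (by norm_num) (by linarith)))
    simp only [ec] at this
    exact this.mono p2 (fun _ => le_rfl) (by linarith) fun _ => Subset.rfl
  have hE : ∀ {r : ι → ℝ}, (∀ x, 0 < r x) → Hb r fun s => Complex.exp
      ((G.fw D.al b J Y i k).E (cutS D.B s)) := fun p =>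
    (Hb.refl (A := ∅) (show Hb _ ((G.fw D.al b J Y i k).cut D.B).E from F.ma ▸ hb_ma p _)).exp.fst
  have nu := (h.sl_all k (G.zz b J k)).nu
  have md := h.md_tt e M.lt.le fun N hN => by
    simpa only [tt_top] using (M.fl N hN i M.lt.le le_rfl).1.eq.fst
  refine ⟨⟨f1, F.ma, md.hd, ?_, fun U hU T hT => ?_⟩, Prod.ext ?_ ?_, fun T hT x hx y hy ne =>
    a3 T hT x hx y hy (by rwa [ce_B M.geo (hT hx), ce_B M.geo (hT hy)]), fun x hx => ?_⟩
  · obtain ⟨_, -, fa⟩ := f1.fa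
    have := f1.fl.add (nu.lo_Φ (h.tok_sl (t.gd k (M.lt.le.trans M.le)).tz) (pm_zero (h.ρ0 k)).lo)
    simp only [Sd.Φ, Pi.zero_apply, add_zero] at this
    exact (hE p2).hd.mul (hd_rep nu.p_ok.1 (sqrt_nonneg _) this fa)
  · have := L.rep M.geo (p := G.p k) (w := w) (U := U) (fun x B => (G.sl k (G.zz b J k)).β *
      (cx (G.sl k (G.zz b J k)).m B B + (G.sl k (G.zz b J k)).T B)) (hE p)
      (fun s => by rw [cut_cut Subset.rfl]) hT
    simp only [ec] at this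
    refine (md.eq U hU T hT).trans (.trans (sum_congr rfl fun N hN => ?_) this.symm)
    split_ifs with v
    swap
    · rfl
    have hN : D.Tr N := ⟨mem_powerset.1 hN, v.1⟩
    have F := (M.low h t hp hN).1.eq
    rw [← jd_cut (lt_sub hT), ← jd_cut (g := fun s => _ * _ * _) (lt_sub hT)]
    simp only [lin_cut (T := D.ad N) subset_union_left]
    rw [((hb_lin F.fst.pos _ a).refl.mul (F.eqv hU)).eq _ (lt_sub hT)]
    refine congrArg _ (congrArg _ (funext fun s => ?_))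
    rw [M.ent_cut h t hp hN, mul_right_comm, ← mul_assoc, ← Complex.exp_add]
    simp only [eta, ← Complex.exp_sum, ← Complex.exp_add]
    refine congrArg₂ _ (congrArg _ ?_) rfl
    rw [show (Fy.cut _ _).E s = _ from M.en h t hp hN s, sum_biUnion fun ω a ω' a' =>
      M.geo.dis ω (hN.1 a) ω' (hN.1 a'), ← sum_congr (s₁ := N) rfl fun ω h => lin_cut (a_sub h)]
    simp only [sum_sub_distrib]
    ring
  · exact (congrArg _ cut_zero).trans (congrArg Prod.fst a1)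
  · exact K2_zero.trans (congrArg Prod.snd a1)
  · rw [← a2 x hx]
    exact Prod.ext ((jL_cut (singleton_subset_iff.2 hx)).trans (add_zero _).symm) (L.jA_one M.geo hx)

/-- the majorants of the insertions -/
theorem ins_km : ∃ kI : Ω → Mj, (∀ ω ∈ D.Om, KM (G.p k) (G.N k) (kI ω) (G.ins D b J Y i k a ω)) ∧
    (∀ ω X c, 0 ≤ kI ω X c ∧ (kI ω X c ≠ 0 → D.X0 ω ⊆ X)) ∧ ∀ (v : Ω → ℝ) Wt, (∀ ω, 0 ≤ v ω) → 0 < Wt →
      (∀ y, ∑ ω ∈ D.Om.filter (y ∈ D.X0 ·), v ω / ∏ x ∈ D.A ω, r x ≤ Wt) →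
      kN ((G.p k).ad (1 / 3)) (G.N k) (fun X c => ∑ ω ∈ D.Om, v ω * kI ω X c)
        (4 * (G.cM k c C * Wt)) := by
  obtain ⟨kk, k1, H⟩ := M.hyp h t hp
  have q := h.Q0 k
  have q0 := inv_pos.2 (pow_pos q 329)
  refine ⟨_, fun ω => H.km_ins, fun ω X c => ⟨kc_nn H.kt_nn H.vw_nn,
    fun a => kc_sup a (mem_singleton_self ω)⟩, fun v Wt v0 W0 hv => ?_⟩
  have := kN_ins (δ := 1 / 6) ((h.ps0 k).ad (show (0 : ℝ) ≤ 1 / 3 by norm_num)) (h.N_odd k) M.geo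
    (by norm_num) (by rw [ad_ad]; norm_num; simpa using k1) (θ1 := (G.Q k ^ 329)⁻¹) (by linarith) q0
    (mul_pos (mul_pos (exp_pos _) (pow_pos q _)) W0) (fun ω => mul_nonneg (v0 ω) (H.vw_nn ω))
    (fun y => by
      simpa only [Pa.ad, add_assoc, cM] using M.vw_le h v0 H.pos (δ := 1 / 3 + 1 / 6) (by norm_num) hv y)
    (Mh.sm_le h (by norm_num) le_rfl)
  simpa only [one_pow, one_mul, ← kc_mul, prod_singleton, cM, add_assoc] using this

theorem merge_sl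
    (p2 : ∀ x, 0 < r2 x) (hr : ∀ x, r2 x ≤ r x) (hw : ∀ y, ∑ ω ∈ D.Om.filter (y ∈ D.X0 ·),
      ‖w ω‖ * r2 (D.cl ω) / ∏ x ∈ D.A ω, r x ≤ Wt) (sm : G.Q k ^ 330 * (G.cM k c C * Wt) ≤ 1) :
    ∃ k', kN ((G.p k).ad (1 / 4)) (G.N k) k' ((G.Q k ^ 329)⁻¹ / 3) ∧
      ∀ s ∈ Pd r2, KM (G.p k) (G.N k) k' ((G.mg D b J Y i k a w Zc).K s) := by
  have q := h.Q0 k
  obtain ⟨kk, k1, H⟩ := M.hyp h t hp
  have q0 := inv_pos.2 (pow_pos q 330)
  have q1 := h.inv_le k (show 329 < 330 by norm_num)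
  have k2 := kN_clus ((h.ps0 k).ad (show (0 : ℝ) ≤ 5 / 12 by norm_num)) (h.N_odd k) M.geo
    (δ := 1 / 12) (θ' := (G.Q k ^ 330)⁻¹) (by norm_num) (by rw [ad_ad]; norm_num; simpa using k1)
    (fun ω => mul_nonneg (mul_nonneg (norm_nonneg (w ω)) (p2 (D.cl ω)).le) (H.vw_nn ω))
    (fun y => (M.vw_le h (δ := 5 / 12 + 1 / 12) (fun ω => mul_nonneg (norm_nonneg _) (p2 _).le) H.pos
      (by norm_num) hw y).trans_eq' (by simp only [Pa.ad, add_assoc]) |>.trans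
        (by rwa [← mul_one (_⁻¹), le_inv_mul_iff₀ (pow_pos q _)]))
    (by
      have := Mh.sm_le h (k := k) (δ := 5 / 12) (by norm_num)
        (show 4 * ((G.Q k ^ 329)⁻¹ / 20 + (G.Q k ^ 330)⁻¹) ≤ _ by linarith)
      change 4 * (exp (4 * ((G.p k).a + 5 / 12)) * _) * (2 * (G.p k).D + 1) ^ 4 ≤ _
      linarith)
  have fa := H.fa_K2 (w := w) p2 hr
  simp only [one_pow, one_mul] at fa
  obtain ⟨k', a1, a2⟩ := trK_sl (δ := 1 / 4) (m := 2 * c + 3) fa ((M.lc h t hp).loc2 M.geo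
    fun ω e => (H.col ω e).2) (by norm_num; exact (kN_drop k1 (by norm_num)).add k2) (h.ps0 k).D
    M.las.2 (by push_cast; linarith) (by linarith [M.c1])
  exact ⟨k', a1.mono (by linarith), a2⟩

theorem sml (hN : D.Tr N) (hj : j < i) (hk : k ≤ j) : ∃ β θ k0 k', (∀ s ∈ Pd r,
    (G.sd j (G.zz b J (j + 1))).Sml β θ k0 ((G.fw D.al b J Y i (j + 1)).ψ (cutS (D.ad N) s))
      ((G.fw D.al b J Y i (j + 1)).K (cutS (D.ad N) s))) ∧ FA r (G.p j) (G.N j) k' fun s =>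
      (G.sd j (G.zz b J (j + 1))).KK ((G.fw D.al b J Y i (j + 1)).ψ (cutS (D.ad N) s))
        ((G.fw D.al b J Y i (j + 1)).K (cutS (D.ad N) s)) := by
  obtain ⟨F, -, -, -, S⟩ := M.up h t hp hN hj (hk.trans j.le_succ)
  have B := h.bl_big j (G.zz b J (j + 1))
  have st := h.st2 (M.ad h t hp hj).tz
  have q := h.Q0 j
  obtain ⟨k0, k1, k2⟩ := (h.fi_sd F.fi (G.zz b J (j + 1))).km
  have k3 := k1.mono (h.th_big j (G.zz b J (j + 1))).1
  obtain ⟨k', -, a2⟩ := st.K _ _ k0 B.b_le B.θ_le (by positivity) k3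
  have u := fun s hs => show (G.sd j (G.zz b J (j + 1))).Sml _ _ k0 _ _ from
    ⟨B.b_le, B.θ_le, h.pu_big (S s hs), k2 s hs, k3⟩
  exact ⟨_, _, k0, k', u, fa_KK st F.fi.pos (F.fi.sl _) (F.fi.sa _) u a2⟩

/-- the insertion of a word depends only on its letters -/
theorem ins_can [Fintype κ] [Inhabited κ] {e : κ → ι} (he : Injective e) (hω : ω ∈ D.Om)
    (hA : D.A ω = univ.image e) {Y' : Fy κ} (u : Y'.Se (Y.pull e)) :
    G.ins D b J Y i k a ω = G.cIn b J Y' i k (a ∘ e) (D.Z0 ω) (D.X0 ω) := by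
  have hN := tr_one hω
  have e0 : ∀ x, e x ∈ D.A ω := fun x => hA ▸ mem_image_of_mem _ (mem_univ x)
  have e1 : ∀ x, e x ∈ D.ad {ω} := fun x => a_sub (mem_singleton_self ω) (e0 x)
  have e2 : ∀ {s}, cutS (D.ad {ω}) (exz e s) = exz e s := exz_cut e1
  obtain ⟨a1, a2, a3⟩ := fw_pull (G := G) (b := b) (J := J) he (fun x => ad_sub hN.1 (e1 x)) u
    (fun j hk hj T X c U g hg => by
      obtain ⟨_, _, _, _, -, F⟩ := M.sml h t hp hN hj hk
      rw [← jd_cut (g := g) (image_subset_iff.2 fun x _ => e1 x), hg,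
        ← jd_exz he ⟨_, F.sh X c U⟩]
      simp only [e2]) k M.lt.le le_rfl
  obtain ⟨F, -⟩ := (M.low h t hp hN).1.pull he e1
  have g := M.geo.sub ω hω
  have al : (wd1 κ (D.Z0 ω) (D.X0 ω)).al = univ := by simp [Wd.al, wd1]
  have ad : ∀ s : κ → ℂ, cutS ((wd1 κ (D.Z0 ω) (D.X0 ω)).ad {()}) s = s := fun s =>
    funext fun x => if_pos (by simp [Wd.ad, wd1])
  funext X c U
  rw [cIn, ins, ins, al, a1, a2, a3, Ins, Ins, jA, jA, hA,
    ← jd_exz he ((M.lc h t hp).hb_KN M.geo)]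
  refine congrArg (jd univ) (funext fun s => ?_)
  simp only [KN, gA, e2, ad]
  refine gam_id hω (mem_univ ()) g.1 g.2.2 rfl rfl (fun _ _ => rfl) (fun x _ => ?_) ?_
  · have b1 := M.ent_cut h t hp hN (exz e s)
    have b2 := congrFun F.fi.psi s
    rw [e2] at b1
    simp only [Fy.pull, Fy.cut, e2] at b2
    rw [b1, exz_out fun x => disjoint_left.1 (M.geo.out ω hω) (e0 x), show cutS (wd1 κ (D.Z0 ω)
      (D.X0 ω)).B s = 0 from funext fun x => if_neg (notMem_empty x)]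
    simp only [ent, ma_zero, jL_empty, Fy.pull, exz_zero, ← b2]
  · have b2 := congrFun F.ma s
    simp only [Fy.pull, Fy.cut, e2] at b2
    rw [eta, eta, Mh.tr_E (M.low h t hp hN).1 (a_sub (mem_singleton_self ω)), exz_cut e0, hA,
      sum_image he.injOn]
    simp only [Jet.tr, wd1, Fy.pull, exz_zero, ← b2, exz_apply he, comp]

theorem rl (hN : D.Tr N) (e : (Y.cut (D.ad N)).Rl (G.p i) r) : ∀ j ≤ i, k ≤ j →
    ∀ r', ((G.fw D.al b J Y i j).cut (D.ad N)).Rl (G.p j) r' :=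
  dw_ind (fun a => (M.up h t hp hN le_rfl a).1.rl (M.pos h t hp) (by rwa [fw_top]))
    fun j hj ih hk => by
    obtain ⟨_, _, _, _, S, F⟩ := M.sml h t hp hN hj hk
    have ad := M.ad h t hp hj
    have u := fun s hs a => (h.st2 ad.tz).real _ _ _ _ _ (S s hs) (ih (by omega) _ s hs a).1
      (ih (by omega) _ s hs a).2.1
    have : ((G.fw D.al b J Y i j).cut (D.ad N)).Rl (G.p j) r := fun s hs a => by
      rw [fw_step hj]
      refine ⟨fun x B h1 h2 => Im.add ((u s hs a).1 x B h1 h2)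
        ((h.src_ps ad.tz ad.lt ad.v ad.kp).2.1 x B h1 h2), fun X c U => ?_,
        Im.add (ih (by omega) _ s hs a).2.2 (Im.sum fun y _ => (u s hs a).2.2 y)⟩
      simp only [Fy.cut, fs]
      rw [← congrFun (trK_cut (ad_sub hN.1)) s, congrFun (trK_eq X c U) s]
      exact tr_real (F.sh X c U) (fun s hs a => (u s hs a).2.1 X c U) a
    exact (M.up h t hp hN hj.le hk).1.rl F.pos this

/-- reality of the insertions -/
theorem real (e : (Y.cut (D.ad {ω})).Rl (G.p i) r) (hω : ω ∈ D.Om)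
    (ha : ∀ x ∈ D.A ω, (a x).im = 0) : RealA (G.ins D b J Y i k a ω) := fun X c U => by
  have hN := tr_one hω
  have R := M.rl h t hp hN e k M.lt.le le_rfl r
  refine jd_real ((M.lc h t hp).hb_KN M.geo).choose_spec (fun s hs b => Im.sum fun O hO => ?_) _
  have c : ∀ B x, (cutS B s x).im = 0 := fun B x => by
    unfold cutS; split_ifs; exacts [b x, rfl]
  rw [gA, gam, (mem_filter.1 hO).2, prod_singleton]
  refine Im.mul (Im.mul ?_ (Im.exp (Im.sub (Im.sub ?_ ?_)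
    (Im.sum fun x hx => Im.mul (c _ x) (ha x hx))))) (Im.prod fun x _ => ?_)
  · split_ifs
    exacts [Im.prod fun o _ => (R s hs b).2.1 _ _ _, rfl]
  · rw [Mh.tr_E (M.low h t hp hN).1 (a_sub (mem_singleton_self ω)), cut_comm]
    exact (R _ (cut_mem hs) (c _)).2.2
  · simpa only [Fy.cut, cut_zero] using (R 0 (zero_mem (M.pos h t hp)) fun _ => rfl).2.2
  · rw [cut_comm D.B, M.ent_cut h t hp hN, M.ent_cut h t hp hN]
    by_cases h1 : Fq ((G.p k).R + 1) (G.p k).ε (sh x (pc (G.N k) U))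
    · have v := h1.cv' (h.sl_all k (G.top0 0 0)).nu.p_ok.1
      rw [Ix_pos h1]
      exact Im.exp (Im.neg (Im.sub ((R s hs b).1 x _ (Bx_real x _) v)
        ((R _ (cut_mem hs) (c _)).1 x _ (Bx_real x _) v)))
    · rw [Ix_neg h1]; rfl

end Mo

end Gl

end Pool.Agent.Lib.MP_7f377f_mp.RG.Q4.En
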