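import Pool.Agent.Lib.MP_7f377f_mp.G.S23N2c

/-! Merging of words of two overlapping letters. -/

noncomputable section

open Pool.Agent.Lib.MP_7f377f_mp.Jet

set_option linter.unusedSectionVars false
variable [Pool.Agent.Lib.MP_7f377f_mp.GD]

namespace Pool.Agent.Lib.MP_7f377f_mp.RG.Q4.En

open Finset Function Sg Real Pos Mg
open scoped Classical

attribute [local irreducible] box lbox tb tau rc Gl.zs Gl.tn Gl.tt Gl.zz Gl.cIn Gl.ins Gl.eh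

variable {γ Ω : Type} [Fintype γ] [DecidableEq γ] [DecidableEq Ω]

namespace Gl

variable {G : Gl} {b : ℝ} {J k : ℕ} {S : Ws γ Ω (Fin 2)} {c : ℕ} {C σ σ' a τ Wt x y E α : ℝ}
  {ρ : γ → ℝ} {w : Ω → ℂ} {ω : Ω}

theorem prod_two (ω : Ω) (σ : ℝ) (ρ : γ → ℝ) :
    ∏ x ∈ S.x.wd.A ω, x.elim (fun _ => σ) ρ = σ ^ 2 := Mx.prod_A ω σ ρ

namespace Mov

variable (M : G.Mov b J k S c C σ ρ σ' a τ) (h : G.Ok) (t : G.Tu b J) (hp : G.Pu)
include M h t hp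

theorem merge0 {r : γ → ℝ} (r0 : ∀ q, 0 < r q ∧ r q ≤ ρ q)
    (hw : ∀ y, ∑ ω ∈ S.Om.filter (y ∈ S.X0 ·), ‖w ω‖ * r (S.cl ω) ≤ Wt)
    (sm : G.Q k ^ 330 * (G.cM k c C * Wt) ≤ σ ^ 2) : ∃ Y : Fy γ,
    G.Fd k (G.zz b J k) univ r r (G.Q k ^ 329)⁻¹ Y
      (fun s => G.tt (pr b (G.N J) (S.X (G.N J) w) s) J k) ∧ Y.bs = (G.zz b J k).d ∧
      Y.Ec univ id ∧ (Y.Z = fun q => G.zs (S.W q) J k) ∧ ∀ q, Y.jt {q} =
        G.tv (S.P q) b J k + (0, ∑ ω ∈ S.Om.filter (S.cl · = q), w ω • G.wO b J k S ω) := by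
  have σ0 := pow_pos M.pos.1 2
  have p2 : ∀ x : Ω × Fin 2 ⊕ γ, 0 < x.elim (fun _ => σ) r := by
    rintro (x | x)
    exacts [M.pos.1, (r0 x).1]
  obtain ⟨F, a1, a2, a3⟩ := (M.mo h t hp _).merge h t hp (Wt := Wt / σ ^ 2) (by
    rintro (x | x)
    exacts [le_rfl, (r0 x).2]) (md_o w p2) (fun y => by
      simp only [prod_two, ← sum_div]
      exact div_le_div_of_nonneg_right (hw y) σ0.le)
    (by rwa [← mul_div_assoc, ← mul_div_assoc, div_le_one σ0])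
  have e := fun q : γ => (Wx.mem_B (S := S.x)).2 ⟨q, rfl⟩
  obtain ⟨F', a4⟩ := F.pull Sum.inr_injective e
  refine ⟨_, by simpa only [comp_def, exz_apply Sum.inr_injective, Sum.elim_inr] using F', ?_,
    a4 a2, rfl, fun q => ?_⟩
  · simpa only [Fy.bs, Fy.pull, exz_zero] using a1
  · rw [pull_jt Sum.inr_injective, a3 _ (e q), tv]
    refine congrArg₂ (· + ·) (congrArg (G.tn b J · J k) (ft_jt (F := S.src)
      (W := S.x.sup) (mem_union_right _ (e q)))) (Prod.ext rfl (sum_congr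
      (filter_congr fun _ _ => Sum.inr_injective.eq_iff) fun ω a => ?_))
    rw [M.ins_eq h t hp _ (mem_filter.1 a).1]

/-- the merging -/
theorem merge (hw : ∀ y, ∑ ω ∈ S.Om.filter (y ∈ S.X0 ·), ‖w ω‖ * ρ (S.cl ω) ≤ Wt)
    (sm : G.Q k ^ 330 * (G.cM k c C * Wt) ≤ σ ^ 2) : ∃ Y : Fy γ,
    G.Fd k (G.zz b J k) univ ρ ρ (G.Q k ^ 329)⁻¹ Y
      (fun s => G.tt (pr b (G.N J) (S.X (G.N J) w) s) J k) ∧ Y.bs = (G.zz b J k).d ∧
      Y.Ec univ id ∧ (Y.Z = fun q => G.zs (S.W q) J k) ∧ ∀ q, Y.jt {q} =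
        G.tv (S.P q) b J k + (0, ∑ ω ∈ S.Om.filter (S.cl · = q), w ω • G.wO b J k S ω) :=
  M.merge0 h t hp (fun q => ⟨M.pos.2 q, le_rfl⟩) hw sm

/-- the majorants of the insertions -/
theorem km : ∃ kI : Ω → Mj, (∀ ω ∈ S.Om, KM (G.p k) (G.N k) (kI ω) (G.wO b J k S ω)) ∧
    (∀ ω X c, 0 ≤ kI ω X c ∧ (kI ω X c ≠ 0 → S.X0 ω ⊆ X)) ∧ ∀ (v : Ω → ℝ) Wt, (∀ ω, 0 ≤ v ω) →
      0 < Wt → (∀ y, ∑ ω ∈ S.Om.filter (y ∈ S.X0 ·), v ω ≤ Wt) →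
      kN ((G.p k).ad (1 / 3)) (G.N k) (fun X c => ∑ ω ∈ S.Om, v ω * kI ω X c)
        (4 * (G.cM k c C * (Wt / σ ^ 2))) := by
  obtain ⟨kI, a1, a2, a3⟩ := (M.mo h t hp 0).ins_km h t hp
  have σ0 := pow_pos M.pos.1 2
  refine ⟨kI, fun ω a => M.ins_eq h t hp 0 a ▸ a1 ω a, a2, fun v Wt v0 W0 hv =>
    a3 v _ v0 (div_pos W0 σ0) fun y => ?_⟩
  simp only [prod_two, ← sum_div]
  exact div_le_div_of_nonneg_right (hv y) σ0.le

/-- one majorant for all the coefficients with a given bound -/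
theorem core {v : Ω → ℝ} (v0 : ∀ ω, 0 ≤ v ω) (hw : ∀ y, ∑ ω ∈ S.Om.filter (y ∈ S.X0 ·), v ω ≤ Wt)
    (W0 : 0 < Wt) (hy : 4 * G.cM k c C * Wt * G.Q k ^ 280 * G.bb k ≤ y * σ ^ 2) :
    ∃ k', kN ((G.p k).ad (1 / 3)) (G.N k) k' ((G.Q k ^ 280)⁻¹ * y * G.g k ^ 2) ∧
      ∀ (u : Ω → Finset St → ℂ) (B : Finset St → ℝ),
        (∀ ω ∈ S.Om, ∀ X, S.X0 ω ⊆ X → ‖u ω X‖ ≤ B X * v ω) → KM (G.p k) (G.N k)
          (fun X c => B X * k' X c) fun X => (∑ ω ∈ S.Om, u ω X • G.wO b J k S ω) X := by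
  obtain ⟨kI, k1, k2, k3⟩ := M.km h t hp
  have s0 := pow_pos M.pos.1 2
  have q := pow_pos (h.Q0 k) 280
  refine ⟨_, (k3 v Wt v0 W0 hw).mono ?_, fun u B e => ?_⟩
  · rw [← mul_div_assoc, ← mul_div_assoc, div_le_iff₀ s0, mul_assoc, mul_assoc, le_inv_mul_iff₀ q]
    linear_combination G.g k ^ 2 * hy - 4 * G.cM k c C * Wt * G.Q k ^ 280 * h.bg k
  · have a := fun X => km_sum fun ω hω => (k1 ω hω).smul (u ω X)
    refine ⟨fun X => (a X).meas X, fun X => (a X).per X, fun X => (a X).dep X,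
      fun X => (a X).gi X, fun X c U hU => ((a X).bd X c U hU).trans
        (mul_le_mul_of_nonneg_right ?_ (exp_pos _).le)⟩
    rw [mul_sum]
    refine sum_le_sum fun ω hω => ?_
    by_cases e0 : kI ω X c = 0
    · simp [e0]
    · rw [← mul_assoc]
      exact mul_le_mul_of_nonneg_right (e ω hω X ((k2 ω X c).2 e0)) (k2 ω X c).1

/-- the size of a sum of insertions -/
theorem sz (hw : ∀ y, ∑ ω ∈ S.Om.filter (y ∈ S.X0 ·), ‖w ω‖ ≤ Wt) (W0 : 0 < Wt) (x0 : 0 ≤ x)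
    (hy : 4 * G.cM k c C * Wt * G.Q k ^ 280 * G.bb k ≤ y * σ ^ 2) :
    G.Sz k x y (G.Q k ^ 280)⁻¹ 0 (∑ ω ∈ S.Om, w ω • G.wO b J k S ω) := by
  obtain ⟨k', a1, a2⟩ := M.core h t hp (fun _ => norm_nonneg _) hw W0 hy
  exact ⟨(Mx.pm0 h a1).2 x0, k',
    (a2 (fun ω _ => w ω) 1 fun _ _ _ _ => (one_mul _).ge).mono fun _ _ => (one_mul _).le,
    ad_zero (G.p k) ▸ kN_drop a1 (by norm_num)⟩

/-- slowly varying weights -/
theorem slow {φ : Ω → ℂ} {f : St → ℂ} (hw : ∀ y, ∑ ω ∈ S.Om.filter (y ∈ S.X0 ·), ‖w ω‖ ≤ Wt)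
    (W0 : 0 < Wt) (x0 : 0 ≤ x) (α0 : 0 < α) (hL : LipT (G.N k) α f)
    (hφ : ∀ ω ∈ S.Om, ∃ z ∈ S.X0 ω, ‖φ ω - f z‖ ≤ α * G.Q k)
    (hy : 4 * G.cM k c C * Wt * α * G.Q k ^ 282 * G.bb k ≤ E * σ ^ 2) :
    G.Sz k x E (G.Q k ^ 280)⁻¹ 0 (∑ ω ∈ S.Om, (φ ω * w ω) • G.wO b J k S ω -
      mA f (∑ ω ∈ S.Om, w ω • G.wO b J k S ω)) := by
  have q := h.Q0 k
  have D := (h.ps0 k).D
  obtain ⟨k', a1, a2⟩ := M.core h t hp (y := E / (α * G.Q k ^ 2)) (fun _ => norm_nonneg _) hw W0 (by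
    rw [div_mul_eq_mul_div, le_div_iff₀ (by positivity)]
    linear_combination hy)
  have a3 := (kN_ad a1 (w := fun X _ => α * G.Q k + α * ((tau (G.N k) (G.p k).D X + 2) * (G.p k).D))
    (C := α * G.Q k ^ 2) (fun _ _ => by positivity) (fun o _ => ?_) (by positivity)).mono
    (le_of_eq (b := (G.Q k ^ 280)⁻¹ * E * G.g k ^ 2) (by field_simp))
  · refine ⟨(Mx.pm0 h a3).2 x0, _, ?_, a3⟩
    convert a2 (fun ω X => (φ ω - f (px X)) * w ω) _ fun ω hω X e => ?_ using 2 with X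
    · simp only [mA, Pi.sub_apply, Finset.sum_apply, smul_sum, ← sum_sub_distrib, Pi.smul_apply,
        smul_smul, sub_mul, sub_smul]
    · obtain ⟨z, z1, z2⟩ := hφ ω hω
      rw [norm_mul]
      refine mul_le_mul_of_nonneg_right ((norm_sub_le_norm_sub_add_norm_sub _ _ _).trans
        (add_le_add z2 ?_)) (norm_nonneg _)
      exact_mod_cast hL _ _ _ (tau_diam D (e z1) (px_mem ⟨z, e z1⟩))
  · have D1 : (1 : ℝ) ≤ (G.p k).D := by exact_mod_cast D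
    have e1 := add_one_le_exp (1 / 3 * (tau (G.N k) (G.p k).D o.1 : ℝ))
    have e2 := (pow_le_pow_right₀ (by linarith) (show 2 ≤ 4 by norm_num)).trans (h.DQ k)
    have e3 : (0 : ℝ) ≤ tau (G.N k) (G.p k).D o.1 := Nat.cast_nonneg _
    rw [← mul_add, mul_assoc]
    refine mul_le_mul_of_nonneg_left (le_trans ?_ (mul_le_mul_of_nonneg_left e1 (sq_nonneg _))) α0.le
    have e4 : 3 * ((G.p k).D : ℝ) ≤ G.Q k := by nlinarith
    have e5 : G.Q k + 3 * ((G.p k).D : ℝ) ≤ G.Q k ^ 2 := by nlinarith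
    nlinarith [mul_le_mul_of_nonneg_right e5 e3, mul_nonneg q.le e3]

/-- reality -/
theorem real (hω : ω ∈ S.Om) (hF : ∀ ω l x μ ν, (S.F ω l x μ ν).im = 0)
    (hP : ∀ q x μ ν, (S.P q x μ ν).im = 0) (ha : ∀ l, (S.a ω l).im = 0) :
    RealA (G.wO b J k S ω) := by
  have R : ∀ A r, (G.ft A S.src S.x.sup b J).Rl (G.p J) r := fun A r => by
    rw [← xt_pl]
    refine xt_rl (fun i _ => ⟨?_, fun _ _ => rfl, fun _ _ _ _ => rfl⟩) r
    rcases i with i | i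
    exacts [hF _ _, hP _]
  have e : ∀ ω ∈ S.Om, (G.eh b J k (S.F ω)).im = 0 := fun ω a => by
    rw [eh]
    refine jd_real (M.ma2 h t hp a ▸ sh_ma (fun _ => one_pos) _ _) (fun s _ v => ?_) _
    have i := Wx.inj_A (γ := γ) (κ := Fin 2) ω
    rw [M.pl h t hp a]
    refine (h.fl_rl t hp le_rfl (M.un h (tr_one a)) M.lt.le (R _ _) _ M.lt k.le_succ
      (fun x => ‖exz _ s x‖ + 1) _ (fun _ => lt_add_one _) fun x => ?_).2.2
    rw [exz, extend_def]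
    split_ifs
    exacts [v _, rfl]
  rw [← M.ins_eq h t hp 0 hω]
  refine (M.mo h t hp 0).real h t hp (fun s hs v => ?_) hω fun x hx => by
    obtain ⟨l, rfl⟩ := Wx.mem_A.1 hx
    exact ha l
  rw [yo_cut (tr_one (D := S.x.wd) hω).1]
  refine ⟨(R _ _ s hs v).1, (R _ _ s hs v).2.1, Im.sub rfl (Im.sum fun T _ => Im.mul
    (Im.prod fun x _ => v x) (Im.sub (Im.sum fun ω a => e ω (mem_filter.1 a).1)
      (Im.sum fun _ _ => rfl)))⟩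

/-- the direction of a cell represents its observable -/
theorem rt (w : Ω → ℂ) (q : γ) : Rt (G.sl k (G.zz b J k)) (G.zz b J k).d (G.tv (S.P q) b J k +
      (0, ∑ ω ∈ S.Om.filter (S.cl · = q), w ω • G.wO b J k S ω)) (G.f b J k)
    (G.tt (fun U => wil b (G.N J) U * S.X (G.N J) w q U) J k) := by
  obtain ⟨Wt, W0, hw⟩ : ∃ Wt, 0 < Wt ∧ ∑ ω ∈ S.Om, ‖w ω‖ ≤ Wt := ⟨_, by positivity, (lt_add_one _).le⟩
  have σ0 := pow_pos M.pos.1 2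
  have c0 : 0 < G.Q k ^ 330 * (G.cM k c C * Wt) :=
    mul_pos (pow_pos (h.Q0 k) _) (mul_pos (mul_pos (exp_pos _) (pow_pos (h.Q0 k) _)) W0)
  obtain ⟨Y, F, a1, -, -, a2⟩ := M.merge0 h t hp (w := w) (r := fun q => min (ρ q)
    (σ ^ 2 / (G.Q k ^ 330 * (G.cM k c C * Wt))))
    (fun q => ⟨lt_min (M.pos.2 q) (div_pos σ0 c0), min_le_left _ _⟩) (fun y =>
      (sum_le_sum fun ω _ => mul_le_mul_of_nonneg_left (min_le_right _ _) (norm_nonneg _)).trans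
        ((sum_mul _ _ _).ge.trans (mul_le_mul_of_nonneg_right ((sum_le_sum_of_subset_of_nonneg
          (filter_subset _ _) fun _ _ _ => norm_nonneg _).trans hw) (div_pos σ0 c0).le)))
    (by rw [← mul_assoc, ← mul_assoc, mul_assoc _ _ Wt, mul_div_cancel₀ _ c0.ne'])
  have u := h.rt_fd F (mem_univ q)
  have g : ∀ F, GI (G.N J) (xO (G.N J) (F, 0, 0)) := fun F =>
    xO_pl _ F ▸ Br.gi_cont (Br.cont_sO _) (Br.sO_gauge _)
  have hd := pr_hd (b := b) (n := G.N J) (gi_Y (S := S.x) (fun _ _ _ => g _) (fun _ => g _) w)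
    (r := fun _ => 1) fun _ => one_pos
  rw [S.x_Y] at hd
  simp only [a1, a2, jd_tt hd M.lt.le, pr_eq, jd_ma _ (subset_univ _), prod_singleton, pr_zero,
    mul_comm (S.X _ _ _ _)] at u
  have e := h.fr_zero (A := (∅ : Finset Unit)) (F := fun _ => 0) (b := b) k M.lt.le
  simp only [fr, sF, sum_empty, sO, Pi.zero_apply, zero_mul, sum_const_zero, neg_zero,
    Complex.exp_zero, mul_one] at e
  rwa [e] at u

/-- translation invariant families of words -/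
theorem tw [Unique γ] {w : Ω → ℝ} (hP : ∀ q, S.P q = 0)
    (hF : ∀ ω l x μ ν, (S.F ω l x μ ν).im = 0) (ha : ∀ ω l, (S.a ω l).im = 0)
    (inv : ∀ v, ∃ u : Ω → Ω, Set.BijOn u S.Om S.Om ∧ ∀ ω ∈ S.Om, w (u ω) = w ω ∧
      S.a (u ω) = S.a ω ∧ (S.F (u ω) = fun l => srT (G.N J) ((G.rt J k : ℤ) • v) (S.F ω l)) ∧
      S.Z0 ω = trS (G.N k) v (S.Z0 (u ω)) ∧ S.X0 ω = trS (G.N k) v (S.X0 (u ω)))
    (hw : ∀ y, ∑ ω ∈ S.Om.filter (y ∈ S.X0 ·), |w ω| ≤ Wt) (W0 : 0 < Wt) (x0 : 0 ≤ x)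
    (hy : 4 * G.cM k c C * Wt * G.Q k ^ 280 * G.bb k ≤ y * σ ^ 2) :
    G.Tn k (G.zz b J k) (G.zz b J k).d (G.f b J k) x y (G.Q k ^ 280)⁻¹
      (0, ∑ ω ∈ S.Om, (w ω : ℂ) • G.wO b J k S ω)
      (G.tt (fun U => wil b (G.N J) U * ∑ ω ∈ S.Om, w ω * S.wo (G.N J) ω U) J k) := by
  refine ⟨M.sz h t hp (by simpa using hw) W0 x0 hy, ⟨fun _ _ _ _ => rfl, fun X c U => ?_,
    fun v => ⟨rfl, fun o ho => ?_⟩⟩, ?_⟩
  · simp only [Finset.sum_apply, Complex.im_sum]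
    refine sum_eq_zero fun ω hω => ?_
    simp [M.real h t hp hω hF (by simp [hP]) (ha ω) X c U]
  · obtain ⟨u, u1, u2⟩ := inv v
    funext U
    simp only [trA, Finset.sum_apply, Pi.smul_apply]
    refine sum_nbij u u1.mapsTo u1.injOn u1.surjOn fun ω hω => ?_
    obtain ⟨e1, e2, e3, e4, e5⟩ := u2 ω hω
    rw [e1, wO, wO, e2, e3, e4, e5, ← h.cSo_tr M.lt _ _ v
      (M.wd _ (u1.mapsTo hω)).2.1 (M.x0_box h (u1.mapsTo hω)) ho]
    rfl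
  · have := M.rt h t hp (fun ω => w ω) default
    simp only [Ws.X, hP, (h.ra_zero (k := k) t 0).1, zero_add, sO, Pi.zero_apply, zero_mul,
      sum_const_zero, neg_zero, filter_true_of_mem fun ω _ => Subsingleton.elim (S.cl ω) default]
      at this
    exact this

end Mov

end Gl

end Pool.Agent.Lib.MP_7f377f_mp.RG.Q4.En
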