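import Pool.Agent.Lib.MP_7f377f_mp.G.MgX1

/-! Words of overlapping letters with a subtracted constant as jets. -/

noncomputable section

open Pool.Agent.Lib.MP_7f377f_mp.Jet

set_option linter.unusedSectionVars false
variable [Pool.Agent.Lib.MP_7f377f_mp.GD]

namespace Pool.Agent.Lib.MP_7f377f_mp.RG.Q4.En

open Finset Function Sg Real Pos Mg
open scoped Classical

variable {Ω ι : Type} [DecidableEq Ω] [DecidableEq ι] {A S T : Finset ι} {r : ι → ℝ} {n : ℕ}

theorem hb_mon (hr : ∀ i, 0 < r i) (A : Finset ι) : Hb r fun s : ι → ℂ => ∏ x ∈ A, s x :=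
  hb_prod hr fun x _ => hb_var hr x

theorem hb_exp {g : (ι → ℂ) → ℂ} (h : Hb r g) : Hb r fun s => Complex.exp (g s) :=
  ⟨_, h.choose_spec.exp⟩

theorem jd_mon (A : Finset ι) : jd A (fun s : ι → ℂ => ∏ x ∈ A, s x) = 1 := by
  have := jd_ma (A := A) (fun T => if T = A then (1 : ℂ) else 0) Subset.rfl
  rw [if_pos rfl] at this
  refine .trans (congrArg _ (funext fun s => ?_)) this
  simp [ma, mon]

theorem jd_emon (hA : A.Nonempty) (a : ℂ) (T : Finset ι) :
    jd T (fun s : ι → ℂ => Complex.exp (a * ∏ x ∈ A, s x)) =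
      (if T = ∅ then 1 else 0) + if T = A then a else 0 := by
  have p : ∀ _ : ι, (0 : ℝ) < 1 := fun _ => one_pos
  obtain ⟨M, h⟩ := hb_exp (hb_mul (hb_const p a) (hb_mon p A))
  by_cases e : A ⊆ T
  · rw [if_neg (hA.mono e).ne_empty, zero_add]
    split_ifs with u
    · obtain ⟨i, hi⟩ := hA
      subst u
      have := h.jd_insert (notMem_erase i T)
      rw [insert_erase hi] at this
      rw [this, show Jet.pd i (fun s : ι → ℂ => Complex.exp (a * ∏ x ∈ T, s x)) =
        a • fun s => ∏ x ∈ T.erase i, s x from funext fun s => ?_, jd_smul, jd_mon, mul_one]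
      simp only [Jet.pd, ← mul_prod_erase _ _ hi, update_self, prod_congr rfl fun x hx =>
        update_of_ne (ne_of_mem_erase hx) _ s]
      simpa using (((hasDerivAt_id' (0 : ℂ)).mul_const ((T.erase i).prod s)).const_mul a).cexp.deriv
    · obtain ⟨i, h1, h2⟩ := exists_of_ssubset (ssubset_of_ne_of_subset (Ne.symm u) e)
      exact jd_indep h h1 fun s _ t _ => by
        rw [prod_congr rfl fun x hx => update_of_ne (ne_of_mem_of_not_mem hx h2) _ s]
  · obtain ⟨i, h1, h2⟩ := not_subset.1 e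
    rw [if_neg (c := T = A) fun u => e u.ge, add_zero, ← jd_cut (Subset.refl T)]
    simp only [prod_eq_zero h1 (show cutS T _ i = 0 from if_neg h2), mul_zero, Complex.exp_zero]
    split_ifs with u
    exacts [by simp [u], jd_const _ (nonempty_iff_ne_empty.2 u)]

theorem jd_words {W : Ω → Finset ι} (z : ι → ℂ) (e : Ω → ℂ) (N : Finset Ω)
    (hW : ∀ ω ∈ N, (W ω).Nonempty ∧ W ω ⊆ A)
    (g : ∀ ω ∈ N, ∀ ω' ∈ N, ω ≠ ω' → Disjoint (W ω) (W ω')) (hS : S ⊆ A)
    (d : ∀ ω ∈ N, Disjoint S (W ω)) : jd (S ∪ N.biUnion W) (fun s => Complex.exp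
      (∑ i ∈ A, s i * z i - ∑ ω ∈ N, e ω * ∏ x ∈ W ω, s x)) =
      (∏ q ∈ S, z q) * ∏ ω ∈ N, (∏ x ∈ W ω, z x - e ω) := by
  have p : ∀ _ : ι, (0 : ℝ) < 1 := fun _ => one_pos
  induction N using Finset.induction_on generalizing S with
  | empty => simp [jd_exp_lin z hS]
  | insert ω N hω ih =>
    have m := mem_insert_self ω N
    have ih := fun S => @ih S (fun ω a => hW ω (mem_insert_of_mem a))
      fun ω a ω' a' => g ω (mem_insert_of_mem a) ω' (mem_insert_of_mem a')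
    have g' : ∀ ω' ∈ N, Disjoint (W ω) (W ω') := fun ω' a =>
      g ω m ω' (mem_insert_of_mem a) (ne_of_mem_of_not_mem a hω).symm
    have d' := fun ω' a => d ω' (mem_insert_of_mem a)
    obtain ⟨M, h⟩ := hb_exp (hb_mul (hb_const p (-e ω)) (hb_mon p (W ω)))
    obtain ⟨M', h'⟩ := hb_exp (((Hb.refl (A := ∅) ⟨_, sh_lin p A z⟩).sub (hb_sum p
      fun ω (_ : ω ∈ N) => hb_mul (hb_const p (e ω)) (hb_mon p (W ω))).refl).fst)
    have u := jd_mul h h' (S ∪ (insert ω N).biUnion W)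
    simp only [jd_emon (hW ω m).1, add_mul, sum_add_distrib, ite_mul, one_mul, zero_mul,
      sum_ite_eq', empty_subset, if_true, sdiff_empty, mem_powerset] at u
    rw [if_pos ((subset_biUnion_of_mem W m).trans subset_union_right), biUnion_insert,
      show (S ∪ (W ω ∪ N.biUnion W)) \ W ω = S ∪ N.biUnion W by
        rw [union_left_comm, union_sdiff_left, _root_.sdiff_eq_self_iff_disjoint.2
          (disjoint_union_right.2 ⟨(d ω m).symm, (disjoint_biUnion_right _ _ _).2 g'⟩)],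
      ← union_assoc, ih _ (union_subset hS (hW ω m).2) (fun ω' a =>
        disjoint_union_left.2 ⟨d' ω' a, g' ω' a⟩), ih _ hS d', prod_union (d ω m)] at u
    rw [biUnion_insert, ← union_assoc, prod_insert hω]
    refine .trans (congrArg _ (funext fun s => ?_)) (u.trans (by ring))
    rw [Pi.mul_apply, ← Complex.exp_add, sum_insert hω]
    congr 1
    ring

/-- words of linear letters with a subtracted constant -/
theorem md_two {D : Wd St ι Ω} (g : ∀ ω ∈ D.Om, Disjoint (D.A ω) D.B)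
    (g' : ∀ ω ∈ D.Om, ∀ ω' ∈ D.Om, ω ≠ ω' → Disjoint (D.A ω) (D.A ω')) (hA : D.al ⊆ A)
    (h0 : ∀ ω ∈ D.Om, (D.A ω).Nonempty) {y : ι → Conf → ℂ} {c : Conf → ℂ} {a : ι → ℂ}
    {w e : Ω → ℂ} {f' : (ι → ℂ) → Conf → ℂ} (hd : HD r f')
    (he : ∀ U, Per n U → ∀ T ⊆ D.B, jd T (f' · U) = c U * ∏ q ∈ T, (y q U +
      ∑ ω ∈ D.Om.filter (D.cl · = q), w ω * (∏ x ∈ D.A ω, (y x U - a x) - e ω))) :
    Md D a w n r (fun s U => Complex.exp (-∑ ω ∈ D.Om, e ω * ∏ x ∈ D.A ω, s x) *
      (c U * Complex.exp (∑ i ∈ A, s i * y i U))) f' := by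
  refine ⟨hd, fun U hU T hT => ?_⟩
  rw [he U hU T hT, prod_cells, mul_sum]
  refine sum_congr rfl fun N hN => ?_
  have hN := mem_powerset.1 hN
  have o := (disjoint_biUnion_left _ _ _).2 fun ω a => g ω (hN a)
  have u := (ad_sub hN).trans hA
  split_ifs
  swap
  · exact mul_zero _
  have v : ∀ s : ι → ℂ, ∑ ω ∈ D.Om, e ω * ∏ x ∈ D.A ω, cutS (D.lt N T) s x =
      ∑ ω ∈ N, e ω * ∏ x ∈ D.A ω, cutS (D.lt N T) s x := fun s => by
    refine (sum_subset hN fun ω h1 h2 => ?_).symm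
    obtain ⟨x, hx⟩ := h0 ω h1
    rw [prod_eq_zero hx (show cutS (D.lt N T) s x = 0 from if_neg fun k => ?_), mul_zero]
    rcases mem_union.1 k with k | k
    · exact disjoint_left.1 (g ω h1) hx (hT (mem_sdiff.1 k).1)
    · obtain ⟨ω', k1, k2⟩ := mem_biUnion.1 k
      exact disjoint_left.1 (g' ω h1 ω' (hN k1) (ne_of_mem_of_not_mem k1 h2).symm) hx k2
  have k := jd_words (A := A) (S := T \ N.image D.cl) (fun i => y i U -
    if i ∈ N.biUnion D.A then a i else 0) e N (fun ω h => ⟨h0 ω (hN h), (a_sub h).trans u⟩)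
    (fun ω a ω' a' => g' ω (hN a) ω' (hN a')) (subset_union_left.trans ((lt_sub hT).trans u))
    fun ω h => (g ω (hN h)).symm.mono_left (sdiff_subset.trans hT)
  rw [← jd_cut (Subset.refl _), prod_congr (s₁ := T \ _) (g := (y · U)) rfl fun x hx => by
      rw [if_neg (disjoint_right.1 o (hT (mem_sdiff.1 hx).1)), sub_zero],
    prod_congr (s₁ := N) (g := fun ω => ∏ x ∈ D.A ω, (y x U - a x) - e ω) rfl fun ω h => by
      rw [prod_congr rfl fun x hx => by rw [if_pos (mem_biUnion.2 ⟨ω, h, hx⟩)]]] at k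
  rw [← jd_cut (Subset.refl (D.lt N T)), prod_mul_distrib, mul_assoc, mul_left_comm, mul_comm
    (∏ ω ∈ N, (_ - _)), ← k, ← jd_smul]
  refine congrArg _ (congrArg _ (funext fun s => ?_))
  rw [v, Pi.smul_apply, smul_eq_mul]
  rw [show T \ N.image D.cl ∪ N.biUnion D.A = D.lt N T from rfl]
  generalize cutS (D.lt N T) s = s'
  simp only [mul_sub, sum_sub_distrib, mul_ite, mul_zero, sum_ite_mem,
    inter_eq_right.2 (subset_union_left.trans u), sub_eq_add_neg (∑ i ∈ A, _),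
    sub_eq_add_neg (_ + _), Complex.exp_add]
  ring

end Pool.Agent.Lib.MP_7f377f_mp.RG.Q4.En
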