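import Pool.Agent.Lib.MP_7f377f_mp.G.S23N0
import Pool.Agent.Lib.MP_7f377f_mp.G.S23N1
import Pool.Agent.Lib.MP_7f377f_mp.G.S23N2a

/-! Shifts of the free energy, relabelling and reality along a controlled flow. -/

noncomputable section

open Pool.Agent.Lib.MP_7f377f_mp.Jet

set_option linter.unusedSectionVars false
variable [Pool.Agent.Lib.MP_7f377f_mp.GD]

namespace Pool.Agent.Lib.MP_7f377f_mp.RG.Q4.En

open Finset Function Sg Real Pos Mg
open scoped Classical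

attribute [local irreducible] box lbox tb tau rc

variable {ι κ Ω : Type} [DecidableEq ι] [DecidableEq κ] [DecidableEq Ω] {A : Finset ι}
  {D : Wd St ι Ω} {s : ι → ℂ}

/-- constants for the words and for the cells -/
def wcf (D : Wd St ι Ω) (e : Ω → ℂ) (t : ι → ℂ) (T : Finset ι) : ℂ :=
  ∑ ω ∈ D.Om.filter (D.A · = T), e ω - ∑ x ∈ D.B.filter ({·} = T), t x

theorem ma_wcf (e : Ω → ℂ) (t : ι → ℂ) : ma D.al (wcf D e t) s =
    ∑ ω ∈ D.Om, e ω * ∏ x ∈ D.A ω, s x - ∑ x ∈ D.B, s x * t x := by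
  rw [← sum_fiberwise_of_maps_to (g := D.A) (t := D.al.powerset) fun ω h => mem_powerset.2
    ((subset_biUnion_of_mem _ h).trans subset_union_left), ← sum_fiberwise_of_maps_to
    (g := singleton) (t := D.al.powerset) fun x h => mem_powerset.2 (singleton_subset_iff.2
      (mem_union_right _ h)), ← sum_sub_distrib]
  refine sum_congr rfl fun T _ => ?_
  rw [wcf, smul_eq_mul, mul_sub, mul_sum, mul_sum]
  refine congrArg₂ _ (sum_congr rfl fun ω h => ?_) (sum_congr rfl fun x h => ?_) <;>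
    rw [← (mem_filter.1 h).2]
  exacts [mul_comm _ _, by simp [mon]]

theorem ma_tw2 (a : Finset (Fin 2) → ℂ) (s : Fin 2 → ℂ) :
    ma univ a s = a ∅ + s 0 * a {0} + s 1 * a {1} + s 0 * s 1 * a univ := by
  rw [show (univ : Finset (Fin 2)) = insert 0 (insert 1 ∅) by decide, ma_insert (by decide),
    ma_insert (by decide), ma_insert (by decide)]
  simp [ma, mon]
  ring

namespace Gl

variable {G : Gl} {b θ : ℝ} {J i j k : ℕ} {Y : Fy ι} {e : (ι → ℂ) → ℂ} {z : En.Z} {r0 r : ι → ℝ}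
  {f : (ι → ℂ) → Conf → ℂ}

theorem fw_sh : ∀ k ≤ i, G.fw A b J (Y.sh e) i k = (G.fw A b J Y i k).sh e :=
  dw_ind (by rw [fw_top, fw_top]) fun k hk ih => by
    rw [fw_step hk, fw_step hk, ih]
    simp only [fs, Fy.sh, sub_add_eq_add_sub]

theorem Fd.sh (F : G.Fd k z A r0 r θ Y f) (c : Finset ι → ℂ) :
    G.Fd k z A r0 r θ (Y.sh (Jet.ma A c)) fun s U => Complex.exp (-Jet.ma A c s) * f s U := by
  have p := F.eq.fst.pos
  have u := ((hb_ma (A := A) p c).refl (A := ∅)).neg.exp.fst.hd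
  have v : (Y.sh (Jet.ma A c)).E = Jet.ma A ((fun T => jd T Y.E) - c) := funext fun s => by
    rw [eq_sub_iff_add_eq'.2 (ma_add (a := c) (a' := (fun T => jd T Y.E) - c)).symm, add_sub_cancel,
      ← F.ma]
    rfl
  refine ⟨F.fi, v ▸ (tr_ma _).symm, ?_⟩
  convert (u.refl (A := A) (n := G.N k)).mul F.eq using 3 with s U
  rw [← mul_assoc, ← Complex.exp_add, neg_add_eq_sub]
  rfl

namespace Ok

variable (h : G.Ok) (t : G.Tu b J) (hp : G.Pu) (hi : i ≤ J) {f : ℕ → (ι → ℂ) → Conf → ℂ}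
  (H : ∀ j, k ≤ j → j ≤ i → G.Fd j (G.zz b J j) A r r (G.Q j ^ 329)⁻¹ (G.fw A b J Y i j) (f j) ∧
    ∀ s ∈ Pd r, PU (G.p j) (G.Q j ^ 211)⁻¹ ((G.fw A b J Y i j).ψ s))
include h t hp hi H

theorem fl_sml (hj : j < i) (hk : k ≤ j) : ∃ β θ k0 k', (∀ s ∈ Pd r,
    (G.sd j (G.zz b J (j + 1))).Sml β θ k0 ((G.fw A b J Y i (j + 1)).ψ s)
      ((G.fw A b J Y i (j + 1)).K s)) ∧ FA r (G.p j) (G.N j) k' fun s =>
      (G.sd j (G.zz b J (j + 1))).KK ((G.fw A b J Y i (j + 1)).ψ s)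
        ((G.fw A b J Y i (j + 1)).K s) := by
  obtain ⟨F, S⟩ := H _ (hk.trans j.le_succ) hj
  have B := h.bl_big j (G.zz b J (j + 1))
  have st := h.st2 (t.gd _ (hj.trans_le hi)).tz
  have q := h.Q0 j
  obtain ⟨k0, k1, k2⟩ := (h.fi_sd F.fi (G.zz b J (j + 1))).km
  have k3 := k1.mono (h.th_big j (G.zz b J (j + 1))).1
  obtain ⟨k', -, a2⟩ := st.K _ _ k0 B.b_le B.θ_le (by positivity) k3
  have u := fun s hs => show (G.sd j (G.zz b J (j + 1))).Sml _ _ k0 _ _ from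
    ⟨B.b_le, B.θ_le, h.pu_big (S s hs), k2 s hs, k3⟩
  exact ⟨_, _, k0, k', u, fa_KK st F.fi.pos (F.fi.sl _) (F.fi.sa _) u a2⟩

theorem fl_pull [Fintype κ] {e : κ → ι} (he : Injective e) (hA : ∀ x, e x ∈ A) {Y' : Fy κ}
    (u : Y'.Se (Y.pull e)) :
    ∀ j ≤ i, k ≤ j → (G.fw univ b J Y' i j).Se ((G.fw A b J Y i j).pull e) :=
  fw_pull he hA u fun j hk hj T X c U g hg => by
    obtain ⟨_, _, _, _, -, F⟩ := h.fl_sml t hp hi H hj hk
    exact hg ▸ jd_exz he ⟨_, F.sh X c U⟩ T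

theorem fl_rl (hk : k ≤ i) (e : Y.Rl (G.p i) r) :
    ∀ j ≤ i, k ≤ j → ∀ r', (G.fw A b J Y i j).Rl (G.p j) r' :=
  dw_ind (fun a => (H i hk le_rfl).1.rl (H i hk le_rfl).1.fi.pos (by rwa [fw_top]))
    fun j hj ih hk => by
    obtain ⟨_, _, _, _, S, F⟩ := h.fl_sml t hp hi H hj hk
    have ad := h.ad t (hj.trans_le hi) (h.pu_all t hp j (hj.trans_le hi))
    have u := fun s hs a => (h.st2 ad.tz).real _ _ _ _ _ (S s hs) (ih (by omega) _ s hs a).1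
      (ih (by omega) _ s hs a).2.1
    refine (H j hk hj.le).1.rl F.pos fun s hs a => ?_
    rw [fw_step hj]
    refine ⟨fun x B h1 h2 => Im.add ((u s hs a).1 x B h1 h2)
      ((h.src_ps ad.tz ad.lt ad.v ad.kp).2.1 x B h1 h2), fun X c U => ?_,
      Im.add (ih (by omega) _ s hs a).2.2 (Im.sum fun y _ => (u s hs a).2.2 y)⟩
    simp only [fs]
    rw [congrFun (trK_eq X c U) s]
    exact tr_real (F.sh X c U) (fun s hs a => (u s hs a).2.1 X c U) a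

end Ok

/-- the uniform majorant at the top -/
theorem Ok.ft_um {Λ : Finset St} {c : ℕ} {δ' : ℝ} {F : ι → Sr} {W V : ι → Finset St} (h : G.Ok)
    (t : G.Tu b J) (hr : ∀ x, 0 < r x) (g : D.Ok Λ) (hZ : ∀ i x, rc (G.N J) x ∉ W i → F i x = 0)
    (hF : ∀ N, D.Tr N → ∀ s ∈ Pd r, ∀ x μ ν, ‖sF (D.ad N) F s x μ ν‖ ≤ G.bb J / 4)
    (hV : ∀ x ∈ D.al, W x ⊆ V (D.ce x)) (hA : ∀ ω ∈ D.Om, (D.A ω).card ≤ c) (c1 : 1 ≤ c)
    (cl : Cls (G.N J) δ' D.B id V) (hδ : (2 * c + 2) * (G.p J).D ≤ δ') (hQ : 2 ^ c ≤ G.Q J) :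
    Um D (G.p J) 0 (G.N J) r (G.Q J ^ 329)⁻¹ (G.ft D.al F W b J).K := by
  have nu := (h.sl_all J (G.top b J)).nu
  have n := h.sl_nf J (G.top b J)
  have g0 := h.g0 J
  have e : ∀ (A : Finset ι) (s : ι → ℂ), ∑ i ∈ A, s i • ((F i, 0, 0) : Sx) = (sF A F s, 0, 0) :=
    fun A s => by simp [Prod.ext_iff, Prod.fst_sum, Prod.snd_sum, sF]
  rw [← xt_pl]
  refine (um_trK (m := 2 * c) (ρ := 1) g hV hA c1 (h.ps0 J).D (n ▸ kI_up nu) (fun N hN => ?_)
    (xK_lc (h.N_odd J) fun i x a => ⟨hZ i x a, rfl, rfl⟩) cl (by push_cast; exact hδ) zero_le_one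
    (by simp) hr fun _ => (one_mul _).ge).mono (by norm_num) (le_trans ?_ (h.top_le hQ))
  · simp only [sum_cut (ad_sub hN.1)]
    refine ⟨hr, fun s hs i X c U => (hb_xK hr X c U).choose_spec.hol s hs i, fun s hs => ?_⟩
    rw [e]
    exact n ▸ xK_km nu (Nat.zero_le _) (h.b34 t.hb) (hF N hN s hs) (fun _ => .zero)
      fun _ _ => by simp
  · rw [one_add_one_eq_two]
    exact mul_le_mul_of_nonneg_left (pow_le_pow_of_le_one g0.le (h.g1 J) (by norm_num))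
      (by positivity)

theorem ft_loc {F : ι → Sr} {W : ι → Finset St} (h : G.Ok)
    (hZ : ∀ i x, rc (G.N J) x ∉ W i → F i x = 0) :
    Loc (G.N J) W (G.ft A F W b J).ψ (G.ft A F W b J).K := by
  have := xt_loc (A := A) (b := b) (F := fun i => (F i, 0, 0)) h fun i x a => ⟨hZ i x a, rfl, rfl⟩
  rwa [xt_pl] at this

theorem ft_se [Fintype κ] [Inhabited κ] {F : ι → Sr} {W : ι → Finset St} {e : κ → ι} (he : Injective e)
    (h : ∀ x, e x ∈ A) (V : κ → Finset St) :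
    (G.ft univ (F ∘ e) V b J).Se ((G.ft A F W b J).pull e) := by
  rw [← xt_pl, ← xt_pl]
  exact xt_se (H := fun i => (F i, 0, 0)) he h V

theorem Ok.eh_tr (h : G.Ok) (hk : k < J) (F : Fin 2 → Sr) (v : St) :
    G.eh b J k (fun l => srT (G.N J) ((G.rt J k : ℤ) • v) (F l)) = G.eh b J k F := by
  have := fun s => (h.fw_tr (A := univ) (b := b) (J := J) (v := (G.L k : ℤ) • v) hk
    (h.xt_tq (A := univ) (H := fun l => (F l, 0, 0)) (W := fun _ => ∅) (W' := fun _ => ∅)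
      (b := b) _) s).2.2
  rw [smul_smul, ← Nat.cast_mul, mul_comm, ← h.rt_step hk, xt_pl] at this
  rw [eh, eh, fm, fm, funext this, ← xt_pl]
  rfl

theorem Ok.cSo_tr (h : G.Ok) (hk : k < J) (F : Fin 2 → Sr) (a : Fin 2 → ℂ) (v : St)
    {Z0 X0 : Finset St} (hZ : Z0 ⊆ X0) (hX : X0 ⊆ box (G.N k / 2)) {o : LP St}
    (ho : o ∈ lps (box (G.N k / 2))) :
    trA (G.N k) v (G.cSo b J k F a (trS (G.N k) v Z0) (trS (G.N k) v X0)) o.1 o.2 =
      G.cSo b J k (fun l => srT (G.N J) ((G.rt J k : ℤ) • v) (F l)) a Z0 X0 o.1 o.2 := by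
  refine h.cIn_tr hk.le (fun s => ?_) a hZ hX ho
  have := h.xt_tq (A := univ) (H := fun l => (F l, 0, 0)) (W := fun _ => ∅) (W' := fun _ => ∅)
    (b := b) (J := J) ((G.rt J k : ℤ) • v) s
  rw [h.eh_tr hk, ← xt_pl, ← xt_pl]
  exact ⟨this.1, this.2.1, rfl⟩

end Gl

end Pool.Agent.Lib.MP_7f377f_mp.RG.Q4.En
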