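import Pool.Agent.Lib.MP_7f377f_mp.G.S23N2b
import Pool.Agent.Lib.MP_7f377f_mp.G.S23F2

/-! Words of two overlapping letters: the family of all the letters. -/

noncomputable section

open Pool.Agent.Lib.MP_7f377f_mp.Jet

set_option linter.unusedSectionVars false
variable [Pool.Agent.Lib.MP_7f377f_mp.GD]

namespace Pool.Agent.Lib.MP_7f377f_mp.RG.Q4.En

open Finset Function Sg Real Pos Mg
open scoped Classical

attribute [local irreducible] box lbox tb tau rc Gl.zs Gl.tn Gl.tt Gl.zz Gl.cIn Gl.ins Gl.eh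

variable {γ Ω : Type} [Fintype γ] [DecidableEq γ] [DecidableEq Ω] {S : Ws γ Ω (Fin 2)} {ω : Ω}

/-- the sources of the letters -/
def Ws.src (S : Ws γ Ω (Fin 2)) : Ω × Fin 2 ⊕ γ → Sr := Sum.elim (fun x => S.F x.1 x.2) S.P

theorem wcf_exz (e : Ω → ℂ) (u : Ω × Fin 2 ⊕ γ → ℂ) (hω : ω ∈ S.Om) (s : Fin 2 → ℂ) :
    ma S.x.wd.al (wcf S.x.wd e u) (exz (fun l => .inl (ω, l)) s) = e ω * (s 0 * s 1) := by
  have z : ∀ x : Ω × Fin 2 ⊕ γ, (∀ l, x ≠ .inl (ω, l)) → exz (fun l => .inl (ω, l)) s x = 0 :=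
    fun x a => extend_apply' _ _ _ fun ⟨l, e⟩ => a l e.symm
  rw [ma_wcf, sum_eq_single_of_mem (s := S.x.wd.Om) ω hω fun ω' _ a => by
      rw [prod_eq_zero (Wx.mem_A.2 ⟨0, rfl⟩) (z _ fun l e => a
        (congrArg (Sum.elim Prod.fst fun _ => ω) e)), mul_zero],
    sum_eq_zero fun x hx => by
      obtain ⟨q, rfl⟩ := Wx.mem_B.1 hx
      rw [z _ fun _ => Sum.inr_ne_inl, zero_mul], sub_zero]
  simp only [Wx.wd, prod_image (Wx.inj_A ω).injOn, exz_apply (Wx.inj_A ω), Fin.prod_univ_two]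

namespace Gl

section
variable (G : Gl) (b : ℝ) (J k : ℕ) (S : Ws γ Ω (Fin 2)) (u : Ω × Fin 2 ⊕ γ → ℂ)

/-- the family of all the letters -/
def yo : Fy (Ω × Fin 2 ⊕ γ) := (G.ft S.x.wd.al S.src S.x.sup b J).sh
  (ma S.x.wd.al (wcf S.x.wd (fun ω => G.eh b J k (S.F ω)) u))

/-- its density -/
def fo (s : Ω × Fin 2 ⊕ γ → ℂ) (U : Conf) : ℂ :=
  Complex.exp (-ma S.x.wd.al (wcf S.x.wd (fun ω => G.eh b J k (S.F ω)) u) s) *
    (wil b (G.N J) U * Complex.exp (-sO (G.N J) (sF S.x.wd.al S.src s) U))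

end

variable {G : Gl} {b : ℝ} {J k j : ℕ} {c : ℕ} {C σ σ' a τ Wt : ℝ} {ρ : γ → ℝ} {w : Ω → ℂ}
  {N : Finset Ω} {u : Ω × Fin 2 ⊕ γ → ℂ}

theorem yo_cut (hN : N ⊆ S.Om) : (G.yo b J k S u).cut (S.x.wd.ad N) =
    (G.ft (S.x.wd.ad N) S.src S.x.sup b J).sh
      (ma (S.x.wd.ad N) (wcf S.x.wd (fun ω => G.eh b J k (S.F ω)) u)) := by
  rw [← ft_cut (ad_sub hN)]
  simp only [yo, Fy.cut, Fy.sh, ma_cut _ (ad_sub (D := S.x.wd) hN)]

theorem cls_B {δ : ℝ} (e : Cls (G.N j) δ univ id fun q => G.zs (S.W q) J j) :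
    Cls (G.N j) δ S.x.wd.B id fun x => G.zs (S.x.sup x) J j := fun x hx y hy ne => by
  obtain ⟨q, rfl⟩ := Wx.mem_B.1 hx
  obtain ⟨q', rfl⟩ := Wx.mem_B.1 hy
  exact e q (mem_univ _) q' (mem_univ _) fun a => ne (congrArg Sum.inr a)

theorem md_o (w : Ω → ℂ) {r : Ω × Fin 2 ⊕ γ → ℝ} (hr : ∀ x, 0 < r x) :
    Md S.x.wd S.x.cen w (G.N J) r (G.fo b J k S (Sum.elim (fun _ => 0) fun q =>
      ∑ ω ∈ S.Om.filter (S.cl · = q), w ω * G.eh b J k (S.F ω)))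
      fun s => pr b (G.N J) (S.X (G.N J) w) (s ∘ .inr) := by
  have g : ∀ F, GI (G.N J) (xO (G.N J) (F, 0, 0)) := fun F =>
    xO_pl _ F ▸ Br.gi_cont (Br.cont_sO _) (Br.sO_gauge _)
  have hd := (md_x (S := S.x) (b := b) (fun _ _ _ => g _) (fun _ => g _) w hr).hd
  rw [S.x_Y] at hd
  have := md_two (D := S.x.wd) (a := S.x.cen) (w := w) (n := G.N J) (c := fun U => wil b (G.N J) U)
    (e := fun ω => G.eh b J k (S.F ω)) (y := fun x U => -sO (G.N J) (S.src x) U + x.elim (fun _ => 0) fun q =>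
      ∑ ω ∈ S.Om.filter (S.cl · = q), w ω * G.eh b J k (S.F ω)) (by simp [Wx.wd, disjoint_left])
    (by simp +contextual [Wx.wd, disjoint_left, eq_comm]) Subset.rfl
    (fun ω _ => ⟨_, Wx.mem_A.2 ⟨0, rfl⟩⟩) hd fun U _ T hT => by
      obtain ⟨T, -, rfl⟩ := subset_image_iff.1 hT
      rw [← jd_exz Sum.inr_injective (hd.hb U), prod_image Sum.inr_injective.injOn]
      simp only [comp_def, exz_apply Sum.inr_injective]
      rw [pr_eq, jd_ma _ (subset_univ _), mul_comm]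
      refine congrArg _ (prod_congr rfl fun q _ => ?_)
      simp only [Ws.X, Ws.wo, Wx.wd, Ws.src, Ws.x, Wx.cen, Sum.elim_inr, Sum.inr.injEq, mul_sub,
        sum_sub_distrib, prod_image (Wx.inj_A _).injOn, Sum.elim_inl, Pi.zero_apply, add_zero]
      ring
  convert this using 2 with s
  funext U
  rw [fo, ma_wcf, sF, Br.sO_sum, mul_left_comm, ← Complex.exp_add, eq_comm, mul_left_comm,
    ← Complex.exp_add, sum_subset (s₁ := S.x.wd.B) (s₂ := S.x.wd.al) subset_union_right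
    fun x _ hx => by
      rcases x with x | x
      exacts [mul_zero _, (hx (Wx.mem_B.2 ⟨x, rfl⟩)).elim]]
  simp only [mul_add, sum_add_distrib, mul_neg, sum_neg_distrib]
  congr 2
  ring

namespace Mov

variable (M : G.Mov b J k S c C σ ρ σ' a τ) (h : G.Ok) (t : G.Tu b J) (hp : G.Pu)
include M

theorem rp : ∀ x : Ω × Fin 2 ⊕ γ, 0 < x.elim (fun _ => σ) ρ
  | .inl _ => M.pos.1
  | .inr q => M.pos.2 q

theorem pf {x : Ω × Fin 2 ⊕ γ} (hx : x ∈ S.x.wd.al) :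
    ∃ g, G.Pf J a τ (((x.elim (fun _ => σ) ρ / σ' : ℝ) : ℂ) • S.src x) g := by
  rcases mem_union.1 hx with a | a
  · obtain ⟨ω, h, a⟩ := mem_biUnion.1 a
    obtain ⟨l, rfl⟩ := Wx.mem_A.1 a
    exact (M.lt' ω h l).2.2.1
  · obtain ⟨q, rfl⟩ := Wx.mem_B.1 a
    exact M.sl q

theorem out : ∀ x y, rc (G.N J) y ∉ S.x.sup x → S.src x y = 0
  | .inl _ => M.lF _ _
  | .inr _ => M.lP _

theorem zA (ω) (e : ω ∈ S.Om) (x) (hx : x ∈ S.x.wd.A ω) :
    G.zs (S.x.sup x) J k ⊆ S.Z0 ω ∧ S.x.sup x ⊆ S.x.sup (S.x.wd.cl ω) := by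
  obtain ⟨l, rfl⟩ := Wx.mem_A.1 hx
  exact ⟨(M.lt' ω e l).2.1, (M.lt' ω e l).1⟩

include h

theorem x0_box (hω : ω ∈ S.Om) : S.X0 ω ⊆ box (G.N k / 2) :=
  (M.wd ω hω).2.2.2.1.trans (by
    rw [zs_step M.lt (G.top0 0 0)]
    exact tb_dom (h.N_odd k))

theorem geo : S.x.wd.Ok (box (G.N k / 2)) :=
  ⟨fun ω a => ⟨(M.wd ω a).2.1, (M.wd ω a).1, M.x0_box h a⟩, fun _ _ => by simp [Wx.wd, disjoint_left],
    fun _ _ _ _ e => by simp [Wx.wd, disjoint_left, e.symm], fun _ _ => Wx.mem_B.2 ⟨_, rfl⟩⟩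

theorem zW (x) (hx : x ∈ S.x.wd.al) : S.x.sup x ⊆ S.x.sup (S.x.wd.ce x) := by
  rcases mem_union.1 hx with a | a
  · obtain ⟨ω, a, e⟩ := mem_biUnion.1 a
    exact ce_A (M.geo h) a e ▸ (M.zA ω a x e).2
  · rw [ce_B (M.geo h) a]

theorem cls (hN : S.x.wd.Tr N) (j) (hk : k ≤ j) (hj : j ≤ J) : Cls (G.N j) (6 * (G.p j).D)
    (S.x.wd.ad N) S.x.wd.ce fun x => G.zs (S.x.sup x) J j := fun x hx y hy e =>
  (cls_ce (M.geo h) (fun x a => zs_mono (M.zW h x a) j hj) hN.1 (cls_B (M.cel j hk hj)) x hx y hy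
    e).mono (mul_le_mul_of_nonneg_right (by
      have : (2 : ℝ) ≤ c := by exact_mod_cast M.card
      linarith) (h.D_pos j).le) Subset.rfl Subset.rfl

theorem two (hN : S.x.wd.Tr N) (y) : ((S.x.wd.ad N).filter (S.x.wd.ce · = y)).card ≤ 2 :=
  ce_card (M.geo h) hN (fun _ _ => card_image_le) one_le_two y

/-- the flow of the subfamilies -/
theorem un (hN : S.x.wd.Tr N) : ∀ j, k ≤ j → j ≤ J → G.Fd j (G.zz b J j) (S.x.wd.ad N)
    (Sum.elim (fun _ => σ) ρ) (Sum.elim (fun _ => σ) ρ) (G.Q j ^ 329)⁻¹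
    (G.fm (S.x.wd.ad N) S.src S.x.sup b J j) (G.fr (S.x.wd.ad N) S.src b J j) ∧
      ∀ s ∈ Pd (Sum.elim (fun _ => σ) ρ),
        PU (G.p j) (G.Q j ^ 211)⁻¹ ((G.fm (S.x.wd.ad N) S.src S.x.sup b J j).ψ s) :=
  M.uo _ _ _ _ _ _ _ _ _ _ M.nm M.rp (fun _ a => M.pf (ad_sub hN.1 a)) M.out (M.cls h hN)
    (M.two h hN)

theorem top (hN : S.x.wd.Tr N) (s) (hs : s ∈ Pd (Sum.elim (fun _ => σ) ρ)) (x μ ν) :
    ‖sF (S.x.wd.ad N) S.src s x μ ν‖ ≤ G.bb J / 4 := by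
  have s0 := M.nm.s0
  have D0 := h.D_pos J
  have e : sF (S.x.wd.ad N) S.src s = sF (S.x.wd.ad N) (fun x => ((x.elim (fun _ => σ) ρ / σ' : ℝ) :
      ℂ) • S.src x) fun x => s x / ((x.elim (fun _ => σ) ρ / σ' : ℝ) : ℂ) :=
    sum_congr rfl fun x _ => by
      rw [smul_smul, div_mul_cancel₀ _ (Complex.ofReal_ne_zero.2 (div_pos (M.rp x) s0).ne')]
  have cl := M.cls h hN J M.lt.le le_rfl
  simp only [zs_top] at cl
  rw [e]
  refine (sF_le3 (σ := σ') (a := 2) (fun _ => tch_one cl (by positivity) (M.two h hN) _)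
    (fun i x a => by rw [Pi.smul_apply, M.out i x a, smul_zero]) (fun i a =>
      Ok.pf_le (M.pf (ad_sub hN.1 a)).choose_spec M.nm.t1 M.nm.t0) (fun i _ => ?_) (by positivity)
    x μ ν).trans ?_
  · rw [norm_div, Complex.norm_of_nonneg (div_pos (M.rp i) s0).le, div_le_iff₀ (div_pos (M.rp i) s0),
      mul_div_cancel₀ _ s0.ne']
    exact (hs i).le
  · have := mul_le_mul_of_nonneg_right ((h.cQ J (C := 16) (by norm_num)).trans
      (le_self_pow₀ (h.Q1 J) (show 240 ≠ 0 by norm_num))) s0.le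
    have := M.nm.sb J M.lt.le le_rfl
    push_cast
    linarith

include t hp

theorem pl (hω : ω ∈ S.Om) : (G.fm univ (S.F ω) (fun _ => ∅) b J (k + 1)).E = fun s =>
    (G.fm (S.x.wd.ad {ω}) S.src S.x.sup b J (k + 1)).E (exz (fun l => .inl (ω, l)) s) :=
  have e := fun l => a_sub (D := S.x.wd) (mem_singleton_self ω) (Wx.mem_A.2 ⟨l, rfl⟩)
  (h.fl_pull t hp le_rfl (M.un h (tr_one hω)) (Wx.inj_A ω) e (ft_se (F := S.src) (Wx.inj_A ω) e _)
    _ M.lt k.le_succ).2.2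

theorem ma2 (hω : ω ∈ S.Om) : (G.fm univ (S.F ω) (fun _ => ∅) b J (k + 1)).E =
    Jet.ma univ fun T => jd T (G.fm univ (S.F ω) (fun _ => ∅) b J (k + 1)).E := by
  rw [M.pl h t hp hω]
  exact ((M.un h (tr_one hω) _ k.le_succ M.lt).1.pull (Wx.inj_A ω) fun l =>
    a_sub (mem_singleton_self ω) (Wx.mem_A.2 ⟨l, rfl⟩)).1.ma

/-- the hypotheses of the merging -/
theorem mo (u : Ω × Fin 2 ⊕ γ → ℂ) : G.Mo S.x.wd b J (G.yo b J k S u) J k S.x.cen c C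
    (Sum.elim (fun _ => σ) ρ) (G.fo b J k S u) S.x.sup fun x => G.zs (S.x.sup x) J k := by
  have g := M.geo h
  have c1 : 1 ≤ c := one_le_two.trans M.card
  have cA : ∀ ω, (S.x.wd.A ω).card ≤ c := fun ω => card_image_le.trans M.card
  have cB : ∀ j, k ≤ j → j ≤ J → Cls (G.N j) ((2 * c + 2) * (G.p j).D) S.x.wd.B id fun x =>
      G.zs (S.x.sup x) J j := fun j a a' x hx y hy ne => (cls_B (M.cel j a a') x hx y hy ne).mono
    (mul_le_mul_of_nonneg_right (by linarith) (h.D_pos j).le) Subset.rfl Subset.rfl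
  refine ⟨M.lt, le_rfl, c1, M.C0, g, fun ω a => ⟨(M.wd ω a).2.2.1, (M.wd ω a).2.2.2.1, cA ω,
    (M.wd ω a).2.2.2.2⟩, M.zA, fun ω hω s hs => ?_, fun _ _ => ⟨Subset.rfl, Subset.rfl⟩,
    fun j a a' => cB j a.le a'.le, ⟨M.big, cls_B (M.cel k le_rfl M.lt.le)⟩,
    fun N hN j a a' => ?_, fun N hN T hT x hx y hy e => ?_, (fm_top (G := G) (A := S.x.wd.al)
      (F := S.src) (W := S.x.sup) ▸ fm_bs J le_rfl :),
    h.ft_um t M.rp g M.out (fun _ => M.top h) (M.zW h) (fun ω _ => cA ω) c1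
      (by simpa only [zs_top] using cB J M.lt.le le_rfl) le_rfl
      (by linarith [M.big, h.Q_mono M.lt.le, pow_pos (two_pos (α := ℝ)) c]), ft_loc h M.out⟩
  · have i := Wx.inj_A (γ := γ) (κ := Fin 2) ω
    have hN := (tr_one (D := S.x.wd) hω).1
    have e := fun l => a_sub (D := S.x.wd) (mem_singleton_self ω) (Wx.mem_A.2 ⟨l, rfl⟩)
    have e1 : cutS (S.x.wd.A ω) s = exz (fun l => .inl (ω, l)) fun l => s (.inl (ω, l)) :=
      funext fun x => by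
        by_cases a : x ∈ S.x.wd.A ω
        · obtain ⟨l, rfl⟩ := Wx.mem_A.1 a
          rw [exz_apply i, cutS, if_pos a]
        · rw [cutS, if_neg a, exz, extend_apply' _ _ _ fun ⟨l, e⟩ => a (Wx.mem_A.2 ⟨l, e.symm⟩)]
          rfl
    have e2 : ∀ s, (G.fw S.x.wd.al b J (G.yo b J k S u) J (k + 1)).E (exz (fun l => .inl (ω, l)) s)
        = (G.fm univ (S.F ω) (fun _ => ∅) b J (k + 1)).E s - G.eh b J k (S.F ω) * (s 0 * s 1) :=
      fun s => by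
        rw [yo, fw_sh _ M.lt, M.pl h t hp hω, fm, ← ft_cut (ad_sub hN), fw_cut (ad_sub hN) _ M.lt]
        simp only [Fy.sh, Fy.cut, exz_cut e, wcf_exz _ _ hω]
    have v := fun l => (mul_le_mul_of_nonneg_right (hs (.inl (ω, l))).le (norm_nonneg _)).trans
      (M.lt' ω hω l).2.2.2
    rw [e1, ← exz_zero (e := fun l : Fin 2 => (.inl (ω, l) : Ω × Fin 2 ⊕ γ)), e2, e2,
      M.ma2 h t hp hω, ma_tw2, ma_zero, ej_eq (mem_univ _) M.lt, ej_eq (mem_univ _) M.lt, ← eh]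
    simp only [Wx.wd, sum_image i.injOn, Fin.sum_univ_two]
    refine le_trans (le_of_eq (congrArg _ ?_)) ((norm_add_le_of_le ((norm_mul _ _).trans_le (v 0))
      ((norm_mul _ _).trans_le (v 1))).trans ?_)
    · simp only [Wx.cen, Ws.x, Sum.elim_inl, Pi.zero_apply]
      ring
    · have : (2 : ℝ) ≤ c := by exact_mod_cast M.card
      nlinarith [M.C0]
  · obtain ⟨F, P⟩ := M.un h hN j a a'
    rw [yo_cut hN.1, fw_sh _ a']
    refine ⟨?_, P⟩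
    refine (congrArg _ (funext fun s => ?_)).mp (F.sh _)
    unfold fo
    rw [tt_mul _ _ a', ma_cut _ (ad_sub hN.1), sF_cut (ad_sub hN.1), fr]
  · refine (congrArg (jd T) (funext fun s => (zero_sub _).trans (neg_one_smul ℂ _).symm)).trans
      ((jd_smul _ _ T).trans ?_)
    rw [jd_ma _ (hT.trans (ad_sub hN.1)), wcf, sum_eq_zero fun ω a => ?_, sum_eq_zero fun z a => ?_,
      sub_zero, mul_zero]
    · obtain rfl := (mem_filter.1 a).2
      exact (e (by rw [mem_singleton.1 hx, mem_singleton.1 hy])).elim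
    · obtain ⟨a', rfl⟩ := mem_filter.1 a
      exact (e (by rw [ce_A g a' hx, ce_A g a' hy])).elim

theorem ins_eq (u) (hω : ω ∈ S.Om) :
    G.ins S.x.wd b J (G.yo b J k S u) J k S.x.cen ω = G.wO b J k S ω := by
  obtain ⟨a1, a2, -⟩ := ft_se (G := G) (b := b) (J := J) (F := S.src) (W := S.x.sup) (Wx.inj_A ω)
    (fun l => ad_sub (tr_one (D := S.x.wd) hω).1 (a_sub (mem_singleton_self ω) (Wx.mem_A.2 ⟨l, rfl⟩)))
    fun _ => ∅
  exact (M.mo h t hp u).ins_can h t hp (Wx.inj_A ω) hω rfl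
    ⟨a1, a2, funext fun s => congrArg (0 - ·)
      (wcf_exz (fun ω => G.eh b J k (S.F ω)) u hω s).symm⟩

end Mov

end Gl

end Pool.Agent.Lib.MP_7f377f_mp.RG.Q4.En
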