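import Pool.Agent.Lib.MP_7f377f_mp.G.S23N2
import Pool.Agent.Lib.MP_7f377f_mp.G.NsB0

/-! Words of two overlapping letters: the class of the words. -/

noncomputable section

open Pool.Agent.Lib.MP_7f377f_mp.Jet

set_option linter.unusedSectionVars false
variable [Pool.Agent.Lib.MP_7f377f_mp.GD]

namespace Pool.Agent.Lib.MP_7f377f_mp.RG.Q4.En.Gl

open Finset Real Sg Br YM7 Ob Pos TG
open Weak (Site corner)
open scoped Classical

attribute [local irreducible] box tb tau rc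

variable {G : Gl} {b a C Δ σ ν r N : ℝ} {J k l n' c ρ : ℕ} [NeZero (G.N J)] [NeZero n'] {P : Grd}
  {α γ : Type} [Fintype α] [Fintype γ] [DecidableEq γ] {Λ : Lwd (G.N J) α (Fin 2)}
  {g : Site 4 (G.N J) → ℝ}

theorem pf_sc (hg : Lqq a g) (a0 : 0 < a) (r0 : 0 < r) (hσ : r * |ν| ≤ σ) (σ0 : 0 < σ) :
    ∃ f, G.Pf J (4 * a) (2 * a) (((r / σ : ℝ) : ℂ) • symF (sy fun x => ν * g x)) f := by
  obtain ⟨p1, p2, p3⟩ := Ok.lip_sy (G := G) (J := J) (ν := r / σ * ν) (x := 1) hg a0 (by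
    rw [abs_mul, abs_of_pos (div_pos r0 σ0), div_mul_eq_mul_div, div_le_one σ0]; exact hσ)
  have e : ((r / σ : ℝ) : ℂ) • symF (sy fun x => ν * g x) = symF (sy fun x => r / σ * ν * g x) := by
    funext x μ μ'
    simp only [symF, sy, Pi.smul_apply, smul_eq_mul]
    push_cast
    ring
  rw [one_mul, mul_comm a] at p1 p3
  exact ⟨_, p1, p2, e ▸ p3⟩

theorem uk_aw {α : γ → Type} [∀ q, Fintype (α q)] (Λ : ∀ q, Lwd (G.N J) (α q) (Fin 2)) (μ ν : γ → ℝ)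
    (φ : γ → Site 4 (G.N J) → ℝ) (q : γ) :
    G.uk b J k (G.Kov b J k n' P (Λ q)) (μ q) (ν q) (φ q) =
      G.tv ((G.aw b J k n' P Λ ν φ ρ).P q) b J k + (0, ∑ ω ∈ (G.aw b J k n' P Λ ν φ ρ).Om.filter
        ((G.aw b J k n' P Λ ν φ ρ).cl · = q), ((μ ω.1 * φ ω.1 (corner P.s ω.2.1) *
          (Λ ω.1).w ω.2.2 : ℝ) : ℂ) • G.wO b J k (G.aw b J k n' P Λ ν φ ρ) ω) :=
  congrArg₂ _ rfl (congrArg _ (sum_sig _ (fun ω => ((μ ω.1 * φ ω.1 (corner P.s ω.2.1) *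
    (Λ ω.1).w ω.2.2 : ℝ) : ℂ) • G.wO b J k (G.aw b J k n' P Λ ν φ ρ) ω)
    (fun ω u => by simp [not_not.1 u]) q).symm)

namespace Ok

variable (h : G.Ok)
include h

theorem sup_lv (W : G.Wv b J k P a C Λ) (ω : α) (i : Fin 2) (v : Site 4 (G.N J)) :
    sup (ltv (Λ.g ω i) v) ⊆ tb (G.N J) (P.R + 2) {Fi.vl v} := fun y hy => by
  obtain ⟨μ, ν, u⟩ := mem_sup hy
  obtain ⟨z, z1, z2⟩ := TG.sy_near u
  refine mem_tb_single.2 ⟨rc_eq (h.N_odd J) (mem_filter.1 hy).1, .trans (near_iff.2 fun l => ?_) z1⟩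
  rw [Fi.cst_vl]
  exact W.sup ω i _ (neg_ne_zero.1 z2) l

variable (V : G.Gv b J k n' P ρ a c C)
include V

theorem zs_lv (W : G.Wv b J k P a C Λ) (ω : Site 4 n' × α) (i : Fin 2) :
    G.zs ((G.gwT b J k n' P Λ).V ω i) J k ⊆ (G.gwT b J k n' P Λ).Z0 ω := by
  have K := V.gk
  have r : 0 < G.rt J k := pow_pos three_pos _
  have a1 : (G.gwT b J k n' P Λ).V ω i ⊆
      tb (G.N J) (P.R + 1 + G.rt J k) {(G.rt J k : ℤ) • bkp P.t ω.1} := fun y hy =>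
    have e := mem_tb_single.1 (h.sup_lv W _ _ _ hy)
    mem_tb_single.2 ⟨e.1, ((h.near_cor K ω.1).trans e.2).mono (by omega)⟩
  obtain ⟨y, a2⟩ := h.zs_rad (i := J) (X := tb (G.N J) (P.R + 1 + G.rt J k)
    {(G.rt J k : ℤ) • bkp P.t ω.1}) Subset.rfl k K.lt.le
  have a3 := nearT_rc_right.1 (mem_tb_single.1 (a2 (h.mem_zs k K.lt.le (bkp P.t ω.1)
    (mem_tb_single.2 ⟨rc_rc _ _, nearT_rc_right.2 (nearT.refl _ _ _)⟩)))).2
  intro z hz
  have a4 := mem_tb_single.1 (a2 (zs_mono a1 k K.lt.le hz))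
  refine mem_tb_single.2 ⟨a4.1, (a3.symm.trans a4.2).mono ?_⟩
  have := K.rad
  rw [Nat.add_div_right _ r, show (G.p k).R = 4 * G.L k ^ G.K0 from rfl]
  omega

theorem nov_v (hl : l ≤ k + 1) : G.Nov J k (max (G.sg l) (G.sg (k + 1))) (4 * a) (2 * a) := by
  have a0 := V.gk.a0
  have s : ∀ l j, l ≤ k + 1 → k ≤ j → G.Q j ^ 240 * G.sg l ≤ G.bb j := fun l j h1 h2 => by
    rcases le_or_gt l j with e | e
    · exact h.sg_bb e le_rfl
    obtain rfl : l = j + 1 := by omega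
    have q := h.Q0 j
    have b0 := h.b0 j
    rw [sg, ← mul_div_assoc, div_le_iff₀ (pow_pos (h.Q0 _) _)]
    calc _ ≤ G.Q j ^ 240 * (1001 / 1000 * G.bb j) := by gcongr; exact h.b_succ j
      _ ≤ G.bb j * G.Q j ^ 1200 := by
        nlinarith [mul_le_mul_of_nonneg_left (h.qpw j (show 240 < 1200 by norm_num)) b0.le,
          mul_pos b0 (pow_pos q 240)]
      _ ≤ _ := by gcongr; exact h.Q_mono j.le_succ
  refine ⟨lt_max_of_lt_left (h.sg0 l), fun j h1 _ => ?_, by linarith, by linarith [V.a1],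
    by linarith, V.a2⟩
  rw [mul_max_of_nonneg _ _ (pow_pos (h.Q0 j) _).le]
  exact max_le (s _ j hl h1) (s _ j le_rfl h1)

theorem pf_gw (W : G.Wv b J k P a C Λ) (hσ : G.sg (k + 1) ≤ σ) (ω : Site 4 n' × α) (i : Fin 2) :
    ∃ f, G.Pf J (4 * a) (2 * a) (((G.sg (k + 1) / σ : ℝ) : ℂ) • (G.gwT b J k n' P Λ).F ω i) f := by
  have := pf_sc (lqq_sub (W.lp ω.2 i) (corner P.s ω.1)) (ν := -1) V.gk.a0 (h.sg0 (k + 1))
    (by simpa) ((h.sg0 _).trans_le hσ)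
  simp only [neg_one_mul] at this
  exact this

theorem mv_gw (W : G.Wv b J k P a C Λ) : G.Mov b J k (G.gwT b J k n' P Λ) c C (G.sg (k + 1))
    (fun _ => 1) (max (G.sg (k + 1)) (G.sg (k + 1))) (4 * a) (2 * a) := by
  have K := V.gk
  have a0 := K.a0
  refine ⟨K.lt, K.card, K.C0, K.big, ⟨h.sg_pos _, fun _ => one_pos⟩, fun ω _ => ?_,
    fun ω l x => symF_out (h.N_odd J), fun _ _ _ => rfl, fun ω _ l => ⟨filter_subset _ _,
      h.zs_lv V W ω l, h.pf_gw V W (le_max_left _ _) ω l, W.cen _ _ _⟩, fun _ => ⟨0,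
      fun _ _ _ _ => by simp; positivity, by simp,
      fun _ _ _ => by simpa [gwT] using a0.le⟩, fun _ _ _ _ _ _ _ e => (e rfl).elim,
    h.nov_v V le_rfl, V.uo⟩
  obtain ⟨a1, a2, a3, a4⟩ := h.wd_gw (b := b) (Λ := Λ) K ω
  refine ⟨a1, a2, a3, fun y hy => ?_, a4⟩
  rw [← (mem_tb_single.1 hy).1]
  exact h.mem_zs k K.lt.le y (rc_mem (h.N_odd J) _)

theorem mv_aw {α : γ → Type} [∀ q, Fintype (α q)] {Λ : ∀ q, Lwd (G.N J) (α q) (Fin 2)}
    {ν r : γ → ℝ} {φ : γ → Site 4 (G.N J) → ℝ} (W : ∀ q, G.Wv b J k P a C (Λ q))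
    (hφ : ∀ q, Lqq a (φ q)) (r0 : ∀ q, 0 < r q) (hr : ∀ q, r q * |ν q| ≤ G.sg l) (hl : l ≤ k)
    (hs : Cls (G.N J) Δ univ id fun q => sup (fat ρ (φ q)))
    (hΔ : (40 * c + 106) * ((G.L k : ℝ) ^ G.K0 * G.rt J k) ≤ Δ) :
    G.Mov b J k (G.aw b J k n' P Λ ν φ ρ) c C (G.sg (k + 1)) r (max (G.sg l) (G.sg (k + 1)))
      (4 * a) (2 * a) := by
  have K := V.gk
  have hρ := V.rad
  have r1 : 0 < G.rt J k := pow_pos three_pos _
  have v : ∀ ω ∈ (G.aw b J k n' P Λ ν φ ρ).Om,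
      φ ω.1 (Fi.cst _ (Fi.vl (corner P.s ω.2.1 : Site 4 (G.N J)))) ≠ 0 := fun ω e => by
    rw [Fi.cst_vl]; exact (mem_filter.1 e).2
  rw [mul_add_one] at hρ
  refine ⟨K.lt, K.card, K.C0, K.big, ⟨h.sg_pos _, r0⟩, fun ω e => ?_,
    fun ω l x => symF_out (h.N_odd J), fun q x u => ?_, fun ω e l => ⟨fun y hy => ?_,
      h.zs_lv V (W _) ω.2 l, h.pf_gw V (W _) (le_max_right _ _) ω.2 l, (W _).cen _ _ _⟩,
    fun q => ?_, fun j h1 h2 => ?_, h.nov_v V (hl.trans k.le_succ), V.uo⟩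
  · obtain ⟨a1, a2, a3, a4⟩ := h.wd_gw (b := b) (Λ := Λ ω.1) K ω.2
    refine ⟨a1, a2, a3, fun y hy => ?_, a4⟩
    obtain ⟨y1, y2⟩ := mem_tb_single.1 hy
    have := near_smul (G.rt J k) y2
    rw [h.rt_N K.lt.le] at this
    rw [← y1]
    exact h.mem_zs k K.lt.le y (h.mem_fat (v ω e)
      (((h.near_cor K _).symm.trans this).mono (by omega)))
  · funext μ μ'
    by_contra a
    obtain ⟨z, z1, z2⟩ := TG.sy_near (g := fun x => -(ν q * φ q x)) (x := x)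
      (μ := min μ μ') (ν := max μ μ') fun e => a (Complex.ofReal_eq_zero.2 e)
    exact u (h.mem_fat (right_ne_zero_of_mul (neg_ne_zero.1 z2)) (z1.mono (by omega)))
  · obtain ⟨y1, y2⟩ := mem_tb_single.1 (h.sup_lv (W _) _ _ _ hy)
    rw [← y1]
    exact h.mem_fat (v ω e) (y2.mono (by omega))
  · have := pf_sc (hφ q) (ν := -ν q) K.a0 (r0 q) (by
      rw [abs_neg]; exact (hr q).trans (le_max_left _ (G.sg (k + 1)))) (lt_max_of_lt_left (h.sg0 l))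
    simp only [neg_mul] at this
    exact this
  · exact h.zs_cls hs (by positivity) (by linarith) h1 h2

variable (t : G.Tu b J) (hp : G.Pu)
include t hp

/-- the words at all points of the grid -/
theorem tx_v (W : G.Wv b J k P a C Λ) (hN : G.Nw J k P c C Λ N) :
    G.Tx b J k N N (0, G.Kov b J k n' P Λ 1) (G.tt (fun U => wil b (G.N J) U *
      smr n' P.s (Λ.ob (Fi.tr haar) b) 1 (Fi.rs (G.N J) U)) J k) := by
  have K := V.gk
  obtain ⟨w, w0, w1, w2⟩ := h.wt_gw (b := b) K hN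
  rw [Fintype.card_fin] at w1
  have := (h.mv_gw V W).tw h t hp (w := fun ω => Λ.w ω.2) (fun _ => rfl)
    (fun _ _ _ _ _ => Complex.ofReal_im _) (fun _ _ => Complex.ofReal_im _) (fun v => by
      obtain ⟨u, u1, u2⟩ := h.inv_gw (b := b) (Λ := Λ) K v
      exact ⟨u, by simpa [gwT] using u1, fun ω _ => ⟨by rw [(u2 ω).1], by simp only [gwT, (u2 ω).1],
        (u2 ω).2⟩⟩) w2 w0 hN.1.le w1.le
  rw [h.tt_eq (g := fun U => wil b (G.N J) U * ∑ ω ∈ (G.gwT b J k n' P Λ).Om,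
    (Λ.w ω.2 : ℂ) * (G.gwT b J k n' P Λ).wo (G.N J) ω U) (fun U hU => by
      simp only [h.wo_gw _ hU, smr, Lwd.ob]
      simp [gwT, Fintype.sum_prod_type]) K.lt]
  simp only [Kov, Pi.one_apply, one_mul]
  exact this

end Ok

theorem Ok.am_rv (h : G.Ok) (t : G.Tu b J) (hp : G.Pu) (V : G.Gv b J k n' P ρ a c C) :
    G.Am b J k n' P.s ρ a (G.Rv b J k n' P a c C) := by
  have : (Fi.tr haar).IsHaarMeasure := (inferInstance : haar.IsHaarMeasure)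
  have K := V.gk
  have q0 := h.Q0 k
  have kJ := K.lt
  have σ0 := pow_pos (h.sg0 (k + 1)) 2
  refine ⟨kJ, K.hn, ⟨_, _, 1, Empty, inferInstance, ⟨0, 0, 0⟩,
    ⟨(·.elim), (·.elim), (·.elim)⟩, ⟨one_pos, by simpa using σ0.le⟩, rfl, rfl⟩, ?_, ?_, ?_,
    fun γ _ _ B I N μ ν r φ l hl H hs => ?_⟩
  · rintro _ _ N ⟨α, _, Λ, W, hN, rfl, rfl⟩
    exact ⟨hN.1, by simp [Kov], cont_wob _, dl_ob _ _ W.sup (by have := V.rad; omega)⟩
  · rintro _ _ N ⟨α, _, Λ, W, hN, rfl, rfl⟩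
    exact h.tx_v V t hp W hN
  · rintro _ _ N ⟨α, _, Λ, W, hN, rfl, rfl⟩ φ a a0 hL
    obtain ⟨w, w0, w1, w2⟩ := h.wt_gw (b := b) K hN
    rw [Fintype.card_fin] at w1
    have r0 := rt_pos (G := G) J k
    simpa [Kov, gwT] using (h.mv_gw V W).slow h t hp (w := fun ω => Λ.w ω.2) (x := 0)
      (E := G.Q k ^ 2 * (G.rt J k * a) * N) (φ := fun ω => (φ (corner P.s ω.1) : ℝ))
      (by simpa using w2) w0 le_rfl (by positivity) (h.fd_lip hL k kJ.le) (fun ω _ => by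
        obtain ⟨z, z1, z2⟩ := h.near_bkp K ω.1
        refine ⟨z, tb_mono (by rfl) (Nat.zero_le _) z1, ?_⟩
        have := hL _ _ _ z2.symm
        simp only [Fi.cst_vl] at this
        exact this.trans ((mul_comm _ _).le.trans (le_mul_of_one_le_right (by positivity) (h.Q1 k))))
      (le_of_eq (by linear_combination (G.Q k ^ 2 * (G.rt J k * a)) * w1))
  choose α _ Λ W hN e1 e2 using fun q => (H q).1
  have D0 : ∀ j, 0 < (G.L j : ℝ) ^ G.K0 * G.rt J j := fun j =>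
    mul_pos (pow_pos (by linarith [h.L1 j]) _) (rt_pos J j)
  have d1 : 66 * ((G.L l : ℝ) ^ G.K0 * G.rt J l) ≤ G.dl J l := by exact_mod_cast Ok.dl_ge
  have s0 := h.sg0 l
  have b0 := h.b0 k
  have c0 := h.cM0 k c C
  have t0 : 0 < P.t := (h.gk_n K).2.2
  have w0 : (0 : ℝ) < ((2 * (P.j * (G.p k).D) + 1) * P.t : ℕ) ^ 4 := by positivity
  obtain ⟨Y, y1, y2, y3, y4, y5⟩ := (h.mv_aw V W (fun q => (H q).2.1) (fun q => (H q).2.2.1)
    (fun q => (H q).2.2.2.1) hl.le hs (le_trans (mul_le_mul_of_nonneg_right (by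
      have : (2 * c + 3 : ℝ) ≤ G.L k := by exact_mod_cast V.big
      linarith [h.L1 k]) (D0 k).le) (h.dl_le hl kJ.le))).merge h t hp
    (h.cnt_aw (μ := μ) K (fun q => (H q).2.1.1) (fun q => (H q).2.2.1.le) (by linarith [D0 l]) hs
      (M := G.sg l * G.sg (k + 1) ^ 2 / (4 * G.cM k c C *
        ((2 * (P.j * (G.p k).D) + 1) * P.t : ℕ) ^ 4 * G.Q k ^ 287 * G.bb k)) (by positivity)
      fun q => by
        have a1 := mul_le_mul_of_nonneg_left (hN q).2 (show 0 ≤ |μ q| * r q * G.Q k ^ 7 by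
          have := (H q).2.2.1; positivity)
        rw [Fintype.card_fin] at a1
        rw [le_div_iff₀ (by positivity)]
        nlinarith only [a1, mul_le_mul_of_nonneg_right (H q).2.2.2.2 σ0.le]) (by
    have := mul_le_mul_of_nonneg_right (h.sg_bb hl.le (i := 43) (by norm_num)) σ0.le
    refine le_trans (b := G.Q k ^ 43 * G.sg l * G.sg (k + 1) ^ 2 / (4 * G.bb k))
      (le_of_eq (by field_simp)) ?_
    rw [div_le_iff₀ (by positivity)]
    nlinarith only [this, mul_pos b0 σ0])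
  refine ⟨_, Y, ?_, y1, y2, y3, y4, fun q => ?_⟩
  · simpa only [e1] using h.xo_aw (b := b) (k := k) (ρ := ρ) Λ μ ν φ
  · rw [y5, e2, uk_aw (ρ := ρ) Λ μ ν φ q]

end Pool.Agent.Lib.MP_7f377f_mp.RG.Q4.En.Gl
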