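import Pool.Agent.Lib.MP_7f377f_mp.G.S23R

/-! Test sources with individual scales. -/

noncomputable section

set_option linter.unusedSectionVars false
variable [Pool.Agent.Lib.MP_7f377f_mp.GD]

namespace Pool.Agent.Lib.MP_7f377f_mp.YM7

open MeasureTheory Weak

variable {n m lam k : ℕ} {κ : Type} {f : κ → R4 → ℝ} {Λ d τ δ : κ → ℝ} {a R R' : ℝ}
  {v : Site 4 n} {S : κ → κ → Prop} {D : κ → κ → ℕ}

/-- the constants of one test function -/
abbrev Tf1 (f : R4 → ℝ) (Λ : ℝ) : Prop := Tf (fun _ : Fin 1 => f) Λ 1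

theorem t1_of {f : R4 → ℝ} {Λ : ℝ} (h1 : 1 ≤ Λ) (h2 : ∀ y, f y ≠ 0 → ∀ l, |y l| ≤ Λ)
    (h3 : ∀ y, |f y| ≤ Λ) (h4 : ∀ y z, |f y - f z| ≤ Λ * dist y z) : Tf1 f Λ :=
  ⟨h1, one_pos, fun _ => h2, fun _ => h3, fun _ => h4, fun _ _ e => (e (Subsingleton.elim _ _)).elim⟩

theorem Tf.t1 {f : Fin k → R4 → ℝ} {Λ δ : ℝ} (H : Tf f Λ δ) (i : Fin k) : Tf1 (f i) Λ :=
  t1_of H.one (H.cube i) (H.bd i) (H.lip i)

/-- the sources with individual normalisations and relative lattice spacings -/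
def tsv (Λ : κ → ℝ) (f : κ → R4 → ℝ) (s : κ → ℝ) (v : Site 4 n) (i : κ) : Src n :=
  tsr (Λ i) (fun _ : Fin 1 => f i) (s i) v 0

/-- a lattice point -/
def lpt (a : ℝ) (v : Fin 4 → ℤ) : R4 := WithLp.toLp 2 fun l => a * v l

theorem xp_div (a d : ℝ) (x : Site 4 n) : xp (a / d) x = d⁻¹ • xp a x := by
  ext l
  simp [xp]
  ring

variable [NeZero n]

theorem xp_ctr {f : R4 → ℝ} {v : Fin 4 → ℤ} (a0 : 0 < a) (hf : ∀ y, f y ≠ 0 → ∀ l, |y l| ≤ R)
    (hv : ∀ l, |a * v l| ≤ R') (hn : 2 * (R + R') < a * n) (x : Site 4 n) :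
    f (xp a (x + fun l => (v l : ZMod n))) = f (xp a x + lpt a v) := by
  have k : ∀ t : ℤ, |a * t| ≤ R + R' → |t| * 2 < n := fun t ht => by
    rw [abs_mul, abs_of_pos a0] at ht
    have : |(t : ℝ)| * 2 < n := lt_of_mul_lt_mul_left (by linarith) a0.le
    exact_mod_cast this
  by_contra e
  refine e (congrArg f ?_)
  ext l
  have R0 := (abs_nonneg _).trans (hv l)
  simp only [xp, lpt, Pi.add_apply, PiLp.add_apply, ← mul_add]
  congr 1
  by_cases u : f (xp a x + lpt a v) = 0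
  · have := hf _ (fun z => e (z.trans u.symm)) l
    simp only [xp, Pi.add_apply] at this
    have w := vma_add (x := x l + (v l : ZMod n)) (s := -v l) (k _ (by
      push_cast
      rw [mul_add, mul_neg]
      exact (abs_add_le _ _).trans (add_le_add this (by rw [abs_neg]; exact hv l))))
    rw [Int.cast_neg, add_neg_cancel_right] at w
    rw [w]
    push_cast
    ring
  · have := hf _ u l
    simp only [xp, lpt, PiLp.add_apply, ← mul_add] at this
    exact_mod_cast vma_add (k _ (by push_cast; linarith))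

/-- the sources are admissible -/
theorem clb_tsv {c : Site 4 m} (H : ∀ i, Tf1 (f i) (Λ i)) (a0 : 0 < a) (ad : ∀ i, a ≤ d i)
    (δ0 : ∀ i, 0 < δ i) (hτ : ∀ i, 0 ≤ τ i) (hl : lam ≤ n) (hn : ∀ i, 4 * (d i * Λ i) < a * n)
    (hv : ∀ i l, δ i + d i * Λ i ≤ a * ((v - corner lam c : Site 4 n) l).val ∧
      a * ((v - corner lam c : Site 4 n) l).val ≤ a * lam - δ i - d i * Λ i)
    (hS : ∀ i j, S i j → ∀ y z, f i ((d i)⁻¹ • y) ≠ 0 → f j ((d j)⁻¹ • z) ≠ 0 →
      ∃ l, D i j * a ≤ |y l - z l|) :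
    Clb a (fun i => a / d i) τ δ lam S D c (tsv Λ f (fun i => a / d i) v) := by
  have d0 := fun i => a0.trans_le (ad i)
  refine ⟨fun i => ?_, fun i j s => ?_⟩
  · have := d0 i
    have e : a / (a / d i) = d i := div_div_cancel₀ a0.ne'
    have := ((H i).cla (c := c) (D := 0) (v := v) (div_pos a0 (d0 i)) a0 (δ0 i) (hτ i) hl (by
      rw [div_mul_eq_mul_div, lt_div_iff₀ (d0 i)]; linarith [hn i]) ((div_le_one (d0 i)).2 (ad i))
      (by simp) (by rw [e]; exact hv i)).1 0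
    exact this
  · have p : ∀ i, 0 < Λ i := fun i => one_pos.trans_le (H i).one
    have q : ∀ i y, f i ((d i)⁻¹ • y) ≠ 0 → ∀ l, |y l| ≤ d i * Λ i := fun i y e l => by
      have := (H i).cube 0 _ e l
      rwa [PiLp.smul_apply, smul_eq_mul, abs_mul, abs_inv, abs_of_pos (d0 i),
        inv_mul_le_iff₀ (d0 i)] at this
    intro t t' e x μ ν y μ' ν' h h'
    have k : ∀ t, ∀ x μ ν, tsv Λ f (fun i => a / d i) v t x μ ν ≠ 0 →
        f t ((d t)⁻¹ • xp a (x - v)) ≠ 0 := fun t x μ ν h => xp_div a (d t) _ ▸ right_ne_zero_of_mul h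
    have b1 := k _ _ _ _ h
    have b2 := k _ _ _ _ h'
    obtain ⟨l, hl⟩ : ∃ l, D i j * a ≤ |xp a (x - v) l - xp a (y - v) l| := by
      cases t <;> cases t'
      · exact (e rfl).elim
      · simpa only [abs_sub_comm] using hS i j s _ _ b2 b1
      · exact hS i j s _ _ b1 b2
      · exact (e rfl).elim
    have a1 := q _ _ b1 l
    have a2 := q _ _ b2 l
    have a3 := hn (cond t i j)
    have a4 := hn (cond t' i j)
    simp only [xp, ← mul_sub, abs_mul, abs_of_pos a0] at hl a1 a2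
    have c : |((x - v) l).valMinAbs + -((y - v) l).valMinAbs| * 2 < n := by
      have : |(((x - v) l).valMinAbs - ((y - v) l).valMinAbs : ℝ)| * 2 < n :=
        lt_of_mul_lt_mul_left (by
          nlinarith [abs_sub (((x - v) l).valMinAbs : ℝ) ((y - v) l).valMinAbs]) a0.le
      exact_mod_cast this
    have d := vma_add c
    rw [Int.cast_neg, ZMod.coe_valMinAbs, show (x - v) l + -(y - v) l = (x - y) l by simp] at d
    refine ⟨l, ?_⟩
    have : (D i j : ℝ) ≤ |((x - y) l).valMinAbs| := by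
      rw [d]; push_cast; exact le_of_mul_le_mul_left (by rw [← sub_eq_add_neg]; linarith) a0
    rw [← Int.natCast_natAbs] at this
    exact_mod_cast this

variable [MeasurableSpace SU2] [BorelSpace SU2] (h : Measure SU2) [h.IsHaarMeasure]
  [IsProbabilityMeasure h] (b : ℝ) {f : Fin k → R4 → ℝ}

theorem corr_tsv {Λ : Fin k → ℝ} (hΛ : ∀ i, Λ i ≠ 0) (a : ℝ) (d : Fin k → ℝ) (v : Site 4 n) :
    corr h b n a (fun i y => f i ((d i)⁻¹ • y)) =
      (∏ i, Λ i) * gcorr h b n (tsv Λ f (fun i => a / d i) v) := by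
  have e := (gM (n := n) h b k).map_smul_univ Λ (tsv Λ f (fun i => a / d i) v)
  rw [gM_apply, gM_apply, smul_eq_mul] at e
  rw [← e, corr_eq, ← gcorr_shift h b _ v]
  congr 1
  ext i x μ ν
  simp only [tsv, tsr, Pi.smul_apply, smul_eq_mul]
  rw [mul_inv_cancel_left₀ (hΛ i), xp_div]
  rfl

/-- translation by a lattice point -/
theorem corr_ctr {v : Fin 4 → ℤ} (a0 : 0 < a) (hf : ∀ i y, f i y ≠ 0 → ∀ l, |y l| ≤ R)
    (hv : ∀ l, |a * v l| ≤ R') (hn : 2 * (R + R') < a * n) :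
    corr h b n a f = corr h b n a fun i y => f i (y + lpt a v) := by
  rw [corr_eq, corr_eq, ← gcorr_shift h b _ (-fun l => (v l : ZMod n))]
  congr 1
  ext i x μ ν
  rw [sub_neg_eq_add]
  exact xp_ctr a0 (hf i) hv hn x

end Pool.Agent.Lib.MP_7f377f_mp.YM7

namespace Pool.Agent.Lib.MP_7f377f_mp.RG.Q4.Br

open YM7 Fi En.Pos

variable {n m lam : ℕ} [NeZero n] [NeZero m] {κ : Type} {a δ0 : ℝ} {a' τ δ : κ → ℝ}
  {S : κ → κ → Prop} {D : κ → κ → ℕ} {c : Weak.Site 4 m}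

/-- sources near the middle of the cell at the origin -/
theorem clb_mid {f : κ → R4 → ℝ} {Λ d ρ : κ → ℝ} {u : ℕ} (H : ∀ i, Tf1 (f i) (Λ i)) (a0 : 0 < a)
    (ad : ∀ i, a ≤ d i) (hτ : ∀ i, 0 ≤ τ i) (hl : lam ≤ n) (hn : ∀ i, 4 * (d i * Λ i) < a * n)
    (hρ : ∀ i, ρ i < a * lam / 2) (hu : ∀ i, |a * u - a * lam / 2| + d i * Λ i ≤ ρ i)
    (hS : ∀ i j, S i j → ∀ y z, f i ((d i)⁻¹ • y) ≠ 0 → f j ((d j)⁻¹ • z) ≠ 0 →
      ∃ l, D i j * a ≤ |y l - z l|) :
    Clb (m := m) a (fun i => a / d i) τ (fun i => a * lam / 2 - ρ i) lam S D 0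
      (tsv Λ f (fun i => a / d i) (cst n fun _ => u)) := by
  refine clb_tsv H a0 ad (fun i => by linarith [hρ i]) hτ hl hn (fun i l => ?_) hS
  have p : 0 ≤ d i * Λ i := by
    have := (H i).one
    have := a0.trans_le (ad i)
    positivity
  obtain ⟨b1, b2⟩ := abs_le.1 (le_sub_iff_add_le.2 (hu i))
  have : (u : ℝ) < lam := lt_of_mul_lt_mul_left (by linarith [hρ i]) a0.le
  simp only [cst, Weak.corner, Pi.sub_apply, Pi.zero_apply, ZMod.val_zero, mul_zero, Nat.cast_zero,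
    sub_zero, Int.cast_natCast, ZMod.val_cast_of_lt ((Nat.cast_lt.1 this).trans_le hl)]
  constructor <;> linarith

theorem clb_sep {F : κ → Src n} (h : Clb a a' τ δ lam S D c F) {i j : κ} (s : S i j) :
    Sg.Sep n (D i j) (sup (F i)) (sup (F j)) := sep_sp (h.2 i j s) (i := true) (j := false) nofun

theorem clb_ball {F : κ → Src n} (h : Clb a a' τ δ lam S D c F) (hn : Odd n) (a0 : 0 < a) {i : κ}
    {R : ℕ} (hR : a * lam / 2 - δ i + a ≤ a * R) : sup (F i) ⊆ tb n R {mid lam c} :=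
  sup_inT hn a0 (h.1 i).2 hR

variable {F : Weak.Site 4 m → κ → Src n} (hn : n = m * lam) (a0 : 0 < a) (hδ : ∀ i, δ0 ≤ δ i)
  (h : ∀ c, Clb a a' τ δ lam S D c (F c)) (A : Finset (Weak.Site 4 m × κ))
include hn a0 hδ h

/-- different cells are separated -/
theorem clb_cell : Sg.Cls n (2 * δ0 / a) A Prod.fst
    fun p : Weak.Site 4 m × κ => sup (F p.1 p.2) :=
  have k : ∀ c i, YM7.InT a δ0 lam c (F c i) := fun c i x μ ν e l =>
    (((h c).1 i).2 x μ ν e l).imp (hδ i).trans fun u => u.trans (by linarith [hδ i])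
  fun _ _ _ _ e => sep_cell hn a0 (k _ _) (k _ _) e

/-- the sources with indices in `A` are pairwise separated -/
theorem clb_id {D0 : ℝ} (hD : D0 ≤ 2 * δ0 / a) (hA : ∀ p ∈ A, ∀ q ∈ A, p.2 ≠ q.2 →
    S p.2 q.2 ∧ D0 ≤ D p.2 q.2) : Sg.Cls n D0 A id fun p : Weak.Site 4 m × κ => sup (F p.1 p.2) :=
  fun ⟨c, i⟩ u ⟨c', j⟩ u' e => by
    rcases eq_or_ne c c' with rfl | k
    · have := hA _ u _ u' fun k => e (Prod.ext rfl k)
      exact (clb_sep (h c) this.1).mono this.2 (by rfl) (by rfl)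
    · exact (clb_cell hn a0 hδ h A _ u _ u' k).mono hD (by rfl) (by rfl)

end Pool.Agent.Lib.MP_7f377f_mp.RG.Q4.Br
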