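import Pool.Agent.Lib.MP_7f377f_mp.G.S23N0
import Pool.Agent.Lib.MP_7f377f_mp.G.S23N7
import Pool.Agent.Lib.MP_7f377f_mp.G.S23R2

/-! Words of two overlapping letters: the level of the merging. -/

noncomputable section

set_option linter.unusedSectionVars false
variable [Pool.Agent.Lib.MP_7f377f_mp.GD]

namespace Pool.Agent.Lib.MP_7f377f_mp.RG.Q4.En.Gl

open Filter Topology Finset Real YM7 Ob Pur

variable {G : Gl} {c j J k e i s t q u : ℕ} {Λ d a b : ℝ} {v : Fin 2 → R4 → ℝ}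

theorem Ok.dk_one (h : G.Ok) (V : G.Lv c j (k + 1) Λ 1 d) : 1 ≤ d * 3 ^ G.e k := by
  have k0 : (100 + 20) * (G.Kt + 1) ≤ G.K0 := (h.sl_all 0 (G.top0 0 0)).nu.K0_ge
  have L := h.L1 k
  have L' : (G.L k : ℝ) ≤ G.L (k + 1) := Nat.cast_le.2 (h.L_mono k.le_succ)
  have a := V.lo
  have b : (G.L (k + 1) : ℝ) ≤ G.L (k + 1) ^ G.K0 := le_self_pow₀ (by linarith) (by omega)
  rw [one_mul, h.e_succ, mul_left_comm] at a
  exact le_of_mul_le_mul_left (by linarith) (show (0 : ℝ) < G.L k by linarith)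

theorem Ok.rv_of (h : G.Ok) [NeZero (G.N J)] [NeZero q] {n' : ℕ} [NeZero n']
    (V : G.Lv 1 j (k + 1) (Λ + 2) 1 d) (hl : k + 1 < J) (ha : a * 3 ^ G.e J = 1) (T : G.Tu b J)
    (hp : G.Pu) (H : ∀ i, Tf1 (v i) Λ) (hn : G.N j = q * u) (hu : 3 ^ G.e j ≤ 3 * u) (q1 : 1 < q)
    (he : G.e k ≤ e) (hΛ : 2 * Λ ≤ G.Q k) (hi : (40 * i + 1 : ℝ) ≤ G.L k)
    (hC : 4 * exp (c * (1 + G.mr j u 1) + c + 2) ≤ G.Q k) (ht : t = 3 ^ (e - G.e k)) :
    ∃ I, G.Rv b J k n' ⟨s, t, ⌊Λ / (a / d)⌋₊, i⟩ (a / (2 * d)) c (1 + G.mr j u 1)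
      (wd2 (Fi.tr haar) b a d (((3 ^ e)⁻¹ / d) ^ 4) v) I (G.Q k ^ (2 * c + 5091) / G.bb k) := by
  have a0 := Ok.a_pos ha
  have d0 := V.d0
  have Λ1 := (H 0).one
  have s0 := div_pos a0 d0
  have a6 : a / (2 * d) = 2⁻¹ * (a / d) := by rw [mul_comm, ← div_div, div_eq_inv_mul]
  have a1 := Ok.d_le V (by linarith) one_pos
  have a2 := (h.s_le V hl ha).1
  have a3 : 1 ≤ a * G.N J := by
    rw [← ha, N]
    push_cast
    gcongr
    exact le_mul_of_one_le_left (by positivity) (Nat.one_le_cast.2 h.odd.pos)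
  have a4 : 4 * Λ + 2 < a / d * G.N J := by
    rw [div_mul_eq_mul_div, lt_div_iff₀ d0]
    nlinarith
  let Y : Lwd (G.N J) Unit (Fin 2) := ⟨fun _ l x => (2 * Λ)⁻¹ * v l (xp (a / d) x), fun _ _ => 0,
    fun _ => ((3 ^ e)⁻¹ / d) ^ 4 * (2 * Λ) ^ 2⟩
  have lp : ∀ x l, Lqq (a / (2 * d)) (Y.g x l) := fun x l => a6 ▸
    lqq_xp (f := fun y => (2 * Λ)⁻¹ * v l y) (fun y => by
      rw [abs_mul, abs_inv, abs_of_pos (by positivity), inv_mul_le_one₀ (by positivity)]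
      linarith [(H l).bd 0 y]) (fun y z => by
      rw [← mul_sub, abs_mul, abs_inv, abs_of_pos (by positivity), inv_mul_le_iff₀ (by positivity)]
      linarith [(H l).lip 0 y z]) (fun y e => (H l).cube 0 y (right_ne_zero_of_mul e)) s0
      (by linarith)
  have sp : ∀ x l y, Y.g x l y ≠ 0 → ∀ i, (y i).valMinAbs.natAbs ≤ ⌊Λ / (a / d)⌋₊ :=
    fun x l y e i => by
      have := (H l).cube 0 _ (right_ne_zero_of_mul e) i
      simp only [xp, abs_mul, abs_of_pos s0] at this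
      refine Nat.le_floor ((le_div_iff₀' s0).2 ?_)
      rwa [Nat.cast_natAbs, Int.cast_abs]
  refine ⟨_, Unit, inferInstance, Y, ⟨lp, sp, fun x l w => ?_⟩, ?_, funext fun U => ?_, rfl⟩
  · simpa only [Y, sub_zero] using h.cen_ej T hp V hl ha Λ1 one_pos hn hu q1 (lp x l) (sp x l) (by
      have := (le_div_iff₀ s0).1 (Nat.floor_le (show 0 ≤ Λ / (a / d) by positivity))
      rw [← mul_div_assoc, div_le_iff₀ d0] at this
      linarith) w
  · have := h.nw_of V (Y := Y) (s := s) (R := ⌊Λ / (a / d)⌋₊) (m := 2) (r := 0) (M := 2) he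
      (Fintype.card_fin _) le_rfl one_pos (by linarith) hΛ hi hC (by
        simp only [Y, univ_unique, sum_singleton, pow_zero, mul_one, one_mul]
        exact (abs_of_nonneg (by positivity)).le)
    rwa [← ht, one_mul, sq, mul_div_mul_right _ _ (h.b0 k).ne'] at this
  · simp only [wd2, Lwd.ob, Y, univ_unique, sum_singleton, cen_sy_mul, add_zero, Fin.prod_univ_two]
    field_simp

/-- the words are merged at a level which fits to their scale -/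
theorem Oks.mrv (o : G.Oks) (uo : ∀ᶠ l in atTop, ∀ m b J, (G.wm m).Tu b J → (G.wm m).Uo b J l)
    (H : ∀ i, Tf1 (v i) Λ) : ∃ (c n : ℕ) (C : ℝ), ∀ P : ℕ → Prop, (∀ᶠ k in atTop, P k) →
      ∀ᶠ d in 𝓝[>] (0 : ℝ), ∃ k, P k ∧ 1 ≤ d * 3 ^ G.e k ∧ d * 3 ^ G.e k ≤ G.Q k ∧
        ∀ e, G.e k ≤ e → ∀ᶠ p : ℕ × ℕ in atTop ×ˢ atTop, ∀ b, (G.wm p.1).Tu b p.2 →
          ∃ (Y : Grd) (ρ : ℕ), Y.s = 3 ^ (G.e p.2 - e) ∧ e ≤ G.e p.2 ∧ G.aa p * ρ ≤ G.Q k * d ∧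
            (G.wm p.1).Gv b p.2 k (nq p.1 e) Y ρ (G.aa p / (2 * d)) c C ∧
            ∃ I, (G.wm p.1).Rv b p.2 k (nq p.1 e) Y (G.aa p / (2 * d)) c C
              (wd2 (Fi.tr haar) b (G.aa p) d (((3 ^ e)⁻¹ / d) ^ 4) v) I (G.Q k ^ n / G.bb k) := by
  have h := (o 0).1
  have Λ1 := (H 0).one
  obtain ⟨j, j1, j2⟩ := ((eventually_ge_atTop 1).and
    (h.L_nat.eventually_ge_atTop (1000 * 3 ^ 1))).exists
  obtain ⟨A, hA⟩ : ∃ A : ℝ, A = (68 / 1 + 1) * 3 ^ (G.K0 + 1) := ⟨_, rfl⟩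
  obtain ⟨i, hi⟩ := exists_nat_ge (Λ * A + 1)
  obtain ⟨c, hc⟩ : ∃ c, c = 2 + 2 * (i + 1) * (2 * i + 1) ^ 4 := ⟨_, rfl⟩
  obtain ⟨u, hu⟩ : ∃ u, 3 ^ G.e j = 3 * u :=
    dvd_pow_self 3 (Nat.one_le_iff_ne_zero.1 (j1.trans h.sch.mono.le_apply))
  refine ⟨c, 2 * c + 5091, 1 + G.mr j u 1, fun P hP => ?_⟩
  have e := (hP.and uo).and ((h.ev_L A).and ((h.L_nat.eventually_ge_atTop (2 * c + 3)).and
    ((h.ev_L (2 * Λ)).and ((h.ev_L (400 * 2 ^ c)).and ((h.ev_L (20 * i + Λ + 3)).and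
    ((h.ev_L (40 * i + 1)).and (h.ev_L (4 * exp (c * (1 + G.mr j u 1) + c + 2)))))))))
  have e' := ((tendsto_sub_atTop_nat 1).eventually e).and (eventually_ge_atTop 1)
  filter_upwards [h.ev_lv' (Λ := Λ + 2) (by linarith) one_pos j2 e'] with d ⟨l, ⟨b, l1⟩, V, up⟩
  obtain ⟨k, rfl⟩ := Nat.exists_eq_add_of_le' l1
  rw [Nat.add_sub_cancel] at b
  obtain ⟨⟨b0, uo⟩, b1, b2, b3, b4, b5, b6, b7⟩ := b
  have up' : d * 3 ^ G.e k ≤ A * G.L k ^ G.K0 := hA ▸ h.dk_le (by positivity) up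
  have L := h.L1 k
  have LQ := h.LQ k
  have A0 : 0 ≤ A := by rw [hA]; positivity
  have d1 := h.dk_one V
  refine ⟨k, b0, d1, up'.trans (le_trans ?_ (h.LK b1)), fun e he => ?_⟩
  · exact mul_le_mul_of_nonneg_left (pow_le_pow_right₀ (one_le_two.trans (le_trans (by norm_num) L))
      (Nat.le_succ _)) A0
  filter_upwards [tendsto_snd.eventually (eventually_ge_atTop (k + 2 + e))] with p hp b T
  have h' := (o p.1).1
  have V' : (G.wm p.1).Lv 1 j (k + 1) (Λ + 2) 1 d :=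
    ⟨V.le, V.d0, V.sm, V.lo, V.one, V.hi, V.up, V.big⟩
  have ha : G.aa p * 3 ^ (G.wm p.1).e p.2 = 1 := inv_mul_cancel₀ (by positivity)
  have he' : e ≤ G.e p.2 := le_trans (by omega) h.sch.mono.le_apply
  have : NeZero ((2 * p.1 + 1) * 3) := ⟨by positivity⟩
  have s0 := div_pos (G.aa_pos p) V.d0
  have a6 : G.aa p / (2 * d) = G.aa p / d / 2 := by rw [mul_comm, div_div]
  refine ⟨⟨3 ^ (G.e p.2 - e), 3 ^ (e - G.e k), ⌊Λ / (G.aa p / d)⌋₊, i⟩, _, rfl, he',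
    h'.rad_of V' (by omega) ha (by linarith) b5, ⟨h'.gk_of V' (by omega) ha he he' rfl (by linarith)
      up' hi ((Fintype.card_fin _).trans_le (hc ▸ Nat.le_add_right _ _)) (hc ▸ Nat.le_add_left _ _)
      (b4.trans LQ) (by unfold mr; positivity), ?_, ?_, le_rfl, b2, uo _ _ _ T⟩,
    h'.rv_of (q := (2 * p.1 + 1) * 3) V' (by omega) ha T (o p.1).2 H
      (by rw [mul_assoc, ← hu]; rfl) hu.le (by omega) he (b3.trans LQ) b6 (b7.trans LQ) rfl⟩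
  · rw [a6, ← mul_div_assoc, h'.a_rt ha (by omega)]
    exact (half_le_self (inv_nonneg.2 (zero_le_one.trans d1))).trans (inv_le_one_of_one_le₀ d1)
  · refine le_trans ?_ (h'.s_le V' (by omega) ha).2
    rw [a6, show p.2 - k = p.2 - (k + 1) + 1 by omega, pow_succ, mul_assoc]
    exact mul_le_mul_of_nonneg_left (by linarith) (by positivity)

end Pool.Agent.Lib.MP_7f377f_mp.RG.Q4.En.Gl
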