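import Pool.Agent.Lib.MP_7f377f_mp.G.KwR2
import Pool.Agent.Lib.MP_7f377f_mp.G.SmeF

/-! The lattice Maxwell propagator is a projector; the tail of the convolution. -/

noncomputable section

namespace Pool.Agent.Lib.MP_7f377f_mp.Kw

open Filter Topology MvPolynomial Heat Weak Sum Asymptotics MeasureTheory
open RG (St)

/-- the weight -/
def iw (z : St) : ℝ := (1 + ‖z‖)⁻¹

theorem iw_pos (z : St) : 0 < iw z := by unfold iw; positivity

theorem iw_le (z : St) : iw z ≤ 1 := inv_le_one_of_one_le₀ (le_add_of_nonneg_right (norm_nonneg _))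

theorem iw_neg (z : St) : iw (-z) = iw z := by rw [iw, iw, norm_neg]

theorem K_dec (a b : Fin 4 → ℕ) : ∃ C, ∀ z : St,
    ‖K a b z‖ ≤ C * iw z ^ (∑ l, a l + ∑ l, b l + 2) := by
  refine ⟨max ‖K a b 0‖ (∫ s in Set.Ioi (0 : ℝ), mj a b (1 / 3) s), fun z => ?_⟩
  by_cases hz : z = 0
  · simp [hz, iw]
  obtain ⟨i, -, hi⟩ := Finset.exists_max_image Finset.univ (fun l => ‖z l‖) Finset.univ_nonempty
  have e : ‖z‖ = |(z i : ℝ)| := le_antisymm ((pi_norm_le_iff_of_nonneg (abs_nonneg _)).2 fun l =>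
    hi l (Finset.mem_univ l)) (norm_le_pi_norm z i)
  have z1 : 1 ≤ ‖z‖ := by
    obtain ⟨l, hl⟩ := Function.ne_iff.1 hz
    exact le_trans (show (1 : ℝ) ≤ |(z l : ℝ)| by exact_mod_cast Int.one_le_abs hl)
      (norm_le_pi_norm z l)
  have p := iw_pos z
  have := norm_integral_le_of_norm_le (μ := volume.restrict (Set.Ioi 0)) (maj_int.const_mul _)
    ((ae_restrict_mem measurableSet_Ioi).mono fun s hs => H_bd a b (δ := 1 / 3) p
      (inv_lt_one_of_one_lt₀ (by linarith)) (by norm_num) hs z (i := i) (by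
        rw [abs_mul, abs_of_pos p, ← e, iw, lt_inv_mul_iff₀ (by linarith)]
        linarith))
  rw [← K_eq a b p, norm_div, norm_pow, Complex.norm_real, Real.norm_of_nonneg p.le,
    div_le_iff₀ (by positivity)] at this
  exact this.trans (mul_le_mul_of_nonneg_right (le_max_right _ _) (by positivity))

theorem Dz_dec {n : ℕ} {q : Lp} (hq : q ∈ idealOfVars _ ℝ ^ n) :
    ∃ C, 0 ≤ C ∧ ∀ z : St, |Dz z q| ≤ C * iw z ^ (n + 2) := by
  have : (fun z => Dz z q) =O[⊤] fun z => iw z ^ (n + 2) := by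
    conv => enter [2, z]; rw [q.as_sum]
    simp only [map_sum]
    refine IsBigO.fun_sum fun m hm => ?_
    obtain ⟨C, hC⟩ := K_dec (fun l => m (inl l)) fun l => m (inr l)
    refine .of_bound (|coeff m q| * |C|) (.of_forall fun z => ?_)
    have p := iw_pos z
    rw [Dz, cf_mono, norm_mul, mul_assoc, Real.norm_of_nonneg (by positivity : 0 ≤ iw z ^ _)]
    refine mul_le_mul_of_nonneg_left ((Complex.abs_re_le_norm _).trans ((hC z).trans
      (mul_le_mul (le_abs_self C) (pow_le_pow_of_le_one p.le (iw_le z) ?_) (by positivity)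
        (abs_nonneg _)))) (abs_nonneg _)
    have := (mem_pow_idealOfVars_iff _ _).1 hq m hm
    rw [Finsupp.degree_eq_sum, Fintype.sum_sum_type] at this
    omega
  obtain ⟨C, C0, hC⟩ := this.exists_nonneg
  refine ⟨C, C0, fun z => ?_⟩
  have := eventually_top.1 hC.bound z
  rwa [Real.norm_of_nonneg (pow_pos (iw_pos z) _).le] at this

theorem sum_pi {f : ℤ → ℝ} {A : ℝ} (h0 : ∀ n, 0 ≤ f n) (h : ∀ S : Finset ℤ, ∑ n ∈ S, f n ≤ A)
    (S : Finset St) : ∑ x ∈ S, ∏ l, f (x l) ≤ A ^ 4 := by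
  refine (Finset.sum_le_sum_of_subset_of_nonneg (t := Fintype.piFinset fun l => S.image (· l))
    (fun x hx => Fintype.mem_piFinset.2 fun l => Finset.mem_image_of_mem _ hx)
    fun x _ _ => Finset.prod_nonneg fun l _ => h0 _).trans ?_
  rw [← Finset.prod_univ_sum, ← Fin.prod_const]
  exact Finset.prod_le_prod (fun l _ => Finset.sum_nonneg fun n _ => h0 n) fun l _ => h _

theorem sm5 : Summable fun x : St => iw x ^ 5 := by
  have s : Summable fun n : ℤ => (1 + |(n : ℝ)|) ^ (-(5 / 4) : ℝ) :=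
    (Real.summable_abs_int_rpow (b := 5 / 4) (by norm_num)).of_norm_bounded_eventually
      ((eventually_cofinite_ne 0).mono fun n hn => by
        rw [Real.norm_of_nonneg (by positivity)]
        exact Real.rpow_le_rpow_of_nonpos (by positivity) (by linarith) (by norm_num))
  refine summable_of_sum_le (fun x => (pow_pos (iw_pos x) _).le) fun S => le_trans
    (Finset.sum_le_sum fun x _ => ?_) (sum_pi (fun n => by positivity)
      (fun T => s.sum_le_tsum T fun n _ => by positivity) S)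
  have : iw x ^ 5 = ∏ _l : Fin 4, (1 + ‖x‖) ^ (-(5 / 4) : ℝ) := by
    rw [Fin.prod_const, ← Real.rpow_natCast, ← Real.rpow_natCast, ← Real.rpow_mul (by positivity),
      iw, Real.inv_rpow (by positivity), ← Real.rpow_neg (by positivity)]
    norm_num
  rw [this]
  exact Finset.prod_le_prod (fun _ _ => by positivity) fun l _ => Real.rpow_le_rpow_of_nonpos
    (by positivity) (add_le_add_right (norm_le_pi_norm x l) 1) (by norm_num)

theorem sm_Dz {q : Lp} (hq : q ∈ idealOfVars _ ℝ) (u z : St) :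
    Summable fun x => Dz (x - u) 1 * Dz (z - x) q := by
  obtain ⟨C, C0, h⟩ := Dz_dec (n := 0) (q := 1) (by simp)
  obtain ⟨C', C0', h'⟩ := Dz_dec (n := 1) (q := q) (by simpa using hq)
  refine .of_norm_bounded ((((Equiv.subRight u).summable_iff.2 sm5).add
    ((Equiv.subLeft z).summable_iff.2 sm5)).mul_left (C * C')) fun x => ?_
  have a := iw_pos (x - u)
  have b := iw_pos (z - x)
  rw [norm_mul]
  refine (mul_le_mul (h _) (h' _) (abs_nonneg _) (by positivity)).trans ?_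
  rw [mul_mul_mul_comm]
  refine mul_le_mul_of_nonneg_left ?_ (by positivity)
  change _ ≤ iw (x - u) ^ 5 + iw (z - x) ^ 5
  generalize iw (x - u) = s, iw (z - x) = t at a b
  rcases le_total s t with k | k
  · calc _ ≤ t ^ 2 * t ^ 3 := by gcongr
      _ ≤ _ := by rw [← pow_add]; exact le_add_of_nonneg_left (by positivity)
  · calc _ ≤ s ^ 2 * s ^ 3 := by gcongr
      _ ≤ _ := by rw [← pow_add]; exact le_add_of_nonneg_right (by positivity)

/-- summation by parts -/
theorem hs_Dz (p : Lp) {q : Lp} (hq : q ∈ idealOfVars _ ℝ) (u z : St) :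
    HasSum (fun x => Dz (x - u) p * Dz (z - x) q) (∑' x, Dz x 1 * Dz (z - u - x) (p * q)) := by
  have sm : ∀ {q : Lp}, q ∈ idealOfVars _ ℝ → ∀ z, Summable fun x => Dz x 1 * Dz (z - x) q :=
    fun hq z => by simpa using sm_Dz hq 0 z
  induction p using MvPolynomial.induction_on generalizing u with
  | C a =>
    have := ((Equiv.subRight u).hasSum_iff.2 (sm hq (z - u)).hasSum).mul_left a
    rw [← tsum_mul_left] at this
    simp only [C_mul', map_smul, smul_eq_mul, mul_left_comm _ a]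
    simpa [C_eq_smul_one, mul_assoc] using this
  | add p p' h h' =>
    simp only [map_add, add_mul, mul_add]
    rw [(sm (Ideal.mul_mem_left _ _ hq) _).tsum_add (sm (Ideal.mul_mem_left _ _ hq) _)]
    exact (h u).add (h' u)
  | mul_X p μ h =>
    have k := sm (Ideal.mul_mem_left _ p hq)
    rw [mul_comm p, mul_assoc]
    cases μ with
    | inl μ =>
      have e : ∀ x : St, x - u + Pi.single μ 1 = x - (u - Pi.single μ 1) := fun x => by abel
      have e' : ∀ x : St, z - u - x + Pi.single μ 1 = z - (u - Pi.single μ 1) - x := fun x => by abel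
      simp only [Dz_inl, sub_mul, mul_sub, e, e']
      rw [(k _).tsum_sub (k _)]
      exact (h _).sub (h u)
    | inr μ =>
      have e : ∀ x : St, x - u - Pi.single μ 1 = x - (u + Pi.single μ 1) := fun x => by abel
      have e' : ∀ x : St, z - u - x - Pi.single μ 1 = z - (u + Pi.single μ 1) - x := fun x => by abel
      simp only [Dz_inr, sub_mul, mul_sub, e', e]
      rw [(k _).tsum_sub (k _)]
      exact (h _).sub (h u)

theorem hs_lap {q : Lp} (hq : q ∈ idealOfVars _ ℝ) (z : St) :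
    ∑' x, Dz x 1 * Dz (z - x) ((∑ l, X (inl l) * X (inr l)) * q) = Dz z q := by
  have := hs_Dz (∑ l, X (inl l) * X (inr l)) hq 0 z
  simp only [sub_zero, Dz_lap] at this
  simpa using this.unique (hasSum_single 0 fun x hx => by rw [if_neg hx, zero_mul])

theorem sF_mem (s : Fin 4 → Fin 4 ⊕ Fin 4) (a : Fin 4 × Fin 4) (l : Fin 4) :
    sF s a l ∈ idealOfVars _ ℝ := by
  refine sub_mem ?_ ?_ <;> split_ifs <;>
    first | exact zero_mem _ | exact Ideal.subset_span ⟨_, rfl⟩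

theorem sS_mem (a b : Fin 4 × Fin 4) : ∑ l, sF inl b l * sF inr a l ∈ idealOfVars _ ℝ ^ 2 :=
  sum_mem fun l _ => by rw [sq]; exact Ideal.mul_mem_mul (sF_mem _ _ _) (sF_mem _ _ _)

theorem kM_dec : ∃ C, 0 ≤ C ∧ ∀ (z : St) a b, |kM kk z a b| ≤ C * iw z ^ 4 := by
  choose C C0 h using fun p : (Fin 4 × Fin 4) × Fin 4 × Fin 4 => Dz_dec (sS_mem p.1 p.2)
  refine ⟨∑ p, C p, Finset.sum_nonneg fun p _ => C0 p, fun z a b => ?_⟩
  rw [kM_Dz]
  exact (h (a, b) z).trans (mul_le_mul_of_nonneg_right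
    (Finset.single_le_sum (fun p _ => C0 p) (Finset.mem_univ _)) (pow_pos (iw_pos z) _).le)

theorem sym_proj (a b : Fin 4 × Fin 4) : ∑ c : Fin 4 × Fin 4, YM5.wt c •
    ((∑ l, sF inl c l * sF inr a l) * ∑ l, sF inl b l * sF inr c l) =
      (∑ l, X (inl l) * X (inr l)) * (2⁻¹ : ℝ) • ∑ l, sF inl b l * sF inr a l := by
  have e : ∀ u v : Fin 4 → Lp, ∑ c : Fin 4 × Fin 4, YM5.wt c •
      ((∑ l, sF inl c l * v l) * ∑ l, u l * sF inr c l) =
      (∑ l, X (inl l) * X (inr l)) * (2⁻¹ : ℝ) • ∑ l, u l * v l -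
        (2⁻¹ : ℝ) • ((∑ l, u l * X (inl l)) * ∑ l, v l * X (inr l)) := fun u v => by
    simp [Fintype.sum_prod_type, Fin.sum_univ_four, YM5.wt, sF, smul_eq_C_mul]
    ring
  have z : ∑ l, sF inr a l * X (inr l) = 0 := by
    simp only [sF, sub_mul, ite_mul, zero_mul, Finset.sum_sub_distrib, Finset.sum_ite_eq,
      Finset.mem_univ, if_true]
    ring
  rw [e, z, mul_zero, smul_zero, sub_zero]

/-- the projector identity -/
theorem kM_proj (u z : St) (a b : Fin 4 × Fin 4) : HasSum (fun x => ∑ c : Fin 4 × Fin 4,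
    YM5.wt c * (kM kk (x - u) a c * kM kk (z - x) c b)) (2⁻¹ * kM kk (z - u) a b) := by
  have m : ∀ a b : Fin 4 × Fin 4, ∑ l, sF inl b l * sF inr a l ∈ idealOfVars _ ℝ := fun a b =>
    Ideal.pow_le_self two_ne_zero (sS_mem a b)
  simp only [kM_Dz]
  have k := fun c => (sm_Dz (Ideal.mul_mem_left _ (∑ l, sF inl c l * sF inr a l) (m c b)) 0
    (z - u)).mul_left (YM5.wt c)
  have := hasSum_sum (s := Finset.univ) fun c _ =>
    (hs_Dz (∑ l, sF inl c l * sF inr a l) (m c b) u z).mul_left (YM5.wt c)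
  simp only [sub_zero] at k
  simp only [← tsum_mul_left] at this
  rw [← Summable.tsum_finsetSum fun c _ => k c] at this
  rw [← smul_eq_mul (α := ℝ) 2⁻¹, ← map_smul, ← hs_lap (Submodule.smul_of_tower_mem _ _ (m a b)),
    ← sym_proj]
  refine (congrArg (HasSum _) (tsum_congr fun x => ?_)).mp this
  rw [map_sum, Finset.mul_sum]
  simp only [map_smul, smul_eq_mul, mul_left_comm (YM5.wt _)]

theorem sum_sq {R : ℝ} (R1 : 1 ≤ R) (S : Finset ℤ) : ∑ n ∈ S, (R + |(n : ℝ)|)⁻¹ ^ 2 ≤ 3 / R := by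
  have k : ∀ N : ℕ, ∑ n ∈ Finset.Icc (-N : ℤ) N, (R + |(n : ℝ)|)⁻¹ ^ 2 ≤ 3 / R - 2 / (R + N) :=
    fun N => by
    induction N with
    | zero =>
      simp only [Nat.cast_zero, neg_zero, Finset.Icc_self, Finset.sum_singleton, Int.cast_zero,
        abs_zero, add_zero, ← sub_div]
      rw [inv_pow, ← one_div]
      exact div_le_div₀ (by norm_num) (by norm_num) (by linarith) (by nlinarith)
    | succ N ih =>
      have N0 : (0 : ℝ) ≤ N := N.cast_nonneg
      have e : Finset.Icc (-((N + 1 : ℕ) : ℤ)) (N + 1 : ℕ) =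
          insert (-(N + 1 : ℤ)) (insert (N + 1 : ℤ) (Finset.Icc (-N : ℤ) N)) := by
        ext n
        simp only [Finset.mem_Icc, Finset.mem_insert]
        omega
      rw [e, Finset.sum_insert (by simp only [Finset.mem_Icc, Finset.mem_insert]; omega),
        Finset.sum_insert (by simp only [Finset.mem_Icc]; omega)]
      push_cast
      rw [abs_neg, abs_of_nonneg (by linarith : (0 : ℝ) ≤ N + 1)]
      have : (R + (N + 1))⁻¹ ^ 2 ≤ 1 / (R + N) - 1 / (R + (N + 1)) := by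
        rw [div_sub_div _ _ (by positivity) (by positivity), inv_pow, ← one_div]
        exact div_le_div₀ (by linarith) (by linarith) (by positivity) (by nlinarith)
      simp only [div_eq_mul_inv] at *
      linarith
  obtain ⟨N, hN⟩ : ∃ N : ℕ, S ⊆ Finset.Icc (-N : ℤ) N := ⟨S.sup Int.natAbs, fun n hn => by
    have : n.natAbs ≤ S.sup Int.natAbs := Finset.le_sup hn
    rw [Finset.mem_Icc]
    omega⟩
  exact ((Finset.sum_le_sum_of_subset_of_nonneg hN fun _ _ _ => by positivity).trans (k N)).trans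
    (sub_le_self _ (by positivity))

/-- the tail -/
theorem tail8 {R : ℝ} (R1 : 1 ≤ R) (S : Finset St) (hS : ∀ x ∈ S, R ≤ ‖x‖) :
    ∑ x ∈ S, iw x ^ 8 ≤ 6 ^ 8 / R ^ 4 := by
  refine (Finset.sum_le_sum fun x hx => ?_).trans (((Finset.mul_sum ..).symm.trans_le
    (mul_le_mul_of_nonneg_left (sum_pi (fun n => by positivity) (sum_sq R1) S)
      (by norm_num : (0 : ℝ) ≤ 2 ^ 8))).trans ?_)
  · have : iw x ^ 8 = 2 ^ 8 * ∏ _l : Fin 4, (2 * (1 + ‖x‖))⁻¹ ^ 2 := by
      rw [Fin.prod_const, iw, mul_inv]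
      ring
    rw [this]
    refine mul_le_mul_of_nonneg_left (Finset.prod_le_prod (fun _ _ => by positivity) fun l _ =>
      pow_le_pow_left₀ (by positivity) (inv_anti₀ (by positivity) ?_) _) (by norm_num)
    have : |(x l : ℝ)| ≤ ‖x‖ := norm_le_pi_norm x l
    linarith [hS x hx]
  · rw [div_pow, ← mul_div_assoc]
    gcongr
    norm_num

theorem cut_abs {g χ : St → ℝ} {A C M R : ℝ} {u z : St} (p : HasSum g A) (C0 : 0 ≤ C)
    (hg : ∀ x, |g x| ≤ C * (iw (x - u) ^ 8 + iw (z - x) ^ 8)) (R1 : 1 ≤ R)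
    (h1 : ∀ x, |1 - χ x| ≤ M) (h2 : ∀ x, ‖x - u‖ < R ∨ ‖z - x‖ < R → χ x = 1) :
    |∑' x, χ x * g x - A| ≤ M * (C * (2 * 6 ^ 8) / R ^ 4) := by
  have M0 := (abs_nonneg _).trans (h1 0)
  have k : ∀ S : Finset St, ∑ x ∈ S, |(1 - χ x) * g x| ≤ M * (C * (2 * 6 ^ 8) / R ^ 4) := by
    intro S
    obtain ⟨T, e, hT⟩ : ∃ T : Finset St, ∑ x ∈ S, |(1 - χ x) * g x| = ∑ x ∈ T, |(1 - χ x) * g x| ∧
        ∀ x ∈ T, R ≤ ‖x - u‖ ∧ R ≤ ‖z - x‖ := by
      classical
      refine ⟨S.filter fun x => χ x ≠ 1, (Finset.sum_filter_of_ne fun x _ hx e => ?_).symm,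
        fun x hx => ?_⟩
      · simp [e] at hx
      · simpa only [not_or, not_lt] using mt (h2 x) (Finset.mem_filter.1 hx).2
    rw [e]
    have t1 := tail8 R1 (T.map (Equiv.subRight u).toEmbedding) fun x hx => by
      obtain ⟨y, hy, rfl⟩ := Finset.mem_map.1 hx
      exact (hT y hy).1
    have t2 := tail8 R1 (T.map (Equiv.subLeft z).toEmbedding) fun x hx => by
      obtain ⟨y, hy, rfl⟩ := Finset.mem_map.1 hx
      exact (hT y hy).2
    rw [Finset.sum_map] at t1 t2
    refine (Finset.sum_le_sum fun x _ => (abs_mul _ _).trans_le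
      (mul_le_mul (h1 x) (hg x) (abs_nonneg _) M0)).trans ?_
    rw [← Finset.mul_sum, ← Finset.mul_sum, Finset.sum_add_distrib, mul_div_assoc, mul_div_assoc,
      two_mul]
    exact mul_le_mul_of_nonneg_left (mul_le_mul_of_nonneg_left (add_le_add t1 t2) C0) M0
  have s : Summable fun x => ‖(1 - χ x) * g x‖ := summable_of_sum_le (fun x => abs_nonneg _) k
  have e := p.sub s.of_norm.hasSum
  simp only [show ∀ x, g x - (1 - χ x) * g x = χ x * g x from fun x => by ring] at e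
  rw [e.tsum_eq, sub_sub_cancel_left, abs_neg]
  exact (norm_tsum_le_tsum_norm s).trans (s.tsum_le_of_sum_le k)

/-- the projector identity with a cut-off which is one near both ends -/
theorem kM_cut : ∃ C, 0 ≤ C ∧ ∀ (χ : St → ℝ) (u z : St) (M R : ℝ) (a b : Fin 4 × Fin 4), 1 ≤ R →
    (∀ x, |1 - χ x| ≤ M) → (∀ x, ‖x - u‖ < R ∨ ‖z - x‖ < R → χ x = 1) →
    |∑' x, χ x * ∑ c : Fin 4 × Fin 4, YM5.wt c * (kM kk (x - u) a c * kM kk (z - x) c b) -
      2⁻¹ * kM kk (z - u) a b| ≤ M * (C / R ^ 4) := by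
  obtain ⟨C, C0, h⟩ := kM_dec
  refine ⟨16 * (C * C) * (2 * 6 ^ 8), by positivity, fun χ u z M R a b R1 h1 h2 =>
    cut_abs (kM_proj u z a b) (by positivity) (fun x => ?_) R1 h1 h2⟩
  refine (Finset.abs_sum_le_sum_abs _ _).trans ((Finset.sum_le_card_nsmul _ _
    (C * C * (iw (x - u) ^ 8 + iw (z - x) ^ 8)) fun c _ => ?_).trans_eq ?_)
  · have w : |YM5.wt c| ≤ 1 := by
      unfold YM5.wt
      split_ifs <;> norm_num
    have := iw_pos (x - u)
    rw [abs_mul, abs_mul]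
    refine (mul_le_of_le_one_left (mul_nonneg (abs_nonneg _) (abs_nonneg _)) w).trans
      ((mul_le_mul (h _ _ _) (h _ _ _) (abs_nonneg _) (by positivity)).trans ?_)
    rw [mul_mul_mul_comm]
    refine mul_le_mul_of_nonneg_left ?_ (by positivity)
    nlinarith [sq_nonneg (iw (x - u) ^ 4 - iw (z - x) ^ 4), sq_nonneg (iw (x - u) ^ 4),
      sq_nonneg (iw (z - x) ^ 4)]
  · simp only [Finset.card_univ, Fintype.card_prod, Fintype.card_fin, nsmul_eq_mul]
    push_cast
    ring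

section
variable [Pool.Agent.Lib.MP_7f377f_mp.GD] [MeasurableSpace YM5.SU2] [BorelSpace YM5.SU2]
  (h : Measure YM5.SU2) [Measure.IsHaarMeasure h] [IsProbabilityMeasure h]

/-- the quantitative lattice theorem with the explicit kernel -/
theorem lat_kk (m : ℕ) : ∃ (C₀ : ℝ) (q : ℕ), 1 ≤ C₀ ∧ 1 ≤ q ∧ ∀ (s L : ℕ) [NeZero L] (r : ℝ),
    1 ≤ s → C₀ * s ^ q ≤ r → r ^ 2 ≤ L → ∀ (x : Fin m → Site 4 L) (a : Fin m → Fin 4 × Fin 4),
    (∀ i, inBox s (x i)) → |YM5.pc h r x a -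
      loopSum Pool.Agent.Lib.MP_7f377f_mp.GD.d fun α γ => kM kk (lift (x γ.1 - x α.1)) (a α.1) (a γ.1)| ≤ 1 / s := by
  let _ := YM5.quatHS
  obtain ⟨C, hC, hk, hG⟩ := gd_data YM5.rho h YM5.rho_cont 4 (by norm_num)
  obtain ⟨C', hC', H⟩ := lattice_of_GD' YM5.rho h YM5.rho_cont 4 m hC
  obtain ⟨C₀, q, C1, q1, hG⟩ := hG C' hC'
  refine ⟨C₀ + C', q, by linarith, q1, fun s L _ r s1 hr hL x a hx => ?_⟩
  have s1' : (1 : ℝ) ≤ s := by exact_mod_cast s1
  have sq : (s : ℝ) ≤ s ^ q := le_self_pow₀ s1' (by omega)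
  obtain ⟨n, k, τ, W, w, g, G, r1, nL, τ0, hτ, sk, far, er⟩ := hG s L r s1 (by nlinarith) hL
  have t1 : τ ^ 2 ≤ max τ (r ^ 2)⁻¹ ^ 2 := pow_le_pow_left₀ τ0.le (le_max_left _ _) 2
  have t2 : C' * max τ (r ^ 2)⁻¹ ≤ 1 / s := by
    rw [mul_max_of_nonneg _ _ hC'.le]
    refine max_le hτ ?_
    rw [← div_eq_mul_inv, div_le_div_iff₀ (by positivity) (by positivity)]
    nlinarith
  have := H kk L n k r (max τ (r ^ 2)⁻¹) W w g ⟨G.sw, G.sh, G.w1, G.lap, G.h1,
    fun x hx => (G.grad x hx).trans t1, fun i j y => (G.near i j y).trans t1,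
    fun i j x hx => (G.conv i j x hx).trans t1⟩ (by linarith) hL nL (lt_max_of_lt_left τ0)
    (t2.trans ((div_le_one (by linarith)).2 s1'))
    ((inv_mul_cancel₀ (by positivity)).ge.trans
      (mul_le_mul_of_nonneg_right (le_max_right _ _) (sq_nonneg r))) hk
    (fun i j z l hl => (far i j z l hl).trans t1)
    (er.trans (pow_le_pow_left₀ (sq_nonneg _) t1 2)) x (fun i _ => a i)
    fun i => inBox_mono sk (hx i)
  rw [YM5.finrank_lie] at this
  exact this.trans t2

end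

end Pool.Agent.Lib.MP_7f377f_mp.Kw
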