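import Pool.Agent.Lib.MP_7f377f_mp.G.KzG

/-! Third centred moments of overlapping sources. -/

noncomputable section

open Pool.Agent.Lib.MP_7f377f_mp.Jet

set_option linter.unusedSectionVars false

namespace Pool.Agent.Lib.MP_7f377f_mp.Kz

open Finset Real

variable {κ : Type} [Fintype κ] [DecidableEq κ] {m e : Finset κ → ℂ} {r : κ → ℝ} {M : ℝ}
  {g : (κ → ℂ) → ℂ} {S : Finset κ} {i : κ}

theorem jd_exp_ins (h : SH r M g) (hi : i ∉ S) : jd (insert i S) (fun s => Complex.exp (g s)) =
    ∑ T ∈ S.powerset, jd (insert i T) g * jd (S \ T) fun s => Complex.exp (g s) := by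
  rw [h.exp.jd_insert hi, jd_congr h.pos (g := pd i fun s => Complex.exp (g s))
    (g' := pd i g * rs i fun s => Complex.exp (g s))
    (fun s hs => (deriv_cexp (h.dAt hs i)).trans (mul_comm _ _)), jd_mul (h.pd i) (h.exp.rs i)]
  exact sum_congr rfl fun T hT => by
    rw [h.jd_insert fun u => hi (mem_powerset.1 hT u), jd_rs h.exp fun u => hi (mem_sdiff.1 u).1]

theorem jd_exp_hi (e : Finset κ → ℂ) (h0 : S.Nonempty) (h3 : S.card ≤ 3) :
    jd S (fun s => Complex.exp (ma univ (hi e) s)) = hi e S := by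
  have h := sh_ma (r := fun _ : κ => 1) (fun _ => one_pos) univ (hi e)
  have k : ∀ S i, i ∉ S → jd (insert i S) (fun s => Complex.exp (ma univ (hi e) s)) =
      ∑ T ∈ S.powerset, hi e (insert i T) * jd (S \ T) fun s => Complex.exp (ma univ (hi e) s) :=
    fun S i u => by simp only [jd_exp_ins h u, jd_ma _ (subset_univ _)]
  obtain ⟨i, u⟩ := h0
  rw [← insert_erase u, k _ _ (notMem_erase _ _), sum_eq_single (S.erase i) (fun T hT v => ?_)
    (by simp)]
  · simp [ma_zero, hi]
  · rcases T.eq_empty_or_nonempty with rfl | z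
    · simp [hi]
    · have a := card_sdiff_add_card_eq_card (mem_powerset.1 hT)
      have := card_pos.2 z
      have := card_lt_card (ssubset_of_ne_of_subset v (mem_powerset.1 hT))
      have := card_erase_of_mem u
      obtain ⟨j, w⟩ := card_eq_one.1 (show (S.erase i \ T).card = 1 by omega)
      rw [w, ← insert_empty_eq, k _ _ (notMem_empty _)]
      simp [hi]

/-- the second and the third cumulant; no bound on the other exponents is needed -/
theorem Rdm.cen3 (h : Rdm m r M e) (h2 : 2 ≤ Fintype.card κ) (h3 : Fintype.card κ ≤ 3) :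
    ‖cmo m - e univ‖ ≤ M * exp (3 * M) * ∏ i, (r i)⁻¹ := by
  have h1 := h.one
  obtain ⟨e0, q, hq, q0, hm⟩ := h
  have M0 := hq.nonneg
  have L := (sh_lin hq.pos univ fun i => e {i} - m {i}).exp
  have hQ := (hq.mul L).mono (M' := M * exp (3 * M)) (by
    gcongr
    refine (sum_le_card_nsmul _ _ M fun i _ => ?_).trans ?_
    · rw [norm_sub_rev, mul_comm, ← le_div_iff₀ (hq.pos i)]; exact h1 i
    · rw [nsmul_eq_mul, card_univ]
      gcongr
      exact_mod_cast h3)
  have Q1 : ∀ i, jd {i} (q * fun s => Complex.exp (∑ i, s i * (e {i} - m {i}))) = 0 := fun i => by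
    have := (hm {i}).trans (jd_mul_one (sh_ma hq.pos univ e).exp hq i)
    simp only [jd_single i fun s => Complex.exp _, ma_single (mem_univ i), ma_zero, e0, q0] at this
    rw [jd_mul_one hq L, jd_exp_lin _ (subset_univ _), q0]
    simp at this ⊢
    linear_combination -this
  have Q0 : (q * fun s : κ → ℂ => Complex.exp (∑ i, s i * (e {i} - m {i}))) (0 : κ → ℂ) = 1 := by
    simp [q0]
  have k := ((Eqv.mk ⟨_, sh_ma hq.pos univ _⟩ ⟨_, (sh_ma hq.pos univ _).exp.mul hq⟩
    fun T hT => (jd_ma _ hT).trans (hm T)).mul (Hb.refl (A := univ) ⟨_, (sh_lin hq.pos univ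
      fun i => -m {i}).exp⟩)).eq univ Subset.rfl
  have k2 := jd_mul (sh_ma hq.pos univ (hi e)).exp hQ univ
  have n0 : (univ : Finset κ).Nonempty := card_pos.1 (by rw [card_univ]; omega)
  rw [sum_eq_add ∅ univ n0.ne_empty.symm (fun T _ ⟨v, v'⟩ => ?_) (by simp) (by simp),
    jd_exp_hi e n0 h3] at k2
  · rw [cmo_jd, k, show jd univ _ = _ from (congrArg _ (funext fun s => ?_)).trans k2]
    · simp only [jd_empty, ma_zero, sdiff_empty, sdiff_self, bot_eq_empty, Q0, hi, card_univ, h2,
        card_empty, if_true, mul_one]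
      simpa [div_eq_mul_inv] using hQ.jd_le univ
    · simp only [Pi.mul_apply, ma_hi e0 s, mul_sub, mul_neg, sum_sub_distrib, sum_neg_distrib,
        Complex.exp_add, Complex.exp_sub, Complex.exp_neg]
      ring
  · have a := card_sdiff_add_card_eq_card (subset_univ T)
    have z := nonempty_iff_ne_empty.2 v
    have := card_pos.2 z
    have := card_lt_card (ssubset_of_ne_of_subset v' (subset_univ T))
    rw [card_univ] at *
    by_cases u : 2 ≤ T.card
    · obtain ⟨j, w⟩ := card_eq_one.1 (show (univ \ T).card = 1 by omega)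
      rw [w, Q1, mul_zero]
    · rw [jd_exp_hi e z (by omega), hi, if_neg u, zero_mul]

end Pool.Agent.Lib.MP_7f377f_mp.Kz
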