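import Pool.Agent.Lib.MP_7f377f_mp.G.S23Q
import Pool.Agent.Lib.MP_7f377f_mp.G.Q5Red

/-! The reduction to one cell for sources which may overlap. -/

noncomputable section

open Pool.Agent.Lib.MP_7f377f_mp.Jet

set_option linter.unusedSectionVars false
variable [Pool.Agent.Lib.MP_7f377f_mp.GD]

namespace Pool.Agent.Lib.MP_7f377f_mp.YM7

open MeasureTheory Weak Real Finset

variable {n m lam k : ℕ} [NeZero n] {κ : Type} [Fintype κ] [DecidableEq κ]
  {Λ : (Cfg n → ℝ) → ℝ} {a w M C b : ℝ} {F : κ → Src n} {e : Finset κ → ℂ}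
  {A a' τ τ' δ δ' : κ → ℝ} {S : κ → κ → Prop} {D : κ → κ → ℕ}

/-- families of sources in the cell `c`; only the pairs `S` are separated -/
def Clb (a : ℝ) (a' τ δ : κ → ℝ) (lam : ℕ) (S : κ → κ → Prop) (D : κ → κ → ℕ) (c : Site 4 m)
    (F : κ → Src n) : Prop := (∀ i, Nrm (a' i) (τ i) (F i) ∧ InT a (δ i) lam c (F i)) ∧
  ∀ i j, S i j → Sp (D i j) fun t : Bool => F (cond t i j)

theorem gfield_smul (c : ℝ) (F : Src n) (U : Cfg n) : gfield (c • F) U = c * gfield F U := by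
  simp only [gfield, mul_sum, Pi.smul_apply, smul_eq_mul, mul_ite, mul_zero, mul_assoc]

variable [MeasurableSpace SU2] [BorelSpace SU2] {h : Measure SU2} [h.IsHaarMeasure]
  [IsProbabilityMeasure h]

/-- the second and the third centred moment -/
theorem Red.cen3 (hR : Red (ex h b n) F w M e) (h2 : 2 ≤ Fintype.card κ)
    (h3 : Fintype.card κ ≤ 3) : ‖(∫ U, ∏ i, YM7.cen h b (F i) U ∂wilson h b n : ℝ) -
      (-1) ^ Fintype.card κ * e univ‖ ≤ M * exp (3 * M) * w ^ Fintype.card κ := by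
  have := Kz.Rdm.cen3 (r := fun _ => w⁻¹) hR h2 h3
  rw [cen_jd, ← mul_sub, norm_mul, norm_pow, norm_neg, norm_one, one_pow, one_mul]
  simpa [Kz.cmo_jd, mom, ex, integral_neg] using this

theorem Red.gcorr3 {F : Fin 3 → Src n} {A : Fin 3 → ℝ} {e : Finset (Fin 3) → ℂ}
    (hR : Red (ex h b n) (fun i => A i • F i) w M e) :
    ‖((∏ i, A i) * gcorr h b n F : ℝ) + e univ‖ ≤ M * exp (3 * M) * w ^ 3 := by
  have := hR.cen3 (by simp) (by simp)
  have k := (gM (n := n) h b 3).map_smul_univ A F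
  rw [gM_apply, gM_apply, smul_eq_mul] at k
  rw [← gcorr_eq, k, Fintype.card_fin] at this
  simpa [show (-1 : ℂ) ^ 3 = -1 by norm_num] using this

variable [NeZero m] (hb : 0 ≤ b) (hm : Odd m) (hn : n = m * lam) (hI : Inv Λ lam) (w0 : 0 < w)
  (hC : 0 ≤ C) {c : Site 4 m}
include hb hm hn hI w0 hC

section
variable {L : (κ → Src n) → Prop} {P : Site 4 m → (κ → Src n) → Prop}
  (hL : ∀ G, L G → (∀ k, L fun i => rL lam k (G i)) ∧ ∀ i U V,
    (∀ l, (∀ k, half lam k l) → U l = V l) → gfield (G i) U = gfield (G i) V)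
  (P0 : ∀ c, P c 0) (hP : ∀ c G, L G → P c fun i y => G i (y - corner lam c))
  (hG : Gen h b Λ P w (exp (C * m ^ 4))) (hF : L fun i x => F i (x + corner lam c))
include hL P0 hP hG hF

theorem ob_cls (T : Finset κ) : |∫ U, ob Λ F T U ∂wilson h b n| ≤ exp (256 * C) * w ^ T.card := by
  classical
  let β := Option ({G : κ → Src n // L G} × Finset κ)
  have key := YM5.wilson_chess_cell h hb hm hn (β := β) none (fun k o => o.map fun G =>
      (⟨fun i => rL lam k (G.1.1 i), (hL G.1.1 G.1.2).1 k⟩, G.2))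
    (fun _ => rfl) (fun k o => by cases o <;> simp [rL_rL])
    (fun o U => o.elim 1 fun G => ob Λ G.1.1 G.2 U)
    (fun o => by
      cases o
      · exact BM.const 1
      · exact BM.of_continuous (cont_ob _ _ _))
    (fun _ => rfl)
    (fun o k U => by
      rcases o with _ | G
      · simp only [Option.elim, Option.map]
      · simpa only [Option.elim, Option.map] using hI.ob_rL (F := G.1.1) (T := G.2) k U)
    (fun o U V hUV => by
      rcases o with _ | G
      · simp only [Option.elim]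
      · simp only [Option.elim, ob, fun i => (hL G.1.1 G.1.2).2 i U V hUV])
    (fun o => o.elim 1 fun G => w ^ G.2.card) (fun o => by cases o <;> simp [w0]) rfl
    (fun k o => by cases o <;> rfl) hC (fun σ => ?_) 1 c
    (fun x => if x = c then some (⟨_, hF⟩, T) else none) fun x l hx =>
      if_neg (by rintro rfl; simp at hx)
  · rw [prod_eq_single c (fun x _ e => by rw [if_neg e]; rfl) (by simp), if_pos rfl] at key
    refine le_trans (le_of_eq ?_) (key.trans_eq (by norm_num [mul_comm]))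
    congr 2
    funext U
    rw [prod_eq_single c (fun x _ e => by rw [if_neg e]; rfl) (by simp), if_pos rfl]
    simp only [Option.elim, ← hI.ob_sh, sub_add_cancel]
  · have := hG.le hI w0 (F := fun x => (σ x).elim 0 fun G i y => G.1.1 i (y - corner lam x))
      (fun x => ?_) fun x => (σ x).elim ∅ (·.2)
    · refine (congrArg (|∫ U, · U ∂_|) (funext fun U => prod_congr rfl fun x _ => ?_)).trans_le
        (this.trans_eq (congrArg _ (prod_congr rfl fun x _ => ?_)))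
      all_goals rcases σ x with _ | G <;> simp [hI.ob0, hI.ob_sh]
    · rcases σ x with _ | G
      exacts [P0 x, hP x _ G.1.2]

/-- any class of families which is closed under the reflections of the cell -/
theorem red_cls (hR : Red Λ F w M e) :
    Red (ex h b n) F w (2 ^ Fintype.card κ * exp (256 * C) * M) e := by
  obtain ⟨e0, q, hq, q0, hm'⟩ := hR
  have hN := sh_ma_le (a := fun T => (∫ U, ob Λ F T U ∂wilson h b n : ℝ)) w0 fun T => by
    simpa using ob_cls hb hm hn hI w0 hC hL P0 hP hG hF T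
  refine ⟨e0, _, hN.mul hq, by simp [ma_zero, hI.ob0, q0], fun T => ?_⟩
  obtain ⟨r, ⟨h1, h2⟩, r1⟩ := ((ev_inv (hI.mom0 F)).and (Ioo_mem_nhdsGT (inv_pos.2 w0))).exists
  have r0 : ∀ _ : κ, 0 < r := fun _ => r1.1
  have h3 := sh_ma r0 univ (mom (ex h b n) F)
  have h4 := (Eqv.mk (A := univ) ⟨_, h3.mul h1⟩ ⟨_, hN.shrink r0 fun _ => r1.2.le⟩ fun S hS => by
    rw [jd_ma _ hS, ← integral_complex_ofReal]
    simp only [hI.ob_eq]
    exact (int_jd h b F h1 S).symm).mul (Eqv.mk ⟨_, sh_ma r0 univ (mom Λ F)⟩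
      ⟨_, (sh_ma r0 univ e).exp.mul (hq.shrink r0 fun _ => r1.2.le)⟩
      fun S hS => (jd_ma _ hS).trans (hm' S))
  rw [← jd_ma (mom (ex h b n) F) (subset_univ T), ← jd_congr r0 (fun s hs => ?_) T,
    h4.eq T (subset_univ T)]
  · exact congrArg _ (funext fun s => mul_left_comm _ _ _)
  · exact inv_mul_cancel_right₀ (h2 s hs) _

end

/-- the sources of the class `Clb` with the amplitudes `A` -/
theorem red_of_clb (m1 : 1 < m) (ha : 0 < a) (hδ : ∀ i, 0 ≤ δ i) (haδ : ∀ i, δ i + a ≤ δ' i)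
    (hτ : ∀ i, τ' i + 4 * a' i ≤ τ i) (hG : Gen h b Λ (fun (c : Site 4 m) F => ∃ F', Clb a a' τ δ
      lam S D c F' ∧ F = fun i => A i • F' i) w (exp (C * m ^ 4)))
    (hF : Clb a a' τ' δ' lam S (fun i j => D i j + 2) c F) (hR : Red Λ (fun i => A i • F i) w M e) :
    Red (ex h b n) (fun i => A i • F i) w (2 ^ Fintype.card κ * exp (256 * C) * M) e := by
  have l0 : 0 < lam := Nat.pos_of_ne_zero (by rintro rfl; exact NeZero.ne n hn)
  have ln : lam < n := by rw [hn]; nlinarith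
  refine red_cls hb hm hn hI w0 hC (c := c) (L := fun G => ∃ G', ((∀ i, Lab (a' i) (τ i) lam
      ⌈δ i / a⌉₊ (G' i)) ∧ ∀ i j, S i j → Sc (D i j) fun t : Bool => G' (cond t i j)) ∧
      G = fun i => A i • G' i) ?_ (fun c => ⟨0, ⟨fun i => ?_, fun _ _ _ _ _ _ _ _ _ _ _ _ e =>
      (e rfl).elim⟩, funext fun i => (smul_zero _).symm⟩) (fun x => ?_) hG ⟨fun i x => F i (x + corner lam c), ⟨fun i =>
      lab_of (hF.1 i).1 (hF.1 i).2 ha (hδ i) (haδ i) (hτ i), fun i j s => (hF.2 i j s).sc _⟩, rfl⟩ hR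
  · rintro _ ⟨G, ⟨g1, g2⟩, rfl⟩
    exact ⟨fun k => ⟨fun i => rL lam k (G i), ⟨fun i => (g1 i).rL ln k, fun i j s =>
      (g2 i j s).rL lam k⟩, rfl⟩, fun i U V u => by rw [gfield_smul, gfield_smul, (g1 i).dep ln U V u]⟩
  · rintro _ ⟨G, ⟨g1, g2⟩, rfl⟩
    exact ⟨fun i y => G i (y - corner lam x), ⟨fun i => (g1 i).cla ha ((div_le_iff₀' ha).1
      (Nat.le_ceil _)) x, fun i j s t t' e y _ _ y' _ _ a b => by
        simpa using g2 i j s t t' e _ _ _ _ _ _ _ _ a b (fun _ => .inl rfl) fun _ => .inl rfl⟩, rfl⟩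
  · obtain ⟨g, -, g2, g3⟩ := (hF.1 i).1
    have a0 := (abs_nonneg _).trans (g2 0 0)
    have τ0 := (abs_nonneg _).trans (g3 0 0 0)
    exact ⟨⟨0, by simp, by simpa, by simp; linarith [hτ i]⟩, fun _ _ _ e => (e rfl).elim⟩

end Pool.Agent.Lib.MP_7f377f_mp.YM7

namespace Pool.Agent.Lib.MP_7f377f_mp.RG.Q4.En.Gl.Ok

open Finset Real Br YM7

variable {κ : Type} [Fintype κ] [DecidableEq κ] {G : Gl} {J j m u : ℕ} [NeZero (G.N J)] [NeZero m]
  {b w N a : ℝ} {A a' τ τ' δ δ' : κ → ℝ} {S : κ → κ → Prop} {D : κ → κ → ℕ}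

/-- the moments of overlapping sources in one cell, uniformly in the volume -/
theorem red_clb (h : G.Ok) (b0 : 0 ≤ b) (hj : j ≤ J) (w0 : 0 < w) (hn : G.N j = m * u)
    (m1 : 1 < m) (a0 : 0 < a) (δ0 : ∀ i, 0 ≤ δ i) (hδ : ∀ i, δ i + a ≤ δ' i)
    (hτ : ∀ i, τ' i + 4 * a' i ≤ τ i)
    (hP : ∀ F : _ → κ → _, (∀ c, Clb a a' τ δ (G.rt J j * u) S D c (F c)) → ∃ Y,
      G.Fe b J j (fun p : Weak.Site 4 m × κ => A p.2 • F p.1 p.2) w N Y ∧ Y.Ec univ Prod.fst)
    {F : κ → Src (G.N J)} {c : Weak.Site 4 m}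
    (hF : Clb a a' τ' δ' (G.rt J j * u) S (fun i j => D i j + 2) c F)
    {Y : Fy κ} (e : G.Fe b J j (fun i => A i • F i) w N Y) (N0 : 0 ≤ N) :
    Red (YM7.ex (Fi.tr haar) b (G.N J)) (fun i => A i • F i) w (2 ^ Fintype.card κ *
      exp (256 * (cI (G.g j) * u ^ 4 + Fintype.card κ * N)) * exp (Fintype.card κ * N))
      (ce Y.E) := by
  obtain ⟨c1, c2, c3⟩ := h.gen_cell b0 hj w0 hn (N := N) (P := fun (c : Weak.Site 4 m) F => ∃ F',
    Clb a a' τ δ (G.rt J j * u) S D c F' ∧ F = fun i => A i • F' i) fun F hF => by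
      choose F' h1 h2 using hF
      simpa only [h2] using hP F' h1
  have : (Fi.tr haar).IsHaarMeasure := (inferInstance : haar.IsHaarMeasure)
  exact red_of_clb b0 (Nat.Odd.of_mul_left (hn ▸ h.N_odd j)) c1 c2 w0
    (by have := cI_nn (h.g0 j); positivity) m1 a0 δ0 hδ hτ c3 hF (h.red_al b0 hj w0 e le_rfl)

end Pool.Agent.Lib.MP_7f377f_mp.RG.Q4.En.Gl.Ok
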