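import Pool.Agent.Lib.MP_7f377f_mp.G.Q5Dif

/-! Families of data with slowly varying overlapping sources: one step. -/

noncomputable section

open Pool.Agent.Lib.MP_7f377f_mp.Jet

set_option linter.unusedSectionVars false
variable [Pool.Agent.Lib.MP_7f377f_mp.GD]

namespace Pool.Agent.Lib.MP_7f377f_mp.RG.Q4.En

open Finset Real Sg Pos

attribute [local irreducible] box lbox tb rc tau

variable {ι : Type} {r : ι → ℝ} {A T : Finset ι} {p : Pa} {n c : ℕ} {W : ι → Finset St}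
  {ψ ψ' : (ι → ℂ) → Lx} {K K' : (ι → ℂ) → Ac} {F F' : St → ι → ℂ} {s t t' : ι → ℂ} {φ : Lx}
  {b θ θ0 x y x' y' ω ω' Q g N a η τ β E : ℝ} {S : Sd} {k : Mj}

/-- the sources are multiplied by functions of the site -/
def nL (F : St → ι → ℂ) (ψ : (ι → ℂ) → Lx) (s : ι → ℂ) : Lx := fun x => ψ (F x * s) x

def nA (F : St → ι → ℂ) (K : (ι → ℂ) → Ac) (s : ι → ℂ) : Ac := fun X => K (F (px X) * s) X

/-- the functions `F` inside the blocks of `Y`, the constants `t` outside -/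
def ctF (S : Sd) (F : St → ι → ℂ) (t : ι → ℂ) (Y : Finset St) (x : St) : ι → ℂ :=
  if yo S.l x ∈ Y then F x else t

theorem pd_mul (h : ∀ i, ‖t i‖ ≤ 1) (hs : s ∈ Pd r) : t * s ∈ Pd r := fun i =>
  (norm_mul_le_of_le (h i) le_rfl).trans_lt ((one_mul _).trans_lt (hs i))

theorem ma_mul {V : Type} [AddCommMonoid V] [Module ℂ V] (e : Finset ι → V) :
    ma A e (t * s) = ma A (fun T => mon T t • e T) s :=
  sum_congr rfl fun T _ => by simp [mon, prod_mul_distrib, smul_smul, mul_comm]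

theorem mon_one (h : ∀ i, ‖t i‖ ≤ 1) (T : Finset ι) : ‖mon T t‖ ≤ 1 := by
  rw [mon, norm_prod]
  exact prod_le_one (fun _ _ => norm_nonneg _) fun i _ => h i

theorem mon_lip (h : ∀ i, ‖t i‖ ≤ 1) (h' : ∀ i, ‖t' i‖ ≤ 1) (e : ∀ i, ‖t i - t' i‖ ≤ η)
    (T : Finset ι) : ‖mon T t - mon T t'‖ ≤ T.card * η := by
  induction T using Finset.cons_induction with
  | empty => simp [mon]
  | cons i T hi ih =>
    have := norm_add_le_of_le (norm_mul_le_of_le (e i) (mon_one h T)) (norm_mul_le_of_le (h' i) ih)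
    simp only [mon, prod_cons, card_cons] at this ⊢
    push_cast
    rw [show ∀ a b c d : ℂ, (a - b) * c + b * (c - d) = a * c - b * d from fun _ _ _ _ => by ring]
      at this
    linarith

theorem pu_nL (m : ∃ x y z, ∀ s ∈ Pd r, PM p x y z (ψ s))
    (pu : ∀ s ∈ Pd r, PU p b (ψ s)) (hF : ∀ x i, ‖F x i‖ ≤ 1) (hs : s ∈ Pd r) :
    PU p b (nL F ψ s) :=
  let ⟨_, _, _, m⟩ := m
  ⟨⟨_, _, _, fun v => m _ (pd_mul (hF v) hs) v⟩, fun v => (pu _ (pd_mul (hF v) hs)).2 v⟩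

theorem km_nA (h : ∀ s ∈ Pd r, KM p n k (K s)) (hF : ∀ x i, ‖F x i‖ ≤ 1) (hs : s ∈ Pd r) :
    KM p n k (nA F K s) := km_pt fun X _ => ⟨_, _, h _ (pd_mul (hF (px X)) hs), rfl, le_rfl⟩

theorem ctF_le (hF : ∀ x i, ‖F x i‖ ≤ 1) (ht : ∀ i, ‖t i‖ ≤ 1) (Y : Finset St) (x : St) (i : ι) :
    ‖ctF S F t Y x i‖ ≤ 1 := by
  rw [ctF]
  split_ifs
  exacts [hF x i, ht i]

theorem ctF_sub (hL : ∀ i, LipT S.nf a (F · i)) (a0 : 0 ≤ a) {Y : Finset St} {y : St} {R : ℕ}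
    (hY : ∀ z ∈ Y, nearT S.n R y z) (x : St) (i : ι) :
    ‖ctF S F (F (up S.l y)) Y x i - F (up S.l y) i‖ ≤ S.L * a * (R + 1) := by
  refine le_trans (le_of_eq ?_) (vr_le (hL i) a0 hY x)
  rw [ctF, vr]
  split_ifs <;> simp

theorem ctF_ag (h : S.Nu 100) (t : ι → ℂ) (Y : Finset St) :
    S.AgD Y (nL F ψ s) (nL (ctF S F t Y) ψ s) (nA F K s) (nA (ctF S F t Y) K s) := by
  refine ⟨fun x _ hx => by simp only [nL, ctF, if_pos hx], fun o ho hY => ?_⟩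
  obtain ⟨o1, o2, -⟩ := mem_lps.1 ho
  have : yo S.l (px o.1) ∈ Y := hY (mem_image.2 ⟨_, px_mem o2,
    rc_eq h.ok.odd (Cov.yo_mem h.ok.odd (o1 (px_mem o2)))⟩)
  simp only [nA, ctF, if_pos this]

/-- one majorant for sums with variable coefficients -/
theorem sum_sz {α : Type} (h0 : 0 < p.ρ) (P : Finset α) {u : α → Lx} {J : α → Ac} {w : α → ℝ}
    (h : ∀ a ∈ P, 0 ≤ w a ∧ ∃ x, w a * x ≤ N ∧ Sz p n Q g x x ω (u a) (J a)) (ω0 : 0 ≤ ω) :
    ∃ d, kN p n d (ω * (P.card * N) * g ^ 2) ∧ ∀ (e : α → St → ℂ) η, 0 ≤ η →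
      (∀ a ∈ P, ∀ y, ‖e a y‖ ≤ η * w a) →
      PM p (η * (P.card * N)) (Q ^ 2 * (η * (P.card * N))) (Q ^ 50 * ω * (η * (P.card * N)) * g ^ 2)
        (∑ a ∈ P, mL (e a) (u a)) ∧ KM p n (η • d) (∑ a ∈ P, mA (e a) (J a)) := by
  induction P using Finset.cons_induction with
  | empty => exact ⟨0, ⟨fun _ _ => le_rfl, fun _ => by simp⟩, fun _ _ _ _ =>
      ⟨by simpa using pm_zero h0, by simpa using km_zero⟩⟩
  | cons i P hi ih =>
    obtain ⟨d, d1, d2⟩ := ih fun a ha => h a (mem_cons_of_mem ha)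
    obtain ⟨w0, x, hx, z, k, k1, k2⟩ := h i (mem_cons_self _ _)
    have q : 0 ≤ Q ^ 50 * ω := mul_nonneg (Even.pow_nonneg (by decide) _) ω0
    refine ⟨w i • k + d, ((k2.smul w0).add d1).mono ?_, fun e η η0 he => ?_⟩
    · rw [card_cons]
      push_cast
      nlinarith [mul_le_mul_of_nonneg_left hx (mul_nonneg ω0 (sq_nonneg g))]
    · obtain ⟨a1, a2⟩ := d2 e η η0 fun a ha => he a (mem_cons_of_mem ha)
      have hx' := mul_le_mul_of_nonneg_left hx η0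
      simp only [sum_cons, card_cons, smul_add, smul_smul]
      push_cast
      refine ⟨PM.mono h0 (PM.add h0 (pm_mL h0 z (he i (mem_cons_self _ _))) a1).1 ?_ ?_ ?_,
        (km_mA' k1 k2.1 (he i (mem_cons_self _ _))).add a2⟩
      · linarith
      · nlinarith [mul_le_mul_of_nonneg_left hx' (sq_nonneg Q)]
      · nlinarith [mul_le_mul_of_nonneg_left hx' (mul_nonneg q (sq_nonneg g))]

theorem Sf.add (h0 : 0 < p.ρ) (h : Sf p n Q g r x y ω ψ K) (h' : Sf p n Q g r x' y' ω ψ' K') :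
    Sf p n Q g r (x + x') (y + y') ω (ψ + ψ') (K + K') := by
  obtain ⟨a, k, k1, k2⟩ := h
  obtain ⟨a', k', k1', k2'⟩ := h'
  exact ⟨fun s hs => PM.mono h0 (PM.add h0 (a s hs) (a' s hs)).1 le_rfl (le_of_eq (by ring))
    (le_of_eq (by ring)), _, (k1.add k1').mono (le_of_eq (by ring)),
    fun s hs => (k2 s hs).add (k2' s hs)⟩

variable [DecidableEq ι]

theorem jL_nL : jL T (nL F ψ) = mL (fun x => mon T (F x)) (jL T ψ) := by
  ext v B; exact jd_scale (F v) (ψ · v B) T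

theorem jA_nA : jA T (nA F K) = mA (fun x => mon T (F x)) (jA T K) := by
  ext X c U; exact jd_scale (F (px X)) (K · X c U) T

theorem nL_ma (e : Finset ι → Lx) :
    nL F (ma A e) = ma A fun T => mL (fun x => mon T (F x)) (e T) := by
  ext s v B
  simp only [nL, ma_mul, ma_apply]
  rfl

theorem nA_ma (e : Finset ι → Ac) :
    nA F (ma A e) = ma A fun T => mA (fun x => mon T (F x)) (e T) := by
  ext s X c U
  simp only [nA, ma_mul, ma_apply]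
  rfl

theorem nA_trK : nA F (trK A K) = trK A (nA F K) := by simp only [trK, nA_ma, jA_nA]

theorem mul_upd (t s : ι → ℂ) (i : ι) (z : ℂ) :
    t * Function.update s i z = Function.update (t * s) i (t i * z) := by
  ext j; by_cases h : j = i <;> simp [h]

theorem FA.nA (h : FA r p n k K) (hF : ∀ x i, ‖F x i‖ ≤ 1) : FA r p n k (nA F K) :=
  ⟨h.pos, fun s hs i X c U => by
    simp only [En.nA, mul_upd]
    exact (h.hol _ (pd_mul (hF (px X)) hs) i X c U).comp (f := fun z => F (px X) i * z)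
      (by fun_prop) fun z hz => mem_ball_zero_iff.2 ((norm_mul_le_of_le (hF _ i) le_rfl).trans_lt
        ((one_mul _).trans_lt (mem_ball_zero_iff.1 hz))), fun _ => km_nA h.km hF⟩

/-- the sizes of the jets -/
def Jz (p : Pa) (n : ℕ) (Q g : ℝ) (A : Finset ι) (r : ι → ℝ) (N ω : ℝ) (ψ : (ι → ℂ) → Lx)
    (K : (ι → ℂ) → Ac) : Prop := ∀ T ⊆ A, T.Nonempty →
  ∃ x, (∏ i ∈ T, r i) * x ≤ N ∧ Sz p n Q g x x ω (jL T ψ) (jA T K)

namespace Fi

variable (f : Fi p n A W r θ ψ K) (h0 : 0 < p.ρ)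
include f h0

theorem nl (hF : ∀ x i, ‖F x i‖ ≤ 1) : Fi p n A W r θ (nL F ψ) (nA F K) := by
  refine ⟨f.pos, ?_, ?_, fun T hT => ?_, ⟨fun i v hv s t => ?_, fun i X c hX s t => ?_⟩,
    f.km.imp fun _ a => ⟨a.1, fun _ => km_nA a.2 hF⟩⟩
  · simp only [jL_nL, ← nL_ma, ← f.psi]
  · simp only [jA_nA, ← nA_ma, ← f.act]
  · obtain ⟨_, ⟨_, _, _, a⟩, -⟩ := f.pu T hT
    exact ⟨_, jL_nL (T := T) ▸ pu_of_pm (pm_mL h0 a fun x => mon_one (hF x) T)⟩
  · simp only [nL, mul_upd]; exact f.loc.psi i v hv _ _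
  · simp only [nA, mul_upd]; exact f.loc.act i X c hX _ _

theorem pm_all : ∃ x y z, ∀ s ∈ Pd r, PM p x y z (ψ s) := by
  choose! X Y Z a using fun T hT => (f.pu T hT).choose_spec.1
  refine ⟨∑ T ∈ A.powerset, (∏ i ∈ T, r i) * X T, ∑ T ∈ A.powerset, (∏ i ∈ T, r i) * Y T,
    ∑ T ∈ A.powerset, (∏ i ∈ T, r i) * Z T, fun s hs v => ?_⟩
  · rw [congrFun (congrFun f.psi s) v, show ma A (fun T => jL T ψ) s v =
      fun B => ∑ T ∈ A.powerset, mon T s * jL T ψ v B by ext; simp [ma]]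
    have a := fun T (hT : T ∈ A.powerset) => a T (mem_powerset.1 hT) v
    refine ⟨(Ps.sum _ h0 fun T hT => ((a T hT).1.smul h0 _).1.mono' h0
      (mul_le_mul_of_nonneg_right (mon_le hs T) ((a T hT).1.nonneg h0).1)
      (mul_le_mul_of_nonneg_right (mon_le hs T) ((a T hT).1.nonneg h0).2.1)
      (mul_le_mul_of_nonneg_right (mon_le hs T) ((a T hT).1.nonneg h0).2.2)).1,
      measurable_sum _ fun T hT => (a T hT).2.const_mul _⟩

theorem pu_nl (pu : ∀ s ∈ Pd r, PU p b (ψ s)) (hF : ∀ x i, ‖F x i‖ ≤ 1) (hs : s ∈ Pd r) :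
    PU p b (nL F ψ s) := pu_nL (f.pm_all h0) pu hF hs

/-- the dependence on the multipliers -/
theorem nl_dif (j : Jz p n Q g A r N ω ψ K) (hc : A.card ≤ c) (N0 : 0 ≤ N) (ω0 : 0 ≤ ω) :
    ∃ d, kN p n d (ω * (4 ^ c * N) * g ^ 2) ∧ ∀ (F F' : St → ι → ℂ) η, 0 ≤ η → (∀ x i, ‖F x i‖ ≤ 1) →
      (∀ x i, ‖F' x i‖ ≤ 1) → (∀ x i, ‖F x i - F' x i‖ ≤ η) → ∀ s ∈ Pd r,
      PM p (η * (4 ^ c * N)) (Q ^ 2 * (η * (4 ^ c * N))) (Q ^ 50 * ω * (η * (4 ^ c * N)) * g ^ 2)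
        (nL F ψ s - nL F' ψ s) ∧ KM p n (η • d) (nA F K s - nA F' K s) := by
  have c2 : (c : ℝ) ≤ 2 ^ c := by exact_mod_cast Nat.lt_two_pow_self.le
  have r0 : ∀ T : Finset ι, 0 ≤ ∏ i ∈ T, r i := fun T => prod_nonneg fun i _ => (f.pos i).le
  obtain ⟨d, d1, d2⟩ := sum_sz (Q := Q) (g := g) (n := n) h0 (A.powerset.erase ∅) (u := (jL · ψ))
    (J := (jA · K)) (w := fun T => 2 ^ c * ∏ i ∈ T, r i) (N := 2 ^ c * N) (fun T hT =>
      ⟨by have := r0 T; positivity, (j T (mem_powerset.1 (mem_of_mem_erase hT))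
        (nonempty_iff_ne_empty.2 (ne_of_mem_erase hT))).imp fun x a =>
          ⟨(mul_assoc _ _ _).trans_le (by gcongr; exact a.1), a.2⟩⟩) ω0
  have e : ((A.powerset.erase ∅).card : ℝ) * (2 ^ c * N) ≤ 4 ^ c * N := by
    rw [← mul_assoc, show (4 : ℝ) = 2 * 2 by norm_num, mul_pow]
    gcongr
    exact_mod_cast card_erase_le.trans ((card_powerset A).trans_le (Nat.pow_le_pow_right two_pos hc))
  have q : 0 ≤ Q ^ 50 * ω := mul_nonneg (Even.pow_nonneg (by decide) _) ω0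
  refine ⟨d, d1.mono (by gcongr), fun F F' η η0 h1 h2 h3 s hs => ?_⟩
  obtain ⟨a1, a2⟩ := d2 (fun T x => mon T s * (mon T (F x) - mon T (F' x))) η η0 fun T hT x =>
    (norm_mul_le_of_le (mon_le hs T) (mon_lip (h1 x) (h2 x) (h3 x) T)).trans (by
      have : (T.card : ℝ) ≤ c := by
        exact_mod_cast (card_le_card (mem_powerset.1 (mem_of_mem_erase hT))).trans hc
      nlinarith [mul_nonneg (r0 T) η0])
  have e1 : nL F ψ s - nL F' ψ s = ∑ T ∈ A.powerset.erase ∅,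
      mL (fun x => mon T s * (mon T (F x) - mon T (F' x))) (jL T ψ) := by
    rw [sum_erase _ (by ext; simp [mL, mon])]
    conv_lhs => rw [f.psi, nL_ma, nL_ma]
    ext v B
    simp [ma, mL, ← sum_sub_distrib, mul_sub, sub_mul, mul_assoc]
  have e2 : nA F K s - nA F' K s = ∑ T ∈ A.powerset.erase ∅,
      mA (fun x => mon T s * (mon T (F x) - mon T (F' x))) (jA T K) := by
    rw [sum_erase _ (by ext; simp [mA, mon])]
    conv_lhs => rw [f.act, nA_ma, nA_ma]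
    ext X c U
    simp [ma, mA, ← sum_sub_distrib, mul_sub, sub_mul, mul_assoc]
  rw [e1, e2]
  have e' := mul_le_mul_of_nonneg_left e η0
  exact ⟨PM.mono h0 a1 e' (mul_le_mul_of_nonneg_left e' (sq_nonneg _))
    (mul_le_mul_of_nonneg_right (mul_le_mul_of_nonneg_left e' q) (sq_nonneg _)), a2⟩

end Fi

/-- the step almost commutes with slowly varying multipliers of the sources -/
theorem Fi.comm (f : Fi S.p S.nf A W r θ0 ψ K) (h : S.Nu 100) (st : St2 S) (B : Bl S b θ)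
    (hθ : θ0 ≤ θ) (pu : ∀ s ∈ Pd r, PU S.p b (ψ s)) (j : Jz S.p S.nf S.QM S.g A r N ω ψ K)
    (hc : A.card ≤ c) (N0 : 0 < N) (h1 : √S.g ≤ ω) (hω : S.Q ^ 100 * ω ≤ 1)
    (hb : S.Q ^ 10 * θ ≤ ω * b) (e : ω ≤ ω') (hQ : 300 * 2 ^ c ≤ S.Q) (hF : ∀ x i, ‖F x i‖ ≤ 1)
    (hL : ∀ i, LipT S.nf a (F · i)) (a0 : 0 < a) (φ : Lx) :
    Sf S.p' S.n S.Q S.g' r (3 * S.D0 * (S.L * a) * (4 ^ c * N)) (3 * S.D0 * (S.L * a) * (4 ^ c * N)) ω'
      ((fun s => S.PL (nL F ψ s) (nA F K s) + φ) -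
        nL (fun y => F (up S.l y)) fun s => S.PL (ψ s) (K s) + φ)
      ((trK A fun s => S.KK (nL F ψ s) (nA F K s)) -
        nA (fun y => F (up S.l y)) (trK A fun s => S.KK (ψ s) (K s))) := by
  have ρ0 := rho_pos h
  have Q0 := S.Q0
  have g0 := h.ok.g0
  have gg := h.ok.gg'
  have ω0 := (sqrt_pos.2 g0).trans_le h1
  have ω1 := ω0.le.trans e
  have b0 := g0.trans_le B.g_le
  have θ1 : 0 < θ := lt_of_lt_of_le (by positivity) B.sq_le
  have D1 : (1 : ℝ) ≤ S.D0 := by exact_mod_cast Sd.D1 S.toTd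
  have η0 := mul_pos (Sd.L0 S.toTd) a0
  obtain ⟨d, d1, d2⟩ := f.nl_dif ρ0 j hc N0.le ω0.le
  have M0 : 0 < 4 ^ c * N := by positivity
  generalize 4 ^ c * N = M at *
  obtain ⟨k, k1, k2⟩ := f.km
  have hb1 : S.Q ^ 100 * b ≤ 1 := by nlinarith [B.b_le, pow_pos Q0 100]
  have hθ1 : S.Q ^ 100 * θ ≤ 1 := by nlinarith [B.θ_le, pow_pos Q0 100]
  have sm : ∀ {F : St → ι → ℂ}, (∀ x i, ‖F x i‖ ≤ 1) → ∀ s ∈ Pd r,
      S.Sml b θ k (nL F ψ s) (nA F K s) := fun hF s hs =>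
    ⟨hb1, hθ1, f.pu_nl ρ0 pu hF hs, km_nA k2 hF hs, k1.mono hθ⟩
  have dr : ∀ {F : St → ι → ℂ}, (∀ x i, ‖F x i‖ ≤ 1) → ∀ s ∈ Pd r, Dir S (nL F ψ s) (nA F K s) :=
    fun hF s hs => ⟨_, _, _, (sm hF s hs).pu, (sm hF s hs).km, k1⟩
  have sz : ∀ (y : St) (Y : Finset St) (R : ℕ), (∀ z ∈ Y, nearT S.n R y z) → ∀ s ∈ Pd r, _ :=
    fun y Y R hY => d2 (ctF S F (F (up S.l y)) Y) (fun _ => F (up S.l y)) (S.L * a * (R + 1))
      (by positivity) (ctF_le hF (hF _) Y) (fun _ => hF _) (ctF_sub hL a0.le hY)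
  generalize S.L * a = η at *
  refine ⟨fun s hs y => ?_, ?_⟩
  · obtain ⟨a1, a2⟩ := sz y (tb S.n S.D0 {rc S.n y}) S.D0
      (fun w hw => nearT_rc_left.1 (mem_tb_single.1 hw).2) s hs
    have A0 : 0 ≤ η * (S.D0 + 1) * M := by positivity
    have A1 : η * (S.D0 + 1) * M ≤ 2 * S.D0 * η * M := by nlinarith [mul_pos η0 M0]
    have A2 : 0 ≤ S.D0 * η * M := by positivity
    have q := lin_step_c h st ⟨a1, _, a2, (d1.smul (by positivity)).mono (le_of_eq (by ring))⟩ h1 hω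
      (rc S.n y)
    have u := pl_sub st (dr (ctF_le (S := S) hF (hF (up S.l y)) (tb S.n S.D0 {rc S.n y})) s hs)
      (dr (F := fun _ => F (up S.l y)) (fun _ => hF _) s hs) 1
    simp only [one_smul] at u
    rw [u, Pi.sub_apply, show S.PL _ _ (rc S.n y) = S.PL _ _ (rc S.n y)
      from (Sh.Pl_ag (Sh.ag0 (ctF_ag h _ _) (h.mono (Nat.zero_le _)) (rc_mem h.ok.odd y)
        Subset.rfl)).symm, PL_rc, PL_rc] at q
    rw [show ∀ u v : (ι → ℂ) → Lx, (u - v) s y = u s y - v s y from fun _ _ => rfl, nL, Pi.add_apply,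
      Pi.add_apply, add_sub_add_right_eq_sub]
    have c1 := cr_le h
    have c2 := (cr_pos h).le
    have c3 : S.cr * (η * (S.D0 + 1) * M + η * (S.D0 + 1) * M) ≤ 3 * S.D0 * η * M := by nlinarith
    exact ⟨q.1.mono' (rho'_pos h) (by nlinarith [qom h hω (i := 50) (by norm_num)]) (by gcongr)
      (by gcongr), q.2⟩
  obtain ⟨q, q1, q2⟩ := st.K b θ _ hb1 hθ1 b0.le (k1.mono hθ)
  have f' := f.nl ρ0 hF
  have a1 := fa_KK st f.pos (f'.sl r) (f'.sa r) (sm hF) q2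
  have a2 := FA.nA (F := fun y => F (up S.l y)) (fa_KK st f.pos (f.sl r) (f.sa r)
    (fun s hs => ⟨hb1, hθ1, pu s hs, k2 s hs, k1.mono hθ⟩) q2) fun _ => hF _
  obtain ⟨ε, he⟩ : ∃ ε, ε = 2 * (ω * M * S.g ^ 2) / θ := ⟨_, rfl⟩
  have e0 : 0 < ε := by rw [he]; positivity
  obtain ⟨l, l1, l2⟩ := lip1 h st B (k1.mono hθ) (d := ε⁻¹ • d) ((d1.smul (inv_pos.2 e0).le).mono (by
    rw [inv_mul_le_iff₀ e0, he, div_mul_cancel₀ _ θ1.ne']
    linarith [(by positivity : 0 < ω * M * S.g ^ 2)]))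
  have D2 : 1 ≤ S.p'.D := by have := Sd.D1 S.toTd; rw [Sd.p'_D]; omega
  have a3 : FA r S.p' S.n (fun Y c => (η + η * ((tau S.n S.p'.D Y + 2) * S.p'.D : ℕ)) *
      ((2 * ε) • l) Y c) _ := ⟨f.pos, (a1.sub a2).hol, fun s hs => km_pt fun Y c => by
    obtain ⟨b1, b2⟩ := sz (px Y) Y _ (fun w hw => tau_diam D2 (px_mem ⟨w, hw⟩) hw) s hs
    generalize ((tau S.n S.p'.D Y + 2) * S.p'.D : ℕ) = R at *
    have R0 : 0 ≤ η * (R + 1) := by positivity
    refine ⟨_, _, l2 (η * (R + 1) * ε) _ _ _ _ (by positivity)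
      (sm (F := fun _ => F (up S.l (px Y))) (fun _ => hF _) s hs)
      (sm (ctF_le hF (hF (up S.l (px Y))) Y) s hs) (pu_mono (Sz.pu h ⟨b1, _, b2,
        (d1.smul R0).mono (le_of_eq (by ring))⟩ hω) ?_) ?_, ?_, le_of_eq ?_⟩
    · rw [he, mul_assoc _ (_ / _), div_mul_eq_mul_div, ← mul_div_assoc, le_div_iff₀ θ1]
      calc _ = S.Q ^ 10 * θ * (η * (R + 1) * (2 * M * S.g ^ 2)) := by ring
        _ ≤ ω * b * (η * (R + 1) * (2 * M * S.g ^ 2)) := by gcongr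
        _ = _ := by ring
    · rwa [← smul_smul, smul_inv_smul₀ e0.ne']
    · exact congrArg (· - _) (Sh.KK_ag (ctF_ag h _ Y) (h.mono (Nat.zero_le _)))
    · simp only [Pi.smul_apply, smul_eq_mul]
      ring⟩
  refine ⟨_, ((kn_diam (l1.smul (by positivity : 0 ≤ 2 * ε)) η0.le η0.le).smul
    (by positivity : (0 : ℝ) ≤ 2 ^ c)).mono ?_, fun s hs => ?_⟩
  · have c1 : 2 ^ c / S.Q ≤ 1 / 300 := by rw [div_le_div_iff₀ Q0 (by norm_num)]; linarith
    rw [Sd.p'_D]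
    push_cast
    calc _ = 2 ^ c / S.Q * (16 * (1 + 40 * S.D0)) * (ω * (η * M) * S.g ^ 2) := by
          rw [he]; field_simp; ring
      _ ≤ 1 / 300 * (900 * S.D0) * (ω' * (η * M) * S.g' ^ 2) :=
          mul_le_mul (mul_le_mul c1 (by linarith) (by positivity) (by norm_num)) (by gcongr)
            (by positivity) (by positivity)
      _ = _ := by ring
  · have := (a3.km_trK (A := A) (ρ := 1) (D := fun _ _ => A) (fun _ _ _ a b => (b a).elim)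
      fun i => (hs i).le.trans (one_mul _).ge).mono (k' := (2 ^ c : ℝ) • fun Y c => _)
      fun Y c => mul_le_mul_of_nonneg_right ((by
        rw [one_add_one_eq_two]; exact pow_le_pow_right₀ one_le_two hc) :
        (1 + 1 : ℝ) ^ A.card ≤ _) (mul_nonneg (by positivity) ((l1.smul (by positivity)).1 Y c))
    rw [nA_trK]
    simp only [trK, a1.jA_sub a2, ma, smul_sub, sum_sub_distrib] at this
    exact this

end Pool.Agent.Lib.MP_7f377f_mp.RG.Q4.En
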