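import Pool.Agent.Lib.MP_7f377f_mp.G.S23R1
import Pool.Agent.Lib.MP_7f377f_mp.G.S23W
import Pool.Agent.Lib.MP_7f377f_mp.G.S23F2
import Pool.Agent.Lib.MP_7f377f_mp.G.MgX1

/-! Second jets of slowly varying sources. -/

noncomputable section

open Pool.Agent.Lib.MP_7f377f_mp.Jet

set_option linter.unusedSectionVars false
variable [Pool.Agent.Lib.MP_7f377f_mp.GD]

namespace Pool.Agent.Lib.MP_7f377f_mp.RG.Q4.En

open Finset Real Sg Pos Function Metric

attribute [local irreducible] box lbox tb rc tau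

variable {ι κ : Type} [DecidableEq ι] [DecidableEq κ] {A : Finset ι} {S : Sd} {p : Pa} {n : ℕ}
  {Q g β a τ σ x y ω ω' θ E b : ℝ} {r : ι → ℝ} {ψ : (ι → ℂ) → Lx} {K : (ι → ℂ) → Ac}
  {F : ι → Sr} {s : ι → ℂ} {m : St → ι → ℂ} {Y C : Fy ι} {W : ι → Finset St} {e : κ → ι}

/-- the sources are multiplied by functions of the site -/
def Fy.mv (Y : Fy ι) (m : St → ι → ℂ) : Fy ι := ⟨nL m Y.ψ, nA m Y.K, Y.E, Y.Z⟩

theorem Fy.mv_jt (T : Finset ι) : (Y.mv m).jt T =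
    (mL (fun x => mon T (m x)) (Y.jt T).1, mA (fun x => mon T (m x)) (Y.jt T).2) :=
  Prod.ext jL_nL jA_nA

omit [DecidableEq ι] in
theorem Sf.om (h0 : 0 < p.ρ) (y0 : 0 ≤ y) (e : ω ≤ ω') (h : Sf p n Q g r x y ω ψ K) :
    Sf p n Q g r x y ω' ψ K :=
  have q : 0 ≤ Q ^ 50 := Even.pow_nonneg (by decide) _
  ⟨fun s hs => PM.mono h0 (h.1 s hs) le_rfl le_rfl (by gcongr),
    h.2.imp fun _ a => ⟨a.1.mono (by gcongr), a.2⟩⟩

omit [DecidableEq ι] in
theorem sF_two {x : St} (hc : A.card ≤ 2) (hF : ∀ i ∈ A, ∀ μ ν, ‖F i x μ ν‖ ≤ a) (a0 : 0 ≤ a)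
    (hs : s ∈ Pd fun _ => σ) (σ0 : 0 < σ) (μ ν : Fin 4) : ‖sF A F s x μ ν‖ ≤ 2 * σ * a := by
  simp only [sF, Finset.sum_apply, Pi.smul_apply, smul_eq_mul]
  refine (norm_sum_le _ _).trans ((sum_le_card_nsmul _ _ _ fun i hi => norm_mul_le_of_le
    (hs i).le (hF i hi μ ν)).trans ?_)
  rw [nsmul_eq_mul, mul_assoc]
  exact mul_le_mul_of_nonneg_right (by exact_mod_cast hc) (by positivity)

/-- the family at level zero is close to a slowly varying multiple of the covariant family -/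
theorem top_mv (h : S.Nu 100) (hβ : S.β / 2 ≤ β) (hc : A.card ≤ 2) (hL : ∀ i, LipT S.nf a (m · i))
    (a0 : 0 < a) (hm : ∀ x i, ‖m x i‖ ≤ 1) (hF : ∀ i x μ ν, ‖F i x μ ν - m x i‖ ≤ τ) (τ1 : τ ≤ 1)
    (τ0 : 0 ≤ τ) (σ0 : 0 < σ) (hσ : 100 * σ ≤ S.β) :
    Sf S.p S.nf S.QM S.g (fun _ => σ) (2 * σ * (10 ^ 37 * τ + a)) (2 * σ * (10 ^ 37 * τ + a)) √S.g
      ((fun s => sL (sF A F s)) - nL m fun s => sL (sF A 1 s))
      ((trK A fun s => sK S.p S.nf β (sF A F s)) -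
        nA m (trK A fun s => sK S.p S.nf β (sF A 1 s))) := by
  have β0 := h.ok.β0
  have g0 := h.ok.g0
  have M0 := h.ok.QM1
  have hD := h.ok.DM.trans' (Sd.D1 _)
  have D1 : 1 ≤ S.p.D := by rw [Sd.p_D]; omega
  have r0 : ∀ _ : ι, 0 < σ := fun _ => σ0
  have F2 : ∀ i x μ ν, ‖F i x μ ν‖ ≤ 2 := fun i x μ ν =>
    (norm_le_insert' _ (m x i)).trans (by linarith [hF i x μ ν, hm x i])
  have u : ∀ (t s : ι → ℂ), sF A 1 (t * s) = sF A (fun i _ _ _ => t i) s := fun t s => by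
    funext x μ ν
    simp [sF, Finset.sum_apply, mul_comm]
  have v : ∀ (F F' : ι → Sr) s, sF A (F - F') s = sF A F s - sF A F' s := fun F F' s => by
    simp [sF, smul_sub]
  refine ⟨fun s hs x => ?_, ?_⟩
  · have q := sL_sz (F := sF A (F - fun i x _ _ => m x i) s) h
      (fun x => sF_two hc (fun i _ => hF i x) τ0 hs σ0) x
    rw [show ((fun s => sL (sF A F s)) - nL m fun s => sL (sF A 1 s)) s x =
      sL (sF A (F - fun i x _ _ => m x i) s) x from funext fun B => by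
        simp only [v, Pi.sub_apply, nL, u]
        simp only [sL, sub_mul, Pi.sub_apply, sum_sub_distrib, sF, Finset.sum_apply, Pi.smul_apply]]
    exact ⟨q.1.mono' (rho_pos h) (by nlinarith) (by gcongr; linarith) (by gcongr; linarith), q.2⟩
  have a1 := src_fa (A := A) (F := F) h r0 (fun s hs x μ ν => (sF_two hc (fun i _ => F2 i x)
    zero_le_two hs σ0 μ ν).trans (by linarith)) hβ
  have a2 := FA.nA (src_fa (A := A) (F := 1) h r0 (fun s hs x μ ν => (sF_two (a := 1) hc (by simp)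
    zero_le_one hs σ0 μ ν).trans (by linarith)) hβ) hm
  have a3 : FA (fun _ => σ) S.p S.nf (fun X c => (τ + a * ((tau S.nf S.p.D X + 2) * S.p.D : ℕ)) *
      ((32 * σ / S.β) • kI S.p S.nf (S.β / 4)) X c) _ :=
    ⟨r0, (a1.sub a2).hol, fun s hs => km_pt fun X c => by
      have R1 : (1 : ℝ) ≤ ((tau S.nf S.p.D X + 2) * S.p.D : ℕ) := by
        exact_mod_cast Nat.mul_pos (Nat.succ_pos _) D1
      have b1 : ∀ i, ∀ y ∈ X, ∀ μ ν, ‖F i y μ ν - m (px X) i‖ ≤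
          min (τ + a * ((tau S.nf S.p.D X + 2) * S.p.D : ℕ)) 3 := fun i y e μ ν => le_min
        ((norm_sub_le_norm_sub_add_norm_sub _ (m y i) _).trans (add_le_add (hF i y μ ν)
          (hL i _ _ _ (tau_diam D1 e (px_mem ⟨y, e⟩)))))
        ((norm_sub_le_of_le (F2 i y μ ν) (hm _ i)).trans (by norm_num))
      generalize ((tau S.nf S.p.D X + 2) * S.p.D : ℕ) = R at *
      have η0 : 0 < min (τ + a * R) 3 := lt_min (by positivity) three_pos
      have η1 := min_le_left (τ + a * R) 3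
      have η2 := min_le_right (τ + a * R) 3
      generalize min (τ + a * R) 3 = η at *
      have := ((km_schwarz (e := 16 * σ * η / S.β) (F := fun t => sK S.p S.nf β (sF A (fun i _ _ _ =>
        m (px X) i) s + t • sF A (fun i y => if y ∈ X then F i y - fun _ _ => m (px X) i else 0) s))
        (by positivity) (fun t ht => sK_km h hβ fun y μ ν => ?_) fun X c U => (sK_diff
          (fun x μ ν => by simp only [Pi.add_apply, Pi.smul_apply]; fun_prop)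
          X c U).differentiableOn).2 1 (by
            rw [norm_one, one_mul, div_lt_one β0]; nlinarith)).1
      · refine ⟨_, _, this, ?_, ?_⟩
        · rw [Pi.sub_apply, Pi.sub_apply, Pi.sub_apply, Pi.sub_apply, Pi.sub_apply, nA, u, zero_smul,
            add_zero, one_smul]
          exact congrArg (· - _) (sK_loc h.ok.odd_nf (fun y hy => by
            funext μ ν
            simp [sF, Finset.sum_apply, hy, mul_sub]) c)
        · simp only [Pi.smul_apply, smul_eq_mul, norm_one, one_mul, ← mul_assoc]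
          refine mul_le_mul_of_nonneg_right ?_ ((kI_up h).1 X c)
          rw [← mul_div_assoc, ← mul_div_assoc]
          exact div_le_div_of_nonneg_right (by nlinarith) β0.le
      · rw [inv_div, mem_ball_zero_iff, lt_div_iff₀ (by positivity)] at ht
        have c1 := sF_two (x := y) (F := fun i _ _ _ => m (px X) i) hc (fun i _ _ _ => hm _ i)
          zero_le_one hs σ0 μ ν
        have c2 := sF_two (x := y) (F := fun i y => if y ∈ X then F i y - fun _ _ => m (px X) i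
          else 0) hc (fun i _ μ ν => by
            split_ifs with e
            exacts [b1 i y e μ ν, by simpa using η0.le]) η0.le hs σ0 μ ν
        exact (norm_add_le_of_le c1 (norm_mul_le_of_le le_rfl c2)).trans (by nlinarith)⟩
  have k1 := kn_diam ((kI_up h).smul (s := 32 * σ / S.β) (by positivity)) τ0 a0.le
  refine ⟨_, (k1.smul (s := 4) (by norm_num)).mono ?_, fun s hs => ?_⟩
  · have d : 32 * (S.p.D : ℝ) ≤ S.Q := by
      have := h.mon (C := 640) (i := 1) (j := 1) (by norm_num) (by have := h.exps; omega) (by omega)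
      have := mul_le_mul_of_nonneg_right h.r_le_L (Nat.cast_nonneg S.D0)
      linarith [h.D_le]
    have Q1 := S.Q1
    calc _ = σ * (16 * τ + 32 * S.p.D * a) * (8 / S.β * S.g ^ 31) := by ring
      _ ≤ σ * (16 * τ * S.Q + S.Q * a) * (8 / S.β * S.g ^ 31) := by
          gcongr _ * (?_ + ?_ * _) * _
          exact le_mul_of_one_le_right (by positivity) Q1
      _ = σ * (16 * τ + a) * (S.Q * (8 / S.β * S.g ^ 31)) := by ring
      _ ≤ 2 * σ * (10 ^ 37 * τ + a) * (√S.g * S.g ^ 2) :=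
          mul_le_mul (by nlinarith [mul_pos σ0 a0, mul_nonneg σ0.le τ0]) (tiny h) (by positivity)
            (by positivity)
      _ = _ := by ring
  · have := (a3.km_trK (A := A) (ρ := 1) (D := fun _ _ => A) (fun _ _ _ a b => (b a).elim)
      fun i => (hs i).le.trans (one_mul _).ge).mono (k' := (4 : ℝ) • fun Y c => _)
      fun Y c => mul_le_mul_of_nonneg_right ((by
        rw [one_add_one_eq_two]; exact (pow_le_pow_right₀ one_le_two hc).trans (by norm_num)) :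
        (1 + 1 : ℝ) ^ A.card ≤ _) (k1.1 Y c)
    rw [nA_trK]
    simp only [trK, a1.jA_sub a2, ma, smul_sub, sum_sub_distrib] at this
    exact this

theorem ma_dif {V : Type} [AddCommGroup V] [Module ℂ V] {u v : (ι → ℂ) → V} {a a' : Finset ι → V}
    (h : u = ma A a) (h' : v = ma A a') : u - v = ma A (a - a') := by
  subst h h'
  ext s
  simp [ma, smul_sub]

theorem ma_two {V : Type} [AddCommMonoid V] [Module ℂ V] (a : Finset (Fin 2) → V) (s : Fin 2 → ℂ) :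
    ma univ a s = a ∅ + s 1 • a {1} + s 0 • (a {0} + s 1 • a univ) := by
  rw [show (univ : Finset (Fin 2)) = insert 0 (insert 1 ∅) from rfl, ma_insert (by decide),
    ma_insert (by decide), ma_insert (by decide)]
  simp [ma, mon]

/-- the second jet from the size of the family -/
theorem Sf.two {a : Finset (Fin 2) → Lx} {a' : Finset (Fin 2) → Ac} (h0 : 0 < p.ρ) (σ0 : 0 < σ)
    (h : Sf p n Q g (fun _ => σ) x x ω (ma univ a) (ma univ a')) :
    Sz p n Q g (16 * x / σ ^ 2) (16 * x / σ ^ 2) ω (a univ) (a' univ) := by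
  have t0 : (σ / 2 : ℝ) ≠ 0 := by positivity
  have m : ∀ u v : ℝ, |u| < σ → |v| < σ → (![u, v] : Fin 2 → ℂ) ∈ Pd fun _ => σ := fun u v _ _ =>
    Fin.forall_fin_two.2 (by simpa using ⟨‹_›, ‹_›⟩)
  have c1 : |σ / 2| < σ := by rw [abs_of_pos (half_pos σ0)]; linarith
  have c0 : |(0 : ℝ)| < σ := by simpa
  have := sz_smul h0 (sz_sub h0 (sz_sub h0 (h.sz (m _ _ c1 c1)) (h.sz (m _ _ c1 c0)))
    (sz_sub h0 (h.sz (m _ _ c0 c1)) (h.sz (m _ _ c0 c0)))) ((σ / 2 : ℝ) ^ 2)⁻¹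
  have k : ∀ {V : Type} [AddCommGroup V] [Module ℂ V] (a : Finset (Fin 2) → V) (t : ℝ), t ≠ 0 →
      ((t : ℂ) ^ 2)⁻¹ • (ma univ a ![t, t] - ma univ a ![t, (0 : ℝ)] -
        (ma univ a ![(0 : ℝ), t] - ma univ a ![(0 : ℝ), (0 : ℝ)])) = a univ := fun a t e => by
    rw [inv_smul_eq_iff₀ (pow_ne_zero _ (Complex.ofReal_ne_zero.2 e))]
    simp only [ma_two, Matrix.cons_val_zero, Matrix.cons_val_one, Complex.ofReal_zero]
    module
  rw [k _ _ t0, k _ _ t0, norm_inv, norm_pow, Complex.norm_real, norm_of_nonneg (half_pos σ0).le]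
    at this
  convert this using 1 <;> field_simp <;> ring

theorem Fi.pull_jt [Fintype κ] (F : Fi p n A W r θ Y.ψ Y.K) (he : Injective e) (h : ∀ x, e x ∈ A)
    (T : Finset κ) : (Y.pull e).jt T = Y.jt (T.image e) :=
  Prod.ext ((congrArg (jL T) (funext fun _ => (congrFun F.psi _).trans (ma_exz he _ h))).trans
    (jL_ma _ (subset_univ T))) ((congrArg (jA T) (funext fun _ => (congrFun F.act _).trans
      (ma_exz he _ h))).trans (jA_ma _ (subset_univ T)))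

namespace Gl

variable (G : Gl)

/-- a family in the large ball -/
def Pr (A : Finset ι) (k : ℕ) (r : ι → ℝ) (Y : Fy ι) : Prop :=
  (∃ W, Fi (G.p k) (G.N k) A W r (G.Q k ^ 329)⁻¹ Y.ψ Y.K) ∧
    ∀ s ∈ Pd r, PU (G.p k) (G.Q k ^ 211)⁻¹ (Y.ψ s)

/-- a family with small jets -/
def Cv2 (k : ℕ) (σ : ℝ) (C : Fy (Fin 2)) : Prop := G.Pr univ k (fun _ => σ) C ∧
  Jz (G.p k) (G.N k) (G.Q k) (G.g k) univ (fun _ => σ) (1000 * σ) (G.Q k ^ 100)⁻¹ C.ψ C.K

/-- the letters `e` of `Y` are close to the multiple `g` of `C` -/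
def Dm (J k : ℕ) (a τ σ : ℝ) (e : Fin 2 → ι) (g : ι → St → ℂ) (Y : Fy ι) (C : Fy (Fin 2)) : Prop :=
  G.Df2 k (fun _ => σ) (1.01 ^ (J - k) * (2 * σ * (10 ^ 37 * τ)) + 2 * G.Q k * (G.rt J k * a) * σ)
    (1.01 ^ (J - k) * (2 * σ * (10 ^ 37 * τ)) + 2 * G.Q k * (G.rt J k * a) * σ) (Y.pull e)
    (C.mv fun y i => G.fd J k (g (e i)) y)

variable {G} {J J' i j k : ℕ} {z : En.Z} {σ' : ℝ}

theorem Dm.hy {e : Fin 2 → ι} {g : ι → St → ℂ} {C : Fy (Fin 2)} (D : G.Dm J k a τ σ e g Y C)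
    (φ : Lx) : G.Dm J k a τ σ e g (Y.hy φ) (C.hy φ) := by
  rw [Dm, Df2] at *
  convert D using 1
  exacts [funext₂ fun _ _ => add_sub_add_right_eq_sub .., rfl]

omit [DecidableEq ι] in
theorem pd_le {r' : ι → ℝ} (e : ∀ x, r' x ≤ r x) (hs : s ∈ Pd r') : s ∈ Pd r :=
  fun x => (hs x).trans_le (e x)

theorem Pr.pull [Fintype κ] (P : G.Pr A k r Y) (he : Injective e) (h : ∀ x, e x ∈ A) (σ0 : 0 < σ)
    (hr : ∀ x, σ ≤ r (e x)) : G.Pr univ k (fun _ => σ) (Y.pull e) :=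
  let ⟨⟨W, F⟩, q⟩ := P
  ⟨⟨_, (fi_pull (Y := ⟨Y.ψ, Y.K, Y.E, W⟩) he F h).mono (fun _ => σ0) hr le_rfl fun _ => Subset.rfl⟩,
    fun _ hs => q _ (exz_mem he F.pos (pd_le hr hs))⟩

theorem ft_pull [Fintype κ] [Inhabited κ] (he : Injective e) (h : ∀ x, e x ∈ A) :
    (G.ft A F W b J).pull e = G.ft univ (F ∘ e) (W ∘ e) b J := by
  have u := xt_se (G := G) (H := fun i => (F i, 0, 0)) (W := W) (b := b) (J := J) he h (W ∘ e)
  rw [xt_pl] at u
  erw [xt_pl (F ∘ e)] at u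
  exact Fy.mk.injEq .. ▸ ⟨u.1.symm, u.2.1.symm, u.2.2.symm, rfl⟩

namespace Ok

variable (h : G.Ok)
include h

theorem pr_up (P : G.Pr A (k + 1) r Y) :
    ∀ s ∈ Pd r, PU (G.p (k + 1)) (G.Q k ^ 210)⁻¹ (Y.ψ s) :=
  h.pn_up (r := fun _ => r) (Y := fun _ => Y) P.2

theorem fs_pull [Fintype κ] (t : G.Tz J (k + 1) z) (P : G.Pr A (k + 1) r Y) (he : Injective e)
    (hA : ∀ x, e x ∈ A) : (G.fs A k z Y).pull e = G.fs univ k z (Y.pull e) := by
  obtain ⟨W, F⟩ := P.1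
  obtain ⟨d, d1, d2⟩ := h.sml_big (Y := ⟨Y.ψ, Y.K, Y.E, W⟩) F z
  obtain ⟨b1, -, b3⟩ := h.big_le k
  have st := h.st2 t
  have d3 := d1.mono (show _ ≤ 5 * (G.Q k ^ 329)⁻¹ by linarith [inv_pos.2 (pow_pos (h.Q0 k) 329)])
  obtain ⟨q, -, q2⟩ := st.K _ _ _ b1 b3 (inv_pos.2 (pow_pos (h.Q0 k) _)).le d3
  have a := fa_KK st F.pos (F.sl r) (F.sa r) (fun s hs => ⟨b1, b3, h.pr_up P s hs, d2 s hs, d3⟩) q2
  simp only [fs, Fy.pull, Fy.mk.injEq, true_and, and_true, trK, ma_exz he _ hA]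
  exact ma_congr fun T _ => funext₃ fun X c U => (jd_exz he ⟨_, a.sh X c U⟩ T).symm

theorem cv2_of {C : Fy (Fin 2)} {f : (Fin 2 → ℂ) → Conf → ℂ} (w : G.W2 k z σ' C f) (σ0 : 0 < σ)
    (e : σ ≤ σ') (hσ : σ * G.Q k ^ 220 ≤ G.bb k) : G.Cv2 k σ C := by
  have a := h.inv_le k (show 211 < 212 by norm_num)
  have a' := inv_pos.2 (pow_pos (h.Q0 k) 212)
  refine ⟨⟨⟨_, w.fd.fi.mono (fun _ => σ0) (fun _ => e) le_rfl fun _ => Subset.rfl⟩, fun s hs =>
    pu_mono (w.pu s (pd_le (fun _ => e) hs)) (by linarith)⟩, fun T _ hT => ?_⟩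
  obtain ⟨x, rfl⟩ | rfl : (∃ x, T = {x}) ∨ T = univ := by revert T; decide
  · exact ⟨_, by rw [prod_singleton, mul_comm], (w.jt x).1⟩
  · refine ⟨_, ?_, w.sz⟩
    have := mul_le_mul_of_nonneg_right hσ (sq_nonneg (G.g k))
    rw [h.bg] at this
    rw [prod_const, card_fin]
    nlinarith

variable {Y C : Fy (Fin 2)} {m : St → Fin 2 → ℂ}

/-- one step -/
theorem mv_step (t : G.Tz J (k + 1) z) (P : G.Pr univ (k + 1) (fun _ => σ) Y)
    (c : G.Cv2 (k + 1) σ C) (hm : ∀ x i, ‖m x i‖ ≤ 1) (hL : ∀ i, LipT (G.N (k + 1)) a (m · i))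
    (a0 : 0 < a) (E0 : 0 ≤ E) (D : G.Df2 (k + 1) (fun _ => σ) (E + 2 * G.Q (k + 1) * a * σ)
      (E + 2 * G.Q (k + 1) * a * σ) Y (C.mv m)) :
    G.Df2 k (fun _ => σ) (1.01 * E + 2 * G.Q k * (G.L k * a) * σ)
      (1.01 * E + 2 * G.Q k * (G.L k * a) * σ) (G.fs univ k z Y)
      ((G.fs univ k z C).mv fun y => m (up (G.l k) y)) := by
  obtain ⟨W, F⟩ := P.1
  obtain ⟨W', F'⟩ := c.1.1
  have nu := (h.sd_all k z).nu
  have n := h.sd_nf k z
  have q := h.Q0 k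
  have q' := h.Q0 (k + 1)
  have σ0 := F.pos 0
  have ρ0 := h.ρ0 (k + 1)
  have a1 : (G.Q k ^ 101)⁻¹ ≤ (G.Q (k + 1) ^ 100)⁻¹ :=
    inv_anti₀ (pow_pos q' _) (nu.QM_pow' (by norm_num))
  have d1 := h.dif1 (cl := fun _ => ()) (c := 2) (C := 2⁻¹) (Y := ⟨Y.ψ, Y.K, Y.E, W ⊔ W'⟩)
    (Y' := C.mv m) t ⟨F.mono F.pos (fun _ => le_rfl) le_rfl fun _ => subset_union_left,
      (F'.nl ρ0 hm).mono F.pos (fun _ => le_rfl) le_rfl fun _ => subset_union_right, h.pr_up P,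
      fun s => F'.pu_nl ρ0 (h.pr_up c.1) hm⟩ D (by positivity) (fun _ _ _ _ e => (e rfl).elim)
    (fun _ => card_le_univ _) (by rw [sd_cr]; linarith [h.cr1 k])
    (by linarith [h.cQ k (C := 64) (by norm_num)])
  have d2 := (h.fi_sd F' z).comm (c := 2) nu (h.st2 t) (h.bl_big k z) (by
      linarith [h.inv_up k.le_succ 329, inv_pos.2 (pow_pos q 329)]) (h.pr_up c.1) (n ▸ c.2) le_rfl
    (by positivity) (h.sg_le _) (h.om_le k) (by
      calc _ = 5 * (G.Q k ^ 319)⁻¹ := by change G.Q k ^ 10 * _ = _; field_simp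
        _ ≤ (G.Q k ^ 311)⁻¹ := by
          linarith [h.inv_le k (i := 311) (j := 319) (by norm_num), inv_pos.2 (pow_pos q 319)]
        _ = (G.Q k ^ 101)⁻¹ * (G.Q k ^ 210)⁻¹ := by ring
        _ ≤ _ := by gcongr) (h.om_up k) (h.cQ k (by norm_num)) hm (n ▸ hL) a0
    fun _ => src (G.sd k z) (G.kp k z)
  have d3 := d1.add (h.ρ0 k) d2
  have L0 := Sd.L0 (G.sd k z).toTd
  have b1 : 48000 * (G.sd k z).D0 ≤ G.Q k := by
    have := nu.mon (C := 48000) (i := 0) (j := 1) (by norm_num) (by omega) (by omega)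
    rw [pow_zero, mul_one, pow_one] at this
    exact this
  have b2 : 3 * G.Q (k + 1) ≤ G.Q k * G.L k := by
    have := nu.crL (C := 3) (k := 1) (by norm_num) (by omega)
    have : 3 * (G.sd k z).QM ≤ (G.sd k z).Q * (G.sd k z).L := by nlinarith [nu.QM_le, (G.sd k z).Q0]
    exact this
  have b3 : (E + 2 * G.Q (k + 1) * a * σ + (E + 2 * G.Q (k + 1) * a * σ)) / G.Q k ^ 50 ≤
      (E + 2 * G.Q (k + 1) * a * σ) / 100 := by
    rw [div_le_div_iff₀ (by positivity) (by norm_num)]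
    nlinarith [h.qpw k (show 0 < 50 by norm_num), (by positivity : 0 < G.Q (k + 1) * a * σ)]
  have b4 := mul_le_mul_of_nonneg_right b1 (by positivity : 0 ≤ (G.sd k z).L * a * σ)
  have b5 := mul_le_mul_of_nonneg_right b2 (by positivity : 0 ≤ a * σ)
  have b6 : (G.sd k z).L = G.L k := rfl
  have b7 : 0 < G.Q (k + 1) * a * σ := by positivity
  rw [b6] at b4 d3
  have d4 := Sf.mono (h.ρ0 k) (by positivity) d3 (x' := 1.01 * E + 2 * G.Q k * (G.L k * a) * σ)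
    (y' := 1.01 * E + 2 * G.Q k * (G.L k * a) * σ) (by linarith) (by linarith)
  rw [Df2]
  convert d4 using 1
  exacts [(sub_add_sub_cancel _ (G.fs univ k z (C.mv m)).ψ _).symm,
    (sub_add_sub_cancel _ (G.fs univ k z (C.mv m)).K _).symm]

variable {Y : Fy ι} {e : Fin 2 → ι} {g : ι → St → ℂ} {W' : Fin 2 → Finset St} (he : Injective e)
  (hA : ∀ x, e x ∈ A) (P : ∀ x ∈ A, G.Pf J a τ (F x) (g x))
include he hA P

/-- the jet in two sources -/
theorem dm_out {r' : Fin 2 → ℝ} {θ' : ℝ} (f : Fi (G.p k) (G.N k) A Y.Z r θ Y.ψ Y.K)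
    (f' : Fi (G.p k) (G.N k) univ W' r' θ' C.ψ C.K) (σ0 : 0 < σ) (a0 : 0 < a)
    (D : G.Dm J k a τ σ e g Y C) : G.Sz k (32 * G.pe J k a τ / σ) (32 * G.pe J k a τ / σ)
      (G.Q k ^ 100)⁻¹ ((Y.jt {e 0, e 1}).1 - mL (G.fd J k (g (e 0) * g (e 1))) (C.jt univ).1)
      ((Y.jt {e 0, e 1}).2 - mA (G.fd J k (g (e 0) * g (e 1))) (C.jt univ).2) := by
  have f1 := fi_pull he f hA
  have f2 := f'.nl (h.ρ0 k) (F := fun y i => G.fd J k (g (e i)) y) fun _ _ => (P _ (hA _)).le _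
  have q := h.Q0 k
  rw [Dm, Df2, Fy.mv, ma_dif f1.psi f2.psi, ma_dif f1.act f2.act] at D
  have u := f.pull_jt he hA univ
  rw [show image e univ = {e 0, e 1} by ext; simp [Fin.exists_fin_two, eq_comm]] at u
  have := D.two (h.ρ0 k) σ0
  rw [Pi.sub_apply, Pi.sub_apply, jL_nL, jA_nA] at this
  simp only [mon, Fin.prod_univ_two] at this
  rw [← u]
  have c : 16 * (1.01 ^ (J - k) * (2 * σ * (10 ^ 37 * τ)) + 2 * G.Q k * (G.rt J k * a) * σ) / σ ^ 2 ≤
      32 * G.pe J k a τ / σ := by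
    rw [div_le_div_iff₀ (by positivity) σ0, pe]
    nlinarith [(by positivity : 0 ≤ G.Q k * (G.rt J k * a) * σ ^ 2)]
  exact h.sz_le this (by positivity) c c le_rfl

variable (a0 : 0 < a) (τ0 : 0 ≤ τ) (σ0 : 0 < σ)
include a0 τ0 σ0

/-- many steps -/
theorem dm_fw (t : G.Tu b J') (hi : i ≤ J) (hi' : i ≤ J') (D : G.Dm J i a τ σ e g Y C) :
    ∀ k ≤ i, (∀ n, k < n → n ≤ i → G.Pr A n (fun _ => σ) (G.fw A b J' Y i n) ∧
      G.Cv2 n σ (G.fw univ b J' C i n)) →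
    G.Dm J k a τ σ e g (G.fw A b J' Y i k) (G.fw univ b J' C i k) :=
  dw_ind (fun _ => by rwa [fw_top, fw_top]) fun k hk ih R => by
    obtain ⟨r1, r2⟩ := R _ k.lt_succ_self hk
    have z := (t.gd (k + 1) (by omega)).tz
    have := h.mv_step z (r1.pull he hA σ0 fun _ => le_rfl) r2 (fun _ _ => (P _ (hA _)).le _)
      (fun x => h.fd_lip (P _ (hA x)).lip (k + 1) (by omega)) (mul_pos (rt_pos ..) a0)
      (by positivity) (ih fun n a => R n (by omega))
    rw [Dm, fw_step hk, fw_step hk, h.fs_pull z r1 he hA, h.rt_step (hk.trans_le hi), Nat.cast_mul,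
      show J - k = J - (k + 1) + 1 by omega, pow_succ', mul_assoc 1.01, mul_assoc (G.L k : ℝ)]
    simp only [h.fd_step (hk.trans_le hi)]
    exact this

/-- the flow from level zero -/
theorem dm_fm (t : G.Tu b J) (τ1 : τ ≤ 1) (hσ : σ * G.Q J ^ 240 ≤ G.bb J) :
    G.Dm J J a τ σ e g (G.ft A F W b J) (G.ft univ (fun _ => 1) W' b J) := by
  have n := h.sl_nf J (G.top0 0 0)
  have q := h.Q1 J
  have s := top_mv (A := univ) (F := F ∘ e) (m := fun y i => g (e i) y) (h.sl_all J (G.top0 0 0)).nu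
    (h.top_half t) (card_le_univ _) (fun x => n ▸ (P _ (hA x)).lip) a0 (fun _ _ => (P _ (hA _)).le _)
    (fun x => (P _ (hA x)).near) τ1 τ0 σ0 (le_trans (by
      nlinarith [h.qpw J (show 0 < 240 by norm_num)]) hσ)
  rw [n] at s
  have c : 2 * σ * (10 ^ 37 * τ + a) ≤ 2 * σ * (10 ^ 37 * τ) + 2 * G.Q J * a * σ := by
    nlinarith [mul_pos a0 σ0]
  simp only [Dm, ft_pull he hA, fd_top, rt_top, Nat.sub_self, pow_zero, one_mul, Nat.cast_one]
  exact (s.om (h.ρ0 J) (by positivity) (h.sg_le J)).mono (h.ρ0 J) (by positivity) c c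

end Ok

end Gl

end Pool.Agent.Lib.MP_7f377f_mp.RG.Q4.En
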