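import Pool.Agent.Lib.MP_7f377f_mp.G.S23C3
import Pool.Agent.Lib.MP_7f377f_mp.G.S23E5
import Pool.Agent.Lib.MP_7f377f_mp.G.S23B2
import Pool.Agent.Lib.MP_7f377f_mp.G.S23V

/-! The jets in two slowly varying sources. -/

noncomputable section

open Pool.Agent.Lib.MP_7f377f_mp.Jet

set_option linter.unusedSectionVars false
variable [Pool.Agent.Lib.MP_7f377f_mp.GD]

namespace Pool.Agent.Lib.MP_7f377f_mp.RG.Q4.En.Gl

open Finset Real Sg Pos Filter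

variable {G : Gl} {b b' a τ θ σ : ℝ} {J J' i k l : ℕ} {ι : Type} [DecidableEq ι] {A : Finset ι}
  {x y : ι} {F : ι → Sr} {g : ι → St → ℂ} {W : ι → Finset St} {C : Fy (Fin 2)} {Y : Fy ι} {z : Z}
  {f : (Fin 2 → ℂ) → Conf → ℂ} {r : ι → ℝ}

namespace Ok

variable (h : G.Ok)
include h

theorem cv_sg (w : G.W2 k z σ C f) (hσ : σ * G.Q k ^ 240 ≤ G.bb k) : G.Cv2 k σ C :=
  have σ0 := w.fd.fi.pos 0
  h.cv2_of w σ0 le_rfl ((mul_le_mul_of_nonneg_left (pow_le_pow_right₀ (h.Q1 k) (by norm_num))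
    σ0.le).trans hσ)

theorem sg_240 (hl : l ≤ k) : G.sg l * G.Q k ^ 240 ≤ G.bb k := h.sig_up (h.sg_pos l) (h.sg_pw l) hl

variable (P : ∀ x ∈ A, G.Pf J a τ (F x) (g x)) (a0 : 0 < a) (τ0 : 0 ≤ τ)
  (hτ : 1.01 ^ (J - l) * (10 ^ 37 * τ) ≤ 1) (hx : x ∈ A) (hy : y ∈ A) (e : x ≠ y) (hl : l ≤ k)
include P a0 τ0 hτ hx hy e hl

theorem dm_two (ha : G.rt J l * a ≤ 4) (F1 : Fi (G.p k) (G.N k) A Y.Z r θ Y.ψ Y.K)
    (w : G.W2 k z σ C f) (hσ : σ * G.Q k ^ 240 ≤ G.bb k) (D : G.Dm J k a τ σ ![x, y] g Y C) :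
    G.Sz k (G.Q k ^ 16 / σ) (G.Q k ^ 16 / σ) (G.Q k ^ 100)⁻¹ (Y.jt {x, y}).1 (Y.jt {x, y}).2 ∧
      G.Npos k (G.Q k ^ 1000 * (G.rt J k * a) / σ + 32 * (1.01 ^ (J - k) * (10 ^ 37 * τ)) / σ)
        (G.fd J k (g x * g y)) (Y.jt {x, y}) (C.jt univ) := by
  have σ0 : 0 < σ := w.fd.fi.pos 0
  have q := h.Q0 k
  have s := h.dm_out (injective_pair_iff_ne.2 e) (Fin.forall_fin_two.2 ⟨hx, hy⟩) P F1 w.fd.fi σ0 a0 D
  have c : 32 * G.pe J k a τ / σ + 1 * (G.Q k ^ 220 * G.g k ^ 2) ≤ G.Q k ^ 16 / σ := by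
    have := mul_le_mul_of_nonneg_right hσ (sq_nonneg (G.g k))
    have := mul_le_mul_of_nonneg_left (h.qpw k (show 220 < 240 by norm_num))
      (mul_nonneg σ0.le (sq_nonneg (G.g k)))
    rw [div_add' _ _ _ σ0.ne']
    gcongr
    nlinarith [h.bg k, h.pe_sq a0 hτ τ0 ha hl, h.qpw k (show 2 < 16 by norm_num)]
  have c' : 32 * G.pe J k a τ / σ ≤ G.Q k ^ 1000 * (G.rt J k * a) / σ +
      32 * (1.01 ^ (J - k) * (10 ^ 37 * τ)) / σ := by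
    rw [← add_div, pe]
    gcongr
    nlinarith [mul_le_mul_of_nonneg_right (show 128000 * G.Q k ≤ G.Q k ^ 1000 by
      nlinarith [h.qpw k (show 2 < 1000 by norm_num), h.cQ k (C := 128) (by norm_num)])
      (by positivity : 0 ≤ G.rt J k * a)]
  exact ⟨h.sz_le (h.pos_sz (fun v => (norm_mul_le_of_le ((P x hx).le _) ((P y hy).le _)).trans_eq
    (one_mul _)) s w.sz) (by positivity) c c le_rfl, h.sz_le s (by positivity) c' c' le_rfl⟩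

theorem dm_run {f : ℕ → _} {W' : Fin 2 → Finset St} (t : G.Tu b J) (hk : k ≤ J)
    (w : ∀ n, l ≤ n → n ≤ J → G.W2 n (G.zz b J n) σ (G.fm univ (fun _ => 1) W' b J n) (f n) ∧
      σ * G.Q n ^ 240 ≤ G.bb n) (R : ∀ n, k < n → n ≤ J → G.Pr A n (fun _ => σ) (G.fm A F W b J n)) :
    G.Dm J k a τ σ ![x, y] g (G.fm A F W b J k) (G.fm univ (fun _ => 1) W' b J k) :=
  have u := injective_pair_iff_ne.2 e
  have v := Fin.forall_fin_two (p := fun i => ![x, y] i ∈ A).2 ⟨hx, hy⟩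
  have σ0 := (w k hl hk).1.fd.fi.pos 0
  h.dm_fw u v P a0 τ0 σ0 t le_rfl le_rfl (h.dm_fm u v P a0 τ0 σ0 t (by
    nlinarith [(one_le_pow₀ (show (1 : ℝ) ≤ 1.01 by norm_num) : _ ≤ _ ^ (J - l))])
    (w J (hl.trans hk) le_rfl).2) k hk fun n a b =>
      ⟨R n a b, h.cv_sg (w n (by omega) b).1 (w n (by omega) b).2⟩

omit P a0 τ0 hτ hx hy e hl

theorem w1_sg (w : G.W1 b J l) (n : ℕ) (a : l ≤ n) (c : n ≤ J) : G.W2 n (G.zz b J n) (G.sg l)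
    (G.fm univ (fun _ => 1) (fun _ => box (G.N J / 2)) b J n) (G.fr univ (fun _ => 1) b J n) ∧
      G.sg l * G.Q n ^ 240 ≤ G.bb n := ⟨(w _ (fun _ => rfl) n a c).1, h.sg_240 a⟩

variable (t : G.Tu b J)
include t

theorem pz_of (w : G.W1 b J l) : G.Pz3 b J l :=
  fun _ _ _ _ _ _ _ _ _ _ _ _ _ _ a0 τ0 P hτ ha _ hr _ _ _ k hl hk o q _ hx _ hy e =>
    (h.dm_two P a0 τ0 hτ hx hy e hl ha (o k le_rfl hk).fd.fi (h.w1_sg w k hl hk).1 (h.sg_240 hl)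
      (h.dm_run P a0 τ0 hτ hx hy e hl t hk (h.w1_sg w) fun n a b =>
        hr n (by omega) ▸ ⟨⟨_, (o n a.le b).fd.fi⟩, q n a b⟩)).1

theorem pc_of (w : G.W1 b J l) : G.Pc b J l := fun _ _ _ _ _ T k hl hk x y e => by
  have P := fun x (_ : x ∈ univ) => T.pf x
  simpa [w2] using (h.dm_two P T.a0 le_rfl (by simp) (mem_univ x) (mem_univ y) e hl T.ha
    (T.on k hl hk).1.fd.fi (h.w1_sg w k hl hk).1 (h.sg_240 hl) (h.dm_run P T.a0 le_rfl (by simp)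
      (mem_univ x) (mem_univ y) e hl t hk (h.w1_sg w) fun n a b => rd_top (hl.trans a.le) ▸
        ⟨⟨_, (T.on n (by omega) b).1.fd.fi⟩, (T.on n (by omega) b).2⟩)).2

theorem jr_of (w : G.W1 b J l) : G.Jr b J l (G.sg l) := by
  intro ι κ _ _ _ cl F g W a τ a0 τ0 ha hτ P _ hc h2 k hl hk o q T hT u
  have σ0 := h.sg_pos l
  have := h.Q0 k
  rw [fm_Z hk] at hT
  obtain ⟨x, y, e, rfl⟩ := card_eq_two.1 (le_antisymm ((card_le_card hT.choose_spec).trans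
    (tch_one (hc k hl hk) (mul_pos (by norm_num) (h.D_pos k)) h2 _)) u)
  have c : G.Q k ^ 16 / G.sg l ≤ G.bb k / G.Q k ^ 224 / ∏ _ ∈ {x, y}, G.sg l := by
    rw [prod_pair e, ← div_div, le_div_iff₀ σ0, div_mul_cancel₀ _ σ0.ne', div_div,
      le_div_iff₀ (by positivity)]
    linarith [h.sg_240 hl]
  exact h.sz_le (h.dm_two (fun x _ => P x) a0 τ0 hτ (mem_univ x) (mem_univ y) e hl ha
    (o k le_rfl hk).fd.fi (h.w1_sg w k hl hk).1 (h.sg_240 hl) (h.dm_run (fun x _ => P x) a0 τ0 hτ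
      (mem_univ x) (mem_univ y) e hl t hk (h.w1_sg w) fun n a b =>
        ⟨⟨_, (o n a.le b).fd.fi⟩, q n a b⟩)).1 (by positivity) c c le_rfl

theorem ph_of (t' : G.Tu b' J') (hi : i ≤ J) (hi' : i ≤ J') (w : G.W1 b' J' l)
    (u : G.Hw (fun _ => box (G.N J' / 2)) b J b' J' i l) (H : ℕ → Lx × Ac) :
    G.Ph b J b' J' i l H := fun _ _ _ _ _ T k hl hk o q x y e => by
  have P := fun x (_ : x ∈ univ) => T.pf x
  simpa [wh] using h.dm_two P T.a0 le_rfl (by simp) (mem_univ x) (mem_univ y) e hl T.ha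
    (o k le_rfl hk).fd.fi (u k hl hk).1 (h.sg_240 hl) (h.dm_fw (injective_pair_iff_ne.2 e)
      (fun _ => mem_univ _) P T.a0 le_rfl (h.sg_pos l) t hi' hi ((h.dm_run P T.a0 le_rfl (by simp)
        (mem_univ x) (mem_univ y) e (hl.trans hk) t' hi' (h.w1_sg w) fun n a b =>
          rd_top (show l ≤ n by omega) ▸ ⟨⟨_, (T.on n (by omega) b).1.fd.fi⟩,
            (T.on n (by omega) b).2⟩).hy _) k hk fun n a b =>
      ⟨rd_top (hl.trans a.le) ▸ ⟨⟨_, (o n a.le b).fd.fi⟩, q n a b⟩,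
        h.cv_sg (u n (by omega) b).1 (h.sg_240 (by omega))⟩)

end Ok

variable (o : G.Oks) (u : AfU G.c G.Kt G.K0)
include o u

theorem pzc_ev : ∀ᶠ l in atTop, ∀ m b J, (G.wm m).Tu b J → l < J →
    (G.wm m).Pz3 b J l ∧ (G.wm m).Pc b J l :=
  (w1 o u).mono fun _ w m b J t _ => ⟨(o m).1.pz_of t (w m b J t), (o m).1.pc_of t (w m b J t)⟩

theorem pz_ev : ∀ᶠ l in atTop, ∀ m b J, (G.wm m).Tu b J → l < J → (G.wm m).Pz3 b J l :=
  (pzc_ev o u).mono fun _ w m b J t e => (w m b J t e).1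

theorem j2r : G.J2R := (w1 o u).mono fun j w =>
  ⟨_, (o 0).1.sg_pos j, le_rfl, fun m b J t _ => (o m).1.jr_of t (w m b J t)⟩

end Pool.Agent.Lib.MP_7f377f_mp.RG.Q4.En.Gl
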