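import Pool.Agent.Lib.MP_7f377f_mp.JetTwo

/-! Logarithms along rays and the two constants theorem on discs. -/

noncomputable section

namespace Pool.Agent.Lib.MP_7f377f_mp.RG.Q4.En

open Real Metric Set

/-- the logarithm of `R s / R 0` along the ray -/
def lg1 (R : ℂ → ℂ) (s : ℂ) : ℂ := ∫ μ in (0 : ℝ)..1, s * (deriv R (μ * s) / R (μ * s))

theorem lg1_zero (R : ℂ → ℂ) : lg1 R 0 = 0 := by simp [lg1]

theorem log_uniq {X : Type} [TopologicalSpace X] {s : Set X} (hs : IsPreconnected s) {f g : X → ℂ}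
    (hf : ContinuousOn f s) (hg : ContinuousOn g s)
    (e : ∀ x ∈ s, Complex.exp (f x) = Complex.exp (g x)) {a : X} (ha : a ∈ s) (e0 : f a = g a) :
    EqOn f g s :=
  Complex.isCoveringMap_exp.eqOn_of_comp_eqOn hs hf hg (fun x hx => Subtype.ext (e x hx)) ha e0

variable {R u v : ℂ → ℂ} {σ A η M x : ℝ} {a : ℕ} {s : ℂ}

theorem lg1_spec (hd : DifferentiableOn ℂ R (ball 0 σ)) (h0 : ∀ t ∈ ball (0 : ℂ) σ, R t ≠ 0) :
    DifferentiableOn ℂ (lg1 R) (ball 0 σ) ∧
      ∀ t ∈ ball (0 : ℂ) σ, R t = R 0 * Complex.exp (lg1 R t) := by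
  obtain ⟨g, g0, hg⟩ := ((hd.deriv isOpen_ball).div hd h0).isExactOn_ball.with_val_at 0 0
  have gd : DifferentiableOn ℂ g (ball 0 σ) := fun t ht =>
    (hg t ht).differentiableAt.differentiableWithinAt
  have hφ : ∀ t ∈ ball (0 : ℂ) σ, HasDerivAt (fun t => R t * Complex.exp (-g t)) 0 t := fun t ht => by
    refine (((hd.differentiableAt (isOpen_ball.mem_nhds ht)).hasDerivAt).fun_mul
      (hg t ht).fun_neg.cexp).congr_deriv ?_
    have := h0 t ht
    simp only [Pi.div_apply]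
    field_simp
    ring
  have e : EqOn (lg1 R) g (ball 0 σ) := fun t ht => by
    have m : ∀ μ ∈ uIcc (0 : ℝ) 1, (μ : ℂ) * t ∈ ball (0 : ℂ) σ := fun μ hμ => by
      rw [uIcc_of_le zero_le_one] at hμ
      rw [mem_ball_zero_iff, norm_mul, Complex.norm_real, norm_of_nonneg hμ.1]
      exact (mul_le_of_le_one_left (norm_nonneg _) hμ.2).trans_lt (mem_ball_zero_iff.1 ht)
    rw [lg1, intervalIntegral.integral_eq_sub_of_hasDerivAt (f := fun μ : ℝ => g (μ * t))
      (f' := fun μ : ℝ => t * (deriv R (μ * t) / R (μ * t))) (fun μ hμ => by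
        simpa [mul_comm] using ((hg _ (m μ hμ)).comp (μ : ℂ)
          ((hasDerivAt_id' (μ : ℂ)).mul_const t)).comp_ofReal)
      (((((hd.deriv isOpen_ball).div hd h0).continuousOn.comp (by fun_prop) m).const_smul
        t).intervalIntegrable)]
    simp [g0]
  refine ⟨gd.congr e, fun t ht => ?_⟩
  have := isOpen_ball.is_const_of_deriv_eq_zero (convex_ball _ _).isPreconnected
    (fun t ht => (hφ t ht).differentiableAt.differentiableWithinAt)
    (fun t ht => (hφ t ht).deriv) ht (mem_ball_self (pos_of_mem_ball ht))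
  rw [g0, neg_zero, Complex.exp_zero, mul_one] at this
  rw [e ht, ← this, mul_assoc, ← Complex.exp_add, neg_add_cancel, Complex.exp_zero, mul_one]

/-- any continuous logarithm is `lg1` -/
theorem lg1_eq (hd : DifferentiableOn ℂ R (ball 0 σ)) (h0 : ∀ t ∈ ball (0 : ℂ) σ, R t ≠ 0)
    {g : ℂ → ℂ} (hg : ContinuousOn g (ball 0 σ))
    (e : ∀ t ∈ ball (0 : ℂ) σ, Complex.exp (g t) = R t) (hs : s ∈ ball (0 : ℂ) σ) :
    lg1 R s = g s - g 0 := by
  have m := mem_ball_self (x := (0 : ℂ)) (pos_of_mem_ball hs)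
  obtain ⟨a, b⟩ := lg1_spec hd h0
  refine log_uniq (g := fun s => g s - g 0) (convex_ball _ _).isPreconnected a.continuousOn
    (hg.sub continuousOn_const) (fun t ht => ?_) m (by simp [lg1_zero]) hs
  rw [Complex.exp_sub, e t ht, e 0 m, b t ht, mul_div_cancel_left₀ _ (h0 0 m)]

theorem lg1_exp (c k : ℂ) (hk : k ≠ 0) : lg1 (fun t => k * Complex.exp (t * c)) s = s * c := by
  rw [lg1_eq (σ := ‖s‖ + 1) (g := fun t => Complex.log k + t * c) (by fun_prop)
    (fun _ _ => mul_ne_zero hk (Complex.exp_ne_zero _)) (by fun_prop)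
    (fun t _ => by rw [Complex.exp_add, Complex.exp_log hk]) (by simp)]
  ring

theorem lg1_le {c : ℂ} (h : ∀ μ : ℝ, 0 ≤ μ → μ ≤ 1 → ‖deriv R μ / R μ + c‖ ≤ η)
    (hd : DifferentiableOn ℂ R (ball 0 2)) (h0 : ∀ t ∈ ball (0 : ℂ) 2, R t ≠ 0) :
    ‖lg1 R 1 + c‖ ≤ η := by
  have i : IntervalIntegrable (fun μ : ℝ => deriv R μ / R μ) MeasureTheory.volume 0 1 :=
    (((hd.deriv isOpen_ball).div hd h0).continuousOn.comp Complex.continuous_ofReal.continuousOn
      fun μ hμ => by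
        rw [uIcc_of_le zero_le_one] at hμ
        rw [mem_ball_zero_iff, Complex.norm_real, norm_of_nonneg hμ.1]
        linarith [hμ.2]).intervalIntegrable
  have := intervalIntegral.norm_integral_le_of_norm_le_const (a := 0) (b := 1)
    (f := fun μ : ℝ => deriv R μ / R μ + c) fun μ hμ => by
      rw [uIoc_of_le zero_le_one] at hμ
      exact h μ hμ.1.le hμ.2
  rw [intervalIntegral.integral_add i intervalIntegrable_const] at this
  simpa [lg1] using this

/-- the cocycle identity on a triangle -/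
theorem lg1_tri {Φ : ℂ × ℂ → ℂ} (hd : Differentiable ℂ Φ)
    (h0 : ∀ p ∈ ball (0 : ℂ × ℂ) 2, Φ p ≠ 0) (e : ∀ ν, Φ (0, ν) = Φ 0) :
    lg1 (fun μ => Φ (μ, 1)) 1 = lg1 (fun μ => Φ (μ, 0)) 1 + lg1 (fun ν => Φ (1, ν)) 1 := by
  have c := convex_ball (0 : ℂ × ℂ) 2
  have := c.contractibleSpace ⟨0, mem_ball_self two_pos⟩
  obtain ⟨L, l1, l2⟩ := Complex.exists_continuousOn_eqOn_exp_comp (U := ball (0 : ℂ × ℂ) 2)
    (SimplyConnectedSpace.ofContractible _) isOpen_ball hd.continuous.continuousOn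
    fun ⟨p, hp, q⟩ => h0 p hp q
  have m : ∀ {μ ν : ℂ}, μ ∈ ball (0 : ℂ) 2 → ν ∈ ball (0 : ℂ) 2 → (μ, ν) ∈ ball (0 : ℂ × ℂ) 2 :=
    fun h1 h2 => ball_prod_same (0 : ℂ) (0 : ℂ) 2 ▸ mk_mem_prod h1 h2
  have m0 : (0 : ℂ) ∈ ball (0 : ℂ) 2 := by simp
  have m1 : (1 : ℂ) ∈ ball (0 : ℂ) 2 := by simp
  have k : ∀ γ : ℂ → ℂ × ℂ, Differentiable ℂ γ → MapsTo γ (ball 0 2) (ball 0 2) →
      lg1 (fun μ => Φ (γ μ)) 1 = L (γ 1) - L (γ 0) := fun γ h1 h2 =>
    lg1_eq (g := fun μ => L (γ μ)) (hd.comp h1).differentiableOn (fun t ht => h0 _ (h2 ht))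
      (l1.comp h1.continuous.continuousOn h2) (fun t ht => l2 (h2 ht)) m1
  have z := k (fun ν => (0, ν)) (by fun_prop) fun _ h => m m0 h
  simp only [e, lg1, deriv_const', zero_div, mul_zero, intervalIntegral.integral_zero] at z
  rw [k (fun μ => (μ, 1)) (by fun_prop) fun _ h => m h m1,
    k (fun μ => (μ, 0)) (by fun_prop) fun _ h => m h m0,
    k (fun ν => (1, ν)) (by fun_prop) fun _ h => m m1 h]
  linear_combination z

theorem lg1_real (hd : DifferentiableOn ℂ R (ball 0 σ))  (h0 : ∀ t ∈ ball (0 : ℂ) σ, R t ≠ 0)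
    (hr : ∀ s : ℝ, |s| < σ → (R s).im = 0 ∧ 0 < (R s).re) {s : ℝ} (hs : |s| < σ) :
    lg1 R s = (log (R s).re - log (R 0).re : ℝ) := by
  obtain ⟨a, b⟩ := lg1_spec hd h0
  have m : MapsTo (fun t : ℝ => (t : ℂ)) (ball 0 σ) (ball 0 σ) := fun t ht => by simpa using ht
  have σ0 := (abs_nonneg s).trans_lt hs
  have r := fun t (ht : t ∈ ball (0 : ℝ) σ) => hr t (by simpa using ht)
  have r0 := hr 0 (by simpa)
  rw [Complex.ofReal_zero] at r0
  refine log_uniq (f := fun t : ℝ => lg1 R t) (g := fun t : ℝ => (log (R t).re - log (R 0).re : ℝ))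
    (convex_ball (0 : ℝ) σ).isPreconnected
    (a.continuousOn.comp Complex.continuous_ofReal.continuousOn m)
    (Complex.continuous_ofReal.comp_continuousOn (((Complex.continuous_re.comp_continuousOn
      (hd.continuousOn.comp Complex.continuous_ofReal.continuousOn m)).log
        fun t ht => (r t ht).2.ne').sub continuousOn_const)) (fun t ht => ?_) (mem_ball_self σ0)
    (by simp [lg1_zero]) (by simpa using hs)
  rw [← Complex.ofReal_exp, exp_sub, exp_log (r t ht).2, exp_log r0.2, Complex.ofReal_div,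
    Complex.conj_eq_iff_re.1 (Complex.conj_eq_iff_im.2 (r t ht).1),
    Complex.conj_eq_iff_re.1 (Complex.conj_eq_iff_im.2 r0.1), b _ (m ht),
    mul_div_cancel_left₀ _ (h0 0 (mem_ball_self σ0))]

theorem lg1_bd (A0 : 0 < A) (hu : DifferentiableOn ℂ u (ball 0 σ))
    (hv : DifferentiableOn ℂ v (ball 0 σ)) (h0 : ∀ t ∈ ball (0 : ℂ) σ, u t ≠ 0 ∧ v t ≠ 0 ∧
      ‖u t‖ ≤ exp A * ‖v t‖ ∧ ‖v t‖ ≤ exp A * ‖u t‖) (hs : s ∈ ball (0 : ℂ) (σ / 2)) :
    ‖lg1 u s - lg1 v s‖ ≤ 4 * A := by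
  have h1 := mem_ball_zero_iff.1 hs
  have σ0 : 0 < σ := by linarith [norm_nonneg s]
  obtain ⟨a1, a2⟩ := lg1_spec hu fun t ht => (h0 t ht).1
  obtain ⟨b1, b2⟩ := lg1_spec hv fun t ht => (h0 t ht).2.1
  obtain ⟨c1, c2, -, c3⟩ := h0 0 (mem_ball_self σ0)
  refine (Complex.borelCaratheodory_zero (M := 2 * A) (by linarith) (a1.sub b1) (fun z hz => ?_) σ0
    (mem_ball_zero_iff.2 (by linarith)) (by simp [lg1_zero])).trans ?_
  · have := (h0 z hz).2.2.1
    rw [a2 z hz, b2 z hz, norm_mul, norm_mul, Complex.norm_exp, Complex.norm_exp] at this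
    have d := this.trans (mul_le_mul_of_nonneg_left (mul_le_mul_of_nonneg_right c3 (exp_pos _).le)
      (exp_pos _).le)
    rw [mul_comm (exp A) ‖u 0‖, mul_assoc, mul_left_comm, ← exp_add, ← exp_add] at d
    have := exp_le_exp.1 (le_of_mul_le_mul_left d (norm_pos_iff.2 c1))
    simp only [mem_setOf_eq, Pi.sub_apply, Complex.sub_re]
    linarith
  · rw [div_le_iff₀ (by linarith)]
    nlinarith

/-- the logarithm of a combination of two ratios -/
def lr (c : Fin 2 → ℝ) (u v : Fin 2 → ℂ → ℂ) (t : ℂ) : ℂ :=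
  c 0 * (lg1 (u 0) t - lg1 (v 0) t) - c 1 * (lg1 (u 1) t - lg1 (v 1) t)

/-- the two constants theorem for two ratios of positive quantities -/
theorem two_lr {u v : Fin 2 → ℂ → ℂ} {c A : Fin 2 → ℝ} (σ0 : 0 < σ)
    (A0 : ∀ i, 0 < A i) (hu : ∀ i, DifferentiableOn ℂ (u i) (ball 0 σ))
    (hv : ∀ i, DifferentiableOn ℂ (v i) (ball 0 σ))
    (h0 : ∀ i, ∀ t ∈ ball (0 : ℂ) σ, u i t ≠ 0 ∧ v i t ≠ 0 ∧ ‖u i t‖ ≤ exp (A i) * ‖v i t‖ ∧
      ‖v i t‖ ≤ exp (A i) * ‖u i t‖)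
    (hr : ∀ i (s : ℝ), |s| < σ → ((u i s).im = 0 ∧ 0 < (u i s).re) ∧ (v i s).im = 0 ∧ 0 < (v i s).re)
    {E : ℝ} (hη : ∀ s : ℝ, |s| < σ → |c 0 * (log (u 0 s).re - log (v 0 s).re) -
      c 1 * (log (u 1 s).re - log (v 1 s).re) + E| ≤ η) (η0 : 0 < η)
    (hM : 2 ≤ M) (ha : 6 * a ≤ M) (x1 : 1 ≤ x)
    (hx : 2 * (|c 0| * A 0 + |c 1| * A 1) ≤ x ^ a * η) :
    (∀ t : ℂ, ‖t‖ < σ / (2 * M) → ‖lr c u v t‖ ≤ 4 * M * x * η / σ * ‖t‖) ∧
      ‖iteratedDeriv 2 (lr c u v) 0‖ ≤ 16 * M ^ 2 * x * η / σ ^ 2 := by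
  have M0 : 0 < M := by linarith
  have d : DifferentiableOn ℂ (lr c u v) (ball 0 σ) :=
    have a := fun i => (lg1_spec (hu i) fun t ht => (h0 i t ht).1).1.sub
      (lg1_spec (hv i) fun t ht => (h0 i t ht).2.1).1
    ((a 0).const_mul _).sub ((a 1).const_mul _)
  have x2 : 1 ≤ x ^ a := one_le_pow₀ x1
  have r1 : σ / (2 * M) ≤ σ / 2 / 2 := by rw [div_div]; gcongr
  have r0 : 0 < σ / (2 * M) := by positivity
  have B : ∀ t : ℂ, ‖t‖ ≤ σ / (2 * M) → ‖lr c u v t‖ ≤ 2 * η * x := fun t ht => by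
    refine (Jet.two_const (σ := σ / 2) (A := x ^ a * (2 * η)) (η := 2 * η)
      (d.mono (ball_subset_ball (by linarith))) (fun t ht => ?_) (fun s hs => ?_) (by linarith)
      (le_mul_of_one_le_left (by linarith) x2) (by linarith) (ht.trans r1)).trans ?_
    · refine (norm_sub_le _ _).trans ?_
      rw [norm_mul, norm_mul, Complex.norm_real, Complex.norm_real, Real.norm_eq_abs,
        Real.norm_eq_abs]
      have b := fun i => mul_le_mul_of_nonneg_left (lg1_bd (A0 i) (hu i) (hv i) (h0 i) ht)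
        (abs_nonneg (c i))
      linarith [b 0, b 1]
    · have h1 := abs_le.1 (hη s (by linarith))
      have h2 := abs_le.1 (hη 0 (by simpa))
      have e := fun i => lg1_real (hu i) (fun t ht => (h0 i t ht).1) (fun s hs => (hr i s hs).1)
        (s := s) (by linarith)
      have e' := fun i => lg1_real (hv i) (fun t ht => (h0 i t ht).2.1) (fun s hs => (hr i s hs).2)
        (s := s) (by linarith)
      rw [Complex.ofReal_zero] at h2
      rw [lr, e, e, e', e']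
      norm_cast
      exact abs_le.2 ⟨by linarith, by linarith⟩
    · rw [mul_div_cancel_right₀ _ (by linarith), ← rpow_natCast, ← rpow_mul (by linarith)]
      refine mul_le_mul_of_nonneg_left ((rpow_le_rpow_of_exponent_le x1 ?_).trans_eq (rpow_one x))
        (by linarith)
      rw [le_div_iff₀ (by positivity)] at ht
      rw [← mul_div_assoc, div_le_one (by linarith)]
      nlinarith [norm_nonneg t]
  have s1 : closedBall (0 : ℂ) (σ / (2 * M)) ⊆ ball 0 σ := closedBall_subset_ball (by linarith)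
  refine ⟨fun t ht => ?_, (Complex.norm_iteratedDeriv_le_of_forall_mem_sphere_norm_le 2 r0
    (d.mono (closure_ball_subset_closedBall.trans s1)).diffContOnCl
    fun z hz => B z (mem_sphere_zero_iff_norm.1 hz).le).trans_eq (by field_simp; norm_num)⟩
  have z : lr c u v 0 = 0 := by simp [lr, lg1_zero]
  have := Complex.dist_le_div_mul_dist_of_mapsTo_ball (R₂ := 2 * η * x)
    (d.mono (ball_subset_closedBall.trans s1)) (fun w hz => by
      rw [z, mem_closedBall_zero_iff]; exact B w (mem_ball_zero_iff.1 hz).le) (mem_ball_zero_iff.2 ht)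
  rw [z, dist_zero_right, dist_zero_right] at this
  exact this.trans_eq (by field_simp; ring)

end Pool.Agent.Lib.MP_7f377f_mp.RG.Q4.En
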