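import Pool.Agent.Lib.MP_7f377f_mp.G.Q5Tan
import Pool.Agent.Lib.MP_7f377f_mp.G.S23T1

/-! The run with a complex bare coupling: definitions. -/

noncomputable section

set_option linter.unusedSectionVars false
variable [Pool.Agent.Lib.MP_7f377f_mp.GD]

namespace Pool.Agent.Lib.MP_7f377f_mp.RG.Q4.En

open Finset Real Metric Sg Pos

/-- the logarithm of a family of densities -/
def lf1 (F : ℂ → Conf → ℂ) (s : ℂ) (U : Conf) : ℂ := lg1 (F · U) s

/-- the response to the flux through the plane `01` -/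
def rc1 (n : ℕ) (x : ℝ) (H : Conf → ℂ) : ℂ := (H (ab 0) - H (ab (fl n x))) / (n ^ 4 * tq n x ^ 2 : ℝ)

/-- the change of the measured coupling -/
def Bh (n : ℕ) (x : ℝ) (F : ℂ → Conf → ℂ) (s : ℂ) : ℂ := rc1 n x (lf1 F s)

/-- a density which is comparable on all flux fields -/
def Nz1 (n : ℕ) (x : ℝ) (f : Conf → ℂ) : Prop := ∀ ϑ ϑ', Fw n x ϑ → Fw n x ϑ' →
  f (ab ϑ) ≠ 0 ∧ ‖f (ab ϑ)‖ ≤ exp (4 * n ^ 4) * ‖f (ab ϑ')‖

theorem tq_mono (n : ℕ) {x y : ℝ} (h : x ≤ y) : tq n x ≤ tq n y := by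
  have := hh_pos
  unfold tq
  gcongr

theorem Fw.mono {n : ℕ} {x y : ℝ} {ϑ : Lk → Ang} (a : Fw n x ϑ) (h : x ≤ y) : Fw n y ϑ :=
  a.imp fun _ c => ⟨c.1, c.2.1.trans (by linarith [tq_mono n h]), c.2.2⟩

namespace Gl

variable (G : Gl)

/-- the densities of the run with the bare coupling `b + s` -/
def fb (b : ℝ) (J k : ℕ) (s : ℂ) : Conf → ℂ :=
  G.tt (fun U => wil b (G.N J) U * Complex.exp (-sO (G.N J) (s • 1) U)) J k

/-- the radius of holomorphy -/
def rh (k : ℕ) : ℝ := G.bb k / G.Q k ^ 6000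

variable {G} {b r : ℝ} {J k : ℕ}

theorem fb_step (h : k < J) (s : ℂ) :
    G.fb b J k s = TT (G.l k) (G.a k) (G.N k) (G.fb b J (k + 1) s) := tt_step _ h

theorem fb_top (s : ℂ) (U : Conf) : G.fb b J J s U =
    wil b (G.N J) U * Complex.exp (s * -(Mx.wact (G.N J) U : ℝ)) := by
  rw [fb, tt_top, ← sO_one]
  simp [sO, mul_sum]

theorem Ok.fb_real (h : G.Ok) (hk : k ≤ J) (s : ℝ) : G.fb b J k s = G.f (b + s) J k := by
  rw [h.f_tt _ hk, fb, ← tt_top (G := G) (fun U => wil b (G.N J) U * _) J]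
  refine congrArg (G.tt · J k) (funext fun U => (fb_top s U).trans ?_)
  change ((exp (-(b * Mx.wact _ U)) : ℝ) : ℂ) * _ = (exp (-((b + s) * Mx.wact _ U)) : ℝ)
  rw [add_mul, neg_add, exp_add]
  push_cast
  rw [mul_neg]

theorem fb_h1 (hk : k ≤ J) (r0 : 0 < r) : H1 r (G.fb b J k) := by
  have e : (fun (s : Unit → ℂ) U => (wil b (G.N J) U : ℂ) * Complex.exp (-sO (G.N J) (s () • 1) U)) =
      fun s U => wil b (G.N J) U * Complex.exp (s () * -(Mx.wact (G.N J) U : ℝ)) := by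
    ext s U; rw [← fb_top, fb, tt_top]
  have c := Mx.cont_wact (G.N J)
  have c' : Continuous (wil b (G.N J)) := (c.const_mul b).neg.rexp
  obtain ⟨M, m⟩ := isCompact_univ.exists_bound_of_continuousOn c.continuousOn
  obtain ⟨M', m'⟩ := isCompact_univ.exists_bound_of_continuousOn c'.continuousOn
  refine tt_hd (F := fun s U => wil b (G.N J) U * Complex.exp (-sO (G.N J) (s () • 1) U)) ?_ hk
  rw [e]
  refine ⟨⟨M' * exp (r * M), fun U => ⟨fun _ => r0, fun s _ i => by simp; fun_prop, fun s hs => ?_⟩⟩,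
    fun s _ => by fun_prop⟩
  refine norm_mul_le_of_le ((Complex.norm_real _).trans_le (m' U trivial))
    ((Complex.norm_exp_le_exp_norm _).trans (exp_le_exp.2 (norm_mul_le_of_le (hs ()).le ?_)))
  rw [norm_neg, Complex.norm_real]
  exact m U trivial

theorem fb_diff (hk : k ≤ J) (U : Conf) : DifferentiableOn ℂ (G.fb b J k · U) (ball 0 r) :=
  fun _ hs => ((fb_h1 hk (pos_of_mem_ball hs)).diff U) _ hs

end Gl

end Pool.Agent.Lib.MP_7f377f_mp.RG.Q4.En
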