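import Pool.Agent.Lib.MP_7f377f_mp.G.S23T0

/-! The flux lemma for differences of complex data. -/

noncomputable section

set_option linter.unusedSectionVars false
variable [Pool.Agent.Lib.MP_7f377f_mp.GD]

namespace Pool.Agent.Lib.MP_7f377f_mp.RG.Q4.En

open Finset Real Metric Sd Pos

variable {S : Sd} {v e x y u ω η P D X C σ : ℝ} {n : ℕ} {F : Mt} {ϑ : Lk → Ang} {H : Conf → ℂ}
  {φ : Fld → ℂ} {b d d' : Lx × Ac}

/-- `H` is minus the quadratic form of `φ` on flux fields -/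
def Roc (n : ℕ) (x η : ℝ) (φ : Fld → ℂ) (H : Conf → ℂ) : Prop := ∃ c, ∀ F ϑ, As F →
  ‖F‖ ≤ 2 * tq n x → Fx n F ϑ →
    ‖H (ab ϑ) - c + n ^ 4 * qc φ (pt F) (pt F)‖ ≤ η * tq n x ^ 2 * n ^ 4

/-- approximate isotropy, complex values -/
def Asc (n : ℕ) (x D : ℝ) (H : Conf → ℂ) : Prop := ∀ ϑ, Fw n x ϑ →
  (∀ σ, ‖H (ab (pm σ ϑ)) - H (ab ϑ)‖ ≤ D * tq n x ^ 2 * n ^ 4) ∧
    ∀ j, ‖H (ab (rfl1 Neg.neg j ϑ)) - H (ab ϑ)‖ ≤ D * tq n x ^ 2 * n ^ 4

theorem Roc.iso {R s : ℕ} {ρ xb xk xr : ℝ} (hn : n ≠ 0) (t0 : 0 < tq n x) (p : Ps R s ρ xb xk xr φ)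
    (r : Roc n x η φ H) : ‖rc1 n x H - qc φ e1 e1‖ ≤ 4 * η ∧
      (Asc n x D H → nb φ ≤ 512 * ‖rc1 n x H‖ + 20000 * η + 8192 * D) := by
  obtain ⟨k, k1, k2⟩ := p.bil
  obtain ⟨c, r⟩ := r
  have q : ∀ a b, qc φ a b = k (cc a) (cc b) := fun a b => k2 _ _
  have a1 := iso_def (G := fun U => (H U).re) (k := reK k) (c := c.re) (D := D) (η := η) hn t0
    (fun a b => by simp [k1 a]) fun F ϑ a b c => by
      have := (Complex.abs_re_le_norm _).trans (r F ϑ a b c)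
      rw [q, cc_eq a, ← Complex.ofReal_natCast, ← Complex.ofReal_pow] at this
      simpa only [Complex.add_re, Complex.sub_re, Complex.re_ofReal_mul, reK_apply] using this
  have a2 := iso_def (G := fun U => (H U).im) (k := imK k) (c := c.im) (D := D) (η := η) hn t0
    (fun a b => by simp [k1 a]) fun F ϑ a b c => by
      have := (Complex.abs_im_le_norm _).trans (r F ϑ a b c)
      rw [q, cc_eq a, ← Complex.ofReal_natCast, ← Complex.ofReal_pow] at this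
      simpa only [Complex.add_im, Complex.sub_im, Complex.im_ofReal_mul, imK_apply] using this
  have a : ‖rc1 n x H - qc φ e1 e1‖ ≤ 4 * η := (Complex.norm_le_abs_re_add_abs_im _).trans (by
    rw [q, cc_e1, rc1]
    simp only [Complex.sub_re, Complex.sub_im, Complex.div_ofReal_re, Complex.div_ofReal_im]
    exact (add_le_add a1.1 a2.1).trans_eq (by ring))
  refine ⟨a, fun hD => (nb_le (C := 8 * ‖qc φ e1 e1‖ + 128 * (2 * η + D))
    fun s s' δ δ' h1 h2 => ?_).trans ?_⟩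
  · have b1 := a1.2 (fun ϑ h => ⟨fun σ => (Complex.abs_re_le_norm (_ - _)).trans ((hD ϑ h).1 σ),
      fun j => (Complex.abs_re_le_norm (_ - _)).trans ((hD ϑ h).2 j)⟩) _ _ _ _ h1 h2
    have b2 := a2.2 (fun ϑ h => ⟨fun σ => (Complex.abs_im_le_norm (_ - _)).trans ((hD ϑ h).1 σ),
      fun j => (Complex.abs_im_le_norm (_ - _)).trans ((hD ϑ h).2 j)⟩) _ _ _ _ h1 h2
    have b3 : ‖qc φ s s' - qc φ e1 e1 * m0 s s'‖ ≤ _ :=
      (Complex.norm_le_abs_re_add_abs_im _).trans (le_of_eq_of_le (by simp [q, cc_e1])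
        (add_le_add b1 b2))
    have b4 : ‖qc φ e1 e1 * m0 s s'‖ ≤ _ :=
      norm_mul_le_of_le le_rfl ((Complex.norm_real _).trans_le (m0_le h1 h2))
    linarith [norm_sub_norm_le (qc φ s s') (qc φ e1 e1 * m0 s s')]
  · linarith [norm_sub_norm_le (qc φ e1 e1) (rc1 n x H), norm_sub_rev (qc φ e1 e1) (rc1 n x H),
      norm_nonneg (rc1 n x H - qc φ e1 e1)]

/-- the density of the data `y` -/
def Rdc (S : Sd) (y : Lx × Ac) (U : Conf) : ℂ := Rep S.p S.nf (S.Φ y.1) y.2 U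

/-- the logarithm of the ratio of the densities of `b + d` and `b` -/
def Ldc (S : Sd) (b d : Lx × Ac) (U : Conf) : ℂ := lg1 (fun μ => Rdc S (b + μ • d) U) 1

theorem rd_diff {E : Type} [NormedAddCommGroup E] [NormedSpace ℂ E] {α β : E → ℂ}
    (hα : Differentiable ℂ α) (hβ : Differentiable ℂ β) (U : Conf) :
    Differentiable ℂ fun t => Rdc S (b + α t • d + β t • d') U := by
  have q : ∀ {ι : Type} (O : Finset ι) {f : ι → E → ℂ}, (∀ i, Differentiable ℂ (f i)) →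
      Differentiable ℂ fun t => ∏ i ∈ O, f i t := fun O f h z => by
    classical exact (HasFDerivAt.finsetProd fun i _ => (h i z).hasFDerivAt).differentiableAt
  have a : ∀ x, Differentiable ℂ fun t =>
      Ix S.p (S.Φ (b + α t • d + β t • d').1) (pc S.nf U) x := fun x => by
    simp only [Ix, Sd.Φ, Prod.fst_add, Prod.smul_fst, Pi.add_apply, Pi.smul_apply, smul_eq_mul]
    fun_prop
  exact .fun_sum fun _ _ => .mul (q _ fun X => .fun_sum fun c _ => .mul (by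
    simp only [Prod.snd_add, Prod.smul_snd, Pi.add_apply, Pi.smul_apply, smul_eq_mul]
    fun_prop) (q _ a)) (q _ a)

theorem rd_line (U : Conf) : Differentiable ℂ fun t : ℂ => Rdc S (b + t • d) U := by
  simpa using rd_diff (S := S) (b := b) (d := d) (d' := d) differentiable_id
    (differentiable_const 0) U

theorem rd_deriv (U : Conf) (μ : ℂ) :
    deriv (fun t : ℂ => Rdc S (b + t • d) U) μ = dR S (b + μ • d) d U := by
  rw [← add_zero μ, ← deriv_comp_const_add, add_zero, dR]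
  simp only [Rdc, add_smul, ← add_assoc]
  rfl

theorem cont_of_lip {f : ℂ → ℂ} {Ω : Set ℂ} {C' : ℝ} (X0 : 0 < X) (h : ∀ s ∈ Ω, ∀ s' ∈ Ω, ∀ x, 0 < x →
    x ≤ X → C * ‖s' - s‖ ≤ x → ‖f s' - f s‖ ≤ C' * x) : ContinuousOn f Ω :=
  Metric.continuousOn_iff.2 fun s hs ε ε0 => by
    have c0 := abs_nonneg C
    have c1 := abs_nonneg C'
    obtain ⟨x, x0, x1, x2⟩ : ∃ x, 0 < x ∧ x ≤ X ∧ x ≤ ε / (|C'| + 1) :=
      ⟨min _ _, lt_min X0 (by positivity), min_le_left _ _, min_le_right _ _⟩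
    refine ⟨x / (|C| + 1), by positivity, fun s' hs' e => ?_⟩
    rw [dist_eq_norm] at e ⊢
    rw [lt_div_iff₀ (by positivity)] at e
    rw [le_div_iff₀ (by positivity)] at x2
    refine (h s hs s' hs' x x0 x1 ?_).trans_lt ?_
    · nlinarith [le_abs_self C, norm_nonneg (s' - s)]
    · nlinarith [le_abs_self C']

namespace LF

variable (h : LF S v e) (h2 : √S.g ≤ ω) (h3 : S.Q ^ 100 * ω ≤ 1) (P1 : S.Q ^ 14 ≤ P)
  (P2 : P ^ 2 ≤ S.β) (hF : As F) (hd : ‖F‖ ≤ 2 * tq S.nf (S.g / P)) (hϑ : Fx S.nf F ϑ)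
include h h2 h3 P1 P2 hF hd hϑ

/-- the logarithmic derivative at a complex base point in a complex direction -/
theorem fdc (z : Sz S.p S.nf S.Q S.g u u ω b.1 b.2) (z' : Sz S.p S.nf S.Q S.g x y ω d.1 d.2)
    (cd : ∀ x, d.1 x = d.1 0) (hu : S.Q ^ 300 * u * S.g ^ 2 ≤ 1) : Rdc S b (ab ϑ) ≠ 0 ∧
    ‖dR S b d (ab ϑ) / Rdc S b (ab ϑ) + S.nf ^ 4 * qc (d.1 0) (pt F) (pt F)‖ ≤
      5 * P ^ 2 * ω * (x + y) * tq S.nf (S.g / P) ^ 2 * S.nf ^ 4 := by
  have Q0 := S.Q0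
  obtain ⟨t0, t1, t2, t3⟩ := h.tq_bd ((le_self_pow₀ S.Q1 (by norm_num)).trans P1) P2
  obtain ⟨hψ, k, hK, h0⟩ := z
  obtain ⟨hψ', k', hK', h0'⟩ := z'
  have ρ0 := h.ρ0
  obtain ⟨k0, k1, -⟩ := (hψ' 0).1.elim
  obtain ⟨x0, y0, -⟩ := (hψ' 0).1.nonneg ρ0
  obtain ⟨u0, -, -⟩ := (hψ 0).1.nonneg ρ0
  replace y0 := (mul_nonneg_iff_of_pos_left (pow_pos Q0 2)).1 y0
  have o := h.nu.ok.odd_nf
  have g0 := h.nu.ok.g0
  have ω0 := (sqrt_pos.2 g0).trans_le h2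
  have s1 : 1000 * (S.Q ^ 2 * (u * S.g ^ 2)) ≤ 1 := by
    linarith only [mul_le_mul_of_nonneg_right (qpw h.nu (i := 2) (j := 300) (by norm_num))
      (show 0 ≤ u * S.g ^ 2 by positivity), hu]
  have s2 : u * S.g ^ 2 ≤ S.Q ^ 2 * (u * S.g ^ 2) :=
    le_mul_of_one_le_left (by positivity) (one_le_pow₀ S.Q1)
  have s3 : ω * u * S.g ^ 2 ≤ ω := by
    rw [mul_assoc]
    exact mul_le_of_le_one_right ω0.le (by linarith only [s1, s2])
  have s4 := qom h.nu h3 (i := 50) (by norm_num)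
  have s5 := qom h.nu h3 (i := 1) (by norm_num)
  obtain ⟨c1, c2, -, -, c3⟩ := h.small (by linarith only [t0]) t3
  obtain ⟨w1, w2, w3⟩ := h.fd_num t0 t2 c3 x0 y0 h2 h3 P1
  have v := ps_val (hψ' 0).1 hF hd c1 c2
  have v1 := (hψ' 0).1.bd_em (cc_val k1.cc hF hd c1).1 c2
  obtain ⟨b1, b2⟩ := rep_der (Φ := S.Φ b.1) (Φ' := d.1) (δ := 49 * S.Q ^ 2 * (x + y) *
    tq S.nf (S.g / P) ^ 2) h.pg1.1 o hK hK' (h0.mono s3) h0' ω0
    (le_trans (by rw [inv_eq_one_div, le_div_iff₀ Q0]; linarith only [s5, mul_pos Q0 ω0])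
      h.pg1.2) hϑ.per (h.chi hϑ hd t3) one_pos fun x => ⟨by
      rw [hϑ.bx hF, one_div]
      exact h.val2 hψ (by linarith only [s1, s2]) (by
        linarith only [mul_le_mul_of_nonneg_left s3 (pow_pos Q0 50).le, s4]) hF hd
        (by linarith only [t0]) t3 x, by
      rw [hϑ.bx hF, cd]
      exact v1.trans (by linarith only [w2, w3])⟩
  simp only [hϑ.bx hF, cd, sum_const, nsmul_eq_mul, ← phi_line] at b2
  rw [← Complex.ofReal_natCast, card_dom o, Complex.ofReal_pow, Complex.ofReal_natCast] at b2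
  refine ⟨b1, ?_⟩
  have n0 : (0 : ℝ) ≤ S.nf ^ 4 := by positivity
  have v2 : ‖(S.nf : ℂ) ^ 4 * _‖ ≤ _ := norm_mul_le_of_le (by simp : _ ≤ (S.nf : ℝ) ^ 4) v
  refine (le_of_eq_of_le (congrArg _ (by rw [dR, Rdc]; ring)) (norm_sub_le_of_le b2 v2)).trans ?_
  generalize tq S.nf (S.g / P) = t at *
  have xy := mul_nonneg (add_nonneg x0 y0) (sq_nonneg t)
  have P3 : S.Q ^ 28 ≤ P ^ 2 := by
    rw [show 28 = 14 * 2 from rfl, pow_mul]; gcongr
  have w4 := mul_le_mul_of_nonneg_right P3 (mul_nonneg ω0.le xy)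
  have w5 := mul_le_mul_of_nonneg_right (qpw h.nu (i := 2) (j := 28) (by norm_num))
    (mul_nonneg ω0.le xy)
  have w6 : ω * y * S.g ^ 2 ≤ ω * (x + y) * (P * t) ^ 2 := by
    gcongr
    linarith only [x0]
  have w7 := mul_nonneg (pow_pos Q0 2).le (mul_nonneg ω0.le xy)
  rw [mul_comm ((S.nf : ℝ) ^ 4), ← add_mul]
  exact mul_le_mul_of_nonneg_right (by linarith only [w1, w2, w4, w5, w6, w7]) n0

variable (z0 : Sz S.p S.nf S.Q S.g 1 1 ω b.1 b.2) (z1 : Sz S.p S.nf S.Q S.g X X ω d.1 d.2)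
  (z2 : Sz S.p S.nf S.Q S.g X X ω d'.1 d'.2) (hu : S.Q ^ 300 * (1 + 12 * X) * S.g ^ 2 ≤ 1)
include z0 z1 z2 hu

/-- the logarithm along the segment between two points near `b` -/
theorem ro1 (z : Sz S.p S.nf S.Q S.g x y ω (d' - d).1 (d' - d).2)
    (cd : ∀ x, (d' - d).1 x = (d' - d).1 0) :
    (∀ α β : ℂ, ‖α‖ ≤ 6 → ‖β‖ ≤ 6 → Rdc S (b + α • d + β • d') (ab ϑ) ≠ 0) ∧
    ‖Ldc S b d' (ab ϑ) - Ldc S b d (ab ϑ) + S.nf ^ 4 * qc ((d' - d).1 0) (pt F) (pt F)‖ ≤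
      5 * P ^ 2 * ω * (x + y) * tq S.nf (S.g / P) ^ 2 * S.nf ^ 4 := by
  have ρ0 := h.ρ0
  have X0 := ((z1.1 0).1.nonneg ρ0).1
  have k := fun (α β : ℂ) (h1 : ‖α‖ ≤ 6) (h4 : ‖β‖ ≤ 6) => h.fdc h2 h3 P1 P2 hF hd hϑ
    (b := b + α • d + β • d') (sz_mono ρ0 S.Q0.le ((sqrt_nonneg _).trans h2)
      (sz_add ρ0 (sz_add ρ0 z0 (sz_smul ρ0 z1 α)) (sz_smul ρ0 z2 β)) (by nlinarith) (by nlinarith))
    z cd hu
  have e : ∀ ν : ℂ, b + d + ν • (d' - d) = b + (1 - ν) • d + ν • d' := fun ν => by module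
  have n1 : ∀ {ν : ℂ}, ‖ν‖ ≤ 2 → ‖1 - ν‖ ≤ 3 := fun hν =>
    (norm_sub_le_of_le norm_one.le hν).trans_eq (by norm_num)
  have t := lg1_tri (Φ := fun p => Rdc S (b + (p.1 * (1 - p.2)) • d + (p.1 * p.2) • d') (ab ϑ))
    (rd_diff (by fun_prop) (by fun_prop) _) (fun p hp => by
      have a1 := (norm_fst_le p).trans (mem_ball_zero_iff.1 hp).le
      have a2 := (norm_snd_le p).trans (mem_ball_zero_iff.1 hp).le
      exact (k _ _ ((norm_mul_le_of_le a1 (n1 a2)).trans (by norm_num))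
        ((norm_mul_le_of_le a1 a2).trans (by norm_num))).1) fun ν => by simp
  simp only [sub_self, mul_zero, mul_one, zero_smul, add_zero, sub_zero, one_mul, ← e] at t
  refine ⟨fun α β h1 h4 => (k α β h1 h4).1, ?_⟩
  rw [Ldc, Ldc, t, add_sub_cancel_left]
  refine lg1_le (fun μ m0 m1 => ?_) (rd_line _).differentiableOn fun t ht => ?_
  · have : ‖(μ : ℂ)‖ ≤ 2 := by rw [Complex.norm_real, norm_of_nonneg m0]; linarith
    rw [rd_deriv, e]
    exact (k _ _ (by linarith [n1 this]) (by linarith)).2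
  · have := (mem_ball_zero_iff.1 ht).le
    rw [e]
    exact (k _ _ (by linarith [n1 this]) (by linarith)).1

end LF

end Pool.Agent.Lib.MP_7f377f_mp.RG.Q4.En
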