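import Pool.Agent.Lib.MP_7f377f_mp.G.S23T2
import Pool.Agent.Lib.MP_7f377f_mp.G.Q5PosM

/-! Families of complex data: definitions. -/

noncomputable section

set_option linter.unusedSectionVars false
variable [Pool.Agent.Lib.MP_7f377f_mp.GD]

namespace Pool.Agent.Lib.MP_7f377f_mp.RG.Q4.En.Gl

open Finset Real Metric Pos

variable (G : Gl)

/-- the weight of the irrelevant part -/
def oq (k : ℕ) : ℝ := (G.Q k ^ 997)⁻¹

/-- the radius of the ball of data -/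
def xq (k : ℕ) : ℝ := G.bb k / G.Q k ^ 1190

/-- radii which are small at all levels from `k` on -/
def Rq6 (k : ℕ) (σ : ℝ) : Prop := 0 < σ ∧ ∀ j, k ≤ j → G.Q j ^ 10 * σ ≤ G.xq j

/-- sizes of a pair -/
abbrev Sy6 (k : ℕ) (x w : ℝ) (d : Lx × Ac) : Prop := G.Sz k x w (G.oq k) d.1 d.2

/-- the data `y s` near the state `z` represent the holomorphic family `F` -/
structure Fc6 (k : ℕ) (z : Z) (σ X : ℝ) (F : ℂ → Conf → ℂ) (y : ℂ → Lx × Ac) : Prop where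
  z0 : y 0 = z.d
  sz : ∀ s ∈ ball (0 : ℂ) σ, G.Sy6 k X X (y s - z.d)
  cov : ∀ s ∈ ball (0 : ℂ) σ, TCov (G.N k) (y s).1 (y s).2
  lip : ∃ C : ℝ, ∀ s ∈ ball (0 : ℂ) σ, ∀ s' ∈ ball (0 : ℂ) σ, ∀ x, 0 < x → x ≤ 1 →
    C * ‖s' - s‖ ≤ x → G.Sy6 k x x (y s' - y s)
  rp : ∀ s ∈ ball (0 : ℂ) σ, ∃ κ, κ ≠ 0 ∧ ∀ U, Per (G.N k) U → F s U = κ * Rdc (G.sl k z) (y s) U
  hol : ∀ U, DifferentiableOn ℂ (F · U) (ball 0 σ)

/-- data at level `i` carried down along the run -/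
def hc (b : ℝ) (J i : ℕ) (d : Lx × Ac) (k : ℕ) : Lx × Ac :=
  dw (fun k d => G.hs k (G.zz b J (k + 1)) d) d i k

/-- the data of the run with the bare coupling `b + s` -/
def yl (b : ℝ) (J k : ℕ) (s : ℂ) : Lx × Ac :=
  G.hc b J J (sL (s • 1), sK (G.p J) (G.N J) b (s • 1)) k

/-- the data of the state at level `i` moved in the marginal direction -/
def yw (b : ℝ) (J i k : ℕ) (t : ℂ) : Lx × Ac :=
  G.hc b J i ((G.zz b J i).ψ + t • (G.zz b J i).w.1, (G.zz b J i).K) k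

variable {G} {b σ : ℝ} {J i j k : ℕ}

theorem hc_top (d : Lx × Ac) : G.hc b J i d i = d := dw_top ..

theorem hc_step (d : Lx × Ac) (h : k < i) :
    G.hc b J i d k = G.hs k (G.zz b J (k + 1)) (G.hc b J i d (k + 1)) := dw_step _ _ h

theorem Rq6.mono (a : G.Rq6 k σ) (e : k ≤ j) : G.Rq6 j σ := ⟨a.1, fun i hi => a.2 i (e.trans hi)⟩

namespace Ok

variable (h : G.Ok)
include h

theorem oq0 (k : ℕ) : 0 < G.oq k := inv_pos.2 (pow_pos (h.Q0 k) _)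

theorem oq_succ (k : ℕ) : G.oq (k + 1) ≤ G.oq k :=
  inv_anti₀ (pow_pos (h.Q0 k) _) (pow_le_pow_left₀ (h.Q0 k).le (h.Q_mono k.le_succ) _)

theorem sg_oq (k : ℕ) : √(G.g k) ≤ G.oq k := by
  rw [oq, ← one_div, le_div_iff₀' (pow_pos (h.Q0 k) _)]
  exact (mul_le_mul_of_nonneg_right (pow_le_pow_right₀ (h.Q1 k) (by norm_num))
    (sqrt_nonneg _)).trans (h.Qsg k)

theorem oq_le (k : ℕ) {n : ℕ} (hn : n < 997) : 1000 * (G.Q k ^ n * G.oq k) ≤ 1 :=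
  (mul_assoc _ _ _).ge.trans ((mul_le_mul_of_nonneg_right (h.qpw k hn) (h.oq0 k).le).trans_eq
    (mul_inv_cancel₀ (pow_pos (h.Q0 k) _).ne'))

theorem xq_g (k : ℕ) : G.Q k ^ 1190 * (G.xq k * G.g k ^ 2) = 1 := by
  rw [xq, ← mul_assoc, mul_div_cancel₀ _ (pow_pos (h.Q0 k) _).ne', h.bg]

theorem xq1 (k : ℕ) : 1000 ≤ G.xq k := by
  rw [xq, le_div_iff₀ (pow_pos (h.Q0 k) _)]
  exact h.Qbb k (by norm_num)

theorem rh_sq (hB : 10 ^ 4 * G.K ≤ G.Bk k) : G.Rq6 k (G.rh k) := by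
  have q := h.Q0 k
  have b0 := h.b0 k
  refine ⟨div_pos b0 (pow_pos q _), fun j hj => ?_⟩
  have q' := h.Q0 j
  have L1 := h.L1 j
  rw [rh, xq, ← mul_div_assoc, div_le_div_iff₀ (by positivity) (by positivity), mul_right_comm,
    ← pow_add, mul_comm]
  rcases le_total (G.L j : ℝ) (G.L k ^ 5) with e | e
  · refine mul_le_mul (h.b_mono hj) ?_ (by positivity) (h.b0 j).le
    rw [Q, Q, ← pow_mul, ← pow_mul, show G.K * 6000 = 5 * (G.K * (10 + 1190)) by ring, pow_mul _ 5]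
    gcongr
  · refine le_trans ?_ (le_mul_of_one_le_right (h.b0 j).le (one_le_pow₀ (h.Q1 k)))
    refine le_of_pow_le_pow_left₀ (n := 5) (by norm_num) (h.b0 j).le ?_
    calc _ ≤ ((G.L k : ℝ) ^ (4 * G.Bk k) * G.Q j ^ (10 + 1190)) ^ 5 := by
          gcongr
          exact (h.sch.le k).1.trans (h.sch.upp k)
      _ = ((G.L k : ℝ) ^ 5) ^ (4 * G.Bk k) * G.L j ^ (6000 * G.K) := by rw [Q]; ring
      _ ≤ (G.L j : ℝ) ^ (4 * G.Bk k) * G.L j ^ G.Bk k := by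
          gcongr
          exacts [by linarith, by omega]
      _ = ((G.L j : ℝ) ^ G.Bk k) ^ 5 := by ring
      _ ≤ _ := pow_le_pow_left₀ (by positivity) (h.Lbk j (h.B_mono hj)) _

end Ok

end Pool.Agent.Lib.MP_7f377f_mp.RG.Q4.En.Gl
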