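import Pool.Agent.Lib.MP_7f377f_mp.G.TyF
import Pool.Agent.Lib.MP_7f377f_mp.G.Q5TanR

/-! The flux lemma for second variations. -/

noncomputable section

set_option linter.unusedSectionVars false
variable [Pool.Agent.Lib.MP_7f377f_mp.GD]

namespace Pool.Agent.Lib.MP_7f377f_mp.RG.Q4.En

open Finset Real La La.Q Sd Metric

/-- the second derivative of the representation at `b` in the directions `r`, `s` -/
def d2R (S : Sd) (b r s : Lx × Ac) (U : Conf) : ℂ := deriv (fun t : ℂ => dR S (b + t • r) s U) 0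

/-- the directions `r`, `s` and the second jet `d` represent the variations `fr`, `fs`, `f2` -/
def Rt2 (S : Sd) (b r s d : Lx × Ac) (f fr fs f2 : Conf → ℂ) : Prop := ∃ κ κr κs κ2 : ℂ,
  ∀ U, Per S.nf U → f U = κ * Rep S.p S.nf (S.Φ b.1) b.2 U ∧ fr U = κ * dR S b r U + κr * f U ∧
    fs U = κ * dR S b s U + κs * f U ∧
      f2 U = κ * (d2R S b r s U + dR S b d U) + κs * fr U + κr * fs U + κ2 * f U

/-- the second variation of the logarithm -/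
def lg2 (f fr fs f2 : Conf → ℂ) (U : Conf) : ℝ := (f2 U / f U - fr U / f U * (fs U / f U)).re

/-- the second variation of the measured coupling -/
def gm2 (n : ℕ) (x : ℝ) (f fr fs f2 : Conf → ℂ) : ℝ :=
  (lg2 f fr fs f2 (ab 0) - lg2 f fr fs f2 (ab (fl n x))) / (n ^ 4 * tq n x ^ 2)

/-- functionals of the data which are twice differentiable along curves -/
def Dw (F : Lx × Ac → ℂ) : Prop := ∃ (L : Lx × Ac → Lx × Ac →ₗ[ℂ] ℂ)
  (H : Lx × Ac → Lx × Ac →ₗ[ℂ] Lx × Ac →ₗ[ℂ] ℂ), (∀ b r s, H b r s = H b s r) ∧ ∀ γ r, Cu γ r →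
    HasDerivAt (fun t => F (γ t)) (L (γ 0) r) 0 ∧ ∀ σ d, Cu σ d →
      HasDerivAt (fun t => L (γ t) (σ t)) (H (γ 0) r (σ 0) + L (γ 0) d) 0

section calculus

variable {F F' : Lx × Ac → ℂ} {S : Sd} {b d d' r r' s s' : Lx × Ac} {γ σ : ℂ → Lx × Ac}
  {f fr fs f2 f1 w1 w2 : Conf → ℂ}

theorem dw_const (c : ℂ) : Dw fun _ => c := ⟨0, 0, fun _ _ _ => rfl, fun _ _ _ =>
  ⟨hasDerivAt_const _ _, fun _ _ _ => by simpa using hasDerivAt_const (0 : ℂ) (0 : ℂ)⟩⟩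

theorem dw_lin (l : Lx × Ac →ₗ[ℂ] ℂ) (h : ∀ γ d, Cu γ d → HasDerivAt (fun t => l (γ t)) (l d) 0) :
    Dw l := ⟨fun _ => l, 0, fun _ _ _ => rfl, fun γ r c => ⟨h γ r c, fun σ d c' => by
      simpa using h σ d c'⟩⟩

theorem Dw.add (h : Dw F) (h' : Dw F') : Dw fun d => F d + F' d :=
  let ⟨L, H, a, e⟩ := h
  let ⟨L', H', a', e'⟩ := h'
  ⟨L + L', H + H', fun b r s => by simp [a b r s, a' b r s], fun γ r c =>
    ⟨(e γ r c).1.add (e' γ r c).1, fun σ d c' => (((e γ r c).2 σ d c').add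
      ((e' γ r c).2 σ d c')).congr_deriv (by simp; ring)⟩⟩

theorem Dw.mul (h : Dw F) (h' : Dw F') : Dw fun d => F d * F' d :=
  let ⟨L, H, a, e⟩ := h
  let ⟨L', H', a', e'⟩ := h'
  ⟨fun b => F' b • L b + F b • L' b, fun b => F' b • H b + (L' b).smulRight (L b) +
    (L b).smulRight (L' b) + F b • H' b, fun b r s => by simp [a b r s, a' b r s]; ring,
    fun γ r c => ⟨by simpa [mul_comm] using (e γ r c).1.fun_mul (e' γ r c).1, fun σ d c' =>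
      (((e' γ r c).1.fun_mul ((e γ r c).2 σ d c')).add
        ((e γ r c).1.fun_mul ((e' γ r c).2 σ d c'))).congr_deriv (by simp; ring)⟩⟩

theorem Dw.exp (h : Dw F) : Dw fun d => Complex.exp (-F d) :=
  let ⟨L, H, a, e⟩ := h
  ⟨fun b => -Complex.exp (-F b) • L b, fun b => Complex.exp (-F b) • ((L b).smulRight (L b) - H b),
    fun b r s => by simp [a b r s, mul_comm], fun γ r c =>
    ⟨by simpa [mul_comm] using (e γ r c).1.fun_neg.cexp, fun σ d c' =>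
      ((e γ r c).1.fun_neg.cexp.fun_neg.fun_mul ((e γ r c).2 σ d c')).congr_deriv (by simp; ring)⟩⟩

theorem Dw.sum {α : Type} {s : Finset α} {F : α → Lx × Ac → ℂ} (h : ∀ i, Dw (F i)) :
    Dw fun d => ∑ i ∈ s, F i d := by
  induction s using Finset.cons_induction with
  | empty => exact dw_const 0
  | cons i s hi ih => simpa only [sum_cons] using (h i).add ih

theorem Dw.prod {α : Type} {s : Finset α} {F : α → Lx × Ac → ℂ} (h : ∀ i, Dw (F i)) :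
    Dw fun d => ∏ i ∈ s, F i d := by
  induction s using Finset.cons_induction with
  | empty => exact dw_const 1
  | cons i s hi ih => simpa only [prod_cons] using (h i).mul ih

theorem dw_rep (S : Sd) (U : Conf) : Dw fun d => Rep S.p S.nf (S.Φ d.1) d.2 U :=
  have a : ∀ x, Dw fun d => Ix S.p (S.Φ d.1) (pc S.nf U) x := fun x =>
    (dw_const _).mul ((dw_const _).add (dw_lin ⟨⟨fun d => d.1 x _, fun _ _ => rfl⟩,
      fun _ _ => rfl⟩ fun _ _ c => c.1 x _)).exp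
  .sum fun _ => .mul (.prod fun X => .sum fun c => .mul (dw_lin ⟨⟨fun d => d.2 X c U,
    fun _ _ => rfl⟩, fun _ _ => rfl⟩ fun _ _ e => e.2 X c U) (.prod a)) (.prod a)

theorem cu_line (b d : Lx × Ac) : Cu (fun t => b + t • d) d :=
  ⟨fun _ _ => der_line _ _, fun _ _ _ => der_line _ _⟩

theorem cu_const (b : Lx × Ac) : Cu (fun _ => b) 0 :=
  ⟨fun _ _ => hasDerivAt_const _ _, fun _ _ _ => hasDerivAt_const _ _⟩

theorem d2R_lin (S : Sd) (U : Conf) : ∃ H : Lx × Ac → Lx × Ac →ₗ[ℂ] Lx × Ac →ₗ[ℂ] ℂ,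
    (∀ b r s, H b r s = H b s r) ∧ (∀ b r s, d2R S b r s U = H b r s) ∧ ∀ γ r σ d, Cu γ r → Cu σ d →
      HasDerivAt (fun t => dR S (γ t) (σ t) U) (H (γ 0) r (σ 0) + dR S (γ 0) d U) 0 := by
  obtain ⟨L, H, a, e⟩ := dw_rep S U
  have l : ∀ b d, dR S b d U = L b d := fun b d => by
    simpa [dR] using (e _ d (cu_line b d)).1.deriv
  refine ⟨H, a, fun b r s => ?_, fun γ r σ d c c' => ?_⟩
  · simpa [d2R, l] using ((e _ r (cu_line b r)).2 _ 0 (cu_const s)).deriv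
  · simpa only [l] using (e γ r c).2 σ d c'

/-- the chain rule of second order -/
theorem dR_deriv (c : Cu γ r) (c' : Cu σ d) (U : Conf) : HasDerivAt (fun t => dR S (γ t) (σ t) U)
    (d2R S (γ 0) r (σ 0) U + dR S (γ 0) d U) 0 :=
  let ⟨_, _, a, e⟩ := d2R_lin S U
  a _ _ _ ▸ e γ r σ d c c'

theorem d2R_symm (U : Conf) : d2R S b r s U = d2R S b s r U :=
  let ⟨_, a, e, _⟩ := d2R_lin S U
  by rw [e, e, a]

theorem d2R_comb (α β : ℂ) (U : Conf) :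
    d2R S b (α • r + β • r') s U = α * d2R S b r s U + β * d2R S b r' s U := by
  obtain ⟨_, -, e, -⟩ := d2R_lin S U
  simp [e]

theorem Rt2.rt (h : Rt2 S b r s d f fr fs f2) : Rt S b r f fr ∧ Rt S b s f fs :=
  let ⟨κ, κr, κs, _, p⟩ := h
  ⟨⟨κ, κr, fun U u => ⟨(p U u).1, (p U u).2.1⟩⟩, κ, κs, fun U u => ⟨(p U u).1, (p U u).2.2.1⟩⟩

theorem Rt2.sub (h : Rt2 S b r r d f f1 f1 f2) (h' : Rt2 S b s s d' f w1 w1 w2) (f0 : f 1 ≠ 0)
    (α : ℂ) : Rt2 S b (r - α • s) (r + α • s) (d - α ^ 2 • d') f (fun U => f1 U - α * w1 U)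
      (fun U => f1 U + α * w1 U) fun U => f2 U - α ^ 2 * w2 U := by
  obtain ⟨κ, a, a', c, p⟩ := h
  obtain ⟨κ', e, e', c', p'⟩ := h'
  have u : Per S.nf (1 : Conf) := fun _ => rfl
  obtain rfl : κ = κ' := mul_right_cancel₀ (right_ne_zero_of_mul ((p 1 u).1 ▸ f0))
    ((p 1 u).1.symm.trans (p' 1 u).1)
  obtain rfl : a = a' := mul_right_cancel₀ f0
    (add_left_cancel ((p 1 u).2.1.symm.trans (p 1 u).2.2.1))
  obtain rfl : e = e' := mul_right_cancel₀ f0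
    (add_left_cancel ((p' 1 u).2.1.symm.trans (p' 1 u).2.2.1))
  refine ⟨κ, a - α * e, a + α * e, c - α ^ 2 * c', fun U hU => ?_⟩
  obtain ⟨L, l, -⟩ := dR_lin S b U
  obtain ⟨H, y, z, -⟩ := d2R_lin S U
  obtain ⟨p1, p2, -, p3⟩ := p U hU
  obtain ⟨-, q2, -, q3⟩ := p' U hU
  simp only [l, z, map_add, map_sub, map_smul, LinearMap.sub_apply, LinearMap.smul_apply,
    smul_eq_mul, y b s r] at *
  exact ⟨p1, by rw [p2, q2]; ring, by rw [p2, q2]; ring, by rw [p3, q3]; ring⟩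

theorem lg2_sub (f f1 f2 w1 w2 : Conf → ℂ) (α : ℝ) :
    lg2 f (fun U => f1 U - α * w1 U) (fun U => f1 U + α * w1 U) (fun U => f2 U - α ^ 2 * w2 U) =
      fun U => lg2 f f1 f1 f2 U - α ^ 2 * lg2 f w1 w1 w2 U := funext fun U => by
  rw [lg2, lg2, lg2, ← Complex.re_ofReal_mul, ← Complex.sub_re]
  congr 1
  push_cast
  ring

theorem gm2_sub (n : ℕ) (x : ℝ) (f f1 f2 w1 w2 : Conf → ℂ) (α : ℝ) :
    gm2 n x f (fun U => f1 U - α * w1 U) (fun U => f1 U + α * w1 U) (fun U => f2 U - α ^ 2 * w2 U) =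
      gm2 n x f f1 f1 f2 - α ^ 2 * gm2 n x f w1 w1 w2 := by
  simp only [gm2, lg2_sub]; ring

/-- the second logarithmic derivative of the representation at a field with small curvature -/
theorem rep_der2 {k kr ks : Mj} {U : Conf} {c θ θr θs δr δs ρ : ℝ} (h : Pg S.p c) (hn : Odd S.nf)
    (hK : KM S.p S.nf k b.2) (hr : KM S.p S.nf kr r.2) (hs : KM S.p S.nf ks s.2)
    (h0 : kN S.p S.nf k θ) (h1 : kN S.p S.nf kr θr) (h2 : kN S.p S.nf ks θs) (θ0 : 0 < θ)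
    (hθ : 8 * θ ≤ ee S.p) (hU : Per S.nf U) (hχ : ∀ x, Fq (S.p.R + 1) S.p.ε (sh x U)) (c0 : 0 < c)
    (ρ0 : 0 < ρ) (r1 : ρ * θr ≤ θ) (r2 : ρ * δr ≤ c / 4)
    (hb : ∀ x, ‖S.Φ b.1 x (Bx x (cC U))‖ ≤ c / 4 ∧ ‖r.1 x (Bx x (cC U))‖ ≤ δr ∧
      ‖s.1 x (Bx x (cC U))‖ ≤ δs) : Rep S.p S.nf (S.Φ b.1) b.2 U ≠ 0 ∧
    ‖d2R S b r s U / Rep S.p S.nf (S.Φ b.1) b.2 U - dR S b r U / Rep S.p S.nf (S.Φ b.1) b.2 U *
      (dR S b s U / Rep S.p S.nf (S.Φ b.1) b.2 U)‖ ≤ 2 * (θs + 4 * δs * θ) * S.nf ^ 4 / ρ := by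
  have a : ∀ t ∈ ball (0 : ℂ) ρ, _ := fun t ht => rep_der (Φ := S.Φ (b + t • r).1) (Φ' := s.1)
    (K := (b + t • r).2) (k := k + ρ • kr) (θ := 2 * θ) h hn ((hK.add (hr.smul t)).mono fun X c =>
      add_le_add le_rfl (mul_le_mul_of_nonneg_right (mem_ball_zero_iff.1 ht).le (h1.1 X c))) hs
    ((h0.add (h1.smul ρ0.le)).mono (by linarith)) h2 (by linarith) (by linarith) hU hχ c0
    fun x => ⟨by
      rw [Prod.fst_add, Prod.smul_fst, phi_line]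
      exact (norm_add_le_of_le (hb x).1 (norm_mul_le_of_le (mem_ball_zero_iff.1 ht).le
        (hb x).2.1)).trans (by linarith), (hb x).2.2⟩
  have d : ∀ t ∈ ball (0 : ℂ) ρ, HasDerivAt (fun u : ℂ => dR S (b + u • r) s U /
      Rep S.p S.nf (S.Φ (b + u • r).1) (b + u • r).2 U + ∑ x ∈ box (S.nf / 2), s.1 x (Bx x (cC U)))
      (d2R S (b + t • r) r s U / Rep S.p S.nf (S.Φ (b + t • r).1) (b + t • r).2 U -
        dR S (b + t • r) r U / Rep S.p S.nf (S.Φ (b + t • r).1) (b + t • r).2 U *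
        (dR S (b + t • r) s U / Rep S.p S.nf (S.Φ (b + t • r).1) (b + t • r).2 U)) t := fun t ht => by
    have c := cu_line (b + t • r) r
    have n := (a t ht).1
    have e := ((dR_deriv (S := S) c (cu_const s) U).fun_div (rep_deriv (S := S) rfl c U)
      (by simpa using n)).add_const (∑ x ∈ box (S.nf / 2), s.1 x (Bx x (cC U)))
    obtain ⟨L, l, -⟩ := dR_lin S (b + t • r) U
    simp only [zero_smul, add_zero, l 0, map_zero] at e
    rw [← sub_self t] at e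
    refine (e.comp_sub_const t t).congr_deriv ?_ |>.congr_of_eventuallyEq (.of_forall fun u => ?_)
    · field_simp
    · simp only [add_assoc, ← add_smul, add_sub_cancel]
  have := Jet.deriv_le (fun t ht => (d t ht).differentiableAt.differentiableWithinAt)
    (M := 2 * (θs + 4 * δs * θ) * S.nf ^ 4) (fun t ht => by
      have := (a t ht).2
      simp only [← phi_line] at this
      exact this.trans_eq (by ring)) ρ0
  rw [(d 0 (mem_ball_self ρ0)).deriv, zero_smul, add_zero] at this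
  exact ⟨by simpa using (a 0 (mem_ball_self ρ0)).1, this⟩

end calculus

namespace LF

variable {S : Sd} {v e x y xr yr xs ys u ω ω' P : ℝ} {F : Mt} {ϑ : Lk → Ang} (h : LF S v e)
include h

theorem pg2 : Pg S.p 2 := by
  have d : (1 : ℝ) ≤ S.D0 := by exact_mod_cast D1 _
  refine { h.pg1.1 with b0 := zero_le_two, G2 := ?_ }
  have := h.nu.mon (C := 2 * 41 ^ 4) (i := 0) (j := 4) (by norm_num) (by omega) (by omega)
  have a : (2 * S.p.D + 1 : ℝ) ^ 4 ≤ (41 * S.D0) ^ 4 := by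
    rw [h.pp, p'_D]
    push_cast
    gcongr
    linarith
  rw [p_G2, h.QM]
  linarith [S.Q0]

variable {b r s d : Lx × Ac} {f fr fs f2 : Conf → ℂ}
  (h2 : √S.g ≤ ω') (h3 : S.Q ^ 100 * ω' ≤ 1) (P1 : S.Q ^ 14 ≤ P) (P2 : P ^ 2 ≤ S.β)
include h2 h3 P1 P2

/-- the value of a direction on a flux field -/
theorem dir_val (z : Sz S.p S.nf S.Q S.g x y ω' d.1 d.2) (hF : As F)
    (hd : ‖F‖ ≤ 2 * tq S.nf (S.g / P)) (a : St) : 0 ≤ x ∧ 0 ≤ y ∧ ‖d.1 a (Ho.em GD.k0 (tF F))‖ ≤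
      49 * S.Q ^ 2 * (x + y) * tq S.nf (S.g / P) ^ 2 := by
  obtain ⟨t0, t1, t2, t3⟩ := h.tq_bd ((le_self_pow₀ S.Q1 (by norm_num)).trans P1) P2
  obtain ⟨k0, k1, -⟩ := (z.1 a).1.elim
  obtain ⟨x0, y0, -⟩ := (z.1 a).1.nonneg h.ρ0
  replace y0 := (mul_nonneg_iff_of_pos_left (pow_pos S.Q0 2)).1 y0
  obtain ⟨c1, c2, -, -, c3⟩ := h.small (by linarith only [t0]) t3
  obtain ⟨-, w2, w3⟩ := h.fd_num t0 t2 c3 x0 y0 h2 h3 P1
  exact ⟨x0, y0, ((z.1 a).1.bd_em (cc_val k1.cc hF hd c1).1 c2).trans (by linarith only [w2, w3])⟩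

variable (z : Sz S.p S.nf S.Q S.g u u ω b.1 b.2) (zr : Sz S.p S.nf S.Q S.g xr yr ω' r.1 r.2)
  (zs : Sz S.p S.nf S.Q S.g xs ys ω' s.1 s.2) (hu : S.Q ^ 300 * u * S.g ^ 2 ≤ 1) (h1 : ω ≤ ω')
  (P3 : P ^ 2 * ω' ≤ 1) (r0 : 0 < xr + yr)
include z zr zs hu h1 P3 r0

/-- the second logarithmic derivative on flux fields -/
theorem hess (hF : As F) (hd : ‖F‖ ≤ 2 * tq S.nf (S.g / P)) (hϑ : Fx S.nf F ϑ) :
    Rep S.p S.nf (S.Φ b.1) b.2 (ab ϑ) ≠ 0 ∧ ‖d2R S b r s (ab ϑ) / Rep S.p S.nf (S.Φ b.1) b.2 (ab ϑ) - dR S b r (ab ϑ) /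
      Rep S.p S.nf (S.Φ b.1) b.2 (ab ϑ) * (dR S b s (ab ϑ) / Rep S.p S.nf (S.Φ b.1) b.2 (ab ϑ))‖ ≤
        S.Q ^ 3 * ω' * S.g ^ 2 * (xr + yr) * (xs + ys) / 2 * tq S.nf (S.g / P) ^ 2 * S.nf ^ 4 := by
  have Q0 := S.Q0
  obtain ⟨t0, t1, t2, t3⟩ := h.tq_bd ((le_self_pow₀ S.Q1 (by norm_num)).trans P1) P2
  have vr := h.dir_val h2 h3 P1 P2 zr hF hd
  have vs := h.dir_val h2 h3 P1 P2 zs hF hd
  obtain ⟨hψ, k, hK, h0⟩ := z
  obtain ⟨-, kr, hr, hr'⟩ := zr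
  obtain ⟨-, ks, hs, hs'⟩ := zs
  obtain ⟨u0, -, -⟩ := (hψ 0).1.nonneg h.ρ0
  have g0 := h.nu.ok.g0
  have ω0 := (sqrt_pos.2 g0).trans_le h2
  have P0 := (pow_pos Q0 14).trans_le P1
  have s1 : 1000 * (S.Q ^ 2 * (u * S.g ^ 2)) ≤ 1 := by
    linarith only [mul_le_mul_of_nonneg_right (qpw h.nu (i := 2) (j := 300) (by norm_num))
      (show 0 ≤ u * S.g ^ 2 by positivity), hu]
  have s2 : u * S.g ^ 2 ≤ S.Q ^ 2 * (u * S.g ^ 2) :=
    le_mul_of_one_le_left (by positivity) (one_le_pow₀ S.Q1)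
  have s3 : ω * u * S.g ^ 2 ≤ ω' := by
    rw [mul_assoc]
    exact (mul_le_mul_of_nonneg_right h1 (by positivity)).trans
      (mul_le_of_le_one_right ω0.le (by linarith only [s1, s2]))
  have s4 := qom h.nu h3 (i := 50) (by norm_num)
  have q := h.nu.cQ' (C := 10 ^ 6) (by norm_num)
  have P4 : S.Q ^ 2 ≤ P ^ 2 := by gcongr; exact (le_self_pow₀ S.Q1 (by norm_num)).trans P1
  obtain ⟨x0, y0, -⟩ := vr 0
  obtain ⟨x1, y1, -⟩ := vs 0
  have := rep_der2 (θ := ω' * P ^ 2 / S.Q ^ 2) (ρ := (98 * S.Q ^ 2 * (xr + yr) *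
    tq S.nf (S.g / P) ^ 2)⁻¹) h.pg2 h.nu.ok.odd_nf hK hr hs (h0.mono (s3.trans (by
      rw [le_div_iff₀ (by positivity)]; gcongr))) hr' hs' (by positivity) (le_trans (by
      rw [← mul_div_assoc, div_le_iff₀ (by positivity), sq S.Q, inv_mul_cancel_left₀ Q0.ne']
      linarith only [P3, q]) h.pg1.2) hϑ.per (h.chi hϑ hd t3) two_pos (by positivity) (by
      rw [inv_mul_le_iff₀ (by positivity), show ∀ t : ℝ, 98 * S.Q ^ 2 * (xr + yr) * t ^ 2 *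
        (ω' * P ^ 2 / S.Q ^ 2) = ω' * (98 * (xr + yr)) * (P * t) ^ 2 from fun t => by field_simp]
      gcongr
      linarith only [x0, y0]) (δr := 49 * S.Q ^ 2 * (xr + yr) * tq S.nf (S.g / P) ^ 2) (by
      rw [inv_mul_le_iff₀ (by positivity)]
      exact le_of_eq (by ring)) fun a => by
      rw [hϑ.bx hF]
      exact ⟨(h.val2 hψ (by linarith only [s1, s2]) (by
        linarith only [mul_le_mul_of_nonneg_left s3 (pow_pos Q0 50).le, s4]) hF hd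
        (by linarith only [t0]) t3 a).trans_eq (by norm_num), (vr a).2.2, (vs a).2.2⟩
  refine ⟨this.1, this.2.trans ?_⟩
  generalize tq S.nf (S.g / P) = t at *
  rw [div_inv_eq_mul, show 4 * (49 * S.Q ^ 2 * (xs + ys) * t ^ 2) * (ω' * P ^ 2 / S.Q ^ 2) =
    196 * (ω' * (xs + ys)) * (P * t) ^ 2 by field_simp; ring]
  calc _ ≤ 2 * (ω' * (xs + ys) * S.g ^ 2 + 196 * (ω' * (xs + ys)) * (2 * S.g) ^ 2) * S.nf ^ 4 *
        (98 * S.Q ^ 2 * (xr + yr) * t ^ 2) := by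
        gcongr
        linarith only [x1]
    _ = 307720 * (S.Q ^ 2 * ω' * S.g ^ 2 * (xr + yr) * (xs + ys) / 2 * t ^ 2 * S.nf ^ 4) := by ring
    _ ≤ S.Q * (S.Q ^ 2 * ω' * S.g ^ 2 * (xr + yr) * (xs + ys) / 2 * t ^ 2 * S.nf ^ 4) := by
        gcongr
        linarith only [q]
    _ = _ := by ring

variable (z' : Sz S.p S.nf S.Q S.g x y ω' d.1 d.2) (re : Re S.p S.nf d.1 d.2)
  (p : Rt2 S b r s d f fr fs f2) (f0 : f (ab 0) ≠ 0)
include z' re p f0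

/-- the second variation of the logarithm on flux fields -/
theorem fd20 : ∃ (k : BF) (c : ℝ), (∀ a b, k a b = k b a) ∧
    (∀ F F', As F → As F' → qc (d.1 0) (pt F) (pt F') = k (pt F) (pt F')) ∧
    ∀ F ϑ, As F → ‖F‖ ≤ 2 * tq S.nf (S.g / P) → Fx S.nf F ϑ →
      |lg2 f fr fs f2 (ab ϑ) - c + S.nf ^ 4 * k (pt F) (pt F)| ≤ (5 * P ^ 2 * ω' * (x + y) +
        S.Q ^ 3 * ω' * S.g ^ 2 * (xr + yr) * (xs + ys) / 2) * tq S.nf (S.g / P) ^ 2 * S.nf ^ 4 := by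
  obtain ⟨κ, κr, κs, κ2, p⟩ := p
  have e0 := (p _ fx_zero.per).1 ▸ f0
  obtain ⟨k, c, a1, a2, a3⟩ := h.fd0 (f := Rep S.p S.nf (S.Φ b.1) b.2) (f' := dR S b d) z z' re
    ⟨1, 0, fun U _ => by simp⟩ (right_ne_zero_of_mul e0) hu h1 h2 h3 P1 P2
  refine ⟨k, c + (κr * κs + κ2).re, a1, a2, fun F ϑ hF hd hϑ => ?_⟩
  obtain ⟨n, b1⟩ := h.hess h2 h3 P1 P2 z zr zs hu h1 P3 r0 hF hd hϑ
  obtain ⟨p1, p2, p3, p4⟩ := p _ hϑ.per
  have κ0 := left_ne_zero_of_mul e0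
  have b2 := abs_le.1 ((Complex.abs_re_le_norm _).trans b1)
  have b3 := abs_le.1 (a3 F ϑ hF hd hϑ)
  rw [lg] at b3
  rw [lg2]
  generalize Rep S.p S.nf (S.Φ b.1) b.2 (ab ϑ) = R at *
  rw [show f2 (ab ϑ) / f (ab ϑ) - fr (ab ϑ) / f (ab ϑ) * (fs (ab ϑ) / f (ab ϑ)) =
    d2R S b r s (ab ϑ) / R - dR S b r (ab ϑ) / R * (dR S b s (ab ϑ) / R) + dR S b d (ab ϑ) / R +
      (κr * κs + κ2) by rw [p4, p3, p2, p1]; field_simp; ring, Complex.add_re, Complex.add_re,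
    abs_le]
  constructor <;> linarith only [b2.1, b2.2, b3.1, b3.2]

/-- the flux lemma for second variations -/
theorem fd2 : |gm2 S.nf (S.g / P) f fr fs f2 - (qc (d.1 0) En.e1 En.e1).re| ≤
      10 * P ^ 2 * ω' * (x + y) + S.Q ^ 3 * ω' * S.g ^ 2 * (xr + yr) * (xs + ys) ∧
    ∀ D, Asy S.nf (S.g / P) D (lg2 f fr fs f2) → ∀ a a' δ δ', Cv 0 δ a → Cv 0 δ' a' →
      ‖qc (d.1 0) a a' - ((qc (d.1 0) En.e1 En.e1).re * m0 a a' : ℝ)‖ ≤ 64 * (10 * P ^ 2 * ω' *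
        (x + y) + S.Q ^ 3 * ω' * S.g ^ 2 * (xr + yr) * (xs + ys) + D) * δ * δ' := by
  obtain ⟨k, c, a1, a2, a3⟩ := h.fd20 h2 h3 P1 P2 z zr zs hu h1 P3 r0 z' re p f0
  have key := fun D => iso_def (D := D) h.n0
    (h.tq_bd ((le_self_pow₀ S.Q1 (by norm_num)).trans P1) P2).1 a1 a3
  have e1 : (qc (d.1 0) En.e1 En.e1).re = k En.e1 En.e1 :=
    congrArg Complex.re (a2 _ _ (as_EE _) (as_EE _))
  have as : ∀ a : V, As (dd a 0) := fun a μ ν => by simp only [dd]; ring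
  rw [e1]
  refine ⟨(key 0).1.trans_eq (by ring), fun D hD a a' δ δ' ha ha' => ?_⟩
  have := a2 _ _ (as a) (as a')
  rw [← cc_pt, ← cc_pt, qc, cc_cc, cc_cc, ← qc] at this
  rw [this, ← Complex.ofReal_sub, Complex.norm_real, norm_eq_abs]
  exact ((key D).2 hD a a' δ δ' ha ha').trans_eq (by ring)

end LF

end Pool.Agent.Lib.MP_7f377f_mp.RG.Q4.En
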