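import Pool.Agent.Lib.MP_7f377f_mp.G.S23TA

/-! The run with a complex bare coupling. -/

noncomputable section

set_option linter.unusedSectionVars false
variable [Pool.Agent.Lib.MP_7f377f_mp.GD]

namespace Pool.Agent.Lib.MP_7f377f_mp.RG.Q4.En.Gl.Ok

open Finset Real Metric

variable {G : Gl} (h : G.Ok) {b σ X w : ℝ} {J j k : ℕ} {s : ℂ} {y : ℂ → Lx × Ac}
include h

theorem fc_imp (A : G.Tu b J) (hj : j ≤ J) (r : G.Rq6 j σ)
    (e : G.Fc6 j (G.zz b J j) σ X (G.fb b J j) y) (hX : X ≤ G.Q j ^ 3 * σ) (hw : w ≤ 1100 * σ)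
    (d : ∀ s ∈ ball (0 : ℂ) σ, G.Sy6 j X w (y s - (G.zz b J j).d))
    (hB : ∀ s ∈ ball (0 : ℂ) σ, ‖Bh (G.N j) (G.fx j) (G.fb b J j) s‖ ≤ 2 * σ) :
    G.Fc6 j (G.zz b J j) σ (1100 * σ) (G.fb b J j) y := by
  have σ0 := r.1
  have m := mem_ball_self (x := (0 : ℂ)) σ0
  have Q0 := h.Q0 j
  have x1 : X ≤ G.xq j := hX.trans (le_trans (by gcongr; exacts [h.Q1 j, by norm_num]) (r.2 j le_rfl))
  refine { e with sz := fun s hs => ?_ }
  have a := (h.fc_iso (A.gd j hj) e e x1 x1 hs m (e.z0 ▸ d s hs)).2 0 (asc_sub (h.fb_sym hj)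
    (fun ϑ _ => by simp [lf1, lg1_zero]) s)
  have c := h.fc_cx e e hs m
  rw [bh_zero, sub_zero, e.z0] at a
  rw [e.z0] at c
  refine h.sz_up (h.sy_nb (d s hs) c) (h.oq0 j).le (a.trans ?_) hw
  have : (X + w) / G.Q j ^ 496 ≤ σ / 1000 := by
    rw [div_le_iff₀ (by positivity)]
    nlinarith [mul_le_mul_of_nonneg_right (h.qpw j (i := 3) (j := 4) (by norm_num)) σ0.le,
      mul_le_mul_of_nonneg_right (h.qpw j (i := 4) (j := 496) (by norm_num)) σ0.le,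
      mul_le_mul_of_nonneg_right (h.qpw j (i := 0) (j := 3) (by norm_num)) σ0.le]
  linarith [hB s hs]

theorem cx_all (A : G.Tu b J) (r : G.Rq6 k σ) : ∀ m ≤ J, ∀ j ≤ J, m ≤ j → k ≤ j →
    G.Fc6 j (G.zz b J j) σ (1100 * σ) (G.fb b J j) (G.yl b J j) ∧
      ∀ s ∈ ball (0 : ℂ) σ, ‖Bh (G.N j) (G.fx j) (G.fb b J j) s‖ ≤ 2 * σ := by
  have σ0 := r.1
  have m0 := mem_ball_self (x := (0 : ℂ)) σ0
  have q : ∀ j, k ≤ j → 10 ^ 37 * σ ≤ G.Q j ^ 3 * σ ∧ G.Q j ^ 3 * σ ≤ G.xq j := fun j hj =>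
    ⟨mul_le_mul_of_nonneg_right (le_trans (by norm_num) (pow_le_pow_left₀ (by norm_num)
      (h.cQ j (C := 10 ^ 20) le_rfl) 3)) σ0.le,
      le_trans (by gcongr; exacts [h.Q1 j, by norm_num]) (r.2 j hj)⟩
  have T : k ≤ J → G.Fc6 J (G.zz b J J) σ (1100 * σ) (G.fb b J J) (G.yl b J J) ∧
      ∀ s ∈ ball (0 : ℂ) σ, ‖Bh (G.N J) (G.fx J) (G.fb b J J) s‖ ≤ 3 / 2 * σ := fun hk => by
    obtain ⟨q1, q2⟩ := q J hk
    have Q0 := h.Q0 J
    have q3 : G.xq J ≤ G.bb J := div_le_self (h.b0 J).le (one_le_pow₀ (h.Q1 J))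
    obtain ⟨a1, a2⟩ := h.fc_top A σ0 (by linarith)
    have a3 : ∀ s ∈ ball (0 : ℂ) σ, ‖Bh (G.N J) (G.fx J) (G.fb b J J) s‖ ≤ 3 / 2 * σ := fun s hs => by
      have := (h.fc_iso (A.gd J le_rfl) a1 a1 (q1.trans q2) (q1.trans q2) hs m0
        (a1.z0 ▸ (a2 s hs).1)).1
      rw [bh_zero, sub_zero, a1.z0, (a2 s hs).2] at this
      have c : (10 ^ 37 * σ + σ) / G.Q J ^ 496 ≤ σ / 10 := by
        rw [div_le_iff₀ (by positivity)]
        nlinarith [mul_le_mul_of_nonneg_right (h.qpw J (i := 3) (j := 496) (by norm_num)) σ0.le]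
      linarith [norm_sub_norm_le (Bh (G.N J) (G.fx J) (G.fb b J J) s) s, mem_ball_zero_iff.1 hs]
    exact ⟨h.fc_imp A le_rfl (r.mono hk) a1 q1 (by linarith) (fun s hs => (a2 s hs).1)
      fun s hs => by linarith [a3 s hs], a3⟩
  refine dw_ind (fun j h1 h2 h3 => ?_) fun m hm ih j h1 h2 h3 => ?_
  · obtain rfl := h1.antisymm h2
    exact ⟨(T h3).1, fun s hs => by linarith [(T h3).2 s hs]⟩
  rcases h2.lt_or_eq with h4 | rfl
  · exact ih j h1 h4 h3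
  have x1 : ∀ j, m ≤ j → 2200 * σ ≤ G.xq j := fun j hj => by linarith [q j (h3.trans hj)]
  have st : ∀ j, m ≤ j → j < J → G.Fc6 j (G.zz b J j) σ (2200 * σ) (G.fb b J j) (G.yl b J j) :=
    fun j j1 j2 => h.fc_step A j2 (ih _ j2 (by omega) (by omega)).1 (by linarith)
      (by linarith [x1 (j + 1) (by omega)]) (fb_step j2) (fun _ => hc_step _ j2) (fb_diff j2.le)
      (by nlinarith [h.eo_le j (n := 0) (by norm_num)])
  have a : ∀ s ∈ ball (0 : ℂ) σ, ‖Bh (G.N m) (G.fx m) (G.fb b J m) s‖ ≤ 2 * σ := fun s hs => by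
    have a0 := h.tail (k := m) (J := J) (i := 78) (f := fun j => dist (Bh (G.N j) (G.fx j)
      (G.fb b J j) s) (Bh (G.N (j + 1)) (G.fx (j + 1)) (G.fb b J (j + 1)) s) / σ)
      (fun j hj => ?_) fun j hj c => ?_
    · rw [← sum_div, div_le_iff₀ σ0] at a0
      have a1 := (dist_le_Ico_sum_dist (fun j => Bh (G.N j) (G.fx j) (G.fb b J j) s) h1).trans a0
      have a3 : 82 / G.L m / G.Q m ^ 78 ≤ 1 / 2 :=
        (div_le_self (by positivity) (one_le_pow₀ (h.Q1 m))).trans (by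
          rw [div_le_iff₀] <;> linarith [h.L1 m])
      rw [dist_eq_norm] at a1
      linarith [norm_sub_norm_le (Bh (G.N m) (G.fx m) (G.fb b J m) s) (Bh (G.N J) (G.fx J)
        (G.fb b J J) s), (T (h3.trans h1)).2 s hs, mul_le_mul_of_nonneg_right a3 σ0.le]
    · obtain ⟨j1, j2⟩ := mem_Ico.1 hj
      have e := (ih _ j2 (by omega) (by omega)).1
      have x2 := x1 (j + 1) (by omega)
      have := h.bh_step A j2 e e (st j j1 j2) (st j j1 j2) (hc_step _ j2) (hc_step _ j2)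
        (by linarith) (by linarith) (x1 j j1) (x1 j j1) hs m0 (e.z0 ▸ e.sz s hs) (by linarith)
        (by linarith)
      have Q0 := h.Q0 j
      rw [bh_zero, bh_zero, sub_zero, sub_zero] at this
      rw [dist_eq_norm, div_le_iff₀ σ0]
      refine this.trans ?_
      rw [div_mul_eq_mul_div, div_le_div_iff₀ (by positivity) (by positivity)]
      nlinarith [mul_le_mul_of_nonneg_right (h.qpw j (show 78 + 1 < 80 by norm_num)) σ0.le,
        mul_le_mul_of_nonneg_right (h.qpw j (show 80 < 495 by norm_num)) σ0.le,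
        mul_pos (pow_pos Q0 (78 + 1)) σ0]
    · obtain ⟨j1, j2⟩ := mem_Ico.1 hj
      simp only [Bad, not_or, not_le, not_not] at c
      rw [dist_eq_norm, div_le_iff₀ σ0]
      exact h.cx_good A ⟨c.2.1, c.2.2⟩ rfl (r.mono (h3.trans j1))
        (fun i i1 i2 => (ih i (i2.trans c.2.1) (by omega) (by omega)).1) hs
        ((ih _ j2 (by omega) (by omega)).2 s hs)
  refine ⟨h.fc_imp A h1 (r.mono h3) (st m le_rfl hm) (by linarith [q m h3]) le_rfl (fun s hs => ?_) a, a⟩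
  have e := (ih _ hm le_rfl (by omega)).1
  have x2 := x1 (m + 1) (by omega)
  have := (h.fc_dif (A.gd _ hm) e e hs m0 (by linarith) (e.z0 ▸ e.sz s hs) (by linarith)
    (by linarith)).1
  rw [← (st m le_rfl hm).z0, yl, yl, hc_step _ hm, hc_step _ hm]
  exact h.sz_up this (h.oq0 m).le (by nlinarith [h.eo_le m (n := 0) (by norm_num)])
    (by nlinarith [h.cr1 m])

/-- the densities stay comparable on flux fields and the measured coupling moves little -/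
theorem cx_run (hp : G.Pu) (A : G.Tu b J) (hB : 10 ^ 4 * G.K ≤ G.Bk k) (hk : k ≤ j) (hj : j ≤ J)
    (hs : s ∈ ball (0 : ℂ) (G.rh k)) : Nz1 (G.N j) (G.fx j) (G.fb b J j s) ∧
      ‖Bh (G.N j) (G.fx j) (G.fb b J j) s‖ ≤ 2 * G.rh k := by
  have r := h.rh_sq hB
  obtain ⟨a1, a2⟩ := h.cx_all A r j hj j hj le_rfl hk
  refine ⟨h.fc_nz (A.gd j hj) a1 (le_trans (mul_le_mul_of_nonneg_right ((h.cQ j (by norm_num)).trans
    (le_self_pow₀ (h.Q1 j) (by norm_num))) r.1.le) (r.2 j hk)) hs, a2 s hs⟩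

end Pool.Agent.Lib.MP_7f377f_mp.RG.Q4.En.Gl.Ok
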