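import Pool.Agent.Lib.MP_7f377f_mp.G.S23T3

/-! The marginal direction with a complex coefficient: sharp bounds. -/

noncomputable section

set_option linter.unusedSectionVars false
variable [Pool.Agent.Lib.MP_7f377f_mp.GD]

namespace Pool.Agent.Lib.MP_7f377f_mp.RG.Q4.En.Gl.Ok

open Finset Real Metric

variable {G : Gl} (h : G.Ok) {b : ℝ} {J i k : ℕ} {t : ℂ}
include h

theorem w_gc (A : G.Tu b J) (go : G.Go J k) (hi : i = k + G.l k + 1) {j : Fin 2 → ℕ}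
    (hj : ∀ s, j s = k ∨ j s = k + 1) {ϑ ϑ' : Fin 2 → Lk → Ang}
    (a : ∀ s, Fw (G.N (j s)) (G.fx (j s)) (ϑ s)) (a' : ∀ s, Fw (G.N (j s)) (G.fx (j s)) (ϑ' s))
    {c : Fin 2 → ℝ} (hc : ∀ s, |c s| ≤ (G.N (j s) ^ 4 * tq (G.N (j s)) (G.fx (j s)) ^ 2)⁻¹)
    {E η : ℝ} (η1 : (G.Q k ^ 485)⁻¹ ≤ η) {F : ℕ → ℂ → Conf → ℂ} (hF : F = G.wf i (G.zz b J i))
    (hη : ∀ t : ℝ, |t| ≤ G.bb i / 200 →
      |c 0 * (log (F (j 0) t (ab (ϑ 0))).re - log (F (j 0) t (ab (ϑ' 0))).re) -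
        c 1 * (log (F (j 1) t (ab (ϑ 1))).re - log (F (j 1) t (ab (ϑ' 1))).re) + E| ≤ η)
    (ht : ‖t‖ ≤ G.bb k / G.Q k ^ 410) :
    ‖c 0 * (lf1 (F (j 0)) t (ab (ϑ 0)) - lf1 (F (j 0)) t (ab (ϑ' 0))) -
      c 1 * (lf1 (F (j 1)) t (ab (ϑ 1)) - lf1 (F (j 1)) t (ab (ϑ' 1)))‖ ≤
        G.Q k ^ 405 * G.g k ^ 2 * η * ‖t‖ := by
  subst hF
  have iJ : i ≤ J := hi ▸ go.1
  have q0 := h.Q0 k
  have q1 := h.Q1 k
  have b0 := h.b0 k
  have L1 := h.L1 k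
  have η0 : 0 < η := (by positivity : 0 < (G.Q k ^ 485)⁻¹).trans_le η1
  have l1 : 1 ≤ G.l k := by have := h.sch.big k; have := h.l1; unfold l; omega
  have j1 : ∀ s, k ≤ j s ∧ j s ≤ k + 1 := fun s => by rcases hj s with e | e <;> omega
  have bi : G.bb k ≤ G.bb i := h.b_mono (by omega)
  have σ0 : 0 < G.bb k / G.Q k ^ 404 := by positivity
  have σ1 : G.bb k / G.Q k ^ 404 ≤ G.bb i / G.Q i ^ 402 :=
    div_le_div₀ (h.b0 i).le bi (pow_pos (h.Q0 i) _) (h.go_Q3 go hi.le)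
  have σ2 : G.bb k / G.Q k ^ 404 ≤ G.bb i / 200 := div_le_div₀ (h.b0 i).le bi (by norm_num)
    ((h.cQ k (by norm_num)).trans (le_self_pow₀ q1 (by norm_num)))
  have n0 : ∀ s, (0 : ℝ) < G.N (j s) ^ 4 := fun s =>
    pow_pos (Nat.cast_pos.2 (h.N_odd _).pos) _
  have d := fun s U => (h.wf_h1 (A.gd i iJ) (k := j s) (by have := j1 s; omega) σ0).diff U
  have w := fun s t (ht : t ∈ ball (0 : ℂ) (G.bb k / G.Q k ^ 404)) {ϑ ϑ'} =>
    h.w_cplx A go hi (j1 s).1 (by have := j1 s; omega) t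
      ((mem_ball_zero_iff.1 ht).le.trans σ1) (ϑ := ϑ) (ϑ' := ϑ')
  have r := fun s (t : ℝ) (ht : |t| < G.bb k / G.Q k ^ 404) =>
    (h.w_real A go hi t (ht.le.trans σ2)).1 _ (hj s)
  have B : 10 ^ 9 * (100 + G.c + G.K + 4 * G.Bk k + 1) ≤ G.l k := (h.sl_all k (G.top0 0 0)).nu.l_big
  have B1 := h.B1.trans (h.B_lo k)
  have cA : ∀ s, |c s| * (4 * G.N (j s) ^ 4) ≤ 4 * (G.Q k ^ 500 * G.bb (k + 1)) := fun s => by
    refine (mul_le_mul_of_nonneg_right (hc s) (mul_pos four_pos (n0 s)).le).trans ?_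
    have := (n0 s).ne'
    rw [mul_inv, show ∀ x y : ℝ, x * y * (4 * G.N (j s) ^ 4) = 4 * y * (G.N (j s) ^ 4 * x) from
      fun _ _ => by ring, mul_inv_cancel₀ this, mul_one]
    refine mul_le_mul_of_nonneg_left ((h.tq_inv _).trans ?_) zero_le_four
    rw [h.go_Q go (j1 s).1 (by have := j1 s; omega)]
    exact mul_le_mul_of_nonneg_left (h.b_mono (j1 s).2) (pow_pos q0 _).le
  have e1 : (120 * G.Bk k : ℝ) ≤ G.L k := by
    exact_mod_cast (by unfold L LL; omega : 120 * G.Bk k ≤ G.L k)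
  have e2 : 4 * (30 * G.Bk k : ℝ) * G.L k ≤ G.Q k := by
    nlinarith [h.LQ' k (i := 2) (by norm_num)]
  have B0 : (1 : ℝ) ≤ G.Bk k := by exact_mod_cast (by omega : 1 ≤ G.Bk k)
  refine ((two_lr (u := fun s t => G.wf i (G.zz b J i) (j s) t (ab (ϑ s)))
    (v := fun s t => G.wf i (G.zz b J i) (j s) t (ab (ϑ' s))) (A := fun s => 4 * G.N (j s) ^ 4)
    (M := 30 * G.Bk k) (x := G.L k) (a := 5 * G.Bk k) σ0 (fun s => mul_pos four_pos (n0 s))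
    (fun s => d s _) (fun s => d s _) (fun s t ht => ⟨(w s t ht (a s) (a' s)).1,
      (w s t ht (a' s) (a s)).1, (w s t ht (a s) (a' s)).2, (w s t ht (a' s) (a s)).2⟩)
    (fun s t ht => ⟨r s t ht _ (a s), r s t ht _ (a' s)⟩) (fun t ht => hη t (ht.le.trans σ2)) η0
    (by exact_mod_cast (by omega : 2 ≤ 30 * G.Bk k)) (by push_cast; linarith) (by linarith)
    ?_).1 t (ht.trans_lt ?_)).trans (mul_le_mul_of_nonneg_right ?_ (norm_nonneg _))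
  · have e1 : G.bb (k + 1) ≤ (G.L k : ℝ) ^ (4 * G.Bk k) := h.sch.upp k
    have e2 : G.Q k ^ 4000 ≤ (G.L k : ℝ) ^ G.Bk k := by
      rw [Q, ← pow_mul]
      exact pow_le_pow_right₀ (by linarith) (by omega)
    have e3 : 16 * G.Q k ^ 500 ≤ (G.L k : ℝ) ^ G.Bk k * (G.Q k ^ 485)⁻¹ := by
      rw [← div_eq_mul_inv, le_div_iff₀ (pow_pos q0 _), mul_assoc, ← pow_add]
      linarith [h.qpw k (i := 500 + 485) (j := 4000) (by norm_num), pow_pos q0 (500 + 485)]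
    calc _ ≤ 16 * G.Q k ^ 500 * G.bb (k + 1) := by linarith [cA 0, cA 1]
      _ ≤ (G.L k : ℝ) ^ G.Bk k * η * (G.L k : ℝ) ^ (4 * G.Bk k) :=
        mul_le_mul (e3.trans (by gcongr)) e1 (h.b0 _).le (by positivity)
      _ = _ := by ring
  · rw [div_div, show 410 = 404 + 6 from rfl, pow_add]
    refine div_lt_div_of_pos_left b0 (by positivity) (mul_lt_mul_of_pos_left ?_ (pow_pos q0 _))
    nlinarith [le_self_pow₀ q1 (n := 6) (by norm_num)]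
  · rw [div_le_iff₀ σ0]
    calc _ ≤ G.Q k * η := mul_le_mul_of_nonneg_right e2 η0.le
      _ = G.Q k * η * (G.bb k * G.g k ^ 2) := by rw [h.bg, mul_one]
      _ = _ := by field_simp

theorem w_cx (A : G.Tu b J) (go : G.Go J k) (hi : i = k + G.l k + 1)
    (ht : ‖t‖ ≤ G.bb k / G.Q k ^ 410) :
    ‖Bh (G.N k) (G.fx k) (G.wf i (G.zz b J i) k) t -
      Bh (G.N (k + 1)) (G.fx (k + 1)) (G.wf i (G.zz b J i) (k + 1)) t‖ ≤
        G.g k ^ 2 / G.Q k ^ 80 * ‖t‖ ∧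
    Asc (G.N (k + 1)) (G.fx (k + 1)) (G.Q k ^ 410 * G.g k ^ 2 * ‖t‖)
      (lf1 (G.wf i (G.zz b J i) (k + 1)) t) := by
  have q0 := h.Q0 k
  have p : ∀ j, 0 < (G.N j : ℝ) ^ 4 * tq (G.N j) (G.fx j) ^ 2 := fun j =>
    mul_pos (pow_pos (Nat.cast_pos.2 (h.N_odd _).pos) _) (pow_pos (h.tq0 j) _)
  refine ⟨?_, fun ϑ a => ?_⟩
  · have := h.w_gc A go hi (j := ![k, k + 1]) (ϑ := 0) (E := G.bn (G.l k))
      (ϑ' := ![fl (G.N k) (G.fx k), fl (G.N (k + 1)) (G.fx (k + 1))])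
      (c := fun s => (G.N (![k, k + 1] s) ^ 4 * tq (G.N (![k, k + 1] s))
        (G.fx (![k, k + 1] s)) ^ 2)⁻¹) (Fin.forall_fin_two.2 ⟨.inl rfl, .inr rfl⟩)
      (fun s => fw_zero (h.tq0 _)) (Fin.forall_fin_two.2
        ⟨fw_fl (h.N_odd _).pos.ne' (h.tq0 _), fw_fl (h.N_odd _).pos.ne' (h.tq0 _)⟩)
      (fun s => (abs_of_pos (inv_pos.2 (p _))).le) le_rfl rfl (fun t ht => by
        have := (h.w_real A go hi t ht).2.1
        simp only [bh, div_eq_inv_mul] at this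
        exact this) ht
    simp only [Bh, rc1, div_eq_inv_mul, ← Complex.ofReal_inv]
    exact this.trans_eq (by field_simp)
  · have key : ∀ ϑ', Fw (G.N (k + 1)) (G.fx (k + 1)) ϑ' → (∀ t : ℝ, |t| ≤ G.bb i / 200 →
        |log (G.wf i (G.zz b J i) (k + 1) t (ab ϑ')).re -
          log (G.wf i (G.zz b J i) (k + 1) t (ab ϑ)).re| ≤
            G.Q k ^ 5 * tq (G.N (k + 1)) (G.fx (k + 1)) ^ 2 * G.N (k + 1) ^ 4) →
        ‖lf1 (G.wf i (G.zz b J i) (k + 1)) t (ab ϑ') - lf1 (G.wf i (G.zz b J i) (k + 1)) t (ab ϑ)‖ ≤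
          G.Q k ^ 410 * G.g k ^ 2 * ‖t‖ * tq (G.N (k + 1)) (G.fx (k + 1)) ^ 2 * G.N (k + 1) ^ 4 :=
      fun ϑ' a' H => by
        have c0 := inv_pos.2 (p (k + 1))
        have := h.w_gc A go hi (j := fun _ => k + 1) (ϑ := fun _ => ϑ') (ϑ' := fun _ => ϑ) (E := 0)
          (c := ![(G.N (k + 1) ^ 4 * tq (G.N (k + 1)) (G.fx (k + 1)) ^ 2)⁻¹, 0]) (η := G.Q k ^ 5)
          (fun _ => .inr rfl) (fun _ => a') (fun _ => a)
          (Fin.forall_fin_two.2 ⟨(abs_of_pos c0).le, abs_zero.trans_le c0.le⟩)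
          ((inv_le_one_of_one_le₀ (one_le_pow₀ (h.Q1 k))).trans (one_le_pow₀ (h.Q1 k))) rfl
          (fun t ht => by
            simp only [Matrix.cons_val_zero, Matrix.cons_val_one, zero_mul, sub_zero, add_zero,
              abs_mul, abs_of_pos c0]
            rw [inv_mul_le_iff₀ (p _)]
            exact (H t ht).trans_eq (by ring)) ht
        simp only [Matrix.cons_val_zero, Matrix.cons_val_one, Complex.ofReal_zero, zero_mul,
          sub_zero, norm_mul, Complex.norm_real, norm_of_nonneg c0.le] at this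
        rw [inv_mul_le_iff₀ (p _)] at this
        exact this.trans_eq (by ring)
    exact ⟨fun σ => key _ (a.pm σ) fun t ht => ((h.w_real A go hi t ht).2.2 ϑ a).1 σ,
      fun j => key _ (a.rf j) fun t ht => ((h.w_real A go hi t ht).2.2 ϑ a).2 j⟩

end Pool.Agent.Lib.MP_7f377f_mp.RG.Q4.En.Gl.Ok
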