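import Pool.Agent.Lib.MP_7f377f_mp.G.S23T3

/-! Families of complex data: the top levels. -/

noncomputable section

set_option linter.unusedSectionVars false
variable [Pool.Agent.Lib.MP_7f377f_mp.GD]

namespace Pool.Agent.Lib.MP_7f377f_mp.RG.Q4.En.Gl.Ok

open Finset Real Metric Pos

variable {G : Gl} (h : G.Ok) {b σ : ℝ} {J i k : ℕ}
include h

theorem qc_sm {x y ω : ℝ} {d : Lx × Ac} (a : G.Sz k x y ω d.1 d.2) (t : ℂ) :
    qc ((t • d.1) 0) e1 e1 = t * qc (d.1 0) e1 e1 := ((a.1 0).1.smul (h.ρ0 k) t).2 _ _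

theorem top_dif (A : G.Tu b J) {s s' : ℂ} {r : ℝ} (hs : 16 * ‖s‖ ≤ G.bb J)
    (hs' : 16 * ‖s'‖ ≤ G.bb J) (hr : ‖s' - s‖ ≤ r) :
    G.Sy6 J (10 ^ 37 * r) r (G.yl b J J s' - G.yl b J J s) := by
  have a := zz_top b J ▸ A.gd J le_rfl
  have nu := (h.sl_all J (G.top b J)).nu
  have n := h.sl_nf J (G.top b J)
  have b0 := h.b0 J
  have g0 := h.g0 J
  have v : 2⁻¹ ≤ b / G.bb J := (v12 a.tz).1
  have d := norm_sub_le s' s
  have d0 := norm_nonneg (s' - s)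
  have k := ((km_schwarz (e := 6 / G.bb J) (F := fun t => sK (G.p J) (G.N J) b ((s + t) • 1))
    (by positivity) (fun t ht => n ▸ sK_km nu (show G.bb J / 2 ≤ b by
      rw [le_div_iff₀ b0] at v; linarith) fun x μ ν => by
        rw [inv_div, mem_ball_zero_iff] at ht
        change ‖(s + t) * 1‖ ≤ G.bb J / 4
        rw [mul_one]
        linarith [norm_add_le s t]) fun X c U => (sK_diff (fun x μ ν => by
      simp only [Pi.smul_apply]; fun_prop) X c U).differentiableOn).2 (s' - s) (by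
    rw [← mul_div_assoc, div_lt_one b0]; linarith)).1
  have u := kN_up (kI_up nu)
  have t : G.Q J * (8 / G.bb J * G.g J ^ 31) ≤ √(G.g J) * G.g J ^ 2 := tiny nu
  rw [n] at u
  rw [add_sub_cancel, add_zero] at k
  rw [yl, yl, hc_top, hc_top]
  refine h.sz_le ⟨?_, _, k, (u.smul (by positivity)).mono ?_⟩ (sqrt_nonneg _) le_rfl le_rfl
    (h.sg_oq J)
  · have := sL_sz nu (F := (s' - s) • 1) (A := r) fun _ _ _ => (congrArg _ (mul_one _)).trans_le hr
    rw [sL_smul, sub_smul, ← sL_smul, ← sL_smul] at this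
    exact this
  · change 2 * (_ * _) * G.g J ^ 31 ≤ _
    have := mul_le_mul_of_nonneg_right (h.cQ J (C := 2) (by norm_num))
      (show 0 ≤ 8 / G.bb J * G.g J ^ 31 by positivity)
    calc _ = 3 / 2 * (8 / G.bb J * G.g J ^ 31) * ‖s' - s‖ := by ring
      _ ≤ √(G.g J) * G.g J ^ 2 * r := by
        refine mul_le_mul ?_ hr d0 (by positivity)
        linarith [show 0 ≤ 8 / G.bb J * G.g J ^ 31 by positivity]
      _ = _ := by ring

theorem fc_top (A : G.Tu b J) (σ0 : 0 < σ) (hσ : 16 * σ ≤ G.bb J) :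
    G.Fc6 J (G.zz b J J) σ (10 ^ 37 * σ) (G.fb b J J) (G.yl b J J) ∧ ∀ s ∈ ball (0 : ℂ) σ,
      G.Sy6 J (10 ^ 37 * σ) σ (G.yl b J J s - (G.zz b J J).d) ∧
        qc ((G.yl b J J s - (G.zz b J J).d).1 0) e1 e1 = s := by
  have a := zz_top b J ▸ A.gd J le_rfl
  have z0 : G.yl b J J 0 = (G.zz b J J).d := by
    rw [yl, hc_top, zero_smul, sL_zero, sK_zero, zz_top]; rfl
  have m : ∀ s ∈ ball (0 : ℂ) σ, 16 * ‖s‖ ≤ G.bb J := fun s hs => by
    linarith [mem_ball_zero_iff.1 hs]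
  have s1 : ∀ s ∈ ball (0 : ℂ) σ, G.Sy6 J (10 ^ 37 * σ) σ (G.yl b J J s - (G.zz b J J).d) :=
    fun s hs => z0 ▸ h.top_dif A (m 0 (mem_ball_self σ0)) (m s hs)
      (by simpa using (mem_ball_zero_iff.1 hs).le)
  refine ⟨⟨z0, fun s hs => h.sz_le (s1 s hs) (h.oq0 J).le le_rfl (by linarith) le_rfl,
    fun s _ w => ?_, ⟨10 ^ 37, fun s hs s' hs' x x0 _ e => h.sz_le
      (h.top_dif A (m s hs) (m s' hs') le_rfl) (h.oq0 J).le e
      (by linarith [norm_nonneg (s' - s)]) le_rfl⟩, fun s _ => ⟨1, one_ne_zero, fun U hU => ?_⟩,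
    fb_diff le_rfl⟩, fun s hs => ⟨s1 s hs, ?_⟩⟩
  · rw [yl, hc_top]
    exact ⟨rfl, fun _ => sK_tr (h.N_odd J) w⟩
  · have n := h.sl_nf J (G.top b J)
    have e : b / G.bb J * (G.sl J (G.top b J)).β = b := div_mul_cancel₀ _ (h.b0 J).ne'
    have i := init_src (h.sl_all J (G.top b J)).nu (v := b / G.bb J) rfl rfl (s • 1) (n ▸ hU)
    rw [e] at i
    rw [one_mul, fb, tt_top, yl, hc_top, zz_top, Rdc, ← n]
    exact i
  · obtain ⟨t1, t2⟩ := h.tn_top a
    have := h.qc_sm t1.sz s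
    rw [t2, mul_one, tu, tc_top, ← sL_smul] at this
    rw [yl, hc_top, zz_top]
    exact (congrArg (qc · e1 e1) (sub_zero _)).trans this

theorem fc_w (A : G.Tu b J) (hi : i ≤ J) (σ0 : 0 < σ) :
    G.Fc6 i (G.zz b J i) σ (G.L i * σ) (G.wf i (G.zz b J i) i) (G.yw b J i i) ∧ ∀ t : ℂ,
      ‖qc ((G.yw b J i i t - (G.zz b J i).d).1 0) e1 e1 - t‖ ≤ ‖t‖ / 100 := by
  have a := A.gd i hi
  obtain ⟨_, -, -, a2, a3⟩ := h.tn_w a
  have L1 := h.L1 i
  have e : ∀ s s', G.yw b J i i s' - G.yw b J i i s = (s' - s) • (G.zz b J i).w := fun s s' => by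
    rw [yw, yw, hc_top, hc_top]
    exact Prod.ext (by simp [sub_smul]) (by simp [Z.w])
  have z0 : G.yw b J i i 0 = (G.zz b J i).d := by rw [yw, hc_top, zero_smul, add_zero]; rfl
  have s1 : ∀ s s' x, G.L i * ‖s' - s‖ ≤ x → G.Sy6 i x x (G.yw b J i i s' - G.yw b J i i s) :=
    fun s s' x hx => e s s' ▸ h.sz_le (sz_smul (h.ρ0 i) a2.sz (s' - s)) (sqrt_nonneg _)
      ((mul_comm _ _).trans_le hx) (by nlinarith [norm_nonneg (s' - s)]) (h.sg_oq i)
  refine ⟨⟨z0, fun s hs => z0 ▸ s1 0 s _ (by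
      rw [sub_zero]; exact mul_le_mul_of_nonneg_left (mem_ball_zero_iff.1 hs).le (by linarith)),
    fun s _ => ?_, ⟨G.L i, fun s _ s' _ x _ _ => s1 s s' x⟩,
    fun s _ => ⟨1, one_ne_zero, fun U _ => ?_⟩, (h.wf_h1 a le_rfl σ0).diff⟩, fun t => ?_⟩
  · rw [yw, hc_top]
    exact TCov.add a.dt.re.2.2 fun B => s * (G.zz b J i).w.1 0 B
  · rw [one_mul, wf, tt_top, yw, hc_top, Rdc, h.sl_nf]
    rfl
  · have r : qc ((G.zz b J i).w.1 0) e1 e1 = (_ : ℝ) := (h.lf a.tz).tree_ps.2.2 e1 e1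
    have d : ∀ j, 0 < j → 1000 * (G.Q i ^ j)⁻¹ ≤ 1 := fun j hj => by simpa using h.inv_le i hj
    have v := A.v i hi
    rw [← z0, e, sub_zero, Prod.smul_fst, h.qc_sm a2.sz, ← mul_sub_one, norm_mul, div_eq_mul_inv]
    rw [r, Complex.ofReal_re] at a3
    rw [r, ← Complex.ofReal_one, ← Complex.ofReal_sub, Complex.norm_real, norm_eq_abs]
    refine mul_le_mul_of_nonneg_left ((abs_sub_le _ (G.zz b J i).v _).trans ?_) (norm_nonneg _)
    linarith [d 409 (by norm_num), d 4000 (by norm_num), h.g_le i]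

theorem fb_sym (hk : k ≤ J) (s : ℂ) : Sym (G.N k) (G.fb b J k s) := fun W hW => by
  have c := Mx.cont_wact (G.N J)
  have e : G.fb b J k s = G.tt (fun U => (exp (-(b * Mx.wact (G.N J) U)) : ℝ) *
      Complex.exp (s * -(Mx.wact (G.N J) U : ℝ))) J k :=
    congrArg (G.tt · J k) (funext fun U => (congrFun (tt_top (G := G) _ J).symm U).trans (fb_top s U))
  have m : Measurable fun U => ((exp (-(b * Mx.wact (G.N J) U)) : ℝ) : ℂ) *
      Complex.exp (s * -(Mx.wact (G.N J) U : ℝ)) := Continuous.measurable (by fun_prop)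
  have s := fun U hU => Mx.wact_sym (U := U) (h.N_odd J) hU
  rw [e]
  exact ⟨fun x => (h.tt_sh m hk hW x).trans (h.tt_congr (fun U hU => by rw [(s U hU).1]) hk W hW),
    fun σ => (h.tt_pm m hk hW σ).trans (h.tt_congr (fun U hU => by rw [(s U hU).2.1]) hk W hW),
    fun i => (h.tt_rfl m hk hW i).trans (h.tt_congr (fun U hU => by rw [(s U hU).2.2]) hk W hW)⟩

end Pool.Agent.Lib.MP_7f377f_mp.RG.Q4.En.Gl.Ok
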