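import Pool.Agent.Lib.MP_7f377f_mp.G.S23T3

/-! Families of complex data: steps and measurements. -/

noncomputable section

set_option linter.unusedSectionVars false
variable [Pool.Agent.Lib.MP_7f377f_mp.GD]

namespace Pool.Agent.Lib.MP_7f377f_mp.RG.Q4.En.Gl

open Finset Real Metric Pos

/-- the drift of the marginal part -/
def eo (G : Gl) (k : ℕ) : ℝ := G.Q k ^ 50 * G.oq k

namespace Ok

variable {G : Gl} (h : G.Ok) {b σ τ x w u X X' : ℝ} {J i j k : ℕ} {z : Z} {c c' : Lx × Ac}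
  {F F' F1 F1' : ℂ → Conf → ℂ} {y y' y1 y1' : ℂ → Lx × Ac} {s t : ℂ} {ϑ ϑ' : Lk → Ang}
include h

theorem eo0 (k : ℕ) : 0 < G.eo k := mul_pos (pow_pos (h.Q0 k) _) (h.oq0 k)

theorem eo_le (k : ℕ) {n : ℕ} (hn : n < 947) : 1000 * (G.Q k ^ n * G.eo k) ≤ 1 := by
  rw [eo, ← mul_assoc (_ ^ n), ← pow_add]
  exact h.oq_le k (by omega)

theorem xq_le {n m : ℕ} (hu : u ≤ 1000 * G.xq j) (hk : k ≤ j) (e : n + m < 1190) :
    G.Q k ^ n * u * G.g j ^ 2 ≤ (G.Q k ^ m)⁻¹ := by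
  have := h.Q0 k
  have := h.xq1 j
  rw [← one_div, le_div_iff₀' (by positivity), ← h.xq_g j]
  calc _ = G.Q k ^ (n + m) * (u * G.g j ^ 2) := by ring
    _ ≤ G.Q k ^ (n + m) * (1000 * G.xq j * G.g j ^ 2) := by gcongr
    _ ≤ G.Q j ^ (n + m) * (1000 * G.xq j * G.g j ^ 2) := by gcongr; exact h.Q_mono hk
    _ = 1000 * G.Q j ^ (n + m) * (G.xq j * G.g j ^ 2) := by ring
    _ ≤ _ := by gcongr; exact h.qpw j e

/-- one step for a difference of complex data -/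
theorem dif_cx (t : G.Tz J (k + 1) z) (a : G.Sy6 (k + 1) u u c) (d : G.Sy6 (k + 1) x w (c' - c))
    (h0 : 0 < x + w) (hu : u ≤ 1000 * G.xq (k + 1)) (hx : x + w ≤ 1000 * G.xq (k + 1))
    (e : ∀ v, (c' - c).1 v = (c' - c).1 0) :
    G.Sy6 k (x + G.eo k * (x + w)) (G.cr k * (x + w)) (G.hs k z c' - G.hs k z c) ∧
      ∀ a a' δ δ', Cv 0 δ a → Cv 0 δ' a' → ‖qc ((G.hs k z c' - G.hs k z c).1 0) a a' -
        qc ((c' - c).1 0) a a'‖ ≤ G.eo k * (x + w) * δ * δ' := by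
  have n := (h.sd_all k z).nu
  have f := h.st2 t
  have a := h.sz_sd (h.sz_le a (h.oq0 _).le le_rfl le_rfl (h.oq_succ k)) z
  have d := h.sz_sd (h.sz_le d (h.oq0 _).le le_rfl le_rfl (h.oq_succ k)) z
  have w1 : G.Q k ^ 100 * G.oq k ≤ 1 := by linarith [h.oq_le k (n := 100) (by norm_num)]
  have w2 := (sqrt_le_sqrt (h.g_succ k)).trans (h.sg_oq k)
  have E : (G.hs k z c' - G.hs k z c).1 = (G.sd k z).PL (c' - c).1 (c' - c).2 := by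
    obtain ⟨_, k1, -⟩ := a.2
    obtain ⟨_, k2, -⟩ := d.2
    have := f.lin _ _ _ _ _ _ _ _ 1 (Sz.pu n a w1) (Sz.pu n d w1) k1 k2
    simp only [one_smul, Prod.fst_sub, Prod.snd_sub, add_sub_cancel] at this
    show stp _ _ _ _ - stp _ _ _ _ = _
    rw [stp, stp, this]
    simp
  obtain ⟨p1, m, d1, d2⟩ := (sz_step_c n f a d w2 w1 le_rfl (h.xq_le hu k.le_succ (by norm_num))
    h0).2 (h.xq_le hx k.le_succ (by norm_num))
  simp only [Prod.fst_sub, Prod.snd_sub, add_sub_cancel] at d1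
  have gm := h.g_succ k
  have := h.g0 (k + 1)
  have := h.cr0 k
  have := h.oq0 k
  have := h.Q0 k
  rw [Sy6, E]
  refine ⟨⟨PM.mono (h.ρ0 k) p1 le_rfl le_rfl ?_, m, d1, d2.mono ?_⟩, (lin_step n f d w2 w1).2 e⟩
  · show G.Q k ^ 50 * _ * (G.cr k * _) * G.g (k + 1) ^ 2 ≤ _
    gcongr
  · show _ * (G.cr k * _) * G.g (k + 1) ^ 2 ≤ _
    gcongr

theorem gd_sy (g : G.Gd b J k z) : G.Sy6 k 1 1 z.d :=
  h.sz_le g.dt.sz (sqrt_nonneg _) le_rfl le_rfl (h.sg_oq k)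

theorem fc_bs (g : G.Gd b J k z) (e : G.Fc6 k z σ X F y) (hs : s ∈ ball (0 : ℂ) σ) :
    G.Sy6 k (1 + X) (1 + X) (y s) := by
  simpa [Sy6, Gl.Sz] using sz_add (h.ρ0 k) (h.gd_sy g) (e.sz s hs)

theorem fc_cx (e : G.Fc6 k z σ X F y) (e' : G.Fc6 k z τ X' F' y') (hs : s ∈ ball (0 : ℂ) σ)
    (ht : t ∈ ball (0 : ℂ) τ) (v : St) : (y s - y' t).1 v = (y s - y' t).1 0 :=
  congrArg₂ (· - ·) (TCov.cx (h.N_odd k) (e.cov s hs) v) (TCov.cx (h.N_odd k) (e'.cov t ht) v)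

theorem fc_dif (g : G.Gd b J (k + 1) z) (e : G.Fc6 (k + 1) z σ X F y) (e' : G.Fc6 (k + 1) z τ X' F' y')
    (hs : s ∈ ball (0 : ℂ) σ) (ht : t ∈ ball (0 : ℂ) τ) (hX : X' ≤ G.xq (k + 1))
    (d : G.Sy6 (k + 1) x w (y s - y' t)) (h0 : 0 < x + w) (hx : x + w ≤ 1000 * G.xq (k + 1)) :
    G.Sy6 k (x + G.eo k * (x + w)) (G.cr k * (x + w)) (G.hs k z (y s) - G.hs k z (y' t)) ∧
      ∀ a a' δ δ', Cv 0 δ a → Cv 0 δ' a' → ‖qc ((G.hs k z (y s) - G.hs k z (y' t)).1 0) a a' -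
        qc ((y s - y' t).1 0) a a'‖ ≤ G.eo k * (x + w) * δ * δ' :=
  h.dif_cx g.tz (h.fc_bs g e' ht) d h0 (by linarith [h.xq1 (k + 1)]) hx (h.fc_cx e e' hs ht)

theorem fc_step (A : G.Tu b J) (hk : k < J) (e : G.Fc6 (k + 1) (G.zz b J (k + 1)) σ X F y)
    (X0 : 0 < X) (hX : X ≤ G.xq (k + 1)) (eF : ∀ s, F1 s = TT (G.l k) (G.a k) (G.N k) (F s))
    (ey : ∀ s, y1 s = G.hs k (G.zz b J (k + 1)) (y s))
    (hol : ∀ U, DifferentiableOn ℂ (F1 · U) (ball 0 σ)) (hX' : X + G.eo k * (X + X) ≤ X') :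
    G.Fc6 k (G.zz b J k) σ X' F1 y1 := by
  have g := A.gd (k + 1) hk
  have x1 := h.xq1 (k + 1)
  have e0 := h.eo0 k
  have e1 := h.eo_le k (n := 0) (by norm_num)
  have c1 := h.cr1 k
  have w1 : G.Q k ^ 100 * G.oq k ≤ 1 := by linarith [h.oq_le k (n := 100) (by norm_num)]
  have z0 : y1 0 = (G.zz b J k).d := by rw [ey, e.z0, zz_step b hk]; rfl
  have bs := fun s hs => h.sz_le (h.fc_bs g e (s := s) hs) (h.oq0 _).le le_rfl le_rfl (h.oq_succ k)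
  have u1 := h.xq_le (u := 1 + X) (n := 115) (m := 997) (by linarith) k.le_succ (by norm_num)
  obtain ⟨C, hC⟩ := e.lip
  refine ⟨z0, fun s hs => ?_, fun s hs => ?_, ⟨2 * C, fun s hs s' hs' x x0 x1 c => ?_⟩,
    fun s hs => ?_, hol⟩
  · rw [← z0, ey, ey]
    exact h.sz_up (h.fc_dif g e e hs (mem_ball_self (pos_of_mem_ball hs)) hX
      (e.z0 ▸ e.sz s hs) (by linarith) (by linarith)).1 (h.oq0 k).le hX' (by nlinarith)
  · obtain ⟨_, _, _, sm⟩ := (ball_step (h.sd_all k _).nu (h.st2 g.tz) (h.sz_sd (bs s hs) _)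
      (by linarith) ((sqrt_le_sqrt (h.g_succ k)).trans (h.sg_oq k)) w1 u1).1
    rw [ey]
    exact TCov.add ((h.st2 g.tz).cov _ _ _ _ _ sm (by rw [h.sd_nf]; exact e.cov s hs)) _
  · rw [ey, ey]
    exact h.sz_up (h.fc_dif g e e hs' hs hX (hC s hs s' hs' (x / 2) (by linarith) (by linarith)
      (by linarith)) (by linarith) (by linarith)).1 (h.oq0 k).le (by nlinarith) (by nlinarith)
  · obtain ⟨κ, κ0, p⟩ := e.rp s hs
    obtain ⟨-, E, q⟩ := h.step_cx g.tz hk ((A.v _ hk).trans (inv_anti₀ (by norm_num) ((h.cQ _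
      (by norm_num)).trans (le_self_pow₀ (h.Q1 _) (by norm_num))))) (A.lam k hk).1 (bs s hs)
      (by linarith) (h.sg_oq k) w1 u1 le_rfl
    refine ⟨κ * Complex.exp E, mul_ne_zero κ0 (Complex.exp_ne_zero _), fun W hW => ?_⟩
    simp only [Rdc, h.sl_nf] at p ⊢
    rw [eF, ey, zz_step b hk, mul_assoc]
    exact (TT_mul (fun U hU => p U (h.N_succ k ▸ hU)) W).trans (congrArg (κ * ·) (q W hW))

theorem fc_nz (g : G.Gd b J k z) (e : G.Fc6 k z σ X F y) (hX : X ≤ G.xq k)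
    (hs : s ∈ ball (0 : ℂ) σ) : Nz1 (G.N k) (G.fx k) (F s) := fun ϑ ϑ' a a' => by
  obtain ⟨κ, κ0, p⟩ := e.rp s hs
  have B := fun ϑ (a : Fw (G.N k) (G.fx k) ϑ) => (h.lf g.tz).cx_bd
    (h.sz_sl (h.fc_bs g e hs) _) (ϑ := ϑ) ((h.xq_le (m := 0) (by linarith [h.xq1 k]) le_rfl
      (by norm_num)).trans_eq (by simp))
    (by linarith [h.oq_le k (n := 0) (by norm_num), h.oq0 k]) (by rw [h.sl_nf]; exact a)
  have b1 := B ϑ a
  have b2 := (B ϑ' a').1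
  rw [p _ a.per, p _ a'.per, norm_mul, norm_mul, mul_left_comm]
  refine ⟨mul_ne_zero κ0 (norm_pos_iff.1 ((exp_pos _).trans_le b1.1)),
    mul_le_mul_of_nonneg_left (b1.2.trans (le_trans (le_of_eq ?_)
      (mul_le_mul_of_nonneg_left b2 (exp_pos _).le))) (norm_nonneg _)⟩
  rw [← exp_add, h.sl_nf]
  congr 1
  ring

theorem fc_ro (g : G.Gd b J k z) (e : G.Fc6 k z σ X F y) (e' : G.Fc6 k z τ X' F' y')
    (hX : X ≤ G.xq k) (hX' : X' ≤ G.xq k) (hs : s ∈ ball (0 : ℂ) σ) (ht : t ∈ ball (0 : ℂ) τ)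
    (d : G.Sy6 k x w (y s - y' t)) {M : Mt} (hM : As M) (hd : ‖M‖ ≤ 2 * tq (G.N k) (G.fx k))
    (hϑ : Fx (G.N k) M ϑ) :
    (∀ α : ℂ, ‖α‖ ≤ 6 → Rdc (G.sl k z) (z.d + α • (y s - z.d)) (ab ϑ) ≠ 0) ∧
    ‖Ldc (G.sl k z) z.d (y s - z.d) (ab ϑ) - Ldc (G.sl k z) z.d (y' t - z.d) (ab ϑ) +
      G.N k ^ 4 * qc ((y s - y' t).1 0) (pt M) (pt M)‖ ≤
        (x + w) / G.Q k ^ 496 * tq (G.N k) (G.fx k) ^ 2 * G.N k ^ 4 := by
  have Q0 := h.Q0 k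
  have o := (h.oq0 k).le
  obtain ⟨x0, w0⟩ := h.sz_nn d
  have c := h.fc_cx e e' hs ht
  rw [← sub_sub_sub_cancel_right (y s) (y' t) z.d] at d c ⊢
  have := (h.lf g.tz).ro1 (P := G.Q k ^ 250) (b := z.d) (d := y' t - z.d) (d' := y s - z.d)
    (ϑ := ϑ) (h.sg_oq k)
    (show G.Q k ^ 100 * _ ≤ 1 by linarith [h.oq_le k (n := 100) (by norm_num)])
    (pow_le_pow_right₀ (h.Q1 k) (by norm_num)) (show _ ≤ G.bb k by
      rw [← pow_mul]; linarith [h.Qbb k (i := 250 * 2) (by norm_num), pow_pos Q0 (250 * 2)]) hM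
    (by rw [h.sl_nf]; exact hd) (by rw [h.sl_nf]; exact hϑ) (h.sz_sl (h.gd_sy g) z)
    (h.sz_sl (h.sz_up (e'.sz t ht) o hX' hX') z) (h.sz_sl (h.sz_up (e.sz s hs) o hX hX) z)
    ((h.xq_le (m := 0) (by linarith [h.xq1 k]) le_rfl (by norm_num)).trans_eq (by simp))
    (h.sz_sl d z) c
  rw [h.sl_nf] at this
  refine ⟨fun α hα => by simpa using this.1 0 α (by simp) hα, this.2.trans ?_⟩
  refine mul_le_mul_of_nonneg_right (mul_le_mul_of_nonneg_right ?_ (sq_nonneg _)) (by positivity)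
  rw [div_eq_inv_mul, oq]
  gcongr
  rw [show 5 * (G.Q k ^ 250) ^ 2 * (G.Q k ^ 997)⁻¹ = 5 * (G.Q k ^ 497)⁻¹ by field_simp]
  linarith [h.inv_le k (i := 496) (j := 497) (by norm_num), inv_pos.2 (pow_pos Q0 497)]

/-- the logarithm of a family from its data -/
theorem fc_log (g : G.Gd b J k z) (e : G.Fc6 k z σ X F y) (hX : X ≤ G.xq k)
    (a : Fw (G.N k) (G.fx k) ϑ) (a' : Fw (G.N k) (G.fx k) ϑ') (hs : s ∈ ball (0 : ℂ) σ) :
    lf1 F s (ab ϑ) - Ldc (G.sl k z) z.d (y s - z.d) (ab ϑ) =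
      lf1 F s (ab ϑ') - Ldc (G.sl k z) z.d (y s - z.d) (ab ϑ') := by
  have m := mem_ball_self (x := (0 : ℂ)) (pos_of_mem_ball hs)
  choose! κ κ0 p using e.rp
  obtain ⟨C, hC⟩ := e.lip
  have key : ∀ ϑ, Fw (G.N k) (G.fx k) ϑ →
      ContinuousOn (fun s => lf1 F s (ab ϑ) - Ldc (G.sl k z) z.d (y s - z.d) (ab ϑ)) (ball 0 σ) ∧
      (∀ s ∈ ball (0 : ℂ) σ, Complex.exp (lf1 F s (ab ϑ) -
        Ldc (G.sl k z) z.d (y s - z.d) (ab ϑ)) = κ s / κ 0) ∧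
      lf1 F 0 (ab ϑ) - Ldc (G.sl k z) z.d (y 0 - z.d) (ab ϑ) = 0 := fun ϑ a => by
    obtain ⟨a1, a2⟩ := lg1_spec (e.hol (ab ϑ)) fun s hs => (h.fc_nz g e hX hs ϑ ϑ a a).1
    obtain ⟨M, hM, hd, hϑ⟩ := id a
    refine ⟨a1.continuousOn.sub (cont_of_lip (C := C) (C' := 2 / G.Q k ^ 496 *
      tq (G.N k) (G.fx k) ^ 2 * G.N k ^ 4 + G.N k ^ 4 * (‖M‖ * ‖M‖)) one_pos
      fun s hs s' hs' x x0 x1 c => ?_), fun s hs => ?_, by simp [lf1, Ldc, lg1, e.z0]⟩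
    · have d := hC s hs s' hs' x x0 x1 c
      have b1 := (h.fc_ro g e e hX hX hs' hs d hM hd hϑ).2
      have b2 : ‖(G.N k : ℂ) ^ 4 * _‖ ≤ _ := norm_mul_le_of_le (by simp : _ ≤ (G.N k : ℝ) ^ 4)
        ((d.1 0).1.cb _ _ _ _ (cv_pt hM 0) (cv_pt hM 0))
      exact (le_of_eq_of_le (by rw [add_sub_cancel_right]) (norm_sub_le_of_le b1 b2)).trans_eq
        (by ring)
    · have n := (h.fc_ro g e e hX hX hs hs (sub_self (y s) ▸ (by
        simpa [Sy6, Gl.Sz] using sz_smul (h.ρ0 k) (h.gd_sy g) 0 : G.Sy6 k 0 0 0)) hM hd hϑ).1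
      have b1 := (lg1_spec (σ := 2) (rd_line (ab ϑ)).differentiableOn fun t ht =>
        n t (by linarith [mem_ball_zero_iff.1 ht])).2 1 (by simp)
      have b2 := a2 s hs
      have b3 := n 0 (by simp)
      rw [p s hs _ a.per, p 0 m _ a.per, e.z0] at b2
      rw [zero_smul, add_zero] at b1 b3
      rw [one_smul, add_sub_cancel] at b1
      rw [Complex.exp_sub, div_eq_div_iff (Complex.exp_ne_zero _) (κ0 0 m)]
      refine mul_left_cancel₀ b3 ?_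
      rw [b1] at b2
      rw [lf1, Ldc]
      linear_combination -b2
  obtain ⟨a1, a2, a3⟩ := key ϑ a
  obtain ⟨b1, b2, b3⟩ := key ϑ' a'
  exact log_uniq (convex_ball _ _).isPreconnected a1 b1 (fun s hs => (a2 s hs).trans (b2 s hs).symm)
    m (a3.trans b3.symm) hs

/-- the measurement of a difference -/
theorem fc_iso (g : G.Gd b J k z) (e : G.Fc6 k z σ X F y) (e' : G.Fc6 k z τ X' F' y')
    (hX : X ≤ G.xq k) (hX' : X' ≤ G.xq k) (hs : s ∈ ball (0 : ℂ) σ) (ht : t ∈ ball (0 : ℂ) τ)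
    (d : G.Sy6 k x w (y s - y' t)) :
    ‖Bh (G.N k) (G.fx k) F s - Bh (G.N k) (G.fx k) F' t - qc ((y s - y' t).1 0) e1 e1‖ ≤
      4 * ((x + w) / G.Q k ^ 496) ∧ ∀ D, Asc (G.N k) (G.fx k) D (lf1 F s - lf1 F' t) →
      nb ((y s - y' t).1 0) ≤ 512 * ‖Bh (G.N k) (G.fx k) F s - Bh (G.N k) (G.fx k) F' t‖ +
        20000 * ((x + w) / G.Q k ^ 496) + 8192 * D := by
  have r : Roc (G.N k) (G.fx k) ((x + w) / G.Q k ^ 496) ((y s - y' t).1 0) (lf1 F s - lf1 F' t) :=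
    ⟨lf1 F s (ab 0) - Ldc (G.sl k z) z.d (y s - z.d) (ab 0) -
      (lf1 F' t (ab 0) - Ldc (G.sl k z) z.d (y' t - z.d) (ab 0)), fun M ϑ a1 a2 a3 => by
      rw [h.fc_log g e hX (fw_zero (h.tq0 k)) ⟨M, a1, a2, a3⟩ hs,
        h.fc_log g e' hX' (fw_zero (h.tq0 k)) ⟨M, a1, a2, a3⟩ ht]
      exact le_of_eq_of_le (congrArg _ (by rw [Pi.sub_apply]; ring))
        (h.fc_ro g e e' hX hX' hs ht d a1 a2 a3).2⟩
  have q : Bh (G.N k) (G.fx k) F s - Bh (G.N k) (G.fx k) F' t =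
      rc1 (G.N k) (G.fx k) (lf1 F s - lf1 F' t) := by
    simp only [Bh, rc1, Pi.sub_apply]; ring
  rw [q]
  exact ⟨(r.iso (D := 0) (h.N_odd k).pos.ne' (h.tq0 k) (d.1 0).1).1,
    fun D => (r.iso (h.N_odd k).pos.ne' (h.tq0 k) (d.1 0).1).2⟩

/-- the change of the measured difference in one step -/
theorem bh_step (A : G.Tu b J) (hk : k < J) {X1 X1' : ℝ}
    (e : G.Fc6 (k + 1) (G.zz b J (k + 1)) σ X F y) (e' : G.Fc6 (k + 1) (G.zz b J (k + 1)) τ X' F' y')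
    (e1 : G.Fc6 k (G.zz b J k) σ X1 F1 y1) (e1' : G.Fc6 k (G.zz b J k) τ X1' F1' y1')
    (ey : y1 s = G.hs k (G.zz b J (k + 1)) (y s)) (ey' : y1' t = G.hs k (G.zz b J (k + 1)) (y' t))
    (hX : X ≤ G.xq (k + 1)) (hX' : X' ≤ G.xq (k + 1)) (hX1 : X1 ≤ G.xq k) (hX1' : X1' ≤ G.xq k)
    (hs : s ∈ ball (0 : ℂ) σ) (ht : t ∈ ball (0 : ℂ) τ) (d : G.Sy6 (k + 1) x w (y s - y' t))
    (h0 : 0 < x + w) (hx : x + w ≤ 1000 * G.xq (k + 1)) :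
    ‖Bh (G.N k) (G.fx k) F1 s - Bh (G.N k) (G.fx k) F1' t - (Bh (G.N (k + 1)) (G.fx (k + 1)) F s -
      Bh (G.N (k + 1)) (G.fx (k + 1)) F' t)‖ ≤ (x + w) / G.Q k ^ 495 := by
  obtain ⟨a1, a2⟩ := h.fc_dif (A.gd _ hk) e e' hs ht hX' d h0 hx
  rw [← ey, ← ey'] at a1 a2
  have b1 := (h.fc_iso (A.gd _ hk.le) e1 e1' hX1 hX1' hs ht a1).1
  have b2 := (h.fc_iso (A.gd _ hk) e e' hX hX' hs ht d).1
  have b3 := a2 _ _ _ _ cv_e1 cv_e1
  have Q0 := h.Q0 k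
  have c1 : (x + w) / G.Q (k + 1) ^ 496 ≤ (x + w) / G.Q k ^ 496 := by
    gcongr
    exact h.Q_mono k.le_succ
  have c2 : (x + G.eo k * (x + w) + G.cr k * (x + w)) / G.Q k ^ 496 ≤
      2 * ((x + w) / G.Q k ^ 496) := by
    rw [← mul_div_assoc]
    gcongr
    nlinarith [h.eo_le k (n := 0) (by norm_num), h.cr1 k, (h.sz_nn d).2]
  have c3 : G.eo k * (x + w) ≤ (x + w) / G.Q k ^ 496 := by
    rw [le_div_iff₀ (by positivity)]
    nlinarith [h.eo_le k (n := 496) (by norm_num)]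
  have c4 : 1000 * ((x + w) / G.Q k ^ 496) ≤ (x + w) / G.Q k ^ 495 := by
    simp only [div_eq_mul_inv]
    nlinarith [h.inv_le k (i := 495) (j := 496) (by norm_num)]
  have c5 : 0 ≤ (x + w) / G.Q k ^ 496 := by positivity
  refine (le_of_eq_of_le (congrArg _ (by ring)) (norm_sub_le_of_le (norm_add_le_of_le b1 b3)
    b2)).trans (by linarith)

end Ok

end Pool.Agent.Lib.MP_7f377f_mp.RG.Q4.En.Gl
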