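import Pool.Agent.Lib.MP_7f377f_mp.G.S23T7
import Pool.Agent.Lib.MP_7f377f_mp.G.S23T8
import Pool.Agent.Lib.MP_7f377f_mp.G.S23T9

/-! The run with a complex bare coupling at a good level. -/

noncomputable section

set_option linter.unusedSectionVars false
variable [Pool.Agent.Lib.MP_7f377f_mp.GD]

namespace Pool.Agent.Lib.MP_7f377f_mp.RG.Q4.En

open Finset Real Metric Pos

theorem open_map {β : ℂ → ℂ} {σ : ℝ} {w : ℂ} (σ0 : 0 < σ) (hd : DifferentiableOn ℂ β (ball 0 (10 * σ)))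
    (h0 : β 0 = 0) (h1 : ∀ t ∈ ball (0 : ℂ) (10 * σ), ‖β t - t‖ ≤ σ) (hw : ‖w‖ ≤ 2 * σ) :
    ∃ t, ‖t‖ ≤ 8 * σ ∧ β t = w := by
  have c : closedBall (0 : ℂ) (8 * σ) ⊆ ball 0 (10 * σ) := closedBall_subset_ball (by linarith)
  have a : ∀ t ∈ sphere (0 : ℂ) (8 * σ), 7 * σ ≤ ‖β t - β 0‖ := fun t ht => by
    have := h1 t (c (sphere_subset_closedBall ht))
    rw [mem_sphere_zero_iff_norm] at ht
    rw [h0, sub_zero]
    linarith [norm_sub_norm_le t (β t), norm_sub_rev t (β t)]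
  obtain ⟨t, t1, t2⟩ := (hd.diffContOnCl_ball c).ball_subset_image_closedBall (by linarith) a (by
    by_contra e
    have m : ((8 * σ : ℝ) : ℂ) ∈ sphere (0 : ℂ) (8 * σ) := by
      rw [mem_sphere_zero_iff_norm, Complex.norm_real, norm_of_nonneg (by linarith)]
    have := a _ m
    rw [(hd.analyticOnNhd isOpen_ball).eqOn_of_preconnected_of_eventuallyEq analyticOnNhd_const
      (convex_ball _ _).isPreconnected (mem_ball_self (by linarith))
      (show ∀ᶠ x in nhds 0, β x = β 0 by simpa using e) (c (sphere_subset_closedBall m))] at this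
    simp at this
    linarith) (show w ∈ _ by rw [h0, mem_ball_zero_iff]; linarith)
  exact ⟨t, mem_closedBall_zero_iff.1 t1, t2⟩

theorem asc_sub {n : ℕ} {x D : ℝ} {F : ℂ → Conf → ℂ} {H : Conf → ℂ} (c : ∀ s, Sym n (F s))
    (a : Asc n x D H) (s : ℂ) : Asc n x D (lf1 F s - H) := fun ϑ h => by
  have e : ∀ U, (∀ s, F s U = F s (ab ϑ)) → ‖(lf1 F s - H) U - (lf1 F s - H) (ab ϑ)‖ =
      ‖H U - H (ab ϑ)‖ := fun U e => by
    simp only [Pi.sub_apply, lf1, e, sub_sub_sub_cancel_left, norm_sub_rev]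
  exact ⟨fun σ => (e _ fun s => (c s _ h.per).2.1 σ).trans_le ((a ϑ h).1 σ), fun j =>
    (e _ fun s => by rw [ab_rf, (c s _ h.per).2.2]).trans_le ((a ϑ h).2 j)⟩

theorem bh_zero (n : ℕ) (x : ℝ) (F : ℂ → Conf → ℂ) : Bh n x F 0 = 0 := by
  simp [Bh, rc1, lf1, lg1_zero]

theorem Gl.Sy6.trans_d {G : Gl} {k : ℕ} {x w : ℝ} {d d' : Lx × Ac} (a : G.Sy6 k x w d) (e : d = d') :
    G.Sy6 k x w d' := e ▸ a

namespace Gl.Ok

variable {G : Gl} (h : G.Ok) {b σ τ x w X X' : ℝ} {J i j k : ℕ} {z : Z} {d : Lx × Ac}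
  {F : ℂ → Conf → ℂ} {y : ℂ → Lx × Ac} {s t : ℂ}
include h

theorem eo_anti (e : j ≤ k) : G.eo k ≤ G.eo j := by
  have a : ∀ k, G.eo k = (G.Q k ^ 947)⁻¹ := fun k => by
    have := h.Q0 k
    rw [eo, oq]
    field_simp
  rw [a, a]
  exact inv_anti₀ (pow_pos (h.Q0 j) _) (pow_le_pow_left₀ (h.Q0 j).le (h.Q_mono e) _)

theorem fc_up (e : G.Fc6 k z σ X F y) (hX : X ≤ X') : G.Fc6 k z σ X' F y :=
  { e with sz := fun s hs => h.sz_up (e.sz s hs) (h.oq0 k).le hX hX }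

theorem sy_nb (a : G.Sy6 k x w d) (e : ∀ v, d.1 v = d.1 0) : G.Sy6 k (nb (d.1 0)) w d :=
  ⟨pm_nb (h.ρ0 k) a.1 e le_rfl le_rfl, a.2⟩

theorem bh_diff (g : G.Gd b J k z) (e : G.Fc6 k z σ X F y) (hX : X ≤ G.xq k) :
    DifferentiableOn ℂ (Bh (G.N k) (G.fx k) F) (ball 0 σ) :=
  have a := fun ϑ a => (lg1_spec (e.hol (ab ϑ)) fun _ hs => (h.fc_nz g e hX hs ϑ ϑ a a).1).1
  ((a _ (fw_zero (h.tq0 k))).sub (a _ (fw_fl (h.N_odd k).pos.ne' (h.tq0 k)))).div_const _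

variable (A : G.Tu b J) (go : G.Go J j) (hi : i = j + G.l j + 1) (r : G.Rq6 j σ)
include A go hi r

omit A in
theorem sh_le (hk : j ≤ k) : 1000 * (G.L i * σ) ≤ G.Q j ^ 3 * σ ∧ G.Q j ^ 3 * σ ≤ G.xq k := by
  have := r.1
  have := h.Q0 j
  refine ⟨?_, le_trans ?_ (r.2 k hk)⟩
  · nlinarith [(h.LQ i).trans (h.go_Q2 go hi.le), h.qpw j (i := 2) (j := 3) (by norm_num)]
  · exact mul_le_mul_of_nonneg_right ((pow_le_pow_left₀ this.le (h.Q_mono hk) _).trans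
      (pow_le_pow_right₀ (h.Q1 k) (by norm_num))) r.1.le

/-- the short family -/
theorem sh_fam : ∀ k ≤ i, j ≤ k → G.Fc6 k (G.zz b J k) (10 * σ) (20 * (G.L i * σ))
    (G.wf i (G.zz b J i) k) (G.yw b J i k) ∧ ∀ t ∈ ball (0 : ℂ) (10 * σ),
      ‖qc ((G.yw b J i k t - (G.zz b J k).d).1 0) e1 e1 - t‖ ≤ σ / 2 := by
  have iJ : i ≤ J := hi ▸ go.1
  have σ0 := r.1
  have L1 := h.L1 i
  have X0 : 0 < G.L i * σ := by positivity
  have e0 := h.eo0 j
  have Q1 := h.Q1 j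
  have v : ∀ k, j ≤ k → ((i - k : ℕ) : ℝ) * (G.eo j * (G.L i * σ)) ≤ σ / 1000 := fun k hk => by
    have c : ((i - k : ℕ) : ℝ) ≤ G.Q j :=
      (Nat.cast_le.2 (by unfold L LL; omega : i - k ≤ G.L j)).trans (h.LQ j)
    calc _ ≤ G.Q j * (G.eo j * (G.Q j ^ 3 * σ)) := by
          gcongr ?_ * (_ * ?_)
          linarith [(h.sh_le go hi r le_rfl).1]
      _ = G.Q j ^ 4 * G.eo j * σ := by ring
      _ ≤ _ := by nlinarith [h.eo_le j (n := 4) (by norm_num)]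
  have H : ∀ k ≤ i, j ≤ k → G.Fc6 k (G.zz b J k) (10 * σ) (10 * (G.L i * σ) + 40 * ((i - k : ℕ) *
      (G.eo j * (G.L i * σ)))) (G.wf i (G.zz b J i) k) (G.yw b J i k) ∧ ∀ t ∈ ball (0 : ℂ) (10 * σ),
      ‖qc ((G.yw b J i k t - (G.zz b J k).d).1 0) e1 e1 - t‖ ≤
        σ / 10 + 40 * ((i - k : ℕ) * (G.eo j * (G.L i * σ))) := by
    refine dw_ind (fun _ => ?_) fun k hk ih hj => ?_
    · obtain ⟨a1, a2⟩ := h.fc_w A iJ (σ := 10 * σ) (by linarith)
      refine ⟨h.fc_up a1 (by simp; linarith), fun t ht => (a2 t).trans ?_⟩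
      simp only [Nat.sub_self, Nat.cast_zero, zero_mul, mul_zero, add_zero]
      linarith [mem_ball_zero_iff.1 ht]
    obtain ⟨a1, a2⟩ := ih (by omega)
    have v1 := v (k + 1) (by omega)
    obtain ⟨c1, c2⟩ := h.sh_le go hi r (k := k + 1) (by omega)
    have v0 : 0 ≤ ((i - (k + 1) : ℕ) : ℝ) * (G.eo j * (G.L i * σ)) := by positivity
    have v2 : σ ≤ G.L i * σ := le_mul_of_one_le_left σ0.le (by linarith)
    rw [show i - k = i - (k + 1) + 1 by omega, Nat.cast_succ, add_mul, one_mul]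
    generalize ((i - (k + 1) : ℕ) : ℝ) * (G.eo j * (G.L i * σ)) = u at *
    have c3 : G.eo k * (10 * (G.L i * σ) + 40 * u + (10 * (G.L i * σ) + 40 * u)) ≤
        40 * (G.eo j * (G.L i * σ)) := (mul_le_mul (h.eo_anti hj) (by linarith :
          _ ≤ 40 * (G.L i * σ)) (by linarith) e0.le).trans_eq (by ring)
    have e := h.fc_step (X' := 10 * (G.L i * σ) + 40 * (u + G.eo j * (G.L i * σ))) A
      (hk.trans_le iJ) a1 (by linarith) (by linarith) (fun _ => tt_step _ hk)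
      (fun _ => hc_step _ hk) (h.wf_h1 (A.gd i iJ) hk.le (by linarith)).diff (by linarith)
    refine ⟨e, fun t ht => ?_⟩
    have := (h.fc_dif (A.gd _ (hk.trans_le iJ)) a1 a1 ht (mem_ball_self (by linarith)) (by linarith)
      (a1.z0 ▸ a1.sz t ht) (by linarith) (by linarith)).2 _ _ _ _ cv_e1 cv_e1
    rw [a1.z0, show G.hs k _ (G.yw b J i (k + 1) t) = G.yw b J i k t from (hc_step _ hk).symm,
      show G.hs k _ (G.zz b J (k + 1)).d = (G.zz b J k).d by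
        rw [zz_step b (hk.trans_le iJ)]; rfl] at this
    linarith [norm_sub_le_norm_sub_add_norm_sub (qc ((G.yw b J i k t - (G.zz b J k).d).1 0) e1 e1)
      (qc ((G.yw b J i (k + 1) t - (G.zz b J (k + 1)).d).1 0) e1 e1) t, a2 t ht]
  intro k hk hj
  have v2 : σ ≤ G.L i * σ := le_mul_of_one_le_left σ0.le (by linarith)
  exact ⟨h.fc_up (H k hk hj).1 (by linarith [v k hj]),
    fun t ht => ((H k hk hj).2 t ht).trans (by linarith [v k hj])⟩

/-- the measured coupling changes very little at a good level -/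
theorem cx_good (e : ∀ k, j < k → k ≤ i → G.Fc6 k (G.zz b J k) σ (1100 * σ) (G.fb b J k) (G.yl b J k))
    (hs : s ∈ ball (0 : ℂ) σ) (hB : ‖Bh (G.N (j + 1)) (G.fx (j + 1)) (G.fb b J (j + 1)) s‖ ≤ 2 * σ) :
    ‖Bh (G.N j) (G.fx j) (G.fb b J j) s - Bh (G.N (j + 1)) (G.fx (j + 1)) (G.fb b J (j + 1)) s‖ ≤
      G.g j ^ 2 / G.Q j ^ 79 * σ := by
  have iJ : i ≤ J := hi ▸ go.1
  have k1 : j + 1 ≤ i := by omega
  have σ0 := r.1
  have Q0 := h.Q0 j
  have g0 := h.g0 j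
  have v2 : 1000 * σ ≤ G.L i * σ := mul_le_mul_of_nonneg_right (h.L1 i) σ0.le
  have c1 := (h.sh_le go hi r le_rfl).1
  have c2 := fun k hk => (h.sh_le go hi r (k := k) hk).2
  have f := h.sh_fam A go hi r
  have g := fun k (hk : k ≤ i) => A.gd k (hk.trans iJ)
  obtain ⟨t, t1, t2⟩ := open_map σ0 (h.bh_diff (g _ k1) (f _ k1 j.le_succ).1 (by
    linarith [c2 _ j.le_succ])) (bh_zero ..) (fun t ht => by
      obtain ⟨a1, a2⟩ := f _ k1 j.le_succ
      have a3 := (h.fc_iso (g _ k1) a1 a1 (by linarith [c2 _ j.le_succ]) (by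
        linarith [c2 _ j.le_succ]) ht (mem_ball_self (by linarith)) (a1.z0 ▸ a1.sz t ht)).1
      have a4 : (20 * (G.L i * σ) + 20 * (G.L i * σ)) / G.Q (j + 1) ^ 496 ≤ σ / 10 := by
        rw [div_le_iff₀ (pow_pos (h.Q0 _) _)]
        nlinarith [mul_le_mul_of_nonneg_right ((pow_le_pow_left₀ Q0.le (h.Q_mono j.le_succ) 3).trans
          (pow_le_pow_right₀ (h.Q1 _) (show 3 ≤ 496 by norm_num))) σ0.le]
      rw [bh_zero, sub_zero, a1.z0] at a3
      linarith [norm_sub_le_norm_sub_add_norm_sub (Bh (G.N (j + 1)) (G.fx (j + 1))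
        (G.wf i (G.zz b J i) (j + 1)) t) (qc ((G.yw b J i (j + 1) t - (G.zz b J (j + 1)).d).1 0) e1
        e1) t, a2 t ht]) hB
  have ht : t ∈ ball (0 : ℂ) (10 * σ) := mem_ball_zero_iff.2 (by linarith)
  obtain ⟨w1, w2⟩ := h.w_cx A go hi (t := t) (le_trans (by linarith [c2 j le_rfl] : _ ≤ G.xq j)
    (div_le_div_of_nonneg_left (h.b0 j).le (by positivity)
      (pow_le_pow_right₀ (h.Q1 j) (show 410 ≤ 1190 by norm_num))))
  obtain ⟨D, hD⟩ : ∃ D : ℕ → Lx × Ac, ∀ k, D k = G.yl b J k s - G.yw b J i k t := ⟨_, fun _ => rfl⟩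
  obtain ⟨Y, hY⟩ : ∃ Y, Y = 1100 * σ + 20 * (G.L i * σ) := ⟨_, rfl⟩
  have a0 : ∀ k, j < k → k ≤ i → G.Sy6 k Y Y (D k) := fun k h1 h2 => by
    simpa [hD, hY, Sy6, Gl.Sz] using sz_sub (h.ρ0 k) ((e k h1 h2).sz s hs) ((f k h2 h1.le).1.sz t ht)
  have cx : ∀ k, j < k → k ≤ i → ∀ v, (D k).1 v = (D k).1 0 := fun k h1 h2 =>
    hD k ▸ h.fc_cx (e k h1 h2) (f k h2 h1.le).1 hs ht
  obtain ⟨w, hw⟩ : ∃ w, w = dw (fun k w => G.cr k * (nb ((D (k + 1)).1 0) + w)) Y i := ⟨_, rfl⟩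
  have ws : ∀ k < i, w k = G.cr k * (nb ((D (k + 1)).1 0) + w (k + 1)) := fun k hk => by
    rw [hw, dw_step _ _ hk]
  have wt : w i = Y := by rw [hw, dw_top]
  have st : ∀ k < i, j ≤ k → 0 < w (k + 1) → w (k + 1) ≤ Y →
      G.Sy6 (k + 1) (nb ((D (k + 1)).1 0)) (w (k + 1)) (D (k + 1)) → _ := fun k hk hj p1 p2 p3 => by
    have p4 := (Ps.nb ((a0 (k + 1) (by omega) hk).1 0).1).2
    have := h.fc_dif (g _ hk) (e _ (by omega) hk) (f _ hk (by omega)).1 hs ht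
      (by linarith [c2 (k + 1) (by omega)]) (p3.trans_d (hD _))
      (add_pos_of_nonneg_of_pos (nb_nonneg _) p1) (by linarith [c2 (k + 1) (by omega)])
    rw [show G.hs k _ (G.yl b J (k + 1) s) = G.yl b J k s from (hc_step _ (hk.trans_le iJ)).symm,
      show G.hs k _ (G.yw b J i (k + 1) t) = G.yw b J i k t from (hc_step _ hk).symm, ← hD, ← hD,
      ← ws k hk] at this
    exact And.intro p4 this
  have H : ∀ k ≤ i, j < k → 0 < w k ∧ w k ≤ Y ∧ G.Sy6 k (nb ((D k).1 0)) (w k) (D k) :=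
    dw_ind (fun a => by
      rw [wt]
      exact ⟨by linarith, le_rfl, h.sy_nb (a0 i a le_rfl) (cx i a le_rfl)⟩) fun k hk ih hj => by
      obtain ⟨p1, p2, p3⟩ := ih (by omega)
      obtain ⟨q1, q2, -⟩ := st k hk hj.le p1 p2 p3
      have p := add_pos_of_nonneg_of_pos (nb_nonneg ((D (k + 1)).1 0)) p1
      refine ⟨ws k hk ▸ mul_pos (h.cr0 k) p, ?_, h.sy_nb q2 (cx k hj hk.le)⟩
      rw [ws k hk]
      nlinarith [h.cr1 k, h.cr0 k]
  obtain ⟨E, hE⟩ : ∃ E, E = G.Q j ^ 410 * G.g j ^ 2 * (8 * σ) := ⟨_, rfl⟩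
  have E0 : 0 < E := by rw [hE]; positivity
  obtain ⟨p1, p2, p3⟩ := H _ k1 j.lt_succ_self
  have x1 : 1100 * σ ≤ G.xq (j + 1) := by linarith [c2 _ j.le_succ]
  have x2 : 20 * (G.L i * σ) ≤ G.xq (j + 1) := by linarith [c2 _ j.le_succ]
  have b1 := (h.fc_iso (g _ k1) (e _ j.lt_succ_self k1) (f _ k1 j.le_succ).1 x1 x2 hs ht
    (p3.trans_d (hD _))).2 E (asc_sub (h.fb_sym (k1.trans iJ)) (fun ϑ a => have := w2 ϑ a
      ⟨fun σ => (this.1 σ).trans (by rw [hE]; gcongr), fun j => (this.2 j).trans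
        (by rw [hE]; gcongr)⟩) s)
  rw [t2, sub_self, norm_zero, ← hD] at b1
  have e0 := h.eo0 j
  obtain ⟨d1, d2⟩ := two_sided_src (I := G.l j) (C := 1) (a := 20000 * E) (η := fun _ => 64 * G.eo j)
    (c := fun k => G.cr (j + 1 + k)) (s := 0) (t := 0) (σ := 20000 * E) (τ := 0) (γ := 1000⁻¹) (k := 0)
    (x := fun k => nb ((D (j + 1 + k)).1 0)) (y := fun k => w (j + 1 + k))
    ⟨le_rfl, fun _ _ => by linarith, fun _ _ => by linarith [h.eo_le j (n := 0) (by norm_num)],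
      fun _ _ => (h.cr0 _).le, fun k _ => by linarith [h.cr1 (j + 1 + k), h.cr0 (j + 1 + k)]⟩
    ⟨by
      have : 40000 * ((nb ((D (j + 1)).1 0) + w (j + 1)) / G.Q (j + 1) ^ 496) ≤
          nb ((D (j + 1)).1 0) + w (j + 1) := by
        rw [← mul_div_assoc, div_le_iff₀ (pow_pos (h.Q0 _) _), mul_comm]
        exact mul_le_mul_of_nonneg_left ((h.cQ _ (by norm_num)).trans (le_self_pow₀ (h.Q1 _)
          (by norm_num))) (add_nonneg (nb_nonneg _) p1.le)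
      simp only [add_zero]
      linarith only [this, b1, E0], fun k hk => by
      obtain ⟨q1, q2, q3⟩ := H (j + 1 + k + 1) (by omega) (by omega)
      have := nb_sub (st (j + 1 + k) (by omega) (by omega) q1 q2 q3).2.2
      have := mul_le_mul_of_nonneg_right (h.eo_anti (j := j) (k := j + 1 + k) (by omega))
        (add_nonneg (nb_nonneg ((D (j + 1 + k + 1)).1 0)) q1.le)
      simp only [Pi.zero_apply, ← add_assoc]
      linarith [mul_nonneg e0.le (nb_nonneg ((D (j + 1 + k)).1 0))],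
      fun k hk => by simp [ws (j + 1 + k) (by omega), ← add_assoc]⟩
    (by
      rw [sum_const, card_range, nsmul_eq_mul]
      have : (G.l j : ℝ) ≤ G.Q j := (Nat.cast_le.2 (by unfold L LL; omega : G.l j ≤ G.L j)).trans
        (h.LQ j)
      nlinarith [h.eo_le j (n := 1) (by norm_num)]) (by linarith) (fun _ _ => le_rfl) (by simp)
    le_rfl (fun _ _ => le_rfl) (by norm_num) (fun k _ => by linarith [h.cr1 (j + 1 + k)])
    (by norm_num) (H _ (by omega) (by omega)).1.le (Nat.zero_le _)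
  have c3 : (∏ k ∈ Ico 0 (G.l j), 2 * G.cr (j + 1 + k)) * w (j + 1 + G.l j) ≤ E := by
    have n := (h.sd_all j (G.top0 0 0)).nu.l_big
    have := h.cr_prod (k := j + 1) (i := j + 1 + G.l j) (n := 4 * G.Bk j) (by
      change _ * (_ + _ + _ + 4 * G.Bk j + 1) ≤ G.l j at n; omega)
    rw [prod_Ico_eq_prod_range, Nat.add_sub_cancel_left, range_eq_Ico] at this
    rw [show j + 1 + G.l j = i by omega, wt, hE, mul_right_comm, mul_comm]
    have L1 := h.L1 j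
    refine mul_le_mul (by nlinarith [mul_le_mul_of_nonneg_right (pow_le_pow_right₀ (h.Q1 j)
      (show 3 ≤ 410 by norm_num)) σ0.le]) (this.trans ?_) (prod_nonneg fun _ _ =>
        (mul_pos two_pos (h.cr0 _)).le) (by positivity)
    rw [eq_inv_of_mul_eq_one_right (h.bg j)]
    exact inv_anti₀ (h.b0 j) (((h.sch.le j).1.trans (h.sch.upp j)).trans
      (pow_le_pow_left₀ (by positivity) (Nat.cast_le.2 (h.L_mono j.le_succ)) _))
  simp only [add_zero] at d1 d2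
  have b2 := h.bh_step A (k1.trans iJ) (e _ j.lt_succ_self k1) (f _ k1 j.le_succ).1
    (h.fc_step (X' := 2200 * σ) A (k1.trans iJ) (e _ j.lt_succ_self k1) (by linarith) x1
      (fb_step (k1.trans iJ)) (fun _ => hc_step _ (k1.trans iJ)) (fb_diff (by omega))
      (by nlinarith [h.eo_le j (n := 0) (by norm_num)])) (f j (by omega) le_rfl).1
    (hc_step _ (k1.trans iJ)) (hc_step _ k1) x1 x2 (by linarith [c2 j le_rfl])
    (by linarith [c2 j le_rfl]) hs ht (p3.trans_d (hD _)) (add_pos_of_nonneg_of_pos (nb_nonneg _) p1)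
    (by linarith [(st j k1 le_rfl p1 p2 p3).1])
  rw [t2, sub_self, sub_zero] at b2
  rw [t2] at w1
  have b3 : (nb ((D (j + 1)).1 0) + w (j + 1)) / G.Q j ^ 495 ≤ G.g j ^ 2 / G.Q j ^ 80 * σ := by
    calc _ ≤ G.Q j / 8 * E / G.Q j ^ 495 := by
          gcongr
          nlinarith only [d1, d2, c3, E0, h.cQ j (C := 10 ^ 6) (by norm_num)]
      _ = G.g j ^ 2 / G.Q j ^ 84 * σ := by rw [hE]; field_simp
      _ ≤ _ := by gcongr; exacts [h.Q1 j, by norm_num]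
  have b4 : 1000 * (G.g j ^ 2 / G.Q j ^ 80 * σ) ≤ G.g j ^ 2 / G.Q j ^ 79 * σ := by
    simp only [div_eq_mul_inv]
    nlinarith only [h.inv_le j (show 79 < 80 by norm_num), mul_pos (pow_pos g0 2) σ0]
  have b5 := mul_le_mul_of_nonneg_left t1 (show 0 ≤ G.g j ^ 2 / G.Q j ^ 80 by positivity)
  have b6 : 0 ≤ G.g j ^ 2 / G.Q j ^ 80 * σ := by positivity
  linarith [norm_sub_le_norm_sub_add_norm_sub (Bh (G.N j) (G.fx j) (G.fb b J j) s)
    (Bh (G.N j) (G.fx j) (G.wf i (G.zz b J i) j) t)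
    (Bh (G.N (j + 1)) (G.fx (j + 1)) (G.fb b J (j + 1)) s)]

end Gl.Ok

end Pool.Agent.Lib.MP_7f377f_mp.RG.Q4.En
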