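import Pool.Agent.Lib.MP_7f377f_mp.G.S23T6
import Pool.Agent.Lib.MP_7f377f_mp.G.S23E3

/-! The second variation at the coarse probe. -/

noncomputable section

variable [Pool.Agent.Lib.MP_7f377f_mp.GD]

namespace Pool.Agent.Lib.MP_7f377f_mp.RG.Q4.En

open Filter

theorem d2s {G : Gl} (h : G.Oks) (a : AfU G.c G.Kt G.K0) (N : ℕ) : ∀ᶠ k in atTop, ∀ m b J,
    (G.wm m).Tu b J → k ≤ J → (G.wm m).D2s b J k (G.g k ^ 2 / G.Q k ^ N) :=
  (d2_small h a N).mono fun k H m b J A hk =>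
    H m b J A hk _ le_rfl (pow_le_pow_right₀ ((h 0).1.Q1 k) (by norm_num))

end Pool.Agent.Lib.MP_7f377f_mp.RG.Q4.En
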