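import Pool.Agent.Lib.MP_7f377f_mp.G.S3R

/-! Test tensors: the massless part of a conserved covariant symmetric tensor is curl free. -/

noncomputable section

namespace Pool.Agent.Lib.MP_7f377f_mp.S3

open Finset

/-- a commutative algebra with coordinates and derivatives -/
structure Wl (A : Type) [CommRing A] [Algebra ℝ A] where
  d : Fin 4 → A →ₗ[ℝ] A
  x : Fin 4 → A
  mul : ∀ i f g, d i (f * g) = d i f * g + f * d i g
  cm : ∀ i j f, d i (d j f) = d j (d i f)
  dx : ∀ i j, d i (x j) = if i = j then 1 else 0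

/-- tensors -/
abbrev Ten (A : Type) : Type := Fin 4 → Fin 4 → A

variable {A : Type} [CommRing A] [Algebra ℝ A] (w : Wl A) {K : Type} [NormedAddCommGroup K]
  [InnerProductSpace ℂ K]

/-- tensors with entries in an ideal -/
def In (J : Ideal A) (φ : Ten A) : Prop := ∀ μ ν, φ μ ν ∈ J

/-- signs of the reflection -/
def sg (l : Fin 4) : ℂ := if l = 0 then 1 else -1

theorem sg_sq (l : Fin 4) : sg l * sg l = 1 := by unfold sg; split_ifs <;> simp

namespace Wl

/-- derivative of tensors -/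
def D (l : Fin 4) : Module.End ℝ (Ten A) where
  toFun φ μ ν := w.d l (φ μ ν)
  map_add' _ _ := by ext; simp
  map_smul' _ _ := by ext; simp

/-- infinitesimal rotation of tensors -/
def L (a b : Fin 4) : Module.End ℝ (Ten A) where
  toFun φ μ ν := w.x a * w.d b (φ μ ν) - w.x b * w.d a (φ μ ν) +
    ((if μ = a then φ b ν else 0) - (if μ = b then φ a ν else 0) +
      ((if ν = a then φ μ b else 0) - if ν = b then φ μ a else 0))
  map_add' _ _ := by
    ext
    simp only [Pi.add_apply, map_add, ite_add_zero]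
    ring
  map_smul' _ _ := by
    ext
    simp only [Pi.smul_apply, map_smul, RingHom.id_apply, smul_add, smul_sub, mul_smul_comm,
      smul_ite, smul_zero]

/-- Laplace operator -/
def Lap : Module.End ℝ (Ten A) := ∑ l, w.D l * w.D l

/-- the generator of the null rotations -/
def N (a b : Fin 4) : Module.End ℝ (Ten A) :=
  ∑ β, (w.L a β * (w.D b * w.D β) - w.L b β * (w.D a * w.D β))

/-- curls -/
def u (a b μ : Fin 4) (f : A) : A := (if μ = a then w.d b f else 0) - if μ = b then w.d a f else 0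

theorem D_apply (l φ μ ν) : w.D l φ μ ν = w.d l (φ μ ν) := rfl

theorem L_apply (a b φ μ ν) : w.L a b φ μ ν = w.x a * w.d b (φ μ ν) - w.x b * w.d a (φ μ ν) +
    ((if μ = a then φ b ν else 0) - (if μ = b then φ a ν else 0) +
      ((if ν = a then φ μ b else 0) - if ν = b then φ μ a else 0)) := rfl

theorem Lap_apply (φ μ ν) : w.Lap φ μ ν = ∑ l, w.d l (w.d l (φ μ ν)) := by
  simp [Lap, LinearMap.sum_apply, Finset.sum_apply, D_apply]

theorem DD (i j) : w.D i * w.D j = w.D j * w.D i := by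
  refine LinearMap.ext fun φ => funext₂ fun μ ν => ?_
  exact w.cm _ _ _

theorem DL (l a b) : w.D l * w.L a b =
    w.L a b * w.D l + ((if l = a then w.D b else 0) - if l = b then w.D a else 0) := by
  refine LinearMap.ext fun φ => funext₂ fun μ ν => ?_
  simp only [Module.End.mul_apply, LinearMap.add_apply, LinearMap.sub_apply, Pi.add_apply,
    Pi.sub_apply, D_apply, L_apply, map_add, map_sub, w.mul, w.dx, apply_ite (w.d l), map_zero,
    w.cm l, ite_apply, LinearMap.zero_apply, Pi.zero_apply, DFunLike.ite_apply, ite_mul, one_mul,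
    zero_mul]
  ring

theorem Lap_D (l) : Commute w.Lap (w.D l) :=
  Commute.sum_left _ _ _ fun i _ => Commute.mul_left (w.DD i l) (w.DD i l)

theorem DDL (i j a b) : w.D i * w.D j * w.L a b = w.L a b * (w.D j * w.D i) +
    (((if i = a then w.D b * w.D j else 0) - if i = b then w.D a * w.D j else 0) +
      ((if j = a then w.D i * w.D b else 0) - if j = b then w.D i * w.D a else 0)) := by
  rw [mul_assoc, DL, mul_add, ← mul_assoc, DL, w.DD j i]
  simp only [add_mul, sub_mul, mul_sub, ite_mul, mul_ite, zero_mul, mul_zero, mul_assoc, add_assoc]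

theorem Lap_L (a b) : Commute w.Lap (w.L a b) := by
  rw [Commute, SemiconjBy, Lap, sum_mul, mul_sum]
  simp only [DDL, sum_add_distrib, sum_sub_distrib, sum_ite_eq', mem_univ, if_true, w.DD b a,
    sub_self, add_zero]

theorem Lap_N (a b) : Commute w.Lap (w.N a b) :=
  Commute.sum_right _ _ _ fun β _ =>
    ((w.Lap_L _ _).mul_right ((w.Lap_D _).mul_right (w.Lap_D _))).sub_right
      ((w.Lap_L _ _).mul_right ((w.Lap_D _).mul_right (w.Lap_D _)))

theorem N_eq (a b) : ∑ β, (w.D β * w.D b * w.L a β - w.D β * w.D a * w.L b β) = w.N a b := by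
  simp only [N, DDL, sum_add_distrib, sum_sub_distrib, sum_ite_eq', sum_ite_eq, mem_univ, if_true,
    w.DD b a, eq_comm (a := b) (b := a)]
  abel

theorem N_apply (a b φ μ ν) : w.N a b φ μ ν =
    w.Lap (fun μ ν => w.x a * w.d b (φ μ ν) - w.x b * w.d a (φ μ ν)) μ ν +
      (w.u a b μ (∑ α, w.d α (φ α ν)) + w.u a b ν (∑ α, w.d α (φ μ α)) -
        (w.d μ (w.d b (φ a ν) - w.d a (φ b ν)) + w.d ν (w.d b (φ μ a) - w.d a (φ μ b)))) := by
  simp only [N, LinearMap.sum_apply, Finset.sum_apply, LinearMap.sub_apply, Pi.sub_apply,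
    Module.End.mul_apply, L_apply, D_apply, Lap_apply, u, map_sub, map_add, map_sum, w.mul, w.dx,
    sum_add_distrib, sum_sub_distrib, sum_ite_eq', sum_ite_eq, mem_univ, if_true, ite_mul, one_mul,
    zero_mul, apply_ite (w.d _), map_zero, sum_ite_irrel, sum_const_zero, w.cm]
  ring

theorem u_add (a b μ) (f g : A) : w.u a b μ (f + g) = w.u a b μ f + w.u a b μ g := by
  simp only [u, map_add, ite_add_zero]
  ring

theorem d_u (a b μ l) (f : A) : w.d l (w.u a b μ f) = w.u a b μ (w.d l f) := by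
  simp only [u, map_sub, apply_ite (w.d l), map_zero, w.cm l]

theorem dv_u (a b) (f : A) : ∑ l, w.d l (w.u a b l f) = 0 := by
  simp [u, apply_ite (w.d _), w.cm a b]

theorem u_sum (a b μ) (f : Fin 4 → A) : w.u a b μ (∑ l, f l) = ∑ l, w.u a b μ (f l) := by
  simp only [u, map_sum, sum_sub_distrib, sum_ite_irrel, sum_const_zero]

theorem u_zero (a b μ) : w.u a b μ 0 = 0 := by simp [u]

end Wl

/-- the vectors `V φ` of a conserved covariant symmetric tensor, and the projection on mass zero -/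
structure Lc (J : Ideal A) (V : Ten A →ₗ[ℝ] K) (P : K →L[ℂ] K) : Prop where
  st : ∀ i, ∀ f ∈ J, w.d i f ∈ J
  rp : ∀ φ, In J φ → ∀ y, Rp (fun k => inner ℂ y (V ((w.Lap ^ k) φ))) (inner ℂ y (P (V φ)))
  lap : ∀ φ, In J φ → P (V (w.Lap φ)) = 0
  pos : ∀ x, inner ℂ x (P x) = 0 → P x = 0
  div : ∀ φ, In J φ → P (V (w.D 0 φ)) = 0 → P (V φ) = 0
  sym : ∀ φ, In J φ → V (fun μ ν => φ ν μ) = V φ
  con : ∀ ζ : Fin 4 → A, (∀ ν, ζ ν ∈ J) → V (fun μ ν => w.d μ (ζ ν)) = 0
  ad : ∀ l φ ψ, In J φ → In J ψ →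
    inner ℂ (V (w.D l φ)) (V ψ) = sg l * inner ℂ (V φ) (V (w.D l ψ))
  al : ∀ a b φ ψ, In J φ → In J ψ →
    inner ℂ (V (w.L a b φ)) (V ψ) = -(sg a * sg b) * inner ℂ (V φ) (V (w.L a b ψ))

variable {w} {J : Ideal A} {V : Ten A →ₗ[ℝ] K} {P : K →L[ℂ] K} {φ ψ : Ten A}

theorem ite_mem {p : Prop} [Decidable p] {f : A} (h : f ∈ J) : (if p then f else 0) ∈ J := by
  split_ifs
  exacts [h, J.zero_mem]

theorem In.L (h : In J φ) (st : ∀ i, ∀ f ∈ J, w.d i f ∈ J) (a b) : In J (w.L a b φ) :=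
  fun μ ν => J.add_mem (J.sub_mem (J.mul_mem_left _ (st _ _ (h _ _)))
    (J.mul_mem_left _ (st _ _ (h _ _)))) (J.add_mem (J.sub_mem (ite_mem (h _ _)) (ite_mem (h _ _)))
      (J.sub_mem (ite_mem (h _ _)) (ite_mem (h _ _))))

theorem In.D (h : In J φ) (st : ∀ i, ∀ f ∈ J, w.d i f ∈ J) (l) : In J (w.D l φ) :=
  fun _ _ => st _ _ (h _ _)

theorem In.N (h : In J φ) (st : ∀ i, ∀ f ∈ J, w.d i f ∈ J) (a b) : In J (w.N a b φ) :=
  fun μ ν => by
    simp only [Wl.N, LinearMap.sum_apply, Finset.sum_apply]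
    exact J.sum_mem fun β _ => J.sub_mem ((((h.D st _).D st _).L st _ _) μ ν)
      ((((h.D st _).D st _).L st _ _) μ ν)

theorem In.Lap (h : In J φ) (st : ∀ i, ∀ f ∈ J, w.d i f ∈ J) (k : ℕ) : In J ((w.Lap ^ k) φ) := by
  induction k with
  | zero => exact h
  | succ k ih =>
    rw [pow_succ']
    intro μ ν
    rw [Module.End.mul_apply, w.Lap_apply]
    exact J.sum_mem fun l _ => st _ _ (st _ _ (ih _ _))

theorem u_mem (st : ∀ i, ∀ f ∈ J, w.d i f ∈ J) (a b μ) {f : A} (h : f ∈ J) : w.u a b μ f ∈ J :=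
  J.sub_mem (ite_mem (st _ _ h)) (ite_mem (st _ _ h))

namespace Lc
variable (h : Lc w J V P) (a b : Fin 4)
include h

theorem adN (hφ : In J φ) (hψ : In J ψ) :
    inner ℂ (V (w.N a b φ)) (V ψ) = -(sg a * sg b) * inner ℂ (V φ) (V (w.N a b ψ)) := by
  have k : ∀ a b β, inner ℂ (V (w.L a β (w.D b (w.D β φ)))) (V ψ) =
      -(sg a * sg b) * inner ℂ (V φ) (V (w.D β (w.D b (w.L a β ψ)))) := fun a b β => by
    rw [h.al _ _ _ _ ((hφ.D h.st _).D h.st _) hψ, h.ad _ _ _ (hφ.D h.st _) (hψ.L h.st _ _),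
      h.ad _ _ _ hφ ((hψ.L h.st _ _).D h.st _)]
    linear_combination -(sg a * sg b) * inner ℂ (V φ) (V (w.D β (w.D b (w.L a β ψ)))) * sg_sq β
  conv_rhs => rw [← w.N_eq]
  simp only [Wl.N, LinearMap.sum_apply, LinearMap.sub_apply, Module.End.mul_apply, map_sum, map_sub,
    sum_inner, inner_sum, inner_sub_left, inner_sub_right, k, mul_sum, mul_sub, mul_comm (sg b)]

theorem adP (hφ : In J φ) (hψ : In J ψ) :
    inner ℂ (V (w.N a b φ)) (P (V ψ)) = -(sg a * sg b) * inner ℂ (V φ) (P (V (w.N a b ψ))) := by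
  refine (h.rp ψ hψ _).uniq ?_
  convert (h.rp _ (hψ.N h.st a b) (V φ)).mul (-(sg a * sg b)) using 2 with k
  rw [h.adN a b hφ (hψ.Lap h.st k), ← Module.End.mul_apply, ← Module.End.mul_apply,
    ((w.Lap_N a b).pow_left k).eq]

theorem sq (hφ : In J φ) (e : P (V (w.N a b (w.N a b φ))) = 0) : P (V (w.N a b φ)) = 0 :=
  h.pos _ (by rw [h.adP a b hφ (hφ.N h.st a b), e, inner_zero_right, mul_zero])

theorem stab (hφ : In J φ) (hψ : In J ψ) (e : P (V φ) = P (V ψ)) :
    P (V (w.N a b φ)) = P (V (w.N a b ψ)) := by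
  have i : In J (φ - ψ) := fun μ ν => J.sub_mem (hφ μ ν) (hψ μ ν)
  rw [← sub_eq_zero, ← map_sub, ← map_sub] at e
  rw [← sub_eq_zero, ← map_sub, ← map_sub, ← map_sub]
  refine h.pos _ ?_
  have := h.adP a b (i.N h.st a b) i
  rw [e, inner_zero_right, eq_comm, mul_eq_zero] at this
  refine this.resolve_left fun z => ?_
  have : (1 : ℂ) = 0 := by
    linear_combination -(sg a * sg b) * z - sg b * sg b * sg_sq a - sg_sq b
  exact one_ne_zero this

theorem N_mod (hφ : In J φ) : P (V (w.N a b φ)) =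
    P (V fun μ ν => w.u a b μ (∑ α, w.d α (φ α ν + φ ν α))) := by
  have s := h.st
  have e1 := h.lap (fun μ ν => w.x a * w.d b (φ μ ν) - w.x b * w.d a (φ μ ν)) fun μ ν =>
    J.sub_mem (J.mul_mem_left _ (s _ _ (hφ _ _))) (J.mul_mem_left _ (s _ _ (hφ _ _)))
  have e2 := h.con (fun ν => w.d b (φ a ν) - w.d a (φ b ν)) fun ν =>
    J.sub_mem (s _ _ (hφ _ _)) (s _ _ (hφ _ _))
  have m3 := fun μ => J.sub_mem (s b _ (hφ μ a)) (s a _ (hφ μ b))
  have e3 := (h.sym _ fun μ ν => s μ _ (m3 ν)).trans (h.con _ m3)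
  have e4 := h.sym (fun μ ν => w.u a b μ (∑ α, w.d α (φ ν α))) fun μ ν =>
    u_mem s _ _ _ (J.sum_mem fun α _ => s _ _ (hφ _ _))
  have e : w.N a b φ = w.Lap (fun μ ν => w.x a * w.d b (φ μ ν) - w.x b * w.d a (φ μ ν)) +
      ((fun μ ν => w.u a b μ (∑ α, w.d α (φ α ν))) + (fun μ ν => w.u a b ν (∑ α, w.d α (φ μ α))) -
        ((fun μ ν => w.d μ (w.d b (φ a ν) - w.d a (φ b ν))) +
          fun μ ν => w.d ν (w.d b (φ μ a) - w.d a (φ μ b)))) := funext₂ (w.N_apply a b φ)
  rw [e, V.map_add, V.map_sub, V.map_add, V.map_add, e2, e3, e4, P.map_add, e1, ← V.map_add,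
    zero_add, add_zero, sub_zero]
  congr 2
  funext μ ν
  simp only [Pi.add_apply, map_add, sum_add_distrib, w.u_add]

theorem N_u {f : Fin 4 → A} (hf : ∀ ν, f ν ∈ J) : P (V (w.N a b fun μ ν => w.u a b μ (f ν))) =
    P (V fun μ ν => w.u a b μ (w.u a b ν (∑ α, w.d α (f α)))) := by
  rw [h.N_mod a b fun μ ν => u_mem h.st _ _ _ (hf ν)]
  simp only [map_add, sum_add_distrib, w.dv_u, zero_add]
  simp only [w.d_u, w.u_sum]

theorem N_zero (hφ : In J φ) : P (V (w.N a b φ)) = 0 := by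
  have s := h.st
  have m1 := fun ν => J.sum_mem (t := univ) fun α _ => s α _ (J.add_mem (hφ α ν) (hφ ν α))
  have m2 := fun ν => u_mem s a b ν (J.sum_mem (t := univ) fun α _ => s α _ (m1 α))
  have e1 := (h.stab a b (hφ.N s a b) (fun μ ν => u_mem s a b μ (m1 ν)) (h.N_mod a b hφ)).trans
    (h.N_u a b m1)
  have e2 := (h.stab a b ((hφ.N s a b).N s a b) (fun μ ν => u_mem s a b μ (m2 ν)) e1).trans
    (h.N_u a b m2)
  simp only [w.dv_u, w.u_zero] at e2
  exact h.sq a b hφ (h.sq a b (hφ.N s a b) (e2.trans (by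
    rw [show (fun _ _ => 0 : Ten A) = 0 from rfl, map_zero, map_zero])))

theorem u_null {f : Fin 4 → A} (hf : ∀ ν, f ν ∈ J) : P (V fun μ ν => w.u a b μ (f ν)) = 0 := by
  have s := h.st
  have k : ∀ {f : Fin 4 → A}, (∀ ν, f ν ∈ J) → P (V fun μ ν => w.u a b μ (w.d 0 (f ν))) +
      P (V fun μ ν => w.u a b μ (if ν = 0 then ∑ α, w.d α (f α) else 0)) = 0 := fun {f} hf => by
    have i : In J fun μ ν => if μ = 0 then f ν else 0 := fun μ ν => ite_mem (hf ν)
    rw [← h.N_zero a b i, h.N_mod a b i, ← map_add, ← map_add]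
    congr 2
    funext μ ν
    simp only [Pi.add_apply, map_add, sum_add_distrib, w.u_add, apply_ite (w.d _), map_zero,
      sum_ite_eq', mem_univ, if_true, sum_ite_irrel, sum_const_zero]
  have dv : ∀ {f : Fin 4 → A}, (∀ ν, f ν ∈ J) → P (V fun μ ν => w.u a b μ (w.d 0 (f ν))) = 0 →
      P (V fun μ ν => w.u a b μ (f ν)) = 0 := fun {f} hf e =>
    h.div _ (fun μ ν => u_mem s _ _ _ (hf ν)) (by
      rw [← e]
      congr 2
      funext μ ν
      exact w.d_u _ _ _ _ _)
  have m := fun ν : Fin 4 => ite_mem (p := ν = 0) (J.sum_mem (t := univ) fun α _ => s α _ (hf α))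
  have := k hf
  rw [dv m, add_zero] at this
  · exact dv hf this
  have := k m
  simp only [apply_ite (w.d _), map_zero, sum_ite_eq', mem_univ, if_true] at this ⊢
  rwa [← two_smul ℂ, smul_eq_zero, or_iff_right two_ne_zero] at this

theorem curl {c : Fin 4 → Ten A} (hc : ∀ l, In J (c l)) :
    P (V fun μ ν => ∑ l, w.d l (c l μ ν - c μ l ν)) = 0 := by
  have e : (fun μ ν => ∑ l, w.d l (c l μ ν - c μ l ν)) =
      ∑ a, ∑ b, fun μ ν => w.u a b μ (c b a ν) := by
    funext μ ν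
    simp only [Finset.sum_apply, Wl.u, map_sub, sum_sub_distrib, sum_ite_eq, mem_univ, if_true,
      sum_ite_irrel, sum_const_zero]
  simp only [e, map_sum, fun a b => h.u_null a b (hc b a), sum_const_zero]

end Lc

end Pool.Agent.Lib.MP_7f377f_mp.S3
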