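import Pool.Agent.Lib.MP_7f377f_mp.G.S3D

/-! The algebra of smooth functions, test functions, derivatives of smeared vectors. -/

noncomputable section

namespace Pool.Agent.Lib.MP_7f377f_mp.S3
variable [Pool.Agent.Lib.MP_7f377f_mp.GD]
set_option linter.unusedSectionVars false

open Filter Topology Set YM7 Pur Wm Matrix Metric
open scoped ContDiff Manifold

/-- smooth functions -/
def Sm : Subalgebra ℝ (R4 → ℝ) where
  carrier := {f | ContDiff ℝ ∞ f}
  mul_mem' {f g} (h : ContDiff ℝ ∞ f) (h' : ContDiff ℝ ∞ g) := h.mul h'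
  add_mem' {f g} (h : ContDiff ℝ ∞ f) (h' : ContDiff ℝ ∞ g) := h.add h'
  algebraMap_mem' c := (contDiff_const : ContDiff ℝ ∞ fun _ : R4 => c)

theorem sm (f : Sm) : ContDiff ℝ ∞ f.1 := f.2

theorem pd_eq {f : R4 → ℝ} (h : ContDiff ℝ ∞ f) (μ) : pd μ f = fun y => fderiv ℝ f y (ax μ 1) :=
  funext fun y => (h.differentiable (by simp) y).lineDeriv_eq_fderiv

theorem pd_sm {f : R4 → ℝ} (h : ContDiff ℝ ∞ f) (μ) : ContDiff ℝ ∞ (pd μ f) :=
  pd_eq h μ ▸ (h.fderiv_right (m := ∞) (by simp)).clm_apply contDiff_const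

theorem pd_has {f : R4 → ℝ} (h : ContDiff ℝ ∞ f) (μ y) :
    HasDerivAt (fun t : ℝ => f (y + t • ax μ 1)) (pd μ f y) 0 :=
  (h.differentiable (by simp) y).lineDifferentiableAt.hasLineDerivAt

/-- coordinates and derivatives -/
def wl : Wl Sm where
  d μ :=
    { toFun f := ⟨pd μ f, pd_sm f.2 μ⟩
      map_add' f g := Subtype.ext (funext fun y =>
        (pd_has (f + g).2 μ y).unique ((pd_has f.2 μ y).add (pd_has g.2 μ y)))
      map_smul' c f := Subtype.ext (funext fun y =>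
        (pd_has (c • f).2 μ y).unique ((pd_has f.2 μ y).const_smul c)) }
  x μ := ⟨fun y => y μ, (by fun_prop : ContDiff ℝ ∞ fun y : R4 => y μ)⟩
  mul μ f g := Subtype.ext (funext fun y => (pd_has (f * g).2 μ y).unique (by
    have := (pd_has f.2 μ y).mul (pd_has g.2 μ y)
    simp only [zero_smul, add_zero] at this
    exact this))
  cm i j f := Subtype.ext (funext fun y => by
    have k : ∀ i j, pd i (pd j f) y = fderiv ℝ (fderiv ℝ f.1) y (ax i 1) (ax j 1) := fun i j => by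
      rw [pd_eq (pd_sm f.2 j), pd_eq f.2]
      simp only
      rw [fderiv_clm_apply (((sm f).fderiv_right (m := ∞) (by simp)).differentiable
        (by simp) y) (differentiableAt_const _)]
      simp
    exact (k i j).trans (((sm f).contDiffAt.isSymmSndFDerivAt
      (by rw [minSmoothness_of_isRCLikeNormedField]; exact ENat.LEInfty.out) _ _).trans
      (k j i).symm))
  dx i j := Subtype.ext (funext fun y => by
    refine (pd_has (by fun_prop : ContDiff ℝ ∞ fun y : R4 => y j) i y).unique ?_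
    by_cases h : i = j
    · simpa [h] using (hasDerivAt_id (0 : ℝ)).const_add (y j)
    · simpa [h, Ne.symm h] using hasDerivAt_const (0 : ℝ) (y j))

theorem d_val (μ) (f : Sm) : (wl.d μ f).1 = pd μ f := rfl

/-- test functions -/
def Id (O : Set R4) : Ideal Sm where
  carrier := {f | Ds O f}
  add_mem' {f g} h h' := ⟨(f + g).2, h.2.1.add h'.2.1,
    (tsupport_add _ _).trans (union_subset h.2.2 h'.2.2)⟩
  zero_mem' := ⟨contDiff_const, HasCompactSupport.zero, by simp⟩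
  smul_mem' c f h := ⟨(c * f).2, h.2.1.mul_left, tsupport_mul_subset_right.trans h.2.2⟩

variable {O O' : Set R4} {f : Sm} {K : Type} [NormedAddCommGroup K] [InnerProductSpace ℂ K]

theorem Ds.mono {f : R4 → ℝ} (h : Ds O f) (e : O ⊆ O') : Ds O' f := ⟨h.1, h.2.1, h.2.2.trans e⟩

theorem Ds.pd {f : R4 → ℝ} (h : Ds O f) (μ) : Ds O (pd μ f) := ⟨pd_sm h.1 μ,
  pd_eq h.1 μ ▸ h.2.1.fderiv_apply ℝ _,
  pd_eq h.1 μ ▸ (tsupport_fderiv_apply_subset ℝ _).trans h.2.2⟩

theorem Id.st (O : Set R4) (i) : ∀ f ∈ Id O, wl.d i f ∈ Id O := fun _ h => Ds.pd h i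

theorem Ds.of {f : R4 → ℝ} (h : ContDiff ℝ ∞ f) {A : Set R4} (hA : IsCompact A)
    (e : ∀ y ∉ A, f y = 0) : Ds A f :=
  ⟨h, .intro hA e, closure_minimal (fun y hy => by_contra fun h => hy (e y h)) hA.isClosed⟩

theorem Ds.comp {f : R4 → ℝ} (h : Ds O f) {H G : R4 → R4} (hH : ContDiff ℝ ∞ H) (hG : Continuous G)
    (e : ∀ y, G (H y) = y) (m : ∀ z ∈ O, G z ∈ O') : Ds O' fun y => f (H y) :=
  (Ds.of (h.1.comp hH) (h.2.1.isCompact.image hG) fun y hy => by_contra fun h' =>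
    hy ⟨_, subset_tsupport f h', e y⟩).mono (by rintro _ ⟨z, hz, rfl⟩; exact m z (h.2.2 hz))

/-- composition -/
def cmp {H : R4 → R4} (hH : ContDiff ℝ ∞ H) : Sm →ₗ[ℝ] Sm where
  toFun f := ⟨fun y => f.1 (H y), (sm f).comp hH⟩
  map_add' _ _ := rfl
  map_smul' _ _ := rfl

theorem ext_lin {X : Type} [AddCommGroup X] [Module ℝ X] {V : (R4 → ℝ) → X}
    (h : ∀ f g (t : ℝ), Ds O f → Ds O g → V (f + t • g) = V f + t • V g) :
    ∃ V' : Sm →ₗ[ℝ] X, ∀ f ∈ Id O, V' f = V f := by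
  have z : V 0 = 0 := by simpa using h 0 0 1 (Id O).zero_mem (Id O).zero_mem
  obtain ⟨V', e⟩ := LinearMap.exists_extend (p := (Id O).restrictScalars ℝ)
    { toFun f := V f.1
      map_add' f g := by simpa using h _ _ 1 f.2 g.2
      map_smul' c f := by simpa [z] using h 0 _ c (Id O).zero_mem f.2 }
  exact ⟨V', fun f hf => LinearMap.congr_fun e ⟨f, hf⟩⟩

/-- bounds in the supremum norm -/
def Bd (O : Set R4) (V : Sm →ₗ[ℝ] K) : Prop := ∀ A, IsCompact A → A ⊆ O → ∃ C : ℝ,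
  ∀ f ∈ Id A, ∀ a : ℝ, (∀ y, |f.1 y| ≤ a) → ‖V f‖ ≤ C * a

theorem Bd.der {V : Sm →ₗ[ℝ] K} (bd : Bd O V) {F : ℝ → Sm} {F' : Sm}
    (hF : ContDiff ℝ 1 fun p : ℝ × R4 => (F p.1).1 p.2)
    (hd : ∀ y, HasDerivAt (fun t => (F t).1 y) (F'.1 y) 0) {A : Set R4} (hA : IsCompact A)
    (AO : A ⊆ O) (hs : ∀ᶠ t in 𝓝 0, F t ∈ Id A) : HasDerivAt (fun t => V (F t)) (V F') 0 := by
  obtain ⟨C, hC⟩ := bd A hA AO
  let G : ℝ × R4 → ℝ := fun p => fderiv ℝ (fun p : ℝ × R4 => (F p.1).1 p.2) p (1, 0)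
  have g1 : Continuous G := (hF.continuous_fderiv one_ne_zero).clm_apply continuous_const
  have g2 : ∀ t y, HasDerivAt (fun t => (F t).1 y) (G (t, y)) t := fun t y =>
    HasFDerivAt.comp_hasDerivAt (f := fun t => (t, y)) t
      (hF.differentiable one_ne_zero (t, y)).hasFDerivAt
      ((hasDerivAt_id t).prodMk (hasDerivAt_const t y))
  have z : ∀ {t}, F t ∈ Id A → ∀ y ∉ A, (F t).1 y = 0 := fun h y hy =>
    image_eq_zero_of_notMem_tsupport fun e => hy (h.2.2 e)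
  have z' : ∀ y ∉ A, F'.1 y = 0 := fun y hy => (hd y).unique
    ((hasDerivAt_const _ _).congr_of_eventuallyEq (hs.mono fun t h => z h y hy))
  refine hasDerivAt_iff_isLittleO_nhds_zero.2 (Asymptotics.isLittleO_iff.2 fun ε ε0 => ?_)
  have e0 : 0 < ε / (|C| + 1) := by positivity
  have k := hA.eventually_forall_of_forall_eventually (x₀ := (0 : ℝ))
    (P := fun t y => |G (t, y) - G (0, y)| < ε / (|C| + 1)) fun y _ =>
      (by fun_prop : ContinuousAt (fun z : ℝ × R4 => |G (z.1, z.2) - G (0, z.2)|)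
        (0, y)).eventually_lt continuousAt_const (by simpa using e0)
  obtain ⟨δ, δ0, hδ⟩ := Metric.eventually_nhds_iff_ball.1 (hs.and k)
  filter_upwards [ball_mem_nhds 0 δ0] with t ht
  rw [zero_add, ← map_smul, ← map_sub, ← map_sub]
  refine (hC _ ((Id A).sub_mem ((Id A).sub_mem (hδ t ht).1 hs.self_of_nhds)
    ((Id A).smul_of_tower_mem t (Ds.of F'.2 hA z'))) (ε / (|C| + 1) * ‖t‖) fun y => ?_).trans ?_
  · change |(F t).1 y - (F 0).1 y - t * F'.1 y| ≤ _
    by_cases hy : y ∈ A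
    · have := (convex_ball (0 : ℝ) δ).norm_image_sub_le_of_norm_hasDerivWithin_le
        (f := fun s => (F s).1 y - s * G (0, y)) (fun s _ => ((g2 s y).sub
          ((hasDerivAt_id s).mul_const _)).hasDerivWithinAt) (C := ε / (|C| + 1))
        (fun s hs => by simpa using ((hδ s hs).2 y hy).le) (mem_ball_self δ0) ht
      rw [(hd y).unique (g2 0 y)]
      simpa [sub_right_comm] using this
    · simp only [z (hδ t ht).1 y hy, z hs.self_of_nhds y hy, z' y hy, sub_zero, mul_zero, abs_zero]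
      positivity
  · rw [← mul_assoc]
    gcongr
    rw [← mul_div_assoc, div_le_iff₀ (by positivity)]
    nlinarith [le_abs_self C]

theorem flow (hO : IsOpen O) (hf : f ∈ Id O) {H G : ℝ → R4 → R4}
    (hH : ∀ t, ContDiff ℝ ∞ (H t)) (hG : Continuous fun p : ℝ × R4 => G p.1 p.2)
    (G0 : ∀ z, G 0 z = z) (e : ∀ t y, G t (H t y) = y) :
    ∃ A, IsCompact A ∧ A ⊆ O ∧ ∀ᶠ t in 𝓝 0, cmp (hH t) f ∈ Id A := by
  obtain ⟨A, a1, a2, a3⟩ := exists_compact_between hf.2.1.isCompact hO hf.2.2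
  refine ⟨A, a1, a3, (hf.2.1.isCompact.eventually_forall_of_forall_eventually (x₀ := (0 : ℝ))
    (P := fun t z => G t z ∈ A) fun z hz => hG.continuousAt.eventually_mem ?_).mono fun t ht =>
      Ds.comp ⟨hf.1, hf.2.1, subset_rfl⟩ (hH t) (hG.comp (Continuous.prodMk_right t)) (e t) ht⟩
  exact mem_interior_iff_mem_nhds.1 (a2 ((G0 z).symm ▸ hz))

theorem part {ι : Type} [Fintype ι] {C : Set R4} (hC : IsClosed C) {U : ι → Set R4}
    (hU : ∀ i, IsOpen (U i)) (h : C ⊆ ⋃ i, U i) : ∃ ρ : ι → Sm,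
      (∀ i, ∀ f ∈ Id C, ρ i * f ∈ Id (U i)) ∧ ∀ f ∈ Id C, ∑ i, ρ i * f = f := by
  obtain ⟨ρ, hρ⟩ := SmoothPartitionOfUnity.exists_isSubordinate 𝓘(ℝ, R4) hC U hU h
  refine ⟨fun i => ⟨ρ i, (ρ i).contMDiff.contDiff⟩, fun i f hf => ⟨(_ * f).2, hf.2.1.mul_left,
    tsupport_mul_subset_left.trans (hρ i)⟩, fun f hf => Subtype.ext (funext fun y => ?_)⟩
  rw [← Finset.sum_mul]
  change (∑ i, _ : Sm).1 y * _ = _
  by_cases hy : y ∈ C
  · rw [AddSubmonoidClass.coe_finset_sum, Finset.sum_apply, ← finsum_eq_sum_of_fintype,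
      ρ.sum_eq_one hy, one_mul]
  · rw [image_eq_zero_of_notMem_tsupport fun e => hy (hf.2.2 e), mul_zero]

theorem chart_sm (σ ε r) : ContDiff ℝ ∞ (chart σ ε r) := by
  unfold chart
  fun_prop

theorem ch_of {σ : Equiv.Perm (Fin 4)} {ε : Fin 4 → ℝ} (h : ∀ l, ε l * ε l = 1) (r : ℝ) :
    Ch wl (Id (Hs 0 0)) (Id {y | r < ε 0 * y (σ 0)}) (cmp (chart_sm σ ε r)) σ ε := by
  refine ⟨Id.st _, fun f hf => Ds.comp hf (chart_sm σ ε r)
    (G := fun z => WithLp.toLp 2 (fun l => ε l * z (σ l)) - ax 0 r) (by fun_prop) (fun y => ?_)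
    fun z hz => ?_, h, fun l f => Subtype.ext (funext fun y => ?_)⟩
  · ext l
    simp [chart, ← mul_assoc, h]
  · simpa [Hs] using hz
  refine (pd_has (cmp (chart_sm σ ε r) f).2 l y).unique ?_
  have := (pd_has f.2 (σ l) (chart σ ε r y)).comp_of_eq 0 ((hasDerivAt_id 0).const_mul (ε l))
    (by simp)
  rw [mul_one, mul_comm] at this
  refine this.congr_of_eventuallyEq (.of_forall fun t => congrArg f.1 ?_)
  ext j
  obtain ⟨j, rfl⟩ := σ.surjective j
  by_cases e : j = l <;> simp [chart, e]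
  ring

end Pool.Agent.Lib.MP_7f377f_mp.S3
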