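import Pool.Agent.Lib.MP_7f377f_mp.G.S3B

/-! The vectors of a conserved tensor field: translations and the spectral representation. -/

noncomputable section

namespace Pool.Agent.Lib.MP_7f377f_mp.S3
variable [Pool.Agent.Lib.MP_7f377f_mp.GD]
set_option linter.unusedSectionVars false

open Filter Topology Set YM7 Pur Wm Matrix Metric MeasureTheory Wm.A4
open Complex (I)
open scoped ContDiff

/-- contraction with a test tensor -/
def tot {X : Type} [AddCommGroup X] [Module ℝ X] (V : Fin 4 → Fin 4 → Sm →ₗ[ℝ] X) :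
    Ten Sm →ₗ[ℝ] X where
  toFun φ := ∑ μ, ∑ ν, V μ ν (φ μ ν)
  map_add' _ _ := by simp [Finset.sum_add_distrib]
  map_smul' _ _ := by simp [Finset.smul_sum]

theorem tot_apply {X : Type} [AddCommGroup X] [Module ℝ X] (V : Fin 4 → Fin 4 → Sm →ₗ[ℝ] X) (φ) :
    tot V φ = ∑ μ, ∑ ν, V μ ν (φ μ ν) := rfl

theorem sub_sm (u : R4) : ContDiff ℝ ∞ fun y : R4 => y - u := by fun_prop

/-- translation of test tensors -/
def sh (u : R4) : Module.End ℝ (Ten Sm) where
  toFun φ μ ν := cmp (sub_sm u) (φ μ ν)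
  map_add' _ _ := rfl
  map_smul' _ _ := rfl

theorem sh_D (l u) : Commute (wl.D l) (sh u) := LinearMap.ext fun φ => funext₂ fun μ ν =>
  Subtype.ext (funext fun y => congrArg (deriv · 0) (funext fun t =>
    congrArg (φ μ ν).1 (add_sub_right_comm _ _ _)))

theorem sh_Lap (u k) : Commute (wl.Lap ^ k) (sh u) :=
  (Commute.sum_left _ _ _ fun l _ => (sh_D l u).mul_left (sh_D l u)).pow_left k

theorem sh_sh (u v φ) : sh u (sh v φ) = sh (u + v) φ := funext₂ fun μ ν =>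
  Subtype.ext (funext fun y => congrArg (φ μ ν).1 (sub_sub _ _ _))

theorem sh_zero (φ) : sh 0 φ = φ := funext₂ fun μ ν =>
  Subtype.ext (funext fun y => congrArg (φ μ ν).1 (sub_zero _))

theorem hs_open : IsOpen (Hs 0 0) := isOpen_lt continuous_const (by fun_prop)

/-- the symbol of a derivative -/
def sb (l : Fin 4) (p : R4) : ℂ := if l = 0 then p 0 else I * p l

theorem sb_sq (p : R4) : ∑ l, sb l p * sb l p = mink p p := by
  simp only [Fin.sum_univ_four, sb, mink, Fin.reduceEq, if_true, if_false]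
  push_cast
  linear_combination (p 1 ^ 2 + p 2 ^ 2 + p 3 ^ 2 : ℂ) * Complex.I_mul_I

theorem sb_le (l) {p : R4} (h : 0 ≤ p 0 ∧ 0 ≤ mink p p) : ‖sb l p‖ ≤ p 0 := by
  have := h.2
  unfold mink at this
  fin_cases l <;> simp [sb, abs_of_nonneg h.1] <;> refine abs_le_of_sq_le_sq' ?_ h.1 |> abs_le.2 <;>
    nlinarith [mul_self_nonneg (p 1), mul_self_nonneg (p 2), mul_self_nonneg (p 3)]

theorem sy_norm (u p : R4) : ‖sy (euc u) p‖ = Real.exp (-(u 0 * p 0)) := by
  simp [sy, euc, Complex.norm_exp]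

theorem sy_line (u p : R4) (l) (t : ℝ) :
    sy (euc (u + t • ax l 1)) p = sy (euc u) p * Complex.exp (-sb l p * t) := by
  rw [sy, sy, ← Complex.exp_add]
  congr 1
  fin_cases l <;> simp [sb, euc]
  · linear_combination (t * p 0 : ℂ) * Complex.I_mul_I
  all_goals ring

/-- weights of subexponential growth -/
def Sub (μ : Measure R4) (w : R4 → ℂ) : Prop := AEStronglyMeasurable w μ ∧
  ∀ ε > (0 : ℝ), Integrable (fun p => Real.exp (-(ε * p 0)) * ‖w p‖) μ

variable {μ : Measure R4} {w : R4 → ℂ} (hμ : ∀ᵐ p ∂μ, 0 ≤ p 0 ∧ 0 ≤ mink p p)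

theorem sb_cont (l) : Continuous (sb l) := by
  unfold sb
  split_ifs <;> fun_prop

include hμ in
theorem Sub.mul (h : Sub μ w) (l) : Sub μ fun p => sb l p * w p := by
  have m := (sb_cont l).aestronglyMeasurable.mul h.1
  refine ⟨m, fun ε ε0 => ((h.2 (ε / 2) (half_pos ε0)).const_mul (2 / ε)).mono'
    ((Continuous.aestronglyMeasurable (by fun_prop)).mul m.norm) (hμ.mono fun p hp => ?_)⟩
  rw [Real.norm_of_nonneg (by positivity), norm_mul, ← mul_assoc, ← mul_assoc]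
  refine mul_le_mul_of_nonneg_right ?_ (norm_nonneg _)
  have : p 0 ≤ 2 / ε * Real.exp (ε / 2 * p 0) := by
    rw [div_mul_eq_mul_div, le_div_iff₀ ε0]
    linarith [Real.add_one_le_exp (ε / 2 * p 0)]
  refine (mul_le_mul_of_nonneg_left ((sb_le l hp).trans this) (Real.exp_pos _).le).trans_eq ?_
  rw [mul_left_comm, ← Real.exp_add]
  ring_nf

theorem Sub.int (h : Sub μ w) {u : R4} (hu : 0 < u 0) : Integrable (fun p => w p * sy (euc u) p) μ :=
  (h.2 _ hu).mono' (h.1.mul (sy_cont _).aestronglyMeasurable) (.of_forall fun p => by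
    rw [norm_mul, sy_norm, mul_comm])

include hμ in
theorem Sub.der (h : Sub μ w) (l) {u : R4} (hu : 0 < u 0) :
    HasDerivAt (fun t : ℝ => ∫ p, w p * sy (euc (u + t • ax l 1)) p ∂μ)
      (-∫ p, sb l p * w p * sy (euc u) p ∂μ) 0 := by
  have := (hasDerivAt_integral_of_dominated_loc_of_deriv_le (μ := μ)
    (F := fun (t : ℝ) p => w p * sy (euc (u + t • ax l 1)) p)
    (F' := fun (t : ℝ) p => -(sb l p * w p * sy (euc (u + t • ax l 1)) p))
    (ball_mem_nhds 0 (half_pos hu)) (.of_forall fun t => h.1.mul (sy_cont _).aestronglyMeasurable)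
    (by simpa using h.int hu) ((h.mul hμ l).1.mul (sy_cont _).aestronglyMeasurable).neg
    (hμ.mono fun p hp t ht => ?_) ((h.mul hμ l).2 _ (half_pos hu)) (.of_forall fun p t _ => ?_)).2
  · simpa only [zero_smul, add_zero, integral_neg] using this
  · rw [norm_neg, norm_mul, sy_norm, mul_comm]
    gcongr
    · exact hp.1
    have := abs_lt.1 (mem_ball_zero_iff.1 ht)
    by_cases e : l = 0
    · simp [e]
      linarith
    · simp [Ne.symm e]
      linarith
  · simp only [sy_line]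
    refine (((((hasDerivAt_id t).ofReal_comp.const_mul (-sb l p)).cexp).const_mul _).const_mul
      _).congr_deriv ?_
    simp
    ring

variable {K : Type} [NormedAddCommGroup K] [InnerProductSpace ℂ K] [CompleteSpace K]
  {U : R4 → K →L[ℂ] K} {V : Fin 4 → Fin 4 → (R4 → ℝ) → K} {V' : Fin 4 → Fin 4 → Sm →ₗ[ℝ] K}
  {φ ψ : Ten Sm}

theorem In.sh (hφ : In (Id (Hs 0 0)) φ) {u : R4} (hu : 0 ≤ u 0) : In (Id (Hs 0 0)) (sh u φ) :=
  fun μ ν => Ds.comp (hφ μ ν) (sub_sm u) (G := fun z => z + u) (by fun_prop) (by simp)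
    fun z (hz : 0 < z 0) => add_pos_of_pos_of_nonneg hz hu

namespace Vc
variable (h : Vc U V) (e : ∀ μ ν, ∀ f ∈ Id (Hs 0 0), V' μ ν f = V μ ν f)
include h e

theorem bd' (μ ν) : Bd (Hs 0 0) (V' μ ν) := fun A hA AO =>
  (h.bd μ ν A hA AO).imp fun _ hC f hf a ha => e μ ν f (Ds.mono hf AO) ▸ hC _ a hf ha

theorem tr' (hφ : In (Id (Hs 0 0)) φ) {u : R4} (hu : 0 ≤ u 0) :
    U u (tot V' φ) = tot V' (sh u φ) := by
  simp only [tot_apply, map_sum, e _ _ _ (hφ _ _), e _ _ _ (hφ.sh hu _ _), h.tr _ _ _ _ (hφ _ _) hu]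
  rfl

theorem dsh (hφ : In (Id (Hs 0 0)) φ) (l) :
    HasDerivAt (fun t : ℝ => tot V' (sh (t • ax l 1) φ)) (-tot V' (wl.D l φ)) 0 ∧
      ∀ᶠ t : ℝ in 𝓝 0, In (Id (Hs 0 0)) (sh (t • ax l 1) φ) := by
  choose A a1 a2 a3 using fun μ ν => flow hs_open (hφ μ ν) (fun t : ℝ => sub_sm (t • ax l 1))
    (G := fun t z => z + t • ax l 1) (by fun_prop) (by simp) (by simp)
  refine ⟨?_, eventually_all.2 fun μ => eventually_all.2 fun ν => (a3 μ ν).mono fun t ht =>
    Ds.mono ht (a2 μ ν)⟩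
  rw [← map_neg]
  simp only [tot_apply]
  refine HasDerivAt.fun_sum fun μ _ => HasDerivAt.fun_sum fun ν _ => (h.bd' e μ ν).der
    (((sm (φ μ ν)).of_le (by simp)).comp (f := fun p : ℝ × R4 => p.2 - p.1 • ax l 1) (by fun_prop))
    (fun y => ?_) (a1 μ ν) (a2 μ ν) (a3 μ ν)
  have := (pd_has (φ μ ν).2 l y).comp_of_eq 0 (hasDerivAt_neg 0) neg_zero.symm
  rw [mul_neg_one] at this
  exact this.congr_of_eventuallyEq (.of_forall fun t => congrArg (φ μ ν).1 (by
    simp [sub_eq_add_neg]))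

theorem dU (hφ : In (Id (Hs 0 0)) φ) (l) {u : R4} (hu : 0 ≤ u 0) :
    HasDerivAt (fun t : ℝ => tot V' (sh (u + t • ax l 1) φ)) (-U u (tot V' (wl.D l φ))) 0 := by
  have := (h.dsh e (hφ.sh hu) l).1
  rw [← Module.End.mul_apply, (sh_D l u).eq, Module.End.mul_apply,
    ← h.tr' e (hφ.D (Id.st _) l) hu] at this
  simpa only [sh_sh, add_comm u] using this

include hμ in
theorem step (hφ : In (Id (Hs 0 0)) φ) {y : K} (hw : Sub μ w)
    (H : ∀ u : R4, 0 < u 0 → inner ℂ y (U u (tot V' φ)) = ∫ p, w p * sy (euc u) p ∂μ) (l) :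
    ∀ u : R4, 0 < u 0 → inner ℂ y (U u (tot V' (wl.D l φ))) =
      ∫ p, sb l p * w p * sy (euc u) p ∂μ := fun u hu => by
  have := (hasDerivAt_const 0 y).inner ℂ (h.dU e hφ l hu.le)
  rw [inner_zero_left, add_zero, inner_neg_right] at this
  refine neg_injective (this.unique ((hw.der hμ l hu).congr_of_eventuallyEq ?_))
  filter_upwards [(by fun_prop : ContinuousAt (fun t : ℝ => (u + t • ax l 1) 0) 0).eventually
    (lt_mem_nhds (a := 0) (by simpa using hu))] with t ht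
  rw [← h.tr' e hφ ht.le, H _ ht]

include hμ in
theorem steps (hφ : In (Id (Hs 0 0)) φ) {y : K} (hw : Sub μ w)
    (H : ∀ u : R4, 0 < u 0 → inner ℂ y (U u (tot V' φ)) = ∫ p, w p * sy (euc u) p ∂μ) (k : ℕ) :
    Sub μ (fun p => (mink p p : ℂ) ^ k * w p) ∧ ∀ u : R4, 0 < u 0 →
      inner ℂ y (U u (tot V' ((wl.Lap ^ k) φ))) =
        ∫ p, (mink p p : ℂ) ^ k * w p * sy (euc u) p ∂μ := by
  induction k with
  | zero => simpa using ⟨hw, H⟩
  | succ k ih =>
    have m := hφ.Lap (Id.st _) k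
    have s := fun l => (ih.1.mul hμ l).mul hμ l
    have q : ∀ p, (mink p p : ℂ) ^ (k + 1) * w p =
        ∑ l, sb l p * (sb l p * ((mink p p : ℂ) ^ k * w p)) := fun p => by
      simp only [← mul_assoc (sb _ p), ← Finset.sum_mul, sb_sq, pow_succ']
    simp only [q]
    refine ⟨⟨Finset.aestronglyMeasurable_fun_sum _ fun l _ => (s l).1, fun ε ε0 =>
      (integrable_finset_sum _ fun l (_ : l ∈ Finset.univ) => (s l).2 ε ε0).mono'
        ((Continuous.aestronglyMeasurable (by fun_prop)).mul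
          (Finset.aestronglyMeasurable_fun_sum _ fun l _ => (s l).1).norm)
        (.of_forall fun p => ?_)⟩, fun u hu => ?_⟩
    · rw [Real.norm_of_nonneg (by positivity), ← Finset.mul_sum]
      gcongr
      exact norm_sum_le _ _
    · rw [pow_succ', Module.End.mul_apply, Wl.Lap]
      simp only [LinearMap.sum_apply, map_sum, inner_sum, Module.End.mul_apply, Finset.sum_mul]
      rw [integral_finset_sum _ fun l _ => (s l).int hu]
      exact Finset.sum_congr rfl fun l _ => h.step hμ e (m.D (Id.st _) l) (ih.1.mul hμ l)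
        (h.step hμ e m ih.1 ih.2 l) l u hu

theorem back (hφ : In (Id (Hs 0 0)) φ) : ∃ u : R4, ∃ ψ, 0 < u 0 ∧ In (Id (Hs 0 0)) ψ ∧
    ∀ k, tot V' ((wl.Lap ^ k) φ) = U u (tot V' ((wl.Lap ^ k) ψ)) := by
  obtain ⟨t, t0, ht⟩ := ((eventually_mem_nhdsWithin (s := Iio (0 : ℝ))).and
    ((h.dsh e hφ 0).2.filter_mono nhdsWithin_le_nhds)).exists
  have p : 0 < (-(t • ax 0 1) : R4) 0 := by simpa using t0
  refine ⟨_, _, p, ht, fun k => ?_⟩
  rw [h.tr' e (ht.Lap (Id.st _) k) p.le, ← Module.End.mul_apply, ← (sh_Lap _ k).eq,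
    Module.End.mul_apply, sh_sh, neg_add_cancel, sh_zero]

theorem ad' (l) (hφ : In (Id (Hs 0 0)) φ) (hψ : In (Id (Hs 0 0)) ψ) :
    inner ℂ (tot V' (wl.D l φ)) (tot V' ψ) = S3.sg l * inner ℂ (tot V' φ) (tot V' (wl.D l ψ)) := by
  have d1 := ((h.dsh e hφ l).1.inner ℂ (hasDerivAt_const 0 (tot V' ψ))).hasDerivWithinAt
    (s := Ici 0)
  have d2 := ((hasDerivAt_const 0 (tot V' φ)).inner ℂ ((h.dsh e hψ l).1.scomp_of_eq 0
    ((hasDerivAt_id 0).const_mul (-sr 0 l)) (by simp))).hasDerivWithinAt (s := Ici 0)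
  have := (uniqueDiffOn_Ici 0 0 self_mem_Ici).eq_deriv _ d1 (d2.congr (fun t (ht : 0 ≤ t) => ?_) ?_)
  · by_cases l0 : l = 0 <;> simpa [S3.sg, sr, l0, neg_eq_iff_eq_neg] using this
  · have p : 0 ≤ (t • ax l 1 : R4) 0 := by by_cases l0 : 0 = l <;> simp [l0, ht]
    have q : -rf 0 (t • ax l 1) = (-sr 0 l * t) • ax l 1 := by
      ext j
      by_cases l0 : l = 0 <;> by_cases j0 : j = 0 <;> simp [rf, sr, l0, j0, Ne.symm, Pi.single_apply]
    rw [← h.tr' e hφ p, h.sg.adj _ p, h.tr' e hψ (by simpa using p), q]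
    rfl
  · simp [sh_zero]

end Vc

end Pool.Agent.Lib.MP_7f377f_mp.S3
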