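import Pool.Agent.Lib.MP_7f377f_mp.G.S3C

/-! The vectors of a conserved tensor field: rotations, the massless part, the flux. -/

noncomputable section

namespace Pool.Agent.Lib.MP_7f377f_mp.S3
variable [Pool.Agent.Lib.MP_7f377f_mp.GD]
set_option linter.unusedSectionVars false

open Filter Topology Set YM7 Pur Wm Matrix Metric MeasureTheory Wm.A4
open scoped ContDiff

/-- generators of the rotations -/
def Eg (a b : Fin 4) : Mat := single a b 1 - single b a 1

theorem Eg_apply (a b i j) :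
    Eg a b i j = (if i = a then if j = b then 1 else 0 else 0) -
      if i = b then if j = a then 1 else 0 else 0 := by
  simp only [Eg, Matrix.sub_apply, single_apply, ite_and, eq_comm (a := i), eq_comm (a := j)]

theorem Eg_tr (a b) : (Eg a b)ᵀ = -Eg a b := by simp [Eg]

theorem Eg_cube (a b) : Eg a b * Eg a b * Eg a b = -Eg a b := by
  by_cases h : a = b
  · simp [Eg, h]
  · simp [Eg, mul_sub, sub_mul, single_mul_single_of_ne _ _ _ _ h,
      single_mul_single_of_ne _ _ _ _ (Ne.symm h), neg_add_eq_sub]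

/-- rotations -/
def Qr (a b : Fin 4) (t : ℝ) : Mat :=
  1 + Real.sin t • Eg a b + (1 - Real.cos t) • (Eg a b * Eg a b)

theorem Qr_orth (a b t) : (Qr a b t)ᵀ * Qr a b t = 1 := by
  have h3 := Eg_cube a b
  have h4 : Eg a b * Eg a b * (Eg a b * Eg a b) = -(Eg a b * Eg a b) := by
    rw [← mul_assoc, h3, neg_mul]
  simp only [Qr, transpose_add, transpose_smul, transpose_mul, transpose_one, Eg_tr, neg_neg,
    add_mul, mul_add, smul_mul_assoc, mul_smul_comm, one_mul, mul_one, neg_mul, h4, h3, mul_neg,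
    (mul_assoc _ _ _).symm.trans h3]
  match_scalars
  · ring
  · ring
  · linear_combination (-1 : ℝ) * Real.sin_sq_add_cos_sq t

theorem so_sq {Q : Mat} (h : Qᵀ * Q = 1) : SO (Q * Q) :=
  ⟨by rw [transpose_mul, mul_assoc, ← mul_assoc Qᵀ Q, h, one_mul, h], by
    simpa using congrArg det h⟩

/-- curves of orthogonal matrices -/
structure Cv (M : ℝ → Mat) (E : Mat) : Prop where
  sm : ∀ i j, ContDiff ℝ ∞ fun t => M t i j
  zero : M 0 = 1
  orth : ∀ t, M t * (M t)ᵀ = 1
  der : ∀ i j, HasDerivAt (fun t => M t i j) (E i j) 0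

theorem cv_Qr (a b) : Cv (fun t => Qr a b t * Qr a b t) ((2 : ℝ) • Eg a b) := by
  have z : Qr a b 0 = 1 := by simp [Qr]
  have d : ∀ i j, HasDerivAt (fun t => Qr a b t i j) (Eg a b i j) 0 := fun i j =>
    ((((Real.hasDerivAt_sin 0).mul_const (Eg a b i j)).const_add ((1 : Mat) i j)).add
      (((Real.hasDerivAt_cos 0).const_sub 1).mul_const ((Eg a b * Eg a b) i j))).congr_deriv
        (by simp)
  refine ⟨fun i j => ?_, by simp [z], fun t => (so_sq (Qr_orth a b t)).mul_transpose, fun i j => ?_⟩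
  · simp only [Matrix.mul_apply, Qr, Matrix.add_apply, Matrix.smul_apply, smul_eq_mul]
    fun_prop
  · simp only [mul_apply]
    refine (HasDerivAt.fun_sum fun k _ => (d i k).mul (d k j)).congr_deriv ?_
    simp [z, one_apply, Finset.sum_add_distrib, two_mul]

theorem sr_sq (l μ) : sr l μ * sr l μ = 1 := by unfold sr; split_ifs <;> simp

theorem Cv.conj {M : ℝ → Mat} {E : Mat} (h : Cv M E) :
    Cv (fun t => of fun i j => sr 0 i * sr 0 j * M t i j) (of fun i j => sr 0 i * sr 0 j * E i j) := by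
  refine ⟨fun i j => contDiff_const.mul (h.sm i j), ?_, fun t => ?_,
    fun i j => (h.der i j).const_mul _⟩ <;> ext i j
  · by_cases e : i = j <;> simp [h.zero, e, sr_sq, one_apply]
  · have := congrFun₂ (h.orth t) i j
    simp only [mul_apply, transpose_apply, of_apply] at this ⊢
    rw [show (1 : Mat) i j = sr 0 i * sr 0 j * (1 : Mat) i j by
      by_cases e : i = j <;> simp [e, sr_sq], ← this, Finset.mul_sum]
    exact Finset.sum_congr rfl fun k _ => by
      linear_combination sr 0 i * sr 0 j * M t i k * M t j k * sr_sq 0 k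

theorem act_sm (R : Mat) : ContDiff ℝ ∞ (act R) := (toLpLin 2 2 R).toContinuousLinearMap.contDiff

variable {K : Type} [NormedAddCommGroup K] [InnerProductSpace ℂ K] [CompleteSpace K]
  {U : R4 → K →L[ℂ] K} {V : Fin 4 → Fin 4 → (R4 → ℝ) → K} {V' : Fin 4 → Fin 4 → Sm →ₗ[ℝ] K}
  {φ ψ : Ten Sm}

namespace Vc
variable (h : Vc U V) (e : ∀ μ ν, ∀ f ∈ Id (Hs 0 0), V' μ ν f = V μ ν f)
include h e

theorem drot (hφ : In (Id (Hs 0 0)) φ) {M : ℝ → Mat} {a b : Fin 4} {c : ℝ} (hM : Cv M (c • Eg a b)) :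
    HasDerivAt (fun t => ∑ α, ∑ β, ∑ μ, ∑ ν, (M t μ α * M t ν β) •
      V' μ ν (cmp (act_sm (M t)ᵀ) (φ α β))) (c • tot V' (wl.L a b φ)) 0 ∧
      ∀ᶠ t : ℝ in 𝓝 0, ∀ α β, cmp (act_sm (M t)ᵀ) (φ α β) ∈ Id (Hs 0 0) := by
  have s : ∀ {N : ℝ → Mat}, (∀ i j, ContDiff ℝ ∞ fun t => N t i j) →
      ContDiff ℝ ∞ fun p : ℝ × R4 => act (N p.1) p.2 := fun {N} hN =>
    contDiff_euclidean.2 fun i => ContDiff.sum (f := fun j (p : ℝ × R4) => N p.1 i j * p.2 j)
      (s := Finset.univ) fun j _ => ((hN i j).comp contDiff_fst).mul (by fun_prop)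
  choose A a1 a2 a3 using fun α β => flow hs_open (hφ α β) (fun t => act_sm (M t)ᵀ)
    (G := fun t => act (M t)) (s hM.sm).continuous (by simp [hM.zero, act_one])
    fun t y => by rw [← act_mul, hM.orth, act_one]
  refine ⟨?_, eventually_all.2 fun μ => eventually_all.2 fun ν => (a3 μ ν).mono fun t ht =>
    Ds.mono ht (a2 μ ν)⟩
  have d : ∀ α β μ ν, HasDerivAt (fun t => V' μ ν (cmp (act_sm (M t)ᵀ) (φ α β)))
      (V' μ ν (c • (wl.x a * wl.d b (φ α β) - wl.x b * wl.d a (φ α β)))) 0 := fun α β μ ν =>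
    (h.bd' e μ ν).der (((sm (φ α β)).comp (s fun i j => hM.sm j i)).of_le (by simp)) (fun y => by
      have k : HasDerivAt (fun t => act (M t)ᵀ y) (c • (y a • ax b 1 - y b • ax a 1)) 0 := by
        refine ((PiLp.continuousLinearEquiv 2 ℝ fun _ : Fin 4 => ℝ).symm.hasFDerivAt.comp_hasDerivAt 0
          (hasDerivAt_pi.2 fun i => HasDerivAt.fun_sum fun j (_ : j ∈ Finset.univ) =>
            (hM.der j i).mul_const (y j))).congr_deriv ?_
        ext i
        simp [Eg_apply, sub_mul, mul_sub, mul_assoc, ← Finset.mul_sum, Pi.single_apply]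
      refine (HasFDerivAt.comp_hasDerivAt (f := fun t => act (M t)ᵀ y) 0
        ((sm (φ α β)).differentiable (by simp) _).hasFDerivAt k).congr_deriv ?_
      simp only [hM.zero, transpose_one, act_one, map_smul, map_sub]
      change _ = c * (y a * pd b _ y - y b * pd a _ y)
      rw [pd_eq (sm _), pd_eq (sm _)]
      rfl) (a1 α β) (a2 α β) (a3 α β)
  refine (HasDerivAt.fun_sum fun α _ => HasDerivAt.fun_sum fun β _ => HasDerivAt.fun_sum fun μ _ =>
    HasDerivAt.fun_sum fun ν _ => ((hM.der μ α).mul (hM.der ν β)).smul (d α β μ ν)).congr_deriv ?_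
  have z : ∀ f, cmp (act_sm (M 0)ᵀ) f = f := fun f => Subtype.ext (funext fun y => by
    change f.1 (act (M 0)ᵀ y) = _
    rw [hM.zero, transpose_one, act_one])
  simp only [z, Pi.mul_apply]
  simp only [hM.zero, one_apply, Matrix.smul_apply, Eg_apply, tot_apply, wl.L_apply, map_add, map_sub,
    map_smul, smul_eq_mul, mul_ite, ite_mul, mul_one, mul_zero, one_mul, zero_mul, add_smul,
    ite_smul, zero_smul, one_smul, mul_sub, sub_smul, Finset.sum_add_distrib,
    Finset.sum_sub_distrib, Finset.sum_ite_eq', Finset.sum_ite_eq, Finset.mem_univ, if_true,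
    Finset.sum_ite_irrel, Finset.sum_const_zero, apply_ite (V' _ _), map_zero, smul_add, smul_sub,
    Finset.smul_sum]

theorem al' (a b) (hφ : In (Id (Hs 0 0)) φ) (hψ : In (Id (Hs 0 0)) ψ) :
    inner ℂ (tot V' (wl.L a b φ)) (tot V' ψ) =
      -(S3.sg a * S3.sg b) * inner ℂ (tot V' φ) (tot V' (wl.L a b ψ)) := by
  have c1 := cv_Qr a b
  have c2 := c1.conj
  rw [show (of fun i j => sr 0 i * sr 0 j * ((2 : ℝ) • Eg a b) i j) =
    (sr 0 a * sr 0 b * 2) • Eg a b by
      ext i j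
      simp only [of_apply, Matrix.smul_apply, Eg_apply, smul_eq_mul]
      split_ifs <;> simp_all [mul_comm]] at c2
  obtain ⟨d1, m1⟩ := h.drot e hψ c1
  obtain ⟨d2, m2⟩ := h.drot e hφ c2
  have := (d2.inner ℂ d1).unique ((hasDerivAt_const 0 (inner ℂ (tot V' φ) (tot V' ψ)))
    |>.congr_of_eventuallyEq ?_)
  · have z : ∀ {M : ℝ → Mat} {E} (_ : Cv M E) (φ : Ten Sm), ∑ α, ∑ β, ∑ μ, ∑ ν,
        (M 0 μ α * M 0 ν β) • V' μ ν (cmp (act_sm (M 0)ᵀ) (φ α β)) = tot V' φ := fun {M E} hM φ => by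
      have z : ∀ f, cmp (act_sm (M 0)ᵀ) f = f := fun f => Subtype.ext (funext fun y => by
        change f.1 (act (M 0)ᵀ y) = _
        rw [hM.zero, transpose_one, act_one])
      simp only [z]
      simp [hM.zero, one_apply, tot_apply]
    rw [z c1, z c2, ← Complex.coe_smul, ← Complex.coe_smul, inner_smul_left, inner_smul_right,
      Complex.conj_ofReal] at this
    have s : ∀ a, (sr 0 a : ℂ) = -S3.sg a := fun a => by unfold sr S3.sg; split_ifs <;> simp
    push_cast [s] at this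
    linear_combination S3.sg a * S3.sg b / 2 * this -
      inner ℂ (tot V' (wl.L a b φ)) (tot V' ψ) * (S3.sg b * S3.sg b * sg_sq a + sg_sq b)
  filter_upwards [m1, m2] with t n1 n2
  simp only [tot_apply, sum_inner, e _ _ _ (hφ _ _), e _ _ _ (n2 _ _)]
  simp only [inner_sum, e _ _ _ (hψ _ _), e _ _ _ (n1 _ _), ← Complex.coe_smul, inner_smul_left,
    inner_smul_right, Complex.conj_ofReal, Finset.mul_sum,
    fun α β γ δ => h.rot _ _ (so_sq (Qr_orth a b t)) (fun _ _ => rfl) α β γ δ _ _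
      (hφ α β) (hψ γ δ) (n2 α β) (n1 γ δ)]
  refine Finset.sum_congr rfl fun α _ => Finset.sum_congr rfl fun β _ => ?_
  simp only [← Finset.sum_product', ← mul_assoc, ← Complex.ofReal_mul]
  exact Finset.sum_nbij' (fun x => (x.2.2.1, x.2.2.2.1, x.1, x.2.1, x.2.2.2.2))
    (fun x => (x.2.2.1, x.2.2.2.1, x.1, x.2.1, x.2.2.2.2)) (by simp) (by simp) (by simp) (by simp)
    fun x _ => congrArg₂ (fun (a : ℝ) (b : ℂ) => a * b) (by simp only [of_apply]; ring) rfl

theorem lc : ∃ P, Lc wl (Id (Hs 0 0)) (tot V') P := by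
  obtain ⟨P, p1, p2, p3⟩ := exP h.sg h.cone
  have sub : ∀ {μ : Measure R4} {w : R4 → ℂ}, Integrable w μ →
      (∀ᵐ p ∂μ, 0 ≤ p 0 ∧ 0 ≤ mink p p) → Sub μ w := fun i c => ⟨i.1, fun ε ε0 =>
    i.norm.bdd_mul (c := 1) (Continuous.aestronglyMeasurable (by fun_prop)) (c.mono fun p hp => by
      rw [Real.norm_of_nonneg (Real.exp_pos _).le, Real.exp_le_one_iff, neg_nonpos]
      exact mul_nonneg ε0.le hp.1)⟩
  have mk : Measurable fun p : R4 => mink p p := by unfold mink; fun_prop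
  refine ⟨P, Id.st _, fun φ hφ y => ?_, fun φ hφ => ext_inner_left ℂ fun y => ?_, p1,
    fun φ hφ z => ?_, fun φ hφ => ?_, fun ζ hζ => ?_, fun l φ ψ => h.ad' e l,
    fun a b φ ψ => h.al' e a b⟩
  · obtain ⟨u, ψ, u0, hψ, k⟩ := h.back e hφ
    obtain ⟨μ, w, _, i, c, H⟩ := p3 (tot V' ψ) y
    have := Rp.int μ mk (c.mono fun _ h => h.2) u0 (w := fun p => w p * sy (euc u) p)
      (i.1.mul (sy_cont _).aestronglyMeasurable) (i.norm.mono'
        ((Measurable.aestronglyMeasurable (by fun_prop)).mul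
          (i.1.mul (sy_cont _).aestronglyMeasurable).norm) (c.mono fun p hp => ?_))
    · rw [← (H u u0.le).2, ← show tot V' φ = U u (tot V' ψ) from k 0] at this
      simpa only [k, (h.steps c e hψ (sub i c) (fun u hu => (H u hu.le).1) _).2 u u0, mul_assoc]
        using this
    · rw [Real.norm_of_nonneg (by positivity), norm_mul, sy_norm, mul_left_comm, ← Real.exp_add]
      refine mul_le_of_le_one_right (norm_nonneg _) (Real.exp_le_one_iff.2 ?_)
      have : √(mink p p) ≤ p 0 := Real.sqrt_le_iff.2 ⟨hp.1, by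
        unfold mink
        nlinarith [mul_self_nonneg (p 1), mul_self_nonneg (p 2), mul_self_nonneg (p 3)]⟩
      nlinarith
  · obtain ⟨u, ψ, u0, hψ, k⟩ := h.back e hφ
    obtain ⟨μ, w, _, i, c, H⟩ := p3 (tot V' ψ) y
    have := (h.steps (ae_restrict_of_ae c) e hψ (y := ContinuousLinearMap.adjoint P y)
      (sub i.restrict (ae_restrict_of_ae c))
      (fun u hu => (P.adjoint_inner_left _ _).trans (H u hu.le).2) 1).2 u u0
    rw [← k, pow_one, P.adjoint_inner_left] at this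
    rw [this, inner_zero_right]
    exact setIntegral_eq_zero_of_forall_eq_zero fun p (hp : mink p p = 0) => by simp [hp]
  · have a : ∀ s t : ℝ, ax 0 s + t • ax 0 1 = (s + t) • ax 0 1 := fun s t => by
      rw [add_smul]
      congr 1
      ext j
      by_cases j0 : j = 0 <;> simp [j0]
    have d : ∀ s ≥ (0 : ℝ), HasDerivAt (fun t : ℝ => P (tot V' (sh (t • ax 0 1) φ))) 0 s :=
      fun s hs => by
        have := (P.restrictScalars ℝ).hasFDerivAt.comp_hasDerivAt 0
          (h.dU e hφ 0 (u := ax 0 s) (by simpa using hs))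
        rw [map_neg, ContinuousLinearMap.coe_restrictScalars', p2 _ (by simpa using hs), z, map_zero,
          neg_zero] at this
        simpa [Function.comp_def, a] using this.scomp_of_eq s ((hasDerivAt_id s).sub_const s)
          (by simp)
    have t : Tendsto (fun t => P (U (ax 0 t) (tot V' φ))) atTop (𝓝 0) := by
      have := (P.continuous.tendsto _).comp (tendsto_finset_sum Finset.univ fun μ _ =>
        tendsto_finset_sum Finset.univ fun ν _ => h.clu μ ν _ (hφ μ ν))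
      simpa [tot_apply, e _ _ _ (hφ _ _), Function.comp_def] using this
    refine tendsto_nhds_unique (tendsto_const_nhds.congr' ?_) t
    filter_upwards [eventually_ge_atTop 0] with s hs
    have := constant_of_has_deriv_right_zero (a := 0) (b := s)
      (fun x hx => (d x hx.1).continuousAt.continuousWithinAt)
      (fun x hx => (d x hx.1).hasDerivWithinAt) s ⟨hs, le_rfl⟩
    rw [zero_smul, sh_zero] at this
    rw [← this, h.tr' e hφ (by simpa using hs), ← add_zero s, ← a]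
    simp
  · rw [tot_apply, tot_apply, Finset.sum_comm]
    simp only [e _ _ _ (hφ _ _)]
    exact Finset.sum_congr rfl fun μ _ => Finset.sum_congr rfl fun ν _ => h.sym _ _ _ (hφ _ _)
  · rw [tot_apply, Finset.sum_comm]
    simp only [e _ _ _ (Id.st _ _ _ (hζ _))]
    exact Finset.sum_eq_zero fun ν _ => h.con ν _ (hζ ν)

end Vc

theorem Vc.flux (h : Vc U V) {g : Fin 4 → Fin 4 → (R4 → ℝ) → ℂ} {r : ℝ}
    (lin : ∀ μ ν f f' (t : ℝ), Ds {y | ∃ l, r < |y l|} f → Ds {y | ∃ l, r < |y l|} f' →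
      g μ ν (f + t • f') = g μ ν f + t • g μ ν f')
    (hg : ∀ (i : Fin 4) (s : ℝ), s * s = 1 → ∃ (σ : Equiv.Perm (Fin 4)) (ε : Fin 4 → ℝ) (y : K),
      σ 0 = i ∧ ε 0 = s ∧ (∀ l, ε l * ε l = 1) ∧ ∀ μ ν f, Ds {y | r < s * y i} f →
        g (σ μ) (σ ν) f = (ε μ * ε ν : ℝ) * inner ℂ y (V μ ν fun z => f (chart σ ε r z)))
    {ξ : R4 → ℝ} (hξ : ContDiff ℝ ∞ ξ) (hs : ∀ μ, Ds {y | ∃ l, r < |y l|} (pd μ ξ)) {Λ : Mat}
    (hΛ : Λᵀ = -Λ) (v : R4) : ∑ μ, ∑ ν, g μ ν (fun y => (act Λ y + v) ν * pd μ ξ y) = 0 := by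
  choose V' e using fun μ ν => ext_lin (h.lin μ ν)
  choose g' e' using fun μ ν => ext_lin (lin μ ν)
  obtain ⟨P, hL⟩ := h.lc e
  let s : Bool → ℝ := fun b => if b then 1 else -1
  have s2 : ∀ b, s b * s b = 1 := fun b => by cases b <;> simp [s]
  choose σ ε y h1 h2 h3 h4 using fun i : Fin 4 × Bool => hg i.1 (s i.2) (s2 _)
  have sb : ∀ i : Fin 4 × Bool, {y : R4 | r < s i.2 * y i.1} ⊆ {y | ∃ l, r < |y l|} :=
    fun i y (hy : _ < _) => ⟨i.1, hy.trans_le (by
      cases i.2 <;> simp [s, le_abs_self, neg_le_abs])⟩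
  obtain ⟨ρ, r1, r2⟩ := part (C := ⋃ μ, tsupport (pd μ ξ))
    (isClosed_iUnion_of_finite fun _ => isClosed_closure)
    (U := fun i : Fin 4 × Bool => {y | r < ε i 0 * y (σ i 0)})
    (fun i => isOpen_lt continuous_const (by fun_prop)) (iUnion_subset fun μ z hz => by
      obtain ⟨l, hl⟩ := (hs μ).2.2 hz
      simp only [h1, h2, mem_iUnion, mem_ofPred_eq]
      exact (lt_abs.1 hl).elim (fun a => ⟨(l, true), by simpa [s] using a⟩)
        fun a => ⟨(l, false), by simpa [s] using a⟩)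
  have m : ∀ μ, wl.d μ ⟨ξ, hξ⟩ ∈ Id (⋃ μ, tsupport (pd μ ξ)) := fun μ =>
    ⟨(hs μ).1, (hs μ).2.1, subset_iUnion (fun μ => tsupport (pd μ ξ)) μ⟩
  have c : ∀ l (a : ℝ), wl.d l (algebraMap ℝ Sm a) = 0 := fun l a =>
    Subtype.ext (funext fun y => by simp [d_val, pd, lineDeriv])
  have G := fun {k η} (hk : Ki wl k η) {c} => glue (c := c) hL (fun i => ch_of (h3 i) r) (Id.st _) r1 r2
    (g := tot g') (y := y) (fun i φ hφ => by
      have hφ' : ∀ μ ν, Ds {y | r < s i.2 * y i.1} (φ μ ν) := by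
        simpa only [h1, h2] using show ∀ μ ν, Ds _ (φ μ ν).1 from hφ
      rw [tot_apply, tot_apply, ← Equiv.sum_comp (σ i), inner_sum]
      refine Finset.sum_congr rfl fun μ _ => ?_
      rw [← Equiv.sum_comp (σ i), inner_sum]
      refine Finset.sum_congr rfl fun ν _ => ?_
      rw [e' _ _ _ ((hφ' _ _).mono (sb i)), h4 i _ _ _ (hφ' _ _), tac_apply, map_smul,
        ← Complex.coe_smul, inner_smul_right, e _ _ _ ((ch_of (h3 i) r).mem _ (hφ _ _))]
      rfl) hk m
  have a : ∀ i j, algebraMap ℝ Sm (Λ i j / 2) - algebraMap ℝ Sm (Λ j i / 2) =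
      algebraMap ℝ Sm (Λ i j) := fun i j => by
    rw [← map_sub, show Λ j i = -Λ i j from congrFun₂ hΛ i j]
    congr 1
    ring
  have g1 := G (k := fun ν => ∑ l, algebraMap ℝ Sm (Λ ν l) * wl.x l)
    (η := fun i j => algebraMap ℝ Sm (Λ i j / 2)) ⟨fun μ ν => by simp [a, wl.mul, c, wl.dx],
      fun l i j => c _ _⟩ zero_le_one fun ν => by simp only [a, one_smul]
  have g2 := G (k := fun ν => algebraMap ℝ Sm (v ν)) (η := 0) ⟨fun μ ν => by simp [c],
    fun l i j => map_zero _⟩ le_rfl fun ν => by simp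
  have := congrArg₂ (· + ·) g1 g2
  simp only [← map_add, add_zero] at this
  rw [← this, tot_apply]
  refine Finset.sum_congr rfl fun μ _ => Finset.sum_congr rfl fun ν _ => ?_
  rw [Pi.add_apply, Pi.add_apply, ← add_mul, e' _ _ _ ((Id _).mul_mem_left _ (hs μ))]
  refine congrArg (g μ ν) (funext fun z => ?_)
  simp [act_apply, d_val, wl]

end Pool.Agent.Lib.MP_7f377f_mp.S3
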