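import Pool.Agent.Lib.MP_7f377f_mp.G.S3A

/-! The flux of a Killing field vanishes for a curl free conserved symmetric tensor; gluing. -/

noncomputable section

namespace Pool.Agent.Lib.MP_7f377f_mp.S3

open Finset

variable {A : Type} [CommRing A] [Algebra ℝ A] {w : Wl A} {K : Type} [NormedAddCommGroup K]
  [InnerProductSpace ℂ K] {I : Ideal A} {Z : Submodule ℝ (Ten A)}

/-- `Z` contains the antisymmetric tensors and the gradients -/
structure Re (w : Wl A) (I : Ideal A) (Z : Submodule ℝ (Ten A)) : Prop where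
  st : ∀ i, ∀ f ∈ I, w.d i f ∈ I
  sym : ∀ φ, In I φ → (fun μ ν => φ μ ν - φ ν μ) ∈ Z
  con : ∀ ζ : Fin 4 → A, (∀ ν, ζ ν ∈ I) → (fun μ ν => w.d μ (ζ ν)) ∈ Z

/-- Killing fields -/
structure Ki (w : Wl A) (k : Fin 4 → A) (η : Ten A) : Prop where
  dk : ∀ μ ν, w.d μ (k ν) = η ν μ - η μ ν
  dη : ∀ l i j, w.d l (η i j) = 0

variable {k : Fin 4 → A} {η : Ten A} {ξ : A}

theorem Re.tr (h : Re w I Z) {φ : Ten A} (hφ : In I φ) (e : φ ∈ Z) : (fun μ ν => φ ν μ) ∈ Z := by
  convert Z.sub_mem e (h.sym φ hφ) using 1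
  funext μ ν
  simp

theorem Re.con' (h : Re w I Z) {ζ : Fin 4 → A} (hζ : ∀ ν, ζ ν ∈ I) :
    (fun μ ν => w.d ν (ζ μ)) ∈ Z := h.tr (fun μ ν => h.st μ _ (hζ ν)) (h.con ζ hζ)

theorem Re.asym (h : Re w I Z) (η : Ten A) {f : A} (hf : f ∈ I) :
    (fun μ ν => (η μ ν - η ν μ) * f) ∈ Z := by
  simpa only [sub_mul] using h.sym (fun μ ν => η μ ν * f) fun μ ν => I.mul_mem_left _ hf

/-- the Laplacian of the flux tensor -/
theorem Re.lap (h : Re w I Z) (hk : Ki w k η) (hξ : ∀ μ, w.d μ ξ ∈ I) :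
    w.Lap (fun μ ν => k ν * w.d μ ξ) ∈ Z := by
  have m : ∑ l, w.d l (w.d l ξ) ∈ I := I.sum_mem fun l _ => h.st _ _ (hξ l)
  convert Z.add_mem (h.con (fun ν => k ν * ∑ l, w.d l (w.d l ξ) +
    2 * ∑ l, (η ν l - η l ν) * w.d l ξ) fun ν => I.add_mem (I.mul_mem_left _ m)
      (I.mul_mem_left _ (I.sum_mem fun l _ => I.mul_mem_left _ (hξ l)))) (h.asym η m) using 1
  funext μ ν
  simp only [w.Lap_apply, Pi.add_apply, two_mul, map_add, map_sub, w.mul, hk.dk, hk.dη,
    Fin.sum_univ_four, w.cm μ]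
  ring

theorem mem_of {φ ψ : Ten A} {c : ℝ} (hc : c ≠ 0) (h : ψ ∈ Z) (e : ∀ μ ν, c • φ μ ν = ψ μ ν) :
    φ ∈ Z := (Z.smul_mem_iff hc).1 ((funext₂ e : c • φ = ψ) ▸ h)

theorem Re.flux (h : Re w I Z) (cu : ∀ c : Fin 4 → Ten A, (∀ l, In I (c l)) →
      (fun μ ν => ∑ l, w.d l (c l μ ν - c μ l ν)) ∈ Z) (hk : Ki w k η) {c : ℝ} (c0 : 0 ≤ c)
    (hc : ∀ ν, ∑ l, (η ν l - η l ν) * w.x l = c • k ν) (hξ : ∀ μ, w.d μ ξ ∈ I) :
    (fun μ ν => k ν * w.d μ ξ) ∈ Z := by
  have s := h.st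
  have ml : ∀ a : Fin 4 → A, ∑ l, a l * w.d l ξ ∈ I := fun a =>
    I.sum_mem fun l _ => I.mul_mem_left _ (hξ l)
  have i1 : ∀ v : Fin 4 → A, (∀ l, v l ∈ I) →
      (fun μ ν => if μ = ν then ∑ l, w.d l (v l) else 0 : Ten A) ∈ Z := fun v hv => by
    convert Z.add_mem (cu (fun l μ ν => if μ = ν then v l else 0) fun l μ ν => ite_mem (hv l))
      (h.con' hv) using 1
    funext μ ν
    simp [apply_ite (w.d _)]
  have i2 : (fun μ ν => if μ = ν then ∑ l, k l * w.d l ξ else 0 : Ten A) ∈ Z := by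
    refine mem_of (c := 3 + c) (by positivity) (i1 (fun l => w.x l * ∑ j, k j * w.d j ξ -
      k l * ∑ j, w.x j * w.d j ξ) fun l => I.sub_mem (I.mul_mem_left _ (ml _))
        (I.mul_mem_left _ (ml _))) fun μ ν => ?_
    split_ifs
    · have := fun ν => (hc ν).trans (Algebra.smul_def c _)
      simp only [Fin.sum_univ_four] at this
      simp only [Algebra.smul_def, map_add, map_sub, w.mul, hk.dk, w.dx, Fin.sum_univ_four, w.cm,
        map_ofNat, Fin.reduceEq, if_true, if_false]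
      linear_combination -(this 0 * w.d 0 ξ + this 1 * w.d 1 ξ + this 2 * w.d 2 ξ + this 3 * w.d 3 ξ)
    · simp
  have mV := fun μ => ml fun l => η l μ - η μ l
  have i3 : (fun μ ν => w.x μ * ∑ l, (η l ν - η ν l) * w.d l ξ) ∈ Z := by
    refine mem_of (c := 4) (by positivity) (Z.add_mem (Z.sub_mem (Z.smul_mem 2
      (cu (fun l μ ν => w.x l * (∑ j, (η j μ - η μ j) * w.d j ξ) * w.x ν) fun l μ ν =>
        I.mul_mem_right _ (I.mul_mem_left _ (mV μ))))
      (cu (fun l μ ν => (η l μ - η μ l) * (w.x ν * ∑ j, w.x j * w.d j ξ)) fun l μ ν =>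
        I.mul_mem_left _ (I.mul_mem_left _ (ml _))))
      (Z.sub_mem (Z.smul_mem 6 (h.sym (fun μ ν => w.x μ * ∑ l, (η l ν - η ν l) * w.d l ξ)
        fun μ ν => I.mul_mem_left _ (mV ν))) (Z.smul_mem 2 (h.asym η (ml w.x))))) fun μ ν => ?_
    simp only [Pi.add_apply, Pi.sub_apply, Pi.smul_apply]
    simp only [Algebra.smul_def, map_ofNat, map_sub, map_add,
      w.mul, w.dx, hk.dη, map_sum, sum_add_distrib, sum_sub_distrib, add_mul, mul_add, mul_ite,
      ite_mul, sum_ite_eq, sum_ite_eq', mem_univ, if_true, one_mul, mul_one, zero_mul, mul_zero]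
    simp only [Fin.sum_univ_four, w.cm]
    ring
  have mk := fun μ ν => I.mul_mem_left (k ν) (hξ μ)
  refine mem_of (c := 2 + c) (by positivity) (Z.sub_mem (Z.add_mem (Z.add_mem
    (cu (fun l μ ν => w.x l * (k ν * w.d μ ξ)) fun l μ ν => I.mul_mem_left _ (mk μ ν))
    (h.tr (φ := fun μ ν => ∑ l, w.d l (w.x ν * (k μ * w.d l ξ) - w.x ν * (k l * w.d μ ξ)))
      (fun μ ν => I.sum_mem fun l _ => s _ _ (I.sub_mem (I.mul_mem_left _ (mk _ _))
        (I.mul_mem_left _ (mk _ _))))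
      (by
        convert Z.sub_mem (cu (fun l μ ν => w.x ν * (k μ * w.d l ξ)) fun l μ ν =>
          I.mul_mem_left _ (mk _ _)) Z.zero_mem using 1
        simp)))
    (Z.sub_mem (h.con' (ζ := fun μ => w.x μ * ∑ l, k l * w.d l ξ) fun μ => I.mul_mem_left _ (ml _))
      (h.asym η (ml w.x))))
    (Z.add_mem (Z.add_mem (h.sym _ mk) (h.con (fun ν => k ν * ∑ l, w.x l * w.d l ξ)
      fun ν => I.mul_mem_left _ (ml _))) (Z.add_mem i2 i3))) fun μ ν => ?_
  have := (hc ν).trans (Algebra.smul_def c _)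
  simp only [Pi.add_apply, Pi.sub_apply, Algebra.smul_def, map_ofNat, map_sub, map_add,
    w.mul, w.dx, hk.dk, map_sum, sum_add_distrib, sum_sub_distrib, add_mul, mul_add, mul_ite,
    ite_mul, sum_ite_eq, sum_ite_eq', mem_univ, if_true, one_mul, mul_one, zero_mul, mul_zero,
    eq_comm (a := ν) (b := μ)]
  simp only [Fin.sum_univ_four, w.cm] at this ⊢
  linear_combination -w.d μ ξ * this

/-- charts -/
structure Ch (w : Wl A) (J J' : Ideal A) (a : A →ₗ[ℝ] A) (σ : Equiv.Perm (Fin 4))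
    (s : Fin 4 → ℝ) : Prop where
  st : ∀ i, ∀ f ∈ J', w.d i f ∈ J'
  mem : ∀ f ∈ J', a f ∈ J
  sq : ∀ l, s l * s l = 1
  da : ∀ l f, w.d l (a f) = s l • a (w.d (σ l) f)

/-- the action of a chart on tensors -/
def tac (a : A →ₗ[ℝ] A) (σ : Equiv.Perm (Fin 4)) (s : Fin 4 → ℝ) : Module.End ℝ (Ten A) where
  toFun φ μ ν := (s μ * s ν) • a (φ (σ μ) (σ ν))
  map_add' _ _ := by ext; simp
  map_smul' _ _ := by ext; simp [smul_comm (s _ * s _)]

theorem tac_apply (a : A →ₗ[ℝ] A) (σ : Equiv.Perm (Fin 4)) (s : Fin 4 → ℝ) (φ : Ten A) (μ ν) :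
    tac a σ s φ μ ν = (s μ * s ν) • a (φ (σ μ) (σ ν)) := rfl

variable {J : Ideal A} {V : Ten A →ₗ[ℝ] K} {P : K →L[ℂ] K}

section
variable {J' : Ideal A} {a : A →ₗ[ℝ] A} {σ : Equiv.Perm (Fin 4)} {s : Fin 4 → ℝ}
  (h : Ch w J J' a σ s)
include h

theorem Ch.in {φ : Ten A} (hφ : In J' φ) : In J (tac a σ s φ) := fun _ _ =>
  J.smul_of_tower_mem _ (h.mem _ (hφ _ _))

theorem Ch.lap : Commute w.Lap (tac a σ s) := LinearMap.ext fun φ => funext₂ fun μ ν => by
  simp only [Module.End.mul_apply, w.Lap_apply, tac_apply, map_smul, h.da, smul_smul,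
    ← mul_assoc, map_sum, smul_sum]
  conv_rhs => rw [← Equiv.sum_comp σ]
  exact sum_congr rfl fun l _ => by rw [mul_assoc, h.sq, mul_one]

end

theorem glue {ι : Type} [Fintype ι] (hL : Lc w J V P) {J' : ι → Ideal A} {a : ι → A →ₗ[ℝ] A}
    {σ : ι → Equiv.Perm (Fin 4)} {s : ι → Fin 4 → ℝ} (hC : ∀ i, Ch w J (J' i) (a i) (σ i) (s i))
    (st : ∀ i, ∀ f ∈ I, w.d i f ∈ I) {ρ : ι → A} (h1 : ∀ i, ∀ f ∈ I, ρ i * f ∈ J' i)
    (h2 : ∀ f ∈ I, ∑ i, ρ i * f = f) {g : Ten A →ₗ[ℝ] ℂ} {y : ι → K}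
    (hg : ∀ i φ, In (J' i) φ → g φ = inner ℂ (y i) (V (tac (a i) (σ i) (s i) φ)))
    (hk : Ki w k η) (hξ : ∀ μ, w.d μ ξ ∈ I) {c : ℝ} (c0 : 0 ≤ c)
    (hc : ∀ ν, ∑ l, (η ν l - η l ν) * w.x l = c • k ν) : g (fun μ ν => k ν * w.d μ ξ) = 0 := by
  have r0 : Re w I (LinearMap.ker g) := by
    refine ⟨st, fun φ hφ => ?_, fun ζ hζ => ?_⟩
    · have e : (fun μ ν => φ μ ν - φ ν μ) = ∑ i, fun μ ν => ρ i * φ μ ν - ρ i * φ ν μ := by
        funext μ ν
        simp only [Finset.sum_apply, sum_sub_distrib, h2 _ (hφ _ _)]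
      refine e ▸ Submodule.sum_mem _ fun i _ => ?_
      have m : In (J' i) fun μ ν => ρ i * φ μ ν := fun μ ν => h1 i _ (hφ μ ν)
      have := hL.sym _ ((hC i).in m)
      rw [← sub_eq_zero, ← map_sub] at this
      rw [LinearMap.mem_ker, hg i _ fun μ ν => (J' i).sub_mem (m μ ν) (m ν μ), ← neg_eq_zero,
        ← inner_neg_right, ← map_neg, ← inner_zero_right (𝕜 := ℂ) (y i), ← this]
      congr 2
      funext μ ν
      simp only [Pi.neg_apply, Pi.sub_apply, tac_apply, map_sub, smul_sub, neg_sub, mul_comm (s i ν)]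
    · have e : (fun μ ν => w.d μ (ζ ν)) = ∑ i, fun μ ν => w.d μ (ρ i * ζ ν) := by
        funext μ ν
        simp only [Finset.sum_apply, ← map_sum, h2 _ (hζ _)]
      refine e ▸ Submodule.sum_mem _ fun i _ => ?_
      have := hL.con (fun ν => s i ν • a i (ρ i * ζ (σ i ν))) fun ν =>
        J.smul_of_tower_mem _ ((hC i).mem _ (h1 i _ (hζ _)))
      rw [LinearMap.mem_ker, hg i _ fun μ ν => (hC i).st _ _ (h1 i _ (hζ _)),
        ← inner_zero_right (𝕜 := ℂ) (y i), ← this]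
      congr 2
      funext μ ν
      simp only [tac_apply, map_smul, (hC i).da, smul_smul, mul_comm (s i ν)]
  have r1 : Re w I (⨅ n : ℕ, LinearMap.ker (g ∘ₗ (w.Lap ^ n))) := by
    refine ⟨st, fun φ hφ => (Submodule.mem_iInf _).2 fun n => ?_,
      fun ζ hζ => (Submodule.mem_iInf _).2 fun n => ?_⟩
    · have t : ∀ (n : ℕ) (φ : Ten A), (w.Lap ^ n) (fun μ ν => φ ν μ) =
          fun μ ν => (w.Lap ^ n) φ ν μ := fun n => by
        induction n with
        | zero => exact fun _ => rfl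
        | succ n ih =>
          intro φ
          rw [pow_succ, Module.End.mul_apply, Module.End.mul_apply, ← ih]
          congr 1
      have := r0.sym _ (hφ.Lap st n)
      rw [LinearMap.mem_ker] at this ⊢
      rw [← this, LinearMap.comp_apply]
      exact congrArg g ((map_sub (w.Lap ^ n) φ _).trans (by rw [t]; rfl))
    · induction n generalizing ζ with
      | zero => exact r0.con ζ hζ
      | succ n ih =>
        have := ih (fun ν => ∑ l, w.d l (w.d l (ζ ν))) fun ν =>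
          I.sum_mem fun l _ => st _ _ (st _ _ (hζ ν))
        rw [LinearMap.mem_ker, LinearMap.comp_apply] at this ⊢
        rw [← this, pow_succ, Module.End.mul_apply]
        congr 2
        funext μ ν
        simp only [w.Lap_apply, map_sum, w.cm μ]
  let Z : Submodule ℝ (Ten A) :=
    { carrier := {φ | Rp (fun n => g ((w.Lap ^ n) φ)) 0}
      add_mem' := fun h h' => by simpa only [Set.mem_ofPred_eq, map_add, add_zero] using Rp.add h h'
      zero_mem' := by simpa using Rp.one (s := fun _ => 0) fun _ => rfl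
      smul_mem' := fun t φ h => by
        simpa only [Set.mem_ofPred_eq, map_smul, mul_zero, Complex.real_smul] using Rp.mul h t }
  have le : ⨅ n : ℕ, LinearMap.ker (g ∘ₗ (w.Lap ^ n)) ≤ Z := fun φ h => by
    have : (fun n => g ((w.Lap ^ n) φ)) = fun _ => 0 := funext ((Submodule.mem_iInf _).1 h)
    exact (congrArg (Rp · 0) this).mpr (Rp.one (s := fun _ => 0) fun _ => rfl)
  have z : Rp _ 0 := Re.flux (Z := Z) ⟨st, fun φ h => le (r1.sym φ h), fun φ h => le (r1.con φ h)⟩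
    (fun b hb => by
      have e : (fun μ ν => ∑ l, w.d l (b l μ ν - b μ l ν)) =
          ∑ i, fun μ ν => ∑ l, w.d l (ρ i * b l μ ν - ρ i * b μ l ν) := by
        funext μ ν
        rw [Finset.sum_apply, Finset.sum_apply, sum_comm]
        simp only [← map_sum, sum_sub_distrib, h2 _ (hb _ _ _)]
      refine e ▸ Z.sum_mem fun i _ => ?_
      have m : In (J' i) fun μ ν => ∑ l, w.d l (ρ i * b l μ ν - ρ i * b μ l ν) := fun μ ν =>
        (J' i).sum_mem fun l _ => (hC i).st _ _ ((J' i).sub_mem (h1 i _ (hb _ _ _))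
          (h1 i _ (hb _ _ _)))
      have := hL.rp _ ((hC i).in m) (y i)
      have e1 := hL.curl (c := fun l μ ν => (s i l * s i μ * s i ν) •
        a i (ρ i * b (σ i l) (σ i μ) (σ i ν))) fun l μ ν =>
          J.smul_of_tower_mem _ ((hC i).mem _ (h1 i _ (hb _ _ _)))
      have e2 : tac (a i) (σ i) (s i) (fun μ ν => ∑ l, w.d l (ρ i * b l μ ν - ρ i * b μ l ν)) = _ :=
        funext₂ fun μ ν => (?_ : _ = ∑ l, w.d l ((s i l * s i μ * s i ν) •
          a i (ρ i * b (σ i l) (σ i μ) (σ i ν)) - (s i μ * s i l * s i ν) •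
            a i (ρ i * b (σ i μ) (σ i l) (σ i ν))))
      · rw [show P _ = 0 from e2 ▸ e1, inner_zero_right] at this
        refine (congrArg (Rp · 0) (funext fun n => ?_)).mpr this
        rw [hg i _ (m.Lap (hC i).st n), ← Module.End.mul_apply, ← ((hC i).lap.pow_left n).eq,
          Module.End.mul_apply]
      · rw [tac_apply, ← Equiv.sum_comp (σ i), map_sum, smul_sum]
        refine sum_congr rfl fun l _ => ?_
        simp only [map_sub, map_smul, (hC i).da, smul_smul, smul_sub]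
        congr 2
        · linear_combination -s i μ * s i ν * (hC i).sq l
        · linear_combination -s i μ * s i ν * (hC i).sq l) hk c0 hc hξ
  refine (Rp.one fun n => ?_).uniq z
  exact (Submodule.mem_iInf _).1 (r1.lap hk hξ) n

end Pool.Agent.Lib.MP_7f377f_mp.S3
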