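import Pool.Agent.Lib.MP_7f377f_mp.G.S3
import Pool.Agent.Lib.MP_7f377f_mp.G.S10KE
import Pool.Agent.Lib.MP_7f377f_mp.G.SwD
import Pool.Agent.Lib.MP_7f377f_mp.G.PuX
import Pool.Agent.Lib.MP_7f377f_mp.G.LgDC

/-! No spontaneous breaking of the Euclidean group: the one particle space of the tensor. -/

noncomputable section

namespace Pool.Agent.Lib.MP_7f377f_mp
variable [Pool.Agent.Lib.MP_7f377f_mp.GD]
set_option linter.unusedSectionVars false

open Filter Topology Set YM7 Pur Wm Matrix Real Metric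
open scoped ContDiff Pointwise

variable {P : Type} [CommRing P] [Algebra ℂ P] {N : Net P} {W : P →ₗ[ℂ] ℂ}

namespace S3
variable {K : Type} [NormedAddCommGroup K] [InnerProductSpace ℂ K] [CompleteSpace K]
  {T : Fin 4 → Fin 4 → (R4 → ℝ) → P} {U : R4 → K →L[ℂ] K} {V : Fin 4 → Fin 4 → (R4 → ℝ) → K}

theorem Ds.sh {f} (h : Ds (Hs 0 0) f) {u : R4} (hu : 0 ≤ u 0) : Ds (Hs 0 0) fun y => f (y - u) :=
  h.comp (sub_sm _) (G := fun z => z + u) (by fun_prop) (sub_add_cancel · _)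
    fun _ hz => add_pos_of_pos_of_nonneg hz hu

/-- the vectors with test functions in `O` -/
abbrev gn (V : Fin 4 → Fin 4 → (R4 → ℝ) → K) (O : Set R4)
    (a : Fin 4 × Fin 4 × {f // Ds O f}) : K := V a.1 a.2.1 a.2.2

/-- rotated vectors -/
def rv (V : Fin 4 → Fin 4 → (R4 → ℝ) → K) (R : Mat) (α β : Fin 4) (f : R4 → ℝ) : K :=
  ∑ μ, ∑ ν, ((R μ α * R ν β : ℝ) : ℂ) • V μ ν fun y => f (act Rᵀ y)

namespace V0
variable (h : V0 V)
  (hU : ∀ μ ν f (u : R4), Ds (Hs 0 0) f → 0 ≤ u 0 → U u (V μ ν f) = V μ ν fun y => f (y - u))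
  (hd : Dense (Submodule.span ℂ (range (gn V (Hs 0 0))) : Set K))
include h hU hd

theorem cont (hn : ∀ v : R4, 0 ≤ v 0 → ‖U v‖ ≤ 1) (x : K) :
    ContinuousOn (fun v => U v x) {v | 0 ≤ v 0} := by
  refine hd.induction (P := fun x => ContinuousOn (fun v => U v x) {v | 0 ≤ v 0}) (fun x hx => ?_)
    (isClosed_of_closure_subset fun x hx => continuousOn_of_uniform_approx_of_continuousOn
      fun e he => ?_) x
  · refine Submodule.span_induction (p := fun x _ => ContinuousOn (fun v => U v x) {v | 0 ≤ v 0})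
      ?_ (by simpa using continuousOn_const) (fun _ _ _ _ a b => by simpa using a.fun_add b)
      (fun c _ _ a => by simpa using a.fun_const_smul c) hx
    rintro _ ⟨⟨μ, ν, f, hf⟩, rfl⟩ u hu
    obtain ⟨L, hL⟩ := (hf.1.of_le (m := 1) (by simp)).lipschitzWith_of_hasCompactSupport hf.2.1
      one_ne_zero
    have c : IsCompact (closedBall u 1 ∩ {v : R4 | 0 ≤ v 0}) :=
      (isCompact_closedBall u 1).inter_right (isClosed_le continuous_const (by fun_prop))
    obtain ⟨C, hC⟩ := h.bd μ ν _ (hf.2.1.isCompact.add c) (by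
      rintro _ ⟨a, ha, b, hb, rfl⟩
      exact add_pos_of_pos_of_nonneg (a := a 0) (hf.2.2 ha) hb.2)
    have d : ∀ v ∈ closedBall u 1 ∩ {v : R4 | 0 ≤ v 0},
        Ds (tsupport f + closedBall u 1 ∩ {v : R4 | 0 ≤ v 0}) fun y => f (y - v) := fun v hv =>
      hf.self.comp (sub_sm _) (G := fun z => z + v) (by fun_prop) (sub_add_cancel · _)
        fun z hz => add_mem_add hz hv
    refine tendsto_iff_norm_sub_tendsto_zero.2 (squeeze_zero' (g := fun v => C * (L * ‖v - u‖))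
      (.of_forall fun _ => norm_nonneg _) ?_ (tendsto_nhdsWithin_of_tendsto_nhds
        (Continuous.tendsto' (by fun_prop) _ _ (by simp))))
    filter_upwards [inter_mem (mem_nhdsWithin_of_mem_nhds (closedBall_mem_nhds u one_pos))
      self_mem_nhdsWithin] with v hv
    rw [gn, hU _ _ _ _ hf hv.2, hU _ _ _ _ hf hu, sub_eq_add_neg, ← neg_one_smul ℝ,
      ← h.lin _ _ _ _ _ (hf.sh hv.2) (hf.sh hu)]
    have d' := d u ⟨mem_closedBall_self zero_le_one, hu⟩
    refine hC _ _ ((Id _).add_mem (a := ⟨_, (d v hv).1⟩) (d v hv)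
      ((Id _).smul_of_tower_mem (-1 : ℝ) (x := ⟨_, d'.1⟩) d')) fun y => ?_
    simpa [Real.norm_eq_abs, ← sub_eq_add_neg, norm_sub_rev u] using
      hL.norm_sub_le (y - v) (y - u)
  · obtain ⟨ε, ε0, hε⟩ := mem_uniformity_dist.1 he
    obtain ⟨y, hy, e⟩ := Metric.mem_closure_iff.1 hx ε ε0
    refine ⟨_, hy, fun v hv => hε ?_⟩
    rw [dist_eq_norm] at e
    rw [dist_eq_norm, ← map_sub]
    exact (((U v).le_of_opNorm_le (hn v hv) _).trans_eq (one_mul _)).trans_lt e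

omit hd in
theorem one (h1 : Sg U) {n : R4} (hn : Un n) {O : Set R4} (hO : O ⊆ {y | |inner ℝ n y| < y 0})
    {c : K} (hc : c ∈ Submodule.span ℂ (range (gn V O))) : ∃ M, ∀ q > (0 : ℝ),
      S10.Hol (fun p => inner ℂ c (U ((p + q) • e0 + (p - q) • n) c)) M := by
  rw [← Finsupp.range_linearCombination] at hc
  obtain ⟨z, rfl⟩ := hc
  have c0 : 0 < cos (π / 4) := by rw [cos_pi_div_four]; positivity
  have c1 : sin (π / 4) = cos (π / 4) := by rw [cos_pi_div_four, sin_pi_div_four]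
  have sR := so_Rm hn (π / 4)
  have d : ∀ {α f}, cos α = cos (π / 4) → |sin α| = cos (π / 4) → Ds O f →
      Ds (Hs 0 0) fun y => f (act (Rm n α)ᵀ y) := fun {α f} a b hf =>
    hf.comp (act_sm _) (act_sm (Rm n α)).continuous (fun y => by
      rw [← act_mul, (so_Rm hn α).mul_transpose, act_one]) fun y hy => by
        have := hO hy
        have e := neg_abs_le (sin α * inner ℝ n y)
        simp only [Hs, mem_ofPred_eq, Rm_zero_apply hn, a, abs_mul, b] at this e ⊢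
        nlinarith
  have d0 : ∀ {f}, Ds O f → Ds (Hs 0 0) f := fun hf => hf.mono fun y hy =>
    (abs_nonneg (inner ℝ n y)).trans_lt (hO hy)
  have p : ∀ {t : ℝ}, 0 < t → 0 ≤ ax 0 t 0 := fun ht => by simpa using ht.le
  let u := fun α => Finsupp.linearCombination ℂ (fun a : Fin 4 × Fin 4 × {f // Ds O f} =>
    rv V (Rm n α) a.1 a.2.1 a.2.2) z
  refine ⟨‖u (-(π / 4))‖ * ‖u (π / 4)‖, fun q hq => ?_⟩
  have q0 : 0 ≤ (-(2 * cos (π / 4) * q) • n) 0 := by simp [hn.1]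
  refine ((S10.hol_sg (T := fun t => U (ax 0 t)) (fun t ht => ?_) (fun t ht => h1.nrm _ (p ht))
    (fun s hs t ht => by rw [← ax_add, h1.mul _ _ (p hs) (p ht)]) (u (-(π / 4)))
    (U (-(2 * cos (π / 4) * q) • n) (u (π / 4)))).scale (mul_pos two_pos c0)).congr
    (fun t ht => ?_) (mul_le_mul_of_nonneg_left
      (((U _).le_of_opNorm_le (h1.nrm _ q0) _).trans_eq (one_mul _)) (norm_nonneg _))
  · refine ContinuousLinearMap.isSelfAdjoint_iff_isSymmetric.2 fun x y => ?_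
    have := h1.adj _ (p ht) x y
    rwa [rf_ax, show -ax 0 (-t) = ax 0 t by
      ext l
      by_cases e : l = 0 <;> simp [e]] at this
  have w0 : 0 ≤ ((t + q) • e0 + (t - q) • n) 0 := by simp [hn.1, (add_pos ht hq).le]
  have t0 := p (mul_pos (mul_pos two_pos c0) ht)
  have s0 : 0 ≤ (ax 0 (2 * cos (π / 4) * t) + -(2 * cos (π / 4) * q) • n) 0 := add_nonneg t0 q0
  have e : ∀ y, act (Rm n (π / 4))ᵀ (y - (ax 0 (2 * cos (π / 4) * t) +
      -(2 * cos (π / 4) * q) • n)) = act (Rm n (π / 4))ᵀ y - ((t + q) • e0 + (t - q) • n) :=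
    fun y => by
      have c2 : 2 * cos (π / 4) * cos (π / 4) = 1 := by
        linear_combination sin_sq_add_cos_sq (π / 4) - (sin (π / 4) + cos (π / 4)) * c1
      rw [act_sub, sub_right_inj, ← Rm_neg, act_Rm, ← smul_e0]
      simp only [inner_add_right, inner_smul_right, inner_e0, hn.1, real_inner_self_eq_norm_sq,
        hn.2, cos_neg, sin_neg, c1, PiLp.add_apply, PiLp.smul_apply, e0_zero, smul_eq_mul]
      match_scalars
      · linear_combination (t + q) * c2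
      · linear_combination (t - q) * c2
  have r1 := fun f => d (α := π / 4) (f := f) rfl (by rw [c1, abs_of_pos c0])
  have r2 := fun f => d (α := -(π / 4)) (f := f) (cos_neg _)
    (by rw [sin_neg, abs_neg, c1, abs_of_pos c0])
  rw [← ContinuousLinearMap.mul_apply, ← h1.mul _ _ t0 q0]
  simp only [u, Finsupp.linearCombination_apply, Finsupp.sum, map_sum, map_smul, sum_inner,
    inner_smul_left]
  simp only [inner_sum, inner_smul_right]
  refine Finset.sum_congr rfl fun ⟨α, β, f, hf⟩ _ => congrArg _ (Finset.sum_congr rfl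
    fun ⟨γ, δ, g, hg⟩ _ => congrArg _ ?_)
  rw [gn, gn, hU _ _ _ _ (d0 hg) w0, h.rot _ (Rm n (-(π / 4))) sR (fun i j => ?_) _ _ _ _ _ _ (d0 hf)
    ((d0 hg).sh w0) (r2 _ hf) (by simpa only [e] using (r1 _ hg).sh s0)]
  · simp only [rv, map_sum, map_smul, sum_inner, inner_smul_left, Complex.conj_ofReal]
    simp only [inner_sum, inner_smul_right, hU _ _ _ _ (r1 _ hg) s0, e,
      Finset.mul_sum, ← mul_assoc, Complex.ofReal_mul]
  · by_cases a : i = 0 <;> by_cases b : j = 0 <;> simp [Rm, sr, a, b, hn.1, e0_ne, eq_comm (a := (0 : Fin 4))]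

theorem cone (h1 : Sg U) : ConeH U := fun n hn θ hθ t ht x => by
  have v0 : ∀ t s : ℝ, (t • e0 + s • n) 0 = t := by simp [hn.1]
  have p : ∀ {t : ℝ} (s : ℝ), 0 ≤ t → 0 ≤ (t • e0 + s • n) 0 := fun s ht =>
    ht.trans_eq (v0 _ s).symm
  obtain ⟨A, a1, a2, a3⟩ := S10.cone (T := fun t s => U (t • e0 + s • n))
    (fun t ht s => h1.nrm _ (p s ht))
    (fun t ht t' ht' s s' => by
      rw [← h1.mul _ _ (p s ht) (p s' ht'), add_add_add_comm, add_smul, add_smul, add_add_add_comm])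
    (fun t ht s x y => by
      rw [h1.adj _ (p s ht)]
      refine congrArg (fun v => inner ℂ x (U v y)) ?_
      ext i
      by_cases i0 : i = 0 <;> simp [i0, hn.1, rf_ne, e0_ne])
    hd
    (fun a _ => by
      simpa [h1.zero, Function.comp_def] using (((h1.cont a).comp
        (f := fun t : ℝ => t • e0 + (0 : ℝ) • n) (s := Ici 0) (by fun_prop) fun _ => p 0) 0
        self_mem_Ici).tendsto.mono_left (nhdsWithin_mono _ Ioi_subset_Ici_self))
    (Submodule.span ℂ (range (gn V {y | |inner ℝ n y| < y 0})))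
    (fun a ha => by
      refine Submodule.span_induction (p := fun a _ => ∀ᶠ t : ℝ in atTop, U (t • e0 + (0 : ℝ) • n) a ∈
        Submodule.span ℂ (range (gn V {y | |inner ℝ n y| < y 0}))) ?_ (by simp)
        (fun _ _ _ _ a b => (a.and b).mono fun t e => by simpa using add_mem e.1 e.2)
        (fun c _ _ a => a.mono fun t e => by simpa using Submodule.smul_mem _ c e) ha
      rintro _ ⟨⟨μ, ν, f, hf⟩, rfl⟩
      obtain ⟨R, hR⟩ := hf.2.1.isCompact.isBounded.exists_norm_le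
      filter_upwards [eventually_ge_atTop R, eventually_ge_atTop 0] with t ht t0
      rw [gn, hU _ _ _ _ hf (p 0 t0)]
      refine Submodule.subset_span ⟨⟨μ, ν, _, hf.self.comp (sub_sm _) (G := fun z => z + _)
        (by fun_prop) (sub_add_cancel · _) fun y hy => ?_⟩, rfl⟩
      have e1 : 0 < y 0 := hf.2.2 hy
      have e2 := abs_real_inner_le_norm n y
      simp only [mem_ofPred_eq, PiLp.add_apply, PiLp.smul_apply, e0_zero, inner_add_right,
        inner_smul_right, inner_e0, hn.1, hn.2, zero_mul, mul_zero, add_zero, smul_eq_mul]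
        at e2 ⊢
      linarith [hR y hy])
    (fun c hc => by
      obtain ⟨M, m⟩ := h.one hU h1 hn subset_rfl hc
      obtain ⟨M', m'⟩ := h.one hU h1 (n := -n) ⟨by simp [hn.1], by simp [hn.2]⟩ (by simp) hc
      refine ⟨max M M', fun b hb => (m b hb).congr (fun _ _ => rfl) (le_max_left _ _),
        fun a ha => (m' a ha).congr (fun b hb => ?_) (le_max_right _ _)⟩
      rw [add_comm b, smul_neg, ← neg_smul, neg_sub]) hθ.1 hθ.2
  exact ⟨fun s => inner ℂ x (A (t, s) x), (innerSL ℂ x).differentiable.comp_differentiableOn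
    ((a1.comp (f := fun s => ((t : ℂ), s)) (by fun_prop) fun s hs => hs).clm_apply
      (differentiableOn_const x)),
    fun s hs => (norm_inner_le_norm _ _).trans ((sq ‖x‖).symm ▸ mul_le_mul_of_nonneg_left
      (((A _).le_of_opNorm_le (a2 _ hs) x).trans_eq (one_mul _)) (norm_nonneg _)),
    fun s => by simp only [a3 t s ht]⟩

end V0

theorem Cur.flux' (h : Cur N W T) {r : ℝ} {Z : P} (hZ : Z ∈ N.loc (Bx r)) {ξ : R4 → ℝ}
    (hξ : ContDiff ℝ ∞ ξ) (hs : ∀ μ, Ds {y | ∃ l, r < |y l|} (pd μ ξ)) {Λ : Mat} (hΛ : Λᵀ = -Λ)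
    (e : R4) : ∑ μ, ∑ ν, cv W (T μ ν fun y => (act Λ y + e) ν * pd μ ξ y) Z = 0 := by
  obtain ⟨H, _, _, _, ⟨q⟩⟩ := h.st.exists_rep 0
  let v : Fin 4 → Fin 4 → (R4 → ℝ) → H := fun μ ν f => q.Ψ (ct W (T μ ν f))
  let S := Submodule.span ℂ (range (gn v (Hs 0 0)))
  let K := S.topologicalClosure
  have m : ∀ μ ν {f}, Ds (Hs 0 0) f → v μ ν f ∈ K := fun μ ν f hf =>
    S.le_topologicalClosure (Submodule.subset_span ⟨⟨μ, ν, f, hf⟩, rfl⟩)
  have t : ∀ μ ν f (u : R4), Ds (Hs 0 0) f → 0 ≤ u 0 →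
      q.T u (v μ ν f) = v μ ν fun y => f (y - u) := fun μ ν f u hf hu => by
    simp only [v, q.act hu (ct_mem (h.mem μ ν hf)), ← h.tau]
    simp only [ct, map_sub, map_smul, map_one, h.st.ti u (h.mem μ ν hf.univ)]
  let U : R4 → K →L[ℂ] K := fun u => K.orthogonalProjectionOnto ∘L q.T u ∘L K.subtypeL
  let V : Fin 4 → Fin 4 → (R4 → ℝ) → K := fun μ ν f => K.orthogonalProjectionOnto (v μ ν f)
  have pr : ∀ {x}, x ∈ K → (K.orthogonalProjectionOnto x : H) = x := fun {x} hx =>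
    congrArg Subtype.val (K.orthogonalProjectionOnto_mem_subspace_eq_self ⟨x, hx⟩)
  have c : ∀ u : R4, 0 ≤ u 0 → ∀ x : K, (U u x : H) = q.T u x := fun u hu x =>
    pr (S.topologicalClosure_minimal (t := K.comap (q.T u).toLinearMap)
      (Submodule.span_le.2 (by
        rintro _ ⟨⟨μ, ν, f, hf⟩, rfl⟩
        exact mem_of_eq_of_mem (s := (K : Set H)) (t μ ν f u hf hu) (m μ ν (hf.sh hu))))
      (S.isClosed_topologicalClosure.preimage (q.T u).continuous) x.2)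
  have hV : ∀ μ ν ρ σ f g, Ds (Hs 0 0) f → Ds (Hs 0 0) g →
      inner ℂ (V μ ν f) (V ρ σ g) = cv W (N.Θ 0 (T μ ν f)) (T ρ σ g) := fun μ ν ρ σ f g hf hg => by
    rw [Submodule.coe_inner, pr (m _ _ hf), pr (m _ _ hg), q.inn (ct_mem (h.mem _ _ hf))
      (ct_mem (h.mem _ _ hg)), cv_ct h.st 0 (h.mem _ _ hf)]
  have hU : ∀ μ ν f (u : R4), Ds (Hs 0 0) f → 0 ≤ u 0 →
      U u (V μ ν f) = V μ ν fun y => f (y - u) := fun μ ν f u hf hu => Subtype.ext (by
    rw [c u hu, pr (m _ _ hf), pr (m _ _ (hf.sh hu)), t _ _ _ _ hf hu])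
  have hd : Dense (Submodule.span ℂ (range (gn V (Hs 0 0))) : Set K) := by
    rw [Subtype.dense_iff]
    refine closure_mono (?_ : S ≤ (Submodule.span ℂ _).map K.subtype)
    rw [Submodule.map_span, ← range_comp]
    exact Submodule.span_mono (by rintro _ ⟨a, rfl⟩; exact ⟨a, pr (m _ _ a.2.2.2)⟩)
  have hn : ∀ u : R4, 0 ≤ u 0 → ‖U u‖ ≤ 1 := fun u hu =>
    (U u).opNorm_le_bound zero_le_one fun x => by
      rw [Submodule.coe_norm, c u hu]
      exact (q.T u).le_of_opNorm_le (q.nrm hu) _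
  have h1 : Sg U := ⟨?_, hn, fun u w hu hw => ?_, fun u hu x y => ?_, (h.v0 hV).cont hU hd hn⟩
  · exact h.flux h1 ((h.v0 hV).cone hU hd h1) hV hU hZ hξ hs hΛ e
  · refine ContinuousLinearMap.ext_on hd ?_
    rintro _ ⟨⟨μ, ν, f, hf⟩, rfl⟩
    simpa using hU μ ν f 0 hf le_rfl
  · refine ContinuousLinearMap.ext_on hd ?_
    rintro _ ⟨⟨μ, ν, f, hf⟩, rfl⟩
    rw [ContinuousLinearMap.mul_apply, gn, hU _ _ _ _ hf hw, hU _ _ _ _ (hf.sh hw) hu,
      hU _ _ _ _ hf (add_nonneg hu hw)]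
    simp only [sub_sub]
  · rw [Submodule.coe_inner, Submodule.coe_inner, c u hu, c _ (by simpa using hu), q.adj h.st hu]

theorem cv_far (hS : N.St W) (hu : N.Vac W) {a : R4} (a0 : 0 < a 0) (ha : ∀ μ, a μ ≠ 0) {Y Z : P}
    (hY : Y ∈ N.loc univ) (hZ : Z ∈ N.loc univ) :
    Tendsto (fun t : ℝ => cv W Y (N.τ (t • a) Z)) atTop (𝓝 0) := by
  obtain ⟨R, h1, h2⟩ := ((Net.box hY).and (Net.box hZ)).exists
  obtain ⟨s, hs⟩ : ∃ s, s * a 0 = R := ⟨_, div_mul_cancel₀ _ a0.ne'⟩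
  have m1 : N.Θ 0 (N.τ (-(s • a)) Y) ∈ N.loc (Hs 0 0) := by
    rw [N.Θ_τ]
    exact Net.τ_hs (Net.bx_hs (Net.Θ_bx (N.mono h1 inter_subset_right) 0) 0) (by simp [hs])
  have m2 : N.τ (s • a) Z ∈ N.loc (Hs 0 0) :=
    Net.τ_hs (Net.bx_hs (N.mono h2 inter_subset_right) 0) (by simp [hs])
  have := ((Lg.cluster hS hu a0 ha m1 m2).comp
    (tendsto_atTop_add_const_right _ (-(2 * s)) tendsto_id)).sub_const (W Y * W Z)
  rw [N.Θ_Θ, hS.ti _ hY, hS.ti _ hZ, sub_self] at this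
  refine this.congr' ((eventually_ge_atTop (2 * s)).mono fun t ht => ?_)
  have m := hS.ti (s • a) (Net.rp_adm m1 (Net.τ_hs (v := (t + -(2 * s)) • a) (t' := 0) m2 (by
    simpa [sub_eq_add_neg] using mul_nonneg (sub_nonneg.2 ht) a0.le)))
  rw [N.Θ_Θ] at m
  simp only [Function.comp, id, cv, hS.ti _ hZ, ← m]
  rw [map_mul, N.τ_τ, N.τ_τ, N.τ_τ, add_neg_cancel, N.τ_zero,
    show s • a + (t + -(2 * s)) • a + s • a = t • a by module]

theorem Ds.c1 {O f} (h : Ds O f) : C1 O f := ⟨h.2.1, h.1.of_le (by simp), h.2.2⟩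

end S3

namespace Sw
open S3 Lm Wv

variable {V : Type} [NormedAddCommGroup V] [NormedSpace ℝ V] {Φ : Fil V} {x : V → (R4 → ℝ) → P}
  {ρ : Ro.Iso →* V →ₗ[ℝ] V} {T : Fin 4 → Fin 4 → V} {A : ℝ → V ≃ₗ[ℝ] V} {S : Cor V}

theorem Rg.refl (h : Rg Φ N x W ρ A S) (hc : Cu Φ N x W ρ T) (l μ ν f) (hf : Ds univ f) :
    ∀ Z ∈ N.loc (tsupport fun y => f (rf l y))ᶜ, W (N.Θ l (x (T μ ν) f) * Z) =
      (sr l μ * sr l ν : ℝ) * W (x (T μ ν) (fun y => f (rf l y)) * Z) := fun Z hZ => by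
  have c := (hf.rf l).univ.c1
  have := h.linc 1 0 0 _ c Z hZ
  rw [h.gen.refl, hc.refl, ← add_zero (_ • _), h.linc _ _ _ _ c Z hZ,
    show W (x 0 _ * Z) = 0 by simpa using this, add_zero]

theorem Rg.memd (h : Rg Φ N x W ρ A S) (c : V) {O f} (hf : Ds O f) : x c f ∈ N.loc O := by
  simpa using gen_mem h.gen (fun _ : Fin 1 => c) (f := fun _ => f)
    ⟨fun _ => ⟨hf.2.1, hf.c1.2.1⟩, Subsingleton.pairwise⟩ fun _ => hf.2.2

variable (x W T) in
/-- covariance of the two point function of the tensor -/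
def Tc : Prop := ∀ R, SO R → ∀ α β γ δ f g, Ds univ f → Ds univ g →
  Disjoint (tsupport f) (tsupport g) → cv W (x (T α β) f) (x (T γ δ) g) = ∑ μ, ∑ ν, ∑ κ, ∑ σ,
    (R μ α * R ν β * (R κ γ * R σ δ) : ℝ) *
      cv W (x (T μ ν) fun y => f (act Rᵀ y)) (x (T κ σ) fun y => g (act Rᵀ y))

theorem Rg.cur (h : Rg Φ N x W ρ A S) (hc : Cu Φ N x W ρ T) (hr : Tc W x T)
    (hl : ∀ μ ν f, Ds (Hs 0 0) f → Tendsto
      (fun t => cv W (N.Θ 0 (x (T μ ν) f)) (N.τ (ax 0 t) (x (T μ ν) f))) atTop (𝓝 0)) :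
    Cur N W fun μ ν => x (T μ ν) := by
  refine ⟨h.st, fun μ ν _ _ => h.memd _, fun μ ν => (h.gen.tau · _), h.refl hc,
    fun μ ν f g t hf hg => h.lin _ f g t hf.c1 hg.c1, fun μ ν f _ Z _ => by rw [hc.sym], hc.con,
    fun μ ν κ σ A B hA hB d => ?_, hr, hl⟩
  obtain ⟨C, hC⟩ := h.bd 2 ![T μ ν, T κ σ] ![A, B] (by simp [Fin.forall_fin_two, hA, hB])
    (by simp [Pairwise, Fin.forall_fin_two, d, d.symm])
  obtain ⟨C1, h1⟩ := h.bd 1 ![T μ ν] ![A] (by simpa) Subsingleton.pairwise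
  obtain ⟨C2, h2⟩ := h.bd 1 ![T κ σ] ![B] (by simpa) Subsingleton.pairwise
  refine ⟨C + C1 * C2, fun f g a b hf hg ha hb => (norm_sub_le _ _).trans ?_⟩
  have e := hC ![f, g] ![a, b] (by simp [Fin.forall_fin_two, hf.c1, hg.c1, ha, hb])
  have e1 := h1 ![f] ![a] (by simp [hf.c1, ha])
  have e2 := h2 ![g] ![b] (by simp [hg.c1, hb])
  simp only [Fin.prod_univ_succ, Fin.prod_univ_zero, cons_val_zero, cons_val_succ, mul_one] at e e1 e2
  rw [norm_mul]
  linear_combination e + mul_le_mul e1 e2 (norm_nonneg _) ((norm_nonneg _).trans e1)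

theorem Rg.cur' (h : Rg Φ N x W ρ A S) (hc : Cu Φ N x W ρ T) (hr : Tc W x T) (hV : N.Vac W) :
    Cur N W fun μ ν => x (T μ ν) := h.cur hc hr fun μ ν f hf => by
  let R : Mat := (2⁻¹ : ℝ) • !![1, 1, 1, 1; 1, -1, 1, -1; 1, 1, -1, -1; 1, -1, -1, 1]
  have hR : SO R := ⟨by
    ext i j
    fin_cases i <;> fin_cases j <;> simp [R, Matrix.mul_apply, Fin.sum_univ_four] <;> norm_num, by
    simp [R, det_succ_row_zero, Fin.sum_univ_succ, Fin.succAbove]
    norm_num⟩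
  have a : ∀ μ, act R e0 μ = 2⁻¹ := fun μ => by fin_cases μ <;> simp [act_e0, R]
  have d : ∀ {g}, Ds univ g → Ds univ fun y => g (act Rᵀ y) := fun hg =>
    hg.comp (act_sm _) (act_sm R).continuous (fun y => by
      rw [← act_mul, hR.mul_transpose, act_one]) fun _ _ => trivial
  have := (tendsto_finsetSum Finset.univ fun α _ => tendsto_finsetSum Finset.univ fun β _ =>
    tendsto_finsetSum Finset.univ fun κ _ => tendsto_finsetSum Finset.univ fun σ _ =>
      (cv_far h.st hV (a := act R e0) (by simp [a]) (by simp [a])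
        (h.memd (T α β) (d (hf.rf 0).univ)) (h.memd (T κ σ) (d hf.univ))).const_mul
          ((R α μ * R β ν * (R κ μ * R σ ν) : ℝ) : ℂ)).const_mul ((sr 0 μ * sr 0 ν : ℝ) : ℂ)
  simp only [mul_zero, Finset.sum_const_zero] at this
  refine this.congr' ((eventually_ge_atTop 0).mono fun t ht => ?_)
  have g := hf.sh (u := ax 0 t) (by simpa using ht)
  have c : tsupport (fun y => f (rf 0 y)) ⊆ (Hs 0 0)ᶜ := (hf.rf 0).2.2.trans rf_hs
  beta_reduce
  rw [h.gen.tau, cv_r _ (x _ _), h.refl hc 0 μ ν f hf.univ _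
    (ct_mem (N.mono (h.memd _ g) (subset_compl_comm.1 c))), ← cv_r,
    hr R hR _ _ _ _ _ _ (hf.rf 0).univ g.univ (disjoint_left.2 fun y a b => c a (g.2.2 b))]
  simp only [h.gen.tau, act_sub, act_smul, ← act_mul, hR.1, act_one, smul_e0]

theorem nsb_of (h : Cur N W fun μ ν => x (T μ ν)) : Nsb N x W T := fun l _ _ hZ _ hξ hs =>
  h.flux' hZ hξ.1 hs (by
    ext i j
    fin_cases l <;> fin_cases i <;> fin_cases j <;> simp [om]) 0

end Sw

end Pool.Agent.Lib.MP_7f377f_mp
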