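import Mathlib

/-! The atom at zero of a measure on the half line is determined by the moments. -/

noncomputable section

namespace Pool.Agent.Lib.MP_7f377f_mp.S3

open MeasureTheory Set Filter Topology Nat

/-- `L` is the mass at zero of the moment sequence `s` -/
def Rp (s : ℕ → ℂ) (L : ℂ) : Prop := ∃ C : ℝ → ℂ, AnalyticOnNhd ℝ C univ ∧
  (∀ᶠ t in 𝓝 (0 : ℝ), HasSum (fun k => (((-1) ^ k * t ^ (2 * k) / (2 * k)! : ℝ) : ℂ) * s k) (C t)) ∧
  Tendsto (fun T : ℝ => ∫ u in (0 : ℝ)..1, C (u * T)) atTop (𝓝 L)

variable {s s' : ℕ → ℂ} {L L' : ℂ}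

theorem Rp.add (h : Rp s L) (h' : Rp s' L') : Rp (fun k => s k + s' k) (L + L') := by
  obtain ⟨C, a, b, c⟩ := h
  obtain ⟨C', a', b', c'⟩ := h'
  refine ⟨fun t => C t + C' t, a.add a', (b.and b').mono fun t e => by
    simpa only [mul_add] using e.1.add e.2, (c.add c').congr fun T => ?_⟩
  have := continuousOn_univ.1 a.continuousOn
  have := continuousOn_univ.1 a'.continuousOn
  exact (intervalIntegral.integral_add (Continuous.intervalIntegrable (by fun_prop) _ _)
    (Continuous.intervalIntegrable (by fun_prop) _ _)).symm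

theorem Rp.mul (h : Rp s L) (c : ℂ) : Rp (fun k => c * s k) (c * L) := by
  obtain ⟨C, a, b, e⟩ := h
  exact ⟨fun t => c * C t, analyticOnNhd_const.mul a, b.mono fun t e => by
    simpa only [mul_left_comm c] using e.mul_left c,
    (e.const_mul c).congr fun T => (intervalIntegral.integral_const_mul ..).symm⟩

theorem Rp.uniq (h : Rp s L) (h' : Rp s L') : L = L' := by
  obtain ⟨C, a, b, c⟩ := h
  obtain ⟨C', a', b', c'⟩ := h'
  obtain rfl := a.eq_of_eventuallyEq a' ((b.and b').mono fun t e => e.1.unique e.2)
  exact tendsto_nhds_unique c c'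

theorem Rp.one (h : ∀ k, s (k + 1) = 0) : Rp s (s 0) :=
  ⟨fun _ => s 0, analyticOnNhd_const, .of_forall fun t => by
    have := hasSum_single (f := fun k => (((-1) ^ k * t ^ (2 * k) / (2 * k)! : ℝ) : ℂ) * s k) 0
      (fun k e => by rw [← Nat.succ_pred e, h, mul_zero]) (.unconditional _)
    rwa [show (-1) ^ 0 * t ^ (2 * 0) / (2 * 0)! = 1 by simp, Complex.ofReal_one, one_mul] at this,
    by simp⟩

theorem trig_le (z : ℂ) :
    ‖Complex.cos z‖ ≤ Real.exp |z.im| ∧ ‖Complex.sin z‖ ≤ Real.exp |z.im| := by
  have a : ‖Complex.exp (z * .I)‖ ≤ Real.exp |z.im| := by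
    simpa [Complex.norm_exp] using neg_le_abs z.im
  have b : ‖Complex.exp (-z * .I)‖ ≤ Real.exp |z.im| := by
    simpa [Complex.norm_exp] using le_abs_self z.im
  simp only [Complex.cos, Complex.sin, norm_div, norm_mul, Complex.norm_I, Complex.norm_two]
  constructor <;> linarith [norm_add_le_of_le a b, norm_sub_le_of_le b a]

theorem Rp.int {X : Type*} [MeasurableSpace X] (μ : Measure X) [IsFiniteMeasure μ] {m : X → ℝ}
    (hm : Measurable m) (m0 : ∀ᵐ p ∂μ, 0 ≤ m p) {c : ℝ} (c0 : 0 < c) {w : X → ℂ}
    (hw : AEStronglyMeasurable w μ) (i : Integrable (fun p => Real.exp (c * √(m p)) * ‖w p‖) μ) :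
    Rp (fun k => ∫ p, (m p : ℂ) ^ k * w p ∂μ) (∫ p in {p | m p = 0}, w p ∂μ) := by
  have e1 : ∀ p, 1 ≤ Real.exp (c * √(m p)) := fun p => Real.one_le_exp (by positivity)
  have iw : Integrable w μ := i.mono' hw (.of_forall fun p =>
    le_mul_of_one_le_left (norm_nonneg _) (e1 p))
  have q : ∀ {f : ℝ → ℂ}, Continuous f → AEStronglyMeasurable (fun p => f √(m p) * w p) μ :=
    fun hf => (hf.measurable.comp hm.sqrt).aestronglyMeasurable.mul hw
  have o : IsOpen {z : ℂ | |z.im| < c / 2} := isOpen_lt (by fun_prop) continuous_const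
  have b : ∀ p (z : ℂ), |z.im| < c / 2 → Real.exp |(z * √(m p)).im| ≤ Real.exp (c / 2 * √(m p)) :=
    fun p z hz => by
      rw [Complex.im_mul_ofReal, abs_mul, abs_of_nonneg (Real.sqrt_nonneg _)]
      gcongr
  have d : DifferentiableOn ℂ (fun z : ℂ => ∫ p, Complex.cos (z * √(m p)) * w p ∂μ)
      {z : ℂ | |z.im| < c / 2} := fun z hz =>
    (hasDerivAt_integral_of_dominated_loc_of_deriv_le (o.mem_nhds hz)
      (F' := fun z p => -Complex.sin (z * √(m p)) * √(m p) * w p)
      (.of_forall fun z => q (f := fun s => Complex.cos (z * s)) (by fun_prop))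
      (i.mono' (q (f := fun s => Complex.cos (z * s)) (by fun_prop)) (.of_forall fun p =>
        norm_mul_le_of_le (((trig_le _).1.trans (b p z hz)).trans (by gcongr; linarith)) le_rfl))
      (q (f := fun s => -Complex.sin (z * s) * s) (by fun_prop)) (.of_forall fun p z hz => by
        rw [← mul_assoc]
        refine norm_mul_le_of_le ?_ le_rfl
        rw [norm_mul, norm_neg, Complex.norm_real, Real.norm_of_nonneg (Real.sqrt_nonneg _),
          show c * √(m p) = c / 2 * √(m p) + c / 2 * √(m p) by ring, Real.exp_add, mul_left_comm]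
        gcongr
        · exact (trig_le _).2.trans (b p z hz)
        · rw [div_mul_eq_mul_div, le_div_iff₀ c0]
          linarith [Real.add_one_le_exp (c / 2 * √(m p))]) (i.const_mul (2 / c))
      (.of_forall fun p z _ => (((hasDerivAt_mul_const _).ccos).mul_const
        _))).2.differentiableAt.differentiableWithinAt
  refine ⟨fun t => ∫ p, Real.cos (t * √(m p)) * w p ∂μ, fun t _ => ?_, ?_, ?_⟩
  · have := ((d.analyticAt (o.mem_nhds (show |(t : ℂ).im| < c / 2 by simpa))).restrictScalars
      (𝕜 := ℝ)).comp (Complex.ofRealCLM.analyticAt t)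
    simpa [Function.comp_def] using this
  · filter_upwards [Icc_mem_nhds (neg_lt_zero.2 c0) c0] with t ht
    simp only [← integral_const_mul, ← mul_assoc]
    refine hasSum_integral_of_dominated_convergence
      (fun k p => (c * √(m p)) ^ (2 * k) / (2 * k)! * ‖w p‖)
      (fun k => Measurable.aestronglyMeasurable (by fun_prop) |>.mul hw)
      (fun k => m0.mono fun p e => norm_mul_le_of_le ?_ le_rfl)
      (.of_forall fun p => (Real.hasSum_cosh _).summable.mul_right _)
      (i.mono' ?_ (.of_forall fun p => ?_)) (m0.mono fun p e => .mul_right _ ?_)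
    · rw [mul_pow c, pow_mul (√_), Real.sq_sqrt e, mul_div_right_comm (c ^ _)]
      rw [norm_mul, norm_pow, Complex.norm_real, Complex.norm_real, norm_div, norm_mul, norm_pow,
        norm_pow, norm_neg, norm_one, one_pow, one_mul, Real.norm_natCast, Real.norm_of_nonneg e]
      gcongr
      exact abs_le.2 ht
    · simp only [tsum_mul_right, ← Real.cosh_eq_tsum]
      exact Measurable.aestronglyMeasurable (by fun_prop) |>.mul hw.norm
    · rw [tsum_mul_right, ← Real.cosh_eq_tsum, Real.norm_of_nonneg (by positivity), Real.cosh_eq]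
      gcongr
      linarith [Real.exp_le_exp.2 (neg_le_self (show 0 ≤ c * √(m p) by positivity))]
    · have := Complex.hasSum_ofReal.2 (Real.hasSum_cos (t * √(m p)))
      simpa only [mul_pow t, pow_mul (√_), Real.sq_sqrt e, ← mul_assoc, mul_div_right_comm,
        Complex.ofReal_mul _ (m p ^ _), Complex.ofReal_pow (m p)] using this
  · have a : ∀ x : ℝ, ∫ u in (0 : ℝ)..1, (Real.cos (u * x) : ℂ) = Real.sinc x := fun x => by
      rw [intervalIntegral.integral_ofReal]
      by_cases e : x = 0
      · simp [e]
      · rw [intervalIntegral.integral_comp_mul_right _ e, Real.sinc_of_ne_zero e]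
        simp [div_eq_inv_mul]
    rw [← integral_indicator (s := {p | m p = 0}) (hm (measurableSet_singleton 0))]
    refine (tendsto_integral_filter_of_dominated_convergence
      (F := fun T p => Real.sinc (T * √(m p)) * w p) _
      (.of_forall fun T => q (f := fun s => Real.sinc (T * s))
        (Complex.continuous_ofReal.comp (Real.continuous_sinc.comp (by fun_prop))))
      (.of_forall fun T => .of_forall fun p => (norm_mul_le_of_le ((Complex.norm_real _).trans_le
        (Real.abs_sinc_le_one _)) le_rfl).trans_eq (one_mul _)) iw.norm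
      (m0.mono fun p e => ?_)).congr fun T => ?_
    · by_cases z : m p = 0
      · simp [z]
      have r := Real.sqrt_pos.2 (e.lt_of_ne' z)
      rw [indicator_of_notMem (by simpa), ← zero_mul (w p), ← Complex.ofReal_zero]
      refine .mul_const _ (Complex.continuous_ofReal.continuousAt.tendsto.comp ?_)
      refine squeeze_zero_norm' ((eventually_gt_atTop 0).mono fun T hT => ?_)
        (tendsto_id.atTop_mul_const r).inv_tendsto_atTop
      have := mul_pos hT r
      rw [Real.sinc_of_ne_zero this.ne', norm_div, Real.norm_of_nonneg this.le, Pi.inv_apply,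
        ← one_div]
      exact div_le_div_of_nonneg_right (Real.abs_sin_le_one _) this.le
    · rw [intervalIntegral_integral_swap]
      · simp only [intervalIntegral.integral_mul_const, mul_assoc, a]
      rw [uIoc_of_le zero_le_one]
      exact (iw.comp_snd _).bdd_mul (c := 1) (Measurable.aestronglyMeasurable (by fun_prop))
        (.of_forall fun x => (Complex.norm_real _).trans_le (Real.abs_cos_le_one _))

end Pool.Agent.Lib.MP_7f377f_mp.S3
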