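import Pool.Agent.Lib.MP_7f377f_mp.G.SbDef

/-! The product of two fields at short distance: the input from the renormalisation group. -/

noncomputable section

namespace Pool.Agent.Lib.MP_7f377f_mp.Ope
variable [Pool.Agent.Lib.MP_7f377f_mp.GD]
set_option linter.unusedSectionVars false

open Filter Topology Set Real YM7 Pur MvPolynomial

/-- centring -/
def ctr (S : Pol →ₗ[ℂ] ℂ) (Y : Pol) : Pol := Y - C (S Y)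

/-- arrays with one letter in a cell: a field or the centred composite `Y` of size `η` -/
def Mx (S : Pol →ₗ[ℂ] ℂ) (Y : (R4 → ℝ) → Pol) (e : ℕ) (δ K η : ℝ) : Prop :=
  ∀ (lo hi : Fin 4 → ℤ) (k : ℕ) (c : Fin k → Fin 4 → ℤ) (f : Fin k → R4 → ℝ) (T : Finset (Fin k)),
    Adm f → Function.Injective c → (∀ i, c i ∈ cells lo hi) →
    (∀ i, LipschitzWith 1 (f i) ∧ ∀ y, |f i y| ≤ 1 ∧ (f i y ≠ 0 → ∀ l,
      c i l * (3 ^ e)⁻¹ + δ ≤ y l ∧ y l ≤ (c i l + 1) * (3 ^ e)⁻¹ - δ)) →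
    ‖S (∏ i, if i ∈ T then ctr S (Y (f i)) else X (f i))‖ ≤
      exp (K * (cells lo hi).card) * η ^ T.card

/-- coefficients depending on two scales and the mesh -/
abbrev Co : Type := ℝ → ℝ → ℕ → ℝ

/-- the combination of `Y` at the scale `d` and `Y'` at the scale `d'` -/
def cb (Y Y' : Let) (c c' : Co) (d d' : ℝ) (e : ℕ) (f : R4 → ℝ) : Pol :=
  (c d d' e : ℂ) • Y d e f + (c' d d' e : ℂ) • Y' d' e f

/-- the relation `c Y + c' Y' = 0` for arrays at the scale one and for clusters at the scale `D` -/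
structure Rel (S : Pol →ₗ[ℂ] ℂ) (D : ℝ → ℝ) (a : ℝ) (Y Y' : Let) (c c' : Co) : Prop where
  mix : ∀ s : ℕ, ∃ᶠ e₀ in atTop, ∃ K, ∀ᶠ d in 𝓝[>] (0 : ℝ), ∀ d' ∈ Icc (d / 2) d, ∀ᶠ e in atTop,
    Mx S (cb Y Y' c c' d d' e) e₀ (3 ^ (e₀ + s))⁻¹ K (d ^ a)
  sca : ∀ k ≤ 2, ∀ f (g : Fin k → R4 → ℝ), Adm (Fin.cons f g : Fin (k + 1) → _) → ∃ K,
    ∀ᶠ d₀ in 𝓝[>] (0 : ℝ), ∀ d ∈ Ioc 0 d₀, ∀ d' ∈ Icc (d / 2) d, ∀ᶠ e in atTop,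
      log d₀⁻¹ ^ (k + 2) * ‖cv S (cb Y Y' c c' d d' e (sc (D d₀) f))
        (mon fun i => sc (D d₀) (g i))‖ ≤ K * (d / D d₀) ^ a

/-- the input of the soft part -/
structure PIn (S : Pol →ₗ[ℂ] ℂ) (h₀ : R4 → ℝ) (D : ℝ → ℝ) (a : ℝ) : Prop where
  pos : 0 < a
  r1 : ∀ h, Rd h → ∃ c, Rel S D a (Y1 h) Y0 (fun _ _ _ => 1) c
  r3 : ∀ h, Rd h → ∀ θ, ∃ c c' : Co, (∀ d d' e, |c d d' e| + |c' d d' e| = 1) ∧
    Rel S D a (Y3 h θ) (Y3 h₀ 0) c c'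
  r6 : ∀ θ, ∃ c c' : Co, (∀ d d' e, |c d d' e| + |c' d d' e| = 1) ∧
    Rel S D a (Y6 h₀ θ) (Y6 h₀ (π / 4)) c c'

/-- the two scale law, uniformly for comparable small scales -/
def Ts2 (S : Pol →ₗ[ℂ] ℂ) (D : ℝ → ℝ) (κ : (R4 → ℝ) → ℝ) (F : Fr) : Prop :=
  ∀ k ≤ 2, ∀ h, Rd h → ∀ n : R4, ‖n‖ = 1 → ∀ f (g : Fin k → R4 → ℝ),
    Adm (Fin.cons f g : Fin (k + 1) → _) → ∀ η > 0, ∀ᶠ d in 𝓝[>] (0 : ℝ), ∀ d' ∈ Icc (d / 2) d,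
      ‖((log d⁻¹ ^ (k + 2) : ℝ) : ℂ) * Ai S (hn h n) d' (sc (D d) f) (mon fun i => sc (D d) (g i)) -
        ((κ h * ∑ μ, ∑ ν, n μ * n ν * F k μ ν f g : ℝ) : ℂ)‖ ≤ η

end Pool.Agent.Lib.MP_7f377f_mp.Ope
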