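import Pool.Agent.Lib.MP_7f377f_mp.G.SbA
import Pool.Agent.Lib.MP_7f377f_mp.G.SbP

/-! From arrays with one letter in each cell to operator bounds for arbitrary data. -/

noncomputable section

namespace Pool.Agent.Lib.MP_7f377f_mp.Ope
variable [Pool.Agent.Lib.MP_7f377f_mp.GD]
set_option linter.unusedSectionVars false

open Filter Topology Set Real YM7 Pur PN MvPolynomial Metric
open scoped NNReal

/-- local linear letters which are covariant under the grid of mesh `3 ^ -e` -/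
structure Gl (S : Pol →ₗ[ℂ] ℂ) (e : ℕ) (r : ℝ) (Y : (R4 → ℝ) → Pol) : Prop where
  loc : ∀ {O f}, Gd O f → Y f ∈ net.loc (thickening r O)
  tau : ∀ {O f} x, Gd O f → net.τ (gp e x) (Y f) = Y fun y => f (y - gp e x)
  lin : ∀ {O} {I : Type} (s : Finset I) {g : I → R4 → ℝ}, (∀ z, Gd O (g z)) → ∀ (c : I → ℝ) {Z},
    Z ∈ net.loc (thickening r O)ᶜ →
      S (Y (∑ z ∈ s, c z • g z) * Z) = ∑ z ∈ s, c z * S (Y (g z) * Z)

/-- parity under the reflections -/
def Sg (s : Fin 4 → ℝ) (Y : (R4 → ℝ) → Pol) : Prop := ∀ μ, s μ * s μ = 1 ∧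
  ∀ {O f}, Gd O f → net.Θ μ (Y f) = (s μ : ℂ) • Y fun y => f (rf μ y)

/-- words -/
def wd {k : ℕ} (Y : (R4 → ℝ) → Pol) (T : Finset (Fin k)) (f : Fin k → R4 → ℝ) : Pol :=
  ∏ i, if i ∈ T then Y (f i) else X (f i)

variable {S : Pol →ₗ[ℂ] ℂ} {e e' k : ℕ} {r K η δ : ℝ} {Y Y' : (R4 → ℝ) → Pol} {s : Fin 4 → ℝ}
  {O : Set R4} {f : R4 → ℝ}

theorem C_mem (O : Set R4) (κ : ℂ) : (C κ : Pol) ∈ net.loc O := by
  simpa [smul_eq_C_mul] using Submodule.smul_mem _ κ (net.one O)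

theorem gp_mul (e s : ℕ) (x : Fin 4 → ℤ) : gp (e + s) (fun l => 3 ^ s * x l) = gp e x := by
  ext l
  simp only [gp, pow_add]
  push_cast
  field_simp

theorem Gl.mono (h : Gl S e r Y) (he : e' ≤ e) : Gl S e' r Y :=
  ⟨h.loc, fun x a => by
    obtain ⟨s, rfl⟩ := Nat.exists_eq_add_of_le he
    rw [← gp_mul e' s, h.tau _ a], h.lin⟩

theorem gl_X (hL : LinP S) (r0 : 0 < r) : Gl S e r X :=
  ⟨fun a => net.mono a.mem (self_subset_thickening r0 _), fun _ _ => rename_X _ _,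
    fun s _ a c _ hZ => one_slot hL s a c
      (net.mono hZ (compl_subset_compl.2 (self_subset_thickening r0 _)))⟩

theorem sg_X : Sg 1 X := fun μ => ⟨mul_one _, fun {_ f} _ => by
  simpa [mon] using Θ_mon μ ![f]⟩

theorem Gl.add (h : Gl S e r Y) (h' : Gl S e r Y') : Gl S e r fun f => Y f + Y' f :=
  ⟨fun a => add_mem (h.loc a) (h'.loc a), fun x a => by rw [map_add, h.tau x a, h'.tau x a],
    fun s _ a c _ hZ => by
      simp only [add_mul, map_add, h.lin s a c hZ, h'.lin s a c hZ, mul_add, Finset.sum_add_distrib]⟩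

theorem Gl.smul (h : Gl S e r Y) (t : ℂ) : Gl S e r fun f => t • Y f :=
  ⟨fun a => Submodule.smul_mem _ _ (h.loc a), fun x a => by rw [map_smul, h.tau x a],
    fun s _ a c _ hZ => by
      simp only [smul_mul_assoc, map_smul, h.lin s a c hZ, smul_eq_mul, Finset.mul_sum,
        mul_left_comm t]⟩

theorem Gl.sub (h : Gl S e r Y) (h' : Gl S e r Y') : Gl S e r fun f => Y f - Y' f := by
  simpa only [neg_smul, one_smul, sub_eq_add_neg] using h.add (h'.smul (-1))

theorem Sg.comb (h : Sg s Y) (h' : Sg s Y') (t t' : ℝ) :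
    Sg s fun f => (t : ℂ) • Y f + (t' : ℂ) • Y' f := fun μ => ⟨(h μ).1, fun a => by
  simp only [map_add, net.Θ_smul, Complex.conj_ofReal, (h μ).2 a, (h' μ).2 a, smul_add,
    smul_comm (s μ : ℂ)]⟩

theorem ctr_eq (S : Pol →ₗ[ℂ] ℂ) (Y : Pol) : ctr S Y = Y - S Y • 1 := by simp [ctr, smul_eq_C_mul]

theorem Gl.ctr (h : Gl S e r Y) (hS : net.St S) : Gl S e r fun f => ctr S (Y f) :=
  ⟨fun a => sub_mem (h.loc a) (C_mem _ _), fun x a => by
    rw [ctr_eq, ctr_eq, map_sub, map_smul, map_one, ← h.tau x a, hS.ti _ (Net.adm (h.loc a))],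
    fun s _ a c _ hZ => by
      have := h.lin s a c (net.one _)
      simp only [mul_one] at this
      simp only [ctr_eq, sub_mul, map_sub, h.lin s a c hZ, this, smul_mul_assoc, map_smul,
        smul_eq_mul, one_mul, mul_sub, Finset.sum_sub_distrib, Finset.sum_mul, mul_assoc]⟩

theorem Sg.ctr (h : Sg s Y) (g : Gl S e r Y) (hS : net.St S) : Sg s fun f => ctr S (Y f) :=
  fun μ => ⟨(h μ).1, fun a => by
    beta_reduce
    rw [ctr_eq, ctr_eq, map_sub, net.Θ_smul, map_one, ← hS.herm μ (Net.adm (g.loc a)), (h μ).2 a,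
      map_smul, smul_sub, smul_smul, smul_eq_mul]⟩

theorem prod_adm {I : Type} {O : I → Set R4} (hO : Pairwise fun i j => Disjoint (O i) (O j))
    {T : I → Pol} (hT : ∀ i, T i ∈ net.loc (O i)) (s : Finset I) :
    ∏ i ∈ s, T i ∈ net.loc (⋃ i, O i) := by
  classical
  suffices ∏ i ∈ s, T i ∈ net.loc (⋃ i ∈ s, O i) from
    net.mono this (iUnion_mono fun _ => iUnion_subset fun _ => subset_rfl)
  induction s using Finset.induction_on with
  | empty => simpa using net.one _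
  | insert i s hi ih =>
    rw [Finset.prod_insert hi, Finset.set_biUnion_insert]
    exact net.mul (hT i) ih (disjoint_iUnion₂_right.2 fun j hj => hO fun e => hi (e ▸ hj))

/-- expansion in all slots -/
theorem gl_sum {I : Type} [Fintype I] {ℓ : Fin k → (R4 → ℝ) → Pol} (h : ∀ i, Gl S e r (ℓ i))
    {g : Fin k → I → R4 → ℝ} {O : Fin k → Set R4}
    (hO : Pairwise fun i j => Disjoint (thickening r (O i)) (thickening r (O j)))
    (hg : ∀ i z, Gd (O i) (g i z)) (c : Fin k → I → ℝ) :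
    ∀ Z ∈ net.loc (⋃ i, thickening r (O i))ᶜ, S ((∏ i, ℓ i (∑ z, c i z • g i z)) * Z) =
      ∑ z : Fin k → I, (∏ i, c i (z i) : ℝ) * S ((∏ i, ℓ i (g i (z i))) * Z) := by
  induction k with
  | zero => intro Z _; simp
  | succ k ih =>
    intro Z hZ
    obtain ⟨o1, -, o2⟩ := pairwise_fin_succ_iff.1 hO
    have u1 := iUnion_subset fun i : Fin k => subset_iUnion (fun i => thickening r (O i)) i.succ
    have u2 := disjoint_iUnion_left.2 o1
    have u3 := subset_iUnion (fun i => thickening r (O i)) 0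
    rw [Fin.prod_univ_succ, mul_assoc, (h 0).lin _ (hg 0) _ (net.mono (net.mul (prod_adm o2
      (fun i => (h _).loc (Gd.sum _ (hg _) _)) _) hZ (disjoint_compl_right.mono_left u1))
      (union_subset u2.subset_compl_right (compl_subset_compl.2 u3))),
      ← (Fin.consEquiv fun _ => I).sum_comp, Fintype.sum_prod_type]
    refine Finset.sum_congr rfl fun z _ => ?_
    rw [mul_left_comm, ih (fun i => h i.succ) o2 (fun i => hg i.succ) _ _ (net.mono
      (net.mul ((h 0).loc (hg 0 z)) hZ (disjoint_compl_right.mono_left u3))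
      (union_subset u2.subset_compl_left (compl_subset_compl.2 u1))), Finset.mul_sum]
    refine Finset.sum_congr rfl fun w _ => ?_
    simp only [Fin.prod_univ_succ, Fin.consEquiv_apply, Fin.cons_zero, Fin.cons_succ]
    rw [mul_left_comm (∏ i, _), ← mul_assoc (ℓ 0 _)]
    push_cast
    ring

theorem exists_res {N : ℕ} (hN : 3 * k < N) (c : Fin k → ℤ) : ∃ j : ℤ, 0 ≤ j ∧ j < N ∧
    ∀ i, 2 ≤ (c i + j) % N ∧ (c i + j) % N ≤ N - 2 := by
  obtain ⟨j, hj, h⟩ := Finset.exists_mem_notMem_of_card_lt_card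
    (s := Finset.univ.image fun p : Fin k × Fin 3 => ((p.2 : ℤ) - 1 - c p.1) % N)
    (t := Finset.Ico (0 : ℤ) N) (Finset.card_image_le.trans_lt (by simp; omega))
  rw [Finset.mem_Ico] at hj
  refine ⟨j, hj.1, hj.2, fun i => ?_⟩
  have key : ∀ t : Fin 3, ¬ (N : ℤ) ∣ c i + j - (t - 1) := fun t ht =>
    h (Finset.mem_image.2 ⟨(i, t), Finset.mem_univ _, by
      rw [← Int.emod_eq_of_lt hj.1 hj.2]
      exact (Int.emod_emod_of_dvd _ dvd_rfl).symm.trans ((Int.emod_emod_of_dvd _ dvd_rfl).trans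
        (Int.modEq_of_dvd (by rwa [show j - ((t : ℤ) - 1 - c i) = c i + j - (t - 1) by ring])))⟩)
  have h1 := Int.emod_nonneg (c i + j) (show (N : ℤ) ≠ 0 by omega)
  have h2 := Int.emod_lt_of_pos (c i + j) (show (0 : ℤ) < N by omega)
  have h3 := Int.mul_ediv_add_emod (c i + j) N
  generalize (c i + j) % N = r at *
  generalize (c i + j) / N = q at *
  have h4 : r ≠ 0 := fun e => key 1 ⟨q, by simp [← h3, e]⟩
  have h5 : r ≠ 1 := fun e => key 2 ⟨q, by simp [← h3, e]⟩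
  have h6 : r ≠ N - 1 := fun e => key 0 ⟨q + 1, by simp [← h3, e]; ring⟩
  omega

theorem thick_box {lo hi : Fin 4 → ℝ} (h : ∀ y, f y ≠ 0 → ∀ l, lo l ≤ y l ∧ y l ≤ hi l) {y : R4}
    (hy : y ∈ thickening r (tsupport f)) (l : Fin 4) : lo l - r < y l ∧ y l < hi l + r := by
  obtain ⟨z, hz, e⟩ := mem_thickening_iff.1 hy
  have e1 := tsupp_box h hz l
  have e2 := abs_lt.1 ((PiLp.dist_apply_le y z l).trans_lt e)
  constructor <;> linarith [e1.1, e1.2, e2.1, e2.2]

theorem sep_thick {A : Fin k → Set R4} (h : ∀ i j, i ≠ j → ∀ x ∈ A i, ∀ y ∈ A j, δ ≤ dist x y)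
    (hr : 2 * r ≤ δ) : Pairwise fun i j => Disjoint (thickening r (A i)) (thickening r (A j)) :=
  fun i j hij => disjoint_left.2 fun y hi hj => by
    obtain ⟨x, hx, e⟩ := mem_thickening_iff.1 hi
    obtain ⟨z, hz, e'⟩ := mem_thickening_iff.1 hj
    linarith [h i j hij x hx z hz, dist_triangle_left x z y]

/-- array bound for words -/
def My (S : Pol →ₗ[ℂ] ℂ) (Y : (R4 → ℝ) → Pol) (e : ℕ) (δ K η : ℝ) : Prop :=
  ∀ (lo hi : Fin 4 → ℤ) (k : ℕ) (c : Fin k → Fin 4 → ℤ) (f : Fin k → R4 → ℝ) (T : Finset (Fin k)),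
    Adm f → Function.Injective c → (∀ i, c i ∈ cells lo hi) →
    (∀ i, LipschitzWith 1 (f i) ∧ ∀ y, |f i y| ≤ 1 ∧ (f i y ≠ 0 → ∀ l,
      c i l * (3 ^ e)⁻¹ + δ ≤ y l ∧ y l ≤ (c i l + 1) * (3 ^ e)⁻¹ - δ)) →
    ‖S (wd Y T f)‖ ≤ exp (K * (cells lo hi).card) * η ^ T.card

variable {T : Finset (Fin k)} {g : Fin k → R4 → ℝ} {A : Fin k → Set R4}

theorem wd_eq (Y : (R4 → ℝ) → Pol) (T : Finset (Fin k)) (g : Fin k → R4 → ℝ) :
    wd Y T g = ∏ i, (if i ∈ T then Y else X) (g i) := by simp only [wd, ite_apply]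

theorem wd_Θ (hs : Sg s Y) (hg : ∀ i, Gd (A i) (g i)) (μ : Fin 4) :
    net.Θ μ (wd Y T g) = ((s μ ^ T.card : ℝ) : ℂ) • wd Y T fun i y => g i (rf μ y) := by
  rw [wd, map_prod, Finset.prod_congr rfl (g := fun i => (if i ∈ T then (s μ : ℂ) else 1) •
    if i ∈ T then Y fun y => g i (rf μ y) else X fun y => g i (rf μ y)) fun i _ => ?_,
    Finset.prod_smul, Fintype.prod_ite_mem, Finset.prod_const, Complex.ofReal_pow, wd]
  split_ifs
  exacts [(hs μ).2 (hg i), (sg_X μ).2 (hg i)]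

variable (hS : net.St S) (hL : LinP S) (hY : Gl S e r Y) (r0 : 0 < r)
include hL hY r0

theorem gl_ite (i : Fin k) : Gl S e r (if i ∈ T then Y else X) := by
  split_ifs
  exacts [hY, gl_X hL r0]

theorem wd_mem (hg : ∀ i, Gd (A i) (g i))
    (hO : Pairwise fun i j => Disjoint (thickening r (A i)) (thickening r (A j))) :
    wd Y T g ∈ net.loc (⋃ i, thickening r (A i)) :=
  wd_eq Y T g ▸ prod_adm hO (fun i => (gl_ite hL hY r0 i).loc (hg i)) _

theorem wd_τ (hg : ∀ i, Gd (A i) (g i)) (x : Fin 4 → ℤ) :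
    net.τ (gp e x) (wd Y T g) = wd Y T fun i y => g i (y - gp e x) := by
  simp only [wd_eq, map_prod, fun i => (gl_ite (T := T) hL hY r0 i).tau x (hg i)]

include hS

theorem cut_cell (hs : Sg s Y) (rδ : r ≤ δ) (η0 : 0 ≤ η) (hA : My S Y e δ K η) {M : ℕ} (M0 : 0 < M)
    {c : Fin k → Fin 4 → ℤ} (g1 : ∀ i, ContDiff ℝ 1 (g i)) (c1 : Function.Injective c)
    (c2 : ∀ i l, 0 ≤ c i l ∧ c i l < M) (g2 : ∀ i, LipschitzWith 1 (g i) ∧ ∀ y, |g i y| ≤ 1 ∧
      (g i y ≠ 0 → ∀ l, c i l * (3 ^ e)⁻¹ + δ ≤ y l ∧ y l ≤ (c i l + 1) * (3 ^ e)⁻¹ - δ)) :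
    net.QB S (wd Y T g) (2 * (M * (3 ^ e)⁻¹)) (exp (K * M ^ 4) * η ^ T.card) := by
  have ea : ∀ μ, ax μ (2 * (M * (3 ^ e)⁻¹)) = gp e (Pi.single μ (2 * M)) := fun μ => by
    ext l
    by_cases h : l = μ <;> simp [gp, h, mul_comm, mul_left_comm, mul_assoc]
  rw [My] at hA
  obtain ⟨w, hw⟩ : ∃ s : ℝ, (3 ^ e)⁻¹ = s := ⟨_, rfl⟩
  have s0 : 0 < w := by rw [← hw]; positivity
  have δ0 := r0.trans_le rδ
  simp only [hw] at hA g2 ea ⊢
  obtain ⟨d, d1, d2⟩ : ∃ d : (Fin 4 → ℤ) → Fin k → Fin 4 → ℤ,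
      (∀ a i l, d a i l = if Even (a l) then a l * M + c i l else (a l + 1) * M - c i l - 1) ∧
      ∀ a i y, g i (fo (M * w) a y) ≠ 0 → ∀ l,
        d a i l * w + δ ≤ y l ∧ y l ≤ (d a i l + 1) * w - δ := by
    refine ⟨_, fun _ _ _ => rfl, fun a i y hy l => ?_⟩
    have := ((g2 i).2 _).2 hy l
    by_cases e : Even (a l) <;> simp only [fo, e, if_true, if_false] at this ⊢ <;> push_cast <;>
      constructor <;> linarith [this.1, this.2]
  have d3 : ∀ a i l, a l * M ≤ d a i l ∧ d a i l < (a l + 1) * M := fun a i l => by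
    have := c2 i l
    rw [d1]
    split_ifs <;> constructor <;> linarith [this.1, this.2]
  have d4 : ∀ a i a' i', d a i = d a' i' → a = a' ∧ i = i' := fun a i a' i' u => by
    have M1 : (0 : ℤ) ≤ M := Int.natCast_nonneg M
    obtain rfl : a = a' := funext fun l => by
      have e1 := d3 a i l
      have e2 := d3 a' i' l
      rw [u] at e1
      have e3 := lt_of_mul_lt_mul_right (e1.1.trans_lt e2.2) M1
      have e4 := lt_of_mul_lt_mul_right (e2.1.trans_lt e1.2) M1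
      omega
    refine ⟨rfl, c1 (funext fun l => ?_)⟩
    have := congrFun u l
    rw [d1, d1] at this
    split_ifs at this <;> omega
  have d5 : ∀ a i, Gd (tsupport fun y => g i (fo (M * w) a y)) fun y => g i (fo (M * w) a y) :=
    fun a i => ⟨cpt_box (d2 a i), (g1 i).comp (fo_smooth _ a), subset_rfl⟩
  have d6 : ∀ a i, ∀ y ∈ thickening r (tsupport fun y => g i (fo (M * w) a y)), ∀ l,
      d a i l * w < y l ∧ y l < (d a i l + 1) * w := fun a i y hy l => by
    have := thick_box (d2 a i) hy l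
    constructor <;> linarith [this.1, this.2]
  obtain ⟨σ, hσ⟩ : ∃ σ : (Fin 4 → ℤ) → ℝ, ∀ a, σ a = ∏ μ, if Even (a μ) then 1 else s μ ^ T.card :=
    ⟨_, fun _ => rfl⟩
  have t1 : ∀ μ, s μ ^ T.card * s μ ^ T.card = 1 := fun μ => by rw [← mul_pow, (hs μ).1, one_pow]
  have t2 : ∀ a, |σ a| = 1 := fun a => by
    rw [hσ, Finset.abs_prod]
    refine Finset.prod_eq_one fun μ _ => ?_
    split_ifs
    exacts [abs_one, by rcases mul_self_eq_one_iff.1 (t1 μ) with e | e <;> simp [e]]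
  have := Net.qb_of_arr hS (w := M * w) (η := exp (K * M ^ 4) * η ^ T.card) (by positivity)
    (by positivity) (fun a => (σ a : ℂ) • wd Y T fun i y => g i (fo (M * w) a y)) (fun a => ?_)
    (fun μ a => ?_) (fun μ a => ?_) fun lo hi => ?_
  · simpa [fo_zero, hσ] using this
  · refine Submodule.smul_mem _ _ (net.mono (wd_mem hL hY r0 (d5 a) fun i j hij =>
      disjoint_left.2 fun y hi hj => hij (d4 a i a j (funext fun l => ?_)).2)
      (iUnion_subset fun i y hy l => ?_))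
    · have e1 := d6 a i y hi l
      have e2 := d6 a j y hj l
      have e3 : (d a i l : ℝ) < d a j l + 1 := lt_of_mul_lt_mul_right (e1.1.trans e2.2) s0.le
      have e4 : (d a j l : ℝ) < d a i l + 1 := lt_of_mul_lt_mul_right (e2.1.trans e1.2) s0.le
      have e5 : d a i l < d a j l + 1 := by exact_mod_cast e3
      have e6 : d a j l < d a i l + 1 := by exact_mod_cast e4
      omega
    · have e1 := d6 a i y hy l
      have e2 : (a l * M : ℝ) ≤ d a i l := by exact_mod_cast (d3 a i l).1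
      have e3 : (d a i l + 1 : ℝ) ≤ (a l + 1) * M := by exact_mod_cast (d3 a i l).2
      constructor <;> nlinarith [e1.1, e1.2]
  · rw [net.Θ_smul, wd_Θ hs (d5 a), smul_smul, Complex.conj_ofReal, ← Complex.ofReal_mul]
    simp only [fo_rf]
    congr 2
    rw [hσ, hσ, ← Finset.mul_prod_erase _ _ (Finset.mem_univ μ),
      ← Finset.mul_prod_erase _ _ (Finset.mem_univ μ), mul_right_comm]
    refine congrArg₂ _ ?_ (Finset.prod_congr rfl fun ν hν => by
      rw [Function.update_of_ne (Finset.ne_of_mem_erase hν)])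
    by_cases e : Even (a μ) <;> simp [e, ← Int.not_even_iff_odd, Int.even_sub, t1]
  · rw [map_smul, ea, wd_τ hL hY r0 (d5 a), ← ea]
    simp only [fo_ax]
    congr 2
    rw [hσ, hσ]
    refine Finset.prod_congr rfl fun ν _ => ?_
    by_cases e : ν = μ <;> simp [e, Int.even_add]
  · let φ := (Fintype.equivFin (cells lo hi × Fin k)).symm
    have e1 : Function.Injective fun j => d (φ j).1 (φ j).2 := fun j j' u =>
      φ.injective (Prod.ext (Subtype.ext (d4 _ _ _ _ u).1) (d4 _ _ _ _ u).2)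
    have e2 := adm_cells (F := fun j y => g (φ j).2 (fo (M * w) (φ j).1 y)) s0 δ0
      (fun j => (g1 _).comp (fo_smooth _ _)) e1 fun j => d2 _ _
    have e3 : ∏ a ∈ cells lo hi, wd Y T (fun i y => g i (fo (M * w) a y)) =
        wd Y (Finset.univ.filter fun j => (φ j).2 ∈ T)
          fun j y => g (φ j).2 (fo (M * w) (φ j).1 y) := by
      simp only [wd, Finset.mem_filter, Finset.mem_univ, true_and]
      rw [← Finset.prod_coe_sort, φ.prod_comp fun p : cells lo hi × Fin k =>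
        if p.2 ∈ T then Y fun y => g p.2 (fo (M * w) p.1 y) else X fun y => g p.2 (fo (M * w) p.1 y),
        Fintype.prod_prod_type]
    have e4 : (Finset.univ.filter fun j => (φ j).2 ∈ T).card = T.card * (cells lo hi).card := by
      rw [Finset.card_equiv (t := Finset.univ ×ˢ T) φ (by simp), Finset.card_product, mul_comm]
      simp
    rw [Finset.prod_smul, e3, map_smul, norm_smul, norm_prod]
    simp only [Complex.norm_real, norm_eq_abs, t2, Finset.prod_const_one, one_mul]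
    refine (hA (fun l => lo l * M) (fun l => hi l * M) _ _ _ _ e2 e1 (fun j => ?_) fun j =>
      ⟨one_mul (1 : ℝ≥0) ▸ (g2 _).1.comp (fo_lip _ _), fun y => ⟨((g2 _).2 _).1, d2 _ _ y⟩⟩).trans_eq ?_
    · refine Fintype.mem_piFinset.2 fun l => Finset.mem_Ico.2 ?_
      have u1 := Finset.mem_Ico.1 (Fintype.mem_piFinset.1 (φ j).1.2 l)
      have u2 := d3 (φ j).1 (φ j).2 l
      have M1 : (0 : ℤ) ≤ M := Int.natCast_nonneg M
      exact ⟨(mul_le_mul_of_nonneg_right u1.1 M1).trans u2.1,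
        u2.2.trans_le (mul_le_mul_of_nonneg_right u1.2 M1)⟩
    · rw [card_cells, e4, mul_pow, ← exp_nat_mul, pow_mul]
      push_cast
      congr 2
      ring

theorem cut_zero (hg : ∀ i, Gd (A i) (g i))
    (hO : Pairwise fun i j => Disjoint (thickening r (A i)) (thickening r (A j))) {R : ℝ}
    (R0 : 0 ≤ R) (hR : ∀ i, thickening r (A i) ⊆ Bx R) {i : Fin k} (hi : g i = 0) :
    net.QB S (wd Y T g) R 0 := by
  refine Net.qb_null (net.mono (wd_mem hL hY r0 hg hO) (iUnion_subset hR)) R0 hS fun Z hZ => ?_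
  have := gl_sum (I := Unit) (g := fun j _ => g j) (gl_ite (T := T) hL hY r0) hO (fun j _ => hg j)
    (fun j _ => if j = i then 0 else 1) Z (net.mono hZ (compl_subset_compl.2 (iUnion_subset hR)))
  simp only [show ∀ j, ∑ _z : Unit, (if j = i then (0 : ℝ) else 1) • g j = g j from fun j => by
    by_cases e : j = i <;> simp [e, hi]] at this
  rw [wd_eq, this]
  refine Finset.sum_eq_zero fun z _ => ?_
  rw [Finset.prod_eq_zero (Finset.mem_univ i) (by simp), Complex.ofReal_zero, zero_mul]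

omit hY in
theorem cut_piece (hs : Sg s Y) {t D : ℕ} (hY : Gl S (e + t) r Y) (ht : 3 * k < 3 ^ t)
    (hr : r ≤ (3 ^ (e + t))⁻¹) (η0 : 0 ≤ η) (hA : My S Y e (3 ^ (e + t))⁻¹ K η)
    (hδ : 2 * (3 ^ e)⁻¹ < δ) {c : Fin k → Fin 4 → ℤ} (g1 : ∀ i, Gd (A i) (g i))
    (c1 : ∀ i l, 0 ≤ c i l ∧ c i l ≤ 2 * D) (g2 : ∀ i, LipschitzWith 1 (g i) ∧ ∀ y, |g i y| ≤ 1 ∧
      (g i y ≠ 0 → ∀ l, |y l - (3 ^ (e + t))⁻¹ * (c i l - D : ℤ)| ≤ (3 ^ (e + t))⁻¹))
    (g3 : ∀ i j, i ≠ j → ∀ x ∈ A i, ∀ y ∈ A j, δ ≤ dist x y) :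
    net.QB S (wd Y T g) (6 * D + 2 * 3 ^ t + 4) (exp (K * (2 * D + 3 ^ t : ℕ) ^ 4) * η ^ T.card) := by
  have hC := fun g c => cut_cell hS hL (hY.mono (Nat.le_add_right e t)) r0 hs hr η0 hA (T := T)
    (g := g) (c := c) (M := 2 * D + 3 ^ t) (Nat.add_pos_right _ (by positivity))
  choose j j0 j1 hj using fun l => exists_res ht fun i => c i l
  have hτ := fun g hg => wd_τ hL hY r0 (T := T) (A := fun _ => univ) (g := g) hg
    (-fun l => D + j l)
  have hv : ∀ l, gp (e + t) (-fun l => D + j l) l = -((3 ^ (e + t))⁻¹ * (D + j l)) := fun l => by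
    simp only [gp, Pi.neg_apply]
    push_cast
    ring
  have hw : ((3 : ℝ) ^ e)⁻¹ = (3 ^ (e + t))⁻¹ * (3 ^ t : ℕ) := by
    rw [pow_add]
    push_cast
    field_simp
  have w1 : ((3 : ℝ) ^ e)⁻¹ ≤ 1 := inv_le_one_of_one_le₀ (one_le_pow₀ (by norm_num))
  have n1 : (1 : ℝ) ≤ (3 ^ t : ℕ) := Nat.one_le_cast.2 (Nat.one_le_pow _ _ three_pos)
  have ε0 : (0 : ℝ) < (3 ^ (e + t))⁻¹ := inv_pos.2 (pow_pos three_pos _)
  rw [show (3 : ℝ) ^ t = (3 ^ t : ℕ) by norm_cast]
  generalize gp (e + t) (-fun l => D + j l) = v at hτ hv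
  obtain ⟨ε, hε⟩ : ∃ ε, ((3 : ℝ) ^ (e + t))⁻¹ = ε := ⟨_, rfl⟩
  obtain ⟨w, hw'⟩ : ∃ w, ((3 : ℝ) ^ e)⁻¹ = w := ⟨_, rfl⟩
  obtain ⟨N, hN⟩ : ∃ N : ℕ, 3 ^ t = N := ⟨_, rfl⟩
  simp only [hε, hw', hN] at hC j1 hj hv hw w1 n1 ε0 hr hδ g2 ⊢
  have εw : ε ≤ w := hw ▸ le_mul_of_one_le_right ε0.le n1
  have D0 : 0 ≤ ε * D := by positivity
  have D1 : ε * D ≤ D := mul_le_of_le_one_left D.cast_nonneg (εw.trans w1)
  by_cases h0 : ∃ i, g i = 0
  · obtain ⟨i, hi⟩ := h0
    refine (cut_zero hS hL hY r0 (A := fun i => tsupport (g i)) (fun i => ⟨(g1 i).1, (g1 i).2.1,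
      subset_rfl⟩) ((sep_thick g3 (by linarith)).mono fun i j e => e.mono
        (thickening_subset_of_subset _ (g1 i).2.2) (thickening_subset_of_subset _ (g1 j).2.2))
      (by positivity) (fun j y hy l => ?_) hi).mono hS le_rfl (by positivity)
    have e1 := thick_box (lo := fun l => ε * (c j l - D : ℤ) - ε) (hi := fun l =>
      ε * (c j l - D : ℤ) + ε) (fun y hy l => abs_sub_le_iff.1 (((g2 j).2 y).2 hy l) |>.symm.imp
        (by intro; linarith) (by intro; linarith)) hy l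
    have e2 : (0 : ℝ) ≤ c j l := by exact_mod_cast (c1 j l).1
    have e3 : (c j l : ℝ) ≤ 2 * D := by exact_mod_cast (c1 j l).2
    push_cast at e1
    rw [abs_lt]
    constructor <;> nlinarith [e1.1, e1.2]
  have key : ∀ i y, g i (y + v) ≠ 0 → ∀ l, ((c i l + j l) / N : ℤ) * w + ε ≤ y l ∧
      y l ≤ (((c i l + j l) / N : ℤ) + 1) * w - ε := by
    intro i y hy l
    have e1 : (N * ((c i l + j l) / N : ℤ) + ((c i l + j l) % N : ℤ) : ℝ) = c i l + j l := by
      exact_mod_cast Int.mul_ediv_add_emod (c i l + j l) N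
    have e2 : (2 : ℝ) ≤ ((c i l + j l) % N : ℤ) := by exact_mod_cast (hj l i).1
    have e3 : (((c i l + j l) % N : ℤ) : ℝ) ≤ N - 2 := by exact_mod_cast (hj l i).2
    have e4 := abs_le.1 (((g2 i).2 _).2 hy l)
    have e5 := congrArg (ε * ·) e1
    have e6 := mul_le_mul_of_nonneg_left e2 ε0.le
    have e7 := mul_le_mul_of_nonneg_left e3 ε0.le
    rw [PiLp.add_apply, hv, Int.cast_sub, Int.cast_natCast] at e4
    rw [hw]
    constructor <;> linarith [e4.1, e4.2]
  have g4 : ∀ i, Gd univ fun y => g i (y + v) := fun i =>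
    ⟨cpt_box (key i), (g1 i).2.1.comp (contDiff_id.add contDiff_const), subset_univ _⟩
  have := (hC (fun i y => g i (y + v)) (fun i l => (c i l + j l) / N) (fun i => (g4 i).2.1)
    (fun i i' u => ?_) (fun i l => ?_) fun i => ⟨?_, fun y => ⟨((g2 i).2 _).1, key i y⟩⟩).tau hS v
  · rw [hτ _ g4] at this
    simp only [sub_add_cancel] at this
    refine this.mono hS ?_ le_rfl
    have : dist v 0 ≤ 2 * (D + 1) := dist_le_two fun l => by
      have e4 : (0 : ℝ) ≤ j l := by exact_mod_cast j0 l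
      have e5 : (j l : ℝ) ≤ N := by exact_mod_cast (j1 l).le
      rw [PiLp.zero_apply, sub_zero, hv, abs_neg, abs_of_nonneg (by positivity)]
      nlinarith
    rw [dist_zero_right] at this
    push_cast
    nlinarith [mul_le_of_le_one_right (show (0 : ℝ) ≤ 2 * D + N by positivity) w1]
  · by_contra hi
    simp only [not_exists, _root_.funext_iff, not_forall] at h0
    obtain ⟨x, hx⟩ := h0 i
    obtain ⟨y, hy⟩ := h0 i'
    refine (g3 i i' hi x ((g1 i).2.2 (subset_tsupport _ hx)) y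
      ((g1 i').2.2 (subset_tsupport _ hy))).not_gt ((dist_le_two fun l => ?_).trans_lt hδ)
    have e1 := key i (x - v) (by rwa [sub_add_cancel]) l
    have e2 := key i' (y - v) (by rwa [sub_add_cancel]) l
    rw [show (c i l + j l) / N = (c i' l + j l) / N from congrFun u l] at e1
    rw [PiLp.sub_apply] at e1 e2
    rw [abs_le]
    constructor <;> linarith [e1.1, e1.2, e2.1, e2.2]
  · have e1 := c1 i l
    have e2 := j0 l
    have e3 := j1 l
    exact ⟨Int.ediv_nonneg (by omega) (by omega),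
      (Int.ediv_le_self _ (by omega)).trans_lt (by omega)⟩
  · exact .of_dist_le_mul fun x y => ((g2 i).1.dist_le_mul _ _).trans_eq (by rw [dist_add_right])

end Pool.Agent.Lib.MP_7f377f_mp.Ope
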