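import Pool.Agent.Lib.MP_7f377f_mp.G.S10L6
import Pool.Agent.Lib.MP_7f377f_mp.G.LgQM
import Pool.Agent.Lib.MP_7f377f_mp.G.LgPI
import Pool.Agent.Lib.MP_7f377f_mp.StA

/-! The product of two fields at short distance: definitions and interfaces. -/

noncomputable section

namespace Pool.Agent.Lib.MP_7f377f_mp.Ope
variable [Pool.Agent.Lib.MP_7f377f_mp.GD]
set_option linter.unusedSectionVars false

open MeasureTheory Filter Topology Set Real YM7 Pur MvPolynomial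

/-- the pair of fields at the position `z` and the scale `d` -/
def pr (u : R4 → ℝ) (d : ℝ) (z : R4) : Pol :=
  X (fun y => u (d⁻¹ • (y - z))) * X fun y => u (d⁻¹ • (z - y))

/-- truncated correlation -/
def cv (W : Pol →ₗ[ℂ] ℂ) (Y Z : Pol) : ℂ := W (Y * Z) - W Y * W Z

/-- the smeared pair in correlation functions -/
def Ai (W : Pol →ₗ[ℂ] ℂ) (u : R4 → ℝ) (d : ℝ) (f : R4 → ℝ) (Z : Pol) : ℂ :=
  ((d ^ 4)⁻¹ : ℝ) * ∫ z, f z * cv W (pr u d z) Z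

/-- the points of the grid of mesh `3 ^ -e` -/
def gp (e : ℕ) (x : Fin 4 → ℤ) : R4 := WithLp.toLp 2 fun l => (3 ^ e)⁻¹ * x l

/-- the smeared pair as a Riemann sum -/
def Yr (u : R4 → ℝ) (d : ℝ) (e : ℕ) (f : R4 → ℝ) : Pol :=
  ∑ᶠ x : Fin 4 → ℤ, ((((3 ^ e)⁻¹ / d) ^ 4 * f (gp e x) : ℝ) : ℂ) • pr u d (gp e x)

/-- radial profiles -/
def Rd (h : R4 → ℝ) : Prop := ContDiff ℝ 1 h ∧ tsupport h ⊆ Metric.ball 0 1 ∧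
  ∀ x y, ‖x‖ = ‖y‖ → h x = h y

/-- the profile centred at `n` -/
def hn (h : R4 → ℝ) (n y : R4) : ℝ := h (y - n)

/-- directions in the plane `(0, 1)` -/
def nt (θ : ℝ) : R4 := cos θ • ee 0 + sin θ • ee 1

section
variable {M : Type} [AddCommGroup M]

/-- the scalar combination -/
def t1 (F : R4 → M) : M := ∑ μ, F (ee μ)

/-- even under all reflections, odd under the exchange of the axes `0` and `1` -/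
def t3 (θ : ℝ) (F : R4 → M) : M :=
  F (nt θ) + F (nt (-θ)) - F (nt (π / 2 - θ)) - F (nt (π / 2 + θ))

/-- odd under the reflections of the axes `0` and `1` -/
def t6 (θ : ℝ) (F : R4 → M) : M :=
  F (nt θ) - F (nt (-θ)) + F (nt (π / 2 - θ)) - F (nt (π / 2 + θ))

end

/-- letters: scale, mesh, test function -/
abbrev Let : Type := ℝ → ℕ → (R4 → ℝ) → Pol

/-- the scalar letter -/
def Y1 (h : R4 → ℝ) : Let := fun d e f => t1 fun n => Yr (hn h n) d e f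

/-- the letters of the three dimensional representation -/
def Y3 (h : R4 → ℝ) (θ : ℝ) : Let := fun d e f => t3 θ fun n => Yr (hn h n) d e f

/-- the letters of the six dimensional representation -/
def Y6 (h : R4 → ℝ) (θ : ℝ) : Let := fun d e f => t6 θ fun n => Yr (hn h n) d e f

/-- the field itself -/
def Y0 : Let := fun _ _ f => X f

/-- dilation of a test function -/
def sc (D : ℝ) (f : R4 → ℝ) (y : R4) : ℝ := f (D⁻¹ • y)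

/-- admissible data -/
def Dt (f : R4 → ℝ) (Z : Pol) : Prop := Adm ![f] ∧ Z ∈ net.loc (tsupport f)ᶜ

/-- `Y` is small up to a constant, alone and together with `Z` -/
def Nl (S : Pol →ₗ[ℂ] ℂ) (R : ℝ) (Y Z : Pol) (η : ℝ) : Prop :=
  ∃ κ : ℂ, net.QB S ((Y - C κ) * Z) R η ∧ net.QB S (Y - C κ) R η

/-- the relation `c Y + c' Y' = 0` at the scale one relative to `N⁻¹` and at the scale `D` -/
structure RelS (S : Pol →ₗ[ℂ] ℂ) (N : ℝ → ℕ → ℝ) (D : ℝ → ℝ) (Y Y' : Let) (c c' : ℝ → ℕ → ℝ) :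
    Prop where
  one : ∀ k f (g : Fin k → R4 → ℝ), Adm (Fin.cons f g : Fin (k + 1) → _) → ∀ η > 0,
    ∀ᶠ d in 𝓝[>] (0 : ℝ), ∀ᶠ e in atTop, ∃ R, Nl S R (((N d e * c d e : ℝ) : ℂ) • Y d e f +
      ((N d e * c' d e : ℝ) : ℂ) • Y' d e f) (mon g) η
  sca : ∀ k ≤ 2, ∀ f (g : Fin k → R4 → ℝ), Adm (Fin.cons f g : Fin (k + 1) → _) → ∀ η > 0,
    ∀ᶠ d in 𝓝[>] (0 : ℝ), ∀ᶠ e in atTop, log d⁻¹ ^ (k + 2) * ‖cv S ((c d e : ℂ) • Y d e (sc (D d) f) +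
      (c' d e : ℂ) • Y' d e (sc (D d) f)) (mon fun i => sc (D d) (g i))‖ ≤ η

/-- the letter `Y`, normalised by `N`, converges -/
structure RefS (S : Pol →ₗ[ℂ] ℂ) (N : ℝ → ℕ → ℝ) (D : ℝ → ℝ) (Y : Let) : Prop where
  bdd : ∀ᶠ d in 𝓝[>] (0 : ℝ), ∃ B, ∀ᶠ e in atTop, B⁻¹ ≤ |N d e| ∧ |N d e| ≤ B ∧ 0 < B
  cau : ∀ k f (g : Fin k → R4 → ℝ), Adm (Fin.cons f g : Fin (k + 1) → _) → ∃ R, ∀ η > 0,
    ∀ᶠ d in 𝓝[>] (0 : ℝ), ∀ d' ∈ Ioc 0 d, ∀ᶠ e : ℕ × ℕ in atTop ×ˢ atTop, Nl S R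
      ((N d e.1 : ℂ) • Y d e.1 f - (N d' e.2 : ℂ) • Y d' e.2 f) (mon g) η
  cas : ∀ k ≤ 2, ∀ f (g : Fin k → R4 → ℝ), Adm (Fin.cons f g : Fin (k + 1) → _) → ∀ η > 0,
    ∀ᶠ d in 𝓝[>] (0 : ℝ), ∀ d' ∈ Ioc 0 d, ∀ᶠ e in atTop, log d⁻¹ ^ (k + 2) *
      ‖cv S ((N d e : ℂ) • Y d e (sc (D d) f) - (N d' e : ℂ) • Y d' e (sc (D d) f))
        (mon fun i => sc (D d) (g i))‖ ≤ η * |N d e|

/-- the input of the soft part, for the limit functional `S` -/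
structure SIn (S : Pol →ₗ[ℂ] ℂ) (h₀ : R4 → ℝ) (N N' : ℝ → ℕ → ℝ) (D : ℝ → ℝ) : Prop where
  f3 : RefS S N D (Y3 h₀ 0)
  f6 : RefS S N' D (Y6 h₀ (π / 4))
  r1 : ∀ h, Rd h → ∃ c : ℝ → ℕ → ℝ, (∀ᶠ d in 𝓝[>] (0 : ℝ), ∃ B, ∀ᶠ e in atTop, |c d e| ≤ B) ∧
    RelS S N D (Y1 h) Y0 (fun _ _ => 1) c
  r3 : ∀ h, Rd h → ∀ θ, ∃ c c' : ℝ → ℕ → ℝ, (∀ d e, |c d e| + |c' d e| = 1) ∧
    RelS S N D (Y3 h θ) (Y3 h₀ 0) c c'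
  r6 : ∀ θ, ∃ c c' : ℝ → ℕ → ℝ, (∀ d e, |c d e| + |c' d e| = 1) ∧
    RelS S N' D (Y6 h₀ θ) (Y6 h₀ (π / 4)) c c'

/-- smeared three point functions -/
abbrev Fr : Type := ∀ k, Fin 4 → Fin 4 → (R4 → ℝ) → (Fin k → R4 → ℝ) → ℝ

/-- the two scale law for the limit functional -/
structure TsS (S : Pol →ₗ[ℂ] ℂ) (h₀ : R4 → ℝ) (D : ℝ → ℝ) (κ : (R4 → ℝ) → ℝ) (F : Fr) : Prop where
  rd : Rd h₀
  ne : κ h₀ ≠ 0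
  le : ∀ᶠ d in 𝓝[>] (0 : ℝ), d ≤ D d
  lim : Tendsto D (𝓝[>] 0) (𝓝 0)
  rat : Tendsto (fun d => d / D d) (𝓝[>] 0) (𝓝 0)
  ts : ∀ k ≤ 2, ∀ h, Rd h → ∀ n : R4, ‖n‖ = 1 → ∀ f (g : Fin k → R4 → ℝ),
    Adm (Fin.cons f g : Fin (k + 1) → _) → Tendsto (fun d => ((log d⁻¹ ^ (k + 2) : ℝ) : ℂ) *
      Ai S (hn h n) d (sc (D d) f) (mon fun i => sc (D d) (g i))) (𝓝[>] 0)
      (𝓝 ((κ h * ∑ μ, ∑ ν, n μ * n ν * F k μ ν f g : ℝ) : ℂ))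
  sym : ∀ k μ ν f g, F k μ ν f g = F k ν μ f g
  tr : ∀ k f g, ∑ μ, F k μ μ f g = 0
  nd : ∃ f g, Adm (Fin.cons f g : Fin 3 → _) ∧ F 2 0 0 f g ≠ F 2 1 1 f g

/-- the traceless part of the normalised pair in the direction `n` -/
def qq (W : Pol →ₗ[ℂ] ℂ) (h₀ : R4 → ℝ) (M : ℝ → ℝ) (f : R4 → ℝ) (Z : Pol) (n : R4) : ℂ :=
  limUnder (𝓝[>] (0 : ℝ)) fun d =>
    M d * (Ai W (hn h₀ n) d f Z - 4⁻¹ * t1 fun m => Ai W (hn h₀ m) d f Z)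

/-- the tensor field -/
def Th (W : Pol →ₗ[ℂ] ℂ) (h₀ : R4 → ℝ) (M : ℝ → ℝ) (μ ν : Fin 4) (f : R4 → ℝ) (Z : Pol) : ℂ :=
  pl (qq W h₀ M f Z) (ee μ) (ee ν)

/-- the states which inherit the bounds of `S` -/
structure Sub (S W : Pol →ₗ[ℂ] ℂ) : Prop where
  one : W 1 = 1
  dom : net.Dom S W
  rot : Lg.Rot W

/-- the tensor field `T W` of the states `W` below `S` -/
structure Out (S : Pol →ₗ[ℂ] ℂ) (D : ℝ → ℝ) (κ : (R4 → ℝ) → ℝ) (F : Fr) (M : ℝ → ℝ)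
    (T : (Pol →ₗ[ℂ] ℂ) → Fin 4 → Fin 4 → (R4 → ℝ) → Pol → ℂ) : Prop where
  ne : ∀ᶠ d in 𝓝[>] (0 : ℝ), M d ≠ 0
  sym : ∀ W μ ν f Z, T W μ ν f Z = T W ν μ f Z
  tr : ∀ W, Sub S W → ∀ f Z, Dt f Z → ∑ μ, T W μ μ f Z = 0
  ope : ∀ h, Rd h → ∃ c : ℝ → ℝ, Tendsto (fun d => c d * log d / M d) (𝓝[>] 0) (𝓝 0) ∧
    ∀ W, Sub S W → ∀ n : R4, ‖n‖ = 1 → ∀ f Z, Dt f Z →
      Tendsto (fun d => M d * Ai W (hn h n) d f Z - c d * cv W (X f) Z) (𝓝[>] 0)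
        (𝓝 (κ h * ∑ μ, ∑ ν, (n μ * n ν : ℝ) * T W μ ν f Z))
  cov : ∀ W, Sub S W → ∀ g : Ro.Iso, Ro.Inv W g → ∀ f Z, Dt f Z → ∀ μ ν,
    T W μ ν f Z = ∑ i, ∑ j, (g (ee μ) i * g (ee ν) j : ℝ) *
      T W i j (fun y => f (g.symm y)) (Ro.act g Z)
  lin : ∀ W, Sub S W → ∀ μ ν (c : ℝ) f f' Z, Dt f Z → Dt f' Z →
    T W μ ν (f + c • f') Z = T W μ ν f Z + c * T W μ ν f' Z
  linZ : ∀ W, Sub S W → ∀ μ ν (c : ℂ) f Z Z', Dt f Z → Dt f Z' →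
    T W μ ν f (Z + c • Z') = T W μ ν f Z + c * T W μ ν f Z'
  ts : ∀ k ≤ 2, ∀ μ ν f (g : Fin k → R4 → ℝ), Adm (Fin.cons f g : Fin (k + 1) → _) →
    Tendsto (fun d => ((log d⁻¹ ^ (k + 2) / M d : ℝ) : ℂ) *
      T S μ ν (sc (D d) f) (mon fun i => sc (D d) (g i))) (𝓝[>] 0) (𝓝 (F k μ ν f g))
  dom : ∀ W, Sub S W → ∀ (m : ℕ) (a : Fin m → ℂ) (μ ν : Fin m → Fin 4) (f : Fin m → R4 → ℝ)
    (β : ℂ) (u : R4 → ℝ) (Z E : Pol), (∀ i, Dt (f i) Z) → Dt u Z → E ∈ net.loc univ →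
    (∀ᶠ R in atTop, ∀ B ∈ net.loc (Ot R),
      ∑ i, a i * T S (μ i) (ν i) (f i) (net.Θ 0 B * Z * B) + β * cv S (X u) (net.Θ 0 B * Z * B) =
        S (net.Θ 0 B * E * B) ∧
      ∑ i, a i * T S (μ i) (ν i) (f i) (net.Θ 0 B * B) + β * cv S (X u) (net.Θ 0 B * B) = 0) →
    ∑ i, a i * T W (μ i) (ν i) (f i) Z + β * cv W (X u) Z = W E

/-- the normalised letters converge to components of the tensor field -/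
structure Lnk (S : Pol →ₗ[ℂ] ℂ) (h₀ : R4 → ℝ) (N N' : ℝ → ℕ → ℝ)
    (T : Fin 4 → Fin 4 → (R4 → ℝ) → Pol → ℂ) : Prop where
  a3 : ∃ ρ : ℝ, ρ ≠ 0 ∧ ∀ f Z, Dt f Z → ∀ η > 0, ∀ᶠ d in 𝓝[>] (0 : ℝ), ∀ᶠ e in atTop,
    ‖N d e * cv S (Y3 h₀ 0 d e f) Z - ρ * (T 0 0 f Z - T 1 1 f Z)‖ ≤ η
  a6 : ∃ ρ : ℝ, ρ ≠ 0 ∧ ∀ f Z, Dt f Z → ∀ η > 0, ∀ᶠ d in 𝓝[>] (0 : ℝ), ∀ᶠ e in atTop,
    ‖N' d e * cv S (Y6 h₀ (π / 4) d e f) Z - ρ * T 0 1 f Z‖ ≤ η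

variable [MeasurableSpace SU2] [BorelSpace SU2] (h : Measure SU2) [h.IsHaarMeasure]
  [IsProbabilityMeasure h] {ι : Type} (Φ : Filter ι) (n : ι → ℕ) [∀ p, NeZero (n p)] (a b : ι → ℝ)
  (σ : ∀ p, (R4 → ℝ) → Src (n p))

/-- the lattice expectation, the test function `f` is realised by the source `s f` -/
def gev (b : ℝ) {n : ℕ} [NeZero n] (s : (R4 → ℝ) → Src n) (Z : Pol) : ℂ :=
  ∫ U, eval (fun f => (cen h b (s f) U : ℂ)) Z ∂wilson h b n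

/-- the sources sample the test functions -/
def Smp : Prop := ∀ f, Adm ![f] → ∀ᶠ p in Φ, Near (a p) (σ p f) f

/-- the reflected copy in the cell `c` -/
def fd (w : ℝ) (c : Fin 4 → ℤ) : Pol →ₐ[ℂ] Pol := rename fun f y => f (fold w c y)

/-- array bounds for `c Y + c' Y'` up to a constant, alone and together with `Z` -/
def Arr (w : ℝ) (Y Y' Z : Pol) (c c' : ι → ℝ) (η : ℝ) : Prop :=
  ∃ κ : ι → ℝ, ∀ lo hi : Fin 4 → ℤ, ∀ᶠ p in Φ,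
    ‖gev h (b p) (σ p) (∏ x ∈ cells lo hi, fd w x
      (((c p : ℂ) • Y + (c' p : ℂ) • Y' - C (κ p : ℂ)) * Z))‖ ≤ η ^ (cells lo hi).card ∧
    ‖gev h (b p) (σ p) (∏ x ∈ cells lo hi, fd w x
      ((c p : ℂ) • Y + (c' p : ℂ) • Y' - C (κ p : ℂ)))‖ ≤ η ^ (cells lo hi).card

/-- truncated lattice correlation -/
def gcv (p : ι) (Y Z : Pol) : ℂ :=
  gev h (b p) (σ p) (Y * Z) - gev h (b p) (σ p) Y * gev h (b p) (σ p) Z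

/-- the lattice form of `RelS` -/
structure RelL (N : ℝ → ℕ → ι → ℝ) (D : ℝ → ℝ) (Y Y' : Let) (c c' : ℝ → ℕ → ι → ℝ) : Prop where
  one : ∀ k f (g : Fin k → R4 → ℝ), Adm (Fin.cons f g : Fin (k + 1) → _) → ∀ w₀, ∃ w ≥ w₀, ∀ η > 0,
    ∀ᶠ d in 𝓝[>] (0 : ℝ), ∀ᶠ e in atTop, Arr h Φ n b σ w (Y d e f) (Y' d e f) (mon g)
      (fun p => N d e p * c d e p) (fun p => N d e p * c' d e p) η
  sca : ∀ k ≤ 2, ∀ f (g : Fin k → R4 → ℝ), Adm (Fin.cons f g : Fin (k + 1) → _) → ∀ η > 0,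
    ∀ᶠ d in 𝓝[>] (0 : ℝ), ∀ᶠ e in atTop, ∀ᶠ p in Φ, log d⁻¹ ^ (k + 2) *
      ‖gcv h n b σ p ((c d e p : ℂ) • Y d e (sc (D d) f) + (c' d e p : ℂ) • Y' d e (sc (D d) f))
        (mon fun i => sc (D d) (g i))‖ ≤ η

/-- the lattice form of `RefS` -/
structure RefL (N : ℝ → ℕ → ι → ℝ) (D : ℝ → ℝ) (Y : Let) : Prop where
  bdd : ∀ᶠ d in 𝓝[>] (0 : ℝ), ∃ B > 0, ∀ᶠ e in atTop, ∀ᶠ p in Φ, B⁻¹ ≤ |N d e p| ∧ |N d e p| ≤ B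
  cau : ∀ k f (g : Fin k → R4 → ℝ), Adm (Fin.cons f g : Fin (k + 1) → _) → ∀ w₀, ∃ w ≥ w₀, ∀ η > 0,
    ∀ᶠ d in 𝓝[>] (0 : ℝ), ∀ d' ∈ Ioc 0 d, ∀ᶠ e : ℕ × ℕ in atTop ×ˢ atTop,
      Arr h Φ n b σ w (Y d e.1 f) (Y d' e.2 f) (mon g) (N d e.1) (fun p => -N d' e.2 p) η
  cas : ∀ k ≤ 2, ∀ f (g : Fin k → R4 → ℝ), Adm (Fin.cons f g : Fin (k + 1) → _) → ∀ η > 0,
    ∀ᶠ d in 𝓝[>] (0 : ℝ), ∀ d' ∈ Ioc 0 d, ∀ᶠ e in atTop, ∀ᶠ p in Φ, log d⁻¹ ^ (k + 2) *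
      ‖gcv h n b σ p ((N d e p : ℂ) • Y d e (sc (D d) f) -
        (N d' e p : ℂ) • Y d' e (sc (D d) f)) (mon fun i => sc (D d) (g i))‖ ≤ η * |N d e p|

/-- the lattice form of `SIn` -/
structure LIn (h₀ : R4 → ℝ) (N N' : ℝ → ℕ → ι → ℝ) (D : ℝ → ℝ) : Prop where
  smp : Smp Φ n a σ
  f3 : RefL h Φ n b σ N D (Y3 h₀ 0)
  f6 : RefL h Φ n b σ N' D (Y6 h₀ (π / 4))
  r1 : ∀ u, Rd u → ∃ c : ℝ → ℕ → ι → ℝ, (∀ᶠ d in 𝓝[>] (0 : ℝ), ∃ B, ∀ᶠ e in atTop, ∀ᶠ p in Φ,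
    |c d e p| ≤ B) ∧ RelL h Φ n b σ N D (Y1 u) Y0 (fun _ _ _ => 1) c
  r3 : ∀ u, Rd u → ∀ θ, ∃ c c' : ℝ → ℕ → ι → ℝ, (∀ d e p, |c d e p| + |c' d e p| = 1) ∧
    RelL h Φ n b σ N D (Y3 u θ) (Y3 h₀ 0) c c'
  r6 : ∀ θ, ∃ c c' : ℝ → ℕ → ι → ℝ, (∀ d e p, |c d e p| + |c' d e p| = 1) ∧
    RelL h Φ n b σ N' D (Y6 h₀ θ) (Y6 h₀ (π / 4)) c c'

end Pool.Agent.Lib.MP_7f377f_mp.Ope
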