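import Pool.Agent.Lib.MP_7f377f_mp.G.SbP

/-! The normalisation of a family of proportional quantities by telescoping. -/

noncomputable section

namespace Pool.Agent.Lib.MP_7f377f_mp.Ope

open Filter Topology Set Real

theorem dyad : ∃ m : ℝ → ℕ, Tendsto m (𝓝[>] 0) atTop ∧ (∀ d d', 0 < d' → d' ≤ d → m d ≤ m d') ∧
    ∀ d ∈ Ioo (0 : ℝ) 1, 2⁻¹ ^ m d ∈ Icc (d / 2) d := by
  have e : ∀ {d : ℝ}, 0 < d → {m : ℕ | (2⁻¹ : ℝ) ^ m ≤ d}.Nonempty := fun d0 =>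
    (exists_pow_lt_of_lt_one d0 (by norm_num)).imp fun _ => le_of_lt
  refine ⟨fun d => sInf {m : ℕ | (2⁻¹ : ℝ) ^ m ≤ d}, tendsto_atTop.2 fun j => ?_,
    fun d d' d0 h => Nat.sInf_le ((Nat.sInf_mem (e d0)).trans h), fun d h =>
      ⟨?_, Nat.sInf_mem (e h.1)⟩⟩
  · filter_upwards [Ioo_mem_nhdsGT (show (0 : ℝ) < 2⁻¹ ^ j by positivity)] with d h
    exact ((pow_lt_pow_iff_right_of_lt_one₀ (by norm_num) (by norm_num)).1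
      ((Nat.sInf_mem (e h.1)).trans_lt h.2)).le
  · have h1 := Nat.sInf_mem (e h.1)
    have h2 := fun m => Nat.notMem_of_lt_sInf (s := {m : ℕ | (2⁻¹ : ℝ) ^ m ≤ d}) (m := m)
    beta_reduce
    rcases hm : sInf {m : ℕ | (2⁻¹ : ℝ) ^ m ≤ d} with _ | m
    · exact absurd (hm ▸ h1 :) (by simpa using h.2)
    · have : d < 2⁻¹ ^ m := not_le.1 (h2 m (hm ▸ Nat.lt_succ_self m) ·)
      rw [pow_succ]
      linarith

theorem tel {ρ : ℝ → ℝ → ℝ}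
    (hρ : ∀ ε > 0, ∀ᶠ d in 𝓝[>] (0 : ℝ), ∀ d' ∈ Icc (d / 2) d, |ρ d d' - 1| ≤ ε) {a : ℝ}
    (a0 : 0 < a) : ∃ (N : ℝ → ℝ) (K : ℝ), (∀ᶠ d in 𝓝[>] (0 : ℝ), N d ≠ 0) ∧
      (∀ b > (0 : ℝ), Tendsto (fun d => |N d| * d ^ b) (𝓝[>] 0) (𝓝 0)) ∧
      ∀ᶠ d₀ in 𝓝[>] (0 : ℝ), ∀ (x : ℝ → ℂ) (c : ℝ), (∀ d ∈ Ioc 0 d₀, ∀ d' ∈ Icc (d / 2) d,
        ‖x d - ρ d d' * x d'‖ ≤ c * d ^ a) →
        ∀ d ∈ Ioc 0 d₀, ‖N d₀ * x d₀ - N d * x d‖ ≤ K * c * (|N d₀| * d₀ ^ a) := by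
  obtain ⟨m, m1, m2, m3⟩ := dyad
  have s0 : Tendsto (fun j : ℕ => (2⁻¹ : ℝ) ^ j) atTop (𝓝[>] 0) :=
    tendsto_pow_atTop_nhdsWithin_zero_of_lt_one (by norm_num) (by norm_num)
  have s1 : ∀ j : ℕ, (2⁻¹ : ℝ) ^ (j + 1) ∈ Icc (2⁻¹ ^ j / 2) (2⁻¹ ^ j) := fun j => by
    have : (0 : ℝ) < 2⁻¹ ^ j := by positivity
    rw [pow_succ]
    constructor <;> linarith
  obtain ⟨j₀, hj⟩ := eventually_atTop.1 (s0.eventually (hρ 2⁻¹ (by norm_num)))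
  obtain ⟨P, hP⟩ : ∃ P : ℕ → ℝ, ∀ j, P j =
    ∏ i ∈ Finset.Ico j₀ j, ρ (2⁻¹ ^ i) (2⁻¹ ^ (i + 1)) := ⟨_, fun _ => rfl⟩
  have p1 : ∀ j ≥ j₀, P (j + 1) = P j * ρ (2⁻¹ ^ j) (2⁻¹ ^ (j + 1)) := fun j h => by
    rw [hP, hP, Finset.prod_Ico_succ_top h]
  have r1 : ∀ {t : ℝ}, |t - 1| ≤ 2⁻¹ → 2⁻¹ ≤ |t| ∧ |t| ≤ 2 := fun h => by
    rw [abs_le] at h
    rw [abs_of_nonneg (by linarith)]
    constructor <;> linarith
  have p2 : ∀ j, P j ≠ 0 := fun j => hP j ▸ Finset.prod_ne_zero_iff.2 fun i hi e => by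
    have := (r1 (hj i (Finset.mem_Ico.1 hi).1 _ (s1 i))).1
    rw [e] at this
    norm_num at this
  have p3 : ∀ b : ℝ, 0 < b → ∃ θ ∈ Ico (0 : ℝ) 1, ∀ᶠ j in atTop, j₀ ≤ j ∧
      |P (j + 1)| * (2⁻¹ ^ (j + 1)) ^ b ≤ θ * (|P j| * (2⁻¹ ^ j) ^ b) := fun b b0 => by
    have q1 : (2⁻¹ : ℝ) ^ b < 1 := rpow_lt_one (by norm_num) (by norm_num) b0
    have q0 : 0 < (2⁻¹ : ℝ) ^ b := by positivity
    refine ⟨(1 + 2⁻¹ ^ b) / 2, ⟨by positivity, by linarith⟩, ?_⟩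
    filter_upwards [eventually_ge_atTop j₀, s0.eventually (hρ ((1 - 2⁻¹ ^ b) / 2) (by linarith))]
      with j h1 h2
    have h3 := abs_le.1 (h2 _ (s1 j))
    refine ⟨h1, ?_⟩
    rw [p1 j h1, pow_succ (2⁻¹ : ℝ) j, mul_rpow (by positivity) (by norm_num), abs_mul,
      mul_mul_mul_comm, mul_comm]
    refine mul_le_mul_of_nonneg_right ?_ (by positivity)
    rw [← pow_succ, abs_of_nonneg (by linarith)]
    nlinarith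
  have n0 : ∀ᶠ d in 𝓝[>] (0 : ℝ), 0 < d ∧ 2⁻¹ ^ m d ∈ Icc (d / 2) d ∧
      2⁻¹ ≤ |ρ d (2⁻¹ ^ m d)| ∧ |ρ d (2⁻¹ ^ m d)| ≤ 2 := by
    filter_upwards [Ioo_mem_nhdsGT one_pos, hρ 2⁻¹ (by norm_num)] with d h1 h2
    exact ⟨h1.1, m3 d h1, r1 (h2 _ (m3 d h1))⟩
  have n1 : ∀ b : ℝ, 0 < b → ∀ {d t : ℝ} {j : ℕ}, 0 < d → 2⁻¹ ^ j ∈ Icc (d / 2) d → 2⁻¹ ≤ |t| →
      |P j / t| * d ^ b ≤ 2 * 2 ^ b * (|P j| * (2⁻¹ ^ j) ^ b) := fun b b0 d t j d0 h1 h2 => by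
    rw [mul_mul_mul_comm, ← mul_rpow zero_le_two (by positivity), abs_div]
    refine mul_le_mul ?_ (rpow_le_rpow d0.le (by linarith [h1.1]) b0.le) (by positivity)
      (by positivity)
    rw [div_le_iff₀ (by linarith)]
    nlinarith [abs_nonneg (P j)]
  obtain ⟨θ, θ1, hθ⟩ := p3 a a0
  obtain ⟨j₁, hθ⟩ := eventually_atTop.1 hθ
  obtain ⟨δ, δ0, hδ⟩ := (nhdsGT_basis_Ioc 0).eventually_iff.1 n0
  refine ⟨fun d => P (m d) / ρ d (2⁻¹ ^ m d), 1 + (2 / (1 - θ) + 4 * 2 ^ a),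
    n0.mono fun d h => div_ne_zero (p2 _) (abs_pos.1 (by linarith [h.2.2.1])), fun b b0 => ?_, ?_⟩
  · obtain ⟨θ, θ1, hθ⟩ := p3 b b0
    have := (summable_of_ratio_norm_eventually_le θ1.2 (f := fun j => |P j| * (2⁻¹ ^ j) ^ b)
      (hθ.mono fun j h => by
        rw [norm_of_nonneg (by positivity), norm_of_nonneg (by positivity)]
        exact h.2)).tendsto_atTop_zero
    exact squeeze_zero' (n0.mono fun d h => mul_nonneg (abs_nonneg _) (rpow_nonneg h.1.le _))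
      (n0.mono fun d h => n1 b b0 h.1 h.2.1 h.2.2.1)
      (((this.comp m1).const_mul _).trans_eq (by rw [mul_zero]))
  filter_upwards [Ioc_mem_nhdsGT δ0, m1.eventually_ge_atTop j₁] with d₀ h1 h2 x c H d h3
  have t0 : 0 < 1 - θ := sub_pos.2 θ1.2
  have c0 : 0 ≤ c := (mul_nonneg_iff_of_pos_right (rpow_pos_of_pos h1.1 a)).1
    ((norm_nonneg _).trans (H d₀ ⟨h1.1, le_rfl⟩ d₀ ⟨by linarith [h1.1], le_rfl⟩))
  have e1 : ∀ d ∈ Ioc 0 d₀, ‖(P (m d) / ρ d (2⁻¹ ^ m d) : ℝ) * x d - P (m d) * x (2⁻¹ ^ m d)‖ ≤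
      c * (|P (m d) / ρ d (2⁻¹ ^ m d)| * d ^ a) := fun d h => by
    obtain ⟨-, u1, u2, -⟩ := hδ ⟨h.1, h.2.trans h1.2⟩
    nth_rw 2 [← div_mul_cancel₀ (P (m d)) (abs_pos.1 (show 0 < |ρ d (2⁻¹ ^ m d)| by linarith))]
    rw [Complex.ofReal_mul, mul_assoc, ← mul_sub, norm_mul, Complex.norm_real, norm_eq_abs,
      mul_left_comm]
    exact mul_le_mul_of_nonneg_left (H d h _ u1) (abs_nonneg _)
  obtain ⟨-, u1, u2, u3⟩ := hδ h1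
  have e2 : ∀ j ≥ m d₀, |P j| * (2⁻¹ ^ j) ^ a ≤ |P (m d₀)| * (2⁻¹ ^ m d₀) ^ a ∧
      ‖P (m d₀) * x (2⁻¹ ^ m d₀) - P j * x (2⁻¹ ^ j)‖ * (1 - θ) ≤
        c * (|P (m d₀)| * (2⁻¹ ^ m d₀) ^ a - |P j| * (2⁻¹ ^ j) ^ a) := fun j hj => by
    induction j, hj using Nat.le_induction with
    | base => simp
    | succ j hj ih =>
      obtain ⟨v1, v2⟩ := hθ j (h2.trans hj)
      have v3 := mul_le_mul_of_nonneg_left (H _ ⟨by positivity, (pow_le_pow_of_le_one (by norm_num)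
        (by norm_num) hj).trans u1.2⟩ _ (s1 j)) (abs_nonneg (P j))
      rw [← norm_eq_abs, ← Complex.norm_real, ← norm_mul, mul_sub, ← mul_assoc,
        ← Complex.ofReal_mul, ← p1 j v1, Complex.norm_real, norm_eq_abs] at v3
      have v4 := norm_sub_le_norm_sub_add_norm_sub (P (m d₀) * x (2⁻¹ ^ m d₀)) (P j * x (2⁻¹ ^ j))
        (P (j + 1) * x (2⁻¹ ^ (j + 1)))
      have v5 : 0 ≤ |P j| * (2⁻¹ ^ j) ^ a := by positivity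
      exact ⟨by nlinarith [ih.1, θ1.2], by
        linarith [ih.2, mul_le_mul_of_nonneg_left v2 c0, mul_le_mul_of_nonneg_right v3 t0.le,
          mul_le_mul_of_nonneg_right v4 t0.le]⟩
  obtain ⟨-, w1, w2, -⟩ := hδ ⟨h3.1, h3.2.trans h1.2⟩
  obtain ⟨e3, e4⟩ := e2 _ (m2 _ _ h3.1 h3.2)
  have e5 : |P (m d₀)| * (2⁻¹ ^ m d₀) ^ a ≤ 2 * (|P (m d₀) / ρ d₀ (2⁻¹ ^ m d₀)| * d₀ ^ a) := by
    rw [← mul_assoc, abs_div]
    refine mul_le_mul ?_ (rpow_le_rpow (by positivity) u1.2 a0.le) (by positivity) (by positivity)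
    rw [← mul_div_assoc, le_div_iff₀ (by linarith)]
    nlinarith [abs_nonneg (P (m d₀))]
  have e6 := (e1 d h3).trans (mul_le_mul_of_nonneg_left ((n1 a a0 h3.1 w1 w2).trans
    (mul_le_mul_of_nonneg_left (e3.trans e5) (by positivity))) c0)
  have e7 := (le_div_iff₀ t0).2 (e4.trans (mul_le_mul_of_nonneg_left
    ((sub_le_self _ (by positivity)).trans e5) c0))
  rw [norm_sub_rev] at e6
  refine ((norm_sub_le_norm_sub_add_norm_sub _ _ _).trans (add_le_add (e1 d₀ ⟨h1.1, le_rfl⟩)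
    ((norm_sub_le_norm_sub_add_norm_sub _ _ _).trans (add_le_add e7 e6)))).trans_eq (by ring)

theorem ev_ioc {p : ℝ → Prop} (h : ∀ᶠ d in 𝓝[>] (0 : ℝ), p d) :
    ∀ᶠ d₀ in 𝓝[>] (0 : ℝ), ∀ d ∈ Ioc 0 d₀, p d := by
  obtain ⟨δ, δ0, hδ⟩ := (nhdsGT_basis_Ioc 0).eventually_iff.1 h
  filter_upwards [Ioc_mem_nhdsGT δ0] with d₀ h1 d h2 using hδ ⟨h2.1, h2.2.trans h1.2⟩

/-- the normalisation `N` turns the relation `c x + c' x' = 0` into convergence -/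
structure Tel (a : ℝ) (c c' : ℝ → ℝ → ℝ) (N : ℝ → ℝ) (K : ℝ) : Prop where
  ne : ∀ᶠ d in 𝓝[>] (0 : ℝ), N d ≠ 0
  sl : ∀ b > (0 : ℝ), Tendsto (fun d => |N d| * d ^ b) (𝓝[>] 0) (𝓝 0)
  cau : ∀ᶠ d₀ in 𝓝[>] (0 : ℝ), ∀ (x : ℝ → ℂ) (t : ℝ), (∀ d ∈ Ioc 0 d₀, ∀ d' ∈ Icc (d / 2) d,
    ‖c d d' * x d + c' d d' * x d'‖ ≤ t * d ^ a) → ∃ L, Tendsto (fun d => N d * x d) (𝓝[>] 0) (𝓝 L) ∧
      ‖N d₀ * x d₀ - L‖ ≤ K * t * (|N d₀| * d₀ ^ a)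

theorem exists_tel {c c' : ℝ → ℝ → ℝ} (h1 : ∀ d d', |c d d'| + |c' d d'| = 1)
    (h2 : ∀ ε > 0, ∀ᶠ d in 𝓝[>] (0 : ℝ), ∀ d' ∈ Icc (d / 2) d, |c d d' + c' d d'| ≤ ε) {a : ℝ}
    (a0 : 0 < a) : ∃ N K, Tel a c c' N K := by
  have h3 : ∀ᶠ d in 𝓝[>] (0 : ℝ), ∀ d' ∈ Icc (d / 2) d, 4⁻¹ ≤ |c d d'| :=
    (h2 2⁻¹ (by norm_num)).mono fun d h d' e => by
      have := abs_sub (c d d' + c' d d') (c d d')
      rw [add_sub_cancel_left] at this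
      linarith [h d' e, h1 d d']
  obtain ⟨N, K, n1, n2, n3⟩ := tel (ρ := fun d d' => -c' d d' / c d d') (fun ε ε0 => by
    filter_upwards [h3, h2 (ε / 4) (by positivity)] with d e1 e2 d' e
    have e3 := e1 d' e
    rw [div_sub_one (abs_pos.1 (by linarith)), abs_div, div_le_iff₀ (by linarith), ← abs_neg,
      neg_sub, sub_neg_eq_add]
    nlinarith [e2 d' e]) a0
  refine ⟨N, K * 4, n1, n2, ?_⟩
  filter_upwards [ev_ioc n3, ev_ioc h3, self_mem_nhdsWithin] with d₀ e1 e2 d0 x t H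
  have e3 : ∀ d₁ ∈ Ioc 0 d₀, ∀ d ∈ Ioc 0 d₁,
      ‖N d₁ * x d₁ - N d * x d‖ ≤ K * 4 * t * (|N d₁| * d₁ ^ a) := fun d₁ h => by
    rw [mul_assoc K]
    refine e1 d₁ h x _ fun d u d' u' => ?_
    have u1 := e2 d ⟨u.1, u.2.trans h.2⟩ d' u'
    have u2 := H d ⟨u.1, u.2.trans h.2⟩ d' u'
    have u3 : (c d d' : ℂ) ≠ 0 := Complex.ofReal_ne_zero.2 (abs_pos.1 (by linarith))
    rw [show c d d' * x d + c' d d' * x d' = c d d' * (x d - (-c' d d' / c d d' : ℝ) * x d') by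
      push_cast; field_simp; ring, norm_mul, Complex.norm_real, norm_eq_abs] at u2
    nlinarith [norm_nonneg (x d - (-c' d d' / c d d' : ℝ) * x d')]
  obtain ⟨L, hL⟩ := CompleteSpace.complete (f := map (fun d => N d * x d) (𝓝[>] 0))
    (Metric.cauchy_iff.2 ⟨inferInstance, fun ε ε0 => by
      obtain ⟨d₁, u1, u2⟩ := ((((n2 a a0).const_mul (K * 4 * t)).eventually_lt_const
        (u := ε / 2) (by simpa using ε0)).and (Ioc_mem_nhdsGT d0)).exists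
      refine ⟨Metric.ball (N d₁ * x d₁) (ε / 2), mem_map.2 <| mem_of_superset (Ioc_mem_nhdsGT u2.1)
        fun d h => mem_ball_iff_norm'.2 ((e3 d₁ u2 d h).trans_lt u1), fun y hy z hz => ?_⟩
      linarith [dist_triangle_right y z (N d₁ * x d₁), Metric.mem_ball.1 hy, Metric.mem_ball.1 hz]⟩)
  exact ⟨L, hL, le_of_tendsto (tendsto_const_nhds.sub hL).norm
    (mem_of_superset (Ioc_mem_nhdsGT d0) (e3 d₀ ⟨d0, le_rfl⟩))⟩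

end Pool.Agent.Lib.MP_7f377f_mp.Ope
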