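import Pool.Agent.Lib.MP_7f377f_mp.G.SbE
import Pool.Agent.Lib.MP_7f377f_mp.G.SbT
import Pool.Agent.Lib.MP_7f377f_mp.G.ScC

/-! Relations between the smeared pairs, uniformly in far insertions. -/

noncomputable section

namespace Pool.Agent.Lib.MP_7f377f_mp.Ope
variable [Pool.Agent.Lib.MP_7f377f_mp.GD]
set_option linter.unusedSectionVars false

open MeasureTheory Filter Topology Set Real YM7 Pur MvPolynomial Metric Lg

/-- insertions depending on the state and on the scale -/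
abbrev Fl : Type := (Pol →ₗ[ℂ] ℂ) → ℝ → (R4 → ℝ) → Pol → ℂ

/-- the field -/
def A0 : Fl := fun W _ f Z => cv W (X f) Z

/-- the scalar pair -/
def A1 (h : R4 → ℝ) : Fl := fun W d f Z => t1 fun n => Ai W (hn h n) d f Z

/-- the pair of the three dimensional type -/
def A3 (h : R4 → ℝ) (θ : ℝ) : Fl := fun W d f Z => t3 θ fun n => Ai W (hn h n) d f Z

/-- the pair of the six dimensional type -/
def A6 (h : R4 → ℝ) (θ : ℝ) : Fl := fun W d f Z => t6 θ fun n => Ai W (hn h n) d f Z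

/-- convergence of the Riemann sums -/
def Cvg (Y : Let) (A : Fl) : Prop := ∀ W, Inp W → ∀ d f Z, Sm d f Z →
  Tendsto (fun e => cv W (Y d e f) Z) atTop (𝓝 (A W d f Z))

/-- smallness, uniformly in far insertions -/
def Us (S : Pol →ₗ[ℂ] ℂ) (Φ : Pol → ℂ) (Z : Pol) (R η : ℝ) : Prop := ∀ μ, ∀ B ∈ net.loc (Ot R),
  ‖Φ (net.Θ μ B * Z * B)‖ ≤ η * net.nq S μ (net.τ (dg (-R)) B)

/-- the relation `c A + c' A' = 0` -/
structure Re (S : Pol →ₗ[ℂ] ℂ) (D : ℝ → ℝ) (a : ℝ) (A A' : Fl) (c c' : ℝ → ℝ → ℝ) : Prop where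
  w : ∀ W, Sub S W → ∀ f Z, Dt f Z → ∃ K, ∀ᶠ d in 𝓝[>] (0 : ℝ), ∀ d' ∈ Icc (d / 2) d,
    ‖c d d' * A W d f Z + c' d d' * A' W d' f Z‖ ≤ K * d ^ a
  u : ∀ f Z, Dt f Z → ∃ R K, 0 ≤ K ∧ ∀ᶠ d in 𝓝[>] (0 : ℝ), ∀ d' ∈ Icc (d / 2) d,
    Us S (fun Z => c d d' * A S d f Z + c' d d' * A' S d' f Z) Z R (K * d ^ a)
  s : ∀ k ≤ 2, ∀ f (g : Fin k → R4 → ℝ), Adm (Fin.cons f g : Fin (k + 1) → _) → ∃ K,
    ∀ᶠ d₀ in 𝓝[>] (0 : ℝ), ∀ d ∈ Ioc 0 d₀, ∀ d' ∈ Icc (d / 2) d,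
      log d₀⁻¹ ^ (k + 2) * ‖c d d' * A S d (sc (D d₀) f) (mon fun i => sc (D d₀) (g i)) +
        c' d d' * A' S d' (sc (D d₀) f) (mon fun i => sc (D d₀) (g i))‖ ≤ K * (d / D d₀) ^ a

variable {S W : Pol →ₗ[ℂ] ℂ} {h f : R4 → ℝ} {Y Z B : Pol} {R R' η η' a d : ℝ} {Φ Ψ : Pol → ℂ}
  {D : ℝ → ℝ}

theorem cvg0 : Cvg Y0 A0 := fun _ _ _ _ _ _ => tendsto_const_nhds

theorem cvg1 (b : Rd h) : Cvg (Y1 h) (A1 h) := fun W hW d f Z a => by
  simp only [Y1, A1, t1, cv_sum]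
  exact tendsto_finsetSum _ fun μ _ => a.riem hW (b.pb (norm_ee μ))

theorem cvg3 (b : Rd h) (θ : ℝ) : Cvg (Y3 h θ) (A3 h θ) := fun W hW d f Z a => by
  have G := fun θ => a.riem hW (b.pb (norm_nt θ))
  simp only [Y3, A3, t3, cv_add, cv_sub]
  exact (((G _).add (G _)).sub (G _)).sub (G _)

theorem cvg6 (b : Rd h) (θ : ℝ) : Cvg (Y6 h θ) (A6 h θ) := fun W hW d f Z a => by
  have G := fun θ => a.riem hW (b.pb (norm_nt θ))
  simp only [Y6, A6, t6, cv_add, cv_sub]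
  exact (((G _).sub (G _)).add (G _)).sub (G _)

theorem qb_sand (hS : net.St S) (h : net.QB S Y R η) : Us S S Y R η := fun μ B hB => by
  obtain ⟨H, _, _, _, ⟨r⟩⟩ := hS.exists_rep μ
  have e0 : net.τ (dg (-R)) B ∈ net.loc (Hs μ 0) := Net.τ_hs (net.mono hB (Ot.hs μ le_rfl)) (by simp)
  have e1 := r.shift (X := net.Θ μ B) (Y := Y * B) (v := -ax μ R) hS
  have e2 := r.le (v := -ax μ R - dg (-R)) (by simp) e0
  rw [rf_neg, neg_rf_ax, net.Θ_Θ, neg_neg] at e1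
  rw [net.τ_τ, sub_add_cancel] at e2
  rw [mul_assoc, e1 (Net.τ_hs (net.mono hB (Ot.hs μ le_rfl)) (by simp))
    (Net.qb_hs h.1 hB h.2.1 (by simp)), r.nq e0, sq, mul_left_comm]
  exact (norm_inner_le_norm _ _).trans
    (mul_le_mul e2 (r.qb h hB (by simp)) (norm_nonneg _) (norm_nonneg _))

theorem nq_nn (hS : net.St S) (hB : B ∈ net.loc (Ot R)) (μ : Fin 4) :
    0 ≤ net.nq S μ (net.τ (dg (-R)) B) :=
  hS.pos μ (Net.τ_hs (net.mono hB (Ot.hs μ le_rfl)) (by simp))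

theorem Us.mono (hS : net.St S) (h : Us S Φ Z R η) (hR : R ≤ R') (η0 : 0 ≤ η) (hη : η ≤ η') :
    Us S Φ Z R' η' := fun μ B hB => by
  refine (h μ B (net.mono hB (Ot.mono hR))).trans (mul_le_mul hη ?_
    (nq_nn hS (net.mono hB (Ot.mono hR)) μ) (η0.trans hη))
  have := hS.con μ (v := dg (R' - R)) (Net.τ_hs (v := dg (-R'))
    (net.mono hB (Ot.hs μ le_rfl)) (by simp)) (by simpa using hR)
  rwa [net.τ_τ, show dg (R' - R) + dg (-R') = dg (-R) by ext; simp [sub_eq_add_neg]] at this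

theorem Us.add (h : Us S Φ Z R η) (h' : Us S Ψ Z R η') : Us S (fun Z => Φ Z + Ψ Z) Z R (η + η') :=
  fun μ B hB => (norm_add_le_of_le (h μ B hB) (h' μ B hB)).trans_eq (add_mul _ _ _).symm

theorem Us.smul (h : Us S Φ Z R η) (c : ℂ) : Us S (fun Z => c * Φ Z) Z R (‖c‖ * η) :=
  fun μ B hB => by
    rw [norm_mul, mul_assoc ‖c‖]
    exact mul_le_mul_of_nonneg_left (h μ B hB) (norm_nonneg c)

theorem cv_ctr (s1 : S 1 = 1) (Y Z : Pol) : cv S Y Z = S (ctr S Y * Z) := by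
  simp only [ctr_eq, sub_mul, map_sub, smul_mul_assoc, one_mul, map_smul, smul_eq_mul, cv]

theorem far_loc {O : Set R4} (hO : Bornology.IsBounded O) (hZ : Z ∈ net.loc Oᶜ) :
    ∀ᶠ R in atTop, ∀ μ, ∀ B ∈ net.loc (Ot R), net.Θ μ B * Z * B ∈ net.loc Oᶜ := by
  obtain ⟨L, hL⟩ := hO.exists_norm_le
  filter_upwards [Net.box hZ, eventually_ge_atTop L, eventually_ge_atTop 0] with R h1 h2 h3 μ B hB
  have b1 : ∀ y ∈ O, |y μ| ≤ R := fun y hy =>
    ((PiLp.norm_apply_le y μ).trans (hL y hy)).trans h2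
  refine net.mono (net.mul (net.mul (net.Θ_mem μ hB) h1 (disjoint_left.2
    fun y e e' => ?_)) hB (disjoint_left.2 fun y e e' => ?_)) fun y e hy => ?_
  · have := e μ
    rw [rf_self] at this
    linarith [(abs_lt.1 (e'.2 μ)).1]
  · rcases e with e | e
    · have := e μ
      rw [rf_self] at this
      linarith [e' μ]
    · linarith [e' μ, (abs_lt.1 (e.2 μ)).2]
  · rcases e with (e | e) | e
    · have := e μ
      rw [rf_self] at this
      linarith [(abs_le.1 (b1 y hy)).1]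
    · exact e.1 hy
    · linarith [e μ, (abs_le.1 (b1 y hy)).2]

theorem Sm.far (a : Sm d f Z) : ∀ᶠ R in atTop, ∀ μ, ∀ B ∈ net.loc (Ot R),
    Sm d f (net.Θ μ B * Z * B) :=
  (far_loc (adm_one.1 a.2.1).1.isCompact.isBounded.thickening a.2.2).mono fun _ h μ B hB =>
    ⟨a.1, a.2.1, h μ B hB⟩

theorem Dt.far (a : Dt f Z) : ∀ᶠ R in atTop, ∀ᶠ d in 𝓝[>] (0 : ℝ), ∀ μ, ∀ B ∈ net.loc (Ot R),
    Sm d f (net.Θ μ B * Z * B) :=
  let ⟨_, b⟩ := a.sm.exists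
  b.far.mono fun _ h => mem_of_superset (Ioc_mem_nhdsGT b.1) fun _ e μ B hB => (h μ B hB).mono e

theorem half_ioc {d d' : ℝ} (d0 : 0 < d) (h : d' ∈ Icc (d / 2) d) : d' ∈ Ioc 0 d :=
  ⟨(half_pos d0).trans_le h.1, h.2⟩

/-- the limit of fine meshes -/
theorem Rel.re (hI : Inp S) {Y Y' : Let} {A A' : Fl} {c c' : Co} {γ γ' : ℝ → ℝ → ℝ}
    {s : Fin 4 → ℝ} (H : Rel S D a Y Y' c c') (hY : Gf S s Y) (hY' : Gf S s Y') (hA : Cvg Y A)
    (hA' : Cvg Y' A') (D0 : ∀ᶠ d in 𝓝[>] (0 : ℝ), 0 < D d)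
    (D1 : Tendsto (fun d => d / D d) (𝓝[>] 0) (𝓝 0))
    (hc : ∀ᶠ d in 𝓝[>] (0 : ℝ), ∀ d' ∈ Icc (d / 2) d, Tendsto (c d d') (hyperfilter ℕ) (𝓝 (γ d d')) ∧
      Tendsto (c' d d') (hyperfilter ℕ) (𝓝 (γ' d d'))) : Re S D a A A' γ γ' := by
  have u : (hyperfilter ℕ : Filter ℕ) ≤ atTop := Nat.hyperfilter_le_atTop
  have t : ∀ {W d d' f Z}, Inp W → Sm d f Z → d' ∈ Icc (d / 2) d →
      (Tendsto (c d d') (hyperfilter ℕ) (𝓝 (γ d d')) ∧
        Tendsto (c' d d') (hyperfilter ℕ) (𝓝 (γ' d d'))) →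
      Tendsto (fun e => ‖cv W (cb Y Y' c c' d d' e f) Z‖) (hyperfilter ℕ)
        (𝓝 ‖γ d d' * A W d f Z + γ' d d' * A' W d' f Z‖) := fun hW b e r => by
    simp only [cb, cv_add, cv_smul]
    exact ((((Complex.continuous_ofReal.tendsto _).comp r.1).mul ((hA _ hW _ _ _ b).mono_left u)).add
      (((Complex.continuous_ofReal.tendsto _).comp r.2).mul
        ((hA' _ hW _ _ _ (b.mono (half_ioc b.1 e))).mono_left u))).norm
  refine ⟨fun W hW f Z b => ?_, fun f Z b => ?_, fun k hk f g b => ?_⟩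
  · obtain ⟨R, K, h1⟩ := H.qb hI.st hI.lin hY hY' b
    obtain ⟨R', K', h2⟩ := H.qb hI.st hI.lin hY hY' b.one
    have w := hI.dom hW.dom hW.one
    refine ⟨K + K' * ‖W Z‖, ?_⟩
    filter_upwards [h1, h2, hc, b.sm] with d e1 e2 e3 e4 d' e
    refine le_of_tendsto (t w e4 e (e3 d' e)) (((e1 d' e).and (e2 d' e)).filter_mono u |>.mono
      fun m r => ?_)
    rw [← cv_C hW.one (S (cb Y Y' c c' d d' m f)), cv, add_mul, mul_right_comm]
    refine norm_sub_le_of_le (w.st.bound (hW.dom.qb r.1)) ?_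
    rw [norm_mul]
    exact mul_le_mul_of_nonneg_right (w.st.bound (hW.dom.qb (mul_one (ctr S _) ▸ r.2)))
      (norm_nonneg _)
  · obtain ⟨R, K, h1⟩ := H.qb hI.st hI.lin hY hY' b
    obtain ⟨R', h2, h3⟩ := (b.far.and (eventually_ge_atTop R)).exists
    refine ⟨R', |K|, abs_nonneg K, ?_⟩
    filter_upwards [h1, h2, hc, self_mem_nhdsWithin] with d e1 e2 e3 (d0 : 0 < d) d' e μ B hB
    refine le_of_tendsto (t hI (e2 μ B hB) e (e3 d' e)) ((e1 d' e).filter_mono u |>.mono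
      fun m r => ?_)
    rw [cv_ctr hI.st.one, ← mul_assoc, mul_left_comm]
    exact qb_sand hI.st (r.mono hI.st h3 (mul_le_mul_of_nonneg_right (le_abs_self K)
      (rpow_nonneg d0.le a))) μ B hB
  · obtain ⟨K, h1⟩ := H.sca k hk f g b
    obtain ⟨δ, δ0, h2⟩ := sm_sc b
    refine ⟨K, ?_⟩
    filter_upwards [h1, ev_ioc hc, D0, D1.eventually_le_const δ0] with d₀ e1 e2 e3 e4 d e5 d' e
    exact le_of_tendsto ((t hI (h2 d _ e5.1 e3 ((div_le_div_of_nonneg_right e5.2 e3.le).trans e4))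
      e (e2 d e5 d' e)).const_mul _) ((e1 d e5 d' e).filter_mono u)

theorem lim_norm {c c' : Co} (h : ∀ d d' e, |c d d' e| + |c' d d' e| = 1) :
    ∃ γ γ' : ℝ → ℝ → ℝ, (∀ d d', |γ d d'| + |γ' d d'| = 1) ∧ ∀ d d',
      Tendsto (c d d') (hyperfilter ℕ) (𝓝 (γ d d')) ∧
      Tendsto (c' d d') (hyperfilter ℕ) (𝓝 (γ' d d')) := by
  have a := fun d d' => ultra_lim (hyperfilter ℕ) (u := c d d') (C := 1)
    (.of_forall fun e => by linarith [h d d' e, abs_nonneg (c' d d' e)])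
  have b := fun d d' => ultra_lim (hyperfilter ℕ) (u := c' d d') (C := 1)
    (.of_forall fun e => by linarith [h d d' e, abs_nonneg (c d d' e)])
  exact ⟨_, _, fun d d' => tendsto_nhds_unique ((a d d').abs.add (b d d').abs)
    (tendsto_const_nhds.congr fun e => (h d d' e).symm), fun d d' => ⟨a d d', b d d'⟩⟩

end Pool.Agent.Lib.MP_7f377f_mp.Ope
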