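import Pool.Agent.Lib.MP_7f377f_mp.G.SbU

/-! The normalisation of the pairs and the ratios of their limits. -/

noncomputable section

namespace Pool.Agent.Lib.MP_7f377f_mp.Ope
variable [Pool.Agent.Lib.MP_7f377f_mp.GD]
set_option linter.unusedSectionVars false

open MeasureTheory Filter Topology Set Real YM7 Pur MvPolynomial Metric Lg

/-- pairs of comparable small scales -/
def fp : Filter (ℝ × ℝ) := comap Prod.fst (𝓝[>] 0) ⊓ 𝓟 {p | p.2 ∈ Icc (p.1 / 2) p.1}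

theorem ev_fp {P : ℝ × ℝ → Prop} :
    (∀ᶠ p in fp, P p) ↔ ∀ᶠ d in 𝓝[>] (0 : ℝ), ∀ d' ∈ Icc (d / 2) d, P (d, d') := by
  rw [fp, eventually_inf_principal, eventually_comap]
  exact eventually_congr (.of_forall fun d =>
    ⟨fun h d' e => h (d, d') rfl e, fun h p e e' => by subst e; exact h _ e'⟩)

theorem fp_fst : Tendsto Prod.fst fp (𝓝[>] (0 : ℝ)) := tendsto_comap.mono_left inf_le_left

theorem fp_diag : Tendsto (fun d => (d, d)) (𝓝[>] (0 : ℝ)) fp := fun _ h =>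
  ((ev_fp.1 h).and self_mem_nhdsWithin).mono fun d e => e.1 d ⟨half_le_self e.2.le, le_rfl⟩

/-- quadratic forms -/
def qf (B : Fin 4 → Fin 4 → ℂ) (n : R4) : ℂ := ∑ μ, ∑ ν, (n μ * n ν : ℝ) * B μ ν

/-- the insertion for data at the scale `D d`, with the logarithmic factor -/
def sd (S : Pol →ₗ[ℂ] ℂ) (D : ℝ → ℝ) (A : Fl) {k : ℕ} (f : R4 → ℝ) (g : Fin k → R4 → ℝ)
    (p : ℝ × ℝ) : ℂ :=
  ((log p.1⁻¹ ^ (k + 2) : ℝ) : ℂ) * A S p.2 (sc (D p.1) f) (mon fun i => sc (D p.1) (g i))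

/-- the normalised limit -/
def Lmv (N : ℝ → ℝ) (A : Fl) (W : Pol →ₗ[ℂ] ℂ) (f : R4 → ℝ) (Z : Pol) : ℂ :=
  limUnder (𝓝[>] (0 : ℝ)) fun d => N d * A W d f Z

/-- convergence of the normalised insertion -/
structure Cau (S : Pol →ₗ[ℂ] ℂ) (D N : ℝ → ℝ) (A : Fl) : Prop where
  ne : ∀ᶠ d in 𝓝[>] (0 : ℝ), N d ≠ 0
  sl : ∀ b > (0 : ℝ), Tendsto (fun d => |N d| * d ^ b) (𝓝[>] 0) (𝓝 0)
  w : ∀ W, Sub S W → ∀ f Z, Dt f Z →
    Tendsto (fun d => N d * A W d f Z) (𝓝[>] 0) (𝓝 (Lmv N A W f Z))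
  u : ∀ f Z, Dt f Z → ∀ η > 0, ∀ᶠ d in 𝓝[>] (0 : ℝ), ∃ R,
    Us S (fun Z => Lmv N A S f Z - N d * A S d f Z) Z R η
  s : ∀ k ≤ 2, ∀ f (g : Fin k → R4 → ℝ), Adm (Fin.cons f g : Fin (k + 1) → _) →
    Tendsto (fun d => ((log d⁻¹ ^ (k + 2) / N d : ℝ) : ℂ) * Lmv N A S (sc (D d) f)
      (mon fun i => sc (D d) (g i)) - sd S D A f g (d, d)) (𝓝[>] 0) (𝓝 0)

/-- the hypotheses of the soft theorem -/
structure BIn (S : Pol →ₗ[ℂ] ℂ) (h₀ : R4 → ℝ) (D : ℝ → ℝ) (κ : (R4 → ℝ) → ℝ) (F : Fr) (a : ℝ) :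
    Prop where
  inp : Inp S
  inv : ∀ g, Ro.Inv S g
  arr : ∃ S₀ : ∀ {k : ℕ}, (Fin k → R4 → ℝ) → ℝ,
    (∀ {k} {f : Fin k → R4 → ℝ}, Adm f → S (mon f) = S₀ f) ∧ ArrS S₀
  cen : ∀ f, Adm ![f] → S (X f) = 0
  ts : TsS S h₀ D κ F
  t2 : Ts2 S D κ F
  pin : PIn S h₀ D a

variable {S W : Pol →ₗ[ℂ] ℂ} {h h₀ f : R4 → ℝ} {Z : Pol} {a K θ : ℝ} {D N : ℝ → ℝ} {A A' : Fl}
  {γ γ' : ℝ → ℝ → ℝ} {κ : (R4 → ℝ) → ℝ} {F : Fr} {k : ℕ} {g : Fin k → R4 → ℝ} {n : R4}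

theorem nt_zero : nt 0 = ee 0 := by simp [nt]

theorem nt_half : nt (π / 2) = ee 1 := by simp [nt]

theorem t3_zero (G : R4 → ℂ) : t3 0 G = 2 * (G (ee 0) - G (ee 1)) := by
  simp only [t3, neg_zero, sub_zero, add_zero, nt_zero, nt_half]
  ring

theorem qf_nt (B : Fin 4 → Fin 4 → ℂ) (θ : ℝ) : qf B (nt θ) =
    (cos θ ^ 2 : ℝ) * B 0 0 + (cos θ * sin θ : ℝ) * (B 0 1 + B 1 0) + (sin θ ^ 2 : ℝ) * B 1 1 := by
  simp [qf, nt, Fin.sum_univ_four]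
  ring

theorem t3_qf (B : Fin 4 → Fin 4 → ℂ) (θ : ℝ) :
    t3 θ (qf B) = cos (2 * θ) * (2 * (B 0 0 - B 1 1)) := by
  simp only [t3, qf_nt, cos_neg, sin_neg, cos_pi_div_two_sub, sin_pi_div_two_sub, cos_two_mul',
    add_comm (π / 2), cos_add_pi_div_two, sin_add_pi_div_two]
  push_cast
  ring

theorem t6_qf (B : Fin 4 → Fin 4 → ℂ) (θ : ℝ) :
    t6 θ (qf B) = sin (2 * θ) * (2 * (B 0 1 + B 1 0)) := by
  simp only [t6, qf_nt, cos_neg, sin_neg, cos_pi_div_two_sub, sin_pi_div_two_sub, sin_two_mul,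
    add_comm (π / 2), cos_add_pi_div_two, sin_add_pi_div_two]
  push_cast
  ring

theorem t3_lim {ι : Type} {l : Filter ι} {c : ι → ℂ} {G : ι → R4 → ℂ} {G₀ : R4 → ℂ} {t : ℂ}
    (h : ∀ n, ‖n‖ = 1 → Tendsto (fun p => c p * G p n) l (𝓝 (t * G₀ n))) (θ : ℝ) :
    Tendsto (fun p => c p * t3 θ (G p)) l (𝓝 (t * t3 θ G₀)) ∧
      Tendsto (fun p => c p * t6 θ (G p)) l (𝓝 (t * t6 θ G₀)) ∧
      Tendsto (fun p => c p * t1 (G p)) l (𝓝 (t * t1 G₀)) := by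
  have e := fun θ => h _ (norm_nt θ)
  simp only [t3, t6, t1, mul_add, mul_sub, Finset.mul_sum]
  exact ⟨(((e _).add (e _)).sub (e _)).sub (e _), (((e _).sub (e _)).add (e _)).sub (e _),
    tendsto_finsetSum _ fun μ _ => h _ (norm_ee μ)⟩

theorem rot_nt (φ θ : ℝ) : Ro.rot 0 φ (nt θ) = nt (θ + φ) := by
  ext i
  fin_cases i <;> simp [Ro.rot_apply, Ro.rv, nt, cos_add, sin_add] <;> ring

theorem t6_eq {G : R4 → ℂ} (h : ∀ n, G (-n) = G n) :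
    t6 (π / 4) G = t3 0 fun n => G (Ro.rot 0 (π / 4) n) := by
  simp only [t6, t3, rot_nt, neg_zero, sub_zero, add_zero, zero_add]
  rw [show π / 2 - π / 4 = π / 4 by ring, ← h (nt (π / 2 + π / 4)), ← (nt_neg (π / 4)).1,
    show π / 2 - π / 4 = π / 4 by ring]
  ring

theorem adm_rot (b : Adm (Fin.cons f g : Fin (k + 1) → _)) (r : Ro.Iso) :
    Adm (Fin.cons (fun y => f (r.symm y)) fun i y => g i (r.symm y) : Fin (k + 1) → _) := by
  convert Ro.adm_act b r using 1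
  funext i
  induction i using Fin.cases <;> rfl

theorem ratio {x y : ℝ → ℂ} {c c' : ℝ → ℝ} {r : ℝ} {L : ℂ} {l : Filter ℝ}
    (h1 : ∀ d, |c d| + |c' d| = 1) (h2 : Tendsto (fun d => c d * r + c' d) l (𝓝 0))
    (h3 : Tendsto (fun d => c d * x d + c' d * y d) l (𝓝 0)) (h4 : Tendsto y l (𝓝 L)) :
    Tendsto x l (𝓝 (r * L)) := by
  have e : ∀ᶠ d in l, 1 ≤ |c d| * (2 * (1 + |r|)) := (h2.abs.eventually_le_const
    (show |(0 : ℝ)| < 2⁻¹ by norm_num)).mono fun d e => by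
      have := abs_sub (c d * r + c' d) (c d * r)
      rw [add_sub_cancel_left, abs_mul] at this
      linarith [h1 d]
  have h5 := (h3.sub (((Complex.continuous_ofReal.tendsto _).comp h2).mul h4)).norm.mul_const
    (2 * (1 + |r|))
  rw [← sub_add_cancel (r * L) 0, add_comm, sub_zero]
  refine ((squeeze_zero_norm' (e.mono fun d e => ?_) (h5.trans_eq (by simp))).add
    (h4.const_mul (r : ℂ))).congr fun d => sub_add_cancel _ _
  rw [show c d * x d + c' d * y d - (Complex.ofReal ∘ fun d => c d * r + c' d) d * y d =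
    c d * (x d - r * y d) by simp; ring, norm_mul, Complex.norm_real, norm_eq_abs, mul_right_comm]
  exact le_mul_of_one_le_left (norm_nonneg _) e

theorem Cau.mul (H : Cau S D N A) (a0 : 0 < a) {x : ℝ → ℂ}
    (h : ∃ K, ∀ᶠ d in 𝓝[>] (0 : ℝ), ‖x d‖ ≤ K * d ^ a) :
    Tendsto (fun d => N d * x d) (𝓝[>] 0) (𝓝 0) :=
  let ⟨K, h⟩ := h
  squeeze_zero_norm' (h.mono fun d e => by
    rw [norm_mul, Complex.norm_real, norm_eq_abs, mul_left_comm]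
    exact mul_le_mul_of_nonneg_left e (abs_nonneg _))
    (((H.sl a a0).const_mul K).trans_eq (by rw [mul_zero]))

theorem Re.dg (R : Re S D a A A' γ γ') (hW : Sub S W) (b : Dt f Z) : ∃ K, ∀ᶠ d in 𝓝[>] (0 : ℝ),
    ‖γ d d * A W d f Z + γ' d d * A' W d f Z‖ ≤ K * d ^ a :=
  (R.w W hW f Z b).imp fun _ e => fp_diag.eventually (ev_fp (P := fun p =>
    ‖γ p.1 p.2 * A W p.1 f Z + γ' p.1 p.2 * A' W p.2 f Z‖ ≤ _ * p.1 ^ a).2 e)

variable (H : BIn S h₀ D κ F a)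
include H

theorem BIn.pos : Tendsto D (𝓝[>] 0) (𝓝[>] 0) := tendsto_nhdsWithin_iff.2
  ⟨H.ts.lim, (H.ts.le.and self_mem_nhdsWithin).mono fun _ h => lt_of_lt_of_le h.2 h.1⟩

theorem BIn.pos' : ∀ᶠ d in 𝓝[>] (0 : ℝ), 0 < D d := H.pos.eventually self_mem_nhdsWithin

theorem BIn.sub : Sub S S := sub_rfl H.inp (PI.rot_iff.2 fun g _ => H.inv g)

theorem BIn.rat : Tendsto (fun d => K * (d / D d) ^ a) (𝓝[>] 0) (𝓝 0) := by
  simpa [zero_rpow H.pin.pos.ne'] using (H.ts.rat.rpow_const (.inr H.pin.pos.le)).const_mul K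

theorem BIn.sm (b : Adm (Fin.cons f g : Fin (k + 1) → _)) :
    ∀ᶠ p in fp, Sm p.2 (sc (D p.1) f) (mon fun i => sc (D p.1) (g i)) := by
  obtain ⟨δ, δ0, h⟩ := sm_sc b
  refine ev_fp.2 ?_
  filter_upwards [H.pos', H.ts.rat.eventually_le_const δ0, self_mem_nhdsWithin] with d e1 e2 e3 d' e
  exact (h d _ e3 e1 e2).mono (half_ioc e3 e)

theorem BIn.tsn (hk : k ≤ 2) (hh : Rd h) (b : Adm (Fin.cons f g : Fin (k + 1) → _)) (n : R4)
    (n1 : ‖n‖ = 1) : Tendsto (fun p : ℝ × ℝ => ((log p.1⁻¹ ^ (k + 2) : ℝ) : ℂ) * Ai S (hn h n) p.2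
      (sc (D p.1) f) (mon fun i => sc (D p.1) (g i))) fp (𝓝 (κ h * qf (F k · · f g) n)) :=
  Metric.tendsto_nhds.2 fun η η0 => ev_fp.2 ((H.t2 k hk h hh n n1 f g b _ (half_pos η0)).mono
    fun d e d' e' => by
      rw [dist_eq_norm]
      refine lt_of_eq_of_lt ?_ ((e d' e').trans_lt (half_lt_self η0))
      simp only [qf, Complex.ofReal_mul, Complex.ofReal_sum])

theorem BIn.sm0 (R : Re S D a A A' γ γ') (hk : k ≤ 2) (b : Adm (Fin.cons f g : Fin (k + 1) → _)) :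
    Tendsto (fun p : ℝ × ℝ => γ p.1 p.2 * sd S D A f g (p.1, p.1) + γ' p.1 p.2 * sd S D A' f g p)
      fp (𝓝 0) := by
  obtain ⟨K, h⟩ := R.s k hk f g b
  refine squeeze_zero_norm' (ev_fp.2 ?_) ((H.rat (K := K)).comp fp_fst)
  filter_upwards [h, Ioo_mem_nhdsGT one_pos] with d e e1 d' e'
  refine le_trans (le_of_eq ?_) (e d ⟨e1.1, le_rfl⟩ d' e')
  rw [sd, sd, mul_left_comm, mul_left_comm (γ' d d' : ℂ), ← mul_add, norm_mul, Complex.norm_real,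
    norm_of_nonneg (pow_nonneg (log_nonneg (one_le_inv₀ e1.1 |>.2 e1.2.le)) _)]

theorem BIn.pin' (R : Re S D a A A' γ γ') (h1 : ∀ d d', |γ d d'| + |γ' d d'| = 1) (hk : k ≤ 2)
    (b : Adm (Fin.cons f g : Fin (k + 1) → _)) {r : ℝ} {v : ℂ} (v0 : v ≠ 0)
    (t : Tendsto (sd S D A f g) fp (𝓝 (r * v))) (t' : Tendsto (sd S D A' f g) fp (𝓝 v)) :
    Tendsto (fun p : ℝ × ℝ => γ p.1 p.2 * r + γ' p.1 p.2) fp (𝓝 0) := by
  have z : ∀ {c : ℝ × ℝ → ℝ} {x : ℝ × ℝ → ℂ} {v : ℂ}, (∀ p, |c p| ≤ 1) → Tendsto x fp (𝓝 v) →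
      Tendsto (fun p => c p * (x p - v)) fp (𝓝 0) := fun hc hx =>
    squeeze_zero_norm (fun p => by
      rw [norm_mul, Complex.norm_real]
      exact mul_le_of_le_one_left (norm_nonneg _) (hc p)) (tendsto_iff_norm_sub_tendsto_zero.1 hx)
  have := (((H.sm0 R hk b).sub (z (c := fun p => γ p.1 p.2)
    (fun p => by linarith [h1 p.1 p.2, abs_nonneg (γ' p.1 p.2)]) (t.comp (fp_diag.comp fp_fst)))).sub
    (z (c := fun p => γ' p.1 p.2) (fun p => by linarith [h1 p.1 p.2, abs_nonneg (γ p.1 p.2)])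
      t')).div_const v
  refine ((Complex.continuous_re.tendsto _).comp this).congr' (.of_forall fun p => ?_) |>.trans_eq
    (by simp)
  rw [← Complex.ofReal_re (γ p.1 p.2 * r + γ' p.1 p.2), Function.comp_apply]
  congr 1
  simp only [Function.comp_apply]
  push_cast
  field_simp
  ring

theorem BIn.cau (R : Re S D a A A γ γ') (h1 : ∀ d d', |γ d d'| + |γ' d d'| = 1) (hk : k ≤ 2)
    (b : Adm (Fin.cons f g : Fin (k + 1) → _)) {v : ℂ} (v0 : v ≠ 0)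
    (t : Tendsto (sd S D A f g) fp (𝓝 v)) : ∃ N, Cau S D N A := by
  have h2 := H.pin' R h1 hk b (r := 1) v0 (by simpa using t) t
  obtain ⟨N, K, T⟩ := exists_tel h1 (fun ε ε0 => ev_fp (P := fun p =>
    |γ p.1 p.2 + γ' p.1 p.2| ≤ ε).1 (by
      simpa using h2.abs.eventually_le_const (u := ε) (by simpa using ε0))) H.pin.pos
  have w : ∀ W, Sub S W → ∀ f Z, Dt f Z →
      Tendsto (fun d => N d * A W d f Z) (𝓝[>] 0) (𝓝 (Lmv N A W f Z)) := fun W hW f Z b => by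
    obtain ⟨K', h⟩ := R.w W hW f Z b
    obtain ⟨d, e1, e2⟩ := (T.cau.and (ev_ioc h)).exists
    exact tendsto_nhds_limUnder ((e1 _ _ e2).imp fun _ e => e.1)
  refine ⟨N, T.ne, T.sl, w, fun f Z b η η0 => ?_, fun k hk f g b => ?_⟩
  · obtain ⟨R, K', K0, h⟩ := R.u f Z b
    filter_upwards [T.cau, ev_ioc h, ((T.sl a H.pin.pos).const_mul (K * K')).eventually_le_const
      (u := η) (by simpa using η0)] with d e1 e2 e3
    refine ⟨R, fun μ B hB => ?_⟩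
    obtain ⟨L, l1, l2⟩ := e1 (fun d => A S d f (net.Θ μ B * Z * B))
      (K' * net.nq S μ (net.τ (dg (-R)) B)) fun d u d' u' =>
        (e2 d u d' u' μ B hB).trans_eq (mul_right_comm _ _ _)
    beta_reduce
    rw [Lmv, l1.limUnder_eq, norm_sub_rev]
    exact l2.trans (by linarith [mul_le_mul_of_nonneg_right e3 (nq_nn H.inp.st hB μ)])
  · obtain ⟨K', h⟩ := R.s k hk f g b
    refine squeeze_zero_norm' ?_ (H.rat (K := K * K'))
    filter_upwards [T.cau, h, T.ne, H.pos', Ioo_mem_nhdsGT one_pos] with d e1 e2 e3 e4 e5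
    obtain ⟨L, l1, l2⟩ := e1 (fun d' => sd S D A f g (d, d')) (K' / D d ^ a) fun d₁ u d' u' => by
      refine le_trans (le_of_eq ?_) ((e2 d₁ u d' u').trans_eq ?_)
      · rw [sd, sd, mul_left_comm, mul_left_comm (γ' d₁ d' : ℂ), ← mul_add, norm_mul,
          Complex.norm_real,
          norm_of_nonneg (pow_nonneg (log_nonneg (one_le_inv₀ e5.1 |>.2 e5.2.le)) _)]
      · rw [div_rpow u.1.le e4.le]
        ring
    have l3 := tendsto_nhds_unique l1 (((w S H.sub _ _ (dt_of (adm_sc b e4))).const_mul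
      ((log d⁻¹ ^ (k + 2) : ℝ) : ℂ)).congr fun _ => mul_left_comm _ _ _)
    have n0 : (N d : ℂ) ≠ 0 := Complex.ofReal_ne_zero.2 e3
    refine le_of_mul_le_mul_left (le_of_eq_of_le ?_ (l2.trans_eq ?_)) (abs_pos.2 e3)
    · rw [← norm_eq_abs, ← Complex.norm_real, ← norm_mul, norm_sub_rev, l3, mul_sub,
        Complex.ofReal_div, ← mul_assoc, mul_div_cancel₀ _ n0]
    · rw [div_rpow e5.1.le e4.le]
      ring

theorem BIn.nz (C : Cau S D N A) (hk : k ≤ 2) (b : Adm (Fin.cons f g : Fin (k + 1) → _)) {v : ℂ}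
    (v0 : v ≠ 0) (t : Tendsto (sd S D A f g) fp (𝓝 v)) : ∃ f Z, Dt f Z ∧ Lmv N A S f Z ≠ 0 := by
  have := ((C.s k hk f g b).add (t.comp fp_diag)).eventually_ne (by rwa [zero_add])
  obtain ⟨d, e1, e2⟩ := (this.and H.pos').exists
  exact ⟨_, _, dt_of (adm_sc b e2), fun e => e1 (by simp [e])⟩

end Pool.Agent.Lib.MP_7f377f_mp.Ope
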