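import Pool.Agent.Lib.MP_7f377f_mp.G.SbV

/-! The limits of the normalised pairs are quadratic forms of the direction. -/

noncomputable section

namespace Pool.Agent.Lib.MP_7f377f_mp.Ope
variable [Pool.Agent.Lib.MP_7f377f_mp.GD]
set_option linter.unusedSectionVars false

open MeasureTheory Filter Topology Set Real YM7 Pur MvPolynomial Metric Lg

/-- the scalar pair is proportional to the field -/
def Sc (S : Pol →ₗ[ℂ] ℂ) (M : ℝ → ℝ) (h : R4 → ℝ) (c : ℝ → ℝ) : Prop :=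
  Tendsto (fun d => c d * log d / M d) (𝓝[>] 0) (𝓝 0) ∧ ∀ W, Sub S W → ∀ f Z, Dt f Z →
    Tendsto (fun d => M d * A1 h W d f Z - 4 * (c d * cv W (X f) Z)) (𝓝[>] 0) (𝓝 0)

variable {S W : Pol →ₗ[ℂ] ℂ} {h h₀ f f' : R4 → ℝ} {Z : Pol} {a K θ : ℝ} {D M N c : ℝ → ℝ}
  {A A' A₀ : Fl} {γ γ' : ℝ → ℝ → ℝ} {κ : (R4 → ℝ) → ℝ} {F : Fr} {k : ℕ} {g : Fin k → R4 → ℝ}
  {n u v : R4} {r : Ro.Iso} {d : ℝ}

instance : fp.NeBot := fp_diag.neBot

theorem prp_rot (φ : ℝ) : PI.dt (Ro.rot 0 φ) = 1 := by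
  rw [← add_halves φ, ← Ro.rot_mul, PI.dt_mul, ← abs_mul_abs_self, PI.dt,
    ← LinearMap.normDet_eq_abs_det]
  exact (congrArg₂ (· * ·) (LinearIsometry.normDet_eq_one (Ro.rot 0 (φ / 2)).toLinearIsometry)
    (LinearIsometry.normDet_eq_one (Ro.rot 0 (φ / 2)).toLinearIsometry)).trans (mul_one _)

theorem Sub.inv (hW : Sub S W) (hr : PI.dt r = 1) : Ro.Inv W r.symm :=
  .of_mon fun k f hf => by rw [Ro.act_mon]; exact hW.rot r hr k f hf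

theorem Sm.rot' (b : Sm d f Z) (hh : Rd h) (hr : Ro.Inv W r.symm) (n1 : ‖n‖ = 1) :
    Ai W (hn h n) d (fun y => f (r y)) (Ro.act r.symm Z) = Ai W (hn h (r n)) d f Z := by
  simpa using b.rot hh ((r.norm_map n).trans n1) hr

theorem cvX_act (b : Dt f Z) (hr : Ro.Inv W r) :
    cv W (X fun y => f (r.symm y)) (Ro.act r Z) = cv W (X f) Z := by
  rw [← Ro.act_X, cv_act hr b.gd.mem b.2]

theorem Dt.rot (b : Dt f Z) (r : Ro.Iso) : Dt (fun y => f (r y)) (Ro.act r.symm Z) := b.act r.symm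

theorem a6_rot (b : Sm d f Z) (hh : Rd h) (hr : Ro.Inv W (Ro.rot 0 (π / 4))) :
    A6 h (π / 4) W d (fun y => f ((Ro.rot 0 (π / 4)).symm y)) (Ro.act (Ro.rot 0 (π / 4)) Z) =
      A3 h 0 W d f Z := by
  rw [A6, t6_eq fun n => hh.Ai_neg n]
  simp only [A3, t3, b.rot hh (norm_nt _) hr]

theorem t1_qf (B : Fin 4 → Fin 4 → ℂ) : t1 (qf B) = ∑ μ, B μ μ := by
  simp [t1, qf, Fin.sum_univ_four]

theorem rot_ev (hr : Ro.Inv W r.symm) (hh : Rd h) (b : Dt f Z) : ∀ᶠ d in 𝓝[>] (0 : ℝ),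
    (∀ θ, A3 h θ W d (fun y => f (r y)) (Ro.act r.symm Z) = t3 θ fun n => Ai W (hn h (r n)) d f Z) ∧
    (∀ θ, A6 h θ W d (fun y => f (r y)) (Ro.act r.symm Z) = t6 θ fun n => Ai W (hn h (r n)) d f Z) ∧
    A1 h W d (fun y => f (r y)) (Ro.act r.symm Z) = t1 fun n => Ai W (hn h (r n)) d f Z :=
  b.sm.mono fun d e => by
    simp only [A3, A6, A1, t3, t6, t1, e.rot' hh hr (norm_nt _), e.rot' hh hr (norm_ee _),
      implies_true, and_self]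

theorem Sc.rot (s : Sc S M h c) (hh : Rd h) (hW : Sub S W) (hr : PI.dt r = 1) (b : Dt f Z) :
    Tendsto (fun d => M d * t1 (fun n => Ai W (hn h (r n)) d f Z) - 4 * (c d * cv W (X f) Z))
      (𝓝[>] 0) (𝓝 0) :=
  (s.2 W hW _ _ (b.rot r)).congr' ((rot_ev (hW.inv hr) hh b).mono fun d e => by
    beta_reduce
    rw [← e.2.2, ← cvX_act b (hW.inv hr)]
    rfl)

theorem inner_ee (r : Ro.Iso) {μ ν : Fin 4} (e : μ ≠ ν) : inner ℝ (r (ee μ)) (r (ee ν)) = 0 := by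
  simp [EuclideanSpace.inner_single_left, e]

theorem qq_neg (hh : Rd h) (n : R4) : qq W h M f Z (-n) = qq W h M f Z n := by
  simp only [qq, hh.Ai_neg]

variable (H : BIn S h₀ D κ F a)
include H

theorem BIn.re3 (hh : Rd h) (θ : ℝ) : ∃ γ γ' : ℝ → ℝ → ℝ, (∀ d d', |γ d d'| + |γ' d d'| = 1) ∧
    Re S D a (A3 h θ) (A3 h₀ 0) γ γ' :=
  let ⟨_, _, h1, h2⟩ := H.pin.r3 h hh θ
  let ⟨_, _, h3, h4⟩ := lim_norm h1
  ⟨_, _, h3, h2.re H.inp (gf_Y3 hh θ) (gf_Y3 H.ts.rd 0) (cvg3 hh θ) (cvg3 H.ts.rd 0) H.pos' H.ts.rat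
    (.of_forall fun d d' _ => h4 d d')⟩

theorem BIn.re6 (θ : ℝ) : ∃ γ γ' : ℝ → ℝ → ℝ, (∀ d d', |γ d d'| + |γ' d d'| = 1) ∧
    Re S D a (A6 h₀ θ) (A6 h₀ (π / 4)) γ γ' :=
  let ⟨_, _, h1, h2⟩ := H.pin.r6 θ
  let ⟨_, _, h3, h4⟩ := lim_norm h1
  ⟨_, _, h3, h2.re H.inp (gf_Y6 H.ts.rd θ) (gf_Y6 H.ts.rd _) (cvg6 H.ts.rd θ) (cvg6 H.ts.rd _)
    H.pos' H.ts.rat (.of_forall fun d d' _ => h4 d d')⟩

theorem BIn.ts3 (hk : k ≤ 2) (hh : Rd h) (b : Adm (Fin.cons f g : Fin (k + 1) → _)) (θ : ℝ) :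
    Tendsto (sd S D (A3 h θ) f g) fp
      (𝓝 (κ h * (cos (2 * θ) * (2 * ((F k 0 0 f g : ℂ) - F k 1 1 f g))))) ∧
    Tendsto (sd S D (A6 h θ) f g) fp
      (𝓝 (κ h * (sin (2 * θ) * (2 * ((F k 0 1 f g : ℂ) + F k 1 0 f g))))) ∧
    Tendsto (sd S D (A1 h) f g) fp (𝓝 0) := by
  have := t3_lim (H.tsn hk hh b) θ
  rwa [t3_qf, t6_qf, t1_qf, ← Complex.ofReal_sum, H.ts.tr, Complex.ofReal_zero, mul_zero] at this

theorem BIn.nd3 : ∃ (f : R4 → ℝ) (g : Fin 2 → R4 → ℝ), Adm (Fin.cons f g : Fin 3 → _) ∧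
    (κ h₀ : ℂ) * (2 * ((F 2 0 0 f g : ℂ) - F 2 1 1 f g)) ≠ 0 :=
  let ⟨f, g, b, e⟩ := H.ts.nd
  ⟨f, g, b, mul_ne_zero (Complex.ofReal_ne_zero.2 H.ts.ne) (mul_ne_zero two_ne_zero
    (sub_ne_zero.2 (Complex.ofReal_injective.ne e)))⟩

theorem BIn.nd6 : ∃ (f : R4 → ℝ) (g : Fin 2 → R4 → ℝ), Adm (Fin.cons f g : Fin 3 → _) ∧
    (κ h₀ : ℂ) * (2 * ((F 2 0 1 f g : ℂ) + F 2 1 0 f g)) ≠ 0 := by
  obtain ⟨f, g, b, e⟩ := H.nd3
  refine ⟨_, _, adm_rot b (Ro.rot 0 (π / 4)), fun e' => e ?_⟩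
  have := tendsto_nhds_unique_of_eventuallyEq (H.ts3 le_rfl H.ts.rd b 0).1
    (H.ts3 le_rfl H.ts.rd (adm_rot b (Ro.rot 0 (π / 4))) (π / 4)).2.1 ((H.sm b).mono fun p e => by
      simp only [sd, ← sc_act, ← Ro.act_mon, a6_rot e H.ts.rd (H.inv _)])
  rwa [mul_zero, cos_zero, Complex.ofReal_one, one_mul, mul_left_comm _ ((sin _ : ℝ) : ℂ), e',
    mul_zero] at this

theorem BIn.prop (C : Cau S D M A₀) (R : Re S D a A A' γ γ') (h1 : ∀ d d', |γ d d'| + |γ' d d'| = 1)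
    (b : Adm (Fin.cons f' g : Fin (k + 1) → _)) (hk : k ≤ 2) {r : ℝ} {v L : ℂ} (v0 : v ≠ 0)
    (t : Tendsto (sd S D A f' g) fp (𝓝 (r * v))) (t' : Tendsto (sd S D A' f' g) fp (𝓝 v))
    (hW : Sub S W) (b' : Dt f Z) (l : Tendsto (fun d => M d * A' W d f Z) (𝓝[>] 0) (𝓝 L)) :
    Tendsto (fun d => M d * A W d f Z) (𝓝[>] 0) (𝓝 (r * L)) :=
  ratio (fun d => h1 d d) ((H.pin' R h1 hk b v0 t t').comp fp_diag)
    ((C.mul H.pin.pos (R.dg hW b')).congr fun d => by ring) l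

theorem BIn.c3 : ∃ M, Cau S D M (A3 h₀ 0) := by
  obtain ⟨_, _, h1, R⟩ := H.re3 H.ts.rd 0
  obtain ⟨f, g, b, e⟩ := H.nd3
  exact H.cau R h1 le_rfl b e (by simpa using (H.ts3 le_rfl H.ts.rd b 0).1)

theorem BIn.c6 : ∃ N, Cau S D N (A6 h₀ (π / 4)) ∧ ∃ f Z, Dt f Z ∧ Lmv N (A6 h₀ (π / 4)) S f Z ≠ 0 := by
  obtain ⟨_, _, h1, R⟩ := H.re6 (π / 4)
  obtain ⟨f, g, b, e⟩ := H.nd6
  have t := (H.ts3 le_rfl H.ts.rd b (π / 4)).2.1
  rw [show 2 * (π / 4) = π / 2 by ring, sin_pi_div_two, Complex.ofReal_one, one_mul] at t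
  exact (H.cau R h1 le_rfl b e t).imp fun N C => ⟨C, H.nz C le_rfl b e t⟩

theorem BIn.af : ∃ (f : R4 → ℝ) (g : Fin 1 → R4 → ℝ) (v : ℂ), Adm (Fin.cons f g : Fin 2 → _) ∧
    v ≠ 0 ∧ Tendsto (fun d => ((log (D d)⁻¹ ^ 2 : ℝ) : ℂ) *
      cv S (X (sc (D d) f)) (mon fun i => sc (D d) (g i))) (𝓝[>] 0) (𝓝 v) := by
  obtain ⟨g, g1, g2⟩ := kap_ne
  have b := adm_pd (src_adm g1) (g1 0).1 0
  refine ⟨_, _, _, b, Complex.ofReal_ne_zero.2 g2, ((H.inp.af 2 _ b).comp H.pos).congr'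
    (H.pos'.mono fun d e => ?_)⟩
  simp [cv, H.cen _ (dt_of (adm_sc b e)).1, mon, Fin.prod_univ_succ]
  exact .inl rfl

theorem BIn.p1 (C : Cau S D M A₀) (hh : Rd h) : ∃ c, Sc S M h c := by
  obtain ⟨c, R⟩ := H.pin.r1 h hh
  obtain ⟨f, g, v, b, v0, t⟩ := H.af
  have R' : Re S D a (A1 h) A0 (fun _ _ => 1) fun d d' => limUnder (hyperfilter ℕ) (c d d') := by
    refine R.re H.inp (gf_Y1 hh) (gf_Y0 H.inp.lin) (cvg1 hh) cvg0 H.pos' H.ts.rat ?_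
    obtain ⟨K, h1⟩ := R.sca 1 one_le_two f g b
    filter_upwards [h1, t.eventually_ne v0, fp_diag.eventually (H.sm b), Ioo_mem_nhdsGT one_pos]
      with d e1 e2 e3 e4 d' e
    obtain ⟨B, hB⟩ := (cvg1 hh S H.inp _ _ _ e3).norm.isBoundedUnder_le
    have l0 : 0 < log d⁻¹ ^ (1 + 2) := pow_pos (log_pos (one_lt_inv₀ e4.1 |>.2 e4.2)) _
    refine ⟨tendsto_const_nhds, ultra_lim _ (C := (K * (d / D d) ^ a / log d⁻¹ ^ (1 + 2) + B) /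
      ‖cv S (X (sc (D d) f)) (mon fun i => sc (D d) (g i))‖) (((e1 d ⟨e4.1, le_rfl⟩ d' e).and
        (eventually_map.1 hB)).filter_mono Nat.hyperfilter_le_atTop |>.mono fun m r => ?_)⟩
    rw [le_div_iff₀ (norm_pos_iff.2 (right_ne_zero_of_mul e2)), ← norm_eq_abs, ← Complex.norm_real,
      ← norm_mul]
    have r1 := (le_div_iff₀' l0).2 r.1
    rw [cb, cv_add, cv_smul, cv_smul, Complex.ofReal_one, one_mul] at r1
    simpa only [add_sub_cancel_left, Y0] using norm_sub_le_of_le r1 r.2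
  refine ⟨fun d => -(M d * limUnder (hyperfilter ℕ) (c d d) / 4), ?_, fun W hW f Z b =>
    (C.mul H.pin.pos (R'.dg hW b)).congr fun d => by simp [A0]; ring⟩
  have h2 := ((((H.sm0 R' one_le_two b).comp fp_diag).sub ((H.ts3 one_le_two hh b 0).2.2.comp
    fp_diag)).div t v0).norm
  refine squeeze_zero_norm' ?_ (h2.trans_eq (by simp))
  filter_upwards [C.ne, t.eventually_ne v0, H.ts.le, H.pos.eventually (Ioo_mem_nhdsGT one_pos),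
    self_mem_nhdsWithin] with d e1 e2 e3 e4 (d0 : 0 < d)
  have l0 : 0 < log (D d)⁻¹ := log_pos (one_lt_inv₀ e4.1 |>.2 e4.2)
  have l1 : log (D d)⁻¹ ≤ log d⁻¹ := log_le_log (inv_pos.2 e4.1) (inv_anti₀ d0 e3)
  have x0 := norm_pos_iff.2 (right_ne_zero_of_mul e2)
  simp only [Function.comp, sd, A0, Pi.div_apply, Complex.ofReal_one, one_mul, add_sub_cancel_left,
    norm_div, norm_mul, Complex.norm_real, norm_eq_abs, norm_neg]
  rw [← neg_neg (log d), ← log_inv, abs_neg, abs_of_pos (l0.trans_le l1), abs_of_pos (pow_pos l0 _),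
    abs_of_pos (pow_pos (l0.trans_le l1) _)]
  have m0 := (abs_pos.2 e1).ne'
  rw [← mul_assoc, mul_div_mul_right _ _ x0.ne', le_div_iff₀ (pow_pos l0 _), Nat.abs_ofNat,
    show ∀ x, |M d| * x / 4 * log d⁻¹ / |M d| * log (D d)⁻¹ ^ 2 =
      x * (log d⁻¹ * log (D d)⁻¹ ^ 2 / 4) from fun x => by field_simp, pow_add, pow_one]
  exact mul_le_mul_of_nonneg_left (by
    linarith [mul_le_mul_of_nonneg_left (pow_le_pow_left₀ l0.le l1 2) (l0.trans_le l1).le,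
      mul_pos (l0.trans_le l1) (pow_pos l0 2)]) (abs_nonneg _)

variable (C : Cau S D M (A3 h₀ 0)) (hW : Sub S W) (b : Dt f Z)
include C hW b

theorem BIn.p3 (hr : PI.dt r = 1) : ∃ L : ℂ, ∀ h, Rd h → ∀ θ,
    Tendsto (fun d => M d * t3 θ fun n => Ai W (hn h (r n)) d f Z) (𝓝[>] 0)
      (𝓝 (κ h * (cos (2 * θ) * L))) := by
  obtain ⟨f', g, b', e⟩ := H.nd3
  have k0 : (κ h₀ : ℂ) ≠ 0 := left_ne_zero_of_mul e
  refine ⟨Lmv M (A3 h₀ 0) W (fun y => f (r y)) (Ro.act r.symm Z) / κ h₀, fun h hh θ => ?_⟩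
  obtain ⟨_, _, h1, R⟩ := H.re3 hh θ
  have := (H.prop C R h1 b' le_rfl (r := κ h / κ h₀ * cos (2 * θ)) e
    ((H.ts3 le_rfl hh b' θ).1.trans_eq (congrArg 𝓝 (by
      rw [Complex.ofReal_mul, Complex.ofReal_div]
      field_simp))) (by simpa using (H.ts3 le_rfl H.ts.rd b' 0).1) hW (b.rot r)
        (C.w W hW _ _ (b.rot r))).congr' ((rot_ev (hW.inv hr) hh b).mono fun d e =>
          congrArg ((M d : ℂ) * ·) (e.1 θ))
  refine this.trans_eq (congrArg 𝓝 ?_)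
  rw [Complex.ofReal_mul, Complex.ofReal_div]
  field_simp

theorem BIn.p6 (hr : PI.dt r = 1) : ∃ L : ℂ, ∀ θ,
    Tendsto (fun d => M d * t6 θ fun n => Ai W (hn h₀ (r n)) d f Z) (𝓝[>] 0)
      (𝓝 (sin (2 * θ) * L)) := by
  obtain ⟨f', g, b', e⟩ := H.nd6
  obtain ⟨L, l⟩ := H.p3 C hW (b.rot r) (prp_rot (π / 4))
  refine ⟨κ h₀ * (cos (2 * 0) * L), fun θ => ?_⟩
  obtain ⟨_, _, h1, R⟩ := H.re6 θ
  have t := (H.ts3 le_rfl H.ts.rd b' (π / 4)).2.1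
  rw [show 2 * (π / 4) = π / 2 by ring, sin_pi_div_two, Complex.ofReal_one, one_mul] at t
  exact (H.prop C R h1 b' le_rfl e ((H.ts3 le_rfl H.ts.rd b' θ).2.1.trans_eq
    (congrArg 𝓝 (mul_left_comm _ _ _))) t hW (b.rot r) ((l h₀ H.ts.rd 0).congr fun d => by
      rw [A6, t6_eq fun n => H.ts.rd.Ai_neg n])).congr' ((rot_ev (hW.inv hr) H.ts.rd b).mono
        fun d e => congrArg ((M d : ℂ) * ·) (e.2.1 θ))

theorem BIn.gen (n1 : ‖n‖ = 1) : ∃ x : ℂ, ∀ h c, Rd h → Sc S M h c →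
    Tendsto (fun d => M d * Ai W (hn h n) d f Z - c d * cv W (X f) Z) (𝓝[>] 0) (𝓝 (κ h * x)) := by
  obtain ⟨B, s, -, -, e, -⟩ := exists_frame n 0
  obtain ⟨r, hr, rfl, -⟩ := exists_rot n1 (B.orthonormal.1 1) (by
    rw [e, inner_smul_left, B.orthonormal.2 (by decide), mul_zero])
  have : ∀ μ, ∃ x : ℂ, ∀ h, Rd h → Tendsto (fun d => M d * (Ai W (hn h (r (ee 0))) d f Z -
      Ai W (hn h (r (ee μ))) d f Z)) (𝓝[>] 0) (𝓝 (κ h * x)) := fun μ => by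
    by_cases e : 0 = μ
    · exact ⟨0, fun h _ => by simpa [e] using tendsto_const_nhds⟩
    obtain ⟨r', hr', e0, e1⟩ := exists_rot ((r.norm_map _).trans (norm_ee 0))
      ((r.norm_map _).trans (norm_ee μ)) (inner_ee r e)
    obtain ⟨L, l⟩ := H.p3 C hW b hr'
    refine ⟨L / 2, fun h hh => (((l h hh 0).div_const 2).congr fun d => ?_).trans_eq
      (congrArg 𝓝 (by simp [mul_div_assoc]))⟩
    rw [t3_zero, e0, e1]
    ring
  choose x hx using this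
  refine ⟨(∑ μ, x μ) / 4, fun h c hh s => ((((tendsto_finsetSum .univ fun μ _ => hx μ h hh).add
    (s.rot hh hW hr b)).div_const 4).congr fun d => ?_).trans_eq (congrArg 𝓝 ?_)⟩
  · simp only [t1, Fin.sum_univ_four]
    ring
  · rw [← Finset.mul_sum, add_zero, mul_div_assoc]

theorem BIn.ope (n1 : ‖n‖ = 1) : Tendsto (fun d => M d * (Ai W (hn h₀ n) d f Z -
    4⁻¹ * t1 fun m => Ai W (hn h₀ m) d f Z)) (𝓝[>] 0) (𝓝 (qq W h₀ M f Z n)) ∧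
      ∀ h c, Rd h → Sc S M h c → Tendsto (fun d => M d * Ai W (hn h n) d f Z - c d * cv W (X f) Z)
        (𝓝[>] 0) (𝓝 (κ h * ((κ h₀ : ℂ)⁻¹ * qq W h₀ M f Z n))) := by
  obtain ⟨x, hx⟩ := H.gen C hW b n1
  obtain ⟨c, s⟩ := H.p1 C H.ts.rd
  have t : Tendsto (fun d => M d * (Ai W (hn h₀ n) d f Z - 4⁻¹ * t1 fun m => Ai W (hn h₀ m) d f Z))
      (𝓝[>] 0) (𝓝 (κ h₀ * x)) := (((hx _ _ H.ts.rd s).sub ((s.2 W hW f Z b).div_const 4)).congr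
    fun d => by rw [A1]; ring).trans_eq (by simp)
  rw [qq, t.limUnder_eq, inv_mul_cancel_left₀ (Complex.ofReal_ne_zero.2 H.ts.ne)]
  exact ⟨t, hx⟩

theorem BIn.frame (hr : PI.dt r = 1) : t1 (fun n => qq W h₀ M f Z (r n)) = 0 := by
  obtain ⟨c, s⟩ := H.p1 C H.ts.rd
  have t := tendsto_nhds_unique (tendsto_finsetSum Finset.univ fun μ _ =>
    (H.ope C hW b ((r.norm_map _).trans (norm_ee μ))).2 _ _ H.ts.rd s)
    ((s.rot H.ts.rd hW hr b).congr fun d => by simp only [t1, Fin.sum_univ_four]; ring)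
  simpa only [t1, mul_inv_cancel_left₀ (Complex.ofReal_ne_zero.2 H.ts.ne)] using t

theorem BIn.lim (r : Ro.Iso) (θ : ℝ) :
    Tendsto (fun d => M d * t3 θ fun n => Ai W (hn h₀ (r n)) d f Z) (𝓝[>] 0)
      (𝓝 (t3 θ fun n => qq W h₀ M f Z (r n))) ∧
    Tendsto (fun d => M d * t6 θ fun n => Ai W (hn h₀ (r n)) d f Z) (𝓝[>] 0)
      (𝓝 (t6 θ fun n => qq W h₀ M f Z (r n))) := by
  have e := fun θ => (H.ope C hW b ((r.norm_map _).trans (norm_nt θ))).1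
  exact ⟨((((e _).add (e _)).sub (e _)).sub (e _)).congr fun d => by rw [t3]; ring,
    ((((e _).sub (e _)).add (e _)).sub (e _)).congr fun d => by rw [t6]; ring⟩

theorem BIn.circ : Circ (qq W h₀ M f Z) := fun u v hu hv o => by
  obtain ⟨r, hr, rfl, rfl⟩ := exists_rot hu hv o
  obtain ⟨L, l⟩ := H.p3 C hW b hr
  obtain ⟨L', l'⟩ := H.p6 C hW b hr
  refine ⟨-(qq W h₀ M f Z (r (ee 2)) + qq W h₀ M f Z (r (ee 3))) / 2, κ h₀ * L / 4, L' / 4,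
    fun θ => ?_⟩
  have e1 := tendsto_nhds_unique (H.lim C hW b r θ).1 (l _ H.ts.rd θ)
  have e2 := tendsto_nhds_unique (H.lim C hW b r θ).2 (l' θ)
  have e3 := H.frame C hW b (r := r * Ro.rot 0 θ) (by rw [PI.dt_mul, prp_rot, mul_one]; exact hr)
  have e4 : Ro.rot 0 θ (ee 2) = ee 2 ∧ Ro.rot 0 θ (ee 3) = ee 3 := by
    constructor <;> ext i <;> fin_cases i <;> simp [Ro.rot_apply, Ro.rv]
  simp only [t1, Fin.sum_univ_four, LinearIsometryEquiv.coe_mul, Function.comp, e4, ← nt_zero,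
    ← nt_half, rot_nt, zero_add] at e3
  rw [← map_smul, ← map_smul, ← map_add, ← nt]
  simp only [t3, t6] at e1 e2
  linear_combination e1 / 4 + e2 / 4 + e3 / 2

theorem BIn.cov (hr : Ro.Inv W r) (n1 : ‖n‖ = 1) :
    qq W h₀ M (fun y => f (r.symm y)) (Ro.act r Z) (r n) = qq W h₀ M f Z n := by
  obtain ⟨c, s⟩ := H.p1 C H.ts.rd
  have t := tendsto_nhds_unique_of_eventuallyEq ((H.ope C hW (b.act r)
    ((r.norm_map _).trans n1)).2 _ _ H.ts.rd s) ((H.ope C hW b n1).2 _ _ H.ts.rd s)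
    (b.sm.mono fun d e => by simp only [e.rot H.ts.rd n1 hr, cvX_act b hr])
  simpa only [mul_inv_cancel_left₀ (Complex.ofReal_ne_zero.2 H.ts.ne)] using t

end Pool.Agent.Lib.MP_7f377f_mp.Ope
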