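import Pool.Agent.Lib.MP_7f377f_mp.G.ScDef
import Pool.Agent.Lib.MP_7f377f_mp.StS

/-! The tensor field: translation covariance and continuity in the sources. -/

noncomputable section

namespace Pool.Agent.Lib.MP_7f377f_mp.Ope
variable [Pool.Agent.Lib.MP_7f377f_mp.GD]
set_option linter.unusedSectionVars false

open MeasureTheory Filter Topology Set Real YM7 Pur MvPolynomial Metric Fx Lg
open scoped ContDiff NNReal

/-- the soft properties of the tensor field -/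
structure Ax (S : Pol →ₗ[ℂ] ℂ) (T : Tn) : Prop where
  inp : Inp S
  rot : Rot S
  cen : ∀ f, Adm ![f] → S (X f) = 0
  sym : ∀ μ ν f Z, T μ ν f Z = T ν μ f Z
  cov : ∀ g : Ro.Iso, Ro.Inv S g → ∀ f Z, Dt f Z → ∀ μ ν, T μ ν f Z =
    ∑ i, ∑ j, (g (ee μ) i * g (ee ν) j : ℝ) * T i j (fun y => f (g.symm y)) (Ro.act g Z)
  lin : ∀ μ ν (c : ℝ) f f' Z, Dt f Z → Dt f' Z →
    T μ ν (f + c • f') Z = T μ ν f Z + c * T μ ν f' Z
  linZ : ∀ μ ν (c : ℂ) f Z Z', Dt f Z → Dt f Z' →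
    T μ ν f (Z + c • Z') = T μ ν f Z + c * T μ ν f Z'
  ti : ∀ v μ ν f Z, Dt f Z → T μ ν (fun y => f (y - v)) (net.τ v Z) = T μ ν f Z
  dis : ∀ μ ν f Z K, IsCompact K → Adm ![f] → Disjoint K (tsupport f) →
    Z ∈ net.loc (K ∪ tsupport f)ᶜ → St.Dis K fun g => T μ ν f (X g * Z)

variable {S W : Pol →ₗ[ℂ] ℂ} {K O : Set R4} {Y Z : Pol} {f g u : R4 → ℝ} {d : ℝ}

theorem sub_rfl (hI : Inp S) (hR : Rot S) : Sub S S :=
  ⟨hI.st.one, fun _ _ _ _ _ _ _ h => by simpa using h 1 (net.one _), hR⟩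

theorem dis_W (hW : Inp W) (hK : IsCompact K) (hY : Y ∈ net.loc Kᶜ) :
    St.Dis K fun g => W (X g * Y) := by
  obtain ⟨m, c, k, f, f1, f2, rfl⟩ := PN.exists_sum hY
  have := (St.DisS K).sum_mem (t := Finset.univ) fun a _ => (St.DisS K).smul_mem (c a)
    (show St.Dis K fun g => W (X g * mon (f a)) from ?_)
  · exact St.Dis.congr this fun g _ => by simp [Finset.mul_sum]
  obtain ⟨D, q, d1, d2, d3⟩ := (f1 a).data
  obtain ⟨R, hR⟩ := hK.isBounded.exists_norm_le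
  obtain ⟨δ, δ0, hδ⟩ := hK.exists_thickening_subset_open
    (isClosed_iUnion_of_finite fun j => isClosed_tsupport (f a j)).isOpen_compl
    fun y hy hy' => let ⟨j, hj⟩ := mem_iUnion.1 hy'; f2 _ _ hj hy
  obtain ⟨C, hC⟩ := qual_of hW.st hW.lin hW.grow (k a + 1) (max R D) (min δ (1 / (q + 1)))
    (by positivity)
  have x1 : ∀ {g x y j}, St.Ts K g → g x ≠ 0 → f a j y ≠ 0 → min δ (1 / (q + 1)) ≤ dist y x :=
    fun hg hx hy => (min_le_left _ _).trans (not_lt.1 fun e => hδ (mem_thickening_iff.2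
      ⟨_, hg.2.2 (subset_tsupport _ hx), e⟩) (mem_iUnion.2 ⟨_, subset_tsupport _ hy⟩))
  refine ⟨fun g g' c a b => hW.lin g g' c a.1 a.2.1 b.1 b.2.1 _ (mon_mem (f1 _) fun i =>
    (f2 _ i).trans (compl_subset_compl.2 (union_subset a.2.2 b.2.2))), C * D ^ k a,
    fun g L hg hL => ?_⟩
  have := hC (Fin.cons g (f a)) (Fin.cons L fun _ => D) (PN.adm_cons hg.1 hg.2.1 (f1 a) fun i =>
    disjoint_left.2 fun y h1 h2 => f2 _ _ h2 (hg.2.2 h1)) (Fin.forall_fin_succ.2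
      ⟨⟨hL, fun y hy => (hR y (hg.2.2 (subset_tsupport _ hy))).trans (le_max_left _ _)⟩, fun i =>
        ⟨(d2 i).1, fun y hy => (d1 i y (subset_tsupport _ hy)).trans (le_max_right _ _)⟩⟩)
    (Fin.forall_fin_succ.2 ⟨Fin.forall_fin_succ.2 ⟨fun e => absurd rfl e, fun j _ x y hx hy =>
      dist_comm x y ▸ x1 hg hx hy⟩, fun i => Fin.forall_fin_succ.2 ⟨fun _ x y hx hy => x1 hg hy hx,
        fun j e x y hx hy => (min_le_right _ _).trans (d3 i j (fun e' => e (by rw [e'])) x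
          (subset_tsupport _ hx) y (subset_tsupport _ hy))⟩⟩)
  rw [PN.mon_cons, Fin.prod_univ_succ] at this
  exact this.trans_eq (by simp; ring)

theorem dis_cv (hW : Inp W) (hK : IsCompact K) (hO : Disjoint K O) (hY : Y ∈ net.loc O)
    (hZ : Z ∈ net.loc (K ∪ O)ᶜ) : St.Dis K fun g => cv W Y (X g * Z) :=
  St.Dis.congr ((St.DisS K).sub_mem (dis_W hW hK (net.mono (net.mul hY hZ (disjoint_compl_right.mono_left
    subset_union_right)) (union_subset hO.subset_compl_left (compl_subset_compl.2 subset_union_left))))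
    ((St.DisS K).smul_mem (W Y) (dis_W hW hK (net.mono hZ (compl_subset_compl.2 subset_union_left)))))
    fun g _ => by simp [cv, mul_left_comm Y]

theorem dt_mul (hf : Adm ![f]) (hK : Disjoint K (tsupport f)) (hZ : Z ∈ net.loc (K ∪ tsupport f)ᶜ)
    (hg : St.Ts K g) : Dt f (X g * Z) :=
  ⟨hf, net.mono (net.mul (PN.Gd.mem hg) hZ (disjoint_compl_right.mono_left subset_union_left))
    (union_subset hK.subset_compl_right (compl_subset_compl.2 subset_union_right))⟩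

theorem loc_sep (hK : IsCompact K) (hZ : Z ∈ net.loc Kᶜ) :
    ∃ δ > 0, Z ∈ net.loc (thickening δ K)ᶜ := by
  obtain ⟨m, c, k, g, g1, g2, rfl⟩ := PN.exists_sum hZ
  obtain ⟨δ, δ0, e⟩ := hK.exists_thickening_subset_open
    (isClosed_iUnion_of_finite fun j : Σ i, Fin (k i) => isClosed_tsupport (g j.1 j.2)).isOpen_compl
    fun y hy hy' => let ⟨j, hj⟩ := mem_iUnion.1 hy'; g2 _ _ hj hy
  exact ⟨δ, δ0, Submodule.sum_mem _ fun i _ => Submodule.smul_mem _ _ (mon_mem (g1 i)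
    fun j y hy hy' => e hy' (mem_iUnion.2 ⟨⟨i, j⟩, hy⟩))⟩

theorem dis_Ai (hW : Inp W) (hK : IsCompact K) (hf : Adm ![f]) (hO : Disjoint K (tsupport f))
    (hZ : Z ∈ net.loc (K ∪ tsupport f)ᶜ) (hu : Pb u) :
    ∀ᶠ d in 𝓝[>] (0 : ℝ), St.Dis K fun g => Ai W u d f (X g * Z) := by
  have c := (adm_one.1 hf).1.isCompact
  obtain ⟨δ, δ0, hδ⟩ := c.exists_thickening_subset_open hK.isClosed.isOpen_compl
    hO.subset_compl_left
  obtain ⟨ε, e0, hε⟩ := loc_sep (hK.union c) hZ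
  filter_upwards [Ioo_mem_nhdsGT (show 0 < δ / 3 by positivity),
    Ioo_mem_nhdsGT (show 0 < ε / 3 by positivity)] with d hd hd'
  have o : Disjoint K (thickening (3 * d) (tsupport f)) := (subset_compl_iff_disjoint_left.1
    ((thickening_mono (by linarith [hd.2]) _).trans hδ))
  have z : Z ∈ net.loc (K ∪ thickening (3 * d) (tsupport f))ᶜ := net.mono hε (compl_subset_compl.2
    (union_subset (subset_union_left.trans (self_subset_thickening e0 _))
      ((thickening_mono (by linarith [hd'.2]) _).trans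
        (thickening_subset_of_subset _ subset_union_right))))
  exact St.Dis.lim hK (.of_forall fun e => dis_cv hW hK o (Sm.Yr ⟨hd.1, hf, net.one _⟩ hu e) z)
    fun g hg => Sm.riem ⟨hd.1, hf, net.mono (net.mul (PN.Gd.mem hg) z
      (disjoint_compl_right.mono_left subset_union_left))
      (union_subset o.subset_compl_right (compl_subset_compl.2 subset_union_right))⟩ hW hu

theorem Dt.tau (a : Dt f Z) (v : R4) : Dt (fun y => f (y - v)) (net.τ v Z) :=
  ⟨adm_one.2 ((adm_sub a.1 v).1 0), net.mono (net.τ_mem v a.2) fun _ hy hy' =>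
    hy (tsupport_comp (θ := fun y => y - v) (by fun_prop) hy')⟩

theorem cv_tau (hW : net.St W) (hY : Y ∈ net.loc O) (hZ : Z ∈ net.loc Oᶜ) (v : R4) :
    cv W (net.τ v Y) (net.τ v Z) = cv W Y Z := by
  rw [cv, cv, ← map_mul, hW.ti _ (mul_adm hY hZ), hW.ti _ (Net.adm hY), hW.ti _ (Net.adm hZ)]

theorem Dt.X (a : Dt f Z) : X f ∈ net.loc (tsupport f) :=
  PN.Gd.mem ⟨(adm_one.1 a.1).1, (adm_one.1 a.1).2, subset_rfl⟩

theorem τ_X (v : R4) (f : R4 → ℝ) : net.τ v (X f) = X fun y => f (y - v) := rename_X _ _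

theorem Sm.ti (a : Sm d f Z) (hu : Pb u) (hW : net.St W) (v : R4) :
    Ai W u d (fun y => f (y - v)) (net.τ v Z) = Ai W u d f Z := by
  rw [Ai, Ai, ← integral_add_right_eq_self _ v]
  congr 2
  funext z
  by_cases hz : z ∈ tsupport f
  · rw [← pr_tau, cv_tau hW (a.pr hu hz) a.2.2, add_sub_cancel_right]
  · simp [image_eq_zero_of_notMem_tsupport hz]

theorem CIn.ax {h₀ : R4 → ℝ} {D M : ℝ → ℝ} {κ : (R4 → ℝ) → ℝ} {F : Fr} {C : ℝ}
    {T : (Pol →ₗ[ℂ] ℂ) → Tn} (H : CIn S h₀ D κ F C M T) : Ax S (T S) := by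
  have s := sub_rfl H.inp H.rot
  have k0 : (κ h₀ : ℂ) ≠ 0 := Complex.ofReal_ne_zero.2 H.ts.ne
  obtain ⟨c, -, hc⟩ := H.out.ope h₀ H.ts.rd
  refine ⟨H.inp, H.rot, H.cen, H.out.sym S, H.out.cov S s, H.out.lin S s, H.out.linZ S s,
    fun v μ ν f Z a => sub_eq_zero.1 (St.pol ⊥ (A := fun μ ν =>
      T S μ ν (fun y => f (y - v)) (net.τ v Z) - T S μ ν f Z)
      (fun μ ν => by simp only [H.out.sym S μ ν]) (fun n hn => ?_) μ ν),
    fun μ ν f Z K hK hf hO hZ => St.pol (St.DisS K) (A := fun μ ν g => T S μ ν f (X g * Z))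
      (fun μ ν => by simp only [H.out.sym S μ ν]) (fun n hn => ?_) μ ν⟩
  · have := tendsto_nhds_unique ((hc S s n hn _ _ (a.tau v)).congr' (a.sm.mono fun d hd => by
      rw [hd.ti (H.ts.rd.pb hn) H.inp.st, ← τ_X, cv_tau H.inp.st a.X a.2])) (hc S s n hn f Z a)
    simp only [smul_eq_mul, mul_sub, Finset.sum_sub_distrib, mul_left_cancel₀ k0 this, sub_self,
      Submodule.zero_mem]
  · refine St.Dis.congr ((St.DisS K).smul_mem (κ h₀ : ℂ)⁻¹ (St.Dis.lim hK
      ((dis_Ai H.inp hK hf hO hZ (H.ts.rd.pb hn)).mono fun d hd => St.Dis.congr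
        ((St.DisS K).sub_mem ((St.DisS K).smul_mem (M d) hd) ((St.DisS K).smul_mem (c d)
          (dis_cv H.inp hK hO (Dt.X ⟨hf, net.one _⟩) hZ))) fun _ _ => rfl)
      fun g hg => hc S s n hn f _ (dt_mul hf hO hZ hg))) fun g _ => ?_
    simp only [Finset.sum_apply, Pi.smul_apply, smul_eq_mul, inv_mul_cancel_left₀ k0]

end Pool.Agent.Lib.MP_7f377f_mp.Ope
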