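import Pool.Agent.Lib.MP_7f377f_mp.G.ScA

/-! Vector functionals and the conformal Killing equation. -/

noncomputable section

namespace Pool.Agent.Lib.MP_7f377f_mp.Ope
variable [Pool.Agent.Lib.MP_7f377f_mp.GD]
set_option linter.unusedSectionVars false

open MeasureTheory Filter Topology Set Real YM7 Pur MvPolynomial Metric Fx Lg
open scoped ContDiff NNReal

/-- smooth data -/
def Ds (f : R4 → ℝ) (Z : Pol) : Prop := ContDiff ℝ ∞ f ∧ Dt f Z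

/-- smooth functions which are locally constant near the other sources -/
def Dp (f : R4 → ℝ) (Z : Pol) : Prop := ContDiff ℝ ∞ f ∧ ∃ K, IsCompact K ∧
  (∀ y ∉ K, ∃ c, ∀ᶠ z in 𝓝 y, f z = c) ∧ Z ∈ net.loc Kᶜ

/-- functionals with a vector index -/
abbrev Vn : Type := Fin 4 → (R4 → ℝ) → Pol → ℂ

/-- covariant vectors -/
def Vec (S : Pol →ₗ[ℂ] ℂ) (P : (R4 → ℝ) → Pol → Prop) : Submodule ℂ Vn where
  carrier := {V | ∀ g : Ro.Iso, Ro.Inv S g → ∀ f Z, P f Z → V 0 f Z =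
    ∑ i, (g (ee 0) i : ℝ) * V i (fun y => f (g.symm y)) (Ro.act g Z)}
  add_mem' h h' g hg f Z a := by
    simp only [Pi.add_apply, h g hg f Z a, h' g hg f Z a, mul_add, Finset.sum_add_distrib]
  zero_mem' := by simp
  smul_mem' c V h g hg f Z a := by
    simp only [Pi.smul_apply, h g hg f Z a, smul_eq_mul, Finset.mul_sum, mul_left_comm]

/-- the divergence -/
def dv (T : Tn) : Vn := fun ν f Z => ∑ μ, T μ ν (pd μ f) Z

/-- the gradient of the field -/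
def cd (S : Pol →ₗ[ℂ] ℂ) : Vn := fun ν f Z => cv S (X (pd ν f)) Z

variable {S : Pol →ₗ[ℂ] ℂ} {T : Tn} {K O : Set R4} {Y Z : Pol} {f u : R4 → ℝ} {μ ν : Fin 4}
  {g : Ro.Iso} {V : Vn}

theorem Ds.dp (a : Ds f Z) : Dp f Z :=
  ⟨a.1, _, (adm_one.1 a.2.1).1, fun _ hy => ⟨0, notMem_tsupport_iff_eventuallyEq.1 hy⟩, a.2.2⟩

theorem Dp.gd (a : Dp f Z) : ∃ O, (∀ μ, PN.Gd O (pd μ f)) ∧ Z ∈ net.loc Oᶜ :=
  let ⟨K, k1, k2, k3⟩ := a.2
  have e : ∀ μ, tsupport (pd μ f) ⊆ K := fun _ y hy => by_contra fun e =>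
    (k2 y e).elim fun _ h => St.pd_far h hy
  ⟨K, fun μ => ⟨k1.of_isClosed_subset (isClosed_tsupport _) (e μ),
    (pd_smooth a.1 μ).of_le (by simp), e μ⟩, k3⟩

theorem dt_gd (hu : PN.Gd O u) (hZ : Z ∈ net.loc Oᶜ) : Dt u Z :=
  ⟨adm_one.2 ⟨hu.1, hu.2.1⟩, net.mono hZ (compl_subset_compl.2 hu.2.2)⟩

theorem Dp.pd (a : Dp f Z) (μ : Fin 4) : Dt (pd μ f) Z :=
  let ⟨_, h1, h2⟩ := a.gd
  dt_gd (h1 μ) h2

theorem Ds.act (a : Ds f Z) (g : Ro.Iso) : Ds (fun y => f (g.symm y)) (Ro.act g Z) :=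
  ⟨a.1.comp g.symm.contDiff, a.2.act g⟩

theorem Dp.act (a : Dp f Z) (g : Ro.Iso) : Dp (fun y => f (g.symm y)) (Ro.act g Z) := by
  obtain ⟨K, k1, k2, k3⟩ := a.2
  refine ⟨a.1.comp g.symm.contDiff, g.symm ⁻¹' K, g.symm.toHomeomorph.isCompact_preimage.2 k1,
    fun y hy => ?_, net.mono (Ro.act_mem g k3) fun _ h => h⟩
  obtain ⟨c, h⟩ := k2 _ hy
  exact ⟨c, (g.symm.continuous.tendsto y).eventually h⟩

theorem Dp.df (a : Dp f Z) : Differentiable ℝ f := a.1.differentiable (by simp)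

theorem Vec.ds (h : V ∈ Vec S Dp) : V ∈ Vec S Ds := fun g hg f Z a => h g hg f Z a.dp

theorem Ax.sum (H : Ax S T) {I : Type} (s : Finset I) {u : I → R4 → ℝ} (hu : ∀ i, PN.Gd O (u i))
    (c : I → ℝ) (hZ : Z ∈ net.loc Oᶜ) :
    T μ ν (∑ i ∈ s, c i • u i) Z = ∑ i ∈ s, c i * T μ ν (u i) Z := by
  classical
  induction s using Finset.induction_on with
  | empty =>
    have := H.lin μ ν 1 0 0 Z (dt_gd (.zero O) hZ) (dt_gd (.zero O) hZ)
    rw [smul_zero, add_zero, left_eq_add] at this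
    simpa using this
  | insert a s ha ih =>
    rw [Finset.sum_insert ha, Finset.sum_insert ha, add_comm,
      H.lin _ _ _ _ _ _ (dt_gd (.sum s hu c) hZ) (dt_gd (hu a) hZ), ih, add_comm]

theorem cv_lin (hL : LinP S) {I : Type} (s : Finset I) {u : I → R4 → ℝ} (hu : ∀ i, PN.Gd O (u i))
    (c : I → ℝ) (hZ : Z ∈ net.loc Oᶜ) :
    cv S (X (∑ i ∈ s, c i • u i)) Z = ∑ i ∈ s, c i * cv S (X (u i)) Z := by
  have := PN.one_slot hL s hu c (net.one _)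
  simp only [mul_one] at this
  simp only [cv, PN.one_slot hL s hu c hZ, this, mul_sub, Finset.sum_sub_distrib, Finset.sum_mul,
    mul_assoc]

theorem Ax.rt (H : Ax S T) (hg : Ro.Inv S g) (a : Dp f Z) (μ ν l : Fin 4) : T μ ν (pd l f) Z =
    ∑ i, ∑ j, (g (ee μ) i * g (ee ν) j : ℝ) * ∑ m, (g (ee l) m : ℝ) *
      T i j (pd m fun y => f (g.symm y)) (Ro.act g Z) := by
  obtain ⟨O, h1, h2⟩ := (a.act g).gd
  simp only [H.cov g hg _ _ (a.pd l), St.pd_rot a.df, H.sum _ h1 _ h2]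

theorem orth (g : Ro.Iso) (i m : Fin 4) :
    ∑ μ, g (ee μ) i * g (ee μ) m = if i = m then 1 else 0 := by
  have e : ∀ μ i, g (ee μ) i = g.symm (ee i) μ := fun μ i => by
    have := g.inner_map_map (ee μ) (g.symm (ee i))
    rw [g.apply_symm_apply] at this
    simpa [EuclideanSpace.inner_single_left, EuclideanSpace.inner_single_right] using this
  have := g.symm.inner_map_map (ee m) (ee i)
  rw [PiLp.inner_apply] at this
  simpa [e, EuclideanSpace.inner_single_left, PiLp.single_apply, eq_comm] using this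

theorem Ax.dv (H : Ax S T) : dv T ∈ Vec S Dp := fun g hg f Z a => by
  have e : ∀ i m, ∑ μ, ((g (ee μ) i : ℝ) : ℂ) * (g (ee μ) m : ℝ) = if i = m then 1 else 0 :=
    fun i m => by
      simpa [apply_ite Complex.ofReal] using congrArg Complex.ofReal (orth g i m)
  simp only [Ope.dv, H.rt hg a, Finset.mul_sum]
  rw [Finset.sum_comm, Finset.sum_comm (f := fun j i => ((g (ee 0) j : ℝ) : ℂ) * T i j _ _)]
  refine Finset.sum_congr rfl fun i _ => ?_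
  rw [Finset.sum_comm]
  refine Finset.sum_congr rfl fun j _ => ?_
  rw [Finset.sum_comm]
  simp only [Complex.ofReal_mul, mul_mul_mul_comm _ (_ : ℂ) _ (T _ _ _ _), ← Finset.sum_mul, e]
  simp

theorem cd_vec (hI : Inp S) : cd S ∈ Vec S Dp := fun g hg f Z a => by
  obtain ⟨O, h1, h2⟩ := (a.act g).gd
  rw [cd, ← cv_act hg (a.pd 0).X (a.pd 0).2, Ro.act_X, St.pd_rot a.df, cv_lin hI.lin _ h1 _ h2]
  rfl

theorem inv_rot (hS : net.St S) (hR : Rot S) (l : Fin 3) (φ : ℝ) : Ro.Inv S (Ro.rot l φ) := by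
  rw [← add_halves φ, ← Ro.rot_mul]
  exact (PI.rot_of (fun _ => PI.hm_of_rot hS hR) _).elim (fun h => h.2.mul h.2) fun h => h.2.mul h.2

theorem inv_neg (hS : net.St S) : Ro.Inv S (LinearIsometryEquiv.neg ℝ) := by
  convert ((PI.hm_rf hS 0).mul (PI.hm_rf hS 1)).mul ((PI.hm_rf hS 2).mul (PI.hm_rf hS 3))
  ext y l
  fin_cases l <;> simp [rfL_eq, rf]

theorem sum_rot (l : Fin 3) (φ : ℝ) (A : Fin 4 → ℂ) :
    ∑ i, (Ro.rot l φ (ee 0) i : ℝ) * A i = cos φ * A 0 + sin φ * A l.succ := by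
  fin_cases l <;> simp [Fin.sum_univ_four, Ro.rot_apply, Ro.rv]

theorem Ds.back (a : Ds f Z) (g : Ro.Iso) : ∃ f' Z', Ds f' Z' ∧ (fun y => f' (g.symm y)) = f ∧
    Ro.act g Z' = Z :=
  ⟨_, _, a.act g.symm, funext fun y => congrArg f (g.apply_symm_apply y), by
    rw [Ro.act_act]
    exact (congrArg (Ro.act · Z) (mul_inv_cancel g)).trans (Ro.act_one Z)⟩

theorem Ax.all (H : Ax S T) (hV : V ∈ Vec S Ds) (h : ∀ f Z, Ds f Z → V 0 f Z = 0) (a : Ds f Z)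
    (ν : Fin 4) : V ν f Z = 0 := by
  induction ν using Fin.cases with
  | zero => exact h f Z a
  | succ l =>
    obtain ⟨f', Z', b, rfl, rfl⟩ := a.back (Ro.rot l (π / 2))
    have := hV _ (inv_rot H.inp.st H.rot l (π / 2)) _ _ b
    rw [h _ _ b, sum_rot] at this
    simpa using this.symm

theorem Ax.ck (H : Ax S T) {A : ℂ} (hV : V ∈ Vec S Ds)
    (h : ∀ f Z, Ds f Z → V 0 f Z = A * T 0 0 (pd 0 f) Z) (a : Ds f Z) :
    A * (T 1 1 (pd 0 f) Z - T 0 0 (pd 0 f) Z + 2 * T 0 1 (pd 1 f) Z) = 0 := by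
  have e : ∀ φ : ℝ, cos φ * (A * T 0 0 (pd 0 f) Z) + sin φ * V 1 f Z = A *
      (cos φ * (cos φ * (cos φ * T 0 0 (pd 0 f) Z + sin φ * T 0 0 (pd 1 f) Z) +
        sin φ * (cos φ * T 0 1 (pd 0 f) Z + sin φ * T 0 1 (pd 1 f) Z)) +
      sin φ * (cos φ * (cos φ * T 0 1 (pd 0 f) Z + sin φ * T 0 1 (pd 1 f) Z) +
        sin φ * (cos φ * T 1 1 (pd 0 f) Z + sin φ * T 1 1 (pd 1 f) Z))) := fun φ => by
    obtain ⟨f', Z', b, rfl, rfl⟩ := a.back (Ro.rot 0 φ)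
    have i := inv_rot H.inp.st H.rot 0 φ
    have := hV _ i _ _ b
    rw [h _ _ b, sum_rot, h _ _ a, H.rt i b.dp] at this
    simp only [Complex.ofReal_mul, mul_assoc, ← Finset.mul_sum, sum_rot, Fin.succ_zero_eq_one,
      H.sym 1 0] at this
    simpa only [mul_assoc] using this.symm
  have e1 := e 1
  have e2 := e (-1)
  have e3 : ((sin 1 : ℝ) : ℂ) ^ 2 + (cos 1 : ℝ) ^ 2 = 1 := by exact_mod_cast sin_sq_add_cos_sq 1
  rw [cos_neg, sin_neg, Complex.ofReal_neg] at e2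
  refine mul_left_cancel₀ (a := 2 * ((cos 1 : ℝ) : ℂ) * (sin 1 : ℝ) ^ 2) (by
    exact_mod_cast (mul_pos (mul_pos two_pos cos_one_pos) (pow_pos (sin_pos_of_pos_of_le_two one_pos one_le_two) 2)).ne') ?_
  linear_combination -e1 - e2 - 2 * (cos 1 : ℝ) * A * T 0 0 (pd 0 f) Z * e3

theorem mem_loc : Z ∈ net.loc O ↔ ∀ d ∈ Z.support, monomial d 1 ∈ Mon O := by
  have : Mon O = (monomial · 1) '' {d | monomial d 1 ∈ Mon O} := by
    refine (image_preimage_eq_of_subset ?_).symm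
    rintro _ ⟨k, f, -, -, rfl⟩
    exact ⟨_, (PN.mon_eq f).symm⟩
  change Z ∈ Submodule.span ℂ (Mon O) ↔ _
  rw [this, ← restrictSupport_eq_span, ← this]
  rfl

theorem loc_inter {O' : Set R4} (h : Z ∈ net.loc O) (h' : Z ∈ net.loc O') :
    Z ∈ net.loc (O ∩ O') := mem_loc.2 fun d hd => by
  obtain ⟨k, f, f1, f2, f3⟩ := mem_loc.1 h d hd
  obtain ⟨l, g, -, g2, g3⟩ := mem_loc.1 h' d hd
  obtain ⟨e, rfl⟩ := PN.exists_equiv (g3.trans f3.symm)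
  exact ⟨k, _, f1, fun i => subset_inter (f2 i) (g2 _), f3⟩

/-- functionals which are linear in the other sources -/
def Lz (P : (R4 → ℝ) → Pol → Prop) : Submodule ℂ ((R4 → ℝ) → Pol → ℂ) where
  carrier := {Λ | ∀ (c : ℂ) f Z Z', P f Z → P f Z' → Λ f (Z + c • Z') = Λ f Z + c * Λ f Z'}
  add_mem' h h' c f Z Z' a b := by
    simp only [Pi.add_apply, h c f Z Z' a b, h' c f Z Z' a b]
    ring
  zero_mem' := by simp
  smul_mem' t V h c f Z Z' a b := by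
    simp only [Pi.smul_apply, h c f Z Z' a b, smul_eq_mul]
    ring

theorem Lz.ext {Λ : (R4 → ℝ) → Pol → ℂ} (h : Λ ∈ Lz Ds) (e : ∀ x : Sd, Λ x.f (mon x.g) = 0)
    (a : Ds f Z) : Λ f Z = 0 := by
  obtain ⟨m, c, k, g, g1, rfl⟩ := a.2.sum
  have z : Ds f 0 := ⟨a.1, a.2.1, Submodule.zero_mem _⟩
  refine (Finset.sum_induction _ (fun Z => Ds f Z ∧ Λ f Z = 0) (fun Y Z hY hZ =>
    ⟨⟨a.1, a.2.1, Submodule.add_mem _ hY.1.2.2 hZ.1.2.2⟩, ?_⟩) ⟨z, ?_⟩ fun i _ =>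
      ⟨⟨a.1, a.2.1, Submodule.smul_mem _ _ (dt_of (g1 i)).2⟩, ?_⟩).2
  · simpa [hY.2, hZ.2] using h 1 f Y Z hY.1 hZ.1
  · simpa using h 1 f 0 0 z z
  · have := h (c i - 1) f _ _ ⟨a.1, dt_of (g1 i)⟩ ⟨a.1, dt_of (g1 i)⟩
    rw [e ⟨_, f, g i, g1 i, a.1⟩] at this
    simpa [sub_smul] using this

theorem Lz.ds {Λ : (R4 → ℝ) → Pol → ℂ} (h : Λ ∈ Lz Dp) : Λ ∈ Lz Ds :=
  fun c f Z Z' a b => h c f Z Z' a.dp b.dp

theorem Ax.lz (H : Ax S T) (μ ν l : Fin 4) : (fun f Z => T μ ν (pd l f) Z) ∈ Lz Dp :=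
  fun c _ _ _ a b => H.linZ μ ν c _ _ _ (a.pd l) (b.pd l)

theorem cd_lz (S : Pol →ₗ[ℂ] ℂ) (ν : Fin 4) : cd S ν ∈ Lz Dp := fun c f Z Z' _ _ => by
  rw [cd, cv_comm, cv_add, cv_smul, cv_comm S Z, cv_comm S Z']
  rfl

theorem Ax.dv_lz (H : Ax S T) (ν : Fin 4) : Ope.dv T ν ∈ Lz Dp := by
  convert (Lz Dp).sum_mem (t := Finset.univ) fun μ _ => H.lz μ ν μ
  funext f Z
  simp [Ope.dv]

theorem jv_eq (a : Fin 3 → ℂ) : ∑ i, a i * Jv S T f Z i =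
    (a 0 - a 1) * T 0 0 (pd 0 f) Z + a 1 * dv T 0 f Z + a 2 * cd S 0 f Z := by
  simp only [Jv, dv, cd, Fin.sum_univ_succ (n := 3), Fin.sum_univ_three, Matrix.cons_val]
  ring

theorem Ax.jv_lz (H : Ax S T) (a : Fin 3 → ℂ) :
    (fun f Z => ∑ i, a i * Jv S T f Z i) ∈ Lz Ds := by
  simp only [jv_eq]
  exact Lz.ds ((Lz Dp).add_mem ((Lz Dp).add_mem ((Lz Dp).smul_mem _ (H.lz 0 0 0))
    ((Lz Dp).smul_mem _ (H.dv_lz 0))) ((Lz Dp).smul_mem _ (cd_lz S 0)))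

end Pool.Agent.Lib.MP_7f377f_mp.Ope
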