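import Pool.Agent.Lib.MP_7f377f_mp.G.Q5FamB
import Pool.Agent.Lib.MP_7f377f_mp.G.Q5TanD

/-! Refined classes of directions, local linear maps and general sources: definitions. -/

noncomputable section

set_option linter.unusedSectionVars false
variable [Pool.Agent.Lib.MP_7f377f_mp.GD]

namespace Pool.Agent.Lib.MP_7f377f_mp.RG.Q4

open Finset
open scoped Classical

/-! ### Affine curvature -/

/-- link integrals of the form `x ^ α d x ^ μ`, `p = (α, μ)` -/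
def pc1 (p : Fin 4 × Fin 4) : V := fun e =>
  if e.2 = p.2 then (e.1 p.1 : ℝ) + (if p.1 = p.2 then 2⁻¹ else 0) else 0

/-- link integrals of the form `x ^ κ x ^ α d x ^ μ`, `t = (κ, α, μ)` -/
def pc2 (t : Fin 4 × Fin 4 × Fin 4) : V := fun e =>
  if e.2 = t.2.2 then (e.1 t.1 : ℝ) * e.1 t.2.1 + (if t.1 = t.2.2 then 2⁻¹ * (e.1 t.2.1 : ℝ) else 0) +
    (if t.2.1 = t.2.2 then 2⁻¹ * (e.1 t.1 : ℝ) else 0) +
    (if t.1 = t.2.2 ∧ t.2.1 = t.2.2 then 3⁻¹ else 0) else 0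

/-- the radial potential with the gradient `G` of the curvature -/
def rp2 (G : Fin 4 × Fin 4 × Fin 4 → ℝ) : V := (3⁻¹ : ℝ) • ∑ t, G t • pc2 t

/-- the gradient of the curvature at the origin -/
def grd (a : V) (t : Fin 4 × Fin 4 × Fin 4) : ℝ := dd a (un t.1) t.2.1 t.2.2 - dd a 0 t.2.1 t.2.2

/-- the field with the curvature `∑ κ, x κ * grd a (κ, μ, ν)` -/
def lnn (a : V) : V := rp2 (grd a) - cc (rp2 (grd a))

/-- values on constant curvature -/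
abbrev E0 := Fin 4 × Fin 4 → Fin 4 × Fin 4 → ℂ

/-- values on constant and linear curvature -/
abbrev EV := E0 × (Fin 4 × Fin 4 → Fin 4 × Fin 4 × Fin 4 → ℂ)

def q0 (k : V → V → ℂ) : E0 := fun p p' => k (pc1 p) (pc1 p')

def qv (k : V → V → ℂ) : EV := (q0 k, fun p t => k (pc1 p) (pc2 t))

/-- the scaling of the values -/
def AL (L : ℝ) : EV →ₗ[ℂ] EV := LinearMap.prodMap LinearMap.id ((L : ℂ)⁻¹ • LinearMap.id)

/-- symmetric forms which depend only on the curvature -/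
def Gf (k : CF) : Prop := (∀ a b, k a b = k b a) ∧ ∀ a b, dd a = 0 → k a b = 0

/-- the part of second order in the gradient -/
def Fs2 (R s : ℕ) (x : ℝ) (k : V → V → ℂ) : Prop := ∀ a b δ δ', Cw R s δ a → Cw R s δ' b →
  ‖k a b - k (cc a) (cc b) - k (cc a) (lnn b) - k (lnn a) (cc b)‖ ≤ x * δ * δ'

/-- second differences of the curvature of the minimiser -/
def Hess (l r : ℕ) (g : ℝ) (s : V →ₗ[ℝ] V) : Prop := ∀ B δ, Cv (r / 3) δ B →
  ∑ x ∈ box l, ∑ κ, ∑ κ', nd (sh (un κ') (sh (un κ) (mu l s B) - mu l s B) -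
    (sh (un κ) (mu l s B) - mu l s B)) x ≤ (g * δ) ^ 2

/-- the minimiser of a field of linear curvature has almost linear curvature -/
def LsE (l : ℕ) (t : ℝ) (s : V →ₗ[ℝ] V) : Prop := ∀ G δ, (∀ u, |G u| ≤ δ) → ∀ j : ℕ,
  Cv j (t * (j + 1) * δ) (mu l s (rp2 G) - ((LL l : ℝ) ^ 3)⁻¹ • rp2 G)

/-- the sharp linear facts -/
structure Sd.Pv (S : Sd) : Prop where
  pu : S.Pu
  pt : PtC S.l S.r (S.cs ^ 35) S.s
  hess : Hess S.l S.r (S.cs ^ 29) S.s
  lse : LsE S.l S.g S.s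

/-- local terms with the refined sizes -/
def Pr (p : Pa) (xk xr : ℝ) (φ : Fld → ℂ) : Prop :=
  (∃ xb xk', Ps p.R 20 p.ρ xb xk' xr φ) ∧ Fs2 p.R 20 xk (q2 φ) ∧ Measurable φ

/-- a linear section for the values `w` of a family -/
def Sec {E β : Type} [NormedAddCommGroup E] [NormedSpace ℂ E] [Fintype β] (q : (V → V → ℂ) → E)
    (w : β → E) (C : ℝ) : Prop := ∃ s : E →ₗ[ℂ] β → ℂ, (∀ e, ∑ i, ‖s e i‖ ≤ C * ‖e‖) ∧
      ∀ k : CF, Gf k → ∑ i, s (q fun a b => k a b) i • w i = q fun a b => k a b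

namespace En

open Pos

/-- translation invariant directions: the size of the part which contracts faster than `L⁻¹` -/
def Sv (p : Pa) (n : ℕ) (Q g y ω : ℝ) (ψ : Lx) (K : Ac) : Prop :=
  (∀ v, Pr p (Q ^ 2 * (p.R + 1) ^ 30 * y) (Q ^ 50 * ω * y * g ^ 2) (ψ v)) ∧
    (∃ k, KM p n k K ∧ kN p n k (ω * y * g ^ 2)) ∧ TCov n ψ K

/-! ### Local linear maps -/

/-- mean value on `X` -/
def avS (F : St → ℂ) (X : Finset St) : ℂ := (X.card : ℂ)⁻¹ * ∑ x ∈ X, F x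

def mB (F : St → ℂ) (K : Ac) : Ac := fun X => avS F X • K X

/-- a direction multiplied by a function of the position -/
def mT (F : St → ℂ) (d : Lx × Ac) : Lx × Ac := (mL F d.1, mB F d.2)

/-- a periodic function `F` with an approximate gradient `F'` -/
structure Jet2 (n : ℕ) (a0 a1 a2 : ℝ) (F : St → ℂ) (F' : Fin 4 → St → ℂ) : Prop where
  per : PS n F
  per' : ∀ m, PS n (F' m)
  bd : ∀ x, ‖F x‖ ≤ a0
  bd' : ∀ m x, ‖F' m x‖ ≤ a1
  lip : ∀ m, LipT n a2 (F' m)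
  tay : ∀ x (R : ℕ), ∀ w ∈ box R, ‖F (x + w) - F x - ∑ m, (w m : ℂ) * F' m x‖ ≤ a2 * R ^ 2

/-- linear maps from functions on the torus of side `e * n` to directions on the torus of side `n`
which are local with radius `ρ`, bounded by `A` and translation covariant -/
structure Lop (p : Pa) (n e ρ : ℕ) (Q g ω A : ℝ) (Φ : (St → ℂ) → Lx × Ac) : Prop where
  lin : ∀ F F' (t : ℂ), PS (e * n) F → PS (e * n) F' → Φ (F + t • F') = Φ F + t • Φ F'
  locL : ∀ F F' y, PS (e * n) F → PS (e * n) F' →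
    (∀ x, nearT (e * n) (e * ρ) ((e : ℤ) • y) x → F x = F' x) → (Φ F).1 y = (Φ F').1 y
  locK : ∀ F F' Y, PS (e * n) F → PS (e * n) F' →
    (∀ y ∈ Y, ∀ x, nearT (e * n) (e * ρ) ((e : ℤ) • y) x → F x = F' x) → (Φ F).2 Y = (Φ F').2 Y
  bd : ∃ k, kN { p with a := p.a + 1 / 4 } n k (ω * A * g ^ 2) ∧ ∀ F, PS (e * n) F →
    (∀ x, ‖F x‖ ≤ 1) →
    PM p A (Q ^ 2 * A) (Q ^ 50 * ω * A * g ^ 2) (Φ F).1 ∧ KM p n k (Φ F).2
  cov : ∀ F v, PS (e * n) F → trL n v (Φ F).1 = (Φ fun x => F (x + (e : ℤ) • v)).1 ∧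
    ∀ o ∈ lps (box (n / 2)), trA n v (Φ F).2 o.1 o.2 = (Φ fun x => F (x + (e : ℤ) • v)).2 o.1 o.2

theorem kN_q {p : Pa} {n : ℕ} {k : Mj} {θ : ℝ} (h : kN p.up n k θ) :
    kN { p with a := p.a + 1 / 4 } n k θ :=
  ⟨h.1, fun x => (sum_le_sum fun _ _ => mul_le_mul_of_nonneg_left (Real.exp_le_exp.2 (add_le_add
    (mul_le_mul_of_nonneg_right (add_le_add le_rfl (by norm_num)) (Nat.cast_nonneg _)) le_rfl))
    (h.1 _ _)).trans (h.2 x)⟩

/-- the coordinate `m` seen from `y` -/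
def cdn (n : ℕ) (m : Fin 4) (y x : St) : ℂ := (rc n (x - y) m : ℤ)

/-- first moments -/
def mo (n e : ℕ) (Φ : (St → ℂ) → Lx × Ac) (m : Fin 4) : Lx × Ac :=
  (fun y => (Φ (cdn (e * n) m ((e : ℤ) • y))).1 y,
    fun Y => (Φ fun x => avS (fun y => cdn (e * n) m ((e : ℤ) • y) x) Y).2 Y)

/-! ### General sources -/

/-- sources: couplings of the plaquettes, a local function at each site, its form in the chart -/
abbrev Sx : Type := Sr × (St → Conf → ℂ) × Lx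

/-- `X` lives in the box of radius `d`, `ψ` is its form in the chart -/
structure Ltt (d : ℕ) (X : Conf → ℂ) (ψ : Fld → ℂ) : Prop where
  meas : Measurable X
  loc : ∀ U U', (∀ e ∈ lbox d, U e = U' e) → X U = X U'
  gi : ∀ u U, X (gauge Inv.inv u U) = X U
  chart : ∀ ε U, Fq (d + 1) ε U → 10 ^ 10 * (d + 1) ^ 4 * ε ≤ 1 → X U = ψ (Bx 0 (cC U))

/-- admissible sources -/
structure Sx.Ok (p : Pa) (d : ℕ) (a h : ℝ) (F : Sx) : Prop where
  pl : ∀ x μ ν, ‖F.1 x μ ν‖ ≤ a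
  lt : ∀ x, Ltt d (F.2.1 x) (F.2.2 x)
  bd : ∀ x U, ‖F.2.1 x U‖ ≤ h
  pm : ∃ xb xk xr, PM p xb xk xr F.2.2

def xP (F : Sx) : Lx := sL F.1 + F.2.2

def xK (p : Pa) (n : ℕ) (β : ℝ) (F : Sx) : Ac :=
  KI p n fun x U => ww (fun x μ ν => β + F.1 x μ ν) x U * Complex.exp (-F.2.1 x (sh x U))

def xS (p : Pa) (n : ℕ) (β : ℝ) (F : Sx) : Ac := dA fun t => xK p n β (t • F)

/-- the observable -/
def xO (n : ℕ) (F : Sx) (U : Conf) : ℂ := sO n F.1 U + ∑ x ∈ box (n / 2), F.2.1 x (sh x U)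

/-- the local function `X` smeared with `F` -/
def lS (X : Conf → ℂ) (ψ : Fld → ℂ) (F : St → ℂ) : Sx := (0, fun x => F x • X, fun x => F x • ψ)

/-- the plaquettes with the weights `c` smeared with `F` -/
def pS (c : Fin 4 → Fin 4 → ℂ) (F : St → ℂ) : Sx := (fun x => F x • c, 0, 0)

namespace Gl

variable (G : Gl) {ι : Type} [DecidableEq ι]

/-- the direction of a source at the top -/
def xv (b : ℝ) (J : ℕ) (F : Sx) : Lx × Ac := (xP F, xS (G.p J) (G.N J) b F)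

/-- the family at the top -/
def xt (A : Finset ι) (F : ι → Sx) (Z : ι → Finset St) (b : ℝ) (J : ℕ) : Fy ι :=
  ⟨fun s => xP (∑ i ∈ A, s i • F i), trK A fun s => xK (G.p J) (G.N J) b (∑ i ∈ A, s i • F i),
    0, Z⟩

/-- the densities with sources -/
def xf (A : Finset ι) (F : ι → Sx) (b : ℝ) (J k : ℕ) (s : ι → ℂ) : Conf → ℂ :=
  G.tt (fun U => wil b (G.N J) U * Complex.exp (-xO (G.N J) (∑ i ∈ A, s i • F i) U)) J k

/-- local maps from the top lattice to the level `k` -/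
def Lop (J k ρ : ℕ) (ω A : ℝ) (Φ : (St → ℂ) → Lx × Ac) : Prop :=
  En.Lop (G.p k) (G.N k) (G.rt J k) ρ (G.Q k) (G.g k) ω A Φ

/-- the steps of the run between the levels `j` and `J` -/
def Run (b : ℝ) (J j : ℕ) (ω : ℕ → ℝ) : Prop := ∀ k, j ≤ k → k < J →
  St2 (G.sd k (G.zz b J (k + 1))) ∧ (G.sd k (G.zz b J (k + 1))).Pv ∧ ω (k + 1) ≤ ω k ∧
    Tg (G.sd k (G.zz b J (k + 1))) (ω (k + 1)) (G.zz b J (k + 1)).ψ (G.zz b J (k + 1)).K ∧
    TCov (G.N (k + 1)) (G.zz b J (k + 1)).ψ (G.zz b J (k + 1)).K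

end Gl

end En

end Pool.Agent.Lib.MP_7f377f_mp.RG.Q4
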