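import Pool.Agent.Lib.MP_7f377f_mp.G.StV0
import Pool.Agent.Lib.MP_7f377f_mp.G.Q4LinC
import Pool.Agent.Lib.MP_7f377f_mp.G.Q4LinE
import Pool.Agent.Lib.MP_7f377f_mp.Q4PtG
import Pool.Agent.Lib.MP_7f377f_mp.StP9

/-! Sharp pointwise and second order bounds for the linear minimiser. -/

noncomputable section

set_option linter.unusedSectionVars false
variable [Pool.Agent.Lib.MP_7f377f_mp.GD]

namespace Pool.Agent.Lib.MP_7f377f_mp.RG.Q4

open Finset Real La La.Q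
open scoped Classical

variable {l r c c' n j : ℕ} {τ τ' g δ : ℝ} {m : BF} {s s' : V →ₗ[ℝ] V} {B : V}

theorem lin_wk (h : Lin l r c τ m s) (hc : c ≤ c') (ht : τ ≤ τ') : Lin l r c' τ' m s := by
  have p : (LL l : ℝ) ^ c ≤ (LL l : ℝ) ^ c' := pow_le_pow_right₀ (Lin.NN_one l) hc
  have b : ∀ {i j : ℕ} {k : BF}, Bd i j ((LL l : ℝ) ^ c) k → Bd i j ((LL l : ℝ) ^ c') k :=
    fun hk a b δ δ' ha hb => (hk a b δ δ' ha hb).trans
      (mul_le_mul_of_nonneg_right (mul_le_mul_of_nonneg_right p ha.nonneg) hb.nonneg)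
  exact { h with
    s_bd := fun a δ f ha => (h.s_bd a δ f ha).trans (mul_le_mul_of_nonneg_right p ha.nonneg)
    stat := fun B δ f hf ht' hB => (h.stat B δ f hf ht' hB).trans
      (mul_le_mul_of_nonneg_right ht hB.nonneg)
    coer := fun a ha => (h.coer a ha).trans
      (mul_le_mul_of_nonneg_right p (sum_nonneg fun _ _ => enB_psd h.psd _ _))
    hh_bd := fun a => (h.hh_bd a).trans
      (mul_le_mul_of_nonneg_right p (sum_nonneg fun _ _ => sq_nonneg _))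
    xx_bd := b h.xx_bd
    mn_bd := b h.mn_bd }

theorem s_red' (h : Lin l r c τ m s) (hj : r / 4 ≤ j) (B : V) : s B = s (cut j (cg B)) := by
  have h2 := h.s_rng (cg B - cut j (cg B)) fun e he => by
    simp [cut_of_mem _ (lbox_mono hj he)]
  rw [map_sub, sub_eq_zero] at h2
  rw [← h2, cg, map_sub, h.s_gauge, sub_zero]

/-- two approximate minimisers of the same density are close -/
theorem s_close (hm : Inv n (3 * r) 20 20 m) (h : Lin l r c τ m s) (h' : Lin l r c τ m s')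
    (hg : Grad l r g s') (g0 : 0 ≤ g) (hr : 400000 ≤ r) (hl : 3 * r ≤ l) (hτ : 0 ≤ τ)
    (hj : r / 4 ≤ j) (hj' : j ≤ r) (hB : Cv j δ B) : ∀ f ∈ lbox l,
      |s B f - s' B f| ≤ (LL l : ℝ) ^ (2 * c + 7) * τ * δ := fun f hf => by
  have r0 : (400000 : ℝ) ≤ r := by exact_mod_cast hr
  have L0 := LL_posR l
  have L1 : (1 : ℝ) ≤ LL l := Lin.NN_one l
  have t3 : 5 * (r : ℝ) ≤ LL l := by
    have : 5 * r ≤ LL l := by simp only [LL]; omega
    exact_mod_cast this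
  have d0 := hB.nonneg
  have b2 : ∀ e, ‖cut j (cg B) e‖ ≤ 3 * r * δ := fun e => ((Sm_cg hB).cut e).trans (by gcongr)
  have b3 : ∀ e ∉ lbox r, cut j (cg B) e = 0 := fun e he =>
    cut_of_not_mem _ fun h => he (lbox_mono hj' h)
  rw [s_red' h hj, s_red' h' hj]
  generalize cut j (cg B) = B' at b2 b3
  obtain ⟨e1, e2, e3, -⟩ := num1 (δ := δ) r0 t3 c 0 g
  have key := (est hm h h' hg hl hτ (σ := 2 * 0) (σ0 := 32 * 0) (Z := √(mn l m s B' B'))
    (by positivity) (by positivity) (by positivity) (by positivity) (by positivity) (by positivity)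
    (fun _ _ _ _ _ _ => by simp) (fun _ _ _ _ _ _ => by simp) b3
    (fun y => Sm.cv fun e _ => b2 _) e1 e2 e3 (by rw [sq_sqrt']; exact le_max_left _ _)
    (num2 r0 t3 d0 hτ le_rfl le_rfl g0 c)).2 f hf
  refine abs_le_of_sq_le_sq (key.trans ?_) (by positivity)
  calc _ = (LL l : ℝ) ^ c * ((LL l : ℝ) ^ (c + 7) * τ * δ) ^ 2 := by ring
    _ ≤ (LL l : ℝ) ^ (2 * c) * ((LL l : ℝ) ^ (c + 7) * τ * δ) ^ 2 := by gcongr; omega
    _ = _ := by ring

theorem cv_dif {a : V} (h : Cv (j + 1) δ a) (κ : Fin 4) : Cv j (2 * δ) (sh (un κ) a - a) :=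
  fun x hx μ ν => by
    rw [La.dd_sub, Pi.sub_apply, Pi.sub_apply, Pi.sub_apply, Li.dd_sh]
    linarith [norm_sub_le (dd a (x + un κ) μ ν) (dd a x μ ν), h x (box_mono (by omega) hx) μ ν,
      h _ (add_un_mem_box hx κ) μ ν]

theorem lin9 (c : ℕ) : ∃ c1 : ℕ, ∀ (l r n : ℕ) (τ cL cU : ℝ) (m : BF) (s : V →ₗ[ℝ] V),
    c1 ≤ r → r ^ c1 ≤ l → 0 ≤ τ → (LL l : ℝ) ^ c1 * τ ≤ 1 → (LL l : ℝ) ^ c1 * exp (-(r / c1)) ≤ 1 →
    1 ≤ cL → cL ≤ 20 → cU ≤ 20 → Inv n (3 * r) cL cU m →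
    Lin l r c τ m s → PtC l r ((r : ℝ) ^ c1 / (LL l : ℝ) ^ (9 / 5 : ℝ)) s ∧
      Hess l r ((r : ℝ) ^ c1 / (LL l : ℝ) ^ (3 / 2 : ℝ)) s := by
  obtain ⟨c0, c60, H0⟩ := Lin.lin_ctx
  obtain ⟨c9, c69, H9⟩ := Lin.ctx9
  obtain ⟨q, hq⟩ : ∃ q, q = 2 * c + 3 * c0 + c9 + 400000 := ⟨_, rfl⟩
  refine ⟨q, fun l r n τ cL cU m s hr hl hτ h1 h2 c1 hc hU hm h => ?_⟩
  have L0 := LL_posR l
  have L1 : (1 : ℝ) ≤ LL l := Lin.NN_one l
  have r0 : (400000 : ℝ) ≤ r := by exact_mod_cast le_trans (by omega) hr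
  have r1 : (1 : ℝ) ≤ r := by linarith
  have rl : ∀ i ≤ q, r ^ i ≤ l := fun i hi => (Nat.pow_le_pow_right (by omega) hi).trans hl
  have r3 : 3 * r ≤ l := le_trans (by rw [sq]; exact Nat.mul_le_mul_right _ (by omega))
    (rl 2 (by omega))
  have ex : ∀ i j : ℕ, 0 < i → i ≤ q → j ≤ q → (LL l : ℝ) ^ j * exp (-(r / i)) ≤ 1 :=
    fun i j i0 hi hj => le_trans (mul_le_mul (pow_le_pow_right₀ L1 hj) (exp_le_exp.2 (neg_le_neg
      (div_le_div_of_nonneg_left r.cast_nonneg (by exact_mod_cast i0) (by exact_mod_cast hi))))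
      (exp_pos _).le (by positivity)) h2
  obtain ⟨sol, hs⟩ := Lin.ctx_ex hm hc hU r3 (by omega)
  obtain ⟨l1, -, p1⟩ := H0 l r n (r / 4 - 1) cL cU m sol (by omega) (rl _ (by omega))
    (ex _ _ (by omega) (by omega) (by omega)) c1 hs (by omega)
  have p2 := H9 l r n (r / 4 - 1) cL cU m sol (by omega) (rl _ (by omega))
    (ex _ _ (by omega) (by omega) (by omega)) hs (by omega)
  generalize Lin.sg l sol ∘ₗ Lin.PP (r / 4 - 1) = s' at l1 p1 p2
  have t0 : 0 ≤ (LL l : ℝ) ^ c0 * exp (-(r / c0)) := by positivity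
  have t1 : (LL l : ℝ) ^ (2 * (c + c0) + 7) * (τ + (LL l : ℝ) ^ c0 * exp (-(r / c0))) ≤
      2 / LL l ^ 5 := by
    have a1 := ex c0 (2 * (c + c0) + 7 + c0 + 5) (by omega) (by omega) (by omega)
    have a2 := (mul_le_mul_of_nonneg_right (pow_le_pow_right₀ L1
      (show 2 * (c + c0) + 7 + 5 ≤ q by omega)) hτ).trans h1
    rw [le_div_iff₀ (by positivity)]
    exact le_of_eq_of_le (by ring) ((add_le_add a2 a1).trans_eq (by norm_num))
  have dec : ∀ B δ, Cv (r / 3) δ B → ∃ a e, mu l s B = a + e ∧ Sm (l + 3) (3 * (δ / LL l ^ 5)) e ∧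
      Cv l ((r : ℝ) ^ 7 / (LL l : ℝ) ^ (9 / 5 : ℝ) * δ) a ∧ ∀ κ κ', ∑ x ∈ box l,
        nd (sh (un κ') (sh (un κ) a - a) - (sh (un κ) a - a)) x ≤
          (r : ℝ) ^ 5 * (δ ^ 2 / LL l ^ 3) := fun B δ hB => by
    obtain ⟨a, e, e1, e2, e3, e4⟩ := p2 B δ hB
    refine ⟨a, e + (mu l s B - mu l s' B), by rw [e1]; abel, fun f hf => ?_, e3, e4⟩
    have hy : yo l f.1 ∈ box 1 := yo_mem_box (box_mono (by simp only [LL]; omega) (mem_lbox.1 hf))
    have := (s_close (inv_mono hm le_rfl hc hU) (lin_wk h (c.le_add_right c0) (le_add_of_nonneg_right t0))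
      (lin_wk l1 (c0.le_add_left c) (le_add_of_nonneg_left hτ)) (grad_of_pt p1 (by omega) le_rfl)
      (by positivity) (by omega) r3 (add_nonneg hτ t0) (j := r / 3 - 1) (by omega) (by omega)
      ((hB.mono (R' := r / 3 - 1 + 1) (by omega) le_rfl).sh hy) (f.1 - up l (yo l f.1), f.2)
      (mem_lbox.2 (sub_up_mem l f.1))).trans (mul_le_mul_of_nonneg_right t1 hB.nonneg)
    rw [Pi.add_apply, Pi.sub_apply, La.mu_apply, La.mu_apply, add_sub_add_left_eq_sub]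
    refine (norm_add_le _ _).trans ((add_le_add (e2 f hf) this).trans_eq (by ring))
  have pq : ∀ i < q, ∀ t : ℝ, t ≤ r → t * (r : ℝ) ^ i ≤ r ^ q := fun i hi t ht =>
    (mul_le_mul_of_nonneg_right ht (by positivity)).trans
      ((pow_succ' _ _).symm.trans_le (pow_le_pow_right₀ r1 hi))
  refine ⟨fun B δ hB x hx μ ν => ?_, fun B δ hB => ?_⟩
  · obtain ⟨a, e, e1, e2, e3, -⟩ := dec B δ hB
    have d0 := hB.nonneg
    have a1 := (e2.mono (R' := l + 1) (by omega) le_rfl).cv x hx μ ν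
    have a2 : (LL l : ℝ) ^ (9 / 5 : ℝ) ≤ LL l ^ 5 := by
      rw [← rpow_natCast]; exact rpow_le_rpow_of_exponent_le L1 (by norm_num)
    have a3 : (1 : ℝ) ≤ r ^ 7 := one_le_pow₀ r1
    rw [e1, RG.dd_add]
    refine (norm_add_le _ _).trans ((add_le_add (e3 x hx μ ν) a1).trans ?_)
    calc _ = (r : ℝ) ^ 7 / (LL l : ℝ) ^ (9 / 5 : ℝ) * δ + 12 * (1 / LL l ^ 5 * δ) := by ring
      _ ≤ (r : ℝ) ^ 7 / (LL l : ℝ) ^ (9 / 5 : ℝ) * δ +
          12 * (r ^ 7 / (LL l : ℝ) ^ (9 / 5 : ℝ) * δ) := by gcongr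
      _ = 13 * r ^ 7 / (LL l : ℝ) ^ (9 / 5 : ℝ) * δ := by ring
      _ ≤ _ := by gcongr; exact pq 7 (by omega) _ (by linarith)
  · obtain ⟨a, e, e1, e2, -, e4⟩ := dec B δ hB
    have a1 : ∀ κ κ', ∑ x ∈ box l, nd (sh (un κ') (sh (un κ) e - e) - (sh (un κ) e - e)) x ≤
        r ^ 5 * (δ ^ 2 / LL l ^ 3) := fun κ κ' => by
      have b1 := sum_le_card_nsmul (box l) _ _ fun x hx =>
        nd_le_of_cv (cv_dif (cv_dif e2.cv κ) κ') hx
      rw [nsmul_eq_mul, card_box_LL] at b1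
      refine b1.trans ?_
      calc _ = 36864 * (δ ^ 2 / LL l ^ 6) := by field_simp; ring
        _ ≤ _ := by
            refine mul_le_mul (le_trans (by linarith) (le_self_pow₀ r1 (by norm_num))) ?_
              (by positivity) (by positivity)
            gcongr
            norm_num
    have a2 : ∀ κ κ' x, nd (sh (un κ') (sh (un κ) (mu l s B) - mu l s B) -
        (sh (un κ) (mu l s B) - mu l s B)) x ≤
        2 * nd (sh (un κ') (sh (un κ) a - a) - (sh (un κ) a - a)) x +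
          2 * nd (sh (un κ') (sh (un κ) e - e) - (sh (un κ) e - e)) x := fun κ κ' x => by
      refine le_of_eq_of_le ?_ ((nd_add_le (sh (un κ') (sh (un κ) a - a) - (sh (un κ) a - a))
        (sh (un κ') (sh (un κ) e - e) - (sh (un κ) e - e)) x one_pos).trans_eq (by norm_num))
      congr 1
      funext f
      simp only [e1, sh, Pi.sub_apply, Pi.add_apply]
      ring
    have a3 : ((LL l : ℝ) ^ (3 / 2 : ℝ)) ^ 2 = LL l ^ 3 := by
      rw [← rpow_natCast, ← rpow_mul L0.le, ← rpow_natCast]; norm_num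
    rw [sum_comm]
    refine (sum_le_card_nsmul _ _ (4 * (4 * (r ^ 5 * (δ ^ 2 / LL l ^ 3)))) fun κ _ => ?_).trans ?_
    · rw [sum_comm]
      refine (sum_le_card_nsmul _ _ (4 * (r ^ 5 * (δ ^ 2 / LL l ^ 3))) fun κ' _ => ?_).trans_eq
        (by simp)
      refine (sum_le_sum fun x _ => a2 κ κ' x).trans ?_
      rw [sum_add_distrib, ← mul_sum, ← mul_sum]
      linarith [e4 κ κ', a1 κ κ']
    · rw [mul_pow, div_pow, a3, card_univ, Fintype.card_fin, nsmul_eq_mul]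
      calc _ = 64 * r ^ 5 / LL l ^ 3 * δ ^ 2 := by push_cast; ring
        _ ≤ _ := by
            gcongr
            exact (pq 5 (by omega) _ (by linarith)).trans (le_self_pow₀ (one_le_pow₀ r1) two_ne_zero)

end Pool.Agent.Lib.MP_7f377f_mp.RG.Q4
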