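import Pool.Agent.Lib.MP_7f377f_mp.G.StV0

/-! Algebra of affine curvature. -/

noncomputable section

open Pool.Agent.Lib.MP_7f377f_mp.Jet

set_option linter.unusedSectionVars false
variable [Pool.Agent.Lib.MP_7f377f_mp.GD]

namespace Pool.Agent.Lib.MP_7f377f_mp.RG.Q4

open Finset Real La La.Q
open scoped Classical

namespace V2

/-- Kronecker symbol -/
def kr (i j : Fin 4) : ℝ := if i = j then 1 else 0

theorem kr_comm (i j : Fin 4) : kr i j = kr j i := by simp only [kr, eq_comm]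

theorem kr_mem (i j : Fin 4) : 0 ≤ kr i j ∧ kr i j ≤ 1 := by
  unfold kr; split_ifs <;> norm_num

theorem add_un (x : St) (μ κ : Fin 4) : (((x + un μ) κ : ℤ) : ℝ) = x κ + kr κ μ := by
  simp only [Pi.add_apply, un_apply, kr]
  split_ifs <;> simp

theorem sum_kr (f : Fin 4 → ℝ) (μ : Fin 4) : ∑ κ, kr κ μ * f κ = f μ := by simp [kr]

/-- the centre of the plaquette -/
def xb (x : St) (μ ν κ : Fin 4) : ℝ :=
  x κ + (if κ = μ then 2⁻¹ else 0) + if κ = ν then 2⁻¹ else 0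

theorem xb_eq (x : St) (μ ν κ : Fin 4) : xb x μ ν κ = x κ + 2⁻¹ * kr κ μ + 2⁻¹ * kr κ ν := by
  simp only [xb, kr]
  split_ifs <;> simp

theorem pc2_eq (κ α β : Fin 4) (x : St) (μ : Fin 4) : pc2 (κ, α, β) (x, μ) = kr μ β *
    ((x κ : ℝ) * x α + 2⁻¹ * kr κ β * x α + 2⁻¹ * kr α β * x κ + 3⁻¹ * kr κ β * kr α β) := by
  simp only [pc2, kr]
  by_cases h1 : μ = β <;> by_cases h2 : κ = β <;> by_cases h3 : α = β <;> simp [h1, h2, h3]

theorem dd_pc2 (κ α β : Fin 4) (x : St) (μ ν : Fin 4) : dd (pc2 (κ, α, β)) x μ ν =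
    kr β ν * (kr κ μ * xb x μ ν α + kr α μ * xb x μ ν κ) -
      kr β μ * (kr κ ν * xb x μ ν α + kr α ν * xb x μ ν κ) := by
  simp only [dd, pc2_eq, add_un, xb_eq, kr_comm μ β, kr_comm ν β]
  by_cases h1 : β = μ <;> by_cases h2 : β = ν
  · subst h1 h2; ring
  · subst h1
    rw [show kr β ν = 0 from if_neg h2, show kr β β = 1 from if_pos rfl]; ring
  · subst h2
    rw [show kr β μ = 0 from if_neg h1, show kr β β = 1 from if_pos rfl]; ring
  · rw [show kr β μ = 0 from if_neg h1, show kr β ν = 0 from if_neg h2]; ring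

theorem dd_sum {ι : Type} (s : Finset ι) (f : ι → V) (x : St) (μ ν : Fin 4) :
    dd (∑ i ∈ s, f i) x μ ν = ∑ i ∈ s, dd (f i) x μ ν := by
  simp only [dd, Finset.sum_apply, sum_add_distrib, sum_sub_distrib]

theorem dd_self (a : V) (x : St) (μ : Fin 4) : dd a x μ μ = 0 := by simp only [dd]; ring

theorem dd_cc (a : V) (x : St) (μ ν : Fin 4) : dd (cc a) x μ ν = dd a 0 μ ν := dd_cf a x μ ν

theorem bianchi (a : V) (x : St) (κ μ ν : Fin 4) :
    dd a (x + un κ) μ ν - dd a x μ ν + (dd a (x + un μ) ν κ - dd a x ν κ) +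
      (dd a (x + un ν) κ μ - dd a x κ μ) = 0 := by
  simp only [dd, add_right_comm x (un μ) (un κ), add_right_comm x (un ν) (un κ),
    add_right_comm x (un ν) (un μ)]
  ring

theorem grd_anti (a : V) (κ μ ν : Fin 4) : grd a (κ, ν, μ) = -grd a (κ, μ, ν) := by
  simp only [grd, dd_anti a _ μ ν]; ring

theorem grd_cyc (a : V) (κ μ ν : Fin 4) :
    grd a (κ, μ, ν) + grd a (μ, ν, κ) + grd a (ν, κ, μ) = 0 := by
  simpa only [grd, zero_add] using bianchi a 0 κ μ ν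

theorem abs_xb {j : ℕ} {x : St} (hx : x ∈ box j) (μ ν κ : Fin 4) : |xb x μ ν κ| ≤ j + 1 := by
  have h : |(x κ : ℝ)| ≤ j := by exact_mod_cast La.mem_box.1 hx κ
  have := kr_mem κ μ
  have := kr_mem κ ν
  rw [xb_eq, abs_le] at *
  constructor <;> linarith [h.1, h.2]

theorem abs_kr (i j : Fin 4) : |kr i j| ≤ 1 := by
  rw [abs_of_nonneg (kr_mem i j).1]; exact (kr_mem i j).2

theorem wt1 {j s : ℕ} (hs : 1 ≤ s) : (j + 1 : ℝ) ≤ (j + 1 : ℝ) ^ s :=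
  le_self_pow₀ (by linarith [(j.cast_nonneg : (0 : ℝ) ≤ j)]) (by omega)

end V2

open V2

theorem dd_pc1 (p : Fin 4 × Fin 4) (x : St) (μ ν : Fin 4) : dd (pc1 p) x μ ν =
    (if μ = p.1 ∧ ν = p.2 then 1 else 0) - if ν = p.1 ∧ μ = p.2 then 1 else 0 := by
  obtain ⟨α, β⟩ := p
  simp only [dd, pc1, add_un, kr, eq_comm (a := α)]
  by_cases h1 : μ = β <;> by_cases h2 : ν = β <;> simp [h1, h2]

theorem cc_pc1 (a : V) : cc a = (2⁻¹ : ℝ) • ∑ p : Fin 4 × Fin 4, dd a 0 p.1 p.2 • pc1 p := by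
  funext ⟨x, μ⟩
  simp only [cc, Pi.smul_apply, Finset.sum_apply, smul_eq_mul, Fintype.sum_prod_type, pc1, mul_ite,
    mul_zero, sum_ite_eq, mem_univ, if_true]
  refine congrArg _ (sum_congr rfl fun ν _ => ?_)
  split_ifs with h
  · rw [h, dd_self, zero_mul, zero_mul]
  · rw [add_zero]

/-- centred linear curvature -/
theorem dd_rp2 (G : Fin 4 × Fin 4 × Fin 4 → ℝ) (x : St) (μ ν : Fin 4) : dd (rp2 G) x μ ν =
    ∑ κ, 3⁻¹ * (G (κ, μ, ν) + G (μ, κ, ν) - G (κ, ν, μ) - G (ν, κ, μ)) *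
      (x κ + (if κ = μ then 2⁻¹ else 0) + if κ = ν then 2⁻¹ else 0) := by
  have h : ∀ κ α β, G (κ, α, β) * dd (pc2 (κ, α, β)) x μ ν =
      kr κ μ * (kr β ν * (G (κ, α, β) * xb x μ ν α)) + kr α μ * (kr β ν * (G (κ, α, β) * xb x μ ν κ)) -
      kr κ ν * (kr β μ * (G (κ, α, β) * xb x μ ν α)) -
      kr α ν * (kr β μ * (G (κ, α, β) * xb x μ ν κ)) := fun κ α β => by
    rw [dd_pc2]; ring
  rw [rp2, La.Q.dd_smul, dd_sum]
  simp only [La.Q.dd_smul, Fintype.sum_prod_type, h, sum_add_distrib, sum_sub_distrib, ← mul_sum,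
    sum_kr]
  change _ = ∑ κ, _ * xb x μ ν κ
  simp only [mul_sum, ← sum_add_distrib, ← sum_sub_distrib]
  exact sum_congr rfl fun κ _ => by ring

theorem dd_lnn (a : V) (x : St) (μ ν : Fin 4) :
    dd (lnn a) x μ ν = ∑ κ, (x κ : ℝ) * grd a (κ, μ, ν) := by
  rw [lnn, RG.dd_sub, dd_cc, dd_rp2, dd_rp2, ← sum_sub_distrib]
  refine sum_congr rfl fun κ _ => ?_
  have h1 := grd_cyc a κ μ ν
  rw [grd_anti a κ μ ν, grd_anti a μ ν κ]
  simp only [Pi.zero_apply, Int.cast_zero]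
  linear_combination (-3⁻¹ * (x κ : ℝ)) * h1

theorem cw_pc {R s : ℕ} (hs : 1 ≤ s) : (∀ p, Cw R s 1 (pc1 p)) ∧ ∀ t, Cw R s 10 (pc2 t) := by
  refine ⟨fun p => cw_of_cv (fun x _ μ ν => ?_) s, fun ⟨κ, α, β⟩ j _ x hx μ ν => ?_⟩
  · rw [dd_pc1]
    split_ifs <;> norm_num
  · have h : ∀ a b c d e f : Fin 4, |kr a b * (kr c d * xb x μ ν α + kr e f * xb x μ ν κ)| ≤
        1 * (1 * (j + 1) + 1 * (j + 1)) := fun a b c d e f => by
      rw [abs_mul]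
      refine mul_le_mul (abs_kr _ _) ((abs_add_le _ _).trans ?_) (abs_nonneg _) zero_le_one
      rw [abs_mul, abs_mul]
      exact add_le_add (mul_le_mul (abs_kr _ _) (abs_xb hx _ _ _) (abs_nonneg _) zero_le_one)
        (mul_le_mul (abs_kr _ _) (abs_xb hx _ _ _) (abs_nonneg _) zero_le_one)
    rw [dd_pc2, Real.norm_eq_abs]
    refine (abs_sub _ _).trans ((add_le_add (h _ _ _ _ _ _) (h _ _ _ _ _ _)).trans ?_)
    linarith [wt1 (j := j) hs, (j.cast_nonneg : (0 : ℝ) ≤ j)]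

theorem grd_le {δ : ℝ} {a : V} (h : Cv 1 δ a) (t : Fin 4 × Fin 4 × Fin 4) : |grd a t| ≤ 2 * δ := by
  have h1 := h _ (RG.un_mem_box t.1) t.2.1 t.2.2
  have h2 := h _ (RG.zero_mem_box 1) t.2.1 t.2.2
  exact (abs_sub _ _).trans ((add_le_add h1 h2).trans_eq (by ring))

theorem cv_lnn {δ : ℝ} {a : V} (h : ∀ t, |grd a t| ≤ δ) (j : ℕ) : Cv j (4 * j * δ) (lnn a) := by
  intro x hx μ ν
  rw [dd_lnn]
  refine (abs_sum_le_sum_abs _ _).trans ((sum_le_card_nsmul _ _ (j * δ) fun κ _ => ?_).trans_eq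
    (by simp; ring))
  rw [abs_mul]
  exact mul_le_mul (by exact_mod_cast La.mem_box.1 hx κ) (h _) (abs_nonneg _) j.cast_nonneg

theorem cw_lnn {R s : ℕ} {δ : ℝ} {a : V} (hs : 1 ≤ s) (hR : 1 ≤ R) (h : Cw R s δ a) :
    Cw R s (8 * 2 ^ s * δ) (lnn a) := fun j _ => by
  have h0 := h.nonneg
  have h1 := grd_le (h 1 hR)
  refine (cv_lnn h1 j).mono le_rfl ?_
  have h2 : (j : ℝ) ≤ (j + 1 : ℝ) ^ s := (le_add_of_nonneg_right zero_le_one).trans (wt1 hs)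
  calc _ = 8 * 2 ^ s * δ * (j : ℝ) := by norm_num; ring
    _ ≤ _ := by gcongr

/-- the curvature of the radial potential -/
theorem cv_rp2 {δ : ℝ} {G : Fin 4 × Fin 4 × Fin 4 → ℝ} (h : ∀ t, |G t| ≤ δ) (j : ℕ) :
    Cv j (16 / 3 * (j + 1) * δ) (rp2 G) := by
  intro x hx μ ν
  rw [dd_rp2]
  refine (abs_sum_le_sum_abs _ _).trans ((sum_le_card_nsmul _ _ (4 / 3 * δ * (j + 1))
    fun κ _ => ?_).trans_eq (by simp; ring))
  rw [abs_mul]
  have h0 : 0 ≤ δ := (abs_nonneg _).trans (h 0)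
  refine mul_le_mul ?_ (abs_xb hx μ ν κ) (abs_nonneg _) (by positivity)
  have h1 := abs_le.1 (h (κ, μ, ν))
  have h2 := abs_le.1 (h (μ, κ, ν))
  have h3 := abs_le.1 (h (κ, ν, μ))
  have h4 := abs_le.1 (h (ν, κ, μ))
  rw [abs_le]
  constructor <;> linarith [h1.1, h1.2, h2.1, h2.2, h3.1, h3.2, h4.1, h4.2]

theorem V2.bil_le {ι κ : Type} [Fintype ι] [Fintype κ] (k : CF) {p : ι → V} {q : κ → V} {u : ι → ℝ}
    {v : κ → ℝ} {x δ δ' : ℝ} (s t : ℝ) (hx : ∀ i j, ‖k (p i) (q j)‖ ≤ x) (hu : ∀ i, |u i| ≤ δ)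
    (hv : ∀ j, |v j| ≤ δ') : ‖k (s • ∑ i, u i • p i) (t • ∑ j, v j • q j)‖ ≤
      |s| * |t| * (Fintype.card ι * (Fintype.card κ * (x * δ * δ'))) := by
  have e : k (s • ∑ i, u i • p i) (t • ∑ j, v j • q j) =
      s • t • ∑ i, ∑ j, u i • v j • k (p i) (q j) := by
    rw [map_smul k, LinearMap.smul_apply, map_smul, map_sum k, LinearMap.sum_apply]
    simp only [map_smul, LinearMap.smul_apply, map_sum, smul_sum, smul_comm (v _) (u _)]
  rw [e, norm_smul, norm_smul, Real.norm_eq_abs, Real.norm_eq_abs, mul_assoc]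
  gcongr
  refine (norm_sum_le _ _).trans ((sum_le_card_nsmul _ _ (Fintype.card κ * (x * δ * δ'))
    fun i _ => ?_).trans_eq (by simp))
  refine (norm_sum_le _ _).trans ((sum_le_card_nsmul _ _ (x * δ * δ')
    fun j _ => ?_).trans_eq (by simp))
  rw [norm_smul, norm_smul, Real.norm_eq_abs, Real.norm_eq_abs]
  have d0 := (abs_nonneg _).trans (hu i)
  have d1 := (abs_nonneg _).trans (hv j)
  calc _ ≤ δ * (δ' * x) := by gcongr; exacts [hu i, hv j, hx i j]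
    _ = _ := by ring

/-- the values bound the parts of order zero and one -/
theorem Gf.bd {k : CF} (h : Gf k) {x δ δ' : ℝ} {a b : V} (hx : ‖qv fun a b => k a b‖ ≤ x)
    (ha : Cv 0 δ a) : (Cv 0 δ' b → ‖k (cc a) (cc b)‖ ≤ 64 * x * δ * δ') ∧
      ((∀ t, |grd b t| ≤ δ') → ‖k (cc a) (lnn b)‖ ≤ 1000 * x * δ * δ') := by
  have h1 : ∀ p p', ‖k (pc1 p) (pc1 p')‖ ≤ x := fun p p' =>
    (norm_le_pi_norm ((qv fun a b => k a b).1 p) p').trans
      ((norm_le_pi_norm _ p).trans ((norm_fst_le _).trans hx))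
  have h2 : ∀ p t, ‖k (pc1 p) (pc2 t)‖ ≤ x := fun p t =>
    (norm_le_pi_norm ((qv fun a b => k a b).2 p) t).trans
      ((norm_le_pi_norm _ p).trans ((norm_snd_le _).trans hx))
  have h3 : ∀ {b : V} {δ' : ℝ}, Cv 0 δ' b → ‖k (cc a) (cc b)‖ ≤ 64 * x * δ * δ' := fun {b δ'} hb => by
    rw [cc_pc1 a, cc_pc1 b]
    refine (bil_le k _ _ h1 (fun p => ha 0 (RG.zero_mem_box 0) p.1 p.2)
      (fun p => hb 0 (RG.zero_mem_box 0) p.1 p.2)).trans_eq ?_
    simp; ring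
  refine ⟨h3, fun hb => ?_⟩
  have h4 : ‖k (cc a) (rp2 (grd b))‖ ≤ 512 / 3 * x * δ * δ' := by
    rw [cc_pc1 a, rp2]
    refine (bil_le k _ _ h2 (fun p => ha 0 (RG.zero_mem_box 0) p.1 p.2) hb).trans_eq ?_
    simp; ring
  have h5 := h3 (cv_rp2 hb 0)
  have h0 : 0 ≤ x * δ * δ' := mul_nonneg (mul_nonneg ((norm_nonneg _).trans hx) ha.nonneg)
    ((abs_nonneg _).trans (hb 0))
  rw [lnn, map_sub]
  refine (norm_sub_le _ _).trans ((add_le_add h4 h5).trans ?_)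
  push_cast
  linarith

theorem Fm.gf {R s : ℕ} {xb xk : ℝ} {k : CF} (h : Fm R s xb xk k) : Gf k := by
  refine ⟨h.symm, fun a b ha => ?_⟩
  obtain ⟨δ, hb⟩ := Ho.cv_exists R b
  have h1 : Cv R 0 a := fun x _ μ ν => by simp [ha]
  have h2 : Q4.cc a = 0 := by funext e; simp [Q4.cc, ha]
  simpa [h2] using h.ck a b 0 δ (cw_of_cv h1 s) (cw_of_cv hb s)

end Pool.Agent.Lib.MP_7f377f_mp.RG.Q4
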