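import Pool.Agent.Lib.MP_7f377f_mp.G.StV0

/-! Linear sections in finite dimension. -/

noncomputable section

set_option linter.unusedSectionVars false
variable [Pool.Agent.Lib.MP_7f377f_mp.GD]

namespace Pool.Agent.Lib.MP_7f377f_mp.RG.Q4

open Finset

/-- onto implies a section (finite dimension) -/
theorem exists_sec {E β : Type} [NormedAddCommGroup E] [NormedSpace ℂ E] [FiniteDimensional ℂ E]
    [Fintype β] (q : (V → V → ℂ) → E) (w : β → E)
    (h : ∀ k : CF, Gf k → ∃ c : β → ℂ, ∑ i, c i • w i = q fun a b => k a b) : ∃ C, Sec q w C := by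
  obtain ⟨g, hg⟩ := (Fintype.linearCombination ℂ w).rangeRestrict.exists_rightInverse_of_surjective
    (LinearMap.range_rangeRestrict _)
  obtain ⟨s, hs⟩ := LinearMap.exists_extend g
  refine ⟨Fintype.card β * ‖LinearMap.toContinuousLinearMap s‖, s, fun e => ?_, fun k hk => ?_⟩
  · have h1 : ∀ i ∈ (univ : Finset β), ‖s e i‖ ≤ ‖LinearMap.toContinuousLinearMap s‖ * ‖e‖ :=
      fun i _ => (norm_le_pi_norm (s e) i).trans ((LinearMap.toContinuousLinearMap s).le_opNorm e)
    have := sum_le_card_nsmul univ _ _ h1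
    rwa [nsmul_eq_mul, card_univ, ← mul_assoc] at this
  · obtain ⟨c, hc⟩ := h k hk
    have m : (q fun a b => k a b) ∈ LinearMap.range (Fintype.linearCombination ℂ w) :=
      ⟨c, by rw [Fintype.linearCombination_apply, hc]⟩
    have e1 : s (q fun a b => k a b) = g ⟨_, m⟩ := LinearMap.congr_fun hs ⟨_, m⟩
    have e2 := congrArg Subtype.val (LinearMap.congr_fun hg ⟨_, m⟩)
    rw [e1, ← Fintype.linearCombination_apply ℂ w]
    exact e2

end Pool.Agent.Lib.MP_7f377f_mp.RG.Q4
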