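import Pool.Agent.Lib.MP_7f377f_mp.G.StV2

/-! The linear push of a form in the refined class. -/

noncomputable section

open Pool.Agent.Lib.MP_7f377f_mp.Jet

set_option linter.unusedSectionVars false
variable [Pool.Agent.Lib.MP_7f377f_mp.GD]

namespace Pool.Agent.Lib.MP_7f377f_mp.RG.Q4

open Finset Real La La.Q
open scoped Classical Pointwise

namespace V3

variable {l r r0 R R' s c : ℕ} {τ g H lam x y t κ δ δ' : ℝ} {m : BF} {σ : V →ₗ[ℝ] V} {k : CF}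
  {a b : V}

/-- squared second differences of the curvature -/
def hd (b : V) (z : St) : ℝ := ∑ ν, La.Q.gd (sh (un ν) b - b) z

theorem hd_nonneg (b : V) (z : St) : 0 ≤ hd b z := sum_nonneg fun _ _ => gd_nonneg _ _

/-- the remainder of order two -/
def rm (u : V) : V := u - cc u - lnn u

theorem dd_rm (u : V) (z : St) (μ ν : Fin 4) : dd (rm u) z μ ν =
    dd u z μ ν - dd u 0 μ ν - ∑ i, (z i : ℝ) * grd u (i, μ, ν) := by
  rw [rm, RG.dd_sub, RG.dd_sub, V2.dd_cc, dd_lnn]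

theorem cc_zero (h : ∀ μ ν, dd a 0 μ ν = 0) : cc a = 0 := by
  funext e
  simp [cc, h]

theorem cc_rm (u : V) : cc (rm u) = 0 := cc_zero fun μ ν => by simp [dd_rm]

theorem cc_osc (u : V) : cc (u - cc u) = 0 := cc_zero fun μ ν => by
  rw [RG.dd_sub, V2.dd_cc, sub_self]

theorem lnn_rm (u : V) : lnn (rm u) = 0 := by
  have h : grd (rm u) = 0 := by
    funext ⟨i, μ, ν⟩
    simp [grd, dd_rm, un_apply]
  have h2 : rp2 0 = 0 := by simp [rp2]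
  rw [lnn, h, h2, cc_zero fun μ ν => Ho.dd_zero 0 μ ν, sub_zero]

theorem cv_rm (R : ℕ) (b : V) (z : St) : Cv R (16 * R ^ 2 * lc R (hd b) z) (rm (sh z b)) := by
  intro w hw μ ν
  have e := La.lam_gr (fun w => dd b (w + z) μ ν - ∑ i, (w i : ℝ) * grd (sh z b) (i, μ, ν)) w
  have e2 : dd (rm (sh z b)) w μ ν = lam (gr fun w => dd b (w + z) μ ν -
      ∑ i, (w i : ℝ) * grd (sh z b) (i, μ, ν)) w := by
    rw [e, dd_rm, RG.dd_sh, RG.dd_sh]
    simp only [Pi.zero_apply, Int.cast_zero, zero_mul, sum_const_zero]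
    ring
  rw [e2, Real.norm_eq_abs]
  refine (La.abs_lam_le hw (K := 4 * R * lc R (hd b) z) fun f hf => ?_).trans_eq (by ring)
  have e3 : (gr fun w => dd b (w + z) μ ν - ∑ i, (w i : ℝ) * grd (sh z b) (i, μ, ν)) f =
      dd (sh (un f.2) b - b) (f.1 + z) μ ν - dd (sh (un f.2) b - b) z μ ν := by
    simp only [gr, V2.add_un, add_mul, sum_add_distrib, V2.sum_kr (fun i => grd (sh z b) (i, μ, ν)),
      RG.dd_sub, RG.dd_sh]
    rw [grd, RG.dd_sh, RG.dd_sh, zero_add, add_right_comm f.1 z, add_comm z (un f.2)]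
    ring
  rw [e3]
  refine (osc _ z (mem_lbox.1 hf) μ ν).trans (mul_le_mul_of_nonneg_left (Real.sqrt_le_sqrt
    (sum_le_sum fun w _ => ?_)) (by positivity))
  exact single_le_sum (f := fun ν => La.Q.gd (sh (un ν) b - b) (w + z)) (fun _ _ => gd_nonneg _ _)
    (mem_univ f.2)

theorem grd_pt (u : V) (z : St) (j : Fin 4 × Fin 4 × Fin 4) : |grd (sh z u) j| ≤ √(La.Q.gd u z) := by
  refine Real.abs_le_sqrt (le_trans (le_of_eq ?_) ((Li.sq_le_nd (sh (un j.1) u - u) z j.2.1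
    j.2.2).trans (single_le_sum (f := fun ν => nd (sh (un ν) u - u) z)
      (fun _ _ => Li.nd_nonneg _ _) (mem_univ j.1))))
  rw [grd, RG.dd_sub, RG.dd_sh, RG.dd_sh, RG.dd_sh, zero_add, add_comm z]

/-- the value of the form from four sizes of each argument -/
theorem pt (hk : Gf k) (h2 : Fs2 R s y fun a b => k a b) (hx : ‖qv fun a b => k a b‖ ≤ x)
    {u v : V} {a0 a1 a2 a3 b0 b1 b2 b3 : ℝ} (u0 : Cv 0 a0 u) (u1 : ∀ j, |grd u j| ≤ a1)
    (u2 : Cw R s a2 (u - cc u)) (u3 : Cw R s a3 (rm u)) (v0 : Cv 0 b0 v)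
    (v1 : ∀ j, |grd v j| ≤ b1) (v2 : Cw R s b2 (v - cc v)) (v3 : Cw R s b3 (rm v)) :
    ‖k u v‖ ≤ x * (64 * (a0 * b0) + 1000 * (a0 * b1) + 1000 * (a1 * b0)) +
      y * (a0 * b3 + a3 * b0 + a2 * b2) := by
  have e : k u v = k (cc u) (cc v) + k (cc u) (lnn v) + k (cc v) (lnn u) +
      (k (cc u) (rm v) + k (cc v) (rm u) + k (u - cc u) (v - cc v)) := by
    simp only [rm, map_sub, LinearMap.sub_apply, hk.1 (cc v)]
    ring
  have p1 := (hk.bd (b := v) hx u0).1 v0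
  have p2 := (hk.bd (b := v) hx u0).2 v1
  have p3 := (hk.bd (b := u) hx v0).2 u1
  have p4 := h2 _ _ _ _ (Cw.cc u0 R s) v3
  have p5 := h2 _ _ _ _ (Cw.cc v0 R s) u3
  have p6 := h2 _ _ _ _ u2 v2
  simp only [cc_rm, lnn_rm, cc_osc, map_zero, LinearMap.zero_apply, sub_zero] at p4 p5 p6
  rw [e]
  exact (norm_add_le _ _).trans ((add_le_add (norm_add₃_le.trans (add_le_add_three p1 p2 p3))
    (norm_add₃_le.trans (add_le_add_three p4 p5 p6))).trans_eq (by ring))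

theorem cw_rm (hp : PtC l r lam σ) (lam0 : 0 ≤ lam) (hs : 1 ≤ s) (hr : 1000 ≤ r) (h0 : 1 ≤ r0)
    (hl : r0 ≤ l) (hR : r / 3 + (R / LL l + 1) ≤ R') (ha : Cw R' s δ a) {z : St} (hz : z ∈ box l) :
    Cw R s (16 * r0 ^ 2 * lc r0 (hd (mu l σ a)) z + 18 * r0 * (lam * (r / r0) ^ s * δ))
      (rm (sh z (mu l σ a))) := by
  have d0 := ha.nonneg
  have far : ∀ j ≤ R, r0 ≤ j → Cv j (lam * (r / r0) ^ s * δ * (j + 1 : ℝ) ^ s) (sh z (mu l σ a)) :=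
    fun j hj h1 => (hp.sh (ha _ (le_trans (by gcongr) hR)) hz).mono le_rfl (by
      have := wt_le hr h0 hl h1
      calc _ ≤ lam * (δ * (r / r0 * (j + 1 : ℝ)) ^ s) := by gcongr
        _ = _ := by rw [mul_pow]; ring)
  have n1 : 0 ≤ lc r0 (hd (mu l σ a)) z := Real.sqrt_nonneg _
  obtain ⟨w, hw⟩ : ∃ w, w = lam * (r / r0 : ℝ) ^ s * δ := ⟨_, rfl⟩
  have w0 : 0 ≤ w := by rw [hw]; positivity
  rw [← hw] at far ⊢
  have n2 : 0 ≤ 16 * (r0 : ℝ) ^ 2 * lc r0 (hd (mu l σ a)) z := by positivity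
  have r1 : (1 : ℝ) ≤ r0 := by exact_mod_cast h0
  intro j hj
  have wj := wt_one j s
  rcases le_total j r0 with h | h
  · refine (cv_rm r0 _ z).mono h ?_
    have : 0 ≤ 18 * r0 * w := by positivity
    nlinarith
  · intro p hp μ ν
    have c1 := cv_lnn (grd_le ((far r0 (h.trans hj) le_rfl).mono h0 le_rfl)) j p hp μ ν
    have c2 : (j : ℝ) * (r0 + 1 : ℝ) ^ s ≤ (r0 + 1) * (j + 1 : ℝ) ^ s := by
      obtain ⟨s, rfl⟩ : ∃ s', s = s' + 1 := ⟨s - 1, by omega⟩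
      have : (r0 : ℝ) ≤ j := by exact_mod_cast h
      calc _ = (r0 + 1 : ℝ) * ((r0 + 1 : ℝ) ^ s * j) := by ring
        _ ≤ (r0 + 1 : ℝ) * ((j + 1 : ℝ) ^ s * (j + 1)) := by gcongr; linarith
        _ = _ := by ring
    rw [rm, RG.dd_sub, RG.dd_sub, V2.dd_cc]
    refine (norm_sub_le _ _).trans ((add_le_add ((norm_sub_le _ _).trans (add_le_add
      (far j hj h p hp μ ν) (far j hj h 0 (zero_mem_box j) μ ν))) c1).trans ?_)
    have c3 := mul_le_mul_of_nonneg_left c2 w0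
    have c4 : 0 ≤ w * (j + 1 : ℝ) ^ s := by positivity
    nlinarith [mul_nonneg n2 (zero_le_one.trans wj), mul_le_mul_of_nonneg_right r1 c4]

theorem hd_blk {B : V} (hg : Hess l r H σ) (z : St) (hB : Cv (r / 3) δ (sh z B)) :
    ∑ p ∈ box l, hd (mu l σ B) (p + up l z) ≤ (H * δ) ^ 2 := by
  refine le_of_eq_of_le (sum_congr rfl fun p _ => sum_congr rfl fun i _ =>
    sum_congr rfl fun j _ => ?_) (hg _ _ hB)
  rw [mu_sh, ← Li.nd_sh]
  congr 1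
  funext e
  simp only [sh, Pi.sub_apply, add_assoc, add_comm, add_left_comm]

theorem l2_hd (hg : Grad l r g σ) (hh : Hess l r H σ) (hr : 1000 ≤ r) (hl : r0 ≤ l)
    (hR : r / 3 + 1 ≤ R') (ha : Cw R' s δ a) :
    ∑ z ∈ box l, √(La.Q.gd (mu l σ a) z) ^ 2 ≤ (g * (r : ℝ) ^ s * δ) ^ 2 ∧
    ∑ z ∈ box l, (16 * r0 ^ 2 * lc r0 (hd (mu l σ a)) z) ^ 2 ≤
      (144 * r0 ^ 2 * (2 * r0 + 1) ^ 2 * H * (r : ℝ) ^ s * δ) ^ 2 := by
  have d0 := ha.nonneg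
  have c0 : Cv (r / 3 + 1) (δ * (r : ℝ) ^ s) a := (ha _ hR).mono le_rfl (by
    have : ((r / 3 + 1 : ℕ) + 1 : ℝ) ≤ r := by exact_mod_cast (by omega : r / 3 + 1 + 1 ≤ r)
    gcongr)
  have c1 : ∀ y ∈ box 1, Cv (r / 3) (δ * (r : ℝ) ^ s) (sh y a) := fun y hy => c0.sh hy
  have hL : LL l = 2 * l + 1 := rfl
  have sq : √((2 * r0 + 1 : ℝ) ^ 4) = (2 * r0 + 1 : ℝ) ^ 2 := by
    rw [show (2 * r0 + 1 : ℝ) ^ 4 = ((2 * r0 + 1) ^ 2) ^ 2 by ring, Real.sqrt_sq (by positivity)]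
  have hU : ∀ U ⊆ box r0 + box l, U ⊆ box (1 * LL l + l) := fun U h => h.trans (box_add (by omega))
  constructor
  · simp only [Real.sq_sqrt (gd_nonneg _ _)]
    exact (hg _ _ (c0.mono (by omega) le_rfl)).trans_eq (by ring)
  · simp only [mul_pow _ (lc _ _ _), ← mul_sum]
    refine (mul_le_mul_of_nonneg_left (lc_sum (E := 9 * H * (δ * (r : ℝ) ^ s)) (hd_nonneg _)
      fun U hu => (blk_sum (hd_nonneg _) (fun y hy => hd_blk hh y (c1 y hy)) (hU U hu)).trans_eq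
        (by push_cast; ring)) (sq_nonneg _)).trans_eq (by rw [sq]; ring)

/-- size of the oscillation -/
def A2 (L r r0 g lam : ℝ) (s : ℕ) : ℝ :=
  36 * r0 * (2 * r0 + 1) ^ 2 * g * r ^ s + 2 * (L ^ 2 * (lam * (r / r0) ^ s))

/-- size of the remainder of order two -/
def A3 (L r r0 H lam : ℝ) (s : ℕ) : ℝ :=
  144 * r0 ^ 2 * (2 * r0 + 1) ^ 2 * H * r ^ s + 18 * r0 * (L ^ 2 * (lam * (r / r0) ^ s))

theorem pk_all (hk : Gf k) (h2 : Fs2 R s y fun a b => k a b) (hx : ‖qv fun a b => k a b‖ ≤ x)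
    (y0 : 0 ≤ y) (h : Lin l r c τ m σ) (hg : Grad l r g σ) (g0 : 0 ≤ g) (hh : Hess l r H σ)
    (H0 : 0 ≤ H) (hp : PtC l r lam σ) (lam0 : 0 ≤ lam) (hs : 1 ≤ s) (hr : 1000 ≤ r) (h0 : 1 ≤ r0)
    (hl : r0 ≤ l) (hR : r / 3 + (R / LL l + 1) ≤ R') (ha : Cw R' s δ a) (hb : Cw R' s δ' b) :
    ‖pkL l σ (fun _ => k) a b‖ ≤ (x * (64 * ((r : ℝ) ^ (s + 3)) ^ 2 +
      2000 * (r ^ (s + 3) * (g * r ^ s))) + y * (2 * (r ^ (s + 3) * A3 (LL l) r r0 H lam s) +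
        A2 (LL l) r r0 g lam s ^ 2)) * δ * δ' := by
  have d0 := ha.nonneg
  have d1 := hb.nonneg
  have x0 := (norm_nonneg _).trans hx
  have r1 : (1 : ℝ) ≤ r := by exact_mod_cast (by omega : 1 ≤ r)
  have hR1 : r / 3 + 1 ≤ R' := le_trans (by gcongr; exact Nat.le_add_left _ _) hR
  obtain ⟨w, hw⟩ : ∃ w, w = lam * (r / r0 : ℝ) ^ s := ⟨_, rfl⟩
  have w0 : 0 ≤ w := by rw [hw]; positivity
  have hS : ((box l).card : ℝ) = ((LL l : ℝ) ^ 2) ^ 2 := by rw [card_box_LL]; ring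
  have all : ∀ {a δ}, Cw R' s δ a →
      ∑ z ∈ box l, √(nd (mu l σ a) z) ^ 2 ≤ ((r : ℝ) ^ (s + 3) * δ) ^ 2 ∧
      ∑ z ∈ box l, √(La.Q.gd (mu l σ a) z) ^ 2 ≤ (g * (r : ℝ) ^ s * δ) ^ 2 ∧
      ∑ z ∈ box l, (4 * r0 * lc r0 (La.Q.gd (mu l σ a)) z + 2 * (w * δ)) ^ 2 ≤
        (A2 (LL l) r r0 g lam s * δ) ^ 2 ∧
      ∑ z ∈ box l, (16 * r0 ^ 2 * lc r0 (hd (mu l σ a)) z + 18 * r0 * (w * δ)) ^ 2 ≤
        (A3 (LL l) r r0 H lam s * δ) ^ 2 := fun {a δ} ha => by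
    have d0 := ha.nonneg
    obtain ⟨-, a2, a3⟩ := l2_mu (r0 := r0) h hg hr hl hR1 ha
    obtain ⟨a4, a5⟩ := l2_hd (r0 := r0) hg hh hr hl hR1 ha
    refine ⟨?_, a4, (l2_add (by positivity) (by positivity) (by positivity) hS a2).trans_eq ?_,
      (l2_add (by positivity) (by positivity) (by positivity) hS a5).trans_eq ?_⟩
    · simp only [Real.sq_sqrt (Li.nd_nonneg _ _)]
      refine a3.trans ?_
      rw [mul_pow, ← pow_mul]
      exact mul_le_mul_of_nonneg_right (pow_le_pow_right₀ r1 (by omega)) (sq_nonneg _)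
    · rw [A2, ← hw]; ring
    · rw [A3, ← hw]; ring
  obtain ⟨a0, a1, a2, a3⟩ := all ha
  obtain ⟨b0, b1, b2, b3⟩ := all hb
  have p2 : 0 ≤ A2 (LL l) r r0 g lam s := by unfold A2; positivity
  have p3 : 0 ≤ A3 (LL l) r r0 H lam s := by unfold A3; positivity
  have s1 := (le_abs_self _).trans (La.Q.cs (box l) (by positivity) (by positivity) a0 b0)
  have s2 := (le_abs_self _).trans (La.Q.cs (box l) (by positivity) (by positivity) a0 b1)
  have s3 := (le_abs_self _).trans (La.Q.cs (box l) (by positivity) (by positivity) a1 b0)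
  have s4 := (le_abs_self _).trans (La.Q.cs (box l) (by positivity) (by positivity) a0 b3)
  have s5 := (le_abs_self _).trans (La.Q.cs (box l) (by positivity) (by positivity) a3 b0)
  have s6 := (le_abs_self _).trans (La.Q.cs (box l) (by positivity) (by positivity) a2 b2)
  rw [pkL_apply]
  refine (norm_sum_le _ _).trans ((sum_le_sum fun z hz => pt hk h2 hx (cv_pt _ z) (grd_pt _ z)
    (cw_mu hp lam0 hr h0 hl hR ha hz).2 (cw_rm hp lam0 hs hr h0 hl hR ha hz) (cv_pt _ z)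
    (grd_pt _ z) (cw_mu hp lam0 hr h0 hl hR hb hz).2 (cw_rm hp lam0 hs hr h0 hl hR hb hz)).trans ?_)
  rw [← hw, sum_add_distrib, ← mul_sum, ← mul_sum, sum_add_distrib, sum_add_distrib,
    sum_add_distrib, sum_add_distrib, ← mul_sum, ← mul_sum, ← mul_sum]
  refine (add_le_add (mul_le_mul_of_nonneg_left (add_le_add_three
    (mul_le_mul_of_nonneg_left s1 (by norm_num)) (mul_le_mul_of_nonneg_left s2 (by norm_num))
    (mul_le_mul_of_nonneg_left s3 (by norm_num))) x0)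
    (mul_le_mul_of_nonneg_left (add_le_add_three s4 s5 s6) y0)).trans_eq (by ring)

theorem congr_left (hk : Gf k) {a' : V} (h : ∀ z μ ν, dd a z μ ν = dd a' z μ ν) (b : V) :
    k a b = k a' b := by
  have := hk.2 (a - a') b (by
    funext z μ ν
    rw [RG.dd_sub, h, sub_self]
    rfl)
  rwa [map_sub, LinearMap.sub_apply, sub_eq_zero] at this

theorem pc1_cc (hk : Gf k) (p : Fin 4 × Fin 4) (b : V) : k (pc1 p) b = k (cc (pc1 p)) b :=
  congr_left hk (fun z μ ν => by rw [V2.dd_cc, dd_pc1, dd_pc1]) b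

/-- the size of the form in the curvature norm -/
theorem cc_of (hk : Gf k) (h2 : Fs2 R s y fun a b => k a b) (hx : ‖qv fun a b => k a b‖ ≤ x)
    (y0 : 0 ≤ y) (hR : 1 ≤ R) : Cc R (4064 * (x + y)) k := fun a b δ δ' ha hb => by
  have x0 := (norm_nonneg _).trans hx
  have a0 := ha.mono R.zero_le le_rfl
  have b0 := hb.mono R.zero_le le_rfl
  have p1 := (hk.bd (b := b) hx a0).1 b0
  have p2 := (hk.bd (b := b) hx a0).2 (grd_le (hb.mono hR le_rfl))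
  have p3 := (hk.bd (b := a) hx b0).2 (grd_le (ha.mono hR le_rfl))
  have p4 := h2 _ _ _ _ (cw_of_cv ha s) (cw_of_cv hb s)
  have e : k a b = k a b - k (cc a) (cc b) - k (cc a) (lnn b) - k (lnn a) (cc b) +
      (k (cc a) (cc b) + k (cc a) (lnn b) + k (cc b) (lnn a)) := by
    rw [hk.1 (cc b)]
    ring
  rw [e]
  refine (norm_add_le _ _).trans ((add_le_add p4
    (norm_add₃_le.trans (add_le_add_three p1 p2 p3))).trans ?_)
  nlinarith [mul_nonneg y0 (mul_nonneg ha.nonneg hb.nonneg)]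

theorem sum_box (l : ℕ) (i : Fin 4) : ∑ z ∈ box l, (z i : ℝ) = 0 := by
  have : ∑ z ∈ box l, (z i : ℝ) = ∑ z ∈ box l, -(z i : ℝ) :=
    sum_nbij' (fun z => -z) (fun z => -z) (fun _ h => RG.neg_mem_box h)
      (fun _ h => RG.neg_mem_box h) (fun _ _ => neg_neg _) (fun _ _ => neg_neg _)
      fun z _ => by simp
  rw [sum_neg_distrib] at this
  linarith

theorem dd_avg (l : ℕ) (G : Fin 4 × Fin 4 × Fin 4 → ℝ) (w : St) (μ ν : Fin 4) :
    dd (∑ z ∈ box l, sh z (rp2 G)) w μ ν = dd (((LL l : ℝ) ^ 4) • rp2 G) w μ ν := by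
  rw [V2.dd_sum, La.Q.dd_smul, dd_rp2, mul_sum]
  simp only [RG.dd_sh, dd_rp2]
  rw [sum_comm]
  refine sum_congr rfl fun i _ => ?_
  simp only [Pi.add_apply, Int.cast_add, ← mul_sum, sum_add_distrib, sum_box, sum_const,
    nsmul_eq_mul, card_box_LL]
  ring

/-- the push scales the values on constant and linear curvature -/
theorem pk_lin (hk : Gf k) (hc : Cc R κ k) (h : CsE l t σ) (h' : LsE l t σ) (t0 : 0 ≤ t)
    (t1 : t ≤ 1) (ha : Cv 0 δ a) {G : Fin 4 × Fin 4 × Fin 4 → ℝ} (hG : ∀ u, |G u| ≤ δ') :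
    ‖pkL l σ (fun _ => k) (cc a) (rp2 G) - ((LL l : ℝ))⁻¹ • k (cc a) (rp2 G)‖ ≤
      (LL l : ℝ) ^ 4 * (8 * t * (R + l + 1) * κ * δ * δ') := by
  have L0 := LL_posR l
  have L1 : (1 : ℝ) ≤ LL l := by exact_mod_cast Li.LL_pos l
  have d0 := ha.nonneg
  have d1 : 0 ≤ δ' := (abs_nonneg _).trans (hG 0)
  have κ0 := hc.nonneg
  have sm : ∀ {a δ} (n : ℕ), Cv R δ a → Cv R δ (((LL l : ℝ) ^ n)⁻¹ • a) := fun n ha =>
    (cv_smul' _ ha).mono le_rfl (mul_le_of_le_one_left ha.nonneg (by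
      rw [abs_of_pos (by positivity)]
      exact inv_le_one_of_one_le₀ (one_le_pow₀ L1)))
  have e0 : ((LL l : ℝ))⁻¹ • k (cc a) (rp2 G) =
      ∑ z ∈ box l, ((LL l : ℝ) ^ 5)⁻¹ • k (cc a) (sh z (rp2 G)) := by
    rw [← smul_sum, ← map_sum, hk.1 _ (∑ z ∈ box l, _), congr_left hk (dd_avg l G), map_smul,
      LinearMap.smul_apply, smul_smul, hk.1 (rp2 G)]
    congr 1
    field_simp
  rw [pkL_apply, e0, ← sum_sub_distrib]
  refine (norm_sum_le _ _).trans ((sum_le_card_nsmul _ _ (8 * t * (R + l + 1) * κ * δ * δ')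
    fun z hz => ?_).trans_eq (by rw [nsmul_eq_mul, card_box_LL]))
  obtain ⟨u, hu⟩ : ∃ u, u = sh z (mu l σ (cc a)) - ((LL l : ℝ) ^ 2)⁻¹ • cc a := ⟨_, rfl⟩
  obtain ⟨v, hv⟩ : ∃ v, v = sh z (mu l σ (rp2 G) - ((LL l : ℝ) ^ 3)⁻¹ • rp2 G) := ⟨_, rfl⟩
  have e : k (sh z (mu l σ (cc a))) (sh z (mu l σ (rp2 G))) - ((LL l : ℝ) ^ 5)⁻¹ •
      k (cc a) (sh z (rp2 G)) = k u v + k u (((LL l : ℝ) ^ 3)⁻¹ • sh z (rp2 G)) +
        k (((LL l : ℝ) ^ 2)⁻¹ • cc a) v := by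
    rw [show ((LL l : ℝ) ^ 5)⁻¹ = ((LL l : ℝ) ^ 3)⁻¹ * ((LL l : ℝ) ^ 2)⁻¹ by field_simp, mul_smul]
    simp only [hu, hv, La.sh_sub, La.sh_smul, map_sub, map_smul, LinearMap.sub_apply,
      LinearMap.smul_apply, smul_sub]
    abel
  have p : Cv R (t * δ) u := hu ▸ h a δ ha R z
  have q : Cv R (t * ((R + l : ℕ) + 1) * δ') v := hv ▸ (h' G δ' hG (R + l)).sh hz
  have q2 := sm 3 ((cv_rp2 hG (R + l)).sh hz)
  push_cast at q q2
  rw [e]
  refine norm_add₃_le.trans ((add_le_add_three (hc _ _ _ _ p q) (hc _ _ _ _ p q2)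
    (hc _ _ _ _ (sm 2 (cv_cf ha R)) q)).trans ?_)
  have : 0 ≤ t * (R + l + 1) * κ * δ * δ' := by positivity
  nlinarith [mul_le_mul_of_nonneg_right t1 this]

theorem pc2_rp2 (j : Fin 4 × Fin 4 × Fin 4) : pc2 j = rp2 (Pi.single j 3) := by
  rw [rp2, sum_eq_single j (fun i _ h => by simp [h]) (by simp), Pi.single_eq_same, smul_smul]
  norm_num

theorem exists_r0 (t0 : 0 < t) (t1 : t ≤ 1) :
    ∃ r0 : ℕ, 1 ≤ r0 ∧ 1 ≤ (r0 : ℝ) ^ 2 * t ^ 3 ∧ (r0 : ℝ) ^ 2 * t ^ 3 ≤ 4 := by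
  have p : 0 < t ^ 3 := by positivity
  have h1 : 1 ≤ √(t ^ 3)⁻¹ := Real.one_le_sqrt.2 (one_le_inv₀ p |>.2 (pow_le_one₀ t0.le t1))
  have h2 : √(t ^ 3)⁻¹ ^ 2 * t ^ 3 = 1 := by
    rw [Real.sq_sqrt (by positivity), inv_mul_cancel₀ p.ne']
  have h3 := Nat.le_ceil (√(t ^ 3)⁻¹)
  have h4 := (Nat.ceil_lt_add_one (zero_le_one.trans h1)).le
  refine ⟨⌈√(t ^ 3)⁻¹⌉₊, by exact_mod_cast h1.trans h3, ?_, ?_⟩
  · exact h2.ge.trans (by gcongr)
  · calc _ ≤ (2 * √(t ^ 3)⁻¹) ^ 2 * t ^ 3 := by gcongr; linarith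
      _ = 4 * (√(t ^ 3)⁻¹ ^ 2 * t ^ 3) := by ring
      _ = 4 := by rw [h2, mul_one]

theorem num {L r r0 : ℝ} (r1 : 10 ^ 15 ≤ r) (t0 : 0 < t) (hL : t ^ 20 * L = 1) (h1 : 1 ≤ r0)
    (h2 : 1 ≤ r0 ^ 2 * t ^ 3) (h3 : r0 ^ 2 * t ^ 3 ≤ 4) (h4 : r ^ 44 * t ≤ 1)
    (h5 : r ^ (c + 20) * t ≤ 1) :
    r ^ c / L * r ^ 20 ≤ 1 ∧ 2 * 10 ^ 7 * (2 * (r ^ (20 + 3) * A3 L r r0 (t ^ 29) (t ^ 35) 20) +
      A2 L r r0 (r ^ c / L) (t ^ 35) 20 ^ 2) ≤ t / L := by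
  have r2 : 1 ≤ r := le_trans (by norm_num) r1
  have t1 : t ≤ 1 := (le_mul_of_one_le_left t0.le (one_le_pow₀ r2)).trans h4
  have eL : L = (t ^ 20)⁻¹ := (inv_eq_of_mul_eq_one_right hL).symm
  have tp : ∀ {i j : ℕ}, i ≤ j → t ^ j ≤ t ^ i := fun h => pow_le_pow_of_le_one t0.le t1 h
  have q4 : r0 ^ 4 * t ^ 6 ≤ 16 := by nlinarith
  have q5 : (2 * r0 + 1) ^ 2 ≤ 9 * r0 ^ 2 := by nlinarith
  have q6 : r0 * (L ^ 2 * (t ^ 35 * (r / r0) ^ 20)) ≤ t ^ 22 * r ^ 20 := by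
    have a1 : 1 ≤ (r0 ^ 2 * t ^ 3) ^ 9 * r0 := one_le_mul_of_one_le_of_one_le (one_le_pow₀ h2) h1
    calc _ ≤ r0 * (L ^ 2 * (t ^ 35 * (r / r0) ^ 20)) * ((r0 ^ 2 * t ^ 3) ^ 9 * r0) :=
          le_mul_of_one_le_right (by positivity) a1
      _ = _ := by rw [eL]; field_simp
  have q7 : L ^ 2 * (t ^ 35 * (r / r0) ^ 20) ≤ t ^ 22 * r ^ 20 :=
    (le_mul_of_one_le_left (by positivity) h1).trans q6
  have q8 : r ^ c / L * r ^ 20 ≤ t ^ 19 := by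
    calc _ = r ^ (c + 20) * t * t ^ 19 := by rw [eL]; field_simp; ring
      _ ≤ _ := mul_le_of_le_one_left (by positivity) h5
  have q9 : r ^ 20 * t ≤ 1 :=
    (mul_le_mul_of_nonneg_right (pow_le_pow_right₀ r2 (by norm_num)) t0.le).trans h4
  have b3 : A3 L r r0 (t ^ 29) (t ^ 35) 20 ≤ 20754 * (t ^ 22 * r ^ 20) := by
    have : 144 * r0 ^ 2 * (2 * r0 + 1) ^ 2 * t ^ 29 * r ^ 20 ≤ 20736 * (t ^ 22 * r ^ 20) :=
      calc _ ≤ 144 * r0 ^ 2 * (9 * r0 ^ 2) * t ^ 29 * r ^ 20 := by gcongr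
        _ = 1296 * (r0 ^ 4 * t ^ 6) * (t ^ 23 * r ^ 20) := by ring
        _ ≤ 1296 * 16 * (t ^ 22 * r ^ 20) := by
          have := tp (show 22 ≤ 23 by norm_num)
          gcongr
        _ = _ := by ring
    rw [A3, mul_assoc 18]
    linarith
  have b2 : A2 L r r0 (r ^ c / L) (t ^ 35) 20 ≤ 5186 * t ^ 13 := by
    have a1 : 36 * r0 * (2 * r0 + 1) ^ 2 * (r ^ c / L) * r ^ 20 ≤ 5184 * t ^ 13 :=
      calc _ = 36 * r0 * (2 * r0 + 1) ^ 2 * (r ^ c / L * r ^ 20) := by ring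
        _ ≤ 36 * r0 ^ 2 * (9 * r0 ^ 2) * t ^ 19 := by
          gcongr
          · rw [eL]; positivity
          · nlinarith
        _ = 324 * (r0 ^ 4 * t ^ 6) * t ^ 13 := by ring
        _ ≤ 324 * 16 * t ^ 13 := by gcongr
        _ = _ := by ring
    have a2 : t ^ 22 * r ^ 20 ≤ t ^ 13 :=
      calc _ = r ^ 20 * t * t ^ 21 := by ring
        _ ≤ 1 * t ^ 13 := mul_le_mul q9 (tp (by norm_num)) (by positivity) zero_le_one
        _ = _ := one_mul _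
    rw [A2]
    linarith
  have b0 : 0 ≤ A2 L r r0 (r ^ c / L) (t ^ 35) 20 := by rw [A2, eL]; positivity
  refine ⟨q8.trans (pow_le_one₀ t0.le t1), ?_⟩
  have c1 : t ^ 26 ≤ r ^ 43 * t ^ 22 :=
    (tp (by norm_num)).trans (le_mul_of_one_le_left (by positivity) (one_le_pow₀ r2))
  calc _ ≤ 2 * 10 ^ 7 * (2 * (r ^ (20 + 3) * (20754 * (t ^ 22 * r ^ 20))) + (5186 * t ^ 13) ^ 2) := by
        gcongr
    _ = 2 * 10 ^ 7 * (41508 * (r ^ 43 * t ^ 22) + 26894596 * t ^ 26) := by ring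
    _ ≤ 10 ^ 15 * (r ^ 43 * t ^ 22) := by nlinarith [pow_pos t0 26]
    _ ≤ r * (r ^ 43 * t ^ 22) := by gcongr
    _ = r ^ 44 * t * t ^ 21 := by ring
    _ ≤ 1 * t ^ 21 := by gcongr
    _ = _ := by rw [eL]; field_simp

end V3

open V3

/-- `k0` on all sites of the block -/
theorem fr_push {S : Sd} (h : S.Nu 100) (v : S.Pv) {k0 : CF} {xb xk x y : ℝ}
    (h1 : Fm S.p.R 20 xb xk k0) (h2 : Fs2 S.p.R 20 y fun a b => k0 a b)
    (h3 : ‖qv fun a b => k0 a b‖ ≤ x) :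
    (∃ xb' xk', Fm S.p'.R 20 xb' xk' (pkL S.l S.s fun _ => k0)) ∧
    Fs2 S.p'.R 20 (S.L * x + S.cs / S.L * y) (fun a b => pkL S.l S.s (fun _ => k0) a b) ∧
      ‖qv (fun a b => pkL S.l S.s (fun _ => k0) a b) - AL S.L (qv fun a b => k0 a b)‖ ≤
        S.Q * S.g * (x + y) := by
  have hk := h1.gf
  have x0 := (norm_nonneg _).trans h3
  have y0 : 0 ≤ y := by
    have z := cw_of_cv (Ho.cv_zero (W := ℝ) S.p.R zero_le_one) 20
    exact (norm_nonneg _).trans ((h2 0 0 1 1 z z).trans_eq (by ring))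
  have t0 := Sd.Nu.cs0 (S := S)
  have L0 := Sd.L0 S.toTd
  have L1 := Sd.L1 S.toTd
  have ex := h.exps
  have ln := h.lens
  have r1 := h.r1'
  have g0 := h.ok.g0
  have t1 : S.cs ≤ 1 := by simpa using h.cs_le (k := 0) (by omega)
  have gc : 0 ≤ (S.r : ℝ) ^ S.c / LL S.l := by positivity
  have F := fm_push (r0 := 1) (k := fun _ => k0) (fun _ _ => h1) v.pu.tk.ok.lin v.pu.grad gc v.pt
    (by positivity) h.r_3.1 le_rfl (show 1 ≤ S.l by omega) v.pu.rad v.pu.cse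
  have hP : Gf (pkL S.l S.s fun _ => k0) := F.gf
  have D0 := Sd.D1 S.toTd
  have R1 : 1 ≤ S.p.R := by rw [Sd.p_R]; omega
  have R2 : 1 ≤ S.p'.R := by rw [Sd.p'_R]; omega
  refine ⟨⟨_, _, F⟩, fun a b δ δ' ha hb => ?_, ?_⟩
  · obtain ⟨r0, p1, p2, p3⟩ := exists_r0 t0 t1
    have p4 : (1 : ℝ) ≤ r0 := by exact_mod_cast p1
    have p5 : r0 ≤ S.l := by
      have a1 : (10 : ℝ) * S.cs ≤ 1 := (mul_le_mul_of_nonneg_right (h.cr' (by norm_num))
        t0.le).trans (by simpa using h.cs_le (k := 1) (by omega))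
      have a2 : S.cs ^ 17 ≤ S.cs := pow_le_of_le_one t0.le t1 (by norm_num)
      have a3 : (r0 : ℝ) ^ 2 ≤ 4 * S.cs * S.L :=
        calc _ = (r0 : ℝ) ^ 2 * S.cs ^ 3 * S.cs ^ 17 * S.L := by
              linear_combination (-(r0 : ℝ) ^ 2) * Sd.Nu.cs_pow (S := S)
          _ ≤ _ := by gcongr
      have a4 : 2 * (r0 : ℝ) ≤ S.L := by nlinarith
      have a5 : 2 * r0 ≤ LL S.l := by unfold Td.L at a4; exact_mod_cast a4
      unfold LL at a5
      omega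
    obtain ⟨n1, n2⟩ := num (c := S.c) (h.cr' (by norm_num)) t0 (Sd.Nu.cs_pow (S := S)) p4 p2 p3
      (h.cs_le (by omega)) (h.cs_le (by omega))
    obtain ⟨E, hE⟩ : ∃ E, E = x * (64 * ((S.r : ℝ) ^ (20 + 3)) ^ 2 + 2000 * (S.r ^ (20 + 3) *
      ((S.r : ℝ) ^ S.c / LL S.l * S.r ^ 20))) + y * (2 * (S.r ^ (20 + 3) *
        A3 (LL S.l) S.r r0 (S.cs ^ 29) (S.cs ^ 35) 20) +
          A2 (LL S.l) S.r r0 ((S.r : ℝ) ^ S.c / LL S.l) (S.cs ^ 35) 20 ^ 2) := ⟨_, rfl⟩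
    have all : ∀ {a b δ δ'}, Cw S.p'.R 20 δ a → Cw S.p'.R 20 δ' b →
        ‖pkL S.l S.s (fun _ => k0) a b‖ ≤ E * δ * δ' := fun ha hb => hE ▸
      pk_all hk h2 h3 y0 v.pu.tk.ok.lin v.pu.grad gc v.hess (by positivity) v.pt (by positivity)
        (by norm_num) h.r_3.1 p1 p5 v.pu.rad ha hb
    have E0 : 0 ≤ E := by rw [hE, A2, A3]; positivity
    have E1 : 2 * 10 ^ 7 * E ≤ S.L * x + S.cs / S.L * y := by
      have a1 : 2 * 10 ^ 7 * (64 * ((S.r : ℝ) ^ (20 + 3)) ^ 2 + 2000 * (S.r ^ (20 + 3) *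
          ((S.r : ℝ) ^ S.c / S.L * S.r ^ 20))) ≤ S.L := by
        have b1 : (S.r : ℝ) ^ (20 + 3) * ((S.r : ℝ) ^ S.c / S.L * S.r ^ 20) ≤ S.r ^ 46 :=
          (mul_le_of_le_one_right (by positivity) n1).trans (pow_le_pow_right₀ r1 (by norm_num))
        have b2 := h.crL (C := 2 * 10 ^ 7 * 2064) (k := 46) (by norm_num) (by omega)
        rw [← pow_mul]
        linarith
      have a2 := mul_le_mul_of_nonneg_left a1 x0
      have a3 := mul_le_mul_of_nonneg_left n2 y0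
      rw [hE]
      unfold Td.L at *
      linarith
    have ca := Cw.cc ha.zero S.p'.R 20
    have cb := Cw.cc hb.zero S.p'.R 20
    refine (norm_sub_le _ _).trans ((add_le_add ((norm_sub_le _ _).trans (add_le_add
      ((norm_sub_le _ _).trans (add_le_add (all ha hb) (all ca cb)))
      (all ca (cw_lnn (by norm_num) R2 hb)))) (all (cw_lnn (by norm_num) R2 ha) cb)).trans ?_)
    have d0 := mul_nonneg ha.nonneg hb.nonneg
    nlinarith [mul_le_mul_of_nonneg_right E1 d0, mul_nonneg E0 d0]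
  · have hc := cc_of hk h2 h3 y0 R1
    have c1 : ∀ p, Cv 0 1 (pc1 p) := fun p => ((cw_pc (R := 0) (s := 1) le_rfl).1 p).zero
    have n0 : 0 ≤ S.g * (x + y) := by positivity
    have n1 : 0 ≤ S.Q * S.g * (x + y) := by have := S.Q0; positivity
    refine norm_prod_le_iff.2 ⟨(pi_norm_le_iff_of_nonneg n1).2 fun p =>
      (pi_norm_le_iff_of_nonneg n1).2 fun p' => ?_, (pi_norm_le_iff_of_nonneg n1).2 fun p =>
      (pi_norm_le_iff_of_nonneg n1).2 fun j => ?_⟩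
    · have e := pk_cst (k := fun _ => k0) v.pu.cse (fun _ _ => hc) (c1 p) (c1 p')
      rw [sum_const, ← Nat.cast_smul_eq_nsmul ℝ, card_box_LL, smul_smul,
        inv_mul_cancel₀ (pow_pos (LL_posR _) 4).ne', one_smul, ← pc1_cc hP, ← pc1_cc hk,
        hP.1, hk.1, ← pc1_cc hP, ← pc1_cc hk, hP.1, hk.1] at e
      refine le_trans e ?_
      have q := h.mon (C := 12192) (i := 4) (j := 0) (by norm_num) (by omega) (by omega)
      have q2 : (0 : ℝ) ≤ S.L ^ 4 * (S.g * (x + y)) := by positivity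
      unfold Td.L at q q2
      nlinarith [mul_le_mul_of_nonneg_right q n0, mul_le_mul_of_nonneg_right h.ok.g1 q2]
    · have e := pk_lin hk hc v.pu.cse v.lse g0.le h.ok.g1 (c1 p) (G := Pi.single j 3) (δ' := 3)
        fun u => by
          rw [Pi.single_apply]
          split_ifs <;> norm_num
      rw [← pc2_rp2, ← pc1_cc hP, ← pc1_cc hk] at e
      have e2 : (((LL S.l : ℝ))⁻¹ • k0 (pc1 p) (pc2 j) : ℂ) =
          ((S.L : ℝ) : ℂ)⁻¹ * k0 (pc1 p) (pc2 j) := by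
        rw [Complex.real_smul, Complex.ofReal_inv]
        rfl
      rw [e2] at e
      refine le_trans e ?_
      have q := h.mon (C := 487680) (i := 5) (j := 1) (by norm_num) (by omega) (by omega)
      have D1 : (1 : ℝ) ≤ S.D0 := by exact_mod_cast Sd.D1 S.toTd
      have q1 : (S.p.R + S.l + 1 : ℝ) ≤ 5 * (S.L * S.D0) := by
        have a1 := h.MD_le'
        have a2 : (S.l + 1 : ℝ) ≤ S.L := by
          unfold Td.L LL
          push_cast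
          linarith [(Nat.cast_nonneg S.l : (0 : ℝ) ≤ _)]
        rw [Sd.p_R]
        push_cast
        nlinarith
      have q2 : (0 : ℝ) ≤ S.L ^ 4 * (S.g * (x + y)) := by positivity
      have q3 := mul_le_mul_of_nonneg_right q1 q2
      have q4 := mul_le_mul_of_nonneg_right q n0
      unfold Td.L at q3 q4
      nlinarith

end Pool.Agent.Lib.MP_7f377f_mp.RG.Q4
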