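import Pool.Agent.Lib.MP_7f377f_mp.G.StV3

/-! One step in the refined class of directions. -/

noncomputable section

open Pool.Agent.Lib.MP_7f377f_mp.Jet

set_option linter.unusedSectionVars false
variable [Pool.Agent.Lib.MP_7f377f_mp.GD]

namespace Pool.Agent.Lib.MP_7f377f_mp.RG.Q4

open Finset Real La La.Q
open scoped Classical

namespace V4

variable {R s : ℕ} {xb xk x : ℝ} {k : CF}

theorem tc0 {n : ℕ} {ψ : Lx} {K : Ac} (h : TCov n ψ K) (v : St) : ψ v = ψ 0 := by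
  rw [← congrFun (h 0).1 v, ← congrFun (h v).1 0, trL, trL, add_zero, zero_add]

theorem cc_lnn (a : V) : cc (lnn a) = 0 := V3.cc_zero fun μ ν => by simp [dd_lnn]

theorem cw_up {s' : ℕ} {δ : ℝ} {a : V} (h : Cw R s δ a) (e : s ≤ s') : Cw R s' δ a := fun j hj =>
  (h j hj).mono le_rfl (mul_le_mul_of_nonneg_left (pow_le_pow_right₀
    (by linarith [(j.cast_nonneg : (0 : ℝ) ≤ j)]) e) h.nonneg)

theorem cw_dn {i : ℕ} {δ : ℝ} {a : V} (h : Cw R (s + i) δ a) : Cw R s (δ * (R + 1 : ℝ) ^ i) a :=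
  fun j hj => (h j hj).mono le_rfl (by
    have := h.nonneg
    have : (j : ℝ) ≤ R := by exact_mod_cast hj
    rw [pow_add, mul_comm ((j + 1 : ℝ) ^ s), mul_assoc]
    gcongr)

theorem fs_nn {k : V → V → ℂ} (h : Fs2 R s x k) : 0 ≤ x :=
  have c : Cw R s 1 (0 : V) := cw_of_cv (Ho.cv_zero _ zero_le_one) s
  (norm_nonneg _).trans ((h 0 0 1 1 c c).trans_eq (by ring))

theorem fs_mono {k : V → V → ℂ} {x' : ℝ} (h : Fs2 R s x k) (e : x ≤ x') : Fs2 R s x' k :=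
  fun a b δ δ' ha hb => (h a b δ δ' ha hb).trans (by
    have := ha.nonneg
    have := hb.nonneg
    gcongr)

theorem fs_add {k k' k'' : V → V → ℂ} {x' : ℝ} (h : Fs2 R s x k) (h' : Fs2 R s x' k') (t : ℂ)
    (e : ∀ a b, k'' a b = k a b + t * k' a b) : Fs2 R s (x + ‖t‖ * x') k'' := fun a b δ δ' ha hb => by
  have h1 := mul_le_mul_of_nonneg_left (h' a b δ δ' ha hb) (norm_nonneg t)
  rw [← norm_mul] at h1
  refine le_of_eq_of_le (congrArg _ ?_) ((norm_add_le_of_le (h a b δ δ' ha hb) h1).trans_eq (by ring))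
  simp only [e]
  ring

/-- the second order part of a form of the old class -/
theorem fm_fs (h : Fm R s xb xk k) (hs : 1 ≤ s) (hR : 1 ≤ R) :
    Fs2 R s ((1 + 16 * 2 ^ s) * xk) fun a b => k a b := fun a b δ δ' ha hb => by
  have h1 := h.ck _ _ _ _ ha hb
  have h2 := h.ck _ _ _ _ (Cw.cc ha.zero R s) (cw_lnn hs hR hb)
  have h3 := h.ck _ _ _ _ (cw_lnn hs hR ha) (Cw.cc hb.zero R s)
  simp only [cc_lnn, map_zero, LinearMap.zero_apply, sub_zero] at h2 h3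
  exact (norm_sub_le_of_le (norm_sub_le_of_le h1 h2) h3).trans_eq (by ring)

theorem fm_qv (h : Fm R s xb xk k) (hs : 1 ≤ s) :
    ‖qv fun a b => k a b‖ ≤ 10 * (xb + xk) ∧ ‖q0 fun a b => k a b‖ ≤ xb := by
  have b0 := h.xb0
  have k0 := h.xk0
  obtain ⟨c1, c2⟩ := cw_pc (R := R) hs
  have h0 : ‖q0 fun a b => k a b‖ ≤ xb := (pi_norm_le_iff_of_nonneg b0).2 fun p =>
    (pi_norm_le_iff_of_nonneg b0).2 fun p' => by
      have := h.cb _ _ _ _ (c1 p).zero (c1 p').zero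
      rw [← V3.pc1_cc h.gf, h.symm, ← V3.pc1_cc h.gf, h.symm] at this
      simpa [q0] using this
  refine ⟨norm_prod_le_iff.2 ⟨h0.trans (by linarith), (pi_norm_le_iff_of_nonneg (by positivity)).2
    fun p => (pi_norm_le_iff_of_nonneg (by positivity)).2 fun t => ?_⟩, h0⟩
  have h1 := norm_add_le_of_le (h.ck _ _ _ _ (c1 p) (c2 t)) (h.cb _ _ _ _ (c1 p).zero (c2 t).zero)
  rw [sub_add_cancel] at h1
  exact h1.trans_eq (by ring)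

theorem q0_cb (h : ‖q0 fun a b => k a b‖ ≤ x) {a b : V} {δ δ' : ℝ} (ha : Cv 0 δ a) (hb : Cv 0 δ' b) :
    ‖k (cc a) (cc b)‖ ≤ 64 * x * δ * δ' := by
  rw [cc_pc1 a, cc_pc1 b]
  refine (V2.bil_le k _ _ (fun p p' => (norm_le_pi_norm ((q0 fun a b => k a b) p) p').trans
    ((norm_le_pi_norm _ p).trans h)) (fun p => ha 0 (RG.zero_mem_box 0) p.1 p.2)
    (fun p => hb 0 (RG.zero_mem_box 0) p.1 p.2)).trans_eq ?_
  simp; ring

theorem qv_add {k k' k'' : V → V → ℂ} (t : ℂ) (e : ∀ a b, k'' a b = k a b + t * k' a b) :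
    qv k'' = qv k + t • qv k' := by
  ext <;> simp [qv, q0, e]

/-- the push is the linear push of the form up to a small term -/
theorem push2 {Z : Type} [MeasurableSpace Z] {ν : MeasureTheory.Measure Z}
    [MeasureTheory.IsProbabilityMeasure ν] {l r R' s' : ℕ} {σ : V →ₗ[ℝ] V}
    {δ e ε lam ρ ρ' xr yb yk E1 E2 : ℝ} {G : St → Z → Fld → Fld} {φ : Fld → ℂ}
    (F : Fam ν l R R' σ δ e ε G) (hψ : Ps R s ρ xb xk xr φ) (k2 : ∀ a b, q2 φ a b = k a b)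
    (hP : Fm R' s' yb yk (pkL l σ fun _ => k)) (hp : PtC l r lam σ) (lam0 : 0 ≤ lam)
    (hR : r / 3 + (R / LL l + 1) ≤ R') (e0 : 0 ≤ e) (ε0 : 0 ≤ ε) (ρ0 : 0 < ρ')
    (hδ : 20020 * ρ' ≤ δ) (hρ : dOne lam e ε ρ' < ρ) (h2 : eOne l lam e ε δ * (xb + xk) ≤ E1)
    (h3 : (LL l : ℝ) ^ 4 * (dOne lam e ε ρ' / ρ) ^ 3 * xr ≤ E2) :
    ∃ χ, Ps R' s' ρ' (E1 + E2 / ρ' ^ 2) (2 * (R' + 1 : ℝ) ^ (2 * s') * (E1 + E2 / ρ' ^ 2))
      (2 * 10 ^ 7 * E1 * ρ' ^ 3 / δ + 125 * E2) χ ∧ ∀ B, RealF B → Cv R' ρ' B →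
        push ν l G (fun _ => φ) B - push ν l G (fun _ => φ) 0 =
          qf (pkL l σ fun _ => k) B + χ B := by
  obtain ⟨k', k1, k2', k3⟩ := hψ.elim
  obtain rfl : k' = k := LinearMap.ext₂ fun a b => (k2' a b).symm.trans (k2 a b)
  have δ0 : 0 < δ := by linarith
  have p1 : 0 ≤ lam * ρ' := by positivity
  have p2 : 0 ≤ e * ρ' := by positivity
  have sm : 2 * lam * ρ' + (e * ρ' + ε) < ρ := by rw [dOne] at hρ; linarith
  have p0 : 0 < ρ := by linarith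
  have X0 := k1.cc.nonneg
  have r0' := k3.nonneg p0
  have D0 : 0 ≤ dOne lam e ε ρ' := by rw [dOne]; positivity
  have E20 : 0 ≤ E2 := le_trans (by positivity) h3
  have hrem : ∀ x ∈ box l, Ps R s ρ 0 0 xr fun B => φ B - qf k' B := fun _ _ =>
    Ps.intro p0 (hψ.toLA.map₂ (k1.cc.la ρ) (· - ·)) (fm_zero R s) (by simpa [qf] using k3)
  have a1 := (hP.ps ρ0).1
  have la1 : LA R' ρ' (corr ν l σ G fun _ => k') :=
    ((F.la hp hR (fun _ _ => k1.cc.la ρ) (by linarith) sm.le).map₂ a1.toLA (· - ·)).congr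
      fun B hB c => F.corr_eq hp hR (fun _ _ => k1) hB (c.mono le_rfl (by linarith))
  obtain ⟨M, hM⟩ : ∃ M, M = (LL l : ℝ) ^ 4 * (24 * cG * (xb + xk) * (e * δ + ε) *
    (4 * lam * δ + (e * δ + ε))) := ⟨_, rfl⟩
  have cG0 := GD.cG_pos
  have M0 : 0 ≤ M := by rw [hM]; positivity
  have M1 : 8 * 10 ^ 11 * (M / δ ^ 2) ≤ E1 := by
    refine le_trans ?_ h2
    have : M / δ ^ 2 =
        24 * (cG * (LL l : ℝ) ^ 4 * (e + ε / δ) * (4 * lam + (e + ε / δ)) * (xb + xk)) := by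
      rw [hM]; field_simp
    have p : 0 ≤ cG * (LL l : ℝ) ^ 4 * (e + ε / δ) * (4 * lam + (e + ε / δ)) * (xb + xk) := by
      positivity
    rw [this, eOne]
    linarith
  have b1 := ((hM ▸ F.corr_jc hp hR (fun _ _ => k1.cc) δ0).ps' la1 M0 (by positivity) (by linarith)
    ρ0 (by linarith) s').mono' ρ0 (xb' := E1) (xk' := 2 * (R' + 1 : ℝ) ^ (2 * s') * E1)
      (xr' := 2 * 10 ^ 7 * E1 * ρ' ^ 3 / δ) (le_of_eq_of_le (by field_simp; ring) M1)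
      (calc _ = 2 * (R' + 1 : ℝ) ^ (2 * s') * (8 * 10 ^ 11 * (M / δ ^ 2)) := by field_simp; ring
        _ ≤ _ := by gcongr)
      (calc _ = 2 * 10 ^ 7 * (8 * 10 ^ 11 * (M / δ ^ 2)) * ρ' ^ 3 / δ := by field_simp; ring
        _ ≤ _ := by gcongr)
  have M2 : (LL l : ℝ) ^ 4 * (192 * cG * (0 + 0) * dOne lam e ε ρ' ^ 2 +
      xr * (dOne lam e ε ρ' / ρ) ^ 3) ≤ E2 := le_of_eq_of_le (by ring) h3
  have M3 : 100 * ((LL l : ℝ) ^ 4 * (192 * cG * (0 + 0) * dOne lam e ε ρ' ^ 2 +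
      xr * (dOne lam e ε ρ' / ρ) ^ 3)) / (20 * ρ') ^ 2 ≤ E2 / ρ' ^ 2 :=
    calc _ ≤ 400 * E2 / (20 * ρ') ^ 2 := by gcongr; norm_num
      _ = _ := by field_simp; ring
  have c1 := ((F.jc hp hR hrem (d := 20 * ρ') (by positivity) (by linarith)
    (by rw [dOne]; linarith) hρ).ps (F.la hp hR (fun x hx => (hrem x hx).toLA) (by linarith) sm.le)
    (by positivity) le_rfl ρ0 le_rfl s').mono' ρ0 M3 (mul_le_mul_of_nonneg_left M3 (by positivity))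
      (xr' := 125 * E2) (calc _ ≤ 10 ^ 6 * E2 * (ρ' / (20 * ρ')) ^ 3 := by gcongr
        _ = _ := by field_simp; ring)
  have key : ∀ B, RealF B → Cv R' ρ' B → push ν l G (fun _ => φ) B = qf (pkL l σ fun _ => k') B +
      corr ν l σ G (fun _ => k') B + push ν l G (fun _ B => φ B - qf k' B) B := fun B hB c => by
    rw [F.corr_eq hp hR (fun _ _ => k1) hB (c.mono le_rfl (by linarith)), add_sub_cancel, push, push,
      push, ← MeasureTheory.integral_add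
        (F.integrable hp hR (fun _ _ => (k1.ps p0).1) hB c (by linarith) sm)
        (F.integrable hp hR hrem hB c (by linarith) sm)]
    simp
  refine ⟨_, (b1.add c1 ρ0).1.mono' ρ0 le_rfl (le_of_eq (by ring)) le_rfl, fun B hB c => ?_⟩
  rw [key B hB c, key 0 realF_zero (Ho.cv_zero _ ρ0.le), a1.zero ρ0.le]
  ring

variable {S : Sd} {lam : ℝ}

theorem dOne2 (h : S.Pu) (l0 : 0 < lam) (l1 : 1 ≤ S.L ^ 2 * lam) :
    dOne lam (S.Q * S.u) (S.Q ^ 2 * S.g) (3 * S.p'.ρ) ≤ 2000 * lam * S.p'.ρ := by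
  have ρ0 := h.ρ0
  have u0 := h.nu.ok.u0
  have Q0 := S.Q0
  have g0 := h.nu.ok.g0
  have h1 : 10 ^ 8 * S.L ^ 2 ≤ S.Q := by
    simpa using h.nu.mon (C := 10 ^ 8) (i := 2) (j := 0) (by norm_num) (by have := h.nu.exps; omega)
      (by omega)
  have h2 : 10 ^ 8 ≤ S.Q * lam := by nlinarith
  have h3 : 10 ^ 8 * (S.Q * S.u) ≤ lam :=
    calc _ ≤ S.Q * lam * (S.Q * S.u) := by gcongr
      _ = S.Q ^ 2 * S.u * lam := by ring
      _ ≤ _ := mul_le_of_le_one_left l0.le (h.nu.ok.Qu (by omega))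
  have h4 : 10 ^ 8 * (S.Q ^ 2 * S.g) ≤ lam * S.p'.ρ :=
    calc _ ≤ S.Q * lam * (S.Q ^ 2 * S.g') := by gcongr; exact h.nu.ok.gg'
      _ = _ := by rw [Sd.p'_ρ]; ring
  unfold dOne
  nlinarith [mul_le_mul_of_nonneg_right h3 ρ0.le, mul_pos l0 ρ0]

theorem eOne2 (h : S.Pu) (l0 : 0 < lam) (l1 : 10 ^ 4 * lam ≤ 1) :
    eOne S.l lam (S.Q * S.u) (S.Q ^ 2 * S.g) S.u ≤ S.Q ^ 3 * S.u := by
  have u0 := h.nu.ok.u0
  have Q0 := S.Q0
  have h0 : S.Q * S.u ≤ S.Q ^ 2 * S.u :=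
    mul_le_mul_of_nonneg_right (le_self_pow₀ S.Q1 (by norm_num)) u0.le
  have h1 : S.Q ^ 2 * S.g / S.u = S.Q ^ 2 * S.u := by
    rw [← h.nu.ok.u_sq, sq S.u, ← mul_assoc, mul_div_cancel_right₀ _ u0.ne']
  have h2 := h.nu.ok.Qu (i := 2) (by omega)
  have h3 := h.nu.mong (C := 10 ^ 15) (k := 1) (i := 4) (j := 0) (by norm_num) (by omega)
    (by have := h.nu.exps; omega) (by omega)
  have := Sd.L0 S.toTd
  have := GD.cG_pos
  calc _ ≤ 2 * 10 ^ 13 * cG * S.L ^ 4 * (2 * (S.Q ^ 2 * S.u)) * 3 := by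
        rw [eOne, h1]
        exact mul_le_mul (mul_le_mul_of_nonneg_left (by linarith) (by positivity)) (by linarith)
          (by positivity) (by positivity)
    _ ≤ 10 ^ 15 * cG ^ 1 * S.L ^ 4 * (S.D0 : ℝ) ^ 0 * (S.Q ^ 2 * S.u) := by
        nlinarith [show 0 ≤ cG * S.L ^ 4 * (S.Q ^ 2 * S.u) by positivity]
    _ ≤ S.Q * (S.Q ^ 2 * S.u) := by gcongr
    _ = _ := by ring

theorem cs_small (h : S.Pu) {i : ℕ} (hi : 1 ≤ i) : 10 ^ 12 * S.cs ^ i ≤ 1 := by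
  have c0 := Sd.Nu.cs0 (S := S)
  have c1 : S.cs ≤ 1 := by simpa using h.nu.cs_le (k := 0) (by omega)
  refine le_trans ?_ (h.nu.cs_le (k := 1) (by omega))
  rw [pow_one]
  exact mul_le_mul (h.nu.cr' (by norm_num)) (pow_le_of_le_one c0.le c1 (by omega)) (by positivity)
    (Nat.cast_nonneg _)

theorem cs_big (h : S.Pu) {i : ℕ} (hi : i ≤ 40) : 1 ≤ S.L ^ 2 * S.cs ^ i := by
  have c0 := Sd.Nu.cs0 (S := S)
  have c1 : S.cs ≤ 1 := by simpa using h.nu.cs_le (k := 0) (by omega)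
  calc (1 : ℝ) = (S.cs ^ 20 * S.L) ^ 2 := by rw [Sd.Nu.cs_pow, one_pow]
    _ = S.L ^ 2 * S.cs ^ 40 := by ring
    _ ≤ _ := mul_le_mul_of_nonneg_left (pow_le_pow_of_le_one c0.le c1 hi) (sq_nonneg _)

theorem R40 (h : S.Pu) : 10 ^ 12 * (S.p'.R + 1 : ℝ) ^ 40 ≤ S.Q := by
  have D1 : (1 : ℝ) ≤ S.D0 := by exact_mod_cast Sd.D1 S.toTd
  refine le_trans ?_ (h.nu.mon (C := 10 ^ 12 * 5 ^ 40) (i := 0) (j := 40) (by norm_num) (by omega)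
    (by omega))
  rw [pow_zero, mul_one, mul_assoc, ← mul_pow, Sd.p'_R]
  push_cast
  gcongr
  linarith

/-- the mean of translation invariant small terms -/
theorem pz2 (w : S.Pv) {φ : Fld → ℂ} {xr yb yk : ℝ} (hψ : Ps S.p.R s S.p.ρ xb xk xr φ)
    (k2 : ∀ a b, q2 φ a b = k a b) (hP : Fm S.p'.R 20 yb yk (pkL S.l S.s fun _ => k)) :
    ∃ k1 : CF, Fm S.p'.R 20 (S.Q * (S.Q ^ 3 * S.u * (xb + xk) + xr / S.p.ρ ^ 2))
      (S.Q * (S.Q ^ 3 * S.u * (xb + xk) + xr / S.p.ρ ^ 2)) k1 ∧ (∃ zb zk, Ps S.p'.R 20 S.p'.ρ zb zk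
        (S.Q ^ 3 * S.u * (xb + xk) * S.p.ρ ^ 2 + 10 ^ 12 * S.cs ^ 25 * xr)
        fun B => S.pz (fun _ => φ) B - S.pz (fun _ => φ) 0) ∧ Measurable (S.pz fun _ => φ) ∧
      ∀ a b, q2 (fun B => S.pz (fun _ => φ) B - S.pz (fun _ => φ) 0) a b =
        pkL S.l S.s (fun _ => k) a b + k1 a b := by
  have h := w.pu
  have := Smo.nuI_prob (ζ := S.ζ) S.Q0
  have ρ0 := h.ρ0
  have ρ1 := h.ρ_le
  have ρ2 : 0 < S.p.ρ := by linarith
  have ρ3 : 0 < 3 * S.p'.ρ := by positivity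
  have u0 := h.nu.ok.u0
  have g0 := h.nu.ok.g0
  have Q0 := S.Q0
  have c0 := Sd.Nu.cs0 (S := S)
  have l0 := pow_pos c0 35
  have L0 := Sd.L0 S.toTd
  obtain ⟨b0, k0, x0⟩ := hψ.nonneg ρ2
  have Q9 := h.nu.cQ' (C := 10 ^ 9) (by norm_num)
  obtain ⟨E, hE⟩ : ∃ E, E = S.Q ^ 3 * S.u * (xb + xk) := ⟨_, rfl⟩
  have E0 : 0 ≤ E := by rw [hE]; positivity
  have d0 : 0 ≤ dOne (S.cs ^ 35) (S.Q * S.u) (S.Q ^ 2 * S.g) (3 * S.p'.ρ) := by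
    unfold dOne
    positivity
  have d1 := dOne2 h l0 (cs_big h (by norm_num))
  have s1 := cs_small h (i := 35) (by norm_num)
  have s2 := cs_small h (i := 25) (by norm_num)
  have e0 : (LL S.l : ℝ) ^ 4 * (dOne (S.cs ^ 35) (S.Q * S.u) (S.Q ^ 2 * S.g) (3 * S.p'.ρ) /
      S.p.ρ) ^ 3 * xr ≤ 10 ^ 10 * S.cs ^ 25 * xr * (S.p'.ρ / S.p.ρ) ^ 3 :=
    calc _ ≤ S.L ^ 4 * (2000 * S.cs ^ 35 * S.p'.ρ / S.p.ρ) ^ 3 * xr := by
          unfold Td.L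
          gcongr
      _ = 8 * 10 ^ 9 * (S.cs ^ 20 * S.L) ^ 4 * (S.cs ^ 25 * xr * (S.p'.ρ / S.p.ρ) ^ 3) := by ring
      _ ≤ 10 ^ 10 * (S.cs ^ 25 * xr * (S.p'.ρ / S.p.ρ) ^ 3) := by
          rw [Sd.Nu.cs_pow]
          gcongr
          norm_num
      _ = _ := by ring
  obtain ⟨χ, q1, q2'⟩ := push2 (E1 := E) h.fam hψ k2 hP w.pt l0.le h.rad (by positivity)
    (by positivity) ρ3 (by nlinarith [h.ρ_u]) (d1.trans_lt (by nlinarith))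
    (hE ▸ mul_le_mul_of_nonneg_right (eOne2 h l0 (by linarith)) (by positivity)) e0
  obtain ⟨a1, a2⟩ := hP.ps ρ3
  obtain ⟨f1, f2⟩ := a1.add q1 ρ3
  obtain ⟨g1, g2⟩ := f1.congr ρ3 q2'
  obtain ⟨m1, m2, m3⟩ := g1.ctr ρ0
  obtain ⟨k1, n1, n2, -⟩ := q1.elim
  have e1 : 10 ^ 10 * S.cs ^ 25 * xr * (S.p'.ρ / S.p.ρ) ^ 3 / (3 * S.p'.ρ) ^ 2 ≤ xr / S.p.ρ ^ 2 :=
    calc _ = xr / S.p.ρ ^ 2 * (10 ^ 10 * S.cs ^ 25 * S.p'.ρ / (9 * S.p.ρ)) := by field_simp; ring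
      _ ≤ _ := mul_le_of_le_one_right (by positivity) ((div_le_one (by positivity)).2 (by nlinarith))
  have e2 : 2 * (S.p'.R + 1 : ℝ) ^ 40 ≤ S.Q := by linarith [R40 h, wt_one S.p'.R 40]
  rw [← hE]
  refine ⟨k1, n1.mono le_rfl ((add_le_add le_rfl e1).trans (le_mul_of_one_le_left (by positivity)
    S.Q1)) (mul_le_mul e2 (add_le_add le_rfl e1)
      (by positivity) Q0.le), ⟨_, _, m1.mono' ρ0 le_rfl le_rfl ?_⟩, m2, fun a b =>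
        (m3 a b).trans ((g2 a b).trans ((f2 a b).trans (by rw [a2, n2])))⟩
  have e3 : (S.p'.ρ / S.p.ρ) ^ 3 ≤ (3 / 2) ^ 3 :=
    pow_le_pow_left₀ (by positivity) ((div_le_iff₀ ρ2).2 ρ1) 3
  have e4 : 2 * 10 ^ 7 * E * (3 * S.p'.ρ) ^ 3 / S.u ≤ 27 * (E * S.p.ρ ^ 2) := by
    rw [div_le_iff₀ u0]
    calc _ = 27 * (E * (S.p'.ρ ^ 2 * (2 * 10 ^ 7 * S.p'.ρ))) := by ring
      _ ≤ 27 * (E * ((3 / 2 * S.p.ρ) ^ 2 * (4 / 9 * S.u))) := by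
        have : 2 * 10 ^ 7 * S.p'.ρ ≤ 4 / 9 * S.u := by
          linarith [h.ρ_u, mul_le_mul_of_nonneg_right Q9 ρ0.le]
        gcongr
      _ = _ := by ring
  have e5 : 0 ≤ S.cs ^ 25 * xr := by positivity
  linarith [mul_le_mul_of_nonneg_left e3 e5]

theorem fs_ps (h : S.Pu) {X : Finset St} {K : Ac} {κ : ℝ} (hX : X ∈ S.X1s)
    (k : K1 S.nf X κ (K X ∅)) :
    Ps S.p'.R 20 S.p'.ρ (S.Q ^ 13 * S.β * (κ / (dn S.l S.n X).card))
      (S.Q ^ 13 * S.β * (κ / (dn S.l S.n X).card)) (S.Q ^ 28 * (κ / (dn S.l S.n X).card))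
      fun B => S.Fs K X B - S.Fs K X 0 := by
  have ρ0 := h.ρ0
  have g0 := h.nu.ok.g0
  have κ0 := (norm_nonneg _).trans (k.bd 1)
  have c0 := Sd.X1_card hX
  have Q0 := S.Q0
  have e : S.β = (S.g ^ 2)⁻¹ := eq_inv_of_mul_eq_one_left h.nu.ok.βg
  obtain ⟨m1, -⟩ := ((Sd.Fsr_tb h.nu h.tk.ok h.tk.gr h.P_le hX k).ps (ρ := 3 * S.p'.ρ)
    (by positivity) ((div_le_self g0.le (one_le_pow₀ S.Q1)).trans (by
      nlinarith [h.nu.ok.gg', le_mul_of_one_le_left h.nu.ok.g'0.le (one_le_pow₀ (n := 3) S.Q1),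
        S.p'_ρ])) (by positivity) (by linarith) 20).ctr ρ0
  obtain ⟨k1, n1, n2, -⟩ := ((m1.smul ρ0 ((dn S.l S.n X).card : ℂ)⁻¹).1.congr ρ0
    (ψ := fun B => S.Fs K X B - S.Fs K X 0) fun B _ _ => by rw [Sd.Fs, Sd.Fs]; ring).1.elim
  obtain ⟨k2, n3, n4, n5⟩ := (h.Fs_ps hX k).1.elim
  obtain rfl : k1 = k2 := LinearMap.ext₂ fun a b => (n2 a b).symm.trans (n4 a b)
  refine Ps.intro ρ0 (h.Fs_ps hX k).1.toLA ⟨n3.symm, n3.cb, (n1.mono le_rfl le_rfl ?_).ck⟩ n5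
  rw [norm_inv, Complex.norm_natCast]
  calc _ = 8 * 10 ^ 11 * (S.p'.R + 1) ^ 40 * (S.Q ^ 12 * S.β * (κ / (dn S.l S.n X).card)) := by
        rw [e]; field_simp; ring
    _ ≤ S.Q * (S.Q ^ 12 * S.β * (κ / (dn S.l S.n X).card)) :=
        mul_le_mul_of_nonneg_right (by linarith [R40 h, wt_one S.p'.R 40]) (by rw [e]; positivity)
    _ = _ := by ring

theorem fs_sum (h : S.Pu) {K : Ac} {k : Mj} {θ : ℝ} (hK : KM S.p S.nf k K) (hk : kN S.p S.nf k θ)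
    (y : St) : Ps S.p'.R 20 S.p'.ρ (S.Q ^ 12 * θ / S.g ^ 2) (S.Q ^ 12 * θ / S.g ^ 2) (S.Q ^ 27 * θ)
      fun B => ∑ X ∈ S.X1s, (S.Fs (S.Ky K y) X B - S.Fs (S.Ky K y) X 0) := by
  have Q0 := S.Q0
  have β0 := h.nu.ok.β0
  have e : S.β = (S.g ^ 2)⁻¹ := eq_inv_of_mul_eq_one_left h.nu.ok.βg
  have h1 : ∑ X ∈ S.X1s, k (trS S.nf (up S.l y) X) ∅ / (dn S.l S.n X).card ≤ θ / S.Q :=
    (sum_le_sum fun X hX => div_le_self (hk.1 _ _) (Sd.X1_card hX)).trans (Sd.sum_X1 h.nu hk _)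
  have h2 : ∑ X ∈ S.X1s, S.Q ^ 13 * S.β * (k (trS S.nf (up S.l y) X) ∅ / (dn S.l S.n X).card) ≤
      S.Q ^ 12 * θ / S.g ^ 2 := (mul_sum _ _ _).ge.trans
    ((mul_le_mul_of_nonneg_left h1 (by positivity)).trans_eq (by rw [e]; field_simp))
  exact (Ps.sum S.X1s h.ρ0 fun X hX => fs_ps h hX (Sd.k1y h.nu.ok hK y hX)).1.mono' h.ρ0 h2 h2
    ((mul_sum _ _ _).ge.trans ((mul_le_mul_of_nonneg_left h1 (by positivity)).trans_eq
      (by field_simp)))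

/-- the radii of the two levels -/
theorem radii (h : S.Nu 100) : 1000 * S.L ^ 2 * (S.p.R + 1 : ℝ) ^ 30 ≤ S.Q ∧
    S.QM ^ 2 * (S.p.R + 1 : ℝ) ^ 30 ≤ S.r * (S.Q ^ 2 * (S.p'.R + 1 : ℝ) ^ 30) := by
  have ex := h.exps
  have D1 : (1 : ℝ) ≤ S.D0 := by exact_mod_cast Sd.D1 S.toTd
  have L0 := Sd.L0 S.toTd
  have r1 := h.r1'
  constructor
  · have h1 : (S.p.R + 1 : ℝ) ≤ S.L * S.D0 := by
      have := h.crL (C := 5) (k := 1) (by norm_num) (by omega)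
      rw [pow_one] at this
      nlinarith [h.R_le]
    refine le_trans ?_ (h.mon (C := 1000) (i := 32) (j := 30) (by norm_num) (by omega) (by omega))
    calc _ ≤ 1000 * S.L ^ 2 * (S.L * S.D0) ^ 30 := by gcongr
      _ = _ := by ring
  · have h1 : (S.p.R + 1 : ℝ) ≤ 3 ^ S.K0 * (S.p'.R + 1) := by
      have := h.ok.ML_pow S.K0
      have : (1 : ℝ) ≤ 3 ^ S.K0 := one_le_pow₀ (by norm_num)
      rw [Sd.p_R, Sd.p'_R]
      push_cast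
      rw [Sd.D0_eq]
      linarith
    have h2 : S.QM ≤ 3 ^ S.K * S.Q := h.ok.ML_pow S.K
    have h3 := h.three (k := S.K * 2 + S.K0 * 30) (by omega)
    have M0 := zero_le_one.trans h.ok.QM1
    calc _ ≤ (3 ^ S.K * S.Q) ^ 2 * (3 ^ S.K0 * (S.p'.R + 1 : ℝ)) ^ 30 := by gcongr
      _ = 3 ^ (S.K * 2 + S.K0 * 30) * (S.Q ^ 2 * (S.p'.R + 1 : ℝ) ^ 30) := by ring
      _ ≤ _ := by gcongr

end V4

namespace En

open Pos Sg V4

variable {p : Pa} {n e ρ d : ℕ} {Q g ω ω' x y A N a a0 a1 a2 : ℝ} {ψ φ : Lx} {K J : Ac} {S : Sd}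
  {Φ : (St → ℂ) → Lx × Ac} {F : St → ℂ} {F' : Fin 4 → St → ℂ} {u v : Lx × Ac}

theorem Sv.add (h0 : 0 < p.ρ) {y' : ℝ} (h : Sv p n Q g y ω ψ K) (h' : Sv p n Q g y' ω φ J) (t : ℂ) :
    Sv p n Q g (y + ‖t‖ * y') ω (ψ + t • φ) (K + t • J) ∧
      qv (q2 ((ψ + t • φ) 0)) = qv (q2 (ψ 0)) + t • qv (q2 (φ 0)) := by
  have e : ∀ v, Pr p (Q ^ 2 * (p.R + 1) ^ 30 * (y + ‖t‖ * y')) (Q ^ 50 * ω * (y + ‖t‖ * y') * g ^ 2)
      ((ψ + t • φ) v) ∧ ∀ a b, q2 ((ψ + t • φ) v) a b = q2 (ψ v) a b + t * q2 (φ v) a b := fun v => by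
    obtain ⟨⟨_, _, a1⟩, a2, a3⟩ := h.1 v
    obtain ⟨⟨_, _, b1⟩, b2, b3⟩ := h'.1 v
    obtain ⟨c1, c2⟩ := b1.smul h0 t
    obtain ⟨d1, d2⟩ := a1.add c1 h0
    have e : ∀ a b, q2 ((ψ + t • φ) v) a b = q2 (ψ v) a b + t * q2 (φ v) a b := fun a b =>
      (d2 a b).trans (by rw [c2])
    exact ⟨⟨⟨_, _, d1.mono' h0 le_rfl le_rfl (le_of_eq (by ring))⟩,
      fs_mono (fs_add a2 b2 t e) (le_of_eq (by ring)), a3.add (b3.const_mul t)⟩, e⟩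
  obtain ⟨k, k1, k2⟩ := h.2.1
  obtain ⟨k', k3, k4⟩ := h'.2.1
  exact ⟨⟨fun v => (e v).1, ⟨_, k1.add (k3.smul t), (k2.add (k4.smul (norm_nonneg t))).mono
    (le_of_eq (by ring))⟩, fun w => ⟨congrArg₂ (· + t • ·) (h.2.2 w).1 (h'.2.2 w).1, fun o ho =>
      congrArg₂ (· + t • ·) ((h.2.2 w).2 o ho) ((h'.2.2 w).2 o ho)⟩⟩, qv_add t (e 0).2⟩

theorem Sv.gf (h : Sv p n Q g y ω ψ K) : ∃ k : CF, Gf k ∧ ∀ a b, q2 (ψ 0) a b = k a b :=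
  let ⟨⟨_, _, a⟩, _⟩ := h.1 0
  let ⟨k, k1, k2, _⟩ := a.elim
  ⟨k, k1.gf, k2⟩

theorem Sv.sz (h0 : 0 < p.ρ) (hR : 1 ≤ p.R) (hQ : 10 ^ 10 ≤ Q) (ω0 : 0 ≤ ω) (h : Sv p n Q g y ω ψ K)
    (hx : ‖qv (q2 (ψ 0))‖ ≤ x) :
    Sz p n Q g (64 * x) (x + (p.R + 1) ^ 30 * y) ω ψ K := by
  obtain ⟨⟨_, _, a1⟩, a2, a3⟩ := h.1 0
  obtain ⟨k, k1, k2, k3⟩ := a1.elim
  obtain ⟨m, m1, m2⟩ := h.2.1
  have Q0 : 0 < Q := lt_of_lt_of_le (by norm_num) hQ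
  have x0 := (norm_nonneg _).trans hx
  have R1 := wt_one p.R 30
  have y0 : 0 ≤ y := (mul_nonneg_iff_of_pos_left (by positivity)).1 (fs_nn a2)
  have y1 : y ≤ x + (p.R + 1) ^ 30 * y := by nlinarith
  rw [show q2 (ψ 0) = fun a b => k a b from funext₂ k2] at hx a2
  refine ⟨fun v => ?_, m, m1, m2.mono (by gcongr)⟩
  rw [tc0 h.2.2 v]
  refine ⟨(Ps.intro h0 a1.toLA (k := k) (xk := Q ^ 2 * (x + (p.R + 1) ^ 30 * y)) ⟨k1.symm,
    fun a b δ δ' ha hb => (k1.gf.bd hx ha).1 hb, fun a b δ δ' ha hb => ?_⟩ k3).mono' h0 le_rfl le_rfl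
      (by gcongr), a3⟩
  have h1 := a2 _ _ _ _ (cw_up ha (by norm_num)) (cw_up hb (by norm_num))
  have h2 := (k1.gf.bd (b := b) hx ha.zero).2 (grd_le (hb 1 hR))
  have h3 := (k1.gf.bd (b := a) hx hb.zero).2 (grd_le (ha 1 hR))
  rw [k1.symm] at h3
  have h4 := norm_add_le_of_le (norm_add_le_of_le h1 h3) h2
  rw [sub_add_cancel, sub_add_cancel] at h4
  have h5 : 256000 ≤ Q ^ 2 := by nlinarith
  have h6 := mul_le_mul_of_nonneg_right h5 (mul_nonneg x0 (mul_nonneg ha.nonneg hb.nonneg))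
  refine h4.trans ?_
  norm_num
  linarith

theorem Sz.sv (h0 : 0 < p.ρ) (hR : 10 ^ 6 ≤ p.R) (hQ : 1 ≤ Q) (ω0 : 0 ≤ ω) (h : Sz p n Q g x y ω ψ K)
    (tc : TCov n ψ K) : Sv p n Q g (x + y) ω ψ K ∧ ‖qv (q2 (ψ 0))‖ ≤ 10 * (x + Q ^ 2 * y) ∧
      ‖q0 (q2 (ψ 0))‖ ≤ x ∧ Sz p n Q g (64 * ‖q0 (q2 (ψ 0))‖) y ω ψ K := by
  obtain ⟨a1, a3⟩ := h.1 0
  obtain ⟨k, k1, k2, k3⟩ := a1.elim
  obtain ⟨m, m1, m2⟩ := h.2
  have x0 := k1.xb0
  have y0 : 0 ≤ y := (mul_nonneg_iff_of_pos_left (by positivity)).1 k1.xk0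
  have e : q2 (ψ 0) = fun a b => k a b := funext₂ k2
  have q := fm_qv k1 (by norm_num)
  rw [e]
  refine ⟨⟨fun v => ?_, ⟨m, m1, m2.mono (by gcongr; linarith)⟩, tc⟩, q.1, q.2, fun v => ?_, h.2⟩ <;>
    rw [tc0 tc v]
  · refine ⟨⟨_, _, (Ps.intro h0 a1.toLA (k1.cc.fm k1.symm 20) k3).mono' h0 le_rfl le_rfl
      (by gcongr; linarith)⟩, fun a b δ δ' ha hb => ?_, a3⟩
    rw [e]
    refine (fm_fs k1 (by norm_num) (by omega) _ _ _ _ (cw_dn (i := 14) ha)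
      (cw_dn (i := 14) hb)).trans ?_
    have R1 : (10 : ℝ) ^ 6 ≤ p.R := by exact_mod_cast hR
    have := ha.nonneg
    have := hb.nonneg
    calc _ = 1025 * (Q ^ 2 * (p.R + 1) ^ 28 * y * δ * δ') := by ring
      _ ≤ (p.R + 1) ^ 2 * (Q ^ 2 * (p.R + 1) ^ 28 * (x + y) * δ * δ') := by
          gcongr
          exacts [by nlinarith, by linarith]
      _ = _ := by ring
  · exact ⟨a1.reform h0 ⟨k1.symm, fun a b δ δ' ha hb => q0_cb le_rfl ha hb, k1.ck⟩ k2, a3⟩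

theorem pl_cov (tz : TCov S.nf φ J) (v : St) : trL S.n v (S.PL φ J) = S.PL φ J :=
  have a : ∀ v, Sh.Ag0 S (S.ψy φ v) φ (S.Ky J v) J := fun v =>
    ⟨fun x _ => congrFun (tz _).1 x, fun X hX => (tz _).2 _ (Sh.X1_lps hX)⟩
  funext fun y => (Sh.Pl_ag (a _)).trans (Sh.Pl_ag (a y)).symm

theorem step2 (h : S.Nu 100) (f : St2 S) (w : S.Pv) (b : Tg S ω ψ K) (tc : TCov S.nf ψ K)
    (z : Sv S.p S.nf S.QM S.g y ω φ J) (hx : ‖qv (q2 (φ 0))‖ ≤ x) (h0 : 0 < x + y) (e : ω ≤ ω') :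
    Sv S.p' S.n S.Q S.g' (S.cr / S.L * (x + y)) ω' (S.PL φ J) (dK S ψ K φ J) ∧
      ‖qv (q2 (S.PL φ J 0)) - AL S.L (qv (q2 (φ 0)))‖ ≤ S.Q ^ 60 * ω * (x + y) := by
  have ρ0 := rho_pos h
  have ρ' := rho'_pos h
  have ω0 := b.nn
  have ω1 := ω0.trans e
  have Q0 := S.Q0
  have L0 := Sd.L0 S.toTd
  have c0 := Sd.Nu.cs0 (S := S)
  have g0 := h.ok.g0
  have gg := h.ok.gg'
  have u0 := h.ok.u0
  have uω : S.u ≤ ω := b.lo
  have M0 := one_pos.trans_le h.ok.QM1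
  have r1 := h.r1'
  have ln := h.lens
  have R1 : 1 ≤ S.p.R := by rw [Sd.p_R]; omega
  have R2 : 1 ≤ S.p'.R := by rw [Sd.p'_R]; omega
  have x0 := (norm_nonneg _).trans hx
  obtain ⟨y1, y2⟩ := radii h
  have Y1 := wt_one S.p.R 30
  have Y2 := wt_one S.p'.R 30
  have sz := z.sz ρ0 R1 ((h.cQ' (by norm_num)).trans h.ok.QQM) ω0 hx
  obtain ⟨⟨_, _, a1⟩, a2, -⟩ := z.1 0
  have y0 : 0 ≤ y := (mul_nonneg_iff_of_pos_left (by positivity)).1 (fs_nn a2)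
  obtain ⟨k, k1, k2, -⟩ := (sz.1 0).1.elim
  have ek : q2 (φ 0) = fun a b => k a b := funext₂ k2
  rw [ek] at hx a2 ⊢
  obtain ⟨⟨yb, yk, hP⟩, f2, f3⟩ := fr_push h w (k1.cc.fm k1.symm 20) a2 hx
  obtain ⟨k3, n1, ⟨zb, zk, n2⟩, n3, n4⟩ := pz2 w (Ps.intro ρ0 a1.toLA k1 (rem_eq k2 ▸ a1.jr)) k2 hP
  obtain ⟨d, d1, d2⟩ := z.2.1
  obtain ⟨d', d3, d4⟩ := sz.2
  obtain ⟨m, m1, m2⟩ := b.maj d' (64 * x) _ d4 (by positivity)
    (by linarith [mul_le_mul_of_nonneg_right Y1 y0])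
  generalize (S.p.R + 1 : ℝ) ^ 30 = Y at *
  obtain ⟨c, hc⟩ : ∃ c, c = S.cr / S.L := ⟨_, rfl⟩
  have c1 : c = 2 * (S.r * S.cs ^ 21) := by
    rw [hc, Sd.cr, div_eq_iff L0.ne']
    linear_combination (-2 * S.r * S.cs) * Sd.Nu.cs_pow (S := S)
  have cp : 0 < c := by rw [c1]; positivity
  have c2 : 1000 * Y ≤ S.Q * c := by
    have := cs_big w.pu (i := 21) (by norm_num)
    calc _ ≤ 1000 * Y * (2 * S.r * (S.L ^ 2 * S.cs ^ 21)) :=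
          le_mul_of_one_le_right (by positivity) (by nlinarith)
      _ = 1000 * S.L ^ 2 * Y * c := by rw [c1]; ring
      _ ≤ _ := by gcongr
  have c3 : ∀ {i j : ℕ}, i < j → 1000 * S.Q ^ i ≤ S.Q ^ j * c := fun {i j} e => by
    calc _ ≤ S.Q * c * S.Q ^ i := mul_le_mul_of_nonneg_right (by linarith) (by positivity)
      _ = S.Q ^ (i + 1) * c := by ring
      _ ≤ _ := mul_le_mul_of_nonneg_right (S.Qw e) cp.le
  have YQ : Y ≤ S.Q := by nlinarith [one_le_pow₀ (n := 2) (Sd.L1 S.toTd)]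
  have q2Y : S.QM ^ 2 * Y ≤ S.Q ^ 4 :=
    (mul_le_mul (h.QM_pow' (by norm_num)) YQ (by positivity) (by positivity)).trans_eq (by ring)
  have κ1 : 64 * x + S.QM ^ 2 * (x + Y * y) ≤ S.Q ^ 5 * (x + y) := by
    have a3 : S.QM ^ 2 ≤ S.Q ^ 3 := h.QM_pow' (by norm_num)
    have a4 := qpw h (i := 0) (j := 5) (by norm_num)
    have a5 := qpw h (i := 3) (j := 5) (by norm_num)
    have a6 := S.Qw (i := 4) (j := 5) (by norm_num)
    nlinarith [mul_le_mul_of_nonneg_right (q2Y.trans a6) y0,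
      mul_le_mul_of_nonneg_right (show 64 + S.QM ^ 2 ≤ S.Q ^ 5 by linarith) x0]
  obtain ⟨T, hT⟩ : ∃ T, T = ω * (x + y) := ⟨_, rfl⟩
  have T0 : 0 ≤ T := by rw [hT]; positivity
  have T1 : ω * y ≤ T := by rw [hT]; gcongr; linarith
  have E1 : S.Q ^ 3 * S.u * (64 * x + S.QM ^ 2 * (x + Y * y)) ≤ S.Q ^ 8 * T :=
    calc _ ≤ S.Q ^ 3 * ω * (S.Q ^ 5 * (x + y)) := by gcongr
      _ = _ := by rw [hT]; ring
  have qT : ∀ {i j : ℕ}, i < j → 1000 * (S.Q ^ i * T) ≤ S.Q ^ j * T := fun e =>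
    (mul_assoc _ _ _).ge.trans (mul_le_mul_of_nonneg_right (qpw h e) T0)
  have X1 : S.Q * (S.Q ^ 3 * S.u * (64 * x + S.QM ^ 2 * (x + Y * y)) +
      S.QM ^ 50 * ω * y * S.g ^ 2 / S.p.ρ ^ 2) + S.Q ^ 12 * (ω * y * S.g ^ 2) / S.g ^ 2 ≤
      S.Q ^ 47 * T :=
    calc _ = S.Q * (S.Q ^ 3 * S.u * (64 * x + S.QM ^ 2 * (x + Y * y)) + S.QM ^ 44 * (ω * y)) +
          S.Q ^ 12 * (ω * y) := by rw [Sd.p_ρ]; field_simp
      _ ≤ S.Q * (S.Q ^ 8 * T + S.Q ^ 45 * T) + S.Q ^ 12 * T := by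
          gcongr
          exact h.QM_pow' (by norm_num)
      _ = S.Q ^ 9 * T + S.Q ^ 46 * T + S.Q ^ 12 * T := by ring
      _ ≤ _ := by
          linarith [qT (i := 9) (j := 47) (by norm_num), qT (i := 46) (j := 47) (by norm_num),
            qT (i := 12) (j := 47) (by norm_num), mul_nonneg (pow_pos Q0 47).le T0]
  have key : ∀ v, Pr S.p' (S.Q ^ 2 * (S.p'.R + 1) ^ 30 * (c * (x + y)))
      (S.Q ^ 50 * ω' * (c * (x + y)) * S.g' ^ 2) (S.PL φ J v) ∧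
      ‖qv (q2 (S.PL φ J v)) - qv fun a b => pkL S.l S.s (fun _ => k) a b‖ ≤
        20 * (S.Q ^ 47 * T) := fun v => by
    have s1 := fs_sum w.pu d1 d2 v
    obtain ⟨k4, n5, n6, -⟩ := s1.elim
    obtain ⟨p1, p2⟩ := n2.sub s1 ρ'
    have n7 := (n1.add (n5.smul (-1))).mono le_rfl (xb' := S.Q ^ 47 * T) (xk' := S.Q ^ 47 * T)
      (by simpa using X1) (by simpa using X1)
    have e1 : S.PL φ J v = fun B => (S.pz (fun _ => φ 0) B - S.pz (fun _ => φ 0) 0) -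
        ∑ X ∈ S.X1s, (S.Fs (S.Ky J v) X B - S.Fs (S.Ky J v) X 0) := by
      rw [← show S.ψy φ v = fun _ => φ 0 from funext fun _ => tc0 z.2.2 _]
      rfl
    have e2 : ∀ a b, q2 (S.PL φ J v) a b =
        pkL S.l S.s (fun _ => k) a b + 1 * (k3 + (-1 : ℂ) • k4) a b := fun a b => by
      rw [e1, p2, n4, n6]
      simp only [LinearMap.add_apply, LinearMap.smul_apply, smul_eq_mul]
      ring
    refine ⟨⟨⟨_, _, (p1.congr ρ' fun B _ _ => congrFun e1 B).1.mono' ρ' le_rfl le_rfl ?_⟩,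
      fs_mono (fs_add f2 (fm_fs n7 (by norm_num) R2) 1 e2) ?_, ?_⟩, ?_⟩
    · have a3 : S.QM ^ 6 ≤ S.Q ^ 7 := h.QM_pow' (by norm_num)
      have a4 : S.QM ^ 50 ≤ S.r * S.Q ^ 50 := h.QM_pow (by norm_num)
      have a5 := cs_small w.pu (i := 4) (by norm_num)
      calc _ = (S.Q ^ 3 * S.u * (64 * x + S.QM ^ 2 * (x + Y * y)) * S.QM ^ 6 +
            10 ^ 12 * S.cs ^ 4 * (S.cs ^ 21 * S.QM ^ 50 * (ω * y)) + S.Q ^ 27 * (ω * y)) *
              S.g ^ 2 := by rw [Sd.p_ρ]; ring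
        _ ≤ (S.Q ^ 8 * T * S.Q ^ 7 + 1 * (S.cs ^ 21 * (S.r * S.Q ^ 50) * T) + S.Q ^ 27 * T) *
              S.g ^ 2 := by gcongr
        _ = (S.Q ^ 15 + S.Q ^ 50 * c / 2 + S.Q ^ 27) * T * S.g ^ 2 := by rw [c1]; ring
        _ ≤ S.Q ^ 50 * c * (ω' * (x + y)) * S.g' ^ 2 :=
            mul_le_mul (mul_le_mul (by
              linarith [c3 (i := 15) (j := 50) (by norm_num), c3 (i := 27) (j := 50) (by norm_num),
                mul_pos (pow_pos Q0 50) cp]) (hT ▸ mul_le_mul_of_nonneg_right e h0.le) T0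
              (by positivity)) (pow_le_pow_left₀ g0.le gg 2) (sq_nonneg _)
              (mul_nonneg (mul_pos (pow_pos Q0 50) cp).le (mul_nonneg ω1 h0.le))
        _ = _ := by ring
    · obtain ⟨W, hW⟩ : ∃ W, W = S.Q ^ 2 * (S.p'.R + 1 : ℝ) ^ 30 * c := ⟨_, rfl⟩
      have a3 : 1000 * S.Q ≤ W := by
        rw [hW, mul_right_comm]
        exact (pow_one S.Q ▸ c3 (i := 1) (j := 2) (by norm_num)).trans
          (le_mul_of_one_le_right (by positivity) Y2)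
      have a4 : S.cs / S.L * (S.QM ^ 2 * Y) ≤ W / 2 :=
        (mul_le_mul_of_nonneg_left y2 (by positivity)).trans_eq (by
          rw [hW, hc, Sd.cr]; ring)
      have a5 : (1 + 16 * 2 ^ 20) * (S.Q ^ 47 * ω) ≤ W / 4 := by
        have := qom h b.hi (i := 47) (by norm_num)
        have := h.cQ' (C := 10 ^ 9) (by norm_num)
        linarith
      have a6 : S.L ≤ W / 2 := by linarith [h.L_le_Q]
      rw [norm_one, one_mul, ← mul_assoc _ c, ← hW, hT]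
      nlinarith [mul_le_mul_of_nonneg_right a4 y0, mul_le_mul_of_nonneg_right a5 h0.le,
        mul_le_mul_of_nonneg_right a6 x0, mul_nonneg (show 0 ≤ W by linarith) h0.le]
    · rw [e1]
      exact (n3.sub_const _).sub (Finset.measurable_fun_sum _ fun X hX =>
        (w.pu.Fs_ps hX (Sd.k1y h.ok d1 v hX)).2.sub_const _)
    · rw [qv_add 1 e2, add_sub_cancel_left, one_smul]
      exact (fm_qv n7 (by norm_num)).1.trans_eq (by ring)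
  rw [← hc]
  refine ⟨⟨fun v => (key v).1, ⟨m, m2 φ J sz d3, (kN_up m1).mono ?_⟩,
    fun v => ⟨pl_cov z.2.2 v, fun o ho => dK_cov h tc z.2.2 v ho⟩⟩, ?_⟩
  · have a3 : 8 / S.Q * (64 * x + (x + Y * y)) ≤ c * (x + y) := by
      rw [div_mul_eq_mul_div, div_le_iff₀' Q0, ← mul_assoc]
      nlinarith [mul_le_mul_of_nonneg_right c2 h0.le, mul_le_mul_of_nonneg_right Y1 x0,
        mul_nonneg (zero_le_one.trans Y1) y0]
    calc _ = ω * (8 / S.Q * (64 * x + (x + Y * y))) * S.g ^ 2 := by ring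
      _ ≤ _ := by gcongr
  · have a3 := norm_add_le_of_le (key 0).2 f3
    rw [sub_add_sub_cancel] at a3
    refine a3.trans ?_
    have a4 : S.g ≤ ω := by simpa using (h.ok.g_le_u (i := 0) (by norm_num)).trans uω
    have a5 : S.Q * S.g * (x + S.QM ^ 2 * Y * y) ≤ S.Q ^ 5 * T :=
      calc _ ≤ S.Q * ω * (S.Q ^ 4 * x + S.Q ^ 4 * y) := by
            gcongr
            exact le_mul_of_one_le_left x0 (one_le_pow₀ S.Q1)
        _ = _ := by rw [hT]; ring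
    rw [mul_assoc (S.Q ^ 60), ← hT]
    linarith [qT (i := 47) (j := 60) (by norm_num), qT (i := 5) (j := 60) (by norm_num),
      mul_nonneg (pow_pos Q0 60).le T0]

/-- the drift of the marginal part in the old class -/
theorem step0 (h : S.Nu 100) (f : St2 S) (b : Tg S ω ψ K) (tc : TCov S.nf ψ K)
    (z : Sz S.p S.nf S.QM S.g x y ω φ J) (tz : TCov S.nf φ J) :
    TCov S.n (S.PL φ J) (dK S ψ K φ J) ∧
      ‖q0 (q2 (S.PL φ J 0)) - q0 (q2 (φ 0))‖ ≤ S.Q ^ 50 * ω * (x + y) := by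
  obtain ⟨p1, p2⟩ := lin_step h f z b.lo b.hi
  obtain ⟨x0, y0⟩ := z.nn h
  obtain ⟨k, k1, k2, -⟩ := (z.1 0).1.elim
  obtain ⟨m, m1, m2, -⟩ := (p1 0).1.elim
  have n0 : 0 ≤ S.Q ^ 50 * ω * (x + y) := by
    have := S.Q0
    have := b.nn
    positivity
  have c := fun p => ((cw_pc (R := 0) (s := 1) le_rfl).1 p).zero
  refine ⟨fun v => ⟨pl_cov tz v, fun o ho => dK_cov h tc tz v ho⟩, (pi_norm_le_iff_of_nonneg n0).2
    fun p => (pi_norm_le_iff_of_nonneg n0).2 fun p' => ?_⟩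
  have := p2 (tc0 tz) _ _ _ _ (c p) (c p')
  rw [qc, qc, k2, m2, ← V3.pc1_cc k1.gf, ← V3.pc1_cc m1.gf, k1.symm, m1.symm, ← V3.pc1_cc k1.gf,
    ← V3.pc1_cc m1.gf, k1.symm, m1.symm, ← k2, ← m2] at this
  simpa [q0] using this

end En

end Pool.Agent.Lib.MP_7f377f_mp.RG.Q4
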