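import Pool.Agent.Lib.MP_7f377f_mp.G.StV8a

/-! The scalar expansion: a local insertion is a combination of the marginal ones. -/

noncomputable section

set_option linter.unusedSectionVars false
variable [Pool.Agent.Lib.MP_7f377f_mp.GD]

namespace Pool.Agent.Lib.MP_7f377f_mp.RG.Q4

open Finset Real Cok

section sec

variable {β : Type} [Fintype β] {C C' : ℝ}

theorem Sec.mono {E : Type} [NormedAddCommGroup E] [NormedSpace ℂ E] {q : (V → V → ℂ) → E}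
    {w : β → E} (h : Sec q w C) (e : C ≤ C') : Sec q w C' :=
  h.imp fun _ a => ⟨fun x => (a.1 x).trans (mul_le_mul_of_nonneg_right e (norm_nonneg _)), a.2⟩

/-- the real part of a section -/
theorem Sec.re {ι κ : Type} [Fintype ι] [Fintype κ] {q : (V → V → ℂ) → ι → κ → ℂ}
    {w : β → ι → κ → ℂ} (h : Sec q w C) (hw : ∀ i p t, (w i p t).im = 0) :
    ∃ (s : (ι → κ → ℂ) →ₗ[ℝ] β → ℝ) (W : Submodule ℝ (ι → κ → ℂ)),
      (∀ e, ∑ i, ‖s e i‖ ≤ C * ‖e‖) ∧ (∀ e ∈ W, ∑ i, s e i • w i = e) ∧ ∀ k : CF, Gf k →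
        (∀ p t, (q (fun a b => k a b) p t).im = 0) → (q fun a b => k a b) ∈ W := by
  obtain ⟨s, a, b⟩ := h
  let r : (ι → κ → ℂ) →ₗ[ℝ] β → ℝ :=
    .pi fun i => Complex.reLm ∘ₗ (LinearMap.proj i ∘ₗ s).restrictScalars ℝ
  refine ⟨r, LinearMap.eqLocus (Fintype.linearCombination ℝ w ∘ₗ r) LinearMap.id,
    fun e => (sum_le_sum fun i _ => Complex.abs_re_le_norm _).trans (a e),
    fun _ e => (Fintype.linearCombination_apply ..).symm.trans (LinearMap.mem_eqLocus.1 e),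
    fun k e e' => LinearMap.mem_eqLocus.2 ((Fintype.linearCombination_apply ..).trans ?_)⟩
  funext p t
  have := congrArg Complex.re (congrFun₂ (b k e) p t)
  refine Complex.ext ?_ ?_
  · simpa [r, Finset.sum_apply, hw] using this
  · simp [Finset.sum_apply, hw, e']

end sec

namespace En

open Pos

theorem Lop.mono {p : Pa} {n e ρ : ℕ} {Q g ω A A' : ℝ} {Φ : (St → ℂ) → Lx × Ac}
    (h : Lop p n e ρ Q g ω A Φ) (h0 : 0 < p.ρ) (_ : 0 ≤ Q) (_ : 0 ≤ ω) (a : A ≤ A') :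
    Lop p n e ρ Q g ω A' Φ :=
  ⟨h.lin, h.locL, h.locK, h.bd.imp fun _ c => ⟨c.1.mono (by gcongr), fun F h1 h2 =>
    ⟨PM.mono h0 (c.2 F h1 h2).1 a (by gcongr) (by gcongr), (c.2 F h1 h2).2⟩⟩, h.cov⟩

namespace Gl

/-- real translation invariant directions with a bound of the part which contracts -/
def P0 (G : Gl) (ω : ℕ → ℝ) (k : ℕ) (u : Lx × Ac) (y : ℝ) : Prop :=
  G.RE k u ∧ ∃ x, G.Sz k x y (ω k) u.1 u.2

variable {G : Gl} {b N A C x y a0 a1 : ℝ} {I i j k ρ : ℕ} {ω w : ℕ → ℝ} {u d : Lx × Ac}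
  {f U : ℕ → Lx × Ac} {F : St → ℂ} {Φ : (St → ℂ) → Lx × Ac} {α : Type} [Fintype α]
  {O : α → (St → ℂ) → Lx × Ac}

theorem Lr.mono {A' ω : ℝ} (h : G.Ok) (a : G.Lr I k ρ ω A Φ) (ω0 : 0 ≤ ω) (e : A ≤ A') :
    G.Lr I k ρ ω A' Φ := ⟨Lop.mono a.lop (h.ρ0 k) (h.Q0 k).le ω0 e, a.re⟩

namespace Ok

variable (h : G.Ok)
include h

theorem sz_nn' {ω : ℝ} (a : G.Sz k x y ω u.1 u.2) : 0 ≤ x ∧ 0 ≤ y :=
  have := (a.1 0).1.nonneg (h.ρ0 k)
  ⟨this.1, (mul_nonneg_iff_of_pos_left (pow_pos (h.Q0 k) 2)).1 this.2.1⟩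

theorem cLQ (k : ℕ) {c : ℝ} {m : ℕ} (hc : c ≤ 10 ^ 120) (hm : m ≤ 20) :
    c * (G.L k : ℝ) ^ m ≤ G.Q k := by simpa using h.nm k (j := 0) hc hm (by omega)

theorem CQ (hj : j ≤ k) (C0 : 0 ≤ C) (hC : C ≤ G.L j) {c : ℝ} {m : ℕ} (c0 : 0 ≤ c)
    (hc : c ≤ 10 ^ 120) (hm : m ≤ 119) : c * (C * C) * G.D0 k ^ m ≤ G.Q k := by
  have : C ≤ G.L k := hC.trans (Nat.cast_le.2 (h.L_mono hj))
  refine le_trans ?_ (h.nm k (i := 2) hc (by norm_num) hm)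
  rw [sq]
  gcongr

theorem q2_im {ω : ℝ} (a : G.Sz k x y ω u.1 u.2) (r : G.RE k u) (e e' : V) :
    (q2 (u.1 0) e e').im = 0 := (a.1 0).1.real_q2 (h.ρ0 k) (r.1 0) e e'

variable (ω0 : ∀ k, 0 ≤ ω k)
include ω0

theorem sz_sv (a : G.Sz k x y (ω k) u.1 u.2) (t : TCov (G.N k) u.1 u.2) :
    Sv (G.p k) (G.N k) (G.Q k) (G.g k) (x + y) (ω k) u.1 u.2 ∧
      ‖qv (q2 (u.1 0))‖ ≤ 10 * (x + G.Q k ^ 2 * y) ∧ ‖q0 (q2 (u.1 0))‖ ≤ x ∧
        G.Sz k (64 * ‖q0 (q2 (u.1 0))‖) y (ω k) u.1 u.2 :=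
  Sz.sv (h.ρ0 k) (h.R6 k) (h.Q1 k) (ω0 k) a t

variable (R : G.Run b I j ω) (T : G.Tu b I) (hi : i ≤ I)
include R T hi

/-- the cocycle of the marginal directions -/
theorem co0 {W : Submodule ℝ E0} (hW : ∀ k : CF, Gf k →
      (∀ p t, (q0 (fun a b => k a b) p t).im = 0) → (q0 fun a b => k a b) ∈ W) :
    Co j i (G.P0 ω) (fun _ u => q0 (q2 (u.1 0))) (G.tm b I) (fun _ => LinearMap.id) W (fun _ => 1)
      (fun k => 64 * G.cr k) fun k => 64 * (G.Q k ^ 50 * ω (k + 1)) where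
  zero k := ⟨re_zero, _, h.sz_zero k _⟩
  nn _ _ _ a := (h.sz_nn' a.2.choose_spec).2
  mono k _ _ _ a e := ⟨a.1, a.2.imp fun _ c => h.sz_up c (ω0 k) le_rfl e⟩
  lin k u v _ _ t := fun ⟨a, _, c⟩ ⟨a', _, c'⟩ => by
    rw [rsm t v, rsm t (q0 _), ← Complex.norm_real]
    exact ⟨⟨re_lin a a' t, _, sz_add (h.ρ0 k) c (sz_smul (h.ρ0 k) c' t)⟩, congrArg Prod.fst
      (Sv.add (h.ρ0 k) (h.sz_sv ω0 c a.2.2).1 (h.sz_sv ω0 c' a'.2.2).1 t).2⟩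
  linT _ _ v _ _ t h1 h2 := fun ⟨_, _, c⟩ ⟨_, _, c'⟩ => by
    rw [rsm t v, rsm t (G.tm ..)]
    exact h.tm_lin R h1 (h2.trans_le hi) c c' t
  mem _ u _ := fun ⟨a, _, c⟩ => by
    obtain ⟨κ, e, e'⟩ := (h.sz_sv ω0 c a.2.2).1.gf
    have r := h.q2_im c a
    rw [show q2 (u.1 0) = fun a b => κ a b from funext₂ e'] at r ⊢
    exact hW κ e fun _ _ => r _ _
  step k u x y h1 h2 := fun ⟨a, _, c⟩ hx h0 => by
    obtain ⟨s, -, e, g, t⟩ := R k h1 (h2.trans_le hi)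
    have n := h.sd_nf k (G.zz b I (k + 1))
    have nu := (h.sd_all k (G.zz b I (k + 1))).nu
    have x0 := (norm_nonneg _).trans hx
    have y0 := (h.sz_nn' c).2
    have z := h.sz_fine (G.zz b I (k + 1)) (h.sz_up (h.sz_sv ω0 c a.2.2).2.2.2 (ω0 _)
      (mul_le_mul_of_nonneg_left hx (by norm_num)) le_rfl)
    obtain ⟨p1, p2⟩ := step0 nu s g (n ▸ t) z (n ▸ a.2.2)
    have r := h.tm_real R h1 (h2.trans_le hi) T c a.1 a.2.1
    have c0 := h.cr0 k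
    have := mul_nonneg (pow_pos (h.Q0 k) 50).le (ω0 (k + 1))
    exact ⟨⟨⟨r.1, r.2, p1⟩, _, h.sz_up (g.step nu s z (by linarith) e) (ω0 k) le_rfl
      (show G.cr k * _ ≤ _ by nlinarith)⟩, p2.trans (show G.Q k ^ 50 * _ * _ ≤ _ by nlinarith)⟩
  inv _ _ _ _ := by simp
  nl k := ⟨zero_le_one, by linarith [h.cr0 k], by have := h.Q0 k; have := ω0 (k + 1); positivity⟩

variable (hj : j ≤ i) (hO : ∀ a, G.Lr I i ρ (ω i) C (O a)) (hρ : ρ ≤ 2 * (G.p i).D)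
  (sO : Sec q0 (fun a => q0 (q2 ((O a 1).1 0))) C) (C0 : 0 ≤ C) (hC : C ≤ G.L j)
include hj hO hρ sO C0 hC

section slow

variable (w0 : ∀ k, 0 < w k) (w1 : ∀ k < i, w k = 300 * G.cr k * w (k + 1))
  (hf : ∀ k, j ≤ k → k < i → G.S1 ω k (w k) (f k) ∧ G.RE k (f k))
include w0 w1 hf

omit hρ in
/-- translation invariant sources -/
theorem slow (a : G.Ob b I i j ω f U) (t : G.S1 ω i (w i) (U i) ∧ G.RE i (U i)) :
    ∃ c : α → ℝ, ∑ a, |c a| ≤ 3 * C * w i ∧ ∀ k, j ≤ k → k ≤ i →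
      G.S1 ω k (G.Q j * w k) (U k - ∑ a, (c a : ℂ) • G.tn b I (O a 1) i k) ∧
        G.RE k (U k - ∑ a, (c a : ℂ) • G.tn b I (O a 1) i k) := by
  have o := fun e => h.lr_one ω0 hi (hO e)
  obtain ⟨s, W, s1, s2, s3⟩ := sO.re fun e _ _ => h.q2_im (o e).1 (o e).2 _ _
  have n1 := h.CQ (c := 10) (m := 0) le_rfl C0 hC (by norm_num) (by norm_num) (by norm_num)
  have n2 := h.cQ j (C := 128) (by norm_num)
  obtain ⟨c, c1, c2⟩ := co_fast (p := fun a => G.tn b I (O a 1) i) (C' := C) (h.co0 ω0 R T hi s3) hj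
    (fun _ _ _ h2 => tn_tm h2) (fun e => by rw [Gl.tn_top]; exact ⟨(o e).2, _, (o e).1⟩)
    C0 C0 s s1 (by simpa only [Gl.tn_top] using s2) w0 (fun k h1 h2 => ⟨by
      nlinarith [w1 k h2, mul_le_mul_of_nonneg_right (h.cr1 k) (w0 (k + 1)).le, w0 (k + 1)], by
      nlinarith [w1 k h2, mul_pos (h.cr0 k) (w0 (k + 1))], by
      have a1 := h.om_q R h1 (h2.trans_le hi) (m := 52) (by norm_num)
      have a2 := mul_le_mul (h.cQ k (C := 7) (by norm_num)) (show 1 + C * C ≤ G.Q k by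
        linarith [h.Q_mono h1]) (by positivity) (h.Q0 k).le
      nlinarith [mul_le_mul_of_nonneg_right a2 (mul_nonneg (pow_pos (h.Q0 k) 50).le (ω0 (k + 1)))]⟩)
    ⟨⟨t.2, _, t.1⟩, (h.sz_sv ω0 t.1 t.2.2.2).2.2.1⟩ a.2 fun k h1 h2 =>
      ⟨⟨(hf k h1 h2).2, _, (hf k h1 h2).1⟩, (h.sz_sv ω0 (hf k h1 h2).1 (hf k h1 h2).2.2.2).2.2.1⟩
  simp only [rsm (E := Lx × Ac)] at c2
  refine ⟨c, c1, fun k h1 h2 => ?_⟩
  obtain ⟨⟨p1, _, p2⟩, p3⟩ := c2 k h1 h2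
  have := w0 k
  exact ⟨h.sz_up (h.sz_sv ω0 p2 p1.2.2).2.2.2 (ω0 k)
    (by nlinarith [mul_le_mul_of_nonneg_right n2 this.le])
    (mul_le_mul_of_nonneg_right (by linarith) this.le), p1⟩

/-- the same sources with a slowly varying factor -/
theorem slowF (t : G.S1 ω i (w i) d ∧ G.RE i d) :
    ∃ c : α → ℝ, ∑ a, |c a| ≤ 3 * C * w i ∧ ∀ F a0 a1 Y, PS (G.N I) F → (∀ x, ‖F x‖ ≤ a0) →
      LipT (G.N I) a1 F → 0 < a1 → G.Ob b I i j ω (fun k => mM (G.fd I k F) (f k)) Y →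
        G.S1 ω i (G.Q i * (G.rt I i * a1 * w i)) (Y i - mM (G.fd I i F) d) → ∀ k, j ≤ k → k ≤ i →
          G.S1 ω k (G.Q i ^ 3 * w k * (a0 + G.rt I k * a1))
            (Y k - ∑ a, (c a : ℂ) • G.tn b I (O a F) i k) := by
  obtain ⟨U, rfl, a⟩ := h.ob_ex ω0 R hi t.1 fun k h1 h2 => ⟨_, (hf k h1 h2).1⟩
  obtain ⟨c, c1, c2⟩ := h.slow ω0 R T hi hj hO sO C0 hC w0 w1 hf a t
  refine ⟨c, c1, fun F a0 a1 Y hp hF hL p1 y1 y2 k h1 h2 => ?_⟩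
  have v := h.ob_sub R hi a (h.ob_sum R hi univ (fun e => (c e : ℂ)) fun e =>
    h.ob_tn ω0 R hi (h.lr_one ω0 hi (hO e)).1)
  have v' := h.ob_sub R hi y1 (h.ob_sum R hi univ (fun e => (c e : ℂ)) fun e =>
    h.ob_tn ω0 R hi (h.lop_sz ω0 hi (hO e).lop hp hF))
  simp only [smul_zero, sum_const_zero, sub_zero] at v v'
  have Qj := h.Q0 j
  have Qi := h.Q0 i
  have q := h.ob_mul ω0 R hi v v' hp hF hL p1 (w := fun k => G.Q j * w k)
    (fun k => mul_pos Qj (w0 k)) (fun k _ h2 => by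
      rw [w1 k h2]
      nlinarith [mul_le_mul_of_nonneg_right (h.Lcr k) (mul_pos Qj (w0 (k + 1))).le,
        mul_pos Qj (w0 (k + 1))])
    (fun k h1 h2 => by simpa using And.intro (c2 k h1 h2).1 (c2 k h1 h2).2.2.2) (by
      refine h.s1_mono ω0 (by
        convert h.s1_sub y2 (h.s1_cs c fun e => h.lop_t1 ω0 hi (hO e).lop hρ hp hL p1.le) using 1
        simp [Gl.tn_top, smul_sub]
        abel) ?_
      have n1 := h.CQ (c := 720) (m := 1) hj C0 hC (by norm_num) (by norm_num) (by norm_num)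
      have := h.D1 i; have := w0 i; have := h.t0 I i
      calc _ ≤ G.Q i * (G.rt I i * a1 * w i) + 3 * C * w i * (240 * G.D0 i * G.rt I i * a1 * C) := by
            gcongr
        _ = (G.Q i + 720 * (C * C) * G.D0 i ^ 1) * (G.rt I i * a1 * w i) := by ring
        _ ≤ (G.Q i * G.Q j) * (G.rt I i * a1 * w i) := by
            gcongr; nlinarith [h.cQ j (C := 2) (by norm_num)]
        _ = _ := by ring) k h1 h2
  simp only [Pi.sub_apply, Finset.sum_apply, Pi.smul_apply] at q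
  refine h.s1_mono ω0 q ?_
  have n1 := h.qpw i (show 2 < 3 by norm_num)
  have n2 := h.qpw i (show 1 < 3 by norm_num)
  have n3 := h.Q_mono hj
  have p0 := (norm_nonneg _).trans (hF 0)
  have := w0 k; have := h.t0 I k
  calc _ ≤ G.Q i * w k * (a0 + 3 * G.Q i * (G.rt I k * a1)) := by gcongr
    _ = G.Q i ^ 1 * (w k * a0) + 3 * G.Q i ^ 2 * (w k * (G.rt I k * a1)) := by ring
    _ ≤ G.Q i ^ 3 * (w k * a0) + G.Q i ^ 3 * (w k * (G.rt I k * a1)) :=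
        add_le_add (by gcongr ?_ * _; linarith [pow_pos Qi 1])
          (by gcongr ?_ * _; linarith [pow_pos Qi 2])
    _ = _ := by ring

end slow

/-- scalar expansion -/
theorem xsca {ρ' : ℕ} (A0 : 0 < A) (hΦ : G.Lr I i ρ' (ω i) A Φ) (hρ' : ρ' ≤ 2 * (G.p i).D) :
    ∃ c : α → ℝ, ∑ a, |c a| ≤ G.Q i * A ∧
      ∀ F a0 a1, PS (G.N I) F → (∀ x, ‖F x‖ ≤ a0) → LipT (G.N I) a1 F → 0 < a1 → ∀ k, j ≤ k → k ≤ i →
        G.S1 ω k (G.Q i ^ 3 * A * G.cE k i * (a0 + G.rt I k * a1))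
          (G.tn b I (Φ F) i k - ∑ a, (c a : ℂ) • G.tn b I (O a F) i k) := by
  obtain ⟨c, c1, c2⟩ := h.slowF ω0 R T hi hj hO hρ sO C0 hC (w := fun k => A * G.cE k i) (f := 0)
    (fun k => mul_pos A0 (h.cE0 k i)) (fun k hk => by rw [cE_step hk]; ring)
    (fun k _ _ => ⟨h.s1_zero ω0 (mul_pos A0 (h.cE0 k i)).le, re_zero⟩)
    (by simpa [cE_top] using h.lr_one ω0 hi hΦ)
  simp only [cE_top, mul_one] at c1 c2
  refine ⟨c, c1.trans (mul_le_mul_of_nonneg_right (by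
    linarith [h.cLQ j (c := 3) (m := 1) (by norm_num) (by norm_num), h.Q_mono hj]) A0.le),
    fun F a0 a1 hp hF hL p1 k h1 h2 => mul_assoc _ A _ ▸ c2 F a0 a1 _ hp hF hL p1
      (by simpa [Pi.zero_def] using h.ob_tn ω0 R hi (h.lop_sz ω0 hi hΦ.lop hp hF)) ?_ k h1 h2⟩
  rw [Gl.tn_top]
  refine h.s1_mono ω0 (h.lop_t1 ω0 hi hΦ.lop hρ' hp hL p1.le) ?_
  have n := h.nm i (C := 240) (i := 0) (j := 1) (by norm_num) (by norm_num) (by norm_num)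
  nlinarith [mul_le_mul_of_nonneg_right n (show 0 ≤ G.rt I i * a1 * A by positivity)]

end Ok

end Gl

end En

end Pool.Agent.Lib.MP_7f377f_mp.RG.Q4
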