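import Mathlib

/-! Clock and shift: the isolated twist of `SU(N)`. -/

noncomputable section

namespace Pool.Agent.Lib.MP_7f377f_mp.SuTw

open Matrix Finset

variable {n : ℕ}

abbrev Mt (n : ℕ) : Type := Matrix (Fin (n + 1)) (Fin (n + 1)) ℂ

/-- the clock matrix -/
def ck (ω c : ℂ) : Mt n := diagonal fun k => c * ω ^ (k : ℕ)

/-- the shift matrix with corner `μ` -/
def sf (μ : ℂ) : Mt n :=
  (diagonal fun k => if k = Fin.last n then μ else 1).submatrix (finRotate (n + 1)).symm id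

theorem sf_apply (μ : ℂ) (i j : Fin (n + 1)) :
    sf μ i j = if i = j + 1 then if j = Fin.last n then μ else 1 else 0 := by
  rw [sf, submatrix_apply, id, ← finRotate_apply]
  by_cases h : i = finRotate (n + 1) j
  · rw [if_pos h, h, Equiv.symm_apply_apply, diagonal_apply_eq]
  · rw [if_neg h, diagonal_apply_ne _ fun e => h ((Equiv.symm_apply_eq _).1 e)]

theorem det_sf (μ : ℂ) : (sf μ : Mt n).det = (Equiv.Perm.sign (finRotate (n + 1)) : ℤ) * μ := by
  rw [sf, det_permute, det_diagonal, Equiv.Perm.sign_symm]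
  simp

theorem det_ck (ω c : ℂ) : (ck ω c : Mt n).det = c ^ (n + 1) * ∏ k : Fin (n + 1), ω ^ (k : ℕ) := by
  simp [ck, prod_mul_distrib]

variable {ω : ℂ} (hω : IsPrimitiveRoot ω (n + 1))
include hω

theorem pow_succ' (j : Fin (n + 1)) : ω ^ ((j + 1 : Fin (n + 1)) : ℕ) = ω * ω ^ (j : ℕ) := by
  rw [← _root_.pow_succ', Fin.val_add_one]
  split_ifs with h
  · rw [h, Fin.val_last, hω.pow_eq_one, pow_zero]
  · rfl

theorem pow_inj {i j : Fin (n + 1)} (h : ω ^ (i : ℕ) = ω ^ (j : ℕ)) : i = j :=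
  Fin.ext (hω.pow_inj i.2 j.2 h)

theorem star_mul_pow (k : ℕ) : star (ω ^ k) * ω ^ k = 1 := by
  rw [Complex.star_def, Complex.conj_mul', norm_pow, hω.norm'_eq_one n.succ_ne_zero]
  simp

theorem ck_sf (c μ : ℂ) : (ck ω c : Mt n) * sf μ = ω • (sf μ * ck ω c) := by
  ext i j
  simp only [ck, diagonal_mul, mul_diagonal, Matrix.smul_apply, sf_apply, smul_eq_mul]
  by_cases h : i = j + 1
  · rw [h, pow_succ' hω]
    ring
  · simp [h]

/-- normal form from an eigenvector -/
theorem normal {P Q : Mt n} (hP : star P * P = 1) (hQ : star Q * Q = 1)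
    (h : Q * P = ω • (P * Q)) {c : ℂ} {v : Fin (n + 1) → ℂ} (hv : star v ⬝ᵥ v = 1)
    (hc : Q *ᵥ v = c • v) :
    ∃ (g : Mt n) (μ : ℂ), star g * g = 1 ∧ Q * g = g * ck ω c ∧ P * g = g * sf μ := by
  have e1 : ∀ k : ℕ, Q *ᵥ (P ^ k *ᵥ v) = (c * ω ^ k) • (P ^ k *ᵥ v) := fun k => by
    induction k with
    | zero => simpa using hc
    | succ k ih =>
      rw [_root_.pow_succ' P, ← mulVec_mulVec, mulVec_mulVec _ Q, h, smul_mulVec, ← mulVec_mulVec, ih,
        mulVec_smul, smul_smul, _root_.pow_succ' ω, mul_left_comm]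
  have un : ∀ (A : Mt n) (w : Fin (n + 1) → ℂ), star A * A = 1 →
      star (A *ᵥ w) ⬝ᵥ (A *ᵥ w) = star w ⬝ᵥ w := fun A w hA => by
    rw [star_mulVec, dotProduct_mulVec, vecMul_vecMul, ← star_eq_conjTranspose, hA, vecMul_one]
  have e2 : ∀ k : ℕ, star (P ^ k *ᵥ v) ⬝ᵥ (P ^ k *ᵥ v) = 1 := fun k => by
    induction k with
    | zero => simpa using hv
    | succ k ih => rw [_root_.pow_succ' P, ← mulVec_mulVec, un _ _ hP, ih]
  have c1 : star c * c = 1 := by
    have := un Q v hQ
    rw [hc, star_smul, smul_dotProduct, dotProduct_smul, hv] at this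
    simpa using this
  have c0 : c ≠ 0 := right_ne_zero_of_mul_eq_one c1
  let g : Mt n := of fun i k => (P ^ (k : ℕ) *ᵥ v) i
  have a1 : Q * g = g * ck ω c := by
    ext i k
    have := congrFun (e1 k) i
    rw [ck, mul_diagonal, mul_comm]
    exact this
  have a2 : star g * g = 1 := by
    ext i j
    by_cases hij : i = j
    · rw [hij, one_apply_eq]
      exact e2 j
    · have : star (Q * g) * (Q * g) = star g * g := by
        rw [star_mul, mul_assoc, ← mul_assoc (star Q), hQ, one_mul]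
      rw [a1, star_mul, mul_assoc, ← mul_assoc (star g), ck, star_eq_conjTranspose (diagonal _),
        diagonal_conjTranspose] at this
      have h1 := congrFun (congrFun this i) j
      rw [diagonal_mul, mul_diagonal, Pi.star_apply, star_mul'] at h1
      rw [one_apply_ne hij]
      by_contra h0
      have h2 : star (ω ^ (i : ℕ)) * ω ^ (j : ℕ) = 1 := mul_right_cancel₀ h0 (by
        linear_combination h1 - star (ω ^ (i : ℕ)) * ω ^ (j : ℕ) * (star g * g) i j * c1)
      rw [← star_mul_pow hω i] at h2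
      exact hij (pow_inj hω (mul_left_cancel₀ (left_ne_zero_of_mul_eq_one (star_mul_pow hω i))
        h2)).symm
  have a3 : g * star g = 1 := mul_eq_one_comm.1 a2
  refine ⟨g, (star g * (P * g)) 0 (Fin.last n), a2, a1, ?_⟩
  suffices star g * (P * g) = sf _ by rw [← this, ← mul_assoc, a3, one_mul]
  ext i j
  rw [sf_apply]
  by_cases hj : j = Fin.last n
  · subst hj
    rw [Fin.last_add_one, if_pos rfl]
    split_ifs with hi
    · rw [hi]
    · have b1 : ck ω c * (star g * (P * g)) = ω • (star g * (P * g) * ck ω c) := by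
        have : ck ω c * star g = star g * Q := by
          rw [← one_mul (ck ω c), ← a2, mul_assoc (star g), ← a1, mul_assoc, mul_assoc, a3, mul_one]
        rw [← mul_assoc, this, mul_assoc, ← mul_assoc Q, h, smul_mul_assoc, mul_smul_comm,
          mul_assoc P, a1, mul_assoc, mul_assoc]
      have h1 := congrFun (congrFun b1 i) (Fin.last n)
      rw [ck, Matrix.smul_apply, diagonal_mul, mul_diagonal, smul_eq_mul] at h1
      by_contra h0
      have h2 := pow_succ' hω (Fin.last n)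
      rw [Fin.last_add_one] at h2
      refine hi (pow_inj hω (mul_right_cancel₀ (mul_ne_zero c0 h0) ?_))
      rw [h2]
      linear_combination h1
  · rw [if_neg hj, ← one_apply (α := ℂ), ← a2, mul_apply, mul_apply]
    refine sum_congr rfl fun k _ => congrArg _ ?_
    change (P *ᵥ (P ^ (j : ℕ) *ᵥ v)) k = (P ^ ((j + 1 : Fin (n + 1)) : ℕ) *ᵥ v) k
    rw [Fin.val_add_one, if_neg hj, mulVec_mulVec, _root_.pow_succ']

omit hω in
theorem exists_eig (Q : Mt n) : ∃ (c : ℂ) (v : Fin (n + 1) → ℂ), star v ⬝ᵥ v = 1 ∧ Q *ᵥ v = c • v := by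
  obtain ⟨c, hc⟩ := Module.End.exists_eigenvalue (toLin' Q)
  obtain ⟨v, hv⟩ := hc.exists_hasEigenvector
  have h1 : Q *ᵥ v = c • v := by simpa using hv.apply_eq_smul
  have h2 : ‖WithLp.toLp 2 v‖ ≠ 0 := by simpa using hv.2
  refine ⟨c, ((‖WithLp.toLp 2 v‖⁻¹ : ℝ) : ℂ) • v, ?_, by rw [mulVec_smul, h1, smul_comm]⟩
  have h3 := inner_self_eq_norm_sq_to_K (𝕜 := ℂ) (WithLp.toLp 2 v)
  rw [EuclideanSpace.inner_eq_star_dotProduct, dotProduct_comm] at h3
  rw [star_smul, smul_dotProduct, dotProduct_smul, h3]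
  have : ((‖WithLp.toLp 2 v‖ : ℝ) : ℂ) ≠ 0 := by exact_mod_cast h2
  rw [Complex.star_def, Complex.conj_ofReal]
  simp only [smul_eq_mul, Complex.ofReal_inv, Complex.coe_algebraMap]
  field_simp

theorem scalar {c μ : ℂ} (c0 : c ≠ 0) (m0 : μ ≠ 0) {g : Mt n} (h1 : g * sf μ = sf μ * g)
    (h2 : g * ck ω c = ck ω c * g) : g = g 0 0 • (1 : Mt n) := by
  have d : ∀ i j, i ≠ j → g i j = 0 := fun i j hij => by
    have := congrFun (congrFun h2 i) j
    rw [ck, diagonal_mul, mul_diagonal] at this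
    by_contra h0
    exact hij (pow_inj hω (mul_right_cancel₀ (mul_ne_zero c0 h0) (by linear_combination -this)))
  have e : ∀ j, g (j + 1) (j + 1) = g j j := fun j => by
    have := congrFun (congrFun h1 (j + 1)) j
    rw [mul_apply, mul_apply, sum_eq_single (j + 1) (fun k _ hk => by rw [d _ _ hk.symm, zero_mul])
      (by simp), sum_eq_single j (fun k _ hk => by rw [d _ _ hk, mul_zero]) (by simp), sf_apply,
      if_pos rfl, mul_comm] at this
    exact mul_left_cancel₀ (by split_ifs <;> simp [m0]) this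
  ext i j
  rw [Matrix.smul_apply, one_apply]
  split_ifs with h
  · subst h
    rw [smul_eq_mul, mul_one]
    induction i using Fin.induction with
    | zero => rfl
    | succ i ih => rw [← ih, ← e i.castSucc, Fin.coeSucc_eq_succ]
  · rw [d _ _ h, smul_zero]

omit hω in
theorem fix_det {g : Mt n} (h : star g * g = 1) : ∃ s : ℂ, star s * s = 1 ∧
    s • g ∈ specialUnitaryGroup (Fin (n + 1)) ℂ := by
  have h1 : star g.det * g.det = 1 := by
    rw [← det_conjTranspose, ← det_mul, ← star_eq_conjTranspose, h, det_one]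
  obtain ⟨s, hs⟩ := IsAlgClosed.exists_pow_nat_eq (star g.det) n.succ_pos
  have h2 : star s * s = 1 := by
    have h3 : ‖g.det‖ ^ 2 = 1 := by
      rw [Complex.star_def, Complex.conj_mul'] at h1
      exact_mod_cast h1
    have h4 : ‖s‖ ^ (n + 1) = 1 := by
      rw [← norm_pow, hs, norm_star, (pow_eq_one_iff_of_nonneg (norm_nonneg _) two_ne_zero).1 h3]
    rw [Complex.star_def, Complex.conj_mul',
      (pow_eq_one_iff_of_nonneg (norm_nonneg _) n.succ_ne_zero).1 h4]
    simp
  refine ⟨s, h2, mem_specialUnitaryGroup_iff.2 ⟨mem_unitaryGroup_iff'.2 ?_, ?_⟩⟩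
  · rw [star_smul, smul_mul_smul_comm, h, h2, one_smul]
  · rw [det_smul, Fintype.card_fin, hs, h1]

omit hω in
/-- `SU(N)` has isolated twists of order `N`, and its centre is finite -/
theorem su_twist (N : ℕ) (hN : N ≠ 0) {ω : ℂ} (hω : IsPrimitiveRoot ω N) :
    Finite (Subgroup.center (specialUnitaryGroup (Fin N) ℂ)) ∧
    ∃ (z : Subgroup.center (specialUnitaryGroup (Fin N) ℂ)) (P Q : specialUnitaryGroup (Fin N) ℂ),
      z.1.1 = ω • (1 : Matrix (Fin N) (Fin N) ℂ) ∧
      Q * P = z * (P * Q) ∧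
      (∀ P' Q' : specialUnitaryGroup (Fin N) ℂ, Q' * P' = z * (P' * Q') →
        ∃ g, P' = g * P * g⁻¹ ∧ Q' = g * Q * g⁻¹) ∧
      ∀ g, g * P = P * g → g * Q = Q * g → g ∈ Subgroup.center _ := by
  obtain ⟨n, rfl⟩ := Nat.exists_eq_succ_of_ne_zero hN
  have ce : ∀ (g : specialUnitaryGroup (Fin (n + 1)) ℂ) (a : ℂ), g.1 = a • (1 : Mt n) →
      g ∈ Subgroup.center _ := fun g a h => Subgroup.mem_center_iff.2 fun k => Subtype.ext (by
    change k.1 * g.1 = g.1 * k.1
    simp [h])
  have u1 : ∀ {a : ℂ}, a ^ (n + 1) = 1 → star a * a = 1 := fun {a} h => by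
    rw [Complex.star_def, Complex.conj_mul', Complex.norm_eq_one_of_pow_eq_one h hN]
    simp
  obtain ⟨s, s1, s2⟩ := fix_det (g := (ck ω 1 : Mt n)) (by
    rw [ck, star_eq_conjTranspose, diagonal_conjTranspose, diagonal_mul_diagonal, ← diagonal_one]
    exact congrArg _ (funext fun k => by simpa using star_mul_pow hω k))
  have s3 : s • (ck ω 1 : Mt n) = ck ω s := by simp [ck, ← diagonal_smul, Pi.smul_def]
  rw [s3] at s2
  set μ : ℂ := ((Equiv.Perm.sign (finRotate (n + 1)) : ℤ) : ℂ) with hμ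
  have m1 : μ * μ = 1 := by rw [hμ, ← Int.cast_mul, ← Units.val_mul, Int.units_mul_self]; simp
  have m2 : (sf μ : Mt n) ∈ specialUnitaryGroup (Fin (n + 1)) ℂ := by
    refine mem_specialUnitaryGroup_iff.2 ⟨mem_unitaryGroup_iff'.2 ?_, by rw [det_sf, m1]⟩
    rw [sf, star_eq_conjTranspose, conjTranspose_submatrix, submatrix_mul_equiv,
      diagonal_conjTranspose, diagonal_mul_diagonal, submatrix_id_id, ← diagonal_one]
    congr 1
    funext k
    by_cases h : k = Fin.last n
    · simpa [h, hμ] using m1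
    · simp [h]
  have z1 : ω • (1 : Mt n) ∈ specialUnitaryGroup (Fin (n + 1)) ℂ :=
    mem_specialUnitaryGroup_iff.2 ⟨mem_unitaryGroup_iff'.2 (by
      rw [star_smul, smul_mul_smul_comm, u1 hω.pow_eq_one]; simp), by simp [hω.pow_eq_one]⟩
  have sc := fun (g : specialUnitaryGroup (Fin (n + 1)) ℂ) => scalar hω (g := g.1)
    (right_ne_zero_of_mul_eq_one s1) (right_ne_zero_of_mul_eq_one m1)
  refine ⟨?_, ⟨⟨_, z1⟩, ce _ _ rfl⟩, ⟨_, m2⟩, ⟨_, s2⟩, rfl, Subtype.ext ?_, fun P Q h => ?_,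
    fun g h1 h2 => ce g _ (sc g (congrArg Subtype.val h1) (congrArg Subtype.val h2))⟩
  · have sc' : ∀ g : Subgroup.center (specialUnitaryGroup (Fin (n + 1)) ℂ),
        g.1.1 = g.1.1 0 0 • (1 : Mt n) := fun g =>
      sc g (congrArg Subtype.val (Subgroup.mem_center_iff.1 g.2 ⟨_, m2⟩).symm)
        (congrArg Subtype.val (Subgroup.mem_center_iff.1 g.2 ⟨_, s2⟩).symm)
    refine Finite.of_injective (β := Polynomial.nthRootsFinset (n + 1) (1 : ℂ))
      (fun g => ⟨g.1.1 0 0, (Polynomial.mem_nthRootsFinset n.succ_pos _).2 ?_⟩) fun g k e => ?_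
    · have := (mem_specialUnitaryGroup_iff.1 g.1.2).2
      rwa [sc' g, det_smul, det_one, mul_one, Fintype.card_fin] at this
    · exact Subtype.ext (Subtype.ext (by rw [sc' g, sc' k, Subtype.mk.inj e]))
  · change ck ω s * sf μ = ω • (1 : Mt n) * (sf μ * ck ω s)
    rw [ck_sf hω, smul_mul_assoc, one_mul]
  · have hP := mem_unitaryGroup_iff'.1 (mem_specialUnitaryGroup_iff.1 P.2).1
    have hQ := mem_unitaryGroup_iff'.1 (mem_specialUnitaryGroup_iff.1 Q.2).1
    have h' : Q.1 * P.1 = ω • (P.1 * Q.1) := by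
      have : Q.1 * P.1 = ω • (1 : Mt n) * (P.1 * Q.1) := congrArg Subtype.val h
      rwa [smul_mul_assoc, one_mul] at this
    have dt : ∀ {A B g : Mt n}, star g * g = 1 → A * g = g * B → B.det = A.det := fun {A B g} a b => by
      have := congrArg det b
      rw [det_mul, det_mul, mul_comm] at this
      exact (mul_left_cancel₀ (right_ne_zero_of_mul_eq_one ((det_mul _ _).symm.trans
        ((congrArg det a).trans det_one))) this).symm
    obtain ⟨c, v, v1, v2⟩ := exists_eig Q.1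
    obtain ⟨g, -, g1, g2, -⟩ := normal hω hP hQ h' v1 v2
    have d1 := (dt g1 g2).trans (mem_specialUnitaryGroup_iff.1 Q.2).2
    have d2 := (mem_specialUnitaryGroup_iff.1 s2).2
    rw [det_ck] at d1 d2
    have c0 : c ≠ 0 := fun h0 => by simp [h0] at d1
    obtain ⟨j, hj, e⟩ := hω.eq_pow_of_pow_eq_one (ξ := s / c) (by
      rw [div_pow, div_eq_one_iff_eq (pow_ne_zero _ c0)]
      exact mul_right_cancel₀ (right_ne_zero_of_mul_eq_one d1) (d2.trans d1.symm))
    obtain ⟨k, ν, k1, k2, k3⟩ := normal hω hP hQ h' (c := s) (v := fun i => g i ⟨j, hj⟩)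
      ((congrFun (congrFun g1 ⟨j, hj⟩) ⟨j, hj⟩).trans (one_apply_eq _)) (funext fun i => by
        refine (congrFun (congrFun g2 i) ⟨j, hj⟩).trans ?_
        rw [ck, mul_diagonal, e, Pi.smul_apply, smul_eq_mul]
        field_simp)
    have d3 := (dt k1 k3).trans (mem_specialUnitaryGroup_iff.1 P.2).2
    rw [det_sf, ← m1] at d3
    obtain rfl := mul_left_cancel₀ (right_ne_zero_of_mul_eq_one m1) d3
    obtain ⟨t, -, t2⟩ := fix_det k1
    refine ⟨⟨_, t2⟩, eq_mul_inv_of_mul_eq (Subtype.ext ?_), eq_mul_inv_of_mul_eq (Subtype.ext ?_)⟩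
    · change P.1 * (t • k) = (t • k) * sf μ
      rw [mul_smul_comm, k3, smul_mul_assoc]
    · change Q.1 * (t • k) = (t • k) * ck ω s
      rw [mul_smul_comm, k2, smul_mul_assoc]

end Pool.Agent.Lib.MP_7f377f_mp.SuTw
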