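import Pool.Agent.Lib.MP_7f377f_mp.G.SwT

/-! Rotation covariance from the stress tensor: continuity and mollifiers. -/

noncomputable section

namespace Pool.Agent.Lib.MP_7f377f_mp.Sw
variable [Pool.Agent.Lib.MP_7f377f_mp.GD]
set_option linter.unusedSectionVars false

open MeasureTheory Filter Topology Set YM7 Pur Wm Lm Wv S3 Function BoundedContinuousFunction
open Ro (Iso rot)
open scoped Pointwise ContDiff

variable {O U : Set R4} {f g u : R4 → ℝ} {k : ℕ} {K L : Fin k → Set R4} {X : Type}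
  [TopologicalSpace X] {p₀ : X} {l : Filter X} {s : ℝ}

theorem cb_cont {F : X → R4 → ℝ} (hl : l ≤ 𝓝 p₀) (hF : Continuous (uncurry F)) (hO : IsCompact O)
    (hs : ∀ᶠ p in l, C1 O (F p)) (h0 : C1 O (F p₀)) :
    ∃ γ : X → CB O, (∀ᶠ p in l, ⇑(γ p).1 = F p) ∧ Tendsto γ l (𝓝 (cb h0)) := by
  classical
  refine ⟨fun p => if h : C1 O (F p) then cb h else 0,
    hs.mono fun p h => by simp only [dif_pos h]; rfl,
    Metric.nhds_basis_closedBall.tendsto_right_iff.2 fun ε ε0 => ?_⟩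
  obtain ⟨v, hv, e⟩ := hO.mem_uniformity_of_prod hF.continuousOn (mem_univ p₀)
    (Metric.dist_mem_uniformity ε0)
  rw [nhdsWithin_univ] at hv
  filter_upwards [hl hv, hs] with q hq h
  rw [dif_pos h]
  refine (dist_le ε0.le).2 fun y => ?_
  by_cases hy : y ∈ O
  · exact (e q hq y hy).le
  · exact ((congrArg₂ dist (c1z h hy) (c1z h0 hy)).trans (dist_self _)).trans_le ε0.le

theorem c1_fl {H G : X → R4 → R4} (hG : Continuous (uncurry G)) (e : ∀ p y, G p (H p y) = y)
    (hH : ∀ p, ContDiff ℝ 1 (H p)) (hf : C1 univ f) (hU : U ∈ 𝓝ˢ (G p₀ '' tsupport f)) :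
    ∀ᶠ p in 𝓝 p₀, C1 U fun y => f (H p y) :=
  (hf.1.isCompact.eventually_forall_of_forall_eventually (P := fun p z => G p z ∈ U) fun _ hz =>
    hG.continuousAt.eventually_mem (nhds_le_nhdsSet (mem_image_of_mem _ hz) hU)).mono fun p hp =>
      have m : (tsupport fun y => f (H p y)) ⊆ G p '' tsupport f := fun y hy =>
        ⟨_, tsupport_comp (hH p).continuous hy, e p y⟩
      ⟨(hf.1.isCompact.image (hG.comp (.prodMk_right p))).of_isClosed_subset (isClosed_tsupport _) m,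
        hf.2.1.comp (hH p), m.trans (image_subset_iff.2 hp)⟩

theorem small {B C : Set R4} (hB : IsCompact B) (hC : IsCompact C) (hU : U ∈ 𝓝ˢ B) :
    ∀ᶠ s : ℝ in 𝓝[>] 0, ∀ z ∈ B, ∀ y, s⁻¹ • (y - z) ∈ C → y ∈ U := by
  filter_upwards [nhdsWithin_le_nhds ((hB.prod hC).eventually_forall_of_forall_eventually
    (x₀ := (0 : ℝ)) (P := fun s p => p.1 + s • p.2 ∈ U) fun p hp =>
      (by fun_prop : ContinuousAt (fun q : ℝ × R4 × R4 => q.2.1 + q.1 • q.2.2) (0, p)).eventually_mem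
        (by simpa using nhds_le_nhdsSet hp.1 hU)), self_mem_nhdsWithin] with s h (s0 : 0 < s) z hz y hy
  simpa [smul_inv_smul₀ s0.ne'] using h (z, _) ⟨hz, hy⟩

/-- mollification -/
def mo (g u : R4 → ℝ) (s : ℝ) (y : R4) : ℝ := ∫ w, g (y - s • w) * u w

theorem mo_cont (hg : Continuous g) (hu : C1 univ u) : Continuous (uncurry (mo g u)) := by
  have := hu.2.1.continuous
  refine (continuous_parametric_integral_of_continuous (μ := volume)
    (f := fun (p : ℝ × R4) w => g (p.2 - p.1 • w) * u w) (by fun_prop) hu.1.isCompact).congr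
    fun p => setIntegral_eq_integral_of_forall_compl_eq_zero fun w hw => ?_
  rw [c1z (c1s hu) hw, mul_zero]

theorem mo_zero (h1 : ∫ w, u w = 1) : mo g u 0 = g := funext fun y => by
  simp [mo, integral_const_mul, h1]

theorem mo_eq (s0 : 0 < s) : (fun y => ∫ z, g z * sc s u (y - z)) = (s ^ 4 : ℝ) • mo g u s := by
  funext y
  have := Measure.integral_comp_inv_smul_of_nonneg volume (fun w => g (y - s • w) * u w) s0.le
  simp only [smul_inv_smul₀ s0.ne', finrank_euclideanSpace_fin] at this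
  rw [← integral_sub_left_eq_self _ _ y]
  simpa only [sub_sub_cancel] using! this

theorem mo_pd (hf : Ds univ f) (hu : Ds univ u) (ν : Fin 4) :
    mo f (pd ν u) s = s • mo (pd ν f) u s := by
  funext y
  have a := hf.1.continuous
  have b := (hf.pd ν).1.continuous
  have c := hu.1.continuous
  have d := (hu.pd ν).1.continuous
  have := integral_bilinear_hasLineDerivAt_right_eq_neg_left_of_integrable (μ := volume)
    (B := .mul ℝ ℝ) (f := fun w => f (y - s • w)) (f' := fun w => -s * pd ν f (y - s • w))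
    (g := u) (g' := pd ν u) (v := ax ν 1)
    (Continuous.integrable_of_hasCompactSupport (by fun_prop) hu.2.1.mul_left)
    (Continuous.integrable_of_hasCompactSupport (by fun_prop) (hu.pd ν).2.1.mul_left)
    (Continuous.integrable_of_hasCompactSupport (by fun_prop) hu.2.1.mul_left)
    (fun w _ => by
      have := HasDerivAt.scomp (0 : ℝ) (h := fun t => t * -s)
        (by simpa using pd_has hf.1 ν (y - s • w)) (hasDerivAt_mul_const (-s))
      refine this.congr_of_eventuallyEq (.of_forall fun t => congrArg f ?_)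
      module) fun w _ => pd_has hu.1 ν w
  simpa [mo, mul_assoc, integral_neg, integral_const_mul] using this

theorem mo_ds (hg : C1 univ g) (hu : Ds univ u) (hU : U ∈ 𝓝ˢ (tsupport g)) :
    ∀ᶠ s in 𝓝[>] 0, tsupport g + tsupport (sc s u) ⊆ U ∧ Ds U (mo g u s) := by
  filter_upwards [small hg.1 hu.2.1 hU, self_mem_nhdsWithin] with s h (s0 : 0 < s)
  have v := ds_sc hu.self s0
  have m : tsupport g + tsupport (sc s u) ⊆ U := by
    rintro _ ⟨z, hz, w, hw, rfl⟩
    exact h z hz _ (by simpa using v.2.2 hw)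
  have c := c1_cv hg (dc v.univ)
  have := (S3.Id U).smul_of_tower_mem (s ^ 4)⁻¹ (x := ⟨_, v.2.1.contDiff_convolution_right (.mul ℝ ℝ)
    hg.2.1.continuous.locallyIntegrable v.1⟩) ⟨Subtype.prop _, c.1, c.2.2.trans m⟩
  rw [show mo g u s = (s ^ 4)⁻¹ • fun y => ∫ z, g z * sc s u (y - z) by
    rw [mo_eq s0, inv_smul_smul₀ (by positivity)]]
  exact ⟨m, this⟩

theorem exists_mo : ∃ u, Ds univ u ∧ ∫ w, u w = 1 :=
  let b : ContDiffBump (0 : R4) := ⟨1, 2, one_pos, one_lt_two⟩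
  ⟨b.normed volume, ⟨b.contDiff_normed, b.hasCompactSupport_normed, subset_univ _⟩, b.integral_normed⟩

variable {V P : Type} [NormedAddCommGroup V] [NormedSpace ℝ V] [CommRing P] [Algebra ℂ P]
  {Φ : Fil V} {N : Net P} {x : V → (R4 → ℝ) → P} {W : P →ₗ[ℂ] ℂ} {ρ : Iso →* V →ₗ[ℝ] V}
  {A : ℝ → V ≃ₗ[ℝ] V} {S : Cor V} {Z : P}

namespace Rg
variable (h : Rg Φ N x W ρ A S)
include h

theorem sf (c : V) (t : ℝ) (hf : C1 O f) (hZ : Z ∈ N.loc Oᶜ) :
    W (x c (t • f) * Z) = t * W (x c f * Z) := by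
  simpa [h.lf0 c hZ] using h.lf c t (Cb _).zero_mem hf hZ

theorem cpt (hZ : Z ∈ N.loc O) : ∃ B, IsCompact B ∧ B ⊆ O ∧ Z ∈ N.loc B := by
  rw [h.gen.loc] at hZ
  induction hZ using Submodule.span_induction with
  | mem Z hZ =>
    obtain ⟨m, f, q, h1, h2, rfl⟩ := hZ
    choose a ha using fun i => (h2 i).2
    exact ⟨_, isCompact_iUnion fun i => (h1.1 i).1, iUnion_subset fun i => (h2 i).1, by
      simpa only [ha] using gen_mem h.gen a h1 (subset_iUnion fun i => tsupport (f i))⟩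
  | zero => exact ⟨∅, isCompact_empty, empty_subset _, zero_mem _⟩
  | add X Y _ _ a b =>
    obtain ⟨B, a1, a2, a3⟩ := a
    obtain ⟨B', b1, b2, b3⟩ := b
    exact ⟨_, a1.union b1, union_subset a2 b2,
      add_mem (N.mono a3 subset_union_left) (N.mono b3 subset_union_right)⟩
  | smul t X _ a => exact a.imp fun _ e => ⟨e.1, e.2.1, Submodule.smul_mem _ _ e.2.2⟩

theorem nbh (hL : ∀ i, IsCompact (L i)) (hd : Pairwise fun i j => Disjoint (L i) (L j))
    (hZ : Z ∈ N.loc (⋃ i, L i)ᶜ) : ∃ K : Fin k → Set R4, (∀ i, IsCompact (K i)) ∧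
      (Pairwise fun i j => Disjoint (K i) (K j)) ∧ Z ∈ N.loc (⋃ i, K i)ᶜ ∧ ∀ i, K i ∈ 𝓝ˢ (L i) := by
  obtain ⟨B, b1, b2, b3⟩ := h.cpt hZ
  obtain ⟨O, o1, o2⟩ := Pairwise.exists_mem_filter_of_disjoint (l := fun i => 𝓝ˢ (L i))
    fun i j e => disjoint_nhdsSet_nhdsSet (hL i).isClosed (hL j).isClosed (hd e)
  choose K k1 k2 k3 using fun i => exists_compact_between (hL i)
    (isOpen_interior.inter b1.isClosed.isOpen_compl) (subset_inter
      (subset_interior_iff_mem_nhdsSet.2 (o1 i)) ((subset_iUnion L i).trans (subset_compl_comm.1 b2)))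
  have m := fun i => (k3 i).trans (inter_subset_left.trans interior_subset)
  exact ⟨K, k1, fun i j e => (o2 e).mono (m i) (m j), N.mono b3 (subset_compl_comm.1
    (iUnion_subset fun i => (k3 i).trans inter_subset_right)),
    fun i => subset_interior_iff_mem_nhdsSet.1 (k2 i)⟩

theorem cont {F : Fin k → X → R4 → ℝ} (c : Fin k → V) (hL : ∀ i, IsCompact (L i))
    (hd : Pairwise fun i j => Disjoint (L i) (L j)) (hZ : Z ∈ N.loc (⋃ i, L i)ᶜ) (hl : l ≤ 𝓝 p₀)
    (hF : ∀ i, Continuous (uncurry (F i))) (hs : ∀ i, ∀ U ∈ 𝓝ˢ (L i), ∀ᶠ p in l, C1 U (F i p))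
    (h0 : ∀ i, C1 (L i) (F i p₀)) :
    Tendsto (fun p => W ((∏ i, x (c i) (F i p)) * Z)) l (𝓝 (W ((∏ i, x (c i) (F i p₀)) * Z))) := by
  obtain ⟨K, k1, k2, k3, k4⟩ := h.nbh hL hd hZ
  obtain ⟨M, hM⟩ := h.cmm c k1 k2 k3
  choose γ g1 g2 using fun i => cb_cont hl (hF i) (k1 i) (hs i _ (k4 i))
    (c1m (h0 i) (subset_of_mem_nhdsSet (k4 i)))
  exact (((M.coe_continuous.tendsto _).comp (tendsto_pi_nhds.2 g2)).congr'
    ((eventually_all.2 g1).mono fun p hp => by simp only [comp_apply, hM, hp])).trans_eq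
      (congrArg _ (hM _))

theorem intg (c : Fin k → V) {v : Fin k → R4 → ℝ} (hv : Adm v) (hg : C1 univ g)
    (hZ : Z ∈ N.loc Oᶜ) (hO : ∀ i, ∀ z ∈ tsupport g, ∀ y, y - z ∈ tsupport (v i) → y ∈ O) :
    Integrable fun z => g z * W ((∏ i, x (c i) fun y => v i (y - z)) * Z) := by
  refine (ContinuousOn.integrableOn_compact hg.1 (.mul (Complex.continuous_ofReal.comp
    hg.2.1.continuous).continuousOn fun z hz => ?_)).integrable_of_forall_notMem_eq_zero
      fun z hz => by simp [c1z (c1s hg) hz]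
  have a := fun i => (hv.1 i).2.continuous
  have e := fun i U hU => c1_fl (H := fun z y => y - z) (G := fun z y => y + z) (p₀ := z) (U := U)
    (by fun_prop) (fun p y => sub_add_cancel y p) (by fun_prop) (c1m (c1_adm hv i) (subset_univ _)) hU
  exact h.cont (F := fun i z y => v i (y - z)) c (fun i => (hv.1 i).1.isCompact.image (by fun_prop))
    (fun i j n => (disjoint_image_iff (add_left_injective z)).2 (hv.2 n))
    (N.mono hZ (compl_subset_compl.2 (iUnion_subset fun i => image_subset_iff.2 fun y hy =>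
      hO i z hz _ (by simpa using hy)))) nhdsWithin_le_nhds (fun i => by fun_prop)
    (fun i U hU => nhdsWithin_le_nhds (e i U hU)) fun i =>
      have m := (e i _ univ_mem).self_of_nhds
      ⟨m.1, m.2.1, fun y hy => ⟨_, tsupport_comp (θ := (· - z)) (by fun_prop) hy, sub_add_cancel ..⟩⟩

theorem mol (c : V) {v : R4 → ℝ} (n : ℕ) (hf : C1 univ f) (hu : Ds univ u) (hg : C1 (tsupport f) g)
    (hv : Ds univ v) (h1 : ∫ w, v w = 1) (e : ∀ s, mo f u s = s ^ n • mo g v s)
    (hZ : Z ∈ N.loc (tsupport f)ᶜ) : Tendsto (fun s : ℝ =>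
      (∫ z, f z * W (x c (fun y => u (s⁻¹ • (y - z))) * Z)) / s ^ (4 + n)) (𝓝[>] 0)
      (𝓝 (W (x c g * Z))) := by
  have g' := c1m hg (subset_univ _)
  have := h.cont (F := fun _ : Fin 1 => mo g v) (fun _ => c) (L := fun _ => tsupport f)
    (fun _ => hf.1) Subsingleton.pairwise (by rwa [iUnion_const]) (nhdsWithin_le_nhds (s := Ioi 0))
    (fun _ => mo_cont hg.2.1.continuous (dc hv)) (fun _ U hU =>
      (mo_ds g' hv (nhdsSet_mono hg.2.2 hU)).mono fun s m => dc m.2) fun _ => by rwa [mo_zero h1]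
  simp only [Fin.prod_univ_one, mo_zero h1] at this
  obtain ⟨B, b1, b2, b3⟩ := h.cpt hZ
  have hU := b1.isClosed.isOpen_compl.mem_nhdsSet.2 (subset_compl_comm.1 b2)
  refine this.congr' ?_
  filter_upwards [mo_ds hf hu hU, mo_ds g' hv (nhdsSet_mono hg.2.2 hU), self_mem_nhdsWithin]
    with s m m' (s0 : 0 < s)
  rw [(h.conv c hf (dc (ds_sc hu s0).univ) (N.mono b3 (subset_compl_comm.1 m.1))).2, mo_eq s0, e,
    smul_smul, ← pow_add, h.sf c _ (dc m'.2) (by rwa [compl_compl]), Complex.ofReal_pow,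
    mul_div_cancel_left₀ _ (by simp [s0.ne'])]

end Rg

end Pool.Agent.Lib.MP_7f377f_mp.Sw
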