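import Pool.Agent.Lib.MP_7f377f_mp.G.TwMeasB

/-! Twisted tori: the basic facts in the form used by the step. -/

noncomputable section

set_option linter.unusedSectionVars false
variable [Pool.Agent.Lib.MP_7f377f_mp.GD]

namespace Pool.Agent.Lib.MP_7f377f_mp.RG.Q4

open Finset MeasureTheory

section vec

variable {n : Fin 4 → ℕ} {W : Cf} {U : Conf}

/-- periodic up to central gauge maps -/
def PerQ (n : Fin 4 → ℕ) (U : Conf) : Prop := ∀ v, Cq U (sh (pv n v) U)

/-- the same for complex fields -/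
def PerC (n : Fin 4 → ℕ) (W : Cf) : Prop := ∀ v, ∃ h, Cen h ∧ sh (pv n v) W = gS h W

theorem PerQ.cC (h : PerQ n U) : PerC n (cC U) := fun v => by
  obtain ⟨k, hk, e⟩ := h v
  exact ⟨k, hk, by rw [sh_cC, e, cC_gS]⟩

theorem PerC.eq {α : Type} {F : Cf → α} (h : PerC n W) (hF : ∀ k W, Cen k → F (gS k W) = F W)
    (v : St) : F (sh (pv n v) W) = F W := by
  obtain ⟨k, hk, e⟩ := h v
  rw [e, hF k W hk]

/-- the same at the site `y` -/
theorem PerC.at {α : Type} {F : Cf → α} (h : PerC n W) (hF : ∀ k W, Cen k → F (gS k W) = F W)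
    (y v : St) : F (sh (y + pv n v) W) = F (sh y W) := by
  obtain ⟨k, hk, e⟩ := h v
  rw [← sh_sh, e, sh_gS, hF _ _ (hk.sh y)]

theorem PerQ.at (h : PerQ n U) (y v : St) : Cq (sh y U) (sh (y + pv n v) U) := by
  rw [← sh_sh]
  exact (h v).sh y

theorem PerQ.sh (h : PerQ n U) (y : St) : PerQ n (sh y U) := fun v => by
  rw [sh_sh, add_comm]
  exact h.at y v

theorem PerC.sh (h : PerC n W) (y : St) : PerC n (sh y W) := fun v => by
  obtain ⟨k, hk, e⟩ := h v
  exact ⟨_, hk.sh y, by rw [sh_sh, add_comm, ← sh_sh, e, sh_gS]⟩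

theorem pv_neg (n : Fin 4 → ℕ) (v : St) : pv n (-v) = -pv n v := funext fun _ => mul_neg _ _

theorem pv_add (n : Fin 4 → ℕ) (v w : St) : pv n (v + w) = pv n v + pv n w :=
  funext fun _ => mul_add _ _ _

theorem pv_zero (n : Fin 4 → ℕ) : pv n 0 = 0 := funext fun _ => mul_zero _

theorem qv_add' {M : Fin 4 → ℕ} (hM : ∀ i, M i ≠ 0) (x v : St) :
    qv M (x + pv M v) = qv M x + v := by
  funext i
  have h : (M i : ℤ) ≠ 0 := by exact_mod_cast hM i
  simp only [qv, pv, Pi.add_apply]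
  rw [add_right_comm, Int.add_mul_ediv_left _ _ h]

end vec

variable [Tws] {n l : ℕ} {x y : St} {U V : Conf}

theorem sd_ne (hn : n ≠ 0) (i : Fin 4) : sd n i ≠ 0 := mul_ne_zero hn (Tws.odd i).pos.ne'

theorem pv_sd0 (v : St) : pv (sd 0) v = 0 := funext fun i => by simp [pv, sd]

theorem qv_sd0 (x : St) : qv (sd 0) x = 0 := funext fun i => by simp [qv, sd]

theorem coc_rlT (n : ℕ) (e : Lk) : coc (sd n) Tws.z (rlT n e) = 1 := by
  rw [coc_eq, rlT, rcT, qv_rcv', zb_zero_left]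

theorem pcT_rlT (n : ℕ) (U : Conf) (e : Lk) : pcT n U (rlT n e) = U (rlT n e) := by
  rw [pcT_apply, coc_rlT, rlT_rlT, OneMemClass.coe_one, one_mul]

theorem perT_pc (n : ℕ) (U : Conf) : PerT n (pcT n U) := funext fun e => by
  rw [pcT_apply, pcT_rlT, pcT_apply]

theorem sh_zero' {α : Type} (U : Lk → α) : sh 0 U = U := funext fun e => by simp [sh]

theorem sh_pcT' (n : ℕ) (v : St) (U : Conf) :
    sh (pv (sd n) v) (pcT n U) = gauge Inv.inv (omT n v) (pcT n U) := by
  rcases eq_or_ne n 0 with rfl | hn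
  · rw [pv_sd0, sh_zero']
    exact (Ms.gauge_one (fun y => by simp [omT, qv_sd0, zb_zero_right]) _).symm
  funext e
  have : coc (sd n) Tws.z (e.1 + pv (sd n) v, e.2) = (zb Tws.z v (qv (sd n) e.1))⁻¹ *
      coc (sd n) Tws.z (e.1, e.2) * zb Tws.z v (qv (sd n) (e.1 + un e.2)) := by
    simp only [coc_eq]
    rw [add_right_comm, qv_add' (sd_ne hn), qv_add' (sd_ne hn), add_sub_add_right_eq_sub,
      zb_add_left, zb_sub_right _ v, mul_comm (zb _ v _)⁻¹, mul_assoc, mul_comm (zb _ v _)⁻¹]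
  simp only [sh, pcT, gauge, omT, rcT_add, this, Subgroup.coe_mul,
    InvMemClass.coe_inv, inv_inv, mul_assoc]
  rw [zc_comm _ (U _)]

theorem PerT.per (hU : PerT n U) (v : St) :
    sh (pv (sd n) v) U = RG.gauge Inv.inv (omT n v) U := by rw [← hU, sh_pcT']

theorem perT_of (h : ∀ v, sh (pv (sd n) v) U = gauge Inv.inv (omT n v) U) : PerT n U :=
  funext fun e => by
    have h1 := congrFun (h (qv (sd n) e.1)) (rlT n e)
    have h2 := congrFun (sh_pcT' n (qv (sd n) e.1) U) (rlT n e)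
    rw [gauge, pcT_rlT] at h2
    simp only [sh, gauge, rlT, ← rcT_spec] at h1 h2
    rw [h1, h2]

theorem PerT.pc (hU : PerT n U) : pcT n U = U := hU

theorem PerT.perQ (hU : PerT n U) : PerQ (sd n) U := fun v => ⟨_, cen_omT n v, hU.per v⟩

theorem PerT.perC (hU : PerT n U) : PerC (sd n) (cC U) := hU.perQ.cC

/-- shifts by congruent vectors -/
theorem PerT.cg (hU : PerT n U) (h : CgT n x y) : Cq (sh y U) (sh x U) := by
  obtain ⟨v, rfl⟩ := h.ex
  exact hU.perQ.at y v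

theorem PerT.rc (hU : PerT n U) (x : St) : Cq (sh x U) (sh (rcT n x) U) := hU.cg (cgT_rc n x)

theorem PerT.tr (hU : PerT n U) (v : St) : PerT n (Q4.shT n v U) := by
  rcases eq_or_ne n 0 with rfl | hn
  · funext e
    rw [pcT_apply, coc_eq, qv_sd0, zb_zero_left, OneMemClass.coe_one, one_mul]
    have := rcT_spec 0 e.1
    rw [pv_sd0, add_zero] at this
    rw [rlT, ← this]
  refine perT_of fun w => ?_
  rw [Q4.shT, Ms.sh_gauge, RG.sh_sh, add_comm, ← RG.sh_sh, hU.per, Ms.sh_gauge,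
    Mx.gauge_gauge, Mx.gauge_gauge]
  congr 1
  funext x
  simp only [hT, omT, ← Subgroup.coe_mul]
  rw [add_right_comm, qv_add' (sd_ne hn), qv_add' (sd_ne hn), add_sub_add_right_eq_sub,
    zb_add_left, zb_sub_right _ w, mul_assoc, mul_comm (zb _ w (qv _ (x + v))),
    mul_inv_cancel_right, mul_comm]

theorem PerT.tr_cg (hU : PerT n U) (h : CgT n x y) : Cq (Q4.shT n y U) (Q4.shT n x U) :=
  ((cq_shT n y U).symm.trans (hU.cg h)).trans (cq_shT n x U)

theorem PerT.fq_rc (hU : PerT n U) (x : St) (μ ν : Fin 4) : fq U (rcT n x) μ ν = fq U x μ ν := by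
  have := (hU.rc x).fq 0 μ ν
  rwa [Mx.fq_sh, Mx.fq_sh, zero_add, zero_add] at this

/-- twisted periodic fields which agree on the reduced links -/
theorem PerT.eq_of (hU : PerT n U) (hV : PerT n V) {e : Lk} (h : U (rlT n e) = V (rlT n e)) :
    U e = V e := by rw [hU.rl e, hV.rl e, h]

theorem pcT_of {e : Lk} (h : U (rlT n e) = V (rlT n e)) : pcT n U e = pcT n V e := by
  rw [pcT_apply, pcT_apply, h]

theorem shT_apply (n : ℕ) (v : St) (U : Conf) (e : Lk) : shT n v U e =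
    hT n v e.1 * (hT n v (e.1 + un e.2))⁻¹ * U (e.1 + v, e.2) := (cen_hT n v).gauge_apply _ e

theorem shT_of {v : St} {e : Lk} (h : U (e.1 + v, e.2) = V (e.1 + v, e.2)) :
    shT n v U e = shT n v V e := by rw [shT_apply, shT_apply, h]

theorem cq_back (n : ℕ) (v : St) (U : Conf) : Cq U (shT n (-v) (shT n v U)) := by
  have := shT_shT n (-v) v U
  rwa [neg_add_cancel, shT_zero] at this

theorem PerT0.sh {α : Type} {A : Lk → α} (h : PerT0 n A) (y : St) : PerT0 n (sh y A) := fun v => by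
  rw [sh_sh, add_comm, ← sh_sh, h v]

theorem PerT0.map {α β : Type} {A : Lk → α} (h : PerT0 n A) (φ : α → β) :
    PerT0 n fun e => φ (A e) := PerV.map h φ

theorem PerT0.fi {α : Type} {A : Lk → α} (h : PerT0 (LL l * n) A) : PerV (fi l (sd n)) A :=
  sd_mul l n ▸ h

theorem perT0_fi {α : Type} {A : Lk → α} (h : PerV (fi l (sd n)) A) : PerT0 (LL l * n) A := by
  rwa [PerT0, sd_mul]

theorem PerT0.sh_rc {α : Type} {A : Lk → α} (h : PerT0 n A) (x : St) :
    RG.sh (rcT n x) A = RG.sh x A :=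
  h.sh_cg (cgT_rc n x)

theorem pst_of {α : Type} {u : St → α} (h : ∀ x v, u (x + pv (sd n) v) = u x) : PST n u :=
  PST_iff.2 fun _ y hc => by
    obtain ⟨v, rfl⟩ := hc.ex
    exact h y v

theorem pst_const {α : Type} (a : α) : PST n fun _ => a := fun _ => rfl

theorem rc_box_t (hn : Odd n) (h : x ∈ box (n / 2)) : rcT n x = x := rcT_id hn (box_sub_domT n h)

theorem zero_mem_domT (n : ℕ) : (0 : St) ∈ domT n := box_sub_domT n (zero_mem_box _)

theorem domv_cu_t (n : ℕ) : domv (sd n) = domT n := rfl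

theorem domv_fi_t (l n : ℕ) : domv (fi l (sd n)) = domT (LL l * n) := by rw [domT, sd_mul]

theorem rcv_fi_t (l n : ℕ) : rcv (fi l (sd n)) = rcT (LL l * n) := by rw [rcT, sd_mul]

theorem pcv_fi_t {α : Type} (l n : ℕ) : pcv (α := α) (fi l (sd n)) = pcT0 (LL l * n) := by
  rw [pcT0, sd_mul]

theorem pcT0_apply {α : Type} (n : ℕ) (A : Lk → α) (e : Lk) : pcT0 n A e = A (rcT n e.1, e.2) := rfl

theorem perV_cu_t {α : Type} {A : Lk → α} : PerV (sd n) A ↔ PerT0 n A := Iff.rfl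

/-- invariance under the central gauge maps which preserve the twisted periodicity -/
def Ci {α : Type} (n : ℕ) (F : Conf → α) : Prop :=
  ∀ U V, Cq U V → PerT n U → PerT n V → F V = F U

theorem Cq.pcT (h : Cq U V) (hU : PerT n U) (hV : PerT n V) : Cq (pcT n U) (pcT n V) := by
  rwa [hU.pc, hV.pc]

theorem lt_sd {a : ℕ} (h : a < n) (i : Fin 4) : a < sd n i := h.trans_le (le_sd n i)

/-- congruent sites have equal values -/
def _root_.Pool.Agent.Lib.MP_7f377f_mp.RG.Ms.PS_t {α : Type} (n : ℕ) (u : St → α) : Prop :=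
  ∀ x y, CgT n x y → u x = u y

namespace Mx

theorem domv_cu_t (n : ℕ) : domv (sd n) = domT n := rfl

theorem PS_iff_t {α : Type} {u : St → α} : PST n u ↔ Ms.PS_t n u := PST_iff

theorem PS_pcs_t {α : Type} (n : ℕ) (w : St → α) : Ms.PS_t n (pcsT n w) := PS_iff_t.1 (PST_pcsT n w)

theorem cg_rc_t (n : ℕ) (x : St) : CgT n (rcT n x) x := cgT_rc n x

theorem cg_of_rc_t (h : rcT n x = rcT n y) : CgT n x y := rcT_iff.1 h

theorem pc_gauge_t {u : St → S3} (hu : Ms.PS_t n u) (U : Conf) :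
    pcT n (gauge Inv.inv u U) = gauge Inv.inv u (pcT n U) := pcT_gauge (PS_iff_t.2 hu) U

theorem cont_pc_t (n : ℕ) : Continuous fun U : Conf => pcT n U := cont_pcT n

theorem meas_pcs_t {α : Type} [MeasurableSpace α] (n : ℕ) : Measurable (pcsT (α := α) n) :=
  meas_pcsT n

/-- reduction of links -/
abbrev rl_t (n : ℕ) (e : Lk) : Lk := rlT n e

theorem rl_rl_t (n : ℕ) (e : Lk) : rlT n (rlT n e) = rlT n e := rlT_rlT n e

theorem rel_sh_t (n : ℕ) (v : St) (i j : Lk) :
    rlT n (i.1 + v, i.2) = rlT n (j.1 + v, j.2) ↔ rlT n i = rlT n j := by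
  simp only [rlT_iff, cgT_add_iff]

theorem tree_rl_t (l n : ℕ) (e : Lk) : tree l (rlT (LL l * n) e) ↔ tree l e := tree_rlT l n e

theorem up_mem_t (hn : Odd n) {y t : St} (hy : y ∈ domT n) (ht : t ∈ box l) :
    t + up l y ∈ domT (LL l * n) := by
  rwa [mem_fineT hn, yo_add_up, Op.yo_eq_zero.2 ht, zero_add]

theorem prod_sites_t {M : Type} [CommMonoid M] (hn : Odd n) (g : St → M) :
    ∏ x ∈ domT (LL l * n), g x = ∏ y ∈ domT n, ∏ t ∈ box l, g (t + up l y) := by
  rw [← prod_product' (s := domT n)]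
  refine prod_bij' (fun x _ => (yo l x, x - up l (yo l x))) (fun p _ => p.2 + up l p.1)
    ?_ ?_ ?_ ?_ ?_
  · exact fun x hx => mem_product.2 ⟨(mem_fineT hn).1 hx, sub_up_yo_mem l _⟩
  · exact fun p hp => up_mem_t hn (mem_product.1 hp).1 (mem_product.1 hp).2
  · exact fun x _ => sub_add_cancel _ _
  · intro p hp
    simp only [yo_add_up, Op.yo_eq_zero.2 (mem_product.1 hp).2, zero_add, add_sub_cancel_right]
  · exact fun x _ => by rw [sub_add_cancel]

theorem prod_links_t {M : Type} [CommMonoid M] (hn : Odd n) (g : Lk → M) :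
    ∏ e ∈ ldomT (LL l * n), g e = ∏ y ∈ domT n, ∏ t ∈ lbox l, g (t.1 + up l y, t.2) := by
  rw [prod_ldomT, prod_sites_t hn]
  simp only [prod_lbox]

theorem sum_links_t {M : Type} [AddCommMonoid M] (hn : Odd n) (g : Lk → M) :
    ∑ e ∈ ldomT (LL l * n), g e = ∑ y ∈ domT n, ∑ t ∈ lbox l, g (t.1 + up l y, t.2) :=
  prod_links_t (M := Multiplicative M) hn g

end Mx

namespace Cov

theorem yo_rc_t (hn : Odd n) (x : St) : yo l (rcT (LL l * n) x) = rcT n (yo l x) := yo_rcT hn l x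

theorem lnk_pcs_t (hn : Odd n) (v : VB) : lnk l (pcsT n v) = pcT0 (LL l * n) (lnk l v) := by
  funext f
  have e2 : rcT (LL l * n) f.1 - up l (yo l (rcT (LL l * n) f.1)) = f.1 - up l (yo l f.1) := by
    conv_rhs => rw [rcT_spec (LL l * n) f.1, ← up_pvT, yo_add_up, RG.up_add,
      add_sub_add_right_eq_sub]
  simp only [lnk, pcsT, pcT0_apply, ← yo_rcT hn, e2]

theorem vU_pcs_t (hn : Odd n) (v : VB) : vU l (pcsT n v) = pcT0 (LL l * n) (vU l v) :=
  funext fun f => congrArg Prod.fst (congrFun (lnk_pcs_t hn v) f)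

theorem vz_pcs_t (hn : Odd n) (v : VB) : vz l (pcsT n v) = pcT0 (LL l * n) (vz l v) :=
  funext fun f => congrArg (·.2.1) (congrFun (lnk_pcs_t hn v) f)

theorem vs_pcs_t (hn : Odd n) (v : VB) : vs l (pcsT n v) = pcT0 (LL l * n) (vs l v) :=
  funext fun f => congrArg (·.2.2) (congrFun (lnk_pcs_t hn v) f)

end Cov

end Pool.Agent.Lib.MP_7f377f_mp.RG.Q4
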