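import Pool.Agent.Lib.MP_7f377f_mp.G.Q4Model
import Pool.Agent.Lib.MP_7f377f_mp.G.TwBase

/-! The symmetric and robust block spin transformation in four dimensions. -/

noncomputable section

set_option linter.unusedSectionVars false
variable [Pool.Agent.Lib.MP_7f377f_mp.GD]
variable [Pool.Agent.Lib.MP_7f377f_mp.RG.Q4.Tws]

namespace Pool.Agent.Lib.MP_7f377f_mp.RG.Q4

open Finset MeasureTheory
open scoped ENNReal Pointwise

/-- neighbourhood of radius `R` in the torus of side `n` -/
def tb_t (n R : ℕ) (X : Finset St) : Finset St := (X + box R).image (rcT n)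

end Pool.Agent.Lib.MP_7f377f_mp.RG.Q4
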