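import Pool.Agent.Lib.MP_7f377f_mp.G.Q4Kit
import Pool.Agent.Lib.MP_7f377f_mp.G.TwBase
import Pool.Agent.Lib.MP_7f377f_mp.G.TqModel

/-! Cubes (finite difference jets), cutoffs, polymers and tours: definitions. -/

noncomputable section

set_option linter.unusedSectionVars false
variable [Pool.Agent.Lib.MP_7f377f_mp.GD]
variable [Pool.Agent.Lib.MP_7f377f_mp.RG.Q4.Tws]

namespace Pool.Agent.Lib.MP_7f377f_mp.RG.Q4

open Finset
open scoped Pointwise

/-- distance at most `D` in the torus of side `n` -/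
def nearT_t (n D : ℕ) (x y : St) : Prop := ∃ v : St, y - x - pv (sd n) v ∈ box D

/-- a closed tour of length `k` with steps at most `D` whose balls of radius `D` cover `X` -/
def Tour_t (n D : ℕ) (X : Finset St) (k : ℕ) : Prop :=
  0 < k ∧ ∃ p : ℕ → St, p k = p 0 ∧ (∀ i < k, nearT_t n D (p i) (p (i + 1))) ∧
    ∀ x ∈ X, ∃ i < k, nearT_t n D (p i) x

/-- size of a set at scale `D` -/
def tau_t (n D : ℕ) (X : Finset St) : ℕ := sInf {k | Tour_t n D X k}

/-- coarse sites of the blocks which meet `X` -/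
def dn_t (l n : ℕ) (X : Finset St) : Finset St := X.image fun x => rcT n (yo l x)

end Pool.Agent.Lib.MP_7f377f_mp.RG.Q4
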