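import Pool.Agent.Lib.MP_7f377f_mp.G.Q4Tau
import Pool.Agent.Lib.MP_7f377f_mp.G.TwBase
import Pool.Agent.Lib.MP_7f377f_mp.G.TqKit

/-! Torus geometry: centred residues, neighbourhoods and the tour size `tau`. -/

noncomputable section

set_option linter.unusedSectionVars false
variable [Pool.Agent.Lib.MP_7f377f_mp.GD]
variable [Pool.Agent.Lib.MP_7f377f_mp.RG.Q4.Tws]

namespace Pool.Agent.Lib.MP_7f377f_mp.RG.Q4

open Finset
open scoped Pointwise

variable {n D : ℕ}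

/-! centred residues -/

theorem rc_exists_t (n : ℕ) (x : St) : ∃ v : St, rcT n x = x + pv (sd n) v := by
  refine ⟨-qv (sd n) x, ?_⟩
  rw [pv_neg, ← sub_eq_add_neg, eq_sub_iff_add_eq]
  exact (rcT_spec n x).symm

theorem rc_add_smul_t (n : ℕ) (x v : St) : rcT n (x + pv (sd n) v) = rcT n x :=
  rcT_add x v

theorem rc_rc_t (n : ℕ) (x : St) : rcT n (rcT n x) = rcT n x := by
  obtain ⟨v, hv⟩ := rc_exists_t n x
  conv_lhs => rw [hv]
  exact rc_add_smul_t n x v

theorem rc_add_rc_t (n : ℕ) (x y : St) : rcT n (rcT n x + y) = rcT n (x + y) := by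
  obtain ⟨v, hv⟩ := rc_exists_t n x
  rw [hv, add_right_comm, rc_add_smul_t]

theorem rc_mem_t (hn : Odd n) (x : St) : rcT n x ∈ domT n := rcT_mem hn x

theorem rc_eq_t (hn : Odd n) {x : St} (h : x ∈ domT n) : rcT n x = x := rcT_id hn h

theorem rc_yo_t (l : ℕ) (x : St) : rcT n (yo l (rcT (LL l * n) x)) = rcT n (yo l x) := by
  obtain ⟨v, hv⟩ := rc_exists_t (LL l * n) x
  have : pv (sd (LL l * n)) v = up l (pv (sd n) v) := (up_pvT l n v).symm
  rw [hv, this, yo_add_up, rc_add_smul_t]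

/-! the distance in the torus -/

theorem nearT_iff_t {x y : St} : nearT_t n D x y ↔
    ∃ v : St, ∀ i, -(D : ℤ) ≤ y i - x i - sd n i * v i ∧ y i - x i - sd n i * v i ≤ D := by
  simp only [nearT_t, mem_box, Pi.sub_apply, pv]

theorem nearT_t.refl (n D : ℕ) (x : St) : nearT_t n D x x :=
  nearT_iff_t.2 ⟨0, fun i => by simp⟩

theorem nearT_t.symm {x y : St} (h : nearT_t n D x y) : nearT_t n D y x := by
  obtain ⟨v, hv⟩ := nearT_iff_t.1 h
  refine nearT_iff_t.2 ⟨-v, fun i => ?_⟩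
  have := hv i
  simp only [Pi.neg_apply, mul_neg]
  omega

theorem nearT_t.mono {D' : ℕ} {x y : St} (h : nearT_t n D x y) (hD : D ≤ D') : nearT_t n D' x y := by
  obtain ⟨v, hv⟩ := nearT_iff_t.1 h
  refine nearT_iff_t.2 ⟨v, fun i => ?_⟩
  have := hv i
  omega

theorem nearT_t.trans {D' : ℕ} {x y z : St} (h : nearT_t n D x y) (h' : nearT_t n D' y z) :
    nearT_t n (D + D') x z := by
  obtain ⟨v, hv⟩ := nearT_iff_t.1 h
  obtain ⟨w, hw⟩ := nearT_iff_t.1 h'
  refine nearT_iff_t.2 ⟨v + w, fun i => ?_⟩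
  have := hv i
  have := hw i
  simp only [Pi.add_apply, mul_add]
  omega

theorem nearT_of_box_t {x y : St} (h : y - x ∈ box D) : nearT_t n D x y := ⟨0, by simpa [pv_zero] using h⟩

theorem nearT_add_t {x b : St} (h : b ∈ box D) : nearT_t n D x (x + b) :=
  nearT_of_box_t (by simpa using h)

theorem nearT_rc_t (n : ℕ) (x : St) : nearT_t n 0 x (rcT n x) := by
  obtain ⟨v, hv⟩ := rc_exists_t n x
  exact ⟨v, by rw [hv]; simp [mem_box]⟩

theorem nearT_rc_right_t {x y : St} : nearT_t n D x (rcT n y) ↔ nearT_t n D x y :=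
  ⟨fun h => (h.trans (nearT_rc_t n y).symm).mono (D.add_zero).le,
    fun h => (h.trans (nearT_rc_t n y)).mono (D.add_zero).le⟩

theorem nearT_rc_left_t {x y : St} : nearT_t n D (rcT n x) y ↔ nearT_t n D x y :=
  ⟨fun h => (nearT_rc_right_t.1 h.symm).symm, fun h => (nearT_rc_right_t.2 h.symm).symm⟩

theorem nearT_add_right_t {x y : St} (v : St) : nearT_t n D (x + v) (y + v) ↔ nearT_t n D x y := by
  simp only [nearT_t, add_sub_add_right_eq_sub]

theorem nearT_zero_t {x y : St} : nearT_t n 0 x y ↔ rcT n x = rcT n y := by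
  constructor
  · rintro ⟨v, hv⟩
    have : y = x + pv (sd n) v := by
      funext i
      have := mem_box.1 hv i
      simp only [Pi.sub_apply, Pi.add_apply, Nat.cast_zero, neg_zero] at this ⊢
      omega
    rw [this, rc_add_smul_t]
  · intro h
    rw [← nearT_rc_left_t, h, nearT_rc_left_t]
    exact nearT_t.refl _ _ _

theorem nearT_t.split {D' : ℕ} {x z : St} (h : nearT_t n (D + D') x z) :
    ∃ y, nearT_t n D x y ∧ nearT_t n D' y z := by
  obtain ⟨v, hv⟩ := nearT_iff_t.1 h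
  refine ⟨fun i => x i + max (-(D : ℤ)) (min D (z i - x i - sd n i * v i)),
    nearT_iff_t.2 ⟨0, fun i => ?_⟩, nearT_iff_t.2 ⟨v, fun i => ?_⟩⟩
  · simp only [Pi.zero_apply, mul_zero]; omega
  · have := hv i
    push_cast at this
    omega

theorem nearT_exists_t (n : ℕ) (x y : St) : ∃ R, nearT_t n R x y := by
  refine ⟨∑ i, (y i - x i).natAbs, nearT_iff_t.2 ⟨0, fun i => ?_⟩⟩
  have := single_le_sum (f := fun i => (y i - x i).natAbs) (fun _ _ => Nat.zero_le _) (mem_univ i)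
  simp only [Pi.zero_apply, mul_zero]
  omega

/-- passage to the coarse lattice -/
theorem nearT_t.yo {l E : ℕ} {x y : St} (h : nearT_t (LL l * n) E x y) :
    nearT_t n (E / LL l + 1) (yo l x) (yo l y) := by
  obtain ⟨v, hv⟩ := nearT_iff_t.1 h
  refine nearT_iff_t.2 ⟨v, fun i => ?_⟩
  have h0 : (0 : ℤ) < (LL l : ℤ) := by exact_mod_cast LL_pos l
  obtain ⟨h1, h2⟩ := hv i
  have a1 := Int.mul_ediv_add_emod (x i + l) (LL l : ℤ)
  have a2 := Int.mul_ediv_add_emod (y i + l) (LL l : ℤ)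
  have a3 := Int.emod_nonneg (x i + l) h0.ne'
  have a4 := Int.emod_nonneg (y i + l) h0.ne'
  have a5 := Int.emod_lt_of_pos (x i + l) h0
  have a6 := Int.emod_lt_of_pos (y i + l) h0
  have a7 : (E : ℤ) < LL l * ((E / LL l : ℕ) + 1) := by
    exact_mod_cast Nat.lt_mul_div_succ E (LL_pos l)
  have a8 : sd (LL l * n) i = LL l * sd n i := mul_assoc _ _ _
  rw [a8] at h1 h2
  simp only [RG.yo]
  push_cast at h1 h2 a7 ⊢
  constructor
  · refine Int.le_of_lt_add_one (lt_of_mul_lt_mul_left ?_ h0.le)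
    nlinarith
  · refine Int.le_of_lt_add_one (lt_of_mul_lt_mul_left ?_ h0.le)
    nlinarith

theorem mem_tb_t {R : ℕ} {X : Finset St} {y : St} :
    y ∈ tb_t n R X ↔ rcT n y = y ∧ ∃ x ∈ X, nearT_t n R x y := by
  simp only [tb_t, mem_image, mem_add]
  constructor
  · rintro ⟨_, ⟨x, hx, b, hb, rfl⟩, rfl⟩
    exact ⟨rc_rc_t _ _, x, hx, nearT_rc_right_t.2 (nearT_add_t hb)⟩
  · rintro ⟨h, x, hx, v, hv⟩
    refine ⟨_, ⟨x, hx, _, hv, rfl⟩, ?_⟩
    rw [show x + (y - x - pv (sd n) v) = y + pv (sd n) (-v) by rw [pv_neg]; abel, rc_add_smul_t, h]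

theorem mem_tb_single_t {R : ℕ} {x y : St} : y ∈ tb_t n R {x} ↔ rcT n y = y ∧ nearT_t n R x y := by
  simp [mem_tb_t]

theorem card_tb_le_t (n R : ℕ) (X : Finset St) : (tb_t n R X).card ≤ X.card * (2 * R + 1) ^ 4 :=
  card_image_le.trans (card_add_le.trans_eq (by rw [card_box]))

theorem tb_mono_t {R R' : ℕ} {X X' : Finset St} (h : X ⊆ X') (hR : R ≤ R') :
    tb_t n R X ⊆ tb_t n R' X' := fun _ hy => by
  obtain ⟨h1, x, hx, h2⟩ := mem_tb_t.1 hy
  exact mem_tb_t.2 ⟨h1, x, h hx, h2.mono hR⟩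

theorem tb_tb_t {R R' : ℕ} (X : Finset St) : tb_t n R' (tb_t n R X) = tb_t n (R + R') X := by
  ext y
  simp only [mem_tb_t]
  constructor
  · rintro ⟨h, z, ⟨-, x, hx, h1⟩, h2⟩
    exact ⟨h, x, hx, h1.trans h2⟩
  · rintro ⟨h, x, hx, h1⟩
    obtain ⟨z, h2, h3⟩ := h1.split
    exact ⟨h, rcT n z, ⟨rc_rc_t _ _, x, hx, nearT_rc_right_t.2 h2⟩, nearT_rc_left_t.2 h3⟩

theorem tb_union_t (n R : ℕ) (X X' : Finset St) : tb_t n R (X ∪ X') = tb_t n R X ∪ tb_t n R X' := by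
  rw [tb_t, union_add, image_union]; rfl

theorem sub_tb_t {R : ℕ} {X : Finset St} (hX : ∀ x ∈ X, rcT n x = x) : X ⊆ tb_t n R X :=
  fun x hx => mem_tb_t.2 ⟨hX x hx, x, hx, nearT_t.refl _ _ _⟩

/-! walks -/

namespace Ta

/-- a walk of length `k` from `a` to `b` whose balls cover `X` -/
def Wk_t (n D : ℕ) (a b : St) (k : ℕ) (X : Set St) : Prop :=
  ∃ p : ℕ → St, p 0 = a ∧ p k = b ∧ (∀ i < k, nearT_t n D (p i) (p (i + 1))) ∧
    ∀ x ∈ X, ∃ i ≤ k, nearT_t n D (p i) x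

variable {a b c : St} {k k' : ℕ} {X X' : Set St}

theorem Wk_t.mono (h : Wk_t n D a b k X) (hX : X' ⊆ X) : Wk_t n D a b k X' := by
  obtain ⟨p, h1, h2, h3, h4⟩ := h
  exact ⟨p, h1, h2, h3, fun x hx => h4 x (hX hx)⟩

theorem Wk_t.step (h : nearT_t n D a b) : Wk_t n D a b 1 {b} := by
  refine ⟨fun i => if i = 0 then a else b, rfl, rfl, fun i hi => ?_, fun x hx => ⟨0, zero_le_one, ?_⟩⟩
  · obtain rfl : i = 0 := by omega
    exact h
  · obtain rfl : x = b := hx
    exact h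

theorem Wk_t.append (h : Wk_t n D a b k X) (h' : Wk_t n D b c k' X') :
    Wk_t n D a c (k + k') (X ∪ X') := by
  obtain ⟨p, h1, h2, h3, h4⟩ := h
  obtain ⟨q, g1, g2, g3, g4⟩ := h'
  have e1 : ∀ i ≤ k, (if i ≤ k then p i else q (i - k)) = p i := fun i hi => if_pos hi
  have e2 : ∀ j, (if k + j ≤ k then p (k + j) else q (k + j - k)) = q j := fun j => by
    split_ifs with hj
    · obtain rfl : j = 0 := by omega
      rw [add_zero, h2, g1]
    · rw [Nat.add_sub_cancel_left]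
  refine ⟨fun i => if i ≤ k then p i else q (i - k), (e1 0 k.zero_le).trans h1, (e2 k').trans g2,
    fun i hi => ?_, fun x hx => ?_⟩
  · rcases lt_or_ge i k with hk | hk
    · simp only [e1 i hk.le, e1 (i + 1) hk]
      exact h3 i hk
    · obtain ⟨j, rfl⟩ := Nat.exists_eq_add_of_le hk
      simp only [add_assoc, e2]
      exact g3 j (by omega)
  · rcases hx with hx | hx
    · obtain ⟨i, hi, hx⟩ := h4 x hx
      exact ⟨i, by omega, by simpa only [e1 i hi] using hx⟩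
    · obtain ⟨j, hj, hx⟩ := g4 x hx
      exact ⟨k + j, by omega, by simpa only [e2] using hx⟩

/-- a closed walk can be started close to any point which it covers -/
theorem Wk_t.rot (h : Wk_t n D a a k X) {z : St} (hz : z ∈ X) :
    ∃ c, nearT_t n D c z ∧ Wk_t n D c c k X := by
  obtain ⟨p, h1, h2, h3, h4⟩ := h
  obtain ⟨i, hi, hz⟩ := h4 z hz
  obtain ⟨j, rfl⟩ := Nat.exists_eq_add_of_le hi
  have w1 : Wk_t n D a (p i) i {x | ∃ t ≤ i, nearT_t n D (p t) x} :=
    ⟨p, h1, rfl, fun t ht => h3 t (by omega), fun x hx => hx⟩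
  have w2 : Wk_t n D (p i) a j {x | ∃ t ≤ j, nearT_t n D (p (i + t)) x} :=
    ⟨fun t => p (i + t), rfl, h2, fun t ht => h3 (i + t) (by omega), fun x hx => hx⟩
  refine ⟨p i, hz, add_comm j i ▸ (w2.append w1).mono fun x hx => ?_⟩
  obtain ⟨t, ht, hx⟩ := h4 x hx
  rcases le_total t i with h | h
  · exact Or.inr ⟨t, h, hx⟩
  · obtain ⟨s, rfl⟩ := Nat.exists_eq_add_of_le h
    exact Or.inl ⟨s, by omega, hx⟩

theorem tour_iff_t {X : Finset St} : Tour_t n D X k ↔ 0 < k ∧ ∃ a, Wk_t n D a a k X := by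
  refine and_congr_right fun hk => ⟨?_, ?_⟩
  · rintro ⟨p, h1, h2, h3⟩
    exact ⟨p 0, p, rfl, h1, h2, fun x hx => (h3 x hx).imp fun i hi => ⟨hi.1.le, hi.2⟩⟩
  · rintro ⟨a, p, h0, h1, h2, h3⟩
    refine ⟨p, h1.trans h0.symm, h2, fun x hx => ?_⟩
    obtain ⟨i, hi, hx⟩ := h3 x hx
    rcases hi.lt_or_eq with hi | rfl
    · exact ⟨i, hi, hx⟩
    · exact ⟨0, hk, by rwa [h0, ← h1]⟩

theorem wk_line_t (m : ℕ) : ∀ a : St, nearT_t n ((m + 1) * D) a b → Wk_t n D a b (m + 1) {b} := by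
  induction m with
  | zero => exact fun a h => Wk_t.step (by simpa using h)
  | succ m ih =>
    intro a h
    rw [add_comm (m + 1), add_mul, one_mul] at h
    obtain ⟨c, h1, h2⟩ := h.split
    rw [add_comm (m + 1)]
    exact ((Wk_t.step h1).append (ih c h2)).mono Set.subset_union_right

theorem wk_exists_t (hD : 1 ≤ D) (a b : St) : ∃ k, Wk_t n D a b k {b} := by
  obtain ⟨R, h⟩ := nearT_exists_t n a b
  exact ⟨R + 1, wk_line_t R a (h.mono (by nlinarith))⟩

theorem tour_exists_t (hD : 1 ≤ D) (X : Finset St) : ∃ k, Tour_t n D X k := by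
  have : ∃ k, Wk_t n D 0 0 (k + 1) X := by
    induction X using Finset.induction_on with
    | empty => exact ⟨0, (Wk_t.step (nearT_t.refl _ _ _)).mono (by simp)⟩
    | insert x X _ ih =>
      obtain ⟨k, h⟩ := ih
      obtain ⟨k1, h1⟩ := wk_exists_t (n := n) hD 0 x
      obtain ⟨k2, h2⟩ := wk_exists_t (n := n) hD x 0
      refine ⟨k1 + k2 + k, ((h1.append h2).append h).mono fun y hy => ?_⟩
      rcases mem_insert.1 hy with rfl | hy
      · exact Or.inl (Or.inl rfl)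
      · exact Or.inr hy
  obtain ⟨k, h⟩ := this
  exact ⟨k + 1, tour_iff_t.2 ⟨k.succ_pos, 0, h⟩⟩

theorem chain_t {p : ℕ → St} (h : ∀ i < k, nearT_t n D (p i) (p (i + 1))) (i j : ℕ)
    (hj : i + j ≤ k) : nearT_t n (j * D) (p i) (p (i + j)) := by
  induction j with
  | zero => exact nearT_t.refl _ _ _
  | succ j ih =>
    rw [add_mul, one_mul]
    exact (ih (by omega)).trans (h (i + j) (by omega))

theorem chain'_t {p : ℕ → St} (h : ∀ i < k, nearT_t n D (p i) (p (i + 1))) {i j m : ℕ}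
    (hi : i ≤ k) (hj : j ≤ k) (h1 : i ≤ j + m) (h2 : j ≤ i + m) : nearT_t n (m * D) (p i) (p j) := by
  rcases le_total i j with g | g
  · obtain ⟨s, rfl⟩ := Nat.exists_eq_add_of_le g
    exact (chain_t h i s hj).mono (Nat.mul_le_mul_right _ (by omega))
  · obtain ⟨s, rfl⟩ := Nat.exists_eq_add_of_le g
    exact (chain_t h j s hi).symm.mono (Nat.mul_le_mul_right _ (by omega))

end Ta

open Ta

/-! the size `tau` -/

theorem tau_spec_t (hD : 1 ≤ D) (X : Finset St) : Tour_t n D X (tau_t n D X) :=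
  Nat.sInf_mem (tour_exists_t hD X)

theorem tau_le_t {X : Finset St} {k : ℕ} (h : Tour_t n D X k) : tau_t n D X ≤ k := Nat.sInf_le h

theorem tau_pos_t (hD : 1 ≤ D) (X : Finset St) : 1 ≤ tau_t n D X := (tau_spec_t hD X).1

theorem tau_mono_t (hD : 1 ≤ D) {X X' : Finset St} (h : X ⊆ X') : tau_t n D X ≤ tau_t n D X' := by
  obtain ⟨h0, p, h1, h2, h3⟩ := tau_spec_t (n := n) hD X'
  exact tau_le_t ⟨h0, p, h1, h2, fun x hx => h3 x (h hx)⟩

theorem card_le_tau_t (hD : 1 ≤ D) {X : Finset St} (hX : ∀ x ∈ X, rcT n x = x) :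
    X.card ≤ tau_t n D X * (2 * D + 1) ^ 4 := by
  obtain ⟨-, p, -, -, h3⟩ := tau_spec_t (n := n) hD X
  have : X ⊆ tb_t n D ((range (tau_t n D X)).image p) := fun x hx => by
    obtain ⟨i, hi, h⟩ := h3 x hx
    exact mem_tb_t.2 ⟨hX x hx, p i, mem_image_of_mem _ (mem_range.2 hi), h⟩
  exact (card_le_card this).trans ((card_tb_le_t _ _ _).trans
    (Nat.mul_le_mul_right _ (card_image_le.trans_eq (card_range _))))

theorem tau_eq_one_t (hD : 1 ≤ D) {X : Finset St} {x : St} (h : ∀ y ∈ X, nearT_t n D x y) :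
    tau_t n D X = 1 :=
  le_antisymm (tau_le_t ⟨one_pos, fun _ => x, rfl, fun _ _ => nearT_t.refl _ _ _,
    fun y hy => ⟨0, one_pos, h y hy⟩⟩) (tau_pos_t hD X)

theorem tau_ball_t {R : ℕ} (hD : 1 ≤ D) (h : R ≤ D) (x : St) : tau_t n D (tb_t n R {x}) = 1 :=
  tau_eq_one_t hD (x := x) fun _ hy => (mem_tb_single_t.1 hy).2.mono h

theorem tau_diam_t (hD : 1 ≤ D) {X : Finset St} {x y : St} (hx : x ∈ X) (hy : y ∈ X) :
    nearT_t n ((tau_t n D X + 2) * D) x y := by
  obtain ⟨-, p, -, h2, h3⟩ := tau_spec_t (n := n) hD X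
  obtain ⟨i, hi, a1⟩ := h3 x hx
  obtain ⟨j, hj, a2⟩ := h3 y hy
  have := chain'_t h2 (m := tau_t n D X) hi.le hj.le (by omega) (by omega)
  exact ((a1.symm.trans this).trans a2).mono (le_of_eq (by ring))

theorem tau_union_t (hD : 1 ≤ D) {X X' : Finset St} (h : ¬ Disjoint X X') :
    tau_t n D (X ∪ X') ≤ tau_t n D X + tau_t n D X' + 4 := by
  obtain ⟨z, hz, hz'⟩ := not_disjoint_iff.1 h
  obtain ⟨-, a, w⟩ := tour_iff_t.1 (tau_spec_t (n := n) hD X)
  obtain ⟨-, a', w'⟩ := tour_iff_t.1 (tau_spec_t (n := n) hD X')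
  obtain ⟨c, hc, w⟩ := w.rot hz
  obtain ⟨c', hc', w'⟩ := w'.rot hz'
  have := ((w.append ((Wk_t.step hc).append (Wk_t.step hc'.symm))).append w').append
    ((Wk_t.step hc').append (Wk_t.step hc.symm))
  refine (tau_le_t (tour_iff_t.2 ⟨by omega, c, this.mono fun y hy => ?_⟩)).trans_eq (by ring)
  rcases mem_union.1 hy with hy | hy
  · exact Or.inl (Or.inl (Or.inl hy))
  · exact Or.inl (Or.inr hy)

theorem tau_conn_t {Ω : Type} [DecidableEq Ω] (hD : 1 ≤ D) (sp : Ω → Finset St) {O : Finset Ω}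
    (h : Conn sp O) : tau_t n D (us sp O) + 4 ≤ ∑ o ∈ O, (tau_t n D (sp o) + 4) := by
  obtain ⟨o, ho⟩ := h.1
  refine h.induct sp ho (fun O => tau_t n D (us sp O) + 4 ≤ ∑ o ∈ O, (tau_t n D (sp o) + 4))
    (by simp) fun O1 _ _ ih o' _ h1 h2 => ?_
  have := tau_union_t (n := n) hD h2
  rw [sum_insert h1, us_insert, union_comm]
  omega

theorem tau_scale_t {l D' R : ℕ} (hD : 1 ≤ D) (h : 4 * D / LL l + R + 3 ≤ D') (X : Finset St) :
    tau_t n D' (tb_t n R (dn_t l n X)) ≤ max 1 (tau_t (LL l * n) D X / 2) := by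
  obtain ⟨h0, p, h1, h2, h3⟩ := tau_spec_t (n := LL l * n) hD X
  generalize tau_t (LL l * n) D X = k at *
  obtain ⟨m, hm⟩ : ∃ m, m = max 1 (k / 2) := ⟨_, rfl⟩
  rw [← hm]
  refine tau_le_t ⟨by omega, fun j => yo l (p (if j < m then 2 * j else k)), ?_, fun j hj => ?_,
    fun y hy => ?_⟩
  · simp only [lt_irrefl, if_false, if_pos (show 0 < m by omega), h1]
  · have : nearT_t (LL l * n) (4 * D) (p (if j < m then 2 * j else k))
        (p (if j + 1 < m then 2 * (j + 1) else k)) :=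
      chain'_t h2 (by split_ifs <;> omega) (by split_ifs <;> omega) (by split_ifs <;> omega)
        (by split_ifs <;> omega)
    exact this.yo.mono (by omega)
  · obtain ⟨-, z, hz, a1⟩ := mem_tb_t.1 hy
    obtain ⟨x, hx, rfl⟩ := mem_image.1 hz
    obtain ⟨i, hi, a2⟩ := h3 x hx
    have hj : min (i / 2) (m - 1) < m := by omega
    refine ⟨min (i / 2) (m - 1), hj, ?_⟩
    have : nearT_t (LL l * n) (3 * D) (p (2 * min (i / 2) (m - 1))) (p i) :=
      chain'_t h2 (by omega) hi.le (by omega) (by omega)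
    have a3 := ((this.trans a2).mono (show 3 * D + D ≤ 4 * D by omega)).yo
    simp only [if_pos hj]
    exact (a3.trans (nearT_rc_left_t.1 a1)).mono (by omega)

theorem tau_sh_t (v : St) (X : Finset St) :
    tau_t n D (X.image fun x => rcT n (x + v)) = tau_t n D X := by
  unfold tau_t
  congr 1
  ext k
  refine and_congr_right fun _ => ⟨?_, ?_⟩
  · rintro ⟨p, h1, h2, h3⟩
    refine ⟨fun i => p i + -v, by simp only [h1], fun i hi => (nearT_add_right_t _).2 (h2 i hi),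
      fun x hx => ?_⟩
    obtain ⟨i, hi, h⟩ := h3 _ (mem_image_of_mem _ hx)
    exact ⟨i, hi, (nearT_add_right_t v).1 (by simpa using nearT_rc_right_t.1 h)⟩
  · rintro ⟨p, h1, h2, h3⟩
    refine ⟨fun i => p i + v, by simp only [h1], fun i hi => (nearT_add_right_t _).2 (h2 i hi),
      fun y hy => ?_⟩
    obtain ⟨x, hx, rfl⟩ := mem_image.1 hy
    obtain ⟨i, hi, h⟩ := h3 x hx
    exact ⟨i, hi, nearT_rc_right_t.2 ((nearT_add_right_t v).2 h)⟩

end Pool.Agent.Lib.MP_7f377f_mp.RG.Q4
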