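import Pool.Agent.Lib.MP_7f377f_mp.G.Q4Hole
import Pool.Agent.Lib.MP_7f377f_mp.G.TwBase
import Pool.Agent.Lib.MP_7f377f_mp.G.TqTau

/-! Geometry of the holes of one step, and the data of the budget inequality: definitions. -/

noncomputable section

set_option linter.unusedSectionVars false
variable [Pool.Agent.Lib.MP_7f377f_mp.GD]
variable [Pool.Agent.Lib.MP_7f377f_mp.RG.Q4.Tws]

namespace Pool.Agent.Lib.MP_7f377f_mp.RG.Q4

open Finset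

/-- the coarse sites occupied by a primitive mark -/
def pb_t (l n : ℕ) : Pm → Finset St
  | .inl C => dn_t l n C
  | .inr y => {y}

/-- the collar of a primitive mark -/
def zsp_t (l n D1 : ℕ) (o : Pm) : Finset St := tb_t n D1 (pb_t l n o)

/-- the holes -/
def Hh_t (l n : ℕ) (CC : Finset (Finset St)) (Wm : Finset St) : Finset St :=
  CC.biUnion (dn_t l n) ∪ Wm

/-- the zones: connected components of the union of the collars -/
def zones_t (l n D1 : ℕ) (CC : Finset (Finset St)) (Wm : Finset St) : Finset (Finset St) :=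
  (comps (zsp_t l n D1) (CC.disjSum Wm)).image (us (zsp_t l n D1))

/-- a zone is healed if it is small and the function `rW` (the curvature) is small on it -/
def Heal_t (n DD : ℕ) (ε2 : ℝ) (rW : St → ℝ) (Z : Finset St) : Prop :=
  tau_t n DD Z = 1 ∧ ∀ y ∈ Z, rW y ≤ ε2

open Classical in
/-- the new cores -/
def ncs_t (l n D1 DD : ℕ) (ε2 : ℝ) (rW : St → ℝ) (CC : Finset (Finset St)) (Wm : Finset St) :
    Finset (Finset St) :=
  (zones_t l n D1 CC Wm).filter fun Z => ¬ Heal_t n DD ε2 rW Z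

/-- `y` is at distance larger than `d` from `Y` -/
def Far_t (n d : ℕ) (Y : Finset St) (y : St) : Prop := ∀ p ∈ Y, ¬ nearT_t n d p y

/-- functions on the torus -/
def Pf_t {α : Type} (n : ℕ) (f : St → α) : Prop := ∀ y, f (rcT n y) = f y

/-- the functions of the budget. `e` kept energy, `rg` old regulators, `t` new energy, `t'` the
exponent of the new weight, `h` energy of the fluctuation, `xi y v` flow from `y` to `y + v`,
`rW` curvature of the block field; `Nz` the sites with large noise, `D` the sites with a large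
fluctuation variable -/
structure Bf_t (p : Bp) (CC : Finset (Finset St)) (Wm D Nz Om : Finset St)
    (e rg t t' h rW : St → ℝ) (xi : St → St → ℝ) : Prop where
  om : Om = tb_t p.n p.D3 (Hh_t p.l p.n CC Wm ∪ D)
  cc : ∀ C ∈ CC, C.Nonempty ∧ ∀ x ∈ C, rcT (LL p.l * p.n) x = x
  wm : ∀ y ∈ Wm, rcT p.n y = y
  dd : ∀ y ∈ D, rcT p.n y = y
  nz : Nz ⊆ tb_t p.n p.dN (Hh_t p.l p.n CC Wm ∪ D)
  pe : Pf_t p.n e
  prg : Pf_t p.n rg
  pt : Pf_t p.n t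
  ph : Pf_t p.n h
  prW : Pf_t p.n rW
  pxi : ∀ v, Pf_t p.n fun y => xi y v
  e0 : ∀ y ∈ Om, 0 ≤ e y
  rg0 : ∀ y ∈ Om, 0 ≤ rg y
  rW0 : ∀ y, 0 ≤ rW y
  tay : ∀ y ∈ Om, Far_t p.n p.dt (Hh_t p.l p.n CC Wm ∪ Nz) y →
    t y + h y - 1 ≤ e y + ∑ v ∈ box p.ρ, (xi (y + v) (-v) - xi y v) ∧ -1 ≤ t y ∧ 0 ≤ h y ∧
      t y + h y ≤ p.M ∧ t' y ≤ t y + 1 ∧ 3 * p.lam * rW y ≤ t y / 4 + p.U ∧
      ∀ v ∈ box p.ρ, Far_t p.n (p.dt + p.r) (Hh_t p.l p.n CC Wm ∪ Nz) y →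
        |xi y v| ≤ p.C1 * ∑ u ∈ box p.r, (t (y + u) + h (y + u) + 1)
  m4 : ∀ y ∈ tb_t p.n p.D1 (Hh_t p.l p.n CC Wm),
    3 * p.lam * rW y ≤ 625⁻¹ * ∑ u ∈ box 2, (e (y + u) / 8 + rg (y + u)) + p.U
  bad : ∀ y ∈ Wm, ∃ q ∈ Wm, nearT_t p.n (p.R + 1) y q ∧ p.ε1 < rW q
  new : ∀ q ∈ Wm, p.ε1 < rW q → Far_t p.n 2 (CC.biUnion (dn_t p.l p.n)) q →
    4 * p.G0' ≤ ∑ u ∈ box 2, e (q + u)
  noi : ∀ y ∈ Nz, 4 * p.gN ≤ e y
  m1 : ∀ y ∈ Om, y ∉ Wm → t' y ≤ p.M1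
  m2 : ∀ y ∈ Om, y ∉ Wm → (∀ u ∈ box p.r, rW (y + u) ≤ p.ε2) → t' y ≤ p.M2
  big : ∀ y ∈ D, Far_t p.n (p.d2 + p.dD) (Hh_t p.l p.n CC Wm ∪ Nz) y →
    p.gD * (2 * p.dD + 1) ^ 4 ≤ ∑ u ∈ box p.dD, h (y + u)

end Pool.Agent.Lib.MP_7f377f_mp.RG.Q4
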