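import Pool.Agent.Lib.MP_7f377f_mp.G.Q4BudB
import Pool.Agent.Lib.MP_7f377f_mp.G.TwBase
import Pool.Agent.Lib.MP_7f377f_mp.G.TqBudA

/-! The budget: the accounts of the components of the holes. -/

noncomputable section

set_option linter.unusedSectionVars false
variable [Pool.Agent.Lib.MP_7f377f_mp.GD]
variable [Pool.Agent.Lib.MP_7f377f_mp.RG.Q4.Tws]

namespace Pool.Agent.Lib.MP_7f377f_mp.RG.Q4

open Finset

attribute [local irreducible] box domT tb_t tau_t rcT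

variable {p : Bp} {CC : Finset (Finset St)} {Wm D Nz Om : Finset St} {e rg t t' h rW w : St → ℝ}
  {xi : St → St → ℝ} {l n D1 : ℕ}

theorem zsp_meet_t {o o' : Pm} {x x' : St} (hx : x ∈ pb_t l n o) (hx' : x' ∈ pb_t l n o')
    (h : nearT_t n (D1 + D1) x x') : ¬ Disjoint (zsp_t l n D1 o) (zsp_t l n D1 o') := by
  obtain ⟨y, h1, h2⟩ := h.split
  exact not_disjoint_iff.2 ⟨rcT n y, mem_tb_t.2 ⟨rc_rc_t _ _, x, hx, nearT_rc_right_t.2 h1⟩,
    mem_tb_t.2 ⟨rc_rc_t _ _, x', hx', nearT_rc_right_t.2 h2.symm⟩⟩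

theorem mem_Hh_t {x : St} : x ∈ Hh_t l n CC Wm ↔ ∃ o ∈ CC.disjSum Wm, x ∈ pb_t l n o := by
  simp [Hh_t, pb_t]

theorem us_zsp_t : us (zsp_t l n D1) (CC.disjSum Wm) = tb_t n D1 (Hh_t l n CC Wm) := by
  ext y
  simp only [mem_us, zsp_t, mem_tb_t, mem_Hh_t]
  exact ⟨fun ⟨o, h1, h2, x, h3, h4⟩ => ⟨h2, x, ⟨o, h1, h3⟩, h4⟩,
    fun ⟨h2, x, ⟨o, h1, h3⟩, h4⟩ => ⟨o, h1, h2, x, h3, h4⟩⟩

theorem zones_union_t : (zones_t l n D1 CC Wm).biUnion id = tb_t n D1 (Hh_t l n CC Wm) :=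
  (us_comps _ _).trans us_zsp_t

theorem zsp_ne_t (hC : ∀ C ∈ CC, C.Nonempty) {o : Pm} (ho : o ∈ CC.disjSum Wm) :
    (zsp_t l n D1 o).Nonempty := by
  obtain ⟨x, hx⟩ : (pb_t l n o).Nonempty := by
    cases o with
    | inl C => exact (hC C (by simpa using ho)).image _
    | inr y => exact singleton_nonempty y
  exact ⟨rcT n x, mem_tb_t.2 ⟨rc_rc_t _ _, x, hx, nearT_rc_right_t.2 (nearT_t.refl _ _ _)⟩⟩

theorem zones_disj_t (hC : ∀ C ∈ CC, C.Nonempty) :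
    (zones_t l n D1 CC Wm : Set (Finset St)).PairwiseDisjoint id :=
  (mem_fams.1 (comps_fams (zsp_t l n D1) (O := CC.disjSum Wm) (Λ := us (zsp_t l n D1) (CC.disjSum Wm))
    fun _ ho => ⟨zsp_ne_t hC ho, sp_sub_us _ ho⟩)).2.2

theorem sum_zones_t (hC : ∀ C ∈ CC, C.Nonempty) (f : Finset St → ℝ) : ∑ Z ∈ zones_t l n D1 CC Wm, f Z =
    ∑ hh ∈ comps (zsp_t l n D1) (CC.disjSum Wm), f (us (zsp_t l n D1) hh) :=
  sum_image fun a ha b hb hab => by
    by_contra hne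
    have h1 := (comps_spec _ _).2.1 ha hb hne
    rw [Function.onFun, hab, disjoint_self] at h1
    exact ((mem_comps.1 hb).2.1.us_ne fun o ho => zsp_ne_t hC ((mem_comps.1 hb).1 ho)).ne_empty h1

open Classical in
theorem Bf_t.comp (hp : p.Ok) (H : Bf_t p CC Wm D Nz Om e rg t t' h rW xi) {hh : Finset Pm}
    (hc : hh ∈ comps (zsp_t p.l p.n p.D1) (CC.disjSum Wm)) {Z : Finset St}
    (hZ : Z = us (zsp_t p.l p.n p.D1) hh) :
    (if Heal_t p.n p.DD p.ε2 rW Z then p.M2 * Z.card else p.G0' + p.G2' * tau_t p.n p.DD Z) +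
      (∑ C ∈ hh.toLeft, p.u * tau_t (LL p.l * p.n) p.DD0 C + p.u * hh.toRight.card) ≤
    ∑ C ∈ hh.toLeft, (p.G0 + p.G2 * tau_t (LL p.l * p.n) p.DD0 C) +
      (if Heal_t p.n p.DD p.ε2 rW Z then 0 else 2 * p.lam * ∑ y ∈ Z, rW y) +
      4⁻¹ * ∑ y ∈ Z ∩ tb_t p.n 2 (Hh_t p.l p.n CC Wm), e y := by
  obtain ⟨-, u0, -, D1, D4⟩ := hp.nn
  obtain ⟨hsub, hcon, -⟩ := mem_comps.1 hc
  have hG2 := hp.G2
  have hG0 := hp.G0
  have hG0' := hp.G0'
  obtain ⟨g1, g2⟩ := hp.G2'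
  have hM2 := hp.M2
  have hl := hp.lam
  have zr : ∀ y ∈ Z, rcT p.n y = y := fun y hy => by
    obtain ⟨o, -, h1⟩ := mem_us.1 (hZ ▸ hy)
    exact (mem_tb_t.1 h1).1
  have wz : ∀ y ∈ hh.toRight, y ∈ Wm ∧ tb_t p.n p.D1 {y} ⊆ Z := fun y hy =>
    ⟨by simpa using hsub (mem_toRight.1 hy), hZ ▸ sp_sub_us (zsp_t p.l p.n p.D1) (mem_toRight.1 hy)⟩
  have wz' : ∀ y ∈ hh.toRight, y ∈ Z := fun y hy =>
    (wz y hy).2 (sub_tb_t (by simpa using H.wm y (wz y hy).1) (mem_singleton_self y))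
  have e0 : ∀ y ∈ Z ∩ tb_t p.n 2 (Hh_t p.l p.n CC Wm), 0 ≤ e y := fun y hy => H.e0 y (H.om ▸
    tb_mono_t subset_union_left (by have := hp.D13; omega) (mem_inter.1 hy).2)
  have E0 := sum_nonneg e0
  have R0 : 0 ≤ p.lam * ∑ y ∈ Z, rW y := mul_nonneg hl (sum_nonneg fun y _ => H.rW0 y)
  have bad : ∀ y ∈ hh.toRight, ∃ q ∈ hh.toRight, nearT_t p.n (p.R + 1) y q ∧ p.ε1 < rW q :=
    fun y hy => by
      obtain ⟨q, h1, h2, h3⟩ := H.bad y (wz y hy).1
      exact ⟨q, mem_toRight.2 (comp_closed hc (mem_toRight.1 hy) (by simpa using h1) (zsp_meet_t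
        (mem_singleton_self y) (mem_singleton_self q) (h2.mono (by have := hp.R; omega)))), h2, h3⟩
  have gW : (5 * p.G2' + 2 * p.u) * hh.toRight.card ≤ p.lam * ∑ y ∈ Z, rW y := by
    have h1 : hh.toRight.card ≤ (hh.toRight.filter fun q => p.ε1 < rW q).card *
        (2 * (p.R + 1) + 1) ^ 4 := (card_le_card fun y hy => by
      obtain ⟨q, h1, h2, h3⟩ := bad y hy
      exact mem_tb_t.2 ⟨H.wm y (wz y hy).1, q, mem_filter.2 ⟨h1, h3⟩, h2.symm⟩).trans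
        (card_tb_le_t p.n (p.R + 1) _)
    have h2 := card_nsmul_le_sum _ rW _ fun q (hq : q ∈ hh.toRight.filter fun q => p.ε1 < rW q) =>
      (mem_filter.1 hq).2.le
    have h3 := h2.trans (sum_le_sum_of_subset_of_nonneg (fun q hq => wz' q (mem_filter.1 hq).1)
      fun y _ _ => H.rW0 y)
    rw [nsmul_eq_mul] at h3
    calc _ ≤ (5 * p.G2' + 2 * p.u) * ((hh.toRight.filter fun q => p.ε1 < rW q).card *
          (2 * p.R + 3) ^ 4) := by gcongr; exact_mod_cast h1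
      _ ≤ (hh.toRight.filter fun q => p.ε1 < rW q).card * (p.lam * p.ε1) := by
          rw [mul_left_comm]; exact mul_le_mul_of_nonneg_left hp.e1 (by positivity)
      _ ≤ _ := by rw [mul_left_comm]; exact mul_le_mul_of_nonneg_left h3 hl
  obtain ⟨T, hT⟩ : ∃ T : Finset St → ℕ, T = tau_t (LL p.l * p.n) p.DD0 := ⟨_, rfl⟩
  have T1 : ∀ C, 1 ≤ T C := fun C => hT ▸ tau_pos_t hp.DD0 C
  have tz : tau_t p.n p.DD Z + 4 ≤ ∑ C ∈ hh.toLeft, (max 1 (T C / 2) + 4) + 5 * hh.toRight.card := by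
    refine (hZ ▸ tau_conn_t D1 _ hcon).trans ?_
    rw [sum_sum_eq_sum_toLeft_add_sum_toRight]
    refine add_le_add (sum_le_sum fun C _ => ?_) ?_
    · exact Nat.add_le_add_right (hT ▸ tau_scale_t hp.DD0 hp.DD C) 4
    · rw [mul_comm, ← smul_eq_mul, ← sum_const]
      exact sum_le_sum fun y _ => by
        rw [zsp_t, pb_t, tau_ball_t D1 (le_trans (Nat.le_succ_of_le (Nat.le_succ_of_le
          (Nat.le_succ_of_le (Nat.le_add_left _ _)))) hp.DD)]
  rw [← hT]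
  have hne : 1 ≤ hh.toLeft.card + hh.toRight.card := by
    rw [card_toLeft_add_card_toRight]; exact hcon.1.card_pos
  have S0 : 0 ≤ ∑ C ∈ hh.toLeft, (T C : ℝ) := sum_nonneg fun _ _ => Nat.cast_nonneg _
  rw [sum_add_distrib, ← mul_sum, ← mul_sum, sum_const, nsmul_eq_mul]
  have V0 : 0 ≤ p.M2 * (2 * p.DD + 1) ^ 4 := by positivity
  split_ifs with hz
  · have h1 : hh.toRight = ∅ := eq_empty_of_forall_notMem fun y hy => by
      obtain ⟨q, h1, -, h3⟩ := bad y hy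
      linarith [hz.2 q (wz' q h1), hp.e12]
    have h2 : (1 : ℝ) ≤ hh.toLeft.card := by rw [h1] at hne; exact_mod_cast hne
    have h3 := card_le_tau_t D1 zr
    rw [hz.1, one_mul] at h3
    have h4 : p.M2 * Z.card ≤ p.M2 * (2 * p.DD + 1) ^ 4 := by gcongr; exact_mod_cast h3
    rw [h1, card_empty]
    nlinarith [mul_le_mul_of_nonneg_right (show p.u ≤ p.G2 by linarith) S0]
  rcases Nat.eq_zero_or_pos hh.toLeft.card with h0 | h0
  · obtain ⟨y, hy⟩ : hh.toRight.Nonempty := card_pos.1 (by omega)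
    obtain ⟨q, h1, -, h3⟩ := bad y hy
    have h4 := H.new q (wz q h1).1 h3 fun x hx hn => by
      obtain ⟨C, hC, hx⟩ := mem_biUnion.1 hx
      have := comp_closed hc (mem_toRight.1 h1) (o' := .inl C) (by simpa using hC)
        (zsp_meet_t (mem_singleton_self q) hx (hn.symm.mono (by omega)))
      exact absurd (card_pos.2 ⟨C, mem_toLeft.2 this⟩) (by omega)
    have h5 := sum_charge_t H.pe (S := box 2) (T := Z ∩ tb_t p.n 2 (Hh_t p.l p.n CC Wm)) q (fun u hu => rc_box_t hp.odd (box_mono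
      (by have := hp.n5; omega) hu)) (fun u hu => mem_inter.2 ⟨(wz q h1).2 (mem_tb_single_t.2
        ⟨rc_rc_t _ _, nearT_rc_right_t.2 (add_comm q u ▸ (nearT_add_t hu).mono (by omega))⟩),
      mem_tb_t.2 ⟨rc_rc_t _ _, q, mem_union_right _ (wz q h1).1,
        nearT_rc_right_t.2 (add_comm q u ▸ nearT_add_t hu)⟩⟩) e0
    simp only [add_comm q] at h4
    rw [card_eq_zero.1 h0] at tz ⊢
    have h6 : (tau_t p.n p.DD Z : ℝ) ≤ 5 * hh.toRight.card := by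
      exact_mod_cast (by simp at tz; omega : tau_t p.n p.DD Z ≤ 5 * hh.toRight.card)
    simp only [sum_empty, card_empty, Nat.cast_zero]
    linarith [mul_le_mul_of_nonneg_left h6 g1, mul_nonneg u0 (Nat.cast_nonneg hh.toRight.card),
      h4.trans h5]
  have k1 : ∀ C, p.G2' * (max 1 (T C / 2) : ℕ) + p.u * T C ≤
      p.G2 * T C + if T C = 1 then p.u else 0 := fun C => by
    split_ifs with h1
    · simp [h1, g2]
    · have h2 : (2 * (max 1 (T C / 2) : ℕ) : ℝ) ≤ T C := by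
        exact_mod_cast (by have := T1 C; omega : 2 * max 1 (T C / 2) ≤ T C)
      nlinarith [mul_le_mul_of_nonneg_left h2 g1, mul_le_mul_of_nonneg_right hG2
        (Nat.cast_nonneg (T C)), mul_le_mul_of_nonneg_right g2 (Nat.cast_nonneg (T C))]
  have k2 := sum_le_sum fun C (_ : C ∈ hh.toLeft) => k1 C
  rw [sum_add_distrib, sum_add_distrib, ← mul_sum, ← mul_sum, ← mul_sum] at k2
  have k3 : (tau_t p.n p.DD Z : ℝ) + 4 ≤ ∑ C ∈ hh.toLeft, ((max 1 (T C / 2) : ℕ) : ℝ) +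
      4 * hh.toLeft.card + 5 * hh.toRight.card := by
    rw [sum_add_distrib, sum_const, smul_eq_mul, mul_comm] at tz
    exact_mod_cast tz
  have k4 : (1 : ℝ) ≤ hh.toLeft.card := by exact_mod_cast h0
  have k5 : ∑ C ∈ hh.toLeft, (if T C = 1 then p.u else 0) ≤ (hh.toLeft.card - 1) * (2 * p.u) +
      p.u * hh.toRight.card + p.lam * ∑ y ∈ Z, rW y := by
    have h1 := sum_le_card_nsmul hh.toLeft (fun C => if T C = 1 then p.u else 0) p.u
      fun C _ => by split_ifs <;> linarith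
    rw [nsmul_eq_mul] at h1
    have h2 := mul_nonneg u0 (Nat.cast_nonneg hh.toRight.card)
    rcases (show 1 ≤ hh.toLeft.card from h0).lt_or_eq with h3 | h3
    · have : (2 : ℝ) ≤ hh.toLeft.card := by exact_mod_cast h3
      nlinarith
    rcases Nat.eq_zero_or_pos hh.toRight.card with h4 | h4
    · obtain ⟨C, hC⟩ := card_eq_one.1 h3.symm
      rw [hC, sum_singleton] at tz ⊢
      split_ifs with h5
      · obtain ⟨y, hy, h6⟩ : ∃ y ∈ Z, p.ε2 < rW y := by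
          by_contra h6
          push Not at h6
          exact hz ⟨le_antisymm (by rw [h5, h4] at tz; omega) (tau_pos_t D1 Z), h6⟩
        have := mul_le_mul_of_nonneg_left (h6.le.trans (single_le_sum (fun y _ => H.rW0 y) hy)) hl
        simp only [card_singleton, Nat.cast_one, sub_self, zero_mul]
        linarith [hp.e2]
      · simp only [card_singleton, Nat.cast_one, sub_self, zero_mul]; linarith
    · have : (1 : ℝ) ≤ hh.toRight.card := by exact_mod_cast h4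
      rw [← h3] at h1 ⊢
      nlinarith
  nlinarith [mul_le_mul_of_nonneg_left k3 g1, mul_le_mul_of_nonneg_left g2 (sub_nonneg.2 k4),
    mul_le_mul_of_nonneg_left hG0 (sub_nonneg.2 k4), mul_nonneg (sub_nonneg.2 k4) V0]

theorem Bf_t.holes (hp : p.Ok) (H : Bf_t p CC Wm D Nz Om e rg t t' h rW xi) :
    ∑ Z ∈ ncs_t p.l p.n p.D1 p.DD p.ε2 rW CC Wm, (p.G0' + p.G2' * tau_t p.n p.DD Z) +
      p.M2 * (tb_t p.n p.D1 (Hh_t p.l p.n CC Wm) \
        (ncs_t p.l p.n p.D1 p.DD p.ε2 rW CC Wm).biUnion id).card +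
      p.u * (∑ C ∈ CC, (tau_t (LL p.l * p.n) p.DD0 C : ℝ) + Wm.card) ≤
    ∑ C ∈ CC, (p.G0 + p.G2 * tau_t (LL p.l * p.n) p.DD0 C) +
      2 * p.lam * ∑ Z ∈ ncs_t p.l p.n p.D1 p.DD p.ε2 rW CC Wm, ∑ y ∈ Z, rW y +
      4⁻¹ * ∑ y ∈ tb_t p.n 2 (Hh_t p.l p.n CC Wm), e y := by
  classical
  have hC := fun C hC => (H.cc C hC).1
  have h1 := sum_le_sum fun hh hc => H.comp hp (hh := hh) hc rfl
  have key : ∀ (f : Finset St → ℝ) (c : ℝ), ∑ hh ∈ comps (zsp_t p.l p.n p.D1) (CC.disjSum Wm),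
      (∑ C ∈ hh.toLeft, f C + c * hh.toRight.card) = ∑ C ∈ CC, f C + c * Wm.card := fun f c => by
    have := sum_biUnion (f := Sum.elim f fun _ => c) (comps_disjoint (zsp_t p.l p.n p.D1)
      (CC.disjSum Wm))
    rw [(comps_spec _ _).1, sum_disjSum] at this
    simp only [id, sum_sum_eq_sum_toLeft_add_sum_toRight, Sum.elim_inl, Sum.elim_inr, sum_const,
      nsmul_eq_mul, mul_comm _ c] at this
    exact this.symm
  have k2 := key (fun C => p.G0 + p.G2 * tau_t (LL p.l * p.n) p.DD0 C) 0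
  simp only [zero_mul, add_zero] at k2
  rw [sum_add_distrib, key, sum_add_distrib, sum_add_distrib, k2, ← mul_sum, ← mul_sum,
    ← sum_zones_t hC fun Z => if Heal_t p.n p.DD p.ε2 rW Z then p.M2 * Z.card else
      p.G0' + p.G2' * tau_t p.n p.DD Z,
    ← sum_zones_t hC fun Z => if Heal_t p.n p.DD p.ε2 rW Z then 0 else 2 * p.lam * ∑ y ∈ Z, rW y,
    ← sum_zones_t hC fun Z => ∑ y ∈ Z ∩ tb_t p.n 2 (Hh_t p.l p.n CC Wm), e y, sum_ite, sum_ite,
    sum_const_zero, ← mul_sum, ← mul_sum] at h1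
  have h2 : ∑ Z ∈ zones_t p.l p.n p.D1 CC Wm, ∑ y ∈ Z ∩ tb_t p.n 2 (Hh_t p.l p.n CC Wm), e y =
      ∑ y ∈ tb_t p.n 2 (Hh_t p.l p.n CC Wm), e y := by
    refine (sum_biUnion (t := fun Z => Z ∩ tb_t p.n 2 (Hh_t p.l p.n CC Wm))
      ((zones_disj_t hC).mono fun Z => inter_subset_left)).symm.trans ?_
    rw [← biUnion_inter]
    erw [zones_union_t]
    rw [inter_eq_right.2 (tb_mono_t subset_rfl (by have := hp.nn.2.2.2.2; omega))]
  have h3 : ((tb_t p.n p.D1 (Hh_t p.l p.n CC Wm) \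
      (ncs_t p.l p.n p.D1 p.DD p.ε2 rW CC Wm).biUnion id).card : ℝ) ≤ ∑ Z ∈ (zones_t p.l p.n p.D1 CC
        Wm).filter (Heal_t p.n p.DD p.ε2 rW), (Z.card : ℝ) := by
    exact_mod_cast (card_le_card fun y hy => by
      obtain ⟨h1, h2⟩ := mem_sdiff.1 hy
      obtain ⟨Z, h3, h4⟩ := mem_biUnion.1 (zones_union_t ▸ h1)
      exact mem_biUnion.2 ⟨Z, mem_filter.2 ⟨h3, not_not.1 fun h5 => h2 (mem_biUnion.2
        ⟨Z, mem_filter.2 ⟨h3, h5⟩, h4⟩)⟩, h4⟩).trans (card_biUnion_le (t := id))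
  rw [h2] at h1
  unfold ncs_t at h3 ⊢
  linarith [mul_le_mul_of_nonneg_left h3 hp.M2]

end Pool.Agent.Lib.MP_7f377f_mp.RG.Q4
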