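import Pool.Agent.Lib.MP_7f377f_mp.G.Q4CovC
import Pool.Agent.Lib.MP_7f377f_mp.G.TwBase
import Pool.Agent.Lib.MP_7f377f_mp.G.TqTau

/-! Invariance, locality, conditioning and volume bounds for the block variables. -/

noncomputable section

set_option linter.unusedSectionVars false
variable [Pool.Agent.Lib.MP_7f377f_mp.GD]
variable [Pool.Agent.Lib.MP_7f377f_mp.RG.Q4.Tws]

namespace Pool.Agent.Lib.MP_7f377f_mp.RG.Q4

open MeasureTheory Measure Set Ms
open scoped ENNReal

namespace Cov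

variable {l n : ℕ} {ν : Measure E3}

/-! ### locality -/

theorem rc_mem_tb_t {R : ℕ} {X : Finset St} {y x : St} (hy : rcT n y ∈ X) (hx : x ∈ box R) :
    rcT n (x + y) ∈ tb_t n R X :=
  mem_tb_t.2 ⟨rc_rc_t _ _, _, hy, nearT_rc_left_t.2 (nearT_rc_right_t.2 (add_comm y x ▸ nearT_add_t hx))⟩

/-! ### invariance -/

theorem meas_pc_t {α : Type} [MeasurableSpace α] (n : ℕ) : Measurable (pcT0 (α := α) n) :=
  measurable_pi_lambda _ fun _ => measurable_pi_apply _

/-- rotations and translations of the periodised fluctuation field -/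
theorem int_rot_t {ζ : ℝ} (h : 0 < ζ) (N : ℕ) (x : St) {T : Lk → E3 ≃ₗᵢ[ℝ] E3}
    (hT : ∀ f, T (rcT N f.1, f.2) = T f) {Φ : (Lk → E3) → ℂ} (hΦ : Measurable Φ) :
    ∫ z, Φ (fun f => T f (sh x (pcT0 N z) f)) ∂nuI ζ = ∫ z, Φ (pcT0 N z) ∂nuI ζ := by
  have := nu_prob h
  have e := Mx.map_rel (nu ζ) (T := fun f => T f) (r := Mx.rl_t N) (φ := fun f => (f.1 + x, f.2))
    (fun f => nu_rot ζ (T f)) (Mx.rl_rl_t N) (Mx.rel_sh_t N x) fun f => congrArg _ (hT f)
  have m : Measurable fun (z : Lk → E3) f => T f (sh x (pcT0 N z) f) := measurable_pi_lambda _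
    fun f => (nu_rot ζ (T f)).measurable.comp (measurable_pi_apply _)
  rw [← integral_map m.aemeasurable hΦ.aestronglyMeasurable,
    ← integral_map (meas_pc_t N).aemeasurable hΦ.aestronglyMeasurable]
  exact congrArg (integral · Φ) e

/-- a function of the links in the fundamental domain does not see the periodisation -/
theorem pc_agr_t {α : Type} {N R : ℕ} (hN : Odd N) (h : R ≤ N / 2) (z : Lk → α) :
    Agr R (pcT0 N z) z := fun e he => by
  have := mem_box.1 (Finset.mem_product.1 he).1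
  rw [pcT0_apply, rc_box_t hN (mem_box.2 fun i => by have := this i; omega)]

/-! ### conditioning -/

end Cov

open Cov

/-- on good blocks the fluctuation variables have the truncated Gaussian law -/
theorem calm_int_t {l n : ℕ} (hn : Odd n) {ν : Measure E3} [IsProbabilityMeasure ν] {ζ Z : ℝ}
    (hζ : 0 < ζ) (h : Gs ν ζ Z) {Y : Finset St} {Φ : (Lk → E3) → ℂ}
    (hΦ : Measurable Φ) (hd : DependsOn Φ {f | ¬ tree l f ∧ rcT n (yo l f.1) ∈ Y}) :
    ∫ v, ((∏ y ∈ Y, gd l ζ (v y) : ℝ) : ℂ) * Φ (vz l (pcsT n v)) ∂PB l ν =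
      (cgd l ζ Z ^ Y.card : ℝ) * ∫ z, Φ (pcT0 (LL l * n) z) ∂nuI ζ := by
  classical
  have := nu_prob hζ
  have hj : Set.InjOn (fun p : St × Lk => (p.2.1 + up l p.1, p.2.2)) (Y ×ˢ ntr l : Finset _) := by
    intro p hp q hq e
    have a1 := (Finset.mem_product.1 (Finset.mem_filter.1 (Finset.mem_product.1 hp).2).1).1
    have a2 := (Finset.mem_product.1 (Finset.mem_filter.1 (Finset.mem_product.1 hq).2).1).1
    simp only [Prod.mk.injEq] at e
    have e1 := congrArg (yo l) e.1
    rw [yo_add_up, yo_add_up, yo_of_mem a1, yo_of_mem a2, zero_add, zero_add] at e1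
    rw [e1] at e
    exact Prod.ext e1 (Prod.ext (add_right_cancel e.1) e.2)
  set S := (Y ×ˢ ntr l).image fun p : St × Lk => (p.2.1 + up l p.1, p.2.2) with hS
  have mΦ := hΦ.comp (meas_pc_t (LL l * n))
  have dΦ : DependsOn (Φ ∘ pcT0 (LL l * n)) S := by
    intro z z' e
    refine hd fun f hf => e _ (Finset.mem_image.2 ⟨(rcT n (yo l f.1),
      (rcT (LL l * n) f.1 - up l (rcT n (yo l f.1)), f.2)), Finset.mem_product.2 ⟨hf.2,
      Finset.mem_filter.2 ⟨Finset.mem_product.2 ⟨?_, Finset.mem_univ _⟩, fun hc => hf.1 ?_⟩⟩, ?_⟩)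
    · rw [← yo_rc_t hn]
      exact sub_up_yo_mem l _
    · have := (tree_up l _ (rcT n (yo l f.1))).2 hc
      simp only [sub_add_cancel] at this
      exact (Mx.tree_rl_t l n f).1 this
    · simp only [sub_add_cancel]; rfl
  have h1 := tilt (meas_g1 ζ) (fun w => by unfold g1; split_ifs <;> simp) measurable_snd.fst
    (div_pos (zn_pos hζ) (by nlinarith [h.1, NG_one])).le (link_law hζ h) S mΦ dΦ
  have h2 : ∫ ω : St → Om, ((∏ y ∈ Y, if (ω y).1 = 0 then 1 else 0 : ℝ) : ℂ) ∂OO l =
      ((((LL l : ℝ) ^ 4)⁻¹) ^ Y.card : ℝ) := by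
    have mf : Measurable fun ω : Om => if ω.1 = 0 then (1 : ℝ) else 0 := Measurable.of_discrete
    have r := mp_fin (unO l) (Subtype.val_injective (p := (· ∈ Y)))
    have e := integral_map (μ := OO l) r.measurable.aemeasurable
      (f := fun w : Y → Om => ∏ y, if (w y).1 = 0 then (1 : ℝ) else 0)
      (Finset.measurable_fun_prod _ fun y _ =>
        mf.comp (measurable_pi_apply y)).aestronglyMeasurable
    rw [OO, r.map_eq, integral_fintype_prod_eq_pow fun ω : Om => if ω.1 = 0 then (1 : ℝ) else 0,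
      Mx.int_unO l fun p => if p = 0 then 1 else 0, Finset.sum_ite_eq', if_pos (zero_mem_box l),
      mul_one, Fintype.card_coe] at e
    rw [integral_complex_ofReal, e]
    congr 1
    refine integral_congr_ae (.of_forall fun ω => ?_)
    exact (Finset.prod_coe_sort Y fun y => if (ω y).1 = 0 then (1 : ℝ) else 0).symm
  have hm := mp_lnk l ν
  set F1 : (Lk → LV) → ℂ := fun w => ((∏ f ∈ S, g1 ζ (w f) : ℝ) : ℂ) *
    (Φ ∘ pcT0 (LL l * n)) fun f => (w f).2.1 with hF1
  set F2 : (St → Om) → ℂ := fun ω => ((∏ y ∈ Y, if (ω y).1 = 0 then 1 else 0 : ℝ) : ℂ) with hF2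
  have m1 : Measurable F1 := (Complex.measurable_ofReal.comp (Finset.measurable_fun_prod _
    fun f _ => (meas_g1 ζ).comp (measurable_pi_apply f))).mul
    (mΦ.comp (measurable_pi_lambda _ fun f => (measurable_pi_apply f).snd.fst))
  have m2 : Measurable F2 := Complex.measurable_ofReal.comp (Finset.measurable_fun_prod _
    fun y _ => (Measurable.of_discrete (f := fun ω : Om => if ω.1 = 0 then (1 : ℝ) else 0)).comp
      (measurable_pi_apply y))
  have e := integral_map (μ := PB l ν) hm.measurable.aemeasurable (f := fun p => F1 p.1 * F2 p.2)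
    ((m1.comp measurable_fst).mul (m2.comp measurable_snd)).aestronglyMeasurable
  rw [hm.map_eq, integral_prod_mul, h1, h2, hS, Finset.card_image_of_injOn hj,
    Finset.card_product] at e
  calc _ = ∫ v, F1 (lnk l v) * F2 (vo v) ∂PB l ν := by
        refine integral_congr_ae (.of_forall fun v => ?_)
        simp only [hF1, hF2, hS, gd_eq, Finset.prod_mul_distrib, vz_pcs_t hn]
        have e3 : ∏ y ∈ Y, ∏ t ∈ ntr l, g1 ζ (lnk l v (t.1 + up l y, t.2)) =
            ∏ y ∈ Y, ∏ t ∈ ntr l, g1 ζ ((v y).1 t) := Finset.prod_congr rfl fun y _ =>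
          Finset.prod_congr rfl fun t ht => congrArg (g1 ζ)
            (lnk_up l v y (Finset.mem_filter.1 ht).1)
        rw [Finset.prod_image hj, Finset.prod_product, e3]
        push_cast
        change _ = _ * Φ (pcT0 (LL l * n) (vz l v)) * ∏ y ∈ Y, ((if (v y).2.1 = 0 then 1 else 0 : ℝ) : ℂ)
        ring
    _ = _ := by
        rw [← e, cgd, mul_pow, ← pow_mul, mul_comm (ntr l).card]
        push_cast
        change _ * (∫ z, Φ (pcT0 (LL l * n) z) ∂nuI ζ) * _ = _
        ring

/-! ### the volume bound -/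

end Pool.Agent.Lib.MP_7f377f_mp.RG.Q4
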