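import Pool.Agent.Lib.MP_7f377f_mp.G.Q4Loc
import Pool.Agent.Lib.MP_7f377f_mp.G.TwBase
import Pool.Agent.Lib.MP_7f377f_mp.G.TqTau

/-! Closed walk expansion of the determinant: the identity and the sums on the torus. -/

noncomputable section

set_option linter.unusedSectionVars false
variable [Pool.Agent.Lib.MP_7f377f_mp.GD]
variable [Pool.Agent.Lib.MP_7f377f_mp.RG.Q4.Tws]

namespace Pool.Agent.Lib.MP_7f377f_mp.RG.Q4.Loc

open Finset Polynomial Matrix
open scoped Matrix.Norms.L2Operator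

variable {I σ : Type} [Fintype I] [DecidableEq I] [DecidableEq σ]
  {π : I → σ} {B : σ → Finset σ} {M : Matrix I I ℂ} {Λ : Finset σ}
  {η : Fin 3 → ℝ} {η0 q ε : ℝ} {β d N K : ℕ}

/-! ### Finite range -/

/-! ### Polynomials in a matrix -/

/-! ### The identity -/

/-! ### Real matrices and bounds for the Euclidean operator norm -/

/-! ### The torus -/

section torus

variable {n D D' R ρ : ℕ} {Λ S : Finset St} {π : I → St}

/-- balls of the torus -/
abbrev bl_t (n D : ℕ) : St → Finset St := fun y => tb_t n D {y}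

theorem nb_bl_t (h : ∀ y ∈ Λ, rcT n y = y) (D : ℕ) : Nb (bl_t n D) Λ ((2 * D + 1) ^ 4) :=
  ⟨fun y hy => mem_tb_single_t.2 ⟨h y hy, nearT_t.refl _ _ _⟩,
    fun y _ => by simpa using card_tb_le_t n D {y},
    fun y hy _ _ h1 => mem_tb_single_t.2 ⟨h y hy, (mem_tb_single_t.1 h1).2.symm⟩⟩

theorem tau_cw_t (hD : D ≤ D') (hR : R ≤ D') {m : ℕ} (h : cw (bl_t n D) m S ≠ 0) :
    tau_t n D' (tb_t n R S) ≤ m + 1 := by
  obtain ⟨y, w, h1, rfl, h2⟩ := exists_of_cw h
  have hl : (y :: w ++ [y]).length = m + 2 := by simp [h1]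
  refine tau_le_t ⟨m.succ_pos, fun i => (y :: w ++ [y]).getD i y, ?_, fun i hi => ?_, fun x hx => ?_⟩
  · simp [← h1]
  · beta_reduce
    rw [List.getD_eq_getElem _ _ (by omega), List.getD_eq_getElem _ _ (by omega)]
    exact (mem_tb_single_t.1 (List.isChain_iff_getElem.1 h2 i (by omega))).2.mono hD
  · obtain ⟨-, z, hz, h3⟩ := mem_tb_t.1 hx
    obtain ⟨i, hi, rfl⟩ := List.getElem_of_mem (List.mem_toFinset.1 hz)
    refine ⟨i, by simpa [h1] using hi, ?_⟩
    beta_reduce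
    rw [List.getD_append _ _ _ _ hi, List.getD_eq_getElem _ _ hi]
    exact h3.mono hR

/-- the weighted sum of the majorants over the ranges which contain a point -/
theorem sum_kw_t (hΛ : ∀ y ∈ Λ, rcT n y = y) (hD : D ≤ D') (hR : R ≤ D') {a e : ℝ} (a0 : 0 ≤ a)
    (e0 : 0 ≤ e) (ε0 : 0 ≤ ε)
    (hε : (2 * D + 1) ^ 4 * ε * Real.exp (a + e * (2 * R + 1) ^ 4) ≤ 1 / 2) (β : ℕ) (x : St) :
    ∑ S ∈ Λ.powerset.filter (fun S => x ∈ S), kw (bl_t n D) β ε S *
      Real.exp (a * tau_t n D' (tb_t n R S) + e * (tb_t n R S).card) ≤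
      18 * β * (2 * D + 1) ^ 4 * ε * Real.exp (2 * (a + e * (2 * R + 1) ^ 4)) := by
  have := sum_kq0 (nb_bl_t hΛ D) ε0 (A := a + e * (2 * R + 1) ^ 4) (by positivity)
    (by exact_mod_cast hε) (fun S => a * tau_t n D' (tb_t n R S) + e * (tb_t n R S).card)
    (fun S _ m hm => by
      have h1 : (tau_t n D' (tb_t n R S) : ℝ) ≤ m + 1 := by exact_mod_cast tau_cw_t hD hR hm
      have h2 : ((tb_t n R S).card : ℝ) ≤ (m + 1) * (2 * R + 1) ^ 4 := by
        exact_mod_cast (card_tb_le_t n R S).trans (Nat.mul_le_mul_right _ (card_le_of_cw hm))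
      calc _ ≤ a * (m + 1) + e * ((m + 1) * (2 * R + 1) ^ 4) := by gcongr
        _ = _ := by ring) x
  simp only [kw, mul_assoc (3 * β : ℝ), ← mul_sum]
  refine (mul_le_mul_of_nonneg_left this (by positivity)).trans_eq ?_
  push_cast
  ring

/-- the weighted sum of the majorants over the supports which contain a point -/
theorem sum_kw'_t (hΛ : ∀ y ∈ Λ, rcT n y = y) (hD : D ≤ D') (hR : R ≤ D') {a e : ℝ} (a0 : 0 ≤ a)
    (e0 : 0 ≤ e) (ε0 : 0 ≤ ε)
    (hε : (2 * D + 1) ^ 4 * ε * Real.exp (a + e * (2 * R + 1) ^ 4) ≤ 1 / 2) (β : ℕ) (x : St) :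
    ∑ S ∈ Λ.powerset.filter (fun S => x ∈ tb_t n R S), kw (bl_t n D) β ε S *
      Real.exp (a * tau_t n D' (tb_t n R S) + e * (tb_t n R S).card) ≤ (2 * R + 1) ^ 4 *
      (18 * β * (2 * D + 1) ^ 4 * ε * Real.exp (2 * (a + e * (2 * R + 1) ^ 4))) := by
  set f : Finset St → ℝ := fun S => kw (bl_t n D) β ε S *
    Real.exp (a * tau_t n D' (tb_t n R S) + e * (tb_t n R S).card)
  have f0 : ∀ S, 0 ≤ f S := fun S => mul_nonneg (kw_nonneg ε0 S) (by positivity)
  calc _ ≤ ∑ S ∈ Λ.powerset, ∑ y ∈ tb_t n R {x}, if y ∈ S then f S else 0 := by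
        rw [sum_filter]
        refine sum_le_sum fun S hS => ?_
        have h0 : ∀ y ∈ tb_t n R {x}, 0 ≤ if y ∈ S then f S else 0 := fun y _ => by
          split_ifs
          exacts [f0 S, le_rfl]
        split_ifs with h
        · obtain ⟨-, y, hy, h1⟩ := mem_tb_t.1 h
          simpa [hy] using single_le_sum h0
            (mem_tb_single_t.2 ⟨hΛ y (mem_powerset.1 hS hy), h1.symm⟩)
        · exact sum_nonneg h0
    _ ≤ _ := by
        rw [sum_comm]
        refine (sum_le_card_nsmul _ _ _ fun y _ => by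
          rw [← sum_filter]
          exact sum_kw_t hΛ hD hR a0 e0 ε0 hε β y).trans ?_
        rw [nsmul_eq_mul]
        refine mul_le_mul_of_nonneg_right ?_ (by positivity)
        exact_mod_cast (card_tb_le_t n R {x}).trans_eq (by simp)

end torus

end Pool.Agent.Lib.MP_7f377f_mp.RG.Q4.Loc
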