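import Pool.Agent.Lib.MP_7f377f_mp.G.Q4Op2
import Pool.Agent.Lib.MP_7f377f_mp.G.TwBase
import Pool.Agent.Lib.MP_7f377f_mp.G.TqKit

/-! The torus with a vector of periods; the fluctuation operator on periodic fields. -/

noncomputable section

set_option linter.unusedSectionVars false
variable [Pool.Agent.Lib.MP_7f377f_mp.GD]
variable [Pool.Agent.Lib.MP_7f377f_mp.RG.Q4.Tws]

namespace Pool.Agent.Lib.MP_7f377f_mp.RG.Q4

open Finset Polynomial
open scoped InnerProductSpace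

attribute [local irreducible] box domT lbox cube

variable {O : Od} {c l : ℕ} {H H' : Set St} {W W' : Cf} {W0 : Conf} {A A' : Fld} {p q : ℂ[X]}
  {δ : ℝ} {f : Lk} {n : Fin 4 → ℕ} {x y : St}

theorem Ay_per_t (hW : PerC n W) (hA : PerV (fi l n) A) (y v : St) :
    Ay l (y + pv n v) W A = Ay l y W A := by
  obtain ⟨k, hk, e⟩ := hW v
  rw [← Ay_sh, e, hk.Ay, up_pv, hA v]

namespace Od

theorem top_per_t (hH : PerS n H) (hW : PerC n W) (hA : PerV (fi O.l n) A) :
    PerV (fi O.l n) (O.top H W A) := fun v => by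
  obtain ⟨k, hk, e⟩ := hW v
  rw [← up_pv, ← top_sh, hH v, e, hk.top, up_pv, hA v]

theorem regroup_t (h : O.Ok c) (hn : ∀ i, Odd (n i)) (hW : PerC n W) (hA : PerV (fi O.l n) A)
    (hA' : PerV (fi O.l n) A') :
    ∑ y ∈ domv n, ∑ t ∈ lbox O.l, dot (sh (up O.l y) A' t) (sh (up O.l y) (O.ham W A) t) =
      ∑ y ∈ domv n, cx O.h (Ay O.l y W A') (Ay O.l y W A) := by
  let g : St → Lk → ℂ := fun y e => dot (Ay O.l y W A' e) (cxL O.hL (Ay O.l y W A) e)
  have e1 : ∀ y, ∀ t ∈ lbox O.l, dot (sh (up O.l y) A' t) (sh (up O.l y) (O.ham W A) t) =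
      ∑ x ∈ box 2, g (y + x) (t.1 + up O.l (-x), t.2) := by
    intro y t ht
    have h0 := Op.yo_add_box (mem_lbox.1 ht)
    rw [sh, sh, ham, Op.dot_sum]
    refine sum_congr rfl fun x _ => ?_
    have e2 : t.1 + up O.l y - up O.l (y + x) = t.1 + up O.l (-x) := by
      rw [up_add, up_neg]; abel
    have e3 : t.1 + up O.l (-x) + up O.l (y + x) = t.1 + up O.l y := by
      rw [up_add, up_neg]; abel
    have e4 : Ay O.l (y + x) W A' (t.1 + up O.l (-x), t.2) =
        adq (cmb star (sh (y + x) W) (-x)) (A' (t.1 + up O.l y, t.2)) := by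
      simp only [Ay, adF, sh, h0, e3]
    simp only [g, h0, e2, ← dot_adq, e4]
  rw [sum_congr rfl fun y _ => sum_congr rfl (e1 y)]
  simp only [cx_eq h, Op.sum_fb]
  rw [sum_congr rfl fun y _ => sum_comm, sum_comm, sum_comm (s := domv n)]
  refine sum_nbij' (fun x => -x) (fun x => -x) (fun _ => neg_mem_box) (fun _ => neg_mem_box)
    (fun _ _ => neg_neg _) (fun _ _ => neg_neg _) fun x _ => ?_
  exact sum_dom_add hn (g := fun y => ∑ t ∈ lbox O.l, g y (t.1 + up O.l (-x), t.2))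
    (fun y v => by simp only [g, Ay_per_t hW hA, Ay_per_t hW hA']) x

theorem bp_top_t (h : O.Ok c) (hn : ∀ i, Odd (n i)) (hH : PerS n H) (hW : PerC n W)
    (hA : PerV (fi O.l n) A) (hA' : PerV (fi O.l n) A') : bp n O.l A' (O.top H W A) =
      bp n O.l (pj O.l H A') A - (O.Λ : ℂ)⁻¹ * O.QQ n W (pj O.l H A') (pj O.l H A) := by
  rw [top, bp_pj, QQ, ← regroup_t h hn hW (pj_per hH hA) (pj_per hH hA')]
  exact ((bpL n O.l _).map_sub _ _).trans (congrArg _ ((bpL n O.l _).map_smul _ _))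

end Od

variable {z z' : HH n l H}

namespace Od

variable {z z' : HH n O.l H}

theorem emb_TT_t (hn : ∀ i, Odd (n i)) (hH : PerS n H) (hW : PerQ n W0) :
    emb n O.l H (O.TT n H W0 z) = O.top H (cC W0) (emb n O.l H z) := by
  have : O.TT n H W0 z = res n O.l H (O.top H (cC W0) (emb n O.l H z)) := by
    rw [← topL_apply]; rfl
  rw [this, emb_res hn hH (top_real emb_real) (top_per_t hH hW.cC emb_per), pj_top]

theorem inner_TT_t (h : O.Ok c) (hn : ∀ i, Odd (n i)) (hH : PerS n H) (hW : PerQ n W0) :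
    ⟪z', O.TT n H W0 z⟫_ℝ =
      ⟪z', z⟫_ℝ - (O.QQ n (cC W0) (emb n O.l H z') (emb n O.l H z)).re / O.Λ := by
  have := inner_emb (z' := z') (z := O.TT n H W0 z) hn hH
  rw [emb_TT_t hn hH hW, bp_top_t h hn hH hW.cC emb_per emb_per, pj_emb hn hH, pj_emb hn hH,
    ← inner_emb hn hH, ← Complex.ofReal_inv] at this
  have := congrArg Complex.re this
  rw [Complex.ofReal_re, Complex.sub_re, Complex.ofReal_re, Complex.re_ofReal_mul] at this
  rw [this, div_eq_inv_mul]

theorem TT_symm_t (h : O.Ok c) (hn : ∀ i, Odd (n i)) (hH : PerS n H) (hW : PerQ n W0) :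
    (O.TT n H W0).IsSymmetric := fun z z' => by
  rw [real_inner_comm, inner_TT_t h hn hH hW, inner_TT_t h hn hH hW, real_inner_comm z z']
  simp only [QQ, cx_symm h.symm (Ay _ _ _ (emb n O.l H z))]

end Od

end Pool.Agent.Lib.MP_7f377f_mp.RG.Q4
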