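import Pool.Agent.Lib.MP_7f377f_mp.G.Q4Op3
import Pool.Agent.Lib.MP_7f377f_mp.G.TwBase
import Pool.Agent.Lib.MP_7f377f_mp.G.TqOp2

/-! Euclidean bounds for the fluctuation operator on the torus. -/

noncomputable section

set_option linter.unusedSectionVars false
variable [Pool.Agent.Lib.MP_7f377f_mp.GD]
variable [Pool.Agent.Lib.MP_7f377f_mp.RG.Q4.Tws]

namespace Pool.Agent.Lib.MP_7f377f_mp.RG.Q4

open Finset Polynomial
open scoped InnerProductSpace

attribute [local irreducible] box domT lbox cube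

variable {O O' : Od} {c l : ℕ} {H : Set St} {W : Cf} {W0 : Conf} {A A' : Fld} {p q : ℂ[X]}
  {δ θ : ℝ} {f : Lk} {n : Fin 4 → ℕ}

namespace Od

variable {z : HH n O.l H}

theorem QQ_ge_t (h : O.Ok c) (hn : ∀ i, Odd (n i)) (hH : PerS n H) (hW : PerQ n W0) (δ0 : 0 ≤ δ)
    (hδ : ∀ y, Fr H y → ∀ x ∈ box 5, ∀ μ ν, fq (sh y W0) x μ ν ≤ δ)
    (hs : (LL O.l : ℝ) ^ c * δ ≤ 1 / 10 ^ 7) : ‖z‖ ^ 2 ≤
      10 ^ 4 * (LL O.l : ℝ) ^ c * (O.QQ n (cC W0) (emb n O.l H z) (emb n O.l H z)).re := by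
  have L1 : 1 ≤ (LL O.l : ℝ) ^ c := one_le_pow₀ (by linarith [h.LL_ge])
  have δ1 : δ ≤ 1 / 10 ^ 7 := by nlinarith
  set A := emb n O.l H z with hA
  have q0 : ∀ e, 0 ≤ Op.nq (A e) := fun e => (sq_nonneg _).trans (Op.le_nq (emb_real e))
  let F : St → ℝ := fun y => 2 * (cx O.h (Ay O.l y (cC W0) A) (Ay O.l y (cC W0) A)).re +
    2 * ((LL O.l : ℝ) ^ c * (19200 * (24 * δ) ^ 2 *
      ∑ e ∈ lbox (fb O.l 1), Op.nq (A (e.1 + up O.l y, e.2))))
  have h1 : ∀ x, ∑ t ∈ lbox O.l, Op.nq (A (t.1 + up O.l x, t.2)) ≤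
      (LL O.l : ℝ) ^ c * ∑ y ∈ box 3, F (x + y) := fun x => by
    by_cases hx : Fr H x
    swap
    · rw [sum_eq_zero fun t ht => by
        rw [hA, emb_not hn hH fun h' => hx (Op.yo_add_box (mem_lbox.1 ht) x ▸ h'.2)]
        simp [Op.nq]]
      exact mul_nonneg (by positivity) (sum_nonneg fun y _ => add_nonneg (mul_nonneg zero_le_two
        (cx_nonneg h (Ay_real _ emb_real))) (mul_nonneg zero_le_two (mul_nonneg (by positivity)
          (mul_nonneg (by positivity) (sum_nonneg fun _ _ => q0 _)))))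
    set u := cmb Inv.inv (sh x W0)
    have hu : ∀ y, Uni (cS (u y)) := fun _ => uni_cS _
    have := coer_loc h (W0 := gauge Inv.inv u (sh x W0)) (ε := 24 * δ) (by positivity) (by linarith)
      (fun e he => by
        have := comb_small (G := gauge Inv.inv u (sh x W0)) (fun _ _ h _ => fix_tr _ h)
          (fun v hv μ ν => by
            rw [hol_gauge_inv, S3.norm_conj_sub]
            exact hδ x hx v (box_mono (by norm_num) hv) μ ν) he
        rw [cC, cS, ← cq_one, ← cq_sub]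
        exact (norm_cq _).2.trans (by push_cast at this; linarith))
      (A := adF (fun y => cS (u (yo O.l y))) (sh (up O.l x) A))
      (fun e => adq_real _ (emb_real _)) fun f hf => by
        rw [adF, sh, hA, emb_not hn hH fun h' => h'.1 ((tree_add_up _ _ _ _).2 hf), adq_zero]
    simp only [cC_gauge, Ay_gauge hu, cx_adF _ h.rng (hu _), ← sh_cC, Ay_sh] at this
    simpa only [adF, Op.nq_adq (hu _), sh, F, add_comm x, up_add, add_assoc] using this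
  have hp : PerV (fi O.l n) fun e => Op.nq (A e) := emb_per.map _
  have h2 : ∀ y, ∑ x ∈ domv n, F (x + y) = ∑ x ∈ domv n, F x := sum_dom_add hn fun x v => by
    simp only [F, Ay_per_t hW.cC emb_per, hA, up_add, ← add_assoc, up_pv, emb_per.app]
  have h3 : ∑ x ∈ domv n, F x = 2 * (O.QQ n (cC W0) A A).re +
      2 * ((LL O.l : ℝ) ^ c * (19200 * (24 * δ) ^ 2 * (81 * ‖z‖ ^ 2))) := by
    have := sum_per hn hp 1 0
    simp only [add_zero] at this
    simp only [F, sum_add_distrib, ← mul_sum, this, QQ, Complex.re_sum, norm_emb hn hH, ← hA]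
    norm_num
  have h4 := sum_le_sum fun x (_ : x ∈ domv n) => h1 x
  rw [← norm_emb hn hH, ← mul_sum, sum_comm, sum_congr rfl fun y _ => h2 y, sum_const, card_box, h3,
    nsmul_eq_mul] at h4
  have h5 := mul_le_mul_of_nonneg_right (pow_le_pow_left₀ (by positivity) hs 2) (sq_nonneg ‖z‖)
  have h6 := mul_nonneg (zero_le_one.trans L1) (QQ_nonneg (n := n) (W0 := W0) h (emb_real (z := z)))
  push_cast at h4
  nlinarith

theorem TT_mem_t (h : O.Ok c) (hn : ∀ i, Odd (n i)) (hH : PerS n H) (hW : PerQ n W0) (δ0 : 0 ≤ δ)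
    (hs : (LL O.l : ℝ) ^ (2 * c + 10) * δ ≤ 1)
    (hδ : ∀ y, Fr H y → ∀ x ∈ box 5, ∀ μ ν, fq (sh y W0) x μ ν ≤ δ) (z : HH n O.l H) :
    0 ≤ ⟪z, O.TT n H W0 z⟫_ℝ ∧
      ⟪z, O.TT n H W0 z⟫_ℝ ≤ (1 - ((LL O.l : ℝ) ^ (2 * c + 2))⁻¹) * ‖z‖ ^ 2 := by
  have hL := h.LL_ge
  have h1 := QQ_ge_t (z := z) h hn hH hW δ0 hδ ((h.small δ0 hs (by omega)).trans (by norm_num))
  have h2 := QQ_nonneg (n := n) (W0 := W0) h (emb_real (z := z))
  rw [inner_TT_t h hn hH hW, real_inner_self_eq_norm_sq]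
  refine ⟨sub_nonneg.2 ((div_le_iff₀' h.lam_pos).2 (QQ_le h hn hH)), ?_⟩
  rw [sub_mul, one_mul, sub_le_sub_iff_left, le_div_iff₀ h.lam_pos, h.lam, inv_mul_eq_div,
    div_mul_eq_mul_div, div_le_iff₀ (by positivity)]
  generalize (O.QQ n (cC W0) (emb n O.l H z) (emb n O.l H z)).re = Q at h1 h2
  calc _ ≤ 10 ^ 4 * (LL O.l : ℝ) ^ c * Q * (LL O.l : ℝ) ^ (c + 1) := by gcongr
    _ ≤ LL O.l * (LL O.l : ℝ) ^ c * Q * (LL O.l : ℝ) ^ (c + 1) := by gcongr; linarith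
    _ = _ := by ring

theorem top_l2_real_t (h : O.Ok c) (hs : (LL O.l : ℝ) ^ (2 * c + 10) * δ ≤ 1) (hn : ∀ i, Odd (n i))
    (hH : PerS n H) (hW : PerQ n W0) (δ0 : 0 ≤ δ)
    (hδ : ∀ y, Fr H y → ∀ x ∈ box 5, ∀ μ ν, fq (sh y W0) x μ ν ≤ δ) (hA : PerV (fi O.l n) A) :
    nrm2 n O.l (O.top H (cC W0) A) ≤ (1 - ((LL O.l : ℝ) ^ (2 * c + 2))⁻¹) * nrm2 n O.l A := by
  have γ0 : 0 < 1 - ((LL O.l : ℝ) ^ (2 * c + 2))⁻¹ :=
    sub_pos.2 (inv_lt_one_of_one_lt₀ (one_lt_pow₀ (by linarith [h.LL_ge]) (by omega)))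
  have h1 := norm_le_of_inner (TT_symm_t h hn hH hW) γ0 (TT_mem_t h hn hH hW δ0 hs hδ)
  set x := res n O.l H fun e k => (A e k).re with hx
  set x' := res n O.l H fun e k => (A e k).im with hx'
  have h2 : pj O.l H A = emb n O.l H x + Complex.I • emb n O.l H x' := by
    rw [hx, hx', emb_res hn hH (fun _ _ => Complex.ofReal_im _) (hA.map fun b k => ((b k).re : ℂ)),
      emb_res hn hH (fun _ _ => Complex.ofReal_im _) (hA.map fun b k => ((b k).im : ℂ)),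
      ← pjL_apply, ← pjL_apply, ← pjL_apply, ← map_smul, ← map_add]
    congr 1
    funext e k
    simp [mul_comm Complex.I]
  refine le_trans (abs_le_of_sq_le_sq' ?_ (mul_nonneg γ0.le nrm2_nonneg)).2
    (mul_le_mul_of_nonneg_left (nrm2_pj (H := H)) γ0.le)
  rw [← top_pj, h2, ← topL_apply, map_add, map_smul, topL_apply, topL_apply, ← emb_TT_t hn hH hW,
    ← emb_TT_t hn hH hW, mul_pow, nrm2_emb hn hH, nrm2_emb hn hH, mul_add, ← mul_pow, ← mul_pow]
  gcongr <;> exact h1 _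

end Od

end Pool.Agent.Lib.MP_7f377f_mp.RG.Q4
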