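import Pool.Agent.Lib.MP_7f377f_mp.G.Q4OpK2
import Pool.Agent.Lib.MP_7f377f_mp.G.TwBase
import Pool.Agent.Lib.MP_7f377f_mp.G.TqOp3

/-! Bounds for polynomials in the operator built from kernels. -/

noncomputable section

set_option linter.unusedSectionVars false
variable [Pool.Agent.Lib.MP_7f377f_mp.GD]
variable [Pool.Agent.Lib.MP_7f377f_mp.RG.Q4.Tws]

namespace Pool.Agent.Lib.MP_7f377f_mp.RG.Q4

open Finset Polynomial Od

attribute [local irreducible] box domT lbox cube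

variable {l c R : ℕ} {Λ δ : ℝ} {H H' : Set St} {ka ka' : St → Kf} {A A' : Fld} {p : ℂ[X]} {f : Lk}
  {n : Fin 4 → ℕ} {O : Od} {W : Cf} {W0 : Conf}

theorem topK_l2_t (h : O.Ok c) (hδ : (LL O.l : ℝ) ^ (2 * c + 10) * δ ≤ 1) (hn : ∀ i, Odd (n i))
    (hH : PerS n H) (h0 : PerQ n W0) (hg : ∀ y, Gk O δ H ka W W0 y) (hA : PerV (fi O.l n) A) :
    nrm2 n O.l (topK O.l O.Λ H ka A) ≤ O.θ c * nrm2 n O.l A := by
  wlog δ0 : 0 ≤ δ generalizing δ
  · exact this (δ := 0) (by simp) (fun y => (hg y).zero δ0) le_rfl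
  have hL := h.LL_ge
  have h1 := top_l2_real_t h hδ hn hH h0 δ0 (fun y hy => ((hg y).1 hy).1) hA
  have h2 := nrm2_ker hn hL hA δ0 (top_pert h δ0
    (by linarith [h.small δ0 hδ (j := 0) (by omega)]) fun y => (hg y).1)
  have h2' := nrm2_ker hn hL hA δ0 (topK_sub h.lam_ge2 δ0 fun y => (hg y).2)
  have h3 : 2 * (δ * (LL O.l : ℝ) ^ 5) ≤ (2 * (LL O.l : ℝ) ^ (2 * c + 2))⁻¹ := by
    rw [← one_div, le_div_iff₀ (by positivity)]
    have := h.small δ0 hδ (j := 2 * c + 7) (by omega)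
    calc _ = 4 * ((LL O.l : ℝ) ^ (2 * c + 7) * δ) := by ring
      _ ≤ _ := by linarith
  have h4 := mul_le_mul_of_nonneg_right h3 (nrm2_nonneg (n := n) (l := O.l) (A := A))
  rw [nrm2_eq, map_sub] at h2 h2'
  rw [← Od.top_eq h] at h2'
  rw [nrm2_eq] at h1 ⊢
  have h5 := norm_sub_norm_le (toE n O.l (O.top H W A)) (toE n O.l (O.top H (cC W0) A))
  have h6 := norm_sub_norm_le (toE n O.l (topK O.l O.Λ H ka A)) (toE n O.l (O.top H W A))
  rw [Od.θ, mul_inv] at *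
  linarith

end Pool.Agent.Lib.MP_7f377f_mp.RG.Q4
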