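import Pool.Agent.Lib.MP_7f377f_mp.G.Q4LocO
import Pool.Agent.Lib.MP_7f377f_mp.G.TwBase
import Pool.Agent.Lib.MP_7f377f_mp.G.TqLoc
import Pool.Agent.Lib.MP_7f377f_mp.G.TqOpK2

/-! The determinant marks of the fluctuation operator: explicit bounds. -/

noncomputable section

set_option linter.unusedSectionVars false
variable [Pool.Agent.Lib.MP_7f377f_mp.GD]
variable [Pool.Agent.Lib.MP_7f377f_mp.RG.Q4.Tws]

namespace Pool.Agent.Lib.MP_7f377f_mp.RG.Q4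

open Finset Polynomial Loc Od

attribute [local irreducible] box domT lbox cube

variable {c : ℕ} {δ : ℝ} {H : Set St} {ka : St → Kf} {n : Fin 4 → ℕ} {O : Od} {W : Cf}
  {W0 : Conf} {S : Finset St}

theorem gk_cq_t {U V : Conf} (h : Cq U V) {y : St} (hg : Gk O δ H ka (cC U) U y) :
    Gk O δ H ka (cC V) V y := by
  have e : kh O.l O.h (cC (sh y V)) = kh O.l O.h (cC (sh y U)) :=
    (h.sh y).eqC fun _ W hk => by unfold kh; simp only [hk.Ay]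
  have u : ∀ (X : Conf) (e : Lk), cC X e * star (cS (X e)) = 1 := fun _ _ => (uni_cS _).mul_star
  simp only [Gk, Gp, sh_cC, u] at hg ⊢
  simpa only [e, (h.sh y).fq] using hg

theorem gk_per_t (hH : PerS n H) (hk : PerK n ka) (h0 : PerQ n W0) {x y : St}
    (h : Dv n (x - y)) (hg : Gk O δ H ka (cC W0) W0 y) : Gk O δ H ka (cC W0) W0 x := by
  obtain ⟨v, hv⟩ := dv_iff.1 h
  rw [sub_eq_iff_eq_add'.1 hv, ← gk_sh, hH v, hk.shK, sh_cC]
  exact gk_cq_t (h0 v) hg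

theorem nrK_of_t (h : O.Ok c) (hδ : (LL O.l : ℝ) ^ (2 * c + 10) * δ ≤ 1) (hn : ∀ i, Odd (n i))
    (hH : PerS n H) (hk : PerK n ka) (h0 : PerQ n W0) {R : ℕ} {y : St}
    (hg : ∀ x ∈ box (R + 1), Gk O δ H ka (cC W0) W0 (x + y)) : NrK n O.l O.Λ R (O.θ c) H ka y :=
  fun H' h1 h2 h3 _ => topK_l2_t h hδ hn h1 h0 (W := cC W0) fun x => ⟨fun hx => by
    obtain ⟨v, hv, h4⟩ := h3 x hx
    exact (gk_per_t hH hk h0 h4 (hg v (box_mono R.le_succ hv))).1 (hx.anti h2), fun hx => by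
    obtain ⟨w, hw, h4⟩ := hx
    obtain ⟨v, hv, h5⟩ := h3 _ h4
    refine (gk_per_t hH hk h0 ?_ (hg (v + -w) (add_mem_box hv (neg_mem_box hw)))).2
      ⟨w, hw, h4.anti h2⟩
    rwa [show x - (v + -w + y) = x + w - (v + y) by abel]⟩

/-- the bound for a mark -/
theorem dmK_le_t (h : O.Ok c) (hδ : (LL O.l : ℝ) ^ (2 * c + 10) * δ ≤ 1) (hn : ∀ i, Odd (n i))
    (hH : PerS n H) (hk : PerK n ka) (h0 : PerQ n W0) (hS : S ⊆ domv n)
    (hg : ∀ y ∈ S, ∀ x ∈ box (4 * O.N + 8), Gk O δ H ka (cC W0) W0 (x + y)) :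
    ‖dmK n O.l O.Λ O.N H ka S‖ ≤ O.kd c n S :=
  dmK_norm hn hH hk (θ_mem h).1 (θ_mem h).2 le_rfl h.ed_small.1 hS
    fun y hy => nrK_of_t h hδ hn hH hk h0 (hg y hy)

/-- the weighted sum of the majorants over the supports which contain a point -/
theorem kd_sum_t (h : O.Ok c) {n : ℕ} (hn : Odd n) {R D : ℕ} (hD : 4 * O.N + 2 ≤ D) (hR : R ≤ D)
    {a e : ℝ} (a0 : 0 ≤ a) (e0 : 0 ≤ e) (ha : a + e * (2 * R + 1) ^ 4 ≤ O.l) (x : St) :
    ∑ S ∈ (domT n).powerset.filter (fun S => x ∈ tb_t n R S), O.kd c (sd n) S *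
      Real.exp (a * tau_t n D (tb_t n R S) + e * (tb_t n R S).card) ≤
      (2 * R + 1) ^ 4 * Real.exp (-(O.l : ℝ) ^ 2) := by
  have ε0 := h.ed_nonneg
  have h1 := h.ed_le
  have h2 := h.one_le_dL
  have h3 : Real.exp (2 * (a + e * (2 * R + 1) ^ 4)) ≤ Real.exp (2 * O.l) := by gcongr
  have h4 : 72 * GD.d * (LL O.l : ℝ) ^ 4 * (8 * O.N + 5) ^ 4 * O.ed c *
      Real.exp (2 * (a + e * (2 * R + 1) ^ 4)) ≤ Real.exp (-(O.l : ℝ) ^ 2) :=
    (mul_le_mul h1 h3 (by positivity) (by positivity)).trans_eq (by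
      rw [← Real.exp_add, sub_add_cancel])
  have e1 : (2 * ((4 * O.N + 2 : ℕ) : ℝ) + 1) = 8 * O.N + 5 := by push_cast; ring
  refine (sum_kw'_t (fun y hy => rc_eq_t hn hy) hD hR a0 e0 ε0 ?_ _ x).trans
    (mul_le_mul_of_nonneg_left (le_trans (le_of_eq ?_) h4) (by positivity))
  · have h5 : Real.exp (a + e * (2 * R + 1) ^ 4) ≤ Real.exp (2 * (a + e * (2 * R + 1) ^ 4)) :=
      Real.exp_le_exp.2 (by linarith [show 0 ≤ a + e * (2 * R + 1) ^ 4 by positivity])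
    have h6 := mul_le_mul_of_nonneg_left h5 (show 0 ≤ (8 * O.N + 5 : ℝ) ^ 4 * O.ed c by positivity)
    have h7 : 0 ≤ (8 * O.N + 5 : ℝ) ^ 4 * O.ed c * Real.exp (2 * (a + e * (2 * R + 1) ^ 4)) := by
      positivity
    have h8 := h4.trans h.exp_le
    rw [e1]
    nlinarith
  · rw [e1]
    push_cast
    ring

/-- the determinant of the preconditioner on the active links -/
theorem det_pAct_t (h : O.Ok c) (hδ : (LL O.l : ℝ) ^ (2 * c + 10) * δ ≤ 1) (hn : ∀ i, Odd (n i))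
    (hN : ∀ i, 2 * O.N < n i) (hH : PerS n H) (hk : PerK n ka) (hr : ∀ y, Nf H y → Kr (ka y))
    (hs : ∀ y, Ks (ka y)) (h0 : PerQ n W0) (hg : ∀ y, Gk O δ H ka W W0 y) :
    ((|LinearMap.det (pAct n O.l O.Λ (pP O.N) H ka)| : ℝ) : ℂ) =
      Complex.exp (∑ y ∈ domv n, dtK O.l O.Λ O.N (shS y H) (shK y ka)) *
        ∏ S ∈ (domv n).powerset, (1 + dmK n O.l O.Λ O.N H ka S) :=
  det_K' hn hN hH hk hr hs (θ_mem h).1 h.θ_lt (fun _ => topK_l2_t h hδ hn hH h0 hg) h.N_pos le_rfl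
    h.ed_small.2 _ (pAct_spec hn hH hk hr fun i => (Od.coeff_real _ i).1)

theorem det_pAct_exp_t (h : O.Ok c) (hδ : (LL O.l : ℝ) ^ (2 * c + 10) * δ ≤ 1)
    (hn : ∀ i, Odd (n i)) (hN : ∀ i, 2 * O.N < n i) (hH : PerS n H) (hk : PerK n ka)
    (hr : ∀ y, Nf H y → Kr (ka y)) (hs : ∀ y, Ks (ka y)) (h0 : PerQ n W0)
    (hg : ∀ y, Gk O δ H ka W W0 y) :
    ((|LinearMap.det (pAct n O.l O.Λ (pP O.N) H ka)| : ℝ) : ℂ) =
      Complex.exp (∑ y ∈ domv n, dtK O.l O.Λ O.N (shS y H) (shK y ka) +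
        ∑ S ∈ (domv n).powerset, qdK n O.l O.Λ O.N H ka S) :=
  det_K hn hN hH hk hr hs (θ_mem h).1 h.θ_lt (fun _ => topK_l2_t h hδ hn hH h0 hg) h.N_pos le_rfl
    h.ed_small.2 _ (pAct_spec hn hH hk hr fun i => (Od.coeff_real _ i).1)

theorem det_pAct_ne_t (h : O.Ok c) (hδ : (LL O.l : ℝ) ^ (2 * c + 10) * δ ≤ 1)
    (hn : ∀ i, Odd (n i)) (hN : ∀ i, 2 * O.N < n i) (hH : PerS n H) (hk : PerK n ka)
    (hr : ∀ y, Nf H y → Kr (ka y)) (hs : ∀ y, Ks (ka y)) (h0 : PerQ n W0)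
    (hg : ∀ y, Gk O δ H ka W W0 y) : LinearMap.det (pAct n O.l O.Λ (pP O.N) H ka) ≠ 0 := fun e => by
  have := det_pAct_exp_t h hδ hn hN hH hk hr hs h0 hg
  rw [e, abs_zero, Complex.ofReal_zero] at this
  exact Complex.exp_ne_zero _ this.symm

end Pool.Agent.Lib.MP_7f377f_mp.RG.Q4
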