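import Pool.Agent.Lib.MP_7f377f_mp.G.Q4MeasInd
import Pool.Agent.Lib.MP_7f377f_mp.G.TwBase
import Pool.Agent.Lib.MP_7f377f_mp.G.TqKit

/-! Independence under product measures, averages of polymer activities. -/

noncomputable section

set_option linter.unusedSectionVars false
variable [Pool.Agent.Lib.MP_7f377f_mp.GD]
variable [Pool.Agent.Lib.MP_7f377f_mp.RG.Q4.Tws]

namespace Pool.Agent.Lib.MP_7f377f_mp.RG.Q4

open Finset Ms MeasureTheory Measure
open scoped ENNReal

namespace Mx

/-- average over the gauge transformations of period `n` -/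
def gav_t (n : ℕ) (K : Conf → ℂ) (W : Conf) : ℂ := ∫ γ, K (gauge Inv.inv (pcsT n γ) W) ∂GG

theorem cont_gp_t (n : ℕ) :
    Continuous fun z : Conf × (St → S3) => gauge Inv.inv (pcsT n z.2) z.1 :=
  continuous_pi fun b => by unfold gauge pcsT; fun_prop

theorem meas_gp_t (n : ℕ) (W : Conf) : Measurable fun γ : St → S3 => gauge Inv.inv (pcsT n γ) W :=
  ((cont_gp_t n).comp (Continuous.prodMk_right W)).measurable

theorem meas_gav_t (n : ℕ) {K : Conf → ℂ} (hK : Measurable K) : Measurable (gav_t n K) :=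
  ((hK.comp (cont_gp_t n).measurable).stronglyMeasurable.integral_prod_right' (ν := GG)).measurable

theorem gav_gauge_t {n : ℕ} {K : Conf → ℂ} (hK : Measurable K) {u : St → S3} (hu : PST n u)
    (W : Conf) : gav_t n K (gauge Inv.inv u W) = gav_t n K W := by
  have hp : ∀ y, MeasurePreserving (fun g => g * u y) haar haar :=
    fun y => measurePreserving_mul_right haar _
  have e := infinitePi_map_pi (fun _ : St => haar) fun y => (hp y).measurable
  simp only [fun y => (hp y).map_eq] at e
  rw [gav_t, gav_t]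
  conv_rhs => rw [GG, ← e]
  refine Eq.trans ?_ (integral_map (measurable_pi_lambda _ fun y => (hp y).measurable.comp
    (measurable_pi_apply y)).aemeasurable (hK.comp (meas_gp_t n W)).aestronglyMeasurable).symm
  refine integral_congr_ae (.of_forall fun γ => ?_)
  simp only [gauge_gauge, Function.comp]
  congr 2
  funext y
  simp only [pcsT, PS_iff_t.1 hu _ _ (cg_rc_t n y)]

theorem gav_le_t {n : ℕ} {K : Conf → ℂ} {W : Conf} {b : ℝ}
    (h : ∀ u, PST n u → ‖K (gauge Inv.inv u W)‖ ≤ b) : ‖gav_t n K W‖ ≤ b := by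
  simpa [gav_t] using norm_integral_le_of_norm_le_const (μ := GG)
    (.of_forall fun γ => h _ (PS_iff_t.2 (PS_pcs_t n γ)))

theorem gav_dep_t {n : ℕ} {K : Conf → ℂ} {S : Set Lk} (h : DependsOn K S) : DependsOn (gav_t n K) S :=
  fun _ _ e => integral_congr_ae (.of_forall fun _ => h fun b hb => by simp only [gauge, e b hb])

theorem gav_congr_t {n : ℕ} {K K' : Conf → ℂ} {W W' : Conf}
    (h : ∀ u, PST n u → K (gauge Inv.inv u W) = K' (gauge Inv.inv u W')) :
    gav_t n K W = gav_t n K' W' :=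
  integral_congr_ae (.of_forall fun γ => h _ (PS_iff_t.2 (PS_pcs_t n γ)))

/-- a function of the links with both ends in `X` sees only the gauge variables in `X` -/
theorem dep_gp_t {n : ℕ} {K : Conf → ℂ} {X : Set St}
    (h : DependsOn K {b | rcT n b.1 ∈ X ∧ rcT n (b.1 + un b.2) ∈ X}) (W : Conf) :
    DependsOn (fun γ : St → S3 => K (gauge Inv.inv (pcsT n γ) W)) X := fun _ _ e =>
  h fun b hb => by simp only [gauge, pcsT, e _ hb.1, e _ hb.2]

/-- the activities of an invariant partition function may be taken gauge invariant -/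
theorem ZL_gav_t {n : ℕ} (Λ : Finset St) {K : Finset St → Finset (Finset St) → Conf → ℂ}
    {I : St → Conf → ℂ} {W : Conf} {Z : ℂ} (hm : ∀ X c, Measurable (K X c))
    (hb : ∀ X c, ∃ M, ∀ V, ‖K X c V‖ ≤ M)
    (hd : ∀ X c, DependsOn (K X c) {b | rcT n b.1 ∈ X ∧ rcT n (b.1 + un b.2) ∈ X})
    (hI : ∀ u, PST n u → ∀ y, I y (gauge Inv.inv u W) = I y W)
    (hZ : ∀ u, PST n u →
      ZL Λ (K · · (gauge Inv.inv u W)) (I · (gauge Inv.inv u W)) = Z) :
    ZL Λ (fun X c => gav_t n (K X c) W) (I · W) = Z := by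
  have h := int_ZL (m := haar) Λ (K := fun γ X c => K X c (gauge Inv.inv (pcsT n γ) W))
    (fun X c => (hm X c).comp (meas_gp_t n W)) (fun X c => by
      obtain ⟨M, hM⟩ := hb X c
      exact .of_bound ((hm X c).comp (meas_gp_t n W)).aestronglyMeasurable M
        (.of_forall fun γ => hM _)) (fun X c => dep_gp_t (hd X c) W) (I · W)
  have e : ∀ γ, ZL Λ (K · · (gauge Inv.inv (pcsT n γ) W)) (I · W) = Z := fun γ => by
    have hu := PS_iff_t.2 (PS_pcs_t n γ)
    simpa only [hI _ hu] using hZ _ hu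
  simpa [e, gav_t, GG] using h.symm

end Mx

end Pool.Agent.Lib.MP_7f377f_mp.RG.Q4
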