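import Pool.Agent.Lib.MP_7f377f_mp.G.Q4Defs
import Pool.Agent.Lib.MP_7f377f_mp.G.TwBase
import Pool.Agent.Lib.MP_7f377f_mp.G.TqCovC
import Pool.Agent.Lib.MP_7f377f_mp.G.TqHole
import Pool.Agent.Lib.MP_7f377f_mp.G.TqLocO
import Pool.Agent.Lib.MP_7f377f_mp.G.TqMeasInd

/-! The polymer representation with holes and the objects of one step: definitions. -/

noncomputable section

set_option linter.unusedSectionVars false
variable [Pool.Agent.Lib.MP_7f377f_mp.GD]
variable [Pool.Agent.Lib.MP_7f377f_mp.RG.Q4.Tws]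

namespace Pool.Agent.Lib.MP_7f377f_mp.RG.Q4

open Finset MeasureTheory Polynomial
open scoped Classical

/-! ### The representation -/

/-- the polymer representation on the torus of side `n` -/
def Rep_t (p : Pa) (n : ℕ) (Φ : Lx) (K : Ac) (U : Conf) : ℂ :=
  ZL (domT n) (fun X c => K X c U) (Ix p Φ (pcT n U))

/-- activities majorised by `k` -/
structure KM_t (p : Pa) (n : ℕ) (k : Mj) (K : Ac) : Prop where
  meas : ∀ X c, Measurable (K X c)
  per : ∀ X c U, K X c (pcT n U) = K X c U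
  dep : ∀ X c, DependsOn (K X c) {b | rcT n b.1 ∈ X ∧ rcT n (b.1 + un b.2) ∈ X}
  gi : ∀ X c u U, PST n u → K X c (gauge Inv.inv u U) = K X c U
  bd : ∀ X c U, PerT n U → ‖K X c U‖ ≤ k X c * Real.exp (-(p.lam * Rg c U))
  ci : ∀ X c, Ci n (K X c)

/-- the weight of a labelled polymer -/
def wgt_t (p : Pa) (n : ℕ) (X : Finset St) (c : Finset (Finset St)) : ℝ :=
  Real.exp (p.a * tau_t n p.D X + ∑ C ∈ c, (p.G0 + p.G2 * tau_t n p.D C))

/-- the norm of a majorant -/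
def kN_t (p : Pa) (n : ℕ) (k : Mj) (θ : ℝ) : Prop := (∀ X c, 0 ≤ k X c) ∧
  ∀ x, ∑ o ∈ (lps (domT n)).filter (fun o => x ∈ o.1), k o.1 o.2 * wgt_t p n o.1 o.2 ≤ θ

/-- translate of a set of sites of the torus -/
def trS_t (n : ℕ) (v : St) (X : Finset St) : Finset St := X.image fun x => rcT n (x + v)

/-- local exponents seen from `v` -/
def trL_t (n : ℕ) (v : St) (Φ : Lx) : Lx := fun x => Φ (rcT n (x + v))

/-- activities seen from `v` -/
def trA_t (n : ℕ) (v : St) (K : Ac) : Ac :=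
  fun X c U => K (trS_t n v X) (c.image (trS_t n v)) (shT n (-v) (pcT n U))

/-- translation covariant data -/
def TCov_t (n : ℕ) (ψ : Lx) (K : Ac) : Prop :=
  ∀ v, trL_t n v ψ = ψ ∧ ∀ o ∈ lps (domT n), trA_t n v K o.1 o.2 = K o.1 o.2

/-! ### Tree data -/

/-! ### The objects -/

namespace Sd

variable (S : Sd)

/-! #### Functionals without holes, for the block at the origin -/

/-- the small polymers which meet the block at the origin -/
def X1s_t : Finset (Finset St) :=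
  (domT S.nf).powerset.filter fun X => tau_t S.nf S.p.D X = 1 ∧ 0 ∈ dn_t S.l S.n X

/-- the share of the block at the origin in the smoothed activity of a small polymer -/
def Fs_t (K : Ac) (X : Finset St) (B : Fld) : ℂ :=
  ctr S.p'.R S.p'.ρ (S.Fsr K X) B / (dn_t S.l S.n X).card

/-- the part of the new small term which is linear in the data, for the block at the origin -/
def Pl_t (ψ : Lx) (K : Ac) (B : Fld) : ℂ :=
  (S.pz ψ B - S.pz ψ 0) - ∑ X ∈ S.X1s_t, (S.Fs_t K X B - S.Fs_t K X 0)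

/-- the constant extracted from the block at the origin -/
def cX_t (ψ : Lx) (K : Ac) : ℂ :=
  S.dt0 (S.wB 0) - S.pz ψ 0 + ∑ X ∈ S.X1s_t, S.Fs_t K X 0 - S.c1

/-- the small terms seen from the block `y` -/
def ψy_t (ψ : Lx) (y : St) : Lx := trL_t S.nf (up S.l y) ψ

/-- the activities seen from the block `y` -/
def Ky_t (K : Ac) (y : St) : Ac := trA_t S.nf (up S.l y) K

/-- the new small terms -/
def PL_t (ψ : Lx) (K : Ac) : Lx := fun y => S.Pl_t (S.ψy_t ψ y) (S.Ky_t K y)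

/-- the total exponent at the coarse level -/
def Φ'_t (ψ : Lx) (K : Ac) : Lx :=
  fun y B => S.β * (cx S.m1 B B + S.T1 B) + S.ol B + S.PL_t ψ K y B

/-- the contribution of the block `y` to the free energy -/
def Ey_t (ψ : Lx) (K : Ac) (y : St) : ℂ :=
  (Real.log (S.C0 / (∫ g, hk0 (S.β * S.L ^ 2) g ∂haar) ^ 4) : ℝ) +
    S.cX_t (S.ψy_t ψ y) (S.Ky_t K y) - ∑ u ∈ S.prs, S.c2 u / 2

/-! #### The variables and the factors of a block -/

/-- the determinant marks -/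
def dZ_t (W : Conf) (Z : Finset St) : ℂ := dmK (sd S.n) S.l S.Λ S.N (S.H W) (S.ka (cC W)) Z

/-! #### The expansion -/

/-- the sites of the coarse torus -/
def Λ'_t : Finset St := domT S.n

/-- all marks -/
def mks_t : Finset Mk := S.Λ'_t.disjSum ((S.Λ'_t ×ˢ S.prs).disjSum
  ((S.Λ'_t ×ˢ S.X1s_t).disjSum (S.Λ'_t.powerset.erase ∅)))

/-- all objects -/
def obs_t : Finset Ob := ((lps (domT S.nf)).disjSum (S.Λ'_t.disjSum S.Λ'_t)).disjSum S.mks_t

/-- the coarse sites occupied by an object -/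
def bs_t : Ob → Finset St
  | .inl (.inl o) => dn_t S.l S.n o.1
  | .inl (.inr (.inl y)) => {y}
  | .inl (.inr (.inr y)) => {y}
  | .inr (.inl y) => {y}
  | .inr (.inr (.inl q)) => {q.1, rcT S.n (q.1 + q.2)}
  | .inr (.inr (.inr (.inl q))) => dn_t S.l S.n (trS_t S.nf (up S.l q.1) q.2)
  | .inr (.inr (.inr (.inr Z))) => Z

/-- the support of an object -/
def sp_t (o : Ob) : Finset St := tb_t S.n (13 * S.D0) (S.bs_t o)

/-- the region which is not calm -/
def Oh_t (O : Finset Ob) : Finset St := tb_t S.n (5 * S.D0) (Hh_t S.l S.n (CC O) (Wk O) ∪ Dbl O)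

/-- the new cores -/
def lab_t (W : Conf) (O : Finset Ob) : Finset (Finset St) :=
  ncs_t S.l S.n (3 * S.D0) S.p'.D S.ε2 (fs W) (CC O) (Wk O)

/-- the factor of a mark; `Ω` is the region which is not calm -/
def jm_t (ψ : Lx) (K : Ac) (W : Conf) (v : VB) (Ω : Finset St) : Mk → ℂ
  | .inl y => if y ∈ Ω then 0 else
      S.fm (S.ψy_t ψ y) (sh y (cC W)) (sh (up S.l y) (vz S.l v))
  | .inr (.inl q) => Complex.exp (S.c2 q.2 / 2) - 1
  | .inr (.inr (.inl q)) => if q.1 ∈ Ω then 0 else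
      Complex.exp (-S.Fs_t (S.Ky_t K q.1) q.2 (Bx q.1 (cC W))) - 1
  | .inr (.inr (.inr Z)) => S.dZ_t W Z

/-- the factor of a block which is not calm -/
def hf_t (ψ : Lx) (K : Ac) (W : Conf) (v : VB) (O : Finset Ob) (y : St) : ℂ :=
  S.Gn (sh y W) (shv y v) * S.Ib ψ ((CC O).biUnion id) (S.Uv W v) y *
    Complex.exp (-S.cX_t (S.ψy_t ψ y) (S.Ky_t K y) +
      if y ∈ (S.lab_t W O).biUnion id then 0 else S.Φ'_t ψ K y (Bx y (cC W)))

/-- indicators of large or small block fields -/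
def wf_t (W : Conf) (O : Finset Ob) : ℂ :=
  (∏ y ∈ Wk O, (1 - chi S.p' W y)) * ∏ y ∈ (S.lab_t W O).biUnion id \ Wk O, chi S.p' W y

/-- the integrand of a family of objects -/
def FO_t (ψ : Lx) (K : Ac) (W : Conf) (O : Finset Ob) (v : VB) : ℂ :=
  (if (olds O : Set (LP St)).PairwiseDisjoint (fun o => o.1) then
      ∏ o ∈ olds O, K o.1 o.2 (S.Uv W v) else 0) *
    (∏ y ∈ S.Oh_t O, S.hf_t ψ K W v O y) * (∏ m ∈ O.toRight, S.jm_t ψ K W v (S.Oh_t O) m) *
    ∏ y ∈ us S.sp_t O, S.df v O y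

/-- the weight of a family of objects -/
def wO_t (ψ : Lx) (K : Ac) (W : Conf) (O : Finset Ob) : ℂ :=
  S.wf_t W O * ∫ v, S.FO_t ψ K W O (pcW S.l S.n W v) ∂PB S.l (nu S.zm)

/-- the sites well inside `Y` -/
def Din_t (Y : Finset St) : Finset St := Y.filter fun y => tb_t S.n (S.p'.R + 2) {y} ⊆ Y

/-- the new activities for periodic fields, before the gauge average -/
def Kr_t (ψ : Lx) (K : Ac) (Y : Finset St) (c : Finset (Finset St)) (W : Conf) : ℂ :=
  (∑ O ∈ (clus S.sp_t S.obs_t Y).filter (S.lab_t W · = c), S.wO_t ψ K W O) *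
    ∏ y ∈ S.Din_t Y \ c.biUnion id, chi S.p' W y

/-- the new activities -/
def KK_t (ψ : Lx) (K : Ac) : Ac :=
  fun Y c => Mx.gav_t S.n fun W => S.Kr_t ψ K Y c (pcT S.n W)

/-- the integrand after the change of variables -/
def IT_t (f : Conf → ℂ) (W : Conf) (v : VB) : ℂ := f (S.Uv W v) *
  (∏ y ∈ S.Λ'_t, ((S.C0 / (S.p0 * (∫ g, hk0 (S.β * S.L ^ 2) g ∂haar) ^ 4) : ℝ) : ℂ) *
    S.Gn (sh y W) (shv y v)) * ∏ Z ∈ S.Λ'_t.powerset.erase ∅, (1 + S.dZ_t W Z)

/-- the block field is good well inside the support of `O` -/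
def In_t (W : Conf) (O : Finset Ob) : Prop :=
  ∀ y ∈ S.Din_t (us S.sp_t O), Fq (S.p'.R + 1) S.p'.ε (sh y W)

/-- the indicators which multiply the weight of `O` do not vanish -/
def Sup_t (W : Conf) (O : Finset Ob) : Prop := S.wf_t W O ≠ 0 ∧
  ∀ y ∈ S.Din_t (us S.sp_t O) \ (S.lab_t W O).biUnion id, Fq (S.p'.R + 1) S.p'.ε (sh y W)

/-- majorant of the marks -/
def wk_t (b : ℝ) (k : Mj) : Mk → ℝ
  | .inl _ => S.θ1 b
  | .inr (.inl _) => S.Q ^ 45 * S.g ^ 2
  | .inr (.inr (.inl q)) => 4 * k (trS_t S.nf (up S.l q.1) q.2) ∅ / (dn_t S.l S.n q.2).card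
  | .inr (.inr (.inr Z)) => S.t.O.kd S.c (sd S.n) Z

/-- majorant of the objects -/
def wo_t (b : ℝ) (k : Mj) : Ob → ℝ
  | .inl (.inl o) => k o.1 o.2 *
      Real.exp (∑ C ∈ o.2, (S.p.G0 + S.p.G2 * tau_t S.nf S.p.D C - S.D0))
  | .inl (.inr _) => Real.exp (-S.D0)
  | .inr m => S.wk_t b k m

/-! #### Standing assumptions -/

/-- small data -/
structure Sml_t (S : Sd) (b θ : ℝ) (k : Mj) (ψ : Lx) (K : Ac) : Prop where
  b_le : S.Q ^ 100 * b ≤ 1
  θ_le : S.Q ^ 100 * θ ≤ 1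
  pu : PU S.p b ψ
  km : KM_t S.p S.nf k K
  kn : kN_t S.p S.nf k θ

end Sd

end Pool.Agent.Lib.MP_7f377f_mp.RG.Q4
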