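import Pool.Agent.Lib.MP_7f377f_mp.G.Q4FldA
import Pool.Agent.Lib.MP_7f377f_mp.G.TwBase
import Pool.Agent.Lib.MP_7f377f_mp.G.TqDefs

/-! The fields of one step: translations, periods, locality and measurability. -/

noncomputable section

set_option linter.unusedSectionVars false
variable [Pool.Agent.Lib.MP_7f377f_mp.GD]
variable [Pool.Agent.Lib.MP_7f377f_mp.RG.Q4.Tws]

namespace Pool.Agent.Lib.MP_7f377f_mp.RG.Q4

open Finset Polynomial

attribute [local irreducible] box domT lbox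

theorem ps_pcs_t {α : Type} (n : ℕ) (v : St → α) : PST n (pcsT n v) := Mx.PS_iff_t.2 (Mx.PS_pcs_t n v)

theorem PST.shv {α : Type} {n : ℕ} {v : St → α} (h : PST n v) (y : St) : PST n (shv y v) :=
  h.add y

theorem up_per_t (l n : ℕ) (w : St) : up l (pv (sd n) w) = pv (sd (LL l * n)) w :=
  up_pvT l n w

theorem per_lnk_t {l n : ℕ} {v : VB} (h : PST n v) : PerT0 (LL l * n) (lnk l v) :=
  perT0_lnk h

theorem per_vz_t {l n : ℕ} {v : VB} (h : PST n v) : PerT0 (LL l * n) (vz l v) :=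
  perT0_vz h

namespace Td

variable {S : Td} {τ P δ : ℝ} {W W' : Cf} {A A' : Fld} {p : ℂ[X]} {a d n : ℕ} {y : St}

theorem ka_per_t (hW : PerC (sd n) W) : PerK (sd n) (S.ka W) := fun y v => by
  rw [ka, ka]
  exact hW.at (fun _ W hk => hk.kd S W) y v

theorem As_per_t (hW : PerC (sd n) W) : PerT0 (LL S.l * n) (S.t.As W) := fun μ => by
  rw [← up_per_t, ← As_sh, hW.eq (fun _ W hk => hk.As S W)]

variable (h : S.t.Ok S.r S.c τ S.m S.s P δ)
include h

variable {Z : Type} [MeasurableSpace Z] {W : Z → Cf} {A : Z → Fld} (hW : ∀ e, MQ fun x => W x e)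
include hW

end Td

namespace Sd

variable {S : Sd} {τ P δ : ℝ} {W W' : Conf} {A A' : Fld} {p : ℂ[X]} {a d : ℕ} {x y : St}
  {z z' : Lk → E3} {v v' : VB} {f : Lk}

/-! ### translations and periods -/

theorem H_per_t (hW : PerT S.n W) : PerS (sd S.n) (S.H W) := fun v => by
  rw [← H_sh, (hW.perQ v).H]

theorem ka_per_t (hW : PerT S.n W) : PerK (sd S.n) (S.ka (cC W)) :=
  Td.ka_per_t hW.perC

theorem As_per_t (hW : PerT S.n W) : PerT0 S.nf (S.t.As (cC W)) :=
  Td.As_per_t hW.perC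

theorem Ub_per_t (hn : Odd S.n) (hW : PerT S.n W) : PerT S.nf (Ub S.l S.s W) :=
  perT_fine hn fun w => by rw [← Ub_sh, hW.per, (cen_omT _ w).Ub]

theorem vH_per_t (hW : PerT S.n W) (hz : PerT0 S.nf z) : PerT0 S.nf (S.vH W z) := fun μ => by
  have := hz μ
  rw [nf, ← up_per_t] at this ⊢
  rw [← vH_sh, (hW.perQ μ).vH, this]

theorem Uv_per_t (hn : Odd S.n) (hW : PerT S.n W) (hv : PVT S.l S.n W v) : PerT S.nf (S.Uv W v) :=
  hv.Uv S hn hW

/-! ### trees and active links -/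

/-! ### locality -/

variable (h : S.t.Ok S.r S.c τ S.m S.s P δ)
include h

section
variable (hr : S.t.rA S.r ≤ S.p'.R)
include hr

theorem dZ_agr_t (hW : PerT S.n W) (hW' : PerT S.n W') {Z : Finset St}
    (e : ∀ y ∈ Z, Agr (4 * S.N + S.p'.R + 9) (sh y W) (sh y W')) : S.dZ_t W Z = S.dZ_t W' Z := by
  rw [dZ_t, dZ_t, dmK, dmK, qdK_agr (H_per_t hW) (H_per_t hW') (ka_per_t hW) (ka_per_t hW')
    (fun y hy => ?_) fun y hy x hx _ => ?_]
  · rw [← H_sh, ← H_sh]
    exact H_agr ((e y hy).mono (by omega))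
  · have := Td.ka_kc h (agr_cC ((e y hy).mono (by omega))) hx
    rwa [← sh_cC, ← sh_cC, Td.ka_sh, Td.ka_sh] at this

end

/-! ### measurability -/

variable {Z : Type} [MeasurableSpace Z]

variable {W : Z → Conf} {A : Z → Fld} {z : Z → Lk → E3} {v : Z → VB} (hW : Measurable W)
include hW

theorem dZ_meas_t (Y : Finset St) : Measurable fun x => S.dZ_t (W x) Y :=
  dmK_meas (H_meas hW) (Td.ka_meas h (mq_cC hW))

end Sd

end Pool.Agent.Lib.MP_7f377f_mp.RG.Q4
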