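import Pool.Agent.Lib.MP_7f377f_mp.G.Q4HoD
import Pool.Agent.Lib.MP_7f377f_mp.G.TqFldA

/-! Invariance of the objects of a step under central gauge maps. -/

noncomputable section

set_option linter.unusedSectionVars false
variable [Pool.Agent.Lib.MP_7f377f_mp.GD]

namespace Pool.Agent.Lib.MP_7f377f_mp.RG.Q4

open Finset MeasureTheory

/-- pairs of a block field and variables which differ by a central gauge map -/
def Cp (l : ℕ) (W W' : Conf) (v v' : VB) : Prop :=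
  Cq W W' ∧ ∃ u, v = mW l W u ∧ v' = mW l W' u

variable {l : ℕ} {W W' : Conf} {v v' : VB}

theorem Cq.cp (h : Cq W W') (l : ℕ) (u : VB) : Cp l W W' (mW l W u) (mW l W' u) := ⟨h, u, rfl, rfl⟩

namespace Cp

section

variable (h : Cp l W W' v v')
include h

theorem symm : Cp l W' W v' v := let ⟨a, u, b, c⟩ := h; ⟨a.symm, u, c, b⟩

theorem sh (y : St) : Cp l (sh y W) (sh y W') (shv y v) (shv y v') := by
  obtain ⟨a, u, rfl, rfl⟩ := h
  exact (a.sh y).cp l (shv y u)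

theorem vz : vz l v' = vz l v := by obtain ⟨-, u, rfl, rfl⟩ := h; rfl

theorem vs : vs l v' = vs l v := by obtain ⟨-, u, rfl, rfl⟩ := h; rfl

theorem vo : vo v' = vo v := by obtain ⟨-, u, rfl, rfl⟩ := h; rfl

theorem gd (ζ : ℝ) (y : St) : gd l ζ (v' y) = gd l ζ (v y) := by obtain ⟨-, u, rfl, rfl⟩ := h; rfl

end

variable {S : Sd} (h : Cp S.l W W' v v')
include h

theorem ex : ∃ k, Cen k ∧ W' = gauge Inv.inv k W ∧
    S.Uv W' v' = gauge Inv.inv (fun x => k (yo S.l x)) (S.Uv W v) := by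
  obtain ⟨⟨k, hk, rfl⟩, u, rfl, rfl⟩ := h
  exact ⟨k, hk, rfl, hk.Uv_mW S W u⟩

theorem Uv : Cq (S.Uv W v) (S.Uv W' v') := let ⟨_, hk, _, e⟩ := h.ex; ⟨_, hk.yo _, e⟩

theorem noG (ω : St → Om) (μ : Fin 4) : noG S.l (S.Uv W' v') W' ω μ = noG S.l (S.Uv W v) W ω μ := by
  obtain ⟨k, hk, rfl, e⟩ := h.ex
  rw [Q4.noG, Q4.noG, e, blkN_yo, hk.gauge_apply, hk.gauge_apply, mul_inv_rev, mul_assoc,
    ← mul_assoc (W _), ← mul_assoc, cen_conj (mul_mem (hk _) (inv_mem (hk _)))]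

theorem eG (m : BF) (β : ℝ) (c : St → Prop) :
    eG S.l m β c (S.Uv W' v') W' (Q4.vo v') = eG S.l m β c (S.Uv W v) W (Q4.vo v) := by
  simp only [Q4.eG, h.noG, h.vo, h.Uv.Bx]

theorem rG (c : St → Prop) : rG S.l c (S.Uv W' v') = rG S.l c (S.Uv W v) := by
  simp only [Q4.rG, h.Uv.fs]

theorem Gw : S.Gw W' v' = S.Gw W v := by
  have a := h.Uv.wt S.l
  obtain ⟨k, hk, rfl, e⟩ := h.ex
  rw [Sd.Gw, a, h.vo, e, blkN_yo]
  simp only [hk0_gauge, Sd.Gw]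

theorem Jk : S.Jk W' v' = S.Jk W v := by
  rw [h.1.Jk]
  simp only [Sd.Jk, h.vz, h.vs]

theorem Gn : S.Gn W' v' = S.Gn W v := by rw [Sd.Gn, h.Gw, h.Jk, h.vz, h.1.Eg, Sd.Gn]

theorem df (O : Finset Ob) (y : St) : S.df v' O y = S.df v O y := by simp only [Sd.df, h.gd]

end Cp

variable [Tws] {n : ℕ} {x y : St}

theorem Cq.pcW (h : Cq W W') (l n : ℕ) (u : VB) : Cp l W W' (pcW l n W u) (pcW l n W' u) := h.cp l _

theorem PVT.cg (hv : PVT l n W v) (hW : PerT n W) (h : CgT n x y) :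
    Cp l (RG.sh y W) (RG.sh x W) (shv y v) (shv x v) := by
  obtain ⟨u, hu, rfl⟩ := hv
  refine ⟨hW.cg h, shv y u, rfl, ?_⟩
  rw [shv_mW, show shv x u = shv y u from funext fun z =>
    hu.cg (by simpa only [add_comm z] using h.add z)]

theorem PVT.rc (hv : PVT l n W v) (hW : PerT n W) (x : St) :
    Cp l (RG.sh x W) (RG.sh (rcT n x) W) (shv x v) (shv (rcT n x) v) := hv.cg hW (cgT_rc n x)

/-- plain and magnetic translations -/
theorem cp_shT (l n : ℕ) (y : St) (W : Conf) (u : VB) :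
    Cp l (sh y W) (shT n y W) (shv y (mW l W u)) (mW l (shT n y W) (shv y u)) :=
  (cq_shT n y W).cp l (shv y u)

variable {S : Sd} {ψ : Lx} {K : Ac} {O : Finset Ob}

namespace Cq

variable (h : Cq W W') (S)
include h

theorem dZ_t : S.dZ_t W' = S.dZ_t W := funext fun Z => by
  rw [Sd.dZ_t, h.H, h.ka S.toTd, Sd.dZ_t]

theorem lab_t : S.lab_t W' = S.lab_t W := funext fun O => by rw [Sd.lab_t, h.fs, Sd.lab_t]

theorem wf_t : S.wf_t W' = S.wf_t W := funext fun O => by simp only [Sd.wf_t, h.lab_t, h.chi]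

theorem Fq_sh (R : ℕ) (ε : ℝ) (y : St) : Q4.Fq R ε (RG.sh y W') ↔ Q4.Fq R ε (RG.sh y W) :=
  (h.sh y).Fq R ε

theorem In_t (O : Finset Ob) : S.In_t W' O ↔ S.In_t W O := by simp only [Sd.In_t, h.Fq_sh]

theorem Sup_t (O : Finset Ob) : S.Sup_t W' O ↔ S.Sup_t W O := by
  simp only [Sd.Sup_t, h.Fq_sh, h.wf_t, h.lab_t]

end Cq

namespace Cp

variable (h : Cp S.l W W' v v')
include h

theorem Calm (y : St) : S.Calm W' v' y ↔ S.Calm W v y := by
  simp only [Sd.Calm, h.1.Fq_sh, h.gd]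

theorem hf_t (y : St) : S.hf_t ψ K W' v' O y = S.hf_t ψ K W v O y := by
  rw [Sd.hf_t, (h.sh y).Gn, h.Uv.Ib, h.1.lab_t, h.1.Bx, Sd.hf_t]

theorem jm_t (Ω : Finset St) (m : Mk) : S.jm_t ψ K W' v' Ω m = S.jm_t ψ K W v Ω m := by
  rcases m with y | q | q | Z
  · simp only [Sd.jm_t, sh_cC, (h.1.sh y).fm, h.vz]
  · rfl
  · simp only [Sd.jm_t, h.1.Bx]
  · simp only [Sd.jm_t, h.1.dZ_t]

theorem FO_t (hK : ∀ X c, Ci S.nf (K X c)) (hU : PerT S.nf (S.Uv W v))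
    (hU' : PerT S.nf (S.Uv W' v')) : S.FO_t ψ K W' O v' = S.FO_t ψ K W O v := by
  simp only [Sd.FO_t, h.hf_t, h.jm_t, h.df, fun X c => hK X c _ _ h.Uv hU hU']

end Cp

theorem Cq.wO_t (h : Cq W W') (hn : Odd S.n) (hK : ∀ X c, Ci S.nf (K X c)) (hW : PerT S.n W)
    (hW' : PerT S.n W') : S.wO_t ψ K W' O = S.wO_t ψ K W O := by
  simp only [Sd.wO_t, h.wf_t, fun u => (h.pcW S.l S.n u).FO_t (ψ := ψ) (O := O) hK
    (Sd.Uv_per_t hn hW (pvt_pcW _ _ _ _)) (Sd.Uv_per_t hn hW' (pvt_pcW _ _ _ _))]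

theorem Kr_ci_t (hn : Odd S.n) (hK : ∀ X c, Ci S.nf (K X c)) (Y : Finset St)
    (c : Finset (Finset St)) : Ci S.n (S.Kr_t ψ K Y c) := fun W W' h hW hW' => by
  simp only [Sd.Kr_t, h.lab_t, h.chi, h.wO_t hn hK hW hW']

/-- translated activities -/
theorem Ci.tr {α : Type} {F : Conf → α} (h : Ci n F) (v : St) :
    Ci n fun U => F (shT n v (pcT n U)) := fun U V e hU hV => by
  simp only [hU.pc, hV.pc]
  exact h _ _ (e.shT n v) (hU.tr v) (hV.tr v)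

theorem trA_ci_t (hK : ∀ X c, Ci n (K X c)) (v : St) (X : Finset St) (c : Finset (Finset St)) :
    Ci n (trA_t n v K X c) := (hK _ _).tr (-v)

end Pool.Agent.Lib.MP_7f377f_mp.RG.Q4
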