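import Pool.Agent.Lib.MP_7f377f_mp.G.Q4Fs
import Pool.Agent.Lib.MP_7f377f_mp.G.TwBase
import Pool.Agent.Lib.MP_7f377f_mp.G.TqCi

/-! The smoothed activities of the small polymers. -/

noncomputable section

set_option linter.unusedSectionVars false
variable [Pool.Agent.Lib.MP_7f377f_mp.GD]
variable [Pool.Agent.Lib.MP_7f377f_mp.RG.Q4.Tws]

namespace Pool.Agent.Lib.MP_7f377f_mp.RG.Q4

open Finset MeasureTheory

attribute [local irreducible] box domT lbox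

/-- bounded gauge invariant functions of the links of `X` in the torus of side `n` -/
structure K1_t (n : ℕ) (X : Finset St) (κ : ℝ) (F : Conf → ℂ) : Prop where
  meas : Measurable F
  per : ∀ U, F (pcT n U) = F U
  dep : DependsOn F {b | rcT n b.1 ∈ X ∧ rcT n (b.1 + un b.2) ∈ X}
  gi : ∀ u U, PST n u → F (gauge Inv.inv u U) = F U
  bd : ∀ U, ‖F U‖ ≤ κ
  ci : Ci n F

section k1

variable {p : Pa} {n a : ℕ} {k : Mj} {K : Ac} {X : Finset St} {κ : ℝ} {F : Conf → ℂ}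

theorem KM_t.k1 (h : KM_t p n k K) (X : Finset St) : K1_t n X (k X ∅) (K X ∅) :=
  ⟨h.meas _ _, h.per _ _, h.dep _ _, h.gi _ _, fun U => by
    simpa [Rg, h.per] using h.bd X ∅ _ (Mx.per_pc_t n U), h.ci _ _⟩

theorem rc_trS_t (hn : Odd n) (hX : X ⊆ domT n) {v x : St} (h : rcT n x ∈ trS_t n v X) :
    rcT n (x - v) ∈ X := by
  obtain ⟨y, hy, e⟩ := mem_image.1 h
  rwa [sub_eq_add_neg, ← rc_add_rc_t, ← e, rc_add_rc_t, add_neg_cancel_right, rc_eq_t hn (hX hy)]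

theorem K1_t.tr (hn : Odd n) (hX : X ⊆ domT n) {v : St} (h : K1_t n (trS_t n v X) κ F) :
    K1_t n X κ fun U => F (shT n (-v) (pcT n U)) where
  meas := h.meas.comp ((cont_shT n _).comp (cont_pcT n)).measurable
  per U := congrArg (fun U => F (shT n (-v) U)) (perT_pc n U)
  dep U U' e := h.dep fun b hb => shT_of (pcT_of (e (rcT n (b.1 + -v), b.2)
    ⟨by simpa only [rc_rc_t, sub_eq_add_neg] using rc_trS_t hn hX hb.1, by
      simpa only [rc_add_rc_t, sub_eq_add_neg, add_right_comm b.1] using rc_trS_t hn hX hb.2⟩))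
  gi u U hu := by
    rw [pcT_gauge hu, shT_gauge]
    exact h.gi _ _ (hu.add (-v))
  bd _ := h.bd _
  ci := h.ci.tr _

theorem KM_t.k1_tr (h : KM_t p n k K) (hn : Odd n) (hX : X ⊆ domT n) (v : St) :
    K1_t n X (k (trS_t n v X) ∅) (trA_t n v K X ∅) := (h.k1 _).tr hn hX

variable (h : K1_t n X κ F) (hn : Odd n) (hX : X ⊆ box a) (ha : a + 1 ≤ n / 2)
include h hn hX ha

theorem K1_t.loc (U U' : Conf) (e : ∀ f ∈ {f : Lk | f.1 ∈ X ∧ f.1 + un f.2 ∈ X}, U f = U' f) :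
    F U = F U' := by
  rw [← h.per, ← h.per U']
  refine h.dep fun b hb => pcT_of (e (rcT n b.1, b.2) ⟨hb.1, ?_⟩)
  have := hb.2
  rwa [← rc_add_rc_t, rc_box_t hn (box_mono ha (add_un_mem_box (hX hb.1) _))] at this

theorem K1_t.gauge (u : St → S3) (U : Conf) : F (gauge Inv.inv u U) = F U := by
  rw [← h.gi _ U (ps_pcs_t n u)]
  refine h.loc hn hX ha _ _ fun f hf => ?_
  simp only [RG.gauge, pcsT, rc_box_t hn (box_mono (by omega) (hX hf.1)),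
    rc_box_t hn (box_mono (by omega) (hX hf.2))]

end k1

namespace Sd

variable {S : Sd} {a : ℕ} {X : Finset St} {K K' : Ac} {κ κ' P : ℝ} {B : Fld}

theorem X1_dom_t (hX : X ∈ S.X1s_t) : X ⊆ domT S.nf := mem_powerset.1 (mem_filter.1 hX).1

theorem X1_card_t (hX : X ∈ S.X1s_t) : (1 : ℝ) ≤ (dn_t S.l S.n X).card := by
  exact_mod_cast card_pos.2 ⟨0, (mem_filter.1 hX).2.2⟩

theorem Fs_congr_t (h : K X ∅ = K' X ∅) : S.Fs_t K X = S.Fs_t K' X := by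
  unfold Fs_t Fsr
  rw [h]

variable (u : S.Nu a)
include u

theorem X1_sub_t (hX : X ∈ S.X1s_t) : X ⊆ box (fb S.l S.D0) := fun x hx => by
  obtain ⟨-, h1, h2⟩ := mem_filter.1 hX
  obtain ⟨x0, h3, h4⟩ := mem_image.1 h2
  have l := u.lens
  have d1 := D1 S.toTd
  have h5 := tau_diam_t (n := S.nf) (D := S.p.D) (by rw [p_D]; omega) h3 hx
  have h6 := X1_dom_t hX h3
  rw [nf, mem_fineT u.ok.odd] at h6
  rw [rc_eq_t u.ok.odd h6] at h4
  have h7 : x0 ∈ box (fb S.l 0) := Op.mem_fb.2 (h4 ▸ zero_mem_box 0)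
  obtain ⟨y, hy, e⟩ := mem_image.1 (mem_tb_single_t.2 ⟨rc_eq_t u.ok.odd_nf (X1_dom_t hX hx), h5⟩)
  obtain ⟨_, h8, b, hb, rfl⟩ := mem_add.1 hy
  rw [mem_singleton.1 h8] at e
  have h9 : x0 + b ∈ box (fb S.l S.D0) := box_mono (by
    rw [h1, p_D, fb, fb, mul_comm S.D0]
    omega) (add_mem_box h7 hb)
  rwa [← e, rc_box_t u.ok.odd_nf (box_mono (by have := X1_big u; omega) h9)]

theorem La_sub_t (hX : X ∈ S.X1s_t) : ∀ f ∈ S.La X, f ∈ lbox (fb S.l S.D0) ∧ ¬ tree S.l f := fun _ hf =>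
  ⟨mem_lbox.2 (X1_sub_t u hX (mem_product.1 (mem_filter.1 hf).1).1), (mem_filter.1 hf).2.2⟩

theorem La_card_t (hX : X ∈ S.X1s_t) : ((S.La X).card + 1 : ℝ) ≤ 325 * S.L ^ 4 * (S.D0 : ℝ) ^ 4 := by
  have h1 : (S.La X).card ≤ _ := card_le_card fun f hf => (La_sub_t u hX f hf).1
  rw [card_lbox, show 2 * fb S.l S.D0 + 1 = (2 * S.D0 + 1) * LL S.l by unfold fb LL; ring] at h1
  have h2 : ((S.La X).card : ℝ) ≤ ((2 * S.D0 + 1) * S.L) ^ 4 * 4 := by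
    unfold Td.L; exact_mod_cast h1
  have d1 : (1 : ℝ) ≤ S.D0 := by exact_mod_cast D1 _
  have l1 := L1 S.toTd
  have h3 : ((2 * S.D0 + 1) * S.L) ^ 4 ≤ (3 * S.D0 * S.L) ^ 4 := by gcongr; linarith
  have h4 : 1 ≤ S.L ^ 4 * (S.D0 : ℝ) ^ 4 := by rw [← mul_pow]; exact one_le_pow₀ (by nlinarith)
  nlinarith

variable (h : S.t.Ok S.r S.c S.τ S.m S.s P S.δ) (hG : GR S.t.G) (hP : P ≤ S.Q) (hX : X ∈ S.X1s_t)
  (k : K1_t S.nf X κ (K X ∅))
include h hG hP hX k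

/-- the smoothed activity is holomorphic and bounded in a tube -/
theorem Fsr_tb_t : Tb S.p'.R (60 * S.p'.ρ) (S.g / S.Q ^ 6) (2 * κ) (S.Fsr K X) := by
  obtain ⟨h1, -, h3, h4⟩ := dF_le u
  have e := u.exps
  have g0 := u.ok.g'0
  have q0 := S.Q0
  have t0 := u.ok.gt0
  have := u.ok.g0
  have l0 := L0 S.toTd
  refine Nt.sm_tb h (dF_sz u h.P1 hP) hG h1 (by linarith) t0 S.Q1 h4 k.meas k.bd
    (fun f hf => (La_sub_t u hX f hf).2) (fun _ _ => k.gi _ _ fun _ => rfl)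
    (le_of_eq (by rw [p'_R, p'_ρ, dF]; push_cast; ring)) (by positivity) ?_
  have h5 : S.ε3 / S.gt ≤ 3 * S.L ^ (S.c + 1) * S.Q ^ 4 := by
    rw [div_le_iff₀ t0, ε3_eq]
    have := mul_le_mul_of_nonneg_left (u.ok.g'g.trans (mul_le_mul_of_nonneg_left u.ok.le_gt
      (by norm_num))) (pow_pos q0 4).le
    rw [Λ_eq] at this
    linarith
  have h6 := u.mon (C := 9 * 325 ^ 2) (i := 8 * S.c + 28) (j := 8) (le_trans (by norm_num)
    (pow_le_pow_right₀ (by norm_num) (by omega : 20 ≤ a + 20))) (by omega) (by omega)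
  calc _ ≤ (325 * S.L ^ 4 * (S.D0 : ℝ) ^ 4) ^ 2 * S.L ^ (6 * S.c + 18) *
        (3 * S.L ^ (S.c + 1) * S.Q ^ 4) ^ 2 * (S.g' / S.Q ^ 6) := by
        have : 0 ≤ S.ε3 / S.gt := by rw [ε3_eq]; positivity
        gcongr
        exacts [La_card_t u hX, le_rfl, u.ok.gg']
    _ = 9 * 325 ^ 2 * S.L ^ (8 * S.c + 28) * (S.D0 : ℝ) ^ 8 * (S.Q ^ 2 * S.g') := by
        field_simp
        ring
    _ ≤ S.Q * (S.Q ^ 2 * S.g') := by gcongr
    _ ≤ _ := by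
        rw [p'_ρ]
        nlinarith [show 0 ≤ S.Q ^ 3 * S.g' by positivity]

theorem Fs_bd_t (B : Fld) : ‖S.Fs_t K X B‖ ≤ 2 * κ / (dn_t S.l S.n X).card := by
  have k0 := (norm_nonneg _).trans (k.bd 1)
  have ρ0 : 0 ≤ S.p'.ρ := (mul_pos (pow_pos S.Q0 3) u.ok.g'0).le
  rw [Fs_t, norm_div, Complex.norm_natCast]
  refine div_le_div_of_nonneg_right ?_ (Nat.cast_nonneg _)
  rcases ctr_cases (R := S.p'.R) ρ0 B with h0 | ⟨r, v, h0⟩ <;> rw [h0]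
  · simpa using k0
  · exact (Fsr_tb_t u h hG hP hX k).bd B ⟨B, r, v.mono le_rfl (by linarith), fun x _ μ ν => by
      simpa [dd] using (div_pos u.ok.g0 (pow_pos S.Q0 6)).le⟩

omit k in
theorem Fs_real_t (hK : ∀ U, (K X ∅ U).im = 0) (B : Fld) : (S.Fs_t K X B).im = 0 := by
  obtain ⟨h1, -, h3, h4⟩ := dF_le u
  have ρ0 : 0 ≤ S.p'.ρ := (mul_pos (pow_pos S.Q0 3) u.ok.g'0).le
  rw [Fs_t, Complex.div_natCast_im]
  rcases ctr_cases (R := S.p'.R) ρ0 B with h0 | ⟨r, v, h0⟩ <;> rw [h0]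
  · simp
  have z := dF_sz u h.P1 hP
  have D := Nt.dk h z hG h1 (by linarith)
  have hB : ∀ e, ‖cut S.p'.R (cg B) e‖ ≤ S.dF := fun e =>
    (JS.cut_cg_bd v (by linarith) e).trans (by
      rw [p'_ρ] at ρ0 ⊢
      rw [p'_R, dF]
      push_cast
      nlinarith [mul_nonneg (Nat.cast_nonneg (α := ℝ) S.D0) ρ0])
  rw [show (S.Fsr K X B).im = 0 from smL_real
    (D.smB h.op (h.kc_le z).1 (h.kc_le z).2 hB u.ok.gt0.le ∅ _)
    (D.smR h.op (h.kc_le z).1 (h.kc_le z).2 hB (JS.cut_cg_real r) u.ok.gt0.le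
      fun f hf => act_empty.2 (La_sub_t u hX f hf).2) S.Q0 h4 (half_pos u.ok.gt0) (by linarith) hK,
    zero_div]

end Sd

end Pool.Agent.Lib.MP_7f377f_mp.RG.Q4
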