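import Pool.Agent.Lib.MP_7f377f_mp.G.Q4C3
import Pool.Agent.Lib.MP_7f377f_mp.G.TwBase
import Pool.Agent.Lib.MP_7f377f_mp.G.TqFs

/-! Cancellation of the small polymers against the smoothing marks. -/

noncomputable section

set_option linter.unusedSectionVars false
variable [Pool.Agent.Lib.MP_7f377f_mp.GD]
variable [Pool.Agent.Lib.MP_7f377f_mp.RG.Q4.Tws]

namespace Pool.Agent.Lib.MP_7f377f_mp.RG.Q4

open Finset MeasureTheory Polynomial
open scoped Classical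

attribute [local irreducible] box domT lbox

theorem trS_trS_t {n : ℕ} (hn : Odd n) {X : Finset St} (hX : X ⊆ domT n) (v : St) :
    trS_t n v (trS_t n (-v) X) = X := by
  rw [trS_t, trS_t, image_image]
  exact (image_congr fun x hx => by
    simp only [Function.comp, rc_add_rc_t, neg_add_cancel_right, rc_eq_t hn (hX hx), id]).trans image_id

theorem dn_trS_t (l n : ℕ) (v : St) (X : Finset St) :
    dn_t l n (trS_t (LL l * n) (up l v) X) = trS_t n v (dn_t l n X) := by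
  simp only [dn_t, trS_t, image_image, Function.comp_def, rc_yo_t, yo_add_up, rc_add_rc_t]

theorem card_trS_t {n : ℕ} {X : Finset St} (hX : ∀ x ∈ X, rcT n x = x) (v : St) :
    (trS_t n v X).card = X.card :=
  card_image_of_injOn fun x hx y hy e => by
    rw [← hX x hx, ← hX y hy, ← nearT_zero_t, ← nearT_add_right_t v, nearT_zero_t]
    exact e

theorem pc_per_t {n : ℕ} {U : Conf} (h : PerT n U) : pcT n U = U := h

theorem Cen.Ur {u : St → S3} (hu : Cen u) (S : Sd) (W : Conf) (z : Lk → E3) :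
    S.Ur (gauge Inv.inv u W) z = gauge Inv.inv (fun x => u (RG.yo S.l x)) (S.Ur W z) := by
  funext f
  rw [Sd.Ur, cC_gS, hu.As, hu.pol, hu.Ub, (hu.yo _).gauge_apply, (hu.yo _).gauge_apply, Sd.Ur,
    ← mul_assoc, ← mul_assoc, ← ((hu.yo S.l).comm _ _ : u _ * _ = _), mul_assoc (u _),
    ← (hu.inv.comm _ _ : (u _)⁻¹ * _ = _)]
  simp only [mul_assoc]

theorem Cq.Ur {W W' : Conf} (h : Cq W W') (S : Sd) (z : Lk → E3) : Cq (S.Ur W z) (S.Ur W' z) := by
  obtain ⟨k, hk, rfl⟩ := h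
  exact ⟨_, hk.yo _, hk.Ur S W z⟩

namespace Sd

variable {S : Sd} {X : Finset St} {ψ : Lx} {K : Ac} {κ P : ℝ} {W : Conf} {O : Finset Ob}
  {z : Lk → E3} {f : Lk} {y : St}

theorem Ur_per_t (hn : Odd S.n) (hW : PerT S.n W) (hz : PerT0 S.nf z) : PerT S.nf (S.Ur W z) :=
  perT_fine hn fun w => by
    have := hz w
    rw [nf, ← up_per_t] at this
    rw [← Ur_sh, hW.per, this, (cen_omT _ w).Ur]

/-- families without holes -/
theorem wO_free_t (h1 : CC O = ∅) (h2 : Wk O = ∅) (h3 : Dbl O = ∅) :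
    S.wO_t ψ K W O = (S.p0 ^ (us S.sp_t O).card : ℝ)⁻¹ * ∫ v, ((∏ y ∈ us S.sp_t O, gd S.l S.ζ (v y) : ℝ) : ℂ) *
      ((if (olds O : Set (LP St)).PairwiseDisjoint (fun o => o.1) then
        ∏ o ∈ olds O, K o.1 o.2 (S.Uv W (pcW S.l S.n W v)) else 0) *
      ∏ m ∈ O.toRight, S.jm_t ψ K W (pcW S.l S.n W v) ∅ m) ∂PB S.l (nu S.zm) := by
  have e1 : S.Oh_t O = ∅ := by simp [Oh_t, h1, h2, h3, Hh_t, tb_t]
  have e2 : S.lab_t W O = ∅ := by simp [lab_t, ncs_t, zones_t, h1, h2, comps, Conn, filter_singleton]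
  simp only [wO_t, wf_t, h2, e2, prod_empty, biUnion_empty, empty_sdiff, one_mul, FO_t, e1, df, h3,
    notMem_empty, if_false, mul_one]
  rw [← integral_const_mul]
  refine congrArg _ (funext fun v => ?_)
  have : ∀ y ∈ us S.sp_t O, gd S.l S.ζ (pcW S.l S.n W v y) = gd S.l S.ζ (v y) := fun y hy => by
    obtain ⟨o, -, ho⟩ := mem_biUnion.1 hy
    rw [pcW, gd_mW, pcsT, (mem_tb_t.1 ho).1]
  rw [prod_congr (s₁ := us S.sp_t O) rfl fun y hy => by rw [this y hy], ← Complex.ofReal_prod,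
    prod_div_distrib, prod_const]
  push_cast
  ring

variable (h : S.Fo P)
include h

theorem wO_oS_t : S.wO_t ψ K W {oS y X} = Complex.exp (-S.Fs_t (S.Ky_t K y) X (Bx y (cC W))) - 1 := by
  have z0 := S.Q0.trans_le h.nu.ok.ζ_zm
  have := Smo.nu_prob z0
  rw [wO_free_t rfl rfl rfl]
  have e1 : olds {oS y X} = ∅ := rfl
  have e2 : ({oS y X} : Finset Ob).toRight = {.inr (.inr (.inl (y, X)))} := by ext; simp [oS]
  simp only [e1, e2, coe_empty, Set.pairwiseDisjoint_empty, if_true, prod_empty, prod_singleton, jm_t,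
    notMem_empty, if_false, one_mul]
  rw [integral_mul_const, int_gd _ (ζ := S.ζ) S.Q0 (Cov.gs_nu z0 h.nu.ok.ζ_zm), ← mul_assoc,
    ← Complex.ofReal_mul, ← p0, inv_mul_cancel₀ (pow_pos (p0_pos h) _).ne']
  simp

omit h in
theorem near_sp_t {x u : St} {R : ℕ} (hx : x ∈ dn_t S.l S.n X) (hu : u ∈ box R) (hR : R ≤ 13 * S.D0) :
    rcT S.n (u + x) ∈ us S.sp_t {oX X} := by
  rw [us, singleton_biUnion]
  obtain ⟨x, h1, rfl⟩ := mem_image.1 hx
  exact Cov.rc_mem_tb_t ((rc_rc_t _ _).symm ▸ hx) (box_mono hR hu)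

omit h in
theorem In_t.not_H (hW : PerT S.n W) (i : S.In_t W {oX X}) {x u : St} (hx : rcT S.n x ∈ dn_t S.l S.n X)
    (hu : u ∈ box (2 * S.D0)) : u + x ∉ S.H W := by
  have d := D1 S.toTd
  have := i (rcT S.n (u + x)) (mem_filter.2 ⟨by
    simpa only [add_comm u, rc_add_rc_t] using near_sp_t hx hu (by omega), fun w hw => by
      obtain ⟨w, h1, rfl⟩ := mem_image.1 hw
      obtain ⟨_, h2, b, hb, rfl⟩ := mem_add.1 h1
      rw [mem_singleton.1 h2, rc_add_rc_t]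
      have := near_sp_t hx (add_mem_box hu hb) (by rw [R_eq]; omega)
      rwa [add_comm, rc_add_rc_t, add_comm, add_right_comm] at this⟩)
  rwa [(hW.rc _).Fq, ← not_mem_H] at this

theorem wO_oX_t (hW : PerT S.n W) (i : S.In_t W {oX X}) (k : K1_t S.nf X κ (K X ∅)) :
    S.wO_t ψ K W {oX X} = ∫ z, K X ∅ (S.Ur W (pcT0 S.nf z)) ∂nuI S.ζ := by
  have z0 := S.Q0.trans_le h.nu.ok.ζ_zm
  have := Smo.nu_prob z0
  have l := h.nu.lens
  rw [wO_free_t rfl rfl rfl]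
  have e1 : olds {oX X} = {⟨X, ∅⟩} := by ext; simp [olds, oX]
  have e2 : ({oX X} : Finset Ob).toRight = ∅ := rfl
  have loc : ∀ U U', (∀ f : Lk, f.1 ∈ X → U f = U' f) → K X ∅ U = K X ∅ U' := fun U U' e => by
    rw [← k.per, ← k.per U']
    exact k.dep fun b hb => pcT_of (e _ hb.1)
  have nr : ∀ {f : Lk} {y : St}, f.1 ∈ X → y ∈ box (2 * S.N) →
      rcT S.n (y + yo S.l f.1) ∈ us S.sp_t {oX X} := fun hf hy => by
    simpa only [add_comm _ (rcT _ _), rc_add_rc_t, add_comm (yo _ _)] using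
      near_sp_t (mem_image_of_mem _ hf) hy (by omega)
  simp only [e1, e2, coe_singleton, Set.pairwiseDisjoint_singleton, if_true, prod_empty,
    prod_singleton, mul_one]
  rw [integral_congr_ae (g := fun v => ((∏ y ∈ us S.sp_t {oX X}, gd S.l S.ζ (v y) : ℝ) : ℂ) *
    K X ∅ (S.Ur W (vz S.l (pcsT S.n v)))) (.of_forall fun v => ?_),
    calm_int_t h.nu.ok.odd (ζ := S.ζ) S.Q0 (Cov.gs_nu z0 h.nu.ok.ζ_zm) (Φ := fun z => K X ∅ (S.Ur W z))
      (k.meas.comp (Ur_meas h)) fun z z' e => loc _ _ fun f hf => ?_, ← mul_assoc,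
    ← Complex.ofReal_mul, ← p0, inv_mul_cancel₀ (pow_pos (p0_pos h) _).ne', Complex.ofReal_one,
    one_mul, nf]
  · simp only [Ur, reE, Pi.add_apply, Pi.smul_apply, pol]
    rw [polK_dep (A := zc S.ζ z) (A' := zc S.ζ z') (Op.natDegree_pP _) fun b hb y hy e1 => by
      rw [zc, zc, e b ⟨hb, e1 ▸ nr hf hy⟩]]
  · by_cases h0 : ∏ y ∈ us S.sp_t {oX X}, gd S.l S.ζ (v y) = 0
    · simp only [h0, Complex.ofReal_zero, zero_mul]
    refine congrArg _ (loc _ _ fun f hf => ?_)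
    by_cases ht : tree S.l f
    · rw [Uv_tree ht, Ur_tree h ht]
    have g : ∀ y ∈ box (2 * S.N), ∀ b : Lk, yo S.l b.1 = y + yo S.l f.1 → ¬ tree S.l b →
        ‖vz S.l (pcW S.l S.n W v) b‖ ≤ S.ζ ∧ vs S.l (pcW S.l S.n W v) b = 0 := fun y hy =>
      ((Cov.gd_iff (v := pcsT S.n v) (y := y + yo S.l f.1)).1
        (prod_ne_zero_iff.1 h0 _ (nr hf hy))).1
    rw [Uv_act ⟨ht, fun u hu => add_comm u _ ▸ i.not_H hW (mem_image_of_mem _ hf)
      (box_mono (by omega) hu)⟩, (g 0 (zero_mem_box _) f (zero_add _).symm ht).2, q8_zero, mul_one]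
    simp only [Ur, Af, vH, reE, Pi.add_apply, Pi.smul_apply, pol]
    rw [polK_dep (A := cF (vz S.l (pcW S.l S.n W v))) (A' := zc S.ζ (vz S.l (pcsT S.n v)))
      (Op.natDegree_pP _) fun b hb y hy e1 => (if_pos (g y hy b e1 hb).1).symm]

theorem tail_le_t (hX : X ∈ S.X1s_t) :
    48 * ((S.La X).card + 1) * (cG * Real.exp (-(S.ζ ^ 2 / 4))) ≤ S.g ^ 30 := by
  refine le_trans ?_ (h.nu.exp_g h.nu.r_le_ζ (i := 1) (by norm_num) (by norm_num))
  have := h.nu.mong (C := 48 * 325) (k := 1) (i := 4) (j := 4) (by norm_num) (by norm_num)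
    (by have := h.nu.exps; omega) (by norm_num)
  rw [← mul_assoc]
  gcongr
  linarith [mul_le_mul_of_nonneg_right (La_card_t h.nu hX) GD.cG_pos.le]

theorem Fs_close_t (hX : X ∈ S.X1s_t) (k : K1_t S.nf X κ (K X ∅))
    (hW : ∀ y ∈ box (2 * S.D0), y ∉ S.H W) :
    ‖(dn_t S.l S.n X).card * S.Fs_t K X (Bx 0 (cC W)) - ∫ z, K X ∅ (S.Ur W (pcT0 S.nf z)) ∂nuI S.ζ‖ ≤
      S.g ^ 30 * κ := by
  obtain ⟨h1, -, h3, h4⟩ := dF_le h.nu
  have l := h.nu.lens
  have t := tail_le_t h hX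
  have k0 := (norm_nonneg _).trans (k.bd 1)
  have x0 := mul_pos GD.cG_pos (Real.exp_pos (-(S.ζ ^ 2 / 4)))
  have q := sh_zero W ▸ not_mem_H.1 (hW 0 (zero_mem_box _))
  have g0 := h.nu.ok.g'0
  have q0 := S.Q0
  have d1 : (1 : ℝ) ≤ S.D0 := by exact_mod_cast D1 _
  have a1 := h.nu.mon (C := 5000) (i := 0) (j := 1) (by norm_num) (by omega) (by norm_num)
  have a2 : 1000 * ((S.p'.R : ℝ) + 1) * S.p'.ε ≤ S.Q ^ 3 * S.g' := by
    rw [p'_R, p'_ε, pow_succ' _ 2, mul_assoc S.Q]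
    gcongr
    push_cast
    linarith
  have a3 := h.nu.ok.Qg'_le (i := 3) (j := 1) (by norm_num)
  have a4 := h.nu.cQ' (C := 2) (by norm_num)
  have a5 : 0 < S.Q ^ 2 * S.g' := by positivity
  have a6 : 2 * (S.Q ^ 2 * S.g') ≤ S.Q ^ 3 * S.g' := by
    rw [pow_succ' _ 2, mul_assoc S.Q]
    gcongr
  rw [Fs_t, mul_div_cancel₀ _ (by exact_mod_cast (zero_lt_one.trans_le (X1_card_t hX)).ne'),
    ctr_of (Bx_real 0 W) ((q.cv1 (by nlinarith)).mono le_rfl ?_)]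
  · refine (Nt.sm_close (ζ := S.ζ) h.ok (dF_sz h.nu h.ok.P1 h.PQ) h.gr h1 (by linarith) h.nu.ok.gt0 S.Q1 h4
      k.meas k.bd (La_sub_t h.nu hX) (R := 4 * S.D0) (show S.D0 + 2 * S.N + 1 + _ ≤ _ by omega)
      (by linarith [pow_le_one₀ (n := 30) h.nu.ok.g0.le h.nu.ok.g1, mul_pos (by positivity :
        (0 : ℝ) < 24 * ((S.La X).card + 1)) x0]) (q.mono (Nat.le_succ _) le_rfl) ?_
      (fun y hy => hW y (box_mono (show S.D0 + 2 * S.N + 3 ≤ _ by omega) hy)) (fun _ _ => rfl)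
      (fun z => agr_zc _ (Cov.pc_agr_t h.nu.ok.odd_nf (nf_half h.nu.ok.odd ▸ Op.fb_mono _
        (show S.D0 + 2 * S.N ≤ _ by omega)) z)) (fun _ _ _ => rfl)
      (k.gauge h.nu.ok.odd_nf (X1_sub_t h.nu hX) (X1_big h.nu))
      (k.loc h.nu.ok.odd_nf (X1_sub_t h.nu hX) (X1_big h.nu)) fun f hf => ?_).trans ?_
    · rw [p'_ε, dF]
      push_cast
      nlinarith
    · by_cases ht : tree S.l f
      exacts [.inr ⟨ht, fun _ => Ur_tree h ht⟩,
        .inl (mem_filter.2 ⟨mem_product.2 ⟨hf.1, mem_univ _⟩, hf.2, ht⟩)]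
    · exact mul_le_mul_of_nonneg_right (by linarith) k0
  · have a7 := pow_le_pow_left₀ (by rw [p'_ε]; positivity) a2 2
    rw [p'_ρ]
    rw [p'_ε] at *
    nlinarith

/-- the small polymers cancel against the smoothing marks -/
theorem c3_t (hW : PerT S.n W) (hX : X ⊆ domT S.nf) (h0 : X.Nonempty)
    (ht : tau_t S.nf S.p.D X = 1) (i : S.In_t W {oX X}) (k : K1_t S.nf X κ (K X ∅)) (h1 : 2 * κ ≤ 1) :
    ‖S.wO_t ψ K W {oX X} + ∑ y ∈ dn_t S.l S.n X, S.wO_t ψ K W {oS y (trS_t S.nf (-up S.l y) X)}‖ ≤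
      (4 * κ + S.g ^ 30) * κ := by
  have o := h.nu.ok.odd_nf
  have k0 := (norm_nonneg _).trans (k.bd 1)
  have n1 : (1 : ℝ) ≤ (dn_t S.l S.n X).card := by exact_mod_cast card_pos.2 (h0.image _)
  have n0 : ((dn_t S.l S.n X).card : ℂ) ≠ 0 := by exact_mod_cast (zero_lt_one.trans_le n1).ne'
  rw [← mul_div_cancel₀ (S.wO_t ψ K W {oX X}) n0, ← nsmul_eq_mul, ← sum_const, ← sum_add_distrib]
  refine (norm_sum_le _ _).trans ((sum_le_card_nsmul _ _ ((4 * κ + S.g ^ 30) * κ / (dn_t S.l S.n X).card)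
    fun y hy => ?_).trans_eq (by rw [nsmul_eq_mul, mul_div_cancel₀ _ (by linarith)]))
  have ry : ∀ y ∈ dn_t S.l S.n X, rcT S.n y = y := fun y hy => by
    obtain ⟨x, -, rfl⟩ := mem_image.1 hy
    exact rc_rc_t _ _
  have e1 : dn_t S.l S.n (trS_t S.nf (-up S.l y) X) = trS_t S.n (-y) (dn_t S.l S.n X) :=
    up_neg S.l y ▸ dn_trS_t _ _ _ _
  have hd : trS_t S.nf (-up S.l y) X ⊆ domT S.nf := image_subset_iff.2 fun _ _ => rc_mem_t o _
  have x1 : trS_t S.nf (-up S.l y) X ∈ S.X1s_t := mem_filter.2 ⟨mem_powerset.2 hd,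
    (tau_sh_t _ _).trans ht, e1 ▸ mem_image.2 ⟨y, hy, by
      rw [add_neg_cancel, rc_box_t h.nu.ok.odd (zero_mem_box _)]⟩⟩
  have ky : K1_t S.nf (trS_t S.nf (-up S.l y) X) κ (S.Ky_t K y (trS_t S.nf (-up S.l y) X) ∅) := by
    refine K1_t.tr o hd (F := K (trS_t S.nf (up S.l y) _) ∅) ?_
    rwa [trS_trS_t o hX]
  have q := cq_shT S.n y W
  have c := Fs_close_t h x1 ky (W := shT S.n y W) fun u hu =>
    q.H S ▸ H_sh y W ▸ i.not_H hW ((ry y hy).symm ▸ hy) hu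
  have b := Fs_bd_t h.nu h.ok h.gr h.PQ x1 ky (Bx y (cC W))
  have e2 : ∫ z, S.Ky_t K y (trS_t S.nf (-up S.l y) X) ∅ (S.Ur (shT S.n y W) (pcT0 S.nf z)) ∂nuI S.ζ =
      S.wO_t ψ K W {oX X} := by
    rw [wO_oX_t h hW i k, ← Cov.int_rot_t (ζ := S.ζ) S.Q0 S.nf (up S.l (-y)) (T := fun _ => .refl _ _) (fun _ => rfl)
      (Φ := fun z => K X ∅ (S.Ur W z)) (k.meas.comp (Ur_meas h))]
    refine integral_congr_ae (.of_forall fun z => ?_)
    have p1 := Ur_per_t h.nu.ok.odd (hW.tr y) (perT0_pcT0 _ z)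
    simp only [Ky_t, trA_t, trS_trS_t o hX, image_empty, pc_per_t p1]
    refine k.ci _ _ (Cq.trans ?_ (((q.Ur S _).sh _).trans (cq_shT _ _ _)))
      (Ur_per_t h.nu.ok.odd hW ((perT0_pcT0 _ z).sh _)) (p1.tr _)
    rw [← up_neg, ← Ur_sh, sh_sh, neg_add_cancel, sh_zero]
    exact .refl _
  rw [e1, card_trS_t ry] at b c
  rw [e2, q.Bx, ← sh_cC, Bx_sh, zero_add] at c
  rw [wO_oS_t h]
  generalize S.Fs_t (S.Ky_t K y) _ _ = F at b c
  generalize S.wO_t ψ K W _ = I at c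
  generalize (dn_t S.l S.n X).card = N at *
  have b1 : 2 * κ / N ≤ 2 * κ := div_le_self (by linarith) n1
  have := Complex.norm_exp_sub_one_sub_id_le (x := -F) (by rw [norm_neg]; linarith)
  rw [show I / N + (Complex.exp (-F) - 1) = Complex.exp (-F) - 1 - -F - (N * F - I) / N by
    field_simp; ring, add_mul, add_div]
  refine norm_sub_le_of_le (this.trans ?_) ?_
  · rw [norm_neg, sq, show 4 * κ * κ / N = 2 * κ * (2 * κ / N) by ring]
    exact mul_le_mul (b.trans b1) b (norm_nonneg _) (by linarith)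
  · rw [norm_div, Complex.norm_natCast]
    gcongr

end Sd

end Pool.Agent.Lib.MP_7f377f_mp.RG.Q4
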