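import Pool.Agent.Lib.MP_7f377f_mp.G.Q4CalmD
import Pool.Agent.Lib.MP_7f377f_mp.G.TwBase
import Pool.Agent.Lib.MP_7f377f_mp.G.TqFs

/-! The functionals of a calm block on real fields of small curvature. -/

noncomputable section

set_option linter.unusedSectionVars false
variable [Pool.Agent.Lib.MP_7f377f_mp.GD]
variable [Pool.Agent.Lib.MP_7f377f_mp.RG.Q4.Tws]

namespace Pool.Agent.Lib.MP_7f377f_mp.RG.Q4

open Finset Polynomial MeasureTheory

namespace Cm

variable {S : Sd} {b ε : ℝ} {B : Fld} {W : Cf} {U : Conf} {z : Lk → E3} {u : St → S3} {y : St}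
  {ψ : Lx} {R : ℕ}

theorem pu_tr_t {p : Pa} (h : PU p b ψ) (n : ℕ) (v : St) : PU p b (trL_t n v ψ) :=
  ⟨h.1.imp fun _ h => h.imp fun _ h => h.imp fun _ h _ => h _, fun _ => h.2 _⟩

end Cm

end Pool.Agent.Lib.MP_7f377f_mp.RG.Q4
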