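import Pool.Agent.Lib.MP_7f377f_mp.G.Q4Def2
import Pool.Agent.Lib.MP_7f377f_mp.G.TwBase
import Pool.Agent.Lib.MP_7f377f_mp.G.TqDefs

/-! Abbreviations for the statements about one step. -/

noncomputable section

set_option linter.unusedSectionVars false
variable [Pool.Agent.Lib.MP_7f377f_mp.GD]
variable [Pool.Agent.Lib.MP_7f377f_mp.RG.Q4.Tws]

namespace Pool.Agent.Lib.MP_7f377f_mp.RG.Q4

open Finset

namespace Sd

variable (S : Sd)

/-- the decay which goes with the new cores -/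
def hw_t (W : Conf) (O : Finset Ob) : ℝ := Real.exp (-(S.p'.lam * Rg (S.lab_t W O) W +
  ∑ C ∈ S.lab_t W O, (S.p'.G0 + S.p'.G2 * tau_t S.n S.p'.D C)))

/-- the data agree on the blocks of `Y` -/
def AgD_t (Y : Finset St) (ψ ψ' : Lx) (K K' : Ac) : Prop :=
  (∀ x ∈ domT S.nf, yo S.l x ∈ Y → ψ x = ψ' x) ∧
    ∀ o ∈ lps (domT S.nf), dn_t S.l S.n o.1 ⊆ Y → K o.1 o.2 = K' o.1 o.2

end Sd

end Pool.Agent.Lib.MP_7f377f_mp.RG.Q4
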