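import Pool.Agent.Lib.MP_7f377f_mp.G.Q4S1
import Pool.Agent.Lib.MP_7f377f_mp.G.TwBase
import Pool.Agent.Lib.MP_7f377f_mp.G.TqDef2
import Pool.Agent.Lib.MP_7f377f_mp.G.TqFs

/-! The new small terms. -/

noncomputable section

set_option linter.unusedSectionVars false
variable [Pool.Agent.Lib.MP_7f377f_mp.GD]
variable [Pool.Agent.Lib.MP_7f377f_mp.RG.Q4.Tws]

namespace Pool.Agent.Lib.MP_7f377f_mp.RG.Q4

open Finset MeasureTheory

attribute [local irreducible] box domT lbox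

namespace Sd.Pu

variable {S : Sd} (h : S.Pu) {xb xk xr b : ℝ} {ψ ψ' : Lx} {B : Fld}
include h

/-- the smoothed activity of a small polymer -/
theorem Fs_ps_t {X : Finset St} {K : Ac} {κ : ℝ} (hX : X ∈ S.X1s_t) (k : K1_t S.nf X κ (K X ∅)) :
    Ps S.p'.R 6 S.p'.ρ (S.Q ^ 13 * S.β * (κ / (dn_t S.l S.n X).card))
      (S.Q ^ 13 * S.β * (κ / (dn_t S.l S.n X).card)) (S.Q ^ 28 * (κ / (dn_t S.l S.n X).card))
      (fun B => S.Fs_t K X B - S.Fs_t K X 0) ∧ Measurable (S.Fs_t K X) := by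
  have ρ0 := h.ρ0
  have g0 := h.nu.ok.g0
  have Q0 := S.Q0
  have κ0 := (norm_nonneg _).trans (k.bd 1)
  have c0 := X1_card_t hX
  have ex := h.nu.exps
  have e : S.β = (S.g ^ 2)⁻¹ := eq_inv_of_mul_eq_one_left h.nu.ok.βg
  have h1 : S.g' ≤ 3 / 2 * S.g := h.nu.ok.g'g
  obtain ⟨m1, m2, -⟩ := ((Fsr_tb_t h.nu h.tk.ok h.tk.gr h.P_le hX k).ps (ρ := 3 * S.p'.ρ)
    (by positivity) ((div_le_self g0.le (one_le_pow₀ S.Q1)).trans (by
      nlinarith [h.nu.ok.gg', le_mul_of_one_le_left h.nu.ok.g'0.le (one_le_pow₀ (n := 3) S.Q1),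
        S.p'_ρ])) (by positivity) (by linarith) 6).ctr ρ0
  refine ⟨(((m1.smul ρ0 ((dn_t S.l S.n X).card : ℂ)⁻¹).1.congr ρ0 fun B _ _ => by
    rw [Fs_t, Fs_t]; ring).1).mono' ρ0 ?_ ?_ ?_, m2.div_const _⟩ <;>
    rw [norm_inv, Complex.norm_natCast]
  · calc _ = 4 * 10 ^ 11 * (S.Q ^ 12 * S.β * (κ / (dn_t S.l S.n X).card)) := by rw [e]; field_simp; ring
      _ ≤ S.Q * (S.Q ^ 12 * S.β * (κ / (dn_t S.l S.n X).card)) := by
        gcongr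
        exacts [by rw [e]; positivity, h.nu.cQ' (by norm_num)]
      _ = _ := by ring
  · calc _ = 8 * 10 ^ 11 * (S.p'.R + 1) ^ 12 * (S.Q ^ 12 * S.β * (κ / (dn_t S.l S.n X).card)) := by
          rw [e]; field_simp; ring
      _ ≤ S.Q * (S.Q ^ 12 * S.β * (κ / (dn_t S.l S.n X).card)) := by
        refine mul_le_mul_of_nonneg_right (le_trans ?_ (h.nu.mon (C := 10 ^ 12) (i := 1) (j := 12)
          (by norm_num) (by omega) (by omega))) (by rw [e]; positivity)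
        have D1 : (1 : ℝ) ≤ S.D0 := by exact_mod_cast D1 S.toTd
        have := h.nu.cL' (C := 5 ^ 12) (by norm_num)
        calc _ ≤ 10 ^ 12 * (5 * (S.D0 : ℝ)) ^ 12 := by
              rw [p'_R]
              push_cast
              gcongr <;> [norm_num; linarith]
          _ ≤ _ := by rw [mul_pow, pow_one, mul_assoc]; gcongr
      _ = _ := by ring
  · calc _ = 4 * 10 ^ 18 * (S.g' / S.g) ^ 3 * (S.Q ^ 27 * (κ / (dn_t S.l S.n X).card)) := by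
          rw [p'_ρ]; field_simp; ring
      _ ≤ S.Q * (S.Q ^ 27 * (κ / (dn_t S.l S.n X).card)) := by
        refine mul_le_mul_of_nonneg_right (le_trans ?_ (h.nu.cQ' le_rfl)) (by positivity)
        have := pow_le_pow_left₀ (div_pos h.nu.ok.g'0 g0).le ((div_le_iff₀ g0).2 h1) 3
        linarith
      _ = _ := by ring

end Sd.Pu

namespace Sd

variable {S : Sd} {a : ℕ} {k : Mj} {θ : ℝ}

theorem X1_meet_t (h : S.Ok) {X : Finset St} (hX : X ∈ S.X1s_t) : ∃ x ∈ box S.l, x ∈ X := by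
  obtain ⟨x, h1, h2⟩ := mem_image.1 (mem_filter.1 hX).2.2
  have h3 := X1_dom_t hX h1
  rw [nf, mem_fineT h.odd] at h3
  rw [rc_eq_t h.odd h3] at h2
  exact ⟨x, fb_zero S.l ▸ Op.mem_fb.2 (h2 ▸ zero_mem_box 0), h1⟩

/-- the total size of the small polymers which meet a block -/
theorem sum_X1_t (u : S.Nu a) (hk : kN_t S.p S.nf k θ) (v : St) :
    ∑ X ∈ S.X1s_t, k (trS_t S.nf v X) ∅ ≤ θ / S.Q := by
  have hn := u.ok.odd_nf
  have Q0 := S.Q0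
  have inj : Set.InjOn (fun x => rcT S.nf (x + v)) (domT S.nf : Finset St) :=
    fun x hx y hy e => by
      simpa only [rc_add_rc_t, add_neg_cancel_right, rc_eq_t hn hx, rc_eq_t hn hy] using
        congrArg (fun z => rcT S.nf (z + -v)) e
  have h1 : ∀ x, (∑ X ∈ S.X1s_t with x ∈ X, k (trS_t S.nf v X) ∅) * S.QM ^ 2 ≤ θ := fun x => by
    refine le_trans ?_ (hk.2 (rcT S.nf (x + v)))
    rw [sum_mul]
    refine le_trans (le_of_eq ?_) (sum_le_sum_of_subset_of_nonneg (s := (S.X1s_t.filter (x ∈ ·)).image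
      fun X => (⟨trS_t S.nf v X, ∅⟩ : LP St)) (image_subset_iff.2 fun X hX => ?_)
      fun o _ _ => mul_nonneg (hk.1 _ _) (Real.exp_nonneg _))
    · rw [sum_image fun X hX Y hY e => (image_eq_image_iff_of_injOn inj (X1_dom_t (mem_filter.1 hX).1)
        (X1_dom_t (mem_filter.1 hY).1)).1 (congrArg Sigma.fst e)]
      refine sum_congr rfl fun X hX => ?_
      simp [wgt_t, trS_t, tau_sh_t, (mem_filter.1 (mem_filter.1 hX).1).2.1, u.exp_a]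
    · have h2 : rcT S.nf (x + v) ∈ trS_t S.nf v X := mem_image_of_mem _ (mem_filter.1 hX).2
      exact mem_filter.2 ⟨mem_lps.2 ⟨image_subset_iff.2 fun y _ => rc_mem_t hn _, ⟨_, h2⟩,
        empty_mem_fams _⟩, h2⟩
  have h2 : ∑ X ∈ S.X1s_t, k (trS_t S.nf v X) ∅ ≤
      ∑ x ∈ box S.l, ∑ X ∈ S.X1s_t with x ∈ X, k (trS_t S.nf v X) ∅ := by
    simp only [sum_filter]
    rw [sum_comm]
    refine sum_le_sum fun X hX => ?_
    obtain ⟨x, h3, h4⟩ := X1_meet_t u.ok hX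
    refine le_trans (le_of_eq (if_pos h4).symm) (single_le_sum
      (f := fun x => if x ∈ X then k (trS_t S.nf v X) ∅ else 0) (fun y _ => ?_) h3)
    split_ifs
    exacts [hk.1 _ _, le_rfl]
  have h3 : S.Q ^ 2 ≤ S.QM ^ 2 := pow_le_pow_left₀ Q0.le u.ok.QQM 2
  have θ0 : 0 ≤ θ := le_trans (mul_nonneg (sum_nonneg fun _ _ => hk.1 _ _) (sq_nonneg _)) (h1 0)
  refine h2.trans ((sum_le_card_nsmul _ _ (θ / S.Q ^ 2) fun x _ => (le_div_iff₀ (by positivity)).2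
    ((mul_le_mul_of_nonneg_left h3 (sum_nonneg fun _ _ => hk.1 _ _)).trans (h1 x))).trans ?_)
  rw [RG.card_box, nsmul_eq_mul, ← mul_div_assoc, div_le_div_iff₀ (by positivity) Q0]
  have h4 : (((2 * S.l + 1) ^ 4 : ℕ) : ℝ) ≤ S.Q :=
    (Nat.cast_pow _ _).trans_le (u.LQ (by have := u.exps; omega))
  nlinarith [mul_le_mul_of_nonneg_right h4 (mul_nonneg θ0 Q0.le)]

theorem k1y_t {K : Ac} (h : S.Ok) (hK : KM_t S.p S.nf k K) (y : St) {X : Finset St} (hX : X ∈ S.X1s_t) :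
    K1_t S.nf X (k (trS_t S.nf (up S.l y) X) ∅) (S.Ky_t K y X ∅) := hK.k1_tr h.odd_nf (X1_dom_t hX) _

/-- the smoothed activities of all small polymers -/
theorem Pu.Fs_sum_t (h : S.Pu) {K : Ac} (hK : KM_t S.p S.nf k K) (hk : kN_t S.p S.nf k θ) (y : St) :
    Ps S.p'.R 6 S.p'.ρ (S.Q ^ 12 * θ / S.g ^ 2) (S.Q ^ 12 * θ / S.g ^ 2) (S.Q ^ 27 * θ)
      fun B => ∑ X ∈ S.X1s_t, (S.Fs_t (S.Ky_t K y) X B - S.Fs_t (S.Ky_t K y) X 0) := by
  have Q0 := S.Q0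
  have β0 := h.nu.ok.β0
  have e : S.β = (S.g ^ 2)⁻¹ := eq_inv_of_mul_eq_one_left h.nu.ok.βg
  have h1 : ∑ X ∈ S.X1s_t, k (trS_t S.nf (up S.l y) X) ∅ / (dn_t S.l S.n X).card ≤ θ / S.Q :=
    (sum_le_sum fun X hX => div_le_self (hk.1 _ _) (X1_card_t hX)).trans (sum_X1_t h.nu hk _)
  have h2 : ∑ X ∈ S.X1s_t, S.Q ^ 13 * S.β * (k (trS_t S.nf (up S.l y) X) ∅ / (dn_t S.l S.n X).card) ≤
      S.Q ^ 12 * θ / S.g ^ 2 := (mul_sum _ _ _).ge.trans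
    ((mul_le_mul_of_nonneg_left h1 (by positivity)).trans_eq (by rw [e]; field_simp))
  exact (Ps.sum S.X1s_t h.ρ0 fun X hX => (h.Fs_ps_t hX (k1y_t h.nu.ok hK y hX)).1).1.mono' h.ρ0 h2 h2
    ((mul_sum _ _ _).ge.trans ((mul_le_mul_of_nonneg_left h1 (by positivity)).trans_eq
      (by field_simp)))

end Sd

variable (c : ℕ)

omit [Tws] in
theorem fs_bd_t : ∀ᶠ S in ev c, ∀ [Tws], ∀ k K, KM_t S.p S.nf k K → ∀ y, ∀ X ∈ S.X1s_t,
    Measurable (S.Fs_t (S.Ky_t K y) X) ∧ ∀ B, ‖S.Fs_t (S.Ky_t K y) X B‖ ≤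
      2 * k (trS_t S.nf (up S.l y) X) ∅ / (dn_t S.l S.n X).card :=
  (ev_pu c).mono fun _ h _ _ _ hK y _ hX => ⟨(h.Fs_ps_t hX (Sd.k1y_t h.nu.ok hK y hX)).2,
    Sd.Fs_bd_t h.nu h.tk.ok h.tk.gr h.P_le hX (Sd.k1y_t h.nu.ok hK y hX)⟩

omit [Tws] in
theorem x1_sum_t : ∀ᶠ S in ev c, ∀ [Tws], ∀ k θ, kN_t S.p S.nf k θ → ∀ y,
    ∑ X ∈ S.X1s_t, k (trS_t S.nf (up S.l y) X) ∅ ≤ S.L ^ 4 * θ :=
  (ev_nu' c 0).mono fun S h _ k θ hk y => by
    have h1 := Sd.sum_X1_t h hk (up S.l y)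
    have θ0 := (div_nonneg_iff.1 ((sum_nonneg fun _ _ => hk.1 _ _).trans h1)).elim And.left
      fun e => absurd S.Q0 e.2.not_gt
    exact h1.trans ((div_le_self θ0 S.Q1).trans
      (le_mul_of_one_le_left θ0 (one_le_pow₀ (Sd.L1 _))))

omit [Tws] in
theorem pl_ps_t : ∀ᶠ S in ev c, ∀ [Tws], ∀ xb xk xr θ k ψ K, PM S.p xb xk xr ψ → KM_t S.p S.nf k K →
    kN_t S.p S.nf k θ →
      PM S.p' (xb + S.xd xb xk xr θ) (S.xk' xb xk xr θ) (S.xr' xb xk xr θ) (S.PL_t ψ K) ∧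
      ∀ y a b d d', Cv 0 d a → Cv 0 d' b → ‖qc (S.PL_t ψ K y) a b -
        (S.L ^ 4)⁻¹ • ∑ x ∈ box S.l, qc (S.ψy_t ψ y x) a b‖ ≤ S.xd xb xk xr θ * d * d' := by
  filter_upwards [ev_pu c] with S h _ xb xk xr θ k ψ K hψ hK hk
  have ρ0 := h.ρ0
  have ρ2 : 0 < S.p.ρ := by linarith [h.ρ_le]
  obtain ⟨b0, k0, x0⟩ := (hψ 0).1.nonneg ρ2
  have a := fun y => h.pz_ps (ψ := S.ψy_t ψ y) fun x _ => (hψ _).1
  have f := h.Fs_sum_t hK hk
  have u0 := h.nu.ok.u0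
  have Q0 := S.Q0
  have θ0 : 0 ≤ θ := (mul_nonneg_iff_of_pos_left (pow_pos Q0 27)).1 ((f 0).nonneg ρ0).2.2
  have q1 : ∀ i ≤ 10, S.Q ^ i * S.u * (xb + xk) ≤ S.Q ^ 10 * √S.g * (xb + xk) := fun i hi => by
    have := S.Qw hi
    unfold Sd.u
    gcongr
  have q3 : S.Q ^ 12 * θ / S.g ^ 2 ≤ S.Q ^ 40 * θ / S.g ^ 2 := by
    have := S.Qw (by omega : 12 ≤ 40)
    gcongr
  have e1 : S.Q ^ 4 * S.u * (xb + xk) + S.cs * xr / S.p.ρ ^ 2 + S.Q ^ 12 * θ / S.g ^ 2 ≤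
      S.xd xb xk xr θ := add_le_add (add_le_add (q1 4 (by omega)) le_rfl) q3
  refine ⟨fun y => ⟨((a y).1.sub (f y) ρ0).1.mono' ρ0 (by linarith) ?_ ?_,
    ((a y).2.1.sub_const _).sub (Finset.measurable_fun_sum _ fun X hX =>
      (h.Fs_ps_t hX (Sd.k1y_t h.nu.ok hK y hX)).2.sub_const _)⟩, fun y a' b d d' ha hb => ?_⟩
  · have r1 := mul_le_mul_of_nonneg_right (pow_le_pow_right₀ h.nu.r1' (by omega : 18 ≤ 20)) b0
    have r2 := mul_le_mul_of_nonneg_right (S.Qw (by omega : 4 ≤ 40))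
      (by positivity : 0 ≤ S.u * (xb + xk))
    have r3 := mul_le_mul_of_nonneg_right (S.Qw (by omega : 1 ≤ 40))
      (by positivity : 0 ≤ xr / S.p.ρ ^ 2)
    rw [mul_div_assoc _ θ, mul_div_assoc _ θ] at q3
    unfold Sd.xk'
    rw [mul_div_assoc _ θ]
    unfold Sd.u at *
    linarith
  · exact add_le_add (add_le_add (mul_le_mul_of_nonneg_right (q1 3 (by omega)) (sq_nonneg _)) le_rfl)
      (mul_le_mul_of_nonneg_right (S.Qw (by omega)) θ0)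
  · have := ha.nonneg
    have := hb.nonneg
    rw [qc, show q2 (S.PL_t ψ K y) _ _ = _ from ((a y).1.sub (f y) ρ0).2 _ _, sub_right_comm]
    refine (norm_sub_le_of_le ((a y).2.2 a' b d d' ha hb) ((f y).cb a' b d d' ha hb)).trans ?_
    rw [← add_mul, ← add_mul]
    gcongr

end Pool.Agent.Lib.MP_7f377f_mp.RG.Q4
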