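import Pool.Agent.Lib.MP_7f377f_mp.G.Q4FsB
import Pool.Agent.Lib.MP_7f377f_mp.G.TwBase
import Pool.Agent.Lib.MP_7f377f_mp.G.TqC3
import Pool.Agent.Lib.MP_7f377f_mp.G.TqS1

/-! The small polymers: cancellation, and the small local term of one polymer. -/

noncomputable section

set_option linter.unusedSectionVars false
variable [Pool.Agent.Lib.MP_7f377f_mp.GD]
variable [Pool.Agent.Lib.MP_7f377f_mp.RG.Q4.Tws]

namespace Pool.Agent.Lib.MP_7f377f_mp.RG.Q4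

open Finset MeasureTheory Filter
open scoped Classical

attribute [local irreducible] box domT lbox

theorem kN_t.le {p : Pa} {n : ℕ} {k : Mj} {θ : ℝ} (h : kN_t p n k θ) (ha : 0 ≤ p.a) {X : Finset St}
    (hX : X ⊆ domT n) (h0 : X.Nonempty) : k X ∅ ≤ θ :=
  let ⟨x, hx⟩ := h0
  (le_mul_of_one_le_right (h.1 _ _) (Real.one_le_exp (by rw [sum_empty]; positivity))).trans
    ((single_le_sum (f := fun o : LP St => k o.1 o.2 * wgt_t p n o.1 o.2) (a := ⟨X, ∅⟩)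
      (fun _ _ => mul_nonneg (h.1 _ _) (Real.exp_pos _).le)
      (mem_filter.2 ⟨mem_lps.2 ⟨hX, h0, empty_mem_fams _⟩, hx⟩)).trans (h.2 x))

variable (c : ℕ)

omit [Tws] in
theorem canc3_t : ∀ᶠ S in ev c, ∀ [Tws], ∀ b θ k ψ K, S.Sml_t b θ k ψ K → ∀ W, PerT S.n W →
    ∀ X ⊆ domT S.nf, X.Nonempty → tau_t S.nf S.p.D X = 1 → S.In_t W {oX X} →
      ‖S.wO_t ψ K W {oX X} + ∑ y ∈ dn_t S.l S.n X, S.wO_t ψ K W {oS y (trS_t S.nf (-up S.l y) X)}‖ ≤
        k X ∅ * ((S.Q ^ 10)⁻¹ + 10 * θ) := by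
  filter_upwards [ev_fo c] with S h _ b θ k ψ K s W hW X hX h0 ht i
  have k0 := s.kn.1 X ∅
  have k1 := s.kn.le h.nu.a0 hX h0
  have q := (h.nu.cQ' (C := 2) (by norm_num)).trans (le_self_pow₀ S.Q1 (n := 100) (by norm_num))
  have g : S.g ^ 30 ≤ (S.Q ^ 10)⁻¹ := by
    rw [← one_div, le_div_iff₀' (pow_pos S.Q0 _)]
    refine le_trans ?_ (h.nu.ok.Qg_le (i := 0) (j := 10) (by norm_num))
    simpa [pow_pos S.Q0] using pow_le_of_le_one h.nu.ok.g0.le h.nu.ok.g1 (n := 30) (by norm_num)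
  refine (Sd.c3_t h hW hX h0 ht i (s.km.k1 X) (by nlinarith [s.θ_le])).trans ?_
  nlinarith

end Pool.Agent.Lib.MP_7f377f_mp.RG.Q4
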