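import Pool.Agent.Lib.MP_7f377f_mp.G.Q4CovE
import Pool.Agent.Lib.MP_7f377f_mp.G.TwBase
import Pool.Agent.Lib.MP_7f377f_mp.G.TqCovC
import Pool.Agent.Lib.MP_7f377f_mp.G.TqLocO

/-! The change of variables for the fluctuation operator built from kernels. -/

noncomputable section

set_option linter.unusedSectionVars false
variable [Pool.Agent.Lib.MP_7f377f_mp.GD]
variable [Pool.Agent.Lib.MP_7f377f_mp.RG.Q4.Tws]

namespace Pool.Agent.Lib.MP_7f377f_mp.RG.Q4

open MeasureTheory Ms Finset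

variable {O : Od} {c n : ℕ} {δ g ζ : ℝ} {H : Set St} {ka : St → Kf} {W : Cf} {W0 b : Conf}
  {As : Fld} {A : (Lk → E3) → Lk → E3}

theorem pj_pc_t {l : ℕ} (hn : Odd n) (hH : PerS (sd n) H) (z : Lk → E3) :
    (pj l H fun e => cE (pcT0 (LL l * n) z e)) =
      fun e => cE (exa (sd n) l H 0 (fun i => z i) e) := by
  funext e
  by_cases he : Act l H e
  · rw [exa_act (odd_sd hn) hH he, pj, if_pos he, ← pcv_fi_t]
    rfl
  · rw [exa_not (odd_sd hn) hH he, pj, if_neg he, cE_zero]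

theorem covOk_K_t (h : O.Ok c) (hδ : (LL O.l : ℝ) ^ (2 * c + 10) * δ ≤ 1) (hn : Odd n)
    (hN : 2 * O.N < n) (hH : PerS (sd n) H) (hk : PerK (sd n) ka) (hr : ∀ y, Nf H y → Kr (ka y))
    (hs : ∀ y, Ks (ka y)) (h0 : PerQ (sd n) W0) (hg : ∀ y, Gk O δ H ka W W0 y)
    (hb : PerT (LL O.l * n) b) (hp : PerT0 (LL O.l * n) As) (h1 : ∀ f, Act O.l H f → ‖As f‖ ≤ 1)
    (g0 : 0 < g) (hζ : 6 * (LL O.l : ℝ) ^ (6 * c + 16) / g ≤ ζ)
    (hA : ∀ z f k, Act O.l H f → A z f k =
      (As f k + g * polK O.l O.Λ (pP O.N) H ka (fun e => cE (z e)) f k).re) :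
    CovOkT O.l n (Metric.closedBall 0 ζ) (alk (sd n) O.l H) (Act O.l H) b
      (fun i => WithLp.toLp 2 fun k => (As i k).re) (g • pAct (sd n) O.l O.Λ (pP O.N) H ka) A := by
  have hn' : ∀ i, Odd (sd n i) := odd_sd hn
  have hsp := pAct_spec (l := O.l) (Λ := O.Λ) hn' hH hk hr fun i => (Od.coeff_real O.N i).1
  refine ⟨hn, fun f hf => mem_product.2 ⟨domv_fi_t O.l n ▸ (mem_alk.1 hf).1, mem_univ _⟩,
    fun f => rcv_fi_t O.l n ▸ (rcv_alk hn' hH).symm, hb, fun z f hf => ?_, ?_, fun z hz i => ?_⟩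
  · revert hf
    rw [← rcv_fi_t]
    intro hf
    have ha := (rcv_alk hn' hH).1 hf
    ext k
    have e : As f = As (rcv (fi O.l (sd n)) f.1, f.2) := rcv_fi_t O.l n ▸ (hp.rl f).symm
    rw [hA _ _ _ ha, ← polK_pj, pj_pc_t hn hH, hsp, e]
    simp only [exa_act hn' hH ha]
    simp only [cE, Complex.add_re, Complex.re_ofReal_mul, Complex.ofReal_re]
    rfl
  · rw [det_gP]
    exact mul_ne_zero (by positivity) (det_pAct_ne_t h hδ hn' (lt_sd hN) hH hk hr hs h0 hg)
  · have h2 : ∀ j, ‖cE (pAct (sd n) O.l O.Λ (pP O.N) H ka z j)‖ ≤ 3 / g := by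
      intro j
      have h5 : ‖(WithLp.toLp 2 fun k => (As j k).re : E3) +
        (g • pAct (sd n) O.l O.Λ (pP O.N) H ka) z j‖ ≤ 2 :=
        abs_le_of_sq_le_sq' ((hz j).trans (by norm_num)) two_pos.le |>.2
      have h6 : ‖(WithLp.toLp 2 fun k => (As j k).re : E3)‖ ≤ 1 := by
        refine le_trans ?_ (h1 _ (mem_alk.1 j.2).2)
        rw [norm_C3, EuclideanSpace.norm_eq]
        exact Real.sqrt_le_sqrt (sum_le_sum fun k _ => pow_le_pow_left₀ (norm_nonneg _)
          (Complex.abs_re_le_norm _) 2)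
      have h7 := norm_sub_le_of_le h5 h6
      rw [add_sub_cancel_left, LinearMap.smul_apply, Pi.smul_apply, norm_smul,
        Real.norm_of_nonneg g0.le] at h7
      rw [norm_cE', le_div_iff₀' g0]
      linarith
    have h3 := polK_inv (A := fun f => cE (exa (sd n) O.l H 0 z f)) (a := 3 / g) h hδ hg
      ⟨‖z‖, fun e => (norm_cE _).1.trans (by
        unfold exa
        split_ifs
        exacts [norm_le_pi_norm _ _, norm_zero.trans_le (norm_nonneg _)])⟩ (fun e => by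
        rw [hsp]
        simp only [exa]
        split_ifs
        exacts [h2 _, by rw [cE_zero, norm_zero]; positivity]) (mem_alk.1 i.2).2
    simp only [exa_coe hn'] at h3
    rw [mem_closedBall_zero_iff]
    refine ((norm_cE _).2.trans (mul_le_mul_of_nonneg_left h3 two_pos.le)).trans
      (le_of_eq_of_le (by ring) hζ)

end Pool.Agent.Lib.MP_7f377f_mp.RG.Q4
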