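import Pool.Agent.Lib.MP_7f377f_mp.G.Q4CalmF
import Pool.Agent.Lib.MP_7f377f_mp.G.TwBase
import Pool.Agent.Lib.MP_7f377f_mp.G.TqCalmD
import Pool.Agent.Lib.MP_7f377f_mp.G.TqFsB
import Pool.Agent.Lib.MP_7f377f_mp.G.TqJ2

/-! The factor of a calm block and the bounds of the marks. -/

noncomputable section

set_option linter.unusedSectionVars false
variable [Pool.Agent.Lib.MP_7f377f_mp.GD]
variable [Pool.Agent.Lib.MP_7f377f_mp.RG.Q4.Tws]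

namespace Pool.Agent.Lib.MP_7f377f_mp.RG.Q4

open Finset Polynomial MeasureTheory

open Cm

variable (c : ℕ)

omit [Tws] in
theorem calm_id_t : ∀ᶠ S in ev c, ∀ [Tws], ∀ b ψ K W v, PU S.p b ψ → ∀ y ∈ S.Λ'_t, S.Calm W v y →
    S.Gn (sh y W) (shv y v) * S.Ib ψ ∅ (S.Uv W v) y =
      Complex.exp (S.cX_t (S.ψy_t ψ y) (S.Ky_t K y) - S.Φ'_t ψ K y (Bx y (cC W))) *
        (1 + S.fm (S.ψy_t ψ y) (sh y (cC W)) (sh (up S.l y) (vz S.l v))) *
        ∏ X ∈ S.X1s_t, Complex.exp (-S.Fs_t (S.Ky_t K y) X (Bx y (cC W))) := by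
  filter_upwards [ev_hp c] with S h _ b ψ K W v hψ y hy hc
  have c : S.Calm (sh y W) (shv y v) 0 := Sd.calm_sh.2 (by rwa [zero_add])
  have R := S.R_eq
  have e1 : S.Ib ψ ∅ (S.Uv W v) y =
      ∏ x ∈ box S.l, Ix S.p (S.Φ (S.ψy_t ψ y)) (S.Uv (sh y W) (shv y v)) x := by
    rw [Sd.Ib, filter_true_of_mem fun _ _ => notMem_empty _]
    refine prod_congr rfl fun x hx => ?_
    rw [Sd.Uv_sh, Ix, Ix, chi, chi, sh_sh, ← sh_cC, Bx_sh, Sd.Φ, Sd.Φ, Sd.ψy_t, trL_t,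
      rc_eq_t h.nu.ok.odd_nf (Mx.up_mem_t h.nu.ok.odd hy hx)]
  rw [e1, h.calm0 (ψ := S.ψy_t ψ y) c (pu_tr_t hψ _ _), Sd.fm, add_sub_cancel, ← Complex.exp_sum, ← Complex.exp_add,
    ← Complex.exp_add, Bx_eq y, ← Sd.vz_shv, sh_cC,
    h.dt0_ga (h.ga0 ((Hp.fq0 c).mono (by omega) le_rfl)), ← wB_Bx]
  simp only [Sd.cX_t, Sd.Φ'_t, Sd.PL_t, Sd.Pl_t, Td.ol, sum_sub_distrib, sum_neg_distrib]
  congr 1
  ring

omit [Tws] in
theorem mark_bd_t : ∀ᶠ S in ev c, ∀ [Tws], ∀ b θ k ψ K, S.Sml_t b θ k ψ K → ∀ W v, PerT S.n W →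
    ∀ Ω, ∀ m ∈ S.mks_t, (∀ y, m = .inl y → y ∉ Ω → S.Calm W v y) →
      ‖S.jm_t ψ K W v Ω m‖ ≤ S.wk_t b k m := by
  filter_upwards [ev_hp c, ev_rs c] with S h r _ b θ k ψ K s W v hW Ω m hm hc
  have g0 := h.g0
  have q0 := S.Q0
  have q1 := S.Q1
  have b0 := h.b0 s.pu
  rcases m with y | q | q | Z
  · simp only [Sd.jm_t, Sd.wk_t, Sd.θ1]
    split_ifs with hy
    · rw [norm_zero]; positivity
    · have c : S.Calm (sh y W) (shv y v) 0 := Sd.calm_sh.2 (by rw [zero_add]; exact hc y rfl hy)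
      exact (h.fm_le r (pu_tr_t s.pu _ _) s.b_le (Hp.fq0 c) _).trans (by gcongr; norm_num)
  · exact (h.oP_le _).trans (by simp only [Sd.wk_t]; gcongr; norm_num)
  · have hX : q.2 ∈ S.X1s_t := by
      simp only [Sd.mks_t, inr_mem_disjSum, inl_mem_disjSum, mem_product] at hm; exact hm.2
    have k0 := s.kn.1 (trS_t S.nf (up S.l q.1) q.2) ∅
    have c1 := Sd.X1_card_t hX
    have h1 : k (trS_t S.nf (up S.l q.1) q.2) ∅ ≤ θ / S.Q := (single_le_sum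
      (f := fun X => k (trS_t S.nf (up S.l q.1) X) ∅) (fun _ _ => s.kn.1 _ _) hX).trans
        (Sd.sum_X1_t h.nu s.kn _)
    have h2 : 2 ≤ S.Q ^ 100 := (h.nu.cQ' (by norm_num)).trans (le_self_pow₀ q1 (by norm_num))
    have θ0 : 0 ≤ θ := (div_nonneg_iff.1 (k0.trans h1)).elim And.left fun e => absurd q0 e.2.not_gt
    simp only [Sd.jm_t, Sd.wk_t]
    split_ifs
    · rw [norm_zero]; positivity
    · refine (exp_le ((norm_neg _).trans_le (Sd.Fs_bd_t h.nu h.ok h.gr h.fo.PQ hX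
        (s.km.k1_tr h.nu.ok.odd_nf (Sd.X1_dom_t hX) _) _)) ((div_le_self (by positivity) c1).trans
          ?_)).trans_eq (by ring)
      linarith [s.θ_le, mul_le_mul_of_nonneg_right h2 θ0, div_le_self θ0 q1]
  · have hZ : Z ⊆ S.Λ'_t := by
      simp only [Sd.mks_t, inr_mem_disjSum, mem_erase, mem_powerset] at hm; exact hm.2
    exact (dmK_le_t (n := sd S.n) h.fo.op h.fo.hδ (odd_sd h.nu.ok.odd) (Sd.H_per_t hW)
      (Sd.ka_per_t hW) hW.perQ hZ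
        fun _ _ _ _ => h.fo.gk W _ :)

end Pool.Agent.Lib.MP_7f377f_mp.RG.Q4
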