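import Pool.Agent.Lib.MP_7f377f_mp.G.Q4Mk
import Pool.Agent.Lib.MP_7f377f_mp.G.TwBase
import Pool.Agent.Lib.MP_7f377f_mp.G.TqC3
import Pool.Agent.Lib.MP_7f377f_mp.G.TqCalmD

/-! The weights of Mayer marks and pair marks as Gaussian integrals. -/

noncomputable section

set_option linter.unusedSectionVars false
variable [Pool.Agent.Lib.MP_7f377f_mp.GD]
variable [Pool.Agent.Lib.MP_7f377f_mp.RG.Q4.Tws]

namespace Pool.Agent.Lib.MP_7f377f_mp.RG.Q4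

open Finset MeasureTheory Polynomial
open scoped Classical

attribute [local irreducible] box domT lbox

namespace Cm

variable {S : Sd} {b : ℝ} {W : Cf} {U : Conf} {z z' : Lk → E3} {y y' u : St} {ψ : Lx} {K : Ac}
  {O : Finset Ob}

theorem int_pc_t (x : St) {f : (Lk → E3) → ℂ} (hf : Measurable f) :
    ∫ z, f (sh x (pcT0 S.nf z)) ∂nuI S.ζ = ∫ z, f (pcT0 S.nf z) ∂nuI S.ζ :=
  Cov.int_rot_t (ζ := S.ζ) S.Q0 S.nf x (T := fun _ => .refl _ _) (fun _ => rfl) hf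

theorem In.mono_t {O' : Finset Ob} (i : S.In_t U O) (h : us S.sp_t O' ⊆ us S.sp_t O) : S.In_t U O' :=
  fun y hy => i y (mem_filter.2 ⟨h (mem_filter.1 hy).1, (mem_filter.1 hy).2.trans h⟩)

theorem near_us_t {o : Ob} (ho : o ∈ O) (hy : rcT S.n y ∈ S.bs_t o) {x : St} {R : ℕ} (hx : x ∈ box R)
    (hR : R ≤ 13 * S.D0) : rcT S.n (x + y) ∈ us S.sp_t O :=
  mem_biUnion.2 ⟨o, ho, Cov.rc_mem_tb_t hy (box_mono hR hx)⟩

/-- the block field is small near the sites of an object -/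
theorem In.fq_t (hU : PerT S.n U) (i : S.In_t U O) {o : Ob} (ho : o ∈ O) (hy : rcT S.n y ∈ S.bs_t o) :
    Fq (S.p'.R + 1) S.p'.ε (sh y U) := by
  have d := Sd.D1 S.toTd
  have := i (rcT S.n y) (mem_filter.2 ⟨by
    simpa only [zero_add] using near_us_t ho hy (zero_mem_box 0) (Nat.zero_le _), fun w hw => by
      obtain ⟨w, h1, rfl⟩ := mem_image.1 hw
      obtain ⟨_, h2, b, hb, rfl⟩ := mem_add.1 h1
      rw [mem_singleton.1 h2, rc_add_rc_t, add_comm]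
      exact near_us_t ho hy hb (by rw [Sd.R_eq]; omega)⟩)
  exact ((hU.rc y).Fq _ _).1 this

/-- the Mayer mark of the block `y` -/
def Fy_t (S : Sd) (ψ : Lx) (U : Conf) (y : St) (z : Lk → E3) : ℂ :=
  S.fm (S.ψy_t ψ y) (sh y (cC U)) (sh (up S.l y) z)

namespace Hp

variable (h : Hp S)
include h

theorem Fy_meas_t (hψ : PU S.p b ψ) (U : Conf) (y : St) : Measurable (Fy_t S ψ U y) :=
  (h.fm_meas' (pu_tr_t hψ _ _) _).comp (measurable_pi_lambda _ fun _ => measurable_pi_apply _)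

theorem Fy_dep_t (e : ∀ f, ¬ tree S.l f → ∀ x ∈ box S.D0, yo S.l f.1 = x + y → z f = z' f) :
    Fy_t S ψ U y z = Fy_t S ψ U y z' :=
  h.fm_dep fun _ ht hf => e _ (fun hc => ht ((Cov.tree_up _ _ _).1 hc)) _ hf (yo_add_up _ _ _)

theorem pc_D_t (z : Lk → E3) {R : ℕ} (hR : R ≤ 400 * S.D0) : Agr (fb S.l R) (pcT0 S.nf z) z :=
  Cov.pc_agr_t h.nu.ok.odd_nf (Sd.nf_half h.nu.ok.odd ▸ Op.fb_mono _
    (by have := h.nu.lens; omega)) z

/-- families of marks -/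
theorem wO_marks_t (h0 : O.toLeft = ∅) {Φ : (Lk → E3) → ℂ} (m : Measurable Φ)
    (d : DependsOn Φ {f | ¬ tree S.l f ∧ rcT S.n (yo S.l f.1) ∈ us S.sp_t O})
    (e : ∀ v, ∏ m ∈ O.toRight, S.jm_t ψ K U v ∅ m = Φ (vz S.l v)) :
    S.wO_t ψ K U O = ∫ z, Φ (pcT0 S.nf z) ∂nuI S.ζ := by
  have z0 := S.Q0.trans_le h.nu.ok.ζ_zm
  have := Smo.nu_prob z0
  have e1 : olds O = ∅ := by rw [olds, h0]; rfl
  rw [Sd.wO_free_t (by rw [CC, e1]; rfl) (by rw [Wk, h0]; rfl) (by rw [Dbl, h0]; rfl)]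
  simp only [e1, coe_empty, Set.pairwiseDisjoint_empty, if_true, prod_empty, one_mul, e, pcW, vz_mW]
  rw [calm_int_t h.nu.ok.odd (ζ := S.ζ) S.Q0 (Cov.gs_nu z0 h.nu.ok.ζ_zm) m d, ← mul_assoc,
    ← Complex.ofReal_mul, ← Sd.p0,
    inv_mul_cancel₀ (pow_pos (Sd.p0_pos h.fo) _).ne', Complex.ofReal_one, one_mul, Sd.nf]

theorem wO_oP_t : S.wO_t ψ K U {oP y u} = Complex.exp (S.c2 u / 2) - 1 := by
  have := nuI_prob (ζ := S.ζ) S.Q0
  rw [h.wO_marks_t (Φ := fun _ => Complex.exp (S.c2 u / 2) - 1) rfl measurable_const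
    (fun _ _ _ => rfl) fun v => by
      rw [show ({oP y u} : Finset Ob).toRight = {.inr (.inl (y, u))} by ext; simp [oP],
        prod_singleton, Sd.jm_t]]
  simp

theorem Fy_us_t {o : Ob} (ho : o ∈ O) (hy : rcT S.n y ∈ S.bs_t o) :
    DependsOn (Fy_t S ψ U y) {f | ¬ tree S.l f ∧ rcT S.n (yo S.l f.1) ∈ us S.sp_t O} :=
  fun _ _ e => h.Fy_dep_t fun f ht x hx e1 => e f ⟨ht, e1 ▸ near_us_t ho hy hx (by omega)⟩

theorem wO_oM'_t (hψ : PU S.p b ψ) (hy : y ∈ S.Λ'_t) :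
    S.wO_t ψ K U {oM y} = ∫ z, Fy_t S ψ U y (pcT0 S.nf z) ∂nuI S.ζ :=
  h.wO_marks_t rfl (h.Fy_meas_t hψ U y) (h.Fy_us_t (mem_singleton_self _)
    ((rc_eq_t h.nu.ok.odd hy).symm ▸ mem_singleton_self _)) fun v => by
      rw [show ({oM y} : Finset Ob).toRight = {.inl y} by ext; simp [oM], prod_singleton, Sd.jm_t,
        if_neg (notMem_empty _), Fy_t]

/-- the weight of one Mayer mark -/
theorem wO_oM_t (hψ : PU S.p b ψ) (hy : y ∈ S.Λ'_t) :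
    S.wO_t ψ K U {oM y} = ∫ z, S.fm (S.ψy_t ψ y) (cC (sh y U)) z ∂nuI S.ζ := by
  rw [h.wO_oM'_t hψ hy]
  refine (int_pc_t (up S.l y) (h.fm_meas' (pu_tr_t hψ _ _) _)).trans
    (integral_congr_ae (ae_of_all _ fun z => h.fm_agr (h.pc_D_t z (by omega))))

theorem wO_oM2_t (hψ : PU S.p b ψ) (hy : y ∈ S.Λ'_t) (hy' : y' ∈ S.Λ'_t) (ne : y ≠ y') :
    S.wO_t ψ K U {oM y, oM y'} =
      ∫ z, Fy_t S ψ U y (pcT0 S.nf z) * Fy_t S ψ U y' (pcT0 S.nf z) ∂nuI S.ζ :=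
  h.wO_marks_t (Φ := fun z => Fy_t S ψ U y z * Fy_t S ψ U y' z) (by ext; simp [oM])
    ((h.Fy_meas_t hψ U y).mul (h.Fy_meas_t hψ U y'))
    (fun _ _ e => congrArg₂ (· * ·)
      (h.Fy_us_t (mem_insert_self _ _) ((rc_eq_t h.nu.ok.odd hy).symm ▸ mem_singleton_self _) e)
      (h.Fy_us_t (mem_insert_of_mem (mem_singleton_self _))
        ((rc_eq_t h.nu.ok.odd hy').symm ▸ mem_singleton_self _) e)) fun v => by
      rw [show ({oM y, oM y'} : Finset Ob).toRight = {.inl y, .inl y'} by ext; simp [oM],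
        prod_pair (by simpa using ne), Sd.jm_t, Sd.jm_t, if_neg (notMem_empty _),
        if_neg (notMem_empty _), Fy_t, Fy_t]

/-- distant Mayer marks are independent -/
theorem wO_far_t (hψ : PU S.p b ψ) (hy : y ∈ S.Λ'_t) (hy' : y' ∈ S.Λ'_t)
    (far : ¬ nearT_t S.n (2 * S.D0) y y') :
    S.wO_t ψ K U {oM y, oM y'} = S.wO_t ψ K U {oM y} * S.wO_t ψ K U {oM y'} := by
  have := Smo.nu_prob (ζ := S.ζ) S.Q0
  have d : ∀ y, DependsOn (fun z => Fy_t S ψ U y (pcT0 S.nf z))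
      {f | nearT_t S.n S.D0 y (yo S.l f.1)} := fun y _ _ e => h.Fy_dep_t fun f _ x hx e1 => e _ (by
    rw [Set.mem_ofPred, Sd.nf, ← rcT, Cov.yo_rc_t h.nu.ok.odd, nearT_rc_right_t, e1, add_comm]
    exact nearT_add_t hx)
  rw [h.wO_oM2_t hψ hy hy' fun e => far (e ▸ nearT_t.refl _ _ _), h.wO_oM'_t hψ hy, h.wO_oM'_t hψ hy']
  exact Mx.int_indep ((h.Fy_meas_t hψ U y).comp (Cov.meas_pc_t _))
    ((h.Fy_meas_t hψ U y').comp (Cov.meas_pc_t _)) (d y) (d y') (Set.disjoint_left.2 fun f h1 h2 =>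
      far (two_mul S.D0 ▸ nearT_t.trans h1 (nearT_t.symm h2)))

/-- the weight of two Mayer marks which are close -/
theorem wO_near_t (hψ : PU S.p b ψ) (hU : PerT S.n U) (hy : y ∈ S.Λ'_t) (hu : u ∈ S.prs) :
    S.wO_t ψ K U {oM y, oM (rcT S.n (y + u))} = ∫ z, S.fm (S.ψy_t ψ y) (cC (sh y U)) z *
      S.fm (S.ψy_t ψ (rcT S.n (y + u))) (cC (sh u (sh y U))) (sh (up S.l u) z) ∂nuI S.ζ := by
  have l := h.nu.lens
  obtain ⟨u0, u1⟩ := mem_erase.1 hu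
  have m1 := h.fm_meas' (pu_tr_t hψ S.nf (up S.l y)) (cC (sh y U))
  have m2 := (h.fm_meas' (pu_tr_t hψ S.nf (up S.l (rcT S.n (y + u)))) (cC (sh u (sh y U)))).comp
    (mp_sh (ζ := S.ζ) S.Q0 (up S.l u)).measurable
  rw [h.wO_oM2_t hψ hy (rc_mem_t h.nu.ok.odd _) fun e => u0 ?_]
  · refine Eq.trans (integral_congr_ae (ae_of_all _ fun z => ?_)) ((int_pc_t (up S.l y)
      (m1.mul m2)).trans (integral_congr_ae (ae_of_all _ fun z => congrArg₂ (· * ·)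
        (h.fm_agr (h.pc_D_t z (by omega))) (h.fm_agr fun e he => ?_))))
    · obtain ⟨v, hv⟩ := rc_exists_t S.n (y + u)
      have p : sh (up S.l (rcT S.n (y + u))) (pcT0 S.nf z) = sh (up S.l (y + u)) (pcT0 S.nf z) := by
        rw [hv, up_add, up_pvT, ← sh_sh, Sd.nf, perT0_pcT0]
      simp only [Fy_t, Function.comp, Pi.mul_apply, p, sh_cC, sh_sh, ← up_add, add_comm u]
      rw [(hU.rc (y + u)).fm]
      rfl
    · exact h.pc_D_t z (R := S.D0 + 2 * S.D0) (by omega) _ (mem_lbox.2 (Op.mem_fb.2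
        (yo_add_up _ _ _ ▸ add_mem_box (Op.mem_fb.1 (mem_lbox.1 he)) u1)))
  · have : rcT S.n (0 + y) = rcT S.n (u + y) := by
      rw [zero_add, rc_eq_t h.nu.ok.odd hy, add_comm, ← e]
    rw [← nearT_zero_t, nearT_add_right_t, nearT_zero_t, rc_box_t h.nu.ok.odd (zero_mem_box _),
      rc_box_t h.nu.ok.odd (box_mono (by omega) u1)] at this
    exact this.symm

end Hp

end Cm

end Pool.Agent.Lib.MP_7f377f_mp.RG.Q4
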