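import Pool.Agent.Lib.MP_7f377f_mp.G.Q4Canc2
import Pool.Agent.Lib.MP_7f377f_mp.G.TwBase
import Pool.Agent.Lib.MP_7f377f_mp.G.TqMk

/-! Cancellation of two Mayer marks against the pair marks. -/

noncomputable section

set_option linter.unusedSectionVars false
variable [Pool.Agent.Lib.MP_7f377f_mp.GD]
variable [Pool.Agent.Lib.MP_7f377f_mp.RG.Q4.Tws]

namespace Pool.Agent.Lib.MP_7f377f_mp.RG.Q4

open Finset MeasureTheory Filter Metric
open scoped Classical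

attribute [local irreducible] box domT lbox

namespace Cm

variable {S : Sd} {b : ℝ} {B : Fld} {W : Cf} {U : Conf} {z : Lk → E3} {y u : St} {ψ : Lx} {K : Ac}
  {w : St → S3}

namespace Hp

variable (h : Hp S)
include h

variable (hc : ‖S.c1‖ ≤ 9 * (S.Q ^ 7 * S.g))
include hc

theorem c2_main_t (hψ : PU S.p b ψ) (hU : PerT S.n U) (hy : y ∈ S.Λ'_t) (hu : u ∈ S.prs)
    (i : S.In_t U {oP y u}) (hf : ∀ ψ U z, PU S.p b ψ → Fq (S.p'.R + 1) S.p'.ε U →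
      ‖S.fm ψ (cC U) z - S.f0 (cC U) z‖ ≤ S.Q ^ 20 * (S.g ^ 3 + b)) :
    ‖S.wO_t ψ K U {oM y, oM (rcT S.n (y + u))} + S.wO_t ψ K U {oP y u} +
      S.wO_t ψ K U {oP (rcT S.n (y + u)) (-u)}‖ ≤ S.θ2 b := by
  have := nuI_prob (ζ := S.ζ) S.Q0
  have g0 := h.g0
  have g1 := h.nu.ok.g1
  have q0 := S.Q0
  have q1 := S.Q1
  have b0 := pu_nonneg hψ (by rw [Sd.p_ρ]; have := h.nu.ok.QQM; have := S.Q0.trans_le this; positivity)
  have R := S.R_eq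
  have F1 : Fq (S.p'.R + 1) S.p'.ε (sh y U) := In.fq_t hU i (mem_singleton_self _)
    ((rc_eq_t h.nu.ok.odd hy).symm ▸ mem_insert_self _ _)
  have F2 : Fq (S.p'.R + 1) S.p'.ε (sh u (sh y U)) := by
    rw [sh_sh, add_comm u]
    exact In.fq_t hU i (mem_singleton_self _) (mem_insert_of_mem (mem_singleton_self _))
  have a1 := h.ga0 (F1.mono (by omega) le_rfl)
  have a2 := h.ga (F1.mono (by omega) le_rfl) (box_mono (by omega) (mem_erase.1 hu).2)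
  have q2 : (2 : ℝ) ≤ S.Q := h.nu.cQ' (by norm_num)
  have d : S.Q ^ 20 * (S.g ^ 3 + b) + S.Q ^ 13 * S.g ^ 2 ≤ S.Q ^ 21 * (S.g ^ 2 + b) := by
    have e1 : S.g ^ 3 ≤ S.g ^ 2 := pow_le_pow_of_le_one g0.le g1 (by norm_num)
    calc _ ≤ S.Q ^ 20 * (S.g ^ 2 + b) + S.Q ^ 20 * (S.g ^ 2 + b) := by
          gcongr
          exacts [by norm_num, by linarith]
      _ = 2 * (S.Q ^ 20 * (S.g ^ 2 + b)) := by ring
      _ ≤ S.Q * (S.Q ^ 20 * (S.g ^ 2 + b)) := by gcongr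
      _ = _ := by ring
  have k1 : ∀ z, ‖S.fm (S.ψy_t ψ y) (cC (sh y U)) z - S.f0 1 (zi S (uc (sh y U)) z)‖ ≤
      S.Q ^ 21 * (S.g ^ 2 + b) := fun z =>
    (norm_sub_le_norm_sub_add_norm_sub _ _ _).trans
      ((add_le_add (hf _ _ z (pu_tr_t hψ _ _) F1) (h.f0_ga hc a1 z)).trans d)
  have k2 : ∀ z, ‖S.fm (S.ψy_t ψ (rcT S.n (y + u))) (cC (sh u (sh y U))) (sh (up S.l u) z) -
      S.f0 1 (sh (up S.l u) (zi S (uc (sh y U)) z))‖ ≤ S.Q ^ 21 * (S.g ^ 2 + b) := fun z =>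
    (norm_sub_le_norm_sub_add_norm_sub _ _ _).trans
      ((add_le_add (hf _ _ _ (pu_tr_t hψ _ _) F2) (zi_sh _ z u ▸ h.f0_ga hc a2 _)).trans d)
  have k3 := fun z => mul_lip (k1 z) (k2 z) (h.f0_one hc _) (h.f0_one hc _)
  have ms := (mp_sh (ζ := S.ζ) S.Q0 (up S.l u)).measurable
  have m1 := (h.f0_meas' 1).mul ((h.f0_meas' 1).comp ms)
  have m2 := (h.fm_meas' (pu_tr_t hψ S.nf (up S.l y)) (cC (sh y U))).mul ((h.fm_meas'
    (pu_tr_t hψ S.nf (up S.l (rcT S.n (y + u)))) (cC (sh u (sh y U)))).comp ms)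
  have m3 := m1.comp (mp_zi (S := S) (uc (sh y U))).measurable
  have i1 := Integrable.of_bound (μ := nuI S.ζ) m3.aestronglyMeasurable _ (ae_of_all _ fun z =>
    norm_mul_le_of_le (h.f0_one hc _) (h.f0_one hc _))
  have i2 := Integrable.of_bound (μ := nuI S.ζ) (m2.sub m3).aestronglyMeasurable _ (ae_of_all _ k3)
  have k4 := norm_integral_le_of_norm_le_const (μ := nuI S.ζ) (ae_of_all _ k3)
  have i3 := i2.add i1
  rw [sub_add_cancel] at i3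
  have e : ∫ z, S.f0 1 (zi S (uc (sh y U)) z) * S.f0 1 (sh (up S.l u) (zi S (uc (sh y U)) z))
      ∂nuI S.ζ = -S.c2 u := by
    rw [Sd.c2, neg_neg]
    exact int_zi _ m1
  erw [integral_sub i3 i1, e, ← h.wO_near_t (K := K) hψ hU hy hu, probReal_univ, mul_one] at k4
  have k5 := h.c2_le' hc u
  have k6 := h.Qgg (i := 16) (j := 2) (k := 0) (by norm_num) (by norm_num)
  have k7 : ‖S.c2 u / 2‖ ≤ S.Q ^ 16 * S.g ^ 2 / 2 := by
    rw [norm_div, Complex.norm_two]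
    gcongr
  have k8 := (Complex.norm_exp_sub_one_sub_id_le (x := S.c2 u / 2) (by linarith)).trans
    (pow_le_pow_left₀ (norm_nonneg _) k7 2)
  rw [h.wO_oP_t, h.wO_oP_t, h.c2_neg, show ∀ a e : ℂ, a + (e - 1) + (e - 1) = a - -S.c2 u +
    ((e - 1 - S.c2 u / 2) + (e - 1 - S.c2 u / 2)) from fun _ _ => by ring]
  refine (norm_add_le_of_le k4 (norm_add_le_of_le k8 k8)).trans ?_
  have gb : 0 ≤ S.g * b := by positivity
  have e1 : S.g ^ 4 ≤ S.g ^ 3 := pow_le_pow_of_le_one g0.le g1 (by norm_num)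
  have e2 : S.g ^ 2 * b ≤ S.g * b := by
    rw [sq, mul_assoc]
    exact mul_le_of_le_one_left gb g1
  have q5 : (5 : ℝ) ≤ S.Q ^ 3 := (h.nu.cQ' (by norm_num)).trans (le_self_pow₀ q1 (by norm_num))
  calc _ = 2 * (S.Q ^ 29 * (S.g ^ 3 + S.g * b)) + S.Q ^ 42 * (S.g ^ 4 + 2 * (S.g ^ 2 * b) + b ^ 2) +
        S.Q ^ 32 * (S.g ^ 4 / 2) := by ring
    _ ≤ 2 * (S.Q ^ 42 * (S.g ^ 3 + S.g * b + b ^ 2)) +
        S.Q ^ 42 * (2 * (S.g ^ 3 + S.g * b + b ^ 2)) + S.Q ^ 42 * (S.g ^ 3 + S.g * b + b ^ 2) := by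
        have g3 := pow_pos g0 3
        have b2 := sq_nonneg b
        exact add_le_add (add_le_add (mul_le_mul_of_nonneg_left (mul_le_mul (Sd.Qw S (by norm_num))
          (by linarith) (by positivity) (by positivity)) zero_le_two)
          (mul_le_mul_of_nonneg_left (by linarith) (by positivity)))
          (mul_le_mul (Sd.Qw S (by norm_num)) (by linarith) (by positivity) (by positivity))
    _ = 5 * (S.Q ^ 42 * (S.g ^ 3 + S.g * b + b ^ 2)) := by ring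
    _ ≤ S.Q ^ 3 * (S.Q ^ 42 * (S.g ^ 3 + S.g * b + b ^ 2)) := by gcongr
    _ = _ := by rw [Sd.θ2]; ring

omit hc in
theorem far_main_t {y' : St} (hψ : PU S.p b ψ) (hy : y ∈ S.Λ'_t) (hy' : y' ∈ S.Λ'_t)
    (far : ¬ nearT_t S.n (2 * S.D0) y y') (i : S.In_t U {oM y, oM y'})
    (h1 : ∀ y ∈ S.Λ'_t, S.In_t U {oM y} → ‖S.wO_t ψ K U {oM y}‖ ≤ S.θ2 b) :
    ‖S.wO_t ψ K U {oM y, oM y'}‖ ≤ S.θ2 b ^ 2 := by
  rw [h.wO_far_t hψ hy hy' far, sq]
  exact norm_mul_le_of_le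
    (h1 y hy (In.mono_t i (biUnion_subset_biUnion_of_subset_left _ (by simp))))
    (h1 y' hy' (In.mono_t i (biUnion_subset_biUnion_of_subset_left _ (by simp))))

end Hp

end Cm

end Pool.Agent.Lib.MP_7f377f_mp.RG.Q4
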