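import Pool.Agent.Lib.MP_7f377f_mp.G.Q4Canc1
import Pool.Agent.Lib.MP_7f377f_mp.G.TwBase
import Pool.Agent.Lib.MP_7f377f_mp.G.TqCanc2

/-! The mean of a Mayer mark; the first order cancellations. -/

noncomputable section

set_option linter.unusedSectionVars false
variable [Pool.Agent.Lib.MP_7f377f_mp.GD]
variable [Pool.Agent.Lib.MP_7f377f_mp.RG.Q4.Tws]

namespace Pool.Agent.Lib.MP_7f377f_mp.RG.Q4

open Finset MeasureTheory Filter Metric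
open scoped Classical

attribute [local irreducible] box domT lbox

variable (c : ℕ)

omit [Tws] in
theorem canc1_t : ∀ᶠ S in ev c, ∀ [Tws], ∀ b θ k ψ K, S.Sml_t b θ k ψ K → ∀ W, PerT S.n W → ∀ y ∈ S.Λ'_t,
    S.In_t W {oM y} → ‖S.wO_t ψ K W {oM y}‖ ≤ S.θ2 b := by
  filter_upwards [Cm.ev_hp c, rest_bd c] with S h hr _ b θ k ψ K s W hW y hy i
  rw [h.wO_oM_t s.pu hy]
  exact h.fm_int hr (Cm.In.fq_t hW i (mem_singleton_self _)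
    ((rc_eq_t h.nu.ok.odd hy).symm ▸ mem_singleton_self _)) (Cm.pu_tr_t s.pu _ _) s.b_le

omit [Tws] in
theorem canc2_t : ∀ᶠ S in ev c, ∀ [Tws], ∀ b θ k ψ K, S.Sml_t b θ k ψ K → ∀ W, PerT S.n W → ∀ y ∈ S.Λ'_t,
    ∀ u ∈ S.prs, S.In_t W {oP y u} → ‖S.wO_t ψ K W {oM y, oM (rcT S.n (y + u))} +
      S.wO_t ψ K W {oP y u} + S.wO_t ψ K W {oP (rcT S.n (y + u)) (-u)}‖ ≤ S.θ2 b := by
  filter_upwards [Cm.ev_hp c, rest_bd c] with S h hr _ b θ k ψ K s W hW y hy u hu i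
  exact h.c2_main_t h.c1_le' s.pu hW hy hu i fun ψ U z hψ hU => h.fm_f0' hr hU hψ s.b_le z

omit [Tws] in
theorem canc2far_t : ∀ᶠ S in ev c, ∀ [Tws], ∀ b θ k ψ K, S.Sml_t b θ k ψ K → ∀ W, PerT S.n W →
    ∀ y ∈ S.Λ'_t, ∀ y' ∈ S.Λ'_t, ¬ nearT_t S.n (2 * S.D0) y y' → S.In_t W {oM y, oM y'} →
      ‖S.wO_t ψ K W {oM y, oM y'}‖ ≤ S.θ2 b ^ 2 := by
  filter_upwards [Cm.ev_hp c, canc1_t c] with S h h1 _ b θ k ψ K s W hW y hy y' hy' far i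
  exact h.far_main_t s.pu hy hy' far i (h1 b θ k ψ K s W hW)

end Pool.Agent.Lib.MP_7f377f_mp.RG.Q4
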