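import Pool.Agent.Lib.MP_7f377f_mp.G.Q4RepB
import Pool.Agent.Lib.MP_7f377f_mp.G.TwBase
import Pool.Agent.Lib.MP_7f377f_mp.G.TqDefs

/-! Bounds for the polymer representation at a fixed field. -/

noncomputable section

set_option linter.unusedSectionVars false
variable [Pool.Agent.Lib.MP_7f377f_mp.GD]
variable [Pool.Agent.Lib.MP_7f377f_mp.RG.Q4.Tws]

namespace Pool.Agent.Lib.MP_7f377f_mp.RG.Q4

open Finset Real

variable {p : Pa} {n : ℕ} {k k' d : Mj} {K K' : Ac} {θ θ' b δ : ℝ} {Φ Φ' : Lx} {U : Conf}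

theorem kN_t.add (h : kN_t p n k θ) (h' : kN_t p n k' θ') : kN_t p n (k + k') (θ + θ') :=
  ⟨fun X c => add_nonneg (h.1 X c) (h'.1 X c), fun x => by
    simp only [Pi.add_apply, add_mul, sum_add_distrib]
    exact add_le_add (h.2 x) (h'.2 x)⟩

theorem kN_t.mono (h : kN_t p n k θ) (e : θ ≤ θ') : kN_t p n k θ' := ⟨h.1, fun x => (h.2 x).trans e⟩

theorem kN_t.nonneg (h : kN_t p n k θ) : 0 ≤ θ :=
  (sum_nonneg fun _ _ => mul_nonneg (h.1 _ _) (exp_pos _).le).trans (h.2 0)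

namespace En

theorem pc_eq_t (h : PerT n U) : pcT n U = U := h

theorem wgt_ge_t (h : Pg p b) (hn : Odd n) {o : LP St} (ho : o ∈ lps (domT n)) :
    exp ((b + 1) * (o.2.biUnion id).card) * exp (ee p * o.1.card) ≤ wgt_t p n o.1 o.2 := by
  obtain ⟨a1, -, a2⟩ := mem_lps.1 ho
  have c : ∀ X ⊆ domT n, (X.card : ℝ) ≤ tau_t n p.D X * (2 * p.D + 1) ^ 4 := fun X hX => by
    exact_mod_cast card_le_tau_t h.D fun x hx => rc_eq_t hn (hX hx)
  rw [← exp_add, wgt_t, exp_le_exp, add_comm]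
  refine add_le_add ?_ ?_
  · rw [ee, inv_mul_le_iff₀ (by positivity), mul_comm]
    exact (c _ a1).trans (mul_le_mul_of_nonneg_right
      (le_mul_of_one_le_left (Nat.cast_nonneg _) h.a) (by positivity))
  · have := h.b0
    have e : ((o.2.biUnion id).card : ℝ) ≤ ∑ C ∈ o.2, (C.card : ℝ) := by
      exact_mod_cast card_biUnion_le
    refine (mul_le_mul_of_nonneg_left e (by positivity)).trans ?_
    rw [mul_sum]
    refine sum_le_sum fun C hC => ?_
    have := mul_le_mul_of_nonneg_left (c C (((mem_fams.1 a2).1 C hC).trans a1)) (by positivity : 0 ≤ b + 1)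
    have := mul_le_mul_of_nonneg_right h.G2 (Nat.cast_nonneg (α := ℝ) (tau_t n p.D C))
    linarith [h.G0]

theorem km_le_t (h : KM_t p n k K) (hl : 0 ≤ p.lam) (h0 : kN_t p n k θ) (hU : PerT n U) (X : Finset St)
    (c : Finset (Finset St)) : ‖K X c U‖ ≤ k X c :=
  (h.bd X c U hU).trans (mul_le_of_le_one_right (h0.1 X c) (exp_le_one_iff.2 (neg_nonpos.2
    (mul_nonneg hl (sum_nonneg fun _ _ => sum_nonneg fun _ _ => fs_nonneg _ _)))))

theorem nm_of_t (h : Pg p b) (hn : Odd n) (h0 : kN_t p n k θ) : Nm (domT n)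
    (fun X c => k X c * exp ((b + 1) * (c.biUnion id).card) * exp (ee p * X.card)) θ :=
  Nm.mono (k := fun X c => k X c * wgt_t p n X c) h0.2 fun o ho => by
    rw [mul_assoc]
    exact mul_le_mul_of_nonneg_left (wgt_ge_t h hn ho) (h0.1 _ _)

/-- upper bound for complex data -/
theorem rep_le_t (h : Pg p b) (hn : Odd n) (hK : KM_t p n k K) (h0 : kN_t p n k θ) (hU : PerT n U) {c C : ℝ}
    (hc : c ≤ p.lam) (hC : 0 ≤ C) (hΦ : ∀ x ∈ domT n, Fq (p.R + 1) p.ε (sh x U) →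
      c * fs U x - C ≤ (Φ x (Bx x (cC U))).re) (h1 : ∀ x, c * fs U x ≤ p.lam * fs U x) :
    ‖Rep_t p n Φ K U‖ ≤ exp ((C + θ) * vol n - c * ∑ x ∈ domT n, fs U x) := by
  have _ := hc
  have e : Ix p Φ U = fun y => (exp (C - c * fs U y) : ℝ) *
      (Ix p Φ U y * ((exp (C - c * fs U y) : ℝ) : ℂ)⁻¹) := funext fun y => by
    have : ((exp (C - c * fs U y) : ℝ) : ℂ) ≠ 0 := Complex.ofReal_ne_zero.2 (exp_pos _).ne'
    field_simp
  rw [Rep_t, pc_eq_t hU, e, ZL_fac fun y _ => Complex.ofReal_ne_zero.2 (exp_pos _).ne', norm_mul,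
    show (C + θ) * vol n - c * ∑ x ∈ domT n, fs U x =
      ∑ x ∈ domT n, (C - c * fs U x) + θ * (domT n).card by
        rw [sum_sub_distrib, ← mul_sum, sum_const, nsmul_eq_mul, vol]; ring,
    exp_add, exp_sum, norm_prod]
  simp only [Complex.norm_real, norm_eq_abs, abs_exp]
  refine mul_le_mul_of_nonneg_left (ZL_le (k := k) (fun y hy => ?_) (fun o ho => ?_)
    ((nm_of_t h hn h0).mono fun o _ => ?_)) (prod_nonneg fun _ _ => (exp_pos _).le)
  · rw [norm_mul, norm_inv, Complex.norm_real, norm_eq_abs, abs_exp, ← div_eq_mul_inv,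
      div_le_one (exp_pos _), Ix, chi]
    split_ifs with h2
    · rw [one_mul, Complex.norm_exp, exp_le_exp, Complex.neg_re]
      linarith [hΦ y hy h2]
    · simpa using (exp_pos _).le
  · rw [norm_mul, norm_prod]
    simp only [norm_inv, Complex.norm_real, norm_eq_abs, abs_exp, ← exp_neg, ← exp_sum]
    refine (mul_le_mul_of_nonneg_right (hK.bd _ _ U hU) (exp_pos _).le).trans ?_
    rw [mul_assoc, ← exp_add, Rg_eq (mem_lps.1 ho).2.2, mul_sum, ← sum_neg_distrib, ← sum_add_distrib]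
    exact mul_le_of_le_one_right (h0.1 _ _)
      (exp_le_one_iff.2 (sum_nonpos fun x _ => by linarith [h1 x]))
  · have := h.b0
    have := ee_pos p
    rw [mul_assoc]
    exact le_mul_of_one_le_right (h0.1 _ _) (one_le_mul_of_one_le_of_one_le
      (one_le_exp (by positivity)) (one_le_exp (by positivity)))

theorem rep_fac_t (hU : PerT n U) (hχ : ∀ x, Fq (p.R + 1) p.ε (sh x U)) {z : St → ℝ}
    (hz : ∀ x, Φ x (Bx x (cC U)) = z x) :
    Rep_t p n Φ K U = (exp (-∑ x ∈ domT n, z x) : ℝ) * ZL (domT n)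
      (fun X c => K X c U * (exp (∑ x ∈ c.biUnion id, z x) : ℝ)) 1 := by
  have e : Ix p Φ U = fun y => (exp (-z y) : ℝ) * (1 : St → ℂ) y := funext fun y => by
    simp [Ix, chi, hχ, hz]
  rw [Rep_t, pc_eq_t hU, e, ZL_fac fun y _ => Complex.ofReal_ne_zero.2 (exp_pos _).ne']
  simp only [← Complex.ofReal_inv, ← Complex.ofReal_prod, ← exp_neg, ← exp_sum, neg_neg,
    sum_neg_distrib]

/-- the logarithm of the representation at a field with small curvature -/
theorem rep_log_t (h : Pg p b) (hn : Odd n) (hK : KM_t p n k K) (r : RealA K) (h0 : kN_t p n k θ)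
    (hθ : 2 * θ ≤ ee p) (hU : PerT n U) (hχ : ∀ x, Fq (p.R + 1) p.ε (sh x U)) {z : St → ℝ}
    (hz : ∀ x, Φ x (Bx x (cC U)) = z x) (hb : ∀ x, |z x| ≤ b) : 0 < (Rep_t p n Φ K U).re ∧
      |log (Rep_t p n Φ K U).re + ∑ x ∈ domT n, z x| ≤ 2 * θ * vol n := by
  obtain ⟨-, a1, a2⟩ := ZL_log (Λ := domT n)
    (K := fun X c => K X c U * (exp (∑ x ∈ c.biUnion id, z x) : ℝ)) (ee_pos p) (ee_le p) hθ
    (fun o _ => ⟨by
      rw [norm_mul, Complex.norm_real, norm_eq_abs, abs_exp]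
      refine mul_le_mul (km_le_t hK h.lam h0 hU _ _) (exp_le_exp.2 ((sum_le_card_nsmul _ _ (b + 1)
        fun x _ => by linarith [(abs_le.1 (hb x)).2]).trans_eq ?_)) (exp_pos _).le (h0.1 _ _)
      rw [nsmul_eq_mul, mul_comm], by simp [r _ _ U, -Complex.ofReal_exp]⟩) (nm_of_t h hn h0)
  rw [rep_fac_t hU hχ hz, Complex.re_ofReal_mul, log_mul (exp_pos _).ne' a1.ne', log_exp, vol]
  exact ⟨by positivity, (le_of_eq (by congr 1; ring)).trans a2⟩

end En

end Pool.Agent.Lib.MP_7f377f_mp.RG.Q4
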