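import Pool.Agent.Lib.MP_7f377f_mp.G.Q4StepA
import Pool.Agent.Lib.MP_7f377f_mp.G.TwBase
import Pool.Agent.Lib.MP_7f377f_mp.G.TqExp
import Pool.Agent.Lib.MP_7f377f_mp.G.TqFldA
import Pool.Agent.Lib.MP_7f377f_mp.G.TqRepB

/-! From the expansion to the new polymer representation. -/

noncomputable section

set_option linter.unusedSectionVars false
variable [Pool.Agent.Lib.MP_7f377f_mp.GD]
variable [Pool.Agent.Lib.MP_7f377f_mp.RG.Q4.Tws]

namespace Pool.Agent.Lib.MP_7f377f_mp.RG.Q4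

open Finset MeasureTheory
open scoped Classical

attribute [local irreducible] box domT lbox tb_t tau_t rcT

namespace Xp

variable {S : Sd} {ψ : Lx} {K : Ac} {W : Conf} {v : VB} {O O' : Finset Ob} {y : St}

theorem olds_sub_t (h : O ⊆ S.obs_t) : olds O ⊆ lps (domT S.nf) := fun o ho => by
  simpa [Sd.obs_t] using h (mem_olds.1 ho)

theorem bs_ne_t {o : Ob} (h : o ∈ S.obs_t) : (S.bs_t o).Nonempty := by
  rcases o with (o | y | y) | y | q | q | Z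
  · exact (mem_lps.1 (by simpa [Sd.obs_t] using h)).2.1.image _
  · exact singleton_nonempty _
  · exact singleton_nonempty _
  · exact singleton_nonempty _
  · exact insert_nonempty _ _
  · simp only [Sd.obs_t, Sd.mks_t, Sd.X1s_t, inr_mem_disjSum, inl_mem_disjSum, mem_product,
      mem_filter] at h
    exact ((Nonempty.of_image ⟨_, h.2.2.2⟩).image _).image _
  · simp only [Sd.obs_t, Sd.mks_t, inr_mem_disjSum, mem_erase] at h
    exact nonempty_iff_ne_empty.2 h.1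

theorem sp_ne_t {o : Ob} (h : o ∈ S.obs_t) : (S.sp_t o).Nonempty :=
  let ⟨x, hx⟩ := bs_ne_t h
  ⟨rcT S.n x, mem_tb_t.2 ⟨rc_rc_t _ _, x, hx, nearT_rc_right_t.2 (nearT_t.refl _ _ _)⟩⟩

theorem Oh_sp_t (h : O ⊆ S.obs_t) : S.Oh_t O ⊆ us S.sp_t O := fun y hy => by
  obtain ⟨h1, x, hx, h2⟩ := mem_tb_t.1 hy
  obtain ⟨o, ho, h3⟩ : ∃ o ∈ O, x ∈ S.bs_t o := by
    simp only [Hh_t, CC, mem_union, mem_biUnion] at hx
    rcases hx with (⟨C, ⟨o, ho, hC⟩, hx⟩ | hx) | hx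
    · exact ⟨_, mem_olds.1 ho, image_subset_image
        ((mem_fams.1 (mem_lps.1 (olds_sub_t h ho)).2.2).1 C hC) hx⟩
    · exact ⟨_, mem_Wk.1 hx, mem_singleton_self _⟩
    · exact ⟨_, mem_Dbl.1 hx, mem_singleton_self _⟩
  exact mem_us.2 ⟨o, ho, mem_tb_t.2 ⟨h1, x, h3, h2.mono (by omega)⟩⟩

theorem zs_sp_t (h : O ⊆ S.obs_t) :
    us (zsp_t S.l S.n (3 * S.D0)) ((CC O).disjSum (Wk O)) ⊆ us S.sp_t O :=
  us_zsp_t ▸ (tb_mono_t subset_union_left (by omega)).trans (Oh_sp_t h)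

theorem lab_union_t (h : O ⊆ S.obs_t) (h' : O' ⊆ S.obs_t) (hd : Disjoint (us S.sp_t O) (us S.sp_t O')) :
    S.lab_t W (O ∪ O') = S.lab_t W O ∪ S.lab_t W O' := by
  have e : (CC (O ∪ O')).disjSum (Wk (O ∪ O')) =
      (CC O).disjSum (Wk O) ∪ (CC O').disjSum (Wk O') := by
    ext (C | y) <;> simp [CC, mem_olds, mem_Wk, or_and_right, exists_or]
  simp only [Sd.lab_t, ncs_t, zones_t]
  rw [e, comps_union' _ (hd.mono (zs_sp_t h) (zs_sp_t h')), image_union, filter_union]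

theorem lab_fams_t (h : O ⊆ S.obs_t) : S.lab_t W O ∈ fams (us S.sp_t O) := by
  have hC : ∀ C ∈ CC O, C.Nonempty := fun C hC => by
    obtain ⟨o, ho, hC⟩ := mem_biUnion.1 hC
    exact nonempty_iff_ne_empty.2 fun e =>
      (mem_fams.1 (mem_lps.1 (olds_sub_t h ho)).2.2).2.1 (e ▸ hC)
  obtain ⟨a1, a2, a3⟩ := mem_fams.1 (comps_fams (zsp_t S.l S.n (3 * S.D0))
    fun _ ho => ⟨zsp_ne_t hC ho, (sp_sub_us _ ho).trans (zs_sp_t h)⟩)
  exact mem_fams.2 ⟨fun X hX => a1 X (mem_filter.1 hX).1, fun hX => a2 (mem_filter.1 hX).1,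
    a3.subset (coe_subset.2 (filter_subset _ _))⟩

theorem wO_empty_t (h0 : S.Ok) : S.wO_t ψ K W ∅ = 1 := by
  have := nu_prob (S.Q0.trans_le h0.ζ_zm)
  have e : S.Oh_t ∅ = ∅ := by
    ext y
    simp [Sd.Oh_t, mem_tb_t, Hh_t, CC, olds, Wk, Dbl]
  have e1 : olds ∅ = ∅ := rfl
  have e2 : Wk ∅ = ∅ := rfl
  have e3 : (∅ : Finset Ob).toRight = ∅ := rfl
  simp [Sd.wO_t, Sd.wf_t, Sd.FO_t, Sd.lab_t, ncs_t, zones_t, CC, e, e1, e2, e3]

/-- the good blocks outside the supports are integrated -/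
theorem int_TO_t (h0 : S.Ok) (hm : Measurable fun v => S.FO_t ψ K W O (pcW S.l S.n W v))
    (hd : DependsOn (fun v => S.FO_t ψ K W O (pcW S.l S.n W v)) (us S.sp_t O))
    (hi : S.Sup_t W O → Integrable (fun v => S.FO_t ψ K W O (pcW S.l S.n W v)) (PB S.l (nu S.zm))) :
    ∫ v, TO_t S ψ K W (pcW S.l S.n W v) O ∂PB S.l (nu S.zm) =
      S.wO_t ψ K W O * ∏ y ∈ S.Λ'_t \ (S.lab_t W O).biUnion id, Ix S.p' (S.Φ'_t ψ K) W y ∧
    Integrable (fun v => TO_t S ψ K W (pcW S.l S.n W v) O) (PB S.l (nu S.zm)) := by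
  have z0 := S.Q0.trans_le h0.ζ_zm
  have := nu_prob z0
  have e : ∀ v : VB, ∏ y ∈ S.Λ'_t \ us S.sp_t O, ((gd S.l S.ζ (pcW S.l S.n W v y) / S.p0 : ℝ) : ℂ) =
      ((∏ y ∈ S.Λ'_t \ us S.sp_t O, gd S.l S.ζ (v y) : ℝ) : ℂ) *
        ((S.p0 ^ (S.Λ'_t \ us S.sp_t O).card : ℝ) : ℂ)⁻¹ := fun v => by
    rw [← Complex.ofReal_prod, prod_div_distrib, prod_const, Complex.ofReal_div, div_eq_mul_inv,
      prod_congr rfl fun y hy => by rw [pcW, gd_mW, pcsT, rc_dom_t h0.odd (mem_sdiff.1 hy).1]]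
  have m2 : Measurable fun v : VB => ((∏ y ∈ S.Λ'_t \ us S.sp_t O, gd S.l S.ζ (v y) : ℝ) : ℂ) *
      ((S.p0 ^ (S.Λ'_t \ us S.sp_t O).card : ℝ) : ℂ)⁻¹ :=
    (Complex.measurable_ofReal.comp (Finset.measurable_fun_prod _ fun y _ =>
      (Cov.meas_gd _ _).comp (measurable_pi_apply y))).mul_const _
  have d2 : DependsOn (fun v : VB => ((∏ y ∈ S.Λ'_t \ us S.sp_t O, gd S.l S.ζ (v y) : ℝ) : ℂ) *
      ((S.p0 ^ (S.Λ'_t \ us S.sp_t O).card : ℝ) : ℂ)⁻¹) (S.Λ'_t \ us S.sp_t O : Finset St) :=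
    fun _ _ h => by
      beta_reduce
      rw [prod_congr rfl fun y hy => by rw [h y hy]]
  have dj : Disjoint (us S.sp_t O : Set St) (S.Λ'_t \ us S.sp_t O : Finset St) :=
    disjoint_coe.2 disjoint_sdiff
  simp only [TO_t, e]
  constructor
  · rw [integral_mul_const, integral_const_mul, PB, Mx.int_indep hm m2 hd d2 dj, ← PB,
      integral_mul_const, int_gd (ζ := S.ζ) _ S.Q0 (Cov.gs_nu z0 h0.ζ_zm), ← Sd.p0,
      mul_inv_cancel₀ (Complex.ofReal_ne_zero.2 (pow_pos (p0_pos h0) _).ne'), mul_one, Sd.wO_t]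
  · by_cases h : S.Sup_t W O
    · refine ((Mx.integrable_indep hm m2 hd d2 dj (hi h) (.mul_const (.of_bound
        (Complex.measurable_ofReal.comp (Finset.measurable_fun_prod _ fun y _ =>
          (Cov.meas_gd _ _).comp (measurable_pi_apply y))).aestronglyMeasurable 1
        (.of_forall fun v => ?_)) _)).const_mul _).mul_const _
      rw [Function.comp_apply, Complex.norm_real, norm_prod]
      exact prod_le_one (fun _ _ => norm_nonneg _) fun y _ => by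
        rcases Cov.gd_cases S.l S.ζ (v y) with e | e <;> simp [e]
    · simp only [Sd.Sup_t, not_and_or, not_not, not_forall] at h
      rcases h with h | ⟨y, hy, h⟩
      · simp [h]
      · rw [prod_eq_zero (i := y) (mem_sdiff.2 ⟨sp_sub_t h0.odd (mem_filter.1 (mem_sdiff.1 hy).1).1,
          (mem_sdiff.1 hy).2⟩) (by rw [Ix, not_not.1 (chi_ne.not.2 h), zero_mul])]
        simp

/-- the step before the gauge average -/
theorem raw_of_t (h0 : S.Ok) (hW : PerT S.n W)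
    (hc : ∀ v, PVT S.l S.n W v → ∀ y ∈ S.Λ'_t, S.Calm W v y → CalmId_t S ψ K W v y)
    (hm : ∀ O ⊆ S.obs_t, Measurable fun v => S.FO_t ψ K W O (pcW S.l S.n W v))
    (hd : ∀ O ⊆ S.obs_t, DependsOn (fun v => S.FO_t ψ K W O (pcW S.l S.n W v)) (us S.sp_t O))
    (hi : ∀ O ⊆ S.obs_t, S.Sup_t W O →
      Integrable (fun v => S.FO_t ψ K W O (pcW S.l S.n W v)) (PB S.l (nu S.zm)))
    (hw : ∀ O ⊆ S.obs_t, ∀ O' ⊆ S.obs_t, Disjoint (us S.sp_t O) (us S.sp_t O') →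
      S.wO_t ψ K W (O ∪ O') = S.wO_t ψ K W O * S.wO_t ψ K W O') :
    ∫ v, S.IT_t (Rep_t S.p S.nf (S.Φ ψ) K) W (pcW S.l S.n W v) ∂PB S.l (nu S.zm) =
      Complex.exp (∑ y ∈ S.Λ'_t, S.Ey_t ψ K y) *
        ZL S.Λ'_t (fun Y c => S.Kr_t ψ K Y c W) (Ix S.p' (S.Φ'_t ψ K) W) := by
  have h := fun O hO => int_TO_t h0 (hm O (mem_powerset.1 hO)) (hd O (mem_powerset.1 hO))
    (hi O (mem_powerset.1 hO))
  rw [funext fun v => expand_of_t h0 hW (pvt_pcW _ _ _ v) (En.pc_eq_t (Sd.Uv_per_t h0.odd hW (pvt_pcW _ _ _ v)))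
      (hc _ (pvt_pcW _ _ _ v)), integral_const_mul, integral_finsetSum _ fun O hO => (h O hO).2,
    sum_congr rfl fun O hO => (h O hO).1, factorL S.sp_t S.obs_t S.Λ'_t
      (fun o ho => ⟨sp_ne_t ho, tb_dom_t h0.odd⟩) _ (wO_empty_t h0) hw _
      (fun O a O' b hd => by rw [lab_union_t a b hd, union_biUnion])
      (fun O a => lab_sub_t.trans (Oh_sp_t a)) fun O a _ _ => lab_fams_t a]
  exact congrArg _ (ZL_chi _ _ _ _ fun X => filter_subset _ _).symm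

theorem pc_gauge'_t {n : ℕ} {u : St → S3} (hu : PST n u) (W : Conf) :
    pcT n (gauge Inv.inv u W) = gauge Inv.inv u (pcT n W) := Mx.pc_gauge_t (Mx.PS_iff_t.1 hu) W

theorem per_gauge_t {n : ℕ} {u : St → S3} (hu : PST n u) (hW : PerT n W) :
    PerT n (gauge Inv.inv u W) := hW.gauge hu

/-- the class of the new activities -/
theorem km_of_t {k : Mj} (hm : ∀ Y c, Measurable fun W => S.Kr_t ψ K Y c (pcT S.n W))
    (hd : ∀ Y c, DependsOn (fun W => S.Kr_t ψ K Y c (pcT S.n W))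
      {b | rcT S.n b.1 ∈ Y ∧ rcT S.n (b.1 + un b.2) ∈ Y})
    (hb : ∀ Y c W, PerT S.n W → ‖S.Kr_t ψ K Y c W‖ ≤ k Y c * Real.exp (-(S.p'.lam * Rg c W)))
    (hc : ∀ Y c, Ci S.n (S.Kr_t ψ K Y c)) :
    KM_t S.p' S.n k (S.KK_t ψ K) where
  meas Y c := Mx.meas_gav_t _ (hm Y c)
  per Y c W := Mx.gav_congr_t fun u hu => by
    rw [pc_gauge'_t hu, pc_gauge'_t hu, En.pc_eq_t (Mx.per_pc_t _ _)]
  dep Y c := Mx.gav_dep_t (hd Y c)
  gi Y c u W hu := Mx.gav_gauge_t (hm Y c) hu W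
  bd Y c W hW := Mx.gav_le_t fun u hu => by
    rw [En.pc_eq_t (per_gauge_t hu hW), ← Rg_gauge c u W]
    exact hb Y c _ (per_gauge_t hu hW)
  ci Y c U V h hU hV := integral_congr_ae (.of_forall fun u => by
    have a := PST_pcsT S.n u
    simp only [En.pc_eq_t (per_gauge_t a hU), En.pc_eq_t (per_gauge_t a hV)]
    exact hc Y c _ _ (h.gauge _) (per_gauge_t a hU) (per_gauge_t a hV))

end Xp

end Pool.Agent.Lib.MP_7f377f_mp.RG.Q4
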