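import Pool.Agent.Lib.MP_7f377f_mp.G.Q4FoA
import Pool.Agent.Lib.MP_7f377f_mp.G.TwBase
import Pool.Agent.Lib.MP_7f377f_mp.G.TqDef2
import Pool.Agent.Lib.MP_7f377f_mp.G.TqStepA

/-! Locality of the factors of the integrand of a family of objects. -/

noncomputable section

set_option linter.unusedSectionVars false
variable [Pool.Agent.Lib.MP_7f377f_mp.GD]
variable [Pool.Agent.Lib.MP_7f377f_mp.RG.Q4.Tws]

namespace Pool.Agent.Lib.MP_7f377f_mp.RG.Q4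

open Finset MeasureTheory
open scoped Classical

attribute [local irreducible] box domT lbox tb_t tau_t rcT

namespace Fx

variable {S : Sd} {P : ℝ} {ψ : Lx} {K : Ac} {y : St} {z z' : Lk → E3} {v v' : VB} {A B : Fld}

/-! ### functions of the chart coordinates -/

section chart

variable (e : ∀ x ∈ box (4 * S.D0), ∀ μ ν, dd A x μ ν = dd B x μ ν)
include e

theorem Fs_loc_t (rA : RealF A) (rB : RealF B) (K : Ac) (X : Finset St) : S.Fs_t K X A = S.Fs_t K X B := by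
  rw [Sd.Fs_t, Sd.Fs_t, ctr_loc (R := S.p'.R) rA rB e (by rw [Sd.Fsr, Sd.Fsr, wB_loc e])]

variable (h : S.Fo P)
include h

theorem Φ'_loc_t (rA : RealF A) (rB : RealF B) (ψ : Lx) (K : Ac) (y : St) :
    S.Φ'_t ψ K y A = S.Φ'_t ψ K y B := by
  simp only [Sd.Φ'_t, Sd.PL_t, Sd.Pl_t, m1_loc e h, T1_loc e h, ol_loc e, pz_loc e rA rB, Fs_loc_t e rA rB]

end chart

/-! ### the factors of the block at the origin -/

/-! ### geometry -/

variable {O : Finset Ob} {W W' : Conf}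

/-- sites close to the objects -/
def Cl_t (S : Sd) (O : Finset Ob) (y : St) : Prop :=
  ∃ o ∈ O, ∃ x ∈ S.bs_t o, nearT_t S.n (5 * S.D0) x y

theorem Cl_t.mem (h : Cl_t S O y) {u : St} (hu : u ∈ box (8 * S.D0)) : rcT S.n (u + y) ∈ us S.sp_t O :=
  let ⟨o, ho, x, hx, e⟩ := h
  mem_us.2 ⟨o, ho, mem_tb_t.2 ⟨rc_rc_t _ _, x, hx, nearT_rc_right_t.2
    ((e.trans (add_comm y u ▸ nearT_add_t hu)).mono (by omega))⟩⟩

theorem cl_of_t {o : Ob} (ho : o ∈ O) (h : rcT S.n y ∈ S.bs_t o) : Cl_t S O y :=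
  ⟨o, ho, _, h, nearT_rc_left_t.2 (nearT_t.refl _ _ _)⟩

theorem cl_of'_t {o : Ob} (ho : o ∈ O) (h : y ∈ S.bs_t o) : Cl_t S O y :=
  ⟨o, ho, _, h, nearT_t.refl _ _ _⟩

theorem cl_Oh_t (h : O ⊆ S.obs_t) (hy : y ∈ S.Oh_t O) : Cl_t S O y := by
  obtain ⟨-, x, hx, h2⟩ := mem_tb_t.1 hy
  simp only [Hh_t, CC, mem_union, mem_biUnion] at hx
  rcases hx with (⟨C, ⟨o, ho, hC⟩, hx⟩ | hx) | hx
  · exact ⟨_, Xp.mem_olds.1 ho, x, image_subset_image
      ((mem_fams.1 (mem_lps.1 (Xp.olds_sub_t h ho)).2.2).1 C hC) hx, h2⟩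
  · exact ⟨_, Xp.mem_Wk.1 hx, x, mem_singleton_self _, h2⟩
  · exact ⟨_, Xp.mem_Dbl.1 hx, x, mem_singleton_self _, h2⟩

/-- the fields agree on the links of `Y` -/
def AgW_t (n : ℕ) (Y : Finset St) (W W' : Conf) : Prop :=
  ∀ e : Lk, rcT n e.1 ∈ Y → rcT n (e.1 + un e.2) ∈ Y → W e = W' e

theorem Cl_t.agr (h : Cl_t S O y) (e : AgW_t S.n (us S.sp_t O) W W') :
    Agr (6 * S.D0) (sh y W) (sh y W') := fun f hf => by
  have := Sd.D1 S.toTd
  have h1 := mem_lbox.1 hf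
  refine e _ (h.mem (box_mono (by omega) h1)) ?_
  rw [add_right_comm]
  exact h.mem (box_mono (by omega) (add_un_mem_box h1 _))

theorem Cl_t.agv (h : Cl_t S O y) (e : ∀ x, rcT S.n x ∈ us S.sp_t O → v x = v' x) :
    ∀ u ∈ box (2 * S.D0), shv y v u = shv y v' u := fun _ hu =>
  e _ (h.mem (box_mono (by omega) hu))

theorem Cl_t.dd (h : Cl_t S O y) (e : AgW_t S.n (us S.sp_t O) W W') :
    ∀ x ∈ box (4 * S.D0), ∀ μ ν, dd (Bx y (cC W)) x μ ν = dd (Bx y (cC W')) x μ ν := by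
  have := Sd.D1 S.toTd
  exact dd_Bx (agr_cC ((h.agr e).mono (by omega)))

theorem Cl_t.chi (h : Cl_t S O y) (e : AgW_t S.n (us S.sp_t O) W W') : chi S.p' W y = chi S.p' W' y := by
  have := Sd.D1 S.toTd
  exact if_congr (fq_agr_iff ((h.agr e).mono (by rw [Sd.p'_R]; omega))) rfl rfl

theorem lab_agr_t (hO : O ⊆ S.obs_t) (e : AgW_t S.n (us S.sp_t O) W W') : S.lab_t W O = S.lab_t W' O := by
  have := Sd.D1 S.toTd
  refine filter_congr fun Z hZ => not_congr (and_congr_right fun _ => forall₂_congr fun y hy => ?_)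
  have h1 : y ∈ S.Oh_t O := tb_mono_t subset_union_left (by omega)
    (zones_union_t ▸ mem_biUnion.2 ⟨Z, hZ, hy⟩)
  have h2 := (cl_Oh_t hO h1).agr e
  have h3 : fs W y = fs W' y := sum_congr rfl fun μ _ => sum_congr rfl fun ν _ => by
    have := Mx.fq_agr h2 (zero_mem_box _) (μ := μ) (ν := ν) (box_mono (by omega)
      (add_un_mem_box (add_un_mem_box (zero_mem_box 0) μ) ν))
    simpa only [Mx.fq_sh, zero_add] using this
  rw [h3]

theorem wf_agr_t (hO : O ⊆ S.obs_t) (e : AgW_t S.n (us S.sp_t O) W W') : S.wf_t W O = S.wf_t W' O := by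
  rw [Sd.wf_t, Sd.wf_t, ← lab_agr_t hO e,
    prod_congr rfl fun y hy => by rw [(cl_of'_t (Xp.mem_Wk.1 hy) (mem_singleton_self y)).chi e],
    prod_congr (s₂ := _ \ Wk O) rfl fun y hy => (cl_Oh_t hO (Xp.lab_sub_t (mem_sdiff.1 hy).1)).chi e]

/-- the integrand vanishes if a base point is outside its block -/
theorem FO_zero_t (hy : y ∈ us S.sp_t O) (h : (v y).2.1 ∉ box S.l) : S.FO_t ψ K W O v = 0 := by
  by_cases h1 : y ∈ S.Oh_t O
  · have : wt S.l (S.Uv (sh y W) (shv y v)) (vo (shv y v) 0) = 0 :=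
      by_contra fun h2 => h (by simpa [vo, shv] using Mx.wt_mem h2)
    rw [Sd.FO_t, prod_eq_zero h1 (by simp [Sd.hf_t, Sd.Gn, Sd.Gw, this]), mul_zero, zero_mul, zero_mul]
  · obtain ⟨o, -, h2⟩ := mem_us.1 hy
    have h3 : y ∉ Dbl O := fun h3 =>
      h1 (mem_tb_t.2 ⟨(mem_tb_t.1 h2).1, y, mem_union_right _ h3, nearT_t.refl _ _ _⟩)
    have h4 : gd S.l S.ζ (v y) = 0 := by_contra fun h4 =>
      h (by rw [show (v y).2.1 = 0 from (Cov.gd_iff.1 h4).2]; exact zero_mem_box _)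
    rw [Sd.FO_t, prod_eq_zero hy (by simp [Sd.df, h3, h4]), mul_zero]

theorem PS.rc_t {α : Type} {n : ℕ} {v : St → α} (hv : PST n v) (x : St) : v (rcT n x) = v x :=
  hv x

theorem smk_bs_t {q : St × Finset St} (h : (.inr (.inr (.inr (.inl q))) : Ob) ∈ S.obs_t) :
    rcT S.n q.1 ∈ S.bs_t (.inr (.inr (.inr (.inl q)))) := by
  simp only [Sd.obs_t, Sd.mks_t, Sd.X1s_t, inr_mem_disjSum, inl_mem_disjSum, mem_product,
    mem_filter] at h
  obtain ⟨x, hx, e⟩ := mem_image.1 h.2.2.2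
  refine mem_image.2 ⟨_, mem_image_of_mem _ hx, ?_⟩
  rw [Sd.nf, rc_yo_t, yo_add_up, ← rc_add_rc_t, e, zero_add]

/-- locality of the integrand, jointly in the block field and in the variables -/
theorem FO_agr_t {k : Mj} (h : S.Fo P) (hI : IxL S.p (S.Φ ψ)) (hK : KM_t S.p S.nf k K)
    (hO : O ⊆ S.obs_t) (hW : PerT S.n W) (hW' : PerT S.n W') (hv : PST S.n v)
    (eW : AgW_t S.n (us S.sp_t O) W W') (ev : ∀ x, rcT S.n x ∈ us S.sp_t O → v x = v' x) :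
    S.FO_t ψ K W O (mW S.l W v) = S.FO_t ψ K W' O (mW S.l W' v') := by
  have l := h.nu.lens
  have ew : ∀ y, Cl_t S O y → ∀ u ∈ box (2 * S.D0), shv y (mW S.l W v) u = shv y (mW S.l W' v') u :=
    fun y c => mW_agr ((c.agr eW).mono (by omega)) (c.agv ev)
  have e0 : ∀ y ∈ us S.sp_t O, v y = v' y := fun y hy => ev y (by
    obtain ⟨o, -, h2⟩ := mem_us.1 hy
    rwa [(mem_tb_t.1 h2).1])
  by_cases hb : ∃ y ∈ us S.sp_t O, (v y).2.1 ∉ box S.l
  · obtain ⟨y, hy, hb⟩ := hb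
    rw [FO_zero_t (v := mW S.l W v) hy hb, FO_zero_t (v := mW S.l W' v') hy
      (show (v' y).2.1 ∉ _ from e0 y hy ▸ hb)]
  push Not at hb
  have hb' : ∀ y, Cl_t S O y → ∀ u ∈ box 1, (shv y v u).2.1 ∈ box S.l := fun y hy u hu => by
    rw [shv, ← PS.rc_t hv]
    exact hb _ (hy.mem (box_mono (by omega) hu))
  have eU : ∀ y, Cl_t S O y → Agr (fb S.l S.D0) (sh (up S.l y) (S.Uv W (mW S.l W v)))
      (sh (up S.l y) (S.Uv W' (mW S.l W' v'))) := fun y hy => by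
    rw [← Sd.Uv_sh, ← Sd.Uv_sh]
    exact Uv_agr h (hy.agr eW) (ew y hy)
  have e1 : ∀ o ∈ olds O, K o.1 o.2 (S.Uv W (mW S.l W v)) =
      K o.1 o.2 (S.Uv W' (mW S.l W' v')) := fun o ho =>
    hK.dep _ _ fun b hb => by
      have := eU (yo S.l b.1) (cl_of_t (Xp.mem_olds.1 ho) (mem_image.2 ⟨_, hb.1, rc_yo_t _ _⟩))
        (b.1 - up S.l (yo S.l b.1), b.2) (mem_lbox.2 (box_mono (Nat.le_add_left _ _)
          (sub_up_yo_mem _ _)))
      simpa only [sh_apply, sub_add_cancel] using this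
  have e2 : ∀ y ∈ S.Oh_t O, S.hf_t ψ K W (mW S.l W v) O y =
      S.hf_t ψ K W' (mW S.l W' v') O y := fun y hy => by
    have c := cl_Oh_t hO hy
    rw [Sd.hf_t, Sd.hf_t, Gn_agr h (c.agr eW) (ew y c) (hb' y c 0 (zero_mem_box _))
      (fun μ => hb' y c _ (un_mem_box μ)), Ib_agr h hI _ (eU y c), lab_agr_t hO eW,
      Φ'_loc_t (c.dd eW) h (Bx_real _ _) (Bx_real _ _)]
  have e3 : ∀ m ∈ O.toRight, S.jm_t ψ K W (mW S.l W v) (S.Oh_t O) m =
      S.jm_t ψ K W' (mW S.l W' v') (S.Oh_t O) m := fun m hm => by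
    have hm := mem_toRight.1 hm
    rcases m with y | q | q | Z
    · have c := cl_of'_t (S := S) hm (mem_singleton_self y)
      refine if_congr Iff.rfl rfl (fm_agr h (agr_cC ((c.agr eW).mono (by omega))) ?_ ?_
        (Bx_real _ (sh y W)) (Bx_real _ (sh y W')))
      · rw [← Sd.vz_shv, ← Sd.vz_shv]
        exact agr_vz0 (ew y c)
      · rw [← Bx_eq, ← Bx_eq]
        exact c.dd eW
    · rfl
    · rw [Sd.jm_t, Sd.jm_t, Fs_loc_t ((cl_of_t hm (smk_bs_t (hO hm))).dd eW) (Bx_real _ _) (Bx_real _ _)]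
    · exact Sd.dZ_agr_t h.ok h.rA hW hW' fun y hy =>
        ((cl_of'_t hm hy).agr eW).mono (by rw [Sd.p'_R]; omega)
  rw [Sd.FO_t, Sd.FO_t, prod_congr rfl e1, prod_congr rfl e2, prod_congr rfl e3,
    prod_congr (s₂ := us S.sp_t O) rfl fun y hy => by
      rw [Sd.df, gd_mW, e0 y hy, ← gd_mW (W := W'), ← Sd.df]]

theorem FO_dep_t {k : Mj} (h : S.Fo P) (hI : IxL S.p (S.Φ ψ)) (hK : KM_t S.p S.nf k K)
    (hO : O ⊆ S.obs_t) (hW : PerT S.n W) :
    DependsOn (fun v => S.FO_t ψ K W O (pcW S.l S.n W v)) (us S.sp_t O) := fun _ _ e =>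
  FO_agr_t h hI hK hO hW hW (ps_pcs_t _ _) (fun _ _ _ => rfl) fun _ hx => e _ hx

/-- locality of the weight in the block field -/
theorem wO_agr_t {k : Mj} (h : S.Fo P) (hI : IxL S.p (S.Φ ψ)) (hK : KM_t S.p S.nf k K)
    (hO : O ⊆ S.obs_t) (hW : PerT S.n W) (hW' : PerT S.n W') (eW : AgW_t S.n (us S.sp_t O) W W') :
    S.wO_t ψ K W O = S.wO_t ψ K W' O := by
  rw [Sd.wO_t, Sd.wO_t, wf_agr_t hO eW]
  simp only [pcW, fun v => FO_agr_t h hI hK hO hW hW' (ps_pcs_t _ v) eW fun _ _ => rfl]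

end Fx

end Pool.Agent.Lib.MP_7f377f_mp.RG.Q4
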