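import Pool.Agent.Lib.MP_7f377f_mp.G.Q4FoB
import Pool.Agent.Lib.MP_7f377f_mp.G.TwBase
import Pool.Agent.Lib.MP_7f377f_mp.G.TqFoA

/-! Measurability of the integrand and of the weight of a family of objects. -/

noncomputable section

set_option linter.unusedSectionVars false
variable [Pool.Agent.Lib.MP_7f377f_mp.GD]
variable [Pool.Agent.Lib.MP_7f377f_mp.RG.Q4.Tws]

namespace Pool.Agent.Lib.MP_7f377f_mp.RG.Q4

open Finset MeasureTheory
open scoped Classical

attribute [local irreducible] box domT lbox tb_t tau_t rcT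

namespace Fx

variable {S : Sd} {P : ℝ} {ψ : Lx} {K : Ac} {Z : Type} [MeasurableSpace Z]

theorem lab_meas_t {W : Z → Conf} (h : Measurable W) (O : Finset Ob) (c : Finset (Finset St)) :
    MeasurableSet {x | S.lab_t (W x) O = c} := by
  simp only [Finset.ext_iff, Set.ofPred_forall, Sd.lab_t, ncs_t, mem_filter, Heal_t]
  refine .iInter fun Y => measurableSet_setOfPred.2 (.iff (.and measurable_const (.not
    (.and measurable_const (.forall fun y => .forall fun _ => measurableSet_setOfPred.1
      (measurableSet_le ?_ measurable_const))))) measurable_const)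
  exact measurable_fun_sum _ fun μ _ => measurable_fun_sum _ fun ν _ =>
    (Mx.cont_fq y μ ν).measurable.comp h

theorem wf_meas_t {W : Z → Conf} (h : Measurable W) (O : Finset Ob) :
    Measurable fun x => S.wf_t (W x) O := by
  have := meas_sub (F := fun c x => ∏ y ∈ c.biUnion id \ Wk O, chi S.p' (W x) y) (lab_meas_t (S := S) h O)
    fun _ => measurable_fun_prod _ fun y _ => chi_meas _ h y
  exact (measurable_fun_prod _ fun y _ => (chi_meas _ h y).const_sub 1).fun_mul this

variable (h : S.Fo P)
include h

theorem Φ'_meas_t (hψ : ∀ x, Measurable (ψ x)) {y : St}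
    (hF : ∀ X ∈ S.X1s_t, Measurable (S.Fs_t (S.Ky_t K y) X)) : Measurable (S.Φ'_t ψ K y) :=
  ((((m1_meas h).add (T1_meas h)).const_mul _).add (ol_meas h)).add
    (((pz_meas h fun _ => hψ _).sub_const _).sub
      (measurable_fun_sum _ fun X hX => (hF X hX).sub_const _))

variable {W : Z → Conf} {z : Z → Lk → E3} {v : Z → VB} (hW : Measurable W)
include hW

variable (hv : Measurable v)
include hv

variable (ht : S.TOk) (hψ : ∀ x, Measurable (ψ x)) (hK : ∀ X c, Measurable (K X c))
  (hF : ∀ y, ∀ X ∈ S.X1s_t, Measurable (S.Fs_t (S.Ky_t K y) X)) {O : Finset Ob} (hO : O ⊆ S.obs_t)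
include ht hψ hK hF hO

theorem FO_meas_t : Measurable fun x => S.FO_t ψ K (W x) O (v x) := by
  have a := Sd.Uv_meas h.ok hW hv
  have b := Bx_measurable (mq_cC hW)
  refine ((Measurable.mul ?_ (measurable_fun_prod _ fun y _ => ?_)).mul
    (measurable_fun_prod _ fun m hm => ?_)).mul (measurable_fun_prod _ fun y _ => ?_)
  · split_ifs
    exacts [measurable_fun_prod _ fun o _ => (hK _ _).comp a, measurable_const]
  · have := meas_sub (F := fun c x => if y ∈ c.biUnion id then 0 else S.Φ'_t ψ K y (Bx y (cC (W x))))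
      (lab_meas_t (S := S) hW O) fun c => by
        split_ifs
        exacts [measurable_const, (Φ'_meas_t h hψ (hF y)).comp (b y)]
    exact ((Gn_meas h (msh hW y) (mshv hv y)).fun_mul (measurable_fun_prod _ fun x _ =>
      Ix_meas (Φ_meas ht hψ) a _)).fun_mul (this.const_add _).cexp
  · have hm := hO (mem_toRight.1 hm)
    rcases m with y | q | q | Y <;> simp only [Sd.jm_t]
    · split_ifs
      exacts [measurable_const, fm_meas h (W := fun x => sh y (cC (W x))) (fun _ => mq_cC hW _)
        (msh ((Cov.meas_vz _).comp hv) _) fun _ => hψ _]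
    · exact measurable_const
    · simp only [Sd.obs_t, Sd.mks_t, inr_mem_disjSum, inl_mem_disjSum, mem_product] at hm
      split_ifs
      exacts [measurable_const, ((hF _ _ hm.2).comp (b _)).neg.cexp.sub_const _]
    · exact Sd.dZ_meas_t h.ok hW Y
  · have := (Cov.meas_gd S.l S.ζ).comp (hv.eval (a := y))
    refine Complex.measurable_ofReal.comp (Measurable.div_const ?_ _)
    split_ifs
    exacts [this.const_sub 1, this]

omit hv in
theorem wO_meas_t : Measurable fun x => S.wO_t ψ K (W x) O := by
  have := nu_prob (S.Q0.trans_le h.nu.ok.ζ_zm)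
  exact (wf_meas_t hW O).mul ((FO_meas_t h (hW.comp measurable_fst) (meas_pcW _ _ (hW.comp measurable_fst)
    measurable_snd) ht hψ hK hF hO).stronglyMeasurable.integral_prod_right'
      (ν := PB S.l (nu S.zm))).measurable

end Fx

end Pool.Agent.Lib.MP_7f377f_mp.RG.Q4
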