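import Pool.Agent.Lib.MP_7f377f_mp.G.Q4Rep
import Pool.Agent.Lib.MP_7f377f_mp.G.TwBase
import Pool.Agent.Lib.MP_7f377f_mp.G.TqDef2
import Pool.Agent.Lib.MP_7f377f_mp.G.TqFldA
import Pool.Agent.Lib.MP_7f377f_mp.G.TqRepB

/-! Basic properties of the polymer representation. -/

noncomputable section

set_option linter.unusedSectionVars false
variable [Pool.Agent.Lib.MP_7f377f_mp.GD]
variable [Pool.Agent.Lib.MP_7f377f_mp.RG.Q4.Tws]

namespace Pool.Agent.Lib.MP_7f377f_mp.RG.Q4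

open Finset MeasureTheory Filter

attribute [local irreducible] box domT lbox

section rep

variable {p : Pa} {n : ℕ} {Φ Ψ : Lx} {K : Ac} {k : Mj} {U U' : Conf} {x : St}

variable {f g : Conf → ℂ}

theorem GIT.const (n : ℕ) (a : ℂ) : GIT n fun _ => a :=
  ⟨measurable_const, ⟨_, fun _ => le_rfl⟩, fun _ _ _ _ => rfl⟩

theorem GIT.add (h : GIT n f) (h' : GIT n g) : GIT n fun U => f U + g U :=
  let ⟨_, a⟩ := h.2.1
  let ⟨_, b⟩ := h'.2.1
  ⟨h.1.add h'.1, ⟨_, fun U => norm_add_le_of_le (a U) (b U)⟩,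
    fun u U a b => congrArg₂ _ (h.2.2 u U a b) (h'.2.2 u U a b)⟩

theorem GIT.mul (h : GIT n f) (h' : GIT n g) : GIT n fun U => f U * g U :=
  let ⟨_, a⟩ := h.2.1
  let ⟨_, b⟩ := h'.2.1
  ⟨h.1.mul h'.1, ⟨_, fun U => norm_mul_le_of_le (a U) (b U)⟩,
    fun u U a b => congrArg₂ _ (h.2.2 u U a b) (h'.2.2 u U a b)⟩

theorem GIT.sum {ι : Type} {s : Finset ι} {f : ι → Conf → ℂ} (h : ∀ i ∈ s, GIT n (f i)) :
    GIT n fun U => ∑ i ∈ s, f i U := by
  induction s using Finset.cons_induction with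
  | empty => exact .const n 0
  | cons a s _ ih =>
    simp only [sum_cons]
    exact (h a (mem_cons_self ..)).add (ih fun i hi => h i (mem_cons_of_mem hi))

theorem GIT.prod {ι : Type} {s : Finset ι} {f : ι → Conf → ℂ} (h : ∀ i ∈ s, GIT n (f i)) :
    GIT n fun U => ∏ i ∈ s, f i U := by
  induction s using Finset.cons_induction with
  | empty => exact .const n 1
  | cons a s _ ih =>
    simp only [prod_cons]
    exact (h a (mem_cons_self ..)).mul (ih fun i hi => h i (mem_cons_of_mem hi))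

theorem KM_t.le (hK : KM_t p n k K) (hl : 0 ≤ p.lam) (X : Finset St) (c : Finset (Finset St))
    (U : Conf) : ‖K X c U‖ ≤ |k X c| := by
  rw [← hK.per]
  exact (hK.bd X c _ (Mx.per_pc_t n U)).trans ((mul_le_mul_of_nonneg_right (le_abs_self _)
    (Real.exp_pos _).le).trans (mul_le_of_le_one_right (abs_nonneg _) (Real.exp_le_one_iff.2
      (neg_nonpos.2 (mul_nonneg hl (Rg_nonneg _ _))))))

theorem KM_t.toGI (hK : KM_t p n k K) (hl : 0 ≤ p.lam) (X : Finset St) (c : Finset (Finset St)) :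
    GIT n (K X c) := ⟨hK.meas X c, ⟨_, hK.le hl X c⟩, fun u U hu _ => hK.gi X c u U hu⟩

theorem Ix_GI_t (hp : p.Ok) (h : LO p Φ) (n : ℕ) (x : St) : GIT n fun U => Ix p Φ (pcT n U) x :=
  ⟨(Ix_meas h).comp (cont_pcT n).measurable, (Ix_bd hp h x).imp fun _ a _ => a _, fun u U hu _ => by
    simp only [Mx.pc_gauge_t (Mx.PS_iff_t.1 hu), Ix_gauge hp h]⟩

theorem Rep_GI_t (hp : p.Ok) (hl : 0 ≤ p.lam) (hn : Odd n) (h : LO p Φ) (hK : KM_t p n k K) :
    GIT n (Rep_t p n Φ K) :=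
  have _ := hn
  .sum fun _ _ => .mul (.prod fun X _ => .sum fun c _ => .mul (hK.toGI hl X c)
    (.prod fun x _ => Ix_GI_t hp h n x)) (.prod fun x _ => Ix_GI_t hp h n x)

end rep

namespace Sd.Nu

variable {S : Sd} {a : ℕ} (h : S.Nu a)
include h

theorem lo_Φ'_t (ht : S.TOk) (k : S.TK) {ψ : Lx} {K : Ac} (h1 : LO S.p' fun _ => S.ol)
    (h2 : LO S.p' (S.PL_t ψ K)) : LO S.p' (S.Φ'_t ψ K) := by
  obtain ⟨_, _, _, -, -, -, -, -, i⟩ := ht
  have hR : S.r + 5 ≤ S.p'.R := by have := h.lens; rw [p'_R]; omega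
  exact ((((lo_mb i.inv (by omega)).add
    ((h.T1_tc k).lo hR (by linarith [h.p'_ok.2, h.p'_ok.1.ρ0]))).smul _).add h1).add h2

end Sd.Nu

end Pool.Agent.Lib.MP_7f377f_mp.RG.Q4
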