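import Pool.Agent.Lib.MP_7f377f_mp.G.Q4Obj
import Pool.Agent.Lib.MP_7f377f_mp.G.TwBase
import Pool.Agent.Lib.MP_7f377f_mp.G.TqDef2
import Pool.Agent.Lib.MP_7f377f_mp.G.TqStepA

/-! Geometry of the families of objects. -/

noncomputable section

set_option linter.unusedSectionVars false
variable [Pool.Agent.Lib.MP_7f377f_mp.GD]
variable [Pool.Agent.Lib.MP_7f377f_mp.RG.Q4.Tws]

namespace Pool.Agent.Lib.MP_7f377f_mp.RG.Q4

open Finset MeasureTheory Filter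
open scoped Classical

attribute [local irreducible] box domT lbox tb_t tau_t rcT

namespace Xp

variable {S : Sd} {ψ : Lx} {K : Ac} {W : Conf} {v : VB} {O O' : Finset Ob} {y : St}

theorem us_sp_t : us S.sp_t O = tb_t S.n (13 * S.D0) (O.biUnion S.bs_t) := by
  ext y
  simp only [mem_us, Sd.sp_t, mem_tb_t, mem_biUnion]
  exact ⟨fun ⟨o, h1, h2, x, h3, h4⟩ => ⟨h2, x, ⟨o, h1, h3⟩, h4⟩,
    fun ⟨h2, x, ⟨o, h1, h3⟩, h4⟩ => ⟨o, h1, h2, x, h3, h4⟩⟩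

theorem hole_bs_t (h : O ⊆ S.obs_t) : Hh_t S.l S.n (CC O) (Wk O) ∪ Dbl O ⊆ O.biUnion S.bs_t :=
  fun x hx => by
  simp only [Hh_t, CC, mem_union, mem_biUnion] at hx
  rcases hx with (⟨C, ⟨o, ho, hC⟩, hx⟩ | hx) | hx
  · exact mem_biUnion.2 ⟨_, mem_olds.1 ho, image_subset_image
      ((mem_fams.1 (mem_lps.1 (olds_sub_t h ho)).2.2).1 C hC) hx⟩
  · exact mem_biUnion.2 ⟨_, mem_Wk.1 hx, mem_singleton_self _⟩
  · exact mem_biUnion.2 ⟨_, mem_Dbl.1 hx, mem_singleton_self _⟩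

theorem tb_Oh_t (h : O ⊆ S.obs_t) : tb_t S.n (8 * S.D0) (S.Oh_t O) ⊆ us S.sp_t O := by
  rw [Sd.Oh_t, tb_tb_t, us_sp_t]
  exact tb_mono_t (hole_bs_t h) (by omega)

theorem Wk_dom_t (h : O ⊆ S.obs_t) : Wk O ⊆ S.Λ'_t := fun y hy => by
  simpa [Sd.obs_t] using h (mem_Wk.1 hy)

theorem Dbl_dom_t (h : O ⊆ S.obs_t) : Dbl O ⊆ S.Λ'_t := fun y hy => by
  simpa [Sd.obs_t] using h (mem_Dbl.1 hy)

theorem Wk_sp_t (hn : Odd S.n) (h : O ⊆ S.obs_t) : Wk O ⊆ us S.sp_t O := fun _ hy =>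
  mem_sp_t hn (mem_Wk.1 hy) (Wk_dom_t h hy) (mem_singleton_self _)

theorem Dbl_sp_t (hn : Odd S.n) (h : O ⊆ S.obs_t) : Dbl O ⊆ us S.sp_t O := fun _ hy =>
  mem_sp_t hn (mem_Dbl.1 hy) (Dbl_dom_t h hy) (mem_singleton_self _)

theorem lab_sp_t (h : O ⊆ S.obs_t) : (S.lab_t W O).biUnion id ⊆ us S.sp_t O := lab_sub_t.trans (Oh_sp_t h)

theorem Oh_union_t : S.Oh_t (O ∪ O') = S.Oh_t O ∪ S.Oh_t O' := by
  simp only [Sd.Oh_t, ← tb_union_t, Hh_t, CC_union, Wk_union, Dbl_union, union_biUnion]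
  congr 1
  ac_rfl

theorem obs_disj_t (h : O ⊆ S.obs_t) (hd : Disjoint (us S.sp_t O) (us S.sp_t O')) : Disjoint O O' :=
  disjoint_left.2 fun _ ho ho' =>
    let ⟨_, hx⟩ := sp_ne_t (h ho)
    disjoint_left.1 hd (sp_sub_us _ ho hx) (sp_sub_us _ ho' hx)

theorem wf_union_t (hn : Odd S.n) (h : O ⊆ S.obs_t) (h' : O' ⊆ S.obs_t)
    (hd : Disjoint (us S.sp_t O) (us S.sp_t O')) : S.wf_t W (O ∪ O') = S.wf_t W O * S.wf_t W O' := by
  have a := hd.mono (lab_sp_t (W := W) h) (Wk_sp_t hn h')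
  have a' := hd.symm.mono (lab_sp_t (W := W) h') (Wk_sp_t hn h)
  have e : ((S.lab_t W O).biUnion id ∪ (S.lab_t W O').biUnion id) \ (Wk O ∪ Wk O') =
      (S.lab_t W O).biUnion id \ Wk O ∪ (S.lab_t W O').biUnion id \ Wk O' := by
    rw [union_sdiff_distrib, sdiff_union_distrib, sdiff_union_distrib, a.sdiff_eq_left,
      a'.sdiff_eq_left, inter_eq_left.2 sdiff_subset, inter_eq_right.2 sdiff_subset]
  rw [Sd.wf_t, lab_union_t h h' hd, Wk_union, union_biUnion, e,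
    prod_union (hd.mono (Wk_sp_t hn h) (Wk_sp_t hn h')), prod_union
      (hd.mono (sdiff_subset.trans (lab_sp_t h)) (sdiff_subset.trans (lab_sp_t h'))), Sd.wf_t, Sd.wf_t]
  ring

/-- blocks which meet an old polymer lie in the support -/
theorem old_sp_t {o : LP St} (ho : o ∈ olds O) {x : St} (hx : x ∈ o.1) :
    rcT S.n (yo S.l x) ∈ us S.sp_t O := mem_us.2 ⟨_, mem_olds.1 ho,
  mem_tb_t.2 ⟨rc_rc_t _ _, _, mem_image_of_mem _ hx, nearT_t.refl _ _ _⟩⟩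

theorem hf_union_t (hn : Odd S.n) (h : O ⊆ S.obs_t) (h' : O' ⊆ S.obs_t)
    (hd : Disjoint (us S.sp_t O) (us S.sp_t O')) (hy : y ∈ us S.sp_t O) :
    S.hf_t ψ K W v (O ∪ O') y = S.hf_t ψ K W v O y := by
  have e : S.Ib ψ ((CC (O ∪ O')).biUnion id) (S.Uv W v) y =
      S.Ib ψ ((CC O).biUnion id) (S.Uv W v) y := by
    refine prod_congr (filter_congr fun x hx => not_congr ?_) fun _ _ => rfl
    rw [CC_union, union_biUnion, mem_union, or_iff_left fun h1 => ?_]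
    obtain ⟨C, hC, h1⟩ := mem_biUnion.1 h1
    obtain ⟨o, ho, hC⟩ := mem_biUnion.1 hC
    have := old_sp_t (S := S) ho ((mem_fams.1 (mem_lps.1 (olds_sub_t h' ho)).2.2).1 C hC h1)
    rw [Mx.yo_blk hx, rc_dom_t hn (sp_sub_t hn hy)] at this
    exact disjoint_left.1 hd hy this
  simp only [Sd.hf_t, e, lab_union_t h h' hd, union_biUnion, mem_union,
    or_iff_left fun h1 => disjoint_left.1 hd hy (lab_sp_t (W := W) h' h1)]

/-- the base point of a smoothing mark -/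
theorem oS_bs_t (hn : Odd S.n) (hy : y ∈ S.Λ'_t) {X : Finset St} (hX : X ∈ S.X1s_t) :
    y ∈ dn_t S.l S.n (trS_t S.nf (up S.l y) X) := by
  obtain ⟨x, hx, e⟩ := mem_image.1 (mem_filter.1 hX).2.2
  refine mem_image.2 ⟨_, mem_image_of_mem _ hx, ?_⟩
  rw [Sd.nf, rc_yo_t, Ms.yo_add_up, ← rc_add_rc_t, e, zero_add, rc_dom_t hn hy]

theorem jm_union_t (hn : Odd S.n) (h : O ⊆ S.obs_t) (h' : O' ⊆ S.obs_t)
    (hd : Disjoint (us S.sp_t O) (us S.sp_t O')) {m : Mk} (hm : m ∈ O.toRight) :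
    S.jm_t ψ K W v (S.Oh_t O ∪ S.Oh_t O') m = S.jm_t ψ K W v (S.Oh_t O) m := by
  have k : ∀ y ∈ S.Λ'_t, y ∈ S.bs_t (.inr m) → (y ∈ S.Oh_t O ∪ S.Oh_t O' ↔ y ∈ S.Oh_t O) := fun y a b => by
    rw [mem_union, or_iff_left fun h1 =>
      disjoint_left.1 hd (mem_sp_t hn (mem_toRight.1 hm) a b) (Oh_sp_t h' h1)]
  have h1 := h (mem_toRight.1 hm)
  rcases m with y | q | q | Z
  · simp only [Sd.jm_t, k y (by simpa [Sd.obs_t, Sd.mks_t] using h1) (mem_singleton_self _)]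
  · rfl
  · simp only [Sd.obs_t, Sd.mks_t, inr_mem_disjSum, inl_mem_disjSum, mem_product] at h1
    simp only [Sd.jm_t, k q.1 h1.1 (oS_bs_t hn h1.1 h1.2)]
  · rfl

theorem df_union_t (hn : Odd S.n) (h' : O' ⊆ S.obs_t) (hd : Disjoint (us S.sp_t O) (us S.sp_t O'))
    (hy : y ∈ us S.sp_t O) : S.df v (O ∪ O') y = S.df v O y := by
  simp only [Sd.df, Dbl_union, mem_union, or_iff_left fun h1 => disjoint_left.1 hd hy (Dbl_sp_t hn h' h1)]

theorem FO_union_t (hn : Odd S.n) (h : O ⊆ S.obs_t) (h' : O' ⊆ S.obs_t)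
    (hd : Disjoint (us S.sp_t O) (us S.sp_t O')) :
    S.FO_t ψ K W (O ∪ O') v = S.FO_t ψ K W O v * S.FO_t ψ K W O' v := by
  have d := obs_disj_t h hd
  have d1 : Disjoint (olds O) (olds O') :=
    disjoint_left.2 fun o a b => disjoint_left.1 d (mem_olds.1 a) (mem_olds.1 b)
  have d2 : Disjoint O.toRight O'.toRight :=
    disjoint_left.2 fun o a b => disjoint_left.1 d (mem_toRight.1 a) (mem_toRight.1 b)
  have e : ((olds O ∪ olds O' : Finset (LP St)) : Set (LP St)).PairwiseDisjoint (fun o => o.1) ↔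
      (olds O : Set (LP St)).PairwiseDisjoint (fun o => o.1) ∧
        (olds O' : Set (LP St)).PairwiseDisjoint (fun o => o.1) := by
    rw [coe_union, Set.pairwiseDisjoint_union, ← and_assoc]
    exact and_iff_left fun o a o' b _ =>
      disjoint_left.2 fun x c c' => disjoint_left.1 hd (old_sp_t a c) (old_sp_t b c')
  have e2 : (O ∪ O').toRight = O.toRight ∪ O'.toRight := by
    ext; simp
  rw [Sd.FO_t, olds_union, Oh_union_t, us_union, e2, prod_union d1, prod_union d2,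
    prod_union hd, prod_union (hd.mono (Oh_sp_t h) (Oh_sp_t h')),
    prod_congr rfl fun y hy => hf_union_t hn h h' hd (Oh_sp_t h hy),
    prod_congr rfl fun m hm => jm_union_t hn h h' hd hm,
    prod_congr rfl fun y hy => df_union_t hn h' hd hy, union_comm O, union_comm (S.Oh_t O),
    prod_congr rfl fun y hy => hf_union_t hn h' h hd.symm (Oh_sp_t h' hy),
    prod_congr rfl fun m hm => jm_union_t hn h' h hd.symm hm,
    prod_congr rfl fun y hy => df_union_t hn h hd.symm hy, Sd.FO_t, Sd.FO_t]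
  simp only [e, ite_and]
  split_ifs <;> ring

theorem calm_loc_t (h2 : 2 ≤ S.D0) (hW : PerT S.n W) (hv : PVT S.l S.n W v)
    (hs : S.Sup_t W O) (hf : ∀ y ∈ us S.sp_t O, S.df v O y ≠ 0)
    (hy : y ∈ tb_t S.n (7 * S.D0) (O.biUnion S.bs_t)) (h : y ∉ S.Oh_t O) : S.Calm W v y := fun u hu => by
  obtain ⟨y1, x, hx, y2⟩ := mem_tb_t.1 hy
  have k : nearT_t S.n S.D0 y (rcT S.n (u + y)) := nearT_rc_right_t.2 (add_comm y u ▸ nearT_add_t hu)
  have h3 : rcT S.n (u + y) ∉ tb_t S.n (3 * S.D0) (Hh_t S.l S.n (CC O) (Wk O) ∪ Dbl O) := fun h3 =>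
    let ⟨_, z, hz, a⟩ := mem_tb_t.1 h3
    h (mem_tb_t.2 ⟨y1, z, hz, (a.trans k.symm).mono (by omega)⟩)
  have h4 : tb_t S.n (S.p'.R + 2) {rcT S.n (u + y)} ⊆ us S.sp_t O := fun z hz => by
    rw [us_sp_t]
    exact mem_tb_t.2 ⟨(mem_tb_single_t.1 hz).1, x, hx, ((y2.trans k).trans (mem_tb_single_t.1 hz).2).mono
      (by rw [Sd.p'_R]; omega)⟩
  have h5 := h4 (mem_tb_single_t.2 ⟨rc_rc_t _ _, nearT_t.refl _ _ _⟩)
  refine ⟨((sh_rc_t hW _).Fq _ _).1 (hs.2 _ (mem_sdiff.2 ⟨mem_filter.2 ⟨h5, h4⟩, fun a =>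
    h3 (tb_mono_t subset_union_left le_rfl (ncs_sub_t a))⟩)), ?_⟩
  have h6 := hf _ h5
  rw [Sd.df, if_neg fun a => h3 (mem_tb_t.2 ⟨rc_rc_t _ _, _, mem_union_right _ a, nearT_t.refl _ _ _⟩)]
    at h6
  exact (hv.gd S.ζ (u + y)).symm.trans ((Cov.gd_cases _ _ _).resolve_left fun e =>
    h6 (by rw [e, zero_div, Complex.ofReal_zero]))

end Xp

variable (c : ℕ)

end Pool.Agent.Lib.MP_7f377f_mp.RG.Q4
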