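import Pool.Agent.Lib.MP_7f377f_mp.G.Q4StepB
import Pool.Agent.Lib.MP_7f377f_mp.G.TwBase
import Pool.Agent.Lib.MP_7f377f_mp.G.TqObj

/-! The step from its ingredients. -/

noncomputable section

set_option linter.unusedSectionVars false
variable [Pool.Agent.Lib.MP_7f377f_mp.GD]
variable [Pool.Agent.Lib.MP_7f377f_mp.RG.Q4.Tws]

namespace Pool.Agent.Lib.MP_7f377f_mp.RG.Q4

open Finset MeasureTheory Filter
open scoped Classical

attribute [local irreducible] box domT lbox tb_t tau_t rcT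

theorem Sd.Sml_t.b0 {S : Sd} {b θ : ℝ} {k : Mj} {ψ : Lx} {K : Ac} (h : S.Sml_t b θ k ψ K) : 0 ≤ b :=
  h.pu.nonneg (by unfold Sd.p lv; positivity)

namespace Xp

variable {S : Sd} {ψ : Lx} {K : Ac} {W : Conf} {v : VB} {y : St}

/-- the identity in the calm region, with a product over the small polymers -/
def CalmP_t (S : Sd) (ψ : Lx) (K : Ac) (W : Conf) (v : VB) (y : St) : Prop :=
  S.Gn (sh y W) (shv y v) * S.Ib ψ ∅ (S.Uv W v) y =
    Complex.exp (S.cX_t (S.ψy_t ψ y) (S.Ky_t K y) - S.Φ'_t ψ K y (Bx y (cC W))) *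
      (1 + S.fm (S.ψy_t ψ y) (sh y (cC W)) (sh (up S.l y) (vz S.l v))) *
      ∏ X ∈ S.X1s_t, Complex.exp (-S.Fs_t (S.Ky_t K y) X (Bx y (cC W)))

theorem CalmP_t.id (h : CalmP_t S ψ K W v y) : CalmId_t S ψ K W v y := by
  rw [CalmId_t, ← sum_neg_distrib, Complex.exp_sum, ← mul_assoc]
  exact h

/-- the gauge average -/
theorem avg'_t {F : Conf → ℂ} {E : ℂ} {k : Mj} (hF : GIT S.n F)
    (h : ∀ W, PerT S.n W → F W = Complex.exp E *
      ZL S.Λ'_t (fun Y c => S.Kr_t ψ K Y c W) (Ix S.p' (S.Φ'_t ψ K) W))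
    (hm : ∀ Y c, (Measurable fun W => S.Kr_t ψ K Y c (pcT S.n W)) ∧
      DependsOn (fun W => S.Kr_t ψ K Y c (pcT S.n W))
        {b | rcT S.n b.1 ∈ Y ∧ rcT S.n (b.1 + un b.2) ∈ Y})
    (hb : ∀ Y c W, PerT S.n W → ‖S.Kr_t ψ K Y c W‖ ≤ k Y c * Real.exp (-(S.p'.lam * Rg c W)))
    (hI : ∀ u W y, Ix S.p' (S.Φ'_t ψ K) (gauge Inv.inv u W) y = Ix S.p' (S.Φ'_t ψ K) W y)
    (hW : PerT S.n W) : F W = Complex.exp E * Rep_t S.p' S.n (S.Φ'_t ψ K) (S.KK_t ψ K) W := by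
  have := Mx.ZL_gav_t S.Λ'_t (I := fun y W => Ix S.p' (S.Φ'_t ψ K) (pcT S.n W) y) (W := W)
    (Z := Complex.exp (-E) * F W) (fun Y c => (hm Y c).1)
    (fun Y c => ⟨|k Y c|, fun W => (hb Y c _ (Mx.per_pc_t _ _)).trans ((mul_le_mul_of_nonneg_right
      (le_abs_self _) (Real.exp_pos _).le).trans (mul_le_of_le_one_right (abs_nonneg _)
        (Real.exp_le_one_iff.2 (neg_nonpos.2 (mul_nonneg (Real.sqrt_nonneg _)
          (sum_nonneg fun _ _ => sum_nonneg fun _ _ => fs_nonneg _ _))))))⟩)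
    (fun Y c => (hm Y c).2) (fun u hu y => by rw [pc_gauge'_t hu, hI]) fun u hu => by
      rw [← hF.2.2 u W hu hW, h _ (per_gauge_t hu hW), ← mul_assoc, ← Complex.exp_add,
        neg_add_cancel, Complex.exp_zero, one_mul, En.pc_eq_t (per_gauge_t hu hW)]
  refine Eq.trans ?_ (congrArg _ this.symm)
  rw [← mul_assoc, ← Complex.exp_add, add_neg_cancel, Complex.exp_zero, one_mul]

/-- the weights of families with disjoint supports multiply -/
theorem wO_union_t {O O' : Finset Ob} (h0 : S.Ok) (h : O ⊆ S.obs_t) (h' : O' ⊆ S.obs_t)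
    (hd : Disjoint (us S.sp_t O) (us S.sp_t O'))
    (m : Measurable fun v => S.FO_t ψ K W O (pcW S.l S.n W v))
    (m' : Measurable fun v => S.FO_t ψ K W O' (pcW S.l S.n W v))
    (d : DependsOn (fun v => S.FO_t ψ K W O (pcW S.l S.n W v)) (us S.sp_t O))
    (d' : DependsOn (fun v => S.FO_t ψ K W O' (pcW S.l S.n W v)) (us S.sp_t O')) :
    S.wO_t ψ K W (O ∪ O') = S.wO_t ψ K W O * S.wO_t ψ K W O' := by
  have := nu_prob (S.Q0.trans_le h0.ζ_zm)
  simp only [Sd.wO_t, wf_union_t h0.odd h h' hd, FO_union_t h0.odd h h' hd]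
  rw [PB, Mx.int_indep m m' d d' (disjoint_coe.2 hd)]
  ring

/-- measurability in the variables for a fixed block field -/
theorem meas_v_t {F : Conf → VB → ℂ} (h : Measurable fun x : Conf × VB => F x.1 x.2) (l n : ℕ)
    (W : Conf) : Measurable fun v => F W (pcW l n W v) := by
  have := h.comp (measurable_const.prodMk (meas_pcW l n measurable_const measurable_id) :
    Measurable fun v : VB => (W, pcW l n W v))
  exact this

end Xp

omit [Tws] in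
/-- `wo_mul` from `fo_meas` and `fo_dep` -/
theorem wo_mul_of_t (c : ℕ)
    (H1 : ∀ᶠ S in ev c, ∀ [Tws], ∀ b θ k ψ K, S.Sml_t b θ k ψ K → ∀ O ⊆ S.obs_t,
      Measurable (fun x : Conf × VB => S.FO_t ψ K x.1 O x.2))
    (H2 : ∀ᶠ S in ev c, ∀ [Tws], ∀ b θ k ψ K, S.Sml_t b θ k ψ K → ∀ W, PerT S.n W → ∀ O ⊆ S.obs_t,
      DependsOn (fun v => S.FO_t ψ K W O (pcW S.l S.n W v)) (us S.sp_t O)) :
    ∀ᶠ S in ev c, ∀ [Tws], ∀ b θ k ψ K, S.Sml_t b θ k ψ K → ∀ W, PerT S.n W →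
      S.wO_t ψ K W ∅ = 1 ∧ ∀ O ⊆ S.obs_t, ∀ O' ⊆ S.obs_t, Disjoint (us S.sp_t O) (us S.sp_t O') →
        S.wO_t ψ K W (O ∪ O') = S.wO_t ψ K W O * S.wO_t ψ K W O' := by
  filter_upwards [ev_le ev_ok, H1, H2] with S h0 h1 h2 _ b θ k ψ K h W hW
  exact ⟨Xp.wO_empty_t h0, fun O a O' a' d => Xp.wO_union_t h0 a a' d
    (Xp.meas_v_t (F := fun W v => S.FO_t ψ K W O v) (h1 b θ k ψ K h O a) _ _ W)
    (Xp.meas_v_t (F := fun W v => S.FO_t ψ K W O' v) (h1 b θ k ψ K h O' a') _ _ W)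
    (h2 b θ k ψ K h W hW O a) (h2 b θ k ψ K h W hW O' a')⟩

end Pool.Agent.Lib.MP_7f377f_mp.RG.Q4
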