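import Pool.Agent.Lib.MP_7f377f_mp.G.Q4FoC
import Pool.Agent.Lib.MP_7f377f_mp.G.TwBase
import Pool.Agent.Lib.MP_7f377f_mp.G.TqFoB
import Pool.Agent.Lib.MP_7f377f_mp.G.TqRep
import Pool.Agent.Lib.MP_7f377f_mp.G.TqS1
import Pool.Agent.Lib.MP_7f377f_mp.G.TqStepB

/-! Measurability, locality and factorisation of the weights of the families of objects. -/

noncomputable section

set_option linter.unusedSectionVars false
variable [Pool.Agent.Lib.MP_7f377f_mp.GD]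
variable [Pool.Agent.Lib.MP_7f377f_mp.RG.Q4.Tws]

namespace Pool.Agent.Lib.MP_7f377f_mp.RG.Q4

open Finset MeasureTheory Filter
open scoped Classical

attribute [local irreducible] box domT lbox tb_t tau_t rcT

namespace Fx

variable {S : Sd} {P b θ : ℝ} {k : Mj} {ψ : Lx} {K : Ac} {W W' : Conf} {Y : Finset St} {y : St}

theorem chi_in_t (e : AgW_t S.n Y W W') (hy : y ∈ S.Din_t Y) : chi S.p' W y = chi S.p' W' y := by
  have m : ∀ x ∈ box (S.p'.R + 2), rcT S.n (x + y) ∈ Y := fun x hx => (mem_filter.1 hy).2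
    (mem_tb_single_t.2 ⟨rc_rc_t _ _, nearT_rc_right_t.2 (add_comm y x ▸ nearT_add_t hx)⟩)
  refine if_congr (forall₂_congr fun x hx => forall₂_congr fun μ ν => ?_) rfl rfl
  rw [fq_loc (W := sh y W) (W' := sh y W')
    (fun f h1 h2 => e _ (m _ h1) (add_right_comm f.1 _ y ▸ m _ h2)) hx]

theorem agW_pc_t {n : ℕ} (e : ∀ f ∈ {f : Lk | rcT n f.1 ∈ Y ∧ rcT n (f.1 + un f.2) ∈ Y}, W f = W' f) :
    AgW_t n Y (pcT n W) (pcT n W') := fun f h1 h2 =>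
  pcT_of (e (rcT n f.1, f.2) ⟨by rwa [rc_rc_t], by rwa [rc_add_rc_t]⟩)

/-- locality of the new activities -/
theorem Kr_agr_t (h : S.Fo P) (hI : IxL S.p (S.Φ ψ)) (hK : KM_t S.p S.nf k K) (hW : PerT S.n W)
    (hW' : PerT S.n W') (e : AgW_t S.n Y W W') (c : Finset (Finset St)) :
    S.Kr_t ψ K Y c W = S.Kr_t ψ K Y c W' := by
  rw [Sd.Kr_t, Sd.Kr_t, prod_congr rfl fun y hy => chi_in_t e (mem_sdiff.1 hy).1, sum_filter, sum_filter,
    sum_congr rfl fun O hO => ?_]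
  obtain ⟨h1, -, rfl⟩ := mem_clus.1 hO
  rw [lab_agr_t h1 e, wO_agr_t h hI hK h1 hW hW' e]

/-- what is used about the data -/
structure Dt_t (S : Sd) (ψ : Lx) (K : Ac) : Prop where
  fo : S.Fo S.P
  tok : S.TOk
  ix : IxL S.p (S.Φ ψ)
  mψ : ∀ x, Measurable (ψ x)
  mK : ∀ X c, Measurable (K X c)
  mF : ∀ y, ∀ X ∈ S.X1s_t, Measurable (S.Fs_t (S.Ky_t K y) X)

omit [Tws] in
theorem ev_dt_t (c : ℕ) : ∀ᶠ S in ev c, ∀ [Tws], ∀ b k ψ K, PU S.p b ψ → KM_t S.p S.nf k K → Dt_t S ψ K := by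
  filter_upwards [ev_fo c, ev_tok, lo_fine c, fs_bd_t c] with S h ht h1 h2 _ b k ψ K hψ hK
  exact ⟨h, ht, fun _ _ _ => Ix_agr h1.1 (h1.2.2 b ψ hψ), hψ.lo.meas, hK.meas,
    fun y X hX => (h2 k K hK y X hX).1⟩

variable {Z : Type} [MeasurableSpace Z] (d : Dt_t S ψ K) {O : Finset Ob}
include d

theorem Dt_t.FO (hO : O ⊆ S.obs_t) {W : Z → Conf} {v : Z → VB} (hW : Measurable W)
    (hv : Measurable v) : Measurable fun x => S.FO_t ψ K (W x) O (v x) :=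
  FO_meas_t d.fo hW hv d.tok d.mψ d.mK d.mF hO

theorem Dt_t.wO (hO : O ⊆ S.obs_t) {W : Z → Conf} (hW : Measurable W) :
    Measurable fun x => S.wO_t ψ K (W x) O := wO_meas_t d.fo hW d.tok d.mψ d.mK d.mF hO

theorem Dt_t.Kr {W : Z → Conf} (hW : Measurable W) (Y : Finset St) (c : Finset (Finset St)) :
    Measurable fun x => S.Kr_t ψ K Y c (W x) := by
  simp only [Sd.Kr_t, sum_filter]
  exact (measurable_fun_sum _ fun O hO => .ite (lab_meas_t hW O c) (d.wO (mem_clus.1 hO).1 hW)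
    measurable_const).mul (measurable_fun_prod _ fun y _ => chi_meas _ hW y)

end Fx

variable (c : ℕ)

omit [Tws] in
theorem fo_meas_t : ∀ᶠ S in ev c, ∀ [Tws], ∀ b θ k ψ K, S.Sml_t b θ k ψ K → ∀ O ⊆ S.obs_t,
    Measurable (fun x : Conf × VB => S.FO_t ψ K x.1 O x.2) ∧ (Measurable fun W => S.wf_t W O) ∧
      (Measurable fun W => S.wO_t ψ K W O) ∧ ∀ c', MeasurableSet {W | S.lab_t W O = c'} :=
  (Fx.ev_dt_t c).mono fun _ h _ _ _ _ _ _ s O hO =>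
    have d := h _ _ _ _ s.pu s.km
    ⟨d.FO hO measurable_fst measurable_snd, Fx.wf_meas_t measurable_id O, d.wO hO measurable_id,
      Fx.lab_meas_t measurable_id O⟩

omit [Tws] in
theorem fo_dep_t : ∀ᶠ S in ev c, ∀ [Tws], ∀ b θ k ψ K, S.Sml_t b θ k ψ K → ∀ W, PerT S.n W → ∀ O ⊆ S.obs_t,
    DependsOn (fun v => S.FO_t ψ K W O (pcW S.l S.n W v)) (us S.sp_t O) :=
  (Fx.ev_dt_t c).mono fun _ h _ _ _ _ _ _ s _ hW _ hO =>
    have d := h _ _ _ _ s.pu s.km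
    Fx.FO_dep_t d.fo d.ix s.km hO hW

omit [Tws] in
theorem wo_mul_t : ∀ᶠ S in ev c, ∀ [Tws], ∀ b θ k ψ K, S.Sml_t b θ k ψ K → ∀ W, PerT S.n W →
    S.wO_t ψ K W ∅ = 1 ∧ ∀ O ⊆ S.obs_t, ∀ O' ⊆ S.obs_t, Disjoint (us S.sp_t O) (us S.sp_t O') →
      S.wO_t ψ K W (O ∪ O') = S.wO_t ψ K W O * S.wO_t ψ K W O' :=
  wo_mul_of_t c ((fo_meas_t c).mono fun _ h _ b θ k ψ K s O hO => (h b θ k ψ K s O hO).1) (fo_dep_t c)

omit [Tws] in
theorem kr_loc_t : ∀ᶠ S in ev c, ∀ [Tws], ∀ b θ k ψ K, S.Sml_t b θ k ψ K → ∀ Y c',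
    (Measurable fun W => S.Kr_t ψ K Y c' (pcT S.n W)) ∧ DependsOn (fun W => S.Kr_t ψ K Y c' (pcT S.n W))
      {e | rcT S.n e.1 ∈ Y ∧ rcT S.n (e.1 + un e.2) ∈ Y} :=
  (Fx.ev_dt_t c).mono fun _ h _ _ _ _ _ _ s Y c' =>
    have d := h _ _ _ _ s.pu s.km
    ⟨d.Kr (cont_pcT _).measurable Y c', fun _ _ e =>
      Fx.Kr_agr_t d.fo d.ix s.km (Mx.per_pc_t _ _) (Mx.per_pc_t _ _) (Fx.agW_pc_t e) c'⟩

end Pool.Agent.Lib.MP_7f377f_mp.RG.Q4
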