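import Pool.Agent.Lib.MP_7f377f_mp.G.Q4HoD
import Pool.Agent.Lib.MP_7f377f_mp.G.TwBase
import Pool.Agent.Lib.MP_7f377f_mp.G.TqDefs

/-! The functions and the numbers of the budget of a family of objects: definitions. -/

noncomputable section

set_option linter.unusedSectionVars false
variable [Pool.Agent.Lib.MP_7f377f_mp.GD]
variable [Pool.Agent.Lib.MP_7f377f_mp.RG.Q4.Tws]

namespace Pool.Agent.Lib.MP_7f377f_mp.RG.Q4

open Finset
open scoped Classical

namespace Sd

variable (S : Sd) (W : Conf) (v : VB) (O : Finset Ob)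

/-- the cores seen from the block `y` -/
def cy_t (y : St) : St → Prop := fun x => x + up S.l (rcT S.n y) ∈ cor O

def eE_t (y : St) : ℝ := eG S.l S.m S.β (S.cy_t O y) (S.Uy W v y) (sh y W) (vo (shv y v))

def rE_t (y : St) : ℝ := S.p.lam * rG S.l (S.cy_t O y) (S.Uy W v y)

/-- the holes and the blocks with a large fluctuation variable -/
def HD_t : Finset St := Hh_t S.l S.n (CC O) (Wk O) ∪ Dbl O

/-- the sites with large noise -/
def Nz_t : Finset St := (tb_t S.n (2 * S.D0) (S.HD_t O)).filter fun y => ∃ μ, S.εn < S.noE W v y μ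

/-- the factors of the blocks in the support of `O` do not vanish -/
structure Nv_t (ψ : Lx) : Prop where
  per : PerT S.n W
  pv : PVT S.l S.n W v
  sub : O ⊆ S.obs_t
  sup : S.Sup_t W O
  zm : ∀ f, ‖vz S.l v f‖ ≤ S.zm
  gn : ∀ y ∈ S.Oh_t O, S.Gn (sh y W) (shv y v) ≠ 0
  ib : ∀ y ∈ S.Oh_t O, S.Ib ψ (cor O) (S.Uv W v) y ≠ 0
  df : ∀ y ∈ us S.sp_t O, S.df v O y ≠ 0

end Sd

end Pool.Agent.Lib.MP_7f377f_mp.RG.Q4
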