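import Pool.Agent.Lib.MP_7f377f_mp.G.Q4HoA
import Pool.Agent.Lib.MP_7f377f_mp.G.TwBase
import Pool.Agent.Lib.MP_7f377f_mp.G.TqBudC
import Pool.Agent.Lib.MP_7f377f_mp.G.TqCi
import Pool.Agent.Lib.MP_7f377f_mp.G.TqHoD

/-! Geometry of the support of a family of objects, and the fields at tame sites. -/

noncomputable section

set_option linter.unusedSectionVars false
variable [Pool.Agent.Lib.MP_7f377f_mp.GD]
variable [Pool.Agent.Lib.MP_7f377f_mp.RG.Q4.Tws]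

namespace Pool.Agent.Lib.MP_7f377f_mp.RG.Q4

open Finset
open scoped Classical

attribute [local irreducible] box domT tb_t rcT

theorem Far_t.add' {n a b : ℕ} {Y : Finset St} {y u : St} (h : Far_t n (a + b) Y y) (hu : u ∈ box b) :
    Far_t n a Y (u + y) := add_comm y u ▸ h.add hu

theorem Far_t.not_mem {n a : ℕ} {Y : Finset St} {y : St} (h : Far_t n a Y y) : rcT n y ∉ Y :=
  fun hy => h _ hy (nearT_rc_left_t.2 (nearT_t.refl _ _ _))

namespace Hj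

theorem sh_rc_t {n : ℕ} {U : Conf} (h : PerT n U) (y : St) : Cq (sh y U) (sh (rcT n y) U) :=
  h.rc y

theorem near_add_t {n a b : ℕ} {Y : Finset St} {y u : St} (h : ¬ Far_t n a Y y) (hu : u ∈ box b) :
    ¬ Far_t n (a + b) Y (u + y) := fun h' => h (by simpa using h'.add (neg_mem_box hu))

theorem rc_tb_t {n a : ℕ} {Y : Finset St} {y : St} (h : ¬ Far_t n a Y y) : rcT n y ∈ tb_t n a Y :=
  mem_tb'_t.2 ⟨rc_rc_t _ _, fun h' => h (far_rc_t.1 h')⟩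

theorem near_mono_t {n a b : ℕ} {Y Y' : Finset St} {y : St} (h : ¬ Far_t n a Y y) (hab : a ≤ b)
    (hY : Y ⊆ Y') : ¬ Far_t n b Y' y := fun h' => h ((h'.mono hab).sub hY)

end Hj

open Hj

namespace Sd

variable {S : Sd} {W : Conf} {v : VB} {O : Finset Ob} {ψ : Lx} {y u : St} {a : ℕ} {P : ℝ}

theorem olds_lps_t (h : O ⊆ S.obs_t) {o : LP St} (ho : o ∈ olds O) : o ∈ lps (domT S.nf) := by
  simpa [obs_t] using h (mem_olds.1 ho)

theorem dbl_dom_t (h : O ⊆ S.obs_t) (hy : y ∈ Dbl O) : y ∈ domT S.n := by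
  simpa [obs_t, Λ'_t] using h (mem_Dbl.1 hy)

theorem wk_dom_t (h : O ⊆ S.obs_t) (hy : y ∈ Wk O) : y ∈ domT S.n := by
  simpa [obs_t, Λ'_t] using h (mem_Wk.1 hy)

theorem cc_sub_t (h : O ⊆ S.obs_t) {C : Finset St} (hC : C ∈ CC O) :
    C.Nonempty ∧ ∃ o ∈ olds O, C ⊆ o.1 ∧ o.1 ⊆ domT S.nf := by
  obtain ⟨o, ho, hC⟩ := mem_biUnion.1 hC
  obtain ⟨h1, -, h2⟩ := mem_lps.1 (olds_lps_t h ho)
  obtain ⟨h3, h4, -⟩ := mem_fams.1 h2
  exact ⟨nonempty_iff_ne_empty.2 fun e => h4 (e ▸ hC), o, ho, h3 C hC, h1⟩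

theorem hd_sp_t (h : O ⊆ S.obs_t) : tb_t S.n (13 * S.D0) (S.HD_t O) ⊆ us S.sp_t O := fun y hy => by
  obtain ⟨h1, x, hx, h2⟩ := mem_tb_t.1 hy
  suffices ∃ o ∈ O, x ∈ S.bs_t o by
    obtain ⟨o, ho, hx⟩ := this
    exact mem_biUnion.2 ⟨o, ho, mem_tb_t.2 ⟨h1, x, hx, h2⟩⟩
  rcases mem_union.1 hx with hx | hx
  · rcases mem_union.1 hx with hx | hx
    · obtain ⟨C, hC, hx⟩ := mem_biUnion.1 hx
      obtain ⟨-, o, ho, h3, -⟩ := cc_sub_t h hC
      exact ⟨_, mem_olds.1 ho, image_subset_image h3 hx⟩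
    · exact ⟨_, mem_Wk.1 hx, mem_singleton_self _⟩
  · exact ⟨_, mem_Dbl.1 hx, mem_singleton_self _⟩

theorem hd_din_t (h : O ⊆ S.obs_t) (ha : a + 4 * S.D0 + 2 ≤ 13 * S.D0) (hy : y ∈ tb_t S.n a (S.HD_t O)) :
    y ∈ S.Din_t (us S.sp_t O) := mem_filter.2 ⟨hd_sp_t h (tb_mono_t Subset.rfl (by omega) hy),
  (tb_mono_t (singleton_subset_iff.2 hy) le_rfl).trans (by
    rw [tb_tb_t]; exact (tb_mono_t Subset.rfl (by rw [p'_R]; omega)).trans (hd_sp_t h))⟩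

theorem Sup_t.good (h : S.Sup_t W O) (hy : y ∈ S.Din_t (us S.sp_t O)) (hw : y ∉ Wk O) :
    Fq (S.p'.R + 1) S.p'.ε (sh y W) := by
  by_cases hl : y ∈ (S.lab_t W O).biUnion id
  · exact chi_ne.1 (prod_ne_zero_iff.1 (right_ne_zero_of_mul h.1) y (mem_sdiff.2 ⟨hl, hw⟩))
  · exact h.2 y (mem_sdiff.2 ⟨hy, hl⟩)

theorem Sup_t.bad (h : S.Sup_t W O) (hy : y ∈ Wk O) : ¬ Fq (S.p'.R + 1) S.p'.ε (sh y W) := fun h' =>
  prod_ne_zero_iff.1 (left_ne_zero_of_mul h.1) y hy (by simp [chi, h'])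

theorem cy_not'_t (hy : Far_t S.n 0 ((CC O).biUnion (dn_t S.l S.n)) y) {x : St} (hx : x ∈ box S.l) :
    ¬ S.cy_t O y x := fun h => by
  obtain ⟨C, hC, h⟩ := mem_biUnion.1 h
  refine hy.not_mem (mem_biUnion.2 ⟨C, hC, mem_image.2 ⟨_, h, ?_⟩⟩)
  rw [Op.yo_add_box hx, rc_rc_t]

theorem cy_not_t (hy : Far_t S.n 0 (Hh_t S.l S.n (CC O) (Wk O)) y) {x : St} (hx : x ∈ box S.l) :
    ¬ S.cy_t O y x := cy_not'_t (hy.sub subset_union_left) hx

namespace Nv_t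

variable (H : S.Nv_t W v O ψ)
include H

theorem cp (y : St) : Cp S.l (sh y W) (sh (rcT S.n y) W) (shv y v) (shv (rcT S.n y) v) :=
  H.pv.rc H.per y

theorem ps : PVT S.l S.n W v := H.pv

theorem pf {α : Type} (F : Conf → VB → St → α)
    (hF : ∀ W W' v v' y, Cp S.l W W' v v' → F W' v' y = F W v y) :
    Pf_t S.n fun y => F (sh y W) (shv y v) (rcT S.n y) := fun y => by
  simp only [rc_rc_t, hF _ _ _ _ _ (H.cp y)]

theorem good (hy : ¬ Far_t S.n (8 * S.D0) (S.HD_t O) y) (hw : rcT S.n y ∉ Wk O) (h2 : 2 ≤ S.D0) :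
    Fq (S.p'.R + 1) S.p'.ε (sh y W) :=
  ((sh_rc_t H.per y).Fq _ _).1 (H.sup.good (hd_din_t H.sub (by omega) (rc_tb_t hy)) hw)

theorem gd1 (hy : ¬ Far_t S.n (13 * S.D0) (S.HD_t O) y) (hd : rcT S.n y ∉ Dbl O) :
    gd S.l S.ζ (v y) = 1 := by
  have := H.df _ (hd_sp_t H.sub (rc_tb_t hy))
  rw [Sd.df, if_neg hd, show gd S.l S.ζ (v _) = gd S.l S.ζ (v y) from H.pv.gd S.ζ y] at this
  exact (Cov.gd_cases _ _ _).resolve_left fun h => this (by simp [h])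

theorem gd0 (hn : Odd S.n) (hy : y ∈ Dbl O) : gd S.l S.ζ (v y) = 0 := by
  have := H.df y (mem_biUnion.2 ⟨_, mem_Dbl.1 hy, mem_tb_single_t.2
    ⟨rc_eq_t hn (dbl_dom_t H.sub hy), nearT_t.refl _ _ _⟩⟩)
  rw [Sd.df, if_pos hy] at this
  exact (Cov.gd_cases _ _ _).resolve_right fun h => this (by simp [h])

theorem gn' (hy : ¬ Far_t S.n (5 * S.D0) (S.HD_t O) y) : S.Gn (sh y W) (shv y v) ≠ 0 := by
  have := H.gn _ (rc_tb_t hy)
  rwa [(H.cp y).Gn] at this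

theorem ib' (hy : ¬ Far_t S.n (5 * S.D0) (S.HD_t O) y) {x : St} (hx : x ∈ box S.l)
    (hc : ¬ S.cy_t O y x) : Fq (S.p.R + 1) S.p.ε (sh x (S.Uy W v y)) := by
  have := ib_ne (H.ib _ (rc_tb_t hy)) hx hc
  rw [← Uv_sh] at this
  exact ((H.cp y).Uv.Fq_sh _ _ x).1 this

theorem noi_le (hy : ¬ Far_t S.n (2 * S.D0) (S.HD_t O) y) (hn : rcT S.n y ∉ S.Nz_t W v O) (μ : Fin 4) :
    S.noE W v y μ ≤ S.εn := not_lt.1 fun h => hn (mem_filter.2 ⟨rc_tb_t hy, μ, by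
  rwa [noE, Uy, (H.cp y).noG, (H.cp y).vo]⟩)

end Nv_t

namespace Hs

variable (h : S.Hs)
include h

variable (H : S.Nv_t W v O ψ)
include H

theorem fq_far_t (hy : ¬ Far_t S.n (5 * S.D0) (S.HD_t O) y)
    (hf : Far_t S.n S.D0 (Hh_t S.l S.n (CC O) (Wk O)) y) (hu : u ∈ box S.D0) :
    Fq (S.p'.R + 1) S.p'.ε (sh u (sh y W)) := by
  have := h.nu.lens
  rw [sh_sh]
  exact H.good (near_mono_t (near_add_t hy hu) (by omega) Subset.rfl)
    (fun hw => (Far_t.add' (a := 0) (by rwa [zero_add]) hu).not_mem (mem_union_right _ hw)) (by omega)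

/-- tame sites -/
theorem sg_t (hy : ¬ Far_t S.n (5 * S.D0) (S.HD_t O) y)
    (hf : Far_t S.n S.D0 (Hh_t S.l S.n (CC O) (Wk O) ∪ S.Nz_t W v O) y) : S.Sg (sh y W) (shv y v) := by
  have ln := h.nu.lens
  have q := fun u hu => h.fq_far_t H (u := u) hy (hf.sub subset_union_left) hu
  have act := fun f hf => act_of (a := 9) (f := f) q (by omega) hf
  obtain ⟨a0, a1, a2⟩ := h.aa_le
  by_cases hc : Far_t S.n S.D0 (S.HD_t O) y
  · have c : S.Calm (sh y W) (shv y v) 0 := fun u hu => by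
      rw [add_zero]
      exact ⟨q u hu, H.gd1 (near_mono_t (near_add_t hy hu) (by omega) Subset.rfl) fun hd =>
        (Far_t.add' (a := 0) (by rwa [zero_add]) hu).not_mem (mem_union_right _ hd)⟩
    refine ⟨q, fun u hu => c.vo (box_mono (by omega) hu), fun f hf ht =>
      ⟨(c.vz (lbox_mono (Op.fb_mono _ (by omega)) hf) ht).2,
        (c.Af_le h.fo (by omega) f hf).trans (le_trans ?_ a2)⟩⟩
    have := h.ok.g0
    have := S.Q1
    have := h.nu.D_le_Q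
    gcongr
    nlinarith [mul_le_mul_of_nonneg_right S.Q1 (sq_nonneg S.Q)]
  have n1 : ∀ u ∈ box (9 + S.r), ¬ Far_t S.n (2 * S.D0) (S.HD_t O) (u + y) := fun u hu =>
    near_mono_t (near_add_t hc hu) (by omega) Subset.rfl
  have n2 : ∀ u ∈ box (9 + S.r), ¬ Far_t S.n (5 * S.D0) (S.HD_t O) (u + y) := fun u hu =>
    near_mono_t (n1 u hu) (by omega) Subset.rfl
  have f1 : ∀ u ∈ box (9 + S.r), Far_t S.n 0 (Hh_t S.l S.n (CC O) (Wk O) ∪ S.Nz_t W v O) (u + y) :=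
    fun u hu => Far_t.add' (hf.mono (by omega)) hu
  obtain ⟨k1, -, k2⟩ := geo_in (h.nu.hy h.tok (n := S.c + 5) le_rfl) (R := 9) (d := S.εn)
    (U := S.Uy W v y) (W := sh y W) (ω := vo (shv y v)) (v := S.Af (sh y W) (vz S.l (shv y v)))
    (σ := Q4.vs S.l (shv y v)) (fun _ => Uv_tree) (fun x hx μ ν => by
      have hu := Op.mem_fb.1 hx
      have := H.ib' (n2 _ hu) (sub_up_yo_mem _ x) (cy_not_t ((f1 _ hu).sub subset_union_left)
        (sub_up_yo_mem _ x)) 0 (zero_mem_box _) μ ν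
      rw [Uy_add, sh_sh, sub_add_cancel] at this
      refine le_trans (le_of_eq ?_) (this.trans h.ε_le.1)
      simp only [Q4.fq, hol_sh, zero_add])
    ((a1.trans (mul_le_mul_of_nonneg_right h.nu.D_le_Q (by
      have := h.ok.g0; have := S.Q0; positivity))).trans (h.small (i := 1) (by simp) (by omega)))
    (fun u hu => by
      have := (gn_ne (H.gn' (n2 u hu))).1
      rwa [← Uy, Uy_add, vo, shv, zero_add] at this)
    fun b hb => by
      have := H.noi_le (n1 _ (mem_lbox.1 hb)) (fun hn => (f1 _ (mem_lbox.1 hb)).not_mem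
        (mem_union_right _ hn)) b.2
      rw [noE, noG, Uy_add, ← shv_shv, ← sh_sh] at this
      refine le_of_eq_of_le ?_ this
      rw [show vo (shv b.1 (shv y v)) = fun x => vo (shv y v) (x + b.1) from rfl, Mx.blkN_sh]
      simp only [sh_apply, zero_add]
  refine ⟨q, fun u hu => k1 u (box_mono (by omega) hu), fun f hf ht =>
    k2 f hf (Uv_act (act f hf ht)) ?_⟩
  have hu := Op.mem_fb.1 (mem_lbox.1 hf)
  have := (gn_ne (H.gn' (n2 _ (box_mono (by omega) hu)))).2 (by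
    rw [← sh_sh, H_sh, fr_shS, zero_add]; exact (act f hf ht).2) (f.1 - up S.l (yo S.l f.1), f.2)
    (mem_lbox.2 (sub_up_yo_mem _ _)) fun h' => ht (by
      simpa using (tree_add_up _ _ (yo S.l f.1) _).2 h')
  rw [← shv_shv, ← sh_sh, vz_shv (yo S.l f.1), Af_sh, show Q4.vs S.l (shv (yo S.l f.1) (shv y v)) =
    sh (up S.l (yo S.l f.1)) (Q4.vs S.l (shv y v)) from Cov.vs_sh _ _ _] at this
  simpa only [sh_apply, sub_add_cancel] using this

end Hs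

end Sd

end Pool.Agent.Lib.MP_7f377f_mp.RG.Q4
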