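import Pool.Agent.Lib.MP_7f377f_mp.G.Q4HoB
import Pool.Agent.Lib.MP_7f377f_mp.G.TwBase
import Pool.Agent.Lib.MP_7f377f_mp.G.TqHoA

/-! The energies at tame sites. -/

noncomputable section

set_option linter.unusedSectionVars false
variable [Pool.Agent.Lib.MP_7f377f_mp.GD]
variable [Pool.Agent.Lib.MP_7f377f_mp.RG.Q4.Tws]

namespace Pool.Agent.Lib.MP_7f377f_mp.RG.Q4

open Finset Hj
open scoped Classical Pointwise

attribute [local irreducible] box domT tb_t rcT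

namespace Sd

variable {S : Sd} {W : Conf} {v : VB} {O : Finset Ob} {ψ : Lx} {y u : St}

namespace Hs

variable (h : S.Hs)
include h

variable (H : S.Nv_t W v O ψ)
include H

theorem coer_t (hy : ¬ Far_t S.n (5 * S.D0) (S.HD_t O) y)
    (hf : Far_t S.n S.D0 (Hh_t S.l S.n (CC O) (Wk O) ∪ S.Nz_t W v O) y) (hu : u ∈ box 2) :
    S.β * ∑ f ∈ lbox S.l, Op.nq (S.vy W v y (f.1 + up S.l u, f.2)) ≤
      2 * S.L ^ S.c * ∑ z ∈ box 3, S.hE W v (z + u + y) + 1 := by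
  have := h.coer0 (h.sg_t H hy hf) hu
  simp only [hE_sh] at this
  exact this.trans (add_le_add_right (inv_le_one_of_one_le₀ (one_le_pow₀ (L1 _))) _)

theorem bf_m1_t (hy : y ∈ S.Oh_t O) (hw : y ∉ Wk O) : S.tE W y ≤ S.Q ^ 5 ∧
    ((∀ u ∈ box (S.r + 5), fs W (y + u) ≤ S.ε2) → S.tE W y ≤ S.Q ^ 2 * S.D0) := by
  have ln := h.nu.lens
  obtain ⟨h1, h2⟩ := mem_tb'_t.1 hy
  refine ⟨(h.tE_le (i := 2) (by norm_num) ((H.good (near_mono_t h2 (by omega) Subset.rfl)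
    (h1.symm ▸ hw) (by omega)).mono (by rw [p'_R]; omega) le_rfl)).trans ?_, fun h3 =>
    (h.tE_le (i := 1) (by norm_num) fun x hx μ ν => ?_).trans_eq (by ring)⟩
  · nlinarith [mul_le_mul_of_nonneg_right h.nu.D_le_Q (pow_pos S.Q0 4).le]
  · rw [Rb.fq_sh, add_comm, pow_one]
    exact (fq_le_fs _ _ _ _).trans (h3 x (box_mono (by omega) hx))

theorem bf_tay_t (hy : y ∈ S.Oh_t O)
    (hf : Far_t S.n S.D0 (Hh_t S.l S.n (CC O) (Wk O) ∪ S.Nz_t W v O) y) :
    S.tE W y + S.hE W v y - 1 ≤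
      S.eE_t W v O y + ∑ u ∈ box 3, (S.xE W v (y + u) (-u) - S.xE W v y u) ∧
    S.tE W y + S.hE W v y ≤ S.Q ^ 8 ∧ 3 * S.p'.lam * fs W y ≤ S.tE W y / 4 + S.D0 ∧
    ∀ u ∈ box 3, |S.xE W v y u| ≤ S.L ^ (2 * S.c + 1) *
      ∑ z ∈ box (S.r + 5), (S.tE W (y + z) + S.hE W v (y + z) + 1) := by
  obtain ⟨h1, h2⟩ := mem_tb'_t.1 hy
  have g := h.sg_t H h2 hf
  have L0 := L0 S.toTd
  have f0 := (hf.mono S.D0.zero_le).sub subset_union_left
  obtain ⟨t1, t2⟩ := h.tay0 g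
  simp only [hE_sh, xE_sh, tE_sh, zero_add] at t1 t2
  refine ⟨?_, ?_, h.fs_le (sh_zero (sh y W) ▸ g.fq 0 (zero_mem_box _)), fun u hu => ?_⟩
  · have h3 := sum_le_card_nsmul (box S.l) (fun x => S.β * (S.T (Bx x (cC (S.Uy W v y)))).re)
      (1 / 10 / S.L ^ 4) fun x hx => by
        have := h.tT _ (H.ib' h2 hx (cy_not_t f0 hx))
        rw [← sh_cC, Bx_sh, zero_add] at this
        rw [le_div_iff₀' (by positivity)]
        exact (mul_le_mul_of_nonneg_left (mul_le_mul_of_nonneg_left (Complex.re_le_norm _)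
          h.ok.β0.le) (by positivity)).trans this
    rw [nsmul_eq_mul, JS.card_boxR, ← Td.L, mul_div_cancel₀ _ (by positivity), ← mul_sum] at h3
    rw [h.FF_eq g, Complex.add_re, Complex.ofReal_re, sum_add_distrib, Complex.add_re,
      Complex.re_sum, Complex.re_sum] at t1
    rw [sum_xE, eE_t, eG, filter_true_of_mem fun x hx => cy_not_t f0 hx]
    unfold Uy vy at *
    linarith
  · have h3 := h.hE_le g
    rw [hE_sh, zero_add] at h3
    have h4 := (h.bf_m1_t H hy (h1 ▸ fun hw => f0.not_mem (mem_union_right _ hw))).1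
    nlinarith [S.Qw (show 5 ≤ 7 by norm_num), mul_le_mul_of_nonneg_right
      (h.nu.cQ' (C := 2) (by norm_num)) (pow_pos S.Q0 7).le]
  · have F0 : ∀ z, 0 ≤ S.tE W (y + z) + S.hE W v (y + z) + 1 := fun z => by
      linarith [h.tE0 W (y + z), h.hE0 W v (y + z)]
    have h3 := single_le_sum (fun z _ => F0 z) (zero_mem_box (S.r + 5))
    have h4 := (sum_le_sum fun z (_ : z ∈ box 5) => show S.hE W v (z + y) ≤ _ from by
      rw [add_comm z]; linarith [h.tE0 W (y + z)]).trans (sum_le_sum_of_subset_of_nonneg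
        (fun z hz => box_mono (show 5 ≤ S.r + 5 by omega) hz) fun z _ _ => F0 z)
    rw [add_zero] at h3
    have h5 : 1 ≤ S.L ^ (2 * S.c) := one_le_pow₀ (L1 _)
    have h6 := h.nu.cL' (C := 8) (by norm_num)
    have h7 := (F0 0).trans (single_le_sum (fun z _ => F0 z) (zero_mem_box (S.r + 5)))
    rw [pow_succ]
    nlinarith [t2 u hu, h.tE0 W y, h.hE0 W v y, mul_le_mul_of_nonneg_right h5 h7,
      mul_le_mul_of_nonneg_left h4 (zero_le_one.trans h5),
      mul_le_mul_of_nonneg_right h6 (mul_nonneg (zero_le_one.trans h5) h7)]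

end Hs

end Sd

end Pool.Agent.Lib.MP_7f377f_mp.RG.Q4
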