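import Pool.Agent.Lib.MP_7f377f_mp.G.Q4HoV
import Pool.Agent.Lib.MP_7f377f_mp.G.TwBase
import Pool.Agent.Lib.MP_7f377f_mp.G.TqHoD

/-! The volume bound and the lower bound of the kept energy. -/

noncomputable section

set_option linter.unusedSectionVars false
variable [Pool.Agent.Lib.MP_7f377f_mp.GD]
variable [Pool.Agent.Lib.MP_7f377f_mp.RG.Q4.Tws]

namespace Pool.Agent.Lib.MP_7f377f_mp.RG.Q4

open Finset MeasureTheory Ms
open scoped Classical

attribute [local irreducible] box domT lbox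

open Hv

/-- the majorant which does not depend on the data -/
def vh_t (l n : ℕ) (ζ ζ' : ℝ) (T Y : Finset St) (v : VB) : ℝ :=
  Real.exp (∑ f ∈ (ldomT (LL l * n)).filter fun f => yo l f.1 ∈ T, ‖vz l (pcsT n v) f‖ ^ 2 / 2) *
    ∏ y ∈ Y, gd l ζ (pcsT n v y) / cgd l ζ (zn ζ')

/-- (V) volume bound with good blocks integrated exactly -/
theorem vol_gd_t {l n : ℕ} (hn : Odd n) {ζ ζ' : ℝ} (hζ : 1 ≤ ζ) (h : ζ ≤ ζ')
    {T Y : Finset St} (hT : T ⊆ domT n) (hY : Y ⊆ domT n) (hd : Disjoint T Y) :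
    Integrable (vh_t l n ζ ζ' T Y) (PB l (nu ζ')) ∧ ∫ v, vh_t l n ζ ζ' T Y v ∂PB l (nu ζ') ≤
      (((2 * ζ') ^ GD.d / zn ζ') ^ (4 * LL l ^ 4)) ^ T.card ∧
      ∀ᵐ v ∂PB l (nu ζ'), ∀ f, ‖vz l (pcsT n v) f‖ ≤ ζ' := by
  have z0 := one_pos.trans_le hζ
  have z1 := z0.trans_le h
  have := nu_prob z1
  obtain ⟨a1, b1⟩ := int_eb l z1
  obtain ⟨a2, b2⟩ := int_g l z0 h
  have nT := fun y (hy : y ∈ Y) => disjoint_right.1 hd hy
  obtain ⟨a, b⟩ := int_fin (m := bv l (nu ζ')) (T ∪ Y)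
    (φ := fun y β => if y ∈ T then ew l β else gd l ζ β / cgd l ζ (zn ζ')) fun y => by
      split_ifs
      exacts [a1, a2.div_const _]
  have e : vh_t l n ζ ζ' T Y = fun v => ∏ y ∈ T ∪ Y,
      if y ∈ T then ew l (v y) else gd l ζ (v y) / cgd l ζ (zn ζ') := funext fun v => by
    rw [prod_union hd, vh_t, sum_filter, Mx.sum_links_t hn, Real.exp_sum,
      ← prod_subset hT fun y _ hy => by
        rw [sum_eq_zero fun t ht => if_neg (by rwa [Mx.yo_blk (mem_lbox.1 ht)]), Real.exp_zero]]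
    congr 1
    · refine prod_congr rfl fun y hy => ?_
      rw [if_pos hy, Real.exp_sum]
      refine prod_congr rfl fun t ht => ?_
      rw [if_pos (by rwa [Mx.yo_blk (mem_lbox.1 ht)]), vz, Cov.lnk_up l _ y ht, pcsT,
        rc_eq_t hn (hT hy)]
    · exact prod_congr rfl fun y hy => by rw [if_neg (nT y hy), pcsT, rc_eq_t hn (hY hy)]
  rw [e]
  refine ⟨a, b.trans_le ?_, ?_⟩
  · rw [prod_union hd, prod_eq_one (s := Y) fun y hy => by
      simp only [if_neg (nT y hy), integral_div, b2, div_self (Cov.cgd_pos l z0 (zn_pos z1)).ne'],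
      mul_one, ← prod_const]
    refine prod_le_prod (fun y hy => integral_nonneg fun β => ?_) fun y hy => ?_ <;>
      simp only [if_pos hy]
    exacts [prod_nonneg fun _ _ => (Real.exp_pos _).le, b1]
  · filter_upwards [ae_vz l z1] with v hv f
    rw [Cov.vz_pcs_t hn]
    exact hv _

end Pool.Agent.Lib.MP_7f377f_mp.RG.Q4
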