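import Pool.Agent.Lib.MP_7f377f_mp.G.Q4HoM
import Pool.Agent.Lib.MP_7f377f_mp.G.TwBase
import Pool.Agent.Lib.MP_7f377f_mp.G.TqHoB
import Pool.Agent.Lib.MP_7f377f_mp.G.TqHoV

/-! The curvature of the block field near the holes is paid by the kept energy. -/

noncomputable section

set_option linter.unusedSectionVars false
variable [Pool.Agent.Lib.MP_7f377f_mp.GD]
variable [Pool.Agent.Lib.MP_7f377f_mp.RG.Q4.Tws]

namespace Pool.Agent.Lib.MP_7f377f_mp.RG.Q4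

open Finset Hj
open scoped Classical

attribute [local irreducible] box domT tb_t rcT

namespace Sd

variable {S : Sd} {W : Conf} {v : VB} {O : Finset Ob} {ψ : Lx} {y : St}

namespace Hs

variable (h : S.Hs)
include h

variable (H : S.Nv_t W v O ψ)
include H

/-- the curvature of the block field near the holes -/
theorem reg_t {κ : ℝ} (κ0 : 0 ≤ κ) (hy : ¬ Far_t S.n (3 * S.D0) (S.HD_t O) y) :
    κ * S.p'.lam * fs W y ≤ 5000⁻¹ * ∑ u ∈ box 2, S.eE_t W v O (y + u) +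
      κ * (10 ^ 6 * cG / S.L) * ∑ u ∈ box 2, S.rE_t W v O (y + u) + 10 ^ 29 * S.L ^ 3 * κ ^ 2 + 1 := by
  have ln := h.nu.lens
  have L0 := L0 S.toTd
  have b0 := h.ok.β0
  have l0 : 0 ≤ S.p'.lam := Real.sqrt_nonneg _
  have l1 : S.p'.lam ≤ S.p.lam := Real.sqrt_le_sqrt h.ok.le
  have l2 : S.p'.lam ^ 2 ≤ S.β := (Real.sq_sqrt h.ok.β'0.le).trans_le h.ok.le
  have n : ∀ u ∈ box 2, ¬ Far_t S.n (5 * S.D0) (S.HD_t O) (u + y) := fun u hu =>
    near_mono_t (near_add_t hy hu) (by omega) Subset.rfl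
  have k := reg_low (l := S.l) (by omega) h.tok.m0.1 h.tok.m0.2 (by norm_num) b0
    (mul_nonneg κ0 l0) (ε := S.p.ε) (by
      have h1 := h.ok.Qg_le (i := 3) (j := 1) (by norm_num)
      have h2 := h.nu.cQ' (C := 600) (by norm_num)
      have h3 := mul_pos (pow_pos S.Q0 3) h.ok.g0
      nlinarith [h.ε_Q, mul_le_mul_of_nonneg_right h2 h3.le])
    (U := S.Uy W v y) (W := sh y W) (ω := vo (shv y v)) (c := fun u => S.cy_t O (u + y))
    (fun u hu x hx hc => Uy_add (S := S) ▸ (H.ib' (n u hu) hx hc).mono (by omega) le_rfl)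
    fun u hu => by
      have := (gn_ne (H.gn' (n u (box_mono (by norm_num) hu)))).1
      rwa [← Uy, Uy_add, vo, shv, zero_add] at this
  have e1 : ∑ u ∈ box 2, eG S.l S.m S.β (S.cy_t O (u + y)) (sh (up S.l u) (S.Uy W v y))
      (sh u (sh y W)) (shv u (vo (shv y v))) = ∑ u ∈ box 2, S.eE_t W v O (y + u) :=
    sum_congr rfl fun u _ => by rw [eE_t, add_comm y, Uy_add, ← sh_sh, ← shv_shv]; rfl
  have e2 : S.p.lam * ∑ u ∈ box 2, rG S.l (S.cy_t O (u + y)) (sh (up S.l u) (S.Uy W v y)) =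
      ∑ u ∈ box 2, S.rE_t W v O (y + u) := by
    rw [mul_sum]
    exact sum_congr rfl fun u _ => by rw [rE_t, add_comm y, Uy_add]
  have r0 : 0 ≤ ∑ u ∈ box 2, rG S.l (S.cy_t O (u + y)) (sh (up S.l u) (S.Uy W v y)) :=
    sum_nonneg fun _ _ => sum_nonneg fun _ _ => fs_nonneg _ _
  have k1 := mul_le_mul_of_nonneg_left (mul_le_mul_of_nonneg_right l1 r0)
    (show 0 ≤ κ * (10 ^ 6 * cG / S.L) by have := GD.cG1; positivity)
  have k2 : 10 ^ 24 * 48020 * S.L ^ 2 * (cG * (κ * S.p'.lam)) ^ 2 / S.β ≤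
      10 ^ 29 * S.L ^ 3 * κ ^ 2 := by
    have l3 := mul_le_mul (h.nu.gL' (C := 1) (k := 2) (by norm_num) (by norm_num)) l2 (sq_nonneg _)
      L0.le
    rw [div_le_iff₀ b0]
    nlinarith [mul_le_mul_of_nonneg_left l3 (show 0 ≤ S.L ^ 2 * κ ^ 2 by positivity),
      mul_nonneg (show 0 ≤ S.L ^ 3 * κ ^ 2 by positivity) b0.le]
  rw [fs_sh, zero_add, e1] at k
  rw [← e2]
  change _ ≤ _ + _ * (_ / S.L) * _ + _ * S.L ^ 2 * _ / _ + _ * S.L ^ 4 * _ * _ at k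
  linarith [h.ε_4]

theorem bf_m4_t (hy : y ∈ tb_t S.n (3 * S.D0) (Hh_t S.l S.n (CC O) (Wk O))) :
    3 * S.p'.lam * fs W y ≤
      625⁻¹ * ∑ u ∈ box 2, (S.eE_t W v O (y + u) / 8 + S.rE_t W v O (y + u)) + S.D0 := by
  have k := h.reg_t H (κ := 3) (by norm_num) (near_mono_t (mem_tb'_t.1 hy).2 le_rfl subset_union_left)
  have L0 := L0 S.toTd
  have r0 : 0 ≤ ∑ u ∈ box 2, S.rE_t W v O (y + u) := sum_nonneg fun _ _ =>
    mul_nonneg (Real.sqrt_nonneg _) (sum_nonneg fun _ _ => fs_nonneg _ _)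
  have k1 : 3 * (10 ^ 6 * cG / S.L) ≤ 625⁻¹ := by
    rw [← mul_div_assoc, div_le_iff₀ L0]
    linarith [h.nu.gL' (C := 10 ^ 10) (k := 1) (by norm_num) (by norm_num), GD.cG1]
  have k2 := h.LQ (C := 10 ^ 30) (k := 3) le_rfl (by omega)
  have k3 : 1 ≤ S.L ^ 3 := one_le_pow₀ (L1 _)
  rw [sum_add_distrib, ← sum_div]
  linarith [mul_le_mul_of_nonneg_right k1 r0]

theorem bf_new_t (hy : y ∈ Wk O) (h1 : S.p'.ε < fs W y)
    (h2 : Far_t S.n 2 ((CC O).biUnion (dn_t S.l S.n)) y) :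
    4 * S.p'.G0 ≤ ∑ u ∈ box 2, S.eE_t W v O (y + u) := by
  have Q0 := S.Q0
  have g0 := h.ok.g'0
  have k := h.reg_t H (κ := 2 * S.Q) (y := y) (by positivity) fun hf =>
    hf y (mem_union_left _ (mem_union_right _ hy)) (nearT_t.refl _ _ _)
  have r0 : ∑ u ∈ box 2, S.rE_t W v O (y + u) = 0 := sum_eq_zero fun u hu => by
    rw [rE_t, rG, filter_false_of_mem fun x hx => cy_not'_t (Far_t.add (d := 0) h2 hu) hx, sum_empty,
      mul_zero]
  have k1 := mul_le_mul_of_nonneg_left h1.le (show 0 ≤ 2 * S.Q * S.g'⁻¹ by positivity)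
  have k2 := mul_le_mul_of_nonneg_right ((h.LQ (C := 10 ^ 30) (k := 3) le_rfl (by omega)).trans
    h.nu.D_le_Q) (sq_nonneg S.Q)
  have k3 : 2 * S.Q * S.g'⁻¹ * S.p'.ε = 2 * S.Q ^ 3 := by rw [p'_ε]; field_simp
  have k4 : 2 ≤ S.Q ^ 3 := (h.nu.cQ' (by norm_num)).trans (le_self_pow₀ S.Q1 (by norm_num))
  rw [r0, p'_lam] at k
  rw [p'_G0]
  nlinarith

end Hs

end Sd

end Pool.Agent.Lib.MP_7f377f_mp.RG.Q4
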