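import Pool.Agent.Lib.MP_7f377f_mp.G.Q4HoN
import Pool.Agent.Lib.MP_7f377f_mp.G.TwBase
import Pool.Agent.Lib.MP_7f377f_mp.G.TqCalmD
import Pool.Agent.Lib.MP_7f377f_mp.G.TqHoD
import Pool.Agent.Lib.MP_7f377f_mp.G.TqS1

/-! Crude bounds for the factors of a block which is not calm. -/

noncomputable section

set_option linter.unusedSectionVars false
variable [Pool.Agent.Lib.MP_7f377f_mp.GD]
variable [Pool.Agent.Lib.MP_7f377f_mp.RG.Q4.Tws]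

namespace Pool.Agent.Lib.MP_7f377f_mp.RG.Q4

open Finset MeasureTheory Filter
open scoped Classical

namespace Cm.Hp

variable {S : Sd} {b θ : ℝ} {k : Mj} {ψ : Lx} {K : Ac} {U : Conf} (h : Hp S)
include h

theorem b_le_t (s : S.Sml_t b θ k ψ K) : 0 ≤ b ∧ 100 * (S.L ^ 4 * b) ≤ 1 := by
  have b0 := pu_nonneg s.pu (h.cv_fine (fq_one (h.nu.ε_ge.trans' (by
    have := h.g0; have := S.Q0; positivity)))).nonneg
  have h1 := h.nu.mon (C := 100) (i := 4) (j := 0) (by norm_num) (by have := h.nu.exps; omega)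
    (by omega)
  have h2 := mul_le_mul_of_nonneg_right (h1.trans (le_self_pow₀ S.Q1 (n := 100) (by norm_num))) b0
  exact ⟨b0, by linarith [s.b_le]⟩

theorem Ix_le_t (s : S.Sml_t b θ k ψ K) (x : St) : ‖Ix S.p (S.Φ ψ) U x‖ ≤
    Real.exp (2 - S.β * (cx S.m (Bx x (cC U)) (Bx x (cC U))).re) := by
  rw [Ix, chi]
  split_ifs with hU
  · rw [one_mul, Complex.norm_exp, Real.exp_le_exp, Bx_eq, sh_cC]
    have h1 := h.T_fine hU
    have h2 := s.pu.2 x _ (Bx_real _ _) (h.cv_fine hU)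
    have h3 := h.b_le_t s
    have h4 : (1 : ℝ) ≤ S.L ^ 4 := one_le_pow₀ (Sd.L1 _)
    have h5 := mul_le_mul_of_nonneg_left (neg_le_of_abs_le (Complex.abs_re_le_norm
      (S.T (Bx 0 (cC (sh x U)))))) h.nu.ok.β0.le
    have h6 := neg_le_of_abs_le (Complex.abs_re_le_norm (ψ x (Bx 0 (cC (sh x U)))))
    simp only [Sd.Φ, Complex.neg_re, Complex.add_re, Complex.re_ofReal_mul]
    nlinarith [mul_nonneg h.nu.ok.β0.le (norm_nonneg (S.T (Bx 0 (cC (sh x U)))))]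
  · simpa using (Real.exp_pos _).le

theorem Ib_le_t (s : S.Sml_t b θ k ψ K) (co : Finset St) (y : St) : ‖S.Ib ψ co U y‖ ≤
    Real.exp (2 * S.L ^ 4 - S.β * ∑ x ∈ (box S.l).filter fun x => ¬ x + up S.l y ∈ co,
      (cx S.m (Bx x (cC (sh (up S.l y) U))) (Bx x (cC (sh (up S.l y) U)))).re) := by
  rw [Sd.Ib, norm_prod]
  refine (prod_le_prod (fun _ _ => norm_nonneg _) fun x _ => h.Ix_le_t s _).trans ?_
  rw [← Real.exp_sum, Real.exp_le_exp, sum_sub_distrib, mul_sum]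
  simp only [← sh_cC, Bx_sh]
  refine sub_le_sub_right ?_ _
  have : (((box S.l).filter fun x => x + up S.l y ∉ co).card : ℝ) ≤ (box S.l).card := by
    exact_mod_cast card_filter_le _ _
  rw [card_box] at this
  rw [sum_const, nsmul_eq_mul, Td.L, LL]
  push_cast at this ⊢
  linarith

theorem Fs_sum_t (hK : KM_t S.p S.nf k K) (hk : ∀ X c, 0 ≤ k X c) (y : St) (B : Fld) :
    ‖∑ X ∈ S.X1s_t, S.Fs_t (S.Ky_t K y) X B‖ ≤ 2 * ∑ X ∈ S.X1s_t, k (trS_t S.nf (up S.l y) X) ∅ := by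
  rw [mul_sum]
  exact norm_sum_le_of_le _ fun X hX => (Sd.Fs_bd_t h.nu h.ok h.gr (h.nu.LQ (by
    have := h.nu.exps; omega)) hX (hK.k1_tr h.nu.ok.odd_nf (Sd.X1_dom_t hX) _) B).trans
    (div_le_self (mul_nonneg zero_le_two (hk _ _)) (Sd.X1_card_t hX))

variable (s : S.Sml_t b θ k ψ K) {y : St}
  (hx : ∑ X ∈ S.X1s_t, k (trS_t S.nf (up S.l y) X) ∅ ≤ S.L ^ 4 * θ)
include s hx

theorem Fs_small_t (B : Fld) : ‖∑ X ∈ S.X1s_t, S.Fs_t (S.Ky_t K y) X B‖ ≤ 1 := by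
  have h0 := h.Fs_sum_t s.km s.kn.1 y B
  have h1 := h.nu.mon (C := 2) (i := 4) (j := 0) (by norm_num) (by have := h.nu.exps; omega)
    (by omega)
  have θ0 : 0 ≤ θ := (sum_nonneg fun _ _ => mul_nonneg (s.kn.1 _ _) (Real.exp_pos _).le).trans
    (s.kn.2 0)
  have h2 := mul_le_mul_of_nonneg_right (h1.trans (le_self_pow₀ S.Q1 (n := 100) (by norm_num))) θ0
  linarith [s.θ_le]

theorem cX_le_t : ‖S.cX_t (S.ψy_t ψ y) (S.Ky_t K y)‖ ≤ S.L ^ (2 * S.c + 10) :=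
  (norm_sub_le_of_le (norm_add_le_of_le (norm_sub_le_of_le
    (h.fo.dt0_wB (Ho.cv_zero _ (by positivity))) (h.pz_zero (pu_tr_t s.pu _ _))) (h.Fs_small_t s hx 0))
    h.c1_le).trans (by linarith [h.ten_le, (h.b_le_t s).2])

theorem Φ'_le_t (hU : Fq (S.p'.R + 1) S.p'.ε U) : ‖S.Φ'_t ψ K y (Bx 0 (cC U)) -
    S.β * cx S.m1 (Bx 0 (cC U)) (Bx 0 (cC U))‖ ≤ 10 := by
  have c := h.cv_coarse hU
  have l := h.nu.lens
  have e := h.nu.exps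
  have b0 := h.nu.ok.β0
  have d1 : (1 : ℝ) ≤ S.D0 := by exact_mod_cast Sd.D1 _
  have r1 := h.fo.ρ_small
  have r2 : 1 / (S.D0 : ℝ) ^ 2 ≤ (S.D0 : ℝ)⁻¹ := by
    rw [one_div]
    exact inv_anti₀ (by linarith) (le_self_pow₀ d1 two_ne_zero)
  have r3 : S.p'.ρ ≤ S.Q ^ 4 * S.g := by
    have := mul_le_mul_of_nonneg_right (h.nu.cQ' (C := 2) (by norm_num)) h.g0.le
    rw [Sd.p'_ρ, pow_succ _ 3, mul_assoc]
    exact mul_le_mul_of_nonneg_left (by linarith [h.nu.ok.g'g, h.g0]) (pow_pos S.Q0 3).le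
  have h1 := (h.nu.T1_tc h.tk).bd _ _ (c.mono (by rw [Sd.p'_R]; omega) le_rfl)
    (by linarith [c.nonneg])
  have h2 := h.cube (y := S.L ^ S.Kt / 2) c.nonneg r3 ((half_le_self (pow_pos (Sd.L0 _) _).le).trans
    ((h.nu.LQ (by omega)).trans (le_self_pow₀ S.Q1 two_ne_zero)))
  have h3 : ‖S.β * S.T1 (Bx 0 (cC U))‖ ≤ 1 / 10 := by
    rw [norm_mul, Complex.norm_real, Real.norm_of_nonneg b0.le]
    linarith [mul_le_mul_of_nonneg_left h1 b0.le]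
  have h4 : ‖S.ol (Bx 0 (cC U))‖ ≤ 1 := (h.fo.ol_le c (by linarith [c.nonneg])).trans (by
    have := h.nu.ok.Qg'_le (i := 3) (j := 1) (by norm_num)
    rw [pow_one, ← Sd.p'_ρ] at this
    nlinarith [c.nonneg, S.Q1])
  have h5 := norm_sub_le_of_le (norm_sub_le_of_le (h.pz_le (pu_tr_t s.pu S.nf (up S.l y)) hU)
    (h.pz_zero (pu_tr_t s.pu S.nf (up S.l y))))
    (norm_sub_le_of_le (h.Fs_small_t s hx (Bx 0 (cC U))) (h.Fs_small_t s hx 0))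
  refine le_of_eq_of_le (congrArg _ ?_) ((norm_add_le_of_le (norm_add_le_of_le h3 h4) h5).trans
    (by linarith [(h.b_le_t s).2]))
  simp only [Sd.Φ'_t, Sd.PL_t, Sd.Pl_t, Sd.ψy_t, sum_sub_distrib]
  ring

end Cm.Hp

omit [Tws] in
/-- the sites of a block -/
theorem site_bd_t (c : ℕ) : ∀ᶠ S in ev c, ∀ [Tws],
    (∀ U, Fq (S.p.R + 1) S.p.ε U → S.L ^ 4 * (S.β * ‖S.T (Bx 0 (cC U))‖) ≤ 1 / 10) ∧
    ∀ b θ k ψ K, S.Sml_t b θ k ψ K → ∀ co U y, ‖S.Ib ψ co U y‖ ≤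
      Real.exp (2 * S.L ^ 4 - S.β * ∑ x ∈ (box S.l).filter fun x => ¬ x + up S.l y ∈ co,
        (cx S.m (Bx x (cC (sh (up S.l y) U))) (Bx x (cC (sh (up S.l y) U)))).re) :=
  (Cm.ev_hp c).mono fun _ h _ => ⟨fun _ => h.T_fine, fun _ _ _ _ _ s co _ y => h.Ib_le_t s co y⟩

omit [Tws] in
/-- the constants and the non quadratic part of the new exponent -/
theorem ex_bd_t (c : ℕ) : ∀ᶠ S in ev c, ∀ [Tws], ∀ b θ k ψ K, S.Sml_t b θ k ψ K → ∀ y,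
    ‖S.cX_t (S.ψy_t ψ y) (S.Ky_t K y)‖ ≤ S.L ^ (2 * S.c + 10) ∧
    ∀ W, Fq (S.p'.R + 1) S.p'.ε W → ‖S.Φ'_t ψ K y (Bx 0 (cC W)) -
      S.β * cx S.m1 (Bx 0 (cC W)) (Bx 0 (cC W))‖ ≤ S.L ^ (2 * S.c + 10) := by
  filter_upwards [Cm.ev_hp c, x1_sum_t c] with S h hx _ b θ k ψ K s y
  exact ⟨h.cX_le_t s (hx k θ s.kn y), fun W hW => (h.Φ'_le_t s (hx k θ s.kn y) hW).trans
    (le_trans (le_add_of_nonneg_right (pow_pos (Sd.L0 _) _).le) h.ten_le)⟩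

end Pool.Agent.Lib.MP_7f377f_mp.RG.Q4
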