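import Pool.Agent.Lib.MP_7f377f_mp.G.Q4HoO
import Pool.Agent.Lib.MP_7f377f_mp.G.TwBase
import Pool.Agent.Lib.MP_7f377f_mp.G.TqHoB

/-! The old polymers of a family of objects. -/

noncomputable section

set_option linter.unusedSectionVars false
variable [Pool.Agent.Lib.MP_7f377f_mp.GD]
variable [Pool.Agent.Lib.MP_7f377f_mp.RG.Q4.Tws]

namespace Pool.Agent.Lib.MP_7f377f_mp.RG.Q4

open Finset Hj
open scoped Classical

attribute [local irreducible] box domT tb_t rcT tau_t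

namespace Sd.Hs

variable {S : Sd} {W : Conf} {v : VB} {O : Finset Ob} {ψ : Lx} {K : Ac} {k : Mj} {b : ℝ}
  (h : S.Hs)
include h

theorem olds_le_t (H : S.Nv_t W v O ψ) (km : KM_t S.p S.nf k K) (k0 : ∀ X c, 0 ≤ k X c) :
    (∏ o ∈ olds O, ‖K o.1 o.2 (S.Uv W v)‖) * Real.exp (∑ y ∈ S.Oh_t O, S.rE_t W v O y +
      ∑ C ∈ CC O, (S.p.G0 + S.p.G2 * tau_t S.nf S.p.D C) -
        S.D0 * ((CC O).card + (Wk O).card + (Dbl O).card)) ≤
      ∏ o ∈ O.toLeft, S.wo_t b k (.inl o) := by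
  have h1 : ∑ y ∈ S.Oh_t O, S.rE_t W v O y ≤ ∑ o ∈ olds O, S.p.lam * Rg o.2 (S.Uv W v) := by
    simp only [rE_t, ← mul_sum]
    refine mul_le_mul_of_nonneg_left (le_trans ?_ ((sum_bU _ _ (fs_nonneg (S.Uv W v))).trans
      (sum_bU (olds O) (fun o => o.2) fun C => sum_nonneg fun x _ => fs_nonneg _ x)))
      (Real.sqrt_nonneg _)
    simp only [rG, Uy_eq, fs_sh]
    rw [sum_sigma', ← sum_image (f := fs (S.Uv W v)) (g := fun p : (_ : St) × St => p.2 + up S.l p.1)
      fun p hp q hq e => ?_]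
    · refine sum_le_sum_of_subset_of_nonneg (image_subset_iff.2 fun p hp => ?_)
        fun _ _ _ => fs_nonneg _ _
      obtain ⟨a1, a2⟩ := mem_sigma.1 hp
      have := (mem_filter.1 a2).2
      rwa [cy_t, (mem_tb'_t.1 a1).1] at this
    · have e1 := congrArg (yo S.l) e
      simp only [Op.yo_add_box (mem_filter.1 (mem_sigma.1 hp).2).1,
        Op.yo_add_box (mem_filter.1 (mem_sigma.1 hq).2).1] at e1
      obtain ⟨p1, p2⟩ := p
      obtain ⟨q1, q2⟩ := q
      simp only at e e1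
      subst e1
      rw [add_right_cancel e]
  have h2 := sum_bU (olds O) (fun o => o.2) (f := fun C => S.p.G0 + S.p.G2 * tau_t S.nf S.p.D C - S.D0)
    fun C => by
      have := h.ok.QM1
      have := h.nu.D_le_Q.trans (h.ok.QQM.trans (le_self_pow₀ this (by norm_num : 3 ≠ 0)))
      rw [p_G0, p_G2]
      linarith [show 0 ≤ 2 * S.QM * tau_t S.nf S.p.D C by positivity]
  rw [sum_sub_distrib, sum_const, nsmul_eq_mul] at h2
  have h3 : (O.toLeft.toRight.card : ℝ) = (Dbl O).card + (Wk O).card := by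
    exact_mod_cast card_toLeft_add_card_toRight.symm
  rw [prod_sum_eq_prod_toLeft_mul_prod_toRight]
  simp only [wo_t]
  rw [prod_mul_distrib, prod_const, ← Real.exp_sum, ← Real.exp_nat_mul, mul_assoc, ← Real.exp_add]
  refine (mul_le_mul_of_nonneg_right (prod_le_prod (fun _ _ => norm_nonneg _) fun o _ =>
    km.bd o.1 o.2 _ (Uv_per_t h.ok.odd H.per H.ps)) (Real.exp_pos _).le).trans ?_
  rw [prod_mul_distrib, ← Real.exp_sum, mul_assoc, ← Real.exp_add, sum_neg_distrib]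
  refine mul_le_mul_of_nonneg_left (Real.exp_le_exp.2 ?_) (prod_nonneg fun _ _ => k0 _ _)
  unfold CC olds at *
  rw [h3]
  linarith

end Sd.Hs

end Pool.Agent.Lib.MP_7f377f_mp.RG.Q4
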