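import Pool.Agent.Lib.MP_7f377f_mp.G.Q4Int
import Pool.Agent.Lib.MP_7f377f_mp.G.TwBase
import Pool.Agent.Lib.MP_7f377f_mp.G.TqBudA
import Pool.Agent.Lib.MP_7f377f_mp.G.TqOpK2

/-! The Gaussian exponent of a region is bounded by the Gaussian weight of its neighbourhood. -/

noncomputable section

set_option linter.unusedSectionVars false
variable [Pool.Agent.Lib.MP_7f377f_mp.GD]
variable [Pool.Agent.Lib.MP_7f377f_mp.RG.Q4.Tws]

namespace Pool.Agent.Lib.MP_7f377f_mp.RG.Q4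

open Finset Polynomial Od

variable {l N c n : ℕ} {Λ δ ζ : ℝ} {H : Set St} {ka : St → Kf} {z z' : Fld} {y : St} {O : Od}
  {W0 : Conf}

/-- the exponent of a region `Om` with calm surroundings -/
theorem gauss_loc_t (h : O.Ok c) (hδ : (LL O.l : ℝ) ^ (2 * c + 10) * δ ≤ 1) (δ0 : 0 ≤ δ)
    (hn : Odd n) (hH : PerS (sd n) H) (hk : PerK (sd n) ka) (hs : ∀ y, Ks (ka y))
    (hr : ∀ y, Nf H y → Kr (ka y)) (hg : ∀ y, Gk O δ H ka (cC W0) W0 y) {z : Lk → E3}
    (hz : PerT0 (LL O.l * n) z) {Om : Finset St} (hO : ∀ y ∈ Om, rcT n y = y) (ζ0 : 0 ≤ ζ)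
    (hc : ∀ y ∈ tb_t n (8 * O.N + 4) Om, y ∉ Om → ∀ e ∈ lbox (fb O.l (4 * O.N + 3)),
      Act O.l H (e.1 + up O.l y, e.2) → ‖z (e.1 + up O.l y, e.2)‖ ≤ ζ) :
    ∑ y ∈ Om, (gx O.l O.Λ O.N H ka (fun f => cE (z f)) y).re ≤
      ∑ f ∈ (ldomT (LL O.l * n)).filter fun f => yo O.l f.1 ∈ tb_t n (4 * O.N + 2) Om, ‖z f‖ ^ 2 / 2 +
      (tb_t n (8 * O.N + 4) Om).card * (((LL O.l : ℝ) ^ (12 * c + 42) * δ +
        6 * (LL O.l : ℝ) ^ 4 * Real.exp (-(O.l : ℝ) ^ 2)) * ζ ^ 2) := by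
  classical
  set S := tb_t n (4 * O.N + 2) Om with hS
  set η := ((LL O.l : ℝ) ^ (12 * c + 42) * δ +
    6 * (LL O.l : ℝ) ^ 4 * Real.exp (-(O.l : ℝ) ^ 2)) * ζ ^ 2 with hη
  have η0 : 0 ≤ η := by positivity
  have N1 : 1 ≤ O.N := by rw [h.num]; exact Nat.one_le_pow _ _ (by simp [LL])
  have hn' : ∀ i, Odd (sd n i) := odd_sd hn
  have hzp : PerV (fi O.l (sd n)) z := hz.fi
  let zt : Fld := pj O.l H fun f => if rcT n (yo O.l f.1) ∈ S then cE (z f) else 0
  have hp : PerV (fi O.l (sd n)) zt := pj_per hH fun v => funext fun f => by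
    have h1 : rcT n (yo O.l (f.1 + pv (fi O.l (sd n)) v)) = rcT n (yo O.l f.1) := by
      rw [← up_pv, Op.yo_add_up]
      exact rcv_add (n := sd n) _ v
    simp only [sh, h1, hzp.app f.1 v f.2]
  have hre : RealF zt := pj_real fun e k => by split_ifs <;> simp [cE]
  have hsub : Om ⊆ domT n := fun y hy => hO y hy ▸ rcv_mem hn' y
  have e1 : ∀ y ∈ Om, gx O.l O.Λ O.N H ka (fun f => cE (z f)) y = gx O.l O.Λ O.N H ka zt y :=
    fun y hy => by
      rw [gx_pj]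
      refine gx_agr (fun e he => ?_) N1
      rw [sh, sh, if_pos]
      rw [Op.yo_add_up, add_comm]
      exact mem_image_of_mem _ (add_mem_add hy (Op.mem_fb.1 (mem_lbox.1 he)))
  have e2 : ∀ y ∈ domT n \ Om, -(gx O.l O.Λ O.N H ka zt y).re ≤
      if y ∈ tb_t n (8 * O.N + 4) Om then η else 0 := fun y hy => by
    split_ifs with h1
    · rw [neg_le]
      refine gx_low h hδ δ0 hr hre (fun x _ => hg _) fun e he => ?_
      by_cases ha : Act O.l H (e.1 + up O.l y, e.2)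
      · simp only [sh, zt, pj_act ha]
        split_ifs
        · exact (norm_cE _).1.trans (hc y h1 (mem_sdiff.1 hy).2 e he ha)
        · simpa
      · simpa only [sh, zt, pj_not ha, norm_zero]
    · rw [gx_pj, gx_agr (z' := 0) (fun e he => ?_) N1, gx_zero]
      · simp
      rw [sh, sh, if_neg, Pi.zero_apply]
      intro h2
      refine h1 (mem_tb'_t.2 ⟨rcv_eq hn' (mem_sdiff.1 hy).1, fun h3 => (mem_tb'_t.1 h2).2 ?_⟩)
      rw [far_rc_t, Op.yo_add_up, add_comm (yo _ _)]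
      exact Far_t.add (h3.mono (by omega)) (Op.mem_fb.1 (mem_lbox.1 he))
  have e3 := congrArg Complex.re (gx_total (N := O.N) h.lam_pos.ne' hn' hH hk hs hp)
  rw [domv_cu_t, Complex.re_sum, ← sum_sdiff hsub] at e3
  have e4 := sum_le_sum e2
  rw [sum_neg_distrib, ← sum_filter, sum_const, nsmul_eq_mul] at e4
  have e5 : (((domT n \ Om).filter fun y => y ∈ tb_t n (8 * O.N + 4) Om).card : ℝ) * η ≤
      (tb_t n (8 * O.N + 4) Om).card * η := mul_le_mul_of_nonneg_right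
    (Nat.cast_le.2 (card_le_card fun y hy => (mem_filter.1 hy).2)) η0
  have e6 : (2⁻¹ * bp (sd n) O.l zt (pj O.l H zt)).re ≤
      ∑ f ∈ (ldomT (LL O.l * n)).filter fun f => yo O.l f.1 ∈ S, ‖z f‖ ^ 2 / 2 := by
    rw [sum_filter, show ldomT (LL O.l * n) = domv (fi O.l (sd n)) ×ˢ univ by rw [domv_fi_t]; rfl,
      sum_fine hn', show (2⁻¹ : ℂ) = ((2⁻¹ : ℝ) : ℂ) by push_cast; rfl, Complex.re_ofReal_mul, bp,
      pj_pj, Complex.re_sum, mul_sum]
    refine sum_le_sum fun y hy => ?_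
    rw [Complex.re_sum, mul_sum]
    refine sum_le_sum fun t ht => ?_
    have h1 : yo O.l (t.1 + up O.l y) = y := Op.yo_add_box (mem_lbox.1 ht) y
    have h2 : rcT n y = y := rcv_eq hn' hy
    by_cases ha : Act O.l H (t.1 + up O.l y, t.2)
    · simp only [sh, zt, pj_act ha, h1, h2]
      split_ifs
      · rw [dot_cE_self, Complex.ofReal_re]
        linarith
      · simp
    · simp only [sh, zt, pj_not ha, dot_zero, Complex.zero_re, mul_zero]
      positivity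
  rw [sum_congr rfl fun y hy => congrArg Complex.re (e1 y hy)]
  linarith

end Pool.Agent.Lib.MP_7f377f_mp.RG.Q4
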