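import Pool.Agent.Lib.MP_7f377f_mp.G.Q4HoX
import Pool.Agent.Lib.MP_7f377f_mp.G.TwBase
import Pool.Agent.Lib.MP_7f377f_mp.G.TqHoB
import Pool.Agent.Lib.MP_7f377f_mp.G.TqInt

/-! The Gaussian exponent of the region which is not calm. -/

noncomputable section

set_option linter.unusedSectionVars false
variable [Pool.Agent.Lib.MP_7f377f_mp.GD]
variable [Pool.Agent.Lib.MP_7f377f_mp.RG.Q4.Tws]

namespace Pool.Agent.Lib.MP_7f377f_mp.RG.Q4.Sd.Hs

open Finset Hj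
open scoped Classical

attribute [local irreducible] box domT tb_t rcT tau_t

variable {S : Sd} {W : Conf} {v : VB} {O : Finset Ob} {ψ : Lx} (h : S.Hs)
include h

theorem gx_le_t (H : S.Nv_t W v O ψ) :
    ∑ y ∈ S.Oh_t O, (gx S.l S.Λ S.N (S.H W) (S.ka (cC W)) (cF (vz S.l v)) y).re ≤
      ∑ f ∈ (ldomT (LL S.l * S.n)).filter fun f => yo S.l f.1 ∈ tb_t S.n (6 * S.D0) (S.HD_t O),
        ‖vz S.l v f‖ ^ 2 / 2 + (tb_t S.n (6 * S.D0) (S.HD_t O)).card := by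
  have ln := h.nu.lens
  have Q0 := S.Q0
  have g0 := h.ok.g'0
  have L0 := L0 S.toTd
  have sub : ∀ a ≤ S.D0, tb_t S.n a (S.Oh_t O) ⊆ tb_t S.n (6 * S.D0) (S.HD_t O) := fun a ha => by
    rw [Oh_t, tb_tb_t]; exact tb_mono_t Subset.rfl (by omega)
  refine (gauss_loc_t (O := S.t.O) h.fo.op h.fo.hδ (mul_nonneg (Nat.cast_nonneg _) h.fo.ε0.le) h.ok.odd
    (H_per_t H.per) (ka_per_t H.per) (Td.ka_symm _) (h.fo.kr W) (h.fo.gk W) H.ps.vz
    (fun y hy => (mem_tb'_t.1 hy).1) Q0.le fun y hy hn e he ha => ?_).trans (add_le_add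
      (sum_le_sum_of_subset_of_nonneg (monotone_filter_right _ fun f _ hf =>
        sub _ (show 4 * S.N + 2 ≤ _ by omega) hf) fun _ _ _ => by positivity) ?_)
  · have hu := Op.mem_fb.1 (mem_lbox.1 he)
    obtain ⟨h1, h2⟩ := mem_tb'_t.1 (sub _ (show 8 * S.N + 4 ≤ _ by omega) hy)
    have h3 : Far_t S.n (5 * S.D0) (S.HD_t O) y := not_not.1 fun h' => hn (mem_tb'_t.2 ⟨h1, h'⟩)
    have h4 := H.gd1 (near_mono_t (near_add_t h2 hu) (show 6 * S.D0 + (4 * S.N + 3) ≤ _ by omega)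
      Subset.rfl) fun hd => (Far_t.add' (a := 0) (h3.mono (show 0 + (4 * S.N + 3) ≤ _ by omega))
        hu).not_mem (mem_union_right _ hd)
    exact ((Cov.gd_iff.1 (h4 ▸ one_ne_zero)).1 _ (yo_add_up _ _ _) ha.1).1
  · refine (mul_le_of_le_one_right (Nat.cast_nonneg _) ?_).trans (by
      exact_mod_cast card_le_card (sub _ (show 8 * S.N + 4 ≤ _ by omega)))
    have h1 := h.nu.mon (C := 2) (i := 12 * S.c + 42) (j := 1) (by norm_num)
      (by have := h.nu.exps; omega) (by norm_num)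
    have h2 := h.nu.mon (C := 12) (i := 4) (j := 0) (by norm_num)
      (by have := h.nu.exps; omega) (by norm_num)
    have h3 := h.nu.exp_g (i := 3) (j := 0) h.nu.r_le_lsq (by norm_num) (by norm_num)
    have h4 := h.ok.Qg'_le (i := 4) (j := 1) (by norm_num)
    change (S.L ^ _ * (S.D0 * (S.Q ^ 2 * S.g')) + 6 * S.L ^ 4 * Real.exp (-(S.l : ℝ) ^ 2)) *
      S.Q ^ 2 ≤ 1
    nlinarith [mul_le_mul_of_nonneg_right h1 (show 0 ≤ S.Q ^ 4 * S.g' by positivity),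
      mul_le_mul_of_nonneg_right h2
        (show 0 ≤ S.Q ^ 2 * Real.exp (-(S.l : ℝ) ^ 2) by positivity)]

end Pool.Agent.Lib.MP_7f377f_mp.RG.Q4.Sd.Hs
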