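import Pool.Agent.Lib.MP_7f377f_mp.G.Q4IniC
import Pool.Agent.Lib.MP_7f377f_mp.G.TwBase
import Pool.Agent.Lib.MP_7f377f_mp.G.TqBudA

/-! Level zero: the activities of the Wilson weight with a position dependent coupling. -/

noncomputable section

set_option linter.unusedSectionVars false
variable [Pool.Agent.Lib.MP_7f377f_mp.GD]
variable [Pool.Agent.Lib.MP_7f377f_mp.RG.Q4.Tws]

namespace Pool.Agent.Lib.MP_7f377f_mp.RG.Q4

open Finset

attribute [local irreducible] box domT lbox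

/-- the activities at level zero -/
def K0_t (n R R' : ℕ) (χ w : St → Conf → ℂ) (X : Finset St) (c : Finset (Finset St))
    (U : Conf) : ℂ :=
  iK (domT n) (fun x => tb_t n R {x}) (fun x => tb_t n R' {x}) (χ · U) (w · U) X c

/-- their majorant -/
def k0_t (n R R' : ℕ) (γ : ℝ) : Finset St → Finset (Finset St) → ℝ :=
  ik (domT n) (fun x => tb_t n R {x}) (fun x => tb_t n R' {x}) γ

variable {n R R' : ℕ} {χ χ' w w' : St → Conf → ℂ} {b b' : St → Fin 4 → Fin 4 → ℂ}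
  {X : Finset St} {c : Finset (Finset St)} {U U' : Conf}

namespace In

theorem us_tb_t (n R : ℕ) (O : Finset St) : us (fun x => tb_t n R {x}) O = tb_t n R O := by
  ext y
  simp only [mem_us, mem_tb_t, mem_singleton, exists_eq_left]
  tauto

theorem card_tb1_t (n R : ℕ) (x : St) : ((tb_t n R {x}).card : ℝ) ≤ (2 * R + 1) ^ 4 := by
  have := card_tb_le_t n R {x}
  rw [card_singleton, one_mul] at this
  exact_mod_cast this

theorem card_near_t (hn : Odd n) {O : Finset St} (hO : O ⊆ domT n) (R : ℕ) (q : St) :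
    ((O.filter fun x => q ∈ tb_t n R {x}).card : ℝ) ≤ (2 * R + 1) ^ 4 := by
  refine le_trans ?_ (card_tb1_t n R q)
  exact_mod_cast card_le_card fun x hx => mem_tb_single_t.2
    ⟨rc_eq_t hn (hO (mem_filter.1 hx).1), (mem_tb_single_t.1 (mem_filter.1 hx).2).2.symm⟩

theorem fq_rc_t (hU : PerT n U) (x : St) (μ ν : Fin 4) : fq U (rcT n x) μ ν = fq U x μ ν :=
  hU.fq_rc x μ ν

theorem fs_rc_t (hU : PerT n U) (x : St) : fs U (rcT n x) = fs U x := by simp only [fs, fq_rc_t hU]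

theorem clus_sub_t (hn : Odd n) {O : Finset St}
    (h : O ∈ clus (fun x => tb_t n R' {x}) (domT n) X) : O ⊆ us (fun x => tb_t n R {x}) O := by
  rw [us_tb_t]
  exact sub_tb_t fun x hx => rc_eq_t hn ((mem_clus.1 h).1 hx)

end In

open In

theorem init_eq_t (hn : Odd n) (h : R ≤ R') (χ w : St → Conf → ℂ) (U : Conf) :
    ∏ x ∈ domT n, w x U =
      ZL (domT n) (fun X c => K0_t n R R' χ w X c U) fun x => χ x U * w x U :=
  prod_eq_ZL (fun _ hx => ⟨mem_tb_single_t.2 ⟨rc_eq_t hn hx, nearT_t.refl _ _ _⟩,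
    tb_mono_t Subset.rfl h, tb_dom_t hn⟩) _ _

theorem wil_eq_prod_t (β : ℝ) (n : ℕ) (U : Conf) :
    (wilT β n U : ℂ) = ∏ x ∈ domT n, ww (fun _ _ _ => β) x U := by
  simp only [wilT, ww_const, mul_sum, ← sum_neg_distrib]
  push_cast
  exact Complex.exp_sum _ _

/-- the activity depends only on the data at the sites in the interior of its support -/
theorem K0_congr_t (hn : Odd n) {d : ℕ} (hd : R + d ≤ R') (h : ∀ y ∈ domT n, tb_t n d {y} ⊆ X →
    χ y U = χ' y U' ∧ w y U = w' y U') : K0_t n R R' χ w X c U = K0_t n R R' χ' w' X c U' := by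
  refine sum_congr rfl fun O hO => iw_congr (clus_sub_t hn (mem_filter.1 hO).1) fun y hy => ?_
  rw [us_tb_t] at hy
  refine h y (tb_dom_t hn hy) ?_
  rw [← (mem_clus.1 (mem_filter.1 hO).1).2.2, us_tb_t]
  exact (tb_mono_t (singleton_subset_iff.2 hy) le_rfl).trans
    ((tb_tb_t O).subset.trans (tb_mono_t Subset.rfl hd))

theorem K0_le_t (hn : Odd n) (hU : PerT n U) {b0 ε lam : ℝ} (h0 : 0 < b0) (hε : 0 ≤ ε)
    (hb : ∀ x ∈ domT n, ‖w x U‖ ≤ Real.exp (-(b0 / 32 * fs U x ^ 2)))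
    (hχ : ∀ y, χ y U = 1 ∨ χ y U = 0 ∧ ∃ z ∈ box R, ε < fs U (y + z)) :
    ‖K0_t n R R' χ w X c U‖ ≤
      k0_t n R R' (b0 * ε ^ 2 / (64 * (2 * R + 1) ^ 4) - 16 * (2 * R + 1) ^ 4 * lam ^ 2 / b0) X c *
        Real.exp (-(lam * ∑ C ∈ c, ∑ x ∈ C, fs U x)) := by
  rw [k0_t, ik, sum_mul]
  refine norm_sum_le_of_le _ fun O hO => ?_
  obtain ⟨h1, h2⟩ := mem_filter.1 hO
  rw [← h2, sum_singleton]
  refine (iw_le (b := b0 / 32) (ε := ε) (M := (2 * R + 1) ^ 4) (r := fs U) (lam := lam)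
    (clus_sub_t hn h1) (by positivity) hε (by positivity) (fun y hy => hb y ?_)
    (fun y _ => (hχ y).imp_right fun a => ⟨a.1, ?_⟩) (fun x _ => card_tb1_t n R x)
    (card_near_t hn (mem_clus.1 h1).1 R)).trans_eq ?_
  · exact tb_dom_t hn (us_tb_t n R O ▸ hy)
  · obtain ⟨z, hz, a⟩ := a.2
    exact ⟨rcT n (y + z), mem_tb_single_t.2 ⟨rc_rc_t _ _, nearT_rc_right_t.2 (nearT_add_t hz)⟩,
      by rwa [fs_rc_t hU]⟩
  · congr 3
    funext
    congr 1
    field_simp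
    ring

theorem k0_nonneg_t (n R R' : ℕ) (γ : ℝ) (X : Finset St) (c : Finset (Finset St)) :
    0 ≤ k0_t n R R' γ X c := ik_nonneg _ _ _ _ _ _

open Classical in
theorem k0_sum_t (hn : Odd n) {DD : ℕ} (h1 : R ≤ R') (h2 : R' ≤ DD) (h3 : 1 ≤ DD)
    {γ a G0 G2 θ : ℝ} (ha : 0 ≤ a) (hG0 : 0 ≤ G0) (hG2 : 0 ≤ G2)
    (hθ : 6 * (2 * R' + 1) ^ 4 * Real.exp (5 * a + G0 + 5 * G2 - γ) ≤ θ)
    (hθ' : 2 * (2 * R' + 1) ^ 4 * θ ≤ 1) (x : St) :
    ∑ o ∈ (lps (domT n)).filter (fun o => x ∈ o.1), k0_t n R R' γ o.1 o.2 *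
      Real.exp (a * tau_t n DD o.1 + ∑ C ∈ o.2, (G0 + G2 * tau_t n DD C)) ≤ θ := by
  obtain ⟨M, hM⟩ : ∃ M : ℝ, M = (2 * R' + 1) ^ 4 := ⟨_, rfl⟩
  have M0 : 0 < M := by rw [hM]; positivity
  rw [← hM] at hθ hθ'
  have := conn_sum (fun x => tb_t n R' {x}) (domT n) (fun y hy => ⟨y, mem_tb_single_t.2
    ⟨rc_eq_t hn hy, nearT_t.refl _ _ _⟩⟩) (fun _ => Real.exp (5 * a + G0 + 5 * G2 - γ))
    (fun _ => Real.exp_nonneg _) (θ := θ / 2) (e := M⁻¹) (by positivity)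
    (by rw [inv_eq_one_div, le_div_iff₀ M0]; linarith) (fun y => ?_) 1 le_rfl x
  · refine (ik_sum _ _ _ γ (F := fun X c => Real.exp (a * tau_t n DD X +
      ∑ C ∈ c, (G0 + G2 * tau_t n DD C))) (fun _ _ => Real.exp_nonneg _) x).trans
      (le_trans (sum_le_sum fun O hO => ?_) (this.trans_eq (by simp; ring)))
    obtain ⟨-, b1, -, b2⟩ := mem_filter.1 hO
    have t1 := tau_conn_t (n := n) h3 _ b1
    simp only [tau_ball_t h3 h2, sum_const, smul_eq_mul] at t1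
    have t2 : tau_t n DD (us (fun x => tb_t n R {x}) O) ≤ tau_t n DD (us (fun x => tb_t n R' {x}) O) := by
      rw [us_tb_t, us_tb_t]
      exact tau_mono_t h3 (tb_mono_t Subset.rfl h1)
    have t3 : (tau_t n DD (us (fun x => tb_t n R' {x}) O) : ℝ) ≤ O.card * 5 := by
      exact_mod_cast (by omega : _ ≤ O.card * 5)
    have t4 : (tau_t n DD (us (fun x => tb_t n R {x}) O) : ℝ) ≤ O.card * 5 :=
      le_trans (by exact_mod_cast t2) t3
    have t5 : (1 : ℝ) ≤ O.card := by exact_mod_cast b2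
    rw [prod_const, prod_const, ← Real.exp_nat_mul, ← Real.exp_nat_mul, ← Real.exp_add,
      Real.exp_le_exp, sum_singleton]
    nlinarith
  · have e1 : Real.exp 1 ≤ 3 := Real.exp_one_lt_d9.le.trans (by norm_num)
    refine (sum_le_card_nsmul _ _ (Real.exp (5 * a + G0 + 5 * G2 - γ) * 3) fun o _ =>
      mul_le_mul_of_nonneg_left (le_trans (Real.exp_le_exp.2 ?_) e1) (Real.exp_nonneg _)).trans ?_
    · rw [inv_mul_le_iff₀ M0, mul_one, hM]
      exact card_tb1_t _ _ _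
    · have := card_near_t hn Subset.rfl R' y
      rw [← hM] at this
      rw [nsmul_eq_mul]
      nlinarith [Real.exp_pos (5 * a + G0 + 5 * G2 - γ)]

theorem K0_meas_t (h : ∀ x, Measurable (χ x)) (hw : ∀ x, Measurable (w x)) :
    Measurable (K0_t n R R' χ w X c) :=
  measurable_sum _ fun _ _ => (measurable_prod _ fun x _ =>
    (measurable_const.sub (h x)).mul (hw x)).mul (measurable_prod _ fun x _ => (h x).mul (hw x))

theorem K0_real_t (h : ∀ x, (χ x U).im = 0) (hb : ∀ x, (w x U).im = 0) :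
    (K0_t n R R' χ w X c U).im = 0 := by
  have h1 : ∀ x, χ x U = ((χ x U).re : ℂ) := fun x => Complex.ext rfl (h x)
  have h2 : ∀ x, w x U = ((w x U).re : ℂ) := fun x => Complex.ext rfl (hb x)
  unfold K0_t iK iw
  rw [show (fun x => χ x U) = fun x => ((χ x U).re : ℂ) from funext h1,
    show (fun x => w x U) = fun x => ((w x U).re : ℂ) from funext h2]
  beta_reduce
  norm_cast

theorem In.fq_dep_t (h : ∀ e : Lk, rcT n e.1 ∈ X ∧ rcT n (e.1 + un e.2) ∈ X → U e = U' e) {x : St}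
    (hx : ∀ z ∈ box 2, rcT n (x + z) ∈ X) (μ ν : Fin 4) : fq U x μ ν = fq U' x μ ν := by
  have a0 : rcT n x ∈ X := by simpa using hx 0 (zero_mem_box 2)
  have a1 : ∀ μ, rcT n (x + un μ) ∈ X := fun μ => hx _ (box_mono one_le_two (un_mem_box μ))
  have a2 : ∀ μ ν, rcT n (x + un μ + un ν) ∈ X := fun μ ν =>
    add_assoc x _ _ ▸ hx _ (add_un_mem_box (un_mem_box μ) ν)
  simp only [fq, hol, h (x, _) ⟨a0, a1 _⟩, h (_, _) ⟨a1 _, a2 _ _⟩]

theorem In.fq_dep'_t (h : ∀ e : Lk, rcT n e.1 ∈ X ∧ rcT n (e.1 + un e.2) ∈ X → U e = U' e) {y z : St}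
    {d : ℕ} (hy : tb_t n (d + 2) {y} ⊆ X) (hz : z ∈ box d) (μ ν : Fin 4) :
    fq U (y + z) μ ν = fq U' (y + z) μ ν :=
  fq_dep_t h (fun _ hw => hy (mem_tb_single_t.2 ⟨rc_rc_t _ _,
    nearT_rc_right_t.2 ((nearT_add_t hz).trans (nearT_add_t hw))⟩)) μ ν

/-- locality -/
theorem K0_dep_t (hn : Odd n) {d : ℕ} (hd : R + (d + 2) ≤ R')
    (hχ : ∀ y U U', (∀ z ∈ box d, ∀ μ ν, fq U (y + z) μ ν = fq U' (y + z) μ ν) → χ y U = χ y U')
    (hw : ∀ y U U', (∀ μ ν, fq U y μ ν = fq U' y μ ν) → w y U = w y U') :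
    DependsOn (K0_t n R R' χ w X c) {e | rcT n e.1 ∈ X ∧ rcT n (e.1 + un e.2) ∈ X} :=
  fun U U' h => K0_congr_t hn hd fun y _ hy => ⟨hχ y U U' fun _ hz => fq_dep'_t h hy hz,
    hw y U U' (by simpa using fq_dep'_t h hy (zero_mem_box d))⟩

theorem In.tb_image_t (n R : ℕ) (v : St) (O : Finset St) :
    tb_t n R (O.image fun x => rcT n (x + v)) = (tb_t n R O).image fun x => rcT n (x + v) := by
  ext y
  simp only [mem_tb_t, mem_image, exists_exists_and_eq_and, nearT_rc_left_t]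
  constructor
  · rintro ⟨h, x, hx, h1⟩
    refine ⟨rcT n (y + -v), ⟨rc_rc_t _ _, x, hx, nearT_rc_right_t.2 ((nearT_add_right_t v).1 ?_)⟩, ?_⟩
    · rwa [neg_add_cancel_right]
    · rw [rc_add_rc_t, neg_add_cancel_right, h]
  · rintro ⟨z, ⟨-, x, hx, h1⟩, rfl⟩
    exact ⟨rc_rc_t _ _, x, hx, nearT_rc_right_t.2 ((nearT_add_right_t v).2 h1)⟩

theorem In.sh_inj_t (hn : Odd n) (v : St) :
    Set.InjOn (fun x => rcT n (x + v)) (domT n : Finset St) :=
  fun _ hx _ hy h => rc_inj_t v (rc_eq_t hn hx) (rc_eq_t hn hy) h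

theorem In.dom_image_t (hn : Odd n) (v : St) :
    (domT n).image (fun x => rcT n (x + v)) = domT n :=
  eq_of_subset_of_card_le (image_subset_iff.2 fun _ _ => rc_mem_t hn _)
    (card_image_of_injOn (sh_inj_t hn v)).ge

/-- translation covariance -/
theorem K0_sh_t (hn : Odd n) (v : St) (hX : X ⊆ domT n) (hc : ∀ C ∈ c, C ⊆ domT n)
    (h : ∀ y ∈ domT n, χ (rcT n (y + v)) U = χ' y U' ∧ w (rcT n (y + v)) U = w' y U') :
    K0_t n R R' χ w (X.image fun x => rcT n (x + v)) (c.image (image fun x => rcT n (x + v))) U =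
      K0_t n R R' χ' w' X c U' := by
  have i1 := sh_inj_t hn v
  unfold K0_t iK
  rw [sum_filter, sum_filter]
  conv_lhs => rw [← dom_image_t hn v]
  rw [sum_clus_image (sp := fun x => tb_t n R' {x}) i1 i1 (fun _ _ => tb_dom_t hn) hX fun o _ => by
    rw [← tb_image_t, image_singleton]]
  refine sum_congr rfl fun O hO => ?_
  have h1 := (mem_clus.1 hO).1
  have h2 : tb_t n R O ⊆ domT n := tb_dom_t hn
  have h3 : O ⊆ tb_t n R O := us_tb_t n R O ▸ clus_sub_t hn hO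
  rw [us_tb_t, us_tb_t, tb_image_t, ← image_singleton]
  refine if_congr (image_eq_image_iff_of_injOn (s := (domT n).powerset)
    (fun C a C' a' e => (image_eq_image_iff_of_injOn i1 (mem_powerset.1 a) (mem_powerset.1 a')).1 e)
    (by simpa using h2) fun C a => mem_powerset.2 (hc C a)) ?_ rfl
  rw [iw, iw, us_tb_t, us_tb_t, tb_image_t, ← image_sdiff_of_injOn (i1.mono h2) h3,
    prod_image (i1.mono h1), prod_image (i1.mono (sdiff_subset.trans h2))]
  congr 1 <;> refine prod_congr rfl fun x hx => ?_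
  · rw [(h x (h1 hx)).1, (h x (h1 hx)).2]
  · rw [(h x (h2 (sdiff_subset hx))).1, (h x (h2 (sdiff_subset hx))).2]

end Pool.Agent.Lib.MP_7f377f_mp.RG.Q4
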