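import Pool.Agent.Lib.MP_7f377f_mp.G.Q4Ini
import Pool.Agent.Lib.MP_7f377f_mp.G.TwBase
import Pool.Agent.Lib.MP_7f377f_mp.G.TqFldA
import Pool.Agent.Lib.MP_7f377f_mp.G.TqIniC

/-! Level zero: the polymer representation of the Wilson weight. -/

noncomputable section

set_option linter.unusedSectionVars false
variable [Pool.Agent.Lib.MP_7f377f_mp.GD]
variable [Pool.Agent.Lib.MP_7f377f_mp.RG.Q4.Tws]

namespace Pool.Agent.Lib.MP_7f377f_mp.RG.Q4

open Finset Filter In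

attribute [local irreducible] box domT lbox

/-- the activities of a product of weights of sites -/
def KI_t (p : Pa) (n : ℕ) (w : St → Conf → ℂ) : Ac := fun X c U =>
  K0_t n (p.R + 1) (2 * p.R + 4) (fun x U => chi p U x) w X c (pcT n U)

/-- their majorant -/
def kI_t (p : Pa) (n : ℕ) (b0 : ℝ) : Mj := k0_t n (p.R + 1) (2 * p.R + 4)
  (b0 * p.ε ^ 2 / (64 * (2 * p.R + 3) ^ 4) - 16 * (2 * p.R + 3) ^ 4 * p.lam ^ 2 / b0)

variable {p : Pa} {n : ℕ} {w w' : St → Conf → ℂ} {b0 : ℝ} {U U' : Conf}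

theorem In.pc_per_t (hU : PerT n U) : pcT n U = U := hU

theorem KI_km_t (hn : Odd n) (h : Wz b0 w) (h0 : 0 < b0) (hε : 0 ≤ p.ε) :
    KM_t p n (kI_t p n b0) (KI_t p n w) := by
  refine ⟨fun X c => (K0_meas_t (chi_meas p) h.meas).comp (Mx.cont_pc_t n).measurable,
    fun X c U => by rw [KI_t, KI_t, pc_per_t (Mx.per_pc_t n U)], fun X c U U' e => K0_dep_t hn
      (d := p.R + 1) (by omega) (fun y U U' => chi_fq) h.loc fun b hb => pcT_of (e (rcT n b.1, b.2) ?_),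
    fun X c u U hu => ?_, fun X c U hU => ?_, fun X c U V e hU hV => ?_⟩
  · simpa only [Set.mem_ofPred_eq, rc_rc_t, rc_add_rc_t] using hb
  · rw [KI_t, KI_t, Mx.pc_gauge_t (Mx.PS_iff_t.1 hu)]
    exact K0_congr_t hn (d := 0) (by omega) fun y _ _ =>
      ⟨chi_fq fun _ _ => Mx.fq_gauge _ _ _, h.loc _ _ _ (Mx.fq_gauge _ _ _)⟩
  · rw [KI_t, pc_per_t hU]
    refine (K0_le_t hn hU h0 hε (fun x _ => h.bd x U) (chi_cases p U) (lam := p.lam)).trans_eq ?_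
    rw [kI_t, Rg]
    push_cast
    ring_nf
  · rw [KI_t, KI_t, hU.pc, hV.pc]
    exact K0_congr_t hn (d := 0) (by omega) fun y _ _ =>
      ⟨chi_fq fun _ _ => e.fq _, h.loc _ _ _ (e.fq _)⟩

theorem KI_rep_t (hn : Odd n) (hU : PerT n U) {Φ : Lx}
    (h : ∀ x, Fq (p.R + 1) p.ε (sh x U) → w x U = Complex.exp (-Φ x (Bx x (cC U)))) :
    ∏ x ∈ domT n, w x U = Rep_t p n Φ (KI_t p n w) U := by
  rw [init_eq_t hn (show p.R + 1 ≤ 2 * p.R + 4 by omega) (fun x U => chi p U x) w U, Rep_t]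
  simp only [KI_t, pc_per_t hU]
  congr 1
  funext x
  unfold Ix chi
  split_ifs with h1
  · rw [h x h1]
  · simp

theorem KI_real_t (h : ∀ x U, (w x U).im = 0) : RealA (KI_t p n w) := fun _ _ U =>
  K0_real_t (fun x => by unfold chi; split_ifs <;> simp) fun x => h x _

/-- equivariance -/
theorem KI_tr_t (hn : Odd n) (v : St) (h : ∀ y ∈ domT n, ∀ U U', (∀ μ ν,
      fq U (rcT n (y + v)) μ ν = fq U' y μ ν) → w (rcT n (y + v)) U = w' y U')
    {o : LP St} (ho : o ∈ lps (domT n)) :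
    trA_t n v (KI_t p n w) o.1 o.2 = KI_t p n w' o.1 o.2 := by
  obtain ⟨h1, -, h2⟩ := mem_lps.1 ho
  funext U
  have hU := (Mx.per_pc_t n U).tr (-v)
  rw [trA_t, KI_t, KI_t, pc_per_t hU]
  have e : ∀ y z μ ν, fq (shT n (-v) (pcT n U)) (rcT n (y + v) + z) μ ν = fq (pcT n U) (y + z) μ ν :=
    fun y z μ ν => by
    rw [← fq_rc_t hU, rc_add_rc_t, fq_rc_t hU, (cq_shT n _ _).fq, Mx.fq_sh, add_right_comm y, add_neg_cancel_right]
  exact K0_sh_t hn v h1 (fun C hC => ((mem_fams.1 h2).1 C hC).trans h1) fun y hy =>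
    ⟨chi_fq fun z _ => e y z, h y hy _ _ (by simpa using e y 0)⟩

namespace Sd.Nu

variable {S : Sd} {a : ℕ} (h : S.Nu a)
include h

/-- the norm of the majorant, with slack in the weight -/
theorem kI_sum_t {b0 s : ℝ} (h1 : S.β / 4 ≤ b0) (s0 : 0 ≤ s) (hs : s ≤ S.Q) {j : ℕ} (h3 : j ≤ 30) :
    kN_t { S.p with a := S.p.a + s } S.nf (kI_t S.p S.nf b0) (S.g ^ (j + 1)) := by
  have hv := h.vol_R
  have g0 := h.ok.g0
  have β0 := h.ok.β0
  have q1 := h.ok.QQM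
  have q2 := h.cQ' (C := 100) (by norm_num)
  have q3 : 0 < S.QM := by linarith
  have l0 := h.logQ_ge
  have a0 : 0 ≤ S.p.a := le_trans (by rw [p'_a]; linarith) h.a_ge
  have a1 : S.p.a ≤ 4 * S.Q := h.a_le.trans (by linarith [Real.log_le_self S.Q0.le])
  obtain ⟨M, hM⟩ : ∃ M : ℝ, M = (2 * S.p.R + 3) ^ 4 := ⟨_, rfl⟩
  have M0 : 0 < M := by rw [hM]; positivity
  have M1 : M ≤ (4 * S.p.R + 9) ^ 4 := hM ▸ pow_le_pow_left₀ (by positivity)
    (by linarith [(Nat.cast_nonneg S.p.R : (0 : ℝ) ≤ _)]) 4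
  have e : (2 * (2 * S.p.R + 4 : ℕ) + 1 : ℝ) = 4 * S.p.R + 9 := by push_cast; ring
  have hD := h.ok.DM.trans' (D1 _)
  refine ⟨k0_nonneg_t _ _ _ _, fun x => ?_⟩
  have := k0_sum_t h.ok.odd_nf (R := S.p.R + 1) (R' := 2 * S.p.R + 4) (DD := S.p.D)
    (γ := b0 * S.p.ε ^ 2 / (64 * M) - 16 * M * S.p.lam ^ 2 / b0) (a := S.p.a + s) (G0 := S.p.G0)
    (G2 := S.p.G2) (θ := S.g ^ (j + 1)) (by omega) (by rw [p_R, p_D]; omega) (by rw [p_D]; omega)
    (by linarith) (by rw [p_G0]; positivity) (by rw [p_G2]; linarith) ?_ ?_ x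
  · rw [hM] at this
    convert this using 2
    rfl
  · have b1 : 30 * S.QM ^ 3 ≤ b0 * S.p.ε ^ 2 / (64 * M) := by
      rw [le_div_iff₀ (by positivity), p_ε]
      calc _ = S.QM ^ 3 / 4 * (7680 * M) := by ring
        _ ≤ S.QM ^ 3 / 4 * S.QM := by gcongr; linarith
        _ = S.β / 4 * (S.QM ^ 2 * S.g) ^ 2 := by linear_combination (-S.QM ^ 4 / 4) * h.ok.βg
        _ ≤ _ := by gcongr
    have b2 : 16 * M * S.p.lam ^ 2 / b0 ≤ S.QM := by
      rw [div_le_iff₀ (by linarith), p_lam, inv_pow, inv_eq_of_mul_eq_one_left h.ok.βg]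
      nlinarith
    have b3 : 2 * S.QM ≤ S.QM ^ 3 := by
      rw [pow_succ]
      exact mul_le_mul_of_nonneg_right (by nlinarith) q3.le
    rw [e, p_G0, p_G2]
    refine le_trans ?_ (h.exp_g (i := 1) h.r_le_Q (by norm_num) (by omega))
    rw [pow_one]
    exact mul_le_mul (by linarith) (Real.exp_le_exp.2 (by linarith)) (Real.exp_nonneg _) S.Q0.le
  · have b1 : S.g ^ (j + 1) ≤ S.g := pow_le_of_le_one g0.le h.ok.g1 (by omega)
    have b2 := h.ok.Qg_le (i := 0) (j := 1) (by norm_num)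
    rw [e]
    simp only [pow_one, pow_zero, one_mul] at b2
    exact (mul_le_mul (by linarith) b1 (by positivity) S.Q0.le).trans b2

theorem kI_kn_t {b0 : ℝ} (h1 : S.β / 4 ≤ b0) {j : ℕ} (h3 : j ≤ 30) :
    kN_t S.p S.nf (kI_t S.p S.nf b0) (S.g ^ (j + 1)) := by
  simpa using h.kI_sum_t h1 le_rfl S.Q0.le h3

theorem KI_km'_t {w : St → Conf → ℂ} {b0 : ℝ} (h1 : S.β / 4 ≤ b0) (hw : Wz b0 w) :
    KM_t S.p S.nf (kI_t S.p S.nf b0) (KI_t S.p S.nf w) :=
  KI_km_t h.ok.odd_nf hw (by linarith [h.ok.β0]) h.ε0.le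

/-- the Wilson weight with a coupling which depends on the site -/
theorem init_rep_t {v : ℝ} (hm : S.m = v • m0) (hT : S.T = fun B => v * TW B) (s : St → ℂ)
    {U : Conf} (hU : PerT S.nf U) :
    ∏ x ∈ domT S.nf, ww (fun x _ _ => v * S.β + s x) x U =
      Rep_t S.p S.nf (S.Φ fun x B => s x * (cx m0 B B + TW B))
        (KI_t S.p S.nf (ww fun x _ _ => v * S.β + s x)) U :=
  KI_rep_t h.ok.odd_nf hU fun x hx => by
    refine (ww_const _ x U).trans ?_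
    rw [Φ, hm, hT, cx_smul, ← h.wd_chart hx]
    congr 1
    ring

end Sd.Nu

end Pool.Agent.Lib.MP_7f377f_mp.RG.Q4
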