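import Pool.Agent.Lib.MP_7f377f_mp.G.Q4KpZ
import Pool.Agent.Lib.MP_7f377f_mp.G.TwBase
import Pool.Agent.Lib.MP_7f377f_mp.G.TqCanc1
import Pool.Agent.Lib.MP_7f377f_mp.G.TqFoC
import Pool.Agent.Lib.MP_7f377f_mp.G.TqHoC
import Pool.Agent.Lib.MP_7f377f_mp.G.TqKp

/-! The bounds for the activities of the holes and of the new polymers. -/

noncomputable section

set_option linter.unusedSectionVars false
variable [Pool.Agent.Lib.MP_7f377f_mp.GD]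
variable [Pool.Agent.Lib.MP_7f377f_mp.RG.Q4.Tws]

namespace Pool.Agent.Lib.MP_7f377f_mp.RG.Q4

open Finset MeasureTheory Filter
open scoped Classical

variable (c : ℕ)

omit [Tws] in
theorem hole_bd_t : ∀ᶠ S in ev c, ∀ [Tws], ∀ b θ k ψ K, S.Sml_t b θ k ψ K → ∀ W, PerT S.n W → ∀ O ⊆ S.obs_t,
    S.Sup_t W O → Integrable (fun v => S.FO_t ψ K W O (pcW S.l S.n W v)) (PB S.l (nu S.zm)) ∧
      ‖S.wO_t ψ K W O‖ ≤ (∏ o ∈ O, S.wo_t b k o) * S.hw_t W O :=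
  Kp.hole_bd_of_t (hole_dom_t c) ((fo_meas_t c).mono fun _ h _ b θ k ψ K a O o => (h b θ k ψ K a O o).1)

omit [Tws] in
theorem kp_sum_t : ∀ᶠ S in ev c, ∀ [Tws], ∀ b θ k, S.Q ^ 100 * b ≤ 1 → S.Q ^ 100 * θ ≤ 1 → 0 ≤ b →
    kN_t S.p S.nf k θ → ∃ k', kN_t S.p'.up S.n k' (S.θ' b θ) ∧ ∀ ψ K, S.Sml_t b θ k ψ K →
      ∀ Y c' W, PerT S.n W →
        ‖S.Kr_t ψ K Y c' W‖ ≤ k' Y c' * Real.exp (-(S.p'.lam * Rg c' W)) := Kp.kp_sum_of_t <| by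
  filter_upwards [hole_bd_t c, canc1_t c, canc2_t c, canc2far_t c, canc3_t c] with S h0 h1 h2 h3 h4 _
    b θ k ψ K H W hW
  exact ⟨fun O hO s => (h0 b θ k ψ K H W hW O hO s).2, h1 b θ k ψ K H W hW, h2 b θ k ψ K H W hW,
    h3 b θ k ψ K H W hW, h4 b θ k ψ K H W hW⟩

end Pool.Agent.Lib.MP_7f377f_mp.RG.Q4
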