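import Pool.Agent.Lib.MP_7f377f_mp.G.Q4Real
import Pool.Agent.Lib.MP_7f377f_mp.G.TwBase
import Pool.Agent.Lib.MP_7f377f_mp.G.TqHoN
import Pool.Agent.Lib.MP_7f377f_mp.G.TqMeasGs

/-! The step preserves reality; the size of the constants. -/

noncomputable section

set_option linter.unusedSectionVars false
variable [Pool.Agent.Lib.MP_7f377f_mp.GD]
variable [Pool.Agent.Lib.MP_7f377f_mp.RG.Q4.Tws]

namespace Pool.Agent.Lib.MP_7f377f_mp.RG.Q4

open Finset MeasureTheory Filter Polynomial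
open scoped Classical

attribute [local irreducible] box domT lbox

theorem RealP.tr_t {p : Pa} {ψ : Lx} (h : RealP p ψ) (n : ℕ) (v : St) : RealP p (trL_t n v ψ) :=
  fun _ => h _

theorem RealA.tr_t {K : Ac} (h : RealA K) (n : ℕ) (v : St) : RealA (trA_t n v K) := fun _ _ _ => h _ _ _

/-- telescoping sums over a region of the torus reduce to the boundary -/
theorem tel_region_t {n r : ℕ} (hn : Odd n) {Ω : Finset St} (hΩ : Ω ⊆ domT n) {f : St → St → ℝ}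
    (hp : ∀ y w u, f (y + pv (sd n) w) u = f y u)
    (hb : ∀ y ∈ Ω, ∀ u ∈ box r, rcT n (y + u) ∉ Ω → f y u = 0 ∧ f (y + u) (-u) = 0) :
    ∑ y ∈ Ω, ∑ u ∈ box r, (f (y + u) (-u) - f y u) = 0 := by
  have h := Mx.tel_zero_t hn (ξ := fun y y' => if rcT n y ∈ Ω ∧ rcT n y' ∈ Ω then f y (y' - y) else 0)
    (fun y y' w => by simp only [rc_add_smul_t, hp, add_sub_add_right_eq_sub]) r
  rw [← h, ← sum_subset hΩ fun y hy h1 => ?_]
  · refine sum_congr rfl fun y hy => ?_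
    rw [← sum_sub_distrib]
    refine sum_congr rfl fun u hu => ?_
    rw [rc_eq_t hn (hΩ hy), sub_add_cancel_left, add_sub_cancel_left]
    by_cases h1 : rcT n (y + u) ∈ Ω
    · simp only [h1, hy, and_self, if_true]
    · simp only [h1, hy, hb y hy u hu h1, ite_self]
  · simp only [rc_eq_t hn hy, h1, and_false, false_and, if_false, sum_const_zero, sub_self]

namespace Re

open Sd

variable {S : Sd} {W : Conf} {A : Fld} {p : ℂ[X]} {y : St} {v : VB} {ψ : Lx} {K : Ac}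
  {O : Finset Ob}

/-! ### fields which are good everywhere -/

namespace Rb

variable (h : Rb S)
include h

/-! ### the new small terms and the constants -/

theorem Fs_im_t (hK : RealA K) {X : Finset St} (hX : X ∈ S.X1s_t) (B : Fld) : (S.Fs_t K X B).im = 0 :=
  Fs_real_t h.nu h.ok h.gr h.pu.P_le hX (hK X ∅) B

theorem PL_real_t (hψ : RealP S.p ψ) (hK : RealA K) (y : St) (B : Fld) : (S.PL_t ψ K y B).im = 0 :=
  Im.sub (Im.sub (h.pu.pz_real (hψ.tr_t _ _) _) (h.pu.pz_real (hψ.tr_t _ _) _))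
    (Im.sum fun _ hX => Im.sub (h.Fs_im_t (hK.tr_t _ _) hX _) (h.Fs_im_t (hK.tr_t _ _) hX _))

theorem cX_real_t (hψ : RealP S.p ψ) (hK : RealA K) : (S.cX_t ψ K).im = 0 :=
  Im.sub (Im.add (Im.sub (h.fo.dt0_real (Ho.cv_zero _ (by positivity)) fun _ _ => rfl)
    (h.pu.pz_real hψ _)) (Im.sum fun _ hX => h.Fs_im_t hK hX _)) h.c1_real

theorem Ey_real_t (hψ : RealP S.p ψ) (hK : RealA K) (y : St) : (S.Ey_t ψ K y).im = 0 :=
  Im.sub (Im.add (Complex.ofReal_im _) (h.cX_real_t (hψ.tr_t _ _) (hK.tr_t _ _)))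
    (Im.sum fun u _ => Im.half (h.c2_real u))

/-! ### fields with small curvature near the origin -/

theorem dZ_real_t (W : Conf) (Z : Finset St) : (S.dZ_t W Z).im = 0 := (dmK_real (h.fo.kr W)).1

end Rb

/-! ### the geometry of a family of objects -/

theorem bs_din_t {o : Ob} (ho : o ∈ O) {a : ℕ} (ha : a + 4 * S.D0 + 2 ≤ 13 * S.D0) :
    tb_t S.n a (S.bs_t o) ⊆ S.Din_t (us S.sp_t O) := fun y hy => by
  have h1 : tb_t S.n (13 * S.D0) (S.bs_t o) ⊆ us S.sp_t O := fun x hx => mem_us.2 ⟨o, ho, hx⟩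
  refine mem_filter.2 ⟨h1 (tb_mono_t le_rfl (by omega) hy), Subset.trans ?_ h1⟩
  refine (tb_mono_t (singleton_subset_iff.2 hy) le_rfl).trans ?_
  rw [tb_tb_t]
  exact tb_mono_t le_rfl ha

theorem hd_bs_t (hO : O ⊆ S.obs_t) (hy : y ∈ Hh_t S.l S.n (CC O) (Wk O) ∪ Dbl O) :
    ∃ o ∈ O, y ∈ S.bs_t o := by
  simp only [Hh_t, CC, Wk, Dbl, olds, mem_union, mem_biUnion, mem_toLeft, mem_toRight] at hy
  rcases hy with (⟨C, ⟨o, ho, hC⟩, hy⟩ | hy) | hy
  · have := hO ho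
    simp only [obs_t, inl_mem_disjSum] at this
    exact ⟨_, ho, image_subset_image ((mem_fams.1 (mem_lps.1 this).2.2).1 C hC) hy⟩
  · exact ⟨_, hy, mem_singleton_self y⟩
  · exact ⟨_, hy, mem_singleton_self y⟩

theorem hd_din_t (hO : O ⊆ S.obs_t) {a : ℕ} (ha : a + 4 * S.D0 + 2 ≤ 13 * S.D0) :
    tb_t S.n a (Hh_t S.l S.n (CC O) (Wk O) ∪ Dbl O) ⊆ S.Din_t (us S.sp_t O) := fun y hy => by
  obtain ⟨h1, x, hx, h2⟩ := mem_tb_t.1 hy
  obtain ⟨o, ho, h3⟩ := hd_bs_t hO hx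
  exact bs_din_t ho ha (mem_tb_t.2 ⟨h1, x, h3, h2⟩)

theorem near_Oh_t {x : St} (hx : x ∈ Wk O) (h : nearT_t S.n (5 * S.D0) x y) : rcT S.n y ∈ S.Oh_t O :=
  mem_tb_t.2 ⟨rc_rc_t _ _, x, mem_union_left _ (mem_union_right _ hx), nearT_rc_right_t.2 h⟩

theorem sup_fq_t (h : S.Sup_t W O) (hy : y ∈ S.Din_t (us S.sp_t O)) (h1 : y ∉ Wk O) :
    Fq (S.p'.R + 1) S.p'.ε (sh y W) := by
  by_cases h2 : y ∈ (S.lab_t W O).biUnion id
  · by_contra h3
    exact prod_ne_zero_iff.1 (right_ne_zero_of_mul h.1) y (mem_sdiff.2 ⟨h2, h1⟩) (if_neg h3)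
  · exact h.2 y (mem_sdiff.2 ⟨hy, h2⟩)

theorem Oh_sub_t (hn : Odd S.n) : S.Oh_t O ⊆ domT S.n := fun y hy =>
  (mem_tb_t.1 hy).1 ▸ rc_mem_t hn y

namespace Rb

variable (h : Rb S) (hW : PerT S.n W) (hO : O ⊆ S.obs_t) (hs : S.Sup_t W O)
include h hW hO hs

/-- the telescoping terms of the region which is not calm are real -/
theorem tel_real_t (hA : RealF A) (pA : PerT0 S.nf A) :
    ∑ y ∈ S.Oh_t O, (S.tel (cC (sh y W)) (sh (up S.l y) A)).im = 0 := by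
  have l := h.nu.lens
  refine Eq.trans (sum_congr rfl fun y _ => ?_) (tel_region_t (r := 3) h.nu.ok.odd
    (Oh_sub_t (O := O) h.nu.ok.odd) (f := fun y u => (S.xf (cC (sh y W)) (sh (up S.l y) A) u).im)
    (fun y w u => ?_) fun y hy u hu h1 => ⟨?_, ?_⟩)
  · simp only [Td.tel, Complex.im_sum, Complex.sub_im, sh_cC, sh_sh, ← up_add, add_comm y]
  · rw [(hW.cg (cgT_pv y w)).eqC fun _ W hk => hk.xf S.toTd W,
      PerT0.sh_cg (n := LL S.l * S.n) pA ((cgT_pv y w).up S.l)]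
  · exact h.xf_im (sup_fq_t hs (hd_din_t hO (by omega) hy) fun h2 =>
      h1 (near_Oh_t (S := S) h2 ((nearT_add_t hu).mono (by omega)))) (fun _ => hA _) u
  · obtain ⟨-, x, hx, h2⟩ := mem_tb_t.1 hy
    have h3 := sup_fq_t hs (hd_din_t hO (a := 5 * S.D0 + 3) (by omega) (mem_tb_t.2 ⟨rc_rc_t _ (y + u), x, hx,
      nearT_rc_right_t.2 (h2.trans (nearT_add_t hu))⟩)) fun h4 => h1 (by
        simpa only [rc_rc_t] using near_Oh_t (S := S) h4 (nearT_t.refl _ _ _))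
    rw [(hW.rc (y + u)).Fq] at h3
    exact h.xf_im h3 (fun _ => hA _) _

variable (hψ : RealP S.p ψ) (hK : RealA K)
include hψ hK

theorem hf_real_t (hv : PVT S.l S.n W v) : (∏ y ∈ S.Oh_t O, S.hf_t ψ K W v O y).im = 0 := by
  have l := h.nu.lens
  simp only [hf_t, Gn, prod_mul_distrib, ← Complex.exp_sum]
  refine Im.mul (Im.mul (Im.mul (Im.prod fun _ _ => Complex.ofReal_im _) (Im.exp ?_))
    (Im.prod fun y _ => Im.prod fun x _ => h.Ix_real hψ _ _))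
    (Im.exp (Im.sum fun y hy => Im.add (Im.neg (h.cX_real_t (hψ.tr_t _ _) (hK.tr_t _ _))) ?_))
  · simp only [Complex.im_sum, h.Eg_im, vz_shv, vH_sh, sum_neg_distrib, ← mul_sum,
      h.tel_real_t hW hO hs (h.fo.vH_real W _) (vH_per_t hW hv.vz), mul_zero, neg_zero]
  · split_ifs with h1
    · rfl
    · refine Im.add (Im.add (Im.mul (Complex.ofReal_im _) (Im.add
        (cx_im _ (Bx_real _ _) (Bx_real _ _)) (h.nu.T1_real h.tk _ (Bx_real _ _))))
        (h.ol y _ (Bx_real _ _) ?_)) (h.PL_real_t hψ hK _ _)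
      rw [Bx_eq, sh_cC]
      exact h.cv_coarse (hs.2 y (mem_sdiff.2 ⟨hd_din_t hO (by omega) hy, h1⟩))

omit hW in
theorem jm_real_t {m : Mk} (hm : m ∈ O.toRight) : (S.jm_t ψ K W v (S.Oh_t O) m).im = 0 := by
  have l := h.nu.lens
  have h1 := mem_toRight.1 hm
  have h2 := hO h1
  rcases m with y | q | q | Z <;> simp only [jm_t]
  · split_ifs with h3
    · rfl
    · simp only [obs_t, mks_t, inr_mem_disjSum, inl_mem_disjSum] at h2
      have h4 := rc_eq_t h.nu.ok.odd h2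
      exact h.fm_real (sup_fq_t hs (bs_din_t h1 (a := 0) (by omega) (mem_tb_single_t.2 ⟨h4, nearT_t.refl _ _ _⟩))
        fun h5 => h3 (h4 ▸ near_Oh_t (S := S) h5 (nearT_t.refl _ _ _))) (hψ.tr_t _ _) _
  · exact Im.sub (Im.exp (Im.half (h.c2_real _))) rfl
  · split_ifs
    · rfl
    · simp only [obs_t, mks_t, inr_mem_disjSum, inl_mem_disjSum, mem_product] at h2
      exact Im.sub (Im.exp (Im.neg (h.Fs_im_t (hK.tr_t _ _) h2.2 _))) rfl
  · exact h.dZ_real_t W Z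

theorem FO_real_t (hv : PVT S.l S.n W v) : (S.FO_t ψ K W O v).im = 0 := by
  refine Im.mul (Im.mul (Im.mul ?_ (h.hf_real_t hW hO hs hψ hK hv))
    (Im.prod fun _ => h.jm_real_t hO hs hψ hK)) (Im.prod fun _ _ => Complex.ofReal_im _)
  split_ifs
  exacts [Im.prod fun _ _ => hK _ _ _, rfl]

theorem wO_real_t : (S.wO_t ψ K W O).im = 0 :=
  Im.mul (Im.mul (Im.prod fun _ _ => Im.sub rfl (Im.chi _ _ _)) (Im.prod fun _ _ => Im.chi _ _ _))
    (Im.int _ fun v => h.FO_real_t hW hO hs hψ hK (pvt_pcW _ _ _ v))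

omit hO hs in
theorem Kr_real_t (Y : Finset St) (c : Finset (Finset St)) : (S.Kr_t ψ K Y c W).im = 0 := by
  rw [Sd.Kr_t, sum_mul]
  refine Im.sum fun O hO => ?_
  obtain ⟨h1, rfl⟩ := mem_filter.1 hO
  obtain ⟨h2, -, rfl⟩ := mem_clus.1 h1
  by_cases h3 : S.Sup_t W O
  · exact Im.mul (h.wO_real_t hW h2 h3 hψ hK) (Im.prod fun _ _ => Im.chi _ _ _)
  · simp only [Sup_t, not_and_or, not_not, not_forall] at h3
    rcases h3 with h3 | ⟨y, hy, h3⟩
    · simp [wO_t, h3]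
    · rw [prod_eq_zero hy (if_neg h3), mul_zero, Complex.zero_im]

omit hW hO hs in
/-- the new activities are real -/
theorem KK_real_t : RealA (S.KK_t ψ K) := fun Y c _ =>
  Im.int _ fun _ => h.Kr_real_t (Mx.per_pc_t _ _) hψ hK Y c

end Rb

end Re

variable (c : ℕ)

omit [Tws] in
theorem step_real_t : ∀ᶠ S in ev c, ∀ [Tws], ∀ b θ k ψ K, S.Sml_t b θ k ψ K → RealP S.p ψ → RealA K →
    RealP S.p' (S.PL_t ψ K) ∧ RealA (S.KK_t ψ K) ∧ ∀ y, (S.Ey_t ψ K y).im = 0 := by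
  filter_upwards [Cm.ev_hp c, ev_pu c, ol_ps c] with S h1 h2 h3 _ _ _ _ ψ K _ hψ hK
  have h : Re.Rb S := ⟨h1, h2, h3.2.1⟩
  exact ⟨fun y B _ _ => h.PL_real_t hψ hK y B, h.KK_real_t hψ hK, h.Ey_real_t hψ hK⟩

end Pool.Agent.Lib.MP_7f377f_mp.RG.Q4
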