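import Pool.Agent.Lib.MP_7f377f_mp.G.Q4RepL
import Pool.Agent.Lib.MP_7f377f_mp.G.TwBase
import Pool.Agent.Lib.MP_7f377f_mp.G.TqRep
import Pool.Agent.Lib.MP_7f377f_mp.G.TqS1

/-! The exponent at the coarse level is admissible. -/

set_option linter.unusedSectionVars false
variable [Pool.Agent.Lib.MP_7f377f_mp.GD]
variable [Pool.Agent.Lib.MP_7f377f_mp.RG.Q4.Tws]

namespace Pool.Agent.Lib.MP_7f377f_mp.RG.Q4

omit [Tws] in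
theorem lo_coarse_t (c : ℕ) :
    ∀ᶠ S in ev c, ∀ [Tws], ∀ b θ k ψ K, S.Sml_t b θ k ψ K → LO S.p' (S.Φ'_t ψ K) := by
  filter_upwards [ev_nu' c 0, ev_tok, tk c, pl_ps_t c, ol_ps c] with S h ht k h1 h2 _ b θ k' ψ K hs
  obtain ⟨_, _, _, h3⟩ := hs.pu.1
  exact h.lo_Φ'_t ht k h2.1.lo (h1 _ _ _ _ _ _ _ h3 hs.km hs.kn).1.lo

end Pool.Agent.Lib.MP_7f377f_mp.RG.Q4
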