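import Pool.Agent.Lib.MP_7f377f_mp.G.Q4ShA
import Pool.Agent.Lib.MP_7f377f_mp.G.TwBase
import Pool.Agent.Lib.MP_7f377f_mp.G.TqDef2
import Pool.Agent.Lib.MP_7f377f_mp.G.TqFs
import Pool.Agent.Lib.MP_7f377f_mp.G.TqIniC

/-! Translations of the torus: sets, data, objects and holes. -/

noncomputable section

set_option linter.unusedSectionVars false
variable [Pool.Agent.Lib.MP_7f377f_mp.GD]
variable [Pool.Agent.Lib.MP_7f377f_mp.RG.Q4.Tws]

namespace Pool.Agent.Lib.MP_7f377f_mp.RG.Q4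

open Finset MeasureTheory
open scoped Classical

attribute [local irreducible] box domT lbox

namespace Sh

variable {n l : ℕ} {v w x y : St} {X Y : Finset St} {c : Finset (Finset St)}

/-- translation of the sites of the torus -/
abbrev tp_t (n : ℕ) (v : St) : St → St := fun x => rcT n (x + v)

theorem tp_tp_t (n : ℕ) (v w x : St) : tp_t n w (tp_t n v x) = tp_t n (v + w) x := by
  simp only [tp_t, rc_add_rc_t, add_assoc]

theorem trS_trS_t (n : ℕ) (v w : St) (X : Finset St) : trS_t n w (trS_t n v X) = trS_t n (v + w) X := by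
  unfold trS_t
  rw [image_image]
  exact congrArg (image · X) (funext (tp_tp_t n v w))

theorem tp_zero_t (hn : Odd n) (hx : x ∈ domT n) : tp_t n 0 x = x := by
  simp only [tp_t, add_zero, rc_eq_t hn hx]

theorem trS_zero_t (hn : Odd n) (hX : X ⊆ domT n) : trS_t n 0 X = X :=
  (image_congr fun _ hx => tp_zero_t hn (hX hx)).trans image_id

theorem trS_dom_t (hn : Odd n) : trS_t n v X ⊆ domT n := image_subset_iff.2 fun _ _ => rc_mem_t hn _

theorem trS_inj_t (hn : Odd n) (v : St) : Set.InjOn (trS_t n v) (domT n).powerset :=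
  fun _ a _ b e => (image_eq_image_iff_of_injOn (In.sh_inj_t hn v) (mem_powerset.1 a)
    (mem_powerset.1 b)).1 e

theorem trS_bi_t (n : ℕ) (v : St) (c : Finset (Finset St)) :
    (c.image (trS_t n v)).biUnion id = trS_t n v (c.biUnion id) := by
  rw [image_biUnion, trS_t, biUnion_image]
  rfl

theorem up_rc_t (l n : ℕ) (y : St) : ∃ w : St, up l (rcT n y) = up l y + pv (sd (LL l * n)) w := by
  obtain ⟨w, e⟩ := rc_exists_t n y
  exact ⟨w, by rw [e, up_add, up_per_t]⟩

theorem tp_up_rc_t (l n : ℕ) (y : St) : tp_t (LL l * n) (up l (rcT n y)) = tp_t (LL l * n) (up l y) := by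
  obtain ⟨w, e⟩ := up_rc_t l n y
  funext x
  simp only [tp_t, e, ← add_assoc, rc_add_smul_t]

theorem trS_up_rc_t (l n : ℕ) (y : St) :
    trS_t (LL l * n) (up l (rcT n y)) = trS_t (LL l * n) (up l y) :=
  funext fun X => congrArg (image · X) (tp_up_rc_t l n y)

theorem pc_per_t {U : Conf} (hU : PerT n U) : pcT n U = U := hU

theorem sh_rc_t {U : Conf} (hU : PerT n U) (y : St) : Cq (sh y U) (sh (rcT n y) U) := hU.rc y

theorem sh_tp_t {U : Conf} (hU : PerT n U) (v y : St) :
    Cq (sh y (sh v U)) (sh (tp_t n v y) U) := by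
  rw [sh_sh]
  exact hU.rc _

theorem sh_up_tp_t {α : Type} {U : Lk → α} (hU : PerT0 (LL l * n) U) (v y : St) :
    sh (up l (tp_t n v y)) U = sh (up l y) (sh (up l v) U) := by
  obtain ⟨w, e⟩ := up_rc_t l n (y + v)
  rw [e, ← sh_sh, hU w, sh_sh, up_add]

theorem ps_tp_t {α : Type} {ω : St → α} (h : PST n ω) (v y : St) : ω (tp_t n v y) = shv v ω y :=
  h (y + v)

theorem shv_tp_t {α : Type} {ω : St → α} (h : PST n ω) (v y : St) :
    shv (tp_t n v y) ω = shv y (shv v ω) := by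
  obtain ⟨w, e⟩ := rc_exists_t n (y + v)
  funext x
  simp only [shv, tp_t, e, ← add_assoc]
  exact h.pv _ _

theorem Bx_tp_t {W : Conf} (hW : PerT n W) (v y : St) :
    Bx (tp_t n v y) (cC W) = Bx y (cC (sh v W)) := by
  rw [← zero_add (tp_t n v y), ← Bx_sh, sh_cC, (sh_tp_t hW v y).Bx, ← sh_cC, Bx_sh, zero_add]

theorem chi_tp_t (p : Pa) {W : Conf} (hW : PerT n W) (v y : St) :
    chi p W (tp_t n v y) = chi p (sh v W) y :=
  if_congr ((sh_tp_t hW v y).Fq _ _) rfl rfl

theorem Ix_tp_t (p : Pa) (Φ : Lx) {W : Conf} (hW : PerT n W) (v y : St) :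
    Ix p Φ W (tp_t n v y) = Ix p (trL_t n v Φ) (sh v W) y := by
  rw [Ix, Ix, chi_tp_t p hW, Bx_tp_t hW]
  rfl

theorem fs_tp_t {W : Conf} (hW : PerT n W) (v y : St) : fs W (tp_t n v y) = fs (sh v W) y := by
  simp only [tp_t, In.fs_rc_t hW]
  simp only [fs, Mx.fq_sh]

theorem dn_trS_t (l n : ℕ) (v : St) (X : Finset St) :
    dn_t l n (trS_t (LL l * n) (up l v) X) = trS_t n v (dn_t l n X) := by
  unfold dn_t trS_t
  rw [image_image, image_image]
  refine congrArg (image · X) (funext fun x => ?_)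
  simp only [Function.comp, rc_yo_t, yo_add_up, rc_add_rc_t]

theorem trL_trL_t (n : ℕ) (v w : St) (Φ : Lx) : trL_t n w (trL_t n v Φ) = trL_t n (w + v) Φ :=
  funext fun x => congrArg Φ (tp_tp_t n w v x)

theorem trA_trA_t (n : ℕ) (v w : St) {K : Ac} (hK : ∀ X c, Ci n (K X c)) :
    trA_t n w (trA_t n v K) = trA_t n (w + v) K := by
  funext X c U
  have a := perT_pc n U
  simp only [trA_t, trS_trS_t, image_image, pc_per_t (a.tr _), neg_add_rev]
  rw [hK _ _ _ _ (shT_shT n _ _ _) (a.tr _) ((a.tr _).tr _)]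
  congr 2
  exact funext (trS_trS_t n w v)

theorem trL_up_rc_t (l n : ℕ) (y : St) (Φ : Lx) :
    trL_t (LL l * n) (up l (rcT n y)) Φ = trL_t (LL l * n) (up l y) Φ :=
  funext fun x => congrArg Φ (congrFun (tp_up_rc_t l n y) x)

theorem trA_up_rc_t (l n : ℕ) (y : St) {K : Ac} (hK : ∀ X c, Ci (LL l * n) (K X c)) :
    trA_t (LL l * n) (up l (rcT n y)) K = trA_t (LL l * n) (up l y) K := by
  funext X c U
  obtain ⟨w, e⟩ := up_rc_t l n y
  have a := perT_pc (LL l * n) U
  rw [trA_t, trA_t, trS_up_rc_t, e, neg_add, ← pv_neg]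
  exact hK _ _ _ _ (a.tr_cg (cgT_pv _ _)) (a.tr _) (a.tr _)

theorem fams_tr_t (hn : Odd n) (hX : X ⊆ domT n) (hc : c ∈ fams X) (v : St) :
    c.image (trS_t n v) ∈ fams (trS_t n v X) := by
  obtain ⟨h1, h2, h3⟩ := mem_fams.1 hc
  refine mem_fams.2 ⟨fun C hC => ?_, fun h => ?_, fun C hC C' hC' hne => ?_⟩
  · obtain ⟨C, a, rfl⟩ := mem_image.1 hC
    exact image_subset_image (h1 C a)
  · obtain ⟨C, a, e⟩ := mem_image.1 h
    exact h2 (image_eq_empty.1 e ▸ a)
  · obtain ⟨C, a, rfl⟩ := mem_image.1 (mem_coe.1 hC)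
    obtain ⟨C', a', rfl⟩ := mem_image.1 (mem_coe.1 hC')
    exact (disj_image (In.sh_inj_t hn v) ((h1 C a).trans hX) ((h1 C' a').trans hX)).2
      (h3 a a' fun e => hne (e ▸ rfl))

/-- translation of labelled polymers -/
def trP_t (n : ℕ) (v : St) (o : LP St) : LP St := ⟨trS_t n v o.1, o.2.image (trS_t n v)⟩

theorem trP_mem_t (hn : Odd n) {o : LP St} (ho : o ∈ lps (domT n)) (v : St) :
    trP_t n v o ∈ lps (domT n) :=
  mem_lps.2 ⟨trS_dom_t hn, (mem_lps.1 ho).2.1.image _, fams_tr_t hn (mem_lps.1 ho).1 (mem_lps.1 ho).2.2 v⟩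

theorem trP_trP_t (n : ℕ) (v w : St) (o : LP St) : trP_t n w (trP_t n v o) = trP_t n (v + w) o := by
  simp only [trP_t, trS_trS_t, image_image]
  congr 2
  exact funext (trS_trS_t n v w)

theorem trP_zero_t (hn : Odd n) {o : LP St} (ho : o ∈ lps (domT n)) : trP_t n 0 o = o := by
  obtain ⟨h1, -, h2⟩ := mem_lps.1 ho
  rw [trP_t, trS_zero_t hn h1, image_congr (f := trS_t n 0) (g := id) fun C hC =>
    trS_zero_t hn (((mem_fams.1 h2).1 C hC).trans h1), image_id]

theorem trP_inj_t (hn : Odd n) (v : St) : Set.InjOn (trP_t n v) (lps (domT n)) := fun a ha b hb e => by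
  rw [← trP_zero_t hn ha, ← trP_zero_t hn hb, ← add_neg_cancel v, ← trP_trP_t, e, trP_trP_t]

/-! ### holes -/

variable {CC : Finset (Finset St)} {Wm : Finset St}

theorem Hh_tr_t (l n : ℕ) (v : St) (CC : Finset (Finset St)) (Wm : Finset St) :
    Hh_t l n (CC.image (trS_t (LL l * n) (up l v))) (trS_t n v Wm) = trS_t n v (Hh_t l n CC Wm) := by
  rw [Hh_t, Hh_t, image_biUnion, trS_t, trS_t, image_union, biUnion_image]
  simp only [dn_trS_t]
  rfl

theorem zone_dom_t (hn : Odd n) {D : ℕ} {Z : Finset St} (h : Z ∈ zones_t l n D CC Wm) :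
    Z ⊆ domT n := by
  obtain ⟨O, -, rfl⟩ := mem_image.1 h
  exact us_sub.2 fun _ _ => tb_dom_t hn

theorem zones_tr_t (hn : Odd n) (hC : ∀ C ∈ CC, C ⊆ domT (LL l * n)) (hW : Wm ⊆ domT n)
    (D : ℕ) (v : St) : zones_t l n D (CC.image (trS_t (LL l * n) (up l v))) (trS_t n v Wm) =
      (zones_t l n D CC Wm).image (trS_t n v) := by
  have h : ∀ o, zsp_t l n D (Sum.map (trS_t (LL l * n) (up l v)) (tp_t n v) o) =
      (zsp_t l n D o).image (tp_t n v) := by
    rintro (C | y)
    · rw [zsp_t, zsp_t, ← In.tb_image_t]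
      exact congrArg _ (dn_trS_t l n v C)
    · rw [zsp_t, zsp_t, ← In.tb_image_t]
      exact congrArg _ (image_singleton _ _).symm
  have he : Set.InjOn (Sum.map (trS_t (LL l * n) (up l v)) (tp_t n v)) (CC.disjSum Wm) := by
    rintro (a | a) ha (b | b) hb e
    · exact congrArg _ (trS_inj_t (Odd.mul ⟨l, rfl⟩ hn) _
        (mem_powerset.2 (hC a (inl_mem_disjSum.1 ha))) (mem_powerset.2 (hC b (inl_mem_disjSum.1 hb)))
        (Sum.inl.inj e))
    · cases e
    · cases e
    · exact congrArg _ (In.sh_inj_t hn v (hW (inr_mem_disjSum.1 ha)) (hW (inr_mem_disjSum.1 hb))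
        (Sum.inr.inj e))
  rw [zones_t, zones_t, trS_t, sum_image', comps_image he
    ((In.sh_inj_t hn v).mono (us_sub.2 fun _ _ => tb_dom_t hn)) fun o _ => h o, image_image, image_image]
  exact image_congr fun O _ => us_image fun o _ => h o

theorem ncs_tr_t (hn : Odd n) (hC : ∀ C ∈ CC, C ⊆ domT (LL l * n)) (hW : Wm ⊆ domT n)
    (D DD : ℕ) (ε : ℝ) (v : St) {rW rW' : St → ℝ} (h : ∀ y, rW (tp_t n v y) = rW' y) :
    ncs_t l n D DD ε rW (CC.image (trS_t (LL l * n) (up l v))) (trS_t n v Wm) =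
      (ncs_t l n D DD ε rW' CC Wm).image (trS_t n v) := by
  rw [ncs_t, ncs_t, zones_tr_t hn hC hW, filter_image]
  congr 1
  refine filter_congr fun Z _ => not_congr (and_congr ?_ ?_)
  · rw [trS_t, tau_sh_t]
  · simp only [trS_t, forall_mem_image, h]

/-! ### invariance of the periodised product measures -/

theorem int_tr_t {α : Type} [MeasurableSpace α] (m : Measure α) (hn : Odd n)
    (v : St) (G : (St → α) → ℂ) :
    ∫ ω, G (shv v (pcsT n ω)) ∂(Measure.infinitePi fun _ => m) =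
      ∫ ω, G (pcsT n ω) ∂(Measure.infinitePi fun _ => m) := by
  by_cases hm : IsProbabilityMeasure m
  swap
  · rw [Measure.infinitePi, dif_neg fun h => hm (h 0), integral_zero_measure, integral_zero_measure]
  have inv : ∀ v x, (fun x => if x ∈ domT n then tp_t n (-v) x else x)
      (if x ∈ domT n then tp_t n v x else x) = x := fun v x => by
    by_cases hx : x ∈ domT n
    · simp only [if_pos hx, if_pos (rc_mem_t hn (x + v)), tp_tp_t, add_neg_cancel, tp_zero_t hn hx]
    · simp only [if_neg hx]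
  let s : St ≃ St := ⟨fun x => if x ∈ domT n then tp_t n v x else x,
    fun x => if x ∈ domT n then tp_t n (-v) x else x, inv v,
    fun x => by simpa only [neg_neg] using inv (-v) x⟩
  let E : (St → α) ≃ᵐ (St → α) := ⟨⟨fun ω x => ω (s x), fun ω x => ω (s.symm x),
    fun ω => by simp, fun ω => by simp⟩,
    measurable_pi_lambda _ fun _ => measurable_pi_apply _,
    measurable_pi_lambda _ fun _ => measurable_pi_apply _⟩
  have hE : MeasurePreserving E (Measure.infinitePi fun _ => m) (Measure.infinitePi fun _ => m) :=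
    ⟨E.measurable, Measure.map_infinitePi_infinitePi_of_inj (P := fun _ : St => m) s.injective⟩
  rw [← hE.integral_comp' fun ω => G (pcsT n ω)]
  congr 1
  funext ω
  congr 1
  funext x
  change ω (rcT n (x + v)) = ω (if rcT n x ∈ domT n then tp_t n v (rcT n x) else rcT n x)
  rw [if_pos (rc_mem_t hn x), tp_t, rc_add_rc_t]

end Sh

end Pool.Agent.Lib.MP_7f377f_mp.RG.Q4
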