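import Pool.Agent.Lib.MP_7f377f_mp.G.Q4Sh
import Pool.Agent.Lib.MP_7f377f_mp.G.TwBase
import Pool.Agent.Lib.MP_7f377f_mp.G.TqObj
import Pool.Agent.Lib.MP_7f377f_mp.G.TqShA
import Pool.Agent.Lib.MP_7f377f_mp.G.TqCi

/-! Translation covariance and locality in the data of one step. -/

noncomputable section

set_option linter.unusedSectionVars false
variable [Pool.Agent.Lib.MP_7f377f_mp.GD]
variable [Pool.Agent.Lib.MP_7f377f_mp.RG.Q4.Tws]

namespace Pool.Agent.Lib.MP_7f377f_mp.RG.Q4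

open Finset MeasureTheory Filter
open scoped Classical

attribute [local irreducible] box domT lbox

namespace Sh

variable {S : Sd} {v w y : St} {ψ : Lx} {K K' : Ac} {W : Conf} {ω : VB} {O : Finset Ob}
  {Y : Finset St} {c : Finset (Finset St)}

theorem ψy_ψy_t (S : Sd) (ψ : Lx) (v y : St) : S.ψy_t (S.ψy_t ψ v) y = S.ψy_t ψ (tp_t S.n v y) :=
  (trL_trL_t _ _ _ _).trans (by rw [← up_add]; exact (trL_up_rc_t _ _ _ _).symm)

theorem Ky_Ky_t (S : Sd) {K : Ac} (hK : ∀ X c, Ci S.nf (K X c)) (v y : St) :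
    S.Ky_t (S.Ky_t K v) y = S.Ky_t K (tp_t S.n v y) :=
  (trA_trA_t _ _ _ hK).trans (by rw [← up_add]; exact (trA_up_rc_t _ _ _ hK).symm)

theorem PL_tr_t (S : Sd) (ψ : Lx) {K : Ac} (hK : ∀ X c, Ci S.nf (K X c)) (v y : St) :
    S.PL_t (S.ψy_t ψ v) (S.Ky_t K v) y = S.PL_t ψ K (tp_t S.n v y) := by
  simp only [Sd.PL_t, ψy_ψy_t, Ky_Ky_t S hK]

theorem Φ'_tr_t (S : Sd) (ψ : Lx) {K : Ac} (hK : ∀ X c, Ci S.nf (K X c)) (v y : St) :
    S.Φ'_t (S.ψy_t ψ v) (S.Ky_t K v) y = S.Φ'_t ψ K (tp_t S.n v y) := by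
  funext B
  simp only [Sd.Φ'_t, PL_tr_t S ψ hK]

/-! ### translation of the objects -/

/-- translation of marks -/
def trM_t (n : ℕ) (v : St) : Mk → Mk :=
  Sum.map (tp_t n v) (Sum.map (Prod.map (tp_t n v) id) (Sum.map (Prod.map (tp_t n v) id) (trS_t n v)))

/-- translation of objects -/
def trO_t (S : Sd) (v : St) : Ob → Ob :=
  Sum.map (Sum.map (trP_t S.nf (up S.l v)) (Sum.map (tp_t S.n v) (tp_t S.n v))) (trM_t S.n v)

theorem trO_trO_t (S : Sd) (v w : St) (o : Ob) : trO_t S w (trO_t S v o) = trO_t S (v + w) o := by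
  rcases o with (o | y | y) | y | q | q | Z <;>
    simp only [trO_t, trM_t, Sum.map_inl, Sum.map_inr, Prod.map, id, trP_trP_t, tp_tp_t, trS_trS_t, up_add]

theorem olds_tr_t (S : Sd) (v : St) (O : Finset Ob) :
    olds (O.image (trO_t S v)) = (olds O).image (trP_t S.nf (up S.l v)) := by
  simp only [olds, trO_t, left_image]

theorem Dbl_tr_t (S : Sd) (v : St) (O : Finset Ob) :
    Dbl (O.image (trO_t S v)) = trS_t S.n v (Dbl O) := by
  simp only [Dbl, trO_t, left_image, right_image, trS_t]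

theorem Wk_tr_t (S : Sd) (v : St) (O : Finset Ob) : Wk (O.image (trO_t S v)) = trS_t S.n v (Wk O) := by
  simp only [Wk, trO_t, left_image, right_image, trS_t]

theorem CC_tr_t (S : Sd) (v : St) (O : Finset Ob) :
    CC (O.image (trO_t S v)) = (CC O).image (trS_t S.nf (up S.l v)) := by
  rw [CC, CC, olds_tr_t, image_biUnion, biUnion_image]
  rfl

theorem Oh_tr_t (S : Sd) (v : St) (O : Finset Ob) :
    S.Oh_t (O.image (trO_t S v)) = trS_t S.n v (S.Oh_t O) := by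
  rw [Sd.Oh_t, Sd.Oh_t, CC_tr_t, Wk_tr_t, Dbl_tr_t, Sd.nf, Hh_tr_t, trS_t, trS_t, ← image_union, In.tb_image_t, trS_t]

theorem bs_tr_t (S : Sd) (v : St) (o : Ob) : S.bs_t (trO_t S v o) = (S.bs_t o).image (tp_t S.n v) := by
  rcases o with (o | y | y) | y | q | q | Z
  · exact dn_trS_t _ _ _ _
  · exact (image_singleton _ _).symm
  · exact (image_singleton _ _).symm
  · exact (image_singleton _ _).symm
  · simp only [trO_t, trM_t, Sum.map_inr, Sum.map_inl, Sd.bs_t, Prod.map, id, image_insert,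
      image_singleton, tp_t, rc_add_rc_t, add_right_comm]
  · change dn_t _ _ (trS_t (LL S.l * S.n) (up S.l (rcT _ _)) q.2) =
      trS_t _ v (dn_t _ _ (trS_t (LL S.l * S.n) _ q.2))
    rw [trS_up_rc_t, dn_trS_t, dn_trS_t, trS_trS_t]
  · rfl

theorem sp_tr_t (S : Sd) (v : St) (o : Ob) : S.sp_t (trO_t S v o) = (S.sp_t o).image (tp_t S.n v) := by
  rw [Sd.sp_t, Sd.sp_t, bs_tr_t, In.tb_image_t]

theorem olds_sub_t (h : O ⊆ S.obs_t) : olds O ⊆ lps (domT S.nf) := fun o ho => by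
  simpa [Sd.obs_t] using h (mem_toLeft.1 (mem_toLeft.1 ho))

theorem Dbl_sub_t (h : O ⊆ S.obs_t) : Dbl O ⊆ domT S.n := fun o ho => by
  simpa [Sd.obs_t, Sd.Λ'_t] using h (mem_toLeft.1 (mem_toRight.1 (mem_toLeft.1 ho)))

theorem Wk_sub_t (h : O ⊆ S.obs_t) : Wk O ⊆ domT S.n := fun o ho => by
  simpa [Sd.obs_t, Sd.Λ'_t] using h (mem_toLeft.1 (mem_toRight.1 (mem_toRight.1 ho)))

theorem mks_sub_t (h : O ⊆ S.obs_t) : O.toRight ⊆ S.mks_t := fun o ho => by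
  simpa [Sd.obs_t] using h (mem_toRight.1 ho)

theorem CC_sub_t (h : O ⊆ S.obs_t) : ∀ C ∈ CC O, C ⊆ domT S.nf := fun C hC => by
  obtain ⟨o, ho, hC⟩ := mem_biUnion.1 hC
  obtain ⟨h1, -, h2⟩ := mem_lps.1 (olds_sub_t h ho)
  exact ((mem_fams.1 h2).1 C hC).trans h1

variable (hn : Odd S.n)
include hn

theorem trO_mem_t {o : Ob} (ho : o ∈ S.obs_t) (v : St) : trO_t S v o ∈ S.obs_t := by
  have a : ∀ x, tp_t S.n v x ∈ domT S.n := fun x => rc_mem_t hn _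
  rcases o with (o | y | y) | y | q | q | Z <;>
    simp only [Sd.obs_t, Sd.mks_t, Sd.Λ'_t, trO_t, trM_t, Sum.map_inl, Sum.map_inr, inl_mem_disjSum,
      inr_mem_disjSum, mem_product, Prod.map, id, a, mem_erase, mem_powerset, true_and] at ho ⊢
  exacts [trP_mem_t (onf hn) ho _, ho.2, ho.2, ⟨fun e => ho.1 (image_eq_empty.1 e), trS_dom_t hn⟩]

theorem trO_zero_t {o : Ob} (ho : o ∈ S.obs_t) : trO_t S 0 o = o := by
  rcases o with (o | y | y) | y | q | q | Z <;>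
    simp only [Sd.obs_t, Sd.mks_t, Sd.Λ'_t, trO_t, trM_t, Sum.map_inl, Sum.map_inr, inl_mem_disjSum,
      inr_mem_disjSum, mem_product, Prod.map, id, mem_erase, mem_powerset, up_zero] at ho ⊢
  · rw [trP_zero_t (onf hn) ho]
  · rw [tp_zero_t hn ho]
  · rw [tp_zero_t hn ho]
  · rw [tp_zero_t hn ho]
  · rw [tp_zero_t hn ho.1]
  · rw [tp_zero_t hn ho.1]
  · rw [trS_zero_t hn ho.2]

theorem trO_inj_t (v : St) : Set.InjOn (trO_t S v) S.obs_t := fun a ha b hb e => by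
  rw [← trO_zero_t hn ha, ← trO_zero_t hn hb, ← add_neg_cancel v, ← trO_trO_t, e, trO_trO_t]

theorem obs_tr_t (v : St) : S.obs_t.image (trO_t S v) = S.obs_t :=
  eq_of_subset_of_card_le (image_subset_iff.2 fun _ h => trO_mem_t hn h v)
    (card_image_of_injOn (trO_inj_t hn v)).ge

theorem lab_dom_t : ∀ C ∈ S.lab_t W O, C ⊆ domT S.n := fun _ h => zone_dom_t hn (mem_filter.1 h).1

theorem lab_tr_t (hW : PerT S.n W) (h : O ⊆ S.obs_t) (v : St) :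
    S.lab_t W (O.image (trO_t S v)) = (S.lab_t (sh v W) O).image (trS_t S.n v) := by
  rw [Sd.lab_t, Sd.lab_t, CC_tr_t, Wk_tr_t]
  exact ncs_tr_t hn (CC_sub_t h) (Wk_sub_t h) _ _ _ v (fs_tp_t hW v)

theorem lab_mem_t (hW : PerT S.n W) (h : O ⊆ S.obs_t) (hy : y ∈ domT S.n) :
    tp_t S.n v y ∈ (S.lab_t W (O.image (trO_t S v))).biUnion id ↔
      y ∈ (S.lab_t (sh v W) O).biUnion id := by
  rw [lab_tr_t hn hW h, trS_bi_t]
  exact mem_img (In.sh_inj_t hn v) (bi_sub (lab_dom_t hn)) hy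

theorem blk_mem_t {x : St} (hx : x ∈ box S.l) (hy : y ∈ domT S.n) :
    x + up S.l y ∈ domT S.nf := by
  rwa [Sd.nf, mem_fineT hn, yo_add_up, Op.yo_eq_zero.2 hx, zero_add]

theorem Ib_tr_t {U : Conf} {co : Finset St} (hU : PerT S.nf U) (hc : co ⊆ domT S.nf)
    (hy : y ∈ domT S.n) : S.Ib ψ (trS_t S.nf (up S.l v) co) U (tp_t S.n v y) =
      S.Ib (S.ψy_t ψ v) co (sh (up S.l v) U) y := by
  have e : ∀ x ∈ box S.l, x + up S.l (tp_t S.n v y) = tp_t S.nf (up S.l v) (x + up S.l y) :=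
    fun x hx => by
    rw [← rc_eq_t (onf hn) (blk_mem_t hn hx (rc_mem_t hn (y + v)))]
    exact (congrFun (tp_up_rc_t _ _ _) x).trans (by simp only [tp_t, up_add, add_assoc, Sd.nf])
  refine prod_congr (filter_congr fun x hx => ?_) fun x hx => ?_
  · rw [e x hx]
    exact not_congr (mem_img (In.sh_inj_t (onf hn) _) hc (blk_mem_t hn hx hy))
  · rw [e x (mem_filter.1 hx).1, Ix_tp_t _ _ hU]
    rfl

variable (hW : PerT S.n W)
include hW

theorem dZ_tr_t {Z : Finset St} (hZ : Z ⊆ domT S.n) :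
    S.dZ_t W (trS_t S.n v Z) = S.dZ_t (sh v W) Z := by
  rw [Sd.dZ_t, Sd.dZ_t, dmK, dmK, Sd.H_sh, ← sh_cC, Td.ka_sh,
    qdK_sh (n := sd S.n) (odd_sd hn) (Sd.H_per_t hW) (Sd.ka_per_t hW) v (domv_cu_t S.n ▸ hZ)]
  rfl

theorem wf_tr_t (h : O ⊆ S.obs_t) : S.wf_t W (O.image (trO_t S v)) = S.wf_t (sh v W) O := by
  have i := In.sh_inj_t hn v
  have a := bi_sub (lab_dom_t (W := sh v W) (O := O) hn)
  rw [Sd.wf_t, Sd.wf_t, lab_tr_t hn hW h, trS_bi_t, Wk_tr_t, trS_t, trS_t, prod_image (i.mono (Wk_sub_t h)),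
    ← image_sdiff_of_inj i a (Wk_sub_t h), prod_image (i.mono (sdiff_subset.trans a))]
  simp only [chi_tp_t _ hW]

variable (hK : ∀ X c, Ci S.nf (K X c)) (hω : PVT S.l S.n W ω)
include hK hω

theorem jm_tr_t {Ω : Finset St} (hΩ : Ω ⊆ domT S.n) {m : Mk} (hm : m ∈ S.mks_t) :
    S.jm_t ψ K W ω (trS_t S.n v Ω) (trM_t S.n v m) =
      S.jm_t (S.ψy_t ψ v) (S.Ky_t K v) (sh v W) (shv v ω) Ω m := by
  rcases m with y | q | q | Z <;>
    simp only [Sd.mks_t, Sd.Λ'_t, inl_mem_disjSum, inr_mem_disjSum, mem_product, mem_erase,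
      mem_powerset] at hm <;>
    simp only [trM_t, Sum.map_inl, Sum.map_inr, Sd.jm_t, Prod.map, id, ψy_ψy_t, Ky_Ky_t S hK, trS_t]
  · rw [sh_cC, sh_cC, (sh_tp_t hW v y).fm, sh_up_tp_t hω.vz, Sd.vz_shv]
    exact if_congr (mem_img (In.sh_inj_t hn v) hΩ hm) rfl rfl
  · rw [Bx_tp_t hW]
    exact if_congr (mem_img (In.sh_inj_t hn v) hΩ hm.1) rfl rfl
  · exact dZ_tr_t hn hW hm.2

theorem hf_tr_t (h : O ⊆ S.obs_t) (hy : y ∈ domT S.n) :
    S.hf_t ψ K W ω (O.image (trO_t S v)) (tp_t S.n v y) =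
      S.hf_t (S.ψy_t ψ v) (S.Ky_t K v) (sh v W) (shv v ω) O y := by
  rw [Sd.hf_t, Sd.hf_t, (hω.rc hW (y + v)).Gn, ← sh_sh, show shv (y + v) ω = shv y (shv v ω) from
    funext fun x => congrArg ω (add_assoc x y v).symm, CC_tr_t, trS_bi_t,
    Ib_tr_t hn (Sd.Uv_per_t hn hW hω) (bi_sub (CC_sub_t h)) hy, Sd.Uv_sh, ψy_ψy_t, Ky_Ky_t S hK,
    Φ'_tr_t S ψ hK, Bx_tp_t hW, if_congr (lab_mem_t hn hW h hy) rfl rfl]

omit hω

theorem FO_tr_t {u : VB} (hu : PST S.n u) (h : O ⊆ S.obs_t) :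
    S.FO_t ψ K W (O.image (trO_t S v)) (mW S.l W u) =
      S.FO_t (S.ψy_t ψ v) (S.Ky_t K v) (shT S.n v W) O (mW S.l (shT S.n v W) (shv v u)) := by
  have hω : PVT S.l S.n W (mW S.l W u) := ⟨u, hu, rfl⟩
  have p := Sd.Uv_per_t hn hW hω
  have q := cp_shT S.l S.n v W u
  have r := Uv_shT S hn v W u
  generalize mW S.l (shT S.n v W) (shv v u) = ω' at q r ⊢
  have g : ∀ y, gd S.l S.ζ (mW S.l W u (tp_t S.n v y)) = gd S.l S.ζ (shv v (mW S.l W u) y) :=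
    fun y => hω.gd S.ζ (y + v)
  generalize mW S.l W u = ω at *
  have i := In.sh_inj_t hn v
  have j := (trP_inj_t (onf hn) (up S.l v)).mono (olds_sub_t h)
  have a : S.Oh_t O ⊆ domT S.n := tb_dom_t hn
  have b : us S.sp_t O ⊆ domT S.n := us_sub.2 fun _ _ => tb_dom_t hn
  have d : ∀ o ∈ olds O, o.1 ⊆ domT S.nf := fun o ho => (mem_lps.1 (olds_sub_t h ho)).1
  have e0 : ((olds O).image (trP_t S.nf (up S.l v)) : Set (LP St)).PairwiseDisjoint (fun o => o.1) ↔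
      (olds O : Set (LP St)).PairwiseDisjoint fun o => o.1 := by
    rw [coe_image, j.pairwiseDisjoint_image]
    exact forall₂_congr fun o ho => forall₂_congr fun o' ho' => imp_congr_right fun _ =>
      disj_image (In.sh_inj_t (onf hn) _) (d o ho) (d o' ho')
  have e1 : ∏ o ∈ (olds O).image (trP_t S.nf (up S.l v)), K o.1 o.2 (S.Uv W ω) =
      ∏ o ∈ olds O, S.Ky_t K v o.1 o.2 (S.Uv (shT S.n v W) ω') := by
    rw [prod_image j, r]
    refine prod_congr rfl fun o _ => ?_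
    rw [Sd.Ky_t, trA_t, ← Sd.nf, pc_per_t (p.tr _)]
    exact (hK _ _ _ _ (cq_back _ _ _) p ((p.tr _).tr _)).symm
  have e2 : ∏ y ∈ trS_t S.n v (S.Oh_t O), S.hf_t ψ K W ω (O.image (trO_t S v)) y =
      ∏ y ∈ S.Oh_t O, S.hf_t (S.ψy_t ψ v) (S.Ky_t K v) (sh v W) (shv v ω) O y :=
    (prod_image (i.mono a)).trans (prod_congr rfl fun y hy => hf_tr_t hn hW hK hω h (a hy))
  have e3 : ∏ m ∈ (O.image (trO_t S v)).toRight, S.jm_t ψ K W ω (trS_t S.n v (S.Oh_t O)) m =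
      ∏ m ∈ O.toRight, S.jm_t (S.ψy_t ψ v) (S.Ky_t K v) (sh v W) (shv v ω) (S.Oh_t O) m := by
    rw [trO_t, right_image, prod_image fun a ha b hb e => Sum.inr.inj (trO_inj_t hn v
      (h (mem_toRight.1 ha)) (h (mem_toRight.1 hb)) (congrArg Sum.inr e))]
    exact prod_congr rfl fun m hm => jm_tr_t hn hW hK hω a (mks_sub_t h hm)
  have e4 : ∏ y ∈ us S.sp_t (O.image (trO_t S v)), S.df ω (O.image (trO_t S v)) y =
      ∏ y ∈ us S.sp_t O, S.df (shv v ω) O y := by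
    rw [us_image fun o _ => sp_tr_t S v o, prod_image (i.mono b)]
    refine prod_congr rfl fun y hy => ?_
    rw [Sd.df, Sd.df, Dbl_tr_t, g, trS_t, if_congr (mem_img i (Dbl_sub_t h) (b hy)) rfl rfl]
  rw [Sd.FO_t, Sd.FO_t, olds_tr_t, Oh_tr_t, e1, e2, e3, e4, if_congr e0 rfl rfl]
  simp only [q.hf_t, q.jm_t, q.df]

theorem wO_tr_t (h : O ⊆ S.obs_t) :
    S.wO_t ψ K W (O.image (trO_t S v)) = S.wO_t (S.ψy_t ψ v) (S.Ky_t K v) (shT S.n v W) O := by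
  rw [Sd.wO_t, Sd.wO_t, wf_tr_t hn hW h, (cq_shT S.n v W).wf_t, PB]
  simp only [pcW, FO_tr_t hn hW hK (ps_pcs_t _ _) h]
  exact congrArg _ (int_tr_t _ hn v fun u =>
    S.FO_t (S.ψy_t ψ v) (S.Ky_t K v) (shT S.n v W) O (mW S.l (shT S.n v W) u))

theorem Kr_tr_t (hY : Y ⊆ domT S.n) (hc : ∀ C ∈ c, C ⊆ domT S.n) :
    S.Kr_t ψ K (trS_t S.n v Y) (c.image (trS_t S.n v)) W = S.Kr_t (S.ψy_t ψ v) (S.Ky_t K v) Y c (shT S.n v W) := by
  have i := In.sh_inj_t hn v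
  have a : S.Din_t Y ⊆ domT S.n := (filter_subset _ _).trans hY
  have e : S.Din_t (trS_t S.n v Y) = (S.Din_t Y).image (tp_t S.n v) := by
    rw [Sd.Din_t, Sd.Din_t, trS_t, filter_image]
    congr 1
    refine filter_congr fun y _ => ?_
    rw [← image_singleton (tp_t S.n v), In.tb_image_t]
    exact image_subset_image_iff_of_injOn i (tb_dom_t hn) hY
  have e1 : ∏ y ∈ S.Din_t (trS_t S.n v Y) \ (c.image (trS_t S.n v)).biUnion id, chi S.p' W y =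
      ∏ y ∈ S.Din_t Y \ c.biUnion id, chi S.p' (sh v W) y := by
    rw [e, trS_bi_t, trS_t, ← image_sdiff_of_inj i a (bi_sub hc),
      prod_image (i.mono (sdiff_subset.trans a))]
    exact prod_congr rfl fun y _ => chi_tp_t _ hW v y
  have e2 := sum_clus_image (sp := S.sp_t) (sp' := S.sp_t) (trO_inj_t hn v) i (fun _ _ => tb_dom_t hn) hY
    (fun o _ => sp_tr_t S v o) fun O => if S.lab_t W O = c.image (trS_t S.n v) then S.wO_t ψ K W O else 0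
  rw [obs_tr_t hn v] at e2
  rw [Sd.Kr_t, Sd.Kr_t, e1, sum_filter, sum_filter, (cq_shT S.n v W).chi, (cq_shT S.n v W).lab_t]
  refine congrArg (· * _) (e2.trans (sum_congr rfl fun O hO => ?_))
  have h := (mem_clus.1 hO).1
  rw [wO_tr_t hn hW hK h, lab_tr_t hn hW h]
  exact if_congr (image_eq_image_iff_of_injOn (trS_inj_t hn v)
    (fun C hC => mem_powerset.2 (lab_dom_t hn C hC)) fun C hC => mem_powerset.2 (hc C hC)) rfl rfl

omit hW

theorem KK_tr_t {o : LP St} (ho : o ∈ lps S.Λ'_t) :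
    S.KK_t (S.ψy_t ψ v) (S.Ky_t K v) o.1 o.2 = trA_t S.n v (S.KK_t ψ K) o.1 o.2 := by
  obtain ⟨h1, -, h2⟩ := mem_lps.1 ho
  funext U
  have a := perT_pc S.n U
  have e : ∀ γ : St → S3, S.Kr_t ψ K (trS_t S.n v o.1) (o.2.image (trS_t S.n v))
      (pcT S.n (gauge Inv.inv (pcsT S.n γ) (shT S.n (-v) (pcT S.n U)))) =
      S.Kr_t (S.ψy_t ψ v) (S.Ky_t K v) o.1 o.2 (gauge Inv.inv (shv v (pcsT S.n γ)) (pcT S.n U)) := fun γ => by
    have a := perT_pc S.n U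
    have b := (PST_pcsT S.n γ).add v
    have c := cq_back S.n (-v) (pcT S.n U)
    rw [neg_neg] at c
    rw [Kr_tr_t hn (Mx.per_pc_t _ _) hK h1 fun C hC => ((mem_fams.1 h2).1 C hC).trans h1,
      Mx.pc_gauge_t (Mx.PS_pcs_t _ _), pc_per_t (a.tr _), shT_gauge]
    exact Kr_ci_t hn (trA_ci_t hK _) _ _ _ _ (c.gauge _) (a.gauge b) (((a.tr _).tr _).gauge b)
  rw [trA_t]
  unfold Sd.KK_t Mx.gav_t Mx.GG
  simp only [e, Mx.pc_gauge_t (Mx.PS_pcs_t S.n _) U]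
  exact (int_tr_t haar hn v fun γ => S.Kr_t (S.ψy_t ψ v) (S.Ky_t K v) o.1 o.2
    (gauge Inv.inv γ (pcT S.n U))).symm

/-! ### locality -/

omit hn hK

variable {ψ' : Lx} {a : ℕ} {X : Finset St}

/-- the data agree near the block at the origin -/
def Ag0_t (S : Sd) (ψ ψ' : Lx) (K K' : Ac) : Prop :=
  (∀ x ∈ box S.l, ψ x = ψ' x) ∧ ∀ X ∈ S.X1s_t, K X ∅ = K' X ∅

theorem sP_ag_t (h : Ag0_t S ψ ψ' K K') : S.sP ψ = S.sP ψ' :=
  funext₂ fun _ _ => sum_congr rfl fun x hx => by rw [h.1 x hx]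

theorem pz_ag_t (h : Ag0_t S ψ ψ' K K') : S.pz ψ = S.pz ψ' := by
  unfold Sd.pz Sd.pzr
  rw [sP_ag_t h]

theorem fm_ag_t (h : Ag0_t S ψ ψ' K K') : S.fm ψ = S.fm ψ' := by
  unfold Sd.fm
  rw [sP_ag_t h, pz_ag_t h]

theorem Pl_ag_t (h : Ag0_t S ψ ψ' K K') : S.Pl_t ψ K = S.Pl_t ψ' K' := funext fun B => by
  rw [Sd.Pl_t, Sd.Pl_t, pz_ag_t h, sum_congr rfl fun X hX => by rw [Sd.Fs_congr_t (h.2 X hX)]]

theorem cX_ag_t (h : Ag0_t S ψ ψ' K K') : S.cX_t ψ K = S.cX_t ψ' K' := by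
  rw [Sd.cX_t, Sd.cX_t, pz_ag_t h, sum_congr rfl fun X hX => by rw [Sd.Fs_congr_t (h.2 X hX)]]

theorem X1_lps_t (hX : X ∈ S.X1s_t) : (⟨X, ∅⟩ : LP St) ∈ lps (domT S.nf) :=
  mem_lps.2 ⟨Sd.X1_dom_t hX, image_nonempty.1 ⟨0, (mem_filter.1 hX).2.2⟩, by simp [mem_fams]⟩

variable (h : S.AgD_t Y ψ ψ' K K')
include h

theorem blk_ag_t (hn : Odd S.n) (hy : y ∈ domT S.n) (hY : y ∈ Y) {x : St} (hx : x ∈ box S.l) :
    ψ (x + up S.l y) = ψ' (x + up S.l y) :=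
  h.1 _ (blk_mem_t hn hx hy) (by rwa [yo_add_up, Op.yo_eq_zero.2 hx, zero_add])

theorem Ky_ag_t (hn : Odd S.n) (hX : X ∈ S.X1s_t) (hY : dn_t S.l S.n (trS_t S.nf (up S.l y) X) ⊆ Y) :
    S.Ky_t K y X ∅ = S.Ky_t K' y X ∅ :=
  funext fun _ => congrFun (h.2 _ (trP_mem_t (onf hn) (X1_lps_t hX) _) hY) _

variable (u : S.Nu a)
include u

theorem ag0_t (hy : y ∈ domT S.n) (hY : tb_t S.n S.D0 {y} ⊆ Y) :
    Ag0_t S (S.ψy_t ψ y) (S.ψy_t ψ' y) (S.Ky_t K y) (S.Ky_t K' y) := by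
  have hn := u.ok.odd
  refine ⟨fun x hx => ?_, fun X hX => Ky_ag_t h hn hX (Subset.trans (fun z hz => ?_) hY)⟩
  · rw [Sd.ψy_t, Sd.ψy_t, trL_t, trL_t, rc_eq_t (onf hn) (blk_mem_t hn hx hy)]
    exact blk_ag_t h hn hy (hY (mem_tb_single_t.2 ⟨rc_eq_t hn hy, nearT_t.refl _ _ _⟩)) hx
  · rw [Sd.nf, dn_trS_t, trS_t, dn_t, image_image] at hz
    obtain ⟨x, hx, rfl⟩ := mem_image.1 hz
    exact mem_image.2 ⟨_, add_mem_add (mem_singleton_self y) (Op.mem_fb.1 (Sd.X1_sub_t u hX hx)),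
      by rw [add_comm]; exact (rc_add_rc_t _ _ _).symm⟩

theorem FO_ag_t (hO : O ⊆ S.obs_t) (hY : us S.sp_t O ⊆ Y) : S.FO_t ψ K W O ω = S.FO_t ψ' K' W O ω := by
  have hn := u.ok.odd
  have d : ∀ o ∈ O, ∀ Z : Finset St, S.bs_t o = dn_t S.l S.n Z → dn_t S.l S.n Z ⊆ Y := fun o ho Z e => by
    refine Subset.trans ?_ ((sp_sub_us S.sp_t ho).trans hY)
    rw [Sd.sp_t, e]
    exact sub_tb_t fun x hx => by
      obtain ⟨z, -, rfl⟩ := mem_image.1 hx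
      exact rc_rc_t _ _
  have e1 : ∏ o ∈ olds O, K o.1 o.2 (S.Uv W ω) = ∏ o ∈ olds O, K' o.1 o.2 (S.Uv W ω) :=
    prod_congr rfl fun o ho => congrFun (h.2 o (olds_sub_t hO ho) (d _ (Xp.mem_olds.1 ho) _ rfl)) _
  have e2 : ∏ y ∈ S.Oh_t O, S.hf_t ψ K W ω O y = ∏ y ∈ S.Oh_t O, S.hf_t ψ' K' W ω O y :=
    prod_congr rfl fun y hy => by
      have a := tb_dom_t hn hy
      have b := ag0_t h u a (((tb_mono_t (singleton_subset_iff.2 hy) (by omega)).trans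
        (Xp.tb_Oh_t hO)).trans hY)
      have e : ∀ co U, S.Ib ψ co U y = S.Ib ψ' co U y := fun co U => prod_congr rfl fun x hx => by
        simp only [Ix, Sd.Φ, blk_ag_t h hn a (hY (Xp.Oh_sp_t hO hy)) (mem_filter.1 hx).1]
      simp only [Sd.hf_t, Sd.Φ'_t, Sd.PL_t, e, cX_ag_t b, Pl_ag_t b]
  have e3 : ∏ m ∈ O.toRight, S.jm_t ψ K W ω (S.Oh_t O) m = ∏ m ∈ O.toRight, S.jm_t ψ' K' W ω (S.Oh_t O) m :=
    prod_congr rfl fun m hm => by
      have a := mks_sub_t hO hm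
      have b := mem_toRight.1 hm
      rcases m with y | q | q | Z <;>
        simp only [Sd.mks_t, inl_mem_disjSum, inr_mem_disjSum, mem_product] at a <;>
        simp only [Sd.jm_t]
      · rw [fm_ag_t (ag0_t h u a (((tb_mono_t Subset.rfl (by omega)).trans (sp_sub_us S.sp_t b)).trans hY))]
      · rw [Sd.Fs_congr_t (Ky_ag_t h hn a.2 (d _ b _ rfl))]
  rw [Sd.FO_t, Sd.FO_t, e1, e2, e3]

theorem KK_ag_t : S.KK_t ψ K Y c = S.KK_t ψ' K' Y c := by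
  have e : ∀ W, S.Kr_t ψ K Y c W = S.Kr_t ψ' K' Y c W := fun W =>
    congrArg (· * _) (sum_congr rfl fun O hO => by
      obtain ⟨h1, -, h2⟩ := mem_clus.1 (mem_filter.1 hO).1
      simp only [Sd.wO_t, FO_ag_t h u h1 h2.le])
  simp only [Sd.KK_t, e]

end Sh

variable (c : ℕ)

omit [Tws] in
theorem step_cov_t : ∀ᶠ S in ev c, ∀ [Tws], ∀ b θ k ψ K, S.Sml_t b θ k ψ K → TCov_t S.nf ψ K →
    TCov_t S.n (S.PL_t ψ K) (S.KK_t ψ K) ∧ ∀ y, S.Ey_t ψ K y = S.Ey_t ψ K 0 :=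
  (ev_nu' c 0).mono fun S u _ _ _ _ ψ K s hc => by
    have a : ∀ v, Sh.Ag0_t S (S.ψy_t ψ v) ψ (S.Ky_t K v) K := fun v =>
      ⟨fun x _ => congrFun (hc _).1 x, fun X hX => (hc _).2 _ (Sh.X1_lps_t hX)⟩
    refine ⟨fun v => ⟨funext fun y => (Sh.Pl_ag_t (a _)).trans (Sh.Pl_ag_t (a y)).symm,
      fun o ho => (Sh.KK_tr_t u.ok.odd s.km.ci ho).symm.trans (Sh.KK_ag_t
        ⟨fun x _ _ => congrFun (hc _).1 x, fun o ho _ => (hc _).2 o ho⟩ u)⟩, fun y => ?_⟩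
    rw [Sd.Ey_t, Sd.Ey_t, Sh.cX_ag_t (a y), Sh.cX_ag_t (a 0)]

end Pool.Agent.Lib.MP_7f377f_mp.RG.Q4
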