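import Pool.Agent.Lib.MP_7f377f_mp.G.TsR

/-! Comparison with a weakly coupled lattice theory, uniformly in the positions of the sources. -/

noncomputable section

open Pool.Agent.Lib.MP_7f377f_mp.Jet

set_option linter.unusedSectionVars false
variable [Pool.Agent.Lib.MP_7f377f_mp.GD]

namespace Pool.Agent.Lib.MP_7f377f_mp.YM7

open MeasureTheory Filter Topology Real

/-- comparison of the correlation functions of the families in the class `E` -/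
def Cmp3 [MeasurableSpace SU2] (h : Measure SU2) {ι : Type} (Φ : Filter ι) (n : ι → ℕ)
    [∀ p, NeZero (n p)] (a b : ι → ℝ) (P : ℝ → ℝ → Prop)
    (E : ∀ k, (Fin k → R4 → ℝ) → Prop) (K C : ℕ) : Prop :=
  ∀ δ > 0, ∀ η > 0, ∀ D₀ : ℝ, ∀ᶠ d in 𝓝[>] (0 : ℝ), ∃ X a₀, D₀ ≤ X ∧ P d X ∧ 0 < a₀ ∧
    D₀ ≤ d / a₀ ∧ ∀ᶠ p in Φ, ∃ (n₀ : ℕ) (_ : NeZero n₀) (b₀ γ : ℝ), (X * (d / a₀)) ^ C ≤ b₀ ∧
      2 * b₀ ≤ n₀ ∧ |b₀ / log a₀⁻¹ - 11 * GD.b0 / (48 * π ^ 2)| ≤ η ∧ |γ - 1| ≤ η ∧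
      ∀ k ≤ K, ∀ f : Fin k → R4 → ℝ, Tf f X δ → E k f → X ^ C * (b₀ ^ k *
        |corr h (b p) (n p) (a p) (fun i y => f i (d⁻¹ • y)) -
          γ ^ k * corr h b₀ n₀ a₀ fun i y => f i (d⁻¹ • y)|) ≤ 1

end Pool.Agent.Lib.MP_7f377f_mp.YM7

namespace Pool.Agent.Lib.MP_7f377f_mp.RG.Q4.En

open Finset Real Sg Br YM7 Filter Topology

namespace Gl.Ok

variable {G : Gl} (h : G.Ok) {c C j l J J' : ℕ} {Λ X δ d η D b b' : ℝ}
include h

/-- the exponents of two runs -/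
theorem cmp_two' [NeZero (G.N J)] [NeZero (G.N J')] (hB : pB c C * G.K + pB c C ≤ G.Bk l)
    (hp : G.Pu) (w : G.Lw c l j D η) (V : G.Lv c j l Λ δ d) (Λ1 : 1 ≤ Λ)
    (hX : d * (X + δ + 3) ≤ 100⁻¹) (j0 : 0 < j)
    (hJ : J = G.lJ c l) (t : G.Tu b J) (t' : G.Tu b' J') (hJ' : J ≤ J') :
    ∃ (γ : ℝ) (v : Weak.Site 4 (G.N J)) (v' : Weak.Site 4 (G.N J')), |γ - 1| ≤ η ∧ ∀ k ≤ c,
      ∀ f : Fin k → R4 → ℝ, Tf f X δ → Dia Λ f → ∃ e e' : Finset (Fin k) → ℂ,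
      Red (YM7.ex (Fi.tr haar) b (G.N J)) (tsr X f ((3 ^ G.e J)⁻¹ / d) v)
        (2 ^ (l - j) * G.sg l)⁻¹ (G.mr j (3 ^ (G.e j - 1)) k) e ∧
      Red (YM7.ex (Fi.tr haar) b' (G.N J')) (tsr X f ((3 ^ G.e J')⁻¹ / d) v')
        (2 ^ (l - j) * G.sg l)⁻¹ (G.mr j (3 ^ (G.e j - 1)) k) e' ∧
      ∀ T : Finset (Fin k), 2 ≤ T.card → ‖e T‖ ≤ (2 / G.sg l) ^ T.card ∧
        ‖e' T - γ ^ T.card * e T‖ ≤ (G.Q l ^ pP c)⁻¹ * (2 / G.sg l) ^ T.card := by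
  have o1 : l + G.K0 + 1 ≤ G.lk c l := by
    have := h.K0_le
    unfold lk
    nlinarith [Nat.zero_le (G.K * pT c)]
  have o2 : G.lk c l < G.li c l := Nat.lt_add_of_pos_right (Nat.mul_pos (by norm_num)
    (Nat.mul_pos (by have := h.K0_le; omega) (Nat.succ_pos _)))
  have o3 : G.li c l ≤ J := by rw [hJ, lJ]; omega
  have o4 : l < J := by omega
  have e1 : 3 * 3 ^ (G.e j - 1) = 3 ^ G.e j := by
    rw [← pow_succ', Nat.sub_add_cancel (j0.trans_le h.sch.mono.le_apply)]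
  have hn : G.N j = 3 * G.m * 3 ^ (G.e j - 1) := by rw [N, ← e1]; ring
  have m1 : 1 < 3 * G.m := by have := h.odd.pos; omega
  have : NeZero (3 * G.m) := ⟨by omega⟩
  have a1 : ∀ n, ((3 : ℝ) ^ G.e n)⁻¹ * 3 ^ G.e n = 1 := fun n => inv_mul_cancel₀ (by positivity)
  have w0 := inv_pos.2 (mul_pos (pow_pos (two_pos (α := ℝ)) (l - j)) (h.sg_pos l))
  have e2 : (G.rt J' J : ℝ) * (3 ^ G.e J')⁻¹ = (3 ^ G.e J)⁻¹ := by
    rw [← h.rt_e hJ', mul_inv, mul_inv_cancel_left₀ (rt_pos _ _).ne']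
  obtain ⟨v, hv⟩ : ∃ v : ℕ, |((3 : ℝ) ^ G.e J)⁻¹ * v -
      (3 ^ G.e J)⁻¹ * (G.rt J j * 3 ^ (G.e j - 1) : ℕ) / 2| ≤ d := by
    have := (h.s_le V o4 (a1 J)).1
    rw [div_le_one V.d0] at this
    generalize G.rt J j * 3 ^ (G.e j - 1) = n
    refine ⟨n / 2, ?_⟩
    rw [mul_div_assoc, ← mul_sub, abs_mul, abs_of_pos (by positivity)]
    refine (mul_le_of_le_one_right (by positivity) (abs_le.2 ⟨?_, ?_⟩)).trans this
    · have : ((n : ℕ) : ℝ) ≤ (2 * (n / 2) + 1 : ℕ) := Nat.cast_le.2 (by omega)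
      push_cast at this ⊢
      linarith
    · linarith [Nat.cast_div_le (α := ℝ) (m := n) (n := 2)]
  have hv' : |((3 : ℝ) ^ G.e J')⁻¹ * (G.rt J' J * v : ℕ) -
      (3 ^ G.e J')⁻¹ * (G.rt J' j * 3 ^ (G.e j - 1) : ℕ) / 2| ≤ d := by
    rw [← h.rt_mul (V.le.trans o4.le) hJ']
    rw [← e2] at hv
    refine le_of_eq_of_le ?_ hv
    push_cast
    ring_nf
  have s0 : 0 < ((3 : ℝ) ^ G.e J')⁻¹ / d := div_pos (by positivity) V.d0
  have hJ0 := hJ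
  subst hJ
  obtain ⟨γ, _, _, a2, Y⟩ := h.hy_ex hB hp w t t' hJ'
  refine ⟨γ, Fi.cst _ fun _ => v, Fi.cst _ fun _ => (G.rt J' (G.lJ c l) * v : ℕ),
    a2.trans w.2.2.2.2.2.1, fun k hk f H hD => ?_⟩
  obtain ⟨g1, g2, g3, g4⟩ := h.geo_ts' V (o4.trans_le hJ') (a1 J') Λ1 hX hn e1.ge hk H hD hv' rfl
  have a5 : 2 * X + 2 * ((3 ^ G.e J')⁻¹ / d) < (3 ^ G.e J')⁻¹ / d * G.N J' := by
    have a3 : (3 : ℝ) ^ G.e J' ≤ G.N J' := by
      exact_mod_cast Nat.le_mul_of_pos_left _ h.odd.pos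
    have a4 := mul_le_mul_of_nonneg_left a3 s0.le
    rw [div_mul_eq_mul_div, a1, div_le_iff₀ V.d0] at a4
    nlinarith [(h.s_le V (o4.trans_le hJ') (a1 J')).1, V.d0, H.one, H.pos]
  have a6 : ∀ i, symF (tsr X f ((3 ^ G.e (G.lJ c l))⁻¹ / d) (Fi.cst (G.N (G.lJ c l)) fun _ => v) i) =
      fun z _ _ => G.fd J' (G.lJ c l) (prf (G.N J') X f ((3 ^ G.e J')⁻¹ / d)
        (fun _ => (G.rt J' (G.lJ c l) * v : ℕ)) i) z := fun i => by
    rw [show (fun _ => ((G.rt J' (G.lJ c l) * v : ℕ) : ℤ)) =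
      (G.rt J' (G.lJ c l) : ℤ) • (fun _ => (v : ℤ) : St) from
      funext fun _ => Nat.cast_mul .., fd_prf h hJ', ← mul_div_assoc, e2]
    rfl
  obtain ⟨Z, Z', z1, z2, z3⟩ := h.cmp_core
    (F := tsr X f ((3 ^ G.e (G.lJ c l))⁻¹ / d) (Fi.cst _ fun _ => v))
    (g := prf _ X f _ fun _ => (G.rt J' (G.lJ c l) * v : ℕ)) hp t t' (h.tv_all hp t)
    (h.tv_all hp t') (Nat.le_sub_of_add_le w.1) (Nat.sub_le _ _) (by omega) o2 o3 hJ' Y
    (mul_pos four_pos s0) (by linarith [h.s_rt V (o4.trans_le hJ') (a1 J')])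
    (fun _ => prf_lip H s0 a5 _) (fun _ _ => prf_le H _ _) (fun _ => rfl) a6
    (fun _ => Subset.rfl) ((Fintype.card_fin k).trans_le hk) g1
    (g2 _ o1 (by omega) (h.lw_win hB (by omega) (by omega)).1) g3 g4 (inv_inv _).le
    (h.er_le hB w (V.big.trans (h.L_mono V.le)) (by omega) (mul_pos four_pos s0).le
      (by linarith [h.s_rt V (o4.trans_le hJ') (a1 J')]))
  exact ⟨_, _, h.red_run' V o4 (a1 _) Λ1 hX hn e1.ge t hp
    (h.tv_all hp t) w0 (inv_inv _).le m1 hk H hD hv z1, h.red_run' V (o4.trans_le hJ') (a1 _) Λ1 hX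
    hn e1.ge t' hp (h.tv_all hp t') w0 (inv_inv _).le m1 hk H hD hv' z2, z3⟩

/-- levels near the scale `d` are comparable -/
theorem Q_near {i : ℕ} (h1 : 1 ≤ d * 3 ^ G.e l) (hc : 2 * (G.K * c) ≤ G.Bk l)
    (h2 : d * 3 ^ G.e i ≤ G.Q i ^ c) : G.Q i ≤ G.Q l ^ 2 := by
  rcases le_total i l with e | e
  · exact (h.Q_mono e).trans (le_self_pow₀ (h.Q1 l) two_ne_zero)
  refine (h.win1 e le_rfl ?_).2.1
  have B := h.B_mono e
  by_contra! u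
  have a1 : (G.rt i l : ℝ) ≤ G.Q i ^ c := by
    rw [← h.rt_e e, mul_left_comm] at h2
    exact (le_mul_of_one_le_right (Nat.cast_nonneg _) h1).trans h2
  have a2 : G.L l ^ (i - l) ≤ (3 ^ (i - l) * G.L l) ^ (G.K * c) := by
    rw [Q, ← pow_mul] at a1
    exact (h.le_rt l e).trans ((by exact_mod_cast a1 : _ ≤ G.L i ^ (G.K * c)).trans
      (Nat.pow_le_pow_left (h.L_le e) _))
  have a3 : (3 ^ (G.K * c)) ^ 2 ≤ G.L l := by
    rw [← pow_mul]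
    exact (Nat.pow_le_pow_left (by norm_num) _).trans (h.pow_L l (by omega))
  have L := h.L_big l
  generalize G.K * c = q at *
  have a4 : (G.L l ^ (i - l)) ^ 2 ≤ G.L l ^ (i - l + 2 * q) := by
    refine (Nat.pow_le_pow_left a2 2).trans ?_
    rw [mul_pow, mul_pow, ← pow_mul (G.L l), pow_add, mul_comm q 2, pow_right_comm 3,
      pow_right_comm _ _ 2]
    exact Nat.mul_le_mul_right _ (Nat.pow_le_pow_left a3 _)
  rw [← pow_mul, Nat.pow_le_pow_iff_right (by omega)] at a4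
  omega

theorem ev_sm (C : ℕ) {ε : ℝ} (ε0 : 0 < ε) : ∀ᶠ l in atTop, G.Q l ^ C ≤ ε * 3 ^ G.e l := by
  filter_upwards [h.sch.Btop.eventually_ge_atTop (G.K * C + 1), h.ev_L ε⁻¹] with l a1 a2
  have := (h.Lbk l a1).trans (h.b_e l)
  rw [← inv_mul_le_iff₀ ε0, Q, ← pow_mul]
  refine le_trans ?_ this
  rw [pow_succ']
  exact mul_le_mul_of_nonneg_right a2 (by positivity)

end Gl.Ok

theorem cmp3_main (G : Gl) (β : ℕ × ℕ → ℝ) (o : G.Oks) (hβ : G.Tus β) (q K C : ℕ) :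
    Cmp3 (Fi.tr haar) (⊤ ×ˢ atTop) G.nn G.aa β
      (fun d X => ∀ l, d * 3 ^ G.e l ≤ G.Q l ^ q → G.Q l ^ q ≤ X) (fun _ => Dia 2) K C := by
  intro δ δ0 η η0 D
  have : (Fi.tr haar).IsHaarMeasure := (inferInstance : haar.IsHaarMeasure)
  have o0 := (o 0).1
  obtain ⟨x, hx⟩ : ∃ x, x = 2 * q + 1 := ⟨_, rfl⟩
  obtain ⟨c, hc⟩ : ∃ c, c = K + x * (K + C) := ⟨_, rfl⟩
  obtain ⟨j, j0, j1⟩ := ((eventually_gt_atTop 0).and
    (o0.L_nat.eventually_ge_atTop (1000 * 3 ^ c))).exists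
  choose C1 C0 h1 using fun k => cmp_pair (h := Fi.tr haar) (Fin k) (G.mr j (3 ^ (G.e j - 1)) k)
  have K1 : 120 * (G.K0 + 1) ≤ G.K := o0.K0_le
  filter_upwards [o0.ev_lv one_le_two δ0 j1 ((o0.lw_ev c j D (lt_min η0 one_pos)).and
    ((o0.sch.Btop.eventually_ge_atTop (pB c (2 * C) * G.K + pB c (2 * C) + 2 * (G.K * q) +
      G.K * (x * (2 * C)) + 1)).and ((o0.ev_sm (x + 2) (ε := 100⁻¹) (by norm_num)).and
      ((o0.ev_L (δ + 4)).and (o0.Q_top.eventually_ge_atTop (∑ k ∈ range (K + 1), C1 k))))))]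
    with d ⟨l, ⟨w, hB, s1, s2, s3⟩, V⟩
  have q0 : 0 < G.Q l := o0.Q0 l
  have q1 : 1 ≤ G.Q l := o0.Q1 l
  have L1 : (1 : ℝ) ≤ G.L l := le_trans (by norm_num) (o0.L1 l)
  have LQ : (G.L l : ℝ) ≤ G.Q l := o0.LQ l
  have L2 : (2 : ℝ) ≤ G.L l := le_trans (by norm_num) (o0.L1 l)
  replace hB : pB c (2 * C) * G.K + pB c (2 * C) + 2 * (G.K * q) + G.K * (x * (2 * C)) + 1 ≤
    G.Bk l := hB
  replace s1 : G.Q l ^ (x + 2) ≤ 100⁻¹ * 3 ^ G.e l := s1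
  replace s2 : δ + 4 ≤ G.L l := s2
  have x1 : G.Q l ≤ G.Q l ^ x := le_self_pow₀ q1 (by omega)
  have hX : d * (G.Q l ^ x + δ + 3) ≤ 100⁻¹ := by
    refine le_of_mul_le_mul_right (le_trans ?_ s1) (pow_pos three_pos _)
    have a1 : d * 3 ^ G.e l ≤ G.Q l := V.up.trans (pow_le_pow_right₀ L1
      (show G.K0 + 2 ≤ G.K by omega))
    rw [mul_right_comm, pow_succ', pow_succ']
    refine mul_le_mul a1 ?_ (by positivity) q0.le
    nlinarith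
  have o1 : l < G.lJ c l := by unfold Gl.lJ Gl.li Gl.lk; omega
  refine ⟨G.Q l ^ x, (3 ^ G.e (G.lJ c l))⁻¹, (w.2.2.2.2.1.trans (o0.LQ l)).trans x1, fun i hi => ?_,
    inv_pos.2 (pow_pos three_pos _), ?_, ?_⟩
  · refine (pow_le_pow_left₀ (o0.Q0 i).le (o0.Q_near V.one (show 2 * (G.K * q) ≤ G.Bk l by omega) hi) q).trans ?_
    rw [← pow_mul]
    exact pow_le_pow_right₀ q1 (by omega)
  · rw [div_inv_eq_mul]
    exact w.2.2.2.2.1.trans (o0.d_big ⟨V.1, V.2, V.3, V.4, V.5, V.6, V.7, V.8⟩ o1)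
  filter_upwards [tendsto_snd.eventually_ge_atTop (G.lJ c l)] with p hp
  obtain ⟨h, pu⟩ := o p.1
  obtain ⟨b, t⟩ := h.run (G.lJ c l)
  have V' : (G.wm p.1).Lv c j l 2 δ d := ⟨V.1, V.2, V.3, V.4, V.5, V.6, V.7, V.8⟩
  have hB' : pB c (2 * C) * G.K + pB c (2 * C) ≤ G.Bk l := by omega
  obtain ⟨γ, v, v', a1, a2⟩ := h.cmp_two' hB' pu w V' one_le_two hX j0 rfl t (hβ p) hp
  obtain ⟨b1, b2⟩ := h.top_two t
  have b0 := t.b0
  refine ⟨_, inferInstance, b, γ, ?_, b2, ?_, a1.trans (min_le_left _ _), fun k hk f H hD => ?_⟩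
  · rw [div_inv_eq_mul]
    have u1 := h.lw_pow hB' le_rfl V'.d0.le (V'.up.trans_eq (pow_succ' ..))
    have u2 : 2 * (G.Q l ^ x) ^ (2 * C) ≤ G.bb (G.lJ c l) := by
      refine le_trans ?_ ((o0.Lbk l (i := G.K * (x * (2 * C)) + 1) (show _ ≤ G.Bk l by omega)).trans
        (o0.b_mono o1.le))
      rw [Gl.Q, ← pow_mul, ← pow_mul, pow_succ']
      exact mul_le_mul_of_nonneg_right L2 (by positivity)
    refine le_trans ?_ (h.top_half t)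
    rw [mul_comm 2 C, pow_mul] at u1 u2
    change 2 * ((d * 3 ^ G.e (G.lJ c l)) ^ C) ^ 2 ≤ G.bb (G.lJ c l) at u1
    change _ ≤ G.bb (G.lJ c l) / 2
    rw [mul_pow]
    nlinarith [sq_nonneg ((G.Q l ^ x) ^ C - (d * 3 ^ G.e (G.lJ c l)) ^ C)]
  · rw [inv_inv]
    have := t.v _ le_rfl
    rw [Gl.zz_top] at this
    exact (w.2.2.2.2.2.2 _ b o1.le this).trans (min_le_left _ _)
  obtain ⟨e, e', r1, r2, r3⟩ := a2 k (by omega) f H hD
  have b4 : b ≤ 4 * G.bb l := b1.trans (by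
    linarith [show (G.wm p.1).bb ((G.wm p.1).lJ c l) ≤ 2 * G.bb l from
      (h.lw_win hB' o1.le le_rfl).2.2, show (G.wm p.1).bb ((G.wm p.1).lJ c l) =
        (G.wm p.1).bb (G.lJ c l) from rfl])
  obtain ⟨c1, c2, c3, c4, -⟩ := h.lw_par w (Nat.zero_le c) b0 b4
  have u := h1 k r2 r1 c1 c2 c3 c4 (by
    linarith [abs_sub_abs_le_abs_sub γ 1, abs_one (α := ℝ), a1.trans (min_le_right _ _)]) r3
  rw [H.corr (n := G.nn p) _ _ _ _ v', H.corr (n := (G.wm p.1).N (G.lJ c l)) _ _ _ _ v, gcorr_eq,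
    gcorr_eq, mul_left_comm (γ ^ k), ← mul_sub, abs_mul, abs_of_pos (by positivity)]
  rw [Fintype.card_fin] at u
  have a : b * (2 / G.sg l) ≤ G.Q l ^ 1201 := by
    have bl : 0 < G.bb l := o0.b0 l
    rw [Gl.sg, div_div_eq_mul_div, ← mul_div_assoc, div_le_iff₀ bl, pow_succ _ 1200]
    nlinarith [mul_le_mul_of_nonneg_left b4 (pow_pos q0 1200).le, mul_le_mul_of_nonneg_left
      (show 8 ≤ G.Q l from o0.cQ l (by norm_num)) (mul_pos (pow_pos q0 1200) bl).le]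
  have a' : C1 k ≤ G.Q l := (single_le_sum (fun i _ => C0 i) (mem_range.2 (by omega))).trans s3
  have c2' : 0 < 2 / G.sg l := c2
  calc _ ≤ (G.Q l ^ x) ^ C * (b ^ k * ((G.Q l ^ x) ^ k * (C1 k * ((G.Q l ^ pP c)⁻¹ *
        (2 / G.sg l) ^ k)))) := by gcongr; exact u
    _ = (G.Q l ^ x) ^ (k + C) * (b * (2 / G.sg l)) ^ k * C1 k / G.Q l ^ pP c := by ring
    _ ≤ (G.Q l ^ x) ^ (K + C) * (G.Q l ^ 1201) ^ K * G.Q l / G.Q l ^ pP c := by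
      have := C0 k
      have := one_le_pow₀ (n := x) q1
      gcongr
      exact (pow_le_pow_left₀ (by positivity) a k).trans (pow_le_pow_right₀ (one_le_pow₀ q1) hk)
    _ ≤ 1 := by
      rw [div_le_one (by positivity), ← pow_mul, ← pow_mul, ← pow_add, ← pow_succ]
      exact pow_le_pow_right₀ q1 (by unfold pP; omega)

end Pool.Agent.Lib.MP_7f377f_mp.RG.Q4.En
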