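import Pool.Agent.Lib.MP_7f377f_mp.G.TsP

/-! Centred clusters of free lattice fields. -/

noncomputable section

namespace Pool.Agent.Lib.MP_7f377f_mp.Ope

open MeasureTheory Filter Topology Set Real YM7 Weak Metric
open Lb (Lab Pl lq tm nc Gd ex)
open YM5 (pt)

set_option linter.unusedSectionVars false

section grid

variable {ι : Type} [Fintype ι] [DecidableEq ι] {ε : ι → ℝ} {o : ι → R4}

theorem tsum_box (B : Finset (Fin 4 → ℤ)) {G : (ι → Fin 4 → ℤ) → ℝ}
    (h : ∀ z, G z ≠ 0 → ∀ i, z i ∈ B) : ∑' z, G z = ∑ z : ι → B, G fun i => z i := by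
  rw [← tsum_fintype (L := SummationFilter.unconditional _)]
  exact (Function.Injective.tsum_eq (g := fun (z : ι → B) i => (z i : Fin 4 → ℤ))
    (fun x y e => funext fun i => Subtype.ext (congrFun e i))
    fun z hz => ⟨fun i => ⟨z i, h z hz i⟩, rfl⟩).symm

/-- corners of the cubes of shifted lattices -/
def fm (ε : ι → ℝ) (o y : ι → R4) (i : ι) (l : Fin 4) : ℤ := ⌊(y i l + o i l) / ε i⌋

theorem meas_fm : Measurable (fm ε o) :=
  measurable_pi_lambda _ fun i => measurable_pi_lambda _ fun l =>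
    Measurable.floor (Measurable.div_const (by fun_prop) _)

theorem integral_fm (hε : ∀ i, 0 < ε i) (g : (ι → Fin 4 → ℤ) → ℝ)
    (hg : Integrable fun y => g (fm ε o y)) : ∫ y, g (fm ε o y) = (∏ i, ε i ^ 4) * ∑' z, g z := by
  have hm := (meas_fm (ε := ε) (o := o)).aemeasurable (μ := volume)
  have h0 : AEStronglyMeasurable g (Measure.map (fm ε o) volume) :=
    (Measurable.of_discrete (f := g)).aestronglyMeasurable
  rw [← integral_map hm h0, integral_countable ((integrable_map_measure h0 hm).2 hg),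
    ← tsum_mul_left]
  refine tsum_congr fun z => ?_
  have e : fm ε o ⁻¹' {z} = univ.pi fun i => WithLp.ofLp ⁻¹'
      (univ.pi fun l => Ico (z i l * ε i - o i l) ((z i l + 1) * ε i - o i l)) := by
    ext y
    simp only [mem_preimage, mem_singleton_iff, funext_iff, fm, Int.floor_eq_iff, Set.mem_pi,
      mem_univ, true_imp_iff, mem_Ico, le_div_iff₀ (hε _), div_lt_iff₀ (hε _), sub_le_iff_le_add,
      lt_sub_iff_add_lt]
  rw [Measure.real, Measure.map_apply meas_fm (measurableSet_singleton z), e, volume_pi_pi,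
    smul_eq_mul, ENNReal.toReal_prod]
  refine congrArg (· * _) (Finset.prod_congr rfl fun i _ => ?_)
  rw [(PiLp.volume_preserving_ofLp (Fin 4)).measure_preimage
    (MeasurableSet.univ_pi fun _ => measurableSet_Ico).nullMeasurableSet, Real.volume_pi_Ico]
  simp only [add_mul, one_mul, sub_sub_sub_cancel_right, add_sub_cancel_left, Finset.prod_const,
    Finset.card_univ, Fintype.card_fin, ENNReal.toReal_pow, ENNReal.toReal_ofReal (hε i).le]

theorem nrm4 {K : ι → ι → Pl → Pl → ℝ} {M : ℝ} (M0 : 0 ≤ M) (h : ∀ i j a b, |K i j a b| ≤ M) :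
    ‖K‖ ≤ M := (pi_norm_le_iff_of_nonneg M0).2 fun i => (pi_norm_le_iff_of_nonneg M0).2 fun j =>
      (pi_norm_le_iff_of_nonneg M0).2 fun a => (pi_norm_le_iff_of_nonneg M0).2 (h i j a)

end grid

section clusters

variable {S : Type} [Fintype S] [DecidableEq S] {κ : S → Type} [∀ s, Fintype (κ s)]
  [∀ s, DecidableEq (κ s)] {J : Finset S} {Λ δ w : ℝ} {u : (Σ s, κ s) → R4 → ℝ} {ζ : S → R4}

theorem sum_split {V : Type} [Fintype V] (T : Finset S) (a : ∀ s, (κ s → V) → ℝ)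
    (b : ((Σ s : T, κ s) → V) → ℝ) : (∏ s ∈ Tᶜ, ∑ z, a s z) * ∑ z, b z =
    ∑ z : (Σ s, κ s) → V, (∏ s ∈ Tᶜ, a s fun x => z ⟨s, x⟩) * b fun q => z ⟨q.1, q.2⟩ := by
  rw [← Finset.prod_coe_sort, Fintype.prod_sum, Finset.sum_mul_sum, ← Fintype.sum_prod_type']
  refine (Fintype.sum_bijective (fun z : (Σ s, κ s) → V =>
    (fun (s : ↥Tᶜ) x => z ⟨s, x⟩, fun q : Σ s : T, κ s => z ⟨q.1, q.2⟩))
    ⟨fun z z' e => funext fun p => ?_, fun c => ⟨fun p => if h : p.1 ∈ T then c.2 ⟨⟨p.1, h⟩, p.2⟩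
      else c.1 ⟨p.1, Finset.mem_compl.2 h⟩ p.2, ?_⟩⟩ _ _ fun z => ?_).symm
  · by_cases h : p.1 ∈ T
    · exact congrFun (congrArg Prod.snd e) ⟨⟨p.1, h⟩, p.2⟩
    · exact congrFun (congrFun (congrArg Prod.fst e) ⟨p.1, Finset.mem_compl.2 h⟩) p.2
  · exact Prod.ext (funext fun s => funext fun x => dif_neg (Finset.mem_compl.1 s.2))
      (funext fun q => dif_pos q.1.2)
  · rw [← Finset.prod_coe_sort]

theorem prod_split {M : Type} [CommMonoid M] (T : Finset S) (a : (Σ s, κ s) → M) :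
    (∏ s ∈ Tᶜ, ∏ x, a ⟨s, x⟩) * ∏ q : Σ s : T, κ s, a ⟨q.1, q.2⟩ = ∏ p, a p := by
  rw [Fintype.prod_sigma, Fintype.prod_sigma, Finset.prod_coe_sort T fun s => ∏ x, a ⟨s, x⟩,
    Finset.prod_compl_mul_prod]

/-- the rescaled loop sum of centred clusters -/
def Hk (w τ : ℝ) (k : (Σ s, κ s) → (Σ s, κ s) → Pl → Pl → ℝ) : ℝ := ∑ σ : Equiv.Perm (Σ s, κ s),
  if Gd σ then τ ^ ((ex σ).card - Fintype.card S) * (w ^ nc σ * tm k σ) else 0

theorem Hk_cont : Continuous fun v : ℝ × ((Σ s, κ s) → (Σ s, κ s) → Pl → Pl → ℝ) =>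
    Hk w v.1 v.2 := by
  refine continuous_finsetSum _ fun σ _ => ?_
  split_ifs
  · unfold tm
    fun_prop
  · exact continuous_const

theorem Hk_meas {X : Type} [MeasurableSpace X] {τ : ℝ}
    {k : X → (Σ s, κ s) → (Σ s, κ s) → Pl → Pl → ℝ} (h : ∀ p q a b, Measurable fun x => k x p q a b) :
    Measurable fun x => Hk w τ (k x) := by
  refine Finset.measurable_sum _ fun σ _ => ?_
  split_ifs
  · exact ((Finset.measurable_sum _ fun _ _ =>
      Finset.measurable_prod _ fun _ _ => h _ _ _ _).const_mul _).const_mul _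
  · exact measurable_const

/-- the differences of the limit positions -/
def df (J : Finset S) (ζ : S → R4) (y : (Σ s, κ s) → R4) (p q : Σ s, κ s) : R4 :=
  if p.1 = q.1 then y q - y p else
    (if q.1 ∈ J then y q else ζ q.1) - if p.1 ∈ J then y p else ζ p.1

theorem frL_Hk (o : ∀ s, κ s) (hJ : ∀ s ∈ J, Subsingleton (κ s)) (hw : w ≠ 0)
    (y : (Σ s, κ s) → R4) : Lb.frL w (fun s => Lb.B w fun x => y ⟨s, x⟩) (zp J o ζ y) =
      Hk w 0 fun p q => (2⁻¹ : ℝ) • Lb.pr (df J ζ y p q) := by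
  have e : ∀ p : Σ s, κ s, zp J o ζ y p.1 = if p.1 ∈ J then y p else ζ p.1 := fun p => by
    unfold zp
    split_ifs with h
    · rw [(hJ _ h).elim (o p.1) p.2]
    · rfl
  rw [← Lb.frH_zero hw, Lb.frH, Hk, zero_pow four_ne_zero]
  congr! 6 with σ
  funext p q
  simp only [Lb.kH, df, e, zero_smul, add_zero, apply_ite Lb.pr]

theorem df_near {y z : (Σ s, κ s) → R4} {r : ℝ} (h : ∀ p, ‖y p - z p‖ ≤ r) (p q : Σ s, κ s) :
    ‖df J ζ y p q - df J ζ z p q‖ ≤ 2 * r := by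
  have r0 := (norm_nonneg _).trans (h p)
  have a : ∀ p, ‖(if p.1 ∈ J then y p else ζ p.1) - if p.1 ∈ J then z p else ζ p.1‖ ≤ r := fun p => by
    split_ifs
    · exact h p
    · rwa [sub_self, norm_zero]
  unfold df
  by_cases e : p.1 = q.1
  · rw [if_pos e, if_pos e, sub_sub_sub_comm, two_mul]
    exact (norm_sub_le _ _).trans (add_le_add (h q) (h p))
  · rw [if_neg e, if_neg e, sub_sub_sub_comm, two_mul]
    exact (norm_sub_le _ _).trans (add_le_add (a q) (a p))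

theorem df_le {y : (Σ s, κ s) → R4} {r : ℝ} (h : ∀ p, ‖y p‖ ≤ r) (h' : ∀ s, ‖ζ s‖ ≤ r)
    (p q : Σ s, κ s) : ‖df J ζ y p q‖ ≤ 2 * r := by
  have a : ∀ p, ‖if p.1 ∈ J then y p else ζ p.1‖ ≤ r := fun p => by
    split_ifs
    exacts [h p, h' _]
  rw [df, two_mul]
  by_cases e : p.1 = q.1
  · rw [if_pos e]
    exact (norm_sub_le _ _).trans (add_le_add (h q) (h p))
  · rw [if_neg e]
    exact (norm_sub_le _ _).trans (add_le_add (a q) (a p))

theorem Clq.us_sup (H : Clq J Λ δ u ζ) {L : ℝ} (L0 : 0 < L) (p : Σ s, κ s) (y : R4)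
    (h : us J u 1 L ζ p y ≠ 0) : ‖y‖ ≤ (L + 1) * Λ := by
  have := H.one
  unfold us at h
  split_ifs at h
  · have := H.sup _ _ h
    rw [norm_smul, norm_inv, Real.norm_of_nonneg L0.le, inv_mul_le_iff₀ L0] at this
    linarith
  · have e := H.sup _ _ h
    rw [inv_one, one_smul] at e
    have := norm_sub_norm_le y (L • ζ p.1)
    rw [norm_smul, Real.norm_of_nonneg L0.le] at this
    linarith [mul_le_mul_of_nonneg_left (H.pos p.1) L0.le]

end clusters

variable [GD] {κ₀ : Fin 4 → Fin 4 → (Fin 4 → ℤ) → ℝ}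

theorem fm_near {ι : Type} {ε : ι → ℝ} {o : ι → R4} (hε : ∀ i, 0 < ε i) (y : ι → R4) (i : ι) :
    ‖pt (ε i) (fm ε o y i) - o i - y i‖ ≤ 2 * ε i := by
  rw [← dist_eq_norm]
  refine dist_le_two fun l => ?_
  have h1 := (le_div_iff₀ (hε i)).1 (Int.floor_le ((y i l + o i l) / ε i))
  have h2 := (div_lt_iff₀ (hε i)).1 (Int.lt_floor_add_one ((y i l + o i l) / ε i))
  simp only [pt, fm, PiLp.sub_apply, abs_le]
  constructor <;> linarith

theorem kL_near (hκ : YM5.Green κ₀) {δ ρ : ℝ} (R : ℝ) (δ0 : 0 < δ) (ρ0 : 0 < ρ) :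
    ∀ᶠ r in 𝓝[>] (0 : ℝ), ∀ ε v x, 0 < ε → ε ≤ r → δ ≤ ‖x‖ → ‖x‖ ≤ R → ‖pt ε v - x‖ ≤ r →
      ∀ a b, |((ε ^ 4)⁻¹ • kL κ₀ v) a b - ((2⁻¹ : ℝ) • Lb.pr x) a b| ≤ ρ := by
  by_contra c
  obtain ⟨r, r0, c⟩ := exists_seq_forall_of_frequently (not_eventually.1 c)
  simp only [not_forall, not_le, exists_prop] at c
  choose ε v x h1 h2 h3 h4 h5 a b h6 using c
  obtain ⟨⟨y, a', b'⟩, -, φ, φ1, φ2⟩ := ((isCompact_closedBall (0 : R4) R).prod
    (isCompact_univ (X := Pl × Pl))).tendsto_subseq (x := fun n => (x n, a n, b n))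
      fun n => ⟨mem_closedBall_zero_iff.2 (h4 n), mem_univ _⟩
  have t0 := (r0.mono_right nhdsWithin_le_nhds).comp φ1.tendsto_atTop
  have t1 : Tendsto (fun n => x (φ n)) atTop (𝓝 y) := (continuous_fst.tendsto _).comp φ2
  have t2 : ∀ᶠ n in atTop, (a (φ n), b (φ n)) = (a', b') := by
    have := (continuous_snd.tendsto _).comp φ2
    rwa [nhds_discrete, tendsto_pure] at this
  have y0 : y ≠ 0 := norm_pos_iff.1 (δ0.trans_le (ge_of_tendsto' t1.norm fun n => h3 _))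
  have t3 : Tendsto (fun n => pt (ε (φ n)) (v (φ n))) atTop (𝓝 y) := by
    simpa only [sub_add_cancel, zero_add] using (squeeze_zero_norm (fun n => h5 (φ n)) t0).add t1
  have t4 := ((hκ.kM y0 (fun n => h1 (φ n)) (squeeze_zero (fun n => (h1 _).le) (fun n => h2 _) t0)
    (fun l => ((show Continuous fun w : R4 => w l by fun_prop).tendsto y).comp t3) a' b').const_mul
    (π ^ 2 / 2)).sub (((continuousAt_pi.1 (continuousAt_pi.1 (Lb.pr_cont y0) a') b').tendsto.comp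
      t1).const_mul 2⁻¹)
  have e : π ^ 2 / 2 * maxwell y a' b' - 2⁻¹ * Lb.pr y a' b' = 0 := by
    rw [YM5.maxwell_four]
    simp only [Lb.pr, Matrix.of_apply, YG.mirror, YM5.mirror]
    field_simp
    ring
  rw [e] at t4
  obtain ⟨n, e1, e2, e3⟩ := (t2.and ((t3.eventually_ne y0).and
    (t4.abs.eventually_lt_const (by simpa using ρ0)))).exists
  have v0 : v (φ n) ≠ 0 := fun e => e2 (by ext l; simp [pt, e])
  have := h6 (φ n)
  rw [(Prod.mk.inj e1).1, (Prod.mk.inj e1).2, kL, if_neg v0] at this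
  refine this.not_gt (lt_of_eq_of_lt (congrArg abs ?_) e3)
  simp only [Matrix.smul_apply, Matrix.of_apply, smul_eq_mul, Function.comp]
  ring

theorem pr_bd {δ : ℝ} (R : ℝ) (δ0 : 0 < δ) : ∃ M, 0 ≤ M ∧ ∀ x : R4, δ ≤ ‖x‖ → ‖x‖ ≤ R →
    ∀ a b, |((2⁻¹ : ℝ) • Lb.pr x) a b| ≤ M := by
  obtain ⟨M, hM⟩ := ((isCompact_closedBall (0 : R4) R).diff (isOpen_ball (x := 0)
    (ε := δ))).exists_bound_of_continuousOn (f := fun x a b => ((2⁻¹ : ℝ) • Lb.pr x) a b)
    fun x hx => ContinuousAt.continuousWithinAt ((Lb.pr_cont fun e =>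
      hx.2 (e ▸ mem_ball_self δ0)).const_smul (2⁻¹ : ℝ))
  exact ⟨max M 0, le_max_right _ _, fun x h1 h2 a b => (norm_le_pi_norm _ b).trans
    ((norm_le_pi_norm _ a).trans ((hM x ⟨mem_closedBall_zero_iff.2 h2, fun e =>
      (mem_ball_zero_iff.1 e).not_ge h1⟩).trans (le_max_left _ _)))⟩

theorem LS_bd (hκ : YM5.Green κ₀) (k : ℕ) {δ : ℝ} (δ0 : 0 < δ) : ∃ M, ∀ᶠ s in 𝓝[>] (0 : ℝ),
    ∀ X, ∀ f : Fin k → R4 → ℝ, Tf f X δ → |LS κ₀ s f| ≤ M * X ^ (5 * k) := by
  obtain ⟨M, M0, hM⟩ := pr_bd δ δ0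
  obtain ⟨N, hN⟩ := (isCompact_closedBall (0 : Fin k → Fin k → Pl → Pl → ℝ)
    (M + 1)).exists_bound_of_continuousOn (f := fun K => lq (GD.d / 2 : ℝ) K)
    (Continuous.continuousOn (by unfold lq tm; fun_prop))
  have N0 := (norm_nonneg _).trans (hN 0 (mem_closedBall_self (by linarith)))
  refine ⟨81 ^ k * N, ?_⟩
  filter_upwards [kL_near hκ δ δ0 one_pos, Ioc_mem_nhdsGT one_pos] with s h1 ⟨s0, s1⟩ X f H
  refine (cnt s0 (s1.trans H.one) (M := (s ^ 4) ^ k * N) (by positivity) H.cube H.bd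
    fun z hz => ?_).trans_eq ?_
  · have e : (fun i j => kL κ₀ (z j - z i)) =
        fun i j => s ^ 4 • (s ^ 4)⁻¹ • kL κ₀ (z j - z i) := by
      simp only [smul_inv_smul₀ (pow_pos s0 4).ne']
    rw [e, Lb.lq_smul fun _ => s ^ 4, Fin.prod_const, abs_mul, abs_of_pos (by positivity)]
    refine mul_le_mul_of_nonneg_left (hN _ (mem_closedBall_zero_iff.2 ?_)) (by positivity)
    have M1 : 0 ≤ M + 1 := by linarith
    refine nrm4 M1 fun i j a b => ?_
    rcases eq_or_ne i j with rfl | c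
    · simpa [kL] using M1
    obtain ⟨l, hl⟩ := H.sep j i c.symm _ _ (hz j) (hz i)
    have n1 : δ ≤ ‖pt s (z j - z i)‖ := hl.trans (le_of_eq_of_le (by simp [pt, ← mul_sub])
      (PiLp.norm_apply_le _ l))
    have n0 := δ0.trans_le n1
    obtain ⟨c, hc⟩ : ∃ c, c = δ / ‖pt s (z j - z i)‖ := ⟨_, rfl⟩
    have c0 : 0 < c := hc ▸ div_pos δ0 n0
    have c1 : c ≤ 1 := hc ▸ (div_le_one n0).2 n1
    have e1 : ‖pt (c * s) (z j - z i)‖ = δ := by
      rw [show pt (c * s) (z j - z i) = c • pt s (z j - z i) by ext l; simp [pt, mul_assoc],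
        norm_smul, Real.norm_of_nonneg c0.le, hc, div_mul_cancel₀ _ n0.ne']
    have e2 := h1 (c * s) (z j - z i) _ (by positivity) (mul_le_of_le_one_left s0.le c1) e1.ge e1.le
      (by simpa using s0.le) a b
    have e3 := hM _ e1.ge e1.le a b
    have e4 := (abs_sub_abs_le_abs_sub _ _).trans e2
    have e5 : ((s ^ 4)⁻¹ • kL κ₀ (z j - z i)) a b =
        c ^ 4 * (((c * s) ^ 4)⁻¹ • kL κ₀ (z j - z i)) a b := by
      simp only [Matrix.smul_apply, smul_eq_mul]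
      field_simp
    rw [e5, abs_mul, abs_of_pos (by positivity)]
    exact (mul_le_of_le_one_left (abs_nonneg _) (pow_le_one₀ c0.le c1)).trans (by linarith)
  · rw [Fintype.card_fin, ← mul_assoc, ← mul_pow, show X * (3 * X / s) ^ 4 * s ^ 4 = 81 * X ^ 5 by
      field_simp; ring]
    ring

variable {S : Type} [Fintype S] [DecidableEq S] {κ : S → Type} [∀ s, Fintype (κ s)]
  [∀ s, DecidableEq (κ s)] {J : Finset S}

theorem cen_sum {F : (Σ s, κ s) → R4 → ℝ} {t R : ℝ} (t0 : 0 < t)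
    (hF : ∀ p y, F p y ≠ 0 → ‖y‖ ≤ R) :
    ∑ T : Finset S, (∏ s ∈ Tᶜ, -LS κ₀ t fun x => F ⟨s, x⟩) *
      (LS κ₀ t fun q : Σ s : T, κ s => F ⟨q.1, q.2⟩) = ∑' z : (Σ s, κ s) → Fin 4 → ℤ,
      (∏ p, F p (pt t (z p))) * Hk (GD.d / 2) 1 fun p q => kL κ₀ (z q - z p) := by
  have hB : ∀ p z, F p (pt t z) ≠ 0 → z ∈ Fintype.piFinset fun _ =>
      Finset.Icc (-⌊R / t⌋) ⌊R / t⌋ := fun p z e => Fintype.mem_piFinset.2 fun l =>
    Finset.mem_Icc.2 (abs_le.1 (Int.le_floor.2 (by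
      have := (PiLp.norm_apply_le _ l).trans (hF p _ e)
      rwa [pt, Real.norm_eq_abs, abs_mul, abs_of_pos t0, ← le_div_iff₀' t0, ← Int.cast_abs] at this)))
  generalize (Fintype.piFinset fun _ : Fin 4 => Finset.Icc (-⌊R / t⌋) ⌊R / t⌋) = B at hB
  have e : ∀ {ι : Type} [Fintype ι] [DecidableEq ι] (e : ι → Σ s, κ s)
      (g : (ι → Fin 4 → ℤ) → ℝ), ∑' z, (∏ i, F (e i) (pt t (z i))) * g z =
      ∑ z : ι → B, (∏ i, F (e i) (pt t (z i))) * g fun i => z i := fun {_} _ _ e g =>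
    tsum_box B (G := fun z => (∏ i, F (e i) (pt t (z i))) * g z) fun z hz i => hB _ _
      (Finset.prod_ne_zero_iff.1 (left_ne_zero_of_mul hz) i (Finset.mem_univ i))
  rw [e fun p => p]
  have e1 := fun T : Finset S => e fun q : Σ s : T, κ s => ⟨q.1, q.2⟩
  have e2 := fun s => e fun x : κ s => ⟨s, x⟩
  simp only [LS, e1, e2, ← Finset.sum_neg_distrib, sum_split, Hk, one_pow, one_mul]
  rw [Finset.sum_comm]
  refine Finset.sum_congr rfl fun z _ => ?_
  rw [← Lb.lq_cen, Finset.mul_sum]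
  refine Finset.sum_congr rfl fun T _ => ?_
  simp only [← mul_neg, Finset.prod_mul_distrib]
  rw [← prod_split T]
  ring

theorem gauss (hκ : YM5.Green κ₀) (o : ∀ s, κ s) (hJ : ∀ s ∈ J, Subsingleton (κ s)) (Λ : ℝ)
    {δ η : ℝ} (δ0 : 0 < δ) (η0 : 0 < η) : ∃ B, ∀ᶠ r in 𝓝[>] (0 : ℝ), ∀ s L : ℝ, 0 < s → s ≤ r →
    r⁻¹ ≤ L → ∀ u ζ, Clq J Λ δ u ζ → |Lm (GD.d / 2) J o u ζ| ≤ B ∧ |L ^ (4 * Jᶜ.card) * ∑ T : Finset S,
      (∏ a ∈ Tᶜ, -LS κ₀ s fun x => us J u 1 L ζ ⟨a, x⟩) *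
        (LS κ₀ s fun q : Σ a : T, κ a => us J u 1 L ζ ⟨q.1, q.2⟩) - Lm (GD.d / 2) J o u ζ| ≤ η := by
  have w0 : (GD.d / 2 : ℝ) ≠ 0 := by
    have : (3 : ℝ) ≤ GD.d := by exact_mod_cast GD.d3
    linarith
  obtain ⟨n, hn⟩ : ∃ n, n = Fintype.card (Σ s, κ s) := ⟨_, rfl⟩
  obtain ⟨M, M0, hM⟩ := pr_bd (2 * (Λ + 1)) (half_pos δ0)
  have hK := isCompact_closedBall (0 : ℝ × ((Σ s, κ s) → (Σ s, κ s) → Pl → Pl → ℝ)) (M + 1)
  obtain ⟨N, hN⟩ := hK.exists_bound_of_continuousOn (Hk_cont (w := GD.d / 2)).continuousOn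
  have N0 := (norm_nonneg _).trans (hN 0 (mem_closedBall_self (by linarith)))
  have hV := (isCompact_closedBall (0 : (Σ s, κ s) → R4) (Λ + 1))
  obtain ⟨V, hV'⟩ : ∃ V, V = volume.real (closedBall (0 : (Σ s, κ s) → R4) (Λ + 1)) := ⟨_, rfl⟩
  have V0 : 0 ≤ V := hV' ▸ measureReal_nonneg
  obtain ⟨θ, θ0, hθ⟩ : ∃ θ > 0, V * ((n * |Λ| ^ n * (|Λ| * 2) * N + |Λ| ^ n) * θ) ≤ η := by
    generalize hc : V * (n * |Λ| ^ n * (|Λ| * 2) * N + |Λ| ^ n) = c
    have : 0 ≤ c := by rw [← hc]; positivity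
    refine ⟨η / (c + 1), by positivity, ?_⟩
    rw [← mul_assoc, hc, ← mul_div_assoc, div_le_iff₀ (by positivity)]
    nlinarith
  obtain ⟨ρ, ρ0, hρ⟩ := Metric.uniformContinuousOn_iff.1
    (hK.uniformContinuousOn_of_continuous (Hk_cont (w := GD.d / 2)).continuousOn) θ θ0
  obtain ⟨r₁, h1, r0 : 0 < r₁⟩ := ((kL_near hκ (2 * (Λ + 1)) (half_pos δ0)
    (lt_min (half_pos ρ0) one_pos)).and self_mem_nhdsWithin).exists
  have ev : ∀ c > 0, ∀ᶠ r in 𝓝[>] (0 : ℝ), r ≤ c := fun c c0 =>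
    mem_of_superset (Ioc_mem_nhdsGT c0) fun _ e => e.2
  refine ⟨V * (Λ ^ n * N), ?_⟩
  filter_upwards [self_mem_nhdsWithin, ev _ (show 0 < r₁ / (2 * |Λ| + 8) by positivity), ev _ θ0,
    ev _ (half_pos ρ0), ev 2⁻¹ (by norm_num), ev (δ / 8) (by positivity)]
    with r (r0' : 0 < r) a1 a2 a3 a4 a5 s L s0 s1 hL u ζ H
  have Λ1 := H.one
  have Λ0 : 0 < Λ := by linarith
  rw [abs_of_pos Λ0] at hθ a1
  rw [le_div_iff₀ (by positivity)] at a1
  have L0 : 0 < L := (inv_pos.2 r0').trans_le hL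
  obtain ⟨t, ht⟩ : ∃ t, t = L⁻¹ := ⟨_, rfl⟩
  have t0 : 0 < t := ht ▸ inv_pos.2 L0
  have t1 : t ≤ r := ht ▸ inv_le_of_inv_le₀ r0' hL
  have tL : t * L = 1 := ht ▸ inv_mul_cancel₀ L0.ne'
  have t4 : t ^ 4 ≤ t := pow_le_of_le_one t0.le (by linarith) four_ne_zero
  let ε : (Σ s, κ s) → ℝ := fun p => if p.1 ∈ J then t * s else s
  let c : (Σ s, κ s) → R4 := fun p => if p.1 ∈ J then 0 else L • ζ p.1
  let m : (Σ s, κ s) → (Σ s, κ s) → ℝ := fun p q => if p.1 = q.1 then s else t * s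
  have ts : t * s ≤ s := mul_le_of_le_one_left s0.le (by linarith)
  have ε0 : ∀ p, 0 < ε p ∧ ε p ≤ s := fun p => by
    simp only [ε]
    split_ifs
    exacts [⟨by positivity, ts⟩, ⟨s0, le_rfl⟩]
  have m0 : ∀ p q, 0 < m p q ∧ m p q ≤ s := fun p q => by
    simp only [m]
    split_ifs
    exacts [⟨s0, le_rfl⟩, ⟨by positivity, ts⟩]
  have e1 : ∀ p z, us J u 1 L ζ p (pt s z) = u p (pt (ε p) z - c p) := fun p z => by
    simp only [us, ε, c]
    split_ifs
    · rw [sub_zero, ← ht]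
      congr 1
      ext l
      simp [pt, mul_assoc]
    · rw [inv_one, one_smul]
  let k : ((Σ s, κ s) → Fin 4 → ℤ) → (Σ s, κ s) → (Σ s, κ s) → Pl → Pl → ℝ := fun z p q =>
    (m p q ^ 4)⁻¹ • kL κ₀ (z q - z p)
  have e2 : ∀ z, L ^ (4 * Jᶜ.card) * Hk (GD.d / 2) 1 (fun p q => kL κ₀ (z q - z p)) =
      (∏ p, ε p ^ 4) * Hk (GD.d / 2) (t ^ 4) (k z) := fun z => by
    have b1 : ∏ p, ε p ^ 4 = (s ^ 4) ^ n * (t ^ 4) ^ J.card := by
      rw [hn, ← Finset.card_univ, ← Finset.prod_const, ← Finset.prod_const,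
        ← Fintype.prod_ite_mem J fun _ => t ^ 4, Fintype.prod_sigma, Fintype.prod_sigma,
        ← Finset.prod_mul_distrib]
      refine Finset.prod_congr rfl fun a _ => ?_
      simp only [ε]
      split_ifs with h
      · have := hJ a h
        rw [Fintype.prod_subsingleton _ (o a), Fintype.prod_subsingleton _ (o a), mul_pow, mul_comm]
      · rw [mul_one]
    simp only [Hk, Finset.mul_sum]
    refine Finset.sum_congr rfl fun σ _ => ?_
    split_ifs with hσ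
    · have b2 : tm (fun p q => kL κ₀ (z q - z p)) σ = (∏ p, m p (σ p) ^ 4) * tm (k z) σ := by
        rw [← Lb.tm_smul fun p q => m p q ^ 4]
        exact Lb.tm_congr fun p => (smul_inv_smul₀ (pow_pos (m0 _ _).1 4).ne' _).symm
      have b3 : ∏ p, m p (σ p) ^ 4 = (s ^ 4) ^ n * (t ^ 4) ^ (ex σ).card := by
        rw [hn, ← Finset.card_univ, ← Finset.prod_const, ← Finset.prod_const,
          ← Fintype.prod_ite_mem (ex σ) fun _ => t ^ 4, ← Finset.prod_mul_distrib]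
        refine Finset.prod_congr rfl fun p _ => ?_
        simp only [m, Lb.ex, Finset.mem_filter_univ, eq_comm (a := p.1), ne_eq, ite_not]
        split_ifs <;> ring
      obtain ⟨j, hj⟩ := Nat.exists_eq_add_of_le hσ.le
      rw [b1, b2, b3, hj, Nat.add_sub_cancel_left, ← Finset.card_add_card_compl J, one_pow]
      have : (t * L) ^ (4 * Jᶜ.card) = 1 := by rw [tL, one_pow]
      linear_combination ((s ^ 4) ^ n * (t ^ 4) ^ (J.card + j) * ((GD.d / 2) ^ nc σ *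
        tm (k z) σ)) * this
    · simp
  let g : ((Σ s, κ s) → Fin 4 → ℤ) → ℝ := fun z =>
    (∏ p, u p (pt (ε p) (z p) - c p)) * Hk (GD.d / 2) (t ^ 4) (k z)
  let Φ : ((Σ s, κ s) → R4) → ℝ := fun y =>
    (∏ p, u p (y p)) * Hk (GD.d / 2) 0 fun p q => (2⁻¹ : ℝ) • Lb.pr (df J ζ y p q)
  have key : ∀ y, ‖g (fm ε c y) - Φ y‖ ≤ (closedBall 0 (Λ + 1)).indicator
      (fun _ => (n * Λ ^ n * (Λ * 2) * N + Λ ^ n) * θ) y ∧
      ‖Φ y‖ ≤ (closedBall 0 (Λ + 1)).indicator (fun _ => Λ ^ n * N) y := fun y => by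
    have n1 := fun p => (fm_near (o := c) (fun p => (ε0 p).1) y p).trans
      (mul_le_mul_of_nonneg_left (ε0 p).2 two_pos.le)
    simp only [g, Φ]
    generalize fm ε c y = z at n1
    obtain ⟨x, hx⟩ : ∃ x : (Σ s, κ s) → R4, x = fun p => pt (ε p) (z p) - c p := ⟨_, rfl⟩
    simp only [← congrFun hx] at n1 ⊢
    by_cases hc : ∃ v : (Σ s, κ s) → R4, (∀ p, u p (v p) ≠ 0) ∧ (v = x ∨ v = y)
    swap
    · have z0 : ∀ v : (Σ s, κ s) → R4, v = x ∨ v = y → ∏ p, u p (v p) = 0 := fun v e =>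
        not_not.1 fun e' => hc ⟨v, fun p => Finset.prod_ne_zero_iff.1 e' p (Finset.mem_univ p), e⟩
      simp only [z0 x (.inl rfl), z0 y (.inr rfl), zero_mul, sub_zero, norm_zero]
      exact ⟨indicator_nonneg (fun _ _ => by positivity) _,
        indicator_nonneg (fun _ _ => by positivity) _⟩
    obtain ⟨v, v1, v2⟩ := hc
    have v3 : ∀ p, ‖v p - y p‖ ≤ 2 * s := fun p => by
      obtain rfl | rfl := v2
      exacts [n1 p, by rw [sub_self, norm_zero]; positivity]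
    have y1 : ∀ p, ‖y p‖ ≤ Λ + 1 := fun p => by
      linarith [H.sup p _ (v1 p), v3 p, norm_sub_norm_le (y p) (v p), norm_sub_rev (y p) (v p)]
    have y2 := df_le (J := J) y1 fun a => (H.pos a).trans (by linarith)
    have y3 : ∀ p q, p ≠ q → δ / 2 ≤ ‖df J ζ y p q‖ := fun p q e => by
      linarith [df_near (J := J) (ζ := ζ) v3 p q, norm_sub_norm_le (df J ζ v p q) (df J ζ y p q),
        show δ ≤ ‖df J ζ v p q‖ from H.sep p q e _ _ (v1 p) (v1 q)]
    have y4 : ∀ p q, p ≠ q → ‖pt (m p q) (z q - z p) - df J ζ y p q‖ ≤ r₁ := fun p q e => by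
      have x1 : ∀ p, ‖x p‖ ≤ Λ + 2 := fun p => by
        linarith [y1 p, n1 p, norm_sub_norm_le (x p) (y p)]
      have x2 : ∀ p, ‖pt (t * s) (z p) - if p.1 ∈ J then x p else ζ p.1‖ ≤ r * (Λ + 2) := fun p => by
        split_ifs with h
        · simp only [hx, ε, c, if_pos h, sub_zero, sub_self, norm_zero]
          positivity
        · rw [show pt (t * s) (z p) - ζ p.1 = t • x p by
            simp only [hx, ε, c, if_neg h, smul_sub, smul_smul, tL, one_smul]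
            congr 1
            ext l
            simp [pt, mul_assoc], norm_smul, Real.norm_of_nonneg t0.le]
          exact mul_le_mul t1 (x1 p) (norm_nonneg _) r0'.le
      have x3 : ‖pt (m p q) (z q - z p) - df J ζ x p q‖ ≤ 2 * (r * (Λ + 2)) := by
        rw [show pt (m p q) (z q - z p) = pt (m p q) (z q) - pt (m p q) (z p) by
          ext l; simp [pt, mul_sub]]
        by_cases h : p.1 = q.1
        · have h' : p.1 ∉ J := fun c => e (by
            obtain ⟨a, p⟩ := p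
            obtain ⟨b, q⟩ := q
            obtain rfl : a = b := h
            rw [(hJ a c).elim p q])
          have h'' : q.1 ∉ J := h ▸ h'
          simp only [m, df, if_pos h, hx, ε, c, if_neg h', if_neg h'']
          rw [h, sub_sub_sub_cancel_right, sub_self, norm_zero]
          positivity
        · simp only [m, df, if_neg h]
          rw [sub_sub_sub_comm, two_mul]
          exact (norm_sub_le _ _).trans (add_le_add (x2 q) (x2 p))
      linarith [df_near (J := J) (ζ := ζ) n1 p q, norm_sub_le_norm_sub_add_norm_sub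
        (pt (m p q) (z q - z p)) (df J ζ x p q) (df J ζ y p q)]
    have k1 : ∀ p q a b, |((2⁻¹ : ℝ) • Lb.pr (df J ζ y p q)) a b| ≤ M ∧
        |k z p q a b - ((2⁻¹ : ℝ) • Lb.pr (df J ζ y p q)) a b| ≤ min (ρ / 2) 1 := fun p q a b => by
      rcases eq_or_ne p q with rfl | e
      · simp [k, kL, df, Lb.pr_zero, M0, (half_pos ρ0).le]
      · exact ⟨hM _ (y3 p q e) (y2 p q) a b, h1 _ _ _ (m0 p q).1 (by nlinarith [(m0 p q).2])
          (y3 p q e) (y2 p q) (y4 p q e) a b⟩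
    have M1 : 0 ≤ M + 1 := by linarith
    have k2 : (t ^ 4, k z) ∈ closedBall 0 (M + 1) := mem_closedBall_zero_iff.2
      (norm_prod_le_iff.2 ⟨(Real.norm_of_nonneg (by positivity)).trans_le (by linarith),
        nrm4 M1 fun p q a b => by
          linarith [(k1 p q a b).1, (k1 p q a b).2.trans (min_le_right _ _), abs_sub_abs_le_abs_sub
            (k z p q a b) (((2⁻¹ : ℝ) • Lb.pr (df J ζ y p q)) a b)]⟩)
    have k3 : ((0 : ℝ), fun p q a b => ((2⁻¹ : ℝ) • Lb.pr (df J ζ y p q)) a b) ∈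
        closedBall 0 (M + 1) := mem_closedBall_zero_iff.2 (norm_prod_le_iff.2
      ⟨by simpa using M1, nrm4 M1 fun p q a b => (k1 p q a b).1.trans (by linarith)⟩)
    have k4 := hρ _ k2 _ k3 (by
      rw [dist_eq_norm]
      exact (norm_prod_le_iff.2 ⟨(Real.norm_of_nonneg (by simp; positivity)).trans_le
        (by simp only [Prod.fst_sub, sub_zero]; linarith), nrm4 (half_pos ρ0).le fun p q a b =>
          (k1 p q a b).2.trans (min_le_left _ _)⟩).trans_lt (half_lt_self ρ0))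
    have p1 := norm_prod_sub Finset.univ (a := fun p => u p (x p)) (b := fun p => u p (y p)) Λ1
      (show 0 ≤ Λ * (2 * θ) by positivity) fun p _ => ⟨H.bd _ _, H.bd _ _, (H.lip _ _ _).trans
        (mul_le_mul_of_nonneg_left ((dist_eq_norm _ _).trans_le ((n1 p).trans (by linarith)))
          (by linarith))⟩
    have p2 : ‖∏ p, u p (y p)‖ ≤ Λ ^ n := (Finset.norm_prod_le _ _).trans
      ((Finset.prod_le_prod (fun _ _ => norm_nonneg _) fun p _ => H.bd p _).trans_eq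
        (hn ▸ Finset.prod_const Λ))
    rw [Finset.card_univ, ← hn] at p1
    have hy : y ∈ closedBall 0 (Λ + 1) :=
      mem_closedBall_zero_iff.2 ((pi_norm_le_iff_of_nonneg (by linarith)).2 y1)
    rw [indicator_of_mem hy, indicator_of_mem hy, norm_mul]
    refine ⟨?_, mul_le_mul p2 (hN _ k3) (norm_nonneg _) (by positivity)⟩
    rw [← sub_add_sub_cancel _ ((∏ p, u p (y p)) * Hk (GD.d / 2) (t ^ 4) (k z)), ← sub_mul, ← mul_sub]
    refine (norm_add_le _ _).trans ?_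
    rw [norm_mul, norm_mul]
    exact (add_le_add (mul_le_mul p1 (hN _ k2) (norm_nonneg _) (by positivity))
      (mul_le_mul p2 ((dist_eq_norm _ _).symm.trans_le k4.le) (norm_nonneg _)
        (by positivity))).trans_eq (by ring)
  have hI : ∀ C : ℝ, Integrable ((closedBall (0 : (Σ s, κ s) → R4) (Λ + 1)).indicator fun _ => C) :=
    fun C => (integrable_indicator_iff hV.measurableSet).2 (integrableOn_const hV.measure_lt_top.ne)
  have mΦ : Measurable Φ := (Finset.measurable_prod _ fun p _ =>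
    (H.reg p).continuous.measurable.comp (measurable_pi_apply p)).mul
    (Hk_meas fun p q a b =>
      ((Lb.pr_meas a b).comp (by unfold df; split_ifs <;> fun_prop)).const_mul _)
  have i1 : Integrable Φ := (hI _).mono' mΦ.aestronglyMeasurable (ae_of_all _ fun y => (key y).2)
  have i2 : Integrable fun y => g (fm ε c y) := (((hI _).mono' (((Measurable.of_discrete
    (f := g)).comp meas_fm).sub mΦ).aestronglyMeasurable (ae_of_all _ fun y => (key y).1)).add
      i1).congr (ae_of_all _ fun y => sub_add_cancel _ _)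
  rw [cen_sum s0 (H.us_sup L0), ← tsum_mul_left]
  simp only [mul_left_comm (L ^ _), e2, e1, mul_left_comm _ (∏ p, ε p ^ 4), Lm, frL_Hk o hJ w0]
  rw [tsum_mul_left, ← integral_fm (fun p => (ε0 p).1) g i2, ← integral_sub i2 i1]
  refine ⟨(norm_integral_le_of_norm_le (hI _) (ae_of_all _ fun y => (key y).2)).trans_eq ?_,
    (norm_integral_le_of_norm_le (hI _) (ae_of_all _ fun y => (key y).1)).trans ?_⟩
  · rw [integral_indicator_const _ hV.measurableSet, smul_eq_mul, ← hV']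
  · rwa [integral_indicator_const _ hV.measurableSet, smul_eq_mul, ← hV']

end Pool.Agent.Lib.MP_7f377f_mp.Ope
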