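import Pool.Agent.Lib.MP_7f377f_mp.G.TsT
import Pool.Agent.Lib.MP_7f377f_mp.G.CmS

/-! The window for the two scale law of clusters. -/

noncomputable section

namespace Pool.Agent.Lib.MP_7f377f_mp.Ope

open Filter Topology Set Real YM7 Pur

variable [GD] {X : ℝ → ℝ}

/-- the admissible ratios of scales -/
def Wx (X : ℝ → ℝ) (D r : ℝ) : Prop := 1 ≤ r ∧
  (∀ d ∈ Icc (D / (4 * r)) (D / r), (4 * r) ^ 2 ≤ X d) ∧ ∃ d ∈ Ioc 0 (D / r), X d ≤ (8 * r) ^ 2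

theorem wnd (tX : Tendsto X (𝓝[>] 0) atTop) (hX : ∀ᶠ d in 𝓝[>] (0 : ℝ), X d ≤ log d⁻¹) :
    Cm.Wnd (Wx X) := by
  have u : ∀ᶠ D in 𝓝[>] (0 : ℝ), ∀ r, 1 ≤ r → (4 * r) ^ 2 ≤ X (D / r) → r ≤ D⁻¹ := by
    filter_upwards [ev_io2 hX, self_mem_nhdsWithin] with D h (D0 : 0 < D) r r1 e
    have := e.trans ((h _ ⟨by positivity, div_le_self D0.le r1⟩).trans (log_le_self (by positivity)))
    rw [inv_div, div_eq_mul_inv] at this
    nlinarith [inv_pos.2 D0]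
  have m : ∀ {D r : ℝ}, 0 < D → 1 ≤ r → D / r ∈ Icc (D / (4 * r)) (D / r) := fun D0 r1 =>
    ⟨div_le_div_of_nonneg_left D0.le (by linarith) (by linarith), le_rfl⟩
  refine ⟨fun M => ?_, ?_, ?_, fun ε ε0 => ?_⟩
  · filter_upwards [ev_io2 (tX.eventually_ge_atTop ((8 * M) ^ 2)), self_mem_nhdsWithin]
      with D h (D0 : 0 < D) r ⟨r1, _, d, hd, e⟩
    linarith [sq_le_sq.1 ((h d ⟨hd.1, hd.2.trans (div_le_self D0.le r1)⟩).trans e),
      le_abs_self (8 * M), abs_of_pos (show 0 < 8 * r by linarith)]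
  · filter_upwards [u, self_mem_nhdsWithin] with D h (D0 : 0 < D) r ⟨r1, e, _⟩
      using h r r1 (e _ (m D0 r1))
  · filter_upwards [u, ev_io2 (tX.eventually_ge_atTop 16), self_mem_nhdsWithin]
      with D h h' (D0 : 0 < D)
    by_contra! c
    have : ∀ j : ℕ, ∀ d ∈ Icc (D / (4 * 2 ^ j)) (D / 2 ^ j), (4 * 2 ^ j) ^ 2 ≤ X d := fun j => by
      induction j with
      | zero =>
        exact fun d hd => le_of_eq_of_le (by norm_num)
          (h' d ⟨lt_of_lt_of_le (by positivity) hd.1, by simpa using hd.2⟩)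
      | succ j ih =>
        intro d hd
        by_contra! e
        exact c _ ⟨one_le_pow₀ one_le_two, ih, d, ⟨lt_of_lt_of_le (by positivity) hd.1, hd.2.trans
          (div_le_div_of_nonneg_left D0.le (by positivity) (pow_le_pow_right₀ one_le_two
            j.le_succ))⟩, e.le.trans_eq (by ring)⟩
    obtain ⟨j, hj⟩ := pow_unbounded_of_one_lt D⁻¹ one_lt_two
    exact (h _ (one_le_pow₀ one_le_two) (this j _ (m D0 (one_le_pow₀ one_le_two)))).not_gt hj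
  · filter_upwards [ev_io2 (tX.eventually_ge_atTop 16), hX, Ioo_mem_nhdsGT (pow_pos ε0 2)]
      with d h h' ⟨d0, d1⟩
    have n : ((fun x => √(X x) / 4) '' Icc (d / 4) d).Nonempty := ⟨_, d, ⟨by linarith, le_rfl⟩, rfl⟩
    have p : ∀ x ∈ Icc (d / 4) d, 16 ≤ X x := fun x hx => h x ⟨by linarith [hx.1], hx.2⟩
    obtain ⟨r, hr⟩ : ∃ r, r = sInf ((fun x => √(X x) / 4) '' Icc (d / 4) d) := ⟨_, rfl⟩
    have r1 : 1 ≤ r := hr ▸ le_csInf n (by
      rintro _ ⟨x, hx, rfl⟩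
      linarith [le_sqrt_of_sq_le (show 4 ^ 2 ≤ X x by linarith [p x hx])])
    have r0 : 0 < r := by linarith
    have r2 : ∀ x ∈ Icc (d / 4) d, (4 * r) ^ 2 ≤ X x := fun x hx => by
      have : r ≤ √(X x) / 4 := hr ▸ csInf_le ⟨0, by rintro _ ⟨x, -, rfl⟩; positivity⟩ ⟨x, hx, rfl⟩
      exact (le_sqrt (by positivity) (by linarith [p x hx])).1 (by linarith)
    obtain ⟨_, ⟨x, hx, rfl⟩, e⟩ := exists_lt_of_csInf_lt n (hr ▸ (by linarith : r < 2 * r))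
    have e1 : r * d / r = d := mul_div_cancel_left₀ _ r0.ne'
    refine ⟨r, r0, ?_, r1, ?_, x, ⟨by linarith [hx.1], e1.symm ▸ hx.2⟩,
      (sqrt_le_iff.1 (by linarith)).2⟩
    · have := (r2 d ⟨by linarith, le_rfl⟩).trans (h'.trans (log_le_self (inv_pos.2 d0).le))
      rw [← one_div, le_div_iff₀ d0] at this
      refine lt_of_pow_lt_pow_left₀ 2 ε0.le (lt_of_le_of_lt ?_ d1)
      nlinarith [mul_pos (mul_pos r0 r0) d0]
    · rwa [e1, show r * d / (4 * r) = d / 4 by field_simp]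

theorem wx_le : ∀ᶠ D in 𝓝[>] (0 : ℝ), ∀ r, Wx X D r →
    ∀ d ∈ Icc (D / (4 * r)) (D / r), (D / d) ^ 2 ≤ X d := by
  filter_upwards [self_mem_nhdsWithin] with D (D0 : 0 < D) r ⟨r1, e, _⟩ d hd
  have d0 : 0 < d := lt_of_lt_of_le (by positivity) hd.1
  refine (pow_le_pow_left₀ (by positivity) ?_ 2).trans (e d hd)
  exact (div_le_comm₀ d0 (by positivity)).2 hd.1

end Pool.Agent.Lib.MP_7f377f_mp.Ope

namespace Pool.Agent.Lib.MP_7f377f_mp.RG.Q4.En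

open Filter Topology YM7 Pur Sg Br Ope

variable [GD]

/-- the two scale law for clusters in the window of the renormalisation group -/
theorem tsc_win {G : Gl} {β : ℕ × ℕ → ℝ} (o : G.Oks) (hβ : G.Tus β) {U : Ultrafilter (ℕ × ℕ)}
    {S₀ : ∀ {k : ℕ}, (Fin k → R4 → ℝ) → ℝ} {S : Pol →ₗ[ℂ] ℂ}
    (hL : L6.Lim (Fi.tr haar) (atTop ×ˢ atTop) G.nn G.aa β U S₀ S) : ∃ W, Cm.Wnd W ∧ Cm.Tsc S W ∧
      ∀ q : ℕ, ∀ᶠ D in 𝓝[>] (0 : ℝ), ∀ r, W D r →
        ∀ l, D / r * 3 ^ G.e l ≤ G.Q l ^ q → G.Q l ^ q ≤ r := by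
  obtain ⟨X, hA, hQ⟩ := afu o hβ hL
  have hN := tsN hA
  obtain ⟨-, -, -, -, tX, hX, -⟩ := hA
  have w := wnd tX hX
  refine ⟨_, w, Cm.tsc_of hN hX w.top wx_le, fun q => ?_⟩
  filter_upwards [ev_io2 (hQ (2 * q + 1)), self_mem_nhdsWithin]
    with D h1 (D0 : 0 < D) r ⟨r1, _, d, hd, e⟩ l h2
  have q1 : 1 ≤ G.Q l := (o 0).1.Q1 l
  have q4 : 64 ≤ G.Q l := (o 0).1.cQ l (by norm_num)
  have := (h1 d ⟨hd.1, hd.2.trans (div_le_self D0.le r1)⟩ l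
    ((mul_le_mul_of_nonneg_right hd.2 (by positivity)).trans (h2.trans
      (pow_le_pow_right₀ q1 (by omega))))).trans e
  rw [pow_succ' _ (2 * q), mul_comm 2, pow_mul] at this
  exact le_of_sq_le_sq (by nlinarith [sq_nonneg (G.Q l ^ q)]) (by linarith)

end Pool.Agent.Lib.MP_7f377f_mp.RG.Q4.En
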