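import Pool.Agent.Lib.MP_7f377f_mp.G.TwDef
import Pool.Agent.Lib.MP_7f377f_mp.G.Q4Op2
import Pool.Agent.Lib.MP_7f377f_mp.G.Q4MeasTree

/-! Algebra of the central cochain and of twisted periodic fields. -/

noncomputable section

set_option linter.unusedSectionVars false
variable [Pool.Agent.Lib.MP_7f377f_mp.GD]

namespace Pool.Agent.Lib.MP_7f377f_mp.RG.Q4

open Finset MeasureTheory Measure

/-! ### central gauge maps -/

/-- gauge maps with values in the centre -/
def Cen (h : St → S3) : Prop := ∀ x, h x ∈ Subgroup.center S3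

/-- equality up to a central gauge map -/
def Cq (U V : Conf) : Prop := ∃ h, Cen h ∧ V = gauge Inv.inv h U

theorem zc_comm (z : Zc) (g : S3) : (z : S3) * g = g * z := (Subgroup.mem_center_iff.1 z.2 g).symm

theorem Cen.comm {h : St → S3} (hh : Cen h) (x : St) (g : S3) : h x * g = g * h x :=
  zc_comm ⟨_, hh x⟩ g

theorem cen_coe (h : St → Zc) : Cen fun x => (h x : S3) := fun x => (h x).2

theorem cen_one : Cen fun _ => 1 := fun _ => one_mem _

theorem Cen.mul {h k : St → S3} (hh : Cen h) (hk : Cen k) : Cen fun x => h x * k x :=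
  fun x => mul_mem (hh x) (hk x)

theorem Cen.inv {h : St → S3} (hh : Cen h) : Cen fun x => (h x)⁻¹ := fun x => inv_mem (hh x)

theorem Cen.comp {h : St → S3} (hh : Cen h) (φ : St → St) : Cen fun x => h (φ x) :=
  fun x => hh (φ x)

theorem gauge_inv (h : St → S3) (U : Conf) :
    gauge Inv.inv (fun x => (h x)⁻¹) (gauge Inv.inv h U) = U := by
  funext e
  simp only [gauge]
  group

theorem gauge_id (U : Conf) : gauge Inv.inv (fun _ => 1) U = U := Ms.gauge_one (fun _ => rfl) U

/-- a central gauge map multiplies every link by a central factor -/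
theorem Cen.gauge_apply {h : St → S3} (hh : Cen h) (U : Conf) (e : Lk) :
    gauge Inv.inv h U e = h e.1 * (h (e.1 + un e.2))⁻¹ * U e := by
  rw [gauge, mul_assoc, ← hh.inv.comm, mul_assoc]

theorem Cen.gauge_mul {h : St → S3} (V U : Conf) (hh : Cen h) :
    gauge Inv.inv h (V * U) = V * gauge Inv.inv h U := by
  funext e
  simp only [gauge, Pi.mul_apply]
  rw [hh.comm, hh.comm _ (U e), mul_assoc (V e), mul_assoc (V e)]

theorem Cen.gauge_comm {h : St → S3} (hh : Cen h) (u : St → S3) (U : Conf) :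
    gauge Inv.inv h (gauge Inv.inv u U) = gauge Inv.inv u (gauge Inv.inv h U) := by
  simp only [Mx.gauge_gauge, hh.comm]

theorem Cq.refl (U : Conf) : Cq U U := ⟨_, cen_one, (gauge_id U).symm⟩

theorem Cq.symm {U V : Conf} (h : Cq U V) : Cq V U := by
  obtain ⟨k, hk, rfl⟩ := h
  exact ⟨_, hk.inv, (gauge_inv k U).symm⟩

theorem Cq.trans {U V W : Conf} (h : Cq U V) (h' : Cq V W) : Cq U W := by
  obtain ⟨k, hk, rfl⟩ := h
  obtain ⟨k', hk', rfl⟩ := h'
  exact ⟨_, hk'.mul hk, Mx.gauge_gauge _ _ _⟩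

theorem Cq.sh {U V : Conf} (h : Cq U V) (v : St) : Cq (sh v U) (sh v V) := by
  obtain ⟨k, hk, rfl⟩ := h
  exact ⟨_, hk.comp (· + v), Ms.sh_gauge _ _ _⟩

theorem Cq.gauge {U V : Conf} (h : Cq U V) (u : St → S3) :
    Cq (gauge Inv.inv u U) (gauge Inv.inv u V) := by
  obtain ⟨k, hk, rfl⟩ := h
  exact ⟨k, hk, (hk.gauge_comm u U).symm⟩

theorem Cen.cq {h : St → S3} (hh : Cen h) (U : Conf) : Cq U (gauge Inv.inv h U) := ⟨h, hh, rfl⟩

/-- functions which are invariant under central gauge maps -/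
theorem Cq.eq {α : Type} {F : Conf → α} (hF : ∀ h U, Cen h → F (RG.gauge Inv.inv h U) = F U)
    {U V : Conf} (h : Cq U V) : F V = F U := by
  obtain ⟨k, hk, rfl⟩ := h
  exact hF k U hk

theorem Cq.fq {U V : Conf} (h : Cq U V) (x : St) (μ ν : Fin 4) : fq V x μ ν = fq U x μ ν := by
  obtain ⟨k, -, rfl⟩ := h
  exact Mx.fq_gauge _ _ _ _ _

theorem Cq.blk {U V : Conf} (h : Cq U V) (l : ℕ) (ω : St → Om) : Cq (blk l U ω) (blk l V ω) := by
  obtain ⟨k, hk, rfl⟩ := h
  exact ⟨_, hk.comp (up l), (blk_gauge _ _ _ _).1⟩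

theorem Cq.blkN {U V : Conf} (h : Cq U V) (l : ℕ) (ω : St → Om) :
    Cq (blkN l U ω) (blkN l V ω) := by
  obtain ⟨k, hk, rfl⟩ := h
  exact ⟨_, hk.comp (up l), (blk_gauge _ _ _ _).2.1⟩

theorem Cq.wt {U V : Conf} (h : Cq U V) (l : ℕ) (o : Om) : wt l V o = wt l U o := by
  obtain ⟨k, -, rfl⟩ := h
  exact (blk_gauge l k U fun _ => o).2.2 o

/-! ### cells -/

section cells

variable {M : Fin 4 → ℕ} {x : St}

theorem qv_spec (M : Fin 4 → ℕ) (x : St) : x = rcv M x + pv M (qv M x) := funext fun i => by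
  have := Int.emod_add_mul_ediv (x i + (M i / 2 : ℕ)) (M i)
  simp only [rcv, pv, qv, Pi.add_apply]
  linarith

theorem qv_add (hM : ∀ i, Odd (M i)) (x v : St) : qv M (x + pv M v) = qv M x + v := by
  funext i
  have h : (M i : ℤ) ≠ 0 := by have := (hM i).pos; omega
  simp only [qv, pv, Pi.add_apply]
  rw [add_right_comm, Int.add_mul_ediv_left _ _ h]

theorem qv_dom (hM : ∀ i, Odd (M i)) (h : x ∈ domv M) : qv M x = 0 := by
  funext i
  obtain ⟨k, hk⟩ := hM i
  have := mem_domv.1 h i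
  exact Int.ediv_eq_zero_of_lt (by omega) (by omega)

theorem qv_rcv (hM : ∀ i, Odd (M i)) (x : St) : qv M (rcv M x) = 0 := qv_dom hM (rcv_mem hM x)

theorem qv_un {κ ν : Fin 4} (h : κ ≠ ν) (x : St) : qv M (x + un ν) κ = qv M x κ := by
  simp only [qv, un, Pi.add_apply, Pi.single_eq_of_ne h, add_zero]

theorem yo_rcv (hM : ∀ i, Odd (M i)) (l : ℕ) (x : St) :
    yo l (rcv (fi l M) x) = rcv M (yo l x) := by
  conv_rhs => rw [qv_spec (fi l M) x, ← up_pv, Ms.yo_add_up, rcv_add]
  exact (rcv_eq hM ((mem_fine hM).1 (rcv_mem (odd_fi hM l) x))).symm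

theorem qv_fi (hM : ∀ i, Odd (M i)) (l : ℕ) (x : St) : qv (fi l M) x = qv M (yo l x) := by
  conv_rhs => rw [qv_spec (fi l M) x, ← up_pv, Ms.yo_add_up, qv_add hM, yo_rcv hM, qv_rcv hM,
    zero_add]

theorem yo_un (l : ℕ) (x : St) (ν : Fin 4) :
    yo l (x + un ν) = yo l x ∨ yo l (x + un ν) = yo l x + un ν := by
  have h0 := Ms.LL_pos l
  have key : (x ν + 1 + l) / (LL l : ℤ) = (x ν + l) / (LL l : ℤ) ∨
      (x ν + 1 + l) / (LL l : ℤ) = (x ν + l) / (LL l : ℤ) + 1 := by
    have a1 := Int.ediv_le_ediv h0 (show x ν + l ≤ x ν + 1 + l by omega)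
    have a2 := Int.ediv_le_ediv h0 (show x ν + 1 + l ≤ x ν + l + 1 * LL l by omega)
    rw [Int.add_mul_ediv_right _ _ h0.ne'] at a2
    omega
  refine key.imp (fun h => funext fun i => ?_) fun h => funext fun i => ?_
  all_goals
    by_cases hi : i = ν
    · subst hi
      simpa [yo, un] using h
    · simp [yo, un, Pi.single_eq_of_ne hi]

variable (M) (z : Fin 4 → Fin 4 → Zc)

/-- the bilinear form of the twist -/
def zb (a b : St) : Zc := ∏ ν, ∏ μ, if μ < ν then z μ ν ^ (a μ * b ν) else 1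

theorem zb_add_left (a a' b : St) : zb z (a + a') b = zb z a b * zb z a' b := by
  simp only [zb, ← prod_mul_distrib]
  refine prod_congr rfl fun ν _ => prod_congr rfl fun μ _ => ?_
  split_ifs
  · rw [Pi.add_apply, add_mul, zpow_add]
  · exact (mul_one _).symm

theorem zb_add_right (a b b' : St) : zb z a (b + b') = zb z a b * zb z a b' := by
  simp only [zb, ← prod_mul_distrib]
  refine prod_congr rfl fun ν _ => prod_congr rfl fun μ _ => ?_
  split_ifs
  · rw [Pi.add_apply, mul_add, zpow_add]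
  · exact (mul_one _).symm

theorem zb_zero_left (b : St) : zb z 0 b = 1 := by simp [zb]

theorem zb_zero_right (a : St) : zb z a 0 = 1 := by simp [zb]

theorem zb_sub_right (a b b' : St) : zb z a (b - b') = zb z a b * (zb z a b')⁻¹ := by
  rw [eq_mul_inv_iff_mul_eq, ← zb_add_right, sub_add_cancel]

theorem coc_eq (e : Lk) : coc M z e = zb z (qv M e.1) (qv M (e.1 + un e.2) - qv M e.1) := by
  rw [zb, prod_eq_single e.2 (fun ν _ h => by simp [qv_un h]) (by simp)]
  rfl

variable {M}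

theorem coc_dom (hM : ∀ i, Odd (M i)) {e : Lk} (h : e.1 ∈ domv M) : coc M z e = 1 := by
  rw [coc_eq, qv_dom hM h, zb_zero_left]

theorem coc_add (hM : ∀ i, Odd (M i)) (x v : St) (ν : Fin 4) : coc M z (x + pv M v, ν) =
    (zb z v (qv M x))⁻¹ * coc M z (x, ν) * zb z v (qv M (x + un ν)) := by
  simp only [coc_eq]
  rw [add_right_comm, qv_add hM, qv_add hM, add_sub_add_right_eq_sub, zb_add_left,
    zb_sub_right z v, mul_comm (zb z v _)⁻¹, mul_assoc, mul_comm (zb z v _)⁻¹]

open Classical in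
theorem coc_fi (hM : ∀ i, Odd (M i)) (l : ℕ) (e : Lk) : coc (fi l M) z e =
    if yo l (e.1 + un e.2) = yo l e.1 then 1 else coc M z (yo l e.1, e.2) := by
  simp only [coc_eq, qv_fi hM]
  split_ifs with h
  · rw [h, sub_self, zb_zero_right]
  · rw [(yo_un l e.1 e.2).resolve_left h]

end cells

open Classical in
/-- the skeleton of a block field on the fine lattice -/
def skl (l : ℕ) (W : Conf) : Conf :=
  fun f => if yo l (f.1 + un f.2) = yo l f.1 then 1 else W (yo l f.1, f.2)

theorem skl_gauge (l : ℕ) (h : St → S3) (W : Conf) :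
    skl l (gauge Inv.inv h W) = gauge Inv.inv (fun x => h (yo l x)) (skl l W) := by
  funext f
  simp only [skl, gauge]
  split_ifs with hf
  · rw [hf, mul_one, mul_inv_cancel]
  · rw [(yo_un l f.1 f.2).resolve_left hf]

theorem skl_sh (l : ℕ) (y : St) (W : Conf) : sh (up l y) (skl l W) = skl l (sh y W) := by
  funext f
  simp only [skl, sh, add_right_comm f.1 (up l y), Ms.yo_add_up]
  exact if_congr (add_left_inj y) rfl rfl

theorem skl_tree {l : ℕ} {f : Lk} (h : tree l f) (W : Conf) : skl l W f = 1 := if_pos h.1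

theorem skl_one (l : ℕ) : skl l 1 = 1 := by
  funext f
  simp [skl]

theorem cont_skl (l : ℕ) : Continuous (skl l) := continuous_pi fun f => by
  unfold skl
  split_ifs <;> fun_prop

/-! ### the torus -/

section torus

variable [Tws] {n l : ℕ} {x y : St} {U V : Conf}

theorem odd_sd (hn : Odd n) (i : Fin 4) : Odd (sd n i) := hn.mul (Tws.odd i)

theorem le_sd (n : ℕ) (i : Fin 4) : n ≤ sd n i := Nat.le_mul_of_pos_right _ (Tws.odd i).pos

theorem sd_mul (l n : ℕ) : sd (LL l * n) = fi l (sd n) := funext fun _ => mul_assoc _ _ _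

theorem odd_LL (l : ℕ) (hn : Odd n) : Odd (LL l * n) := Odd.mul ⟨l, rfl⟩ hn

/-- congruence of sites -/
def CgT (n : ℕ) (x y : St) : Prop := Dv (sd n) (x - y)

/-- periodisation of functions of sites -/
def pcsT {α : Type} (n : ℕ) (w : St → α) : St → α := fun x => w (rcT n x)

/-- strict periodisation of functions of links -/
def pcT0 {α : Type} (n : ℕ) : (Lk → α) → Lk → α := pcv (sd n)

/-- strictly periodic functions of links -/
def PerT0 {α : Type} (n : ℕ) : (Lk → α) → Prop := PerV (sd n)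

/-- reduction of links -/
def rlT (n : ℕ) (e : Lk) : Lk := (rcT n e.1, e.2)

/-- the links of the torus -/
def ldomT (n : ℕ) : Finset Lk := domT n ×ˢ univ

/-- the gauge map of the period `v` -/
def omT (n : ℕ) (v : St) : St → S3 := fun x => ((zb Tws.z v (qv (sd n) x))⁻¹ : Zc)

/-- the gauge map of the magnetic translation by `v` -/
def hT (n : ℕ) (v : St) : St → S3 :=
  fun x => (zb Tws.z (qv (sd n) x) (qv (sd n) (x + v) - qv (sd n) x) : Zc)

/-- magnetic translation -/
def shT (n : ℕ) (v : St) (U : Conf) : Conf := gauge Inv.inv (hT n v) (sh v U)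

theorem cen_omT (n : ℕ) (v : St) : Cen (omT n v) := cen_coe _

theorem cen_hT (n : ℕ) (v : St) : Cen (hT n v) := cen_coe _

theorem mem_ldomT {e : Lk} : e ∈ ldomT n ↔ e.1 ∈ domT n := by simp [ldomT]

theorem rcT_mem (hn : Odd n) (x : St) : rcT n x ∈ domT n := rcv_mem (odd_sd hn) x

theorem rcT_id (hn : Odd n) (h : x ∈ domT n) : rcT n x = x := rcv_eq (odd_sd hn) h

theorem rcT_add (x v : St) : rcT n (x + pv (sd n) v) = rcT n x := rcv_add x v

theorem rcT_spec (n : ℕ) (x : St) : x = rcT n x + pv (sd n) (qv (sd n) x) := qv_spec _ x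

theorem cgT_rc (n : ℕ) (x : St) : CgT n (rcT n x) x := by
  simpa [CgT, rcT] using (dv_rcv (sd n) x).neg

theorem rcT_cg (h : CgT n x y) : rcT n x = rcT n y := rcv_congr h

theorem CgT.refl (n : ℕ) (x : St) : CgT n x x := by simpa [CgT] using dv_zero

theorem CgT.symm (h : CgT n x y) : CgT n y x := by simpa [CgT] using Dv.neg h

theorem CgT.trans {w : St} (h : CgT n x y) (h' : CgT n y w) : CgT n x w := by
  simpa [CgT] using Dv.add h h'

theorem cgT_add_iff (v : St) : CgT n (x + v) (y + v) ↔ CgT n x y := by simp [CgT]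

theorem CgT.add (h : CgT n x y) (v : St) : CgT n (x + v) (y + v) := (cgT_add_iff v).2 h

theorem cgT_pv (x v : St) : CgT n (x + pv (sd n) v) x := by simpa [CgT] using dv_pv v

theorem CgT.ex (h : CgT n x y) : ∃ v, x = y + pv (sd n) v :=
  (dv_iff.1 h).imp fun _ hv => sub_eq_iff_eq_add'.1 hv

theorem rcT_iff : rcT n x = rcT n y ↔ CgT n x y :=
  ⟨fun h => (cgT_rc n x).symm.trans (h ▸ cgT_rc n y), rcT_cg⟩

theorem rcT_rcT (n : ℕ) (x : St) : rcT n (rcT n x) = rcT n x := rcT_cg (cgT_rc n x)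

theorem rcT_rcT_add (n : ℕ) (x v : St) : rcT n (rcT n x + v) = rcT n (x + v) :=
  rcT_cg ((cgT_rc n x).add v)

theorem rcT_add_rcT (n : ℕ) (x v : St) : rcT n (x + rcT n v) = rcT n (x + v) := by
  rw [add_comm, rcT_rcT_add, add_comm]

theorem up_pvT (l n : ℕ) (v : St) : up l (pv (sd n) v) = pv (sd (LL l * n)) v := by
  rw [sd_mul, up_pv]

theorem CgT.up (h : CgT n x y) (l : ℕ) : CgT (LL l * n) (up l x) (up l y) := by
  obtain ⟨v, rfl⟩ := h.ex
  rw [RG.up_add, up_pvT]
  exact cgT_pv _ _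

theorem CgT.yo (h : CgT (LL l * n) x y) : CgT n (yo l x) (yo l y) := by
  obtain ⟨v, rfl⟩ := h.ex
  rw [← up_pvT, Ms.yo_add_up]
  exact cgT_pv _ _

theorem yo_rcT (hn : Odd n) (l : ℕ) (x : St) : yo l (rcT (LL l * n) x) = rcT n (yo l x) := by
  rw [rcT, sd_mul, yo_rcv (odd_sd hn), rcT]

theorem mem_fineT (hn : Odd n) : x ∈ domT (LL l * n) ↔ yo l x ∈ domT n := by
  rw [domT, sd_mul, mem_fine (odd_sd hn), domT]

theorem box_sub_domT (n : ℕ) : box (n / 2) ⊆ domT n := fun x hx => mem_domv.2 fun i => by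
  have := mem_box.1 hx i
  have := Nat.div_le_div_right (c := 2) (le_sd n i)
  omega

theorem PST_iff {α : Type} {u : St → α} : PST n u ↔ ∀ x y, CgT n x y → u x = u y :=
  ⟨fun h x y hc => by rw [← h x, ← h y, rcT_cg hc], fun h x => h _ _ (cgT_rc n x)⟩

theorem PST.cg {α : Type} {u : St → α} (h : PST n u) (hc : CgT n x y) : u x = u y :=
  PST_iff.1 h _ _ hc

theorem PST.pv {α : Type} {u : St → α} (h : PST n u) (x v : St) : u (x + pv (sd n) v) = u x :=
  h.cg (cgT_pv x v)

theorem PST_pcsT {α : Type} (n : ℕ) (w : St → α) : PST n (pcsT n w) := fun x => by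
  simp only [pcsT, rcT_rcT]

theorem PST.pcsT {α : Type} {u : St → α} (h : PST n u) : pcsT n u = u := funext h

theorem PST.yo {α : Type} {u : St → α} (h : PST n u) (l : ℕ) :
    PST (LL l * n) fun x => u (yo l x) := PST_iff.2 fun _ _ hc => h.cg hc.yo

theorem PST.up {α : Type} {u : St → α} (h : PST (LL l * n) u) : PST n fun y => u (up l y) :=
  PST_iff.2 fun _ _ hc => h.cg (hc.up l)

theorem PST.add {α : Type} {u : St → α} (h : PST n u) (v : St) : PST n fun x => u (x + v) :=
  PST_iff.2 fun _ _ hc => h.cg (hc.add v)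

theorem PST.map {α β : Type} {u : St → α} (h : PST n u) (φ : α → β) : PST n fun x => φ (u x) :=
  fun x => congrArg φ (h x)

theorem perT0_pcT0 {α : Type} (n : ℕ) (A : Lk → α) : PerT0 n (pcT0 n A) := pcv_per A

theorem PerT0.pcT0 {α : Type} {A : Lk → α} (h : PerT0 n A) : pcT0 n A = A := PerV.pcv h

theorem PerT0.rl {α : Type} {A : Lk → α} (h : PerT0 n A) (e : Lk) : A (rlT n e) = A e :=
  congrFun h.pcT0 e

theorem PerT0.sh_cg {α : Type} {A : Lk → α} (h : PerT0 n A) (hc : CgT n x y) :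
    sh x A = sh y A := by
  obtain ⟨v, rfl⟩ := hc.ex
  rw [← RG.sh_sh, h v]

theorem perT0_of {α : Type} {A : Lk → α} (h : ∀ e, A (rlT n e) = A e) : PerT0 n A :=
  funext h ▸ perT0_pcT0 n A

theorem rlT_iff {i j : Lk} : rlT n i = rlT n j ↔ CgT n i.1 j.1 ∧ i.2 = j.2 := by
  rw [rlT, rlT, Prod.mk.injEq, rcT_iff]

theorem rlT_rlT (n : ℕ) (e : Lk) : rlT n (rlT n e) = rlT n e := by simp only [rlT, rcT_rcT]

theorem rlT_mem (hn : Odd n) (e : Lk) : rlT n e ∈ ldomT n := mem_ldomT.2 (rcT_mem hn _)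

theorem rlT_id (hn : Odd n) {e : Lk} (h : e ∈ ldomT n) : rlT n e = e := by
  rw [rlT, rcT_id hn (mem_ldomT.1 h)]

theorem tree_rlT (l n : ℕ) (e : Lk) : tree l (rlT (LL l * n) e) ↔ tree l e := by
  conv_rhs => rw [show e = (e.1, e.2) from rfl, rcT_spec (LL l * n) e.1, ← up_pvT, Ms.tree_add_up]
  rfl

/-! #### twisted periodic fields -/

theorem pcT_apply (n : ℕ) (U : Conf) (e : Lk) :
    pcT n U e = (coc (sd n) Tws.z e : S3) * U (rlT n e) := rfl

theorem pcT_dom (hn : Odd n) (U : Conf) {e : Lk} (h : e.1 ∈ domT n) : pcT n U e = U e := by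
  rw [pcT, coc_dom _ (odd_sd hn) h, rcT_id hn h, OneMemClass.coe_one, one_mul]

theorem pcT_congr (hn : Odd n) (h : ∀ e : Lk, e.1 ∈ domT n → U e = V e) : pcT n U = pcT n V := by
  funext e
  rw [pcT, pcT, h _ (rcT_mem hn _)]

theorem pcT_pcT (hn : Odd n) (U : Conf) : pcT n (pcT n U) = pcT n U :=
  pcT_congr hn fun _ h => pcT_dom hn U h

theorem perT_pcT (hn : Odd n) (U : Conf) : PerT n (pcT n U) := pcT_pcT hn U

theorem PerT.ext (hn : Odd n) (hU : PerT n U) (hV : PerT n V)
    (h : ∀ e : Lk, e.1 ∈ domT n → U e = V e) : U = V := by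
  rw [← hU, ← hV, pcT_congr hn h]

theorem PerT.rl (hU : PerT n U) (e : Lk) : U e = (coc (sd n) Tws.z e : S3) * U (rlT n e) :=
  (congrFun hU e).symm

theorem sh_pcT (hn : Odd n) (v : St) (U : Conf) :
    sh (pv (sd n) v) (pcT n U) = gauge Inv.inv (omT n v) (pcT n U) := by
  funext e
  simp only [sh, pcT, gauge, omT, rcT_add, coc_add _ (odd_sd hn), Subgroup.coe_mul,
    InvMemClass.coe_inv, inv_inv, mul_assoc]
  rw [zc_comm _ (U _)]

theorem PerT.sh_pv (hn : Odd n) (hU : PerT n U) (v : St) :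
    sh (pv (sd n) v) U = RG.gauge Inv.inv (omT n v) U := by
  rw [← hU, sh_pcT hn]

theorem perT_iff (hn : Odd n) :
    PerT n U ↔ ∀ v, sh (pv (sd n) v) U = gauge Inv.inv (omT n v) U := by
  refine ⟨fun h => h.sh_pv hn, fun h => funext fun e => ?_⟩
  have h1 := congrFun (h (qv (sd n) e.1)) (rlT n e)
  have h2 := congrFun (sh_pcT hn (qv (sd n) e.1) U) (rlT n e)
  simp only [sh, gauge, rlT, ← rcT_spec] at h1 h2
  rw [h1, h2, pcT_dom hn U (rcT_mem hn _)]

/-- shifts by congruent vectors differ by a central gauge map -/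
theorem PerT.sh_cg (hn : Odd n) (hU : PerT n U) (h : CgT n x y) : Cq (sh y U) (sh x U) := by
  obtain ⟨v, rfl⟩ := h.ex
  rw [← RG.sh_sh, hU.sh_pv hn]
  exact ((cen_omT n v).cq U).sh y

theorem PerT.sh_rc (hn : Odd n) (hU : PerT n U) (x : St) : Cq (sh x U) (sh (rcT n x) U) :=
  hU.sh_cg hn (cgT_rc n x)

theorem pcT_gauge {u : St → S3} (hu : PST n u) (U : Conf) :
    pcT n (gauge Inv.inv u U) = gauge Inv.inv u (pcT n U) := by
  funext e
  simp only [pcT, gauge]
  rw [hu e.1, hu.cg ((cgT_rc n e.1).add _), ← mul_assoc, ← mul_assoc, zc_comm _ (u _),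
    mul_assoc (u _)]

theorem PerT.gauge (hU : PerT n U) {u : St → S3} (hu : PST n u) : PerT n (gauge Inv.inv u U) := by
  rw [PerT, pcT_gauge hu, hU]

theorem pcT_mul (n : ℕ) (A U : Conf) : pcT n (A * U) = pcT0 n A * pcT n U := by
  funext e
  simp only [pcT, pcT0, pcv, Pi.mul_apply, rcT]
  rw [← mul_assoc, zc_comm, mul_assoc]

theorem PerT.mul (hU : PerT n U) {A : Conf} (hA : PerT0 n A) : PerT n (A * U) := by
  rw [PerT, pcT_mul, hU, hA.pcT0]

theorem pcT_eq (n : ℕ) (U : Conf) : pcT n U = pcT0 n U * pcT n 1 := by rw [← pcT_mul, mul_one]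

/-- the quotient of two twisted periodic fields is periodic -/
theorem PerT.div (hU : PerT n U) (hV : PerT n V) : PerT0 n (U * V⁻¹) := perT0_of fun e => by
  rw [Pi.mul_apply, Pi.mul_apply, Pi.inv_apply, Pi.inv_apply, hU.rl e, hV.rl e, zc_comm, zc_comm]
  group

/-- a central gauge map which preserves one twisted periodic field preserves all -/
theorem PerT.cen {h : St → S3} (hh : Cen h) (hU : PerT n U) (hU' : PerT n (RG.gauge Inv.inv h U))
    (hV : PerT n V) : PerT n (RG.gauge Inv.inv h V) := by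
  have := hU'.mul (hV.div hU)
  rwa [← hh.gauge_mul, inv_mul_cancel_right] at this

theorem PerT.ite (hU : PerT n U) (hV : PerT n V) {p : Lk → Prop} [DecidablePred p]
    (hp : ∀ e, p (rlT n e) ↔ p e) : PerT n fun e => if p e then U e else V e := by
  funext e
  simp only [pcT_apply, hp]
  split_ifs
  exacts [(hU.rl e).symm, (hV.rl e).symm]

theorem PerT.fq_cg (hn : Odd n) (hU : PerT n U) (h : CgT n x y) (μ ν : Fin 4) :
    fq U x μ ν = fq U y μ ν := by
  have := (hU.sh_cg hn h).fq 0 μ ν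
  rwa [Mx.fq_sh, Mx.fq_sh, zero_add, zero_add] at this

/-! #### magnetic translations -/

theorem hT_dom (hn : Odd n) (v : St) (h : x ∈ domT n) : hT n v x = 1 := by
  rw [hT, qv_dom (odd_sd hn) h, zb_zero_left, OneMemClass.coe_one]

theorem cq_shT (n : ℕ) (v : St) (U : Conf) : Cq (sh v U) (shT n v U) := (cen_hT n v).cq _

theorem shT_zero (n : ℕ) (U : Conf) : shT n 0 U = U := by
  have : sh 0 U = U := funext fun e => by simp [sh]
  rw [shT, this]
  exact Ms.gauge_one (fun y => by simp [hT, zb_zero_right]) U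

theorem PerT.shT (hn : Odd n) (hU : PerT n U) (v : St) : PerT n (shT n v U) := by
  refine (perT_iff hn).2 fun w => ?_
  rw [Q4.shT, Ms.sh_gauge, RG.sh_sh, add_comm, ← RG.sh_sh, hU.sh_pv hn, Ms.sh_gauge,
    Mx.gauge_gauge, Mx.gauge_gauge]
  congr 1
  funext x
  simp only [hT, omT, ← Subgroup.coe_mul]
  rw [add_right_comm, qv_add (odd_sd hn), qv_add (odd_sd hn), add_sub_add_right_eq_sub,
    zb_add_left, zb_sub_right _ w, mul_assoc, mul_comm (zb _ w (qv _ (x + v))),
    mul_inv_cancel_right, mul_comm]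

theorem Cq.shT (h : Cq U V) (n : ℕ) (v : St) : Cq (shT n v U) (shT n v V) :=
  ((cq_shT n v U).symm.trans (h.sh v)).trans (cq_shT n v V)

theorem shT_shT (n : ℕ) (v w : St) (U : Conf) : Cq (shT n (v + w) U) (shT n v (shT n w U)) := by
  refine (cq_shT n _ U).symm.trans (Cq.trans ?_ (cq_shT n v _))
  rw [← RG.sh_sh]
  exact (cq_shT n w U).sh v

theorem PerT.shT_cg (hn : Odd n) (hU : PerT n U) (h : CgT n x y) : Cq (Q4.shT n y U) (Q4.shT n x U) :=
  ((cq_shT n y U).symm.trans (hU.sh_cg hn h)).trans (cq_shT n x U)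

theorem shT_gauge (n : ℕ) (v : St) (u : St → S3) (U : Conf) :
    shT n v (gauge Inv.inv u U) = gauge Inv.inv (fun x => u (x + v)) (shT n v U) := by
  rw [shT, Ms.sh_gauge, (cen_hT n v).gauge_comm, shT]

/-- inside the cell the magnetic translation is the translation -/
theorem shT_dom (hn : Odd n) (v : St) (U : Conf) {e : Lk} (h : e.1 ∈ domT n)
    (h' : e.1 + un e.2 ∈ domT n) : shT n v U e = sh v U e := by
  rw [shT, gauge, hT_dom hn v h, hT_dom hn v h', one_mul, inv_one, mul_one]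

theorem cont_shT (n : ℕ) (v : St) : Continuous (shT n v) := continuous_pi fun e => by
  simp only [shT, gauge, sh]
  fun_prop

/-! #### blocks -/

theorem omT_fine (hn : Odd n) (l : ℕ) (v : St) :
    omT (LL l * n) v = fun x => omT n v (yo l x) := by
  funext x
  simp only [omT, sd_mul, qv_fi (odd_sd hn)]

theorem hT_fine (hn : Odd n) (l : ℕ) (v : St) :
    hT (LL l * n) (up l v) = fun x => hT n v (yo l x) := by
  funext x
  simp only [hT, sd_mul, qv_fi (odd_sd hn), Ms.yo_add_up]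

theorem shT_fine (hn : Odd n) (l : ℕ) (v : St) (U : Conf) : shT (LL l * n) (up l v) U =
    gauge Inv.inv (fun x => hT n v (yo l x)) (sh (up l v) U) := by rw [shT, hT_fine hn]

/-- criterion for fine fields built covariantly from a block field -/
theorem perT_fine (hn : Odd n) (h : ∀ v, sh (up l (pv (sd n) v)) U =
    gauge Inv.inv (fun x => omT n v (yo l x)) U) : PerT (LL l * n) U :=
  (perT_iff (odd_LL l hn)).2 fun v => by rw [← up_pvT, h, omT_fine hn]

theorem PerT.sh_up (hn : Odd n) (hU : PerT (LL l * n) U) (v : St) : sh (up l (pv (sd n) v)) U =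
    RG.gauge Inv.inv (fun x => omT n v (yo l x)) U := by
  rw [up_pvT, hU.sh_pv (odd_LL l hn), omT_fine hn]

theorem PerT.skl (hn : Odd n) (hU : PerT n U) (l : ℕ) : PerT (LL l * n) (skl l U) :=
  perT_fine hn fun v => by rw [skl_sh, hU.sh_pv hn, skl_gauge]

theorem skl_shT (hn : Odd n) (l : ℕ) (v : St) (W : Conf) :
    skl l (shT n v W) = shT (LL l * n) (up l v) (skl l W) := by
  rw [shT_fine hn, shT, skl_gauge, skl_sh]

theorem PerT.blk (hn : Odd n) (hU : PerT (LL l * n) U) {ω : St → Om} (hω : PST n ω) :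
    PerT n (blk l U ω) := (perT_iff hn).2 fun v => by
  rw [← Mx.blk_sh, hU.sh_up hn, (blk_gauge _ _ _ _).1]
  simp only [Ms.yo_up, hω.pv]

theorem blk_shT (hn : Odd n) (l : ℕ) (v : St) (U : Conf) (ω : St → Om) :
    blk l (shT (LL l * n) (up l v) U) (fun y => ω (y + v)) = shT n v (blk l U ω) := by
  rw [shT_fine hn, (blk_gauge _ _ _ _).1, Mx.blk_sh]
  simp only [Ms.yo_up]
  rfl

/-! #### measure -/

theorem cont_pcT (n : ℕ) : Continuous (pcT n) := continuous_pi fun e => by
  simp only [pcT]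
  fun_prop

theorem cont_pcT0 (n : ℕ) : Continuous fun U : Conf => pcT0 n U :=
  continuous_pi fun _ => continuous_apply _

theorem meas_pcT0 {α : Type} [MeasurableSpace α] (n : ℕ) : Measurable (pcT0 (α := α) n) :=
  measurable_pi_lambda _ fun _ => measurable_pi_apply _

theorem meas_pcsT {α : Type} [MeasurableSpace α] (n : ℕ) : Measurable (pcsT (α := α) n) :=
  measurable_pi_lambda _ fun _ => measurable_pi_apply _

/-- the law of the twisted periodic fields: general invariance -/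
theorem map_relT (n : ℕ) {φ : Lk → Lk} {a b : Conf} (ha : PerT n a) (hb : PerT0 n b)
    (h : ∀ i j, rlT n (φ i) = rlT n (φ j) ↔ rlT n i = rlT n j) :
    PP.map (fun U e => a e * U (rlT n (φ e)) * b e) = PP.map (pcT n) := by
  have h1 := Mx.map_rel haar (T := fun e g => a (rlT n e) * g * b e)
    (fun _ => (measurePreserving_mul_right haar _).comp (measurePreserving_mul_left haar _))
    (rlT_rlT n) h fun e => by simp only [rlT_rlT, hb.rl]
  have mC : Measurable fun (U : Conf) e => (coc (sd n) Tws.z e : S3) * U e := by fun_prop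
  have := congrArg (Measure.map fun (U : Conf) e => (coc (sd n) Tws.z e : S3) * U e) h1
  rw [map_map mC (by fun_prop), map_map mC (by fun_prop)] at this
  refine Eq.trans (congrArg (fun F => Measure.map F PP) ?_) this
  funext U e
  simp only [Function.comp, ← mul_assoc, ← ha.rl]

/-- periodic fields times a fixed twisted field -/
theorem map_mulT (hb : PerT n V) : PP.map (fun U => pcT0 n U * V) = PP.map (pcT n) := by
  have h1 : PerT n fun e => (coc (sd n) Tws.z e : S3) := by
    funext e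
    have := hb.rl e
    rw [hb.rl (rlT n e), rlT_rlT, ← mul_assoc, hb.rl e] at this
    exact (mul_right_cancel this).symm
  rw [← map_relT n (φ := id) h1 (b := pcT0 n V) (perT0_pcT0 n V) fun _ _ => Iff.rfl]
  congr 1
  funext U e
  rw [Pi.mul_apply, hb.rl e, ← mul_assoc, ← zc_comm]
  rfl

theorem map_gaugeT {u : St → S3} (hu : PST n u) :
    PP.map (fun U => gauge Inv.inv u (pcT n U)) = PP.map (pcT n) := by
  conv_rhs => rw [← (Ms.mp_gauge u).map_eq,
    map_map (cont_pcT n).measurable (Ms.mp_gauge u).measurable]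
  simp only [Function.comp_def, pcT_gauge hu]

theorem map_cenT (hn : Odd n) {h : St → S3} (hh : Cen h) (hU : PerT n U)
    (hU' : PerT n (gauge Inv.inv h U)) :
    PP.map (fun V => gauge Inv.inv h (pcT n V)) = PP.map (pcT n) := by
  rw [← map_mulT (PerT.cen hh hU hU' (perT_pcT hn 1))]
  congr 1
  funext V
  rw [pcT_eq, hh.gauge_mul]

theorem map_shT (hn : Odd n) (v : St) :
    PP.map (fun U => shT n v (pcT n U)) = PP.map (pcT n) := by
  rw [← map_relT n (φ := fun e => (e.1 + v, e.2)) ((perT_pcT hn 1).shT hn v) (b := 1)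
    (fun _ => rfl) fun i j => by simp only [rlT_iff, cgT_add_iff]]
  congr 1
  funext U e
  simp only [shT, (cen_hT n v).gauge_apply, sh, pcT_apply, Pi.one_apply, mul_one, mul_assoc]

end torus

end Pool.Agent.Lib.MP_7f377f_mp.RG.Q4
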