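import Pool.Agent.Lib.MP_7f377f_mp.G.Q4OpDefs
import Pool.Agent.Lib.MP_7f377f_mp.G.Q4Hole

/-! Rectangular tori with a central twist: definitions and the interface of the top level. -/

noncomputable section

set_option linter.unusedSectionVars false
variable [Pool.Agent.Lib.MP_7f377f_mp.GD]

namespace Pool.Agent.Lib.MP_7f377f_mp.RG.Q4

open Finset MeasureTheory
open scoped Pointwise

/-- the centre of the gauge group -/
abbrev Zc : Type := Subgroup.center S3

instance : CommGroup Zc :=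
  { (inferInstance : Group Zc) with mul_comm := fun a b => Subtype.ext (b.2.comm a.1).symm.eq }

/-- the shape of a torus: odd aspect ratios and central twists `z μ ν`, used for `μ < ν` -/
class Tws where
  asp : Fin 4 → ℕ
  odd : ∀ i, Odd (asp i)
  z : Fin 4 → Fin 4 → Zc

/-- index of the centred cell with sides `M` which contains `x` -/
def qv (M : Fin 4 → ℕ) (x : St) : St := fun i => (x i + (M i / 2 : ℕ)) / (M i : ℤ)

/-- the central cochain of the twist `z` -/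
def coc (M : Fin 4 → ℕ) (z : Fin 4 → Fin 4 → Zc) (e : Lk) : Zc :=
  ∏ μ, if μ < e.2 then z μ e.2 ^ (qv M e.1 μ * (qv M (e.1 + un e.2) e.2 - qv M e.1 e.2)) else 1

section torus

variable [Tws]

/-- the sides of the torus of size `n` -/
def sd (n : ℕ) : Fin 4 → ℕ := fun i => n * Tws.asp i

/-- centred residue -/
def rcT (n : ℕ) : St → St := rcv (sd n)

/-- the sites of the torus -/
def domT (n : ℕ) : Finset St := domv (sd n)

/-- the number of sites -/
def vol (n : ℕ) : ℕ := (domT n).card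

/-- the twisted periodic field which agrees with `U` on the links based in the torus -/
def pcT (n : ℕ) (U : Conf) : Conf := fun e => (coc (sd n) Tws.z e : S3) * U (rcT n e.1, e.2)

/-- twisted periodic fields -/
def PerT (n : ℕ) (U : Conf) : Prop := pcT n U = U

/-- periodic functions of sites -/
def PST {α : Type} (n : ℕ) (u : St → α) : Prop := ∀ x, u (rcT n x) = u x

/-- Wilson weight -/
def wilT (β : ℝ) (n : ℕ) (U : Conf) : ℝ := Real.exp (-(β * ∑ x ∈ domT n, wd (sh x U)))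

/-- integral over the twisted periodic fields -/
def inT (n : ℕ) (f : Conf → ℝ) : ℝ := ∫ U, f (pcT n U) ∂PP

/-- the density at the top level: `P` bounds all polynomial constants -/
structure Top (P β : ℝ) (n : ℕ) (m : BF) (f : Conf → ℝ) : Prop where
  meas : Measurable f
  gi : ∀ u U, PST n u → PerT n U → f (gauge Inv.inv u U) = f U
  pos : ∀ U, PerT n U → 0 < f U
  up : ∀ U, PerT n U → f U ≤ Real.exp (P * vol n - √β * ∑ x ∈ domT n, fs U x)
  lg : ∀ U, PerT n U → (∀ x μ ν, fq U x μ ν ≤ P ^ 8 / √β) →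
    |Real.log (f U) + β * ∑ x ∈ domT n, (cx m (Bx x (cC U)) (Bx x (cC U))).re| ≤ vol n / P ^ 5

end torus

/-- the quadratic density at the top level -/
structure Qm (ρ : ℝ) (R : ℕ) (m : BF) : Prop where
  symm : ∀ a b, m a b = m b a
  rng : Rng R R m
  gauge : ∀ u b, m (gr u) b = 0
  psd : ∀ a, 0 ≤ m a a
  lower : ∀ (a : V) (S : Finset St),
    ∑ x ∈ S, nd a x ≤ 20 * ∑ x ∈ S + box 2, m (sh x a) (sh x a)
  bd : Bd R R ρ m
  R1 : 1 ≤ R
  Rρ : R ≤ ρ

/-- an isolated twist: `Q P = z P Q` has one solution up to conjugation, and only the centre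
commutes with it -/
structure Iso (z : Zc) (P Q : S3) : Prop where
  com : Q * P = z * (P * Q)
  uni : ∀ P' Q' : S3, Q' * P' = z * (P' * Q') → ∃ g, P' = g * P * g⁻¹ ∧ Q' = g * Q * g⁻¹
  cen : ∀ g, g * P = P * g → g * Q = Q * g → g ∈ Subgroup.center S3

/-- the torus with sides `a 0, a 1, a 2, a 3` and twists `ζ` in the plane `01`, `z` in the plane `23` -/
@[reducible] def tw (a : Fin 4 → ℕ) (ha : ∀ i, Odd (a i)) (ζ z : Zc) : Tws :=
  ⟨a, ha, fun μ ν => if μ = 0 ∧ ν = 1 then ζ else if μ = 2 ∧ ν = 3 then z else 1⟩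

theorem odd_long {a b : ℕ} (ha : Odd a) (hb : Odd b) : ∀ i, Odd (![a, b, 1, 1] i) := fun i => by
  fin_cases i <;> simp [ha, hb]

/-- the result of the Laplace method -/
def Lout : Prop := ∀ [Fintype Zc] (z : Zc) (p q : S3), Iso z p q → ∀ ε > (0 : ℝ), ∃ ρ0 : ℝ,
  ∀ (ρ P β : ℝ) (t : ℕ), ρ0 ≤ ρ → Odd t → ρ ≤ t → (t : ℝ) ^ 2 * ρ ^ 20 ≤ P → Real.log P ≤ ρ →
    P ^ 1000 ≤ β → Real.log β ≤ P → ∃ a : ℕ, Odd a ∧ ∀ (R : ℕ) (m : BF), Qm ρ R m → ∃ e : ℝ,
      ∀ (a0 a1 : ℕ) (h0 : Odd a0) (h1 : Odd a1), a0 = a ∨ a0 = 3 * a → a1 = a ∨ a1 = 3 * a →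
        ∀ f : Zc → Conf → ℝ, (∀ ζ, @Top _ (tw _ (odd_long h0 h1) ζ z) P β t m (f ζ)) →
          |Real.log ((Fintype.card Zc : ℝ)⁻¹ * ∑ ζ, @inT _ (tw _ (odd_long h0 h1) ζ z) t (f ζ)) -
            e * a0 * a1| ≤ ε

/-- crude bounds on tori which carry a flat field -/
def Cout : Prop := ∀ (ρ P β : ℝ), 1 ≤ ρ → ρ ^ 20 ≤ P → P ^ 1000 ≤ β → ∃ C : ℝ, ∀ [Tws] (t R : ℕ) (m : BF)
  (f : Conf → ℝ), Odd t → Qm ρ R m → Top P β t m f → (∃ U, PerT t U ∧ ∀ x μ ν, fq U x μ ν = 0) →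
    0 < inT t f ∧ |Real.log (inT t f)| ≤ C * vol t

end Pool.Agent.Lib.MP_7f377f_mp.RG.Q4
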