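import Pool.Agent.Lib.MP_7f377f_mp.G.TwLin
import Pool.Agent.Lib.MP_7f377f_mp.G.TwDef
import Pool.Agent.Lib.MP_7f377f_mp.G.TwCoc

/-! Translations of a torus with twisted boundary conditions as orthogonal matrices. -/

noncomputable section

set_option linter.unusedSectionVars false
variable [Pool.Agent.Lib.MP_7f377f_mp.GD]

namespace Pool.Agent.Lib.MP_7f377f_mp.RG.Lp

open Finset Matrix Q4

variable {τ : Type} [Fintype τ] [DecidableEq τ] {M : Fin 4 → ℕ} {θ : St → Matrix τ τ ℝ}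

/-- the site of the torus below `x` -/
def rX (hM : ∀ i, Odd (M i)) (x : St) : domv M := ⟨rcv M x, rcv_mem hM x⟩

/-- translation by `y` of fields with the boundary condition `θ` -/
def shf (M : Fin 4 → ℕ) (θ : St → Matrix τ τ ℝ) (y : St) : Matrix (domv M × τ) (domv M × τ) ℝ :=
  of fun i j => if rcv M (i.1 + y) = j.1 then θ (qv M (i.1 + y)) i.2 j.2 else 0

theorem qv_spec (x : St) : x = rcv M x + pv M (qv M x) := by
  exact Q4.qv_spec M x

theorem qv_add_pv (hM : ∀ i, Odd (M i)) (x v : St) : qv M (x + pv M v) = qv M x + v := by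
  exact Q4.qv_add hM x v

theorem qv_dom (hM : ∀ i, Odd (M i)) {x : St} (h : x ∈ domv M) : qv M x = 0 := by
  exact Q4.qv_dom hM h

theorem qv_add (hM : ∀ i, Odd (M i)) (x y : St) : qv M (x + y) = qv M x + qv M (rcv M x + y) := by
  conv_lhs => rw [qv_spec (M := M) x, add_right_comm, qv_add_pv hM, add_comm]

theorem rcv_rcv_add (x y : St) : rcv M (rcv M x + y) = rcv M (x + y) := by
  conv_rhs => rw [qv_spec (M := M) x, add_right_comm, rcv_add]

theorem rX_coe (hM : ∀ i, Odd (M i)) (x : domv M) : rX hM x = x := Subtype.ext (rcv_eq hM x.2)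

theorem shf_mulVec (hM : ∀ i, Odd (M i)) (y : St) (f : domv M × τ → ℝ) (i : domv M × τ) :
    (shf M θ y *ᵥ f) i = (θ (qv M (i.1 + y)) *ᵥ fun k => f (rX hM (i.1 + y), k)) i.2 := by
  rw [mulVec, dotProduct, Fintype.sum_prod_type, sum_eq_single (rX hM (i.1 + y))
    (fun j _ hj => sum_eq_zero fun k _ => by
      rw [shf, of_apply, if_neg fun e => hj (Subtype.ext e.symm), zero_mul]) (by simp)]
  simp only [shf, of_apply, rX, if_true, mulVec, dotProduct]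

theorem rcv_back (hM : ∀ i, Odd (M i)) {x x' y : St} (hx : x ∈ domv M) (h : rcv M (x + y) = x') :
    rcv M (x' + -y) = x ∧ qv M (x' + -y) = -qv M (x + y) := by
  have e : x' + -y = x + pv M (-qv M (x + y)) := by
    have := qv_spec (M := M) (x + y)
    rw [h] at this
    funext i
    have := congrFun this i
    simp only [pv, Pi.add_apply, Pi.neg_apply, mul_neg] at this ⊢
    linarith
  rw [e, rcv_add, rcv_eq hM hx, qv_add_pv hM, qv_dom hM hx, zero_add]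
  exact ⟨rfl, rfl⟩

theorem orp_shf (hM : ∀ i, Odd (M i)) (h : Orp θ) : Orp (shf M θ) := by
  refine ⟨?_, fun v w => toLin'.injective (LinearMap.ext fun f => funext fun i => ?_), fun v => ?_⟩
  · ext i j
    simp only [shf, of_apply, add_zero, rcv_eq hM i.1.2, qv_dom hM i.1.2, h.zero, one_apply,
      Prod.ext_iff, Subtype.ext_iff, ite_and]
  · simp only [toLin'_apply, ← mulVec_mulVec, shf_mulVec hM]
    rw [← add_assoc, qv_add hM _ w, h.add, ← mulVec_mulVec]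
    simp only [rX, rcv_rcv_add]
  · ext i j
    simp only [shf, of_apply, transpose_apply]
    by_cases e : rcv M (j.1 + v) = i.1
    · obtain ⟨a, b⟩ := rcv_back hM j.1.2 e
      rw [if_pos e, if_pos a, b, h.neg, transpose_apply]
    · rw [if_neg e, if_neg fun e' => e (by simpa using (rcv_back hM i.1.2 e').1)]

theorem card_domv (hM : ∀ i, Odd (M i)) : (domv M).card = M 0 * M 1 * M 2 * M 3 := by
  have : ∀ i, (Icc (-((M i / 2 : ℕ) : ℤ)) (M i / 2 : ℕ)).card = M i := fun i => by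
    obtain ⟨k, hk⟩ := hM i
    rw [Int.card_Icc]
    omega
  simp only [domv, Fintype.card_piFinset, this, Fin.prod_univ_four]

theorem trace_pv (hM : ∀ i, Odd (M i)) (w : St) :
    trace (shf M θ (pv M w)) = (M 0 * M 1 * M 2 * M 3 : ℝ) * trace (θ w) := by
  have : ∀ x : domv M, ∑ k, shf M θ (pv M w) (x, k) (x, k) = trace (θ w) := fun x => by
    simp only [shf, of_apply, rcv_add, rcv_eq hM x.2, if_true, qv_add_pv hM, qv_dom hM x.2,
      zero_add, trace, Matrix.diag]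
  rw [trace, Fintype.sum_prod_type]
  simp only [Matrix.diag, this, sum_const, card_univ, Fintype.card_coe, card_domv hM, nsmul_eq_mul]
  push_cast
  rfl

theorem trace_not {y : St} (h : ¬ Dv M y) : trace (shf M θ y) = 0 := sum_eq_zero fun i _ => by
  rw [Matrix.diag, shf, of_apply, if_neg fun e => h (by simpa [e] using dv_rcv M (i.1 + y))]

theorem pv_short {M' : Fin 4 → ℕ} (h2 : M' 2 = M 2) (h3 : M' 3 = M 3) {n : ℕ} (a0 : n < M 0)
    (a1 : n < M 1) {w : St} (hy : pv M w ∈ box n) : pv M w = pv M' w := by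
  have k : ∀ i, n < M i → w i = 0 := fun i hi => by
    have := mem_box.1 hy i
    simp only [pv] at this
    by_contra h0
    have h1 : (n : ℤ) < M i := by exact_mod_cast hi
    rcases lt_or_gt_of_ne h0 with h | h <;> nlinarith
  funext i
  fin_cases i <;> simp [pv, k 0 a0, k 1 a1, h2, h3]

/-- the characters of two tori with the same short sides -/
theorem trace_shf {M' : Fin 4 → ℕ} (hM : ∀ i, Odd (M i)) (hM' : ∀ i, Odd (M' i)) (h2 : M' 2 = M 2)
    (h3 : M' 3 = M 3) {n : ℕ} (a0 : n < M 0) (a1 : n < M 1) (b0 : n < M' 0) (b1 : n < M' 1)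
    {y : St} (hy : y ∈ box n) :
    trace (shf M' θ y) = (M' 0 * M' 1 : ℝ) / (M 0 * M 1) * trace (shf M θ y) := by
  by_cases h : Dv M y
  · obtain ⟨w, rfl⟩ := dv_iff.1 h
    have p0 : (M 0 : ℝ) ≠ 0 := by exact_mod_cast (hM 0).pos.ne'
    have p1 : (M 1 : ℝ) ≠ 0 := by exact_mod_cast (hM 1).pos.ne'
    rw [trace_pv hM, pv_short h2 h3 a0 a1 hy, trace_pv hM', h2, h3]
    field_simp
  · rw [trace_not h, mul_zero, trace_not fun h' => h ?_]
    obtain ⟨w, rfl⟩ := dv_iff.1 h'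
    exact dv_iff.2 ⟨w, pv_short h2.symm h3.symm b0 b1 hy⟩

omit [GD] in
theorem Orp.tele {σ : Type} [Fintype σ] [DecidableEq σ] {S : St → Matrix σ σ ℝ} (h : Orp S) (u : St)
    (f : σ → ℝ) (k : ℕ) : ((S (k • u) - 1) *ᵥ f) ⬝ᵥ ((S (k • u) - 1) *ᵥ f) ≤
      k ^ 2 * (((S u - 1) *ᵥ f) ⬝ᵥ ((S u - 1) *ᵥ f)) := by
  induction k with
  | zero => simp [h.zero]
  | succ k ih =>
    have e : (S ((k + 1) • u) - 1) *ᵥ f = S u *ᵥ ((S (k • u) - 1) *ᵥ f) + (S u - 1) *ᵥ f := by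
      rw [mulVec_mulVec, ← add_mulVec, succ_nsmul', h.add, mul_sub, mul_one, sub_add_sub_cancel]
    have o : ∀ a : σ → ℝ, (S u *ᵥ a) ⬝ᵥ (S u *ᵥ a) = a ⬝ᵥ a := fun a => by
      rw [dotProduct_mulVec, vecMul_mulVec, ← h.neg, ← h.add, neg_add_cancel, h.zero, vecMul_one]
    rw [← o] at ih
    rw [e]
    generalize S u *ᵥ ((S (k • u) - 1) *ᵥ f) = a at ih ⊢
    generalize (S u - 1) *ᵥ f = b at ih ⊢
    have c : (a ⬝ᵥ b) ^ 2 ≤ a ⬝ᵥ a * (b ⬝ᵥ b) := by
      simpa only [dotProduct, sq] using sum_mul_sq_le_sq_mul_sq univ a b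
    have b0 := dot0 b
    have d : a ⬝ᵥ b ≤ k * (b ⬝ᵥ b) := (abs_le_of_sq_le_sq' (by nlinarith) (by positivity)).2
    rw [add_dotProduct, dotProduct_add, dotProduct_add, dotProduct_comm b a]
    push_cast
    linarith

theorem pc_shf (hM : ∀ i, Odd (M i)) (h : Orp θ) {C t : ℝ} (C0 : 0 ≤ C) (h2 : (M 2 : ℝ) ≤ t)
    (h3 : (M 3 : ℝ) ≤ t) (hC : ∀ v : τ → ℝ, v ⬝ᵥ v ≤ C * (((θ (un 2) - 1) *ᵥ v) ⬝ᵥ ((θ (un 2) - 1) *ᵥ v) +
      ((θ (un 3) - 1) *ᵥ v) ⬝ᵥ ((θ (un 3) - 1) *ᵥ v))) : Pc (shf M θ) (C * t ^ 2) := by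
  intro f
  have e : ∀ μ, ((shf M θ (M μ • un μ) - 1) *ᵥ f) ⬝ᵥ ((shf M θ (M μ • un μ) - 1) *ᵥ f) =
      ∑ x : domv M, ((θ (un μ) - 1) *ᵥ fun k => f (x, k)) ⬝ᵥ ((θ (un μ) - 1) *ᵥ fun k => f (x, k)) :=
    fun μ => by
      have : M μ • un μ = pv M (un μ) := funext fun i => by
        by_cases hi : i = μ <;> simp [pv, un, hi]
      rw [this, dotProduct, Fintype.sum_prod_type]
      refine sum_congr rfl fun x _ => sum_congr rfl fun k _ => ?_
      have r : rX hM (x + pv M (un μ)) = x := Subtype.ext ((rcv_add _ _).trans (rcv_eq hM x.2))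
      simp only [sub_mulVec, one_mulVec, Pi.sub_apply, shf_mulVec hM, qv_add_pv hM, qv_dom hM x.2,
        zero_add, r]
  have b : ∀ μ, (M μ : ℝ) ≤ t → ((shf M θ (M μ • un μ) - 1) *ᵥ f) ⬝ᵥ ((shf M θ (M μ • un μ) - 1) *ᵥ f) ≤
      t ^ 2 * (((shf M θ (un μ) - 1) *ᵥ f) ⬝ᵥ ((shf M θ (un μ) - 1) *ᵥ f)) := fun μ hμ =>
    ((orp_shf hM h).tele _ f _).trans (mul_le_mul_of_nonneg_right (by gcongr) (dot0 _))
  have a : f ⬝ᵥ f ≤ C * (((shf M θ (M 2 • un 2) - 1) *ᵥ f) ⬝ᵥ ((shf M θ (M 2 • un 2) - 1) *ᵥ f) +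
      ((shf M θ (M 3 • un 3) - 1) *ᵥ f) ⬝ᵥ ((shf M θ (M 3 • un 3) - 1) *ᵥ f)) := by
    rw [e 2, e 3, ← sum_add_distrib, mul_sum, dotProduct, Fintype.sum_prod_type]
    exact sum_le_sum fun x _ => hC fun k => f (x, k)
  refine a.trans ?_
  rw [mul_assoc, Fin.sum_univ_four]
  refine mul_le_mul_of_nonneg_left ?_ C0
  nlinarith [b 2 h2, b 3 h3, mul_nonneg (sq_nonneg t) (dot0 ((shf M θ (un 0) - 1) *ᵥ f)),
    mul_nonneg (sq_nonneg t) (dot0 ((shf M θ (un 1) - 1) *ᵥ f))]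

end Pool.Agent.Lib.MP_7f377f_mp.RG.Lp
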