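import Pool.Agent.Lib.MP_7f377f_mp.G.TwRig
import Pool.Agent.Lib.MP_7f377f_mp.G.TwShf
import Pool.Agent.Lib.MP_7f377f_mp.G.RGAp3
import Pool.Agent.Lib.MP_7f377f_mp.G.RGMeasKer
import Pool.Agent.Lib.MP_7f377f_mp.G.TwCoc

/-! Fields on the twisted torus seen from the vacuum, and the extended gauge group. -/

noncomputable section

set_option linter.unusedSectionVars false
variable [Pool.Agent.Lib.MP_7f377f_mp.GD]

namespace Pool.Agent.Lib.MP_7f377f_mp.RG.Lp

open Finset Matrix MeasureTheory Q4 Ms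

/-- the twisted lift; `pcT` of the torus `tw a ha ζ z` -/
def pcM (M : Fin 4 → ℕ) (ζ z : Zc) (U : Conf) : Conf := fun e =>
  (coc M (fun μ ν => if μ = 0 ∧ ν = 1 then ζ else if μ = 2 ∧ ν = 3 then z else 1) e : S3) *
    U (rcv M e.1, e.2)

theorem pcT_tw (a : Fin 4 → ℕ) (ha : ∀ i, Odd (a i)) (ζ z : Zc) (t : ℕ) :
    @pcT _ (tw a ha ζ z) t = pcM (fun i => t * a i) ζ z := rfl

/-- the quadratic action -/
def Ph (m : BF) (M : Fin 4 → ℕ) (U : Conf) : ℝ :=
  ∑ x ∈ domv M, (cx m (Bx x (cC U)) (Bx x (cC U))).re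

theorem Ph_gauge {m : BF} {R : ℕ} (h : Rng R R m) (M : Fin 4 → ℕ) (u : St → S3) (U : Conf) :
    Ph m M (gauge Inv.inv u U) = Ph m M U := by
  simp only [Ph, cC_gauge, Bx_gauge fun x => uni_cS (u x), cx_adF m h (uni_cS _)]

theorem zc_left (y : Zc) (a b : S3) : a * (y * b) = y * (a * b) := by
  rw [← mul_assoc, ← zc_comm, mul_assoc]

theorem zc_conj (y : Zc) (a g b : S3) : y * a * g * (y * b)⁻¹ = a * g * b⁻¹ := by
  rw [mul_assoc _ a, zc_comm, zc_comm y b]
  group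

/-- product Haar measure -/
abbrev hP (ι : Type) [Fintype ι] : Measure (ι → S3) := Measure.pi fun _ => haar

/-- a torus with a twist eating pair -/
structure Dt where
  M : Fin 4 → ℕ
  odd : ∀ i, Odd (M i)
  z : Zc
  P : S3
  Q : S3
  com : Q * P = z * (P * Q)

namespace Dt

variable (T : Dt)

/-- link variables -/
abbrev Cn : Type := Fin 4 × domv T.M → S3

/-- gauge transformations -/
abbrev Gg : Type := Unit × domv T.M → S3

def ga (v : St) : S3 := T.Q ^ v 3 * T.P ^ v 2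

def gx (x : St) : S3 := T.ga (qv T.M x)

def th (v : St) : Matrix (Fin GD.d) (Fin GD.d) ℝ := Rm (T.ga v)

/-- the translations of adjoint fields -/
def S : St → Matrix (domv T.M × Fin GD.d) (domv T.M × Fin GD.d) ℝ := shf T.M T.th

/-- the lift in the gauge in which the vacuum is `1` -/
def lt (v : T.Cn) : Conf := fun e => T.gx e.1 * v (e.2, rX T.odd e.1) * (T.gx e.1)⁻¹

/-- the lift in the gauge of `pcT` -/
def tU (v : T.Cn) : Conf := gauge Inv.inv (fun x => (T.gx x)⁻¹) (T.lt v)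

/-- the lift of a gauge transformation and of a centre transformation -/
def kk (c : Zc × Zc) (g : T.Gg) (x : St) : S3 :=
  (c.1 ^ qv T.M x 0 * c.2 ^ qv T.M x 1 : Zc) * (T.gx x * g ((), rX T.odd x) * (T.gx x)⁻¹)

/-- the action of the extended gauge group -/
def ac (c : Zc × Zc) (g : T.Gg) (v : T.Cn) : T.Cn :=
  fun p => gauge Inv.inv (T.kk c g) (T.lt v) (p.2, p.1)

theorem zpow_com (a b : ℤ) : T.Q ^ a * T.P ^ b = (T.z ^ (b * a) : Zc) * (T.P ^ b * T.Q ^ a) := by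
  have c : ∀ (y : Zc) (g : S3), Commute (y : S3) g := zc_comm
  have h1 : SemiconjBy T.Q T.P (T.z * T.P) := by rw [SemiconjBy, T.com, mul_assoc]
  have h2 : SemiconjBy (T.P ^ b) ((T.z ^ b : Zc) * T.Q) T.Q := by
    rw [SemiconjBy, (h1.zpow_right b).eq, (c _ _).mul_zpow, ← mul_assoc, ← (c _ _).eq,
      Subgroup.coe_zpow]
  rw [← (h2.zpow_right a).eq, (c _ _).mul_zpow, ← Subgroup.coe_zpow, ← _root_.zpow_mul, zc_left]

theorem ga_mul (v w : St) : T.ga (v + w) = (T.z ^ (v 2 * w 3) : Zc) * (T.ga v * T.ga w) := by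
  simp only [ga, Pi.add_apply, _root_.zpow_add]
  rw [mul_assoc, ← mul_assoc (T.Q ^ w 3), zpow_com, mul_assoc, zc_left]
  simp only [mul_assoc]

theorem ga_zero : T.ga 0 = 1 := by simp [ga]

theorem ga_add (v w : St) : ∃ y : Zc, T.ga (v + w) = y * (T.ga v * T.ga w) := by
  exact ⟨_, T.ga_mul v w⟩

theorem ga_conj (v w : St) (g : S3) :
    T.ga (v + w) * g * (T.ga (v + w))⁻¹ = T.ga v * (T.ga w * g * (T.ga w)⁻¹) * (T.ga v)⁻¹ := by
  rw [ga_mul, zc_conj]
  group

theorem gx_dom (x : domv T.M) : T.gx x = 1 := by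
  rw [gx, qv_dom T.odd x.2, ga_zero]

theorem lt_dom (v : T.Cn) (p : Fin 4 × domv T.M) : T.lt v (p.2, p.1) = v p := by
  simp only [lt, gx_dom, rX_coe, one_mul, inv_one, mul_one]

theorem rX_pv (x w : St) : rX T.odd (x + pv T.M w) = rX T.odd x := Subtype.ext (rcv_add x w)

theorem gx_pv (x w : St) (g : S3) : T.gx (x + pv T.M w) * g * (T.gx (x + pv T.M w))⁻¹ =
    T.ga w * (T.gx x * g * (T.gx x)⁻¹) * (T.ga w)⁻¹ := by
  rw [gx, qv_add_pv T.odd, add_comm, ga_conj, gx]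

theorem kk_pv (c : Zc × Zc) (g : T.Gg) (x w : St) : T.kk c g (x + pv T.M w) =
    (c.1 ^ w 0 * c.2 ^ w 1 : Zc) * (T.ga w * T.kk c g x * (T.ga w)⁻¹) := by
  rw [kk, kk, gx_pv, rX_pv, qv_add_pv T.odd, zc_left _ (T.ga w), Pi.add_apply, Pi.add_apply,
    _root_.zpow_add, _root_.zpow_add, mul_mul_mul_comm, mul_comm (_ * _ : Zc), Subgroup.coe_mul]
  simp only [mul_assoc]

theorem kk_mul (c c' : Zc × Zc) (g g' : T.Gg) (x : St) :
    T.kk (c' * c) (g' * g) x = T.kk c' g' x * T.kk c g x := by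
  simp only [kk, Prod.fst_mul, Prod.snd_mul, mul_zpow, Pi.mul_apply]
  rw [mul_mul_mul_comm, Subgroup.coe_mul, mul_assoc, mul_assoc (Subtype.val _) (_ * _ * _),
    ← mul_assoc (_ * _ * _) (Subtype.val _), ← zc_comm _ (_ * _ * _)]
  group

theorem kk_one (g : T.Gg) (x : St) : T.kk 1 g x = T.gx x * g ((), rX T.odd x) * (T.gx x)⁻¹ := by
  simp [kk]

theorem lt_pv (v : T.Cn) (x w : St) (μ : Fin 4) :
    T.lt v (x + pv T.M w, μ) = T.ga w * T.lt v (x, μ) * (T.ga w)⁻¹ := by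
  simp only [lt, gx_pv, rX_pv]

theorem nq_lt (v : T.Cn) (e : Lk) : nq (T.lt v e) = nq (v (e.2, rX T.odd e.1)) := nq_conj _ _

theorem orp_th : Orp T.th := by
  have a : ∀ v w, T.th (v + w) = T.th v * T.th w := fun v w => by
    rw [th, ga_mul, Rm_mul, Rm_cen, one_mul, Rm_mul, th, th]
  refine ⟨by rw [th, ga_zero, Rm_one], a, fun v => ?_⟩
  have h := a v (-v)
  rw [add_neg_cancel, th, ga_zero, Rm_one] at h
  rw [← mul_one (T.th v)ᵀ, h, ← mul_assoc, th, th, ← Rm_inv, ← Rm_mul, inv_mul_cancel, Rm_one,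
    one_mul]

theorem orp_S : Orp T.S := orp_shf T.odd T.orp_th

theorem lt_ac (c : Zc × Zc) (g : T.Gg) (v : T.Cn) :
    T.lt (T.ac c g v) = gauge Inv.inv (T.kk c g) (T.lt v) := by
  funext ⟨x, μ⟩
  conv_rhs => rw [qv_spec (M := T.M) x]
  simp only [gauge, add_right_comm _ (pv T.M _), kk_pv, lt_pv, zc_conj]
  rw [lt]
  simp only [ac, gauge, gx, rX]
  group

theorem ac_ac (c c' : Zc × Zc) (g g' : T.Gg) (v : T.Cn) :
    T.ac c' g' (T.ac c g v) = T.ac (c' * c) (g' * g) v := by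
  funext p
  rw [ac, lt_ac, Mx.gauge_gauge, ac]
  simp only [← kk_mul]

theorem ac_one (v : T.Cn) : T.ac 1 1 v = v := by
  funext p
  simp [ac, gauge, kk_one, lt_dom]

theorem ac_cen (c : Zc × Zc) (g : T.Gg) (y : Zc) (v : T.Cn) :
    T.ac c (fun p => g p * y) v = T.ac c g v := by
  have h : ∀ x, T.kk c (fun p => g p * y) x = T.kk c g x * y := fun x => by
    rw [kk, kk, ← mul_assoc (T.gx x), mul_assoc _ (y : S3), zc_comm y]
    simp only [mul_assoc]
  funext p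
  simp only [ac, gauge, h]
  rw [mul_assoc _ (y : S3), zc_comm y]
  group

theorem ac_apply (g : T.Gg) (v : T.Cn) (p : Fin 4 × domv T.M) : T.ac 1 g v p = g ((), p.2) * v p *
    (T.gx (p.2 + un p.1) * g ((), rX T.odd (p.2 + un p.1)) * (T.gx (p.2 + un p.1))⁻¹)⁻¹ := by
  simp only [ac, gauge, kk_one, lt_dom, gx_dom, rX_coe, one_mul, inv_one, mul_one]

theorem tU_ac (g : T.Gg) (v : T.Cn) :
    T.tU (T.ac 1 g v) = gauge Inv.inv (fun x => g ((), rX T.odd x)) (T.tU v) := by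
  simp only [tU, lt_ac, Mx.gauge_gauge, kk_one, ← mul_assoc, inv_mul_cancel, one_mul]

theorem tU_apply (v : T.Cn) (e : Lk) : T.tU v e =
    (T.z ^ (qv T.M e.1 2 * qv T.M (rcv T.M e.1 + un e.2) 3) : Zc) *
      (v (e.2, rX T.odd e.1) * T.ga (qv T.M (rcv T.M e.1 + un e.2))) := by
  simp only [tU, gauge, lt, gx]
  rw [qv_add T.odd, ga_mul, zc_comm, zc_comm]
  group

theorem pcM_apply (U : Conf) (e : Lk) : pcM T.M 1 T.z U e =
    (T.z ^ (qv T.M e.1 2 * qv T.M (rcv T.M e.1 + un e.2) 3) : Zc) * U (rcv T.M e.1, e.2) := by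
  rw [pcM, coc_eq, qv_add T.odd, add_sub_cancel_left]
  simp [zb, Fin.prod_univ_four]

theorem pc_tU (v : T.Cn) : pcM T.M 1 T.z (T.tU v) = T.tU v := by
  funext e
  have h := rcv_mem T.odd e.1
  simp only [pcM_apply, tU_apply, qv_dom T.odd h, rcv_eq T.odd h, rX, Pi.zero_apply, zero_mul,
    zpow_zero, OneMemClass.coe_one, one_mul]

theorem cont_lt : Continuous T.lt := by
  refine continuous_pi fun e => ?_
  unfold lt
  fun_prop

theorem cont_tU : Continuous T.tU := by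
  refine continuous_pi fun e => ?_
  simp only [tU_apply]
  fun_prop

theorem cont_ac (c : Zc × Zc) : Continuous fun p : T.Gg × T.Cn => T.ac c p.1 p.2 := by
  refine continuous_pi fun e => ?_
  simp only [ac, gauge, kk, lt]
  fun_prop

theorem mp_ac (c : Zc × Zc) (g : T.Gg) : MeasurePreserving (T.ac c g) (hP _) (hP _) := by
  have : T.ac c g = fun v p => T.kk c g p.2 * v p * (T.kk c g (p.2 + un p.1))⁻¹ := by
    funext v p
    simp only [ac, gauge, lt_dom]
  rw [this]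
  exact measurePreserving_pi _ _ fun _ =>
    (measurePreserving_mul_right haar _).comp (measurePreserving_mul_left haar _)

theorem int_tU {f : Conf → ℝ} (mf : Measurable f) :
    ∫ U, f (pcM T.M 1 T.z U) ∂PP = ∫ v, f (T.tU v) ∂hP _ := by
  have hj : Function.Injective fun p : Fin 4 × domv T.M => ((p.2, p.1) : Lk) := fun p q h =>
    Prod.ext (congrArg Prod.snd h) (Subtype.ext (congrArg Prod.fst h))
  have h1 : MeasurePreserving (fun (U : Conf) (p : Fin 4 × domv T.M) => U (p.2, p.1)) PP (hP _) :=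
    ⟨by fun_prop, (Measure.map_infinitePi_infinitePi_of_inj (P := fun _ : Lk => haar) hj).trans
      (Measure.infinitePi_eq_pi _)⟩
  have h2 := (measurePreserving_pi _ _ fun p : Fin 4 × domv T.M =>
    measurePreserving_mul_right haar (T.ga (qv T.M (p.2 + un p.1)))⁻¹).comp h1
  rw [hP, ← h2.map_eq, integral_map (f := fun v => f (T.tU v)) h2.measurable.aemeasurable
    (mf.comp T.cont_tU.measurable).aestronglyMeasurable]
  refine congrArg _ (funext fun U => congrArg f (funext fun e => ?_))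
  simp only [pcM_apply, tU_apply, Function.comp, rX, inv_mul_cancel_right]

/-- the numbers: `B` bounds all polynomial constants -/
structure Ok (C B β : ℝ) : Prop where
  rig : Rig T.z T.P T.Q C
  big : 10 ^ 9 * C ^ 2 * cG ≤ B
  side : ∀ i, (T.M i : ℝ) ≤ B ^ 2
  vol : ((domv T.M).card : ℝ) ≤ B ^ 4
  p2 : C * (T.M 2 : ℝ) ^ 2 ≤ B
  p3 : C * (T.M 3 : ℝ) ^ 2 ≤ B
  beta : B ^ 1000 ≤ β

theorem pc {C t : ℝ} (h : Rig T.z T.P T.Q C) (h2 : (T.M 2 : ℝ) ≤ t) (h3 : (T.M 3 : ℝ) ≤ t) :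
    Pc T.S (C * t ^ 2) := by
  refine pc_shf T.odd T.orp_th (zero_le_one.trans h.one) h2 h3 fun v => ?_
  simpa [th, ga, un] using h.r4 v

variable {T}

theorem Ok.pc {C B β : ℝ} (h : T.Ok C B β) : Pc T.S B := by
  rcases le_total (T.M 2 : ℝ) (T.M 3) with a | a
  · exact fun f => (T.pc h.rig a le_rfl f).trans
      (mul_le_mul_of_nonneg_right h.p3 (sum_nonneg fun _ _ => dot0 _))
  · exact fun f => (T.pc h.rig le_rfl a f).trans
      (mul_le_mul_of_nonneg_right h.p2 (sum_nonneg fun _ _ => dot0 _))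

theorem Ok.B1 {C B β : ℝ} (h : T.Ok C B β) : 10 ^ 15 ≤ B := by
  have := h.big
  have := h.rig.one
  have := GD.cG_ge
  nlinarith [mul_le_mul (one_le_pow₀ h.rig.one (n := 2)) GD.cG_ge (by norm_num) (sq_nonneg C)]

end Dt

end Pool.Agent.Lib.MP_7f377f_mp.RG.Lp
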