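import Pool.Agent.Lib.MP_7f377f_mp.G.TwS0

/-! The quantum theory on the plane times a torus from the soft properties. -/

noncomputable section

set_option linter.unusedSectionVars false
variable [Pool.Agent.Lib.MP_7f377f_mp.GD]

namespace Pool.Agent.Lib.MP_7f377f_mp.YM9

open MeasureTheory Filter Topology Function Real
open YM7 (rp sh th qf Ker)

variable {k l : ℕ} {m Δ : ℝ} {Λ : Set R4} {S : ∀ {k : ℕ}, (Fin k → R4 → ℝ) → ℝ}

theorem closed_L2 (m : ℝ) : IsClosed (L2 m) := by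
  have : L2 m = Lc m ∩ {w | w 1 = 0} := Set.ext fun w =>
    ⟨fun ⟨z, e, e1, e'⟩ => ⟨⟨z, e, e'⟩, by simp [e', pt, e1]⟩, fun ⟨⟨z, e, e1⟩, e'⟩ =>
      ⟨update z 1 0, by simpa using e, update_self .., PiLp.ext fun l => by
        by_cases hl : l = 1
        · simpa [hl, pt] using e'
        · simp [e1, pt, hl]⟩⟩
  exact this ▸ (closed_Lc m).inter (isClosed_eq (by fun_prop) continuous_const)

theorem L2.t0 {w : R4} (h : w ∈ L2 m) : w 0 = 0 := by
  obtain ⟨z, e, -, rfl⟩ := h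
  simp [pt, e]

theorem L2.sub {v w : R4} (h : v ∈ L2 m) (h' : w ∈ L2 m) : v - w ∈ L2 m := by
  obtain ⟨z, e, e1, rfl⟩ := h
  obtain ⟨y, f, f1, rfl⟩ := h'
  exact ⟨z - y, by simp [e, f], by simp [e1, f1], PiLp.ext fun l => by simp [pt, mul_sub]⟩

theorem L2.zero : (0 : R4) ∈ L2 m := ⟨0, rfl, rfl, PiLp.ext fun l => by simp [pt]⟩

theorem L2.neg {w : R4} (h : w ∈ L2 m) : -w ∈ L2 m := zero_sub w ▸ L2.sub L2.zero h

theorem L2.add {v w : R4} (h : v ∈ L2 m) (h' : w ∈ L2 m) : v + w ∈ L2 m :=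
  sub_neg_eq_add v w ▸ L2.sub h (L2.neg h')

theorem AdL.comp {κ : Type} {f : κ → R4 → ℝ} (hf : AdL Λ f) (θ : R4 ≃ₜ R4) (hθ : ContDiff ℝ 1 θ)
    (e : ∀ y, ∀ w ∈ Λ, ∃ w' ∈ Λ, θ (y + w) = θ y + w') : AdL Λ fun i y => f i (θ y) :=
  ⟨fun i => ⟨(hf.1 i).1.comp_homeomorph θ, (hf.1 i).2.comp hθ⟩, fun i j hij x hx y hy w hw h => by
    obtain ⟨w', h1, h2⟩ := e y w hw
    exact hf.2 i j hij _ (YM7.tsupport_comp θ.continuous hx) _
      (YM7.tsupport_comp θ.continuous hy) w' h1 (h ▸ h2)⟩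

theorem AdL.add {κ : Type} {f : κ → R4 → ℝ} (hf : AdL Λ f) (v : R4) :
    AdL Λ fun i y => f i (y + v) :=
  hf.comp (Homeomorph.addRight v) (contDiff_id.add contDiff_const) fun _ w hw =>
    ⟨w, hw, add_right_comm ..⟩

theorem AdL.sh {f : Fin k → R4 → ℝ} (hf : AdL Λ f) (v : R4) : AdL Λ (sh v f) := by
  unfold YM7.sh
  simpa only [sub_eq_add_neg] using hf.add (-v)

theorem AdL.theta {f : Fin k → R4 → ℝ} (hf : AdL (L2 m) f) : AdL (L2 m) fun i => theta (f i) := by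
  have := hf.comp YM7.thL.toHomeomorph YM7.thL.contDiff fun y w hw => ⟨w, hw, by
    rw [LinearIsometryEquiv.coe_toHomeomorph, map_add, YM7.thL_eq, add_right_inj]
    ext l
    by_cases h : l = 0 <;> simp [th, h, L2.t0 hw]⟩
  rwa [LinearIsometryEquiv.coe_toHomeomorph, YM7.thL_eq] at this

theorem AdL.reindex {f : Fin k → R4 → ℝ} (hf : AdL Λ f) (e : Fin l ≃ Fin k) : AdL Λ (f ∘ e) :=
  ⟨fun i => hf.1 (e i), fun _ _ h => hf.2 _ _ (e.injective.ne h)⟩

theorem PoL.sh {f : Fin k → R4 → ℝ} (hf : PoL Λ f) {v : R4} (hv : 0 ≤ v 0) : PoL Λ (sh v f) :=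
  ⟨hf.1.sh v, fun i y hy => by
    have := hf.2 i _ (YM7.tsupport_comp (θ := fun y => y - v) (by fun_prop) hy)
    simp only [PiLp.sub_apply] at this
    linarith⟩

theorem PoL.rp {f : Fin k → R4 → ℝ} {g : Fin l → R4 → ℝ} (hf : PoL (L2 m) f) (hg : PoL (L2 m) g) :
    AdL (L2 m) (rp f g) := by
  have e : ∀ i, ∀ y ∈ tsupport (theta (f i)), y 0 < 0 := fun i y hy => by
    have e := hf.2 i _ (YM7.tsupport_comp (θ := th) (f := f i)
      (YM7.thL_eq ▸ YM7.thL.continuous) hy)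
    rw [YM7.th_zero] at e
    linarith
  refine ⟨YM5.forall_append (P := fun u => HasCompactSupport u ∧ ContDiff ℝ 1 u) hf.1.theta.1 hg.1.1,
    fun i j hij => YM5.pairwise_append (R := fun u v : R4 → ℝ => ∀ x ∈ tsupport u,
      ∀ y ∈ tsupport v, ∀ w ∈ L2 m, x ≠ y + w)
      (fun u v H x hx y hy w hw h => H y hy x hx (-w) (L2.neg hw) ?_) hf.1.theta.2 hg.1.2
      (fun i j x hx y hy w hw h => ?_) hij⟩
  · rw [h, add_neg_cancel_right]
  · have h1 := e i x hx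
    have h2 := hg.2 j y hy
    simp only [h, PiLp.add_apply, L2.t0 hw] at h1
    linarith

/-- the soft properties of the Schwinger functions -/
structure OS2 (m Δ : ℝ) (S : ∀ {k : ℕ}, (Fin k → R4 → ℝ) → ℝ) : Prop where
  nil : ∀ f : Fin 0 → R4 → ℝ, S f = 1
  perm : ∀ {k l} (e : Fin l ≃ Fin k) {f : Fin k → R4 → ℝ}, AdL (L2 m) f → S (f ∘ e) = S f
  trans : ∀ {k} {f : Fin k → R4 → ℝ}, AdL (L2 m) f → ∀ v, S (fun i y => f i (y + v)) = S f
  refl : ∀ {k} {f : Fin k → R4 → ℝ}, AdL (L2 m) f → S (fun i => theta (f i)) = S f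
  per : ∀ {k} {f : Fin k → R4 → ℝ}, AdL (L2 m) f → ∀ w : Fin k → R4, (∀ i, w i ∈ L2 m) →
    S (fun i y => f i (y - w i)) = S f
  cont : ∀ {k} {f : Fin k → R4 → ℝ}, AdL (L2 m) f →
    Tendsto (fun u : Fin k → R4 => S fun i y => f i (y - u i)) (𝓝 0) (𝓝 (S f))
  pos : ∀ {A : Type} [Fintype A] {κ : A → ℕ} {f : ∀ x, Fin (κ x) → R4 → ℝ},
    (∀ x, PoL (L2 m) (f x)) → ∀ c, ∀ t ≥ 0, (0 ≤ gr S f t c ∧ gr S f t c ≤ gr S f 0 c) ∧
      gr S f t c - (∑ x, c x * S (f x)) ^ 2 ≤ exp (-Δ * t) * gr S f 0 c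

theorem OS2.symm (h : OS2 m Δ S) {f : Fin k → R4 → ℝ} {g : Fin l → R4 → ℝ} (hf : PoL (L2 m) f)
    (hg : PoL (L2 m) g) : S (rp f g) = S (rp g f) := by
  rw [← h.refl (hf.rp hg), ← h.perm finAddFlip (hg.rp hf)]
  refine congrArg S (funext fun i => ?_)
  induction i using Fin.addCases with
  | left i =>
    simp only [rp, Function.comp, Fin.append_left, finAddFlip_apply_castAdd, Fin.append_right]
    exact funext fun y => congrArg _ (YM7.th_th y)
  | right i =>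
    simp only [rp, Function.comp, Fin.append_left, finAddFlip_apply_natAdd, Fin.append_right]
    rfl

theorem OS2.shift (h : OS2 m Δ S) {f : Fin k → R4 → ℝ} {g : Fin l → R4 → ℝ} (hf : PoL (L2 m) f)
    (hg : PoL (L2 m) g) {v w : R4} (hv : 0 ≤ v 0) (hw : 0 ≤ w 0) :
    S (rp (sh v f) (sh w g)) = S (rp f (sh (w - th v) g)) := by
  rw [← h.trans ((hf.sh hv).rp (hg.sh hw)) (th v)]
  refine congrArg S (funext fun i => funext fun y => ?_)
  induction i using Fin.addCases with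
  | left i =>
    simp only [rp, Fin.append_left]
    change f i (th (y + th v) - v) = f i (th y)
    rw [YM7.th_add, YM7.th_th, add_sub_cancel_right]
  | right i =>
    simp only [rp, Fin.append_right, sh]
    rw [sub_sub_eq_add_sub]

theorem OS2.cont' (h : OS2 m Δ S) {f : Fin k → R4 → ℝ} {g : Fin l → R4 → ℝ} (hf : PoL (L2 m) f)
    (hg : PoL (L2 m) g) {w : R4} (hw : 0 ≤ w 0) :
    ContinuousAt (fun v => S (rp f (sh v g))) w := by
  have h1 : Tendsto (fun v : R4 => (Fin.append (fun _ => 0) (fun _ => v - w) : Fin (k + l) → R4))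
      (𝓝 w) (𝓝 0) := tendsto_pi_nhds.2 fun i => by
    induction i using Fin.addCases with
    | left i => simpa only [Fin.append_left, Pi.zero_apply] using tendsto_const_nhds
    | right i =>
      simpa only [Fin.append_right, Pi.zero_apply, id] using
        tendsto_sub_nhds_zero_iff.2 tendsto_id
  refine ((h.cont (hf.rp (hg.sh hw))).comp h1).congr fun v => ?_
  refine congrArg S (funext fun i => funext fun y => ?_)
  induction i using Fin.addCases with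
  | left i => simp only [rp, Fin.append_left, sub_zero]
  | right i => simp only [rp, Fin.append_right, sh, sub_sub, sub_add_cancel]

theorem OS2.per' (h : OS2 m Δ S) {f : Fin k → R4 → ℝ} {g : Fin l → R4 → ℝ} (hf : PoL (L2 m) f)
    (hg : PoL (L2 m) g) {w : R4} (hw : w ∈ L2 m) : S (rp f (sh w g)) = S (rp f g) := by
  rw [← h.per (hf.rp hg) (Fin.append (fun _ => 0) fun _ => w) fun i => by
    induction i using Fin.addCases with
    | left i => simpa only [Fin.append_left] using L2.zero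
    | right i => simpa only [Fin.append_right] using hw]
  refine congrArg S (funext fun i => funext fun y => ?_)
  induction i using Fin.addCases with
  | left i => simp only [rp, Fin.append_left, sub_zero]
  | right i => simp only [rp, Fin.append_right, sh]

/-- families at positive times -/
abbrev PY (m : ℝ) : Type := {p : Σ k, Fin k → R4 → ℝ // PoL (L2 m) p.2}

/-- translation of a label -/
def sg2 (v : R4) (x : PY m) : PY m := if h : 0 ≤ v 0 then ⟨⟨_, sh v x.1.2⟩, x.2.sh h⟩ else x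

theorem sg2_eq {v : R4} (hv : 0 ≤ v 0) (x : PY m) : sg2 v x = ⟨⟨_, sh v x.1.2⟩, x.2.sh hv⟩ :=
  dif_pos hv

/-- the kernel on labels -/
def kb2 (S : ∀ {k : ℕ}, (Fin k → R4 → ℝ) → ℝ) (x y : PY m) : ℝ := S (rp x.1.2 y.1.2)

/-- the empty label -/
def vc2 (m : ℝ) : PY m := ⟨⟨0, ![]⟩, ⟨fun i => i.elim0, fun i => i.elim0⟩, fun i => i.elim0⟩

theorem sg2_zero (x : PY m) : sg2 0 x = x := by
  rw [sg2_eq le_rfl]
  refine Subtype.ext (Sigma.ext rfl (heq_of_eq ?_))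
  unfold sh
  simp only [sub_zero]

theorem qf2_gr (s : Finset (PY m)) (c : PY m → ℝ) {t : ℝ} (ht : 0 ≤ t) :
    qf (fun x y => kb2 S x (sg2 (EuclideanSpace.single 0 t) y)) s c =
      gr S (fun x : s => x.1.1.2) t fun x => c x := by
  rw [qf, gr, ← s.sum_coe_sort]
  refine Finset.sum_congr rfl fun a _ => ?_
  rw [← s.sum_coe_sort]
  refine Finset.sum_congr rfl fun b _ => ?_
  rw [sg2_eq (single_nonneg ht)]
  rfl

theorem qf2_gr0 (s : Finset (PY m)) (c : PY m → ℝ) :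
    qf (kb2 S) s c = gr S (fun x : s => x.1.1.2) 0 fun x => c x := by
  rw [← qf2_gr s c le_rfl]
  simp only [single_zero, sg2_zero]

theorem OS2.ker (h : OS2 m Δ S) : Ker (sg2 (m := m)) (kb2 S) (vc2 m) where
  symm x y := h.symm x.2 y.2
  zero := sg2_zero
  add v w x hv hw := by
    rw [sg2_eq hw, sg2_eq hv, sg2_eq (v := v + w) (add_nonneg hv hw)]
    refine Subtype.ext (Sigma.ext rfl (heq_of_eq ?_))
    unfold sh
    simp only [sub_sub]
  shift v w x y hv hw := by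
    have e : 0 ≤ (w - th v) 0 := by
      rw [PiLp.sub_apply, YM7.th_zero, sub_neg_eq_add]
      exact add_nonneg hw hv
    rw [sg2_eq hw, sg2_eq hv, sg2_eq e]
    exact h.shift x.2 y.2 hv hw
  pos s c t ht := by
    rw [qf2_gr s c ht, qf2_gr0]
    exact (h.pos (fun x : s => x.1.2) _ t ht).1
  cont x y w hw := (h.cont' x.2 y.2 hw).continuousWithinAt.congr
    (fun v hv => by rw [sg2_eq hv]; rfl) (by rw [sg2_eq hw]; rfl)
  one := h.nil _
  vac v := by
    by_cases hv : 0 ≤ v 0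
    · rw [sg2_eq hv]
      exact Subtype.ext (Sigma.ext rfl (heq_of_eq (funext fun i => i.elim0)))
    · exact dif_neg hv

theorem clus_on {H : Type} [NormedAddCommGroup H] [InnerProductSpace ℂ H] {X : Type} {ψ : X → H}
    {B B' : X → X → ℝ} {A : H →L[ℂ] H} {γ : ℝ} {Ω : H} {u : X → ℝ}
    (hd : Dense (Submodule.span ℂ (Set.range ψ) : Set H)) (h : ∀ x y, inner ℂ (ψ x) (ψ y) = B x y)
    (h' : ∀ x y, inner ℂ (ψ x) (A (ψ y)) = B' x y) (hu : ∀ x, inner ℂ Ω (ψ x) = u x)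
    (hf : ∀ (s : Finset X) (c : X → ℝ), qf B' s c - (∑ x ∈ s, c x * u x) ^ 2 ≤ γ * qf B s c)
    (w : H) : (inner ℂ w (A w)).re - ‖inner ℂ Ω w‖ ^ 2 ≤ γ * ‖w‖ ^ 2 := by
  refine hd.induction (P := fun w => (inner ℂ w (A w)).re - ‖inner ℂ Ω w‖ ^ 2 ≤ γ * ‖w‖ ^ 2)
    (fun w hw => ?_) (isClosed_le (by fun_prop) (by fun_prop)) w
  obtain ⟨z, rfl⟩ := Finsupp.mem_span_range_iff_exists_finsupp.1 hw
  have e1 := YM7.re_inner_sum h z.support z
  have e2 := YM7.re_inner_sum h' z.support z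
  have e3 : ‖inner ℂ Ω (∑ x ∈ z.support, z x • ψ x)‖ ^ 2 = (∑ x ∈ z.support, (z x).re * u x) ^ 2 +
      (∑ x ∈ z.support, (z x).im * u x) ^ 2 := by
    rw [Complex.sq_norm, Complex.normSq_apply]
    simp [inner_sum, inner_smul_right, hu, sq]
  rw [Finsupp.sum, e3, map_sum, @norm_sq_eq_re_inner ℂ H, RCLike.re_to_complex, e1]
  simp only [map_smul, e2]
  linarith [hf z.support fun x => (z x).re, hf z.support fun x => (z x).im]

theorem OS2.hilbert (h : OS2 m Δ S) (hS : ∀ f : Fin 2 → R4 → ℝ, YM7.Adm f →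
      Tendsto (fun d : ℝ => log d⁻¹ ^ 2 * S fun i y => f i (d⁻¹ • y)) (𝓝[>] 0)
        (𝓝 ((48 / (11 * GD.b0)) ^ 2 * fv f))) :
    ∃ (H : Type) (_ : NormedAddCommGroup H) (_ : InnerProductSpace ℂ H) (_ : CompleteSpace H),
      Ms2 H m Δ S := by
  classical
  obtain ⟨H, _, _, _, ψ, T, q1, q2, q3, q4, q5, q6, q7, q8⟩ := h.ker.reconstruct
  obtain ⟨Ψ, hΨ⟩ : ∃ Ψ : ∀ {k : ℕ}, (Fin k → R4 → ℝ) → H, ∀ x : PY m, Ψ x.1.2 = ψ x :=
    ⟨fun f => if hf : PoL (L2 m) f then ψ ⟨⟨_, f⟩, hf⟩ else 0, fun x => dif_pos x.2⟩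
  have hΩ : Ψ ![] = ψ (vc2 m) := hΨ (vc2 m)
  have e1 : ∀ {v : R4}, 0 ≤ v 0 → ∀ x y : PY m,
      inner ℂ (ψ x) (T v (ψ y)) = kb2 S x (sg2 v y) := fun hv x y => by
    rw [(q5 _ hv).2.2.2, q2]
  have e2 : ∀ {v : R4}, 0 ≤ v 0 → ∀ x y : PY m,
      inner ℂ (ψ x) (T v (ψ y)) = S (rp x.1.2 (sh v y.1.2)) := fun hv x y => by
    rw [e1 hv, sg2_eq hv]
    rfl
  have e3 : ∀ x : PY m, kb2 S (vc2 m) x = S x.1.2 := fun x => by
    refine ((h.perm (finCongr (Nat.zero_add _).symm) ((vc2 m).2.rp x.2)).symm.trans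
      (congrArg S (funext fun i => ?_)))
    exact (congrArg (rp (vc2 m).1.2 x.1.2) (Fin.ext (Nat.zero_add i.1).symm)).trans
      (Fin.append_right _ _ i)
  refine ⟨H, inferInstance, inferInstance, inferInstance, Ψ, T, ?_, fun _ f hf =>
    ⟨fun _ g hg => ?_, fun v hv => ?_⟩, (congrArg _ hΩ).trans q3, q4, fun v hv => ⟨(q5 v hv).1,
      ((congrArg _ hΩ).trans (q5 v hv).2.1).trans hΩ.symm, (q5 v hv).2.2.1⟩, q6, q7,
    fun z hz hz' => ?_,
    fun t ht => ⟨q8 t ht, fun x hx => ?_⟩, fun ⟨B, hB⟩ => YM7.not_bdd hS B fun s hs f hf => ?_⟩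
  · refine q1.mono (Submodule.span_mono ?_)
    rintro _ ⟨x, rfl⟩
    exact ⟨_, _, x.2, hΨ x⟩
  · exact (congrArg₂ _ (hΨ ⟨⟨_, _⟩, hf⟩) (hΨ ⟨⟨_, _⟩, hg⟩)).trans (q2 _ _)
  · exact ((congrArg _ (hΨ ⟨⟨_, _⟩, hf⟩)).trans ((q5 v hv).2.2.2 _)).trans
      ((congrArg ψ (sg2_eq hv _)).trans (hΨ ⟨⟨_, _⟩, hf.sh hv⟩).symm)
  · have hv : 0 ≤ pt m z 0 := by simp [pt, hz]
    have e3 : star (1 : H →L[ℂ] H) = T (pt m z) := YM7.adj_ext q1 fun x y => by
      rw [e2 hv, h.per' x.2 y.2 ⟨z, hz, hz', rfl⟩, one_apply_eq_self, q2]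
      rfl
    rw [← e3, star_one]
  · have t2 : 0 ≤ t + t := add_nonneg ht ht
    have := clus_on (γ := exp (-Δ * (t + t))) q1 q2 (e1 (single_nonneg t2))
      (fun x => (q2 (vc2 m) x).trans (congrArg _ (e3 x))) (fun s c => by
        rw [qf2_gr s c t2, qf2_gr0, ← s.sum_coe_sort]
        exact (h.pos (fun x : s => x.1.2) _ _ t2).2) x
    have e4 := (congrArg T (PiLp.single_add ..)).trans
      ((q5 _ (single_nonneg ht)).2.2.1 _ (single_nonneg ht))
    rw [← hΩ, hx, norm_zero, zero_pow two_ne_zero, sub_zero, e4, mul_apply_eq_comp,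
      ← (q8 t ht).isSymmetric.apply_clm, ← RCLike.re_to_complex, ← norm_sq_eq_re_inner, mul_add,
      exp_add, ← sq, ← mul_pow] at this
    exact le_of_sq_le_sq this (by positivity)
  · obtain ⟨x, hx⟩ : ∃ x : PY m, ∀ s ≥ 0, S (rp f (sh (EuclideanSpace.single 0 s) f)) =
        (inner ℂ (ψ x) (T (EuclideanSpace.single 0 s) (ψ x))).re :=
      ⟨⟨⟨_, f⟩, ⟨hf.1.1, fun i j hij => absurd (Subsingleton.elim i j) hij⟩, hf.2⟩,
        fun s hs => by rw [e2 (single_nonneg hs), Complex.ofReal_re]⟩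
    have e2 := re_inner_le_norm (𝕜 := ℂ) (ψ x) (ψ x - T (EuclideanSpace.single 0 s) (ψ x))
    have e3 := mul_le_mul_of_nonneg_left ((T (EuclideanSpace.single 0 s) - 1).le_of_opNorm_le
      (hB s hs) (ψ x)) (norm_nonneg (ψ x))
    have e4 := inner_self_eq_norm_mul_norm (𝕜 := ℂ) (ψ x)
    rw [inner_sub_right, map_sub, norm_sub_rev, e4] at e2
    rw [hx s hs, hx 0 le_rfl, single_zero, q4, one_apply_eq_self]
    simp only [RCLike.re_to_complex, ContinuousLinearMap.sub_apply, one_apply_eq_self] at e2 e3 e4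
    rw [e4]
    linarith

end Pool.Agent.Lib.MP_7f377f_mp.YM9
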