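import Pool.Agent.Lib.MP_7f377f_mp.G.TwCoc
import Pool.Agent.Lib.MP_7f377f_mp.G.Q4FldA
import Pool.Agent.Lib.MP_7f377f_mp.G.Q4TrE
import Pool.Agent.Lib.MP_7f377f_mp.G.Q4En

/-! Invariance of the objects of a step under gauge maps with values in the centre. -/

noncomputable section

set_option linter.unusedSectionVars false
variable [Pool.Agent.Lib.MP_7f377f_mp.GD]

namespace Pool.Agent.Lib.MP_7f377f_mp.RG.Q4

open Finset Polynomial

section algebra

variable {z : S3}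

open Matrix NormedSpace in
set_option backward.isDefEq.respectTransparency false in
theorem rho_cen (hz : z ∈ Subgroup.center S3) (k : Fin GD.d) :
    GD.rho z * GD.e k * (GD.rho z)ᵀ = GD.e k := by
  have h : ∀ s : ℝ, GD.rho z * exp (s • GD.e k) * (GD.rho z)ᵀ = exp (s • GD.e k) := fun s => by
    obtain ⟨g, hg⟩ := (GD.lie _).1 (Submodule.subset_span ⟨k, rfl⟩) s
    rw [← hg, ← map_mul, ← Subgroup.mem_center_iff.1 hz g, map_mul, mul_assoc, GD.rho_orth', mul_one]
  open scoped Matrix.Norms.Frobenius in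
  have d := hasDerivAt_exp_smul_const (𝕂 := ℝ) (GD.e k) 0
  open scoped Matrix.Norms.Frobenius in
  have d' := (d.const_mul (GD.rho z)).mul_const (GD.rho z)ᵀ
  simp only [h] at d'
  open scoped Matrix.Norms.Frobenius in
  simpa using d'.unique d

theorem adq_cen (hz : z ∈ Subgroup.center S3) (b : C3) : adq (cS z) b = b := funext fun k => by
  simp [adq_cS_apply, rho_cen hz, GD.on, apply_ite Complex.ofReal]

theorem adq_cen' (hz : z ∈ Subgroup.center S3) (b : C3) : adq (star (cS z)) b = b := by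
  rw [← cS_inv, adq_cen (inv_mem hz)]

theorem ex_cen (hz : z ∈ Subgroup.center S3) (b : C3) : ex b * cS z = cS z * ex b := by
  conv_lhs => rw [← adq_cen hz b, ex_adq (uni_cS z), mul_assoc, (uni_cS z).star_mul, mul_one]

theorem cen_conj (hz : z ∈ Subgroup.center S3) (g : S3) : z * g * z⁻¹ = g := by
  rw [← Subgroup.mem_center_iff.1 hz g, mul_inv_cancel_right]

end algebra

variable {u : St → S3}

theorem cC_gS (u : St → S3) (W : Conf) : cC (gauge Inv.inv u W) = gS u (cC W) := cC_gauge u W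

theorem chi_gauge (u : St → S3) (W : Conf) (p : Pa) : chi p (gauge Inv.inv u W) = chi p W := by
  funext x
  have : Fq (p.R + 1) p.ε (sh x (gauge Inv.inv u W)) ↔ Fq (p.R + 1) p.ε (sh x W) := by
    rw [sh_gauge, fq_gauge_iff]
  rw [chi, chi, propext this]

namespace Cen

variable (hu : Cen u)
include hu

theorem sh (y : St) : Cen fun x => u (x + y) := fun _ => hu _

theorem yo (l : ℕ) : Cen fun x => u (yo l x) := fun _ => hu _

theorem adF (A : Fld) : adF (fun x => cS (u x)) A = A := funext fun _ => adq_cen (hu _) _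

theorem Bx (x : St) (W : Cf) : Bx x (gS u W) = Bx x W := by
  rw [Bx_gauge fun _ => uni_cS _]
  exact funext fun _ => adq_cen (hu _) _

theorem adq_cmb (W : Cf) (x : St) (b : C3) :
    adq (cmb star (gS u W) x) b = adq (cmb star W x) b := by
  rw [cmb_gauge_star fun _ => uni_cS _, adq_mul (uni_cS _).star, adq_cen' (hu _),
    adq_mul' (uni_cS _), adq_cen (hu _)]

theorem adq_cmb' (W : Cf) (x : St) (b : C3) :
    adq (star (cmb star (gS u W) x)) b = adq (star (cmb star W x)) b := by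
  rw [cmb_gauge_star fun _ => uni_cS _, star_mul, star_mul, star_star, adq_mul' (uni_cS _),
    adq_cen (hu _), adq_mul (uni_cS _).star, adq_cen' (hu _)]

theorem Ay (l : ℕ) (y : St) (W : Cf) : Ay l y (gS u W) = Ay l y W := by
  funext A e
  simp only [Q4.Ay, RG.adF, sh_gS, (hu.sh y).adq_cmb]

theorem ham (O : Od) (W : Cf) : O.ham (gS u W) = O.ham W := by
  funext A f
  simp only [Od.ham, hu.Ay, sh_gS, (hu.sh _).adq_cmb']

theorem top (O : Od) (H : Set St) (W : Cf) : O.top H (gS u W) = O.top H W := by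
  funext A
  simp only [Od.top, hu.ham]

theorem polO (O : Od) (p : ℂ[X]) (H : Set St) (W : Cf) : O.pol p H (gS u W) = O.pol p H W := by
  funext A
  simp only [Od.pol, hu.top]

theorem Us (l : ℕ) (s : V →ₗ[ℝ] V) (W : Cf) :
    Us l s (gS u W) = gS (fun x => u (RG.yo l x)) (Us l s W) := by
  funext f
  simp only [Q4.Us, hu.Bx, gauge]
  split_ifs with hf
  · rw [hf, mul_one, ← ex_cen (hu _), mul_assoc, (uni_cS _).mul_star, mul_one]
  · rw [JS.yo_add_un _ _ _ hf, ← mul_assoc, ← mul_assoc, ex_cen (hu _), ← mul_assoc]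

theorem Uz (l : ℕ) (s : V →ₗ[ℝ] V) (W : Cf) (A : Fld) :
    Uz l s (gS u W) A = gS (fun x => u (RG.yo l x)) (Uz l s W A) := by
  funext f
  simp only [Q4.Uz, hu.Us, gauge]
  rw [← mul_assoc, ← mul_assoc, ex_cen (hu _), ← mul_assoc]

theorem Ub (l : ℕ) (s : V →ₗ[ℝ] V) (W : Conf) :
    Ub l s (gauge Inv.inv u W) = gauge Inv.inv (fun x => u (RG.yo l x)) (Ub l s W) :=
  funext fun f => cS_inj (congrFun (show cC _ = cC _ by
    rw [cC_Ub, cC_gS, cC_gS, hu.Us, cC_Ub]) f)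

theorem en (l : ℕ) (m : BF) (T : Fld → ℂ) (W U : Cf) :
    en l m T (gS u W) (gS (fun x => u (RG.yo l x)) U) = en l m T W U := by
  have := fun μ => Nz.nz_gauge (l := l) (μ := μ) (fun x => uni_cS (u x)) (W (0, μ)) U
  simp only [Q4.en, (hu.yo l).Bx]
  simp only [gauge, zero_add] at this ⊢
  exact congrArg _ (congrArg _ (sum_congr rfl fun μ _ => this μ))

theorem Gc (l : ℕ) (m : BF) (s : V →ₗ[ℝ] V) (T : Fld → ℂ) (W : Cf) :
    Gc l m s T (gS u W) = Gc l m s T W := by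
  funext A
  rw [Q4.Gc, hu.Uz, hu.en, Q4.Gc]

theorem uq (act : Lk → Prop) (b : Conf) (A : Lk → E3) (s : Lk → Fin NG) (U : Conf) :
    uq act (gauge Inv.inv u b) A s (gauge Inv.inv u U) = gauge Inv.inv u (uq act b A s U) := by
  funext f
  simp only [Q4.uq, gauge]
  split_ifs
  · simp only [← mul_assoc, Subgroup.mem_center_iff.1 (hu f.1)]
  · rfl

theorem Ix (p : Pa) (Φ : Lx) (U : Conf) : Ix p Φ (gauge Inv.inv u U) = Ix p Φ U := by
  funext x
  rw [Q4.Ix, chi_gauge, cC_gS, hu.Bx, Q4.Ix]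

end Cen

/-- block energies which are invariant under the centre -/
def Nt.Ci (t : Nt) : Prop := ∀ u, Cen u → ∀ W, t.G (gS u W) = t.G W

namespace Nt.Ci

variable {t : Nt} (h : t.Ci) (hu : Cen u) (W : Cf)
include h hu

theorem FF : t.FF (gS u W) = t.FF W := by
  funext y A
  rw [Nt.FF, sh_gS, h _ (hu.sh y), Nt.FF]

theorem grad : t.grad (gS u W) = t.grad W := by
  funext A f k
  simp only [Nt.grad, h.FF hu]

theorem nw : t.nw (gS u W) = t.nw W := by
  funext A
  simp only [Nt.nw, h.grad hu, hu.polO]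

theorem As : t.As (gS u W) = t.As W := by simp only [Nt.As, h.nw hu]

theorem Yb : t.Yb (gS u W) = t.Yb W := by
  funext y a b
  simp only [Nt.Yb, h.FF hu, h.As hu, hu.Ay]

theorem xi : t.xi (gS u W) = t.xi W := by
  funext A v y y'
  simp only [Nt.xi, h.FF hu]

theorem L1 : t.L1 (gS u W) = t.L1 W := by
  funext A v y
  simp only [Nt.L1, h.xi hu]

theorem gv : t.gv (gS u W) = t.gv W := by
  funext A v y
  simp only [Nt.gv, h.xi hu]

theorem Yq : t.Yq (gS u W) = t.Yq W := by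
  funext v y
  simp only [Nt.Yq, h.Yb hu]

theorem rem3 : t.rem3 (gS u W) = t.rem3 W := by
  funext v y
  simp only [Nt.rem3, h.FF hu, h.As hu, h.L1 hu, hu.Ay, h.Yq hu]

theorem a0 : t.a0 (gS u W) = t.a0 W := by
  simp only [Nt.a0, h.FF hu, h.As hu, h.L1 hu, h.gv hu]

theorem tn : t.tn (gS u W) = t.tn W := by
  simp only [Nt.tn, h.a0 hu, sh_gS, h.a0 (hu.sh _)]

theorem rest (R : ℕ) (ρ : ℝ) (k : BF) : t.rest R ρ k (gS u W) = t.rest R ρ k W := by
  simp only [Nt.rest, h.tn hu, hu.Bx]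

theorem kd : t.kd (gS u W) = t.kd W := by
  funext e i e' j
  simp only [Nt.kd, h.FF hu, h.As hu]

end Nt.Ci

theorem Td.ci (S : Td) : S.t.Ci := fun _ hu W => hu.Gc _ _ _ _ W

namespace Cen

section td

variable (hu : Cen u) (S : Td) (W : Cf)
include hu

theorem FF : S.t.FF (gS u W) = S.t.FF W := S.ci.FF hu W

theorem As : S.t.As (gS u W) = S.t.As W := S.ci.As hu W

theorem kd : S.kd (gS u W) = S.kd W := S.ci.kd hu W

theorem ka : S.ka (gS u W) = S.ka W := by
  funext y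
  rw [Td.ka, sh_gS, (hu.sh y).kd, Td.ka]

theorem pol0 (p : ℂ[X]) : S.pol0 p (gS u W) = S.pol0 p W := by
  funext A
  rw [Td.pol0, hu.ka, Td.pol0]

theorem dt0 : S.dt0 (gS u W) = S.dt0 W := by rw [Td.dt0, hu.ka, Td.dt0]

theorem xf : S.xf (gS u W) = S.xf W := by
  funext a y
  simp only [Td.xf, S.ci.xi hu, hu.As, S.ci.a0 hu]

theorem tel : S.tel (gS u W) = S.tel W := by
  funext a
  simp only [Td.tel, sh_gS, hu.xf, (hu.sh _).xf]

end td

section sd

variable (hu : Cen u) (S : Sd) (W : Cf)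
include hu

theorem P0 : S.P0 (gS u W) = S.P0 W := by
  funext A
  rw [Sd.P0, hu.pol0, Sd.P0]

theorem v0 : S.v0 (gS u W) = S.v0 W := by
  funext z
  rw [Sd.v0, hu.P0, Sd.v0]

theorem U0 (z : Lk → E3) : S.U0 (gS u W) z = gS (fun x => u (RG.yo S.l x)) (S.U0 W z) := by
  rw [Sd.U0, hu.As, hu.v0, hu.Uz, Sd.U0]

theorem s1 : S.s1 (gS u W) = S.s1 W := by
  funext z
  simp only [Sd.s1, S.ci.rem3 hu, hu.v0, hu.As]

theorem sT : S.sT (gS u W) = S.sT W := by
  funext z
  simp only [Sd.sT, S.ci.gv hu, hu.v0, hu.As, S.ci.rest hu, hu.pol0]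

theorem sP (ψ : Lx) : S.sP ψ (gS u W) = S.sP ψ W := by
  funext z
  simp only [Sd.sP, hu.U0, (hu.yo _).Bx]

theorem f0 : S.f0 (gS u W) = S.f0 W := by
  funext z
  simp only [Sd.f0, hu.s1]

theorem fm (ψ : Lx) : S.fm ψ (gS u W) = S.fm ψ W := by
  funext z
  simp only [Sd.fm, hu.s1, hu.sT, hu.sP, hu.Bx]

end sd

end Cen

section real

variable (u) (W : Conf)

theorem fs_gauge' : fs (gauge Inv.inv u W) = fs W := by
  funext x
  simp only [fs, Mx.fq_gauge]

theorem H_gauge' (S : Sd) : S.H (gauge Inv.inv u W) = S.H W := by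
  simp only [Sd.H, sh_gauge, fq_gauge_iff]

theorem blk_yo (l : ℕ) (ω : St → Om) :
    blk l (gauge Inv.inv (fun x => u (yo l x)) W) ω = gauge Inv.inv u (blk l W ω) := by
  simp only [(blk_gauge _ _ _ _).1, Ms.yo_up]

theorem blkN_yo (l : ℕ) (ω : St → Om) :
    blkN l (gauge Inv.inv (fun x => u (yo l x)) W) ω = gauge Inv.inv u (blkN l W ω) := by
  simp only [(blk_gauge _ _ _ _).2.1, Ms.yo_up]

theorem hk0_gauge (a : ℝ) (B : Conf) (e : Lk) :
    hk0 a (gauge Inv.inv u W e * (gauge Inv.inv u B e)⁻¹) = hk0 a (W e * (B e)⁻¹) := by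
  rw [show gauge Inv.inv u W e * (gauge Inv.inv u B e)⁻¹ = u e.1 * (W e * (B e)⁻¹) * (u e.1)⁻¹ by
    simp only [gauge]; group]
  simp only [hk0, S3.norm_conj_sub]

end real

namespace Cen

variable (hu : Cen u) (S : Sd) (W : Conf)
include hu

theorem pol (p : ℂ[X]) : S.pol p (gauge Inv.inv u W) = S.pol p W := by
  funext A
  rw [Sd.pol, H_gauge', cC_gS, hu.ka, Sd.pol]

theorem vH : S.vH (gauge Inv.inv u W) = S.vH W := by
  funext z
  rw [Sd.vH, hu.pol, Sd.vH]

theorem Af : S.Af (gauge Inv.inv u W) = S.Af W := by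
  funext z
  rw [Sd.Af, cC_gS, hu.As, hu.vH, Sd.Af]

theorem Jk : S.Jk (gauge Inv.inv u W) = S.Jk W := by
  funext v
  rw [Sd.Jk, Sd.Jk, H_gauge', hu.Af]

theorem Eg : S.Eg (gauge Inv.inv u W) = S.Eg W := by
  funext z
  simp only [Sd.Eg, H_gauge', cC_gS, hu.kd, hu.ka, hu.vH, hu.pol, hu.tel]

theorem Ib (ψ : Lx) (co : Finset St) : S.Ib ψ co (gauge Inv.inv u W) = S.Ib ψ co W := by
  funext y
  simp only [Sd.Ib, hu.Ix]

/-- the fine field whose passive links are multiplied by the skeleton of the block field -/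
theorem uv (z : Lk → E3) (s : Lk → Fin NG) (U : Conf) :
    Q4.uq (Act S.l (S.H (gauge Inv.inv u W))) (Q4.Ub S.l S.s (gauge Inv.inv u W))
      (S.Af (gauge Inv.inv u W) z) s (U * skl S.l (gauge Inv.inv u W)) =
    gauge Inv.inv (fun x => u (RG.yo S.l x))
      (Q4.uq (Act S.l (S.H W)) (Q4.Ub S.l S.s W) (S.Af W z) s (U * skl S.l W)) := by
  rw [H_gauge', hu.Af, hu.Ub, skl_gauge, ← (hu.yo _).gauge_mul, (hu.yo _).uq]

end Cen

/-! ### the same for the relation `Cq` -/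

namespace Cq

variable {U V : Conf} (h : Cq U V)
include h

theorem Fq (R : ℕ) (ε : ℝ) : Fq R ε V ↔ Fq R ε U := by
  obtain ⟨k, -, rfl⟩ := h
  exact fq_gauge_iff k

theorem chi (p : Pa) : chi p V = chi p U := h.eq fun k W _ => chi_gauge k W p

theorem fs : fs V = fs U := h.eq fun k W _ => fs_gauge' k W

theorem Rg (c : Finset (Finset St)) : Rg c V = Rg c U := by simp only [Q4.Rg, h.fs]

theorem wd : wd V = wd U := by simp only [Q4.wd, h.fq]

theorem Bx (x : St) : Bx x (cC V) = Bx x (cC U) :=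
  h.eq (F := fun W => RG.Bx x (cC W)) fun k W hk => by rw [cC_gS, hk.Bx]

theorem Ix (p : Pa) (Φ : Lx) : Ix p Φ V = Ix p Φ U := h.eq fun _ W hk => hk.Ix p Φ W

theorem Ub (l : ℕ) (s : RG.V →ₗ[ℝ] RG.V) : Cq (Ub l s U) (Ub l s V) := by
  obtain ⟨k, hk, rfl⟩ := h
  exact ⟨_, hk.yo l, hk.Ub l s U⟩

/-- functionals of the complexified field -/
theorem eqC {α : Type} {F : Cf → α} (hF : ∀ k W, Cen k → F (gS k W) = F W) : F (cC V) = F (cC U) :=
  h.eq (F := fun W => F (cC W)) fun k W hk => by rw [cC_gS, hF k _ hk]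

section td

variable (S : Td)

theorem FF : S.t.FF (cC V) = S.t.FF (cC U) := h.eqC fun _ W hk => hk.FF S W

theorem As : S.t.As (cC V) = S.t.As (cC U) := h.eqC fun _ W hk => hk.As S W

theorem kd : S.kd (cC V) = S.kd (cC U) := h.eqC fun _ W hk => hk.kd S W

theorem ka : S.ka (cC V) = S.ka (cC U) := h.eqC fun _ W hk => hk.ka S W

theorem pol0 (p : ℂ[X]) : S.pol0 p (cC V) = S.pol0 p (cC U) := h.eqC fun _ W hk => hk.pol0 S W p

theorem dt0 : S.dt0 (cC V) = S.dt0 (cC U) := h.eqC fun _ W hk => hk.dt0 S W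

theorem tel : S.tel (cC V) = S.tel (cC U) := h.eqC fun _ W hk => hk.tel S W

end td

variable (S : Sd)

theorem v0 : S.v0 (cC V) = S.v0 (cC U) := h.eqC fun _ W hk => hk.v0 S W

theorem s1 : S.s1 (cC V) = S.s1 (cC U) := h.eqC fun _ W hk => hk.s1 S W

theorem sT : S.sT (cC V) = S.sT (cC U) := h.eqC fun _ W hk => hk.sT S W

theorem sP (ψ : Lx) : S.sP ψ (cC V) = S.sP ψ (cC U) := h.eqC fun _ W hk => hk.sP S W ψ

theorem f0 : S.f0 (cC V) = S.f0 (cC U) := h.eqC fun _ W hk => hk.f0 S W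

theorem fm (ψ : Lx) : S.fm ψ (cC V) = S.fm ψ (cC U) := h.eqC fun _ W hk => hk.fm S W ψ

theorem H : S.H V = S.H U := h.eq fun k W _ => H_gauge' k W S

theorem pol (p : ℂ[X]) : S.pol p V = S.pol p U := h.eq fun _ W hk => hk.pol S W p

theorem vH : S.vH V = S.vH U := h.eq fun _ W hk => hk.vH S W

theorem Af : S.Af V = S.Af U := h.eq fun _ W hk => hk.Af S W

theorem Jk : S.Jk V = S.Jk U := h.eq fun _ W hk => hk.Jk S W

theorem Eg : S.Eg V = S.Eg U := h.eq fun _ W hk => hk.Eg S W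

theorem Ib (ψ : Lx) (co : Finset St) : S.Ib ψ co V = S.Ib ψ co U := h.eq fun _ W hk => hk.Ib S W ψ co

end Cq

end Pool.Agent.Lib.MP_7f377f_mp.RG.Q4
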