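import Pool.Agent.Lib.MP_7f377f_mp.G.TwAct
import Pool.Agent.Lib.MP_7f377f_mp.G.Q4Cov

/-! The product chart, the gauge fixing weight and the Faddeev-Popov identity. -/

noncomputable section

set_option linter.unusedSectionVars false
variable [Pool.Agent.Lib.MP_7f377f_mp.GD]

namespace Pool.Agent.Lib.MP_7f377f_mp.RG.Lp

open Finset Matrix MeasureTheory Q4 Ms

section chart

variable {κ X : Type} [Fintype κ] [Fintype X]

/-- coordinates -/
def cv (v : κ × X → S3) : κ × X × Fin GD.d → ℝ := fun i => cr (v (i.1, i.2.1)) i.2.2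

/-- the component at `p` -/
def at1 (x : κ × X × Fin GD.d → ℝ) (p : κ × X) : Fin GD.d → ℝ := fun k => x (p.1, p.2, k)

/-- the chart -/
def ce (x : κ × X × Fin GD.d → ℝ) : κ × X → S3 := fun p => ee (at1 x p)

/-- the density of Haar measure -/
def jc (x : κ × X × Fin GD.d → ℝ) : ℝ := ∏ p, hd (WithLp.toLp 2 (at1 x p))

theorem dot_at (x y : κ × X × Fin GD.d → ℝ) : x ⬝ᵥ y = ∑ p, at1 x p ⬝ᵥ at1 y p := by
  simp only [dotProduct, at1, Fintype.sum_prod_type]

theorem at_le (x : κ × X × Fin GD.d → ℝ) (p : κ × X) : at1 x p ⬝ᵥ at1 x p ≤ x ⬝ᵥ x := by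
  rw [dot_at]
  exact single_le_sum (f := fun p => at1 x p ⬝ᵥ at1 x p) (fun _ _ => dot0 _) (mem_univ p)

theorem cont_cv : Continuous (cv : (κ × X → S3) → _) :=
  continuous_pi fun i => (PiLp.continuous_apply 2 _ i.2.2).comp
    (coR.continuous.comp (cont_cS.comp (continuous_apply _)))

theorem meas_at (p : κ × X) :
    Measurable fun x : κ × X × Fin GD.d → ℝ => (WithLp.toLp 2 (at1 x p) : E3) :=
  (PiLp.continuous_toLp 2 _).measurable.comp (measurable_pi_lambda _ fun _ => measurable_pi_apply _)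

theorem meas_ce : Measurable (ce : _ → κ × X → S3) :=
  measurable_pi_lambda _ fun p => meas_e0.comp (meas_at p)

theorem meas_jc : Measurable (jc : (κ × X × Fin GD.d → ℝ) → ℝ) :=
  Finset.measurable_fun_prod _ fun p _ => measurable_hd.comp (meas_at p)

theorem jc_nonneg (x : κ × X × Fin GD.d → ℝ) : 0 ≤ jc x :=
  prod_nonneg fun _ _ => hd_nonneg _

theorem cv_ce {x : κ × X × Fin GD.d → ℝ} (h : jc x ≠ 0) : cv (ce x) = x := by
  funext i
  have h1 : ‖(WithLp.toLp 2 (at1 x (i.1, i.2.1)) : E3)‖ < 2 := by_contra fun c =>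
    h (prod_eq_zero (mem_univ (i.1, i.2.1)) (if_neg c))
  exact congrArg (· i.2.2) (coR_e0 h1.le)

theorem jc_bd {x : κ × X × Fin GD.d → ℝ} {r : ℝ} (h : ∀ p, at1 x p ⬝ᵥ at1 x p ≤ r ^ 2)
    (r1 : r ^ 2 ≤ 1) : Real.exp (-(Fintype.card (κ × X) * r ^ 2)) ≤ jc x ∧
      jc x ≤ Real.exp (Fintype.card (κ × X) * r ^ 2) := by
  have k : ∀ p, Real.exp (-r ^ 2) ≤ hd (WithLp.toLp 2 (at1 x p)) ∧
      hd (WithLp.toLp 2 (at1 x p)) ≤ Real.exp (r ^ 2) := fun p => by
    have h1 := (lp_sq _).trans_le (h p)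
    have h2 : ‖(WithLp.toLp 2 (at1 x p) : E3)‖ < 2 := by
      nlinarith [norm_nonneg (WithLp.toLp 2 (at1 x p) : E3)]
    have h3 := abs_le.1 ((Complex.abs_re_le_norm _).trans (lj_le ((norm_cE' _).trans_le h2.le)))
    rw [norm_cE'] at h3
    rw [hd, if_pos h2, Real.exp_le_exp, Real.exp_le_exp]
    constructor <;> nlinarith [sq_nonneg r]
  rw [← mul_neg, Real.exp_nat_mul, Real.exp_nat_mul, ← card_univ, ← prod_const, ← prod_const]
  exact ⟨prod_le_prod (fun _ _ => (Real.exp_pos _).le) fun p _ => (k p).1,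
    prod_le_prod (fun _ _ => hd_nonneg _) fun p _ => (k p).2⟩

/-- flattening of the coordinates -/
def flat : (κ × X → E3) ≃ᵐ (κ × X × Fin GD.d → ℝ) where
  toFun z i := z (i.1, i.2.1) i.2.2
  invFun x p := WithLp.toLp 2 (at1 x p)
  left_inv _ := rfl
  right_inv _ := rfl
  measurable_toFun := measurable_pi_lambda _ fun i => Continuous.measurable
    ((PiLp.continuous_apply 2 _ i.2.2).comp (continuous_apply (i.1, i.2.1)))
  measurable_invFun := measurable_pi_lambda _ meas_at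

theorem mp_flat : MeasurePreserving (flat (κ := κ) (X := X)) := by
  refine ⟨flat.measurable, (Measure.pi_eq fun s hs => ?_).symm⟩
  have e : flat ⁻¹' Set.pi Set.univ s = Set.pi Set.univ fun p : κ × X =>
      WithLp.ofLp ⁻¹' Set.pi Set.univ fun k => s (p.1, p.2, k) := by
    ext z
    simp only [Set.mem_preimage, Set.mem_univ_pi, Prod.forall]
    rfl
  rw [Measure.map_apply flat.measurable (.univ_pi hs), e, volume_pi, Measure.pi_pi]
  simp only [(PiLp.volume_preserving_ofLp (Fin GD.d)).measure_preimage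
    (MeasurableSet.univ_pi fun _ => hs _).nullMeasurableSet, volume_pi, Measure.pi_pi,
    Fintype.prod_prod_type]

theorem chart {F : (κ × X → S3) → ℝ} (mF : Measurable F) (h : ∀ v, F v ≠ 0 → ∀ p, nq (v p) < 2) :
    ∫ v, F v ∂hP _ = cHa ^ Fintype.card (κ × X) * ∫ x, F (ce x) * jc x := by
  have hm := mp_chm (ι := κ × X) 1 0 (P := LinearMap.id) (by simp)
  have m : Measurable fun z : κ × X → E3 => ∏ p, dH (z p) :=
    Finset.measurable_fun_prod _ fun p _ => meas_dH.comp (measurable_pi_apply p)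
  simp only [LinearMap.det_id, abs_one, one_mul, Pi.zero_apply, LinearMap.id_apply, zero_add] at hm
  rw [← setIntegral_eq_integral_of_forall_compl_eq_zero (s := {u | ∀ i, u i * ((1 : κ × X → S3) i)⁻¹
      ∈ pos}) fun v hv => by_contra fun c => hv fun p => by simpa using mem_pos (h v c p),
    ← hm.map_eq, integral_map hm.measurable.aemeasurable mF.aestronglyMeasurable,
    integral_withDensity_eq_integral_toReal_smul m.ennreal_ofReal (.of_forall fun _ => by simp),
    ← mp_flat.integral_comp', ← integral_const_mul]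
  refine congrArg _ (funext fun z => ?_)
  have e : chm 1 0 LinearMap.id z = ce (flat z) := funext fun p => by
    simp only [chm, Pi.zero_apply, zero_add, Pi.one_apply, mul_one]
    rfl
  rw [ENNReal.toReal_ofReal (prod_nonneg fun _ _ => dH_nonneg _), e, smul_eq_mul]
  simp only [dH, prod_mul_distrib, prod_const, card_univ]
  change _ = _ * (_ * ∏ p, hd (z p))
  ring

end chart

namespace Dt

variable (T : Dt)

open Classical in
/-- the gauge fixing weight -/
def w (β δ : ℝ) (v : T.Cn) : ℝ := if ∀ p, nq (v p) ≤ δ then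
  Real.exp (-(β * (((Dm T.S)ᵀ *ᵥ cv v) ⬝ᵥ ((Dm T.S)ᵀ *ᵥ cv v)))) else 0

variable [Fintype Zc]

/-- its average over the extended gauge group -/
def Nw (β δ : ℝ) (v : T.Cn) : ℝ := ∑ c : Zc × Zc, ∫ g, T.w β δ (T.ac c g v) ∂hP _

variable {β δ : ℝ}

theorem meas_w : Measurable (T.w β δ) := by
  refine Measurable.ite ?_ (Continuous.measurable ?_) measurable_const
  · rw [Set.ofPred_forall]
    exact .iInter fun p => measurableSet_le (cont_nq.comp (continuous_apply p)).measurable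
      measurable_const
  · have := (continuous_const (y := (Dm T.S)ᵀ)).matrix_mulVec (cont_cv (κ := Fin 4) (X := domv T.M))
    exact (continuous_const.mul (this.dotProduct this)).neg.rexp

theorem w_bd (β0 : 0 ≤ β) (v : T.Cn) : 0 ≤ T.w β δ v ∧ T.w β δ v ≤ 1 := by
  unfold w
  split_ifs
  exacts [⟨(Real.exp_pos _).le, Real.exp_le_one_iff.2 (neg_nonpos.2 (mul_nonneg β0 (dot0 _)))⟩,
    ⟨le_rfl, zero_le_one⟩]

theorem meas_wa (c : Zc × Zc) : Measurable fun p : T.Cn × T.Gg => T.w β δ (T.ac c p.2 p.1) :=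
  T.meas_w.comp ((T.cont_ac c).comp continuous_swap).measurable

theorem meas_Nw : Measurable (T.Nw β δ) :=
  Finset.measurable_fun_sum _ fun c _ =>
    (T.meas_wa c).stronglyMeasurable.integral_prod_right'.measurable

theorem int_bd (β0 : 0 ≤ β) (c : Zc × Zc) (v : T.Cn) :
    0 ≤ ∫ g, T.w β δ (T.ac c g v) ∂hP _ ∧ ∫ g, T.w β δ (T.ac c g v) ∂hP _ ≤ 1 :=
  ⟨integral_nonneg fun _ => (T.w_bd β0 _).1, (integral_mono_of_nonneg
    (.of_forall fun _ => (T.w_bd β0 _).1) (integrable_const 1)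
      (.of_forall fun _ => (T.w_bd β0 _).2)).trans_eq (by simp)⟩

theorem Nw_bd (β0 : 0 ≤ β) (v : T.Cn) : 0 ≤ T.Nw β δ v ∧ T.Nw β δ v ≤ Fintype.card (Zc × Zc) :=
  ⟨sum_nonneg fun c _ => (T.int_bd β0 c v).1,
    (sum_le_sum fun c _ => (T.int_bd β0 c v).2).trans_eq (by simp)⟩

theorem Nw_ac (c : Zc × Zc) (g : T.Gg) (v : T.Cn) : T.Nw β δ (T.ac c g v) = T.Nw β δ v := by
  simp only [Nw, ac_ac]
  rw [← Equiv.sum_comp (Equiv.mulRight c) fun c' => ∫ g, T.w β δ (T.ac c' g v) ∂hP _]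
  exact sum_congr rfl fun c' _ =>
    integral_mul_right_eq_self (fun g' => T.w β δ (T.ac (c' * c) g' v)) g

/-- the Faddeev-Popov identity -/
theorem fp (β0 : 0 ≤ β) {F : T.Cn → ℝ} (mF : Measurable F) {K : ℝ} (bd : ∀ v, |F v| ≤ K)
    (gi : ∀ g v, F (T.ac 1 g v) = F v) :
    ∫ v, F v * T.Nw β δ v ∂hP _ = ∑ c : Zc × Zc, ∫ v, F (T.ac c 1 v) * T.w β δ v ∂hP _ := by
  have i1 : ∀ c, Integrable (Function.uncurry fun (v : T.Cn) (g : T.Gg) =>
      F v * T.w β δ (T.ac c g v)) ((hP _).prod (hP _)) := fun c =>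
    .of_bound ((mF.comp measurable_fst).mul (T.meas_wa c)).aestronglyMeasurable K
      (.of_forall fun p => (norm_mul _ _).trans_le ((mul_le_of_le_one_right (norm_nonneg _)
        ((Real.norm_of_nonneg (T.w_bd β0 _).1).trans_le (T.w_bd β0 _).2)).trans (bd _)))
  have k : ∀ c g, ∫ v, F v * T.w β δ (T.ac c g v) ∂hP _ =
      ∫ v, F (T.ac c⁻¹ 1 v) * T.w β δ v ∂hP _ := fun c g => by
    have e := integral_map (μ := hP _) (f := fun v => F (T.ac c⁻¹ 1 v) * T.w β δ v)
      (T.mp_ac c g).measurable.aemeasurable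
      ((mF.comp (T.mp_ac c⁻¹ 1).measurable).mul T.meas_w).aestronglyMeasurable
    rw [(T.mp_ac c g).map_eq] at e
    rw [e]
    simp only [ac_ac, inv_mul_cancel, one_mul, gi]
  have k2 : ∀ c, ∫ v, ∫ g, F v * T.w β δ (T.ac c g v) ∂hP _ ∂hP _ =
      ∫ v, F (T.ac c⁻¹ 1 v) * T.w β δ v ∂hP _ := fun c => by
    rw [integral_integral_swap (i1 c)]
    simp only [k, integral_const, probReal_univ, one_smul]
  rw [← Equiv.sum_comp (Equiv.inv (Zc × Zc)) fun c => ∫ v, F (T.ac c 1 v) * T.w β δ v ∂hP _]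
  simp only [Nw, mul_sum, ← integral_const_mul]
  exact (integral_finset_sum _ fun c _ => (i1 c).integral_prod_left).trans
    (sum_congr rfl fun c _ => k2 c)

end Dt

end Pool.Agent.Lib.MP_7f377f_mp.RG.Lp
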