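import Pool.Agent.Lib.MP_7f377f_mp.G.TwAct
import Pool.Agent.Lib.MP_7f377f_mp.G.TwCoc
import Pool.Agent.Lib.MP_7f377f_mp.G.Q4BudG

/-! Fields of small curvature on the twisted torus are close to a vacuum. -/

noncomputable section

set_option linter.unusedSectionVars false
variable [Pool.Agent.Lib.MP_7f377f_mp.GD]

namespace Pool.Agent.Lib.MP_7f377f_mp.RG.Lp

open Finset Matrix Q4 Ms

/-- the twist matrix -/
abbrev zz (ζ z : Zc) : Fin 4 → Fin 4 → Zc :=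
  fun μ ν => if μ = 0 ∧ ν = 1 then ζ else if μ = 2 ∧ ν = 3 then z else 1

theorem pcM_pv {M : Fin 4 → ℕ} (hM : ∀ i, Odd (M i)) {ζ z : Zc} {U : Conf} (hU : pcM M ζ z U = U)
    (v x : St) (ν : Fin 4) : U (x + pv M v, ν) = ((zb (zz ζ z) v (qv M x) : Zc) : S3)⁻¹ *
      U (x, ν) * (((zb (zz ζ z) v (qv M (x + un ν)) : Zc) : S3)⁻¹)⁻¹ := by
  rw [← congrFun hU (x + pv M v, ν), ← congrFun hU (x, ν)]
  simp only [pcM, rcv_add, coc_add _ hM, Subgroup.coe_mul, InvMemClass.coe_inv, inv_inv, mul_assoc]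
  rw [zc_comm _ (U _)]

theorem fq_per {M : Fin 4 → ℕ} (hM : ∀ i, Odd (M i)) {ζ z : Zc} {U : Conf} (hU : pcM M ζ z U = U)
    (x : St) (μ ν : Fin 4) : fq U (rcv M x) μ ν = fq U x μ ν := by
  have e : sh (pv M (qv M x)) U = gauge Inv.inv
      (fun y => ((zb (zz ζ z) (qv M x) (qv M y) : Zc) : S3)⁻¹) U :=
    funext fun e => pcM_pv hM hU _ e.1 e.2
  conv_rhs => rw [Q4.qv_spec M x, ← Mx.fq_sh, e, Mx.fq_gauge]

theorem pcM_pcM {M : Fin 4 → ℕ} (hM : ∀ i, Odd (M i)) (ζ z : Zc) (U : Conf) :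
    pcM M ζ z (pcM M ζ z U) = pcM M ζ z U := by
  funext e
  simp only [pcM]
  rw [coc_dom (e := (rcv M e.1, e.2)) _ hM (rcv_mem hM _), rcv_eq hM (rcv_mem hM _),
    OneMemClass.coe_one, one_mul]

theorem nr_iff {η : ℝ} {g h : S3} : Rb.Nr η g h ↔ nq (g * h⁻¹) ≤ η := by
  rw [Rb.Nr, S3.norm_sub, nq]

theorem nr_one {η : ℝ} {g : S3} : Rb.Nr η g 1 ↔ nq g ≤ η := Rb.Nr.one_iff

/-- slowly varying maps -/
theorem slow {L : ℕ} {η : ℝ} (h0 : 0 ≤ η) {k : St → S3}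
    (h : ∀ x ∈ box L, ∀ ν, Rb.Nr η (k x) (k (x + un ν))) {x : St} (hx : x ∈ box L) :
    Rb.Nr (4 * L * η) (k x) (k 0) := by
  have := Bg3.cmb_nr (V := gauge Inv.inv k 1) h0 (fun e he =>
    ((h e.1 (mem_lbox.1 he) e.2).right (k (e.1 + un e.2))⁻¹).congr (by simp [gauge]) (by simp)) hx
  have e : cmb Inv.inv (1 : Conf) x = 1 := by
    simpa using JS.cmb_tree (U := 1) (l := L) (fun _ _ => rfl) 0 x hx
  rw [Ms.cmb_gauge, e, mul_one] at this
  exact ((this.right (k x)).congr (by simp) (by simp)).symm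

/-- the transition functions in the comb gauge -/
def kf (V : Conf) (a : St) (w : St → S3) (x : St) : S3 :=
  cmb Inv.inv V (x + a) * w x * (cmb Inv.inv V x)⁻¹

section comb

variable {V : Conf} {L : ℕ} {ε : ℝ} {a b : St} {w w' : St → S3}

theorem kf_nr (hs : ∀ x μ ν, fq V x μ ν ≤ ε) (ha : a ∈ box L)
    (hw : ∀ x ν, V (x + a, ν) = w x * V (x, ν) * (w (x + un ν))⁻¹) {x : St} (hx : x ∈ box L) :
    Rb.Nr (48 * L ^ 2 * ε) (kf V a w x) (kf V a w 0) := by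
  have ε0 := (Rb.fq_nonneg _ _ _ _).trans (hs 0 0 0)
  have f := fun e he => fix_loc (R := L + L) (U := V) (fun x _ => hs x) (e := e) he
  refine (slow (η := 12 * L * ε) (by positivity) (fun x hx ν => ?_) hx).mono (le_of_eq (by ring))
  have a1 := ((f (x, ν) (mem_lbox.2 (box_mono (by omega) hx))).left (kf V a w x)).symm
  have a2 := (f (x + a, ν) (mem_lbox.2 (add_mem_box hx ha))).right (kf V a w (x + un ν))
  refine ((a1.trans (a2.congr ?_ rfl)).congr (mul_one _) (one_mul _)).mono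
    (le_of_eq (by push_cast; ring))
  simp only [gauge, kf, hw, add_right_comm x a]
  group

theorem kf_com (hs : ∀ x μ ν, fq V x μ ν ≤ ε) (ha : a ∈ box L) (hb : b ∈ box L)
    (hw : ∀ x ν, V (x + a, ν) = w x * V (x, ν) * (w (x + un ν))⁻¹)
    (hw' : ∀ x ν, V (x + b, ν) = w' x * V (x, ν) * (w' (x + un ν))⁻¹) {y : Zc}
    (h : w b * w' 0 = y * (w' a * w 0)) : Rb.Nr (96 * L ^ 2 * ε) (kf V a w 0 * kf V b w' 0)
      (y * (kf V b w' 0 * kf V a w 0)) := by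
  have a1 := ((kf_nr hs ha hw hb).right (kf V b w' 0)).symm
  have a2 := ((kf_nr hs hb hw' ha).right (kf V a w 0)).left y
  refine (a1.trans (a2.congr ?_ rfl)).mono (le_of_eq (by ring))
  simp only [kf, zero_add, add_comm a b]
  calc _ = cmb Inv.inv V (b + a) * (y * (w' a * w 0)) * (cmb Inv.inv V 0)⁻¹ := by
        rw [← mul_assoc _ (y : S3), ← zc_comm]; group
    _ = _ := by rw [← h]; group

end comb

/-- almost commuting elements -/
theorem Rig.alm {z : Zc} {P Q p2 p3 : S3} {C δ : ℝ} (h : Rig z P Q C)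
    (h1 : Rb.Nr δ (p3 * p2) (z * (p2 * p3))) : ∃ g, Rb.Nr (C * δ) (g * p2 * g⁻¹) P ∧
      Rb.Nr (C * δ) (g * p3 * g⁻¹) Q ∧ ∀ p, Rb.Nr δ (p2 * p) ((1 : Zc) * (p * p2)) →
        Rb.Nr δ (p3 * p) ((1 : Zc) * (p * p3)) → ∃ c : Zc, Rb.Nr (6 * C ^ 2 * δ) p c := by
  have C1 := h.one
  have δ0 : 0 ≤ δ := (norm_nonneg _).trans h1
  obtain ⟨g, a2, a3⟩ := h.r1 p2 p3
  have b := mul_le_mul_of_nonneg_left (nr_iff.1 h1) (show 0 ≤ C by linarith)
  have b2 := nr_iff.2 (a2.trans b)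
  have b3 := nr_iff.2 (a3.trans b)
  refine ⟨g, b2, b3, fun p c2 c3 => ?_⟩
  have key : ∀ {q R : S3}, Rb.Nr (C * δ) (g * q * g⁻¹) R → Rb.Nr δ (q * p) ((1 : Zc) * (p * q)) →
      nq (g * p * g⁻¹ * R * (g * p * g⁻¹)⁻¹ * R⁻¹) ≤ 3 * C * δ := fun {q R} u v => by
    have u1 := (u.left (g * p * g⁻¹)).symm
    have u2 := ((v.left g).right g⁻¹).symm
    have u3 := u.right (g * p * g⁻¹)
    have := ((u1.trans (u2.congr (by simp [mul_assoc]) rfl)).trans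
      (u3.congr (by group) rfl)).right (g * p * g⁻¹)⁻¹
    rw [mul_inv_cancel_right] at this
    exact (nr_iff.1 this).trans (by nlinarith)
  obtain ⟨c, hc⟩ := h.r2 (g * p * g⁻¹)
  have := nr_iff.2 (hc.trans (mul_le_mul_of_nonneg_left (add_le_add (key b2 c2) (key b3 c3))
    (by linarith)))
  exact ⟨c, (((this.left g⁻¹).right g).congr (by group) (by rw [← zc_comm]; group)).mono
    (le_of_eq (by ring))⟩

theorem qv_step {M : Fin 4 → ℕ} (hM : ∀ i, Odd (M i)) {x : St} (h : x ∈ domv M) (μ : Fin 4) :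
    qv M (x + un μ) = 0 ∨ qv M (x + un μ) = un μ := by
  have h1 := mem_domv.1 h μ
  obtain ⟨k, hk⟩ := hM μ
  have h2 : ∀ i, i ≠ μ → qv M (x + un μ) i = 0 := fun i e => by
    rw [qv_un e, Q4.qv_dom hM h]; rfl
  by_cases e : x μ < (M μ / 2 : ℕ)
  · refine .inl (funext fun i => ?_)
    by_cases hi : i = μ
    · subst hi
      simp only [qv, Pi.add_apply, un_self]
      exact Int.ediv_eq_zero_of_lt (by omega) (by omega)
    · exact h2 i hi
  · refine .inr (funext fun i => ?_)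
    by_cases hi : i = μ
    · subst hi
      simp only [qv, Pi.add_apply, un_self]
      rw [show x i + 1 + (M i / 2 : ℕ) = M i by omega]
      exact Int.ediv_self (by omega)
    · rw [h2 i hi, un_ne hi]

theorem zero_dom (M : Fin 4 → ℕ) : (0 : St) ∈ domv M := mem_domv.2 fun i => by
  simp only [Pi.zero_apply]
  omega

theorem qv_pv {M : Fin 4 → ℕ} (hM : ∀ i, Odd (M i)) (v : St) : qv M (pv M v) = v := by
  simpa [Q4.qv_dom hM (zero_dom M)] using Q4.qv_add hM 0 v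

namespace Dt

variable {T : Dt} {C B β ε : ℝ}

theorem Ok.box (h : T.Ok C B β) : ∃ L : ℕ, (L : ℝ) ≤ B ^ 2 ∧ (∀ μ, pv T.M (un μ) ∈ box L) ∧
    ∀ x ∈ domv T.M, x ∈ box L := by
  obtain ⟨i, -, hi⟩ := exists_max_image univ T.M univ_nonempty
  refine ⟨T.M i, h.side i, fun μ => mem_box.2 fun j => ?_, fun x hx => mem_box.2 fun j => ?_⟩
  · have := hi j (mem_univ j)
    simp only [pv, un_apply]
    split_ifs <;> omega
  · have := hi j (mem_univ j)
    have := mem_domv.1 hx j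
    omega

theorem Ok.C2 (h : T.Ok C B β) : 10 ^ 9 * C ^ 2 ≤ B :=
  (le_mul_of_one_le_right (by positivity) GD.cG1).trans h.big

theorem ga_un : T.ga (un 0) = 1 ∧ T.ga (un 1) = 1 ∧ T.ga (un 2) = T.P ∧ T.ga (un 3) = T.Q := by
  simp [ga, un_apply]

/-- no almost flat field for a non orthogonal twist -/
theorem zeta_one (h : T.Ok C B β) {ζ : Zc} {U : Conf} (hU : pcM T.M ζ T.z U = U)
    (hs : ∀ x μ ν, fq U x μ ν ≤ ε) (hε : B ^ 6 * ε ≤ 1) : ζ = 1 := by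
  obtain ⟨L, hL, ha, -⟩ := h.box
  have ε0 := (Rb.fq_nonneg _ _ _ _).trans (hs 0 0 0)
  have q0 : qv T.M 0 = 0 := Q4.qv_dom T.odd (zero_dom _)
  have com := fun μ ν (y : Zc) (e : μ < ν ∧ y = zz ζ T.z μ ν) => kf_com hs (ha ν) (ha μ)
    (pcM_pv T.odd hU (un ν)) (pcM_pv T.odd hU (un μ)) (y := y) (by
      rw [qv_pv T.odd, qv_pv T.odd, q0, zb_zero_right, zb_zero_right, e.2]
      have := e.1
      fin_cases μ <;> fin_cases ν <;> simp [zb, zz, Fin.prod_univ_four, un_apply] at this ⊢)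
  obtain ⟨g, -, -, k⟩ := h.rig.alm (com 2 3 T.z (by simp [zz]))
  obtain ⟨c, hc⟩ := k _ (com 0 2 1 (by simp [zz])) (com 0 3 1 (by simp [zz]))
  have a := com 0 1 ζ (by simp [zz])
  generalize kf U (pv T.M (un 0)) _ 0 = p0 at hc a
  generalize kf U (pv T.M (un 1)) _ 0 = p1 at a
  have b := nr_iff.1 ((a.symm.trans (hc.left p1)).trans
    ((hc.right p1).symm.congr (zc_comm _ _) rfl))
  rw [mul_inv_cancel_right] at b
  refine h.rig.r3 ζ ?_
  have C1 := h.rig.one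
  have C2 := h.C2
  have B1 := h.B1
  have l2 : (L : ℝ) ^ 2 * ε ≤ B ^ 4 * ε := mul_le_mul_of_nonneg_right
    ((pow_le_pow_left₀ L.cast_nonneg hL 2).trans_eq (by ring)) ε0
  have t0 : 0 ≤ (L : ℝ) ^ 2 * ε := by positivity
  have c1 : 1 ≤ C ^ 2 := one_le_pow₀ C1
  have b1 : nq ζ ≤ 1248 * C ^ 2 * (B ^ 4 * ε) := by nlinarith
  have b2 : C * (1248 * C ^ 2) * 2 ≤ B ^ 2 := by nlinarith
  have b3 := mul_le_mul_of_nonneg_right b2 (show 0 ≤ B ^ 4 * ε by positivity)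
  have b4 := mul_le_mul_of_nonneg_left b1 (show 0 ≤ C by linarith)
  nlinarith

theorem near_vac (h : T.Ok C B β) {v : T.Cn} (hs : ∀ x μ ν, fq (T.lt v) x μ ν ≤ ε) :
    ∃ c g, ∀ p, nq (T.ac c g v p) ≤ B ^ 5 * ε := by
  obtain ⟨L, hL, ha, hd⟩ := h.box
  have ε0 := (Rb.fq_nonneg _ _ _ _).trans (hs 0 0 0)
  have hw : ∀ μ x ν, T.lt v (x + pv T.M (un μ), ν) = (fun _ => T.ga (un μ)) x * T.lt v (x, ν) *
      ((fun _ => T.ga (un μ)) (x + un ν))⁻¹ := fun μ x ν => T.lt_pv v x _ ν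
  obtain ⟨g0, g1, g2, g3⟩ := T.ga_un
  have com := fun μ ν (y : Zc) e => kf_com hs (ha ν) (ha μ) (hw ν) (hw μ) (y := y) e
  obtain ⟨g, a2, a3, k⟩ := h.rig.alm (com 2 3 T.z (by simp only [g2, g3, T.com]))
  obtain ⟨c0, a0⟩ := k _ (com 0 2 1 (by simp [g0])) (com 0 3 1 (by simp [g0]))
  obtain ⟨c1, a1⟩ := k _ (com 1 2 1 (by simp [g1])) (com 1 3 1 (by simp [g1]))
  have C1 := h.rig.one
  have t0 : 0 ≤ (L : ℝ) ^ 2 * ε := by positivity
  have c1' : C ≤ C ^ 2 := by nlinarith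
  have key : ∀ μ, Rb.Nr (6 * C ^ 2 * (96 * L ^ 2 * ε))
      (g * kf (T.lt v) (pv T.M (un μ)) (fun _ => T.ga (un μ)) 0 * g⁻¹)
      ((c0 ^ un μ 0 * c1 ^ un μ 1 : Zc) * T.ga (un μ)) := fun μ => by
    fin_cases μ
    · exact ((a0.left g).right g⁻¹).congr rfl (by simp [g0, un_apply, ← zc_comm])
    · exact ((a1.left g).right g⁻¹).congr rfl (by simp [g1, un_apply, ← zc_comm])
    · exact (a2.congr rfl (by simp [g2, un_apply])).mono (by nlinarith)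
    · exact (a3.congr rfl (by simp [g3, un_apply])).mono (by nlinarith)
  refine ⟨(c0, c1), fun p => g * cmb Inv.inv (T.lt v) p.2, fun ⟨μ, x⟩ => nr_one.1 ?_⟩
  have f := ((fix_loc (R := L) (fun x _ => hs x) (e := (x.1, μ))
    (mem_lbox.2 (hd _ x.2))).left g).right g⁻¹
  have C2 := h.C2
  have B1 := h.B1
  have l1 : (L : ℝ) * ε ≤ L ^ 2 * ε := mul_le_mul_of_nonneg_right
    (by exact_mod_cast Nat.le_self_pow two_ne_zero L) ε0
  have l2 : (L : ℝ) ^ 2 * ε ≤ B ^ 4 * ε := mul_le_mul_of_nonneg_right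
    ((pow_le_pow_left₀ L.cast_nonneg hL 2).trans_eq (by ring)) ε0
  have l3 := mul_le_mul C2 l2 t0 (by linarith)
  have l4 : (L : ℝ) ^ 2 * ε ≤ C ^ 2 * (L ^ 2 * ε) := le_mul_of_one_le_left t0 (by linarith)
  have k0 : T.kk (c0, c1) (fun p => g * cmb Inv.inv (T.lt v) p.2) x =
      g * cmb Inv.inv (T.lt v) x := by
    simp [kk, T.gx_dom, Q4.qv_dom T.odd x.2, rX_coe]
  have sp := Q4.qv_spec T.M (x + un μ)
  simp only [ac, gauge, k0]
  rcases qv_step T.odd x.2 μ with e | e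
  · refine (f.congr ?_ (by simp)).mono (by nlinarith)
    have : rcv T.M (x + un μ) = x + un μ := by
      rw [e, show pv T.M 0 = 0 from funext fun i => mul_zero _, add_zero] at sp
      exact sp.symm
    simp [kk, gx, e, ga, rX, this, gauge, mul_assoc]
  · have f1 := ((kf_nr hs (ha μ) (hw μ) (hd _ (rcv_mem T.odd (x + un μ)))).left g).right g⁻¹
    have f2 := (f.mul (f1.trans (key μ))).right
      (((c0 ^ un μ 0 * c1 ^ un μ 1 : Zc) : S3) * T.ga (un μ))⁻¹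
    refine (f2.congr ?_ (by simp)).mono (by nlinarith)
    rw [e] at sp
    simp only [kk, gx, e, rX, gauge, kf, ← sp]
    group

theorem stab (h : T.Ok C B β) {v : T.Cn} {c : Zc × Zc} {g : T.Gg} (h1 : ∀ p, nq (v p) ≤ ε)
    (h2 : ∀ p, nq (T.ac c g v p) ≤ ε) (hε : B ^ 4 * ε ≤ 1) :
    c = 1 ∧ ∃ y : Zc, ∀ p, nq (g p * (y : S3)⁻¹) ≤ B ^ 3 * ε := by
  obtain ⟨L, hL, ha, hd⟩ := h.box
  have ε0 := (nq_nonneg _).trans (h1 (0, rX T.odd 0))
  have s := fun x hx => slow (L := L) (η := ε + ε) (k := T.kk c g) (by positivity) (fun x _ ν => by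
    have a1 := (nr_one.2 ((T.nq_lt v (x, ν)).trans_le (h1 _))).left (T.kk c g x)
    have a2 := (nr_one.2 ((T.nq_lt (T.ac c g v) (x, ν)).trans_le (h2 _))).right
      (T.kk c g (x + un ν))
    rw [lt_ac] at a2
    exact (a1.symm.trans (a2.congr (by simp [gauge]) rfl)).congr (mul_one _) (one_mul _)) (x := x) hx
  have kd : ∀ x : domv T.M, T.kk c g x = g ((), x) := fun x => by
    simp [kk, T.gx_dom, Q4.qv_dom T.odd x.2, rX_coe]
  have z := zero_dom T.M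
  have k0 : T.kk c g 0 = g ((), ⟨0, z⟩) := kd ⟨0, z⟩
  have kp : ∀ μ, T.kk c g (pv T.M (un μ)) = (c.1 ^ un μ 0 * c.2 ^ un μ 1 : Zc) *
      (T.ga (un μ) * g ((), ⟨0, z⟩) * (T.ga (un μ))⁻¹) := fun μ => by
    have : rX T.odd (pv T.M (un μ)) = ⟨0, z⟩ := Subtype.ext (by
      simpa [rX, rcv_eq T.odd z] using rcv_add (n := T.M) 0 (un μ))
    simp only [kk, gx, qv_pv T.odd, this]
  obtain ⟨g0, g1, g2, g3⟩ := T.ga_un
  have a := fun μ => nr_iff.1 ((s _ (ha μ)).congr (kp μ) k0)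
  have a' := fun μ => nr_iff.1 ((s _ (ha μ)).congr (kp μ) k0).symm
  have C1 := h.rig.one
  have C2 := h.C2
  have B1 := h.B1
  have l1 : (L : ℝ) * ε ≤ B ^ 2 * ε := mul_le_mul_of_nonneg_right hL ε0
  have t0 : 0 ≤ B ^ 2 * ε := by positivity
  have l2 : 24 * C ≤ B := by nlinarith
  have l3 := mul_le_mul_of_nonneg_right l2 t0
  have l4 := mul_le_mul_of_nonneg_left l1 (show 0 ≤ C by linarith)
  have l5 : B ^ 2 * ε ≤ C * (B ^ 2 * ε) := le_mul_of_one_le_left t0 C1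
  have l6 : B * (B ^ 2 * ε) ≤ B ^ 4 * ε := by nlinarith
  have r : ∀ y : Zc, nq y ≤ 4 * L * (ε + ε) → y = 1 := fun y hy => h.rig.r3 y (by
    have := mul_le_mul_of_nonneg_left hy (show 0 ≤ C by linarith)
    nlinarith)
  refine ⟨Prod.ext (r _ (by simpa [g0, un_apply] using a 0)) (r _ (by simpa [g1, un_apply] using a 1)),
    ?_⟩
  obtain ⟨y, hy⟩ := h.rig.r2 (g ((), ⟨0, z⟩))
  have b2 : nq (g ((), ⟨0, z⟩) * T.P * (g ((), ⟨0, z⟩))⁻¹ * T.P⁻¹) ≤ 4 * L * (ε + ε) := by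
    simpa [g2, un_apply, mul_assoc] using a' 2
  have b3 : nq (g ((), ⟨0, z⟩) * T.Q * (g ((), ⟨0, z⟩))⁻¹ * T.Q⁻¹) ≤ 4 * L * (ε + ε) := by
    simpa [g3, un_apply, mul_assoc] using a' 3
  have b := nr_iff.2 (hy.trans (mul_le_mul_of_nonneg_left (add_le_add b2 b3) (by linarith)))
  refine ⟨y, fun p => nr_iff.1 ((((s _ (hd _ p.2.2)).congr (kd p.2) k0).trans b).mono ?_)⟩
  nlinarith

end Dt

end Pool.Agent.Lib.MP_7f377f_mp.RG.Lp
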