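import Pool.Agent.Lib.MP_7f377f_mp.G.TwRig
import Pool.Agent.Lib.MP_7f377f_mp.G.TwCoc
import Pool.Agent.Lib.MP_7f377f_mp.G.RGMeasKer
import Pool.Agent.Lib.MP_7f377f_mp.G.Q4BudG

/-! Crude bounds of the partition function of a torus which carries a flat field. -/

noncomputable section

set_option linter.unusedSectionVars false
variable [Pool.Agent.Lib.MP_7f377f_mp.GD]

namespace Pool.Agent.Lib.MP_7f377f_mp.RG.Q4

open Finset MeasureTheory Lp

theorem cx_crude {m : BF} {R : ℕ} {ρ : ℝ} (h : Bd R R ρ m) (x : St) (U : Conf) :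
    (cx m (Bx x (cC U)) (Bx x (cC U))).re ≤ 12 * ρ * cG * cG := by
  have a : Sm R cG (Bx x (cC U)) := fun e _ => by
    rw [Bx_eq, sh_cC, Bx_cC, ch_cS, ← sub_zero (co _), ← co_one, ← co_sub]
    exact (norm_co _).trans ((norm_cS_sub _).trans_le (nq_le _))
  exact (Complex.re_le_norm _).trans (cx_bd h a a)

theorem ball_pos {d : ℝ} (hd : 0 < d) : 0 < haar.real {g | nq g ≤ d} := by
  have o : IsOpen {g | nq g < d} := isOpen_lt cont_nq continuous_const
  have p : 0 < haar {g | nq g < d} := o.measure_pos haar ⟨1, by simpa using hd⟩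
  have q : {g | nq g < d} ⊆ {g | nq g ≤ d} := Set.setOf_subset_setOf.2 fun _ => le_of_lt
  exact ENNReal.toReal_pos (p.trans_le (measure_mono q)).ne' (measure_ne_top _ _)

theorem cout : Cout := by
  intro ρ P β hρ hP hβ
  have P1 : 1 ≤ P := (one_le_pow₀ hρ).trans hP
  have β1 : 1 ≤ β := (one_le_pow₀ P1).trans hβ
  obtain ⟨d, hd⟩ : ∃ d, d = P ^ 8 / √β / 4 := ⟨_, rfl⟩
  have d0 : 0 < d := by rw [hd]; positivity
  have a0 := ball_pos d0
  set a := haar.real {g | nq g ≤ d}
  obtain ⟨K, hK⟩ : ∃ K, K = 1 + β * (12 * ρ * cG * cG) := ⟨_, rfl⟩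
  have K0 : 0 ≤ K := by have := GD.cG_pos; rw [hK]; positivity
  refine ⟨P + K + 4 * |Real.log a|, fun t R m f ht hm hf ⟨U0, h0, hfl⟩ => ?_⟩
  have mg : Measurable fun U => f (pcT t U) := hf.meas.comp (cont_pcT t).measurable
  have up : ∀ U, f (pcT t U) ≤ Real.exp (P * vol t) := fun U =>
    (hf.up _ (perT_pcT ht U)).trans (Real.exp_le_exp.2 (sub_le_self _
      (mul_nonneg (Real.sqrt_nonneg _) (sum_nonneg fun _ _ => fs_nonneg _ _))))
  have ps : ∀ U, 0 < f (pcT t U) := fun U => hf.pos _ (perT_pcT ht U)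
  have ig : Integrable (fun U => f (pcT t U)) PP := Integrable.of_bound mg.aestronglyMeasurable _
    (.of_forall fun U => (Real.norm_of_nonneg (ps U).le).trans_le (up U))
  set S : Set Conf := Set.pi (ldomT t) fun e => (· * (U0 e)⁻¹) ⁻¹' {g | nq g ≤ d}
  have mB : ∀ e, MeasurableSet ((· * (U0 e)⁻¹) ⁻¹' {g | nq g ≤ d}) := fun e =>
    (isClosed_le cont_nq continuous_const).measurableSet.preimage (by fun_prop)
  have mS : MeasurableSet S := MeasurableSet.pi (countable_toSet _) fun e _ => mB e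
  have hS : PP.real S = a ^ (4 * vol t) := by
    rw [measureReal_def, PP, Measure.infinitePi_pi _ fun e _ => mB e]
    simp only [measure_preimage_mul_right, prod_const, ENNReal.toReal_pow]
    rw [ldomT, card_product, card_univ, Fintype.card_fin, mul_comm]
    rfl
  have lo : ∀ U ∈ S, Real.exp (-(K * vol t)) ≤ f (pcT t U) := fun U hU => by
    have n : ∀ e, Rb.Nr d (pcT t U e) (U0 e) := fun e => by
      rw [h0.rl e, pcT_apply]
      exact Rb.Nr.left _ ((S3.norm_sub _ _).trans_le (hU _ (rlT_mem ht e)))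
    have l := (abs_le.1 (hf.lg _ (perT_pcT ht U) fun x μ ν =>
      (fq_near (n _) (n _) (n _) (n _)).trans_eq (by rw [hfl, hd]; ring))).1
    have s := sum_le_card_nsmul (domT t) _ _ fun x _ => cx_crude hm.bd x (pcT t U)
    have v : (vol t : ℝ) / P ^ 5 ≤ vol t := div_le_self (Nat.cast_nonneg _) (one_le_pow₀ P1)
    rw [← Real.le_log_iff_exp_le (ps U), hK]
    rw [nsmul_eq_mul] at s
    have := mul_le_mul_of_nonneg_left s (zero_le_one.trans β1)
    simp only [vol] at *
    linarith
  have I1 : Real.exp (-(K * vol t)) * a ^ (4 * vol t) ≤ inT t f := by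
    rw [← hS]
    exact (setIntegral_ge_of_const_le_real mS (measure_ne_top _ _) lo ig.integrableOn).trans
      (setIntegral_le_integral ig (.of_forall fun U => (ps U).le))
  have I2 : inT t f ≤ Real.exp (P * vol t) := by
    simpa [inT] using integral_mono ig (integrable_const _) up
  have I0 := lt_of_lt_of_le (by positivity) I1
  have l1 := Real.log_le_log (by positivity) I1
  have l2 := Real.log_le_log I0 I2
  rw [Real.log_mul (by positivity) (by positivity), Real.log_exp, Real.log_pow] at l1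
  rw [Real.log_exp] at l2
  have v0 : (0 : ℝ) ≤ vol t := Nat.cast_nonneg _
  refine ⟨I0, abs_le.2 ⟨?_, ?_⟩⟩
  · push_cast at l1
    nlinarith [mul_le_mul_of_nonneg_left (neg_abs_le (Real.log a)) v0]
  · nlinarith [mul_nonneg K0 v0, mul_nonneg (abs_nonneg (Real.log a)) v0]

end Pool.Agent.Lib.MP_7f377f_mp.RG.Q4
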