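import Pool.Agent.Lib.MP_7f377f_mp.G.TwS1
import Pool.Agent.Lib.MP_7f377f_mp.G.CyE2

/-! Arrays of reflected copies: fields and sources. -/

noncomputable section

set_option linter.unusedSectionVars false
variable [Pool.Agent.Lib.MP_7f377f_mp.GD]

namespace Pool.Agent.Lib.MP_7f377f_mp.YM9

open MeasureTheory Filter Topology Function Real
open Y6 (tc tc_conj tc_inv bm_of_cont)

variable {w r N : Fin 4 → ℕ} {F : Sr} {a τ L η δ m : ℝ}

/-- the exchange of the axes `0` and `l` -/
abbrev xc (l : Fin 4) : Fd → Fd := prm (Equiv.swap 0 l)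

@[fun_prop] theorem cont_mot (w r : ℕ) : Continuous (mot w r) := by
  unfold mot
  split_ifs <;> fun_prop

@[fun_prop] theorem cont_Mot (w r : Fin 4 → ℕ) : Continuous (Mot w r) := continuous_pi fun e => by
  unfold Mot
  split_ifs <;> fun_prop

/-- the motion in one direction -/
def cp1 (l : Fin 4) (w r : ℕ) (i : Fin 4) (x : Z4) : Z4 := update x l
  (if Even r then (r + 1) * w - x l - (if i = l then 1 else 0) else x l + r * w)

theorem mot_apply (w r : ℕ) (U : Fd) (x : Z4) (i : Fin 4) : mot w r U (x, i) =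
    if Even r ∧ i = 0 then (U (cp1 0 w r i x, i))⁻¹ else U (cp1 0 w r i x, i) := by
  by_cases h : Even r
  · have e : rq i i x + Pi.single 0 ((r + 1) * w : ℤ) = cp1 0 w r i x := funext fun l => by
      by_cases hl : l = 0 <;> simp [rq, cp1, h, hl]
      ring
    simp only [mot, h, if_true, rfl0, sht, shf, e, true_and]
  · have e : x + Pi.single 0 (r * w : ℤ) = cp1 0 w r i x := funext fun l => by
      by_cases hl : l = 0 <;> simp [cp1, h, hl]
    simp only [mot, h, if_false, sht, shf, e, false_and]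

theorem xc_mot (l : Fin 4) (w r : ℕ) (U : Fd) (x : Z4) (i : Fin 4) :
    xc l (mot w r (xc l U)) (x, i) =
      if Even r ∧ i = l then (U (cp1 l w r i x, i))⁻¹ else U (cp1 l w r i x, i) := by
  have e0 : Equiv.swap 0 l i = 0 ↔ i = l := by rw [Equiv.swap_apply_eq_iff, Equiv.swap_apply_left]
  have e : cp1 0 w r (Equiv.swap 0 l i) (x ∘ (Equiv.swap 0 l).symm) ∘ (Equiv.swap 0 l).symm =
      cp1 l w r i x := funext fun k => by
    by_cases hk : k = l
    · simp [cp1, hk, e0]
    · have : Equiv.swap 0 l k ≠ 0 := by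
        rwa [Ne, Equiv.swap_apply_eq_iff, Equiv.swap_apply_left]
      simp [cp1, hk, this]
  simp only [prm, mot_apply, e, e0, Equiv.swap_apply_self]

theorem Mot_eq (w r : Fin 4 → ℕ) (U : Fd) : Mot w r U = mot (w 0) (r 0) (xc 1 (mot (w 1) (r 1)
    (xc 1 (xc 2 (mot (w 2) (r 2) (xc 2 (xc 3 (mot (w 3) (r 3) (xc 3 U))))))))) := by
  funext ⟨x, i⟩
  have e : cp1 3 (w 3) (r 3) i (cp1 2 (w 2) (r 2) i (cp1 1 (w 1) (r 1) i
      (cp1 0 (w 0) (r 0) i x))) = cpy w r i i x := funext fun l => by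
    fin_cases l <;> simp [cp1, cpy]
  simp only [mot_apply, xc_mot, e, Mot]
  fin_cases i <;> simp

/-- the inverse of `cpy` -/
def cpz (w r : Fin 4 → ℕ) (i j : Fin 4) (x : Z4) : Z4 := fun l =>
  if Even (r l) then (r l + 1) * w l - x l - (if i = l ∨ j = l then 1 else 0) else x l - r l * w l

/-- the copy as a bijection -/
def cpE (w r : Fin 4 → ℕ) (i j : Fin 4) : Z4 ≃ Z4 where
  toFun := cpy w r i j
  invFun := cpz w r i j
  left_inv x := funext fun l => by simp only [cpy, cpz]; split_ifs <;> ring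
  right_inv x := funext fun l => by simp only [cpy, cpz]; split_ifs <;> ring

theorem act_ne {x : Z4} (hx : act w r F x ≠ 0) : ∃ i j, F (cpz w r i j x) ≠ 0 := by
  obtain ⟨i, hi⟩ := ne_iff.1 hx
  obtain ⟨j, hj⟩ := ne_iff.1 hi
  exact ⟨i, j, fun e => hj (congrFun (congrFun e i) j)⟩

theorem pe_Mot {i j : Fin 4} (hij : i ≠ j) (U : Fd) (x : Z4) :
    pe (Mot w r U) x i j = pe U (cpy w r i j x) i j := by
  have e : ∀ {i j : Fin 4}, i ≠ j →
      (cpy w r i i x = cpy w r i j x + if Even (r j) then Pi.single j 1 else 0) ∧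
      cpy w r i i (x + Pi.single j 1) =
        cpy w r i j x + if Even (r j) then 0 else Pi.single j 1 := fun {i j} hij => by
    constructor <;> funext l <;> by_cases hl : l = j <;> by_cases h : Even (r j) <;>
      simp [cpy, hl, h, hij, Ne.symm] <;> ring
  have e' : cpy w r j i x = cpy w r i j x := funext fun l => by simp only [cpy, or_comm]
  simp only [pe, Mot, (e hij).1, (e hij).2, (e hij.symm).1, (e hij.symm).2, e']
  generalize cpy w r i j x = y
  refine congrArg (2 - ·) ?_
  split_ifs <;> simp only [add_zero, inv_inv]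
  · refine (tc_conj (U (y, i) * U (y + Pi.single i 1, j)) _).symm.trans (congrArg tc ?_)
    group
  · refine (tc_conj (U (y, i)) _).symm.trans ((tc_inv _).symm.trans (congrArg tc ?_))
    group
  · refine (tc_conj (U (y, j)) _).symm.trans ((tc_inv _).symm.trans (congrArg tc ?_))
    group

theorem fin_act (hF : (support F).Finite) : (support (act w r F)).Finite :=
  (Set.finite_iUnion fun i => Set.finite_iUnion fun j =>
    hF.preimage (cpE w r i j).symm.injective.injOn).subset fun _ hx => by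
      simp only [Set.mem_iUnion]
      exact act_ne hx

theorem gf_Mot (hF : (support F).Finite) (U : Fd) : gf F (Mot w r U) = gf (act w r F) U := by
  rw [gf, gf, tsum_swap fun i j => hF.subset fun x hx h0 => hx (by simp [h0]),
    tsum_swap fun i j => (fin_act (w := w) (r := r) hF).subset fun x hx h0 => hx (by simp [h0])]
  refine Finset.sum_congr rfl fun i _ => Finset.sum_congr rfl fun j _ => ?_
  rw [← (cpE w r i j).tsum_eq (fun x => if i < j then act w r F x i j * pe U x i j else 0)]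
  refine tsum_congr fun x => if_ctx_congr Iff.rfl (fun hij => ?_) fun _ => rfl
  rw [pe_Mot hij.ne]
  exact congrArg (fun y => F y i j * _) ((cpE w r i j).left_inv x).symm

theorem sz_act (hF : Sz L a τ F) (ha : 0 ≤ a) (hτ : a ≤ τ) : Sz (3 * L) a τ (act w r F) := by
  obtain ⟨g, h1, h2, h3⟩ := hF
  have L0 : 0 ≤ L := (abs_nonneg _).trans (h1 0)
  have La := mul_nonneg L0 ha
  have st : ∀ (y : Z4) (p : Prop) [Decidable p] (l : Fin 4),
      |g (y + if p then Pi.single l 1 else 0) - g y| ≤ L * a := fun y p _ l => by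
    split_ifs
    exacts [h2 y l, by simpa using La]
  obtain ⟨c, hc⟩ : ∃ c : Z4 → Z4, ∀ x l, c x l =
      if Even (r l) then (r l + 1) * w l - x l else x l - r l * w l := ⟨_, fun _ _ => rfl⟩
  refine ⟨fun x => g (c x), fun x => (h1 _).trans (by linarith), fun x l => ?_, fun x i j => ?_⟩
  · refine le_trans ?_ (show L * a ≤ _ by linarith)
    beta_reduce
    by_cases h : Even (r l)
    · have e : c x = c (x + Pi.single l 1) + Pi.single l 1 := funext fun k => by
        by_cases hk : k = l <;> simp [hc, hk, h]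
        ring
      rw [abs_sub_comm, e]
      exact h2 _ _
    · have e : c (x + Pi.single l 1) = c x + Pi.single l 1 := funext fun k => by
        by_cases hk : k = l <;> simp [hc, hk, h]
        ring
      rw [e]
      exact h2 _ _
  · have e : c x = (cpz w r i j x + if Even (r i) then Pi.single i 1 else 0) +
        if Even (r j) ∧ j ≠ i then Pi.single j 1 else 0 := funext fun k => by
      simp only [hc, cpz, Pi.add_apply, ite_apply, Pi.single_apply, Pi.zero_apply]
      grind
    have h4 := h3 (cpz w r i j x) i j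
    have h5 := st (cpz w r i j x) (Even (r i)) i
    have h6 := st (cpz w r i j x + if Even (r i) then Pi.single i 1 else 0) (Even (r j) ∧ j ≠ i) j
    have h7 := mul_le_mul_of_nonneg_left hτ L0
    rw [← e] at h6
    rw [abs_le] at h4 h5 h6 ⊢
    change _ ≤ F (cpz w r i j x) i j - _ ∧ F (cpz w r i j x) i j - _ ≤ _
    constructor <;> linarith [h4.1, h4.2, h5.1, h5.2, h6.1, h6.2]

theorem cpz_cases (i j : Fin 4) (x : Z4) (l : Fin 4) :
    (Even (r l) ∧ ((x l : ℝ) = (r l + 1) * w l - cpz w r i j x l ∨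
      (x l : ℝ) = (r l + 1) * w l - cpz w r i j x l - 1)) ∨
      (¬ Even (r l) ∧ (x l : ℝ) = cpz w r i j x l + r l * w l) := by
  simp only [cpz]
  split_ifs with h h'
  exacts [.inl ⟨h, .inr (by push_cast; ring)⟩, .inl ⟨h, .inl (by push_cast; ring)⟩,
    .inr ⟨h, by push_cast; ring⟩]

theorem in_act (ha : 0 ≤ a) (hr : r ∈ Cp N) (hm : ∀ l, a * (N l * w l) ≤ m)
    (h1 : ∀ x, F x ≠ 0 → ∀ l, 0 ≤ x l ∧ x l < w l) : In a (m + a) (act w r F) := by
  intro x hx l
  obtain ⟨i, j, e⟩ := act_ne hx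
  have h2 : (0 : ℝ) ≤ cpz w r i j x l := by exact_mod_cast (h1 _ e l).1
  have h3 : (cpz w r i j x l : ℝ) + 1 ≤ w l := by exact_mod_cast (h1 _ e l).2
  have h4 : (r l + 1 : ℝ) * w l ≤ N l * w l := by
    gcongr
    exact_mod_cast Finset.mem_range.1 (Fintype.mem_piFinset.1 hr l)
  have h5 : (0 : ℝ) ≤ r l * w l := by positivity
  have h6 : (0 : ℝ) ≤ x l ∧ (x l : ℝ) ≤ N l * w l := by
    rcases cpz_cases (w := w) (r := r) i j x l with ⟨-, e | e⟩ | ⟨-, e⟩ <;> constructor <;> linarith
  rw [abs_of_nonneg (mul_nonneg ha h6.1)]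
  linarith [mul_le_mul_of_nonneg_left h6.2 ha, hm l]

theorem dist_le_add {p q p' q' : R4} (h : ∀ l, |p' l - q' l| ≤ |p l - q l| + a) (ha : 0 ≤ a) :
    dist p' q' ≤ dist p q + 2 * a := by
  let u : R4 := WithLp.toLp 2 fun l => |p l - q l|
  let v : R4 := WithLp.toLp 2 fun _ => -a
  have h1 : dist 0 v ≤ 2 * a := YM7.dist_le_two fun l => by simp [v, abs_of_nonneg ha]
  have h2 : dist u 0 = dist p q := by
    rw [EuclideanSpace.dist_eq, EuclideanSpace.dist_eq]
    simp [u, Real.dist_eq]
  refine le_trans ?_ ((dist_triangle u 0 v).trans (add_le_add h2.le h1))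
  rw [EuclideanSpace.dist_eq, EuclideanSpace.dist_eq]
  refine sqrt_le_sqrt (Finset.sum_le_sum fun l _ => pow_le_pow_left₀ dist_nonneg ?_ 2)
  exact (h l).trans ((sub_neg_eq_add _ _).ge.trans (le_abs_self _))

theorem apart_act {κ : Type} {G : κ → Sr} (ha : 0 ≤ a) (hδ : 8 * a ≤ δ) (hη : a ≤ η)
    (hm : ∀ l, a * (N l * w l) ≤ m)
    (h1 : ∀ i x, G i x ≠ 0 → ∀ l, η ≤ a * x l ∧ a * x l ≤ a * w l - η) (h2 : Apart {0} a δ G) :
    Apart (Lt m) a (min (δ / 2) η) fun q : Cp N × κ => act w q.1 (G q.2) := by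
  rintro ⟨⟨r, hr⟩, i⟩ ⟨⟨r', hr'⟩, j⟩ hij x y hx hy _ ⟨z, rfl⟩
  have t : ∀ l, η ≤ |a * x l - a * y l - m * z l| →
      min (δ / 2) η ≤ dist (pt a x) (pt a y + pt m z) := fun l e =>
    (min_le_right _ _).trans (e.trans (le_of_eq_of_le (by simp [pt, Real.dist_eq, sub_sub])
      (PiLp.dist_apply_le (pt a x) (pt a y + pt m z) l)))
  have h3 : ∀ {r : Fin 4 → ℕ} {i x}, r ∈ Cp N → act w r (G i) x ≠ 0 → ∀ l,
      a * (r l * w l) + η - a ≤ a * x l ∧ a * x l ≤ a * ((r l + 1) * w l) - η ∧
        0 ≤ a * (r l * w l) ∧ a * ((r l + 1) * w l) ≤ m := fun {r i x} hr hx l => by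
    obtain ⟨u, v, e⟩ := act_ne hx
    have h4 := h1 i _ e l
    have h5 : (r l + 1 : ℝ) ≤ N l := by
      exact_mod_cast Finset.mem_range.1 (Fintype.mem_piFinset.1 hr l)
    refine ⟨?_, ?_, by positivity, le_trans (by gcongr) (hm l)⟩ <;>
      rcases cpz_cases (w := w) (r := r) u v x l with ⟨-, e | e⟩ | ⟨-, e⟩ <;> rw [e] <;>
        linarith [h4.1, h4.2]
  have e1 := h3 hr hx
  have e2 := h3 hr' hy
  rcases le_or_gt η 0 with η0 | η0
  · exact (min_le_right _ _).trans (η0.trans dist_nonneg)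
  by_cases hz : z = 0
  swap
  · obtain ⟨l, hl⟩ := ne_iff.1 hz
    obtain ⟨a1, a2, a3, a4⟩ := e1 l
    obtain ⟨a5, a6, a7, a8⟩ := e2 l
    exact t l (far_int _ (by linarith) (fun _ => Or.inl hl) (by linarith) (by linarith))
  subst hz
  by_cases hr : r = r'
  · subst hr
    obtain ⟨u, v, e3⟩ := act_ne hx
    obtain ⟨u', v', e4⟩ := act_ne hy
    have e5 := h2 i j (by rintro rfl; exact hij rfl) _ _ e3 e4 0 rfl
    have e6 := dist_le_add (p := pt a x) (q := pt a y + pt m 0) (p' := pt a (cpz w r u v x))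
      (q' := pt a (cpz w r u' v' y) + 0) (fun l => ?_) ha
    · exact (min_le_left _ _).trans (by linarith)
    · simp only [pt, PiLp.add_apply, Pi.zero_apply, Int.cast_zero, mul_zero, add_zero]
      have := le_abs_self (a * x l - a * y l)
      have := neg_abs_le (a * x l - a * y l)
      rcases cpz_cases (w := w) (r := r) u v x l with ⟨c, e | e⟩ | ⟨c, e⟩ <;>
        rcases cpz_cases (w := w) (r := r) u' v' y l with ⟨c', e' | e'⟩ | ⟨c', e'⟩ <;>
          first
          | exact absurd c c'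
          | exact absurd c' c
          | (have := congrArg (a * ·) e
             have := congrArg (a * ·) e'
             rw [abs_le]
             constructor <;> linarith)
  · obtain ⟨l, hl⟩ := ne_iff.1 hr
    obtain ⟨a1, a2, -⟩ := e1 l
    obtain ⟨a5, a6, -⟩ := e2 l
    have k : ∀ s s' : ℕ, s < s' → a * ((s + 1) * w l) ≤ a * (s' * w l) := fun s s' e => by
      gcongr
      exact_mod_cast e
    refine t l ?_
    rw [Pi.zero_apply, Int.cast_zero, mul_zero, sub_zero, le_abs]
    rcases lt_or_gt_of_ne hl with e | e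
    exacts [Or.inr (by linarith [k _ _ e]), Or.inl (by linarith [k _ _ e])]

theorem dep_bx (hF : ∀ x, F x ≠ 0 → ∀ l, 0 ≤ x l ∧ x l + 1 < w l) : DependsOn (gf F) (Bx9 w) :=
  fun U V H => tsum_congr fun x => by
    by_cases hx : F x = 0
    · simp [hx]
    have h1 := hF x hx
    have h2 : ∀ i, U (x, i) = V (x, i) := fun i => H _ fun l => by
      have := h1 l
      simp only
      omega
    have h3 : ∀ i j, U (x + Pi.single i 1, j) = V (x + Pi.single i 1, j) := fun i j => H _ fun l => by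
      have := h1 l
      simp only [Pi.add_apply, Pi.single_apply]
      split_ifs <;> omega
    simp only [pe, h2, h3]

theorem fin_bx (hF : ∀ x, F x ≠ 0 → ∀ l, 0 ≤ x l ∧ x l + 1 < w l) : (support F).Finite :=
  (Set.Finite.pi' fun l => Set.finite_Icc 0 (w l : ℤ)).subset fun x hx l =>
    ⟨(hF x hx l).1, by have := hF x hx l; omega⟩

variable [MeasurableSpace SU2] [BorelSpace SU2] (h : Measure SU2) [h.IsHaarMeasure]
  [IsProbabilityMeasure h]

theorem mp_Mot (b : ℝ) {n : ℕ} (hn : 0 < n) (w r : Fin 4 → ℕ) :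
    MeasurePreserving (Mot w r) (cube h b n) (cube h b n) := by
  have x : ∀ l, MeasurePreserving (xc l) (cube h b n) (cube h b n) := fun l =>
    mp_prm h b (fun _ => hn) _
  have m : ∀ w r, MeasurePreserving (mot w r) (cube h b n) (cube h b n) := fun w r => by
    unfold mot
    split_ifs
    exacts [(mp_rfl h b fun _ => hn).comp (mp_shf h b (fun _ => hn) _), mp_shf h b (fun _ => hn) _]
  rw [funext (Mot_eq w r)]
  exact (m _ _).comp ((x 1).comp ((m _ _).comp ((x 1).comp ((x 2).comp ((m _ _).comp ((x 2).comp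
    ((x 3).comp ((m _ _).comp (x 3)))))))))

theorem prod_Mot {b : ℝ} {n : ℕ} (hn : 0 < n) {κ : Type} [Fintype κ] {G : κ → Sr}
    (fin : ∀ i, (support (G i)).Finite) (A : Finset (Fin 4 → ℕ)) :
    ∫ U, ∏ r ∈ A, ∏ i, (gf (G i) (Mot w r U) - ∫ V, gf (G i) V ∂cube h b n) ∂cube h b n =
      gc (cube h b n) (cube h b n) fun q : A × κ => act w q.1 (G q.2) := by
  refine congrArg _ (funext fun U => ?_)
  simp only [Fintype.prod_prod_type, ← gf_Mot (fin _),
    Weak.int_mp (mp_Mot h b hn w _) (cont_gf (fin _))]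
  exact (A.prod_coe_sort _).symm

/-- domination of a centred product -/
theorem Dom.gc {μ : Measure Fd} [IsProbabilityMeasure μ] {b D : ℝ} {n : ℕ} (hn : 0 < n)
    (H : Dom μ (cube h b n) N w D) {κ : Type} [Fintype κ] {G : κ → Sr}
    (h1 : ∀ i x, G i x ≠ 0 → ∀ l, 0 ≤ x l ∧ x l + 1 < w l) :
    |gc μ (cube h b n) G| ^ (∏ l, N l) ≤
      D * gc (cube h b n) (cube h b n) fun q : Cp N × κ => act w q.1 (G q.2) := by
  have fin := fun i => fin_bx (h1 i)
  rw [← prod_Mot h hn fin]
  exact H _ (continuous_finsetProd _ fun i _ => (cont_gf (fin i)).sub continuous_const)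
    fun U V e => Finset.prod_congr rfl fun i _ => by rw [dep_bx (h1 i) e]

/-- domination of a centred product minus a constant -/
theorem Dom.gc' {μ : Measure Fd} [IsProbabilityMeasure μ] {b D : ℝ} {n : ℕ} (hn : 0 < n)
    (H : Dom μ (cube h b n) N w D) {κ : Type} [Fintype κ] {G : κ → Sr}
    (h1 : ∀ i x, G i x ≠ 0 → ∀ l, 0 ≤ x l ∧ x l + 1 < w l) (L c : ℝ) :
    |L * YM9.gc μ (cube h b n) G - c| ^ (∏ l, N l) ≤
      D * ∑ A ∈ (Cp N).powerset, L ^ A.card * (YM9.gc (cube h b n) (cube h b n)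
        fun q : A × κ => act w q.1 (G q.2)) * (-c) ^ ((Cp N).card - A.card) := by
  have fin := fun i => fin_bx (h1 i)
  have cg := fun i => cont_gf (fin i)
  have key := H (fun U => L * ∏ i, (gf (G i) U - ∫ V, gf (G i) V ∂cube h b n) + -c) (by fun_prop)
    fun U V e => by simp only [fun i => dep_bx (h1 i) e]
  rw [integral_add ((bm_of_cont (by fun_prop)).integrable _) (integrable_const _),
    integral_const_mul, integral_const, probReal_univ, one_smul, ← sub_eq_add_neg] at key
  refine key.trans_eq (congrArg _ ?_)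
  simp only [Finset.prod_add]
  rw [integral_finsetSum _ fun B _ => (bm_of_cont (by fun_prop)).integrable _]
  refine Finset.sum_congr rfl fun A hA => ?_
  simp only [Finset.prod_mul_distrib, Finset.prod_const, integral_mul_const, integral_const_mul,
    prod_Mot h hn fin, Finset.card_sdiff_of_subset (Finset.mem_powerset.1 hA)]

end Pool.Agent.Lib.MP_7f377f_mp.YM9
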