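import Pool.Agent.Lib.MP_7f377f_mp.G.TwS1
import Pool.Agent.Lib.MP_7f377f_mp.G.CyG

/-! Many clusters at short distances. -/

noncomputable section

set_option linter.unusedSectionVars false
variable [Pool.Agent.Lib.MP_7f377f_mp.GD]

namespace Pool.Agent.Lib.MP_7f377f_mp.YM9

open MeasureTheory Filter Topology Function Real

theorem Fr.lp_pi {κ A : Type} [Fintype κ] [DecidableEq κ] [Fintype A] (ρ : Type) [Fintype ρ] :
    ∀ [DecidableEq ρ] (K : ρ → κ → κ → A → A → ℝ), (Fr.lp fun p q : ρ × κ =>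
      if p.1 = q.1 then K p.1 p.2 q.2 else fun _ _ => 0) = ∏ r, Fr.lp (K r) := by
  refine Fintype.induction_empty_option (P := fun ρ _ => ∀ [DecidableEq ρ]
    (K : ρ → κ → κ → A → A → ℝ), (Fr.lp fun p q : ρ × κ => if p.1 = q.1 then K p.1 p.2 q.2
      else fun _ _ => 0) = ∏ r, Fr.lp (K r)) (fun ρ ρ' _ e ih _ K => ?_) (fun K => ?_)
    (fun ρ _ ih _ K => ?_) ρ
  · classical
    let _ := Fintype.ofEquiv ρ' e.symm
    rw [← e.prod_comp, ← Fr.lp_reindex (e.prodCongr (Equiv.refl κ))]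
    simpa using ih fun r => K (e r)
  · simp [Fr.lp]
  · classical
    rw [Fintype.prod_option, ← ih, ← Fr.lp_reindex (optionProdEquiv (α := ρ) (β := κ)).symm,
      Fr.lp_block fun _ _ _ _ => by simp]
    simp

theorem Fr.int_pi {ρ κ : Type} [Fintype ρ] [Fintype κ] (G : ρ → (κ → R4) → ℝ) :
    ∫ y : ρ × κ → R4, ∏ r, G r (fun i => y (r, i)) = ∏ r, ∫ y, G r y := by
  have : MeasurePreserving (MeasurableEquiv.curry ρ κ R4).symm := ⟨by fun_prop,
    (Measure.pi_eq fun s hs => by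
      rw [MeasurableEquiv.map_apply, Fintype.prod_prod_type, show (MeasurableEquiv.curry ρ κ R4).symm ⁻¹'
        Set.univ.pi s = Set.univ.pi fun r => Set.univ.pi fun i => s (r, i) by
          ext y; simp [MeasurableEquiv.curry]]
      simp only [volume_pi_pi]).symm⟩
  rw [← this.integral_comp', ← integral_fintype_prod_volume_eq_prod]
  rfl

theorem Fr.gv_multi {ρ κ : Type} [Fintype ρ] [DecidableEq ρ] [Fintype κ] [DecidableEq κ]
    {f : ρ → κ → R4 → ℝ} (f1 : ∀ r i, HasCompactSupport (f r i)) (f2 : ∀ r i, Continuous (f r i))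
    (f3 : ∀ r, Pairwise fun i j => Disjoint (tsupport (f r i)) (tsupport (f r j)))
    {v : ρ → R4} (hv : Injective v) :
    Tendsto (fun t : ℝ => Fr.gv fun (q : ρ × κ) y => f q.1 q.2 (y - t • v q.1)) atTop
      (𝓝 (∏ r, Fr.gv (f r))) := by
  obtain ⟨δ, d1, hδ⟩ := ((eventually_all.2 fun r => Fr.exists_sep (f1 r) (f3 r)).and
    self_mem_nhdsWithin).exists
  have hδ : 0 < δ := hδ
  obtain ⟨R, hR⟩ := (isCompact_iUnion fun q : ρ × κ => f1 q.1 q.2).isBounded.exists_norm_le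
  have hR' : ∀ (q : ρ × κ) y, f q.1 q.2 y ≠ 0 → ‖y‖ ≤ R := fun q y hy =>
    hR y (Set.mem_iUnion.2 ⟨q, subset_tsupport _ hy⟩)
  have e2 : ∏ r, Fr.gv (f r) = ∫ y : ρ × κ → R4, (∏ q : ρ × κ, f q.1 q.2 (y q)) *
      ∏ r, Fr.fr fun i => y (r, i) := by
    simp only [Fr.gv, ← Fr.int_pi, Fintype.prod_prod_type, Finset.prod_mul_distrib]
  have far : ∀ (x y : R4) r s (t : ℝ), ‖v s - v r‖ * t - ‖x‖ - ‖y‖ ≤
      ‖y + t • v s - (x + t • v r)‖ := fun x y r s t => by
    have h1 := norm_sub_le (y + t • v s - (x + t • v r) + x) y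
    have h2 := norm_add_le (y + t • v s - (x + t • v r)) x
    rw [show y + t • v s - (x + t • v r) + x - y = t • (v s - v r) by module, norm_smul] at h1
    nlinarith [mul_le_mul_of_nonneg_right (le_norm_self t) (norm_nonneg (v s - v r))]
  have h : ∀ r s, r ≠ s → Tendsto (fun t : ℝ => ‖v s - v r‖ * t) atTop atTop := fun r s e =>
    tendsto_id.const_mul_atTop (norm_sub_pos_iff.2 (hv.ne e.symm))
  simp only [e2, Fr.gv_shift (fun q : ρ × κ => f q.1 q.2)]
  refine tendsto_integral_filter_of_dominated_convergence (fun y => |∏ q : ρ × κ, f q.1 q.2 (y q)| *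
    Fr.lp fun (_ _ : ρ × κ) (_ _ : Fin 4 × Fin 4) => 18 / δ ^ 4) (.of_forall fun t => ?_) ?_ ?_
    (.of_forall fun y => .const_mul _ ?_)
  · exact ((Finset.measurable_prod _ fun q _ => (f2 q.1 q.2).measurable.comp
      (measurable_pi_apply q)).mul (Fr.fr_meas.comp (measurable_add_const _))).aestronglyMeasurable
  · filter_upwards [eventually_all.2 fun r => eventually_all.2 fun s => eventually_all.2 fun e =>
      (h r s e).eventually_ge_atTop (δ + 2 * R)] with t ht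
    refine .of_forall fun y => ?_
    by_cases h0 : ∏ q : ρ × κ, f q.1 q.2 (y q) = 0
    · simp [h0]
    have h1 := fun q => Finset.prod_ne_zero_iff.1 h0 q (Finset.mem_univ q)
    rw [Real.norm_eq_abs, abs_mul]
    refine mul_le_mul_of_nonneg_left (Fr.fr_le hδ ?_) (abs_nonneg _)
    rintro ⟨r, i⟩ ⟨s, j⟩ hij
    simp only [Pi.add_apply]
    by_cases e : r = s
    · subst e
      rw [add_sub_add_right_eq_sub]
      exact d1 r i j (fun e => hij (congrArg _ e)) _ _ (h1 (r, i)) (h1 (r, j))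
    · linarith [far (y (r, i)) (y (s, j)) r s t, hR' _ _ (h1 (r, i)), hR' _ _ (h1 (s, j)), ht r s e]
  · exact (Integrable.fintype_prod fun q : ρ × κ =>
      (f2 q.1 q.2).integrable_of_hasCompactSupport (f1 q.1 q.2)).abs.mul_const _
  · refine (Fr.lp_tendsto ?_).mono_right
      (congrArg 𝓝 (Fr.lp_pi ρ fun r i j => Fr.kk (y (r, j) - y (r, i)))).le
    rintro ⟨r, i⟩ ⟨s, j⟩ a b
    simp only [Pi.add_apply]
    by_cases e : r = s
    · subst e
      simp only [add_sub_add_right_eq_sub, if_true]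
      exact tendsto_const_nhds
    · rw [if_neg e]
      exact Fr.kk_far (tendsto_atTop_mono (far _ _ r s)
        (tendsto_atTop_add_const_right _ _ (tendsto_atTop_add_const_right _ _ (h r s e)))) a b

variable [MeasurableSpace SU2] [BorelSpace SU2] {ι : Type} {Φ : Filter ι} {a τ : ι → ℝ}
  {ρ μ : ι → Measure Fd} {κ : Type} [Fintype κ]

theorem Bd.nq {Λ : Set R4} (hB : Bd Λ Φ ρ μ a τ) (hF : Fm Φ a τ)
    (h0 : ∀ᶠ p in Φ, IsFiniteMeasure (ρ p) ∧ IsFiniteMeasure (μ p)) (hΛ : IsClosed Λ)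
    {f : κ → R4 → ℝ} (hf : AdL Λ f) {F : ι → κ → Sr} {N : ℝ}
    (hN : ∀ᶠ p in Φ, ∀ i, Nq N (a p) (F p i) (f i)) :
    Tendsto (fun p => gc (ρ p) (μ p) (F p) - gc (ρ p) (μ p) fun i => src (a p) (f i)) Φ (𝓝 0) := by
  let e := (Fintype.equivFin κ).symm
  have hf' : AdL Λ (f ∘ e) := ⟨fun i => hf.1 _, fun i j hij => hf.2 _ _ (e.injective.ne hij)⟩
  obtain ⟨D, q, h1⟩ := hf'.data hΛ
  obtain ⟨C, -, hC⟩ := hB.pert hF h0 _ D q
  have t0 := (tendsto_inv_atTop_zero.comp hF.tau).const_mul (|N| + 1)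
  have t1 := t0.const_mul C
  rw [mul_zero] at t0
  rw [mul_zero, mul_zero] at t1
  refine squeeze_zero_norm' ?_ t1
  filter_upwards [hC, hN, hF.pos, t0.eventually_le_const one_pos,
    hF.small (show 0 < 1 / (q + 1 : ℝ) / 4 / (|N| + 1) by positivity)] with p h4 h5 ⟨a0, τ0⟩ h7 h8
  have h9 : N * a p ≤ (|N| + 1) * a p := by gcongr; linarith [le_abs_self N]
  rw [← gc_equiv e, ← gc_equiv e _ _ fun i => src (a p) (f i)]
  refine h4 _ h1 _ ((|N| + 1) * (τ p / a p)⁻¹) (by positivity) h7 (fun i => YM7.sz_small (n := 0)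
    (by positivity) a0.le fun x s t => ?_) fun i x hx => ?_
  · obtain ⟨y, hy, e'⟩ := h5 (e i) x s t
    change |F p (e i) x s t - f (e i) (pt (a p) x)| ≤ _
    rw [e']
    refine ((h1.2.1 i).1.dist_le_mul _ _).trans ((mul_le_mul (b := (D + 1 : ℝ)) (by simp)
      (hy.trans h9) dist_nonneg (by positivity)).trans_eq ?_)
    field_simp
  · obtain ⟨s, hs⟩ := ne_iff.1 hx
    obtain ⟨t, ht⟩ := ne_iff.1 hs
    obtain ⟨y, hy, e'⟩ := h5 (e i) x s t
    rw [le_div_iff₀' (by positivity)] at h8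
    exact ⟨y, subset_tsupport (f (e i)) fun e0 => ht (e'.trans e0), by linarith⟩

theorem Sho.fin [DecidableEq κ] (hS : ∀ K, Sho Φ ρ μ a K) {f : κ → R4 → ℝ} (hf : AdL {0} f) :
    Tendsto (fun q : ℝ × ι => log q.1⁻¹ ^ Fintype.card κ *
      gc (ρ q.2) (μ q.2) fun i => Gs.sc (a q.2) q.1 (f i)) ((𝓝[>] 0).curry Φ)
      (𝓝 ((48 / (11 * GD.b0)) ^ Fintype.card κ * Fr.gv f)) := by
  let e := (Fintype.equivFin κ).symm
  have := Gs.sho_iff.1 (hS _) _ le_rfl (f ∘ e) ⟨fun _ => hf.1 _, fun i j hij =>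
    Set.disjoint_left.2 fun x hx hy => hf.2 _ _ (e.injective.ne hij) x hx x hy 0 rfl (add_zero x).symm⟩
  rw [fv_eq, Fr.gv_reindex] at this
  exact this.congr fun q => congrArg _ (gc_equiv e _ _ fun i => Gs.sc (a q.2) q.1 (f i))

end Pool.Agent.Lib.MP_7f377f_mp.YM9
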