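import Pool.Agent.Lib.MP_7f377f_mp.G.TwD1
import Pool.Agent.Lib.MP_7f377f_mp.G.TwD3
import Pool.Agent.Lib.MP_7f377f_mp.G.TwC2

/-! The short distance law of the cubes passes to the planes. -/

noncomputable section

set_option linter.unusedSectionVars false
variable [Pool.Agent.Lib.MP_7f377f_mp.GD]

namespace Pool.Agent.Lib.MP_7f377f_mp.YM9

open MeasureTheory Filter Topology Function Real

open Gs

/-- the reflection of the copy `r` -/
def D4.rl (r : Fin 4 → ℕ) : R4 ≃ₗᵢ[ℝ] R4 := LinearIsometryEquiv.piLpCongrRight 2 fun l =>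
  if Even (r l) then LinearIsometryEquiv.neg ℝ else LinearIsometryEquiv.refl ℝ ℝ

/-- the centre of the copy `r` -/
def D4.ce (r : Fin 4 → ℕ) : R4 := WithLp.toLp 2 fun l => 2 * (r l : ℝ) + 1

/-- the test function of the copy `r` -/
def D4.cp (t : ℝ) (r : Fin 4 → ℕ) (f : R4 → ℝ) (y : R4) : ℝ := f (D4.rl r (y - t • D4.ce r))

open D4

theorem D4.rl_apply (r : Fin 4 → ℕ) (v : R4) (l : Fin 4) :
    rl r v l = (if Even (r l) then -1 else 1) * v l := by
  by_cases h : Even (r l) <;> simp [rl, h]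

theorem D4.ce_inj : Injective ce := fun r r' e => funext fun l => by
  have := congrArg (fun v : R4 => v l) e
  simpa [ce] using this

theorem D4.gv_rl {κ : Type} [Fintype κ] [DecidableEq κ] (r : Fin 4 → ℕ) (f : κ → R4 → ℝ) :
    (Fr.gv fun i y => f i (rl r y)) = Fr.gv f :=
  Fr.gv_iso (rl r) (s := fun l => if Even (r l) then -1 else 1)
    (fun l => by split_ifs <;> norm_num) (rl_apply r) f

theorem D4.adL_cp {k : ℕ} {f : Fin k → R4 → ℝ} (hf : YM7.Adm f) {D t : ℝ}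
    (hD : ∀ i, ∀ y ∈ tsupport (f i), ‖y‖ ≤ D) (ht : D < t) (A : Finset (Fin 4 → ℕ)) :
    AdL {0} fun q : A × Fin k => cp t q.1 (f q.2) := by
  have c : ∀ r, Continuous fun y : R4 => rl r (y - t • ce r) := fun r => by fun_prop
  refine ⟨fun q => ⟨(hf.1 q.2).1.comp_homeomorph ((Homeomorph.subRight (t • ce q.1)).trans
    (rl q.1).toHomeomorph), (hf.1 q.2).2.comp ((rl q.1).contDiff.comp
      (contDiff_id.sub contDiff_const))⟩, ?_⟩
  rintro ⟨r, i⟩ ⟨r', j⟩ hne x hx y hy _ rfl e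
  rw [add_zero] at e
  subst e
  have h1 := YM7.tsupport_comp (c _) hx
  have h2 := YM7.tsupport_comp (c _) hy
  by_cases hr : r = r'
  · subst hr
    exact Set.disjoint_left.1 (hf.2 fun e => hne (congrArg _ e)) h1 h2
  obtain ⟨l, hl⟩ := ne_iff.1 (Subtype.val_injective.ne hr)
  have h3 := hD _ _ h1
  have h4 := hD _ _ h2
  rw [LinearIsometryEquiv.norm_map] at h3 h4
  have h5 := abs_le.1 ((PiLp.norm_apply_le _ l).trans h3)
  have h6 := abs_le.1 ((PiLp.norm_apply_le _ l).trans h4)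
  simp only [PiLp.sub_apply, PiLp.smul_apply, ce, smul_eq_mul] at h5 h6
  have D0 : 0 ≤ D := (norm_nonneg _).trans h3
  rcases lt_or_gt_of_ne hl with h | h
  · have : (r.1 l : ℝ) + 1 ≤ r'.1 l := by exact_mod_cast h
    nlinarith [h5.1, h6.2]
  · have : (r'.1 l : ℝ) + 1 ≤ r.1 l := by exact_mod_cast h
    nlinarith [h5.2, h6.1]

theorem D4.adL_sc {κ : Type} [Finite κ] {g : κ → R4 → ℝ} (hg : AdL {0} g) {m : ℝ} (hm : 0 < m) :
    ∀ᶠ d in 𝓝[>] (0 : ℝ), AdL (Lt m) fun i y => g i (d⁻¹ • y) := by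
  obtain ⟨D, hD⟩ := (isCompact_iUnion fun i => (hg.1 i).1).isBounded.exists_norm_le
  filter_upwards [small (2 * D) hm] with d ⟨hd, hm'⟩
  have H := hg.comp (Homeomorph.smulOfNeZero d⁻¹ (inv_ne_zero hd.ne'))
    (show ContDiff ℝ 1 fun y : R4 => d⁻¹ • y from contDiff_const_smul d⁻¹)
    fun y w hw => ⟨0, rfl, by rw [hw, add_zero, add_zero]⟩
  refine ⟨H.1, fun i j hij x hx y hy w ⟨z, hz⟩ e => ?_⟩
  have hz0 : z = 0 := funext fun l => by_contra fun hl => by
    have h1 := coord_le hd (hD _ (Set.mem_iUnion.2 ⟨i, YM7.tsupport_comp (θ := fun y => d⁻¹ • y)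
      (by fun_prop) hx⟩)) l
    have h2 := coord_le hd (hD _ (Set.mem_iUnion.2 ⟨j, YM7.tsupport_comp (θ := fun y => d⁻¹ • y)
      (by fun_prop) hy⟩)) l
    have h3 : (1 : ℝ) ≤ |(z l : ℝ)| := by exact_mod_cast Int.one_le_abs hl
    have h4 : x l - y l = m * z l := by simp [e, ← hz, pt]
    have h5 := abs_sub (x l) (y l)
    rw [h4, abs_mul, abs_of_pos hm] at h5
    nlinarith
  have : w = 0 := by
    ext l
    simp [← hz, hz0, pt]
  exact H.2 i j hij x hx y hy 0 rfl (this ▸ e)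

theorem D4.nq_act {a d t M : ℝ} (ha : 0 < a) (hd : 0 < d) {u : ℕ} (h1 : a * u ≤ t * d)
    (h2 : t * d ≤ a * u + a) {r : Fin 4 → ℕ} (hr : ∀ l, (r l : ℝ) ≤ M) (f : R4 → ℝ) :
    Nq (4 * M + 4) a (act (fun _ => 2 * u) r (tF (fun _ => u) (sc a d f)))
      fun y => cp t r f (d⁻¹ • y) := fun x i j => by
  obtain ⟨z, hz⟩ : ∃ z : Z4, z = (fun l => if Even (r l) then (r l + 1) * (2 * u : ℕ) - x l -
    (if i = l ∨ j = l then 1 else 0) else x l - r l * (2 * u : ℕ) : Z4) - fun _ => (u : ℤ) := ⟨_, rfl⟩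
  refine ⟨rl r (pt a z) + (t * d) • ce r, (YM7.dist_le_two (w := (2 * M + 2) * a) fun l => ?_).trans_eq
    (by ring), ?_⟩
  · have h3 := hr l
    have h4 : (0 : ℝ) ≤ r l := Nat.cast_nonneg _
    have h5 := mul_nonneg h4 (sub_nonneg.2 h1)
    have h6 := mul_nonneg h4 (sub_nonneg.2 h2)
    have h7 := mul_nonneg ha.le (sub_nonneg.2 h3)
    have h8 := mul_nonneg ha.le h4
    simp only [hz, PiLp.add_apply, rl_apply, PiLp.smul_apply, ce, pt, smul_eq_mul, Pi.sub_apply,
      abs_le]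
    split_ifs <;> push_cast <;> constructor <;> linarith
  · change f (d⁻¹ • pt a _) = f _
    refine congrArg f (PiLp.ext fun l => ?_)
    simp only [← hz, rl_apply, PiLp.add_apply, PiLp.sub_apply, PiLp.smul_apply, smul_eq_mul]
    split_ifs <;> field_simp <;> ring

variable [MeasurableSpace SU2] [BorelSpace SU2] (h : Measure SU2) [h.IsHaarMeasure]
  [IsProbabilityMeasure h]

theorem D4.gc_tF {n : ℕ} {μ ν : Measure Fd} {r : ℝ} (hμ : Stp n μ r) {κ : Type} [Fintype κ]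
    {F : κ → Sr} (hF : ∀ i, (support (F i)).Finite) {v : Z4} (hν : MeasurePreserving (shf v) ν ν) :
    gc μ ν (fun i => tF v (F i)) = gc μ ν F := by
  obtain ⟨Θ, h1, h2⟩ := hμ.shf v
  have c := fun i => cont_gf (hF i)
  simp only [gc, gf_tF, int_mp hν (c _)]
  simp only [← fun U => gf_pe (h2 U)]
  exact int_mp h1 (φ := fun U => ∏ i, (gf (F i) U - ∫ V, gf (F i) V ∂ν)) (by fun_prop)

theorem sho_dom {ι : Type} {Φ : Filter ι} {m Δ : ℝ} {n l : ι → ℕ} {a b τ : ι → ℝ} {μ : ι → Measure Fd}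
    (hP : Pln Φ m Δ n a τ μ) (hl : ∀ᶠ p in Φ, a p * l p = 1) (hD : DomF h Φ m l a b μ)
    (hB : ∀ s : ℕ, Odd s → Bd (Lt s) Φ (fun p => cube h (b p) (s * l p))
      (fun p => cube h (b p) (s * l p)) a τ)
    (hS : ∀ s : ℕ, Odd s → ∀ K, Sho Φ (fun p => cube h (b p) (s * l p))
      (fun p => cube h (b p) (s * l p)) a K) (K : ℕ) : Sho Φ μ μ a K := by
  obtain ⟨s, I, C, so, -, -, hC⟩ := hD (m / 2) (half_pos hP.pos) 0
  have s0 : (0 : ℝ) < s := Nat.cast_pos.2 so.pos
  refine sho_recentre (ν := fun p => cube h (b p) (s * l p))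
    ((hP.fm.ap.and hP.st).mono fun p e => ⟨e.1, e.2.2.prob⟩) (sho_iff.2 fun k hk f hf => ?_)
  obtain ⟨D, -, hD, -⟩ := hf.data
  refine Metric.tendsto_nhds.2 fun ε hε => ?_
  set c := (48 / (11 * GD.b0) : ℝ) ^ k * fv f with hc
  set N : Fin 4 → ℕ := ![2, 2, 2 ^ (I + 1), 2 ^ (I + 1)] with hN
  have N0 : ∀ l, 0 < N l := fun l => by fin_cases l <;> simp [hN]
  have h1 : ∀ A : Finset (Fin 4 → ℕ), Tendsto (fun t => (48 / (11 * GD.b0)) ^
      Fintype.card (A × Fin k) * Fr.gv fun q : A × Fin k => cp t q.1 (f q.2)) atTop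
      (𝓝 (c ^ A.card)) := fun A => by
    have g := fun r => hf.comp (rl r).toHomeomorph (rl r).contDiff
    have := (Fr.gv_multi (ρ := A) (f := fun r i y => f i (rl r y)) (fun r i => ((g r).1 i).1)
      (fun r i => ((g r).1 i).2.continuous) (fun r => (g r).2)
      (ce_inj.comp Subtype.val_injective)).const_mul ((48 / (11 * GD.b0)) ^ Fintype.card (A × Fin k))
    simp only [gv_rl, Finset.prod_const, Finset.card_univ, Fintype.card_coe, ← fv_eq] at this
    rw [hc, mul_pow, ← pow_mul', ← show Fintype.card (A × Fin k) = A.card * k by simp]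
    exact this
  have h2 := (tendsto_finsetSum (Cp N).powerset fun A _ =>
    (h1 A).mul_const ((-c) ^ ((Cp N).card - A.card))).const_mul C
  have cN : (Cp N).card = ∏ l, N l := by simp [Fintype.card_piFinset]
  have P0 : ∏ l, N l ≠ 0 := Finset.prod_ne_zero_iff.2 fun l _ => (N0 l).ne'
  rw [Finset.sum_pow_mul_eq_add_pow, add_neg_cancel, zero_pow (cN ▸ P0), mul_zero] at h2
  obtain ⟨t, ht, h3⟩ := ((eventually_ge_atTop (D + 1 : ℝ)).and (h2.eventually_lt_const
    (pow_pos hε (∏ l, N l)))).exists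
  have D0 : (0 : ℝ) ≤ D := Nat.cast_nonneg _
  let G : ℝ → ι → Fin k → Sr := fun d p i =>
    tF (fun _ => (⌊t * d / a p⌋₊ : ℕ)) (sc (a p) d (f i))
  have fl : ∀ {d p}, 0 < d → 0 < a p →
      a p * ⌊t * d / a p⌋₊ ≤ t * d ∧ t * d < a p * ⌊t * d / a p⌋₊ + a p := fun {d p} hd ha =>
    ⟨(le_div_iff₀' ha).1 (Nat.floor_le (div_nonneg (mul_nonneg (by linarith) hd.le) ha.le)), by
      have := (div_lt_iff₀' ha).1 (Nat.lt_floor_add_one (t * d / a p))
      linarith⟩
  have h4 : ∀ A ∈ (Cp N).powerset, Tendsto (fun q : ℝ × ι => (log q.1⁻¹ ^ k) ^ A.card *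
      gc (cube h (b q.2) (s * l q.2)) (cube h (b q.2) (s * l q.2))
        fun x : A × Fin k => act (fun _ => 2 * ⌊t * q.1 / a q.2⌋₊) x.1 (G q.1 q.2 x.2))
      ((𝓝[>] 0).curry Φ) (𝓝 ((48 / (11 * GD.b0)) ^ Fintype.card (A × Fin k) *
        Fr.gv fun q : A × Fin k => cp t q.1 (f q.2))) := fun A hA => by
    have g := adL_cp hf hD (by linarith : (D : ℝ) < t) A
    have hp : ∀ p, IsFiniteMeasure (cube h (b p) (s * l p)) := fun p => by
      unfold cube; infer_instance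
    have e : Tendsto (fun q : ℝ × ι => log q.1⁻¹ ^ Fintype.card (A × Fin k) *
        ((gc (cube h (b q.2) (s * l q.2)) (cube h (b q.2) (s * l q.2))
          fun x : A × Fin k => act (fun _ => 2 * ⌊t * q.1 / a q.2⌋₊) x.1 (G q.1 q.2 x.2)) -
        gc (cube h (b q.2) (s * l q.2)) (cube h (b q.2) (s * l q.2))
          fun x : A × Fin k => sc (a q.2) q.1 (cp t x.1 (f x.2)))) ((𝓝[>] 0).curry Φ) (𝓝 0) := by
      refine Tendsto.curry (f := fun d p => log d⁻¹ ^ Fintype.card (A × Fin k) *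
        ((gc (cube h (b p) (s * l p)) (cube h (b p) (s * l p))
          fun x : A × Fin k => act (fun _ => 2 * ⌊t * d / a p⌋₊) x.1 (G d p x.2)) -
        gc (cube h (b p) (s * l p)) (cube h (b p) (s * l p))
          fun x : A × Fin k => sc (a p) d (cp t x.1 (f x.2))))
        (((D4.adL_sc g s0).and eventually_mem_nhdsWithin).mono fun d hd => ?_)
      have := ((hB s so).nq hP.fm (.of_forall fun p => ⟨hp p, hp p⟩) (closed_Lt s) hd.1
        (F := fun p x => act (fun _ => 2 * ⌊t * d / a p⌋₊) x.1 (G d p x.2))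
        (N := 4 * (∑ l, N l : ℕ) + 4) (hP.fm.ap.mono fun p ha x =>
          nq_act ha hd.2 (fl hd.2 ha).1 (fl hd.2 ha).2.le (fun l => Nat.cast_le.2 ?_) _)).const_mul
        (log d⁻¹ ^ Fintype.card (A × Fin k))
      · rwa [mul_zero] at this
      · exact (Finset.mem_range.1 (Fintype.mem_piFinset.1 (Finset.mem_powerset.1 hA x.1.2) l)).le.trans
          (Finset.single_le_sum (fun l _ => (N l).zero_le) (Finset.mem_univ l))
    have := e.add (Sho.fin (hS s so) g)
    rw [zero_add] at this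
    refine this.congr fun q => ?_
    rw [← pow_mul', ← show Fintype.card (A × Fin k) = A.card * k by simp]
    ring
  have h5 := ((tendsto_finsetSum (Cp N).powerset fun A hA =>
    (h4 A hA).mul_const ((-c) ^ ((Cp N).card - A.card))).const_mul C).eventually_lt_const h3
  refine eventually_curry_iff.2 ?_
  filter_upwards [eventually_curry_iff.1 h5, small (4 * t) s0, small (4 * t) hP.pos] with d h6 d1 d2
  filter_upwards [h6, hP.fm.ap, hP.fm.small (half_pos d1.1), hP.st, hl, hC] with p h7 ha a1 S e1 h8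
  obtain ⟨f1, f2⟩ := fl (p := p) d1.1 ha
  have td := mul_le_mul_of_nonneg_right ht d1.1.le
  have Dd := mul_nonneg D0 d1.1.le
  have u0 : (0 : ℝ) < ⌊t * d / a p⌋₊ := pos_of_mul_pos_left (b := a p) (by nlinarith) ha.le
  have n0 : 0 < s * l p := Nat.mul_pos so.pos (Nat.pos_of_ne_zero fun e => by simp [e] at e1)
  have hI := fun i => in_sc (a := a p) d1.1 (hD i)
  have := S.2.prob
  have h9 := (h8 (fun _ => 2 * ⌊t * d / a p⌋₊) (fun _ => by have := Nat.cast_pos.1 u0; omega)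
    (by push_cast; linarith [d1.2]) (by push_cast; linarith [d1.2]) (by push_cast; linarith [d2.2])
    (by push_cast; linarith [d2.2])).gc' h n0 (G := G d p) (fun i x hx j => ?_) (log d⁻¹ ^ k) c
  · rw [D4.gc_tF (ν := cube h (b p) (s * l p)) S.2 (fun i => (hI i).fin ha)
      (mp_shf h _ (fun _ => n0) _)] at h9
    exact lt_of_pow_lt_pow_left₀ _ hε.le (h9.trans_lt h7)
  have e3 := abs_le.1 (hI i _ hx j)
  simp only [Pi.sub_apply, Int.cast_sub, Int.cast_natCast] at e3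
  have e6 : (-1 : ℝ) < x j := lt_of_mul_lt_mul_left (by nlinarith [e3.1]) ha.le
  have e7 : (x j : ℝ) + 1 < (2 * ⌊t * d / a p⌋₊ : ℕ) :=
    lt_of_mul_lt_mul_left (by push_cast; nlinarith [e3.2]) ha.le
  exact ⟨by exact_mod_cast Int.add_one_le_iff.2 (show -1 < x j by exact_mod_cast e6),
    by exact_mod_cast e7⟩

end Pool.Agent.Lib.MP_7f377f_mp.YM9
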