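import Pool.Agent.Lib.MP_7f377f_mp.G.TwD5a

/-! Domination of the state of the plane by a cube. -/

noncomputable section

set_option linter.unusedSectionVars false
variable [Pool.Agent.Lib.MP_7f377f_mp.GD]

namespace Pool.Agent.Lib.MP_7f377f_mp.YM9

open MeasureTheory Filter Topology Function Real D2
open RG.Q4 (Zc)

/-- the array in the direction `l` -/
def arl (l : Fin 4) (N w : ℕ) (H : Fd → ℝ) (U : Fd) : ℝ := ∏ r ∈ Finset.range N, H (ml l w r U)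

variable {H : Fd → ℝ}

theorem arr_xc (l : Fin 4) (N w : ℕ) (H : Fd → ℝ) (U : Fd) :
    arr N w (fun V => H (xc l V)) (xc l U) = arl l N w H U := by
  simp only [arr, arl, xc_ml]

theorem arr_eq (N w : ℕ) (H : Fd → ℝ) : arr N w H = arl 0 N w H := by
  funext U
  simp only [arr, arl, mot_eq]

@[fun_prop] theorem cont_arl (cH : Continuous H) (l : Fin 4) (N w : ℕ) :
    Continuous (arl l N w H) := by
  rw [← funext (arr_xc l N w H)]
  exact (cont_arr (cH.comp (cont_prm _)) N w).comp (cont_prm _)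

theorem dep_arl {l l' : Fin 4} (h : l ≠ l') {w : ℕ} (dH : DependsOn H (Sl l w)) (N w' : ℕ) :
    DependsOn (arl l' N w' H) (Sl l w) := dep_prod fun r => dep_ml h dH w' r

theorem prod_cp (N : Fin 4 → ℕ) (f : (Fin 4 → ℕ) → ℝ) : ∏ r ∈ Cp N, f r =
    ∏ r3 ∈ Finset.range (N 3), ∏ r2 ∈ Finset.range (N 2), ∏ r0 ∈ Finset.range (N 0),
      ∏ r1 ∈ Finset.range (N 1), f ![r0, r1, r2, r3] := by
  simp only [← Finset.prod_product']
  refine Finset.prod_nbij' (fun r => (r 3, r 2, r 0, r 1)) (fun q => ![q.2.2.1, q.2.2.2, q.2.1, q.1])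
    (fun r hr => ?_) (fun q hq => ?_) (fun r _ => ?_) (fun q _ => rfl) fun r _ => ?_
  · simp only [Finset.mem_product, Fintype.mem_piFinset.1 hr _, and_self]
  · simp only [Finset.mem_product] at hq
    refine Fintype.mem_piFinset.2 fun i => ?_
    fin_cases i
    exacts [hq.2.2.1, hq.2.2.2, hq.2.1, hq.1]
  · funext i
    fin_cases i <;> rfl
  · congr 1
    funext i
    fin_cases i <;> rfl

theorem arl_all (N w : Fin 4 → ℕ) (H : Fd → ℝ) (U : Fd) :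
    arl 3 (N 3) (w 3) (arl 2 (N 2) (w 2) (arl 0 (N 0) (w 0) (arl 1 (N 1) (w 1) H))) U =
      ∏ r ∈ Cp N, H (Mot w r U) := by
  simp only [prod_cp, arl, Mot_eq, xc_ml, mot_eq (w 0), ml_comm (show (0 : Fin 4) ≠ 1 by decide)]
  rfl

theorem tz_one : tz 1 1 = 1 := by
  funext μ ν
  simp [tz]

theorem sw1 (a b c d : ℕ) : ![a, b, c, d] ∘ Equiv.swap 0 1 = ![b, a, c, d] := by
  funext i
  fin_cases i <;> rfl

theorem sw2 (a b c d : ℕ) : ![a, b, c, d] ∘ Equiv.swap 0 2 = ![c, b, a, d] := by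
  funext i
  fin_cases i <;> rfl

theorem sw3 (a b c d : ℕ) : ![a, b, c, d] ∘ Equiv.swap 0 3 = ![d, b, c, a] := by
  funext i
  fin_cases i <;> rfl

theorem pos4 {a b c d : ℕ} (ha : 0 < a) (hb : 0 < b) (hc : 0 < c) (hd : 0 < d) (i : Fin 4) :
    0 < ![a, b, c, d] i := by
  fin_cases i <;> assumption

theorem pos3 {a b c : ℕ} (ha : 0 < a) (hb : 0 < b) (hc : 0 < c) (i : Fin 3) : 0 < ![a, b, c] i := by
  fin_cases i <;> assumption

variable [MeasurableSpace SU2] [BorelSpace SU2] (h : Measure SU2) [h.IsHaarMeasure]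
  [IsProbabilityMeasure h] {b : ℝ} {n : ℕ} {z : Zc}

theorem zt_xc1 {T R : ℕ} (hT : 0 < T) (hR : 0 < R) (hn : 0 < n) (cH : Continuous H) :
    zt h b ![T, R, n, n] (tz 1 z) H = zt h b ![R, T, n, n] (tz 1 z) fun U => H (xc 1 U) := by
  rw [← sw1 T R, ← zt_swap1 h b (pos4 hT hR hn hn) z (by fun_prop : Continuous _).measurable]
  simp only [xc_xc]

theorem le_Z0 [Fintype Zc] (T R : ℕ) :
    (zt h b ![T, R, n, n] (tz 1 z) fun _ => 1) ≤ Fintype.card Zc * Z0 h b n z T R := by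
  rw [Z0, mul_inv_cancel_left₀ (Nat.cast_pos.2 Fintype.card_pos).ne']
  exact Finset.single_le_sum (f := fun ζ => zt h b ![T, R, n, n] (tz ζ z) fun _ => 1)
    (fun ζ _ => (zt_pos h b _ _).le) (Finset.mem_univ 1)

/-- domination in the two long directions -/
theorem dom01 [Fintype Zc] (hb : 0 ≤ b) (hn : 0 < n) {t : ℕ} {μ : Measure Fd} (hP : Pg h b n z t μ)
    (cH : Continuous H) {w0 w1 M : ℕ} (d0 : DependsOn H (Sl 0 w0)) (d1 : DependsOn H (Sl 1 w1))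
    (p0 : 0 < w0) (p1 : 0 < w1) (hM : Odd M) (h0 : 2 * w0 < M) (h1 : 2 * w1 < M) (ht : 100 * t ≤ M) :
    (∫ U, H U ∂μ) ^ 4 ≤ 100 * (Fintype.card Zc : ℝ) ^ 3 *
      ∫ U, arl 0 2 w0 (arl 1 2 w1 H) U ∂wilz h b ![M, M, n, n] (tz 1 z) := by
  obtain ⟨ν, l, V, lim, cmp⟩ := hP
  obtain ⟨k, rfl⟩ : ∃ k, M = 2 * k + 3 := by
    obtain ⟨k, rfl⟩ := hM
    exact ⟨k - 1, by omega⟩
  refine le_of_tendsto ((lim H cH).pow 4) ((eventually_ge_atTop (2 * k + 3)).mono fun R hR => ?_)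
  replace V := V R (by omega)
  have l0 := V.pos
  obtain ⟨j, hj⟩ : ∃ j, 2 ^ (R + 1) = j + 1 := Nat.exists_eq_succ_of_ne_zero (by positivity)
  have j1 : R ≤ (j + 1) * (2 * k + 3) := by
    have := Nat.lt_two_pow_self (n := R + 1)
    nlinarith
  have c1 := cont_arl cH 1 2 w1
  have e0 : ∀ {K : Fd → ℝ}, DependsOn K (Sl 0 w0) → DependsOn K (Tm 0 (k + 1 : ℕ)) := fun dK =>
    DependsOn.mono (tm_mono (a := 0) (b := w0) le_rfl (by omega)) dK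
  have a1 := V.vac H k R cH (e0 d0)
  rw [hj, zs_tz] at a1
  set G : Fd → ℝ := fun U => ∏ c ∈ Finset.range (j + 1), arr 2 (k + 1) H (sht (c * (2 * k + 3)) U)
    with hG
  have cG : Continuous G := by fun_prop
  have eS : ∀ c : ℕ, sht (c * (2 * k + 3)) = ml 0 (c * (2 * k + 3)) 1 := fun c => by
    rw [← sht_eq]
    norm_cast
  have dG : DependsOn G (Sl 1 w1) := by
    simp only [hG, arr_eq, eS]
    exact dep_prod fun c => dep_ml (by decide) (dep_arl (by decide) d1 _ _) _ _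
  have q0 : 0 < (j + 1) * (2 * k + 3) := by positivity
  have a2 := zt_cs' h (pos3 q0 hn hn) hb (z := tz 1 z) (cG.comp (cont_prm _)) (dep_xc dG) p1
    hM h1 (T := R) (by omega)
  have a3 := zt_pow h (pos3 (show 0 < 2 * k + 3 by omega) hn hn) hb (tz 1 z) (Y6.bm_of_cont c1)
    (e0 (dep_arl (by decide) d0 2 w1)) j
  rw [zt_arr h (pos3 (by omega) hn hn) hb c1 (w := w0) (by omega) (by omega), arr_eq 2 w0] at a3
  have e1 : (fun U => arr 2 w1 (G ∘ xc 1) (xc 1 U)) = fun U => ∏ c ∈ Finset.range (j + 1),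
      arr 2 (k + 1) (arl 1 2 w1 H) (sht (c * (2 * k + 3)) U) := by
    funext U
    refine (arr_xc 1 2 w1 G U).trans ?_
    simp only [hG, arr_eq, arl, eS, ml_comm (show (0 : Fin 4) ≠ 1 by decide)]
    rw [Finset.prod_comm]
    exact Finset.prod_congr rfl fun c _ => Finset.prod_comm
  rw [zs_tz] at a2 a3
  have a4 : zt h b ![R, (j + 1) * (2 * k + 3), n, n] (tz 1 z) (G ∘ xc 1) =
      zt h b ![(j + 1) * (2 * k + 3), R, n, n] (tz 1 z) G := (zt_xc1 h q0 (by omega) hn cG).symm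
  have a5 := zt_xc1 h (b := b) (z := z) (show 0 < 2 * k + 3 by omega) q0 hn
    (cont_arr (cG.comp (cont_prm (Equiv.swap 0 1))) 2 w1)
  have a6 := zt_xc1 h (b := b) (z := z) (show 0 < 2 * R - (2 * k + 3) by omega) q0 hn
    (continuous_const (y := (1 : ℝ)))
  rw [e1] at a5
  rw [a4, a5, a6] at a2
  have a7 := cmp _ R (j + 1) ht hR j1
  have a8 := le_Z0 h (b := b) (n := n) (z := z) ((j + 1) * (2 * k + 3)) (2 * R - (2 * k + 3))
  have a9 := le_Z0 h (b := b) (n := n) (z := z) (2 * k + 3) (2 * k + 3)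
  have z1 := zt_pos h b ![2 * k + 3, 2 * k + 3, n, n] (tz 1 z)
  have z2 := zt_pos h b ![(j + 1) * (2 * k + 3), 2 * R - (2 * k + 3), n, n] (tz 1 z)
  have y0 := zt_cs' h (pos3 (show 0 < 2 * k + 3 by omega) hn hn) hb (z := tz 1 z) c1
    (dep_arl (by decide) d0 2 w1) p0 hM h0 (T := 2 * k + 3) (by omega)
  replace y0 := nonneg_of_mul_nonneg_left ((sq_nonneg _).trans y0) (zt_pos h b _ _)
  rw [zs_tz, arr_eq] at y0
  have c0 : (1 : ℝ) ≤ Fintype.card Zc := Nat.one_le_cast.2 Fintype.card_pos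
  rw [int_wilz h b _ _ (cont_arl c1 0 2 w0).measurable]
  generalize (Fintype.card Zc : ℝ) = c at *
  generalize zt h b ![2 * k + 3, 2 * k + 3, n, n] (tz 1 z) (arl 0 2 w0 (arl 1 2 w1 H)) = Y at *
  generalize (zt h b ![2 * k + 3, 2 * k + 3, n, n] (tz 1 z) fun _ => 1) = Z at *
  generalize Z0 h b n z (2 * k + 3) (2 * k + 3) = Z1 at *
  generalize Z0 h b n z ((j + 1) * (2 * k + 3)) (2 * R - (2 * k + 3)) = Z2 at *
  generalize ∫ U, H U ∂ν R = x at *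
  have z3 : 0 < Z2 := (mul_pos_iff_of_pos_left (by positivity)).1 (z2.trans_le a8)
  have b1 : Y ≤ Y / Z * (c * Z1) := by
    calc Y = Y / Z * Z := (div_mul_cancel₀ _ z1.ne').symm
      _ ≤ _ := by gcongr
  refine le_of_pow_le_pow_left₀ (n := j + 1) j.succ_ne_zero (by positivity) (le_of_mul_le_mul_right ?_
    (pow_pos l0 (2 * ((j + 1) * (2 * k + 3)))))
  calc _ = (x ^ (2 * (j + 1)) * l R ^ ((j + 1) * (2 * k + 3))) ^ 2 := by ring
    _ ≤ _ := pow_le_pow_left₀ (mul_nonneg ((even_two_mul _).pow_nonneg _) (by positivity)) a1 2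
    _ ≤ _ := a2
    _ ≤ (Y / Z * (c * Z1)) ^ (j + 1) * (c * Z2) := mul_le_mul (a3.trans (pow_le_pow_left₀ y0 b1 _))
        a8 z2.le (pow_nonneg (y0.trans b1) _)
    _ = (Y / Z * c) ^ (j + 1) * c * (Z2 * Z1 ^ (j + 1)) := by ring
    _ ≤ (Y / Z * c) ^ (j + 1) * (c ^ 2) ^ (j + 1) *
        (100 ^ (j + 1) * l R ^ (2 * ((j + 1) * (2 * k + 3)))) := by
      have : 0 < Z1 := (mul_pos_iff_of_pos_left (by positivity)).1 (z1.trans_le a9)
      gcongr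
      rw [← pow_mul]
      exact le_self_pow₀ c0 (by omega)
    _ = _ := by ring

theorem Zbd.le {η : ℕ} {C : ℝ} (hZ : Zbd h b η z C) : ∃ κ > (0 : ℝ), ∀ (s : Fin 4 → ℕ) (ζ : Zc) (V : ℕ),
    (∀ i, Odd (s i)) → ζ = 1 ∨ ζ = z → ∏ i, s i ≤ V →
    (zt h b (fun i => η * s i) (tz 1 ζ) fun _ => 1) ≤ exp (|C| * V) * κ ^ ∏ i, s i ∧
      κ ^ ∏ i, s i ≤ exp (|C| * V) * zt h b (fun i => η * s i) (tz 1 ζ) fun _ => 1 := by
  obtain ⟨κ, H⟩ := hZ
  refine ⟨exp κ, exp_pos κ, fun s ζ V h1 h2 h3 => ?_⟩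
  have := abs_le.1 ((H s ζ h1 h2).trans (mul_le_mul (le_abs_self C) (Nat.cast_le.2 h3)
    (Nat.cast_nonneg _) (abs_nonneg C)))
  rw [← exp_log (zt_pos h b (fun i => η * s i) (tz 1 ζ)), ← exp_nat_mul, ← exp_add, ← exp_add]
  exact ⟨exp_le_exp.2 (by linarith [this.2]), exp_le_exp.2 (by linarith [this.1])⟩

theorem v4 (η a b c d : ℕ) : (fun i => η * ![a, b, c, d] i) = ![η * a, η * b, η * c, η * d] := by
  funext i
  fin_cases i <;> rfl

theorem odd4 {a b c d : ℕ} (ha : Odd a) (hb : Odd b) (hc : Odd c) (hd : Odd d) (i : Fin 4) :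
    Odd (![a, b, c, d] i) := by
  fin_cases i <;> assumption

theorem Zbd.cmp {η : ℕ} {C : ℝ} (hZ : Zbd h b η z C) {m m' : ℕ} (hm : Odd m) (hm' : Odd m') :
    (∀ u, u = m ∨ u = m' → (zt h b ![η, η * m, η * m, η * u] 1 fun _ => 1) ^ 3 ≤
      exp (|C| * (3 * (m * m') ^ 3 : ℕ)) ^ 6 *
        zt h b ![η + 2 * η, η * m, η * m, η * u] 1 fun _ => 1) ∧
    (zt h b ![η * m', η * m, η * m, η * m'] 1 fun _ => 1) ≤ exp (|C| * (3 * (m * m') ^ 3 : ℕ)) ^ 6 *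
      zt h b ![η * m, η * m, η * m', η * m'] (tz 1 z) fun _ => 1 := by
  obtain ⟨κ, κ0, H⟩ := hZ.le h
  have m1 : 1 ≤ m := hm.pos
  have m2 : 1 ≤ m' := hm'.pos
  have p1 : m ^ 3 * 1 ≤ m ^ 3 * m' ^ 3 := by gcongr; exact Nat.one_le_pow _ _ m2
  have p2 : m ^ 2 * m' ^ 1 ≤ m ^ 3 * m' ^ 3 := by gcongr <;> omega
  have p3 : m ^ 2 * m' ^ 2 ≤ m ^ 3 * m' ^ 3 := by gcongr <;> omega
  have E1 : 1 ≤ exp (|C| * (3 * (m * m') ^ 3 : ℕ)) := one_le_exp (by positivity)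
  replace H := fun s ζ => H s ζ (3 * (m * m') ^ 3)
  generalize exp (|C| * (3 * (m * m') ^ 3 : ℕ)) = E at *
  refine ⟨fun u hu => ?_, ?_⟩
  · have ou : Odd u := by rcases hu with rfl | rfl <;> assumption
    have a1 := (H ![1, m, m, u] 1 (odd4 odd_one hm hm ou) (.inl rfl) (by
      rcases hu with rfl | rfl <;> simp only [Fin.prod_univ_four, Matrix.cons_val] <;> nlinarith)).1
    have a2 := (H ![3, m, m, u] 1 (odd4 (by decide) hm hm ou) (.inl rfl) (by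
      rcases hu with rfl | rfl <;> simp only [Fin.prod_univ_four, Matrix.cons_val] <;> nlinarith)).2
    simp only [v4, tz_one, Fin.prod_univ_four, Matrix.cons_val, mul_one, one_mul] at a1 a2
    rw [show η + 2 * η = η * 3 by ring]
    calc _ ≤ _ := pow_le_pow_left₀ (zt_pos h b _ _).le a1 3
      _ = E ^ 3 * κ ^ (3 * m * m * u) := by ring
      _ ≤ E ^ 5 * _ := mul_le_mul (pow_le_pow_right₀ E1 (by omega)) a2 (by positivity) (by positivity)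
      _ = _ := by ring
  · have a1 := (H ![m', m, m, m'] 1 (odd4 hm' hm hm hm') (.inl rfl) (by
      simp only [Fin.prod_univ_four, Matrix.cons_val]; nlinarith)).1
    have a2 := (H ![m, m, m', m'] z (odd4 hm hm hm' hm') (.inr rfl) (by
      simp only [Fin.prod_univ_four, Matrix.cons_val]; nlinarith)).2
    simp only [v4, tz_one, Fin.prod_univ_four, Matrix.cons_val] at a1 a2
    calc _ ≤ _ := a1
      _ = E ^ 1 * κ ^ (m * m * m' * m') := by ring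
      _ ≤ E ^ 5 * _ := mul_le_mul (pow_le_pow_right₀ E1 (by omega)) a2 (by positivity) (by positivity)
      _ = _ := by ring

theorem wilz_one (M : Fin 4 → ℕ) : wilz h b M 1 = wilson h b M := by
  rw [wilz, pert_one]
  rfl

theorem dom_plane [Fintype Zc] (C : ℝ) {m m' : ℕ} (hm : Odd m) (hm' : Odd m') (i : ℕ) :
    ∃ D : ℝ, ∀ {b : ℝ} {η t : ℕ} {μ : Measure Fd} {w : Fin 4 → ℕ}, 0 ≤ b →
      Pg h b (η * m') z t μ → Zbd h b η z C → Odd η → 3 ≤ η → (∀ i, 0 < w i) → 2 * w 0 < η * m →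
      2 * w 1 < η * m → 2 ^ (i + 1) * w 2 < η * m → 2 ^ (i + 1) * w 3 < η * m → w 2 + η ≤ η * m' →
      w 3 + η ≤ η * m' → η * m ≤ 2 ^ (i + 1) * (η * m' - η) + η → 100 * t ≤ η * m →
      Dom μ (cube h b (η * m)) ![2, 2, 2 ^ (i + 1), 2 ^ (i + 1)] w D := by
  refine ⟨((100 * (Fintype.card Zc : ℝ) ^ 3) ^ 2 ^ (i + 1)) ^ 2 ^ (i + 1) *
    ((exp (|C| * (3 * (m * m') ^ 3 : ℕ)) ^ 6) ^ 2) ^ (2 ^ (i + 1) * 2 ^ (i + 1) + 2 ^ (i + 1)),
    fun {b η t μ w} hb hP hZ ho hη w0 h0 h1 h2 h3 h4 h5 h6 ht H cH dH => ?_⟩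
  obtain ⟨B1, B2⟩ := hZ.cmp h hm hm'
  have E1 : 1 ≤ exp (|C| * (3 * (m * m') ^ 3 : ℕ)) ^ 6 := one_le_pow₀ (one_le_exp (by positivity))
  generalize exp (|C| * (3 * (m * m') ^ 3 : ℕ)) ^ 6 = B at *
  have oM := ho.mul hm
  have M0 := oM.pos
  have n0 := (ho.mul hm').pos
  have ηM : η ≤ η * m := Nat.le_mul_of_pos_right _ hm.pos
  have a1 := dom01 h hb n0 hP cH (dep_sl dH 0) (dep_sl dH 1) (w0 0) (w0 1) oM h0 h1 ht
  have c1 := cont_arl (cont_arl cH 1 2 (w 1)) 0 2 (w 0)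
  have d2 := fun l (l0 : l ≠ 0) (l1 : l ≠ 1) =>
    dep_arl l0 (dep_arl l1 (dep_sl dH l) 2 (w 1)) 2 (w 0)
  have e := arl_all ![2, 2, 2 ^ (i + 1), 2 ^ (i + 1)] w H
  simp only [Matrix.cons_val] at e
  generalize arl 0 2 (w 0) (arl 1 2 (w 1) H) = A at *
  have s2 : ∀ {F : Fd → ℝ}, Continuous F → zt h b ![η * m, η * m, η * m', η * m'] (tz 1 z) F =
      zt h b ![η * m', η * m, η * m, η * m'] (t3 z) fun U => F (xc 2 U) := fun cF => by
    rw [← sw2 (η * m) _ (η * m'), ← zt_swap2 h b (pos4 M0 M0 n0 n0) z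
      (by fun_prop : Continuous _).measurable]
    simp only [xc_xc]
  have sx : ∀ (l : Fin 4) {N : Fin 4 → ℕ} {F : Fd → ℝ}, (∀ i, 0 < N i) → Continuous F →
      ∫ U, F U ∂wilson h b (N ∘ Equiv.swap 0 l) = ∫ U, F (xc l U) ∂wilson h b N :=
    fun l N F hN cF => by
      rw [← (mp_prm h b hN (Equiv.swap 0 l)).map_eq,
        integral_map (cont_prm _).aemeasurable cF.aestronglyMeasurable]
  have cx : ∀ (l : Fin 4) {F : Fd → ℝ}, Continuous F → Continuous fun U => F (xc l U) :=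
    fun l F cF => cF.comp (cont_prm _)
  have a2 := dom0 h (pos3 M0 M0 n0) hb (z := t3 z) hη (cx 2 c1) (dep_xc (d2 2 (by decide) (by decide)))
    (w0 2) h4 ho (B := B) (zs_t3 z ▸ B1 _ (.inr rfl)) (by
      rw [zs_t3]; exact B2.trans_eq (congrArg _ (s2 continuous_const))) oM h2 h6 ηM
  have c2 := cont_arl c1 2 (2 ^ (i + 1)) (w 2)
  have a3 := dom0 h (pos3 M0 M0 M0) hb (z := 1) hη (cx 3 c2)
    (dep_xc (dep_arl (by decide) (d2 3 (by decide) (by decide)) _ _)) (w0 3) h5 ho (B := B)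
    (zs_one ▸ B1 _ (.inl rfl)) (by
      rw [zs_one]; exact le_mul_of_one_le_left (zt_pos h b _ _).le E1) oM h3 h6 ηM
  rw [zs_t3, wilz_one, int_wilz h b _ _ (cx 2 c1).measurable, ← s2 c1, ← s2 continuous_const,
    ← int_wilz h b _ _ c1.measurable, ← sw2 (η * m) (η * m) (η * m) (η * m'),
    sx 2 (pos4 M0 M0 M0 n0) (cont_arr (cx 2 c1) _ _)] at a2
  rw [zs_one, wilz_one, wilz_one, ← sx 3 (pos4 n0 M0 M0 M0) c2, sw3,
    ← sw3 (η * m) (η * m) (η * m) (η * m), sx 3 (pos4 M0 M0 M0 M0) (cont_arr (cx 3 c2) _ _)] at a3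
  simp only [arr_xc, e] at a2 a3
  have ev : Even (2 ^ (i + 1)) := (Nat.even_pow.2 ⟨even_two, i.succ_ne_zero⟩)
  have e4 : wilson h b ![η * m, η * m, η * m, η * m] = cube h b (η * m) := by
    congr 1
    funext l
    fin_cases l <;> rfl
  rw [e4] at a3
  simp only [Fin.prod_univ_four, Matrix.cons_val]
  generalize 2 ^ (i + 1) = N at *
  rw [((even_two.mul_right 2).mul_right N).mul_right N |>.pow_abs]
  have b1 := pow_le_pow_left₀ (ev.pow_nonneg _) (pow_le_pow_left₀ (by positivity) a1 N) N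
  have b2 := pow_le_pow_left₀ (ev.pow_nonneg _) a2 N
  rw [mul_pow _ _ N, mul_pow _ _ N] at b1
  rw [mul_pow _ _ N] at b2
  calc _ = (((∫ U, H U ∂μ) ^ 4) ^ N) ^ N := by ring
    _ ≤ _ := b1.trans (mul_le_mul_of_nonneg_left (b2.trans
        (mul_le_mul_of_nonneg_left a3 (by positivity))) (by positivity))
    _ = _ := by ring

theorem domF_of [Fintype Zc] {ι : Type} {Φ : Filter ι} {e : ι → ℕ} {s A : ℕ} {z : Zc} {b : ι → ℝ}
    {μ : ι → Measure Fd} (he : Tendsto e Φ atTop) (hb : ∀ᶠ p in Φ, 0 ≤ b p)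
    (hP : ∀ᶠ p in Φ, Pg h (b p) (3 ^ (e p - s)) z (A * 3 ^ (e p - s)) (μ p))
    (hZ : ∃ s0, ∀ s ≥ s0, ∃ C : ℝ, ∀ᶠ p in Φ, s ≤ e p ∧ Zbd h (b p) (3 ^ (e p - s)) z C) :
    DomF h Φ (3 ^ s)⁻¹ (fun p => 3 ^ e p) (fun p => (3 ^ e p)⁻¹) b μ := by
  intro γ γ0 R
  obtain ⟨s0, hZ⟩ := hZ
  have m0 : (0 : ℝ) < (3 ^ s)⁻¹ := by positivity
  obtain ⟨u, u1, u2⟩ := ((eventually_ge_atTop s0).and ((tendsto_inv_atTop_zero.comp
    (tendsto_pow_atTop_atTop_of_one_lt (show (1 : ℝ) < 3 by norm_num))).eventually_le_const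
    (lt_min m0 (half_pos γ0)))).exists
  obtain ⟨C, hC⟩ := hZ (s + u) (by omega)
  obtain ⟨Q, hQ⟩ := exists_nat_ge (max R (100 * A))
  obtain ⟨I, hI⟩ := ((tendsto_pow_atTop_atTop_of_one_lt (show (1 : ℝ) < 2 by norm_num)).atTop_mul_const
    (lt_min m0 (half_pos γ0))).eventually_ge_atTop (Q + 2) |>.exists
  set g := min (3 ^ s : ℝ)⁻¹ (γ / 2)
  have g1 : g ≤ (3 ^ s)⁻¹ := min_le_left _ _
  have g2 : g ≤ γ / 2 := min_le_right _ _
  have g0 : 0 < g := lt_min m0 (half_pos γ0)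
  obtain ⟨x, hx⟩ : ∃ x : ℝ, x = max (2 ^ (I + 1) * ((3 ^ s)⁻¹ - γ)) 0 + Q := ⟨_, rfl⟩
  have x0 : 0 ≤ x := by rw [hx]; positivity
  have x1 := Nat.floor_le (show 0 ≤ (x + 1) / 2 by positivity)
  have x2 := Nat.lt_floor_add_one ((x + 1) / 2)
  have x3 := le_max_left (2 ^ (I + 1) * ((3 ^ s : ℝ)⁻¹ - γ)) 0
  have x4 := le_max_right (2 ^ (I + 1) * ((3 ^ s : ℝ)⁻¹ - γ)) 0
  obtain ⟨m, hm, m1, m2⟩ : ∃ m : ℕ, Odd m ∧ x < m ∧ m ≤ x + 2 :=
    ⟨2 * ⌊(x + 1) / 2⌋₊ + 1, odd_two_mul_add_one _, by push_cast; linarith, by push_cast; linarith⟩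
  have q0 : (0 : ℝ) ≤ Q := Q.cast_nonneg
  have o3 : ∀ k, Odd (3 ^ k) := fun k => Odd.pow (by decide)
  obtain ⟨D, hD⟩ := dom_plane h (z := z) C (hm.mul (o3 (s + u))) (o3 u) I
  refine ⟨m, I, D, hm, by linarith [le_max_left R (100 * A)], by linarith, ?_⟩
  filter_upwards [hb, hP, hC, he.eventually_ge_atTop (s + u + 1)] with p b0 P ⟨_, Z⟩ e1 w w0 h0 h1 h2 h3
  obtain ⟨v, hv⟩ := Nat.exists_eq_add_of_le e1
  have e2 : e p - s = v + 1 + u := by omega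
  have e3 : e p - (s + u) = v + 1 := by omega
  have e4 : m * 3 ^ e p = 3 ^ (v + 1) * (m * 3 ^ (s + u)) := by rw [hv]; ring
  have e5 : (3 : ℝ) ^ e p = 3 ^ (v + 1) * 3 ^ u * 3 ^ s := by rw [hv]; ring
  rw [e2, pow_add] at P
  rw [e3] at Z
  have t0 : (0 : ℝ) < 3 ^ e p := by positivity
  have t1 : (1 : ℝ) ≤ 3 ^ s := one_le_pow₀ (by norm_num)
  have t2 : (3 : ℝ) ^ (v + 1) ≤ g * 3 ^ e p := by
    calc (3 : ℝ) ^ (v + 1) = (3 ^ u)⁻¹ * (3 ^ (v + 1) * 3 ^ u * 1) := by field_simp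
      _ ≤ _ := by rw [e5]; gcongr; exact u2
  have t3 : (3 ^ s : ℝ)⁻¹ * 3 ^ e p = 3 ^ (v + 1) * 3 ^ u := by rw [e5]; field_simp
  have k1 : ∀ {y : ℕ}, 2 * ((3 ^ e p : ℝ)⁻¹ * y) < m → 2 * y < m * 3 ^ e p := fun hy => by
    rw [← mul_assoc, mul_right_comm, ← div_eq_mul_inv, div_lt_iff₀ t0] at hy
    exact_mod_cast hy
  have k2 : ∀ {y : ℕ}, 0 < y → (3 ^ e p : ℝ)⁻¹ * y ≤ (3 ^ s)⁻¹ - γ →
      2 ^ (I + 1) * y < m * 3 ^ e p ∧ y + 3 ^ (v + 1) ≤ 3 ^ (v + 1) * 3 ^ u := fun {y} _ hy => by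
    rw [inv_mul_le_iff₀ t0] at hy
    have a1 : (2 : ℝ) ^ (I + 1) * y < m * 3 ^ e p := by
      calc _ ≤ 2 ^ (I + 1) * (3 ^ e p * ((3 ^ s : ℝ)⁻¹ - γ)) := by gcongr
        _ = 2 ^ (I + 1) * ((3 ^ s : ℝ)⁻¹ - γ) * 3 ^ e p := by ring
        _ < _ := by gcongr; linarith
    have a2 : (y : ℝ) + 3 ^ (v + 1) ≤ 3 ^ (v + 1) * 3 ^ u := by nlinarith
    exact ⟨by exact_mod_cast a1, by exact_mod_cast a2⟩
  obtain ⟨a1, a2⟩ := k2 (w0 2) h2
  obtain ⟨a3, a4⟩ := k2 (w0 3) h3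
  have y1 : (0 : ℝ) < (3 ^ s)⁻¹ - γ := lt_of_lt_of_le (by have := w0 2; positivity) h2
  rw [max_eq_left (by positivity)] at hx
  rw [e4]
  refine hD b0 P Z (o3 _) (by
    rw [pow_succ]; have := Nat.one_le_pow v 3 (by omega); omega) w0 (e4 ▸ k1 h0) (e4 ▸ k1 h1)
    (e4 ▸ a1) (e4 ▸ a3) a2 a4 ?_ ?_
  · rw [← e4]
    refine le_trans ?_ (Nat.le_add_right _ _)
    have : (m : ℝ) * 3 ^ e p ≤ 2 ^ (I + 1) * (3 ^ (v + 1) * 3 ^ u - 3 ^ (v + 1)) := by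
      calc _ ≤ 2 ^ (I + 1) * ((3 ^ s : ℝ)⁻¹ - g) * 3 ^ e p := by
            gcongr
            rw [pow_succ] at hx ⊢
            nlinarith [pow_pos (two_pos (α := ℝ)) I]
        _ = 2 ^ (I + 1) * ((3 ^ s : ℝ)⁻¹ * 3 ^ e p - g * 3 ^ e p) := by ring
        _ ≤ _ := by rw [t3]; gcongr
    have a5 : 3 ^ (v + 1) ≤ 3 ^ (v + 1) * 3 ^ u := by omega
    exact_mod_cast this
  · have : 100 * A ≤ m := by
      have : (100 * A : ℝ) ≤ m := by
        linarith [le_max_right R (100 * A), mul_pos (pow_pos (two_pos (α := ℝ)) (I + 1)) y1]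
      exact_mod_cast this
    calc _ = 3 ^ (v + 1) * (100 * A * (1 * 3 ^ u)) := by ring
      _ ≤ _ := by rw [pow_add 3 s]; gcongr; exact Nat.one_le_pow _ _ (by omega)

end Pool.Agent.Lib.MP_7f377f_mp.YM9
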