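import Pool.Agent.Lib.MP_7f377f_mp.G.TwS2
import Pool.Agent.Lib.MP_7f377f_mp.G.TwD1

/-! Arrays in one direction and the dyadic Cauchy-Schwarz inequality. -/

noncomputable section

set_option linter.unusedSectionVars false
variable [Pool.Agent.Lib.MP_7f377f_mp.GD]

namespace Pool.Agent.Lib.MP_7f377f_mp.YM9

open MeasureTheory Filter Topology Function Real D2
open RGP (BM)

/-- the position in the copy `r` of the direction `l` -/
def mp (l : Fin 4) (w r : ℕ) (e : Link) : Link := (update e.1 l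
  (if Even r then (r + 1) * w - e.1 l - (if e.2 = l then 1 else 0) else e.1 l + r * w), e.2)

/-- the copy `r` in the direction `l` -/
def ml (l : Fin 4) (w r : ℕ) (U : Fd) : Fd := fun e =>
  if Even r ∧ e.2 = l then (U (mp l w r e))⁻¹ else U (mp l w r e)

/-- a slab in the direction `l` -/
def Sl (l : Fin 4) (w : ℕ) : Set Link := {e | 0 ≤ e.1 l ∧ e.1 l < w}

theorem mot_eq (w r : ℕ) : mot w r = ml 0 w r := by
  funext U ⟨x, i⟩
  have e : ∀ s t : ℤ, update x 0 s + Pi.single 0 t = update x 0 (s + t) := fun s t => by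
    funext j
    by_cases h : j = 0 <;> simp [h]
  by_cases hr : Even r
  · simp only [mot, ml, mp, hr, if_true, rfl0, sht, shf, rq, or_self, true_and, e]
    split_ifs <;> simp only [sub_add_eq_add_sub, neg_add_eq_sub, sub_zero]
  · have := e (x 0) (r * w)
    rw [update_eq_self] at this
    simp only [mot, ml, mp, hr, if_false, sht, shf, false_and, this]

theorem xc_xc (l : Fin 4) (U : Fd) : xc l (xc l U) = U := by
  funext ⟨x, i⟩
  simp [prm, comp_def]

theorem xc_ml (l : Fin 4) (w r : ℕ) (U : Fd) : xc l (mot w r (xc l U)) = ml l w r U := by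
  funext ⟨x, i⟩
  have e1 : (Equiv.swap 0 l) i = 0 ↔ i = l := by
    rw [Equiv.swap_apply_eq_iff, Equiv.swap_apply_left]
  have e2 : ∀ s, update (x ∘ (Equiv.swap 0 l)) 0 s ∘ (Equiv.swap 0 l) = update x l s := fun s => by
    rw [update_comp_equiv]
    simp [comp_def]
  simp only [mot_eq, ml, mp, prm, Equiv.symm_swap, e1, e2, Equiv.swap_apply_self, comp_apply,
    Equiv.swap_apply_left]

theorem mp_comm {l l' : Fin 4} (h : l ≠ l') (w r w' r' : ℕ) (e : Link) :
    mp l w r (mp l' w' r' e) = mp l' w' r' (mp l w r e) := by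
  simp only [mp, update_of_ne h, update_of_ne h.symm]
  rw [update_comm h]
  rfl

theorem ml_comm {l l' : Fin 4} (h : l ≠ l') (w r w' r' : ℕ) (U : Fd) :
    ml l w r (ml l' w' r' U) = ml l' w' r' (ml l w r U) := by
  funext e
  have e1 : ∀ l w r, (mp l w r e).2 = e.2 := fun _ _ _ => rfl
  simp only [ml, e1, mp_comm h]
  split_ifs <;> rfl

theorem sht_eq (s : ℕ) : sht s = ml 0 s 1 := by
  rw [← mot_eq]
  funext U
  simp [mot]

variable {H : Fd → ℝ} {w : ℕ}

theorem dep_ml {l l' : Fin 4} (h : l ≠ l') (dH : DependsOn H (Sl l w)) (w' r' : ℕ) :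
    DependsOn (fun U => H (ml l' w' r' U)) (Sl l w) := fun U V e => dH fun i hi => by
  have : U (mp l' w' r' i) = V (mp l' w' r' i) :=
    e _ (by simpa only [Sl, mp, Set.mem_ofPred_eq, update_of_ne h] using hi)
  simp only [ml, this]

theorem dep_xc {l : Fin 4} (dH : DependsOn H (Sl l w)) :
    DependsOn (fun U => H (xc l U)) (Tm 0 w) := fun U V e => dH fun i hi =>
  e _ (by simpa [Sl, Tm] using hi)

theorem dep_prod {ι : Type} {S : Set Link} {s : Finset ι} {F : ι → Fd → ℝ}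
    (h : ∀ i, DependsOn (F i) S) : DependsOn (fun U => ∏ i ∈ s, F i U) S :=
  fun _ _ e => Finset.prod_congr rfl fun i _ => h i e

theorem dep_sl {w : Fin 4 → ℕ} (dH : DependsOn H (Bx9 w)) (l : Fin 4) : DependsOn H (Sl l (w l)) :=
  fun _ _ e => dH fun i hi => e i (hi l)

theorem sht_sht (s t : ℤ) (U : Fd) : sht s (sht t U) = sht (s + t) U := by
  funext e
  simp only [sht, shf, add_assoc, Pi.single_add]

theorem sht_rfl (s : ℤ) (U : Fd) : sht s (rfl0 U) = rfl0 (sht (-s) U) := by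
  funext ⟨x, i⟩
  have : rq i i (x + Pi.single 0 s) = rq i i x + Pi.single 0 (-s) := by
    funext j
    by_cases h : j = 0
    · simp only [rq, h, update_self, Pi.add_apply, Pi.single_eq_same]
      ring
    · simp [rq, h]
  simp only [sht, shf, rfl0, this]

theorem rfl_rfl (U : Fd) : rfl0 (rfl0 U) = U := by
  funext ⟨x, i⟩
  simp only [rfl0, rq_rq]
  split_ifs <;> simp

theorem arr_two (w : ℕ) (H : Fd → ℝ) (U : Fd) :
    arr 2 w H U = H (rfl0 (sht w U)) * H (sht w U) := by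
  simp [arr, mot, Finset.prod_range_succ]

theorem arr_dbl {N : ℕ} (hN : Even N) (w : ℕ) (H : Fd → ℝ) :
    arr 2 (N * w) (arr N w H) = arr (2 * N) w H := by
  funext U
  rw [arr_two, two_mul, arr, arr, arr, Finset.prod_range_add, ← Finset.prod_range_reflect _ N]
  congr 1 <;> refine Finset.prod_congr rfl fun r hr => congrArg H ?_
  · obtain ⟨u, rfl⟩ : ∃ u, N = r + u + 1 := ⟨N - r - 1, by have := Finset.mem_range.1 hr; omega⟩
    rw [show r + u + 1 - 1 - r = u by omega]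
    have : Even r ↔ ¬Even u := by
      rw [Nat.even_add_one, Nat.even_add] at hN
      tauto
    by_cases h : Even u <;> simp only [mot, this, h, if_true, if_false, not_true, not_false_iff,
      sht_rfl, sht_sht, rfl_rfl] <;> congr <;> push_cast <;> ring_nf
  · simp only [mot, Nat.even_add, hN, true_iff, sht_sht]
    split_ifs <;> congr <;> push_cast <;> ring_nf

@[fun_prop] theorem cont_arr (cH : Continuous H) (N w : ℕ) : Continuous (arr N w H) := by
  unfold arr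
  fun_prop

theorem arr_sht (w u : ℕ) (H : Fd → ℝ) (U : Fd) : arr 2 (w + u) H U = arr 2 w H (sht u U) := by
  simp only [arr_two, sht_sht, Nat.cast_add]

theorem zs_zs (z : Tz) : zs (zs z) = zs z := by
  funext μ ν
  by_cases h : μ = 0 <;> simp [zs, h]

variable [MeasurableSpace SU2] [BorelSpace SU2] (h : Measure SU2) [h.IsHaarMeasure]
  [IsProbabilityMeasure h] {b : ℝ} {M : Fin 3 → ℕ} (hM : ∀ j, 0 < M j) (hb : 0 ≤ b) {z : Tz}
theorem dep_arr5 (dH : DependsOn H (Tm 0 w)) (w0 : 0 < w) {N : ℕ} (hN : Even N) :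
    DependsOn (arr N w H) (Tm 0 (N * w : ℕ)) := fun U V e => Finset.prod_congr rfl fun r hr => by
  have h1 : (r : ℤ) + 1 ≤ N := by exact_mod_cast Finset.mem_range.1 hr
  have h2 : (1 : ℤ) ≤ w := by exact_mod_cast w0
  have h3 : (0 : ℤ) ≤ r := r.cast_nonneg
  unfold mot
  split_ifs with h
  · have h4 : (r : ℤ) + 2 ≤ N := by
      obtain ⟨a, rfl⟩ := h
      obtain ⟨c, rfl⟩ := hN
      omega
    exact DependsOn.mono (tm_mono (by nlinarith) (by push_cast; nlinarith))
      (dep_sht (dep_rfl dH) ((r + 1) * w)) e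
  · exact DependsOn.mono (tm_mono (by nlinarith) (by push_cast; nlinarith))
      (dep_sht dH (r * w)) e

include hM hb

theorem zt_arr (cH : Continuous H) {T u : ℕ} (hT : 0 < T) (hu : w ≤ u) :
    zt h b (Matrix.vecCons T M) (zs z) (arr 2 u H) =
      zt h b (Matrix.vecCons T M) (zs z) (arr 2 w H) := by
  obtain ⟨u, rfl⟩ := Nat.exists_eq_add_of_le hu
  rw [funext (arr_sht w u H)]
  exact zt_sht h b (Fin.cases hT hM) z u (cont_arr cH 2 w).measurable

theorem zt_cs' (cH : Continuous H) (dH : DependsOn H (Tm 0 w)) (w0 : 0 < w) {T T' : ℕ}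
    (h1 : Odd T') (h2 : 2 * w < T') (h3 : T' + 3 ≤ 2 * T) :
    zt h b (Matrix.vecCons T M) z H ^ 2 ≤ zt h b (Matrix.vecCons T' M) (zs z) (arr 2 w H) *
      zt h b (Matrix.vecCons (2 * T - T') M) (zs z) fun _ => 1 := by
  obtain ⟨k, rfl⟩ : ∃ k, T' = 2 * k + 3 := by
    obtain ⟨k, rfl⟩ := h1
    exact ⟨k - 1, by omega⟩
  obtain ⟨j, rfl⟩ : ∃ j, T = k + 1 + (j + 2) := ⟨T - k - 3, by omega⟩
  rw [show 2 * (k + 1 + (j + 2)) - (2 * k + 3) = 2 * j + 3 by omega,
    ← zt_arr h hM hb cH (u := k + 1) (by omega) (by omega)]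
  exact zt_cs h hM hb z (Y6.bm_of_cont cH) (DependsOn.mono (tm_mono le_rfl (by omega)) dH) j

variable {ν : Measure Fd} {l D : ℝ} {η : ℕ} (V : Vt h b M z ν l) (hη : 3 ≤ η)
  (hD : (zt h b (Matrix.vecCons η M) (zs z) fun _ => 1) ≤ D * l ^ η)
include V hη hD

theorem Vt.le {T : ℕ} (hT : η ≤ T) :
    (zt h b (Matrix.vecCons T M) (zs z) fun _ => 1) ≤ D * l ^ T := by
  obtain ⟨s, rfl⟩ := Nat.exists_eq_add_of_le hT
  refine (V.step η s (by omega)).trans ((mul_le_mul_of_nonneg_left hD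
    (pow_pos V.pos s).le).trans_eq (by ring))

theorem Vt.one {z' : Tz} (e : zs z' = zs z) (cH : Continuous H) (dH : DependsOn H (Tm 0 w))
    (w0 : 0 < w) {T T' : ℕ} (h1 : Odd T') (h2 : 2 * w < T') (h3 : T' + η ≤ 2 * T) :
    0 ≤ zt h b (Matrix.vecCons T' M) (zs z) (arr 2 w H) ∧
    (zt h b (Matrix.vecCons T M) z' H / l ^ T) ^ 2 ≤
      D * (zt h b (Matrix.vecCons T' M) (zs z) (arr 2 w H) / l ^ T') := by
  have a1 := zt_cs' h hM hb (z := z') cH dH w0 h1 h2 (show T' + 3 ≤ 2 * T by omega)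
  rw [e] at a1
  have a2 := nonneg_of_mul_nonneg_left ((sq_nonneg _).trans a1) (zt_pos h b _ _)
  have l0 := V.pos
  obtain ⟨P, hP⟩ : ∃ P, 2 * T = T' + P := ⟨2 * T - T', by omega⟩
  refine ⟨a2, ?_⟩
  rw [div_pow, ← pow_mul, mul_comm T, hP, div_le_iff₀ (by positivity)]
  rw [hP, Nat.add_sub_cancel_left] at a1
  refine (a1.trans (mul_le_mul_of_nonneg_left (V.le h hM hb hη hD (by omega)) a2)).trans_eq ?_
  rw [pow_add]
  field_simp

theorem Vt.many (cH : Continuous H) (dH : DependsOn H (Tm 0 w)) (w0 : 0 < w) {n : ℕ}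
    (hn : w + η ≤ n) (ho : Odd η) (i : ℕ) : ∀ T, Odd T → 2 ^ (i + 1) * w < T →
      T ≤ 2 ^ (i + 1) * (n - η) + η →
      0 ≤ zt h b (Matrix.vecCons T M) (zs z) (arr (2 ^ (i + 1)) w H) ∧
      D * (zt h b (Matrix.vecCons n M) z H / l ^ n) ^ 2 ^ (i + 1) ≤ D ^ 2 ^ (i + 1) *
        (zt h b (Matrix.vecCons T M) (zs z) (arr (2 ^ (i + 1)) w H) / l ^ T) := by
  have D0 : 0 < D := (mul_pos_iff_of_pos_right (pow_pos V.pos η)).1 ((zt_pos h b _ _).trans_le hD)
  induction i with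
  | zero =>
    intro T h1 h2 h3
    obtain ⟨a1, a2⟩ := V.one h hM hb hη hD rfl cH dH w0 h1 h2 (T := n) (by omega)
    exact ⟨a1, (mul_le_mul_of_nonneg_left a2 D0.le).trans_eq (by ring)⟩
  | succ i ih =>
    intro T h1 h2 h3
    have ev : Even (2 ^ (i + 1)) := (Nat.even_pow.2 ⟨even_two, i.succ_ne_zero⟩)
    have p0 : 0 < 2 ^ (i + 1) := by positivity
    obtain ⟨-, a0⟩ := ih _ ((ev.mul_right _).add_odd ho) ((Nat.mul_le_mul_left _
      (show w ≤ n - η by omega)).trans_lt (by omega)) le_rfl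
    rw [pow_succ' 2 (i + 1), mul_assoc] at h2 h3
    obtain ⟨a1, a2⟩ := V.one h hM hb hη hD (zs_zs z) (cont_arr cH _ w) (dep_arr5 dH w0 ev)
      (by positivity) h1 h2 (T := 2 ^ (i + 1) * (n - η) + η) (by omega)
    rw [arr_dbl ev] at a1 a2
    rw [pow_succ' 2 (i + 1)]
    refine ⟨a1, le_of_mul_le_mul_left ?_ D0⟩
    have a3 := pow_le_pow_left₀ (mul_nonneg D0.le (ev.pow_nonneg _)) a0 2
    calc _ = (D * (zt h b (Matrix.vecCons n M) z H / l ^ n) ^ 2 ^ (i + 1)) ^ 2 := by ring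
      _ ≤ _ := a3
      _ ≤ _ := (mul_pow ..).trans_le (mul_le_mul_of_nonneg_left a2 (sq_nonneg _))
      _ = _ := by ring

omit V hD in
/-- the dyadic domination in the time direction -/
theorem dom0 (cH : Continuous H) (dH : DependsOn H (Tm 0 w)) (w0 : 0 < w) {n : ℕ}
    (hn : w + η ≤ n) (ho : Odd η) {B : ℝ}
    (B1 : (zt h b (Matrix.vecCons η M) (zs z) fun _ => 1) ^ 3 ≤
      B * zt h b (Matrix.vecCons (η + 2 * η) M) (zs z) fun _ => 1)
    (B2 : (zt h b (Matrix.vecCons n M) (zs z) fun _ => 1) ≤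
      B * zt h b (Matrix.vecCons n M) z fun _ => 1) {i T : ℕ} (h1 : Odd T)
    (h2 : 2 ^ (i + 1) * w < T) (h3 : T ≤ 2 ^ (i + 1) * (n - η) + η) (h4 : η ≤ T) :
    (∫ U, H U ∂wilz h b (Matrix.vecCons n M) z) ^ 2 ^ (i + 1) ≤ (B * B) ^ 2 ^ (i + 1) *
      ∫ U, arr (2 ^ (i + 1)) w H U ∂wilz h b (Matrix.vecCons T M) (zs z) := by
  obtain ⟨ν, l, V⟩ := exists_vt h hM hb z
  have l0 := V.pos
  have z1 := zt_pos h b (Matrix.vecCons η M) (zs z)
  have z2 := zt_pos h b (Matrix.vecCons n M) z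
  have z3 := zt_pos h b (Matrix.vecCons T M) (zs z)
  obtain ⟨D, hD⟩ : ∃ D, (zt h b (Matrix.vecCons η M) (zs z) fun _ => 1) = D * l ^ η :=
    ⟨_, (div_mul_cancel₀ _ (pow_pos l0 η).ne').symm⟩
  have D1 : 1 ≤ D := le_of_mul_le_mul_right (by simpa [← hD] using V.low η (by omega)) (pow_pos l0 η)
  have B0 : 0 ≤ B := nonneg_of_mul_nonneg_left ((pow_pos z1 3).le.trans B1) (zt_pos h b _ _)
  have DB : D ≤ B := by
    have := B1.trans (mul_le_mul_of_nonneg_left (V.step η (2 * η) (by omega)) B0)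
    rw [hD] at this
    have : D ^ 2 * (D * (l ^ η) ^ 3) ≤ B * (D * (l ^ η) ^ 3) :=
      le_of_eq_of_le (by ring) (this.trans_eq (by ring))
    nlinarith [le_of_mul_le_mul_right this (by positivity)]
  obtain ⟨a1, a2⟩ := V.many h hM hb hη hD.le cH dH w0 hn ho i T h1 h2 h3
  have a3 := V.le h hM hb hη hD.le h4
  have a4 := (V.low n (by omega)).trans B2
  have ev : Even (2 ^ (i + 1)) := (Nat.even_pow.2 ⟨even_two, i.succ_ne_zero⟩)
  rw [int_wilz h b _ _ cH.measurable, int_wilz h b _ _ (cont_arr cH _ w).measurable]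
  generalize 2 ^ (i + 1) = N at *
  generalize zt h b (Matrix.vecCons T M) (zs z) (arr N w H) = Y at *
  generalize zt h b (Matrix.vecCons n M) z H = X at *
  generalize (zt h b (Matrix.vecCons n M) z fun _ => 1) = Z at *
  generalize (zt h b (Matrix.vecCons T M) (zs z) fun _ => 1) = Z' at *
  have a5 : Y / l ^ T ≤ D * (Y / Z') := by
    rw [div_le_iff₀ (by positivity)]
    calc Y = Y / Z' * Z' := (div_mul_cancel₀ _ z3.ne').symm
      _ ≤ Y / Z' * (D * l ^ T) := by gcongr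
      _ = _ := by ring
  have a6 : (X / l ^ n) ^ N ≤ B ^ N * (Y / Z') := le_of_mul_le_mul_left (a2.trans (by
    calc _ ≤ B ^ N * (D * (Y / Z')) := by gcongr
      _ = _ := by ring)) (by positivity)
  calc (X / Z) ^ N = (l ^ n / Z) ^ N * (X / l ^ n) ^ N := by rw [← mul_pow]; congr 1; field_simp
    _ ≤ B ^ N * (B ^ N * (Y / Z')) := mul_le_mul (pow_le_pow_left₀ (by positivity)
        ((div_le_iff₀ z2).2 a4) N) a6 (ev.pow_nonneg _) (by positivity)
    _ = _ := by ring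

end Pool.Agent.Lib.MP_7f377f_mp.YM9
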