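import Pool.Agent.Lib.MP_7f377f_mp.G.TwRigA

/-! Rigidity of the twist eating pair. -/

noncomputable section

set_option linter.unusedSectionVars false
variable [Pool.Agent.Lib.MP_7f377f_mp.GD]

namespace Pool.Agent.Lib.MP_7f377f_mp.RG.Lp

open Finset Matrix Q4 Ms

/-- Euclidean norm -/
def nv (v : Fin GD.d → ℝ) : ℝ := ‖(WithLp.toLp 2 v : E3)‖

theorem nv0 (v : Fin GD.d → ℝ) : 0 ≤ nv v := norm_nonneg _
theorem nv_add (u v : Fin GD.d → ℝ) : nv (u + v) ≤ nv u + nv v := norm_add_le (E := E3) _ _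
theorem nv_neg (u : Fin GD.d → ℝ) : nv (-u) = nv u := norm_neg (E := E3) _
theorem nv_cr (g : S3) : nv (cr g) ≤ nq g := coR_le g

theorem nv_mul (g h : S3) : nv (cr (g * h) - cr g - cr h) ≤ nq g * nq h :=
  (abs_le_of_sq_le_sq' ((lp_sq _).trans_le (cr_mul g h)) (mul_nonneg (nq_nonneg _) (nq_nonneg _))).2

theorem nq_le_nv {g : S3} (h : nq g ≤ 2) : nq g ≤ 2 * nv (cr g) := by
  conv_lhs => rw [← ee_cr h]
  exact e0_near ((nv_cr g).trans h)

theorem nv_mat (M : Matrix (Fin GD.d) (Fin GD.d) ℝ) : ∃ K ≥ (1 : ℝ), ∀ v, nv (M *ᵥ v) ≤ K * nv v :=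
  ⟨_, le_max_right _ _, fun v => ((toEuclideanCLM (𝕜 := ℝ) M).le_opNorm (WithLp.toLp 2 v)).trans
    (mul_le_mul_of_nonneg_right (le_max_left _ _) (nv0 v))⟩

theorem nv_conj (g U P : S3) :
    nv (cr (g * (U * P) * g⁻¹ * P⁻¹) - (cr U - (Rm P - 1) *ᵥ cr g)) ≤ nq g * (2 * nq U + nq g) := by
  have a := nv_mul (g * U) (P * g⁻¹ * P⁻¹)
  have b := nv_mul g U
  have c := mul_le_mul_of_nonneg_right (nq_mul g U) (nq_nonneg g)
  rw [nq_conj, nq_inv, cr_conj, cr_inv] at a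
  refine le_trans (le_of_eq (congrArg nv ?_)) ((nv_add _ _).trans ((add_le_add a b).trans (by linarith)))
  rw [show g * (U * P) * g⁻¹ * P⁻¹ = g * U * (P * g⁻¹ * P⁻¹) by group, sub_mulVec, one_mulVec,
    mulVec_neg]
  abel

variable [Fintype Zc] {z : Zc} {P Q : S3}

theorem nv_def (h : Iso z P Q) (U W : S3) {r : ℝ} (hU : nq U ≤ r) (hW : nq W ≤ r) :
    nv ((Rm Q - 1) *ᵥ cr U - (Rm P - 1) *ᵥ cr W) ≤
      nq (W * Q * (U * P) * (z * (U * P * (W * Q)))⁻¹) + 6 * r ^ 2 := by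
  have e : W * Q * (U * P) * (z * (U * P * (W * Q)))⁻¹ =
      W * (Q * U * Q⁻¹) * (P * W⁻¹ * P⁻¹) * U⁻¹ := by
    have a : Q * P * Q⁻¹ = z * P := by rw [h.com]; group
    have b := Subgroup.mem_center_iff.1 z.2
    calc _ = W * Q * U * Q⁻¹ * (Q * P * Q⁻¹) * (W⁻¹ * P⁻¹ * U⁻¹) * (z : S3)⁻¹ := by group
      _ = W * Q * U * Q⁻¹ * (z * (P * (W⁻¹ * P⁻¹ * U⁻¹))) * (z : S3)⁻¹ := by rw [a]; group
      _ = _ := by rw [← b]; group
  have a := nv_mul (W * (Q * U * Q⁻¹) * (P * W⁻¹ * P⁻¹)) U⁻¹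
  have b := nv_mul (W * (Q * U * Q⁻¹)) (P * W⁻¹ * P⁻¹)
  have c := nv_mul W (Q * U * Q⁻¹)
  have d := nv_cr (W * (Q * U * Q⁻¹) * (P * W⁻¹ * P⁻¹) * U⁻¹)
  have n1 := nq_mul W (Q * U * Q⁻¹)
  have n2 := nq_mul (W * (Q * U * Q⁻¹)) (P * W⁻¹ * P⁻¹)
  simp only [nq_conj, nq_inv, cr_conj, cr_inv] at a b c n1 n2
  have u0 := nq_nonneg U
  have w0 := nq_nonneg W
  have a' := a.trans (mul_le_mul (show _ ≤ 3 * r by linarith) hU u0 (by linarith))
  have b' := b.trans (mul_le_mul (show _ ≤ 2 * r by linarith) hW w0 (by linarith))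
  have c' := c.trans (mul_le_mul hW hU u0 (by linarith))
  rw [← nv_neg] at a' b' c'
  rw [e]
  refine le_trans (le_of_eq (congrArg nv ?_)) ((nv_add _ _).trans ((add_le_add d
    ((nv_add _ _).trans (add_le_add a' ((nv_add _ _).trans (add_le_add b' c'))))).trans (by linarith)))
  simp only [sub_mulVec, one_mulVec, mulVec_neg]
  abel

/-- exactness of the Koszul complex -/
theorem koszul (h : Iso z P Q) : ∃ K ≥ (1 : ℝ), ∀ a b, ∃ ω, nv ω ≤ K * (nv a + nv b) ∧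
    nv (a - (Rm P - 1) *ᵥ ω) ≤ K * nv ((Rm Q - 1) *ᵥ a - (Rm P - 1) *ᵥ b) ∧
    nv (b - (Rm Q - 1) *ᵥ ω) ≤ K * nv ((Rm Q - 1) *ᵥ a - (Rm P - 1) *ᵥ b) := by
  obtain ⟨C, -, hC⟩ := rig4 h
  have c0 : Commute (Rm P) (Rm Q) := by
    rw [Commute, SemiconjBy, ← Rm_mul, ← Rm_mul, h.com, Rm_mul z, Rm_cen, one_mul]
  have iv : ∀ {g : S3} {M : Matrix (Fin GD.d) (Fin GD.d) ℝ}, Commute M (Rm g) → Commute M (Rm g)ᵀ :=
    fun {g M} c => by
      have e1 : Rm g⁻¹ * Rm g = 1 := by rw [← Rm_mul, inv_mul_cancel, Rm_one]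
      have e2 : Rm g * Rm g⁻¹ = 1 := by rw [← Rm_mul, mul_inv_cancel, Rm_one]
      rw [← Rm_inv]
      exact c.units_inv_right (u := ⟨_, _, e2, e1⟩)
  have sb : ∀ {M N : Matrix (Fin GD.d) (Fin GD.d) ℝ}, Commute M N → Commute (M - 1) (N - 1) :=
    fun c => (c.sub_right (.one_right _)).sub_left (.one_left _)
  have c1 := sb c0
  have c2 := sb (iv (Commute.refl (Rm P)))
  have c3 := sb (iv c0)
  have c4 := sb (iv c0.symm)
  have c5 := sb (iv (Commute.refl (Rm Q)))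
  rw [← transpose_one, ← transpose_sub, transpose_one] at c2 c3 c4 c5
  generalize Rm P - 1 = A at *
  generalize Rm Q - 1 = B at *
  have u : IsUnit (Aᵀ * A + Bᵀ * B) := mulVec_injective_iff_isUnit.1 ((injective_iff_map_eq_zero
    (toLin' (Aᵀ * A + Bᵀ * B))).2 fun v hv => by
      have e := congrArg (v ⬝ᵥ ·) hv
      simp only [toLin'_apply, add_mulVec, dotProduct_add, ← mulVec_mulVec, dotProduct_mulVec,
        vecMul_transpose, dotProduct_zero] at e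
      have := hC v
      simp only [dotProduct_mulVec] at this
      rw [e, mul_zero] at this
      exact dotProduct_self_eq_zero.1 (this.antisymm (dot0 v)))
  obtain ⟨N, e1, e2⟩ := isUnit_iff_exists.1 u
  have cm : ∀ {M : Matrix (Fin GD.d) (Fin GD.d) ℝ}, Commute M (Aᵀ * A + Bᵀ * B) → M * N = N * M :=
    fun c => c.units_inv_right (u := ⟨_, _, e1, e2⟩)
  have a1 := cm ((c2.mul_right (.refl A)).add_right (c3.mul_right c1))
  have a2 := cm ((c4.mul_right c1.symm).add_right (c5.mul_right (.refl B)))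
  obtain ⟨K1, k1, l1⟩ := nv_mat (N * Aᵀ)
  obtain ⟨K2, k2, l2⟩ := nv_mat (N * Bᵀ)
  refine ⟨K1 + K2, by linarith, fun a b => ⟨(N * Aᵀ) *ᵥ a + (N * Bᵀ) *ᵥ b, ?_, ?_, ?_⟩⟩
  · nlinarith [nv_add ((N * Aᵀ) *ᵥ a) ((N * Bᵀ) *ᵥ b), l1 a, l2 b, nv0 a, nv0 b]
  · refine le_trans (le_of_eq (congrArg nv ?_)) ((l2 (B *ᵥ a - A *ᵥ b)).trans
      (mul_le_mul_of_nonneg_right (by linarith) (nv0 _)))
    have x : N * Bᵀ * B = 1 - A * (N * Aᵀ) := by
      rw [← e2, ← mul_assoc, a1, mul_assoc N A, c2.eq, mul_add, mul_assoc]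
      abel
    have y : N * Bᵀ * A = A * (N * Bᵀ) := by rw [← mul_assoc, a1, mul_assoc, mul_assoc, c3.eq]
    simp only [mulVec_add, mulVec_sub, mulVec_mulVec, x, y, sub_mulVec, one_mulVec]
    abel
  · rw [← nv_neg]
    refine le_trans (le_of_eq (congrArg nv ?_)) ((l1 (B *ᵥ a - A *ᵥ b)).trans
      (mul_le_mul_of_nonneg_right (by linarith) (nv0 _)))
    have x : N * Aᵀ * A = 1 - B * (N * Bᵀ) := by
      rw [← e2, ← mul_assoc, a2, mul_assoc N B, c5.eq, mul_add, mul_assoc]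
      abel
    have y : N * Aᵀ * B = B * (N * Aᵀ) := by rw [← mul_assoc, a2, mul_assoc, mul_assoc, c4.eq]
    simp only [mulVec_add, mulVec_sub, mulVec_mulVec, x, y, sub_mulVec, one_mulVec]
    abel

theorem rig_loc (h : Iso z P Q) : ∃ K ≥ (1 : ℝ), ∀ (P' Q' : S3) (r : ℝ), K * r ≤ 1 →
    nq (P' * P⁻¹) + nq (Q' * Q⁻¹) ≤ r → ∃ g, nq (g * P' * g⁻¹ * P⁻¹) + nq (g * Q' * g⁻¹ * Q⁻¹) ≤
      K * (nq (Q' * P' * (z * (P' * Q'))⁻¹) + r ^ 2) := by
  obtain ⟨K, K1, hK⟩ := koszul h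
  refine ⟨100 * K ^ 2, by nlinarith, fun P' Q' r hr h1 => ?_⟩
  obtain ⟨U, rfl⟩ : ∃ U, P' = U * P := ⟨P' * P⁻¹, by group⟩
  obtain ⟨W, rfl⟩ : ∃ W, Q' = W * Q := ⟨Q' * Q⁻¹, by group⟩
  simp only [mul_inv_cancel_right] at h1
  obtain ⟨ω, a, b, c⟩ := hK (cr U) (cr W)
  have u0 := nq_nonneg U
  have w0 := nq_nonneg W
  have r0 : 0 ≤ r := by linarith
  have d := nv_def h U W (r := r) (by linarith) (by linarith)
  have a1 : nv ω ≤ K * r := a.trans (mul_le_mul_of_nonneg_left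
    (by linarith [nv_cr U, nv_cr W]) (by linarith))
  have k1 : r ≤ K * r := le_mul_of_one_le_left r0 K1
  have k2 : 100 * (K * r) ≤ 1 := by nlinarith
  have g0 : ω ⬝ᵥ ω ≤ (K * r) ^ 2 := (lp_sq ω).symm.trans_le (pow_le_pow_left₀ (nv0 ω) a1 2)
  have g1 : nq (ee ω) ≤ 2 * (K * r) := nq_ee (by linarith) (by linarith) g0
  have g2 : cr (ee ω) = ω := cr_ee (g0.trans (by nlinarith))
  have key : ∀ U P : S3, nq U ≤ r → nq (ee ω * (U * P) * (ee ω)⁻¹ * P⁻¹) ≤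
      2 * (8 * (K * r) ^ 2 + nv (cr U - (Rm P - 1) *ᵥ ω)) := fun U P hU => by
    have e1 := nq_mul (ee ω * U) (P * (ee ω)⁻¹ * P⁻¹)
    have e2 := nv_conj (ee ω) U P
    have e3 := nv_add (cr (ee ω * (U * P) * (ee ω)⁻¹ * P⁻¹) - (cr U - (Rm P - 1) *ᵥ ω))
      (cr U - (Rm P - 1) *ᵥ ω)
    rw [nq_conj, nq_inv, show ee ω * U * (P * (ee ω)⁻¹ * P⁻¹) = ee ω * (U * P) * (ee ω)⁻¹ * P⁻¹ by
      group] at e1
    rw [g2] at e2
    rw [sub_add_cancel] at e3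
    have e4 := mul_le_mul g1 (show 2 * nq U + nq (ee ω) ≤ 4 * (K * r) by linarith)
      (by linarith [nq_nonneg U, nq_nonneg (ee ω)]) (by linarith)
    linarith [nq_le_nv (e1.trans (by linarith [nq_mul (ee ω) U]))]
  refine ⟨ee ω, (add_le_add (key U P (by linarith)) (key W Q (by linarith))).trans ?_⟩
  have := mul_le_mul_of_nonneg_left d (show 0 ≤ K by linarith)
  have n0 := nq_nonneg (W * Q * (U * P) * (z * (U * P * (W * Q)))⁻¹)
  have k3 : K ≤ K ^ 2 := by nlinarith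
  nlinarith [mul_le_mul_of_nonneg_right k3 n0, mul_le_mul_of_nonneg_right k3 (sq_nonneg r)]

theorem rig1 (h : Iso z P Q) : ∃ C ≥ (1 : ℝ), ∀ P' Q' : S3, ∃ g,
    nq (g * P' * g⁻¹ * P⁻¹) ≤ C * nq (Q' * P' * (z * (P' * Q'))⁻¹) ∧
    nq (g * Q' * g⁻¹ * Q⁻¹) ≤ C * nq (Q' * P' * (z * (P' * Q'))⁻¹) := by
  obtain ⟨K, K1, hK⟩ := rig_loc h
  have K0 : 0 < K := by linarith
  set φ : S3 × S3 → S3 → ℝ := fun p g => nq (g * p.1 * g⁻¹ * P⁻¹) + nq (g * p.2 * g⁻¹ * Q⁻¹)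
  set δ : S3 × S3 → ℝ := fun p => nq (p.2 * p.1 * (z * (p.1 * p.2))⁻¹)
  have c1 : Continuous (Function.uncurry φ) :=
    (cont_nq.comp (by fun_prop)).add (cont_nq.comp (by fun_prop))
  have c2 : Continuous δ := cont_nq.comp (by fun_prop)
  obtain ⟨d, d0, hd⟩ : ∃ d > (0 : ℝ), ∀ p, (∀ g, (2 * K)⁻¹ ≤ φ p g) → d ≤ δ p := by
    refine IsCompact.exists_forall_le' (s := {p | ∀ g, (2 * K)⁻¹ ≤ φ p g}) (IsClosed.isCompact ?_)
      c2.continuousOn fun p hp => lt_of_not_ge fun a => ?_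
    · simp only [Set.setOf_forall]
      exact isClosed_iInter fun g => isClosed_le continuous_const (c1.uncurry_right g)
    · obtain ⟨g, e1, e2⟩ := h.uni p.1 p.2 (mul_inv_eq_one.1 (nq_eq a))
      have := hp g⁻¹
      simp only [φ, e1, e2, inv_inv, mul_assoc, inv_mul_cancel_left, inv_mul_cancel, mul_one,
        mul_inv_cancel, nq_one] at this
      linarith [inv_pos.2 (mul_pos two_pos K0)]
  have G0 : 0 ≤ 2 * cG / d := div_nonneg (by linarith [GD.cG_pos]) d0.le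
  refine ⟨2 * K + 2 * cG / d, by linarith, fun P' Q' => ?_⟩
  obtain ⟨g, -, hg⟩ := isCompact_univ.exists_isMinOn Set.univ_nonempty
    (c1.uncurry_left (P', Q')).continuousOn
  have δ0 : 0 ≤ δ (P', Q') := nq_nonneg _
  suffices φ (P', Q') g ≤ (2 * K + 2 * cG / d) * δ (P', Q') from
    ⟨g, (le_add_of_nonneg_right (nq_nonneg _)).trans this,
      (le_add_of_nonneg_left (nq_nonneg _)).trans this⟩
  have r0 : 0 ≤ φ (P', Q') g := add_nonneg (nq_nonneg _) (nq_nonneg _)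
  rcases le_total (φ (P', Q') g) (2 * K)⁻¹ with a | a
  · rw [inv_eq_one_div, le_div_iff₀ (by linarith)] at a
    obtain ⟨u, hu⟩ := hK (g * P' * g⁻¹) (g * Q' * g⁻¹) (φ (P', Q') g) (by nlinarith) le_rfl
    have e : g * Q' * g⁻¹ * (g * P' * g⁻¹) * (z * (g * P' * g⁻¹ * (g * Q' * g⁻¹)))⁻¹ =
        g * (Q' * P' * (z * (P' * Q'))⁻¹) * g⁻¹ := by
      simp only [_root_.mul_inv_rev, mul_assoc, inv_mul_cancel_left, inv_inv]
      rw [Subgroup.mem_center_iff.1 (inv_mem z.2) g⁻¹]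
    have m : φ (P', Q') g ≤ φ (P', Q') (u * g) := hg (Set.mem_univ _)
    rw [e, nq_conj] at hu
    have : φ (P', Q') (u * g) ≤ K * (δ (P', Q') + φ (P', Q') g ^ 2) := by
      simpa only [φ, δ, _root_.mul_inv_rev, mul_assoc] using hu
    nlinarith [mul_nonneg G0 δ0, mul_le_mul_of_nonneg_left a r0]
  · have b := hd (P', Q') fun u => a.trans (hg (Set.mem_univ u))
    have c : φ (P', Q') g ≤ 2 * cG / d * d := by
      rw [div_mul_cancel₀ _ d0.ne', two_mul]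
      exact add_le_add (nq_le _) (nq_le _)
    nlinarith [mul_le_mul_of_nonneg_left b G0, mul_nonneg K0.le δ0]

theorem rig (h : Iso z P Q) : ∃ C, Rig z P Q C := by
  obtain ⟨C1, a1, b1⟩ := rig1 h
  obtain ⟨C2, a2, b2⟩ := rig2 h
  obtain ⟨C3, a3, b3⟩ := rig3
  obtain ⟨C4, a4, b4⟩ := rig4 h
  refine ⟨C1 + C2 + C3 + C4, by linarith, fun P' Q' => ?_, fun g => ?_, fun c hc => ?_, fun v => ?_⟩
  · obtain ⟨g, c1, c2⟩ := b1 P' Q'
    exact ⟨g, c1.trans (mul_le_mul_of_nonneg_right (by linarith) (nq_nonneg _)),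
      c2.trans (mul_le_mul_of_nonneg_right (by linarith) (nq_nonneg _))⟩
  · obtain ⟨c, hc⟩ := b2 g
    exact ⟨c, hc.trans (mul_le_mul_of_nonneg_right (by linarith)
      (add_nonneg (nq_nonneg _) (nq_nonneg _)))⟩
  · exact b3 c ((mul_le_mul_of_nonneg_right (by linarith) (nq_nonneg _)).trans_lt hc)
  · exact (b4 v).trans (mul_le_mul_of_nonneg_right (by linarith)
      (add_nonneg (dot0 _) (dot0 _)))

end Pool.Agent.Lib.MP_7f377f_mp.RG.Lp
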