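import Pool.Agent.Lib.MP_7f377f_mp.G.TwSm
import Pool.Agent.Lib.MP_7f377f_mp.G.TwRigB

/-! The free energy of long twisted tori is proportional to the area. -/

noncomputable section

set_option linter.unusedSectionVars false
variable [Pool.Agent.Lib.MP_7f377f_mp.GD]

namespace Pool.Agent.Lib.MP_7f377f_mp.RG.Lp

open Finset Matrix MeasureTheory Q4

theorem Sb.mono {ι : Type} [Fintype ι] {c c' Λ Λ' : ℝ} {M : Matrix ι ι ℝ} (h : Sb c Λ M)
    (h1 : c' ≤ c) (h2 : Λ ≤ Λ') : Sb c' Λ' M :=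
  ⟨h.symm, fun x => (mul_le_mul_of_nonneg_right h1 (dot0 x)).trans (h.lo x),
    fun x => (h.up x).trans (mul_le_mul_of_nonneg_right h2 (dot0 x))⟩

variable {z : Zc} {p q : S3} {t a a0 a1 R : ℕ} {C ρ P β : ℝ} {m : BF}

/-- the torus with sides `t a0, t a1, t, t` -/
def dt (h : Iso z p q) (ht : Odd t) (h0 : Odd a0) (h1 : Odd a1) : Dt :=
  ⟨fun i => t * ![a0, a1, 1, 1] i, fun i => ht.mul (odd_long h0 h1 i), z, p, q, h.com⟩

theorem card_dt (h : Iso z p q) (ht : Odd t) (h0 : Odd a0) (h1 : Odd a1) :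
    ((domv (dt h ht h0 h1).M).card : ℝ) = t ^ 4 * a0 * a1 := by
  rw [card_domv (dt h ht h0 h1).odd]
  simp [dt]
  ring

theorem ok_dt (h : Iso z p q) (ht : Odd t) (h0 : Odd a0) (h1 : Odd a1) (r : Rig z p q C)
    (hρ : 10 ^ 9 * C ^ 2 * cG ≤ ρ) (hP : (t : ℝ) ^ 2 * ρ ^ 20 ≤ P) (hβ : P ^ 1000 ≤ β)
    (b0 : (a0 : ℝ) ≤ 12 * P) (b1 : (a1 : ℝ) ≤ 12 * P) : (dt h ht h0 h1).Ok C P β := by
  have t1 : (1 : ℝ) ≤ t := by exact_mod_cast ht.pos
  have C1 := r.one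
  have c := mul_le_mul (le_self_pow₀ C1 two_ne_zero) GD.cG1 zero_le_one (sq_nonneg C)
  have ρ1 : 12 * C ≤ ρ := by linarith
  have ρ2 : ρ ≤ ρ ^ 20 := le_self_pow₀ (by linarith) (by norm_num)
  have t2 : (t : ℝ) ≤ t ^ 2 := le_self_pow₀ t1 two_ne_zero
  have e : (t : ℝ) ^ 2 * (12 * C) ≤ P := (mul_le_mul_of_nonneg_left (ρ1.trans ρ2) (sq_nonneg _)).trans hP
  have e1 : 12 * (t : ℝ) ^ 2 ≤ P := by nlinarith
  have P1 : 1 ≤ P := by nlinarith
  have s : ∀ b : ℝ, 0 ≤ b → b ≤ 12 * P → t * b ≤ P ^ 2 := fun b b0 hb => by nlinarith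
  refine ⟨r, hρ.trans (ρ2.trans (le_trans (le_mul_of_one_le_left (by linarith) (by linarith)) hP)),
    fun i => ?_, ?_, ?_, ?_, hβ⟩
  · fin_cases i <;> simp only [dt] <;> push_cast <;> refine s _ (by positivity) (by linarith)
  · rw [card_dt]
    calc (t : ℝ) ^ 4 * a0 * a1 ≤ t ^ 4 * (12 * P) * (12 * P) := by gcongr
      _ = (12 * t ^ 2) ^ 2 * P ^ 2 := by ring
      _ ≤ P ^ 2 * P ^ 2 := by gcongr
      _ = P ^ 4 := by ring
  · simp [dt]
    nlinarith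
  · simp [dt]
    nlinarith

theorem lead_cover (h : Iso z p q) (ht : Odd t) (ha : Odd a) (h0 : Odd a0) (h1 : Odd a1)
    (r : Rig z p q C) (hq : Qm ρ R m) (hρ : 10 ^ 9 * C ^ 2 * cG ≤ ρ)
    (hP : (t : ℝ) ^ 2 * ρ ^ 20 ≤ P) (lP : Real.log P ≤ ρ) (Pa : P < a) (b0 : a ≤ a0) (b1 : a ≤ a1)
    (hv : (t : ℝ) ^ 4 * a0 * a1 ≤ P ^ 4) :
    |(dt h ht h0 h1).lead β m R - (dt h ht ha ha).lead β m R / a ^ 2 * a0 * a1| ≤ 3 / ρ := by
  have t1 : (1 : ℝ) ≤ t := by exact_mod_cast ht.pos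
  have a1' : (0 : ℝ) < a := by exact_mod_cast ha.pos
  have C1 := r.one
  have c := mul_le_mul (le_self_pow₀ C1 two_ne_zero) GD.cG1 zero_le_one (sq_nonneg C)
  have c' := mul_le_mul_of_nonneg_right (one_le_pow₀ C1 (n := 2)) GD.cG_pos.le
  have ρ1 : 625000 * C ≤ ρ := by linarith
  have ρ3 : 1000 ≤ ρ := by linarith
  have ρ0 : 0 < ρ := by linarith
  have ρP : ρ ^ 20 ≤ P := le_trans (le_mul_of_one_le_left (by positivity) (one_le_pow₀ t1)) hP
  have ρ2 : ρ ≤ P := (le_self_pow₀ (by linarith) (by norm_num)).trans ρP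
  have P0 : 0 < P := by linarith
  have p0 : 0 < C * (t : ℝ) ^ 2 := by positivity
  set T := dt h ht ha ha
  set T' := dt h ht h0 h1
  set k := ⌈P / ρ ^ 3⌉₊
  have pc : Pc T.S (C * t ^ 2) := T.pc r (by simp [T, dt]) (by simp [T, dt])
  have pc' : Pc T'.S (C * t ^ 2) := T'.pc r (by simp [T', dt]) (by simp [T', dt])
  have k1 : k * (2 * R) < a := by
    have u : (k : ℝ) ≤ P / ρ ^ 3 + 1 := (Nat.ceil_lt_add_one (by positivity)).le
    have u1 : P / ρ ^ 3 * (4 * ρ) ≤ P := by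
      rw [div_mul_eq_mul_div, div_le_iff₀ (by positivity)]
      exact mul_le_mul_of_nonneg_left (by nlinarith [mul_pos ρ0 ρ0]) P0.le
    have u2 : 4 * ρ ≤ P := le_trans (by nlinarith)
      ((pow_le_pow_right₀ (by linarith) (show 2 ≤ 20 by norm_num)).trans ρP)
    have u3 : (k : ℝ) * (2 * R) ≤ (P / ρ ^ 3 + 1) * (2 * ρ) := by
      gcongr
      exact hq.Rρ
    exact_mod_cast (show (k : ℝ) * (2 * R) < a by nlinarith)
  have tr : ∀ y ∈ box (k * (2 * R)), trace (T'.S y) = a0 * a1 / a ^ 2 * trace (T.S y) := fun y hy => by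
    have l : ∀ b, a ≤ b → k * (2 * R) < t * b := fun b hb =>
      (k1.trans_le hb).trans_le (Nat.le_mul_of_pos_left _ ht.pos)
    refine (trace_shf T.odd T'.odd rfl rfl (l a le_rfl) (l a le_rfl) (l a0 b0) (l a1 b1) hy).trans ?_
    congr 1
    simp [T, T', dt]
    field_simp
  have g0 : (0 : ℝ) ≤ a0 * a1 / a ^ 2 := by positivity
  have w1 : (6250 * (C * (t : ℝ) ^ 2))⁻¹ ≤ (C * t ^ 2)⁻¹ := inv_anti₀ p0 (by linarith)
  have w2 : 16 ≤ 100 * ρ ^ 5 := by linarith [one_le_pow₀ (show 1 ≤ ρ by linarith) (n := 5)]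
  have x1 := cover T.orp_S T'.orp_S g0 tr (sb_hm T.orp_S hq pc p0) (sb_hm T'.orp_S hq pc' p0)
    (by positivity)
  have x2 := cover T.orp_S T'.orp_S (K := kl) (r := 1) (k := k) g0 (fun y hy => tr y
    (box_mono (Nat.mul_le_mul_left _ (by linarith [hq.R1])) hy))
    (rp_kl T.orp_S ▸ (sb_lap T.orp_S pc p0).mono w1 w2)
    (rp_kl T'.orp_S ▸ (sb_lap T'.orp_S pc' p0).mono w1 w2) (by positivity)
  have y : ∀ D : ℝ, D ≤ P ^ 5 → D * (100 * ρ ^ 5 / (6250 * (C * t ^ 2))⁻¹) *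
      Real.exp (-(k * ((6250 * (C * t ^ 2))⁻¹ / (100 * ρ ^ 5)))) ≤ 1 / ρ := fun D hD => by
    have u1 : 100 * ρ ^ 5 / (6250 * (C * t ^ 2))⁻¹ ≤ t ^ 2 * ρ ^ 6 := by
      rw [div_inv_eq_mul]
      nlinarith [mul_le_mul_of_nonneg_right ρ1 (show 0 ≤ (t : ℝ) ^ 2 * ρ ^ 5 by positivity)]
    have u2 : (t : ℝ) ^ 2 * ρ ^ 6 ≤ P := le_trans (by gcongr <;> linarith) hP
    have u3 : 7 * ρ ≤ k * ((6250 * (C * t ^ 2))⁻¹ / (100 * ρ ^ 5)) := by
      rw [← inv_div, ← div_eq_mul_inv, le_div_iff₀ (by positivity)]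
      refine le_trans ?_ (Nat.le_ceil _)
      rw [le_div_iff₀ (by positivity)]
      calc _ ≤ ρ ^ 2 * (t ^ 2 * ρ ^ 6) * ρ ^ 3 := by
            gcongr
            nlinarith
        _ = t ^ 2 * ρ ^ 11 := by ring
        _ ≤ P := le_trans (by gcongr <;> linarith) hP
    have u4 : P ^ 6 ≤ Real.exp (6 * ρ) := by
      rw [← Real.exp_log P0, ← Real.exp_nat_mul, Real.exp_le_exp]
      push_cast
      linarith
    calc _ ≤ P ^ 5 * P * Real.exp (-(7 * ρ)) := by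
          gcongr
          exact u1.trans u2
      _ ≤ Real.exp (6 * ρ) * Real.exp (-(7 * ρ)) := by
          rw [← pow_succ]
          gcongr
      _ ≤ 1 / ρ := by
          rw [← Real.exp_add, show 6 * ρ + -(7 * ρ) = -ρ by ring, Real.exp_neg, one_div]
          exact inv_anti₀ ρ0 (by linarith [Real.add_one_le_exp ρ])
  have v : (4 : ℝ) * ((domv T'.M).card * GD.d) ≤ P ^ 5 := by
    rw [card_dt, pow_succ P, ← mul_assoc, mul_right_comm, mul_comm]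
    exact mul_le_mul hv (by linarith [GD.d_le]) (by positivity) (by positivity)
  have y1 := y (Fintype.card (Fin 4 × domv T'.M × Fin GD.d)) (by simpa using v)
  have y2 := y (Fintype.card (Unit × domv T'.M × Fin GD.d)) (by
    have : (0 : ℝ) ≤ (domv T'.M).card * GD.d := by positivity
    simp
    linarith)
  have e : T'.lead β m R - T.lead β m R / a ^ 2 * a0 * a1 =
      Real.log (rp T'.S 1 kl).det - a0 * a1 / a ^ 2 * Real.log (rp T.S 1 kl).det -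
        (Real.log (hm T'.S m R).det - a0 * a1 / a ^ 2 * Real.log (hm T.S m R).det) / 2 := by
    simp only [Dt.lead, T, T', card_dt]
    field_simp
    ring
  rw [e, show 3 / ρ = 3 * (1 / ρ) by ring]
  have := abs_le.1 (x1.trans (mul_le_mul_of_nonneg_left y1 zero_le_two))
  have := abs_le.1 (x2.trans (mul_le_mul_of_nonneg_left y2 zero_le_two))
  rw [hm, hm]
  exact abs_le.2 ⟨by linarith, by linarith⟩

end Pool.Agent.Lib.MP_7f377f_mp.RG.Lp

namespace Pool.Agent.Lib.MP_7f377f_mp.RG.Q4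

open Lp

theorem lout : Lout := by
  intro _ z p q h ε ε0
  obtain ⟨C, r⟩ := rig h
  refine ⟨10 ^ 9 * C ^ 2 * cG + |Real.log cHa| + 7 / ε, fun ρ P β t hρ ht _ hP lP hβ lβ => ?_⟩
  have c := mul_le_mul (one_le_pow₀ r.one (n := 2)) GD.cG1 zero_le_one (sq_nonneg C)
  have c1 := abs_nonneg (Real.log cHa)
  have c2 : 0 < 7 / ε := by positivity
  have ρ1 : 1 ≤ ρ := by linarith
  have ρ0 : 0 < ρ := by linarith
  have ρP : ρ ^ 20 ≤ P := le_trans (le_mul_of_one_le_left (by positivity)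
    (one_le_pow₀ (by exact_mod_cast ht.pos))) hP
  have ρ2 : ρ ≤ P := (le_self_pow₀ ρ1 (by norm_num)).trans ρP
  have ha : Odd (2 * ⌈P / 2⌉₊ + 1) := odd_two_mul_add_one _
  have a1 : P < (2 * ⌈P / 2⌉₊ + 1 : ℕ) := by
    push_cast
    linarith [Nat.le_ceil (P / 2)]
  have a2 : ((2 * ⌈P / 2⌉₊ + 1 : ℕ) : ℝ) ≤ 4 * P := by
    push_cast
    linarith [Nat.ceil_lt_add_one (show 0 ≤ P / 2 by linarith)]
  generalize 2 * ⌈P / 2⌉₊ + 1 = a at ha a1 a2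
  have b : ∀ b : ℕ, b = a ∨ b = 3 * a → a ≤ b ∧ (b : ℝ) ≤ 12 * P := by
    rintro b (rfl | rfl)
    · exact ⟨le_rfl, by linarith⟩
    · exact ⟨by omega, by push_cast; linarith⟩
  refine ⟨a, ha, fun R m hq => ⟨(dt h ht ha ha).lead β m R / a ^ 2, fun a0 a1' h0 h1 e0 e1 f hf => ?_⟩⟩
  have ok := ok_dt h ht h0 h1 r (by linarith) hP hβ (b _ e0).2 (b _ e1).2
  have x1 := Dt.flux0 ok hq ρP lβ (by linarith) fun ζ => tp_of_top (hf ζ)
  have x2 := lead_cover (β := β) h ht ha h0 h1 r hq (by linarith) hP lP a1 (b _ e0).1 (b _ e1).1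
    (card_dt h ht h0 h1 ▸ ok.vol)
  have y1 : P⁻¹ ≤ ρ⁻¹ := inv_anti₀ ρ0 ρ2
  have y2 : 7 * ρ⁻¹ ≤ ε := by
    rw [← div_eq_mul_inv, div_le_comm₀ ρ0 ε0]
    linarith
  rw [div_eq_mul_inv 3] at x2
  exact ((abs_sub_le _ _ _).trans (add_le_add x1 x2)).trans (by linarith)

end Pool.Agent.Lib.MP_7f377f_mp.RG.Q4
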