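import Pool.Agent.Lib.MP_7f377f_mp.G.TwDef
import Pool.Agent.Lib.MP_7f377f_mp.G.Q4EG

/-! The result of the flow on twisted tori. -/

noncomputable section

set_option linter.unusedSectionVars false
variable [Pool.Agent.Lib.MP_7f377f_mp.GD]

namespace Pool.Agent.Lib.MP_7f377f_mp.RG.Q4.En

open Filter

/-- the numbers of the levels -/
structure Tnum (G : Gl) (ρ P : ℕ → ℝ) (T : ℕ → ℕ) : Prop where
  lim : Tendsto ρ atTop atTop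
  num : ∀ k, 1 ≤ ρ k ∧ ρ k ≤ T k ∧ ρ k ^ 20 ≤ P k ∧ Real.log (P k) ≤ ρ k ∧ P k ^ 1000 ≤ G.bb k ∧
    Real.log (G.bb k) ≤ P k
  cov : ∀ k0, ∃ s0, ∀ s ≥ s0, ∃ k ≥ k0, s ≤ G.e k ∧ T k ≤ 3 ^ (G.e k - s) ∧
    ((3 ^ (G.e k - s) : ℕ) : ℝ) ^ 2 * ρ k ^ 20 ≤ P k

/-- the partition functions of all twisted tori are given by the top level `k` -/
def Rtop (G : Gl) (b : ℕ → ℝ) : Prop := ∃ (ρ P : ℕ → ℝ) (T : ℕ → ℕ), Tnum G ρ P T ∧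
  ∀ k J, k ≤ J → ∃ κ > (0 : ℝ), ∃ (R : ℕ) (m : BF), Qm (ρ k) R m ∧ ∀ [Tws] (t : ℕ), Odd t → T k ≤ t →
    ∃ f, Top (P k) (G.bb k) t m f ∧ inT (3 ^ (G.e J - G.e k) * t)
      (wilT (b J) (3 ^ (G.e J - G.e k) * t)) = κ ^ vol t * inT t f

end Pool.Agent.Lib.MP_7f377f_mp.RG.Q4.En
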