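import Pool.Agent.Lib.MP_7f377f_mp.G.TwS2
import Pool.Agent.Lib.MP_7f377f_mp.G.TwSpec
import Pool.Agent.Lib.MP_7f377f_mp.G.TwLout
import Pool.Agent.Lib.MP_7f377f_mp.G.TwCout
import Pool.Agent.Lib.MP_7f377f_mp.G.Q4FinB

/-! The partition functions of twisted tori: from the flow to the lattice states. -/

noncomputable section

set_option linter.unusedSectionVars false
variable [Pool.Agent.Lib.MP_7f377f_mp.GD]

namespace Pool.Agent.Lib.MP_7f377f_mp.YM9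

open MeasureTheory Filter Topology Function Real
open RG.Q4

theorem wd_dens (W : RG.Conf) (x : RG.St) : wd (RG.sh x W) = dens W x := by
  simp only [wd, Fi.fq_sh, zero_add]
  simp only [fq, RG.S3.norm_sub_one_sq]
  rfl

/-- the centre of the box -/
def hv (M : Fin 4 → ℕ) : RG.St := fun i => (M i / 2 : ℕ)

theorem pcT_pert [Tws] (n : ℕ) (U : RG.Conf) :
    pcT n U = RG.sh (hv (sd n)) (pert (sd n) Tws.z (RG.sh (-hv (sd n)) U)) := by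
  funext e
  have : coc (sd n) Tws.z e = coc9 (sd n) Tws.z (e.1 + hv (sd n), e.2) := by
    simp only [coc, coc9, qv, hv, RG.un, Pi.add_apply, Pi.single_eq_same, add_right_comm (e.1 e.2) 1]
  rw [pcT, this]
  rfl

theorem dens_sh (v : RG.St) (W : Fd) (x : RG.St) : dens (RG.sh v W) x = dens W (x + v) := by
  simp only [dens, RG.sh, add_right_comm _ _ v]

theorem sum_dom {M : Fin 4 → ℕ} (hM : ∀ i, Odd (M i)) (f : RG.St → ℝ) :
    ∑ x ∈ domv M, f (x + hv M) = ∑ x ∈ box M, f x := by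
  refine Finset.sum_equiv (Equiv.addRight (hv M)) (fun x => ?_) fun _ _ => rfl
  rw [mem_domv, Fintype.mem_piFinset]
  refine forall_congr' fun i => ?_
  obtain ⟨k, hk⟩ := hM i
  simp only [Finset.mem_Ico, Equiv.coe_addRight, Pi.add_apply, hv]
  omega

theorem vol_tw {a : Fin 4 → ℕ} (ha : ∀ i, Odd (a i)) (ζ z : Zc) {t : ℕ} (ht : Odd t) :
    @vol _ (tw a ha ζ z) t = t ^ 4 * ∏ i, a i := by
  refine (RG.Lp.card_domv fun i => ht.mul (ha i)).trans ?_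
  rw [Fin.prod_univ_four]
  ring

theorem flat_tw {a : Fin 4 → ℕ} (ha : ∀ i, Odd (a i)) {ζ : Zc} {P Q : RG.S3}
    (hc : Q * P = ζ * (P * Q)) {t : ℕ} (ht : Odd t) :
    ∃ U, @PerT _ (tw a ha 1 ζ) t U ∧ ∀ x μ ν, fq U x μ ν = 0 := by
  let T : RG.Lp.Dt := ⟨fun i => t * a i, fun i => ht.mul (ha i), ζ, P, Q, hc⟩
  refine ⟨T.tU 1, T.pc_tU 1, fun x μ ν => ?_⟩
  rw [RG.Lp.Dt.tU, Mx.fq_gauge]
  simp [fq, RG.hol, RG.Lp.Dt.lt, RG.S3.q_one]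

variable [mS : MeasurableSpace SU2] [BorelSpace SU2] (h : Measure SU2) [h.IsHaarMeasure]
  [IsProbabilityMeasure h]

theorem zt_inT [Tws] (b : ℝ) {n : ℕ} (hn : Odd n) :
    (zt h b (sd n) Tws.z fun _ => 1) = inT n (wilT b n) := by
  obtain rfl : mS = Fi.mS := BorelSpace.measurable_eq
  have : (Fi.tr RG.haar).IsHaarMeasure := (inferInstance : RG.haar.IsHaarMeasure)
  obtain rfl := Measure.isHaarMeasure_eq_of_isProbabilityMeasure h (Fi.tr RG.haar)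
  have e : ∀ U : RG.Conf, wilT b n (pcT n U) =
      1 * bw b (sd n) (pert (sd n) Tws.z (RG.sh (-hv (sd n)) U)) := fun U => by
    simp only [wilT, wd_dens]
    rw [one_mul, bw, neg_mul, ← sum_dom (odd_sd hn), pcT_pert]
    simp only [dens_sh]
    rfl
  have mp : MeasurePreserving (RG.sh (-hv (sd n)) : Fd → Fd) (RGP.PP (Fi.tr RG.haar) Link)
      (RGP.PP (Fi.tr RG.haar) Link) :=
    ⟨measurable_pi_lambda _ fun _ => measurable_pi_apply _,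
      Measure.map_infinitePi_infinitePi_of_inj (f := fun e : Link => (e.1 + -hv (sd n), e.2))
        fun x y hxy => Prod.ext (add_right_cancel (Prod.mk.inj hxy).1) (Prod.mk.inj hxy).2⟩
  have c : Continuous fun U : Fd => 1 * bw b (sd n) (pert (sd n) Tws.z U) := by
    unfold pert per
    fun_prop
  simp only [inT, e]
  rw [zt, ← mp.map_eq, integral_map mp.measurable.aemeasurable c.aestronglyMeasurable]
  rfl

theorem zt_tw (b : ℝ) {a : Fin 4 → ℕ} (ha : ∀ i, Odd (a i)) (ζ z : Zc) {n : ℕ} (hn : Odd n) :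
    (zt h b (fun i => n * a i) (tz ζ z) fun _ => 1) =
      @inT _ (tw a ha ζ z) n (@wilT _ (tw a ha ζ z) b n) :=
  @zt_inT _ _ _ h _ _ (tw a ha ζ z) b n hn

theorem pow_split {s k J : ℕ} (h1 : s ≤ k) (h2 : k ≤ J) :
    3 ^ (J - k) * 3 ^ (k - s) = 3 ^ (J - s) := by
  rw [← pow_add]
  congr 1
  omega

variable {G : En.Gl} {b : ℕ → ℝ} (hR : En.Rtop G b) (he : Monotone G.e) {z : Zc} {P Q : RG.S3}
  (hz : Iso z P Q)
include hR he hz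

theorem zbd_of : ∃ s0, ∀ s ≥ s0, ∃ C : ℝ, ∀ᶠ J in atTop,
    s ≤ G.e J ∧ Zbd h (b J) (3 ^ (G.e J - s)) z C := by
  obtain ⟨ρ, B, T, hT, hR⟩ := hR
  obtain ⟨s0, h0⟩ := hT.cov 0
  refine ⟨s0, fun s hs => ?_⟩
  obtain ⟨k, -, sk, Tk, -⟩ := h0 s hs
  obtain ⟨n1, -, n2, -, n3, -⟩ := hT.num k
  obtain ⟨C, hC⟩ := cout (ρ k) (B k) (G.bb k) n1 n2 n3
  have o3 : ∀ j, Odd (3 ^ j) := fun j => (by decide : Odd 3).pow
  obtain ⟨t, ht⟩ : ∃ t, t = 3 ^ (G.e k - s) := ⟨_, rfl⟩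
  refine ⟨C * t ^ 4, (eventually_ge_atTop k).mono fun J hJ => ⟨sk.trans (he hJ), ?_⟩⟩
  obtain ⟨κ, κ0, R, m, hm, hf⟩ := hR k J hJ
  refine ⟨t ^ 4 * log κ, fun a ζ ha hζ => ?_⟩
  obtain ⟨f, tf, e⟩ := @hf (tw a ha 1 ζ) _ (o3 _) Tk
  have fl : ∃ P' Q' : RG.S3, Q' * P' = ζ * (P' * Q') := by
    rcases hζ with rfl | rfl
    exacts [⟨1, 1, by simp⟩, ⟨P, Q, hz.com⟩]
  obtain ⟨P', Q', hc⟩ := fl
  obtain ⟨p, l⟩ := @hC (tw a ha 1 ζ) _ R m f (o3 _) hm tf (flat_tw ha hc (o3 _))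
  rw [pow_split sk (he hJ)] at e
  rw [zt_tw h _ ha _ _ (o3 _), e, log_mul (pow_pos κ0 _).ne' p.ne', log_pow]
  rw [vol_tw ha _ _ (o3 _), ← ht] at l ⊢
  convert l using 1
  · congr 1
    push_cast
    ring
  · push_cast
    ring

theorem cr2_of [Fintype Zc] : ∃ s0, ∀ s ≥ s0, ∃ A : ℕ, 0 < A ∧ ∀ᶠ J in atTop,
    s ≤ G.e J ∧ Cr2 (Z0 h (b J) (3 ^ (G.e J - s)) z) (A * 3 ^ (G.e J - s)) := by
  obtain ⟨ρ, B, T, hT, hR⟩ := hR
  obtain ⟨ρ0, hL⟩ := lout z P Q hz (1 / 10 ^ 9) (by norm_num)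
  obtain ⟨k0, hk0⟩ := eventually_atTop.1 (hT.lim.eventually_ge_atTop ρ0)
  obtain ⟨s0, h0⟩ := hT.cov k0
  refine ⟨s0, fun s hs => ?_⟩
  obtain ⟨k, kk, sk, Tk, hp⟩ := h0 s hs
  obtain ⟨-, n1, -, n2, n3, n4⟩ := hT.num k
  have o3 : ∀ j, Odd (3 ^ j) := fun j => (by decide : Odd 3).pow
  obtain ⟨A, oA, hA⟩ := hL (ρ k) (B k) (G.bb k) _ (hk0 k kk) (o3 _)
    (n1.trans (Nat.cast_le.2 Tk)) hp n2 n3 n4
  refine ⟨A, oA.pos, (eventually_ge_atTop k).mono fun J hJ => ⟨sk.trans (he hJ), ?_⟩⟩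
  obtain ⟨κ, κ0, R, m, hm, hf⟩ := hR k J hJ
  obtain ⟨e, hE⟩ := hA R m hm
  obtain ⟨t, ht⟩ : ∃ t, t = 3 ^ (G.e k - s) := ⟨_, rfl⟩
  obtain ⟨η, hη⟩ : ∃ η, η = 3 ^ (G.e J - s) := ⟨_, rfl⟩
  have oη : Odd η := hη ▸ o3 _
  have ot : Odd t := ht ▸ o3 _
  have sp : 3 ^ (G.e J - G.e k) * t = η := by rw [ht, hη, pow_split sk (he hJ)]
  rw [← ht] at hE Tk
  rw [← hη]
  have η0 : (η : ℝ) ≠ 0 := Nat.cast_ne_zero.2 oη.pos.ne'
  have key : ∀ a0 a1 : ℕ, a0 = A ∨ a0 = 3 * A → a1 = A ∨ a1 = 3 * A →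
      |log (Z0 h (b J) η z (a0 * η) (a1 * η)) -
        (t ^ 4 * log κ + e) / η ^ 2 * (a0 * η : ℕ) * (a1 * η : ℕ)| ≤ 1 / 10 ^ 9 := by
    intro a0 a1 q0 q1
    have o : ∀ a, a = A ∨ a = 3 * A → Odd a := by
      rintro _ (rfl | rfl)
      exacts [oA, (by decide : Odd 3).mul oA]
    choose f tf ef using fun ζ => @hf (tw _ (odd_long (o _ q0) (o _ q1)) ζ z) t ot Tk
    have l := hE a0 a1 (o _ q0) (o _ q1) q0 q1 f tf
    have sM : ![a0 * η, a1 * η, η, η] = fun i => η * ![a0, a1, 1, 1] i := by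
      funext i
      fin_cases i <;> simp [mul_comm]
    have p : 0 < Z0 h (b J) η z (a0 * η) (a1 * η) :=
      mul_pos (inv_pos.2 (Nat.cast_pos.2 Fintype.card_pos))
        (Finset.sum_pos (fun ζ _ => zt_pos h _ _ _) Finset.univ_nonempty)
    have eZ : Z0 h (b J) η z (a0 * η) (a1 * η) = κ ^ (t ^ 4 * (a0 * a1)) *
        ((Fintype.card Zc : ℝ)⁻¹ *
          ∑ ζ, @inT _ (tw _ (odd_long (o _ q0) (o _ q1)) ζ z) t (f ζ)) := by
      rw [Z0, mul_left_comm, Finset.mul_sum _ _ (κ ^ _), sM]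
      refine congrArg _ (Finset.sum_congr rfl fun ζ _ => ?_)
      have := ef ζ
      rw [sp, vol_tw _ _ _ ot] at this
      rw [zt_tw h _ (odd_long (o _ q0) (o _ q1)) _ _ oη, this]
      simp [Fin.prod_univ_four]
    rw [eZ] at p ⊢
    rw [log_mul (pow_pos κ0 _).ne' (right_ne_zero_of_mul p.ne'), log_pow]
    convert l using 2
    push_cast
    field_simp
    ring
  refine ⟨(t ^ 4 * log κ + e) / η ^ 2, fun T' R' hT' hR' => ?_⟩
  have c : ∀ X, X = A * η ∨ X = 3 * (A * η) → ∃ a, (a = A ∨ a = 3 * A) ∧ X = a * η := by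
    rintro _ (rfl | rfl)
    exacts [⟨A, .inl rfl, rfl⟩, ⟨3 * A, .inr rfl, (mul_assoc _ _ _).symm⟩]
  obtain ⟨a0, q0, rfl⟩ := c _ hT'
  obtain ⟨a1, q1, rfl⟩ := c _ hR'
  exact key a0 a1 q0 q1

end Pool.Agent.Lib.MP_7f377f_mp.YM9
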