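import Pool.Agent.Lib.MP_7f377f_mp.G.TwLin
import Pool.Agent.Lib.MP_7f377f_mp.RGAp0

/-! Logarithms of determinants and their locality. -/

noncomputable section

namespace Pool.Agent.Lib.MP_7f377f_mp.RG.Lp

open Finset Matrix
open scoped Kronecker

variable {ι : Type} [Fintype ι] [DecidableEq ι] {c Λ : ℝ} {M : Matrix ι ι ℝ}

theorem cj_form (U : Matrix ι ι ℝ) (d x : ι → ℝ) :
    x ⬝ᵥ (U * diagonal d * Uᵀ) *ᵥ x = ∑ i, d i * (Uᵀ *ᵥ x) i ^ 2 := by
  rw [← mulVec_mulVec, ← mulVec_mulVec, dotProduct_mulVec, ← mulVec_transpose]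
  exact sum_congr rfl fun i _ => by rw [mulVec_diagonal]; ring

theorem Sb.spec (h : Sb c Λ M) : ∃ (U : Matrix ι ι ℝ) (d : ι → ℝ), Uᵀ * U = 1 ∧ U * Uᵀ = 1 ∧
    M = U * diagonal d * Uᵀ ∧ ∀ i, c ≤ d i ∧ d i ≤ Λ := by
  have hM : M.IsHermitian := (conjTranspose_eq_transpose_of_trivial M).trans h.symm
  obtain ⟨U, hU⟩ : ∃ U : Matrix ι ι ℝ, U = hM.eigenvectorUnitary := ⟨_, rfl⟩
  have e : star U = Uᵀ := conjTranspose_eq_transpose_of_trivial U
  have h1 : Uᵀ * U = 1 := by rw [← e, hU]; exact Unitary.coe_star_mul_self _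
  have h2 : U * Uᵀ = 1 := mul_eq_one_comm.1 h1
  have h3 : M = U * diagonal hM.eigenvalues * Uᵀ := by
    rw [← e, hU]
    exact hM.spectral_theorem
  refine ⟨U, _, h1, h2, h3, fun i => ?_⟩
  have a := cj_form U hM.eigenvalues (U *ᵥ Pi.single i 1)
  have b := cj_form U 1 (U *ᵥ Pi.single i 1)
  rw [← h3] at a
  rw [show diagonal (1 : ι → ℝ) = 1 from rfl, mul_one, h2, one_mulVec] at b
  rw [mulVec_mulVec _ Uᵀ, h1, one_mulVec] at a b
  simp only [Pi.single_apply, ite_pow, one_pow, ne_eq, two_ne_zero, not_false_eq_true, zero_pow,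
    mul_ite, mul_one, mul_zero, sum_ite_eq', mem_univ, if_true, Pi.one_apply] at a b
  have l := h.lo (U *ᵥ Pi.single i 1)
  have u := h.up (U *ᵥ Pi.single i 1)
  rw [a, b, mul_one] at l u
  exact ⟨l, u⟩

theorem cj_det {U : Matrix ι ι ℝ} (h : U * Uᵀ = 1) (d : ι → ℝ) :
    (U * diagonal d * Uᵀ).det = ∏ i, d i := by
  rw [det_mul, det_mul, mul_right_comm, ← det_mul, h, det_one, one_mul, det_diagonal]

theorem cj_mul {U : Matrix ι ι ℝ} (h : Uᵀ * U = 1) (d e : ι → ℝ) :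
    U * diagonal d * Uᵀ * (U * diagonal e * Uᵀ) = U * diagonal (d * e) * Uᵀ := by
  rw [show diagonal (d * e) = diagonal d * diagonal e from (diagonal_mul_diagonal _ _).symm]
  calc _ = U * diagonal d * (Uᵀ * U) * diagonal e * Uᵀ := by simp only [Matrix.mul_assoc]
    _ = _ := by rw [h]; simp only [Matrix.mul_assoc, Matrix.mul_one]

theorem Sb.det (h : Sb c Λ M) (c0 : 0 < c) : 0 < M.det ∧
    Fintype.card ι * Real.log c ≤ Real.log M.det ∧ Real.log M.det ≤ Fintype.card ι * Real.log Λ := by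
  obtain ⟨U, d, -, h2, rfl, hd⟩ := h.spec
  have d0 : ∀ i, 0 < d i := fun i => c0.trans_le (hd i).1
  rw [cj_det h2, Real.log_prod fun i _ => (d0 i).ne', ← nsmul_eq_mul, ← nsmul_eq_mul]
  exact ⟨prod_pos fun i _ => d0 i, card_nsmul_le_sum _ _ _ fun i _ => Real.log_le_log c0 (hd i).1,
    sum_le_card_nsmul _ _ _ fun i _ => Real.log_le_log (d0 i) (hd i).2⟩

theorem Sb.sq (h : Sb c Λ M) (c0 : 0 < c) : Sb (c ^ 2) (Λ ^ 2) (M * M) := by
  have hs := h.symm
  obtain ⟨U, d, h1, h2, rfl, hd⟩ := h.spec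
  have b : ∀ x : ι → ℝ, x ⬝ᵥ x = ∑ i, (Uᵀ *ᵥ x) i ^ 2 := fun x => by
    have := cj_form U 1 x
    rw [show diagonal (1 : ι → ℝ) = 1 from rfl, mul_one, h2, one_mulVec] at this
    simpa using this
  refine ⟨by rw [transpose_mul, hs], fun x => ?_, fun x => ?_⟩ <;>
    rw [cj_mul h1, cj_form, b, mul_sum] <;>
    refine sum_le_sum fun i _ => mul_le_mul_of_nonneg_right ?_ (sq_nonneg _) <;>
    rw [Pi.mul_apply, ← pow_two]
  exacts [pow_le_pow_left₀ c0.le (hd i).1 2, pow_le_pow_left₀ (c0.le.trans (hd i).1) (hd i).2 2]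

theorem Sb.solve (h : Sb c Λ M) (c0 : 0 < c) (b : ι → ℝ) :
    ∃ x, M *ᵥ x = b ∧ c ^ 2 * (x ⬝ᵥ x) ≤ b ⬝ᵥ b := by
  have e : M *ᵥ (M⁻¹ *ᵥ b) = b := by
    rw [mulVec_mulVec, mul_nonsing_inv _ (h.det c0).1.ne'.isUnit, one_mulVec]
  refine ⟨_, e, ((h.sq c0).lo _).trans_eq ?_⟩
  rw [← mulVec_mulVec, dotProduct_mulVec, ← mulVec_transpose, h.symm, e]

theorem Sb.logdet (h : Sb c Λ M) (c0 : 0 < c) (k : ℕ) :
    |Real.log M.det - (Fintype.card ι * Real.log Λ -
      ∑ j ∈ range k, trace ((1 - Λ⁻¹ • M) ^ (j + 1)) / ((j : ℝ) + 1))| ≤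
      Fintype.card ι * (Λ / c) * Real.exp (-(k * (c / Λ))) := by
  obtain ⟨U, d, h1, h2, rfl, hd⟩ := h.spec
  have d0 : ∀ i, 0 < d i := fun i => c0.trans_le (hd i).1
  have e1 : 1 - Λ⁻¹ • (U * diagonal d * Uᵀ) = U * diagonal (fun i => 1 - d i / Λ) * Uᵀ := by
    rw [show diagonal (fun i => 1 - d i / Λ) = 1 - Λ⁻¹ • diagonal d by
      ext i j
      by_cases e : i = j <;> simp [e, div_eq_inv_mul]]
    simp only [Matrix.mul_sub, Matrix.sub_mul, Matrix.mul_one, h2, Matrix.mul_smul, Matrix.smul_mul]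
  have e2 : ∀ (x : ι → ℝ) (j : ℕ), (U * diagonal x * Uᵀ) ^ j = U * diagonal (x ^ j) * Uᵀ :=
    fun x j => by
      induction j with
      | zero => rw [pow_zero, pow_zero, show diagonal (1 : ι → ℝ) = 1 from rfl, mul_one, h2]
      | succ j ih => rw [pow_succ, ih, cj_mul h1, pow_succ]
  have e3 : ∀ x : ι → ℝ, trace (U * diagonal x * Uᵀ) = ∑ i, x i := fun x => by
    rw [trace_mul_comm, ← Matrix.mul_assoc, h1, Matrix.one_mul, trace_diagonal]
  simp only [e1, e2, e3, Pi.pow_apply, sum_div]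
  rw [cj_det h2, Real.log_prod fun i _ => (d0 i).ne', sum_comm, ← nsmul_eq_mul, ← card_univ,
    ← sum_const, ← sum_sub_distrib, ← sum_sub_distrib, mul_assoc, ← nsmul_eq_mul]
  refine (abs_sum_le_sum_abs _ _).trans (sum_le_card_nsmul _ _ _ fun i _ => ?_)
  have L0 : 0 < Λ := (d0 i).trans_le (hd i).2
  have a0 : 0 < c / Λ := div_pos c0 L0
  have a1 : c / Λ ≤ d i / Λ := div_le_div_of_nonneg_right (hd i).1 L0.le
  have a2 : d i / Λ ≤ 1 := (div_le_one L0).2 (hd i).2
  have x0 : 0 ≤ 1 - d i / Λ := by linarith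
  have := Real.abs_log_sub_add_sum_range_le (x := 1 - d i / Λ)
    (by rw [abs_of_nonneg x0]; linarith) k
  rw [abs_of_nonneg x0, sub_sub_cancel, Real.log_div (d0 i).ne' L0.ne'] at this
  refine (le_of_eq (congrArg abs (by ring))).trans (this.trans ?_)
  rw [mul_comm, ← mul_neg, Real.exp_nat_mul, ← inv_div c, ← div_eq_mul_inv]
  refine div_le_div₀ (by positivity) ((pow_le_pow_of_le_one x0 (by linarith) k.le_succ).trans
    (pow_le_pow_left₀ x0 ?_ k)) a0 a1
  linarith [Real.add_one_le_exp (-(c / Λ))]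

/-- the same kernel of range `n` in two representations -/
inductive Rel {σ σ' κ : Type} (S : St → Matrix σ σ ℝ) (S' : St → Matrix σ' σ' ℝ) (n : ℕ) :
    Matrix (κ × σ) (κ × σ) ℝ → Matrix (κ × σ') (κ × σ') ℝ → Prop
  | gen (C : Matrix κ κ ℝ) {y : St} (h : y ∈ box n) : Rel S S' n (C ⊗ₖ S y) (C ⊗ₖ S' y)
  | zero : Rel S S' n 0 0
  | add {A B A' B'} : Rel S S' n A A' → Rel S S' n B B' → Rel S S' n (A + B) (A' + B')

namespace Rel

variable {σ σ' κ : Type} [Fintype σ] [DecidableEq σ] [Fintype σ'] [DecidableEq σ'] [Fintype κ]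
  [DecidableEq κ] {S : St → Matrix σ σ ℝ} {S' : St → Matrix σ' σ' ℝ} {n m : ℕ}
  {A B : Matrix (κ × σ) (κ × σ) ℝ} {A' B' : Matrix (κ × σ') (κ × σ') ℝ}

set_option linter.unusedSectionVars false

theorem smul (h : Rel S S' n A A') (t : ℝ) : Rel S S' n (t • A) (t • A') := by
  induction h with
  | gen C h => simpa only [smul_kronecker] using gen (t • C) h
  | zero => simpa only [smul_zero] using zero
  | add _ _ a b => simpa only [smul_add] using a.add b

theorem sum {α : Type} (s : Finset α) {F : α → Matrix (κ × σ) (κ × σ) ℝ}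
    {F' : α → Matrix (κ × σ') (κ × σ') ℝ} (h : ∀ y ∈ s, Rel S S' n (F y) (F' y)) :
    Rel S S' n (∑ y ∈ s, F y) (∑ y ∈ s, F' y) := by
  classical
  induction s using Finset.induction_on with
  | empty => exact zero
  | insert a s ha ih =>
    rw [sum_insert ha, sum_insert ha]
    exact (h a (mem_insert_self _ _)).add (ih fun y hy => h y (mem_insert_of_mem hy))

theorem trace {g : ℝ} (h : Rel S S' n A A') (ht : ∀ y ∈ box n, trace (S' y) = g * trace (S y)) :
    trace A' = g * trace A := by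
  induction h with
  | gen C h => rw [trace_kronecker, trace_kronecker, ht _ h, mul_left_comm]
  | zero => simp
  | add _ _ a b => rw [trace_add, trace_add, a, b, mul_add]

variable (hS : Orp S) (hS' : Orp S')
include hS hS'

theorem one (n : ℕ) : Rel (κ := κ) S S' n 1 1 := by
  simpa only [hS.zero, hS'.zero, one_kronecker_one] using
    gen (S := S) (S' := S') (1 : Matrix κ κ ℝ) (zero_mem_box n)

theorem mul (h : Rel S S' n A A') (h' : Rel S S' m B B') : Rel S S' (n + m) (A * B) (A' * B') := by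
  induction h with
  | gen C h =>
    induction h' with
    | gen D h' =>
      simpa only [hS.add, hS'.add, mul_kronecker_mul] using
        gen (S := S) (S' := S') (C * D) (add_mem_box h h')
    | zero => simpa only [mul_zero] using zero
    | add _ _ a b => simpa only [mul_add] using a.add b
  | zero => simpa only [zero_mul] using zero
  | add _ _ a b => simpa only [add_mul] using a.add b

theorem pow (h : Rel S S' n A A') (j : ℕ) : Rel S S' (j * n) (A ^ j) (A' ^ j) := by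
  induction j with
  | zero => simpa only [pow_zero] using one hS hS' _
  | succ j ih => simpa only [pow_succ, Nat.succ_mul] using ih.mul hS hS' h

end Rel

/-- two representations with proportional characters on a large box -/
theorem cover {σ σ' κ : Type} [Fintype σ] [DecidableEq σ] [Fintype σ'] [DecidableEq σ'] [Fintype κ]
    [DecidableEq κ] {S : St → Matrix σ σ ℝ} {S' : St → Matrix σ' σ' ℝ} (hS : Orp S) (hS' : Orp S')
    {K : St → Matrix κ κ ℝ} {r k : ℕ} {g : ℝ} (g0 : 0 ≤ g)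
    (ht : ∀ y ∈ box (k * r), trace (S' y) = g * trace (S y))
    (h : Sb c Λ (rp S r K)) (h' : Sb c Λ (rp S' r K)) (c0 : 0 < c) :
    |Real.log (rp S' r K).det - g * Real.log (rp S r K).det| ≤
      2 * (Fintype.card (κ × σ') * (Λ / c) * Real.exp (-(k * (c / Λ)))) := by
  have r1 : Rel S S' r (1 - Λ⁻¹ • rp S r K) (1 - Λ⁻¹ • rp S' r K) := by
    rw [sub_eq_add_neg, sub_eq_add_neg, ← neg_smul, ← neg_smul]
    exact (Rel.one hS hS' r).add (Rel.smul (Rel.sum _ fun y hy => .gen (K y) hy) _)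
  have e1 : (Fintype.card (κ × σ') : ℝ) = g * Fintype.card (κ × σ) := by
    simpa only [trace_one] using (Rel.one (κ := κ) hS hS' (k * r)).trace ht
  have e2 : ∑ j ∈ range k, trace ((1 - Λ⁻¹ • rp S' r K) ^ (j + 1)) / ((j : ℝ) + 1) =
      g * ∑ j ∈ range k, trace ((1 - Λ⁻¹ • rp S r K) ^ (j + 1)) / ((j : ℝ) + 1) := by
    rw [mul_sum]
    refine sum_congr rfl fun j hj => ?_
    rw [(r1.pow hS hS' (j + 1)).trace fun y hy => ht y (box_mono
      (Nat.mul_le_mul_right r (mem_range.1 hj)) hy), mul_div_assoc]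
  have a := mul_le_mul_of_nonneg_left (h.logdet c0 k) g0
  have a' := h'.logdet c0 k
  rw [← abs_of_nonneg g0, ← abs_mul, abs_of_nonneg g0] at a
  rw [e2] at a'
  rw [e1] at a' ⊢
  rw [abs_le] at a a' ⊢
  constructor <;> linarith [a.1, a.2, a'.1, a'.2]

end Pool.Agent.Lib.MP_7f377f_mp.RG.Lp
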