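import Pool.Agent.Lib.MP_7f377f_mp.G.TwE

/-! The skew torus with the periods `(p, p)` and `(p, -p)` in the plane `01`: definitions. -/

noncomputable section

set_option linter.unusedSectionVars false
variable [Pool.Agent.Lib.MP_7f377f_mp.GD]

namespace Pool.Agent.Lib.MP_7f377f_mp.YM9

open MeasureTheory Function
open RGP (BM PP)
open Ch (ker wt WP)
open RG.Q4 (Zc)

/-- the links in the closed half space of the diagonal mirror -/
def Hd : Set Link := {e | e.1 1 ≤ e.1 0 ∧ (e.2 = 1 → e.1 1 < e.1 0)}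

/-- translation of a slice in the direction `1` -/
def Cs (M : Fin 3 → ℕ) (p : ℕ) (x : Ed M → SU2) : Ed M → SU2 :=
  fun e => x (e.1 + Pi.single 0 (p : ZMod (M 0)), e.2)

variable [MeasurableSpace SU2] [BorelSpace SU2] (h : Measure SU2) [h.IsHaarMeasure]
  [IsProbabilityMeasure h]

theorem mp_Cs (M : Fin 3 → ℕ) (p : ℕ) : MeasurePreserving (Cs M p) (PP h (Ed M)) (PP h (Ed M)) :=
  RGP.mp_pat h (φ := Prod.map (· + (Pi.single 0 (p : ZMod (M 0)) : Sp M)) id)
    ((add_left_injective _).prodMap injective_id) fun _ => false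

/-- unnormalised expectations on the skew torus without electric flux; `M 0 = 2 p` -/
def sk [Fintype Zc] (b : ℝ) (M : Fin 3 → ℕ) [∀ j, NeZero (M j)] (p : ℕ) (z : Zc) (F : Fd → ℝ) : ℝ :=
  ∫ x, ker h 0 (0 + p) (fun w => F (liftz (tz 1 z) w) *
    wt (WP (WWz (M := M) b (tz 1 z)) (chm M)) 0 p w) x (Cs M p x) ∂PP h (Ed M)

end Pool.Agent.Lib.MP_7f377f_mp.YM9
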