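import Pool.Agent.Lib.MP_7f377f_mp.G.CyC

/-! Reflection positivity for an involution of the variables, with an average over labels. -/

noncomputable section

set_option linter.unusedSectionVars false
variable [Pool.Agent.Lib.MP_7f377f_mp.GD]

namespace Pool.Agent.Lib.MP_7f377f_mp.YM9

open MeasureTheory Function Filter Finset RGP
open Y6 (tc cp sum_cp bm_of_cont)

variable {κ A : Type} [Fintype κ] [Fintype A] {b : ℝ} (hb : 0 ≤ b)
include hb

theorem exp_psdA {X : Type} [TopologicalSpace X] [CompactSpace X] [SecondCountableTopology X]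
    [MeasurableSpace X] [OpensMeasurableSpace X] (ν : Measure X) [IsFiniteMeasure ν]
    {F : X → ℝ} (cF : Continuous F) {Φ : A → X → κ → SU2} (cΦ : ∀ a, Continuous (Φ a)) :
    0 ≤ ∑ a, ∑ a', ∫ q : X × X, F q.1 * F q.2 *
      Real.exp (-b * ∑ e, (2 - tc (Φ a q.1 e * (Φ a' q.2 e)⁻¹))) ∂ν.prod ν := by
  let x : A → X → κ × Fin GD.n × Fin GD.n → ℝ := fun a p i => √(2 * b) * cp i.2 (Φ a p i.1)
  have cx : ∀ a, Continuous (x a) := fun a => by
    have := cΦ a
    fun_prop
  have e : ∀ a a' u v, -b * ∑ e, (2 - tc (Φ a u e * (Φ a' v e)⁻¹)) =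
      ∑ i, x a u i * x a' v i + -b * ∑ _e : κ, 2 * (GD.t ^ 2 * GD.n) := fun a a' u v => by
    simp only [x, mul_mul_mul_comm √(2 * b), Real.mul_self_sqrt (show 0 ≤ 2 * b by positivity),
      Fintype.sum_prod_type (γ := ℝ) (α₁ := κ), sum_cp, mul_sum _ _ (-b), ← sum_add_distrib]
    refine sum_congr rfl fun _ _ => ?_
    simp only [← mul_sum]
    ring
  simp only [e, Real.exp_add, ← mul_assoc _ _ (Real.exp (-b * _)), integral_mul_const, ← sum_mul]
  refine mul_nonneg (ge_of_tendsto' (tendsto_finsetSum _ fun a _ => tendsto_finsetSum _ fun a' _ =>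
    Coul.ker_tendsto ν cF (u := fun q => ∑ i, x a q.1 i * x a' q.2 i) (by
      have := cx a
      have := cx a'
      fun_prop)) fun m => ?_) (Real.exp_pos _).le
  simp only [Coul.ker_pow_eq ν cF (cx _) (cx _), sum_comm (s := univ) (t := range m), ← sum_div]
  refine sum_nonneg fun k _ => div_nonneg ?_ k.factorial.cast_nonneg
  simp only [sum_comm (s := (univ : Finset A)) (t := (univ : Finset (Fin k → _))), ← sum_mul_sum]
  exact sum_nonneg fun p _ => mul_self_nonneg _

variable [MeasurableSpace SU2] [BorelSpace SU2] (h : Measure SU2) [h.IsHaarMeasure]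
  [IsProbabilityMeasure h]

theorem rp_abs {E : Type} [Countable E] {σ : E → E} (hσ : Involutive σ) {P : Set E}
    (hP : ∀ e ∈ P, σ e ∈ P → σ e = e) {f : (E → SU2) → ℝ} (cf : Continuous f) (df : DependsOn f P)
    {Φ : A → (E → SU2) → κ → SU2} (cΦ : ∀ a, Continuous (Φ a)) (dΦ : ∀ a, DependsOn (Φ a) P) :
    0 ≤ ∑ a, ∑ a', ∫ V, f V * f (V ∘ σ) *
      Real.exp (-b * ∑ x, (2 - tc (Φ a V x * (Φ a' (V ∘ σ) x)⁻¹))) ∂PP h E := by
  obtain ⟨O, hO⟩ : ∃ O : Set E, ∀ e, e ∈ O ↔ σ e = e := ⟨{e | σ e = e}, fun _ => Iff.rfl⟩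
  have cm : Continuous fun q : (E → SU2) × (E → SU2) => mix O q.1 q.2 := continuous_pi fun e => by
    unfold mix
    split_ifs <;> fun_prop
  obtain ⟨K, hK⟩ : ∃ K : A → A → (E → SU2) × (E → SU2) → ℝ, ∀ a a' U V, K a a' (U, V) = f U * f V *
    Real.exp (-b * ∑ x, (2 - tc (Φ a U x * (Φ a' V x)⁻¹))) := ⟨fun a a' q => f q.1 * f q.2 *
      Real.exp (-b * ∑ x, (2 - tc (Φ a q.1 x * (Φ a' q.2 x)⁻¹))), fun _ _ _ _ => rfl⟩
  have cK : ∀ a a', Continuous (K a a') := fun a a' => by
    have := cΦ a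
    have := cΦ a'
    rw [show K a a' = fun q => _ from funext fun q => hK a a' q.1 q.2]
    fun_prop
  have bK : ∀ a a', BM fun q : (E → SU2) × (E → SU2) × (E → SU2) =>
      K a a' (mix O q.1 q.2.1, mix O q.1 q.2.2) := fun a a' => bm_of_cont ((cK a a').comp
    ((cm.comp (continuous_fst.prodMk continuous_snd.fst)).prodMk
      (cm.comp (continuous_fst.prodMk continuous_snd.snd))))
  have mp := (mp_mix h O).comp ((MeasurePreserving.id (PP h E)).prod ((mp_mix h P).comp
    ((MeasurePreserving.id (PP h E)).prod (mp_pat h hσ.injective fun _ => false))))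
  have key : ∀ a a', ∫ V, K a a' (V, V ∘ σ) ∂PP h E =
      ∫ W, ∫ q : (E → SU2) × (E → SU2), K a a' (mix O W q.1, mix O W q.2) ∂(PP h E).prod (PP h E)
        ∂PP h E := fun a a' => by
    rw [← integral_prod _ ((bK a a').integrable _), ← int_mp mp (f := fun V => K a a' (V, V ∘ σ))
      ((cK a a').comp (by fun_prop)).measurable]
    refine congrArg _ (funext fun ⟨W, U, U'⟩ => ?_)
    have e1 : ∀ e ∈ P, mix O W (mix P U (U' ∘ σ)) e = mix O W U e := fun e he => by
      simp only [mix, if_pos he]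
    have e2 : ∀ e ∈ P, (mix O W (mix P U (U' ∘ σ)) ∘ σ) e = mix O W U' e := fun e he => by
      by_cases c : σ e = e
      · rw [comp_apply, c, mix_of_mem ((hO e).2 c), mix_of_mem ((hO e).2 c)]
      · rw [comp_apply, mix_of_not fun c' => c (((hO _).1 c').symm.trans (hσ e)),
          mix_of_not fun c' => c (hP e he c'), mix_of_not (mt (hO e).1 c), comp_apply, hσ e]
    change K a a' (mix O W (mix P U (U' ∘ σ)), mix O W (mix P U (U' ∘ σ)) ∘ σ) = _
    rw [hK, hK, df e1, df e2, dΦ a e1, dΦ a' e2]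
  have i : ∀ a a', BM fun W => ∫ q : (E → SU2) × (E → SU2), K a a' (mix O W q.1, mix O W q.2)
    ∂(PP h E).prod (PP h E) := fun a a' => (bK a a').param _
  simp only [← hK, key]
  simp only [← integral_finsetSum _ fun a' _ => (i _ a').integrable (PP h E)]
  rw [← integral_finsetSum _ fun a _ => (BM.sum fun a' _ => i a a').integrable _]
  refine integral_nonneg fun W => ?_
  have cW : Continuous (mix O W) := cm.comp (f := fun U => (W, U)) (by fun_prop)
  simp only [hK]
  exact exp_psdA hb (PP h E) (F := fun U => f (mix O W U)) (Φ := fun a U => Φ a (mix O W U))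
    (cf.comp cW) fun a => (cΦ a).comp cW

end Pool.Agent.Lib.MP_7f377f_mp.YM9
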