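import Pool.Agent.Lib.MP_7f377f_mp.G.TwGa

/-! Reflection positivity of the skew torus. -/

noncomputable section

set_option linter.unusedSectionVars false
variable [Pool.Agent.Lib.MP_7f377f_mp.GD]

namespace Pool.Agent.Lib.MP_7f377f_mp.YM9

open MeasureTheory Function Finset RGP Ch
open RG.Q4 (Zc)
open Y6 (bm_of_cont)

variable {M : Fin 3 → ℕ} [∀ j, NeZero (M j)] {p k : ℕ}

namespace Sk

variable (hM : M 0 = 2 * p)

/-- the site at the time `t` -/
def pk (t : ℤ) (s : Sp M) : Tk (M 0) p (M 1) (M 2) := (t - s 0, cs hM (s 0), s 1, s 2)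

/-- the link which carries a variable of the chain -/
def fk (i : Ix (Ed M) (Sp M)) : Tk (M 0) p (M 1) (M 2) × Fin 4 :=
  Sum.elim (fun e => (pk hM i.1 e.1, e.2.succ)) (fun s => (pk hM i.1 s, 0)) i.2

theorem pk_t (t : ℤ) (s : Sp M) : pk hM (t + 1) s = pk hM t s + uk 0 := by
  simp [pk, uk, sub_add_eq_add_sub]

theorem pk_s (t : ℤ) (s : Sp M) (j : Fin 3) :
    pk hM t (s + Pi.single j 1) = pk hM t s + uk j.succ := by
  fin_cases j <;> simp [pk, uk, sub_eq_add_neg, add_assoc, add_comm]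

include hM in
theorem pp : (p : ZMod (M 0)) + p = 0 := by rw [← Nat.cast_add, ← two_mul, ← hM, ZMod.natCast_self]

theorem pk_p (s : Sp M) : pk hM p s = pk hM 0 (s + Pi.single 0 (p : ZMod (M 0))) := by
  simp [pk, ← eq_neg_of_add_eq_zero_left (pp hM), sub_eq_add_neg]

theorem pk_inj {t t' : ℤ} {s s' : Sp M} (h0 : 0 ≤ t) (h1 : t < p) (h0' : 0 ≤ t') (h1' : t' < p)
    (e : pk hM t s = pk hM t' s') : t = t' ∧ s = s' := by
  simp only [pk, Prod.mk.injEq] at e
  have e1 := congrArg (cs hM) e.1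
  rw [map_sub, map_sub, e.2.1, sub_left_inj, map_intCast, map_intCast, ZMod.intCast_eq_intCast_iff',
    Int.emod_eq_of_lt h0 h1, Int.emod_eq_of_lt h0' h1'] at e1
  subst e1
  refine ⟨rfl, funext fun j => ?_⟩
  fin_cases j
  exacts [sub_right_inj.1 e.1, e.2.2.1, e.2.2.2]

theorem sum_pk [NeZero p] (f : Tk (M 0) p (M 1) (M 2) → ℝ) :
    ∑ t ∈ range p, ∑ s, f (pk hM t s) = ∑ x, f x := by
  have : Bijective fun q : Fin p × Sp M => pk hM (q.1 : ℕ) q.2 :=
    (Fintype.bijective_iff_injective_and_card _).2 ⟨fun q q' e => by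
      have := pk_inj hM (by omega) (by omega) (by omega) (by omega) e
      exact Prod.ext (Fin.ext (by omega)) this.2, by
        simp [Fin.prod_univ_three, mul_left_comm, mul_assoc]⟩
  rw [← this.sum_comp, Fintype.sum_prod_type, sum_range fun t => ∑ s, f (pk hM t s)]

theorem sw_lift (z : Zc) (V : Tk (M 0) p (M 1) (M 2) × Fin 4 → SU2) :
    sw (liftz (tz 1 z) (V ∘ fk hM)) = liftz (tz 1 z) ((V ∘ sg hM) ∘ fk hM) := by
  funext ⟨x, i⟩
  have e : ∀ y i, fk hM (ix M (y, i)) = (pk hM (y 0) (sp M y), i) := fun y i =>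
    Fin.cases rfl (fun _ => rfl) i
  simp only [sw, prm, liftz, lift, comp_apply, e, sg, zs_tz, coc9_tz, one_zpow, ite_self]
  congr 2
  · fin_cases i <;> rfl
  · simp [pk, sx, sp, Equiv.swap_apply_def]

theorem w2z_fk (z : Zc) (V : Tk (M 0) p (M 1) (M 2) × Fin 4 → SU2) (t : ℤ) :
    w2z (tz 1 z) (sl t (V ∘ fk hM)) = ∑ s, (pa 1 V (pk hM t s) 1 2 + pa 1 V (pk hM t s) 1 3 +
      pa (cz z (pk hM t s)) V (pk hM t s) 2 3) := sum_congr rfl fun s _ => by
  have e : ∀ s j, sl t (V ∘ fk hM) (s, j) = V (pk hM t s, j.succ) := fun _ _ => rfl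
  simp only [e, pk_s]
  simp [Fin.sum_univ_three, czs, tz, pa, hl]
  rfl

variable [MeasurableSpace SU2] [BorelSpace SU2]

theorem act_fk (ζ z : Zc) (V : Tk (M 0) p (M 1) (M 2) × Fin 4 → SU2) {t : ℕ} (ht : t < p)
    {w : Ix (Ed M) (Sp M) → SU2} (hw : w = put p (chm M ζ * sl p (V ∘ fk hM)) (V ∘ fk hM)) :
    w2z (tz 1 z) (sl t w) + dt (ga (tl t w) (sl (t + 1) w)) (sl t w) = ∑ s, ad ζ z V (pk hM t s) := by
  have e1 : sl t w = sl t (V ∘ fk hM) := by rw [hw, sl_put_ne (by omega)]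
  have e2 : ∀ s j, sl (t + 1) w (s, j) = zv (if j = 0 ∧ (pk hM t s).1 = p ∧ (pk hM t s).2.1 = -1
      then ζ else 1) * V (pk hM t s + uk 0, j.succ) := fun s j => by
    have c : (pk hM t s).1 = p ∧ (pk hM t s).2.1 = -1 ↔ (t + 1 : ℤ) = p ∧ s 0 = -1 := by
      constructor
      · rintro ⟨a1, a2⟩
        have := pk_inj hM (t := t) (t' := p - 1) (s := s) (s' := update s 0 (-1)) (by omega)
          (by omega) (by omega) (by omega) (Prod.ext (a1.trans (by simp [pk]))
            (Prod.ext (a2.trans (by simp [pk])) (by simp [pk])))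
        exact ⟨by omega, (congrFun this.2 0).trans (update_self ..)⟩
      · rintro ⟨a1, a2⟩
        simp [pk, a2, ← Int.cast_natCast (R := ZMod (M 0)) p, ← a1]
    simp only [← pk_t, c]
    by_cases a : (t + 1 : ℤ) = p
    · rw [hw, a, sl_put]
      fin_cases j <;> simp [chm, chi, tz, sl, fk]
    · rw [hw, sl_put_ne a]
      simp [a, zv_one, sl, fk]
  have e3 : ∀ s, tl t w s = V (pk hM t s, 0) := fun s => by rw [hw, tl_put]; rfl
  have e4 : ∀ s j, sl t (V ∘ fk hM) (s, j) = V (pk hM t s, j.succ) := fun _ _ => rfl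
  rw [e1, w2z_fk, dt, Fintype.sum_prod_type, ← sum_add_distrib]
  refine sum_congr rfl fun s _ => ?_
  rw [ad, add_right_inj]
  simp only [ga, e2, e3, e4, pk_s, ← mul_assoc, zv_comm, Fin.sum_univ_three]
  simp [pa, hl, mul_assoc]

end Sk

open Sk

variable [MeasurableSpace SU2] [BorelSpace SU2] (h : Measure SU2) [h.IsHaarMeasure]
  [IsProbabilityMeasure h] [Fintype Zc] {b : ℝ}

theorem sk_rp (hb : 0 ≤ b) (hM : M 0 = 2 * p) (z : Zc) {F : Fd → ℝ} (cF : Continuous F)
    (dF : DependsOn F (Hd ∩ Sp2 k)) (hk : k + 1 < p) :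
    0 ≤ sk h b M p z fun U => F (sw U) * F U := by
  have : NeZero p := ⟨by omega⟩
  have W := wt_WWz (M := M) (tz 1 z) h b
  have cG : Continuous fun U => F (sw U) * F U := by fun_prop
  have dG : DependsOn (fun U => F (sw U) * F U) (Sp2 k) := DependsOn.mul'
    (fun _ _ H => dF fun _ he => H _ ⟨he.2.2.2.1, he.2.2.2.2, he.2.1, he.2.2.1⟩)
    (dF.mono Set.inter_subset_right)
  have bG := (bm_of_cont cG).comp (meas_liftz (M := M) (tz 1 z))
  have dL := dep_liftz (M := M) (tz 1 z) (a := 0) (b := (k + 1 : ℕ))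
    (dG.mono fun _ e => ⟨e.1, e.2.1.trans_lt (by omega)⟩)
  have bH := bG.mul (W.bm_wt 0 p)
  have mC := (mp_Cs h M p).measurable
  have e1 : ∀ ζ, ∫ x, ker h 0 (0 + p) (fun w => F (sw (liftz (tz 1 z) w)) * F (liftz (tz 1 z) w) *
      wt (WWz b (tz 1 z)) 0 p w) x (chm M ζ * Cs M p x) ∂PP h (Ed M) =
      ∫ V, F (liftz (tz 1 z) ((V ∘ Sk.sg hM) ∘ fk hM)) * F (liftz (tz 1 z) (V ∘ fk hM)) *
        Real.exp (-b * ∑ x, ad ζ z V x) ∂PP h _ := fun ζ => by
    let φ : Ix (Ed M) (Sp M) → Ix (Ed M) (Sp M) := fun i => if lev i = 2 * p then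
      (0, i.2.map (Prod.map (· + Pi.single 0 (p : ZMod (M 0))) id) id) else i
    have f1 : ∀ i, fk hM (φ i) = fk hM i := fun ⟨t, i⟩ => by
      simp only [φ]
      split_ifs with c
      · rcases i with i | i <;> simp only [lev, Sum.elim_inl, Sum.elim_inr] at c
        · simp [fk, show t = p by omega, pk_p]
        · omega
      · rfl
    have f2 : ∀ i ∈ Win 0 p, 0 ≤ (φ i).1 ∧ (φ i).1 < p := fun ⟨t, i⟩ hi => by
      simp only [φ]
      split_ifs with c <;> rcases i with i | i <;>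
        simp only [Win, lev, Set.mem_ofPred_eq, Sum.elim_inl, Sum.elim_inr] at hi c ⊢ <;> omega
    have key := int_pat h (F := fun w => (fun w => F (sw (liftz (tz 1 z) w)) * F (liftz (tz 1 z) w) *
      wt (WWz b (tz 1 z)) 0 p w) (put p (chm M ζ * sl p w) w)) (bH.comp
        (meas_put' _ ((meas_sl p).const_mul _) measurable_id)).meas (D := Win 0 p)
      (fun w w' H => DependsOn.mul' (dL.mono (Win.mono le_rfl (by omega : _ ≤ (p : ℤ))))
        (dep_wt 0 p le_rfl (zero_add _).le) fun i hi => by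
          rw [show sl p w = sl p w' from funext fun e => H _ (by simp [Win, lev])]
          exact put_congr _ fun _ => H i hi)
      (φ := φ) (s := fun _ => false) (φ' := fk hM) (s' := fun _ => false)
      (fun i hi j hj => ⟨fun e => by rw [← f1, e, f1], fun e => by
        rw [← f1 i, ← f1 j] at e
        have a := f2 i hi
        have c := f2 j hj
        generalize φ i = u at *
        generalize φ j = v at *
        obtain ⟨t, u | u⟩ := u <;> obtain ⟨t', v | v⟩ := v <;>
          simp only [fk, Sum.elim_inl, Sum.elim_inr, Prod.mk.injEq, Fin.succ_ne_zero,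
            (Fin.succ_ne_zero _).symm, and_false, Fin.succ_inj] at e
        · have := pk_inj hM a.1 a.2 c.1 c.2 e.1
          exact Prod.ext this.1 (congrArg Sum.inl (Prod.ext this.2 e.2))
        · have := pk_inj hM a.1 a.2 c.1 c.2 e.1
          exact Prod.ext this.1 (congrArg Sum.inr this.2)⟩) fun _ _ _ _ _ => rfl
    refine Eq.trans ?_ (key.trans (congrArg _ (funext fun V => ?_)))
    · refine Eq.trans ?_ (int_put h ((bH.comp (meas_put' p ((meas_sl p).const_mul _)
        measurable_id)).comp (measurable_pat φ _)) 0).symm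
      simp only [ker, zero_add, put_comm (show 0 ≠ (p : ℤ) by omega), id]
      refine congrArg _ (funext fun x => congrArg _ (funext fun w => ?_))
      rw [show sl p (pat φ (fun _ => false) (put 0 x w)) = Cs M p x from funext fun e => by
        simp [sl, pat, φ, put, Cs, lev, Prod.map], show put p (chm M ζ * Cs M p x) (pat φ (fun _ => false)
          (put 0 x w)) = put p (chm M ζ * Cs M p x) (put 0 x w) from funext fun i =>
            put_congr _ fun c => by simp only [pat, φ, if_neg c, sg_false]]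
    · change F (sw (liftz _ (put p (chm M ζ * sl p (V ∘ fk hM)) (V ∘ fk hM)))) *
        F (liftz _ (put p (chm M ζ * sl p (V ∘ fk hM)) (V ∘ fk hM))) *
        wt _ 0 p (put p (chm M ζ * sl p (V ∘ fk hM)) (V ∘ fk hM)) = _
      have := dL (x := put p (chm M ζ * sl p (V ∘ fk hM)) (V ∘ fk hM)) (y := V ∘ fk hM)
        fun i hi => put_of_ne (by have := hi.2; omega) _ _
      simp only at this
      rw [this, sw_lift,
        wt_ends _ b (by
          rw [zero_add, sl_put, sl_put_ne (by omega), ← chi_tz ζ 1, w2z_chi, w2z_fk, w2z_fk]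
          simp only [pk_p]
          exact Equiv.sum_comp (Equiv.addRight _) fun s => pa 1 V (pk hM 0 s) 1 2 +
            pa 1 V (pk hM 0 s) 1 3 + pa (cz z (pk hM 0 s)) V (pk hM 0 s) 2 3), ← sum_pk hM]
      simp only [zero_add]
      rw [sum_congr rfl fun t ht => act_fk hM ζ z V (mem_range.1 ht) rfl]
  obtain ⟨q, rfl⟩ : ∃ q, p = q + 1 := ⟨p - 1, by omega⟩
  have g := W.gk_obs bG 0 q
  simp only [sk, ker_WP W (WWz_chm b _) bG (liftz_tm _ (dG.mono fun _ e => e.2.2) (by omega)),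
    integral_const_mul]
  rw [integral_finsetSum _ fun ζ _ => BM.integrable ⟨g.meas_comp measurable_id' (by fun_prop),
    g.bdd.imp fun _ e _ => e.2 _ _⟩ _]
  simp only [e1]
  refine mul_nonneg (inv_pos.2 card_pos).le (rp hM h hb z
    (g := fun V => F (liftz (tz 1 z) (V ∘ fk hM))) (cF.comp (continuous_pi fun e => by
      unfold liftz lift
      fun_prop)) fun U V H => dF fun ⟨x, i⟩ ⟨a, c⟩ => congrArg (_ * ·) (H _ ?_))
  have e : fk hM (ix M (x, i)) = (pk hM (x 0) (sp M x), i) := Fin.cases rfl (fun _ => rfl) i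
  obtain ⟨a1, a2⟩ := a
  obtain ⟨c1, c2, c3, c4⟩ := c
  have v : ((pk hM (x 0) (sp M x)).1.val : ℤ) = x 0 - x 1 := by
    change ((((x 0 : ℤ) : ZMod (M 0)) - ((x 1 : ℤ) : ZMod (M 0))).val : ℤ) = _
    rw [← Int.cast_sub, ZMod.val_intCast, Int.emod_eq_of_lt] <;> simp only at * <;> omega
  rw [e]
  exact ⟨by simp only at *; omega, fun _ => by simp only at *; omega, fun e => by
    have := a2 e
    simp only at *
    omega⟩

end Pool.Agent.Lib.MP_7f377f_mp.YM9
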