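import Pool.Agent.Lib.MP_7f377f_mp.G.TwG2

/-! The skew tori converge to the state of the plane, which is therefore reflection positive for
the diagonal mirror. -/

noncomputable section

set_option linter.unusedSectionVars false

namespace Pool.Agent.Lib.MP_7f377f_mp.Ch

open MeasureTheory Filter Topology Pool.Agent.Lib.MP_2d4879_an Hm RGP
open scoped InnerProductSpace

section kernels
variable {α : Type} [MeasurableSpace α] {μ : Measure α} [IsProbabilityMeasure μ] {k f : α → α → ℝ}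
  {hk : GK k} {l r : ℝ} {e : Lp ℝ 2 μ} {C : α → α} (hC : MeasurePreserving C μ μ)
include hC

theorem bf_cmp {u : α → ℝ} (hu : BF u) : BF fun x => u (C x) :=
  ⟨hu.meas.comp hC.measurable, hu.bdd.imp fun _ h _ => h _⟩

theorem cl_cmp {u : α → ℝ} (hu : BF u) : (bf_cmp hC hu).cl μ = cmp hC (hu.cl μ) := by
  refine Lp.ext ?_
  filter_upwards [(bf_cmp hC hu).cl_ae (μ := μ), cmp_ae hC (hu.cl μ),
    hC.quasiMeasurePreserving.ae (hu.cl_ae (μ := μ))] with x h1 h2 h3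
  rw [h1, h2, h3]

/-- convergence of twisted traces to the vacuum expectation -/
theorem tr_closeC (V : Vac μ hk l r e) (he : cmp hC e = e) (hs : ∀ x y, k x y = k y x) (hf : GK f)
    {a : ℕ} (h : ∀ x y, |f x y| ≤ pw μ k a x y) (N s : ℕ) :
    |∫ x, cv μ f (pw μ k (2 * N + 1 + s)) x (C x) ∂μ - l ^ (2 * N + 2 + s) * ⟪e, hf.op μ e⟫_ℝ| ≤
      r ^ s * l ^ (a + 1 + s) * ∫ x, pw μ k (2 * N + 1) x x ∂μ := by
  have hl := V.pos
  have hr := V.r0
  have hN := hk.pw (μ := μ) N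
  have hsN := pw_symm (μ := μ) hk hs N
  have hsy := hk.symm_op (μ := μ) hs
  have bφ := bf_act hN e
  have bκ := bf_norm (μ := μ) hN hsN
  have a0 : ∀ x y, pw μ k (2 * N + 1 + s) y x = ⟪hN.row μ y, (hk.op μ ^ s) (hN.row μ x)⟫_ℝ := by
    intro x y
    have : ((hk.op μ ^ N : _ →L[ℝ] _) : Lp ℝ 2 μ →ₗ[ℝ] Lp ℝ 2 μ).IsSymmetric := by
      rw [ContinuousLinearMap.toLinearMap_pow]; exact hsy.pow N
    have e1 := this (hk.row μ y) ((hk.op μ ^ s) ((hk.op μ ^ N) (hk.row μ x)))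
    rw [show 2 * N + 1 + s = N + (s + N) + 1 by ring, pw_inner hk hs, pow_add, pow_add,
      mul_apply_eq_comp, mul_apply_eq_comp, row_pw hk hs y N, row_pw hk hs x N]
    exact e1.symm
  have a1 : l ^ (2 * N + 2 + s) * ⟪e, hf.op μ e⟫_ℝ =
      ∫ x, ∫ y, l ^ s * (⟪hN.row μ (C x), e⟫_ℝ * f x y * ⟪hN.row μ y, e⟫_ℝ) ∂μ ∂μ := by
    simp only [integral_const_mul]
    rw [← (bf_cmp hC bφ).inner_op bφ hf, cl_cmp hC bφ, cl_act, op_pw_eq hk, V.pow_e, map_smul,
      map_smul, he, inner_smul_left, inner_smul_right]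
    simp only [conj_trivial]; ring
  have g0 := hk.pw (μ := μ) (2 * N + 1 + s)
  have g1 := gk_mul hf (g := fun x y => pw μ k (2 * N + 1 + s) y (C x))
    ⟨g0.meas_comp measurable_snd (hC.measurable.comp measurable_fst),
      g0.bdd.imp fun _ h => ⟨h.1, fun _ _ => h.2 _ _⟩⟩
  have g2 := gk_mul (BF.const (α := α) (l ^ s)).gk_fst
    (gk_mul (gk_mul (bf_cmp hC bφ).gk_fst hf) bφ.gk_snd)
  have g3 := gk_mul (BF.const (α := α) ((r * l) ^ s)).gk_fst
    (gk_mul (gk_mul (bf_cmp hC bκ).gk_fst (hk.pw (μ := μ) a)) bκ.gk_snd)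
  have a2 : ∫ x, ∫ y, (r * l) ^ s * (‖hN.row μ (C x)‖ * pw μ k a x y * ‖hN.row μ y‖) ∂μ ∂μ ≤
      r ^ s * l ^ (a + 1 + s) * ∫ x, pw μ k (2 * N + 1) x x ∂μ := by
    simp only [integral_const_mul]
    have b1 : ∫ x, pw μ k (2 * N + 1) x x ∂μ = ‖bκ.cl μ‖ ^ 2 := by
      rw [bκ.norm_cl]
      congr 1; ext x
      rw [← pw_one_diag hN hsN, pw_pw hk]; congr 1; ring
    rw [← (bf_cmp hC bκ).inner_op bκ (hk.pw a), cl_cmp hC bκ, b1, op_pw_eq hk]
    calc _ ≤ (r * l) ^ s * (‖cmp hC (bκ.cl μ)‖ * (l ^ (a + 1) * ‖bκ.cl μ‖)) :=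
          mul_le_mul_of_nonneg_left ((real_inner_le_norm _ _).trans
            (mul_le_mul_of_nonneg_left (V.nrm _ _) (norm_nonneg _))) (by positivity)
      _ = _ := by rw [LinearIsometry.norm_map]; ring
  refine le_trans ?_ a2
  unfold cv
  rw [a1, ← integral_sub (bf_int g1).int (bf_int g2).int]
  refine le_trans abs_integral_le_integral_abs (integral_mono
    ((bf_int g1).int.sub (bf_int g2).int).abs (bf_int g3).int fun x => ?_)
  simp only
  rw [← integral_sub (g1.int_row x) (g2.int_row x)]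
  refine le_trans abs_integral_le_integral_abs (integral_mono
    ((g1.int_row x).sub (g2.int_row x)).abs (g3.int_row x) fun y => ?_)
  have b2 : f x y * pw μ k (2 * N + 1 + s) y (C x) -
      l ^ s * (⟪hN.row μ (C x), e⟫_ℝ * f x y * ⟪hN.row μ y, e⟫_ℝ) = f x y * ⟪hN.row μ y,
        (hk.op μ ^ s) (hN.row μ (C x)) - (l ^ s * ⟪e, hN.row μ (C x)⟫_ℝ) • e⟫_ℝ := by
    rw [a0, inner_sub_right, inner_smul_right, real_inner_comm e (hN.row μ (C x))]; ring
  simp only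
  rw [b2, abs_mul]
  calc _ ≤ pw μ k a x y * (‖hN.row μ y‖ * ((r * l) ^ s * ‖hN.row μ (C x)‖)) :=
        mul_le_mul (h x y) ((abs_real_inner_le_norm _ _).trans
          (mul_le_mul_of_nonneg_left (V.gap _ _) (norm_nonneg _))) (abs_nonneg _)
          ((abs_nonneg _).trans (h x y))
    _ = _ := by ring

end kernels

variable {G : Type} [MeasurableSpace G] {μ : Measure G} [IsProbabilityMeasure μ] [Group G]
  [MeasurableMul₂ G] [MeasurableInv G] [μ.IsInvInvariant] [μ.IsMulRightInvariant] {E S : Type}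
  {W : (E → G) → (S → G) → (E → G) → ℝ} {F : (Ix E S → G) → ℝ} {k : ℕ}

theorem tw_close (hW : Wt μ W) {l r : ℝ} {e : Lp ℝ 2 (PP μ E)} (V : Vac (PP μ E) hW.gk l r e)
    {C : (E → G) → E → G} (hC : MeasurePreserving C (PP μ E) (PP μ E)) (he : cmp hC e = e)
    (bF : BM F) (h1 : ∀ w, |F w| ≤ 1) (dF : DependsOn F (Win 0 (k + 1 : ℕ))) (N s : ℕ) :
    |(∫ x, ker μ 0 (0 + (k + 1 + (2 * N + 2 + s) : ℕ)) (fun w => F w *
      wt W 0 (k + 1 + (2 * N + 2 + s)) w) x (C x) ∂PP μ E) / l ^ (k + 1 + (2 * N + 2 + s)) -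
      vac W l e 0 k F| ≤ r ^ s * (tor μ W 0 (2 * N + 2) (fun _ => 1) / l ^ (2 * N + 2)) := by
  have hl := V.pos
  have hk : ∀ x y, |ker μ 0 (0 + (k + 1 : ℕ)) (fun w => F w * wt W 0 (k + 1) w) x y| ≤
      pw (PP μ E) (KK μ W) k x y := fun x y => by
    rw [← hW.ker_wt k 0]
    refine ker_abs_le μ (bF.mul (hW.bm_wt _ _)) (hW.bm_wt _ _) (fun w => ?_) x y
    rw [abs_mul, abs_of_pos (hW.wt_pos _ _ _)]
    exact mul_le_of_le_one_left (hW.wt_pos _ _ _).le (h1 w)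
  have h2 := tr_closeC hC V he hW.symm (hW.gk_obs bF 0 k) hk N s
  have h3 := hW.ok_mul (a := 0) (k := k) (k' := 2 * N + 1 + s) bF (BM.const 1) rfl
    (dF.mono (Win.mono le_rfl (by omega))) fun _ _ _ => rfl
  simp only [one_mul, mul_one, hW.ker_wt (2 * N + 1 + s)] at h3
  rw [← h3, ← hW.tor_one (a := 0),
    show k + 1 + (2 * N + 1 + s) + 1 = k + 1 + (2 * N + 2 + s) by ring] at h2
  have l1 : 0 < l ^ (k + 1 + (2 * N + 2 + s)) := by positivity
  rw [hW.vac_eq bF]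
  have h4 := div_le_div_of_nonneg_right h2 l1.le
  rw [← abs_of_pos l1, ← abs_div, abs_of_pos l1] at h4
  refine le_of_eq_of_le (congrArg _ ?_) (h4.trans_eq ?_)
  · field_simp
    ring
  · field_simp
    ring

end Pool.Agent.Lib.MP_7f377f_mp.Ch

variable [Pool.Agent.Lib.MP_7f377f_mp.GD]

namespace Pool.Agent.Lib.MP_7f377f_mp.YM9

open MeasureTheory Filter Topology Function Real
open RGP (BM PP)
open Ch (Win vac tor WP)
open RG.Q4 (Zc)
open Y6 (bm_of_cont)

section shift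
variable {M : Fin 3 → ℕ} [∀ j, NeZero (M j)] (z : Zc) (p : ℕ)

theorem w2z_Cs (x : Ed M → SU2) : w2z (tz 1 z) (Cs M p x) = w2z (tz 1 z) x := by
  refine Fintype.sum_equiv (Equiv.addRight (Pi.single 0 (p : ZMod (M 0)))) _ _ fun s => ?_
  refine Finset.sum_congr rfl fun i _ => Finset.sum_congr rfl fun j _ =>
    if_ctx_congr Iff.rfl (fun hij => ?_) fun _ => rfl
  have e : czs (tz 1 z) (s + Pi.single 0 (p : ZMod (M 0))) i j = czs (tz 1 z) s i j := by
    rcases eq_or_ne i 0 with rfl | hi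
    · have : tz 1 z (Fin.succ 0) j.succ = 1 := by simp [tz]
      simp only [czs, this, ite_self]
    · have hj : j ≠ 0 := (Fin.pos_iff_ne_zero.1 ((Fin.zero_le i).trans_lt hij))
      simp only [czs, Pi.add_apply, Pi.single_eq_of_ne hi, Pi.single_eq_of_ne hj, add_zero]
  simp only [Equiv.coe_addRight, e, Cs, add_right_comm s _ (Pi.single 0 (p : ZMod (M 0)))]

theorem WWz_Cs (b : ℝ) (x : Ed M → SU2) (g : Sp M → SU2) (y : Ed M → SU2) :
    WWz b (tz 1 z) (Cs M p x) (fun s => g (s + Pi.single 0 (p : ZMod (M 0)))) (Cs M p y) =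
      WWz b (tz 1 z) x g y := by
  have e : dt (ga (fun s => g (s + Pi.single 0 (p : ZMod (M 0)))) (Cs M p y)) (Cs M p x) =
      dt (ga g y) x := Fintype.sum_equiv
    ((Equiv.addRight (Pi.single 0 (p : ZMod (M 0)))).prodCongr (Equiv.refl _)) _ _ fun e => by
      simp only [ga, Cs, add_right_comm e.1 _ (Pi.single 0 (p : ZMod (M 0)))]
      rfl
  simp only [WWz, w2z_Cs, e]

variable [MeasurableSpace SU2] [BorelSpace SU2] (h : Measure SU2) [h.IsHaarMeasure]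
  [IsProbabilityMeasure h]

theorem KK_Cs (b : ℝ) (x y : Ed M → SU2) :
    Ch.KK h (WWz b (tz 1 z)) (Cs M p x) (Cs M p y) = Ch.KK h (WWz b (tz 1 z)) x y := by
  rw [Ch.KK, Ch.KK, ← RGP.int_mp (RGP.mp_pat h (φ := (· + (Pi.single 0 (p : ZMod (M 0)) : Sp M)))
    (add_left_injective _) fun _ => false) (bm_WWz _ b _ _).meas]
  exact congrArg _ (funext fun g => WWz_Cs z p b x g y)

end shift

variable [MeasurableSpace SU2] [BorelSpace SU2] (h : Measure SU2) [h.IsHaarMeasure]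
  [IsProbabilityMeasure h] [Fintype Zc] {b : ℝ}

theorem sk_near (hb : 0 ≤ b) {n R : ℕ} [∀ j, NeZero (![R, n, n] j)] (z : Zc) :
    ∃ l q, Fs.Sp (fun T => Z0 h b n z T R) l q ∧ ∀ ν l', Vt h b ![R, n, n] (tz 1 z) ν l' →
      ∀ (F : Fd → ℝ) (k N s : ℕ), Continuous F → (∀ U, |F U| ≤ 1) → DependsOn F (Sp2 k) →
        k + 1 < R → |sk h b ![R, n, n] (k + 1 + (2 * N + 2 + s)) z F /
          l ^ (k + 1 + (2 * N + 2 + s)) - ∫ U, F U ∂ν| ≤
          q ^ s * (Z0 h b n z (2 * N + 2) R / l ^ (2 * N + 2)) := by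
  obtain ⟨l, r, e0, V0, hr⟩ := exists_vacz (M := ![R, n, n]) (tz 1 z) h b
  have W := wt_WWz (M := ![R, n, n]) (tz 1 z) h b
  have hp := KKz_psd (M := ![R, n, n]) (tz 1 z) h b hb
  have V := Ch.vac_abs V0 hr W.symm fun x y => (W.KK_pos x y).le
  have he : 0 ≤ᵐ[PP h (Ed ![R, n, n])] (|e0| : Lp ℝ 2 _) :=
    (Lp.coeFn_abs e0).mono fun x hx => hx ▸ abs_nonneg _
  generalize |e0| = e at V he
  have hc := WWz_chm (M := ![R, n, n]) b (tz 1 z)
  have hi := WWz_inv (M := ![R, n, n]) (tz 1 z) b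
  have P := Ch.wt_WP W hc hi
  obtain ⟨q, V', sp⟩ := Fs.exists_sp P.symm (Ch.psd_WP W hc hi hp) (Ch.vac_WP W hc hi V hr he)
  have e1 : ∀ T, Z0 h b n z (T + 1) R = tor h (WP (WWz b (tz 1 z)) (chm ![R, n, n])) 0 (T + 1)
    fun _ => 1 := fun T => En_tor h z (BM.const 1) (fun _ _ _ => rfl) fun _ _ => rfl
  have e2 : ∀ T, 2 ≤ T → Z0 h b n z T R = ∫ x, MP_2d4879_an.pw (PP h _) (Ch.KK h (WP (WWz b
      (tz 1 z)) (chm ![R, n, n]))) (T - 1) x x ∂PP h _ := fun T hT => by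
    obtain ⟨j, rfl⟩ := Nat.exists_eq_add_of_le' hT
    exact (e1 (j + 1)).trans (P.tor_one j)
  refine ⟨l, q, ⟨sp.pos, sp.q0, sp.q1, fun T hT => ?_, fun T t hT => ?_⟩,
    fun ν l' vt F k N s cF h1 dF hk => ?_⟩
  · exact (e2 T hT).symm ▸ sp.low T hT
  · exact (e2 T hT).symm ▸ (e2 (T + t) (by omega)).symm ▸ sp.step T t hT
  have bF := (bm_of_cont cF).comp (meas_liftz (M := ![R, n, n]) (tz 1 z))
  have dL := dep_liftz (M := ![R, n, n]) (tz 1 z) (a := 0) (b := (k + 1 : ℕ))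
    (dF.mono fun _ e => ⟨e.1, e.2.1.trans_lt (by omega)⟩)
  have loc : ∫ U, F U ∂ν = vac (WWz b (tz 1 z)) l e 0 k fun w => F (liftz (tz 1 z) w) := by
    refine tendsto_nhds_unique (vt.lim F cF) ?_
    simp only [int_wilz h b _ _ cF.measurable, zt_tor _ h b 0 cF.measurable,
      zt_tor _ h b 0 measurable_const]
    exact W.tendsto_vac V hr bF (by rwa [zero_add])
  have := Ch.tw_close P V' (mp_Cs h _ (k + 1 + (2 * N + 2 + s)))
    (Ch.cmp_vac _ V hr he (KK_Cs z _ h b)) bF (fun _ => h1 _) dL N s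
  rwa [Ch.vac_WP_eq W hc V hr he bF (liftz_tm _ (dF.mono fun _ e => e.2.2) hk), ← loc, ← e1] at this

variable {h} {n t k : ℕ} {z : Zc} {μ : Measure Fd} {F : Fd → ℝ}

theorem Pg.shf (P : Pg h b n z t μ) (hn : 0 < n) {v : Z4} (h2 : v 2 = 0) (h3 : v 3 = 0)
    (cF : Continuous F) : ∫ U, F (shf v U) ∂μ = ∫ U, F U ∂μ := by
  obtain ⟨ν, l, vt, lim, -⟩ := P
  refine tendsto_nhds_unique (lim _ (cF.comp (cont_shf v))) ((lim F cF).congr'
    ((eventually_gt_atTop 0).mono fun R hR => (RGP.int_mp ((vt R hR).mp (cont_shf v)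
      fun T hT F mF => ?_) cF.measurable).symm))
  rw [zs_tz]
  exact zt_shf01 h b (fun i => by fin_cases i <;> assumption) z h2 h3 mF

/-- positivity passes from the skew tori to the plane -/
theorem Pg.pos (P : Pg h b n z t μ) (hb : 0 ≤ b) (hn : 0 < n) (ht : 2 ≤ t)
    (H : Cr2 (Z0 h b n z) t) (cF : Continuous F) (h1 : ∀ U, |F U| ≤ 1) (dF : DependsOn F (Sp2 k))
    (hF : ∀ (p : ℕ) [∀ j, NeZero (![2 * p, n, n] j)], k + 1 < p → 0 ≤ sk h b ![2 * p, n, n] p z F) :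
    0 ≤ ∫ U, F U ∂μ := by
  obtain ⟨ν, l', vt, lim, -⟩ := P
  have key : ∀ R, ∃ l q, 0 < R → Fs.Sp (fun T => Z0 h b n z T R) l q ∧ ∀ N s : ℕ,
      2 * (k + 1 + (2 * N + 2 + s)) = R →
        -(q ^ s * (Z0 h b n z (2 * N + 2) R / l ^ (2 * N + 2))) ≤ ∫ U, F U ∂ν R := fun R => by
    rcases R.eq_zero_or_pos with rfl | hR
    · exact ⟨0, 0, fun e => absurd e (lt_irrefl 0)⟩
    have : ∀ j, NeZero (![R, n, n] j) := fun j => ⟨by fin_cases j <;> simp <;> omega⟩
    obtain ⟨l, q, sp, near⟩ := sk_near h hb (n := n) (R := R) z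
    refine ⟨l, q, fun _ => ⟨sp, fun N s e => ?_⟩⟩
    subst e
    have a1 := abs_le.1 (near _ _ (vt _ hR) F k N s cF h1 dF (by omega))
    have a2 := div_nonneg (hF (k + 1 + (2 * N + 2 + s)) (by omega))
      (pow_pos sp.pos (k + 1 + (2 * N + 2 + s))).le
    linarith [a1.2]
  choose l q V using key
  have B : Fs.Box2 (Z0 h b n z) l q := ⟨fun x y => Z0_symm h b hn (by omega) (by omega) z,
    fun x => (V _ (by omega)).1⟩
  have t0 : (0 : ℝ) < t := by positivity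
  have ρ1 : exp (-1 / t) < 1 := exp_lt_one_iff.2 (div_neg_of_neg_of_pos neg_one_lt_zero t0)
  have u1 : ∀ s, 2 * s ≤ 4 ^ s * t ∧ t ≤ 4 ^ s * t := fun s => by
    have := Nat.lt_pow_self (n := s) (show 1 < 4 by norm_num)
    constructor <;> nlinarith
  have l1 := ((tendsto_pow_atTop_nhds_zero_of_lt_one (exp_pos _).le ρ1).mul_const 2).neg
  rw [zero_mul, neg_zero] at l1
  refine le_of_tendsto_of_tendsto l1 ((lim F cF).comp (tendsto_atTop_mono
    (f := id) (g := fun s => 8 * (4 ^ s * t)) (fun s => by have := u1 s; simp only [id]; omega)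
      tendsto_id)) ((eventually_gt_atTop k).mono fun s hs => ?_)
  have y1 : exp (-4 ^ s) ≤ 1 / 2 :=
    (exp_le_exp.2 (neg_le_neg (one_le_pow₀ (by norm_num)))).trans (by linarith [exp_neg_one_lt_d9])
  obtain ⟨u2, u3⟩ := u1 s
  have a1 := B.small (ht.trans u3) (exp_pos _).le y1 (B.iter ht H s) (a := 8 * (4 ^ s * t))
    (by omega) le_rfl
  simp only [Function.comp]
  generalize 4 ^ s * t = u at *
  obtain ⟨sp, a2⟩ := V (8 * u) (by omega)
  refine le_trans (neg_le_neg (mul_le_mul ?_ ?_ (zero_le_one.trans (sp.one_le (by omega)))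
    (by positivity))) (a2 (u - 1) (2 * u - (k + 1)) (by omega))
  · exact (pow_le_pow_left₀ sp.q0 (B.gap ht H (by omega)).1 _).trans
      (pow_le_pow_of_le_one (exp_pos _).le ρ1.le (by omega))
  · exact (sp.mono (T := u) (by omega) (by omega)).trans (by linarith)

/-- reflection positivity of the state of the plane for the diagonal mirror -/
theorem Pg.swap_rp (P : Pg h b n z t μ) (hb : 0 ≤ b) (hn : 0 < n) (ht : 2 ≤ t)
    (H : Cr2 (Z0 h b n z) t) (cF : Continuous F) (dF : DependsOn F (Hd ∩ Sq k)) :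
    0 ≤ ∫ U, F (sw U) * F U ∂μ := by
  obtain ⟨C, hC⟩ := (bm_of_cont cF).bdd
  have C0 : 0 < |C| + 1 := by positivity
  let v : Z4 := ![k, k, 0, 0]
  let G : Fd → ℝ := fun U => (|C| + 1)⁻¹ * F (YM9.shf v U)
  have cG : Continuous G := by fun_prop
  have G1 : ∀ U, |G U| ≤ 1 := fun U => by
    rw [abs_mul, abs_of_pos (inv_pos.2 C0), inv_mul_le_iff₀ C0]
    linarith [hC (YM9.shf v U), le_abs_self C]
  have dG : DependsOn G (Hd ∩ Sp2 (2 * k)) := fun U U' hU => congrArg (_ * ·) (dF fun e he =>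
    hU _ (by
      have := abs_le.1 he.2.1
      have := abs_le.1 he.2.2
      have := he.1.1
      have := he.1.2
      simp only [Hd, Sp2, v, Set.mem_inter_iff, Set.mem_ofPred_eq, Pi.add_apply,
        Matrix.cons_val_zero, Matrix.cons_val_one]
      omega))
  have dG' : DependsOn G (Sp2 (2 * k)) := dG.mono Set.inter_subset_right
  have c1 : ∀ U, YM9.shf v (sw U) = sw (YM9.shf v U) := fun U => by
    funext e
    have : (e.1 + v) ∘ (Equiv.swap 0 1).symm = e.1 ∘ (Equiv.swap 0 1).symm + v := by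
      funext i
      fin_cases i <;> rfl
    simp only [YM9.shf, sw, prm, this]
  have := P.pos hb hn ht H (F := fun U => G (sw U) * G U) (by fun_prop) (fun U => by
    rw [abs_mul]
    exact mul_le_one₀ (G1 _) (abs_nonneg _) (G1 _)) (RGP.DependsOn.mul'
      (fun _ _ H => dG' fun _ he => H _ ⟨he.2.2.1, he.2.2.2, he.1, he.2.1⟩) dG')
    fun p _ hp => sk_rp h hb rfl z cG dG hp
  simp only [G, c1, mul_mul_mul_comm (|C| + 1)⁻¹, integral_const_mul,
    P.shf hn (v := v) rfl rfl (F := fun U => F (sw U) * F U) (by fun_prop)] at this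
  exact nonneg_of_mul_nonneg_right this (by positivity)

end Pool.Agent.Lib.MP_7f377f_mp.YM9
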