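import Pool.Agent.Lib.MP_7f377f_mp.G.TwG1
import Pool.Agent.Lib.MP_7f377f_mp.G.TwG0

/-! The skew torus as a finite group and its reflection positivity. -/

noncomputable section

set_option linter.unusedSectionVars false
variable [Pool.Agent.Lib.MP_7f377f_mp.GD]

namespace Pool.Agent.Lib.MP_7f377f_mp.YM9.Sk

open MeasureTheory Function Finset RGP
open Y6 (tc tc_inv)
open RG.Q4 (Zc)

/-- the sites: `x 0 - x 1`, `x 1`, `x 2`, `x 3` -/
abbrev Tk (N p m n : ℕ) : Type := ZMod N × ZMod p × ZMod m × ZMod n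

variable {N p m n : ℕ} (hN : N = 2 * p)

/-- reduction -/
def cs : ZMod N →+* ZMod p := ZMod.castHom (Dvd.intro_left 2 hN.symm) _

/-- unit vectors -/
def uk : Fin 4 → Tk N p m n := ![(1, 0, 0, 0), (-1, 1, 0, 0), (0, 0, 1, 0), (0, 0, 0, 1)]

/-- the mirror image of a site -/
def sx (x : Tk N p m n) : Tk N p m n := (-x.1, x.2.1 + cs hN x.1, x.2.2)

/-- the mirror image of a link -/
def sg (e : Tk N p m n × Fin 4) : Tk N p m n × Fin 4 := (sx hN e.1, Equiv.swap 0 1 e.2)

/-- the plaquette variable -/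
def hl (V : Tk N p m n × Fin 4 → SU2) (x : Tk N p m n) (i j : Fin 4) : SU2 :=
  V (x, i) * V (x + uk i, j) * (V (x + uk j, i))⁻¹ * (V (x, j))⁻¹

/-- the action of a plaquette with a twist -/
def pa (c : Zc) (V : Tk N p m n × Fin 4 → SU2) (x : Tk N p m n) (i j : Fin 4) : ℝ :=
  2 - tc (zv c * hl V x i j)

/-- the twist in the plane `23` -/
def cz (z : Zc) (x : Tk N p m n) : Zc := if x.2.2.1 = -1 ∧ x.2.2.2 = -1 then z else 1

/-- the action density -/
def ad (ζ z : Zc) (V : Tk N p m n × Fin 4 → SU2) (x : Tk N p m n) : ℝ :=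
  pa 1 V x 1 2 + pa 1 V x 1 3 + pa (cz z x) V x 2 3 +
    (pa (if x.1 = p ∧ x.2.1 = -1 then ζ else 1) V x 0 1 + pa 1 V x 0 2 + pa 1 V x 0 3)

/-- the links in the positive half -/
def Pl : Set (Tk N p m n × Fin 4) :=
  {e | e.1.1.val ≤ p ∧ (e.2 = 0 → e.1.1.val < p) ∧ (e.2 = 1 → 0 < e.1.1.val)}

/-- the part of the action density in the positive half -/
def ah (z : Zc) (V : Tk N p m n × Fin 4 → SU2) (x : Tk N p m n) : ℝ :=
  (if 0 < x.1.val ∧ x.1.val ≤ p then pa 1 V x 1 2 + pa 1 V x 1 3 else 0) +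
  (if x.1.val = 0 ∨ x.1.val = p then pa (cz z x) V x 2 3 / 2 else
    if x.1.val < p then pa (cz z x) V x 2 3 + pa 1 V x 0 1 else 0) +
  if x.1.val < p then pa 1 V x 0 2 + pa 1 V x 0 3 else 0

/-- the halves of the plaquettes which cross a mirror -/
def xv (ζ : Zc) (V : Tk N p m n × Fin 4 → SU2) (x : Tk N p m n) : SU2 :=
  if x.1.val = 0 then V (x, 0) * V (x + uk 0, 1) else if x.1.val = p then
    zv (if x.2.1 = -1 then ζ else 1) * (V (x, 1) * V (x + uk 1, 0)) else 1

theorem sx_sx (x : Tk N p m n) : sx hN (sx hN x) = x := by simp [sx]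

theorem sg_sg : Involutive (sg (m := m) (n := n) hN) := fun e => by simp [sg, sx_sx]

theorem sx_uk (x : Tk N p m n) (i : Fin 4) :
    sx hN (x + uk i) = sx hN x + uk (Equiv.swap 0 1 i) := by
  fin_cases i <;> simp [sx, uk, Equiv.swap_apply_def, Prod.ext_iff, add_comm, add_left_comm]

theorem hl_sg (V : Tk N p m n × Fin 4 → SU2) (x : Tk N p m n) (i j : Fin 4) :
    hl (V ∘ sg hN) (sx hN x) i j = hl V x (Equiv.swap 0 1 i) (Equiv.swap 0 1 j) := by
  simp only [hl, comp_apply, sg, sx_uk, sx_sx]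

theorem pa_symm (V : Tk N p m n × Fin 4 → SU2) (x : Tk N p m n) (i j : Fin 4) :
    pa 1 V x i j = pa 1 V x j i := by
  rw [pa, pa, zv_one, one_mul, one_mul, ← tc_inv]
  simp only [hl]
  group

variable [NeZero N] [NeZero p] [NeZero m] [NeZero n]
include hN

theorem val_p {u : ZMod N} : u.val = p ↔ u = p := by
  have := NeZero.pos p
  exact ⟨fun e => by rw [← e, ZMod.natCast_zmod_val], fun e => by
    rw [e, ZMod.val_cast_of_lt (by omega)]⟩

theorem val_sx (x : Tk N p m n) :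
    (sx hN x).1.val = if x.1.val = 0 then 0 else 2 * p - x.1.val := by
  simp only [sx, ZMod.neg_val, ZMod.val_eq_zero, ← hN]

theorem sx_fix {x : Tk N p m n} (hx : x.1.val = 0 ∨ x.1.val = p) : sx hN x = x := by
  rcases hx with e | e
  · simp [sx, (ZMod.val_eq_zero _).1 e, Prod.ext_iff]
  · have : (p : ZMod N) + p = 0 := by
      rw [← Nat.cast_add, ← two_mul, ← hN, ZMod.natCast_self]
    simp [sx, (val_p hN).1 e, Prod.ext_iff, neg_eq_iff_add_eq_zero, this]

theorem val_0 {x : Tk N p m n} (hx : x.1.val < p) : (x + uk 0).1.val = x.1.val + 1 := by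
  have : (x + uk 0).1 = ((x.1.val + 1 : ℕ) : ZMod N) := by simp [uk]
  rw [this, ZMod.val_cast_of_lt (by omega)]

theorem val_1 {x : Tk N p m n} (hx : 0 < x.1.val) : (x + uk 1).1.val + 1 = x.1.val := by
  have : (x + uk 1).1 = ((x.1.val - 1 : ℕ) : ZMod N) := by simp [uk, Nat.cast_sub hx, sub_eq_add_neg]
  have h := x.1.val_lt
  rw [this, ZMod.val_cast_of_lt (by omega)]
  omega

theorem mem_uk {x : Tk N p m n} {i j : Fin 4} (hij : i ≠ j) (a1 : x.1.val ≤ p)
    (a2 : i = 0 ∨ j = 0 → x.1.val < p) (a3 : i = 1 ∨ j = 1 → 0 < x.1.val) : (x + uk i, j) ∈ Pl := by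
  by_cases i0 : i = 0
  · have := a2 (.inl i0)
    have := val_0 hN this
    subst i0
    exact ⟨by simp only; omega, fun e => (hij e.symm).elim, fun _ => by simp only; omega⟩
  by_cases i1 : i = 1
  · have := val_1 hN (a3 (.inl i1))
    subst i1
    exact ⟨by simp only; omega, fun _ => by simp only; omega, fun e => (hij e.symm).elim⟩
  have : (x + uk i).1 = x.1 := by fin_cases i <;> simp_all [uk]
  exact ⟨this ▸ a1, fun e => this ▸ a2 (.inr e), fun e => this ▸ a3 (.inr e)⟩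

theorem ad_eq (ζ ξ z : Zc) (V : Tk N p m n × Fin 4 → SU2) (x : Tk N p m n) :
    ah z V x + ah z (V ∘ sg hN) (sx hN x) + (2 - tc (xv ζ V x * (xv ξ (V ∘ sg hN) x)⁻¹)) =
      ad (ζ⁻¹ * ξ) z V x := by
  have h1 := x.1.val_lt
  have h2 := val_sx hN x
  have p0 := NeZero.pos p
  have e : ∀ c i j, pa c (V ∘ sg hN) (sx hN x) i j = pa c V x (Equiv.swap 0 1 i) (Equiv.swap 0 1 j) :=
    fun c i j => by rw [pa, hl_sg, pa]
  have s : Equiv.swap (0 : Fin 4) 1 2 = 2 ∧ Equiv.swap (0 : Fin 4) 1 3 = 3 := by decide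
  simp only [ah, ad, e, show cz z (sx hN x) = cz z x from rfl, Equiv.swap_apply_left,
    Equiv.swap_apply_right, s, pa_symm V x 1 0, ← val_p hN, xv, comp_apply, sg, sx_uk]
  by_cases a : x.1.val = 0
  · have : tc (V (x, 0) * V (x + uk 0, 1) * (V (x, 1) * V (x + uk 1, 0))⁻¹) = 2 - pa 1 V x 0 1 := by
      rw [pa, zv_one, one_mul, hl, mul_inv_rev, ← mul_assoc, sub_sub_cancel]
    simp only [sx_fix hN (.inl a), a, this, p0, p0.ne, true_or, if_true, lt_irrefl, false_and,
      if_false]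
    ring
  by_cases c : x.1.val = p
  · have : ∀ α β : Zc, tc (zv α * (V (x, 1) * V (x + uk 1, 0)) * (zv β * (V (x, 0) *
        V (x + uk 0, 1)))⁻¹) = 2 - pa (α⁻¹ * β) V x 0 1 := fun α β => by
      rw [pa, sub_sub_cancel, ← tc_inv, mul_inv_rev, inv_inv, zinv, zmul, mul_comm β, hl,
        mul_inv_rev, ← mul_assoc (_ * V _)]
    simp only [sx_fix hN (.inr c), c, this, p0, p0.ne', or_true, if_true, lt_irrefl, true_and,
      if_false, le_refl]
    split_ifs
    · ring
    · rw [inv_one, mul_one]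
      ring
  have t1 : tc (1 : SU2) = 2 := by simp [tc, GD.re1]
  simp only [a, c, if_false, false_and, inv_one, mul_one, t1, or_self] at h2 ⊢
  generalize (sx hN x).1.val = l at *
  split_ifs <;> first | omega | ring

theorem pl_sg {e : Tk N p m n × Fin 4} (he : e ∈ Pl) (h' : sg hN e ∈ Pl) : sg hN e = e := by
  obtain ⟨x, i⟩ := e
  obtain ⟨a1, a2, a3⟩ := he
  obtain ⟨b1, b2, b3⟩ := h'
  have h2 := val_sx hN x
  simp only [sg] at *
  have c : x.1.val = 0 ∨ x.1.val = p := by split_ifs at h2 <;> omega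
  rw [sx_fix hN c] at *
  refine Prod.ext rfl (Equiv.swap_apply_of_ne_of_ne ?_ ?_) <;> rintro rfl
  · have := b3 rfl
    have := a2 rfl
    omega
  · have := b2 rfl
    have := a3 rfl
    omega

theorem dep_xv (ζ : Zc) : DependsOn (xv (N := N) (p := p) (m := m) (n := n) ζ) Pl := fun U V H => by
  funext x
  have := NeZero.pos p
  unfold xv
  split_ifs with a c
  · have := val_0 hN (x := x) (by omega)
    rw [H (x, 0) ⟨by simp only; omega, fun _ => by simp only; omega, fun e => by simp at e⟩,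
      H (_, 1) ⟨by simp only; omega, fun e => by simp at e, fun _ => by simp only; omega⟩]
  any_goals rfl
  all_goals
    have := val_1 hN (x := x) (by omega)
    rw [H (x, 1) ⟨by simp only; omega, fun e => by simp at e, fun _ => by simp only; omega⟩,
      H (_, 0) ⟨by simp only; omega, fun _ => by simp only; omega, fun e => by simp at e⟩]

theorem dep_ah (z : Zc) (x : Tk N p m n) : DependsOn (fun V => ah z V x) Pl := fun U V H => by
  have k : ∀ (c : Zc) (i j : Fin 4), i < j → x.1.val ≤ p → (i = 0 → x.1.val < p) →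
      (i = 1 ∨ j = 1 → 0 < x.1.val) → pa c U x i j = pa c V x i j := fun c i j hij a1 a2 a3 => by
    have a4 : i = 0 ∨ j = 0 → x.1.val < p := fun e => a2 (e.resolve_right (Fin.ne_zero_of_lt hij))
    rw [pa, pa, hl, hl, H (x, i) ⟨a1, a2, fun e => a3 (.inl e)⟩,
      H (x, j) ⟨a1, fun e => a4 (.inr e), fun e => a3 (.inr e)⟩, H _ (mem_uk hN hij.ne a1 a4 a3),
      H _ (mem_uk hN hij.ne' a1 (a4 ·.symm) (a3 ·.symm))]
  simp only [ah]
  split_ifs <;> simp (disch := first | decide | omega) only [k]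

variable [Fintype Zc] [MeasurableSpace SU2] [BorelSpace SU2] (h : Measure SU2) [h.IsHaarMeasure]
  [IsProbabilityMeasure h]

theorem rp {b : ℝ} (hb : 0 ≤ b) (z : Zc) {g : (Tk N p m n × Fin 4 → SU2) → ℝ} (cg : Continuous g)
    (dg : DependsOn g Pl) :
    0 ≤ ∑ ζ, ∫ V, g (V ∘ sg hN) * g V * Real.exp (-b * ∑ x, ad ζ z V x) ∂PP h _ := by
  have key := rp_abs hb h (sg_sg hN) (fun _ => pl_sg hN)
    (f := fun V => g V * Real.exp (-b * ∑ x, ah z V x)) (by
      refine cg.mul (Real.continuous_exp.comp (continuous_const.mul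
        (continuous_finsetSum _ fun x _ => ?_)))
      unfold ah pa hl
      split_ifs <;> fun_prop) (fun U V H => by simp only [dg H, fun x => dep_ah hN z x H])
    (fun ζ => continuous_pi fun x => by
      unfold xv
      split_ifs <;> fun_prop) (dep_xv hN)
  have e : ∀ ζ ξ V, g V * Real.exp (-b * ∑ x, ah z V x) * (g (V ∘ sg hN) *
      Real.exp (-b * ∑ x, ah z (V ∘ sg hN) x)) * Real.exp (-b * ∑ x, (2 - tc (xv ζ V x *
        (xv ξ (V ∘ sg hN) x)⁻¹))) = g (V ∘ sg hN) * g V *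
          Real.exp (-b * ∑ x, ad (ζ⁻¹ * ξ) z V x) := fun ζ ξ V => by
    rw [← Equiv.sum_comp (Involutive.toPerm _ (sx_sx hN)) (ah z (V ∘ sg hN))]
    simp only [← ad_eq hN, sum_add_distrib, mul_add, Real.exp_add, Involutive.coe_toPerm]
    ring
  simp only [e] at key
  have := key.trans_eq (sum_congr rfl fun ζ _ => Equiv.sum_comp (Equiv.mulLeft ζ⁻¹) fun ξ =>
    ∫ V, g (V ∘ sg hN) * g V * Real.exp (-b * ∑ x, ad ξ z V x) ∂PP h _)
  rw [sum_const, nsmul_eq_mul] at this
  exact nonneg_of_mul_nonneg_right this Ch.card_pos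

end Pool.Agent.Lib.MP_7f377f_mp.YM9.Sk
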