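import Pool.Agent.Lib.MP_7f377f_mp.G.TwDet

/-! Gaussian integrals and the Laplace method. -/

noncomputable section

namespace Pool.Agent.Lib.MP_7f377f_mp.RG.Lp

open Finset Matrix MeasureTheory

variable {ι : Type} [Fintype ι] [DecidableEq ι] {c Λ β : ℝ} {M : Matrix ι ι ℝ}

theorem mp_orth {U : Matrix ι ι ℝ} (h : U * Uᵀ = 1) :
    MeasurePreserving (fun x : ι → ℝ => Uᵀ *ᵥ x) volume volume := by
  have e : Uᵀ.det * Uᵀ.det = 1 * 1 := by
    have := congrArg det h
    rw [det_mul, det_one] at this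
    rw [one_mul, ← this, det_transpose]
  have e1 : |Uᵀ.det| = 1 := by rw [abs_eq_abs.2 (mul_self_eq_mul_self_iff.1 e), abs_one]
  have e0 : Uᵀ.det ≠ 0 := fun z => by rw [z, abs_zero] at e1; exact zero_ne_one e1
  refine ⟨(toLin' Uᵀ).continuous_of_finiteDimensional.measurable, ?_⟩
  have := Real.map_matrix_volume_pi_eq_smul_volume_pi e0
  rw [abs_inv, e1, inv_one, ENNReal.ofReal_one, one_smul] at this
  exact this

theorem gauss (h : Sb c Λ M) (c0 : 0 < c) (β0 : 0 < β) :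
    Integrable (fun x : ι → ℝ => Real.exp (-(β * (x ⬝ᵥ M *ᵥ x)))) ∧
      ∫ x : ι → ℝ, Real.exp (-(β * (x ⬝ᵥ M *ᵥ x))) = Real.exp (lg β M) := by
  obtain ⟨U, d, -, h2, rfl, hd⟩ := h.spec
  have d0 : ∀ i, 0 < d i := fun i => c0.trans_le (hd i).1
  have mp := mp_orth h2
  have hi : Integrable fun y : ι → ℝ => ∏ i, Real.exp (-(β * d i) * y i ^ 2) :=
    Integrable.fintype_prod (f := fun i (t : ℝ) => Real.exp (-(β * d i) * t ^ 2))
      fun i => integrable_exp_neg_mul_sq (mul_pos β0 (d0 i))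
  have e : (fun x : ι → ℝ => Real.exp (-(β * (x ⬝ᵥ (U * diagonal d * Uᵀ) *ᵥ x)))) =
      fun x => ∏ i, Real.exp (-(β * d i) * (Uᵀ *ᵥ x) i ^ 2) := funext fun x => by
    rw [cj_form, ← Real.exp_sum, mul_sum, ← sum_neg_distrib]
    exact congrArg _ (sum_congr rfl fun i _ => by ring)
  rw [e]
  refine ⟨mp.integrable_comp_of_integrable hi, ?_⟩
  have e2 := integral_map mp.measurable.aemeasurable
    (f := fun y : ι → ℝ => ∏ i, Real.exp (-(β * d i) * y i ^ 2))
    (by rw [mp.map_eq]; exact hi.aestronglyMeasurable)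
  rw [← e2, mp.map_eq, integral_fintype_prod_volume_eq_prod
    fun i (t : ℝ) => Real.exp (-(β * d i) * t ^ 2)]
  have e3 : ∀ i, ∫ t : ℝ, Real.exp (-(β * d i) * t ^ 2) =
      Real.exp (Real.log (Real.pi / β) / 2 - Real.log (d i) / 2) := fun i => by
    have p : 0 < Real.pi / β := div_pos Real.pi_pos β0
    rw [integral_gaussian, ← div_div, ← sub_div, ← Real.log_div p.ne' (d0 i).ne',
      ← Real.log_sqrt (div_pos p (d0 i)).le, Real.exp_log (Real.sqrt_pos.2 (div_pos p (d0 i)))]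
  simp only [e3]
  rw [← Real.exp_sum, lg, cj_det h2, Real.log_prod fun i _ => (d0 i).ne', sum_sub_distrib,
    sum_const, card_univ, nsmul_eq_mul, sum_div]
  congr 2
  ring

theorem exp_two {u : ℝ} (u0 : 0 ≤ u) (u1 : u ≤ 1 / 2) : Real.exp (-(2 * u)) ≤ 1 - u := by
  have a := Real.add_one_le_exp (2 * u)
  rw [Real.exp_neg, inv_le_iff_one_le_mul₀ (Real.exp_pos _)]
  nlinarith [mul_nonneg u0 (sub_nonneg.2 u1), mul_nonneg (sub_nonneg.2 a) (by linarith : 0 ≤ 1 - u)]

/-- a function below a Gaussian, and above it on a ball -/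
theorem laplace (h : Sb c Λ M) (c0 : 0 < c) (β0 : 0 < β) {F : (ι → ℝ) → ℝ} (mF : Measurable F)
    (x0 : ι → ℝ) {η r τ : ℝ} (nn : ∀ x, 0 ≤ F x)
    (up : ∀ x, F x ≤ Real.exp (η - β * ((x - x0) ⬝ᵥ M *ᵥ (x - x0))))
    (lo : ∀ x, (x - x0) ⬝ᵥ (x - x0) ≤ r ^ 2 →
      Real.exp (-η - β * ((x - x0) ⬝ᵥ M *ᵥ (x - x0))) ≤ F x)
    (τ1 : 1 ≤ τ) (hr : Fintype.card ι + τ ≤ β * c * r ^ 2 / 2) :
    0 < ∫ x, F x ∧ |Real.log (∫ x, F x) - lg β M| ≤ η + 2 * Real.exp (-τ) := by
  obtain ⟨i1, e1⟩ := gauss h c0 β0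
  obtain ⟨i2, e2⟩ := gauss h c0 (half_pos β0)
  have j1 := i1.comp_sub_right x0
  have j2 := i2.comp_sub_right x0
  rw [← integral_sub_right_eq_self _ x0] at e1 e2
  have up' : ∀ x, F x ≤ Real.exp η * Real.exp (-(β * ((x - x0) ⬝ᵥ M *ᵥ (x - x0)))) := fun x => by
    rw [← Real.exp_add]
    exact up x
  have iF : Integrable F := (j1.const_mul _).mono' mF.aestronglyMeasurable
    (.of_forall fun x => by rw [Real.norm_of_nonneg (nn x)]; exact up' x)
  have U : ∫ x, F x ≤ Real.exp (η + lg β M) := by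
    rw [Real.exp_add, ← e1, ← integral_const_mul]
    exact integral_mono iF (j1.const_mul _) up'
  have lo' : ∀ x, Real.exp (-η) * (Real.exp (-(β * ((x - x0) ⬝ᵥ M *ᵥ (x - x0)))) -
      Real.exp (-(Fintype.card ι + τ)) * Real.exp (-(β / 2 * ((x - x0) ⬝ᵥ M *ᵥ (x - x0))))) ≤
      F x := fun x => by
    rcases le_total ((x - x0) ⬝ᵥ (x - x0)) (r ^ 2) with hx | hx
    · refine le_trans ?_ (lo x hx)
      rw [sub_eq_add_neg (-η), Real.exp_add]
      exact mul_le_mul_of_nonneg_left (sub_le_self _ (by positivity)) (Real.exp_pos _).le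
    · refine le_trans (mul_nonpos_of_nonneg_of_nonpos (Real.exp_pos _).le (sub_nonpos.2 ?_)) (nn x)
      rw [← Real.exp_add, Real.exp_le_exp]
      have a := mul_le_mul_of_nonneg_left
        ((mul_le_mul_of_nonneg_left hx c0.le).trans (h.lo (x - x0))) β0.le
      linarith
  have L := integral_mono ((j1.sub (j2.const_mul _)).const_mul _) iF lo'
  rw [integral_const_mul] at L
  have L2 := integral_sub j1 (j2.const_mul (Real.exp (-(Fintype.card ι + τ))))
  rw [integral_const_mul, e1, e2] at L2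
  have g2 : Real.exp (-(Fintype.card ι + τ)) * Real.exp (lg (β / 2) M) ≤
      Real.exp (lg β M) * Real.exp (-τ) := by
    rw [← Real.exp_add, ← Real.exp_add, Real.exp_le_exp, lg, lg,
      show Real.pi / (β / 2) = Real.pi / β * 2 by field_simp,
      Real.log_mul (div_pos Real.pi_pos β0).ne' two_ne_zero]
    have a : Real.log 2 ≤ 2 - 1 := Real.log_le_sub_one_of_pos two_pos
    have b : (0 : ℝ) ≤ Fintype.card ι := Nat.cast_nonneg _
    nlinarith [mul_nonneg b (sub_nonneg.2 a)]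
  have u1 : Real.exp (-τ) ≤ 1 / 2 := by
    have a := Real.add_one_le_exp τ
    rw [Real.exp_neg, one_div]
    exact inv_anti₀ two_pos (by linarith)
  have L3 : Real.exp (-η + lg β M + -(2 * Real.exp (-τ))) ≤ ∫ x, F x := by
    refine le_trans ?_ L
    rw [add_assoc, Real.exp_add, Real.exp_add]
    refine mul_le_mul_of_nonneg_left (le_trans ?_ L2.ge) (Real.exp_pos _).le
    have := mul_le_mul_of_nonneg_left (exp_two (Real.exp_pos _).le u1) (Real.exp_pos (lg β M)).le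
    linarith
  have p := (Real.exp_pos _).trans_le L3
  have a := (Real.le_log_iff_exp_le p).2 L3
  have b := (Real.log_le_iff_le_exp p).2 U
  have := Real.exp_pos (-τ)
  exact ⟨p, abs_le.2 ⟨by linarith, by linarith⟩⟩

end Pool.Agent.Lib.MP_7f377f_mp.RG.Lp
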