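import Pool.Agent.Lib.MP_7f377f_mp.G.TwLin
import Pool.Agent.Lib.MP_7f377f_mp.G.TwDef

/-! The Hessians of the Laplace method as operators of finite range, and their spectra. -/

noncomputable section

set_option linter.unusedSectionVars false
variable [Pool.Agent.Lib.MP_7f377f_mp.GD]

namespace Pool.Agent.Lib.MP_7f377f_mp.RG.Lp

open Finset Matrix Q4
open scoped Pointwise

/-- the kernel of the form `m` of range `r` -/
def km (m : BF) (r : ℕ) (y : St) : Matrix (Fin 4) (Fin 4) ℝ :=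
  of fun μ ν => ∑ w ∈ box r, m (Pi.single (w, μ) 1) (Pi.single (w + y, ν) 1)

/-- the kernel of `D Dᵀ` -/
def kd (y : St) : Matrix (Fin 4) (Fin 4) ℝ :=
  of fun μ ν => (if y = un μ - un ν then 1 else 0) - (if y = un μ then 1 else 0) -
    (if y = -un ν then 1 else 0) + if y = 0 then 1 else 0

/-- the kernel of the Laplacian -/
def kl (y : St) : Matrix Unit Unit ℝ :=
  of fun _ _ => ∑ μ, ((if y = 0 then 2 else 0) - (if y = un μ then 1 else 0) - if y = -un μ then 1 else 0)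

variable {σ : Type} [Fintype σ] [DecidableEq σ] {S : St → Matrix σ σ ℝ} {ρ p : ℝ} {R : ℕ} {m : BF}

/-- the Hessian of the gauge fixed action -/
def hm (S : St → Matrix σ σ ℝ) (m : BF) (R : ℕ) : Matrix (Fin 4 × σ) (Fin 4 × σ) ℝ :=
  rp S (2 * R) fun y => km m R y + kd y

namespace Rep

variable {κ κ' : Type} [Fintype κ] [Fintype κ']

/-- a component of a vector -/
def cp (x : κ × σ → ℝ) (μ : κ) : σ → ℝ := fun j => x (μ, j)

theorem dot_cp (x y : κ × σ → ℝ) : x ⬝ᵥ y = ∑ μ, cp x μ ⬝ᵥ cp y μ := by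
  simp only [dotProduct, Fintype.sum_prod_type, cp]

theorem mem_box {r : ℕ} {x : St} : x ∈ box r ↔ ∀ i, |x i| ≤ r := by
  simp [box, Fintype.mem_piFinset, abs_le]

theorem un_cases (μ i : Fin 4) : un μ i = 0 ∨ un μ i = 1 := by
  by_cases h : i = μ <;> simp [un, h]

theorem sub_box {r : ℕ} {x y : St} (hx : x ∈ box r) (hy : y ∈ box r) : x - y ∈ box (2 * r) := by
  rw [mem_box] at *
  intro i
  have := abs_sub (x i) (y i)
  have := hx i
  have := hy i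
  push_cast
  simp only [Pi.sub_apply]
  linarith

theorem unit_box {r : ℕ} (hr : 1 ≤ r) (μ ν : Fin 4) :
    un μ - un ν ∈ box r ∧ un μ ∈ box r ∧ -un ν ∈ box r ∧ (0 : St) ∈ box r := by
  have h : (1 : ℤ) ≤ r := by exact_mod_cast hr
  simp only [mem_box, Pi.sub_apply, Pi.neg_apply, Pi.zero_apply, abs_le]
  refine ⟨fun i => ?_, fun i => ?_, fun i => ?_, fun i => ?_⟩ <;>
    rcases un_cases μ i with h1 | h1 <;> rcases un_cases ν i with h2 | h2 <;>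
      constructor <;> linarith

theorem dot_S (hS : Orp S) (v w : St) (f g : σ → ℝ) :
    (S v *ᵥ f) ⬝ᵥ (S w *ᵥ g) = f ⬝ᵥ S (w - v) *ᵥ g := by
  rw [sub_eq_neg_add, hS.add, hS.neg, ← mulVec_mulVec, dotProduct_mulVec f, vecMul_transpose]

theorem norm_S (hS : Orp S) (v : St) (f : σ → ℝ) : (S v *ᵥ f) ⬝ᵥ (S v *ᵥ f) = f ⬝ᵥ f := by
  rw [dot_S hS, sub_self, hS.zero, one_mulVec]

theorem diff_le (hS : Orp S) (v : St) (f : σ → ℝ) :
    ((S v - 1) *ᵥ f) ⬝ᵥ ((S v - 1) *ᵥ f) ≤ 4 * (f ⬝ᵥ f) := by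
  have h1 := norm_S hS v f
  have h2 := dot0 (S v *ᵥ f + f)
  simp only [sub_mulVec, one_mulVec, sub_dotProduct, dotProduct_sub, add_dotProduct,
    dotProduct_add] at h2 ⊢
  linarith

theorem rp_bil (r : ℕ) (K : St → Matrix κ κ' ℝ) (x : κ × σ → ℝ) (x' : κ' × σ → ℝ) :
    x ⬝ᵥ rp S r K *ᵥ x' = ∑ μ, ∑ ν, ∑ y ∈ box r, K y μ ν * (cp x μ ⬝ᵥ S y *ᵥ cp x' ν) := by
  have h : ∀ y, x ⬝ᵥ (kroneckerMap (· * ·) (K y) (S y)) *ᵥ x' =
      ∑ μ, ∑ ν, K y μ ν * (cp x μ ⬝ᵥ S y *ᵥ cp x' ν) := fun y => by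
    simp only [dotProduct, mulVec, Fintype.sum_prod_type, kroneckerMap_apply, cp, mul_sum]
    refine sum_congr rfl fun μ _ => ?_
    rw [sum_comm]
    refine sum_congr rfl fun ν _ => sum_congr rfl fun i _ => sum_congr rfl fun j _ => by ring
  rw [rp, sum_mulVec, dotProduct_sum, sum_congr rfl fun y _ => h y, sum_comm]
  exact sum_congr rfl fun μ _ => sum_comm

theorem cp_D (f : Unit × σ → ℝ) (μ : Fin 4) :
    cp (Dm S *ᵥ f) μ = (S (un μ) - 1) *ᵥ cp f () := by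
  funext i
  simp [cp, Dm, mulVec, dotProduct, Fintype.sum_prod_type]

theorem cp_DT (hS : Orp S) (x : Fin 4 × σ → ℝ) :
    cp ((Dm S)ᵀ *ᵥ x) () = ∑ μ, (S (-un μ) - 1) *ᵥ cp x μ := by
  funext i
  simp only [cp, Dm, mulVec, dotProduct, Fintype.sum_prod_type, transpose_apply, of_apply,
    Finset.sum_apply, hS.neg, Matrix.sub_apply, one_apply, eq_comm]

theorem dot_DT (hS : Orp S) (x x' : Fin 4 × σ → ℝ) :
    ((Dm S)ᵀ *ᵥ x) ⬝ᵥ ((Dm S)ᵀ *ᵥ x') =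
      ∑ μ, ∑ ν, ((S (-un μ) - 1) *ᵥ cp x μ) ⬝ᵥ ((S (-un ν) - 1) *ᵥ cp x' ν) := by
  rw [dot_cp, Fintype.sum_unique, cp_DT hS, cp_DT hS, sum_dotProduct]
  exact sum_congr rfl fun μ _ => dotProduct_sum _ _ _

theorem dot_dd (hS : Orp S) (v w : St) (f g : σ → ℝ) :
    ((S v - 1) *ᵥ f) ⬝ᵥ ((S w - 1) *ᵥ g) =
      f ⬝ᵥ S (w - v) *ᵥ g - f ⬝ᵥ S (-v) *ᵥ g - f ⬝ᵥ S w *ᵥ g + f ⬝ᵥ g := by
  have h1 := dot_S hS v w f g
  have h2 := dot_S hS v 0 f g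
  rw [hS.zero, one_mulVec, zero_sub] at h2
  simp only [sub_mulVec, one_mulVec, sub_dotProduct, dotProduct_sub, h1, h2]
  ring

theorem lap_form (f : Unit × σ → ℝ) :
    f ⬝ᵥ ((Dm S)ᵀ * Dm S) *ᵥ f =
      ∑ μ, ((S (un μ) - 1) *ᵥ cp f ()) ⬝ᵥ ((S (un μ) - 1) *ᵥ cp f ()) := by
  rw [← mulVec_mulVec, dotProduct_mulVec f, vecMul_transpose, dot_cp]
  simp only [cp_D]

theorem expand (h : Rng R R m) (a b : V) :
    m a b = ∑ e ∈ lbox R, ∑ e' ∈ lbox R, a e * b e' * m (Pi.single e 1) (Pi.single e' 1) := by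
  have key : ∀ c : V, ∀ e ∈ lbox R, (c - ∑ e ∈ lbox R, c e • (Pi.single e 1 : V)) e = 0 := by
    intro c e he
    simp [Finset.sum_apply, Pi.single_apply, he]
  have h1 := h _ b (Or.inl (key a))
  have h2 := h (∑ e ∈ lbox R, a e • (Pi.single e 1 : V)) _ (Or.inr (key b))
  rw [map_sub, LinearMap.sub_apply, sub_eq_zero] at h1
  rw [map_sub, sub_eq_zero] at h2
  rw [h1, h2]
  simp only [map_sum, map_smul, LinearMap.sum_apply, LinearMap.smul_apply, smul_eq_mul, mul_sum]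
  rw [sum_comm]
  exact sum_congr rfl fun e _ => sum_congr rfl fun e' _ => by ring

theorem qf_sh (hS : Orp S) (h : Rng R R m) (y : St) (x x' : Fin 4 × σ → ℝ) :
    ∑ i, m (sh y (fl S x i)) (sh y (fl S x' i)) = ∑ e ∈ lbox R, ∑ e' ∈ lbox R,
      m (Pi.single e 1) (Pi.single e' 1) * (cp x e.2 ⬝ᵥ S (e'.1 - e.1) *ᵥ cp x' e'.2) := by
  rw [sum_congr rfl fun i _ => expand h _ _, sum_comm]
  refine sum_congr rfl fun e _ => ?_
  rw [sum_comm]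
  refine sum_congr rfl fun e' _ => ?_
  rw [← sum_mul, mul_comm, ← add_sub_add_right_eq_sub e'.1 e.1 y, ← dot_S hS]
  rfl

theorem sh0 (a : V) : sh 0 a = a := by
  funext e
  simp [sh]

theorem hm_bil (hS : Orp S) (h : Qm ρ R m) (x x' : Fin 4 × σ → ℝ) :
    x ⬝ᵥ hm S m R *ᵥ x' =
      ∑ i, m (fl S x i) (fl S x' i) + ((Dm S)ᵀ *ᵥ x) ⬝ᵥ ((Dm S)ᵀ *ᵥ x') := by
  have h0 := qf_sh hS h.rng 0 x x'
  simp only [sh0] at h0
  rw [h0, dot_DT hS, hm, rp_bil]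
  simp only [lbox, sum_product, Matrix.add_apply, add_mul, sum_add_distrib]
  congr 1
  · refine Eq.trans (sum_congr rfl fun μ _ => ?_) sum_comm
    simp only [km, of_apply, sum_mul]
    refine Eq.trans (sum_congr rfl fun ν _ => sum_comm) (sum_comm.trans ?_)
    refine sum_congr rfl fun w hw => Eq.trans ?_ sum_comm
    refine sum_congr rfl fun ν _ => Eq.symm ?_
    refine sum_bij_ne_zero (fun w' _ _ => w' - w) (fun w' h1 _ => sub_box h1 hw)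
      (fun a _ _ b _ _ e => sub_left_injective e) (fun y _ h2 => ?_) (fun w' _ _ => by simp)
    refine ⟨w + y, ?_, by simpa using h2, by simp⟩
    by_contra hn
    refine h2 ?_
    rw [h.rng _ _ (Or.inr fun e he => ?_), zero_mul]
    refine Pi.single_eq_of_ne ?_ _
    rintro rfl
    exact hn (mem_product.1 he).1
  · refine sum_congr rfl fun μ _ => sum_congr rfl fun ν _ => ?_
    obtain ⟨b1, b2, b3, b4⟩ := unit_box (r := 2 * R) (by have := h.R1; omega) μ ν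
    rw [dot_dd hS, neg_neg, neg_sub_neg]
    simp only [kd, of_apply, sub_mul, add_mul, ite_mul, one_mul, zero_mul, sum_sub_distrib,
      sum_add_distrib, sum_ite_eq', b1, b2, b3, b4, if_true, hS.zero, one_mulVec]

theorem symm_of {ι : Type} [Fintype ι] [DecidableEq ι] {M : Matrix ι ι ℝ}
    (h : ∀ x y, x ⬝ᵥ M *ᵥ y = y ⬝ᵥ M *ᵥ x) : Mᵀ = M := by
  ext i j
  simpa using h (Pi.single j 1) (Pi.single i 1)

theorem hodge (hS : Orp S) (x : Fin 4 × σ → ℝ) :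
    ∑ i, nd (fl S x i) 0 + 2 * (((Dm S)ᵀ *ᵥ x) ⬝ᵥ ((Dm S)ᵀ *ᵥ x)) =
      2 * ∑ ν, ∑ μ, ((S (un μ) - 1) *ᵥ cp x ν) ⬝ᵥ ((S (un μ) - 1) *ᵥ cp x ν) := by
  have h1 : ∑ i, nd (fl S x i) 0 = ∑ μ, ∑ ν,
      ((S (un μ) - 1) *ᵥ cp x ν - (S (un ν) - 1) *ᵥ cp x μ) ⬝ᵥ
        ((S (un μ) - 1) *ᵥ cp x ν - (S (un ν) - 1) *ᵥ cp x μ) := by
    simp only [nd]
    rw [sum_comm]
    refine sum_congr rfl fun μ _ => ?_
    rw [sum_comm]
    refine sum_congr rfl fun ν _ => sum_congr rfl fun i _ => ?_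
    have e : dd (fl S x i) 0 μ ν =
        ((S (un μ) - 1) *ᵥ cp x ν) i - ((S (un ν) - 1) *ᵥ cp x μ) i := by
      simp only [dd, fl, zero_add, hS.zero, one_mulVec, sub_mulVec, Pi.sub_apply]
      unfold cp
      ring
    rw [e, sq]
    rfl
  have h2 : ∀ μ ν, ((S (un μ) - 1) *ᵥ cp x ν) ⬝ᵥ ((S (un ν) - 1) *ᵥ cp x μ) =
      ((S (-un ν) - 1) *ᵥ cp x ν) ⬝ᵥ ((S (-un μ) - 1) *ᵥ cp x μ) := fun μ ν => by
    rw [dot_dd hS, dot_dd hS, neg_neg, neg_sub_neg]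
    ring
  have h3 : ∀ μ ν, ((S (un ν) - 1) *ᵥ cp x μ) ⬝ᵥ ((S (un μ) - 1) *ᵥ cp x ν) =
      ((S (-un μ) - 1) *ᵥ cp x μ) ⬝ᵥ ((S (-un ν) - 1) *ᵥ cp x ν) := fun μ ν => h2 ν μ
  rw [h1, dot_DT hS]
  simp only [sub_dotProduct, dotProduct_sub, sum_sub_distrib, h2]
  rw [sum_comm (f := fun μ ν => ((S (un μ) - 1) *ᵥ cp x ν) ⬝ᵥ ((S (un μ) - 1) *ᵥ cp x ν)),
    sum_comm (f := fun μ ν => ((S (-un ν) - 1) *ᵥ cp x ν) ⬝ᵥ ((S (-un μ) - 1) *ᵥ cp x μ))]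
  ring

end Rep

open Rep

theorem rp_kl (hS : Orp S) : rp S 1 kl = (Dm S)ᵀ * Dm S := by
  have h : ∀ x y, x ⬝ᵥ rp S 1 kl *ᵥ y = x ⬝ᵥ ((Dm S)ᵀ * Dm S) *ᵥ y := fun x y => by
    rw [← mulVec_mulVec, dotProduct_mulVec x _ (Dm S *ᵥ y), vecMul_transpose, dot_cp (Dm S *ᵥ x),
      rp_bil, Fintype.sum_unique, Fintype.sum_unique]
    simp only [kl, of_apply, sum_mul, cp_D]
    rw [sum_comm]
    refine sum_congr rfl fun μ _ => ?_
    obtain ⟨-, b2, b3, b4⟩ := unit_box (r := 1) le_rfl μ μ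
    rw [dot_dd hS, sub_self]
    simp only [sub_mul, ite_mul, one_mul, zero_mul, sum_sub_distrib, sum_ite_eq', b2, b3, b4,
      if_true, hS.zero, one_mulVec]
    ring
  ext i j
  simpa using h (Pi.single i 1) (Pi.single j 1)

theorem Dm_le (hS : Orp S) (x : Fin 4 × σ → ℝ) :
    ((Dm S)ᵀ *ᵥ x) ⬝ᵥ ((Dm S)ᵀ *ᵥ x) ≤ 16 * (x ⬝ᵥ x) := by
  rw [dot_DT hS, dot_cp x]
  set a : Fin 4 → σ → ℝ := fun μ => (S (-un μ) - 1) *ᵥ cp x μ
  have h1 : ∀ μ ν, a μ ⬝ᵥ a ν ≤ 2 * (cp x μ ⬝ᵥ cp x μ) + 2 * (cp x ν ⬝ᵥ cp x ν) := fun μ ν => by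
    have h := dot0 (a μ - a ν)
    have h2 := diff_le hS (-un μ) (cp x μ)
    have h3 := diff_le hS (-un ν) (cp x ν)
    rw [sub_dotProduct, dotProduct_sub, dotProduct_sub, dotProduct_comm (a ν) (a μ)] at h
    linarith
  refine (sum_le_sum fun μ _ => sum_le_sum fun ν _ => h1 μ ν).trans (le_of_eq ?_)
  simp only [Fin.sum_univ_four]
  ring

theorem sb_lap (hS : Orp S) (hp : Pc S p) (p0 : 0 < p) : Sb p⁻¹ 16 ((Dm S)ᵀ * Dm S) := by
  refine ⟨by rw [transpose_mul, transpose_transpose], fun f => ?_, fun f => ?_⟩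
  · rw [lap_form, dot_cp f, Fintype.sum_unique (ι := Unit), inv_mul_le_iff₀ p0]
    exact hp _
  · rw [lap_form, dot_cp f, Fintype.sum_unique (ι := Unit)]
    refine (sum_le_sum fun μ _ => diff_le hS _ _).trans (le_of_eq ?_)
    simp only [Fin.sum_univ_four]
    ring

theorem hm_form (hS : Orp S) (h : Qm ρ R m) (x : Fin 4 × σ → ℝ) :
    x ⬝ᵥ hm S m R *ᵥ x = qf S m x + ((Dm S)ᵀ *ᵥ x) ⬝ᵥ ((Dm S)ᵀ *ᵥ x) :=
  hm_bil hS h x x

theorem qf_lo (hS : Orp S) (h : Qm ρ R m) (x : Fin 4 × σ → ℝ) :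
    ∑ i, nd (fl S x i) 0 ≤ 12500 * qf S m x := by
  have h1 : ∀ i, nd (fl S x i) 0 ≤ 20 * ∑ y ∈ box 2, m (sh y (fl S x i)) (sh y (fl S x i)) :=
    fun i => by
      have h2 := h.lower (fl S x i) {0}
      have e : ({0} : Finset St) + box 2 = box 2 := by
        rw [singleton_add]; simp
      rwa [sum_singleton, e] at h2
  have h0 := qf_sh hS h.rng 0 x x
  simp only [sh0] at h0
  refine (sum_le_sum fun i _ => h1 i).trans (le_of_eq ?_)
  rw [← mul_sum, sum_comm, sum_congr rfl fun y _ => (qf_sh hS h.rng y x x).trans h0.symm, sum_const,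
    card_box, qf, nsmul_eq_mul]
  push_cast
  ring

theorem qf_up (hS : Orp S) (h : Qm ρ R m) (x : Fin 4 × σ → ℝ) :
    qf S m x ≤ ρ * (2 * R + 1) ^ 4 * (x ⬝ᵥ x) := by
  have h1 : ∀ a : V, m a a ≤ ρ * ∑ e ∈ lbox R, a e * a e := fun a => by
    have h0 : 0 ≤ ∑ e ∈ lbox R, a e * a e := sum_nonneg fun _ _ => mul_self_nonneg _
    have hs : Sm R (√(∑ e ∈ lbox R, a e * a e)) a := fun e he => by
      rw [Real.norm_eq_abs]
      refine Real.abs_le_sqrt ?_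
      rw [sq]
      exact single_le_sum (f := fun e => a e * a e) (fun _ _ => mul_self_nonneg _) he
    have h2 := h.bd a a _ _ hs hs
    rw [mul_assoc, Real.mul_self_sqrt h0] at h2
    exact (le_abs_self _).trans h2
  refine (sum_le_sum fun i _ => h1 _).trans (le_of_eq ?_)
  have h2 : ∀ e : Lk, ∑ i, fl S x i e * fl S x i e = cp x e.2 ⬝ᵥ cp x e.2 := fun e =>
    norm_S hS e.1 (cp x e.2)
  rw [← mul_sum, sum_comm, sum_congr rfl fun e _ => h2 e, lbox, sum_product, dot_cp x]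
  simp only [sum_const, card_box, nsmul_eq_mul]
  push_cast
  ring

theorem sb_hm (hS : Orp S) (h : Qm ρ R m) (hp : Pc S p) (p0 : 0 < p) :
    Sb (6250 * p)⁻¹ (100 * ρ ^ 5) (hm S m R) := by
  refine ⟨symm_of fun x y => ?_, fun x => ?_, fun x => ?_⟩
  · rw [hm_bil hS h, hm_bil hS h, dotProduct_comm, sum_congr rfl fun i _ => h.symm _ _]
  · rw [hm_form hS h, inv_mul_le_iff₀ (by positivity), dot_cp x]
    have h1 := hodge hS x
    have h2 := qf_lo hS h x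
    have h3 := dot0 ((Dm S)ᵀ *ᵥ x)
    refine (sum_le_sum fun ν _ => hp (cp x ν)).trans ?_
    rw [← mul_sum, mul_comm 6250 p, mul_assoc]
    exact mul_le_mul_of_nonneg_left (by linarith) p0.le
  · rw [hm_form hS h]
    have h1 := qf_up hS h x
    have h2 := Dm_le hS x
    have h3 := dot0 x
    have r1 : (1 : ℝ) ≤ R := by exact_mod_cast h.R1
    have r2 := h.Rρ
    have h4 : (2 * R + 1 : ℝ) ^ 4 ≤ (3 * ρ) ^ 4 := pow_le_pow_left₀ (by linarith) (by linarith) 4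
    have h5 : 1 ≤ ρ ^ 5 := one_le_pow₀ (by linarith)
    have h6 : ρ * (2 * R + 1) ^ 4 ≤ 81 * ρ ^ 5 := by
      calc ρ * (2 * R + 1) ^ 4 ≤ ρ * (3 * ρ) ^ 4 := mul_le_mul_of_nonneg_left h4 (by linarith)
        _ = 81 * ρ ^ 5 := by ring
    nlinarith [mul_le_mul_of_nonneg_right h6 h3, mul_le_mul_of_nonneg_right h5 h3]

end Pool.Agent.Lib.MP_7f377f_mp.RG.Lp
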