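import Pool.Agent.Lib.MP_7f377f_mp.G.TwChart
import Pool.Agent.Lib.MP_7f377f_mp.G.TwRep
import Pool.Agent.Lib.MP_7f377f_mp.G.TwGau

/-! The Laplace method for the gauge fixed integral. -/

noncomputable section

set_option linter.unusedSectionVars false
variable [Pool.Agent.Lib.MP_7f377f_mp.GD]

namespace Pool.Agent.Lib.MP_7f377f_mp.RG.Lp.Dt

open Finset Matrix MeasureTheory Q4 Ms

variable {T : Dt} {C B β ρ : ℝ} {R : ℕ} {m : BF}

theorem fl_eq (x : Fin 4 × domv T.M × Fin GD.d → ℝ) (y : domv T.M) (e : Lk) :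
    (fun k => fl T.S x (y, k) e) = Rm (T.gx (y + e.1)) *ᵥ at1 x (e.2, rX T.odd (y + e.1)) :=
  funext fun k => shf_mulVec (θ := T.th) T.odd e.1 (fun j => x (e.2, j)) (y, k)

theorem Rm_dot (g : S3) (a : Fin GD.d → ℝ) : (Rm g *ᵥ a) ⬝ᵥ (Rm g *ᵥ a) = a ⬝ᵥ a := by
  rw [dotProduct_mulVec, ← mulVec_transpose, mulVec_mulVec, ← Rm_inv, ← Rm_mul, inv_mul_cancel,
    Rm_one, one_mulVec]

/-- the lift of a field in the chart -/
theorem lt_ce (x : Fin 4 × domv T.M × Fin GD.d → ℝ) (y : domv T.M) (e : Lk) :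
    sh y (T.lt (ce x)) e = ee fun k => fl T.S x (y, k) e := by
  rw [fl_eq, ee_conj, add_comm]
  rfl

/-- the action near the vacuum is quadratic -/
theorem Ph_ce (hq : Qm ρ R m) {x : Fin 4 × domv T.M × Fin GD.d → ℝ} {δ : ℝ} (δ0 : 0 ≤ δ)
    (hx : ∀ p, at1 x p ⬝ᵥ at1 x p ≤ δ ^ 2) (hδ : 10 ^ 4 * ρ * δ ≤ 1) :
    |Ph m T.M (T.lt (ce x)) - qf T.S m x| ≤ (domv T.M).card * (10 ^ 8 * cG * ρ ^ 4 * δ ^ 3) := by
  have R1 : (1 : ℝ) ≤ R := by exact_mod_cast hq.R1
  have Rρ := hq.Rρ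
  have ρ1 : 1 ≤ ρ := R1.trans Rρ
  have d1 : δ ≤ ρ * δ := le_mul_of_one_le_left δ0 ρ1
  have d2 : R * δ ≤ ρ * δ := mul_le_mul_of_nonneg_right Rρ δ0
  have r0 : 0 ≤ R * δ := by positivity
  have d3 := mul_le_mul d2 d2 r0 (r0.trans d2)
  have d4 := mul_le_mul d1 d1 δ0 (δ0.trans d1)
  have d5 := mul_le_mul d1 d2 r0 (δ0.trans d1)
  have k1 : ∀ (y : domv T.M) k, |m (reF (Bx y (cC (T.lt (ce x)))) k) (reF (Bx y (cC (T.lt (ce x)))) k) -
      m (fl T.S x (y, k)) (fl T.S x (y, k))| ≤ 10 ^ 8 * ρ ^ 4 * δ ^ 3 := fun y k => by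
    set b : Fld := fun e => Af.cR fun k => fl T.S x (y, k) e with hb
    have b1 : ∀ r, Sm r δ b := fun r e _ => (abs_le_of_sq_le_sq' (by
      rw [hb, ← cR_sq, fl_eq, Rm_dot]; exact hx _) δ0).2
    have e : sh y (cC (T.lt (ce x))) = exF b := funext fun e => by
      rw [sh_cC, cC, lt_ce, ee, cS_e0]
      rfl
    have a := ((Bx_ap (Ap_exF (b1 (R + 1)) (by linarith)) (by nlinarith) (by linarith)).mono le_rfl
      (δ' := 240000 * (ρ * δ) ^ 2) (by nlinarith)).reF k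
    have a2 : reF (Bx y (cC (T.lt (ce x)))) k = fl T.S x (y, k) + reF (Bx 0 (exF b) - cg b) k -
        gr fun z => (lam b z k).re := by
      rw [Bx_eq, e]
      funext f; simp [reF, cg, gr, hb, Af.cR]; ring
    have s : Sm R δ (fl T.S x (y, k)) := fun f hf => by simpa [reF, hb, Af.cR] using (b1 R).reF k f hf
    have a1 := abs_le.1 (hq.bd _ _ _ _ a a)
    have a3 := abs_le.1 (hq.bd _ _ _ _ s a)
    generalize reF (Bx 0 (exF b) - cg b) k = h at a1 a2 a3
    simp only [a2, map_sub, map_add, LinearMap.sub_apply, LinearMap.add_apply, hq.gauge,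
      hq.symm _ (gr _), hq.symm h (fl _ _ _)]
    have t0 : 0 ≤ ρ ^ 4 * δ ^ 3 := by positivity
    have t1 : ρ * δ * (240000 * (ρ * δ) ^ 2) ≤ 240000 * (ρ ^ 4 * δ ^ 3) := by
      nlinarith [mul_le_mul_of_nonneg_left ρ1 (by positivity : 0 ≤ ρ ^ 3 * δ ^ 3)]
    have t2 : ρ * (240000 * (ρ * δ) ^ 2) * (240000 * (ρ * δ) ^ 2) ≤ 5760000 * (ρ ^ 4 * δ ^ 3) := by
      nlinarith [mul_le_mul_of_nonneg_left hδ t0]
    rw [abs_le]
    constructor <;> linarith
  simp only [Ph, qf, cx_real m (Bx_real _ _) (Bx_real _ _), Complex.ofReal_re]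
  rw [← sum_coe_sort, Fintype.sum_prod_type, ← sum_sub_distrib]
  refine (abs_sum_le_sum_abs _ _).trans ((sum_le_card_nsmul _ _ _ fun y _ => ?_).trans_eq
    (by rw [card_univ, Fintype.card_coe, nsmul_eq_mul]))
  rw [← sum_sub_distrib]
  refine (abs_sum_le_sum_abs _ _).trans ((sum_le_card_nsmul _ _ _ fun k _ => k1 y k).trans ?_)
  rw [card_univ, Fintype.card_fin, nsmul_eq_mul]
  exact (mul_le_mul_of_nonneg_right GD.d_le (by positivity)).trans_eq (by ring)

theorem lapJ (h : T.Ok C B β) (hq : Qm ρ R m) (hρ : ρ ^ 20 ≤ B) {F : T.Cn → ℝ} (mF : Measurable F)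
    (nn : ∀ v, 0 ≤ F v) {η : ℝ} (up : ∀ v, F v ≤ Real.exp (η - β * Ph m T.M (T.lt v)))
    (lo : ∀ v, (∀ p, nq (v p) ≤ B ^ 7 / √β) → Real.exp (-η - β * Ph m T.M (T.lt v)) ≤ F v) :
    0 < ∫ v, F v * T.w β (B ^ 20 / √β) v ∂hP _ ∧
      |Real.log (∫ v, F v * T.w β (B ^ 20 / √β) v ∂hP _) -
        (Fintype.card (Fin 4 × domv T.M) * Real.log cHa + lg β (hm T.S m R))| ≤ η + B⁻¹ := by
  have B1 := h.B1
  have B0 : 0 < B := by linarith
  have B2 : 1 ≤ B := by linarith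
  have β0 : 0 < β := (pow_pos B0 _).trans_le h.beta
  have ρ1 : 1 ≤ ρ := le_trans (by exact_mod_cast hq.R1) hq.Rρ
  have cB : 10 ^ 8 * cG ≤ B := by
    have := le_mul_of_one_le_left GD.cG_pos.le (one_le_pow₀ (n := 2) h.rig.one)
    linarith [h.big, GD.cG_pos]
  obtain ⟨a, a0, ha, aβ, aB⟩ : ∃ a : ℝ, 0 < a ∧ (∀ t, t / √β = t * a) ∧ β * a ^ 2 = 1 ∧
      B ^ 500 * a ≤ 1 := by
    have q0 := Real.sqrt_pos.2 β0
    refine ⟨(√β)⁻¹, inv_pos.2 q0, fun t => div_eq_mul_inv _ _, ?_, ?_⟩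
    · rw [inv_pow, Real.sq_sqrt β0.le, mul_inv_cancel₀ β0.ne']
    · rw [← div_eq_mul_inv, div_le_one q0]
      exact Real.le_sqrt_of_sq_le (by rw [← pow_mul]; exact h.beta)
  simp only [ha] at lo ⊢
  have pw : ∀ {i j : ℕ}, i ≤ j → B ^ i * a ≤ B ^ j * a := fun hij =>
    mul_le_mul_of_nonneg_right (pow_le_pow_right₀ B2 hij) a0.le
  have pv : ∀ (i : ℕ) {t : ℝ}, t ≤ 10 ^ 15 → t * (B ^ i * a) ≤ B ^ (i + 1) * a := fun i t ht =>
    (mul_le_mul_of_nonneg_right (ht.trans B1) (by positivity)).trans_eq (by ring)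
  set s := B ^ 20 * a with hs
  have s0 : 0 < s := by positivity
  have s1 : s ≤ 1 := (pw (by norm_num)).trans aB
  have hV := h.vol
  have c4 : (Fintype.card (Fin 4 × domv T.M) : ℝ) ≤ 4 * B ^ 4 := by simpa using hV
  have core : ∀ x : Fin 4 × domv T.M × Fin GD.d → ℝ, (∀ p, at1 x p ⬝ᵥ at1 x p ≤ s ^ 2) →
      |β * Ph m T.M (T.lt (ce x)) - β * qf T.S m x| ≤ B⁻¹ / 4 ∧
        Real.exp (-(B⁻¹ / 4)) ≤ jc x ∧ jc x ≤ Real.exp (B⁻¹ / 4) := fun x hx => by
    have ρB : ∀ i ≤ 20, ρ ^ i ≤ B := fun i hi => (pow_le_pow_right₀ ρ1 hi).trans hρ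
    have k1 := Ph_ce hq s0.le hx (by
      have := mul_le_mul_of_nonneg_right (ρB 1 (by norm_num)) s0.le
      have := ((pv 21 (t := 10 ^ 4) (by norm_num)).trans (pw (by norm_num))).trans aB
      linarith [show B * s = B ^ 21 * a by rw [hs]; ring, pow_one ρ ▸ rfl (a := ρ ^ 1 * s)])
    have k2 := jc_bd hx (pow_le_one₀ s0.le s1)
    have k3 : ∀ {t : ℝ}, t ≤ 4 * (B ^ 66 * a) → t ≤ B⁻¹ / 4 := fun ht => ht.trans (by
      rw [le_div_iff₀ four_pos, ← one_div, le_div_iff₀ B0]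
      exact (by ring : _ = 16 * (B ^ 67 * a)).trans_le
        (((pv 67 (by norm_num)).trans (pw (by norm_num))).trans aB))
    have k4 : Fintype.card (Fin 4 × domv T.M) * s ^ 2 ≤ B⁻¹ / 4 := k3 (by
      calc _ ≤ 4 * B ^ 4 * s := mul_le_mul c4 (by nlinarith) (sq_nonneg _) (by positivity)
        _ = 4 * (B ^ 24 * a) := by rw [hs]; ring
        _ ≤ _ := by linarith [pw (i := 24) (j := 66) (by norm_num)])
    refine ⟨k3 ?_, (Real.exp_le_exp.2 (neg_le_neg k4)).trans k2.1, k2.2.trans (Real.exp_le_exp.2 k4)⟩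
    rw [← mul_sub, abs_mul, abs_of_pos β0]
    calc _ ≤ β * (B ^ 4 * (B * B * s ^ 3)) := by
          refine mul_le_mul_of_nonneg_left (k1.trans ?_) β0.le
          have := GD.cG_pos
          gcongr
          exact ρB 4 (by norm_num)
      _ = B ^ 66 * a := by rw [hs]; linear_combination B ^ 66 * a * aβ
      _ ≤ _ := by linarith [show 0 < B ^ 66 * a by positivity]
  have ws : ∀ v, T.w β s v ≠ 0 → ∀ p, nq (v p) ≤ s := fun v hv => by
    by_contra hn
    exact hv (if_neg hn)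
  have mw : Measurable (T.w β s) := by
    refine Measurable.ite ?_ (Continuous.measurable ?_) measurable_const
    · rw [Set.ofPred_forall]
      exact .iInter fun p => measurableSet_le (cont_nq.comp (continuous_apply p)).measurable
        measurable_const
    · have := (continuous_const (y := (Dm T.S)ᵀ)).matrix_mulVec (cont_cv (κ := Fin 4) (X := domv T.M))
      exact (continuous_const.mul (this.dotProduct this)).neg.rexp
  have w0 : ∀ v, 0 ≤ T.w β s v := fun v => by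
    unfold w
    split_ifs
    exacts [(Real.exp_pos _).le, le_rfl]
  have lap := laplace (sb_hm T.orp_S hq h.pc B0) (by positivity) β0
    (F := fun x => F (ce x) * T.w β s (ce x) * jc x) (((mF.mul mw).comp meas_ce).mul meas_jc) 0
    (η := η + B⁻¹ / 2) (r := B ^ 7 * a / 2) (τ := B)
    (fun x => mul_nonneg (mul_nonneg (nn _) (w0 _)) (jc_nonneg _))
    (fun x => ?_) (fun x hx => ?_) B2 ?_
  · have c0 := pow_pos cHa_pos (Fintype.card (Fin 4 × domv T.M))
    rw [chart (F := fun v => F v * T.w β s v) (mF.mul mw) fun g hg p =>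
      ((ws g (right_ne_zero_of_mul hg) p).trans s1).trans_lt one_lt_two,
      Real.log_mul c0.ne' lap.1.ne', Real.log_pow]
    refine ⟨mul_pos c0 lap.1, ?_⟩
    have h1 : 2 * Real.exp (-B) ≤ B⁻¹ / 2 := by
      have h2 := Real.quadratic_le_exp_of_nonneg B0.le
      rw [Real.exp_neg, le_div_iff₀ two_pos, ← one_div B, le_div_iff₀ B0,
        show 2 * (Real.exp B)⁻¹ * 2 * B = 4 * B / Real.exp B by ring, div_le_one (Real.exp_pos _)]
      nlinarith
    rw [add_sub_add_left_eq_sub]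
    exact lap.2.trans (by linarith)
  · by_cases h1 : T.w β s (ce x) = 0
    · simp only [h1, mul_zero, zero_mul]; positivity
    by_cases h2 : jc x = 0
    · simp only [h2, mul_zero]; positivity
    obtain ⟨k1, -, k3⟩ := core x fun p => by
      rw [show at1 x p = cr (ce x p) from (congrArg (at1 · p) (cv_ce h2)).symm]
      exact (cr_sq _).trans (pow_le_pow_left₀ (nq_nonneg _) (ws _ h1 p) 2)
    simp only [w, if_pos (ws _ h1), cv_ce h2, sub_zero, hm_form T.orp_S hq]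
    refine (mul_le_mul (mul_le_mul_of_nonneg_right (up _) (Real.exp_pos _).le) k3 (jc_nonneg _)
      (by positivity)).trans ?_
    rw [← Real.exp_add, ← Real.exp_add, Real.exp_le_exp]
    linarith [(abs_le.1 k1).1]
  · rw [sub_zero] at hx
    have t1 : B ^ 7 * a ≤ s := pw (by norm_num)
    have t0 : 0 < B ^ 7 * a := by positivity
    have ax : ∀ p, at1 x p ⬝ᵥ at1 x p ≤ (B ^ 7 * a / 2) ^ 2 := fun p => (at_le x p).trans hx
    have hg : ∀ p, nq (ce x p) ≤ B ^ 7 * a := fun p =>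
      (nq_ee (by positivity) (by linarith) (ax p)).trans_eq (by ring)
    obtain ⟨k1, k2, -⟩ := core x fun p => (ax p).trans (pow_le_pow_left₀ (by positivity) (by linarith) 2)
    have j0 := ((Real.exp_pos _).trans_le k2).ne'
    simp only [w, if_pos fun p => (hg p).trans t1, cv_ce j0, sub_zero, hm_form T.orp_S hq]
    refine le_trans ?_ (mul_le_mul (mul_le_mul_of_nonneg_right (lo _ hg) (Real.exp_pos _).le) k2
      (Real.exp_pos _).le (mul_nonneg (nn _) (Real.exp_pos _).le))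
    rw [← Real.exp_add, ← Real.exp_add, Real.exp_le_exp]
    linarith [(abs_le.1 k1).2]
  · have e : β * (6250 * B)⁻¹ * (B ^ 7 * a / 2) ^ 2 / 2 = B ^ 13 / 50000 := by
      field_simp
      linear_combination 50000 * aβ
    have c1 : (Fintype.card (Fin 4 × domv T.M × Fin GD.d) : ℝ) ≤ 4 * (B ^ 4 * B) := by
      simpa using mul_le_mul hV (GD.d_le.trans (by linarith [GD.cG_pos] : cG ≤ B))
        (Nat.cast_nonneg _) (by positivity)
    have p1 : B ≤ B ^ 12 := le_self_pow₀ B2 (by norm_num)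
    have p2 : B ^ 5 ≤ B ^ 12 := pow_le_pow_right₀ B2 (by norm_num)
    have p3 : 10 ^ 15 * B ^ 12 ≤ B ^ 13 :=
      (mul_le_mul_of_nonneg_right B1 (by positivity)).trans_eq (by ring)
    rw [e]
    linarith [show B ^ 4 * B = B ^ 5 by ring]

end Pool.Agent.Lib.MP_7f377f_mp.RG.Lp.Dt
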