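import Pool.Agent.Lib.MP_7f377f_mp.G.GapA

/-! Traces twisted by a multiplication of the slice. -/

noncomputable section

namespace Pool.Agent.Lib.MP_7f377f_mp.Ch

open MeasureTheory Measure Function Pool.Agent.Lib.MP_2d4879_an Hm RGP

variable {G : Type} [MeasurableSpace G] {μ : Measure G} [IsProbabilityMeasure μ] [Group G]
  [MeasurableMul₂ G] {E S : Type}
  {W : (E → G) → (S → G) → (E → G) → ℝ} {F : (Ix E S → G) → ℝ} {a : ℤ} {k : ℕ}

variable (μ W) in
/-- unnormalised expectation on the torus whose last slice is `χ` times the first one -/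
def tt (a : ℤ) (T : ℕ) (χ : E → G) (F : (Ix E S → G) → ℝ) : ℝ :=
  ∫ x, ker μ a (a + T) (fun w => F w * wt W a T w) x (χ * x) ∂PP μ E

namespace Wt

variable (hW : Wt μ W)
include hW

theorem tt_one {T : ℕ} (hT : 0 < T) (bF : BM F) (dF : DependsOn F (Win a (a + T))) :
    tt μ W a T 1 F = tor μ W a T F := by
  rw [tt, tor, int_cyc μ (H := fun w => F w * wt W a T w) hT (bF.mul (hW.bm_wt _ _))
    (DependsOn.mul' dF (dep_wt _ _ le_rfl le_rfl))]
  simp only [one_mul]

theorem tt_int (T : ℕ) (hT : 0 < T) (χ : E → G) (bF : BM F) : tt μ W a T χ F =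
    ∫ w, F (put (a + T) (χ * sl a w) w) * wt W a T (put (a + T) (χ * sl a w) w) ∂PP μ (Ix E S) := by
  rw [int_put μ (H := fun w => F (put (a + T) (χ * sl a w) w) *
    wt W a T (put (a + T) (χ * sl a w) w)) ((bF.mul (hW.bm_wt _ _)).comp
      (meas_put' _ ((meas_sl a).const_mul χ) measurable_id)) a]
  simp only [tt, sl_put, ker, put_comm (show a + T ≠ a by omega)]

theorem tt_cv (bF : BM F) (dF : DependsOn F (Win a (a + (k + 1 : ℕ)))) (s : ℕ) (χ : E → G) :
    tt μ W a (k + 1 + (s + 1)) χ F = ∫ x, cv (PP μ E)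
      (ker μ a (a + (k + 1 : ℕ)) fun w => F w * wt W a (k + 1) w) (pw (PP μ E) (KK μ W) s) x (χ * x)
        ∂PP μ E := by
  rw [tt, ← hW.ker_wt s (a + (k + 1 : ℕ)),
    ← ker_mul μ (bF.mul (hW.bm_wt _ _)) (hW.bm_wt _ _) (DependsOn.mul' dF (dep_wt _ _ le_rfl le_rfl))
      (dep_wt _ _ le_rfl le_rfl) (by omega) (by omega)]
  simp only [wt_add _ (k + 1), mul_assoc, Nat.cast_add _ (s + 1), add_assoc a]

theorem tt_const (s : ℕ) (χ : E → G) :
    tt μ W a (s + 1) χ (fun _ => 1) = ∫ x, pw (PP μ E) (KK μ W) s x (χ * x) ∂PP μ E := by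
  simp only [tt, one_mul, ← hW.ker_wt s a]

end Wt

end Pool.Agent.Lib.MP_7f377f_mp.Ch
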