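import Pool.Agent.Lib.MP_7f377f_mp.G.TwMo
import Pool.Agent.Lib.MP_7f377f_mp.G.TwT0

/-! The transfer kernel of a twisted torus. -/

noncomputable section

set_option linter.unusedSectionVars false
variable [Pool.Agent.Lib.MP_7f377f_mp.GD]

namespace Pool.Agent.Lib.MP_7f377f_mp.YM9

open MeasureTheory Measure Function Filter Topology Pool.Agent.Lib.MP_2d4879_an Hm RGP Ch Finset
open scoped InnerProductSpace
open Y6 (tc tc_conj tc_inv bm_of_cont mp_lr sum_shift)
open RG.Q4 (Zc)

variable {M : Fin 3 → ℕ}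

/-- the twist of a spatial plaquette -/
def czs (z : Tz) (s : Sp M) (i j : Fin 3) : Zc :=
  if s i = -1 ∧ s j = -1 then z i.succ j.succ else 1

/-- the twist in the time direction as a multiplier of a slice -/
def chi (z : Tz) : Ed M → SU2 := fun e => zv (if e.1 e.2 = -1 then z 0 e.2.succ else 1)

/-- the spatially twisted periodic field -/
def liftz (z : Tz) (w : Ix (Ed M) (Sp M) → SU2) : Fd :=
  fun e => zv (coc9 (Matrix.vecCons 1 M) (zs z) e) * lift w e

theorem zmul (a b : Zc) (x y : SU2) : zv a * x * (zv b * y) = zv (a * b) * (x * y) := by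
  rw [zv_mul, mul_assoc, ← mul_assoc x, zv_comm b x, mul_assoc, mul_assoc]

theorem zinv (a : Zc) (x : SU2) : (zv a * x)⁻¹ = zv a⁻¹ * x⁻¹ := by
  rw [_root_.mul_inv_rev, ← zv_inv, zv_comm]

theorem plq_cen (a b c d : Zc) (x y u v : SU2) : zv a * x * (zv b * y) * (zv c * u)⁻¹ * (zv d * v)⁻¹ =
    zv (a * b * c⁻¹ * d⁻¹) * (x * y * u⁻¹ * v⁻¹) := by
  simp only [zinv, zmul]

theorem coc_zero (N : Fin 4 → ℕ) (z : Tz) (x : Z4) : coc9 N z (x, 0) = 1 := by simp [coc9]

theorem coc_zs (z : Tz) {T T' : ℕ} {x x' : Z4} (h : ∀ j : Fin 3, x j.succ = x' j.succ) (i : Fin 4) :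
    coc9 (Matrix.vecCons T M) (zs z) (x, i) = coc9 (Matrix.vecCons T' M) (zs z) (x', i) := by
  refine Fin.cases (by rw [coc_zero, coc_zero]) (fun i => prod_congr rfl fun μ _ => ?_) i
  refine Fin.cases (by simp [zs]) (fun μ => ?_) μ
  simp only [Matrix.cons_val_succ, h]

variable [∀ j, NeZero (M j)]

/-- the twisted spatial plaquettes -/
def w2z (z : Tz) (x : Ed M → SU2) : ℝ := ∑ s, ∑ i, ∑ j, if i < j then 2 - tc (zv (czs z s i j) *
  (x (s, i) * x (s + Pi.single i 1, j) * (x (s + Pi.single j 1, i))⁻¹ * (x (s, j))⁻¹)) else 0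

/-- the weight of one time step -/
def WWz (b : ℝ) (z : Tz) (x : Ed M → SU2) (g : Sp M → SU2) (y : Ed M → SU2) : ℝ :=
  Real.exp (-b * (w2z z x / 2 + w2z z y / 2 + dt (ga g y) x))

variable (z z' : Tz)

theorem w2z_ga (g : Sp M → SU2) (x : Ed M → SU2) : w2z z (ga g x) = w2z z x :=
  sum_congr rfl fun s _ => sum_congr rfl fun i _ => sum_congr rfl fun j _ => by
    rw [← tc_conj (g s) (_ * (x _ * _ * _ * _)), ← mul_assoc (g s), zv_comm]
    simp only [ga, add_right_comm s (Pi.single j 1)]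
    congr 3
    group

theorem w2z_chi (x : Ed M → SU2) : w2z z (chi z' * x) = w2z z x :=
  sum_congr rfl fun s _ => sum_congr rfl fun i _ => sum_congr rfl fun j _ =>
    if_ctx_congr Iff.rfl (fun hij => by
      simp only [Pi.mul_apply, chi, Pi.add_apply, Pi.single_eq_of_ne hij.ne,
        Pi.single_eq_of_ne hij.ne', add_zero, plq_cen, mul_inv_cancel_comm, mul_inv_cancel, zv_one,
        one_mul]) fun _ => rfl

@[fun_prop] theorem cont_w2z : Continuous (w2z (M := M) z) := by
  refine continuous_finsetSum _ fun _ _ => continuous_finsetSum _ fun i _ =>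
    continuous_finsetSum _ fun j _ => ?_
  split_ifs <;> fun_prop

theorem cont_WWz (b : ℝ) : Continuous fun p : (Ed M → SU2) × (Sp M → SU2) × (Ed M → SU2) =>
    WWz b z p.1 p.2.1 p.2.2 := by
  unfold WWz; fun_prop

theorem WWz_inv (b : ℝ) (x : Ed M → SU2) (g : Sp M → SU2) (y : Ed M → SU2) :
    WWz b z x g⁻¹ y = WWz b z y g x := by
  rw [WWz, WWz, add_comm (w2z z x / 2), ← dt_ga g x, ga_ga, dt_comm, mul_inv_cancel, ga_one]

theorem WWz_chi (b : ℝ) (x : Ed M → SU2) (g : Sp M → SU2) (y : Ed M → SU2) :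
    WWz b z (chi z' * x) g (chi z' * y) = WWz b z x g y := by
  have e : ∀ (a : Zc) (p q r u : SU2), p * (zv a * q) * r * (zv a * u)⁻¹ = p * q * r * u⁻¹ :=
    fun a p q r u => by
      rw [← mul_assoc p, zv_comm a p, mul_assoc (zv a), mul_assoc (zv a), zinv, zmul, mul_inv_cancel,
        zv_one, one_mul]
  simp only [WWz, w2z_chi]
  simp only [dt, ga, Pi.mul_apply, chi, e]

theorem WWz_zs (b : ℝ) : WWz (M := M) b (zs z) = WWz b z := by
  funext x g y
  simp only [WWz, w2z, czs, zs, Fin.succ_ne_zero, if_false]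

theorem liftz_zs : liftz (M := M) (zs z) = liftz z := by
  have : zs (zs z) = zs z := funext₂ fun μ ν => by by_cases h : μ = 0 <;> simp [zs, h]
  funext w e
  rw [liftz, this, liftz]

variable [MeasurableSpace SU2] [BorelSpace SU2]

theorem liftz_sft (s : ℤ) (w : Ix (Ed M) (Sp M) → SU2) : liftz z (sft s w) = sht s (liftz z w) := funext fun e => by
  rw [liftz, D2.lift_sft, sht, shf, shf, liftz, coc_zs z (x' := e.1 + Pi.single 0 s) (T' := 1)
    fun j => by simp]

theorem liftz_rfc (s : ℤ) (w : Ix (Ed M) (Sp M) → SU2) :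
    sht s (liftz z (rfc (2 * s) w)) = rfl0 (sht s (liftz z w)) := funext fun e => by
  have := congrFun (D2.lift_rfc s w) e
  simp only [sht, shf, rfl0, liftz] at this ⊢
  rw [this]
  split_ifs with h
  · simp only [h, coc_zero, zv_one, one_mul]
  · rw [coc_zs z (x' := rq e.2 e.2 e.1 + Pi.single 0 s) (T' := 1) fun j => by simp [rq]]

theorem liftz_rfc0 (w : Ix (Ed M) (Sp M) → SU2) : liftz z (rfc 0 w) = rfl0 (liftz z w) := by
  simpa only [mul_zero, D2.sht_zero] using liftz_rfc z 0 w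

theorem dep_liftz {F : Fd → ℝ} {a b : ℤ} (h : DependsOn F (Tm a b)) :
    DependsOn (fun w => F (liftz (M := M) z w)) (Win a b) :=
  D2.dep_lift (F := fun U => F fun e => zv (coc9 (Matrix.vecCons 1 M) (zs z) e) * U e)
    fun _ _ H => h fun e he => by simp only [H e he]

variable (h : Measure SU2) [h.IsHaarMeasure] [IsProbabilityMeasure h] (b : ℝ)

theorem meas_liftz : Measurable (liftz (M := M) z) :=
  measurable_pi_lambda _ fun _ => (measurable_pi_apply _).const_mul _

theorem bm_WWz (x y : Ed M → SU2) : BM fun g => WWz b z x g y :=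
  bm_of_cont ((cont_WWz z b).comp (f := fun g => (x, g, y)) (by fun_prop))

theorem wt_WWz : Wt h (WWz (M := M) b z) :=
  ⟨bm_of_cont (cont_WWz z b), fun _ _ _ => Real.exp_pos _, fun x y => by
    rw [Ch.KK, Ch.KK, ← int_mp (mp_pat h injective_id fun _ => true) (bm_WWz z b x y).meas]
    exact congrArg _ (funext fun g => WWz_inv z b x g y)⟩

theorem KKz_psd (hb : 0 ≤ b) (v : Lp ℝ 2 (PP h (Ed M))) :
    0 ≤ ⟪v, (wt_WWz z h b).gk.op _ v⟫_ℝ := by
  refine (ContinuousMap.toLp_denseRange ℝ (PP h (Ed M)) ℝ (p := 2) (by simp)).induction_on v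
    (isClosed_le continuous_const (by fun_prop)) fun f => ?_
  have bf : BF f := ⟨(bm_of_cont f.continuous).meas, (bm_of_cont f.continuous).bdd⟩
  rw [show ContinuousMap.toLp 2 (PP h (Ed M)) ℝ f = bf.cl _ from rfl, bf.inner_op bf]
  have : BorelSpace ((Ed M → SU2) × (Sp M → SU2)) := inferInstance
  have cF : Continuous fun p : (Ed M → SU2) × (Sp M → SU2) =>
    f p.1 * Real.exp (-b * (w2z z p.1 / 2)) := by fun_prop
  refine (exp_psd ((PP h (Ed M)).prod (PP h (Sp M))) hb cF (Φ := fun p => ga p.2 p.1)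
    (by fun_prop)).trans_eq ?_
  rw [integral_prod _ (Weak.cint _ (by fun_prop))]
  have e : ∀ p : (Ed M → SU2) × (Sp M → SU2), ∫ q : (Ed M → SU2) × (Sp M → SU2),
      f p.1 * Real.exp (-b * (w2z z p.1 / 2)) * (f q.1 * Real.exp (-b * (w2z z q.1 / 2))) *
        Real.exp (-b * dt (ga p.2 p.1) (ga q.2 q.1)) ∂(PP h (Ed M)).prod (PP h (Sp M)) =
      ∫ y, f p.1 * Ch.KK h (WWz b z) p.1 y * f y ∂PP h (Ed M) := fun p => by
    rw [integral_prod _ (Weak.cint _ (by fun_prop))]
    congr 1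
    funext y
    rw [Ch.KK, ← int_mp (mp_lr h p.2⁻¹ 1) (bm_WWz z b p.1 y).meas, ← integral_const_mul,
      ← integral_mul_const]
    congr 1
    funext g
    rw [WWz, ← dt_ga p.2 p.1, ga_ga, dt_comm, show p.2 * (fun i => p.2⁻¹ i * g i * (1 : Sp M → SU2) i)
      = g from funext fun i => by simp]
    simp only [mul_add, Real.exp_add]
    ring
  simp only [e]
  exact (integral_fun_fst (fun x => ∫ y, f x * Ch.KK h (WWz b z) x y * f y ∂PP h (Ed M))).trans
    (by simp)

theorem exists_vacz : ∃ l r e, Vac (PP h (Ed M)) (wt_WWz z h b).gk l r e ∧ r < 1 := by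
  have : TopologicalSpace.SeparableSpace (Lp ℝ 2 (PP h (Ed M))) :=
    have : Fact ((2 : ENNReal) ≠ ⊤) := ⟨ENNReal.ofNat_ne_top⟩
    inferInstance
  obtain ⟨C, hC⟩ := (bm_of_cont (f := fun p : (Ed M → SU2) × (Sp M → SU2) × (Ed M → SU2) =>
    -b * (w2z z p.1 / 2 + w2z z p.2.2 / 2 + dt (ga p.2.1 p.2.2) p.1)) (by fun_prop)).bdd
  refine exists_pf _ (wt_WWz z h b).symm (Real.exp_pos (-C)) fun x y => ?_
  refine le_of_eq_of_le (by simp) (integral_mono (μ := PP h (Sp M))
    (integrable_const (Real.exp (-C))) ((bm_WWz z b x y).integrable _) fun g => ?_)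
  exact Real.exp_le_exp.2 (neg_le_of_abs_le (hC (x, g, y)))

theorem pe_coc (N : Fin 4 → ℕ) (V : Fd) (x : Z4) {i j : Fin 4} (hij : i < j) :
    pe (fun e => zv (coc9 N z e) * V e) x i j = 2 - tc (zv (z i j ^ (dl N x i * dl N x j)) *
      (V (x, i) * V (x + Pi.single i 1, j) * (V (x + Pi.single j 1, i))⁻¹ * (V (x, j))⁻¹)) := by
  have e1 : coc9 N z (x + Pi.single j 1, i) = coc9 N z (x, i) := prod_congr rfl fun μ _ =>
    if_ctx_congr Iff.rfl (fun hμ => by
      simp only [Pi.add_apply, Pi.single_eq_of_ne hij.ne, Pi.single_eq_of_ne (hμ.trans hij).ne,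
        add_zero]) fun _ => rfl
  have e2 : coc9 N z (x + Pi.single i 1, j) = coc9 N z (x, j) * z i j ^ (dl N x i * dl N x j) := by
    rw [coc9, coc9, ← mul_prod_erase _ _ (mem_univ i), ← mul_prod_erase _ _ (mem_univ i),
      mul_right_comm, if_pos hij, if_pos hij, ← zpow_add]
    congr 1
    · simp only [dl, Pi.add_apply, Pi.single_eq_of_ne hij.ne', Pi.single_eq_same, add_zero]
      congr 1
      ring
    · refine prod_congr rfl fun μ hμ => ?_
      simp only [Pi.add_apply, Pi.single_eq_of_ne hij.ne', Pi.single_eq_of_ne (ne_of_mem_erase hμ),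
        add_zero]
  rw [pe, plq_cen, e1, e2]
  congr 4
  rw [mul_inv_cancel_comm, mul_inv_cancel_comm]

theorem action_liftz (T : ℕ) (w : Ix (Ed M) (Sp M) → SU2) :
    ∑ x ∈ box (Matrix.vecCons T M), dens (liftz z w) x =
      ∑ t ∈ range T, (w2z z (sl t w) + dt (ga (tl t w) (sl (t + 1) w)) (sl t w)) := by
  let d : (Ed M → SU2) → (Ed M → SU2) → Sp M → ℝ := fun x y s => (∑ i, ∑ j, if i < j then
    2 - tc (zv (czs z s i j) *
      (x (s, i) * x (s + Pi.single i 1, j) * (x (s + Pi.single j 1, i))⁻¹ * (x (s, j))⁻¹))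
      else 0) + ∑ j, (2 - tc (y (s, j) * (x (s, j))⁻¹))
  have e : ∀ x y : Ed M → SU2, w2z z x + dt y x = ∑ s, d x y s := fun x y => by
    rw [sum_add_distrib, w2z, dt, Fintype.sum_prod_type]
  simp only [e]
  rw [← sum_box T fun t s => d (sl t w) (ga (tl t w) (sl (t + 1) w)) s]
  refine sum_congr rfl fun x _ => ?_
  have e0 : ∀ y, lift w (y, 0) = tl (y 0) w (sp M y) := fun _ => rfl
  have e1 : ∀ y (j : Fin 3), lift w (y, j.succ) = sl (y 0) w (sp M y, j) := fun _ _ => rfl
  have e2 : ∀ i j : Fin 3, zs z i.succ j.succ ^ (dl (Matrix.vecCons 1 M) x i.succ *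
      dl (Matrix.vecCons 1 M) x j.succ) = czs z (sp M x) i j := fun i j => by
    rw [dl_eq (NeZero.pos (M i)), dl_eq (NeZero.pos (M j)), czs, zs, if_neg (Fin.succ_ne_zero _)]
    change z _ _ ^ ((if sp M x i = -1 then 1 else 0) * if sp M x j = -1 then 1 else 0 : ℤ) = _
    by_cases h1 : sp M x i = -1 <;> by_cases h2 : sp M x j = -1 <;> simp [h1, h2]
  have e3 : dens (liftz z w) x = ∑ i, ∑ j, if i < j then 2 - tc (zv (zs z i j ^
      (dl (Matrix.vecCons 1 M) x i * dl (Matrix.vecCons 1 M) x j)) * (lift w (x, i) *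
        lift w (x + Pi.single i 1, j) * (lift w (x + Pi.single j 1, i))⁻¹ * (lift w (x, j))⁻¹))
        else 0 := sum_congr rfl fun i _ => sum_congr rfl fun j _ =>
    if_ctx_congr Iff.rfl (fun hij => pe_coc (zs z) _ (lift w) x hij) fun _ => rfl
  rw [e3, Fin.sum_univ_succ, add_comm]
  simp only [Fin.sum_univ_succ (n := 3), Fin.not_lt_zero, if_false, zero_add, Fin.succ_pos, if_true,
    Fin.succ_lt_succ_iff, e0, e1, e2, sp_add, sp_zero, sp_succ, add_zero, Pi.add_apply,
    Pi.single_eq_same, Pi.single_eq_of_ne (Fin.succ_ne_zero _).symm, show ∀ j, zs z 0 j = 1 from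
      fun _ => if_pos rfl, one_zpow, zv_one, one_mul]
  rfl

theorem wt_ends {a : ℤ} {T : ℕ} {w : Ix (Ed M) (Sp M) → SU2}
    (e : w2z z (sl (a + T) w) = w2z z (sl a w)) : wt (WWz b z) a T w = Real.exp (-b * ∑ t ∈ range T,
      (w2z z (sl (a + t) w) + dt (ga (tl (a + t) w) (sl (a + t + 1) w)) (sl (a + t) w))) := by
  have h1 := sum_range_succ (fun t : ℕ => w2z z (sl (a + t) w)) T
  rw [sum_range_succ', e] at h1
  simp only [Nat.cast_zero, add_zero, Nat.cast_succ, ← add_assoc] at h1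
  simp only [wt, WWz, ← Real.exp_sum, ← mul_sum, sum_add_distrib, ← sum_div]
  rw [add_right_cancel h1, add_halves]

theorem zt_tor {T : ℕ} (a : ℤ) {F : Fd → ℝ} (mF : Measurable F) :
    zt h b (Matrix.vecCons T M) (zs z) F = tor h (WWz (M := M) b z) a T fun w => F (liftz z w) := by
  have p1 : ∀ w t, sl (t + T) (cyc a T w) = sl (E := Ed M) (S := Sp M) (G := SU2) t (cyc a T w) :=
    fun w t => funext fun e => by simp only [sl, cyc, add_sub_right_comm, Int.add_emod_right]
  have p2 : ∀ w t, tl (t + T) (cyc a T w) = tl (E := Ed M) (S := Sp M) (G := SU2) t (cyc a T w) :=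
    fun w t => funext fun e => by simp only [tl, cyc, add_sub_right_comm, Int.add_emod_right]
  have e : ∀ V : Fd, (fun e => zv (coc9 (Matrix.vecCons T M) (zs z) e) * V e) =
      fun e => zv (coc9 (Matrix.vecCons 1 M) (zs z) e) * V e := fun V => funext fun e => by
    rw [coc_zs z (x := e.1) (x' := e.1) (T' := 1) fun _ => rfl]
  have m : Measurable fun (V : Fd) e => zv (coc9 (Matrix.vecCons 1 M) (zs z) e) * V e :=
    measurable_pi_lambda _ fun _ => (measurable_pi_apply _).const_mul _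
  refine Eq.trans ?_ ((int_per h (T := T) a
    ((mF.mul (cont_bw b (Matrix.vecCons T M)).measurable).comp m)).trans
    (congrArg _ (funext fun w => congrArg (F (liftz z (cyc a T w)) * ·) ?_)))
  · simp only [zt, Function.comp_apply, ← e]
    rfl
  · rw [wt_ends z b (congrArg _ (p1 w a)), sum_shift (f := fun t => w2z z (sl t (cyc a T w)) +
      dt (ga (tl t (cyc a T w)) (sl (t + 1) (cyc a T w))) (sl t (cyc a T w)))
      (fun t => by simp only [p1, p2, add_right_comm t T]) a, ← action_liftz]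
    rfl

theorem zt_ker {T : ℕ} (hT : 0 < T) {F : Fd → ℝ} (bF : BM F) (dF : DependsOn F (Tm 0 T)) :
    zt h b (Matrix.vecCons T M) z F =
      tt h (WWz (M := M) b z) 0 T (chi z) fun w => F (liftz z w) := by
  have m : Measurable fun (V : Fd) e => zv (coc9 (Matrix.vecCons T M) z e) * V e :=
    measurable_pi_lambda _ fun _ => (measurable_pi_apply _).const_mul _
  rw [(wt_WWz z h b).tt_int T hT _ (bF.comp (meas_liftz z))]
  refine (int_per h (T := T) 0 ((bF.meas.mul (cont_bw b (Matrix.vecCons T M)).measurable).comp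
    m)).trans (congrArg _ (funext fun w => ?_))
  set w' := put ((0 : ℤ) + T) (chi z * sl 0 w) w with hw
  set V : Fd := fun e => zv (coc9 (Matrix.vecCons T M) z e) * lift (cyc 0 T w) e with hV
  have c : ∀ (x : Z4) (j : Fin 3), coc9 (Matrix.vecCons T M) z (x, j.succ) =
      z 0 j.succ ^ (x 0 / T * dl (Matrix.vecCons T M) x j.succ) *
        coc9 (Matrix.vecCons 1 M) (zs z) (x, j.succ) := fun x j => by
    simp only [coc9, Fin.prod_univ_succ (n := 3), Fin.succ_pos, if_true, zs, one_zpow, one_mul,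
      Fin.succ_ne_zero, if_false, Matrix.cons_val_succ, Matrix.cons_val_zero, dl]
  have k1 : ∀ e : Link, 0 ≤ e.1 0 → e.1 0 < T → V e = liftz z w' e := fun ⟨x, i⟩ h0 h1 => by
    have a : lift (cyc 0 T w) (x, i) = lift w' (x, i) := by
      simp only [lift, cyc, hw, put, ix, zero_add, sub_zero, Int.emod_eq_of_lt h0 h1, if_neg h1.ne]
    simp only [hV, liftz, a]
    refine Fin.cases (by rw [coc_zero, coc_zero]) (fun j => ?_) i
    rw [c, Int.ediv_eq_zero_of_lt h0 h1, zero_mul, zpow_zero, one_mul]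
  have k2 : ∀ (x : Z4) (j : Fin 3), 0 ≤ x 0 → x 0 ≤ T → V (x, j.succ) = liftz z w' (x, j.succ) :=
    fun x j h0 h1 => by
      rcases h1.lt_or_eq with h1 | h1
      · exact k1 _ h0 h1
      have a : lift w' (x, j.succ) = chi z (sp M x, j) * lift (cyc 0 T w) (x, j.succ) := by
        simp [lift, cyc, hw, put, ix, h1, sl]
      simp only [hV, liftz, a, c, h1, Int.ediv_self (show (T : ℤ) ≠ 0 by omega), one_mul, chi,
        ← mul_assoc, ← zv_mul, mul_comm (coc9 _ _ _)]
      rw [dl_eq (NeZero.pos (M j))]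
      change zv (z _ _ ^ (if sp M x j = -1 then 1 else 0 : ℤ) * _) * _ = _
      split_ifs <;> simp
  change F V * bw b _ V = _
  rw [dF fun e he => k1 e he.1 he.2, wt_ends z b (by
    rw [hw, sl_put, sl_put_ne (by omega), w2z_chi]), bw]
  simp only [zero_add, ← action_liftz]
  congr 3
  refine sum_congr rfl fun x hx => sum_congr rfl fun i _ => sum_congr rfl fun j _ =>
    if_ctx_congr Iff.rfl (fun hij => ?_) fun _ => rfl
  have hx0 := mem_Ico.1 (Fintype.mem_piFinset.1 hx 0)
  rw [Matrix.cons_val_zero] at hx0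
  obtain ⟨j, rfl⟩ := Fin.exists_succ_eq.2 (Fin.ne_zero_of_lt hij)
  rw [k1 (x, i) hx0.1 hx0.2, k1 (x, j.succ) hx0.1 hx0.2, k1 (x + Pi.single j.succ 1, i)
    (by simpa using hx0.1) (by simpa using hx0.2), k2 (x + Pi.single i 1) j]
  all_goals
    rw [Pi.add_apply, Pi.single_apply]
    split_ifs <;> omega

end Pool.Agent.Lib.MP_7f377f_mp.YM9
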