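import Pool.Agent.Lib.MP_7f377f_mp.RGBase

/-! Linear algebra of the Laplace method on twisted tori: definitions. -/

noncomputable section

namespace Pool.Agent.Lib.MP_7f377f_mp.RG.Lp

open Finset Matrix
open scoped Kronecker

variable {ι σ κ κ' : Type} [Fintype ι] [Fintype σ] [DecidableEq σ] [Fintype κ]

theorem dot0 (x : ι → ℝ) : 0 ≤ x ⬝ᵥ x := sum_nonneg fun _ _ => mul_self_nonneg _

/-- a symmetric matrix with spectrum in `[c, Λ]` -/
structure Sb (c Λ : ℝ) (M : Matrix ι ι ℝ) : Prop where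
  symm : Mᵀ = M
  lo : ∀ x, c * (x ⬝ᵥ x) ≤ x ⬝ᵥ M *ᵥ x
  up : ∀ x, x ⬝ᵥ M *ᵥ x ≤ Λ * (x ⬝ᵥ x)

/-- logarithm of the Gaussian integral -/
def lg [DecidableEq ι] (β : ℝ) (M : Matrix ι ι ℝ) : ℝ :=
  Fintype.card ι / 2 * Real.log (Real.pi / β) - Real.log M.det / 2

/-- an orthogonal representation of the lattice -/
structure Orp (S : St → Matrix σ σ ℝ) : Prop where
  zero : S 0 = 1
  add : ∀ v w, S (v + w) = S v * S w
  neg : ∀ v, S (-v) = (S v)ᵀ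

/-- the operator with kernel `K` of range `r` in the representation `S` -/
def rp (S : St → Matrix σ σ ℝ) (r : ℕ) (K : St → Matrix κ κ' ℝ) : Matrix (κ × σ) (κ' × σ) ℝ :=
  ∑ y ∈ box r, K y ⊗ₖ S y

/-- the field on the lattice seen from `i` -/
def fl (S : St → Matrix σ σ ℝ) (x : κ × σ → ℝ) (i : σ) : St × κ → ℝ :=
  fun e => (S e.1 *ᵥ fun j => x (e.2, j)) i

/-- the covariant gradient -/
def Dm (S : St → Matrix σ σ ℝ) : Matrix (Fin 4 × σ) (Unit × σ) ℝ :=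
  of fun p j => (S (un p.1) - 1) p.2 j.2

/-- Poincare inequality -/
def Pc (S : St → Matrix σ σ ℝ) (p : ℝ) : Prop :=
  ∀ f : σ → ℝ, f ⬝ᵥ f ≤ p * ∑ μ, ((S (un μ) - 1) *ᵥ f) ⬝ᵥ ((S (un μ) - 1) *ᵥ f)

/-- the quadratic form of the density `m` -/
def qf (S : St → Matrix σ σ ℝ) (m : BF) (x : Fin 4 × σ → ℝ) : ℝ := ∑ i, m (fl S x i) (fl S x i)

end Pool.Agent.Lib.MP_7f377f_mp.RG.Lp
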