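import Pool.Agent.Lib.MP_7f377f_mp.G.TwCoc

/-! One step of the flow on a twisted torus: kernel, invariance, tree gauge. -/

noncomputable section

set_option linter.unusedSectionVars false
variable [Pool.Agent.Lib.MP_7f377f_mp.GD]

namespace Pool.Agent.Lib.MP_7f377f_mp.RG.Q4

open Finset Ms MeasureTheory Measure
open scoped ENNReal

theorem qv_rcv' (M : Fin 4 → ℕ) (x : St) : qv M (rcv M x) = 0 := funext fun i => by
  simp only [qv, rcv, sub_add_cancel, Pi.zero_apply]
  rcases Nat.eq_zero_or_pos (M i) with h | h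
  · simp [h]
  · exact Int.ediv_eq_zero_of_lt (Int.emod_nonneg _ (by omega)) (Int.emod_lt_of_pos _ (by omega))

theorem Cq.uh {U V : Conf} (h : Cq U V) (l : ℕ) : uh l V = uh l U := by
  obtain ⟨k, hk, rfl⟩ := h
  rw [Mx.uh_gauge, hk.comm, mul_inv_cancel_right]

theorem hb_sh (l : ℕ) (y : St) (V : Conf) (x : St) :
    hb l (sh (up l y) V) x = hb l V (x + up l y) := by
  simp only [hb, yo_add_up, RG.sh_sh, up_add, add_sub_add_right_eq_sub]

variable [Tws]

theorem Mx.per_pc_t (n : ℕ) (U : Conf) : PerT n (pcT n U) := funext fun e => by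
  have : coc (sd n) Tws.z (rcT n e.1, e.2) = 1 := by rw [coc_eq, rcT, qv_rcv', zb_zero_left]
  simp only [pcT, this, rcT_rcT, OneMemClass.coe_one, one_mul]

theorem coc_tree {l n : ℕ} (hn : Odd n) {e : Lk} (h : tree l e) :
    coc (sd (LL l * n)) Tws.z e = 1 := by rw [sd_mul, coc_fi _ (odd_sd hn), if_pos h.1]

theorem PerT.trz {l n : ℕ} (hn : Odd n) {U : Conf} (h : PerT (LL l * n) U) :
    PerT (LL l * n) (trz l U) := funext fun e => by
  rw [pcT_apply, Q4.trz, Q4.trz, if_congr (tree_rlT l n e) rfl rfl]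
  split_ifs with he
  · rw [coc_tree hn he, OneMemClass.coe_one, one_mul]
  · exact (h.rl e).symm

theorem PerT.hb {l n : ℕ} (hn : Odd n) {U : Conf} (h : PerT (LL l * n) U) :
    PST (LL l * n) (hb l U) := PST_iff.2 fun x y hc => by
  obtain ⟨v, rfl⟩ := hc.ex
  rw [← up_pvT, ← hb_sh, h.sh_up hn]
  refine hb_congr (fun e he => ?_) y
  rw [((cen_omT n v).comp (yo l)).gauge_apply, he.1, mul_inv_cancel, one_mul]

theorem PerT.blkN {l n : ℕ} (hn : Odd n) {U : Conf} (hU : PerT (LL l * n) U) {ω : St → Om}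
    (hω : PST n ω) : PerT n (blkN l U ω) :=
  (hU.blk hn hω).gauge fun y => by
    rw [(hU.sh_cg (odd_LL l hn) ((cgT_rc n y).up l)).uh]

/-- kernel of a step built from a block field `bk` -/
def kerT (bk : Conf → (St → Om) → Conf) (l : ℕ) (a : ℝ) (n : ℕ) (W U : Conf) (ω : St → Om) : ℝ :=
  (∏ y ∈ domT n, wt l (sh (up l y) U) (ω y)) * ∏ b ∈ ldomT n, hk a (W b * (bk U ω b)⁻¹)

/-- one step for a function `f` on the torus of side `LL l * n` -/
def TTT (l : ℕ) (a : ℝ) (n : ℕ) (f : Conf → ℂ) (W : Conf) : ℂ :=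
  ∫ v : Conf × (St → Om), f (pcT (LL l * n) v.1) *
    (kerT (blk l) l a n W (pcT (LL l * n) v.1) (pcsT n v.2) : ℝ) ∂(PP.prod (OO l))

/-- bounded measurable functions invariant under gauge transformations of period `n` -/
def GIT (n : ℕ) (f : Conf → ℂ) : Prop :=
  Measurable f ∧ (∃ M, ∀ U, ‖f U‖ ≤ M) ∧
    ∀ (u : St → S3) (U : Conf), PST n u → PerT n U → f (gauge Inv.inv u U) = f U

/-- invariance under magnetic translations and central gauge maps -/
def SymT (n : ℕ) (f : Conf → ℂ) : Prop := ∀ U, PerT n U → (∀ x, f (shT n x U) = f U) ∧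
  ∀ h, Cen h → PerT n (gauge Inv.inv h U) → f (gauge Inv.inv h U) = f U

/-- density after `i` steps on the torus of side `n`; `l i`, `a i` are the data of step `i` -/
def rhoT (l : ℕ → ℕ) (a : ℕ → ℝ) (β : ℝ) : ℕ → ℕ → Conf → ℂ
  | 0, n => fun U => (wilT β n U : ℝ)
  | i + 1, n => TTT (l i) (a i) n (rhoT l a β i (LL (l i) * n))

/-- weight of the base data -/
def WtT (l n : ℕ) (U : Conf) (ω : St → Om) : ℝ := ∏ y ∈ domT n, wt l (sh (up l y) U) (ω y)

/-- density of the noise -/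
def HkT (a : ℝ) (n : ℕ) (W B : Conf) : ℝ := ∏ b ∈ ldomT n, hk a (W b * (B b)⁻¹)

/-- the integrand of a step -/
def ItgT (bk : Conf → (St → Om) → Conf) (l : ℕ) (a : ℝ) (n : ℕ) (f : Conf → ℂ) (W : Conf)
    (v : Conf × (St → Om)) : ℂ := f v.1 * (kerT bk l a n W v.1 v.2 : ℝ)

namespace Mx

theorem ker_eq_t (bk : Conf → (St → Om) → Conf) (l : ℕ) (a : ℝ) (n : ℕ) (W U : Conf) (ω : St → Om) :
    kerT bk l a n W U ω = WtT l n U ω * HkT a n W (bk U ω) := rfl

theorem meas_Wt_t (l n : ℕ) : Measurable fun v : Conf × (St → Om) => WtT l n v.1 v.2 := by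
  refine measurable_fun_prod _ fun y _ => ?_
  have h2 : Measurable fun v : Conf × (St → Om) => (sh (up l y) v.1, v.2 y) :=
    ((cont_sh _).measurable.comp measurable_fst).prodMk (by fun_prop)
  have h3 := (measurable_wt l).comp h2
  simpa only [Function.comp_def] using h3

theorem cont_Hk_t (a : ℝ) (n : ℕ) : Continuous fun v : Conf × Conf => HkT a n v.1 v.2 :=
  continuous_finsetProd _ fun b _ => (cont_hk a).comp (by fun_prop)

theorem Wt_bd_t (l n : ℕ) : ∃ C : ℝ, ∀ U ω, 0 ≤ WtT l n U ω ∧ WtT l n U ω ≤ C :=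
  ⟨_, fun _ _ => ⟨prod_nonneg fun _ _ => ((wt_int l _).1 _).1,
    prod_le_prod (fun _ _ => ((wt_int l _).1 _).1) fun _ _ => ((wt_int l _).1 _).2⟩⟩

theorem Hk_bd_t (a : ℝ) (n : ℕ) : ∃ c C : ℝ, 0 < c ∧ ∀ W B, c ≤ HkT a n W B ∧ HkT a n W B ≤ C := by
  obtain ⟨c, C, h0, h⟩ := hk_bd a
  exact ⟨∏ _ ∈ ldomT n, c, _, prod_pos fun _ _ => h0, fun W B =>
    ⟨prod_le_prod (fun _ _ => h0.le) fun _ _ => (h _).1,
      prod_le_prod (fun _ _ => (hk_pos _ _).le) fun _ _ => (h _).2⟩⟩

theorem ker_bd_t (l : ℕ) (a : ℝ) (n : ℕ) : ∃ C : ℝ, ∀ bk W U ω,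
    0 ≤ kerT bk l a n W U ω ∧ kerT bk l a n W U ω ≤ C := by
  obtain ⟨C, h⟩ := Wt_bd_t l n
  obtain ⟨c, C', h0, h'⟩ := Hk_bd_t a n
  exact ⟨C * C', fun bk W U ω => ⟨mul_nonneg (h _ _).1 (h0.le.trans (h' _ _).1),
    mul_le_mul (h _ _).2 (h' _ _).2 (h0.le.trans (h' _ _).1) ((h U ω).1.trans (h _ _).2)⟩⟩

theorem int_Wt_t (l n : ℕ) (U : Conf) : ∫ ω, WtT l n U ω ∂OO l = 1 := by
  have h := integral_restrict_infinitePi (μ := fun _ : St => unO l) (s := domT n)
    (f := fun w => ∏ y : domT n, wt l (sh (up l y) U) (w y))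
    Measurable.of_discrete.aestronglyMeasurable
  rw [integral_fintype_prod_eq_prod fun (y : domT n) o => wt l (sh (up l y) U) o] at h
  simp only [(wt_int l _).2.1, prod_const_one] at h
  rw [← h]
  exact integral_congr_ae (.of_forall fun ω => (prod_coe_sort _ _).symm)

theorem meas_ker_t {bk : Conf → (St → Om) → Conf} (l : ℕ) (a : ℝ) (n : ℕ)
    (hb : Measurable fun v : Conf × (St → Om) => bk v.1 v.2) :
    Measurable fun v : Conf × Conf × (St → Om) => kerT bk l a n v.1 v.2.1 v.2.2 := by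
  have h0 : Measurable fun v : Conf × Conf × (St → Om) => v.2 := measurable_snd
  have h1 := (meas_Wt_t l n).comp h0
  have h2 := (cont_Hk_t a n).measurable.comp (measurable_fst.prodMk (hb.comp h0))
  simp only [Function.comp_def] at h1 h2
  exact h1.mul h2

theorem int_rel_t {l n N : ℕ} {G : Conf × (St → Om) → ℂ} (hG : Measurable G) {S : Conf → Conf}
    {S' : (St → Om) → St → Om} (hS : Measurable S) (hS' : Measurable S')
    (h1 : PP.map S = PP.map (pcT N)) (h2 : (OO l).map S' = (OO l).map (pcsT n)) :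
    ∫ v, G (S v.1, S' v.2) ∂PP.prod (OO l) = ∫ v, G (pcT N v.1, pcsT n v.2) ∂PP.prod (OO l) := by
  have e1 := integral_map (μ := PP.prod (OO l)) (hS.prodMap hS').aemeasurable
    hG.aestronglyMeasurable
  have e2 := integral_map (μ := PP.prod (OO l))
    ((cont_pcT N).measurable.prodMap (meas_pcsT (α := Om) n)).aemeasurable hG.aestronglyMeasurable
  rw [← map_prod_map _ _ hS hS', h1, h2] at e1
  rw [← map_prod_map _ _ (cont_pcT N).measurable (meas_pcsT n)] at e2
  exact e1.symm.trans e2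

theorem TT_eq_t (l : ℕ) (a : ℝ) (n : ℕ) (f : Conf → ℂ) (W : Conf) : TTT l a n f W =
    ∫ v, ItgT (blk l) l a n f W (pcT (LL l * n) v.1, pcsT n v.2) ∂PP.prod (OO l) := rfl

theorem meas_Itg_t {bk : Conf → (St → Om) → Conf} (l : ℕ) (a : ℝ) (n : ℕ) {f : Conf → ℂ}
    (hb : Measurable fun v : Conf × (St → Om) => bk v.1 v.2) (hf : Measurable f) :
    Measurable fun v : Conf × Conf × (St → Om) => ItgT bk l a n f v.1 v.2 :=
  (hf.comp (measurable_fst.comp measurable_snd)).mul
    (Complex.measurable_ofReal.comp (meas_ker_t l a n hb))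

theorem meas_Itg'_t {bk : Conf → (St → Om) → Conf} (l : ℕ) (a : ℝ) (n : ℕ) {f : Conf → ℂ}
    (hb : Measurable fun v : Conf × (St → Om) => bk v.1 v.2) (hf : Measurable f) (W : Conf) :
    Measurable (ItgT bk l a n f W) := by
  have := (meas_Itg_t l a n hb hf).comp (measurable_prodMk_left (x := W))
  simpa only [Function.comp_def] using this

theorem Itg_bd_t (l : ℕ) (a : ℝ) (n : ℕ) : ∃ C : ℝ, 0 ≤ C ∧ ∀ bk (f : Conf → ℂ) M W v,
    (∀ U, ‖f U‖ ≤ M) → ‖ItgT bk l a n f W v‖ ≤ M * C := by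
  obtain ⟨C, h⟩ := ker_bd_t l a n
  refine ⟨C, (h (blk l) 1 1 fun _ => (0, 1)).1.trans (h _ _ _ _).2, fun bk f M W v hf => ?_⟩
  rw [ItgT, norm_mul, Complex.norm_real, Real.norm_of_nonneg (h _ _ _ _).1]
  exact mul_le_mul (hf _) (h _ _ _ _).2 (h _ _ _ _).1 ((norm_nonneg _).trans (hf 1))

theorem meas_pp_t (N n : ℕ) : Measurable fun v : Conf × (St → Om) => (pcT N v.1, pcsT n v.2) :=
  (cont_pcT N).measurable.prodMap (meas_pcsT n)

theorem meas_TT_t (l : ℕ) (a : ℝ) (n : ℕ) {f : Conf → ℂ} (hf : Measurable f) :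
    Measurable (TTT l a n f) := by
  have h := (meas_Itg_t l a n (measurable_blk l) hf).comp
    ((measurable_id (α := Conf)).prodMap (meas_pp_t (LL l * n) n))
  exact (h.stronglyMeasurable.integral_prod_right' (ν := PP.prod (OO l))).measurable

theorem TT_bd_t (l : ℕ) (a : ℝ) (n : ℕ) : ∃ C : ℝ, ∀ (f : Conf → ℂ) M W,
    (∀ U, ‖f U‖ ≤ M) → ‖TTT l a n f W‖ ≤ M * C := by
  obtain ⟨C, -, h⟩ := Itg_bd_t l a n
  refine ⟨C, fun f M W hf => ?_⟩
  rw [TT_eq_t]
  simpa using norm_integral_le_of_norm_le_const (μ := PP.prod (OO l))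
    (.of_forall fun v => h (blk l) f M W (pcT (LL l * n) v.1, pcsT n v.2) hf)

theorem Hk_gauge_t (a : ℝ) (n : ℕ) (u : St → S3) (W B : Conf) :
    HkT a n (gauge Inv.inv u W) (gauge Inv.inv u B) = HkT a n W B := by
  refine prod_congr rfl fun b _ => ?_
  rw [← hk_conj a (u b.1) (W b * _)]
  congr 1
  simp only [gauge]
  group

theorem Wt_gauge_t (l n : ℕ) (u : St → S3) (U : Conf) (ω : St → Om) :
    WtT l n (gauge Inv.inv u U) ω = WtT l n U ω := by simp only [WtT, sh_gauge, wt_gauge]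

theorem prod_shT {M : Type} [CommMonoid M] {n : ℕ} (hn : Odd n) {g : St → M} (hg : PST n g)
    (v : St) : ∏ x ∈ domT n, g (x + v) = ∏ x ∈ domT n, g x :=
  prod_rel (r := rcT n) (φ := (· + v)) (rcT_mem hn) (fun _ => rcT_id hn)
    (fun _ _ h => rcT_cg ((cgT_add_iff v).1 (rcT_iff.1 h))) hg

theorem sum_shT {M : Type} [AddCommMonoid M] {n : ℕ} (hn : Odd n) {g : St → M} (hg : PST n g)
    (v : St) : ∑ x ∈ domT n, g (x + v) = ∑ x ∈ domT n, g x :=
  prod_shT (M := Multiplicative M) hn hg v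

theorem prod_ldomT {M : Type} [CommMonoid M] (n : ℕ) (g : Lk → M) :
    ∏ e ∈ ldomT n, g e = ∏ x ∈ domT n, ∏ μ, g (x, μ) := prod_product' _ _ fun x μ => g (x, μ)

theorem ker_shT {l n : ℕ} {a : ℝ} (hn : Odd n) {W V : Conf} {ω : St → Om} (hW : PerT n W)
    (hV : PerT (LL l * n) V) (hω : PST n ω) (x : St) :
    kerT (blk l) l a n (shT n x W) (shT (LL l * n) (up l x) V) (fun y => ω (y + x)) =
      kerT (blk l) l a n W V ω := by
  rw [ker_eq_t, ker_eq_t, blk_shT hn, shT, shT, shT, Hk_gauge_t, Wt_gauge_t]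
  congr 1
  · simp only [WtT, RG.sh_sh, ← up_add]
    exact prod_shT hn (g := fun y => wt l (sh (up l y) V) (ω y)) (fun y => by
      simp only [hω y, (hV.sh_cg (odd_LL l hn) ((cgT_rc n y).up l)).wt]) x
  · simp only [HkT, prod_ldomT]
    exact prod_shT hn (g := fun y => ∏ μ, hk a (W (y, μ) * (blk l V ω (y, μ))⁻¹)) (fun y =>
      prod_congr rfl fun μ _ => congrArg _ ((hW.div (hV.blk hn hω)).rl (y, μ))) x

end Mx

open Mx

theorem GIT.step {l n : ℕ} {a : ℝ} (ha : 0 ≤ a) (hn : Odd n) {f : Conf → ℂ} (h : GIT (LL l * n) f) :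
    GIT n (TTT l a n f) := by
  have _ := ha
  have _ := hn
  obtain ⟨hm, ⟨M, hM⟩, hg⟩ := h
  obtain ⟨C, hC⟩ := TT_bd_t l a n
  refine ⟨meas_TT_t l a n hm, ⟨_, fun W => hC f M W hM⟩, fun u W hu _ => ?_⟩
  have hv : PST (LL l * n) fun x => u (yo l x) := hu.yo l
  rw [TT_eq_t, TT_eq_t, ← int_rel_t (meas_Itg'_t l a n (measurable_blk l) hm _)
    ((mp_gauge fun x => u (yo l x)).measurable.comp (cont_pcT _).measurable) (meas_pcsT n)
    (map_gaugeT hv) rfl]
  refine integral_congr_ae (.of_forall fun v => ?_)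
  simp only [ItgT, Function.comp, hg _ _ hv (per_pc_t _ _), ker_eq_t, Wt_gauge_t,
    (blk_gauge _ _ _ _).1, yo_up, Hk_gauge_t]

theorem SymT.step {l n : ℕ} {a : ℝ} (ha : 0 ≤ a) (hn : Odd n) {f : Conf → ℂ}
    (h : GIT (LL l * n) f) (hs : SymT (LL l * n) f) : SymT n (TTT l a n f) := by
  have _ := ha
  intro W hW
  have hN := odd_LL l hn
  have hm := fun W => meas_Itg'_t l a n (measurable_blk l) h.1 W
  have hp := (cont_pcT (LL l * n)).measurable
  refine ⟨fun x => ?_, fun u hu hu' => ?_⟩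
  · rw [TT_eq_t, TT_eq_t, ← int_rel_t (hm _) ((cont_shT _ _).measurable.comp hp)
      (S' := fun ω y => pcsT n ω (y + x)) (measurable_pi_lambda _ fun _ => measurable_pi_apply _)
      (map_shT hN (up l x)) (map_rel (unO l) (T := fun _ => id) (fun _ => MeasurePreserving.id _)
        (rcT_rcT n) (fun _ _ => by simp only [rcT_iff, cgT_add_iff]) fun _ => rfl)]
    refine integral_congr_ae (.of_forall fun v => ?_)
    simp only [ItgT, Function.comp, (hs _ (per_pc_t _ _)).1]
    rw [ker_shT hn hW (per_pc_t _ _) (PST_pcsT _ _)]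
  · have h1 := hu'.skl hn l
    rw [skl_gauge] at h1
    rw [TT_eq_t, TT_eq_t, ← int_rel_t (hm _)
      ((mp_gauge fun x => u (yo l x)).measurable.comp hp) (meas_pcsT n)
      (map_cenT hN (hu.comp _) (hW.skl hn l) h1) rfl]
    refine integral_congr_ae (.of_forall fun v => ?_)
    simp only [ItgT, Function.comp, (hs _ (per_pc_t _ _)).2 _ (hu.comp _)
      (PerT.cen (hu.comp _) (hW.skl hn l) h1 (per_pc_t _ _)), ker_eq_t, Wt_gauge_t,
      (blk_gauge _ _ _ _).1, yo_up, Hk_gauge_t]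

namespace Mx

theorem TT_pos_t {l n : ℕ} (a : ℝ) (hn : Odd n) {f : Conf → ℂ} (h : GIT (LL l * n) f)
    (hp : ∀ U, (f U).im = 0 ∧ 0 < (f U).re) (W : Conf) :
    (TTT l a n f W).im = 0 ∧ 0 < (TTT l a n f W).re := by
  obtain ⟨hm, ⟨M, hM⟩, -⟩ := h
  obtain ⟨C, -, hC⟩ := Itg_bd_t l a n
  obtain ⟨c, C', c0, hc⟩ := Hk_bd_t a n
  obtain ⟨C2, hC2⟩ := Wt_bd_t l n
  have hi : Integrable (fun v : Conf × (St → Om) => ItgT (blk l) l a n f W
      (pcT (LL l * n) v.1, pcsT n v.2)) (PP.prod (OO l)) :=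
    .of_bound ((meas_Itg'_t l a n (measurable_blk l) hm W).comp (meas_pp_t _ _)).aestronglyMeasurable _
      (.of_forall fun v => hC _ _ M _ _ hM)
  have h1 : Measurable fun U => (f (pcT (LL l * n) U)).re :=
    Complex.measurable_re.comp (hm.comp (cont_pcT _).measurable)
  have h2 : ∀ U, |(f U).re| ≤ M := fun U => (Complex.abs_re_le_norm _).trans (hM U)
  have hj : Integrable (fun v : Conf × (St → Om) => (f (pcT (LL l * n) v.1)).re *
      WtT l n (pcT (LL l * n) v.1) v.2) (PP.prod (OO l)) := by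
    have h3 := (meas_Wt_t l n).comp ((cont_pcT (LL l * n)).measurable.prodMap measurable_id)
    refine .of_bound ((h1.comp measurable_fst).mul h3).aestronglyMeasurable (M * C2)
      (.of_forall fun v => ?_)
    rw [norm_mul, Real.norm_of_nonneg (hC2 _ _).1]
    exact mul_le_mul (h2 _) (hC2 _ _).2 (hC2 _ _).1 ((abs_nonneg _).trans (h2 1))
  rw [TT_eq_t]
  constructor
  · refine (integral_im hi).symm.trans ?_
    simp [ItgT, (hp _).1]
  · refine lt_of_lt_of_le ?_ ((integral_mono (hj.mul_const c) hi.re fun v => ?_).trans_eq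
      (integral_re hi))
    · rw [integral_mul_const, integral_prod _ hj]
      simp only [integral_const_mul, int_Wt_t, mul_one]
      refine mul_pos ((integral_pos_iff_support_of_nonneg (fun U => (hp _).2.le)
        (.of_bound h1.aestronglyMeasurable M (.of_forall fun U => h2 _))).2 ?_) c0
      rw [Set.eq_univ_of_forall (s := Function.support _) fun U => (hp _).2.ne']
      simp
    · have e : WtT l n (pcT (LL l * n) v.1) (pcsT n v.2) = WtT l n (pcT (LL l * n) v.1) v.2 :=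
        prod_congr rfl fun y hy => by rw [pcsT, rcT_id hn hy]
      simp only [ItgT, RCLike.re_to_complex, Complex.mul_re, Complex.ofReal_re, Complex.ofReal_im,
        mul_zero, sub_zero, ker_eq_t, e, mul_assoc]
      exact mul_le_mul_of_nonneg_left (mul_le_mul_of_nonneg_left (hc _ _).1 (hC2 _ _).1)
        (hp _).2.le

/-- the Wilson action -/
def wact_t (n : ℕ) (U : Conf) : ℝ := ∑ x ∈ domT n, wd (sh x U)

theorem cont_wact_t (n : ℕ) : Continuous (wact_t n) := by
  simp only [funext fun U => show wact_t n U = _ from sum_congr rfl fun x _ => wd_sh x U]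
  have := cont_fq
  fun_prop

theorem wact_eq_t (n : ℕ) (U : Conf) :
    wact_t n U = 2⁻¹ * ∑ μ, ∑ ν, ∑ x ∈ domT n, fq U x μ ν ^ 2 := by
  simp only [wact_t, wd_sh, ← mul_sum]
  rw [Finset.sum_comm]
  exact congrArg _ (sum_congr rfl fun _ _ => Finset.sum_comm)

theorem wact_gauge_t (n : ℕ) (u : St → S3) (U : Conf) :
    wact_t n (gauge Inv.inv u U) = wact_t n U := by simp only [wact_eq_t, fq_gauge]

theorem wact_sym_t {n : ℕ} (hn : Odd n) {U : Conf} (hU : PerT n U) (v : St) :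
    wact_t n (shT n v U) = wact_t n U := by
  have : ∀ μ ν, _ := fun μ ν => sum_shT hn (g := fun x => fq U x μ ν ^ 2)
    (fun x => by simp only [hU.fq_cg hn (cgT_rc n x)]) v
  simp only [shT, wact_eq_t, fq_gauge, fq_sh, this]

theorem rho_bd_t (l : ℕ → ℕ) (a : ℕ → ℝ) (i n : ℕ) : (∀ β, Measurable (rhoT l a β i n)) ∧
    ∀ B, ∃ M, ∀ β, |β| ≤ B → ∀ U, ‖rhoT l a β i n U‖ ≤ M := by
  induction i generalizing n with
  | zero =>
    refine ⟨fun β => Complex.measurable_ofReal.comp ((cont_wact_t n).measurable.const_mul β).neg.exp,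
      fun B => ?_⟩
    obtain ⟨K, hK⟩ := (isCompact_range (cont_wact_t n)).isBounded.exists_norm_le
    refine ⟨Real.exp (B * K), fun β hβ U => ?_⟩
    rw [rhoT, Complex.norm_real, wilT, Real.norm_of_nonneg (Real.exp_pos _).le]
    refine Real.exp_le_exp.2 ((neg_le_abs _).trans ?_)
    rw [abs_mul]
    exact mul_le_mul hβ (hK _ ⟨U, rfl⟩) (abs_nonneg _) ((abs_nonneg _).trans hβ)
  | succ i ih =>
    refine ⟨fun β => meas_TT_t _ _ _ ((ih _).1 β), fun B => ?_⟩
    obtain ⟨M, hM⟩ := (ih (LL (l i) * n)).2 B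
    obtain ⟨C, hC⟩ := TT_bd_t (l i) (a i) n
    exact ⟨M * C, fun β hβ U => hC _ _ _ (hM β hβ)⟩

theorem rho_cont_t (l : ℕ → ℕ) (a : ℕ → ℝ) (i n : ℕ) (U : Conf) :
    Continuous fun β => rhoT l a β i n U := by
  induction i generalizing n U with
  | zero =>
    simp only [rhoT, wilT]
    fun_prop
  | succ i ih =>
    refine continuous_iff_continuousAt.2 fun β => ?_
    obtain ⟨hm, hb⟩ := rho_bd_t l a i (LL (l i) * n)
    obtain ⟨M, hM⟩ := hb (|β| + 1)
    obtain ⟨C, -, hC⟩ := Itg_bd_t (l i) (a i) n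
    simp only [rhoT, TT_eq_t]
    refine continuousAt_of_dominated (bound := fun _ => M * C) (.of_forall fun β' =>
      ((meas_Itg'_t _ _ _ (measurable_blk _) (hm β') U).comp (meas_pp_t _ _)).aestronglyMeasurable) ?_
      (integrable_const _) (.of_forall fun v => ((ih _ _).mul continuous_const).continuousAt)
    filter_upwards [continuous_abs.continuousAt.eventually (gt_mem_nhds (lt_add_one |β|))]
      with β' h
    exact .of_forall fun v => hC _ _ _ _ _ (hM β' h.le)

end Mx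

theorem rho_facts_t (l : ℕ → ℕ) (a : ℕ → ℝ) (ha : ∀ i, 0 ≤ a i) (i n : ℕ) (hn : Odd n) :
    (∀ β, 0 ≤ β → GIT n (rhoT l a β i n) ∧ SymT n (rhoT l a β i n) ∧
      ∀ U, (rhoT l a β i n U).im = 0 ∧ 0 < (rhoT l a β i n U).re) ∧
    ∀ U, Continuous fun β => rhoT l a β i n U := by
  refine ⟨fun β _ => ?_, rho_cont_t l a i n⟩
  induction i generalizing n with
  | zero =>
    have e : ∀ U, rhoT l a β 0 n U = (Real.exp (-(β * wact_t n U)) : ℝ) := fun _ => rfl
    obtain ⟨M, hM⟩ := (rho_bd_t l a 0 n).2 |β|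
    refine ⟨⟨(rho_bd_t l a 0 n).1 β, ⟨M, hM β le_rfl⟩, fun u U _ _ => ?_⟩, fun U hU => ?_,
      fun U => ⟨Complex.ofReal_im _, Real.exp_pos _⟩⟩
    · simp only [e, wact_eq_t, fq_gauge]
    · simp only [e, wact_sym_t hn hU, wact_gauge_t, implies_true, and_self]
  | succ i ih =>
    obtain ⟨h1, h2, h3⟩ := ih (LL (l i) * n) (Odd.mul ⟨l i, rfl⟩ hn)
    exact ⟨h1.step (ha i) hn, h2.step (ha i) hn h1, TT_pos_t _ hn h1 h3⟩

namespace Mx

theorem map_tree_t (l : ℕ) {n : ℕ} (hn : Odd n) :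
    PP.map (fun U => gauge Inv.inv (hb l (pcT (LL l * n) U)) (pcT (LL l * n) U)) =
      PP.map fun U => trz l (pcT (LL l * n) U) := by
  have hN : Odd (LL l * n) := Odd.mul ⟨l, rfl⟩ hn
  set D := (ldomT (LL l * n)).filter fun e => ¬ tree l e with hD
  have hm : ∀ e, ¬ tree l e → rlT (LL l * n) e ∈ D := fun e h =>
    mem_filter.2 ⟨rlT_mem hN _, fun h' => h ((tree_rlT l n e).1 h')⟩
  set E : (D → S3) → Conf := fun w e => if h : tree l e then 1 else
    (coc (sd (LL l * n)) Tws.z e : S3) * w ⟨_, hm e h⟩ with hE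
  have mE : Measurable E := measurable_pi_lambda _ fun e => by
    simp only [hE]
    split_ifs <;> fun_prop
  have hc : ∀ x, Continuous fun U : Conf => hb l (pcT (LL l * n) U) x := fun x =>
    (cont_hb l x).comp (cont_pcT _)
  have h1 := mp_skew (ι := D) Subtype.val_injective
    (a := fun U f => hb l (pcT (LL l * n) U) f.1.1)
    (b := fun U f => (hb l (pcT (LL l * n) U) (f.1.1 + un f.1.2))⁻¹)
    (continuous_pi fun f => hc _).measurable (continuous_pi fun f => (hc _).inv).measurable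
    fun U U' h => by
      have : ∀ x, hb l (pcT (LL l * n) U) x = hb l (pcT (LL l * n) U') x := by
        refine hb_congr fun e he => congrArg _ (h _ ?_)
        rintro ⟨f, hf⟩
        exact (mem_filter.1 f.2).2 (hf ▸ (tree_rlT l n e).2 he)
      simp only [this, and_self]
  have h2 := mp_skew (ι := D) Subtype.val_injective (a := 1) (b := 1) measurable_const
    measurable_const fun _ _ _ => ⟨rfl, rfl⟩
  have := congrArg (Measure.map E) (h1.map_eq.trans h2.map_eq.symm)
  rw [map_map mE h1.measurable, map_map mE h2.measurable] at this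
  convert this using 2 <;> funext U e <;> simp only [hE, Function.comp, trz]
  · have hP := (per_pc_t (LL l * n) U).hb hn
    split_ifs with h
    · exact hb_tree _ h
    · rw [gauge, ← hP.cg (cgT_rc _ e.1), ← hP.cg ((cgT_rc _ e.1).add _), pcT_apply, ← mul_assoc,
        ← zc_comm, mul_assoc, mul_assoc, mul_assoc]
      rfl
  · split_ifs
    · rfl
    · simp [pcT, rlT]

theorem Hk_move_t (a : ℝ) (n : ℕ) (u : St → S3) (W B : Conf) :
    HkT a n W (gauge Inv.inv (fun y => (u y)⁻¹) B) = HkT a n (gauge Inv.inv u W) B := by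
  rw [← Hk_gauge_t a n u]
  congr 1
  funext b
  simp only [gauge]
  group

/-- the integrand at a gauge transform of the coarse field -/
def KK_t (l : ℕ) (a : ℝ) (n : ℕ) (f : Conf → ℂ) (W : Conf) (γ : St → S3) (w : Conf × (St → Om)) : ℂ :=
  ItgT (blk l) l a n f (gauge Inv.inv (pcsT n γ) W) (pcT (LL l * n) w.1, pcsT n w.2)

/-- the corrected gauge transformation -/
def vv_t (l n : ℕ) (U : Conf) (γ : St → S3) : St → S3 :=
  fun y => uh l (sh (up l y) (pcT (LL l * n) U)) * γ y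

theorem meas_KK_t (l : ℕ) (a : ℝ) (n : ℕ) {f : Conf → ℂ} (hf : Measurable f) (W : Conf) :
    Measurable fun z : (St → S3) × Conf × (St → Om) => KK_t l a n f W z.1 z.2 := by
  have mg : Measurable fun γ : St → S3 => gauge Inv.inv (pcsT n γ) W :=
    measurable_pi_lambda _ fun b => by unfold gauge pcsT; fun_prop
  have := (meas_Itg_t l a n (measurable_blk l) hf).comp (mg.prodMap (meas_pp_t (LL l * n) n))
  simpa only [Function.comp_def, Prod.map, KK_t] using this

theorem meas_vv_t (l n : ℕ) :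
    Measurable fun z : (St → S3) × Conf × (St → Om) => vv_t l n z.2.1 z.1 := by
  refine measurable_pi_lambda _ fun y => Measurable.mul ?_ (by fun_prop)
  have h0 : Measurable fun z : (St → S3) × Conf × (St → Om) => z.2.1 := by fun_prop
  have := (meas_uh l).comp (((cont_sh (up l y)).comp (cont_pcT (LL l * n))).measurable.comp h0)
  simpa only [Function.comp_def] using this

theorem int_KK_t {l n : ℕ} (a : ℝ) (hn : Odd n) {f : Conf → ℂ} (h : GIT (LL l * n) f) (W : Conf) (γ : St → S3) :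
    ∫ w, ItgT (blkN l) l a n f W (pcT (LL l * n) w.1, pcsT n w.2) ∂PP.prod (OO l) =
      ∫ w, KK_t l a n f W (vv_t l n w.1 γ) w ∂PP.prod (OO l) := by
  have hu : PST (LL l * n) fun x => (pcsT n γ (yo l x))⁻¹ := ((PST_pcsT n γ).yo l).map _
  rw [← int_rel_t (meas_Itg'_t l a n (measurable_blkN l) h.1 _)
    ((mp_gauge fun x => (pcsT n γ (yo l x))⁻¹).measurable.comp (cont_pcT _).measurable) (meas_pcsT n)
    (map_gaugeT hu) rfl]
  refine integral_congr_ae (.of_forall fun w => ?_)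
  simp only [KK_t, ItgT, Function.comp, h.2.2 _ _ hu (per_pc_t _ _), ker_eq_t, Wt_gauge_t,
    (blk_gauge _ _ _ _).2.1, yo_up]
  have e : pcsT n (vv_t l n w.1 γ) =
      fun y => uh l (sh (up l y) (pcT (LL l * n) w.1)) * pcsT n γ y := by
    funext y
    simp only [pcsT, vv_t, ((per_pc_t _ _).sh_cg (odd_LL l hn) ((cgT_rc n y).up l)).uh]
  rw [Hk_move_t, blkN, Hk_move_t, gauge_gauge, e]

theorem int_vv_t (l n : ℕ) (U : Conf) {F : (St → S3) → ℂ} (hF : Measurable F) :
    ∫ γ, F (vv_t l n U γ) ∂(infinitePi fun _ => haar) = ∫ γ, F γ ∂(infinitePi fun _ => haar) := by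
  have hp : ∀ y, MeasurePreserving (fun g => uh l (sh (up l y) (pcT (LL l * n) U)) * g) haar haar :=
    fun y => measurePreserving_mul_left haar _
  have e := infinitePi_map_pi (fun _ : St => haar) fun y => (hp y).measurable
  simp only [fun y => (hp y).map_eq] at e
  conv_rhs => rw [← e]
  exact (integral_map (measurable_pi_lambda _ fun y =>
    (hp y).measurable.comp (measurable_pi_apply y)).aemeasurable hF.aestronglyMeasurable).symm

end Mx

/-- the block field may be corrected by a covariant gauge transformation -/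
theorem TT_blkNT {l n : ℕ} {a : ℝ} (ha : 0 ≤ a) (hn : Odd n) {f : Conf → ℂ} (h : GIT (LL l * n) f)
    (W : Conf) (hW : PerT n W) : TTT l a n f W =
      ∫ v, ItgT (blkN l) l a n f W (pcT (LL l * n) v.1, pcsT n v.2) ∂PP.prod (OO l) := by
  obtain ⟨M, hM⟩ := h.2.1
  obtain ⟨C, -, hC⟩ := Itg_bd_t l a n
  have mK := meas_KK_t l a n h.1 W
  have mK' := mK.comp ((meas_vv_t l n).prodMk measurable_snd)
  simp only [Function.comp_def] at mK'
  have hb : ∀ γ w, ‖KK_t l a n f W γ w‖ ≤ M * C := fun γ w => hC _ _ M _ _ hM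
  have e3 : ∀ γ, ∫ w, KK_t l a n f W γ w ∂PP.prod (OO l) = TTT l a n f W := fun γ =>
    (h.step ha hn).2.2 _ _ ((PST_pcsT n γ)) hW
  have e4 := integral_integral_swap (f := KK_t l a n f W) (μ := infinitePi fun _ => haar)
    (ν := PP.prod (OO l)) (.of_bound mK.aestronglyMeasurable _ (.of_forall fun z => hb _ _))
  have e5 := integral_integral_swap (f := fun γ w => KK_t l a n f W (vv_t l n w.1 γ) w)
    (μ := infinitePi fun _ => haar)
    (ν := PP.prod (OO l)) (.of_bound mK'.aestronglyMeasurable _ (.of_forall fun z => hb _ _))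
  have e6 : ∀ w : Conf × (St → Om), _ := fun w => int_vv_t l n w.1 (F := fun γ => KK_t l a n f W γ w)
    (by simpa only [Function.comp_def] using mK.comp (measurable_prodMk_right (y := w)))
  simp only [e6, ← e4, e3, ← int_KK_t a hn h W, integral_const, probReal_univ, one_smul] at e5
  exact e5.symm

/-- reduction to the tree gauge and to the corrected block field -/
theorem GIT.tree {l n : ℕ} {a : ℝ} (ha : 0 ≤ a) (hn : Odd n) {f : Conf → ℂ} (h : GIT (LL l * n) f)
    (W : Conf) (hW : PerT n W) : TTT l a n f W = ∫ v : Conf × (St → Om),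
      f (trz l (pcT (LL l * n) v.1)) *
        (kerT (blkN l) l a n W (trz l (pcT (LL l * n) v.1)) (pcsT n v.2) : ℝ) ∂(PP.prod (OO l)) := by
  have hG := meas_Itg'_t l a n (measurable_blkN l) h.1 W
  have m1 : Measurable fun U : Conf => gauge Inv.inv (hb l (pcT (LL l * n) U)) (pcT (LL l * n) U) := by
    have hc : ∀ x, Continuous fun U : Conf => hb l (pcT (LL l * n) U) x := fun x =>
      (cont_hb l x).comp (cont_pcT _)
    exact (continuous_pi fun e => ((hc _).mul ((continuous_apply e).comp (cont_pcT _))).mul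
      (hc _).inv).measurable
  have m2 := ((cont_trz l).comp (cont_pcT (LL l * n))).measurable
  have e1 := integral_map (μ := PP.prod (OO l)) (m1.prodMap (meas_pcsT n)).aemeasurable
    hG.aestronglyMeasurable
  have e2 := integral_map (μ := PP.prod (OO l)) (m2.prodMap (meas_pcsT n)).aemeasurable
    hG.aestronglyMeasurable
  rw [← map_prod_map _ _ m1 (meas_pcsT n), map_tree_t l hn] at e1
  rw [← map_prod_map _ _ m2 (meas_pcsT n)] at e2
  rw [TT_blkNT ha hn h W hW]
  refine Eq.trans ?_ (e1.symm.trans e2)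
  refine integral_congr_ae (.of_forall fun v => ?_)
  simp only [ItgT, Prod.map, h.2.2 _ _ ((per_pc_t _ _).hb hn) (per_pc_t _ _), ker_eq_t,
    Wt_gauge_t, (blk_gauge _ _ _ _).2.1, gauge_one (hb_up l _)]

end Pool.Agent.Lib.MP_7f377f_mp.RG.Q4
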