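import Pool.Agent.Lib.MP_7f377f_mp.G.TwCen

/-! The variables of a step carry the twist through the skeleton of the block field. -/

noncomputable section

set_option linter.unusedSectionVars false
variable [Pool.Agent.Lib.MP_7f377f_mp.GD]

namespace Pool.Agent.Lib.MP_7f377f_mp.RG.Q4

open Finset MeasureTheory Measure
open scoped Classical

/-- the factor of the link `t` of the block `y` -/
def skb (l : ℕ) (W : Conf) (y : St) (t : Lk) : S3 := if t.1 + un t.2 ∈ box l then 1 else W (y, t.2)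

/-- the group variables are multiplied by the skeleton of `W` -/
def mW (l : ℕ) (W : Conf) (v : VB) : VB :=
  fun y => (fun t => (((v y).1 t).1 * skb l W y t, ((v y).1 t).2), (v y).2)

variable {l : ℕ} {W W' : Conf} {v v' : VB} {y : St}

theorem yo_eq_iff {x y : St} : yo l x = y ↔ x - up l y ∈ box l :=
  ⟨fun h => h ▸ sub_up_yo_mem l x, fun h => by
    have := Op.yo_add_box (y := y) h
    rwa [sub_add_cancel] at this⟩

theorem lnk_mW (f : Lk) :
    lnk l (mW l W v) f = ((lnk l v f).1 * skl l W f, (lnk l v f).2) := by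
  simp only [lnk, mW, skb, skl, yo_eq_iff (x := f.1 + un f.2), add_sub_right_comm]

theorem vU_mW : vU l (mW l W v) = vU l v * skl l W :=
  funext fun f => congrArg Prod.fst (lnk_mW f)

theorem vz_mW : vz l (mW l W v) = vz l v := rfl

theorem vs_mW : vs l (mW l W v) = vs l v := rfl

theorem vo_mW : vo (mW l W v) = vo v := rfl

theorem gd_mW (ζ : ℝ) (y : St) : gd l ζ (mW l W v y) = gd l ζ (v y) := rfl

theorem mW_snd (y : St) : (mW l W v y).2 = (v y).2 := rfl

theorem shv_mW (y : St) : shv y (mW l W v) = mW l (sh y W) (shv y v) := rfl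

theorem trz_mW : trz l (vU l (mW l W v)) = trz l (vU l v) * skl l W := funext fun f => by
  rw [vU_mW, Pi.mul_apply, trz, trz]
  split_ifs with h
  · rw [skl_tree h, mul_one]
  · rfl

/-- locality -/
theorem mW_congr (hW : ∀ μ, W (y, μ) = W' (y, μ)) (hv : v y = v' y) : mW l W v y = mW l W' v' y := by
  simp only [mW, skb, hW, hv]

theorem mW_agr {R : ℕ} (hW : Agr R W W') (hv : ∀ y ∈ box R, v y = v' y) :
    ∀ y ∈ box R, mW l W v y = mW l W' v' y := fun y hy =>
  mW_congr (fun μ => hW (y, μ) (mem_lbox.2 hy)) (hv y hy)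

theorem meas_skb (l : ℕ) (y : St) (t : Lk) : Measurable fun W => skb l W y t := by
  unfold skb
  split_ifs <;> fun_prop

theorem meas_mW {Z : Type} [MeasurableSpace Z] {W : Z → Conf} {v : Z → VB} (hW : Measurable W)
    (hv : Measurable v) : Measurable fun z => mW l (W z) (v z) :=
  measurable_pi_lambda _ fun y =>
    have a := (measurable_pi_apply y).comp hv
    (measurable_pi_lambda _ fun t =>
      have b := (measurable_pi_apply t).comp a.fst
      (b.fst.mul ((meas_skb l y t).comp hW)).prodMk b.snd).prodMk a.snd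

theorem mp_mW (l : ℕ) (ν : Measure E3) [IsProbabilityMeasure ν] (W : Conf) :
    MeasurePreserving (mW l W) (PB l ν) (PB l ν) := by
  have a : ∀ g : S3, MeasurePreserving (fun x : LV => (x.1 * g, x.2)) (haar.prod (lq ν))
      (haar.prod (lq ν)) := fun g =>
    (measurePreserving_mul_right haar g).prod (.id _)
  have b : ∀ y, MeasurePreserving (fun (x : Lk → LV) t => ((x t).1 * skb l W y t, (x t).2))
      (infinitePi fun _ => haar.prod (lq ν)) (infinitePi fun _ => haar.prod (lq ν)) :=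
    fun y => ⟨measurable_pi_lambda _ fun t => (a _).measurable.comp (measurable_pi_apply t),
      (infinitePi_map_pi _ fun t => (a _).measurable).trans (by simp only [(a _).map_eq])⟩
  have c : ∀ y, MeasurePreserving (fun x : BV =>
      ((fun t => ((x.1 t).1 * skb l W y t, (x.1 t).2), x.2) : BV)) (bv l ν) (bv l ν) :=
    fun y => (b y).prod (.id _)
  exact ⟨meas_mW measurable_const measurable_id,
    (infinitePi_map_pi _ fun y => (c y).measurable).trans (by simp only [(c _).map_eq, PB])⟩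

theorem int_mW (ν : Measure E3) [IsProbabilityMeasure ν] (W : Conf) {F : VB → ℂ}
    (hF : Measurable F) : ∫ v, F (mW l W v) ∂PB l ν = ∫ v, F v ∂PB l ν := by
  rw [← integral_map (mp_mW l ν W).aemeasurable hF.aestronglyMeasurable, (mp_mW l ν W).map_eq]

/-- the fine field for twisted variables -/
theorem Sd.Uv_mW (S : Sd) (W : Conf) (v : VB) : S.Uv W (mW S.l W v) =
    uq (Act S.l (S.H W)) (Ub S.l S.s W) (S.Af W (vz S.l v)) (vs S.l v)
      (trz S.l (vU S.l v) * skl S.l W) := by
  rw [Sd.Uv, trz_mW, vz_mW, vs_mW]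

theorem Cen.Uv_mW {h : St → S3} (hh : Cen h) (S : Sd) (W : Conf) (v : VB) :
    S.Uv (gauge Inv.inv h W) (mW S.l (gauge Inv.inv h W) v) =
      gauge Inv.inv (fun x => h (RG.yo S.l x)) (S.Uv W (mW S.l W v)) := by
  rw [Sd.Uv_mW, Sd.Uv_mW, hh.uv]

theorem Cq.Uv_mW (h : Cq W W') (S : Sd) (v : VB) :
    Cq (S.Uv W (mW S.l W v)) (S.Uv W' (mW S.l W' v)) := by
  obtain ⟨k, hk, rfl⟩ := h
  exact ⟨_, hk.yo S.l, hk.Uv_mW S W v⟩

section torus

variable [Tws] {n : ℕ}

/-- the variables on the twisted torus -/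
def pcW (l n : ℕ) (W : Conf) (v : VB) : VB := mW l W (pcsT n v)

/-- twisted periodic variables -/
def PVT (l n : ℕ) (W : Conf) (v : VB) : Prop := ∃ u, PST n u ∧ v = mW l W u

theorem pvt_pcW (l n : ℕ) (W : Conf) (v : VB) : PVT l n W (pcW l n W v) := ⟨_, PST_pcsT n v, rfl⟩

theorem meas_pcW (l n : ℕ) {Z : Type} [MeasurableSpace Z] {W : Z → Conf} {v : Z → VB}
    (hW : Measurable W) (hv : Measurable v) : Measurable fun z => pcW l n (W z) (v z) :=
  meas_mW hW ((meas_pcsT n).comp hv)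

theorem perT0_lnk (h : PST n v) : PerT0 (LL l * n) (lnk l v) := fun w => by
  rw [← up_pvT, ← Cov.lnk_sh]
  exact congrArg _ (funext fun y => h.pv y w)

theorem perT0_vU (h : PST n v) : PerT0 (LL l * n) (vU l v) := fun w =>
  funext fun f => congrArg Prod.fst (congrFun (perT0_lnk h w) f)

theorem perT0_vz (h : PST n v) : PerT0 (LL l * n) (vz l v) := fun w =>
  funext fun f => congrArg (·.2.1) (congrFun (perT0_lnk h w) f)

theorem perT0_vs (h : PST n v) : PerT0 (LL l * n) (vs l v) := fun w =>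
  funext fun f => congrArg (·.2.2) (congrFun (perT0_lnk h w) f)

theorem perT0_trz {U : Conf} (h : PerT0 (LL l * n) U) : PerT0 (LL l * n) (trz l U) :=
  perT0_of fun e => by rw [trz, trz, h.rl, if_congr (tree_rlT l n e) rfl rfl]

theorem lnk_pcsT (hn : Odd n) (v : VB) : lnk l (pcsT n v) = pcT0 (LL l * n) (lnk l v) := by
  rw [← (perT0_lnk (PST_pcsT n v)).pcT0]
  funext f
  have := rcT_id hn ((mem_fineT hn).1 (rcT_mem (odd_LL l hn) f.1))
  simp only [pcT0, pcv, lnk, pcsT]
  exact congrArg (fun y => (v y).1 _) this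

theorem vU_pcsT (hn : Odd n) (v : VB) : vU l (pcsT n v) = pcT0 (LL l * n) (vU l v) :=
  funext fun f => congrArg Prod.fst (congrFun (lnk_pcsT hn v) f)

theorem vz_pcsT (hn : Odd n) (v : VB) : vz l (pcsT n v) = pcT0 (LL l * n) (vz l v) :=
  funext fun f => congrArg (·.2.1) (congrFun (lnk_pcsT hn v) f)

theorem vs_pcsT (hn : Odd n) (v : VB) : vs l (pcsT n v) = pcT0 (LL l * n) (vs l v) :=
  funext fun f => congrArg (·.2.2) (congrFun (lnk_pcsT hn v) f)

theorem vz_pcW (hn : Odd n) (W : Conf) (v : VB) :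
    vz l (pcW l n W v) = pcT0 (LL l * n) (vz l v) := vz_pcsT hn v

theorem PVT.vz (h : PVT l n W v) : PerT0 (LL l * n) (vz l v) := by
  obtain ⟨u, hu, rfl⟩ := h
  exact perT0_vz (v := u) hu

theorem PVT.vs (h : PVT l n W v) : PerT0 (LL l * n) (vs l v) := by
  obtain ⟨u, hu, rfl⟩ := h
  exact perT0_vs (v := u) hu

theorem PVT.vo (h : PVT l n W v) : PST n (vo v) := by
  obtain ⟨u, hu, rfl⟩ := h
  exact hu.map Prod.snd

theorem PVT.snd (h : PVT l n W v) (x : St) : (v (rcT n x)).2 = (v x).2 := h.vo x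

theorem PVT.gd (h : PVT l n W v) (ζ : ℝ) : PST n fun y => gd l ζ (v y) := by
  obtain ⟨u, hu, rfl⟩ := h
  exact hu.map (Q4.gd l ζ)

theorem PVT.sh (h : PVT l n W v) (y : St) : ∃ u, PST n u ∧ shv y v = mW l (sh y W) u := by
  obtain ⟨u, hu, rfl⟩ := h
  exact ⟨shv y u, hu.add y, rfl⟩

/-- the fine field is twisted periodic -/
theorem PVT.Uv (S : Sd) (hn : Odd n) (hW : PerT n W) (h : PVT S.l n W v) :
    PerT (LL S.l * n) (S.Uv W v) := by
  obtain ⟨u, hu, rfl⟩ := h
  refine perT_fine hn fun w => ?_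
  rw [← Sd.Uv_sh, shv_mW, hW.sh_pv hn, (cen_omT n w).Uv_mW,
    show shv (pv (sd n) w) u = u from funext fun y => hu.pv y w]

/-- magnetic translation of the fine field -/
theorem Uv_shT (S : Sd) (hn : Odd n) (y : St) (W : Conf) (u : VB) :
    S.Uv (shT n y W) (mW S.l (shT n y W) (shv y u)) =
      shT (LL S.l * n) (up S.l y) (S.Uv W (mW S.l W u)) := by
  rw [shT_fine hn, ← Sd.Uv_sh, shv_mW, shT, (cen_hT n y).Uv_mW]

theorem PVT.shT (h : PST n v) (y : St) (W : Conf) :
    PVT l n (shT n y W) (mW l (shT n y W) (shv y v)) := ⟨_, h.add y, rfl⟩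

end torus

end Pool.Agent.Lib.MP_7f377f_mp.RG.Q4
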