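import Pool.Agent.Lib.MP_7f377f_mp.G.TwMeasA
import Pool.Agent.Lib.MP_7f377f_mp.G.TwVar
import Pool.Agent.Lib.MP_7f377f_mp.G.Q4MeasTT

/-! One step on a twisted torus as an integral over the block variables. -/

noncomputable section

set_option linter.unusedSectionVars false
variable [Pool.Agent.Lib.MP_7f377f_mp.GD]

namespace Pool.Agent.Lib.MP_7f377f_mp.RG.Q4

open MeasureTheory Measure Set Ms
open scoped ENNReal

variable [Tws]

section cov

open Cov

variable {ν : Measure E3} {B : Set E3} {d : E3 → ℝ} {l n : ℕ} {S : Finset Lk}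
  {act : Lk → Prop} {b : Conf} {a : S → E3} {P : (S → E3) →ₗ[ℝ] (S → E3)}
  {A : (Lk → E3) → Lk → E3} {W : Conf}

/-- hypotheses of the change of variables: `S` is the set of active links of the torus and the
fluctuation field `A z` of a periodic field `z` is the periodic extension of `a + P z` -/
structure CovOkT (l n : ℕ) (B : Set E3) (S : Finset Lk) (act : Lk → Prop) (b : Conf) (a : S → E3)
    (P : (S → E3) →ₗ[ℝ] (S → E3)) (A : (Lk → E3) → Lk → E3) : Prop where
  odd : Odd n
  sub : S ⊆ ldomT (LL l * n)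
  act : ∀ f, act f ↔ (rcT (LL l * n) f.1, f.2) ∈ S
  per : PerT (LL l * n) b
  fld : ∀ z f (h : (rcT (LL l * n) f.1, f.2) ∈ S),
    A (pcT0 (LL l * n) z) f = a ⟨_, h⟩ + P (fun i => z i) ⟨_, h⟩
  det : LinearMap.det P ≠ 0
  bd : ∀ z, (∀ i, ‖a i + P z i‖ ^ 2 ≤ 3) → ∀ i, z i ∈ B

/-- the global change of variables -/
theorem cov8_mpT (h : Ref ν B d) (hc : CovOkT l n B S act b a P A) {V : Conf}
    (hV : PerT (LL l * n) V) :
    MeasurePreserving (fun v : VB =>
        (uq act b (A (vz l (pcsT n v))) (vs l (pcsT n v)) (vU l (pcsT n v) * V), vo (pcsT n v)))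
      ((PB l ν).withDensity fun v => ENNReal.ofReal
        (jb d S (LinearMap.det P) (A (vz l (pcsT n v))) (vz l (pcsT n v)) (vs l (pcsT n v))))
      ((PP.prod (OO l)).map fun v => (pcT (LL l * n) v.1, pcsT n v.2)) := by
  have := h.prob
  have hn := hc.odd
  have hN := odd_fine (l := l) hn
  have hS : ∀ f ∈ S, (rcT (LL l * n) f.1, f.2) = f := fun f hf =>
    rlT_id hN (hc.sub hf)
  have hj : Function.Injective (Subtype.val : S → Lk) := Subtype.val_injective
  have mj := (meas_jq h a P).ennreal_ofReal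
  have r1 := mp_fin (lq ν) hj
  have h1 := (mp_chq h (fun i : S => b i) a hc.det hc.bd).comp (mp_dens r1 mj)
  have h2 := (mp_ext (OO l) hj).comp (((Mx.mp_right V).prod (MeasurePreserving.id (OO l))).prod h1)
  have mJ : Measurable fun w : Lk → XQ => ENNReal.ofReal (jq d a P fun i => w i) :=
    mj.comp r1.measurable
  rw [prod_withDensity_right mJ] at h2
  have h3 := h2.comp (mp_dens (mp_VB l ν) (mJ.comp measurable_snd))
  have h4 : MeasurePreserving (fun v : Conf × (St → Om) => (pcT (LL l * n) v.1, pcsT n v.2))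
      (PP.prod (OO l)) _ := ⟨Mx.meas_pp_t _ _, rfl⟩
  convert h4.comp h3 using 1
  · funext v
    refine Prod.ext (funext fun f => ?_) rfl
    rw [vz_pcsT hn, vs_pcsT hn, vU_pcsT hn]
    change uq act b _ _ _ f = (coc (sd (LL l * n)) Tws.z f : S3) * Function.extend Subtype.val
      (chq (fun i : S => b i) a P fun i => (lnk l v i).2) (vU l v * V) (rcT (LL l * n) f.1, f.2)
    by_cases hf : (rcT (LL l * n) f.1, f.2) ∈ S
    · refine Eq.trans ?_ (congrArg _ (hj.extend_apply _ _ ⟨_, hf⟩).symm)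
      rw [uq, if_pos ((hc.act f).2 hf), hc.fld _ _ hf, hc.per.rl f, ← mul_assoc, ← zc_comm,
        mul_assoc]
      rfl
    · rw [uq, if_neg fun hx => hf ((hc.act f).1 hx), Function.extend_apply' _ _ _ (by
        rintro ⟨i, hi⟩
        exact hf (hi ▸ i.2)), Pi.mul_apply, Pi.mul_apply, hV.rl f, ← mul_assoc, ← zc_comm,
        mul_assoc]
      rfl
  · congr 1
    funext v
    congr 1
    rw [vz_pcsT hn, vs_pcsT hn, jb, ← Finset.prod_coe_sort]
    change _ = jq d a P fun i => (lnk l v i).2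
    rw [jq]
    congr 1
    refine Finset.prod_congr rfl fun i _ => ?_
    have e := hS i i.2
    rw [hc.fld _ _ (by rw [e]; exact i.2)]
    simp only [pcT0, pcv, show ∀ x, rcv (sd (LL l * n)) x = rcT (LL l * n) x from fun _ => rfl, e]
    rfl

/-- the global change of variables, complex functions -/
theorem cov8T (h : Ref ν B d) (hc : CovOkT l n B S act b a P A) (hA : Measurable A)
    (hW : PerT n W) {F : Conf × (St → Om) → ℂ} (hF : Measurable F) {G : VB → ℂ}
    (hG : ∀ v, G v = F (uq act b (A (vz l v)) (vs l v) (vU l v), vo v) *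
      (jb d S (LinearMap.det P) (A (vz l v)) (vz l v) (vs l v) : ℝ)) :
    ∫ v : Conf × (St → Om), F (pcT (LL l * n) v.1, pcsT n v.2) ∂(PP.prod (OO l)) =
      ∫ v, G (pcW l n W v) ∂PB l ν ∧
    ((∃ M, ∀ v, ‖F v‖ ≤ M) → Integrable (fun v => G (pcW l n W v)) (PB l ν)) := by
  have := h.prob
  have hm := cov8_mpT h hc (hW.skl hc.odd l)
  have mz := (meas_vz l).comp (meas_pcsT (α := BV) n)
  have ms := (meas_vs l).comp (meas_pcsT (α := BV) n)
  have mJ : Measurable fun v : VB => ENNReal.ofReal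
      (jb d S (LinearMap.det P) (A (vz l (pcsT n v))) (vz l (pcsT n v)) (vs l (pcsT n v))) := by
    refine (measurable_const.mul (Finset.measurable_fun_prod _ fun f _ => ?_)).ennreal_ofReal
    have m1 := (measurable_pi_apply f).comp (hA.comp mz)
    exact (((meas_th.comp (((measurable_pi_apply f).comp ms).prodMk m1)).const_mul _).mul
      (meas_dH.comp m1)).mul (h.md.comp ((measurable_pi_apply f).comp mz))
  have e : ∀ v : VB, G (pcW l n W v) = (ENNReal.ofReal
      (jb d S (LinearMap.det P) (A (vz l (pcsT n v))) (vz l (pcsT n v)) (vs l (pcsT n v)))).toReal •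
      F (uq act b (A (vz l (pcsT n v))) (vs l (pcsT n v)) (vU l (pcsT n v) * skl l W),
        vo (pcsT n v)) := by
    intro v
    rw [hG, ENNReal.toReal_ofReal (jb_nonneg h _ _ _ _ _), Complex.real_smul, mul_comm, pcW, vU_mW,
      vz_mW, vs_mW, vo_mW]
  simp only [e]
  constructor
  · rw [← integral_map (Mx.meas_pp_t _ _).aemeasurable hF.aestronglyMeasurable, ← hm.map_eq,
      integral_map hm.measurable.aemeasurable hF.aestronglyMeasurable,
      integral_withDensity_eq_integral_toReal_smul mJ (.of_forall fun _ => ENNReal.ofReal_lt_top)]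
  · rintro ⟨M, hM⟩
    have : IsProbabilityMeasure ((PP.prod (OO l)).map
        fun v : Conf × (St → Om) => (pcT (LL l * n) v.1, pcsT n v.2)) :=
      isProbabilityMeasure_map (Mx.meas_pp_t _ _).aemeasurable
    exact (integrable_withDensity_iff_integrable_smul' mJ
      (.of_forall fun _ => ENNReal.ofReal_lt_top)).1 ((hm.integrable_comp
        hF.aestronglyMeasurable).2 (.of_bound hF.aestronglyMeasurable M (.of_forall hM)))

end cov

open Finset

/-- the kernel, block by block -/
theorem ker_blocksT (bk : Conf → (St → Om) → Conf) (l : ℕ) (a : ℝ) (n : ℕ) (W U : Conf)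
    (ω : St → Om) : kerT bk l a n W U ω = ∏ y ∈ domT n,
      (wt l (sh (up l y) U) (ω y) * ∏ μ, hk a (W (y, μ) * (bk U ω (y, μ))⁻¹)) := by
  rw [kerT, Mx.prod_ldomT, prod_mul_distrib]

open Mx

/-- one step as an integral over the block variables -/
theorem TT_covT {ν : Measure E3} {B : Set E3} {d : E3 → ℝ} {l n : ℕ} {S : Finset Lk}
    {act : Lk → Prop} {b : Conf} {a : S → E3} {P : (S → E3) →ₗ[ℝ] (S → E3)}
    {A : (Lk → E3) → Lk → E3} (h : Ref ν B d) (hc : CovOkT l n B S act b a P A) (hA : Measurable A)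
    (ht : ∀ f, act f → ¬ tree l f) {α : ℝ} (hα : 0 ≤ α) {f : Conf → ℂ} (hf : GIT (LL l * n) f)
    {W : Conf} (hW : PerT n W) {G : VB → ℂ}
    (hG : ∀ v, G v = f (fU l act b A v) * (kerT (blkN l) l α n W (fU l act b A v) (vo v) : ℝ) *
      (jb d S (LinearMap.det P) (A (vz l v)) (vz l v) (vs l v) : ℝ)) :
    TTT l α n f W = ∫ v, G (pcW l n W v) ∂PB l ν ∧
      Integrable (fun v => G (pcW l n W v)) (PB l ν) := by
  obtain ⟨M, hM⟩ := hf.2.1
  obtain ⟨C, -, hC⟩ := Itg_bd_t l α n
  have m0 := (meas_Itg'_t l α n (measurable_blkN l) hf.1 W).comp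
    (((cont_trz l).measurable.comp measurable_fst).prodMk measurable_snd)
  have := cov8T h hc hA hW m0 (G := G) fun v => by
    rw [hG, Function.comp_apply, Function.comp_apply, Cov.trz_uq ht]
    rfl
  exact ⟨(hf.tree hα hc.odd W hW).trans this.1, this.2 ⟨M * C, fun v => hC _ _ M _ _ hM⟩⟩

end Pool.Agent.Lib.MP_7f377f_mp.RG.Q4
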