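import Pool.Agent.Lib.MP_7f377f_mp.G.TwMeasB

/-! Twisted tori: laws of the averaged fields. -/

noncomputable section

set_option linter.unusedSectionVars false
variable [Pool.Agent.Lib.MP_7f377f_mp.GD]

namespace Pool.Agent.Lib.MP_7f377f_mp.RG.Q4

open MeasureTheory Measure Ms
open scoped ENNReal

variable [Tws]

open Finset

namespace Mx

variable {l n : ℕ}

/-- the map defining a step -/
def sm_t (l n : ℕ) (v : (Conf × (St → Om)) × Conf) : Conf :=
  pcT n fun b => v.2 b * blk l v.1.1 (pcsT n v.1.2) b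

theorem meas_bp_t (l n : ℕ) : Measurable fun v : Conf × (St → Om) => blk l v.1 (pcsT n v.2) := by
  have := (measurable_blk l).comp ((measurable_id (α := Conf)).prodMap (meas_pcsT n))
  simpa only [Function.comp_def, Prod.map, id] using this

theorem meas_sm_t (l n : ℕ) : Measurable (sm_t l n) := by
  have h0 : Measurable fun v : (Conf × (St → Om)) × Conf => v.1 := measurable_fst
  have h1 := (meas_bp_t l n).comp h0
  simp only [Function.comp_def] at h1
  exact (cont_pcT n).measurable.comp (measurable_snd.mul h1)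

/-- the transition kernel applied to `G` -/
def Pk_t (l : ℕ) (a : ℝ) (n : ℕ) (G : Conf → ℝ≥0∞) (U : Conf) : ℝ≥0∞ :=
  ∫⁻ ω, ENNReal.ofReal (WtT l n U ω) * ∫⁻ w, G (sm_t l n ((U, ω), w)) ∂nz a ∂OO l

theorem meas_in_t (l : ℕ) (a : ℝ) (n : ℕ) {G : Conf → ℝ≥0∞} (hG : Measurable G) :
    Measurable fun v : Conf × (St → Om) => ∫⁻ w, G (sm_t l n (v, w)) ∂nz a :=
  (hG.comp (meas_sm_t l n)).lintegral_prod_right'

theorem lint_Wt_t (l n : ℕ) (U : Conf) : ∫⁻ ω, ENNReal.ofReal (WtT l n U ω) ∂OO l = 1 := by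
  obtain ⟨C, h⟩ := Wt_bd_t l n
  have m := (meas_Wt_t l n).comp (measurable_prodMk_left (x := U))
  simp only [Function.comp_def] at m
  rw [← ofReal_integral_eq_lintegral_ofReal (.of_bound m.aestronglyMeasurable C (.of_forall fun ω =>
    (Real.norm_of_nonneg (h U ω).1).trans_le (h U ω).2)) (.of_forall fun ω => (h U ω).1), int_Wt_t,
    ENNReal.ofReal_one]

theorem Pk_one_t (l : ℕ) (a : ℝ) (n : ℕ) (U : Conf) : Pk_t l a n (fun _ => 1) U = 1 := by
  simp [Pk_t, lint_Wt_t]

theorem meas_Hk_t (a : ℝ) (n : ℕ) (V : Conf) : Measurable fun W => ENNReal.ofReal (HkT a n W V) :=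
  ((cont_Hk_t a n).comp (Continuous.prodMk_left V)).measurable.ennreal_ofReal

/-- the noise as a density -/
theorem lint_noise_t (a : ℝ) {n : ℕ} (hn : Odd n) {G : Conf → ℝ≥0∞} (hG : Measurable G) (V : Conf) :
    ∫⁻ w, G (pcT n fun b => w b * V b) ∂nz a =
      ∫⁻ W, ENNReal.ofReal (HkT a n W V) * G (pcT n W) ∂PP := by
  set H : (ldomT n → S3) → ℝ≥0∞ := fun u =>
    G fun e => (coc (sd n) Tws.z e : S3) * (u ⟨rlT n e, rlT_mem hn _⟩ * V (rlT n e)) with hH
  have mH : Measurable H := hG.comp (measurable_pi_lambda _ fun e =>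
    ((measurable_pi_apply _).mul measurable_const).const_mul _)
  have mP : Measurable fun u : ldomT n → S3 => ∏ b, ENNReal.ofReal (hk a (u b)) :=
    Finset.measurable_fun_prod _ fun b _ => (meas_hk a).comp (measurable_pi_apply b)
  have mR : Measurable fun W : Conf => ENNReal.ofReal (HkT a n W V) * G (pcT n W) :=
    (meas_Hk_t a n V).mul (hG.comp (cont_pcT n).measurable)
  calc _ = ∫⁻ w, H ((ldomT n).restrict w) ∂nz a := rfl
    _ = ∫⁻ u, H u ∂(Measure.pi fun _ => haar.withDensity fun g => ENNReal.ofReal (hk a g)) := by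
        rw [← lintegral_map mH (Finset.measurable_restrict _), nz, infinitePi_map_restrict]
    _ = ∫⁻ u, (∏ b, ENNReal.ofReal (hk a (u b))) * H u ∂(Measure.pi fun _ => haar) := by
        rw [pi_dens haar (f := fun _ g => ENNReal.ofReal (hk a g)) fun _ => meas_hk a,
          lintegral_withDensity_eq_lintegral_mul _ mP mH]
        rfl
    _ = ∫⁻ w, (∏ b, ENNReal.ofReal (hk a ((ldomT n).restrict w b))) *
          H ((ldomT n).restrict w) ∂PP := by
        rw [← infinitePi_map_restrict (μ := fun _ : Lk => haar)]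
        exact lintegral_map (mP.mul mH) (Finset.measurable_restrict _)
    _ = _ := by
        rw [← (mp_right V).lintegral_comp mR]
        refine lintegral_congr fun w => ?_
        simp only [HkT, mul_inv_cancel_right, Finset.restrict]
        rw [Finset.prod_coe_sort (ldomT n) fun b => ENNReal.ofReal (hk a (w b)),
          ENNReal.ofReal_prod_of_nonneg fun _ _ => (hk_pos _ _).le]
        rfl

theorem ofReal_TT_t {l n : ℕ} (a : ℝ) (hn : Odd n) {f : Conf → ℂ} (h : GIT (LL l * n) f)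
    (hp : ∀ U, 0 ≤ (f U).re) (W : Conf) : ENNReal.ofReal (TTT l a n f (pcT n W)).re =
      ∫⁻ v, ENNReal.ofReal (f (pcT (LL l * n) v.1)).re * (ENNReal.ofReal
        (WtT l n (pcT (LL l * n) v.1) v.2) * ENNReal.ofReal
          (HkT a n W (blk l (pcT (LL l * n) v.1) (pcsT n v.2)))) ∂PP.prod (OO l) := by
  obtain ⟨hm, ⟨M, hM⟩, -⟩ := h
  obtain ⟨C, -, hC⟩ := Itg_bd_t l a n
  obtain ⟨C1, hC1⟩ := ker_bd_t l a n
  obtain ⟨C2, hC2⟩ := Wt_bd_t l n
  have hi : Integrable (fun v : Conf × (St → Om) => ItgT (blk l) l a n f (pcT n W)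
      (pcT (LL l * n) v.1, pcsT n v.2)) (PP.prod (OO l)) :=
    .of_bound ((meas_Itg'_t l a n (measurable_blk l) hm _).comp (meas_pp_t _ _)).aestronglyMeasurable _
      (.of_forall fun v => hC _ _ M _ _ hM)
  have e : ∀ bk W v, RCLike.re (ItgT bk l a n f W v) = (f v.1).re * kerT bk l a n W v.1 v.2 :=
    fun bk W v => by simp [ItgT]
  rw [TT_eq_t, ← (integral_re hi).trans (RCLike.re_to_complex), ofReal_integral_eq_lintegral_ofReal
    hi.re (.of_forall fun v => (mul_nonneg (hp _) (hC1 _ _ _ _).1).trans_eq (e _ _ _).symm)]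
  refine lintegral_congr fun v => ?_
  rw [e, ENNReal.ofReal_mul (hp _), ker_eq_t, ENNReal.ofReal_mul (hC2 _ _).1]
  congr 3
  · exact prod_congr rfl fun y hy => by simp only [pcsT, rcT_id hn hy]
  · exact prod_congr rfl fun b hb => by rw [pcT_dom hn W (mem_ldomT.1 hb)]

theorem lint_TT_t {l n : ℕ} (a : ℝ) (hn : Odd n) {f : Conf → ℂ} (h : GIT (LL l * n) f)
    (hp : ∀ U, 0 ≤ (f U).re) {G : Conf → ℝ≥0∞} (hG : Measurable G) :
    ∫⁻ W, ENNReal.ofReal (TTT l a n f (pcT n W)).re * G (pcT n W) ∂PP =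
      ∫⁻ U, ENNReal.ofReal (f (pcT (LL l * n) U)).re * Pk_t l a n G (pcT (LL l * n) U) ∂PP := by
  have hq := (cont_pcT (LL l * n)).measurable
  have h0 : Measurable fun v : Conf × (St → Om) => (pcT (LL l * n) v.1, v.2) :=
    hq.prodMap measurable_id
  have m0 : Measurable fun U => ENNReal.ofReal (f (pcT (LL l * n) U)).re :=
    (Complex.measurable_re.comp (h.1.comp hq)).ennreal_ofReal
  have m1 := (meas_Wt_t l n).ennreal_ofReal.comp h0
  have hs : Measurable fun z : Conf × Conf × (St → Om) => z.2 := measurable_snd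
  have m2 := (cont_Hk_t a n).measurable.ennreal_ofReal.comp
    (measurable_fst.prodMk (((meas_bp_t l n).comp h0).comp hs))
  have m3 := ((m0.comp measurable_fst).comp hs).mul ((m1.comp hs).mul m2)
  have m4 := (meas_in_t l a n hG).comp h0
  simp only [Function.comp_def, Pi.mul_def] at m1 m3 m4
  have mG : Measurable fun W => G (pcT n W) := hG.comp (cont_pcT n).measurable
  have m5 := fun W => m3.comp (measurable_prodMk_left (x := W))
  have m6 := m3.mul (mG.comp measurable_fst)
  have m7 := (m0.comp measurable_fst).mul (m1.mul m4)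
  have m8 := fun U => (m1.mul m4).comp (measurable_prodMk_left (x := U))
  simp only [Function.comp_def, Pi.mul_def] at m5 m6 m7 m8
  simp only [ofReal_TT_t a hn h hp, ← lintegral_mul_const _ (m5 _)]
  rw [lintegral_lintegral_swap m6.aemeasurable]
  refine Eq.trans (lintegral_congr fun v => ?_) ((lintegral_prod _ m7.aemeasurable).trans
    (lintegral_congr fun U => lintegral_const_mul (μ := OO l)
      (ENNReal.ofReal (f (pcT (LL l * n) U)).re) (m8 U)))
  have m9 := (meas_Hk_t a n (blk l (pcT (LL l * n) v.1) (pcsT n v.2))).mul mG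
  simp only [mul_assoc, sm_t, Pi.mul_def] at m9 ⊢
  rw [lint_noise_t a hn hG, lintegral_const_mul _ (m9.const_mul _), lintegral_const_mul _ m9]

end Mx

open Mx

variable {l n : ℕ} {a : ℝ} {f f' : Conf → ℂ}

theorem TT_mulT {κ : ℂ} (h : ∀ U, PerT (LL l * n) U → f U = κ * f' U) (W : Conf) :
    TTT l a n f W = κ * TTT l a n f' W := by
  rw [TTT, TTT, ← integral_const_mul]
  exact congrArg _ (funext fun v => by rw [h _ (per_pc_t _ _), mul_assoc])

theorem TT_congrT (h : ∀ U, PerT (LL l * n) U → f U = f' U) : TTT l a n f = TTT l a n f' :=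
  funext fun _ => by simp only [TTT, h _ (per_pc_t _ _)]

theorem TT_posT (hn : Odd n) (h : GIT (LL l * n) f) (hp : ∀ U, (f U).im = 0 ∧ 0 < (f U).re) :
    ∀ W, (TTT l a n f W).im = 0 ∧ 0 < (TTT l a n f W).re := TT_pos_t a hn h hp

theorem GIT.int (h : GIT n f) : Integrable (fun U => (f (pcT n U)).re) PP :=
  let ⟨M, hM⟩ := h.2.1
  .of_bound (Complex.measurable_re.comp (h.1.comp (cont_pcT n).measurable)).aestronglyMeasurable M
    (.of_forall fun _ => (Complex.abs_re_le_norm _).trans (hM _))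

/-- a step preserves the partition function -/
theorem inT_TT (ha : 0 ≤ a) (hn : Odd n) (h : GIT (LL l * n) f)
    (hp : ∀ U, (f U).im = 0 ∧ 0 < (f U).re) :
    (inT n fun W => (TTT l a n f W).re) = inT (LL l * n) fun U => (f U).re := by
  have hm := lint_TT_t a hn h (fun U => (hp U).2.le) (G := fun _ => 1) measurable_const
  simp only [Pk_one_t, mul_one] at hm
  rw [inT, inT, integral_eq_lintegral_of_nonneg_ae (.of_forall fun U => (TT_posT hn h hp _).2.le)
    (h.step ha hn).int.aestronglyMeasurable, integral_eq_lintegral_of_nonneg_ae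
    (.of_forall fun U => (hp _).2.le) h.int.aestronglyMeasurable, hm]

theorem wilT_facts (β : ℝ) (hn : Odd n) : GIT n (fun U => (wilT β n U : ℝ)) ∧
    SymT n (fun U => (wilT β n U : ℝ)) ∧
      ∀ U, ((wilT β n U : ℝ) : ℂ).im = 0 ∧ 0 < ((wilT β n U : ℝ) : ℂ).re := by
  have e : ∀ U, wilT β n U = Real.exp (-(β * wact_t n U)) := fun _ => rfl
  obtain ⟨h1, h2⟩ := rho_bd_t (fun _ => 0) (fun _ => 0) 0 n
  obtain ⟨M, hM⟩ := h2 |β|
  refine ⟨⟨h1 β, ⟨M, hM β le_rfl⟩, fun u U _ _ => ?_⟩, fun U hU => ?_,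
    fun U => ⟨Complex.ofReal_im _, Real.exp_pos _⟩⟩
  · simp only [e, wact_gauge_t]
  · simp only [e, wact_sym_t hn hU, wact_gauge_t, implies_true, and_self]

/-- the flow preserves the partition function -/
theorem inT_rho (l : ℕ → ℕ) (a : ℕ → ℝ) (ha : ∀ i, 0 ≤ a i) {β : ℝ} (hβ : 0 ≤ β) (i : ℕ) {n : ℕ}
    (hn : Odd n) : (inT n fun W => (rhoT l a β i n W).re) =
      inT ((∏ j ∈ range i, LL (l j)) * n) (wilT β ((∏ j ∈ range i, LL (l j)) * n)) := by
  induction i generalizing n with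
  | zero => simp only [rhoT, range_zero, prod_empty, one_mul, Complex.ofReal_re]
  | succ i ih =>
    obtain ⟨h1, -, h3⟩ := (rho_facts_t l a ha i _ (odd_LL (l i) hn)).1 β hβ
    rw [rhoT, inT_TT (ha i) hn h1 h3, ih (odd_LL _ hn), prod_range_succ, mul_assoc]

end Pool.Agent.Lib.MP_7f377f_mp.RG.Q4
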