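import Pool.Agent.Lib.MP_7f377f_mp.G.TwS1

/-! Lattice motions of the Wilson measures of twisted tori. -/

noncomputable section

set_option linter.unusedSectionVars false
variable [Pool.Agent.Lib.MP_7f377f_mp.GD]

namespace Pool.Agent.Lib.MP_7f377f_mp.YM9

open MeasureTheory Filter Topology Function Real
open RGP (BM PP)
open RG.Q4 (Zc)
open Y6 (tc)

/-- `1` if the step from `x` in the direction `i` leaves the cell, else `0` -/
def dl (M : Fin 4 → ℕ) (x : Z4) (i : Fin 4) : ℤ := (x i + 1) / (M i : ℤ) - x i / (M i : ℤ)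

theorem div_add' (a v n : ℤ) : (a + v) / n = a / n + (a % n + v) / n := by
  by_cases hn : n = 0
  · simp [hn]
  · rw [add_comm (a / n), ← Int.add_mul_ediv_left _ _ hn, add_right_comm, Int.emod_add_mul_ediv]

theorem dl_mod (M : Fin 4 → ℕ) (x : Z4) (i : Fin 4) : dl M x i = (x i % M i + 1) / M i := by
  rw [dl, div_add', add_sub_cancel_left]

theorem dl_eq {M : Fin 4 → ℕ} {i : Fin 4} (h : 0 < M i) (x : Z4) :
    dl M x i = if ((x i : ℤ) : ZMod (M i)) = -1 then 1 else 0 := by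
  have h0 : (0 : ℤ) < M i := by exact_mod_cast h
  have h1 := Int.emod_nonneg (x i) h0.ne'
  have h2 := Int.emod_lt_of_pos (x i) h0
  have e : ((x i : ℤ) : ZMod (M i)) = -1 ↔ (M i : ℤ) ∣ x i % M i + 1 := by
    rw [← ZMod.intCast_zmod_eq_zero_iff_dvd, Int.cast_add, Int.cast_one, ZMod.intCast_mod,
      add_eq_zero_iff_eq_neg]
  simp only [dl_mod, e]
  split_ifs with c
  · rw [le_antisymm (by omega) (Int.le_of_dvd (by omega) c), Int.ediv_self h0.ne']
  · exact Int.ediv_eq_zero_of_lt (by omega) (lt_of_le_of_ne (by omega) fun a => c (by rw [a]))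

@[fun_prop] theorem cont_pert (M : Fin 4 → ℕ) (z : Tz) : Continuous (pert M z) := by
  unfold pert per
  fun_prop

/-- multiplication by a central cochain -/
def mz (c : Link → Zc) (U : Fd) : Fd := fun e => zv (c e) * U e

@[fun_prop] theorem cont_mz (c : Link → Zc) : Continuous (mz c) := by
  unfold mz
  fun_prop

theorem pe_mz (c : Link → Zc) (U : Fd) (x : Z4) (i j : Fin 4) : pe (mz c U) x i j =
    2 - tc (zv (c (x, i) * c (x + Pi.single i 1, j) * (c (x + Pi.single j 1, i))⁻¹ * (c (x, j))⁻¹) *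
      (U (x, i) * U (x + Pi.single i 1, j) * (U (x + Pi.single j 1, i))⁻¹ * (U (x, j))⁻¹)) := by
  have k : ∀ (a b : Zc) (g g' : SU2), zv a * g * (zv b * g') = zv (a * b) * (g * g') :=
    fun a b g g' => by rw [mul_assoc, ← mul_assoc g, zv_comm, zv_mul, mul_assoc, mul_assoc]
  have k' : ∀ (a : Zc) (g : SU2), (zv a * g)⁻¹ = zv a⁻¹ * g⁻¹ := fun a g => by
    rw [mul_inv_rev, ← zv_inv, zv_comm]
  simp only [pe, mz, k, k']
  rfl

/-- a central gauge transformation -/
def cb (u : Z4 → Zc) (e : Link) : Zc := u e.1 / u (e.1 + Pi.single e.2 1)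

theorem pe_cb (u : Z4 → Zc) (U : Fd) : pe (mz (cb u) U) = pe U := by
  funext x i j
  have : cb u (x, i) * cb u (x + Pi.single i 1, j) * (cb u (x + Pi.single j 1, i))⁻¹ *
      (cb u (x, j))⁻¹ = 1 := by
    simp only [cb, add_right_comm x (Pi.single j 1), div_mul_div_cancel, mul_assoc, ← mul_inv,
      mul_comm (u (x + Pi.single j 1) / _), mul_inv_cancel]
  rw [pe_mz, this, zv_one, one_mul]
  rfl

theorem coc9_eq (M : Fin 4 → ℕ) (z : Tz) (x : Z4) (j : Fin 4) :
    coc9 M z (x, j) = ∏ μ, if μ < j then z μ j ^ (x μ / (M μ : ℤ) * dl M x j) else 1 := rfl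

theorem pe_pert (M : Fin 4 → ℕ) (z : Tz) (U : Fd) (x : Z4) {i j : Fin 4} (hij : i < j) :
    pe (pert M z U) x i j = 2 - tc (zv (z i j ^ (dl M x i * dl M x j)) * (per M U (x, i) *
      per M U (x + Pi.single i 1, j) * (per M U (x + Pi.single j 1, i))⁻¹ * (per M U (x, j))⁻¹)) := by
  have e1 : coc9 M z (x + Pi.single j 1, i) = coc9 M z (x, i) := Finset.prod_congr rfl fun μ _ =>
    if_ctx_congr Iff.rfl (fun hμ => by
      simp [Pi.single_eq_of_ne (hμ.trans hij).ne, Pi.single_eq_of_ne hij.ne]) fun _ => rfl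
  have e2 : coc9 M z (x + Pi.single i 1, j) = z i j ^ (dl M x i * dl M x j) * coc9 M z (x, j) := by
    rw [coc9_eq, coc9_eq, ← Finset.mul_prod_erase _ _ (Finset.mem_univ i),
      ← Finset.mul_prod_erase _ _ (Finset.mem_univ i), if_pos hij, if_pos hij, ← mul_assoc,
      ← zpow_add, ← add_mul]
    congr 1
    · simp [dl, Pi.single_eq_of_ne hij.ne']
    · exact Finset.prod_congr rfl fun μ hμ => by
        simp [dl, Pi.single_eq_of_ne hij.ne', Pi.single_eq_of_ne (Finset.ne_of_mem_erase hμ)]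
  refine (pe_mz (coc9 M z) (per M U) x i j).trans ?_
  rw [e1, e2, mul_inv_cancel_comm, mul_inv_cancel_right]

theorem pe_symm (U : Fd) (x : Z4) (i j : Fin 4) : pe U x i j = pe U x j i :=
  congrArg (2 - ·) ((Y6.tc_inv _).symm.trans (congrArg tc (by group)))

theorem pe_pert_add (M : Fin 4 → ℕ) (z : Tz) (U : Fd) (x v : Z4) (i j : Fin 4) :
    pe (pert M z U) (x + fun l => M l * v l) i j = pe (pert M z U) x i j := by
  wlog hij : i ≤ j generalizing i j
  · rw [pe_symm, this j i (not_le.1 hij).le, pe_symm]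
  rcases hij.eq_or_lt with rfl | hij
  · simp [pe]
  · simp only [pe_pert M z U _ hij, dl_mod, per, Pi.add_apply, add_right_comm (x _) (_ * _),
      Int.add_mul_emod_self_left]

theorem pe_pert_md (M : Fin 4 → ℕ) (z : Tz) (U : Fd) (x : Z4) (i j : Fin 4) :
    pe (pert M z U) (md M x) i j = pe (pert M z U) x i j := by
  rw [← pe_pert_add M z U (md M x) fun l => x l / M l]
  exact congrArg (pe _ · i j) (funext fun l => Int.emod_add_mul_ediv _ _)

theorem coc9_tz (M : Fin 4 → ℕ) (ζ z : Zc) (x : Z4) (j : Fin 4) : coc9 M (tz ζ z) (x, j) =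
    if j = 1 then ζ ^ (x 0 / (M 0 : ℤ) * dl M x 1) else
      if j = 3 then z ^ (x 2 / (M 2 : ℤ) * dl M x 3) else 1 := by
  fin_cases j <;> simp [coc9_eq, Fin.prod_univ_four, tz]

theorem coc9_t3 (M : Fin 4 → ℕ) (z : Zc) (x : Z4) (j : Fin 4) : coc9 M (t3 z) (x, j) =
    if j = 3 then z ^ (x 0 / (M 0 : ℤ) * dl M x 3) else 1 := by
  fin_cases j <;> simp [coc9_eq, Fin.prod_univ_four, t3]

theorem coc9_zs (M : Fin 4 → ℕ) (z : Tz) {x y : Z4} (h : ∀ l, l ≠ 0 → x l = y l) (j : Fin 4) :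
    coc9 M (zs z) (x, j) = coc9 M (zs z) (y, j) := Finset.prod_congr rfl fun μ _ =>
  if_ctx_congr Iff.rfl (fun hμ => by
    by_cases h0 : μ = 0
    · simp [zs, h0]
    · simp only [h μ h0, h j (Fin.pos_iff_ne_zero.1 ((Fin.zero_le _).trans_lt hμ))]) fun _ => rfl

variable [MeasurableSpace SU2] [BorelSpace SU2] (h : Measure SU2) [h.IsHaarMeasure]
  [IsProbabilityMeasure h] {b : ℝ}

theorem int_bw (b : ℝ) (M : Fin 4 → ℕ) (z : Tz) :
    Integrable (fun U => exp (-b * ∑ x ∈ box M, dens (pert M z U) x)) (PP h Link) :=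
  (Y6.bm_of_cont ((cont_bw b M).comp (cont_pert M z))).integrable _

theorem zt_pos (b : ℝ) (M : Fin 4 → ℕ) (z : Tz) : 0 < zt h b M z fun _ => 1 := by
  simp only [zt, one_mul]
  exact integral_exp_pos (int_bw h b M z)

theorem int_wilz (b : ℝ) (M : Fin 4 → ℕ) (z : Tz) {F : Fd → ℝ} (mF : Measurable F) :
    ∫ U, F U ∂wilz h b M z = zt h b M z F / zt h b M z fun _ => 1 := by
  rw [wilz, integral_map (cont_pert M z).measurable.aemeasurable mF.aestronglyMeasurable,
    integral_tilted]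
  simp only [zt, bw, one_mul, smul_eq_mul, div_mul_eq_mul_div, integral_div, mul_comm (F _)]

instance (M : Fin 4 → ℕ) (z : Tz) : IsProbabilityMeasure (wilz h b M z) :=
  have := isProbabilityMeasure_tilted (int_bw h b M z)
  Measure.isProbabilityMeasure_map (cont_pert M z).measurable.aemeasurable

theorem mp_wilz (b : ℝ) {N N' : Fin 4 → ℕ} {z z' : Tz} {Θ : Fd → Fd} (mΘ : Measurable Θ)
    (e : ∀ F : Fd → ℝ, Measurable F → (zt h b N z fun U => F (Θ U)) = zt h b N' z' F) :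
    MeasurePreserving Θ (wilz h b N z) (wilz h b N' z') := by
  refine ⟨mΘ, Measure.ext fun A hA => ?_⟩
  have m1 : Measurable (A.indicator (1 : Fd → ℝ)) := measurable_one.indicator hA
  rw [← measureReal_eq_measureReal_iff, ← integral_indicator_one hA, ← integral_indicator_one hA,
    integral_map mΘ.aemeasurable m1.aestronglyMeasurable, int_wilz h b _ _ m1,
    int_wilz h b _ _ (F := fun U => A.indicator 1 (Θ U)) (m1.comp mΘ), ← e _ m1,
    ← e _ measurable_const]

/-- motions combined with central gauge transformations -/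
theorem zt_mot (b : ℝ) {N N' : Fin 4 → ℕ} {z z' : Tz} {ψ : Fin 4 → Z4 → Z4} {τ : Fin 4 → Fin 4}
    (s : Fin 4 → Bool) (hτ : Injective τ)
    (hψ : ∀ i x y, md N (ψ i x) = md N (ψ i y) ↔ md N' x = md N' y) {Θ : Fd → Fd}
    (hΘ : Θ = RGP.pat (fun e => (ψ e.2 e.1, τ e.2)) fun e => s e.2) (u : Z4 → Zc) (p : Link → Zc)
    (hc : ∀ x i, cb u (x, i) * RGP.sg (s i) (coc9 N z (ψ i x, τ i)) =
      coc9 N' z' (x, i) * p (md N' x, i))
    (e : ∀ U, ∑ x ∈ box N', dens (Θ (pert N z U)) x = ∑ x ∈ box N, dens (pert N z U) x)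
    {F : Fd → ℝ} (mF : Measurable F) :
    (zt h b N z fun U => F (mz (cb u) (Θ U))) = zt h b N' z' F := by
  have e' : ∀ U, bw b N (pert N z U) = bw b N' (mz (cb u) (Θ (pert N z U))) := fun U => by
    rw [bw, bw, ← e]
    simp only [dens_pe, pe_cb]
  have mG : Measurable fun U => F U * bw b N' U := mF.mul (cont_bw b _).measurable
  set c : Link → Zc := fun e => coc9 N' z' e * p (md N' e.1, e.2) with hc'
  have e2 : ∀ U, mz (cb u) (Θ (pert N z U)) = mz c (Θ (per N U)) := fun U => funext fun e => by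
    simp only [hc', ← hc, hΘ, mz, RGP.pat, pert, zv_mul, mul_assoc]
    cases s e.2
    · rfl
    · simp only [RGP.sg, if_true, mul_inv_rev, ← zv_inv, zv_comm]
  have e3 : ∀ U, mz c (per N' U) = pert N' z' fun e => zv (p e) * U e * 1 := fun U =>
    funext fun e => by simp only [hc', mz, pert, per, zv_mul, mul_assoc, mul_one]; rfl
  simp only [zt, e', e2]
  rw [← RGP.int_mp (Y6.mp_lr h (fun e => zv (p e)) fun _ => 1)
    (f := fun U => F (pert N' z' U) * bw b N' (pert N' z' U)) (mG.comp (cont_pert _ _).measurable)]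
  simp only [← e3]
  subst hΘ
  refine RGP.int_pat h (F := fun U => F (mz c U) * bw b N' (mz c U))
    (mG.comp (cont_mz c).measurable)
    (dependsOn_univ _) (φ := fun e : Link => ((md N (ψ e.2 e.1), τ e.2) : Link))
    (s := fun e => s e.2) (φ' := fun e : Link => ((md N' e.1, e.2) : Link))
    (s' := fun _ => false) (fun e _ e' _ => ?_) fun e _ e' _ H => ?_
  · simp only [Prod.mk.injEq, hτ.eq_iff]
    exact and_congr_left fun H => by rw [H, hψ]
  · rw [hτ (congrArg Prod.snd H), Bool.xor_self, Bool.xor_self]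

theorem mz_one (U : Fd) : mz (cb 1) U = U := funext fun e => by simp [mz, cb, zv_one]

theorem dens_shf {N : Fin 4 → ℕ} (hN : ∀ i, 0 < N i) (z : Tz) (v : Z4) (U : Fd) :
    ∑ x ∈ box N, dens (shf v (pert N z U)) x = ∑ x ∈ box N, dens (pert N z U) x := by
  simp only [dens_pe, pe_shf]
  exact sum_md hN hN (Equiv.addRight v) (md_add N v)
    (g := fun x => ∑ i, ∑ j, if i < j then pe (pert N z U) x i j else 0)
    fun x => by simp only [pe_pert_md]

theorem zt_shf0 (b : ℝ) {N : Fin 4 → ℕ} (hN : ∀ i, 0 < N i) {z : Tz} {v : Z4}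
    (hv : ∀ x i, coc9 N z (x + v, i) = coc9 N z (x, i)) {F : Fd → ℝ} (mF : Measurable F) :
    (zt h b N z fun U => F (shf v U)) = zt h b N z F := by
  simpa only [mz_one] using zt_mot h b (Θ := shf v) (fun _ => false) injective_id
    (fun _ => md_add N v) rfl 1 1 (fun x i => by simp [cb, hv, RGP.sg]) (dens_shf hN z v) mF

/-- time translations -/
theorem zt_sht (b : ℝ) {N : Fin 4 → ℕ} (hN : ∀ i, 0 < N i) (z : Tz) (s : ℤ) {F : Fd → ℝ}
    (mF : Measurable F) : (zt h b N (zs z) fun U => F (sht s U)) = zt h b N (zs z) F :=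
  zt_shf0 h b hN (fun x => coc9_zs N z fun l hl => by simp [hl]) mF

theorem zt_rfl (b : ℝ) {N : Fin 4 → ℕ} (hN : ∀ i, 0 < N i) (z : Tz) {F : Fd → ℝ}
    (mF : Measurable F) : (zt h b N (zs z) fun U => F (rfl0 U)) = zt h b N (zs z) F := by
  simpa only [mz_one] using zt_mot h b (z := zs z) (z' := zs z) (Θ := rfl0) (fun i => decide (i = 0))
    injective_id (fun i => md_rq N i i) (by funext U e; simp [rfl0, RGP.pat, RGP.sg]) 1 1
    (fun x i => by
      rw [id, coc9_zs N z (y := x) fun l hl => update_of_ne hl _ _]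
      by_cases hi : i = 0 <;> simp [cb, hi, coc9_eq, RGP.sg]) (fun U => by
      simp only [dens_pe]
      rw [Finset.sum_comm, Finset.sum_comm (s := box N)]
      refine Finset.sum_congr rfl fun i _ => ?_
      rw [Finset.sum_comm, Finset.sum_comm (s := box N)]
      refine Finset.sum_congr rfl fun j _ => ?_
      split_ifs with hij
      · simp only [pe_rfl hij]
        exact sum_md hN hN (Involutive.toPerm _ (rq_rq i j)) (md_rq N i j)
          (g := fun x => pe (pert N (zs z) U) x i j) fun x => pe_pert_md N _ U x i j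
      · rfl) mF

theorem zt_shf01 (b : ℝ) {N : Fin 4 → ℕ} (hN : ∀ i, 0 < N i) (z : Zc) {v : Z4} (h2 : v 2 = 0)
    (h3 : v 3 = 0) {F : Fd → ℝ} (mF : Measurable F) :
    (zt h b N (tz 1 z) fun U => F (shf v U)) = zt h b N (tz 1 z) F :=
  zt_shf0 h b hN (fun x i => by simp [coc9_tz, dl, h2, h3]) mF

/-- translations combined with a central gauge transformation -/
theorem zt_shf (n : ℕ) (z : Zc) (v : Z4) : ∃ Θ : Fd → Fd, Continuous Θ ∧
    (∀ U, pe (Θ U) = pe (shf v U)) ∧ ∀ (b : ℝ) (N : Fin 4 → ℕ), (∀ i, 0 < N i) → N 2 = n → N 3 = n →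
      ∀ F : Fd → ℝ, Measurable F → (zt h b N (tz 1 z) fun U => F (Θ U)) = zt h b N (tz 1 z) F := by
  refine ⟨fun U => mz (cb fun x => z ^ (x 2 / n * ((x 3 % n + v 3) / n))) (shf v U), by fun_prop,
    fun U => pe_cb _ _, fun b N hN h2 h3 F mF => ?_⟩
  refine zt_mot h b (Θ := shf v) (fun _ => false) injective_id (fun _ => md_add N v) rfl _
    (fun e => if e.2 = 2 then z ^ (-(dl N e.1 2 * ((e.1 3 % n + v 3) / n))) else if e.2 = 3 then
      z ^ ((e.1 2 % n + v 2) / n * (((e.1 3 % n + v 3) % n + 1) / n)) else 1)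
    (fun x i => ?_) (dens_shf hN _ v) mF
  have a2 := div_add' (x 2) 1 n
  have a3 := div_add' (x 2) (v 2) n
  have a4 : ((x 3 + 1) % n + v 3) / n =
      (x 3 % n + v 3) / n + ((x 3 + v 3) % n + 1) / n - (x 3 % n + 1) / n := by
    have := div_add' (x 3) 1 n
    have := div_add' (x 3) (v 3) n
    have := div_add' (x 3 + v 3) 1 n
    have := div_add' (x 3 + 1) (v 3) n
    rw [add_right_comm] at this
    linarith
  fin_cases i <;> simp [cb, coc9_tz, dl_mod, md, h2, h3, a2, a3, a4, RGP.sg] <;>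
    simp only [div_eq_mul_inv] <;> group

theorem dens_prm' {N : Fin 4 → ℕ} (hN : ∀ i, 0 < N i) (z : Tz) (σ : Equiv.Perm (Fin 4)) (U : Fd) :
    ∑ x ∈ box (N ∘ σ), dens (prm σ (pert N z U)) x = ∑ x ∈ box N, dens (pert N z U) x := by
  simp only [dens_prm]
  exact sum_md hN (fun _ => hN _) (Equiv.arrowCongr σ (Equiv.refl ℤ)) (md_prm N σ)
    fun x => by simp only [dens_pe, pe_pert_md]

theorem zt_prm (b : ℝ) {N : Fin 4 → ℕ} (hN : ∀ i, 0 < N i) {z z' : Tz} (σ : Equiv.Perm (Fin 4))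
    (u : Z4 → Zc) (hc : ∀ x i, cb u (x, i) * coc9 N z (x ∘ σ.symm, σ i) = coc9 (N ∘ σ) z' (x, i))
    {F : Fd → ℝ} (mF : Measurable F) :
    (zt h b N z fun U => F (mz (cb u) (prm σ U))) = zt h b (N ∘ σ) z' F :=
  zt_mot h b (Θ := prm σ) (fun _ => false) σ.injective (fun _ => md_prm N σ) rfl u 1
    (fun x i => (hc x i).trans (mul_one _).symm) (dens_prm' hN z σ) mF

theorem zt_swap1 (b : ℝ) {N : Fin 4 → ℕ} (hN : ∀ i, 0 < N i) (z : Zc) {F : Fd → ℝ}
    (mF : Measurable F) : (zt h b N (tz 1 z) fun U => F (prm (Equiv.swap 0 1) U)) =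
      zt h b (N ∘ Equiv.swap 0 1) (tz 1 z) F := by
  simpa only [mz_one] using zt_prm h b hN (z := tz 1 z) (z' := tz 1 z) (Equiv.swap 0 1) 1
    (fun x i => by fin_cases i <;> simp [cb, coc9_tz, dl, Equiv.swap_apply_def]) mF

theorem zt_swap2 (b : ℝ) {N : Fin 4 → ℕ} (hN : ∀ i, 0 < N i) (z : Zc) {F : Fd → ℝ}
    (mF : Measurable F) : (zt h b N (tz 1 z) fun U => F (prm (Equiv.swap 0 2) U)) =
      zt h b (N ∘ Equiv.swap 0 2) (t3 z) F := by
  simpa only [mz_one] using zt_prm h b hN (z := tz 1 z) (z' := t3 z) (Equiv.swap 0 2) 1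
    (fun x i => by fin_cases i <;> simp [cb, coc9_tz, coc9_t3, dl, Equiv.swap_apply_def]) mF

/-- the links of the window `0 ≤ x 0 ≤ k`, `0 ≤ x 1 ≤ k` -/
def Sp2 (k : ℕ) : Set Link := {e | 0 ≤ e.1 0 ∧ e.1 0 ≤ k ∧ 0 ≤ e.1 1 ∧ e.1 1 ≤ k}

/-- the exchange of the long directions inverts the twist -/
theorem zt_swapz (b : ℝ) {N : Fin 4 → ℕ} (hN : ∀ i, 0 < N i) (ζ z : Zc) {F : Fd → ℝ}
    (mF : Measurable F) {k : ℕ} (dF : DependsOn F (Sp2 k)) (h0 : k < N 0) (h1 : k < N 1) :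
    (zt h b N (tz ζ z) fun U => F (prm (Equiv.swap 0 1) U)) =
      zt h b (N ∘ Equiv.swap 0 1) (tz ζ⁻¹ z) F := by
  rw [← zt_prm h b hN (z := tz ζ z) (Equiv.swap 0 1) (fun x => ζ ^ (x 0 / N 1 * (x 1 / N 0)))
    (fun x i => by
      fin_cases i <;> simp [cb, coc9_tz, dl, Equiv.swap_apply_def] <;>
        simp only [div_eq_mul_inv] <;> group) mF]
  refine congrArg _ (funext fun U => dF fun ⟨x, i⟩ ⟨a0, a1, a2, a3⟩ => ?_)
  have e0 : x 0 / (N 1 : ℤ) = 0 := Int.ediv_eq_zero_of_lt a0 (by simp only at a1; omega)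
  have e1 : x 1 / (N 0 : ℤ) = 0 := Int.ediv_eq_zero_of_lt a2 (by simp only at a3; omega)
  fin_cases i <;> simp [mz, cb, e0, e1, zv_one]

theorem ae_pert (b : ℝ) (N : Fin 4 → ℕ) (z : Tz) :
    ∀ᵐ U ∂wilz h b N z, ∀ v : Z4, pe (shf (fun i => N i * v i) U) = pe U :=
  have c : Continuous pe := continuous_pi fun x => continuous_pi fun i => continuous_pi fun j =>
    cont_pe x i j
  ae_all_iff.2 fun v => (ae_map_iff (cont_pert N z).measurable.aemeasurable
    (isClosed_eq (c.comp (cont_shf _)) c).measurableSet).2 (ae_of_all _ fun U => by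
      funext x i j
      exact (pe_shf _ _ x i j).trans (pe_pert_add N z U x v i j))

theorem Z0_symm [Fintype Zc] (b : ℝ) {n T R : ℕ} (hn : 0 < n) (hT : 0 < T) (hR : 0 < R) (z : Zc) :
    Z0 h b n z T R = Z0 h b n z R T := by
  have e : ![T, R, n, n] ∘ Equiv.swap 0 1 = ![R, T, n, n] := funext fun i => by
    fin_cases i <;> simp [Equiv.swap_apply_def]
  rw [Z0, Z0, ← Equiv.sum_comp (Equiv.inv Zc) fun ζ => zt h b ![R, T, n, n] (tz ζ z) fun _ => 1, ← e]
  exact congrArg _ (Finset.sum_congr rfl fun ζ _ => zt_swapz h b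
    (fun i => by fin_cases i <;> simpa) ζ z (F := fun _ => 1) measurable_const (k := 0)
    (fun _ _ _ => rfl) hT hR)

end Pool.Agent.Lib.MP_7f377f_mp.YM9
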