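import Pool.Agent.Lib.MP_7f377f_mp.G.TwChart
import Pool.Agent.Lib.MP_7f377f_mp.G.TwRep
import Pool.Agent.Lib.MP_7f377f_mp.G.TwGau
import Pool.Agent.Lib.MP_7f377f_mp.G.TwDet
import Pool.Agent.Lib.MP_7f377f_mp.G.TwCmb

/-! The Laplace method for the integral over the gauge group. -/

noncomputable section

set_option linter.unusedSectionVars false
variable [Pool.Agent.Lib.MP_7f377f_mp.GD]

namespace Pool.Agent.Lib.MP_7f377f_mp.RG.Lp.Dt

open Finset Matrix MeasureTheory Q4 Ms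

variable {T : Dt} {C B β : ℝ}

theorem nabs_dot {ι : Type} [Fintype ι] {x y : ι → ℝ} {r t : ℝ} (r0 : 0 ≤ r) (t0 : 0 ≤ t)
    (hx : x ⬝ᵥ x ≤ r ^ 2) (hy : y ⬝ᵥ y ≤ t ^ 2) : |x ⬝ᵥ y| ≤ r * t := by
  refine abs_le_of_sq_le_sq' ?_ (mul_nonneg r0 t0) |> abs_le.2
  have h := sum_mul_sq_le_sq_mul_sq univ x y
  simp only [sq (x _), sq (y _)] at h
  rw [mul_pow]
  exact h.trans (mul_le_mul hx hy (dot0 y) (sq_nonneg _))

theorem nadd_dot {ι : Type} [Fintype ι] {x y : ι → ℝ} {r t : ℝ} (r0 : 0 ≤ r) (t0 : 0 ≤ t)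
    (hx : x ⬝ᵥ x ≤ r ^ 2) (hy : y ⬝ᵥ y ≤ t ^ 2) : (x + y) ⬝ᵥ (x + y) ≤ (r + t) ^ 2 := by
  have := (abs_le.1 (nabs_dot r0 t0 hx hy)).2
  rw [add_dotProduct, dotProduct_add, dotProduct_add, dotProduct_comm y x]
  nlinarith

theorem nsub_dot {ι : Type} [Fintype ι] {x y : ι → ℝ} {r t : ℝ} (r0 : 0 ≤ r) (t0 : 0 ≤ t)
    (hx : x ⬝ᵥ x ≤ r ^ 2) (hy : y ⬝ᵥ y ≤ t ^ 2) : (x - y) ⬝ᵥ (x - y) ≤ (r + t) ^ 2 := by
  rw [sub_eq_add_neg]
  exact nadd_dot r0 t0 hx (by simpa using hy)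

theorem ndot_le {κ X : Type} [Fintype κ] [Fintype X] {x : κ × X × Fin GD.d → ℝ} {r : ℝ}
    (h : ∀ p, at1 x p ⬝ᵥ at1 x p ≤ r) : x ⬝ᵥ x ≤ Fintype.card (κ × X) * r := by
  rw [dot_at]
  simpa using sum_le_card_nsmul univ _ r fun p _ => h p

theorem at_Dm (x : Unit × domv T.M × Fin GD.d → ℝ) (p : Fin 4 × domv T.M) :
    at1 (Dm T.S *ᵥ x) p = Rm (T.gx (p.2 + un p.1)) *ᵥ at1 x ((), rX T.odd (p.2 + un p.1)) -
      at1 x ((), p.2) := by
  funext k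
  have h := shf_mulVec (θ := T.th) T.odd (un p.1) (fun j => x ((), j)) (p.2, k)
  have e : at1 (Dm T.S *ᵥ x) p k = ((T.S (un p.1) - 1) *ᵥ fun j => x ((), j)) (p.2, k) := by
    simp only [at1, Dm, mulVec, dotProduct, of_apply, Fintype.sum_prod_type (α₁ := Unit),
      Fintype.sum_unique]
  rw [e, sub_mulVec, one_mulVec, Pi.sub_apply, S, h]
  rfl

/-- the linearised gauge transformation -/
theorem cv_ac {g : T.Gg} {v : T.Cn} {s : ℝ} (hg : ∀ p, nq (g p) ≤ s) (hv : ∀ p, nq (v p) ≤ s)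
    (p : Fin 4 × domv T.M) :
    at1 (cv (T.ac 1 g v) - (cv v - Dm T.S *ᵥ cv g)) p ⬝ᵥ
      at1 (cv (T.ac 1 g v) - (cv v - Dm T.S *ᵥ cv g)) p ≤ (3 * s ^ 2) ^ 2 := by
  have s0 := (nq_nonneg _).trans (hv p)
  set a := g ((), p.2)
  set c := T.gx (p.2 + un p.1) * g ((), rX T.odd (p.2 + un p.1)) * (T.gx (p.2 + un p.1))⁻¹ with hc
  have e : at1 (cv (T.ac 1 g v) - (cv v - Dm T.S *ᵥ cv g)) p =
      (cr (a * v p * c⁻¹) - cr (a * v p) - cr c⁻¹) + (cr (a * v p) - cr a - cr (v p)) := by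
    have e1 : at1 (cv (T.ac 1 g v) - (cv v - Dm T.S *ᵥ cv g)) p =
        cr (T.ac 1 g v p) - (cr (v p) - at1 (Dm T.S *ᵥ cv g) p) := rfl
    rw [e1, at_Dm, ac_apply, cr_inv c, hc, cr_conj]
    have e2 : ∀ q, at1 (cv g) q = cr (g q) := fun _ => rfl
    rw [e2, e2]
    abel
  have hc' : nq c⁻¹ ≤ s := by rw [nq_inv, hc, nq_conj]; exact hg _
  have h1 : nq (a * v p) * nq c⁻¹ ≤ 2 * s ^ 2 := by
    have := (nq_mul a (v p)).trans (add_le_add (hg _) (hv p))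
    nlinarith [mul_le_mul this hc' (nq_nonneg _) (by linarith)]
  have h2 : nq a * nq (v p) ≤ s ^ 2 := by
    rw [sq]; exact mul_le_mul (hg _) (hv p) (nq_nonneg _) s0
  rw [e, show 3 * s ^ 2 = 2 * s ^ 2 + s ^ 2 by ring]
  exact nadd_dot (by positivity) (by positivity)
    ((cr_mul _ _).trans (pow_le_pow_left₀ (mul_nonneg (nq_nonneg _) (nq_nonneg _)) h1 2))
    ((cr_mul _ _).trans (pow_le_pow_left₀ (mul_nonneg (nq_nonneg _) (nq_nonneg _)) h2 2))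

theorem Ok.CB (h : T.Ok C B β) : 3 * C ≤ B ∧ cG ≤ B := by
  have h1 := h.big
  have h2 := h.rig.one
  have h3 := GD.cG_ge
  have h4 : C ≤ C ^ 2 := by nlinarith
  have h5 : C ^ 2 ≤ C ^ 2 * cG := le_mul_of_one_le_right (sq_nonneg _) GD.cG1
  have h6 : cG ≤ C ^ 2 * cG := le_mul_of_one_le_left GD.cG_pos.le (one_le_pow₀ h2)
  constructor <;> nlinarith

variable [Fintype Zc]

open Classical in
theorem meas_cut (β δ r : ℝ) (v : T.Cn) :
    Measurable fun g : T.Gg => if ∀ p, nq (g p) ≤ r then T.w β δ (T.ac 1 g v) else 0 := by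
  refine Measurable.ite ?_ (T.meas_w.comp
    ((T.cont_ac 1).comp (continuous_id.prodMk continuous_const)).measurable) measurable_const
  simp only [Set.setOf_forall]
  exact MeasurableSet.iInter fun p =>
    (isClosed_le (cont_nq.comp (continuous_apply p)) continuous_const).measurableSet

open Classical in
/-- only the neighbourhoods of the central elements contribute -/
theorem Nw_eq (h : T.Ok C B β) {v : T.Cn} {δ : ℝ} (hv : ∀ p, nq (v p) ≤ δ) (hδ : B ^ 4 * δ ≤ 1) :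
    T.Nw β δ v = Fintype.card Zc *
      ∫ g, (if ∀ p, nq (g p) ≤ B ^ 3 * δ then T.w β δ (T.ac 1 g v) else 0) ∂hP _ := by
  have B0 : 0 < B := by linarith [h.B1]
  have β0 : 0 ≤ β := (pow_pos B0 _).le.trans h.beta
  have δ0 := (nq_nonneg _).trans (hv (0, rX T.odd 0))
  have hw : ∀ {c g}, T.w β δ (T.ac c g v) ≠ 0 → ∀ p, nq (T.ac c g v p) ≤ δ := fun hw => by
    by_contra hn
    exact hw (if_neg hn)
  set F : T.Gg → ℝ := fun g => if ∀ p, nq (g p) ≤ B ^ 3 * δ then T.w β δ (T.ac 1 g v) else 0 with hF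
  have mF : Measurable F := meas_cut β δ _ v
  have iF : Integrable F (hP _) := Integrable.of_bound mF.aestronglyMeasurable 1
    (Filter.Eventually.of_forall fun g => by
      have := T.w_bd (δ := δ) β0 (T.ac 1 g v)
      simp only [hF]
      split_ifs
      · rw [Real.norm_of_nonneg this.1]; exact this.2
      · simp)
  have key : ∀ g : T.Gg, T.w β δ (T.ac 1 g v) = ∑ y : Zc, F (g * fun _ => ((y⁻¹ : Zc) : S3)) := by
    intro g
    have e : ∀ y : Zc, F (g * fun _ => ((y⁻¹ : Zc) : S3)) =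
        if ∀ p, nq (g p * (y : S3)⁻¹) ≤ B ^ 3 * δ then T.w β δ (T.ac 1 g v) else 0 := fun y => by
      have := T.ac_cen 1 g y⁻¹ v
      simp only [hF]
      rw [show (g * fun _ => ((y⁻¹ : Zc) : S3)) = fun p => g p * (y⁻¹ : Zc) from rfl, this]
      rfl
    simp only [e]
    by_cases h0 : T.w β δ (T.ac 1 g v) = 0
    · simp [h0]
    obtain ⟨-, y, hy⟩ := stab h hv (hw h0) hδ
    rw [sum_eq_single y (fun y' _ hn => if_neg fun hy' => hn ?_) (by simp), if_pos hy]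
    set a := g ((), rX T.odd 0)
    have h1 : nq ((y' * y⁻¹ : Zc) : S3) ≤ B ^ 3 * δ + B ^ 3 * δ := by
      rw [show ((y' * y⁻¹ : Zc) : S3) = (a * (y' : S3)⁻¹)⁻¹ * (a * (y : S3)⁻¹) by simp [mul_assoc]]
      exact (nq_mul _ _).trans (add_le_add ((nq_inv _).trans_le (hy' _)) (hy _))
    refine mul_inv_eq_one.1 (h.rig.r3 _ ?_)
    have h2 := h.CB.1
    have h3 := h.rig.one
    have h4 : 0 ≤ B ^ 3 * δ := by positivity
    have h5 : B * (B ^ 3 * δ) ≤ 1 := by linarith [show B * (B ^ 3 * δ) = B ^ 4 * δ by ring]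
    nlinarith [mul_le_mul_of_nonneg_left h1 (by linarith : 0 ≤ C), mul_le_mul_of_nonneg_right h2 h4]
  rw [Nw, sum_eq_single 1 (fun c _ hc => ?_) (by simp)]
  · simp only [key]
    rw [integral_finset_sum _ fun y _ => iF.comp_mul_right _]
    simp only [integral_mul_right_eq_self, sum_const, card_univ, nsmul_eq_mul]
  · refine integral_eq_zero_of_ae (Filter.Eventually.of_forall fun g => ?_)
    by_contra h0
    exact hc (stab h hv (hw h0) hδ).1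

/-- the exponent near the minimum -/
theorem core (h : T.Ok C B β) {v : T.Cn} {s : ℝ} (hv : ∀ p, nq (v p) ≤ s)
    {x x0 : Unit × domv T.M × Fin GD.d → ℝ} (h0 : ((Dm T.S)ᵀ * Dm T.S) *ᵥ x0 = (Dm T.S)ᵀ *ᵥ cv v)
    (n0 : x0 ⬝ᵥ x0 ≤ (B ^ 2 * s) ^ 2) (hx : ∀ p, nq (ce x p) ≤ s) (hc : cv (ce x) = x) (s1 : s ≤ 1) :
    |((Dm T.S)ᵀ *ᵥ cv (T.ac 1 (ce x) v)) ⬝ᵥ ((Dm T.S)ᵀ *ᵥ cv (T.ac 1 (ce x) v)) -
      (x - x0) ⬝ᵥ ((Dm T.S)ᵀ * Dm T.S * ((Dm T.S)ᵀ * Dm T.S)) *ᵥ (x - x0)| ≤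
      2112 * B ^ 4 * s ^ 3 ∧ Real.exp (-(B ^ 4 * s ^ 2)) ≤ jc x ∧ jc x ≤ Real.exp (B ^ 4 * s ^ 2) := by
  have B0 : 0 < B := by linarith [h.B1]
  have s0 := (nq_nonneg _).trans (hv (0, rX T.odd 0))
  have sb := sb_lap T.orp_S h.pc B0
  have s2 := sb.sq (inv_pos.2 B0)
  have hV := h.vol
  have c1 : (Fintype.card (Unit × domv T.M) : ℝ) ≤ B ^ 4 := by simpa using hV
  have c4 : (Fintype.card (Fin 4 × domv T.M) : ℝ) ≤ 4 * B ^ 4 := by
    simpa using hV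
  have ax : ∀ p, at1 x p ⬝ᵥ at1 x p ≤ s ^ 2 := fun p => by
    have e : at1 x p = cr (ce x p) := (congrArg (at1 · p) hc).symm
    rw [e]
    exact (cr_sq _).trans (pow_le_pow_left₀ (nq_nonneg _) (hx p) 2)
  have hj := jc_bd ax (pow_le_one₀ s0 s1)
  have c2 := mul_le_mul_of_nonneg_right c1 (sq_nonneg s)
  refine ⟨?_, (Real.exp_le_exp.2 (neg_le_neg c2)).trans hj.1, hj.2.trans (Real.exp_le_exp.2 c2)⟩
  set L := (Dm T.S)ᵀ * Dm T.S with hL
  set E := cv (T.ac 1 (ce x) v) - (cv v - Dm T.S *ᵥ cv (ce x)) with hE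
  set u := L *ᵥ (x - x0) with hu
  set e := (Dm T.S)ᵀ *ᵥ E with he
  have e1 : (Dm T.S)ᵀ *ᵥ cv (T.ac 1 (ce x) v) = e - u := by
    rw [he, hu, hE, hc, mulVec_sub, mulVec_sub, mulVec_sub, h0, mulVec_mulVec, ← hL]
    abel
  have e2 : (x - x0) ⬝ᵥ (L * L) *ᵥ (x - x0) = u ⬝ᵥ u := by
    rw [← mulVec_mulVec, dotProduct_mulVec, ← mulVec_transpose, sb.symm]
  have nx : x ⬝ᵥ x ≤ (B ^ 2 * s) ^ 2 := (ndot_le ax).trans (c2.trans_eq (by ring))
  have nu : u ⬝ᵥ u ≤ (32 * B ^ 2 * s) ^ 2 := by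
    rw [← e2]
    have := nsub_dot (by positivity) (by positivity) nx n0
    nlinarith [s2.up (x - x0)]
  have ne : e ⬝ᵥ e ≤ (24 * B ^ 2 * s ^ 2) ^ 2 := by
    have h1 := Dm_le T.orp_S E
    have h2 : E ⬝ᵥ E ≤ _ := ndot_le (cv_ac hx hv)
    have h3 := mul_le_mul_of_nonneg_right c4 (sq_nonneg (3 * s ^ 2))
    nlinarith
  have h1 := abs_le.1 (nabs_dot (by positivity) (by positivity) nu ne)
  have h2 := dot0 e
  have h3 : B ^ 4 * s ^ 4 ≤ B ^ 4 * s ^ 3 :=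
    mul_le_mul_of_nonneg_left (pow_le_pow_of_le_one s0 s1 (by norm_num)) (by positivity)
  rw [e1, e2, sub_dotProduct, dotProduct_sub, dotProduct_sub, dotProduct_comm e u, abs_le]
  constructor <;> nlinarith [show 0 ≤ B ^ 4 * s ^ 3 by positivity]

open Classical in
theorem lapN (h : T.Ok C B β) {v : T.Cn} (hv : ∀ p, nq (v p) ≤ B ^ 13 / √β) :
    0 < T.Nw β (B ^ 20 / √β) v ∧ |Real.log (T.Nw β (B ^ 20 / √β) v) - (Real.log (Fintype.card Zc) +
      Fintype.card (Unit × domv T.M) * Real.log cHa +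
        lg β ((Dm T.S)ᵀ * Dm T.S * ((Dm T.S)ᵀ * Dm T.S)))| ≤ B⁻¹ := by
  have B1 := h.B1
  have B0 : 0 < B := by linarith
  have B2 : 1 ≤ B := by linarith
  have β0 : 0 < β := (pow_pos B0 _).trans_le h.beta
  obtain ⟨a, a0, ha, aβ, aB⟩ : ∃ a : ℝ, 0 < a ∧ (∀ t, t / √β = t * a) ∧ β * a ^ 2 = 1 ∧
      B ^ 500 * a ≤ 1 := by
    have q0 := Real.sqrt_pos.2 β0
    refine ⟨(√β)⁻¹, inv_pos.2 q0, fun t => div_eq_mul_inv _ _, ?_, ?_⟩
    · rw [inv_pow, Real.sq_sqrt β0.le, mul_inv_cancel₀ β0.ne']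
    · rw [← div_eq_mul_inv, div_le_one q0]
      exact Real.le_sqrt_of_sq_le (by rw [← pow_mul]; exact h.beta)
  simp only [ha] at hv ⊢
  have pw : ∀ {i j : ℕ}, i ≤ j → B ^ i * a ≤ B ^ j * a := fun hij =>
    mul_le_mul_of_nonneg_right (pow_le_pow_right₀ B2 hij) a0.le
  have pv : ∀ (i : ℕ) {t : ℝ}, t ≤ 10 ^ 15 → t * (B ^ i * a) ≤ B ^ (i + 1) * a := fun i t ht =>
    (mul_le_mul_of_nonneg_right (ht.trans B1) (by positivity)).trans_eq (by ring)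
  set s := B ^ 3 * (B ^ 20 * a) with hs
  have es : s = B ^ 23 * a := by rw [hs]; ring
  have s0 : 0 < s := by positivity
  have s1 : s ≤ 1 := by rw [es]; exact (pw (by norm_num)).trans aB
  have sb := sb_lap T.orp_S h.pc B0
  have hV := h.vol
  have c4 : (Fintype.card (Fin 4 × domv T.M) : ℝ) ≤ 4 * B ^ 4 := by simpa using hV
  obtain ⟨x0, h0, n0⟩ := sb.solve (inv_pos.2 B0) ((Dm T.S)ᵀ *ᵥ cv v)
  have n1 : x0 ⬝ᵥ x0 ≤ (8 * (B ^ 16 * a)) ^ 2 := by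
    have h1 := Dm_le T.orp_S (cv v)
    have h2 : cv v ⬝ᵥ cv v ≤ _ := ndot_le fun p =>
      (cr_sq (v p)).trans (pow_le_pow_left₀ (nq_nonneg _) (hv p) 2)
    have h3 := mul_le_mul_of_nonneg_right c4 (sq_nonneg (B ^ 13 * a))
    have h4 : B⁻¹ ^ 2 * (x0 ⬝ᵥ x0) ≤ 64 * B ^ 4 * (B ^ 13 * a) ^ 2 := by linarith
    rw [inv_pow, inv_mul_le_iff₀ (by positivity)] at h4
    exact h4.trans_eq (by ring)
  have n2 : x0 ⬝ᵥ x0 ≤ (B ^ 2 * s) ^ 2 := n1.trans (pow_le_pow_left₀ (by positivity)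
    (((pv 16 (by norm_num)).trans (pw (j := 25) (by norm_num))).trans_eq (by rw [es]; ring)) 2)
  have hvs : ∀ p, nq (v p) ≤ s := fun p => (hv p).trans (by rw [es]; exact pw (by norm_num))
  have hη : β * (2112 * B ^ 4 * s ^ 3) + B ^ 4 * s ^ 2 ≤ B⁻¹ / 2 := by
    have e1 : β * (2112 * B ^ 4 * s ^ 3) = 2112 * (B ^ 73 * a) := by
      rw [es]; linear_combination 2112 * B ^ 73 * a * aβ
    have e2 : B ^ 4 * s ^ 2 ≤ B ^ 73 * a := by
      have : B ^ 4 * s ^ 2 ≤ B ^ 4 * s :=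
        mul_le_mul_of_nonneg_left (by nlinarith) (by positivity)
      exact this.trans ((by rw [es]; ring : B ^ 4 * s = B ^ 27 * a).trans_le (pw (by norm_num)))
    have e3 : 4226 * (B ^ 74 * a) ≤ 1 := ((pv 74 (by norm_num)).trans (pw (by norm_num))).trans aB
    rw [e1, le_div_iff₀ two_pos, ← one_div, le_div_iff₀ B0]
    nlinarith [mul_le_mul_of_nonneg_right e2 B0.le, show B ^ 73 * a * B = B ^ 74 * a by ring]
  set F : T.Gg → ℝ := fun g => if ∀ p, nq (g p) ≤ s then T.w β (B ^ 20 * a) (T.ac 1 g v) else 0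
    with hF
  have mF : Measurable F := meas_cut β _ _ v
  have F0 : ∀ g, 0 ≤ F g := fun g => by
    simp only [hF]
    split_ifs
    exacts [(T.w_bd β0.le _).1, le_rfl]
  have Fs : ∀ g, F g ≠ 0 → ∀ p, nq (g p) ≤ s := fun g hg => by
    by_contra hn
    exact hg (if_neg hn)
  have lap := laplace (sb.sq (inv_pos.2 B0)) (by positivity) β0 (F := fun x => F (ce x) * jc x)
    ((mF.comp meas_ce).mul meas_jc) x0 (η := B⁻¹ / 2) (r := B ^ 8 * a) (τ := B)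
    (fun x => mul_nonneg (F0 _) (jc_nonneg _)) (fun x => ?_) (fun x hx => ?_) B2 ?_
  · have e := Nw_eq h (δ := B ^ 20 * a) (fun p => (hv p).trans (pw (by norm_num)))
      ((by ring : B ^ 4 * (B ^ 20 * a) = B ^ 24 * a).trans_le ((pw (by norm_num)).trans aB))
    rw [← hs, chart mF fun g hg p => ((Fs g hg p).trans s1).trans_lt one_lt_two] at e
    have z0 : (0 : ℝ) < Fintype.card Zc := Nat.cast_pos.2 Fintype.card_pos
    have c0 := pow_pos cHa_pos (Fintype.card (Unit × domv T.M))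
    rw [e, Real.log_mul z0.ne' (mul_pos c0 lap.1).ne', Real.log_mul c0.ne' lap.1.ne', Real.log_pow]
    refine ⟨mul_pos z0 (mul_pos c0 lap.1), ?_⟩
    have h1 : 2 * Real.exp (-B) ≤ B⁻¹ / 2 := by
      have h2 := Real.quadratic_le_exp_of_nonneg B0.le
      rw [Real.exp_neg, le_div_iff₀ two_pos, ← one_div B, le_div_iff₀ B0,
        show 2 * (Real.exp B)⁻¹ * 2 * B = 4 * B / Real.exp B by ring, div_le_one (Real.exp_pos _)]
      nlinarith
    rw [add_assoc, add_sub_add_left_eq_sub, add_sub_add_left_eq_sub]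
    exact lap.2.trans (by linarith)
  · by_cases h1 : F (ce x) = 0
    · simp only [h1, zero_mul]; positivity
    by_cases h2 : jc x = 0
    · simp only [h2, mul_zero]; positivity
    obtain ⟨k1, -, k3⟩ := core h hvs h0 n2 (Fs _ h1) (cv_ce h2) s1
    have h3 : F (ce x) ≤ Real.exp (-(β * (((Dm T.S)ᵀ *ᵥ cv (T.ac 1 (ce x) v)) ⬝ᵥ
        ((Dm T.S)ᵀ *ᵥ cv (T.ac 1 (ce x) v))))) := by
      simp only [hF, w]
      split_ifs
      exacts [le_rfl, (Real.exp_pos _).le, (Real.exp_pos _).le]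
    refine (mul_le_mul h3 k3 (jc_nonneg _) (Real.exp_pos _).le).trans ?_
    rw [← Real.exp_add, Real.exp_le_exp]
    nlinarith [mul_le_mul_of_nonneg_left (abs_le.1 k1).1 β0.le]
  · have nx : x ⬝ᵥ x ≤ (9 * (B ^ 16 * a)) ^ 2 := by
      have := nadd_dot (by positivity) (by positivity) hx n1
      rw [sub_add_cancel] at this
      exact this.trans (pow_le_pow_left₀ (by positivity)
        (by linarith [pw (i := 8) (j := 16) (by norm_num)]) 2)
    have t1 : 40 * (B ^ 16 * a) ≤ B ^ 20 * a := (pv 16 (by norm_num)).trans (pw (by norm_num))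
    have t2 : B ^ 20 * a ≤ s := by rw [es]; exact pw (by norm_num)
    have t3 : B ^ 13 * a ≤ B ^ 16 * a := pw (by norm_num)
    have t0 : 0 < B ^ 16 * a := by positivity
    have ax : ∀ p, at1 x p ⬝ᵥ at1 x p ≤ (9 * (B ^ 16 * a)) ^ 2 := fun p => (at_le x p).trans nx
    have hg : ∀ p, nq (ce x p) ≤ 2 * (9 * (B ^ 16 * a)) := fun p =>
      nq_ee (by positivity) (by linarith) (ax p)
    have hgs : ∀ p, nq (ce x p) ≤ s := fun p => (hg p).trans (by linarith)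
    have j0 : jc x ≠ 0 := ((Real.exp_pos _).trans_le
      (jc_bd ax (pow_le_one₀ (by positivity) (by linarith))).1).ne'
    obtain ⟨k1, k2, -⟩ := core h hvs h0 n2 hgs (cv_ce j0) s1
    have hw : ∀ p, nq (T.ac 1 (ce x) v p) ≤ B ^ 20 * a := fun p => by
      rw [ac_apply]
      refine (nq_mul _ _).trans ?_
      rw [nq_inv, nq_conj]
      linarith [nq_mul (ce x ((), p.2)) (v p), hg ((), p.2), hv p, hg ((), rX T.odd (p.2 + un p.1))]
    simp only [hF, w, if_pos hgs, if_pos hw]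
    refine le_trans ?_ (mul_le_mul_of_nonneg_left k2 (Real.exp_pos _).le)
    rw [← Real.exp_add, Real.exp_le_exp]
    nlinarith [mul_le_mul_of_nonneg_left (abs_le.1 k1).2 β0.le]
  · have e : β * B⁻¹ ^ 2 * (B ^ 8 * a) ^ 2 / 2 = B ^ 14 / 2 := by
      field_simp
      linear_combination aβ
    have c1 : (Fintype.card (Unit × domv T.M × Fin GD.d) : ℝ) ≤ B ^ 4 * B := by
      simpa using mul_le_mul hV (GD.d_le.trans h.CB.2) (Nat.cast_nonneg _) (by positivity)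
    have p1 : B ≤ B ^ 13 := le_self_pow₀ B2 (by norm_num)
    have p2 : B ^ 5 ≤ B ^ 13 := pow_le_pow_right₀ B2 (by norm_num)
    have p3 : 4 * B ^ 13 ≤ B ^ 14 :=
      (mul_le_mul_of_nonneg_right (by linarith : 4 ≤ B) (by positivity)).trans_eq (by ring)
    rw [e]
    linarith [show B ^ 4 * B = B ^ 5 by ring]

end Pool.Agent.Lib.MP_7f377f_mp.RG.Lp.Dt
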