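import Pool.Agent.Lib.MP_7f377f_mp.G.TwSpec
import Pool.Agent.Lib.MP_7f377f_mp.G.TwCoc
import Pool.Agent.Lib.MP_7f377f_mp.G.Q4Zin

/-! The numbers of the top level and the bounds of the exponent at one site. -/

noncomputable section

set_option linter.unusedSectionVars false
variable [Pool.Agent.Lib.MP_7f377f_mp.GD]

namespace Pool.Agent.Lib.MP_7f377f_mp.RG.Q4

open Finset Real Sd Filter

attribute [local irreducible] box lbox

theorem vol_eq [Tws] {n : ℕ} (hn : Odd n) : vol n = n ^ 4 * ∏ i, Tws.asp i := by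
  have : ∀ i, (Icc (-((sd n i / 2 : ℕ) : ℤ)) (sd n i / 2 : ℕ)).card = n * Tws.asp i := fun i => by
    obtain ⟨k, hk⟩ := odd_sd hn i
    rw [Int.card_Icc]
    change _ = sd n i
    omega
  rw [vol, domT, domv, Fintype.card_piFinset, prod_congr rfl fun i _ => this i, prod_mul_distrib,
    prod_const, card_univ, Fintype.card_fin]

theorem vol_mul [Tws] {m n : ℕ} (hm : Odd m) (hn : Odd n) : vol (m * n) = m ^ 4 * vol n := by
  rw [vol_eq hn, vol_eq (hm.mul hn), mul_pow, mul_assoc]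

/-- the bound of the polynomial constants at the top level -/
def Sd.Pw (S : Sd) : ℝ := S.L ^ 24 * (S.D0 : ℝ) ^ 2

namespace Sd.Nu

variable {S : Sd} (h : S.Nu 100)
include h

omit h in
theorem L_Pw {i : ℕ} (hi : i ≤ 24) : S.L ^ i ≤ S.Pw :=
  (pw _ hi).trans (le_mul_of_one_le_right (pow_pos (L0 _) _).le
    (one_le_pow₀ (by exact_mod_cast D1 _)))

omit h in
theorem Pw1 : 1 ≤ S.Pw := (pow_zero _).ge.trans (L_Pw (by norm_num))

theorem Pw8 : S.Pw ^ 8 ≤ S.Q :=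
  le_of_eq_of_le (by rw [Pw]; ring) (h.mon (C := 1) (i := 192) (j := 16) (by norm_num)
    (by have := h.exps; omega) (by norm_num))

theorem Pw_β : S.Pw ^ 1000 ≤ S.β := by
  rw [show 1000 = 8 * 125 from rfl, pow_mul]
  exact (pow_le_pow_left₀ (pow_nonneg (zero_le_one.trans Pw1) _) h.Pw8 _).trans
    ((S.Qw (by norm_num)).trans h.ok.Qβ)

theorem log_β : log S.β ≤ S.L := by
  have := h.log_le
  have := log_nonneg h.ok.β1
  push_cast at *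
  linarith [h.r_le_L]

theorem log_Pw : log S.Pw ≤ S.L :=
  (log_le_log (one_pos.trans_le Pw1) ((le_self_pow₀ Pw1 (by norm_num)).trans h.Pw_β)).trans h.log_β

theorem ball_num {ω : ℝ} (h1 : √S.g ≤ ω) (hω : S.Q ^ 100 * ω ≤ 1) (h2 : S.Q ^ 115 * S.g ^ 2 ≤ ω) :
    S.Q ^ 100 * (2 * S.Q ^ 10 * S.g ^ 2) ≤ 1 ∧ S.Q ^ 100 * (ω * S.g ^ 2) ≤ 1 ∧
      S.θ' (2 * S.Q ^ 10 * S.g ^ 2) (ω * S.g ^ 2) ≤ ω * S.g ^ 2 := by
  have g0 := h.ok.g0
  have Q0 := S.Q0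
  have u0 := sqrt_nonneg S.g
  have ω0 := u0.trans h1
  obtain ⟨w, hw⟩ : ∃ w, w = S.g ^ 2 := ⟨_, rfl⟩
  have w0 : 0 < w := by rw [hw]; positivity
  rw [← hw] at h2 ⊢
  have a1 : 1000 * (S.Q ^ 110 * w) ≤ ω := by
    linarith [mul_le_mul_of_nonneg_right (En.qpw h (i := 110) (j := 115) (by norm_num)) w0.le]
  have a2 : ω ≤ 1 / 1000 := by linarith [En.qom h hω (i := 0) (by norm_num)]
  have a3 : w ≤ S.Q ^ 110 * w := le_mul_of_one_le_left w0.le (one_le_pow₀ S.Q1)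
  refine ⟨by linarith, by nlinarith [mul_le_mul_of_nonneg_right hω w0.le], ?_⟩
  have a4 : 1000 * (S.Q ^ 100 * √S.g) ≤ 1 := by
    have : S.Q ^ 101 * √S.g ≤ 1 := by
      refine le_of_sq_le_sq ?_ zero_le_one
      rw [mul_pow, sq_sqrt g0.le, ← pow_mul, one_pow]
      simpa using h.ok.Qg_le (i := 202) (j := 0) (by norm_num)
    linarith [mul_le_mul_of_nonneg_right (En.qpw h (i := 100) (j := 101) (by norm_num)) u0]
  have a5 : 1000 * (S.Q ^ 100 * S.g) ≤ ω := by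
    have := mul_le_mul a4 h1 u0 zero_le_one
    rwa [mul_assoc, mul_assoc, mul_self_sqrt g0.le, one_mul] at this
  have a6 : S.Q ^ 90 * S.g ≤ S.Q ^ 100 * S.g :=
    mul_le_mul_of_nonneg_right (S.Qw (by norm_num)) g0.le
  have a8 : ω / S.Q ≤ ω / 1000 := div_le_div_of_nonneg_left ω0 (by norm_num) (h.cQ' (by norm_num))
  have a9 := En.qom h hω (i := 90) (by norm_num)
  calc _ = S.Q ^ 90 * S.g * w + (2 * (S.Q ^ 100 * S.g) + 4 * (S.Q ^ 110 * w) +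
        S.Q ^ 90 * ω * w * ω + S.Q ^ 90 * S.g * ω + ω / S.Q) * w := by rw [Sd.θ', hw]; ring
    _ ≤ ω / 1000 * w + (2 * (ω / 1000) + 4 * (ω / 1000) + 1 / 1000 * 1 * ω + 1 / 1000 * ω +
        ω / 1000) * w := by gcongr <;> linarith
    _ ≤ _ := by nlinarith [mul_nonneg ω0 w0.le]

/-- the numbers which bound the activities at level zero -/
theorem kI_num {b0 : ℝ} (h1 : S.β / 4 ≤ b0) :
    6 * (2 * (2 * S.p.R + 4 : ℕ) + 1) ^ 4 * exp (5 * S.p.a + S.p.G0 + 5 * S.p.G2 -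
      (b0 * S.p.ε ^ 2 / (64 * (2 * S.p.R + 3) ^ 4) - 16 * (2 * S.p.R + 3) ^ 4 * S.p.lam ^ 2 / b0)) ≤
      S.g ^ 3 ∧ 2 * (2 * (2 * S.p.R + 4 : ℕ) + 1) ^ 4 * S.g ^ 3 ≤ 1 ∧ 0 ≤ S.p.a := by
  have hv := h.vol_R
  have g0 := h.ok.g0
  have β0 := h.ok.β0
  have q1 := h.ok.QQM
  have q2 := h.cQ' (C := 100) (by norm_num)
  have q3 : 0 < S.QM := by linarith
  have l0 := h.logQ_ge
  have a0 : 0 ≤ S.p.a := le_trans (by rw [p'_a]; linarith) h.a_ge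
  have a1 : S.p.a ≤ 4 * S.Q := h.a_le.trans (by linarith [Real.log_le_self S.Q0.le])
  obtain ⟨M, hM⟩ : ∃ M : ℝ, M = (2 * S.p.R + 3) ^ 4 := ⟨_, rfl⟩
  have M0 : 0 < M := by rw [hM]; positivity
  have M1 : M ≤ (4 * S.p.R + 9) ^ 4 := hM ▸ pow_le_pow_left₀ (by positivity)
    (by linarith [(Nat.cast_nonneg S.p.R : (0 : ℝ) ≤ _)]) 4
  have e : (2 * (2 * S.p.R + 4 : ℕ) + 1 : ℝ) = 4 * S.p.R + 9 := by push_cast; ring
  rw [← hM, e]
  refine ⟨?_, ?_, a0⟩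
  · have b1 : 30 * S.QM ^ 3 ≤ b0 * S.p.ε ^ 2 / (64 * M) := by
      rw [le_div_iff₀ (by positivity), p_ε]
      calc _ = S.QM ^ 3 / 4 * (7680 * M) := by ring
        _ ≤ S.QM ^ 3 / 4 * S.QM := by gcongr; linarith
        _ = S.β / 4 * (S.QM ^ 2 * S.g) ^ 2 := by linear_combination (-S.QM ^ 4 / 4) * h.ok.βg
        _ ≤ _ := by gcongr
    have b2 : 16 * M * S.p.lam ^ 2 / b0 ≤ S.QM := by
      rw [div_le_iff₀ (by linarith), p_lam, inv_pow, inv_eq_of_mul_eq_one_left h.ok.βg]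
      nlinarith
    have b3 : 2 * S.QM ≤ S.QM ^ 3 := by
      rw [pow_succ]
      exact mul_le_mul_of_nonneg_right (by nlinarith) q3.le
    rw [p_G0, p_G2]
    refine le_trans ?_ (h.exp_g (i := 1) h.r_le_Q (by norm_num) (by omega))
    rw [pow_one]
    exact mul_le_mul (by linarith) (Real.exp_le_exp.2 (by linarith)) (Real.exp_nonneg _) S.Q0.le
  · have b1 : S.g ^ 3 ≤ S.g := pow_le_of_le_one g0.le h.ok.g1 (by omega)
    have b2 := h.ok.Qg_le (i := 0) (j := 1) (by norm_num)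
    simp only [pow_one, pow_zero, one_mul] at b2
    exact (mul_le_mul (by linarith) b1 (by positivity) S.Q0.le).trans b2

end Sd.Nu

namespace En

namespace LF

variable {S : Sd} {v e b : ℝ} {ψ : Lx} {U : Conf} {x : St} (h : LF S v e)
include h

theorem qm : Qm S.L (3 * S.r) S.m := by
  obtain ⟨j, ⟨ρ, -, -, hc⟩, -⟩ := h.tr
  have := h.nu.crL (C := 3) (k := 1) (by norm_num) (by omega)
  exact ⟨hc.inv.symm, hc.inv.rng, hc.inv.gauge, hc.inv.psd, hc.inv.lower, h.bd,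
    by have := h.nu.r1; omega, by push_cast; linarith⟩

theorem pgw : Pg S.p (S.L ^ 3 * S.Pw ^ 16) := by
  have e : S.p.D = 20 * S.D0 := by rw [p_D, h.hM]; rfl
  have d1 : (1 : ℝ) ≤ S.D0 := by exact_mod_cast D1 _
  have l1 := one_le_mul_of_one_le_of_one_le (one_le_pow₀ (n := 3) (L1 S.toTd))
    (one_le_pow₀ (n := 16) (Nu.Pw1 (S := S)))
  have a := h.nu.mon (C := 41 ^ 4) (i := 387) (j := 36) (by norm_num)
    (by have := h.nu.exps; omega) (by norm_num)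
  have b : (2 * S.p.D + 1 : ℝ) ^ 4 ≤ 41 ^ 4 * (S.D0 : ℝ) ^ 4 := by
    rw [← mul_pow, e]; push_cast; gcongr; linarith
  refine { h.pg.1 with b0 := zero_le_one.trans l1, G2 := ?_ }
  rw [p_G2, h.QMe]
  calc _ ≤ (2 * (S.L ^ 3 * S.Pw ^ 16)) * (41 ^ 4 * (S.D0 : ℝ) ^ 4) := by gcongr; linarith
    _ = 2 * (41 ^ 4 * S.L ^ 387 * (S.D0 : ℝ) ^ 36) := by rw [Sd.Pw]; ring
    _ ≤ _ := by linarith

omit h in
theorem Φ_re (ψ : Lx) (x : St) (B : Fld) :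
    (S.Φ ψ x B).re = S.β * (cx S.m B B).re + (S.β * S.T B).re + (ψ x B).re := by
  simp [Sd.Φ, mul_add]

variable (pu : PU S.p b ψ) (hb : S.Q ^ 100 * b ≤ 1) (hx : Fq (S.p.R + 1) S.p.ε (sh x U))
include pu hb hx

theorem site_sm : |(S.β * S.T (Bx x (cC U))).re| ≤ (S.Q ^ 100)⁻¹ ∧
    |(ψ x (Bx x (cC U))).re| ≤ (S.Q ^ 100)⁻¹ := by
  obtain ⟨j, -, tc, -⟩ := h.tr
  have o := h.nu.ok
  have g0 := o.g0
  have q0 := S.Q0
  have pk := h.nu.p_ok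
  have ln := h.nu.lens
  have a := pu.2 x _ (Bx_real x U) (hx.cv' pk.1)
  have a1 := tc.bd _ _ ((hx.cv' pk.1).mono (by rw [p_R]; omega) le_rfl) (by linarith [pk.1.ρ0])
  have a2 : (S.M : ℝ) ^ S.Kt ≤ S.Q := by
    rw [h.hM]; exact h.nu.LQ (by have := h.nu.exps; omega)
  rw [inv_eq_one_div]
  refine ⟨(Complex.abs_re_le_norm _).trans ((le_div_iff₀' (by positivity)).2 ?_),
    (Complex.abs_re_le_norm _).trans (a.trans ((le_div_iff₀' (by positivity)).2 hb))⟩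
  rw [p_ρ, h.QMe] at a1
  rw [norm_mul, Complex.norm_real, norm_of_nonneg o.β0.le]
  calc _ ≤ S.Q ^ 100 * (S.β * (S.Q * (S.Q ^ 3 * S.g) ^ 3)) := by
        have := o.β0; gcongr; exact a1.trans (by gcongr)
    _ = S.β * S.g ^ 2 * (S.Q ^ 100 * (S.Q ^ 10 * S.g)) := by ring
    _ ≤ 1 := by rw [o.βg, one_mul]; exact o.Qg_le (by norm_num)

theorem site_low : 1 / S.g * fs U x - 10 ^ 7 ≤ (S.Φ ψ x (Bx x (cC U))).re := by
  obtain ⟨j, ⟨ρ, -, ρ3, hc⟩, -⟩ := h.tr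
  have o := h.nu.ok
  have g0 := o.g0
  have pk := h.nu.p_ok
  have a := pos1 (hc.pos0 ρ3) (U := sh x U) (fun y hy => hx y (box_mono (by omega) hy))
    (by nlinarith [pk.1.1, pk.1.2.1, pk.1.2.2, (Nat.cast_nonneg S.p.R : (0 : ℝ) ≤ _)])
  have a1 : S.β * (10 ^ 14 * S.p.ε ^ 4) ≤ 1 := by
    have := S.Q0
    rw [p_ε, h.QMe]
    calc _ = S.β * S.g ^ 2 * (10 ^ 14 * (S.Q ^ 8 * S.g) * S.g) := by ring
      _ ≤ 1 * (S.Q ^ 1 * (S.Q ^ 8 * S.g) * 1) := by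
        rw [o.βg, pow_one]; gcongr
        exacts [h.nu.cQ' (by norm_num), o.g1]
      _ ≤ 1 := by rw [one_mul, mul_one]; exact o.Qg_le (by norm_num)
  have a2 : S.β * fs (sh x U) 0 ^ 2 = (1 / S.g * fs U x) ^ 2 := by
    simp only [fs, Rb.fq_sh, zero_add]
    rw [show S.β = (1 / S.g) ^ 2 by field_simp; exact o.βg, mul_pow]
  have a3 := mul_le_mul_of_nonneg_left a o.β0.le
  rw [a2, ← sh_cC, ← Bx_eq] at a3
  have q := inv_le_one_of_one_le₀ (one_le_pow₀ (n := 100) S.Q1)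
  obtain ⟨a4, a5⟩ := h.site_sm pu hb hx
  rw [Φ_re]
  nlinarith [sq_nonneg (1 / S.g * fs U x - 144 * 48020), abs_le.1 a4, abs_le.1 a5]

omit pu hb in
theorem site_real (r : RealP S.p ψ) :
    S.Φ ψ x (Bx x (cC U)) = (S.Φ ψ x (Bx x (cC U))).re := by
  obtain ⟨j, -, -, tr⟩ := h.tr
  exact Complex.ext rfl (by simp [Sd.Φ, cx_im _ (Bx_real x U) (Bx_real x U), tr _ (Bx_real x U),
    r x _ (Bx_real x U) (hx.cv' h.nu.p_ok.1)])

omit pu hb hx in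
theorem site_fq (hU : ∀ x μ ν, fq U x μ ν ≤ S.Pw ^ 8 / √S.β) (x : St) :
    Fq (S.p.R + 1) S.p.ε (sh x U) := fun y _ μ ν => by
  rw [Rb.fq_sh, p_ε, h.QMe]
  refine (hU _ _ _).trans (mul_le_mul_of_nonneg_right (h.nu.Pw8.trans ?_) h.nu.ok.g0.le)
  exact le_self_pow₀ S.Q1 (by norm_num)

omit hx in
theorem site_bd (hU : ∀ x μ ν, fq U x μ ν ≤ S.Pw ^ 8 / √S.β) (x : St) :
    |(S.Φ ψ x (Bx x (cC U))).re| ≤ S.L ^ 3 * S.Pw ^ 16 := by
  have o := h.nu.ok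
  have g0 := o.g0
  have L0 := L0 S.toTd
  have p1 := Nu.Pw1 (S := S)
  have r1 := h.nu.r1'
  have l1 := h.nu.crL (C := 18) (k := 1) (by norm_num) (by omega)
  have l2 := h.nu.crL (C := 3888) (k := 2) (by norm_num) (by omega)
  have l3 := h.nu.cL' (C := 3) (by norm_num)
  have a := (Complex.abs_re_le_norm _).trans (cx_Bx_le h.bd (U := sh x U) (ε := S.Pw ^ 8 * S.g)
    (fun y _ μ ν => by rw [Rb.fq_sh]; exact hU _ _ _) (by
      push_cast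
      calc _ = 18 * (S.r : ℝ) ^ 1 * (S.Pw ^ 8 * S.g) := by ring
        _ ≤ S.Q ^ 1 * (S.Q ^ 1 * S.g) := by
          rw [pow_one S.Q]; gcongr
          exacts [S.Q0.le, l1.trans h.nu.L_le_Q, h.nu.Pw8]
        _ ≤ 1 := o.Qg_le (by norm_num)))
  obtain ⟨a4, a5⟩ := h.site_sm pu hb (h.site_fq hU x)
  have q := inv_le_one_of_one_le₀ (one_le_pow₀ (n := 100) S.Q1)
  have a3 := mul_le_mul_of_nonneg_left a o.β0.le
  rw [← sh_cC, ← Bx_eq, show S.β * (432 * S.L * ((3 * S.r : ℕ) : ℝ) ^ 2 * (S.Pw ^ 8 * S.g) ^ 2) =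
    S.β * S.g ^ 2 * (3888 * (S.r : ℝ) ^ 2 * (S.L * S.Pw ^ 16)) by push_cast; ring, o.βg] at a3
  rw [Φ_re]
  refine (abs_add_three ..).trans ?_
  rw [abs_mul, abs_of_pos o.β0]
  have c := one_le_mul_of_one_le_of_one_le (one_le_pow₀ (n := 2) (L1 S.toTd))
    (one_le_pow₀ (n := 16) p1)
  have c1 := mul_le_mul_of_nonneg_right l2 (show 0 ≤ S.L * S.Pw ^ 16 by positivity)
  have c2 := mul_le_mul_of_nonneg_right l3 (zero_le_one.trans c)
  nlinarith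

end LF

namespace Gl

/-- the smallest size of the twisted tori at level `k` -/
def Tk (G : Gl) (k : ℕ) : ℕ := 1000 * G.L k ^ G.K0

/-- the bound of the polynomial constants at level `k` -/
def Pk (G : Gl) (k : ℕ) : ℝ := (G.L k : ℝ) ^ 24 * ((G.L k ^ G.K0 : ℕ) : ℝ) ^ 2

variable {G : Gl} (h : G.Ok)
include h

theorem Ok.L_eq (k : ℕ) : G.L k = 3 ^ (G.e (k + 1) - G.e k) := LL_ll _ _

theorem Ok.Tk_mono : Monotone G.Tk := fun _ _ e =>
  Nat.mul_le_mul_left _ (Nat.pow_le_pow_left (h.L_mono e) _)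

theorem Ok.Tk_succ (k : ℕ) : G.Tk (k + 1) ≤ G.L k * G.Tk k := by
  have := (h.sd_all k (G.top0 0 0)).nu.MD_le'
  have a : G.L (k + 1) ^ G.K0 ≤ G.L k * G.L k ^ G.K0 := by
    change ((G.L (k + 1) : ℕ) : ℝ) ^ G.K0 ≤ (G.L k : ℝ) * ((G.L k ^ G.K0 : ℕ) : ℝ) at this
    exact_mod_cast this
  rw [Tk, Tk, mul_left_comm]
  exact Nat.mul_le_mul_left _ a

theorem Ok.tnum : Tnum G (fun k => G.L k) G.Pk G.Tk := by
  have top : Tendsto G.L atTop atTop :=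
    tendsto_atTop_mono (fun k => by unfold L l LL; omega) h.sch.top
  have one : ∀ k, 1000 ≤ G.Tk k := fun k => Nat.le_mul_of_pos_right _
    (Nat.pow_pos (by have := h.L_big k; omega))
  refine ⟨tendsto_natCast_atTop_atTop.comp top, fun k => ?_, fun k0 => ⟨G.e k0, fun s hs => ?_⟩⟩
  · have nu := (h.sl_all k (G.top0 0 0)).nu
    have k0 : 20 * (G.Kt + 1) ≤ G.K0 := nu.exps.2.2.1
    refine ⟨by linarith [h.L1 k], Nat.cast_le.2 ((Nat.le_self_pow (by omega) _).trans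
      (Nat.le_mul_of_pos_left _ (by norm_num))), Nu.L_Pw (S := G.sl k (G.top0 0 0))
      (by norm_num), nu.log_Pw, nu.Pw_β, nu.log_β.trans ?_⟩
    exact (pow_one _).ge.trans (Nu.L_Pw (S := G.sl k (G.top0 0 0)) (by norm_num))
  have ex : ∃ k, k0 ≤ k ∧ s ≤ G.e k ∧ G.Tk k ≤ 3 ^ (G.e k - s) := by
    obtain ⟨k, h1, h2⟩ := ((eventually_ge_atTop k0).and (top.eventually_ge_atTop (3 ^ s))).exists
    obtain ⟨n, -, a1, a2⟩ := h.sch.vol k
    have a3 : 3 ^ s * G.Tk k ≤ 3 ^ G.e k := a1 ▸ Nat.mul_le_mul h2 (h.D_le k a2)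
    have a4 : s ≤ G.e k := (Nat.pow_le_pow_iff_right (by norm_num)).1
      ((Nat.le_mul_of_pos_right _ (by have := one k; omega)).trans a3)
    refine ⟨k, h1, a4, Nat.le_of_mul_le_mul_left (c := 3 ^ s) ?_ (by positivity)⟩
    rwa [← pow_add, Nat.add_sub_cancel' a4]
  obtain ⟨b1, b2, b3⟩ := Nat.find_spec ex
  have mn := fun j => Nat.find_min ex (m := j)
  generalize Nat.find ex = k at *
  refine ⟨k, b1, b2, b3, ?_⟩
  obtain ⟨j, rfl, hj⟩ : ∃ j, k = j + 1 ∧ k0 ≤ j := by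
    refine ⟨k - 1, ?_⟩
    rcases b1.eq_or_lt with rfl | e
    · rw [Nat.sub_eq_zero_of_le hs] at b3
      have := one k0
      omega
    · omega
  have c1 : 3 ^ (G.e j - s) ≤ G.Tk j := by
    by_cases e : s ≤ G.e j
    · exact le_of_not_ge fun c => mn j j.lt_succ_self ⟨hj, e, c⟩
    · rw [Nat.sub_eq_zero_of_le (by omega)]
      have := one j
      omega
  have c2 : 3 ^ (G.e (j + 1) - s) ≤ G.L (j + 1) * G.Tk (j + 1) :=
    (Nat.pow_le_pow_right (by norm_num) (show _ ≤ G.e (j + 1) - G.e j + (G.e j - s) by omega)).trans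
      ((pow_add _ _ _).trans_le (Nat.mul_le_mul (h.L_eq j ▸ h.L_mono j.le_succ)
        (c1.trans (h.Tk_mono j.le_succ))))
  have c3 := h.L1 (j + 1)
  calc _ ≤ ((G.L (j + 1) * G.Tk (j + 1) : ℕ) : ℝ) ^ 2 * (G.L (j + 1) : ℝ) ^ 20 := by gcongr
    _ = 1000 ^ 2 * ((G.L (j + 1) : ℝ) ^ 22 * ((G.L (j + 1) ^ G.K0 : ℕ) : ℝ) ^ 2) := by
      rw [Tk]; push_cast; ring
    _ ≤ (G.L (j + 1) : ℝ) ^ 2 * ((G.L (j + 1) : ℝ) ^ 22 * ((G.L (j + 1) ^ G.K0 : ℕ) : ℝ) ^ 2) := by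
      gcongr
    _ = _ := by rw [Pk]; ring

end Gl

end En

end Pool.Agent.Lib.MP_7f377f_mp.RG.Q4
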