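import Pool.Agent.Lib.MP_7f377f_mp.G.TwLin
import Pool.Agent.Lib.MP_7f377f_mp.G.TwDef
import Pool.Agent.Lib.MP_7f377f_mp.G.GAng

/-! Distances in the group, the adjoint matrices, and the statement of rigidity. -/

noncomputable section

set_option linter.unusedSectionVars false
variable [Pool.Agent.Lib.MP_7f377f_mp.GD]

namespace Pool.Agent.Lib.MP_7f377f_mp.RG.Lp

open Finset Matrix Q4 Ms

/-- distance to the identity -/
def nq (g : S3) : ℝ := ‖g.q - 1‖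

theorem nq_nonneg (g : S3) : 0 ≤ nq g := norm_nonneg _
theorem nq_mul (g h : S3) : nq (g * h) ≤ nq g + nq h := S3.norm_mul_sub g h
theorem nq_inv (g : S3) : nq g⁻¹ = nq g := S3.norm_inv_sub g
theorem nq_conj (u g : S3) : nq (u * g * u⁻¹) = nq g := S3.norm_conj_sub u g
theorem nq_le (g : S3) : nq g ≤ cG := S3.diam g
@[simp] theorem nq_one : nq 1 = 0 := by simp [nq, S3.q_one]
theorem nq_eq {g : S3} (h : nq g ≤ 0) : g = 1 :=
  q_inj ((sub_eq_zero.1 (norm_le_zero_iff.1 h)).trans q_one.symm)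
theorem cont_nq : Continuous nq := (cont_q.sub continuous_const).norm

/-- real coordinates of a group element -/
def cr (g : S3) : Fin GD.d → ℝ := fun k => coR (cS g) k

/-- the group element with given coordinates -/
def ee (a : Fin GD.d → ℝ) : S3 := e0 (WithLp.toLp 2 a)

theorem cR_inj {u v : Fin GD.d → ℝ} (h : Af.cR u = Af.cR v) : u = v :=
  funext fun k => Complex.ofReal_injective (congrFun h k)

theorem cR_Rm (g : S3) (v : Fin GD.d → ℝ) : Af.cR (Rm g *ᵥ v) = adq (cS g) (Af.cR v) :=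
  funext (Rm_mulVec g v)

theorem cR_cr (g : S3) : Af.cR (cr g) = co (cS g) := (cE_coR g).trans (ch_cS g)

theorem cR_sq (v : Fin GD.d → ℝ) : v ⬝ᵥ v = ‖Af.cR v‖ ^ 2 := by
  rw [sq_C3]
  simp [Af.cR, dotProduct, sq]

theorem cR_sub (u v : Fin GD.d → ℝ) : Af.cR (u - v) = Af.cR u - Af.cR v :=
  funext fun _ => Complex.ofReal_sub _ _

theorem lp_sq (a : Fin GD.d → ℝ) : ‖(WithLp.toLp 2 a : E3)‖ ^ 2 = a ⬝ᵥ a := by
  rw [cR_sq, ← norm_cE']
  rfl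

theorem Rm_one : Rm 1 = 1 := toLin'.injective (LinearMap.ext fun v => cR_inj (by
  simp only [toLin'_apply, cR_Rm, cS_one, adq_one, one_mulVec]))

theorem Rm_mul (g h : S3) : Rm (g * h) = Rm g * Rm h :=
  toLin'.injective (LinearMap.ext fun v => cR_inj (by
    simp only [toLin'_apply, ← mulVec_mulVec, cR_Rm, cS_mul, adq_mul (uni_cS h)]))

theorem Rm_inv (g : S3) : Rm g⁻¹ = (Rm g)ᵀ := by
  ext k j
  have e : GD.rho (g⁻¹ : S3) = (GD.rho g)ᵀ := GD.rho_inv g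
  rw [transpose_apply, Rm_apply, Rm_apply, e, ← trace_transpose]
  simp only [transpose_mul, transpose_transpose, mul_assoc]
  rw [trace_mul_comm]
  simp only [mul_assoc]

theorem cr_sq (g : S3) : cr g ⬝ᵥ cr g ≤ nq g ^ 2 :=
  (lp_sq _).symm.trans_le (pow_le_pow_left₀ (norm_nonneg _) (coR_le g) 2)

theorem cr_conj (u g : S3) : cr (u * g * u⁻¹) = Rm u *ᵥ cr g := cR_inj (by
  rw [cR_Rm, cR_cr, cR_cr, cS_mul, cS_mul, cS_inv, co_conj (uni_cS u)])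

theorem cr_inv (g : S3) : cr g⁻¹ = -cr g := cR_inj (by
  rw [← zero_sub, cR_sub, cR_cr, cR_cr, cS_inv, co_star]
  exact (zero_sub _).symm)

theorem cr_mul (g h : S3) : (cr (g * h) - cr g - cr h) ⬝ᵥ (cr (g * h) - cr g - cr h) ≤
    (nq g * nq h) ^ 2 := by
  rw [cR_sq, cR_sub, cR_sub, cR_cr, cR_cr, cR_cr, cS_mul, show co (cS g * cS h) - co (cS g) -
    co (cS h) = co ((cS g - 1) * (cS h - 1)) by
      simp only [mul_sub, sub_mul, co_sub, mul_one, one_mul, co_one]; abel,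
    nq, nq, ← norm_cS_sub, ← norm_cS_sub]
  exact pow_le_pow_left₀ (norm_nonneg _) ((norm_co _).trans (norm_mul_le _ _)) 2

theorem ee_conj (u : S3) (a : Fin GD.d → ℝ) : ee (Rm u *ᵥ a) = u * ee a * u⁻¹ := RG.cS_inj (by
  rw [cS_mul, cS_mul, cS_inv, ee, ee, cS_e0, cS_e0, ← ex_adq (uni_cS u)]
  exact congrArg ex (cR_Rm u a))

theorem cr_ee {a : Fin GD.d → ℝ} (h : a ⬝ᵥ a ≤ 4) : cr (ee a) = a := funext fun k =>
  congrArg (· k) (coR_e0 (v := WithLp.toLp 2 a)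
    (abs_le_of_sq_le_sq' (by rw [lp_sq]; linarith) zero_le_two).2)

theorem ee_cr {g : S3} (h : nq g ≤ 2) : ee (cr g) = g := e0_coR h

theorem nq_ee {a : Fin GD.d → ℝ} {r : ℝ} (r0 : 0 ≤ r) (r2 : r ≤ 2) (h : a ⬝ᵥ a ≤ r ^ 2) :
    nq (ee a) ≤ 2 * r := by
  have := (abs_le_of_sq_le_sq' ((lp_sq a).trans_le h) r0).2
  exact (e0_near (this.trans r2)).trans (by linarith)

theorem Rm_cen (z : Zc) : Rm z = 1 := by
  ext k j
  have h : cr (ee (Pi.single j 1)) = _ := cr_ee (by simp)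
  have := cr_conj z (ee (Pi.single j 1))
  rw [← Subgroup.mem_center_iff.1 z.2, mul_inv_cancel_right, h] at this
  simpa [one_apply, Pi.single_apply] using (congrFun this k).symm

/-- quantitative rigidity of the pair `P, Q` -/
structure Rig (z : Zc) (P Q : S3) (C : ℝ) : Prop where
  one : 1 ≤ C
  r1 : ∀ P' Q' : S3, ∃ g, nq (g * P' * g⁻¹ * P⁻¹) ≤ C * nq (Q' * P' * (z * (P' * Q'))⁻¹) ∧
    nq (g * Q' * g⁻¹ * Q⁻¹) ≤ C * nq (Q' * P' * (z * (P' * Q'))⁻¹)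
  r2 : ∀ g : S3, ∃ c : Zc, nq (g * (c : S3)⁻¹) ≤ C * (nq (g * P * g⁻¹ * P⁻¹) + nq (g * Q * g⁻¹ * Q⁻¹))
  r3 : ∀ c : Zc, C * nq c < 1 → c = 1
  r4 : ∀ v : Fin GD.d → ℝ, v ⬝ᵥ v ≤ C * (((Rm P - 1) *ᵥ v) ⬝ᵥ ((Rm P - 1) *ᵥ v) +
    ((Rm Q - 1) *ᵥ v) ⬝ᵥ ((Rm Q - 1) *ᵥ v))

end Pool.Agent.Lib.MP_7f377f_mp.RG.Lp
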