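import Pool.Agent.Lib.MP_7f377f_mp.G.TwRig

/-! Rigidity of the centraliser. -/

noncomputable section

set_option linter.unusedSectionVars false
variable [Pool.Agent.Lib.MP_7f377f_mp.GD]

namespace Pool.Agent.Lib.MP_7f377f_mp.RG.Lp

open Finset Matrix Q4 Ms

variable [Fintype Zc] {z : Zc} {P Q : S3}

theorem rig3 : ∃ C ≥ (1 : ℝ), ∀ c : Zc, C * nq c < 1 → c = 1 := by
  have p : ∀ c : Zc, 0 ≤ (nq c)⁻¹ := fun c => inv_nonneg.2 (nq_nonneg _)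
  refine ⟨1 + ∑ c : Zc, (nq c)⁻¹, le_add_of_nonneg_right (sum_nonneg fun c _ => p c),
    fun c hc => Subtype.ext (nq_eq (not_lt.1 fun h => ?_))⟩
  have := mul_le_mul_of_nonneg_right (single_le_sum (fun c _ => p c) (mem_univ c)) h.le
  rw [inv_mul_cancel₀ h.ne'] at this
  linarith

theorem Iso.ker (h : Iso z P Q) {v : Fin GD.d → ℝ} (h1 : Rm P *ᵥ v = v) (h2 : Rm Q *ᵥ v = v) :
    v = 0 := by
  obtain ⟨C, c1, hC⟩ := rig3
  obtain ⟨s, s0, hs⟩ : ∃ s > (0 : ℝ), (s • v) ⬝ᵥ (s • v) ≤ (4 * C)⁻¹ ^ 2 := by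
    have := dot0 v
    refine ⟨(4 * C)⁻¹ / (1 + v ⬝ᵥ v), by positivity, ?_⟩
    rw [smul_dotProduct, dotProduct_smul, smul_eq_mul, smul_eq_mul, ← mul_assoc, ← sq, div_pow,
      div_mul_eq_mul_div, div_le_iff₀ (by positivity)]
    gcongr
    nlinarith
  have r1 : (4 * C)⁻¹ ≤ 1 := inv_le_one_of_one_le₀ (by linarith)
  have r0 : 0 < (4 * C)⁻¹ := by positivity
  have e : ∀ {u}, Rm u *ᵥ v = v → ee (s • v) * u = u * ee (s • v) := fun {u} hu => by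
    have := ee_conj u (s • v)
    rw [mulVec_smul, hu] at this
    exact eq_mul_inv_iff_mul_eq.1 this
  have := congrArg (fun c : Zc => cr c) (hC ⟨_, h.cen _ (e h1) (e h2)⟩ ((mul_le_mul_of_nonneg_left
    (nq_ee r0.le (by linarith) hs) (by linarith)).trans_lt (by field_simp; norm_num)))
  simp only [cr_ee (hs.trans (by nlinarith)), OneMemClass.coe_one] at this
  rw [dotProduct_self_eq_zero.1 (le_antisymm ((cr_sq 1).trans_eq (by simp)) (dot0 _))] at this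
  exact (smul_eq_zero.1 this).resolve_left s0.ne'

theorem rig4 (h : Iso z P Q) : ∃ C ≥ (1 : ℝ), ∀ v : Fin GD.d → ℝ, v ⬝ᵥ v ≤
    C * (((Rm P - 1) *ᵥ v) ⬝ᵥ ((Rm P - 1) *ᵥ v) + ((Rm Q - 1) *ᵥ v) ⬝ᵥ ((Rm Q - 1) *ᵥ v)) := by
  obtain ⟨K, -, hK⟩ := ((toLpLin 2 2 (Rm P - 1)).prod
    (toLpLin 2 2 (Rm Q - 1))).exists_antilipschitzWith (LinearMap.ker_eq_bot'.2 fun v hv => by
      have h1 := congrArg (·.1.ofLp) hv
      have h2 := congrArg (·.2.ofLp) hv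
      simp [sub_mulVec, sub_eq_zero] at h1 h2
      exact WithLp.ofLp_injective 2 (Iso.ker h h1 h2))
  refine ⟨1 + K ^ 2, by simp, fun v => ?_⟩
  have := pow_le_pow_left₀ (norm_nonneg _) (hK.le_mul_norm (map_zero _) (WithLp.toLp 2 v)) 2
  have e : ∀ a b : E3, ‖(a, b)‖ ^ 2 ≤ ‖a‖ ^ 2 + ‖b‖ ^ 2 := fun a b => by
    rw [Prod.norm_mk]
    rcases max_cases ‖a‖ ‖b‖ with e | e <;> rw [e.1] <;> simp
  rw [mul_pow, lp_sq] at this
  rw [← lp_sq (_ *ᵥ _), ← lp_sq (_ *ᵥ _)]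
  exact this.trans (mul_le_mul (by simp) (e _ _) (sq_nonneg _) (by positivity))

theorem cr_com (g u : S3) :
    ‖(WithLp.toLp 2 ((Rm u - 1) *ᵥ cr g) : E3)‖ ≤ nq (g * u * g⁻¹ * u⁻¹) + nq g ^ 2 := by
  have a := cr_mul g (u * g⁻¹ * u⁻¹)
  have b := cr_sq (g * u * g⁻¹ * u⁻¹)
  rw [← lp_sq] at b
  rw [nq_conj, nq_inv, cr_conj, cr_inv, ← lp_sq, ← mul_assoc, ← mul_assoc, ← sq (nq g)] at a
  rw [show (Rm u - 1) *ᵥ cr g = (cr (g * u * g⁻¹ * u⁻¹) - cr g - Rm u *ᵥ -cr g) -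
    cr (g * u * g⁻¹ * u⁻¹) by rw [sub_mulVec, one_mulVec, mulVec_neg]; abel, WithLp.toLp_sub,
    add_comm]
  exact norm_sub_le_of_le (abs_le_of_sq_le_sq' a (sq_nonneg _)).2
    (abs_le_of_sq_le_sq' b (nq_nonneg _)).2

theorem near_num {C r v p q d e : ℝ} (c1 : 1 ≤ C) (r0 : 0 ≤ r) (p0 : 0 ≤ p) (q0 : 0 ≤ q)
    (h : 8 * C * r ≤ 1) (a : v ^ 2 ≤ C * (p ^ 2 + q ^ 2)) (hp : p ≤ d + r ^ 2) (hq : q ≤ e + r ^ 2)
    (hr : r ≤ 2 * v) : r ≤ 4 * C * (d + e) := by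
  have : v ≤ C * (p + q) := (abs_le_of_sq_le_sq' (a.trans (by
    rw [mul_pow]
    exact mul_le_mul (by nlinarith) (by nlinarith) (by positivity) (sq_nonneg _)))
    (by positivity)).2
  nlinarith [mul_le_mul_of_nonneg_right h r0,
    mul_le_mul_of_nonneg_left (add_le_add hp hq) (by linarith : 0 ≤ C)]

theorem rig2 (h : Iso z P Q) : ∃ C ≥ (1 : ℝ), ∀ g : S3, ∃ c : Zc,
    nq (g * (c : S3)⁻¹) ≤ C * (nq (g * P * g⁻¹ * P⁻¹) + nq (g * Q * g⁻¹ * Q⁻¹)) := by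
  obtain ⟨C, c1, hC⟩ := rig4 h
  obtain ⟨D, hD⟩ : ∃ D : S3 → ℝ, ∀ g, D g = nq (g * P * g⁻¹ * P⁻¹) + nq (g * Q * g⁻¹ * Q⁻¹) :=
    ⟨_, fun _ => rfl⟩
  have D0 : ∀ g, 0 ≤ D g := fun g => hD g ▸ add_nonneg (nq_nonneg _) (nq_nonneg _)
  have near : ∀ g, 8 * C * nq g ≤ 1 → nq g ≤ 4 * C * D g := fun g hg => by
    have g0 := nq_nonneg g
    have a := hC (cr g)
    have p := cr_com g P
    have q := cr_com g Q
    have e := nq_ee (a := cr g) (norm_nonneg (WithLp.toLp 2 (cr g) : E3))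
      ((coR_le g).trans (by change nq g ≤ 2; nlinarith)) (lp_sq _).ge
    rw [ee_cr (by nlinarith)] at e
    simp only [← lp_sq] at a
    rw [hD]
    exact near_num c1 g0 (norm_nonneg _) (norm_nonneg _) hg a p q e
  have cD : Continuous D := by
    rw [funext hD]
    exact (cont_nq.comp (by fun_prop)).add (cont_nq.comp (by fun_prop))
  obtain ⟨d, d0, hd⟩ := (isClosed_iInter fun c : Zc => isClosed_le (f := fun _ => (1 : ℝ))
    (g := fun g : S3 => 8 * C * nq (g * (c : S3)⁻¹)) continuous_const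
      ((cont_nq.comp (by fun_prop)).const_mul _)).isCompact.exists_forall_le' cD.continuousOn
    (a := 0) fun g hg => (D0 g).lt_of_ne fun e => by
      have p0 := nq_nonneg (g * P * g⁻¹ * P⁻¹)
      have q0 := nq_nonneg (g * Q * g⁻¹ * Q⁻¹)
      have k : ∀ {u}, nq (g * u * g⁻¹ * u⁻¹) ≤ 0 → g * u = u * g := fun e =>
        mul_inv_eq_iff_eq_mul.1 (mul_inv_eq_one.1 (nq_eq e))
      have := Set.mem_iInter.1 hg ⟨g, h.cen g (k (by linarith [hD g])) (k (by linarith [hD g]))⟩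
      norm_num at this
  have G0 := div_pos GD.cG_pos d0
  refine ⟨4 * C + cG / d, by linarith, fun g => ?_⟩
  rw [← hD, add_mul]
  by_cases e : ∀ c : Zc, 1 ≤ 8 * C * nq (g * (c : S3)⁻¹)
  · have := mul_le_mul_of_nonneg_left (hd g (Set.mem_iInter.2 e)) G0.le
    rw [div_mul_cancel₀ _ d0.ne'] at this
    exact ⟨1, ((nq_le _).trans this).trans
      (le_add_of_nonneg_left (mul_nonneg (by linarith) (D0 g)))⟩
  · obtain ⟨c, hc⟩ := not_forall.1 e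
    have k : ∀ u : S3, g * (c : S3)⁻¹ * u * (g * (c : S3)⁻¹)⁻¹ = g * u * g⁻¹ := fun u => by
      rw [mul_assoc g, ← Subgroup.mem_center_iff.1 (inv_mem c.2)]
      group
    have := near _ (not_le.1 hc).le
    rw [hD, k, k, ← hD] at this
    exact ⟨c, this.trans (le_add_of_nonneg_right (mul_nonneg G0.le (D0 g)))⟩

end Pool.Agent.Lib.MP_7f377f_mp.RG.Lp
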