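import Pool.Agent.Lib.MP_7f377f_mp.G.TwTorA
import Pool.Agent.Lib.MP_7f377f_mp.G.TqIni

/-! One step on a twisted torus and on a cubic torus agree near the origin. -/

noncomputable section

set_option linter.unusedSectionVars false
variable [Pool.Agent.Lib.MP_7f377f_mp.GD]

namespace Pool.Agent.Lib.MP_7f377f_mp.RG.Q4

open Finset MeasureTheory Filter
open scoped Classical Pointwise

attribute [local irreducible] box lbox tb tau rc rcT domT

theorem Sd.Nu.tor' {S : Sd} {a : ℕ} (h : S.Nu a) {n : ℕ} (hn : Odd n) (hl : 1000 * S.D0 ≤ n) :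
    (S.tor n).Nu a :=
  ⟨⟨h.ok.c1, h.ok.size, hn, hl, h.ok.low, h.ok.le, h.ok.two, h.ok.upp⟩, h.Kt_ge, h.K0_ge, h.K_ge,
    h.r_ge, h.r_le, h.ex, h.cg⟩

theorem ev_tor' {c : ℕ} {P : Sd → Prop} (h : ∀ᶠ S in ev c, P S) :
    ∀ᶠ S in ev c, ∀ n, Odd n → 1000 * S.D0 ≤ n → P (S.tor n) := by
  have a : ∀ᶠ S in ev0 c, ∀ n, Odd n → 1000 * S.D0 ≤ n → S.TOk → P (S.tor n) :=
    (eventually_inf_principal.1 h).imp fun _ h Kt h0 => (h Kt h0).imp fun _ h K0 h1 =>
      (h K0 h1).imp fun _ h K h2 B => (h K h2 B).imp fun _ h S o e0 e1 e2 e3 e4 e5 n hn hl =>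
        h (S.tor n) ⟨o.c1, o.size, hn, hl, o.low, o.le, o.two, o.upp⟩ e0 e1 e2 e3 e4 e5
  exact eventually_inf_principal.2 (a.mono fun _ h ht n hn hl => h n hn hl ht)

namespace Tor

variable [Tws]

section geo

variable {n n' l R D : ℕ} {x y : St} {X : Finset St}

theorem box_domT (h : R ≤ n / 2) : box R ⊆ domT n := fun _ hx => box_sub_domT n (box_mono h hx)

theorem rcT_box (hn : Odd n) (h : R ≤ n / 2) (hx : x ∈ box R) : rcT n x = x :=
  rcT_id hn (box_domT h hx)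

theorem img_two (hn : Odd n) (hn' : Odd n') (h : R ≤ n / 2) (h' : R ≤ n' / 2) {α : Type}
    {A : Finset α} {f : α → St} (hA : ∀ a ∈ A, f a ∈ box R) :
    (A.image fun a => rcT n (f a)) = A.image fun a => rc n' (f a) :=
  image_congr fun a ha => (rcT_box hn h (hA a ha)).trans (rc_box hn' h' (hA a ha)).symm

theorem tb_two (hn : Odd n) (hn' : Odd n') (h : R + D ≤ n / 2) (h' : R + D ≤ n' / 2)
    (hX : X ⊆ box R) : tb_t n D X = tb n' D X := by
  unfold tb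
  exact img_two hn hn' h h' (f := id) fun a ha => by
    obtain ⟨x, hx, b, hb, rfl⟩ := mem_add.1 ha
    exact add_mem_box (hX hx) hb

theorem dn_two (hn : Odd n) (hn' : Odd n') (h : R ≤ n / 2) (h' : R ≤ n' / 2)
    (hX : X ⊆ box (fb l R)) : dn_t l n X = dn l n' X :=
  img_two hn hn' h h' fun _ ha => Op.mem_fb.1 (hX ha)

theorem dn_subT (hn : Odd n) (hX : X ⊆ domT (LL l * n)) (h : dn_t l n X ⊆ box R) :
    X ⊆ box (fb l R) := fun x hx => Op.mem_fb.2 (by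
  rw [← rcT_id hn ((mem_fineT hn).1 (hX hx))]
  exact h (mem_image_of_mem _ hx))

theorem sub_tbT (hn : Odd n) (hX : X ⊆ domT n) : X ⊆ tb_t n D X := fun x hx =>
  mem_image.2 ⟨x, mem_add.2 ⟨x, hx, 0, zero_mem_box _, add_zero x⟩, rcT_id hn (hX hx)⟩

theorem tau_oneT : tau_t n D X = 1 ↔ ∃ p, ∀ x ∈ X, ∃ v, x - p - pv (sd n) v ∈ box D := by
  constructor
  · intro h
    have : Tour_t n D X (tau_t n D X) := Nat.sInf_mem (s := {k | Tour_t n D X k})
      (Nat.nonempty_of_pos_sInf (h ▸ one_pos : 0 < tau_t n D X))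
    rw [h] at this
    obtain ⟨-, p, -, -, h3⟩ := this
    refine ⟨p 0, fun x hx => ?_⟩
    obtain ⟨i, hi, h4⟩ := h3 x hx
    rwa [show i = 0 by omega] at h4
  · rintro ⟨p, h⟩
    have a : Tour_t n D X 1 := ⟨one_pos, fun _ => p, rfl, fun _ _ => ⟨0, mem_box.2 fun i => by
      simp [pv]⟩, fun x hx => ⟨0, one_pos, h x hx⟩⟩
    exact le_antisymm (Nat.sInf_le a) (Nat.sInf_mem (s := {k | Tour_t n D X k}) ⟨1, a⟩).1

/-- two points of a small set -/
theorem tau_diamT (h1 : tau_t n D X = 1) (hx : x ∈ X) (hy : y ∈ X) :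
    ∃ v, y - x - pv (sd n) v ∈ box (D + D) := by
  obtain ⟨p, hp⟩ := tau_oneT.1 h1
  obtain ⟨v, a⟩ := hp x hx
  obtain ⟨w, b⟩ := hp y hy
  refine ⟨w - v, mem_box.2 fun i => ?_⟩
  have a1 := mem_box.1 a i
  have b1 := mem_box.1 b i
  simp only [pv, Pi.sub_apply, mul_sub] at *
  omega

theorem tau_two (h : 2 * (R + D) < n) (h' : 2 * (R + D) < n') (hX : X ⊆ box R) :
    tau_t n D X = 1 ↔ tau n' D X = 1 := by
  refine ⟨fun h1 => ?_, fun h1 => ?_⟩
  · obtain ⟨p, hp⟩ := tau_oneT.1 h1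
    rcases X.eq_empty_or_nonempty with rfl | ⟨x0, h0⟩
    · exact tau_one.2 ⟨0, by simp⟩
    obtain ⟨v0, a⟩ := hp x0 h0
    refine tau_one.2 ⟨p + pv (sd n) v0, fun x hx => nearT_of_box (mem_box.2 fun i => ?_)⟩
    obtain ⟨v, b⟩ := hp x hx
    have a1 := mem_box.1 a i
    have b1 := mem_box.1 b i
    have c1 := mem_box.1 (hX hx) i
    have c2 := mem_box.1 (hX h0) i
    have c3 : (2 * (R + D) : ℤ) < sd n i := by exact_mod_cast h.trans_le (le_sd n i)
    simp only [pv, Pi.sub_apply, Pi.add_apply] at *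
    have e : v i = v0 i := by
      rcases lt_trichotomy (v i) (v0 i) with g | g | g
      · nlinarith
      · exact g
      · nlinarith
    rw [e] at b1
    omega
  · obtain ⟨p, hp⟩ := tau_one.1 (tau_tor h' hX h1 0)
    refine tau_oneT.2 ⟨p, fun x hx => ⟨0, ?_⟩⟩
    obtain ⟨v, hv⟩ := hp x hx
    rw [show pv (sd n) 0 = 0 from funext fun i => mul_zero _]
    simpa using hv

end geo

variable {S : Sd} {n' R : ℕ} {ψ ψ' : Lx} {K K' : Ac} {W W' : Conf} {ω : VB} {O : Finset Ob}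
  {X Y : Finset St} {y : St} {o : Ob} {k : Mj} {P : ℝ}

theorem X1_subT (u : S.Nu 0) (hX : X ∈ S.X1s_t) : X ⊆ box (fb S.l S.D0) := fun x hx => by
  obtain ⟨h0, h1, h2⟩ := mem_filter.1 hX
  have h0 := mem_powerset.1 h0
  obtain ⟨x0, h3, h4⟩ := mem_image.1 h2
  have l := u.lens
  rw [rcT_id u.ok.odd ((mem_fineT u.ok.odd).1 (h0 h3))] at h4
  have h7 : x0 ∈ box (fb S.l 0) := Op.mem_fb.2 (h4 ▸ zero_mem_box 0)
  obtain ⟨v, hv⟩ := tau_diamT h1 h3 hx
  have h9 : x0 + (x - x0 - pv (sd S.nf) v) ∈ box (fb S.l S.D0) := box_mono (by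
    rw [Sd.p_D, fb, fb, mul_comm S.D0]
    omega) (add_mem_box h7 hv)
  have e := rcT_add (n := S.nf) (x0 + (x - x0 - pv (sd S.nf) v)) v
  rw [show x0 + (x - x0 - pv (sd S.nf) v) + pv (sd S.nf) v = x by abel, rcT_id u.ok.odd_nf (h0 hx),
    rcT_box u.ok.odd_nf (by have := Sd.X1_big u; omega) h9] at e
  rwa [e]

theorem bs_spT (hn : Odd S.n) (ho : o ∈ S.obs_t) : S.bs_t o ⊆ S.sp_t o := by
  refine sub_tbT hn ?_
  have a : ∀ X, dn_t S.l S.n X ⊆ domT S.n := fun X => image_subset_iff.2 fun _ _ => rcT_mem hn _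
  rcases o with (o | y | y) | y | q | q | Z <;>
    simp only [Sd.obs_t, Sd.mks_t, Sd.Λ'_t, inl_mem_disjSum, inr_mem_disjSum, mem_product,
      mem_erase, mem_powerset] at ho <;>
    simp only [Sd.bs_t, a, singleton_subset_iff, insert_subset_iff, ho, rcT_mem hn, and_self]

/-- objects which live in the box of radius `R` -/
def Lv (S : Sd) (R : ℕ) : Ob → Prop
  | .inl (.inl o) => o ∈ lps (box (fb S.l R))
  | .inl (.inr (.inl y)) => y ∈ box R
  | .inl (.inr (.inr y)) => y ∈ box R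
  | .inr (.inl y) => y ∈ box R
  | .inr (.inr (.inl q)) => q.1 ∈ box R ∧ q.2 ∈ S.prs
  | .inr (.inr (.inr (.inl q))) => q.1 ∈ box R ∧ q.2 ∈ S.X1s
  | .inr (.inr (.inr (.inr Z))) => Z ≠ ∅ ∧ Z ⊆ box R

namespace Tw

variable (h : Tw S n' R)
include h

omit [Tws] in
theorem lv (ho : o ∈ S.obs) (a : S.bs o ⊆ box R) : Lv S R o := by
  have ho' := ho
  rcases o with (o | y | y) | y | q | q | Z <;>
    simp only [Sd.obs, Sd.mks, Sd.Λ', inl_mem_disjSum, inr_mem_disjSum, mem_product, mem_erase,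
      mem_powerset] at ho
  exacts [h.old ho a, a (mem_singleton_self _), a (mem_singleton_self _), a (mem_singleton_self _),
    ⟨a (mem_insert_self _ _), ho.2⟩, h.smk ho' a, ⟨ho.1, a⟩]

omit [Tws] in
theorem X1s' (hX : X ∈ (S.tor n').X1s) : X ⊆ box (fb S.l S.D0) := Sd.X1_sub (S := S.tor n') h.u' hX

omit [Tws] in
theorem X1u' (hX : X ∈ (S.tor n').X1s) (hy : y ∈ box R) {x : St} (hx : x ∈ X) :
    x + up S.l y ∈ box (fb S.l (S.D0 + R)) := h.symm.X1_up hX hy hx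

theorem tbT {D : ℕ} (hD : D ≤ 20 * S.D0) (hX : X ⊆ box R) : tb_t S.n D X = RG.Q4.tb n' D X :=
  tb_two h.odd h.odd' (by have := h.big; omega) (by have := h.big'; omega) hX

theorem dnT {a : ℕ} (ha : a ≤ R + 20 * S.D0) (hX : X ⊆ box (fb S.l a)) :
    dn_t S.l S.n X = RG.Q4.dn S.l n' X :=
  dn_two h.odd h.odd' (by have := h.big; omega) (by have := h.big'; omega) hX

theorem X1T : S.X1s_t = (S.tor n').X1s := by
  have l := h.u.lens
  have b := Nat.mul_le_mul_left (LL S.l) h.u.ok.vol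
  have b' := Nat.mul_le_mul_left (LL S.l) h.u'.ok.vol
  have d := Nat.mul_le_mul_left (LL S.l) (Sd.D1 S.toTd)
  have t : ∀ {X}, X ⊆ box (fb S.l S.D0) →
      (tau_t S.nf S.p.D X = 1 ↔ tau (S.tor n').nf S.p.D X = 1) := fun a => by
    change LL S.l * (1000 * S.D0) ≤ LL S.l * n' at b'
    rw [mul_left_comm] at b b'
    refine tau_two ?_ ?_ a
    all_goals
      first | change _ < LL S.l * S.n | change _ < LL S.l * n'
      rw [Sd.p_D, fb, mul_comm S.D0]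
      generalize LL S.l * S.D0 = x at *
      unfold LL at *
      omega
  ext X
  refine ⟨fun hX => ?_, fun hX => ?_⟩
  · have a := X1_subT h.u hX
    exact mem_filter.2 ⟨mem_powerset.2 fun x hx => box_mono (Nat.le_of_succ_le (Sd.X1_big h.u'))
      (a hx), (t a).1 (mem_filter.1 hX).2.1, h.dnT (a := S.D0) (by omega) a ▸ (mem_filter.1 hX).2.2⟩
  · have a := h.X1s' hX
    exact mem_filter.2 ⟨mem_powerset.2 (a.trans (box_domT (Nat.le_of_succ_le (Sd.X1_big h.u)))),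
      (t a).2 (mem_filter.1 hX).2.1, (h.dnT (by omega) a).symm ▸ (mem_filter.1 hX).2.2⟩

theorem FsT (hX : X ∈ (S.tor n').X1s) (K : Ac) : S.Fs_t K X = (S.tor n').Fs K X := funext fun B =>
  congrArg (fun Z : Finset St => ctr S.p'.R S.p'.ρ (S.Fsr K X) B / Z.card)
    (h.dnT (by omega) (h.X1s' hX))

theorem PlT (ψ : Lx) (K : Ac) : S.Pl_t ψ K = (S.tor n').Pl ψ K := funext fun B => by
  rw [Sd.Pl_t, Sd.Pl, h.X1T, sum_congr rfl fun X hX => by rw [h.FsT hX]]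
  rfl

theorem cXT (ψ : Lx) (K : Ac) : S.cX_t ψ K = (S.tor n').cX ψ K := by
  rw [Sd.cX_t, Sd.cX, h.X1T, sum_congr rfl fun X hX => by rw [h.FsT hX]]
  rfl

theorem trST (hX : X ∈ (S.tor n').X1s) (hy : y ∈ box R) :
    trS_t S.nf (up S.l y) X = RG.Q4.trS (S.tor n').nf (up S.l y) X :=
  img_two h.u.ok.odd_nf h.u'.ok.odd_nf (h.fb_le (a := S.D0 + R) (by omega))
    (h.symm.fb_le (a := S.D0 + R) (by change _ ≤ R + 20 * S.D0; omega))
    fun _ => h.symm.X1_up hX hy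

theorem trS_sub (hX : X ∈ (S.tor n').X1s) (hy : y ∈ box R) :
    RG.Q4.trS (S.tor n').nf (up S.l y) X = X.image (· + up S.l y) := image_congr fun _ hx =>
  rc_box h.u'.ok.odd_nf (h.symm.fb_le (a := S.D0 + R) (by change _ ≤ R + 20 * S.D0; omega))
    (h.symm.X1_up hX hy hx)

theorem lvT (ho : o ∈ S.obs_t) (a : S.bs_t o ⊆ box R) : Lv (S.tor n') R o := by
  rcases o with (o | y | y) | y | q | q | Z <;>
    simp only [Sd.obs_t, Sd.mks_t, Sd.Λ'_t, inl_mem_disjSum, inr_mem_disjSum, mem_product,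
      mem_erase, mem_powerset] at ho
  · exact mem_lps.2 ⟨dn_subT h.odd (mem_lps.1 ho).1 a, (mem_lps.1 ho).2⟩
  · exact a (mem_singleton_self _)
  · exact a (mem_singleton_self _)
  · exact a (mem_singleton_self _)
  · exact ⟨a (mem_insert_self _ _), ho.2⟩
  · refine ⟨a ?_, h.X1T ▸ ho.2⟩
    obtain ⟨x, hx, e⟩ := mem_image.1 (mem_filter.1 ho.2).2.2
    refine mem_image.2 ⟨_, mem_image_of_mem _ hx, ?_⟩
    rw [Sd.nf, yo_rcT h.odd, rcT_rcT, yo_add_up, ← rcT_rcT_add, e, zero_add, rcT_id h.odd ho.1]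
  · exact ⟨ho.1, a⟩

theorem of_lv (a : Lv (S.tor n') R o) :
    o ∈ S.obs_t ∧ o ∈ (S.tor n').obs ∧ S.bs_t o = (S.tor n').bs o := by
  have b := h.big
  have b' := h.big'
  have c : box R ⊆ domT S.n := box_domT (by omega)
  have c' : box R ⊆ box (n' / 2) := fun _ => box_mono (by omega)
  rcases o with (o | y | y) | y | q | q | Z <;>
    simp only [Sd.obs_t, Sd.mks_t, Sd.Λ'_t, Sd.obs, Sd.mks, Sd.Λ', inl_mem_disjSum,
      inr_mem_disjSum, mem_product, mem_erase, mem_powerset]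
  · have d := mem_lps.1 a
    exact ⟨mem_lps.2 ⟨d.1.trans (box_domT (h.fb_le (Nat.le_add_right _ _))), d.2⟩, mem_lps.2
      ⟨fun x hx => box_mono (h.symm.fb_le (Nat.le_add_right _ _)) (d.1 hx), d.2⟩,
      h.dnT (Nat.le_add_right _ _) d.1⟩
  · exact ⟨c a, c' a, rfl⟩
  · exact ⟨c a, c' a, rfl⟩
  · exact ⟨c a, c' a, rfl⟩
  · have e : q.1 + q.2 ∈ box (R + 2 * S.D0) := add_mem_box a.1 (mem_erase.1 a.2).2
    exact ⟨⟨c a.1, a.2⟩, ⟨c' a.1, a.2⟩, congrArg (fun z => ({q.1, z} : Finset St))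
      ((rcT_box h.odd (by omega) e).trans (rc_box h.odd' (by omega) e).symm)⟩
  · refine ⟨⟨c a.1, h.X1T ▸ a.2⟩, ⟨c' a.1, a.2⟩, (congrArg (dn_t S.l S.n) (h.trST a.2 a.1)).trans
      (h.dnT (a := S.D0 + R) (by omega) ?_)⟩
    rw [h.trS_sub a.2 a.1]
    exact image_subset_iff.2 fun x hx => h.X1u' a.2 a.1 hx
  · exact ⟨⟨a.1, a.2.trans c⟩, ⟨a.1, a.2.trans c'⟩, rfl⟩

theorem obsT (ho : o ∈ S.obs_t) (hs : S.sp_t o ⊆ box R) :
    o ∈ (S.tor n').obs ∧ S.sp_t o = (S.tor n').sp o := by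
  have a := (bs_spT h.odd ho).trans hs
  obtain ⟨-, b, c⟩ := h.of_lv (h.lvT ho a)
  exact ⟨b, by rw [Sd.sp_t, Sd.sp, ← c]; exact h.tbT (by omega) a⟩

theorem obsT' (ho : o ∈ (S.tor n').obs) (hs : (S.tor n').sp o ⊆ box R) :
    o ∈ S.obs_t ∧ (S.tor n').sp o = S.sp_t o := by
  have a := (bs_sp (S := S.tor n') h.odd' ho).trans hs
  obtain ⟨b, -, c⟩ := h.of_lv (h.symm.lv ho a)
  exact ⟨b, by rw [Sd.sp_t, Sd.sp, c]; exact (h.tbT (D := 13 * S.D0) (by omega) a).symm⟩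

theorem clusT (hY : Y ⊆ box R) :
    RG.Q4.clus S.sp_t S.obs_t Y = RG.Q4.clus (S.tor n').sp (S.tor n').obs Y :=
  Subset.antisymm (clus_sub fun _ ho hs => h.obsT ho (hs.trans hY))
    (clus_sub fun _ ho hs => h.obsT' ho (hs.trans hY))

theorem DinT (hY : Y ⊆ box R) : S.Din_t Y = (S.tor n').Din Y := filter_congr fun y hy => by
  have := Sd.D1 S.toTd
  rw [h.tbT (by rw [Sd.p'_R]; omega) (singleton_subset_iff.2 (hY hy))]
  rfl

section fam

variable (hO : O ⊆ (S.tor n').obs) (hY : RG.Q4.us (S.tor n').sp O ⊆ box R)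
include hO hY

theorem dnCT {C : Finset St} (hC : C ∈ CC O) : dn_t S.l S.n C = RG.Q4.dn S.l n' C := by
  obtain ⟨o, ho, hC⟩ := mem_biUnion.1 hC
  have a := mem_lps.1 (h.symm.olds hO hY ho)
  exact h.dnT (Nat.le_add_right _ _) (((mem_fams.1 a.2.2).1 C hC).trans a.1)

theorem usT : RG.Q4.us S.sp_t O = RG.Q4.us (S.tor n').sp O :=
  us_congr fun _ ho => (h.obsT' (hO ho) ((sp_sub_us _ ho).trans hY)).2.symm

theorem OhT : S.Oh_t O = (S.tor n').Oh O := by
  rw [Sd.Oh_t, Hh_t, biUnion_congr rfl fun _ => h.dnCT hO hY]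
  exact h.tbT (by omega) (h.symm.hole hO hY)

theorem labT (W : Conf) : S.lab_t W O = (S.tor n').lab W O := by
  have a : ∀ o ∈ (CC O).disjSum (Wk O), zsp_t S.l S.n (3 * S.D0) o = zsp S.l n' (3 * S.D0) o := by
    rintro (C | y) ho
    · have b := inl_mem_disjSum.1 ho
      rw [zsp_t, zsp, pb_t, pb, h.dnCT hO hY b]
      exact h.tbT (by omega) fun x hx => h.symm.hole hO hY
        (mem_union_left _ (mem_union_left _ (mem_biUnion.2 ⟨C, b, hx⟩)))
    · exact h.tbT (by omega) (singleton_subset_iff.2 (h.symm.hole hO hY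
        (mem_union_left _ (mem_union_right _ (inr_mem_disjSum.1 ho)))))
  have e : zones_t S.l S.n (3 * S.D0) (CC O) (Wk O) = zones S.l n' (3 * S.D0) (CC O) (Wk O) := by
    rw [zones_t, zones, comps_congr a]
    exact image_congr fun O1 h1 => us_congr fun o ho => a o ((mem_comps.1 h1).1 ho)
  refine (congrArg (filter _) e).trans (filter_congr fun Z hZ => not_congr (and_congr_left' ?_))
  exact tau_two h.big h.big' fun y hy => hY (Xp.Oh_sp hO (tb_mono subset_union_left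
    (show 3 * S.D0 ≤ 5 * S.D0 by omega) (zones_union ▸ mem_biUnion.2 ⟨Z, hZ, hy⟩)))

theorem wfT (W : Conf) : S.wf_t W O = (S.tor n').wf W O := by
  rw [Sd.wf_t, Sd.wf, h.labT hO hY]
  rfl

end fam

theorem dZT (hX : X ⊆ box R) (W : Conf) : S.dZ_t W X = (S.tor n').dZ W X := by
  have b := h.big
  have b' := h.big'
  exact dmK_two h.u (odd_sd h.odd) (fun _ => h.odd') (by rw [← domT]; exact box_domT (by omega))
    (fun _ hx => mem_cu.2 (box_mono (by omega) hx)) hX _ _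

variable (hK : KM S.p (S.tor n').nf k K') (ag : AgT (fb S.l R) ψ ψ' K K')
include hK ag

theorem KyT (hX : X ∈ (S.tor n').X1s) (hy : y ∈ box R)
    (hs : RG.Q4.dn S.l n' (RG.Q4.trS (S.tor n').nf (up S.l y) X) ⊆ box R) :
    S.Ky_t K y X ∅ = (S.tor n').Ky K' y X ∅ := funext fun U => by
  have a := ag.2 _ (h.symm.old (Sh.trP_mem h.u'.ok.odd_nf (Sh.X1_lps hX) _) hs)
  change K (trS_t S.nf (up S.l y) X) ∅ _ = K' (RG.Q4.trS (S.tor n').nf (up S.l y) X) ∅ _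
  rw [h.trST hX hy]
  refine (congrFun a _).trans (hK.loc (fun b hb => ?_) _)
  have d := Sd.D1 S.toTd
  have f := h.fb_le (a := S.D0 + R + 1) (by omega)
  have g : fb S.l (S.D0 + R) + 1 ≤ fb S.l (S.D0 + R + 1) := by
    simp only [fb, add_mul, LL]
    omega
  change b.1 ∈ RG.Q4.trS _ _ X at hb
  rw [h.trS_sub hX hy] at hb
  obtain ⟨x, hx, e⟩ := mem_image.1 hb
  have c := h.X1u' hX hy hx
  have c0 := h.X1s' hX hx
  change x + up S.l y = b.1 at e
  rw [e] at c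
  rw [shT_dom h.u.ok.odd_nf _ _ (box_domT (by omega) c) (box_domT (by omega) (add_un_mem_box c _))]
  change pcT S.nf U (b.1 + -up S.l y, b.2) = U (rc (S.tor n').nf (b.1 + -up S.l y), b.2)
  rw [← e, add_neg_cancel_right, rc_eq h.u'.ok.odd_nf (Sd.X1_dom hX hx),
    pcT_dom h.u.ok.odd_nf _ (box_domT (Nat.le_of_succ_le (Sd.X1_big h.u)) c0)]

omit hK in
theorem ψyT (hy : y ∈ box R) {x : St} (hx : x ∈ box S.l) :
    S.ψy_t ψ y x = (S.tor n').ψy ψ' y x := by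
  have a : x + up S.l y ∈ box (fb S.l R) := by rwa [Op.mem_fb, Op.yo_add_box hx]
  change ψ (rcT S.nf (x + up S.l y)) = ψ' (rc (S.tor n').nf (x + up S.l y))
  rw [rcT_box h.u.ok.odd_nf (h.fb_le (Nat.le_add_right _ _)) a,
    rc_box h.u'.ok.odd_nf (h.symm.fb_le (Nat.le_add_right _ _)) a]
  exact ag.1 _ a

theorem ag0T (hy : ∀ u ∈ box S.D0, u + y ∈ box R) :
    Sh.Ag0 (S.tor n') (S.ψy_t ψ y) ((S.tor n').ψy ψ' y) (S.Ky_t K y) ((S.tor n').Ky K' y) := by
  have a : y ∈ box R := zero_add y ▸ hy 0 (zero_mem_box _)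
  refine ⟨fun x => h.ψyT ag a, fun X hX => h.KyT hK ag hX a fun z hz => ?_⟩
  rw [h.trS_sub hX a, RG.Q4.dn, image_image] at hz
  obtain ⟨x, hx, rfl⟩ := mem_image.1 hz
  have b := hy _ (Op.mem_fb.1 (h.X1s' hX hx))
  have c := h.big'
  rwa [Function.comp, yo_add_up, rc_box h.odd' (by omega) b]

theorem PLT (hy : ∀ u ∈ box S.D0, u + y ∈ box R) : S.PL_t ψ K y = (S.tor n').PL ψ' K' y :=
  (h.PlT _ _).trans (Sh.Pl_ag (h.ag0T hK ag hy))

theorem cXyT (hy : ∀ u ∈ box S.D0, u + y ∈ box R) : S.cX_t (S.ψy_t ψ y) (S.Ky_t K y) =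
    (S.tor n').cX ((S.tor n').ψy ψ' y) ((S.tor n').Ky K' y) :=
  (h.cXT _ _).trans (Sh.cX_ag (h.ag0T hK ag hy))

theorem EyT (hy : ∀ u ∈ box S.D0, u + y ∈ box R) : S.Ey_t ψ K y = (S.tor n').Ey ψ' K' y := by
  rw [Sd.Ey_t, Sd.Ey, h.cXyT hK ag hy]
  rfl

theorem FOT (hO : O ⊆ (S.tor n').obs) (hY : RG.Q4.us (S.tor n').sp O ⊆ box R) :
    S.FO_t ψ K W O ω = (S.tor n').FO ψ' K' W O ω := by
  have e1 : ∀ o ∈ RG.Q4.olds O, K o.1 o.2 (S.Uv W ω) = K' o.1 o.2 (S.Uv W ω) := fun o ho =>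
    congrFun (ag.2 o (h.symm.olds hO hY ho)) _
  have e2 : ∀ y ∈ (S.tor n').Oh O, S.hf_t ψ K W ω O y = (S.tor n').hf ψ' K' W ω O y :=
    fun y hy => by
    have a := hY (Xp.Oh_sp hO hy)
    have b := h.symm.near a (((tb_mono (singleton_subset_iff.2 hy) (by omega)).trans
      (Xp.tb_Oh hO)).trans hY)
    have e : ∀ co U, S.Ib ψ co U y = (S.tor n').Ib ψ' co U y := fun co U =>
      prod_congr rfl fun x hx => by
        simp only [Ix, Sd.Φ, blk ag a (mem_filter.1 hx).1]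
        rfl
    rw [Sd.hf_t, Sd.hf, e, h.cXyT hK ag b, h.labT hO hY, Sd.Φ'_t, Sd.Φ', h.PLT hK ag b]
    rfl
  have e3 : ∀ m ∈ O.toRight, S.jm_t ψ K W ω ((S.tor n').Oh O) m =
      (S.tor n').jm ψ' K' W ω ((S.tor n').Oh O) m := fun m hm => by
    have b := mem_toRight.1 hm
    have a := h.symm.bs hO hY b
    rcases m with y | q | q | Z
    · have c := h.symm.near (a (mem_singleton_self y))
        (((tb_mono Subset.rfl (by omega)).trans (sp_sub_us (S.tor n').sp b)).trans hY)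
      rw [Sd.jm_t, Sd.jm, ← Sh.fm_ag (h.ag0T hK ag c)]
      rfl
    · rfl
    · obtain ⟨c, d⟩ := h.symm.smk (hO b) a
      rw [Sd.jm_t, Sd.jm, h.FsT d, Sd.Fs_congr (h.KyT hK ag d c a)]
    · exact h.dZT a W
  rw [Sd.FO_t, Sd.FO, h.OhT hO hY, h.usT hO hY, prod_congr rfl e1, prod_congr rfl e2,
    prod_congr rfl e3]
  rfl

variable (d : Fx.Dt (S.tor n') ψ' K')
include d

theorem wOT (hO : O ⊆ (S.tor n').obs) (hY : RG.Q4.us (S.tor n').sp O ⊆ box R)
    (eW : Agr (R + 8 * S.D0) W W') : S.wO_t ψ K W O = (S.tor n').wO ψ' K' W' O := by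
  have b := h.big
  rw [Sd.wO_t, h.wfT hO hY, funext fun v => h.FOT hK ag hO hY (ω := pcW S.l S.n W v)]
  exact wO_box (S := S.tor n') d h.big' eW hO hY hK fun v x hx =>
    mW_congr (fun _ => rfl) (congrArg v (rcT_box h.odd (show R + 2 * S.D0 ≤ _ by omega) hx))

theorem KrT (hY : Y ⊆ box R) (c : Finset (Finset St)) (eW : Agr (R + 8 * S.D0) W W') :
    S.Kr_t ψ K Y c W = (S.tor n').Kr ψ' K' Y c W' := by
  rw [Sd.Kr_t, Sd.Kr, h.clusT hY, h.DinT hY, sum_filter, sum_filter, sum_congr rfl fun O hO => ?_,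
    prod_congr rfl fun y hy => chi_box eW (hY (mem_filter.1 (mem_sdiff.1 hy).1).1)]
  · rfl
  obtain ⟨h1, -, rfl⟩ := mem_clus.1 hO
  rw [h.labT h1 hY, lab_box (S := S.tor n') eW h1 hY, h.wOT hK ag d h1 hY eW]

theorem KKT (hY : Y ⊆ box R) (c : Finset (Finset St)) :
    S.KK_t ψ K Y c = (S.tor n').KK ψ' K' Y c := funext fun U => by
  have b := h.big
  have b' := h.big'
  have g := Sd.D1 S.toTd
  refine integral_congr_ae (.of_forall fun γ => h.KrT hK ag d hY c fun e he => ?_)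
  have a1 := mem_lbox.1 he
  have a2 := add_un_mem_box a1 e.2
  rw [pcT_dom h.odd _ (box_domT (by omega) a1)]
  change γ (rcT S.n e.1) * U e * (γ (rcT S.n (e.1 + un e.2)))⁻¹ =
    γ (rc n' (rc n' e.1)) * U (rc n' e.1, e.2) * (γ (rc n' (rc n' e.1 + un e.2)))⁻¹
  rw [rcT_box h.odd (by omega) a1, rcT_box h.odd (by omega) a2, rc_rc, rc_box h.odd' (by omega) a1,
    rc_box h.odd' (by omega) a2]

end Tw

end Tor

section

variable [Tws]

/-- the activities at level zero do not depend on the torus -/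
theorem KI_tor_t {p : Pa} {n n' R : ℕ} {b0 : ℝ} {w : St → Conf → ℂ} {X : Finset St} (hn : Odd n)
    (hn' : Odd n') (hR : R + (2 * p.R + 4) ≤ n / 2) (hR' : R + (2 * p.R + 4) ≤ n' / 2)
    (h : Wz b0 w) (hX : X ⊆ box R) (c : Finset (Finset St)) :
    KI_t p n w X c = KI p n' w X c := funext fun U => by
  have t : ∀ {x D}, x ∈ box R → D ≤ 2 * p.R + 4 → tb_t n D {x} = tb n' D {x} := fun b _ =>
    Tor.tb_two hn hn' (R := R) (by omega) (by omega) (singleton_subset_iff.2 b)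
  have m : ∀ {x}, x ∈ box (n' / 2) → x ∈ tb n' (2 * p.R + 4) {x} := fun hx =>
    mem_tb_single.2 ⟨rc_eq hn' hx, nearT.refl _ _ _⟩
  have a : clus (fun x => tb_t n (2 * p.R + 4) {x}) (domT n) X =
      clus (fun x => tb n' (2 * p.R + 4) {x}) (box (n' / 2)) X := Subset.antisymm
    (Tor.clus_sub fun x hx hs => by
      have b := hX (hs (Tor.sub_tbT hn (singleton_subset_iff.2 hx) (mem_singleton_self x)))
      exact ⟨box_mono (by omega) b, t b le_rfl⟩)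
    (Tor.clus_sub fun x hx hs => by
      have b := hX (hs (m hx))
      exact ⟨Tor.box_domT (by omega) b, (t b le_rfl).symm⟩)
  refine Eq.trans ?_ (K0_congr hn' (d := 0) (χ := fun x U => chi p U x) (w := w) (U := pcT n U)
    (by omega) fun y h1 hy => ?_)
  · rw [KI_t, K0_t, K0, iK, iK, a, sum_filter, sum_filter]
    refine sum_congr rfl fun O hO => ?_
    obtain ⟨h1, -, h2⟩ := mem_clus.1 hO
    have e : us (fun x => tb_t n (p.R + 1) {x}) O = us (fun x => tb n' (p.R + 1) {x}) O :=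
      Tor.us_congr fun x hx => t (hX (h2 ▸ mem_us.2 ⟨x, hx, m (h1 hx)⟩)) (by omega)
    rw [iw, iw, e]
  · have b := hX (hy (mem_tb_single.2 ⟨rc_eq hn' h1, nearT.refl _ _ _⟩))
    have e : Agr (p.R + 2) (sh y (pcT n U)) (sh y (pc n' U)) := JS.agr_sh (R := R + (2 * p.R + 4))
      (fun e he => by
        rw [pcT_dom hn _ (Tor.box_domT hR (mem_lbox.1 he)), pc,
          Tor.rc_box hn' hR' (mem_lbox.1 he)]) b (by omega)
    refine ⟨if_congr (fq_agr_iff e) rfl rfl, h.loc _ _ _ fun μ ν => ?_⟩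
    have := Mx.fq_agr e (zero_mem_box _) (μ := μ) (ν := ν) (box_mono (by omega)
      (add_un_mem_box (add_un_mem_box (zero_mem_box 0) μ) ν))
    simpa only [Mx.fq_sh, zero_add] using this

theorem AgT.ini_t {p : Pa} {n n' n0 : ℕ} {b0 : ℝ} {w : St → Conf → ℂ} (hn : Odd n) (hn' : Odd n')
    (h0 : n0 ≤ n) (h0' : n0 ≤ n') (hR : 8 * p.R + 16 ≤ n0) (h : Wz b0 w) (ψ : Lx) :
    AgT (rad n0) ψ ψ (KI_t p n w) (KI p n' w) :=
  ⟨fun _ _ => rfl, fun _ ho => KI_tor_t hn hn' (by unfold rad; omega) (by unfold rad; omega) h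
    (mem_lps.1 ho).1 _⟩

/-- what is used of a step on the twisted torus of size `S.n` and of the step on the cubic torus
of side `n'` -/
def Sd.TorT (S : Sd) (n' n0 : ℕ) : Prop := ∀ b k ψ ψ' K K', PU S.p b ψ' →
  KM S.p (S.tor n').nf k K' → TCov_t S.n (S.PL_t ψ K) (S.KK_t ψ K) →
  TCov n' ((S.tor n').PL ψ' K') ((S.tor n').KK ψ' K') → AgT (rad (LL S.l * n0)) ψ ψ' K K' →
  S.Ey_t ψ K 0 = (S.tor n').Ey ψ' K' 0 ∧
    AgT (rad n0) (S.PL_t ψ K) ((S.tor n').PL ψ' K') (S.KK_t ψ K) ((S.tor n').KK ψ' K')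

end

/-- cross torus locality of one step -/
theorem step_tor_t (c : ℕ) : ∀ᶠ S in ev c, ∀ [Tws] (n' n0 : ℕ), Odd n' → 1000 * S.D0 ≤ n0 →
    n0 ≤ S.n → n0 ≤ n' → S.TorT n' n0 := by
  filter_upwards [ev_nu' c 0, ev_tor' (Fx.ev_dt c)] with S u H _ n' n0 hn h0 h1 h2 b k ψ ψ' K K'
    p1 p2 t t' ag
  have l := u.lens
  have h : Tor.Tw S n' (rad n0) :=
    ⟨u, u.tor' hn (h0.trans h2), by unfold rad; omega, by unfold rad; omega⟩
  have ag := ag.mono (fb_rad _ (by omega) (show 8 ≤ n0 by omega))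
  have d := H n' hn (h0.trans h2) b k ψ' K' p1 p2
  have a : ∀ v ∈ box S.D0, v + 0 ∈ box (rad n0) := fun v hv => by
    rw [add_zero]
    exact box_mono (by unfold rad; omega) hv
  refine ⟨h.EyT p2 ag a, fun x hx => ?_, fun o ho => h.KKT p2 ag d (mem_lps.1 ho).1 _⟩
  have e := congrFun (t x).1 0
  have e' := congrFun (t' x).1 0
  rw [trL_t, zero_add, Tor.rcT_box u.ok.odd (by unfold rad; omega) hx] at e
  rw [trL, zero_add, Tor.rc_box hn (by unfold rad; omega) hx] at e'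
  rw [e, e', h.PLT p2 ag a]

end Pool.Agent.Lib.MP_7f377f_mp.RG.Q4
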