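import Pool.Agent.Lib.MP_7f377f_mp.G.TwNum
import Pool.Agent.Lib.MP_7f377f_mp.G.TwTor
import Pool.Agent.Lib.MP_7f377f_mp.G.TwMeasC
import Pool.Agent.Lib.MP_7f377f_mp.G.TqStep
import Pool.Agent.Lib.MP_7f377f_mp.G.TqReal
import Pool.Agent.Lib.MP_7f377f_mp.G.TqSh
import Pool.Agent.Lib.MP_7f377f_mp.G.TqRepB
import Pool.Agent.Lib.MP_7f377f_mp.G.Q5Out

/-! The flow on twisted tori. -/

noncomputable section

set_option linter.unusedSectionVars false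
variable [Pool.Agent.Lib.MP_7f377f_mp.GD]

namespace Pool.Agent.Lib.MP_7f377f_mp.RG.Q4.En

open Finset Real Sd Filter MeasureTheory

attribute [local irreducible] box lbox

/-- what is used of one step on a twisted torus -/
structure St2T [Tws] (S : Sd) : Prop where
  K : ∀ b θ k, S.Q ^ 100 * b ≤ 1 → S.Q ^ 100 * θ ≤ 1 → 0 ≤ b →
    kN_t S.p S.nf k θ → ∃ k', kN_t S.p'.up S.n k' (S.θ' b θ) ∧ ∀ ψ K, S.Sml_t b θ k ψ K →
      KM_t S.p' S.n k' (S.KK_t ψ K)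
  id : ∀ b θ k ψ K, S.Sml_t b θ k ψ K → ∀ W, PerT S.n W →
    TTT S.l (S.β * S.L ^ 2) S.n (Rep_t S.p S.nf (S.Φ ψ) K) W =
      Complex.exp (∑ y ∈ S.Λ'_t, S.Ey_t ψ K y) * Rep_t S.p' S.n (S.Φ'_t ψ K) (S.KK_t ψ K) W
  real : ∀ b θ k ψ K, S.Sml_t b θ k ψ K → RealP S.p ψ → RealA K →
    RealP S.p' (S.PL_t ψ K) ∧ RealA (S.KK_t ψ K) ∧ ∀ y, (S.Ey_t ψ K y).im = 0
  cov : ∀ b θ k ψ K, S.Sml_t b θ k ψ K → TCov_t S.nf ψ K →
    TCov_t S.n (S.PL_t ψ K) (S.KK_t ψ K) ∧ ∀ y, S.Ey_t ψ K y = S.Ey_t ψ K 0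
  tor : ∀ n' n0, Odd n' → 1000 * S.D0 ≤ n0 → n0 ≤ S.n → n0 ≤ n' → S.TorT n' n0

theorem ev_st2T (c : ℕ) : {S : Sd | ∀ [Tws], St2T S} ∈ ev c := by
  filter_upwards [step_K_t c, step_id_t c, step_real_t c, step_cov_t c, step_tor_t c]
    with S a1 a2 a3 a4 a5 _
  exact ⟨a1, a2, a3, a4, a5⟩

section

variable [Tws] {S : Sd} {p : Pa} {n : ℕ} {v e b θ κ : ℝ} {k : Mj} {ψ : Lx} {K : Ac} {f : Conf → ℂ}

theorem kN_up_t (h : kN_t p.up n k θ) : kN_t p n k θ :=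
  ⟨h.1, fun x => (sum_le_sum fun _ _ => mul_le_mul_of_nonneg_left (exp_le_exp.2 (add_le_add
    (mul_le_mul_of_nonneg_right (le_add_of_nonneg_right zero_le_one) (Nat.cast_nonneg _)) le_rfl))
    (h.1 _ _)).trans (h.2 x)⟩

theorem tcov_cx (hn : Odd n) (h : TCov_t n ψ K) (x : St) : ψ x = ψ 0 := by
  rw [← congrFun (h (-x)).1 x, trL_t, add_neg_cancel, rcT_id hn (zero_mem_domT n)]

/-- a represented density is a density of the top level -/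
theorem LF.top (h : LF S v e) (pu : PU S.p b ψ) (hb : S.Q ^ 100 * b ≤ 1) (r : RealP S.p ψ)
    (hn : Odd n) (km : KM_t S.p n k K) (kn : kN_t S.p n k θ) (hθ : S.Q ^ 100 * θ ≤ 1) (rK : RealA K)
    (gi : GIT n f) (ps : Pos f) (κ0 : 0 < κ)
    (q : ∀ U, PerT n U → f U = κ * Rep_t S.p n (S.Φ ψ) K U) :
    Top S.Pw S.β n S.m fun U => (f U).re / κ := by
  have e : ∀ U, PerT n U → (f U).re / κ = (Rep_t S.p n (S.Φ ψ) K U).re := fun U hU => by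
    rw [q U hU, Complex.re_ofReal_mul, mul_div_cancel_left₀ _ κ0.ne']
  have q0 := S.Q0
  have p1 := Nu.Pw1 (S := S)
  have a1 : θ ≤ (S.Q ^ 100)⁻¹ := by rwa [inv_eq_one_div, le_div_iff₀' (by positivity)]
  have a2 : 4 * (S.Q ^ 100)⁻¹ ≤ S.Q⁻¹ := by
    rw [← div_eq_mul_inv, div_le_iff₀ (by positivity), le_inv_mul_iff₀ q0]
    linarith [qpw h.nu (i := 1) (j := 100) (by norm_num)]
  have a3 : S.Q⁻¹ ≤ (S.Pw ^ 5)⁻¹ :=
    inv_anti₀ (by positivity) ((pow_le_pow_right₀ p1 (by norm_num)).trans h.nu.Pw8)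
  have a4 := inv_pos.2 (pow_pos q0 100)
  refine ⟨(Complex.measurable_re.comp gi.1).div_const _, fun u U hu hU => by rw [gi.2.2 u U hu hU],
    fun U _ => div_pos (ps U).2 κ0, fun U hU => ?_, fun U hU hq => ?_⟩
  · rw [e U hU]
    refine (Complex.re_le_norm _).trans ((rep_le_t h.pgw hn km kn hU (c := √S.β) (C := 10 ^ 7) le_rfl
      (by norm_num) (fun x _ hx => ?_) fun _ => le_rfl).trans (exp_le_exp.2 (sub_le_sub_right
        (mul_le_mul_of_nonneg_right ?_ (Nat.cast_nonneg _)) _)))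
    · simpa only [Sd.g, one_div, inv_inv] using h.site_low pu hb hx
    · have c1 := h.nu.cL' (C := 10 ^ 8) (by norm_num)
      linarith [Nu.L_Pw (S := S) (i := 1) (by norm_num), inv_le_one_of_one_le₀ S.Q1]
  · obtain ⟨-, c⟩ := rep_log_t (Φ := S.Φ ψ) h.pgw hn km rK kn (by linarith [h.pg1.2]) hU
      (h.site_fq hq) (fun x => h.site_real (h.site_fq hq x) r) (h.site_bd pu hb hq)
    have c1 : |∑ x ∈ domT n, ((S.β * S.T (Bx x (cC U))).re + (ψ x (Bx x (cC U))).re)| ≤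
        2 * (S.Q ^ 100)⁻¹ * Q4.vol n := by
      refine (abs_sum_le_sum_abs _ _).trans ((sum_le_card_nsmul _ _ _ fun x _ => ?_).trans_eq
        (by rw [nsmul_eq_mul, mul_comm]; rfl))
      have := h.site_sm pu hb (h.site_fq hq x)
      exact (abs_add_le _ _).trans (by linarith [this.1, this.2])
    simp only [LF.Φ_re, add_assoc, sum_add_distrib (f := fun x => S.β * _), ← mul_sum] at c
    rw [e U hU, div_eq_inv_mul]
    have c2 := mul_le_mul_of_nonneg_right (show 2 * θ + 2 * (S.Q ^ 100)⁻¹ ≤ (S.Pw ^ 5)⁻¹ by linarith)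
      (Nat.cast_nonneg (α := ℝ) (Q4.vol n))
    rw [abs_le] at *
    constructor <;> linarith [c.1, c.2, c1.1, c1.2]

end

namespace Gl

/-- the steps of `G` can be done on twisted tori -/
def HW (G : Gl) : Prop := ∀ S : Sd, S.Ok → S.c = G.c → S.Kt = G.Kt → S.K0 = G.K0 → S.K = G.K →
  S.B = 4 * G.B S.l → G.l0 ≤ S.l → S.TOk → ∀ [Tws], St2T S

/-- the invariant of the run on a twisted torus of size `n` beside the run with the state `z` -/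
structure TvT [Tws] (G : Gl) (k : ℕ) (z : Z) (n : ℕ) (κ : ℝ) (K : Ac) (f : Conf → ℂ) : Prop where
  km : ∃ k', KM_t (G.p k) n k' K ∧ kN_t (G.p k) n k' (√(G.g k) * G.g k ^ 2)
  re : RealA K
  cov : TCov_t n z.ψ K
  ag : AgT (rad (min n (G.N k))) z.ψ z.ψ K z.K
  gi : GIT n f
  pos : Pos f
  rp : ∀ U, PerT n U → f U = κ * Rep_t (G.p k) n ((G.sl k z).Φ z.ψ) K U

namespace Ok

variable {G : Gl} (h : G.Ok) {b κ : ℝ} {J k n : ℕ} {z : Z} {K : Ac} {f : Conf → ℂ}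
include h

theorem tv_top [Tws] (hb : |b / G.bb J - 1| ≤ 10⁻¹) (hn : Odd n) (hT : G.Tk J ≤ n) :
    G.TvT J (G.top b J) n 1 (KI_t (G.p J) n (ww fun _ _ _ => (b : ℂ))) fun U => (wilT b n U : ℝ) := by
  have v := abs_le.1 hb
  have g0 := h.g0 J
  have nu := (h.sl_all J (G.top b J)).nu
  have b0 := h.b0 J
  have b1 : G.bb J / 4 ≤ b := by
    have := (le_div_iff₀ b0).1 (show 2⁻¹ ≤ b / G.bb J by linarith)
    linarith
  have w := wz_ww (b := fun _ _ _ => (b : ℝ)) (show 0 ≤ b by linarith) fun _ _ _ => le_rfl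
  obtain ⟨a1, a2, a3⟩ := nu.kI_num b1
  obtain ⟨c1, -, c2⟩ := wilT_facts b hn
  have pg := (h.lf (h.gd_top hb).tz).pg1.1
  have d : 1 ≤ G.L J ^ G.K0 := Nat.one_le_pow _ _ (by have := h.L_big J; omega)
  refine ⟨⟨_, KI_km_t hn w (by linarith) nu.ε0.le, kN_t.mono (θ := G.g J ^ 3)
    ⟨k0_nonneg_t _ _ _ _, fun x => k0_sum_t hn ?_ ?_ pg.D a3 pg.G0 ?_ a1 a2 x⟩ ?_⟩,
    KI_real_t fun x U => ww_real fun _ _ => rfl, fun v => ⟨rfl, fun o ho =>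
      KI_tr_t hn v (fun _ _ _ _ => ww_fq rfl) ho⟩, AgT.ini_t hn (h.N_odd J) (min_le_left _ _)
      (min_le_right _ _) ?_ w _, c1, c2, fun U hU => ?_⟩
  · change (G.p J).R + 1 ≤ 2 * (G.p J).R + 4
    omega
  · change 2 * (4 * G.L J ^ G.K0) + 4 ≤ 20 * G.L J ^ G.K0
    omega
  · exact le_trans (by positivity) pg.G2
  · rw [pow_succ']
    exact mul_le_mul_of_nonneg_right (le_sqrt_of_sq_le (show G.g J ^ 2 ≤ _ by
      nlinarith only [h.g1 J, g0])) (sq_nonneg _)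
  · have a := h.D_le J (h.bN J)
    change 8 * (4 * G.L J ^ G.K0) + 16 ≤ _
    unfold Tk at hT
    omega
  · rw [Complex.ofReal_one, one_mul, wil_eq_prod_t]
    refine KI_rep_t hn hU fun x hx => (ww_const _ x U).trans ?_
    have e : ((b / G.bb J : ℝ) : ℂ) * (G.bb J : ℝ) = b := by
      rw [← Complex.ofReal_mul]; exact congrArg _ (div_mul_cancel₀ _ b0.ne')
    rw [← nu.wd_chart hx, ← e]
    change _ = Complex.exp (-((G.bb J : ℝ) * (cx ((b / G.bb J) • m0) _ _ + _ * TW _) + 0))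
    rw [cx_smul]
    congr 1
    ring

theorem tv_step [Tws] (hw : G.HW) (d : G.Gd b J (k + 1) z) (hn : Odd n) (hT : G.Tk k ≤ n)
    (T : G.TvT (k + 1) z (G.L k * n) κ K f) :
    G.TvT k (G.nx k z) n (κ * exp (Q4.vol n * ((G.sd k z).Ey z.ψ z.K 0).re))
      (((G.sd k z).tor n).KK_t z.ψ K) (TTT (G.l k) (G.a k) n f) := by
  have nu := (h.sd_all k z).nu
  have s := hw ((G.sd k z).tor n) (nu.tor' hn hT).ok rfl rfl rfl rfl rfl (h.sch.big k)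
    ⟨_, _, _, (v12 d.tz).1, (v12 d.tz).2, ze0 d.tz, h.ze2 d.tz, d.tz.tr k (.inr rfl),
      h.ln d.tz (.inr rfl)⟩
  have q0 := h.Q0 k
  have g0 := h.g0 (k + 1)
  have w : ∀ i < 1000, 1000 * (G.Q k ^ i * √(G.g (k + 1))) ≤ 1 := fun i hi => by
    rw [← mul_assoc]
    exact (mul_le_mul_of_nonneg_right ((h.qpw k hi).trans (pow_le_pow_left₀ q0.le
      (h.Q_mono k.le_succ) _)) (sqrt_nonneg _)).trans (h.Qsg (k + 1))
  have s0 := sqrt_nonneg (G.g (k + 1))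
  have s2 : G.g (k + 1) ^ 2 ≤ √(G.g (k + 1)) * √(G.g (k + 1)) := by
    rw [mul_self_sqrt g0.le]; nlinarith only [h.g1 (k + 1), g0]
  have hω : G.Q k ^ 100 * √(G.g (k + 1)) ≤ 1 := by linarith [w 100 (by norm_num)]
  obtain ⟨a1, a2, a3⟩ := nu.ball_num le_rfl hω (show G.Q k ^ 115 * G.g (k + 1) ^ 2 ≤ √(G.g (k + 1)) by
    nlinarith only [mul_le_mul_of_nonneg_left s2 (pow_pos q0 115).le, w 115 (by norm_num), s0])
  obtain ⟨k0, k1, k2⟩ := T.km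
  have pu : PU (G.sd k z).p (2 * (G.sd k z).Q ^ 10 * (G.sd k z).g ^ 2) z.ψ :=
    pu_mono ((h.sz_sd d.dt.sz z).pu nu hω) (le_of_eq (by ring))
  have sm : ((G.sd k z).tor n).Sml_t _ _ k0 z.ψ K := ⟨a1, a2, pu, k1, k2⟩
  obtain ⟨k', b1, b2⟩ := s.K _ _ k0 a1 a2 (by positivity) k2
  obtain ⟨-, r2, r3⟩ := s.real _ _ _ _ _ sm d.dt.re.1 T.re
  obtain ⟨c1, c2⟩ := s.cov _ _ _ _ _ sm T.cov
  obtain ⟨b', θ', k1', s1⟩ := h.sml d
  have c3 := (h.st2 d.tz).cov _ _ _ _ _ s1 (by rw [h.sd_nf]; exact d.dt.re.2.2)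
  obtain ⟨e1, ag⟩ := s.tor (G.N k) _ (h.N_odd k) (le_min hT (h.D_le k (h.bN k))) (min_le_left _ _)
    (min_le_right _ _) _ _ _ _ _ _ s1.pu s1.km c1 c3 (by
      rw [mul_min]; exact (h.N_succ k ▸ T.ag :))
  have e2 : ((G.sd k z).tor n).PL_t z.ψ K = (G.sd k z).PL z.ψ z.K := funext fun y =>
    (tcov_cx hn c1 y).trans ((ag.1 0 (zero_mem_box _)).trans (TCov.cx (h.N_odd k) c3 y).symm)
  have gg := h.g_succ k
  refine ⟨⟨k', b2 _ _ sm, (kN_up_t b1).mono (a3.trans ?_)⟩, r2, fun v => ⟨funext fun x =>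
    congrArg (· + src (G.sd k z) (G.kp k z)) (congrFun (e2 ▸ (c1 v).1) x), (c1 v).2⟩,
    ⟨fun _ _ => rfl, ag.2⟩, T.gi.step (h.a0 k) hn, TT_posT hn T.gi T.pos, fun W hW => ?_⟩
  · change √(G.g (k + 1)) * G.g (k + 1) ^ 2 ≤ _
    gcongr
  refine ((TT_mulT T.rp W).trans (congrArg ((κ : ℂ) * ·) (s.id _ _ _ _ _ sm W hW))).trans ?_
  rw [Complex.ofReal_mul, mul_assoc (κ : ℂ), Complex.ofReal_exp, sum_congr rfl fun y _ => c2 y,
    sum_const, nsmul_eq_mul]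
  congr 3
  · rw [Complex.ofReal_mul]
    exact congrArg₂ _ rfl (Complex.ext (congrArg Complex.re e1 :) (by simp [r3]))
  · funext y B
    have : (G.bb k : ℂ) ≠ 0 := Complex.ofReal_ne_zero.2 (h.b0 k).ne'
    rw [Φ'_t, e2]
    change (G.bb (k + 1) : ℂ) * (cx (G.sd k z).m1 B B + (G.sd k z).T1 B) + (G.sd k z).ol B + _ =
      (G.bb k : ℂ) * (cx (G.lam k z • _) B B + G.lam k z * _) + (_ + src _ _ B)
    rw [src, cx_smul, lam]
    push_cast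
    field_simp
    ring

theorem e_succT (hk : k < J) : 3 ^ (G.e J - G.e (k + 1)) * G.L k = 3 ^ (G.e J - G.e k) := by
  have := h.sch.mono.monotone (show k + 1 ≤ J from hk)
  have := h.sch.mono.monotone (k.le_add_right 1)
  rw [h.L_eq, ← pow_add]
  congr 1
  omega

/-- the run on all twisted tori -/
theorem tv_run (hw : G.HW) (A : G.Tu1 b J) : ∀ k ≤ J, ∃ c : ℝ, ∀ [Tws] (n : ℕ), Odd n → G.Tk k ≤ n →
    ∃ K f, G.TvT k (G.zz b J k) n (exp (Q4.vol n * c)) K f ∧ inT (3 ^ (G.e J - G.e k) * n)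
      (wilT b (3 ^ (G.e J - G.e k) * n)) = inT n fun U => (f U).re := by
  refine dw_ind ⟨0, fun n hn hT => ⟨KI_t (G.p J) n (ww fun _ _ _ => (b : ℂ)),
    fun U => (wilT b n U : ℝ), ?_, ?_⟩⟩ fun k hk ⟨c, ih⟩ => ⟨G.L k ^ 4 * c +
      ((G.sd k (G.zz b J (k + 1))).Ey (G.zz b J (k + 1)).ψ (G.zz b J (k + 1)).K 0).re,
        fun n hn hT => ?_⟩
  · have v := A.v20 h J le_rfl
    rw [zz_top] at v
    rw [zz_top, mul_zero, exp_zero]
    exact h.tv_top (v.trans (by norm_num)) hn hT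
  · rw [Nat.sub_self, pow_zero, one_mul]
    rfl
  have o : Odd (G.L k) := ⟨_, rfl⟩
  obtain ⟨K, f, T, e⟩ := ih _ (o.mul hn) ((h.Tk_succ k).trans (Nat.mul_le_mul_left _ hT))
  have := h.tv_step hw (A.gd _ hk) hn hT T
  rw [← zz_step b hk, ← exp_add, vol_mul o hn, Nat.cast_mul, Nat.cast_pow, mul_comm _ (Q4.vol n : ℝ),
    mul_assoc, ← mul_add] at this
  exact ⟨_, _, this, by rw [← h.e_succT hk, mul_assoc, e, inT_TT (h.a0 k) hn T.gi T.pos]; rfl⟩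

theorem rtop (hw : G.HW) {b : ℕ → ℝ} (A : ∀ J, G.Tu1 (b J) J) : Rtop G b := by
  refine ⟨_, _, _, h.tnum, fun k J hk => ?_⟩
  obtain ⟨c, H⟩ := h.tv_run hw (A J) k hk
  have d := (A J).gd k hk
  have lf := h.lf d.tz
  obtain ⟨b1, θ1, k1, s⟩ := h.sml0 d
  refine ⟨exp c, exp_pos _, _, _, lf.qm, fun t ht hT => ?_⟩
  obtain ⟨K, f, T, e⟩ := H t ht hT
  obtain ⟨k0, a1, a2⟩ := T.km
  refine ⟨_, lf.top s.pu s.b_le d.dt.re.1 ht a1 a2 ?_ T.re T.gi T.pos (exp_pos _) T.rp, ?_⟩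
  · change G.Q k ^ 100 * (√(G.g k) * G.g k ^ 2) ≤ 1
    rw [← mul_assoc]
    exact mul_le_one₀ ((mul_le_mul_of_nonneg_right (pow_le_pow_right₀ (h.Q1 k) (by norm_num))
      (sqrt_nonneg _)).trans (h.Qsg k)) (sq_nonneg _) (pow_le_one₀ (h.g0 k).le (h.g1 k))
  · rw [e, inT, inT, integral_div, ← exp_nat_mul, mul_div_cancel₀ _ (exp_pos _).ne']

end Ok

theorem Oks.rtop {G : Gl} (h : G.Oks) (hw : G.HW) {b : ℕ → ℝ} (A : G.Tus fun p => b p.2) :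
    Rtop G b :=
  let ⟨ρ, P, T, t, H⟩ := (h 0).1.rtop hw fun J => (A (0, J)).toTu1
  ⟨ρ, P, T, ⟨t.lim, t.num, t.cov⟩, H⟩

end Gl

theorem exists_oks_t : ∃ G : Gl, G.Oks ∧ G.HT ∧ G.HW := by
  obtain ⟨c, h1⟩ := tree_lin
  obtain ⟨G, -, -, -, a3, a4⟩ := exists_gl2 h1 (Af.af_all h1) _
    (inter_mem (inter_mem (ev_pu c) (ev_HT c)) (ev_st2T c)) 0 0
  exact ⟨G, fun m => have o := a4 _ (odd_two_mul_add_one m); ⟨o, fun k z t => (a3 _
    ((Gl.Ok.sd_all o k z).nu.ok) rfl rfl rfl rfl rfl (o.sch.big k) t).1.1⟩,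
    fun S o e0 e1 e2 e3 e4 e5 t => (a3 S o e0 e1 e2 e3 e4 e5 t).1.2,
    fun S o e0 e1 e2 e3 e4 e5 t => (a3 S o e0 e1 e2 e3 e4 e5 t).2⟩

open YM7 in
theorem out_tw [m : MeasurableSpace SU2] [BorelSpace SU2] (h : Measure SU2) [h.IsHaarMeasure]
    [IsProbabilityMeasure h] : ∃ (G : Gl) (b : ℕ → ℝ), G.Oks ∧ G.HT ∧ (G.Tus fun p => b p.2) ∧
    (∀ Φ : Filter ℕ, Poly2 h (Φ ×ˢ atTop) G.nn G.aa (fun p => b p.2) (fun p => 4 * ta p) ∧
      ∀ K, Short h (Φ ×ˢ atTop) G.nn G.aa (fun p => b p.2) K) ∧ Rtop G b := by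
  choose C hC using short_of2 h
  obtain rfl : m = Fi.mS := BorelSpace.measurable_eq
  have : (Fi.tr haar).IsHaarMeasure := (inferInstance : haar.IsHaarMeasure)
  obtain rfl := Measure.isHaarMeasure_eq_of_isProbabilityMeasure h (Fi.tr haar)
  obtain ⟨G, o, ht, hw⟩ := exists_oks_t
  obtain ⟨β, hβ⟩ := o.tus1
  exact ⟨G, β, o, ht, hβ, fun Φ => ⟨o.poly2 hβ (fun p _ e => ((o _).1.tan_main (o _).2 (hβ p) e).1.sz) Φ,
    fun K k hk f hf η hη => (hC K _ _ _ _ (cmp2_main G _ o hβ K _) k hk f hf η hη).mono fun _ =>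
      Eventually.filter_mono (prod_mono_left _ le_top)⟩, o.rtop hw hβ⟩

end Pool.Agent.Lib.MP_7f377f_mp.RG.Q4.En
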