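import Pool.Agent.Lib.MP_7f377f_mp.G.CyF4
import Pool.Agent.Lib.MP_7f377f_mp.G.CyH

/-! States and Schwinger functions with two infinite and two compact directions: interfaces. -/

noncomputable section

set_option linter.unusedSectionVars false
variable [Pool.Agent.Lib.MP_7f377f_mp.GD]

namespace Pool.Agent.Lib.MP_7f377f_mp.YM9

open MeasureTheory Filter Topology Function Real

/-- the periods of the two compact directions -/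
def L2 (m : ℝ) : Set R4 := {w | ∃ z : Z4, z 0 = 0 ∧ z 1 = 0 ∧ w = pt m z}

/-- the links of a window at positive times -/
def Wn (k : ℕ) : Set Link := {e | 0 ≤ e.1 0 ∧ e.1 0 < k ∧ |e.1 1| < k}

/-- admissible families at positive times -/
def PoL {k : ℕ} (Λ : Set R4) (f : Fin k → R4 → ℝ) : Prop :=
  AdL Λ f ∧ ∀ i, ∀ y ∈ tsupport (f i), 0 < y 0

variable [MeasurableSpace SU2]

/-- a lattice state with `n` sites in the compact directions which clusters at the rate `r` -/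
structure Stp (n : ℕ) (μ : Measure Fd) (r : ℝ) : Prop where
  prob : IsProbabilityMeasure μ
  shf : ∀ v, ∃ Θ, MeasurePreserving Θ μ μ ∧ ∀ U, pe (Θ U) = pe (shf v U)
  rfl : MeasurePreserving rfl0 μ μ
  swp : MeasurePreserving (prm (Equiv.swap 0 1)) μ μ
  per : ∀ᵐ U ∂μ, ∀ z : Z4, z 0 = 0 → z 1 = 0 → pe (YM9.shf ((n : ℤ) • z) U) = pe U
  gram : ∀ (F : Fd → ℝ) (k s : ℕ), Continuous F → DependsOn F (Wn k) →
    0 ≤ ∫ U, F (rfl0 U) * F (sht s U) ∂μ ∧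
      ∫ U, F (rfl0 U) * F (sht s U) ∂μ ≤ ∫ U, F (rfl0 U) * F U ∂μ
  clus : ∀ (F : Fd → ℝ) (k s : ℕ), Continuous F → DependsOn F (Wn k) →
    ∫ U, F (rfl0 U) * F (sht s U) ∂μ - (∫ U, F U ∂μ) ^ 2 ≤
      exp (-r * s) * ∫ U, F (rfl0 U) * F U ∂μ

/-- a family of states on the planes of side `m` with the gap `Δ` -/
structure Pln {ι : Type} (Φ : Filter ι) (m Δ : ℝ) (n : ι → ℕ) (a τ : ι → ℝ)
    (μ : ι → Measure Fd) : Prop where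
  fm : Fm Φ a τ
  pos : 0 < m
  st : ∀ᶠ p in Φ, a p * n p = m ∧ Stp (n p) (μ p) (Δ * a p)

omit [MeasurableSpace SU2]

variable (H : Type) [NormedAddCommGroup H] [InnerProductSpace ℂ H] [CompleteSpace H]

/-- `T v = exp (-v 0 * A + i v P)` with a unique vacuum, the gap `Δ` and an unbounded generator -/
def Gp2 (m Δ : ℝ) (Ω : H) (T : R4 → H →L[ℂ] H) : Prop := ‖Ω‖ = 1 ∧ T 0 = 1 ∧
  (∀ v, 0 ≤ v 0 → ‖T v‖ ≤ 1 ∧ T v Ω = Ω ∧ ∀ w, 0 ≤ w 0 → T (v + w) = T v * T w) ∧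
  (∀ x, ContinuousOn (fun v => T v x) {v | 0 ≤ v 0}) ∧
  (∀ v, v 0 = 0 → T v ∈ unitary (H →L[ℂ] H)) ∧
  (∀ z : Fin 4 → ℤ, z 0 = 0 → z 1 = 0 → T (pt m z) = 1) ∧
  (∀ t ≥ 0, (T (EuclideanSpace.single 0 t)).IsPositive ∧
    ∀ x, inner ℂ Ω x = 0 → ‖T (EuclideanSpace.single 0 t) x‖ ≤ exp (-Δ * t) * ‖x‖) ∧
  ¬∃ B : ℝ, ∀ t ≥ 0, ‖T (EuclideanSpace.single 0 t) - 1‖ ≤ B * t

/-- Osterwalder-Schrader reconstruction -/
def Ms2 (m Δ : ℝ) (S : ∀ {k : ℕ}, (Fin k → R4 → ℝ) → ℝ) : Prop :=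
  ∃ (Ψ : ∀ {k : ℕ}, (Fin k → R4 → ℝ) → H) (T : R4 → H →L[ℂ] H),
    Dense (Submodule.span ℂ {x | ∃ k, ∃ f : Fin k → R4 → ℝ, PoL (L2 m) f ∧ Ψ f = x} : Set H) ∧
    (∀ k (f : Fin k → R4 → ℝ), PoL (L2 m) f →
      (∀ l (g : Fin l → R4 → ℝ), PoL (L2 m) g →
        inner ℂ (Ψ f) (Ψ g) = S (Fin.append (fun i => theta (f i)) g)) ∧
      ∀ v, 0 ≤ v 0 → T v (Ψ f) = Ψ fun i y => f i (y - v)) ∧
    Gp2 H m Δ (Ψ ![]) T

/-- the continuum theory on the plane times the torus of side `m` -/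
def Out2 [MeasurableSpace SU2] (μ : ℕ → Measure Fd) (a : ℕ → ℝ) (m Δ : ℝ) : Prop :=
  ∃ S : ∀ {k : ℕ}, (Fin k → R4 → ℝ) → ℝ,
    (∀ k (f : Fin k → R4 → ℝ), AdL (L2 m) f →
      Tendsto (fun j => corr (μ j) (a j) f) atTop (𝓝 (S f)) ∧
      (∀ v, S (fun i y => f i (y + v)) = S f) ∧ S (fun i => theta (f i)) = S f ∧
      S (fun i y => f i (WithLp.toLp 2 (y ∘ Equiv.swap 0 1))) = S f) ∧
    (∀ k R, ∀ δ > 0, ∃ C : ℝ, ∀ (f : Fin k → R4 → ℝ) (L : Fin k → NNReal), AdL (L2 m) f →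
      (∀ i, LipschitzWith (L i) (f i) ∧ ∀ y, f i y ≠ 0 → ‖y‖ ≤ R) →
      (∀ i j, i ≠ j → ∀ x y, f i x ≠ 0 → f j y ≠ 0 → ∀ w ∈ L2 m, δ ≤ dist x (y + w)) →
      |S f| ≤ C * ∏ i, L i) ∧
    (∀ k (f : Fin k → R4 → ℝ), YM7.Adm f →
      Tendsto (fun d : ℝ => log d⁻¹ ^ k * S fun i y => f i (d⁻¹ • y)) (𝓝[>] 0)
        (𝓝 ((48 / (11 * GD.b0)) ^ k * fv f))) ∧
    ∃ (H : Type) (_ : NormedAddCommGroup H) (_ : InnerProductSpace ℂ H) (_ : CompleteSpace H),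
      Ms2 H m Δ S

end Pool.Agent.Lib.MP_7f377f_mp.YM9
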