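import Pool.Agent.Lib.MP_7f377f_mp.G.TwS0
import Pool.Agent.Lib.MP_7f377f_mp.G.TwDef
import Pool.Agent.Lib.MP_7f377f_mp.G.GapA
import Pool.Agent.Lib.MP_7f377f_mp.G.CyD2

/-! Twisted Wilson measures on `ℤ ^ 4`, arrays of reflected copies and the interfaces of the
domination by cubes. -/

noncomputable section

set_option linter.unusedSectionVars false
variable [Pool.Agent.Lib.MP_7f377f_mp.GD]

namespace Pool.Agent.Lib.MP_7f377f_mp.YM9

open MeasureTheory Filter Topology Function Real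
open RGP (BM PP)
open RG.Q4 (Zc)

/-- a central element as an element of the group -/
def zv (ζ : Zc) : SU2 := ζ.1

theorem zv_one : zv 1 = 1 := rfl

theorem zv_mul (ζ ξ : Zc) : zv (ζ * ξ) = zv ζ * zv ξ := rfl

theorem zv_inv (ζ : Zc) : zv ζ⁻¹ = (zv ζ)⁻¹ := rfl

theorem zv_comm (ζ : Zc) (g : SU2) : g * zv ζ = zv ζ * g := Subgroup.mem_center_iff.1 ζ.2 g

/-- twists, used for `μ < ν` -/
abbrev Tz : Type := Fin 4 → Fin 4 → Zc

/-- the twists `ζ` in the plane `01` and `z` in the plane `23` -/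
def tz (ζ z : Zc) : Tz := fun μ ν => if μ = 0 ∧ ν = 1 then ζ else if μ = 2 ∧ ν = 3 then z else 1

/-- the twist `z` in the plane `03` -/
def t3 (z : Zc) : Tz := fun μ ν => if μ = 0 ∧ ν = 3 then z else 1

/-- the spatial part of a twist -/
def zs (z : Tz) : Tz := fun μ ν => if μ = 0 then 1 else z μ ν

theorem zs_tz (ζ z : Zc) : zs (tz ζ z) = tz 1 z := by
  funext μ ν
  by_cases h : μ = 0 <;> simp [zs, tz, h]

theorem zs_t3 (z : Zc) : zs (t3 z) = 1 := by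
  funext μ ν
  by_cases h : μ = 0 <;> simp [zs, t3, h]

theorem zs_one : zs 1 = 1 := by
  funext μ ν
  simp [zs]

/-- the central cochain of the twist -/
def coc9 (M : Fin 4 → ℕ) (z : Tz) (e : Link) : Zc := ∏ μ, if μ < e.2 then
  z μ e.2 ^ (e.1 μ / (M μ : ℤ) * ((e.1 e.2 + 1) / (M e.2 : ℤ) - e.1 e.2 / (M e.2 : ℤ))) else 1

/-- the twisted periodic field which agrees with `U` on the box `0 ≤ x i < M i` -/
def pert (M : Fin 4 → ℕ) (z : Tz) (U : Fd) : Fd := fun e => zv (coc9 M z e) * per M U e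

theorem pert_one (M : Fin 4 → ℕ) : pert M 1 = per M := by
  funext U e
  simp [pert, coc9, zv_one]

/-- the position of the link `e` in the copy `r` of the window `w` -/
def cpy (w r : Fin 4 → ℕ) (i j : Fin 4) (x : Z4) : Z4 := fun l =>
  if Even (r l) then (r l + 1) * w l - x l - (if i = l ∨ j = l then 1 else 0) else x l + r l * w l

/-- the field seen from the copy `r`; even copies are reflected -/
def Mot (w r : Fin 4 → ℕ) (U : Fd) : Fd := fun e =>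
  if Even (r e.2) then (U (cpy w r e.2 e.2 e.1, e.2))⁻¹ else U (cpy w r e.2 e.2 e.1, e.2)

/-- the source in the copy `r` -/
def act (w r : Fin 4 → ℕ) (F : Sr) : Sr := fun x i j => F (fun l =>
  if Even (r l) then (r l + 1) * w l - x l - (if i = l ∨ j = l then 1 else 0)
  else x l - r l * w l) i j

/-- the copies -/
abbrev Cp (N : Fin 4 → ℕ) : Finset (Fin 4 → ℕ) := Fintype.piFinset fun l => Finset.range (N l)

/-- the links of the window `w` -/
def Bx9 (w : Fin 4 → ℕ) : Set Link := {e | ∀ l, 0 ≤ e.1 l ∧ e.1 l < w l}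

/-- the copy `r` in the time direction -/
def mot (w r : ℕ) (U : Fd) : Fd :=
  if Even r then rfl0 (sht ((r + 1) * w) U) else sht (r * w) U

/-- the array of `N` copies in the time direction -/
def arr (N w : ℕ) (H : Fd → ℝ) (U : Fd) : ℝ := ∏ r ∈ Finset.range N, H (mot w r U)

/-- the source samples the function within `N` lattice spacings -/
def Nq (N a : ℝ) (F : Sr) (f : R4 → ℝ) : Prop :=
  ∀ x i j, ∃ y, dist y (pt a x) ≤ N * a ∧ F x i j = f y

variable [MeasurableSpace SU2]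

/-- the state `μ` is dominated by arrays in the state `ν` -/
def Dom (μ ν : Measure Fd) (N w : Fin 4 → ℕ) (D : ℝ) : Prop :=
  ∀ H : Fd → ℝ, Continuous H → DependsOn H (Bx9 w) →
    |∫ U, H U ∂μ| ^ (∏ l, N l) ≤ D * ∫ U, ∏ r ∈ Cp N, H (Mot w r U) ∂ν

variable (h : Measure SU2) [IsProbabilityMeasure h]

/-- unnormalised expectations on a twisted torus -/
def zt (b : ℝ) (M : Fin 4 → ℕ) (z : Tz) (F : Fd → ℝ) : ℝ :=
  ∫ U, F (pert M z U) * bw b M (pert M z U) ∂PP h Link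

theorem zt_one (b : ℝ) (M : Fin 4 → ℕ) : zt h b M 1 = zz h b M := by
  funext F
  rw [zt, zz, pert_one]

/-- the Wilson measure of a twisted torus -/
def wilz (b : ℝ) (M : Fin 4 → ℕ) (z : Tz) : Measure Fd :=
  ((Measure.infinitePi fun _ => h).tilted fun U =>
    -b * ∑ x ∈ box M, dens (pert M z U) x).map (pert M z)

/-- the partition function without electric flux in the direction `1` -/
def Z0 [Fintype Zc] (b : ℝ) (n : ℕ) (z : Zc) (T R : ℕ) : ℝ :=
  (Fintype.card Zc : ℝ)⁻¹ * ∑ ζ, zt h b ![T, R, n, n] (tz ζ z) fun _ => 1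

/-- the finite size criterion -/
def Cr2 (Z : ℕ → ℕ → ℝ) (t : ℕ) : Prop := ∃ e : ℝ, ∀ T R : ℕ, T = t ∨ T = 3 * t → R = t ∨ R = 3 * t →
  |log (Z T R) - e * T * R| ≤ 1 / 10 ^ 9

/-- the vacuum state `ν` and the top eigenvalue `l` of the space `M` with the twist `zs z` -/
structure Vt (b : ℝ) (M : Fin 3 → ℕ) (z : Tz) (ν : Measure Fd) (l : ℝ) : Prop where
  pos : 0 < l
  prob : IsProbabilityMeasure ν
  lim : ∀ F : Fd → ℝ, Continuous F → Tendsto
    (fun T => ∫ U, F U ∂wilz h b (Matrix.vecCons T M) (zs z)) atTop (𝓝 (∫ U, F U ∂ν))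
  step : ∀ T s, 2 ≤ T → (zt h b (Matrix.vecCons (T + s) M) (zs z) fun _ => 1) ≤
    l ^ s * zt h b (Matrix.vecCons T M) (zs z) fun _ => 1
  low : ∀ T, 2 ≤ T → l ^ T ≤ zt h b (Matrix.vecCons T M) (zs z) fun _ => 1
  vac : ∀ (H : Fd → ℝ) (k i : ℕ), Continuous H → DependsOn H (Tm 0 (k + 1 : ℕ)) →
    (∫ U, H U ∂ν) ^ (2 * 2 ^ (i + 1)) * l ^ (2 ^ (i + 1) * (2 * k + 3)) ≤
      zt h b (Matrix.vecCons (2 ^ (i + 1) * (2 * k + 3)) M) (zs z) fun U =>
        ∏ c ∈ Finset.range (2 ^ (i + 1)), arr 2 (k + 1) H (sht (c * (2 * k + 3)) U)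

/-- the state of the plane as an iterated limit, with the comparison of the free energies -/
def Pg [Fintype Zc] (b : ℝ) (n : ℕ) (z : Zc) (t : ℕ) (μ : Measure Fd) : Prop :=
  ∃ (ν : ℕ → Measure Fd) (l : ℕ → ℝ), (∀ R, 0 < R → Vt h b ![R, n, n] (tz 1 z) (ν R) (l R)) ∧
    (∀ F : Fd → ℝ, Continuous F → Tendsto (fun R => ∫ U, F U ∂ν R) atTop (𝓝 (∫ U, F U ∂μ))) ∧
    ∀ M R j : ℕ, 100 * t ≤ M → M ≤ R → R ≤ j * M →
      Z0 h b n z (j * M) (2 * R - M) * Z0 h b n z M M ^ j ≤ 100 ^ j * l R ^ (2 * (j * M))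

/-- the free energies of all tori whose sides are odd multiples of `η` -/
def Zbd (b : ℝ) (η : ℕ) (z : Zc) (C : ℝ) : Prop := ∃ κ : ℝ, ∀ (s : Fin 4 → ℕ) (ζ : Zc),
  (∀ i, Odd (s i)) → ζ = 1 ∨ ζ = z →
    |log (zt h b (fun i => η * s i) (tz 1 ζ) fun _ => 1) - κ * (∏ i, s i : ℕ)| ≤ C * (∏ i, s i : ℕ)

/-- a family of states of planes of side `m` is dominated by cubes -/
def DomF {ι : Type} (Φ : Filter ι) (m : ℝ) (l : ι → ℕ) (a b : ι → ℝ) (μ : ι → Measure Fd) : Prop :=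
  ∀ γ > (0 : ℝ), ∀ R : ℝ, ∃ (s I : ℕ) (D : ℝ), Odd s ∧ R ≤ s ∧ 2 ^ (I + 1) * (m - γ) < s ∧ ∀ᶠ p in Φ,
    ∀ w : Fin 4 → ℕ, (∀ i, 0 < w i) → 2 * (a p * w 0) < s → 2 * (a p * w 1) < s →
      a p * w 2 ≤ m - γ → a p * w 3 ≤ m - γ →
      Dom (μ p) (cube h (b p) (s * l p)) ![2, 2, 2 ^ (I + 1), 2 ^ (I + 1)] w D

end Pool.Agent.Lib.MP_7f377f_mp.YM9
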