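import Pool.Agent.Lib.MP_7f377f_mp.G.TwJ
import Pool.Agent.Lib.MP_7f377f_mp.G.TwN
import Pool.Agent.Lib.MP_7f377f_mp.G.Q4MeasKer

/-! The partition function of one twisted torus. -/

noncomputable section

set_option linter.unusedSectionVars false
variable [Pool.Agent.Lib.MP_7f377f_mp.GD]

namespace Pool.Agent.Lib.MP_7f377f_mp.RG.Lp

open Finset Matrix MeasureTheory Q4 Ms

/-- `Top` for the torus with sides `M` -/
structure Tp (B β : ℝ) (M : Fin 4 → ℕ) (ζ z : Zc) (m : BF) (f : Conf → ℝ) : Prop where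
  meas : Measurable f
  gi : ∀ u U, (∀ x, u (rcv M x) = u x) → pcM M ζ z U = U → f (gauge Inv.inv u U) = f U
  pos : ∀ U, pcM M ζ z U = U → 0 < f U
  up : ∀ U, pcM M ζ z U = U →
    f U ≤ Real.exp (B * (domv M).card - √β * ∑ x ∈ domv M, fs U x)
  lg : ∀ U, pcM M ζ z U = U → (∀ x μ ν, fq U x μ ν ≤ B ^ 8 / √β) →
    |Real.log (f U) + β * Ph m M U| ≤ (domv M).card / B ^ 5

theorem tp_of_top {a : Fin 4 → ℕ} {ha : ∀ i, Odd (a i)} {ζ z : Zc} {t : ℕ} {B β : ℝ} {m : BF}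
    {f : Conf → ℝ} (h : @Top _ (tw a ha ζ z) B β t m f) : Tp B β (fun i => t * a i) ζ z m f :=
  letI := tw a ha ζ z
  ⟨h.meas, h.gi, h.pos, h.up, h.lg⟩

theorem ap_iff {x L η : ℝ} : (0 < x ∧ |Real.log x - L| ≤ η) ↔
    Real.exp (L - η) ≤ x ∧ x ≤ Real.exp (L + η) := by
  refine ⟨fun ⟨a, b⟩ => ?_, fun ⟨a, b⟩ => ?_⟩
  · rw [← Real.le_log_iff_exp_le a, ← Real.log_le_iff_le_exp a]
    constructor <;> linarith [abs_le.1 b]
  · have c := (Real.exp_pos _).trans_le a
    rw [← Real.le_log_iff_exp_le c] at a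
    rw [← Real.log_le_iff_le_exp c] at b
    exact ⟨c, abs_le.2 ⟨by linarith, by linarith⟩⟩

theorem fq_four {U : Conf} {δ : ℝ} (h : ∀ e, nq (U e) ≤ δ) (x : St) (μ ν : Fin 4) :
    fq U x μ ν ≤ 4 * δ := by
  have a := nq_mul (U (x, μ) * U (x + un μ, ν) * (U (x + un ν, μ))⁻¹) (U (x, ν))⁻¹
  have b := nq_mul (U (x, μ) * U (x + un μ, ν)) (U (x + un ν, μ))⁻¹
  have c := nq_mul (U (x, μ)) (U (x + un μ, ν))
  rw [nq_inv] at a b
  change nq (U (x, μ) * U (x + un μ, ν) * (U (x + un ν, μ))⁻¹ * (U (x, ν))⁻¹) ≤ _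
  linarith [h (x, μ), h (x + un μ, ν), h (x + un ν, μ), h (x, ν)]

theorem Tp.bd {B β : ℝ} {M : Fin 4 → ℕ} {ζ z : Zc} {m : BF} {f : Conf → ℝ} (h : Tp B β M ζ z m f)
    {U : Conf} (hU : pcM M ζ z U = U) : f U ≤ Real.exp (B * (domv M).card) :=
  (h.up U hU).trans (Real.exp_le_exp.2 (sub_le_self _
    (mul_nonneg (Real.sqrt_nonneg _) (sum_nonneg fun x _ => fs_nonneg U x))))

theorem meas_sm (ε : ℝ) : MeasurableSet {U : Conf | ∀ x μ ν, fq U x μ ν ≤ ε} := by
  simp only [Set.setOf_forall]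
  exact .iInter fun x => .iInter fun μ => .iInter fun ν =>
    measurableSet_le (Mx.cont_fq x μ ν).measurable measurable_const

namespace Dt

/-- the leading term of the logarithm of the partition function -/
def lead (T : Dt) (β : ℝ) (m : BF) (R : ℕ) : ℝ :=
  (domv T.M).card * (3 * Real.log cHa + 3 * GD.d / 2 * Real.log (Real.pi / β)) -
    Real.log (hm T.S m R).det / 2 + Real.log (rp T.S 1 kl).det

variable {T : Dt} {C B β ρ : ℝ} {R : ℕ} {m : BF} [Fintype Zc]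

open Classical in
/-- the small field region -/
theorem small (h : T.Ok C B β) (hq : Qm ρ R m) (hρ : ρ ^ 20 ≤ B) {f : Conf → ℝ}
    (hf : Tp B β T.M 1 T.z m f) :
    0 < ∫ v, (if ∀ x μ ν, fq (T.lt v) x μ ν ≤ B ^ 8 / √β then f (T.tU v) else 0) ∂hP _ ∧
      |Real.log (∫ v, (if ∀ x μ ν, fq (T.lt v) x μ ν ≤ B ^ 8 / √β then f (T.tU v) else 0) ∂hP _) -
        (Real.log (Fintype.card Zc) + T.lead β m R)| ≤ 3 * B⁻¹ := by
  have B1 := h.B1
  have B0 : 0 < B := by linarith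
  have β0 : 0 < β := (pow_pos B0 _).trans_le h.beta
  have s0 := Real.sqrt_pos.2 β0
  set F : T.Cn → ℝ := fun v => if ∀ x μ ν, fq (T.lt v) x μ ν ≤ B ^ 8 / √β then f (T.tU v) else 0
    with hF
  have mF : Measurable F := .ite (T.cont_lt.measurable (meas_sm _))
    (hf.meas.comp T.cont_tU.measurable) measurable_const
  have nn : ∀ v, 0 ≤ F v := fun v => by
    simp only [hF]
    split_ifs
    exacts [(hf.pos _ (T.pc_tU v)).le, le_rfl]
  have bd : ∀ v, |F v| ≤ Real.exp (B * (domv T.M).card) := fun v => by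
    rw [abs_of_nonneg (nn v)]
    simp only [hF]
    split_ifs
    exacts [hf.bd (T.pc_tU v), (Real.exp_pos _).le]
  have gi : ∀ g v, F (T.ac 1 g v) = F v := fun g v => by
    simp only [hF, lt_ac, Mx.fq_gauge, tU_ac]
    rw [hf.gi _ _ (fun x => by simp only [rX, rcv_eq T.odd (rcv_mem T.odd x)]) (T.pc_tU v)]
  have η1 : ((domv T.M).card : ℝ) / B ^ 5 ≤ B⁻¹ := by
    rw [div_le_iff₀ (by positivity)]
    exact h.vol.trans_eq (by field_simp)
  have lg1 : ∀ v, (∀ x μ ν, fq (T.lt v) x μ ν ≤ B ^ 8 / √β) →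
      Real.exp (-(β * Ph m T.M (T.lt v)) - B⁻¹) ≤ F v ∧
        F v ≤ Real.exp (-(β * Ph m T.M (T.lt v)) + B⁻¹) := fun v hv => by
    have a := hf.lg _ (T.pc_tU v) (by simpa only [tU, Mx.fq_gauge] using hv)
    rw [tU, Ph_gauge hq.rng] at a
    simp only [hF, if_pos hv]
    exact ap_iff.1 ⟨hf.pos _ (T.pc_tU v), by rw [sub_neg_eq_add]; exact a.trans η1⟩
  have J := fun c : Zc × Zc => ap_iff.1 (lapJ h hq hρ (F := fun v => F (T.ac c 1 v))
    (mF.comp (T.mp_ac c 1).measurable) (fun v => nn _) (η := B⁻¹) (fun v => by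
      by_cases hv : ∀ x μ ν, fq (T.lt (T.ac c 1 v)) x μ ν ≤ B ^ 8 / √β
      · have := (lg1 _ hv).2
        rwa [lt_ac, Ph_gauge hq.rng, neg_add_eq_sub] at this
      · simp only [hF, if_neg hv]
        exact (Real.exp_pos _).le) fun v hv => by
      have := (lg1 (T.ac c 1 v) fun x μ ν => by
        rw [lt_ac, Mx.fq_gauge]
        refine (fq_four (fun e => (T.nq_lt v e).trans_le (hv _)) x μ ν).trans ?_
        rw [← mul_div_assoc]
        exact div_le_div_of_nonneg_right (by nlinarith [pow_pos B0 7]) s0.le).1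
      rwa [lt_ac, Ph_gauge hq.rng, show ∀ a b : ℝ, -a - b = -b - a from fun a b => by ring] at this)
  have e := T.fp β0.le (δ := B ^ 20 / √β) mF bd gi
  set LJ := Fintype.card (Fin 4 × domv T.M) * Real.log cHa + lg β (hm T.S m R)
  set LN := Real.log (Fintype.card Zc) + Fintype.card (Unit × domv T.M) * Real.log cHa +
    lg β ((Dm T.S)ᵀ * Dm T.S * ((Dm T.S)ᵀ * Dm T.S)) with hLN
  have N : ∀ v, F v * Real.exp (LN - B⁻¹) ≤ F v * T.Nw β (B ^ 20 / √β) v ∧
      F v * T.Nw β (B ^ 20 / √β) v ≤ F v * Real.exp (LN + B⁻¹) := fun v => by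
    by_cases hv : ∀ x μ ν, fq (T.lt v) x μ ν ≤ B ^ 8 / √β
    · obtain ⟨c, g, hc⟩ := near_vac h hv
      have := ap_iff.1 (lapN h (v := T.ac c g v) fun p => (hc p).trans_eq (by ring))
      rw [Nw_ac] at this
      exact ⟨mul_le_mul_of_nonneg_left this.1 (nn v), mul_le_mul_of_nonneg_left this.2 (nn v)⟩
    · simp [hF, if_neg hv]
  have iF : Integrable F (hP _) := .of_bound mF.aestronglyMeasurable _ (.of_forall bd)
  have iN : Integrable (fun v => F v * T.Nw β (B ^ 20 / √β) v) (hP _) :=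
    iF.mul_bdd T.meas_Nw.aestronglyMeasurable (.of_forall fun v => by
      rw [Real.norm_of_nonneg (T.Nw_bd β0.le v).1]
      exact (T.Nw_bd β0.le v).2)
  have n1 := integral_mono (iF.mul_const _) iN fun v => (N v).1
  have n2 := integral_mono iN (iF.mul_const _) fun v => (N v).2
  rw [integral_mul_const, e] at n1 n2
  have j1 := sum_le_sum fun c (_ : c ∈ univ) => (J c).1
  have j2 := sum_le_sum fun c (_ : c ∈ univ) => (J c).2
  have z0 : (0 : ℝ) < Fintype.card Zc := Nat.cast_pos.2 Fintype.card_pos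
  have ez : (Fintype.card (Zc × Zc) : ℝ) = Real.exp (2 * Real.log (Fintype.card Zc)) := by
    rw [two_mul, Real.exp_add, Real.exp_log z0, Fintype.card_prod, Nat.cast_mul]
  rw [sum_const, card_univ, nsmul_eq_mul, ez, ← Real.exp_add] at j1 j2
  have el : Real.log (Fintype.card Zc) + T.lead β m R =
      2 * Real.log (Fintype.card Zc) + LJ - LN := by
    simp only [hLN, LJ, lead, lg, rp_kl T.orp_S, Fintype.card_prod,
      Fintype.card_coe, Fintype.card_fin, Fintype.card_unit]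
    rw [det_mul ((Dm T.S)ᵀ * Dm T.S), ← sq, Real.log_pow]
    push_cast
    ring
  rw [ap_iff, el]
  constructor
  · refine le_of_mul_le_mul_right (le_trans (le_of_eq ?_) (j1.trans n2)) (Real.exp_pos _)
    rw [← Real.exp_add]
    congr 1
    ring
  · refine le_of_mul_le_mul_right ((n1.trans j2).trans_eq ?_) (Real.exp_pos _)
    rw [← Real.exp_add]
    congr 1
    ring

theorem lead_ge (h : T.Ok C B β) (hq : Qm ρ R m) (hρ : ρ ^ 20 ≤ B) (hβ : Real.log β ≤ B)
    (hc : |Real.log cHa| ≤ B) : -B ^ 6 ≤ T.lead β m R := by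
  have B1 := h.B1
  have B0 : 0 < B := by linarith
  have β0 : 0 < β := (pow_pos B0 _).trans_le h.beta
  have ρ1 : 1 ≤ ρ := le_trans (by exact_mod_cast hq.R1) hq.Rρ
  have a1 := ((sb_hm T.orp_S hq h.pc B0).det (by positivity)).2.2
  have a2 := ((sb_lap T.orp_S h.pc B0).det (by positivity)).2.1
  have a3 : Real.log (100 * ρ ^ 5) ≤ 100 * B := (Real.log_le_self (by positivity)).trans
    (by linarith [pow_le_pow_right₀ ρ1 (show 5 ≤ 20 by norm_num)])
  have a4 : -B ≤ Real.log B⁻¹ := by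
    rw [Real.log_inv]
    linarith [Real.log_le_self B0.le]
  have a5 : -B ≤ Real.log (Real.pi / β) := by
    rw [Real.log_div Real.pi_ne_zero β0.ne']
    linarith [Real.log_nonneg (show 1 ≤ Real.pi by linarith [Real.pi_gt_three])]
  have d3 : (3 : ℝ) ≤ GD.d := by exact_mod_cast GD.d3
  have dB : 300 * (GD.d : ℝ) ≤ B := by
    nlinarith [GD.d_le, h.big, mul_le_mul_of_nonneg_right (one_le_pow₀ h.rig.one (n := 2)) GD.cG_pos.le]
  simp only [Fintype.card_prod, Fintype.card_coe, Fintype.card_fin, Fintype.card_unit,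
    Nat.cast_mul, Nat.cast_one, Nat.cast_ofNat] at a1 a2
  rw [lead, rp_kl T.orp_S]
  have v0 : (0 : ℝ) ≤ (domv T.M).card := Nat.cast_nonneg _
  have hv := h.vol
  generalize ((domv T.M).card : ℝ) = v at *
  have vd : 0 ≤ v * GD.d := by positivity
  have b1 := mul_le_mul_of_nonneg_left a3 vd
  have b2 := mul_le_mul_of_nonneg_left a4 vd
  have b3 := mul_le_mul_of_nonneg_left a5 vd
  have b4 := mul_le_mul_of_nonneg_left (abs_le.1 hc).1 v0
  have b5 : v * (300 * GD.d) * B ≤ B ^ 4 * B * B := by gcongr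
  have b6 := mul_le_mul_of_nonneg_left d3 (mul_nonneg v0 B0.le)
  nlinarith

/-- the partition function of electric flux zero -/
theorem flux0 (h : T.Ok C B β) (hq : Qm ρ R m) (hρ : ρ ^ 20 ≤ B) (hβ : Real.log β ≤ B)
    (hc : |Real.log cHa| ≤ B) {f : Zc → Conf → ℝ} (hf : ∀ ζ, Tp B β T.M ζ T.z m (f ζ)) :
    |Real.log ((Fintype.card Zc : ℝ)⁻¹ * ∑ ζ, ∫ U, f ζ (pcM T.M ζ T.z U) ∂PP) - T.lead β m R| ≤
      4 * B⁻¹ := by
  classical
  have B1 := h.B1
  have B0 : 0 < B := by linarith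
  have β0 : 0 < β := (pow_pos B0 _).trans_le h.beta
  have s0 := Real.sqrt_pos.2 β0
  have sB : B ^ 6 * (B ^ 8 / √β) ≤ 1 := by
    rw [← mul_div_assoc, div_le_one s0, ← pow_add]
    exact Real.le_sqrt_of_sq_le (le_trans (by
      rw [← pow_mul]
      exact pow_le_pow_right₀ (by linarith) (by norm_num)) h.beta)
  set g : Zc → Conf → ℝ := fun ζ U => if ∀ x μ ν, fq U x μ ν ≤ B ^ 8 / √β then f ζ U else 0 with hg
  have mp : ∀ ζ, Measurable (pcM T.M ζ T.z) := fun ζ =>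
    (continuous_pi fun e => continuous_const.mul (continuous_apply _)).measurable
  have mg : ∀ ζ, Measurable (g ζ) := fun ζ => .ite (meas_sm _) (hf ζ).meas measurable_const
  have k : ∀ ζ U, pcM T.M ζ T.z U = U → 0 ≤ g ζ U ∧ g ζ U ≤ f ζ U ∧
      f ζ U ≤ g ζ U + Real.exp (B ^ 5 - B ^ 8) := fun ζ U hU => by
    have p := (hf ζ).pos U hU
    simp only [hg]
    split_ifs with a
    · exact ⟨p.le, le_rfl, le_add_of_nonneg_right (Real.exp_pos _).le⟩
    refine ⟨le_rfl, p.le, ((hf ζ).up U hU).trans ?_⟩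
    push Not at a
    obtain ⟨x, μ, ν, a⟩ := a
    have b := ((a.le.trans_eq (fq_per T.odd hU x μ ν).symm).trans (fq_le_fs _ _ _ _)).trans
      (single_le_sum (fun y _ => fs_nonneg U y) (rcv_mem T.odd x))
    rw [div_le_iff₀' s0] at b
    rw [zero_add, Real.exp_le_exp]
    nlinarith [mul_le_mul_of_nonneg_left h.vol B0.le]
  have k' := fun ζ U => k ζ _ (pcM_pcM T.odd ζ T.z U)
  have i1 : ∀ ζ, Integrable (fun U => f ζ (pcM T.M ζ T.z U)) PP := fun ζ =>
    .of_bound ((hf ζ).meas.comp (mp ζ)).aestronglyMeasurable _ (.of_forall fun U => by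
      rw [Real.norm_of_nonneg ((k' ζ U).1.trans (k' ζ U).2.1)]
      exact (hf ζ).bd (pcM_pcM T.odd ζ T.z U))
  have i2 : ∀ ζ, Integrable (fun U => g ζ (pcM T.M ζ T.z U)) PP := fun ζ =>
    (i1 ζ).mono' ((mg ζ).comp (mp ζ)).aestronglyMeasurable (.of_forall fun U => by
      rw [Real.norm_of_nonneg (k' ζ U).1]
      exact (k' ζ U).2.1)
  have l1 := sum_le_sum fun ζ (_ : ζ ∈ univ) => integral_mono (i2 ζ) (i1 ζ) fun U => (k' ζ U).2.1
  have l2 := sum_le_sum fun ζ (_ : ζ ∈ univ) => (integral_mono (i1 ζ)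
    ((i2 ζ).add (integrable_const _)) fun U => (k' ζ U).2.2).trans_eq
      (integral_add (i2 ζ) (integrable_const _))
  have e : ∑ ζ, ∫ U, g ζ (pcM T.M ζ T.z U) ∂PP =
      ∫ v, (if ∀ x μ ν, fq (T.lt v) x μ ν ≤ B ^ 8 / √β then f 1 (T.tU v) else 0) ∂hP _ := by
    rw [sum_eq_single 1 (fun ζ _ hζ => ?_) (by simp), T.int_tU (mg 1)]
    · simp only [hg, tU, Mx.fq_gauge]
    · simp only [hg, if_neg fun a => hζ (zeta_one h (pcM_pcM T.odd ζ T.z _) a sB), integral_zero]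
  have s := ap_iff.1 (small h hq hρ (hf 1))
  have z0 : (0 : ℝ) < Fintype.card Zc := Nat.cast_pos.2 Fintype.card_pos
  rw [sum_add_distrib, e] at l2
  rw [e] at l1
  simp only [integral_const, probReal_univ, one_smul, sum_const, card_univ, nsmul_eq_mul] at l2
  rw [add_sub_assoc, add_assoc, Real.exp_add, Real.exp_add, Real.exp_log z0] at s
  have b0 := inv_pos.2 B0
  have E : Real.exp (B ^ 5 - B ^ 8) ≤ Real.exp (T.lead β m R + 3 * B⁻¹) * B⁻¹ := by
    rw [← Real.exp_log b0, ← Real.exp_add, Real.exp_log b0, Real.exp_le_exp, Real.log_inv]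
    have := lead_ge h hq hρ hβ hc
    have := Real.log_le_self B0.le
    have c1 := pow_le_pow_right₀ (show 1 ≤ B by linarith) (show 1 ≤ 7 by norm_num)
    have c5 := pow_le_pow_right₀ (show 1 ≤ B by linarith) (show 5 ≤ 7 by norm_num)
    have c6 := pow_le_pow_right₀ (show 1 ≤ B by linarith) (show 6 ≤ 7 by norm_num)
    nlinarith [pow_pos B0 7]
  refine (ap_iff.2 ⟨?_, ?_⟩).2
  · rw [le_inv_mul_iff₀ z0]
    refine le_trans (mul_le_mul_of_nonneg_left (Real.exp_le_exp.2 ?_) z0.le) (s.1.trans l1)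
    linarith
  · rw [inv_mul_le_iff₀ z0]
    refine (l2.trans (add_le_add s.2 (mul_le_mul_of_nonneg_left E z0.le))).trans ?_
    rw [← mul_add, show T.lead β m R + 4 * B⁻¹ = T.lead β m R + 3 * B⁻¹ + B⁻¹ by ring,
      Real.exp_add _ B⁻¹]
    nlinarith [mul_le_mul_of_nonneg_left (Real.add_one_le_exp B⁻¹)
      (mul_pos z0 (Real.exp_pos (T.lead β m R + 3 * B⁻¹))).le]

end Dt

end Pool.Agent.Lib.MP_7f377f_mp.RG.Lp
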