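import Pool.Agent.Lib.MP_7f377f_mp.G.TwVar
import Pool.Agent.Lib.MP_7f377f_mp.G.Q4Tor

/-! Locality of one step in a box which is small compared to the torus. -/

noncomputable section

set_option linter.unusedSectionVars false
variable [Pool.Agent.Lib.MP_7f377f_mp.GD]

namespace Pool.Agent.Lib.MP_7f377f_mp.RG.Q4

open Finset MeasureTheory
open scoped Classical Pointwise

attribute [local irreducible] box lbox tb tau rc

/-- an activity reads only the links based in its polymer -/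
theorem KM.loc {p : Pa} {n : ℕ} {k : Mj} {K : Ac} (hK : KM p n k K) {X : Finset St} {U U' : Conf}
    (e : ∀ b : Lk, b.1 ∈ X → U b = U' b) (c : Finset (Finset St)) : K X c U = K X c U' := by
  rw [← hK.per X c U, ← hK.per X c U']
  exact hK.dep X c fun b hb => e (rc n b.1, b.2) hb.1

namespace Tor

section det

open Loc

variable {M M' : Fin 4 → ℕ} {l R D ρ N : ℕ} {y : St} {X : Finset St} {G G' : Fld →ₗ[ℂ] Fld}

theorem pd_vec (hM : ∀ i, Odd (M i)) (h : box R ⊆ domv M) {f g : Lk} (hf : yo l f.1 ∈ box R)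
    (hg : yo l g.1 ∈ box R) (b : C3) : pd (fi l M) g b f = if f = g then b else 0 := by
  refine if_congr ⟨fun e => Prod.ext (dom_inj (odd_fi hM l) ((mem_fine hM).2 (h hf))
    ((mem_fine hM).2 (h hg)) e.1) e.2, fun e => ?_⟩ rfl rfl
  rw [e, sub_self]
  exact ⟨dv_zero, rfl⟩

/-- the indices of the small torus as indices of the large torus -/
def ixv (l : ℕ) (h : domv M ⊆ domv M') (i : IX M l) : IX M' l := (⟨i.1, h i.1.2⟩, i.2)

theorem mat_vec (hM : ∀ i, Odd (M i)) (hM' : ∀ i, Odd (M' i)) (h' : domv M ⊆ domv M')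
    (h : box (ρ + R) ⊆ domv M) (hG : RnG l ρ G) {i j : IX M l} (hi : bk i ∈ box R)
    (hj : bk j ∈ box R) : mat M' l G (ixv l h' i) (ixv l h' j) = mat M l G i j := by
  have b := hG (bk i) (Loc.bv (ixv l h' j) - Loc.bv j) (fun f hf => ?_) _ i.2.1.2
  · rw [map_sub] at b
    exact sub_eq_zero.1 (congrFun b i.2.2)
  have c1 : yo l (f.1 + up l (bk i), f.2).1 ∈ box (ρ + R) := by
    rw [yo_add_up]
    exact add_mem_box (Op.mem_fb.1 (mem_lbox.1 hf)) hi
  have c2 : yo l (lk j).1 ∈ box (ρ + R) := by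
    rw [yo_lk]
    exact box_mono (by omega) hj
  exact sub_eq_zero.2 ((pd_vec hM' (h.trans h') c1 c2 _).trans (pd_vec hM h c1 c2 _).symm)

theorem blv_box (hM : ∀ i, Odd (M i)) (h : box (R + D) ⊆ domv M) (hy : y ∈ box R) {z : St} :
    z ∈ blv M D y ↔ ∃ v ∈ box D, y + v = z := by
  rw [mem_blv]
  exact exists_congr fun v => and_congr_right fun hv => by rw [rcv_eq hM (h (add_mem_box hy hv))]

theorem qG_vec (hM : ∀ i, Odd (M i)) (hM' : ∀ i, Odd (M' i)) (h' : domv M ⊆ domv M')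
    (h : box (ρ + (R + D)) ⊆ domv M) (hG : RnG l ρ G) (hX : X ⊆ box R) :
    qG M' l D N G X = qG M l D N G X := by
  have b : box (R + D) ⊆ domv M := fun _ hx => h (box_mono (by omega) hx)
  have a : ∀ y ∈ X, blv M D y ⊆ box (R + D) := fun y hy z hz => by
    obtain ⟨v, hv, rfl⟩ := (blv_box hM b (hX hy)).1 hz
    exact add_mem_box (hX hy) hv
  have r : ∀ j : IX M' l, bk j ∈ box (R + D) → j ∈ Set.range (ixv l h') :=
    fun j hj => ⟨(⟨bk j, b hj⟩, j.2), rfl⟩
  unfold qG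
  refine Qd_inj (π := bk) (π' := bk) (B := blv M D) (B' := blv M' D) (M := mat M l G)
    (M' := mat M' l G) (S := X) (e := ixv l h') (fun _ _ e => Prod.ext (Subtype.ext
      (congrArg (bk (n := M')) e :)) (congrArg Prod.snd e :)) (fun _ => rfl)
    (fun y hy => ?_) (fun y hy j hj => ?_) (fun y hy i j hi hj => ?_) N
  · ext z
    rw [blv_box hM b (hX hy), blv_box hM' (b.trans h') (hX hy)]
  · rcases hj with hj | hj
    · exact r j (box_mono (by omega) (hX (hj.symm ▸ hy)))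
    · exact r j (a y hy hj)
  · exact mat_vec hM hM' h' h hG (a y hy hi) (a y hy hj)

theorem qG_row (hM : ∀ i, Odd (M i)) (h : box (R + D) ⊆ domv M) (hX : X ⊆ box R)
    (e : ∀ x ∈ box (R + D), ∀ A, ∀ t ∈ lbox l, sh (up l x) (G A) t = sh (up l x) (G' A) t) :
    qG M l D N G X = qG M l D N G' X :=
  Qd_congr (fun y hy i j hi _ => by
    obtain ⟨v, hv, e1⟩ := (blv_box hM h (hX hy)).1 hi
    exact congrFun (e (bk i) (e1 ▸ add_mem_box (hX hy) hv) (Loc.bv j) _ i.2.1.2) _) N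

/-- the determinant marks do not depend on the torus -/
theorem qG_two (hM : ∀ i, Odd (M i)) (hM' : ∀ i, Odd (M' i)) (h : box (ρ + (R + D)) ⊆ domv M)
    (h' : box (ρ + (R + D)) ⊆ domv M') (hG : RnG l ρ G) (hX : X ⊆ box R) :
    qG M l D N G X = qG M' l D N G X := by
  have o : ∀ _ : Fin 4, Odd (2 * (ρ + (R + D)) + 1) := fun _ => ⟨_, rfl⟩
  have e : (2 * (ρ + (R + D)) + 1) / 2 = ρ + (R + D) := by omega
  have b : box (ρ + (R + D)) ⊆ domv (cu (2 * (ρ + (R + D)) + 1)) := fun _ hx =>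
    mem_cu.2 (e.symm ▸ hx)
  rw [qG_vec o hM (fun _ hx => h (e ▸ mem_cu.1 hx)) b hG hX,
    qG_vec o hM' (fun _ hx => h' (e ▸ mem_cu.1 hx)) b hG hX]

end det

variable {S : Sd} {P : ℝ} {R : ℕ} {k : Mj} {ψ : Lx} {K : Ac} {W W' : Conf} {v v' : VB}
  {O : Finset Ob} {y : St} {Y : Finset St}

theorem dmK_two (u : S.Nu 0) {M M' : Fin 4 → ℕ} (hM : ∀ i, Odd (M i)) (hM' : ∀ i, Odd (M' i))
    (h : box (R + S.D0) ⊆ domv M) (h' : box (R + S.D0) ⊆ domv M') (hY : Y ⊆ box R) (H : Set St)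
    (ka : St → Kf) : dmK M S.l S.Λ S.N H ka Y = dmK M' S.l S.Λ S.N H ka Y := by
  have l := u.lens
  exact congrArg (fun z => Complex.exp z - 1) (qG_two hM hM'
    (fun _ hx => h (box_mono (by omega) hx)) (fun _ hx => h' (box_mono (by omega) hx)) rn_topK hY)

section box

variable (h : S.Fo P) (big : 2 * (R + 20 * S.D0) < S.n) (eW : Agr (R + 8 * S.D0) W W')
include eW

theorem ag6 (hy : y ∈ box R) : Agr (6 * S.D0) (sh y W) (sh y W') := JS.agr_sh eW hy (by omega)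

theorem chi_box (hy : y ∈ box R) : chi S.p' W y = chi S.p' W' y := by
  have := Sd.D1 S.toTd
  exact if_congr (fq_agr_iff ((ag6 eW hy).mono (by rw [Sd.p'_R]; omega))) rfl rfl

theorem dd_box (hy : y ∈ box R) :
    ∀ x ∈ box (4 * S.D0), ∀ μ ν, dd (Bx y (cC W)) x μ ν = dd (Bx y (cC W')) x μ ν := by
  have := Sd.D1 S.toTd
  exact Fx.dd_Bx (agr_cC ((ag6 eW hy).mono (by omega)))

theorem fs_box (hy : y ∈ box R) : fs W y = fs W' y :=
  sum_congr rfl fun μ _ => sum_congr rfl fun ν _ => by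
    have := Sd.D1 S.toTd
    have := Mx.fq_agr (ag6 eW hy) (zero_mem_box _) (μ := μ) (ν := ν) (box_mono (by omega)
      (add_un_mem_box (add_un_mem_box (zero_mem_box 0) μ) ν))
    simpa only [Mx.fq_sh, zero_add] using this

include h big in
theorem dZ_box (hY : Y ⊆ box R) : S.dZ W Y = S.dZ W' Y := by
  have l := h.nu.lens
  have r := h.rA
  have p := S.p'_R
  refine congrArg (fun z => Complex.exp z - 1) (qG_row (fun _ => h.nu.ok.odd)
    (fun _ hx => mem_cu.2 (box_mono (by omega) hx)) hY fun x hx => topK_row ?_ fun u hu _ => ?_)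
  · rw [← Sd.H_sh, ← Sd.H_sh]
    exact Sd.H_agr (JS.agr_sh eW hx (by omega))
  · exact Td.ka_kc h.ok (agr_cC (eW.mono (by omega))) (add_mem_box hu hx)

variable (hO : O ⊆ S.obs) (hY : us S.sp O ⊆ box R)
include hO hY

theorem lab_box : S.lab W O = S.lab W' O :=
  filter_congr fun Z hZ => not_congr (and_congr_right fun _ => forall₂_congr fun y hy => by
    rw [fs_box eW (hY (Xp.Oh_sp hO (tb_mono subset_union_left (by omega)
      (zones_union ▸ mem_biUnion.2 ⟨Z, hZ, hy⟩))))])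

include h

omit eW in
theorem bs_box {o : Ob} (ho : o ∈ O) : S.bs o ⊆ box R :=
  (bs_sp h.nu.ok.odd (hO ho)).trans ((sp_sub_us _ ho).trans hY)

theorem wf_box : S.wf W O = S.wf W' O := by
  rw [Sd.wf, Sd.wf, ← lab_box eW hO hY, prod_congr rfl fun y hy => by
    rw [chi_box eW (bs_box h hO hY (Xp.mem_Wk.1 hy) (mem_singleton_self y))],
    prod_congr (s₂ := _ \ Wk O) rfl fun y hy =>
      chi_box eW (hY (Xp.Oh_sp hO (Xp.lab_sub (mem_sdiff.1 hy).1)))]

variable (hI : Fx.IxL S.p (S.Φ ψ)) (hK : KM S.p S.nf k K)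
include big hI hK

theorem FO_box (ev : ∀ x ∈ box (R + 2 * S.D0), v x = v' x) :
    S.FO ψ K W O v = S.FO ψ K W' O v' := by
  have l := h.nu.lens
  have r := h.rA
  have p := S.p'_R
  have hn := h.nu.ok.odd
  have e0 : ∀ y ∈ us S.sp O, v y = v' y := fun y hy => ev y (box_mono (by omega) (hY hy))
  by_cases hb : ∃ y ∈ us S.sp O, (v y).2.1 ∉ box S.l
  · obtain ⟨y, hy, hb⟩ := hb
    rw [Fx.FO_zero hy hb, Fx.FO_zero hy (e0 y hy ▸ hb)]
  push Not at hb
  have av : ∀ y ∈ box R, ∀ u ∈ box (2 * S.D0), shv y v u = shv y v' u := fun y hy u hu =>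
    ev _ (add_comm R _ ▸ add_mem_box hu hy)
  have e1 : ∀ o ∈ olds O, K o.1 o.2 (S.Uv W v) = K o.1 o.2 (S.Uv W' v') := fun o ho =>
    hK.loc (fun b hb => Sd.Uv_agr h.ok h.rA (a := R) (eW.mono (by omega))
      (fun y hy => ev y (box_mono (by omega) hy)) b (mem_lbox.2 (dn_sub hn
        (Sd.nf_half hn ▸ (mem_lps.1 (Xp.olds_sub hO ho)).1)
        (bs_box h hO hY (Xp.mem_olds.1 ho)) hb))) _
  have e2 : ∀ y ∈ S.Oh O, S.hf ψ K W v O y = S.hf ψ K W' v' O y := fun y hy => by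
    have c := hY (Xp.Oh_sp hO hy)
    have hb' : ∀ u ∈ box 1, (shv y v u).2.1 ∈ box S.l := fun u hu => hb _ (by
      rw [← rc_box hn (by omega) (add_mem_box hu c)]
      exact (Fx.cl_Oh hO hy).mem (box_mono (by omega) hu))
    have eU : Agr (fb S.l S.D0) (sh (up S.l y) (S.Uv W v)) (sh (up S.l y) (S.Uv W' v')) := by
      rw [← Sd.Uv_sh, ← Sd.Uv_sh]
      exact Fx.Uv_agr h (ag6 eW c) (av y c)
    rw [Sd.hf, Sd.hf, Fx.Gn_agr h (ag6 eW c) (av y c) (hb' 0 (zero_mem_box _))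
      (fun μ => hb' _ (un_mem_box μ)), Fx.Ib_agr h hI _ eU, lab_box eW hO hY,
      Fx.Φ'_loc (dd_box eW c) h (Bx_real _ _) (Bx_real _ _)]
  have e3 : ∀ m ∈ O.toRight, S.jm ψ K W v (S.Oh O) m = S.jm ψ K W' v' (S.Oh O) m := fun m hm => by
    have hm := mem_toRight.1 hm
    have a := bs_box h hO hY hm
    rcases m with y | q | q | Z
    · have c := a (mem_singleton_self y)
      refine if_congr Iff.rfl rfl (Fx.fm_agr h (agr_cC ((ag6 eW c).mono (by omega))) ?_ ?_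
        (Bx_real _ (sh y W)) (Bx_real _ (sh y W')))
      · rw [← Sd.vz_shv, ← Sd.vz_shv]
        exact agr_vz0 (av y c)
      · rw [← Bx_eq, ← Bx_eq]
        exact dd_box eW c
    · rfl
    · have c := a (Fx.smk_bs (hO hm))
      have d := hO hm
      simp only [Sd.obs, Sd.mks, inl_mem_disjSum, inr_mem_disjSum, mem_product] at d
      rw [rc_eq hn d.1] at c
      rw [Sd.jm, Sd.jm, Fx.Fs_loc (dd_box eW c) (Bx_real _ _) (Bx_real _ _)]
    · exact dZ_box h big eW a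
  rw [Sd.FO, Sd.FO, prod_congr rfl e1, prod_congr rfl e2, prod_congr rfl e3,
    prod_congr (s₂ := us S.sp O) rfl fun y hy => by rw [Sd.df, e0 y hy, ← Sd.df]]

end box

/-- the weight, computed with twisted variables -/
theorem wO_box (d : Fx.Dt S ψ K) (big : 2 * (R + 20 * S.D0) < S.n)
    (eW : Agr (R + 8 * S.D0) W W') (hO : O ⊆ S.obs) (hY : us S.sp O ⊆ box R)
    (hK : KM S.p S.nf k K) {τ : VB → VB}
    (hτ : ∀ v, ∀ x ∈ box (R + 2 * S.D0), τ v x = mW S.l W v x) :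
    S.wf W O * ∫ v, S.FO ψ K W O (τ v) ∂PB S.l (nu S.zm) = S.wO ψ K W' O := by
  have := nu_prob (S.Q0.trans_le d.fo.nu.ok.ζ_zm)
  rw [Sd.wO, wf_box d.fo eW hO hY, ← int_mW (l := S.l) _ W
    (d.FO hO measurable_const (Mx.meas_pcs _))]
  exact congrArg _ (integral_congr_ae (.of_forall fun v => FO_box d.fo big eW hO hY d.ix hK
    fun x hx => (hτ v x hx).trans (congrArg _ (rc_box d.fo.nu.ok.odd (by omega) hx).symm)))

end Tor

end Pool.Agent.Lib.MP_7f377f_mp.RG.Q4
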