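import Pool.Agent.Lib.MP_7f377f_mp.G.TwD2
import Pool.Agent.Lib.MP_7f377f_mp.G.TwD4
import Pool.Agent.Lib.MP_7f377f_mp.G.TwD5
import Pool.Agent.Lib.MP_7f377f_mp.G.TwD6
import Pool.Agent.Lib.MP_7f377f_mp.G.TwC2
import Pool.Agent.Lib.MP_7f377f_mp.G.TwE
import Pool.Agent.Lib.MP_7f377f_mp.G.TwRun

/-! The theory on the plane times a small twisted torus. -/

noncomputable section

set_option linter.unusedSectionVars false
variable [Pool.Agent.Lib.MP_7f377f_mp.GD]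

namespace Pool.Agent.Lib.MP_7f377f_mp.YM9

open MeasureTheory Filter Topology Function Real
open RG.Q4 RG.Q4.En

variable [MeasurableSpace SU2] [BorelSpace SU2] (h : Measure SU2) [h.IsHaarMeasure]
  [IsProbabilityMeasure h]

/-- the state is the limit of the states of long twisted tori -/
def Itl (b : ℝ) (n : ℕ) (z : Zc) (μ : Measure Fd) : Prop := IsProbabilityMeasure μ ∧
  ∃ ν : ℕ → Measure Fd, (∀ R, 0 < R → IsProbabilityMeasure (ν R) ∧ ∀ F : Fd → ℝ, Continuous F →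
    Tendsto (fun T => ∫ U, F U ∂wilz h b ![T, R, n, n] (tz 1 z)) atTop (𝓝 (∫ U, F U ∂ν R))) ∧
    ∀ F : Fd → ℝ, Continuous F → Tendsto (fun R => ∫ U, F U ∂ν R) atTop (𝓝 (∫ U, F U ∂μ))

theorem out_plane [Finite Zc] {z : Zc} {P Q : RG.S3} (hz : Iso z P Q) :
    ∃ (e : ℕ → ℕ) (b : ℕ → ℝ) (s0 : ℕ), Tendsto e atTop atTop ∧
      Tendsto (fun j => b j / log (3 ^ e j)) atTop (𝓝 (11 * GD.b0 / (48 * π ^ 2))) ∧
      ∀ s ≥ s0, ∃ Δ > (0 : ℝ), ∃ μ : ℕ → Measure Fd,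
        (∀ᶠ j in atTop, Itl h (b j) (3 ^ (e j - s)) z (μ j)) ∧
        Out2 μ (fun j => (3 ^ e j)⁻¹) (3 ^ s)⁻¹ Δ := by
  have := Fintype.ofFinite Zc
  obtain ⟨G, b, o, -, hβ, E, hR⟩ := out_tw h
  have he : StrictMono G.e := (o 0).1.sch.mono
  obtain ⟨a1, a2, a3⟩ := o.lims hβ (pure 0)
  rw [pure_prod, tendsto_map'_iff] at a1 a2 a3
  have hF : Fm atTop (fun J => (3 ^ G.e J : ℝ)⁻¹) fun J => 4 * ta (0, J) :=
    ⟨a1, (a3.const_mul_atTop four_pos).congr fun p => (mul_div_assoc ..).symm⟩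
  have b0 : ∀ J, 0 ≤ b J := fun J => (hβ (0, J)).b0
  have hl : ∀ J, (3 ^ G.e J : ℝ)⁻¹ * (3 ^ G.e J : ℕ) = 1 := fun J => by
    rw [Nat.cast_pow, Nat.cast_ofNat, inv_mul_cancel₀ (by positivity)]
  have hc : ∀ s : ℕ, Odd s → Bd (Lt s) atTop (fun J => cube h (b J) (s * 3 ^ G.e J))
      (fun J => cube h (b J) (s * 3 ^ G.e J)) (fun J => (3 ^ G.e J : ℝ)⁻¹) (fun J => 4 * ta (0, J)) ∧
      ∀ K, Sho atTop (fun J => cube h (b J) (s * 3 ^ G.e J))
        (fun J => cube h (b J) (s * 3 ^ G.e J)) (fun J => (3 ^ G.e J : ℝ)⁻¹) K := by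
    rintro _ ⟨s, rfl⟩
    have := E (pure s)
    rw [pure_prod] at this
    have e1 : ∀ᶠ J in atTop, (3 ^ G.e J : ℝ)⁻¹ * G.nn (s, J) = (2 * s + 1 : ℕ) :=
      .of_forall fun J => (G.aa_nn (s, J)).trans (by norm_cast)
    exact ⟨bd_cube h (n := fun J => G.nn (s, J)) hF (2 * s).succ_pos e1 this.1, fun K =>
      sho_cube h (n := fun J => G.nn (s, J)) (2 * s).succ_pos (e1.mono fun J e => ⟨by positivity, e⟩)
        (this.2 K)⟩
  obtain ⟨s0, H⟩ := cr2_of h hR he.monotone hz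
  choose A A0 H using fun s => H (s0 + s) (Nat.le_add_right _ _)
  have H' : ∀ s J, ∃ μ, s0 + s < G.e J →
      Cr2 (Z0 h (b J) (3 ^ (G.e J - (s0 + s))) z) (A s * 3 ^ (G.e J - (s0 + s))) →
      Pg h (b J) (3 ^ (G.e J - (s0 + s))) z (A s * 3 ^ (G.e J - (s0 + s))) μ ∧
        Stp (3 ^ (G.e J - (s0 + s))) μ (1 / (A s * 3 ^ (G.e J - (s0 + s)) : ℕ)) := fun s J => by
    by_cases h1 : s0 + s < G.e J ∧
      Cr2 (Z0 h (b J) (3 ^ (G.e J - (s0 + s))) z) (A s * 3 ^ (G.e J - (s0 + s)))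
    · have h2 := Nat.pow_le_pow_right three_pos (show 1 ≤ G.e J - (s0 + s) by omega)
      exact (exists_pg h (b0 J) (by positivity) z (by nlinarith [A0 s]) h1.2).imp fun _ e _ _ => e
    · exact ⟨0, fun h2 h3 => (h1 ⟨h2, h3⟩).elim⟩
  choose μ H' using H'
  have K := fun s => ((he.tendsto_atTop.eventually_gt_atTop (s0 + s)).and (H s)).mono
    fun J e => And.intro e.1.le (H' s J e.1 e.2.2)
  have hP : ∀ s, Pln atTop (3 ^ (s0 + s))⁻¹ (3 ^ (s0 + s) / A s) (fun J => 3 ^ (G.e J - (s0 + s)))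
      (fun J => (3 ^ G.e J : ℝ)⁻¹) (fun J => 4 * ta (0, J)) (μ s) := fun s =>
    ⟨hF, by positivity, (K s).mono fun J e => by
      obtain ⟨u, hu⟩ := Nat.exists_eq_add_of_le e.1
      have : (0 : ℝ) < A s := Nat.cast_pos.2 (A0 s)
      refine ⟨?_, ?_⟩
      · rw [hu, Nat.add_sub_cancel_left]
        push_cast
        field_simp
        ring
      · convert e.2.2 using 1
        rw [hu, Nat.add_sub_cancel_left]
        push_cast
        field_simp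
        ring⟩
  have hD := fun s => domF_of h he.tendsto_atTop (.of_forall b0) ((K s).mono fun _ e => e.2.1)
    (zbd_of h hR he.monotone hz)
  obtain ⟨p, hp, O⟩ := planes hP
    (fun s => bd_dom h (hP s) (.of_forall hl) (hD s) fun s o => (hc s o).1)
    fun s => sho_dom h (hP s) (.of_forall hl) (hD s) (fun s o => (hc s o).1) fun s o => (hc s o).2
  refine ⟨fun j => G.e (p j), fun j => b (p j), s0, he.tendsto_atTop.comp hp,
    (a2.comp hp).congr fun j => ?_, fun s hs => ?_⟩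
  · simp only [comp_apply, Gl.aa, inv_inv]
  obtain ⟨s, rfl⟩ := Nat.exists_eq_add_of_le hs
  refine ⟨_, div_pos (by positivity) (Nat.cast_pos.2 (A0 s)), _, (hp.eventually (K s)).mono
    fun j e => ?_, O s⟩
  obtain ⟨ν, l, V, lim, -⟩ := e.2.1
  exact ⟨e.2.2.prob, ν, fun R hR => ⟨(V R hR).prob, zs_tz 1 z ▸ (V R hR).lim⟩, lim⟩

end Pool.Agent.Lib.MP_7f377f_mp.YM9
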