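import Pool.Agent.Lib.MP_7f377f_mp.G.TyG
import Pool.Agent.Lib.MP_7f377f_mp.G.TyH

/-! Smeared words: the flow of separated slots. -/

noncomputable section

set_option linter.unusedSectionVars false
variable [Pool.Agent.Lib.MP_7f377f_mp.GD]

namespace Pool.Agent.Lib.MP_7f377f_mp.RG.Q4.En.Gl.Ok

open Finset Real Sg Br YM7 Ob Pos
open Weak (Site corner)
open scoped Classical

variable {G : Gl} {b a a' C N B μ ν x y : ℝ} {J k l m n' c ρ : ℕ} [NeZero (G.N J)] [NeZero n']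
  {P : Grd} {α κ γ : Type} [Fintype α] [Fintype κ] [DecidableEq κ] [Inhabited κ] [Fintype γ]
  [DecidableEq γ] {Λ : Lwd (G.N J) α κ} {φ : Site 4 (G.N J) → ℝ} (h : G.Ok)
include h

theorem tt_eq {f g : Conf → ℂ} (e : ∀ U, Per (G.N J) U → f U = g U) (hk : k < J) :
    G.tt f J k = G.tt g J k := by
  rw [tt_step _ hk, tt_step _ hk]
  exact TT_congr _ fun U hU => h.tt_congr e hk U (h.N_succ k ▸ hU)

theorem pe_two (hm : m ≤ J) (y0 : 0 ≤ y) :
    G.pe J m (y * 4) (y * 2) ≤ G.Q m ^ 2 * (G.rt J m * y) := by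
  have q := h.cQ m (C := 10 ^ 20) le_rfl
  have a := mul_le_mul_of_nonneg_right (h.pw_rt m hm) y0
  have p : 0 ≤ G.rt J m * y := by positivity
  rw [pe]
  nlinarith [mul_le_mul_of_nonneg_right (show 2 * 10 ^ 37 + 16000 * G.Q m ≤ G.Q m ^ 2 by nlinarith) p]

theorem rt_anti (hl : l ≤ m) (hm : m ≤ J) : (G.rt J m : ℝ) ≤ G.rt J l :=
  Nat.cast_le.2 (Nat.pow_le_pow_right (by norm_num)
    (Nat.sub_le_sub_left (h.sch.mono.monotone hl) _))

theorem om_100 (m : ℕ) : (G.Q m ^ 280)⁻¹ ≤ (G.Q m ^ 100)⁻¹ :=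
  inv_anti₀ (pow_pos (h.Q0 m) _) (pow_le_pow_right₀ (h.Q1 m) (by norm_num))

theorem sg0 (l : ℕ) : 0 < G.sg l := div_pos (h.b0 l) (pow_pos (h.Q0 l) _)

theorem sg_bb {i : ℕ} (hl : l ≤ m) (hi : i ≤ 240) : G.Q m ^ i * G.sg l ≤ G.bb m := by
  rw [sg, ← mul_div_assoc, div_le_iff₀ (pow_pos (h.Q0 l) _), mul_comm]
  exact (h.mono5 hl (by omega)).trans (mul_le_mul_of_nonneg_left
    (pow_le_pow_right₀ (h.Q1 l) (by omega)) (h.b0 m).le)

omit h in
theorem lip_sy (hφ : Lqq a' φ) (a0 : 0 < a') (hν : |ν| ≤ x) :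
    LipT (G.N J) (x * a' * 4) (fun y => ((ν * φ (Fi.cst _ y) : ℝ) : ℂ)) ∧
    (∀ y, ‖((ν * φ (Fi.cst _ y) : ℝ) : ℂ)‖ ≤ x) ∧ ∀ y μ μ', ‖symF (sy fun y => ν * φ y) y μ μ' -
      ((ν * φ (Fi.cst _ y) : ℝ) : ℂ)‖ ≤ x * a' * 2 := by
  obtain ⟨p1, p2⟩ := pf_sy (G := G) (J := J) hφ ν
  have := mul_le_mul_of_nonneg_right hν a0.le
  refine ⟨fun y z R e => (p1 y z R e).trans (mul_le_mul_of_nonneg_right (by linarith)
    (Nat.cast_nonneg _)), fun y => ?_, fun y μ μ' => (p2 y μ μ').trans (by linarith)⟩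
  rw [Complex.norm_real, norm_eq_abs, abs_mul]
  exact (mul_le_of_le_one_right (abs_nonneg _) (hφ.1 _)).trans hν

theorem cM0 (k c : ℕ) (C : ℝ) : 0 < G.cM k c C := mul_pos (exp_pos _) (pow_pos (h.Q0 k) _)

variable (t : G.Tu b J) (hp : G.Pu) (K : G.Gk J k n' P κ a c C)
include K

theorem wt_gw (hN : G.Nw J k P c C Λ N) : ∃ W, 0 < W ∧
    4 * G.cM k c C * W * G.Q k ^ 280 * G.bb k = N * G.sg (k + 1) ^ Fintype.card κ ∧ ∀ y,
      ∑ ω ∈ (G.gwT b J k n' P Λ).Om.filter (y ∈ (G.gwT b J k n' P Λ).X0 ·), |Λ.w ω.2| ≤ W := by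
  have := h.cM0 k c C
  have := h.Q0 k
  have := h.b0 k
  have := h.sg0 (k + 1)
  have := hN.1
  refine ⟨N * G.sg (k + 1) ^ Fintype.card κ / (4 * G.cM k c C * G.Q k ^ 280 * G.bb k),
    by positivity, by field_simp, fun y => ?_⟩
  rw [le_div_iff₀ (by positivity)]
  refine le_trans ?_ hN.2
  have e : ∑ ω ∈ (G.gwT b J k n' P Λ).Om.filter (y ∈ (G.gwT b J k n' P Λ).X0 ·), |Λ.w ω.2| =
      (∑ a, |Λ.w a|) * (univ.filter fun x : Site 4 n' =>
        y ∈ tb (G.N k) (P.j * (G.p k).D) {bkp P.t x}).card := by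
    simp only [gwT, sum_filter, card_filter, Fintype.sum_prod_type, Nat.cast_sum, mul_sum]
    refine sum_congr rfl fun x _ => ?_
    split_ifs <;> simp
  have e' : ((univ.filter fun x : Site 4 n' => y ∈ tb (G.N k) (P.j * (G.p k).D) {bkp P.t x}).card : ℝ)
      ≤ ((2 * (P.j * (G.p k).D) + 1) * P.t : ℕ) ^ 4 := by exact_mod_cast h.cnt K _ y
  have := mul_le_mul_of_nonneg_left e' (sum_nonneg fun a (_ : a ∈ univ) => abs_nonneg (Λ.w a))
  rw [e]
  refine le_trans (mul_le_mul_of_nonneg_right this (by positivity)) (le_of_eq (by ring))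

include t hp

/-- the words at all points of the grid -/
theorem tx_g (W : G.Wk b J k P a C Λ) (hN : G.Nw J k P c C Λ N) :
    G.Tx b J k N N (0, G.Kw b J k n' P Λ 1) (G.tt (fun U => wil b (G.N J) U *
      smr n' P.s (Λ.ob (Fi.tr haar) b) 1 (Fi.rs (G.N J) U)) J k) := by
  obtain ⟨w, w0, w1, w2⟩ := h.wt_gw (b := b) K hN
  have := (h.mw_gw K t hp W).tw h t hp (w := fun ω => Λ.w ω.2) (fun _ => rfl)
    (fun _ _ _ _ _ => Complex.ofReal_im _) (fun _ _ => Complex.ofReal_im _) (fun v => by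
      obtain ⟨u, u1, u2⟩ := h.inv_gw (b := b) (Λ := Λ) K v
      exact ⟨u, by simpa [gwT] using u1, fun ω _ => ⟨by rw [(u2 ω).1], by simp only [gwT, (u2 ω).1],
        (u2 ω).2⟩⟩) w2 w0 hN.1.le w1.le
  rw [h.tt_eq (g := fun U => wil b (G.N J) U * ∑ ω ∈ (G.gwT b J k n' P Λ).Om,
    (Λ.w ω.2 : ℂ) * (G.gwT b J k n' P Λ).wo (G.N J) ω U) (fun U hU => by
      simp only [h.wo_gw _ hU, smr, Lwd.ob]
      simp [gwT, Fintype.sum_prod_type]) K.lt]
  simp only [Kw, Pi.one_apply, one_mul]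
  exact this

/-- a slot is close to a slowly varying multiple of the sum over the grid -/
theorem entry (W : G.Wk b J k P a C Λ) (hN : G.Nw J k P c C Λ N) (hφ : Lqq a' φ) (a0 : 0 < a')
    (B0 : 0 < B) (hμ : |μ| ≤ B) (hx : |x| ≤ N) :
    G.Sz k (2 * G.Q k ^ 2 * (G.rt J k * (B * a' * 4)) * N) (2 * G.Q k ^ 2 * (G.rt J k * (B * a' * 4)) * N)
      (G.Q k ^ 280)⁻¹ ((G.uq b J k n' P Λ μ (μ * x) φ).1 - mL (G.fd J k fun y =>
        ((μ * φ (Fi.cst _ y) : ℝ) : ℂ)) ((0, G.Kw b J k n' P Λ 1) - (x : ℂ) • G.tu b J k).1)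
      ((G.uq b J k n' P Λ μ (μ * x) φ).2 - mA (G.fd J k fun y =>
        ((μ * φ (Fi.cst _ y) : ℝ) : ℂ)) ((0, G.Kw b J k n' P Λ 1) - (x : ℂ) • G.tu b J k).2) := by
  obtain ⟨w, w0, w1, w2⟩ := h.wt_gw (b := b) K hN
  have N0 := hN.1
  have r0 := rt_pos (G := G) J k
  obtain ⟨p1, p2, p3⟩ := lip_sy (G := G) (J := J) (ν := -(μ * x)) (x := B * N) hφ a0 (by
    rw [abs_neg, abs_mul]; exact mul_le_mul hμ hx (abs_nonneg _) B0.le)
  obtain ⟨q1, q2, -⟩ := lip_sy (G := G) (J := J) hφ a0 hμ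
  have s1 := h.sz_le (h.tv_pos t (fun _ hk => (h.tan_main hp t hk).1.sz) p1 (by positivity) p2 p3
    K.lt.le) (sqrt_nonneg _) (h.pe_two K.lt.le (by positivity)) (h.pe_two K.lt.le (by positivity))
    (h.hy_sg k)
  have s2 := (h.mw_gw K t hp W).slow h t hp (w := fun ω => Λ.w ω.2) (x := 0)
    (E := G.Q k ^ 2 * (G.rt J k * (B * a' * 4)) * N)
    (φ := fun ω => (μ * φ (corner P.s ω.1) : ℝ)) (by simpa using w2) w0 le_rfl (by positivity)
    (h.fd_lip q1 k K.lt.le) (fun ω _ => by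
      obtain ⟨z, z1, z2⟩ := h.near_bkp K ω.1
      refine ⟨z, tb_mono (by rfl) (Nat.zero_le _) z1, ?_⟩
      have := q1 _ _ _ z2.symm
      simp only [Fi.cst_vl] at this
      exact this.trans ((mul_comm _ _).le.trans (le_mul_of_one_le_right (by positivity) (h.Q1 k))))
    (le_of_eq (by linear_combination (G.Q k ^ 2 * (G.rt J k * (B * a' * 4))) * w1))
  have p : 0 ≤ G.Q k ^ 2 * (G.rt J k * (B * N * a')) := by positivity
  convert h.sz_up (sz_add (h.rh0 k) s1 s2) (h.om0 k).le (x' := 2 * G.Q k ^ 2 *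
    (G.rt J k * (B * a' * 4)) * N) (y' := 2 * G.Q k ^ 2 * (G.rt J k * (B * a' * 4)) * N)
    (by linarith) (by linarith) using 1
  · funext y
    simp only [uq, mL, fd, neg_mul, Prod.fst_add, Prod.fst_sub, Prod.smul_fst, Pi.sub_apply,
      Pi.add_apply, Pi.smul_apply, Pi.zero_apply]
    push_cast
    module
  · funext X
    simp only [uq, Kw, gwT, mA, fd, neg_mul, Prod.snd_add, Prod.snd_sub, Prod.smul_snd, Pi.sub_apply,
      Pi.add_apply, Pi.smul_apply, Pi.one_apply, one_mul]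
    push_cast
    module

omit t hp K in
theorem nw_le (hN : G.Nw J k P c C Λ N) (hμ : |μ| * x * N * G.Q k ^ 7 ≤ 1) (x0 : 0 ≤ x) :
    4 * G.cM k c C * (|μ| * x * (∑ a, |Λ.w a|) * ((2 * (P.j * (G.p k).D) + 1) * P.t : ℕ) ^ 4) *
      G.Q k ^ 287 * G.bb k ≤ G.sg (k + 1) ^ Fintype.card κ := by
  have := mul_le_mul_of_nonneg_left hN.2 (show 0 ≤ |μ| * x * G.Q k ^ 7 by have := h.Q0 k; positivity)
  nlinarith only [this, mul_le_mul_of_nonneg_right hμ (pow_pos (h.sg0 (k + 1)) (Fintype.card κ)).le]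

/-- the size of a slot -/
theorem dq_sz (B : G.Gb J k l P a c a' ρ) (W : G.Wk b J k P a C Λ) (hφ : Lqq a' φ)
    (hD : G.Dq b J k l n' P c C Λ μ ν) : ∃ z : ℕ → ℝ, (∀ m, 0 < z m) ∧ z l = 1 ∧ z (l + 1) = 1 ∧
      (∀ m, l < m → z m ≤ G.L m * z (m + 1)) ∧ z k * |ν| ≤ 1 ∧
      4 * G.cM k c C * (|μ| * z k * (∑ a, |Λ.w a|) * ((2 * (P.j * (G.p k).D) + 1) * P.t : ℕ) ^ 4) *
        G.Q k ^ 287 * G.bb k ≤ G.sg (k + 1) ^ Fintype.card κ ∧ ∀ m, l ≤ m → m ≤ k →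
      G.Sz m (G.Q m ^ 3 / z m) (G.Q m ^ 3 / z m) (G.Q m ^ 100)⁻¹
        (G.tn b J (G.uq b J k n' P Λ μ ν φ) k m).1 (G.tn b J (G.uq b J k n' P Λ μ ν φ) k m).2 := by
  have a0 := B.a0
  have kJ := K.lt.le
  have q0 := h.Q0 k
  have qk := h.cQ k (C := 10 ^ 20) le_rfl
  have q7 : 13 * G.Q k ^ 2 ≤ G.Q k ^ 7 := by
    rw [show 7 = 5 + 2 from rfl, pow_add]
    exact mul_le_mul_of_nonneg_right (le_trans (by linarith) (le_self_pow₀ (h.Q1 k) (by norm_num)))
      (by positivity)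
  have r0 := rt_pos (G := G) J k
  have ra : ∀ m, l ≤ m → m ≤ k → G.rt k m * (G.rt J k * a') ≤ 1 := fun m h1 h2 => by
    rw [← mul_assoc, ← Nat.cast_mul, h.rt_mul h2 kJ]
    exact (mul_le_mul_of_nonneg_right (h.rt_anti h1 (h2.trans kJ)) a0.le).trans B.a1
  have L1 : ∀ m, (1 : ℝ) ≤ G.L m * 1 := fun m => by linarith [h.L1 m]
  have Q3 : ∀ m, 1 ≤ G.Q m ^ 3 := fun m => one_le_pow₀ (h.Q1 m)
  rcases hD with ⟨N, x, hN, hx, rfl, hμ, hs⟩ | ⟨N, hN, rfl, hμ⟩ | ⟨rfl, hν⟩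
  · have N0 := hN.1
    have c0 := h.cP0 (l + 1) k
    obtain ⟨A, A0, A1⟩ : ∃ A, 0 < A ∧ A * (G.cP (l + 1) k * N * G.Q k ^ 7) = 1 :=
      ⟨_, by positivity, inv_mul_cancel₀ (by positivity)⟩
    have A2 : |μ| ≤ A := le_of_mul_le_mul_right (a := G.cP (l + 1) k * N * G.Q k ^ 7)
      (by linarith) (by positivity)
    obtain ⟨q1, q2, -⟩ := lip_sy (G := G) (J := J) hφ a0 A2
    refine ⟨G.cP (l + 1), h.cP0 _, by simp [cP], cP_top, fun m hm => ?_, ?_,
      h.nw_le hN hμ c0.le, fun m h1 h2 => ?_⟩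
    · have := h.pw_cP (i := m + 1) m m.le_succ
      rw [h.rt_step m.lt_succ_self, rt_top, cP_step m.lt_succ_self, cP_top] at this
      rw [cP, cP, prod_Ico_succ_top hm]
      push_cast at this
      simp only [Nat.add_sub_cancel_left, pow_one, mul_one] at this
      nlinarith only [this, h.cP0 (l + 1) m, show ∏ n ∈ Ico (l + 1) m, 2 * G.cr n = G.cP (l + 1) m from rfl]
    · rw [abs_mul]
      have := mul_le_mul_of_nonneg_left hx (mul_nonneg (abs_nonneg μ) c0.le)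
      nlinarith only [this, hμ, mul_le_mul_of_nonneg_left (one_le_pow₀ (h.Q1 k) (n := 7))
        (show 0 ≤ |μ| * G.cP (l + 1) k * N by positivity)]
    · have s := h.slot t kJ N0 (j := 0) (fun m _ hm => hs m hm) (fun _ => q2 _)
        (h.fd_lip q1 k kJ) (by positivity) (by positivity) (h.entry t hp K W hN hφ a0 A0 A2 hx) h2
        (B.l0.trans_le h1)
      have e : G.cP m k * (G.rt k m * (2 * G.Q k ^ 2 * (G.rt J k * (A * a' * 4)) * N + G.Q m ^ 2 *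
          (G.rt J k * (A * a' * 4)) * N) + A * N) ≤ G.Q m ^ 3 / G.cP (l + 1) m := by
        have b1 : G.cP (l + 1) m * G.cP m k ≤ G.cP (l + 1) k := by
          rcases h1.eq_or_lt with rfl | h1
          · rw [cP_step B.lt, show G.cP (l + 1) l = 1 by simp [cP], one_mul]
            exact mul_le_of_le_one_left c0.le (by linarith [h.cr1 l, h.cr0 l])
          · exact (prod_Ico_consecutive _ h1 h2).le
        have b2 : G.Q m ^ 2 ≤ G.Q k ^ 2 := pow_le_pow_left₀ (h.Q0 m).le (h.Q_mono h2) _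
        have b3 := ra m h1 h2
        have p : 0 ≤ G.rt k m * (G.rt J k * a') := by positivity
        have b4 : G.rt k m * (2 * G.Q k ^ 2 * (G.rt J k * (A * a' * 4)) * N + G.Q m ^ 2 *
            (G.rt J k * (A * a' * 4)) * N) + A * N ≤ A * N * G.Q k ^ 7 := by
          have : G.rt k m * (G.rt J k * a') * (8 * G.Q k ^ 2 + 4 * G.Q m ^ 2) + 1 ≤ G.Q k ^ 7 := by
            nlinarith only [mul_le_mul_of_nonneg_right b3 (show 0 ≤ 8 * G.Q k ^ 2 + 4 * G.Q m ^ 2 by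
              positivity), b2, q7, one_le_pow₀ (h.Q1 k) (n := 2)]
          nlinarith only [mul_le_mul_of_nonneg_left this (show 0 ≤ A * N by positivity)]
        rw [le_div_iff₀' (h.cP0 _ _), ← mul_assoc]
        refine le_trans (mul_le_mul b1 b4 (by positivity) c0.le) ?_
        linarith [Q3 m]
      exact h.sz_le s (h.om0 m).le e e (h.om_100 m)
  · have N0 := hN.1
    obtain ⟨A, A0, A1⟩ : ∃ A, 0 < A ∧ A * (1.01 ^ (k - l) * N * G.Q k ^ 7) = 1 :=
      ⟨_, by positivity, inv_mul_cancel₀ (by positivity)⟩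
    have A2 : |μ| ≤ A := le_of_mul_le_mul_right (a := 1.01 ^ (k - l) * N * G.Q k ^ 7)
      (by linarith) (by positivity)
    have w1 : (1 : ℝ) ≤ 1.01 ^ (k - l) := one_le_pow₀ (by norm_num)
    obtain ⟨q1, q2, -⟩ := lip_sy (G := G) (J := J) hφ a0 A2
    refine ⟨fun _ => 1, fun _ => one_pos, rfl, rfl, fun m _ => L1 m, by simp,
      h.nw_le hN (le_trans (by gcongr) hμ) zero_le_one, fun m h1 h2 => ?_⟩
    have g : ∀ i, l ≤ i → i ≤ k → G.Sz i (1.01 ^ (k - l) * N) (1.01 ^ (k - l) * N) (G.Q i ^ 280)⁻¹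
        (G.tc b J k (0, G.Kw b J k n' P Λ 1) i).1 (G.tc b J k (0, G.Kw b J k n' P Λ 1) i).2 :=
      fun i i1 i2 =>
        have : 1.01 ^ (k - i) * N ≤ 1.01 ^ (k - l) * N := by gcongr; norm_num
        h.sz_up (h.tw_grow t hp kJ (h.tx_g t hp K W hN) N0 i i2).sz (h.om0 i).le this this
    have en := h.entry t hp K W hN hφ a0 A0 A2 (x := 0) (by simpa using N0.le)
    simp only [mul_zero, Complex.ofReal_zero, zero_smul, sub_zero] at en
    have p : 0 ≤ 2 * G.Q k * (G.rt J k * (A * a' * 4)) * (1.01 ^ (k - l) * N) := by positivity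
    have s := h.pos_sz (f := G.fd k m _) (fun _ => q2 _) (h.pos_chain (j := l) (z := G.zz b J)
      (b := fun i => (G.zz b J i).d) (ω := fun i => (G.Q i ^ 280)⁻¹)
      (E := 2 * G.Q k ^ 2 * (G.rt J k * (A * a' * 4)) * N)
      (u := G.tc b J k (0, G.Kw b J k n' P Λ 1)) (v := G.tc b J k (G.uq b J k n' P Λ μ 0 φ))
      (fun i _ hi => h.tw_tg t (hi.trans_le kJ)) (fun i _ hi => tc_step _ hi)
      (fun i _ hi => tc_step _ hi) (fun i i1 i2 => g i i1.le i2) (by positivity) (fun _ => q2 _)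
      (h.fd_lip q1 k kJ) (by positivity) (by positivity) (by
        rw [tc_top, tc_top]
        exact h.sz_up en (h.om0 k).le (le_add_of_nonneg_right p) (le_add_of_nonneg_right p)) m h2 h1)
      (g m h1 h2)
    have e : 1.01 ^ (k - m) * (2 * G.Q k ^ 2 * (G.rt J k * (A * a' * 4)) * N) + 2 * G.Q m *
        (G.rt k m * (G.rt J k * (A * a' * 4))) * (1.01 ^ (k - l) * N) + A * (1.01 ^ (k - l) * N) ≤
          G.Q m ^ 3 / 1 := by
      have b3 := ra m h1 h2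
      have b1 : 1.01 ^ (k - m) * (G.rt J k * a') ≤ 1 :=
        (mul_le_mul_of_nonneg_right (h.pw_rt m h2) (by positivity)).trans b3
      have b2 := h.Q_mono h2
      have b4 := h.Q0 m
      have b5 := mul_le_mul_of_nonneg_right b1 (show 0 ≤ 8 * G.Q k ^ 2 * (A * N) by positivity)
      have b6 := mul_le_mul_of_nonneg_right b3
        (show 0 ≤ 8 * G.Q m * (A * (1.01 ^ (k - l) * N)) by positivity)
      have b7 := mul_le_mul_of_nonneg_left w1 (show 0 ≤ 8 * G.Q k ^ 2 * (A * N) by positivity)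
      have b8 := mul_le_mul_of_nonneg_right (show 8 * G.Q k ^ 2 + 8 * G.Q m + 1 ≤ G.Q k ^ 7 by
        nlinarith only [q7, b2, qk]) (show 0 ≤ A * (1.01 ^ (k - l) * N) by positivity)
      linarith only [b5, b6, b7, b8, A1, Q3 m]
    exact h.sz_le s (h.om0 m).le e e (h.om_100 m)
  · obtain ⟨p1, p2, p3⟩ := lip_sy (G := G) (J := J) (ν := -ν) (x := 1) hφ a0 (by rwa [abs_neg])
    refine ⟨fun _ => 1, fun _ => one_pos, rfl, rfl, fun m _ => L1 m, by simpa using hν,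
      by simpa using (pow_pos (h.sg0 _) _).le, fun m h1 h2 => ?_⟩
    have e : G.tn b J (G.uq b J k n' P Λ 0 ν φ) k m = G.tv (symF (sy fun y => -ν * φ y)) b J m := by
      simp only [uq, Kw, zero_mul, Complex.ofReal_zero, zero_smul, sum_const_zero, neg_mul]
      rw [show ((0, 0) : Lx × Ac) = 0 from rfl, add_zero]
      exact dw_dw _ _ kJ m h2
    have q := h.cQ m (C := 10 ^ 20) le_rfl
    have b1 := h.pe_two (h2.trans kJ) (y := 1 * a') (by positivity)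
    have b2 := mul_le_mul_of_nonneg_left ((mul_le_mul_of_nonneg_right (h.rt_anti h1 (h2.trans kJ))
      a0.le).trans B.a1) (sq_nonneg (G.Q m))
    have b3 : G.Q m ^ 2 + 1000 ≤ G.Q m ^ 3 := by nlinarith only [q, mul_le_mul_of_nonneg_right q (sq_nonneg (G.Q m))]
    rw [e]
    exact h.sz_le (h.tv_sz' t (fun _ hk => (h.tan_main hp t hk).1.sz) p1 (by positivity) p2 p3
      (h2.trans kJ)) (sqrt_nonneg _) (by linarith) (by linarith) (h.sg_le m)

omit t hp K in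
theorem dl_le {j : ℕ} (hl : l < j) (hj : j ≤ J) :
    66 * G.L j * ((G.L j : ℝ) ^ G.K0 * G.rt J j) ≤ G.dl J l := by
  obtain ⟨i, rfl⟩ : ∃ i, j = i + 1 := ⟨j - 1, by omega⟩
  have a := Nat.pow_le_pow_left (h.L_succ i) (G.K0 + 1)
  have b := h.D_rt (i := J) (j := l) (k := i) (by omega) (by omega)
  rw [h.rt_step (show i < J from hj)] at b
  have : 66 * G.L (i + 1) * (G.L (i + 1) ^ G.K0 * G.rt J (i + 1)) ≤ G.dl J l :=
    calc _ = 66 * G.L (i + 1) ^ (G.K0 + 1) * G.rt J (i + 1) := by ring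
      _ ≤ 66 * (3 * G.L i) ^ (G.K0 + 1) * G.rt J (i + 1) := by gcongr
      _ = 66 * 3 ^ (G.K0 + 1) * (G.L i ^ G.K0 * (G.L i * G.rt J (i + 1))) := by ring
      _ ≤ _ := Nat.mul_le_mul_left _ b
  exact_mod_cast this

omit t hp K h in
theorem dl_ge : 66 * (G.L l ^ G.K0 * G.rt J l) ≤ G.dl J l :=
  Nat.mul_le_mul_right _ (Nat.le_mul_of_pos_right _ (by positivity))

/-- separated slots are small at the level `l` -/
theorem core {α : γ → Type} [∀ q, Fintype (α q)] {Λ : ∀ q, Lwd (G.N J) (α q) κ} {μ ν : γ → ℝ}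
    {φ : γ → Site 4 (G.N J) → ℝ} (B : G.Gb J k l P a c a' ρ) (W : ∀ q, G.Wk b J k P a C (Λ q))
    (hφ : ∀ q, Lqq a' (φ q)) (hD : ∀ q, G.Dq b J k l n' P c C (Λ q) (μ q) (ν q))
    (hs : Cls (G.N J) (G.dl J l) univ id fun q => sup (fat ρ (φ q))) :
    ∃ X, Xo (G.N J) X (fun q => ltr n' P.s ((Λ q).ob (Fi.tr haar) b) (μ q) (ν q) (φ q)) ∧
      G.Sl b J l X (G.sg l) fun q => sup (fat ρ (φ q)) := by
  choose z z0 z1 z2 z3 z4 z5 z6 using fun q => h.dq_sz t hp K B (W q) (hφ q) (hD q)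
  have s0 := h.sg0 l
  have kJ := K.lt.le
  have q0 := h.Q0 k
  have b0 := h.b0 k
  have c0 := h.cM0 k c C
  have σ0 := pow_pos (h.sg0 (k + 1)) (Fintype.card κ)
  have t0 : 0 < P.t := Nat.pos_of_mul_pos_right (K.ht ▸ pow_pos three_pos _ : 0 < P.t * P.s)
  have w0 : (0 : ℝ) < ((2 * (P.j * (G.p k).D) + 1) * P.t : ℕ) ^ 4 := by positivity
  have D0 : ∀ j, 0 < (G.L j : ℝ) ^ G.K0 * G.rt J j := fun j =>
    mul_pos (pow_pos (by linarith [h.L1 j]) _) (rt_pos J j)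
  have d1 : 66 * ((G.L l : ℝ) ^ G.K0 * G.rt J l) ≤ G.dl J l := by exact_mod_cast dl_ge
  refine ⟨_, h.xo_aw (k := k) (ρ := ρ) Λ μ ν φ, (h.mw_aw K t hp (l := l)
    (r := fun q => G.sg l * z q k) W hφ B.a0 B.le (fun q => mul_pos s0 (z0 q k)) (fun q => by
      rw [mul_assoc]; exact mul_le_of_le_one_right s0.le (z4 q)) B.lt.le B.rad hs
    (le_trans (mul_le_mul_of_nonneg_right (by
      have : (2 * c + 3 : ℝ) ≤ G.L k := by exact_mod_cast B.big
      linarith [h.L1 k]) (D0 k).le) (h.dl_le B.lt kJ))).slot h t hp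
    (r := fun m q => G.sg l * z q m) (m := fun j => if j = l then 1 else G.L j) (N := G.Q l ^ 3)
    (h.cnt_aw K (fun q => (hφ q).1) (fun q => (mul_pos s0 (z0 q k)).le) (by linarith [D0 l]) hs
      (M := G.sg l * G.sg (k + 1) ^ Fintype.card κ / (4 * G.cM k c C *
        ((2 * (P.j * (G.p k).D) + 1) * P.t : ℕ) ^ 4 * G.Q k ^ 287 * G.bb k)) (by positivity)
      fun q => by
        rw [le_div_iff₀ (by positivity)]
        nlinarith only [mul_le_mul_of_nonneg_left (z5 q) s0.le]) ?_ B.lt.le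
    (fun q => uq_aw Λ μ ν φ q) (fun j j1 j2 q => ⟨_, ?_, z6 q j j1 j2⟩) (fun j j1 j2 => ?_)
    (fun _ => le_rfl) (fun q => ⟨by rw [z1, mul_one], by simpa [z1] using z6 q l le_rfl B.lt.le⟩)
    s0 (pow_pos (h.Q0 l) _).le ?_⟩
  · have := mul_le_mul_of_nonneg_right (h.sg_bb B.lt.le (i := 43) (by norm_num)) σ0.le
    refine le_trans (b := G.Q k ^ 43 * G.sg l * G.sg (k + 1) ^ Fintype.card κ / (4 * G.bb k))
      (le_of_eq (by field_simp)) ?_
    rw [div_le_iff₀ (by positivity)]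
    nlinarith only [this, mul_pos b0 σ0]
  · rw [mul_assoc, mul_div_cancel₀ _ (z0 q j).ne']
    exact (le_of_eq (by ring)).trans (h.sg_bb j1 (i := 226) (by norm_num))
  · split_ifs with e
    · subst e
      refine ⟨le_rfl, by simpa using h.cQ j (by norm_num), ?_, fun q => ⟨mul_pos s0 (z0 q j),
        fun _ => by simp [z1, z2]⟩⟩
      exact h.zs_cls hs (by positivity) (by norm_num; linarith) le_rfl (j2.trans kJ)
    · have e' := lt_of_le_of_ne j1 (Ne.symm e)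
      have L := h.L1 j
      refine ⟨le_trans (by norm_num) (h.L_big j), le_trans (by nlinarith) (h.LQ' j (i := 2)
        (by norm_num)), h.zs_cls hs (by positivity) (le_trans (mul_le_mul_of_nonneg_right
          (by linarith) (D0 j).le) (h.dl_le e' (j2.trans kJ))) le_rfl (j2.trans kJ),
        fun q => ⟨mul_pos s0 (z0 q j), fun _ => ?_⟩⟩
      rw [mul_left_comm]
      exact mul_le_mul_of_nonneg_left (z3 q j e') s0.le
  · rw [sg, mul_comm (_ / _), ← mul_assoc, ← pow_add, mul_div_left_comm]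
    exact mul_le_of_le_one_right (h.b0 l).le ((div_le_one (pow_pos (h.Q0 l) _)).2
      (pow_le_pow_right₀ (h.Q1 l) (by norm_num)))

end Pool.Agent.Lib.MP_7f377f_mp.RG.Q4.En.Gl.Ok
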