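import Pool.Agent.Lib.MP_7f377f_mp.G.TyP
import Pool.Agent.Lib.MP_7f377f_mp.G.MgS
import Pool.Agent.Lib.MP_7f377f_mp.G.ObM
import Pool.Agent.Lib.MP_7f377f_mp.G.ObG
import Pool.Agent.Lib.MP_7f377f_mp.G.Q5CmR
import Pool.Agent.Lib.MP_7f377f_mp.G.CmD

/-! Smeared words: definitions. -/

noncomputable section

set_option linter.unusedSectionVars false
variable [Pool.Agent.Lib.MP_7f377f_mp.GD]

namespace Pool.Agent.Lib.MP_7f377f_mp.Ob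

open MeasureTheory Weak Finset YM7 Pur MvPolynomial
open Ope (gp sc)
open RG.Q4.En.Ty (Gn)

variable {n : ℕ} [NeZero n] {α κ : Type} [Fintype α] [Fintype κ]

/-- bounded slowly varying functions on the torus -/
def Lqq (a : ℝ) (g : Site 4 n → ℝ) : Prop :=
  (∀ x, |g x| ≤ 1) ∧ ∀ x l, |g (x + Pi.single l 1) - g x| ≤ a

/-- weighted words: profiles of the letters, constants and weights -/
structure Lwd (n : ℕ) (α κ : Type) where
  g : α → κ → Site 4 n → ℝ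
  τ : α → κ → ℝ
  w : α → ℝ

/-- the letter `g` at the point `v` -/
def ltv (g : Site 4 n → ℝ) (v : Site 4 n) : Src n := sy fun x => -g (x - v)

/-- the neighbourhood of the support -/
def fat (ρ : ℕ) (φ : Site 4 n → ℝ) : Src n := fun x _ _ => by
  classical exact if ∃ v, φ v ≠ 0 ∧ ∀ i, ((x - v) i).valMinAbs.natAbs ≤ ρ then 1 else 0

/-- smearing over the grid of mesh `s` -/
def smr (n' s : ℕ) [NeZero n'] (B : Cfg n → ℝ) (φ : Site 4 n → ℝ) (U : Cfg n) : ℝ :=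
  ∑ x : Site 4 n', φ (corner s x) * B (shift (corner s x) U)

/-- a smeared observable and a smeared field -/
def ltr (n' s : ℕ) [NeZero n'] (B : Cfg n → ℝ) (μ ν : ℝ) (φ : Site 4 n → ℝ) (U : Cfg n) : ℝ :=
  μ * smr n' s B φ U + ν * gfield (sy φ) U

/-- the action of the generators on the fields of the torus -/
def cg : Gn → Cfg n → Cfg n
  | .inl σ => prm σ
  | .inr k => refl k

/-- the observable of the words -/
def Lwd.ob [MeasurableSpace SU2] (h : Measure SU2) (b : ℝ) (Λ : Lwd n α κ) (U : Cfg n) : ℝ :=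
  ∑ a, Λ.w a * ∏ l, (cen h b (sy (Λ.g a l)) U + Λ.τ a l)

/-- smearing of a polynomial over the grid of mesh `3 ^ -e` -/
def smp (e : ℕ) (B : Pol) (f : R4 → ℝ) : Pol :=
  ∑ᶠ x : Fin 4 → ℤ, (f (gp e x) : ℂ) • net.τ (gp e x) B

/-- sums of words with `m` letters at the scale `d` -/
def Wb (m : ℕ) (Λ δ d W : ℝ) (B : Pol) : Prop :=
  ∃ (α : Type) (_ : Fintype α) (c : α → ℝ) (u : α → Fin m → R4 → ℝ), ∑ a, |c a| ≤ W ∧
    (∀ a, Adm (u a) ∧ YM7.Tf (u a) Λ δ) ∧ B = ∑ a, (c a : ℂ) • mon fun i => sc d (u a i)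

end Pool.Agent.Lib.MP_7f377f_mp.Ob

namespace Pool.Agent.Lib.MP_7f377f_mp.RG.Q4.En

open Finset Real Sg Br YM7 Filter Topology Ob Pos
open Weak (Site corner)
open scoped Classical

/-- mesh of the grid, grid points in a block, radius of the letters, radius of the words -/
structure Grd where
  s : ℕ
  t : ℕ
  R : ℕ
  j : ℕ

/-- the block of a grid point -/
def bkp {n' : ℕ} (t : ℕ) (x : Site 4 n') : St := fun i => ((x i).val / t : ℕ)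

namespace Gl

variable (G : Gl) (b : ℝ) (J k l : ℕ) [NeZero (G.N J)] (n' : ℕ) [NeZero n'] (P : Grd)
  {α κ γ : Type} [Fintype α] [Fintype κ] [DecidableEq κ] [Inhabited κ]

/-- the large scale is far from the small scale -/
def Wl (D : ℝ → ℝ) : Prop := (∀ᶠ d in 𝓝[>] (0 : ℝ), D d ^ 2 ≤ d) ∧
  ∀ q : ℕ, ∀ᶠ d in 𝓝[>] (0 : ℝ), ∀ l, d * 3 ^ G.e l ≤ G.Q l ^ q → G.Q l ^ q * d ≤ D d

/-- the words at all the points of the grid -/
def gwT (Λ : Lwd (G.N J) α κ) : Ws Unit (Site 4 n' × α) κ where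
  Om := univ
  cl _ := ()
  F ω l := symF (ltv (Λ.g ω.2 l) (corner P.s ω.1))
  a ω l := (YM7.ex (Fi.tr haar) b (G.N J) (gfield (sy (Λ.g ω.2 l))) - Λ.τ ω.2 l : ℝ)
  P _ := 0
  V ω l := sup (ltv (Λ.g ω.2 l) (corner P.s ω.1))
  W _ := box (G.N J / 2)
  Z0 ω := tb (G.N k) (P.j * (G.p k).D - ((G.p k).R + 3)) {bkp P.t ω.1}
  X0 ω := tb (G.N k) (P.j * (G.p k).D) {bkp P.t ω.1}

/-- the words near the supports of the profiles `φ q` -/
def aw [Fintype γ] {α : γ → Type} [∀ q, Fintype (α q)] (Λ : ∀ q, Lwd (G.N J) (α q) κ) (ν : γ → ℝ)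
    (φ : γ → Site 4 (G.N J) → ℝ) (ρ : ℕ) : Ws γ (Σ q, Site 4 n' × α q) κ where
  Om := univ.filter fun ω => φ ω.1 (corner P.s ω.2.1) ≠ 0
  cl ω := ω.1
  F ω := (G.gwT b J k n' P (Λ ω.1)).F ω.2
  a ω := (G.gwT b J k n' P (Λ ω.1)).a ω.2
  P q := symF (sy fun x => -(ν q * φ q x))
  V ω := (G.gwT b J k n' P (Λ ω.1)).V ω.2
  W q := sup (fat ρ (φ q))
  Z0 ω := (G.gwT b J k n' P (Λ ω.1)).Z0 ω.2
  X0 ω := (G.gwT b J k n' P (Λ ω.1)).X0 ω.2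

/-- the insertion of the words with the profile `φ` -/
def Kw (Λ : Lwd (G.N J) α κ) (φ : Site 4 (G.N J) → ℝ) : Ac :=
  ∑ ω : Site 4 n' × α, ((φ (corner P.s ω.1) * Λ.w ω.2 : ℝ) : ℂ) • G.wI b J k (G.gwT b J k n' P Λ) ω

/-- the direction of a slot at the level of the merging -/
def uq (Λ : Lwd (G.N J) α κ) (μ ν : ℝ) (φ : Site 4 (G.N J) → ℝ) : Lx × Ac :=
  G.tv (symF (sy fun x => -(ν * φ x))) b J k + (0, G.Kw b J k n' P Λ fun x => μ * φ x)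

/-- the geometry of the grid and of the words -/
structure Gk (κ : Type) [Fintype κ] (a : ℝ) (c : ℕ) (C : ℝ) : Prop where
  lt : k < J
  hn : G.N J = n' * P.s
  ht : G.rt J k = P.t * P.s
  a0 : 0 < a
  a1 : G.rt J (k + 1) * a ≤ 1
  a2 : 1.01 ^ (J - (k + 1)) * (10 ^ 37 * (2 * a)) ≤ 1
  rad : 2 * ((P.R + 1) / G.rt J k) + 12 * G.L k ^ G.K0 + 5 ≤ P.j * (G.p k).D
  card : Fintype.card κ ≤ c
  tau : 2 * (P.j + 1) * (2 * P.j + 1) ^ 4 ≤ c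
  big : 400 * 2 ^ c ≤ G.Q k
  C0 : 0 ≤ C

/-- admissible letters -/
structure Wk (a C : ℝ) (Λ : Lwd (G.N J) α κ) : Prop where
  lp : ∀ x i, Lqq a (Λ.g x i)
  sup : ∀ x i y, Λ.g x i y ≠ 0 → ∀ l, (y l).valMinAbs.natAbs ≤ P.R
  sep : ∀ x, Sp (G.ds J (k + 1)) fun i => sy (Λ.g x i)
  cen : ∀ x i v, G.sg (k + 1) * ‖G.ej b J (k + 1) (symF (ltv (Λ.g x i) v)) -
    (YM7.ex (Fi.tr haar) b (G.N J) (gfield (sy (Λ.g x i))) - Λ.τ x i : ℝ)‖ ≤ C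

/-- `N` bounds the size of the insertion of the words -/
def Nw (c : ℕ) (C : ℝ) (Λ : Lwd (G.N J) α κ) (N : ℝ) : Prop := 0 < N ∧
  4 * G.cM k c C * ((∑ a, |Λ.w a|) * ((2 * (P.j * (G.p k).D) + 1) * P.t : ℕ) ^ 4) * G.Q k ^ 280 *
    G.bb k ≤ N * G.sg (k + 1) ^ Fintype.card κ

/-- the three kinds of slots: without marginal part, arbitrary words, fields -/
def Dq (c : ℕ) (C : ℝ) (Λ : Lwd (G.N J) α κ) (μ ν : ℝ) : Prop :=
  (∃ N c', G.Nw J k P c C Λ N ∧ |c'| ≤ N ∧ ν = μ * c' ∧ |μ| * G.cP (l + 1) k * N * G.Q k ^ 7 ≤ 1 ∧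
    ∀ m ≤ k, G.Sz m (G.cP m k * N) (G.cP m k * N) (G.Q m ^ 280)⁻¹
      (G.tc b J k ((0, G.Kw b J k n' P Λ 1) - (c' : ℂ) • G.tu b J k) m).1
      (G.tc b J k ((0, G.Kw b J k n' P Λ 1) - (c' : ℂ) • G.tu b J k) m).2) ∨
  (∃ N, G.Nw J k P c C Λ N ∧ ν = 0 ∧ |μ| * 1.01 ^ (k - l) * N * G.Q k ^ 7 ≤ 1) ∨
  (μ = 0 ∧ |ν| ≤ 1)

/-- the measured marginal part of an observable -/
def ms (e : Ty.Pl × Ty.Pl) (O : Cfg (G.N J) → ℝ) : ℝ :=
  G.rs b J 0 e (G.tt (fun U => wil b (G.N J) U * O (Fi.rs (G.N J) U)) J 0)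

end Gl

end Pool.Agent.Lib.MP_7f377f_mp.RG.Q4.En
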