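import Pool.Agent.Lib.MP_7f377f_mp.G.TyA
import Pool.Agent.Lib.MP_7f377f_mp.G.Q5TanF

/-! The flux lemma for directions with a signed symmetry. -/

noncomputable section

set_option linter.unusedSectionVars false
variable [Pool.Agent.Lib.MP_7f377f_mp.GD]

namespace Pool.Agent.Lib.MP_7f377f_mp.RG.Q4.En

open Finset Real La La.Q Sd Metric Ty

/-- signed symmetry on periodic fields -/
def Sgn (n : ℕ) (T : Ty) (f : Conf → ℂ) : Prop :=
  ∀ g ∈ T, ∀ U, Per n U → f (cf g.1 U) = sb g.2 * f U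

/-- a field with a flux through the plane `p` -/
def fp (n : ℕ) (x : ℝ) (p : Pl) : Lk → Ang := Classical.epsilon (Fx n (tq n x • EE p))

/-- the polarised response to fluxes -/
def rsp (n : ℕ) (x : ℝ) (e : Pl × Pl) (G : Conf → ℝ) : ℝ :=
  (G (ab (fp n x e.1)) + G (ab (fp n x e.2)) - G (ab (fp n x e.1 + fp n x e.2)) - G (ab 0)) /
    (2 * (n ^ 4 * tq n x ^ 2))

variable {S : Sd} {v e x y u ω ω' η P : ℝ} {n : ℕ} {T : Ty} {E : List (Pl × Pl)}

theorem fx_fp (hn : n ≠ 0) (x : ℝ) (p : Pl) : Fx n (tq n x • EE p) (fp n x p) :=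
  Classical.epsilon_spec (fx_EE hn _ _)

theorem sym_cf {f : Conf → ℂ} (s : Sym n f) (g : Gn) {U : Conf} (hU : Per n U) :
    f (cf g U) = f U := by
  cases g
  exacts [(s U hU).2.1 _, (s U hU).2.2 _]

theorem sym_sgn {f : Conf → ℂ} (s : Sym n f) (hT : ∀ g ∈ T, g.2 = false) : Sgn n T f :=
  fun g hg U hU => by rw [sym_cf s _ hU, hT g hg]; simp [sb]

theorem ty_def {G : Conf → ℝ} {k : BF} {c : ℝ} (hn : n ≠ 0) (t0 : 0 < tq n x)
    (hs : ∀ a b, k a b = k b a) (H : ∀ F ϑ, As F → ‖F‖ ≤ 2 * tq n x → Fx n F ϑ →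
      |G (ab ϑ) - c + n ^ 4 * k (pt F) (pt F)| ≤ η * tq n x ^ 2 * n ^ 4) :
    (∀ e, |rsp n x e G - k (pt (EE e.1)) (pt (EE e.2))| ≤ 2 * η) ∧
      ∀ g χ, (∀ F ϑ, Fx n F ϑ → G (ab (an g ϑ)) = sb χ * G (ab ϑ)) → ∀ p q,
        |k (pt (Ty.mt g (EE p))) (pt (Ty.mt g (EE q))) - sb χ * k (pt (EE p)) (pt (EE q))| ≤ 6 * η := by
  have f1 := fx_fp hn x
  unfold rsp
  generalize tq n x = t at *
  have n0 : (0 : ℝ) < n ^ 4 * t ^ 2 := by positivity
  have a : ∀ {F ϑ}, As F → ‖F‖ ≤ 2 → Fx n (t • F) ϑ →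
      |G (ab ϑ) - c + n ^ 4 * t ^ 2 * k (pt F) (pt F)| ≤ n ^ 4 * t ^ 2 * η := fun hF h1 h2 => by
    have := H _ _ (hF.smul t) (by
      rw [norm_smul, norm_of_nonneg t0.le, mul_comm]; gcongr) h2
    simp only [map_smul, LinearMap.smul_apply, smul_eq_mul] at this
    convert this using 1
    · congr 1; ring
    · ring
  have m : ∀ p, ‖EE p‖ ≤ 2 := fun p => (norm_EE p).trans one_le_two
  have m2 : ∀ p q, ‖EE p + EE q‖ ≤ 2 := fun p q =>
    (norm_add_le_of_le (norm_EE p) (norm_EE q)).trans_eq (by norm_num)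
  have f2 : ∀ p q, Fx n (t • (EE p + EE q)) (fp n x p + fp n x q) := fun p q =>
    smul_add t (EE p) _ ▸ (f1 p).add (f1 q)
  have a0 := abs_le.1 (a (F := 0) (fun _ _ => by simp) (by simp) (by simpa using fx_zero))
  simp only [map_zero, mul_zero, add_zero] at a0
  have pol : ∀ F F' : Mt, k (pt (F + F')) (pt (F + F')) =
      k (pt F) (pt F) + k (pt F') (pt F') + 2 * k (pt F) (pt F') := fun F F' => by
    simp only [map_add, LinearMap.add_apply, hs (pt F')]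
    ring
  refine ⟨fun e => ?_, fun g χ hG p q => ?_⟩
  · have a1 := abs_le.1 (a (as_EE _) (m _) (f1 e.1))
    have a2 := abs_le.1 (a (as_EE _) (m _) (f1 e.2))
    have a3 := abs_le.1 (a ((as_EE _).add (as_EE _)) (m2 _ _) (f2 e.1 e.2))
    have n1 : (0 : ℝ) < 2 * (n ^ 4 * t ^ 2) := by positivity
    rw [pol] at a3
    rw [abs_le, le_sub_iff_add_le, le_div_iff₀ n1, sub_le_iff_le_add, div_le_iff₀ n1]
    constructor <;> linarith
  · have g0 := hG 0 0 fx_zero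
    rw [an_zero] at g0
    have b : ∀ {F ϑ}, As F → ‖F‖ ≤ 2 → Fx n (t • F) ϑ →
        |k (pt (Ty.mt g F)) (pt (Ty.mt g F)) - sb χ * k (pt F) (pt F)| ≤ 4 * η := fun h1 h2 h3 => by
      have a1 := abs_le.1 (a h1 h2 h3)
      have a2 := abs_le.1 (a (as_mt h1 g) ((norm_mt g).trans h2) (mt_smul g t _ ▸ fx_an h3 g))
      rw [hG _ _ h3] at a2
      cases χ <;> simp only [sb, if_true, Bool.false_eq_true, if_false] at g0 a2 ⊢ <;>
        push_cast at g0 a2 ⊢ <;>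
        refine abs_le.2 ⟨le_of_mul_le_mul_left ?_ n0, le_of_mul_le_mul_left ?_ n0⟩ <;> linarith
    have b1 := abs_le.1 (b (as_EE _) (m _) (f1 p))
    have b2 := abs_le.1 (b (as_EE _) (m _) (f1 q))
    have b3 := abs_le.1 (b ((as_EE _).add (as_EE _)) (m2 _ _) (f2 p q))
    rw [mt_add, pol, pol] at b3
    exact abs_le.2 ⟨by linarith, by linarith⟩

namespace LF

variable (h : LF S v e) {b d : Lx × Ac} {f f' : Conf → ℂ}
  (z : Sz S.p S.nf S.Q S.g u u ω b.1 b.2) (z' : Sz S.p S.nf S.Q S.g x y ω' d.1 d.2)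
  (r : Re S.p S.nf d.1 d.2) (p : Rt S b d f f') (f0 : f (ab 0) ≠ 0)
  (hu : S.Q ^ 300 * u * S.g ^ 2 ≤ 1) (h1 : ω ≤ ω') (h2 : √S.g ≤ ω') (h3 : S.Q ^ 100 * ω' ≤ 1)
  (P1 : S.Q ^ 14 ≤ P) (P2 : P ^ 2 ≤ S.β)
include h z z' r p f0 hu h1 h2 h3 P1 P2

/-- the variation of the logarithm on flux fields -/
theorem fd0 : ∃ (k : BF) (c : ℝ), (∀ a b, k a b = k b a) ∧
    (∀ F F', As F → As F' → qc (d.1 0) (pt F) (pt F') = k (pt F) (pt F')) ∧
    ∀ F ϑ, As F → ‖F‖ ≤ 2 * tq S.nf (S.g / P) → Fx S.nf F ϑ →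
      |lg f f' (ab ϑ) - c + S.nf ^ 4 * k (pt F) (pt F)| ≤
        5 * P ^ 2 * ω' * (x + y) * tq S.nf (S.g / P) ^ 2 * S.nf ^ 4 := by
  have Q0 := S.Q0
  obtain ⟨t0, t1, t2, t3⟩ := h.tq_bd ((le_self_pow₀ S.Q1 (by norm_num)).trans P1) P2
  obtain ⟨κ, κ', p⟩ := p
  obtain ⟨hψ, k, hK, h0⟩ := z
  obtain ⟨hψ', k', hK', h0'⟩ := z'
  have ρ0 := h.ρ0
  obtain ⟨k0, k1, k2, -⟩ := (hψ' 0).1.elim
  obtain ⟨x0, y0, -⟩ := (hψ' 0).1.nonneg ρ0
  obtain ⟨u0, -, -⟩ := (hψ 0).1.nonneg ρ0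
  replace y0 := (mul_nonneg_iff_of_pos_left (pow_pos Q0 2)).1 y0
  have o := h.nu.ok.odd_nf
  have g0 := h.nu.ok.g0
  have ω0 := (sqrt_pos.2 g0).trans_le h2
  have κ0 : κ ≠ 0 := fun e => f0 (by rw [(p _ fx_zero.per).1, e, zero_mul])
  have cd := TCov.cx o r.2.2
  have s1 : 1000 * (S.Q ^ 2 * (u * S.g ^ 2)) ≤ 1 := by
    linarith only [mul_le_mul_of_nonneg_right (qpw h.nu (i := 2) (j := 300) (by norm_num))
      (show 0 ≤ u * S.g ^ 2 by positivity), hu]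
  have s2 : u * S.g ^ 2 ≤ S.Q ^ 2 * (u * S.g ^ 2) :=
    le_mul_of_one_le_left (by positivity) (one_le_pow₀ S.Q1)
  have s3 : ω * u * S.g ^ 2 ≤ ω' := by
    rw [mul_assoc]
    exact (mul_le_mul_of_nonneg_right h1 (by positivity)).trans
      (mul_le_of_le_one_right ω0.le (by linarith only [s1, s2]))
  have s4 := qom h.nu h3 (i := 50) (by norm_num)
  have s5 := qom h.nu h3 (i := 1) (by norm_num)
  refine ⟨reK k0, κ'.re, fun a b => by simp [k1.symm a], fun F F' hF hF' => ?_,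
    fun F ϑ hF hd hϑ => ?_⟩
  · have i := (hψ' 0).1.real_q2 ρ0 (r.1 0) (pt F) (pt F')
    rw [k2] at i
    rw [qc, k2, cc_eq hF, cc_eq hF']
    exact Complex.ext rfl i
  obtain ⟨c1, c2, -, -, c3⟩ := h.small (by linarith only [t0]) t3
  obtain ⟨w1, w2, w3⟩ := h.fd_num t0 t2 c3 x0 y0 h2 h3 P1
  have v := ps_val (hψ' 0).1 hF hd c1 c2
  have v1 := (hψ' 0).1.bd_em (cc_val k1.cc hF hd c1).1 c2
  obtain ⟨b1, b2⟩ := rep_der (Φ := S.Φ b.1) (Φ' := d.1) (δ := 49 * S.Q ^ 2 * (x + y) *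
    tq S.nf (S.g / P) ^ 2) h.pg1.1 o hK hK' (h0.mono s3) h0' ω0
    (le_trans (by rw [inv_eq_one_div, le_div_iff₀ Q0]; linarith only [s5, mul_pos Q0 ω0])
      h.pg1.2) hϑ.per (h.chi hϑ hd t3) one_pos fun x => ⟨by
      rw [hϑ.bx hF, one_div]
      exact h.val2 hψ (by linarith only [s1, s2]) (by
        linarith only [mul_le_mul_of_nonneg_left s3 (pow_pos Q0 50).le, s4]) hF hd
        (by linarith only [t0]) t3 x, by
      rw [hϑ.bx hF, cd]
      exact v1.trans (by linarith only [w2, w3])⟩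
  simp only [hϑ.bx hF, cd, sum_const, nsmul_eq_mul] at b2
  have e : f' (ab ϑ) / f (ab ϑ) = dR S b d (ab ϑ) / Rep S.p S.nf (S.Φ b.1) b.2 (ab ϑ) + κ' := by
    rw [(p _ hϑ.per).2, (p _ hϑ.per).1]
    field_simp
  have e' : ∀ t : ℂ, S.Φ b.1 + t • d.1 = S.Φ (b.1 + t • d.1) := fun t => by
    funext x B; simp [Sd.Φ, add_assoc]
  simp only [e'] at b2
  have b3 := (Complex.abs_re_le_norm _).trans b2
  have v2 := (Complex.abs_re_le_norm _).trans v
  rw [qc, k2, cc_eq hF, Complex.sub_re] at v2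
  rw [Complex.add_re, ← Complex.ofReal_natCast, card_dom o, Complex.re_ofReal_mul] at b3
  rw [lg, e, Complex.add_re, add_sub_cancel_right, reK_apply, dR]
  have n0 : (0 : ℝ) ≤ S.nf ^ 4 := by positivity
  generalize tq S.nf (S.g / P) = t at *
  have xy := mul_nonneg (add_nonneg x0 y0) (sq_nonneg t)
  have P3 : S.Q ^ 28 ≤ P ^ 2 := by
    rw [show 28 = 14 * 2 from rfl, pow_mul]; gcongr
  have w4 := mul_le_mul_of_nonneg_right P3 (mul_nonneg ω0.le xy)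
  have w5 := mul_le_mul_of_nonneg_right (qpw h.nu (i := 2) (j := 28) (by norm_num))
    (mul_nonneg ω0.le xy)
  have w6 : ω' * y * S.g ^ 2 ≤ ω' * (x + y) * (P * t) ^ 2 := by
    gcongr
    linarith only [x0]
  have w7 := mul_nonneg (pow_pos Q0 2).le (mul_nonneg ω0.le xy)
  have b4 := abs_le.1 (b3.trans (mul_le_mul_of_nonneg_right (show _ ≤
    3 * (P ^ 2 * ω' * (x + y) * t ^ 2) by linarith only [w4, w5, w6, w7]) n0))
  have w8 := mul_le_mul_of_nonneg_right (v2.trans (show _ ≤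
    2 * (P ^ 2 * ω' * (x + y) * t ^ 2) by linarith only [w1, w2, w4])) n0
  rw [← abs_of_nonneg n0, ← abs_mul, abs_of_nonneg n0, abs_le] at w8
  exact abs_le.2 ⟨by linarith only [b4.1, w8.1, w8.2], by linarith only [b4.2, w8.1, w8.2]⟩

/-- the flux lemma with a signed symmetry -/
theorem fty : (∀ e, |rsp S.nf (S.g / P) e (lg f f') - (qc (d.1 0) (pt (EE e.1)) (pt (EE e.2))).re| ≤
      10 * P ^ 2 * ω' * (x + y)) ∧
    ∀ T E c, Det T E → Sym S.nf f → Sgn S.nf T f' → 0 ≤ c →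
      (∀ e ∈ E, |rsp S.nf (S.g / P) e (lg f f')| ≤ c) →
        nb (d.1 0) ≤ 64 * c + 10000 * P ^ 2 * ω' * (x + y) := by
  obtain ⟨k, c0, a1, a2, a3⟩ := h.fd0 z z' r p f0 hu h1 h2 h3 P1 P2
  obtain ⟨b1, b2⟩ := ty_def h.n0 (h.tq_bd ((le_self_pow₀ S.Q1 (by norm_num)).trans P1) P2).1 a1 a3
  have η0 := (abs_nonneg _).trans (b1 0)
  refine ⟨fun e => ?_, fun T E c hD s s' c0 hE => ?_⟩
  · rw [a2 _ _ (as_EE _) (as_EE _), Complex.ofReal_re]
    exact (b1 e).trans_eq (by ring)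
  · have := hD.le a1 (e := c + 10 * P ^ 2 * ω' * (x + y)) (η := 30 * P ^ 2 * ω' * (x + y))
      (by linarith) (by linarith) (fun e he => by
        linarith [abs_sub_abs_le_abs_sub (k (pt (EE e.1)) (pt (EE e.2)))
          (rsp S.nf (S.g / P) e (lg f f')), abs_sub_comm (k (pt (EE e.1)) (pt (EE e.2)))
          (rsp S.nf (S.g / P) e (lg f f')), b1 e, hE e he])
      fun g hg p q => (b2 g.1 g.2 (fun F ϑ hϑ => by
        rw [lg, lg, ab_an, sym_cf s _ hϑ.per, s' g hg _ hϑ.per, mul_div_assoc, ← Complex.ofReal_intCast,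
          Complex.re_ofReal_mul]) p q).trans_eq (by ring)
    refine (sum_le_sum fun p _ => sum_le_sum fun q _ => show _ ≤
      (c + 130 * P ^ 2 * ω' * (x + y)) / 4 by
        rw [a2 _ _ (as_EE _) (as_EE _), Complex.norm_real, norm_eq_abs]
        linarith [this p q]).trans ?_
    simp only [sum_const, card_univ, Fintype.card_prod, Fintype.card_fin, nsmul_eq_mul]
    push_cast
    linarith

end LF

end Pool.Agent.Lib.MP_7f377f_mp.RG.Q4.En
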