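import Pool.Agent.Lib.MP_7f377f_mp.G.TyS

/-! Smeared words: the hypotheses of the merging. -/

noncomputable section

set_option linter.unusedSectionVars false
variable [Pool.Agent.Lib.MP_7f377f_mp.GD]

namespace Pool.Agent.Lib.MP_7f377f_mp.RG.Q4.En.Gl

open Finset Real Sg Br YM7 Ob Pos
open Weak (Site corner)
open scoped Classical

attribute [local irreducible] box tb tau rc

namespace TG

variable {n R : ℕ} [NeZero n] {x y : St} {g : Site 4 n → ℝ} {a a' : ℝ}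

/-- the distance in the torus -/
theorem near_iff : nearT n R x y ↔
    ∀ i, ((Fi.cst n y - Fi.cst n x) i).valMinAbs.natAbs ≤ R := by
  refine ⟨fun h i => ?_, fun h => ?_⟩
  · obtain ⟨t, h1, h2⟩ := near_cst h i
    have := ZMod.natAbs_min_of_le_div_two n _ t ((ZMod.coe_valMinAbs _).trans h2)
      (ZMod.natAbs_valMinAbs_le _)
    have := abs_le.1 h1
    omega
  · have : ∀ i, ∃ v : ℤ, y i - x i - ((Fi.cst n y - Fi.cst n x) i).valMinAbs = n * v := fun i =>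
      (ZMod.intCast_eq_intCast_iff_dvd_sub _ _ _).1 (by simp [Fi.cst])
    choose v hv using this
    exact nearT_iff.2 ⟨v, fun i => by have := hv i; have := h i; omega⟩

theorem near_smul (r : ℕ) {m : ℕ} (h : nearT m R x y) :
    nearT (r * m) (r * R) ((r : ℤ) • x) ((r : ℤ) • y) := by
  obtain ⟨v, hv⟩ := nearT_iff.1 h
  refine nearT_iff.2 ⟨v, fun i => ?_⟩
  have r0 : (0 : ℤ) ≤ r := Int.natCast_nonneg r
  have a1 := mul_le_mul_of_nonneg_left (hv i).1 r0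
  have a2 := mul_le_mul_of_nonneg_left (hv i).2 r0
  simp only [Pi.smul_apply, smul_eq_mul]
  push_cast
  constructor <;> linarith

omit [NeZero n] in
theorem trS_tb (m r : ℕ) (v z : St) : trS m v (tb m r {z}) = tb m r {z + v} := by
  ext w
  simp only [trS, mem_image, mem_tb_single]
  constructor
  · rintro ⟨u, ⟨-, h⟩, rfl⟩
    exact ⟨rc_rc _ _, nearT_rc_right.2 ((nearT_add_right v).2 h)⟩
  · rintro ⟨h1, h⟩
    refine ⟨rc m (w - v), ⟨rc_rc _ _, nearT_rc_right.2 ((nearT_add_right v).1 ?_)⟩, ?_⟩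
    · rwa [sub_add_cancel]
    · rw [rc_add_rc, sub_add_cancel, h1]

omit [NeZero n] in
theorem tb_congr {m r : ℕ} {z z' : St} (h : nearT m 0 z z') : tb m r {z} = tb m r {z'} := by
  ext w
  simp only [mem_tb_single]
  exact and_congr_right fun _ => ⟨fun e => (h.symm.trans e).mono (by omega),
    fun e => (h.trans e).mono (by omega)⟩

omit [NeZero n] in
theorem ltv_eq (g : Site 4 n → ℝ) (v x : Site 4 n) (μ ν : Fin 4) :
    ltv g v x μ ν = -sy g (x - v) μ ν := by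
  simp only [ltv, sy, add_sub_right_comm _ _ v]
  ring

/-- the support of a symmetrised profile -/
theorem sy_near {μ ν : Fin 4} (h : sy g (Fi.cst n x) μ ν ≠ 0) :
    ∃ z, nearT n 2 z x ∧ g (Fi.cst n z) ≠ 0 := by
  have u : ∀ (i : Fin 4) (z : St), nearT n 1 (z + un i) z := fun i z =>
    nearT_iff.2 ⟨0, fun j => by by_cases e : j = i <;> simp [un, e]⟩
  by_contra! e
  apply h
  have a1 := e x (nearT.refl _ _ _)
  have a2 := e _ ((u μ x).mono one_le_two)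
  have a3 := e _ ((u ν x).mono one_le_two)
  have a4 := e _ (((u ν (x + un μ)).trans (u μ x)).mono (by norm_num))
  simp only [Fi.cst_add, Fi.cst_un1] at a2 a3 a4
  simp [sy, a1, a2, a3, a4]

omit [NeZero n] in
theorem lqq_mono (h : Lqq a' g) (e : a' ≤ a) : Lqq a g := ⟨h.1, fun x l => (h.2 x l).trans e⟩

omit [NeZero n] in
theorem lqq_sub (h : Lqq a g) (v : Site 4 n) : Lqq a fun x => g (x - v) :=
  ⟨fun _ => h.1 _, fun x l => by simpa only [add_sub_right_comm x] using h.2 (x - v) l⟩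

theorem gfield_mul (c : ℝ) (g : Site 4 n → ℝ) (U : Cfg n) :
    gfield (sy fun x => c * g x) U = c * gfield (sy g) U := by
  simp only [gfield, mul_sum, mul_ite, mul_zero, sy]
  refine sum_congr rfl fun _ _ => sum_congr rfl fun _ _ => sum_congr rfl fun _ _ => ?_
  split_ifs <;> ring

theorem sum_sig {γ β : Type} [Fintype γ] [DecidableEq γ] {α : γ → Type} [∀ q, Fintype (α q)]
    [AddCommMonoid β] (p : (Σ q, α q) → Prop) [DecidablePred p] (F : (Σ q, α q) → β)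
    (hF : ∀ ω, ¬ p ω → F ω = 0) (q : γ) [DecidablePred fun ω : Σ q, α q => ω.1 = q] :
    ∑ ω ∈ (univ.filter p).filter (·.1 = q), F ω = ∑ x, F ⟨q, x⟩ := by
  rw [filter_comm, sum_filter_of_ne fun ω _ e => by_contra fun u => e (hF ω u), sum_filter,
    Fintype.sum_sigma, sum_eq_single q (fun q' _ e => by simp [e]) (by simp)]
  simp

end TG

open TG

variable {G : Gl} {b a a' C Δ : ℝ} {J k l n' c ρ : ℕ} [NeZero (G.N J)] [NeZero n'] {P : Grd}
  {α κ γ : Type} [Fintype α] [Fintype κ] [DecidableEq κ] [Inhabited κ] [Fintype γ] [DecidableEq γ]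
  {Λ : Lwd (G.N J) α κ} {g : Site 4 (G.N J) → ℝ}

/-- the slowly varying part of a smeared source -/
theorem pf_sy (hg : Lqq a g) (ν : ℝ) : LipT (G.N J) (|ν| * (4 * a)) (fun x => ((ν * g (Fi.cst _ x) : ℝ) : ℂ)) ∧
    ∀ x μ μ', ‖symF (sy fun x => ν * g x) x μ μ' - ((ν * g (Fi.cst _ x) : ℝ) : ℂ)‖ ≤ |ν| * (2 * a) := by
  have e : ∀ x l, |ν * g (x + Pi.single l 1) - ν * g x| ≤ |ν| * a := fun x l => by
    rw [← mul_sub, abs_mul]
    exact mul_le_mul_of_nonneg_left (hg.2 x l) (abs_nonneg _)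
  refine ⟨by rw [mul_left_comm]; exact lipT_zmod (g := fun x => ν * g x) e, fun x μ μ' => ?_⟩
  rw [symF, ← Complex.ofReal_sub, Complex.norm_real, Real.norm_eq_abs, sy]
  have a1 := abs_le.1 (e (Fi.cst _ x) (min μ μ'))
  have a2 := abs_le.1 (e (Fi.cst _ x) (max μ μ'))
  have a3 := abs_le.1 (e (Fi.cst _ x + Pi.single (min μ μ') 1) (max μ μ'))
  exact abs_le.2 ⟨by linarith, by linarith⟩

namespace Ok

variable (h : G.Ok)
include h

theorem wo_gw (ω : Site 4 n' × α) {U : Conf} (hU : Per (G.N J) U) :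
    (G.gwT b J k n' P Λ).wo (G.N J) ω U = (∏ i, (cen (Fi.tr haar) b (sy (Λ.g ω.2 i))
      (Weak.shift (corner P.s ω.1) (Fi.rs _ U)) + Λ.τ ω.2 i) : ℝ) := by
  rw [Ws.wo, Complex.ofReal_prod]
  refine prod_congr rfl fun i _ => ?_
  have e : ltv (Λ.g ω.2 i) (corner P.s ω.1) =
      sy fun x => (-1) * Λ.g ω.2 i (x - corner P.s ω.1) := by simp only [ltv, neg_one_mul]
  have e' : (sy fun x => Λ.g ω.2 i (x - corner P.s ω.1)) =
      fun x => sy (Λ.g ω.2 i) (x - corner P.s ω.1) := by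
    funext x μ ν
    simp only [sy, add_sub_right_comm _ _ (corner P.s ω.1)]
  simp only [gwT]
  rw [sO_per (h.N_odd J) _ hU, e, gfield_mul, e', gfield_shift, cen, YM7.ex]
  push_cast
  ring

/-- the observables of the cells -/
theorem xo_aw {α : γ → Type} [∀ q, Fintype (α q)] (Λ : ∀ q, Lwd (G.N J) (α q) κ) (μ ν : γ → ℝ)
    (φ : γ → Site 4 (G.N J) → ℝ) : Xo (G.N J) ((G.aw b J k n' P Λ ν φ ρ).X (G.N J) fun ω =>
      (μ ω.1 * φ ω.1 (corner P.s ω.2.1) * (Λ ω.1).w ω.2.2 : ℝ))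
      fun q => ltr n' P.s ((Λ q).ob (Fi.tr haar) b) (μ q) (ν q) (φ q) := fun q => by
  have : (Fi.tr haar).IsHaarMeasure := (inferInstance : haar.IsHaarMeasure)
  refine ⟨gi_cont ?_ fun u U => by simp only [Ws.X, Ws.wo, sO_gauge], cont_ltr (cont_wob _),
    fun U hU => ?_⟩
  · exact (cont_sO _).neg.add (continuous_finsetSum _ fun ω _ => continuous_const.mul
      (continuous_finsetProd _ fun l _ => (cont_sO _).neg.sub continuous_const))
  have e : (sy fun x => -(ν q * φ q x)) = sy fun x => -ν q * φ q x := by simp only [neg_mul]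
  rw [Ws.X]
  refine (congrArg₂ _ rfl (sum_sig _ _ (fun ω u => by simp [not_not.1 u]) q)).trans ?_
  have w : ∀ x : Site 4 n' × α q, (G.aw b J k n' P Λ ν φ ρ).wo (G.N J) ⟨q, x⟩ U =
      (G.gwT b J k n' P (Λ q)).wo (G.N J) x U := fun _ => rfl
  simp only [w, h.wo_gw _ hU]
  simp only [aw]
  rw [sO_per (h.N_odd J) _ hU, e, gfield_mul, ltr, smr, Fintype.sum_prod_type]
  simp only [Lwd.ob, mul_sum]
  push_cast
  rw [add_comm]
  refine congrArg₂ _ (sum_congr rfl fun _ _ => sum_congr rfl fun _ _ => ?_) (by ring)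
  ring

omit h in
theorem uq_aw {α : γ → Type} [∀ q, Fintype (α q)] (Λ : ∀ q, Lwd (G.N J) (α q) κ) (μ ν : γ → ℝ)
    (φ : γ → Site 4 (G.N J) → ℝ) (q : γ) : G.uq b J k n' P (Λ q) (μ q) (ν q) (φ q) =
      G.tv ((G.aw b J k n' P Λ ν φ ρ).P q) b J k + (0, ∑ ω ∈ (G.aw b J k n' P Λ ν φ ρ).Om.filter
        ((G.aw b J k n' P Λ ν φ ρ).cl · = q), ((μ ω.1 * φ ω.1 (corner P.s ω.2.1) *
          (Λ ω.1).w ω.2.2 : ℝ) : ℂ) • G.wI b J k (G.aw b J k n' P Λ ν φ ρ) ω) :=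
  congrArg₂ _ rfl (congrArg _ (sum_sig _ (fun ω => ((μ ω.1 * φ ω.1 (corner P.s ω.2.1) *
    (Λ ω.1).w ω.2.2 : ℝ) : ℂ) • G.wI b J k (G.aw b J k n' P Λ ν φ ρ) ω)
    (fun ω u => by simp [not_not.1 u]) q).symm)

variable (K : G.Gk J k n' P κ a c C)
include K

theorem gk_n : n' = P.t * G.N k ∧ 0 < P.s ∧ 0 < P.t := by
  have r : 0 < P.t * P.s := K.ht ▸ pow_pos three_pos _
  have s := Nat.pos_of_mul_pos_left r
  refine ⟨Nat.eq_of_mul_eq_mul_right s ?_, s, Nat.pos_of_mul_pos_right r⟩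
  rw [← K.hn, ← h.rt_N K.lt.le, K.ht]
  ring

/-- the number of grid points near a site -/
theorem cnt (r : ℕ) (y : St) : (univ.filter fun x : Site 4 n' =>
    y ∈ tb (G.N k) r {bkp P.t x}).card ≤ ((2 * r + 1) * P.t) ^ 4 := by
  obtain ⟨e, -, t0⟩ := h.gk_n K
  refine (card_le_card_of_injOn (t := tb (G.N k) r {y} ×ˢ Fintype.piFinset fun _ : Fin 4 => range P.t)
    (fun x => (rc (G.N k) (bkp P.t x), fun i => (x i).val % P.t)) (fun x hx => ?_)
    fun x _ x' _ u => ?_).trans ?_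
  · refine mem_coe.2 (mem_product.2 ⟨mem_tb_single.2 ⟨rc_rc _ _, nearT_rc_right.2
      (mem_tb_single.1 (mem_filter.1 hx).2).2.symm⟩, Fintype.mem_piFinset.2 fun i => ?_⟩)
    exact mem_range.2 (Nat.mod_lt _ t0)
  · obtain ⟨u1, u2⟩ := Prod.mk.inj u
    obtain ⟨v, hv⟩ := nearT_iff.1 (nearT_zero.2 u1)
    funext i
    have b : ∀ z : ZMod n', z.val / P.t < G.N k := fun z =>
      Nat.div_lt_of_lt_mul (e ▸ ZMod.val_lt z)
    have a1 : ((x' i).val / P.t : ℕ) - (((x i).val / P.t : ℕ) : ℤ) = G.N k * v i := by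
      have := hv i
      simp only [bkp] at this
      omega
    have a2 : (x' i).val / P.t = (x i).val / P.t := by
      have b1 := b (x i)
      have b2 := b (x' i)
      generalize (x i).val / P.t = p at *
      generalize (x' i).val / P.t = p' at *
      have : v i = 0 := by
        by_contra z
        rcases lt_or_gt_of_ne z with z | z <;> nlinarith
      rw [this] at a1
      omega
    refine ZMod.val_injective _ ?_
    rw [← Nat.div_add_mod (x i).val P.t, ← Nat.div_add_mod (x' i).val P.t, a2, congrFun u2 i]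
  · rw [card_product, Fintype.card_piFinset, mul_pow]
    simp only [card_range, prod_const, card_univ, Fintype.card_fin]
    exact Nat.mul_le_mul_right _ ((card_tb_le _ _ _).trans_eq (by rw [card_singleton, one_mul]))

theorem near_cor (x : Site 4 n') : nearT (G.N J) (G.rt J k - 1) ((G.rt J k : ℤ) • bkp P.t x)
    (Fi.vl (corner P.s x : Site 4 (G.N J))) := by
  obtain ⟨-, s0, t0⟩ := h.gk_n K
  have e : (corner P.s x : Site 4 (G.N J)) = Fi.cst _ fun i => (P.s * (x i).val : ℕ) :=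
    funext fun i => (Int.cast_natCast _).symm
  rw [e, Fi.vl_cst, nearT_rc_right]
  refine nearT_iff.2 ⟨0, fun i => ?_⟩
  have a1 := Nat.div_add_mod (x i).val P.t
  have a2 := Nat.mod_lt (x i).val t0
  simp only [Pi.smul_apply, smul_eq_mul, bkp, Pi.zero_apply, mul_zero, sub_zero, K.ht]
  generalize (x i).val / P.t = p at *
  generalize (x i).val % P.t = q at *
  have a3 : P.s * q + 1 ≤ P.t * P.s := by nlinarith
  rw [← a1]
  have a4 : ((P.s * (P.t * p + q) : ℕ) : ℤ) - (P.t * P.s : ℕ) * (p : ℤ) = (P.s * q : ℕ) := by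
    push_cast; ring
  rw [a4]
  omega

theorem near_rc (z : St) :
    nearT (G.N J) 0 ((G.rt J k : ℤ) • rc (G.N k) z) ((G.rt J k : ℤ) • z) := by
  simpa only [h.rt_N K.lt.le, mul_zero] using near_smul (G.rt J k) (nearT_rc (G.N k) z).symm

theorem near_bkp (x : Site 4 n') : ∃ z ∈ tb (G.N k) 0 {bkp P.t x},
    nearT (G.N J) (G.rt J k) ((G.rt J k : ℤ) • z) (Fi.vl (corner P.s x : Site 4 (G.N J))) :=
  ⟨_, mem_tb_single.2 ⟨rc_rc _ _, nearT_rc _ _⟩,
    ((h.near_rc K _).trans (h.near_cor K x)).mono (by omega)⟩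

/-- translation invariance -/
theorem inv_gw (v : St) : ∃ u : Site 4 n' × α → Site 4 n' × α, Function.Bijective u ∧ ∀ ω,
    (u ω).2 = ω.2 ∧ ((G.gwT b J k n' P Λ).F (u ω) =
      fun l => srT (G.N J) ((G.rt J k : ℤ) • v) ((G.gwT b J k n' P Λ).F ω l)) ∧
    (G.gwT b J k n' P Λ).Z0 ω = trS (G.N k) v ((G.gwT b J k n' P Λ).Z0 (u ω)) ∧
    (G.gwT b J k n' P Λ).X0 ω = trS (G.N k) v ((G.gwT b J k n' P Λ).X0 (u ω)) := by
  obtain ⟨e, s0, t0⟩ := h.gk_n K
  let w : Site 4 n' := fun i => ((P.t * v i : ℤ) : ZMod n')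
  have a1 : ∀ x : Site 4 n', (corner P.s (x - w) : Site 4 (G.N J)) =
      corner P.s x - Fi.cst _ ((G.rt J k : ℤ) • v) := fun x => funext fun i => by
    rw [corner, Weak.corner_int K.hn _ ((x i).val - P.t * v i) (by simp [w])]
    simp only [Pi.sub_apply, corner, Fi.cst, Pi.smul_apply, smul_eq_mul, K.ht]
    push_cast
    ring
  have a2 : ∀ x : Site 4 n', nearT (G.N k) 0 (bkp P.t x) (bkp P.t (x - w) + v) := fun x => by
    have : ∀ i, ∃ m : ℤ, (((x - w) i).val : ℤ) - ((x i).val - P.t * v i) = n' * m := fun i =>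
      (ZMod.intCast_eq_intCast_iff_dvd_sub _ _ _).1 (by simp [w])
    choose m hm using this
    refine nearT_iff.2 ⟨m, fun i => ?_⟩
    have a : (((x - w) i).val : ℤ) = (x i).val + P.t * (G.N k * m i - v i) := by
      have := hm i
      rw [show (n' : ℤ) = P.t * G.N k by exact_mod_cast e] at this
      linarith
    simp only [bkp, Pi.add_apply, Int.natCast_div]
    rw [a, Int.add_mul_ediv_left _ _ (by exact_mod_cast t0.ne')]
    omega
  refine ⟨fun ω => (ω.1 - w, ω.2), ((Equiv.subRight w).prodCongr (Equiv.refl α)).bijective,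
    fun ω => ⟨rfl, funext fun l => funext fun x => ?_, ?_, ?_⟩⟩
  · funext μ ν
    simp only [gwT, srT, symF, ltv_eq, Fi.cst_rc, Fi.cst_add, a1]
    rw [sub_sub_eq_add_sub]
  all_goals
    simp only [gwT, trS_tb]
    exact tb_congr (a2 _)

omit K in
theorem D_one (k : ℕ) : 1 ≤ (G.p k).D := by exact_mod_cast h.D_pos k

/-- the support of a letter -/
theorem sup_ltv (W : G.Wk b J k P a C Λ) (ω : α) (i : κ) (v : Site 4 (G.N J)) :
    sup (ltv (Λ.g ω i) v) ⊆ tb (G.N J) (P.R + 2) {Fi.vl v} := fun y hy => by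
  have _ := K
  obtain ⟨μ, ν, u⟩ := mem_sup hy
  obtain ⟨z, z1, z2⟩ := sy_near u
  refine mem_tb_single.2 ⟨rc_eq (h.N_odd J) (mem_filter.1 hy).1, .trans (near_iff.2 fun l => ?_) z1⟩
  rw [Fi.cst_vl]
  exact W.sup ω i _ (neg_ne_zero.1 z2) l

theorem zs_ltv (W : G.Wk b J k P a C Λ) (ω : Site 4 n' × α) (i : κ) :
    G.zs ((G.gwT b J k n' P Λ).V ω i) J k ⊆ (G.gwT b J k n' P Λ).Z0 ω := by
  have r : 0 < G.rt J k := pow_pos three_pos _
  have a1 : (G.gwT b J k n' P Λ).V ω i ⊆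
      tb (G.N J) (P.R + 1 + G.rt J k) {(G.rt J k : ℤ) • bkp P.t ω.1} := fun y hy =>
    have e := mem_tb_single.1 (h.sup_ltv K W _ _ _ hy)
    mem_tb_single.2 ⟨e.1, ((h.near_cor K ω.1).trans e.2).mono (by omega)⟩
  obtain ⟨y, a2⟩ := h.zs_rad (i := J) (X := tb (G.N J) (P.R + 1 + G.rt J k)
    {(G.rt J k : ℤ) • bkp P.t ω.1}) Subset.rfl k K.lt.le
  have a3 := nearT_rc_right.1 (mem_tb_single.1 (a2 (h.mem_zs k K.lt.le (bkp P.t ω.1)
    (mem_tb_single.2 ⟨rc_rc _ _, nearT_rc_right.2 (nearT.refl _ _ _)⟩)))).2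
  intro z hz
  have a4 := mem_tb_single.1 (a2 (zs_mono a1 k K.lt.le hz))
  refine mem_tb_single.2 ⟨a4.1, (a3.symm.trans a4.2).mono ?_⟩
  have := K.rad
  rw [Nat.add_div_right _ r, show (G.p k).R = 4 * G.L k ^ G.K0 from rfl]
  omega

theorem wd_gw (ω : Site 4 n' × α) : ((G.gwT b J k n' P Λ).X0 ω).Nonempty ∧
    (G.gwT b J k n' P Λ).Z0 ω ⊆ (G.gwT b J k n' P Λ).X0 ω ∧
    tb (G.N k) ((G.p k).R + 3) ((G.gwT b J k n' P Λ).Z0 ω) ⊆ (G.gwT b J k n' P Λ).X0 ω ∧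
    tau (G.N k) (G.p k).D ((G.gwT b J k n' P Λ).X0 ω) ≤ c := by
  refine ⟨⟨_, mem_tb_single.2 ⟨rc_rc _ _, nearT_rc_right.2 (nearT.refl _ _ _)⟩⟩,
    tb_mono Subset.rfl (Nat.sub_le _ _), ?_, (tau_big (h.D_one k) _ _).trans K.tau⟩
  have := K.rad
  simp only [gwT, tb_tb]
  refine tb_mono Subset.rfl ?_
  rw [show (G.p k).R = 4 * G.L k ^ G.K0 from rfl]
  omega

theorem sep_gw (W : G.Wk b J k P a C Λ) {j : ℕ} (h1 : k < j) (h2 : j ≤ J) (ω : Site 4 n' × α) :
    Cls (G.N j) (3 * (G.p j).D) univ id fun l => G.zs ((G.gwT b J k n' P Λ).V ω l) J j := by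
  have _ := K
  refine h.zs_cls (Δ := G.ds J (k + 1)) (fun i _ i' _ e => sep_sp (F := fun i =>
    ltv (Λ.g ω.2 i) (corner P.s ω.1)) (fun i i' e x μ ν y μ' ν' u u' => ?_) e) zero_le_three
    (by rw [ds]; push_cast; linarith) h1 h2
  simp only [ltv_eq, neg_ne_zero] at u u'
  simpa only [sub_sub_sub_cancel_right] using W.sep ω.2 i i' e _ _ _ _ _ _ u u'

variable (t : G.Tu b J) (hp : G.Pu)
include t hp

/-- slowly varying sources are admissible -/
theorem ra_sy (hg : Lqq a g) {σ ν : ℝ} (σ0 : 0 < σ) (hσ : σ * |ν| ≤ G.sg l) (hl : l ≤ k + 1) :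
    G.Ra b J k σ (symF (sy fun x => ν * g x)) := by
  rcases eq_or_ne ν 0 with rfl | ν0
  · have : symF (sy fun x => 0 * g x) = 0 := by
      funext x μ ν
      simp [symF, sy]
    rw [this]
    exact (h.ra_zero (k := k) t σ).2
  have n0 := abs_pos.2 ν0
  have a0 := K.a0
  obtain ⟨p1, p2⟩ := pf_sy hg ν
  have p3 : ∀ x, |ν * g x| ≤ |ν| := fun x => by
    rw [abs_mul]; exact mul_le_of_le_one_right n0.le (hg.1 x)
  refine ⟨fun x μ μ' => ?_, fun j h1 h2 => ⟨|ν| * G.Q j ^ 2, ?_, ?_⟩⟩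
  · have : ‖symF (sy fun x => ν * g x) x μ μ'‖ ≤ |ν| := by
      rw [symF, Complex.norm_real, Real.norm_eq_abs, sy]
      have a1 := abs_le.1 (p3 (Fi.cst _ x))
      have a2 := abs_le.1 (p3 (Fi.cst _ x + Pi.single (min μ μ') 1))
      have a3 := abs_le.1 (p3 (Fi.cst _ x + Pi.single (max μ μ') 1))
      have a4 := abs_le.1 (p3 (Fi.cst _ x + Pi.single (min μ μ') 1 + Pi.single (max μ μ') 1))
      exact abs_le.2 ⟨by linarith, by linarith⟩
    linarith [mul_le_mul_of_nonneg_left this σ0.le, (h.sig_le hσ (hl.trans K.lt)).2.2,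
      mul_pos σ0 n0]
  · rw [← mul_assoc σ]
    exact (h.sig_le hσ (hl.trans h1)).1
  · have e := mul_le_mul_of_nonneg_left (h.pe_sq (J := J) (l := k + 1) (a := 4 * a) (τ := 2 * a)
      (by positivity) K.a2 (by positivity) (by linarith [K.a1]) h1) n0.le
    have e' : G.pe J j (|ν| * (4 * a)) (|ν| * (2 * a)) = |ν| * G.pe J j (4 * a) (2 * a) := by
      simp only [pe]; ring
    refine h.sz_le (h.tv_sz' t (h.tv_all hp t) p1 (by positivity) (c := |ν|) (fun x => ?_) p2 h2)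
      (sqrt_nonneg _) (by linarith) (by linarith) (h.sg_le j)
    rw [Complex.norm_real]
    exact p3 _

theorem ra_gw (W : G.Wk b J k P a C Λ) (ω : Site 4 n' × α) (i : κ) :
    G.Ra b J k (G.sg (k + 1)) ((G.gwT b J k n' P Λ).F ω i) := by
  have := h.ra_sy K t hp (lqq_sub (W.lp ω.2 i) (corner P.s ω.1)) (ν := -1) (h.sg_pos (k + 1))
    (by simp) le_rfl
  simp only [neg_one_mul] at this
  exact this

theorem mw_gw (W : G.Wk b J k P a C Λ) :
    G.Mw b J k (G.gwT b J k n' P Λ) c C (G.sg (k + 1)) fun _ => 1 := by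
  refine ⟨K.lt, K.card, K.C0, K.big, ⟨h.sg_pos _, fun _ => one_pos⟩, fun ω _ => ?_,
    fun ω l x => symF_out (h.N_odd J), fun _ _ _ => rfl, fun ω _ l => ⟨filter_subset _ _,
      h.zs_ltv K W ω l, h.ra_gw K t hp W ω l, W.cen _ _ _⟩, fun _ => (h.ra_zero (k := k) t 1).2,
    fun j h1 h2 ω _ => h.sep_gw K W h1 h2 ω, fun _ _ _ _ _ _ _ e => (e rfl).elim⟩
  obtain ⟨a1, a2, a3, a4⟩ := h.wd_gw (b := b) (Λ := Λ) K ω
  refine ⟨a1, a2, a3, fun y hy => ?_, a4⟩
  rw [← (mem_tb_single.1 hy).1]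
  exact h.mem_zs k K.lt.le y (rc_mem (h.N_odd J) _)

omit K t hp in
theorem mem_fat {φ : Site 4 (G.N J) → ℝ} {y z : St} (e : φ (Fi.cst _ z) ≠ 0)
    (u : nearT (G.N J) ρ z y) : rc (G.N J) y ∈ sup (fat ρ φ) := by
  refine mem_filter.2 ⟨rc_mem (h.N_odd J) _, fun a => ?_⟩
  have := congrFun₂ a 0 0
  rw [fat, if_pos ⟨_, e, by rw [Fi.cst_rc]; exact near_iff.1 u⟩] at this
  exact one_ne_zero this

theorem mw_aw {α : γ → Type} [∀ q, Fintype (α q)] {Λ : ∀ q, Lwd (G.N J) (α q) κ} {ν r : γ → ℝ}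
    {φ : γ → Site 4 (G.N J) → ℝ} (W : ∀ q, G.Wk b J k P a C (Λ q)) (hφ : ∀ q, Lqq a' (φ q))
    (a0 : 0 < a') (ha : a' ≤ a) (r0 : ∀ q, 0 < r q) (hr : ∀ q, r q * |ν q| ≤ G.sg l) (hl : l ≤ k)
    (hρ : G.rt J k * (P.j * (G.p k).D + 1) + P.R + 1 ≤ ρ)
    (hs : Cls (G.N J) Δ univ id fun q => sup (fat ρ (φ q)))
    (hΔ : (40 * c + 106) * ((G.L k : ℝ) ^ G.K0 * G.rt J k) ≤ Δ) :
    G.Mw b J k (G.aw b J k n' P Λ ν φ ρ) c C (G.sg (k + 1)) r := by
  have _ := a0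
  have r1 : 0 < G.rt J k := pow_pos three_pos _
  have v : ∀ ω ∈ (G.aw b J k n' P Λ ν φ ρ).Om,
      φ ω.1 (Fi.cst _ (Fi.vl (corner P.s ω.2.1 : Site 4 (G.N J)))) ≠ 0 := fun ω e => by
    rw [Fi.cst_vl]; exact (mem_filter.1 e).2
  rw [mul_add_one] at hρ
  refine ⟨K.lt, K.card, K.C0, K.big, ⟨h.sg_pos _, r0⟩, fun ω e => ?_,
    fun ω l x => symF_out (h.N_odd J), fun q x u => ?_, fun ω e l => ⟨fun y hy => ?_,
      h.zs_ltv K (W _) ω.2 l, h.ra_gw K t hp (W _) ω.2 l, (W _).cen _ _ _⟩, fun q => ?_,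
    fun j h1 h2 ω _ => h.sep_gw K (W _) h1 h2 ω.2, fun j h1 h2 => ?_⟩
  · obtain ⟨a1, a2, a3, a4⟩ := h.wd_gw (b := b) (Λ := Λ ω.1) K ω.2
    refine ⟨a1, a2, a3, fun y hy => ?_, a4⟩
    obtain ⟨y1, y2⟩ := mem_tb_single.1 hy
    have := near_smul (G.rt J k) y2
    rw [h.rt_N K.lt.le] at this
    rw [← y1]
    exact h.mem_zs k K.lt.le y (h.mem_fat (v ω e)
      (((h.near_cor K _).symm.trans this).mono (by omega)))
  · funext μ μ'
    by_contra a
    obtain ⟨z, z1, z2⟩ := sy_near (g := fun x => -(ν q * φ q x)) (x := x)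
      (μ := min μ μ') (ν := max μ μ') fun e => a (Complex.ofReal_eq_zero.2 e)
    exact u (h.mem_fat (right_ne_zero_of_mul (neg_ne_zero.1 z2)) (z1.mono (by omega)))
  · obtain ⟨y1, y2⟩ := mem_tb_single.1 (h.sup_ltv K (W _) _ _ _ hy)
    rw [← y1]
    exact h.mem_fat (v ω e) (y2.mono (by omega))
  · have := h.ra_sy K t hp (lqq_mono (hφ q) ha) (ν := -ν q) (r0 q) (by rw [abs_neg]; exact hr q)
      (hl.trans k.le_succ)
    simp only [neg_mul] at this
    exact this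
  · exact h.zs_cls hs (by positivity) (by linarith) h1 h2

omit t hp in
theorem cnt_aw {α : γ → Type} [∀ q, Fintype (α q)] {Λ : ∀ q, Lwd (G.N J) (α q) κ} {μ ν r : γ → ℝ}
    {φ : γ → Site 4 (G.N J) → ℝ} (hφ : ∀ q x, |φ q x| ≤ 1) (r0 : ∀ q, 0 ≤ r q) (Δ0 : 0 < Δ)
    (hs : Cls (G.N J) Δ univ id fun q => sup (fat ρ (φ q))) {M : ℝ} (M0 : 0 ≤ M)
    (hM : ∀ q, |μ q| * r q * ∑ x, |(Λ q).w x| ≤ M) (y : St) :
    ∑ ω ∈ (G.aw b J k n' P Λ ν φ ρ).Om.filter (y ∈ (G.aw b J k n' P Λ ν φ ρ).X0 ·),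
      ‖((μ ω.1 * φ ω.1 (corner P.s ω.2.1) * (Λ ω.1).w ω.2.2 : ℝ) : ℂ)‖ *
        r ((G.aw b J k n' P Λ ν φ ρ).cl ω) ≤
      M * ((2 * (P.j * (G.p k).D) + 1) * P.t : ℕ) ^ 4 := by
  have one : ∀ x : Site 4 (G.N J), ∑ q, ∑ a, |μ q * φ q x * (Λ q).w a| * r q ≤ M := fun x => by
    have u : ∀ q, ∑ a, |μ q * φ q x * (Λ q).w a| * r q = |φ q x| * (|μ q| * r q * ∑ x, |(Λ q).w x|) :=
      fun q => by
        simp only [abs_mul, mul_sum]
        exact sum_congr rfl fun _ _ => by ring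
    simp only [u]
    by_cases e : ∃ q, φ q x ≠ 0
    · obtain ⟨q, e⟩ := e
      have m : ∀ q, φ q x ≠ 0 → rc (G.N J) (Fi.vl x) ∈ sup (fat ρ (φ q)) := fun q e =>
        h.mem_fat (by rwa [Fi.cst_vl]) (nearT.refl _ _ _)
      rw [sum_eq_single q (fun q' _ e' => by
        rw [of_not_not (a := φ q' x = 0) fun z => e' (one_cluster hs Δ0 (mem_univ q') (mem_univ q)
          (m _ z) (m _ e)), abs_zero, zero_mul]) (by simp)]
      exact (mul_le_mul (hφ q x) (hM q) (by have := r0 q; positivity) zero_le_one).trans_eq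
        (one_mul M)
    · push Not at e
      simpa [e] using M0
  have c := h.cnt K (P.j * (G.p k).D) y
  calc _ ≤ ∑ ω ∈ (univ : Finset (Σ q, Site 4 n' × α q)).filter
          (fun ω => y ∈ tb (G.N k) (P.j * (G.p k).D) {bkp P.t ω.2.1}),
          |μ ω.1 * φ ω.1 (corner P.s ω.2.1) * (Λ ω.1).w ω.2.2| * r ω.1 := by
        simp only [Complex.norm_real, Real.norm_eq_abs]
        exact sum_le_sum_of_subset_of_nonneg (fun ω e => mem_filter.2 ⟨mem_univ _,
          (mem_filter.1 e).2⟩) fun ω _ _ => mul_nonneg (abs_nonneg _) (r0 _)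
    _ = ∑ x ∈ univ.filter fun x : Site 4 n' => y ∈ tb (G.N k) (P.j * (G.p k).D) {bkp P.t x},
          ∑ q, ∑ a, |μ q * φ q (corner P.s x) * (Λ q).w a| * r q := by
        rw [sum_filter, sum_filter, Fintype.sum_sigma]
        simp only [Fintype.sum_prod_type]
        rw [sum_comm]
        refine sum_congr rfl fun x _ => ?_
        split_ifs <;> simp
    _ ≤ _ := by
        refine (sum_le_card_nsmul _ _ _ fun x _ => one _).trans ?_
        rw [nsmul_eq_mul, mul_comm]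
        exact mul_le_mul_of_nonneg_left (by exact_mod_cast c) M0

end Ok

end Pool.Agent.Lib.MP_7f377f_mp.RG.Q4.En.Gl
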