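import Pool.Agent.Lib.MP_7f377f_mp.G.TyC

/-! Smeared words: the input of the chessboard estimate. -/

noncomputable section

set_option linter.unusedSectionVars false
variable [Pool.Agent.Lib.MP_7f377f_mp.GD]

namespace Pool.Agent.Lib.MP_7f377f_mp.Ob

open Weak Finset YM7

variable {n n' s lam μ D ρ : ℕ} [NeZero n] [NeZero n'] {κ : Type} {a : ℝ} {φ : κ → Site 4 n → ℝ}

theorem ltr_mul {B B' : Cfg n → ℝ} {c ν : ℝ} {ψ : Site 4 n → ℝ} (e : ∀ U, B U = c * B' U) :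
    ltr n' s B 1 ν ψ = ltr n' s B' c ν ψ := funext fun U => by
  simp only [ltr, smr, e, one_mul, mul_sum, mul_left_comm c]

/-- the mirror images of the profiles -/
theorem Pc.rf (h : Pc lam μ D a φ) (hl : lam < n) (l : Fin 4) :
    Pc lam μ D a fun i x => φ i (Weak.rf l (x - Pi.single l (lam : ZMod n))) := by
  refine ⟨fun i => ⟨fun _ => (h.lp i).1 _, fun x k => ?_⟩, fun i x u k => ?_,
    fun i j e x y u v => ?_⟩
  · simp only [add_sub_right_comm x, rf_add]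
    by_cases z : k = l
    · have := (h.lp i).2 (Weak.rf l (x - Pi.single l (lam : ZMod n)) + -Pi.single l 1) l
      rw [neg_add_cancel_right, abs_sub_comm] at this
      rwa [z, rf_single]
    · rw [rf_single_ne z]
      exact (h.lp i).2 _ _
  · have := h.mar i _ u k
    by_cases z : k = l
    · subst z
      simp only [Weak.rf, if_true, Pi.sub_apply, Pi.single_eq_same, neg_sub] at this
      generalize hw : (lam : ZMod n) - x k = w at this
      have e : x k = ((lam - w.val : ℕ) : ZMod n) := by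
        rw [Nat.cast_sub (by omega), ZMod.natCast_zmod_val, ← hw, sub_sub_cancel]
      rw [e, ZMod.val_cast_of_lt (by omega)]
      omega
    · simpa [Weak.rf, z] using this
  · obtain ⟨k, hk⟩ := h.sep i j e _ _ u v
    refine ⟨k, hk.trans_eq ?_⟩
    by_cases z : k = l
    · rw [← ZMod.natAbs_valMinAbs_neg]
      congr 2
      simp [Weak.rf, z]
    · simp [Weak.rf, z]

theorem fat_ne {ψ : Site 4 n → ℝ} {x : Site 4 n} {i j : Fin 4} (e : fat ρ ψ x i j ≠ 0) :
    ∃ v, ψ v ≠ 0 ∧ ∀ i, ((x - v) i).valMinAbs.natAbs ≤ ρ :=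
  by_contra fun u => e (if_neg u)

/-- the neighbourhoods of the supports stay in the cell -/
theorem Pc.inT {m : ℕ} {σ δ : ℝ} (h : Pc lam μ D a φ) (hl : lam < n) (hρ : ρ ≤ μ) (σ0 : 0 ≤ σ)
    (hδ : δ + σ * ρ ≤ σ * μ) (c : Site 4 m) (i : κ) :
    InT σ δ lam c (fat ρ fun x => φ i (x - corner lam c)) := fun x _ _ e l => by
  obtain ⟨v, h1, h2⟩ := fat_ne e
  have h3 := h.mar i _ h1 l
  have h4 := h2 l
  generalize (corner lam c : Site 4 n) = w at *
  have h5 : (x - w) l = (((((v - w) l).val : ℤ) + ((x - v) l).valMinAbs).toNat : ℕ) := by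
    rw [← Int.cast_natCast, Int.toNat_of_nonneg (by omega)]
    simp
  have h6 : μ ≤ ((x - w) l).val + ρ ∧ ((x - w) l).val + μ ≤ lam + ρ := by
    rw [h5, ZMod.val_cast_of_lt (by omega)]
    omega
  have h7 : (μ : ℝ) ≤ ((x - w) l).val + ρ := by exact_mod_cast h6.1
  have h8 : (((x - w) l).val : ℝ) + μ ≤ lam + ρ := by exact_mod_cast h6.2
  constructor <;> nlinarith [mul_le_mul_of_nonneg_left h7 σ0, mul_le_mul_of_nonneg_left h8 σ0]

/-- the neighbourhoods of the supports are separated -/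
theorem Pc.sp {D' : ℕ} (h : Pc lam μ D a φ) (hD : D' + 2 * ρ ≤ D) (w : Site 4 n) :
    Sp D' fun i => fat ρ fun x => φ i (x - w) := fun i j e x _ _ y _ _ u v => by
  obtain ⟨p, h1, h2⟩ := fat_ne u
  obtain ⟨q, h3, h4⟩ := fat_ne v
  obtain ⟨l, hl⟩ := h.sep i j e _ _ h1 h3
  have h5 := ZMod.natAbs_valMinAbs_add_le ((x - y) l + (y - q) l) (-(x - p) l)
  have h6 := ZMod.natAbs_valMinAbs_add_le ((x - y) l) ((y - q) l)
  have h7 := ZMod.natAbs_valMinAbs_neg ((x - p) l)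
  have h8 := h2 l
  have h9 := h4 l
  rw [show (x - y) l + (y - q) l + -(x - p) l = (p - w - (q - w)) l by
    simp only [Pi.sub_apply]; ring] at h5
  exact ⟨l, by omega⟩

end Pool.Agent.Lib.MP_7f377f_mp.Ob

namespace Pool.Agent.Lib.MP_7f377f_mp.RG.Q4.En.Gl.Ok

open Finset Real Sg Br YM7 Ob
open Weak (Site corner)

variable {G : Gl} {b a a' C s δ : ℝ} {J j k l m u n' c c' ρ μ D : ℕ} [NeZero (G.N J)] [NeZero n']
  [NeZero m] {P : Grd} {κ κ' : Type} [Fintype κ] [DecidableEq κ] [Inhabited κ] [Fintype κ']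
  [DecidableEq κ'] (h : G.Ok) (t : G.Tu b J) (hp : G.Pu) (K : G.Gk J k n' P κ a c C)
  (B : G.Gb J k l P a c a' ρ) (hj : j ≤ l) (hn : G.N j = m * u) (m1 : 1 < m) (s0 : 0 < s)
  (hD : G.dl J l + 2 * ρ ≤ D) (hμ : G.dl J l + 2 * ρ ≤ 2 * μ) (δ0 : 0 ≤ δ) (hδ : δ + s * ρ ≤ s * μ)

/-- the classes of slots are reflection symmetric -/
theorem cl_lc {lam : ℕ} (hN : G.N J = n' * P.s) (hs : P.s ∣ lam) (hl : lam < G.N J)
    (hR : P.R < μ) : Ob.Cl lam (G.Lcl b J k l n' P κ a c C (κ' := κ') lam μ D a') := by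
  have : (Fi.tr haar).IsHaarMeasure := (inferInstance : haar.IsHaarMeasure)
  refine ⟨?_, ?_, ?_⟩
  · rintro O ⟨B, ν, φ, -, e⟩ i
    obtain ⟨α, _, Λ, r, -, -, z⟩ := (e i).1 []
    rw [(e i).2, ltr_mul (B := B i) z]
    exact cont_ltr (cont_wob Λ)
  · rintro O ⟨B, ν, φ, p, e⟩ y
    exact ⟨fun i V => B i (Weak.refl y V), ν, _, p.rf hl y, fun i => ⟨fun L => (e i).1 (y :: L),
      funext fun U => (congrFun (e i).2 _).trans (ltr_rcl hN hs y U)⟩⟩
  · rintro O ⟨B, ν, φ, p, e⟩ i U V hU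
    obtain ⟨α, _, Λ, r, W, -, z⟩ := (e i).1 []
    rw [(e i).2, ltr_mul (B := B i) z]
    exact ltr_dep hl W.sup hR (p.mar i) hU

include h t hp K B hj hn m1 s0 hD hμ δ0 hδ

theorem rg_cls (geo : ∀ F : Site 4 m × κ' → Src (G.N J),
      (∀ q, YM7.InT s δ (G.rt J j * u) q.1 (F q)) →
      Cls (G.N J) (66 * (G.L l ^ G.K0 * G.rt J l) : ℕ) univ id (fun q => sup (F q)) →
        G.Geo univ Prod.fst c' (fun q => sup (F q)) J l j) :
    Ob.Rg (Fi.tr haar) b (G.rt J j * u) (G.Lcl b J k l n' P κ a c C (κ' := κ') (G.rt J j * u) μ D a')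
      (2 ^ (l - j) * G.sg l)⁻¹ (G.sg l)⁻¹ (cJ / G.g j * u ^ 4 + G.cz j u (Fintype.card κ'))
      (exp (G.cz j u (Fintype.card κ'))) := by
  have jk : j ≤ k := hj.trans B.lt.le
  have hN : G.N J = m * (G.rt J j * u) := by rw [← h.rt_N (jk.trans K.lt.le), hn, mul_left_comm]
  have hl : G.rt J j * u < G.N J := by
    have := (h.N_odd J).pos
    rw [hN] at this ⊢
    exact lt_mul_of_one_lt_left (Nat.pos_of_mul_pos_left this) m1
  have hs : P.s ∣ G.rt J j * u := by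
    rw [← h.rt_mul jk K.lt.le, K.ht]
    exact ((dvd_mul_left _ _).mul_left _).mul_right _
  have hR := B.rad
  refine h.rg_sl (c := c') s0 t hp (B.lt.trans K.lt).le hj hn (h.sg_pos l) δ0
    (cl_lc K.hn hs hl (by omega)) fun O hO => ?_
  choose A ν φ p e using hO
  choose α _ Λ r W d z using fun q : Site 4 m × κ' => (e q.1 q.2).1 []
  have hμ' : (G.dl J l : ℝ) + 2 * ρ ≤ 2 * μ := by exact_mod_cast hμ
  have hc : Cls (G.N J) (G.dl J l) univ id fun q : Site 4 m × κ' =>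
      sup (fat ρ fun x => φ q.1 q.2 (x - corner (G.rt J j * u) q.1)) := by
    rintro ⟨x, i⟩ - ⟨y, i'⟩ - v
    rcases eq_or_ne x y with rfl | w
    · exact sep_sp ((p x).sp hD _) fun w => v (Prod.ext rfl w)
    · have I := fun x i => (p x).inT (ρ := ρ) (δ := μ - ρ) hl (by omega) zero_le_one
        (by linarith) x i
      exact (sep_cell hN one_pos (I x i) (I y i') w).mono (by linarith) (by rfl) (by rfl)
  obtain ⟨X, o, S⟩ := h.core t hp K B W (fun q => TG.lqq_sub ((p q.1).lp q.2) _) d hc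
  have I := fun q : Site 4 m × κ' => (p q.1).inT hl (by omega) s0.le hδ q.1 q.2
  refine ⟨X, _, ?_, S, I, geo _ I fun x hx y hy v => (hc x hx y hy v).mono
    (Nat.cast_le.2 (Nat.mul_le_mul_right _ (Nat.le_mul_of_pos_right _ (by positivity))))
    (by rfl) (by rfl)⟩
  refine (congrArg (Xo _ X) (funext₂ fun q U => ?_)).mpr o
  rw [arr, (e q.1 q.2).2, ltr_shift K.hn hs, ltr_mul (B := A q.1 q.2) (z q)]

end Pool.Agent.Lib.MP_7f377f_mp.RG.Q4.En.Gl.Ok
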