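import Pool.Agent.Lib.MP_7f377f_mp.G.TyD

/-! Smeared words: lattice symmetries. -/

noncomputable section

set_option linter.unusedSectionVars false
variable [Pool.Agent.Lib.MP_7f377f_mp.GD]

namespace Pool.Agent.Lib.MP_7f377f_mp.Ob

open MeasureTheory Weak Finset YM7 Pur MvPolynomial
open Ope (gp sc)
open RG.Q4.En.Ty (Gn sb)

variable {n n' s lam e : ℕ} [NeZero n] [NeZero n'] [MeasurableSpace SU2] [BorelSpace SU2]
  {h : Measure SU2} [h.IsHaarMeasure] [IsProbabilityMeasure h] {a b μ ν χ R R' : ℝ}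
  {B B' : Cfg n → ℝ} {φ : Site 4 n → ℝ} {A A' : Pol} {f : R4 → ℝ} {O : Set R4}

/-- the action of the generators on the sites -/
def sg1 {n : ℕ} : Gn → Site 4 n → Site 4 n
  | .inl σ => fun x => x ∘ σ
  | .inr k => Weak.rf k

theorem sy_symm (g : Site 4 n → ℝ) (x : Site 4 n) (i j : Fin 4) : sy g x j i = sy g x i j := by
  simp only [sy, add_right_comm x (Pi.single j 1)]
  ring

theorem gfield_sy (g : Site 4 n → ℝ) (U : Cfg n) :
    2 * gfield (sy g) U = ∑ x, ∑ i, ∑ j, sy g x i j * pe U x i j := by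
  rw [gfield, mul_sum]
  exact sum_congr rfl fun x _ => (sum_lt_pairs (fun i j => sy g x i j * pe U x i j)
    (fun i j => by rw [sy_symm, pe_symm]) fun i => by rw [pe_self, mul_zero]).symm

theorem gfield_sy_cg (g : Gn) (F : Site 4 n → ℝ) (U : Cfg n) :
    gfield (sy F) (cg g U) = gfield (sy fun x => F (sg1 g x)) U := by
  cases g with
  | inl σ =>
    refine mul_left_cancel₀ two_ne_zero ?_
    rw [gfield_sy, gfield_sy, ← (Equiv.arrowCongr σ (Equiv.refl (ZMod n))).sum_comp
      fun x => ∑ i, ∑ j, sy (fun x => F (sg1 (.inl σ) x)) x i j * pe U x i j]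
    refine sum_congr rfl fun x _ => ?_
    rw [← Equiv.sum_comp σ fun i => ∑ j, sy (fun x => F (sg1 (.inl σ) x)) _ i j * pe U _ i j]
    refine sum_congr rfl fun i _ => ?_
    rw [← Equiv.sum_comp σ fun j => sy (fun x => F (sg1 (.inl σ) x)) _ (σ i) j * pe U _ (σ i) j]
    refine sum_congr rfl fun j _ => ?_
    have e0 : ((Equiv.arrowCongr σ (Equiv.refl (ZMod n))) x) ∘ σ = x := by
      funext l; simp
    have e1 : ∀ (y : Site 4 n) i, (y + Pi.single (σ i) 1 : Site 4 n) ∘ σ =
        y ∘ σ + Pi.single i 1 := fun y i => by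
      funext l
      simp only [Function.comp, Pi.add_apply, Pi.single_apply, EmbeddingLike.apply_eq_iff_eq]
    simp only [cg, pe_prm, sy, sg1, e1, e0]
    rfl
  | inr k =>
    rw [cg, ← gfield_refl]
    refine congrFun (gfield_congr fun x i j u => ?_) U
    simpa [rL, sg1] using (sy_rL (lam := 0) F k x u.ne).symm

theorem mp_cg (g : Gn) : MeasurePreserving (cg g) (wilson h b n) (wilson h b n) := by
  cases g
  exacts [mp_prm h b _, mp_refl' h b _]

theorem xp_sg1 (hn : Odd n) (g : Gn) (x : Site 4 n) : (Cm.gi g).symm (xp a x) = xp a (sg1 g x) := by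
  rw [LinearIsometryEquiv.symm_apply_eq]
  ext l
  cases g with
  | inl σ => simp [Cm.gi, Ro.prm_apply, xp, sg1]
  | inr k =>
    have := ZMod.valMinAbs_neg_of_ne_half (a := x k) fun e => by
      obtain ⟨t, ht⟩ := hn
      omega
    by_cases u : l = k <;> simp [Cm.gi, rfL_eq, Pur.rf, xp, sg1, Weak.rf, u, this]

theorem evc_cg (hn : Odd n) (g : Gn) (A : Pol) (U : Cfg n) :
    evc h b n a (Ro.act (Cm.gi g) A) U = evc h b n a A (cg g U) := by
  induction A using MvPolynomial.induction_on with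
  | C c => rw [Ro.act, rename_C, evc_C, evc_C]
  | add p q e e' => simp only [map_add, Pi.add_apply, e, e']
  | mul_X p f e =>
    simp only [map_mul, Pi.mul_apply, e]
    rw [Ro.act, rename_X, evc_X, evc_X,
      ← cen_of h b (mp_cg g) fun U => (gfield_sy_cg g (fun x => f (xp a x)) U).symm]
    simp only [xp_sg1 hn]

theorem gfield_cg (g : Gn) (U : Cfg n) : gfield (sy 1) (cg g U) = gfield (sy 1) U :=
  gfield_sy_cg g 1 U

theorem smr_cg (hn : n = n' * s) (g : Gn) (hB : ∀ U, B (cg g U) = χ * B U) (U : Cfg n) :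
    smr n' s B 1 (cg g U) = χ * smr n' s B 1 U := by
  simp only [smr, Pi.one_apply, one_mul, mul_sum, ← hB]
  cases g with
  | inl σ =>
    rw [← (Equiv.arrowCongr σ (Equiv.refl (ZMod n'))).sum_comp
      fun x => B (cg (.inl σ) (shift (corner s x) U))]
    rfl
  | inr k =>
    rw [← Equiv.sum_comp (Function.Involutive.toPerm _ (Weak.rf_rf k))
      fun x : Site 4 n' => B (cg (.inr k) (shift (corner s x) U))]
    simp only [cg, shift_refl, Function.Involutive.coe_toPerm, Lg.LgST.corner_rf hn]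

theorem cont_ltr (hB : Continuous B) : Continuous (ltr n' s B μ ν φ) :=
  ((continuous_finsetSum _ fun _ _ => (hB.comp (continuous_shift _)).const_mul _).const_mul _).add
    ((continuous_gfield _).const_mul _)

theorem corner_dvd (hn : n = n' * s) (hs : s ∣ lam) (t : Fin 4 → ℕ) :
    ∃ c : Site 4 n', (corner s c : Site 4 n) = fun k => ((lam * t k : ℕ) : ZMod n) := by
  obtain ⟨u, rfl⟩ := hs
  refine ⟨fun k => ((u * t k : ℕ) : ZMod n'), funext fun k => ?_⟩
  rw [corner, corner_int hn _ ((u * t k : ℕ) : ℤ) (Int.cast_natCast _).symm]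
  push_cast
  ring

theorem gfield_sy_shift (v : Site 4 n) (U : Cfg n) :
    gfield (sy φ) (shift v U) = gfield (sy fun x => φ (x - v)) U := by
  rw [← gfield_shift]
  congr 1
  funext x i j
  simp only [sy, add_sub_right_comm]

theorem ltr_shift (hn : n = n' * s) {m : ℕ} (hs : s ∣ lam) (c : Site 4 m) (U : Cfg n) :
    ltr n' s B μ ν φ (shift (corner lam c) U) =
      ltr n' s B μ ν (fun x => φ (x - corner lam c)) U := by
  obtain ⟨c', hc⟩ := corner_dvd hn hs fun k => (c k).val
  rw [ltr, ltr, gfield_sy_shift, show (corner lam c : Site 4 n) = corner s c' from hc.symm, smr,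
    smr, ← Equiv.sum_comp (Equiv.addRight c')
      fun x => φ (corner s x - corner s c') * B (shift (corner s x) U)]
  simp only [Equiv.coe_addRight, corner_add hn, shift_shift, add_sub_cancel_right]

theorem ltr_rcl (hn : n = n' * s) (hs : s ∣ lam) (l : Fin 4) (U : Cfg n) :
    ltr n' s B μ ν φ (rcl lam l U) = ltr n' s (fun V => B (refl l V)) μ ν
      (fun x => φ (Weak.rf l (x - Pi.single l (lam : ZMod n)))) U := by
  obtain ⟨c', hc⟩ := corner_dvd hn hs (Pi.single l 1)
  have e1 : (Pi.single l (lam : ZMod n) : Site 4 n) = corner s c' := by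
    rw [hc]
    funext k
    by_cases u : k = l <;> simp [u]
  have e2 : gfield (sy φ) (rcl lam l U) =
      gfield (sy fun x => φ (Weak.rf l (x - Pi.single l (lam : ZMod n)))) U :=
    (gfield_sy_cg (.inr l) φ _).trans (gfield_sy_shift _ U)
  rw [ltr, ltr, e2, rcl, e1, smr, smr,
    ← ((Function.Involutive.toPerm _ (Weak.rf_rf l)).trans (Equiv.addRight c')).sum_comp
      fun x => φ (Weak.rf l (corner s x - corner s c')) * B (refl l (shift (corner s x) U))]
  simp only [Equiv.trans_apply, Function.Involutive.coe_toPerm, Equiv.coe_addRight, corner_add hn,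
    Lg.LgST.corner_rf hn, add_sub_cancel_right, Weak.rf_rf, shift_refl, shift_shift]

theorem gfield_sy_dep {g : Site 4 n → ℝ} (hn : lam < n)
    (hg : ∀ x, g x ≠ 0 → ∀ l, 0 < (x l).val ∧ (x l).val < lam) {U U' : Cfg n}
    (e : ∀ l, (∀ k, half lam k l) → U l = U' l) : gfield (sy g) U = gfield (sy g) U' := by
  refine sum_congr rfl fun x _ => sum_congr rfl fun μ _ => sum_congr rfl fun ν _ => ?_
  split_ifs with u
  swap
  · rfl
  by_cases z : sy g x μ ν = 0
  · simp only [z, zero_mul]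
  have h1 := sy_cel hg u.ne z
  have h2 : ∀ j, U (x, j) = U' (x, j) := fun j => e _ fun l => ⟨(h1 l).le, fun _ => h1 l⟩
  have h3 : ∀ i j, i ≠ j → U (x + Pi.single i 1, j) = U' (x + Pi.single i 1, j) := fun i j v =>
    e _ fun l => by
      have := h1 l
      by_cases t : l = i
      · subst t
        refine ⟨?_, fun t => (v t.symm).elim⟩
        simp only [Pi.add_apply, Pi.single_eq_same]
        rw [val_add_one _ (by omega)]
        omega
      · simpa [half, t] using ⟨this.le, fun _ => this⟩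
  rw [pe, pe, h2, h2, h3 _ _ u.ne, h3 _ _ u.ne']

/-- locality -/
theorem ltr_dep {α κ : Type} [Fintype α] [Fintype κ] {Λ : Lwd n α κ} {r ρ : ℕ} (hn : lam < n)
    (hΛ : ∀ x i y, Λ.g x i y ≠ 0 → ∀ l, (y l).valMinAbs.natAbs ≤ r) (hρ : r < ρ)
    (hφ : ∀ x, φ x ≠ 0 → ∀ l, ρ ≤ (x l).val ∧ (x l).val + ρ ≤ lam) {U V : Cfg n}
    (e : ∀ l, (∀ k, half lam k l) → U l = V l) :
    ltr n' s (Λ.ob h b) μ ν φ U = ltr n' s (Λ.ob h b) μ ν φ V := by
  rw [ltr, ltr, gfield_sy_dep hn (fun x u l => by have := hφ x u l; omega) e, smr, smr]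
  refine congrArg (μ * · + _) (sum_congr rfl fun x _ => ?_)
  by_cases z : φ (corner s x) = 0
  · simp only [z, zero_mul]
  refine congrArg _ (sum_congr rfl fun y _ => congrArg _ (prod_congr rfl fun i _ => ?_))
  rw [cen, cen, gfield_sy_shift, gfield_sy_shift, gfield_sy_dep hn (fun w u l => ?_) e]
  have h1 := hΛ y i _ u l
  have h2 := hφ _ z l
  generalize (corner s x : Site 4 n) = c at *
  have h3 : w l = ((((c l).val : ℤ) + ((w - c) l).valMinAbs).toNat : ℕ) := by
    rw [← Int.cast_natCast, Int.toNat_of_nonneg (by omega)]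
    simp
  rw [h3, ZMod.val_cast_of_lt (by omega)]
  omega

theorem cont_wob {α κ : Type} [Fintype α] [Fintype κ] (Λ : Lwd n α κ) :
    Continuous (Λ.ob h b) :=
  continuous_finsetSum _ fun _ _ => (continuous_finsetProd _ fun _ _ =>
    (continuous_cen h b _).add continuous_const).const_mul _

theorem lqq_xp {L : ℝ} (h1 : ∀ y, |f y| ≤ 1) (h2 : ∀ y z, |f y - f z| ≤ L * dist y z)
    (hR : ∀ y, f y ≠ 0 → ∀ l, |y l| ≤ R) (ha : 0 < a) (hn : 2 * (R + a) < a * n) :
    Lqq (L * a) fun x : Site 4 n => f (xp a x) := by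
  refine ⟨fun x => h1 _, fun x l => ?_⟩
  have := xp_add (s := Pi.single l 1) (V := a) hR ha (fun i => by
    by_cases u : i = l <;> simp [u, abs_of_pos ha, ha.le]) hn x
  have c1 : (fun i => (((Pi.single l 1 : Fin 4 → ℤ) i : ℤ) : ZMod n)) = Pi.single l 1 :=
    funext fun i => by by_cases u : i = l <;> simp [u]
  have c2 : (WithLp.toLp 2 fun i => a * ((Pi.single l 1 : Fin 4 → ℤ) i : ℤ) : R4) = ax l a := by
    ext i
    by_cases u : i = l <;> simp [u]
  rw [c1, c2] at this
  simp only [this]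
  refine (h2 _ _).trans_eq ?_
  rw [dist_self_add_left, PiLp.norm_single, Real.norm_eq_abs, abs_of_pos ha]

end Pool.Agent.Lib.MP_7f377f_mp.Ob

namespace Pool.Agent.Lib.MP_7f377f_mp.RG.Q4.En

open YM7 Ob Ty

variable {n : ℕ} [NeZero n] {b : ℝ} {T : Ty}

theorem rs_cf {U : Conf} (hU : Per n U) (g : Gn) : Fi.rs n (cf g U) = Ob.cg g (Fi.rs n U) := by
  cases g
  exacts [rfl, Sg.rs_rfl hU _]

open Mx in
theorem per_cf1 {U : Conf} (h : Per n U) (g : Gn) : Per n (cf g U) := by
  refine per_iff.2 fun x y μ e => ?_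
  cases g with
  | inl σ => exact per_iff.1 h _ _ _ ((cg_pz σ).2 e)
  | inr k =>
    simp only [cf, rfl1_eq, rlk]
    exact congrArg _ (per_iff.1 h _ _ _ (((cg_rz k).2 e).add _))

theorem wil_cg (hn : Odd n) {U : Conf} (hU : Per n U) (g : Gn) : wil b n (cf g U) = wil b n U := by
  have k : ∀ {U : Conf}, Per n U → wil b n U = Real.exp (-b * gfield (sy 1) (Fi.rs n U)) :=
    fun {U} hU => by
    conv_lhs => rw [← Sh.pc_per hU, ← Fi.lf_rs, Br.wil_lf hn]
    have := gfield_site (n := n) 1 (Fi.rs n U)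
    simp only [Pi.one_apply, one_mul] at this
    rw [← this]
    congr 3
    funext x i j
    simp only [sy, Pi.one_apply]
    norm_num
  rw [k hU, k (per_cf1 hU g), rs_cf hU, gfield_cg]

theorem sgn_ob {O : Cfg n → ℝ} (hn : Odd n) (e : ∀ g ∈ T, ∀ U, O (Ob.cg g.1 U) = sb g.2 * O U) :
    Sgn n T fun U => wil b n U * O (Fi.rs n U) := fun g hg U hU => by
  simp only [wil_cg hn hU, rs_cf hU, e g hg]
  push_cast
  ring

theorem bc_ob {O : Cfg n → ℝ} (hO : Continuous O) :
    Sg.BC fun U => wil b n U * O (Fi.rs n U) := by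
  have h1 : Continuous (Fi.rs n) := continuous_pi fun b => continuous_apply (Fi.vl b.1, b.2)
  have : Continuous fun U => (wil b n U : ℂ) * O (Fi.rs n U) :=
    (Complex.continuous_ofReal.comp (Fi.cont_wil b)).mul
      (Complex.continuous_ofReal.comp (hO.comp h1))
  exact ⟨this.measurable, (isCompact_univ.exists_bound_of_continuousOn this.continuousOn).imp
    fun _ h U => h U trivial⟩

end Pool.Agent.Lib.MP_7f377f_mp.RG.Q4.En
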