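import Pool.Agent.Lib.MP_7f377f_mp.G.TyE
import Pool.Agent.Lib.MP_7f377f_mp.G.TyH
import Pool.Agent.Lib.MP_7f377f_mp.G.TyS

/-! Smeared words: the letters of rescaled test functions. -/

noncomputable section

set_option linter.unusedSectionVars false
variable [Pool.Agent.Lib.MP_7f377f_mp.GD]

namespace Pool.Agent.Lib.MP_7f377f_mp.Ob

open MeasureTheory Weak Finset YM7 Pur
open Ope (sc)

variable {n m r D : ℕ} [NeZero n] {α κ : Type}

theorem sy_cor {g : Site 4 n → ℝ} {x : Site 4 n} {μ ν : Fin 4} (e : sy g x μ ν ≠ 0) :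
    ∃ y : Site 4 n, g (x + y) ≠ 0 ∧ ∀ l, ∃ s : ℤ, y l = s ∧ 0 ≤ s ∧ s ≤ 2 := by
  have p : ∀ μ l : Fin 4, (Pi.single μ 1 : Site 4 n) l = ((if l = μ then 1 else 0 : ℤ) : ZMod n) :=
    fun μ l => by simp [Pi.single_apply]
  by_cases u1 : g x = 0
  · by_cases u2 : g (x + Pi.single μ 1) = 0
    · by_cases u3 : g (x + Pi.single ν 1) = 0
      · refine ⟨Pi.single μ 1 + Pi.single ν 1, fun u => e (by simp [sy, u1, u2, u3, add_assoc, u]),
          fun l => ⟨(if l = μ then 1 else 0) + if l = ν then 1 else 0,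
            by rw [Pi.add_apply, p, p]; simp, ?_⟩⟩
        split_ifs <;> norm_num
      · exact ⟨_, u3, fun l => ⟨_, p ν l, by split_ifs <;> norm_num⟩⟩
    · exact ⟨_, u2, fun l => ⟨_, p μ l, by split_ifs <;> norm_num⟩⟩
  · exact ⟨0, by simpa, fun l => ⟨0, by simp, by norm_num⟩⟩

theorem sp_sy {g : κ → Site 4 n → ℝ} (e : Sp (D + 2) fun i x _ _ => g i x) :
    Sp D fun i => sy (g i) := fun i j ij x μ ν y μ' ν' u v => by
  obtain ⟨x', u1, u2⟩ := sy_cor u
  obtain ⟨y', v1, v2⟩ := sy_cor v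
  obtain ⟨l, hl⟩ := e i j ij _ 0 0 _ 0 0 u1 v1
  obtain ⟨s, s1, s2⟩ := u2 l
  obtain ⟨t, t1, t2⟩ := v2 l
  have := ZMod.natAbs_min_of_le_div_two n ((x + x' - (y + y')) l).valMinAbs
    (((x - y) l).valMinAbs + (s - t)) (by simp [← s1, ← t1]; ring) (ZMod.natAbs_valMinAbs_le _)
  exact ⟨l, by omega⟩

theorem cen_sy_mul [MeasurableSpace SU2] (h : Measure SU2) (b c : ℝ) (g : Site 4 n → ℝ)
    (U : Cfg n) : cen h b (sy fun x => c * g x) U = c * cen h b (sy g) U := by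
  have e : ∀ U, gfield (sy fun x => c * g x) U = c * gfield (sy g) U := fun U => by
    simp only [gfield, sy, mul_sum, mul_ite, mul_zero]
    refine sum_congr rfl fun x _ => sum_congr rfl fun i _ => sum_congr rfl fun j _ => ?_
    split_ifs
    · ring
    · rfl
  simp only [cen, e, integral_const_mul, mul_sub]

/-- the padded words of rescaled test functions -/
def pad (n : ℕ) (E : κ ≃ Fin m ⊕ Fin r) (Λ s σ : ℝ) (c : α → ℝ) (u : α → Fin m → R4 → ℝ) :
    Lwd n α κ where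
  g a l x := (E l).elim (fun i => (2 * Λ)⁻¹ * u a i (xp s x)) fun _ => 0
  τ _ l := (E l).elim (fun _ => 0) fun _ => σ⁻¹
  w a := c a * ((2 * Λ) ^ m * σ ^ r)

variable {E : κ ≃ Fin m ⊕ Fin r} {Λ δ s σ a d : ℝ} {c : α → ℝ} {u : α → Fin m → R4 → ℝ}

theorem pad_ob [Fintype α] [Fintype κ] [MeasurableSpace SU2] [BorelSpace SU2] (h : Measure SU2)
    [h.IsHaarMeasure] [IsProbabilityMeasure h] (b : ℝ) (Λ0 : Λ ≠ 0) (σ0 : σ ≠ 0) (U : Cfg n) :
    (pad n E Λ (a / d) σ c u).ob h b U =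
      evr h b n a (∑ x, (c x : ℂ) • mon fun i => sc d (u x i)) U := by
  have z : cen h b (sy fun _ : Site 4 n => 0) U = 0 := by
    simpa using cen_sy_mul h b 0 (fun _ : Site 4 n => 0) U
  have y : ∀ x : Site 4 n, d⁻¹ • xp a x = xp (a / d) x := fun x => by
    ext l
    simp only [xp, PiLp.smul_apply, smul_eq_mul]
    ring
  simp only [evr, map_sum, map_smul, Finset.sum_apply, Pi.smul_apply, evc_mon, smul_eq_mul,
    Complex.re_sum, ← Complex.ofReal_mul, Complex.ofReal_re, Lwd.ob, sc, y]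
  refine sum_congr rfl fun x _ => ?_
  rw [← E.symm.prod_comp, Fintype.prod_sum_type]
  simp only [pad, Equiv.apply_symm_apply, Sum.elim_inl, Sum.elim_inr, cen_sy_mul, z, add_zero,
    zero_add, prod_mul_distrib, prod_const, card_univ, Fintype.card_fin, inv_pow]
  field_simp

theorem pad_lp (H : ∀ x, YM7.Tf (u x) Λ δ) (s0 : 0 < s) (hn : 2 * (Λ + s) < s * n) (x : α) (l : κ) :
    Lqq (s / 2) ((pad n E Λ s σ c u).g x l) := by
  have L := (H x).one
  change Lqq _ fun y => (E l).elim (fun i => (2 * Λ)⁻¹ * u x i (xp s y)) fun _ => 0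
  rcases E l with i | i
  · have := lqq_xp (n := n) (f := fun y => (2 * Λ)⁻¹ * u x i y) (L := 2⁻¹) (fun y => by
      rw [abs_mul, abs_inv, abs_of_pos (by positivity), inv_mul_le_one₀ (by positivity)]
      linarith [(H x).bd i y]) (fun y z => by
      rw [← mul_sub, abs_mul, abs_inv, abs_of_pos (by positivity), inv_mul_le_iff₀ (by positivity)]
      linarith [(H x).lip i y z]) (fun y e => (H x).cube i y (right_ne_zero_of_mul e)) s0 hn
    rwa [inv_mul_eq_div] at this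
  · exact ⟨fun _ => by simp, fun _ _ => by simpa using by positivity⟩

theorem pad_sup (H : ∀ x, YM7.Tf (u x) Λ δ) (s0 : 0 < s) (x : α) (i : κ) (y : Site 4 n)
    (e : (pad n E Λ s σ c u).g x i y ≠ 0) (l : Fin 4) : (y l).valMinAbs.natAbs ≤ ⌊Λ / s⌋₊ := by
  change (E i).elim (fun i => (2 * Λ)⁻¹ * u x i (xp s y)) (fun _ => 0) ≠ 0 at e
  generalize E i = t at e
  rcases t with i | i
  · have := (H x).cube i _ (right_ne_zero_of_mul e) l
    simp only [xp, abs_mul, abs_of_pos s0] at this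
    refine Nat.le_floor ((le_div_iff₀' s0).2 ?_)
    rwa [Nat.cast_natAbs, Int.cast_abs]
  · exact (e rfl).elim

theorem pad_sep (H : ∀ x, YM7.Tf (u x) Λ δ) (s0 : 0 < s) (hn : 4 * Λ < s * n)
    (hD : ((D + 2 : ℕ) : ℝ) * s ≤ δ) (x : α) : Sp D fun i => sy ((pad n E Λ s σ c u).g x i) := by
  refine sp_sy fun i j ij y μ ν z μ' ν' e e' => ?_
  have k := E.injective.ne ij
  change (E i).elim (fun i => (2 * Λ)⁻¹ * u x i (xp s y)) (fun _ => 0) ≠ 0 at e
  change (E j).elim (fun i => (2 * Λ)⁻¹ * u x i (xp s z)) (fun _ => 0) ≠ 0 at e'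
  generalize E i = t at e k
  generalize E j = t' at e' k
  have L := (H x).one
  rcases t with i | i
  · rcases t' with j | j
    · refine (H x).sp (v := 0) s0 hn hD i j (fun q => k (q ▸ rfl)) y μ ν z μ' ν' ?_ ?_
      · simpa [tsr] using ⟨by positivity, right_ne_zero_of_mul e⟩
      · simpa [tsr] using ⟨by positivity, right_ne_zero_of_mul e'⟩
    · exact (e' rfl).elim
  · exact (e rfl).elim

theorem pad_tau (σ0 : 0 < σ) (x : α) (i : κ) : σ * |(pad n E Λ s σ c u).τ x i| ≤ 1 := by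
  change σ * |(E i).elim (fun _ => 0) fun _ => σ⁻¹| ≤ 1
  rcases E i with i | i
  · simp
  · simp [abs_of_pos σ0, σ0.ne']

theorem pad_w [Fintype α] (Λ0 : 0 ≤ Λ) (σ0 : 0 ≤ σ) :
    ∑ x, |(pad n E Λ s σ c u).w x| = (∑ x, |c x|) * ((2 * Λ) ^ m * σ ^ r) := by
  rw [sum_mul]
  exact sum_congr rfl fun x _ => by
    rw [pad, abs_mul, abs_of_nonneg (a := _ * _) (by positivity)]

end Pool.Agent.Lib.MP_7f377f_mp.Ob
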