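import Pool.Agent.Lib.MP_7f377f_mp.G.WmSpecB

/-! Stage 14: the Schwinger functions at time ordered points. -/

noncomputable section

namespace Pool.Agent.Lib.MP_7f377f_mp.Wm
variable [Pool.Agent.Lib.MP_7f377f_mp.GD]
set_option linter.unusedSectionVars false

open MeasureTheory Filter Topology Set Complex YM7 Pur Lg MvPolynomial

namespace B3

variable {n : ℕ} {H : Type} [NormedAddCommGroup H] [InnerProductSpace ℂ H] [CompleteSpace H]

theorem prod_zero {f : Fin n → R4 → ℝ} {y : Fin n → R4} (h : y ∉ univ.pi fun i => tsupport (f i)) :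
    ∏ i, (f i (y i) : ℂ) = 0 := by
  obtain ⟨i, hi⟩ := not_forall.1 (mt (fun e i _ => e i) h)
  exact Finset.prod_eq_zero (Finset.mem_univ i) (by rw [image_eq_zero_of_notMem_tsupport hi]; rfl)

theorem intg {f : Fin n → R4 → ℝ} (hf : Adm f) {G : (Fin n → R4) → H}
    (hG : ContinuousOn G (univ.pi fun i => tsupport (f i))) :
    Integrable fun y => (∏ i, (f i (y i) : ℂ)) • G y := by
  refine (integrableOn_iff_integrable_of_support_subset (s := univ.pi fun i => tsupport (f i))
    fun y hy => by_contra fun e => hy (by simp only [prod_zero e, zero_smul])).1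
    (ContinuousOn.integrableOn_compact (isCompact_univ_pi fun i => (hf.1 i).1) (.smul ?_ hG))
  exact (continuous_finsetProd _ fun i _ => continuous_ofReal.comp
    ((hf.1 i).2.continuous.comp (continuous_apply i))).continuousOn

theorem euc_to {y : R4} (h : 0 < y 0) : euc y ∈ TO := TV.to h (euc_mem y)

theorem mem_ft {f : Fin n → R4 → ℝ} (ho : Ord f) (hp : ∀ i, tsupport (f i) ⊆ Hs 0 0)
    {y : Fin n → R4} (h : y ∈ univ.pi fun i => tsupport (f i)) : (fun i => euc (y i)) ∈ FT n :=
  ⟨fun i => euc_to (hp i (h i trivial)), fun i j e => euc_sub (y j) (y i) ▸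
    euc_to (sub_pos.2 (ho i j e _ (h i trivial) _ (h j trivial)))⟩

theorem cut {f : Fin (n + 1) → R4 → ℝ} (hf : Adm f) (ho : Ord f)
    (hp : ∀ i, tsupport (f i) ⊆ Hs 0 0) : ∃ b > (0 : ℝ), (∀ x ∈ tsupport (f 0), x 0 < b) ∧
      ∀ i : Fin n, ∀ y ∈ tsupport (f i.succ), b < y 0 := by
  obtain ⟨x, hx, hm⟩ := ((hf.1 0).1.isCompact.insert 0).exists_isMaxOn (insert_nonempty _ _)
    (f := fun y : R4 => y 0) (by fun_prop)
  have h : ∀ᶠ b in 𝓝 (x 0), ∀ i : Fin n, ∀ y ∈ tsupport (f i.succ), b < y 0 :=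
    eventually_all.2 fun i => (hf.1 _).1.isCompact.eventually_forall_of_forall_eventually
      fun y hy => (isOpen_lt (f := fun z : ℝ × R4 => z.1) (g := fun z => z.2 0) (by fun_prop)
        (by fun_prop)).mem_nhds (hx.elim (fun e => e ▸ hp _ hy) fun e => ho 0 _ i.succ_pos _ e _ hy)
  obtain ⟨b, h1, h2⟩ := ((h.filter_mono nhdsWithin_le_nhds).and
    (self_mem_nhdsWithin (s := Ioi (x 0)))).exists
  exact ⟨b, (hm (mem_insert _ _)).trans_lt h2, fun y hy => (hm (mem_insert_of_mem _ hy)).trans_lt h2,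
    h1⟩

theorem int_cons {G : (Fin (n + 1) → R4) → H} (hG : Integrable G) :
    ∫ x, G x = ∫ y : R4, ∫ x : Fin n → R4, G (Fin.cons y x) := by
  have m := (volume_preserving_piFinSuccAbove (fun _ : Fin (n + 1) => R4) 0).symm
  have e : ∀ p : R4 × (Fin n → R4), (MeasurableEquiv.piFinSuccAbove (fun _ => R4) 0).symm p =
      Fin.cons p.1 p.2 := fun p => by simp [MeasurableEquiv.piFinSuccAbove, Fin.consEquiv]
  rw [← m.integral_comp']
  refine (integral_prod _ ((m.integrable_comp_emb (MeasurableEquiv.measurableEmbedding _)).2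
    hG)).trans ?_
  simp only [Function.comp_def, e]

variable {W : Pol →ₗ[ℂ] ℂ} {r : net.Rep W 0 H} {E : C4 → H →L[ℂ] H} {A : C4 → C4 → H →L[ℂ] H}
  {ψ : ∀ n, (Fin n → C4) → H} {w : ∀ n, (Fin n → C4) → ℂ}

theorem intg_ψ (hv : Vec E (r.Ψ 1) ψ w) {f : Fin n → R4 → ℝ} (hf : Adm f) (ho : Ord f)
    (hp : ∀ i, tsupport (f i) ⊆ Hs 0 0) :
    Integrable fun y : Fin n → R4 => (∏ i, (f i (y i) : ℂ)) • ψ n fun i => euc (y i) :=
  intg hf ((hv.hol n).continuousOn.comp (f := fun (y : Fin n → R4) i => euc (y i)) (by fun_prop)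
    fun _ => mem_ft ho hp)

theorem Ord.sub {f : Fin n → R4 → ℝ} (ho : Ord f) (v : R4) : Ord fun i y => f i (y - v) :=
  fun i j e x hx y hy => by
    simpa using ho i j e _ (tsupport_comp (θ := fun y => y - v) (by fun_prop) hx) _
      (tsupport_comp (θ := fun y => y - v) (by fun_prop) hy)

theorem vec (hs : Slab r A) (hv : Vec E (r.Ψ 1) ψ w) (hr : Rec A ψ) : ∀ n (f : Fin n → R4 → ℝ),
    Adm f → Ord f → (∀ i, tsupport (f i) ⊆ Hs 0 0) →
      r.Ψ (mon f) = ∫ y : Fin n → R4, (∏ i, (f i (y i) : ℂ)) • ψ n fun i => euc (y i) := by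
  intro n
  induction n with
  | zero => intro f _ _ _; simp [mon, hv.nil, Measure.real, volume_pi]
  | succ n ih =>
    intro f hf ho hp
    obtain ⟨b, b0, h1, h2⟩ := cut hf ho hp
    have a : Adm fun i : Fin n => f i.succ :=
      ⟨fun i => hf.1 _, fun _ _ e => hf.2 ((Fin.succ_injective _).ne e)⟩
    have o : Ord fun (i : Fin n) y => f i.succ (y - -(b • e0)) :=
      Ord.sub (f := fun i : Fin n => f i.succ) (fun i j e => ho _ _ (Fin.succ_lt_succ_iff.2 e)) _
    have p : ∀ i : Fin n, tsupport (fun y => f i.succ (y - -(b • e0))) ⊆ Hs 0 0 := fun i y hy => by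
      simpa [Hs] using h2 i _ (tsupport_comp (θ := fun y => y - -(b • e0)) (by fun_prop) hy)
    have e := hs b (f 0) b0 ⟨(hf.1 0).1, (hf.1 0).2, fun y hy => ⟨hp 0 hy, h1 y hy⟩⟩ _
      (mon_mem (adm_sub a _) p)
    rw [τ_mon, ih _ (adm_sub a _) o p] at e
    simp only [sub_neg_eq_add, sub_add_cancel] at e
    rw [mon, Fin.prod_univ_succ, int_cons (intg_ψ hv hf ho hp)]
    refine e.trans (integral_congr_ae (.of_forall fun y => ?_))
    simp only [Fin.prod_univ_succ, Fin.cons_zero, Fin.cons_succ, mul_smul, integral_smul]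
    by_cases hy : y ∈ tsupport (f 0)
    swap
    · simp [image_eq_zero_of_notMem_tsupport hy]
    have I := intg_ψ hv (adm_sub a _) o p
    simp only [sub_neg_eq_add] at I
    rw [← ContinuousLinearMap.integral_comp_comm _ I]
    congr 1
    refine .trans (integral_congr_ae (.of_forall fun x => ?_))
      (integral_add_right_eq_self (μ := volume) _ fun _ : Fin n => b • e0)
    by_cases hx : x ∈ univ.pi fun i : Fin n => tsupport fun y => f i.succ (y - -(b • e0))
    swap
    · have := prod_zero hx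
      simp only [sub_neg_eq_add] at this
      simp only [Pi.add_apply, this, zero_smul, map_zero]
    simp only [Pi.add_apply, map_smul]
    rw [← hr n _ (euc_to (hp 0 hy)) _ (euc_to (y := b • e0 - y) (by simpa using h1 y hy)) _
      (mem_ft o p hx)]
    congr 2
    funext i
    induction i using Fin.cases with
    | zero => rfl
    | succ i => simp only [Fin.cons_succ, ← euc_add, add_sub_cancel, Pi.add_apply]

end B3

open B3 in
theorem sB3_of : S_B3 := by
  intro H _ _ _ W r E A ψ w hS _ hs hv hr n f hf ho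
  obtain ⟨R, hR⟩ := (isCompact_iUnion fun i => (hf.1 i).1.isCompact).isBounded.exists_norm_le
  have p : ∀ i, tsupport (fun y => f i (y - (R + 1) • e0)) ⊆ Hs 0 0 := fun i y hy => by
    have := (abs_le.1 ((PiLp.norm_apply_le _ 0).trans (hR _ (mem_iUnion.2 ⟨i, tsupport_comp
      (θ := fun y => y - (R + 1) • e0) (by fun_prop) hy⟩)))).1
    simp only [PiLp.sub_apply, PiLp.smul_apply, e0_zero, smul_eq_mul, mul_one] at this
    change 0 < y 0
    linarith
  have a := adm_sub hf ((R + 1) • e0)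
  have o := B3.Ord.sub ho ((R + 1) • e0)
  have e := r.inn (net.one _) (mon_mem a p)
  rw [map_one (net.Θ 0), one_mul, vec hs hv hr n _ a o p, ← integral_inner (intg_ψ hv a o p), ← τ_mon,
    hS.ti _ (mon_mem hf fun _ => subset_univ _),
    ← integral_add_right_eq_self (μ := volume) (g := fun _ : Fin n => (R + 1) • e0)] at e
  refine e.symm.trans (integral_congr_ae (.of_forall fun y => ?_))
  by_cases hy : (y + fun _ => (R + 1) • e0) ∈ univ.pi fun i => tsupport fun y => f i (y - (R + 1) • e0)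
  · simp only [inner_smul_right, ← hv.wval n _ (mem_ft o p hy)]
    simp only [Pi.add_apply, add_sub_cancel_right, euc_add, hv.wtr]
  · have := prod_zero hy
    simp only [Pi.add_apply, add_sub_cancel_right] at this
    simp only [Pi.add_apply, add_sub_cancel_right, this, zero_smul, zero_mul, inner_zero_right]

end Pool.Agent.Lib.MP_7f377f_mp.Wm
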