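import Pool.Agent.Lib.MP_7f377f_mp.G.WmSpecB
import Pool.Agent.Lib.MP_7f377f_mp.G.YM11Defs

/-! Stage 14: the Wightman reconstruction from its modules. -/

noncomputable section

namespace Pool.Agent.Lib.MP_7f377f_mp.Wm
variable [Pool.Agent.Lib.MP_7f377f_mp.GD]
set_option linter.unusedSectionVars false

open MeasureTheory Filter Topology Set Complex YM7 Pur Lg MvPolynomial

/-- the conclusion -/
def Out (W : Fp → ℂ) : Prop :=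
  ∃ (K : Type) (_ : NormedAddCommGroup K) (_ : InnerProductSpace ℂ K) (_ : CompleteSpace K)
    (U : R4 → Mat → K →L[ℂ] K) (D : Submodule ℂ K) (Ω : D) (φ : Tf →ₗ[ℂ] Module.End ℂ D),
    Wight U D Ω φ ∧ Wick W Ω φ

theorem rep_of {H : Type} [NormedAddCommGroup H] [InnerProductSpace ℂ H] [CompleteSpace H]
    {W : Pol →ₗ[ℂ] ℂ} (hS : net.St W) (hq : Quantum H W) : ∃ r : net.Rep W 0 H, Sg r.T ∧
      ‖r.Ψ 1‖ = 1 ∧ (∀ v : R4, 0 ≤ v 0 → r.T v (r.Ψ 1) = r.Ψ 1) ∧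
      ∀ x, (∀ v : R4, 0 ≤ v 0 → r.T v x = x) → ∃ c : ℂ, x = c • r.Ψ 1 := by
  obtain ⟨Ψ, T, h1, h2, h3, ⟨d1, d2, d3, d4, -⟩, h5⟩ := hq
  let r : net.Rep W 0 H := ⟨h1.mk' Ψ, T, fun hX hY => (h3 _ hY).1 _ hX,
    h2.mono (by rintro _ ⟨Z, hZ, rfl⟩; exact ⟨⟨Z, hZ⟩, rfl⟩), fun hv => (d3 _ hv).1,
    fun hv hX => (h3 _ hX).2 _ hv⟩
  refine ⟨r, ⟨d2, fun v hv => (d3 v hv).1, fun v w hv hw => (d3 v hv).2.2 w hw,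
    fun v hv x y => ?_, d4⟩, d1, fun v hv => (d3 v hv).2.1, h5⟩
  have neg : 0 ≤ (-rf 0 v) 0 := by simpa
  refine r.dense.induction_on₂ (isClosed_eq (by fun_prop) (by fun_prop)) (fun Y Z => ?_) x y
  rw [r.act hv Y.2, r.act neg Z.2, r.inn (Net.τ_hs Y.2 (by simpa)) Z.2,
    r.inn Y.2 (Net.τ_hs Z.2 (by simpa)), ← hS.ti (-rf 0 v)
      (Net.rp_adm (Net.τ_hs Y.2 (by simpa)) Z.2), map_mul, net.Θ_τ, net.τ_τ, neg_add_cancel,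
    net.τ_zero]

theorem out_of (hA : S_A) (hC : S_C) (hD : S_D) (hR : S_R) (hF1 : S_F1) (hF2 : S_F2) (hP : S_Phi)
    (hCy : S_Cyc) (hH : S_Herm) (hL1 : S_L1) (hL2 : S_L2) (hG1 : S_G1) (hG2 : S_G2) (hB0 : S_B0)
    (hB1 : S_B1) (hB2 : S_B2) (hB3 : S_B3) (hB4 : S_B4)
    {H : Type} [NormedAddCommGroup H] [InnerProductSpace ℂ H] [CompleteSpace H] {W : Pol →ₗ[ℂ] ℂ}
    (hS : net.St W) (hL : LinP W) (hr : Rot W) (hQ : Q1 W) (hq : Quantum H W) : Out W := by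
  obtain ⟨r, r1, r2, r3, r4⟩ := rep_of hS hq
  obtain ⟨E, e1, e2, e3, e4, e5⟩ := hA H r.T r1 (hB0 H W r hS hr r1)
  obtain ⟨M, K, m1, m2⟩ := hB1 H W r E hS hL hQ e1 e2
  obtain ⟨A, a1, a2⟩ := hC H E M K e1 m1
  obtain ⟨ψ, w, v1, v2⟩ := hD H E A _ e1 a1 (e5 _ r3)
  have l1 := hB3 H W r E A ψ w hS a1 (hB2 H W r E M K A hS hL e1 e2 m1.one m2 a1 a2) v1 v2
  have l2 := hF1 w v1.whol (hB4 W w hr v1.whol l1)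
  obtain ⟨K, _, _, _, E', Ω, ψ', s⟩ := hR H E _ ψ w ⟨v1, e1, r2, e3, fun x hx => r4 x (e4 x hx)⟩
  obtain ⟨Φ, p1, p2, p3⟩ := hP K E' Ω ψ' w s.toVec
  obtain ⟨U, u⟩ := hG1 K E' Ω ψ' w Φ s (hF2 w v1.whol l2) p1
  obtain ⟨D, Ω', φ, g1, g2⟩ := hG2 K E' Ω ψ' w Φ U s u p2 (hH K E' Ω ψ' w Φ s p1)
    (hCy K E' Ω ψ' w Φ s p1) (hL2 K Φ (hL1 K E' Ω ψ' w Φ s l2 p1))
  exact ⟨K, _, _, ‹_›, U, D, Ω', φ, g1, fun n => ⟨w n, v1.whol n, l1 n,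
    fun f G hG => g2 n f ▸ p3 n f G hG⟩⟩

end Pool.Agent.Lib.MP_7f377f_mp.Wm
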