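import Pool.Agent.Lib.MP_7f377f_mp.G.WmSpecB
import Pool.Agent.Lib.MP_7f377f_mp.G.LgNG

/-! Stage 14: the truncated four point function is not zero at time ordered points. -/

noncomputable section

namespace Pool.Agent.Lib.MP_7f377f_mp.Wm
variable [Pool.Agent.Lib.MP_7f377f_mp.GD]
set_option linter.unusedSectionVars false

open MeasureTheory Filter Topology Set Real YM7 Pur Lg Lg.NG MvPolynomial

theorem Ord.smul {k : ℕ} {f : Fin k → R4 → ℝ} (h : Ord f) {c : ℝ} (hc : 0 < c) :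
    Ord fun i y => f i (c • y) := fun i j o _ hx _ hy => lt_of_mul_lt_mul_left
  (h i j o _ (tsupport_comp_subset_preimage _ (continuous_const_smul c) hx) _
    (tsupport_comp_subset_preimage _ (continuous_const_smul c) hy)) hc.le

theorem ord_bu (n : ℕ) : Ord fun i => bu n (pt i) := fun i j o x hx y hy => by
  simp only [bu, ContDiffBump.tsupport_normed_eq, mem_closedBall_iff_norm] at hx hy
  have r : ∀ c, (bp n c).rOut ≤ 3⁻¹ := fun _ =>
    inv_anti₀ (by norm_num) (by linarith [n.cast_nonneg (α := ℝ)])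
  have x1 := (abs_le.1 ((PiLp.norm_apply_le (x - pt i) 0).trans hx)).2
  have y1 := (abs_le.1 ((PiLp.norm_apply_le (y - pt j) 0).trans hy)).1
  have o1 : ((i : ℕ) : ℝ) + 1 ≤ (j : ℕ) := by exact_mod_cast o
  have v : ∀ i, pt i 0 = (i : ℕ) := fun i => by simp [pt]
  rw [PiLp.sub_apply, v] at x1 y1
  linarith [r (pt i), r (pt j)]

theorem wick_ord {W : Pol →ₗ[ℂ] ℂ} (h1 : W 1 = 1) {γ : ℝ} (hγ : γ ≠ 0)
    (af : ∀ k (f : Fin k → R4 → ℝ), Adm f →
      Tendsto (fun d : ℝ => (log d⁻¹ : ℂ) ^ k * W (mon fun i y => f i (d⁻¹ • y))) (𝓝[>] 0)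
        (𝓝 (γ ^ k * iv f : ℝ)))
    (h : ∀ (f : Fin 4 → R4 → ℝ) (Y : Fin 4 → Pol), Adm f → (∀ i, ContDiff ℝ (⊤ : ℕ∞) (f i)) → Ord f →
      (∀ i, Y i = X (f i) - C (W (X (f i)))) →
      W (Y 0 * Y 1 * Y 2 * Y 3) = W (Y 0 * Y 1) * W (Y 2 * Y 3) + W (Y 0 * Y 2) * W (Y 1 * Y 3) +
        W (Y 0 * Y 3) * W (Y 1 * Y 2)) {f : Fin 4 → R4 → ℝ} (hf : Adm f) (ho : Ord f)
    (hs : ∀ i, ContDiff ℝ (⊤ : ℕ∞) (f i)) :
    iv f = iv ![f 0, f 1] * iv ![f 2, f 3] + iv ![f 0, f 2] * iv ![f 1, f 3] +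
      iv ![f 0, f 3] * iv ![f 1, f 2] := by
  have sub : ∀ l (e : Fin l → Fin 4), e.Injective → Adm fun i => f (e i) := fun l e he =>
    ⟨fun i => hf.1 _, fun _ _ c => hf.2 (he.ne c)⟩
  set x : ℝ → Fin 4 → Pol := fun d i => X fun y => f i (d⁻¹ • y) with hx
  have a1 : ∀ i, Tendsto (fun d : ℝ => (log d⁻¹ : ℂ) * W (x d i)) (𝓝[>] 0) (𝓝 0) := fun i => by
    simpa [mon, iv, free_one] using af 1 _ (sub 1 (fun _ => i) fun _ _ _ => Subsingleton.elim _ _)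
  have a2 : ∀ i j, i ≠ j → Tendsto (fun d : ℝ => (log d⁻¹ : ℂ) ^ 2 * W (x d i * x d j)) (𝓝[>] 0)
      (𝓝 (γ ^ 2 * iv ![f i, f j] : ℝ)) := fun i j c => by
    have := af 2 _ (sub 2 ![i, j] (by revert i j; decide))
    rw [show iv (fun a => f (![i, j] a)) = iv ![f i, f j] by
      congr 1; funext a; fin_cases a <;> rfl] at this
    simp only [mon, Fin.prod_univ_two] at this
    exact this
  have a3 : ∀ i j l, i < j → j < l → ∃ c : ℂ, Tendsto (fun d : ℝ => (log d⁻¹ : ℂ) ^ 3 *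
      W (x d i * x d j * x d l)) (𝓝[>] 0) (𝓝 c) := fun i j l c c' => by
    have := af 3 _ (sub 3 ![i, j, l] (by revert i j l; decide))
    simp only [mon, Fin.prod_univ_three] at this
    exact ⟨_, this⟩
  have a4 : Tendsto (fun d : ℝ => (log d⁻¹ : ℂ) ^ 4 * W (x d 0 * x d 1 * x d 2 * x d 3)) (𝓝[>] 0)
      (𝓝 (γ ^ 4 * iv f : ℝ)) := by simpa only [mon, Fin.prod_univ_four] using af 4 f hf
  obtain ⟨c0, b0⟩ := a3 1 2 3 (by decide) (by decide)
  obtain ⟨c1, b1⟩ := a3 0 2 3 (by decide) (by decide)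
  obtain ⟨c2, b2⟩ := a3 0 1 3 (by decide) (by decide)
  obtain ⟨c3, b3⟩ := a3 0 1 2 (by decide) (by decide)
  have t := ((((((a2 0 1 (by decide)).mul (a2 2 3 (by decide))).add
    ((a2 0 2 (by decide)).mul (a2 1 3 (by decide)))).add
    ((a2 0 3 (by decide)).mul (a2 1 2 (by decide)))).add
    (((((a1 0).mul b0).add ((a1 1).mul b1)).add ((a1 2).mul b2)).add ((a1 3).mul b3))).sub
    (((((((((a1 0).mul (a1 1)).mul (a2 2 3 (by decide))).add
      (((a1 0).mul (a1 2)).mul (a2 1 3 (by decide)))).add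
      (((a1 0).mul (a1 3)).mul (a2 1 2 (by decide)))).add
      (((a1 1).mul (a1 2)).mul (a2 0 3 (by decide)))).add
      (((a1 1).mul (a1 3)).mul (a2 0 2 (by decide)))).add
      (((a1 2).mul (a1 3)).mul (a2 0 1 (by decide)))).const_mul 2)).add
    (((((a1 0).mul (a1 1)).mul (a1 2)).mul (a1 3)).const_mul 6)
  have u := tendsto_nhds_unique a4 (t.congr' ?_)
  · simp only [zero_mul, add_zero, mul_zero, sub_zero] at u
    have u' : γ ^ 4 * iv f = γ ^ 2 * iv ![f 0, f 1] * (γ ^ 2 * iv ![f 2, f 3]) +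
        γ ^ 2 * iv ![f 0, f 2] * (γ ^ 2 * iv ![f 1, f 3]) +
        γ ^ 2 * iv ![f 0, f 3] * (γ ^ 2 * iv ![f 1, f 2]) := by exact_mod_cast u
    exact mul_left_cancel₀ (pow_ne_zero 4 hγ) (by linear_combination u')
  filter_upwards [self_mem_nhdsWithin] with d hd
  have := h (fun i y => f i (d⁻¹ • y)) (fun i => x d i - C (W (x d i)))
    (hf.smul (inv_ne_zero (ne_of_gt hd))) (fun i => (hs i).comp (contDiff_const_smul _))
    (ho.smul (inv_pos.2 hd)) fun _ => rfl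
  simp only [C_eq_smul_one, sub_mul, mul_sub, smul_mul_assoc, mul_smul_comm, one_mul, mul_one,
    map_sub, map_smul, smul_eq_mul, h1] at this
  linear_combination (-(log d⁻¹ : ℂ) ^ 4) * this

theorem non_gauss_ord {W : Pol →ₗ[ℂ] ℂ} (h1 : W 1 = 1) {γ : ℝ} (hγ : γ ≠ 0)
    (af : ∀ k (f : Fin k → R4 → ℝ), Adm f →
    Tendsto (fun d : ℝ => (log d⁻¹ : ℂ) ^ k * W (mon fun i y => f i (d⁻¹ • y))) (𝓝[>] 0)
      (𝓝 (γ ^ k * ∫ y : Fin k → R4, (∏ i, f i (y i)) * free y : ℝ))) :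
    ∃ (f : Fin 4 → R4 → ℝ) (Y : Fin 4 → Pol), Adm f ∧ (∀ i, ContDiff ℝ (⊤ : ℕ∞) (f i)) ∧ Ord f ∧
      (∀ i, Y i = X (f i) - C (W (X (f i)))) ∧ W (Y 0 * Y 1 * Y 2 * Y 3) ≠
        W (Y 0 * Y 1) * W (Y 2 * Y 3) + W (Y 0 * Y 2) * W (Y 1 * Y 3) +
        W (Y 0 * Y 3) * W (Y 1 * Y 2) := by
  by_contra! h
  have c2 : ∀ i j, i ≠ j → Tendsto (fun n => iv ![bu n (pt i), bu n (pt j)]) atTop
      (𝓝 (free ![pt i, pt j])) := fun i j c => by
    have hi : Function.Injective ![pt i, pt j] := by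
      rw [show ![pt i, pt j] = pt ∘ ![i, j] by funext a; fin_cases a <;> rfl]
      exact pt_inj.comp (by revert i j; decide)
    have := conc _ free_meas (free_cont hi)
    simp only [iv, Fin.prod_univ_two] at this ⊢
    exact this
  exact free_ne (tendsto_nhds_unique (conc pt free_meas (free_cont pt_inj))
    (((((c2 0 1 (by decide)).mul (c2 2 3 (by decide))).add
      ((c2 0 2 (by decide)).mul (c2 1 3 (by decide)))).add
      ((c2 0 3 (by decide)).mul (c2 1 2 (by decide)))).congr fun n =>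
        (wick_ord h1 hγ af h (adm_bu n) (ord_bu n) fun _ => (bp n _).contDiff_normed).symm))

end Pool.Agent.Lib.MP_7f377f_mp.Wm
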