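import Pool.Agent.Lib.MP_7f377f_mp.G.WmSpec
import Pool.Agent.Lib.MP_7f377f_mp.G.LgInp

/-! Stage 14: the statements of the concrete modules. -/

noncomputable section

namespace Pool.Agent.Lib.MP_7f377f_mp.Wm
variable [Pool.Agent.Lib.MP_7f377f_mp.GD]
set_option linter.unusedSectionVars false

open MeasureTheory Filter Topology Set Complex YM7 Pur Lg MvPolynomial
open scoped NNReal

/-- the operator bound for one field with an explicit radius -/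
def Q1 (S : Pol →ₗ[ℂ] ℂ) : Prop := ∃ (K C : ℝ) (s : ℕ), 1 ≤ K ∧ 0 ≤ C ∧ ∀ d ∈ Ioc (0 : ℝ) 1,
  ∀ (g : R4 → ℝ) (L : ℝ≥0), C1 (Bx d) g → LipschitzWith L g →
    net.QB S (X g) (K * d) (C / d ^ s * L)

theorem Q1.dom {S W : Pol →ₗ[ℂ] ℂ} (h : Q1 S) (hD : net.Dom S W) : Q1 W :=
  let ⟨K, C, s, h1, h2, h3⟩ := h
  ⟨K, C, s, h1, h2, fun d hd g L g1 g2 => hD.qb (h3 d hd g L g1 g2)⟩

/-- time ordered supports -/
def Ord {n : ℕ} (f : Fin n → R4 → ℝ) : Prop :=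
  ∀ i j, i < j → ∀ x ∈ tsupport (f i), ∀ y ∈ tsupport (f j), x 0 < y 0

/-- the Schwinger functions at time ordered points -/
def Link (W : Pol →ₗ[ℂ] ℂ) (w : ∀ n, (Fin n → C4) → ℂ) : Prop :=
  ∀ n (f : Fin n → R4 → ℝ), Adm f → Ord f →
    W (mon f) = ∫ y : Fin n → R4, (∏ i, (f i (y i) : ℂ)) * w n fun i => euc (y i)

section
variable {H : Type} [NormedAddCommGroup H] [InnerProductSpace ℂ H] {W : Pol →ₗ[ℂ] ℂ}

/-- the action of the smeared field -/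
def Act (r : net.Rep W 0 H) (M : ℝ → (R4 → ℝ) → H →L[ℂ] H) (K : ℝ) : Prop :=
  ∀ d ∈ Ioc (0 : ℝ) 1, ∀ g, C1 (Bx d) g → ∀ Z ∈ net.loc (Hs 0 0),
    M d g (r.Ψ Z) = r.Ψ (net.τ ((K * d) • e0) (X g) * net.τ ((2 * K * d) • e0) Z)

/-- fields smeared in a slab -/
def Slab (r : net.Rep W 0 H) (A : C4 → C4 → H →L[ℂ] H) : Prop :=
  ∀ (b : ℝ) (g : R4 → ℝ), 0 < b → C1 {y | 0 < y 0 ∧ y 0 < b} g → ∀ Z ∈ net.loc (Hs 0 0),
    r.Ψ (X g * net.τ (b • e0) Z) = ∫ y, (g y : ℂ) • A (euc y) (euc (b • e0 - y)) (r.Ψ Z)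

end

def S_Q1 : Prop := ∀ (S : ∀ {k : ℕ}, (Fin k → R4 → ℝ) → ℝ) (S' : Pol →ₗ[ℂ] ℂ), net.St S' →
  (∀ {k} {f : Fin k → R4 → ℝ}, Adm f → S' (mon f) = S f) → LinP S' → ProdS S → Q1 S'

def S_B0 : Prop := ∀ (H : Type) [NormedAddCommGroup H] [InnerProductSpace ℂ H] [CompleteSpace H]
  (W : Pol →ₗ[ℂ] ℂ) (r : net.Rep W 0 H), net.St W → Rot W → Sg r.T → ConeH r.T

def S_B1 : Prop := ∀ (H : Type) [NormedAddCommGroup H] [InnerProductSpace ℂ H] [CompleteSpace H]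
  (W : Pol →ₗ[ℂ] ℂ) (r : net.Rep W 0 H) (E : C4 → H →L[ℂ] H), net.St W → LinP W → Q1 W → Tub E →
    (∀ v : R4, 0 ≤ v 0 → E (euc v) = r.T v) → ∃ M K, Smear E M K ∧ Act r M K

def S_B2 : Prop := ∀ (H : Type) [NormedAddCommGroup H] [InnerProductSpace ℂ H] [CompleteSpace H]
  (W : Pol →ₗ[ℂ] ℂ) (r : net.Rep W 0 H) (E : C4 → H →L[ℂ] H) M K A, net.St W → LinP W → Tub E →
    (∀ v : R4, 0 ≤ v 0 → E (euc v) = r.T v) → 1 ≤ K → Act r M K → Pt E A → Den E M K A → Slab r A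

def S_B3 : Prop := ∀ (H : Type) [NormedAddCommGroup H] [InnerProductSpace ℂ H] [CompleteSpace H]
  (W : Pol →ₗ[ℂ] ℂ) (r : net.Rep W 0 H) (E : C4 → H →L[ℂ] H) A ψ w, net.St W → Pt E A →
    Slab r A → Vec E (r.Ψ 1) ψ w → Rec A ψ → Link W w

def S_B4 : Prop := ∀ (W : Pol →ₗ[ℂ] ℂ) (w : ∀ n, (Fin n → C4) → ℂ), Rot W →
  (∀ n, DifferentiableOn ℂ (w n) (Tube n)) → Link W w → E1 w

end Pool.Agent.Lib.MP_7f377f_mp.Wm
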