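import Pool.Agent.Lib.MP_7f377f_mp.G.WmDef

/-! Stage 14: tensor products of Schwartz functions. -/

noncomputable section

namespace Pool.Agent.Lib.MP_7f377f_mp.Wm
variable [Pool.Agent.Lib.MP_7f377f_mp.GD]
set_option linter.unusedSectionVars false

open Filter Topology Finset YM7

section
variable {V V1 V2 : Type} [NormedAddCommGroup V] [NormedSpace ℝ V] [NormedAddCommGroup V1]
  [NormedSpace ℝ V1] [NormedAddCommGroup V2] [NormedSpace ℝ V2]

/-- the largest of the norms `sup ‖x‖ ^ k * ‖D ^ l F x‖`, `k, l ≤ s` -/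
def nr (V : Type) [NormedAddCommGroup V] [NormedSpace ℝ V] (s : ℕ) :
    Seminorm ℂ (SchwartzMap V ℂ) := (Iic (s, s)).sup (schwartzSeminormFamily ℂ _ _)

theorem le_nr {s k l : ℕ} (hk : k ≤ s) (hl : l ≤ s) (F : SchwartzMap V ℂ) (x : V) :
    ‖x‖ ^ k * ‖iteratedFDeriv ℝ l F x‖ ≤ nr V s F :=
  (F.le_seminorm ℂ k l x).trans (Seminorm.le_finset_sup_apply (p := schwartzSeminormFamily ℂ _ _)
    (i := (k, l)) (mem_Iic.2 ⟨hk, hl⟩))

theorem comp_le (p : V →L[ℝ] V1) (hp : ‖p‖ ≤ 1) (F : SchwartzMap V1 ℂ) (l : ℕ) (x : V) :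
    ‖iteratedFDeriv ℝ l (fun y => F (p y)) x‖ ≤ ‖iteratedFDeriv ℝ l F (p x)‖ := by
  refine (congrArg _ (p.iteratedFDeriv_comp_right (F.smooth l) x le_rfl)).trans_le
    ((ContinuousMultilinearMap.norm_compContinuousLinearMap_le _ _).trans ?_)
  exact mul_le_of_le_one_right (norm_nonneg _) (prod_le_one (fun _ _ => norm_nonneg _) fun _ _ => hp)

theorem ten_le (p : V →L[ℝ] V1) (q : V →L[ℝ] V2) (hp : ‖p‖ ≤ 1) (hq : ‖q‖ ≤ 1)
    (h : ∀ x, ‖x‖ ≤ max ‖p x‖ ‖q x‖) {s k l : ℕ} (hk : k ≤ s) (hl : l ≤ s) (F : SchwartzMap V1 ℂ)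
    (G : SchwartzMap V2 ℂ) (x : V) :
    ‖x‖ ^ k * ‖iteratedFDeriv ℝ l (fun y => F (p y) * G (q y)) x‖ ≤
      2 ^ s * (nr V1 s F * nr V2 s G) := by
  have a := norm_iteratedFDeriv_mul_le (𝕜 := ℝ) (N := l) (f := fun y => F (p y))
    (g := fun y => G (q y)) ((F.smooth l).comp (by fun_prop)) ((G.smooth l).comp (by fun_prop)) x
    le_rfl
  refine (mul_le_mul_of_nonneg_left a (by positivity)).trans ?_
  have b : ∀ i ∈ range (l + 1), ‖x‖ ^ k * (‖iteratedFDeriv ℝ i F (p x)‖ *
      ‖iteratedFDeriv ℝ (l - i) G (q x)‖) ≤ nr V1 s F * nr V2 s G := fun i hi => by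
    have h1 : i ≤ s := by have := mem_range.1 hi; omega
    have h2 : l - i ≤ s := by omega
    rcases le_max_iff.1 (h x) with d | d
    · rw [← mul_assoc]
      exact mul_le_mul (le_trans (by gcongr) (le_nr hk h1 F _))
        (by simpa using le_nr (Nat.zero_le s) h2 G _) (by positivity) (apply_nonneg _ _)
    · rw [mul_left_comm]
      exact mul_le_mul (by simpa using le_nr (Nat.zero_le s) h1 F _)
        (le_trans (by gcongr) (le_nr hk h2 G _)) (by positivity) (apply_nonneg _ _)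
  calc _ ≤ ∑ i ∈ range (l + 1), (l.choose i : ℝ) * (nr V1 s F * nr V2 s G) := by
        rw [mul_sum]
        refine sum_le_sum fun i hi => ?_
        rw [mul_assoc, mul_left_comm]
        refine mul_le_mul_of_nonneg_left (le_trans ?_ (b i hi)) (by positivity)
        gcongr
        · exact comp_le p hp F _ _
        · exact comp_le q hq G _ _
    _ ≤ _ := by
        rw [← sum_mul, ← Nat.cast_sum, Nat.sum_range_choose]
        have := apply_nonneg (nr V1 s) F
        have := apply_nonneg (nr V2 s) G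
        push_cast
        gcongr
        norm_num

end

variable {n : ℕ}

theorem cs_le {s k l : ℕ} (hk : k ≤ s) (hl : l ≤ s) (f : Tf) (F : Sw n) (x : Fin (n + 1) → R4) :
    ‖x‖ ^ k * ‖iteratedFDeriv ℝ l (fun y : Fin (n + 1) → R4 => f (y 0) * F (Fin.tail y)) x‖ ≤
      2 ^ s * (nr _ s f * nr _ s F) :=
  ten_le (V := Fin (n + 1) → R4) (.proj 0) (.pi fun i : Fin n => .proj i.succ)
    (ContinuousLinearMap.opNorm_le_bound _ zero_le_one fun y => by
      rw [one_mul]; exact norm_le_pi_norm y 0)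
    (ContinuousLinearMap.opNorm_le_bound _ zero_le_one fun y => by
      rw [one_mul]
      exact (pi_norm_le_iff_of_nonneg (norm_nonneg _)).2 fun i => norm_le_pi_norm y _)
    (fun y => (pi_norm_le_iff_of_nonneg (by positivity)).2 fun i => by
      induction i using Fin.cases with
      | zero => exact le_max_left _ _
      | succ i => exact le_max_of_le_right (norm_le_pi_norm (fun i : Fin n => y i.succ) i))
    hk hl f F x

/-- the tensor product `f (x_0) * F (x_1, .., x_n)` -/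
def cs (f : Tf) (F : Sw n) : Sw (n + 1) where
  toFun y := f (y 0) * F (Fin.tail y)
  smooth' := (f.smooth'.comp (by fun_prop)).mul (F.smooth'.comp (by unfold Fin.tail; fun_prop))
  decay' k l := ⟨_, cs_le (le_max_left k l) (le_max_right k l) f F⟩

@[simp] theorem cs_apply (f : Tf) (F : Sw n) (y : Fin (n + 1) → R4) :
    cs f F y = f (y 0) * F (Fin.tail y) := rfl

/-- the tensor product as a bilinear map -/
def csL (n : ℕ) : Tf →ₗ[ℂ] Sw n →ₗ[ℂ] Sw (n + 1) :=
  LinearMap.mk₂ ℂ cs (fun _ _ _ => by ext; simp [add_mul]) (fun _ _ _ => by ext; simp [mul_assoc])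
    (fun _ _ _ => by ext; simp [mul_add]) fun _ _ _ => by ext; simp [mul_left_comm]

@[simp] theorem csL_apply (f : Tf) (F : Sw n) : csL n f F = cs f F := rfl

theorem semi_cs {k l : ℕ} (f : Tf) (F : Sw n) : SchwartzMap.seminorm ℂ k l (cs f F) ≤
    2 ^ max k l * (nr _ (max k l) f * nr _ (max k l) F) :=
  SchwartzMap.seminorm_le_bound ℂ k l _ (by positivity)
    (cs_le (le_max_left k l) (le_max_right k l) f F)

theorem continuous_cs_left (F : Sw n) : Continuous fun f => cs f F :=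
  WithSeminorms.continuous_of_isBounded (schwartz_withSeminorms ℂ _ _) (schwartz_withSeminorms ℂ _ _)
    ((csL n).flip F) fun p => ⟨Iic (max p.1 p.2, max p.1 p.2),
      ⟨2 ^ max p.1 p.2 * nr _ (max p.1 p.2) F, by positivity⟩, fun f =>
        (semi_cs f F).trans_eq (by
          change _ = 2 ^ max p.1 p.2 * nr _ (max p.1 p.2) F * nr _ (max p.1 p.2) f; ring)⟩

theorem continuous_cs_right (f : Tf) : Continuous (cs f : Sw n → _) :=
  WithSeminorms.continuous_of_isBounded (schwartz_withSeminorms ℂ _ _) (schwartz_withSeminorms ℂ _ _)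
    (csL n f) fun p => ⟨Iic (max p.1 p.2, max p.1 p.2),
      ⟨2 ^ max p.1 p.2 * nr _ (max p.1 p.2) f, by positivity⟩, fun F =>
        (semi_cs f F).trans_eq (by
          change _ = 2 ^ max p.1 p.2 * nr _ (max p.1 p.2) f * nr _ (max p.1 p.2) F; ring)⟩

/-- the unit -/
def one0 : Sw 0 := HasCompactSupport.toSchwartzMap (f := fun _ => (1 : ℂ))
  (HasCompactSupport.of_compactSpace _) contDiff_const

@[simp] theorem one0_apply (x : Fin 0 → R4) : one0 x = 1 := rfl

/-- tensor products -/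
def tn : ∀ {n : ℕ}, (Fin n → Tf) → Sw n
  | 0, _ => one0
  | _ + 1, f => cs (f 0) (tn (Fin.tail f))

theorem tn_apply : ∀ {n : ℕ} (f : Fin n → Tf) (x : Fin n → R4), tn f x = ∏ i, f i (x i)
  | 0, _, _ => rfl
  | _ + 1, f, x => by
    rw [tn, cs_apply, tn_apply, Fin.prod_univ_succ]
    rfl

end Pool.Agent.Lib.MP_7f377f_mp.Wm
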