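import Pool.Agent.Lib.MP_7f377f_mp.G.WvSpec
import Pool.Agent.Lib.MP_7f377f_mp.G.WmR
import Pool.Agent.Lib.MP_7f377f_mp.G.WmF2

/-! Labels: restriction to the cyclic subspace, complex rotations, boosts. -/

noncomputable section

namespace Pool.Agent.Lib.MP_7f377f_mp.Wv
variable [Pool.Agent.Lib.MP_7f377f_mp.GD]
set_option linter.unusedSectionVars false

open Filter Topology Set Complex YM7 Matrix Wm Wm.F2

variable {V : Type} [NormedAddCommGroup V] [NormedSpace ℂ V] [InvolutiveStar V]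
  {H : Type} [NormedAddCommGroup H] [InnerProductSpace ℂ H]

theorem sR_of [CompleteSpace H] : S_R V H := fun E Ω ψ w h => by
  let K := (Submodule.span ℂ {x | ∃ n a, ∃ z ∈ FT n, ψ n a z = x}).topologicalClosure
  have m : ∀ {n a z}, z ∈ FT n → ψ n a z ∈ K := fun hz =>
    Submodule.le_topologicalClosure _ (Submodule.subset_span ⟨_, _, _, hz, rfl⟩)
  have le : ∀ {M : Submodule ℂ H}, IsClosed (M : Set H) → (∀ n a, ∀ z ∈ FT n, ψ n a z ∈ M) →
      K ≤ M := fun hM e => Submodule.topologicalClosure_minimal _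
      (Submodule.span_le.2 (by rintro _ ⟨n, a, z, hz, rfl⟩; exact e n a z hz)) hM
  have inv : ∀ {u}, u ∈ TV 0 → ∀ x : K, E u x ∈ K := fun {u} hu x =>
    le (M := K.comap (E u : H →ₗ[ℂ] H))
      ((Submodule.isClosed_topologicalClosure _).preimage (E u).continuous)
      (fun n a z hz => by
        change E u (ψ n a z) ∈ K
        rw [h.cov n a z hz u hu]
        exact m (FT.add hz hu)) x.2
  let P := K.orthogonalProjectionOnto
  have p : ∀ {x}, x ∈ K → (P x : H) = x := fun hx => K.starProjection_eq_self_iff.2 hx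
  obtain ⟨E', e⟩ : ∃ E' : C4 → K →L[ℂ] K, E' = fun z => P ∘L E z ∘L K.subtypeL := ⟨_, rfl⟩
  have e1 : ∀ {u}, u ∈ TV 0 → ∀ x : K, (E' u x : H) = E u x := fun hu x => e ▸ p (inv hu x)
  have f0 : (fun _ => 0) ∈ FT 0 := ⟨fun i => i.elim0, fun i => i.elim0⟩
  have o : (P Ω : H) = Ω := p (h.nil 0 _ ▸ m f0)
  have i : ∀ x y : K, inner ℂ x y = inner ℂ (x : H) y := fun _ _ => rfl
  refine ⟨K, _, _, inferInstance, E', P Ω, fun n a z => P (ψ n a z), K.subtypeₗᵢ, o,
    fun _ => e1, ⟨⟨fun a z => by rw [h.nil],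
    fun n => P.differentiable.comp_differentiableOn (h.jnt n), fun n a => ?_,
    fun n a z hz u hu => Subtype.ext ?_, h.wjnt, h.wtr, fun n a z hz => ?_,
    fun a n α β z hz y hy => ?_, fun a n α β γ q c z hz y hy e2 e3 => ?_,
    fun n t c c' a z hz => by rw [h.lin n t c c' a z hz, map_add, map_smul]⟩,
    ⟨?_, fun z hz => ?_, fun z hz u hu => ?_,
    fun z hz x y => ?_, fun x => ?_, ?_⟩, ?_, fun x => ?_, fun x hx => ?_⟩, fun x hx => ?_⟩
  · obtain ⟨C, N, C0, b⟩ := h.bd n a
    exact ⟨C, N, C0, fun δ d z hz => (congrArg norm (p (m (FTd.ft d.1 hz)))).trans_le (b δ d z hz)⟩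
  · rw [e1 hu, p (m hz), p (m (FT.add hz hu)), h.cov n a z hz u hu]
  · rw [i, o, p (m hz), h.wval n a z hz]
  · rw [i, p (m hz), p (m hy), h.inn a n α β z hz y hy]
  · rw [i, i, p (m hz), p (m hy), p (m (cons_mem.2 ⟨e3, ?_⟩)), p (m (cons_mem.2 ⟨e2, ?_⟩)),
      h.shift a n α β γ q c z hz y hy e2 e3]
    · convert FT.add hz (TO.tv (neg_star_mem' e3)) using 2
      simp
      abel
    · simpa only [sub_sub_sub_cancel_right, ← sub_eq_add_neg] using
        FT.add hy (TO.tv (neg_star_mem' e2))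
  · ext x
    rw [e1 (rl_zero ▸ rl_mem 0), h.tub.zero]
    rfl
  · refine ContinuousLinearMap.opNorm_le_bound _ zero_le_one fun x => ?_
    exact (congrArg norm (e1 hz x)).trans_le ((E z).le_of_opNorm_le (h.tub.nrm z hz) _)
  · ext x
    rw [e1 (zero_add (0 : ℝ) ▸ TV.add hz hu), h.tub.mul z hz u hu, mul_apply_eq_comp,
      mul_apply_eq_comp, e1 hz, e1 hu]
  · rw [i, i, e1 hz, e1 (neg_star_mem hz), h.tub.adj z hz]
  · exact e ▸ P.continuous.comp_continuousOn (h.tub.cont x)
  · rw [e]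
    exact (differentiableOn_const _).clm_comp (h.tub.hol.clm_comp (differentiableOn_const _))
  · exact (congrArg norm o).trans h.unit
  · obtain ⟨μ, ⟨m1, m2⟩, m3⟩ := h.spec x
    exact ⟨μ, ⟨m1, fun a => by rw [i, e1 (rl_mem a), m2]⟩, m3⟩
  · obtain ⟨c, hc⟩ := h.vac x fun a => (e1 (rl_mem a) x).symm.trans (congrArg _ (hx a))
    exact ⟨c, Subtype.ext (by rw [Submodule.coe_smul, o, hc])⟩
  · have := le (M := LinearMap.ker (innerSL ℂ (x : H) : H →ₗ[ℂ] ℂ))
      (innerSL ℂ (x : H)).isClosed_ker (fun n a z hz => by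
        have := hx n a z hz
        rwa [i, p (m hz)] at this) x.2
    exact inner_self_eq_zero.1 this

theorem sF1_of : S_F1 V := by
  intro ρ w hw h n a R σ y hR y1 y2 z z1 z2
  let f : (Fin n → C4) →L[ℂ] Fin n → C4 := .pi fun i => .proj (σ i)
  let g : (Fin n → C4) →L[ℂ] Fin n → C4 :=
    .pi fun i => (wick R).mulVecLin.toContinuousLinearMap ∘L .proj i
  have o : IsOpen (f ⁻¹' Tube n ∩ g ⁻¹' Tube n) :=
    ((isOpen_tube n).preimage f.continuous).inter ((isOpen_tube n).preimage g.continuous)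
  have e : ∀ y : Fin n → R4, g (fun i => euc (y i)) = fun i => euc (act R (y i)) := fun y =>
    funext fun i => wick_euc R (y i)
  have m : (fun i => euc (y i)) ∈ f ⁻¹' Tube n ∩ g ⁻¹' Tube n :=
    ⟨euc_tube.2 y1, by rw [mem_preimage, e]; exact euc_tube.2 y2⟩
  refine idR (f := w n (fun i => a (σ i)) ∘ f) (g := w n (fun i => ρ (wick R) (a i)) ∘ g) o
    (((convex_tube n).linear_preimage (f.restrictScalars ℝ).toLinearMap).inter
      ((convex_tube n).linear_preimage (g.restrictScalars ℝ).toLinearMap))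
    ((hw n _).comp f.differentiableOn fun _ e => e.1)
    ((hw n _).comp g.differentiableOn fun _ e => e.2)
    m (fun (y : Fin n → R4) i => euc (y i)) (fun t y => ?_) (fun y y' => funext fun i => euc_add _ _)
    euc_span ?_ (mem_inter z1 z2)
  · funext i μ
    by_cases e : μ = 0 <;> simp [euc, e, mul_left_comm]
  · have c : Continuous fun (x : Fin n → R4) i => euc ((y + x) i) := by fun_prop
    filter_upwards [c.continuousAt.eventually (o.mem_nhds (by simpa using m))] with x hx
    have e' : ((fun i => euc (y i)) + fun i => euc (x i)) = fun i => euc ((y + x) i) :=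
      funext fun i => (euc_add _ _).symm
    rw [e', Function.comp, Function.comp, e]
    exact h n a R σ _ hR (euc_tube.1 hx.1) (euc_tube.1 (e _ ▸ hx.2))

theorem mx {A B : CM} (h : ∀ z, A *ᵥ z = B *ᵥ z) : A = B :=
  toLin'.injective (LinearMap.ext h)

theorem cm_mul (L M : Mat) : cm (L * M) = cm L * cm M :=
  mx fun z => (cact_mul L M z).trans (mulVec_mulVec _ _ _)

theorem cm_one : cm 1 = 1 := mx fun z => (cact_one z).trans (one_mulVec z).symm

theorem cm_star (L : Mat) : (cm L).map star = cm L := by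
  ext μ ν
  simp

/-- the matrix of a complex boost -/
def Bm (u : R4) (b : ℂ) : CM := Matrix.of fun μ ν => (if μ = ν then 1 else 0) +
  (cosh b - 1) * (e0 μ * e0 ν + u μ * u ν) + sinh b * (e0 μ * u ν + u μ * e0 ν)

theorem Bm_vec (u : R4) (b : ℂ) (z : C4) : Bm u b *ᵥ z = bz u b z := by
  ext μ
  simp only [mulVec, dotProduct, Bm, of_apply, bz, ud, rl, Pi.add_apply, Pi.smul_apply, smul_eq_mul,
    add_mul, Finset.sum_add_distrib, ite_mul, one_mul, zero_mul, Finset.sum_ite_eq, Finset.mem_univ,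
    if_true]
  simp only [Fin.sum_univ_four, e0_zero, e1, e2, e3, ofReal_one, ofReal_zero]
  ring

variable {ρ : CM → V → V} {w : Fm V ℂ} {n : ℕ} {R : Mat} {u : R4}

theorem one_of (h : E1c ρ w) (hR : SO R) (h0 : 0 < R 0 0) (a) {z : Fin n → C4} (hz : z ∈ Tube n)
    (hz' : (fun i => wick R *ᵥ z i) ∈ Tube n) :
    w n (fun i => ρ (wick R) (a i)) (fun i => wick R *ᵥ z i) = w n a z :=
  (h n a R 1 (fun i => ((i : ℕ) : ℝ) • e0) hR (fun i j e => by simpa using e) (fun i j e => by
    simp only [act_smul, PiLp.smul_apply, act_e0, smul_eq_mul]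
    exact mul_lt_mul_of_pos_right (Nat.cast_lt.2 e) h0) z hz hz').symm

theorem boost (hρ : Rp ρ) (hw : DifferentiableOn ℂ
    (fun p : (Fin n → V) × (Fin n → C4) => w n p.1 p.2) (univ ×ˢ Tube n)) (h : E1c ρ w) (hu : Un u)
    (b : ℝ) (a) {z : Fin n → C4} (hz : z ∈ Tube n) :
    w n (fun i => ρ (cm (Br u b)) (a i)) (fun i => cact (Br u b) (z i)) = w n a z := by
  have d : Differentiable ℂ fun (s : ℂ) i => bz u s (z i) := by
    unfold bz
    fun_prop
  have d' : Differentiable ℂ fun (s : ℂ) i => ρ (Bm u s) (a i) := differentiable_pi.2 fun i =>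
    hρ.hol (Bm u) (fun μ ν => by simp only [Bm, of_apply]; fun_prop) _
  have e : ∀ᶠ a : ℝ in 𝓝 0, 0 < Real.cos a ∧ (fun i => bz u (a * I) (z i)) ∈ Tube n :=
    .and (Real.continuous_cos.continuousAt.eventually (lt_mem_nhds (by simp)))
      ((d.continuous.comp (show Continuous fun a : ℝ => a * I by fun_prop)).continuousAt.eventually
        ((isOpen_tube n).mem_nhds (by simpa [bz_id] using hz)))
  obtain ⟨ε, ε0, hε⟩ := Metric.eventually_nhds_iff_ball.1 e
  have k := S10.id_line (U := im ⁻¹' Metric.ball 0 ε)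
    (f := fun s => w n (fun i => ρ (Bm u s) (a i)) fun i => bz u s (z i))
    (g := fun _ => w n a z) (Metric.isOpen_ball.preimage continuous_im)
    ((convex_ball 0 ε).linear_preimage imLm).isPreconnected
    (hw.comp (d'.prodMk d).differentiableOn fun s hs => ⟨trivial, by
      have := lor_tube (lor_Br hu s.re) (hε _ hs).2
      simpa only [cact_Br, ← bz_add hu, re_add_im] using this⟩)
    (differentiableOn_const _) (z := 0) (by simpa using ε0) I_ne_zero
    (e.filter_mono nhdsWithin_le_nhds |>.mono fun t ht => by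
      have e : Bm u (t * I) = wick (Rm u t) := mx fun z => by rw [Bm_vec, wick_Rm hu]
      simp only [zero_add, ← wick_Rm hu, e] at ht ⊢
      exact one_of h (so_Rm hu t) (by simpa [Rm, hu.1] using ht.1) a hz ht.2)
  have e : cm (Br u b) = Bm u b := mx fun z => (cact_Br u b z).trans (Bm_vec u b z).symm
  simpa only [cact_Br, e] using k (show (b : ℂ) ∈ _ by simpa using ε0)

theorem sF2_of : S_F2 V := fun ρ w hρ hw h n a L hL z hz => by
  obtain ⟨u, b, hu, e⟩ := exists_Br hL
  have hR := lor_mul (lor_Br hu (-b)) hL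
  have h0 : act (Br u (-b) * L) e0 = e0 := by
    rw [act_mul, ← e, ← act_mul, ← Br_add hu, neg_add_cancel, Br_zero, act_one]
  have k := boost hρ (hw n) h hu b (fun i => ρ (cm (Br u (-b) * L)) (a i)) (lor_tube hR hz)
  simp only [← cact_mul, ← hρ.mul, ← cm_mul, ← Matrix.mul_assoc, ← Br_add hu, add_neg_cancel,
    Br_zero, Matrix.one_mul] at k
  have k' := one_of h (so_of hR h0) hR.2.2 a hz (by simpa only [wick_of hR h0] using lor_tube hR hz)
  simp only [wick_of hR h0, show wick _ = cm _ from mx (wick_of hR h0)] at k'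
  exact k.trans k'

end Pool.Agent.Lib.MP_7f377f_mp.Wv
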