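import Pool.Agent.Lib.MP_7f377f_mp.G.WvE
import Pool.Agent.Lib.MP_7f377f_mp.G.WvD
import Pool.Agent.Lib.MP_7f377f_mp.G.WvL
import Pool.Agent.Lib.MP_7f377f_mp.G.WvG
import Pool.Agent.Lib.MP_7f377f_mp.G.WmAll

/-! Labels: the Wightman reconstruction. -/

noncomputable section

namespace Pool.Agent.Lib.MP_7f377f_mp.Wv
variable [Pool.Agent.Lib.MP_7f377f_mp.GD]
set_option linter.unusedSectionVars false

open MeasureTheory Filter Topology Set Complex YM7 Pur Lg Wm Matrix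

variable {V : Type} [NormedAddCommGroup V] [NormedSpace ℂ V] [InvolutiveStar V]
  {P : Type} [CommRing P] [Algebra ℂ P] {H : Type} [NormedAddCommGroup H] [InnerProductSpace ℂ H]
  [CompleteSpace H] {ρ : CM → V → V} {N : Net P} {x : V → (R4 → ℝ) → P} {W : P →ₗ[ℂ] ℂ}

/-- the Wick rotation of the labels -/
def Dm (t : ℂ) : CM := diagonal ![t, 1, 1, 1]

theorem Dm_mul (s t : ℂ) : Dm s * Dm t = Dm (s * t) := by
  rw [Dm, Dm, diagonal_mul_diagonal, Dm]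
  congr 1
  funext μ
  fin_cases μ <;> simp

theorem Dm_one : Dm 1 = 1 := by
  rw [Dm, ← diagonal_one]
  congr 1
  funext μ
  fin_cases μ <;> simp

theorem Dm_star (t : ℂ) : (Dm t).map star = Dm (star t) := by
  rw [Dm, Dm, diagonal_map (star_zero _)]
  congr 1
  funext μ
  fin_cases μ <;> simp

theorem mat_rf : cm (mat (rfL 0)) = Dm (-1) := by
  ext μ ν
  fin_cases μ <;> fin_cases ν <;> simp [mat, rfL_eq, rf, Dm]

theorem Dm_wick (R : Mat) : Dm (-I) * wick R = cm R * Dm (-I) := by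
  ext μ ν
  rw [Dm, diagonal_mul, mul_diagonal]
  fin_cases μ <;> fin_cases ν <;> simp [wick, ← mul_assoc]

theorem Ax.fld (hρ : Rp ρ) (h : Ax N x W (tE ρ) (rE ρ)) :
    Fld ρ N (fun c => x (ρ (Dm (-I)) c)) W where
  st := h.st
  mem _ _ := gen_mem h.gen _
  tau _ _ := h.gen.tau _ _
  refl c f := by
    rw [h.gen.refl, tE, rE, hρ.star, ← hρ.mul, mat_rf, Dm_star, Dm_mul]
    simp
  lin _ := h.lin _
  linc t a b := by simpa only [hρ.lin] using h.linc t _ _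
  q1 := h.q1.imp fun _ e => ⟨e.1, fun _ => e.2 _⟩
  rot R Q hR e k a f hf := by
    have m : mat Q = R := act_ext fun y => (act_mat Q y).trans (e y)
    obtain ⟨Q', q1, q2⟩ := hR.iso
    obtain rfl : Q' = Q := LinearIsometryEquiv.ext fun y => (q2 y).trans (e y).symm
    simpa only [rE, m, ← hρ.mul, Dm_wick] using h.rot Q' q1 k (fun i => ρ (Dm (-I)) (a i)) f hf

theorem Sys0.one {E : C4 → H →L[ℂ] H} {Ω : H} {ψ : Fm V H} {w : Fm V ℂ} (s : Sys0 E Ω ψ w) {c : V}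
    (hc : star c = c) : Wm.Sys0 E Ω (fun n => ψ n fun _ => c) fun n => w n fun _ => c := by
  have e : ∀ n, (Fin.cons c fun _ : Fin n => c) = fun _ => c := fun n =>
    funext fun i => by induction i using Fin.cases <;> rfl
  refine ⟨⟨s.nil _, fun n => s.toVec.hol n _, fun n => s.bd n _, fun n => s.cov n _,
    fun n => s.toVec.whol n _, fun n => s.wtr n _, fun n => s.wval n _, fun m n a ha b hb => ?_,
    fun m n p u a ha b hb h1 h2 => ?_⟩, s.tub, s.unit, s.spec, s.vac⟩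
  · rw [s.inn m n _ _ a ha b hb]
    congr 1
    funext i
    induction i using Fin.addCases <;> simp [gl, hc]
  · simpa only [hc, e] using s.shift m n (fun _ => c) (fun _ => c) c p u a ha b hb h1 h2

variable [FiniteDimensional ℂ V] {W₀ : Pol →ₗ[ℂ] ℂ} {γ κ : ℝ} {c₀ : V}

theorem core_of (hρ : Rp ρ) (h : Ax N x W (tE ρ) (rE ρ)) (r : N.Rep W 0 H) (r1 : Sg r.T)
    (r2 : ConeH r.T) (r3 : ∀ y, (∀ v : R4, 0 ≤ v 0 → r.T v y = y) → ∃ c : ℂ, y = c • r.Ψ 1)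
    (hc : tE ρ 0 c₀ = c₀) (h0 : ∀ k (f : Fin k → R4 → ℝ), Adm f → W (∏ i, x c₀ (f i)) = W₀ (mon f))
    (hγ : γ ≠ 0) (hκ : κ ≠ 0) (h2 : ∀ y : Fin 2 → R4, y 0 ≠ y 1 → free y = κ / ‖y 0 - y 1‖ ^ 8)
    (af : ∀ k (f : Fin k → R4 → ℝ), Adm f →
      Tendsto (fun d : ℝ => (Real.log d⁻¹ : ℂ) ^ k * W₀ (mon fun i y => f i (d⁻¹ • y))) (𝓝[>] 0)
        (𝓝 (γ ^ k * ∫ y : Fin k → R4, (∏ i, f i (y i)) * free y : ℝ))) :
    ∃ (E : C4 → H →L[ℂ] H) (K : Type) (_ : NormedAddCommGroup K)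
      (_ : InnerProductSpace ℂ K) (_ : CompleteSpace K) (E' : C4 → K →L[ℂ] K) (j : K →ₗᵢ[ℂ] H)
      (U : R4 → Mat → K →L[ℂ] K) (Ω : K) (D : Submodule ℂ K) (φ : V × Tf → K → K),
      (Tub E ∧ (∀ v : R4, 0 ≤ v 0 → E (euc v) = r.T v) ∧ Tub E' ∧ j Ω = r.Ψ 1 ∧
        (∀ z ∈ TV 0, ∀ y, j (E' z y) = E z (j y)) ∧ ∀ a, U a 1 = E' (rl a)) ∧
      WA.Poin U Ω ∧ WA.WfieldL (fun L => ρ (cm L)) U Ω D φ ∧
      WA.WrotL (ρ (Dm I)) (fun _ => Adm) (fun _ a f => W (∏ i, x (a i) (f i))) Ω φ := by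
  have hF := h.fld hρ
  have k : ∀ c, ρ (Dm (-I)) (ρ (Dm I) c) = c := fun c => by
    rw [← hρ.mul, Dm_mul, neg_mul, I_mul_I, neg_neg, Dm_one, hρ.one]
  have u : ‖r.Ψ 1‖ = 1 := by
    have := r.inn (N.one _) (N.one _)
    rw [map_one (N.Θ 0), one_mul, h.st.one] at this
    rw [norm_eq_sqrt_re_inner (𝕜 := ℂ), this]
    simp
  obtain ⟨E, e1, e2, e3, e4, e5⟩ := sA_of sA1_of sA2_of sA3_of sA4_of H r.T r1 r2
  obtain ⟨M, K, m1, m2⟩ := smear hF e1 e2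
  obtain ⟨A, a1, a2⟩ := sC_of e1 m1
  obtain ⟨ψ, w, v1, v2⟩ := sD_of E A (r.Ψ 1) e1 a1
    (e5 _ fun v hv => by rw [r.act hv (N.one _), map_one])
  have l1 := link hF (slab hF e2 m1.one m2 a1 a2) v1 v2
  have l2 := sF1_of ρ w v1.whol (e1_of hF v1.whol l1)
  obtain ⟨K, _, _, _, E', Ω, ψ', j, j1, j2, s⟩ :=
    sR_of E _ ψ w ⟨v1, e1, u, e3, fun y hy => r3 y (e4 y hy)⟩
  obtain ⟨Φ, p1, p2, p3, p4⟩ := sPhi_of E' Ω ψ' w s.toVec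
  obtain ⟨U, g⟩ := sG1_of ρ E' Ω ψ' w Φ hρ s (sF2_of ρ w hρ v1.wjnt l2) p1
  have c : star (ρ (Dm I) c₀) = ρ (Dm I) c₀ := by
    conv_rhs => rw [← hc, tE, rE, ← hρ.mul, mat_rf, Dm_mul]
    rw [hρ.star, Dm_star]
    simp
  obtain ⟨D, φ, g1, g2, g3⟩ := sG2_of ρ E' Ω ψ' w Φ U s g p2 (sHerm_of E' Ω ψ' w Φ s p1)
    (sCyc_of E' Ω ψ' w Φ s p1) p3 (sL2_of Φ (sL1_of ρ E' Ω ψ' w Φ hρ s l2 p1)) (by
      simpa only [g.tr] using nontriv (s.1.one c) (fun n f f1 f2 => by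
        simpa only [k, h0 n f f1] using l1 n (fun _ => ρ (Dm I) c₀) f f1 f2) hγ hκ h2 af)
  refine ⟨E, K, _, _, ‹_›, E', j, U, Ω, D, φ, ⟨e1, e2, s.tub, j1, j2, g.tr⟩, g1, g2, fun n a =>
    ⟨w n fun i => ρ (Dm I) (a i), tube_eq n ▸ v1.whol n _, fun f f1 f2 => ?_, fun f G hG => ?_⟩⟩
  · have := l1 n (fun i => ρ (Dm I) (a i)) f f1 f2
    simp only [k] at this
    exact this
  · rw [g3]
    exact p4 n _ f G hG

/-- the reconstruction on the Hilbert space of the scalar field -/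
theorem wightman_of (hρ : Rp ρ) (h : Ax N x W (tE ρ) (rE ρ)) (hS : net.St W₀) (hr : Rot W₀)
    (r₀ : net.Rep W₀ 0 H) (r1 : Sg r₀.T)
    (r3 : ∀ y, (∀ v : R4, 0 ≤ v 0 → r₀.T v y = y) → ∃ c : ℂ, y = c • r₀.Ψ 1)
    (r : N.Rep W 0 H) (hT : r.T = r₀.T) (hΩ : r.Ψ 1 = r₀.Ψ 1)
    (hc : tE ρ 0 c₀ = c₀) (h0 : ∀ k (f : Fin k → R4 → ℝ), Adm f → W (∏ i, x c₀ (f i)) = W₀ (mon f))
    (hγ : γ ≠ 0) (hκ : κ ≠ 0) (h2 : ∀ y : Fin 2 → R4, y 0 ≠ y 1 → free y = κ / ‖y 0 - y 1‖ ^ 8)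
    (af : ∀ k (f : Fin k → R4 → ℝ), Adm f →
      Tendsto (fun d : ℝ => (Real.log d⁻¹ : ℂ) ^ k * W₀ (mon fun i y => f i (d⁻¹ • y))) (𝓝[>] 0)
        (𝓝 (γ ^ k * ∫ y : Fin k → R4, (∏ i, f i (y i)) * free y : ℝ))) :
    WA.WightmanL (fun L => ρ (L.map (↑))) (ρ (diagonal ![I, 1, 1, 1])) (fun _ => Adm)
      fun _ a f => W (∏ i, x (a i) (f i)) :=
  let ⟨_, K, _, _, i, _, _, U, Ω, D, φ, _, e⟩ := core_of hρ h r (hT ▸ r1)
    (hT ▸ sB0_of H W₀ r₀ hS hr r1) (hT ▸ hΩ ▸ r3) hc h0 hγ hκ h2 af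
  ⟨K, _, _, i, U, Ω, D, φ, e⟩

end Pool.Agent.Lib.MP_7f377f_mp.Wv
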