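import Pool.Agent.Lib.MP_7f377f_mp.G.WvNet
import Pool.Agent.Lib.MP_7f377f_mp.G.WvC

/-! Labels: the smeared fields as bounded operators, fields smeared in a slab. -/

noncomputable section

namespace Pool.Agent.Lib.MP_7f377f_mp.Wv
variable [Pool.Agent.Lib.MP_7f377f_mp.GD]
set_option linter.unusedSectionVars false

open MeasureTheory Filter Topology Set Complex YM7 Pur Lg Wm Metric Wm.B1 Wm.B2
open scoped NNReal

variable {V : Type} [NormedAddCommGroup V] [NormedSpace ℂ V] [InvolutiveStar V]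
  {P : Type} [CommRing P] [Algebra ℂ P] {H : Type} [NormedAddCommGroup H] [InnerProductSpace ℂ H]

/-- Euclidean fields with Minkowski labels -/
structure Fld (ρ : CM → V → V) (N : Net P) (x : V → (R4 → ℝ) → P) (W : P →ₗ[ℂ] ℂ) : Prop where
  st : N.St W
  mem : ∀ {k O} (a : Fin k → V) {f}, Adm f → (∀ i, tsupport (f i) ⊆ O) →
    ∏ i, x (a i) (f i) ∈ N.loc O
  tau : ∀ v c f, N.τ v (x c f) = x c fun y => f (y - v)
  refl : ∀ c f, N.Θ 0 (x c f) = x (star c) fun y => f (rf 0 y)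
  lin : LinF N x W
  linc : LinC N x W
  q1 : Q1L N x W
  rot : ∀ R (Q : Ro.Iso), SO R → (∀ y, Q y = act R y) → ∀ (k : ℕ) (a : Fin k → V)
    (f : Fin k → R4 → ℝ), Adm f →
      W (∏ i, x (a i) fun y => f i (Q y)) = W (∏ i, x (ρ (wick R) (a i)) (f i))

variable {ρ : CM → V → V} {N : Net P} {x : V → (R4 → ℝ) → P} {W : P →ₗ[ℂ] ℂ}

/-- the action of the smeared fields -/
def Act (r : N.Rep W 0 H) (x : V → (R4 → ℝ) → P) (M : V → ℝ → (R4 → ℝ) → H →L[ℂ] H) (K : ℝ) :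
    Prop := ∀ c, ∀ d ∈ Ioc (0 : ℝ) 1, ∀ g, C1 (Bx d) g → ∀ Z ∈ N.loc (Hs 0 0),
  M c d g (r.Ψ Z) = r.Ψ (N.τ ((K * d) • e0) (x c g) * N.τ ((2 * K * d) • e0) Z)

/-- fields smeared in a slab -/
def Slab (r : N.Rep W 0 H) (x : V → (R4 → ℝ) → P) (A : V → C4 → C4 → H →L[ℂ] H) : Prop :=
  ∀ c (b : ℝ) (g : R4 → ℝ), 0 < b → C1 {y | 0 < y 0 ∧ y 0 < b} g → ∀ Z ∈ N.loc (Hs 0 0),
    r.Ψ (x c g * N.τ (b • e0) Z) = ∫ y, (g y : ℂ) • A c (euc y) (euc (b • e0 - y)) (r.Ψ Z)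

theorem Fld.one (h : Fld ρ N x W) (c : V) {O g} (hg : C1 O g) : x c g ∈ N.loc O := by
  have := h.mem (fun _ : Fin 1 => c) (f := fun _ => g) (O := O)
    ⟨fun _ => ⟨hg.1, hg.2.1⟩, Subsingleton.pairwise⟩ fun _ => hg.2.2
  rwa [Fin.prod_univ_one] at this

theorem c1_univ {O g} (h : C1 O g) : C1 univ g := ⟨h.1, h.2.1, subset_univ _⟩

variable [CompleteSpace H] {r : N.Rep W 0 H} {E : C4 → H →L[ℂ] H}

theorem smear (h : Fld ρ N x W) (hE : Tub E) (hT : ∀ v : R4, 0 ≤ v 0 → E (euc v) = r.T v) :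
    ∃ M K, Smear E M K ∧ Act r x M K := by
  obtain ⟨K, K1, hQ⟩ := h.q1
  have hS := h.st
  have q : ∀ c, ∀ d ∈ Ioc (0 : ℝ) 1, ∀ g, C1 (Bx d) g → ∃ C, N.QB W (x c g) (K * d) C :=
    fun c d hd g hg => let ⟨_, _, _, b⟩ := hQ c
      (hg.2.1.lipschitzWith_of_hasCompactSupport hg.1 one_ne_zero).elim
        fun L e => ⟨_, b d hd g L hg e⟩
  have act : ∀ c, ∀ d ∈ Ioc (0 : ℝ) 1, ∀ g, C1 (Bx d) g → ∀ Z : N.loc (Hs 0 0),
      Op r (K * d) (x c g) (r.Ψ Z) = F r (K * d) (x c g) Z := fun c d hd g hg Z =>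
    (q c d hd g hg).elim fun _ e => Op_eq r hS (rs r hE hT _) e Z
  have bx : ∀ c, ∀ d ∈ Ioc (0 : ℝ) 1, ∀ g, C1 (Bx d) g →
      x c g ∈ N.loc (Bx (K * d)) ∧ 0 ≤ K * d :=
    fun c d hd g hg => (q c d hd g hg).elim fun _ e => ⟨e.1, e.2.1⟩
  refine ⟨fun c d g => Op r (K * d) (x c g), K, ⟨K1, fun c d hd g g' t hg hg' => ?_,
    fun t c c' d hd g hg => ?_, fun c => (hQ c).imp fun C => .imp fun s b =>
      ⟨b.1, fun d hd g L hg e => Op_le r hS (rs r hE hT _) (b.2 d hd g L hg e)⟩,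
    fun c d hd d' hd' g u a b a' b' hg hg' ha hb ha' hb' e e' => ?_, fun c d hd g hg u v => ?_⟩,
    fun c d hd g hg Z hZ => ?_⟩
  · have h2 : C1 (Bx d) (g + t • g') := PN.Gd.comb hg hg' t
    refine ext r fun Z => r.dense.eq_of_inner_right ℂ fun Y => ?_
    have R0 := (bx c d hd g hg).2
    rw [add_apply, smul_apply, act c d hd _ h2,
      act c d hd _ hg, act c d hd _ hg', inner_add_right, inner_smul_right,
      inn_F r hS R0 (bx c d hd _ h2).1, inn_F r hS R0 (bx c d hd _ hg).1,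
      inn_F r hS R0 (bx c d hd _ hg').1]
    exact h.lin c g g' t (c1_univ hg) (c1_univ hg') _ (N.mono (mem2 R0 Y.2 Z.2)
      (compl_subset_compl.2 ((union_subset hg.2.2 hg'.2.2).trans
        (Bx.mono (le_mul_of_one_le_left hd.1.le K1)))))
  · refine ext r fun Z => r.dense.eq_of_inner_right ℂ fun Y => ?_
    have R0 := (bx c d hd g hg).2
    rw [add_apply, smul_apply, act _ d hd _ hg,
      act _ d hd _ hg, act _ d hd _ hg, inner_add_right, inner_smul_right,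
      inn_F r hS R0 (bx _ d hd _ hg).1, inn_F r hS R0 (bx _ d hd _ hg).1,
      inn_F r hS R0 (bx _ d hd _ hg).1]
    exact h.linc t c c' g (c1_univ hg) _ (N.mono (mem2 R0 Y.2 Z.2)
      (compl_subset_compl.2 (hg.2.2.trans (Bx.mono (le_mul_of_one_le_left hd.1.le K1)))))
  · refine ext r fun Z => ?_
    have m := Net.τ_hs (v := b) (t' := 0) Z.2 (by linarith)
    have m' := Net.τ_hs (v := b') (t' := 0) Z.2 (by linarith)
    change E _ (Op _ _ _ (E _ _)) = E _ (Op _ _ _ (E _ _))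
    rw [hT _ ha, hT _ hb, hT _ ha', hT _ hb', r.act hb Z.2, r.act hb' Z.2, act c d hd g hg ⟨_, m⟩,
      act c d' hd' _ hg' ⟨_, m'⟩]
    refine (r.act ha (mem (bx c d hd g hg).2 (bx c d hd g hg).1 m)).trans
      (.trans ?_ (r.act ha' (mem (bx c d' hd' _ hg').2 (bx c d' hd' _ hg').1 m')).symm)
    rw [← h.tau]
    simp only [map_mul, N.τ_τ]
    rw [e, add_assoc a', show a + ((2 * (K * d)) • e0 + b) = a' + ((2 * (K * d')) • e0 + b') by
      linear_combination (norm := module) e + e']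
  · have h2 : C1 (Bx d) fun u => g (rf 0 u) := by
      have := adm_rf (f := fun _ : Fin 1 => g) ⟨fun _ => ⟨hg.1, hg.2.1⟩, fun i j e =>
        absurd (Subsingleton.elim i j) e⟩ 0
      exact ⟨(this.1 0).1, (this.1 0).2, fun y hy l => (abs_rf 0 l y).symm.trans_lt
        (hg.2.2 (tsupport_comp (rfL_eq 0 ▸ (rfL 0).continuous) hy) l)⟩
    refine r.dense.induction_on₂ (p := fun u v => inner ℂ (Op r (K * d) (x c g) u) v =
      inner ℂ u (Op r (K * d) (x (star c) fun u => g (rf 0 u)) v))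
      (isClosed_eq (by fun_prop) (by fun_prop)) (fun Y Z => ?_) u v
    rw [act c d hd g hg, act _ d hd _ h2, adj_F r hS (bx c d hd g hg).2 (bx c d hd g hg).1, h.refl]
  · rw [mul_assoc]
    exact act c d hd g hg ⟨Z, hZ⟩

theorem Pt.cont {A : V → C4 → C4 → H →L[ℂ] H} (hA : Pt E A) (c : V) {O : Set R4} {z w : R4 → C4}
    (hz : Continuous z) (hw : Continuous w) (h : ∀ y ∈ O, z y ∈ TO ∧ w y ∈ TO) (x : H) :
    ContinuousOn (fun y => A c (z y) (w y) x) O :=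
  (hA.hol.continuousOn.comp (continuous_const.prodMk (hz.prodMk hw)).continuousOn
    fun y hy => ⟨trivial, h y hy⟩).clm_apply continuousOn_const

theorem slab (hF : Fld ρ N x W) (hT : ∀ v : R4, 0 ≤ v 0 → E (euc v) = r.T v) {M K A} (K1 : 1 ≤ K)
    (hM : Act r x M K) (hA : Pt E A) (hD : ∀ c, Den E (M c) K (A c)) : Slab r x A := by
  intro γ b g b0 hg Z hZ
  set O : Set R4 := {y | 0 < y 0 ∧ y 0 < b}
  have oO : IsOpen O := isOpen_Ioo.preimage (f := fun y : R4 => y 0) (by fun_prop)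
  have z1 : N.τ (b • e0) Z ∈ N.loc (Hs 0 b) := Net.τ_hs hZ (by simp)
  have m : ∀ {g}, C1 O g → x γ g * N.τ (b • e0) Z ∈ N.loc (Hs 0 0) := fun hg =>
    N.mono (N.mul (hF.one γ hg) z1 (disjoint_left.2 fun y e e' => e.2.not_gt e'))
      (union_subset (fun _ e => e.1) fun _ e => b0.trans e)
  have add : ∀ {g g'}, C1 O g → C1 O g' → r.Ψ (x γ (g + g') * N.τ (b • e0) Z) =
      r.Ψ (x γ g * N.τ (b • e0) Z) + r.Ψ (x γ g' * N.τ (b • e0) Z) := fun {g g'} h h' => by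
    refine r.dense.eq_of_inner_right ℂ fun Y => ?_
    have e := hF.lin γ g g' 1 (c1_univ h) (c1_univ h') _ (N.mono (N.mul (N.Θ_mem 0 Y.2) z1
      (disjoint_left.2 fun y e e' => ?_)) (union_subset (fun y e c => ?_) fun y e c => ?_))
    · have h'' : C1 O _ := PN.Gd.comb h h' 1
      rw [one_smul] at e h''
      rw [inner_add_right, r.inn Y.2 (m h''), r.inn Y.2 (m h), r.inn Y.2 (m h'), mul_left_comm, e,
        mul_left_comm _ (x γ g), mul_left_comm _ (x γ g'), ofReal_one, one_mul]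
    · simp only [Hs, mem_ofPred_eq, rf_self] at e e'
      linarith
    · simp only [Hs, mem_ofPred_eq, rf_self] at e
      linarith [(union_subset h.2.2 h'.2.2 c).1]
    · exact (union_subset h.2.2 h'.2.2 c).2.not_gt e
  have c := hA.cont γ (O := O) (z := euc) (w := fun y => euc (b • e0 - y)) (by fun_prop)
    (by fun_prop)
    (fun y hy => ⟨TV.to hy.1 (euc_mem y), TV.to (by simpa using hy.2) (euc_mem _)⟩) (r.Ψ Z)
  refine pu (P := fun g => r.Ψ (x γ g * N.τ (b • e0) Z) =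
    ∫ y, (g y : ℂ) • A γ (euc y) (euc (b • e0 - y)) (r.Ψ Z)) ?_ (fun g g' h h' e e' => ?_)
    (fun p hx => ?_) hg
  · have := add (PN.Gd.zero O) (PN.Gd.zero O)
    rw [add_zero, left_eq_add] at this
    simpa using this
  · rw [add h h', e, e', ← integral_add (integ oO h c) (integ oO h' c)]
    simp [add_smul]
  obtain ⟨d, d0, d1, d2, d3⟩ : ∃ d : ℝ, 0 < d ∧ d ≤ 1 ∧ (K + 1) * d ≤ p 0 ∧
      (K + 1) * d ≤ b - p 0 := by
    have k : 0 < K + 1 := by linarith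
    refine ⟨min 1 (min (p 0) (b - p 0) / (K + 1)), lt_min one_pos
      (div_pos (lt_min hx.1 (sub_pos.2 hx.2)) k), min_le_left _ _, le_min_iff.1 ?_⟩
    exact (le_div_iff₀' k).1 (min_le_right _ _)
  refine ⟨d / 32, by positivity, fun g hg => ?_⟩
  have h1 : C1 (Bx (d / 32)) fun y => g (y + p) :=
    ⟨hg.1.comp_homeomorph (Homeomorph.addRight p), hg.2.1.comp (by fun_prop), fun y hy l =>
      (PiLp.norm_apply_le y l).trans_lt (by
        simpa using (hg.2.2 (tsupport_comp (θ := fun y => y + p) (by fun_prop) hy)).2)⟩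
  have h2 : C1 (Bx d) fun y => g (y + p) := ⟨h1.1, h1.2.1, h1.2.2.trans (Bx.mono (by linarith))⟩
  have kd : d ≤ K * d := le_mul_of_one_le_left d0.le K1
  obtain ⟨s, hp⟩ : ∃ s, s = b • e0 - p - ((K + 1) * d) • e0 := ⟨_, rfl⟩
  obtain ⟨q, hq⟩ : ∃ q, q = p - ((K + 1) * d) • e0 := ⟨_, rfl⟩
  have p0 : 0 ≤ s 0 := by simpa [hp]
  have q0 : 0 ≤ q 0 := by simpa [hq]
  have i0 : 0 ≤ (d • e0) 0 := by simpa using d0.le
  have z2 : N.τ (d • e0) (N.τ s Z) ∈ N.loc (Hs 0 0) :=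
    Net.τ_hs (Net.τ_hs hZ (by simpa)) (by simpa using d0.le)
  have z3 : N.τ ((K * d) • e0) (x γ fun y => g (y + p)) * N.τ ((2 * K * d) • e0)
      (N.τ (d • e0) (N.τ s Z)) ∈ N.loc (Hs 0 0) := by
    refine N.mono (N.mul (N.τ_mem _ (hF.one γ h2)) (Net.τ_hs (t' := 2 * K * d) z2 (by simp))
      (disjoint_left.2 fun y e e' => ?_)) (union_subset (fun y e => ?_) fun y e => ?_)
    · have := (abs_lt.1 (e 0)).2
      simp only [Hs, mem_ofPred_eq, PiLp.sub_apply, PiLp.smul_apply, e0_zero, smul_eq_mul] at this e'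
      linarith
    · have := (abs_lt.1 (e 0)).1
      simp only [Hs, mem_ofPred_eq, PiLp.sub_apply, PiLp.smul_apply, e0_zero, smul_eq_mul] at this ⊢
      linarith
    · exact lt_of_le_of_lt (show (0 : ℝ) ≤ 2 * K * d by linarith) e
  have t : ∀ y ∈ Bx (d / 32), ie ((K + 1) * d) + euc y ∈ TO ∧ ie ((K + 1) * d) - euc y ∈ TO :=
    fun y hy => by
      have := abs_lt.1 (hy 0)
      rw [ie, ← euc_add, ← euc_sub]
      exact ⟨TV.to (by simp; linarith) (euc_mem _), TV.to (by simp; linarith) (euc_mem _)⟩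
  have e := congrArg (E (euc q)) (hD γ d ⟨d0, d1⟩ _ h1 (E (euc s) (r.Ψ Z)))
  rw [← (E (euc q)).integral_comp_comm (integ (isOpen_Bx _) h1
      (hA.cont γ (by fun_prop) (by fun_prop) t _)), ie, hT s p0, hT _ i0, r.act p0 hZ,
    r.act i0 (Net.τ_hs hZ (by simpa)), hM γ d ⟨d0, d1⟩ _ h2 _ z2, r.act i0 z3, hT q q0,
    r.act q0 (Net.τ_hs z3 (by simpa using d0.le)), map_mul, map_mul] at e
  simp only [N.τ_τ] at e
  rw [show q + (d • e0 + (K * d) • e0) = p by rw [hq]; module,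
    show q + (d • e0 + ((2 * K * d) • e0 + (d • e0 + s))) = b • e0 by rw [hq, hp]; module,
    hF.tau] at e
  simp only [sub_add_cancel] at e
  rw [e, eq_comm, ← integral_add_right_eq_self _ p]
  refine integral_congr_ae (.of_forall fun y => ?_)
  by_cases g0 : g (y + p) = 0
  · simp [g0]
  obtain ⟨t1, t2⟩ := t y (h1.2.2 (subset_tsupport _ g0))
  have u1 := TV.mono p0 (euc_mem s)
  simp only [map_smul, ← hT q q0, ← r.act p0 hZ, ← hT s p0, ← mul_apply_eq_comp,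
    (hA.cov γ _ t1 _ t2 _ u1).2, (hA.cov γ _ t1 _ (TO.add t2 u1) _ (TV.mono q0 (euc_mem q))).1]
  simp only [ie, ← euc_add, ← euc_sub]
  congr 4
  · rw [hq]; module
  · rw [hp]; module

end Pool.Agent.Lib.MP_7f377f_mp.Wv
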