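import Pool.Agent.Lib.MP_7f377f_mp.G.WvB
import Pool.Agent.Lib.MP_7f377f_mp.G.WmB3
import Pool.Agent.Lib.MP_7f377f_mp.G.WmB4

/-! Labels: the Schwinger functions at time ordered points, Euclidean covariance at points. -/

noncomputable section

namespace Pool.Agent.Lib.MP_7f377f_mp.Wv
variable [Pool.Agent.Lib.MP_7f377f_mp.GD]
set_option linter.unusedSectionVars false

open MeasureTheory Filter Topology Set Complex YM7 Pur Lg Wm Metric Wm.B3 Wm.B4

variable {V : Type} [NormedAddCommGroup V] [NormedSpace ℂ V] [InvolutiveStar V]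
  {P : Type} [CommRing P] [Algebra ℂ P] {H : Type} [NormedAddCommGroup H] [InnerProductSpace ℂ H]
  [CompleteSpace H] {ρ : CM → V → V} {N : Net P} {x : V → (R4 → ℝ) → P} {W : P →ₗ[ℂ] ℂ}
  {r : N.Rep W 0 H} {E : C4 → H →L[ℂ] H} {A : V → C4 → C4 → H →L[ℂ] H} {ψ : Fm V H} {w : Fm V ℂ}
  {n : ℕ}

/-- the Schwinger functions at time ordered points -/
def Link (x : V → (R4 → ℝ) → P) (W : P →ₗ[ℂ] ℂ) (w : Fm V ℂ) : Prop :=
  ∀ n a (f : Fin n → R4 → ℝ), Adm f → Ord f → W (∏ i, x (a i) (f i)) =
    ∫ y : Fin n → R4, (∏ i, (f i (y i) : ℂ)) * w n a fun i => euc (y i)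

theorem intg_ψ {χ : (Fin n → C4) → H} (hv : DifferentiableOn ℂ χ (FT n)) {f : Fin n → R4 → ℝ}
    (hf : Adm f) (ho : Ord f) (hp : ∀ i, tsupport (f i) ⊆ Hs 0 0) :
    Integrable fun y : Fin n → R4 => (∏ i, (f i (y i) : ℂ)) • χ fun i => euc (y i) :=
  intg hf (hv.continuousOn.comp (f := fun (y : Fin n → R4) i => euc (y i)) (by fun_prop)
    fun _ => mem_ft ho hp)

theorem vec (hF : Fld ρ N x W) (hs : Slab r x A) (hv : Vec E (r.Ψ 1) ψ w) (hr : Rec A ψ) :
    ∀ n a (f : Fin n → R4 → ℝ), Adm f → Ord f → (∀ i, tsupport (f i) ⊆ Hs 0 0) →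
      r.Ψ (∏ i, x (a i) (f i)) =
        ∫ y : Fin n → R4, (∏ i, (f i (y i) : ℂ)) • ψ n a fun i => euc (y i) := by
  intro n
  induction n with
  | zero => intro a f _ _ _; simp [hv.nil, Measure.real, volume_pi]
  | succ n ih =>
    intro α f hf ho hp
    obtain ⟨b, b0, h1, h2⟩ := cut hf ho hp
    have a : Adm fun i : Fin n => f i.succ :=
      ⟨fun i => hf.1 _, fun _ _ e => hf.2 ((Fin.succ_injective _).ne e)⟩
    have o : Ord fun (i : Fin n) y => f i.succ (y - -(b • e0)) :=
      Ord.sub (f := fun i : Fin n => f i.succ) (fun i j e => ho _ _ (Fin.succ_lt_succ_iff.2 e)) _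
    have p : ∀ i : Fin n, tsupport (fun y => f i.succ (y - -(b • e0))) ⊆ Hs 0 0 := fun i y hy => by
      simpa [Hs] using h2 i _ (tsupport_comp (θ := fun y => y - -(b • e0)) (by fun_prop) hy)
    have e := hs (α 0) b (f 0) b0 ⟨(hf.1 0).1, (hf.1 0).2, fun y hy => ⟨hp 0 hy, h1 y hy⟩⟩ _
      (hF.mem (fun i : Fin n => α i.succ) (adm_sub a _) p)
    rw [map_prod, ih _ _ (adm_sub a _) o p] at e
    simp only [hF.tau, sub_neg_eq_add, sub_add_cancel] at e
    rw [Fin.prod_univ_succ, B3.int_cons (intg_ψ (hv.hol _ _) hf ho hp)]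
    refine e.trans (integral_congr_ae (.of_forall fun y => ?_))
    simp only [Fin.prod_univ_succ, Fin.cons_zero, Fin.cons_succ, mul_smul, integral_smul]
    by_cases hy : y ∈ tsupport (f 0)
    swap
    · simp [image_eq_zero_of_notMem_tsupport hy]
    have I := intg_ψ (hv.hol _ fun i : Fin n => α i.succ) (adm_sub a _) o p
    simp only [sub_neg_eq_add] at I
    rw [← ContinuousLinearMap.integral_comp_comm _ I]
    congr 1
    refine .trans (integral_congr_ae (.of_forall fun x => ?_))
      (integral_add_right_eq_self (μ := volume) _ fun _ : Fin n => b • e0)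
    by_cases hx : x ∈ univ.pi fun i : Fin n => tsupport fun y => f i.succ (y - -(b • e0))
    swap
    · have := prod_zero hx
      simp only [sub_neg_eq_add] at this
      simp only [Pi.add_apply, this, zero_smul, map_zero]
    simp only [Pi.add_apply, map_smul]
    rw [← hr n _ _ _ (euc_to (hp 0 hy)) _ (euc_to (y := b • e0 - y) (by simpa using h1 y hy)) _
      (mem_ft o p hx)]
    congr 2
    · exact Fin.cons_self_tail α
    funext i
    induction i using Fin.cases with
    | zero => rfl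
    | succ i => simp only [Fin.cons_succ, ← euc_add, add_sub_cancel, Pi.add_apply]

theorem link (hF : Fld ρ N x W) (hs : Slab r x A) (hv : Vec E (r.Ψ 1) ψ w) (hr : Rec A ψ) :
    Link x W w := by
  intro n α f hf ho
  obtain ⟨R, hR⟩ := (isCompact_iUnion fun i => (hf.1 i).1.isCompact).isBounded.exists_norm_le
  have p : ∀ i, tsupport (fun y => f i (y - (R + 1) • e0)) ⊆ Hs 0 0 := fun i y hy => by
    have := (abs_le.1 ((PiLp.norm_apply_le _ 0).trans (hR _ (mem_iUnion.2 ⟨i, tsupport_comp
      (θ := fun y => y - (R + 1) • e0) (by fun_prop) hy⟩)))).1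
    simp only [PiLp.sub_apply, PiLp.smul_apply, e0_zero, smul_eq_mul, mul_one] at this
    change 0 < y 0
    linarith
  have a := adm_sub hf ((R + 1) • e0)
  have o := B3.Ord.sub ho ((R + 1) • e0)
  have e := r.inn (N.one _) (hF.mem α a p)
  rw [map_one (N.Θ 0), one_mul, vec hF hs hv hr n _ _ a o p,
    ← integral_inner (intg_ψ (hv.hol _ _) a o p)] at e
  simp only [← hF.tau] at e
  rw [← map_prod, hF.st.ti _ (hF.mem α hf fun _ => subset_univ _),
    ← integral_add_right_eq_self (μ := volume) (g := fun _ : Fin n => (R + 1) • e0)] at e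
  refine e.symm.trans (integral_congr_ae (.of_forall fun y => ?_))
  by_cases hy : (y + fun _ => (R + 1) • e0) ∈ univ.pi fun i => tsupport fun y => f i (y - (R + 1) • e0)
  · simp only [inner_smul_right, ← hv.wval n _ _ (mem_ft o p hy)]
    simp only [Pi.add_apply, add_sub_cancel_right, euc_add, hv.wtr]
  · have := prod_zero hy
    simp only [Pi.add_apply, add_sub_cancel_right] at this
    simp only [Pi.add_apply, add_sub_cancel_right, this, zero_smul, zero_mul, inner_zero_right]

theorem e1_of (hF : Fld ρ N x W) (hw : ∀ n a, DifferentiableOn ℂ (w n a) (Tube n))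
    (hL : Link x W w) : E1 ρ w := by
  intro n α R σ y hS h1 h2
  obtain ⟨Q, -, q2⟩ := hS.iso
  have c : Continuous fun u : R4 => act R u 0 := by
    simp only [← q2]
    fun_prop
  obtain ⟨r, ⟨s1, s2⟩, r0⟩ := (((sep (φ := fun u => u 0) (z := fun i => y (σ i)) (by fun_prop) h1).and
    (sep c h2)).and self_mem_nhdsWithin).exists
  have bl : ∀ x ∈ ball y r, ∀ i, x i ∈ ball (y i) r := fun x hx i =>
    (dist_le_pi_dist x y i).trans_lt hx
  refine pt_eq (G := fun x => w n (fun i => α (σ i)) fun i => euc (x (σ i)))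
    (G' := fun x => w n (fun i => ρ (wick R) (α i)) fun i => euc (act R (x i))) r0
    ((hw n _).continuousOn.comp (by fun_prop) fun x hx =>
      tube fun i j e => s1 i j e _ (bl x hx _) _ (bl x hx _))
    ((hw n _).continuousOn.comp (by simp only [← q2]; fun_prop) fun x hx =>
      tube fun i j e => s2 i j e _ (bl x hx _) _ (bl x hx _)) fun f hf => ?_
  have o1 : Ord fun i => f (σ i) := fun i j e a ha b hb =>
    s1 i j e a ((hf _).2.2 ha) b ((hf _).2.2 hb)
  have o2 : Ord fun i u => f i (Q.symm u) := fun i j e a ha b hb => by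
    simpa [← q2] using s2 i j e _ ((hf _).2.2 (tsupport_comp_subset_preimage _ Q.symm.continuous ha))
      _ ((hf _).2.2 (tsupport_comp_subset_preimage _ Q.symm.continuous hb))
  have a1 : Adm fun i => f (σ i) :=
    adm (fun i => ⟨(hf (σ i)).1, (hf _).2.1.of_le (by norm_cast)⟩) o1
  have a2 : Adm fun i u => f i (Q.symm u) :=
    adm (fun i => ⟨(hf i).1.comp_homeomorph Q.symm.toHomeomorph,
      ((hf _).2.1.of_le (by norm_cast)).comp Q.symm.contDiff⟩) o2
  have e1 := Equiv.prod_comp σ fun i => x (α i) (f i)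
  have e2 := hF.rot R Q hS q2 n α _ a2
  simp only [LinearIsometryEquiv.symm_apply_apply] at e2
  have l1 := (hL n (fun i => α (σ i)) _ a1 o1).trans (int_perm σ _).symm
  have l2 := (hL n (fun i => ρ (wick R) (α i)) _ a2 o2).trans (int_act hS.2 0 _).symm
  have := (l1.symm.trans (congrArg W e1)).trans (e2.trans l2)
  simp only [zero_add, ← q2, LinearIsometryEquiv.symm_apply_apply] at this
  simp only [← q2, smul_eq_mul]
  rw [← this]
  refine integral_congr_ae (.of_forall fun x => ?_)
  simp only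
  rw [Equiv.prod_comp σ fun i => (f i (x i) : ℂ)]

end Pool.Agent.Lib.MP_7f377f_mp.Wv
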