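import Pool.Agent.Lib.MP_7f377f_mp.G.WvLab
import Pool.Agent.Lib.MP_7f377f_mp.G.LmF

/-! Labels: the multiplet of fields of dimension four from approximants. -/

noncomputable section

namespace Pool.Agent.Lib.MP_7f377f_mp.Wv
variable [Pool.Agent.Lib.MP_7f377f_mp.GD]
set_option linter.unusedSectionVars false

open MeasureTheory Filter Topology Set Complex YM7 Pur Lg Wm Lm Matrix MvPolynomial Lb
open scoped Matrix.Norms.Elementwise Kronecker

variable {ι H : Type} [NormedAddCommGroup H] [InnerProductSpace ℂ H] [CompleteSpace H]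
  {W : Pol →ₗ[ℂ] ℂ} {K : ℝ} {l : Filter ι}

/-- the Wightman axioms for the multiplet of fields of dimension four -/
theorem lab_four2 [l.NeBot] {O : ι → Lab ℂ → (R4 → ℝ) → Pol} {γ κ : ℝ}
    (h : Inl W K (fun μ c => rho ((Lb.mx (rfL μ)).map (↑)) cᴴ) (fun R => rho ((Lb.mx R).map (↑))) l O)
    (h0 : Bas W K l fun j => O j c0) (hL : LinP W) (hS : net.St W) (hr : Rot W) (hq : Quantum H W)
    (hγ : γ ≠ 0) (hκ : κ ≠ 0) (h2 : ∀ y : Fin 2 → R4, y 0 ≠ y 1 → free y = κ / ‖y 0 - y 1‖ ^ 8)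
    (af : ∀ k (f : Fin k → R4 → ℝ), Adm f →
      Tendsto (fun d : ℝ => (Real.log d⁻¹ : ℂ) ^ k * W (mon fun i y => f i (d⁻¹ • y))) (𝓝[>] 0)
        (𝓝 (γ ^ k * ∫ y : Fin k → R4, (∏ i, f i (y i)) * free y : ℝ))) :
    ∃ (r : net.Rep W 0 H) (W' : Lm.PolL (Lab ℂ) →ₗ[ℂ] ℂ) (r' : (Lm.netL (inv4 rp_rho)).Rep W' 0 H),
      Outl W r K (rE rho) l (Lm.netL (inv4 rp_rho)) (fun c f => X (c, f)) (fun j => Lm.sub (O j))
        W' r' ∧
      (∀ Z ∈ net.loc univ, W' (emb c0 Z) = W Z) ∧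
      (∀ U U', Disjoint U U' → ∀ Y ∈ (Lm.netL (inv4 rp_rho)).loc U, ∀ Z ∈ net.loc U',
        Tendsto (fun j => W (Lm.sub (O j) Y * Z)) l (𝓝 (W' (Y * emb c0 Z)))) ∧
      (∀ k (a : Fin k → Lab ℂ) (f : Fin k → R4 → ℝ), Adm f →
        Tendsto (fun j => W (∏ i, O j (a i) (f i))) l (𝓝 (W' (∏ i, X (a i, f i))))) ∧
      WA.WightmanL (fun L => rho (L.map (↑))) (rho (diagonal ![I, 1, 1, 1])) (fun _ => Adm)
        fun _ a f => W' (∏ i, X (a i, f i)) := by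
  obtain ⟨r, r1, -, -, r4⟩ := rep_of hS hq
  obtain ⟨E, e1, e2, -⟩ := sA_of sA1_of sA2_of sA3_of sA4_of H r.T r1 (sB0_of H W r hS hr r1)
  obtain ⟨W', r', o, o1, o2, o3⟩ := exists_lab2 (θ := tE rho) (ρ := rE rho) h (inv4 rp_rho) hS hr hL
    (rE_one rp_rho) (fun R Q c _ _ => rE_mul rp_rho R Q c) (fun R _ => rE_c0 R) (tE_c0 0) h0 r e1 e2
  refine ⟨r, W', r', o, o1, o3, fun k a f hf => ?_,
    wightman_of rp_rho (ax_of h.one (gen_netL _) o) hS hr r r1 r4 r' o.tr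
      (by simpa only [map_one] using o2 1 (net.one _)) (tE_c0 0) (fun k f hf => ?_) hγ hκ h2 af⟩
  · simpa only [Lm.sub, map_prod, aeval_X] using
      o.lim _ (gen_mem (gen_netL (inv4 rp_rho)) a hf fun _ => subset_univ _)
  · simpa [emb, mon] using o1 _ (mon_mem hf fun _ => subset_univ _)

end Pool.Agent.Lib.MP_7f377f_mp.Wv
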