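import Pool.Agent.Lib.MP_7f377f_mp.G.WvAll
import Pool.Agent.Lib.MP_7f377f_mp.G.LmE

/-! Labels: limits of composite fields are Wightman fields. -/

noncomputable section

namespace Pool.Agent.Lib.MP_7f377f_mp.Wv
variable [Pool.Agent.Lib.MP_7f377f_mp.GD]
set_option linter.unusedSectionVars false

open MeasureTheory Filter Topology Set Complex YM7 Pur Lg Wm Lm Matrix MvPolynomial

variable {V ι : Type} [NormedAddCommGroup V] [NormedSpace ℂ V] [InvolutiveStar V]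
  {H : Type} [NormedAddCommGroup H] [InnerProductSpace ℂ H] [CompleteSpace H] {ρ : CM → V → V}
  {W : Pol →ₗ[ℂ] ℂ} {K : ℝ} {l : Filter ι}

theorem inv4 (hρ : Rp ρ) : Inv4 (tE ρ) := ⟨tE_tE hρ, tE_comm hρ⟩

theorem ax_of {P : Type} [CommRing P] [Algebra ℂ P] {N : Net P} {x : V → (R4 → ℝ) → P} {θ σ κ}
    {r : net.Rep W 0 H} {W' : P →ₗ[ℂ] ℂ} {r' : N.Rep W' 0 H} (K1 : 1 ≤ K) (hN : Gen N x θ)
    (o : Outl W r K σ l N x κ W' r') : Ax N x W' θ σ :=
  ⟨hN, o.st, o.lin, o.linc, ⟨K, K1, o.bd⟩, fun R hR k a f hf => by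
    simpa only [LinearIsometryEquiv.apply_symm_apply] using
      (o.rot R hR k a (fun i y => f i (R y)) (hf.comp R.toHomeomorph R.contDiff)).symm⟩

end Pool.Agent.Lib.MP_7f377f_mp.Wv
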