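import Pool.Agent.Lib.MP_7f377f_mp.G.WvR
import Pool.Agent.Lib.MP_7f377f_mp.G.LmC

/-! Labels: the net of local polynomials in fields with labels. -/

noncomputable section

namespace Pool.Agent.Lib.MP_7f377f_mp.Wv
variable [Pool.Agent.Lib.MP_7f377f_mp.GD]
set_option linter.unusedSectionVars false

open Filter Topology Set YM7 Pur Lg Wm Lm MvPolynomial Lg.PI
open Ro (Iso)
open scoped NNReal

section
variable {V : Type} {k : ℕ}

/-- polynomials in the smeared fields with labels -/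
abbrev PolL (V : Type) : Type := MvPolynomial (V × (R4 → ℝ)) ℂ

/-- the generators -/
def xL (c : V) (f : R4 → ℝ) : PolL V := X (c, f)

/-- the antilinear reflection -/
def thL (θ : Fin 4 → V → V) (μ : Fin 4) : PolL V →+* PolL V :=
  (rename fun p : V × (R4 → ℝ) => (θ μ p.1, fun y => p.2 (rf μ y))).toRingHom.comp
    (map (starRingEnd ℂ))

theorem thL_x (θ : Fin 4 → V → V) (μ : Fin 4) (c : V) (f : R4 → ℝ) :
    thL θ μ (xL c f) = xL (θ μ c) fun y => f (rf μ y) := by simp [thL, xL]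

theorem rf_comm (μ ν : Fin 4) (y : R4) : rf μ (rf ν y) = rf ν (rf μ y) := by
  ext l
  by_cases h : l = μ <;> by_cases h' : l = ν <;> simp_all [rf, Function.update_apply]

/-- the net of local polynomials -/
def netL {θ : Fin 4 → V → V} (h1 : ∀ μ c, θ μ (θ μ c) = c)
    (h2 : ∀ μ ν c, θ μ (θ ν c) = θ ν (θ μ c)) : Net (PolL V) :=
  gen (fun v => rename fun p : V × (R4 → ℝ) => (p.1, fun y => p.2 (y - v))) (thL θ)
    (fun f q => ∃ c, xL c f = q) (fun Z => by simp only [sub_zero]; exact rename_id_apply Z)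
    (fun u v Z => by simp only [rename_rename, Function.comp_def, sub_sub])
    (fun μ c Z => by simp [thL, smul_eq_C_mul])
    (fun μ Z => RingHom.congr_fun (f := (thL θ μ).comp (thL θ μ)) (g := RingHom.id _)
      (ringHom_ext (by simp [thL]) (by simp [thL, h1])) Z)
    (fun μ ν Z => RingHom.congr_fun (f := (thL θ μ).comp (thL θ ν)) (g := (thL θ ν).comp (thL θ μ))
      (ringHom_ext (by simp [thL]) fun f => by simp [thL, h2 μ, rf_comm μ]) Z)
    (fun μ v Z => by
      have e : ∀ y, rf μ (y - rf μ v) = rf μ y - v := fun y => by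
        rw [← rfL_eq, map_sub, rfL_eq, rf_rf]
      simp only [thL, RingHom.comp_apply, map_rename, AlgHom.toRingHom_eq_coe, RingHom.coe_coe,
        rename_rename, Function.comp_def, e])
    (by rintro v f _ - ⟨c, rfl⟩; exact ⟨c, by simp [xL]⟩)
    (by rintro μ f _ - ⟨c, rfl⟩; exact ⟨_, (thL_x θ μ c f).symm⟩)

theorem gen_L {θ : Fin 4 → V → V} (h1 h2) : Gen (netL (θ := θ) h1 h2) xL θ :=
  ⟨fun _ => rfl, fun _ _ _ => rename_X _ _, thL_x θ⟩

variable {P : Type} [CommRing P] [Algebra ℂ P] {N : Net P} {x : V → (R4 → ℝ) → P}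

theorem gen_mem {θ : Fin 4 → V → V} (h : Gen N x θ) (a : Fin k → V) {f : Fin k → R4 → ℝ}
    {O : Set R4} (hf : Adm f) (hO : ∀ i, tsupport (f i) ⊆ O) : ∏ i, x (a i) (f i) ∈ N.loc O :=
  h.loc O ▸ Submodule.subset_span ⟨k, f, _, hf, fun i => ⟨hO i, _, rfl⟩, rfl⟩

variable [AddCommGroup V] [Module ℂ V] (N x) (W : P →ₗ[ℂ] ℂ)

/-- linearity in the test function -/
def LinF : Prop := ∀ c (g g' : R4 → ℝ) (t : ℝ), C1 univ g → C1 univ g' →
  ∀ Z ∈ N.loc (tsupport g ∪ tsupport g')ᶜ,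
    W (x c (g + t • g') * Z) = W (x c g * Z) + t * W (x c g' * Z)

/-- linearity in the label -/
def LinC : Prop := ∀ (t : ℂ) a b (g : R4 → ℝ), C1 univ g → ∀ Z ∈ N.loc (tsupport g)ᶜ,
  W (x (t • a + b) g * Z) = t * W (x a g * Z) + W (x b g * Z)

/-- the operator bound for one field -/
def Q1L : Prop := ∃ K : ℝ, 1 ≤ K ∧ ∀ c, ∃ (C : ℝ) (s : ℕ), 0 ≤ C ∧ ∀ d ∈ Ioc (0 : ℝ) 1,
  ∀ (g : R4 → ℝ) (L : ℝ≥0), C1 (Bx d) g → LipschitzWith L g →
    N.QB W (x c g) (K * d) (C / d ^ s * L)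

/-- rotation covariance -/
def RotL (ρ : Iso → V → V) : Prop := ∀ R : Iso, dt R = 1 → ∀ (k : ℕ) (a : Fin k → V)
  (f : Fin k → R4 → ℝ), Adm f →
    W (∏ i, x (a i) fun y => f i (R y)) = W (∏ i, x (ρ R (a i)) (f i))

/-- Euclidean fields with labels -/
structure Ax (θ : Fin 4 → V → V) (ρ : Iso → V → V) : Prop where
  gen : Gen N x θ
  st : N.St W
  lin : LinF N x W
  linc : LinC N x W
  q1 : Q1L N x W
  rot : RotL x W ρ

end

/-- the matrix of an isometry -/
def mat (Q : Iso) : Mat := Matrix.of fun μ ν => Q (EuclideanSpace.single ν 1) μ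

theorem act_mat (Q : Iso) (y : R4) : act (mat Q) y = Q y := by
  conv_rhs => rw [← (EuclideanSpace.basisFun (Fin 4) ℝ).sum_repr y]
  ext μ
  simp [act_apply, mat, mul_comm]

theorem mat_mul (Q Q' : Iso) : mat (Q * Q') = mat Q * mat Q' :=
  act_ext fun y => by rw [act_mul, act_mat, act_mat, act_mat]; rfl

theorem mat_one : mat 1 = 1 := act_ext fun y => by rw [act_mat, act_one]; rfl

variable {V : Type} [NormedAddCommGroup V] [NormedSpace ℂ V] [InvolutiveStar V] {ρ : CM → V → V}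

/-- the action of isometries on the labels -/
def rE (ρ : CM → V → V) (Q : Iso) (c : V) : V := ρ (cm (mat Q)) c

/-- the antilinear reflections of the labels -/
def tE (ρ : CM → V → V) (μ : Fin 4) (c : V) : V := rE ρ (rfL μ) (star c)

theorem rE_one (h : Rp ρ) (c : V) : rE ρ 1 c = c := by rw [rE, mat_one, cm_one, h.one]

theorem rE_mul (h : Rp ρ) (Q Q' : Iso) (c : V) : rE ρ (Q * Q') c = rE ρ Q (rE ρ Q' c) := by
  rw [rE, mat_mul, cm_mul, h.mul, rE, rE]

theorem star_rE (h : Rp ρ) (Q : Iso) (c : V) : star (rE ρ Q c) = rE ρ Q (star c) := by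
  rw [rE, h.star, cm_star, rE]

theorem tE_tE (h : Rp ρ) (μ : Fin 4) (c : V) : tE ρ μ (tE ρ μ c) = c := by
  rw [tE, tE, star_rE h, star_star, ← rE_mul h, rfL_mul, rE_one h]

theorem tE_comm (h : Rp ρ) (μ ν : Fin 4) (c : V) : tE ρ μ (tE ρ ν c) = tE ρ ν (tE ρ μ c) := by
  simp only [tE, star_rE h, ← rE_mul h]
  congr 1
  ext1 y
  simp only [LinearIsometryEquiv.coe_mul, Function.comp_apply, rfL_eq, rf_comm μ]

end Pool.Agent.Lib.MP_7f377f_mp.Wv
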