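import Pool.Agent.Lib.MP_7f377f_mp.G.WmSpec
import Pool.Agent.Lib.MP_7f377f_mp.WAxL

/-! Wightman reconstruction for fields with labels: definitions. -/

noncomputable section

namespace Pool.Agent.Lib.MP_7f377f_mp.Wv
variable [Pool.Agent.Lib.MP_7f377f_mp.GD]
set_option linter.unusedSectionVars false

open MeasureTheory Filter Topology Set Complex YM7 Pur Matrix Metric Wm

/-- complex matrices -/
abbrev CM : Type := Matrix (Fin 4) (Fin 4) ℂ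

/-- real matrices as complex matrices -/
abbrev cm (L : Mat) : CM := L.map (↑)

variable {V : Type} [NormedAddCommGroup V] [NormedSpace ℂ V] [InvolutiveStar V]
  {H : Type} [NormedAddCommGroup H] [InnerProductSpace ℂ H]

/-- holomorphic actions on the labels -/
structure Rp (ρ : CM → V → V) : Prop where
  one : ∀ c, ρ 1 c = c
  mul : ∀ g g' c, ρ (g * g') c = ρ g (ρ g' c)
  hol : ∀ f : ℂ → CM, (∀ μ ν, Differentiable ℂ fun s => f s μ ν) → ∀ c,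
    Differentiable ℂ fun s => ρ (f s) c
  cont : ∀ c, Continuous fun g => ρ g c
  star : ∀ g c, star (ρ g c) = ρ (g.map star) (star c)
  lin : ∀ g (t : ℂ) c c', ρ g (t • c + c') = t • ρ g c + ρ g c'

/-- the labels of a scalar product -/
def gl {m n : ℕ} (a : Fin m → V) (b : Fin n → V) : Fin (m + n) → V :=
  Fin.append (fun i => star (a i.rev)) b

/-- `A c z w = E z * φ c 0 * E w` -/
structure Pt (E : C4 → H →L[ℂ] H) (A : V → C4 → C4 → H →L[ℂ] H) : Prop where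
  hol : DifferentiableOn ℂ (fun p : V × C4 × C4 => A p.1 p.2.1 p.2.2) (univ ×ˢ TO ×ˢ TO)
  bd : ∀ c, ∃ (C : ℝ) (N : ℕ), 0 ≤ C ∧ ∀ δ ∈ Ioc (0 : ℝ) 1, ∀ z ∈ TV δ, ∀ w ∈ TV δ,
    ‖A c z w‖ ≤ C / δ ^ N
  cov : ∀ c, ∀ z ∈ TO, ∀ w ∈ TO, ∀ u ∈ TV 0,
    E u * A c z w = A c (u + z) w ∧ A c z w * E u = A c z (w + u)
  adj : ∀ c, ∀ z ∈ TO, ∀ w ∈ TO, ∀ x y,
    inner ℂ (A (star c) z w x) y = inner ℂ x (A c (-star w) (-star z) y)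
  lin : ∀ (t : ℂ) c c', ∀ z ∈ TO, ∀ w ∈ TO, A (t • c + c') z w = t • A c z w + A c' z w

/-- holomorphic with polynomial bounds -/
structure Hb {n : ℕ} (ψ : (Fin n → C4) → H) : Prop where
  hol : DifferentiableOn ℂ ψ (FT n)
  bd : ∃ (C : ℝ) (N : ℕ), 0 ≤ C ∧ ∀ δ ∈ Ioc (0 : ℝ) 1, ∀ z ∈ FTd n δ, ‖ψ z‖ ≤ C / δ ^ N

/-- families indexed by labels and points -/
abbrev Fm (V X : Type) : Type := ∀ n, (Fin n → V) → (Fin n → C4) → X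

/-- `ψ n a z = φ (a 0) (z 0) .. φ (a (n - 1)) (z (n - 1)) Ω` and `w n a z = ⟪Ω, ψ n a z⟫` -/
structure Vec (E : C4 → H →L[ℂ] H) (Ω : H) (ψ : Fm V H) (w : Fm V ℂ) : Prop where
  nil : ∀ a z, ψ 0 a z = Ω
  jnt : ∀ n, DifferentiableOn ℂ (fun p : (Fin n → V) × (Fin n → C4) => ψ n p.1 p.2) (univ ×ˢ FT n)
  bd : ∀ n a, ∃ (C : ℝ) (N : ℕ), 0 ≤ C ∧ ∀ δ ∈ Ioc (0 : ℝ) 1, ∀ z ∈ FTd n δ, ‖ψ n a z‖ ≤ C / δ ^ N
  cov : ∀ n a, ∀ z ∈ FT n, ∀ u ∈ TV 0, E u (ψ n a z) = ψ n a fun i => z i + u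
  wjnt : ∀ n, DifferentiableOn ℂ (fun p : (Fin n → V) × (Fin n → C4) => w n p.1 p.2)
    (univ ×ˢ Tube n)
  wtr : ∀ n a z (c : C4), w n a (fun i => z i + c) = w n a z
  wval : ∀ n a, ∀ z ∈ FT n, w n a z = inner ℂ Ω (ψ n a z)
  inn : ∀ m n α β, ∀ a ∈ FT m, ∀ b ∈ FT n,
    inner ℂ (ψ m α a) (ψ n β b) = w (m + n) (gl α β) (glue a b)
  shift : ∀ m n α β γ (p c : C4), ∀ a ∈ FT m, ∀ b ∈ FT n, p ∈ TO → star p - c ∈ TO →
    inner ℂ (ψ m α a) (ψ (n + 1) (Fin.cons γ β) (Fin.cons (star p - c) fun i => b i - c)) =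
      inner ℂ (ψ (m + 1) (Fin.cons (star γ) α) (Fin.cons p fun i => a i + star c)) (ψ n β b)
  lin : ∀ n (t : ℂ) c c' a, ∀ z ∈ FT (n + 1), ψ (n + 1) (Fin.cons (t • c + c') a) z =
    t • ψ (n + 1) (Fin.cons c a) z + ψ (n + 1) (Fin.cons c' a) z

theorem slice {X Y Z : Type} [NormedAddCommGroup X] [NormedSpace ℂ X] [NormedAddCommGroup Y]
    [NormedSpace ℂ Y] [NormedAddCommGroup Z] [NormedSpace ℂ Z] {f : X → Y → Z} {S : Set Y}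
    (h : DifferentiableOn ℂ (fun p : X × Y => f p.1 p.2) (univ ×ˢ S)) (a : X) :
    DifferentiableOn ℂ (f a) S :=
  h.comp (f := fun z => (a, z)) (by fun_prop) fun _ hz => ⟨trivial, hz⟩

section
variable {E : C4 → H →L[ℂ] H} {Ω : H} {ψ : Fm V H} {w : Fm V ℂ}

theorem Vec.hol (h : Vec E Ω ψ w) (n a) : DifferentiableOn ℂ (ψ n a) (FT n) := slice (h.jnt n) a

theorem Vec.whol (h : Vec E Ω ψ w) (n a) : DifferentiableOn ℂ (w n a) (Tube n) :=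
  slice (h.wjnt n) a

theorem Vec.hb (h : Vec E Ω ψ w) (n a) : Hb (ψ n a) := ⟨h.hol n a, h.bd n a⟩

end

/-- the recursion -/
def Rec (A : V → C4 → C4 → H →L[ℂ] H) (ψ : Fm V H) : Prop :=
  ∀ n c a, ∀ p ∈ TO, ∀ u ∈ TO, ∀ z ∈ FT n,
    ψ (n + 1) (Fin.cons c a) (Fin.cons p fun i => z i + (p + u)) = A c p u (ψ n a z)

/-- Euclidean covariance and symmetry at Euclidean points -/
def E1 (ρ : CM → V → V) (w : Fm V ℂ) : Prop :=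
  ∀ n (a : Fin n → V) R (σ : Equiv.Perm (Fin n)) (y : Fin n → R4),
    SO R → StrictMono (fun i => y (σ i) 0) → StrictMono (fun i => act R (y i) 0) →
      w n (fun i => a (σ i)) (fun i => euc (y (σ i))) =
        w n (fun i => ρ (wick R) (a i)) fun i => euc (act R (y i))

/-- the same at complex points -/
def E1c (ρ : CM → V → V) (w : Fm V ℂ) : Prop :=
  ∀ n (a : Fin n → V) R (σ : Equiv.Perm (Fin n)) (y : Fin n → R4),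
    SO R → StrictMono (fun i => y (σ i) 0) → StrictMono (fun i => act R (y i) 0) →
      ∀ z : Fin n → C4, (fun i => z (σ i)) ∈ Tube n → (fun i => wick R *ᵥ z i) ∈ Tube n →
        w n (fun i => a (σ i)) (fun i => z (σ i)) =
          w n (fun i => ρ (wick R) (a i)) fun i => wick R *ᵥ z i

/-- Lorentz covariance -/
def Linv (ρ : CM → V → V) (w : Fm V ℂ) : Prop :=
  ∀ n a L, Lor L → ∀ z ∈ Tube n, w n (fun i => ρ (cm L) (a i)) (fun i => cact L (z i)) = w n a z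

/-- the abstract input of the reconstruction -/
structure Sys0 (E : C4 → H →L[ℂ] H) (Ω : H) (ψ : Fm V H) (w : Fm V ℂ) : Prop
    extends Vec E Ω ψ w where
  tub : Tub E
  unit : ‖Ω‖ = 1
  spec : Spec fun a => E (rl a)
  vac : ∀ x, (∀ a, E (rl a) x = x) → ∃ c : ℂ, x = c • Ω

/-- the vectors `ψ n a z` are total -/
structure Sys (E : C4 → H →L[ℂ] H) (Ω : H) (ψ : Fm V H) (w : Fm V ℂ) : Prop
    extends Sys0 E Ω ψ w where
  total : ∀ x, (∀ n a, ∀ z ∈ FT n, inner ℂ x (ψ n a z) = 0) → x = 0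

/-- families of distributions -/
abbrev Ds (V H : Type) [NormedAddCommGroup H] [InnerProductSpace ℂ H] : Type :=
  ∀ n, (Fin n → V) → Sw n →L[ℂ] H

/-- the boundary value of one function -/
def Bv {n : ℕ} (ψ : (Fin n → C4) → H) (Φ : Sw n →L[ℂ] H) : Prop :=
  ∀ η ∈ Dir n, ∀ F : Sw n, ∃ B : ℝ, ∀ (a : Fin n → R4) (F' : Sw n), (∀ x, F' x = F (x - a)) →
    ∀ t ∈ Ioc (0 : ℝ) 1, ‖(∫ x, F' x • ψ (cxn x (t • η))) - Φ F'‖ ≤ B * t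

/-- boundary values -/
def IsBV (ψ : Fm V H) (Φ : Ds V H) : Prop := ∀ n a, Bv (ψ n a) (Φ n a)

/-- hermiticity -/
def Herm (Φ : Ds V H) : Prop := ∀ m n α β γ (G : Sw m) (F : Sw n) (f g : Tf),
  (∀ u, g u = starRingEnd ℂ (f u)) → inner ℂ (Φ m α G) (Φ (n + 1) (Fin.cons γ β) (cs f F)) =
    inner ℂ (Φ (m + 1) (Fin.cons (star γ) α) (cs g G)) (Φ n β F)

/-- cyclicity -/
def Cyc (Φ : Ds V H) : Prop :=
  ∀ x, (∀ n a (f : Fin n → Tf), inner ℂ x (Φ n a (tn f)) = 0) → x = 0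

/-- linearity in the label -/
def Lin (Φ : Ds V H) : Prop := ∀ n (t : ℂ) c c' a F, Φ (n + 1) (Fin.cons (t • c + c') a) F =
  t • Φ (n + 1) (Fin.cons c a) F + Φ (n + 1) (Fin.cons c' a) F

/-- two more labels -/
def l2 {m : ℕ} (c c' : V) (a : Fin m → V) : Fin (m + 2) → V := Fin.cons c (Fin.cons c' a)

/-- locality for compact supports separated in the direction of one unit vector -/
def Loc1 (Φ : Ds V H) : Prop := ∀ u, Un u → ∀ f g : Tf, HasCompactSupport f →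
  HasCompactSupport g → (∀ x ∈ tsupport f, ∀ y ∈ tsupport g, |y 0 - x 0| < inner ℝ (y - x) u) →
    ∀ n c c' a (F : Sw n),
      Φ (n + 2) (l2 c c' a) (cs f (cs g F)) = Φ (n + 2) (l2 c' c a) (cs g (cs f F))

/-- locality -/
def Loc2 (Φ : Ds V H) : Prop := ∀ f g : Tf,
  (∀ x ∈ tsupport f, ∀ y ∈ tsupport g, mink (x - y) (x - y) < 0) → ∀ n c c' a (F : Sw n),
    Φ (n + 2) (l2 c c' a) (cs f (cs g F)) = Φ (n + 2) (l2 c' c a) (cs g (cs f F))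

/-- the representation of the Poincare group -/
structure Poi (ρ : CM → V → V) (E : C4 → H →L[ℂ] H) (Ω : H) (Φ : Ds V H)
    (U : R4 → Mat → H →L[ℂ] H) : Prop where
  rep : ∀ a L, Lor L → Function.Surjective (U a L) ∧ (∀ x, ‖U a L x‖ = ‖x‖) ∧
    ∀ b M, Lor M → U a L * U b M = U (a + act L b) (L * M)
  cont : ∀ x, ContinuousOn (fun p : R4 × Mat => U p.1 p.2 x) {p | Lor p.2}
  tr : ∀ a, U a 1 = E (rl a)
  vac : ∀ a L, Lor L → U a L Ω = Ω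
  cov : ∀ a L, Lor L → ∀ n α (F F' : Sw n), (∀ x, F' (fun i => a + act L (x i)) = F x) →
    U a L (Φ n α F) = Φ n (fun i => ρ (cm L) (α i)) F'

/-- the vacuum expectation value is a boundary value -/
def Bdry {n : ℕ} (w : (Fin n → C4) → ℂ) (v : (Fin n → Tf) → ℂ) : Prop :=
  ∀ (f : Fin n → Tf) (G : ℝ → (Fin n → R4) → ℂ),
    (∀ ε x, G ε x =
      (∏ i, f i (x i)) * w fun i μ => x i μ + if μ = 0 then I * ε * (i : ℕ) else 0) →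
    (∀ ε > 0, Integrable (G ε)) ∧ Tendsto (fun ε => ∫ x, G ε x) (𝓝[>] 0) (𝓝 (v f))

/-! ### Statements -/

variable (V H)

def S_D : Prop := ∀ (E : C4 → H →L[ℂ] H) (A : V → C4 → C4 → H →L[ℂ] H) Ω, Tub E → Pt E A →
  (∀ z ∈ TV 0, E z Ω = Ω) → ∃ ψ w, Vec E Ω ψ w ∧ Rec A ψ

def S_R : Prop := ∀ (E : C4 → H →L[ℂ] H) Ω (ψ : Fm V H) w, Sys0 E Ω ψ w →
  ∃ (K : Type) (_ : NormedAddCommGroup K) (_ : InnerProductSpace ℂ K) (_ : CompleteSpace K)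
    (E' : C4 → K →L[ℂ] K) (Ω' : K) (ψ' : Fm V K) (j : K →ₗᵢ[ℂ] H),
    j Ω' = Ω ∧ (∀ z ∈ TV 0, ∀ x, j (E' z x) = E z (j x)) ∧ Sys E' Ω' ψ' w

def S_F1 : Prop := ∀ ρ (w : Fm V ℂ), (∀ n a, DifferentiableOn ℂ (w n a) (Tube n)) →
  E1 ρ w → E1c ρ w

def S_F2 : Prop := ∀ ρ (w : Fm V ℂ), Rp ρ → (∀ n, DifferentiableOn ℂ
  (fun p : (Fin n → V) × (Fin n → C4) => w n p.1 p.2) (univ ×ˢ Tube n)) → E1c ρ w → Linv ρ w

def S_Phi : Prop := ∀ (E : C4 → H →L[ℂ] H) Ω (ψ : Fm V H) w, Vec E Ω ψ w → ∃ Φ, IsBV ψ Φ ∧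
  (∀ a, Φ 0 a one0 = Ω) ∧ Lin Φ ∧ ∀ n a, Bdry (w n a) fun f => inner ℂ Ω (Φ n a (tn f))

def S_Cyc : Prop := ∀ (E : C4 → H →L[ℂ] H) Ω (ψ : Fm V H) w Φ, Sys E Ω ψ w → IsBV ψ Φ → Cyc Φ

def S_Herm : Prop := ∀ (E : C4 → H →L[ℂ] H) Ω (ψ : Fm V H) w Φ, Sys E Ω ψ w → IsBV ψ Φ → Herm Φ

def S_L1 : Prop := ∀ ρ (E : C4 → H →L[ℂ] H) Ω (ψ : Fm V H) w Φ, Rp ρ → Sys E Ω ψ w → E1c ρ w →
  IsBV ψ Φ → Loc1 Φ

def S_L2 : Prop := ∀ Φ : Ds V H, Loc1 Φ → Loc2 Φ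

def S_G1 : Prop := ∀ ρ (E : C4 → H →L[ℂ] H) Ω (ψ : Fm V H) w Φ, Rp ρ → Sys E Ω ψ w → Linv ρ w →
  IsBV ψ Φ → ∃ U, Poi ρ E Ω Φ U

def S_G2 : Prop := ∀ ρ (E : C4 → H →L[ℂ] H) Ω (ψ : Fm V H) w (Φ : Ds V H) U, Sys E Ω ψ w →
  Poi ρ E Ω Φ U →
  (∀ a, Φ 0 a one0 = Ω) → Herm Φ → Cyc Φ → Lin Φ → Loc2 Φ →
  (∃ t x, U (EuclideanSpace.single 0 t) 1 x ≠ x) → ∃ D φ, WA.Poin U Ω ∧
    WA.WfieldL (fun L => ρ (cm L)) U Ω D φ ∧ ∀ n a (f : Fin n → Tf),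
      (List.ofFn fun i => (a i, f i)).foldr φ Ω = Φ n a (tn f)

end Pool.Agent.Lib.MP_7f377f_mp.Wv
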