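import Pool.Agent.Lib.MP_7f377f_mp.G.WvNet

/-! Labels: tensors. -/

noncomputable section

namespace Pool.Agent.Lib.MP_7f377f_mp.Wv
variable [Pool.Agent.Lib.MP_7f377f_mp.GD]
set_option linter.unusedSectionVars false

open YM7 Wm Matrix

/-- complex tensors of rank `r` -/
abbrev Ten (r : ℕ) : Type := (Fin r → Fin 4) → ℂ

variable {r : ℕ}

/-- matrices act on tensors -/
def tact (g : CM) (c : Ten r) : Ten r := fun I => ∑ J, (∏ k, g (I k) (J k)) * c J

theorem rp_tact : Rp (tact (r := r)) where
  one c := funext fun I => by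
    simp only [tact, one_apply, Fintype.prod_boole, ← funext_iff, ite_mul, one_mul, zero_mul,
      Finset.sum_ite_eq, Finset.mem_univ, if_true]
  mul g g' c := funext fun I => by
    simp only [tact, mul_apply, Finset.prod_univ_sum, Fintype.piFinset_univ, Finset.sum_mul,
      Finset.mul_sum, Finset.prod_mul_distrib, mul_assoc]
    exact Finset.sum_comm
  hol f hf c := by
    unfold tact
    fun_prop
  cont c := by
    unfold tact
    fun_prop
  star g c := funext fun I => by simp [tact]
  lin g t c c' := funext fun I => by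
    simp only [tact, Pi.add_apply, Pi.smul_apply, smul_eq_mul, mul_add, Finset.sum_add_distrib,
      Finset.mul_sum, mul_left_comm t]

/-- the scalar of rank four -/
def t0 : Ten 4 := fun I => if I 0 = I 2 ∧ I 1 = I 3 then 1 else 0

theorem sum_four {X : Type} [AddCommMonoid X] (F : (Fin 4 → Fin 4) → X) :
    ∑ J, F J = ∑ a, ∑ b, ∑ c, ∑ d, F ![a, b, c, d] := by
  simp only [← (Fin.consEquiv fun _ => Fin 4).sum_comp, Fintype.sum_prod_type, Finset.univ_unique,
    Finset.sum_singleton]
  rfl

theorem tact_t0 {g : CM} (h : g * gᵀ = 1) : tact g t0 = t0 := funext fun I => by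
  have e : ∀ μ ν, ∑ a, g μ a * g ν a = if μ = ν then 1 else 0 := fun μ ν =>
    (congrFun (congrFun h μ) ν).trans one_apply
  rw [t0, ← mul_one (1 : ℂ), ← ite_zero_mul_ite_zero, ← e, ← e, Finset.sum_mul_sum, tact, sum_four]
  refine Finset.sum_congr rfl fun a _ => Finset.sum_congr rfl fun b _ => ?_
  simp [t0, Fin.prod_univ_four, ite_and]
  ring

theorem rE_t0 (Q : Ro.Iso) : rE tact Q t0 = t0 := tact_t0 (by
  rw [← transpose_map, ← cm_mul, mul_eq_one_comm.1 (act_ext fun y => ext_inner_left ℝ fun x => by
    rw [act_mul, inner_act, transpose_transpose, act_mat, act_mat, act_one, Q.inner_map_map]),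
    cm_one])

theorem tE_t0 (μ : Fin 4) : tE tact μ t0 = t0 := by
  rw [tE, show star t0 = t0 from funext fun I => by simp [t0, apply_ite], rE_t0]

end Pool.Agent.Lib.MP_7f377f_mp.Wv
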