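import Pool.Agent.Lib.MP_7f377f_mp.G.WvAll

/-! Labels in a vector space of arbitrary dimension: the Wightman reconstruction. -/

noncomputable section

namespace Pool.Agent.Lib.MP_7f377f_mp.Wv
variable [Pool.Agent.Lib.MP_7f377f_mp.GD]
set_option linter.unusedSectionVars false

open MeasureTheory Filter Topology Set Complex YM7 Pur Lg Wm Matrix Metric ComplexConjugate

theorem osgC {Y V X : Type} [NormedAddCommGroup Y] [NormedSpace ℂ Y] [FiniteDimensional ℂ Y]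
    [NormedAddCommGroup V] [NormedSpace ℂ V] [NormedAddCommGroup X] [NormedSpace ℂ X]
    [CompleteSpace X] {U : Set Y} (hU : IsOpen U) {F : Y → V →L[ℂ] X} {M : ℝ}
    (hM : ∀ z ∈ U, ‖F z‖ ≤ M) (h : ∀ x, DifferentiableOn ℂ (fun z => F z x) U) :
    DifferentiableOn ℂ F U := by
  have c : ContinuousOn F U := fun x hx => by
    obtain ⟨r, r0, hr⟩ := Metric.isOpen_iff.1 hU x hx
    have M0 := (norm_nonneg _).trans (hM x hx)
    refine (tendsto_iff_norm_sub_tendsto_zero.2 (squeeze_zero' (.of_forall fun _ => norm_nonneg _)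
      (g := fun y => 2 * M / r * ‖y - x‖) ?_
      (Continuous.tendsto' (by fun_prop) _ _ (by simp)))).mono_left nhdsWithin_le_nhds
    filter_upwards [ball_mem_nhds x r0] with y hy
    refine ContinuousLinearMap.opNorm_le_bound _ (by positivity) fun v => ?_
    exact (lip_hol ((h v).mono hr) (fun z hz => (F z).le_of_opNorm_le (hM z (hr hz)) v) hy).trans_eq
      (by ring)
  refine osg hU c fun x hx v => (S10.w2s (fun p : StrongDual ℂ X × V => p.1.comp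
    (ContinuousLinearMap.apply ℂ X p.2)) (fun T e => ContinuousLinearMap.ext fun y =>
      NormedSpace.eq_zero_of_forall_dual_eq_zero ℂ fun l => e (l, y)) (Tool.line_mem hU hx v).1
    (c.comp (by fun_prop) fun _ e => e) fun p => ?_).differentiableAt (Tool.line_mem hU hx v).2
  exact p.1.differentiable.comp_differentiableOn
    ((h p.2).comp (f := fun t : ℂ => x + t • v) (by fun_prop) fun _ e => e)

theorem exists_nrm {V J : Type} [AddCommGroup V] [Module ℂ V] (s : J → Seminorm ℂ V)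
    (h : ∀ c, BddAbove (range fun j => s j c)) :
    ∃ q : Seminorm ℂ V, (∀ c, q c = 0 → c = 0) ∧ ∀ j c, s j c ≤ q c := by
  let b := Module.Basis.ofVectorSpace ℂ V
  let t := fun i => (normSeminorm ℂ ℂ).comp (b.coord i)
  have h' : ∀ c, BddAbove (range fun i => t i c) := fun c =>
    (((b.repr c).finite_range.image (‖·‖)).subset (by
      rintro _ ⟨i, rfl⟩
      exact ⟨_, ⟨i, rfl⟩, rfl⟩)).bddAbove
  have e : ∀ {I : Type} {s : I → Seminorm ℂ V}, (∀ c, BddAbove (range fun j => s j c)) →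
      ∀ j c, s j c ≤ (⨆ j, s j) c := fun h j c =>
    le_ciSup (Seminorm.bddAbove_range_iff.2 h) j c
  refine ⟨(⨆ j, s j) + ⨆ i, t i, fun c e0 => b.ext_elem fun i => ?_, fun j c =>
    (e h j c).trans (le_add_of_nonneg_right (apply_nonneg _ _))⟩
  rw [map_zero]
  exact norm_le_zero_iff.1 ((e h' i c).trans ((le_add_of_nonneg_left
    (apply_nonneg (⨆ j, s j) c)).trans_eq e0))

variable {P : Type} [CommRing P] [Algebra ℂ P] {H : Type} [NormedAddCommGroup H]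
  [InnerProductSpace ℂ H] [CompleteSpace H] {N : Net P} {W : P →ₗ[ℂ] ℂ} {E : C4 → H →L[ℂ] H}
  {K : ℝ} {W₀ : Pol →ₗ[ℂ] ℂ} {γ κ : ℝ}

section
variable {V : Type} [AddCommGroup V] [Module ℂ V] [InvolutiveStar V]

/-- locally finite holomorphic actions on the labels -/
structure Rq (ρ : CM → V → V) : Prop where
  one : ∀ c, ρ 1 c = c
  mul : ∀ g g' c, ρ (g * g') c = ρ g (ρ g' c)
  star : ∀ g c, star (ρ g c) = ρ (g.map star) (star c)
  lin : ∀ g (t : ℂ) c c', ρ g (t • c + c') = t • ρ g c + ρ g c'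
  fin : ∀ c, ∃ (n : ℕ) (p : Fin n → (Fin 4 → Fin 4 → ℂ) → ℂ) (v : Fin n → V),
    (∀ i, Differentiable ℂ (p i)) ∧ ∀ g, ρ g c = ∑ i, p i g • v i

/-- point fields without joint holomorphy -/
structure Pq (E : C4 → H →L[ℂ] H) (M : V → ℝ → (R4 → ℝ) → H →L[ℂ] H) (K : ℝ)
    (A : V → C4 → C4 → H →L[ℂ] H) : Prop where
  pt : ∀ c, P0 E (M c) K (A c)
  adj : ∀ c, ∀ z ∈ TO, ∀ w ∈ TO, ∀ x y,
    inner ℂ (A (star c) z w x) y = inner ℂ x (A c (-star w) (-star z) y)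
  lin : ∀ (t : ℂ) c c', ∀ z ∈ TO, ∀ w ∈ TO, A (t • c + c') z w = t • A c z w + A c' z w

/-- the point field as a linear map -/
def Pq.lm {M : V → ℝ → (R4 → ℝ) → H →L[ℂ] H} {A : V → C4 → C4 → H →L[ℂ] H} (h : Pq E M K A)
    {z w : C4} (hz : z ∈ TO) (hw : w ∈ TO) : V →ₗ[ℂ] H →L[ℂ] H where
  toFun c := A c z w
  map_add' c c' := by simpa using h.lin 1 c c' _ hz _ hw
  map_smul' t c := by
    have e := h.lin 1 0 0 _ hz _ hw
    rw [one_smul, one_smul, add_zero, left_eq_add] at e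
    simpa [e] using h.lin t c 0 _ hz _ hw

theorem Pq.nrm {M : V → ℝ → (R4 → ℝ) → H →L[ℂ] H} {A : V → C4 → C4 → H →L[ℂ] H}
    (h : Pq E M K A) : ∃ q : Seminorm ℂ V, (∀ c, q c = 0 → c = 0) ∧ ∀ c, ∀ δ ∈ Ioc (0 : ℝ) 1,
      ∀ z ∈ TV δ, ∀ w ∈ TV δ, ‖A c z w‖ ≤ Real.exp δ⁻¹ * q c := by
  have e : ∀ (δ : ℝ) (T : H →L[ℂ] H), ‖(Real.exp δ⁻¹)⁻¹ • T‖ = (Real.exp δ⁻¹)⁻¹ * ‖T‖ :=
    fun δ T => norm_smul_of_nonneg (by positivity) T
  obtain ⟨q, q1, q2⟩ := exists_nrm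
    (fun j : {p : ℝ × C4 × C4 // p.1 ∈ Ioc (0 : ℝ) 1 ∧ p.2.1 ∈ TV p.1 ∧ p.2.2 ∈ TV p.1} =>
      (normSeminorm ℂ _).comp ((Real.exp j.1.1⁻¹)⁻¹ •
        h.lm (TV.to j.2.1.1 j.2.2.1) (TV.to j.2.1.1 j.2.2.2))) fun c => by
    obtain ⟨C, n, C0, b⟩ := (h.pt c).bd
    refine ⟨C * n.factorial, ?_⟩
    rintro _ ⟨⟨⟨δ, z, w⟩, h1, h2, h3⟩, rfl⟩
    refine (e δ _).trans_le ((inv_mul_le_iff₀ (Real.exp_pos _)).2 ((b δ h1 z h2 w h3).trans ?_))
    have := Real.pow_div_factorial_le_exp _ (inv_pos.2 h1.1).le n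
    rw [div_le_iff₀ (by positivity)] at this
    rw [div_eq_mul_inv, ← inv_pow, mul_left_comm]
    exact mul_le_mul_of_nonneg_left this C0
  exact ⟨q, q1, fun c δ h1 z h2 w h3 =>
    (inv_mul_le_iff₀ (Real.exp_pos _)).1 ((e δ _).ge.trans (q2 ⟨(δ, z, w), h1, h2, h3⟩ c))⟩

end

section
variable {V : Type} [NormedAddCommGroup V] [NormedSpace ℂ V] [InvolutiveStar V] {ρ : CM → V → V}
  {x : V → (R4 → ℝ) → P} {M : V → ℝ → (R4 → ℝ) → H →L[ℂ] H} {A : V → C4 → C4 → H →L[ℂ] H} {c₀ : V}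

theorem Rq.rp (h : Rq ρ) : Rp ρ where
  one := h.one
  mul := h.mul
  star := h.star
  lin := h.lin
  hol f hf c := by
    obtain ⟨n, p, v, a, b⟩ := h.fin c
    simp only [b]
    exact .fun_sum fun i _ => ((a i).comp (differentiable_pi.2 fun μ =>
      differentiable_pi.2 (hf μ))).smul_const _
  cont c := by
    obtain ⟨n, p, v, a, b⟩ := h.fin c
    simp only [b]
    exact continuous_finsetSum _ fun i _ => (a i).continuous.smul continuous_const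

theorem sC0 (hE : Tub E) (h : Smear E M K) : ∃ A, Pq E M K A := by
  choose B b1 b2 using fun a c => Wm.sC_of (sDens_of sDa_of) H E _ K hE (h.sa a c)
  have p : ∀ a c, P0 E _ K (B a c) := fun a c => ⟨(b1 a c).hol, (b1 a c).bd, (b1 a c).cov, b2 a c⟩
  have q : ∀ c, P0 E (M c) K fun z w => I • B (-I / 2) c z w + B (1 / 2) c z w := fun c =>
    (p _ c).comb (p _ c) h.one I fun d _ g _ => by
      simp only [map_div₀, map_neg, conj_I, map_one, map_ofNat]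
      match_scalars <;> ring_nf <;> norm_num
  have q' : ∀ c, P0 E (M (star c)) K fun z w => (-I) • B (-I / 2) c z w + B (1 / 2) c z w :=
    fun c => (p _ c).comb (p _ c) h.one (-I) fun d _ g _ => by
      simp only [map_div₀, map_neg, conj_I, map_one, map_ofNat]
      match_scalars <;> ring_nf <;> norm_num
  obtain ⟨A, hA⟩ : ∃ A : V → C4 → C4 → H →L[ℂ] H,
    A = fun c z w => I • B (-I / 2) c z w + B (1 / 2) c z w := ⟨_, rfl⟩
  have a : ∀ c, P0 E (M c) K (A c) := hA ▸ q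
  refine ⟨A, a, fun c z hz w hw x y => ?_, fun t c c' z hz w hw =>
    (a _).uniq ((a c).comb (a c') h.one t (h.linc t c c')) h.one hz hw⟩
  rw [(a _).uniq (q' c) h.one hz hw, hA]
  simp only [ContinuousLinearMap.add_apply, ContinuousLinearMap.smul_apply, inner_add_left,
    inner_add_right, inner_smul_left, inner_smul_right, (b1 _ c).adj z hz w hw, map_neg, conj_I,
    neg_neg]

theorem Pq.toPt (h : Pq E M K A) (hb : ∀ c, ∀ δ ∈ Ioc (0 : ℝ) 1, ∀ z ∈ TV δ, ∀ w ∈ TV δ,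
    ‖A c z w‖ ≤ Real.exp δ⁻¹ * ‖c‖) : Pt E A := by
  classical
  refine ⟨fun p hp => ?_, fun c => (h.pt c).bd, fun c => (h.pt c).cov, h.adj, h.lin⟩
  obtain ⟨δ, hδ, l1, l2⟩ := Wm.PC.ex_d 0 hp.2.1 hp.2.2
  rw [zero_add, one_mul] at l1 l2
  let U : Set (C4 × C4) := {q | δ < mg (imv q.1) ∧ δ < mg (imv q.2)}
  have hU : IsOpen U := IsOpen.and (isOpen_lt continuous_const (by fun_prop))
    (isOpen_lt continuous_const (by fun_prop))
  have u : U ⊆ TO ×ˢ TO := fun q e => ⟨hδ.1.trans e.1, hδ.1.trans e.2⟩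
  let F : C4 × C4 → V →L[ℂ] H →L[ℂ] H := fun q => if e : q ∈ U then
    (h.lm (u e).1 (u e).2).mkContinuous _ fun c => hb c δ hδ _ e.1.le _ e.2.le else 0
  have f : ∀ q ∈ U, ∀ c, F q c = A c q.1 q.2 := fun q e c => by
    simp only [F, dif_pos e]
    rfl
  have d := (osgC hU (F := F) (M := Real.exp δ⁻¹) (fun q e =>
    ContinuousLinearMap.opNorm_le_bound _ (Real.exp_pos _).le fun c =>
      f q e c ▸ hb c δ hδ _ e.1.le _ e.2.le) fun c =>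
    ((h.pt c).hol.mono u).congr fun q e => f q e c).differentiableAt (hU.mem_nhds ⟨l1, l2⟩)
  refine (((d.comp p differentiableAt_snd).clm_apply differentiableAt_fst).congr_of_eventuallyEq
    ?_).differentiableWithinAt
  filter_upwards [continuous_snd.continuousAt (hU.mem_nhds ⟨l1, l2⟩)] with q e
  exact (f _ e _).symm

theorem core2 (hρ : Rp ρ) (h : Ax N x W (tE ρ) (rE ρ)) (r : N.Rep W 0 H)
    (r3 : ∀ y, (∀ v : R4, 0 ≤ v 0 → r.T v y = y) → ∃ c : ℂ, y = c • r.Ψ 1)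
    (hc : tE ρ 0 c₀ = c₀) (h0 : ∀ k (f : Fin k → R4 → ℝ), Adm f → W (∏ i, x c₀ (f i)) = W₀ (mon f))
    (hγ : γ ≠ 0) (hκ : κ ≠ 0) (h2 : ∀ y : Fin 2 → R4, y 0 ≠ y 1 → free y = κ / ‖y 0 - y 1‖ ^ 8)
    (af : ∀ k (f : Fin k → R4 → ℝ), Adm f →
      Tendsto (fun d : ℝ => (Real.log d⁻¹ : ℂ) ^ k * W₀ (mon fun i y => f i (d⁻¹ • y))) (𝓝[>] 0)
        (𝓝 (γ ^ k * ∫ y : Fin k → R4, (∏ i, f i (y i)) * free y : ℝ)))
    (e1 : Tub E) (e2 : ∀ v : R4, 0 ≤ v 0 → E (euc v) = r.T v) (e3 : Spec fun a => E (rl a))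
    (e4 : ∀ y, (∀ a, E (rl a) y = y) → ∀ v : R4, 0 ≤ v 0 → r.T v y = y)
    (e5 : ∀ z ∈ TV 0, E z (r.Ψ 1) = r.Ψ 1) (m1 : 1 ≤ K)
    (m2 : Act r (fun c => x (ρ (Dm (-I)) c)) M K) (a1 : Pt E A) (a2 : ∀ c, Den E (M c) K (A c)) :
    WA.WightmanL (fun L => ρ (cm L)) (ρ (Dm I)) (fun _ => Adm)
      fun _ a f => W (∏ i, x (a i) (f i)) := by
  have hF := h.fld hρ
  have k : ∀ c, ρ (Dm (-I)) (ρ (Dm I) c) = c := fun c => by
    rw [← hρ.mul, Dm_mul, neg_mul, I_mul_I, neg_neg, Dm_one, hρ.one]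
  obtain ⟨ψ, w, v1, v2⟩ := sD_of E A (r.Ψ 1) e1 a1 e5
  have l1 := link hF (slab hF e2 m1 m2 a1 a2) v1 v2
  have l2 := sF1_of ρ w v1.whol (e1_of hF v1.whol l1)
  obtain ⟨K, _, _, i, E', Ω, ψ', j, j1, j2, s⟩ :=
    sR_of E _ ψ w ⟨v1, e1, r.one h.st, e3, fun y hy => r3 y (e4 y hy)⟩
  obtain ⟨Φ, p1, p2, p3, p4⟩ := sPhi_of E' Ω ψ' w s.toVec
  obtain ⟨U, g⟩ := sG1_of ρ E' Ω ψ' w Φ hρ s (sF2_of ρ w hρ v1.wjnt l2) p1
  have c : star (ρ (Dm I) c₀) = ρ (Dm I) c₀ := by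
    conv_rhs => rw [← hc, tE, rE, ← hρ.mul, mat_rf, Dm_mul]
    rw [hρ.star, Dm_star]
    simp
  obtain ⟨D, φ, g1, g2, g3⟩ := sG2_of ρ E' Ω ψ' w Φ U s g p2 (sHerm_of E' Ω ψ' w Φ s p1)
    (sCyc_of E' Ω ψ' w Φ s p1) p3 (sL2_of Φ (sL1_of ρ E' Ω ψ' w Φ hρ s l2 p1)) (by
      simpa only [g.tr] using nontriv (s.1.one c) (fun n f f1 f2 => by
        simpa only [k, h0 n f f1] using l1 n (fun _ => ρ (Dm I) c₀) f f1 f2) hγ hκ h2 af)
  refine ⟨K, _, _, i, U, Ω, D, φ, g1, g2, fun n a =>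
    ⟨w n fun i => ρ (Dm I) (a i), tube_eq n ▸ v1.whol n _, fun f f1 f2 => ?_, fun f G hG => ?_⟩⟩
  · have := l1 n (fun i => ρ (Dm I) (a i)) f f1 f2
    simp only [k] at this
    exact this
  · rw [g3]
    exact p4 n _ f G hG

end

variable {V : Type} [AddCommGroup V] [Module ℂ V] [InvolutiveStar V] {ρ : CM → V → V}
  {x : V → (R4 → ℝ) → P} {c₀ : V}

theorem pass1 (hρ : Rq ρ) (h : Ax N x W (tE ρ) (rE ρ)) (r : N.Rep W 0 H) (e1 : Tub E)
    (e2 : ∀ v : R4, 0 ≤ v 0 → E (euc v) = r.T v) : ∃ M K A, 1 ≤ K ∧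
      Act r (fun c => x (ρ (Dm (-I)) c)) M K ∧ Pq E M K A := by
  obtain ⟨q, q1, -⟩ := exists_nrm (V := V) (J := Empty) nofun fun _ => by simp
  letI : NormedAddCommGroup V := AddGroupNorm.toNormedAddCommGroup ⟨q.toAddGroupSeminorm, q1⟩
  letI : NormedSpace ℂ V := ⟨fun a c => (map_smul_eq_mul q a c).le⟩
  obtain ⟨M, K, m1, m2⟩ := smear (h.fld hρ.rp) e1 e2
  obtain ⟨A, a⟩ := sC0 e1 m1
  exact ⟨M, K, A, m1.one, m2, a⟩

/-- the reconstruction for labels in a space with a locally finite action -/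
theorem core_inf (hρ : Rq ρ) (h : Ax N x W (tE ρ) (rE ρ)) (r : N.Rep W 0 H) (r1 : Sg r.T)
    (r2 : ConeH r.T) (r3 : ∀ y, (∀ v : R4, 0 ≤ v 0 → r.T v y = y) → ∃ c : ℂ, y = c • r.Ψ 1)
    (hc : tE ρ 0 c₀ = c₀) (h0 : ∀ k (f : Fin k → R4 → ℝ), Adm f → W (∏ i, x c₀ (f i)) = W₀ (mon f))
    (hγ : γ ≠ 0) (hκ : κ ≠ 0) (h2 : ∀ y : Fin 2 → R4, y 0 ≠ y 1 → free y = κ / ‖y 0 - y 1‖ ^ 8)
    (af : ∀ k (f : Fin k → R4 → ℝ), Adm f →
      Tendsto (fun d : ℝ => (Real.log d⁻¹ : ℂ) ^ k * W₀ (mon fun i y => f i (d⁻¹ • y))) (𝓝[>] 0)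
        (𝓝 (γ ^ k * ∫ y : Fin k → R4, (∏ i, f i (y i)) * free y : ℝ))) :
    WA.WightmanL (fun L => ρ (L.map (↑))) (ρ (diagonal ![I, 1, 1, 1])) (fun _ => Adm)
      fun _ a f => W (∏ i, x (a i) (f i)) := by
  obtain ⟨E, e1, e2, e3, e4, e5⟩ := sA_of sA1_of sA2_of sA3_of sA4_of H r.T r1 r2
  obtain ⟨M, K, A, m1, m2, a⟩ := pass1 hρ h r e1 e2
  obtain ⟨q, q1, q2⟩ := a.nrm
  letI : NormedAddCommGroup V := AddGroupNorm.toNormedAddCommGroup ⟨q.toAddGroupSeminorm, q1⟩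
  letI : NormedSpace ℂ V := ⟨fun a c => (map_smul_eq_mul q a c).le⟩
  exact core2 hρ.rp h r r3 hc h0 hγ hκ h2 af e1 e2 e3 e4
    (e5 _ fun v hv => by rw [r.act hv (N.one _), map_one]) m1 m2 (a.toPt q2) fun c => (a.pt c).den

end Pool.Agent.Lib.MP_7f377f_mp.Wv
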