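import Pool.Agent.Lib.MP_7f377f_mp.G.WxA
import Pool.Agent.Lib.MP_7f377f_mp.G.WxB0
import Pool.Agent.Lib.MP_7f377f_mp.G.PuX
import Pool.Agent.Lib.MP_7f377f_mp.G.PurH

/-! The semigroup and the cone condition for a net of fields with labels. -/

noncomputable section

namespace Pool.Agent.Lib.MP_7f377f_mp.Wx
variable [Pool.Agent.Lib.MP_7f377f_mp.GD]
set_option linter.unusedSectionVars false

open Filter Topology Set YM7 Pur Lg Wm Lm Wv Real Lg.PI Function
open Ro (Iso)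
open scoped Pointwise

variable {V P : Type} [CommRing P] [Algebra ℂ P] {N : Net P} {x : V → (R4 → ℝ) → P}
  {W : P →ₗ[ℂ] ℂ} {θ : Fin 4 → V → V} {ρ : Iso → V → V} {O O' : Set R4} {Y Z : P} {n : R4}

namespace D

theorem app {k l : ℕ} (c : Fin k → V) (c' : Fin l → V) (f : Fin k → R4 → ℝ) (f' : Fin l → R4 → ℝ) :
    (∏ i, x (c i) (f i)) * ∏ i, x (c' i) (f' i) = ∏ i, x (Fin.append c c' i) (Fin.append f f' i) := by
  simp only [Fin.prod_univ_add, Fin.append_left, Fin.append_right]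

theorem rot2 (hG : Gen N x θ) (hR : RotL x W ρ) {g : Iso} (hg : dt g = 1) (hY : Y ∈ N.loc O)
    (hZ : Z ∈ N.loc O') : ∃ Y' ∈ N.loc {y | g.symm y ∈ O}, ∃ Z' ∈ N.loc {y | g.symm y ∈ O'},
      ∀ v, Disjoint O {y | y - v ∈ O'} → W (Y * N.τ v Z) = W (Y' * N.τ (g v) Z') := by
  have m : ∀ {O m} (t : Fin m → ℂ) {k : Fin m → ℕ} (c : ∀ a, Fin (k a) → V) {f : ∀ a, Fin (k a) → R4 → ℝ},
      (∀ a, Adm (f a)) → (∀ a i, tsupport (f a i) ⊆ O) →
      ∑ a, t a • ∏ i, x (ρ g (c a i)) (fun y => f a i (g.symm y)) ∈ N.loc {y | g.symm y ∈ O} :=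
    fun t k c f a b => Submodule.sum_mem _ fun j _ => Submodule.smul_mem _ _ (gen_mem hG _
      (Ro.adm_act (a j) g) fun i y hy => b j i (tsupport_comp g.symm.continuous hy))
  obtain ⟨_, t, k, c, f, f1, f2, rfl⟩ := exists_sum hG hY
  obtain ⟨_, t', k', c', f', g1, g2, rfl⟩ := exists_sum hG hZ
  refine ⟨_, m t c f1 f2, _, m t' c' g1 g2, fun v hv => ?_⟩
  simp only [map_sum, map_smul, map_prod, hG.tau, Finset.sum_mul_sum, smul_mul_smul_comm, app]
  refine Finset.sum_congr rfl fun a _ => Finset.sum_congr rfl fun b _ => congrArg _ ?_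
  have := hR g hg _ (Fin.append (c a) (c' b)) _ (Ro.adm_act ((f1 a).append (adm_sub (g1 b) v)
    fun i j => hv.mono (f2 a i) fun y hy => show y - v ∈ O' from
      g2 b j (tsupport_comp (θ := fun y => y - v) (by fun_prop) hy)) g)
  simp only [g.symm_apply_apply] at this
  refine this.trans (congrArg W (Finset.prod_congr rfl fun i _ => ?_))
  induction i using Fin.addCases <;> simp

theorem hol (hS : N.St W) (μ : Fin 4) (hY : Y ∈ N.loc {y | y μ < 0})
    (hZ : Z ∈ N.loc (Hs μ 0)) : ∃ M, ∀ u : R4, u μ = 0 →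
      S10.Hol (fun t => W (Y * N.τ (ax μ t + u) Z)) M := by
  obtain ⟨H, _, _, _, ⟨r⟩⟩ := hS.exists_rep μ
  have h1 : N.Θ μ Y ∈ N.loc (Hs μ 0) :=
    N.mono (N.Θ_mem μ hY) fun y hy => by simpa [Hs] using hy
  refine ⟨‖r.Ψ (N.Θ μ Y)‖ * ‖r.Ψ Z‖, fun u hu => ?_⟩
  have h2 : N.τ u Z ∈ N.loc (Hs μ 0) := Net.τ_hs hZ (by simp [hu])
  have p : ∀ {t : ℝ}, 0 < t → 0 ≤ ax μ t μ := fun ht => by simpa using ht.le
  refine (S10.hol_sg (T := fun t => r.T (ax μ t)) (fun t ht => ?_) (fun t ht => r.nrm (p ht))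
    (fun s hs t ht => ?_) (r.Ψ (N.Θ μ Y)) (r.Ψ (N.τ u Z))).congr (fun t ht => ?_)
    (mul_le_mul_of_nonneg_left (r.le hu.ge hZ) (norm_nonneg _))
  · refine ContinuousLinearMap.isSelfAdjoint_iff_isSymmetric.2 fun x y => ?_
    have := r.adj hS (p ht) x y
    rwa [neg_rf_ax] at this
  · refine DFunLike.coe_injective (r.dense.equalizer (r.T _).continuous (r.T _ * r.T _).continuous
      (funext fun X => ?_))
    simp only [Function.comp_apply]
    rw [mul_apply_eq_comp, r.act (p ht) X.2, r.act (p hs) (Net.τ_hs X.2 (by simpa using ht.le)),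
      r.act (p (add_pos hs ht)) X.2, N.τ_τ, ax_add]
  · rw [r.act (p ht) h2, r.inn h1 (Net.τ_hs h2 (by simpa using ht.le)), N.Θ_Θ, N.τ_τ]

open B0 in
theorem one (hG : Gen N x θ) (hS : N.St W) (hR : RotL x W ρ) (hn : Un n)
    (hZ : Z ∈ N.loc {y | |inner ℝ n y| < y 0}) : ∃ M, ∀ q : ℝ, 0 < q →
      S10.Hol (fun p => W (N.Θ 0 Z * N.τ ((p + q) • e0 + (p - q) • n) Z)) M := by
  obtain ⟨g, g1, g2⟩ := (so_Rm hn (-(π / 4))).iso
  have c0 : 0 < cos (π / 4) := by rw [cos_pi_div_four]; positivity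
  have c1 : sin (π / 4) = cos (π / 4) := by rw [cos_pi_div_four, sin_pi_div_four]
  have c2 : 2 * cos (π / 4) * cos (π / 4) = 1 := by
    linear_combination sin_sq_add_cos_sq (π / 4) - (sin (π / 4) + cos (π / 4)) * c1
  obtain ⟨A, hA, B, hB, e⟩ := rot2 hG hR (g := g.symm) (by
    have := dt_mul g g.symm
    rwa [show g * g.symm = 1 from mul_inv_cancel g, dt_one, show dt g = 1 from g1, one_mul,
      eq_comm] at this) (N.Θ_mem 0 hZ) hZ
  obtain ⟨M, hM⟩ := hol hS 0 (N.mono hA fun y hy => by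
      simp only [mem_ofPred_eq, g.symm_symm, g2, rf_self, rf_n hn, Rm_zero_apply hn, inner_Rm hn,
        cos_neg, sin_neg, c1, abs_lt] at hy ⊢
      nlinarith [hy.2]) (N.mono hB fun y hy => by
      simp only [Hs, mem_ofPred_eq, g.symm_symm, g2, Rm_zero_apply hn, inner_Rm hn,
        cos_neg, sin_neg, c1, abs_lt] at hy ⊢
      nlinarith [hy.1])
  refine ⟨M, fun q hq => ((hM (-(2 * cos (π / 4) * q) • n) (by simp [hn.1])).scale
    (mul_pos two_pos c0)).congr (fun p hp => ?_) le_rfl⟩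
  rw [e _ (disjoint_left.2 fun y a b => by
    simp only [mem_ofPred_eq, rf_self, PiLp.sub_apply, v0 hn] at a b
    linarith [(abs_nonneg _).trans_lt a, (abs_nonneg _).trans_lt b])]
  congr 4
  rw [eq_comm, g.symm_apply_eq, g2, act_Rm, ← smul_e0, v0 hn, vn hn, cos_neg, sin_neg, c1]
  match_scalars
  · linear_combination -(p + q) * c2
  · linear_combination (q - p) * c2

end D

/-- the bound for words in the supremum norm -/
def BdW (x : V → (R4 → ℝ) → P) (W : P →ₗ[ℂ] ℂ) : Prop :=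
  ∀ k (c : Fin k → V) (K : Fin k → Set R4), (∀ i, IsCompact (K i)) →
    (Pairwise fun i j => Disjoint (K i) (K j)) → ∃ C : ℝ, ∀ (g : Fin k → R4 → ℝ) (b : Fin k → ℝ),
      (∀ i, C1 (K i) (g i) ∧ ∀ y, |g i y| ≤ b i) → ‖W (∏ i, x (c i) (g i))‖ ≤ C * ∏ i, b i

theorem BdW.shift (hB : BdW x W) (hG : Gen N x θ) (hL : LinF N x W) {k : ℕ} (c : Fin k → V)
    {f : Fin k → R4 → ℝ} (hf : Adm f) :
    ContinuousAt (fun u : Fin k → R4 => W (∏ i, x (c i) fun y => f i (y - u i))) 0 := by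
  obtain ⟨D, q, -, e2, e3⟩ := hf.data
  obtain ⟨δ, δ0, hδ⟩ : ∃ δ : ℝ, 0 < δ ∧ 2 * δ < 1 / (q + 1 : ℝ) :=
    ⟨1 / (q + 1) / 3, by positivity, by linarith [show 0 < 1 / (q + 1 : ℝ) by positivity]⟩
  let K := fun i => Metric.closedBall (0 : R4) δ + tsupport (f i)
  have hK : Pairwise fun i j => Disjoint (K i) (K j) := fun i j e => disjoint_left.2 (by
    rintro _ ⟨u, h1, y, h2, rfl⟩ ⟨u', h3, y', h4, h5⟩
    have := e3 i j e y h2 y' h4
    rw [dist_eq_norm, show y - y' = u' - u by linear_combination (norm := module) -h5] at this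
    linarith [norm_sub_le u' u, mem_closedBall_zero_iff.1 h1, mem_closedBall_zero_iff.1 h3])
  have m : ∀ u : Fin k → R4, ‖u‖ ≤ δ → ∀ i, C1 (K i) fun y => f i (y - u i) := fun u hu i =>
    ⟨((adm_sub hf (u i)).1 i).1, ((adm_sub hf (u i)).1 i).2, fun y hy =>
      ⟨u i, mem_closedBall_zero_iff.2 ((norm_le_pi_norm u i).trans hu), y - u i,
        tsupport_comp (θ := fun y => y - u i) (by fun_prop) hy, add_sub_cancel _ _⟩⟩
  obtain ⟨C, hC⟩ := hB k c K (fun i => (isCompact_closedBall _ _).add (hf.1 i).1) hK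
  refine tendsto_iff_norm_sub_tendsto_zero.2 (squeeze_zero' (.of_forall fun _ => norm_nonneg _)
    (g := fun u => ∑ z ∈ Finset.univ.erase fun _ : Fin k => false,
      C * ∏ i, D * bif z i then ‖u‖ else 1) ?_ (Continuous.tendsto' ?_ _ _ ?_))
  · filter_upwards [Metric.closedBall_mem_nhds 0 δ0] with u hu
    have m0 := m 0 (by simpa using δ0.le)
    obtain ⟨d1, d2⟩ := lin_diff hL hG c hK (m u (mem_closedBall_zero_iff.1 hu)) m0 (N.one _)
    simp only [mul_one, map_sub] at d2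
    refine d2 ▸ norm_sum_le_of_le _ fun z _ => hC _ _ fun i => ?_
    cases z i
    · exact ⟨m0 i, fun y => by simpa using (e2 i).2 y⟩
    · refine ⟨d1 i, fun y => ((e2 i).1.dist_le_mul (y - u i) (y - 0)).trans ?_⟩
      simpa [dist_eq_norm] using mul_le_mul_of_nonneg_left (norm_le_pi_norm u i) D.cast_nonneg
  · refine continuous_finsetSum _ fun z _ => continuous_const.mul
      (continuous_finsetProd _ fun i _ => ?_)
    cases z i <;> simp only [cond_true, cond_false] <;> fun_prop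
  · refine Finset.sum_eq_zero fun z hz => ?_
    obtain ⟨j, hj⟩ := Function.ne_iff.1 (Finset.ne_of_mem_erase hz)
    rw [Finset.prod_eq_zero (Finset.mem_univ j) (by simp [eq_true_of_ne_false hj]), mul_zero]

variable {H : Type} [NormedAddCommGroup H] [InnerProductSpace ℂ H] [CompleteSpace H]

/-- the semigroup of the translations -/
theorem sg_of (hG : Gen N x θ) (hS : N.St W) (hL : LinF N x W) (hB : BdW x W) (r : N.Rep W 0 H) :
    Sg r.T := by
  obtain ⟨q1, q2, q3, -⟩ := r.semi hS (hG.loc _) (by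
    rintro _ ⟨k, f, q, f1, f2, rfl⟩ s hs
    choose c e using fun i => (f2 i).2
    obtain rfl : (fun i => x (c i) (f i)) = q := funext e
    have a := (adm_rf f1 0).append (adm_sub f1 s) fun i j => disjoint_left.2 fun y h h' => by
      have h1 := (f2 i).1 (tsupport_comp (rfL_eq 0 ▸ (rfL 0).continuous) h)
      have h2 := (f2 j).1 (tsupport_comp (θ := fun y => y - s) (by fun_prop) h')
      simp only [Hs, mem_ofPred_eq, rf_self, PiLp.sub_apply] at h1 h2
      linarith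
    refine ((hB.shift hG hL (Fin.append (fun i => θ 0 (c i)) c) a).comp_of_eq
      (f := fun v : R4 => Fin.append (fun _ => 0) fun _ => v - s) (continuousAt_pi.2 fun i => ?_)
      (funext fun i => ?_)).congr (.of_forall fun v => ?_)
    · induction i using Fin.addCases <;> simp only [Fin.append_left, Fin.append_right] <;> fun_prop
    · induction i using Fin.addCases <;>
        simp only [Fin.append_left, Fin.append_right, sub_self, Pi.zero_apply]
    · simp only [Θ_word hG, τ_word hG, Fin.prod_univ_add, comp_apply, Fin.append_left,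
        Fin.append_right, sub_zero, sub_sub, sub_add_cancel])
  exact ⟨q1, fun _ => r.nrm, fun v w a b => q2 v a w b, fun _ => r.adj hS, q3⟩

open B0 in
/-- the cone condition from rotation covariance -/
theorem cone_of (hG : Gen N x θ) (hS : N.St W) (hR : RotL x W ρ) (r : N.Rep W 0 H) (hT : Sg r.T) :
    ConeH r.T := fun n hn ϑ hθ t ht u => by
  have p : ∀ {t : ℝ} (s : ℝ), 0 ≤ t → 0 ≤ (t • e0 + s • n) 0 := fun s ht =>
    ht.trans_eq (v0 hn _ s).symm
  obtain ⟨A, a1, a2, a3⟩ := S10.cone (T := fun t s => r.T (t • e0 + s • n))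
    (fun t ht s => r.nrm (p s ht))
    (fun t ht t' ht' s s' => by
      rw [← hT.mul _ _ (p s ht) (p s' ht'), add_add_add_comm, add_smul, add_smul, add_add_add_comm])
    (fun t ht s x y => by
      rw [hT.adj _ (p s ht)]
      refine congrArg (fun v => inner ℂ x (r.T v y)) ?_
      ext i
      by_cases i0 : i = 0 <;> simp [i0, hn.1, rf_ne, e0_ne])
    (D := range fun X : N.loc (Hs 0 0) => r.Ψ X) r.dense
    (fun a _ => by
      simpa [hT.zero, Function.comp_def] using (((hT.cont a).comp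
        (f := fun t : ℝ => t • e0 + (0 : ℝ) • n) (s := Ici 0) (by fun_prop) fun _ => p 0) 0
        self_mem_Ici).tendsto.mono_left (nhdsWithin_mono _ Ioi_subset_Ici_self))
    ((N.loc {y | |inner ℝ n y| < y 0}).map r.Ψ)
    (by
      rintro _ ⟨⟨X, hX⟩, rfl⟩
      obtain ⟨R, hR⟩ := N.bdd hX
      filter_upwards [eventually_ge_atTop (2 * R), eventually_ge_atTop 0] with t ht t0
      refine ⟨_, N.mono (N.τ_mem (t • e0 + (0 : ℝ) • n) hR) fun y hy => ?_,
        (r.act (p 0 t0) hX).symm⟩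
      have e1 : 0 < (y - (t • e0 + (0 : ℝ) • n)) 0 := hy.1
      have e2 := abs_real_inner_le_norm n (y - (t • e0 + (0 : ℝ) • n))
      have e3 : ‖y - (t • e0 + (0 : ℝ) • n)‖ ≤ 2 * R := by
        have h := fun l => sq_lt_sq' (abs_lt.1 (hy.2 l)).1 (abs_lt.1 (hy.2 l)).2
        refine le_of_sq_le_sq ?_ (by linarith [(abs_nonneg _).trans_lt (hy.2 0)])
        rw [EuclideanSpace.real_norm_sq_eq, Fin.sum_univ_four]
        linarith [h 0, h 1, h 2, h 3]
      rw [PiLp.sub_apply, v0 hn] at e1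
      rw [inner_sub_right, vn hn, sub_zero, hn.2] at e2
      change |inner ℝ n y| < y 0
      linarith)
    (by
      rintro _ ⟨Z, hZ, rfl⟩
      have hZ' : Z ∈ N.loc (Hs 0 0) := N.mono hZ fun y hy =>
        (abs_nonneg (inner ℝ n y)).trans_lt hy
      obtain ⟨M, m⟩ := D.one hG hS hR hn hZ
      obtain ⟨M', m'⟩ := D.one (n := -n) (Z := Z) hG hS hR ⟨by simp [hn.1], by simp [hn.2]⟩
        (by simpa using hZ)
      have e : ∀ a b : ℝ, 0 < a → 0 < b →
          W (N.Θ 0 Z * N.τ ((a + b) • e0 + (a - b) • n) Z) =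
          inner ℂ (r.Ψ Z) (r.T ((a + b) • e0 + (a - b) • n) (r.Ψ Z)) := fun a b ha hb => by
        have := p (a - b) (add_pos ha hb).le
        rw [r.act this hZ', r.inn hZ' (Net.τ_hs hZ' (by rwa [zero_add]))]
      refine ⟨max M M', fun b hb => (m b hb).congr (fun a ha => e a b ha hb) (le_max_left _ _),
        fun a ha => (m' a ha).congr (fun b hb => ?_) (le_max_right _ _)⟩
      rw [← e a b ha hb, add_comm b, smul_neg, ← neg_smul, neg_sub]) hθ.1 hθ.2
  exact ⟨fun s => inner ℂ u (A (t, s) u), (innerSL ℂ u).differentiable.comp_differentiableOn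
    ((a1.comp (f := fun s => ((t : ℂ), s)) (by fun_prop) fun s hs => hs).clm_apply
      (differentiableOn_const u)),
    fun s hs => (norm_inner_le_norm _ _).trans ((sq ‖u‖).symm ▸ mul_le_mul_of_nonneg_left
      (((A _).le_of_opNorm_le (a2 _ hs) u).trans_eq (one_mul _)) (norm_nonneg _)),
    fun s => by simp only [a3 t s ht]⟩

/-- the representation with all properties needed for the reconstruction -/
theorem rep_of (hG : Gen N x θ) (hS : N.St W) (hL : LinF N x W) (hB : BdW x W) (hR : RotL x W ρ)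
    (hV : N.Vac W) : ∃ (H : Type) (_ : NormedAddCommGroup H) (_ : InnerProductSpace ℂ H)
      (_ : CompleteSpace H) (r : N.Rep W 0 H), Sg r.T ∧ ConeH r.T ∧
        ∀ y, (∀ v : R4, 0 ≤ v 0 → r.T v y = y) → ∃ c : ℂ, y = c • r.Ψ 1 := by
  choose H i1 i2 i3 r using hS.exists_rep
  have s := sg_of hG hS hL hB (r 0).some
  exact ⟨H 0, _, _, i3 0, (r 0).some, s, cone_of hG hS hR _ s,
    fun y hy => ⟨_, hV H (fun ν => (r ν).some) y hy⟩⟩

/-- the Wightman axioms for a net of fields with labels -/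
theorem wight {V : Type} [AddCommGroup V] [Module ℂ V] [InvolutiveStar V] {ρ : CM → V → V}
    {x : V → (R4 → ℝ) → P} {c₀ : V} {W₀ : Pol →ₗ[ℂ] ℂ} {γ κ : ℝ} (hρ : Rq ρ)
    (h : Ax N x W (tE ρ) (rE ρ)) (hB : BdW x W) (hV : N.Vac W) (hc : tE ρ 0 c₀ = c₀)
    (h0 : ∀ k (f : Fin k → R4 → ℝ), Adm f → W (∏ i, x c₀ (f i)) = W₀ (mon f))
    (hγ : γ ≠ 0) (hκ : κ ≠ 0) (h2 : ∀ y : Fin 2 → R4, y 0 ≠ y 1 → free y = κ / ‖y 0 - y 1‖ ^ 8)
    (af : ∀ k (f : Fin k → R4 → ℝ), Adm f →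
      Tendsto (fun d : ℝ => (Real.log d⁻¹ : ℂ) ^ k * W₀ (mon fun i y => f i (d⁻¹ • y))) (𝓝[>] 0)
        (𝓝 (γ ^ k * ∫ y : Fin k → R4, (∏ i, f i (y i)) * free y : ℝ))) :
    WA.WightmanL (fun L => ρ (L.map (↑))) (ρ (Matrix.diagonal ![Complex.I, 1, 1, 1])) (fun _ => Adm)
      fun _ a f => W (∏ i, x (a i) (f i)) :=
  let ⟨_, _, _, _, r, r1, r2, r3⟩ := rep_of h.gen h.st h.lin hB h.rot hV
  core_inf hρ h r r1 r2 r3 hc h0 hγ hκ h2 af

end Pool.Agent.Lib.MP_7f377f_mp.Wx
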