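import Pool.Agent.Lib.MP_7f377f_mp.G.WxB

/-! Operator bounds for words of good elements. -/

noncomputable section

namespace Pool.Agent.Lib.MP_7f377f_mp.Wx
variable [Pool.Agent.Lib.MP_7f377f_mp.GD]
set_option linter.unusedSectionVars false

open Filter Topology Set YM7 Pur Lg Wm Lm Wv Function

variable {P : Type} [CommRing P] [Algebra ℂ P] (N : Net P) (S : P →ₗ[ℂ] ℂ) {k : ℕ}

/-- `G z B X`: the element `X` of size `h` at the position `z` has the weight `B` -/
structure Gd (h : ℝ) (G : R4 → ℝ → P → Prop) : Prop where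
  pos : ∀ {z B X}, G z B X → 0 ≤ B
  loc : ∀ {z B X}, G z B X → X ∈ N.loc {y | ∀ l, |y l - z l| < 50 * h}
  refl : ∀ {z B X} μ, G z B X → G (rf μ z) B (N.Θ μ X)
  tau : ∀ {z B X} v, G z B X → G (z + v) B (N.τ v X)
  prod : ∀ k (z : Fin k → R4) (B : Fin k → ℝ) (X : Fin k → P), (∀ i, G (z i) (B i) (X i)) →
    (∀ i j l, |z i l - z j l| ≤ h ∨ 100 * h ≤ |z i l - z j l|) →
    (∀ i j, i ≠ j → ∃ l, 100 * h ≤ |z i l - z j l|) → ‖S (∏ i, X i)‖ ≤ ∏ i, B i

/-- fields for test functions in `K`, localised in `O` -/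
structure Fl (K O : Set R4) (Y : (R4 → ℝ) → P) : Prop where
  mem : ∀ g, C1 K g → Y g ∈ N.loc O
  lin : ∀ g g' (t : ℝ), C1 K g → C1 K g' → ∀ Z ∈ N.loc Oᶜ,
    S (Y (g + t • g') * Z) = S (Y g * Z) + t * S (Y g' * Z)

/-- the field `Y` is good at the scale `h` -/
def Gf (G : R4 → ℝ → P → Prop) (h : ℝ) (K : Set R4) (B : ℝ) (Y : (R4 → ℝ) → P) : Prop :=
  ∀ z g, C1 K g → g ≠ 0 → (∀ y, |g y| ≤ 1 ∧ (g y ≠ 0 → ∀ l, |y l - z l| ≤ h)) → G z B (Y g)

variable {N S} {h : ℝ} {G : R4 → ℝ → P → Prop}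

theorem tw_rf (e : Fin 4 → Bool) (y : R4) (l : Fin 4) : tw rf e y l = bif e l then y l else -y l := by
  have : ∀ μ b (y : R4) l, pw (rf μ) b y l = if l = μ then bif b then y l else -y l else y l :=
    fun μ b y l => by cases b <;> by_cases e : l = μ <;> simp [pw, e, rf_ne]
  fin_cases l <;> simp [tw, this]

theorem Gd.tw (hG : Gd N S h G) (e : Fin 4 → Bool) {z B X} (a : G z B X) :
    G (tw rf e z) B (tw (fun μ => N.Θ μ) e X) := by
  have : ∀ μ b {z X}, G z B X → G (pw (rf μ) b z) B (pw (N.Θ μ) b X) := fun μ b z X a => by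
    cases b
    exacts [hG.refl μ a, a]
  exact this _ _ (this _ _ (this _ _ (this _ _ a)))

theorem tw_prod (e : Fin 4 → Bool) (X : Fin k → P) :
    tw (fun μ => N.Θ μ) e (∏ i, X i) = ∏ i, tw (fun μ => N.Θ μ) e (X i) := by
  have : ∀ μ b (X : Fin k → P), pw (N.Θ μ) b (∏ i, X i) = ∏ i, pw (N.Θ μ) b (X i) :=
    fun μ b X => by cases b <;> simp [pw]
  simp only [tw, this]

theorem Gd.cell (hG : Gd N S h G) (hS : N.St S) {w : ℝ} (w0 : 0 < w) {z : Fin k → R4}
    {B : Fin k → ℝ} {X : Fin k → P} (g : ∀ i, G (z i) (B i) (X i))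
    (z1 : ∀ i j l, |z i l - z j l| ≤ h ∨ 100 * h ≤ |z i l - z j l|)
    (z2 : ∀ i j, i ≠ j → ∃ l, 100 * h ≤ |z i l - z j l|)
    (z3 : ∀ i l, 50 * h ≤ z i l ∧ z i l ≤ w - 50 * h) :
    N.QB S (∏ i, X i) (2 * w) (∏ i, B i) := by
  let v : (Fin 4 → ℤ) → R4 := fun a => WithLp.toLp 2 fun l => if Even (a l) then a l * w else (a l + 1) * w
  let Z : (Fin 4 → ℤ) → Fin k → R4 := fun a i => Wx.tw rf (fun l => Even (a l)) (z i) + v a
  have d1 := fun a i => hG.tau (v a) (hG.tw (fun l => Even (a l)) (g i))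
  have d2 : ∀ a i l, a l * w + 50 * h ≤ Z a i l ∧ Z a i l ≤ (a l + 1) * w - 50 * h := fun a i l => by
    by_cases e : Even (a l) <;> simp only [Z, v, PiLp.add_apply, tw_rf, e, if_true, if_false,
      decide_true, decide_false, cond_true, cond_false] <;>
        constructor <;> linarith [(z3 i l).1, (z3 i l).2]
  have d3 : ∀ a a' i j l, a l = a' l → |Z a i l - Z a' j l| = |z i l - z j l| :=
    fun a a' i j l e => by
      by_cases e' : Even (a l) <;> simp [Z, v, tw_rf, ← e, e', abs_sub_comm, neg_add_eq_sub]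
  have d4 : ∀ a a' i j l, a l ≠ a' l → 100 * h ≤ |Z a i l - Z a' j l| := fun a a' i j l e => by
    have e1 := d2 a i l
    have e2 := d2 a' j l
    rw [le_abs]
    rcases lt_or_gt_of_ne e with u | u
    · have : (a l + 1 : ℝ) ≤ a' l := by exact_mod_cast u
      exact .inr (by nlinarith [e1.2, e2.1])
    · have : (a' l + 1 : ℝ) ≤ a l := by exact_mod_cast u
      exact .inl (by nlinarith [e1.1, e2.2])
  have d5 : ∀ a a' i j, (a, i) ≠ (a', j) → ∃ l, 100 * h ≤ |Z a i l - Z a' j l| :=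
    fun a a' i j e => by
      by_cases u : a = a'
      · exact (z2 i j fun v => e (Prod.ext u v)).imp fun l v => by rwa [d3 _ _ _ _ _ (congrFun u l)]
      · exact (Function.ne_iff.1 u).imp fun l => d4 _ _ _ _ l
  have := Net.qb_of_arr hS w0 (η := ∏ i, B i) (Finset.prod_nonneg fun i _ => hG.pos (g i))
    (fun a => N.τ (v a) (Wx.tw (fun μ => N.Θ μ) (fun l => Even (a l)) (∏ i, X i))) (fun a => ?_)
    (fun μ a => ?_) (fun μ a => ?_) fun lo hi => ?_
  · simpa [v, Wx.tw, pw, show (WithLp.toLp 2 fun _ => 0 : R4) = 0 from rfl, N.τ_zero] using this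
  · rw [tw_prod, map_prod]
    refine prod_mem (fun i => hG.loc (d1 a i)) (fun i j u => disjoint_left.2 fun y e e' => ?_)
      fun i y hy l => ?_
    · obtain ⟨l, hl⟩ := d5 a a i j (by simpa using u)
      linarith [abs_sub_le (Z a i l) (y l) (Z a j l), abs_sub_comm (Z a i l) (y l), e l, e' l]
    · have := abs_lt.1 (hy l)
      constructor <;> linarith [this.1, this.2, (d2 a i l).1, (d2 a i l).2]
  · rw [N.Θ_τ, θ_tw (θ := fun μ => N.Θ μ) ⟨N.Θ_Θ, N.Θ_comm⟩]
    congr 2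
    · ext l
      by_cases e : l = μ
      · by_cases e' : Even (a μ) <;> simp [v, e, e', ← Int.not_even_iff_odd, Int.even_sub_one] <;> ring
      · simp [v, e, rf_ne]
    · funext l
      by_cases e : l = μ <;> simp [e, ← Int.not_even_iff_odd, Int.even_sub_one]
  · rw [N.τ_τ]
    congr 2
    · ext l
      by_cases e : l = μ
      · by_cases e' : Even (a μ) <;> simp [v, e, e', Int.even_add] <;> ring
      · simp [v, e]
    · funext l
      by_cases e : l = μ <;> simp [e, Int.even_add]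
  · let ψ := (Fintype.equivFin (cells lo hi × Fin k)).symm
    simp only [tw_prod, map_prod]
    rw [← Finset.prod_coe_sort, ← Fintype.prod_prod_type', ← ψ.prod_comp]
    refine (hG.prod _ (fun j => Z (ψ j).1 (ψ j).2) (fun j => B (ψ j).2) _ (fun j => d1 _ _)
      (fun j j' l => ?_) fun j j' u => d5 _ _ _ _ fun v => u (ψ.injective
        (Prod.ext (Subtype.ext (Prod.ext_iff.1 v).1) (Prod.ext_iff.1 v).2))).trans_eq ?_
    · by_cases u : (ψ j).1.1 l = (ψ j').1.1 l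
      · exact d3 _ _ _ _ _ u ▸ z1 _ _ l
      · exact .inr (d4 _ _ _ _ l u)
    · rw [ψ.prod_comp fun p => B p.2, Fintype.prod_prod_type]
      simp

/-- replacement of the factors of a product -/
theorem repl {O : Fin k → Set R4} (hO : Pairwise fun i j => Disjoint (O i) (O j)) {X Y : Fin k → P}
    (hX : ∀ i, X i ∈ N.loc (O i)) (hY : ∀ i, Y i ∈ N.loc (O i))
    (e : ∀ i, ∀ Z ∈ N.loc (O i)ᶜ, S (X i * Z) = S (Y i * Z)) {Z : P} (hZ : Z ∈ N.loc (⋃ i, O i)ᶜ) :
    S ((∏ i, X i) * Z) = S ((∏ i, Y i) * Z) := by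
  have : ∀ s : Finset (Fin k), S ((∏ i, s.piecewise Y X i) * Z) = S ((∏ i, X i) * Z) := fun s => by
    induction s using Finset.induction_on with
    | empty => simp
    | insert a s ha ih =>
      have m := prod_mem (N := N) (U := update O a ∅) (X := update (s.piecewise Y X) a 1)
        (O := (O a)ᶜ ∩ ⋃ i, O i) (fun j => by
          by_cases e : j = a
          · simpa [e] using N.one _
          · by_cases e' : j ∈ s <;> simp [e, e', hX, hY]) (fun i j e => by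
          by_cases e1 : i = a <;> by_cases e2 : j = a <;> simp [e1, e2, hO e]) fun j => by
          by_cases e : j = a
          · simp [e]
          · simpa [e] using ⟨(hO e).subset_compl_right, subset_iUnion O j⟩
      rw [Finset.prod_update_of_mem (Finset.mem_univ a), one_mul] at m
      rw [← ih, Finset.piecewise_insert, Finset.prod_update_of_mem (Finset.mem_univ a),
        Finset.prod_eq_mul_prod_diff_singleton_of_mem (Finset.mem_univ a),
        Finset.piecewise_eq_of_notMem _ _ _ ha, mul_assoc, mul_assoc]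
      exact (e a _ (N.mono (N.mul m hZ (disjoint_compl_right.mono_left inter_subset_right))
        (union_subset inter_subset_left (compl_subset_compl.2 (subset_iUnion O a))))).symm
  simpa using (this Finset.univ).symm

theorem Fl.sum {K O : Set R4} {Y : (R4 → ℝ) → P} (hY : Fl N S K O Y) {I : Type} (s : Finset I)
    {g : I → R4 → ℝ} (hg : ∀ z, C1 K (g z)) (c : ℝ) {Z : P} (hZ : Z ∈ N.loc Oᶜ) :
    S (Y (∑ z ∈ s, c • g z) * Z) = S ((∑ z ∈ s, (c : ℂ) • Y (g z)) * Z) := by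
  classical
  induction s using Finset.induction_on with
  | empty => simpa using hY.lin 0 0 1 (PN.Gd.zero K) (PN.Gd.zero K) Z hZ
  | insert a s ha ih =>
    rw [Finset.sum_insert ha, Finset.sum_insert ha, add_comm,
      hY.lin _ _ _ (PN.Gd.sum s hg fun _ => c) (hg a) Z hZ, ih]
    simp [add_mul, add_comm]

/-- operator bounds for words of good fields -/
theorem qb_good (hS : N.St S) (K : Fin k → Set R4) (hK : ∀ i, IsCompact (K i))
    (hd : Pairwise fun i j => Disjoint (K i) (K j)) :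
    ∃ H : Finset ℝ, (∀ h ∈ H, h ∈ Ioc (0 : ℝ) 1) ∧ ∃ M : ℝ, 0 ≤ M ∧ ∀ᶠ R in atTop,
      ∀ G : ℝ → R4 → ℝ → P → Prop, (∀ h ∈ H, Gd N S h (G h)) → ∀ O : Fin k → Set R4,
      (Pairwise fun i j => Disjoint (O i) (O j)) → (∀ i, O i ⊆ Bx R) →
      ∀ (Y : Fin k → (R4 → ℝ) → P) (B : Fin k → ℝ), (∀ i, 0 ≤ B i) →
      (∀ i, Fl N S (K i) (O i) (Y i)) → (∀ h ∈ H, ∀ i, Gf (G h) h (K i) (B i) (Y i)) →
      ∀ (g : Fin k → R4 → ℝ) (b : Fin k → ℝ), (∀ i, C1 (K i) (g i) ∧ ∀ y, |g i y| ≤ b i) →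
        N.QB S (∏ i, Y i (g i)) R (M * ∏ i, B i * b i) := by
  obtain ⟨δ, δ0, hδ⟩ := (isCompact_iUnion fun p : {p : Fin k × Fin k // p.1 ≠ p.2} =>
    (hK p.1.1).prod (hK p.1.2)).exists_forall_le' (f := fun q => dist q.1 q.2) (a := 0)
    (by fun_prop) fun q hq => by
      obtain ⟨p, h1, h2⟩ := mem_iUnion.1 hq
      exact dist_pos.2 fun e => disjoint_left.1 (hd p.2) h1 (e ▸ h2)
  obtain ⟨r, hr⟩ := (isCompact_iUnion hK).isBounded.exists_norm_le
  obtain ⟨c, c0, c1, c2⟩ : ∃ c > (0 : ℝ), c ≤ 1 ∧ 7 * c ≤ δ :=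
    ⟨min 1 (δ / 7), by positivity, min_le_left _ _, by linarith [min_le_right 1 (δ / 7)]⟩
  obtain ⟨n, hn⟩ : ∃ n, n = Fintype.card (Fin k × Fin k × Fin 4) := ⟨_, rfl⟩
  obtain ⟨η, η0, η1⟩ : ∃ η > (0 : ℝ), ∀ m ≤ n, η ≤ c / 100 ^ m :=
    ⟨c / 100 ^ n, by positivity, fun m hm => by gcongr; norm_num⟩
  have η2 : ∀ m : ℕ, c / 100 ^ m ≤ c := fun m => div_le_self c0.le (one_le_pow₀ (by norm_num))
  obtain ⟨D, hD⟩ := exists_nat_ge (r / η)
  rw [div_le_iff₀' η0] at hD
  refine ⟨(Finset.range (n + 1)).image (c / 100 ^ ·), fun h hh => ?_,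
    Fintype.card (Fin k → Fin 4 → Fin (2 * D + 1)), by positivity,
    (eventually_ge_atTop (2 * (2 * (η * D + 50)) + ‖dg (η * D + 50)‖)).mono
    fun R hR G hG O o1 o2 Y B B0 hY hP g b hg => ?_⟩
  · obtain ⟨m, -, rfl⟩ := Finset.mem_image.1 hh
    exact ⟨by positivity, (η2 m).trans c1⟩
  have R0 : 0 ≤ R := le_trans (by positivity) hR
  obtain ⟨p, hp⟩ : ∃ p : Fin k → (Fin 4 → Fin (2 * D + 1)) → R4 → ℝ, ∀ i z y, p i z y =
    (b i)⁻¹ * (bumpS η (fun l => z l - D) y * g i y) := ⟨_, fun _ _ _ => rfl⟩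
  have p0 : ∀ i z y, p i z y ≠ 0 → bumpS η (fun l => z l - D) y ≠ 0 ∧ g i y ≠ 0 :=
    fun i z y hy => mul_ne_zero_iff.1 (right_ne_zero_of_mul (hp i z y ▸ hy :))
  have p1 : ∀ i z y, p i z y ≠ 0 → y ∈ K i := fun i z y hy =>
    (hg i).1.2.2 (subset_tsupport _ (p0 i z y hy).2)
  have p2 : ∀ i z, C1 (K i) (p i z) := fun i z =>
    ⟨(hg i).1.1.mono fun y hy => (p0 i z y hy).2, funext (hp i z) ▸ contDiff_const.mul
      ((bumpS_smooth _ _).mul (hg i).1.2.1), closure_minimal (p1 i z) (hK i).isClosed⟩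
  have b0 : ∀ i, 0 ≤ b i := fun i => (abs_nonneg _).trans ((hg i).2 0)
  have p3 : ∀ i, g i = ∑ z, b i • p i z := fun i => by
    funext y
    by_cases e1 : g i y = 0
    · simp [hp, e1]
    · have e2 : b i ≠ 0 := fun u => e1 (by simpa [u] using (hg i).2 y)
      simp only [Finset.sum_apply, Pi.smul_apply, hp, smul_eq_mul, mul_inv_cancel_left₀ e2,
        ← Finset.sum_mul]
      rw [sum_bumpS η0 fun l => ((PiLp.norm_apply_le y l).trans
        (hr y (mem_iUnion.2 ⟨i, (hg i).1.2.2 (subset_tsupport _ e1)⟩))).trans hD, one_mul]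
  have nul : ∀ {X X' : Fin k → P}, (∀ i, X i ∈ N.loc (O i)) → (∀ i, X' i ∈ N.loc (O i)) →
      (∀ i, ∀ Z ∈ N.loc (O i)ᶜ, S (X i * Z) = S (X' i * Z)) → ∀ {c}, N.QB S (∏ i, X' i) R c →
        N.QB S (∏ i, X i) R c := fun hX hX' e c q => by
    simpa using (Net.qb_null (sub_mem (prod_mem hX o1 o2) q.1) R0 hS fun Z hZ => by
      rw [sub_mul, map_sub, repl o1 hX hX' e (N.mono hZ (compl_subset_compl.2 (iUnion_subset o2))),
        sub_self]).add hS q
  refine nul (fun i => (hY i).mem _ (hg i).1) (fun i => Submodule.sum_mem _ (t := Finset.univ)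
    fun z _ => Submodule.smul_mem _ (b i : ℂ) ((hY i).mem _ (p2 i z)))
    (fun i Z hZ => by rw [p3 i, (hY i).sum _ (p2 i) _ hZ]) ?_
  rw [Finset.prod_univ_sum, Fintype.piFinset_univ]
  refine (Net.QB.sum hS Finset.univ R0 (c := fun _ => ∏ i, B i * b i) fun z _ => ?_).mono hS
    le_rfl (by simp)
  suffices N.QB S (∏ i, Y i (p i (z i))) R (∏ i, B i) by
    convert this.smul (∏ i, b i : ℂ) using 1
    · simp [Finset.prod_mul_distrib, Algebra.smul_def]
    · simp [Finset.prod_mul_distrib, abs_of_nonneg (b0 _), mul_comm]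
  by_cases h0 : ∃ i, p i (z i) = 0
  · obtain ⟨i, hi⟩ := h0
    have m := fun j => (hY j).mem _ (p2 j (z j))
    refine nul m (X' := update (fun j => Y j (p j (z j))) i 0) (fun j => ?_) (fun j Z hZ => ?_) ?_
    · by_cases e : j = i <;> simp [e, m]
    · by_cases e : j = i
      · subst e
        simpa [hi] using (hY j).lin 0 0 1 (PN.Gd.zero _) (PN.Gd.zero _) Z hZ
      · simp [e]
    · rw [Finset.prod_eq_zero (Finset.mem_univ i) (update_self _ _ _)]
      exact (Net.QB.zero R0).mono hS le_rfl (Finset.prod_nonneg fun i _ => B0 i)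
  obtain ⟨Z, hZ⟩ : ∃ Z : Fin k → R4, ∀ i l, Z i l = η * ((z i l : ℤ) - D : ℤ) :=
    ⟨fun i => WithLp.toLp 2 fun l => _, fun _ _ => rfl⟩
  have key : ∀ i y, p i (z i) y ≠ 0 → ∀ l, |y l - Z i l| ≤ η := fun i y hy l =>
    hZ i l ▸ bumpS_supp η0 (p0 _ _ y hy).1 l
  obtain ⟨m, m1, m2⟩ := gap (fun q : Fin k × Fin k × Fin 4 => |Z q.1 q.2.2 - Z q.2.1 q.2.2|) c0
  have e0 := η1 m (hn ▸ m1)
  have e1 := η2 m
  have m3 := Finset.mem_image_of_mem (c / 100 ^ ·) (Finset.mem_range_succ_iff.2 (hn ▸ m1))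
  replace hP := hP _ m3
  replace hG := hG _ m3
  generalize c / 100 ^ m = h at *
  simp only [not_exists] at h0
  have := (hG.cell hS (w := 2 * (η * D + 50)) (by positivity) (fun i => hG.tau (dg (η * D + 50))
    (hP i (Z i) _ (p2 i _) (h0 i) fun y => ⟨?_, fun hy l => (key i _ hy l).trans e0⟩))
    (fun i j l => ?_) (fun i j e => ?_) fun i l => ?_).tau hS (-dg (η * D + 50))
  · simp only [← map_prod, N.τ_τ, neg_add_cancel, N.τ_zero, norm_neg] at this
    exact this.mono hS hR le_rfl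
  · rw [hp, abs_mul, abs_mul, abs_of_nonneg (inv_nonneg.2 (b0 i))]
    exact (mul_le_mul_of_nonneg_left ((mul_le_of_le_one_left (abs_nonneg _) (abs_bumpS _ _ _)).trans
      ((hg i).2 _)) (inv_nonneg.2 (b0 i))).trans inv_mul_le_one
  · simpa using m2 (i, j, l)
  · simp only [PiLp.add_apply, dg_apply, add_sub_add_right_eq_sub]
    by_contra! hi
    obtain ⟨y, hy⟩ := Function.ne_iff.1 (h0 i)
    obtain ⟨y', hy'⟩ := Function.ne_iff.1 (h0 j)
    refine (hδ (_, _) (mem_iUnion.2 ⟨⟨(i, j), e⟩, p1 _ _ y hy, p1 _ _ y' hy'⟩)).not_gt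
      ((dist_le_two (w := 3 * h) fun l => ?_).trans_lt (by linarith))
    have e1 := abs_le.1 (key i y hy l)
    have e2 := abs_le.1 (key j y' hy' l)
    have e3 := abs_le.1 ((m2 (i, j, l)).resolve_right (hi l).not_ge)
    rw [abs_le]
    constructor <;> linarith [e1.1, e1.2, e2.1, e2.2, e3.1, e3.2]
  · have e2 : (0 : ℝ) ≤ z i l := by positivity
    have e3 : (z i l : ℝ) ≤ 2 * D := by exact_mod_cast Nat.lt_succ_iff.1 (z i l).2
    have e4 : |Z i l| ≤ η * D := by
      rw [hZ, abs_mul, abs_of_pos η0]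
      push_cast
      exact mul_le_mul_of_nonneg_left (abs_le.2 ⟨by linarith, by linarith⟩) η0.le
    simp only [PiLp.add_apply, dg_apply]
    constructor <;> nlinarith [abs_le.1 e4]

end Pool.Agent.Lib.MP_7f377f_mp.Wx
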