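import Pool.Agent.Lib.MP_7f377f_mp.G.WxG

/-! Riemann sums of local elements: definitions. -/

noncomputable section

namespace Pool.Agent.Lib.MP_7f377f_mp.Wx
variable [Pool.Agent.Lib.MP_7f377f_mp.GD]
set_option linter.unusedSectionVars false

open MeasureTheory Filter Topology Set YM7 Pur Lg Wm Lm Wv

/-- partitions of unity with marked points -/
structure Pa where
  δ : ℝ
  m : ℕ
  χ : Fin m → R4 → ℝ
  q : Fin m → R4

/-- partitions of unity on `K` -/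
structure Pa.Ok (d : Pa) (K : Set R4) : Prop where
  cont : ∀ i, Continuous (d.χ i)
  le : ∀ y, ∑ i, |d.χ i y| ≤ 1
  one : ∀ y ∈ K, ∑ i, d.χ i y = 1
  near : ∀ i y, d.χ i y ≠ 0 → dist y (d.q i) ≤ d.δ
  mem : ∀ i, d.q i ∈ K

/-- the mesh goes to zero -/
def pf (K : Set R4) : Filter Pa := comap Pa.δ (𝓝[>] 0) ⊓ 𝓟 {d | d.Ok K}

variable {V P : Type} [CommRing P] [Algebra ℂ P] (N : Net P) (x : V → (R4 → ℝ) → P)
  (S : P →ₗ[ℂ] ℂ)

/-- a Riemann sum of translates of `X` minus a field -/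
def fe (d : Pa) (X : P) (m : V) (f : R4 → ℝ) : P :=
  ∑ i, ((∫ y, f y * d.χ i y : ℝ) : ℂ) • N.τ (d.q i) X - x m f

/-- the smeared element `X s` is the field with the label `m s` up to good elements of weight `η s` -/
def MG (X : ℝ → P) (m : ℝ → V) (η : ℝ → ℝ) : Prop :=
  ∀ H : Finset ℝ, (∀ h ∈ H, h ∈ Ioc (0 : ℝ) 1) → ∀ A : Set V, A.Finite → ∃ w ≥ (0 : ℝ),
    ∀ᶠ s in 𝓝[>] (0 : ℝ), ∃ G : ℝ → R4 → ℝ → P → Prop,
      (∀ h ∈ H, Gd N S h (G h) ∧ ∀ c ∈ A, ∀ K, Gf (G h) h K w (x c)) ∧ ∀ K, IsCompact K →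
        ∀ ε > 0, ∀ᶠ d in pf K, ∀ h ∈ H, Gf (G h) h K (w * η s + ε) (fe N x d (X s) (m s))

variable {K : Set R4}

theorem pf_ev {p : ℝ → Prop} (h : ∀ᶠ δ in 𝓝[>] 0, p δ) : ∀ᶠ d in pf K, p d.δ ∧ d.Ok K :=
  eventually_inf_principal.2 ((tendsto_comap.eventually h).mono fun _ e e' => ⟨e, e'⟩)

theorem pf_ne (hK : IsCompact K) : (pf K).NeBot := by
  refine comap_inf_principal_neBot_of_image_mem inferInstance
    (mem_of_superset self_mem_nhdsWithin fun δ (δ0 : 0 < δ) => ?_)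
  obtain ⟨t, t1, t2⟩ := hK.elim_nhds_subcover (fun y => Metric.ball y δ)
    fun y _ => Metric.ball_mem_nhds y δ0
  let e := t.equivFin.symm
  obtain ⟨χ, hχ⟩ := PartitionOfUnity.exists_isSubordinate hK.isClosed
    (fun i => Metric.ball (e i : R4) δ) (fun _ => Metric.isOpen_ball) fun y hy => by
      obtain ⟨z, hz, hy⟩ := mem_iUnion₂.1 (t2 hy)
      exact mem_iUnion.2 ⟨e.symm ⟨z, hz⟩, by simpa using hy⟩
  refine ⟨⟨δ, _, fun i => χ i, fun i => e i⟩, ⟨fun i => (χ i).continuous, fun y => ?_,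
    fun y hy => ?_, fun i y hy => (hχ i (subset_tsupport _ hy)).le, fun i => t1 _ (e i).2⟩, rfl⟩
  · simpa only [abs_of_nonneg (χ.nonneg _ _), finsum_eq_sum_of_fintype] using χ.sum_le_one y
  · simpa only [finsum_eq_sum_of_fintype] using χ.sum_eq_one hy

end Pool.Agent.Lib.MP_7f377f_mp.Wx
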