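import Pool.Agent.Lib.MP_7f377f_mp.G.WxM0
import Pool.Agent.Lib.MP_7f377f_mp.G.WxD

/-! Small clusters of fields. -/

noncomputable section

namespace Pool.Agent.Lib.MP_7f377f_mp.Wx
variable [Pool.Agent.Lib.MP_7f377f_mp.GD]
set_option linter.unusedSectionVars false

open MeasureTheory Filter Topology Set YM7 Pur Lg Wm Lm Wv Asymptotics

variable {V P : Type} [CommRing P] [Algebra ℂ P] {N : Net P} {x : V → (R4 → ℝ) → P}
  {W : P →ₗ[ℂ] ℂ} {θ : Fin 4 → V → V} {k : ℕ} {Z : P}

theorem supp_cl {u : Fin k → R4 → ℝ} (hu : Adm u) {ρ : ℝ} (ρ0 : 0 < ρ) : ∀ᶠ s : ℝ in 𝓝[>] 0,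
    (Adm fun i y => u i (s⁻¹ • y)) ∧ ∀ i, tsupport (fun y => u i (s⁻¹ • y)) ⊆ Metric.ball 0 ρ := by
  obtain ⟨D, -, e, -⟩ := hu.data
  filter_upwards [Ioo_mem_nhdsGT (show 0 < ρ / (D + 1) by positivity)] with s hs
  refine ⟨hu.smul (inv_ne_zero hs.1.ne'), fun i y hy => mem_ball_zero_iff.2 ?_⟩
  have := e i _ (tsupport_comp (θ := fun y => s⁻¹ • y) (by fun_prop) hy)
  rw [norm_smul_of_nonneg (inv_pos.2 hs.1).le, inv_mul_le_iff₀ hs.1] at this
  nlinarith [(lt_div_iff₀ (by positivity)).1 hs.2, hs.1]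

theorem loc_cl (hG : Gen N x θ) {u : Fin k → R4 → ℝ} (hu : Adm u) {ρ : ℝ} (ρ0 : 0 < ρ) :
    ∀ᶠ s : ℝ in 𝓝[>] 0, ∀ c : Fin k → V,
      (∏ i, x (c i) fun y => u i (s⁻¹ • y)) ∈ N.loc (Metric.ball 0 ρ) :=
  (supp_cl hu ρ0).mono fun _ e c => gen_mem hG c e.1 e.2

/-- continuity of the correlation functions of a small cluster in its position -/
theorem cont_cl (hG : Gen N x θ) (hL : LinF N x W) (hB : BdW x W) {u : Fin k → R4 → ℝ} (hu : Adm u)
    {K : Set R4} (hK : IsCompact K) (hZ : Z ∈ N.loc Kᶜ) : ∀ᶠ s : ℝ in 𝓝[>] 0, ∀ c : Fin k → V,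
      ContinuousOn (fun z => W ((∏ i, x (c i) fun y => u i (s⁻¹ • (y - z))) * Z)) K := by
  obtain ⟨m, t, l, a, f, f1, f2, rfl⟩ := exists_sum hG hZ
  obtain ⟨ρ, ρ0, hρ⟩ := hK.exists_thickening_subset_open (t := (⋃ j, ⋃ i, tsupport (f j i))ᶜ)
    (isClosed_iUnion_of_finite fun j => isClosed_iUnion_of_finite fun i =>
      isClosed_tsupport _).isOpen_compl
    (subset_compl_comm.1 (iUnion₂_subset f2))
  filter_upwards [supp_cl hu ρ0] with s ⟨s1, s2⟩ c z hz
  simp only [Finset.mul_sum, mul_smul_comm, map_sum, map_smul]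
  refine ContinuousAt.continuousWithinAt (tendsto_finsetSum _ fun j _ =>
    Tendsto.const_smul (?_ : ContinuousAt (fun z => W ((∏ i, x (c i) fun y => u i (s⁻¹ • (y - z))) *
      ∏ i, x (a j i) (f j i))) z) _)
  refine ((hB.shift hG hL (Fin.append c (a j)) ((adm_sub s1 z).append (f1 j) fun i i' =>
    disjoint_left.2 fun y e e' => hρ (Metric.mem_thickening_iff.2 ⟨z, hz, ?_⟩)
      (mem_iUnion₂.2 ⟨j, i', e'⟩))).comp_of_eq
    (f := fun v : R4 => Fin.append (fun _ => v - z) fun _ => 0) (continuousAt_pi.2 fun i => ?_)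
    (funext fun i => ?_)).congr (.of_forall fun v => ?_)
  · simpa [dist_eq_norm] using s2 i (tsupport_comp (θ := fun y => y - z) (by fun_prop) e)
  · induction i using Fin.addCases <;> simp only [Fin.append_left, Fin.append_right] <;> fun_prop
  · induction i using Fin.addCases <;>
      simp only [Fin.append_left, Fin.append_right, sub_self, Pi.zero_apply]
  · simp only [Fin.prod_univ_add, Function.comp_apply, Fin.append_left, Fin.append_right, sub_zero,
      sub_sub, sub_add_cancel]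

variable {K : Set R4} {g : R4 → ℝ}

theorem Pa.Ok.int {d : Pa} (hd : d.Ok K) (hg : C1 K g) (i) : Integrable fun y => g y * d.χ i y :=
  (hg.2.1.continuous.mul (hd.cont i)).integrable_of_hasCompactSupport hg.1.mul_right

theorem fl_fe (hG : Gen N x θ) (hL : LinF N x W) {d : Pa} (hd : d.Ok K) {ρ : ℝ} (ρ0 : 0 < ρ)
    (hZ : Z ∈ N.loc (Metric.ball 0 ρ)) (m : V) :
    Fl N W K (Metric.thickening ρ K) (fe N x d Z m) where
  mem g hg := sub_mem (Submodule.sum_mem _ fun i _ => Submodule.smul_mem _ _ (N.mono (N.τ_mem _ hZ)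
    fun y hy => Metric.mem_thickening_iff.2 ⟨_, hd.mem i, by simpa [dist_eq_norm] using hy⟩))
    (N.mono (c1_mem hG hg m) (Metric.self_subset_thickening ρ0 K))
  lin g g' t hg hg' Y hY := by
    have e := hL m g g' t ⟨hg.1, hg.2.1, subset_univ _⟩ ⟨hg'.1, hg'.2.1, subset_univ _⟩ Y
      (N.mono hY (compl_subset_compl.2 ((union_subset hg.2.2 hg'.2.2).trans
        (Metric.self_subset_thickening ρ0 K))))
    have e' : ∀ i, ∫ y, (g + t • g') y * d.χ i y =
        (∫ y, g y * d.χ i y) + t * ∫ y, g' y * d.χ i y := fun i => by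
      rw [← integral_const_mul, ← integral_add (hd.int hg i) ((hd.int hg' i).const_mul t)]
      simp only [Pi.add_apply, Pi.smul_apply, smul_eq_mul, add_mul, mul_assoc]
    simp only [fe, sub_mul, map_sub, e, e', Finset.sum_mul, map_sum, smul_mul_assoc, map_smul,
      smul_eq_mul, Complex.ofReal_add, Complex.ofReal_mul, add_mul, Finset.sum_add_distrib,
      mul_assoc, ← Finset.mul_sum]
    ring

/-- Riemann sums -/
theorem pf_riem (hK : IsCompact K) (hg : C1 K g) {φ : R4 → ℂ} (hφ : ContinuousOn φ K) :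
    Tendsto (fun d : Pa => ∑ i, ((∫ y, g y * d.χ i y : ℝ) : ℂ) * φ (d.q i)) (pf K)
      (𝓝 (∫ y, g y * φ y)) := by
  have i0 := (hg.2.1.continuous.integrable_of_hasCompactSupport (μ := volume) hg.1).norm
  have g0 : ∀ y ∉ K, g y = 0 := fun y hy => image_eq_zero_of_notMem_tsupport fun e => hy (hg.2.2 e)
  have i1 : Integrable fun y => g y * φ y := (integrableOn_iff_integrable_of_support_subset
    fun y hy => of_not_not fun e => hy (by simp [g0 y e])).1
      (((Complex.continuous_ofReal.comp hg.2.1.continuous).continuousOn.mul hφ).integrableOn_compact hK)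
  refine Metric.nhds_basis_closedBall.tendsto_right_iff.2 fun ε ε0 => ?_
  obtain ⟨ε', e0, e1⟩ := exists_pos_mul_lt ε0 (∫ y, ‖g y‖)
  obtain ⟨δ, δ0, hδ⟩ := Metric.uniformContinuousOn_iff_le.1
    (hK.uniformContinuousOn_of_continuous hφ) ε' e0
  filter_upwards [pf_ev (Ioc_mem_nhdsGT δ0)] with d ⟨d1, d2⟩
  have i2 : ∀ i, Integrable fun y => ((g y * d.χ i y : ℝ) : ℂ) * φ (d.q i) := fun i =>
    (d2.int hg i).ofReal.mul_const _
  simp only [mem_closedBall_iff_norm, ← integral_complex_ofReal, ← integral_mul_const]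
  rw [← integral_finsetSum _ fun i _ => i2 i,
    ← integral_sub (integrable_finsetSum _ fun i _ => i2 i) i1]
  refine (norm_integral_le_of_norm_le (i0.mul_const ε') (.of_forall fun y => ?_)).trans
    ((integral_mul_const _ _).trans_le e1.le)
  by_cases hy : y ∈ K
  · have : ∑ i, ((g y * d.χ i y : ℝ) : ℂ) * φ (d.q i) - g y * φ y =
        g y * ∑ i, d.χ i y * (φ (d.q i) - φ y) := by
      simp only [mul_sub, Finset.sum_sub_distrib, ← Finset.sum_mul, ← Complex.ofReal_sum,
        d2.one y hy, Finset.mul_sum, Complex.ofReal_mul, mul_assoc, Complex.ofReal_one, one_mul]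
    refine (congrArg _ this).trans_le ?_
    rw [norm_mul, Complex.norm_real]
    refine mul_le_mul_of_nonneg_left ((norm_sum_le_of_le (n := fun i => |d.χ i y| * ε') _
      fun i _ => ?_).trans ?_) (norm_nonneg _)
    · rw [norm_mul, Complex.norm_real]
      by_cases e : d.χ i y = 0
      · simp [e]
      · exact mul_le_mul_of_nonneg_left (dist_eq_norm (φ _) _ ▸ hδ _ (d2.mem i) _ hy
          (dist_comm y _ ▸ (d2.near i y e).trans d1.2)) (norm_nonneg _)
    · rw [← Finset.sum_mul]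
      exact mul_le_of_le_one_left e0.le (d2.le y)
  · simp [g0 y hy]

end Pool.Agent.Lib.MP_7f377f_mp.Wx
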