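import Pool.Agent.Lib.MP_7f377f_mp.G.WxU

/-! From arrays which fill the torus to product sets of letters in a crude environment. -/

noncomputable section

namespace Pool.Agent.Lib.MP_7f377f_mp.Wu
variable [Pool.Agent.Lib.MP_7f377f_mp.GD]
set_option linter.unusedSectionVars false

open Function Classical Filter Real

theorem lcv {u : ℕ → ℝ} {M : ℕ} {a b : ℝ} (h0 : ∀ j, 0 ≤ u j) (M0 : 0 < M)
    (h : ∀ j, j + 2 ≤ M → u (j + 1) ^ 2 ≤ u j * u (j + 2)) (a0 : 0 ≤ a) (ha : u 0 ≤ exp a)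
    (hb : u M ≤ exp b) : u 1 ≤ exp (a + b / M) := by
  rcases (h0 1).eq_or_lt with e | e
  · exact e ▸ (exp_pos _).le
  have key : ∀ j, j + 1 ≤ M → 0 < u (j + 1) ∧ u 1 * u j ≤ u 0 * u (j + 1) ∧
      u 1 ^ (j + 1) ≤ exp a ^ j * u (j + 1) := fun j => by
    induction j with
    | zero => exact fun _ => ⟨e, (mul_comm _ _).le, by simp⟩
    | succ j ih =>
      intro hj
      obtain ⟨i1, i2, i3⟩ := ih (by omega)
      have i4 := h j hj
      have i5 : u 1 * u (j + 1) ≤ u 0 * u (j + 2) := le_of_mul_le_mul_right (by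
        nlinarith [mul_le_mul_of_nonneg_left i4 e.le, mul_le_mul_of_nonneg_right i2 (h0 (j + 2))]) i1
      refine ⟨pos_of_mul_pos_left (((mul_pos e i1).trans_le i5).trans_eq (mul_comm _ _)) (h0 0), i5, ?_⟩
      rw [pow_succ' (u 1), pow_succ (exp a), mul_assoc]
      refine (mul_le_mul_of_nonneg_left i3 e.le).trans ?_
      rw [mul_left_comm]
      exact mul_le_mul_of_nonneg_left (i5.trans (mul_le_mul_of_nonneg_right ha (h0 _)))
        (by positivity)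
  obtain ⟨j, rfl⟩ : ∃ j, M = j + 1 := ⟨M - 1, by omega⟩
  refine le_of_pow_le_pow_left₀ M0.ne' (exp_pos _).le ((key j le_rfl).2.2.trans ?_)
  refine (mul_le_mul_of_nonneg_left hb (by positivity)).trans ?_
  rw [← exp_nat_mul, ← exp_nat_mul, ← exp_add, exp_le_exp, mul_add, mul_div_cancel₀ _ (by positivity)]
  push_cast
  linarith

theorem fr_blk {t W i j m q : ℤ} (W0 : 0 ≤ W) (h1 : q + i * W + m ≤ t)
    (h2 : t + m ≤ q + (i + 1) * W) : m ≤ |t - (q + j * W)| := by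
  rcases le_or_gt j i with e | e
  · exact le_abs.2 (.inl (by linarith [mul_le_mul_of_nonneg_right e W0]))
  · exact le_abs.2 (.inr (by linarith [mul_le_mul_of_nonneg_right (show i + 1 ≤ j from e) W0]))

namespace Alp

variable {γ : Type} (A : Alp γ) (m₀ n b g ℓ : ℤ) (B : ℕ) (G : (Z4 → γ) → ℝ) (σ : Z4 → γ)
  (l : Fin 4) (D : Finset (Fin 4))

/-- normalised expectations on a torus with `n` sites per side -/
structure Tk : Prop where
  pos : ∀ σ, 0 ≤ G σ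
  inv : ∀ σ l p, A.Fi σ → G (A.R σ l p) = G σ
  crude : ∀ σ, A.Fi σ → G σ ≤ A.Wt σ
  bad : ∀ σ, A.Fi σ → (∀ y, ¬A.gd (σ y)) → G σ ≤ 1
  cs : ∀ σ l p, A.Fi σ → (∀ y, σ y ≠ A.e → m₀ ≤ |y l - p| ∧ 2 * (|y l - p| + m₀) ≤ n) →
    G σ ^ 2 ≤ G (A.sym σ l p) * G (A.sL σ l p)
  cs2 : ∀ σ l p, A.Fi σ → (∀ y, σ y ≠ A.e → (m₀ ≤ |y l - p| ∧ 2 * (|y l - p| + m₀) ≤ n) ∨
    (n ≤ 2 * (y l - p - m₀) ∧ y l - p + m₀ ≤ n)) →
    G σ ^ 2 ≤ G (A.sym (A.cut σ fun y => p < y l ∧ 2 * (y l - p) < n) l p) *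
      A.Wt (A.cut σ fun y => ¬(p < y l ∧ 2 * (y l - p) < n)) ^ 2

/-- configurations which fill the torus in the directions `D` -/
structure TC : Prop where
  fin : A.Fi σ
  box : ∃ o : Z4, ∀ y, σ y ≠ A.e → ∀ μ, (μ ∈ D → 2 * |y μ - o μ| < n) ∧ (μ ∉ D → |y μ| ≤ B)
  tm : ∀ y z, σ y ≠ A.e → σ z ≠ A.e → ∀ μ ∉ D, |y μ - z μ| ≤ b ∨ g ≤ |y μ - z μ|
  fl : ∀ y z, A.gd (σ y) → A.gd (σ z) → ∀ μ ∉ D, |y μ - z μ| ≤ b → y μ = z μ
  al : ∀ y z, A.gd (σ y) → A.gd (σ z) → ∀ μ ∈ D, ℓ ∣ y μ - z μ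
  gb : ∀ y z, A.gd (σ y) → σ z ≠ A.e → ¬A.gd (σ z) → ∃ μ ∉ D, b < |y μ - z μ|

/-- the number of good columns -/
def Nn : ℕ := ((fun (y : Z4) μ => if μ ∈ D then 0 else y μ) '' {y | A.gd (σ y)}).ncard

/-- chains of `2 j` mirror images of the block with their ends -/
def Ch (pL pR : ℤ) (j : ℕ) (c : Z4 → γ) : Prop := ∀ y, c y ≠ A.e → ∃ s,
  (σ (update y l s) = c y ∨ σ (update y l s) = A.r l (c y)) ∧
    ((s < pL ∧ (y l = s ∨ y l = 2 * pL + 2 * (j * (pR - pL)) - s)) ∨ (pL < s ∧ ∃ k : ℤ, 0 ≤ k ∧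
      k < j ∧ (y l = s + 2 * (k * (pR - pL)) ∨ y l = 2 * pR - s + 2 * (k * (pR - pL)))))

variable {A m₀ n b g ℓ B G σ l D} {c : Z4 → γ} {p pL pR B' : ℤ} {κ : ℝ}

theorem src_ne {a a' : γ} (h : a' = a ∨ a' = A.r l a) (ha : a ≠ A.e) : a' ≠ A.e := by
  rcases h with rfl | rfl
  exacts [ha, r_ne.2 ha]

theorem src_gd {a a' : γ} (h : a' = a ∨ a' = A.r l a) : A.gd a' ↔ A.gd a := by
  rcases h with rfl | rfl
  exacts [Iff.rfl, ⟨A.gd_r l a, fun h => A.gd_r l _ (by rwa [A.r_r])⟩]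

theorem wt_le (hw : ∀ a, A.w a ≤ κ) (I : Fin 4 → Finset ℤ) (h : ∀ y, σ y ≠ A.e → ∀ μ, y μ ∈ I μ) :
    A.Wt σ ≤ κ ^ ∏ μ, (I μ).card := by
  rw [Wt, finprod_eq_prod_of_mulSupport_subset (s := Fintype.piFinset I) _ fun y hy =>
    Finset.mem_coe.2 (Fintype.mem_piFinset.2 (h y fun e => hy (by simp only [e, A.w_e]))),
    ← Fintype.card_piFinset, ← Finset.prod_const]
  exact Finset.prod_le_prod (fun _ _ => (A.w_pos _).le) fun _ _ => hw _

theorem sL_self (h : A.R c l p = c) : A.sL c l p = c := by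
  funext y
  simp only [sL, sym, h, ite_self]

theorem blk (hG : A.Tk m₀ n G) (m0 : 0 < m₀) (h1 : A.Fi σ) (hp : pL ≤ pR)
    (h2 : ∀ y, σ y ≠ A.e → pL - B' ≤ y l ∧ (y l + m₀ ≤ pL ∨ (pL + m₀ ≤ y l ∧ y l + m₀ ≤ pR)))
    {M : ℕ} (M0 : 0 < M) (B0 : 0 ≤ B') (hM : 2 * (M * (pR - pL) + B' + m₀) ≤ n) {a a' : ℝ}
    (a0 : 0 ≤ a) (ha : G (A.sL σ l pL) ≤ exp a)
    (hb : ∀ c, A.Fi c → A.Ch σ l pL pR M c → G c ≤ exp a') :
    G (A.sL σ l pR) ≤ exp (a + a' / M) := by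
  have W0 : 0 ≤ pR - pL := by omega
  obtain ⟨d, d0, d1⟩ : ∃ d : ℕ → Z4 → γ, d 0 = A.sL σ l pR ∧ ∀ j, d (j + 1) =
      A.R (A.sym (d j) l (pL + j * (pR - pL))) l (pL + (j * (pR - pL) + (pR - pL))) :=
    ⟨Nat.rec _ fun j v => A.R (A.sym v l (pL + j * (pR - pL))) l
      (pL + (j * (pR - pL) + (pR - pL))), rfl, fun _ => rfl⟩
  have fR : A.Fr m₀ σ l pR := fun y hy => le_abs.2 (.inr (by have := h2 y hy; omega))
  have fr : ∀ {c} {j : ℕ}, A.Ch σ l pL pR (j + 1) c → ∀ y, c y ≠ A.e →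
      m₀ ≤ |y l - (pL + j * (pR - pL))| ∧
        |y l - (pL + j * (pR - pL))| ≤ (j + 2) * (pR - pL) + B' := fun {c j} h y hy => by
    obtain ⟨s, s1, s2⟩ := h y hy
    have s3 := h2 _ (src_ne s1 hy)
    have j0 : 0 ≤ j * (pR - pL) := by positivity
    simp only [update_self, Nat.cast_add, Nat.cast_one, add_mul, one_mul] at s2 s3 ⊢
    rcases s2 with ⟨_, e | e⟩ | ⟨_, k, k0, k1, e⟩
    · rw [abs_of_nonpos (by omega)]
      omega
    · rw [abs_of_nonneg (by omega)]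
      omega
    · have k2 : 0 ≤ k * (pR - pL) := by positivity
      have k3 : k * (pR - pL) ≤ j * (pR - pL) := mul_le_mul_of_nonneg_right (by omega) W0
      refine ⟨?_, abs_le.2 (by omega)⟩
      rcases e with e | e
      · exact fr_blk (i := 2 * k) W0 (by rw [mul_assoc]; omega)
          (by rw [add_mul, mul_assoc]; omega)
      · exact fr_blk (i := 2 * k + 1) W0 (by rw [add_mul, mul_assoc]; omega)
          (by rw [add_mul, add_mul, mul_assoc]; omega)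
  have e1 : ∀ j : ℕ, A.R (d j) l (pL + (j * (pR - pL) + (pR - pL))) = d j → ∀ y, d (j + 1) y =
      if y l ≤ pL + (j * (pR - pL) + 2 * (pR - pL)) then d j y
      else d j (update y l (y l - 2 * (pR - pL))) := fun j h y => by
    rw [d1, R, sym, th_self]
    split_ifs with h3 h4 h4
    · rw [← R, h]
    · omega
    · omega
    · rw [R, A.r_r, th_th]
      congr 2
      ring
  have inv : ∀ j, A.Fi (d j) ∧ A.Ch σ l pL pR (j + 1) (d j) ∧
      A.R (d j) l (pL + (j * (pR - pL) + (pR - pL))) = d j := fun j => by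
    induction j with
    | zero =>
      rw [d0]
      refine ⟨(h1.R _ _).sym _ _, fun y hy => ?_, by simpa [sL] using fR.R'.R_sym m0⟩
      simp only [sL, sym, R_R] at hy ⊢
      split_ifs at hy ⊢ with e
      · have := h2 _ (r_ne.1 hy)
        rw [th_self] at this
        refine ⟨2 * pR - y l, .inr (A.r_r _ _).symm, ?_⟩
        rcases this.2 with e | e
        · exact .inl ⟨by omega, .inr (by push_cast; omega)⟩
        · exact .inr ⟨by omega, 0, le_rfl, by simp, .inr (by omega)⟩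
      · refine ⟨y l, .inl (by simp), ?_⟩
        rcases (h2 y hy).2 with e | e
        · exact .inl ⟨by omega, .inl rfl⟩
        · exact .inr ⟨by omega, 0, le_rfl, by simp, .inl (by simp)⟩
    | succ j ih =>
      obtain ⟨i1, i2, i3⟩ := ih
      have j0 : 0 ≤ j * (pR - pL) := by positivity
      refine ⟨d1 j ▸ (i1.sym _ _).R _ _, fun y hy => ?_, ?_⟩
      · rw [e1 j i3] at hy ⊢
        split_ifs at hy ⊢ with e
        · obtain ⟨s, s1, s2⟩ := i2 y hy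
          refine ⟨s, s1, s2.imp (fun ⟨s3, s4⟩ => ⟨s3, .inl ?_⟩) fun ⟨s3, k, k0, k1, s4⟩ =>
            ⟨s3, k, k0, by push_cast at k1 ⊢; omega, s4⟩⟩
          simp only [Nat.cast_add, Nat.cast_one, add_mul, one_mul] at s4
          omega
        · obtain ⟨s, s1, s2⟩ := i2 _ hy
          simp only [update_idem, update_self, Nat.cast_add, Nat.cast_one, add_mul,
            one_mul] at s1 s2 ⊢
          exact ⟨s, s1, s2.imp (fun ⟨s3, s4⟩ => ⟨s3, .inr (by omega)⟩) fun ⟨s3, k, k0, k1, s4⟩ =>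
            ⟨s3, k + 1, by omega, by omega, by rw [add_mul]; omega⟩⟩
      · funext y
        have := congrFun (Fr.R_sym (fun y hy => (fr i2 y hy).1) m0)
          (th l (pL + (j * (pR - pL) + (pR - pL))) y)
        rw [d1, R, R, R, ← this, R, th_th, th_th]
        congr 4
        push_cast
        ring
  obtain ⟨j, rfl⟩ : ∃ j, M = j + 1 := ⟨M - 1, by omega⟩
  have := lcv (u := fun j => Nat.casesOn j (G (A.sL σ l pL)) fun j => G (d j)) (fun j => by
    cases j <;> exact hG.pos _) M0 (fun i hi => ?_) a0 ha (hb _ (inv j).1 (inv j).2.1)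
  · exact d0 ▸ this
  · have c := hG.cs (d i) l _ (inv i).1 fun y hy => ⟨(fr (inv i).2.1 y hy).1, by
      have := mul_le_mul_of_nonneg_right (show (i + 2 : ℤ) ≤ (j + 1 : ℕ) by omega) W0
      linarith [(fr (inv i).2.1 y hy).2]⟩
    rw [← hG.inv _ l _ ((inv i).1.sym _ _), ← d1, mul_comm] at c
    refine c.trans_eq (congrArg (· * _) (?_ : _ = _))
    cases i with
    | zero =>
      simp only [Nat.cast_zero, zero_mul, add_zero, d0]
      refine congrArg G (sL_congr fun y hy => ?_)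
      simp only [sL, sym, R_R]
      split_ifs
      · rw [fR.R'.emp m0 (by omega), fR.emp m0 (by omega)]
      · rfl
    | succ i =>
      simp only [Nat.cast_add, Nat.cast_one, add_mul, one_mul]
      rw [sL_congr (σ := d i) fun y hy => by rw [e1 i (inv i).2.2, if_pos (by omega)],
        sL_self (inv i).2.2]

theorem cut_ne {P : Z4 → Prop} {y : Z4} : A.cut σ P y ≠ A.e ↔ P y ∧ σ y ≠ A.e := by
  by_cases e : P y <;> simp [cut, e]

theorem cut_gd {P : Z4 → Prop} {y : Z4} : A.gd (A.cut σ P y) ↔ P y ∧ A.gd (σ y) := by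
  by_cases e : P y <;> simp [cut, e, A.gd_e]

theorem TC.cut (h : A.TC n b g ℓ B σ D) (P : Z4 → Prop) : A.TC n b g ℓ B (A.cut σ P) D :=
  ⟨h.fin.cut P, h.box.imp fun _ e y hy => e y (cut_ne.1 hy).2,
    fun y z hy hz => h.tm y z (cut_ne.1 hy).2 (cut_ne.1 hz).2,
    fun y z hy hz => h.fl y z (cut_gd.1 hy).2 (cut_gd.1 hz).2,
    fun y z hy hz => h.al y z (cut_gd.1 hy).2 (cut_gd.1 hz).2,
    fun y z hy hz e => h.gb y z (cut_gd.1 hy).2 (cut_ne.1 hz).2 fun e' =>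
      e (cut_gd.2 ⟨(cut_ne.1 hz).1, e'⟩)⟩

theorem nn_cut (h : A.Fi σ) (hl : l ∉ D) (p : ℤ) :
    A.Nn (A.cut σ fun y => y l < p) D + A.Nn (A.cut σ fun y => p < y l) D ≤ A.Nn σ D := by
  have f : ∀ {c}, A.Fi c → ((fun (y : Z4) μ => if μ ∈ D then 0 else y μ) ''
    {y | A.gd (c y)}).Finite := fun h => (h.subset fun _ => gd_ne).image _
  rw [Nn, Nn, Nn, ← Set.ncard_union_eq (Set.disjoint_left.2 ?_) (f (h.cut _)) (f (h.cut _)),
    ← Set.image_union]
  · exact Set.ncard_le_ncard (Set.image_mono fun y hy => hy.elim (fun e => (cut_gd.1 e).2)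
      fun e => (cut_gd.1 e).2) (f h)
  · rintro _ ⟨y, hy, rfl⟩ ⟨z, hz, e⟩
    have := congrFun e l
    simp only [hl, if_false] at this
    have := (cut_gd.1 hy).1
    have := (cut_gd.1 hz).1
    omega

theorem nn_le (h : A.Fi σ) (h' : ∀ y, A.gd (c y) → ∃ s, A.gd (σ (update y l s))) :
    A.Nn c (insert l D) ≤ A.Nn σ D := by
  have f := (h.subset fun _ => gd_ne).image fun (y : Z4) μ => if μ ∈ D then 0 else y μ
  refine (Set.ncard_le_ncard (t := (fun y : Z4 => update y l 0) '' _) ?_ (f.image _)).trans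
    (Set.ncard_image_le f)
  rintro _ ⟨y, hy, rfl⟩
  obtain ⟨s, hs⟩ := h' y hy
  refine ⟨_, ⟨_, hs, rfl⟩, funext fun μ => ?_⟩
  by_cases e : μ = l <;> simp [e]

theorem TC.wt (h : A.TC n b g ℓ B σ D) (hw : ∀ a, A.w a ≤ κ) (k1 : 1 ≤ κ) (n1 : 1 ≤ n) (hl : l ∉ D)
    {q : ℤ} (h' : ∀ y, c y ≠ A.e → ∃ s, σ (update y l s) ≠ A.e ∧ (y l = s ∨ y l = q - s)) :
    A.Wt c ≤ exp (log κ * (2 * (2 * B + 1) ^ 4) * n ^ D.card) := by
  obtain ⟨o, ho⟩ := h.box
  refine (wt_le hw (fun μ => if μ ∈ D then Finset.Ioc (o μ - (n + 1) / 2) (o μ + n / 2) else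
    if μ = l then Finset.Icc (-B : ℤ) B ∪ Finset.Icc (q - B) (q + B) else Finset.Icc (-B : ℤ) B)
    fun y hy μ => ?_).trans ?_
  · obtain ⟨s, s1, s2⟩ := h' y hy
    have := ho _ s1 μ
    split_ifs with e1 e2
    · have := this.1 e1
      rw [update_of_ne (by rintro rfl; exact hl e1)] at this
      rw [Finset.mem_Ioc]
      rcases abs_cases (y μ - o μ) with e | e <;> omega
    · subst e2
      have := abs_le.1 (this.2 e1)
      simp only [update_self, Finset.mem_union, Finset.mem_Icc] at this ⊢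
      omega
    · simpa [e2, abs_le] using this.2 e1
  · rw [← exp_log (one_pos.trans_le k1), ← exp_nat_mul, log_exp, mul_assoc, mul_comm]
    refine exp_le_exp.2 (mul_le_mul_of_nonneg_left ?_ (log_nonneg k1))
    have n0 : (1 : ℝ) ≤ n := by exact_mod_cast n1
    have e : (2 * (2 * B + 1) ^ 4 * n ^ D.card : ℝ) = ∏ μ : Fin 4, ((if μ = l then 2 else 1) *
        (2 * B + 1) * if μ ∈ D then (n : ℝ) else 1) := by
      rw [Finset.prod_mul_distrib, Finset.prod_mul_distrib, Finset.prod_ite_mem]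
      simp
    rw [e, Nat.cast_prod]
    refine Finset.prod_le_prod (fun _ _ => by positivity) fun μ _ => ?_
    have c : ∀ t : ℤ, ((Finset.Icc (t - B) (t + B)).card : ℝ) = 2 * B + 1 := fun t => by
      rw [Int.card_Icc, show t + B + 1 - (t - B) = (2 * B + 1 : ℕ) by push_cast; ring,
        Int.toNat_natCast]
      simp
    have c0 := c 0
    rw [zero_sub, zero_add] at c0
    split_ifs with e1 e2 e2
    · exact (hl (e2 ▸ e1)).elim
    · rw [Int.card_Ioc, show o μ + n / 2 - (o μ - (n + 1) / 2) = n by omega,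
        ← Int.cast_natCast, Int.toNat_of_nonneg (by omega)]
      nlinarith [B.cast_nonneg (α := ℝ)]
    · refine (Nat.cast_le.2 (Finset.card_union_le _ _)).trans_eq ?_
      rw [Nat.cast_add, c, c0]
      ring
    · rw [c0]
      simp

/-- one cluster -/
theorem TC.one (h : A.TC n b g ℓ B σ D) (hG : A.Tk m₀ n G) (m0 : 0 < m₀) (b0 : 0 ≤ b)
    (hℓ : b + m₀ ≤ ℓ) (hg : 5 * ℓ + m₀ ≤ g) (hw : ∀ a, A.w a ≤ κ) (k1 : 1 ≤ κ) (hl : l ∉ D) {t : ℤ}
    (t0 : |t| ≤ B) (ht : ∀ y, σ y ≠ A.e → y l + g ≤ t ∨ (|y l - t| ≤ b ∧ (A.gd (σ y) → y l = t)))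
    (hn : 8 * (B + ℓ) ≤ n) {a ε C X : ℝ} (a0 : 0 ≤ a) (C0 : 0 ≤ C) (X0 : 0 ≤ X)
    (H : ∀ c, A.TC n b g ℓ B c (insert l D) → G c ≤ exp ((ε + C * A.Nn c (insert l D)) * X))
    (ha : G (A.sL σ l (t - ℓ)) ≤ exp a) : G (A.sL σ l (t + ℓ)) ≤
      exp (a + ((ε + C * A.Nn (A.cut σ fun y => t - ℓ < y l) D) * X / 2 +
        log κ * (2 * (2 * B + 1) ^ 4) * n ^ D.card) / (n / (8 * ℓ)).toNat) := by
  obtain ⟨o, ho⟩ := h.box
  replace t0 := abs_le.1 t0
  have l0 : 0 < 8 * ℓ := by omega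
  have M1 := Int.mul_ediv_add_emod n (8 * ℓ)
  have M2 := Int.emod_nonneg n l0.ne'
  have M3 := Int.emod_lt_of_pos n l0
  have M4 : 1 ≤ n / (8 * ℓ) := (Int.le_ediv_iff_mul_le l0).2 (by omega)
  obtain ⟨M, hM⟩ := Int.eq_ofNat_of_zero_le (zero_le_one.trans M4)
  rw [hM] at M1 M4 ⊢
  rw [Int.toNat_natCast]
  have W : t + ℓ - (t - ℓ) = 2 * ℓ := by ring
  have M5 : M * (2 * ℓ) * 4 = 8 * ℓ * M := by ring
  refine blk hG m0 h.fin (by omega) (B' := 2 * B) (fun y hy => ?_) (by omega) (by omega)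
    (by rw [W]; omega) a0 ha fun c c1 c2 => ?_
  · have := ht y hy
    have := abs_le.1 ((ho y hy l).2 hl)
    rw [abs_le] at *
    omega
  simp only [Ch, W] at c2
  obtain ⟨X, hX⟩ : ∃ X, X = A.cut c fun y => t - ℓ < y l ∧ 2 * (y l - (t - ℓ)) < n := ⟨_, rfl⟩
  have c3 : ∀ y, c y ≠ A.e → ∃ s, (σ (update y l s) = c y ∨ σ (update y l s) = A.r l (c y)) ∧
      (((y l = s ∨ y l = 2 * (t - ℓ) + 2 * (M * (2 * ℓ)) - s) ∧ -B ≤ s ∧ s + g ≤ t) ∨
      (|s - t| ≤ b ∧ t - ℓ + m₀ ≤ y l ∧ y l + m₀ ≤ t - ℓ + 2 * (M * (2 * ℓ)) ∧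
        (A.gd (c y) → ℓ ∣ y l - t))) := fun y hy => by
    obtain ⟨s, s1, s2⟩ := c2 y hy
    have s3 := ht _ (src_ne s1 hy)
    have s4 := abs_le.1 ((ho _ (src_ne s1 hy) l).2 hl)
    simp only [update_self, src_gd s1, abs_le] at s3 s4 ⊢
    refine ⟨s, s1, s2.imp (fun e => ⟨e.2, by omega⟩) fun ⟨s5, k, k0, k1, e⟩ => ?_⟩
    have k2 : 0 ≤ k * (2 * ℓ) := mul_nonneg k0 (by omega)
    have k3 := mul_le_mul_of_nonneg_right (show k + 1 ≤ M from k1) (show 0 ≤ 2 * ℓ by omega)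
    rw [add_mul] at k3
    refine ⟨by omega, by omega, by omega, fun e' => ?_⟩
    obtain rfl : s = t := by have := s3.resolve_left (by omega); exact this.2 e'
    rcases e with e | e
    · exact ⟨4 * k, by rw [e]; ring⟩
    · exact ⟨4 * k + 2, by rw [e]; ring⟩
  have c4 : ∀ y, A.sym X l (t - ℓ) y ≠ A.e → ∃ s, (σ (update y l s) = A.sym X l (t - ℓ) y ∨
      σ (update y l s) = A.r l (A.sym X l (t - ℓ) y)) ∧ |s - t| ≤ b ∧ 2 * |y l - (t - ℓ)| < n ∧
        (A.gd (A.sym X l (t - ℓ) y) → ℓ ∣ y l - t) := fun y hy => by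
    simp only [sym, hX] at hy ⊢
    split_ifs at hy ⊢ with e
    · obtain ⟨e1, e2⟩ := cut_ne.1 hy
      obtain ⟨s, s1, s2⟩ := c3 y e2
      rw [Alp.cut, if_pos e1, abs_of_nonneg (by omega)]
      have := s2.resolve_left (by omega)
      exact ⟨s, s1, this.1, e1.2, this.2.2.2⟩
    · obtain ⟨e1, e2⟩ := cut_ne.1 (r_ne.1 hy)
      obtain ⟨s, s1, s2⟩ := c3 _ e2
      rw [R, Alp.cut, if_pos e1, abs_of_nonpos (by omega), A.r_r]
      simp only [th_self, upd_th] at e1 s1 s2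
      have := s2.resolve_left (by omega)
      refine ⟨s, s1.symm, this.1, by omega, fun e' => ?_⟩
      obtain ⟨u, hu⟩ := this.2.2.2 (A.gd_r _ _ e')
      exact ⟨-u - 2, by linarith⟩
  have c5 := H (A.sym X l (t - ℓ)) ⟨hX ▸ (c1.cut _).sym _ _, ⟨update o l (t - ℓ), fun y hy μ => by
      obtain ⟨s, s1, -, s2, -⟩ := c4 y hy
      have := ho _ (src_ne s1 hy) μ
      by_cases e : μ = l <;> simp_all⟩, fun y z hy hz μ hμ => by
      obtain ⟨s, s1, -⟩ := c4 y hy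
      obtain ⟨s', s2, -⟩ := c4 z hz
      rw [Finset.mem_insert, not_or] at hμ
      simpa [hμ.1] using h.tm _ _ (src_ne s1 hy) (src_ne s2 hz) μ hμ.2, fun y z hy hz μ hμ => by
      obtain ⟨s, s1, -⟩ := c4 y (gd_ne hy)
      obtain ⟨s', s2, -⟩ := c4 z (gd_ne hz)
      rw [Finset.mem_insert, not_or] at hμ
      simpa [hμ.1] using h.fl _ _ ((src_gd s1).2 hy) ((src_gd s2).2 hz) μ hμ.2,
    fun y z hy hz μ hμ => by
      obtain ⟨s, s1, -, -, s3⟩ := c4 y (gd_ne hy)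
      obtain ⟨s', s2, -, -, s4⟩ := c4 z (gd_ne hz)
      by_cases e : μ = l
      · simpa [e] using (s3 hy).sub (s4 hz)
      · simpa [e] using h.al _ _ ((src_gd s1).2 hy) ((src_gd s2).2 hz) μ (by simpa [e] using hμ),
    fun y z hy hz e => by
      obtain ⟨s, s1, s3, -⟩ := c4 y (gd_ne hy)
      obtain ⟨s', s2, s4, -⟩ := c4 z hz
      obtain ⟨μ, m1, m2⟩ := h.gb _ _ ((src_gd s1).2 hy) (src_ne s2 hz) (mt (src_gd s2).1 e)
      have e' : μ ≠ l := by
        rintro rfl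
        have := ht _ (gd_ne ((src_gd s1).2 hy))
        simp only [update_self, src_gd s1, hy, forall_const, abs_le, lt_abs] at *
        omega
      exact ⟨μ, by simp [e', m1], by simpa [e'] using m2⟩⟩
  have c6 : A.Nn (A.sym X l (t - ℓ)) (insert l D) ≤ A.Nn (A.cut σ fun y => t - ℓ < y l) D :=
    nn_le (h.fin.cut _) fun y hy => by
      obtain ⟨s, s1, s2, -⟩ := c4 y (gd_ne hy)
      exact ⟨s, cut_gd.2 ⟨by rw [update_self]; rw [abs_le] at s2; omega, (src_gd s1).2 hy⟩⟩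
  have c7 := hG.cs2 c l (t - ℓ) c1 fun y hy => by
    obtain ⟨s, -, s2⟩ := c3 y hy
    rcases abs_cases (y l - (t - ℓ)) with e | e <;> rw [e.1] <;> omega
  have c8 := h.wt hw k1 (by omega) hl (q := 2 * (t - ℓ) + 2 * (M * (2 * ℓ)))
    (c := A.cut c fun y => ¬(t - ℓ < y l ∧ 2 * (y l - (t - ℓ)) < n)) fun y hy => by
      obtain ⟨e1, e2⟩ := cut_ne.1 hy
      obtain ⟨s, s1, s2⟩ := c3 y e2
      exact ⟨s, src_ne s1 e2, (s2.resolve_right (by omega)).1⟩
  rw [← hX] at c7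
  refine le_of_sq_le_sq (c7.trans ?_) (exp_pos _).le
  rw [exp_add, mul_pow, ← exp_nat_mul]
  refine mul_le_mul (c5.trans (exp_le_exp.2 ?_)) (pow_le_pow_left₀ (wt_pos _).le c8 2)
    (sq_nonneg _) (exp_pos _).le
  rw [Nat.cast_ofNat, mul_div_cancel₀ _ two_ne_zero]
  gcongr

/-- an empty gap -/
theorem TC.gap (h : A.TC n b g ℓ B σ D) (hG : A.Tk m₀ n G) (m0 : 0 < m₀) (hw : ∀ a, A.w a ≤ κ)
    (k1 : 1 ≤ κ) (hl : l ∉ D) {q W : ℤ} (hp : q ≤ p) (hW : p - q ≤ W) (q0 : q ≤ B + W) (W0 : m₀ ≤ W)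
    (ht : ∀ y, σ y ≠ A.e → y l + m₀ ≤ q) (hn : 8 * (B + W) ≤ n) {a : ℝ} (a0 : 0 ≤ a)
    (ha : G (A.sL σ l q) ≤ exp a) : G (A.sL σ l p) ≤
      exp (a + log κ * (2 * (2 * B + 1) ^ 4) * n ^ D.card / (n / (8 * W)).toNat) := by
  obtain ⟨o, ho⟩ := h.box
  have l0 : 0 < 8 * W := by omega
  have M1 := Int.mul_ediv_add_emod n (8 * W)
  have M2 := Int.emod_nonneg n l0.ne'
  have M4 : 1 ≤ n / (8 * W) := (Int.le_ediv_iff_mul_le l0).2 (by omega)
  obtain ⟨M, hM⟩ := Int.eq_ofNat_of_zero_le (zero_le_one.trans M4)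
  rw [hM] at M1 M4 ⊢
  rw [Int.toNat_natCast]
  refine blk hG m0 h.fin hp (B' := 2 * B + W) (fun y hy => ⟨?_, .inl (ht y hy)⟩) (by omega)
    (by omega) (by linarith [mul_le_mul_of_nonneg_left hW M.cast_nonneg]) a0 ha fun c c1 c2 =>
      (hG.crude c c1).trans (h.wt hw k1 (by omega) hl (q := 2 * q + 2 * (M * (p - q))) fun y hy => ?_)
  · have := abs_le.1 ((ho y hy l).2 hl)
    omega
  · obtain ⟨s, s1, s2⟩ := c2 y hy
    have := ht _ (src_ne s1 hy)
    rw [update_self] at this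
    exact ⟨s, src_ne s1 hy, (s2.resolve_right (by omega)).2⟩

variable {ι : Type} {Φ : Filter ι} {nn : ι → ℤ} {GG : ι → (Z4 → γ) → ℝ} {C : ℝ}

/-- one direction -/
theorem tstep (hn : Tendsto nn Φ atTop) (hG : ∀ᶠ i in Φ, A.Tk m₀ (nn i) (GG i)) (m0 : 0 < m₀)
    (b0 : 0 ≤ b) (hℓ : b + m₀ ≤ ℓ) (hg : 5 * ℓ + m₀ ≤ g) (hw : ∀ a, A.w a ≤ κ) (k1 : 1 ≤ κ)
    (hl : l ∉ D) (C0 : 0 ≤ C) (H : ∀ B, ∀ ε > 0, ∀ᶠ i in Φ, ∀ c, A.TC (nn i) b g ℓ B c (insert l D) →
      GG i c ≤ exp ((ε + C * A.Nn c (insert l D)) * (nn i / ℓ) ^ (D.card + 1))) (B : ℕ) {ε : ℝ}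
    (e0 : 0 < ε) : ∀ᶠ i in Φ, ∀ c, A.TC (nn i) b g ℓ B c D →
      GG i c ≤ exp ((ε + 4 * C * A.Nn c D) * (nn i / ℓ) ^ D.card) := by
  have l0 : 0 < ℓ := by omega
  have l1 : (0 : ℝ) < ℓ := by exact_mod_cast l0
  obtain ⟨N, hN⟩ := Int.eq_ofNat_of_zero_le (show 0 ≤ 2 * B + ℓ by omega)
  have N0 : (0 : ℝ) < N := by exact_mod_cast (show 0 < N by omega)
  obtain ⟨δ, δ0, hδ⟩ : ∃ δ > 0, δ * N = ε := ⟨ε / N, by positivity, by field_simp⟩
  obtain ⟨Λ, hΛ⟩ : ∃ Λ, Λ = log κ * (2 * (2 * B + 1) ^ 4) := ⟨_, rfl⟩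
  have Λ0 : 0 ≤ Λ := by have := log_nonneg k1; rw [hΛ]; positivity
  have t : ∀ W : ℤ, 0 < W → Tendsto (fun i => (((nn i / W).toNat : ℕ) : ℝ)) Φ atTop := fun W W0 =>
    tendsto_natCast_atTop_atTop.comp (tendsto_atTop.2 fun k => (hn.eventually_ge_atTop
      (k * W)).mono fun i hi => by have := (Int.le_ediv_iff_mul_le W0).2 hi; omega)
  filter_upwards [hG, H B (δ / 16) (by positivity), hn.eventually_ge_atTop (8 * (B + (N + ℓ))),
    (t (8 * ℓ) (by omega)).eventually_ge_atTop (2 * (Λ * ℓ ^ D.card / δ) + 1),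
    (t (8 * (N + ℓ)) (by omega)).eventually_ge_atTop (Λ * ℓ ^ D.card / δ + 1)] with i g1 g2 g3 g4 g5
  generalize nn i = n, GG i = G at *
  have n0 : (0 : ℝ) ≤ n := by exact_mod_cast (show 0 ≤ n by omega)
  obtain ⟨X, hX⟩ : ∃ X, X = ((n : ℝ) / ℓ) ^ D.card := ⟨_, rfl⟩
  have X0 : 0 ≤ X := by rw [hX]; positivity
  have X1 : (n : ℝ) ^ D.card = ℓ ^ D.card * X := by
    rw [hX, ← mul_pow, mul_div_cancel₀ _ l1.ne']
  have Y0 : 0 ≤ Λ * ℓ ^ D.card / δ := by positivity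
  have a1 : ∀ {M t : ℝ}, 0 < t → t * (Λ * ℓ ^ D.card / δ) + 1 ≤ M →
      Λ * n ^ D.card / M ≤ δ / t * X := fun {M t} t0 e => by
    rw [div_le_iff₀ (by nlinarith), X1, ← mul_assoc, mul_right_comm (δ / t)]
    refine mul_le_mul_of_nonneg_right (le_trans (le_of_eq ?_)
      (mul_le_mul_of_nonneg_left (a := δ / t) ((le_add_of_nonneg_right zero_le_one).trans e)
        (by positivity))) X0
    field_simp
  have a2 : (n : ℝ) / ℓ / (n / (8 * ℓ)).toNat ≤ 16 := by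
    have M1 := Int.mul_ediv_add_emod n (8 * ℓ)
    have M3 := Int.emod_lt_of_pos n (show 0 < 8 * ℓ by omega)
    have M4 : 1 ≤ n / (8 * ℓ) := (Int.le_ediv_iff_mul_le (by omega)).2 (by omega)
    rw [div_le_iff₀ (by linarith), div_le_iff₀ l1, ← Int.cast_natCast,
      Int.toNat_of_nonneg (by omega)]
    exact_mod_cast (by nlinarith : n ≤ 16 * (n / (8 * ℓ)) * ℓ)
  have emp : ∀ {c p}, (∀ y, c y = A.e) → G (A.sL c l p) ≤ 1 := fun {c p} e => by
    rw [show A.sL c l p = fun _ => A.e from funext fun y => by simp [sL, sym, R, e, A.r_e]]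
    exact g1.bad _ (by simp [Fi]) fun _ => A.gd_e
  have key : ∀ (k : ℕ) (p : ℤ), p ≤ k - B → p ≤ B + ℓ → ∀ c, A.TC n b g ℓ B c D →
      (∀ y, c y ≠ A.e → y l + ℓ ≤ p) →
      G (A.sL c l p) ≤ exp ((2 * δ * k + 8 * C * A.Nn c D) * X) := fun k => by
    induction k with
    | zero =>
      refine fun p p1 _ c hc h => (emp fun y => ?_).trans (one_le_exp (by positivity))
      by_contra e
      have := abs_le.1 ((hc.box.choose_spec y e l).2 hl)
      have := h y e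
      omega
    | succ k ih =>
      intro p p1 p2 c hc h
      by_cases e : ∀ y, c y = A.e
      · exact (emp e).trans (one_le_exp (by positivity))
      obtain ⟨_, ⟨z₀, z0, rfl⟩, z1⟩ := Int.exists_greatest_of_bdd
        (P := fun t => ∃ y, c y ≠ A.e ∧ y l = t) ⟨p, fun _ ⟨y, hy, e⟩ => by
          have := h y hy
          omega⟩ (let ⟨y, hy⟩ := not_forall.1 e; ⟨_, y, hy, rfl⟩)
      obtain ⟨z, z2, z3, z4⟩ : ∃ z, c z ≠ A.e ∧ |z l - z₀ l| ≤ b ∧
          ∀ y, A.gd (c y) → |y l - z l| ≤ b → y l = z l := by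
        by_cases e : ∃ z, A.gd (c z) ∧ |z l - z₀ l| ≤ b
        · obtain ⟨z, z2, z3⟩ := e
          exact ⟨z, gd_ne z2, z3, fun y hy => hc.fl y z hy z2 l hl⟩
        · exact ⟨z₀, z0, by simpa, fun y hy e' => (e ⟨y, hy, e'⟩).elim⟩
      have ht : ∀ y, c y ≠ A.e → y l + g ≤ z l ∨ (|y l - z l| ≤ b ∧ (A.gd (c y) → y l = z l)) :=
        fun y hy => (hc.tm y z hy z2 l hl).symm.imp (fun e => by
          have := z1 _ ⟨y, hy, rfl⟩
          rw [abs_le] at z3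
          rw [le_abs] at e
          omega) fun e => ⟨e, fun e' => z4 y e' e⟩
      have z5 := h z z2
      have z6 := (hc.box.choose_spec z z2 l).2 hl
      have i1 := ih (z l - ℓ) (by omega) (by omega) _ (hc.cut fun y => y l < z l - ℓ) fun y hy => by
        have := ht y (cut_ne.1 hy).2
        have := (cut_ne.1 hy).1
        rw [abs_le] at *
        omega
      rw [sL_congr (σ := c) fun y hy => by
        unfold Alp.cut
        split_ifs
        · rfl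
        · by_contra e
          have := ht y (Ne.symm e)
          rw [abs_le] at this
          omega] at i1
      have i2 := hc.one g1 m0 b0 hℓ hg hw k1 hl z6 ht (by omega) (by positivity) C0
        (by positivity) g2 i1
      rw [abs_le] at z6
      refine (hc.gap g1 m0 hw k1 hl (W := N + ℓ) z5 (by omega) (by omega) (by omega) (fun y hy => by
        have := ht y hy
        rw [abs_le] at this
        omega) g3 (by rw [← hΛ]; positivity) i2).trans (exp_le_exp.2 ?_)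
      have i3 : (_ : ℝ) ≤ A.Nn c D := Nat.cast_le.2 (nn_cut hc.fin hl (z l - ℓ))
      have i4 := a1 two_pos g4
      have i5 := a1 one_pos (by simpa using g5)
      have i6 := mul_le_mul_of_nonneg_left a2 (show 0 ≤ (δ / 16 + C *
        A.Nn (A.cut c fun y => z l - ℓ < y l) D) * X / 2 by positivity)
      have i7 := mul_le_mul_of_nonneg_left i3 (show 0 ≤ 8 * C * X by positivity)
      rw [← hΛ, pow_succ, ← hX, add_div]
      push_cast at i7 ⊢
      rw [← mul_div_assoc, div_mul_eq_mul_div, mul_assoc] at i6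
      linarith
  intro c hc
  obtain ⟨o, ho⟩ := hc.box
  have c1 := g1.cs c l (B + ℓ) hc.fin fun y hy => by
    have := abs_le.1 ((ho y hy l).2 hl)
    rw [abs_of_nonpos (by omega)]
    omega
  rw [show A.sym c l (B + ℓ) = A.sL (fun _ => A.e) l 0 from funext fun y => by
    simp only [sL, sym, R, A.r_e, ite_self]
    by_contra e
    split_ifs at e
    · have := abs_le.1 ((ho y e l).2 hl)
      omega
    · have := abs_le.1 ((ho _ (r_ne.1 e) l).2 hl)
      rw [th_self] at this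
      omega] at c1
  refine le_of_sq_le_sq (c1.trans ((mul_le_of_le_one_left (g1.pos _) (emp fun _ => rfl)).trans
    ((key N _ (by omega) le_rfl c hc fun y hy => ?_).trans_eq ?_))) (exp_pos _).le
  · have := abs_le.1 ((ho y hy l).2 hl)
    omega
  · rw [← exp_nat_mul, ← hδ, ← hX]
    congr 1
    push_cast
    ring

/-- product sets of good letters in a crude environment -/
theorem tmain (hn : Tendsto nn Φ atTop) (hG : ∀ᶠ i in Φ, A.Tk m₀ (nn i) (GG i)) (m0 : 0 < m₀)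
    (b0 : 0 ≤ b) (hℓ : b + m₀ ≤ ℓ) (hg : 5 * ℓ + m₀ ≤ g) (hw : ∀ a, A.w a ≤ κ) (k1 : 1 ≤ κ)
    (C0 : 0 ≤ C) (H : ∀ᶠ i in Φ, ∀ c, A.Fi c → (∀ y, c y ≠ A.e → A.gd (c y)) →
      (∀ y z, c y ≠ A.e → c z ≠ A.e → ∀ μ, ℓ ∣ y μ - z μ) →
      (∃ o : Z4, ∀ y, c y ≠ A.e → ∀ μ, 2 * |y μ - o μ| < nn i) → GG i c ≤ exp (C * (nn i / ℓ) ^ 4))
    (h1 : A.Fi σ) (h2 : ∀ y z, σ y ≠ A.e → σ z ≠ A.e → (∀ μ, |y μ - z μ| ≤ b ∨ g ≤ |y μ - z μ|) ∧
      (y ≠ z → ∃ μ, g ≤ |y μ - z μ|))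
    (h3 : ∀ y z μ, A.gd (σ y) → A.gd (σ z) → |y μ - z μ| < g → y μ = z μ) {ε : ℝ} (e0 : 0 < ε) :
    ∀ᶠ i in Φ, GG i σ ≤ exp (ε + 256 * C * {y | A.gd (σ y)}.ncard) := by
  have a : ∀ D : Finset (Fin 4), ∀ B, ∀ ε > 0, ∀ᶠ i in Φ, ∀ c, A.TC (nn i) b g ℓ B c Dᶜ →
      GG i c ≤ exp ((ε + 4 ^ D.card * C * A.Nn c Dᶜ) * (nn i / ℓ) ^ Dᶜ.card) := fun D => by
    induction D using Finset.induction_on with
    | empty =>
      intro B ε e0
      filter_upwards [hG, H] with i g1 g2 c hc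
      rw [Finset.compl_empty] at hc ⊢
      have p : (0 : ℝ) ≤ (nn i / ℓ) ^ 4 := by positivity
      rw [Finset.card_univ, Fintype.card_fin]
      by_cases e : ∃ y, A.gd (c y)
      · obtain ⟨y, hy⟩ := e
        have o : ∀ z, c z ≠ A.e → A.gd (c z) := fun z hz => by
          by_contra e
          simpa using hc.gb y z hy hz e
        refine (g2 c hc.fin o (fun y z h h' μ => hc.al y z (o y h) (o z h') μ (by simp))
          (hc.box.imp fun _ e y hy μ => (e y hy μ).1 (by simp))).trans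
          (exp_le_exp.2 (mul_le_mul_of_nonneg_right ?_ p))
        have : (1 : ℝ) ≤ A.Nn c Finset.univ := Nat.one_le_cast.2 ((Set.ncard_pos
          ((hc.fin.subset fun _ => gd_ne).image _)).2 ⟨_, y, hy, rfl⟩)
        simp only [Finset.card_empty, pow_zero]
        nlinarith
      · exact (g1.bad c hc.fin fun y hy => e ⟨y, hy⟩).trans (one_le_exp (by positivity))
    | insert l D hl ih =>
      have e : insert l (insert l D)ᶜ = Dᶜ := by
        ext ν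
        by_cases e : ν = l <;> simp [e, hl]
      have e' : l ∉ (insert l D)ᶜ := by simp
      intro B ε e0
      have := tstep (l := l) hn hG m0 b0 hℓ hg hw k1 e' (C := 4 ^ D.card * C) (by positivity) (by
        rwa [← Finset.card_insert_of_notMem e', e]) B e0
      rwa [Finset.card_insert_of_notMem hl, pow_succ', mul_assoc 4]
  obtain ⟨B, hB⟩ := h1.bdd
  filter_upwards [a Finset.univ B.natAbs ε e0] with i hi
  rw [Finset.compl_univ] at hi
  have := hi σ ⟨h1, ⟨0, fun y hy μ => ⟨by simp, fun _ => abs_le.2 (by have := hB y hy μ; omega)⟩⟩,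
    fun y z hy hz μ _ => (h2 y z hy hz).1 μ, fun y z hy hz μ _ e => h3 y z μ hy hz (by omega),
    by simp, fun y z hy hz e => ((h2 y z (gd_ne hy) hz).2 (by rintro rfl; exact e hy)).imp
      fun μ e => ⟨by simp, by omega⟩⟩
  simpa [Nn, show (4 : ℝ) ^ 4 = 256 by norm_num] using this

end Alp

end Pool.Agent.Lib.MP_7f377f_mp.Wu
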