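import Pool.Agent.Lib.MP_7f377f_mp.G.PurQ

/-! A chessboard estimate which moves the letters to a coarse grid. -/

noncomputable section

namespace Pool.Agent.Lib.MP_7f377f_mp.Wu
variable [Pool.Agent.Lib.MP_7f377f_mp.GD]
set_option linter.unusedSectionVars false

open Function Classical

/-- sites -/
abbrev Z4 : Type := Fin 4 → ℤ

/-- reflection of sites -/
def th (l : Fin 4) (p : ℤ) (y : Z4) : Z4 := update y l (2 * p - y l)

@[simp] theorem th_self (l : Fin 4) (p : ℤ) (y : Z4) : th l p y l = 2 * p - y l := by simp [th]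

theorem th_th (l : Fin 4) (p q : ℤ) (y : Z4) :
    th l p (th l q y) = update y l (y l + 2 * (p - q)) := by
  simp only [th, update_idem, update_self]
  congr 1
  ring

@[simp] theorem th_inv (l : Fin 4) (p : ℤ) (y : Z4) : th l p (th l p y) = y := by simp [th_th]

@[simp] theorem upd_th (l : Fin 4) (p t : ℤ) (y : Z4) : update (th l p y) l t = update y l t := by
  simp [th]

/-- alphabets with an empty letter, reflections, good and bad letters and weights -/
structure Alp (γ : Type) where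
  e : γ
  r : Fin 4 → γ → γ
  gd : γ → Prop
  bd : γ → γ
  w : γ → ℝ
  r_e : ∀ l, r l e = e
  r_r : ∀ l a, r l (r l a) = a
  gd_r : ∀ l a, gd (r l a) → gd a
  gd_bd : ∀ a, ¬gd (bd a)
  gd_e : ¬gd e
  bd_e : ∀ a, bd a = e ↔ a = e
  bd_r : ∀ l a, r l (bd a) = bd (r l a)
  w_e : w e = 1
  w_pos : ∀ a, 0 < w a
  w_r : ∀ l a, w (r l a) = w a

namespace Alp

variable {γ : Type} (A : Alp γ) (m ℓ : ℤ) (σ : Z4 → γ) (l : Fin 4) (p : ℤ)

/-- finite configurations -/
def Fi : Prop := {y | σ y ≠ A.e}.Finite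

/-- reflection -/
def R (y : Z4) : γ := A.r l (σ (th l p y))

/-- restriction -/
def cut (P : Z4 → Prop) (y : Z4) : γ := if P y then σ y else A.e

/-- the upper part and its mirror image -/
def sym (y : Z4) : γ := if p ≤ y l then σ y else A.R σ l p y

/-- the lower part and its mirror image -/
def sL : Z4 → γ := A.sym (A.R σ l p) l p

/-- the letters in `P` are declared bad -/
def mr (P : Z4 → Prop) (y : Z4) : γ := if P y then A.bd (σ y) else σ y

/-- the weight -/
def Wt : ℝ := ∏ᶠ y, A.w (σ y)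

/-- free planes -/
def Fr : Prop := ∀ y, σ y ≠ A.e → m ≤ |y l - p|

/-- no free plane between `s` and `t` -/
def Nr (s t : ℤ) : Prop := ∀ p, A.Fr m σ l p → (s < p ↔ t < p)

/-- letters which are near in the directions outside `D` are near only where they agree -/
def Qd (D : Finset (Fin 4)) (P : γ → Prop) : Prop := ∀ y z, P (σ y) → P (σ z) →
  (∀ μ ∉ D, A.Nr m σ μ (y μ) (z μ)) → ∀ μ, A.Nr m σ μ (y μ) (z μ) → y μ = z μ

/-- the classes of configurations of the induction -/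
structure Cl (b : ℤ) (D E : Finset (Fin 4)) : Prop where
  fin : A.Fi σ
  sep : A.Qd m σ ∅ (· ≠ A.e)
  qd : A.Qd m σ D A.gd
  al : ∀ ν ∈ E, ∀ y z, A.gd (σ y) → A.gd (σ z) → ℓ ∣ y ν - z ν
  nw : ∀ μ y z, σ y ≠ A.e → σ z ≠ A.e → A.Nr m σ μ (y μ) (z μ) → |y μ - z μ| ≤ b

/-- functionals with the Schwarz inequality -/
structure Ok (F : (Z4 → γ) → ℝ) : Prop where
  pos : ∀ σ, 0 ≤ F σ
  one : F (fun _ => A.e) ≤ 1
  mrk : ∀ σ P, F (A.mr σ P) = F σ
  inv : ∀ σ l p, A.Fi σ → F (A.R σ l p) = F σ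
  cs : ∀ σ l p, A.Fi σ → A.Fr m σ l p → F σ ^ 2 ≤ F (A.sym σ l p) * F (A.sL σ l p)

variable {A m ℓ σ l p} {m' m₀ q pL pR b : ℤ} {c : Z4 → γ} {D E E' : Finset (Fin 4)}
  {F : (Z4 → γ) → ℝ} {a : γ}

theorem r_ne : A.r l a ≠ A.e ↔ a ≠ A.e :=
  not_congr ⟨fun h => by rw [← A.r_r l a, h, A.r_e], fun h => by rw [h, A.r_e]⟩

theorem gd_ne (h : A.gd a) : a ≠ A.e := fun e => A.gd_e (e ▸ h)

@[simp] theorem R_R : A.R (A.R σ l p) l p = σ := funext fun y => by simp [R, A.r_r]

theorem Fi.mono (h : A.Fi σ) (h' : ∀ y, c y ≠ A.e → σ y ≠ A.e) : A.Fi c := h.subset h'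

theorem Fi.R (h : A.Fi σ) (l : Fin 4) (p : ℤ) : A.Fi (A.R σ l p) :=
  (h.image (th l p)).subset fun y hy => ⟨_, r_ne.1 hy, th_inv l p y⟩

theorem Fi.cut (h : A.Fi σ) (P : Z4 → Prop) : A.Fi (A.cut σ P) := h.mono fun y hy e => by
  simp [Alp.cut, e] at hy

theorem Fi.sym (h : A.Fi σ) (l : Fin 4) (p : ℤ) : A.Fi (A.sym σ l p) :=
  (h.union (h.R l p)).subset fun y hy => by
    simp only [Set.mem_setOf_eq, Alp.sym] at hy
    split_ifs at hy
    exacts [.inl hy, .inr hy]

theorem mr_ne {P : Z4 → Prop} {y : Z4} : A.mr σ P y ≠ A.e ↔ σ y ≠ A.e := by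
  unfold mr
  split_ifs
  exacts [not_congr (A.bd_e _), Iff.rfl]

theorem Fr.mono (h : A.Fr m σ l p) (hm : m' ≤ m) : A.Fr m' σ l p := fun y hy => hm.trans (h y hy)

theorem Fr.R (h : A.Fr m σ l q) (p : ℤ) : A.Fr m (A.R σ l p) l (2 * p - q) := fun y hy => by
  have := h _ (r_ne.1 hy)
  rwa [th_self, abs_sub_comm, show q - (2 * p - y l) = y l - (2 * p - q) by ring] at this

theorem Fr.R' (h : A.Fr m σ l p) : A.Fr m (A.R σ l p) l p := by
  have := h.R p
  rwa [show 2 * p - p = p by ring] at this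

theorem Fr.sym (h : A.Fr m σ l p) (h' : A.Fr m σ l q) (hq : p ≤ q) :
    A.Fr m (A.sym σ l p) l q := fun y hy => by
  unfold Alp.sym at hy
  split_ifs at hy with e
  · exact h' y hy
  · have := h.R' y hy
    rw [abs_of_neg (by omega)] at this ⊢
    omega

theorem Fr.emp (h : A.Fr m σ l p) (m0 : 0 < m) {y : Z4} (hy : y l = p) : σ y = A.e := by
  by_contra e
  have := h y e
  rw [hy, sub_self, abs_zero] at this
  omega

theorem Fr.R_sym (h : A.Fr m σ l p) (m0 : 0 < m) : A.R (A.sym σ l p) l p = A.sym σ l p := by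
  funext y
  simp only [Alp.R, Alp.sym, th_self, th_inv, A.r_r, apply_ite (A.r l)]
  split_ifs with h1 h2 h2
  · rw [h.emp m0 (y := y) (by omega), h.emp m0 (by rw [th_self]; omega), A.r_e]
  · rfl
  · rfl
  · omega

theorem wt_cut (h : A.Fi σ) (P : Z4 → Prop) :
    A.Wt σ = A.Wt (A.cut σ P) * A.Wt (A.cut σ fun y => ¬P y) := by
  have f : ∀ {c}, A.Fi c → HasFiniteMulSupport fun y => A.w (c y) := fun h =>
    h.subset fun y hy e => hy (by simp only [e, A.w_e])
  rw [Wt, Wt, Wt, ← finprod_mul_distrib (f (h.cut _)) (f (h.cut _))]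
  refine finprod_congr fun y => ?_
  by_cases e : P y <;> simp [cut, e, A.w_e]

theorem wt_R (σ : Z4 → γ) (l : Fin 4) (p : ℤ) : A.Wt (A.R σ l p) = A.Wt σ := by
  simp only [Wt, R, A.w_r]
  exact finprod_comp_equiv (Involutive.toPerm _ (th_inv l p)) (f := fun y => A.w (σ y))

theorem wt_pos (σ : Z4 → γ) : 0 < A.Wt σ :=
  finprod_induction _ one_pos (fun _ _ => mul_pos) fun _ => A.w_pos _

theorem wt_sym (h : A.Fi σ) (hp : A.Fr m σ l p) (m0 : 0 < m) :
    A.Wt (A.sym σ l p) = A.Wt (A.cut σ fun y => p < y l) ^ 2 := by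
  rw [wt_cut (h.sym l p) fun y => p < y l, ← wt_R (A.cut _ fun y => ¬p < y l) l p, sq]
  congr 2 <;> funext y
  · by_cases e : p < y l <;> simp [cut, sym, e, le_of_lt]
  · simp only [R, cut, sym, th_self, th_inv, A.r_r, apply_ite (A.r l), A.r_e]
    split_ifs with h1 h2 h3 <;> try first | rfl | omega
    rw [hp.emp m0 (by rw [th_self]; omega), A.r_e]

theorem wt_sL (h : A.Fi σ) (hp : A.Fr m σ l p) (m0 : 0 < m) :
    A.Wt (A.sL σ l p) = A.Wt (A.cut σ fun y => y l < p) ^ 2 := by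
  rw [sL, wt_sym (h.R l p) hp.R' m0, ← wt_R (A.cut σ _) l p]
  congr 2
  funext y
  simp only [R, cut, th_self, apply_ite (A.r l), A.r_e]
  exact if_congr (by omega) rfl rfl

theorem sL_congr (h : ∀ y, y l ≤ p → c y = σ y) : A.sL c l p = A.sL σ l p := by
  funext y
  simp only [sL, sym, R_R]
  split_ifs with e
  · rw [R, R, h _ (by rw [th_self]; omega)]
  · exact h y (by omega)

variable (A m m' ℓ σ l pL pR D) in
/-- `c` consists of mirror images of parts of `σ`; the good letters come from the block -/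
structure Der (c : Z4 → γ) (s : ℤ → ℤ) : Prop where
  fin : A.Fi c
  occ : ∀ y, c y ≠ A.e → σ (update y l (s (y l))) ≠ A.e
  gd : ∀ y, A.gd (c y) → A.gd (σ (update y l (s (y l)))) ∧ pL < s (y l) ∧ s (y l) < pR ∧
    (D = Finset.univ → ℓ ∣ y l - pL ∧ ℓ ∣ pR - pL)
  nr : ∀ y z, c y ≠ A.e → c z ≠ A.e → A.Nr m' c l (y l) (z l) →
    A.Nr m σ l (s (y l)) (s (z l)) ∧ |y l - z l| = |s (y l) - s (z l)|

variable {s : ℤ → ℤ}

theorem Nr.R {y z : Z4} (m0 : 0 < m) (hy : A.R c l p y ≠ A.e) (hz : A.R c l p z ≠ A.e)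
    (h : A.Nr m (A.R c l p) l (y l) (z l)) : A.Nr m c l (2 * p - y l) (2 * p - z l) :=
  fun q hq => by
    have h1 := h _ (hq.R p)
    have h2 := le_abs.1 (hq.R p y hy)
    have h3 := le_abs.1 (hq.R p z hz)
    omega

theorem Der.R (h : A.Der m ℓ σ l m' pL pR D c s) (m0 : 0 < m') (k : ℤ) :
    A.Der m ℓ σ l m' pL pR D (A.R c l (pL + k * (pR - pL))) fun t =>
      s (2 * (pL + k * (pR - pL)) - t) where
  fin := h.fin.R _ _
  occ y hy := by simpa using h.occ _ (r_ne.1 hy)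
  gd y hy := by
    obtain ⟨h1, h2, h3, h4⟩ := h.gd _ (A.gd_r _ _ hy)
    simp only [th_self, upd_th] at h1 h2 h3 h4
    refine ⟨h1, h2, h3, fun e => ⟨?_, (h4 e).2⟩⟩
    exact (((h4 e).2.mul_left (2 * k)).sub (h4 e).1).trans (dvd_of_eq (by ring))
  nr y z hy hz e := by
    have := h.nr _ _ (r_ne.1 hy) (r_ne.1 hz) (by simpa using e.R m0 hy hz)
    simp only [th_self] at this
    exact ⟨this.1, by rw [← this.2, sub_sub_sub_cancel_left, abs_sub_comm]⟩

theorem Der.sym (h : A.Der m ℓ σ l m' pL pR D c s) (m0 : 0 < m') (k : ℤ)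
    (hp : A.Fr m' c l (pL + k * (pR - pL))) :
    A.Der m ℓ σ l m' pL pR D (A.sym c l (pL + k * (pR - pL))) fun t =>
      if pL + k * (pR - pL) ≤ t then s t else s (2 * (pL + k * (pR - pL)) - t) := by
  have h' := h.R m0 k
  generalize pL + k * (pR - pL) = p at hp h' ⊢
  have key : ∀ y z, p ≤ y l → p ≤ z l → c y ≠ A.e → c z ≠ A.e →
      A.Nr m' (A.sym c l p) l (y l) (z l) → A.Nr m' c l (y l) (z l) :=
    fun y z e1 e2 _ _ e q hq => by
      by_cases e3 : p ≤ q
      · exact e q (hp.sym hq e3)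
      · omega
  refine ⟨h.fin.sym _ _, fun y hy => ?_, fun y hy => ?_, fun y z hy hz e => ?_⟩
  · unfold Alp.sym at hy
    split_ifs at hy ⊢
    exacts [h.occ y hy, h'.occ y hy]
  · unfold Alp.sym at hy
    split_ifs at hy ⊢
    exacts [h.gd y hy, h'.gd y hy]
  · have e0 := e p (hp.sym hp le_rfl)
    have e1 := e
    rw [← hp.R_sym m0] at e1
    replace e1 := e1.R m0 (by rwa [hp.R_sym m0]) (by rwa [hp.R_sym m0])
    unfold Alp.sym at hy hz
    split_ifs at hy hz ⊢ with h1 h2 h2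
    · exact h.nr y z hy hz (key y z h1 h2 hy hz e)
    · omega
    · omega
    · have := h.nr _ _ (r_ne.1 hy) (r_ne.1 hz) (key _ _ (by rw [th_self]; omega)
        (by rw [th_self]; omega) (r_ne.1 hy) (r_ne.1 hz) (by simpa using e1))
      simp only [th_self] at this
      exact ⟨this.1, by rw [← this.2, sub_sub_sub_cancel_left, abs_sub_comm]⟩

theorem Der.cl (h : A.Der m ℓ σ l m' pL pR D c s) (hσ : A.Cl m ℓ σ b D E) (hm : m' ≤ m)
    (hB : ∀ y z, A.gd (σ y) → A.gd (σ z) → pL < y l → y l < pR → pL < z l → z l < pR →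
      A.Nr m σ l (y l) (z l)) (hE : ∀ ν ∈ E', ν ≠ l → ν ∈ E) (hl : l ∈ E' → D = Finset.univ) :
    A.Cl m' ℓ c b (insert l D) E' := by
  have n1 : ∀ {μ a b}, μ ≠ l → A.Nr m' c μ a b → A.Nr m σ μ a b := fun e e' q hq =>
    e' q fun y hy => hm.trans (by simpa [e] using hq _ (h.occ y hy))
  have key : ∀ (D : Finset (Fin 4)) y z, c y ≠ A.e → c z ≠ A.e →
      A.Nr m σ l (s (y l)) (s (z l)) → (∀ μ ∉ D, μ ≠ l → A.Nr m' c μ (y μ) (z μ)) →
      ((∀ μ ∉ D, A.Nr m σ μ (update y l (s (y l)) μ) (update z l (s (z l)) μ)) → ∀ μ,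
        A.Nr m σ μ (update y l (s (y l)) μ) (update z l (s (z l)) μ) →
          update y l (s (y l)) μ = update z l (s (z l)) μ) →
      ∀ μ, A.Nr m' c μ (y μ) (z μ) → y μ = z μ := fun D y z hy hz e1 e2 e3 μ e4 => by
    have e5 := e3 (fun ν hν => by
      by_cases e : ν = l
      · simpa [e] using e1
      · simpa [e] using n1 e (e2 ν hν e)) μ
    by_cases e : μ = l
    · subst e
      simp only [update_self] at e5
      simpa [e5 e1, sub_eq_zero] using (h.nr y z hy hz e4).2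
    · simp only [update_of_ne e] at e5
      exact e5 (n1 e e4)
  refine ⟨h.fin, fun y z hy hz e => key ∅ y z hy hz (h.nr y z hy hz (e l (by simp))).1
    (fun μ hμ _ => e μ hμ) (hσ.sep _ _ (h.occ y hy) (h.occ z hz)), fun y z hy hz e => ?_,
    fun ν hν y z hy hz => ?_, fun μ y z hy hz e => ?_⟩
  · obtain ⟨a1, a2, a3, -⟩ := h.gd y hy
    obtain ⟨b1, b2, b3, -⟩ := h.gd z hz
    exact key D y z (gd_ne hy) (gd_ne hz) (by
      simpa using hB _ _ a1 b1 (by simpa) (by simpa) (by simpa) (by simpa)) (fun μ hμ e' => e μ (by simp [hμ, e'])) (hσ.qd _ _ a1 b1)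
  · by_cases e : ν = l
    · subst e
      simpa using ((h.gd y hy).2.2.2 (hl hν)).1.sub ((h.gd z hz).2.2.2 (hl hν)).1
    · simpa [e] using hσ.al ν (hE ν hν e) _ _ (h.gd y hy).1 (h.gd z hz).1
  · have := hσ.nw μ _ _ (h.occ y hy) (h.occ z hz)
    by_cases e' : μ = l
    · subst e'
      simp only [update_self] at this
      exact (h.nr y z hy hz e).2 ▸ this (h.nr y z hy hz e).1
    · simp only [update_of_ne e'] at this
      exact this (n1 e' e)

/-- doubling of the block between two free planes -/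
theorem dbl (hF : A.Ok m₀ F) (m0 : 0 < m₀) (h0 : m₀ ≤ m') (hm : m' ≤ m) (hσ : A.Cl m ℓ σ b D E)
    (hE : ∀ ν ∈ E', ν ≠ l → ν ∈ E) (hl : l ∈ E' → D = Finset.univ)
    (H : ∀ c, A.Cl m' ℓ c b (insert l D) E' → F c ≤ A.Wt c) (hp : pL ≤ pR) (hL : A.Fr m' σ l pL)
    (hR : A.Fr m' σ l pR)
    (hB : ∀ y z, A.gd (σ y) → A.gd (σ z) → pL < y l → y l < pR → pL < z l → z l < pR →
      A.Nr m σ l (y l) (z l))
    (hA : D = Finset.univ → ∀ y, A.gd (σ y) → pL < y l → y l < pR → ℓ ∣ y l - pL ∧ ℓ ∣ pR - pL)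
    (h : F (A.sL σ l pL) ≤ A.Wt (A.sL σ l pL)) : F (A.sL σ l pR) ≤ A.Wt (A.sL σ l pR) := by
  have m1 : 0 < m' := m0.trans_le h0
  obtain ⟨u, hu⟩ : ∃ u, u = A.mr σ fun y => ¬(pL < y l ∧ y l < pR) := ⟨_, rfl⟩
  have u0 : ∀ {y}, u y ≠ A.e ↔ σ y ≠ A.e := hu ▸ mr_ne
  have u1 : ∀ {m q}, A.Fr m σ l q → A.Fr m u l q := fun e y hy => e y (u0.1 hy)
  have u2 : A.Der m ℓ σ l m' pL pR D u id := ⟨hσ.fin.mono fun _ => u0.1, fun y hy => by
    simpa using u0.1 hy, fun y hy => by
      rw [hu, mr] at hy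
      split_ifs at hy with e
      · exact ⟨by simpa, e.1, e.2, fun e' => hA e' y hy e.1 e.2⟩
      · exact (A.gd_bd _ hy).elim, fun y z _ _ e => ⟨fun q hq => e q (u1 (hq.mono hm)), rfl⟩⟩
  have u3 : ∀ p, F (A.sL u l p) = F (A.sL σ l p) := fun p => by
    generalize (fun y : Z4 => ¬(pL < y l ∧ y l < pR)) = P at hu
    rw [← hF.mrk (A.sL σ l p) fun y => P (if p ≤ y l then th l p y else y), hu]
    congr 1
    funext y
    by_cases e : p ≤ y l <;> simp [sL, sym, mr, R, e, apply_ite (A.r l), A.bd_r, A.r_r]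
  have W0 : 0 ≤ pR - pL := by omega
  obtain ⟨c, c0, c1⟩ : ∃ c : ℕ → Z4 → γ, c 0 = A.sL u l pR ∧
      ∀ j, c (j + 1) = A.R (A.sym (c j) l pL) l (pL + 2 ^ j * (pR - pL)) :=
    ⟨Nat.rec _ fun j v => A.R (A.sym v l pL) l (pL + 2 ^ j * (pR - pL)), rfl, fun _ => rfl⟩
  obtain ⟨a, ha⟩ : ∃ a, a = A.Wt (A.cut u fun y => y l < pL) := ⟨_, rfl⟩
  obtain ⟨η, hη⟩ : ∃ η, η = A.Wt (A.cut σ fun y => pL < y l ∧ y l < pR) := ⟨_, rfl⟩
  have split : ∀ v, A.Fi v → A.Fr m' v l pL → A.Wt (A.cut v fun y => y l < pR) =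
      A.Wt (A.cut v fun y => y l < pL) * A.Wt (A.cut v fun y => pL < y l ∧ y l < pR) :=
    fun v v1 v2 => by
      rw [wt_cut (v1.cut _) fun y => y l < pL]
      congr 2 <;> funext y <;> simp only [cut] <;> split_ifs <;>
        first | rfl | omega | exact v2.emp m1 (by omega)
  have inv : ∀ j, (∃ s, A.Der m ℓ σ l m' pL pR D (c j) s) ∧ A.Fr m' (c j) l pL ∧
      (∀ y, y l ≤ pL → c j y = u y) ∧ A.R (c j) l (pL + 2 ^ j * (pR - pL)) = c j ∧
      A.Wt (c j) = (η ^ 2) ^ 2 ^ j * a ^ 2 := fun j => by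
    induction j with
    | zero =>
      have e : pL + 1 * (pR - pL) = pR := by ring
      have d := (u2.R m1 1).sym m1 1 (e.symm ▸ (u1 hR).R')
      rw [c0, pow_zero, pow_zero, pow_one, e]
      rw [e] at d
      refine ⟨⟨_, d⟩, fun y hy => ?_, fun y hy => ?_, (u1 hR).R'.R_sym m1, ?_⟩
      · simp only [sL, sym, R_R] at hy
        split_ifs at hy with e
        · have := le_abs.1 ((u1 hR).R' y hy)
          exact le_abs.2 (by omega)
        · exact u1 hL y hy
      · simp only [sL, sym, R_R]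
        split_ifs
        · rw [(u1 hR).R'.emp m1 (by omega), (u1 hR).emp m1 (by omega)]
        · rfl
      · rw [wt_sL u2.fin (u1 hR) m1, split u u2.fin (u1 hL), ← ha, hη, mul_pow, mul_comm]
        congr 3
        funext y
        simp only [cut, hu, mr]
        split_ifs <;> rfl
    | succ j ih =>
      obtain ⟨⟨s, d⟩, i1, i2, i3, i4⟩ := ih
      have e : pL + 0 * (pR - pL) = pL := by ring
      have d1 := d.sym m1 0 (e.symm ▸ i1)
      rw [e] at d1
      have t0 : 0 ≤ 2 ^ j * (pR - pL) := by positivity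
      have e1 : ∀ y, y l ≤ pL + 2 * (2 ^ j * (pR - pL)) → c (j + 1) y = c j y := fun y hy => by
        rw [c1, R, sym, if_pos (by rw [th_self]; omega), ← R, i3]
      have f1 : A.Fr m' (c (j + 1)) l pL := fun y hy => by
        by_cases e2 : y l ≤ pL + 2 * (2 ^ j * (pR - pL))
        · exact i1 y (e1 y e2 ▸ hy)
        · rw [c1] at hy
          have := le_abs.1 ((i1.sym i1 le_rfl).R _ y hy)
          exact le_abs.2 (by omega)
      have d2 := d1.R m1 (2 ^ j)
      rw [← c1] at d2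
      refine ⟨⟨_, d2⟩, f1, fun y hy => (e1 y (by omega)).trans (i2 y hy), ?_, ?_⟩
      · funext y
        have := congrFun (i1.R_sym m1) (th l (pL + 2 ^ j * (pR - pL)) y)
        rw [c1, R, R, R, ← this, R, th_th, th_th]
        congr 4
        ring
      · have e3 := wt_cut d.fin fun y => pL < y l
        rw [i4, show (A.cut (c j) fun y => ¬pL < y l) = A.cut u fun y => y l < pL from
          funext fun y => by
            simp only [cut]
            split_ifs <;> first | rfl | omega | exact i2 y (by omega) |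
              exact i1.emp m1 (by omega), ← ha, sq a, ← mul_assoc] at e3
        rw [c1, wt_R, wt_sym d.fin i1 m1, ← mul_right_cancel₀ (ha ▸ wt_pos _).ne' e3, mul_pow,
          pow_succ 2 j, pow_mul]
  have key := Pur.dbl_le (x := fun j => F (c j)) (β := F (A.sL σ l pL)) (η := η ^ 2) (M := a ^ 2)
    (hF.pos _) (sq_nonneg _) (fun j => ?_) fun j => ?_
  · rw [c0, u3] at key
    rw [wt_sL hσ.fin hR m1, split σ hσ.fin hL, ← hη, mul_pow, mul_comm, ← wt_sL hσ.fin hL m1]
    exact key.trans (mul_le_mul_of_nonneg_left h (sq_nonneg _))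
  · obtain ⟨⟨s, d⟩, i1, i2, -⟩ := inv j
    rw [c1, hF.inv _ _ _ (d.fin.sym _ _), ← u3, ← sL_congr i2, mul_comm]
    exact hF.cs _ _ _ d.fin (i1.mono h0)
  · obtain ⟨⟨s, d⟩, -, -, -, i4⟩ := inv j
    exact i4 ▸ H _ (d.cl hσ hm hB hE hl)

theorem Fi.bdd (h : A.Fi σ) : ∃ B : ℤ, ∀ y, σ y ≠ A.e → ∀ l, -B ≤ y l ∧ y l ≤ B := by
  obtain ⟨B, hB⟩ := ((h.prod (Set.finite_univ (α := Fin 4))).image fun q => |q.1 q.2|).bddAbove
  exact ⟨B, fun y hy l => abs_le.1 (hB ⟨(y, l), ⟨hy, trivial⟩, rfl⟩)⟩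

/-- one direction -/
theorem step (hF : A.Ok m₀ F) (m0 : 0 < m₀) (h0 : m₀ ≤ m') (l0 : 0 < ℓ) (hm : m' + ℓ ≤ m)
    (hE : ∀ ν ∈ E', ν ≠ l → ν ∈ E) (hl : l ∈ E' → D = Finset.univ)
    (H : ∀ c, A.Cl m' ℓ c b (insert l D) E' → F c ≤ A.Wt c) (hσ : A.Cl m ℓ σ b D E) :
    F σ ≤ A.Wt σ := by
  have m1 : 0 < m := by omega
  obtain ⟨B, hB⟩ := hσ.fin.bdd
  have d := fun {pL pR} => dbl (pL := pL) (pR := pR) hF m0 h0 (by omega) hσ hE hl H
  have key : ∀ (n : ℕ) p, p ≤ n - B → A.Fr m σ l p → F (A.sL σ l p) ≤ A.Wt (A.sL σ l p) := by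
    intro n
    induction n with
    | zero =>
      intro p hp h
      have e : A.sL σ l p = fun _ => A.e := by
        rw [sL_congr (σ := fun _ => A.e) fun y hy => by
          by_contra e
          have := le_abs.1 (h y e)
          have := (hB y e l).1
          omega]
        funext y
        simp [sL, sym, R, A.r_e]
      rw [e, Wt]
      simpa [A.w_e] using hF.one
    | succ n ih =>
      intro p hp h
      obtain ⟨q, ⟨q1, q2⟩, q3⟩ := Int.exists_greatest_of_bdd (P := fun q => q < p ∧ A.Fr m σ l q)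
        ⟨p, fun _ e => e.1.le⟩ ⟨min (p - 1) (-B - m), by omega, fun y hy => le_abs.2 (.inl (by
          have := (hB y hy l).1
          omega))⟩
      have nr : ∀ s t, q < s → s < p → q < t → t < p → A.Nr m σ l s t := fun s t _ _ _ _ p' e => by
        by_cases e' : p' < p
        · have := q3 p' ⟨e', e⟩
          omega
        · omega
      have i := ih q (by omega) q2
      by_cases g : ∃ y, A.gd (σ y) ∧ q < y l ∧ y l < p
      · obtain ⟨y, g1, g2, g3⟩ := g
        have a1 := le_abs.1 (h y (gd_ne g1))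
        have a2 := le_abs.1 (q2 y (gd_ne g1))
        have b1 := Int.emod_nonneg (y l - q) l0.ne'
        have b2 := Int.emod_lt_of_pos (y l - q) l0
        have b3 := Int.emod_nonneg (p - y l) l0.ne'
        have b4 := Int.emod_lt_of_pos (p - y l) l0
        have b5 : ℓ ∣ y l - (q + (y l - q) % ℓ) := ⟨(y l - q) / ℓ, by
          linarith [Int.emod_add_mul_ediv (y l - q) ℓ]⟩
        have b6 : ℓ ∣ p - (p - y l) % ℓ - y l := ⟨(p - y l) / ℓ, by
          linarith [Int.emod_add_mul_ediv (p - y l) ℓ]⟩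
        generalize (y l - q) % ℓ = s at *
        generalize (p - y l) % ℓ = t at *
        have f1 : A.Fr m' σ l (q + s) := fun z hz => by
          have := le_abs.1 (q2 z hz)
          exact le_abs.2 (by omega)
        have f2 : A.Fr m' σ l (p - t) := fun z hz => by
          have := le_abs.1 (h z hz)
          exact le_abs.2 (by omega)
        refine d (by omega) f2 (h.mono (by omega)) (fun z _ hz _ _ _ _ _ => ?_)
          (fun _ z hz _ _ => ?_) (d (by omega) f1 f2 (fun _ _ _ _ _ _ _ _ => nr _ _ (by omega)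
            (by omega) (by omega) (by omega)) (fun e z hz _ _ => ?_)
          (d (by omega) (q2.mono (by omega)) f1 (fun z _ hz _ _ _ _ _ => ?_)
            (fun _ z hz _ _ => ?_) i))
        · have := le_abs.1 (h z (gd_ne hz))
          omega
        · have := le_abs.1 (h z (gd_ne hz))
          omega
        · rw [hσ.qd z y hz g1 (by simp [e]) l (nr _ _ (by omega) (by omega) g2 g3)]
          exact ⟨b5, by simpa using b6.add b5⟩
        · have := le_abs.1 (q2 z (gd_ne hz))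
          omega
        · have := le_abs.1 (q2 z (gd_ne hz))
          omega
      · exact d q1.le (q2.mono (by omega)) (h.mono (by omega))
          (fun y _ e _ e1 e2 => (g ⟨y, e, e1, e2⟩).elim)
          (fun _ y e e1 e2 => (g ⟨y, e, e1, e2⟩).elim) i
  have f : A.Fr m σ l (B + m) := fun y hy => le_abs.2 (.inr (by
    have := (hB y hy l).2
    omega))
  have e : A.sym σ l (B + m) = fun _ => A.e := funext fun y => by
    by_contra e
    have := le_abs.1 (f.sym f le_rfl y e)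
    unfold sym at e
    split_ifs at e
    · have := (hB y e l).2
      omega
    · have := (hB _ (r_ne.1 e) l).2
      rw [th_self] at this
      omega
  have c := hF.cs σ l _ hσ.fin (f.mono (by omega))
  have k := key (2 * B + m).toNat _ (by omega) f
  rw [wt_sL hσ.fin f m1, show (A.cut σ fun y => y l < B + m) = σ from funext fun y => by
    unfold cut
    split_ifs
    · rfl
    · by_contra e
      have := (hB y (Ne.symm e) l).2
      omega] at k
  rw [e] at c
  exact le_of_sq_le_sq (c.trans ((mul_le_of_le_one_left (hF.pos _) hF.one).trans k))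
    (wt_pos σ).le

/-- it is enough to consider good letters which form a product set -/
theorem main (hF : A.Ok m₀ F) (m0 : 0 < m₀) (h0 : m₀ ≤ m) (b0 : 0 ≤ b)
    (H : ∀ c, A.Fi c → (∀ y z, c y ≠ A.e → c z ≠ A.e → (∀ μ, |y μ - z μ| ≤ b ∨ 2 * m ≤ |y μ - z μ|) ∧
      (y ≠ z → ∃ μ, 2 * m ≤ |y μ - z μ|)) →
      (∀ y z μ, A.gd (c y) → A.gd (c z) → |y μ - z μ| < 2 * m → y μ = z μ) → F c ≤ A.Wt c)
    (h1 : A.Fi σ) (h2 : ∀ y z, σ y ≠ A.e → σ z ≠ A.e →
      (∀ μ, |y μ - z μ| ≤ b ∨ b + 2 * (m + 4) ≤ |y μ - z μ|) ∧ (y ≠ z → ∃ μ, b < |y μ - z μ|)) :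
    F σ ≤ A.Wt σ := by
  have a : ∀ D : Finset (Fin 4), ∀ c, A.Cl (m + D.card) 1 c b Dᶜ ∅ → F c ≤ A.Wt c := fun D => by
    induction D using Finset.induction_on with
    | empty =>
      simp only [Finset.card_empty, Nat.cast_zero, add_zero, Finset.compl_empty]
      intro c hc
      have nr : ∀ {y z ν}, c y ≠ A.e → c z ≠ A.e → |y ν - z ν| < 2 * m →
          A.Nr m c ν (y ν) (z ν) := fun hy hz n p hp => by
        have a1 := le_abs.1 (hp _ hy)
        have a2 := le_abs.1 (hp _ hz)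
        have a3 := abs_lt.1 n
        omega
      refine H c hc.fin (fun y z hy hz => ⟨fun μ => (lt_or_ge _ _).imp_left fun e =>
        hc.nw μ y z hy hz (nr hy hz e), fun e => ?_⟩) fun y z μ hy hz e =>
          hc.qd y z hy hz (by simp) μ (nr (gd_ne hy) (gd_ne hz) e)
      by_contra! n
      exact e (funext fun μ => hc.sep y z hy hz (fun ν _ => nr hy hz (n ν)) μ (nr hy hz (n μ)))
    | insert l D hl ih =>
      refine fun c => step (l := l) (m' := m + D.card) (E' := ∅) hF m0 (by omega) one_pos (by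
        rw [Finset.card_insert_of_notMem hl]
        omega) (by simp) (by simp) ?_
      rwa [show insert l (insert l D)ᶜ = Dᶜ by
        ext ν
        by_cases e : ν = l <;> simp [e, hl]]
  have nw : ∀ μ y z, σ y ≠ A.e → σ z ≠ A.e → A.Nr (m + 4) σ μ (y μ) (z μ) → |y μ - z μ| ≤ b :=
    fun μ y z hy hz e => by
      by_contra! n
      wlog o : y μ ≤ z μ generalizing y z
      · exact this z y hz hy (fun p hp => (e p hp).symm) (by rwa [abs_sub_comm]) (by omega)
      have := e (y μ + b + (m + 4)) fun x hx => by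
        have := (h2 x y hx hy).1 μ
        rw [abs_le, le_abs] at this
        exact le_abs.2 (by omega)
      have a1 := (h2 y z hy hz).1 μ
      rw [abs_of_nonpos (by omega)] at n a1
      omega
  have s : ∀ P : γ → Prop, (∀ a, P a → a ≠ A.e) → A.Qd (m + 4) σ ∅ P :=
    fun P hP y z hy hz e μ _ => by
      by_contra n
      obtain ⟨ν, e1⟩ := (h2 y z (hP _ hy) (hP _ hz)).2 fun e => n (congrFun e μ)
      exact e1.not_ge (nw ν y z (hP _ hy) (hP _ hz) (e ν (by simp)))
  refine a Finset.univ σ ?_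
  rw [Finset.compl_univ, Finset.card_univ, Fintype.card_fin]
  exact ⟨h1, s _ fun _ => id, s _ fun _ => gd_ne, by simp, nw⟩

end Alp

end Pool.Agent.Lib.MP_7f377f_mp.Wu
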