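import Pool.Agent.Lib.MP_7f377f_mp.G.WyD

/-! Exact properties of lattice observables. -/

noncomputable section

namespace Pool.Agent.Lib.MP_7f377f_mp.Wy
variable [Pool.Agent.Lib.MP_7f377f_mp.GD]
set_option linter.unusedSectionVars false

open MeasureTheory Filter Topology Set Real YM7 Weak L6 MvPolynomial Wv ComplexConjugate Function
open Wu (Z4)

variable {n : ℕ}

theorem tz_tz (y z : Z4) (U : Fz) : tz y (tz z U) = tz (z + y) U := by
  funext l
  simp only [tz, add_assoc]

@[simp] theorem tz_zero (U : Fz) : tz 0 U = U := by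
  funext l
  simp [tz]

theorem rz_rz (μ : Fin 4) (U : Fz) : rz μ (rz μ U) = U := by
  funext ⟨x, i⟩
  by_cases u : i = μ <;> simp [rz, u]

theorem rz_tz (μ : Fin 4) (y : Z4) (U : Fz) : rz μ (tz (Wu.th μ 0 y) U) = tz y (rz μ U) := by
  have e : ∀ (x : Z4) (t : ℤ), Wu.th μ 0 y + update x μ (-x μ - t) =
      update (y + x) μ (-(y μ + x μ) - t) := fun x t => funext fun l => by
    by_cases u : l = μ <;> simp [Wu.th, u]
    ring
  funext ⟨x, i⟩
  have := e x 0
  simp only [sub_zero] at this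
  simp only [rz, tz, e, this, Pi.add_apply]

theorem rz_comm (μ ν : Fin 4) (U : Fz) : rz μ (rz ν U) = rz ν (rz μ U) := by
  rcases eq_or_ne μ ν with rfl | u
  · rfl
  funext ⟨x, i⟩
  by_cases e1 : i = μ <;> by_cases e2 : i = ν <;>
    simp_all [rz, update_comm u, update_of_ne u, update_of_ne u.symm]

theorem inv4_rz : Lm.Inv4 rz := ⟨rz_rz, rz_comm⟩

theorem lf_shift (y : Z4) (U : Cfg n) : lf (shift (fun i => (y i : ZMod n)) U) = tz y (lf U) := by
  funext l
  simp only [lf, shift, tz]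
  congr 2
  funext i
  simp [add_comm]

theorem lf_refl (μ : Fin 4) (U : Cfg n) : lf (Weak.refl μ U) = rz μ (lf U) := by
  funext ⟨x, i⟩
  simp only [lf, rz, Weak.refl, rl]
  split_ifs
  · congr 3
    funext l
    by_cases u : l = μ <;> simp [rc, Weak.rf, u]
  · congr 2
    funext l
    by_cases u : l = μ <;> simp [Weak.rf, u]

theorem lf_prm (σ : Equiv.Perm (Fin 4)) (U : Cfg n) : lf (prm σ U) = qz σ (lf U) := rfl

@[fun_prop] theorem cont_tz (y : Z4) : Continuous (tz y) := by
  unfold tz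
  fun_prop

@[fun_prop] theorem cont_rz (μ : Fin 4) : Continuous (rz μ) :=
  continuous_pi fun e => by
    unfold rz
    split_ifs <;> fun_prop

@[fun_prop] theorem cont_qz (σ : Equiv.Perm (Fin 4)) : Continuous (qz σ) := by
  unfold qz
  fun_prop

@[fun_prop] theorem cont_lf : Continuous (lf (n := n)) := by
  unfold lf
  fun_prop

/-- functions of the links in a half of the torus -/
theorem dep_lf [NeZero n] {α : Type} {F : Fz → α} {μ : Fin 4}
    (h : DependsOn F {l | ∃ k : ℤ, 0 ≤ l.1 μ + k * n ∧ 2 * (l.1 μ + k * n + 1) ≤ n}) :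
    Dep (n / 2) μ fun U : Cfg n => F (lf U) := fun U V e => h fun l ⟨k, k1, k2⟩ => e _ (by
  have v : ((l.1 μ : ZMod n).val : ℤ) = l.1 μ + k * n := by
    rw [ZMod.val_intCast, ← Int.add_mul_emod_self_right _ k, Int.emod_eq_of_lt k1 (by omega)]
  exact ⟨by simp only; omega, fun _ => by simp only; omega⟩)

variable [MeasurableSpace SU2] [BorelSpace SU2] {h : Measure SU2} [h.IsHaarMeasure]
  [IsProbabilityMeasure h] [NeZero n] {b : ℝ} {F G : Fz → ℂ}

theorem ex_int (hF : Continuous F) : Integrable (fun U : Cfg n => F (lf U)) (wilson h b n) :=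
  (hF.comp cont_lf).integrable_of_hasCompactSupport (HasCompactSupport.of_compactSpace _)

theorem ex_mp {Θ : Cfg n → Cfg n} (hΘ : MeasurePreserving Θ (wilson h b n) (wilson h b n))
    {T : Fz → Fz} (e : ∀ U, lf (Θ U) = T (lf U)) (hF : Continuous F) :
    ex h b n (fun U => F (T U)) = ex h b n F := by
  simp only [ex, ← e]
  conv_rhs => rw [← hΘ.map_eq]
  exact (integral_map hΘ.measurable.aemeasurable (hF.comp cont_lf).aestronglyMeasurable).symm

theorem ex_tz (y : Z4) (hF : Continuous F) : ex h b n (fun U => F (tz y U)) = ex h b n F :=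
  ex_mp (mp_shift' h b _) (lf_shift y) hF

theorem ex_rz (μ : Fin 4) (hF : Continuous F) : ex h b n (fun U => F (rz μ U)) = ex h b n F :=
  ex_mp (mp_refl' h b μ) (lf_refl μ) hF

theorem ex_prm (σ : Equiv.Perm (Fin 4)) (hF : Continuous F) :
    ex h b n (fun U => F (qz σ U)) = ex h b n F := ex_mp (mp_prm h b σ) (lf_prm σ) hF

theorem ex_const (c : ℂ) : ex h b n (fun _ => c) = c := by simp [ex]

theorem ex_mul (c : ℂ) (F : Fz → ℂ) : ex h b n (fun U => c * F U) = c * ex h b n F :=
  integral_const_mul _ _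

theorem ex_add (hF : Continuous F) (hG : Continuous G) :
    ex h b n (fun U => F U + G U) = ex h b n F + ex h b n G := integral_add (ex_int hF) (ex_int hG)

theorem ex_sub (hF : Continuous F) (hG : Continuous G) :
    ex h b n (fun U => F U - G U) = ex h b n F - ex h b n G := integral_sub (ex_int hF) (ex_int hG)

theorem ex_sum {I : Type} (s : Finset I) {F : I → Fz → ℂ} (hF : ∀ i ∈ s, Continuous (F i)) :
    ex h b n (fun U => ∑ i ∈ s, F i U) = ∑ i ∈ s, ex h b n (F i) :=
  integral_finsetSum _ fun i hi => ex_int (hF i hi)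

theorem ex_conj (F : Fz → ℂ) : ex h b n (fun U => conj (F U)) = conj (ex h b n F) := integral_conj

theorem ex_real (F : Fz → ℝ) :
    ex h b n (fun U => (F U : ℂ)) = (∫ U, F (lf U) ∂wilson h b n : ℝ) := integral_ofReal

theorem ex_le {c : ℝ} (e : ∀ U, ‖F U‖ ≤ c) : ‖ex h b n F‖ ≤ c := by
  simpa [ex] using norm_integral_le_of_norm_le_const (μ := wilson h b n) (.of_forall fun U => e (lf U))

/-- the Schwarz inequality for the reflection in the plane through the origin -/
theorem rp_cs (b0 : 0 ≤ b) (μ : Fin 4) {F G : Fz → ℝ} (hF : Continuous F) (hG : Continuous G)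
    (dF : DependsOn F {l | ∃ k : ℤ, 0 ≤ l.1 μ + k * n ∧ 2 * (l.1 μ + k * n + 1) ≤ n})
    (dG : DependsOn G {l | ∃ k : ℤ, 0 ≤ l.1 μ + k * n ∧ 2 * (l.1 μ + k * n + 1) ≤ n}) :
    (∫ U, F (lf U) * G (rz μ (lf U)) ∂wilson h b n) ^ 2 ≤
      (∫ U, F (lf U) * F (rz μ (lf U)) ∂wilson h b n) *
        ∫ U, G (lf U) * G (rz μ (lf U)) ∂wilson h b n := by
  let _ := YM5.quatHS
  simp only [← lf_refl, wilson_nu]
  exact rp_ineq_all _ h YM5.rho_cont (by linarith) μ (hF.comp cont_lf) (hG.comp cont_lf)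
    (dep_lf dF) (dep_lf dG)

/-- reflection positivity -/
theorem rp_pos (b0 : 0 ≤ b) (μ : Fin 4) (hF : Continuous F)
    (dF : DependsOn F {l | ∃ k : ℤ, 0 ≤ l.1 μ + k * n ∧ 2 * (l.1 μ + k * n + 1) ≤ n}) :
    0 ≤ (ex h b n fun U => conj (F (rz μ U)) * F U).re := by
  let _ := YM5.quatHS
  have e : ∀ {F : Fz → ℝ}, Continuous F → DependsOn F {l | ∃ k : ℤ, 0 ≤ l.1 μ + k * n ∧
      2 * (l.1 μ + k * n + 1) ≤ n} → 0 ≤ ∫ U, F (lf U) * F (rz μ (lf U)) ∂wilson h b n :=
    fun hF dF => by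
      simp only [← lf_refl, wilson_nu]
      exact rp_pos_all _ h YM5.rho_cont (by linarith) μ (hF.comp cont_lf) (dep_lf dF)
  refine (add_nonneg (e (F := fun U => (F U).re) (by fun_prop) fun _ _ u => by simp only [dF u])
    (e (F := fun U => (F U).im) (by fun_prop) fun _ _ u => by simp only [dF u])).trans_eq ?_
  rw [← integral_add (cint _ (by fun_prop)) (cint _ (by fun_prop)), ex]
  refine Eq.trans ?_ (integral_re (ex_int (F := fun U => conj (F (rz μ U)) * F U) (by fun_prop)))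
  simp [mul_comm]

end Pool.Agent.Lib.MP_7f377f_mp.Wy
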