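import Pool.Agent.Lib.MP_7f377f_mp.G.S10L6
import Pool.Agent.Lib.MP_7f377f_mp.G.WxB
import Pool.Agent.Lib.MP_7f377f_mp.G.WxU
import Pool.Agent.Lib.MP_7f377f_mp.OddChess

/-! Lattice letters, their bounds and the continuum limit: definitions. -/

noncomputable section

namespace Pool.Agent.Lib.MP_7f377f_mp.Wy
variable [Pool.Agent.Lib.MP_7f377f_mp.GD]
set_option linter.unusedSectionVars false

open MeasureTheory Filter Topology Set Real YM7 Weak L6 MvPolynomial Wv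
open Wu (Z4)

/-- translation of fields on the infinite lattice -/
def tz (y : Z4) (U : Fz) : Fz := fun l => U (y + l.1, l.2)

/-- reflection of fields on the infinite lattice -/
def rz (μ : Fin 4) (U : Fz) : Fz := fun l =>
  if l.2 = μ then (U (Function.update l.1 μ (-l.1 μ - 1), l.2))⁻¹
  else U (Function.update l.1 μ (-l.1 μ), l.2)

/-- permutation of the axes -/
def qz (σ : Equiv.Perm (Fin 4)) (U : Fz) : Fz := fun l => U (l.1 ∘ σ.symm, σ l.2)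

/-- the smeared observable -/
def sm (a : ℝ) (O : Fz → ℝ) (f : R4 → ℝ) (U : Fz) : ℝ :=
  ∑ᶠ y : Z4, a ^ 4 * f (pz a y) * O (tz y U)

variable {β V ι : Type}

/-- the lattice version of a formal polynomial -/
def ev (a : ℝ) (O : V → Fz → ℝ) (U : Fz) : PolL V →ₐ[ℂ] ℂ :=
  aeval fun q => ((sm a (O q.1) q.2 U : ℝ) : ℂ)

/-- local bounded letters with reflections -/
structure Lt (O : β → Fz → ℝ) (r : Fin 4 → β → β) (A : Set β) (rad : ℕ) (K : ℝ) : Prop where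
  cont : ∀ c ∈ A, Continuous (O c)
  dep : ∀ c ∈ A, DependsOn (O c) {l | ∀ i, |l.1 i| ≤ rad}
  rf : ∀ μ, ∀ c ∈ A, ∀ U, O (r μ c) U = O c (rz μ U)
  bd : ∀ c ∈ A, ∀ U, |O c U| ≤ K

/-- combinations of letters near `z` with total weight at most `η` -/
def Cb (O : β → Fz → ℝ) (A : Set β) (w : β → ℝ) (a : ℝ) (z : R4) (ρ η : ℝ) (Y : Fz → ℂ) : Prop :=
  ∃ (s : Finset (Z4 × β)) (t : Z4 × β → ℂ), (∀ q ∈ s, q.2 ∈ A ∧ ∀ l, |a * q.1 l - z l| ≤ ρ) ∧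
    ∑ q ∈ s, ‖t q‖ * w q.2 ≤ η ∧ ∀ U, Y U = ∑ q ∈ s, t q * O q.2 (tz q.1 U)

/-- the coordinates of the centres are close or well separated -/
def Tm {I : Type} (z : I → R4) (h H : ℝ) : Prop :=
  (∀ i j l, |z i l - z j l| ≤ h ∨ H ≤ |z i l - z j l|) ∧ ∀ i j, i ≠ j → ∃ l, H ≤ |z i l - z j l|

/-- families of lattices -/
structure Fm (n : ℕ × ℕ → ℕ) (a b : ℕ × ℕ → ℝ) : Prop where
  a0 : Tendsto a fast (𝓝[>] 0)
  aJ : ∀ p, a p = a (0, p.2)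
  vol : ∀ J, Tendsto (fun s => n (3 ^ s / 2, J)) atTop atTop
  b0 : ∀ᶠ p in fast, 0 ≤ b p

/-- point like letters -/
structure Pl (O : ℕ × ℕ → V → Fz → ℝ) (θ : Fin 4 → V → V) : Prop where
  loc : ∀ c, ∃ R : ℕ, ∀ p, Continuous (O p c) ∧ DependsOn (O p c) {l | ∀ i, |l.1 i| ≤ R}
  rf : ∀ μ c, ∀ᶠ p in fast, ∀ U, O p (θ μ c) U = O p c (rz μ U)

/-- the alphabet extended by the reflections of one more letter -/
def Oe (O : ℕ × ℕ → V → Fz → ℝ) (Δ : ℕ × ℕ → Fz → ℝ) (p : ℕ × ℕ) : V ⊕ (Fin 4 → Bool) → Fz → ℝ :=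
  Sum.elim (O p) fun e U => Δ p (Wx.tw rz (fun μ => !e μ) U)

/-- its reflections -/
def θe (θ : Fin 4 → V → V) (μ : Fin 4) : V ⊕ (Fin 4 → Bool) → V ⊕ (Fin 4 → Bool) :=
  Sum.map (θ μ) fun e => Function.update e μ (!e μ)

variable [MeasurableSpace SU2] (h : Measure SU2)

/-- the expectation on the torus -/
def ex (b : ℝ) (n : ℕ) [NeZero n] (F : Fz → ℂ) : ℂ := ∫ U, F (lf U) ∂wilson h b n

/-- the mixed bound on the whole torus for letters at the sites of the grid of mesh `lam` -/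
def E0 (b : ℝ) (n : ℕ) [NeZero n] (lam : ℕ) (O : β → Fz → ℝ) (A : Set β) (w : β → ℝ) (C : ℝ) :
    Prop :=
  ∃ m : ℕ, n = m * lam ∧ ∀ (s : Finset (Site 4 m)) (σ : Site 4 m → β), (∀ x ∈ s, σ x ∈ A) →
    |∫ U, ∏ x ∈ s, O (σ x) (lf (shift (corner lam x) U)) ∂wilson h b n| ≤
      exp (C * m ^ 4) * ∏ x ∈ s, w (σ x)

/-- the input at fixed lattice spacing -/
structure EJ (Φ : Filter ι) (n : ι → ℕ) [∀ i, NeZero (n i)] (b : ι → ℝ) (O : ι → β → Fz → ℝ)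
    (r : Fin 4 → β → β) (A : Set β) (w : β → ℝ) (lam : ℕ) (C : ℝ) : Prop where
  fin : A.Finite
  cl : ∀ μ, ∀ c ∈ A, r μ c ∈ A ∧ r μ (r μ c) = c ∧ w (r μ c) = w c
  pos : ∀ c ∈ A, 0 < w c
  lt : ∃ K, ∀ᶠ i in Φ, Lt (O i) r A (lam / 10) K
  e0 : ∀ᶠ i in Φ, E0 h (b i) (n i) lam (O i) A w C

variable (n : ℕ × ℕ → ℕ) [∀ p, NeZero (n p)] (a b : ℕ × ℕ → ℝ)

/-- the input at the scale `ℓ` -/
def EF (O : ℕ × ℕ → β → Fz → ℝ) (r : Fin 4 → β → β) (A : ℕ → Set β) (w : ℕ → β → ℝ) (ℓ C : ℝ) :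
    Prop :=
  ∀ᶠ J in atTop, ∃ lam : ℕ, a (0, J) * lam = ℓ ∧ EJ h (hyperfilter ℕ) (fun s => n (3 ^ s / 2, J))
    (fun s => b (3 ^ s / 2, J)) (fun s => O (3 ^ s / 2, J)) r (A J) (w J) lam C

/-- polynomial bounds at all scales -/
def EL (O : ℕ × ℕ → V → Fz → ℝ) (θ : Fin 4 → V → V) : Prop :=
  ∀ A : Set V, A.Finite → (∀ μ, ∀ c ∈ A, θ μ c ∈ A) → ∃ (C : ℝ) (s : ℕ), 0 ≤ C ∧ ∀ e : ℕ,
    EF h n a b O θ (fun _ => A) (fun _ _ => 3 ^ (s * (e + 1))) (9 / 3 ^ e) (C * (e + 1))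

open Classical in
/-- the same, and the letters in `D` are negligible -/
def EN (O : ℕ × ℕ → V → Fz → ℝ) (θ : Fin 4 → V → V) (D : Set V) : Prop :=
  ∀ A : Set V, A.Finite → (∀ μ, ∀ c ∈ A, θ μ c ∈ A) → ∃ (C : ℝ) (s : ℕ), 0 ≤ C ∧ ∀ e : ℕ,
    ∀ η > (0 : ℝ), EF h n a b O θ (fun _ => A) (fun _ c => if c ∈ D then η else 3 ^ (s * (e + 1)))
      (9 / 3 ^ e) (C * (e + 1))

/-- uniform bounds at separated points -/
def PB (O : ℕ × ℕ → V → Fz → ℝ) : Prop :=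
  ∀ (k : ℕ) (c : Fin k → V) (δ : ℝ), 0 < δ → ∃ C : ℝ, ∀ R : ℝ, ∀ᶠ p in fast, ∀ y : Fin k → Z4,
    (∀ i l, |a p * y i l| ≤ R) → (∀ i j, i ≠ j → ∃ l, δ ≤ |a p * y i l - a p * y j l|) →
      ‖ex h (b p) (n p) fun U => ∏ i, (O p (c i) (tz (y i) U) : ℂ)‖ ≤ C

/-- `S` is the limit of the lattice expectations along `U` -/
structure LimL (O : ℕ × ℕ → V → Fz → ℝ) (N : Pur.Net (PolL V)) (U : Ultrafilter (ℕ × ℕ))
    (S : PolL V →ₗ[ℂ] ℂ) : Prop where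
  le : U ≤ fast
  cv : ∀ Z ∈ N.loc univ,
    Tendsto (fun p => ex h (b p) (n p) fun W => ev (a p) (O p) W Z) U (𝓝 (S Z))

end Pool.Agent.Lib.MP_7f377f_mp.Wy
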