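import Pool.Agent.Lib.MP_7f377f_mp.G.WyA
import Pool.Agent.Lib.MP_7f377f_mp.G.CmP1

/-! Smeared lattice observables. -/

noncomputable section

namespace Pool.Agent.Lib.MP_7f377f_mp.Wy
variable [Pool.Agent.Lib.MP_7f377f_mp.GD]
set_option linter.unusedSectionVars false

open MeasureTheory Filter Topology Set Real YM7 Weak L6 MvPolynomial Wv ComplexConjugate Function
open Wu (Z4)

variable {V : Type} {a t : ℝ} {O O' : Fz → ℝ} {f g : R4 → ℝ} {U : Fz}

/-- the sites in a cube -/
theorem exists_box (a0 : 0 < a) (z : R4) {ρ : ℝ} (ρ0 : 0 ≤ ρ) : ∃ s : Finset Z4,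
    (∀ y, y ∈ s ↔ ∀ l, |a * y l - z l| ≤ ρ) ∧ a ^ 4 * s.card ≤ (2 * ρ + a) ^ 4 := by
  refine ⟨Fintype.piFinset fun l => Finset.Icc ⌈(z l - ρ) / a⌉ ⌊(z l + ρ) / a⌋, fun y => ?_, ?_⟩
  · simp only [Fintype.mem_piFinset, Finset.mem_Icc, Int.ceil_le, Int.le_floor, div_le_iff₀' a0,
      le_div_iff₀' a0, abs_le, le_sub_iff_add_le, sub_le_iff_le_add', neg_add_eq_sub]
  rw [Fintype.card_piFinset, Nat.cast_prod, ← Fin.prod_const, ← Fin.prod_const,
    ← Finset.prod_mul_distrib]
  refine Finset.prod_le_prod (fun _ _ => by positivity) fun l _ => ?_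
  have h1 := (le_div_iff₀' a0).1 (Int.floor_le ((z l + ρ) / a))
  have h2 := (div_le_iff₀' a0).1 (Int.le_ceil ((z l - ρ) / a))
  rw [Int.card_Icc, ← Int.cast_natCast, Int.toNat_eq_max, Int.cast_max, mul_max_of_nonneg _ _ a0.le]
  push_cast
  exact max_le (by linarith) (by linarith)

theorem fin_supp (a0 : 0 < a) (hf : HasCompactSupport f) : {y : Z4 | f (pz a y) ≠ 0}.Finite := by
  obtain ⟨R, hR⟩ := hf.isCompact.isBounded.exists_norm_le
  obtain ⟨s, hs, -⟩ := exists_box a0 0 (abs_nonneg R)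
  exact s.finite_toSet.subset fun y hy => (hs y).2 fun l => by
    simpa [pz] using (PiLp.norm_apply_le (pz a y) l).trans
      ((hR _ (subset_tsupport f hy)).trans (le_abs_self R))

theorem sm_eq {s : Finset Z4} (hs : ∀ y, f (pz a y) ≠ 0 → y ∈ s) (O : Fz → ℝ) (U : Fz) :
    sm a O f U = ∑ y ∈ s, a ^ 4 * f (pz a y) * O (tz y U) := by
  exact finsum_eq_sum_of_support_subset _ fun y hy => hs y fun e => hy (by simp [e])

theorem sm_cont (a0 : 0 < a) (hf : HasCompactSupport f) (hO : Continuous O) :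
    Continuous (sm a O f) := by
  rw [funext (sm_eq (fun y => (fin_supp a0 hf).mem_toFinset.2) O)]
  fun_prop

theorem sm_tz (v : Z4) : sm a O (fun y => f (y - pz a v)) U = sm a O f (tz v U) := by
  rw [sm, ← finsum_comp_equiv (Equiv.addLeft v)]
  refine finsum_congr fun y => ?_
  rw [tz_tz, show pz a (Equiv.addLeft v y) - pz a v = pz a y by ext l; simp [pz, mul_add]]
  rfl

theorem sm_rz (μ : Fin 4) :
    sm a (fun U => O (rz μ U)) (fun y => f (Pur.rf μ y)) U = sm a O f (rz μ U) := by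
  have e : Involutive (Wu.th μ 0) := fun y => by simp [Wu.th_th]
  rw [sm, ← finsum_comp_equiv e.toPerm]
  refine finsum_congr fun y => ?_
  rw [e.coe_toPerm, rz_tz, show Pur.rf μ (pz a (Wu.th μ 0 y)) = pz a y by
    ext l; by_cases u : l = μ <;> simp [pz, Pur.rf, Wu.th, u]]

theorem sm_qz (σ : Equiv.Perm (Fin 4)) :
    sm a (fun U => O (qz σ U)) f U = sm a O (fun y => f (Ro.prm σ y)) (qz σ U) := by
  rw [sm, ← finsum_comp_equiv (σ.arrowCongr (Equiv.refl ℤ))]
  refine finsum_congr fun y => ?_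
  rfl

theorem sm_add (a0 : 0 < a) (hf : HasCompactSupport f) (hg : HasCompactSupport g) :
    sm a O (f + t • g) U = sm a O f U + t * sm a O g U := by
  have e := fun y => ((fin_supp a0 hf).union (fin_supp a0 hg)).mem_toFinset (a := y)
  rw [sm_eq fun y h => (e y).2 (.inl h), sm_eq fun y h => (e y).2 (.inr h),
    sm_eq (f := f + t • g) fun y h => (e y).2 (by
      by_contra u
      simp_all), Finset.mul_sum, ← Finset.sum_add_distrib]
  exact Finset.sum_congr rfl fun y _ => by simp only [Pi.add_apply, Pi.smul_apply, smul_eq_mul]; ring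

theorem sm_lab (a0 : 0 < a) (hf : HasCompactSupport f) :
    sm a (fun U => t * O U + O' U) f U = t * sm a O f U + sm a O' f U := by
  simp only [sm_eq fun y => (fin_supp a0 hf).mem_toFinset.2, Finset.mul_sum,
    ← Finset.sum_add_distrib]
  exact Finset.sum_congr rfl fun y _ => by ring

theorem sm_dep {R : ℕ} (hO : DependsOn O {l | ∀ i, |l.1 i| ≤ R}) :
    DependsOn (sm a O f) {l | ∃ y, f (pz a y) ≠ 0 ∧ ∀ i, |l.1 i - y i| ≤ R} := by
  refine fun U V e => finsum_congr fun y => ?_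
  by_cases u : f (pz a y) = 0
  · simp [u]
  · rw [hO (x := tz y U) (y := tz y V) fun l hl => e _ ⟨y, u, by simpa using hl⟩]

/-- Riemann sums -/
theorem riemann (hf : HasCompactSupport f) (hc : Continuous f) :
    Tendsto (fun a : ℝ => ∑ᶠ y : Z4, a ^ 4 * f (pz a y)) (𝓝[>] 0) (𝓝 (∫ y, f y)) := by
  refine (St.riemB hc hf).congr' (eventually_mem_nhdsWithin.mono fun a a0 => ?_)
  have := fin_supp a0 hf
  exact (congrArg _ (tsum_eq_finsum this)).trans (mul_finsum' _ _ this)

variable {O : V → Fz → ℝ} {θ : Fin 4 → V → V}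

theorem ev_x (c : V) (f : R4 → ℝ) : ev a O U (xL c f) = sm a (O c) f U := aeval_X _ _

theorem ev_τ (h1 h2) (v : Z4) (Z : PolL V) :
    ev a O U ((netL (θ := θ) h1 h2).τ (pz a v) Z) = ev a O (tz v U) Z := by
  change ev a O U (rename _ Z) = _
  simp only [ev, aeval_rename, comp_def, sm_tz]

theorem ev_Θ {ι : Type} {l : Filter ι} {a : ι → ℝ} {O : ι → V → Fz → ℝ} (h1 h2) (μ : Fin 4)
    (h : ∀ c, ∀ᶠ p in l, ∀ U, O p (θ μ c) U = O p c (rz μ U)) (Z : PolL V) :
    ∀ᶠ p in l, ∀ U, ev (a p) (O p) U ((netL (θ := θ) h1 h2).Θ μ Z) =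
      conj (ev (a p) (O p) (rz μ U) Z) := by
  change ∀ᶠ p in l, ∀ U, ev (a p) (O p) U (Wv.thL θ μ Z) = _
  induction Z using MvPolynomial.induction_on with
  | C c => exact .of_forall fun p U => by simp [Wv.thL]
  | add p q hp hq => exact (hp.and hq).mono fun p e U => by simp only [map_add, e.1, e.2]
  | mul_X p q hp =>
    filter_upwards [hp, h q.1] with i e1 e2 U
    rw [show (X q : PolL V) = xL q.1 q.2 from rfl, map_mul, map_mul, e1, thL_x, ev_x, funext e2,
      sm_rz, map_mul, map_mul, ev_x, Complex.conj_ofReal]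

theorem ev_cont (a0 : 0 < a) (hO : ∀ c, Continuous (O c)) {h1 h2} {Z : PolL V}
    (hZ : Z ∈ (netL (θ := θ) h1 h2).loc univ) : Continuous fun U => ev a O U Z := by
  induction hZ using Submodule.span_induction with
  | mem x hx =>
    obtain ⟨k, f, q, h3, h4, rfl⟩ := hx
    choose c hc using fun i => (h4 i).2
    simp only [← hc, map_prod, ev_x]
    exact continuous_finsetProd _ fun i _ =>
      Complex.continuous_ofReal.comp (sm_cont a0 (h3.1 i).1 (hO _))
  | zero => simpa using continuous_const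
  | add x y _ _ a b => simpa using a.fun_add b
  | smul t x _ a => simpa using a.const_mul t

end Pool.Agent.Lib.MP_7f377f_mp.Wy
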