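import Pool.Agent.Lib.MP_7f377f_mp.G.WyQ0

/-! Good elements of the net of the continuum limit. -/

noncomputable section

namespace Pool.Agent.Lib.MP_7f377f_mp.Wy
variable [Pool.Agent.Lib.MP_7f377f_mp.GD]
set_option linter.unusedSectionVars false

open MeasureTheory Filter Topology Set Real YM7 Weak L6 MvPolynomial Wv ComplexConjugate Function
open Wu (Z4)

variable {β V : Type}

section
variable {Q : β → Fz → ℝ} {r : Fin 4 → β → β} {A : Set β} {w : β → ℝ} {a ρ ρ' η η' : ℝ} {z z' : R4}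
  {Y Y' : Fz → ℂ}

theorem Cb.mono (h : Cb Q A w a z ρ η Y) (e : ∀ l, |z l - z' l| + ρ ≤ ρ') (e' : η ≤ η') :
    Cb Q A w a z' ρ' η' Y :=
  let ⟨s, t, h1, h2, h3⟩ := h
  ⟨s, t, fun q hq => ⟨(h1 q hq).1, fun l => (abs_sub_le _ (z l) _).trans
    (by linarith [(h1 q hq).2 l, e l])⟩, h2.trans e', h3⟩

theorem Cb.zero (e : 0 ≤ η) : Cb Q A w a z ρ η fun _ => 0 := ⟨∅, 0, by simp, by simpa, by simp⟩

theorem Cb.one {c : β} {y : Z4} (hc : c ∈ A) (hy : ∀ l, |a * y l - z l| ≤ ρ) :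
    Cb Q A w a z ρ (w c) fun U => Q c (Wy.tz y U) :=
  ⟨{(y, c)}, 1, by simpa using ⟨hc, hy⟩, by simp, by simp⟩

theorem Cb.smul (h : Cb Q A w a z ρ η Y) (c : ℂ) : Cb Q A w a z ρ (‖c‖ * η) fun U => c * Y U :=
  let ⟨s, t, h1, h2, h3⟩ := h
  ⟨s, fun q => c * t q, h1, by
    simpa only [norm_mul, mul_assoc, ← Finset.mul_sum] using
      mul_le_mul_of_nonneg_left h2 (norm_nonneg c),
    fun U => by simp only [h3, Finset.mul_sum, mul_assoc]⟩

theorem Cb.add (hw : ∀ c ∈ A, 0 ≤ w c) (h : Cb Q A w a z ρ η Y) (h' : Cb Q A w a z ρ η' Y') :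
    Cb Q A w a z ρ (η + η') fun U => Y U + Y' U := by
  classical
  obtain ⟨s, t, h1, h2, h3⟩ := h
  obtain ⟨s', t', k1, k2, k3⟩ := h'
  have m : ∀ q ∈ s ∪ s', q.2 ∈ A ∧ ∀ l, |a * q.1 l - z l| ≤ ρ := fun q hq =>
    (Finset.mem_union.1 hq).elim (h1 q) (k1 q)
  refine ⟨s ∪ s', fun q => (if q ∈ s then t q else 0) + if q ∈ s' then t' q else 0, m,
    (Finset.sum_le_sum fun q hq => mul_le_mul_of_nonneg_right (norm_add_le _ _)
      (hw _ (m q hq).1)).trans ?_, fun U => ?_⟩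
  · simpa [add_mul, Finset.sum_add_distrib, apply_ite norm] using add_le_add h2 k2
  · simp [add_mul, Finset.sum_add_distrib, h3, k3]

theorem Cb.sum (hw : ∀ c ∈ A, 0 ≤ w c) {I : Type} (s : Finset I) {η : I → ℝ} {Y : I → Fz → ℂ}
    (h : ∀ i ∈ s, Cb Q A w a z ρ (η i) (Y i)) :
    Cb Q A w a z ρ (∑ i ∈ s, η i) fun U => ∑ i ∈ s, Y i U := by
  classical
  induction s using Finset.induction_on with
  | empty => simpa using Cb.zero le_rfl
  | insert i s hi ih =>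
    simpa only [Finset.sum_insert hi] using (h i (by simp)).add hw (ih fun j hj => h j (by simp [hj]))

/-- smeared letters -/
theorem Cb.sm (a0 : 0 < a) (ρ0 : 0 ≤ ρ) {c : β} (hc : c ∈ A) (hw : ∀ c ∈ A, 0 ≤ w c) {f : R4 → ℝ}
    {s : ℝ} (hf : ∀ y, |f y| ≤ s ∧ (f y ≠ 0 → ∀ l, |y l - z l| ≤ ρ)) :
    Cb Q A w a z ρ ((2 * ρ + a) ^ 4 * s * w c) fun U => sm a (Q c) f U := by
  obtain ⟨T, t1, t2⟩ := exists_box a0 z ρ0
  have := Cb.sum hw T fun y hy => (Cb.one (Q := Q) (w := w) hc ((t1 y).1 hy)).smul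
    ((a ^ 4 * f (pz a y) : ℝ) : ℂ)
  simp only [sm_eq fun y hy => (t1 y).2 ((hf _).2 hy), Complex.ofReal_sum,
    Complex.ofReal_mul (_ * _)]
  refine this.mono (by simp) ?_
  rw [← Finset.sum_mul]
  refine mul_le_mul_of_nonneg_right ((Finset.sum_le_card_nsmul _ _ (a ^ 4 * s) fun y _ => ?_).trans
    ?_) (hw c hc)
  · rw [Complex.norm_real, norm_mul, norm_eq_abs, abs_of_pos (by positivity)]
    exact mul_le_mul_of_nonneg_left (hf _).1 (by positivity)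
  · rw [nsmul_eq_mul, ← mul_assoc, mul_comm _ (a ^ 4)]
    exact mul_le_mul_of_nonneg_right t2 ((abs_nonneg _).trans (hf 0).1)

end

/-- elements of size `g` whose lattice versions are combinations of letters -/
def Gz (O : ℕ × ℕ → V → Fz → ℝ) (N : Pur.Net (PolL V)) (U : Ultrafilter (ℕ × ℕ)) (a : ℕ × ℕ → ℝ)
    (Q : ℕ × ℕ → β → Fz → ℝ) (A : ℕ → Set β) (w : ℕ → β → ℝ) (C g : ℝ) (z : R4) (B : ℝ)
    (X : PolL V) : Prop :=
  0 ≤ B ∧ X ∈ N.loc {y | ∀ l, |y l - z l| < 50 * g} ∧ ∀ v, ∀ᶠ p in U,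
    Cb (Q p) (A p.2) (w p.2) (a p) (z + v) (3 * g / 2) (B / exp (256 * C))
      fun W => ev (a p) (O p) W (N.τ v X)

variable [MeasurableSpace SU2] [BorelSpace SU2] {h : Measure SU2} [h.IsHaarMeasure]
  [IsProbabilityMeasure h] {n : ℕ × ℕ → ℕ} [∀ p, NeZero (n p)] {a b : ℕ × ℕ → ℝ}
  {O : ℕ × ℕ → V → Fz → ℝ} {θ : Fin 4 → V → V} {h1 h2} {U : Ultrafilter (ℕ × ℕ)}
  {S : PolL V →ₗ[ℂ] ℂ} {Q : ℕ × ℕ → β → Fz → ℝ} {r : Fin 4 → β → β} {A : ℕ → Set β}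
  {w : ℕ → β → ℝ} {ℓ C g : ℝ}

theorem EF.cl (hE : EF h n a b Q r A w ℓ C) : ∀ᶠ p in fast, (∀ c ∈ A p.2, 0 < w p.2 c) ∧ ∀ μ,
    (∀ c ∈ A p.2, r μ c ∈ A p.2 ∧ r μ (r μ c) = c ∧ w p.2 (r μ c) = w p.2 c) ∧
      ∀ c ∈ A p.2, ∀ U, Q p (r μ c) U = Q p c (rz μ U) :=
  ev_fast.2 (hE.mono fun _ ⟨_, _, e⟩ => e.lt.elim fun _ e' => e'.mono fun _ e' =>
    ⟨e.pos, fun μ => ⟨e.cl μ, e'.rf μ⟩⟩)

theorem LimL.gd (L : LimL h n a b O (netL (θ := θ) h1 h2) U S) (hF : Fm n a b) (hP : Pl O θ)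
    (hE : EF h n a b Q r A w ℓ C) (C0 : 0 ≤ C) (g0 : 0 < g) (g1 : 9 * g ≤ 2 * ℓ)
    (g2 : 2 * ℓ ≤ 27 * g) : Wx.Gd (netL h1 h2) S g (Gz O (netL h1 h2) U a Q A w C g) where
  pos e := e.1
  loc e := e.2.1
  refl {z B X} μ e := by
    refine ⟨e.1, (netL h1 h2).mono ((netL h1 h2).Θ_mem μ e.2.1) fun y hy l => ?_, fun v => ?_⟩
    · refine lt_of_eq_of_lt ?_ (hy l)
      by_cases u : l = μ
      · simp [u, Pur.rf, ← neg_add', add_comm, -neg_add_rev]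
      · simp [u, Pur.rf]
    · filter_upwards [e.2.2 (Pur.rf μ v), L.le hE.cl, ev_Θ (a := a) h1 h2 μ (fun c => L.le (hP.rf μ c))
        ((netL h1 h2).τ (Pur.rf μ v) X)] with p e1 e2 e3
      have := e1.rz (fun c hc => (e2.1 c hc).le) fun c hc =>
        ⟨((e2.2 μ).1 c hc).1, ((e2.2 μ).1 c hc).2.2, (e2.2 μ).2 c hc⟩
      simp only [← e3, (netL h1 h2).Θ_τ, Pur.rf_rf] at this
      exact this.mono (fun l => by by_cases u : l = μ <;> simp [u, Pur.rf, add_comm]) le_rfl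
  tau {z B X} v e := ⟨e.1, (netL h1 h2).mono ((netL h1 h2).τ_mem v e.2.1) fun y hy l => by
    simpa [sub_sub, add_comm] using hy l, fun u => by
    simpa only [(netL h1 h2).τ_τ, add_assoc, add_comm u] using e.2.2 (v + u)⟩
  prod k z B X e z1 z2 := by
    obtain ⟨R, hR⟩ := (finite_range fun q : Fin k × Fin 4 => |z q.1 q.2|).bddAbove
    refine le_of_forall_pos_le_mul' fun ε e0 => le_of_tendsto (L.cv _ (Lm.prod_mem
      (fun i => (e i).2.1) (fun i j u => disjoint_left.2 fun y a1 a2 => ?_)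
        fun _ => subset_univ _)).norm ?_
    · obtain ⟨l, hl⟩ := z2 i j u
      linarith [abs_sub_le (z i l) (y l) (z j l), abs_sub_comm (z i l) (y l), a1 l, a2 l]
    filter_upwards [L.le (lb hF hE C0 g0.le (ρ := 3 * g / 2) (H := 100 * g) (by positivity)
      (by linarith) (by linarith) (Fin k) R e0), eventually_all.2 fun i => (e i).2.2 0] with p e1 e2
    simp only [add_zero, (netL h1 h2).τ_zero] at e2
    refine (le_of_eq_of_le (by simp only [map_prod]) (e1 z _ _ ⟨z1, z2⟩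
      (fun i l => hR ⟨(i, l), rfl⟩) e2)).trans_eq ?_
    rw [Finset.prod_div_distrib, Finset.prod_const, ← exp_nat_mul, exp_add, Finset.card_univ,
      mul_comm (256 * C)]
    field_simp

/-- point like fields are good -/
theorem gz_x (hU : U ≤ fast) (hF : Fm n a b) (hE : EF h n a b Q r A w ℓ C) (g0 : 0 < g) {c : V}
    {η : ℝ} (η0 : 0 ≤ η) (e : ∀ᶠ p in U, ∃ d ∈ A p.2, w p.2 d ≤ η ∧ Q p d = O p c) (K : Set R4) :
    Wx.Gf (Gz O (netL (θ := θ) h1 h2) U a Q A w C g) g K ((3 * g) ^ 4 * η * exp (256 * C))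
      (xL c) := fun z f f1 _ f2 => by
  refine ⟨by positivity, Wx.c1_mem (gen_L _ _) ⟨f1.1, f1.2.1, fun y hy => ?_⟩ c, fun v => ?_⟩
  · have := Pur.tsupp_box (lo := fun l => z l - g) (hi := fun l => z l + g) (fun y hy l =>
      (abs_sub_le_iff.1 ((f2 y).2 hy l)).symm.imp (by intro; linarith) (by intro; linarith)) hy
    exact fun l => abs_lt.2 ⟨by linarith [(this l).1], by linarith [(this l).2]⟩
  filter_upwards [e, hU hE.cl, hU (hF.pos g0)] with p ⟨d, d1, d2, d3⟩ e2 ⟨a0, a1⟩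
  simp only [(gen_L h1 h2).tau, ev_x, ← d3]
  refine (Cb.sm (z := z + v) (s := 1) a0 g0.le d1 (fun c hc => (e2.1 c hc).le) fun y =>
    ⟨(f2 _).1, fun u l => by simpa [sub_sub, add_comm] using (f2 _).2 u l⟩).mono
      (fun l => by simp; linarith) ?_
  rw [mul_one, mul_div_cancel_right₀ _ (exp_pos _).ne']
  exact mul_le_mul (pow_le_pow_left₀ (by positivity) (by linarith) 4) d2 (e2.1 d d1).le
    (by positivity)

end Pool.Agent.Lib.MP_7f377f_mp.Wy
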