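import Pool.Agent.Lib.MP_7f377f_mp.G.WyE

/-! The continuum limit of fields with labels. -/

noncomputable section

namespace Pool.Agent.Lib.MP_7f377f_mp.Wy
variable [Pool.Agent.Lib.MP_7f377f_mp.GD]
set_option linter.unusedSectionVars false

open MeasureTheory Filter Topology Set Real YM7 Weak L6 MvPolynomial Wv ComplexConjugate Function
open Wu (Z4)

variable [MeasurableSpace SU2] [BorelSpace SU2] {h : Measure SU2} [h.IsHaarMeasure]
  [IsProbabilityMeasure h] {β V : Type} {n : ℕ × ℕ → ℕ} [∀ p, NeZero (n p)] {a b : ℕ × ℕ → ℝ}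
  {O : ℕ × ℕ → V → Fz → ℝ} {θ : Fin 4 → V → V} {h1 : ∀ μ c, θ μ (θ μ c) = c}
  {h2 : ∀ μ ν c, θ μ (θ ν c) = θ ν (θ μ c)} {U : Ultrafilter (ℕ × ℕ)}
  {S : PolL V →ₗ[ℂ] ℂ} {Q : ℕ × ℕ → β → Fz → ℝ} {r : Fin 4 → β → β} {A : ℕ → Set β}
  {w : ℕ → β → ℝ} {ℓ C : ℝ}

theorem Fm.pos (hF : Fm n a b) {ε : ℝ} (e : 0 < ε) : ∀ᶠ p in fast, 0 < a p ∧ a p ≤ ε :=
  hF.a0.eventually (Ioc_mem_nhdsGT e)

theorem Pl.cont (hP : Pl O θ) (p c) : Continuous (O p c) := ((hP.loc c).choose_spec p).1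

theorem exists_coord {x y : R4} {δ : ℝ} (e : δ ≤ dist x y) : ∃ l, δ / 2 ≤ |x l - y l| := by
  by_contra! u
  have := (abs_nonneg _).trans_lt (u 0)
  refine e.not_gt ?_
  rw [EuclideanSpace.dist_eq, Real.sqrt_lt' (by linarith), Fin.sum_univ_four]
  have v : ∀ l, dist (x l) (y l) ^ 2 < (δ / 2) ^ 2 := fun l =>
    pow_lt_pow_left₀ (u l) (abs_nonneg _) two_ne_zero
  linarith [v 0, v 1, v 2, v 3]

/-- smeared words are bounded in the supremum norm, uniformly in the lattice -/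
theorem PB.word (hF : Fm n a b) (hP : Pl O θ) (hB : PB h n a b O) {k : ℕ} (c : Fin k → V) {δ : ℝ}
    (δ0 : 0 < δ) (D : ℝ) : ∃ C : ℝ, ∀ R : ℝ, ∀ᶠ p in fast, ∀ (z : Fin k → R4) (g : Fin k → R4 → ℝ)
      (t : Fin k → ℝ), (∀ i y, |g i y| ≤ t i ∧ (g i y ≠ 0 → ∀ l, |y l| ≤ R ∧ |y l - z i l| ≤ D)) →
      (∀ i j, i ≠ j → ∀ x y, g i x ≠ 0 → g j y ≠ 0 → δ ≤ dist x y) →
      ‖ex h (b p) (n p) fun W => ∏ i, (sm (a p) (O p (c i)) (g i) W : ℂ)‖ ≤ C * ∏ i, t i := by
  classical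
  obtain ⟨C, hC⟩ := hB k c (δ / 2) (by positivity)
  refine ⟨|C| * ((2 * |D| + 1) ^ 4) ^ k, fun R => ?_⟩
  filter_upwards [hC R, hF.pos one_pos] with p e1 ⟨a0, a1⟩ z g t g1 g2
  choose s s1 s2 using fun i => exists_box a0 (z i) (abs_nonneg D)
  have t0 : ∀ i, 0 ≤ t i := fun i => (abs_nonneg _).trans (g1 i 0).1
  have e2 : ∀ i W, sm (a p) (O p (c i)) (g i) W = _ := fun i =>
    sm_eq (s := (s i).filter fun y => g i (pz (a p) y) ≠ 0) (fun y hy => Finset.mem_filter.2
      ⟨(s1 i y).2 fun l => (((g1 i _).2 hy l).2).trans (le_abs_self _), hy⟩) _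
  have := hP.cont p
  simp only [e2, Complex.ofReal_sum, Finset.prod_univ_sum, Complex.ofReal_mul,
    Finset.prod_mul_distrib]
  rw [ex_sum _ fun y _ => by fun_prop]
  refine (norm_sum_le_of_le (n := fun _ => |C| * ∏ i, (a p ^ 4 * t i)) _ fun y hy => ?_).trans ?_
  · have y1 := fun i => (Finset.mem_filter.1 (Fintype.mem_piFinset.1 hy i)).2
    rw [ex_mul, norm_mul, mul_comm, ← Finset.prod_mul_distrib, norm_prod]
    refine mul_le_mul ((e1 y (fun i l => ((g1 i _).2 (y1 i) l).1) fun i j e =>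
      exists_coord (g2 i j e _ _ (y1 i) (y1 j))).trans (le_abs_self _)) (Finset.prod_le_prod
        (fun _ _ => norm_nonneg _) fun i _ => ?_) (by positivity) (abs_nonneg _)
    rw [norm_mul, Complex.norm_real, Complex.norm_real, Real.norm_of_nonneg (by positivity)]
    exact mul_le_mul_of_nonneg_left (g1 i _).1 (by positivity)
  · rw [Finset.sum_const, Fintype.card_piFinset, nsmul_eq_mul, mul_left_comm, Nat.cast_prod,
      ← Finset.prod_mul_distrib, mul_assoc, ← Fin.prod_const k, ← Finset.prod_mul_distrib]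
    refine mul_le_mul_of_nonneg_left (Finset.prod_le_prod (fun i _ => by have := t0 i; positivity)
      fun i _ => ?_) (abs_nonneg _)
    rw [← mul_assoc, mul_comm _ (a p ^ 4)]
    refine mul_le_mul_of_nonneg_right (le_trans ?_ ((s2 i).trans (by gcongr))) (t0 i)
    gcongr
    exact Finset.filter_subset _ _

theorem PB.adm (hF : Fm n a b) (hP : Pl O θ) (hB : PB h n a b O) {k : ℕ} (c : Fin k → V)
    {f : Fin k → R4 → ℝ} (hf : Adm f) : ∃ C : ℝ, ∀ᶠ p in fast,
      ‖ex h (b p) (n p) fun W => ∏ i, (sm (a p) (O p (c i)) (f i) W : ℂ)‖ ≤ C := by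
  obtain ⟨D, q, f1, f2, f3⟩ := hf.data
  obtain ⟨C, hC⟩ := hB.word hF hP c (δ := 1 / (q + 1)) (by positivity) D
  refine ⟨_, (hC D).mono fun p e => e 0 f (fun _ => D) (fun i y => ⟨(f2 i).2 y, fun u l => ?_⟩)
    fun i j e x y u v => f3 i j e x (subset_tsupport _ u) y (subset_tsupport _ v)⟩
  simpa using (PiLp.norm_apply_le y l).trans (f1 i y (subset_tsupport _ u))

theorem exists_lim (hF : Fm n a b) (hP : Pl O θ) (hB : PB h n a b O) (hU : U ≤ fast) :
    ∃ S, LimL h n a b O (netL h1 h2) U S := by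
  refine ⟨(basisMonomials _ ℂ).constr ℂ fun d => limUnder U fun p =>
    ex h (b p) (n p) fun W => ev (a p) (O p) W (monomial d 1), hU, fun Z hZ => ?_⟩
  obtain ⟨m, c, k, d, f, f1, -, rfl⟩ := Wx.exists_sum (gen_L _ _) hZ
  rw [map_sum]
  refine (tendsto_finsetSum _ fun j _ => (?_ : Tendsto (fun p => c j * ex h (b p) (n p) fun W =>
    ev (a p) (O p) W (∏ i, xL (d j i) (f j i))) U _)).congr' ?_
  · rw [map_smul]
    refine Tendsto.const_mul _ ?_
    obtain ⟨C, hC⟩ := hB.adm hF hP (d j) (f1 j)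
    have e : ∏ i, xL (d j i) (f j i) = monomial (∑ i, Finsupp.single (d j i, f j i) 1) 1 := by
      rw [monomial_sum_one]
      rfl
    obtain ⟨s, -, hs⟩ := (isCompact_closedBall (0 : ℂ) C).ultrafilter_le_nhds' (U.map fun p =>
      ex h (b p) (n p) fun W => ev (a p) (O p) W (∏ i, xL (d j i) (f j i)))
      (hU (hC.mono fun p e => by simpa [ev_x] using e))
    rw [e] at hs ⊢
    rw [← congrFun (coe_basisMonomials _ ℂ), Module.Basis.constr_basis, coe_basisMonomials]
    exact tendsto_nhds_limUnder ⟨s, hs⟩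
  · filter_upwards [hU (hF.pos one_pos)] with p e
    have : ∀ j, Continuous fun W => ev (a p) (O p) W (∏ i, xL (d j i) (f j i)) := fun j =>
      ev_cont e.1 (hP.cont p) (gen_mem (gen_L h1 h2) _ (f1 j) fun _ => subset_univ _)
    simp only [map_sum, map_smul, smul_eq_mul]
    rw [ex_sum _ fun j _ => by fun_prop]
    simp only [ex_mul]

theorem dep (hF : Fm n a b) (hP : Pl O θ) {μ : Fin 4} {X : PolL V}
    (hX : X ∈ (netL h1 h2).loc (Pur.Hs μ 0)) :
    ∀ᶠ p in fast, DependsOn (fun W => ev (a p) (O p) W X)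
      {l | ∃ k : ℤ, 0 ≤ l.1 μ + k * n p ∧ 2 * (l.1 μ + k * n p + 1) ≤ n p} := by
  obtain ⟨m, c, k, d, f, f1, f2, rfl⟩ := Wx.exists_sum (gen_L _ _) hX
  have : ∀ j i, ∀ᶠ p in fast, DependsOn (sm (a p) (O p (d j i)) (f j i))
      {l | ∃ k : ℤ, 0 ≤ l.1 μ + k * n p ∧ 2 * (l.1 μ + k * n p + 1) ≤ n p} := fun j i => by
    obtain ⟨R, hR⟩ := hP.loc (d j i)
    obtain ⟨η, η0, hη⟩ := IsCompact.exists_forall_le' ((f1 j).1 i).1 (f := fun y => y μ)
      (by fun_prop) (a := 0) fun y hy => f2 j i hy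
    obtain ⟨D, -, g1, -⟩ := (f1 j).data
    have e : ∀ᶠ p in fast, 2 * (D / a p + R + 1) ≤ n p := ev_fast.2 (.of_forall fun J => by
      simp only [hF.aJ (_, J)]
      exact hyp_le ((tendsto_natCast_atTop_atTop.comp (hF.vol J)).eventually_ge_atTop _))
    filter_upwards [e, hF.pos (ε := η / (R + 1)) (by positivity)] with p e1 ⟨a0, a1⟩
    refine (sm_dep (hR p).2).mono ?_
    rintro l ⟨y, y1, y2⟩
    refine ⟨0, ?_⟩
    have u1 : η ≤ a p * y μ := hη _ (subset_tsupport _ y1)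
    have u2 : (y μ : ℝ) ≤ D / a p := (le_div_iff₀' a0).2 ((le_abs_self _).trans
      ((PiLp.norm_apply_le (pz (a p) y) μ).trans (g1 i _ (subset_tsupport _ y1))))
    have u3 : (R + 1 : ℝ) ≤ y μ :=
      le_of_mul_le_mul_left (((le_div_iff₀ (by positivity)).1 a1).trans u1) a0
    have u4 : (2 * (y μ + R + 1) : ℝ) ≤ n p := by linarith
    have := abs_le.1 (y2 μ)
    norm_cast at u3 u4
    omega
  filter_upwards [eventually_all.2 fun j => eventually_all.2 (this j)] with p e W W' u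
  simp only [map_sum, map_smul, map_prod, ev_x, e _ _ u]

open Pur in
theorem st_of {P : Type} [CommRing P] [Algebra ℂ P] {N : Net P} {S : P →ₗ[ℂ] ℂ} (e0 : S 1 = 1)
    (e1 : ∀ {X} v, X ∈ N.loc univ → S (N.τ v X) = S X)
    (e2 : ∀ {X} μ, X ∈ N.loc univ → S (N.Θ μ X) = conj (S X))
    (e3 : ∀ {X} μ, X ∈ N.loc (Hs μ 0) → 0 ≤ N.nq S μ X)
    (e4 : ∀ {X} μ, X ∈ N.loc (Hs μ 0) → ∃ C, ∀ t ≥ 0, ‖S (N.Θ μ X * N.τ (ax μ t) X)‖ ≤ C) :
    N.St S := by
  refine ⟨e0, e1, e2, e3, fun {Z v} μ hZ hv => ?_⟩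
  let f : ℝ → ℝ := fun t => (S (N.Θ μ Z * N.τ (ax μ t) Z)).re
  have m : ∀ {t}, 0 ≤ t → N.τ (ax μ t) Z ∈ N.loc (Hs μ 0) := fun ht =>
    Net.τ_hs hZ (by simpa using ht)
  have e : ∀ v : R4, 0 ≤ v μ → N.nq S μ (N.τ v Z) = f (2 * v μ) := fun v hv => by
    have u : rf μ v + ax μ (2 * v μ) = v := by
      ext l
      by_cases h : l = μ
      · simp [h]; ring
      · simp [h, rf_ne h]
    simp only [f]
    rw [← e1 (rf μ v) (Net.rp_adm hZ (m (by linarith))), map_mul, N.τ_τ, u, ← N.Θ_τ, Net.nq]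
  have e' : ∀ t ≥ 0, N.nq S μ (N.τ (ax μ t) Z) = f (2 * t) := fun t ht => by
    simpa using e (ax μ t) (by simpa using ht)
  have e'' : N.nq S μ Z = f 0 := by simpa [N.τ_zero] using e' 0 le_rfl
  obtain ⟨C, hC⟩ := e4 μ hZ
  rw [e v hv, e'']
  refine contraction (fun t ht => ?_) (fun t ht => (Complex.re_le_norm _).trans (hC t ht))
    (fun t ht => ?_) _ (by linarith)
  · exact (e3 μ (m (by linarith : 0 ≤ t / 2))).trans_eq ((e' _ (by linarith : 0 ≤ t / 2)).trans (congrArg f (by ring)))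
  · have u := e2 μ (Net.rp_adm hZ (m ht))
    rw [map_mul, N.Θ_Θ, mul_comm] at u
    have := discrim_le_zero (a := f (2 * t)) (b := 2 * f t) (c := f 0) fun s => by
      have := e3 μ (Submodule.add_mem _ hZ (Submodule.smul_mem _ (s : ℂ) (m ht)))
      rw [← e' t ht, ← e'']
      simp only [Net.nq, map_add, N.Θ_smul, add_mul, mul_add, smul_mul_assoc, mul_smul_comm,
        map_smul, smul_eq_mul, Complex.conj_ofReal, Complex.add_re, Complex.re_ofReal_mul, u,
        Complex.conj_re, f] at this ⊢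
      linarith
    rw [discrim] at this
    linarith

namespace LimL

variable (L : LimL h n a b O (netL h1 h2) U S)
include L

theorem congr {S' : PolL V →ₗ[ℂ] ℂ} (e : ∀ Z ∈ (netL h1 h2).loc univ, S' Z = S Z) :
    LimL h n a b O (netL h1 h2) U S' := ⟨L.le, fun Z hZ => e Z hZ ▸ L.cv Z hZ⟩

theorem word {k : ℕ} (c : Fin k → V) {f : Fin k → R4 → ℝ} (hf : Adm f) :
    Tendsto (fun p => ex h (b p) (n p) fun W => ∏ i, (sm (a p) (O p (c i)) (f i) W : ℂ)) U
      (𝓝 (S (∏ i, xL (c i) (f i)))) := by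
  simpa only [map_prod, ev_x] using L.cv _ (gen_mem (gen_L _ _) c hf fun _ => subset_univ _)

/-- identities which hold on the lattice -/
theorem null {X Z : PolL V} {K : Set R4} (hX : X ∈ (netL h1 h2).loc K)
    (hZ : Z ∈ (netL h1 h2).loc Kᶜ) (e : ∀ᶠ p in U, ∀ W, ev (a p) (O p) W X = 0) :
    S (X * Z) = 0 :=
  tendsto_nhds_unique (L.cv _ (Pur.Net.adm ((netL _ _).mul hX hZ disjoint_compl_right)))
    (tendsto_const_nhds.congr' (e.mono fun p e => by simp only [map_mul, e, zero_mul, ex_const]))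

theorem rel {K : Set R4} {t : ℝ} {c c' d : V} {g g' u : R4 → ℝ} (a1 : Wm.C1 K g) (a2 : Wm.C1 K g')
    (a3 : Wm.C1 K u) (e : ∀ᶠ p in U, ∀ W, sm (a p) (O p d) u W =
      sm (a p) (O p c') g' W + t * sm (a p) (O p c) g W) : ∀ Z ∈ (netL h1 h2).loc Kᶜ,
      S (xL d u * Z) = S (xL c' g' * Z) + t * S (xL c g * Z) := fun Z hZ => by
  have m := @Wx.c1_mem _ _ _ _ _ _ _ _ (gen_L h1 h2) K
  have := L.null (Submodule.sub_mem _ (m a3 d) (Submodule.add_mem _ (m a2 c')
    (Submodule.smul_mem _ (t : ℂ) (m a1 c)))) hZ (e.mono fun p e W => by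
      simp only [map_sub, map_add, map_smul, ev_x, e, smul_eq_mul]
      simp)
  rwa [sub_mul, add_mul, smul_mul_assoc, map_sub, map_add, map_smul, sub_eq_zero] at this

theorem linF (hF : Fm n a b) (hP : Pl O θ) : LinF (netL h1 h2) xL S :=
  fun c g g' t g1 g2 =>
    have a1 : Wm.C1 (tsupport g ∪ tsupport g') g := ⟨g1.1, g1.2.1, subset_union_left⟩
    have a2 : Wm.C1 (tsupport g ∪ tsupport g') g' := ⟨g2.1, g2.2.1, subset_union_right⟩
    L.rel a2 a1 (Pur.PN.Gd.comb a1 a2 t) (L.le ((hF.pos one_pos).mono fun _ e _ =>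
      sm_add e.1 g1.1 g2.1))

theorem lab (hF : Fm n a b) (hP : Pl O θ) {t : ℝ} {c c' d : V}
    (e : ∀ᶠ p in U, ∀ W, O p d W = t * O p c W + O p c' W) (g : R4 → ℝ) (hg : Wm.C1 univ g) :
    ∀ Z ∈ (netL h1 h2).loc (tsupport g)ᶜ,
      S (xL d g * Z) = t * S (xL c g * Z) + S (xL c' g * Z) := fun Z hZ => by
  have a1 : Wm.C1 (tsupport g) g := ⟨hg.1, hg.2.1, subset_rfl⟩
  rw [add_comm]
  refine L.rel a1 a1 a1 ?_ Z hZ
  filter_upwards [e, L.le (hF.pos one_pos)] with p e1 e2 W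
  rw [funext e1, sm_lab e2.1 hg.1, add_comm]

theorem real {k : ℕ} (c : Fin k → V) {f : Fin k → R4 → ℝ} (hf : Adm f) :
    (S (∏ i, xL (c i) (f i))).im = 0 :=
  tendsto_nhds_unique ((Complex.continuous_im.tendsto _).comp (L.word c hf))
    (tendsto_const_nhds.congr fun p => by
      simp only [comp, ← Complex.ofReal_prod, ex_real, Complex.ofReal_im])

theorem perm (hF : Fm n a b) (hP : Pl O θ) (σ : Equiv.Perm (Fin 4)) {u : V → V}
    (e : ∀ c, ∀ᶠ p in U, ∀ W, O p (u c) W = O p c (qz σ W)) {k : ℕ} (c : Fin k → V)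
    {f : Fin k → R4 → ℝ} (hf : Adm f) :
    S (∏ i, xL (c i) fun y => f i (Ro.prm σ y)) = S (∏ i, xL (u (c i)) (f i)) := by
  have a1 : Adm fun i y => f i (Ro.prm σ y) :=
    hf.comp (Ro.prm σ).toHomeomorph (Ro.prm σ).contDiff
  refine tendsto_nhds_unique (L.word c a1) ((L.word _ hf).congr' ?_)
  filter_upwards [eventually_all.2 fun i => e (c i), L.le (hF.pos one_pos)] with p e1 e2
  have := fun i => sm_cont e2.1 (a1.1 i).1 (hP.cont p (c i))
  rw [← ex_prm σ (F := fun W => ∏ i, (sm (a p) (O p (c i)) (fun y => f i (Ro.prm σ y)) W : ℂ))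
    (by fun_prop)]
  simp only [← sm_qz, ← e1]

theorem unit (hF : Fm n a b) {u : V} (e : ∀ᶠ p in U, ∀ W, O p u W = 1) (g : R4 → ℝ)
    (hg : Wm.C1 univ g) : ∀ Z ∈ (netL h1 h2).loc (tsupport g)ᶜ,
      S (xL u g * Z) = (∫ y, g y : ℝ) * S Z := fun Z hZ => by
  refine tendsto_nhds_unique (L.cv _ (Pur.Net.adm ((netL _ _).mul (Wx.c1_mem (gen_L _ _)
    ⟨hg.1, hg.2.1, subset_rfl⟩ u) hZ disjoint_compl_right)))
    ((((Complex.continuous_ofReal.tendsto _).comp ((riemann hg.1 hg.2.1.continuous).comp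
      (hF.a0.mono_left L.le))).mul (L.cv Z (Pur.Net.adm hZ))).congr' (e.mono fun p e => ?_))
  simp only [map_mul, ev_x, sm, e, mul_one, ex_mul, comp]

/-- the bound in the supremum norm -/
theorem bd (hF : Fm n a b) (hP : Pl O θ) (hB : PB h n a b O) {k : ℕ} (c : Fin k → V) {δ : ℝ}
    (δ0 : 0 < δ) (D : ℝ) : ∃ C : ℝ, ∀ (z : Fin k → R4) (g : Fin k → R4 → ℝ) (t : Fin k → ℝ),
      Adm g → (∀ i y, |g i y| ≤ t i ∧ (g i y ≠ 0 → ∀ l, |y l - z i l| ≤ D)) →
      (∀ i j, i ≠ j → ∀ x y, g i x ≠ 0 → g j y ≠ 0 → δ ≤ dist x y) →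
      ‖S (∏ i, xL (c i) (g i))‖ ≤ C * ∏ i, t i := by
  refine (hB.word hF hP c δ0 D).imp fun C hC z g t g0 g1 g2 => ?_
  obtain ⟨R, -, g3, -⟩ := g0.data
  exact le_of_tendsto (L.word c g0).norm (L.le ((hC R).mono fun p e => e z g t (fun i y =>
    ⟨(g1 i y).1, fun u l => ⟨(PiLp.norm_apply_le y l).trans (g3 i y (subset_tsupport _ u)),
      (g1 i y).2 u l⟩⟩) g2))

theorem shift (hF : Fm n a b) (hP : Pl O θ) (hB : PB h n a b O) {k : ℕ} (c : Fin k → V)
    {f : Fin k → R4 → ℝ} (hf : Adm f) {u : ℕ × ℕ → R4} (hu : Tendsto u U (𝓝 0)) :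
    Tendsto (fun p => ex h (b p) (n p) fun W =>
      ∏ i, (sm (a p) (O p (c i)) (fun y => f i (y - u p)) W : ℂ)) U
      (𝓝 (S (∏ i, xL (c i) (f i)))) := by
  obtain ⟨D, q, f1, f2, f3⟩ := hf.data
  have δ0 : (0 : ℝ) < 1 / (q + 1) / 3 := by positivity
  obtain ⟨C, hC⟩ := hB.word hF hP c δ0 (D + 1)
  let g : ℕ × ℕ → Fin k → Bool → R4 → ℝ := fun p i z =>
    bif z then (fun y => f i (y - u p)) + (-1 : ℝ) • f i else f i
  have g0 : ∀ p i, HasCompactSupport fun y => f i (y - u p) := fun p i =>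
    ((Pur.adm_sub hf _).1 i).1
  have g1 : ∀ p i z, HasCompactSupport (g p i z) := fun p i z => by
    cases z
    exacts [(hf.1 i).1, (g0 p i).add ((hf.1 i).1.smul_left (f := fun _ => (-1 : ℝ)))]
  have g2 : ∀ p i z y, g p i z y ≠ 0 → ∃ x ∈ tsupport (f i), dist y x ≤ ‖u p‖ := fun p i z y e => by
    by_cases v : f i y = 0
    · cases z
      · exact absurd v e
      · exact ⟨y - u p, subset_tsupport _ (by simpa [g, v] using e), by simp⟩
    · exact ⟨y, subset_tsupport _ v, by simp⟩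
  have key : ∀ z ∈ Finset.univ.erase fun _ : Fin k => false, Tendsto (fun p => ex h (b p) (n p)
      fun W => ∏ i, (sm (a p) (O p (c i)) (g p i (z i)) W : ℂ)) U (𝓝 0) := fun z hz => by
    obtain ⟨j, hj⟩ := Function.ne_iff.1 (Finset.ne_of_mem_erase hz)
    have t1 : Tendsto (fun p => C * ∏ i, bif z i then D * ‖u p‖ else (D : ℝ)) U
        (𝓝 (C * ∏ i, bif z i then D * ‖(0 : R4)‖ else (D : ℝ))) :=
      (tendsto_finsetProd _ fun i _ => by
        cases z i
        exacts [tendsto_const_nhds, hu.norm.const_mul _]).const_mul _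
    rw [Finset.prod_eq_zero (Finset.mem_univ j) (by simp_all), mul_zero] at t1
    refine squeeze_zero_norm' ?_ t1
    filter_upwards [L.le (hC (D + 1)), hu.norm.eventually_le_const (by simpa using lt_min δ0 one_pos :
      _ < min (1 / (q + 1) / 3 : ℝ) 1)] with p e1 e2
    refine e1 0 _ _ (fun i y => ⟨?_, fun v l => ?_⟩) fun i j e x y v w => ?_
    · cases z i
      · exact (f2 i).2 y
      · simpa [g, ← sub_eq_add_neg, Real.dist_eq] using (f2 i).1.dist_le_mul (y - u p) y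
    · obtain ⟨x, x1, x2⟩ := g2 _ _ _ _ v
      have := (PiLp.norm_apply_le y l).trans ((norm_le_norm_add_norm_sub' y x).trans
        (add_le_add (f1 i x x1) ((dist_eq_norm y x ▸ x2).trans (e2.trans (min_le_right _ _)))))
      simpa using this
    · obtain ⟨x', x1, x2⟩ := g2 _ _ _ _ v
      obtain ⟨y', y1, y2⟩ := g2 _ _ _ _ w
      linarith [f3 i j e _ x1 _ y1, dist_triangle4 x' x y y', dist_comm x x',
        e2.trans (min_le_left _ _)]
  have := (L.word c hf).add (tendsto_finsetSum _ key)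
  rw [Finset.sum_const_zero, add_zero] at this
  refine this.congr' ?_
  filter_upwards [L.le (hF.pos one_pos)] with p e
  have c1 := fun i z => sm_cont e.1 (g1 p i z) (hP.cont p (c i))
  have c2 : ∀ i W, sm (a p) (O p (c i)) (fun y => f i (y - u p)) W =
      ∑ z, sm (a p) (O p (c i)) (g p i z) W := fun i W => by
    simp only [g, Fintype.sum_bool, cond_true, cond_false, sm_add e.1 (g0 p i) (hf.1 i).1]
    ring
  simp only [c2, Complex.ofReal_sum, Fintype.prod_sum]
  rw [ex_sum _ fun y _ => by fun_prop, ← Finset.add_sum_erase _ _ (Finset.mem_univ fun _ => false)]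
  rfl

theorem st (hF : Fm n a b) (hP : Pl O θ) (hB : PB h n a b O) : (netL h1 h2).St S := by
  have G := gen_L h1 h2
  have c0 : ∀ {Z}, Z ∈ (netL h1 h2).loc univ →
      ∀ᶠ p in fast, Continuous fun W => ev (a p) (O p) W Z := fun hZ =>
    (hF.pos one_pos).mono fun p e => ev_cont e.1 (hP.cont p) hZ
  refine st_of (tendsto_nhds_unique (L.cv 1 ((netL _ _).one _)) (tendsto_const_nhds.congr fun p => by
    simp only [map_one, ex_const])) (fun {X} v hX => ?_) (fun {X} μ hX => ?_)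
    (fun {X} μ hX => ?_) fun {X} μ hX => ?_
  · obtain ⟨m, c, k, d, f, f1, -, rfl⟩ := Wx.exists_sum G hX
    simp only [map_sum, map_smul, Wx.τ_word G]
    refine Finset.sum_congr rfl fun j _ => congrArg _ (tendsto_nhds_unique (L.shift hF hP hB _
      (Pur.adm_sub (f1 j) v) (u := fun p => pz (a p) (fun l => ⌊v l / a p⌋) - v) ?_)
      ((L.word _ (f1 j)).congr' ?_))
    · refine ((PiLp.continuous_toLp 2 _).tendsto 0).comp (tendsto_pi_nhds.2 fun l =>
        squeeze_zero_norm' (L.le ((hF.pos one_pos).mono fun p e => ?_))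
          ((hF.a0.mono_right nhdsWithin_le_nhds).mono_left L.le))
      have e1 := (le_div_iff₀' e.1).1 (Int.floor_le (v l / a p))
      have e2 := (div_lt_iff₀' e.1).1 (Int.lt_floor_add_one (v l / a p))
      exact abs_le.2 ⟨by simp [pz]; linarith, by simp [pz]; linarith⟩
    · filter_upwards [L.le (hF.pos one_pos)] with p e
      have := fun i => sm_cont e.1 ((f1 j).1 i).1 (hP.cont p (d j i))
      simp only [sub_sub, sub_add_cancel, sm_tz]
      exact (ex_tz _ (F := fun W => ∏ i, (sm (a p) (O p (d j i)) (f j i) W : ℂ)) (by fun_prop)).symm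
  · refine tendsto_nhds_unique (L.cv _ (Pur.Net.Θ_adm μ hX))
      (((Complex.continuous_conj.tendsto _).comp (L.cv _ hX)).congr' (L.le ?_))
    filter_upwards [ev_Θ (a := a) h1 h2 μ (hP.rf μ) X, c0 hX] with p e1 e2
    simp only [e1, ex_conj, comp, ex_rz μ e2]
  · refine ge_of_tendsto ((Complex.continuous_re.tendsto _).comp (L.cv _ (Pur.Net.rp_adm hX hX)))
      (L.le ?_)
    filter_upwards [ev_Θ (a := a) h1 h2 μ (hP.rf μ) X, c0 (Pur.Net.adm hX), dep hF hP hX, hF.b0]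
      with p e1 e2 e3 e4
    simp only [map_mul, e1, comp]
    exact rp_pos e4 μ e2 e3
  · obtain ⟨m, c, k, d, f, f1, f2, rfl⟩ := Wx.exists_sum G hX
    have : ∀ j j', ∃ C, ∀ t ≥ 0, ‖S ((netL h1 h2).Θ μ (∏ i, xL (d j i) (f j i)) *
        (netL h1 h2).τ (Pur.ax μ t) (∏ i, xL (d j' i) (f j' i)))‖ ≤ C := fun j j' => by
      obtain ⟨η, η0, hη⟩ := IsCompact.exists_forall_le' (isCompact_iUnion fun i => ((f1 j).1 i).1)
        (f := fun y => y μ) (by fun_prop) (a := 0) fun y hy => iUnion_subset (f2 j) hy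
      obtain ⟨D, q, g1, g2, g3⟩ := (f1 j).data
      obtain ⟨D', q', g1', g2', g3'⟩ := (f1 j').data
      obtain ⟨C, hC⟩ := L.bd hF hP hB (Fin.append (fun i => θ μ (d j i)) (d j'))
        (lt_min η0 (lt_min (by positivity : (0 : ℝ) < 1 / (q + 1))
          (by positivity : (0 : ℝ) < 1 / (q' + 1)))) (D + D')
      refine ⟨C * ∏ _i : Fin (k j + k j'), (D + D' : ℝ), fun t ht => ?_⟩
      have u : ∀ i i' x y, x ∈ tsupport (fun y => f j i (Pur.rf μ y)) →
          y ∈ tsupport (fun y => f j' i' (y - Pur.ax μ t)) → η ≤ dist x y := fun i i' x y v w => by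
        have e1 := hη _ (mem_iUnion.2 ⟨i, tsupport_comp (Pur.rfL_eq μ ▸ (Pur.rfL μ).continuous) v⟩)
        have e2 : 0 < (y - Pur.ax μ t) μ :=
          f2 j' i' (tsupport_comp (θ := fun y => y - Pur.ax μ t) (by fun_prop) w)
        have e3 := (abs_le.1 (PiLp.dist_apply_le x y μ)).1
        simp at e1 e2
        linarith
      have := hC (Fin.append 0 fun _ => Pur.ax μ t) (Fin.append (fun i y => f j i (Pur.rf μ y))
        fun i y => f j' i (y - Pur.ax μ t)) (fun _ => D + D') ((Pur.adm_rf (f1 j) μ).append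
          (Pur.adm_sub (f1 j') _) fun i i' => disjoint_left.2 fun y v w => by
            linarith [u _ _ _ _ v w, dist_self y]) (fun i y => ?_) fun i i' e x y => ?_
      · simpa only [Fin.prod_univ_add, Fin.append_left, Fin.append_right, ← Wx.τ_word G,
          ← Wx.Θ_word G] using this
      · induction i using Fin.addCases <;> simp only [Fin.append_left, Fin.append_right]
        · refine ⟨((g2 _).2 _).trans (by simp), fun v l => ?_⟩
          simpa using ((PiLp.norm_apply_le _ l).trans (g1 _ _ (subset_tsupport _ v))).trans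
            (le_add_of_nonneg_right D'.cast_nonneg)
        · exact ⟨((g2' _).2 _).trans (by simp), fun v l => ((PiLp.norm_apply_le _ l).trans
            (g1' _ _ (subset_tsupport _ v))).trans (le_add_of_nonneg_left D.cast_nonneg)⟩
      · induction i using Fin.addCases <;> induction i' using Fin.addCases <;>
          simp only [Fin.append_left, Fin.append_right] <;> intro v w
        · have := g3 _ _ (e ∘ congrArg _) _ (subset_tsupport _ v) _ (subset_tsupport _ w)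
          rw [← Pur.rfL_eq, LinearIsometryEquiv.dist_map] at this
          exact ((min_le_right _ _).trans (min_le_left _ _)).trans this
        · exact (min_le_left _ _).trans (u _ _ _ _ (subset_tsupport _ v) (subset_tsupport _ w))
        · exact (min_le_left _ _).trans
            (dist_comm x y ▸ u _ _ _ _ (subset_tsupport _ w) (subset_tsupport _ v))
        · have := g3' _ _ (e ∘ congrArg _) _ (subset_tsupport _ v) _ (subset_tsupport _ w)
          rw [dist_sub_right] at this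
          exact ((min_le_right _ _).trans (min_le_right _ _)).trans this
    choose C hC using this
    refine ⟨∑ j', ∑ j, ‖c j'‖ * (‖c j‖ * C j j'), fun t ht => ?_⟩
    simp only [map_sum, map_smul, Pur.Net.Θ_smul, Finset.sum_mul, Finset.mul_sum, smul_mul_assoc,
      mul_smul_comm, smul_eq_mul]
    refine norm_sum_le_of_le _ fun j' _ => norm_sum_le_of_le _ fun j _ => ?_
    rw [norm_mul, norm_mul, Complex.norm_conj]
    gcongr
    exact hC _ _ t ht

end LimL

end Pool.Agent.Lib.MP_7f377f_mp.Wy
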