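import Pool.Agent.Lib.MP_7f377f_mp.G.WyA
import Pool.Agent.Lib.MP_7f377f_mp.G.WxT

/-! Letters at tame positions, at fixed lattice spacing. -/

noncomputable section

namespace Pool.Agent.Lib.MP_7f377f_mp.Wy
variable [Pool.Agent.Lib.MP_7f377f_mp.GD]
set_option linter.unusedSectionVars false

open MeasureTheory Filter Topology Set Real YM7 Weak L6 MvPolynomial Wv ComplexConjugate Function
open Wu (Z4 Alp)

variable {β ι : Type} {r : Fin 4 → β → β}

/-- the alphabet with marks -/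
def alp (hr : ∀ l c, r l (r l c) = c) (u : β → ℝ) (hu : ∀ c, 0 < u c ∧ ∀ l, u (r l c) = u c) (v : ℝ)
    (hv : 0 < v) : Alp (Option (β × Bool)) where
  e := none
  r l := Option.map (Prod.map (r l) id)
  gd c := ∃ d, c = some (d, true)
  bd := Option.map fun q => (q.1, false)
  w c := c.elim 1 fun q => bif q.2 then u q.1 else v
  r_e _ := rfl
  r_r l := by rintro (_ | ⟨c, t⟩) <;> simp [hr]
  gd_r l := by rintro (_ | ⟨c, t⟩) <;> simp
  gd_bd := by rintro (_ | ⟨c, t⟩) <;> simp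
  gd_e := by simp
  bd_e := by simp
  bd_r l := by rintro (_ | ⟨c, t⟩) <;> simp
  w_e := rfl
  w_pos := by rintro (_ | ⟨c, _ | _⟩) <;> simp [hv, (hu _).1]
  w_r l := by rintro (_ | ⟨c, _ | _⟩) <;> simp [(hu _).2]

/-- the observable of a marked letter -/
def vl (O : β → Fz → ℝ) (c : Option (β × Bool)) (U : Fz) : ℝ := c.elim 1 fun q => O q.1 U

/-- the observable of a configuration -/
def pr (O : β → Fz → ℝ) (σ : Z4 → Option (β × Bool)) (U : Fz) : ℝ := ∏ᶠ y, vl O (σ y) (tz y U)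

variable {hr : ∀ l c, r l (r l c) = c} {u : β → ℝ} {hu : ∀ c, 0 < u c ∧ ∀ l, u (r l c) = u c} {v : ℝ}
  {hv : 0 < v} {O : β → Fz → ℝ} {σ τ : Z4 → Option (β × Bool)} {rad n : ℕ} {K : ℝ} {l : Fin 4}
  {p : ℤ}

theorem pr_eq (h : (alp hr u hu v hv).Fi σ) (U : Fz) : pr O σ U = ∏ y ∈ h.toFinset, vl O (σ y) (tz y U) :=
  finprod_eq_prod_of_mulSupport_subset _ fun y hy => by
    rw [Finite.coe_toFinset]
    exact fun e : σ y = none => hy (by simp only [e, vl, Option.elim])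

theorem wt_eq (h : (alp hr u hu v hv).Fi σ) : (alp hr u hu v hv).Wt σ = ∏ y ∈ h.toFinset, (alp hr u hu v hv).w (σ y) :=
  finprod_eq_prod_of_mulSupport_subset _ fun y hy => by
    rw [Finite.coe_toFinset]
    exact fun e : σ y = none => hy (by simp only [e]; rfl)

theorem pr_cut (h : (alp hr u hu v hv).Fi σ) (P : Z4 → Prop) (U : Fz) :
    pr O σ U = pr O ((alp hr u hu v hv).cut σ P) U * pr O ((alp hr u hu v hv).cut σ fun y => ¬P y) U := by
  have f : ∀ {c}, (alp hr u hu v hv).Fi c → HasFiniteMulSupport fun y => vl O (c y) (tz y U) := fun h =>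
    h.subset fun y hy (e : _ = none) => hy (by simp only [e, vl, Option.elim])
  rw [pr, pr, pr, ← finprod_mul_distrib (f (h.cut _)) (f (h.cut _))]
  refine finprod_congr fun y => ?_
  by_cases e : P y <;> simp [Alp.cut, e, alp, vl]

theorem le_of_forall_pos_le_mul' {x y : ℝ} (h : ∀ δ > 0, x ≤ exp δ * y) : x ≤ y := by
  have : Tendsto (fun δ => exp δ * y) (𝓝[>] 0) (𝓝 y) := by
    simpa using ((continuous_exp.fun_mul continuous_const).tendsto (0 : ℝ)).mono_left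
      (nhdsWithin_le_nhds (s := Ioi 0))
  exact ge_of_tendsto this (eventually_mem_nhdsWithin.mono h)

variable (hL : Lt O r univ rad K)
include hL

theorem pr_R (U : Fz) : pr O ((alp hr u hu v hv).R σ l p) (tz (Pi.single l (-p)) U) =
    pr O σ (tz (Pi.single l (-p)) (rz l U)) := by
  rw [pr, pr, ← finprod_comp_equiv (Involutive.toPerm _ (Wu.th_inv l p))]
  refine finprod_congr fun y => ?_
  have e : ∀ c U, vl O ((alp hr u hu v hv).r l c) U = vl O c (rz l U) := by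
    rintro (_ | c) U
    exacts [rfl, hL.rf l _ trivial U]
  rw [Involutive.coe_toPerm, Alp.R, Wu.th_inv, e, tz_tz, tz_tz, ← rz_tz]
  congr 3
  funext μ
  by_cases e : μ = l <;> simp [Wu.th, e]
  ring

theorem pr_cont (h : (alp hr u hu v hv).Fi σ) : Continuous (pr O σ) := by
  rw [funext (pr_eq h)]
  refine continuous_finsetProd _ fun y _ => ?_
  rcases σ y with _ | c
  exacts [continuous_const, (hL.cont _ trivial).comp (cont_tz y)]

theorem pr_le (h : (alp hr u hu v hv).Fi σ) (e : ∀ y c, σ y = some c → K ≤ (alp hr u hu v hv).w (some c)) (U : Fz) :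
    |pr O σ U| ≤ (alp hr u hu v hv).Wt σ := by
  rw [pr_eq h, wt_eq h, Finset.abs_prod]
  refine Finset.prod_le_prod (fun _ _ => abs_nonneg _) fun y _ => ?_
  rcases e' : σ y with _ | c
  exacts [abs_one.le, (hL.bd _ trivial _).trans (e y c e')]

theorem pr_dep (h : (alp hr u hu v hv).Fi σ) (e : ∀ y, σ y ≠ none → ∃ k : ℤ, rad + 1 ≤ y l - p + k * n ∧
    2 * (y l - p + k * n + (rad + 1)) ≤ n) : DependsOn (fun U => pr O σ (tz (Pi.single l (-p)) U))
      {q | ∃ k : ℤ, 0 ≤ q.1 l + k * n ∧ 2 * (q.1 l + k * n + 1) ≤ n} := fun U V hUV => by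
  simp only [pr_eq h, tz_tz]
  refine Finset.prod_congr rfl fun y _ => ?_
  rcases e' : σ y with _ | c
  · rfl
  obtain ⟨k, k1, k2⟩ := e y (by simp [e'])
  refine hL.dep _ trivial fun q hq => hUV _ ⟨k, ?_⟩
  have := abs_le.1 (hq l)
  simp only [Pi.add_apply, Pi.single_eq_same]
  omega

variable [MeasurableSpace SU2] [BorelSpace SU2] {h : Measure SU2} [h.IsHaarMeasure]
  [IsProbabilityMeasure h] [NeZero n] {b : ℝ}

omit hL in
theorem int_tz (y : Z4) {F : Fz → ℝ} (hF : Continuous F) :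
    ∫ U, F (tz y (lf U)) ∂wilson h b n = ∫ U, F (lf U) ∂wilson h b n := by
  simp only [← lf_shift]
  exact int_mp (mp_shift' h b _) (hF.comp cont_lf)

theorem int_R (hσ : (alp hr u hu v hv).Fi σ) : ∫ U, pr O ((alp hr u hu v hv).R σ l p) (lf U) ∂wilson h b n =
    ∫ U, pr O σ (lf U) ∂wilson h b n := by
  have c := pr_cont hL hσ
  rw [← int_tz (Pi.single l (-p)) (pr_cont hL (hσ.R l p)), ← int_tz (Pi.single l (-p)) c]
  simp only [pr_R hL, ← lf_refl]
  exact int_mp (F := fun U => pr O σ (tz _ (lf U))) (mp_refl' h b l) (by fun_prop)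

omit hL in
theorem pr_sym (hσ : (alp hr u hu v hv).Fi σ) (e : ∀ y, σ y ≠ none → p < y l) (U : Fz) :
    pr O ((alp hr u hu v hv).sym σ l p) U = pr O σ U * pr O ((alp hr u hu v hv).R σ l p) U := by
  rw [pr_cut (hσ.sym l p) fun y => p ≤ y l]
  congr 2 <;> funext y <;> simp only [Alp.cut, Alp.sym] <;> split_ifs with e1 <;> try rfl
  · by_contra e2
    exact e1 (e y (Ne.symm e2)).le
  · by_contra e2
    have := e _ (Alp.r_ne.1 (Ne.symm e2))
    rw [Wu.th_self] at this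
    omega

theorem int_cs (b0 : 0 ≤ b) (hσ : (alp hr u hu v hv).Fi σ) (P : Z4 → Prop)
    (e : ∀ y, σ y ≠ none → (P y → rad + 1 ≤ y l - p ∧ 2 * (y l - p + (rad + 1)) ≤ n) ∧
      (¬P y → ∃ k : ℤ, rad + 1 ≤ p - y l + k * n ∧ 2 * (p - y l + k * n + (rad + 1)) ≤ n)) :
    (∫ U, pr O σ (lf U) ∂wilson h b n) ^ 2 ≤
      (∫ U, pr O ((alp hr u hu v hv).sym ((alp hr u hu v hv).cut σ P) l p) (lf U) ∂wilson h b n) *
        ∫ U, pr O ((alp hr u hu v hv).R ((alp hr u hu v hv).cut σ fun y => ¬P y) l p) (lf U) *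
          pr O ((alp hr u hu v hv).cut σ fun y => ¬P y) (lf U) ∂wilson h b n := by
  have f1 := hσ.cut P
  have f2 := hσ.cut fun y => ¬P y
  have c1 := pr_cont hL f1
  have c2 := pr_cont hL f2
  have c3 := pr_cont hL (f1.R l p)
  have c4 := pr_cont hL (f2.R l p)
  have := rp_cs (h := h) (n := n) b0 l (c1.comp (cont_tz _)) (c4.comp (cont_tz _))
    (pr_dep hL (p := p) f1 fun y hy => ⟨0, by
      simpa using (e y (Alp.cut_ne.1 hy).2).1 (Alp.cut_ne.1 hy).1⟩)
    (pr_dep hL (p := p) (f2.R l p) fun y hy => by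
      obtain ⟨e1, e2⟩ := Alp.cut_ne.1 (Alp.r_ne.1 hy)
      obtain ⟨k, hk⟩ := (e _ e2).2 e1
      rw [Wu.th_self] at hk
      exact ⟨k, by omega⟩)
  simp only [comp_apply, ← pr_R (hr := hr) (hu := hu) (hv := hv) hL, Alp.R_R] at this
  rw [int_tz _ (c1.fun_mul c2), int_tz _ (c1.fun_mul c3), int_tz _ (c4.fun_mul c2)] at this
  simpa only [← pr_cut hσ, pr_sym (l := l) (p := p) f1 fun y hy => by
    have := (e y (Alp.cut_ne.1 hy).2).1 (Alp.cut_ne.1 hy).1
    omega] using this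

theorem int_cs1 (b0 : 0 ≤ b) (hσ : (alp hr u hu v hv).Fi σ)
    (e : ∀ y, σ y ≠ none → rad + 1 ≤ |y l - p| ∧ 2 * (|y l - p| + (rad + 1)) ≤ n) :
    (∫ U, pr O σ (lf U) ∂wilson h b n) ^ 2 ≤ (∫ U, pr O ((alp hr u hu v hv).sym σ l p) (lf U) ∂wilson h b n) *
      ∫ U, pr O ((alp hr u hu v hv).sL σ l p) (lf U) ∂wilson h b n := by
  have f : (alp hr u hu v hv).Fr (rad + 1) σ l p := fun y hy => (e y hy).1
  refine (int_cs hL (l := l) (p := p) b0 hσ (fun y => p < y l) fun y hy =>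
    ⟨fun e1 => ?_, fun e1 => ⟨0, ?_⟩⟩).trans_eq ?_
  · simpa only [abs_of_pos (sub_pos.2 e1)] using e y hy
  · simpa only [abs_of_nonpos (sub_nonpos.2 (not_lt.1 e1)), neg_sub, zero_mul, add_zero] using e y hy
  have e1 : (alp hr u hu v hv).sym ((alp hr u hu v hv).cut σ fun y => p < y l) l p = (alp hr u hu v hv).sym σ l p := by
    funext y
    simp only [Alp.sym, Alp.cut, Alp.R, Wu.th_self]
    split_ifs <;> try first | rfl | omega
    exact (f.emp (by omega) (by omega)).symm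
  have e2 : (alp hr u hu v hv).sL ((alp hr u hu v hv).cut σ fun y => ¬p < y l) l p = (alp hr u hu v hv).sL σ l p :=
    Alp.sL_congr fun y hy => if_pos hy.not_gt
  rw [e1, ← e2, Alp.sL]
  simp only [pr_sym (l := l) (p := p) ((hσ.cut fun y => ¬p < y l).R l p) fun y hy => by
    obtain ⟨e1, e2⟩ := Alp.cut_ne.1 (Alp.r_ne.1 hy)
    have := (e _ e2).1
    rw [Wu.th_self] at e1 this
    rcases le_abs.1 this with e | e <;> omega, Alp.R_R]

omit hL in
theorem int_e0 {lam : ℕ} {C : ℝ} (C0 : 0 ≤ C) (hO : ∀ c, Continuous (O c))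
    (hE : E0 h b n lam O univ u C) (hσ : (alp hr u hu v hv).Fi σ) (h1 : ∀ y, σ y ≠ none → (alp hr u hu v hv).gd (σ y))
    (h2 : ∀ y z, σ y ≠ none → σ z ≠ none → ∀ μ, (lam : ℤ) ∣ y μ - z μ) {o : Z4}
    (h3 : ∀ y, σ y ≠ none → ∀ μ, 2 * |y μ - o μ| < n) :
    |∫ U, pr O σ (lf U) ∂wilson h b n| ≤ exp (C * ((n : ℤ) / (lam : ℤ)) ^ 4) * (alp hr u hu v hv).Wt σ := by
  classical
  obtain ⟨m, hm, hE⟩ := hE
  have n0 := NeZero.ne n
  haveI : NeZero m := ⟨by rintro rfl; simp at hm; exact n0 hm⟩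
  have l0 : lam ≠ 0 := by rintro rfl; simp at hm; exact n0 hm
  rw [show (((n : ℤ) : ℝ) / (lam : ℤ)) = m by rw [hm]; push_cast; field_simp]
  by_cases e : ∀ y, σ y = none
  · simp [pr, Alp.Wt, e, vl, alp, mul_nonneg C0]
  obtain ⟨y₀, y0⟩ := not_forall.1 e
  choose c hc using fun y : hσ.toFinset => h1 y (hσ.mem_toFinset.1 y.2)
  choose t ht using fun (y : hσ.toFinset) μ => h2 y y₀ (hσ.mem_toFinset.1 y.2) y0 μ
  have inj : Injective fun (y : hσ.toFinset) μ => (t y μ : ZMod m) := fun y z e =>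
    Subtype.ext (funext fun μ => by
      have e1 := (ZMod.intCast_eq_intCast_iff_dvd_sub _ _ _).1 (congrFun e μ)
      have e2 : (n : ℤ) ∣ z.1 μ - y.1 μ := by
        rw [show z.1 μ - y.1 μ = (t z μ - t y μ) * lam by linarith [ht y μ, ht z μ], hm]
        exact_mod_cast mul_dvd_mul_right e1 _
      have e3 := h3 y (hσ.mem_toFinset.1 y.2) μ
      have e4 := h3 z (hσ.mem_toFinset.1 z.2) μ
      have := Int.eq_zero_of_abs_lt_dvd e2 (by
        rcases abs_cases (y.1 μ - o μ) with e | e <;> rcases abs_cases (z.1 μ - o μ) with e | e <;>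
          rw [abs_lt] <;> omega)
      omega)
  have := hE (Finset.univ.map ⟨_, inj⟩) (extend (fun y μ => (t y μ : ZMod m)) c fun _ =>
    c ⟨y₀, hσ.mem_toFinset.2 y0⟩) fun _ _ => trivial
  simp only [Finset.prod_map, Embedding.coeFn_mk, inj.extend_apply] at this
  have e1 : ∀ U, pr O σ U = ∏ y : hσ.toFinset, O (c y) (tz y U) := fun U => by
    rw [pr_eq hσ, ← Finset.prod_coe_sort]
    exact Finset.prod_congr rfl fun y _ => by rw [hc]; rfl
  rw [wt_eq hσ, ← Finset.prod_coe_sort, ← int_tz (-y₀) (by rw [funext e1]; fun_prop)]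
  convert this with U y
  · rw [e1]
    refine Finset.prod_congr rfl fun y _ => ?_
    rw [tz_tz, ← lf_shift]
    congr 3
    funext μ
    rw [corner, corner_int hm _ (t y μ) rfl, ← ht]
    simp [add_comm, sub_eq_add_neg]
  · rw [hc]
    rfl

/-- the normalised expectations -/
theorem tk (b0 : 0 ≤ b) (Kv : K ≤ v) {u' : β → ℝ} {hu' : ∀ c, 0 < u' c ∧ ∀ l, u' (r l c) = u' c}
    (e : ∀ c, K ≤ u c * u' c) : (alp hr u' hu' 1 one_pos).Tk (rad + 1) n fun σ =>
      |∫ U, pr O σ (lf U) ∂wilson h b n| / (alp hr u hu v hv).Wt σ := by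
  have hu'' : ∀ c, 0 < u c * u' c ∧ ∀ l, u (r l c) * u' (r l c) = u c * u' c := fun c =>
    ⟨mul_pos (hu c).1 (hu' c).1, fun l => by rw [(hu c).2, (hu' c).2]⟩
  have cr : ∀ {σ}, (alp hr u hu v hv).Fi σ → ∀ U, |pr O σ U| ≤ (alp hr u hu v hv).Wt σ * (alp hr u' hu' 1 one_pos).Wt σ :=
    fun {σ} hσ U => by
      refine (pr_le (hr := hr) (hu := hu'') (hv := hv) hL hσ (fun y c _ => ?_) U).trans_eq ?_
      · rcases c with ⟨c, _ | _⟩
        exacts [Kv, e c]
      · refine (wt_eq (hu := hu'') hσ).trans (.trans ?_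
          ((Finset.prod_mul_distrib.trans (congrArg₂ _ (wt_eq hσ).symm
            (wt_eq (hu := hu') (hv := one_pos) hσ).symm))))
        refine Finset.prod_congr rfl fun y _ => ?_
        rcases σ y with _ | ⟨c, _ | _⟩ <;> simp [alp]
  have nb : ∀ {F : Cfg n → ℝ} {c : ℝ}, (∀ U, |F U| ≤ c) → |∫ U, F U ∂wilson h b n| ≤ c :=
    fun {F c} e => by
      simpa using norm_integral_le_of_norm_le_const (μ := wilson h b n) (f := F) (.of_forall e)
  have wp := Alp.wt_pos (A := alp hr u hu v hv)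
  have e1 : (alp hr u' hu' 1 one_pos).cut = (alp hr u hu v hv).cut := rfl
  have e2 : (alp hr u' hu' 1 one_pos).sym = (alp hr u hu v hv).sym := rfl
  have e3 : (alp hr u' hu' 1 one_pos).sL = (alp hr u hu v hv).sL := rfl
  have e4 : (alp hr u' hu' 1 one_pos).R = (alp hr u hu v hv).R := rfl
  refine ⟨fun σ => div_nonneg (abs_nonneg _) (wp σ).le, fun σ l p (hσ : (alp hr u hu v hv).Fi σ) => ?_,
    fun σ hσ => ?_, fun σ (hσ : (alp hr u hu v hv).Fi σ) e => ?_, fun σ l p (hσ : (alp hr u hu v hv).Fi σ) e => ?_,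
    fun σ l p (hσ : (alp hr u hu v hv).Fi σ) e => ?_⟩
  · rw [e4, int_R hL hσ, Alp.wt_R]
  · exact (div_le_iff₀' (wp σ)).2 (nb fun U => cr hσ _)
  · refine (div_le_one (wp σ)).2 (nb fun U => pr_le hL hσ (fun y c e' => ?_) _)
    rcases c with ⟨c, _ | _⟩
    exacts [Kv, (e y ⟨c, e'⟩).elim]
  · have f : (alp hr u hu v hv).Fr (rad + 1) σ l p := fun y hy => (e y hy).1
    rw [div_pow, div_mul_div_comm, ← abs_mul, sq_abs, e2, e3, Alp.wt_sym hσ f (by omega),
      Alp.wt_sL hσ f (by omega), ← mul_pow, Alp.wt_cut hσ fun y => p < y l,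
      show (alp hr u hu v hv).cut σ (fun y => ¬p < y l) = (alp hr u hu v hv).cut σ fun y => y l < p from funext fun y => by
        simp only [Alp.cut]
        split_ifs <;> try first | rfl | omega
        exact f.emp (by omega) (by omega)]
    exact div_le_div_of_nonneg_right ((int_cs1 hL b0 hσ e).trans (le_abs_self _)) (sq_nonneg _)
  · obtain ⟨P, hP⟩ : ∃ P : Z4 → Prop, ∀ y, P y ↔ p < y l ∧ 2 * (y l - p) < n :=
      ⟨_, fun _ => Iff.rfl⟩
    have c := int_cs hL (l := l) (p := p) (h := h) (n := n) b0 hσ P fun y hy => by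
      have := e y hy
      rw [hP]
      refine ⟨fun e1 => by rw [abs_of_pos (by omega)] at this; omega, fun e1 => ?_⟩
      rcases abs_cases (y l - p) with e2 | e2
      exacts [⟨1, by omega⟩, ⟨0, by omega⟩]
    have f2 := hσ.cut fun y => ¬P y
    have c2 := nb (F := fun U => _ * _) fun U => (abs_mul _ _).trans_le
      (mul_le_mul (cr (f2.R l p) (lf U)) (cr f2 (lf U)) (abs_nonneg _)
        (mul_pos (wp _) (Alp.wt_pos _)).le)
    have c3 := Alp.wt_sym (m := rad + 1) (l := l) (p := p) (hσ.cut P) (fun y hy => by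
      obtain ⟨e1, e2⟩ := Alp.cut_ne.1 hy
      have := e y e2
      rw [hP] at e1
      rcases abs_cases (y l - p) with e2 | e2 <;> omega) (by omega)
    rw [show (alp hr u hu v hv).cut ((alp hr u hu v hv).cut σ P) (fun y => p < y l) = (alp hr u hu v hv).cut σ P from funext fun y => by
      simp only [Alp.cut, hP]
      split_ifs <;> first | rfl | omega] at c3
    rw [Alp.wt_R, ← e4, Alp.wt_R, ← sq] at c2
    simp only [← hP, e1, e2]
    rw [div_pow, sq_abs, div_mul_eq_mul_div, Alp.wt_cut hσ P, c3, mul_pow, mul_comm, ← div_div]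
    refine div_le_div_of_nonneg_right ((div_le_iff₀ (pow_pos (wp _) 2)).2
      (c.trans ((le_abs_self _).trans ?_))) (sq_nonneg _)
    rw [abs_mul, mul_assoc, ← mul_pow, mul_comm ((alp hr u' hu' 1 one_pos).Wt _)]
    exact mul_le_mul_of_nonneg_left c2 (abs_nonneg _)

omit hL in
theorem pt0 [Finite β] {Φ : Ultrafilter ι} {n : ι → ℕ} [∀ i, NeZero (n i)] {b : ι → ℝ}
    {O : ι → β → Fz → ℝ} {lam : ℕ} {C : ℝ} (hr : ∀ l c, r l (r l c) = c)
    (hu : ∀ c, 0 < u c ∧ ∀ l, u (r l c) = u c) (hn : Tendsto n Φ atTop) (hb : ∀ᶠ i in Φ, 0 ≤ b i)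
    (hL : ∀ᶠ i in Φ, Lt (O i) r univ rad K) (hE : ∀ᶠ i in Φ, E0 h (b i) (n i) lam (O i) univ u C)
    (C0 : 0 ≤ C) {g : ℤ} (g0 : 0 ≤ g) (g1 : g + rad + 1 ≤ lam) {I : Type} [Fintype I] (c : I → β)
    (y : I → Z4) (h1 : ∀ i j l, |y i l - y j l| ≤ g ∨ 7 * lam + 8 ≤ |y i l - y j l|)
    (h2 : ∀ i j, i ≠ j → ∃ l, g < |y i l - y j l|) {ε : ℝ} (e0 : 0 < ε) :
    ∀ᶠ i in Φ, |∫ U, ∏ j, O i (c j) (tz (y j) (lf U)) ∂wilson h (b i) (n i)| ≤
      exp (ε + 256 * C * Fintype.card I) * ∏ j, u (c j) := by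
  classical
  have hv : 0 < max K 1 := by positivity
  have hn' : Tendsto (fun i => (n i : ℤ)) Φ atTop := tendsto_natCast_atTop_atTop.comp hn
  have hu1 : ∀ c, 0 < u c * exp (256 * C) ∧ ∀ l, u (r l c) * exp (256 * C) = u c * exp (256 * C) :=
    fun c => ⟨mul_pos (hu c).1 (exp_pos _), fun l => by rw [(hu c).2]⟩
  have hu2 : ∀ c, 0 < max K 1 / u c ∧ ∀ l, max K 1 / u (r l c) = max K 1 / u c :=
    fun c => ⟨div_pos hv (hu c).1, fun l => by rw [(hu c).2]⟩
  obtain ⟨κ, hκ⟩ := (finite_range fun c => max K 1 / u c).bddAbove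
  obtain ⟨X, hX⟩ : ∃ X : ι → _ → ℝ, ∀ i σ, X i σ = ∫ U, pr (O i) σ (lf U) ∂wilson h (b i) (n i) :=
    ⟨_, fun _ _ => rfl⟩
  have hT := (hL.and hb).mono fun i e => tk (hr := hr) (hu := hu) (hv := hv) (hu' := hu2) e.1
    (h := h) (n := n i) e.2 (le_max_left _ _) fun c => by
      rw [mul_div_cancel₀ _ (hu c).1.ne']
      exact le_max_left _ _
  have cv : ∀ σ, (alp hr u hu _ hv).Fi σ → Tendsto (X · σ) Φ (𝓝 (limUnder Φ (X · σ))) := fun σ hσ =>
    ultra_lim Φ (hT.mono fun i e => hX i σ ▸ (div_le_iff₀ (Alp.wt_pos _)).1 (e.crude σ hσ))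
  have hO : (alp hr _ hu1 _ hv).Ok (rad + 1) fun σ => |limUnder Φ (X · σ)| := by
    refine ⟨fun _ => abs_nonneg _, ?_, fun σ P => ?_, fun σ l p hσ => ?_, fun σ l p hσ f => ?_⟩
    · simp [hX, pr, vl, alp, tendsto_const_nhds.limUnder_eq]
    · congr 3
      funext i
      simp only [hX, pr, Alp.mr]
      congr 3
      funext U
      refine finprod_congr fun y => ?_
      split_ifs
      · rcases σ y with _ | c <;> rfl
      · rfl
    · exact congrArg _ (tendsto_nhds_unique (cv _ (Alp.Fi.R hσ l p)) ((cv σ hσ).congr'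
        (hL.mono fun i e => by simp only [hX]; exact (int_R e hσ).symm)))
    · obtain ⟨B, hB⟩ := Alp.Fi.bdd hσ
      rw [sq_abs, ← abs_mul]
      refine (le_of_tendsto_of_tendsto ((cv σ hσ).pow 2) ((cv _ (Alp.Fi.sym hσ l p)).mul
        (cv _ ((Alp.Fi.R hσ l p).sym l p))) ?_).trans (le_abs_self _)
      filter_upwards [hL, hb, hn'.eventually_ge_atTop (2 * (B + |p| + (rad + 1)))] with i e1 e2 e3
      simp only [hX]
      refine int_cs1 e1 e2 hσ fun y hy => ⟨f y hy, ?_⟩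
      have := hB y hy l
      rcases abs_cases (y l - p) with e | e <;> rcases abs_cases p with e | e <;> omega
  have inj : Injective y := fun i j e => by
    by_contra e'
    obtain ⟨l, hl⟩ := h2 i j e'
    simp [e, g0.not_gt] at hl
  obtain ⟨σ, s1, s2⟩ : ∃ σ : Z4 → Option (β × Bool), (∀ j, σ (y j) = some (c j, true)) ∧
      ∀ z, σ z ≠ none → ∃ j, y j = z :=
    ⟨extend y (fun j => some (c j, true)) fun _ => none, inj.extend_apply _ _, fun z hz => by
      by_contra e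
      exact hz (extend_apply' _ _ _ e)⟩
  have hσ : (alp hr u hu _ hv).Fi σ := (finite_range y).subset s2
  have s3 : ∀ f : Z4 → Option (β × Bool) → ℝ, (∀ z, f z none = 1) →
      ∏ᶠ z, f z (σ z) = ∏ j, f (y j) (some (c j, true)) := fun f e => by
    rw [finprod_eq_prod_of_mulSupport_subset (s := Finset.univ.image y) _ fun z hz => by
      simpa using s2 z fun e' => hz (by simp only [e', e]), Finset.prod_image inj.injOn]
    simp only [s1]
  have m := Alp.main (m := 3 * lam) (σ := σ) hO (by omega) (by omega) g0 (fun τ t1 t2 t3 => ?_) hσ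
    fun z z' hz hz' => by
      obtain ⟨i, rfl⟩ := s2 z hz
      obtain ⟨j, rfl⟩ := s2 z' hz'
      exact ⟨fun μ => (h1 i j μ).imp_right fun e => by omega, fun e => h2 i j fun e' => e (e' ▸ rfl)⟩
  · have e1 : (alp hr _ hu1 _ hv).Wt σ = exp (256 * C * Fintype.card I) * ∏ j, u (c j) := by
      rw [Alp.Wt, s3 (fun _ => (alp hr _ hu1 _ hv).w) fun _ => rfl, mul_comm (256 * C), exp_nat_mul]
      simp [alp, Finset.prod_mul_distrib, mul_comm]
    refine ((cv σ hσ).abs.eventually_le_const (m.trans_lt ?_)).mono fun i e => le_of_eq_of_le ?_ e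
    · rw [e1, exp_add, mul_assoc (exp ε)]
      exact lt_mul_of_one_lt_left (e1 ▸ Alp.wt_pos _) (one_lt_exp_iff.2 e0)
    · rw [hX]
      congr 2
      funext U
      exact (s3 (fun z c => vl (O i) c (tz z (lf U))) fun _ => rfl).symm
  have e1 : (alp hr _ hu1 _ hv).Wt τ =
      exp (256 * C * {y | (alp hr _ hu2 _ one_pos).gd (τ y)}.ncard) * (alp hr u hu _ hv).Wt τ := by
    rw [wt_eq t1, wt_eq (hu := hu) t1, mul_comm (256 * C), exp_nat_mul,
      show {y | (alp hr _ hu2 _ one_pos).gd (τ y)} = ↑(t1.toFinset.filter fun y =>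
        (alp hr _ hu2 _ one_pos).gd (τ y)) from Set.ext fun z => by
          rw [Finset.coe_filter]
          exact ⟨fun e => ⟨t1.mem_toFinset.2 (Alp.gd_ne e), e⟩, And.right⟩, ncard_coe_finset,
      ← Finset.prod_const, Finset.prod_filter]
    refine .trans (Finset.prod_congr rfl fun z _ => ?_) Finset.prod_mul_distrib
    rcases τ z with _ | ⟨c, _ | _⟩ <;> simp [alp, mul_comm]
  rw [e1]
  refine le_of_forall_pos_le_mul' fun δ δ0 => le_of_tendsto (cv τ t1).abs ?_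
  filter_upwards [Alp.tmain (A := alp hr _ hu2 _ one_pos) (ℓ := lam) (κ := max κ 1) hn' hT (by omega)
    g0 (by omega) (by omega) (by
      rintro (_ | ⟨c, _ | _⟩)
      exacts [le_max_right _ _, le_max_right _ _, le_max_of_le_left (hκ ⟨c, rfl⟩)])
    (le_max_right _ _) C0 ((hL.and hE).mono fun i e σ e1 e2 e3 ⟨o, e4⟩ =>
      (div_le_iff₀ (Alp.wt_pos _)).2 (int_e0 C0 (fun c => e.1.cont c trivial) e.2 e1 e2 e3 e4))
    t1 t2 t3 δ0] with i e
  rw [hX, ← mul_assoc, ← exp_add]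
  exact (div_le_iff₀ (Alp.wt_pos _)).1 e

omit hL in
theorem pt {Φ : Ultrafilter ι} {n : ι → ℕ} [∀ i, NeZero (n i)] {b : ι → ℝ} {O : ι → β → Fz → ℝ}
    {r : Fin 4 → β → β} {A : Set β} {w : β → ℝ} {lam : ℕ} {C : ℝ} (hn : Tendsto n Φ atTop)
    (hb : ∀ᶠ i in Φ, 0 ≤ b i) (hE : EJ h Φ n b O r A w lam C) (C0 : 0 ≤ C) {g : ℤ} (g0 : 0 ≤ g)
    (g1 : g + (lam / 10 : ℕ) + 1 ≤ lam) {I : Type} [Fintype I] (c : I → β) (y : I → Z4)
    (hc : ∀ i, c i ∈ A) (h1 : ∀ i j l, |y i l - y j l| ≤ g ∨ 7 * lam + 8 ≤ |y i l - y j l|)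
    (h2 : ∀ i j, i ≠ j → ∃ l, g < |y i l - y j l|) {ε : ℝ} (e0 : 0 < ε) :
    ∀ᶠ i in Φ, ‖ex h (b i) (n i) fun U => ∏ j, (O i (c j) (tz (y j) U) : ℂ)‖ ≤
      exp (ε + 256 * C * Fintype.card I) * ∏ j, w (c j) := by
  haveI := hE.fin.to_subtype
  obtain ⟨K, hK⟩ := hE.lt
  refine (pt0 (β := A) (r := fun l c => ⟨r l c, (hE.cl l c c.2).1⟩) (u := fun c => w c) (K := K)
    (O := fun i c => O i c) (fun l c => Subtype.ext (hE.cl l c c.2).2.1)
    (fun c => ⟨hE.pos c c.2, fun l => (hE.cl l c c.2).2.2⟩) hn hb (hK.mono fun i e =>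
      ⟨fun c _ => e.cont c c.2, fun c _ => e.dep c c.2, fun l c _ => e.rf l c c.2,
        fun c _ => e.bd c c.2⟩) (hE.e0.mono fun i => .imp fun m e =>
      ⟨e.1, fun s σ _ => e.2 s _ fun x _ => (σ x).2⟩) C0 g0 g1 (fun j => ⟨c j, hc j⟩) y h1 h2
    e0).mono fun i e => le_of_eq_of_le ?_ e
  simp only [← Complex.ofReal_prod, ex_real, Complex.norm_real, norm_eq_abs]

end Pool.Agent.Lib.MP_7f377f_mp.Wy
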