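import Pool.Agent.Lib.MP_7f377f_mp.G.WyN
import Pool.Agent.Lib.MP_7f377f_mp.G.WyB
import Pool.Agent.Lib.MP_7f377f_mp.G.WxG

/-! Combinations of letters under lattice maps, and the array of folded cells. -/

noncomputable section

namespace Pool.Agent.Lib.MP_7f377f_mp.Wy
variable [Pool.Agent.Lib.MP_7f377f_mp.GD]
set_option linter.unusedSectionVars false

open MeasureTheory Filter Topology Set Real YM7 Weak L6 MvPolynomial Wv ComplexConjugate Function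
open Wu (Z4)

section
variable {β : Type} {O : β → Fz → ℝ} {A : Set β} {w : β → ℝ} {a ρ η : ℝ} {z : R4} {Y : Fz → ℂ}

theorem Cb.of {κ : Type} (s : Finset κ) (y : κ → Z4) (c : κ → β) (t : κ → ℂ) (w0 : ∀ c ∈ A, 0 ≤ w c)
    (h1 : ∀ k ∈ s, c k ∈ A ∧ ∀ l, |a * y k l - z l| ≤ ρ) (h2 : ∑ k ∈ s, ‖t k‖ * w (c k) ≤ η)
    (h3 : ∀ U, Y U = ∑ k ∈ s, t k * O (c k) (tz (y k) U)) : Cb O A w a z ρ η Y := by
  classical
  have m : ∀ k ∈ s, (y k, c k) ∈ s.image fun k => (y k, c k) := fun k => Finset.mem_image_of_mem _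
  refine ⟨s.image fun k => (y k, c k), fun q => ∑ k ∈ s with (y k, c k) = q, t k,
    Finset.forall_mem_image.2 h1, le_trans ?_ h2, fun U => ?_⟩
  · rw [← Finset.sum_fiberwise_of_maps_to m]
    refine Finset.sum_le_sum (Finset.forall_mem_image.2 fun k hk => (mul_le_mul_of_nonneg_right
      (norm_sum_le _ _) (w0 _ (h1 k hk).1)).trans_eq ?_)
    rw [Finset.sum_mul]
    exact Finset.sum_congr rfl fun j hj => by
      rw [show c j = c k from congrArg Prod.snd (Finset.mem_filter.1 hj).2]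
  · rw [h3, ← Finset.sum_fiberwise_of_maps_to m]
    refine Finset.sum_congr rfl fun q _ => ?_
    rw [Finset.sum_mul]
    exact Finset.sum_congr rfl fun j hj => by rw [← (Finset.mem_filter.1 hj).2]

theorem Cb.pos (h : Cb O A w a z ρ η Y) (w0 : ∀ c ∈ A, 0 ≤ w c) : 0 ≤ η :=
  let ⟨_, _, h1, h2, _⟩ := h
  (Finset.sum_nonneg fun q hq => mul_nonneg (norm_nonneg _) (w0 _ (h1 q hq).1)).trans h2

theorem Cb.tz (h : Cb O A w a z ρ η Y) (w0 : ∀ c ∈ A, 0 ≤ w c) (v : Z4) :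
    Cb O A w a (z + pz a v) ρ η fun U => Y (tz v U) :=
  let ⟨s, t, h1, h2, h3⟩ := h
  .of s (fun q => v + q.1) Prod.snd t w0 (fun q hq => ⟨(h1 q hq).1, fun l => by
    convert (h1 q hq).2 l using 2
    simp [pz]
    ring⟩) h2 fun U => by simp only [h3, tz_tz]

theorem Cb.rz (h : Cb O A w a z ρ η Y) (w0 : ∀ c ∈ A, 0 ≤ w c) {μ : Fin 4} {r : β → β}
    (hr : ∀ c ∈ A, r c ∈ A ∧ w (r c) = w c ∧ ∀ U, O (r c) U = O c (rz μ U)) :
    Cb O A w a (Pur.rf μ z) ρ η fun U => conj (Y (rz μ U)) :=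
  let ⟨s, t, h1, h2, h3⟩ := h
  .of s (fun q => Wu.th μ 0 q.1) (fun q => r q.2) (fun q => conj (t q)) w0
    (fun q hq => ⟨(hr _ (h1 q hq).1).1, fun l => by
      have := (h1 q hq).2 l
      by_cases e : l = μ
      · subst e
        simpa [abs_sub_comm, neg_add_eq_sub] using this
      · simpa [Wu.th, e, Pur.rf_ne] using this⟩)
    ((Finset.sum_congr rfl fun q hq => by simp [(hr _ (h1 q hq).1).2.1]).trans_le h2) fun U => by
      rw [h3, map_sum]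
      exact Finset.sum_congr rfl fun q hq => by simp [(hr _ (h1 q hq).1).2.2, rz_tz]

end

section
open Pur Wx
variable {P I : Type} [CommRing P] [Algebra ℂ P] {N : Net P} {S : P →ₗ[ℂ] ℂ} [Fintype I]

theorem tm_mem {z : I → R4} {X : I → P} {g H ρ : ℝ} (hz : Tm z g H) (h : 2 * ρ < H)
    (hX : ∀ i, X i ∈ N.loc {y | ∀ l, |y l - z i l| ≤ ρ}) {O : Set R4}
    (hO : ∀ i y, (∀ l, |y l - z i l| ≤ ρ) → y ∈ O) : ∏ i, X i ∈ N.loc O := by
  rw [← (Fintype.equivFin I).symm.prod_comp]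
  refine Lm.prod_mem (fun i => hX _) (fun i j u => disjoint_left.2 fun y e e' => ?_) fun i => hO _
  obtain ⟨l, hl⟩ := hz.2 _ _ ((Fintype.equivFin I).symm.injective.ne u)
  linarith [abs_sub_le (z ((Fintype.equivFin I).symm i) l) (y l) (z ((Fintype.equivFin I).symm j) l),
    abs_sub_comm (z ((Fintype.equivFin I).symm i) l) (y l), e l, e' l]

theorem cell (hS : N.St S) {G : R4 → ℝ → P → Prop} {g H ρ w K : ℝ} (w0 : 0 < w) (K0 : 0 ≤ K)
    (ρ0 : 0 ≤ ρ) (h : 2 * ρ < H) (pos : ∀ {z B X}, G z B X → 0 ≤ B)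
    (loc : ∀ {z B X}, G z B X → X ∈ N.loc {y | ∀ l, |y l - z l| ≤ ρ})
    (refl : ∀ {z B X} μ, G z B X → G (Pur.rf μ z) B (N.Θ μ X))
    (tau : ∀ {z B X} v, G z B X → G (z + pz w v) B (N.τ (pz w v) X))
    (prod : ∀ (I : Type) [Fintype I] (z : I → R4) (B : I → ℝ) (X : I → P), (∀ i, G (z i) (B i) (X i)) →
      Tm z g H → ‖S (∏ i, X i)‖ ≤ K ^ Fintype.card I * ∏ i, B i)
    {z : I → R4} {B : I → ℝ} {X : I → P} (hG : ∀ i, G (z i) (B i) (X i)) (hz : Tm z g H)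
    (z3 : ∀ i l, H ≤ z i l ∧ z i l ≤ w - H) :
    N.QB S (∏ i, X i) (2 * w) (K ^ Fintype.card I * ∏ i, B i) := by
  let v : Z4 → R4 := fun a => pz w fun l => if Even (a l) then a l else a l + 1
  let Z : Z4 → I → R4 := fun a i => tw Pur.rf (fun l => Even (a l)) (z i) + v a
  have e1 : ∀ μ b {z B X}, G z B X → G (pw (Pur.rf μ) b z) B (pw (N.Θ μ) b X) := fun μ b z B X a => by
    cases b
    exacts [refl μ a, a]
  have e2 : ∀ μ b (X : I → P), pw (N.Θ μ) b (∏ i, X i) = ∏ i, pw (N.Θ μ) b (X i) :=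
    fun μ b X => by cases b <;> simp [pw]
  have d1 : ∀ a i, G (Z a i) (B i) (N.τ (v a) (tw (fun μ => N.Θ μ) (fun l => Even (a l)) (X i))) :=
    fun a i => tau _ (e1 _ _ (e1 _ _ (e1 _ _ (e1 _ _ (hG i)))))
  have e3 : ∀ a, N.τ (v a) (tw (fun μ => N.Θ μ) (fun l => Even (a l)) (∏ i, X i)) =
      ∏ i, N.τ (v a) (tw (fun μ => N.Θ μ) (fun l => Even (a l)) (X i)) := fun a => by
    simp only [tw, e2, map_prod]
  have d2 : ∀ a i l, a l * w + H ≤ Z a i l ∧ Z a i l ≤ (a l + 1) * w - H := fun a i l => by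
    by_cases e : Even (a l) <;> simp only [Z, v, pz, PiLp.add_apply, tw_rf, e, if_true, if_false,
      decide_true, decide_false, cond_true, cond_false] <;> push_cast <;>
        constructor <;> linarith [(z3 i l).1, (z3 i l).2]
  have d3 : ∀ a a' i j l, a l = a' l → |Z a i l - Z a' j l| = |z i l - z j l| :=
    fun a a' i j l e => by
      by_cases e' : Even (a l) <;> simp [Z, v, pz, tw_rf, ← e, e', abs_sub_comm, neg_add_eq_sub]
  have d4 : ∀ a a' i j l, a l ≠ a' l → H ≤ |Z a i l - Z a' j l| := fun a a' i j l e => by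
    have e1 := d2 a i l
    have e2 := d2 a' j l
    rw [le_abs]
    rcases lt_or_gt_of_ne e with u | u
    · have : (a l + 1 : ℝ) ≤ a' l := by exact_mod_cast u
      exact .inr (by nlinarith [e1.2, e2.1])
    · have : (a' l + 1 : ℝ) ≤ a l := by exact_mod_cast u
      exact .inl (by nlinarith [e1.1, e2.2])
  have d5 : Tm (fun q : Z4 × I => Z q.1 q.2) g H := ⟨fun q q' l => by
      by_cases u : q.1 l = q'.1 l
      exacts [d3 _ _ _ _ _ u ▸ hz.1 _ _ l, .inr (d4 _ _ _ _ l u)], fun q q' e => by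
    by_cases u : q.1 = q'.1
    · exact (hz.2 _ _ fun v => e (Prod.ext u v)).imp fun l v => by rwa [d3 _ _ _ _ _ (congrFun u l)]
    · exact (Function.ne_iff.1 u).imp fun l => d4 _ _ _ _ l⟩
  have := Net.qb_of_arr hS w0 (η := K ^ Fintype.card I * ∏ i, B i)
    (mul_nonneg (pow_nonneg K0 _) (Finset.prod_nonneg fun i _ => pos (hG i)))
    (fun a => N.τ (v a) (tw (fun μ => N.Θ μ) (fun l => Even (a l)) (∏ i, X i))) (fun a => ?_)
    (fun μ a => ?_) (fun μ a => ?_) fun lo hi => ?_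
  · simpa [v, pz, tw, pw, show (WithLp.toLp 2 fun _ => 0 : R4) = 0 from rfl, N.τ_zero] using this
  · rw [e3]
    refine tm_mem (g := g) ⟨fun i j => d5.1 (a, i) (a, j), fun i j u => d5.2 (a, i) (a, j) (by simpa)⟩ h
      (fun i => loc (d1 a i)) fun i y hy l => ?_
    have := abs_le.1 (hy l)
    constructor <;> linarith [this.1, this.2, (d2 a i l).1, (d2 a i l).2]
  · rw [N.Θ_τ, θ_tw (θ := fun μ => N.Θ μ) ⟨N.Θ_Θ, N.Θ_comm⟩]
    congr 2
    · ext l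
      by_cases e : l = μ
      · by_cases e' : Even (a μ) <;> simp [v, pz, e, e', ← Int.not_even_iff_odd, Int.even_sub_one] <;> ring
      · simp [v, pz, e, rf_ne]
    · funext l
      by_cases e : l = μ <;> simp [e, ← Int.not_even_iff_odd, Int.even_sub_one]
  · rw [N.τ_τ]
    congr 2
    · ext l
      by_cases e : l = μ
      · by_cases e' : Even (a μ) <;> simp [v, pz, e, e', Int.even_add] <;> ring
      · simp [v, pz, e]
    · funext l
      by_cases e : l = μ <;> simp [e, Int.even_add]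
  · simp only [e3]
    rw [← Finset.prod_coe_sort, ← Fintype.prod_prod_type']
    refine (prod (cells lo hi × I) (fun q => Z q.1 q.2) (fun q => B q.2) _ (fun j => d1 _ _)
      ⟨fun q q' => d5.1 (q.1, q.2) (q'.1, q'.2), fun q q' u => d5.2 (q.1, q.2) (q'.1, q'.2) fun v =>
        u (Prod.ext (Subtype.ext (Prod.ext_iff.1 v).1) (Prod.ext_iff.1 v).2)⟩).trans_eq ?_
    rw [Fintype.prod_prod_type, Fintype.card_prod, mul_comm _ (Fintype.card I), pow_mul, mul_pow]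
    simp

end

variable [MeasurableSpace SU2] [BorelSpace SU2] {h : Measure SU2} [h.IsHaarMeasure]
  [IsProbabilityMeasure h] {β V : Type} {n : ℕ × ℕ → ℕ} [∀ p, NeZero (n p)] {a b : ℕ × ℕ → ℝ}
  {O : ℕ × ℕ → V → Fz → ℝ} {θ : Fin 4 → V → V} {i1 i2} {U : Ultrafilter (ℕ × ℕ)}
  {S : PolL V →ₗ[ℂ] ℂ} {Q : ℕ × ℕ → β → Fz → ℝ} {r : Fin 4 → β → β} {A : ℕ → Set β}
  {w : ℕ → β → ℝ} {ℓ C : ℝ}

theorem EF.ev (hE : EF h n a b Q r A w ℓ C) (hF : Fm n a b) : ∀ᶠ p in fast,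
    (∃ lam : ℕ, a p * lam = ℓ) ∧ (∀ c ∈ A p.2, 0 ≤ w p.2 c) ∧ ∀ μ, ∀ c ∈ A p.2, r μ c ∈ A p.2 ∧
      w p.2 (r μ c) = w p.2 c ∧ ∀ U, Q p (r μ c) U = Q p c (rz μ U) :=
  ev_fast.2 (hE.mono fun _ ⟨lam, e, E⟩ =>
    let ⟨_, k⟩ := E.lt
    k.mono fun _ k => ⟨⟨lam, hF.aJ _ ▸ e⟩, fun c hc => (E.pos c hc).le, fun μ c hc =>
      ⟨(E.cl μ c hc).1, (E.cl μ c hc).2.2, k.rf μ c hc⟩⟩)

/-- the product bound in the limit -/
theorem LimL.prod (L : LimL h n a b O (netL (θ := θ) i1 i2) U S) (hF : Fm n a b)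
    (hE : EF h n a b Q r A w ℓ C) (C0 : 0 ≤ C) {g H ρ : ℝ} (g0 : 0 ≤ g) (ρ0 : 0 ≤ ρ)
    (h1 : 10 * (g + 2 * ρ) < 9 * ℓ) (h2 : 7 * ℓ + 2 * ρ < H) {I : Type} [Fintype I] {E : I → PolL V}
    {z : I → R4} {η : I → ℝ} (hz : Tm z g H) (e1 : ∏ i, E i ∈ (netL (θ := θ) i1 i2).loc univ)
    (e2 : ∀ i, ∀ᶠ p in U,
      Cb (Q p) (A p.2) (w p.2) (a p) (z i) ρ (η i) fun W => ev (a p) (O p) W (E i)) :
    ‖S (∏ i, E i)‖ ≤ exp (256 * C) ^ Fintype.card I * ∏ i, η i := by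
  obtain ⟨R, hR⟩ := (finite_range fun q : I × Fin 4 => |z q.1 q.2|).bddAbove
  refine ge_of_tendsto (f := fun ε => exp (ε + 256 * C * Fintype.card I) * ∏ i, η i) (x := 𝓝[>] 0)
    (tendsto_nhdsWithin_of_tendsto_nhds (Continuous.tendsto' (by fun_prop) _ _
      (by rw [zero_add, mul_comm _ (Fintype.card I : ℝ), exp_nat_mul])))
    (eventually_mem_nhdsWithin.mono fun ε ε0 => le_of_tendsto (L.cv _ e1).norm ?_)
  filter_upwards [L.le (lb hF hE C0 g0 ρ0 h1 h2 I R ε0), eventually_all.2 e2] with p q1 q2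
  simpa only [map_prod] using q1 z η _ hz (fun i l => hR ⟨(i, l), rfl⟩) q2

end Pool.Agent.Lib.MP_7f377f_mp.Wy
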