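import Pool.Agent.Lib.MP_7f377f_mp.G.WyN
import Pool.Agent.Lib.MP_7f377f_mp.G.WxE
import Pool.Agent.Lib.MP_7f377f_mp.G.ZgD

/-! The action density and the limit along a sequence. -/

noncomputable section

namespace Pool.Agent.Lib.MP_7f377f_mp.Wy
variable [Pool.Agent.Lib.MP_7f377f_mp.GD]
set_option linter.unusedSectionVars false

open MeasureTheory Filter Topology Set Real YM7 Weak L6 MvPolynomial Wv ComplexConjugate Function
open Wu (Z4)

variable [MeasurableSpace SU2] [BorelSpace SU2] {h : Measure SU2} [h.IsHaarMeasure]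
  [IsProbabilityMeasure h] {β V : Type}

theorem far_coord {x y : R4} {δ : ℝ} (e : 2 * δ ≤ dist x y) : ∃ l, δ ≤ |x l - y l| := by
  by_contra! u
  have d0 : 0 < δ := (abs_nonneg _).trans_lt (u 0)
  rw [EuclideanSpace.dist_eq, le_sqrt' (by positivity), Fin.sum_univ_four] at e
  have := fun l => pow_lt_pow_left₀ (u l) (abs_nonneg _) two_ne_zero
  simp only [Real.dist_eq] at e
  linarith [this 0, this 1, this 2, this 3]

section fixed

variable {n : ℕ} [NeZero n] {a b : ℝ} {I J : Type} [Fintype I] [DecidableEq I]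

theorem sm_sum (a0 : 0 < a) {f : R4 → ℝ} (hf : HasCompactSupport f) (s : Finset J) (t : J → ℝ)
    (Q : J → Fz → ℝ) (U : Fz) :
    sm a (fun W => ∑ z ∈ s, t z * Q z W) f U = ∑ z ∈ s, t z * sm a (Q z) f U := by
  simp only [sm_eq fun y hy => (fin_supp a0 hf).mem_toFinset.2 hy, Finset.mul_sum]
  rw [Finset.sum_comm]
  exact Finset.sum_congr rfl fun _ _ => Finset.sum_congr rfl fun _ _ => by ring

/-- expectations of products of sums -/
theorem ex_exp (s : I → Finset J) {F : I → J → Fz → ℝ} (hF : ∀ i z, Continuous (F i z))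
    (w : I → J → ℝ) : ex h b n (fun U => ∏ i, ((∑ z ∈ s i, w i z * F i z U : ℝ) : ℂ)) =
      ∑ z ∈ Fintype.piFinset s, (∏ i, w i (z i) : ℝ) *
        ex h b n fun U => ∏ i, (F i (z i) U : ℂ) := by
  simp only [Complex.ofReal_sum, Complex.ofReal_mul, Finset.prod_univ_sum, Finset.prod_mul_distrib,
    Complex.ofReal_prod]
  rw [ex_sum _ fun z _ => by fun_prop]
  simp only [ex_mul]

/-- smeared words from a bound at separated points -/
theorem word_le (a0 : 0 < a) (a1 : a ≤ 1) {O : I → Fz → ℝ} (hO : ∀ i, Continuous (O i))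
    {g : I → R4 → ℝ} {t : I → ℝ} {R δ ε : ℝ} (R0 : 0 ≤ R) (e0 : 0 ≤ ε)
    (hg : ∀ i y, |g i y| ≤ t i ∧ (g i y ≠ 0 → ∀ l, |y l| ≤ R))
    (hs : ∀ i j, i ≠ j → ∀ x y, g i x ≠ 0 → g j y ≠ 0 → 2 * δ ≤ dist x y)
    (H : ∀ y : I → Z4, (∀ i l, |a * y i l| ≤ R) →
      (∀ i j, i ≠ j → ∃ l, δ ≤ |a * y i l - a * y j l|) →
      ‖ex h b n fun U => ∏ i, (O i (tz (y i) U) : ℂ)‖ ≤ ε) :
    ‖ex h b n fun W => ∏ i, (sm a (O i) (g i) W : ℂ)‖ ≤ ε * ∏ i, (2 * R + 1) ^ 4 * t i := by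
  obtain ⟨s, s1, s2⟩ := exists_box a0 0 R0
  simp only [PiLp.zero_apply, sub_zero] at s1
  have t0 : ∀ i, 0 ≤ t i := fun i => (abs_nonneg _).trans (hg i 0).1
  have p0 : 0 ≤ ∏ i, a ^ 4 * t i := Finset.prod_nonneg fun i _ => mul_nonneg (by positivity) (t0 i)
  simp only [fun i => sm_eq (fun y hy => (s1 y).2 ((hg i _).2 hy)) (O i)]
  rw [ex_exp (fun _ => s) (F := fun i y W => O i (tz y W)) (by fun_prop)]
  calc _ ≤ ∑ z ∈ Fintype.piFinset fun _ : I => s, (∏ i, a ^ 4 * t i) * ε :=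
        norm_sum_le_of_le _ fun z hz => ?_
    _ = ε * ∏ i, a ^ 4 * s.card * t i := by
        simp only [Finset.sum_const, Fintype.card_piFinset, Finset.prod_mul_distrib, nsmul_eq_mul,
          Nat.cast_prod]
        ring
    _ ≤ _ := mul_le_mul_of_nonneg_left (Finset.prod_le_prod
        (fun i _ => mul_nonneg (by positivity) (t0 i)) fun i _ => mul_le_mul_of_nonneg_right
          (s2.trans (by gcongr)) (t0 i)) e0
  by_cases u : ∀ i, g i (pz a (z i)) ≠ 0
  · refine norm_mul_le_of_le ?_ (H z (fun i => (s1 _).1 (Fintype.mem_piFinset.1 hz i))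
      fun i j e => far_coord (hs i j e _ _ (u i) (u j)))
    rw [Complex.norm_real, Real.norm_eq_abs, Finset.abs_prod]
    refine Finset.prod_le_prod (fun _ _ => abs_nonneg _) fun i _ => ?_
    rw [abs_mul, abs_of_pos (pow_pos a0 4)]
    exact mul_le_mul_of_nonneg_left (hg i _).1 (by positivity)
  · obtain ⟨i, hi⟩ := not_forall.1 u
    rw [Finset.prod_eq_zero (Finset.mem_univ i) (by rw [not_not.1 hi, mul_zero]),
      Complex.ofReal_zero, zero_mul, norm_zero]
    exact mul_nonneg p0 e0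

theorem dz_sh (W : Cfg n) (z : Fin 4 → ZMod n) : Zg.dz (YZ.sh W z) = dens W z := by
  have e : ∀ j, (fun i => z i + ((Pi.single j 1 : Fin 4 → ℤ) i : ℤ)) = z + Pi.single j 1 :=
    fun j => funext fun l => by by_cases hl : l = j <;> simp [hl]
  simp only [Zg.dz, YZ.sh, dens, e, Pi.zero_apply, Int.cast_zero, add_zero]

theorem dens_cont (z : Fin 4 → ZMod n) : Continuous fun W : Cfg n => dens W z :=
  continuous_finsetSum _ fun i _ => continuous_finsetSum _ fun j _ => by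
    split_ifs
    exacts [continuous_pe z i j, continuous_const]

theorem int_dens (z : Fin 4 → ZMod n) :
    ∫ W, dens W z ∂wilson h b n = ∫ W, dens W 0 ∂wilson h b n := by
  conv_rhs => rw [← (mp_shift' h b z).map_eq]
  rw [integral_map (mp_shift' h b z).measurable.aemeasurable
    (dens_cont 0).aestronglyMeasurable]
  simp only [dens, shift, zero_add, add_comm z]

theorem fld_dz (a0 : a ≠ 0) (f : R4 → ℝ) (W : Cfg n) :
    Zg.fld a (fun W => (Zg.dz W - ∫ W', dens W' 0 ∂wilson h b n) / a ^ 4) f W =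
      field a f W - ∫ V, field a f V ∂wilson h b n := by
  simp only [Zg.fld, field, dz_sh]
  rw [integral_finsetSum _ fun z _ => cint _ (by have := dens_cont z; fun_prop),
    ← Finset.sum_sub_distrib]
  refine Finset.sum_congr rfl fun z _ => ?_
  rw [integral_const_mul, int_dens z]
  field_simp

end fixed

variable {n : ℕ × ℕ → ℕ} [∀ p, NeZero (n p)] {a b : ℕ × ℕ → ℝ}
  {O : ℕ × ℕ → V → Fz → ℝ} {θ : Fin 4 → V → V} {U : Ultrafilter (ℕ × ℕ)}
  {S : PolL V →ₗ[ℂ] ℂ}

theorem Fm.a01 (hF : Fm n a b) : ∀ᶠ p in fast, 0 < a p ∧ a p ≤ 1 :=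
  hF.a0.eventually (Ioc_mem_nhdsGT zero_lt_one)

theorem Fm.avol (hF : Fm n a b) : Tendsto (fun p => a p * n p) fast atTop :=
  tendsto_atTop.2 fun R => ev_fast.2 ((ev_fast.1 hF.a01).mono fun J hJ => by
    simp only [hF.aJ (_, J)] at hJ ⊢
    exact (((tendsto_natCast_atTop_atTop.comp (hF.vol J)).const_mul_atTop
      hJ.exists.choose_spec.1).eventually_ge_atTop R).filter_mono hyp_le)

theorem sm_fld {n : ℕ} [NeZero n] {a R : ℝ} (a0 : 0 < a) (hR : 2 * R < a * n) (O : Fz → ℝ)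
    {f : R4 → ℝ} (hf : ∀ y, f y ≠ 0 → ∀ l, |y l| ≤ R) (W : Cfg n) :
    Zg.fld a O f W = sm a O f (lf W) := by
  rw [sm_eq (s := Finset.univ.image fun (z : Fin 4 → ZMod n) l => (z l).valMinAbs) fun y hy =>
    Finset.mem_image.2 ⟨fun l => y l, Finset.mem_univ _, funext fun l => ?_⟩,
    Finset.sum_image fun z _ z' _ e => _root_.funext fun l => ZMod.injective_valMinAbs (congrFun e l)]
  · refine Finset.sum_congr rfl fun z _ => congrArg₂ _ rfl (congrArg O (funext fun l => ?_))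
    simp [YZ.sh, tz, lf]
  · have := hf _ hy l
    simp only [pz, abs_mul, abs_of_pos a0] at this
    have : |(y l : ℝ)| * 2 < n := lt_of_mul_lt_mul_left (by linarith) a0.le
    have : |y l| * 2 < n := by exact_mod_cast this
    exact vma_cast (by linarith [neg_abs_le (y l)]) (by linarith [le_abs_self (y l)])

/-- the limit of the action density -/
theorem LimL.old {h1 h2} (L : LimL h n a b O (netL (θ := θ) h1 h2) U S) (hF : Fm n a b) {φ : V}
    (e : ∀ᶠ p in U, ∀ W,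
      O p φ W = (Zg.dz W - ∫ W', dens W' 0 ∂wilson h (b p) (n p)) / a p ^ 4)
    {S₀ : ∀ {k : ℕ}, (Fin k → R4 → ℝ) → ℝ} {S' : Pur.Pol →ₗ[ℂ] ℂ} (H : Lim h fast n a b U S₀ S') :
    ∃ T : PolL V →ₗ[ℂ] ℂ, (∀ Z ∈ (netL (θ := θ) h1 h2).loc univ, T Z = S Z) ∧
      T ∘ₗ (aeval (xL φ) : Pur.Pol →ₐ[ℂ] PolL V).toLinearMap = S' := by
  classical
  have k : ∀ {k} {f : Fin k → R4 → ℝ}, Adm f → S' (Pur.mon f) = S (∏ i, xL φ (f i)) :=
    fun {k f} hf => by
      obtain ⟨D, -, h1, -⟩ := hf.data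
      rw [H.lift hf]
      refine tendsto_nhds_unique (((Complex.continuous_ofReal.tendsto _).comp (H.cv hf)).congr' ?_)
        (L.word (fun _ => φ) hf)
      filter_upwards [e, L.le hF.a01, L.le (hF.avol.eventually_gt_atTop (2 * D))] with p e1 e2 e3
      simp only [comp, corr, ← Complex.ofReal_prod, ex_real, ← sm_fld e2.1 e3 _ (cube_of (h1 _)),
        funext e1, fld_dz e2.1.ne']
  obtain ⟨κ, hκ⟩ : ∃ κ : PolL V →ₐ[ℂ] Pur.Pol, ∀ c f, κ (xL c f) = if c = φ then X f else 0 :=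
    ⟨aeval fun q => if q.1 = φ then X q.2 else 0, fun _ _ => aeval_X _ _⟩
  have e0 : ∀ f, (aeval (xL φ) : Pur.Pol →ₐ[ℂ] PolL V) (X f) = xL φ f := aeval_X _
  generalize (aeval (xL φ) : Pur.Pol →ₐ[ℂ] PolL V) = ι at e0 ⊢
  have e1 : ∀ Z, κ (ι Z) = Z := AlgHom.congr_fun (φ₁ := κ.comp ι) (φ₂ := AlgHom.id ℂ _)
    (algHom_ext fun f => by simp [hκ, e0])
  refine ⟨S + (S' - S ∘ₗ ι.toLinearMap) ∘ₗ κ.toLinearMap, fun Z hZ => ?_,
    LinearMap.ext fun Z => by simp [e1]⟩
  obtain ⟨m, t, _, c, f, f1, -, rfl⟩ := Wx.exists_sum (gen_L _ _) hZ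
  simp only [map_sum, map_smul]
  refine Finset.sum_congr rfl fun j _ => congrArg _ ?_
  by_cases u : ∀ i, c j i = φ
  · simpa [hκ, e0, u, sub_eq_zero, Pur.mon] using k (f1 j)
  · obtain ⟨i, hi⟩ := not_forall.1 u
    have : κ (∏ i, xL (c j i) (f j i)) = 0 := by
      rw [map_prod]
      exact Finset.prod_eq_zero (Finset.mem_univ i) (by rw [hκ, if_neg hi])
    simp [-map_prod, this]

/-- equicontinuity -/
theorem PB.equi (hB : PB h n a b O) (hF : Fm n a b) (hc : ∀ p c, Continuous (O p c))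
    (I : ℕ × ℕ × ℕ) (c : Fin I.1 → V) : ∃ C ρ : ℝ, 0 < ρ ∧ ∀ᶠ p in fast, ∀ f g : Cls I,
      dist (jet I f) (jet I g) ≤ ρ →
      ‖ex h (b p) (n p) (fun W => ∏ i, (sm (a p) (O p (c i)) (f.1 i) W : ℂ)) -
        ex h (b p) (n p) fun W => ∏ i, (sm (a p) (O p (c i)) (g.1 i) W : ℂ)‖ ≤
        C * dist (jet I f) (jet I g) := by
  obtain ⟨k, D, q⟩ := I
  have δ0 : 0 < 1 / (q + 1 : ℝ) := by positivity
  have δ1 : 1 / (q + 1 : ℝ) ≤ 1 := by
    rw [div_le_one (by positivity)]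
    linarith [q.cast_nonneg (α := ℝ)]
  have D0 : (0 : ℝ) ≤ D := D.cast_nonneg
  obtain ⟨C, hC⟩ := hB k c (1 / (q + 1 : ℝ) / 4) (by positivity)
  refine ⟨(Finset.univ.erase fun _ : Fin k => false).card * (max C 0 *
    ∏ _ : Fin k, (2 * D + 1 : ℝ) ^ 4 * (D + 1)), 1 / (q + 1 : ℝ) / 8, by positivity, ?_⟩
  filter_upwards [hC D, hF.a01] with p h1 ⟨a0, a1⟩ f g hρ
  have hj : ∀ i y, dist (jet _ f i y) (jet _ g i y) ≤ dist (jet _ f) (jet _ g) := fun i y =>
    (ContinuousMap.dist_apply_le_dist y).trans (dist_le_pi_dist (jet _ f) (jet _ g) i)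
  have ε0 : 0 ≤ dist (jet _ f) (jet _ g) := dist_nonneg
  generalize dist (jet _ f) (jet _ g) = ε at hj hρ ε0
  obtain ⟨f, f1, f2, f3, f4, f5⟩ := f
  obtain ⟨g, g1, g2, g3, g4, g5⟩ := g
  simp only [jet, ContinuousMap.coe_mk, Prod.dist_eq, max_le_iff, Subtype.forall,
    mem_closedBall_zero_iff] at hj
  have h3 : ∀ i y, |f i y - g i y| ≤ ε := fun i y => by
    by_cases hy : ‖y‖ ≤ D
    · exact (hj i y hy).1
    · rwa [image_eq_zero_of_notMem_tsupport fun e => hy (f3 i y e),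
        image_eq_zero_of_notMem_tsupport fun e => hy (g3 i y e), sub_zero, abs_zero]
  have h4 : ∀ (z : Bool) i y, (bif z then f i - g i else g i) y ≠ 0 →
      ‖y‖ ≤ D ∧ ∃ x ∈ tsupport (g i), dist y x ≤ 1 / (q + 1 : ℝ) / 4 := fun z i y hy => by
    by_cases u : g i y = 0
    · have h5 : y ∈ tsupport (f i) := subset_tsupport _ fun e => hy (by cases z <;> simp [u, e])
      have h6 := (hj i _ (f3 i _ h5)).2.1
      rw [Metric.infDist_zero_of_mem h5, dist_zero_left] at h6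
      obtain ⟨x, hx, h7⟩ := (Metric.infDist_lt_iff (g2 i)).1
        (((le_abs_self _).trans h6).trans_lt (by linarith : ε < 1 / (q + 1 : ℝ) / 4))
      exact ⟨f3 i y h5, x, hx, h7.le⟩
    · exact ⟨g3 i y (subset_tsupport _ u), y, subset_tsupport _ u,
        (dist_self _).trans_le (by positivity)⟩
  have h5 : ∀ (z : Bool) i, HasCompactSupport (bif z then f i - g i else g i) := fun z i => by
    cases z
    exacts [(g1.1 i).1, (f1.1 i).1.sub (g1.1 i).1]
  have h6 : ∀ i W, sm (a p) (O p (c i)) (f i) W =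
      ∑ z : Bool, 1 * sm (a p) (O p (c i)) (bif z then f i - g i else g i) W := fun i W => by
    have := sm_add (t := 1) (O := O p (c i)) (U := W) a0 (h5 false i) (h5 true i)
    simpa [add_comm] using this
  simp only [h6]
  rw [ex_exp _ fun i z => sm_cont a0 (h5 z i) (hc _ _), Fintype.piFinset_univ,
    ← Finset.add_sum_erase _ _ (Finset.mem_univ fun _ => false)]
  simp only [Finset.prod_const_one, Complex.ofReal_one, one_mul, cond_false, add_sub_cancel_left]
  rw [mul_assoc, ← nsmul_eq_mul]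
  refine (norm_sum_le _ _).trans (Finset.sum_le_card_nsmul _ _ _ fun z hz => ?_)
  obtain ⟨j, hj'⟩ := ne_iff.1 (Finset.ne_of_mem_erase hz)
  refine (word_le a0 a1 (fun i => hc _ _) (t := fun i => (D + 1) * if i = j then ε else 1) D0
    (le_max_right C 0) (fun i y => ⟨?_, fun e l => (PiLp.norm_apply_le y l).trans (h4 _ i y e).1⟩)
    (fun i l e x y hx hy => ?_) fun y e1 e2 => (h1 y e1 e2).trans (le_max_left _ _)).trans_eq ?_
  · have := h3 i y
    have := (g4 i).2 y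
    split_ifs with e
    · rw [e, eq_true_of_ne_false hj', cond_true, Pi.sub_apply]
      nlinarith [h3 j y]
    · cases z i <;> simp only [cond_true, cond_false, Pi.sub_apply] <;> linarith
  · obtain ⟨-, x', x1, x2⟩ := h4 _ i x hx
    obtain ⟨-, y', y1, y2⟩ := h4 _ l y hy
    have := g5 i l e x' x1 y' y1
    linarith [dist_triangle4 x' x y y', dist_comm x x']
  · simp only [← mul_assoc, Finset.prod_mul_distrib, Finset.prod_ite_eq', Finset.mem_univ, if_true]

/-- the limit along a sequence -/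
theorem LimL.lat {V : Type} [NormedAddCommGroup V] [NormedSpace ℝ V] {θ : Fin 4 → V → V}
    {h1 h2} {O : ℕ × ℕ → V →ₗ[ℝ] Fz → ℝ} {S : PolL V →ₗ[ℂ] ℂ}
    (L : LimL h n a b (fun p c => O p c) (netL (θ := θ) h1 h2) U S) (hF : Fm n a b)
    (hB : PB h n a b fun p c => O p c) {A : Set V} (hA : A.Countable)
    (hA' : Submodule.span ℝ A = ⊤)
    (cpl : Tendsto (fun p => b p / log (a p)⁻¹) fast (𝓝 (11 * GD.b0 / (48 * π ^ 2))))
    (obs : ∀ c, ∃ R, ∀ p, YZ.Obs R fun W => (O p c W : ℂ)) {φ : V}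
    (ph : ∀ᶠ p in U, ∃ m : ℝ, O p φ = fun W => (Zg.dz W - m) / a p ^ 4) :
    ∃ n' a' b' O', Zg.Lat xL S h φ n' a' b' O' := by
  haveI := hA.to_subtype
  have hc : ∀ p c, Continuous (O p c) := fun p c =>
    Complex.continuous_re.comp ((obs c).choose_spec p).1
  obtain ⟨p, hp, hq⟩ := exists_seq (U : Filter (ℕ × ℕ)) (I := Σ I : ℕ × ℕ × ℕ, Fin I.1 → A)
    (X := fun i => Cls i.1) (fun i => jet i.1) (fun p i f =>
      (ex h (b p) (n p) fun W => ∏ l, (sm (a p) (O p (i.2 l)) (f.1 l) W : ℂ)).re)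
    (fun i f => (S (∏ l, xL (i.2 l : V) (f.1 l))).re)
    (fun i f => (Complex.continuous_re.tendsto _).comp (L.word _ f.2.1))
    (fun i => (hB.equi hF hc i.1 fun l => i.2 l).imp fun _ => Exists.imp fun _ e =>
      ⟨e.1, (e.2.filter_mono L.le).mono fun p e f g d =>
        (Complex.abs_re_le_norm (_ - _)).trans (e f g d)⟩)
    (𝓟 _ ⊓ (comap a (𝓝[>] 0) ⊓ (comap (fun p => a p * n p) atTop ⊓
      comap (fun p => b p / log (a p)⁻¹) (𝓝 (11 * GD.b0 / (48 * π ^ 2))))))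
    (le_inf (le_principal_iff.2 ph)
      (L.le.trans (le_inf hF.a0.le_comap (le_inf hF.avol.le_comap cpl.le_comap))))
  obtain ⟨j₀, ph⟩ := eventually_atTop.1 (tendsto_principal.1 (tendsto_inf.1 hp).1)
  replace ph := fun j => ph (j + j₀) le_add_self
  replace hp := (tendsto_inf.1 hp).2.comp (tendsto_add_atTop_nat j₀)
  replace hq := fun i x => (hq i x).comp (tendsto_add_atTop_nat j₀)
  obtain ⟨p, e⟩ : ∃ q : ℕ → ℕ × ℕ, ∀ j, p (j + j₀) = q j := ⟨_, fun _ => rfl⟩
  simp only [tendsto_inf, tendsto_comap_iff, comp_def, e] at hp hq ph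
  refine ⟨fun j => ⟨n (p j), NeZero.pos _⟩, a ∘ p, b ∘ p, O ∘ p, hp.1, hp.2.1, hp.2.2,
    fun c => (obs c).imp fun R e j => e _, fun j => ph _, fun k c f hf => ?_⟩
  obtain ⟨D, q, h1⟩ := hf.data
  have A1 : ∀ c : Fin k → A, Tendsto (fun j => ex h (b (p j)) (n (p j)) fun W =>
      ∏ l, (sm (a (p j)) (O (p j) (c l)) (f l) W : ℂ)) atTop (𝓝 (S (∏ l, xL (c l : V) (f l)))) :=
    fun c => by
      by_cases h0 : ∀ i, (tsupport (f i)).Nonempty
      · have := (Complex.continuous_ofReal.tendsto _).comp (hq ⟨(k, D, q), c⟩ ⟨f, hf, h0, h1⟩)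
        rw [Complex.conj_eq_iff_re.1 (Complex.conj_eq_iff_im.2 (L.real _ hf))] at this
        simpa only [comp_def, ← Complex.ofReal_prod, ex_real, Complex.ofReal_re] using this
      · obtain ⟨i, hi⟩ := not_forall.1 h0
        rw [not_nonempty_iff_eq_empty, tsupport_eq_empty_iff] at hi
        have e : ∀ p, (ex h (b p) (n p) fun W =>
            ∏ l, (sm (a p) (O p (c l)) (f l) W : ℂ)) = 0 := fun p => by
          rw [← ex_const (h := h) (b := b p) (n := n p) 0]
          exact congrArg _ (funext fun W =>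
            Finset.prod_eq_zero (Finset.mem_univ i) (by simp [sm, hi]))
        have := L.word (fun l => (c l : V)) hf
        simp only [e] at this ⊢
        rw [tendsto_nhds_unique this tendsto_const_nhds]
        exact tendsto_const_nhds
  choose l hl using fun i => (Finsupp.mem_span_iff_linearCombination ℝ A (c i)).1
    (hA' ▸ Submodule.mem_top)
  have E : ∀ p, 0 < a p → ∑ z ∈ Fintype.piFinset fun i => (l i).support, (∏ i, l i (z i) : ℝ) *
      (ex h (b p) (n p) fun W => ∏ i, (sm (a p) (O p (z i)) (f i) W : ℂ)) =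
      ex h (b p) (n p) fun W => ∏ i, (sm (a p) (O p (c i)) (f i) W : ℂ) := fun p a0 => by
    rw [← ex_exp _ fun i (z : A) => sm_cont a0 (hf.1 i).1 (hc p z)]
    simp only [← sm_sum a0 (hf.1 _).1, ← hl, Finsupp.linearCombination_apply, Finsupp.sum, map_sum,
      map_smul, Finset.sum_fn, Pi.smul_apply, smul_eq_mul]
  rw [tendsto_nhds_unique (L.word c hf) ((tendsto_finsetSum _ fun z _ =>
    (L.word (fun i => (z i : V)) hf).const_mul _).congr'
      (Eventually.mono (L.le hF.a01) fun p e => E p e.1))]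
  refine (tendsto_finsetSum _ fun z _ => (A1 z).const_mul _).congr' ?_
  filter_upwards [hp.1.eventually self_mem_nhdsWithin, hp.2.1.eventually_gt_atTop (2 * D)]
    with j e1 e2
  rw [E _ e1]
  simp only [← Complex.ofReal_prod, ex_real,
    ← sm_fld (n := n (p j)) (a := a (p j)) e1 e2 _ (cube_of (h1.1 _))]
  rfl

end Pool.Agent.Lib.MP_7f377f_mp.Wy
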