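import Pool.Agent.Lib.MP_7f377f_mp.G.WzA1
import Pool.Agent.Lib.MP_7f377f_mp.G.WxM1
import Pool.Agent.Lib.MP_7f377f_mp.G.ZoB

/-! Riemann sums of clusters minus their images are good elements. -/

noncomputable section

namespace Pool.Agent.Lib.MP_7f377f_mp.Wx
variable [Pool.Agent.Lib.MP_7f377f_mp.GD]
set_option linter.unusedSectionVars false

open MeasureTheory Filter Topology Set YM7 Weak L6 Wy Sw Function Wv Wm Real
open Wu (Z4)

variable {V : Type} {k D : ℕ} [NormedAddCommGroup V] [NormedSpace ℝ V] {Φ : Fil V}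
  {u : Fin k → R4 → ℝ}

theorem box50 {f : R4 → ℝ} {z : R4} {g : ℝ} (g0 : 0 < g) (h : ∀ y, f y ≠ 0 → ∀ l, |y l - z l| ≤ g) :
    tsupport f ⊆ {y | ∀ l, |y l - z l| < 50 * g} := fun y hy l => by
  have := Pur.tsupp_box (lo := fun l => z l - g) (hi := fun l => z l + g) (fun y hy l =>
    (abs_sub_le_iff.1 (h y hy l)).symm.imp (by intro; linarith) (by intro; linarith)) hy l
  exact abs_lt.2 ⟨by linarith [this.1], by linarith [this.2]⟩

theorem unif (hu : Adm u) {τ : ℝ} (τ0 : 0 < τ) : ∀ᶠ δ in 𝓝[>] (0 : ℝ), ∀ v : R4, ‖v‖ ≤ δ →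
    ∀ y : Fin k → R4, |∏ i, u i (y i - v) - ∏ i, u i (y i - 0)| ≤ τ := by
  have : HasCompactSupport fun y : Fin k → R4 => ∏ i, u i (y i) :=
    .intro (isCompact_univ_pi fun i => (hu.1 i).1) fun y e => by
      obtain ⟨i, e⟩ := not_forall.1 (mem_univ_pi.not.1 e)
      exact Finset.prod_eq_zero (Finset.mem_univ i) (image_eq_zero_of_notMem_tsupport e)
  obtain ⟨δ, δ0, e⟩ := Metric.uniformContinuous_iff_le.1 (this.uniformContinuous_of_continuous
    (continuous_finsetProd _ fun i _ => (hu.1 i).2.continuous.comp (continuous_apply i))) τ τ0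
  filter_upwards [Ioc_mem_nhdsGT δ0] with r hr v hv y
  exact e ((dist_pi_le_iff δ0.le).2 fun i => by simpa using hv.trans hr.2)

variable [MeasurableSpace SU2] [BorelSpace SU2] {h : Measure SU2} [h.IsHaarMeasure]
  [IsProbabilityMeasure h] {n : ℕ × ℕ → ℕ} [∀ p, NeZero (n p)] {a b : ℕ × ℕ → ℝ}
  {U : Ultrafilter (ℕ × ℕ)} {O : ℕ × ℕ → V →ₗ[ℝ] Fz → ℝ} {θ : Fin 4 → V → V} {i1 i2}
  {S : PolL V →ₗ[ℂ] ℂ} {κ : ℝ} {c : ℝ → Fin k → V} {η : ℝ → ℝ}
  {m : ℝ → ℕ × ℕ → (Fin k → Z4) → V}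

theorem Em.mg (E : Em Φ h n a b U O c D κ η m)
    (L : LimL h n a b (fun p c => O p c) (netL (θ := θ) i1 i2) U S) (hF : Fm n a b)
    (hP : Pl (fun p c => O p c) θ) (hu : Adm u) (κ1 : 1 ≤ κ)
    (hκ : ∀ s > (0 : ℝ), ∀ (a : ℝ) (y : Fin k → Z4) (q : R4), (∀ l, |q l| ≤ s) →
      (∀ i, s⁻¹ • (pz a (y i) - q) ∈ tsupport (u i)) → Cf κ s a y)
    (η0 : ∀ᶠ s in 𝓝[>] 0, 0 ≤ η s) : ∃ m' : ℝ → V, (∀ s, m' s ∈ Φ.F D) ∧
      (∀ᶠ s in 𝓝[>] 0, Tendsto (fun p => av (a p) s u (m s p)) U (𝓝 (m' s))) ∧ ∀ ν : ℝ → ℝ,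
      MG (netL i1 i2) xL S (fun s => (ν s : ℂ) • ∏ i, xL (c s i) fun y => u i (s⁻¹ • y))
        (fun s => ν s • m' s) fun s => |ν s| * s ^ (4 * k) * η s := by
  obtain ⟨σ, hσ⟩ : ∃ σ, ∀ y : Fin k → R4, |∏ i, u i (y i)| ≤ σ :=
    let ⟨M, _, _, e, _⟩ := hu.data
    ⟨∏ _i, M, fun y => (Finset.abs_prod _ _).trans_le
      (Finset.prod_le_prod (fun _ _ => abs_nonneg _) fun i _ => (e i).2 _)⟩
  have σ0 := (abs_nonneg _).trans (hσ 0)
  have mem : ∀ s p, av (a p) s u (m s p) ∈ Φ.F D := fun s p => finsum_induction (· ∈ Φ.F D)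
    (zero_mem _) (fun _ _ => add_mem) fun y => Submodule.smul_mem _ _ (E.mem s p y)
  choose m' m1 m2 using fun s => show ∃ v ∈ Φ.F D, (∃ R, ∀ᶠ p in U, ‖av (a p) s u (m s p)‖ ≤ R) →
      Tendsto (fun p => av (a p) s u (m s p)) U (𝓝 v) by
    by_cases e : ∃ R, ∀ᶠ p in U, ‖av (a p) s u (m s p)‖ ≤ R
    · exact (Zo.exists_lim U (mem s) e.choose_spec).imp fun _ e => ⟨e.1, fun _ => e.2⟩
    · exact ⟨0, zero_mem _, fun e' => absurd e' e⟩
  have m3 : ∀ᶠ s in 𝓝[>] 0, Tendsto (fun p => av (a p) s u (m s p)) U (𝓝 (m' s)) := by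
    filter_upwards [E.bd, self_mem_nhdsWithin] with s ⟨B, hB⟩ s0
    refine m2 s ⟨(3 * κ * s) ^ (4 * k) * σ * |B|, ?_⟩
    filter_upwards [hB, L.le (hF.pos s0)] with p e a1
    exact av_le a1.1 a1.2 κ1 (abs_nonneg B) (fun y hy => hκ s s0 _ y 0 (by simpa using s0.le)
      (by simpa using hy)) hσ fun y hy => (e y hy).trans (le_abs_self B)
  refine ⟨m', m1, m3, fun ν H hH A hA => ?_⟩
  have G := gen_L (θ := θ) i1 i2
  suffices ∀ g ∈ Ioc (0 : ℝ) 1, ∀ᶠ w in atTop, ∀ᶠ s in 𝓝[>] (0 : ℝ), ∃ G,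
      (Gd (netL i1 i2) S g G ∧ ∀ c ∈ A, ∀ K, Gf G g K w (xL c)) ∧ ∀ K, IsCompact K → ∀ ε > 0,
        ∀ᶠ d in pf K, Gf G g K (w * (|ν s| * s ^ (4 * k) * η s) + ε) (fe (netL i1 i2) xL d
          ((ν s : ℂ) • ∏ i, xL (c s i) fun y => u i (s⁻¹ • y)) (ν s • m' s)) by
    obtain ⟨w, w0, e⟩ := ((eventually_ge_atTop 0).and ((eventually_all_finset H).2
      fun g hg => this g (hH g hg))).exists
    refine ⟨w, w0, ((eventually_all_finset H).2 e).mono fun s e => ?_⟩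
    choose! G g1 g2 using e
    exact ⟨G, g1, fun K hK ε ε0 => (eventually_all_finset H).2 fun g hg => g2 g hg K hK ε ε0⟩
  rintro g ⟨g0, g1⟩
  obtain ⟨e, e1, e2⟩ := exists_scale g0 g1
  obtain ⟨A₁, b1, C₁, b2, b3⟩ := exists_bas Φ D
  obtain ⟨C, M, C0, M0, hal⟩ := E.al (A ∪ A₁) (hA.union b1) e
  generalize (9 : ℝ) / 3 ^ e = ℓ at *
  have E0 := exp_pos (256 * C)
  filter_upwards [eventually_ge_atTop (81 * M * exp (256 * C)),
    eventually_ge_atTop (81 * M * exp (256 * C) * ((3 * κ) ^ (4 * k) * σ))] with w w1 w2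
  filter_upwards [hal, E.bd, η0, m3, loc_cl G hu g0, self_mem_nhdsWithin]
    with s ⟨β, Q, r, A', w', hE, hC⟩ ⟨B, hB⟩ η1 m4 lc (s0 : 0 < s)
  have w0 : 0 ≤ w := le_trans (by positivity) w1
  have p4 : ∀ {a}, 0 < a → a ≤ g / 10 → (2 * g + a) ^ 4 ≤ 81 := fun a0 a1 =>
    (pow_le_pow_left₀ (b := 3) (by positivity) (by linarith) 4).trans_eq (by norm_num)
  refine ⟨_, ⟨L.gd hF hP hE C0 g0 e1 e2, fun d hd K z f f1 _ f2 => ⟨w0, c1_mem G
    ⟨f1.1, f1.2.1, box50 g0 fun y => (f2 y).2⟩ d, fun v => ?_⟩⟩, fun K hK ε ε0 => ?_⟩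
  · filter_upwards [hC, L.le (hE.ev hF), L.le (hF.pos (show 0 < g / 10 by positivity))]
      with p ⟨q, _⟩ ⟨_, hw, _⟩ ⟨a0, a1⟩
    obtain ⟨T, t1, t2⟩ := cb_sm hw a0 (f := fun y => f (y - v)) (z := z + v) g0.le M0 (fun y =>
      ⟨(f2 _).1, fun e l => by simpa [sub_sub, add_comm] using (f2 _).2 e l⟩)
      fun x _ => q d (.inl hd)
    simp only [G.tau, ev_x, sm_eq (f := fun y => f (y - v)) t1, Complex.ofReal_sum, Complex.ofReal_mul (_ * _)]
    exact t2.mono (fun l => by simp; linarith) ((le_div_iff₀ E0).2 (le_trans (by gcongr; exact p4 a0 a1) w1))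
  obtain ⟨N, hN⟩ : ∃ N, N = (3 * κ * s) ^ (4 * k) := ⟨_, rfl⟩
  obtain ⟨τ, τ1, τ0⟩ := (((Continuous.tendsto' (f := fun τ : ℝ => |ν s| * (τ * (N * σ *
    (M * η s + C₁ * |B| * M)) + 81 * (N * τ * (M * η s + C₁ * |B| * M) + C₁ * τ * M))) (by fun_prop)
    0 0 (by simp)).eventually_le_const (div_pos ε0 E0)).filter_mono nhdsWithin_le_nhds).and
    (self_mem_nhdsWithin (s := Ioi 0)) |>.exists
  filter_upwards [pf_ev ((unif (hu.smul (inv_ne_zero s0.ne')) τ0).and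
    (Ioc_mem_nhdsGT (lt_min s0 (show 0 < g / 10 by positivity))))] with d ⟨⟨d1, d2, d3⟩, ok⟩
  rw [le_min_iff] at d3
  intro z f f1 _ f2
  have ht : ∀ i, ∫ y, f y * d.χ i y ≠ 0 → ∃ y, f y * d.χ i y ≠ 0 := fun i e => by
    by_contra! v
    simp [v] at e
  refine ⟨by positivity, sub_mem (Submodule.sum_mem _ fun i _ => ?_) (c1_mem G
    ⟨f1.1, f1.2.1, box50 g0 fun y => (f2 y).2⟩ _), fun v => ?_⟩
  · by_cases e : ∫ y, f y * d.χ i y = 0
    · simp [e]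
    obtain ⟨y, hy⟩ := ht i e
    refine Submodule.smul_mem _ _ ((netL i1 i2).mono ((netL i1 i2).τ_mem _
      (Submodule.smul_mem _ _ (lc _))) fun x hx l => ?_)
    have x1 := abs_le.1 ((f2 y).2 (left_ne_zero_of_mul hy) l)
    have x2 := abs_le.1 ((PiLp.dist_apply_le _ _ l).trans (ok.near i y (right_ne_zero_of_mul hy)))
    have x3 := abs_lt.1 ((PiLp.norm_apply_le _ l).trans_lt (mem_ball_zero_iff.1 hx))
    rw [PiLp.sub_apply] at x3
    exact abs_lt.2 ⟨by linarith [x1.1, x2.2, x3.1, d3.2], by linarith [x1.2, x2.1, x3.2, d3.2]⟩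
  have r1 := tendsto_finsetSum Finset.univ fun i _ => (((riemann (f := fun y => f (y - v) *
    d.χ i (y - v)) (f1.1.comp_homeomorph (.subRight v)).mul_right ((f1.2.1.continuous.mul
      (ok.cont i)).comp (continuous_sub_right v))).comp (hF.a0.mono_left L.le)).const_sub
        (∫ y, f y * d.χ i y)).abs
  have r2 : ∀ i, ∫ y, f (y - v) * d.χ i (y - v) = ∫ y, f y * d.χ i y := fun i =>
    integral_sub_right_eq_self (fun y => f y * d.χ i y) v
  simp only [r2, sub_self, abs_zero, Finset.sum_const_zero, comp_apply] at r1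
  filter_upwards [hC, hB, L.le (hE.ev hF), L.le (hF.pos (lt_min s0 (show 0 < g / 10 by positivity))),
    r1.eventually_le_const τ0, (tendsto_iff_norm_sub_tendsto_zero.1 m4).eventually_le_const τ0]
    with p ⟨q1, q2⟩ q3 ⟨_, hw, _⟩ ⟨a0, a1⟩ q4 q5
  rw [le_min_iff] at a1
  have q6 := b3 (O p) hw M0 fun d hd => q1 d (.inr hd)
  have := (cb_fe hw a0 a1.1 κ1 hu (hκ s s0 _) hσ d1 d3.1 (by positivity) (O p) (c s) q2
    (B := C₁ * |B| * M) (ε := C₁ * τ * M) (fun y hy => (q6 _ (E.mem s p y)).mono (by simp) (by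
      gcongr; exact (q3 y hy).trans (le_abs_self B)))
    ((q6 _ (sub_mem (mem s p) (m1 s))).mono (by simp) (by gcongr)) (f := fun y => f (y - v))
    (χ := fun i y => d.χ i (y - v)) (q := fun i => v + d.q i) (z := z + v)
    (fun i => ∫ y, f y * d.χ i y) g0.le d2.le (by positivity) (fun y =>
      ⟨(f2 _).1, fun e l => by simpa [sub_sub, add_comm] using (f2 _).2 e l⟩) (fun y => ok.le _)
    (fun y e => ok.one _ (f1.2.2 (subset_tsupport _ e))) (fun i y e => by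
      simpa [dist_eq_norm, sub_sub] using ok.near i _ e) fun i e => (ht i e).elim fun y hy =>
        ⟨y + v, by simpa using hy⟩).smul (ν s)
  have e3 : ∀ W, sm (a p) (ν s • O p (m' s)) (fun y => f (y - v)) W =
      ν s * sm (a p) (O p (m' s)) (fun y => f (y - v)) W := fun W => by
    simpa [Pi.smul_def, sm] using sm_lab (f := fun y => f (y - v)) (t := ν s) (O := O p (m' s))
      (O' := 0) (U := W) a0 (f1.1.comp_homeomorph (.subRight v))
  convert this.mono (z' := z + v) (ρ' := 3 * g / 2) (fun l => by simp; linarith [a1.2, d3.2])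
    (η' := (w * (|ν s| * s ^ (4 * k) * η s) + ε) / exp (256 * C)) ?_ using 2 with W
  · simp [-Complex.coe_smul, fe, (netL i1 i2).τ_τ, G.tau, ev_x, e3, mul_sub,
      Finset.mul_sum, mul_left_comm, sub_sub]
  · have := p4 a0 a1.2
    rw [add_div, Complex.norm_real, norm_eq_abs, ← hN]
    refine le_trans ?_ (add_le_add ((le_div_iff₀ E0).2 (le_trans (le_of_eq ?_)
      (mul_le_mul_of_nonneg_right w2 (by positivity)))) τ1 : |ν s| * (81 * (N * σ * (M * η s))) + _ ≤ _)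
    · rw [← mul_add]
      refine mul_le_mul_of_nonneg_left ((add_le_add (mul_le_mul_of_nonneg_right q4 ?_)
        (mul_le_mul_of_nonneg_right this ?_)).trans_eq (by ring)) (abs_nonneg _) <;>
        subst hN <;> positivity
    · rw [hN, mul_pow]
      ring

end Pool.Agent.Lib.MP_7f377f_mp.Wx
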