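import Pool.Agent.Lib.MP_7f377f_mp.G.WzE

/-! Riemann sums of clusters on the lattice. -/

noncomputable section

namespace Pool.Agent.Lib.MP_7f377f_mp.Wx
variable [Pool.Agent.Lib.MP_7f377f_mp.GD]
set_option linter.unusedSectionVars false

open MeasureTheory Filter Topology Set YM7 Weak L6 Wy Sw Function
open Wu (Z4)

variable {β V : Type} {k : ℕ} {Q : β → Fz → ℝ} {A : Set β} {w : β → ℝ} {a ρ g η δ B ω κ s : ℝ}
  {z : R4} (hw : ∀ c ∈ A, 0 ≤ w c) (a0 : 0 < a)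
include hw

theorem cb_lin {I : Type} (T : Finset I) (t : I → ℝ) {Y : I → Fz → ℂ} (B0 : 0 ≤ B)
    (h : ∀ i ∈ T, t i ≠ 0 → Cb Q A w a z ρ B (Y i)) (e : (∑ i ∈ T, |t i|) * B ≤ η) :
    Cb Q A w a z ρ η fun U => ∑ i ∈ T, t i * Y i U :=
  (Cb.sum hw T (z := z) (ρ := ρ) (η := fun i => |t i| * B) fun i hi => by
    by_cases u : t i = 0
    · simpa [u] using Cb.zero le_rfl
    · simpa using (h i hi u).smul (t i)).mono (by simp) (by rwa [← Finset.sum_mul])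

theorem cb_tz {Y : Fz → ℂ} (h : Cb Q A w a 0 ρ B Y) {x : Z4} (hx : ∀ l, |a * x l - z l| ≤ g) :
    Cb Q A w a z (g + ρ) B fun U => Y (tz x U) :=
  (h.tz hw x).mono (fun l => by simpa [pz] using hx l) le_rfl

include a0

/-- smeared combinations -/
theorem cb_sm {f : R4 → ℝ} (g0 : 0 ≤ g) (B0 : 0 ≤ B) {Y : Z4 → Fz → ℂ}
    (hf : ∀ y, |f y| ≤ 1 ∧ (f y ≠ 0 → ∀ l, |y l - z l| ≤ g))
    (h : ∀ x, f (pz a x) ≠ 0 → Cb Q A w a 0 ρ B (Y x)) : ∃ T : Finset Z4,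
      (∀ x, f (pz a x) ≠ 0 → x ∈ T) ∧ Cb Q A w a z (g + ρ) ((2 * g + a) ^ 4 * B)
        fun U => ∑ x ∈ T, (a ^ 4 * f (pz a x) : ℝ) * Y x (tz x U) := by
  obtain ⟨T, t1, t2⟩ := exists_box a0 z g0
  refine ⟨T, fun x hx => (t1 x).2 ((hf _).2 hx), cb_lin hw T _ B0 (fun x hx u => cb_tz hw
    (h x (right_ne_zero_of_mul u)) ((t1 x).1 hx)) (mul_le_mul_of_nonneg_right
      ((Finset.sum_le_card_nsmul _ _ (a ^ 4) fun x _ => ?_).trans
        (by rwa [nsmul_eq_mul, mul_comm])) B0)⟩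
  rw [abs_mul, abs_of_pos (by positivity)]
  exact mul_le_of_le_one_right (by positivity) (hf _).1

theorem cb_core {I : Type} [Fintype I] {X : R4 → Fz → ℂ} {M : Fz → ℝ} {f : R4 → ℝ}
    {χ : I → R4 → ℝ} {q : I → R4} (t : I → ℝ) (g0 : 0 ≤ g) (δ0 : 0 ≤ δ) (B0 : 0 ≤ B) (ω0 : 0 ≤ ω)
    (hX : ∀ v x U, X (v - pz a x) (tz x U) = X v U)
    (h1 : ∀ v : R4, (∀ l, |v l| ≤ a) → Cb Q A w a 0 ρ B (X v))
    (h2 : ∀ v, ‖v‖ ≤ δ → Cb Q A w a 0 ρ ω fun U => X v U - X 0 U)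
    (h3 : Cb Q A w a 0 ρ η fun U => X 0 U - M U)
    (hf : ∀ y, |f y| ≤ 1 ∧ (f y ≠ 0 → ∀ l, |y l - z l| ≤ g)) (c1 : ∀ y, ∑ i, |χ i y| ≤ 1)
    (c2 : ∀ y, f y ≠ 0 → ∑ i, χ i y = 1) (c3 : ∀ i y, χ i y ≠ 0 → dist y (q i) ≤ δ)
    (ht : ∀ i, t i ≠ 0 → ∃ y, f y * χ i y ≠ 0) :
    Cb Q A w a z (g + δ + a + ρ) ((∑ i, |t i - ∑ᶠ x : Z4, a ^ 4 * (f (pz a x) * χ i (pz a x))|) * B +
      (2 * g + a) ^ 4 * (ω + η)) fun U => ∑ i, t i * X (q i) U - sm a M f U := by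
  obtain ⟨T, t1, t2⟩ := cb_sm hw a0 g0 (add_nonneg ω0 (h3.pos hw)) hf
    (Y := fun x U => ∑ i, χ i (pz a x) * (X (q i - pz a x) U - X 0 U) + (X 0 U - M U)) fun x _ =>
      (cb_lin hw _ _ ω0 (fun i _ u => h2 _ (by rw [← dist_eq_norm']; exact c3 i _ u))
        (mul_le_of_le_one_left ω0 (c1 _))).add hw h3
  have e : ∀ i, ∑ᶠ x : Z4, a ^ 4 * (f (pz a x) * χ i (pz a x)) =
      ∑ x ∈ T, a ^ 4 * (f (pz a x) * χ i (pz a x)) := fun i =>
    finsum_eq_sum_of_support_subset _ fun x hx => t1 x fun u => hx (by simp [u])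
  have k : ∀ i, t i - ∑ᶠ x : Z4, a ^ 4 * (f (pz a x) * χ i (pz a x)) ≠ 0 →
      Cb Q A w a z (g + δ + a + ρ) B (X (q i)) := fun i u => by
    obtain ⟨y, hy⟩ : ∃ y, f y * χ i y ≠ 0 := by
      by_contra! v
      exact u (by simp [v, not_not.1 (mt (ht i) (by simp [v]))])
    have x1 : ∀ l, |q i l - a * ⌊q i l / a⌋| ≤ a := fun l => by
      have h1 := (le_div_iff₀' a0).1 (Int.floor_le (q i l / a))
      have h2 := (div_lt_iff₀' a0).1 (Int.lt_floor_add_one (q i l / a))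
      exact abs_le.2 ⟨by linarith, by linarith⟩
    simpa only [hX] using cb_tz hw (h1 (q i - pz a fun l => ⌊q i l / a⌋) x1) (z := z)
      (g := g + δ + a) (x := fun l => ⌊q i l / a⌋) fun l => by
        have e1 := abs_le.1 ((hf y).2 (left_ne_zero_of_mul hy) l)
        have e2 := abs_le.1 ((PiLp.dist_apply_le _ _ l).trans (c3 i y (right_ne_zero_of_mul hy)))
        have e3 := abs_le.1 (x1 l)
        exact abs_le.2 ⟨by linarith [e1.1, e2.2, e3.2], by linarith [e1.2, e2.1, e3.1]⟩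
  convert (cb_lin hw Finset.univ _ B0 (fun i _ => k i) le_rfl).add hw (t2.mono (z' := z)
      (ρ' := g + δ + a + ρ) (fun l => by simp; linarith) le_rfl) using 2 with U
  rw [sm_eq t1]
  simp only [e, hX, Complex.ofReal_sub, sub_mul, Finset.sum_sub_distrib, Complex.ofReal_sum,
    Finset.sum_mul, sub_add]
  rw [Finset.sum_comm, ← Finset.sum_sub_distrib]
  refine congrArg _ (Finset.sum_congr rfl fun x _ => ?_)
  by_cases u : f (pz a x) = 0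
  · simp [u]
  · have := congrArg Complex.ofReal (c2 _ u)
    simp only [mul_sub, Finset.sum_sub_distrib, ← Finset.sum_mul, ← Complex.ofReal_sum, this,
      Complex.ofReal_mul, mul_assoc, ← Finset.mul_sum]
    simp
    ring

omit hw a0

/-- letters with labels of bounded dimension -/
theorem exists_bas [NormedAddCommGroup V] [NormedSpace ℝ V] (Φ : Fil V) (D : ℕ) :
    ∃ A₀ : Set V, A₀.Finite ∧ ∃ C ≥ (0 : ℝ), ∀ {β} {Q : β → Fz → ℝ} {A w a ρ K}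
      (O : V →ₗ[ℝ] Fz → ℝ), (∀ c ∈ A, 0 ≤ w c) → 0 ≤ K →
      (∀ d ∈ A₀, Cb Q A w a 0 ρ K fun W => O d W) → ∀ m ∈ Φ.F D,
        Cb Q A w a 0 ρ (C * ‖m‖ * K) fun W => O m W := by
  have := Φ.fin D
  let b := Module.finBasis ℝ (Φ.F D)
  refine ⟨range fun j => b j, finite_range _, ∑ j, ‖(b.coord j).toContinuousLinearMap‖,
    by positivity, fun O hw K0 h m hm => ?_⟩
  convert cb_lin hw Finset.univ (fun j => b.coord j ⟨m, hm⟩) K0 (fun j _ _ => h _ ⟨j, rfl⟩)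
    (mul_le_mul_of_nonneg_right (Finset.sum_mul _ _ ‖m‖ ▸ Finset.sum_le_sum fun j _ =>
      (b.coord j).toContinuousLinearMap.le_opNorm ⟨m, hm⟩) K0) using 2 with W
  simpa [-Module.Basis.sum_repr] using
    congrArg (fun v : Φ.F D => (O v W : ℂ)) (b.sum_repr ⟨m, hm⟩).symm

end Pool.Agent.Lib.MP_7f377f_mp.Wx
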