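import Pool.Agent.Lib.MP_7f377f_mp.G.WzA0

/-! Riemann sums of clusters and their images on the lattice. -/

noncomputable section

namespace Pool.Agent.Lib.MP_7f377f_mp.Wx
variable [Pool.Agent.Lib.MP_7f377f_mp.GD]
set_option linter.unusedSectionVars false

open MeasureTheory Filter Topology Set YM7 Weak L6 Wy Sw Function
open Wu (Z4)

variable {β V : Type} [NormedAddCommGroup V] [NormedSpace ℝ V] {k : ℕ} {Q : β → Fz → ℝ} {A : Set β}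
  {w : β → ℝ} {a ρ g η δ B ε κ s σ σ' : ℝ} {z : R4} {u : Fin k → R4 → ℝ} {m : (Fin k → Z4) → V}

theorem exists_T' (a0 : 0 < a) (a1 : a ≤ s) (κ1 : 1 ≤ κ) : ∃ T : Finset (Fin k → Z4),
    (∀ y, y ∈ T ↔ Cf κ s a y) ∧ ∀ (t : (Fin k → Z4) → ℝ) (σ : ℝ), (∀ y, |t y| ≤ σ) →
      ∑ y ∈ T, |a ^ (4 * k) * t y| ≤ (3 * κ * s) ^ (4 * k) * σ := by
  have := a0.trans_le a1
  obtain ⟨T, t1, t2⟩ := ex_T (k := k) (κ := κ) (s := s) a0 (by positivity)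
  refine ⟨T, t1, fun t σ e => (Finset.sum_le_card_nsmul _ _ (a ^ (4 * k) * σ) fun y _ => ?_).trans ?_⟩
  · rw [abs_mul, abs_of_pos (by positivity)]
    exact mul_le_mul_of_nonneg_left (e y) (by positivity)
  · rw [nsmul_eq_mul, ← mul_assoc, mul_comm _ (a ^ _)]
    exact mul_le_mul_of_nonneg_right (t2.trans (pow_le_pow_left₀ (by positivity) (by nlinarith) _))
      ((abs_nonneg _).trans (e 0))

theorem av_le (a0 : 0 < a) (a1 : a ≤ s) (κ1 : 1 ≤ κ) (B0 : 0 ≤ B)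
    (hκ : ∀ y : Fin k → Z4, (∀ i, s⁻¹ • pz a (y i) ∈ tsupport (u i)) → Cf κ s a y)
    (hσ : ∀ y : Fin k → R4, |∏ i, u i (y i)| ≤ σ) (hm : ∀ y, Cf κ s a y → ‖m y‖ ≤ B) :
    ‖av a s u m‖ ≤ (3 * κ * s) ^ (4 * k) * σ * B := by
  obtain ⟨T, t1, t2⟩ := exists_T' (k := k) a0 a1 κ1
  rw [av_eq fun y hy => (t1 y).2 (hκ y fun i => subset_tsupport _ (hy i))]
  refine (norm_sum_le_of_le _ fun y hy => (norm_smul_le _ _).trans
    (mul_le_mul_of_nonneg_left (hm y ((t1 y).1 hy)) (norm_nonneg _))).trans ?_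
  rw [← Finset.sum_mul]
  exact mul_le_mul_of_nonneg_right (t2 _ _ fun y => hσ _) B0

theorem cb_fe (hw : ∀ c ∈ A, 0 ≤ w c) (a0 : 0 < a) (a1 : a ≤ s) (κ1 : 1 ≤ κ) (hu : Adm u)
    (hκ : ∀ (y : Fin k → Z4) (q : R4), (∀ l, |q l| ≤ s) →
      (∀ i, s⁻¹ • (pz a (y i) - q) ∈ tsupport (u i)) → Cf κ s a y)
    (hσ : ∀ y : Fin k → R4, |∏ i, u i (y i)| ≤ σ) (hσ' : ∀ v, ‖v‖ ≤ δ → ∀ y : Fin k → R4,
      |∏ i, u i (s⁻¹ • (y i - v)) - ∏ i, u i (s⁻¹ • (y i - 0))| ≤ σ') (δ1 : δ ≤ s) (η0 : 0 ≤ η)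
    (O : V →ₗ[ℝ] Fz → ℝ) (c : Fin k → V) {m' : V}
    (h1 : ∀ y, Cf κ s a y → Cb Q A w a 0 ρ η fun W => ((cl O c y W - O (m y) W : ℝ) : ℂ))
    (h2 : ∀ y, Cf κ s a y → Cb Q A w a 0 ρ B fun W => O (m y) W)
    (h3 : Cb Q A w a 0 ρ ε fun W => O (av a s u m - m') W)
    {I : Type} [Fintype I] {f : R4 → ℝ} {χ : I → R4 → ℝ} {q : I → R4} (t : I → ℝ) (g0 : 0 ≤ g)
    (δ0 : 0 ≤ δ) (B0 : 0 ≤ B)
    (hf : ∀ y, |f y| ≤ 1 ∧ (f y ≠ 0 → ∀ l, |y l - z l| ≤ g)) (c1 : ∀ y, ∑ i, |χ i y| ≤ 1)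
    (c2 : ∀ y, f y ≠ 0 → ∑ i, χ i y = 1) (c3 : ∀ i y, χ i y ≠ 0 → dist y (q i) ≤ δ)
    (ht : ∀ i, t i ≠ 0 → ∃ y, f y * χ i y ≠ 0) :
    Cb Q A w a z (g + δ + a + ρ) ((∑ i, |t i - ∑ᶠ x : Z4, a ^ 4 * (f (pz a x) * χ i (pz a x))|) *
      ((3 * κ * s) ^ (4 * k) * σ * (η + B)) + (2 * g + a) ^ 4 *
        ((3 * κ * s) ^ (4 * k) * σ' * (η + B) + ((3 * κ * s) ^ (4 * k) * σ * η + ε))) fun U =>
      ∑ i, (t i : ℂ) * (∏ j, sm a (O (c j)) (fun y => u j (s⁻¹ • (y - q i))) U : ℝ) -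
        sm a (O m') f U := by
  obtain ⟨T, t1, t2⟩ := exists_T' (k := k) a0 a1 κ1
  have s0 := a0.trans_le a1
  have σ0 := (abs_nonneg _).trans (hσ 0)
  have σ1 := (abs_nonneg _).trans (hσ' 0 (by simpa) 0)
  have e : ∀ v : R4, (∀ l, |v l| ≤ s) → ∀ U, ∏ j, sm a (O (c j)) (fun y => u j (s⁻¹ • (y - v))) U =
      ∑ y ∈ T, (a ^ (4 * k) * ∏ j, u j (s⁻¹ • (pz a (y j) - v))) * cl O c y U := fun v hv =>
    sm_word a0 (fun j => ((hu.smul (inv_ne_zero s0.ne')).1 j).1.comp_homeomorph (.subRight v))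
      (fun y hy => (t1 y).2 (hκ y v hv fun j => subset_tsupport _ (hy j))) O c
  have e0 := e 0 (by simpa using s0.le)
  have b : ∀ y ∈ T, Cb Q A w a 0 ρ (η + B) fun W => cl O c y W := fun y hy => by
    simpa using (h1 y ((t1 y).1 hy)).add hw (h2 y ((t1 y).1 hy))
  refine cb_core hw a0 (X := fun v U => (∏ j, sm a (O (c j)) (fun y => u j (s⁻¹ • (y - v))) U : ℝ))
    t g0 δ0 ?_ ?_ (fun v x U => ?_) (fun v hv => ?_) (fun v hv => ?_) ?_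
    hf c1 c2 c3 ht
  · positivity
  · positivity
  · simp only [← sm_tz, sub_sub_sub_cancel_right]
  · simpa only [e v fun l => (hv l).trans a1, Complex.ofReal_sum, Complex.ofReal_mul (_ * _)] using
      cb_lin hw T _ (by positivity) (fun y hy _ => b y hy)
        (mul_le_mul_of_nonneg_right (t2 _ _ fun y => hσ _) (by positivity))
  · simpa only [e v fun l => (PiLp.norm_apply_le v l).trans (hv.trans δ1), e0, Complex.ofReal_sum,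
      Complex.ofReal_mul (_ * _), mul_sub, sub_mul, Complex.ofReal_sub, Finset.sum_sub_distrib] using
      cb_lin hw T _ (by positivity) (fun y hy _ => b y hy)
        (mul_le_mul_of_nonneg_right (t2 _ _ fun y => hσ' v hv fun j => pz a (y j)) (by positivity))
  · convert (cb_lin hw T _ η0 (fun y hy _ => h1 y ((t1 y).1 hy)) (mul_le_mul_of_nonneg_right
      (t2 _ _ fun y => hσ fun j => s⁻¹ • pz a (y j)) η0)).add hw h3 using 2 with U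
    rw [e0, av_eq fun y hy => (t1 y).2 (hκ y 0 (by simpa using s0.le) fun j => by
      simpa using subset_tsupport _ (hy j))]
    simp [mul_sub]

end Pool.Agent.Lib.MP_7f377f_mp.Wx
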