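import Pool.Agent.Lib.MP_7f377f_mp.G.WzD
import Pool.Agent.Lib.MP_7f377f_mp.G.WyH

/-! Smeared words as sums of clusters. -/

noncomputable section

namespace Pool.Agent.Lib.MP_7f377f_mp.Wx
variable [Pool.Agent.Lib.MP_7f377f_mp.GD]
set_option linter.unusedSectionVars false

open MeasureTheory Filter Topology Set YM7 Weak L6 Wy Sw Function Wv Wm
open Wu (Z4)

variable {V β : Type} {k : ℕ} {K : Fin k → Set R4} {g : Fin k → R4 → ℝ}

/-- the finite set of configurations -/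
theorem ex_T {a s κ : ℝ} (a0 : 0 < a) (h : 0 ≤ κ * s) : ∃ T : Finset (Fin k → Z4),
    (∀ y, y ∈ T ↔ Cf κ s a y) ∧ a ^ (4 * k) * T.card ≤ (2 * (κ * s) + a) ^ (4 * k) := by
  classical
  obtain ⟨B, s1, s2⟩ := exists_box a0 0 h
  refine ⟨(Fintype.piFinset fun _ => B).filter (Cf κ s a), fun y => Finset.mem_filter.trans
    (and_iff_right_of_imp fun e => Fintype.mem_piFinset.2 fun i => (s1 _).2 (by simpa using e.1 i)),
    (mul_le_mul_of_nonneg_left (Nat.cast_le.2 (Finset.card_filter_le _ _)) (by positivity)).trans ?_⟩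
  rw [Fintype.card_piFinset_const, Nat.cast_pow, pow_mul, pow_mul, ← mul_pow]
  exact pow_le_pow_left₀ (by positivity) s2 k

/-- smeared words are sums of clusters -/
theorem sm_word {a : ℝ} (a0 : 0 < a) (hg : ∀ i, HasCompactSupport (g i)) {T : Finset (Fin k → Z4)}
    (hT : ∀ y, (∀ i, g i (pz a (y i)) ≠ 0) → y ∈ T) (O : V → Fz → ℝ) (c : Fin k → V) (W : Fz) :
    ∏ i, sm a (O (c i)) (g i) W = ∑ y ∈ T, (a ^ (4 * k) * ∏ i, g i (pz a (y i))) * cl O c y W := by
  have e : ∀ y ∈ support fun y => (a ^ (4 * k) * ∏ i, g i (pz a (y i))) * cl O c y W,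
      ∀ i, g i (pz a (y i)) ≠ 0 := fun y e i => Finset.prod_ne_zero_iff.1
    (right_ne_zero_of_mul (left_ne_zero_of_mul e)) i (Finset.mem_univ i)
  rw [Finset.prod_congr rfl fun i _ => sm_eq (fun y => (fin_supp a0 (hg i)).mem_toFinset.2) _ _,
    Finset.prod_univ_sum, ← finsum_eq_sum_of_support_subset _ fun y u => hT y (e y u),
    finsum_eq_sum_of_support_subset _ fun y u => Fintype.mem_piFinset.2 fun i =>
      (fin_supp a0 (hg i)).mem_toFinset.2 (e y u i)]
  simp only [Finset.prod_mul_distrib, cl, Fin.prod_const, pow_mul]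

theorem ev_word {a : ℝ} (a0 : 0 < a) (hg : ∀ i, HasCompactSupport (g i)) {T : Finset (Fin k → Z4)}
    (hT : ∀ y, (∀ i, g i (pz a (y i)) ≠ 0) → y ∈ T) (O : V → Fz → ℝ) (c : Fin k → V) (W : Fz) :
    ev a O W (∏ i, xL (c i) (g i)) =
      ∑ y ∈ T, ((a ^ (4 * k) * ∏ i, g i (pz a (y i)) : ℝ) : ℂ) * cl O c y W := by
  simp only [map_prod, ev_x, ← Complex.ofReal_prod, sm_word a0 hg hT, Complex.ofReal_sum,
    Complex.ofReal_mul (_ * _)]

theorem av_eq [NormedAddCommGroup V] [NormedSpace ℝ V] {a s : ℝ} {T : Finset (Fin k → Z4)}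
    (hT : ∀ y, (∀ i, g i (s⁻¹ • pz a (y i)) ≠ 0) → y ∈ T) (m : (Fin k → Z4) → V) :
    av a s g m = ∑ y ∈ T, (a ^ (4 * k) * ∏ i, g i (s⁻¹ • pz a (y i))) • m y :=
  finsum_eq_sum_of_support_subset _ fun y u => hT y fun i => Finset.prod_ne_zero_iff.1
    (right_ne_zero_of_mul (left_ne_zero_of_smul u)) i (Finset.mem_univ i)

/-- the total weight of the coefficients -/
theorem wt_le {a t κ : ℝ} (a0 : 0 < a) (a1 : a ≤ t) (κ0 : 0 ≤ κ) {T : Finset (Fin k → Z4)}
    (hT : a ^ (4 * k) * T.card ≤ (2 * (κ * t) + a) ^ (4 * k)) {u : (Fin k → Z4) → Fin k → ℝ}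
    {s : Fin k → ℝ} (s0 : ∀ i, 0 ≤ s i) (hu : ∀ y ∈ T, ∀ i, |u y i| ≤ s i) :
    ∑ y ∈ T, |(a / t) ^ (4 * k) * ∏ i, u y i| ≤ (2 * κ + 1) ^ (4 * k) * ∏ i, s i := by
  have t0 := a0.trans_le a1
  refine (Finset.sum_le_card_nsmul _ _ ((a / t) ^ (4 * k) * ∏ i, s i) fun y hy => ?_).trans ?_
  · rw [abs_mul, Finset.abs_prod, abs_of_nonneg (by positivity)]
    exact mul_le_mul_of_nonneg_left (Finset.prod_le_prod (fun _ _ => abs_nonneg _)
      fun i _ => hu y hy i) (by positivity)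
  · rw [nsmul_eq_mul, ← mul_assoc]
    refine mul_le_mul_of_nonneg_right ?_ (Finset.prod_nonneg fun i _ => s0 i)
    rw [div_pow, ← mul_div_assoc, div_le_iff₀ (by positivity), mul_comm, ← mul_pow]
    exact hT.trans (pow_le_pow_left₀ (by positivity) (by linarith) _)

theorem inj_open : IsOpen {y : Fin k → R4 | Injective y} := by
  simp only [injective_iff_pairwise_ne, Pairwise, ofPred_forall]
  exact isOpen_iInter_of_finite fun i => isOpen_iInter_of_finite fun j =>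
    isOpen_iInter_of_finite fun _ => isOpen_ne_fun (continuous_apply i) (continuous_apply j)

/-- Riemann sums for functions which are continuous off the diagonals -/
theorem riem_cf {ι : Type} {l : Filter ι} {a : ι → ℝ} (ha : Tendsto a l (𝓝[>] 0)) (hg : Adm g)
    {F : (Fin k → R4) → ℝ} (hF : ContinuousOn F {y | Injective y}) {t : ℝ} (t0 : 0 < t)
    {T : ι → Finset (Fin k → Z4)}
    (hT : ∀ᶠ p in l, ∀ y, (∀ i, g i (t⁻¹ • pz (a p) (y i)) ≠ 0) → y ∈ T p) :
    Tendsto (fun p => ∑ y ∈ T p, ((a p / t) ^ (4 * k) * ∏ i, g i (t⁻¹ • pz (a p) (y i))) *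
      F fun i => t⁻¹ • pz (a p) (y i)) l (𝓝 (∫ y : Fin k → R4, (∏ i, g i (y i)) * F y)) := by
  have s : ∀ y : Fin k → R4, (∏ i, g i (y i)) * F y ≠ 0 → ∀ i, g i (y i) ≠ 0 := fun y e i =>
    Finset.prod_ne_zero_iff.1 (left_ne_zero_of_mul e) i (Finset.mem_univ i)
  have hc : Continuous fun y : Fin k → R4 => (∏ i, g i (y i)) * F y :=
    ((continuous_finsetProd _ fun i _ => (hg.1 i).2.continuous.comp
      (continuous_apply i)).continuousOn.mul hF).continuous_of_tsupport_subset inj_open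
      ((closure_minimal (t := univ.pi fun i => tsupport (g i))
        (fun y e i _ => subset_tsupport _ (s y e i)) (isClosed_set_pi fun _ _ => isClosed_closure)).trans
        fun y e i j u => by_contra fun v => disjoint_left.1 (hg.2 v) (e i trivial) (u ▸ e j trivial))
  obtain ⟨R, -, hR, -⟩ := hg.data
  refine ((YM5.riemann (fun ε z => (∏ i, g i (pz ε (z i))) * F fun i => pz ε (z i)) _ R
    (fun y ε z _ _ hz => (hc.tendsto y).comp (tendsto_pi_nhds.2 fun i => YM5.pt_tendsto (hz i)))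
    fun ε z _ hz i l => (PiLp.norm_apply_le (pz ε (z i)) l).trans
      (hR i _ (subset_tsupport _ (s _ hz i)))).1.comp (f := fun p => a p / t)
    (tendsto_nhdsWithin_iff.2 ⟨by simpa using (tendsto_nhdsWithin_iff.1 ha).1.div_const t,
      (tendsto_nhdsWithin_iff.1 ha).2.mono fun p e => div_pos e t0⟩)).congr' (hT.mono fun p e => ?_)
  have e1 : ∀ x, pz (a p / t) x = t⁻¹ • pz (a p) x := fun x => by
    ext l
    simp [pz, div_eq_inv_mul, mul_assoc]
  simp only [comp, e1, mul_assoc, ← Finset.mul_sum]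
  rw [tsum_eq_sum fun z hz => not_not.1 fun u => hz (e z (s _ u))]

theorem _root_.Pool.Agent.Lib.MP_7f377f_mp.Wy.Cb.unit {Q : β → Fz → ℝ} {A w a ρ η Y}
    (h : Cb Q A w a 0 ρ η Y) (w0 : ∀ c ∈ A, 0 ≤ w c) (ρ0 : 0 ≤ ρ) (δ : ℂ) :
    Cb (fun o => o.elim 1 Q) (insert none (some '' A)) (fun o => o.elim 1 w) a 0 ρ (η + ‖δ‖)
      fun U => Y U + δ := by
  obtain ⟨s, t, h1, h2, h3⟩ := h
  refine .of s.insertNone (fun o => o.elim 0 Prod.fst) (Option.map Prod.snd) (fun o => o.elim δ t) ?_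
    (fun o ho => ?_) (by simpa [add_comm η] using h2) fun U => by simp [h3, add_comm]
  · rintro _ (rfl | ⟨c, hc, rfl⟩)
    exacts [zero_le_one, w0 c hc]
  · cases o with
    | none => simpa
    | some q => simpa using h1 q (by simpa using ho)

variable [MeasurableSpace SU2] [BorelSpace SU2] {h : Measure SU2} [h.IsHaarMeasure]
  [IsProbabilityMeasure h] {n : ℕ × ℕ → ℕ} [∀ p, NeZero (n p)] {a b : ℕ × ℕ → ℝ}

theorem _root_.Pool.Agent.Lib.MP_7f377f_mp.Wy.EF.unit {Q : ℕ × ℕ → β → Fz → ℝ} {r A w ℓ C}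
    (hE : EF h n a b Q r A w ℓ C) (C0 : 0 ≤ C) :
    EF h n a b (fun p o => o.elim 1 (Q p)) (fun μ => Option.map (r μ))
      (fun J => insert none (some '' A J)) (fun J o => o.elim 1 (w J)) ℓ C :=
  hE.mono fun J ⟨lam, e, E⟩ => by
    obtain ⟨K, hK⟩ := E.lt
    refine ⟨lam, e, (E.fin.image _).insert _, fun μ => ?_, ?_, ⟨max K 1, hK.mono fun s k =>
      ⟨?_, ?_, fun μ => ?_, ?_⟩⟩, (hK.and E.e0).mono fun s ⟨k, H⟩ => ?_⟩
    on_goal 7 => rotate_left
    any_goals rintro _ (rfl | ⟨c, hc, rfl⟩)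
    · simp
    · simpa using E.cl μ c hc
    · exact one_pos
    · exact E.pos c hc
    · exact continuous_const
    · exact k.cont c hc
    · exact fun _ _ _ => rfl
    · exact k.dep c hc
    · exact fun _ => rfl
    · exact k.rf μ c hc
    · simp
    · exact fun U => (k.bd c hc U).trans (le_max_left ..)
    · cases isEmpty_or_nonempty β
      · refine H.imp fun m H => ⟨H.1, fun s σ _ => ?_⟩
        obtain rfl : σ = fun _ => none := Subsingleton.elim ..
        simpa using by positivity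
      · refine H.comb k.cont (fun c hc => (E.pos c hc).le) ?_
        rintro _ (rfl | ⟨c, hc, rfl⟩)
        exacts [⟨∅, 0, 1, by simp⟩, ⟨{c}, 1, 0, by simpa⟩]

end Pool.Agent.Lib.MP_7f377f_mp.Wx
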