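import Pool.Agent.Lib.MP_7f377f_mp.G.XTool
import Pool.Agent.Lib.MP_7f377f_mp.S10KB

/-! Two dimensions: real times. -/

noncomputable section

namespace Pool.Agent.Lib.MP_7f377f_mp.W2

open MeasureTheory Filter Topology Set Complex ComplexConjugate

namespace A1

variable {H : Type} [NormedAddCommGroup H] [InnerProductSpace ℂ H] [CompleteSpace H]

theorem idh {X : Type} [NormedAddCommGroup X] [NormedSpace ℂ X] [CompleteSpace X] {f g : ℂ → X}
    (hf : DifferentiableOn ℂ f {z | 0 < z.re}) (hg : DifferentiableOn ℂ g {z | 0 < z.re}) {c : ℝ}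
    (c0 : 0 < c) (h : ∀ t : ℝ, c < t → f t = g t) {z : ℂ} (hz : 0 < z.re) : f z = g z := by
  refine S10.id_line (z := c) (d := 1) (isOpen_lt continuous_const continuous_re)
    (convex_halfSpace_re_gt 0).isPreconnected hf hg c0 one_ne_zero ?_ hz
  filter_upwards [self_mem_nhdsWithin] with x hx
  simpa using h (c + x) (lt_add_of_pos_right c hx)

theorem ext {τ : ℝ → H →L[ℂ] H} (hs : ∀ t > 0, IsSelfAdjoint (τ t)) (hn : ∀ t > 0, ‖τ t‖ ≤ 1)
    (hm : ∀ s > 0, ∀ t > 0, τ (s + t) = τ s * τ t)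
    (hc : ∀ x, Tendsto (fun t => τ t x) (𝓝[>] 0) (𝓝 x)) :
    ∃ B : ℂ → H →L[ℂ] H, DifferentiableOn ℂ B {z | 0 < z.re} ∧ (∀ z, 0 ≤ z.re → ‖B z‖ ≤ 1) ∧
      (∀ t : ℝ, 0 < t → B t = τ t) ∧ B 0 = 1 ∧
      (∀ z w, 0 ≤ z.re → 0 ≤ w.re → B (z + w) = B z * B w) ∧
      (∀ z, 0 ≤ z.re → ∀ x y, inner ℂ (B (conj z) x) y = inner ℂ x (B z y)) ∧
      ContinuousOn (fun p : H × ℂ => B p.2 p.1) (univ ×ˢ {z | 0 ≤ z.re}) ∧
      ∀ C, (∀ t > 0, C * τ t = τ t * C) → ∀ z, 0 ≤ z.re → C * B z = B z * C := by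
  obtain ⟨A, a1, a2, a3⟩ := S10.sg hs hn hm
  have o : IsOpen {z : ℂ | 0 < z.re} := isOpen_lt continuous_const continuous_re
  have sh : ∀ w : ℂ, 0 < w.re → DifferentiableOn ℂ (fun z => A (z + w)) {z | 0 < z.re} :=
    fun w hw => a1.comp (by fun_prop) fun z hz => add_pos hz hw
  have am : ∀ z w : ℂ, 0 < z.re → 0 < w.re → A (z + w) = A z * A w := fun z w hz hw => by
    refine idh (sh w hw) (a1.mul_const _) one_pos (fun s s1 => ?_) hz
    have s0 := one_pos.trans s1
    rw [add_comm]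
    refine idh (sh s s0) (a1.const_mul _) one_pos (fun t t1 => ?_) hw
    have t0 := one_pos.trans t1
    rw [← ofReal_add, a3 s s0, a3 t t0, a3 _ (add_pos t0 s0), add_comm, hm s s0 t t0]
  have aa : ∀ z : ℂ, 0 < z.re → ∀ x y, inner ℂ (A (conj z) x) y = inner ℂ x (A z y) :=
    fun z hz x y => idh (f := fun z => inner ℂ (A (conj z) x) y) (g := fun z => inner ℂ x (A z y))
      (fun z hz => (S10.diff_inner
      ((a1.clm_apply (differentiableOn_const x)).differentiableAt (o.mem_nhds hz))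
      (differentiableAt_const _)).differentiableWithinAt)
      ((innerSL ℂ x).differentiable.comp_differentiableOn (a1.clm_apply (differentiableOn_const y)))
      one_pos (fun t t1 => by
        rw [conj_ofReal, a3 t (one_pos.trans t1)]
        exact (hs t (one_pos.trans t1)).isSymmetric x y) hz
  have p1 : ∀ z : ℂ, 0 ≤ z.re → 0 < (z + 1).re := fun z hz => add_pos_of_nonneg_of_pos hz one_pos
  have o1 : 0 < (1 : ℂ).re := one_pos
  have dn : DenseRange (A 1 : H →ₗ[ℂ] H) := by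
    refine (Submodule.dense_iff_topologicalClosure_eq_top (s := LinearMap.range _)).2 ?_
    rw [Submodule.topologicalClosure_eq_top_iff, Submodule.eq_bot_iff]
    intro x hx
    have h1 : A 1 x = 0 := ext_inner_right ℂ fun y => by
      rw [inner_zero_left, ← map_one conj, aa 1 o1]
      exact Submodule.inner_left_of_mem_orthogonal (LinearMap.mem_range_self _ y) hx
    refine tendsto_nhds_unique (hc x) (tendsto_const_nhds.congr' ?_)
    filter_upwards [self_mem_nhdsWithin] with t ht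
    rw [← a3 t ht]
    refine idh (differentiableOn_const 0) (a1.clm_apply (differentiableOn_const x)) one_pos
      (fun s s1 => ?_) ht
    rw [← sub_add_cancel (s : ℂ) 1, am _ 1 (by simpa using s1) o1, mul_apply_eq_comp, h1, map_zero]
  have nb : ∀ z : ℂ, 0 ≤ z.re → ∀ x, ‖(A (z + 1) : H →ₗ[ℂ] H) x‖ ≤ 1 * ‖(A 1 : H →ₗ[ℂ] H) x‖ :=
    fun z hz x => by
    have c1 : ContinuousAt (fun e : ℝ => ‖A (1 - e) x‖) 0 :=
      (((a1.clm_apply (differentiableOn_const x)).continuousOn.continuousAt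
        (o.mem_nhds o1)).comp_of_eq (f := fun e : ℝ => 1 - (e : ℂ)) (by fun_prop) (by simp)).norm
    refine ge_of_tendsto ((c1.tendsto.mono_left (nhdsWithin_le_nhds (s := Ioi 0))).trans_eq
      (by simp)) ?_
    filter_upwards [Ioo_mem_nhdsGT one_pos] with e he
    have q : 0 < (z + e).re := add_pos_of_nonneg_of_pos hz he.1
    rw [show z + 1 = z + e + (1 - e) by ring, am _ _ q (by simpa using he.2)]
    exact ((A _).le_of_opNorm_le (a2 _ q) _).trans_eq (one_mul _)
  obtain ⟨B, b1, b2⟩ : ∃ B : ℂ → H →L[ℂ] H, (∀ z, 0 ≤ z.re → ‖B z‖ ≤ 1) ∧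
      ∀ z, 0 ≤ z.re → B z * A 1 = A (z + 1) :=
    ⟨fun z => (A (z + 1) : H →ₗ[ℂ] H).extendOfNorm (A 1 : H →ₗ[ℂ] H),
      fun z hz => LinearMap.opNorm_extendOfNorm_le dn zero_le_one (nb z hz),
      fun z hz => ContinuousLinearMap.ext (LinearMap.extendOfNorm_eq dn ⟨1, nb z hz⟩)⟩
  have can : ∀ {C D : H →L[ℂ] H}, C * A 1 = D * A 1 → C = D := fun {C D} h =>
    ContinuousLinearMap.ext fun x => dn.induction_on x (isClosed_eq C.continuous D.continuous)
      fun y => congrArg (· y) h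
  have b3 : ∀ z : ℂ, 0 < z.re → B z = A z := fun z hz => can (by rw [b2 z hz.le, am z 1 hz o1])
  have b4 : ∀ z w : ℂ, 0 ≤ z.re → 0 < w.re → B z * A w = A (z + w) := fun z w hz hw => can (by
    rw [mul_assoc, ← am w 1 hw o1, add_comm w, am 1 w o1 hw, ← mul_assoc, b2 z hz,
      ← am _ w (p1 z hz) hw, ← am _ 1 (add_pos_of_nonneg_of_pos hz hw) o1, add_right_comm])
  refine ⟨B, a1.congr b3, b1, fun t ht => (b3 t ht).trans (a3 t ht), can (by simp [b2]),
    fun z w hz hw => can ?_, fun z hz x y => ?_, ?_, fun C hC z hz => can ?_⟩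
  · rw [b2 _ (add_nonneg hz hw), mul_assoc, b2 w hw, b4 z _ hz (p1 w hw), add_assoc]
  · refine dn.induction_on₂ (isClosed_eq (by fun_prop) (by fun_prop)) (fun x y => ?_) x y
    have e1 := aa 1 o1 x
    have e2 := aa _ (p1 z hz) x
    rw [map_one] at e1
    rw [map_add, map_one] at e2
    simp only [ContinuousLinearMap.coe_coe, ← mul_apply_eq_comp, b2 z hz, b2 (conj z) hz, e1, e2]
    rw [← am _ _ o1 (p1 z hz), ← am _ _ (p1 z hz) o1, add_comm 1]
  · refine continuousOn_prod_of_subset_closure_continuousOn_lipschitzOnWith _ (subset_univ _)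
      dn.closure_eq.ge 1 ?_ fun z hz => ((B z).lipschitz.weaken (b1 z hz)).lipschitzOnWith
    rintro _ ⟨x, rfl⟩
    exact (((a1.clm_apply (differentiableOn_const x)).continuousOn.comp (by fun_prop) p1).congr
      fun z hz => congrArg (· x) (b2 z hz))
  · have ac : ∀ z : ℂ, 0 < z.re → C * A z = A z * C := fun z hz =>
      idh (a1.const_mul C) (a1.mul_const C) one_pos (fun t t1 => by
        rw [a3 t (one_pos.trans t1), hC t (one_pos.trans t1)]) hz
    rw [mul_assoc, mul_assoc, b2 z hz, ac 1 o1, ac _ (p1 z hz), ← mul_assoc, b2 z hz]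

theorem rf_e0 (t : ℝ) : -rf 0 (t • e0) = t • e0 := by
  ext l
  by_cases h : l = 0 <;> simp [h, e0_ne, rf_ne]

theorem rf_sp (a : R2) : -rf 0 (sp a) = sp (-a) := by
  ext l
  by_cases h : l = 0 <;> simp [h, sp_zero, sp_ne, rf_ne]

theorem split (a : R2) : a 0 • e0 + sp a = a := by simp [sp]

end A1

open A1

theorem sA1_of : S_A1 := fun H _ _ _ T hT => by
  have n0 : ∀ {t : ℝ}, 0 ≤ t → 0 ≤ (t • e0) 0 := fun h => by simpa using h
  have s0 : ∀ a, 0 ≤ sp a 0 := fun a => (sp_zero a).ge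
  obtain ⟨B, b1, b2, b3, b4, b5, b6, b7, b8⟩ := ext (τ := fun t => T (t • e0))
    (fun t ht => ContinuousLinearMap.isSelfAdjoint_iff_isSymmetric.2 fun x y =>
      (hT.adj _ (n0 ht.le) x y).trans (by rw [rf_e0]; rfl)) (fun t ht => hT.nrm _ (n0 ht.le))
    (fun s hs t ht => by rw [add_smul, hT.mul _ _ (n0 hs.le) (n0 ht.le)]) fun x => by
      simpa [hT.zero, Function.comp_def] using (((hT.cont x).comp (f := fun t : ℝ => t • e0) (s := Ici 0)
        (by fun_prop) fun _ => n0) 0 self_mem_Ici).tendsto.mono_left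
        (nhdsWithin_mono _ Ioi_subset_Ici_self)
  have r0 : ∀ t : ℝ, 0 ≤ (-I * t).re := fun t => by simp
  have cm : ∀ a (t : ℝ), T (sp a) * B (-I * t) = B (-I * t) * T (sp a) := fun a t =>
    b8 _ (fun s hs => by
      rw [← hT.mul _ _ (s0 a) (n0 hs.le), ← hT.mul _ _ (n0 hs.le) (s0 a), add_comm]) _ (r0 t)
  refine ⟨fun a => B (-I * a 0) * T (sp a), fun s => B (-I * s), ⟨?_, fun a b => ?_,
    fun a x y => ?_, fun x => ?_⟩, fun t => ?_, fun a h => ?_, fun t ht => ?_,
    b1.comp (by fun_prop) fun s hs => by simpa using hs, fun x => ?_,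
    fun s hs => b2 _ (by simpa using hs)⟩
  · simp [sp, b4, hT.zero]
  · rw [sp_add, hT.mul _ _ (s0 a) (s0 b), PiLp.add_apply, ofReal_add, mul_add, b5 _ _ (r0 _) (r0 _),
      mul_assoc, mul_assoc, ← mul_assoc (T _), cm, mul_assoc]
  · rw [← cm (-a), mul_apply_eq_comp, mul_apply_eq_comp, ← rf_sp, ← hT.adj _ (s0 a),
      ← b6 _ (r0 _)]
    simp
  · exact b7.comp_continuous (f := fun a : R2 => (T (sp a) x, -I * a 0))
      (((hT.cont x).comp_continuous (by unfold sp; fun_prop) s0).prodMk (by fun_prop))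
      fun a => ⟨trivial, r0 _⟩
  · simp [sp_smul, sp_e0, hT.zero]
  · simp [sp, h, b4]
  · rw [show -I * (t * I) = t by linear_combination -t * I_mul_I]
    rcases ht.eq_or_lt with rfl | ht
    · simp [b4, hT.zero]
    · exact b3 t ht
  · exact b7.comp (f := fun s => (x, -I * s)) (by fun_prop) fun s hs => ⟨trivial, by simpa using hs⟩

theorem sA_of (h1 : S_A1) (h2 : S_A2) (h3 : S_A3) (h4 : S_A4) : S_A := fun H _ _ _ T hT hC => by
  obtain ⟨U, S, u⟩ := h1 H T hT
  have sU : Spec U := fun x => (h2 H U u.grp x).imp fun μ h => ⟨h, h3 H T U S hT hC u x μ h⟩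
  obtain ⟨E, e, eU⟩ := h4 H U u.grp sU
  have m : ∀ s : ℂ, mg (imv (s • rl e0)) = s.im := fun s => by
    rw [← mg_e0 s.im]
    congr 1
    ext
    simp [rl]
  have key : ∀ (x : H) (g : ℂ → H), DifferentiableOn ℂ g {s | 0 < s.im} →
      ContinuousOn g {s | 0 ≤ s.im} → (∀ s : ℂ, 0 ≤ s.im → ‖g s‖ ≤ ‖x‖) →
      (∀ t : ℝ, g t = U (t • e0) x) → ∀ t : ℝ, 0 ≤ t → E (ie t) x = g (t * I) :=
    fun x g g1 g2 g3 g4 t ht => by
    have m0 : ∀ s : ℂ, 0 ≤ s.im → s • rl e0 ∈ TV 0 := fun s hs => hs.trans_eq (m s).symm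
    have := pl (f := fun s => E (s • rl e0) x - g s) (c := 0) (B := ‖x‖ + ‖x‖) (M := 0)
      (((e.hol.comp (by fun_prop) fun s hs => lt_of_lt_of_eq hs (m s).symm).clm_apply
        (differentiableOn_const x)).sub g1) (((e.cont x).comp (by fun_prop) m0).sub g2)
      (fun s hs => (norm_sub_le _ _).trans (add_le_add
        (((E _).le_of_opNorm_le (e.nrm _ (m0 s hs)) x).trans_eq (one_mul _)) (g3 s hs)))
      (fun s hs => by
        obtain ⟨t, rfl⟩ : ∃ t : ℝ, s = t := ⟨s.re, Complex.ext rfl hs⟩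
        rw [g4, ← eU, show rl (t • e0) = (t : ℂ) • rl e0 by ext; simp [rl], sub_self, norm_zero])
      (s := t * I) (by simpa using ht)
    rw [norm_le_zero_iff, sub_eq_zero] at this
    rw [← this]
    congr 2
    ext l
    by_cases h : l = 0 <;> simp [ie, euc, rl, h, e0_ne, mul_comm]
  have n0 : ∀ {t : ℝ}, 0 ≤ t → 0 ≤ (t • e0) 0 := fun h => by simpa using h
  have k1 : ∀ t : ℝ, 0 ≤ t → E (ie t) = T (t • e0) := fun t ht => ContinuousLinearMap.ext fun x => by
    rw [key x (fun s => S s x) (u.hol.clm_apply (differentiableOn_const x)) (u.cont x)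
      (fun s hs => ((S s).le_of_opNorm_le (u.nrm s hs) x).trans_eq (one_mul _))
      (fun t => by rw [u.time]) t ht, u.imag t ht]
  have k2 : ∀ v : R2, 0 ≤ v 0 → E (euc v) = E (ie (v 0)) * U (sp v) := fun v hv => by
    rw [← eU, ← e.mul _ (TV.mono hv (ie_mem _)) _ (rl_mem _), euc_eq, ie_eq, ← cx_zero, ← cx_add,
      zero_add, add_zero]
  have k3 : ∀ v : R2, 0 ≤ v 0 → E (euc v) = T v := fun v hv => by
    rw [k2 v hv, k1 _ hv, u.space _ (sp_zero v), ← hT.mul _ _ (n0 hv) (sp_zero v).ge, split]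
  refine ⟨E, e, k3, by simpa only [eU] using sU, fun x hx v hv => ?_, fun x hx z hz => ?_⟩
  · simp only [eU] at hx
    rw [← k3 v hv, k2 v hv, mul_apply_eq_comp, hx, key x (fun _ => x) (differentiableOn_const _)
      continuousOn_const (fun _ _ => le_rfl) (fun t => (hx _).symm) _ hv]
  · have i1 : ie 1 ∈ TO := TV.to one_pos (ie_mem 1)
    have := idR isOpen_TO convex_TO (e.hol.clm_apply (differentiableOn_const x))
      (differentiableOn_const x) i1 euc (fun t y => by
        ext l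
        by_cases h : l = 0 <;> simp [euc, h, mul_left_comm]) euc_add
      (fun v => ⟨WithLp.toLp 2 fun l => if l = 0 then (v l).im else (v l).re,
        WithLp.toLp 2 fun l => if l = 0 then -(v l).re else (v l).im, by
          ext l
          by_cases h : l = 0 <;> apply Complex.ext <;> simp [euc, h]⟩) (by
        have : ∀ᶠ y : R2 in 𝓝 0, -1 < y 0 :=
          (show Continuous fun y : R2 => y 0 by fun_prop).continuousAt.eventually_const_lt (by simp)
        filter_upwards [this] with y hy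
        have p : 0 ≤ ((1 : ℝ) • e0 + y) 0 := by
          simp only [PiLp.add_apply, one_smul, e0_zero]
          linarith
        rw [ie, ← euc_add, k3 _ p, hx _ p])
    have q : E (ie 1 + z) x = x := this (TO.add i1 hz)
    rwa [add_comm, e.mul _ hz _ (TO.tv i1), mul_apply_eq_comp, show E _ x = x from this i1] at q

end Pool.Agent.Lib.MP_7f377f_mp.W2
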