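import Pool.Agent.Lib.MP_7f377f_mp.G.XSpec
import Pool.Agent.Lib.MP_7f377f_mp.G.XTool
import Pool.Agent.Lib.MP_7f377f_mp.G.XMat

/-! Two dimensions: tools for smeared Euclidean fields. -/

noncomputable section

namespace Pool.Agent.Lib.MP_7f377f_mp.W2

open MeasureTheory Filter Topology Set Complex ComplexConjugate Metric
open scoped NNReal Manifold

/-- time ordered supports -/
def Ord {n : ℕ} (f : Fin n → R2 → ℝ) : Prop :=
  ∀ i j, i < j → ∀ x ∈ tsupport (f i), ∀ y ∈ tsupport (f j), x 0 < y 0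

theorem C1.zero (O : Set R2) : C1 O 0 :=
  ⟨HasCompactSupport.zero, contDiff_const, by simp [tsupport]⟩

theorem C1.comb {O : Set R2} {g g' : R2 → ℝ} (hg : C1 O g) (hg' : C1 O g') (t : ℝ) :
    C1 O (g + t • g') :=
  ⟨hg.1.add hg'.1.smul_left, hg.2.1.add (hg'.2.1.const_smul t), (tsupport_add _ _).trans
    (union_subset hg.2.2 ((tsupport_smul_subset_right (fun _ => t) g').trans hg'.2.2))⟩

namespace B1

variable {H : Type} [NormedAddCommGroup H] [InnerProductSpace ℂ H]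
  {P : Type} [CommRing P] [Algebra ℂ P] {N : Net P} {S : P →ₗ[ℂ] ℂ} (r : N.Rep S 0 H)
  {X Y Z : P} {R c : ℝ}

/-- the field in front of a state -/
def F (R : ℝ) (X : P) : N.loc (Hs 0 0) →ₗ[ℂ] H :=
  r.Ψ ∘ₗ LinearMap.mulLeft ℂ (N.τ (R • e0) X) ∘ₗ (N.τ ((2 * R) • e0)).toLinearMap ∘ₗ
    (N.loc (Hs 0 0)).subtype

/-- its extension -/
def Op [CompleteSpace H] (R : ℝ) (X : P) : H →L[ℂ] H :=
  (F r R X).extendOfNorm (r.Ψ ∘ₗ (N.loc (Hs 0 0)).subtype)

theorem mem (R0 : 0 ≤ R) (hX : X ∈ N.loc (Bx R)) (hZ : Z ∈ N.loc (Hs 0 0)) :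
    N.τ (R • e0) X * N.τ ((2 * R) • e0) Z ∈ N.loc (Hs 0 0) :=
  N.mono (N.mul (N.τ_mem _ hX) (N.τ_mem _ hZ) (disjoint_left.2 fun y e e' => by
    have := (abs_lt.1 (e 0)).2
    simp [Hs] at this e'
    linarith)) fun y e => by
    rcases e with e | e
    · simpa [Hs] using (abs_lt.1 (e 0)).1
    · simp [Hs] at e ⊢
      linarith

theorem mem2 (R0 : 0 ≤ R) (hY : Y ∈ N.loc (Hs 0 0)) (hZ : Z ∈ N.loc (Hs 0 0)) :
    N.Θ 0 (N.τ (R • e0) Y) * N.τ (R • e0) Z ∈ N.loc (Bx R)ᶜ :=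
  N.mono (N.mul (N.Θ_mem 0 (N.τ_mem _ hY)) (N.τ_mem _ hZ) (disjoint_left.2 fun y e e' => by
    simp [Hs] at e e'
    linarith)) fun y e e' => by
    have := abs_lt.1 (e' 0)
    rcases e with e | e <;> simp [Hs] at e <;> linarith [this.1, this.2]

theorem inn_F (hS : N.St S) (R0 : 0 ≤ R) (hX : X ∈ N.loc (Bx R)) (Y Z : N.loc (Hs 0 0)) :
    inner ℂ (r.Ψ Y) (F r R X Z) = S (X * (N.Θ 0 (N.τ (R • e0) Y) * N.τ (R • e0) Z)) := by
  have h := mem R0 hX Z.2
  change inner ℂ _ (r.Ψ (_ * N.τ _ Z)) = _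
  have e1 : -(R • e0) + (2 * R) • e0 = R • e0 := by module
  have e2 : rf 0 (R • e0) = -(R • e0) := by rw [← neg_smul, smul_e0, smul_e0, rf_ax]
  rw [r.inn Y.2 h, ← hS.ti (-(R • e0)) (Net.rp_adm Y.2 h), N.Θ_τ, e2]
  simp only [map_mul, N.τ_τ, neg_add_cancel, N.τ_zero, e1]
  rw [mul_left_comm]

theorem adj_F (hS : N.St S) (R0 : 0 ≤ R) (hX : X ∈ N.loc (Bx R)) (Y Z : N.loc (Hs 0 0)) :
    inner ℂ (F r R X Y) (r.Ψ Z) = inner ℂ (r.Ψ Y) (F r R (N.Θ 0 X) Z) := by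
  rw [← inner_conj_symm, inn_F r hS R0 hX, inn_F r hS R0 (Net.Θ_bx hX 0), ← hS.herm 0
    (Net.adm (N.mul hX (mem2 R0 Z.2 Y.2) disjoint_compl_right)), map_mul (N.Θ 0),
    map_mul (N.Θ 0), N.Θ_Θ, mul_comm (N.τ _ _)]

/-- the operator bound -/
def Qb (N : Net P) (S : P →ₗ[ℂ] ℂ) (X : P) (R c : ℝ) : Prop := X ∈ N.loc (Bx R) ∧ 0 ≤ R ∧ 0 ≤ c ∧
  ∀ Z ∈ N.loc (Hs 0 0), N.nq S 0 (N.τ (R • e0) X * N.τ ((2 * R) • e0) Z) ≤ c ^ 2 * N.nq S 0 Z

variable [CompleteSpace H] (h : Qb N S X R c)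
include h

theorem bd_F (Z : N.loc (Hs 0 0)) : ‖F r R X Z‖ ≤ c * ‖r.Ψ Z‖ := by
  have := h.2.2.2 Z Z.2
  rw [r.nq (mem h.2.1 h.1 Z.2), r.nq Z.2, ← mul_pow] at this
  exact le_of_sq_le_sq this (mul_nonneg h.2.2.1 (norm_nonneg _))

theorem Op_eq (Z : N.loc (Hs 0 0)) : Op r R X (r.Ψ Z) = F r R X Z :=
  LinearMap.extendOfNorm_eq r.dense ⟨c, bd_F r h⟩ Z

theorem Op_le : ‖Op r R X‖ ≤ c :=
  LinearMap.opNorm_extendOfNorm_le r.dense h.2.2.1 (bd_F r h)

omit h in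
theorem ext {A B : H →L[ℂ] H} (e : ∀ Z : N.loc (Hs 0 0), A (r.Ψ Z) = B (r.Ψ Z)) : A = B :=
  ContinuousLinearMap.ext fun x => r.dense.induction_on (p := fun x => A x = B x) x
    (isClosed_eq (by fun_prop) (by fun_prop)) e

end B1

namespace B2

theorem mul_c1 {O V : Set R2} {g χ : R2 → ℝ} (hg : C1 O g) (h1 : ContDiff ℝ 1 χ)
    (h2 : ∀ᶠ x in 𝓝ˢ (tsupport g \ V), χ x = 0) : C1 (O ∩ V) fun y => χ y * g y := by
  refine ⟨hg.1.mul_left, h1.mul hg.2.1, fun y hy => ?_⟩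
  have e := tsupport_mul_subset_right hy
  refine ⟨hg.2.2 e, by_contra fun c => ?_⟩
  exact notMem_tsupport_iff_eventuallyEq.2 (h2.filter_mono (nhds_le_nhdsSet (mem_sdiff_of_mem e c)))
    (tsupport_mul_subset_left hy)

/-- from small supports to all supports -/
theorem pu {O : Set R2} {P : (R2 → ℝ) → Prop} (h0 : P 0)
    (h1 : ∀ g g', C1 O g → C1 O g' → P g → P g' → P (g + g'))
    (h2 : ∀ x ∈ O, ∃ ε > 0, ∀ g, C1 (O ∩ ball x ε) g → P g) {g : R2 → ℝ} (hg : C1 O g) : P g := by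
  have key : ∃ V, IsOpen V ∧ tsupport g ⊆ V ∧ ∀ g, C1 (O ∩ V) g → P g := by
    refine IsCompact.induction_on (p := fun s => ∃ V, IsOpen V ∧ s ⊆ V ∧
      ∀ g, C1 (O ∩ V) g → P g) hg.1 ⟨∅, isOpen_empty, le_rfl, fun g e => ?_⟩
      (fun s t e ⟨V, v1, v2, v3⟩ => ⟨V, v1, e.trans v2, v3⟩) ?_ fun x hx => ?_
    · rwa [tsupport_eq_empty_iff.1 (subset_empty_iff.1 fun y hy => (e.2.2 hy).2)]
    · rintro s t ⟨V, v1, v2, v3⟩ ⟨V', w1, w2, w3⟩
      refine ⟨V ∪ V', v1.union w1, union_subset_union v2 w2, fun g e => ?_⟩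
      obtain ⟨χ, c1, c2, -⟩ := exists_contMDiffMap_zero_one_nhds_of_isClosed (n := 1) 𝓘(ℝ, R2)
        ((isClosed_tsupport g).sdiff v1) ((isClosed_tsupport g).sdiff w1)
        (disjoint_left.2 fun y a b => (e.2.2 a.1).2.elim a.2 b.2)
      have e' : C1 O g := ⟨e.1, e.2.1, e.2.2.trans inter_subset_left⟩
      have a1 := mul_c1 e' χ.contMDiff.contDiff c1
      have a2 := mul_c1 (χ := fun y => 1 - χ y) e' (contDiff_const.sub χ.contMDiff.contDiff)
        (c2.mono fun y hy => by rw [hy, sub_self])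
      convert h1 _ _ ⟨a1.1, a1.2.1, a1.2.2.trans inter_subset_left⟩
        ⟨a2.1, a2.2.1, a2.2.2.trans inter_subset_left⟩ (v3 _ a1) (w3 _ a2) using 1
      funext y
      simp only [Pi.add_apply]
      ring
    · obtain ⟨ε, ε0, h⟩ := h2 x (hg.2.2 hx)
      exact ⟨_, mem_nhdsWithin_of_mem_nhds (ball_mem_nhds x ε0), _, isOpen_ball, le_rfl, h⟩
  obtain ⟨V, -, v2, v3⟩ := key
  exact v3 g ⟨hg.1, hg.2.1, subset_inter hg.2.2 v2⟩

theorem integ {Y : Type} [NormedAddCommGroup Y] [NormedSpace ℂ Y] {O : Set R2} (hO : IsOpen O)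
    {g : R2 → ℝ} (hg : C1 O g) {G : R2 → Y} (hG : ContinuousOn G O) :
    Integrable fun y => (g y : ℂ) • G y := by
  have s : tsupport (fun y => (g y : ℂ) • G y) ⊆ tsupport g :=
    closure_mono fun y hy e => hy (by simp [e])
  exact (((continuous_ofReal.comp hg.2.1.continuous).continuousOn.smul
    hG).continuous_of_tsupport_subset hO (s.trans hg.2.2)).integrable_of_hasCompactSupport
    (hg.1.of_isClosed_subset (isClosed_tsupport _) s)

theorem isOpen_Bx (R : ℝ) : IsOpen (Bx R) := by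
  have : Bx R = ⋂ l, {y : R2 | |y l| < R} := by ext; simp [Bx]
  exact this ▸ isOpen_iInter_of_finite fun l => isOpen_lt (by fun_prop) continuous_const

end B2

namespace B3

variable {n : ℕ} {H : Type} [NormedAddCommGroup H] [InnerProductSpace ℂ H] [CompleteSpace H]

theorem prod_zero {f : Fin n → R2 → ℝ} {y : Fin n → R2} (h : y ∉ univ.pi fun i => tsupport (f i)) :
    ∏ i, (f i (y i) : ℂ) = 0 := by
  obtain ⟨i, hi⟩ := not_forall.1 (mt (fun e i _ => e i) h)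
  exact Finset.prod_eq_zero (Finset.mem_univ i) (by rw [image_eq_zero_of_notMem_tsupport hi]; rfl)

theorem intg {f : Fin n → R2 → ℝ} (hf : Adm f) {G : (Fin n → R2) → H}
    (hG : ContinuousOn G (univ.pi fun i => tsupport (f i))) :
    Integrable fun y => (∏ i, (f i (y i) : ℂ)) • G y := by
  refine (integrableOn_iff_integrable_of_support_subset (s := univ.pi fun i => tsupport (f i))
    fun y hy => by_contra fun e => hy (by simp only [prod_zero e, zero_smul])).1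
    (ContinuousOn.integrableOn_compact (isCompact_univ_pi fun i => (hf.1 i).1) (.smul ?_ hG))
  exact (continuous_finsetProd _ fun i _ => continuous_ofReal.comp
    ((hf.1 i).2.continuous.comp (continuous_apply i))).continuousOn

theorem euc_to {y : R2} (h : 0 < y 0) : euc y ∈ TO := TV.to h (euc_mem y)

theorem mem_ft {f : Fin n → R2 → ℝ} (ho : Ord f) (hp : ∀ i, tsupport (f i) ⊆ Hs 0 0)
    {y : Fin n → R2} (h : y ∈ univ.pi fun i => tsupport (f i)) : (fun i => euc (y i)) ∈ FT n :=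
  ⟨fun i => euc_to (hp i (h i trivial)), fun i j e => euc_sub (y j) (y i) ▸
    euc_to (sub_pos.2 (ho i j e _ (h i trivial) _ (h j trivial)))⟩

theorem cut {f : Fin (n + 1) → R2 → ℝ} (hf : Adm f) (ho : Ord f)
    (hp : ∀ i, tsupport (f i) ⊆ Hs 0 0) : ∃ b > (0 : ℝ), (∀ x ∈ tsupport (f 0), x 0 < b) ∧
      ∀ i : Fin n, ∀ y ∈ tsupport (f i.succ), b < y 0 := by
  obtain ⟨x, hx, hm⟩ := ((hf.1 0).1.isCompact.insert 0).exists_isMaxOn (insert_nonempty _ _)
    (f := fun y : R2 => y 0) (by fun_prop)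
  have h : ∀ᶠ b in 𝓝 (x 0), ∀ i : Fin n, ∀ y ∈ tsupport (f i.succ), b < y 0 :=
    eventually_all.2 fun i => (hf.1 _).1.isCompact.eventually_forall_of_forall_eventually
      fun y hy => (isOpen_lt (f := fun z : ℝ × R2 => z.1) (g := fun z => z.2 0) (by fun_prop)
        (by fun_prop)).mem_nhds (hx.elim (fun e => e ▸ hp _ hy) fun e => ho 0 _ i.succ_pos _ e _ hy)
  obtain ⟨b, h1, h2⟩ := ((h.filter_mono nhdsWithin_le_nhds).and
    (self_mem_nhdsWithin (s := Ioi (x 0)))).exists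
  exact ⟨b, (hm (mem_insert _ _)).trans_lt h2, fun y hy => (hm (mem_insert_of_mem _ hy)).trans_lt h2,
    h1⟩

theorem int_cons {G : (Fin (n + 1) → R2) → H} (hG : Integrable G) :
    ∫ x, G x = ∫ y : R2, ∫ x : Fin n → R2, G (Fin.cons y x) := by
  have m := (volume_preserving_piFinSuccAbove (fun _ : Fin (n + 1) => R2) 0).symm
  have e : ∀ p : R2 × (Fin n → R2), (MeasurableEquiv.piFinSuccAbove (fun _ => R2) 0).symm p =
      Fin.cons p.1 p.2 := fun p => by simp [MeasurableEquiv.piFinSuccAbove, Fin.consEquiv]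
  rw [← m.integral_comp']
  refine (integral_prod _ ((m.integrable_comp_emb (MeasurableEquiv.measurableEmbedding _)).2
    hG)).trans ?_
  simp only [Function.comp_def, e]

theorem Ord.sub {f : Fin n → R2 → ℝ} (ho : Ord f) (v : R2) : Ord fun i y => f i (y - v) :=
  fun i j e x hx y hy => by
    simpa using ho i j e _ (tsupport_comp (θ := fun y => y - v) (by fun_prop) hx) _
      (tsupport_comp (θ := fun y => y - v) (by fun_prop) hy)

end B3

namespace B4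

variable {n : ℕ}

theorem sep {φ : R2 → ℝ} (hφ : Continuous φ) {z : Fin n → R2} (h : StrictMono fun i => φ (z i)) :
    ∀ᶠ r in 𝓝[>] (0 : ℝ), ∀ i j, i < j → ∀ a ∈ ball (z i) r, ∀ b ∈ ball (z j) r, φ a < φ b := by
  refine eventually_all.2 fun i => eventually_all.2 fun j => eventually_imp_distrib_left.2 fun e => ?_
  have : ∀ᶠ p : R2 × R2 in 𝓝 (z i, z j), φ p.1 < φ p.2 :=
    (isOpen_lt (by fun_prop) (by fun_prop)).mem_nhds (h e)
  obtain ⟨r, r0, hr⟩ := Metric.eventually_nhds_iff_ball.1 this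
  filter_upwards [Ioo_mem_nhdsGT r0] with s hs a ha b hb
  refine hr (a, b) ?_
  rw [← ball_prod_same]
  exact ⟨ball_subset_ball hs.2.le ha, ball_subset_ball hs.2.le hb⟩

theorem tube {x : Fin n → R2} (h : ∀ i j, i < j → x i 0 < x j 0) :
    (fun i => euc (x i)) ∈ Tube n :=
  mem_tube.2 fun i j e => by
    rw [← euc_sub]
    exact TV.to (by simpa using h i j e) (euc_mem _)

theorem adm {f : Fin n → R2 → ℝ} (h : ∀ i, HasCompactSupport (f i) ∧ ContDiff ℝ 1 (f i))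
    (ho : Ord f) : Adm f :=
  ⟨h, fun i j e => Set.disjoint_left.2 fun x h1 h2 => by
    rcases lt_or_gt_of_ne e with e | e
    · exact lt_irrefl _ (ho i j e x h1 x h2)
    · exact lt_irrefl _ (ho j i e x h2 x h1)⟩

theorem int_perm (σ : Equiv.Perm (Fin n)) (G : (Fin n → R2) → ℂ) :
    ∫ x : Fin n → R2, G (fun i => x (σ i)) = ∫ x, G x :=
  (volume_measurePreserving_piCongrLeft (fun _ : Fin n => R2) σ).symm.integral_comp' G

end B4

end Pool.Agent.Lib.MP_7f377f_mp.W2
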