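import Mathlib

/-! Two dimensions: Minkowski space, nets of local algebras. -/

noncomputable section

namespace Pool.Agent.Lib.MP_7f377f_mp.W2

open MeasureTheory Filter Topology Set ComplexConjugate

/-- the plane -/
abbrev R2 : Type := EuclideanSpace ℝ (Fin 2)

/-- real matrices -/
abbrev Mat : Type := Matrix (Fin 2) (Fin 2) ℝ

/-- complex Minkowski space -/
abbrev C2 : Type := Fin 2 → ℂ

/-- Schwartz test functions -/
abbrev Tf : Type := SchwartzMap R2 ℂ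

/-- the Minkowski product -/
def mink (x y : R2) : ℝ := x 0 * y 0 - x 1 * y 1

/-- matrices act on vectors -/
def act (L : Mat) (x : R2) : R2 := WithLp.toLp 2 (L.mulVec x)

/-- proper orthochronous Lorentz matrices -/
def Lor (L : Mat) : Prop := (∀ x y, mink (act L x) (act L y) = mink x y) ∧ L.det = 1 ∧ 0 < L 0 0

/-- the imaginary part -/
def imv (z : C2) : R2 := WithLp.toLp 2 fun μ => (z μ).im

/-- the forward tube: the imaginary parts of the differences lie in the open forward cone -/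
def Tube (n : ℕ) : Set (Fin n → C2) := {z | ∀ i j, i < j →
  0 < imv (z j - z i) 0 ∧ 0 < mink (imv (z j - z i)) (imv (z j - z i))}

/-- Schwartz functions of `n` points -/
abbrev Sw (n : ℕ) : Type := SchwartzMap (Fin n → R2) ℂ

/-- continuously differentiable functions with pairwise disjoint compact supports -/
def Adm {k : ℕ} (f : Fin k → R2 → ℝ) : Prop :=
  (∀ i, HasCompactSupport (f i) ∧ ContDiff ℝ 1 (f i)) ∧
    Pairwise fun i j => Disjoint (tsupport (f i)) (tsupport (f j))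

theorem tsupport_comp {f : R2 → ℝ} {θ : R2 → R2} (hθ : Continuous θ) {y : R2}
    (h : y ∈ tsupport fun y => f (θ y)) : θ y ∈ tsupport f :=
  closure_minimal (t := θ ⁻¹' tsupport f) (fun _ hu => subset_tsupport _ hu)
    ((isClosed_tsupport _).preimage hθ) h

section
variable {k : ℕ}

theorem Adm.comp {f : Fin k → R2 → ℝ} (hf : Adm f) (θ : R2 ≃ₜ R2) (hθ : ContDiff ℝ 1 θ) :
    Adm fun i y => f i (θ y) :=
  ⟨fun i => ⟨(hf.1 i).1.comp_homeomorph θ, (hf.1 i).2.comp hθ⟩, fun _ _ hij =>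
    disjoint_left.2 fun _ h1 h2 => disjoint_left.1 (hf.2 hij) (tsupport_comp θ.continuous h1)
      (tsupport_comp θ.continuous h2)⟩

theorem Adm.add {f : Fin k → R2 → ℝ} (hf : Adm f) (v : R2) : Adm fun i y => f i (y + v) :=
  hf.comp (Homeomorph.addRight v) (contDiff_id.add contDiff_const)

/-- reflection of an axis -/
def rf (μ : Fin 2) (y : R2) : R2 := WithLp.toLp 2 (Function.update y μ (-y μ))

/-- a multiple of a basis vector -/
abbrev ax (μ : Fin 2) (t : ℝ) : R2 := EuclideanSpace.single μ t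

/-- half spaces -/
def Hs (μ : Fin 2) (t : ℝ) : Set R2 := {y | t < y μ}

/-- cubes -/
def Bx (R : ℝ) : Set R2 := {y | ∀ l, |y l| < R}

@[simp] theorem rf_self (μ : Fin 2) (y : R2) : rf μ y μ = -y μ := by simp [rf]

theorem rf_ne {μ l : Fin 2} (h : l ≠ μ) (y : R2) : rf μ y l = y l := by simp [rf, h]

@[simp] theorem abs_rf (μ l : Fin 2) (y : R2) : |rf μ y l| = |y l| := by
  by_cases h : l = μ <;> simp [rf, h]

@[simp] theorem rf_rf (μ : Fin 2) (y : R2) : rf μ (rf μ y) = y := by simp [rf]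

@[simp] theorem rf_ax (μ : Fin 2) (t : ℝ) : rf μ (ax μ t) = ax μ (-t) := by
  ext l
  by_cases h : l = μ <;> simp [rf, h]

@[simp] theorem rf_neg (μ : Fin 2) (y : R2) : rf μ (-y) = -rf μ y := by
  ext l
  by_cases h : l = μ <;> simp [rf, h]

theorem ax_add (μ : Fin 2) (s t : ℝ) : ax μ s + ax μ t = ax μ (s + t) := by
  ext l
  by_cases h : l = μ <;> simp [h]

@[simp] theorem ax_zero (μ : Fin 2) : ax μ 0 = 0 := by
  ext l
  by_cases h : l = μ <;> simp [h]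

theorem Bx.mono {R R' : ℝ} (h : R ≤ R') : Bx R ⊆ Bx R' := fun _ hy l => (hy l).trans_le h

/-- the reflection as a linear isometry -/
def rfL (μ : Fin 2) : R2 ≃ₗᵢ[ℝ] R2 := LinearIsometryEquiv.piLpCongrRight 2 fun l =>
  if l = μ then LinearIsometryEquiv.neg ℝ else LinearIsometryEquiv.refl ℝ ℝ

theorem rfL_eq (μ : Fin 2) : ⇑(rfL μ) = rf μ := by
  funext y
  ext l
  by_cases h : l = μ <;> simp [rf, rfL, h]

theorem adm_rf {f : Fin k → R2 → ℝ} (hf : Adm f) (μ : Fin 2) : Adm fun i y => f i (rf μ y) := by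
  have := hf.comp (rfL μ).toHomeomorph (rfL μ).contDiff
  rwa [LinearIsometryEquiv.coe_toHomeomorph, rfL_eq] at this

theorem adm_sub {f : Fin k → R2 → ℝ} (hf : Adm f) (v : R2) : Adm fun i y => f i (y - v) := by
  simpa only [sub_eq_add_neg] using hf.add (-v)

end

/-- a commutative algebra with translations, reflections and local subspaces -/
structure Net (P : Type) [CommRing P] [Algebra ℂ P] where
  τ : R2 → P →ₐ[ℂ] P
  Θ : Fin 2 → P →+* P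
  loc : Set R2 → Submodule ℂ P
  τ_zero : ∀ X, τ 0 X = X
  τ_τ : ∀ u v X, τ u (τ v X) = τ (u + v) X
  Θ_smul : ∀ μ (c : ℂ) X, Θ μ (c • X) = conj c • Θ μ X
  Θ_Θ : ∀ μ X, Θ μ (Θ μ X) = X
  Θ_comm : ∀ μ ν X, Θ μ (Θ ν X) = Θ ν (Θ μ X)
  Θ_τ : ∀ μ v X, Θ μ (τ v X) = τ (rf μ v) (Θ μ X)
  mono : ∀ {O O' X}, X ∈ loc O → O ⊆ O' → X ∈ loc O'
  one : ∀ O, 1 ∈ loc O
  mul : ∀ {O O' X Y}, X ∈ loc O → Y ∈ loc O' → Disjoint O O' → X * Y ∈ loc (O ∪ O')
  τ_mem : ∀ {O X} v, X ∈ loc O → τ v X ∈ loc {y | y - v ∈ O}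
  Θ_mem : ∀ {O X} μ, X ∈ loc O → Θ μ X ∈ loc {y | rf μ y ∈ O}
  bdd : ∀ {O X}, X ∈ loc O → ∃ R, X ∈ loc (O ∩ Bx R)

variable {P : Type} [CommRing P] [Algebra ℂ P] (N : Net P) (S : P →ₗ[ℂ] ℂ)

namespace Net

/-- the reflection positive quadratic form -/
def nq (μ : Fin 2) (X : P) : ℝ := (S (N.Θ μ X * X)).re

/-- translation invariant reflection positive functionals -/
structure St : Prop where
  one : S 1 = 1
  ti : ∀ {X} v, X ∈ N.loc univ → S (N.τ v X) = S X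
  herm : ∀ {X} μ, X ∈ N.loc univ → S (N.Θ μ X) = conj (S X)
  pos : ∀ {X} μ, X ∈ N.loc (Hs μ 0) → 0 ≤ N.nq S μ X
  con : ∀ {X v} μ, X ∈ N.loc (Hs μ 0) → 0 ≤ v μ → N.nq S μ (N.τ v X) ≤ N.nq S μ X

/-- the Osterwalder-Schrader representation -/
structure Rep (μ : Fin 2) (H : Type) [NormedAddCommGroup H] [InnerProductSpace ℂ H] where
  Ψ : P →ₗ[ℂ] H
  T : R2 → H →L[ℂ] H
  inn : ∀ {X Y}, X ∈ N.loc (Hs μ 0) → Y ∈ N.loc (Hs μ 0) → inner ℂ (Ψ X) (Ψ Y) = S (N.Θ μ X * Y)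
  dense : DenseRange fun X : N.loc (Hs μ 0) => Ψ X
  nrm : ∀ {v}, 0 ≤ v μ → ‖T v‖ ≤ 1
  act : ∀ {v X}, 0 ≤ v μ → X ∈ N.loc (Hs μ 0) → T v (Ψ X) = Ψ (N.τ v X)

variable {N S} {X Y b : P} {O : Set R2} {μ : Fin 2} {R c t : ℝ} {v : R2}

theorem adm (h : X ∈ N.loc O) : X ∈ N.loc univ := N.mono h (subset_univ _)

theorem τ_adm (v : R2) (h : X ∈ N.loc O) : N.τ v X ∈ N.loc univ := adm (N.τ_mem v h)

theorem Θ_adm (μ : Fin 2) (h : X ∈ N.loc O) : N.Θ μ X ∈ N.loc univ := adm (N.Θ_mem μ h)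

theorem box (h : X ∈ N.loc O) : ∀ᶠ R in atTop, X ∈ N.loc (O ∩ Bx R) :=
  let ⟨R, hR⟩ := N.bdd h
  (eventually_ge_atTop R).mono fun _ e => N.mono hR (inter_subset_inter_right _ (Bx.mono e))

theorem τ_hs (h : X ∈ N.loc (Hs μ t)) {t' : ℝ} (hv : t' ≤ t + v μ) : N.τ v X ∈ N.loc (Hs μ t') :=
  N.mono (N.τ_mem v h) fun y hy => by
    simp only [Hs, mem_ofPred_eq, PiLp.sub_apply] at hy ⊢
    linarith

theorem bx_hs (h : X ∈ N.loc (Bx R)) (μ : Fin 2) : X ∈ N.loc (Hs μ (-R)) :=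
  N.mono h fun _ hy => (abs_lt.1 (hy μ)).1

theorem Θ_bx (h : X ∈ N.loc (Bx R)) (μ : Fin 2) : N.Θ μ X ∈ N.loc (Bx R) :=
  N.mono (N.Θ_mem μ h) fun _ hy l => (abs_rf μ l _).symm.trans_lt (hy l)

theorem rp_adm (h : X ∈ N.loc (Hs μ 0)) (h' : Y ∈ N.loc (Hs μ 0)) :
    N.Θ μ X * Y ∈ N.loc univ :=
  adm (N.mul (N.Θ_mem μ h) h' (disjoint_left.2 fun y e e' => by
    simp only [Hs, mem_ofPred_eq, rf_self] at e e'
    linarith))

variable {H : Type} [NormedAddCommGroup H] [InnerProductSpace ℂ H] (r : N.Rep S μ H)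

theorem Rep.nq (h : X ∈ N.loc (Hs μ 0)) : N.nq S μ X = ‖r.Ψ X‖ ^ 2 := by
  rw [Net.nq, ← r.inn h h, ← inner_self_eq_norm_sq (𝕜 := ℂ)]
  rfl

theorem Rep.le (hv : 0 ≤ v μ) (h : X ∈ N.loc (Hs μ 0)) : ‖r.Ψ (N.τ v X)‖ ≤ ‖r.Ψ X‖ := by
  rw [← r.act hv h]
  exact ((r.T v).le_of_opNorm_le (r.nrm hv) _).trans_eq (one_mul _)

theorem Rep.one (hS : N.St S) : ‖r.Ψ 1‖ = 1 := by
  rw [← sq_eq_sq₀ (norm_nonneg _) zero_le_one, ← r.nq (N.one _), Net.nq, map_one, mul_one, hS.one]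
  simp

theorem Rep.vac (h : X ∈ N.loc (Hs μ 0)) : inner ℂ (r.Ψ 1) (r.Ψ X) = S X := by
  rw [r.inn (N.one _) h, map_one, one_mul]

theorem Rep.shift (hS : N.St S) (h : N.τ (-rf μ v) (N.Θ μ X) ∈ N.loc (Hs μ 0))
    (h' : N.τ (-v) Y ∈ N.loc (Hs μ 0)) :
    S (X * Y) = inner ℂ (r.Ψ (N.τ (-rf μ v) (N.Θ μ X))) (r.Ψ (N.τ (-v) Y)) := by
  rw [r.inn h h', ← hS.ti v (rp_adm h h'), map_mul (N.τ v), N.Θ_τ, N.Θ_Θ, N.τ_τ, N.τ_τ, rf_neg, rf_rf,
    add_neg_cancel, N.τ_zero, N.τ_zero]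

theorem Rep.adj (hS : N.St S) (hv : 0 ≤ v μ) (x y : H) :
    inner ℂ (r.T v x) y = inner ℂ x (r.T (-rf μ v) y) := by
  have hw : 0 ≤ (-rf μ v) μ := by simpa using hv
  refine r.dense.induction_on₂ (p := fun x y => inner ℂ (r.T v x) y = inner ℂ x (r.T (-rf μ v) y))
    (isClosed_eq (by fun_prop) (by fun_prop)) ?_ x y
  rintro ⟨X, hX⟩ ⟨Y, hY⟩
  have h1 := τ_hs (t' := 0) (v := v) hX (by linarith)
  rw [r.act hv hX, r.act hw hY, r.inn h1 hY, r.shift (v := rf μ v) hS (by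
    rwa [rf_rf, N.Θ_Θ, N.τ_τ, neg_add_cancel, N.τ_zero]) (τ_hs hY (by linarith)), rf_rf, N.Θ_Θ,
    N.τ_τ, neg_add_cancel, N.τ_zero]

end Net

end Pool.Agent.Lib.MP_7f377f_mp.W2
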