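import Pool.Agent.Lib.MP_7f377f_mp.G.XTool

/-! Two dimensions: the point field. -/

noncomputable section

namespace Pool.Agent.Lib.MP_7f377f_mp.W2

open MeasureTheory Filter Topology Set Complex Metric
open scoped NNReal ContDiff

namespace PC

/-- the complex linear extension of `euc` -/
def eucC (v : C2) : C2 := fun μ => (if μ = 0 then I else 1) * v μ

theorem eucC_add_rl (v : C2) (u : R2) : eucC (v + rl u) = eucC v + euc u := by
  ext μ
  by_cases h : μ = 0 <;> simp [eucC, euc, rl, h, mul_add]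

@[simp] theorem eucC_zero : eucC 0 = 0 := by ext; simp [eucC]

theorem norm_eucC (v : C2) : ‖eucC v‖ ≤ ‖v‖ :=
  (pi_norm_le_iff_of_nonneg (norm_nonneg _)).2 fun μ => by
    have := norm_le_pi_norm v μ
    by_cases h : μ = 0 <;> simpa [eucC, h] using this

theorem diff_eucC : Differentiable ℂ eucC := by
  unfold eucC
  fun_prop

theorem small {z : C2} {r : ℝ} (h : ‖z‖ ≤ r) : z ∈ TV (-(4 * r)) := by
  have h1 := le_mg (imv z)
  have h2 := norm_imv z
  change _ ≤ mg (imv z)
  linarith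

theorem mem_add {v : C2} {r t : ℝ} (h : v ∈ ball (0 : C2) r) : ie t + eucC v ∈ TV (t - 4 * r) :=
  TV.add (ie_mem t) (small ((norm_eucC v).trans (mem_ball_zero_iff.1 h).le))

theorem mem_sub {v : C2} {r t : ℝ} (h : v ∈ ball (0 : C2) r) : ie t - eucC v ∈ TV (t - 4 * r) := by
  rw [sub_eq_add_neg]
  exact TV.add (ie_mem t) (small ((norm_neg _).trans_le
    ((norm_eucC v).trans (mem_ball_zero_iff.1 h).le)))

theorem ie_add_euc (t : ℝ) (x : R2) : ie t + euc x = euc (t • e0 + x) := (euc_add _ _).symm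

theorem ie_sub_euc (t : ℝ) (x : R2) : ie t - euc x = euc (t • e0 - x) := (euc_sub _ _).symm

theorem ie_sub (s t : ℝ) : ie (s - t) = ie s - ie t := by
  rw [eq_sub_iff_add_eq, ← ie_add, sub_add_cancel]

theorem add_euc_mem (t : ℝ) (x : R2) : ie t + euc x ∈ TV (t + x 0) := TV.add (ie_mem t) (euc_mem x)

theorem sub_euc_mem (t : ℝ) (x : R2) : ie t - euc x ∈ TV (t - x 0) := by
  simpa [ie_sub_euc] using euc_mem (t • e0 - x)

theorem isOpen_Bx (r : ℝ) : IsOpen (Bx r) := by
  have : Bx r = ⋂ l, {y : R2 | |y l| < r} := by ext; simp [Bx]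
  rw [this]
  exact isOpen_iInter_of_finite fun l => isOpen_lt (by fun_prop) continuous_const

theorem zero_mem {r : ℝ} (h : 0 < r) : (0 : R2) ∈ Bx r := fun _ => by simpa using h

theorem c1_mono {O O' : Set R2} {g : R2 → ℝ} (h : C1 O g) (e : O ⊆ O') : C1 O' g :=
  ⟨h.1, h.2.1, h.2.2.trans e⟩

theorem c1_comp {O O' : Set R2} {g : R2 → ℝ} (h : C1 O g) (φ : R2 ≃ₜ R2) (hφ : ContDiff ℝ 1 φ)
    (e : ∀ y, φ y ∈ O → y ∈ O') : C1 O' fun y => g (φ y) :=
  ⟨h.1.comp_homeomorph φ, h.2.1.comp hφ, fun y hy =>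
    e y (h.2.2 (tsupport_comp_subset_preimage g φ.continuous hy))⟩

/-- the reflection of time -/
def rfI : R2 ≃ₗᵢ[ℝ] R2 := LinearIsometryEquiv.piLpCongrRight 2 fun l =>
  if l = 0 then LinearIsometryEquiv.neg ℝ else LinearIsometryEquiv.refl ℝ ℝ

theorem rfI_eq (y : R2) : rfI y = rf 0 y := by
  ext l
  by_cases h : l = 0 <;> simp [rf, rfI, h]

theorem integ {X : Type} [NormedAddCommGroup X] [NormedSpace ℂ X] {O : Set R2} {g : R2 → ℝ}
    (h : C1 O g) {a : R2 → X} (ha : ContinuousOn a O) : Integrable fun y => (g y : ℂ) • a y := by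
  refine (integrableOn_iff_integrable_of_support_subset (s := tsupport g) fun y hy => ?_).1
    (ContinuousOn.integrableOn_compact h.1 (.smul ?_ (ha.mono h.2.2)))
  · refine subset_tsupport _ fun e => hy ?_
    simp [e]
  · exact (continuous_ofReal.comp h.2.1.continuous).continuousOn

variable {H : Type} [NormedAddCommGroup H] [InnerProductSpace ℂ H] [CompleteSpace H]
  {E : C2 → H →L[ℂ] H} {M : ℝ → (R2 → ℝ) → H →L[ℂ] H} {K : ℝ} (hE : Tub E) (hM : Smear E M K)
include hE hM

theorem dist {d c : ℝ} (hd : d ∈ Ioc (0 : ℝ) 1) (hc : ∀ g (L : ℝ≥0), C1 (Bx d) g →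
    LipschitzWith L g → ‖M d g‖ ≤ c * L) :
    Dist (d / 8) c fun g v => E (ie d + eucC v) * M d g * E (ie d - eucC v) := by
  have d0 := hd.1
  have sub : Bx (d / 8) ⊆ Bx d := Bx.mono (by linarith)
  refine ⟨fun g g' t h h' v _ => ?_, fun g L h hL v hv => ?_, fun g _ => ?_,
    fun g u h h' v hv hv' => ?_⟩
  · rw [hM.lin d hd g g' t (c1_mono h sub) (c1_mono h' sub)]
    simp only [mul_add, add_mul, mul_smul_comm, smul_mul_assoc]
  · have h1 := hE.nrm _ (TV.mono (by linarith) (mem_add (t := d) hv))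
    have h2 := hE.nrm _ (TV.mono (by linarith) (mem_sub (t := d) hv))
    have h3 := hc g L (c1_mono h sub) hL
    refine (norm_mul₃_le ..).trans (le_trans ?_ h3)
    calc _ ≤ 1 * ‖M d g‖ * 1 := by gcongr
      _ = _ := by ring
  · have := diff_eucC
    refine .mul (.mul_const (hE.hol.comp (by fun_prop) fun v hv => ?_) _)
      (hE.hol.comp (by fun_prop) fun v hv => ?_)
    · exact TV.to (by linarith) (mem_add (t := d) hv)
    · exact TV.to (by linarith) (mem_sub (t := d) hv)
  · have hu : |u 0| ≤ d / 4 := by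
      have h1 := norm_le_pi_norm (rl u) 0
      have h2 := norm_sub_le (v + rl u) v
      rw [add_sub_cancel_left] at h2
      have h3 := mem_ball_zero_iff.1 hv
      have h4 := mem_ball_zero_iff.1 hv'
      simp only [rl, norm_real, Real.norm_eq_abs] at h1
      change |u 0| ≤ ‖rl u‖ at h1
      linarith
    have hu := abs_le.1 hu
    have key := hM.cov d hd d hd g u ((d / 2) • e0 + u) ((d / 2) • e0 - u) ((d / 2) • e0)
      ((d / 2) • e0) (c1_mono h sub) (c1_mono h' sub) (by simp; linarith) (by simp; linarith)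
      (by simp; linarith) (by simp; linarith) (by abel) (by abel)
    have m1 : ie (d / 2) + eucC v ∈ TV 0 := TV.mono (by linarith) (mem_add (t := d / 2) hv)
    have m2 : ie (d / 2) - eucC v ∈ TV 0 := TV.mono (by linarith) (mem_sub (t := d / 2) hv)
    have m3 : ie (d / 2) ∈ TV 0 := TV.mono (by linarith) (ie_mem _)
    have m4 : ie (d / 2) + euc u ∈ TV 0 := TV.mono (by linarith) (add_euc_mem _ u)
    have m5 : ie (d / 2) - euc u ∈ TV 0 := TV.mono (by linarith) (sub_euc_mem _ u)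
    have e : ie d = ie (d / 2) + ie (d / 2) := by rw [← ie_add, add_halves]
    rw [← ie_add_euc, ← ie_sub_euc] at key
    change _ = E (ie (d / 2)) * _ * E (ie (d / 2)) at key
    have e1 : ie d + eucC v = (ie (d / 2) + eucC v) + ie (d / 2) := by rw [e]; abel
    have e2 : ie d - eucC v = ie (d / 2) + (ie (d / 2) - eucC v) := by rw [e]; abel
    have e3 : ie d + eucC (v + rl u) = (ie (d / 2) + eucC v) + (ie (d / 2) + euc u) := by
      rw [e, eucC_add_rl]; abel
    have e4 : ie d - eucC (v + rl u) = (ie (d / 2) - euc u) + (ie (d / 2) - eucC v) := by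
      rw [e, eucC_add_rl]; abel
    rw [e1, e2, e3, e4, hE.mul _ m1 _ m3, hE.mul _ m3 _ m2, hE.mul _ m1 _ m4, hE.mul _ m5 _ m2]
    calc _ = E (ie (d / 2) + eucC v) * (E (ie (d / 2)) * M d (fun y => g (y - u)) *
          E (ie (d / 2))) * E (ie (d / 2) - eucC v) := by simp only [mul_assoc]
      _ = _ := by rw [← key]; simp only [mul_assoc]

variable {a : ℝ → R2 → H →L[ℂ] H}
  (h1 : ∀ d ∈ Ioc (0 : ℝ) 1, ContinuousOn (a d) (Bx (d / 32)))
  (h2 : ∀ d ∈ Ioc (0 : ℝ) 1, ∀ g, C1 (Bx (d / 32)) g →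
    E (ie d) * M d g * E (ie d) = ∫ x, (g x : ℂ) • a d x)
include h1 h2

theorem rel {d d' : ℝ} (hd : d ∈ Ioc (0 : ℝ) 1) (hd' : d' ∈ Ioc (0 : ℝ) 1) {x : R2}
    (hx : x ∈ Bx (d / 32)) (ht : |x 0| ≤ (K + 1) * (d - d')) :
    a d x = E (ie ((K + 1) * (d - d')) + euc x) * a d' 0 * E (ie ((K + 1) * (d - d')) - euc x) := by
  have d0 := hd.1
  have d0' := hd'.1
  have ht := abs_le.1 ht
  set t := (K + 1) * (d - d') with e
  have ev : ∀ᶠ y in 𝓝 (0 : R2), y ∈ Bx (d' / 32) ∧ y + x ∈ Bx (d / 32) :=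
    .and ((isOpen_Bx _).mem_nhds (zero_mem (by linarith)))
      ((by fun_prop : Continuous fun y : R2 => y + x).continuousAt.eventually
        ((isOpen_Bx _).mem_nhds (by simpa using hx)))
  obtain ⟨r, r0, hr⟩ := Metric.eventually_nhds_iff_ball.1 ev
  have m1 : ie t + euc x ∈ TV 0 := TV.mono (by linarith) (add_euc_mem _ x)
  have m2 : ie t - euc x ∈ TV 0 := TV.mono (by linarith) (sub_euc_mem _ x)
  have m3 : ie d' ∈ TV 0 := TV.mono d0'.le (ie_mem _)
  have := pt_eq1 (G := fun y => a d (y + x))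
    (G' := fun y => E (ie t + euc x) * a d' y * E (ie t - euc x)) r0
    ((h1 d hd).comp (by fun_prop) fun y hy => (hr y hy).2)
    ((continuousOn_const.mul ((h1 d' hd').mono fun y hy => (hr y hy).1)).mul continuousOn_const)
    fun f f1 f2 f3 => by
      have c0 : C1 (ball 0 r) f := ⟨f1, f2.of_le (by norm_cast), f3⟩
      have c1 : C1 (Bx (d' / 32)) f := c1_mono c0 fun y hy => (hr y hy).1
      have c2 : C1 (Bx (d / 32)) fun y => f (y - x) :=
        c1_comp c0 (Homeomorph.subRight x) (contDiff_id.sub contDiff_const) fun y hy => by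
          simpa using (hr _ hy).2
      have key := hM.cov d' hd' d hd f x ((t + d') • e0 + x) ((t + d') • e0 - x) (d • e0) (d • e0)
        (c1_mono c1 (Bx.mono (by linarith))) (c1_mono c2 (Bx.mono (by linarith)))
        (by simp; linarith) (by simp; linarith) (by simp; linarith) (by simp; linarith)
        (by rw [e]; module) (by rw [e]; module)
      rw [← ie_add_euc, ← ie_sub_euc] at key
      change _ = E (ie d) * _ * E (ie d) at key
      rw [h2 d hd _ c2, ← integral_add_right_eq_self _ x] at key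
      simp only [add_sub_cancel_right] at key
      rw [← key, show ie (t + d') + euc x = (ie t + euc x) + ie d' by rw [ie_add]; abel,
        show ie (t + d') - euc x = ie d' + (ie t - euc x) by rw [ie_add]; abel,
        hE.mul _ m1 _ m3, hE.mul _ m3 _ m2]
      have := (ContinuousLinearMap.mulLeftRight ℂ (H →L[ℂ] H) (E (ie t + euc x))
        (E (ie t - euc x))).integral_comp_comm (integ c1 (h1 d' hd'))
      simp only [map_smul, ContinuousLinearMap.mulLeftRight_apply, ← h2 d' hd' f c1] at this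
      rw [this]
      simp only [mul_assoc]
  simpa using this

theorem sa {d : ℝ} (hd : d ∈ Ioc (0 : ℝ) 1) (x z : H) :
    inner ℂ (a d 0 x) z = inner ℂ x (a d 0 z) := by
  have d0 := hd.1
  obtain ⟨r, r0, hr⟩ := Metric.isOpen_iff.1 (isOpen_Bx (d / 32)) 0 (zero_mem (by linarith))
  have rb : ∀ y, y ∈ Bx (d / 32) → rf 0 y ∈ Bx (d / 32) := fun y hy l => (abs_rf 0 l y).trans_lt (hy l)
  have cr : Continuous (rf 0) := rfI.continuous.congr rfI_eq
  have m3 : ie d ∈ TV 0 := TV.mono d0.le (ie_mem _)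
  have := pt_eq1 (G := fun y => inner ℂ z (a d y x))
    (G' := fun y => inner ℂ (a d (rf 0 y) z) x) r0
    (ContinuousOn.inner (𝕜 := ℂ) continuousOn_const (((h1 d hd).mono hr).clm_apply continuousOn_const))
    (ContinuousOn.inner (𝕜 := ℂ) (((h1 d hd).comp cr.continuousOn fun y hy => rb y (hr hy)).clm_apply
      continuousOn_const) continuousOn_const)
    fun f f1 f2 f3 => by
      have c1 : C1 (Bx (d / 32)) f := ⟨f1, f2.of_le (by norm_cast), f3.trans hr⟩
      have c2 : C1 (Bx (d / 32)) fun y => f (rf 0 y) := by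
        simpa only [LinearIsometryEquiv.coe_toHomeomorph, rfI_eq] using
          c1_comp c1 rfI.toHomeomorph rfI.contDiff fun y hy => by
            simpa [rfI_eq] using rb _ hy
      have k : ∀ g, C1 (Bx (d / 32)) g → ∀ x z, ∫ y, (g y : ℂ) • inner ℂ z (a d y x) =
          inner ℂ z (E (ie d) (M d g (E (ie d) x))) := fun g hg x z => by
        have := ((innerSL ℂ z).comp (ContinuousLinearMap.apply ℂ H x)).integral_comp_comm
          (integ hg (h1 d hd))
        rw [← h2 d hd g hg] at this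
        simpa using this
      have e1 : ∀ u w, inner ℂ (E (ie d) u) w = inner ℂ u (E (ie d) w) := fun u w => by
        rw [hE.adj _ m3, star_ie, neg_neg]
      rw [k f c1, ← inner_conj_symm, e1, hM.adj d hd f (c1_mono c1 (Bx.mono (by linarith))), e1,
        ← k _ c2, ← integral_conj, ← rfI.measurePreserving.integral_comp
          rfI.toHomeomorph.measurableEmbedding]
      simp [rfI_eq]
  have e : rf 0 (0 : R2) = 0 := by rw [← rfI_eq, map_zero]
  simp only [e] at this
  rw [← inner_conj_symm, this, inner_conj_symm]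

/-- the largest admissible regularisation -/
def dl (K : ℝ) (z w : C2) : ℝ := min 1 (min (mg (imv z)) (mg (imv w)) / (K + 1))

/-- the point field -/
def A (E : C2 → H →L[ℂ] H) (a : ℝ → R2 → H →L[ℂ] H) (K : ℝ) (z w : C2) : H →L[ℂ] H :=
  E (z - ie ((K + 1) * dl K z w)) * a (dl K z w) 0 * E (w - ie ((K + 1) * dl K z w))

theorem A_eq {d : ℝ} (hd : d ∈ Ioc (0 : ℝ) 1) {z w : C2} (hz : z ∈ TV ((K + 1) * d))
    (hw : w ∈ TV ((K + 1) * d)) :
    A E a K z w = E (z - ie ((K + 1) * d)) * a d 0 * E (w - ie ((K + 1) * d)) := by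
  have k0 : 0 < K + 1 := by linarith [hM.one]
  have l1 : d ≤ dl K z w := le_min hd.2 ((le_div_iff₀' k0).2 (le_min hz hw))
  have l2 : (K + 1) * dl K z w ≤ min (mg (imv z)) (mg (imv w)) :=
    (le_div_iff₀' k0).1 (min_le_right _ _)
  have l3 : 0 ≤ (K + 1) * (dl K z w - d) := mul_nonneg k0.le (sub_nonneg.2 l1)
  have m1 : z - ie ((K + 1) * dl K z w) ∈ TV 0 := by
    simpa using sub_ie_mem (t := (K + 1) * dl K z w) (l2.trans (min_le_left _ _))
  have m2 : w - ie ((K + 1) * dl K z w) ∈ TV 0 := by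
    simpa using sub_ie_mem (t := (K + 1) * dl K z w) (l2.trans (min_le_right _ _))
  have m3 : ie ((K + 1) * (dl K z w - d)) ∈ TV 0 := TV.mono l3 (ie_mem _)
  have := rel hE hM h1 h2 ⟨hd.1.trans_le l1, min_le_left _ _⟩ hd
    (zero_mem (by linarith [hd.1])) (by simpa using l3)
  rw [A, this, euc_zero, add_zero, sub_zero, ← mul_assoc, ← mul_assoc, ← hE.mul _ m1 _ m3, mul_assoc,
    ← hE.mul _ m3 _ m2, mul_sub, ie_sub]
  congr 2
  · congr 1
    abel
  · abel

omit hE hM h1 h2 in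
theorem ex_d (K : ℝ) {z w : C2} (hz : z ∈ TO) (hw : w ∈ TO) : ∃ d ∈ Ioc (0 : ℝ) 1,
    (K + 1) * d < mg (imv z) ∧ (K + 1) * d < mg (imv w) := by
  have c : Tendsto (fun d : ℝ => (K + 1) * d) (𝓝[>] 0) (𝓝 0) :=
    Tendsto.mono_left (by simpa using (tendsto_id (x := 𝓝 (0 : ℝ))).const_mul (K + 1))
      nhdsWithin_le_nhds
  exact (Eventually.and (Ioc_mem_nhdsGT one_pos)
    ((c.eventually_lt_const hz).and (c.eventually_lt_const hw))).exists

theorem pt {C : ℝ} {N : ℕ} (C0 : 0 ≤ C) (h3 : ∀ d ∈ Ioc (0 : ℝ) 1, ‖a d 0‖ ≤ C / d ^ N) :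
    Pt E (A E a K) := by
  have k1 : 1 ≤ K + 1 := by linarith [hM.one]
  have sub : ∀ {z : C2} {t : ℝ}, z ∈ TV t → z - ie t ∈ TV 0 := fun {z t} h => by
    simpa using sub_ie_mem (t := t) h
  refine ⟨fun p hp => ?_, ⟨C * (K + 1) ^ N, N, by positivity, fun δ hδ z hz w hw => ?_⟩,
    fun z hz w hw u hu => ?_, fun z hz w hw x y => ?_⟩
  · obtain ⟨d, hd, l1, l2⟩ := ex_d K hp.1 hp.2
    have o : ∀ {z : C2}, (K + 1) * d < mg (imv z) →
        DifferentiableAt ℂ E (z - ie ((K + 1) * d)) := fun {z} h =>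
      hE.hol.differentiableAt (isOpen_TO.mem_nhds (TV.to (sub_pos.2 h) (sub_ie_mem (le_refl (mg (imv z))))))
    have : DifferentiableAt ℂ (fun q : C2 × C2 =>
        E (q.1 - ie ((K + 1) * d)) * a d 0 * E (q.2 - ie ((K + 1) * d))) p :=
      (((o l1).comp p (f := fun q : C2 × C2 => q.1 - ie ((K + 1) * d)) (by fun_prop)).mul_const
        _).mul ((o l2).comp p (f := fun q : C2 × C2 => q.2 - ie ((K + 1) * d)) (by fun_prop))
    refine (this.congr_of_eventuallyEq ?_).differentiableWithinAt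
    filter_upwards [(by fun_prop : Continuous fun q : C2 × C2 =>
      mg (imv q.1)).continuousAt.eventually_const_lt l1, (by fun_prop : Continuous fun q : C2 × C2 =>
      mg (imv q.2)).continuousAt.eventually_const_lt l2] with q q1 q2
    exact A_eq hE hM h1 h2 hd q1.le q2.le
  · have hd : δ / (K + 1) ∈ Ioc (0 : ℝ) 1 :=
      ⟨div_pos hδ.1 (by linarith), (div_le_self hδ.1.le k1).trans hδ.2⟩
    have e : (K + 1) * (δ / (K + 1)) = δ := by field_simp
    rw [A_eq hE hM h1 h2 hd (e.symm ▸ hz) (e.symm ▸ hw), e]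
    have n1 := hE.nrm _ (sub hz)
    have n2 := hE.nrm _ (sub hw)
    have n3 := h3 _ hd
    have := hδ.1
    calc _ ≤ _ := norm_mul₃_le ..
      _ ≤ 1 * (C / (δ / (K + 1)) ^ N) * 1 := by gcongr
      _ = _ := by rw [div_pow]; field_simp
  · obtain ⟨d, hd, l1, l2⟩ := ex_d K hz hw
    rw [A_eq hE hM h1 h2 hd l1.le l2.le,
      A_eq hE hM h1 h2 hd (by simpa using TV.add hu (show z ∈ TV _ from l1.le)) l2.le,
      A_eq hE hM h1 h2 hd l1.le (by simpa using TV.add (show w ∈ TV _ from l2.le) hu),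
      ← mul_assoc, ← mul_assoc, ← hE.mul _ hu _ (sub l1.le), mul_assoc _ _ (E u),
      ← hE.mul _ (sub l2.le) _ hu, add_sub_assoc, sub_add_eq_add_sub]
    exact ⟨rfl, rfl⟩
  · obtain ⟨d, hd, l1, l2⟩ := ex_d K hz hw
    have e : ∀ (z : C2) (t : ℝ), -star (z - ie t) = -star z - ie t := fun z t => by
      rw [star_sub, star_ie]; abel
    rw [A_eq hE hM h1 h2 hd l1.le l2.le,
      A_eq hE hM h1 h2 hd (neg_star_mem l2.le) (neg_star_mem l1.le)]
    simp only [mul_apply_eq_comp]
    rw [hE.adj _ (sub l1.le), sa hE hM h1 h2 hd, hE.adj _ (sub l2.le), e, e]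

theorem den : Den E M K (A E a K) := fun d hd g hg x => by
  have d0 := hd.1
  have k1 := hM.one
  have := congrArg (fun T : H →L[ℂ] H => T x) (h2 d hd g hg)
  simp only [mul_apply_eq_comp] at this
  rw [this, ContinuousLinearMap.integral_apply (integ hg (h1 d hd))]
  refine integral_congr_ae (.of_forall fun y => ?_)
  by_cases h : g y = 0
  · simp [h]
  have hy : y ∈ Bx (d / 32) := hg.2.2 (subset_tsupport _ h)
  have y0 := abs_lt.1 (hy 0)
  have hd' : d / 2 ∈ Ioc (0 : ℝ) 1 := ⟨by linarith, by linarith [hd.2]⟩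
  have l : d ≤ (K + 1) * (d / 2) := by nlinarith
  simp only [smul_apply]
  rw [rel hE hM h1 h2 hd hd' hy (by rw [show d - d / 2 = d / 2 by ring]; linarith [hy 0]),
    A_eq hE hM h1 h2 hd' (TV.mono (by linarith) (add_euc_mem _ y))
      (TV.mono (by linarith) (sub_euc_mem _ y)), mul_sub, ie_sub]
  congr 4
  · congr 1
    abel
  · abel

end PC

open PC in
theorem sC_of (h : S_Dens) : S_C := by
  intro H _ _ _ E M K hE hM
  obtain ⟨C, N, C0, h⟩ := h
  obtain ⟨C', s, C1, hb⟩ := hM.bd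
  have key := fun d (hd : d ∈ Ioc (0 : ℝ) 1) => h (H →L[ℂ] H) (C' / d ^ s) _ (d / 8)
    ⟨by linarith [hd.1], by linarith [hd.2]⟩ (by have := hd.1; positivity)
    (PC.dist hE hM hd (hb d hd))
  choose! a a1 a2 a3 using key
  have e : ∀ d : ℝ, d / 8 / 4 = d / 32 := fun d => by ring
  simp only [e, eucC_zero, add_zero, sub_zero] at a1 a2 a3
  refine ⟨_, pt hE hM a1 a3 (C := C * C' * 8 ^ N) (N := s + N) (by positivity) fun d hd => ?_,
    den hE hM a1 a3⟩
  have := hd.1
  refine (a2 d hd 0 (zero_mem (by linarith))).trans_eq ?_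
  rw [div_pow, pow_add]
  field_simp

end Pool.Agent.Lib.MP_7f377f_mp.W2
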