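import Pool.Agent.Lib.MP_7f377f_mp.G.XBase

/-! Two dimensions: definitions and elementary geometry of tubes. -/

noncomputable section

namespace Pool.Agent.Lib.MP_7f377f_mp.W2

open MeasureTheory Filter Topology Set Complex Matrix
open scoped NNReal

/-- the time direction -/
def e0 : R2 := EuclideanSpace.single 0 1

/-- the spatial part -/
def sp (y : R2) : R2 := y - y 0 • e0

/-- the margin in the forward cone -/
def mg (y : R2) : ℝ := y 0 - ‖sp y‖

/-- real points -/
def rl (x : R2) : C2 := fun μ => x μ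

/-- `x + i y` -/
def cx (x y : R2) : C2 := fun μ => x μ + y μ * I

/-- `x + i y` for several points -/
def cxn {n : ℕ} (x y : Fin n → R2) : Fin n → C2 := fun i => cx (x i) (y i)

/-- Euclidean points -/
def euc (y : R2) : C2 := fun μ => if μ = 0 then I * y μ else y μ

/-- imaginary times -/
def ie (t : ℝ) : C2 := euc (t • e0)

/-- closed tubes with a margin -/
def TV (δ : ℝ) : Set C2 := {z | δ ≤ mg (imv z)}

/-- the open tube -/
def TO : Set C2 := {z | 0 < mg (imv z)}

/-- the tube of the vector valued functions -/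
def FT (n : ℕ) : Set (Fin n → C2) := {z | (∀ i, z i ∈ TO) ∧ ∀ i j, i < j → z j - z i ∈ TO}

/-- the same with a margin -/
def FTd (n : ℕ) (δ : ℝ) : Set (Fin n → C2) :=
  {z | (∀ i, z i ∈ TV δ) ∧ ∀ i j, i < j → z j - z i ∈ TV δ}

/-- real matrices act on complex vectors -/
def cact (L : Mat) (z : C2) : C2 := (L.map (↑)) *ᵥ z

/-- Euclidean rotations in Minkowski coordinates -/
def wick (R : Mat) : Matrix (Fin 2) (Fin 2) ℂ :=
  Matrix.of fun μ ν => (if μ = 0 then I else 1) * R μ ν * (if ν = 0 then -I else 1)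

@[simp] theorem e0_zero : e0 0 = 1 := by simp [e0]

theorem e0_ne {μ : Fin 2} (h : μ ≠ 0) : e0 μ = 0 := by simp [e0, h]

theorem smul_e0 (t : ℝ) : t • e0 = ax 0 t := by
  ext l
  by_cases h : l = 0 <;> simp [e0, h]

theorem sp_add (x y : R2) : sp (x + y) = sp x + sp y := by
  simp only [sp, PiLp.add_apply, add_smul]
  abel

theorem sp_smul (t : ℝ) (x : R2) : sp (t • x) = t • sp x := by
  simp only [sp, PiLp.smul_apply, smul_eq_mul, smul_sub, smul_smul]

theorem sp_e0 : sp e0 = 0 := by simp [sp]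

theorem sp_zero (x : R2) : sp x 0 = 0 := by simp [sp]

theorem sp_ne (x : R2) {μ : Fin 2} (h : μ ≠ 0) : sp x μ = x μ := by simp [sp, e0_ne h]

theorem sp_sq (y : R2) : ‖sp y‖ ^ 2 = y 1 ^ 2 := by
  rw [EuclideanSpace.real_norm_sq_eq, Fin.sum_univ_two, sp_zero, sp_ne _ (by decide)]
  ring

theorem mink_self (y : R2) : mink y y = y 0 ^ 2 - ‖sp y‖ ^ 2 := by
  rw [sp_sq, mink]
  ring

theorem mg_add (x y : R2) : mg x + mg y ≤ mg (x + y) := by
  have := norm_add_le (sp x) (sp y)
  simp only [mg, sp_add, PiLp.add_apply]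
  linarith

theorem mg_smul {t : ℝ} (h : 0 ≤ t) (x : R2) : mg (t • x) = t * mg x := by
  simp only [mg, sp_smul, norm_smul, Real.norm_of_nonneg h, PiLp.smul_apply, smul_eq_mul, mul_sub]

theorem mg_add_e0 (x : R2) (t : ℝ) : mg (x + t • e0) = mg x + t := by
  simp only [mg, sp_add, sp_smul, sp_e0, smul_zero, add_zero, PiLp.add_apply, PiLp.smul_apply,
    e0_zero, smul_eq_mul, mul_one]
  ring

@[simp] theorem mg_zero : mg 0 = 0 := by simp [mg, sp]

@[simp] theorem mg_e0 (t : ℝ) : mg (t • e0) = t := by simpa using mg_add_e0 0 t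

theorem mg_le (x : R2) : mg x ≤ x 0 := sub_le_self _ (norm_nonneg _)

theorem le_mg (x : R2) : -(2 * ‖x‖) ≤ mg x := by
  have h1 := (abs_le.1 (PiLp.norm_apply_le x 0)).1
  have h2 : ‖sp x‖ ≤ ‖x‖ := by
    refine le_of_sq_le_sq ?_ (norm_nonneg _)
    rw [sp_sq, EuclideanSpace.real_norm_sq_eq, Fin.sum_univ_two]
    nlinarith [sq_nonneg (x 0)]
  rw [mg]
  linarith

@[fun_prop] theorem continuous_mg : Continuous mg := by
  unfold mg sp
  fun_prop

theorem mg_pos_iff {y : R2} : 0 < mg y ↔ 0 < y 0 ∧ 0 < mink y y := by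
  have := norm_nonneg (sp y)
  rw [mink_self, mg]
  exact ⟨fun h => ⟨by linarith, by nlinarith⟩, fun h => by nlinarith [h.1, h.2]⟩

theorem mg_nonneg_iff {y : R2} : 0 ≤ mg y ↔ 0 ≤ y 0 ∧ 0 ≤ mink y y := by
  have := norm_nonneg (sp y)
  rw [mink_self, mg]
  exact ⟨fun h => ⟨by linarith, by nlinarith⟩,
    fun h => sub_nonneg.2 (le_of_sq_le_sq (by linarith [h.2]) h.1)⟩

@[simp] theorem imv_apply (z : C2) (μ : Fin 2) : imv z μ = (z μ).im := rfl

theorem imv_add (z w : C2) : imv (z + w) = imv z + imv w := by ext; simp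

theorem imv_sub (z w : C2) : imv (z - w) = imv z - imv w := by ext; simp

theorem imv_neg (z : C2) : imv (-z) = -imv z := by ext; simp

theorem imv_star (z : C2) : imv (star z) = -imv z := by ext; simp

theorem imv_smul (t : ℝ) (z : C2) : imv (t • z) = t • imv z := by ext; simp

theorem imv_csmul (t : ℝ) (z : C2) : imv ((t : ℂ) • z) = t • imv z := by ext; simp

@[simp] theorem imv_zero : imv 0 = 0 := by ext; simp

@[simp] theorem imv_rl (x : R2) : imv (rl x) = 0 := by ext; simp [rl]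

@[simp] theorem imv_cx (x y : R2) : imv (cx x y) = y := by ext; simp [cx]

@[simp] theorem imv_euc (y : R2) : imv (euc y) = y 0 • e0 := by
  ext l
  by_cases h : l = 0 <;> simp [euc, e0, h]

@[simp] theorem imv_ie (t : ℝ) : imv (ie t) = t • e0 := by simp [ie]

@[fun_prop] theorem continuous_imv : Continuous imv := by
  unfold imv
  fun_prop

theorem norm_imv (z : C2) : ‖imv z‖ ≤ 2 * ‖z‖ := by
  refine le_of_sq_le_sq ?_ (by positivity)
  have h : ∀ μ, imv z μ ^ 2 ≤ ‖z‖ ^ 2 := fun μ => sq_le_sq' (by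
    linarith [(abs_le.1 ((abs_im_le_norm (z μ)).trans (norm_le_pi_norm z μ))).1, imv_apply z μ])
    ((im_le_norm _).trans (norm_le_pi_norm z μ))
  rw [EuclideanSpace.real_norm_sq_eq, Fin.sum_univ_two]
  linarith [h 0, h 1, sq_nonneg ‖z‖]

theorem rl_add (x y : R2) : rl (x + y) = rl x + rl y := by ext; simp [rl]

theorem rl_neg (x : R2) : rl (-x) = -rl x := by ext; simp [rl]

theorem rl_sub (x y : R2) : rl (x - y) = rl x - rl y := by ext; simp [rl]

@[simp] theorem rl_zero : rl 0 = 0 := by ext; simp [rl]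

@[simp] theorem star_rl (x : R2) : star (rl x) = rl x := by ext; simp [rl]

theorem cx_eq (x y : R2) : cx x y = rl x + I • rl y := by ext; simp [rl, cx, mul_comm]

theorem star_cx (x y : R2) : star (cx x y) = cx x (-y) := by ext; simp [cx]

theorem cx_add (x y x' y' : R2) : cx (x + x') (y + y') = cx x y + cx x' y' := by
  ext; simp [cx]; ring

theorem cx_sub (x y x' y' : R2) : cx (x - x') (y - y') = cx x y - cx x' y' := by
  ext; simp [cx]; ring

theorem cx_zero (x : R2) : cx x 0 = rl x := by ext; simp [rl, cx]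

theorem exists_cx (z : C2) : ∃ x, z = cx x (imv z) :=
  ⟨WithLp.toLp 2 fun μ => (z μ).re, by ext; simp [cx]⟩

theorem euc_add (x y : R2) : euc (x + y) = euc x + euc y := by
  ext l
  by_cases h : l = 0 <;> simp [euc, h, mul_add]

theorem euc_sub (x y : R2) : euc (x - y) = euc x - euc y := by
  ext l
  by_cases h : l = 0 <;> simp [euc, h, mul_sub]

@[simp] theorem euc_zero : euc 0 = 0 := by ext; simp [euc]

theorem euc_eq (y : R2) : euc y = cx (sp y) (y 0 • e0) := by
  ext l
  by_cases h : l = 0 <;> simp [euc, cx, sp, e0, h, mul_comm]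

theorem neg_star_euc (y : R2) : -star (euc y) = euc (-rf 0 y) := by
  ext l
  by_cases h : l = 0 <;> simp [euc, h, rf]

theorem ie_add (s t : ℝ) : ie (s + t) = ie s + ie t := by rw [ie, add_smul, euc_add, ie, ie]

theorem ie_eq (t : ℝ) : ie t = cx 0 (t • e0) := by
  ext l
  by_cases h : l = 0 <;> simp [ie, euc, cx, e0, h, mul_comm]

theorem star_ie (t : ℝ) : star (ie t) = -ie t := by
  ext l
  by_cases h : l = 0 <;> simp [ie, euc, e0, h]

@[fun_prop] theorem continuous_rl : Continuous rl := by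
  unfold rl
  fun_prop

@[fun_prop] theorem continuous_cx {X : Type*} [TopologicalSpace X] {f g : X → R2}
    (hf : Continuous f) (hg : Continuous g) : Continuous fun x => cx (f x) (g x) := by
  unfold cx
  fun_prop

@[fun_prop] theorem continuous_euc : Continuous euc := continuous_pi fun μ => by
  by_cases h : μ = 0 <;> simp only [euc, h, if_true, if_false] <;> fun_prop

theorem wick_euc (R : Mat) (y : R2) : wick R *ᵥ euc y = euc (act R y) := by
  ext μ
  have e : ∀ ν, (if ν = 0 then -I else 1) * euc y ν = y ν := fun ν => by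
    by_cases h : ν = 0 <;> simp [euc, h, ← mul_assoc]
  simp only [wick, mulVec, dotProduct, of_apply, mul_assoc, e, ← Finset.mul_sum]
  fin_cases μ <;> simp [euc, act, mulVec, dotProduct]

theorem cact_cx (L : Mat) (x y : R2) : cact L (cx x y) = cx (act L x) (act L y) := by
  ext μ
  fin_cases μ <;> simp [cact, cx, act, mulVec, dotProduct] <;> ring

theorem TV.add {δ δ' : ℝ} {z w : C2} (hz : z ∈ TV δ) (hw : w ∈ TV δ') : z + w ∈ TV (δ + δ') :=
  (add_le_add hz hw).trans (imv_add z w ▸ mg_add _ _)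

theorem TV.mono {δ δ' : ℝ} (h : δ ≤ δ') : TV δ' ⊆ TV δ := fun _ hz => h.trans hz

theorem TV.to {δ : ℝ} (h : 0 < δ) : TV δ ⊆ TO := fun _ hz => h.trans_le hz

theorem TO.tv : TO ⊆ TV 0 := fun z hz => (show 0 < mg (imv z) from hz).le

theorem TO.add {z w : C2} (hz : z ∈ TO) (hw : w ∈ TV 0) : z + w ∈ TO :=
  (add_pos_of_pos_of_nonneg hz hw).trans_le (imv_add z w ▸ mg_add _ _)

theorem rl_mem (x : R2) : rl x ∈ TV 0 := by simp [TV]

theorem ie_mem (t : ℝ) : ie t ∈ TV t := by simp [TV]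

theorem euc_mem (y : R2) : euc y ∈ TV (y 0) := by simp [TV]

theorem neg_star_mem {δ : ℝ} {z : C2} (h : z ∈ TV δ) : -star z ∈ TV δ := by
  simpa [TV, imv_neg, imv_star] using h

theorem neg_star_mem' {z : C2} (h : z ∈ TO) : -star z ∈ TO := by
  simpa [TO, imv_neg, imv_star] using h

theorem sub_ie_mem {δ t : ℝ} {z : C2} (h : z ∈ TV δ) : z - ie t ∈ TV (δ - t) := by
  have := mg_add_e0 (imv z) (-t)
  simp only [TV, mem_ofPred_eq, imv_sub, imv_ie, sub_eq_add_neg (imv z), ← neg_smul, this] at h ⊢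
  linarith

theorem isOpen_TO : IsOpen TO := isOpen_lt continuous_const (by fun_prop)

theorem isClosed_TV (δ : ℝ) : IsClosed (TV δ) := isClosed_le continuous_const (by fun_prop)

theorem mg_comb (z w : C2) {a b : ℝ} (ha : 0 ≤ a) (hb : 0 ≤ b) :
    a * mg (imv z) + b * mg (imv w) ≤ mg (imv (a • z + b • w)) := by
  rw [imv_add, imv_smul, imv_smul, ← mg_smul ha, ← mg_smul hb]
  exact mg_add _ _

theorem convex_TV (δ : ℝ) : Convex ℝ (TV δ) := fun z hz w hw a b ha hb h =>
  le_trans (by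
    have h1 := mul_le_mul_of_nonneg_left (show δ ≤ _ from hz) ha
    have h2 := mul_le_mul_of_nonneg_left (show δ ≤ _ from hw) hb
    calc δ = a * δ + b * δ := by rw [← add_mul, h, one_mul]
      _ ≤ _ := add_le_add h1 h2) (mg_comb z w ha hb)

theorem convex_TO : Convex ℝ TO := fun z hz w hw _ _ ha hb h =>
  TV.to (δ := min (mg (imv z)) (mg (imv w))) (lt_min hz hw)
    (convex_TV _ (min_le_left (mg (imv z)) _) (min_le_right _ (mg (imv w))) ha hb h)

theorem mem_tube {n : ℕ} {z : Fin n → C2} : z ∈ Tube n ↔ ∀ i j, i < j → z j - z i ∈ TO := by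
  simp only [Tube, TO, mem_ofPred_eq, mg_pos_iff]

theorem FT.tube {n : ℕ} : FT n ⊆ Tube n := fun _ h => mem_tube.2 h.2

theorem FTd.ft {n : ℕ} {δ : ℝ} (h : 0 < δ) : FTd n δ ⊆ FT n := fun _ hz =>
  ⟨fun i => TV.to h (hz.1 i), fun i j e => TV.to h (hz.2 i j e)⟩

theorem FTd.mono {n : ℕ} {δ δ' : ℝ} (h : δ ≤ δ') : FTd n δ' ⊆ FTd n δ := fun _ hz =>
  ⟨fun i => TV.mono h (hz.1 i), fun i j e => TV.mono h (hz.2 i j e)⟩

theorem FT.exists {n : ℕ} {z : Fin n → C2} (h : z ∈ FT n) : ∃ δ ∈ Ioc (0 : ℝ) 1, z ∈ FTd n δ := by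
  have h1 : ∀ᶠ δ in 𝓝[>] (0 : ℝ), (∀ i, z i ∈ TV δ) ∧ ∀ i j, i < j → z j - z i ∈ TV δ := by
    refine Eventually.filter_mono nhdsWithin_le_nhds (.and (eventually_all.2 fun i => ?_)
      (eventually_all.2 fun i => eventually_all.2 fun j => eventually_imp_distrib_left.2 fun e => ?_))
    · exact eventually_le_nhds (h.1 i)
    · exact eventually_le_nhds (h.2 i j e)
  exact (Eventually.and (Ioc_mem_nhdsGT one_pos) h1).exists

theorem isOpen_tube (n : ℕ) : IsOpen (Tube n) := by
  have : Tube n = ⋂ i, ⋂ j, ⋂ _ : i < j, (fun z : Fin n → C2 => z j - z i) ⁻¹' TO := by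
    ext; simp [mem_tube]
  rw [this]
  exact isOpen_iInter_of_finite fun i => isOpen_iInter_of_finite fun j =>
    isOpen_iInter_of_finite fun _ => isOpen_TO.preimage (by fun_prop)

theorem isOpen_FT (n : ℕ) : IsOpen (FT n) := by
  have : FT n = (⋂ i, (fun z : Fin n → C2 => z i) ⁻¹' TO) ∩ Tube n := by
    ext; simp [mem_tube, FT]
  rw [this]
  exact (isOpen_iInter_of_finite fun i => isOpen_TO.preimage (by fun_prop)).inter (isOpen_tube n)

theorem comb_sub {n : ℕ} (z w : Fin n → C2) (a b : ℝ) (i j : Fin n) :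
    (a • z + b • w) j - (a • z + b • w) i = a • (z j - z i) + b • (w j - w i) := by
  simp only [Pi.add_apply, Pi.smul_apply, smul_sub]
  abel

theorem convex_tube (n : ℕ) : Convex ℝ (Tube n) := fun z hz w hw a b ha hb h =>
  mem_tube.2 fun i j e => comb_sub z w a b i j ▸
    convex_TO (mem_tube.1 hz i j e) (mem_tube.1 hw i j e) ha hb h

theorem convex_FT (n : ℕ) : Convex ℝ (FT n) := fun _ hz _ hw _ _ ha hb h =>
  ⟨fun i => convex_TO (hz.1 i) (hw.1 i) ha hb h,
    mem_tube.1 (convex_tube n (FT.tube hz) (FT.tube hw) ha hb h)⟩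

theorem convex_FTd (n : ℕ) (δ : ℝ) : Convex ℝ (FTd n δ) := fun z hz w hw a b ha hb h =>
  ⟨fun i => convex_TV δ (hz.1 i) (hw.1 i) ha hb h,
    fun i j e => comb_sub z w a b i j ▸ convex_TV δ (hz.2 i j e) (hw.2 i j e) ha hb h⟩

theorem FT.add {n : ℕ} {z : Fin n → C2} (h : z ∈ FT n) {u : C2} (hu : u ∈ TV 0) :
    (fun i => z i + u) ∈ FT n :=
  ⟨fun i => TO.add (h.1 i) hu, fun i j e => by simpa using h.2 i j e⟩

theorem cons_mem {n : ℕ} {p : C2} {z : Fin n → C2} :
    (Fin.cons p z : Fin (n + 1) → C2) ∈ FT (n + 1) ↔ p ∈ TO ∧ (fun i => z i - p) ∈ FT n := by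
  constructor
  · intro h
    exact ⟨h.1 0, fun i => h.2 0 i.succ i.succ_pos, fun i j e => by
      simpa using h.2 i.succ j.succ (Fin.succ_lt_succ_iff.2 e)⟩
  · rintro ⟨h1, h2, h3⟩
    refine ⟨fun i => ?_, fun i j e => ?_⟩
    · induction i using Fin.cases with
      | zero => exact h1
      | succ i => simpa using TO.add (h2 i) (TO.tv h1)
    · induction j using Fin.cases with
      | zero => exact absurd e (Fin.not_lt_zero _)
      | succ j =>
        induction i using Fin.cases with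
        | zero => exact h2 j
        | succ i => simpa using h3 i j (Fin.succ_lt_succ_iff.1 e)

end Pool.Agent.Lib.MP_7f377f_mp.W2
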