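import Pool.Agent.Lib.MP_7f377f_mp.G.XVSpec
import Pool.Agent.Lib.MP_7f377f_mp.G.XA3
import Pool.Agent.Lib.MP_7f377f_mp.G.XMat

/-! Two dimensions: the mass gap in invariant form. -/

noncomputable section

namespace Pool.Agent.Lib.MP_7f377f_mp.W2

open MeasureTheory Filter Topology Set Complex

variable {H : Type} [NormedAddCommGroup H] [InnerProductSpace ℂ H] {E : C2 → H →L[ℂ] H} {Δ : ℝ}

theorem gap1 (hE : Tub E) {x : H} {μ : Measure R2} [IsFiniteMeasure μ] {l : R2 → ℝ}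
    (hl : Measurable l) (h : ∀ s : ℝ, inner ℂ x (E (rl (s • e0)) x) = ∫ p, exp (I * s * l p) ∂μ)
    (hg : ∀ t ≥ (0 : ℝ), ‖E (ie t) x‖ ≤ Real.exp (-Δ * t) * ‖x‖) : μ {p | l p - Δ < 0} = 0 := by
  have e : ∀ s : ℂ, s • rl e0 = rl (s.re • e0) + ie s.im := fun s => by
    ext μ
    fin_cases μ <;> simp [rl, ie, euc, e0, mul_comm I]
  have m : ∀ s : ℂ, s • rl e0 ∈ TV s.im := fun s => by
    simpa [e] using TV.add (rl_mem (s.re • e0)) (ie_mem s.im)
  refine A3.pos (M := ‖x‖ ^ 2) (by fun_prop) fun t ht => ?_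
  simpa only [mul_one] using A3.bnd (μ := μ) (l := fun p => l p - Δ) (v := fun _ => 1) (M := ‖x‖ ^ 2)
    (G := fun s => exp (-(I * s * Δ)) * inner ℂ x (E (s • rl e0) x)) (by fun_prop) measurable_const
    (integrable_const _) (fun _ => zero_le_one) ht.le
    (.mul (by fun_prop) (continuousOn_const.inner ((hE.cont x).comp (by fun_prop)
      fun s hs => TV.mono hs.1 (m s))))
    (.mul (by fun_prop) ((innerSL ℂ x).differentiable.comp_differentiableOn ((hE.hol.comp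
      (by fun_prop) fun s hs => TV.to hs.1 (m s)).clm_apply (differentiableOn_const _))))
    (fun s h0 _ => by
      have h1 : ‖E (s • rl e0) x‖ ≤ Real.exp (-Δ * s.im) * ‖x‖ := by
        rw [e, hE.mul _ (rl_mem _) _ (TV.mono h0 (ie_mem _)), mul_apply_eq_comp]
        exact (((E _).le_of_opNorm_le (hE.nrm _ (rl_mem _)) _).trans_eq (one_mul _)).trans (hg _ h0)
      rw [norm_mul, norm_exp]
      refine (mul_le_mul_of_nonneg_left ((norm_inner_le_norm _ _).trans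
        (mul_le_mul_of_nonneg_left h1 (norm_nonneg _))) (Real.exp_pos _).le).trans_eq ?_
      rw [mul_left_comm, ← mul_assoc (Real.exp _), ← Real.exp_add]
      simp [sq, mul_comm Δ])
    fun s => by
      rw [e, ofReal_re, ofReal_im, show ie 0 = 0 by simp [ie], add_zero, h, ← integral_const_mul]
      simp only [← Complex.exp_add, ofReal_one, mul_one]
      congr 1
      funext p
      congr 1
      push_cast
      ring

theorem exists_boost (hΔ : 0 < Δ) {p : R2} (h0 : 0 ≤ mg p) (h : mink p p < Δ ^ 2) :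
    ∃ L, Lor L ∧ act L p 0 - Δ < 0 := by
  obtain ⟨h1, h2⟩ := mg_nonneg_iff.1 h0
  simp only [mink] at h h2
  obtain ⟨a, b⟩ := abs_le.1 (abs_le_of_sq_le_sq (show p 1 ^ 2 ≤ p 0 ^ 2 by linarith) h1)
  obtain ⟨c, c1, c2⟩ : ∃ c, p 0 + p 1 < c ∧ (p 0 - p 1) * c < Δ ^ 2 := by
    have k : 0 < p 0 - p 1 + 1 := by linarith
    have := div_pos (sub_pos.2 h) k
    refine ⟨_, lt_add_of_pos_right _ this, ?_⟩
    have e := mul_div_cancel₀ (Δ ^ 2 - (p 0 * p 0 - p 1 * p 1)) k.ne'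
    linarith
  have c0 : 0 < c := by linarith
  refine ⟨!![(Δ / c + c / Δ) / 2, (Δ / c - c / Δ) / 2; (Δ / c - c / Δ) / 2, (Δ / c + c / Δ) / 2],
    ⟨fun x y => ?_, ?_, by simp; positivity⟩, ?_⟩
  · simp [mink, act_apply]
    field_simp
    ring
  · rw [Matrix.det_fin_two_of]
    field_simp
    ring
  · have e1 : Δ / c * (p 0 + p 1) ≤ Δ := by
      rw [div_mul_eq_mul_div, div_le_iff₀ c0]
      exact mul_le_mul_of_nonneg_left c1.le hΔ.le
    have e2 : c / Δ * (p 0 - p 1) < Δ := by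
      rw [div_mul_eq_mul_div, div_lt_iff₀ hΔ]
      linarith
    simp [act_apply]
    linarith

theorem L.Poi.inn {V : Type} {Ω : H} {Φ : L.Ds V H} {U : R2 → Mat → H →L[ℂ] H} (P : L.Poi E Ω Φ U)
    (a : R2) {L : Mat} (hL : Lor L) (x y : H) : inner ℂ (U a L x) (U a L y) = inner ℂ x y :=
  (⟨U a L, (P.rep a L hL).2.1⟩ : H →ₗᵢ[ℂ] H).inner_map_map x y

/-- the spectrum on the complement of the vacuum -/
theorem L.Poi.gap {V : Type} {Ω : H} {Φ : L.Ds V H} {U : R2 → Mat → H →L[ℂ] H} (P : L.Poi E Ω Φ U)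
    (hE : Tub E) (sp : Spec fun a => E (rl a)) (hΔ : 0 < Δ)
    (hg : ∀ x, inner ℂ Ω x = 0 → ∀ t ≥ (0 : ℝ), ‖E (ie t) x‖ ≤ Real.exp (-Δ * t) * ‖x‖) (x : H)
    (hx : inner ℂ Ω x = 0) : ∃ μ : Measure R2, IsFiniteMeasure μ ∧
      (∀ᵐ p ∂μ, 0 < p 0 ∧ Δ ^ 2 ≤ mink p p) ∧
        ∀ a, inner ℂ x (U a 1 x) = ∫ p, exp (I * mink a p) ∂μ := by
  obtain ⟨μ, ⟨f, h1⟩, h2⟩ := sp x
  simp only [← P.tr] at h1
  have k : ∀ L, Lor L → μ {p | act L p 0 - Δ < 0} = 0 := fun L hL => by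
    obtain ⟨M, -, e, -⟩ := lor_inv hL
    refine gap1 hE (x := U 0 L x) (by fun_prop) (fun s => ?_) (hg _ ?_)
    · have e1 := (P.rep 0 L hL).2.2 (act M (s • e0)) 1 lor_one
      have e2 := (P.rep (s • e0) 1 lor_one).2.2 0 L hL
      rw [← act_mul, e, act_one, zero_add, mul_one] at e1
      rw [act_zero, add_zero, one_mul, ← e1] at e2
      rw [← P.tr, ← mul_apply_eq_comp, e2, mul_apply_eq_comp, P.inn 0 hL, h1]
      simp only [← hL.1 (act M _), ← act_mul, e, act_one, A3.mink_smul, mink_e0, ofReal_mul,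
        mul_assoc]
    · rw [← P.vac 0 L hL, P.inn 0 hL, hx]
  have h3 : μ {p | 0 ≤ mg p ∧ mink p p < Δ ^ 2} = 0 :=
    measure_null_of_locally_null _ fun p hp =>
      let ⟨L, l1, l2⟩ := exists_boost hΔ hp.1 hp.2
      ⟨_, mem_nhdsWithin_of_mem_nhds ((isOpen_lt (f := fun p => act L p 0 - Δ) (by fun_prop)
        continuous_const).mem_nhds l2), k L l1⟩
  refine ⟨μ, f, ?_, h1⟩
  filter_upwards [h2, measure_eq_zero_iff_ae_notMem.1 h3] with p a b
  have c : Δ ^ 2 ≤ mink p p := not_lt.1 fun c => b ⟨a, c⟩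
  refine ⟨(mg_nonneg_iff.1 a).1.lt_of_ne fun e => ?_, c⟩
  rw [mink, ← e] at c
  nlinarith [mul_self_nonneg (p 1), pow_pos hΔ 2]

end Pool.Agent.Lib.MP_7f377f_mp.W2
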