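import Pool.Agent.Lib.MP_7f377f_mp.G.XTool
import Pool.Agent.Lib.MP_7f377f_mp.G.XBV

/-! Two dimensions: the boundary values of the vector valued functions and cyclicity. -/

noncomputable section

namespace Pool.Agent.Lib.MP_7f377f_mp.W2

open MeasureTheory Filter Topology Set Complex Metric

namespace Phi

variable {n : ℕ}

theorem mem_FTd {x y : Fin n → R2} {δ : ℝ} :
    cxn x y ∈ FTd n δ ↔ (∀ i, δ ≤ mg (y i)) ∧ ∀ i j, i < j → δ ≤ mg (y j - y i) := by
  simp only [FTd, TV, cxn, mem_ofPred_eq, imv_sub, imv_cx]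

theorem scale {η : Fin n → R2} {δ t : ℝ} (h : cxn 0 η ∈ FTd n δ) (ht : 0 ≤ t) (x : Fin n → R2) :
    cxn x (t • η) ∈ FTd n (t * δ) := by
  rw [mem_FTd] at h ⊢
  refine ⟨fun i => ?_, fun i j e => ?_⟩
  · rw [Pi.smul_apply, mg_smul ht]
    exact mul_le_mul_of_nonneg_left (h.1 i) ht
  · rw [Pi.smul_apply, Pi.smul_apply, ← smul_sub, mg_smul ht]
    exact mul_le_mul_of_nonneg_left (h.2 i j e) ht

/-- the standard direction -/
def et (n : ℕ) : Fin n → R2 := fun i => (((i : ℕ) : ℝ) + 1) • e0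

theorem et_mem : cxn 0 (et n) ∈ FTd n 1 := by
  refine mem_FTd.2 ⟨fun i => ?_, fun i j e => ?_⟩
  · rw [et, mg_e0]
    linarith [(Nat.cast_nonneg i : (0 : ℝ) ≤ (i : ℕ))]
  · rw [et, et, ← sub_smul, mg_e0]
    have : ((i : ℕ) : ℝ) + 1 ≤ (j : ℕ) := by exact_mod_cast e
    linarith

theorem comb (η η' : Fin n → R2) (a b : ℝ) :
    cxn 0 (a • η + b • η') = a • cxn 0 η + b • cxn 0 η' := by
  ext i μ
  apply Complex.ext <;> simp [cxn, cx]

theorem le_zero {a B : ℝ} (h : ∀ t ∈ Ioc (0 : ℝ) 1, a ≤ B * t) : a ≤ 0 := by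
  have h1 : Tendsto (fun t : ℝ => B * t) (𝓝[>] 0) (𝓝 (B * 0)) :=
    (tendsto_id.const_mul B).mono_left nhdsWithin_le_nhds
  rw [mul_zero] at h1
  exact ge_of_tendsto h1 (by filter_upwards [Ioc_mem_nhdsGT one_pos] using h)

variable {H : Type} [NormedAddCommGroup H] [InnerProductSpace ℂ H] [CompleteSpace H]
  {E : C2 → H →L[ℂ] H} {Ω : H} {ψ : ∀ n, (Fin n → C2) → H} {w : ∀ n, (Fin n → C2) → ℂ}

omit [CompleteSpace H] in
theorem good (V : Vec E Ω ψ w) {η : Fin n → R2} {δ ε : ℝ} (d0 : 0 < δ) (h : cxn 0 η ∈ FTd n δ)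
    (e0 : 0 < ε) : ∃ M, ∀ t, ε ≤ t → BV.Good (ψ n) (FT n) (t • η) M := by
  obtain ⟨C, N, -, hC⟩ := V.bd n
  refine ⟨C / min (ε * δ) 1 ^ N, fun t ht x => ?_⟩
  have h1 := scale h (e0.le.trans ht) x
  have h2 : 0 < min (ε * δ) 1 := by positivity
  exact ⟨FTd.ft (mul_pos (e0.trans_le ht) d0) h1, hC _ ⟨h2, min_le_right _ _⟩ _
    (FTd.mono ((min_le_left _ _).trans (by gcongr)) h1)⟩

theorem seg (h : S_BV) (V : Vec E Ω ψ w) {η : Fin n → R2} (hη : η ∈ Dir n) :
    ∃ Φ : Sw n →L[ℂ] H, ∀ F : Sw n, ∃ B : ℝ, ∀ (a : Fin n → R2) (F' : Sw n),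
      (∀ x, F' x = F (x - a)) → ∀ η' ∈ segment ℝ (et n) η, ∀ t ∈ Ioc (0 : ℝ) 1,
        ‖(∫ x, F' x • ψ n (cxn x (t • η'))) - Φ F'‖ ≤ B * t := by
  obtain ⟨δ, d, hd⟩ := FT.exists hη
  obtain ⟨C, N, -, hC⟩ := V.bd n
  refine h n N H (ψ n) (FT n) _ (C / δ ^ N) (isOpen_FT n) (V.hol n) (convex_segment _ _)
    ⟨_, left_mem_segment ℝ _ _⟩ ?_ ?_
  · rw [segment_eq_image]
    exact (isCompact_Icc.image (by fun_prop)).isBounded
  · rintro x t ht _ ⟨a, b, ha, hb, hab, rfl⟩
    have h1 : cxn 0 (a • et n + b • η) ∈ FTd n δ := by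
      rw [comb]
      exact convex_FTd n δ (FTd.mono d.2 et_mem) hd ha hb hab
    have h2 := scale h1 ht.1.le x
    have h3 : 0 < t * δ := mul_pos ht.1 d.1
    refine ⟨FTd.ft h3 h2, (hC _ ⟨h3, mul_le_one₀ ht.2 d.1.le d.2⟩ _ h2).trans_eq ?_⟩
    rw [mul_pow, div_div, mul_comm]

theorem et_dir : et n ∈ Dir n := FTd.ft one_pos et_mem

theorem pts (x : Fin n → R2) (ε : ℝ) :
    (fun (i : Fin n) => (fun μ : Fin 2 => (x i μ : ℂ) + if μ = 0 then I * ε * (i : ℕ) else 0) + ie ε) =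
      cxn x (ε • et n) := by
  ext i μ
  by_cases h : μ = 0
  · subst h
    simp [cxn, cx, ie, euc, et]
    ring
  · simp [cxn, cx, ie, euc, et, h, e0_ne h]

end Phi

open Phi in
theorem sPhi_of (h : S_BV) : S_Phi := by
  intro H _ _ _ E Ω ψ w V
  choose Φ hΦ using fun n => seg h V (et_dir (n := n))
  have bv : IsBV ψ Φ := by
    intro n η hη F
    obtain ⟨Φ', h'⟩ := seg h V hη
    have e : ∀ G, Φ n G = Φ' G := fun G => by
      obtain ⟨B, hB⟩ := hΦ n G
      obtain ⟨B', hB'⟩ := h' G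
      rw [← sub_eq_zero, ← norm_le_zero_iff]
      refine le_zero (B := B + B') fun t ht => ?_
      have h1 := hB 0 G (by simp) _ (left_mem_segment ℝ _ _) t ht
      have h2 := hB' 0 G (by simp) _ (left_mem_segment ℝ _ _) t ht
      rw [norm_sub_rev] at h1
      exact (norm_sub_le_norm_sub_add_norm_sub _ _ _).trans ((add_le_add h1 h2).trans_eq (by ring))
    obtain ⟨B, hB⟩ := h' F
    exact ⟨B, fun a F' hF t ht => e F' ▸ hB a F' hF η (right_mem_segment ℝ _ _) t ht⟩
  refine ⟨Φ, bv, ?_, fun n f G hG => ?_⟩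
  · obtain ⟨B, hB⟩ := bv 0 _ et_dir one0
    rw [eq_comm, ← sub_eq_zero, ← norm_le_zero_iff]
    refine le_zero (B := B) fun t ht => ?_
    have := hB 0 one0 (by simp) t ht
    simpa [V.nil, Measure.volume_pi_eq_dirac (0 : Fin 0 → R2)] using this
  · have hi : ∀ ε > (0 : ℝ), Integrable fun x => tn f x • ψ n (cxn x (ε • et n)) := fun ε hε => by
      obtain ⟨M, hM⟩ := good V one_pos (et_mem (n := n)) hε
      exact BV.integ (V.hol n) (hM ε le_rfl) _
    have hG' : ∀ ε > (0 : ℝ), G ε = fun x => inner ℂ Ω (tn f x • ψ n (cxn x (ε • et n))) := by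
      intro ε hε
      ext x
      rw [hG, ← V.wtr n _ (ie ε), pts, V.wval n _ (FTd.ft (by simpa using hε)
        (scale et_mem hε.le x)), inner_smul_right, tn_apply]
    refine ⟨fun ε hε => hG' ε hε ▸ (hi ε hε).const_inner Ω, ?_⟩
    obtain ⟨B, hB⟩ := bv n _ et_dir (tn f)
    have h1 : Tendsto (fun ε : ℝ => ∫ x, tn f x • ψ n (cxn x (ε • et n))) (𝓝[>] 0)
        (𝓝 (Φ n (tn f))) := by
      rw [tendsto_iff_norm_sub_tendsto_zero]
      have h2 : Tendsto (fun t : ℝ => B * t) (𝓝[>] 0) (𝓝 (B * 0)) :=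
        (tendsto_id.const_mul B).mono_left nhdsWithin_le_nhds
      rw [mul_zero] at h2
      refine squeeze_zero' (.of_forall fun _ => norm_nonneg _) ?_ h2
      filter_upwards [Ioc_mem_nhdsGT one_pos] with t ht using hB 0 _ (by simp) t ht
    refine (tendsto_const_nhds.inner h1).congr' ?_
    filter_upwards [self_mem_nhdsWithin] with ε hε
    rw [hG' ε hε, integral_inner (hi ε hε)]

open Phi in
theorem sCyc_of : S_Cyc := by
  intro H _ _ _ E Ω ψ w Φ S bv x hx
  refine S.total x fun n z hz => ?_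
  have V := S.toSys0.toVec
  choose x₀ hx₀ using fun i => exists_cx (z i)
  set η : Fin n → R2 := fun i => imv (z i) with hη
  have hz' : z = cxn x₀ η := funext hx₀
  obtain ⟨δ, d, hd⟩ := FT.exists hz
  have hd' : cxn 0 η ∈ FTd n δ := mem_FTd.2 (mem_FTd.1 (hz' ▸ hd))
  have key : ∀ f : Fin n → Tf, ∫ y, tn f y • inner ℂ x (ψ n (cxn y η)) = 0 := by
    intro f
    obtain ⟨B, hB⟩ := bv n η (FTd.ft d.1 hd') (tn f)
    let g : ℂ → ℂ := fun s => ∫ y, tn f y • inner ℂ x (ψ n (cxn y 0 + s • cxn η 0))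
    have hg : ∀ s : ℂ, g s = ∫ y, tn f y • inner ℂ x (ψ n (cxn (y + s.re • η) (s.im • η))) :=
      fun s => by simp only [g, BV.cxn_line, zero_add]
    have h1 : ‖g I‖ ≤ 0 := by
      refine le_zero (B := ‖x‖ * B) fun ε hε => ?_
      obtain ⟨M, hM⟩ := good V (half_pos d.1) (FTd.mono (half_le_self d.1.le) hd') (half_pos hε.1)
      have hm : ∀ s : ℂ, ε / 2 < s.im → ∀ y, cxn y 0 + s • cxn η 0 ∈ FT n ∧
          ‖tn f y • inner ℂ x (ψ n (cxn y 0 + s • cxn η 0))‖ ≤ ‖tn f y‖ * (‖x‖ * M) := by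
        intro s hs y
        have := hM s.im hs.le (y + s.re • η)
        rw [BV.cxn_line, zero_add]
        refine ⟨this.1, ?_⟩
        rw [norm_smul]
        exact mul_le_mul_of_nonneg_left ((norm_inner_le_norm _ _).trans
          (mul_le_mul_of_nonneg_left this.2 (norm_nonneg _))) (norm_nonneg _)
      have hb : Integrable fun y => ‖tn f y‖ * (‖x‖ * M) := (tn f).integrable.norm.mul_const _
      have hdf : DifferentiableOn ℂ g {s | ε / 2 < s.im} := by
        refine hol_int (isOpen_lt continuous_const continuous_im) hb (fun s hs => ?_)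
          (.of_forall fun y => ⟨fun s hs => ?_, fun s hs => (hm s hs y).2⟩)
        · refine ((tn f).continuous.smul (continuous_const.inner ?_)).aestronglyMeasurable
          exact (V.hol n).continuousOn.comp_continuous
            ((BV.continuous_cxn continuous_id continuous_const).add continuous_const)
            fun y => (hm s hs y).1
        · refine (DifferentiableAt.const_smul ?_ (tn f y)).differentiableWithinAt
          exact (innerSL ℂ x).differentiableAt.comp s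
            (((V.hol n).differentiableAt ((isOpen_FT n).mem_nhds (hm s hs y).1)).comp s
              (f := fun s : ℂ => cxn y 0 + s • cxn η 0) (by fun_prop))
      have sub : ∀ s : ℂ, ε ≤ s.im → ε / 2 < s.im := fun s hs => by linarith [hε.1]
      refine pl (c := ε) (B := ∫ y, ‖tn f y‖ * (‖x‖ * M))
        (hdf.mono fun s hs => sub s (le_of_lt hs)) (hdf.continuousOn.mono sub)
        (fun s hs => norm_integral_le_of_norm_le hb (.of_forall fun y => (hm s (sub s hs) y).2))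
        (fun s hs => ?_) (by simpa using hε.2)
      let f' : Fin n → Tf := fun i => (f i).compSubConstCLM ℂ (s.re • η i)
      have e1 : ∀ y, tn f' y = tn f (y - s.re • η) := fun y => by simp [tn_apply, f']
      have e2 : g s = inner ℂ x (∫ y, tn f' y • ψ n (cxn y (ε • η))) := by
        rw [hg, hs, ← integral_inner (BV.integ (V.hol n) (hM ε (by linarith [hε.1])) _),
          ← integral_sub_right_eq_self _ (s.re • η)]
        simp only [e1, sub_add_cancel, inner_smul_right, smul_eq_mul]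
      have e3 := hB _ _ e1 ε hε
      rw [e2, ← sub_zero (inner ℂ x _), ← hx n f', ← inner_sub_right, mul_assoc]
      exact (norm_inner_le_norm _ _).trans (mul_le_mul_of_nonneg_left e3 (norm_nonneg _))
    simpa [hg] using h1
  obtain ⟨M, hM⟩ := good V d.1 hd' one_pos
  have hc : Continuous fun y => inner ℂ x (ψ n (cxn y η)) :=
    continuous_const.inner (by simpa using BV.cont_x (V.hol n) (hM 1 le_rfl))
  rw [hz']
  refine pt_eq (G := fun y => inner ℂ x (ψ n (cxn y η))) (G' := fun _ => 0) one_pos hc.continuousOn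
    continuousOn_const fun f hf => ?_
  have := key fun i => HasCompactSupport.toSchwartzMap (f := fun y => (f i y : ℂ))
    ((hf i).1.comp_left (g := fun t : ℝ => (t : ℂ)) rfl)
    (ofRealCLM.contDiff.comp (hf i).2.1)
  simp only [tn_apply] at this
  simp only [smul_zero, integral_zero]
  exact this

end Pool.Agent.Lib.MP_7f377f_mp.W2
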