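import Pool.Agent.Lib.MP_7f377f_mp.G.XTool

/-! Two dimensions: restriction to the cyclic subspace, complex rotations. -/

noncomputable section

namespace Pool.Agent.Lib.MP_7f377f_mp.W2

open Filter Topology Set Complex Matrix

theorem sR_iso {H : Type} [NormedAddCommGroup H] [InnerProductSpace ℂ H] [CompleteSpace H]
    {E : C2 → H →L[ℂ] H} {Ω ψ w} (h : Sys0 E Ω ψ w) :
    ∃ (K : Type) (_ : NormedAddCommGroup K) (_ : InnerProductSpace ℂ K) (_ : CompleteSpace K)
      (E' : C2 → K →L[ℂ] K) (Ω' : K) (ψ' : ∀ n, (Fin n → C2) → K) (j : K →ₗᵢ[ℂ] H),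
      j Ω' = Ω ∧ (∀ z ∈ TV 0, ∀ x, j (E' z x) = E z (j x)) ∧ Sys E' Ω' ψ' w := by
  let K := (Submodule.span ℂ {x | ∃ n, ∃ z ∈ FT n, ψ n z = x}).topologicalClosure
  have m : ∀ {n z}, z ∈ FT n → ψ n z ∈ K := fun hz =>
    Submodule.le_topologicalClosure _ (Submodule.subset_span ⟨_, _, hz, rfl⟩)
  have le : ∀ {M : Submodule ℂ H}, IsClosed (M : Set H) → (∀ n, ∀ z ∈ FT n, ψ n z ∈ M) → K ≤ M :=
    fun hM e => Submodule.topologicalClosure_minimal _
      (Submodule.span_le.2 (by rintro _ ⟨n, z, hz, rfl⟩; exact e n z hz)) hM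
  have inv : ∀ {u}, u ∈ TV 0 → ∀ x : K, E u x ∈ K := fun {u} hu x =>
    le (M := K.comap (E u : H →ₗ[ℂ] H))
      ((Submodule.isClosed_topologicalClosure _).preimage (E u).continuous)
      (fun n z hz => by
        change E u (ψ n z) ∈ K
        rw [h.cov n z hz u hu]
        exact m (FT.add hz hu)) x.2
  let P := K.orthogonalProjectionOnto
  have p : ∀ {x}, x ∈ K → (P x : H) = x := fun hx => K.starProjection_eq_self_iff.2 hx
  obtain ⟨E', e⟩ : ∃ E' : C2 → K →L[ℂ] K, E' = fun z => P ∘L E z ∘L K.subtypeL := ⟨_, rfl⟩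
  have e1 : ∀ {u}, u ∈ TV 0 → ∀ x : K, (E' u x : H) = E u x := fun hu x => e ▸ p (inv hu x)
  have f0 : (fun _ => 0) ∈ FT 0 := ⟨fun i => i.elim0, fun i => i.elim0⟩
  have o : (P Ω : H) = Ω := p (h.nil _ ▸ m f0)
  have i : ∀ x y : K, inner ℂ x y = inner ℂ (x : H) y := fun _ _ => rfl
  refine ⟨K, _, _, inferInstance, E', P Ω, fun n z => P (ψ n z), K.subtypeₗᵢ, o,
    fun _ => e1, ⟨⟨fun z => by rw [h.nil],
    fun n => P.differentiable.comp_differentiableOn (h.hol n), fun n => ?_,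
    fun n z hz u hu => Subtype.ext ?_, h.whol, h.wtr, fun n z hz => ?_, fun a n z hz y hy => ?_,
    fun a n q c z hz y hy e2 e3 => ?_⟩, ⟨?_, fun z hz => ?_, fun z hz u hu => ?_,
    fun z hz x y => ?_, fun x => ?_, ?_⟩, ?_, fun x => ?_, fun x hx => ?_⟩, fun x hx => ?_⟩
  · obtain ⟨C, N, C0, b⟩ := h.bd n
    exact ⟨C, N, C0, fun δ d z hz => (congrArg norm (p (m (FTd.ft d.1 hz)))).trans_le (b δ d z hz)⟩
  · rw [e1 hu, p (m hz), p (m (FT.add hz hu)), h.cov n z hz u hu]
  · rw [i, o, p (m hz), h.wval n z hz]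
  · rw [i, p (m hz), p (m hy), h.inn a n z hz y hy]
  · rw [i, i, p (m hz), p (m hy), p (m (cons_mem.2 ⟨e3, ?_⟩)), p (m (cons_mem.2 ⟨e2, ?_⟩)),
      h.shift a n q c z hz y hy e2 e3]
    · convert FT.add hz (TO.tv (neg_star_mem' e3)) using 2
      simp
      abel
    · simpa only [sub_sub_sub_cancel_right, ← sub_eq_add_neg] using
        FT.add hy (TO.tv (neg_star_mem' e2))
  · ext x
    rw [e1 (rl_zero ▸ rl_mem 0), h.tub.zero]
    rfl
  · refine ContinuousLinearMap.opNorm_le_bound _ zero_le_one fun x => ?_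
    exact (congrArg norm (e1 hz x)).trans_le ((E z).le_of_opNorm_le (h.tub.nrm z hz) _)
  · ext x
    rw [e1 (zero_add (0 : ℝ) ▸ TV.add hz hu), h.tub.mul z hz u hu, mul_apply_eq_comp,
      mul_apply_eq_comp, e1 hz, e1 hu]
  · rw [i, i, e1 hz, e1 (neg_star_mem hz), h.tub.adj z hz]
  · exact e ▸ P.continuous.comp_continuousOn (h.tub.cont x)
  · rw [e]
    exact (differentiableOn_const _).clm_comp (h.tub.hol.clm_comp (differentiableOn_const _))
  · exact (congrArg norm o).trans h.unit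
  · obtain ⟨μ, ⟨m1, m2⟩, m3⟩ := h.spec x
    exact ⟨μ, ⟨m1, fun a => by rw [i, e1 (rl_mem a), m2]⟩, m3⟩
  · obtain ⟨c, hc⟩ := h.vac x fun a => (e1 (rl_mem a) x).symm.trans (congrArg _ (hx a))
    exact ⟨c, Subtype.ext (by rw [Submodule.coe_smul, o, hc])⟩
  · have := le (M := LinearMap.ker (innerSL ℂ (x : H) : H →ₗ[ℂ] ℂ))
      (innerSL ℂ (x : H)).isClosed_ker (fun n z hz => by
        have := hx n z hz
        rwa [i, p (m hz)] at this) x.2
    exact inner_self_eq_zero.1 this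

theorem sR_of : S_R := fun _ _ _ _ _ _ _ _ h =>
  let ⟨K, _, _, i, E, Ω, ψ, _, _, _, s⟩ := sR_iso h
  ⟨K, _, _, i, E, Ω, ψ, s⟩

theorem euc_span {n : ℕ} (v : Fin n → C2) : ∃ a b : Fin n → R2,
    v = (fun i => euc (a i)) + I • fun i => euc (b i) :=
  ⟨fun i => WithLp.toLp 2 fun μ => if μ = 0 then (v i μ).im else (v i μ).re,
    fun i => WithLp.toLp 2 fun μ => if μ = 0 then -(v i μ).re else (v i μ).im, by
      funext i μ
      by_cases e : μ = 0 <;> simp [euc, e, Complex.ext_iff]⟩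

theorem euc_tube {n : ℕ} {y : Fin n → R2} :
    (fun i => euc (y i)) ∈ Tube n ↔ StrictMono fun i => y i 0 := by
  simp [mem_tube, ← euc_sub, TO, StrictMono]

theorem sF1_of : S_F1 := by
  intro w hw h n R σ y hR y1 y2 z z1 z2
  let f : (Fin n → C2) →L[ℂ] Fin n → C2 := .pi fun i => .proj (σ i)
  let g : (Fin n → C2) →L[ℂ] Fin n → C2 :=
    .pi fun i => (wick R).mulVecLin.toContinuousLinearMap ∘L .proj i
  have o : IsOpen (f ⁻¹' Tube n ∩ g ⁻¹' Tube n) :=
    ((isOpen_tube n).preimage f.continuous).inter ((isOpen_tube n).preimage g.continuous)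
  have e : ∀ y : Fin n → R2, g (fun i => euc (y i)) = fun i => euc (act R (y i)) := fun y =>
    funext fun i => wick_euc R (y i)
  have m : (fun i => euc (y i)) ∈ f ⁻¹' Tube n ∩ g ⁻¹' Tube n :=
    ⟨euc_tube.2 y1, by rw [mem_preimage, e]; exact euc_tube.2 y2⟩
  refine idR (f := w n ∘ f) (g := w n ∘ g) o
    (((convex_tube n).linear_preimage (f.restrictScalars ℝ).toLinearMap).inter
      ((convex_tube n).linear_preimage (g.restrictScalars ℝ).toLinearMap))
    ((hw n).comp f.differentiableOn fun _ e => e.1) ((hw n).comp g.differentiableOn fun _ e => e.2)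
    m (fun (y : Fin n → R2) i => euc (y i)) (fun t y => ?_) (fun y y' => funext fun i => euc_add _ _)
    euc_span ?_ (mem_inter z1 z2)
  · funext i μ
    by_cases e : μ = 0 <;> simp [euc, e, mul_left_comm]
  · have c : Continuous fun (x : Fin n → R2) i => euc ((y + x) i) := by fun_prop
    filter_upwards [c.continuousAt.eventually (o.mem_nhds (by simpa using m))] with x hx
    have e' : ((fun i => euc (y i)) + fun i => euc (x i)) = fun i => euc ((y + x) i) :=
      funext fun i => (euc_add _ _).symm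
    rw [e', Function.comp, Function.comp, e]
    exact h n R σ _ hR (euc_tube.1 hx.1) (euc_tube.1 (e _ ▸ hx.2))

end Pool.Agent.Lib.MP_7f377f_mp.W2
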