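import Pool.Agent.Lib.MP_7f377f_mp.G.XTen

/-! Two dimensions: the statements of the abstract modules. -/

noncomputable section

namespace Pool.Agent.Lib.MP_7f377f_mp.W2

open MeasureTheory Filter Topology Set Complex Matrix Metric
open scoped NNReal

/-- test functions supported in `O` -/
def C1 (O : Set R2) (g : R2 → ℝ) : Prop :=
  HasCompactSupport g ∧ ContDiff ℝ 1 g ∧ tsupport g ⊆ O

/-- spatial unit vectors -/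
def Un (n : R2) : Prop := n 0 = 0 ∧ ‖n‖ = 1

/-- proper rotations -/
def SO (R : Mat) : Prop := Rᵀ * R = 1 ∧ R.det = 1

/-- directions in which the boundary values are taken -/
def Dir (n : ℕ) : Set (Fin n → R2) := {η | cxn 0 η ∈ FT n}

/-- the configuration of the points of a scalar product -/
def glue {m n : ℕ} (a : Fin m → C2) (b : Fin n → C2) : Fin (m + n) → C2 :=
  Fin.append (fun i => star (a i.rev)) b

section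
variable {H : Type} [NormedAddCommGroup H] [InnerProductSpace ℂ H]

/-- Euclidean translations -/
structure Sg (T : R2 → H →L[ℂ] H) : Prop where
  zero : T 0 = 1
  nrm : ∀ v : R2, 0 ≤ v 0 → ‖T v‖ ≤ 1
  mul : ∀ v w : R2, 0 ≤ v 0 → 0 ≤ w 0 → T (v + w) = T v * T w
  adj : ∀ v : R2, 0 ≤ v 0 → ∀ x y, inner ℂ (T v x) y = inner ℂ x (T (-rf 0 v) y)
  cont : ∀ x, ContinuousOn (fun v => T v x) {v | 0 ≤ v 0}

/-- the spectrum condition in every plane -/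
def ConeH (T : R2 → H →L[ℂ] H) : Prop := ∀ n, Un n → ∀ θ ∈ Ioo (0 : ℝ) 1, ∀ t > (0 : ℝ), ∀ x,
  ∃ G : ℂ → ℂ, DifferentiableOn ℂ G {s | |s.im| < θ * t} ∧
    (∀ s : ℂ, |s.im| < θ * t → ‖G s‖ ≤ ‖x‖ ^ 2) ∧ ∀ s : ℝ, G s = inner ℂ x (T (t • e0 + s • n) x)

/-- unitary groups -/
structure Grp (U : R2 → H →L[ℂ] H) : Prop where
  zero : U 0 = 1
  mul : ∀ a b, U (a + b) = U a * U b
  adj : ∀ a x y, inner ℂ (U a x) y = inner ℂ x (U (-a) y)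
  cont : ∀ x, Continuous fun a => U a x

/-- real times -/
structure Ext (T U : R2 → H →L[ℂ] H) (S : ℂ → H →L[ℂ] H) : Prop where
  grp : Grp U
  time : ∀ t : ℝ, S t = U (t • e0)
  space : ∀ a : R2, a 0 = 0 → U a = T a
  imag : ∀ t : ℝ, 0 ≤ t → S (t * I) = T (t • e0)
  hol : DifferentiableOn ℂ S {s | 0 < s.im}
  cont : ∀ x, ContinuousOn (fun s => S s x) {s | 0 ≤ s.im}
  nrm : ∀ s : ℂ, 0 ≤ s.im → ‖S s‖ ≤ 1

/-- spectral measures -/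
def Four (U : R2 → H →L[ℂ] H) (x : H) (μ : Measure R2) : Prop :=
  IsFiniteMeasure μ ∧ ∀ a, inner ℂ x (U a x) = ∫ p, exp (I * mink a p) ∂μ

/-- the spectrum condition -/
def Spec (U : R2 → H →L[ℂ] H) : Prop := ∀ x, ∃ μ, Four U x μ ∧ ∀ᵐ p ∂μ, 0 ≤ mg p

/-- complex translations -/
structure Tub (E : C2 → H →L[ℂ] H) : Prop where
  zero : E 0 = 1
  nrm : ∀ z ∈ TV 0, ‖E z‖ ≤ 1
  mul : ∀ z ∈ TV 0, ∀ w ∈ TV 0, E (z + w) = E z * E w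
  adj : ∀ z ∈ TV 0, ∀ x y, inner ℂ (E z x) y = inner ℂ x (E (-star z) y)
  cont : ∀ x, ContinuousOn (fun z => E z x) (TV 0)
  hol : DifferentiableOn ℂ E TO

/-- the smeared field between `exp (-K d H)` and `exp (-K d H)` -/
structure Smear (E : C2 → H →L[ℂ] H) (M : ℝ → (R2 → ℝ) → H →L[ℂ] H) (K : ℝ) : Prop where
  one : 1 ≤ K
  lin : ∀ d ∈ Ioc (0 : ℝ) 1, ∀ g g' (t : ℝ), C1 (Bx d) g → C1 (Bx d) g' →
    M d (g + t • g') = M d g + (t : ℂ) • M d g'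
  bd : ∃ (C : ℝ) (s : ℕ), 0 ≤ C ∧ ∀ d ∈ Ioc (0 : ℝ) 1, ∀ g (L : ℝ≥0), C1 (Bx d) g →
    LipschitzWith L g → ‖M d g‖ ≤ C / d ^ s * L
  cov : ∀ d ∈ Ioc (0 : ℝ) 1, ∀ d' ∈ Ioc (0 : ℝ) 1, ∀ (g : R2 → ℝ) (u a b a' b' : R2), C1 (Bx d) g →
    C1 (Bx d') (fun y => g (y - u)) → 0 ≤ a 0 → 0 ≤ b 0 → 0 ≤ a' 0 → 0 ≤ b' 0 →
    a + (K * d) • e0 = a' + (K * d') • e0 + u → b + (K * d) • e0 = b' + (K * d') • e0 - u →
    E (euc a) * M d g * E (euc b) = E (euc a') * M d' (fun y => g (y - u)) * E (euc b')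
  adj : ∀ d ∈ Ioc (0 : ℝ) 1, ∀ g, C1 (Bx d) g → ∀ x y,
    inner ℂ (M d g x) y = inner ℂ x (M d (fun u => g (rf 0 u)) y)

/-- `A z w = E z * φ 0 * E w` -/
structure Pt (E : C2 → H →L[ℂ] H) (A : C2 → C2 → H →L[ℂ] H) : Prop where
  hol : DifferentiableOn ℂ (fun p : C2 × C2 => A p.1 p.2) (TO ×ˢ TO)
  bd : ∃ (C : ℝ) (N : ℕ), 0 ≤ C ∧ ∀ δ ∈ Ioc (0 : ℝ) 1, ∀ z ∈ TV δ, ∀ w ∈ TV δ, ‖A z w‖ ≤ C / δ ^ N
  cov : ∀ z ∈ TO, ∀ w ∈ TO, ∀ u ∈ TV 0, E u * A z w = A (u + z) w ∧ A z w * E u = A z (w + u)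
  adj : ∀ z ∈ TO, ∀ w ∈ TO, ∀ x y, inner ℂ (A z w x) y = inner ℂ x (A (-star w) (-star z) y)

/-- the smeared field is the integral of the point field -/
def Den (E : C2 → H →L[ℂ] H) (M : ℝ → (R2 → ℝ) → H →L[ℂ] H) (K : ℝ)
    (A : C2 → C2 → H →L[ℂ] H) : Prop := ∀ d ∈ Ioc (0 : ℝ) 1, ∀ g, C1 (Bx (d / 32)) g → ∀ x,
  E (ie d) (M d g (E (ie d) x)) =
    ∫ y, (g y : ℂ) • A (ie ((K + 1) * d) + euc y) (ie ((K + 1) * d) - euc y) x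

/-- `ψ n z = φ (z 0) .. φ (z (n - 1)) Ω` and `w n z = ⟪Ω, ψ n z⟫` -/
structure Vec (E : C2 → H →L[ℂ] H) (Ω : H) (ψ : ∀ n, (Fin n → C2) → H)
    (w : ∀ n, (Fin n → C2) → ℂ) : Prop where
  nil : ∀ z, ψ 0 z = Ω
  hol : ∀ n, DifferentiableOn ℂ (ψ n) (FT n)
  bd : ∀ n, ∃ (C : ℝ) (N : ℕ), 0 ≤ C ∧ ∀ δ ∈ Ioc (0 : ℝ) 1, ∀ z ∈ FTd n δ, ‖ψ n z‖ ≤ C / δ ^ N
  cov : ∀ n, ∀ z ∈ FT n, ∀ u ∈ TV 0, E u (ψ n z) = ψ n fun i => z i + u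
  whol : ∀ n, DifferentiableOn ℂ (w n) (Tube n)
  wtr : ∀ n z (c : C2), w n (fun i => z i + c) = w n z
  wval : ∀ n, ∀ z ∈ FT n, w n z = inner ℂ Ω (ψ n z)
  inn : ∀ m n, ∀ a ∈ FT m, ∀ b ∈ FT n, inner ℂ (ψ m a) (ψ n b) = w (m + n) (glue a b)
  shift : ∀ m n (p c : C2), ∀ a ∈ FT m, ∀ b ∈ FT n, p ∈ TO → star p - c ∈ TO →
    inner ℂ (ψ m a) (ψ (n + 1) (Fin.cons (star p - c) fun i => b i - c)) =
      inner ℂ (ψ (m + 1) (Fin.cons p fun i => a i + star c)) (ψ n b)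

/-- the recursion -/
def Rec (A : C2 → C2 → H →L[ℂ] H) (ψ : ∀ n, (Fin n → C2) → H) : Prop :=
  ∀ n, ∀ p ∈ TO, ∀ u ∈ TO, ∀ z ∈ FT n,
    ψ (n + 1) (Fin.cons p fun i => z i + (p + u)) = A p u (ψ n z)

/-- Euclidean invariance and symmetry at Euclidean points -/
def E1 (w : ∀ n, (Fin n → C2) → ℂ) : Prop := ∀ n R (σ : Equiv.Perm (Fin n)) (y : Fin n → R2),
  SO R → StrictMono (fun i => y (σ i) 0) → StrictMono (fun i => act R (y i) 0) →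
    w n (fun i => euc (y (σ i))) = w n fun i => euc (act R (y i))

/-- the same at complex points -/
def E1c (w : ∀ n, (Fin n → C2) → ℂ) : Prop := ∀ n R (σ : Equiv.Perm (Fin n)) (y : Fin n → R2),
  SO R → StrictMono (fun i => y (σ i) 0) → StrictMono (fun i => act R (y i) 0) →
    ∀ z : Fin n → C2, (fun i => z (σ i)) ∈ Tube n → (fun i => wick R *ᵥ z i) ∈ Tube n →
      w n (fun i => z (σ i)) = w n fun i => wick R *ᵥ z i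

/-- Lorentz invariance -/
def Linv (w : ∀ n, (Fin n → C2) → ℂ) : Prop :=
  ∀ n L, Lor L → ∀ z ∈ Tube n, w n (fun i => cact L (z i)) = w n z

/-- the abstract input of the reconstruction -/
structure Sys0 (E : C2 → H →L[ℂ] H) (Ω : H) (ψ : ∀ n, (Fin n → C2) → H)
    (w : ∀ n, (Fin n → C2) → ℂ) : Prop extends Vec E Ω ψ w where
  tub : Tub E
  unit : ‖Ω‖ = 1
  spec : Spec fun a => E (rl a)
  vac : ∀ x, (∀ a, E (rl a) x = x) → ∃ c : ℂ, x = c • Ω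

/-- the vectors `ψ n z` are total -/
structure Sys (E : C2 → H →L[ℂ] H) (Ω : H) (ψ : ∀ n, (Fin n → C2) → H)
    (w : ∀ n, (Fin n → C2) → ℂ) : Prop extends Sys0 E Ω ψ w where
  total : ∀ x, (∀ n, ∀ z ∈ FT n, inner ℂ x (ψ n z) = 0) → x = 0

/-- boundary values -/
def IsBV (ψ : ∀ n, (Fin n → C2) → H) (Φ : ∀ n, Sw n →L[ℂ] H) : Prop :=
  ∀ n, ∀ η ∈ Dir n, ∀ F : Sw n, ∃ B : ℝ, ∀ (a : Fin n → R2) (F' : Sw n), (∀ x, F' x = F (x - a)) →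
    ∀ t ∈ Ioc (0 : ℝ) 1, ‖(∫ x, F' x • ψ n (cxn x (t • η))) - Φ n F'‖ ≤ B * t

/-- hermiticity -/
def Herm (Φ : ∀ n, Sw n →L[ℂ] H) : Prop := ∀ m n (G : Sw m) (F : Sw n) (f g : Tf),
  (∀ u, g u = starRingEnd ℂ (f u)) →
    inner ℂ (Φ m G) (Φ (n + 1) (cs f F)) = inner ℂ (Φ (m + 1) (cs g G)) (Φ n F)

/-- cyclicity -/
def Cyc (Φ : ∀ n, Sw n →L[ℂ] H) : Prop :=
  ∀ x, (∀ n (f : Fin n → Tf), inner ℂ x (Φ n (tn f)) = 0) → x = 0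

/-- locality for compact supports separated in the direction of one unit vector -/
def Loc1 (Φ : ∀ n, Sw n →L[ℂ] H) : Prop := ∀ u, Un u → ∀ f g : Tf, HasCompactSupport f →
  HasCompactSupport g → (∀ x ∈ tsupport f, ∀ y ∈ tsupport g, |y 0 - x 0| < inner ℝ (y - x) u) →
    ∀ n (F : Sw n), Φ (n + 2) (cs f (cs g F)) = Φ (n + 2) (cs g (cs f F))

/-- locality -/
def Loc2 (Φ : ∀ n, Sw n →L[ℂ] H) : Prop := ∀ f g : Tf,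
  (∀ x ∈ tsupport f, ∀ y ∈ tsupport g, mink (x - y) (x - y) < 0) →
    ∀ n (F : Sw n), Φ (n + 2) (cs f (cs g F)) = Φ (n + 2) (cs g (cs f F))

/-- the representation of the Poincare group -/
structure Poi (E : C2 → H →L[ℂ] H) (Ω : H) (Φ : ∀ n, Sw n →L[ℂ] H)
    (U : R2 → Mat → H →L[ℂ] H) : Prop where
  rep : ∀ a L, Lor L → Function.Surjective (U a L) ∧ (∀ x, ‖U a L x‖ = ‖x‖) ∧
    ∀ b M, Lor M → U a L * U b M = U (a + act L b) (L * M)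
  cont : ∀ x, ContinuousOn (fun p : R2 × Mat => U p.1 p.2 x) {p | Lor p.2}
  tr : ∀ a, U a 1 = E (rl a)
  vac : ∀ a L, Lor L → U a L Ω = Ω
  cov : ∀ a L, Lor L → ∀ n (F F' : Sw n), (∀ x, F' (fun i => a + act L (x i)) = F x) →
    U a L (Φ n F) = Φ n F'

/-- the vacuum expectation values are boundary values -/
def Bdry (w : ∀ n, (Fin n → C2) → ℂ) (V : ∀ n, (Fin n → Tf) → ℂ) : Prop :=
  ∀ n (f : Fin n → Tf) (G : ℝ → (Fin n → R2) → ℂ),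
    (∀ ε x, G ε x =
      (∏ i, f i (x i)) * w n fun i μ => x i μ + if μ = 0 then I * ε * (i : ℕ) else 0) →
    (∀ ε > 0, Integrable (G ε)) ∧ Tendsto (fun ε => ∫ x, G ε x) (𝓝[>] 0) (𝓝 (V n f))

end

/-- distributions of order one whose translates are holomorphic -/
structure Dist {X : Type} [NormedAddCommGroup X] [NormedSpace ℂ X] (ρ c : ℝ)
    (F : (R2 → ℝ) → C2 → X) : Prop where
  lin : ∀ g g' (t : ℝ), C1 (Bx ρ) g → C1 (Bx ρ) g' → ∀ v ∈ ball (0 : C2) ρ,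
    F (g + t • g') v = F g v + (t : ℂ) • F g' v
  bd : ∀ g (L : ℝ≥0), C1 (Bx ρ) g → LipschitzWith L g → ∀ v ∈ ball (0 : C2) ρ, ‖F g v‖ ≤ c * L
  hol : ∀ g, C1 (Bx ρ) g → DifferentiableOn ℂ (F g) (ball 0 ρ)
  cov : ∀ g (u : R2), C1 (Bx ρ) g → C1 (Bx ρ) (fun y => g (y - u)) → ∀ v ∈ ball (0 : C2) ρ,
    v + rl u ∈ ball (0 : C2) ρ → F (fun y => g (y - u)) v = F g (v + rl u)

/-! ### Statements -/

def S_A1 : Prop := ∀ (H : Type) [NormedAddCommGroup H] [InnerProductSpace ℂ H] [CompleteSpace H]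
  (T : R2 → H →L[ℂ] H), Sg T → ∃ U S, Ext T U S

def S_A2 : Prop := ∀ (H : Type) [NormedAddCommGroup H] [InnerProductSpace ℂ H] [CompleteSpace H]
  (U : R2 → H →L[ℂ] H), Grp U → ∀ x, ∃ μ, Four U x μ

def S_A3 : Prop := ∀ (H : Type) [NormedAddCommGroup H] [InnerProductSpace ℂ H] [CompleteSpace H]
  (T U : R2 → H →L[ℂ] H) (S : ℂ → H →L[ℂ] H), Sg T → ConeH T → Ext T U S →
    ∀ x μ, Four U x μ → ∀ᵐ p ∂μ, 0 ≤ mg p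

def S_A4 : Prop := ∀ (H : Type) [NormedAddCommGroup H] [InnerProductSpace ℂ H] [CompleteSpace H]
  (U : R2 → H →L[ℂ] H), Grp U → Spec U → ∃ E, Tub E ∧ ∀ a, E (rl a) = U a

def S_A : Prop := ∀ (H : Type) [NormedAddCommGroup H] [InnerProductSpace ℂ H] [CompleteSpace H]
  (T : R2 → H →L[ℂ] H), Sg T → ConeH T → ∃ E, Tub E ∧ (∀ v : R2, 0 ≤ v 0 → E (euc v) = T v) ∧
    Spec (fun a => E (rl a)) ∧ (∀ x, (∀ a, E (rl a) x = x) → ∀ v : R2, 0 ≤ v 0 → T v x = x) ∧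
    ∀ x, (∀ v : R2, 0 ≤ v 0 → T v x = x) → ∀ z ∈ TV 0, E z x = x

def S_Da : Prop := ∃ (C : ℝ) (b : R2 → ℝ), C1 (Bx 3) b ∧ ∫ y, b y = 1 ∧
  ∀ (X : Type) [NormedAddCommGroup X] [NormedSpace ℂ X] [CompleteSpace X] (c : ℝ)
    (F : (R2 → ℝ) → C2 → X), 0 ≤ c → Dist 1 c F → ∀ r ∈ Ioo (0 : ℝ) (1 / 100),
      ∀ v ∈ ball (0 : C2) (1 / 2), ‖F (fun y => r⁻¹ ^ 2 * b (r⁻¹ • y)) v‖ ≤ C * c

def S_Dens : Prop := ∃ (C : ℝ) (N : ℕ), 0 ≤ C ∧ ∀ (X : Type) [NormedAddCommGroup X] [NormedSpace ℂ X]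
  [NormedSpace ℝ X] [IsScalarTower ℝ ℂ X] [CompleteSpace X] (c : ℝ) (F : (R2 → ℝ) → C2 → X),
    ∀ ρ ∈ Ioc (0 : ℝ) 1, 0 ≤ c → Dist ρ c F → ∃ a : R2 → X, ContinuousOn a (Bx (ρ / 4)) ∧
      (∀ x ∈ Bx (ρ / 4), ‖a x‖ ≤ C * c / ρ ^ N) ∧
      ∀ g, C1 (Bx (ρ / 4)) g → F g 0 = ∫ x, (g x : ℂ) • a x

def S_C : Prop := ∀ (H : Type) [NormedAddCommGroup H] [InnerProductSpace ℂ H] [CompleteSpace H]
  (E : C2 → H →L[ℂ] H) M K, Tub E → Smear E M K → ∃ A, Pt E A ∧ Den E M K A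

def S_D : Prop := ∀ (H : Type) [NormedAddCommGroup H] [InnerProductSpace ℂ H] [CompleteSpace H]
  (E : C2 → H →L[ℂ] H) A Ω, Tub E → Pt E A → (∀ z ∈ TV 0, E z Ω = Ω) →
    ∃ ψ w, Vec E Ω ψ w ∧ Rec A ψ

def S_R : Prop := ∀ (H : Type) [NormedAddCommGroup H] [InnerProductSpace ℂ H] [CompleteSpace H]
  (E : C2 → H →L[ℂ] H) Ω ψ w, Sys0 E Ω ψ w →
    ∃ (K : Type) (_ : NormedAddCommGroup K) (_ : InnerProductSpace ℂ K) (_ : CompleteSpace K)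
      (E' : C2 → K →L[ℂ] K) (Ω' : K) (ψ' : ∀ n, (Fin n → C2) → K), Sys E' Ω' ψ' w

def S_F1 : Prop := ∀ w : ∀ n, (Fin n → C2) → ℂ,
  (∀ n, DifferentiableOn ℂ (w n) (Tube n)) → E1 w → E1c w

def S_F2 : Prop := ∀ w : ∀ n, (Fin n → C2) → ℂ,
  (∀ n, DifferentiableOn ℂ (w n) (Tube n)) → E1c w → Linv w

def S_BV : Prop := ∀ (n N : ℕ) (X : Type) [NormedAddCommGroup X] [NormedSpace ℂ X] [NormedSpace ℝ X]
  [IsScalarTower ℝ ℂ X] [CompleteSpace X] (ψ : (Fin n → C2) → X) (O : Set (Fin n → C2))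
  (K : Set (Fin n → R2)) (C : ℝ), IsOpen O → DifferentiableOn ℂ ψ O → Convex ℝ K → K.Nonempty →
    Bornology.IsBounded K →
    (∀ x, ∀ t ∈ Ioc (0 : ℝ) 1, ∀ η ∈ K, cxn x (t • η) ∈ O ∧ ‖ψ (cxn x (t • η))‖ ≤ C / t ^ N) →
    ∃ Φ : Sw n →L[ℂ] X, ∀ F : Sw n, ∃ B : ℝ, ∀ (a : Fin n → R2) (F' : Sw n),
      (∀ x, F' x = F (x - a)) → ∀ η ∈ K, ∀ t ∈ Ioc (0 : ℝ) 1,
        ‖(∫ x, F' x • ψ (cxn x (t • η))) - Φ F'‖ ≤ B * t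

def S_Phi : Prop := ∀ (H : Type) [NormedAddCommGroup H] [InnerProductSpace ℂ H] [CompleteSpace H]
  (E : C2 → H →L[ℂ] H) Ω ψ w, Vec E Ω ψ w → ∃ Φ, IsBV ψ Φ ∧ Φ 0 one0 = Ω ∧
    Bdry w fun n f => inner ℂ Ω (Φ n (tn f))

def S_Cyc : Prop := ∀ (H : Type) [NormedAddCommGroup H] [InnerProductSpace ℂ H] [CompleteSpace H]
  (E : C2 → H →L[ℂ] H) Ω ψ w Φ, Sys E Ω ψ w → IsBV ψ Φ → Cyc Φ

def S_Herm : Prop := ∀ (H : Type) [NormedAddCommGroup H] [InnerProductSpace ℂ H] [CompleteSpace H]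
  (E : C2 → H →L[ℂ] H) Ω ψ w Φ, Sys E Ω ψ w → IsBV ψ Φ → Herm Φ

def S_L1 : Prop := ∀ (H : Type) [NormedAddCommGroup H] [InnerProductSpace ℂ H] [CompleteSpace H]
  (E : C2 → H →L[ℂ] H) Ω ψ w Φ, Sys E Ω ψ w → E1c w → IsBV ψ Φ → Loc1 Φ

def S_L2 : Prop := ∀ (H : Type) [NormedAddCommGroup H] [InnerProductSpace ℂ H] [CompleteSpace H]
  (Φ : ∀ n, Sw n →L[ℂ] H), Loc1 Φ → Loc2 Φ

def S_G1 : Prop := ∀ (H : Type) [NormedAddCommGroup H] [InnerProductSpace ℂ H] [CompleteSpace H]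
  (E : C2 → H →L[ℂ] H) Ω ψ w Φ, Sys E Ω ψ w → Linv w → IsBV ψ Φ → ∃ U, Poi E Ω Φ U

end Pool.Agent.Lib.MP_7f377f_mp.W2
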