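import Pool.Agent.Lib.MP_7f377f_mp.G.XVSpec
import Pool.Agent.Lib.MP_7f377f_mp.G.XD

/-! The vector valued Wightman functions with labels. -/

noncomputable section

namespace Pool.Agent.Lib.MP_7f377f_mp.W2.L

open Filter Topology Set Complex W2.D

namespace D

variable {V : Type} [AddCommGroup V] [Module ℝ V] [InvolutiveStar V]
  {H : Type} [NormedAddCommGroup H] [InnerProductSpace ℂ H] {E : C2 → H →L[ℂ] H}
  {A : V → C2 → C2 → H →L[ℂ] H} {Ω : H} {n : ℕ}

/-- the vectors -/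
def ps (A : V → C2 → C2 → H →L[ℂ] H) (Ω : H) : Fm V H
  | 0, _, _ => Ω
  | n + 1, a, z => A (a 0) (z 0) (ie (tt z))
      (ps A Ω n (Fin.tail a) fun i => z i.succ - z 0 - ie (tt z))

/-- covariance -/
def Cov (E : C2 → H →L[ℂ] H) (A : V → C2 → C2 → H →L[ℂ] H) (Ω : H) (n : ℕ) : Prop :=
  ∀ a, ∀ z ∈ FT n, ∀ u ∈ TV 0, E u (ps A Ω n a z) = ps A Ω n a fun i => z i + u

theorem eq_of (hA : Pt E A) (h : Cov E A Ω n) {a : Fin (n + 1) → V} {z : Fin (n + 1) → C2} {u : C2}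
    (h0 : z 0 ∈ TO) (hu : u ∈ TO) (hz : (fun i : Fin n => z i.succ - z 0 - u) ∈ FT n) :
    ps A Ω (n + 1) a z =
      A (a 0) (z 0) u (ps A Ω n (Fin.tail a) fun i => z i.succ - z 0 - u) := by
  have key : ∀ {u : C2} {t : ℝ}, 0 < t → u - ie t ∈ TO →
      (fun i : Fin n => z i.succ - z 0 - u) ∈ FT n →
      A (a 0) (z 0) u (ps A Ω n (Fin.tail a) fun i => z i.succ - z 0 - u) =
        A (a 0) (z 0) (ie t) (ps A Ω n (Fin.tail a) fun i => z i.succ - z 0 - ie t) :=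
      fun {u t} t0 e1 e2 => by
    have := (hA.cov (a 0) _ h0 _ (ie_to t0) _ (TO.tv e1)).2
    rw [add_sub_cancel] at this
    rw [← this, mul_apply_eq_comp, h _ _ e2 _ (TO.tv e1)]
    simp only [sub_add_sub_cancel]
  have m : z ∈ FT (n + 1) := Fin.cons_self_tail z ▸ cons_mem.2 ⟨h0, by
    simpa [Fin.tail] using FT.add hz (TO.tv hu)⟩
  have e := Classical.epsilon_spec (ex_t m)
  obtain ⟨t, t0, t1, t2⟩ := (Eventually.and (f := 𝓝[>] (0 : ℝ)) self_mem_nhdsWithin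
    ((sub_to hu).and (sub_to (ie_to e.1)))).exists
  exact (key t0 t2 e.2).trans (key t0 t1 hz).symm

theorem cov (hA : Pt E A) (hΩ : ∀ z ∈ TV 0, E z Ω = Ω) : ∀ n, Cov E A Ω n
  | 0 => fun _ _ _ u hu => hΩ u hu
  | n + 1 => fun a z hz u hu => by
    obtain ⟨t, t0, t1⟩ := ex_t hz
    rw [eq_of hA (cov hA hΩ n) (hz.1 0) (ie_to t0) t1, eq_of hA (cov hA hΩ n)
      (TO.add (hz.1 0) hu) (ie_to t0) (by simpa using t1), ← mul_apply_eq_comp,
      (hA.cov _ _ (hz.1 0) _ (ie_to t0) u hu).1, add_comm u]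
    simp only [add_sub_add_right_eq_sub]

theorem recu (hA : Pt E A) (hΩ : ∀ z ∈ TV 0, E z Ω = Ω) : Rec A (ps A Ω) :=
    fun n c a p hp u hu z hz => by
  have e : (fun i : Fin n => z i + (p + u) - p - u) = z := funext fun i => by abel
  rw [eq_of hA (cov hA hΩ n) (u := u) hp hu (by simpa only [Fin.cons_succ, Fin.cons_zero, e])]
  simp only [Fin.cons_succ, Fin.cons_zero, e, Fin.tail_cons]

theorem hol (hA : Pt E A) (hΩ : ∀ z ∈ TV 0, E z Ω = Ω) : ∀ n a,
    DifferentiableOn ℂ (ps A Ω n a) (FT n)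
  | 0, _ => differentiableOn_const Ω
  | n + 1, a => fun z hz => by
    obtain ⟨t, t0, t1⟩ := ex_t hz
    have d : Differentiable ℂ fun (y : Fin (n + 1) → C2) (i : Fin n) => y i.succ - y 0 - ie t := by
      fun_prop
    have d1 := ((hol hA hΩ n (Fin.tail a)).differentiableAt ((isOpen_FT n).mem_nhds t1)).comp z (d z)
    have d2 := ((hA.hol (a 0)).differentiableAt (x := (z 0, ie t))
      ((isOpen_TO.prod isOpen_TO).mem_nhds ⟨hz.1 0, ie_to t0⟩)).comp z
      (f := fun y : Fin (n + 1) → C2 => (y 0, ie t)) (by fun_prop)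
    refine ((d2.clm_apply d1).congr_of_eventuallyEq ?_).differentiableWithinAt
    filter_upwards [(isOpen_FT _).mem_nhds hz,
      d.continuous.continuousAt.eventually ((isOpen_FT n).mem_nhds t1)] with y e1 e2
    exact eq_of hA (cov hA hΩ n) (e1.1 0) (ie_to t0) e2

theorem bd (hA : Pt E A) (hΩ : ∀ z ∈ TV 0, E z Ω = Ω) : ∀ n a, ∃ (C : ℝ) (N : ℕ), 0 ≤ C ∧
    ∀ δ ∈ Ioc (0 : ℝ) 1, ∀ z ∈ FTd n δ, ‖ps A Ω n a z‖ ≤ C / δ ^ N
  | 0, _ => ⟨‖Ω‖, 0, norm_nonneg _, fun _ _ _ _ => by simp [ps]⟩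
  | n + 1, a => by
    obtain ⟨C, N, C0, h⟩ := bd hA hΩ n (Fin.tail a)
    obtain ⟨C', N', C0', h'⟩ := hA.bd (a 0)
    refine ⟨C' * C * 2 ^ (N' + N), N' + N, by positivity, fun δ hδ z hz => ?_⟩
    have d0 := half_pos hδ.1
    have d1 : δ / 2 ∈ Ioc (0 : ℝ) 1 := ⟨d0, by linarith [hδ.2]⟩
    have d2 : δ / 2 ≤ δ := half_le_self hδ.1.le
    have m : (fun i : Fin n => z i.succ - z 0 - ie (δ / 2)) ∈ FTd n (δ / 2) :=
      ⟨fun i => TV.mono (by linarith) (sub_ie_mem (hz.2 0 i.succ i.succ_pos)), fun i j e => by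
        simpa using TV.mono d2 (hz.2 i.succ j.succ (Fin.succ_lt_succ_iff.2 e))⟩
    rw [eq_of hA (cov hA hΩ n) (TV.to hδ.1 (hz.1 0)) (ie_to d0) (FTd.ft d0 m)]
    refine (ContinuousLinearMap.le_opNorm _ _).trans ((mul_le_mul
      (h' _ d1 _ (TV.mono d2 (hz.1 0)) _ (ie_mem _)) (h _ d1 _ m) (norm_nonneg _)
      (by positivity)).trans_eq ?_)
    rw [div_pow, div_pow, pow_add, pow_add]
    field_simp

/-- the scalar functions -/
def ww (A : V → C2 → C2 → H →L[ℂ] H) (Ω : H) : Fm V ℂ := fun n a z =>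
  inner ℂ Ω (ps A Ω n a fun i => z i - fst z + ie 1)

theorem whol (hA : Pt E A) (hΩ : ∀ z ∈ TV 0, E z Ω = Ω) (n : ℕ) (a) :
    DifferentiableOn ℂ (ww A Ω n a) (Tube n) := by
  have d : Differentiable ℂ fun (p : Fin n → C2) i => p i - fst p + ie 1 := by
    cases n <;> simp only [fst] <;> fun_prop
  exact (innerSL ℂ Ω).differentiable.comp_differentiableOn
    ((hol hA hΩ n a).comp d.differentiableOn fun _ h => nm_ft h)

theorem wtr (n : ℕ) (a) (z : Fin n → C2) (c : C2) :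
    ww A Ω n a (fun i => z i + c) = ww A Ω n a z := by
  cases n with
  | zero => rfl
  | succ n => simp [ww, fst]

theorem wval (hE : Tub E) (hA : Pt E A) (hΩ : ∀ z ∈ TV 0, E z Ω = Ω) (n : ℕ) (a) (z : Fin n → C2)
    (hz : z ∈ FT n) : ww A Ω n a z = inner ℂ Ω (ps A Ω n a z) := by
  have key : ∀ z ∈ FT n, ∀ u ∈ TV 0,
      inner ℂ Ω (ps A Ω n a fun i => z i + u) = inner ℂ Ω (ps A Ω n a z) := fun z hz u hu => by
    have := hE.adj _ (neg_star_mem hu) Ω (ps A Ω n a z)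
    rw [hΩ _ (neg_star_mem hu), star_neg, star_star, neg_neg, cov hA hΩ n a z hz u hu] at this
    exact this.symm
  have f : fst z ∈ TV 0 := by
    cases n with
    | zero => simp [fst, TV]
    | succ n => exact TO.tv (hz.1 0)
  rw [ww, ← key _ (nm_ft (FT.tube hz)) _ f, ← key z hz _ (TV.mono zero_le_one (ie_mem 1))]
  congr 2
  funext i
  abel

theorem shift (hA : Pt E A) (hΩ : ∀ z ∈ TV 0, E z Ω = Ω) (m n : ℕ) (α β) (γ : V) (p c : C2)
    (a : Fin m → C2) (ha : a ∈ FT m) (b : Fin n → C2) (hb : b ∈ FT n) (hp : p ∈ TO)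
    (hc : star p - c ∈ TO) :
    inner ℂ (ps A Ω m α a)
        (ps A Ω (n + 1) (Fin.cons γ β) (Fin.cons (star p - c) fun i => b i - c)) =
      inner ℂ (ps A Ω (m + 1) (Fin.cons (star γ) α) (Fin.cons p fun i => a i + star c))
        (ps A Ω n β b) := by
  have e1 := recu hA hΩ n γ β _ hc _ (neg_star_mem' hp) b hb
  have e2 := recu hA hΩ m (star γ) α _ hp _ (neg_star_mem' hc) a ha
  have e3 := hA.adj γ _ hp _ (neg_star_mem' hc) (ps A Ω m α a) (ps A Ω n β b)
  rw [show star p - c + -star p = -c by abel] at e1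
  rw [show p + -star (star p - c) = star c by simp] at e2
  rw [star_neg, star_star, neg_neg] at e3
  rw [e2, e3, ← e1]
  simp only [sub_eq_add_neg]

theorem ww_cast {n n' : ℕ} (h : n = n') (a : Fin n' → V) (z : Fin n' → C2) :
    ww A Ω n (a ∘ Fin.cast h) (z ∘ Fin.cast h) = ww A Ω n' a z := by
  subst h
  rfl

theorem rev_snoc {X : Type} [Star X] {m : ℕ} (a : Fin (m + 1) → X) :
    (fun i : Fin (m + 1) => star (a i.rev)) =
      Fin.snoc (fun i : Fin m => star (a i.rev.succ)) (star (a 0)) := by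
  funext i
  induction i using Fin.lastCases with
  | last => simp
  | cast i => simp [Fin.rev_castSucc]

theorem inn (hE : Tub E) (hA : Pt E A) (hΩ : ∀ z ∈ TV 0, E z Ω = Ω) : ∀ m n α β, ∀ a ∈ FT m,
    ∀ b ∈ FT n, inner ℂ (ps A Ω m α a) (ps A Ω n β b) = ww A Ω (m + n) (gl α β) (glue a b)
  | 0, n, α, β, a, _, b, hb => by
    rw [glue, gl, Fin.append_left_nil _ _ rfl, Fin.append_left_nil _ _ rfl, ww_cast,
      wval hE hA hΩ n β b hb]
    rfl
  | m + 1, n, α, β, a, ha, b, hb => by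
    obtain ⟨t, t0, t1⟩ := ex_t ha
    have e : star (a 0) - star (a 0 + ie t) ∈ TO := by simpa [star_ie] using ie_to t0
    have e1 := shift hA hΩ m n (Fin.tail α) β (star (α 0)) (a 0) (star (a 0 + ie t)) _ t1 b hb
      (ha.1 0) e
    have e2 : (Fin.cons (a 0) fun i : Fin m => a i.succ - a 0 - ie t + star (star (a 0 + ie t))) =
        a := by
      funext i
      induction i using Fin.cases with
      | zero => rfl
      | succ i => simp
    rw [e2, star_star, Fin.cons_self_tail] at e1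
    rw [← e1, inn hE hA hΩ m (n + 1) _ _ _ t1 _ (cons_mem.2 ⟨e, by
      simpa only [sub_sub_sub_cancel_right, ← sub_eq_add_neg] using
        FT.add hb (TO.tv (neg_star_mem' (ha.1 0)))⟩),
      ← wtr _ _ _ (star (a 0 + ie t)), ← ww_cast (Nat.succ_add_eq_add_succ m n)]
    congr 1
    · rw [gl, gl, rev_snoc, Fin.append_left_snoc]
      rfl
    rw [glue, glue, rev_snoc, Fin.append_left_snoc]
    congr 1
    funext i
    induction i using Fin.addCases with
    | left i => simp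
    | right i =>
      induction i using Fin.cases with
      | zero => simp
      | succ i => simp

theorem lin (hA : Pt E A) (n) (t : ℝ) (c c' : V) (a) (z) (hz : z ∈ FT (n + 1)) :
    ps A Ω (n + 1) (Fin.cons (t • c + c') a) z =
      (t : ℂ) • ps A Ω (n + 1) (Fin.cons c a) z + ps A Ω (n + 1) (Fin.cons c' a) z := by
  simp only [ps, Fin.cons_zero, Fin.tail_cons]
  rw [hA.lin t c c' _ (hz.1 0) _ (ie_to (t := tt z) (Classical.epsilon_spec (ex_t hz)).1)]
  rfl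

end D

open D in
theorem sD_of {V : Type} [AddCommGroup V] [Module ℝ V] [InvolutiveStar V]
    {H : Type} [NormedAddCommGroup H] [InnerProductSpace ℂ H] : S_D V H := fun _ A Ω hE hA hΩ =>
  ⟨ps A Ω, ww A Ω, ⟨fun _ _ => rfl, hol hA hΩ, bd hA hΩ, cov hA hΩ, whol hA hΩ, wtr,
    wval hE hA hΩ, inn hE hA hΩ, fun m n α β γ p c a ha b hb => shift hA hΩ m n α β γ p c a ha b hb,
    lin hA⟩, recu hA hΩ⟩

end Pool.Agent.Lib.MP_7f377f_mp.W2.L
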