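import Pool.Agent.Lib.MP_7f377f_mp.G.XVPhi
import Pool.Agent.Lib.MP_7f377f_mp.G.XVR
import Pool.Agent.Lib.MP_7f377f_mp.G.XG1

/-! Labels: the representation of the Poincare group, the domain and the fields. -/

noncomputable section

namespace Pool.Agent.Lib.MP_7f377f_mp.W2.L

open MeasureTheory Filter Topology Set Complex W2.G1 DirectSum

variable {V : Type} [AddCommGroup V] [Module ℝ V] [InvolutiveStar V]
  {H : Type} [NormedAddCommGroup H] [InnerProductSpace ℂ H] [CompleteSpace H] {m n : ℕ}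

theorem sG1_of : S_G1 V H := fun E Ω ψ w Φ h l b => by
  let ι := Σ n, (Fin n → V) × FT n
  have d : Dense (Submodule.span ℂ (range fun p : ι => ψ p.1 p.2.1 p.2.2) : Set H) := by
    rw [Submodule.dense_iff_topologicalClosure_eq_top, Submodule.topologicalClosure_eq_top_iff,
      Submodule.eq_bot_iff]
    exact fun x hx => h.total x fun n a z hz => Submodule.inner_left_of_mem_orthogonal
      (Submodule.subset_span (mem_range_self (f := fun p : ι => ψ p.1 p.2.1 p.2.2)
        ⟨n, a, z, hz⟩)) hx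
  have ext : ∀ {A B : H →L[ℂ] H}, (∀ n a, ∀ z ∈ FT n, A (ψ n a z) = B (ψ n a z)) → A = B :=
    fun e => ContinuousLinearMap.ext_on d (by rintro _ ⟨p, rfl⟩; exact e _ _ _ p.2.2.2)
  have : ∀ a L, ∃ U : H →L[ℂ] H, Lor L → (∀ y, ‖U y‖ ≤ ‖y‖) ∧ ∀ n α, ∀ z ∈ FT n,
      U (ψ n α z) = ψ n α fun i => rl a + cact L (z i) := fun a L => by
    by_cases hL : Lor L
    · obtain ⟨U, v1, v2⟩ := A4.exists_V (u := fun p : ι => ψ p.1 p.2.1 p.2.2)
        (v := fun p => ψ p.1 p.2.1 fun i => rl a + cact L (p.2.2.1 i))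
        fun p q => by
          rw [h.inn _ _ _ _ _ p.2.2.2 _ q.2.2.2, h.inn _ _ _ _ _ (lor_ft hL a p.2.2.2) _
            (lor_ft hL a q.2.2.2), glue_act, h.wtr _ _ fun i => cact L (glue _ _ i),
            l _ _ L hL _ (glue_mem p.2.2.2 q.2.2.2)]
      exact ⟨U, fun _ => ⟨v1, fun n α z hz => v2 ⟨n, α, z, hz⟩⟩⟩
    · exact ⟨0, fun h => absurd h hL⟩
  choose U hU using this
  have mu : ∀ a L, Lor L → ∀ b M, Lor M → U a L * U b M = U (a + act L b) (L * M) :=
    fun a L hL b M hM => ext fun n α z hz => by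
      rw [mul_apply_eq_comp, (hU b M hM).2 n α z hz, (hU a L hL).2 n _ _ (lor_ft hM b hz),
        (hU _ _ (lor_mul hL hM)).2 n α z hz]
      simp only [cact_add, cact_rl, cact_mul, rl_add, add_assoc]
  have tr : ∀ a, U a 1 = E (rl a) := fun a => ext fun n α z hz => by
    rw [(hU a 1 lor_one).2 n α z hz, h.cov n α z hz _ (rl_mem a)]
    simp only [cact_one, add_comm]
  have one : U 0 1 = 1 := by rw [tr, rl_zero, h.tub.zero]
  have nr : ∀ a L, Lor L → ∀ x, ‖U a L x‖ = ‖x‖ := fun a L hL x => by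
    obtain ⟨M, hM, -, e⟩ := lor_inv hL
    refine le_antisymm ((hU a L hL).1 x) (le_trans (le_of_eq ?_) ((hU (-act M a) M hM).1 _))
    rw [← mul_apply_eq_comp, mu _ _ hM _ _ hL, neg_add_cancel, e, one, one_apply_eq_self]
  refine ⟨U, fun a L hL => ⟨fun x => ?_, nr a L hL, mu a L hL⟩, YM7.cont_ext d (fun p hp =>
    ContinuousLinearMap.opNorm_le_bound _ zero_le_one fun x => by rw [nr _ _ hp, one_mul]) fun q => ?_,
    tr, fun a L hL => ?_, fun a L hL n α F F' e => ?_⟩
  · obtain ⟨M, hM, e, -⟩ := lor_inv hL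
    refine ⟨U (-act M a) M x, ?_⟩
    rw [← mul_apply_eq_comp, mu _ _ hL _ _ hM, act_neg, ← act_mul, e, act_one, add_neg_cancel, one,
      one_apply_eq_self]
  · exact ((h.hol q.1 _).continuousOn.comp
      (f := fun p : R2 × Mat => fun i => rl p.1 + cact p.2 (q.2.2.1 i)) (by fun_prop)
      fun p hp => lor_ft hp p.1 q.2.2.2).congr fun p hp => (hU _ _ hp).2 _ _ _ q.2.2.2
  · have := (hU a L hL).2 0 0 0 ⟨fun i => i.elim0, fun i => i.elim0⟩
    rwa [h.nil, h.nil] at this
  · refine tendsto_nhds_unique (((U a L).continuous.tendsto _).comp ((b _ _).lim (dir_ne n) F))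
      (((b _ _).lim (dir_act hL (dir_ne n)) F').congr'
        (eventually_mem_nhdsWithin.mono fun t ht => ?_))
    refine ((int_act hL.2.1 a _).symm.trans (integral_congr_ae (.of_forall fun x => ?_))).trans
      (LinearIsometry.integral_comp_comm (𝕜 := ℂ) ⟨(U a L).toLinearMap, nr a L hL⟩ _)
    change _ = U a L _
    rw [map_smul, (hU a L hL).2 n _ _ (dir_mem (dir_ne n) x ht), ← e x]
    refine congrArg (fun z => _ • ψ n _ z) (funext fun i => ?_)
    simp only [cxn, cact_cx, Pi.smul_apply, act_smul, ← cx_zero, ← cx_add, zero_add]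

namespace G2

open scoped Classical

/-- finite sequences of labels -/
abbrev Ix (V : Type) : Type := Σ n, Fin n → V

/-- the test functions -/
abbrev Sx (p : Ix V) : Type := Sw p.1

variable (Φ : Ds V H)

/-- the sum of the boundary values -/
def tot : (⨁ p : Ix V, Sx p) →ₗ[ℂ] H := toModule ℂ _ H fun p => (Φ p.1 p.2).toLinearMap

/-- the domain -/
def dom : Submodule ℂ H := LinearMap.range (tot Φ)

/-- the sum with values in the domain -/
def R : (⨁ p : Ix V, Sx p) →ₗ[ℂ] dom Φ := (tot Φ).rangeRestrict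

/-- the generators of the domain -/
def v (n : ℕ) (a : Fin n → V) : Sw n →ₗ[ℂ] dom Φ := R Φ ∘ₗ lof ℂ _ Sx ⟨n, a⟩

theorem coe_v (n : ℕ) (a) (F : Sw n) : (v Φ n a F : H) = Φ n a F :=
  toModule_lof ℂ (M := Sx) (⟨n, a⟩ : Ix V) F

theorem surj : Function.Surjective (R Φ) := (tot Φ).surjective_rangeRestrict

/-- the field on finite sequences -/
def B (c : V) : (⨁ p : Ix V, Sx p) →ₗ[ℂ] Tf →ₗ[ℂ] dom Φ :=
  toModule ℂ _ _ fun p => (csL p.1).flip.compr₂ (v Φ (p.1 + 1) (Fin.cons c p.2))

theorem B_lof (c : V) (n : ℕ) (a) (F : Sw n) (f : Tf) :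
    B Φ c (lof ℂ _ Sx ⟨n, a⟩ F) f = v Φ (n + 1) (Fin.cons c a) (cs f F) := by
  rw [B, toModule_lof]
  rfl

theorem ind {P : dom Φ → Prop} (h0 : P 0) (h1 : ∀ n a F, P (v Φ n a F))
    (h2 : ∀ x y, P x → P y → P (x + y)) (x : dom Φ) : P x := by
  obtain ⟨a, rfl⟩ := surj Φ x
  induction a using DirectSum.induction_on with
  | zero => rwa [map_zero]
  | of n F => exact h1 n.1 n.2 F
  | add a b ha hb => exact map_add (R Φ) a b ▸ h2 _ _ ha hb

variable {Φ}

theorem herm (h : Herm Φ) (c : V) {f g : Tf} (e : ∀ u, g u = starRingEnd ℂ (f u))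
    (a b : ⨁ p : Ix V, Sx p) :
    inner ℂ (R Φ a) (B Φ c b f) = inner ℂ (B Φ (star c) a g) (R Φ b) := by
  induction a using DirectSum.induction_on with
  | zero => simp
  | add a a' ha ha' => simp only [map_add, LinearMap.add_apply, inner_add_left, ha, ha']
  | of m G =>
    induction b using DirectSum.induction_on with
    | zero => simp
    | add b b' hb hb' => simp only [map_add, LinearMap.add_apply, inner_add_right, hb, hb']
    | of n F =>
      have := h m.1 n.1 m.2 n.2 c G F f g e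
      rwa [← coe_v, ← coe_v, ← coe_v, ← coe_v, ← B_lof, ← B_lof] at this

theorem field (h : Herm Φ) (hc : Cyc Φ) :
    ∃ φ : V → Tf →ₗ[ℂ] Module.End ℂ (dom Φ), ∀ c f a, φ c f (R Φ a) = B Φ c a f := by
  obtain ⟨s, hs⟩ := (R Φ).exists_rightInverse_of_surjective (LinearMap.range_eq_top.2 (surj Φ))
  refine ⟨fun c => (B Φ c ∘ₗ s).flip, fun c f a => ?_⟩
  obtain ⟨g, e⟩ := exists_conj f
  change B Φ c (s (R Φ a)) f = _
  rw [← sub_eq_zero, ← LinearMap.sub_apply, ← map_sub]
  refine Subtype.ext (hc _ fun n α k => ?_)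
  have := herm h c e (lof ℂ _ Sx ⟨n, α⟩ (tn k)) (s (R Φ a) - a)
  rw [map_sub (R Φ), show R Φ (s (R Φ a)) = R Φ a from LinearMap.congr_fun hs _, sub_self,
    inner_zero_right] at this
  rw [← coe_v, inner_eq_zero_symm]
  exact this

end G2

open G2 in
theorem sG2_of : S_G2 V H := fun E Ω Φ U u h0 hh hc hli hl => by
  classical
  obtain ⟨φ, hφ⟩ := field hh hc
  have e : ∀ c f n a F, φ c f (v Φ n a F) = v Φ (n + 1) (Fin.cons c a) (cs f F) :=
    fun c f n a F => (hφ c f _).trans (B_lof Φ c n a F f)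
  obtain ⟨ph, hp⟩ : ∃ ph : V × Tf → H → H, ∀ c f (x : dom Φ), ph (c, f) x = φ c f x :=
    ⟨fun p x => if h : x ∈ dom Φ then φ p.1 p.2 ⟨x, h⟩ else 0, fun c f x => dif_pos x.2⟩
  have p : ∀ n a (f : Fin n → Tf), (List.ofFn fun i => (a i, f i)).foldr ph Ω = Φ n a (tn f) :=
    fun n => by
      induction n with
      | zero => exact fun a f => (h0 a).symm
      | succ n ih =>
        intro a f
        rw [List.ofFn_succ, List.foldr_cons, ih (fun i => a i.succ) fun i => f i.succ, ← coe_v, hp,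
          e, coe_v]
        exact congrArg (Φ _ · _) (Fin.cons_self_tail a)
  have key : ∀ (J : H →L[ℂ] H) (σ : V → V) (θ : R2 → R2), (∀ n (F : Sw n), ∃ F' : Sw n,
      ∀ x, F' (fun i => θ (x i)) = F x) → (∀ n a (F F' : Sw n), (∀ x, F' (fun i => θ (x i)) = F x) →
        J (Φ n a F) = Φ n (fun i => σ (a i)) F') → ∀ x ∈ dom Φ, J x ∈ dom Φ ∧ ∀ c (f g : Tf),
          (∀ u, g (θ u) = f u) → J (ph (c, f) x) = ph (σ c, g) (J x) := by
    intro J σ θ h1 h2 x hx
    lift x to dom Φ using hx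
    suffices ∃ y : dom Φ, J x = y ∧ ∀ c (f g : Tf), (∀ u, g (θ u) = f u) →
        J (φ c f x) = φ (σ c) g y from
      this.elim fun y h => ⟨h.1 ▸ y.2, fun c f g k => by rw [h.1, hp, hp, h.2 c f g k]⟩
    induction x using ind with
    | h0 => exact ⟨0, by simp, fun _ _ _ _ => by simp⟩
    | h1 n α F =>
      obtain ⟨F', hF⟩ := h1 n F
      refine ⟨v Φ n (fun i => σ (α i)) F', ?_, fun c f g k => ?_⟩
      · rw [coe_v, coe_v, h2 n α F F' hF]
      · rw [e, e, coe_v, coe_v, h2 _ _ _ (cs g F')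
          fun x => congrArg₂ (· * ·) (k (x 0)) (hF (Fin.tail x))]
        exact congrArg (Φ _ · _) (Fin.comp_cons σ c α)
    | h2 x y hx hy =>
      obtain ⟨x', a1, a2⟩ := hx
      obtain ⟨y', b1, b2⟩ := hy
      exact ⟨x' + y', by rw [Submodule.coe_add, map_add, a1, b1, Submodule.coe_add],
        fun c f g k => by
          rw [map_add, map_add, Submodule.coe_add, map_add, a2 c f g k, b2 c f g k,
            Submodule.coe_add]⟩
  refine ⟨dom Φ, ph, ?_, p, fun x hx c f => ?_, fun x hx c f t g => ?_, fun x hx c f t b => ?_,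
    fun x hx c f y hy t => ?_, fun x hx c y hy => ?_, fun x hx c f y hy g k => ?_,
    fun x hx a L hL => key (U a L) id (fun u => a + act L u) (fun n => exists_act hL.2.1 a)
      (u.cov a L hL) x hx, fun J σ hJ x hx => ?_, fun x hx c f b g hs => ?_⟩
  · rw [← h0 0, ← coe_v]
    exact Subtype.property _
  all_goals try lift x to dom Φ using hx
  all_goals try lift y to dom Φ using hy
  · exact hp c f x ▸ (φ c f x).2
  · simp [hp]
  · simp only [hp]
    induction x using ind with
    | h0 => simp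
    | h1 n a F => simp only [e, coe_v, hli n t c b a]
    | h2 y z hy hz =>
      simp only [map_add, Submodule.coe_add, hy, hz, smul_add]
      abel
  · rw [← Submodule.coe_smul, ← Submodule.coe_add, hp, hp, hp]
    simp
  · simp only [hp]
    induction x using ind with
    | h0 => simpa using continuous_const
    | h1 n a F =>
      simp only [e, coe_v]
      exact continuous_const.inner ((Φ _ _).continuous.comp (continuous_cs_left F))
    | h2 x z hx hz => simpa only [map_add, Submodule.coe_add, inner_add_right] using hx.fun_add hz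
  · obtain ⟨a, rfl⟩ := surj Φ y
    obtain ⟨b, rfl⟩ := surj Φ x
    rw [hp, hp, hφ, hφ]
    exact herm hh c k a b
  · have := key J σ id (fun _ F => ⟨F, fun _ => rfl⟩)
      (fun n a F F' k => (hJ n a F).trans (congrArg _ (SchwartzMap.ext fun x => (k x).symm))) x x.2
    exact ⟨this.1, fun c f => this.2 c f f fun _ => rfl⟩
  · simp only [hp]
    induction x using ind with
    | h0 => simp
    | h1 n a F =>
      simp only [e, coe_v]
      exact hl f g hs n c b a F
    | h2 x y hx hy => simp only [map_add, Submodule.coe_add, hx, hy]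

end Pool.Agent.Lib.MP_7f377f_mp.W2.L
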