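import Pool.Agent.Lib.MP_7f377f_mp.G.XVPhi
import Pool.Agent.Lib.MP_7f377f_mp.G.XL1
import Pool.Agent.Lib.MP_7f377f_mp.G.XL2

/-! Labels: locality. -/

noncomputable section

namespace Pool.Agent.Lib.MP_7f377f_mp.W2.L

open MeasureTheory Filter Topology Set Complex W2.L1

variable {V : Type} [AddCommGroup V] [Module ℝ V] [InvolutiveStar V]
  {H : Type} [NormedAddCommGroup H] [InnerProductSpace ℂ H] [CompleteSpace H] {m n : ℕ} {δ s : ℝ}

namespace L1

section
variable {χ : (Fin (m + 2) → C2) → H}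

/-- two smeared fields on a vector -/
def X (χ : (Fin (m + 2) → C2) → H) (a : Fin m → C2) (f g : Tf) (s : ℝ) : H :=
  ∫ p : R2 × R2, (f p.1 * g p.2) • χ (c2 (pt p.1 (2 * s)) (pt p.2 (4 * s)) a)

theorem X_int (V : Hb χ) {a : Fin m → C2} (ha : a ∈ FTd m δ) (s0 : 0 < s) (hs : 6 * s ≤ δ)
    (d : δ ≤ 1) (f g : Tf) : Integrable fun p : R2 × R2 =>
      (f p.1 * g p.2) • χ (c2 (pt p.1 (2 * s)) (pt p.2 (4 * s)) a) := by
  obtain ⟨C, N, -, hC⟩ := V.bd
  refine (f.integrable.mul_prod g.integrable).smul_of_top_left (memLp_top_of_bound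
    (Continuous.aestronglyMeasurable ?_) _ (.of_forall fun p =>
      hC _ ⟨by linarith, by linarith⟩ _ (c2_memd ha s0 hs _ _)))
  exact V.hol.continuousOn.comp_continuous (by fun_prop) fun p =>
    FTd.ft (by linarith) (c2_memd ha s0 hs _ _)

theorem X_lim (V : Hb χ) {a : Fin m → C2} (ha : a ∈ FT m) (f g : Tf) :
    ∃ ξ, Tendsto (X χ a f g) (𝓝[>] 0) (𝓝 ξ) := by
  obtain ⟨δ, d, hd⟩ := FT.exists ha
  obtain ⟨C, N, -, hC⟩ := V.bd
  have d0 := d.1
  have e : ∀ (x : Fin 2 → R2) (t : ℝ), c2 (cxn x (t • ![(δ / 3) • e0, (2 * δ / 3) • e0]) 0)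
      (cxn x (t • ![(δ / 3) • e0, (2 * δ / 3) • e0]) 1) a =
      c2 (pt (x 0) (2 * (t * δ / 6))) (pt (x 1) (4 * (t * δ / 6))) a := fun x t => by
    simp only [cxn, pt_cx, Pi.smul_apply, Matrix.cons_val_zero, Matrix.cons_val_one, smul_smul]
    congr 3 <;> ring
  obtain ⟨Ξ, hΞ⟩ := sBV_of 2 N H (fun z => χ (c2 (z 0) (z 1) a))
    ((fun z => c2 (z 0) (z 1) a) ⁻¹' FT (m + 2)) {![(δ / 3) • e0, (2 * δ / 3) • e0]}
    (C / (δ / 3) ^ N) ((isOpen_FT _).preimage (diff_c2 a).continuous)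
    (V.hol.comp (diff_c2 a).differentiableOn fun _ h => h) (convex_singleton _)
    (singleton_nonempty _) Bornology.isBounded_singleton (by
      rintro x t ht _ rfl
      have h0 : 0 < t * δ / 6 := by have := ht.1; positivity
      have h1 : 6 * (t * δ / 6) ≤ δ := by nlinarith [ht.2]
      have h2 := c2_memd hd h0 h1 (x 0) (x 1)
      rw [mem_preimage, e]
      refine ⟨FTd.ft (by linarith) h2, (hC _ ⟨by linarith, by linarith [d.2]⟩ _ h2).trans_eq ?_⟩
      rw [div_div, ← mul_pow]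
      congr 2
      ring)
  obtain ⟨B, hB⟩ := hΞ (cs f (cs g one0))
  refine ⟨Ξ (cs f (cs g one0)), tendsto_iff_norm_sub_tendsto_zero.2 (squeeze_zero'
    (g := fun s => B * (6 * s / δ)) (.of_forall fun _ => norm_nonneg _) ?_
    (tendsto_nhdsWithin_of_tendsto_nhds (Continuous.tendsto' (by fun_prop) _ _ (by simp))))⟩
  filter_upwards [Ioc_mem_nhdsGT (show 0 < δ / 6 by positivity)] with s hs
  have h1 := hB 0 _ (fun x => by rw [sub_zero]) _ rfl (6 * s / δ)
    ⟨by have := hs.1; positivity, by rw [div_le_one d0]; linarith [hs.2]⟩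
  rw [← (volume_preserving_finTwoArrow R2).symm.integral_comp'] at h1
  simp only [e, show 6 * s / δ * δ / 6 = s by field_simp] at h1
  simpa [X, Fin.tail] using h1

end

variable {E : C2 → H →L[ℂ] H} {Ω : H} {ψ : Fm V H} {w : Fm V ℂ} {Φ : Ds V H}

theorem sh1 (h : Vec E Ω ψ w) (α β) (γ : V) {a : Fin m → C2} {b : Fin n → C2} (ha : a ∈ FT m)
    (hb : b ∈ FT n) (x : R2) {s t r : ℝ} (s0 : 0 < s) (t0 : 0 < t) (hr : -s + r = t) :
    inner ℂ (ψ m α a) (ψ (n + 1) (Fin.cons γ β) (Fin.cons (pt x t) fun i => b i + ie r)) =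
      inner ℂ (ψ (m + 1) (Fin.cons (star γ) α) (Fin.cons (pt x s) fun i => a i + ie r))
        (ψ n β b) := by
  have e : star (pt x s) - -ie r = pt x t := by rw [star_pt, sub_neg_eq_add, pt_add, hr]
  have := h.shift m n α β γ (pt x s) (-ie r) a ha b hb (TV.to s0 (pt_mem _ _))
    (e ▸ TV.to t0 (pt_mem _ _))
  rw [e] at this
  simpa only [sub_neg_eq_add, star_neg, star_ie, neg_neg] using this

theorem sh2 (V' : Vec E Ω ψ w) (α β) (c c' : V) {a : Fin m → C2} {b : Fin n → C2} (ha : a ∈ FT m)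
    (hb : b ∈ FT n) (x y : R2) (s0 : 0 < s) :
    inner ℂ (ψ m α a) (ψ (n + 2) (l2 c c' β)
        (c2 (pt x (2 * s)) (pt y (4 * s)) fun i => b i + ie (6 * s))) =
      inner ℂ (ψ (m + 2) (l2 (star c') (star c) α)
        (c2 (pt y (2 * s)) (pt x (4 * s)) fun i => a i + ie (6 * s))) (ψ n β b) := by
  have s2 : 0 < 2 * s := by linarith
  have s3 : s ≤ 3 * s := by linarith
  have h := (sh1 V' α (Fin.cons c' β) c ha (cons_mem.2 ⟨TV.to s0 (pt_mem _ _), add_ie hb y s3⟩) x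
    s0 s2 (r := 3 * s) (by ring)).trans (sh1 V' _ β c'
      (cons_mem.2 ⟨TV.to s0 (pt_mem _ _), add_ie ha x s3⟩) hb y s2 s0 (by ring))
  simp only [cons_add, pt_add, add_assoc, ← ie_add] at h
  rw [show s + 3 * s = 4 * s by ring, show 3 * s + 3 * s = 6 * s by ring] at h
  exact h

theorem adj (V' : Vec E Ω ψ w) (bv : IsBV ψ Φ) (α β) (c c' : V) {a : Fin m → C2} (ha : a ∈ FT m)
    {f g f' g' : Tf} (hf : ∀ x, f' x = starRingEnd ℂ (f x)) (hg : ∀ x, g' x = starRingEnd ℂ (g x))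
    {ξ : H} (h : Tendsto (X (ψ _ (l2 (star c') (star c) α)) a g' f') (𝓝[>] 0) (𝓝 ξ)) (F : Sw n) :
    inner ℂ (ψ m α a) (Φ (n + 2) (l2 c c' β) (cs f (cs g F))) = inner ℂ ξ (Φ n β F) := by
  obtain ⟨δ, d, hd⟩ := FT.exists ha
  let η : Fin (n + 2) → R2 :=
    Fin.cons ((2 : ℝ) • e0) (Fin.cons ((4 : ℝ) • e0) fun i => Phi.et n i + (6 : ℝ) • e0)
  have e : ∀ (x y : R2) (z : Fin n → R2) (s : ℝ), cxn (Fin.cons x (Fin.cons y z)) (s • η) =
      c2 (pt x (2 * s)) (pt y (4 * s)) fun i => cxn z (s • Phi.et n) i + ie (6 * s) := by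
    intro x y z s
    ext1 i
    induction i using Fin.cases with
    | zero => simp [η, cxn, c2, pt_cx, smul_smul, mul_comm]
    | succ i =>
      induction i using Fin.cases with
      | zero => simp [η, cxn, c2, pt_cx, smul_smul, mul_comm]
      | succ i => simp [η, cxn, c2, ie_eq, ← cx_add, smul_smul, mul_comm]
  have hη : η ∈ Dir (n + 2) := by
    refine G1.mem_ft.2 (G1.mem_ft (x := Fin.cons 0 (Fin.cons 0 0)) |>.1 ?_)
    rw [← one_smul ℝ η, e]
    exact c2_mem (TV.to (by norm_num) (pt_mem _ _)) (TV.to (by norm_num) (sub_pt (pt_mem _ _) _ _))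
      (add_ie (G1.dir_mem Phi.et_dir _ one_pos) _ (by norm_num))
  obtain ⟨δ', d', hd'⟩ := FT.exists hη
  have h1 : Tendsto (fun s => ψ m α fun i => a i - ie (6 * s)) (𝓝[>] 0) (𝓝 (ψ m α a)) := by
    refine (((V'.hol m α).continuousOn.continuousAt ((isOpen_FT m).mem_nhds ha)).tendsto.comp
      (Continuous.tendsto' (f := fun (s : ℝ) i => a i - ie (6 * s)) ?_ 0 a
        (by simp [ie]))).mono_left nhdsWithin_le_nhds
    unfold ie
    fun_prop
  refine tendsto_nhds_unique (h1.inner ((bv _ _).lim hη _))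
    ((h.inner ((bv _ _).lim Phi.et_dir F)).congr' ?_)
  filter_upwards [Ioc_mem_nhdsGT (show 0 < δ / 7 by linarith [d.1])] with s hs
  have s0 := hs.1
  obtain ⟨M, hM⟩ := (V'.hb _ (l2 c c' β)).good d'.1 hd' s0
  obtain ⟨M', hM'⟩ := (V'.hb n β).good one_pos Phi.et_mem s0
  have hA : (fun i => a i - ie (6 * s)) ∈ FT m := ⟨fun i => TV.to (by linarith [hs.2])
    (sub_ie_mem (hd.1 i)), fun i j e => by simpa using ha.2 i j e⟩
  rw [X, inner_int (X_int (V'.hb _ _) hd s0 (by linarith [hs.2]) d.2 _ _)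
    (BV.integ (V'.hol n β) (hM' s le_rfl) F),
    ← integral_inner (BV.integ (V'.hol _ _) (hM s le_rfl) _), int2]
  refine integral_congr_ae (.of_forall fun r => ?_)
  simp only [e, inner_smul_left, inner_smul_right, sh2 V' α β c c' hA (hM' s le_rfl _).1 _ _ s0,
    sub_add_cancel, cs_apply, Fin.cons_zero, Fin.tail_cons, hf, hg, map_mul, conj_conj]
  ring

theorem e1q (hE : E1c w) {u : R2} (h : Un u) (a : Fin n → V) (σ : Equiv.Perm (Fin n))
    {z : Fin n → C2} (h1 : (fun i => z (σ i)) ∈ Tube n) (h2 : (fun i => q u (z i)) ∈ Tube n) :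
    w n (fun i => a (σ i)) (fun i => z (σ i)) =
      w n a fun i => q u (z i) := by
  refine hE n a _ σ (fun i => ((σ.symm i : ℕ) : ℝ) • e0 + ((i : ℕ) : ℝ) • u) (so_Rm h _)
    (fun i j e => ?_) (fun i j e => ?_) z h1 h2
  · simpa [h.1] using e
  · simpa [Rm_zero_apply h, inner_add_right, inner_smul_right, inner_e0, h.1, h.2] using e

theorem gl_swap (b : Fin n → V) (p p' : V) (a : Fin m → V) :
    (fun i => gl b (l2 p p' a) (Equiv.swap (Fin.natAdd n 0) (Fin.natAdd n 1) i)) =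
      gl b (l2 p' p a) := by
  ext1 i
  induction i using Fin.addCases with
  | left i =>
    have : ∀ j : Fin (m + 2), Fin.castAdd (m + 2) i ≠ Fin.natAdd n j := fun j e => by
      have := congrArg Fin.val e
      have := i.2
      simp only [Fin.val_castAdd, Fin.val_natAdd] at *
      omega
    rw [Equiv.swap_apply_of_ne_of_ne (this _) (this _)]
    simp only [gl, Fin.append_left]
  | right i =>
    rw [← (Fin.natAdd_injective _ _).map_swap]
    simp only [gl, Fin.append_right]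
    induction i using Fin.cases with
    | zero => rfl
    | succ i =>
      induction i using Fin.cases with
      | zero => rfl
      | succ i => rw [Equiv.swap_apply_of_ne_of_ne (Fin.succ_ne_zero _) (Fin.succ_succ_ne_one _)]; rfl

theorem comm (V' : Vec E Ω ψ w) (hE : E1c w) {u : R2} (hu : Un u) {f g : Tf} {K K' : Set R2}
    (hK : IsCompact K) (hK' : IsCompact K') (hf : ∀ x ∉ K, f x = 0) (hg : ∀ x ∉ K', g x = 0)
    (sep : ∀ x ∈ K, ∀ y ∈ K', |y 0 - x 0| < inner ℝ (y - x) u) {R : ℝ}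
    (hR : ∀ x ∈ K ∪ K', 2 * ‖imv (q u (rl x))‖ < R) (α β) (c c' : V) {a : Fin m → C2}
    {b : Fin n → C2} (ha : a ∈ O u R m) (hb : b ∈ O (-u) R n) :
    Tendsto (fun s => inner ℂ (ψ n β b)
      (X (ψ _ (l2 c c' α)) a f g s - X (ψ _ (l2 c' c α)) a g f s)) (𝓝[>] 0) (𝓝 0) := by
  obtain ⟨δ, d, hd⟩ := FT.exists ha.1
  let W : ℝ → ℝ → R2 × R2 → ℂ := fun s t p =>
    w _ (gl β (l2 c c' α))
      fun i => q u (glue b (c2 (pt p.1 s) (pt p.2 t) a) i)
  let D : ℝ → R2 × R2 → ℂ := fun s p => f p.1 * g p.2 * (W (2 * s) (4 * s) p - W (4 * s) (2 * s) p)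
  have tb := fun (p : R2 × R2) (hp : p ∈ K ×ˢ K') =>
    tube_q hu ha hb (hR _ (.inl hp.1)) (hR _ (.inr hp.2)) (sep _ hp.1 _ hp.2)
  have z : ∀ p : R2 × R2, p ∉ K ×ˢ K' → f p.1 * g p.2 = 0 := fun p hp => by
    rcases not_and_or.1 hp with h | h
    · rw [hf _ h, zero_mul]
    · rw [hg _ h, mul_zero]
  have cW : ∀ c c' : ℝ, ∀ r : ℝ × R2 × R2, r.2 ∈ K ×ˢ K' →
      ContinuousAt (fun r : ℝ × R2 × R2 => W (c * r.1) (c' * r.1) r.2) r := fun c c' r hr => by
    refine ContinuousAt.comp (g := w _ _) ((V'.whol _ _).continuousOn.continuousAt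
      ((isOpen_tube _).mem_nhds (tb _ hr _ _))) (Continuous.continuousAt ?_)
    refine continuous_pi fun i => continuous_q.comp ((continuous_apply i).comp ?_)
    exact (Fin.continuous_append _ _).comp
      (continuous_const.prodMk (continuous_c2 a (by fun_prop) (by fun_prop)))
  have cD : Continuous D.uncurry := continuous_of_tsupport fun r hr => by
    have : r.2 ∈ K ×ˢ K' := closure_minimal (t := Prod.snd ⁻¹' (K ×ˢ K')) (fun r hr => by
      by_contra h
      exact hr (show _ * _ = _ by rw [z _ h, zero_mul]))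
      ((hK.prod hK').isClosed.preimage continuous_snd) hr
    exact ContinuousAt.mul (by fun_prop) ((cW 2 4 r this).sub (cW 4 2 r this))
  have h1 := (continuousOn_univ.1 (continuousOn_integral_of_compact_support (μ := volume)
    (s := univ) (hK.prod hK') cD.continuousOn fun s p _ hp =>
      show _ * _ = _ by rw [z _ hp, zero_mul])).tendsto' 0 0 (by simp [D])
  refine (h1.mono_left nhdsWithin_le_nhds).congr' ?_
  filter_upwards [Ioc_mem_nhdsGT (show 0 < δ / 6 by linarith [d.1])] with s hs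
  have s0 := hs.1
  have s1 : 6 * s ≤ δ := by linarith [hs.2]
  have i1 : Integrable _ (volume.prod volume) := X_int (V'.hb _ (l2 c c' α)) hd s0 s1 d.2 f g
  have i2 : Integrable (fun p : R2 × R2 => (g p.swap.1 * f p.swap.2) •
      ψ (m + 2) (l2 c' c α) (c2 (pt p.swap.1 (2 * s)) (pt p.swap.2 (4 * s)) a))
      (volume.prod volume) := (X_int (V'.hb _ _) hd s0 s1 d.2 g f).swap
  have m1 := fun x y => FTd.ft (by linarith) (c2_memd hd s0 s1 x y)
  rw [X, X, Measure.volume_eq_prod, ← integral_prod_swap (fun p : R2 × R2 => (g p.1 * f p.2) • _),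
    ← integral_sub i1 i2]
  refine (integral_congr_ae (.of_forall fun p => ?_)).trans (integral_inner (i1.sub i2) _)
  simp only [Pi.sub_apply, Prod.fst_swap, Prod.snd_swap, inner_sub_right,
    inner_smul_right, mul_comm (g _), ← mul_sub, D]
  by_cases hp : p ∈ K ×ˢ K'
  · rw [V'.inn _ _ _ _ _ hb.1 _ (m1 _ _), V'.inn _ _ _ _ _ hb.1 _ (m1 _ _),
      ← glue_swap b (pt p.1 _) (pt p.2 _), ← gl_swap β c c', e1q hE hu _ _ (by
        rw [glue_swap]; exact G1.glue_mem hb.1 (m1 _ _)) (tb p hp _ _)]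
    exact congrArg (fun t => _ * (t - _))
      (e1q hE hu _ 1 (G1.glue_mem hb.1 (m1 _ _)) (tb p hp _ _)).symm
  · rw [z p hp, zero_mul, zero_mul]

theorem tot (S : Sys E Ω ψ w) {u : R2} (hu : Un u) (R : ℝ) {x : H}
    (h : ∀ m α, ∀ a ∈ O u R m, inner ℂ (ψ m α a) x = 0) : x = 0 := S.total x fun m α z hz => by
  obtain ⟨a, ha⟩ := O_ne (m := m) hu R
  refine idO (f := fun z => innerSL ℂ x (ψ m α z)) (g := fun _ => 0) (isOpen_FT m) (convex_FT m)
    ((innerSL ℂ x).differentiable.comp_differentiableOn (S.toVec.hol m α))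
    (differentiableOn_const _) ha.1 ?_ hz
  filter_upwards [(isOpen_O R).mem_nhds ha] with y hy using inner_eq_zero_symm.1 (h m α y hy)

end L1

open L1 in
theorem sL1_of : S_L1 V H := by
  intro E Ω ψ w Φ S hE bv u hu f g hf hg sep n c c' γ F
  have V := S.toSys0.toVec
  obtain ⟨f', hf'⟩ := exists_conj f
  obtain ⟨g', hg'⟩ := exists_conj g
  obtain ⟨B, hB⟩ := (hf.isCompact.union hg.isCompact).exists_bound_of_continuousOn
    (f := fun x => imv (q u (rl x))) (by fun_prop)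
  refine sub_eq_zero.1 (L1.tot S hu (2 * B + 1) fun m α a ha => ?_)
  obtain ⟨ξ, h1⟩ := L1.X_lim (V.hb _ (l2 (star c) (star c') α)) ha.1 f' g'
  obtain ⟨ξ', h2⟩ := L1.X_lim (V.hb _ (l2 (star c') (star c) α)) ha.1 g' f'
  have : ξ = ξ' := sub_eq_zero.1 (L1.tot S (un_neg hu) (2 * B + 1) fun k β b hb =>
    tendsto_nhds_unique (tendsto_const_nhds.inner (h1.sub h2)) (L1.comm V hE hu hf hg
      (fun x hx => by rw [hf', image_eq_zero_of_notMem_tsupport hx, map_zero])
      (fun x hx => by rw [hg', image_eq_zero_of_notMem_tsupport hx, map_zero]) sep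
      (fun x hx => by linarith [hB x hx]) α β _ _ ha hb))
  rw [inner_sub_right, L1.adj V bv α γ c c' ha.1 hf' hg' h2, L1.adj V bv α γ c' c ha.1 hg' hf' h1,
    this, sub_self]

open L2 in
theorem sL2_of : S_L2 V H := fun Φ h f g hs n c c' γ F => by
  have c1 := (Φ (n + 2) (l2 c c' γ)).continuous
  have c2 := (Φ (n + 2) (l2 c' c γ)).continuous
  refine of_on (A := fun f => Φ _ (l2 c c' γ) (cs f (cs g F)))
    (B := fun f => Φ _ (l2 c' c γ) (cs g (cs f F))) (c1.comp (continuous_cs_left _))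
    (c2.comp ((continuous_cs_right _).comp (continuous_cs_left _))) fun f' f1 f2 => ?_
  refine of_on (A := fun g => Φ _ (l2 c c' γ) (cs f' (cs g F)))
    (B := fun g => Φ _ (l2 c' c γ) (cs g (cs f' F)))
    (c1.comp ((continuous_cs_right _).comp (continuous_cs_left _)))
    (c2.comp (continuous_cs_left _)) fun g' g1 g2 => ?_
  refine (pu (l := pure ())
    (N := fun _ g => Φ _ (l2 c c' γ) (cs f' (cs g F)) = Φ _ (l2 c' c γ) (cs g (cs f' F)))
    (fun _ => by rw [cs_zero, cs_zero, cs_zero', map_zero, map_zero])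
    (fun _ a b ha hb => by rw [cs_add, cs_add, cs_add', map_add, map_add, ha, hb]) g1
    fun y hy => ?_) g' g1 subset_rfl
  obtain ⟨V, v1, v2⟩ := eventually_smallSets.1 (pu (l := (𝓝 y).smallSets) (N := fun V f =>
      On (fun g => Φ _ (l2 c c' γ) (cs f (cs g F)) = Φ _ (l2 c' c γ) (cs g (cs f F))) V)
    (fun _ _ _ _ => by simp only [cs_zero, cs_zero', map_zero])
    (fun _ a b ha hb k k1 k2 => by
      simp only [cs_add, cs_add', map_add]
      exact congrArg₂ _ (ha k k1 k2) (hb k k1 k2)) f1 fun x hx => by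
      obtain ⟨u, hu, U, a, V, b, c⟩ := sep (hs x (f2 hx) y (g2 hy))
      exact ⟨U, a, eventually_smallSets.2 ⟨V, b, fun t ht p p1 p2 q q1 q2 =>
        h u hu p q p1 q1 (fun s hs r hr => c s (p2 hs) r (ht (q2 hr))) n _ _ _ F⟩⟩)
  exact ⟨V, v1, v2 V subset_rfl f' f1 subset_rfl⟩

end Pool.Agent.Lib.MP_7f377f_mp.W2.L
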