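import Pool.Agent.Lib.MP_7f377f_mp.G.XVE
import Pool.Agent.Lib.MP_7f377f_mp.G.XVD
import Pool.Agent.Lib.MP_7f377f_mp.G.XVL
import Pool.Agent.Lib.MP_7f377f_mp.G.XVG
import Pool.Agent.Lib.MP_7f377f_mp.G.XA1
import Pool.Agent.Lib.MP_7f377f_mp.G.XA2
import Pool.Agent.Lib.MP_7f377f_mp.G.XA3
import Pool.Agent.Lib.MP_7f377f_mp.G.XA4

/-! Labels: the Wightman reconstruction in two dimensions. -/

noncomputable section

namespace Pool.Agent.Lib.MP_7f377f_mp.W2.L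

open MeasureTheory Filter Topology Set Complex Matrix

variable {V : Type} [AddCommGroup V] [Module ℝ V] [InvolutiveStar V]
  {P : Type} [CommRing P] [Algebra ℂ P] {H : Type} [NormedAddCommGroup H] [InnerProductSpace ℂ H]
  {N : Net P} {x : V → (R2 → ℝ) → P} {W : P →ₗ[ℂ] ℂ}

/-- the output of the reconstruction -/
structure Core (x : V → (R2 → ℝ) → P) (r : N.Rep W 0 H) {K : Type} [NormedAddCommGroup K]
    [InnerProductSpace ℂ K] (j : K →ₗᵢ[ℂ] H) (E : C2 → K →L[ℂ] K) (Ω : K) (ψ : Fm V K)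
    (w : Fm V ℂ) (Φ : Ds V K) (U : R2 → Mat → K →L[ℂ] K) (D : Submodule ℂ K)
    (φ : V × Tf → K → K) : Prop where
  vac : j Ω = r.Ψ 1
  tr : ∀ v : R2, 0 ≤ v 0 → ∀ y, j (E (euc v) y) = r.T v (j y)
  vec : ∀ n a (f : Fin n → R2 → ℝ), Adm f → Ord f → (∀ i, tsupport (f i) ⊆ Hs 0 0) →
    r.Ψ (∏ i, x (a i) (f i)) =
      j (∫ y : Fin n → R2, (∏ i, (f i (y i) : ℂ)) • ψ n a fun i => euc (y i))
  link : Link x W w
  sys : Sys E Ω ψ w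
  bv : IsBV ψ Φ
  cyc : Cyc Φ
  poi : Poi E Ω Φ U
  wf : Wf U Φ Ω D φ
  bdry : ∀ n a, Bdry (w n a) fun f => inner ℂ Ω (Φ n a (tn f))

theorem core_of [CompleteSpace H] (h : Fld N x W) (r : N.Rep W 0 H) (r1 : Sg r.T) (r2 : ConeH r.T)
    (r3 : ∀ y, (∀ v : R2, 0 ≤ v 0 → r.T v y = y) → ∃ c : ℂ, y = c • r.Ψ 1) :
    ∃ (K : Type) (_ : NormedAddCommGroup K) (_ : InnerProductSpace ℂ K) (_ : CompleteSpace K)
      (j : K →ₗᵢ[ℂ] H), ∃ E Ω ψ w Φ U D φ, Core x r j E Ω ψ w Φ U D φ := by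
  obtain ⟨E, e1, e2, e3, e4, e5⟩ := sA_of sA1_of sA2_of sA3_of sA4_of H r.T r1 r2
  obtain ⟨M, K, m1, m2⟩ := smear h e2
  obtain ⟨A, a1, a2⟩ := sC_of e1 m1
  obtain ⟨ψ, w, v1, v2⟩ := sD_of E A (r.Ψ 1) e1 a1
    (e5 _ fun v hv => by rw [r.act hv (N.one _), map_one])
  have l0 := slab h e2 m1.one m2 a1 a2
  have l1 := link h l0 v1 v2
  have l2 := sF1_of w v1.whol (e1_of h v1.whol l1)
  obtain ⟨K, _, _, _, E', Ω, ψ', j, j1, j2, j3, s⟩ :=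
    sR_of E _ ψ w ⟨v1, e1, r.one h.st, e3, fun y hy => r3 y (e4 y hy)⟩
  obtain ⟨Φ, p1, p2, p3, p4⟩ := sPhi_of E' Ω ψ' w s.toVec
  obtain ⟨U, g⟩ := sG1_of E' Ω ψ' w Φ s (sF2_of w v1.whol l2) p1
  have c := sCyc_of E' Ω ψ' w Φ s p1
  obtain ⟨D, φ, g1⟩ := sG2_of E' Ω Φ U g p2 (sHerm_of E' Ω ψ' w Φ s p1) c p3
    (sL2_of Φ (sL1_of E' Ω ψ' w Φ s l2 p1))
  refine ⟨K, _, _, ‹_›, j, E', Ω, ψ', w, Φ, U, D, φ, j1, fun v hv y => ?_, fun n a f f1 f2 f3 => ?_,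
    l1, s, p1, c, g, g1, p4⟩
  · rw [j3 _ (TV.mono hv (euc_mem v)), e2 v hv]
  · rw [vec h l0 v1 v2 n a f f1 f2 f3, ← j.integral_comp_comm]
    refine integral_congr_ae (.of_forall fun y => ?_)
    by_cases hy : y ∈ univ.pi fun i => tsupport (f i)
    · simp only [map_smul, j2 n a _ (B3.mem_ft f2 f3 hy)]
    · simp only [B3.prod_zero hy, zero_smul, map_zero]

end Pool.Agent.Lib.MP_7f377f_mp.W2.L
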