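import Pool.Agent.Lib.MP_7f377f_mp.G.XVSpec
import Pool.Agent.Lib.MP_7f377f_mp.G.XC
import Pool.Agent.Lib.MP_7f377f_mp.G.XDa
import Pool.Agent.Lib.MP_7f377f_mp.G.XDb

/-! Labels: the point fields. -/

noncomputable section

namespace Pool.Agent.Lib.MP_7f377f_mp.W2.L

open MeasureTheory Filter Topology Set Complex Metric W2.PC ComplexConjugate
open scoped NNReal

variable {V : Type} [AddCommGroup V] [Module ℝ V] [InvolutiveStar V]
  {H : Type} [NormedAddCommGroup H] [InnerProductSpace ℂ H] [CompleteSpace H]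
  {E : C2 → H →L[ℂ] H} {K : ℝ}

/-- the smeared fields between `exp (-K d H)` and `exp (-K d H)` -/
structure Smear (E : C2 → H →L[ℂ] H) (M : V → ℝ → (R2 → ℝ) → H →L[ℂ] H) (K : ℝ) : Prop where
  one : 1 ≤ K
  lin : ∀ c, ∀ d ∈ Ioc (0 : ℝ) 1, ∀ g g' (t : ℝ), C1 (Bx d) g → C1 (Bx d) g' →
    M c d (g + t • g') = M c d g + (t : ℂ) • M c d g'
  linc : ∀ (t : ℝ) c c', ∀ d ∈ Ioc (0 : ℝ) 1, ∀ g, C1 (Bx d) g →
    M (t • c + c') d g = (t : ℂ) • M c d g + M c' d g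
  bd : ∀ c, ∃ (C : ℝ) (s : ℕ), 0 ≤ C ∧ ∀ d ∈ Ioc (0 : ℝ) 1, ∀ g (L : ℝ≥0), C1 (Bx d) g →
    LipschitzWith L g → ‖M c d g‖ ≤ C / d ^ s * L
  cov : ∀ c, ∀ d ∈ Ioc (0 : ℝ) 1, ∀ d' ∈ Ioc (0 : ℝ) 1, ∀ (g : R2 → ℝ) (u a b a' b' : R2),
    C1 (Bx d) g → C1 (Bx d') (fun y => g (y - u)) → 0 ≤ a 0 → 0 ≤ b 0 → 0 ≤ a' 0 → 0 ≤ b' 0 →
    a + (K * d) • e0 = a' + (K * d') • e0 + u → b + (K * d) • e0 = b' + (K * d') • e0 - u →
    E (euc a) * M c d g * E (euc b) = E (euc a') * M c d' (fun y => g (y - u)) * E (euc b')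
  adj : ∀ c, ∀ d ∈ Ioc (0 : ℝ) 1, ∀ g, C1 (Bx d) g → ∀ x y,
    inner ℂ (M c d g x) y = inner ℂ x (M (star c) d (fun u => g (rf 0 u)) y)

theorem two_le {C C' d : ℝ} {s s' : ℕ} (C0 : 0 ≤ C) (C0' : 0 ≤ C') (hd : d ∈ Ioc (0 : ℝ) 1) :
    C / d ^ s + C' / d ^ s' ≤ (C + C') / d ^ (s + s') := by
  rw [add_div]
  exact add_le_add (div_le_div_of_nonneg_left C0 (pow_pos hd.1 _)
    (pow_le_pow_of_le_one hd.1.le hd.2 (by omega))) (div_le_div_of_nonneg_left C0' (pow_pos hd.1 _)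
      (pow_le_pow_of_le_one hd.1.le hd.2 (by omega)))

theorem Smear.sa {M : V → ℝ → (R2 → ℝ) → H →L[ℂ] H} (h : Smear E M K) (a : ℂ) (c : V) :
    W2.Smear E (fun d g => a • M c d g + conj a • M (star c) d g) K := by
  obtain ⟨C, s, C0, b⟩ := h.bd c
  obtain ⟨C', s', C0', b'⟩ := h.bd (star c)
  refine ⟨h.one, fun d hd g g' t a1 a2 => ?_, ⟨‖a‖ * (C + C'), s + s', by positivity,
    fun d hd g L a1 a2 => ?_⟩, fun d hd d' hd' g u p q p' q' a1 a2 a3 a4 a5 a6 a7 a8 => ?_,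
    fun d hd g hg x y => ?_⟩
  · rw [h.lin c d hd g g' t a1 a2, h.lin _ d hd g g' t a1 a2]
    module
  · refine (norm_add_le _ _).trans ?_
    rw [norm_smul, norm_smul, RCLike.norm_conj, ← mul_add, mul_div_assoc, mul_assoc]
    refine mul_le_mul_of_nonneg_left ((add_le_add (b d hd g L a1 a2) (b' d hd g L a1 a2)).trans ?_)
      (norm_nonneg _)
    rw [← add_mul]
    exact mul_le_mul_of_nonneg_right (two_le C0 C0' hd) L.2
  · simp only [mul_add, add_mul, mul_smul_comm, smul_mul_assoc,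
      h.cov _ d hd d' hd' g u p q p' q' a1 a2 a3 a4 a5 a6 a7 a8]
  · simp only [add_apply, smul_apply, inner_add_left, inner_add_right, inner_smul_left,
      inner_smul_right, h.adj _ d hd g hg, star_star, conj_conj, add_comm]

/-- point fields without the adjoint -/
structure P0 (E : C2 → H →L[ℂ] H) (M : ℝ → (R2 → ℝ) → H →L[ℂ] H) (K : ℝ)
    (A : C2 → C2 → H →L[ℂ] H) : Prop where
  hol : DifferentiableOn ℂ (fun p : C2 × C2 => A p.1 p.2) (TO ×ˢ TO)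
  bd : ∃ (C : ℝ) (N : ℕ), 0 ≤ C ∧ ∀ δ ∈ Ioc (0 : ℝ) 1, ∀ z ∈ TV δ, ∀ w ∈ TV δ, ‖A z w‖ ≤ C / δ ^ N
  cov : ∀ z ∈ TO, ∀ w ∈ TO, ∀ u ∈ TV 0, E u * A z w = A (u + z) w ∧ A z w * E u = A z (w + u)
  den : Den E M K A

variable {M M' M'' : ℝ → (R2 → ℝ) → H →L[ℂ] H} {A A' : C2 → C2 → H →L[ℂ] H}

theorem P0.cont (h : P0 E M K A) (K1 : 1 ≤ K) {d : ℝ} (d0 : 0 < d) (x : H) : ContinuousOn
    (fun y => A (ie ((K + 1) * d) + euc y) (ie ((K + 1) * d) - euc y) x) (Bx (d / 32)) := by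
  refine (h.hol.continuousOn.comp (f := fun y => (ie ((K + 1) * d) + euc y,
    ie ((K + 1) * d) - euc y)) (by fun_prop) fun y hy => ?_).clm_apply continuousOn_const
  have := abs_lt.1 (hy 0)
  have : d ≤ K * d := le_mul_of_one_le_left d0.le K1
  exact ⟨TV.to (by linarith) (add_euc_mem _ y), TV.to (by linarith) (sub_euc_mem _ y)⟩

theorem P0.comb (h : P0 E M K A) (h' : P0 E M' K A') (K1 : 1 ≤ K) (t : ℂ)
    (e : ∀ d ∈ Ioc (0 : ℝ) 1, ∀ g, C1 (Bx d) g → M'' d g = t • M d g + M' d g) :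
    P0 E M'' K fun z w => t • A z w + A' z w := by
  obtain ⟨C, s, C0, b⟩ := h.bd
  obtain ⟨C', s', C0', b'⟩ := h'.bd
  refine ⟨(h.hol.const_smul t).add h'.hol, ⟨‖t‖ * C + C', s + s', by positivity,
    fun δ hδ z hz w hw => ?_⟩, fun z hz w hw u hu => ?_, fun d hd g hg x => ?_⟩
  · refine (norm_add_le _ _).trans (le_trans ?_ (two_le (by positivity) C0' hδ))
    rw [norm_smul, mul_div_assoc]
    exact add_le_add (mul_le_mul_of_nonneg_left (b δ hδ z hz w hw) (norm_nonneg _))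
      (b' δ hδ z hz w hw)
  · simp only [mul_add, add_mul, mul_smul_comm, smul_mul_assoc, h.cov z hz w hw u hu,
      h'.cov z hz w hw u hu, and_self]
  · rw [e d hd g (c1_mono hg (Bx.mono (by linarith [hd.1]))), add_apply, smul_apply, map_add,
      map_smul, h.den d hd g hg, h'.den d hd g hg, ← integral_smul,
      ← integral_add ((integ hg (h.cont K1 hd.1 x)).fun_smul t) (integ hg (h'.cont K1 hd.1 x))]
    simp only [add_apply, smul_apply, smul_add, smul_comm t]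

theorem P0.uniq (h : P0 E M K A) (h' : P0 E M K A') (K1 : 1 ≤ K) {z w : C2} (hz : z ∈ TO)
    (hw : w ∈ TO) : A z w = A' z w := by
  obtain ⟨d, hd, l1, l2⟩ := ex_d K hz hw
  obtain ⟨r, r0, hr⟩ := Metric.isOpen_iff.1 (isOpen_Bx (d / 32)) 0 (zero_mem (by linarith [hd.1]))
  have m : ie ((K + 1) * d) ∈ TO := TV.to (mul_pos (by linarith) hd.1) (ie_mem _)
  have e : A (ie ((K + 1) * d)) (ie ((K + 1) * d)) = A' (ie ((K + 1) * d)) (ie ((K + 1) * d)) := by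
    ext x
    simpa using pt_eq1 r0 ((h.cont K1 hd.1 x).mono hr) ((h'.cont K1 hd.1 x).mono hr)
      fun f f1 f2 f3 => (h.den d hd f ⟨f1, f2.of_le (by norm_cast), f3.trans hr⟩ x).symm.trans
        (h'.den d hd f ⟨f1, f2.of_le (by norm_cast), f3.trans hr⟩ x)
  have z1 : z - ie ((K + 1) * d) ∈ TV 0 := by simpa using sub_ie_mem (t := (K + 1) * d) l1.le
  have w1 : w - ie ((K + 1) * d) ∈ TV 0 := by simpa using sub_ie_mem (t := (K + 1) * d) l2.le
  have a1 := (h.cov _ m _ m _ w1).2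
  have a2 := (h'.cov _ m _ m _ w1).2
  have a3 := (h.cov _ m _ hw _ z1).1
  have a4 := (h'.cov _ m _ hw _ z1).1
  rw [add_sub_cancel] at a1 a2
  rw [sub_add_cancel] at a3 a4
  rw [← a3, ← a4, ← a1, ← a2, e]

theorem sC_of {M : V → ℝ → (R2 → ℝ) → H →L[ℂ] H} (hE : Tub E)
    (h : Smear E M K) : ∃ A, Pt E A ∧ ∀ c, Den E (M c) K (A c) := by
  choose B b1 b2 using fun a c => W2.sC_of (sDens_of sDa_of) H E _ K hE (h.sa a c)
  have p : ∀ a c, P0 E _ K (B a c) := fun a c => ⟨(b1 a c).hol, (b1 a c).bd, (b1 a c).cov, b2 a c⟩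
  have q : ∀ c, P0 E (M c) K fun z w => I • B (-I / 2) c z w + B (1 / 2) c z w := fun c =>
    (p _ c).comb (p _ c) h.one I fun d _ g _ => by
      simp only [map_div₀, map_neg, conj_I, map_one, map_ofNat]
      match_scalars <;> ring_nf <;> norm_num
  have q' : ∀ c, P0 E (M (star c)) K fun z w => (-I) • B (-I / 2) c z w + B (1 / 2) c z w :=
    fun c => (p _ c).comb (p _ c) h.one (-I) fun d _ g _ => by
      simp only [map_div₀, map_neg, conj_I, map_one, map_ofNat]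
      match_scalars <;> ring_nf <;> norm_num
  obtain ⟨A, hA⟩ : ∃ A : V → C2 → C2 → H →L[ℂ] H,
    A = fun c z w => I • B (-I / 2) c z w + B (1 / 2) c z w := ⟨_, rfl⟩
  have a : ∀ c, P0 E (M c) K (A c) := hA ▸ q
  have l : ∀ (t : ℝ) c c', ∀ z ∈ TO, ∀ w ∈ TO,
      A (t • c + c') z w = (t : ℂ) • A c z w + A c' z w :=
    fun t c c' z hz w hw => (a _).uniq ((a c).comb (a c') h.one t (h.linc t c c')) h.one hz hw
  refine ⟨A, ⟨fun c => (a c).hol, fun c => (a c).bd, fun c => (a c).cov, fun c z hz w hw x y => ?_, l⟩,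
    fun c => (a c).den⟩
  · rw [(a _).uniq (q' c) h.one hz hw, hA]
    simp only [add_apply, smul_apply, inner_add_left, inner_add_right, inner_smul_left,
      inner_smul_right, (b1 _ c).adj z hz w hw, map_neg, conj_I, neg_neg]

end Pool.Agent.Lib.MP_7f377f_mp.W2.L
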