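import Pool.Agent.Lib.MP_7f377f_mp.G.XVSpec
import Pool.Agent.Lib.MP_7f377f_mp.G.XPhi
import Pool.Agent.Lib.MP_7f377f_mp.G.XHerm

/-! Labels: boundary values, cyclicity, hermiticity. -/

noncomputable section

namespace Pool.Agent.Lib.MP_7f377f_mp.W2.L

open MeasureTheory Filter Topology Set Complex Metric W2.Phi

variable {V : Type} [AddCommGroup V] [Module ℝ V] [InvolutiveStar V]
  {H : Type} [NormedAddCommGroup H] [InnerProductSpace ℂ H] [CompleteSpace H] {n : ℕ}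

section
variable {ψ : (Fin n → C2) → H} {Φ : Sw n →L[ℂ] H}

theorem Hb.good (V : Hb ψ) {η : Fin n → R2} {δ ε : ℝ} (d0 : 0 < δ) (h : cxn 0 η ∈ FTd n δ)
    (e0 : 0 < ε) : ∃ M, ∀ t, ε ≤ t → BV.Good ψ (FT n) (t • η) M := by
  obtain ⟨C, N, -, hC⟩ := V.bd
  refine ⟨C / min (ε * δ) 1 ^ N, fun t ht x => ?_⟩
  have h1 := scale h (e0.le.trans ht) x
  have h2 : 0 < min (ε * δ) 1 := by positivity
  exact ⟨FTd.ft (mul_pos (e0.trans_le ht) d0) h1, hC _ ⟨h2, min_le_right _ _⟩ _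
    (FTd.mono ((min_le_left _ _).trans (by gcongr)) h1)⟩

theorem Hb.seg (V : Hb ψ) {η : Fin n → R2} (hη : η ∈ Dir n) :
    ∃ Φ : Sw n →L[ℂ] H, ∀ F : Sw n, ∃ B : ℝ, ∀ (a : Fin n → R2) (F' : Sw n),
      (∀ x, F' x = F (x - a)) → ∀ η' ∈ segment ℝ (et n) η, ∀ t ∈ Ioc (0 : ℝ) 1,
        ‖(∫ x, F' x • ψ (cxn x (t • η'))) - Φ F'‖ ≤ B * t := by
  obtain ⟨δ, d, hd⟩ := FT.exists hη
  obtain ⟨C, N, -, hC⟩ := V.bd
  refine sBV_of n N H ψ (FT n) _ (C / δ ^ N) (isOpen_FT n) V.hol (convex_segment _ _)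
    ⟨_, left_mem_segment ℝ _ _⟩ ?_ ?_
  · rw [segment_eq_image]
    exact (isCompact_Icc.image (by fun_prop)).isBounded
  · rintro x t ht _ ⟨a, b, ha, hb, hab, rfl⟩
    have h1 : cxn 0 (a • et n + b • η) ∈ FTd n δ := by
      rw [comb]
      exact convex_FTd n δ (FTd.mono d.2 et_mem) hd ha hb hab
    have h2 := scale h1 ht.1.le x
    have h3 : 0 < t * δ := mul_pos ht.1 d.1
    refine ⟨FTd.ft h3 h2, (hC _ ⟨h3, mul_le_one₀ ht.2 d.1.le d.2⟩ _ h2).trans_eq ?_⟩
    rw [mul_pow, div_div, mul_comm]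

theorem Hb.bv (V : Hb ψ) : ∃ Φ, Bv ψ Φ := by
  obtain ⟨Φ, hΦ⟩ := V.seg et_dir
  refine ⟨Φ, fun η hη F => ?_⟩
  obtain ⟨Φ', h'⟩ := V.seg hη
  have e : ∀ G, Φ G = Φ' G := fun G => by
    obtain ⟨B, hB⟩ := hΦ G
    obtain ⟨B', hB'⟩ := h' G
    rw [← sub_eq_zero, ← norm_le_zero_iff]
    refine le_zero (B := B + B') fun t ht => ?_
    have h1 := hB 0 G (by simp) _ (left_mem_segment ℝ _ _) t ht
    have h2 := hB' 0 G (by simp) _ (left_mem_segment ℝ _ _) t ht
    rw [norm_sub_rev] at h1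
    exact (norm_sub_le_norm_sub_add_norm_sub _ _ _).trans ((add_le_add h1 h2).trans_eq (by ring))
  obtain ⟨B, hB⟩ := h' F
  exact ⟨B, fun a F' hF t ht => e F' ▸ hB a F' hF η (right_mem_segment ℝ _ _) t ht⟩

theorem Bv.lim (h : Bv ψ Φ) {η : Fin n → R2} (hη : η ∈ Dir n) (F : Sw n) :
    Tendsto (fun t : ℝ => ∫ x, F x • ψ (cxn x (t • η))) (𝓝[>] 0) (𝓝 (Φ F)) := by
  obtain ⟨B, hB⟩ := h η hη F
  refine tendsto_iff_norm_sub_tendsto_zero.2 (squeeze_zero' (.of_forall fun _ => norm_nonneg _)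
    (Eventually.mono (Ioc_mem_nhdsGT one_pos) (hB 0 F fun x => by rw [sub_zero])) ?_)
  exact ((continuous_const.mul continuous_id).tendsto' 0 0 (mul_zero B)).mono_left
    nhdsWithin_le_nhds

theorem Hb.integ (V : Hb ψ) {ε : ℝ} (hε : 0 < ε) (F : Sw n) :
    Integrable fun x => F x • ψ (cxn x (ε • et n)) :=
  let ⟨_, hM⟩ := V.good one_pos (et_mem (n := n)) hε
  BV.integ V.hol (hM ε le_rfl) _

theorem Hb.cyc (V : Hb ψ) (bv : Bv ψ Φ) {x : H} (hx : ∀ f, inner ℂ x (Φ (tn f)) = 0)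
    {z : Fin n → C2} (hz : z ∈ FT n) : inner ℂ x (ψ z) = 0 := by
  choose x₀ hx₀ using fun i => exists_cx (z i)
  set η : Fin n → R2 := fun i => imv (z i) with hη
  have hz' : z = cxn x₀ η := funext hx₀
  obtain ⟨δ, d, hd⟩ := FT.exists hz
  have hd' : cxn 0 η ∈ FTd n δ := mem_FTd.2 (mem_FTd.1 (hz' ▸ hd))
  have key : ∀ f : Fin n → Tf, ∫ y, tn f y • inner ℂ x (ψ (cxn y η)) = 0 := by
    intro f
    obtain ⟨B, hB⟩ := bv η (FTd.ft d.1 hd') (tn f)
    let g : ℂ → ℂ := fun s => ∫ y, tn f y • inner ℂ x (ψ (cxn y 0 + s • cxn η 0))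
    have hg : ∀ s : ℂ, g s = ∫ y, tn f y • inner ℂ x (ψ (cxn (y + s.re • η) (s.im • η))) :=
      fun s => by simp only [g, BV.cxn_line, zero_add]
    have h1 : ‖g I‖ ≤ 0 := by
      refine le_zero (B := ‖x‖ * B) fun ε hε => ?_
      obtain ⟨M, hM⟩ := V.good (half_pos d.1) (FTd.mono (half_le_self d.1.le) hd') (half_pos hε.1)
      have hm : ∀ s : ℂ, ε / 2 < s.im → ∀ y, cxn y 0 + s • cxn η 0 ∈ FT n ∧
          ‖tn f y • inner ℂ x (ψ (cxn y 0 + s • cxn η 0))‖ ≤ ‖tn f y‖ * (‖x‖ * M) := by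
        intro s hs y
        have := hM s.im hs.le (y + s.re • η)
        rw [BV.cxn_line, zero_add]
        refine ⟨this.1, ?_⟩
        rw [norm_smul]
        exact mul_le_mul_of_nonneg_left ((norm_inner_le_norm _ _).trans
          (mul_le_mul_of_nonneg_left this.2 (norm_nonneg _))) (norm_nonneg _)
      have hb : Integrable fun y => ‖tn f y‖ * (‖x‖ * M) := (tn f).integrable.norm.mul_const _
      have hdf : DifferentiableOn ℂ g {s | ε / 2 < s.im} := by
        refine hol_int (isOpen_lt continuous_const continuous_im) hb (fun s hs => ?_)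
          (.of_forall fun y => ⟨fun s hs => ?_, fun s hs => (hm s hs y).2⟩)
        · refine ((tn f).continuous.smul (continuous_const.inner ?_)).aestronglyMeasurable
          exact V.hol.continuousOn.comp_continuous
            ((BV.continuous_cxn continuous_id continuous_const).add continuous_const)
            fun y => (hm s hs y).1
        · refine (DifferentiableAt.const_smul ?_ (tn f y)).differentiableWithinAt
          exact (innerSL ℂ x).differentiableAt.comp s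
            ((V.hol.differentiableAt ((isOpen_FT n).mem_nhds (hm s hs y).1)).comp s
              (f := fun s : ℂ => cxn y 0 + s • cxn η 0) (by fun_prop))
      have sub : ∀ s : ℂ, ε ≤ s.im → ε / 2 < s.im := fun s hs => by linarith [hε.1]
      refine pl (c := ε) (B := ∫ y, ‖tn f y‖ * (‖x‖ * M))
        (hdf.mono fun s hs => sub s (le_of_lt hs)) (hdf.continuousOn.mono sub)
        (fun s hs => norm_integral_le_of_norm_le hb (.of_forall fun y => (hm s (sub s hs) y).2))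
        (fun s hs => ?_) (by simpa using hε.2)
      let f' : Fin n → Tf := fun i => (f i).compSubConstCLM ℂ (s.re • η i)
      have e1 : ∀ y, tn f' y = tn f (y - s.re • η) := fun y => by simp [tn_apply, f']
      have e2 : g s = inner ℂ x (∫ y, tn f' y • ψ (cxn y (ε • η))) := by
        rw [hg, hs, ← integral_inner (BV.integ V.hol (hM ε (by linarith [hε.1])) _),
          ← integral_sub_right_eq_self _ (s.re • η)]
        simp only [e1, sub_add_cancel, inner_smul_right, smul_eq_mul]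
      have e3 := hB _ _ e1 ε hε
      rw [e2, ← sub_zero (inner ℂ x _), ← hx f', ← inner_sub_right, mul_assoc]
      exact (norm_inner_le_norm _ _).trans (mul_le_mul_of_nonneg_left e3 (norm_nonneg _))
    simpa [hg] using h1
  obtain ⟨M, hM⟩ := V.good d.1 hd' one_pos
  have hc : Continuous fun y => inner ℂ x (ψ (cxn y η)) :=
    continuous_const.inner (by simpa using BV.cont_x V.hol (hM 1 le_rfl))
  rw [hz']
  refine pt_eq (G := fun y => inner ℂ x (ψ (cxn y η))) (G' := fun _ => 0) one_pos hc.continuousOn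
    continuousOn_const fun f hf => ?_
  have := key fun i => HasCompactSupport.toSchwartzMap (f := fun y => (f i y : ℂ))
    ((hf i).1.comp_left (g := fun t : ℝ => (t : ℂ)) rfl)
    (ofRealCLM.contDiff.comp (hf i).2.1)
  simp only [tn_apply] at this
  simp only [smul_zero, integral_zero]
  exact this

open HermA in
theorem Hb.dir (h : Hb ψ) {η : Fin n → R2} (hη : η ∈ Dir n) :
    (Continuous fun x => ψ (cxn x η)) ∧ ∃ M, ∀ x, ‖ψ (cxn x η)‖ ≤ M := by
  refine ⟨h.hol.continuousOn.comp_continuous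
    (continuous_pi fun i => continuous_cx (by fun_prop) continuous_const) (dir_ft hη), ?_⟩
  obtain ⟨C, N, -, hC⟩ := h.bd
  obtain ⟨δ, h1, h2⟩ := FT.exists hη
  exact ⟨_, fun x => hC δ h1 _ ((ftd_iff _ _).2 ((ftd_iff _ _).1 h2))⟩

open HermA in
theorem Hb.smear {ψ : (Fin (n + 1) → C2) → H} (h : Hb ψ) {η : Fin n → R2} (hη : η ∈ Dir n) {t : ℝ}
    (ht : 0 < t) (f : Tf) (F : Sw n) :
    (∀ u : R2, Integrable fun x => F x • ψ (cxn (Fin.cons u x) (t • up η))) ∧
      (Integrable fun u : R2 => f u • ∫ x, F x • ψ (cxn (Fin.cons u x) (t • up η))) ∧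
      ∫ x, cs f F x • ψ (cxn x (t • up η)) =
        ∫ u : R2, f u • ∫ x, F x • ψ (cxn (Fin.cons u x) (t • up η)) := by
  obtain ⟨hc, M, hM⟩ := h.dir (dir_smul (dir_up hη) ht)
  have := split (HermA.integ hc hM (cs f F))
  have e : ∀ u : R2, ∫ x, cs f F (Fin.cons u x) • ψ (cxn (Fin.cons u x) (t • up η)) =
      f u • ∫ x, F x • ψ (cxn (Fin.cons u x) (t • up η)) := fun u => by
    simp only [cs_apply, Fin.cons_zero, Fin.tail_cons, mul_smul, integral_smul]
  exact ⟨fun u => HermA.integ (hc.comp (by fun_prop)) (fun x => hM _) F,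
    this.1.congr (.of_forall e), this.2.trans (integral_congr_ae (.of_forall e))⟩

end

theorem sPhi_of : S_Phi V H := by
  intro E Ω ψ w h
  choose Φ bv using fun n a => (h.hb n a).bv
  have m : ∀ n, ∀ ε > (0 : ℝ), ∀ x, cxn x (ε • et n) ∈ FT n := fun n ε hε x =>
    FTd.ft (by simpa using hε) (scale et_mem hε.le x)
  refine ⟨Φ, bv, fun a => ?_, fun n t c c' a F => ?_, fun n a f G hG => ?_⟩
  · obtain ⟨B, hB⟩ := bv 0 a _ et_dir one0
    rw [eq_comm, ← sub_eq_zero, ← norm_le_zero_iff]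
    refine le_zero (B := B) fun t ht => ?_
    have := hB 0 one0 (by simp) t ht
    simpa [h.nil, Measure.volume_pi_eq_dirac (0 : Fin 0 → R2)] using this
  · refine tendsto_nhds_unique ((bv _ _).lim et_dir F) (((((bv _ _).lim et_dir F).const_smul (t : ℂ)).add
      ((bv _ _).lim et_dir F)).congr' (eventually_mem_nhdsWithin.mono fun ε hε => ?_))
    beta_reduce
    rw [← integral_smul, ← integral_add (((h.hb _ _).integ hε F).fun_smul (t : ℂ)) ((h.hb _ _).integ hε F)]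
    refine integral_congr_ae (.of_forall fun x => ?_)
    simp only [h.lin n t c c' a _ (m _ ε hε x), smul_add, smul_comm (t : ℂ)]
  · have hG' : ∀ ε > (0 : ℝ), G ε = fun x => inner ℂ Ω (tn f x • ψ n a (cxn x (ε • et n))) := by
      intro ε hε
      ext x
      rw [hG, ← h.wtr n a _ (ie ε), pts, h.wval n a _ (m n ε hε x), inner_smul_right, tn_apply]
    refine ⟨fun ε hε => hG' ε hε ▸ ((h.hb n a).integ hε _).const_inner Ω,
      (tendsto_const_nhds.inner ((bv n a).lim et_dir (tn f))).congr' ?_⟩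
    filter_upwards [self_mem_nhdsWithin] with ε hε
    rw [hG' ε hε, integral_inner ((h.hb n a).integ hε _)]

theorem sCyc_of : S_Cyc V H := fun _ _ _ _ _ S bv x hx =>
  S.total x fun n a _ hz => (S.toVec.hb n a).cyc (bv n a) (hx n a) hz

open HermA in
theorem herm_pt {E : C2 → H →L[ℂ] H} {Ω : H} {ψ : Fm V H} {w : Fm V ℂ} (h : Vec E Ω ψ w) {m : ℕ}
    (α β) (γ : V) {η : Fin m → R2} {η' : Fin n → R2} (hη : η ∈ Dir m)
    (hη' : η' ∈ Dir n) {t : ℝ} (ht : 0 < t) (u : R2) (y : Fin m → R2) (x : Fin n → R2) :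
    inner ℂ (ψ m α (cxn y (t • η))) (ψ (n + 1) (Fin.cons γ β) (cxn (Fin.cons u x) (t • up η'))) =
      inner ℂ (ψ (m + 1) (Fin.cons (star γ) α) (cxn (Fin.cons u y) (t • up η)))
        (ψ n β (cxn x (t • η'))) := by
  have e1 : star (cx u (t • e0)) - -cx 0 ((2 * t) • e0) = cx u (t • e0) := by
    rw [star_cx, sub_neg_eq_add, ← cx_add, add_zero]
    congr 1
    module
  have e2 : star (-cx 0 ((2 * t) • e0)) = cx 0 ((2 * t) • e0) := by
    ext μ
    simp [cx]
  have e3 : cx u (t • e0) ∈ TO := by simpa [TO] using ht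
  have := h.shift m n α β γ (cx u (t • e0)) (-cx 0 ((2 * t) • e0)) _ (dir_ft (dir_smul hη ht) y) _
    (dir_ft (dir_smul hη' ht) x) e3 (e1.symm ▸ e3)
  rw [e1, e2] at this
  simpa only [cxn_cons, sub_neg_eq_add] using this

open HermA in
theorem sHerm_of : S_Herm V H := fun _ _ ψ _ _ h hΦ m n α β γ G F f g e => by
  obtain ⟨η, hη⟩ := dir_ne m
  obtain ⟨η', hη'⟩ := dir_ne n
  refine tendsto_nhds_unique (((hΦ _ _).lim hη G).inner ((hΦ _ _).lim (dir_up hη') (cs f F)))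
    ((((hΦ _ _).lim (dir_up hη) (cs g G)).inner ((hΦ _ _).lim hη' F)).congr' ?_)
  filter_upwards [self_mem_nhdsWithin] with t ht
  obtain ⟨a1, a2, a3⟩ := (h.toVec.hb _ (Fin.cons (star γ) α)).smear hη ht g G
  obtain ⟨b1, b2, b3⟩ := (h.toVec.hb _ (Fin.cons γ β)).smear hη' ht f F
  obtain ⟨c1, M, c2⟩ := (h.toVec.hb _ α).dir (dir_smul hη ht)
  obtain ⟨d1, M', d2⟩ := (h.toVec.hb _ β).dir (dir_smul hη' ht)
  rw [a3, b3, inner_l a2, ← integral_inner b2]
  refine integral_congr_ae (.of_forall fun u => ?_)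
  simp only [inner_smul_left, inner_smul_right, e, conj_conj]
  rw [swap (HermA.integ c1 c2 G) (a1 u) (b1 u) (HermA.integ d1 d2 F)
    (herm_pt h.toVec α β γ hη hη' ht u)]

end Pool.Agent.Lib.MP_7f377f_mp.W2.L
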