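import Pool.Agent.Lib.MP_7f377f_mp.G.XSpec

/-! Wightman reconstruction for fields with labels: definitions. -/

noncomputable section

namespace Pool.Agent.Lib.MP_7f377f_mp.W2.L

open MeasureTheory Filter Topology Set Complex Matrix Metric

variable {V : Type} [AddCommGroup V] [Module ℝ V] [InvolutiveStar V]
  {H : Type} [NormedAddCommGroup H] [InnerProductSpace ℂ H]

/-- the labels of a scalar product -/
def gl {m n : ℕ} (a : Fin m → V) (b : Fin n → V) : Fin (m + n) → V :=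
  Fin.append (fun i => star (a i.rev)) b

/-- `A c z w = E z * φ c 0 * E w` -/
structure Pt (E : C2 → H →L[ℂ] H) (A : V → C2 → C2 → H →L[ℂ] H) : Prop where
  hol : ∀ c, DifferentiableOn ℂ (fun p : C2 × C2 => A c p.1 p.2) (TO ×ˢ TO)
  bd : ∀ c, ∃ (C : ℝ) (N : ℕ), 0 ≤ C ∧ ∀ δ ∈ Ioc (0 : ℝ) 1, ∀ z ∈ TV δ, ∀ w ∈ TV δ,
    ‖A c z w‖ ≤ C / δ ^ N
  cov : ∀ c, ∀ z ∈ TO, ∀ w ∈ TO, ∀ u ∈ TV 0,
    E u * A c z w = A c (u + z) w ∧ A c z w * E u = A c z (w + u)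
  adj : ∀ c, ∀ z ∈ TO, ∀ w ∈ TO, ∀ x y,
    inner ℂ (A (star c) z w x) y = inner ℂ x (A c (-star w) (-star z) y)
  lin : ∀ (t : ℝ) c c', ∀ z ∈ TO, ∀ w ∈ TO,
    A (t • c + c') z w = (t : ℂ) • A c z w + A c' z w

/-- holomorphic with polynomial bounds -/
structure Hb {n : ℕ} (ψ : (Fin n → C2) → H) : Prop where
  hol : DifferentiableOn ℂ ψ (FT n)
  bd : ∃ (C : ℝ) (N : ℕ), 0 ≤ C ∧ ∀ δ ∈ Ioc (0 : ℝ) 1, ∀ z ∈ FTd n δ, ‖ψ z‖ ≤ C / δ ^ N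

/-- families indexed by labels and points -/
abbrev Fm (V X : Type) : Type := ∀ n, (Fin n → V) → (Fin n → C2) → X

/-- `ψ n a z = φ (a 0) (z 0) .. φ (a (n - 1)) (z (n - 1)) Ω` and `w n a z = ⟪Ω, ψ n a z⟫` -/
structure Vec (E : C2 → H →L[ℂ] H) (Ω : H) (ψ : Fm V H) (w : Fm V ℂ) : Prop where
  nil : ∀ a z, ψ 0 a z = Ω
  hol : ∀ n a, DifferentiableOn ℂ (ψ n a) (FT n)
  bd : ∀ n a, ∃ (C : ℝ) (N : ℕ), 0 ≤ C ∧ ∀ δ ∈ Ioc (0 : ℝ) 1, ∀ z ∈ FTd n δ, ‖ψ n a z‖ ≤ C / δ ^ N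
  cov : ∀ n a, ∀ z ∈ FT n, ∀ u ∈ TV 0, E u (ψ n a z) = ψ n a fun i => z i + u
  whol : ∀ n a, DifferentiableOn ℂ (w n a) (Tube n)
  wtr : ∀ n a z (c : C2), w n a (fun i => z i + c) = w n a z
  wval : ∀ n a, ∀ z ∈ FT n, w n a z = inner ℂ Ω (ψ n a z)
  inn : ∀ m n α β, ∀ a ∈ FT m, ∀ b ∈ FT n,
    inner ℂ (ψ m α a) (ψ n β b) = w (m + n) (gl α β) (glue a b)
  shift : ∀ m n α β γ (p c : C2), ∀ a ∈ FT m, ∀ b ∈ FT n, p ∈ TO → star p - c ∈ TO →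
    inner ℂ (ψ m α a) (ψ (n + 1) (Fin.cons γ β) (Fin.cons (star p - c) fun i => b i - c)) =
      inner ℂ (ψ (m + 1) (Fin.cons (star γ) α) (Fin.cons p fun i => a i + star c)) (ψ n β b)
  lin : ∀ n (t : ℝ) c c' a, ∀ z ∈ FT (n + 1), ψ (n + 1) (Fin.cons (t • c + c') a) z =
    (t : ℂ) • ψ (n + 1) (Fin.cons c a) z + ψ (n + 1) (Fin.cons c' a) z

section
variable {E : C2 → H →L[ℂ] H} {Ω : H} {ψ : Fm V H} {w : Fm V ℂ}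

theorem Vec.hb (h : Vec E Ω ψ w) (n a) : Hb (ψ n a) := ⟨h.hol n a, h.bd n a⟩

end

/-- the recursion -/
def Rec (A : V → C2 → C2 → H →L[ℂ] H) (ψ : Fm V H) : Prop :=
  ∀ n c a, ∀ p ∈ TO, ∀ u ∈ TO, ∀ z ∈ FT n,
    ψ (n + 1) (Fin.cons c a) (Fin.cons p fun i => z i + (p + u)) = A c p u (ψ n a z)

/-- Euclidean covariance and symmetry at Euclidean points -/
def E1 (w : Fm V ℂ) : Prop :=
  ∀ n (a : Fin n → V) R (σ : Equiv.Perm (Fin n)) (y : Fin n → R2),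
    SO R → StrictMono (fun i => y (σ i) 0) → StrictMono (fun i => act R (y i) 0) →
      w n (fun i => a (σ i)) (fun i => euc (y (σ i))) =
        w n a fun i => euc (act R (y i))

/-- the same at complex points -/
def E1c (w : Fm V ℂ) : Prop :=
  ∀ n (a : Fin n → V) R (σ : Equiv.Perm (Fin n)) (y : Fin n → R2),
    SO R → StrictMono (fun i => y (σ i) 0) → StrictMono (fun i => act R (y i) 0) →
      ∀ z : Fin n → C2, (fun i => z (σ i)) ∈ Tube n → (fun i => wick R *ᵥ z i) ∈ Tube n →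
        w n (fun i => a (σ i)) (fun i => z (σ i)) =
          w n a fun i => wick R *ᵥ z i

/-- Lorentz covariance -/
def Linv (w : Fm V ℂ) : Prop :=
  ∀ n a L, Lor L → ∀ z ∈ Tube n, w n a (fun i => cact L (z i)) = w n a z

/-- the abstract input of the reconstruction -/
structure Sys0 (E : C2 → H →L[ℂ] H) (Ω : H) (ψ : Fm V H) (w : Fm V ℂ) : Prop
    extends Vec E Ω ψ w where
  tub : Tub E
  unit : ‖Ω‖ = 1
  spec : Spec fun a => E (rl a)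
  vac : ∀ x, (∀ a, E (rl a) x = x) → ∃ c : ℂ, x = c • Ω

/-- the vectors `ψ n a z` are total -/
structure Sys (E : C2 → H →L[ℂ] H) (Ω : H) (ψ : Fm V H) (w : Fm V ℂ) : Prop
    extends Sys0 E Ω ψ w where
  total : ∀ x, (∀ n a, ∀ z ∈ FT n, inner ℂ x (ψ n a z) = 0) → x = 0

/-- families of distributions -/
abbrev Ds (V H : Type) [NormedAddCommGroup H] [InnerProductSpace ℂ H] : Type :=
  ∀ n, (Fin n → V) → Sw n →L[ℂ] H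

/-- the boundary value of one function -/
def Bv {n : ℕ} (ψ : (Fin n → C2) → H) (Φ : Sw n →L[ℂ] H) : Prop :=
  ∀ η ∈ Dir n, ∀ F : Sw n, ∃ B : ℝ, ∀ (a : Fin n → R2) (F' : Sw n), (∀ x, F' x = F (x - a)) →
    ∀ t ∈ Ioc (0 : ℝ) 1, ‖(∫ x, F' x • ψ (cxn x (t • η))) - Φ F'‖ ≤ B * t

/-- boundary values -/
def IsBV (ψ : Fm V H) (Φ : Ds V H) : Prop := ∀ n a, Bv (ψ n a) (Φ n a)

/-- hermiticity -/
def Herm (Φ : Ds V H) : Prop := ∀ m n α β γ (G : Sw m) (F : Sw n) (f g : Tf),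
  (∀ u, g u = starRingEnd ℂ (f u)) → inner ℂ (Φ m α G) (Φ (n + 1) (Fin.cons γ β) (cs f F)) =
    inner ℂ (Φ (m + 1) (Fin.cons (star γ) α) (cs g G)) (Φ n β F)

/-- cyclicity -/
def Cyc (Φ : Ds V H) : Prop :=
  ∀ x, (∀ n a (f : Fin n → Tf), inner ℂ x (Φ n a (tn f)) = 0) → x = 0

/-- linearity in the label -/
def Lin (Φ : Ds V H) : Prop := ∀ n (t : ℝ) c c' a F, Φ (n + 1) (Fin.cons (t • c + c') a) F =
  (t : ℂ) • Φ (n + 1) (Fin.cons c a) F + Φ (n + 1) (Fin.cons c' a) F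

/-- two more labels -/
def l2 {m : ℕ} (c c' : V) (a : Fin m → V) : Fin (m + 2) → V := Fin.cons c (Fin.cons c' a)

/-- locality for compact supports separated in the direction of one unit vector -/
def Loc1 (Φ : Ds V H) : Prop := ∀ u, Un u → ∀ f g : Tf, HasCompactSupport f →
  HasCompactSupport g → (∀ x ∈ tsupport f, ∀ y ∈ tsupport g, |y 0 - x 0| < inner ℝ (y - x) u) →
    ∀ n c c' a (F : Sw n),
      Φ (n + 2) (l2 c c' a) (cs f (cs g F)) = Φ (n + 2) (l2 c' c a) (cs g (cs f F))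

/-- locality -/
def Loc2 (Φ : Ds V H) : Prop := ∀ f g : Tf,
  (∀ x ∈ tsupport f, ∀ y ∈ tsupport g, mink (x - y) (x - y) < 0) → ∀ n c c' a (F : Sw n),
    Φ (n + 2) (l2 c c' a) (cs f (cs g F)) = Φ (n + 2) (l2 c' c a) (cs g (cs f F))

/-- the representation of the Poincare group -/
structure Poi (E : C2 → H →L[ℂ] H) (Ω : H) (Φ : Ds V H)
    (U : R2 → Mat → H →L[ℂ] H) : Prop where
  rep : ∀ a L, Lor L → Function.Surjective (U a L) ∧ (∀ x, ‖U a L x‖ = ‖x‖) ∧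
    ∀ b M, Lor M → U a L * U b M = U (a + act L b) (L * M)
  cont : ∀ x, ContinuousOn (fun p : R2 × Mat => U p.1 p.2 x) {p | Lor p.2}
  tr : ∀ a, U a 1 = E (rl a)
  vac : ∀ a L, Lor L → U a L Ω = Ω
  cov : ∀ a L, Lor L → ∀ n α (F F' : Sw n), (∀ x, F' (fun i => a + act L (x i)) = F x) →
    U a L (Φ n α F) = Φ n α F'

/-- the vacuum expectation value is a boundary value -/
def Bdry {n : ℕ} (w : (Fin n → C2) → ℂ) (v : (Fin n → Tf) → ℂ) : Prop :=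
  ∀ (f : Fin n → Tf) (G : ℝ → (Fin n → R2) → ℂ),
    (∀ ε x, G ε x =
      (∏ i, f i (x i)) * w fun i μ => x i μ + if μ = 0 then I * ε * (i : ℕ) else 0) →
    (∀ ε > 0, Integrable (G ε)) ∧ Tendsto (fun ε => ∫ x, G ε x) (𝓝[>] 0) (𝓝 (v f))

/-! ### Statements -/

variable (V H)

def S_D : Prop := ∀ (E : C2 → H →L[ℂ] H) (A : V → C2 → C2 → H →L[ℂ] H) Ω, Tub E → Pt E A →
  (∀ z ∈ TV 0, E z Ω = Ω) → ∃ ψ w, Vec E Ω ψ w ∧ Rec A ψ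

def S_R : Prop := ∀ (E : C2 → H →L[ℂ] H) Ω (ψ : Fm V H) w, Sys0 E Ω ψ w →
  ∃ (K : Type) (_ : NormedAddCommGroup K) (_ : InnerProductSpace ℂ K) (_ : CompleteSpace K)
    (E' : C2 → K →L[ℂ] K) (Ω' : K) (ψ' : Fm V K) (j : K →ₗᵢ[ℂ] H),
    j Ω' = Ω ∧ (∀ n a, ∀ z ∈ FT n, j (ψ' n a z) = ψ n a z) ∧
      (∀ z ∈ TV 0, ∀ x, j (E' z x) = E z (j x)) ∧ Sys E' Ω' ψ' w

def S_F1 : Prop := ∀ (w : Fm V ℂ), (∀ n a, DifferentiableOn ℂ (w n a) (Tube n)) →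
  E1 w → E1c w

def S_F2 : Prop := ∀ (w : Fm V ℂ), (∀ n a, DifferentiableOn ℂ (w n a) (Tube n)) →
  E1c w → Linv w

def S_Phi : Prop := ∀ (E : C2 → H →L[ℂ] H) Ω (ψ : Fm V H) w, Vec E Ω ψ w → ∃ Φ, IsBV ψ Φ ∧
  (∀ a, Φ 0 a one0 = Ω) ∧ Lin Φ ∧ ∀ n a, Bdry (w n a) fun f => inner ℂ Ω (Φ n a (tn f))

def S_Cyc : Prop := ∀ (E : C2 → H →L[ℂ] H) Ω (ψ : Fm V H) w Φ, Sys E Ω ψ w → IsBV ψ Φ → Cyc Φ

def S_Herm : Prop := ∀ (E : C2 → H →L[ℂ] H) Ω (ψ : Fm V H) w Φ, Sys E Ω ψ w → IsBV ψ Φ → Herm Φ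

def S_L1 : Prop := ∀ (E : C2 → H →L[ℂ] H) Ω (ψ : Fm V H) w Φ, Sys E Ω ψ w → E1c w →
  IsBV ψ Φ → Loc1 Φ

def S_L2 : Prop := ∀ Φ : Ds V H, Loc1 Φ → Loc2 Φ

def S_G1 : Prop := ∀ (E : C2 → H →L[ℂ] H) Ω (ψ : Fm V H) w Φ, Sys E Ω ψ w → Linv w →
  IsBV ψ Φ → ∃ U, Poi E Ω Φ U

variable {V H} in
/-- the fields -/
structure Wf (U : R2 → Mat → H →L[ℂ] H) (Φ : Ds V H) (Ω : H) (D : Submodule ℂ H)
    (φ : V × Tf → H → H) : Prop where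
  vac : Ω ∈ D
  fold : ∀ n a (f : Fin n → Tf), (List.ofFn fun i => (a i, f i)).foldr φ Ω = Φ n a (tn f)
  mem : ∀ x ∈ D, ∀ c f, φ (c, f) x ∈ D
  linf : ∀ x ∈ D, ∀ c f (t : ℂ) g, φ (c, t • f + g) x = t • φ (c, f) x + φ (c, g) x
  linc : ∀ x ∈ D, ∀ c f (t : ℝ) b, φ (t • c + b, f) x = (t : ℂ) • φ (c, f) x + φ (b, f) x
  linx : ∀ x ∈ D, ∀ c f, ∀ y ∈ D, ∀ t : ℂ, φ (c, f) (t • x + y) = t • φ (c, f) x + φ (c, f) y
  cont : ∀ x ∈ D, ∀ c, ∀ y ∈ D, Continuous fun g => inner ℂ y (φ (c, g) x)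
  herm : ∀ x ∈ D, ∀ c (f : Tf), ∀ y ∈ D, ∀ g : Tf, (∀ u, g u = starRingEnd ℂ (f u)) →
    inner ℂ y (φ (c, f) x) = inner ℂ (φ (star c, g) y) x
  cov : ∀ x ∈ D, ∀ a L, Lor L → U a L x ∈ D ∧ ∀ c (f g : Tf), (∀ u, g (a + act L u) = f u) →
    U a L (φ (c, f) x) = φ (c, g) (U a L x)
  sym : ∀ (J : H →L[ℂ] H) (σ : V → V), (∀ n a F, J (Φ n a F) = Φ n (fun i => σ (a i)) F) →
    ∀ x ∈ D, J x ∈ D ∧ ∀ c f, J (φ (c, f) x) = φ (σ c, f) (J x)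
  loc : ∀ x ∈ D, ∀ c (f : Tf) b (g : Tf),
    (∀ u ∈ tsupport f, ∀ v ∈ tsupport g, mink (u - v) (u - v) < 0) →
      φ (c, f) (φ (b, g) x) = φ (b, g) (φ (c, f) x)

def S_G2 : Prop := ∀ (E : C2 → H →L[ℂ] H) Ω (Φ : Ds V H) U, Poi E Ω Φ U →
  (∀ a, Φ 0 a one0 = Ω) → Herm Φ → Cyc Φ → Lin Φ → Loc2 Φ → ∃ D φ, Wf U Φ Ω D φ

end Pool.Agent.Lib.MP_7f377f_mp.W2.L
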