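import Pool.Agent.Lib.MP_7f377f_mp.G.XZDef
import Pool.Agent.Lib.MP_7f377f_mp.G.PlZ

/-! The planar theory is a two dimensional Euclidean theory with labels. -/

noncomputable section

namespace Pool.Agent.Lib.MP_7f377f_mp.Pl
variable [Pool.Agent.Lib.MP_7f377f_mp.GD]
set_option linter.unusedSectionVars false

open Filter Topology Set YM7 Pur Ro MvPolynomial
open W2 (R2)
open scoped NNReal

variable {W : Pol →ₗ[ℂ] ℂ} {H : Type} [NormedAddCommGroup H] [InnerProductSpace ℂ H]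
  [CompleteSpace H] {g h : R2 → ℝ} {y : R4}

instance (O : Set R2) : Cyl (p1 ⁻¹' O) :=
  ⟨fun {x y} e h => show p1 y ∈ O from (ext2 (pl_eq e 0) (pl_eq e 1) : p1 x = p1 y) ▸ h⟩

theorem jn_p (y : R4) : jn (p1 y) (p2 y) = y := ext4 rfl rfl rfl rfl

@[fun_prop] theorem continuous_jn {Y : Type} [TopologicalSpace Y] {u v : Y → R2} (hu : Continuous u)
    (hv : Continuous v) : Continuous fun y => jn (u y) (v y) := by
  unfold jn
  fun_prop

theorem contDiff_p1 : ContDiff ℝ 1 p1 :=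
  contDiff_euclidean.2 fun i => by fin_cases i <;> simp <;> fun_prop

theorem contDiff_p2 : ContDiff ℝ 1 p2 :=
  contDiff_euclidean.2 fun i => by fin_cases i <;> simp <;> fun_prop

theorem norm_sq_p (y : R4) : ‖y‖ ^ 2 = ‖p1 y‖ ^ 2 + ‖p2 y‖ ^ 2 := by
  simp only [EuclideanSpace.real_norm_sq_eq, Fin.sum_univ_four, Fin.sum_univ_two, p10, p11, p20, p21]
  ring

theorem dist_p (x y : R4) : dist (p1 x) (p1 y) ≤ dist x y ∧ dist (p2 x) (p2 y) ≤ dist x y := by
  have := norm_sq_p (x - y)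
  rw [show p1 (x - y) = p1 x - p1 y from ext2 rfl rfl,
    show p2 (x - y) = p2 x - p2 y from ext2 rfl rfl] at this
  simp only [dist_eq_norm]
  constructor <;> refine le_of_sq_le_sq ?_ (norm_nonneg _) <;> rw [this]
  · exact le_add_of_nonneg_right (sq_nonneg _)
  · exact le_add_of_nonneg_left (sq_nonneg _)

theorem supp_pr (hy : y ∈ tsupport (pr g h)) : p1 y ∈ tsupport g ∧ p2 y ∈ tsupport h :=
  ⟨tsupport_comp_subset_preimage g continuous_p1 (tsupport_mul_subset_left hy),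
    tsupport_comp_subset_preimage h continuous_p2 (tsupport_mul_subset_right hy)⟩

theorem gd_pr {O : Set R2} (hg : W2.C1 O g) (c : Lab) : PN.Gd (p1 ⁻¹' O) (pr g c) :=
  ⟨((hg.1.isCompact.prod c.2.1.isCompact).image (f := fun p => jn p.1 p.2)
    (by fun_prop)).of_isClosed_subset (isClosed_tsupport _)
    fun y hy => ⟨(p1 y, p2 y), supp_pr hy, jn_p y⟩,
    (hg.2.1.comp contDiff_p1).mul (c.2.2.comp contDiff_p2), fun _ hy => hg.2.2 (supp_pr hy).1⟩

theorem adm_pr {k : ℕ} {f : Fin k → R2 → ℝ} (hf : W2.Adm f) (a : Fin k → Lab) :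
    Adm fun i => pr (f i) (a i) :=
  have e := fun i => gd_pr (O := tsupport (f i)) ⟨(hf.1 i).1, (hf.1 i).2, le_rfl⟩ (a i)
  ⟨fun i => ⟨(e i).1, (e i).2.1⟩, fun i j n => (dj_pre (hf.2 n)).mono (e i).2.2 (e j).2.2⟩

theorem jn_e0 (t : ℝ) : jn (t • W2.e0) 0 = ax 0 t :=
  ext4 (by simp) (by simp [W2.e0]) (by simp) (by simp)

theorem tn_pr (c : Lab) : ∃ (R : ℝ) (M : ℝ≥0), ∀ d ∈ Ioc (0 : ℝ) 1, ∀ (g : R2 → ℝ) (L : ℝ≥0),
    W2.C1 (W2.Bx d) g → LipschitzWith L g → Tn d R (L * M) (pr g c) := by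
  obtain ⟨K, hK⟩ := c.2.2.lipschitzWith_of_hasCompactSupport c.2.1 one_ne_zero
  obtain ⟨B, hB⟩ := c.2.2.continuous.bounded_above_of_compact_support c.2.1
  obtain ⟨R, hR⟩ := c.2.1.isCompact.isBounded.exists_norm_le
  lift B to ℝ≥0 using (norm_nonneg _).trans (hB 0)
  refine ⟨2 + |R|, B + 2 * K, fun d hd g L hg hL => ⟨(gd_pr hg c).1, (gd_pr hg c).2.1,
    .of_dist_le_mul fun x y => ?_, fun y hy => ?_⟩⟩
  · have b : |g (p1 y)| ≤ L * 2 := by
      by_cases e : g (p1 y) = 0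
      · rw [e, abs_zero]
        positivity
      have z : g (p1 y + (2 : ℝ) • W2.e0) = 0 := by_contra fun e' => by
        have h1 := abs_lt.1 (hg.2.2 (subset_tsupport _ e) 0)
        have h2 := abs_lt.1 (hg.2.2 (subset_tsupport _ e') 0)
        simp at h1 h2
        linarith [hd.2]
      have := hL.dist_le_mul (p1 y) (p1 y + (2 : ℝ) • W2.e0)
      rw [z] at this
      simpa [W2.e0, norm_smul] using this
    have h1 := (hL.dist_le_mul _ _).trans (mul_le_mul_of_nonneg_left (dist_p x y).1 L.2)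
    have h2 := (hK.dist_le_mul _ _).trans (mul_le_mul_of_nonneg_left (dist_p x y).2 K.2)
    rw [Real.dist_eq] at h1 h2 ⊢
    rw [show pr g c x - pr g c y = (g (p1 x) - g (p1 y)) * c.1 (p2 x) +
      g (p1 y) * (c.1 (p2 x) - c.1 (p2 y)) by simp only [pr]; ring]
    refine (abs_add_le _ _).trans ?_
    rw [abs_mul, abs_mul]
    refine (add_le_add (mul_le_mul h1 (hB _) (abs_nonneg _) (by positivity))
      (mul_le_mul b h2 (abs_nonneg _) (by positivity))).trans_eq ?_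
    push_cast
    ring
  · have h0 := hg.2.2 (supp_pr hy).1 0
    have h1 := hg.2.2 (supp_pr hy).1 1
    have h2 := (hR _ (supp_pr hy).2).trans (le_abs_self R)
    refine ⟨h0, h1, le_of_sq_le_sq ?_ (by positivity)⟩
    rw [norm_sq_p, EuclideanSpace.real_norm_sq_eq, Fin.sum_univ_two, ← sq_abs (p1 y 0),
      ← sq_abs (p1 y 1)]
    nlinarith [abs_nonneg (p1 y 0), abs_nonneg (p1 y 1), hd.2, norm_nonneg (p2 y), abs_nonneg R]

theorem so_rot {R : W2.Mat} (h : W2.SO R) : ∃ φ, ∀ y, p1 (rot 0 φ y) = W2.act R (p1 y) := by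
  have h1 := congrFun₂ h.1 0 0
  have h2 := congrFun₂ h.1 0 1
  have h3 := h.2
  rw [Matrix.det_fin_two] at h3
  simp [Matrix.mul_apply] at h1 h2
  have n : ‖(⟨R 0 0, R 1 0⟩ : ℂ)‖ = 1 := by
    rw [← sq_eq_sq₀ (norm_nonneg _) zero_le_one, Complex.sq_norm, Complex.normSq_mk, h1, one_pow]
  have c := Complex.cos_arg (x := ⟨R 0 0, R 1 0⟩) (norm_ne_zero_iff.1 (n ▸ one_ne_zero))
  have s := Complex.sin_arg ⟨R 0 0, R 1 0⟩
  rw [n, div_one] at c s
  have e1 : R 0 1 = -R 1 0 := by linear_combination R 0 0 * h2 - R 0 1 * h1 - R 1 0 * h3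
  have e2 : R 1 1 = R 0 0 := by linear_combination R 1 0 * h2 - R 1 1 * h1 + R 0 0 * h3
  refine ⟨Complex.arg ⟨R 0 0, R 1 0⟩, fun y => ext2 ((rot_zero' _ y).trans ?_) ((rot_one _ y).trans ?_)⟩ <;>
    rw [c, s, W2.act_apply, Fin.sum_univ_two]
  · rw [e1, neg_mul, ← sub_eq_add_neg]
    rfl
  · rw [e2]
    rfl

theorem fld_of (h : HH W) (hT : Thin1 W) (h1 : net.St W 1) : W2.L.Fld net2 xf W := by
  have s : ∀ μ, net.St W (dr μ) := Fin.forall_fin_two.2 ⟨h.h0.st, h1⟩
  have cy : ∀ (O : Set R2) {u u' : R4 → ℝ} (t : ℝ), PN.Gd (p1 ⁻¹' O) u → PN.Gd (p1 ⁻¹' O) u' →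
      ∀ Z ∈ net2.loc Oᶜ, W (X (u + t • u') * Z) = W (X u * Z) + t * W (X u' * Z) :=
    fun O _ _ t a b Z hZ => h.h0.lin _ _ t a.1 a.2.1 b.1 b.2.1 Z (net.mono hZ
      (compl_subset_compl.2 (cy_sub (O := p1 ⁻¹' O) (union_subset a.2.2 b.2.2))))
  refine ⟨⟨h1.one, fun v => h1.ti _, fun μ => (s μ).herm, fun μ e => (s μ).pos (loc2 μ 0 ▸ e),
    fun {_ v} μ e hv => (s μ).con (loc2 μ 0 ▸ e) (hv.trans_eq (by fin_cases μ <;> rfl))⟩,
    fun a f hf e => mon_mem (adm_pr hf a) fun i y hy => e i (supp_pr hy).1, fun v c f => ?_,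
    fun c f => ?_, fun c g g' t hg hg' Z hZ => ?_, fun t a b g hg Z hZ => ?_, ?_,
    fun R Q hR e k a f hf => ?_⟩
  · refine (rename_X _ _).trans (congrArg X (funext fun y => ?_))
    simp only [pr, p1_sub, p2_sub, sub_zero]
  · have := Θ_mon 0 ![pr f c]
    simp only [mon, Fin.prod_univ_one, Matrix.cons_val_zero] at this
    refine this.trans (congrArg X (funext fun y => ?_))
    exact congrArg₂ (· * ·) (congrArg f (p1_rf 0 y))
      (congrArg c.1 (ext2 (rf_ne (μ := 0) (l := 2) (by decide) y)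
        (rf_ne (μ := 0) (l := 3) (by decide) y)))
  · rw [xf, show pr (g + t • g') c = pr g c + t • pr g' c from funext fun y => by
      simp [pr, add_mul, mul_assoc]]
    exact cy _ t (gd_pr ⟨hg.1, hg.2.1, subset_union_left⟩ c)
      (gd_pr ⟨hg'.1, hg'.2.1, subset_union_right⟩ c) Z hZ
  · rw [xf, show pr g (t • a + b : Lab) = pr g b + t • pr g a from funext fun y => by
      simp [pr]; ring, add_comm (_ * _)]
    exact cy _ t (gd_pr ⟨hg.1, hg.2.1, le_rfl⟩ b) (gd_pr ⟨hg.1, hg.2.1, le_rfl⟩ a) Z hZ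
  · obtain ⟨c, c1, hT⟩ := hT
    obtain ⟨H, _, _, _, ⟨r⟩⟩ := h.h0.st.exists_rep
    refine ⟨c + 1, by linarith, fun a => ?_⟩
    obtain ⟨R, M, hM⟩ := tn_pr a
    obtain ⟨R', C, s, C0, hT⟩ := hT R
    refine ⟨C * M, s, by positivity, fun d hd g L hg hL Z hZ => ?_⟩
    have hu := hM d hd g L hg hL
    have d0 := hd.1
    have hm : d ≤ c * d := le_mul_of_one_le_left d0.le c1
    have hU : X (pr g a) ∈ net.loc {y | |y 0| < d} :=
      gd_mem ⟨hu.1, hu.2.1, fun y hy => (hu.2.2.2 y hy).1⟩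
    have := h.h0.thin_hs r d0 hm hU (fun b hb => by
      have b1 := net.mono hb inter_subset_left
      have := hT d hd _ _ hu b hb
      rw [r.nq (PR.mem hm (d0.le.trans hm) hU b1), r.nq b1, ← mul_pow] at this
      exact le_of_sq_le_sq this (by positivity)) (by positivity) hZ
    have m := PR.mem (m := c * d + d) (by linarith) (by linarith) hU hZ
    rw [← sq_le_sq₀ (norm_nonneg _) (by positivity), mul_pow, ← r.nq m, ← r.nq hZ, map_mul,
      net.τ_τ, ax_add, ← two_mul, ← add_one_mul, ← jn_e0, ← jn_e0] at this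
    refine this.trans_eq ?_
    push_cast
    rw [show C / d ^ s * (L * M) = C * M / d ^ s * L by ring]
    rfl
  · obtain ⟨φ, hφ⟩ := so_rot hR
    have := h.inv_rot (-φ) _ (mon_mem (adm_pr hf a) fun _ => subset_univ _)
    rw [act_mon, rot_symm, neg_neg] at this
    refine .trans (congrArg (fun f => W (mon f)) (funext₂ fun i y => ?_)) this
    exact congrArg₂ (· * ·) (congrArg (f i) ((e _).trans (hφ y).symm)) (congrArg (a i).1
      (ext2 (rot_ne (l := 0) (i := 2) (by decide) (by decide) φ y).symm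
        (rot_ne (l := 0) (i := 3) (by decide) (by decide) φ y).symm))

theorem H0.cont (h : H0 W) (r : net.Rep W 0 H) (x : H) :
    ContinuousOn (fun v => r.T v x) {v | 0 ≤ v 0} := by
  refine continuousOn_of_uniform_approx_of_continuousOn fun u hu => ?_
  obtain ⟨ε, ε0, hε⟩ := Metric.mem_uniformity_dist.1 hu
  obtain ⟨⟨Z, hZ⟩, e⟩ := r.dense.exists_dist_lt x ε0
  refine ⟨fun v => r.T v (r.Ψ Z), fun v hv => ?_, fun v hv => hε ?_⟩
  · have := (cont0 h.st h.lin h.qual r (Net.τ_hs (v := v) (t' := 0) hZ (by simpa using hv))).comp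
      (tendsto_sub_nhds_zero_iff.2 (tendsto_id (x := 𝓝 v)))
    rw [← r.act hv hZ] at this
    refine (this.mono_left nhdsWithin_le_nhds).congr' ?_
    filter_upwards [self_mem_nhdsWithin] with w hw
    simp only [Function.comp_apply, id, net.τ_τ, sub_add_cancel, r.act hw hZ]
  · rw [dist_eq_norm, ← map_sub]
    exact (((r.T v).le_of_opNorm_le (r.nrm hv) _).trans_eq (by rw [one_mul, dist_eq_norm])).trans_lt e

theorem sg_of (h : HH W) (r : net.Rep W 0 H) : W2.Sg (rep2 r).T := by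
  refine ⟨?_, fun v => (rep2 r).nrm, fun v w hv hw => ?_, fun v hv x y => ?_, fun x =>
    (h.h0.cont r x).comp (f := fun v => jn v 0) (by fun_prop) fun _ hv => hv⟩
  · refine DFunLike.coe_injective (r.dense.equalizer (r.T _).continuous continuous_id
      (funext fun X => ?_))
    exact (r.act le_rfl X.2).trans (by rw [jn_zero, net.τ_zero]; rfl)
  · refine .trans ?_ (PA.T_mul r (v := jn v 0) (w := jn w 0) hv hw)
    rw [jn_add, add_zero]
    rfl
  · refine (r.adj h.h0.st hv x y).trans (congrArg (fun v => inner ℂ x (r.T v y)) ?_)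
    rw [show rf 0 (jn v 0) = _ from rf_jn 0 v 0]
    exact ext4 rfl rfl neg_zero neg_zero

theorem cone_of (h : HH W) (r : net.Rep W 0 H) : W2.ConeH (rep2 r).T := by
  intro n hn θ hθ t ht x
  obtain ⟨A, a⟩ := h.h0.cone r hθ.1 hθ.2
  have e : |n 1| = 1 := by
    have := EuclideanSpace.real_norm_sq_eq n
    rw [hn.2, Fin.sum_univ_two, hn.1, ← sq_abs (n 1)] at this
    nlinarith [abs_nonneg (n 1)]
  have m : ∀ s : ℂ, |s.im| < θ * t → |(s * n 1).im| < θ * (t : ℂ).re := fun s hs => by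
    simpa [abs_mul, e] using hs
  refine ⟨fun s => inner ℂ x (A (t, s * n 1) x), (innerSL ℂ x).differentiable.comp_differentiableOn
    ((a.diff.comp (f := fun s : ℂ => ((t : ℂ), s * n 1)) (by fun_prop) m).clm_apply
      (differentiableOn_const x)),
    fun s hs => (norm_inner_le_norm _ _).trans ((sq ‖x‖).symm ▸ mul_le_mul_of_nonneg_left
      (((A _).le_of_opNorm_le (a.nrm _ (m s hs)) x).trans_eq (one_mul _)) (norm_nonneg _)),
    fun s => ?_⟩
  simp only [← Complex.ofReal_mul, a.real t _ ht]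
  exact congrArg (fun v => inner ℂ x (r.T v x))
    (ext4 (by simp [hn.1]) (by simp [W2.e0]) (by simp) (by simp))

end Pool.Agent.Lib.MP_7f377f_mp.Pl
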