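import Pool.Agent.Lib.MP_7f377f_mp.G.XZDef
import Pool.Agent.Lib.MP_7f377f_mp.G.TwS0
import Pool.Agent.Lib.MP_7f377f_mp.G.PlH1
import Pool.Agent.Lib.MP_7f377f_mp.G.PlA

/-! The gap, the periods and the continuity in the representation of the planar net. -/

noncomputable section

namespace Pool.Agent.Lib.MP_7f377f_mp.Pl
variable [Pool.Agent.Lib.MP_7f377f_mp.GD]
set_option linter.unusedSectionVars false

open Filter Topology Set Real YM7 Pur Ro MvPolynomial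
open W2 (R2)
open YM9 (PoL L2 Ms2 pt)

variable {W : Pol →ₗ[ℂ] ℂ} {H H' : Type} [NormedAddCommGroup H] [InnerProductSpace ℂ H]
  [CompleteSpace H] [NormedAddCommGroup H'] [InnerProductSpace ℂ H'] [CompleteSpace H']
  {S : ∀ {k : ℕ}, (Fin k → R4 → ℝ) → ℝ} {m Δ : ℝ}

/-- the translations in the compact directions and the gap -/
structure Cp {H : Type} [NormedAddCommGroup H] [InnerProductSpace ℂ H] (r : net.Rep W 0 H)
    (m Δ : ℝ) : Prop where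
  iso : ∀ v x, ‖r.T (jn 0 v) x‖ = ‖x‖
  mul : ∀ u v x, r.T (jn 0 u) (r.T (jn 0 v) x) = r.T (jn 0 (u + v)) x
  cont : ∀ x, Continuous fun v => r.T (jn 0 v) x
  per : ∀ v : R2, (∀ i, ∃ k : ℤ, v i = m * k) → ∀ x, r.T (jn 0 v) x = x
  gap : ∀ t ≥ 0, ∀ x, inner ℂ (r.Ψ 1) x = 0 →
    ‖r.T (jn (t • W2.e0) 0) x‖ ≤ Real.exp (-Δ * t) * ‖x‖

theorem emb_of (h : ∀ {k} {f : Fin k → R4 → ℝ}, Adm f → W (mon f) = S f)
    (hM : YM9.Ms2 H' m Δ S) (r : net.Rep W 0 H) : ∃ (J : H →ₗᵢ[ℂ] H') (T : R4 → H' →L[ℂ] H'),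
      YM9.Gp2 H' m Δ (J (r.Ψ 1)) T ∧ ∀ v, 0 ≤ v 0 → ∀ x, J (r.T v x) = T v (J x) := by
  obtain ⟨Ψ, T, -, h1, h2⟩ := hM
  let G : Submodule ℂ (Pol × H') := .span ℂ {p | ∃ (k : ℕ) (f : Fin k → R4 → ℝ), Adm f ∧
    (∀ i, tsupport (f i) ⊆ Hs 0 0) ∧ (mon f, Ψ f) = p}
  have a : ∀ p ∈ G, p.1 ∈ net.loc (Hs 0 0) := fun p hp =>
    Submodule.span_le (p := (net.loc (Hs 0 0)).comap (.fst ℂ _ _)).2
      (by rintro _ ⟨k, f, f1, f2, rfl⟩; exact mon_mem f1 f2) hp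
  have b : ∀ p ∈ G, ∀ q ∈ G, inner ℂ p.2 q.2 = inner ℂ (r.Ψ p.1) (r.Ψ q.1) := fun p hp q hq => by
    induction hp, hq using Submodule.span_induction₂ with
    | mem_mem _ _ hp hq =>
      obtain ⟨k, f, f1, f2, rfl⟩ := hp
      obtain ⟨l, g, g1, g2, rfl⟩ := hq
      rw [r.inn (mon_mem f1 f2) (mon_mem g1 g2), Θ_mon, ← mon_append, h (adm_rp f1 g1 f2 g2)]
      exact (h1 k f ⟨f1.adl m, f2⟩).1 l g ⟨g1.adl m, g2⟩
    | zero_left => simp
    | zero_right => simp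
    | add_left _ _ _ _ _ _ e e' => simp [inner_add_left, e, e']
    | add_right _ _ _ _ _ _ e e' => simp [inner_add_right, e, e']
    | smul_left _ _ _ _ _ e => simp [inner_smul_left, e]
    | smul_right _ _ _ _ _ e => simp [inner_smul_right, e]
  have c : ∀ v : R4, 0 ≤ v 0 → ∀ p ∈ G, (net.τ v p.1, T v p.2) ∈ G := fun v hv p hp =>
    Submodule.span_le (p := G.comap ((net.τ v).toLinearMap.prodMap (T v).toLinearMap)).2 (by
      rintro _ ⟨k, f, f1, f2, rfl⟩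
      refine Submodule.subset_span ⟨k, _, adm_sub f1 v, fun i y hy => ?_, Prod.ext (τ_mon v f).symm
        ((h1 k f ⟨f1.adl m, f2⟩).2 v hv).symm⟩
      have := f2 i (tsupport_comp (θ := fun y => y - v) (by fun_prop) hy)
      simp only [Hs, mem_ofPred_eq, PiLp.sub_apply] at this ⊢
      linarith) hp
  let e : G →ₗ[ℂ] H := r.Ψ ∘ₗ .fst ℂ _ _ ∘ₗ G.subtype
  let F : G →ₗ[ℂ] H' := .snd ℂ _ _ ∘ₗ G.subtype
  have n : ∀ p : G, ‖F p‖ = ‖e p‖ := fun p => by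
    rw [norm_eq_sqrt_re_inner (𝕜 := ℂ), norm_eq_sqrt_re_inner (𝕜 := ℂ)]
    exact congrArg (fun z => √(RCLike.re z)) (b _ p.2 _ p.2)
  have d : DenseRange e := r.dense.mono (by
    rintro _ ⟨⟨Z, hZ⟩, rfl⟩
    obtain ⟨p, hp, rfl⟩ : Z ∈ G.map (.fst ℂ _ _) := Submodule.span_le.2 (by
      rintro _ ⟨k, f, f1, f2, rfl⟩
      exact ⟨_, Submodule.subset_span ⟨k, f, f1, f2, rfl⟩, rfl⟩) hZ
    exact ⟨⟨p, hp⟩, rfl⟩)
  have j : ∀ p : G, F.extendOfNorm e (e p) = F p :=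
    LinearMap.extendOfNorm_eq d ⟨1, fun p => by rw [n, one_mul]⟩
  refine ⟨⟨F.extendOfNorm e, fun x => d.induction_on (p := fun x => ‖F.extendOfNorm e x‖ = ‖x‖) x
    (isClosed_eq (by fun_prop) (by fun_prop)) fun p => by rw [j, n]⟩, T, ?_, fun v hv x =>
      d.induction_on (p := fun x => F.extendOfNorm e (r.T v x) = T v (F.extendOfNorm e x)) x
        (isClosed_eq (by fun_prop) (by fun_prop)) fun p => ?_⟩
  · have : F.extendOfNorm e (r.Ψ 1) = Ψ ![] := j ⟨(1, Ψ ![]), Submodule.subset_span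
      ⟨0, _, ⟨fun i => i.elim0, fun i => i.elim0⟩, fun i => i.elim0, rfl⟩⟩
    exact this.symm ▸ h2
  · rw [j, show r.T v (e p) = _ from r.act hv (a _ p.2)]
    exact j ⟨_, c v hv _ p.2⟩

theorem cp_of (hS : net.St W 0) (h : ∀ {k} {f : Fin k → R4 → ℝ}, Adm f → W (mon f) = S f)
    (hM : YM9.Ms2 H' m Δ S) (r : net.Rep W 0 H) : Cp r m Δ := by
  obtain ⟨J, T, ⟨-, -, h1, h2, h3, h4, h5, -⟩, e⟩ := emb_of h hM r
  have p : ∀ v : R2, 0 ≤ jn 0 v 0 := fun _ => le_rfl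
  refine ⟨fun v x => ?_, fun u v x => J.injective ?_, fun x => J.isometry.comp_continuous_iff.1 ?_,
    fun v hv x => J.injective ?_, fun t ht x hx => ?_⟩
  · rw [← J.norm_map, e _ (p v), (T _).norm_map_of_mem_unitary (h3 _ rfl), J.norm_map]
  · rw [e _ (p _), e _ (p _), e _ (p _), ← mul_apply_eq_comp, ← (h1 _ (p u)).2.2 _ (p v), jn_add,
      add_zero]
  · refine ((h2 (J x)).comp_continuous (f := fun v => jn 0 v) ?_ p).congr fun v => (e _ (p v) x).symm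
    unfold jn
    fun_prop
  · choose k hk using hv
    rw [e _ (p v), show jn 0 v = YM9.pt m ![0, 0, k 0, k 1] from
      ext4 (by simp [YM9.pt]) (by simp [YM9.pt]) (hk 0) (hk 1), h4 _ rfl rfl]
    rfl
  · rw [← J.norm_map, ← J.norm_map x, show jn (t • W2.e0) 0 = ax 0 t from
      ext4 (by simp) (by simp [W2.e0]) (by simp) (by simp), e _ (by simpa using ht)]
    exact (h5 t ht).2 _ ((J.inner_map_map _ _).trans hx)

end Pool.Agent.Lib.MP_7f377f_mp.Pl
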