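import Pool.Agent.Lib.MP_7f377f_mp.G.XVAll

/-! Internal symmetries of the reconstructed theory. -/

noncomputable section

namespace Pool.Agent.Lib.MP_7f377f_mp.W2.L

open MeasureTheory Filter Topology Set Complex

variable {V : Type} [AddCommGroup V] [Module ℝ V] [InvolutiveStar V]
  {P : Type} [CommRing P] [Algebra ℂ P] {H : Type} [NormedAddCommGroup H] [InnerProductSpace ℂ H]
  [CompleteSpace H] {N : Net P} {x : V → (R2 → ℝ) → P} {W : P →ₗ[ℂ] ℂ} {r : N.Rep W 0 H}
  {K : Type} [NormedAddCommGroup K] [InnerProductSpace ℂ K] [CompleteSpace K] {j : K →ₗᵢ[ℂ] H}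
  {E : C2 → K →L[ℂ] K} {Ω : K} {ψ : Fm V K} {w : Fm V ℂ} {Φ : Ds V K}
  {U : R2 → Mat → K →L[ℂ] K} {D : Submodule ℂ K} {φ : V × Tf → K → K}

theorem euc_uniq {n : ℕ} {F G : (Fin n → C2) → H} (hF : DifferentiableOn ℂ F (FT n))
    (hG : DifferentiableOn ℂ G (FT n)) (h : ∀ f : Fin n → R2 → ℝ, Adm f → Ord f →
      (∀ i, tsupport (f i) ⊆ Hs 0 0) →
        ∫ y : Fin n → R2, (∏ i, (f i (y i) : ℂ)) • F (fun i => euc (y i)) =
          ∫ y : Fin n → R2, (∏ i, (f i (y i) : ℂ)) • G fun i => euc (y i)) : EqOn F G (FT n) := by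
  have k : ∀ y : Fin n → R2, (fun i => euc (y i)) ∈ FT n →
      F (fun i => euc (y i)) = G fun i => euc (y i) := fun y hy => by
    obtain ⟨r, ⟨s1, s2⟩, r0⟩ := (((B4.sep (φ := fun u => u 0) (by fun_prop)
      (euc_tube.1 (FT.tube hy))).and (eventually_all.2 fun i => (eventually_le_nhds
        (show 0 < y i 0 by simpa [TO] using hy.1 i)).filter_mono nhdsWithin_le_nhds)).and
          self_mem_nhdsWithin).exists
    have s3 : ∀ i, Metric.ball (y i) r ⊆ Hs 0 0 := fun i a ha => by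
      have := (abs_lt.1 ((PiLp.dist_apply_le a (y i) 0).trans_lt ha)).1
      change 0 < a 0
      linarith [s2 i]
    have bl : ∀ x ∈ Metric.ball y r, (fun i => euc (x i)) ∈ FT n := fun x hx =>
      have e := fun i => (dist_le_pi_dist x y i).trans_lt hx
      ⟨fun i => B3.euc_to (s3 i (e i)), mem_tube.1 (B4.tube fun i j o => s1 i j o _ (e i) _ (e j))⟩
    refine pt_eq (G := fun x => F fun i => euc (x i)) (G' := fun x => G fun i => euc (x i)) r0
      (hF.continuousOn.comp (by fun_prop) bl) (hG.continuousOn.comp (by fun_prop) bl) fun f hf => ?_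
    have o : Ord f := fun i j e a ha b hb => s1 i j e a ((hf _).2.2 ha) b ((hf _).2.2 hb)
    exact h f (B4.adm (fun i => ⟨(hf i).1, (hf i).2.1.of_le (by norm_cast)⟩) o) o
      fun i => (hf i).2.2.trans (s3 i)
  have m : (fun i => euc (Phi.et n i)) ∈ FT n := by
    rw [show (fun i => euc (Phi.et n i)) = cxn 0 (Phi.et n) from funext fun i => ie_eq _]
    exact Phi.et_dir
  refine idR (isOpen_FT n) (convex_FT n) hF hG m (fun (y : Fin n → R2) i => euc (y i))
    (fun t y => ?_) (fun y y' => funext fun i => euc_add _ _) euc_span ?_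
  · funext i μ
    by_cases e : μ = 0 <;> simp [euc, e, mul_left_comm]
  · have c : Continuous fun (x : Fin n → R2) i => euc ((Phi.et n + x) i) := by fun_prop
    filter_upwards [c.continuousAt.eventually ((isOpen_FT n).mem_nhds (by simpa using m))] with x hx
    rw [show ((fun i => euc (Phi.et n i)) + fun i => euc (x i)) = fun i => euc ((Phi.et n + x) i) from
      funext fun i => (euc_add _ _).symm]
    exact k _ hx

theorem ext_of {ι : Type} {u : ι → K} (h : ∀ y, (∀ a, inner ℂ y (u a) = 0) → y = 0)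
    {A B : K →L[ℂ] H} (e : ∀ a, A (u a) = B (u a)) : A = B := by
  refine ContinuousLinearMap.ext_on (s := range u) ?_ (by rintro _ ⟨a, rfl⟩; exact e a)
  rw [Submodule.dense_iff_topologicalClosure_eq_top, Submodule.topologicalClosure_eq_top_iff,
    Submodule.eq_bot_iff]
  exact fun y hy => h y fun a => Submodule.inner_left_of_mem_orthogonal
    (Submodule.subset_span (mem_range_self a)) hy

theorem Cyc.ext (h : Cyc Φ) {A B : K →L[ℂ] H} (e : ∀ n a F, A (Φ n a F) = B (Φ n a F)) : A = B :=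
  ext_of (u := fun p : Σ n, (Fin n → V) × (Fin n → Tf) => Φ p.1 p.2.1 (tn p.2.2))
    (fun y hy => h y fun n a f => hy ⟨n, a, f⟩) fun _ => e _ _ _

theorem Core.sym (h : Core x r j E Ω ψ w Φ U D φ) (J : H →L[ℂ] H) (σ : V → V)
    (hJ : ∀ n (a : Fin n → V) (f : Fin n → R2 → ℝ), Adm f → (∀ i, tsupport (f i) ⊆ Hs 0 0) →
      J (r.Ψ (∏ i, x (a i) (f i))) = r.Ψ (∏ i, x (σ (a i)) (f i))) :
    ∃ J' : K →L[ℂ] K, (∀ y, j (J' y) = J (j y)) ∧
      (∀ n a F, J' (Φ n a F) = Φ n (fun i => σ (a i)) F) ∧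
      ∀ b L, Lor L → ∀ y, U b L (J' y) = J' (U b L y) := by
  let I := j.toContinuousLinearMap
  have k : ∀ n a, EqOn (fun z => J (I (ψ n a z))) (fun z => I (ψ n (fun i => σ (a i)) z)) (FT n) :=
    fun n a => euc_uniq ((J ∘L I).differentiable.comp_differentiableOn (h.sys.hol n a))
      (I.differentiable.comp_differentiableOn (h.sys.hol n _)) fun f f1 f2 f3 => by
        have := hJ n a f f1 f3
        rw [h.vec n _ f f1 f2 f3, h.vec n _ f f1 f2 f3] at this
        simp only [← map_smul]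
        exact (((J ∘L I).integral_comp_comm (intg_ψ (h.sys.hol n a) f1 f2 f3)).trans this).trans
          (j.integral_comp_comm _).symm
  have a1 : ∀ y, I.adjoint (I y) = y := fun y => ext_inner_left ℂ fun v => by
    rw [ContinuousLinearMap.adjoint_inner_right]
    exact j.inner_map_map v y
  obtain ⟨J', e⟩ : ∃ J' : K →L[ℂ] K, ∀ y, J' y = I.adjoint (J (I y)) :=
    ⟨I.adjoint ∘L J ∘L I, fun _ => rfl⟩
  have a2 : ∀ n a, ∀ z ∈ FT n, J' (ψ n a z) = ψ n (fun i => σ (a i)) z := fun n a z hz => by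
    rw [e, show J _ = _ from k n a hz, a1]
  have a3 : ∀ n a F, J' (Φ n a F) = Φ n (fun i => σ (a i)) F := fun n a F =>
    tendsto_nhds_unique ((J'.continuous.tendsto _).comp ((h.bv n a).lim Phi.et_dir F))
      (((h.bv n _).lim Phi.et_dir F).congr' (eventually_mem_nhdsWithin.mono fun t ht => by
        simp only [← a2 n a _ (G1.dir_mem Phi.et_dir _ ht), ← map_smul]
        exact J'.integral_comp_comm ((h.sys.toVec.hb n a).integ ht F)))
  refine ⟨J', DFunLike.congr_fun (ext_of (A := I ∘L J') (B := J ∘L I)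
    (u := fun p : Σ n, (Fin n → V) × FT n => ψ p.1 p.2.1 p.2.2)
    (fun y hy => h.sys.total y fun n a z hz => hy ⟨n, a, z, hz⟩) fun p => ?_), a3,
    fun b L hL => DFunLike.congr_fun (h.cyc.ext (A := U b L ∘L J') (B := J' ∘L U b L)
      fun n a F => ?_)⟩
  · exact (congrArg I (a2 _ _ _ p.2.2.2)).trans (k _ _ p.2.2.2).symm
  · obtain ⟨F', hF⟩ := exists_act hL.2.1 b F
    simp only [ContinuousLinearMap.comp_apply, a3, h.poi.cov b L hL n _ F F' hF]

end Pool.Agent.Lib.MP_7f377f_mp.W2.L
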