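import Pool.Agent.Lib.MP_7f377f_mp.G.XZ1
import Pool.Agent.Lib.MP_7f377f_mp.G.CyFr
import Pool.Agent.Lib.MP_7f377f_mp.G.OSC

/-! The two point function does not factorise. -/

noncomputable section

namespace Pool.Agent.Lib.MP_7f377f_mp.Pl
variable [Pool.Agent.Lib.MP_7f377f_mp.GD]
set_option linter.unusedSectionVars false

open Filter Topology Set YM7 Pur Ro MvPolynomial
open W2 (R2)

theorem nt_of {S : ∀ {k : ℕ}, (Fin k → R4 → ℝ) → ℝ} {γ : ℝ} (hγ : γ ≠ 0)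
    (af : ∀ k (f : Fin k → R4 → ℝ), YM7.Adm f →
      Tendsto (fun d : ℝ => Real.log d⁻¹ ^ k * S fun i y => f i (d⁻¹ • y)) (𝓝[>] 0)
        (𝓝 (γ ^ k * YM9.fv f))) :
    ∃ (a b : Lab) (f g : R2 → ℝ), W2.C1 {y | y 0 < 0} f ∧ W2.C1 (W2.Hs 0 0) g ∧
      S ![pr f a, pr g b] ≠ S ![pr f a] * S ![pr g b] := by
  by_contra! H
  let φ : ∀ t : ℝ, ContDiffBump (t • W2.e0) := fun t => ⟨1, 2, one_pos, one_lt_two⟩
  let a : Lab := ⟨φ 0, (φ 0).hasCompactSupport, (φ 0).contDiff⟩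
  have s : ∀ t, W2.C1 {y | |y 0 - t| ≤ 2} (φ t) := fun t =>
    ⟨(φ t).hasCompactSupport, (φ t).contDiff, fun y hy => by
      rw [(φ t).tsupport_eq, mem_closedBall_iff_norm] at hy
      simpa using (PiLp.norm_apply_le _ 0).trans hy⟩
  have g := fun t => gd_pr (s t) a
  have g1 : ∀ t y, pr (φ t) a y ≠ 0 → |y 0 - t| ≤ 2 := fun t y hy => (g t).2.2 (subset_tsupport _ hy)
  have g0 : ∀ t y, 0 ≤ pr (φ t) a y := fun t y => mul_nonneg (φ t).nonneg (φ 0).nonneg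
  have a1 : ∀ t, YM7.Adm ![pr (φ t) a] := fun t =>
    ⟨Fin.forall_fin_one.2 ⟨(g t).1, (g t).2.1⟩, Subsingleton.pairwise⟩
  have a2 : YM7.Adm ![pr (φ (-3)) a, pr (φ 3) a] := by
    have d : Disjoint (tsupport (pr (φ (-3)) a)) (tsupport (pr (φ 3) a)) :=
      disjoint_left.2 fun y h h' => by
        linarith [(abs_le.1 (show |y 0 - -3| ≤ 2 from (g _).2.2 h)).2,
          (abs_le.1 (show |y 0 - 3| ≤ 2 from (g _).2.2 h')).1]
    exact ⟨Fin.forall_fin_two.2 ⟨⟨(g _).1, (g _).2.1⟩, (g _).1, (g _).2.1⟩,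
      pairwise_fin_succ_iff.2 ⟨Fin.forall_fin_one.2 d.symm, Fin.forall_fin_one.2 d,
        Subsingleton.pairwise⟩⟩
  obtain ⟨D, hD⟩ := ((g (-3)).1.isCompact.union (g 3).1.isCompact).isBounded.exists_pos_norm_le
  have p : ∀ t, 0 < ∫ y, pr (φ t) a y := fun t =>
    (g t).2.1.continuous.integral_pos_of_hasCompactSupport_nonneg_nonzero (g t).1 (g0 t)
      (x := jn (t • W2.e0) ((0 : ℝ) • W2.e0)) (by
        rw [pr, show p1 (jn _ _) = t • W2.e0 from ext2 rfl rfl,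
          show p2 (jn _ _) = (0 : ℝ) • W2.e0 from ext2 rfl rfl]
        exact (mul_pos ((φ t).pos_of_mem_ball (Metric.mem_ball_self two_pos))
          ((φ 0).pos_of_mem_ball (Metric.mem_ball_self two_pos))).ne')
  have q := (two_point a2 (Fin.forall_fin_two.2 ⟨g0 _, g0 _⟩) two_pos (D := D + D) fun x y hx hy =>
    ⟨by
      have := (neg_le_abs _).trans (PiLp.norm_apply_le (x - y) 0)
      rw [PiLp.sub_apply] at this
      linarith [(abs_le.1 (g1 _ x hx)).2, (abs_le.1 (g1 _ y hy)).1],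
    (norm_sub_le _ _).trans (add_le_add (hD.2 _ (.inl (subset_tsupport _ hx)))
      (hD.2 _ (.inr (subset_tsupport _ hy))))⟩).1
  have l := (af 1 _ (a1 (-3))).mul (af 1 _ (a1 3))
  rw [YM9.fv_one, mul_zero, zero_mul] at l
  refine (mul_ne_zero (pow_ne_zero 2 hγ) (lt_of_lt_of_le ?_ q).ne')
    (tendsto_nhds_unique (af 2 _ a2) (l.congr' ?_))
  · have := hD.1
    have : (0 : ℝ) < GD.d := Nat.cast_pos.2 (three_pos.trans_le GD.d3)
    rw [Fin.prod_univ_two]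
    exact mul_pos (mul_pos (p _) (p _)) (by positivity)
  filter_upwards [self_mem_nhdsWithin] with d hd
  have d0 : 0 < d⁻¹ := inv_pos.2 hd
  have c : ∀ t, W2.C1 {y | |d⁻¹ * y 0 - t| ≤ 2} fun y => φ t (d⁻¹ • y) := fun t =>
    ⟨(s t).1.comp_homeomorph (.smulOfNeZero _ d0.ne'), (s t).2.1.comp (contDiff_id.const_smul _),
      fun y hy => (s t).2.2 (W2.tsupport_comp (θ := fun y => d⁻¹ • y) (by fun_prop) hy)⟩
  have e : ∀ t, (fun y => pr (φ t) a (d⁻¹ • y)) =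
      pr (fun y => φ t (d⁻¹ • y)) (⟨_, (c 0).1, (c 0).2.1⟩ : Lab) := fun t => funext fun y =>
    congrArg₂ (· * ·) (congrArg (φ t) (ext2 rfl rfl)) (congrArg (φ 0) (ext2 rfl rfl))
  have h := H ⟨_, (c 0).1, (c 0).2.1⟩ ⟨_, (c 0).1, (c 0).2.1⟩ _ _
    ⟨(c (-3)).1, (c _).2.1, fun y hy => neg_of_mul_neg_right (a := d⁻¹)
      (by linarith [(abs_le.1 (mem_ofPred_eq ▸ (c _).2.2 hy :)).2]) d0.le⟩
    ⟨(c 3).1, (c _).2.1, fun y hy => pos_of_mul_pos_right (a := d⁻¹)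
      (by linarith [(abs_le.1 (mem_ofPred_eq ▸ (c _).2.2 hy :)).1]) d0.le⟩
  rw [← e, ← e] at h
  rw [mul_mul_mul_comm, ← pow_add]
  refine congrArg _ (.trans ?_ (h.symm.trans (congrArg S (funext fun i => ?_))))
  · congr 2 <;> funext i <;> fin_cases i <;> rfl
  · fin_cases i <;> rfl

end Pool.Agent.Lib.MP_7f377f_mp.Pl
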