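import Pool.Agent.Lib.MP_7f377f_mp.G.XZ1
import Pool.Agent.Lib.MP_7f377f_mp.G.XZ2
import Pool.Agent.Lib.MP_7f377f_mp.G.XGap
import Pool.Agent.Lib.MP_7f377f_mp.G.XZ4
import Pool.Agent.Lib.MP_7f377f_mp.G.XZ5
import Pool.Agent.Lib.MP_7f377f_mp.G.PlO
import Pool.Agent.Lib.MP_7f377f_mp.WA2

/-! The massive Wightman theory on the plane times a small twisted torus. -/

noncomputable section

namespace Pool.Agent.Lib.MP_7f377f_mp.Pl
variable [Pool.Agent.Lib.MP_7f377f_mp.GD]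
set_option linter.unusedSectionVars false

open MeasureTheory Filter Topology Set YM7 Pur Ro MvPolynomial
open W2 (R2)

variable [MeasurableSpace SU2] [BorelSpace SU2] {S : ∀ {k : ℕ}, (Fin k → R4 → ℝ) → ℝ}
  {W : Pol →ₗ[ℂ] ℂ} {μ : ℕ → Measure YM9.Fd} {a : ℕ → ℝ} {m Δ : ℝ}

theorem rot_of (h : ∀ {k} {f : Fin k → R4 → ℝ}, Adm f → W (mon f) = S f) (hH : HH W) {k : ℕ}
    {f : Fin k → R4 → ℝ} (hf : Adm f) (θ : ℝ) : S (fun i y => f i (rot 0 θ y)) = S f := by
  have := hH.inv_rot (-θ) _ (mon_mem hf fun _ => subset_univ _)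
  rw [act_mon, h (adm_act hf _), h hf, rot_symm, neg_neg] at this
  exact_mod_cast this

section
variable {H : Type} [NormedAddCommGroup H] [InnerProductSpace ℂ H] {r : net.Rep W 0 H}

theorem T_vac (r : net.Rep W 0 H) {v : R4} (hv : 0 ≤ v 0) : r.T v (r.Ψ 1) = r.Ψ 1 := by
  rw [r.act hv (net.one _), map_one]

theorem Cp.vac (g : Cp r m Δ) (hS : net.St W 0) (hΔ : 0 < Δ) (y : H)
    (h : ∀ v : R2, 0 ≤ v 0 → (rep2 r).T v y = y) : ∃ c : ℂ, y = c • r.Ψ 1 := by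
  have h1 : r.T (jn ((1 : ℝ) • W2.e0) 0) y = y := h _ (by simp)
  have := g.gap 1 zero_le_one (y - inner ℂ (r.Ψ 1) y • r.Ψ 1) (by
    simp [inner_sub_right, inner_smul_right, r.one hS])
  rw [map_sub, map_smul, h1, T_vac r (by simp)] at this
  refine ⟨inner ℂ (r.Ψ 1) y, sub_eq_zero.1 (norm_le_zero_iff.1 (not_lt.1 fun c => ?_))⟩
  nlinarith [Real.exp_lt_one_iff.2 (show -Δ * 1 < 0 by linarith)]

end

open scoped Classical in
/-- the label of a profile -/
def lab (c : ℝ) (h : R2 → ℝ) : Lab := if e : h ∈ Lab then c • ⟨h, e⟩ else 0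

theorem lab_eq (c : ℝ) {h : R2 → ℝ} (e : h ∈ Lab) : lab c h = c • ⟨h, e⟩ := dif_pos e

theorem lab_comb (c t : ℝ) {a b : R2 → ℝ} (ha : a ∈ Lab) (hb : b ∈ Lab) :
    lab c (t • a + b) = t • lab c a + lab c b := by
  rw [lab_eq c ha, lab_eq c hb, lab_eq c (Lab.add_mem (Lab.smul_mem t ha) hb), smul_comm,
    ← smul_add]
  rfl

theorem lab_sf (c : ℝ) (v : R2) {a : R2 → ℝ} (ha : a ∈ Lab) :
    (lab c fun u => a (u - v)) = sf v (lab c a) := by
  rw [lab_eq c ha]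
  exact lab_eq c (sf v ⟨a, ha⟩).2

theorem tube_eq (n : ℕ) : WA2.Tube n = W2.Tube n := Set.ext fun z =>
  ⟨fun h i j e => h i j e _ fun _ => rfl, fun h i j e _ hy =>
    (show W2.imv (z j - z i) = _ from PiLp.ext fun μ => (hy μ).symm) ▸ h i j e⟩

theorem wightman_of (Δ0 : 0 < Δ) (hO : YM9.Out2S μ a m Δ S)
    (h : ∀ {k} {f : Fin k → R4 → ℝ}, Adm f → W (mon f) = S f) (hH : HH W) (hT : Thin1 W)
    (h1 : net.St W 1) {c : ℝ} (c0 : c ≠ 0) :
    WA2.Wightman m Δ fun _ h f => S fun i => c • pr (f i) (h i) := by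
  obtain ⟨-, -, af, H', _, _, _, hM⟩ := hO
  have hS := hH.h0.st
  obtain ⟨H, _, _, _, ⟨r⟩⟩ := hS.exists_rep
  have cp := cp_of hS h hM r
  have hF := fld_of hH hT h1
  obtain ⟨K, _, _, _, j, E, Ω, ψ, w, Φ, U, D, φ, C⟩ :=
    W2.L.core_of hF (rep2 r) (sg_of hH r) (cone_of hH r) (cp.vac hS Δ0)
  have p : ∀ v : R2, 0 ≤ jn 0 v 0 := fun _ => le_rfl
  choose V v1 v2 v3 using fun v => C.sym (r.T (jn 0 v)) (sf v) fun n a f f1 f2 => by
    refine (r.act (p v) (hF.mem (O := W2.Hs 0 0) a f1 f2)).trans (congrArg r.Ψ ?_)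
    refine (τ_mon _ fun i => pr (f i) (a i)).trans (congrArg mon (funext₂ fun i y => ?_))
    simp only [pr, p1_sub, p2_sub, sub_zero, sf]
  have o : j Ω = r.Ψ 1 := C.vac
  have fo : ∀ {n} (a : Fin n → R2 → ℝ) (f : Fin n → W2.Tf), (List.ofFn fun i => (a i, f i)).foldr
      (fun p => φ (lab c p.1, p.2)) Ω = Φ n (fun i => lab c (a i)) (W2.tn f) := fun a f => by
    rw [← C.wf.fold, ← List.foldr_map (g := φ), List.map_ofFn]
    rfl
  refine ⟨K, _, _, ‹_›, U, V, Ω, D, fun p => φ (lab c p.1, p.2), ⟨fun b L hL =>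
    ⟨(C.poi.rep b L hL).1, (C.poi.rep b L hL).2.1, C.poi.vac b L hL, fun b' M y hM =>
      DFunLike.congr_fun ((C.poi.rep b L hL).2.2 b' M hM) y, fun v => v3 v b L hL⟩,
    fun v => ⟨fun y => by rw [← j.norm_map, v1, cp.iso, j.norm_map],
      j.injective (by rw [v1, o, T_vac r (p v)]), fun u y => j.injective (by rw [v1, v1, v1, cp.mul]),
      fun e => ContinuousLinearMap.ext fun y => j.injective (by rw [v1, cp.per v e]; rfl)⟩,
    fun y => ⟨C.poi.cont y, j.isometry.isEmbedding.continuous_iff.2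
      ((cp.cont (j y)).congr fun v => (v1 v y).symm), C.poi.gap C.sys.tub C.sys.spec Δ0
        (fun y hy t ht => ?_) y⟩, C.sys.unit, ?_⟩, ⟨C.wf.vac, ?_, fun y hy a f ha =>
    ⟨C.wf.mem y hy _ _, C.wf.linf y hy (lab c a) f, fun t b hb => ?_, fun z hz =>
      ⟨C.wf.linx y hy (lab c a) f z hz, C.wf.cont y hy (lab c a) z hz,
        C.wf.herm y hy (lab c a) f z hz⟩, fun b L hL => ⟨(C.wf.cov y hy b L hL).1,
      (C.wf.cov y hy b L hL).2 (lab c a) f⟩, fun v => ?_,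
      fun b f' _ => C.wf.loc y hy (lab c a) f (lab c b) f'⟩⟩, fun n a ha => ⟨w n fun i => lab c (a i),
    tube_eq n ▸ C.sys.whol n _, fun f f1 f2 => ?_, fun f G hG => fo a f ▸ C.bdry n _ f G hG⟩⟩
  · rw [← j.norm_map, W2.ie, C.tr _ (by simpa), ← j.norm_map y]
    exact cp.gap t ht _ (by rw [← o, j.inner_map_map, hy])
  · by_contra! e
    have e1 : ∀ y, y = inner ℂ Ω y • Ω := fun y => sub_eq_zero.1 (not_not.1 fun c => e _ c (by
      simp [inner_sub_right, inner_smul_right, C.sys.unit]))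
    have e2 : ∀ a {f}, W2.C1 (W2.Hs 0 0) f → r.Ψ (xf a f) = W (xf a f) • r.Ψ 1 := fun a f hf => by
      have := C.vec 1 (fun _ => a) (fun _ => f) ⟨fun _ => ⟨hf.1, hf.2.1⟩, Subsingleton.pairwise⟩
        (fun i j e => absurd (Subsingleton.elim i j) e.ne) fun _ => hf.2.2
      rw [Fin.prod_univ_one, e1 (∫ _, _), map_smul, o] at this
      replace this : r.Ψ (xf a f) = _ := this
      have v : inner ℂ (r.Ψ 1) (r.Ψ (xf a f)) = W (xf a f) := (rep2 r).vac (hF.one a hf)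
      rw [← v, this]
      simp [inner_smul_right, r.one hS]
    obtain ⟨a, b, f, f', f1, f2, e3⟩ := nt_of (div_pos (by norm_num)
      (mul_pos (by norm_num) GD.b0_pos)).ne' af
    have a1 : W2.Adm ![f, f'] := W2.B4.adm (Fin.forall_fin_two.2 ⟨⟨f1.1, f1.2.1⟩, f2.1, f2.2.1⟩)
      fun i j e x hx y hy => by
        obtain ⟨rfl, rfl⟩ := (by decide : ∀ i j : Fin 2, i < j → i = 0 ∧ j = 1) i j e
        exact (f1.2.2 hx).trans (f2.2.2 hy)
    have a2 : W2.C1 (W2.Hs 0 0) fun y => f (W2.rf 0 y) :=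
      ⟨((W2.adm_rf a1 0).1 0).1, ((W2.adm_rf a1 0).1 0).2, fun y hy => by
        simpa [W2.Hs] using f1.2.2 (W2.tsupport_comp (W2.rfL_eq 0 ▸ (W2.rfL 0).continuous) hy)⟩
    have a3 : net.Θ 0 (xf a fun y => f (W2.rf 0 y)) = xf a f := by
      have := hF.refl a fun y => f (W2.rf 0 y)
      simp only [W2.rf_rf] at this
      exact this
    have a4 : inner ℂ (r.Ψ _) (r.Ψ _) = W (net.Θ 0 _ * _) :=
      (rep2 r).inn (hF.one a a2) (hF.one b f2)
    have hh : starRingEnd ℂ (W (xf a fun y => f (W2.rf 0 y))) = W (net.Θ 0 (xf a _)) :=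
      (hS.herm (gd_mem (gd_pr (W2.L.c1_univ a2) a))).symm
    rw [e2 a a2, e2 b f2, inner_smul_left, inner_smul_right, hh, a3,
      r.vac (net.one _), hS.one, mul_one] at a4
    have a5 : ∀ a {O f}, W2.C1 O f → W (xf a f) = S ![pr f a] := fun a _ f hf => by
      have := h (adm_pr (f := fun _ : Fin 1 => f) ⟨fun _ => ⟨hf.1, hf.2.1⟩, Subsingleton.pairwise⟩
        fun _ => a)
      rwa [mon, Fin.prod_univ_one, show (fun _ => pr f a) = ![pr f a] from
        funext (Fin.forall_fin_one.2 rfl)] at this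
    have a6 := h (adm_pr a1 ![a, b])
    rw [mon, Fin.prod_univ_two, show (fun i => pr (![f, f'] i) (![a, b] i)) = ![pr f a, pr f' b]
      from funext (Fin.forall_fin_two.2 ⟨rfl, rfl⟩)] at a6
    rw [a5 a f1, a5 b f2] at a4
    exact e3 (by exact_mod_cast a6.symm.trans a4.symm)
  · rw [Submodule.dense_iff_topologicalClosure_eq_top, Submodule.topologicalClosure_eq_top_iff,
      Submodule.eq_bot_iff]
    refine fun y hy => C.cyc y fun n a f => Submodule.inner_left_of_mem_orthogonal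
      (Submodule.subset_span ?_) hy
    refine ⟨List.ofFn fun i => ((c⁻¹ • a i : Lab), f i),
      List.forall_mem_ofFn_iff.2 fun i => (c⁻¹ • a i).2, (fo _ f).trans ?_⟩
    simp only [lab_eq c (c⁻¹ • a _).2, Subtype.coe_eta, smul_inv_smul₀ c0]
  · exact (congrArg (fun l => φ (l, f) y) (lab_comb c t ha hb)).trans (C.wf.linc y hy ..)
  · exact (C.wf.sym _ _ (v2 v) y hy).imp_right fun e => (e _ f).trans
      (congrArg (fun l => φ (l, f) _) (lab_sf c v ha).symm)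
  · refine .trans ?_ ((h (adm_pr (W2.B4.adm f1 f2) fun i => lab c (a i))).symm.trans
      (C.link n _ f (W2.B4.adm f1 f2) f2))
    refine congrArg _ (congrArg S (funext₂ fun i y => ?_))
    simp only [lab_eq c (ha i), pr, Submodule.coe_smul, Pi.smul_apply, smul_eq_mul, mul_left_comm]

end Pool.Agent.Lib.MP_7f377f_mp.Pl
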