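import Pool.Agent.Lib.MP_7f377f_mp.G.XZ1
import Pool.Agent.Lib.MP_7f377f_mp.G.LgNG
import Pool.Agent.Lib.MP_7f377f_mp.G.CyFr
import Pool.Agent.Lib.MP_7f377f_mp.WA2

/-! The four point function of product test functions breaks the Wick rule. -/

noncomputable section

namespace Pool.Agent.Lib.MP_7f377f_mp.Pl
variable [Pool.Agent.Lib.MP_7f377f_mp.GD]
set_option linter.unusedSectionVars false

open MeasureTheory Filter Topology Set YM7 Lg.NG
open W2 (R2)

theorem conc' {k : ℕ} (p : Fin k → R4) {g : ℕ → Fin k → R4 → ℝ} {ρ : ℕ → ℝ}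
    (h0 : Tendsto ρ atTop (𝓝 0)) (gi : ∀ n i, Integrable (g n i)) (g0 : ∀ n i y, 0 ≤ g n i y)
    (g1 : ∀ n i, ∫ y, g n i y = 1) (gs : ∀ n i y, g n i y ≠ 0 → dist y (p i) ≤ ρ n)
    {F : (Fin k → R4) → ℝ} (hm : Measurable F) (hc : ContinuousAt F p) :
    Tendsto (fun n => ∫ y : Fin k → R4, (∏ i, g n i (y i)) * F y) atTop (𝓝 (F p)) := by
  refine Metric.tendsto_nhds.2 fun η η0 => ?_
  obtain ⟨δ, δ0, hδ⟩ := Metric.continuousAt_iff.1 hc (η / 2) (half_pos η0)
  filter_upwards [h0.eventually_lt_const δ0] with n hn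
  have gi : Integrable fun y : Fin k → R4 => ∏ i, g n i (y i) := Integrable.fintype_prod (gi n)
  have g1 : ∫ y : Fin k → R4, ∏ i, g n i (y i) = 1 := by
    rw [integral_fintype_prod_volume_eq_prod]
    exact Finset.prod_eq_one fun i _ => g1 n i
  have b : ∀ y : Fin k → R4, ‖(∏ i, g n i (y i)) * (F y - F p)‖ ≤ (∏ i, g n i (y i)) * (η / 2) := by
    intro y
    have g0 : 0 ≤ ∏ i, g n i (y i) := Finset.prod_nonneg fun i _ => g0 _ _ _
    by_cases c : ∏ i, g n i (y i) = 0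
    · simp [c]
    rw [norm_mul, Real.norm_of_nonneg g0]
    exact mul_le_mul_of_nonneg_left (hδ ((dist_pi_lt_iff δ0).2 fun i =>
      (gs n i _ (Finset.prod_ne_zero_iff.1 c i (Finset.mem_univ i))).trans_lt hn)).le g0
  have hi : Integrable fun y : Fin k → R4 => (∏ i, g n i (y i)) * (F y - F p) :=
    (gi.mul_const _).mono' (gi.1.mul (hm.sub_const _).aestronglyMeasurable) (.of_forall b)
  have e : ∫ y : Fin k → R4, (∏ i, g n i (y i)) * F y =
      (∫ y : Fin k → R4, (∏ i, g n i (y i)) * (F y - F p)) + F p := by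
    have e1 : ∫ y : Fin k → R4, (∏ i, g n i (y i)) * F p = F p := by
      rw [integral_mul_const, g1, one_mul]
    rw [← sub_eq_iff_eq_add', ← sub_eq_zero, sub_sub]
    nth_rewrite 2 [← e1]
    rw [← integral_add hi (gi.mul_const _)]
    simp only [← mul_add, sub_add_cancel, sub_self]
  have := norm_integral_le_of_norm_le (gi.mul_const _) (.of_forall b)
  rw [integral_mul_const, g1, one_mul] at this
  rw [e, dist_eq_norm, add_sub_cancel_right]
  linarith

theorem exists_pr (t : ℝ) {ρ : ℝ} (h : 0 < ρ) : ∃ (f : R2 → ℝ) (a : Lab),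
    W2.C1 {y | |y 0 - t| ≤ ρ} f ∧ (∀ y, 0 ≤ pr f a y) ∧ ∫ y, pr f a y = 1 ∧
      ∀ y, pr f a y ≠ 0 → dist y (EuclideanSpace.single 0 t) ≤ 2 * ρ := by
  let φ : ∀ t : ℝ, ContDiffBump (t • W2.e0) := fun t => ⟨ρ / 2, ρ, half_pos h, half_lt_self h⟩
  let a : Lab := ⟨φ 0, (φ 0).hasCompactSupport, (φ 0).contDiff⟩
  have s : W2.C1 {y | |y 0 - t| ≤ ρ} (φ t) :=
    ⟨(φ t).hasCompactSupport, (φ t).contDiff, fun y hy => by
      rw [(φ t).tsupport_eq, mem_closedBall_iff_norm] at hy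
      simpa using (PiLp.norm_apply_le _ 0).trans hy⟩
  have g := gd_pr s a
  have g0 : ∀ y, 0 ≤ pr (φ t) a y := fun y => mul_nonneg (φ t).nonneg (φ 0).nonneg
  have p : 0 < ∫ y, pr (φ t) a y :=
    g.2.1.continuous.integral_pos_of_hasCompactSupport_nonneg_nonzero g.1 g0
      (x := jn (t • W2.e0) ((0 : ℝ) • W2.e0)) (by
        rw [pr, show p1 (jn _ _) = t • W2.e0 from ext2 rfl rfl,
          show p2 (jn _ _) = (0 : ℝ) • W2.e0 from ext2 rfl rfl]
        exact (mul_pos ((φ t).pos_of_mem_ball (Metric.mem_ball_self h))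
          ((φ 0).pos_of_mem_ball (Metric.mem_ball_self h))).ne')
  refine ⟨φ t, (∫ y, pr (φ t) a y)⁻¹ • a, s, fun y => mul_nonneg (φ t).nonneg
    (mul_nonneg (inv_pos.2 p).le (φ 0).nonneg), ?_, fun y hy => ?_⟩
  · refine .trans (congrArg _ (funext fun y => mul_left_comm ..)) ?_
    rw [integral_const_mul]
    exact inv_mul_cancel₀ p.ne'
  · have h1 : p1 y ∈ Function.support (φ t) := left_ne_zero_of_mul hy
    have h2 : p2 y ∈ Function.support (φ 0) := right_ne_zero_of_mul (right_ne_zero_of_mul hy)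
    rw [ContDiffBump.support_eq, mem_ball_iff_norm] at h1 h2
    have e := norm_sq_p (y - EuclideanSpace.single 0 t)
    rw [show p1 _ = p1 y - t • W2.e0 from ext2 (by simp) (by simp [W2.e0]),
      show p2 _ = p2 y - (0 : ℝ) • W2.e0 from ext2 (by simp) (by simp)] at e
    rw [dist_eq_norm]
    refine le_of_sq_le_sq ?_ (by positivity)
    nlinarith [norm_nonneg (p1 y - t • W2.e0), norm_nonneg (p2 y - (0 : ℝ) • W2.e0),
      show ‖p1 y - t • W2.e0‖ < ρ from h1, show ‖p2 y - (0 : ℝ) • W2.e0‖ < ρ from h2]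

theorem fv_eq {k : ℕ} (f : Fin k → R4 → ℝ) : YM9.fv f = iv f := rfl

theorem ng_of {S : ∀ {k : ℕ}, (Fin k → R4 → ℝ) → ℝ} {γ : ℝ} (hγ : γ ≠ 0)
    (af : ∀ k (f : Fin k → R4 → ℝ), YM7.Adm f →
      Tendsto (fun d : ℝ => Real.log d⁻¹ ^ k * S fun i y => f i (d⁻¹ • y)) (𝓝[>] 0)
        (𝓝 (γ ^ k * YM9.fv f))) :
    ∃ h f : Fin 4 → R2 → ℝ, (∀ i, WA2.Cc (h i) ∧ WA2.Cc (f i)) ∧
      (∀ i j, i < j → ∀ x ∈ tsupport (f i), ∀ y ∈ tsupport (f j), x 0 < y 0) ∧
      ∀ P : Fin 4 → R4 → ℝ, (P = fun i => pr (f i) (h i)) → S P ≠ S ![P 0, P 1] * S ![P 2, P 3] +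
        S ![P 0, P 2] * S ![P 1, P 3] + S ![P 0, P 3] * S ![P 1, P 2] := by
  by_contra! H
  simp only [fv_eq] at af
  have h0 : Tendsto (fun n : ℕ => ((n : ℝ) + 3)⁻¹) atTop (𝓝 0) :=
    (tendsto_atTop_add_const_right _ _ tendsto_natCast_atTop_atTop).inv_tendsto_atTop
  choose f a f1 f2 f3 f4 using fun (n : ℕ) (i : Fin 4) =>
    exists_pr (i : ℕ) (show 0 < ((n : ℝ) + 3)⁻¹ by positivity)
  have o : ∀ n i j, i < j → ∀ x ∈ tsupport (f n i), ∀ y ∈ tsupport (f n j), x 0 < y 0 :=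
    fun n i j o x hx y hy => by
      have r : ((n : ℝ) + 3)⁻¹ ≤ 3⁻¹ := inv_anti₀ (by norm_num) (by linarith [n.cast_nonneg (α := ℝ)])
      have o1 : ((i : ℕ) : ℝ) + 1 ≤ (j : ℕ) := by exact_mod_cast o
      linarith [(abs_le.1 (show |x 0 - _| ≤ _ from (f1 n i).2.2 hx)).2,
        (abs_le.1 (show |y 0 - _| ≤ _ from (f1 n j).2.2 hy)).1]
  have ad := fun n => (adm_pr (W2.B4.adm (fun i => ⟨(f1 n i).1, (f1 n i).2.1⟩) (o n)) (a n)).old
  have e2 : ∀ {α : Type} (P : Fin 4 → α) i j, (fun l => P (![i, j] l)) = ![P i, P j] :=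
    fun P i j => funext (Fin.forall_fin_two.2 ⟨rfl, rfl⟩)
  have cn : ∀ {l} (e : Fin l → Fin 4), e.Injective →
      Tendsto (fun n => iv fun i => pr (f n (e i)) (a n (e i))) atTop
        (𝓝 (free fun i => pt (e i))) := fun e he =>
    conc' (g := fun n i => pr (f n (e i)) (a n (e i))) (fun i => pt (e i))
      (mul_zero (2 : ℝ) ▸ h0.const_mul 2) (fun n i => ((ad n).1 (e i)).2.continuous
        |>.integrable_of_hasCompactSupport ((ad n).1 (e i)).1) (fun n i => f2 n (e i))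
      (fun n i => f3 n (e i)) (fun n i => f4 n (e i)) free_meas (free_cont (pt_inj.comp he))
  have c2 := fun i j (c : i < j) => cn ![i, j] (by revert i j; decide)
  refine free_ne (tendsto_nhds_unique (cn (fun i => i) Function.injective_id) ?_)
  have := (((c2 0 1 (by decide)).mul (c2 2 3 (by decide))).add
      ((c2 0 2 (by decide)).mul (c2 1 3 (by decide)))).add
      ((c2 0 3 (by decide)).mul (c2 1 2 (by decide)))
  simp only [e2 pt] at this
  refine this.congr fun n => ?_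
  have a2 := fun i j (c : i < j) => af 2 (fun l => pr (f n (![i, j] l)) (a n (![i, j] l)))
    ⟨fun _ => (ad n).1 _, fun _ _ e => (ad n).2
      ((show Function.Injective ![i, j] by revert i j; decide).ne e)⟩
  have u := tendsto_nhds_unique (af 4 _ (ad n)) (((((a2 0 1 (by decide)).mul
    (a2 2 3 (by decide))).add ((a2 0 2 (by decide)).mul (a2 1 3 (by decide)))).add
      ((a2 0 3 (by decide)).mul (a2 1 2 (by decide)))).congr' ?_)
  · exact mul_left_cancel₀ (pow_ne_zero 4 hγ) (by linear_combination -u)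
  filter_upwards [self_mem_nhdsWithin] with d hd
  have d0 : 0 < d⁻¹ := inv_pos.2 hd
  have c : ∀ g, WA2.Cc g → WA2.Cc fun y => g (d⁻¹ • y) := fun g e =>
    ⟨e.1.comp_homeomorph (.smulOfNeZero _ d0.ne'), e.2.comp (contDiff_id.const_smul _)⟩
  obtain ⟨P, e, h⟩ := H (fun i y => (a n i).1 (d⁻¹ • y)) (fun i y => f n i (d⁻¹ • y))
    (fun i => ⟨c _ (a n i).2, c _ ⟨(f1 n i).1, (f1 n i).2.1⟩⟩) fun i j l x hx y hy =>
      lt_of_mul_lt_mul_left (o n i j l _ (W2.tsupport_comp (θ := fun y => d⁻¹ • y) (by fun_prop) hx)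
        _ (W2.tsupport_comp (θ := fun y => d⁻¹ • y) (by fun_prop) hy)) d0.le
  obtain rfl : P = fun i y => pr (f n i) (a n i) (d⁻¹ • y) := e.trans (funext₂ fun i y =>
    congrArg₂ (· * ·) (congrArg (f n i) (ext2 rfl rfl)) (congrArg (a n i).1 (ext2 rfl rfl)))
  simp only [← e2 fun i y => pr (f n i) (a n i) (d⁻¹ • y)] at h
  rw [h]
  ring

end Pool.Agent.Lib.MP_7f377f_mp.Pl
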