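import Pool.Agent.Lib.MP_7f377f_mp.G.XVAll
import Pool.Agent.Lib.MP_7f377f_mp.G.PlC
import Pool.Agent.Lib.MP_7f377f_mp.G.PlDef

/-! The planar net as a two dimensional net; the labels are the profiles in the compact directions. -/

noncomputable section

namespace Pool.Agent.Lib.MP_7f377f_mp.Pl
variable [Pool.Agent.Lib.MP_7f377f_mp.GD]
set_option linter.unusedSectionVars false

open Filter Topology Set YM7 Pur Ro MvPolynomial
open W2 (R2)

/-- the point with the planar part `u` and the compact part `v` -/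
def jn (u v : R2) : R4 := WithLp.toLp 2 ![u 0, u 1, v 0, v 1]

/-- the planar part -/
def p1 (y : R4) : R2 := WithLp.toLp 2 ![y 0, y 1]

/-- the compact part -/
def p2 (y : R4) : R2 := WithLp.toLp 2 ![y 2, y 3]

@[simp] theorem jn0 (u v : R2) : jn u v 0 = u 0 := rfl
@[simp] theorem jn1 (u v : R2) : jn u v 1 = u 1 := rfl
@[simp] theorem jn2 (u v : R2) : jn u v 2 = v 0 := rfl
@[simp] theorem jn3 (u v : R2) : jn u v 3 = v 1 := rfl
@[simp] theorem p10 (y : R4) : p1 y 0 = y 0 := rfl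
@[simp] theorem p11 (y : R4) : p1 y 1 = y 1 := rfl
@[simp] theorem p20 (y : R4) : p2 y 0 = y 2 := rfl
@[simp] theorem p21 (y : R4) : p2 y 1 = y 3 := rfl

theorem ext2 {u v : R2} (h0 : u 0 = v 0) (h1 : u 1 = v 1) : u = v := by
  ext i
  fin_cases i <;> assumption

theorem ext4 {u v : R4} (h0 : u 0 = v 0) (h1 : u 1 = v 1) (h2 : u 2 = v 2) (h3 : u 3 = v 3) :
    u = v := by
  ext i
  fin_cases i <;> assumption

theorem jn_add (u v u' v' : R2) : jn u v + jn u' v' = jn (u + u') (v + v') := ext4 rfl rfl rfl rfl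

theorem jn_zero : jn 0 0 = 0 := ext4 rfl rfl rfl rfl

theorem p1_sub (y : R4) (u v : R2) : p1 (y - jn u v) = p1 y - u := ext2 rfl rfl

theorem p2_sub (y : R4) (u v : R2) : p2 (y - jn u v) = p2 y - v := ext2 rfl rfl

@[fun_prop] theorem continuous_p1 : Continuous p1 := by unfold p1; fun_prop

@[fun_prop] theorem continuous_p2 : Continuous p2 := by unfold p2; fun_prop

/-- the directions of the plane -/
def dr (μ : Fin 2) : Fin 4 := μ.castLE (by norm_num)

instance (μ : Fin 2) : Pd (dr μ) := by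
  fin_cases μ
  · exact inferInstanceAs (Pd 0)
  · exact inferInstanceAs (Pd 1)

theorem p1_dr (y : R4) (μ : Fin 2) : p1 y μ = y (dr μ) := by fin_cases μ <;> rfl

theorem p1_rf (μ : Fin 2) (y : R4) : p1 (rf (dr μ) y) = W2.rf μ (p1 y) := by
  fin_cases μ <;> refine ext2 ?_ ?_ <;> simp [dr, rf, W2.rf]

theorem rf_jn (μ : Fin 2) (u v : R2) : rf (dr μ) (jn u v) = jn (W2.rf μ u) v := by
  fin_cases μ <;> refine ext4 ?_ ?_ ?_ ?_ <;> simp [dr, rf, W2.rf]

theorem pre_hs (μ : Fin 2) (t : ℝ) : p1 ⁻¹' W2.Hs μ t = Hs (dr μ) t := by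
  ext y
  simp only [mem_preimage, W2.Hs, Hs, mem_ofPred_eq, p1_dr]

theorem dj_pre {O O' : Set R2} (h : Disjoint O O') : Dj (p1 ⁻¹' O) (p1 ⁻¹' O') :=
  fun x hx y hy e => disjoint_left.1 h hx
    (show p1 x ∈ O' from (ext2 (pl_eq e 0) (pl_eq e 1) : p1 x = p1 y) ▸ hy)

/-- the two dimensional net -/
def net2 : W2.Net Pol where
  τ v := net.τ (jn v 0)
  Θ μ := net.Θ (dr μ)
  loc O := net.loc (p1 ⁻¹' O)
  τ_zero Z := by rw [jn_zero, net.τ_zero]
  τ_τ u v Z := by rw [net.τ_τ, jn_add, add_zero]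
  Θ_smul μ := net.Θ_smul _
  Θ_Θ μ := net.Θ_Θ _
  Θ_comm μ ν := net_comm _ _
  Θ_τ μ v Z := by rw [net.Θ_τ, rf_jn]
  mono h e := net.mono h (preimage_mono e)
  one O := net.one _
  mul h h' e := net.mulD h h' (dj_pre e)
  τ_mem v h := net.mono (net.τ_mem _ h) fun y hy => by
    simpa only [mem_preimage, mem_ofPred_eq, p1_sub] using hy
  Θ_mem μ h := net.mono (net.Θ_mem _ h) fun y hy => by
    simpa only [mem_preimage, mem_ofPred_eq, p1_rf] using hy
  bdd h := (net.bdd h).imp fun R e => net.mono e fun y hy =>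
    ⟨hy.1, fun l => p1_dr y l ▸ hy.2 _⟩

theorem loc2 (μ : Fin 2) (t : ℝ) : net2.loc (W2.Hs μ t) = net.loc (Hs (dr μ) t) :=
  congrArg net.loc (pre_hs μ t)

/-- its representation -/
def rep2 {W : Pol →ₗ[ℂ] ℂ} {H : Type} [NormedAddCommGroup H] [InnerProductSpace ℂ H]
    (r : net.Rep W 0 H) : net2.Rep W 0 H where
  Ψ := r.Ψ
  T v := r.T (jn v 0)
  inn := r.inn
  dense := r.dense
  nrm h := r.nrm h
  act h h' := r.act h h'

/-- the profiles -/
def Lab : Submodule ℝ (R2 → ℝ) where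
  carrier := {h | HasCompactSupport h ∧ ContDiff ℝ 1 h}
  add_mem' a b := ⟨a.1.add b.1, a.2.add b.2⟩
  zero_mem' := ⟨HasCompactSupport.zero, contDiff_const⟩
  smul_mem' t _ a := ⟨a.1.smul_left, a.2.const_smul t⟩

instance : InvolutiveStar Lab where
  star := id
  star_involutive _ := rfl

/-- product test functions -/
def pr (g h : R2 → ℝ) (y : R4) : ℝ := g (p1 y) * h (p2 y)

/-- the fields -/
def xf (c : Lab) (g : R2 → ℝ) : Pol := X (pr g c)

/-- translated profiles -/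
def sf (v : R2) (c : Lab) : Lab := ⟨fun u => c.1 (u - v),
  c.2.1.comp_homeomorph (Homeomorph.subRight v), c.2.2.comp (contDiff_id.sub contDiff_const)⟩

end Pool.Agent.Lib.MP_7f377f_mp.Pl
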