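import Pool.Agent.Lib.MP_7f377f_mp.G.YCMain

/-! One sequence of bare couplings for all cylinders. -/

noncomputable section

namespace Pool.Agent.Lib.MP_7f377f_mp.YC

open MeasureTheory Filter Topology Real

theorem out_all [GD] {N : ℕ} (ρ : GD.G →* Matrix.unitaryGroup (Fin N) ℂ) (hn : GD.n = N + N)
    (ht : ∀ a, (GD.rho a).trace = 2 * (ρ a).1.trace.re) [MeasurableSpace GD.G] (h : Measure GD.G)
    [IsProbabilityMeasure h] [BorelSpace GD.G] [h.IsHaarMeasure] {c : ℝ} (hc : c = 2 * (GD.b0 * GD.t ^ 2)) :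
    ∃ (l : ℕ → ℕ) (b : ℕ → ℝ), Tendsto l atTop atTop ∧
      Tendsto (fun j => b j / log (l j)) atTop (𝓝 (11 * c / (24 * π ^ 2))) ∧ ∀ m : ℕ, Odd m →
      Out (fun j T => wilson ρ h (b j) ![T, m * l j, m * l j, m * l j])
        (fun j μ _ f => corr ρ μ (l j : ℝ)⁻¹ f) (24 / (11 * c)) GD.d m := by
  obtain ⟨l, n, _, a, b, τ, h0, h1, h2, h3, h4⟩ := RG.Q4.En.out_same h
  obtain ⟨p, hp, H⟩ := YM9.cylinders (h := h) (M := fun s => 2 * s + 1) (n := fun s => n (2 * s + 1))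
    ⟨h1, h2⟩ fun s => let ⟨C, e, e'⟩ := h4 _ (odd_two_mul_add_one s)
      ⟨s.succ_pos.trans_le (by omega), C, .of_forall fun J => (e J).2, e'⟩
  have := GD.b0_pos
  have := GD.t_pos
  have a1 := tendsto_inv_nhdsGT_zero.comp (h1.comp hp)
  have a2 := (h3.comp hp).const_mul (4 * GD.t ^ 2)
  simp only [Function.comp_def, h0, inv_inv, ← mul_div_assoc] at a1 a2
  refine ⟨fun j => l (p j), fun j => 4 * GD.t ^ 2 * b (p j), tendsto_natCast_atTop_iff.1 a1,
    by convert a2 using 2; rw [hc]; ring, ?_⟩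
  rintro _ ⟨s, rfl⟩
  have H : Out (fun j T => YM9.wilson h (b (p j)) ![T, n _ (p j), n _ (p j), n _ (p j)])
    (fun j μ _ f => YM9.corr μ (a (p j)) f) (48 / (11 * GD.b0)) GD.d (2 * s + 1 : ℕ) := H s
  obtain ⟨C, e, -⟩ := h4 _ (odd_two_mul_add_one s)
  simp only [wilson_eq ρ hn ht, fun J => (e J).1, h0] at H
  convert H.sc (inv_pos.2 t4_pos) (cr' := fun j μ _ f => corr ρ μ (l (p j) : ℝ)⁻¹ f)
    fun k f => .of_forall fun j μ => ?_ using 1
  · rw [hc]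
    field_simp
    ring
  · simp only [YM9.corr, corr, Pi.smul_apply, field_eq ρ hn ht]

attribute [local instance 100] LieRing.ofAssociativeRing

theorem mainA (G : Type) [Group G] [TopologicalSpace G] [IsTopologicalGroup G] [CompactSpace G]
    [s₀ : MeasurableSpace G] [s : BorelSpace G] (h : Measure G) [i : h.IsHaarMeasure]
    [p : IsProbabilityMeasure h] {N : ℕ} (ρ : G →* Matrix.unitaryGroup (Fin N) ℂ)
    (hρ : Continuous ρ) (hi : Function.Injective ρ) (L : LieSubalgebra ℝ (Matrix (Fin N) (Fin N) ℂ))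
    [LieAlgebra.IsSimple ℝ L] (hL : ∀ X, X ∈ L ↔ ∀ s : ℝ, ∃ g, (ρ g).1 = NormedSpace.exp (s • X)) :
    ∃ c > (0 : ℝ), (∀ X Y : L, killingForm ℝ L X Y = c * (X.1 * Y.1).trace.re) ∧
      (∀ y : Fin 2 → R4, y 0 ≠ y 1 →
        free (Module.finrank ℝ L) y = 3 * Module.finrank ℝ L / ‖y 0 - y 1‖ ^ 8) ∧
      ∃ (l : ℕ → ℕ) (b : ℕ → ℝ), Tendsto l atTop atTop ∧
      Tendsto (fun j => b j / log (l j)) atTop (𝓝 (11 * c / (24 * π ^ 2))) ∧ ∀ m : ℕ, Odd m →
      Out (fun j T => wilson ρ h (b j) ![T, m * l j, m * l j, m * l j])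
        (fun j μ _ f => corr ρ μ (l j : ℝ)⁻¹ f) (24 / (11 * c)) (Module.finrank ℝ L) m := by
  obtain ⟨ρ', g, φ, c1, c2, c3, c4, c5, c6, c7, c8⟩ := GE.realify ρ hρ hi L hL
  have k := GE.mkGD_c G ((Submonoid.subtype _).comp ρ') (continuous_subtype_val.comp c1)
    (fun a => (ρ' a).2.1) (Subtype.val_injective.comp c2) g c3
  let D := GE.mkGD G ((Submonoid.subtype _).comp ρ') (continuous_subtype_val.comp c1)
    (fun a => (ρ' a).2.1) (Subtype.val_injective.comp c2) g c3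
  have := GD.b0_pos
  have := GD.t_pos
  refine ⟨2 * (GD.b0 * GD.t ^ 2), by positivity, fun X Y => ?_, c8 ▸ @YM5.free_two D,
    c8 ▸ @out_all D N ρ rfl c5 s₀ h p s i _ rfl⟩
  rw [← c7, k, c6]
  ring

end Pool.Agent.Lib.MP_7f377f_mp.YC
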