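import Mathlib

/-! Four dimensional lattice gauge fields with gauge group `G` on `ℤ ^ 4`, periodic Wilson measures,
the smeared action density and the quantum theory on a spatial torus with a unique vacuum. -/

noncomputable section

namespace Pool.Agent.Lib.MP_7f377f_mp.YC

open MeasureTheory Real

/-- the links of the lattice: a site and a direction -/
abbrev Link : Type := (Fin 4 → ℤ) × Fin 4

/-- Euclidean space -/
abbrev R4 : Type := EuclideanSpace ℝ (Fin 4)

variable {G : Type} [Group G] {N k : ℕ} (ρ : G →* Matrix.unitaryGroup (Fin N) ℂ)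

/-- the action density: the sum of `N - Re tr ρ(U_p)` over the six plaquettes `p` with corner `x` -/
def dens (U : Link → G) (x : Fin 4 → ℤ) : ℝ :=
  ∑ i, ∑ j, if i < j then N - (ρ (U (x, i) * U (x + Pi.single i 1, j) *
    (U (x + Pi.single j 1, i))⁻¹ * (U (x, j))⁻¹)).1.trace.re else 0

/-- the field with periods `M i` which agrees with `U` on the box `0 ≤ x i < M i` -/
def per (M : Fin 4 → ℕ) (U : Link → G) : Link → G := fun e => U (fun i => e.1 i % M i, e.2)

/-- the Wilson measure of the torus with sides `M i`, as a measure on periodic fields -/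
def wilson [MeasurableSpace G] (h : Measure G) [IsProbabilityMeasure h] (b : ℝ)
    (M : Fin 4 → ℕ) : Measure (Link → G) :=
  ((Measure.infinitePi fun _ => h).tilted fun U =>
    -b * ∑ x ∈ Fintype.piFinset fun i => Finset.Ico (0 : ℤ) (M i), dens ρ (per M U) x).map (per M)

/-- position of a site of the lattice of spacing `a` -/
def pt (a : ℝ) (x : Fin 4 → ℤ) : R4 := WithLp.toLp 2 fun i => a * x i

/-- the smeared action density -/
def field (a : ℝ) (f : R4 → ℝ) (U : Link → G) : ℝ := ∑' x, f (pt a x) * dens ρ U x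

/-- correlation function of the centred smeared fields -/
def corr [MeasurableSpace G] (μ : Measure (Link → G)) (a : ℝ) (f : Fin k → R4 → ℝ) : ℝ :=
  ∫ U, ∏ i, (field ρ a (f i) U - ∫ V, field ρ a (f i) V ∂μ) ∂μ

/-- continuously differentiable functions with compact supports which are pairwise disjoint
modulo the spatial periods `m z` -/
def Adm (m : ℝ) (f : Fin k → R4 → ℝ) : Prop :=
  (∀ i, HasCompactSupport (f i) ∧ ContDiff ℝ 1 (f i)) ∧ ∀ i j, i ≠ j → ∀ x ∈ tsupport (f i),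
    ∀ y ∈ tsupport (f j), ∀ z : Fin 4 → ℤ, z 0 = 0 → x ≠ y + pt m z

/-- reflection of the time axis -/
def theta (f : R4 → ℝ) (y : R4) : ℝ := f (WithLp.toLp 2 (Function.update y 0 (-y 0)))

/-- matrix of the reflection in the hyperplane orthogonal to `y` -/
def mirror (y : R4) (i j : Fin 4) : ℝ := (if i = j then 1 else 0) - 2 * y i * y j / ‖y‖ ^ 2

/-- `π ^ (2 k)` times the correlation function of the action density of `d` free Maxwell
fields at the points `y i` -/
def free (d : ℕ) (y : Fin k → R4) : ℝ :=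
  ∑ σ : Equiv.Perm (Fin k), if ∀ i, σ i ≠ i then (d / 2) ^ σ.cycleType.card *
    ∑ a : Fin k → Fin 4 × Fin 4, ∏ i, if (a i).1 < (a i).2 then
      (mirror (y (σ i) - y i) (a i).1 (a (σ i)).1 * mirror (y (σ i) - y i) (a i).2 (a (σ i)).2 -
        mirror (y (σ i) - y i) (a i).1 (a (σ i)).2 * mirror (y (σ i) - y i) (a i).2 (a (σ i)).1) /
        ‖y (σ i) - y i‖ ^ 4 else 0 else 0

/-- time ordered families at positive times -/
def Tord {k : ℕ} (f : Fin k → R4 → ℝ) : Prop :=
  (∀ i, HasCompactSupport (f i) ∧ ContDiff ℝ 1 (f i) ∧ ∀ y ∈ tsupport (f i), 0 < y 0) ∧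
    ∀ i j, i < j → ∀ x ∈ tsupport (f i), ∀ y ∈ tsupport (f j), x 0 < y 0

/-- the family `f` between `g` reflected and `g'`, both moved away by the time `t` -/
def sand {k l l' : ℕ} (t : ℝ) (g : Fin l → R4 → ℝ) (f : Fin k → R4 → ℝ) (g' : Fin l' → R4 → ℝ) :
    Fin (l + k + l') → R4 → ℝ :=
  Fin.append (Fin.append (fun i => theta fun y => g i (y - EuclideanSpace.single 0 t)) f)
    fun i y => g' i (y - EuclideanSpace.single 0 t)

variable (H : Type) [NormedAddCommGroup H] [InnerProductSpace ℂ H] [CompleteSpace H]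

/-- `T v = exp (-v 0 * A + i v P)`: a strongly continuous contraction semigroup on the half space
which fixes the unit vector `Ω`, is unitary and `m` periodic in space, and whose generator `A` has
an eigenbasis with eigenvalues `E i ≥ 0`, unbounded, `tr exp (-m A) < ∞`, the eigenvalue `0` is
simple and isolated -/
def Gapped (m : ℝ) (Ω : H) (T : R4 → H →L[ℂ] H) : Prop := ‖Ω‖ = 1 ∧ T 0 = 1 ∧
  (∀ v, 0 ≤ v 0 → ‖T v‖ ≤ 1 ∧ T v Ω = Ω ∧ ∀ w, 0 ≤ w 0 → T (v + w) = T v * T w) ∧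
  (∀ x, ContinuousOn (fun v => T v x) {v | 0 ≤ v 0}) ∧
  (∀ v, v 0 = 0 → T v ∈ unitary (H →L[ℂ] H)) ∧
  (∀ z : Fin 4 → ℤ, z 0 = 0 → T (pt m z) = 1) ∧
  ∃ (I : Type) (e : HilbertBasis I ℂ H) (E : I → ℝ), (∀ i, 0 ≤ E i) ∧
    (∀ t ≥ 0, ∀ i, T (EuclideanSpace.single 0 t) (e i) = (exp (-t * E i) : ℂ) • e i) ∧
    (Summable fun i => exp (-m * E i)) ∧ (∃! i, E i = 0) ∧ (∃ Δ > 0, ∀ i, E i = 0 ∨ Δ ≤ E i) ∧
    ¬BddAbove (Set.range E)

/-- Osterwalder-Schrader reconstruction -/
def Massive (m : ℝ) (W : ∀ {k : ℕ}, (Fin k → R4 → ℝ) → ℂ) : Prop :=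
  ∃ (Ψ : ∀ {k : ℕ}, (Fin k → R4 → ℝ) → H) (T : R4 → H →L[ℂ] H),
    Dense (Submodule.span ℂ {x | ∃ k, ∃ f : Fin k → R4 → ℝ, Tord f ∧ Ψ f = x} : Set H) ∧
    (∀ k (f : Fin k → R4 → ℝ), Tord f →
      (∀ l (g : Fin l → R4 → ℝ), Tord g →
        inner ℂ (Ψ f) (Ψ g) = W (Fin.append (fun i => theta (f i)) g)) ∧
      ∀ v, 0 ≤ v 0 → T v (Ψ f) = Ψ fun i y => f i (y - v)) ∧
    Gapped H m (Ψ ![]) T

end Pool.Agent.Lib.MP_7f377f_mp.YC
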