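import Pool.Agent.Lib.MP_7f377f_mp.G.YCScale
import Pool.Agent.Lib.MP_7f377f_mp.G.CuZ
import Pool.Agent.Lib.MP_7f377f_mp.G.GReal
import Pool.Agent.Lib.MP_7f377f_mp.G.GMk
import Pool.Agent.Lib.MP_7f377f_mp.G.Q5Out

/-! The theorem on the cylinder for a compact group with simple Lie algebra. -/

noncomputable section

namespace Pool.Agent.Lib.MP_7f377f_mp.YC

open MeasureTheory Filter Topology Real

section glue

variable [GD] {N : ℕ} (ρ : GD.G →* Matrix.unitaryGroup (Fin N) ℂ) (hn : GD.n = N + N)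
  (ht : ∀ a, (GD.rho a).trace = 2 * (ρ a).1.trace.re)

theorem t4_pos : 0 < 4 * GD.t ^ 2 := by
  have := GD.t_pos
  positivity

include hn ht

theorem dens_eq (U : Link → GD.G) (x : Fin 4 → ℤ) : YM9.dens U x = 4 * GD.t ^ 2 * dens ρ U x := by
  simp only [YM9.dens, dens, Finset.mul_sum, GD.re1, ht, hn]
  refine Finset.sum_congr rfl fun i _ => Finset.sum_congr rfl fun j _ => ?_
  split_ifs
  · push_cast
    ring
  · ring

theorem field_eq (a : ℝ) (f : R4 → ℝ) (U : Link → GD.G) :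
    YM9.field a ((4 * GD.t ^ 2)⁻¹ • f) U = field ρ a f U := by
  simp only [YM9.field, field, dens_eq ρ hn ht, Pi.smul_apply, smul_eq_mul]
  refine tsum_congr fun x => ?_
  rw [mul_mul_mul_comm, inv_mul_cancel₀ t4_pos.ne', one_mul]
  rfl

variable [MeasurableSpace GD.G] (h : Measure GD.G) [IsProbabilityMeasure h]

theorem wilson_eq (b : ℝ) (M : Fin 4 → ℕ) :
    YM9.wilson h b M = wilson ρ h (4 * GD.t ^ 2 * b) M := by
  simp only [YM9.wilson, wilson, dens_eq ρ hn ht, ← Finset.mul_sum]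
  congr 2
  funext U
  rw [neg_mul, neg_mul, ← mul_assoc, mul_comm b]
  rfl

theorem out_of [BorelSpace GD.G] [h.IsHaarMeasure] {m : ℕ} (hm : Odd m) {c : ℝ}
    (hc : c = 2 * (GD.b0 * GD.t ^ 2)) : ∃ (n : ℕ → ℕ) (b : ℕ → ℝ), Tendsto n atTop atTop ∧
      Tendsto (fun j => b j / log (n j)) atTop (𝓝 (11 * c / (24 * π ^ 2))) ∧
      Out (fun j T => wilson ρ h (b j) ![T, n j, n j, n j]) (fun j μ _ f => corr ρ μ (m / n j) f)
        (24 / (11 * c)) GD.d m := by
  obtain ⟨Φ, _, n, _, a, b, τ, C, _, h1, h2, h3, h4, h5, h6⟩ := RG.Q4.En.out_fix h hm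
  obtain ⟨p, hp, H⟩ := YM9.cylinders (h := h) (M := fun _ => m) (n := fun _ => n) ⟨h1, h2⟩
    fun _ => ⟨hm.pos, C, h4, h5, h6⟩
  have H : Out (fun j T => YM9.wilson h (b (p j)) ![T, n (p j), n (p j), n (p j)])
    (fun j μ _ f => YM9.corr μ (a (p j)) f) (48 / (11 * GD.b0)) GD.d m := H 0
  have m0 : (0 : ℝ) < m := Nat.cast_pos.2 hm.pos
  have a1 := tendsto_inv_nhdsGT_zero.comp (h1.comp hp)
  have a2 := tendsto_log_atTop.comp a1
  have e := hp.eventually ((h1.eventually self_mem_nhdsWithin).and h4)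
  have en := e.mono fun j e => (eq_mul_inv_iff_mul_eq₀ (ne_of_gt e.1)).2 ((mul_comm _ _).trans e.2.1)
  have := GD.b0_pos
  have := GD.t_pos
  refine ⟨fun j => n (p j), fun j => 4 * GD.t ^ 2 * b (p j), tendsto_natCast_atTop_iff.1
    ((a1.const_mul_atTop m0).congr' (en.mono fun j e => e.symm)), ?_, ?_⟩
  · have := ((h3.comp hp).div ((tendsto_const_nhds (x := log m)).div_atTop a2 |>.add_const 1)
      (by simp)).const_mul (4 * GD.t ^ 2)
    rw [zero_add, div_one, show 4 * GD.t ^ 2 * (11 * GD.b0 / (48 * π ^ 2)) = 11 * c / (24 * π ^ 2) by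
      rw [hc]; ring] at this
    refine this.congr' ?_
    filter_upwards [a2.eventually_gt_atTop 0, e, en] with j e1 e2 e3
    simp only [Function.comp, Pi.div_apply] at e1 ⊢
    rw [e3, log_mul m0.ne' (inv_ne_zero (ne_of_gt e2.1)), div_div, div_add_one e1.ne',
      mul_div_cancel₀ _ e1.ne', mul_div_assoc]
  · simp only [wilson_eq ρ hn ht] at H
    convert H.sc (inv_pos.2 t4_pos) (cr' := fun j μ _ f => corr ρ μ (m / n (p j)) f)
      fun k f => e.mono fun j e μ => ?_ using 1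
    · rw [hc]
      field_simp
      ring
    · simp only [YM9.corr, corr, Pi.smul_apply, field_eq ρ hn ht]
      rw [← eq_div_of_mul_eq (fun e' => m0.ne' (by rw [← e.2.1, e', mul_zero])) e.2.1]

end glue

attribute [local instance 100] LieRing.ofAssociativeRing

theorem main (G : Type) [Group G] [TopologicalSpace G] [IsTopologicalGroup G] [CompactSpace G]
    [s₀ : MeasurableSpace G] [s : BorelSpace G] (h : Measure G) [i : h.IsHaarMeasure]
    [p : IsProbabilityMeasure h] {N : ℕ} (ρ : G →* Matrix.unitaryGroup (Fin N) ℂ)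
    (hρ : Continuous ρ) (hi : Function.Injective ρ) (L : LieSubalgebra ℝ (Matrix (Fin N) (Fin N) ℂ))
    [LieAlgebra.IsSimple ℝ L] (hL : ∀ X, X ∈ L ↔ ∀ s : ℝ, ∃ g, (ρ g).1 = NormedSpace.exp (s • X))
    {m : ℕ} (hm : Odd m) :
    ∃ c > (0 : ℝ), (∀ X Y : L, killingForm ℝ L X Y = c * (X.1 * Y.1).trace.re) ∧
      (∀ y : Fin 2 → R4, y 0 ≠ y 1 →
        free (Module.finrank ℝ L) y = 3 * Module.finrank ℝ L / ‖y 0 - y 1‖ ^ 8) ∧
      ∃ (n : ℕ → ℕ) (b : ℕ → ℝ), Tendsto n atTop atTop ∧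
      Tendsto (fun j => b j / log (n j)) atTop (𝓝 (11 * c / (24 * π ^ 2))) ∧
      Out (fun j T => wilson ρ h (b j) ![T, n j, n j, n j]) (fun j μ _ f => corr ρ μ (m / n j) f)
        (24 / (11 * c)) (Module.finrank ℝ L) m := by
  obtain ⟨ρ', g, φ, c1, c2, c3, c4, c5, c6, c7, c8⟩ := GE.realify ρ hρ hi L hL
  have k := GE.mkGD_c G ((Submonoid.subtype _).comp ρ') (continuous_subtype_val.comp c1)
    (fun a => (ρ' a).2.1) (Subtype.val_injective.comp c2) g c3
  let D := GE.mkGD G ((Submonoid.subtype _).comp ρ') (continuous_subtype_val.comp c1)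
    (fun a => (ρ' a).2.1) (Subtype.val_injective.comp c2) g c3
  have := GD.b0_pos
  have := GD.t_pos
  refine ⟨2 * (GD.b0 * GD.t ^ 2), by positivity, fun X Y => ?_, c8 ▸ @YM5.free_two D,
    c8 ▸ @out_of D N ρ rfl c5 s₀ h p s i m hm _ rfl⟩
  rw [← c7, k, c6]
  ring

end Pool.Agent.Lib.MP_7f377f_mp.YC
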