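import Pool.Agent.Lib.MP_7f377f_mp.G.YCDefs

/-! Change of the normalisation of the field on the cylinder. -/

noncomputable section

namespace Pool.Agent.Lib.MP_7f377f_mp.YC

open MeasureTheory Filter Topology Real

variable {c m : ℝ} {k l : ℕ}

theorem ts_smul (f : R4 → ℝ) : tsupport (c • f) ⊆ tsupport f :=
  closure_mono fun _ hy => right_ne_zero_of_mul hy

theorem Adm.smul {f : Fin k → R4 → ℝ} (h : Adm m f) : Adm m (c • f) :=
  ⟨fun i => ⟨(h.1 i).1.mono' ((subset_tsupport _).trans (ts_smul _)), (h.1 i).2.const_smul c⟩,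
    fun i j e x hx y hy => h.2 i j e x (ts_smul _ hx) y (ts_smul _ hy)⟩

theorem Tord.smul {f : Fin k → R4 → ℝ} (h : Tord f) : Tord (c • f) :=
  ⟨fun i => ⟨(h.1 i).1.mono' ((subset_tsupport _).trans (ts_smul _)), (h.1 i).2.1.const_smul c,
    fun y hy => (h.1 i).2.2 y (ts_smul _ hy)⟩,
    fun i j e x hx y hy => h.2 i j e x (ts_smul _ hx) y (ts_smul _ hy)⟩

theorem app_smul (f : Fin k → R4 → ℝ) (g : Fin l → R4 → ℝ) :
    c • Fin.append f g = Fin.append (c • f) (c • g) := funext fun i => by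
  induction i using Fin.addCases <;> simp

theorem sand_smul {l' : ℕ} (t : ℝ) (g : Fin l → R4 → ℝ) (f : Fin k → R4 → ℝ)
    (g' : Fin l' → R4 → ℝ) : c • sand t g f g' = sand t (c • g) (c • f) (c • g') := by
  simp only [sand, app_smul]
  rfl

theorem Massive.sc {H : Type} [NormedAddCommGroup H] [InnerProductSpace ℂ H] [CompleteSpace H]
    {W : ∀ {k : ℕ}, (Fin k → R4 → ℝ) → ℂ} (h : Massive H m W) (hc : c ≠ 0) :
    Massive H m fun f => W (c • f) := by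
  obtain ⟨Ψ, T, h1, h2, h3⟩ := h
  refine ⟨fun f => Ψ (c • f), T, h1.mono (Submodule.span_mono ?_), fun k f hf =>
    ⟨fun l g hg => ?_, (h2 k _ hf.smul).2⟩, by simpa only [Matrix.smul_empty] using h3⟩
  · rintro _ ⟨k, f, hf, rfl⟩
    exact ⟨k, c⁻¹ • f, hf.smul, by simp only [smul_smul, mul_inv_cancel₀ hc, one_smul]⟩
  · simp only [app_smul]
    exact (h2 k _ hf.smul).1 l _ hg.smul

variable {G : Type} [TopologicalSpace G] [MeasurableSpace G]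

/-- the conclusion of the theorem for one volume: `w j T` are the measures of the tori and `cr` the
correlation functions -/
def Out (w : ℕ → ℕ → Measure (Link → G))
    (cr : ℕ → Measure (Link → G) → ∀ {k : ℕ}, (Fin k → R4 → ℝ) → ℝ) (c₂ : ℝ) (d : ℕ) (m : ℝ) : Prop :=
  ∃ (μ : ℕ → Measure (Link → G)) (S : ∀ {k : ℕ}, (Fin k → R4 → ℝ) → ℝ) (r : ℕ) (κ : Fin r → ℕ)
    (B : ∀ a, Fin (κ a) → R4 → ℝ) (c : Fin r → ℂ) (W : ∀ {k : ℕ}, (Fin k → R4 → ℝ) → ℂ),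
    (∀ j, IsProbabilityMeasure (μ j) ∧ ∀ F : C(Link → G, ℝ), Tendsto
      (fun T => ∫ U, F U ∂w j T) atTop (𝓝 (∫ U, F U ∂μ j))) ∧ (∀ a, Adm m (B a)) ∧
    (∀ k (f : Fin k → R4 → ℝ), Adm m f →
      Tendsto (fun j => cr j (μ j) f) atTop (𝓝 (S f)) ∧
      Tendsto (fun t => ∑ a, ∑ b, star (c a) * c b * S (sand t (B a) f (B b))) atTop (𝓝 (W f)) ∧
      (∀ v, W (fun i y => f i (y + v)) = W f) ∧ W (fun i => theta (f i)) = star (W f)) ∧
    (∀ k R, ∀ δ > 0, ∃ C : ℝ, ∀ (f : Fin k → R4 → ℝ) (L : Fin k → NNReal), Adm m f →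
      (∀ i, LipschitzWith (L i) (f i) ∧ ∀ y, f i y ≠ 0 → ‖y‖ ≤ R) →
      (∀ i j, i ≠ j → ∀ x y, f i x ≠ 0 → f j y ≠ 0 → ∀ z : Fin 4 → ℤ, z 0 = 0 →
        δ ≤ dist x (y + pt m z)) → ‖W f‖ ≤ C * ∏ i, L i) ∧
    (∀ k (f : Fin k → R4 → ℝ), Adm 0 f →
      Tendsto (fun d : ℝ => (log d⁻¹ ^ k : ℝ) * W fun i y => f i (d⁻¹ • y)) (𝓝[>] 0)
        (𝓝 (c₂ ^ k * ∫ y : Fin k → R4, (∏ i, f i (y i)) * free d y : ℝ))) ∧
    ∃ (H : Type) (_ : NormedAddCommGroup H) (_ : InnerProductSpace ℂ H) (_ : CompleteSpace H),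
      Massive H m W

theorem Out.sc {w : ℕ → ℕ → Measure (Link → G)}
    {cr cr' : ℕ → Measure (Link → G) → ∀ {k : ℕ}, (Fin k → R4 → ℝ) → ℝ} {c₂ : ℝ} {d : ℕ}
    (h : Out w cr c₂ d m) (hc : 0 < c)
    (e : ∀ k (f : Fin k → R4 → ℝ), ∀ᶠ j in atTop, ∀ μ, cr j μ (c • f) = cr' j μ f) :
    Out w cr' (c * c₂) d m := by
  obtain ⟨μ, S, r, κ, B, z, W, h1, h2, h3, h4, h5, H, i1, i2, i3, hQ⟩ := h
  refine ⟨μ, fun f => S (c • f), r, κ, fun a => c⁻¹ • B a, z, fun f => W (c • f), h1,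
    fun a => (h2 a).smul, fun k f hf => ?_, fun k R δ δ0 => ?_, fun k f hf => ?_, H, i1, i2, i3,
    hQ.sc hc.ne'⟩
  · obtain ⟨a1, a2, a3⟩ := h3 k _ (hf.smul (c := c))
    refine ⟨a1.congr' ((e k f).mono fun j hj => hj _), a2.congr fun t => ?_, a3⟩
    simp only [sand_smul, smul_smul, mul_inv_cancel₀ hc.ne', one_smul]
  · obtain ⟨C, hC⟩ := h4 k R δ δ0
    refine ⟨C * c ^ k, fun f L f1 f2 f3 => ?_⟩
    have := hC (c • f) (fun i => ‖c‖₊ * L i) f1.smul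
      (fun i => ⟨(lipschitzWith_smul c).comp (f2 i).1, fun y hy =>
        (f2 i).2 y (right_ne_zero_of_mul hy)⟩)
      fun i j hij x y hx hy => f3 i j hij x y (right_ne_zero_of_mul hx) (right_ne_zero_of_mul hy)
    refine this.trans_eq ?_
    simp [Finset.prod_mul_distrib, abs_of_pos hc, mul_assoc]
  · refine (congrArg (fun z : ℝ => Tendsto _ _ (𝓝 (z : ℂ))) ?_).mp (h5 k _ (hf.smul (c := c)))
    simp only [Pi.smul_apply, smul_eq_mul, Finset.prod_mul_distrib, Finset.prod_const,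
      Finset.card_univ, Fintype.card_fin, mul_assoc, integral_const_mul, mul_pow]
    ring

end Pool.Agent.Lib.MP_7f377f_mp.YC
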