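import Pool.Agent.Lib.MP_7f377f_mp.G.YWMain
import Pool.Agent.Lib.MP_7f377f_mp.G.S18
import Pool.Agent.Lib.MP_7f377f_mp.G.YFf

/-! The fields of dimension four for a compact group with simple Lie algebra. -/

noncomputable section

namespace Pool.Agent.Lib.MP_7f377f_mp.YF

open MeasureTheory Filter Topology Real MvPolynomial

theorem outM [GD] [MeasurableSpace GD.G] (h : Measure GD.G) [BorelSpace GD.G] [h.IsHaarMeasure]
    [IsProbabilityMeasure h] : OutM (fun b n a Z => YM7.vev h b n a Z)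
      (11 * GD.b0 / (48 * π ^ 2)) (48 / (11 * GD.b0)) GD.d := by
  have := GD.b0_pos
  have : 0 < GD.d := GD.d3.trans_lt' three_pos
  obtain ⟨n, a, b, S, e1, e2, e3, e4, G, β, U, S₀, R⟩ := RG.Q4.En.out_run h
  have hS := R.inp
  obtain ⟨W, w1, hD, hV, hR⟩ := hS.pure_rot R.rot
  have hW := hS.dom hD w1
  obtain ⟨r, B, b1, b2⟩ := hS.ins w1 hD
  obtain ⟨H, _, _, _, hq⟩ := hW.quantum hV
  obtain ⟨h₀, D, M, T, I, o, c, -⟩ := R.main
  obtain ⟨K, u, ω, Λ, δ, L, N, -, A, J, L0, L1, Q⟩ := R.res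
  obtain ⟨p, W', p', o', k1, k2, k3, k4⟩ := Wv.lab_four2 (Q.inl.dom hD) (Lm.Bas.dom Q.phi hD) hW.lin
    hW.st hR hq (by positivity) (by positivity) YM5.free_two hW.af
  obtain ⟨q, q1, -⟩ := Wm.rep_of hW.st hq
  obtain ⟨E, q2, q3, -⟩ := Wm.sA_of Wm.sA1_of Wm.sA2_of Wm.sA3_of Wm.sA4_of H q.T q1
    (Wm.sB0_of H W q hW.st hR q1)
  obtain ⟨z, hz⟩ := Cm.idt A J L0 L1 Q o c I.ts.rd I.ts.ne ⟨w1, hD, hR⟩ hW q (Wm.B1.rs q q2 q3)
    o' k1 k2 k3
  have q0 : 0 < Ope.qc := by rw [Ope.qc]; positivity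
  obtain ⟨s1, s2⟩ := Cm.stress_lab o c (by positivity) ⟨w1, hD, hR⟩ o' k1 hz
  obtain ⟨f, Y, g1, -, g2, g3, g4⟩ := Wm.non_gauss_ord (W := W' ∘ₗ em.toLinearMap)
    ((k1 1 (Pur.net.one _)).trans w1) (by positivity) fun k f hf => (hW.af k f hf).congr'
      (eventually_mem_nhdsWithin.mono fun d (d0 : 0 < d) => congrArg _ (k1 _
        (Pur.mon_mem (hf.smul (inv_ne_zero d0.ne')) fun _ => Set.subset_univ _)).symm)
  refine ⟨n, a, b, S, W', r, B, e1, e2, e3, b1, fun Z hZ => ⟨e4 Z hZ, ?_⟩, wightman_of k4,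
    Q.af hD hW.st k3, ?_, s2, f, fun i => em (Y i), g1, g2, fun i => by simp [g3, em, phi],
    by simpa using g4⟩
  · exact (k1 Z hZ).symm ▸ b2 Z hZ
  · convert s1 using 1
    rw [← Ope.qc]
    field_simp
    ring

theorem outF [GD] {N : ℕ} (ρ : GD.G →* Matrix.unitaryGroup (Fin N) ℂ) (hρ : Continuous ρ)
    (hi : Function.Injective ρ) (hn : GD.n = N + N)
    (ht : ∀ a, (GD.rho a).trace = 2 * (ρ a).1.trace.re) [MeasurableSpace GD.G] (h : Measure GD.G)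
    [BorelSpace GD.G] [h.IsHaarMeasure] [IsProbabilityMeasure h] {c : ℝ}
    (hc : c = 2 * (GD.b0 * GD.t ^ 2)) :
    OutF (fun b n a Z => vev ρ h b n a Z) (11 * c / (24 * π ^ 2)) (24 / (11 * c)) GD.d := by
  have := GD.b0_pos
  have := YM5.t_pos
  convert (outM h).fin (V' := fun b n a Z => vev ρ h b n a Z) YG.t4_pos fun b n a Z =>
    (vev_snd h ρ hρ hi _ n a Z).trans (YG.vev_eq ρ hn ht h b a _) using 1 <;> rw [hc] <;>
      field_simp <;> ring

attribute [local instance 100] LieRing.ofAssociativeRing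

theorem mainF (G : Type) [Group G] [TopologicalSpace G] [IsTopologicalGroup G]
    [CompactSpace G] [m : MeasurableSpace G] [s : BorelSpace G] (h : Measure G) [i : h.IsHaarMeasure]
    [p : IsProbabilityMeasure h] {N : ℕ} (ρ : G →* Matrix.unitaryGroup (Fin N) ℂ)
    (hρ : Continuous ρ) (hi : Function.Injective ρ) (L : LieSubalgebra ℝ (Matrix (Fin N) (Fin N) ℂ))
    [LieAlgebra.IsSimple ℝ L] (hL : ∀ X, X ∈ L ↔ ∀ s : ℝ, ∃ g, (ρ g).1 = NormedSpace.exp (s • X)) :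
    ∃ c > (0 : ℝ), (∀ X Y : L, killingForm ℝ L X Y = c * (X.1 * Y.1).trace.re) ∧
      OutF (fun b n a Z => vev ρ h b n a Z) (11 * c / (24 * π ^ 2)) (24 / (11 * c))
        (Module.finrank ℝ L) := by
  obtain ⟨ρ', g, φ, c1, c2, c3, c4, c5, c6, c7, c8⟩ := GE.realify ρ hρ hi L hL
  have k := GE.mkGD_c G ((Submonoid.subtype _).comp ρ') (continuous_subtype_val.comp c1)
    (fun a => (ρ' a).2.1) (Subtype.val_injective.comp c2) g c3
  let D := GE.mkGD G ((Submonoid.subtype _).comp ρ') (continuous_subtype_val.comp c1)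
    (fun a => (ρ' a).2.1) (Subtype.val_injective.comp c2) g c3
  have := GD.b0_pos
  have := GD.t_pos
  refine ⟨2 * (GD.b0 * GD.t ^ 2), by positivity, fun X Y => ?_,
    c8 ▸ @outF D N ρ hρ hi rfl c5 m h s i p _ rfl⟩
  rw [← c7, k, c6]
  ring

end Pool.Agent.Lib.MP_7f377f_mp.YF
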