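import Pool.Agent.Lib.MP_7f377f_mp.YF
import Pool.Agent.Lib.MP_7f377f_mp.WAxL
import Pool.Agent.Lib.MP_7f377f_mp.Lb0
import Pool.Agent.Lib.MP_7f377f_mp.StS
import Pool.Agent.Lib.MP_7f377f_mp.G.YGScale

/-! The final statement: translation and change of the normalisation. -/

noncomputable section

namespace Pool.Agent.Lib.MP_7f377f_mp.YF

open MeasureTheory Filter Topology Real MvPolynomial Matrix

/-- polynomials in the scalar field -/
def em : YG.Fp →ₐ[ℂ] Fp := rename fun f => ((2⁻¹ : ℂ) • (1 : Lab), f)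

/-- failure of the Wick rule -/
def NG (W : Fp → ℂ) : Prop := ∃ (f : Fin 4 → R4 → ℝ) (Y : Fin 4 → Fp), Adm f ∧
  (∀ i j, i < j → ∀ x ∈ tsupport (f i), ∀ y ∈ tsupport (f j), x 0 < y 0) ∧
  (∀ i, Y i = phi (f i) - C (W (phi (f i)))) ∧ W (Y 0 * Y 1 * Y 2 * Y 3) ≠
    W (Y 0 * Y 1) * W (Y 2 * Y 3) + W (Y 0 * Y 2) * W (Y 1 * Y 3) + W (Y 0 * Y 3) * W (Y 1 * Y 2)

/-- homogeneity in the label -/
def Hom (W : Fp → ℂ) : Prop := ∀ (t : ℂ) a f, Adm ![f] → ∀ Z ∈ Loc (tsupport f)ᶜ,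
  cov W (X (t • a, f)) Z = t * cov W (X (a, f)) Z

/-- the conclusion for lattice expectations `V` of polynomials in the scalar field -/
def OutM (V : ℝ → ℕ+ → ℝ → YG.Fp → ℂ) (c₁ q : ℝ) (d : ℕ) : Prop :=
  ∃ (n : ℕ → ℕ+) (a b : ℕ → ℝ) (S : YG.Fp → ℂ) (W : Fp → ℂ) (r : ℕ → ℕ)
    (B : ∀ j, Fin (r j) → YG.Fp),
    Tendsto a atTop (𝓝[>] 0) ∧ Tendsto (fun j => a j * n j) atTop atTop ∧
    Tendsto (fun j => b j / log (a j)⁻¹) atTop (𝓝 c₁) ∧
    (∀ (j : ℕ) i, B j i ∈ YG.Loc (YG.Fut 0 j)) ∧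
    (∀ Z ∈ YG.Loc Set.univ, Tendsto (fun j => V (b j) (n j) (a j) Z) atTop (𝓝 (S Z)) ∧
      Tendsto (fun j => S (YG.ins (B j) Z)) atTop (𝓝 (W (em Z))) ∧
        ∀ᶠ j in atTop, YG.ins (B j) Z ∈ YG.Loc Set.univ) ∧
    Wightman W ∧ AF q d W ∧ Stress (2 * π ^ 2 * q ^ 2) W ∧ Hom W ∧ NG W

/-- the conclusion of the final theorem -/
def OutF (V : ℝ → ℕ+ → ℝ → Fp → ℂ) (c₁ q : ℝ) (d : ℕ) : Prop :=
  ∃ (n : ℕ → ℕ+) (a b : ℕ → ℝ) (S W : Fp → ℂ) (r : ℕ → ℕ) (B : ∀ j, Fin (r j) → Fp),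
    Tendsto a atTop (𝓝[>] 0) ∧ Tendsto (fun j => a j * n j) atTop atTop ∧
    Tendsto (fun j => b j / log (a j)⁻¹) atTop (𝓝 c₁) ∧
    (∀ (j : ℕ) i, B j i ∈ Loc {y | j < y 0}) ∧
    (∀ Z ∈ Loc Set.univ, Tendsto (fun j => V (b j) (n j) (a j) Z) atTop (𝓝 (S Z)) ∧
      Tendsto (fun j => S (ins (B j) Z)) atTop (𝓝 (W Z)) ∧
        ∀ᶠ j in atTop, ins (B j) Z ∈ Loc Set.univ) ∧
    Wightman W ∧ AF q d W ∧ Stress (2 * π ^ 2 * q ^ 2) W ∧ NG W

theorem em_X (f : R4 → ℝ) : em (X f) = phi f := rename_X _ _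

theorem em_fld {k : ℕ} (f : Fin k → R4 → ℝ) : em (YG.fld f) = ∏ i, phi (f i) := by
  simp only [YG.fld, map_prod, em_X]

theorem loc_iff {O : Set R4} {Z : Fp} : Z ∈ Loc O ↔ ∃ Y ∈ YG.Loc O, em Y = Z := by
  have : Loc O = (Submodule.map em.toLinearMap (Submodule.span ℂ {Z | ∃ (k : ℕ)
      (f : Fin k → R4 → ℝ), YG.Adm f ∧ (∀ i, tsupport (f i) ⊆ O) ∧ YG.fld f = Z}) : Set Fp) := by
    rw [Submodule.map_span, Loc]
    congr 2
    ext Z
    exact ⟨fun ⟨k, f, a, b, c⟩ => ⟨_, ⟨k, f, a, b, rfl⟩, (em_fld f).trans c⟩,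
      fun ⟨_, ⟨k, f, a, b, rfl⟩, c⟩ => ⟨k, f, a, b, (em_fld f).symm.trans c⟩⟩
  rw [this]
  rfl

/-- multiplication of all test functions by `c` -/
def scL (c : ℝ) : Fp →ₐ[ℂ] Fp := rename fun p => (p.1, c • p.2)

section
variable {c q κ : ℝ} {d : ℕ} {W : Fp → ℂ}

theorem scL_X (a : Lab) (f : R4 → ℝ) : scL c (X (a, f)) = X (a, c • f) := rename_X _ _

theorem scL_phi (f : R4 → ℝ) : scL c (phi f) = phi (c • f) := rename_X _ _

theorem scL_em (Y : YG.Fp) : scL c (em Y) = em (YG.sc c Y) := by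
  simp only [scL, em, YG.sc, rename_rename]
  rfl

theorem snd_em (Y : YG.Fp) : rename Prod.snd (em Y) = Y := by
  simp only [em, rename_rename]
  exact rename_id_apply Y

theorem em_ins {r : ℕ} (B : Fin r → YG.Fp) (Y : YG.Fp) :
    ins (fun i => em (B i)) (em Y) = em (YG.ins B Y) := by
  simp only [ins, YG.ins, YG.osp, YG.bar, map_sum, map_mul, em, map_rename, rename_rename]
  rfl

theorem scL_loc {O : Set R4} {Z : Fp} (h : Z ∈ Loc O) : scL c Z ∈ Loc O :=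
  let ⟨_, a, b⟩ := loc_iff.1 h
  loc_iff.2 ⟨_, YG.sc_loc a, by rw [← b, scL_em]⟩

theorem loc_mono {O O' : Set R4} (h : O ⊆ O') : Loc O ⊆ Loc O' :=
  Submodule.span_mono fun _ ⟨k, g, g1, g2, g3⟩ => ⟨k, g, g1, fun i => (g2 i).trans h, g3⟩

theorem Adm.sm {k : ℕ} {f : Fin k → R4 → ℝ} (h : Adm f) (c : ℝ) : Adm fun i => c • f i :=
  YG.Adm.smul h

theorem adm_one {f : R4 → ℝ} (h : HasCompactSupport f) (h' : ContDiff ℝ 1 f) : Adm ![f] :=
  ⟨Fin.forall_fin_one.2 ⟨h, h'⟩, fun _ _ e => absurd (Subsingleton.elim _ _) e⟩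

theorem Wightman.sc (h : Wightman W) (hc : c ≠ 0) : Wightman fun Z => W (scL c Z) := by
  obtain ⟨H, _, _, i, U, Ω, D, φ, h0, ⟨h1, h2, h3⟩, h⟩ := h
  refine ⟨H, _, _, i, U, Ω, D, fun p => φ (p.1, (c : ℂ) • p.2), h0,
    ⟨h1, h2.mono (Submodule.span_mono ?_), fun x hx a f => ?_⟩, fun n a => ?_⟩
  · rintro _ ⟨l, rfl⟩
    refine ⟨l.map fun p => (p.1, (c : ℂ)⁻¹ • p.2), ?_⟩
    simp only [List.foldr_map, smul_inv_smul₀ (Complex.ofReal_ne_zero.2 hc)]
  · obtain ⟨a1, a2, a3, a4, a5, a6⟩ := h3 x hx a ((c : ℂ) • f)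
    refine ⟨a1, fun t g => by simp only [smul_add, smul_comm _ t, a2], fun t b => a3 t b,
      fun y hy => ?_, fun v L hL => ⟨(a5 v L hL).1, fun g e => (a5 v L hL).2 _ fun u => by simp [e]⟩,
      fun b g e => a6 _ _ fun u hu v hv => e u ?_ v ?_⟩
    · obtain ⟨b1, b2, b3⟩ := a4 y hy
      exact ⟨b1, b2.comp (continuous_const_smul _), fun g e => b3 _ fun u => by simp [e]⟩
    · exact tsupport_smul_subset_right (fun _ => (c : ℂ)) f hu
    · exact tsupport_smul_subset_right (fun _ => (c : ℂ)) g hv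
  · obtain ⟨w, h1, h2, h3⟩ := h n a
    refine ⟨fun z => (c : ℂ) ^ n * w z, h1.const_mul _, fun f hf o => ?_, fun f G e => ?_⟩
    · simp only [map_prod, scL_X]
      refine (h2 _ (YG.Adm.smul hf) fun i j e x hx y hy => o i j e x (YG.ts_smul _ hx) y
        (YG.ts_smul _ hy)).trans ?_
      simp [Finset.prod_mul_distrib, mul_assoc, mul_left_comm]
    · have := h3 (fun i => (c : ℂ) • f i) G fun ε x => by
        simp [e, Finset.prod_mul_distrib, mul_assoc, mul_left_comm]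
      rwa [← List.foldr_map, List.map_ofFn]

theorem AF.sc (h : AF q d W) : AF (c * q) d fun Z => W (scL c Z) := by
  obtain ⟨M, h1, h2, h3, h4⟩ := h
  refine ⟨M, h1, h2, h3, fun k a f hf => ?_⟩
  have e : ∀ (t : ℝ) i, (c • fun y => f i (t⁻¹ • y)) = fun y => (c • f i) (t⁻¹ • y) := fun _ _ => rfl
  simp only [map_prod, scL_X, e]
  convert h4 k a (fun i => c • f i) (YG.Adm.smul hf) using 2
  simp only [Pi.smul_apply, smul_eq_mul, Complex.ofReal_mul, Finset.prod_mul_distrib,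
    Finset.prod_const, Finset.card_univ, Fintype.card_fin, mul_assoc, integral_const_mul, mul_pow]
  ring

theorem Stress.sc (h : Stress κ W) (hH : Hom W) (hc : c ≠ 0) :
    Stress (c ^ 2 * κ) fun Z => W (scL c Z) := by
  obtain ⟨s, t, T, h1, h2, h3⟩ := h
  have hc' : (c : ℂ) ≠ 0 := Complex.ofReal_ne_zero.2 hc
  have e : ∀ Y Z, cov (fun Z => W (scL c Z)) Y Z = cov W (scL c Y) (scL c Z) :=
    fun Y Z => by simp only [cov, map_mul]
  have y : ∀ f, Adm ![f] → Adm ![c • f] := fun f hf =>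
    adm_one (hf.1 0).1.smul_left ((hf.1 0).2.const_smul c)
  have x : ∀ a f, Adm ![f] → ∀ Z ∈ Loc (tsupport f)ᶜ, cov (fun Z => W (scL c Z))
      (X ((c : ℂ)⁻¹ • a, f)) Z = (c : ℂ)⁻¹ * cov W (X (a, c • f)) (scL c Z) := fun a f hf Z hZ => by
    rw [e, scL_X]
    exact hH _ _ _ (y f hf) _ (loc_mono (Set.compl_subset_compl.2 (YG.ts_smul _)) (scL_loc hZ))
  have p : ∀ (g : R4 → ℝ) v, (fun y => lineDeriv ℝ (c • g) y v) = c • fun y => lineDeriv ℝ g y v :=
    fun g v => funext fun _ => deriv_const_mul_field _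
  refine ⟨(c : ℂ)⁻¹ * s, (c : ℂ)⁻¹ * t, fun μ ν => (c : ℂ)⁻¹ • T μ ν, fun μ ν => ?_,
    fun k g ξ b ν g1 g2 g3 g4 => ?_, fun u p u1 u2 => ?_⟩
  · simp only [h1, ← smul_kronecker, smul_add, smul_smul, smul_ite, smul_zero]
  · have := h2 k _ (c • ξ) (fun i => c * b i) ν (YG.Adm.smul (c := c) g1)
      (fun i => ⟨(g2 i).1.const_smul c,
      ((g2 i).2.filter_mono (nhdsSet_mono (YG.ts_smul _))).mono fun y hy => by simp [hy]⟩)
      (g3.const_smul c) g4.smul_left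
    simp only [p, Complex.ofReal_mul, mul_assoc, ← Finset.mul_sum] at this
    refine (Finset.sum_congr rfl fun μ _ => x _ _ (adm_one (St.pd_cpt g4)
      ((Fx.pd_smooth g3 μ).of_le (by simp))) _ (Submodule.subset_span ⟨k, g, g1, fun i y hy =>
        St.pd_far ((g2 i).2.filter_mono (nhds_le_nhdsSet hy)), rfl⟩)).trans ?_
    delta Fx.pd
    simp only [← Finset.mul_sum, map_prod, scL_phi, this, inv_mul_cancel_left₀ hc',
      Function.apply_update (fun _ (f : R4 → ℝ) => c • f) g]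
  · obtain ⟨b, b1, b2⟩ := h3 (c • u) p (fun x y e => by simp [u1 x y e])
      (by convert u2.sm c using 1; funext i; fin_cases i <;> rfl)
    refine ⟨fun d => (c : ℂ)⁻¹ * b d, b1.const_mul_left _, fun f hf Z hZ => ?_⟩
    convert (b2 (c • f) (y f hf) _
      (loc_mono (Set.compl_subset_compl.2 (YG.ts_smul _)) (scL_loc (c := c) hZ))).const_mul
          (c : ℂ)⁻¹ using 2
    · simp only [e, map_mul, scL_phi, Pi.smul_apply, smul_eq_mul, Complex.ofReal_mul, mul_assoc,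
        integral_const_mul, mul_sub, mul_left_comm _ (c : ℂ), mul_inv_cancel_left₀ hc']
      rfl
    · simp only [x _ _ hf _ hZ, Finset.mul_sum, Pi.smul_apply, smul_eq_mul,
        mul_mul_mul_comm c _ c, mul_assoc, integral_const_mul]
      refine Finset.sum_congr rfl fun μ _ => Finset.sum_congr rfl fun ν _ => ?_
      push_cast
      ring

end

theorem OutM.fin {V : ℝ → ℕ+ → ℝ → YG.Fp → ℂ} {V' : ℝ → ℕ+ → ℝ → Fp → ℂ} {c₁ q c : ℝ} {d : ℕ}
    (h : OutM V c₁ q d) (hc : 0 < c)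
    (e : ∀ b n a Z, V' (c * b) n a Z = V b n a (YG.sc c⁻¹ (rename Prod.snd Z))) :
    OutF V' (c * c₁) (c⁻¹ * q) d := by
  obtain ⟨n, a, b, S, W, r, B, h1, h2, h3, h4, h5, h6, h7, h8, h9, f, Y, g1, g2, g3, g4⟩ := h
  have e1 : ∀ j Z, YG.sc c⁻¹ (YG.ins (fun i => YG.sc c (B j i)) Z) = YG.ins (B j) (YG.sc c⁻¹ Z) :=
    fun j Z => by simp only [YG.sc_ins, YG.sc_sc, inv_mul_cancel₀ hc.ne', YG.sc_one]
  have e2 : ∀ Z, scL c⁻¹ (scL c Z) = Z := fun Z => by
    simp only [scL, rename_rename, Function.comp_def, inv_smul_smul₀ hc.ne']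
    exact rename_id_apply Z
  refine ⟨n, a, fun j => c * b j, fun Z => S (YG.sc c⁻¹ (rename Prod.snd Z)),
    fun Z => W (scL c⁻¹ Z), r, fun j i => em (YG.sc c (B j i)), h1, h2,
    by simpa only [mul_div_assoc] using h3.const_mul c,
    fun j i => loc_iff.2 ⟨_, YG.sc_loc (h4 j i), rfl⟩, fun Z hZ => ?_,
    h6.sc (inv_ne_zero hc.ne'), h7.sc, by
      convert h8.sc h9 (inv_ne_zero hc.ne') using 1; ring,
    fun i => c • f i, fun i => scL c (Y i), YG.Adm.smul g1,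
    fun i j o x hx y hy => g2 i j o x (YG.ts_smul _ hx) y (YG.ts_smul _ hy), fun i => ?_,
    by simpa only [map_mul, e2] using g4⟩
  · obtain ⟨Y, hY, rfl⟩ := loc_iff.1 hZ
    obtain ⟨a1, a2, a3⟩ := h5 _ (YG.sc_loc (c := c⁻¹) hY)
    simp only [e, em_ins, snd_em, e1, scL_em]
    refine ⟨a1, a2, a3.mono fun j hj => loc_iff.2 ⟨_, ?_, rfl⟩⟩
    have := YG.sc_loc (c := c) hj
    rwa [← e1, YG.sc_sc, mul_inv_cancel₀ hc.ne', YG.sc_one] at this
  · simp only [g3, map_sub, ← scL_phi, e2]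
    exact congrArg _ (rename_C _ _)

theorem vev_snd {G : Type} [Group G] [TopologicalSpace G] [IsTopologicalGroup G] [CompactSpace G]
    [MeasurableSpace G] [BorelSpace G] (h : Measure G) [IsProbabilityMeasure h] {N : ℕ}
    (ρ : G →* unitaryGroup (Fin N) ℂ) (hρ : Continuous ρ) (hi : Function.Injective ρ) (b : ℝ)
    (n : ℕ) [NeZero n] (a : ℝ) (Z : Fp) :
    vev ρ h b n a Z = YG.vev ρ h b n a (rename Prod.snd Z) := by
  have : SecondCountableTopology (Matrix (Fin N) (Fin N) ℂ) :=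
    inferInstanceAs (SecondCountableTopology (Fin N → Fin N → ℂ))
  have := ((continuous_subtype_val.comp hρ).isClosedEmbedding
    (Subtype.val_injective.comp hi)).isEmbedding.secondCountableTopology
  have : IsFiniteMeasure (YG.wilson ρ h b n) := by delta YG.wilson; infer_instance
  have i : ∀ x, Integrable (fun V => YG.dens ρ V x) (YG.wilson ρ h b n) := fun x => by
    refine Continuous.integrable_of_hasCompactSupport ?_ (.of_compactSpace _)
    refine continuous_finset_sum _ fun i _ => continuous_finset_sum _ fun j _ => ?_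
    split_ifs
    · exact continuous_const.sub (Complex.continuous_re.comp
        (Continuous.matrix_trace (continuous_subtype_val.comp (hρ.comp (by fun_prop)))))
    · exact continuous_const
  simp only [vev, YG.vev, eval_rename, YG.field, Function.comp_def]
  congr with U
  congr 2 with p
  rw [integral_finset_sum _ fun x _ => (i x).const_mul _]
  simp only [integral_const_mul, mul_sub, Finset.sum_sub_distrib]
  rfl

theorem free_eq {k : ℕ} (d : ℕ) (c : Fin k → Lab) (y : Fin k → R4) :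
    free d c y = Lb.freeL d c y := by
  have : ∀ v a b, pr v a b = Lb.pr v a b := fun v a b => by
    simp only [pr, Lb.pr, YG.mirror, det_fin_two, submatrix_apply, Matrix.sub_apply, one_apply,
      Matrix.smul_apply, vecMulVec_apply, smul_eq_mul, of_apply, cons_val_zero, cons_val_one]
    ring
  simp only [free, Lb.freeL, this]

theorem wightman_of {W : Fp → ℂ} (h : WA.WightmanL (fun L => Lb.rho (L.map (↑)))
    (Lb.rho (diagonal ![Complex.I, 1, 1, 1])) (fun _ => YG.Adm)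
      fun _ (a : Fin _ → Lb.Lab ℂ) f => W (∏ i, X (a i, f i))) : Wightman W := h

end Pool.Agent.Lib.MP_7f377f_mp.YF
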