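import Pool.Agent.Lib.MP_7f377f_mp.G.ScB
import Pool.Agent.Lib.MP_7f377f_mp.G.LmC
import Pool.Agent.Lib.MP_7f377f_mp.G.CmD

/-! Traceless tensor insertions are determined by one component at separated times. -/

noncomputable section

namespace Pool.Agent.Lib.MP_7f377f_mp.Ope
variable [Pool.Agent.Lib.MP_7f377f_mp.GD]
set_option linter.unusedSectionVars false

open Filter Topology Set Real YM7 Pur MvPolynomial Metric Lg Lg.PI Function
open Wm (C1)
open Ro (Iso act)

/-- covariant traceless symmetric insertions -/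
structure Tx (T : Tn) : Prop where
  sym : ∀ μ ν f Z, Dt f Z → T μ ν f Z = T ν μ f Z
  tr : ∀ f Z, Dt f Z → ∑ μ, T μ μ f Z = 0
  cov : ∀ g : Iso, dt g = 1 → ∀ f Z, Dt f Z → ∀ μ ν, T μ ν f Z =
    ∑ i, ∑ j, (g (ee μ) i * g (ee ν) j : ℝ) * T i j (fun y => f (g.symm y)) (act g Z)
  ti : ∀ v μ ν f Z, Dt f Z → T μ ν (fun y => f (y - v)) (net.τ v Z) = T μ ν f Z
  lin : ∀ μ ν (c : ℝ) f f' Z, Dt f Z → Dt f' Z →
    T μ ν (f + c • f') Z = T μ ν f Z + c * T μ ν f' Z
  linZ : ∀ μ ν (c : ℂ) f Z Z', Dt f Z → Dt f Z' →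
    T μ ν f (Z + c • Z') = T μ ν f Z + c * T μ ν f Z'
  add : ∀ μ ν f Z K u u', IsCompact K → Adm ![f] → Disjoint K (tsupport f) →
    Z ∈ net.loc (K ∪ tsupport f)ᶜ → C1 K u → C1 K u' →
    T μ ν f (X (u + u') * Z) = T μ ν f (X u * Z) + T μ ν f (X u' * Z)

variable {T T' : Tn} {k : ℕ}

theorem Tx.comb (h : Tx T) (h' : Tx T') (α β : ℂ) :
    Tx fun μ ν f Z => α * T μ ν f Z + β * T' μ ν f Z where
  sym μ ν f Z a := by rw [h.sym μ ν f Z a, h'.sym μ ν f Z a]
  tr f Z a := by simp only [Finset.sum_add_distrib, ← Finset.mul_sum, h.tr f Z a, h'.tr f Z a,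
    mul_zero, add_zero]
  cov g hg f Z a μ ν := by
    simp only [h.cov g hg f Z a μ ν, h'.cov g hg f Z a μ ν, Finset.mul_sum,
      ← Finset.sum_add_distrib, mul_add, mul_left_comm α, mul_left_comm β]
  ti v μ ν f Z a := by rw [h.ti v μ ν f Z a, h'.ti v μ ν f Z a]
  lin μ ν c f f' Z a b := by rw [h.lin μ ν c f f' Z a b, h'.lin μ ν c f f' Z a b]; ring
  linZ μ ν c f Z Z' a b := by rw [h.linZ μ ν c f Z Z' a b, h'.linZ μ ν c f Z Z' a b]; ring
  add μ ν f Z K u u' a b c d e e' := by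
    rw [h.add μ ν f Z K u u' a b c d e e', h'.add μ ν f Z K u u' a b c d e e']
    ring

theorem Tx.zero (h : Tx T) (μ ν : Fin 4) (Z : Pol) (hZ : Z ∈ net.loc univ) : T μ ν 0 Z = 0 := by
  have a : Dt 0 Z := ⟨adm_one.2 ⟨.zero, contDiff_const⟩, by simpa using hZ⟩
  simpa using h.lin μ ν 1 0 0 Z a a

/-- the hypothesis for small supports at separated times -/
def Sp (T : Tn) : Prop := ∀ᶠ e : ℕ in atTop, ∀ f, Cm.Mid (3 ^ e)⁻¹ f →
  ∀ Y ∈ net.loc {y | y 0 < -(2 * (3 ^ e)⁻¹)}, ∀ Z ∈ net.loc (Hs 0 (2 * (3 ^ e)⁻¹)),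
    T 0 0 f (Y * Z) = T 1 1 f (Y * Z)

theorem Tx.near (h : Tx T) (e : Sp T) {δ : ℝ} (δ0 : 0 < δ) : ∃ ε > 0, ∀ (x : R4) f, C1 (ball x ε) f →
    ∀ g : Fin k → R4 → ℝ, Dt f (mon g) → Adm g → (∀ i, tsupport (g i) ⊆ {y | y 0 < x 0 - δ} ∨
      tsupport (g i) ⊆ Hs 0 (x 0 + δ)) → T 0 0 f (mon g) = T 1 1 f (mon g) := by
  classical
  obtain ⟨n, e, hn⟩ := (e.and ((tendsto_inv_atTop_zero.comp (tendsto_pow_atTop_atTop_of_one_lt
    (show (1 : ℝ) < 3 by norm_num))).eventually_le_const (show 0 < δ / 3 by positivity))).exists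
  rw [comp_apply] at hn
  set w : ℝ := (3 ^ n)⁻¹
  have w0 : 0 < w := by positivity
  refine ⟨w / 6, by positivity, fun x f hf g a hg s => ?_⟩
  obtain ⟨L, hL⟩ := hf.2.1.lipschitzWith_of_hasCompactSupport hf.1 one_ne_zero
  obtain ⟨B, hB⟩ := hf.2.1.continuous.bounded_above_of_compact_support hf.1
  have B0 := (norm_nonneg _).trans (hB 0)
  set v := dg (w / 2) - x
  set c : ℝ := (L + B + 1)⁻¹
  have c0 : 0 < c := by positivity
  have c1 : c * (L + B + 1) = 1 := inv_mul_cancel₀ (by positivity)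
  have a' := a.tau v
  have t : ∀ {p : Fin k → Prop} {U : Set R4}, (∀ i, p i → tsupport (g i) ⊆ U) →
      net.τ v (∏ i with p i, X (g i)) ∈ net.loc {y | y - v ∈ U} := fun {p U} hp => by
    rw [Finset.prod_filter]
    refine net.τ_mem v (Lm.prod_mem (U := fun i => if p i then tsupport (g i) else ∅) (fun i => ?_)
      (fun i j e => ?_) fun i => ?_)
    · split_ifs
      · exact PN.Gd.mem ⟨(hg.1 i).1, (hg.1 i).2, le_rfl⟩
      · exact net.one _
    · exact (hg.2 e).mono (by split_ifs <;> simp) (by split_ifs <;> simp)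
    · split_ifs with e
      · exact hp i e
      · exact empty_subset _
  have := e (0 + c • fun y => f (y - v)) ⟨contDiff_const.add ((adm_one.1 a'.1).2.const_smul c),
    LipschitzWith.of_dist_le_mul fun y z => ?_, fun y => ⟨?_, fun hy l => ?_⟩⟩ _
    (net.mono (t (p := fun i => tsupport (g i) ⊆ {y | y 0 < x 0 - δ}) fun _ e => e) fun y hy => ?_) _
    (net.mono (t (p := fun i => ¬tsupport (g i) ⊆ {y | y 0 < x 0 - δ})
      fun i e => (s i).resolve_left e) fun y hy => ?_)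
  · have z : Dt 0 (net.τ v (mon g)) := ⟨adm_one.2 ⟨.zero, contDiff_const⟩, by simpa using a'.adm⟩
    rw [← map_mul, Finset.prod_filter_mul_prod_filter_not, ← mon, h.lin _ _ _ _ _ _ z a',
      h.lin _ _ _ _ _ _ z a', h.zero _ _ _ a'.adm, h.zero _ _ _ a'.adm, h.ti _ _ _ _ _ a,
      h.ti _ _ _ _ _ a] at this
    simpa [c0.ne'] using this
  · have := hL.dist_le_mul (y - v) (z - v)
    simp only [zero_add, Pi.smul_apply, dist_smul₀, dist_sub_right, norm_of_nonneg c0.le] at this ⊢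
    calc _ ≤ c * (L * dist y z) := by gcongr
      _ ≤ _ := by rw [← mul_assoc]; gcongr; push_cast; nlinarith [L.2]
  · have := hB (y - v)
    simp only [zero_add, Pi.smul_apply, smul_eq_mul, abs_mul, abs_of_pos c0]
    nlinarith [L.2, norm_eq_abs (f (y - v))]
  · have := (PiLp.norm_apply_le (y - v - x) l).trans_lt (mem_ball_iff_norm.1
      (hf.2.2 (subset_tsupport _ fun e => hy (by simp [e]))))
    have := abs_lt.1 this
    simp [v] at this
    constructor <;> linarith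
  · simp [v] at hy ⊢
    linarith
  · simp [v, Hs] at hy ⊢
    linarith

theorem quad_zero {A : Fin 4 → Fin 4 → ℂ} (hs : ∀ μ ν, A μ ν = A ν μ) (ht : ∑ μ, A μ μ = 0) {n₀ : R4}
    (h0 : ‖n₀‖ = 1) (h : ∀ᶠ n in 𝓝 n₀, ‖n‖ = 1 → ∀ m : R4, ‖m‖ = 1 → inner ℝ n m = 0 →
      ∑ μ, ∑ ν, (n μ * n ν : ℝ) * A μ ν = ∑ μ, ∑ ν, (m μ * m ν : ℝ) * A μ ν) (μ ν : Fin 4) :
    A μ ν = 0 := by
  set Q : R4 → ℂ := fun n => ∑ μ, ∑ ν, (n μ * n ν : ℝ) * A μ ν
  have h1 : ∀ᶠ n in 𝓝 n₀, ‖n‖ = 1 → Q n = 0 := h.mono fun n e hn => by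
    let G : Iso := (ℝ ∙ (ee 0 - n))ᗮ.reflection
    have g0 : G (ee 0) = n := Submodule.reflection_sub (by simp [hn])
    have : ∑ μ, Q (G (ee μ)) = 0 := by
      simp only [Q]
      rw [Finset.sum_comm, ← ht]
      refine Finset.sum_congr rfl fun i _ => ?_
      rw [Finset.sum_comm]
      simp only [← Finset.sum_mul, ← Complex.ofReal_sum, orth]
      simp [apply_ite Complex.ofReal]
    have q : ∀ l : Fin 3, Q (G (ee l.succ)) = Q n := fun l => (e hn _ (by simp)
      (by rw [← g0, G.inner_map_map]; simp [EuclideanSpace.inner_single_left, l.succ_ne_zero.symm])).symm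
    rw [Fin.sum_univ_succ] at this
    simp only [q, g0, Finset.sum_const, Finset.card_univ, Fintype.card_fin, nsmul_eq_mul] at this
    push_cast at this
    linear_combination this / 4
  have h2 : ∀ᶠ n in 𝓝 n₀, Q n = 0 := by
    have c : ContinuousAt (fun n : R4 => ‖n‖⁻¹ • n) n₀ :=
      (continuous_norm.continuousAt.inv₀ (by simp [h0])).smul continuousAt_id
    rw [ContinuousAt, h0, inv_one, one_smul] at c
    filter_upwards [c.eventually h1, eventually_ne_nhds (a := n₀) (b := 0)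
      (norm_ne_zero_iff.1 (by simp [h0]))] with n e n0
    have := e (norm_smul_inv_norm n0)
    simp only [Q, PiLp.smul_apply, smul_eq_mul, mul_mul_mul_comm _ (n _), Complex.ofReal_mul (_ * _),
      mul_assoc ((_ * _ : ℝ) : ℂ), ← Finset.mul_sum] at this
    simpa [n0, Q] using this
  refine St.pol ⊥ hs (fun v _ => ?_) μ ν
  have t : ∀ s : ℝ, Tendsto (fun t : ℝ => n₀ + (s * t) • v) (𝓝[>] 0) (𝓝 n₀) := fun s =>
    tendsto_nhdsWithin_of_tendsto_nhds (Continuous.tendsto' (by fun_prop) _ _ (by simp))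
  obtain ⟨t, ⟨e1, e2⟩, t0⟩ := ((((t 1).eventually h2).and ((t (-1)).eventually h2)).and
    self_mem_nhdsWithin).exists
  have e3 := h2.self_of_nhds
  have t1 : (t : ℂ) ≠ 0 := Complex.ofReal_ne_zero.2 (ne_of_gt t0)
  refine mul_left_cancel₀ (a := 2 * (t : ℂ) ^ 2) (by simp [t1]) ?_
  simp only [Q, Fin.sum_univ_four, PiLp.add_apply, PiLp.smul_apply, smul_eq_mul] at e1 e2 e3 ⊢
  push_cast at e1 e2 e3 ⊢
  linear_combination e1 + e2 - 2 * e3

theorem Tx.loc (h : Tx T) (e : Sp T) {y : Fin (k + 1) → R4} (hy : Injective y) : ∃ ε > 0,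
    ∀ F : Fin (k + 1) → R4 → ℝ, (∀ i, C1 (ball (y i) ε) (F i)) → Adm F →
      ∀ μ ν, T μ ν (F 0) (mon (Fin.tail F)) = 0 := by
  obtain ⟨R, -, r⟩ := Lm.exists_sep hy
  have i0 : ∀ (G : Iso) (u : R4), G.symm u 0 = inner ℝ (G (ee 0)) u := fun G u => by
    rw [← G.symm.inner_map_map, G.symm_apply_apply]
    simp [EuclideanSpace.inner_single_left]
  obtain ⟨δ, d1, δ0⟩ := ((eventually_all.2 fun i : Fin k => (show Tendsto (fun δ : ℝ => 2 * δ)
    (𝓝[>] 0) (𝓝 0) from tendsto_nhdsWithin_of_tendsto_nhds (Continuous.tendsto' (by fun_prop) _ _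
      (by simp))).eventually_lt_const (abs_pos.2 (sub_ne_zero.2 (r.ne i.succ_ne_zero)))).and
        self_mem_nhdsWithin).exists
  obtain ⟨ε, ε0, hε⟩ := h.near (k := k) e δ0
  refine ⟨min ε δ, lt_min ε0 δ0, fun F hF a => ?_⟩
  have d : Dt (F 0) (mon (Fin.tail F)) := dt_of (by rwa [Fin.cons_self_tail])
  refine quad_zero (n₀ := R.symm (ee 0)) (fun μ ν => h.sym μ ν _ _ d) (h.tr _ _ d) (by simp) ?_
  filter_upwards [eventually_all.2 fun i : Fin k => (show ContinuousAt (fun n : R4 =>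
    |inner ℝ n (y i.succ - y 0)|) _ by fun_prop).eventually_const_lt (u := 2 * δ) (by
      beta_reduce
      rw [← i0 R.symm]
      simpa using d1 i)] with n s hn m hm o
  obtain ⟨G, g1, rfl, rfl⟩ := exists_rot hn hm o
  have b : ∀ i, ∀ u ∈ tsupport fun u => F i (G u), u ∈ ball (G.symm (y i)) (min ε δ) := fun i u hu => by
    rw [mem_ball, ← G.dist_map, G.apply_symm_apply]
    exact (hF i).2.2 (tsupport_comp G.continuous hu)
  have a' := a.comp G.toHomeomorph G.contDiff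
  have d' : Dt (fun u => F 0 (G u)) (mon fun i u => F i.succ (G u)) :=
    dt_of (by convert a' using 1; exact funext fun i => by cases i using Fin.cases <;> rfl)
  have := hε (G.symm (y 0)) (fun u => F 0 (G u)) ⟨(a'.1 0).1, (a'.1 0).2, fun u hu =>
    ball_subset_ball (min_le_left _ _) (b 0 u hu)⟩ _ d'
    ⟨fun i => a'.1 i.succ, fun i j e => a'.2 ((Fin.succ_injective _).ne e)⟩ fun i => ?_
  · rw [h.cov G g1 _ _ d', h.cov G g1 _ _ d'] at this
    simpa only [Ro.act_mon, G.apply_symm_apply] using! this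
  have c : ∀ u ∈ tsupport fun u => F i.succ (G u), |u 0 - G.symm (y i.succ) 0| < δ := fun u hu =>
    (PiLp.norm_apply_le (u - G.symm (y i.succ)) 0).trans_lt
      ((mem_ball_iff_norm.1 (b _ u hu)).trans_le (min_le_right _ _))
  have := s i
  rw [← i0, map_sub, PiLp.sub_apply, lt_abs] at this
  exact this.symm.imp (fun e u hu => by
    have := abs_lt.1 (c u hu)
    change (_ : ℝ) < _
    linarith) fun e u hu => by
    have := abs_lt.1 (c u hu)
    change (_ : ℝ) < _
    linarith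

theorem Tx.ext (h : Tx T) (e : Sp T) {f : R4 → ℝ} {Z : Pol} (a : Dt f Z) (μ ν : Fin 4) :
    T μ ν f Z = 0 := by
  classical
  have key : ∀ k (F : Fin (k + 1) → R4 → ℝ), Adm F → T μ ν (F 0) (mon (Fin.tail F)) = 0 :=
    fun k F hF => by
    have ad : ∀ g : Fin (k + 1) → R4 → ℝ, (∀ m, C1 (tsupport (F m)) (g m)) → Adm g := fun g hg =>
      ⟨fun m => ⟨(hg m).1, (hg m).2.1⟩, fun i j e => (hF.2 e).mono (hg i).2.2 (hg j).2.2⟩
    have up : ∀ (g : Fin (k + 1) → R4 → ℝ) i u, (∀ m, C1 (tsupport (F m)) (g m)) →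
        C1 (tsupport (F i)) u → Adm (update g i u) := fun g i u hg hu => ad _ fun m => by
      by_cases e : m = i
      · rwa [e, update_self]
      · rw [update_of_ne e]
        exact hg m
    have ad2 : ∀ (g : Fin (k + 1) → R4 → ℝ) i u u', (∀ m, C1 (tsupport (F m)) (g m)) →
        C1 (tsupport (F i)) u → C1 (tsupport (F i)) u' →
        T μ ν (update g i (u + u') 0) (mon (Fin.tail (update g i (u + u')))) =
          T μ ν (update g i u 0) (mon (Fin.tail (update g i u))) +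
            T μ ν (update g i u' 0) (mon (Fin.tail (update g i u'))) := fun g i u u' hg a b => by
      cases i using Fin.cases with
      | zero =>
        have d : ∀ {u}, C1 (tsupport (F 0)) u → Dt u (mon (Fin.tail g)) := fun a =>
          dt_of (by
            have := up g 0 _ hg a
            rwa [← Fin.cons_self_tail g, Fin.update_cons_zero] at this)
        simpa using h.lin μ ν 1 u u' _ (d a) (d b)
      | succ i =>
        have m : ∀ u, mon (update (Fin.tail g) i u) =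
            X u * ∏ j ∈ Finset.univ.erase i, X (Fin.tail g j) := fun u => by
          rw [mon, ← Finset.mul_prod_erase _ _ (Finset.mem_univ i), update_self]
          exact congrArg _ (Finset.prod_congr rfl fun m hm => by
            rw [update_of_ne (Finset.ne_of_mem_erase hm)])
        simp only [Fin.tail_update_succ, update_of_ne i.succ_ne_zero.symm, m]
        refine h.add μ ν _ _ _ u u' (hF.1 _).1 (adm_one.2 ⟨(hg 0).1, (hg 0).2.1⟩)
          ((hF.2 i.succ_ne_zero).mono_right (hg 0).2.2) ?_ a b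
        rw [← Finset.filter_ne', Finset.prod_filter]
        refine Lm.prod_mem (U := fun j => if j ≠ i then tsupport (g j.succ) else ∅) (fun j => ?_)
          (fun i j e => ((ad g hg).2 ((Fin.succ_injective _).ne e)).mono (by split_ifs <;> simp)
            (by split_ifs <;> simp)) fun j => ?_
        · split_ifs
          · exact PN.Gd.mem ⟨(hg _).1, (hg _).2.1, le_rfl⟩
          · exact net.one _
        · split_ifs with e
          · exact (disjoint_union_right.2 ⟨(hF.2 ((Fin.succ_injective _).ne e)).mono_left (hg _).2.2,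
              (ad g hg).2 j.succ_ne_zero⟩).subset_compl_right
          · exact empty_subset _
    refine Lm.pun (P := fun g => Adm g → T μ ν (g 0) (mon (Fin.tail g)) = 0)
      (O := fun i => tsupport (F i)) (fun i => (hF.1 i).1) (fun g i hg _ => ?_)
      (fun g i u u' hg a b e e' _ => ?_) (fun y hy => ?_)
      (fun i => ⟨(hF.1 i).1, (hF.1 i).2, le_rfl⟩) hF
    · simpa using ad2 g i 0 0 hg (PN.Gd.zero _) (PN.Gd.zero _)
    · rw [ad2 g i u u' hg a b, e (up g i u hg a), e' (up g i u' hg b), add_zero]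
    · obtain ⟨ε, ε0, e⟩ := h.loc e (y := y) fun i j e => by_contra fun c =>
        Set.disjoint_left.1 (hF.2 c) (hy i trivial) (e ▸ hy j trivial)
      exact ⟨ε, ε0, fun g hg a => e g hg a μ ν⟩
  obtain ⟨m, c, k, g, g1, rfl⟩ := a.sum
  have z : Dt f 0 := ⟨a.1, Submodule.zero_mem _⟩
  have z0 : T μ ν f 0 = 0 := by simpa using h.linZ μ ν 1 f 0 0 z z
  refine (Finset.sum_induction _ (fun Z => Dt f Z ∧ T μ ν f Z = 0) (fun Y Z hY hZ =>
    ⟨⟨a.1, Submodule.add_mem _ hY.1.2 hZ.1.2⟩, by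
      simpa [hY.2, hZ.2] using h.linZ μ ν 1 f Y Z hY.1 hZ.1⟩) ⟨z, z0⟩ fun i _ =>
    ⟨⟨a.1, Submodule.smul_mem _ _ (dt_of (g1 i)).2⟩, ?_⟩).2
  have := key _ _ (g1 i)
  rw [Fin.cons_zero, Fin.tail_cons] at this
  simpa [z0, this] using h.linZ μ ν (c i) f 0 _ z (dt_of (g1 i))

end Pool.Agent.Lib.MP_7f377f_mp.Ope
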