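import Pool.Agent.Lib.MP_7f377f_mp.G.YFc
import Pool.Agent.Lib.MP_7f377f_mp.G.LmF
import Pool.Agent.Lib.MP_7f377f_mp.G.WvLab2
import Pool.Agent.Lib.MP_7f377f_mp.Lb3

/-! The tensor field and the field with a tensor label are covariant insertions. -/

noncomputable section

namespace Pool.Agent.Lib.MP_7f377f_mp.Ope
variable [Pool.Agent.Lib.MP_7f377f_mp.GD]
set_option linter.unusedSectionVars false

open Filter Topology Set Real YM7 Pur MvPolynomial Metric Lg Lg.PI Function Matrix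
open Wm (C1)
open Ro (Iso act)
open Lb (Lab c0 rho)
open Lm (emb PolL Outl netL emb_mem gen_netL)
open scoped Kronecker

theorem Out.tx {S W : Pol →ₗ[ℂ] ℂ} {h₀ : R4 → ℝ} {D M : ℝ → ℝ} {κ : (R4 → ℝ) → ℝ} {F : Fr}
    {T : (Pol →ₗ[ℂ] ℂ) → Tn} (o : Out S D κ F M T) (rd : Rd h₀) (ne : κ h₀ ≠ 0) (s : Sub S W)
    (hW : Inp W) : Tx (T W) := by
  have k0 : (κ h₀ : ℂ) ≠ 0 := Complex.ofReal_ne_zero.2 ne
  obtain ⟨c, -, hc⟩ := o.ope h₀ rd
  refine ⟨fun μ ν f Z _ => o.sym W μ ν f Z, o.tr W s, fun g hg => o.cov W s g (rot_iff.1 s.rot g hg),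
    fun v μ ν f Z a => sub_eq_zero.1 (St.pol ⊥ (A := fun μ ν =>
      T W μ ν (fun y => f (y - v)) (net.τ v Z) - T W μ ν f Z)
      (fun μ ν => by simp only [o.sym W μ ν]) (fun n hn => ?_) μ ν), o.lin W s, o.linZ W s,
    fun μ ν f Z K u u' hK hf hO hZ a b => (?_ : _ → _) ((St.pol (St.DisS K)
      (A := fun μ ν g => T W μ ν f (X g * Z)) (fun μ ν => by simp only [o.sym W μ ν])
      (fun n hn => ?_) μ ν).lin u u' 1 a b)⟩
  · have := tendsto_nhds_unique ((hc W s n hn _ _ (a.tau v)).congr' (a.sm.mono fun d hd => by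
      rw [hd.ti (rd.pb hn) hW.st, ← τ_X, cv_tau hW.st a.X a.2])) (hc W s n hn f Z a)
    simp only [smul_eq_mul, mul_sub, Finset.sum_sub_distrib, mul_left_cancel₀ k0 this, sub_self,
      Submodule.zero_mem]
  · simp
  · refine St.Dis.congr ((St.DisS K).smul_mem (κ h₀ : ℂ)⁻¹ (St.Dis.lim hK
      ((dis_Ai hW hK hf hO hZ (rd.pb hn)).mono fun d hd => St.Dis.congr
        ((St.DisS K).sub_mem ((St.DisS K).smul_mem (M d) hd) ((St.DisS K).smul_mem (c d)
          (dis_cv hW hK hO (Dt.X ⟨hf, net.one _⟩) hZ))) fun _ _ => rfl)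
      fun g hg => hc W s n hn f _ (dt_mul hf hO hZ hg))) fun g _ => ?_
    simp only [Finset.sum_apply, Pi.smul_apply, smul_eq_mul, inv_mul_cancel_left₀ k0]

/-- the traceless tensor labels -/
def tl (μ ν : Fin 4) : Lab ℂ :=
  (single μ ν 1 + single ν μ 1 - if μ = ν then (2⁻¹ : ℂ) • 1 else 0) ⊗ₖ (1 : Matrix _ _ ℂ)

theorem tl_sym (μ ν : Fin 4) : tl μ ν = tl ν μ := by simp only [tl, add_comm, eq_comm]

theorem tl_tr : ∑ μ, tl μ μ = 0 := by
  ext ⟨i, j⟩ ⟨k, l⟩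
  simp only [tl, Matrix.sum_apply, kroneckerMap_apply, ← Finset.sum_mul, if_true]
  fin_cases i <;> fin_cases k <;> simp [Fin.sum_univ_four] <;> norm_num

theorem tl_rot (g : Iso) (μ ν : Fin 4) : Wv.rE rho g (tl μ ν) =
    ∑ i, ∑ j, ((g (ee μ) i * g (ee ν) j : ℝ) : ℂ) • tl i j := by
  have o := Wv.mat_orth g
  rw [Wv.rE, rho, tl, ← kroneckerMap_transpose, ← mul_kronecker_mul, ← mul_kronecker_mul,
    Matrix.mul_one, o]
  have q : ∑ i, ((g (ee μ) i * g (ee ν) i : ℝ) : ℂ) = if μ = ν then 1 else 0 := by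
    have := g.inner_map_map (ee ν) (ee μ)
    rw [PiLp.inner_apply, EuclideanSpace.inner_single_left] at this
    simpa [apply_ite Complex.ofReal, Pi.single_apply, eq_comm] using congrArg Complex.ofReal this
  ext ⟨a, b⟩ ⟨c, d⟩
  simp only [tl, Matrix.sum_apply, Matrix.smul_apply, kroneckerMap_apply, smul_eq_mul, ← mul_assoc,
    ← Finset.sum_mul, mul_ite, ite_mul, Matrix.mul_smul,
    Matrix.smul_mul, Matrix.mul_one, o, Matrix.mul_zero, Matrix.zero_mul, Matrix.sub_apply, mul_sub,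
    Finset.sum_sub_distrib, Matrix.sub_mul]
  congr 2
  · simp [Matrix.mul_apply, single_apply, ite_and, Wv.mat, mul_add, add_mul, Finset.sum_add_distrib,
      mul_comm]
  · simp only [apply_ite fun M : Matrix (Fin 4) (Fin 4) ℂ => M a c, Matrix.zero_apply, mul_ite,
      mul_zero, Finset.sum_ite_eq, Finset.mem_univ, if_true, ← Finset.sum_mul, q, ite_mul, one_mul,
      zero_mul]

/-- the insertion of the field with the label `c` -/
def cl (W' : PolL (Lab ℂ) →ₗ[ℂ] ℂ) (c : Lab ℂ) (f : R4 → ℝ) (Z : Pol) : ℂ :=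
  W' (X (c, f) * emb c0 Z) - W' (X (c, f)) * W' (emb c0 Z)

variable {ι H : Type} [NormedAddCommGroup H] [InnerProductSpace ℂ H] [CompleteSpace H]
  {W : Pol →ₗ[ℂ] ℂ} {K : ℝ} {l : Filter ι} {r : net.Rep W 0 H} {κ : ι → PolL (Lab ℂ) →ₐ[ℂ] Pol}
  {θ : Fin 4 → Lab ℂ → Lab ℂ} {hθ : Lm.Inv4 θ} {W' : PolL (Lab ℂ) →ₗ[ℂ] ℂ} {r' : (netL hθ).Rep W' 0 H}
  (o : Outl W r K (Wv.rE rho) l (netL hθ) (fun c f => X (c, f)) κ W' r')
  {f : R4 → ℝ} {Z : Pol}
include o

theorem cl_lin (a : Dt f Z) : IsLinearMap ℂ fun c => cl W' c f Z := by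
  have c : C1 univ f := ⟨(adm_one.1 a.1).1, (adm_one.1 a.1).2, subset_univ _⟩
  have e : ∀ (t : ℂ) b b', cl W' (t • b + b') f Z = t * cl W' b f Z + cl W' b' f Z := fun t b b' => by
    have := o.linc t b b' f c 1 (Net.one _ _)
    simp only [mul_one] at this
    rw [cl, this, o.linc t b b' f c _ (emb_mem _ c0 a.2), cl, cl]
    ring
  have z : cl W' 0 f Z = 0 := by simpa using e 1 0 0
  exact ⟨fun b b' => by simpa using e 1 b b', fun t b => by simpa [z] using e t b 0⟩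

theorem cl_rot {g : Iso} (hg : dt g = 1) (c : Lab ℂ) (a : Dt f Z) :
    cl W' (Wv.rE rho g c) (fun y => f (g.symm y)) (act g Z) = cl W' c f Z := by
  have e1 := o.rot g hg 1 (fun _ => c) ![f] a.1
  simp only [Fin.prod_univ_one, Matrix.cons_val_zero] at e1
  obtain ⟨m, t, k, u, u1, rfl⟩ := a.sum
  have e2 := fun i => o.rot g hg _ (Fin.cons c fun _ => c0) _ (u1 i)
  have e3 := fun i => o.rot g hg _ (fun _ => c0) (u i) ⟨fun j => (u1 i).1 j.succ,
    fun _ _ e => (u1 i).2 ((Fin.succ_injective _).ne e)⟩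
  simp only [Fin.prod_univ_succ, Fin.cons_zero, Fin.cons_succ, Wv.rE_c0] at e2 e3
  simp only [cl, e1, map_sum, map_smul, Finset.mul_sum, mul_smul_comm, Ro.act_mon]
  simp only [emb, mon, map_prod, rename_X, e2, e3]

theorem tx_lab : Tx fun μ ν => cl W' (tl μ ν) := by
  have m : ∀ {U g} c, C1 U g → X (c, g) ∈ (netL hθ).loc U := fun c h =>
    (gen_netL _).mem h c
  have c1 : ∀ {f Z}, Dt f Z → C1 (tsupport f) f := fun a =>
    ⟨(adm_one.1 a.1).1, (adm_one.1 a.1).2, le_rfl⟩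
  have un : ∀ {U g}, C1 U g → C1 univ g := fun a => ⟨a.1, a.2.1, subset_univ _⟩
  refine ⟨fun μ ν f Z _ => by rw [tl_sym], fun f Z a => ?_, fun g hg f Z a μ ν => ?_,
    fun v μ ν f Z a => ?_, fun μ ν c f f' Z a b => ?_, fun μ ν c f Z Z' _ _ => ?_,
    fun μ ν f Z K u u' hK hf hO hZ a b => ?_⟩
  · exact (map_sum ((cl_lin o a).mk' _) (fun μ => tl μ μ) Finset.univ).symm.trans
      (by rw [tl_tr, map_zero])
  · rw [← cl_rot o hg _ a, tl_rot]
    change (cl_lin o (a.act g)).mk' _ _ = _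
    simp only [map_sum, map_smul, IsLinearMap.mk'_apply, smul_eq_mul]
  · have e : emb (c0 : Lab ℂ) (net.τ v Z) = (netL hθ).τ v (emb c0 Z) := by
      simp only [emb, net, netL, Lm.gen, rename_rename, Function.comp_def]
    rw [cl, e, ← (gen_netL hθ).tau, ← map_mul,
      o.st.ti _ (Net.adm (Net.mul _ (m _ (c1 a)) (emb_mem _ c0 a.2) disjoint_compl_right)),
      o.st.ti _ (Net.adm (m _ (c1 a))), o.st.ti _ (emb_mem _ c0 a.adm), cl]
  · have := o.lin (tl μ ν) f f' c (un (c1 a)) (un (c1 b)) 1 (Net.one _ _)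
    simp only [mul_one] at this
    rw [cl, this, o.lin (tl μ ν) f f' c (un (c1 a)) (un (c1 b)) _
      (emb_mem _ c0 (compl_union _ _ ▸ loc_inter a.2 b.2)), cl, cl]
    ring
  · simp only [cl, map_add, map_smul, mul_add, mul_smul_comm, smul_eq_mul]
    ring
  · have s : (K ∪ tsupport f)ᶜ ⊆ (tsupport u ∪ tsupport u')ᶜ :=
      compl_subset_compl.2 ((union_subset a.2.2 b.2.2).trans subset_union_left)
    have e1 := o.lin c0 u u' 1 (un a) (un b) _ (emb_mem _ c0 (net.mono hZ s))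
    have e2 := o.lin c0 u u' 1 (un a) (un b) _ (Net.mono _ (Net.mul _
      (m (tl μ ν) (c1 ⟨hf, net.one _⟩)) (emb_mem _ c0 hZ)
      (disjoint_compl_right.mono_left subset_union_right)) (union_subset
        (hO.mono_left (union_subset a.2.2 b.2.2)).subset_compl_left s))
    simp only [one_smul, Complex.ofReal_one, one_mul] at e1 e2
    simp only [cl, map_mul, emb, rename_X, mul_left_comm (X (tl μ ν, f))] at e1 e2 ⊢
    rw [e1, e2]
    ring

end Pool.Agent.Lib.MP_7f377f_mp.Ope
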