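import Pool.Agent.Lib.MP_7f377f_mp.G.YFd
import Pool.Agent.Lib.MP_7f377f_mp.G.CmN

/-! A linear relation between the tensor field and the field with a tensor label. -/

noncomputable section

namespace Pool.Agent.Lib.MP_7f377f_mp.Cm
variable [Pool.Agent.Lib.MP_7f377f_mp.GD]
set_option linter.unusedSectionVars false

open Filter Topology Set Real YM7 Pur MvPolynomial Lg Metric
open Ope (gp ctr cv Rd hn Dt Ai Yr ee Out Sub Tn Fr)
open Ro (Iso act)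
open Wm (C1 e0)
open Lb (Lab Cl pc)
open RG.Q4.En.Ty (T3 det3 sb)

theorem rel_lim {ι : Type} (l : Filter ι) [l.NeBot] {c c' A B : ι → ℝ} (h : ∀ j, |c j| + |c' j| = 1)
    (h0 : ∀ᶠ j in l, A j ≠ 0 ∧ B j ≠ 0) : ∃ α β : ℝ, (α, β) ≠ 0 ∧ ∀ (u v : ι → ℂ) (x y : ℂ),
      Tendsto (fun j => A j * u j) l (𝓝 x) → Tendsto (fun j => B j * v j) l (𝓝 y) →
      Tendsto (fun j => (|A j| + |B j|) * ‖c j * u j + c' j * v j‖) l (𝓝 0) → α * x + β * y = 0 := by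
  let p : ι → ℝ × ℝ := fun j => (c j / A j, c' j / B j)
  have p1 : ∀ᶠ j in l, 1 ≤ ‖p j‖ * (|A j| + |B j|) := h0.mono fun j e => by
    rw [← h j, ← div_mul_cancel₀ (c j) e.1, ← div_mul_cancel₀ (c' j) e.2, abs_mul, abs_mul, mul_add]
    gcongr
    exacts [norm_fst_le (p j), norm_snd_le (p j)]
  have p0 : ∀ᶠ j in l, p j ≠ 0 := p1.mono fun j e z => by norm_num [z] at e
  obtain ⟨z, z1, hz⟩ := (isCompact_sphere (0 : ℝ × ℝ) 1).ultrafilter_le_nhds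
    ((Ultrafilter.of l).map fun j => ‖p j‖⁻¹ • p j) (le_principal_iff.2 (mem_map.2
      (Ultrafilter.of_le l (p0.mono fun j e => by simp [norm_smul, e]))))
  refine ⟨z.1, z.2, by rintro (e : z = 0); simp [e] at z1, fun u v x y h1 h2 h3 => ?_⟩
  have t : ∀ g : ℝ × ℝ → ℝ, Continuous g → Tendsto (fun j => (g (‖p j‖⁻¹ • p j) : ℂ))
      (Ultrafilter.of l) (𝓝 (g z)) := fun g hg =>
    ((Complex.continuous_ofReal.comp hg).tendsto _).comp hz
  refine tendsto_nhds_unique (((t _ continuous_fst).mul (h1.mono_left (Ultrafilter.of_le l))).add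
    ((t _ continuous_snd).mul (h2.mono_left (Ultrafilter.of_le l))))
    ((squeeze_zero_norm' ?_ h3).mono_left (Ultrafilter.of_le l))
  filter_upwards [h0, p0, p1] with j e e0 e1
  have a : (A j : ℂ) ≠ 0 := Complex.ofReal_ne_zero.2 e.1
  have b : (B j : ℂ) ≠ 0 := Complex.ofReal_ne_zero.2 e.2
  have n := norm_pos_iff.2 e0
  rw [show _ + _ = ((‖p j‖⁻¹ : ℝ) : ℂ) * (c j * u j + c' j * v j) by
    simp only [Prod.smul_fst, Prod.smul_snd, smul_eq_mul, p]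
    push_cast
    field_simp, norm_mul, Complex.norm_real, norm_inv, norm_norm]
  gcongr
  rwa [inv_le_iff_one_le_mul₀' n]

theorem far {H : Type} [NormedAddCommGroup H] [InnerProductSpace ℂ H] [CompleteSpace H]
    {W : Pol →ₗ[ℂ] ℂ} (hS : net.St W) (r : net.Rep W 0 H)
    (hD : ∀ R : ℝ, Dense {y | ∃ b ∈ net.loc (Ot 0), r.Ψ (net.τ (R • Wm.B1.nn) b) = y}) {R : ℝ}
    {Y Z : Pol} (hY : Y ∈ net.loc {y | y 0 < -R}) (hZ : Z ∈ net.loc (Hs 0 R)) :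
    ∃ B, ∀ X η, net.QB W X R η → ‖cv W X (Y * Z)‖ ≤ B * η := by
  have y : net.Θ 0 (net.τ (R • e0) Y) ∈ net.loc (Hs 0 0) :=
    net.mono (net.Θ_mem 0 (net.τ_mem _ hY)) fun y hy => by
      simp [Hs, e0] at hy ⊢
      linarith
  have z : net.τ (-(R • e0)) Z ∈ net.loc (Hs 0 0) := Net.τ_hs hZ (by simp [e0])
  refine ⟨‖r.Ψ (net.Θ 0 (net.τ (R • e0) Y))‖ * ‖r.Ψ (net.τ (-(R • e0)) Z)‖ + ‖W (Y * Z)‖,
    fun X η e => (norm_sub_le _ _).trans ?_⟩
  have m := Wm.B1.mem e.2.1 e.1 z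
  have a := r.inn y m
  have o : Wm.B1.Op r R X (r.Ψ (net.τ (-(R • e0)) Z)) = r.Ψ (net.τ (R • e0) X *
    net.τ ((2 * R) • e0) (net.τ (-(R • e0)) Z)) := Wm.B1.Op_eq r hS (hD _) e ⟨_, z⟩
  have d := Net.τ_adm (-(R • e0)) (Net.rp_adm y m)
  rw [← o, net.Θ_Θ, net.τ_τ, show (2 * R) • e0 + -(R • e0) = R • e0 by module, ← map_mul,
    ← map_mul, mul_left_comm] at a
  rw [net.Θ_Θ, net.τ_τ, show (2 * R) • e0 + -(R • e0) = R • e0 by module, ← map_mul, ← map_mul,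
    net.τ_τ, neg_add_cancel, net.τ_zero, mul_left_comm] at d
  rw [hS.ti _ d] at a
  rw [← a, add_mul, norm_mul, mul_comm ‖W X‖, mul_assoc, mul_comm _ η]
  gcongr
  · exact (norm_inner_le_norm _ _).trans (mul_le_mul_of_nonneg_left
      (ContinuousLinearMap.le_of_opNorm_le _ (Wm.B1.Op_le r hS (hD _) e) _) (norm_nonneg _))
  · exact hS.bound e

theorem Tw.mono {m : ℕ} {Λ δ Λ' δ' : ℝ} {u : Fin m → R4 → ℝ} (h : Tw Λ δ u) (h1 : Λ ≤ Λ')
    (h2 : δ' ≤ δ) (h3 : 0 < δ') : Tw Λ' δ' u :=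
  let ⟨x, y, z⟩ := h
  ⟨x, ⟨y.one.trans h1, h3, fun i v e l => (y.cube i v e l).trans h1, fun i v => (y.bd i v).trans h1,
    fun i v w => (y.lip i v w).trans (mul_le_mul_of_nonneg_right h1 dist_nonneg),
    fun i j e v w a b => (y.sep i j e v w a b).imp fun _ => h2.trans⟩, z⟩

theorem Wo.mono {m : ℕ} {Λ δ Λ' δ' : ℝ} {A : Pol} (h : Wo m Λ δ A) (h1 : Λ ≤ Λ') (h2 : δ' ≤ δ)
    (h3 : 0 < δ') : Wo m Λ' δ' A :=
  let ⟨ι, s, c, u, a, b, e⟩ := h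
  ⟨ι, s, c, u, a, fun i hi => (b i hi).mono h1 h2 h3, e⟩

/-- the pair in the direction `n` -/
def Pr (h : R4 → ℝ) (n : R4) : Pol := mon ![hn h n, fun y => hn h n (-y)]

variable {h₀ : R4 → ℝ}

theorem Pr_act (rd : Rd h₀) (R : Iso) (n : R4) : act R (Pr h₀ n) = Pr h₀ (R n) := by
  have : ∀ y, hn h₀ n (R.symm y) = hn h₀ (R n) y := fun y =>
    rd.2.2 _ _ (by rw [← R.norm_map, map_sub, R.apply_symm_apply])
  simp [Pr, mon, Fin.prod_univ_two, Ro.act_X, this, ← map_neg]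

theorem Pr_neg (rd : Rd h₀) (n : R4) : Pr h₀ (-n) = Pr h₀ n := by
  have : ∀ y, hn h₀ (-n) y = hn h₀ n (-y) := fun y =>
    rd.2.2 _ _ (by rw [← norm_neg, neg_sub', neg_neg])
  simp [Pr, mon, Fin.prod_univ_two, funext this, mul_comm]

theorem Pr_Yl (n : R4) (d : ℝ) (e : ℕ) (f : R4 → ℝ) : Yl (Pr h₀ n) d e f = Yr (hn h₀ n) d e f := by
  simp only [Yl, Yr, Pr, sh_mon, Ope.pr_eq]

theorem Pr_wo (rd : Rd h₀) {n : R4} (h1 : ‖n‖ = 1) :
    ∃ Λ δ, Tw Λ δ ![hn h₀ n, fun y => hn h₀ n (-y)] := by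
  obtain ⟨Λ, δ, e⟩ := (rd.pb h1).1.tf
  have s : ∀ y z, hn h₀ n y ≠ 0 → hn h₀ n z ≠ 0 → ∀ l, |y l - z l| ≤ 2 := fun y z a b l => by
    have a := mem_ball_zero_iff.1 (rd.2.1 (subset_tsupport _ a))
    have b := mem_ball_zero_iff.1 (rd.2.1 (subset_tsupport _ b))
    have := (PiLp.norm_apply_le (y - z) l).trans (norm_sub_le_norm_sub_add_norm_sub y n z)
    rw [norm_sub_rev n] at this
    simp at this
    linarith
  refine ⟨Λ, δ, (rd.pb h1).1, e, fun i => ?_⟩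
  fin_cases i
  · exact s
  · exact fun y z a b l => by simpa [abs_sub_comm, ← sub_eq_neg_add] using s _ _ a b l

/-- the reference word -/
def P3 (h : R4 → ℝ) : Pol := ((2⁻¹ : ℝ) : ℂ) • Pr h (ee 0) + ((-2⁻¹ : ℝ) : ℂ) • Pr h (ee 1)

theorem P3_wo (rd : Rd h₀) : ∃ Λ, ∃ δ > 0, Wo 2 Λ δ (P3 h₀) := by
  obtain ⟨Λ, δ, a⟩ := Pr_wo rd (n := ee 0) (by simp)
  obtain ⟨Λ', δ', b⟩ := Pr_wo rd (n := ee 1) (by simp)
  have d := lt_min a.2.1.pos b.2.1.pos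
  refine ⟨max Λ Λ', _, d, Bool, Finset.univ, fun b => cond b 2⁻¹ (-2⁻¹), fun b =>
    ![hn h₀ (ee (cond b 0 1)), fun y => hn h₀ (ee (cond b 0 1)) (-y)], by norm_num [abs_of_pos],
    fun c _ => ?_, by rw [Fintype.sum_bool]; rfl⟩
  cases c
  exacts [b.mono (le_max_right _ _) (min_le_right _ _) d, a.mono (le_max_left _ _) (min_le_left _ _) d]

theorem P3_typ (rd : Rd h₀) : Typ T3 (P3 h₀) := by
  have r : ∀ μ ν, Pr h₀ (rfL μ (ee ν)) = Pr h₀ (ee ν) := fun μ ν => by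
    by_cases e : μ = ν
    · rw [← Pr_neg rd, rfL_eq, e, rf_ax]
      exact congrArg _ (by ext l; by_cases l = ν <;> simp [*])
    · exact congrArg _ (by ext l; by_cases l = μ <;> simp [rfL_eq, rf, Pi.single_apply, *])
  have p : ∀ σ ν, Ro.prm σ (ee ν) = ee (σ ν) := fun σ ν => by
    ext l
    simp [Ro.prm_apply, Equiv.symm_apply_eq]
  intro g hg
  simp only [P3, map_add, map_smul, Pr_act rd]
  simp only [T3, RG.Q4.En.Ty.rf, RG.Q4.En.Ty.sw, List.cons_append, List.nil_append, List.mem_cons,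
    List.not_mem_nil, or_false] at hg
  rcases hg with rfl | rfl | rfl | rfl | rfl | rfl <;> simp [gi, r, p, sb, Equiv.swap_apply_def]
  abel

variable {S W : Pol →ₗ[ℂ] ℂ} {w Λ δ : ℝ} {h : R4 → ℝ} {ω : ∀ l : Cl, (Fin l.m → R4) → Lab ℝ}
  {D M : ℝ → ℝ} {κ : (R4 → ℝ) → ℝ} {F : Fr} {T : (Pol →ₗ[ℂ] ℂ) → Tn}

theorem p3_lim (o : Out S D κ F M T) (rd : Rd h₀) (s : Sub S W) (hW : Inp W) {f : R4 → ℝ} {Z : Pol}
    (a : Dt f Z) : Tendsto (fun j : ℕ × ℕ => (2 * M (dn j.1) : ℝ) *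
      cv W (Yl (P3 h₀) (dn j.1) j.2 f) Z) (atTop.curry UU)
      (𝓝 (κ h₀ * (T W 0 0 f Z - T W 1 1 f Z))) := by
  obtain ⟨c, -, hc⟩ := o.ope h₀ rd
  have t := ((hc W s (ee 0) (by simp) f Z a).sub (hc W s (ee 1) (by simp) f Z a)).comp dn_zero
  have c := (Ope.adm_one.1 a.1).1
  refine Metric.tendsto_nhds.2 fun η η0 => eventually_curry_iff.2 ?_
  filter_upwards [Metric.tendsto_nhds.1 t η η0, dn_zero.eventually a.sm] with n e1 e2
  refine UU_le ((((((e2.riem hW (rd.pb (n := ee 0) (by simp))).sub (e2.riem hW (rd.pb (n := ee 1)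
    (by simp)))).const_mul (M (dn n) : ℂ)).dist (tendsto_const_nhds
      (x := κ h₀ * (T W 0 0 f Z - T W 1 1 f Z)))).eventually_lt_const (lt_of_eq_of_lt ?_ e1)).mono fun e he => lt_of_eq_of_lt ?_ he)
  · congr 1
    · simp only [Function.comp]
      ring
    · simp [Fin.sum_univ_four, mul_sub]
  · congr 1
    simp only [P3, Yl_add c, Yl_smul c, Pr_Yl, Ope.cv_add, Ope.cv_smul]
    push_cast
    ring

theorem rel {K : Type} [NormedAddCommGroup K] [InnerProductSpace ℂ K] [CompleteSpace K]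
    (H : Dat w h ω Λ δ) (I : ∀ Λ δ, 1 ≤ Λ → 0 < δ → ∃ a Kl, Kin S 5 Λ δ a Kl) {L : ℕ → ℝ}
    (L0 : ∀ n, 0 < L n)
    (L1 : ∀ ε > (0 : ℝ), ∀ᶠ n in atTop, L n ≤ dn n ^ (-ε)) (o : Out S D κ F M T) (rd : Rd h₀)
    (ne : κ h₀ ≠ 0) {m : ℝ} (hM : Tendsto (fun d => M d / log d ^ 2) (𝓝[>] 0) (𝓝 m)) (s : Sub S W)
    (hW : Inp W) (r : net.Rep W 0 K)
    (hD : ∀ R : ℝ, Dense {y | ∃ b ∈ net.loc (Ot 0), r.Ψ (net.τ (R • Wm.B1.nn) b) = y})
    {V : (R4 → ℝ) → Pol → ℂ} (hV : ∀ f Z, Dt f Z → Tendsto (fun j : ℕ × ℕ => L j.1 *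
      cv W (Yc h ω S .t (dn j.1) j.2 (cx (Lb.ref .t3)) f) Z) (atTop.curry UU) (𝓝 (V f Z))) :
    ∃ α β : ℂ, (α, β) ≠ 0 ∧ ∀ᶠ e : ℕ in atTop, ∀ f, Mid (3 ^ e)⁻¹ f →
      ∀ Y ∈ net.loc {y | y 0 < -(2 * (3 ^ e)⁻¹)}, ∀ Z ∈ net.loc (Hs 0 (2 * (3 ^ e)⁻¹)),
        Dt f (Y * Z) ∧ α * V f (Y * Z) + β * (T W 0 0 f (Y * Z) - T W 1 1 f (Y * Z)) = 0 := by
  have : ((atTop : Filter ℕ).curry UU).NeBot := ⟨fun e => by
    have : ∀ᶠ _ in (atTop : Filter ℕ).curry UU, False := e ▸ eventually_bot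
    exact (eventually_curry_iff.1 this).exists.elim fun _ e => e.exists.elim fun _ => id⟩
  obtain ⟨C, C0, hC⟩ := Zc_wo H .t (Lb.ref .t3)
  obtain ⟨Λ', δ', d0, p⟩ := P3_wo rd
  have d1 := lt_min H.pos.2 d0
  obtain ⟨a, Kl, I⟩ := I (max Λ Λ') (min δ δ') (le_max_of_le_left H.pos.1) d1
  replace hC := fun e => (hC e).mono (le_max_left Λ Λ') (min_le_left _ _) d1
  replace p := p.mono (le_max_right Λ Λ') (min_le_right _ _) d1
  have ty : ∀ e, Typ T3 (((C⁻¹ : ℝ) : ℂ) • Zc h ω .t e (cx (Lb.ref .t3))) := fun e q hq => by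
    have := Zc_lin H (l := .t) (e := e)
    have z : Zc h ω .t e 0 = 0 := by simpa using this (-1) 0 0
    rw [map_smul, Zc_act H, rE_cx, mx_gi, Lb.ref_sym .t3 q hq, cx_smul, smul_comm]
    congr 1
    simpa [z] using this ((sb q.2 : ℝ) : ℂ) (cx (Lb.ref .t3)) 0
  choose c c' n1 k using fun j : ℕ × ℕ => I.ex _ _ det3 le_rfl (fun i => ⟨false, by
    fin_cases i <;> simp [T3, RG.Q4.En.Ty.rf]⟩) 2 _ _ one_le_two (by norm_num)
    (hC j.2) p (ty j.2) (P3_typ rd) (dn j.1) (dn j.1) j.2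
  obtain ⟨α, β, ab, e⟩ := rel_lim (atTop.curry UU) n1 (A := fun j => L j.1 * C)
    (B := fun j => 2 * M (dn j.1)) (eventually_curry_iff.2 ((dn_zero.eventually o.ne).mono
      fun n e => .of_forall fun _ => ⟨(mul_pos (L0 n) C0).ne', mul_ne_zero two_ne_zero e⟩))
  obtain ⟨N, hN⟩ := I.one
  refine ⟨α, β * κ h₀, fun z => ab (by simpa [ne] using z), hN.mono fun e₀ hN f hf Y hY Z hZ => ?_⟩
  have w0 : (0 : ℝ) < (3 ^ e₀)⁻¹ := by positivity
  have f1 := hf.c1 w0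
  have d : Dt f (Y * Z) := ⟨Ope.adm_one.2 ⟨f1.1, f1.2.1⟩, net.mono (net.mul hY hZ
    (disjoint_left.2 fun y (a : y 0 < _) (b : _ < y 0) => by linarith)) fun y hy hy' => by
      have := abs_lt.1 (f1.2.2 hy' 0)
      rcases hy with (a : y 0 < _) | (a : _ < y 0) <;> linarith⟩
  obtain ⟨B, hB⟩ := far hW.st r hD hY hZ
  rw [mul_assoc]
  refine .intro d <| e (fun j => cv W (Yl (((C⁻¹ : ℝ) : ℂ) • Zc h ω .t j.2 (cx (Lb.ref .t3))) (dn j.1) j.2 f)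
    (Y * Z)) _ _ _ ((hV f _ d).congr fun j => ?_) (p3_lim o rd s hW d) ?_
  · have : (C : ℂ) ≠ 0 := Complex.ofReal_ne_zero.2 C0.ne'
    rw [Yl_smul f1.1, Ope.cv_smul, Yc, ctr, Ope.cv_C s.one]
    push_cast
    field_simp
  have a0 := I.pos
  have t1 : Tendsto (fun n => |L n * C| * dn n ^ a) atTop (𝓝 0) := by
    refine squeeze_zero' (.of_forall fun n => by have := dn_pos n; positivity) ?_ (by
      simpa [(half_pos a0).ne'] using (((continuousAt_rpow_const 0 _ (.inr (half_pos a0).le)).tendsto.comp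
        (tendsto_nhds_of_tendsto_nhdsWithin dn_zero)).const_mul C))
    filter_upwards [L1 _ (half_pos a0)] with n e
    rw [abs_of_pos (mul_pos (L0 n) C0), show a / 2 = -(a / 2) + a by ring, rpow_add (dn_pos n),
      ← mul_assoc, mul_comm C]
    have := rpow_pos_of_pos (dn_pos n) a
    gcongr
  have t2 : Tendsto (fun n => |2 * M (dn n)| * dn n ^ a) atTop (𝓝 0) := by
    have := (((hM.const_mul 2).mul ((tendsto_log_mul_rpow_nhdsGT_zero (half_pos a0)).pow 2)).abs).comp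
      dn_zero
    rw [zero_pow two_ne_zero, mul_zero, abs_zero] at this
    refine this.congr' ?_
    filter_upwards [dn_zero.eventually (tendsto_log_nhdsGT_zero.eventually_lt_atBot 0)] with n e
    have := e.ne
    have p := rpow_pos_of_pos (dn_pos n) a
    rw [← abs_of_pos p, ← abs_mul, Function.comp, mul_pow, ← rpow_mul_natCast (dn_pos n).le]
    congr 1
    field_simp
    norm_num
  have t3 := (t1.add t2).const_mul (B * 3 ^ (N * e₀))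
  rw [add_zero, mul_zero] at t3
  refine squeeze_zero' (.of_forall fun _ => by positivity) (eventually_curry_iff.2 ?_)
    (t3.comp (tendsto_fst.mono_left curry_le_prod))
  filter_upwards [dn_zero.eventually (Ioc_mem_nhdsGT (show (0 : ℝ) < (3 ^ (N * e₀))⁻¹ by positivity))]
    with n hn
  filter_upwards [UU_le (hN _ hn _ ⟨half_le_self hn.1.le, le_rfl⟩)] with e he
  have := hB _ _ (s.dom.qb (he _ ⟨one_le_two, by norm_num, hC e, p, (n1 (n, e)).le⟩ (k (n, e)) f hf))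
  rw [ctr, Ope.cv_C s.one, Sl.Y, Ope.cv_add, Ope.cv_smul, Ope.cv_smul] at this
  calc _ ≤ _ := mul_le_mul_of_nonneg_left this (by positivity)
    _ = _ := by simp only [Function.comp]; ring

end Pool.Agent.Lib.MP_7f377f_mp.Cm
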