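import Pool.Agent.Lib.MP_7f377f_mp.G.YGScale
import Pool.Agent.Lib.MP_7f377f_mp.G.PurI

/-! From the normalisation of the renormalisation group to the Wilson action of a unitary
representation. -/

noncomputable section

namespace Pool.Agent.Lib.MP_7f377f_mp.YG

open MeasureTheory MvPolynomial Filter Topology Real

variable [GD] {N n : ℕ} (ρ : GD.G →* Matrix.unitaryGroup (Fin N) ℂ) (hn : GD.n = N + N)
  (ht : ∀ a, (GD.rho a).trace = 2 * (ρ a).1.trace.re)

theorem t4_pos : 0 < 4 * GD.t ^ 2 := by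
  have := YM5.t_pos
  positivity

include hn ht

theorem dens_eq (U : Cfg GD.G n) (x : Fin 4 → ZMod n) :
    YM7.dens U x = 4 * GD.t ^ 2 * dens ρ U x := by
  simp only [YM7.dens, dens, Finset.mul_sum, GD.re1, ht, hn]
  refine Finset.sum_congr rfl fun i _ => Finset.sum_congr rfl fun j _ => ?_
  split_ifs
  · push_cast
    ring
  · ring

variable [NeZero n]

theorem field_eq (a : ℝ) (f : R4 → ℝ) (U : Cfg GD.G n) :
    YM7.field a ((4 * GD.t ^ 2)⁻¹ • f) U = field ρ a f U := by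
  simp only [YM7.field, field, dens_eq ρ hn ht, Pi.smul_apply, smul_eq_mul]
  refine Finset.sum_congr rfl fun x _ => ?_
  rw [mul_mul_mul_comm, inv_mul_cancel₀ t4_pos.ne', one_mul]

variable [MeasurableSpace GD.G] (h : Measure GD.G)

theorem wilson_eq (b : ℝ) : YM7.wilson h b n = wilson ρ h (4 * GD.t ^ 2 * b) n := by
  simp only [YM7.wilson, wilson, dens_eq ρ hn ht, ← Finset.mul_sum]
  congr 1
  funext U
  ring

theorem vev_eq (b a : ℝ) (Z : Fp) :
    vev ρ h (4 * GD.t ^ 2 * b) n a Z = YM7.vev h b n a (sc (4 * GD.t ^ 2)⁻¹ Z) := by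
  simp only [YM7.vev, vev, sc, eval_rename, Function.comp_def, field_eq ρ hn ht,
    wilson_eq ρ hn ht]

omit [NeZero n] in
theorem out_of [BorelSpace GD.G] [h.IsHaarMeasure] [IsProbabilityMeasure h] {ι : Type}
    {Φ : Filter ι} {n : ι → ℕ} [∀ p, NeZero (n p)] {a b τ : ι → ℝ} [Φ.NeBot]
    (hF : YM7.Fam Φ n a b τ) (hC : Pur.CellA h Φ n a b τ) (hA : ∀ K, Pur.ShortA h Φ n a b K)
    {c : ℝ} (hc : c = 2 * (GD.b0 * GD.t ^ 2)) :
    Out (fun b n a Z => vev ρ h b n a Z) (11 * c / (24 * π ^ 2)) (24 / (11 * c)) GD.d := by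
  have H : Out (fun b n a Z => YM7.vev h b n a Z) (11 * GD.b0 / (48 * π ^ 2)) (48 / (11 * GD.b0))
    GD.d := Pur.vacuum_of hF hC hA
  have := GD.b0_pos
  have := YM5.t_pos
  convert H.sc (V' := fun b n a Z => vev ρ h b n a Z) t4_pos
    fun b n a Z => vev_eq ρ hn ht h b a Z using 1
  · rw [hc]
    field_simp
    ring
  · rw [hc]
    field_simp
    ring

end Pool.Agent.Lib.MP_7f377f_mp.YG
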