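import Pool.Agent.Lib.MP_7f377f_mp.G.YGGlue
import Pool.Agent.Lib.MP_7f377f_mp.G.GReal
import Pool.Agent.Lib.MP_7f377f_mp.G.GMk
import Pool.Agent.Lib.MP_7f377f_mp.G.Q5Vac

/-! The main theorem for a compact group with simple Lie algebra. -/

noncomputable section

namespace Pool.Agent.Lib.MP_7f377f_mp.YG

open MeasureTheory Real

attribute [local instance 100] LieRing.ofAssociativeRing

theorem main (G : Type) [Group G] [TopologicalSpace G] [IsTopologicalGroup G] [CompactSpace G]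
    [m : MeasurableSpace G] [s : BorelSpace G] (h : Measure G) [i : h.IsHaarMeasure]
    [p : IsProbabilityMeasure h] {N : ℕ} (ρ : G →* Matrix.unitaryGroup (Fin N) ℂ)
    (hρ : Continuous ρ) (hi : Function.Injective ρ) (L : LieSubalgebra ℝ (Matrix (Fin N) (Fin N) ℂ))
    [LieAlgebra.IsSimple ℝ L] (hL : ∀ X, X ∈ L ↔ ∀ s : ℝ, ∃ g, (ρ g).1 = NormedSpace.exp (s • X)) :
    ∃ c > (0 : ℝ), (∀ X Y : L, killingForm ℝ L X Y = c * (X.1 * Y.1).trace.re) ∧
      Out (fun b n a Z => vev ρ h b n a Z) (11 * c / (24 * π ^ 2)) (24 / (11 * c))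
        (Module.finrank ℝ L) := by
  obtain ⟨ρ', g, φ, c1, c2, c3, c4, c5, c6, c7, c8⟩ := GE.realify ρ hρ hi L hL
  have k := GE.mkGD_c G ((Submonoid.subtype _).comp ρ') (continuous_subtype_val.comp c1)
    (fun a => (ρ' a).2.1) (Subtype.val_injective.comp c2) g c3
  let D := GE.mkGD G ((Submonoid.subtype _).comp ρ') (continuous_subtype_val.comp c1)
    (fun a => (ρ' a).2.1) (Subtype.val_injective.comp c2) g c3
  obtain ⟨_, _, h1, h2, h3⟩ := @RG.Q4.En.out_arr D m s h i p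
  have := GD.b0_pos
  have := GD.t_pos
  refine ⟨2 * (GD.b0 * GD.t ^ 2), by positivity, fun X Y => ?_,
    c8 ▸ @out_of D N ρ rfl c5 m h s i p _ _ _ _ _ _ _ _ h1 h2 h3 _ rfl⟩
  rw [← c7, k, c6]
  ring

end Pool.Agent.Lib.MP_7f377f_mp.YG
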