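import Pool.Agent.Lib.MP_7f377f_mp.WAxS
import Pool.Agent.Lib.MP_7f377f_mp.G.GapE
import Pool.Agent.Lib.MP_7f377f_mp.G.YGGlue
import Pool.Agent.Lib.MP_7f377f_mp.G.GReal
import Pool.Agent.Lib.MP_7f377f_mp.G.GMk
import Pool.Agent.Lib.MP_7f377f_mp.G.LgE1
import Pool.Agent.Lib.MP_7f377f_mp.G.WmNG

/-! The finite size criterion for the mass gap, for a compact group with simple Lie algebra. -/

noncomputable section

namespace Pool.Agent.Lib.MP_7f377f_mp.YG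

open MeasureTheory Filter Topology Real Finset MvPolynomial
open scoped ContDiff

/-- the conclusion for the lattice expectations `V` and the criterion `P` -/
def OutK (V : ℝ → ℕ+ → ℝ → Fp → ℂ) (P : ℝ → ℕ+ → Prop) (c₁ c₂ : ℝ) (d : ℕ) : Prop :=
  ∃ (n : ℕ → ℕ+) (a b : ℕ → ℝ) (S : Fp → ℂ),
    Tendsto a atTop (𝓝[>] 0) ∧ Tendsto (fun j => a j * n j) atTop atTop ∧
    Tendsto (fun j => b j / log (a j)⁻¹) atTop (𝓝 c₁) ∧
    (∀ Z ∈ Loc Set.univ, Tendsto (fun j => V (b j) (n j) (a j) Z) atTop (𝓝 (S Z))) ∧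
    (∀ k (f : Fin k → R4 → ℝ), Adm f →
      Tendsto (fun d : ℝ => (log d⁻¹ : ℂ) ^ k * S (fld fun i y => f i (d⁻¹ • y))) (𝓝[>] 0)
        (𝓝 (c₂ ^ k * ∫ y : Fin k → R4, (∏ i, f i (y i)) * free d y : ℝ))) ∧
    (∀ y : Fin 2 → R4, y 0 ≠ y 1 → free d y = 3 * d / ‖y 0 - y 1‖ ^ 8) ∧
    (∃ (f : Fin 4 → R4 → ℝ) (Y : Fin 4 → Fp), Adm f ∧ (∀ i, ContDiff ℝ ∞ (f i)) ∧
      (∀ i j, i < j → ∀ x ∈ tsupport (f i), ∀ y ∈ tsupport (f j), x 0 < y 0) ∧
      (∀ i, Y i = X (f i) - C (S (X (f i)))) ∧ S (Y 0 * Y 1 * Y 2 * Y 3) ≠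
        S (Y 0 * Y 1) * S (Y 2 * Y 3) + S (Y 0 * Y 2) * S (Y 1 * Y 3) +
          S (Y 0 * Y 3) * S (Y 1 * Y 2)) ∧
    ∀ l > 0, (∃ᶠ j in atTop, ∃ t : ℕ+, 2 ≤ t ∧ a j * t ≤ l ∧ P (b j) t) →
      ∃ (H : Type) (_ : NormedAddCommGroup H) (_ : InnerProductSpace ℂ H) (_ : CompleteSpace H)
        (U : R4 → WA.Mat → H →L[ℂ] H) (Ω : H) (D : Submodule ℂ H) (φ : WA.Tf → H → H),
        WA.Poin U Ω ∧ WA.Wfield U Ω D φ ∧ WA.Wrot (fun _ => Adm) (fun _ f => S (fld f)) Ω φ ∧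
          Mass l⁻¹ U Ω

theorem OutK.sc {V V' : ℝ → ℕ+ → ℝ → Fp → ℂ} {P P' : ℝ → ℕ+ → Prop} {c c₁ c₂ : ℝ} {d : ℕ}
    (h : OutK V P c₁ c₂ d) (hc : 0 < c) (e : ∀ b n a Z, V' (c * b) n a Z = V b n a (sc c⁻¹ Z))
    (e' : ∀ b t, P' (c * b) t → P b t) : OutK V' P' (c * c₁) (c⁻¹ * c₂) d := by
  obtain ⟨n, a, b, S, h1, h2, h3, h5, h8, h9, ⟨f, Y, g1, g2, g, g3, g4⟩, h6⟩ := h
  refine ⟨n, a, fun j => c * b j, fun Z => S (YG.sc c⁻¹ Z), h1, h2,
    by simpa only [mul_div_assoc] using h3.const_mul c,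
    fun Z hZ => by simpa only [e] using h5 _ (sc_loc (c := c⁻¹) hZ), fun k f hf => ?_, h9,
    ⟨fun i => c • f i, fun i => YG.sc c (Y i), g1.smul, fun i => (g2 i).const_smul c,
      fun i j o x hx y hy => g i j o x (ts_smul _ hx) y (ts_smul _ hy), fun i => ?_, ?_⟩, fun l l0 hl => ?_⟩
  · have := h8 k _ (hf.smul (c := c⁻¹))
    simp only [sc_fld]
    refine (congrArg (fun z : ℝ => Tendsto _ _ (𝓝 (z : ℂ))) ?_).mp this
    simp only [Pi.smul_apply, smul_eq_mul, prod_mul_distrib, prod_const,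
      card_univ, Fintype.card_fin, mul_assoc, integral_const_mul, mul_pow]
    ring
  · simp only [g3, YG.sc, map_sub, rename_X, rename_C, smul_smul, inv_mul_cancel₀ hc.ne', one_smul]
  · simpa only [map_mul, sc_sc, inv_mul_cancel₀ hc.ne', sc_one] using g4
  · obtain ⟨H, _, _, i, U, Ω, D, φ, p1, p2, p3, p4⟩ :=
      h6 l l0 (hl.mono fun j => .imp fun t x => ⟨x.1, x.2.1, e' _ _ x.2.2⟩)
    exact ⟨H, _, _, i, U, Ω, D, _, p1, p2.sc (inv_ne_zero hc.ne'),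
      by simpa only [sc_fld] using p3.sc fun _ _ => Adm.smul, p4⟩

section
variable [GD] {N : ℕ} (ρ : GD.G →* Matrix.unitaryGroup (Fin N) ℂ) (hn : GD.n = N + N)
  (ht : ∀ a, (GD.rho a).trace = 2 * (ρ a).1.trace.re) [MeasurableSpace GD.G] (h : Measure GD.G)
  [BorelSpace GD.G] [h.IsHaarMeasure] [IsProbabilityMeasure h]
include hn ht

theorem part_eq (b : ℝ) (M : Fin 4 → ℕ+) :
    part ρ h (4 * GD.t ^ 2 * b) M = YM9.zz h b (fun i => M i) fun _ => 1 := by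
  have e : ∀ (x : Fin 4 → ℤ) i, (fun l => (((x + Pi.single i 1 : Fin 4 → ℤ) l : ℤ) : ZMod (M l))) =
      (fun l => (x l : ZMod (M l))) + Pi.single i 1 := fun x i => funext fun l => by
    by_cases hl : l = i
    · subst hl
      simp
    · simp [hl]
  rw [part, ← Measure.infinitePi_eq_pi]
  refine .trans (integral_congr_ae (.of_forall fun U => ?_)) (RGP.int_pat h
    (F := fun U => 1 * YM9.bw b (fun i => M i) U) (measurable_const.mul (YM9.cont_bw b _).measurable)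
    (dependsOn_univ _) (φ := fun e : YM9.Link => ((YM9.md (fun i => M i) e.1, e.2) : YM9.Link))
    (s := fun _ => false) (φ' := fun e : YM9.Link => (fun l => (e.1 l : ZMod (M l)), e.2))
    (s' := fun _ => false) (fun e _ e' _ => ?_) fun _ _ _ _ _ => rfl).symm
  · simp only [YM9.bw, one_mul]
    congr 1
    rw [mul_comm _ b, ← neg_mul, mul_assoc, mul_sum]
    congr 1
    refine sum_bij' (fun x _ l => ((x l).val : ℤ)) (fun x _ l => (x l : ZMod (M l)))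
      (fun x _ => Fintype.mem_piFinset.2 fun l => mem_Ico.2
        ⟨Int.natCast_nonneg _, Int.ofNat_lt.2 (x l).val_lt⟩) (fun _ _ => mem_univ _)
      (fun x _ => funext fun l => by simp)
      (fun x hx => funext fun l => (ZMod.val_intCast _).trans (congrFun (YM9.md_box hx) l))
      fun x _ => ?_
    simp only [YM9.dens, RGP.pat, RGP.sg, e, Int.cast_natCast, ZMod.natCast_zmod_val, mul_sum,
      GD.re1, ht, hn, Bool.false_eq_true, if_false]
    refine sum_congr rfl fun i _ => sum_congr rfl fun j _ => ?_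
    split_ifs
    · push_cast
      ring
    · ring
  · simp only [Prod.mk.injEq, _root_.funext_iff, YM9.md, ZMod.intCast_eq_intCast_iff']

theorem Crit.cr {b : ℝ} {t : ℕ+} (H : Crit ρ h (4 * GD.t ^ 2 * b) t) :
    Fs.Cr (YM9.Zb h b) t (1 / 10 ^ 6) := fun x y z hx hy hz => by
  have k : ∀ {x : ℕ}, x = t ∨ x = 2 * t → ∃ u ∈ [t, 2 * t], x = u := fun e =>
    e.elim (fun e => ⟨t, by simp, e⟩) fun e => ⟨2 * t, by simp, e⟩
  obtain ⟨x, x1, rfl⟩ := k hx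
  obtain ⟨y, y1, rfl⟩ := k hy
  obtain ⟨z, z1, rfl⟩ := k hz
  have v : ∀ t : ℕ+, part ρ h (4 * GD.t ^ 2 * b) ![t, x, y, z] = YM9.Zb h b t x y z := fun t => by
    rw [part_eq ρ hn ht, YM9.Zb]
    congr 1
    ext i
    fin_cases i <;> rfl
  have p : ∀ t : ℕ, 0 < YM9.Zb h b t x y z := fun t => YM9.zz_pos h b _
  have := log_le_log (pow_pos (p t) 2) (by simpa only [v] using H x x1 y y1 z z1)
  rw [log_pow, log_mul (by norm_num) (p _).ne'] at this
  have q := log_le_sub_one_of_pos (show (0 : ℝ) < 1 + 1 / 10 ^ 6 by norm_num)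
  rw [Fs.Df]
  push_cast at this
  linarith

theorem outK_of {c : ℝ} (hc : c = 2 * (GD.b0 * GD.t ^ 2)) :
    OutK (fun b n a Z => vev ρ h b n a Z) (Crit ρ h) (11 * c / (24 * π ^ 2)) (24 / (11 * c))
      GD.d := by
  have := GD.b0_pos
  have := YM5.t_pos
  have : 0 < GD.d := GD.d3.trans_lt' three_pos
  obtain ⟨n, a, b, S, e1, e2, e3, e4, hS, hR, ⟨S₀, l, p⟩, hG⟩ := RG.Q4.En.out_gap h
  have H : OutK (fun b n a Z => YM7.vev h b n a Z) (fun b t => Fs.Cr (YM9.Zb h b) t (1 / 10 ^ 6))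
      (11 * GD.b0 / (48 * π ^ 2)) (48 / (11 * GD.b0)) GD.d :=
    ⟨n, a, b, S, e1, e2, e3, e4, hS.af, YM5.free_two,
      Wm.non_gauss_ord hS.st.one (by positivity) hS.af, fun L L0 hL => by
        have g := hG L L0 (hL.mono fun j ⟨t, x⟩ => ⟨t, x⟩)
        obtain ⟨K, _, _, _, hq⟩ := hS.quantum (g.vac (inv_pos.2 L0) hS.st)
        obtain ⟨K, _, _, i, U, Ω, D, φ, p1, p2, p3, p4⟩ := Wm.mass_of hS.st hS.lin hR
          (Wm.sQ1_of S₀ S hS.st l hS.lin p) hq (by positivity) (by positivity) YM5.free_two hS.af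
        exact ⟨K, _, _, i, U, Ω, D, φ, p1, p2, p3, p4 _ g⟩⟩
  convert H.sc (V' := fun b n a Z => vev ρ h b n a Z) (P' := Crit ρ h) t4_pos
    (fun b n a Z => vev_eq ρ hn ht h b a Z) fun b t => Crit.cr ρ hn ht h using 1
  · rw [hc]
    field_simp
    ring
  · rw [hc]
    field_simp
    ring

end

attribute [local instance 100] LieRing.ofAssociativeRing

theorem mainK (G : Type) [Group G] [TopologicalSpace G] [IsTopologicalGroup G]
    [CompactSpace G] [m : MeasurableSpace G] [s : BorelSpace G] (h : Measure G) [i : h.IsHaarMeasure]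
    [p : IsProbabilityMeasure h] {N : ℕ} (ρ : G →* Matrix.unitaryGroup (Fin N) ℂ)
    (hρ : Continuous ρ) (hi : Function.Injective ρ) (L : LieSubalgebra ℝ (Matrix (Fin N) (Fin N) ℂ))
    [LieAlgebra.IsSimple ℝ L] (hL : ∀ X, X ∈ L ↔ ∀ s : ℝ, ∃ g, (ρ g).1 = NormedSpace.exp (s • X)) :
    ∃ c > (0 : ℝ), (∀ X Y : L, killingForm ℝ L X Y = c * (X.1 * Y.1).trace.re) ∧
      OutK (fun b n a Z => vev ρ h b n a Z) (Crit ρ h) (11 * c / (24 * π ^ 2)) (24 / (11 * c))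
        (Module.finrank ℝ L) := by
  obtain ⟨ρ', g, φ, c1, c2, c3, c4, c5, c6, c7, c8⟩ := GE.realify ρ hρ hi L hL
  have k := GE.mkGD_c G ((Submonoid.subtype _).comp ρ') (continuous_subtype_val.comp c1)
    (fun a => (ρ' a).2.1) (Subtype.val_injective.comp c2) g c3
  let D := GE.mkGD G ((Submonoid.subtype _).comp ρ') (continuous_subtype_val.comp c1)
    (fun a => (ρ' a).2.1) (Subtype.val_injective.comp c2) g c3
  have := GD.b0_pos
  have := GD.t_pos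
  refine ⟨2 * (GD.b0 * GD.t ^ 2), by positivity, fun X Y => ?_,
    c8 ▸ @outK_of D N ρ rfl c5 m h s i p _ rfl⟩
  rw [← c7, k, c6]
  ring

end Pool.Agent.Lib.MP_7f377f_mp.YG
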