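import Pool.Agent.Lib.MP_7f377f_mp.YP
import Pool.Agent.Lib.MP_7f377f_mp.G.YFa

/-! The statement with the operator product expansion: change of the normalisation. -/

noncomputable section

namespace Pool.Agent.Lib.MP_7f377f_mp.YF

open MeasureTheory Filter Topology Real MvPolynomial Matrix

/-- the conclusion for lattice expectations `V` of polynomials in the scalar field -/
def OutMO (V : ℝ → ℕ+ → ℝ → YG.Fp → ℂ) (c₁ q : ℝ) (d : ℕ) : Prop :=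
  ∃ (n : ℕ → ℕ+) (a b : ℕ → ℝ) (S : YG.Fp → ℂ) (W : Fp → ℂ) (r : ℕ → ℕ)
    (B : ∀ j, Fin (r j) → YG.Fp),
    Tendsto a atTop (𝓝[>] 0) ∧ Tendsto (fun j => a j * n j) atTop atTop ∧
    Tendsto (fun j => b j / log (a j)⁻¹) atTop (𝓝 c₁) ∧
    (∀ (j : ℕ) i, B j i ∈ YG.Loc (YG.Fut 0 j)) ∧
    (∀ Z ∈ YG.Loc Set.univ, Tendsto (fun j => V (b j) (n j) (a j) Z) atTop (𝓝 (S Z)) ∧
      Tendsto (fun j => S (YG.ins (B j) Z)) atTop (𝓝 (W (em Z))) ∧
        ∀ᶠ j in atTop, YG.ins (B j) Z ∈ YG.Loc Set.univ) ∧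
    Wightman W ∧ (∃ M, AFM q d W M ∧ StressM q W M) ∧ Hom W ∧ NG W

/-- the conclusion of the final theorem -/
def OutFO (V : ℝ → ℕ+ → ℝ → Fp → ℂ) (c₁ q : ℝ) (d : ℕ) : Prop :=
  ∃ (n : ℕ → ℕ+) (a b : ℕ → ℝ) (S W : Fp → ℂ) (r : ℕ → ℕ) (B : ∀ j, Fin (r j) → Fp),
    Tendsto a atTop (𝓝[>] 0) ∧ Tendsto (fun j => a j * n j) atTop atTop ∧
    Tendsto (fun j => b j / log (a j)⁻¹) atTop (𝓝 c₁) ∧
    (∀ (j : ℕ) i, B j i ∈ Loc {y | j < y 0}) ∧
    (∀ Z ∈ Loc Set.univ, Tendsto (fun j => V (b j) (n j) (a j) Z) atTop (𝓝 (S Z)) ∧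
      Tendsto (fun j => S (ins (B j) Z)) atTop (𝓝 (W Z)) ∧
        ∀ᶠ j in atTop, ins (B j) Z ∈ Loc Set.univ) ∧
    Wightman W ∧ (∃ M, AFM q d W M ∧ StressM q W M) ∧ NG W

theorem AFM.sc {c q : ℝ} {d : ℕ} {W : Fp → ℂ} {M : ℝ → Lab ≃ₗ[ℂ] Lab} (h : AFM q d W M)
    (hH : Hom W) (hc : c ≠ 0) : AFM (c * q) d (fun Z => W (scL c Z)) M := by
  obtain ⟨h1, h2, h3, h4, δ, δ0, h5⟩ := h
  have hc' : (c : ℂ) ≠ 0 := Complex.ofReal_ne_zero.2 hc
  refine ⟨h1, h2, h3, fun k a f hf => ?_, δ, δ0, fun a b u hu => ?_⟩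
  · have e : ∀ (t : ℝ) i, (c • fun y => f i (t⁻¹ • y)) = fun y => (c • f i) (t⁻¹ • y) := fun _ _ => rfl
    simp only [map_prod, scL_X, e]
    convert h4 k a (fun i => c • f i) (YG.Adm.smul hf) using 2
    simp only [Pi.smul_apply, smul_eq_mul, Complex.ofReal_mul, Finset.prod_mul_distrib,
      Finset.prod_const, Finset.card_univ, Fintype.card_fin, mul_assoc, integral_const_mul, mul_pow]
    ring
  obtain ⟨C, c1, c2⟩ := h5 a b _ (hu.sm c)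
  refine ⟨fun t => (c : ℂ)⁻¹ • C t, ?_, fun f hf Z hZ => ?_⟩
  · convert c1.const_smul (c : ℂ)⁻¹ using 2
    ext i j
    simp only [of_apply, Matrix.smul_apply, Pi.smul_apply, smul_eq_mul, Complex.ofReal_mul,
      mul_mul_mul_comm (c : ℂ) _ c, mul_assoc, integral_const_mul]
    field_simp
  · have y : Adm ![c • f] := adm_one (hf.1 0).1.smul_left ((hf.1 0).2.const_smul c)
    have z := loc_mono (Set.compl_subset_compl.2 (YG.ts_smul (c := c) f)) (scL_loc (c := c) hZ)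
    have e : ∀ Y Z, cov (fun Z => W (scL c Z)) Y Z = cov W (scL c Y) (scL c Z) :=
      fun Y Z => by simp only [cov, map_mul]
    refine ((c2 _ y _ z).const_mul_left (c : ℂ)⁻¹).congr_left fun t => ?_
    simp only [e, map_mul, scL_X, map_smul, hH _ _ _ y _ z, Pi.smul_apply, smul_eq_mul,
      Complex.ofReal_mul, mul_assoc, integral_const_mul, mul_sub, mul_div_assoc,
      inv_mul_cancel_left₀ hc']
    rfl

theorem StressM.sc {c q : ℝ} {W : Fp → ℂ} {M : ℝ → Lab ≃ₗ[ℂ] Lab} (h : StressM q W M)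
    (hH : Hom W) (hc : c ≠ 0) : StressM (c * q) (fun Z => W (scL c Z)) M := by
  obtain ⟨s, t, T, h1, h2, h3⟩ := h
  have hc' : (c : ℂ) ≠ 0 := Complex.ofReal_ne_zero.2 hc
  have x : ∀ a f, Adm ![f] → ∀ Z ∈ Loc (tsupport f)ᶜ, cov (fun Z => W (scL c Z))
      (X ((c : ℂ)⁻¹ • a, f)) Z = (c : ℂ)⁻¹ * cov W (X (a, c • f)) (scL c Z) := fun a f hf Z hZ => by
    have := hH (c : ℂ)⁻¹ a (c • f) (adm_one (hf.1 0).1.smul_left ((hf.1 0).2.const_smul c)) _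
      (loc_mono (Set.compl_subset_compl.2 (YG.ts_smul (c := c) f)) (scL_loc (c := c) hZ))
    simpa only [cov, map_mul, scL_X] using this
  have p : ∀ (g : R4 → ℝ) v, (fun y => lineDeriv ℝ (c • g) y v) = c • fun y => lineDeriv ℝ g y v :=
    fun g v => funext fun _ => deriv_const_mul_field _
  refine ⟨(c : ℂ)⁻¹ * s, (c : ℂ)⁻¹ * t, fun μ ν => (c : ℂ)⁻¹ • T μ ν, fun μ ν => ?_,
    fun k g ξ b ν g1 g2 g3 g4 => ?_, fun v => ?_⟩
  · simp only [h1, ← smul_kronecker, smul_add, smul_smul, smul_ite, smul_zero]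
  · have := h2 k _ (c • ξ) (fun i => c * b i) ν (YG.Adm.smul (c := c) g1)
      (fun i => ⟨(g2 i).1.const_smul c,
      ((g2 i).2.filter_mono (nhdsSet_mono (YG.ts_smul _))).mono fun y hy => by simp [hy]⟩)
      (g3.const_smul c) g4.smul_left
    simp only [p, Complex.ofReal_mul, mul_assoc, ← Finset.mul_sum] at this
    refine (Finset.sum_congr rfl fun μ _ => x _ _ (adm_one (St.pd_cpt g4)
      ((Fx.pd_smooth g3 μ).of_le (by simp))) _ (Submodule.subset_span ⟨k, g, g1, fun i y hy =>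
        St.pd_far ((g2 i).2.filter_mono (nhds_le_nhdsSet hy)), rfl⟩)).trans ?_
    delta Fx.pd
    simp only [← Finset.mul_sum, map_prod, scL_phi, this, inv_mul_cancel_left₀ hc',
      Function.apply_update (fun _ (f : R4 → ℝ) => c • f) g]
  · convert (h3 v).const_smul (c : ℂ)⁻¹ using 2
    · simp only [smul_comm _ (c : ℂ)⁻¹, ← Finset.smul_sum, map_smul]
    · ext i j
      simp only [of_apply, Matrix.smul_apply, smul_eq_mul]
      push_cast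
      ring

theorem OutMO.fin {V : ℝ → ℕ+ → ℝ → YG.Fp → ℂ} {V' : ℝ → ℕ+ → ℝ → Fp → ℂ} {c₁ q c : ℝ} {d : ℕ}
    (h : OutMO V c₁ q d) (hc : 0 < c)
    (e : ∀ b n a Z, V' (c * b) n a Z = V b n a (YG.sc c⁻¹ (rename Prod.snd Z))) :
    OutFO V' (c * c₁) (c⁻¹ * q) d := by
  obtain ⟨n, a, b, S, W, r, B, h1, h2, h3, h4, h5, h6, ⟨M, h7, h8⟩, h9, f, Y, g1, g2, g3, g4⟩ := h
  have e1 : ∀ j Z, YG.sc c⁻¹ (YG.ins (fun i => YG.sc c (B j i)) Z) = YG.ins (B j) (YG.sc c⁻¹ Z) :=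
    fun j Z => by simp only [YG.sc_ins, YG.sc_sc, inv_mul_cancel₀ hc.ne', YG.sc_one]
  have e2 : ∀ Z, scL c⁻¹ (scL c Z) = Z := fun Z => by
    simp only [scL, rename_rename, Function.comp_def, inv_smul_smul₀ hc.ne']
    exact rename_id_apply Z
  refine ⟨n, a, fun j => c * b j, fun Z => S (YG.sc c⁻¹ (rename Prod.snd Z)),
    fun Z => W (scL c⁻¹ Z), r, fun j i => em (YG.sc c (B j i)), h1, h2,
    by simpa only [mul_div_assoc] using h3.const_mul c,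
    fun j i => loc_iff.2 ⟨_, YG.sc_loc (h4 j i), rfl⟩, fun Z hZ => ?_,
    h6.sc (inv_ne_zero hc.ne'), ⟨M, h7.sc h9 (inv_ne_zero hc.ne'), h8.sc h9 (inv_ne_zero hc.ne')⟩,
    fun i => c • f i, fun i => scL c (Y i), YG.Adm.smul g1,
    fun i j o x hx y hy => g2 i j o x (YG.ts_smul _ hx) y (YG.ts_smul _ hy), fun i => ?_,
    by simpa only [map_mul, e2] using g4⟩
  · obtain ⟨Y, hY, rfl⟩ := loc_iff.1 hZ
    obtain ⟨a1, a2, a3⟩ := h5 _ (YG.sc_loc (c := c⁻¹) hY)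
    simp only [e, em_ins, snd_em, e1, scL_em]
    refine ⟨a1, a2, a3.mono fun j hj => loc_iff.2 ⟨_, ?_, rfl⟩⟩
    have := YG.sc_loc (c := c) hj
    rwa [← e1, YG.sc_sc, mul_inv_cancel₀ hc.ne', YG.sc_one] at this
  · simp only [g3, map_sub, ← scL_phi, e2]
    exact congrArg _ (rename_C _ _)

end Pool.Agent.Lib.MP_7f377f_mp.YF
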