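import Mathlib

/-! Four dimensional lattice gauge fields on `ℤ ^ 4`, Wilson measures with twisted boundary
conditions, the smeared action density and the quantum theory on a line times a two dimensional
torus. -/

noncomputable section

namespace Pool.Agent.Lib.MP_7f377f_mp.YP

open MeasureTheory Filter Topology Real

/-- the special unitary group -/
abbrev SU (N : ℕ) : Type := Matrix.specialUnitaryGroup (Fin N) ℂ

/-- the Wilson action of a plaquette -/
def wil (N : ℕ) (g : SU N) : ℝ := N - g.1.trace.re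

/-- the links of the lattice: a site and a direction -/
abbrev Link : Type := (Fin 4 → ℤ) × Fin 4

/-- Euclidean space -/
abbrev R4 : Type := EuclideanSpace ℝ (Fin 4)

variable {G : Type} [Group G] {k : ℕ} (w : G → ℝ)

/-- the action density: the sum of `w (U_p)` over the six plaquettes `p` with corner `x` -/
def dens (U : Link → G) (x : Fin 4 → ℤ) : ℝ :=
  ∑ i, ∑ j, if i < j then w (U (x, i) * U (x + Pi.single i 1, j) *
    (U (x + Pi.single j 1, i))⁻¹ * (U (x, j))⁻¹) else 0

/-- the field which agrees with `U` on the box `0 ≤ x i < M i` and has the periods `M i` up to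
powers of `z`: the holonomy of the last plaquette in each plane `23` of the torus is multiplied
by `z` -/
def twist (z : G) (M : Fin 4 → ℕ) (U : Link → G) : Link → G := fun e =>
  (if e.2 = 3 then z ^ (e.1 2 / (M 2 : ℤ) * ((e.1 3 + 1) / (M 3 : ℤ) - e.1 3 / (M 3 : ℤ))) else 1) *
    U (fun i => e.1 i % M i, e.2)

/-- the Wilson measure of the torus with sides `M i` and the twist `z` in the plane `23` -/
def wilson [MeasurableSpace G] (h : Measure G) [IsProbabilityMeasure h] (b : ℝ) (z : G)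
    (M : Fin 4 → ℕ) : Measure (Link → G) :=
  ((Measure.infinitePi fun _ => h).tilted fun U => -b *
    ∑ x ∈ Fintype.piFinset fun i => Finset.Ico (0 : ℤ) (M i), dens w (twist z M U) x).map (twist z M)

/-- weak convergence to a probability measure -/
def Lim {X : Type} [TopologicalSpace X] [MeasurableSpace X] (ν : ℕ → Measure X) (μ : Measure X) :
    Prop := IsProbabilityMeasure μ ∧
  ∀ F : C(X, ℝ), Tendsto (fun T => ∫ U, F U ∂ν T) atTop (𝓝 (∫ U, F U ∂μ))

/-- position of a site of the lattice of spacing `a` -/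
def pt (a : ℝ) (x : Fin 4 → ℤ) : R4 := WithLp.toLp 2 fun i => a * x i

/-- the smeared action density -/
def field (a : ℝ) (f : R4 → ℝ) (U : Link → G) : ℝ := ∑' x, f (pt a x) * dens w U x

/-- correlation function of the centred smeared fields -/
def corr [MeasurableSpace G] (μ : Measure (Link → G)) (a : ℝ) (f : Fin k → R4 → ℝ) : ℝ :=
  ∫ U, ∏ i, (field w a (f i) U - ∫ V, field w a (f i) V ∂μ) ∂μ

/-- the periods of the two compact directions -/
def Per (m : ℝ) : Set R4 := {v | ∃ x : Fin 4 → ℤ, x 0 = 0 ∧ x 1 = 0 ∧ v = pt m x}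

/-- continuously differentiable functions with compact supports which are pairwise disjoint
modulo the periods -/
def Adm (m : ℝ) (f : Fin k → R4 → ℝ) : Prop :=
  (∀ i, HasCompactSupport (f i) ∧ ContDiff ℝ 1 (f i)) ∧ ∀ i j, i ≠ j → ∀ x ∈ tsupport (f i),
    ∀ y ∈ tsupport (f j), ∀ v ∈ Per m, x ≠ y + v

/-- admissible families at positive times -/
def Pos (m : ℝ) (f : Fin k → R4 → ℝ) : Prop := Adm m f ∧ ∀ i, ∀ y ∈ tsupport (f i), 0 < y 0

/-- reflection of the time axis -/
def theta (f : R4 → ℝ) (y : R4) : ℝ := f (WithLp.toLp 2 (Function.update y 0 (-y 0)))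

/-- exchange of the two infinite axes -/
def swap (f : R4 → ℝ) (y : R4) : ℝ := f (WithLp.toLp 2 (y ∘ Equiv.swap 0 1))

/-- matrix of the reflection in the hyperplane orthogonal to `y` -/
def mirror (y : R4) (i j : Fin 4) : ℝ := (if i = j then 1 else 0) - 2 * y i * y j / ‖y‖ ^ 2

/-- `π ^ (2 k)` times the correlation function of the action density of `d` free Maxwell
fields at the points `y i` -/
def free (d : ℝ) (y : Fin k → R4) : ℝ :=
  ∑ σ : Equiv.Perm (Fin k), if ∀ i, σ i ≠ i then (d / 2) ^ σ.cycleType.card *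
    ∑ a : Fin k → Fin 4 × Fin 4, ∏ i, if (a i).1 < (a i).2 then
      (mirror (y (σ i) - y i) (a i).1 (a (σ i)).1 * mirror (y (σ i) - y i) (a i).2 (a (σ i)).2 -
        mirror (y (σ i) - y i) (a i).1 (a (σ i)).2 * mirror (y (σ i) - y i) (a i).2 (a (σ i)).1) /
        ‖y (σ i) - y i‖ ^ 4 else 0 else 0

variable (H : Type) [NormedAddCommGroup H] [InnerProductSpace ℂ H] [CompleteSpace H]

/-- `T v = exp (-v 0 * A + i v P)`: a strongly continuous contraction semigroup on the half space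
which fixes the unit vector `Ω`, is unitary in space and periodic in the compact directions; the
generator `A` is self adjoint, unbounded and at least `Δ` on the orthogonal complement of `Ω` -/
def Gapped (m Δ : ℝ) (Ω : H) (T : R4 → H →L[ℂ] H) : Prop := ‖Ω‖ = 1 ∧ T 0 = 1 ∧
  (∀ v, 0 ≤ v 0 → ‖T v‖ ≤ 1 ∧ T v Ω = Ω ∧ ∀ u, 0 ≤ u 0 → T (v + u) = T v * T u) ∧
  (∀ x, ContinuousOn (fun v => T v x) {v | 0 ≤ v 0}) ∧
  (∀ v, v 0 = 0 → T v ∈ unitary (H →L[ℂ] H)) ∧ (∀ v ∈ Per m, T v = 1) ∧
  (∀ t ≥ 0, (T (EuclideanSpace.single 0 t)).IsPositive ∧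
    ∀ x, inner ℂ Ω x = 0 → ‖T (EuclideanSpace.single 0 t) x‖ ≤ exp (-Δ * t) * ‖x‖) ∧
  ¬∃ B : ℝ, ∀ t ≥ 0, ‖T (EuclideanSpace.single 0 t) - 1‖ ≤ B * t

/-- Osterwalder-Schrader reconstruction -/
def Massive (m Δ : ℝ) (S : ∀ {k : ℕ}, (Fin k → R4 → ℝ) → ℝ) : Prop :=
  ∃ (Ψ : ∀ {k : ℕ}, (Fin k → R4 → ℝ) → H) (T : R4 → H →L[ℂ] H),
    Dense (Submodule.span ℂ {x | ∃ k, ∃ f : Fin k → R4 → ℝ, Pos m f ∧ Ψ f = x} : Set H) ∧
    (∀ k (f : Fin k → R4 → ℝ), Pos m f →
      (∀ l (g : Fin l → R4 → ℝ), Pos m g →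
        inner ℂ (Ψ f) (Ψ g) = S (Fin.append (fun i => theta (f i)) g)) ∧
      ∀ v, 0 ≤ v 0 → T v (Ψ f) = Ψ fun i y => f i (y - v)) ∧
    Gapped H m Δ (Ψ ![]) T

end Pool.Agent.Lib.MP_7f377f_mp.YP
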