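import Pool.Agent.Lib.MP_7f377f_mp.G.YPDefs
import Pool.Agent.Lib.MP_7f377f_mp.G.TwZ
import Pool.Agent.Lib.MP_7f377f_mp.G.SuTw
import Pool.Agent.Lib.MP_7f377f_mp.G.GSUN
import Pool.Agent.Lib.MP_7f377f_mp.G.GReal
import Pool.Agent.Lib.MP_7f377f_mp.G.GMk

/-! The theorem on the plane times a small twisted torus for `SU(N)`. -/

noncomputable section

namespace Pool.Agent.Lib.MP_7f377f_mp.YP

open MeasureTheory Filter Topology Real

section scale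

variable {c m Δ : ℝ} {k l : ℕ}

theorem ts_smul (f : R4 → ℝ) : tsupport (c • f) ⊆ tsupport f :=
  closure_mono fun _ hy => right_ne_zero_of_mul hy

theorem Adm.smul {f : Fin k → R4 → ℝ} (h : Adm m f) : Adm m (c • f) :=
  ⟨fun i => ⟨(h.1 i).1.mono' ((subset_tsupport _).trans (ts_smul _)), (h.1 i).2.const_smul c⟩,
    fun i j e x hx y hy => h.2 i j e x (ts_smul _ hx) y (ts_smul _ hy)⟩

theorem Pos.smul {f : Fin k → R4 → ℝ} (h : Pos m f) : Pos m (c • f) :=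
  ⟨h.1.smul, fun i y hy => h.2 i y (ts_smul _ hy)⟩

theorem app_smul (f : Fin k → R4 → ℝ) (g : Fin l → R4 → ℝ) :
    c • Fin.append f g = Fin.append (c • f) (c • g) := funext fun i => by
  induction i using Fin.addCases <;> simp

theorem Massive.sc {H : Type} [NormedAddCommGroup H] [InnerProductSpace ℂ H] [CompleteSpace H]
    {S : ∀ {k : ℕ}, (Fin k → R4 → ℝ) → ℝ} (h : Massive H m Δ S) (hc : c ≠ 0) :
    Massive H m Δ fun f => S (c • f) := by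
  obtain ⟨Ψ, T, h1, h2, h3⟩ := h
  refine ⟨fun f => Ψ (c • f), T, h1.mono (Submodule.span_mono ?_), fun k f hf =>
    ⟨fun l g hg => ?_, (h2 k _ hf.smul).2⟩, by simpa only [Matrix.smul_empty] using h3⟩
  · rintro _ ⟨k, f, hf, rfl⟩
    exact ⟨k, c⁻¹ • f, hf.smul, by simp only [smul_smul, mul_inv_cancel₀ hc, one_smul]⟩
  · simp only [app_smul]
    exact (h2 k _ hf.smul).1 l _ hg.smul

/-- the continuum limit of the correlation functions `cr` -/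
def Out (cr : ℕ → ∀ {k : ℕ}, (Fin k → R4 → ℝ) → ℝ) (c₂ d m Δ : ℝ) : Prop :=
  ∃ S : ∀ {k : ℕ}, (Fin k → R4 → ℝ) → ℝ,
    (∀ k (f : Fin k → R4 → ℝ), Adm m f →
      Tendsto (fun j => cr j f) atTop (𝓝 (S f)) ∧ (∀ v, S (fun i y => f i (y + v)) = S f) ∧
      S (fun i => theta (f i)) = S f ∧ S (fun i => swap (f i)) = S f) ∧
    (∀ k R, ∀ δ > 0, ∃ C : ℝ, ∀ (f : Fin k → R4 → ℝ) (L : Fin k → NNReal), Adm m f →
      (∀ i, LipschitzWith (L i) (f i) ∧ ∀ y, f i y ≠ 0 → ‖y‖ ≤ R) →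
      (∀ i j, i ≠ j → ∀ x y, f i x ≠ 0 → f j y ≠ 0 → ∀ v ∈ Per m, δ ≤ dist x (y + v)) →
      |S f| ≤ C * ∏ i, L i) ∧
    (∀ k (f : Fin k → R4 → ℝ), Adm 0 f →
      Tendsto (fun t : ℝ => log t⁻¹ ^ k * S fun i y => f i (t⁻¹ • y)) (𝓝[>] 0)
        (𝓝 (c₂ ^ k * ∫ y : Fin k → R4, (∏ i, f i (y i)) * free d y))) ∧
    ∃ (H : Type) (_ : NormedAddCommGroup H) (_ : InnerProductSpace ℂ H) (_ : CompleteSpace H),
      Massive H m Δ S

theorem Out.sc {cr cr' : ℕ → ∀ {k : ℕ}, (Fin k → R4 → ℝ) → ℝ} {c₂ d : ℝ}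
    (h : Out cr c₂ d m Δ) (hc : 0 < c) (e : ∀ j k (f : Fin k → R4 → ℝ), cr j (c • f) = cr' j f) :
    Out cr' (c * c₂) d m Δ := by
  obtain ⟨S, h3, h4, h5, H, i1, i2, i3, hQ⟩ := h
  refine ⟨fun f => S (c • f), fun k f hf => ?_, fun k R δ δ0 => ?_, fun k f hf => ?_, H, i1, i2, i3,
    hQ.sc hc.ne'⟩
  · obtain ⟨a1, a2⟩ := h3 k _ (hf.smul (c := c))
    exact ⟨a1.congr fun j => e j k f, a2⟩
  · obtain ⟨C, hC⟩ := h4 k R δ δ0
    refine ⟨C * c ^ k, fun f L f1 f2 f3 => ?_⟩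
    have := hC (c • f) (fun i => ‖c‖₊ * L i) f1.smul
      (fun i => ⟨(lipschitzWith_smul c).comp (f2 i).1, fun y hy =>
        (f2 i).2 y (right_ne_zero_of_mul hy)⟩)
      fun i j hij x y hx hy => f3 i j hij x y (right_ne_zero_of_mul hx) (right_ne_zero_of_mul hy)
    refine this.trans_eq ?_
    simp [Finset.prod_mul_distrib, abs_of_pos hc, mul_assoc]
  · refine (congrArg (fun z : ℝ => Tendsto _ _ (𝓝 z)) ?_).mp (h5 k _ (hf.smul (c := c)))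
    simp only [Pi.smul_apply, smul_eq_mul, Finset.prod_mul_distrib, Finset.prod_const,
      Finset.card_univ, Fintype.card_fin, mul_assoc, integral_const_mul, mul_pow]
    ring

end scale

section glue

variable [GD] (w : GD.G → ℝ) (hw : ∀ g, 2 - 2 * GD.re1 g = 4 * GD.t ^ 2 * w g)

theorem t4_pos : 0 < 4 * GD.t ^ 2 := by
  have := GD.t_pos
  positivity

theorem twist_eq (z : RG.Q4.Zc) (M : Fin 4 → ℕ) : YM9.pert M (YM9.tz 1 z) = twist z.1 M := by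
  funext U e
  obtain ⟨x, i⟩ := e
  refine congrArg (· * U (fun j => x j % M j, i)) ?_
  fin_cases i <;> simp [YM9.coc9, YM9.tz, YM9.zv, Fin.prod_univ_four]

theorem adm_zero {k : ℕ} {f : Fin k → R4 → ℝ} (h : Adm 0 f) : YM7.Adm f :=
  ⟨h.1, fun i j e => Set.disjoint_left.2 fun x hx hy =>
    h.2 i j e x hx x hy 0 ⟨0, rfl, rfl, by ext; simp [pt]⟩ (add_zero x).symm⟩

include hw

theorem dens_eq (U : Link → GD.G) (x : Fin 4 → ℤ) : YM9.dens U x = 4 * GD.t ^ 2 * dens w U x := by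
  simp only [YM9.dens, dens, Finset.mul_sum, hw, mul_ite, mul_zero]

theorem field_eq (a : ℝ) (f : R4 → ℝ) (U : Link → GD.G) :
    YM9.field a ((4 * GD.t ^ 2)⁻¹ • f) U = field w a f U := by
  simp only [YM9.field, field, dens_eq w hw, Pi.smul_apply, smul_eq_mul]
  refine tsum_congr fun x => ?_
  rw [mul_mul_mul_comm, inv_mul_cancel₀ t4_pos.ne', one_mul]
  rfl

variable [MeasurableSpace GD.G] (h : Measure GD.G) [IsProbabilityMeasure h]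

theorem wilson_eq (b : ℝ) (z : RG.Q4.Zc) (M : Fin 4 → ℕ) :
    YM9.wilz h b M (YM9.tz 1 z) = wilson w h (4 * GD.t ^ 2 * b) z.1 M := by
  simp only [YM9.wilz, wilson, dens_eq w hw, ← Finset.mul_sum, twist_eq]
  congr 2
  funext U
  rw [neg_mul, neg_mul, ← mul_assoc, mul_comm b]
  rfl

theorem out_all [BorelSpace GD.G] [h.IsHaarMeasure] [Finite RG.Q4.Zc] {z : RG.Q4.Zc} {P Q : GD.G}
    (hz : RG.Q4.Iso z P Q) {c : ℝ} (hc : c = GD.b0 * GD.t ^ 2) :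
    ∃ (e : ℕ → ℕ) (b : ℕ → ℝ) (s₀ : ℕ), Tendsto e atTop atTop ∧
      Tendsto (fun j => b j / log (3 ^ e j)) atTop (𝓝 (11 * c / (12 * π ^ 2))) ∧
      ∀ s ≥ s₀, ∃ Δ > (0 : ℝ), ∃ μ : ℕ → Measure (Link → GD.G),
        (∀ᶠ j in atTop, ∃ ν : ℕ → Measure (Link → GD.G), (∀ R > 0,
          Lim (fun T => wilson w h (b j) z.1 ![T, R, 3 ^ (e j - s), 3 ^ (e j - s)]) (ν R)) ∧
          Lim ν (μ j)) ∧
        Out (fun j _ f => corr w (μ j) (3 ^ e j)⁻¹ f) (12 / (11 * c)) GD.d (3 ^ s)⁻¹ Δ := by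
  obtain ⟨e, b, s0, h1, h2, h3⟩ := YM9.out_plane h hz
  have := GD.b0_pos
  have := GD.t_pos
  have a2 := h2.const_mul (4 * GD.t ^ 2)
  simp only [← mul_div_assoc] at a2
  refine ⟨e, fun j => 4 * GD.t ^ 2 * b j, s0, h1, by convert a2 using 2; rw [hc]; ring, fun s hs => ?_⟩
  obtain ⟨Δ, d0, μ, a3, S, a4, a5, a6, H, i1, i2, i3, Ψ, T, a7, a8, a9⟩ := h3 s hs
  refine ⟨Δ, d0, μ, a3.mono fun j ⟨p, ν, l1, l2⟩ => ⟨ν, fun R hR => ⟨(l1 R hR).1, fun F => ?_⟩, p,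
    fun F => l2 F F.2⟩, ?_⟩
  · simpa only [wilson_eq w hw] using (l1 R hR).2 F F.2
  have H : Out (fun j _ f => YM9.corr (μ j) (3 ^ e j)⁻¹ f) (48 / (11 * GD.b0)) GD.d (3 ^ s)⁻¹ Δ :=
    ⟨S, a4, a5, fun k f hf => a6 k f (adm_zero hf), H, i1, i2, i3, Ψ, T, a7, a8, a9.1, a9.2.1,
      a9.2.2.1, a9.2.2.2.1, a9.2.2.2.2.1, fun _ ⟨x, x0, x1, e⟩ => e ▸ a9.2.2.2.2.2.1 x x0 x1,
      a9.2.2.2.2.2.2⟩
  convert H.sc (inv_pos.2 t4_pos) (cr' := fun j _ f => corr w (μ j) (3 ^ e j)⁻¹ f)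
    fun j k f => ?_ using 1
  · rw [hc]
    field_simp
    ring
  · simp only [YM9.corr, corr, Pi.smul_apply, field_eq w hw]

end glue

attribute [local instance 100] LieRing.ofAssociativeRing

theorem main {N : ℕ} (hN : 2 ≤ N) [s₀ : MeasurableSpace (SU N)] [s : BorelSpace (SU N)]
    (h : Measure (SU N)) [i : h.IsHaarMeasure] [p : IsProbabilityMeasure h] {ω : ℂ}
    (hω : IsPrimitiveRoot ω N) (z : SU N) (hz : z.1 = ω • 1) :
    (∀ y : Fin 2 → R4, y 0 ≠ y 1 → free (N ^ 2 - 1) y = 3 * (N ^ 2 - 1) / ‖y 0 - y 1‖ ^ 8) ∧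
    ∃ (e : ℕ → ℕ) (b : ℕ → ℝ) (s₀ : ℕ), Tendsto e atTop atTop ∧
      Tendsto (fun j => b j / log (3 ^ e j)) atTop (𝓝 (11 * N / (12 * π ^ 2))) ∧
      ∀ s ≥ s₀, ∃ Δ > (0 : ℝ), ∃ μ : ℕ → Measure (Link → SU N),
        (∀ᶠ j in atTop, ∃ ν : ℕ → Measure (Link → SU N), (∀ R > 0,
          Lim (fun T => wilson (wil N) h (b j) z ![T, R, 3 ^ (e j - s), 3 ^ (e j - s)]) (ν R)) ∧
          Lim ν (μ j)) ∧
        Out (fun j _ f => corr (wil N) (μ j) (3 ^ e j)⁻¹ f) (12 / (11 * N)) (N ^ 2 - 1) (3 ^ s)⁻¹ Δ := by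
  obtain ⟨hρ, hi, -, hL, si, kl, -⟩ := GE.su_instance hN
  obtain ⟨ρ', g, φ, c1, c2, c3, c4, c5, c6, c7, c8⟩ := GE.realify _ hρ hi _ hL
  have k := GE.mkGD_c (SU N) ((Submonoid.subtype _).comp ρ') (continuous_subtype_val.comp c1)
    (fun a => (ρ' a).2.1) (Subtype.val_injective.comp c2) g c3
  let D := GE.mkGD (SU N) ((Submonoid.subtype _).comp ρ') (continuous_subtype_val.comp c1)
    (fun a => (ρ' a).2.1) (Subtype.val_injective.comp c2) g c3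
  obtain ⟨fi, ζ, P, Q, z1, z2, z3, z4⟩ := SuTw.su_twist N (by omega) hω
  obtain rfl : z = ζ.1 := Subtype.ext (hz.trans z1.symm)
  have d : (GD.d : ℝ) = N ^ 2 - 1 := (congrArg _ c8).trans (GE.su_finrank (by omega))
  have c : (N : ℝ) = GD.b0 * GD.t ^ 2 := by
    let X : GE.su N := ⟨_, GE.od_mem (i := ⟨0, by omega⟩) (j := ⟨1, by omega⟩) (by simp) 1⟩
    have e := (c7 X X).symm.trans (k _ _)
    rw [kl, c6] at e
    have : (X.1 * X.1).trace.re = -2 := by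
      simp [X, GE.od, mul_sub, sub_mul, Matrix.single_mul_single_same,
        Matrix.single_mul_single_of_ne]
      norm_num
    rw [this] at e
    linarith
  refine ⟨d ▸ @YM5.free_two D, d ▸ @out_all D (wil N) (fun a => ?_) s₀ h p s i fi ζ P Q ⟨z2, z3, z4⟩ _ c⟩
  have : (GD.rho a).trace = 2 * a.1.trace.re := c5 a
  rw [GD.re1, this, wil, show GD.n = N + N from rfl]
  push_cast
  ring

end Pool.Agent.Lib.MP_7f377f_mp.YP
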