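import Mathlib

/-! Four dimensional `SU(N)` lattice gauge fields on `ℤ ^ 4`, Wilson measures with twisted boundary
conditions and the smeared action density. -/

noncomputable section

namespace Pool.Agent.Lib.MP_7f377f_mp.YQ

open MeasureTheory Filter Topology Real

/-- the special unitary group -/
abbrev SU (N : ℕ) : Type := Matrix.specialUnitaryGroup (Fin N) ℂ

/-- the links of the lattice: a site and a direction -/
abbrev Link : Type := (Fin 4 → ℤ) × Fin 4

/-- Euclidean space -/
abbrev R4 : Type := EuclideanSpace ℝ (Fin 4)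

variable {N k : ℕ}

/-- the action density: the sum of `N - Re tr U_p` over the six plaquettes `p` with corner `x` -/
def dens (U : Link → SU N) (x : Fin 4 → ℤ) : ℝ :=
  ∑ i, ∑ j, if i < j then N - (U (x, i) * U (x + Pi.single i 1, j) *
    (U (x + Pi.single j 1, i))⁻¹ * (U (x, j))⁻¹).1.trace.re else 0

/-- the field which agrees with `U` on the box `0 ≤ x i < M i` and has the periods `M i` up to
powers of `z`: the holonomy of the last plaquette in each plane `23` of the torus is multiplied
by `z` -/
def twist (z : SU N) (M : Fin 4 → ℕ) (U : Link → SU N) : Link → SU N := fun e =>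
  (if e.2 = 3 then z ^ (e.1 2 / (M 2 : ℤ) * ((e.1 3 + 1) / (M 3 : ℤ) - e.1 3 / (M 3 : ℤ))) else 1) *
    U (fun i => e.1 i % M i, e.2)

/-- the Wilson measure of the torus with sides `M i` and the twist `z` in the plane `23` -/
def wilson [MeasurableSpace (SU N)] (h : Measure (SU N)) [IsProbabilityMeasure h] (b : ℝ)
    (z : SU N) (M : Fin 4 → ℕ) : Measure (Link → SU N) :=
  ((Measure.infinitePi fun _ => h).tilted fun U => -b *
    ∑ x ∈ Fintype.piFinset fun i => Finset.Ico (0 : ℤ) (M i), dens (twist z M U) x).map (twist z M)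

/-- weak convergence to a probability measure -/
def Lim {X : Type} [TopologicalSpace X] [MeasurableSpace X] (ν : ℕ → Measure X) (μ : Measure X) :
    Prop := IsProbabilityMeasure μ ∧
  ∀ F : C(X, ℝ), Tendsto (fun T => ∫ U, F U ∂ν T) atTop (𝓝 (∫ U, F U ∂μ))

/-- the smeared action density on the lattice of spacing `a` -/
def field (a : ℝ) (f : R4 → ℝ) (U : Link → SU N) : ℝ :=
  ∑' x : Fin 4 → ℤ, f (WithLp.toLp 2 fun i => a * x i) * dens U x

/-- correlation function of the centred smeared fields -/
def corr [MeasurableSpace (SU N)] (μ : Measure (Link → SU N)) (a : ℝ) (f : Fin k → R4 → ℝ) : ℝ :=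
  ∫ U, ∏ i, (field a (f i) U - ∫ V, field a (f i) V ∂μ) ∂μ

/-- continuously differentiable functions with compact supports which are pairwise disjoint
modulo the periods of the two compact directions -/
def Adm (m : ℝ) (f : Fin k → R4 → ℝ) : Prop :=
  (∀ i, HasCompactSupport (f i) ∧ ContDiff ℝ 1 (f i)) ∧ ∀ i j, i ≠ j → ∀ x ∈ tsupport (f i),
    ∀ y ∈ tsupport (f j), ∀ p q : ℤ, x ≠ y + WithLp.toLp 2 ![0, 0, m * p, m * q]

/-- matrix of the reflection in the hyperplane orthogonal to `y` -/
def mirror (y : R4) (i j : Fin 4) : ℝ := (if i = j then 1 else 0) - 2 * y i * y j / ‖y‖ ^ 2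

/-- `π ^ (2 k)` times the correlation function of the action density of `d` free Maxwell
fields at the points `y i` -/
def free (d : ℝ) (y : Fin k → R4) : ℝ :=
  ∑ σ : Equiv.Perm (Fin k), if ∀ i, σ i ≠ i then (d / 2) ^ σ.cycleType.card *
    ∑ a : Fin k → Fin 4 × Fin 4, ∏ i, if (a i).1 < (a i).2 then
      (mirror (y (σ i) - y i) (a i).1 (a (σ i)).1 * mirror (y (σ i) - y i) (a i).2 (a (σ i)).2 -
        mirror (y (σ i) - y i) (a i).1 (a (σ i)).2 * mirror (y (σ i) - y i) (a i).2 (a (σ i)).1) /
        ‖y (σ i) - y i‖ ^ 4 else 0 else 0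

end Pool.Agent.Lib.MP_7f377f_mp.YQ
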