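import Pool.Agent.Lib.MP_7f377f_mp.G.YQDefs
import Pool.Agent.Lib.MP_7f377f_mp.G.YPMain
import Pool.Agent.Lib.MP_7f377f_mp.G.XZ6
import Pool.Agent.Lib.MP_7f377f_mp.G.XZ7

/-! The massive Wightman theory on the plane times a small twisted torus for `SU(N)`. -/

noncomputable section

namespace Pool.Agent.Lib.MP_7f377f_mp.YQ

open MeasureTheory Filter Topology Real WA2

/-- the continuum limit of the correlation functions `cr` -/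
def Out (cr : ℕ → ∀ {k : ℕ}, (Fin k → R4 → ℝ) → ℝ) (c₂ d m Δ : ℝ) : Prop :=
  ∃ S : ∀ {k : ℕ}, (Fin k → R4 → ℝ) → ℝ,
    (∀ k (f : Fin k → R4 → ℝ), Adm m f →
      Tendsto (fun j => cr j f) atTop (𝓝 (S f)) ∧ (∀ v, S (fun i y => f i (y + v)) = S f) ∧
      S (fun i y => f i (WithLp.toLp 2 ![-y 0, y 1, y 2, y 3])) = S f ∧
      S (fun i y => f i (WithLp.toLp 2 ![y 1, y 0, y 2, y 3])) = S f ∧
      ((∀ i j, i ≠ j → ∀ x ∈ tsupport (f i), ∀ y ∈ tsupport (f j), x 0 ≠ y 0 ∨ x 1 ≠ y 1) →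
        ∀ φ : ℝ, S (fun i y => f i (WithLp.toLp 2
          ![cos φ * y 0 - sin φ * y 1, sin φ * y 0 + cos φ * y 1, y 2, y 3])) = S f)) ∧
    (∀ k R, ∀ δ > 0, ∃ C : ℝ, ∀ (f : Fin k → R4 → ℝ) (L : Fin k → NNReal), Adm m f →
      (∀ i, LipschitzWith (L i) (f i) ∧ ∀ y, f i y ≠ 0 → ‖y‖ ≤ R) →
      (∀ i j, i ≠ j → ∀ x y, f i x ≠ 0 → f j y ≠ 0 → ∀ p q : ℤ,
        δ ≤ dist x (y + WithLp.toLp 2 ![0, 0, m * p, m * q])) → |S f| ≤ C * ∏ i, L i) ∧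
    (∀ k (f : Fin k → R4 → ℝ), Adm 0 f →
      Tendsto (fun t : ℝ => log t⁻¹ ^ k * S fun i y => f i (t⁻¹ • y)) (𝓝[>] 0)
        (𝓝 (c₂ ^ k * ∫ y : Fin k → R4, (∏ i, f i (y i)) * free d y))) ∧
    (∀ (n : ℕ) (k : Fin n → ℕ) (F : ∀ u, Fin (k u) → R4 → ℝ) (c : Fin n → ℝ) (G : ℝ → ℝ),
      (∀ u, Adm m (F u) ∧ ∀ i, ∀ y ∈ tsupport (F u i), 0 < y 0) →
      (∀ t, G t = ∑ u, ∑ v, c u * c v * S (Fin.append
        (fun i y => F u i (WithLp.toLp 2 ![-y 0, y 1, y 2, y 3]))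
        fun i y => F v i (WithLp.toLp 2 ![y 0 - t, y 1, y 2, y 3]))) →
      ∀ t ≥ 0, 0 ≤ G t ∧ G t - (∑ u, c u * S (F u)) ^ 2 ≤ exp (-Δ * t) * G 0) ∧
    ∃ W : ∀ n, (Fin n → M2 → ℝ) → (Fin n → M2 → ℝ) → ℝ,
      (∀ n g f, W n g f = S fun i y =>
        f i (WithLp.toLp 2 ![y 0, y 1]) * g i (WithLp.toLp 2 ![y 2, y 3])) ∧ Wightman m Δ W ∧
      ∃ g f : Fin 4 → M2 → ℝ, (∀ i, Cc (g i) ∧ Cc (f i)) ∧
        (∀ i j, i < j → ∀ x ∈ tsupport (f i), ∀ y ∈ tsupport (f j), x 0 < y 0) ∧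
        W 4 g f ≠ W 2 ![g 0, g 1] ![f 0, f 1] * W 2 ![g 2, g 3] ![f 2, f 3] +
          W 2 ![g 0, g 2] ![f 0, f 2] * W 2 ![g 1, g 3] ![f 1, f 3] +
          W 2 ![g 0, g 3] ![f 0, f 3] * W 2 ![g 1, g 2] ![f 1, f 2]

section glue

variable [GD] (w : GD.G → ℝ) (hw : ∀ g, 2 - 2 * GD.re1 g = 4 * GD.t ^ 2 * w g)

theorem per_eq {m : ℝ} {v : R4} (h : v ∈ YM9.L2 m) :
    ∃ p q : ℤ, v = WithLp.toLp 2 ![0, 0, m * p, m * q] :=
  let ⟨z, z0, z1, e⟩ := h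
  ⟨z 2, z 3, e ▸ Pl.ext4 (by simp [YM9.pt, z0]) (by simp [YM9.pt, z1]) rfl rfl⟩

theorem Adm.yp {m : ℝ} {k : ℕ} {f : Fin k → R4 → ℝ} (h : Adm m f) : YP.Adm m f :=
  ⟨h.1, fun i j e x hx y hy _ hv => let ⟨p, q, c⟩ := per_eq hv; c ▸ h.2 i j e x hx y hy p q⟩

theorem os_sc {m Δ : ℝ} {S : ∀ {k : ℕ}, (Fin k → R4 → ℝ) → ℝ} (hO : YM9.OS2 m Δ S) (κ : ℝ)
    (n : ℕ) (k : Fin n → ℕ) (F : ∀ u, Fin (k u) → R4 → ℝ) (c : Fin n → ℝ) (G : ℝ → ℝ)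
    (hF : ∀ u, Adm m (F u) ∧ ∀ i, ∀ y ∈ tsupport (F u i), 0 < y 0)
    (hG : ∀ t, G t = ∑ u, ∑ v, c u * c v * S (κ • Fin.append
      (fun i y => F u i (WithLp.toLp 2 ![-y 0, y 1, y 2, y 3]))
      fun i y => F v i (WithLp.toLp 2 ![y 0 - t, y 1, y 2, y 3]))) :
    ∀ t ≥ 0, 0 ≤ G t ∧ G t - (∑ u, c u * S (κ • F u)) ^ 2 ≤ exp (-Δ * t) * G 0 := fun t ht => by
  have e : ∀ t, G t = YM9.gr S (fun u => κ • F u) t c := fun t => (hG t).trans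
    (Finset.sum_congr rfl fun u _ => Finset.sum_congr rfl fun v _ => by
      rw [YP.app_smul]
      refine congrArg _ (congrArg S (congrArg₂ Fin.append (funext₂ fun i y => ?_)
        (funext₂ fun i y => ?_)))
      · exact congrArg (κ * F u i ·) (Pl.ext4 rfl rfl rfl rfl)
      · exact congrArg (κ * F v i ·) (Pl.ext4 (by simp) (by simp) (by simp) (by simp)))
  have := hO.pos (f := fun u => κ • F u) (fun u => ⟨(hF u).1.yp.smul, fun i y hy =>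
    (hF u).2 i y (YP.ts_smul _ hy)⟩) c t ht
  rw [e, e]
  exact ⟨this.1.1, this.2⟩

include hw

variable [MeasurableSpace GD.G] (h : Measure GD.G) [IsProbabilityMeasure h]

theorem out_all [BorelSpace GD.G] [h.IsHaarMeasure] [Finite RG.Q4.Zc] {z : RG.Q4.Zc} {P Q : GD.G}
    (hz : RG.Q4.Iso z P Q) {c : ℝ} (hc : c = GD.b0 * GD.t ^ 2) :
    ∃ (e : ℕ → ℕ) (b : ℕ → ℝ) (s₀ : ℕ), Tendsto e atTop atTop ∧
      Tendsto (fun j => b j / log (3 ^ e j)) atTop (𝓝 (11 * c / (12 * π ^ 2))) ∧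
      ∀ s ≥ s₀, ∃ Δ > (0 : ℝ), ∃ μ : ℕ → Measure (Link → GD.G),
        (∀ᶠ j in atTop, ∃ ν : ℕ → Measure (Link → GD.G), (∀ R > 0,
          Lim (fun T => YP.wilson w h (b j) z.1 ![T, R, 3 ^ (e j - s), 3 ^ (e j - s)]) (ν R)) ∧
          Lim ν (μ j)) ∧
        Out (fun j _ f => YP.corr w (μ j) (3 ^ e j)⁻¹ f) (12 / (11 * c)) GD.d (3 ^ s)⁻¹ Δ := by
  obtain ⟨e, b, s0, h1, h2, h3⟩ := YM9.out_plane2 h hz
  have := GD.b0_pos
  have := GD.t_pos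
  have a2 := h2.const_mul (4 * GD.t ^ 2)
  simp only [← mul_div_assoc] at a2
  refine ⟨e, fun j => 4 * GD.t ^ 2 * b j, s0, h1, by convert a2 using 2; rw [hc]; ring, fun s hs => ?_⟩
  obtain ⟨Δ, d0, μ, a3, S, hO, hS, -, W, w1, w2, w3, w4⟩ := h3 s hs
  refine ⟨Δ, d0, μ, a3.mono fun j ⟨p, ν, l1, l2⟩ => ⟨ν, fun R hR => ⟨(l1 R hR).1, fun F => ?_⟩, p,
    fun F => l2 F F.2⟩, ?_⟩
  · simpa only [YP.wilson_eq w hw] using (l1 R hR).2 F F.2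
  obtain ⟨κ, hκ⟩ : ∃ κ, κ = (4 * GD.t ^ 2)⁻¹ := ⟨_, rfl⟩
  have κ0 : 0 < κ := hκ ▸ inv_pos.2 YP.t4_pos
  have sm : ∀ {k} {f : Fin k → R4 → ℝ} i, (HasCompactSupport (f i) ∧ ContDiff ℝ 1 (f i)) →
      HasCompactSupport ((κ • f) i) ∧ ContDiff ℝ 1 ((κ • f) i) := fun i e =>
    ⟨e.1.mono' ((subset_tsupport _).trans (YP.ts_smul _)), e.2.const_smul κ⟩
  have af : ∀ k (f : Fin k → R4 → ℝ), YM7.Adm f →
      Tendsto (fun t : ℝ => log t⁻¹ ^ k * S (κ • fun i y => f i (t⁻¹ • y))) (𝓝[>] 0)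
        (𝓝 ((12 / (11 * c)) ^ k * YM9.fv f)) := fun k f hf => by
    refine (congrArg (fun z : ℝ => Tendsto _ _ (𝓝 z)) ?_).mp (hO.2.2.1 k (κ • f)
      ⟨fun i => sm i (hf.1 i), fun _ _ e => (hf.2 e).mono (YP.ts_smul _) (YP.ts_smul _)⟩)
    rw [show 12 / (11 * c) = κ * (48 / (11 * GD.b0)) by rw [hc, hκ]; field_simp; ring]
    simp only [YM9.fv, Pi.smul_apply, smul_eq_mul, Finset.prod_mul_distrib, Finset.prod_const,
      Finset.card_univ, Fintype.card_fin, mul_assoc, integral_const_mul, mul_pow]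
    ring
  refine ⟨fun f => S (κ • f), fun k f hf => ?_, fun k R δ δ0 => ?_,
    fun k f hf => af k f (YP.adm_zero hf.yp), os_sc hS κ, _, fun _ _ _ => rfl,
    Pl.wightman_of d0 hO w1 w2 w3 w4 κ0.ne', ?_⟩
  · obtain ⟨b1, b2, b3, b4⟩ := hO.1 k _ (hf.yp.smul (c := κ))
    refine ⟨b1.congr fun j => ?_, b2, .trans (congrArg S (funext₂ fun i y => ?_)) b3,
      .trans (congrArg S (funext₂ fun i y => ?_)) b4, fun d φ =>
      .trans (congrArg S (funext₂ fun i y => ?_)) (Pl.rot_of w1 w2 (f := κ • f)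
        ⟨fun i => sm i (hf.1 i), fun i j n x hx y hy e => (d i j n x (YP.ts_smul _ hx) y
          (YP.ts_smul _ hy)).elim (· (Pl.pl_eq e 0)) (· (Pl.pl_eq e 1))⟩ φ)⟩
    · simp only [YM9.corr, YP.corr, Pi.smul_apply, hκ, YP.field_eq w hw]
    · exact congrArg (κ * f i ·) (Pl.ext4 rfl rfl rfl rfl)
    · exact congrArg (κ * f i ·) (Pl.ext4 rfl rfl rfl rfl)
    · exact congrArg (κ * f i ·) (Pl.ext4 rfl rfl rfl rfl)
  · obtain ⟨C, hC⟩ := hO.2.1 k R δ δ0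
    refine ⟨C * κ ^ k, fun f L f1 f2 f3 => ?_⟩
    have := hC (κ • f) (fun i => ‖κ‖₊ * L i) f1.yp.smul
      (fun i => ⟨(lipschitzWith_smul κ).comp (f2 i).1, fun y hy =>
        (f2 i).2 y (right_ne_zero_of_mul hy)⟩) fun i j hij x y hx hy v hv =>
      let ⟨p, q, c⟩ := per_eq hv
      c ▸ f3 i j hij x y (right_ne_zero_of_mul hx) (right_ne_zero_of_mul hy) p q
    refine this.trans_eq ?_
    simp [Finset.prod_mul_distrib, abs_of_pos κ0, mul_assoc]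
  · obtain ⟨g, f, n1, n2, n3⟩ := Pl.ng_of (S := fun f => S (κ • f))
      (show 12 / (11 * c) ≠ 0 by rw [hc]; positivity) af
    have e : ∀ i j, (fun l (y : R4) => ![f i, f j] l (WithLp.toLp 2 ![y 0, y 1]) *
        ![g i, g j] l (WithLp.toLp 2 ![y 2, y 3])) = ![Pl.pr (f i) (g i), Pl.pr (f j) (g j)] :=
      fun i j => funext (Fin.forall_fin_two.2 ⟨rfl, rfl⟩)
    refine ⟨g, f, n1, n2, ?_⟩
    simp only [e]
    exact n3 _ rfl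

end glue

attribute [local instance 100] LieRing.ofAssociativeRing

theorem main {N : ℕ} (hN : 2 ≤ N) [s₀ : MeasurableSpace (SU N)] [s : BorelSpace (SU N)]
    (h : Measure (SU N)) [i : h.IsHaarMeasure] [p : IsProbabilityMeasure h] {ω : ℂ}
    (hω : IsPrimitiveRoot ω N) (z : SU N) (hz : z.1 = ω • 1) :
    (∀ y : Fin 2 → R4, y 0 ≠ y 1 → free (N ^ 2 - 1) y = 3 * (N ^ 2 - 1) / ‖y 0 - y 1‖ ^ 8) ∧
    ∃ (e : ℕ → ℕ) (b : ℕ → ℝ) (s₀ : ℕ), Tendsto e atTop atTop ∧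
      Tendsto (fun j => b j / log (3 ^ e j)) atTop (𝓝 (11 * N / (12 * π ^ 2))) ∧
      ∀ s ≥ s₀, ∃ Δ > (0 : ℝ), ∃ μ : ℕ → Measure (Link → SU N),
        (∀ᶠ j in atTop, ∃ ν : ℕ → Measure (Link → SU N), (∀ R > 0,
          Lim (fun T => wilson h (b j) z ![T, R, 3 ^ (e j - s), 3 ^ (e j - s)]) (ν R)) ∧
          Lim ν (μ j)) ∧
        Out (fun j _ f => corr (μ j) (3 ^ e j)⁻¹ f) (12 / (11 * N)) (N ^ 2 - 1) (3 ^ s)⁻¹ Δ := by
  obtain ⟨hρ, hi, -, hL, si, kl, -⟩ := GE.su_instance hN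
  obtain ⟨ρ', g, φ, c1, c2, c3, c4, c5, c6, c7, c8⟩ := GE.realify _ hρ hi _ hL
  have k := GE.mkGD_c (SU N) ((Submonoid.subtype _).comp ρ') (continuous_subtype_val.comp c1)
    (fun a => (ρ' a).2.1) (Subtype.val_injective.comp c2) g c3
  let D := GE.mkGD (SU N) ((Submonoid.subtype _).comp ρ') (continuous_subtype_val.comp c1)
    (fun a => (ρ' a).2.1) (Subtype.val_injective.comp c2) g c3
  obtain ⟨fi, ζ, P, Q, z1, z2, z3, z4⟩ := SuTw.su_twist N (by omega) hω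
  obtain rfl : z = ζ.1 := Subtype.ext (hz.trans z1.symm)
  have d : (GD.d : ℝ) = N ^ 2 - 1 := (congrArg _ c8).trans (GE.su_finrank (by omega))
  have c : (N : ℝ) = GD.b0 * GD.t ^ 2 := by
    let X : GE.su N := ⟨_, GE.od_mem (i := ⟨0, by omega⟩) (j := ⟨1, by omega⟩) (by simp) 1⟩
    have e := (c7 X X).symm.trans (k _ _)
    rw [kl, c6] at e
    have : (X.1 * X.1).trace.re = -2 := by
      simp [X, GE.od, mul_sub, sub_mul, Matrix.single_mul_single_same,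
        Matrix.single_mul_single_of_ne]
      norm_num
    rw [this] at e
    linarith
  refine ⟨d ▸ @YM5.free_two D,
    d ▸ @out_all D (YP.wil N) (fun a => ?_) s₀ h p s i fi ζ P Q ⟨z2, z3, z4⟩ _ c⟩
  have : (GD.rho a).trace = 2 * a.1.trace.re := c5 a
  rw [GD.re1, this, YP.wil, show GD.n = N + N from rfl]
  push_cast
  ring

end Pool.Agent.Lib.MP_7f377f_mp.YQ
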