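import Pool.Agent.Lib.MP_7f377f_mp.YM14Defs
import Pool.Agent.Lib.MP_7f377f_mp.G.YGScale

/-! Change of the normalisation of Schwinger distributions. -/

noncomputable section

namespace Pool.Agent.Lib.MP_7f377f_mp

open MeasureTheory Filter Topology Real Finset MvPolynomial
open scoped Nat ComplexOrder ContDiff

namespace YM7

variable {E : Type} [NormedAddCommGroup E] [NormedSpace ℝ E] {n m : ℕ} {c : ℝ}

theorem Van.der {A : Set (Fin n → E)} {F : (Fin n → E) → ℂ} (h : Van A F) (z : ℂ) (q : ℕ)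
    (x : Fin n → E) : ‖iteratedFDeriv ℝ q (fun x => z * F x) x‖ = ‖z‖ * ‖iteratedFDeriv ℝ q F x‖ := by
  obtain ⟨⟨G, rfl⟩, -⟩ := h
  rw [← norm_smul, ← iteratedFDeriv_const_smul_apply' (G.smooth q).contDiffAt]
  rfl

theorem Van.smul {A : Set (Fin n → E)} {F : (Fin n → E) → ℂ} (h : Van A F) (z : ℂ) :
    Van A fun x => z * F x :=
  ⟨h.1.elim fun G e => ⟨z • G, e ▸ rfl⟩, fun x hx q => by rw [h.der, h.2 x hx, mul_zero]⟩

theorem otim_smul (θ : E → E) (v : E) (F : (Fin n → E) → ℂ) (B : (Fin m → E) → ℂ) :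
    otim v (dag θ fun x => (c : ℂ) ^ n * F x) (fun x => (c : ℂ) ^ m * B x) =
      fun x => (c : ℂ) ^ (n + m) * otim v (dag θ F) B x := funext fun x => by
  simp only [otim, dag, map_mul, map_pow, Complex.conj_ofReal]
  ring

theorem Schwinger.sc {t : E → ℝ} {θ : E → E} {G : Set (E → E)} {D : Set E}
    {C : ∀ n, (Fin n → E → ℝ) → Prop} {w : ∀ n, (Fin n → E → ℝ) → ℂ} (h : Schwinger t θ G D C w)
    (hC : ∀ n f, C n f → C n fun i => c • f i) :
    Schwinger t θ G D C fun n f => w n fun i => c • f i := by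
  obtain ⟨T, h0, h1, ⟨α, β, s, h2⟩, h3, h4, h5⟩ := h
  refine ⟨fun n F => T n fun x => (c : ℂ) ^ n * F x, fun n f f1 f2 => ?_, fun F => by simp [h1],
    ⟨exp |c| * |α|, β + 1, s, fun n F hF => ⟨fun a B hB => ?_, fun M hM => ?_⟩⟩,
    fun n F hF => h3 n _ (hF.smul _), fun N F hF => ?_, fun n m F B hF hB a ha => ?_⟩
  · refine .trans ?_ (h0 n _ (hC n f f1) fun i => (f2 i).const_smul c)
    simp [prod_mul_distrib]
  · rw [← (h2 n _ (hF.smul _)).1 a _ (hB.smul _)]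
    simp only [mul_add, mul_left_comm a]
  · have M0 : 0 ≤ M := le_trans (by positivity) (hM 0 (Nat.zero_le _) 0 (Nat.zero_le _) 0)
    have a := pow_div_factorial_le_exp _ (abs_nonneg c) n
    rw [div_le_iff₀ (by positivity)] at a
    refine ((h2 n _ (hF.smul _)).2 (|c| ^ n * M) fun p hp q hq x => ?_).trans ?_
    · rw [hF.der, norm_pow, Complex.norm_real, norm_eq_abs, mul_left_comm]
      exact mul_le_mul_of_nonneg_left (hM p hp q hq x) (by positivity)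
    · calc _ ≤ |α| * n ! ^ β * (exp |c| * n ! * M) := by gcongr; exact le_abs_self α
        _ = _ := by ring
  · simpa only [otim_smul] using h4 N _ fun n => (hF n).smul ((c : ℂ) ^ n)
  · have := h5 n m _ _ (hF.smul ((c : ℂ) ^ n)) (hB.smul ((c : ℂ) ^ m)) a ha
    simp only [otim_smul] at this
    convert this using 4
    ext
    simp [dag]

end YM7

namespace YG

variable {c : ℝ}

/-- the conclusion of the theorem on Schwinger distributions for the lattice expectations `V` -/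
def OutS (V : ℝ → ℕ+ → ℝ → Fp → ℂ) (c₁ c₂ : ℝ) (d : ℕ) (G : Set (R4 → R4)) (D : Set R4) : Prop :=
  ∃ (n : ℕ → ℕ+) (a b : ℕ → ℝ) (S W : Fp → ℂ) (r : ℕ → ℕ) (B : ∀ j, Fin (r j) → Fp),
    Tendsto a atTop (𝓝[>] 0) ∧ Tendsto (fun j => a j * n j) atTop atTop ∧
    Tendsto (fun j => b j / log (a j)⁻¹) atTop (𝓝 c₁) ∧
    (∀ (j : ℕ) i, B j i ∈ Loc (Fut 0 j)) ∧
    (∀ Z ∈ Loc Set.univ, Tendsto (fun j => V (b j) (n j) (a j) Z) atTop (𝓝 (S Z)) ∧
      Tendsto (fun j => S (ins (B j) Z)) atTop (𝓝 (W Z)) ∧ ∀ᶠ j in atTop, ins (B j) Z ∈ Loc Set.univ) ∧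
    YM7.Schwinger (fun y : R4 => y 0) (fun y => WithLp.toLp 2 (Function.update y 0 (-y 0))) G D
      (fun _ => Adm) (fun _ f => W (fld f)) ∧
    (∀ k (f : Fin k → R4 → ℝ), Adm f →
      Tendsto (fun d : ℝ => (log d⁻¹ : ℂ) ^ k * W (fld fun i y => f i (d⁻¹ • y))) (𝓝[>] 0)
        (𝓝 (c₂ ^ k * ∫ y : Fin k → R4, (∏ i, f i (y i)) * free d y : ℝ))) ∧
    (∀ y : Fin 2 → R4, y 0 ≠ y 1 → free d y = 3 * d / ‖y 0 - y 1‖ ^ 8) ∧
    ∃ (f : Fin 4 → R4 → ℝ) (Y : Fin 4 → Fp), Adm f ∧ (∀ i, ContDiff ℝ ∞ (f i)) ∧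
      (∀ i, Y i = X (f i) - C (W (X (f i)))) ∧ W (Y 0 * Y 1 * Y 2 * Y 3) ≠
        W (Y 0 * Y 1) * W (Y 2 * Y 3) + W (Y 0 * Y 2) * W (Y 1 * Y 3) + W (Y 0 * Y 3) * W (Y 1 * Y 2)

theorem OutS.sc {V V' : ℝ → ℕ+ → ℝ → Fp → ℂ} {c₁ c₂ : ℝ} {d : ℕ} {G : Set (R4 → R4)} {D : Set R4}
    (h : OutS V c₁ c₂ d G D) (hc : 0 < c)
    (e : ∀ b n a Z, V' (c * b) n a Z = V b n a (sc c⁻¹ Z)) : OutS V' (c * c₁) (c⁻¹ * c₂) d G D := by
  obtain ⟨n, a, b, S, W, r, B, h1, h2, h3, h4, h5, h6, h8, h9, f, Y, g1, g2, g3, g4⟩ := h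
  have e1 : ∀ j Z, YG.sc c⁻¹ (ins (fun i => YG.sc c (B j i)) Z) = ins (B j) (YG.sc c⁻¹ Z) :=
    fun j Z => by simp only [sc_ins, sc_sc, inv_mul_cancel₀ hc.ne', sc_one]
  refine ⟨n, a, fun j => c * b j, fun Z => S (YG.sc c⁻¹ Z), fun Z => W (YG.sc c⁻¹ Z), r,
    fun j i => YG.sc c (B j i), h1, h2, by simpa only [mul_div_assoc] using h3.const_mul c,
    fun j i => sc_loc (h4 j i), fun Z hZ => ?_, by simpa only [sc_fld] using h6.sc fun _ _ => Adm.smul,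
    fun k f hf => ?_, h9, fun i => c • f i, fun i => YG.sc c (Y i), g1.smul,
    fun i => (g2 i).const_smul c, fun i => ?_, ?_⟩
  · obtain ⟨a1, a2, a3⟩ := h5 _ (sc_loc (c := c⁻¹) hZ)
    refine ⟨by simpa only [e] using a1, by simpa only [e1] using a2, a3.mono fun j hj => ?_⟩
    have := sc_loc (c := c) hj
    rwa [← e1, sc_sc, mul_inv_cancel₀ hc.ne', sc_one] at this
  · have := h8 k _ (hf.smul (c := c⁻¹))
    simp only [sc_fld]
    refine (congrArg (fun z : ℝ => Tendsto _ _ (𝓝 (z : ℂ))) ?_).mp this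
    simp only [Pi.smul_apply, smul_eq_mul, prod_mul_distrib, prod_const,
      card_univ, Fintype.card_fin, mul_assoc, integral_const_mul, mul_pow]
    ring
  · simp only [g3, YG.sc, map_sub, rename_X, rename_C, smul_smul, inv_mul_cancel₀ hc.ne', one_smul]
  · simpa only [map_mul, sc_sc, inv_mul_cancel₀ hc.ne', sc_one] using g4

end YG

end Pool.Agent.Lib.MP_7f377f_mp
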