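import Pool.Agent.Lib.MP_7f377f_mp.G.YWMain
import Pool.Agent.Lib.MP_7f377f_mp.G.S15

/-! Wightman fields with a stress tensor for a compact group with simple Lie algebra. -/

noncomputable section

namespace Pool.Agent.Lib.MP_7f377f_mp.YG

open MeasureTheory Filter Topology Real Finset MvPolynomial
open scoped ContDiff

/-- the conclusion of the theorem for the lattice expectations `V` -/
def OutT (V : ℝ → ℕ+ → ℝ → Fp → ℂ) (c₁ c₂ κ : ℝ) (d : ℕ) : Prop :=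
  ∃ (n : ℕ → ℕ+) (a b : ℕ → ℝ) (S W : Fp → ℂ) (r : ℕ → ℕ) (B : ∀ j, Fin (r j) → Fp),
    Tendsto a atTop (𝓝[>] 0) ∧ Tendsto (fun j => a j * n j) atTop atTop ∧
    Tendsto (fun j => b j / log (a j)⁻¹) atTop (𝓝 c₁) ∧
    (∀ (j : ℕ) i, B j i ∈ Loc (Fut 0 j)) ∧
    (∀ Z ∈ Loc Set.univ, Tendsto (fun j => V (b j) (n j) (a j) Z) atTop (𝓝 (S Z)) ∧
      Tendsto (fun j => S (ins (B j) Z)) atTop (𝓝 (W Z)) ∧ ∀ᶠ j in atTop, ins (B j) Z ∈ Loc Set.univ) ∧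
    WA.Wightman (fun _ => Adm) (fun _ f => W (fld f)) ∧
    (∀ k (f : Fin k → R4 → ℝ), Adm f →
      Tendsto (fun d : ℝ => (log d⁻¹ : ℂ) ^ k * W (fld fun i y => f i (d⁻¹ • y))) (𝓝[>] 0)
        (𝓝 (c₂ ^ k * ∫ y : Fin k → R4, (∏ i, f i (y i)) * free d y : ℝ))) ∧
    Stress κ W ∧
    ∃ (f : Fin 4 → R4 → ℝ) (Y : Fin 4 → Fp), Adm f ∧
      (∀ i j, i < j → ∀ x ∈ tsupport (f i), ∀ y ∈ tsupport (f j), x 0 < y 0) ∧
      (∀ i, Y i = X (f i) - C (W (X (f i)))) ∧ W (Y 0 * Y 1 * Y 2 * Y 3) ≠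
        W (Y 0 * Y 1) * W (Y 2 * Y 3) + W (Y 0 * Y 2) * W (Y 1 * Y 3) + W (Y 0 * Y 3) * W (Y 1 * Y 2)

theorem OutT.sc {V V' : ℝ → ℕ+ → ℝ → Fp → ℂ} {c c₁ c₂ κ : ℝ} {d : ℕ} (h : OutT V c₁ c₂ κ d)
    (hc : 0 < c) (e : ∀ b n a Z, V' (c * b) n a Z = V b n a (sc c⁻¹ Z)) :
    OutT V' (c * c₁) (c⁻¹ * c₂) (c⁻¹ ^ 2 * κ) d := by
  obtain ⟨n, a, b, S, W, r, B, h1, h2, h3, h4, h5, h6, h8, h9, f, Y, g1, g, g3, g4⟩ := h
  have e1 : ∀ j Z, YG.sc c⁻¹ (ins (fun i => YG.sc c (B j i)) Z) = ins (B j) (YG.sc c⁻¹ Z) :=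
    fun j Z => by simp only [sc_ins, sc_sc, inv_mul_cancel₀ hc.ne', sc_one]
  refine ⟨n, a, fun j => c * b j, fun Z => S (YG.sc c⁻¹ Z), fun Z => W (YG.sc c⁻¹ Z), r,
    fun j i => YG.sc c (B j i), h1, h2, by simpa only [mul_div_assoc] using h3.const_mul c,
    fun j i => sc_loc (h4 j i), fun Z hZ => ?_,
    by simpa only [sc_fld] using h6.sc (inv_ne_zero hc.ne') fun _ _ => Adm.smul,
    fun k f hf => ?_, h9.sc (inv_ne_zero hc.ne'), fun i => c • f i, fun i => YG.sc c (Y i), g1.smul,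
    fun i j o x hx y hy => g i j o x (ts_smul _ hx) y (ts_smul _ hy), fun i => ?_, ?_⟩
  · obtain ⟨a1, a2, a3⟩ := h5 _ (sc_loc (c := c⁻¹) hZ)
    refine ⟨by simpa only [e] using a1, by simpa only [e1] using a2, a3.mono fun j hj => ?_⟩
    have := sc_loc (c := c) hj
    rwa [← e1, sc_sc, mul_inv_cancel₀ hc.ne', sc_one] at this
  · have := h8 k _ (hf.smul (c := c⁻¹))
    simp only [sc_fld]
    refine (congrArg (fun z : ℝ => Tendsto _ _ (𝓝 (z : ℂ))) ?_).mp this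
    simp only [Pi.smul_apply, smul_eq_mul, prod_mul_distrib, prod_const,
      card_univ, Fintype.card_fin, mul_assoc, integral_const_mul, mul_pow]
    ring
  · simp only [g3, YG.sc, map_sub, rename_X, rename_C, smul_smul, inv_mul_cancel₀ hc.ne', one_smul]
  · simpa only [map_mul, sc_sc, inv_mul_cancel₀ hc.ne', sc_one] using g4

theorem outT_of [GD] {N : ℕ} (ρ : GD.G →* Matrix.unitaryGroup (Fin N) ℂ) (hn : GD.n = N + N)
    (ht : ∀ a, (GD.rho a).trace = 2 * (ρ a).1.trace.re) [MeasurableSpace GD.G] (h : Measure GD.G)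
    [BorelSpace GD.G] [h.IsHaarMeasure] [IsProbabilityMeasure h] {c : ℝ}
    (hc : c = 2 * (GD.b0 * GD.t ^ 2)) :
    OutT (fun b n a Z => vev ρ h b n a Z) (11 * c / (24 * π ^ 2)) (24 / (11 * c))
      (2 * π ^ 2 * (24 / (11 * c)) ^ 2) GD.d := by
  have := GD.b0_pos
  have := YM5.t_pos
  have : 0 < GD.d := GD.d3.trans_lt' three_pos
  obtain ⟨n, a, b, S, e1, e2, e3, e4, G, β, U, S₀, R⟩ := RG.Q4.En.out_run h
  have hS := R.inp
  obtain ⟨W, w1, hD, hV, hR⟩ := hS.pure_rot R.rot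
  have hW := hS.dom hD w1
  obtain ⟨r, B, b1, b2⟩ := hS.ins w1 hD
  obtain ⟨K, _, _, _, hq⟩ := hW.quantum hV
  obtain ⟨_, _, _, _, -, -, -, st⟩ := R.main
  obtain ⟨f, Y, g1, -, g⟩ := Wm.non_gauss_ord w1 (by positivity) hW.af
  have H : OutT (fun b n a Z => YM7.vev h b n a Z) (11 * GD.b0 / (48 * π ^ 2)) (48 / (11 * GD.b0))
      (2 * π ^ 2 * (48 / (11 * GD.b0)) ^ 2) GD.d :=
    ⟨n, a, b, S, W, r, B, e1, e2, e3, b1, fun Z hZ => ⟨e4 Z hZ, b2 Z hZ⟩,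
      Wm.wightman_of hW.st hW.lin hR ((Wm.sQ1_of S₀ S hS.st R.lift hS.lin R.prod).dom hD) hq
        (by positivity) (by positivity) YM5.free_two hW.af, hW.af, st W ⟨w1, hD, hR⟩, f, Y, g1, g⟩
  convert H.sc (V' := fun b n a Z => vev ρ h b n a Z) t4_pos
    fun b n a Z => vev_eq ρ hn ht h b a Z using 1 <;> rw [hc] <;> field_simp <;> ring

attribute [local instance 100] LieRing.ofAssociativeRing

theorem mainT (G : Type) [Group G] [TopologicalSpace G] [IsTopologicalGroup G]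
    [CompactSpace G] [m : MeasurableSpace G] [s : BorelSpace G] (h : Measure G) [i : h.IsHaarMeasure]
    [p : IsProbabilityMeasure h] {N : ℕ} (ρ : G →* Matrix.unitaryGroup (Fin N) ℂ)
    (hρ : Continuous ρ) (hi : Function.Injective ρ) (L : LieSubalgebra ℝ (Matrix (Fin N) (Fin N) ℂ))
    [LieAlgebra.IsSimple ℝ L] (hL : ∀ X, X ∈ L ↔ ∀ s : ℝ, ∃ g, (ρ g).1 = NormedSpace.exp (s • X)) :
    ∃ c > (0 : ℝ), (∀ X Y : L, killingForm ℝ L X Y = c * (X.1 * Y.1).trace.re) ∧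
      OutT (fun b n a Z => vev ρ h b n a Z) (11 * c / (24 * π ^ 2)) (24 / (11 * c))
        (2 * π ^ 2 * (24 / (11 * c)) ^ 2) (Module.finrank ℝ L) := by
  obtain ⟨ρ', g, φ, c1, c2, c3, c4, c5, c6, c7, c8⟩ := GE.realify ρ hρ hi L hL
  have k := GE.mkGD_c G ((Submonoid.subtype _).comp ρ') (continuous_subtype_val.comp c1)
    (fun a => (ρ' a).2.1) (Subtype.val_injective.comp c2) g c3
  let D := GE.mkGD G ((Submonoid.subtype _).comp ρ') (continuous_subtype_val.comp c1)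
    (fun a => (ρ' a).2.1) (Subtype.val_injective.comp c2) g c3
  have := GD.b0_pos
  have := GD.t_pos
  refine ⟨2 * (GD.b0 * GD.t ^ 2), by positivity, fun X Y => ?_,
    c8 ▸ @outT_of D N ρ rfl c5 m h s i p _ rfl⟩
  rw [← c7, k, c6]
  ring

end Pool.Agent.Lib.MP_7f377f_mp.YG
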