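import Pool.Agent.Lib.MP_7f377f_mp.G.YWScale
import Pool.Agent.Lib.MP_7f377f_mp.G.YGGlue
import Pool.Agent.Lib.MP_7f377f_mp.G.GReal
import Pool.Agent.Lib.MP_7f377f_mp.G.GMk
import Pool.Agent.Lib.MP_7f377f_mp.G.Q6Rot
import Pool.Agent.Lib.MP_7f377f_mp.G.LgE1
import Pool.Agent.Lib.MP_7f377f_mp.G.WmAll
import Pool.Agent.Lib.MP_7f377f_mp.G.WmNG

/-! Wightman fields for a compact group with simple Lie algebra. -/

noncomputable section

namespace Pool.Agent.Lib.MP_7f377f_mp.YG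

open MeasureTheory Real

theorem outW_of [GD] {N : ℕ} (ρ : GD.G →* Matrix.unitaryGroup (Fin N) ℂ) (hn : GD.n = N + N)
    (ht : ∀ a, (GD.rho a).trace = 2 * (ρ a).1.trace.re) [MeasurableSpace GD.G] (h : Measure GD.G)
    [BorelSpace GD.G] [h.IsHaarMeasure] [IsProbabilityMeasure h] {c : ℝ}
    (hc : c = 2 * (GD.b0 * GD.t ^ 2)) :
    OutW (fun b n a Z => vev ρ h b n a Z) (11 * c / (24 * π ^ 2)) (24 / (11 * c)) GD.d := by
  have := GD.b0_pos
  have := YM5.t_pos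
  have : 0 < GD.d := GD.d3.trans_lt' three_pos
  obtain ⟨n, a, b, S, e1, e2, e3, e4, hS, rot, -, S₀, l, p⟩ := RG.Q4.En.out_rot h
  obtain ⟨W, w1, hD, hV, hR⟩ := hS.pure_rot rot
  have hW := hS.dom hD w1
  obtain ⟨r, B, b1, b2⟩ := hS.ins w1 hD
  obtain ⟨K, _, _, _, hq⟩ := hW.quantum hV
  have H : OutW (fun b n a Z => YM7.vev h b n a Z) (11 * GD.b0 / (48 * π ^ 2)) (48 / (11 * GD.b0))
      GD.d := ⟨n, a, b, S, W, r, B, e1, e2, e3, b1, fun Z hZ => ⟨e4 Z hZ, b2 Z hZ⟩,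
    Wm.wightman_of hW.st hW.lin hR ((Wm.sQ1_of S₀ S hS.st l hS.lin p).dom hD) hq (by positivity)
      (by positivity) YM5.free_two hW.af, hW.af, YM5.free_two,
    Wm.non_gauss_ord w1 (by positivity) hW.af⟩
  convert H.sc (V' := fun b n a Z => vev ρ h b n a Z) t4_pos
    fun b n a Z => vev_eq ρ hn ht h b a Z using 1
  · rw [hc]
    field_simp
    ring
  · rw [hc]
    field_simp
    ring

attribute [local instance 100] LieRing.ofAssociativeRing

theorem mainW (G : Type) [Group G] [TopologicalSpace G] [IsTopologicalGroup G]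
    [CompactSpace G] [m : MeasurableSpace G] [s : BorelSpace G] (h : Measure G) [i : h.IsHaarMeasure]
    [p : IsProbabilityMeasure h] {N : ℕ} (ρ : G →* Matrix.unitaryGroup (Fin N) ℂ)
    (hρ : Continuous ρ) (hi : Function.Injective ρ) (L : LieSubalgebra ℝ (Matrix (Fin N) (Fin N) ℂ))
    [LieAlgebra.IsSimple ℝ L] (hL : ∀ X, X ∈ L ↔ ∀ s : ℝ, ∃ g, (ρ g).1 = NormedSpace.exp (s • X)) :
    ∃ c > (0 : ℝ), (∀ X Y : L, killingForm ℝ L X Y = c * (X.1 * Y.1).trace.re) ∧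
      OutW (fun b n a Z => vev ρ h b n a Z) (11 * c / (24 * π ^ 2)) (24 / (11 * c))
        (Module.finrank ℝ L) := by
  obtain ⟨ρ', g, φ, c1, c2, c3, c4, c5, c6, c7, c8⟩ := GE.realify ρ hρ hi L hL
  have k := GE.mkGD_c G ((Submonoid.subtype _).comp ρ') (continuous_subtype_val.comp c1)
    (fun a => (ρ' a).2.1) (Subtype.val_injective.comp c2) g c3
  let D := GE.mkGD G ((Submonoid.subtype _).comp ρ') (continuous_subtype_val.comp c1)
    (fun a => (ρ' a).2.1) (Subtype.val_injective.comp c2) g c3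
  have := GD.b0_pos
  have := GD.t_pos
  refine ⟨2 * (GD.b0 * GD.t ^ 2), by positivity, fun X Y => ?_,
    c8 ▸ @outW_of D N ρ rfl c5 m h s i p _ rfl⟩
  rw [← c7, k, c6]
  ring

end Pool.Agent.Lib.MP_7f377f_mp.YG
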