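import Pool.Agent.Lib.MP_7f377f_mp.WAxS
import Pool.Agent.Lib.MP_7f377f_mp.G.YGScale

/-! Change of the normalisation of a Wightman field. -/

noncomputable section

namespace Pool.Agent.Lib.MP_7f377f_mp.YG

open MeasureTheory Filter Topology Real Finset MvPolynomial
open scoped ContDiff

variable {c : ℝ}

/-- the conclusion of the theorem on Wightman fields for the lattice expectations `V` -/
def OutW (V : ℝ → ℕ+ → ℝ → Fp → ℂ) (c₁ c₂ : ℝ) (d : ℕ) : Prop :=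
  ∃ (n : ℕ → ℕ+) (a b : ℕ → ℝ) (S W : Fp → ℂ) (r : ℕ → ℕ) (B : ∀ j, Fin (r j) → Fp),
    Tendsto a atTop (𝓝[>] 0) ∧ Tendsto (fun j => a j * n j) atTop atTop ∧
    Tendsto (fun j => b j / log (a j)⁻¹) atTop (𝓝 c₁) ∧
    (∀ (j : ℕ) i, B j i ∈ Loc (Fut 0 j)) ∧
    (∀ Z ∈ Loc Set.univ, Tendsto (fun j => V (b j) (n j) (a j) Z) atTop (𝓝 (S Z)) ∧
      Tendsto (fun j => S (ins (B j) Z)) atTop (𝓝 (W Z)) ∧ ∀ᶠ j in atTop, ins (B j) Z ∈ Loc Set.univ) ∧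
    WA.Wightman (fun _ => Adm) (fun _ f => W (fld f)) ∧
    (∀ k (f : Fin k → R4 → ℝ), Adm f →
      Tendsto (fun d : ℝ => (log d⁻¹ : ℂ) ^ k * W (fld fun i y => f i (d⁻¹ • y))) (𝓝[>] 0)
        (𝓝 (c₂ ^ k * ∫ y : Fin k → R4, (∏ i, f i (y i)) * free d y : ℝ))) ∧
    (∀ y : Fin 2 → R4, y 0 ≠ y 1 → free d y = 3 * d / ‖y 0 - y 1‖ ^ 8) ∧
    ∃ (f : Fin 4 → R4 → ℝ) (Y : Fin 4 → Fp), Adm f ∧ (∀ i, ContDiff ℝ ∞ (f i)) ∧
      (∀ i j, i < j → ∀ x ∈ tsupport (f i), ∀ y ∈ tsupport (f j), x 0 < y 0) ∧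
      (∀ i, Y i = X (f i) - C (W (X (f i)))) ∧ W (Y 0 * Y 1 * Y 2 * Y 3) ≠
        W (Y 0 * Y 1) * W (Y 2 * Y 3) + W (Y 0 * Y 2) * W (Y 1 * Y 3) + W (Y 0 * Y 3) * W (Y 1 * Y 2)

theorem OutW.sc {V V' : ℝ → ℕ+ → ℝ → Fp → ℂ} {c₁ c₂ : ℝ} {d : ℕ} (h : OutW V c₁ c₂ d) (hc : 0 < c)
    (e : ∀ b n a Z, V' (c * b) n a Z = V b n a (sc c⁻¹ Z)) : OutW V' (c * c₁) (c⁻¹ * c₂) d := by
  obtain ⟨n, a, b, S, W, r, B, h1, h2, h3, h4, h5, h6, h8, h9, f, Y, g1, g2, g, g3, g4⟩ := h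
  have e1 : ∀ j Z, YG.sc c⁻¹ (ins (fun i => YG.sc c (B j i)) Z) = ins (B j) (YG.sc c⁻¹ Z) :=
    fun j Z => by simp only [sc_ins, sc_sc, inv_mul_cancel₀ hc.ne', sc_one]
  refine ⟨n, a, fun j => c * b j, fun Z => S (YG.sc c⁻¹ Z), fun Z => W (YG.sc c⁻¹ Z), r,
    fun j i => YG.sc c (B j i), h1, h2, by simpa only [mul_div_assoc] using h3.const_mul c,
    fun j i => sc_loc (h4 j i), fun Z hZ => ?_,
    by simpa only [sc_fld] using h6.sc (inv_ne_zero hc.ne') fun _ _ => Adm.smul,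
    fun k f hf => ?_, h9, fun i => c • f i, fun i => YG.sc c (Y i), g1.smul,
    fun i => (g2 i).const_smul c,
    fun i j o x hx y hy => g i j o x (ts_smul _ hx) y (ts_smul _ hy), fun i => ?_, ?_⟩
  · obtain ⟨a1, a2, a3⟩ := h5 _ (sc_loc (c := c⁻¹) hZ)
    refine ⟨by simpa only [e] using a1, by simpa only [e1] using a2, a3.mono fun j hj => ?_⟩
    have := sc_loc (c := c) hj
    rwa [← e1, sc_sc, mul_inv_cancel₀ hc.ne', sc_one] at this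
  · have := h8 k _ (hf.smul (c := c⁻¹))
    simp only [sc_fld]
    refine (congrArg (fun z : ℝ => Tendsto _ _ (𝓝 (z : ℂ))) ?_).mp this
    simp only [Pi.smul_apply, smul_eq_mul, prod_mul_distrib, prod_const,
      card_univ, Fintype.card_fin, mul_assoc, integral_const_mul, mul_pow]
    ring
  · simp only [g3, YG.sc, map_sub, rename_X, rename_C, smul_smul, inv_mul_cancel₀ hc.ne', one_smul]
  · simpa only [map_mul, sc_sc, inv_mul_cancel₀ hc.ne', sc_one] using g4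

end Pool.Agent.Lib.MP_7f377f_mp.YG
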