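import Pool.Agent.Lib.MP_7f377f_mp.G.ZfD

/-! Constant coefficient differential operators applied to the fundamental solution of the
Laplacian. -/

noncomputable section

namespace Pool.Agent.Lib.MP_7f377f_mp.Zf

open MvPolynomial Filter Topology Matrix
open YZ (R4)
open scoped ContDiff

/-- unit vectors -/
def ee (μ : Fin 4) : R4 := EuclideanSpace.single μ 1

/-- the fundamental solution -/
def G0 (v : R4) : ℝ := (4 * Real.pi ^ 2 * ‖v‖ ^ 2)⁻¹

/-- derivatives of the fundamental solution -/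
def Dl : List (Fin 4) → R4 → ℝ
  | [] => G0
  | μ :: l => fun v => fderiv ℝ (Dl l) v (ee μ)

/-- the symbol of the Laplacian -/
def sq4 : Pp := ∑ μ, X μ * X μ

/-- `Dc v q` is `q(∂) G0` at the point `v` -/
def Dc (v : R4) : Pp →ₗ[ℝ] ℝ :=
  (basisMonomials (Fin 4) ℝ).constr ℝ fun α => Dl (Finsupp.toMultiset α).toList v

/-- matrices act on points -/
def mv (g : Matrix (Fin 4) (Fin 4) ℝ) : R4 →L[ℝ] R4 :=
  LinearMap.toContinuousLinearMap (Matrix.toLpLin 2 2 g)

/-- matrices act on symbols -/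
def sb (g : Matrix (Fin 4) (Fin 4) ℝ) : Pp →ₐ[ℝ] Pp := aeval fun μ => ∑ ν, g ν μ • X ν

variable {v : R4}

theorem mv_apply (g : Matrix (Fin 4) (Fin 4) ℝ) (v : R4) : mv g v = ac g v := rfl

theorem ev_ne (hv : v ≠ 0) : ∀ᶠ w in 𝓝 v, w ≠ 0 := isOpen_ne.mem_nhds hv

theorem sum_ee (h : R4) : ∑ μ, h μ • ee μ = h := by
  ext i; simp [ee, Pi.single_apply]

theorem G0_an (hv : v ≠ 0) : AnalyticAt ℝ G0 v := by
  have h : AnalyticAt ℝ (fun v : R4 => ‖v‖ ^ 2) v :=
    (contDiff_norm_sq ℝ (n := ω)).contDiffAt.analyticAt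
  refine (analyticAt_const.mul h).inv ?_
  have := Real.pi_pos
  have : 0 < ‖v‖ := norm_pos_iff.2 hv
  show 4 * Real.pi ^ 2 * ‖v‖ ^ 2 ≠ 0
  positivity

theorem Dl_an (l : List (Fin 4)) (hv : v ≠ 0) : AnalyticAt ℝ (Dl l) v := by
  induction l with
  | nil => exact G0_an hv
  | cons μ l ih =>
    exact ((ContinuousLinearMap.apply ℝ ℝ (ee μ)).analyticAt _).comp ih.fderiv

theorem Dl_perm {l l' : List (Fin 4)} (h : l.Perm l') (hv : v ≠ 0) : Dl l v = Dl l' v := by
  induction h generalizing v with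
  | nil => rfl
  | cons μ _ ih =>
    show fderiv ℝ _ v _ = fderiv ℝ _ v _
    rw [Filter.EventuallyEq.fderiv_eq ((ev_ne hv).mono fun w hw => ih hw)]
  | swap a b l =>
    have h := (Dl_an l hv).contDiffAt (n := ω)
    have hd : DifferentiableAt ℝ (fderiv ℝ (Dl l)) v := (Dl_an l hv).fderiv.differentiableAt
    have e (a b : Fin 4) : Dl (a :: b :: l) v = fderiv ℝ (fderiv ℝ (Dl l)) v (ee a) (ee b) := by
      show fderiv ℝ (fun w => fderiv ℝ (Dl l) w (ee b)) v (ee a) = _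
      rw [fderiv_clm_apply hd (differentiableAt_const _)]; simp
    rw [e, e, h.isSymmSndFDerivAt_of_omega.eq]
  | trans _ _ h1 h2 => rw [h1 hv, h2 hv]

theorem Dl_iter {m : ℕ} (w : Fin m → Fin 4) (hv : v ≠ 0) :
    iteratedFDeriv ℝ m G0 v (fun r => ee (w r)) = Dl (List.ofFn w) v := by
  induction m generalizing v with
  | zero => simp [Dl]
  | succ m ih =>
    rw [DifferentiableAt.iteratedFDeriv_succ_apply_left'
      (((G0_an hv).contDiffAt (n := ω)).differentiableAt_iteratedFDeriv (by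
        exact lt_of_lt_of_le (Nat.cast_lt.2 m.lt_succ_self) le_top)), List.ofFn_succ]
    exact congrArg (fun L : R4 →L[ℝ] ℝ => L (ee (w 0))) (Filter.EventuallyEq.fderiv_eq
      ((ev_ne hv).mono fun u hu => ih (fun r => w r.succ) hu))

theorem Dc_mono (v : R4) (α : Fin 4 →₀ ℕ) (c : ℝ) :
    Dc v (monomial α c) = c * Dl (Finsupp.toMultiset α).toList v := by
  have : (monomial α c : Pp) = c • basisMonomials (Fin 4) ℝ α := by
    simp [smul_monomial]
  rw [this, map_smul, Dc, Module.Basis.constr_basis, smul_eq_mul]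

theorem Dc_one (v : R4) : Dc v 1 = G0 v := by
  have := Dc_mono v 0 1
  simpa [Dl] using this

theorem Dc_C (v : R4) (c : ℝ) : Dc v (C c) = c * G0 v := by
  have := Dc_mono v 0 c
  simpa [Dl] using this

theorem Dc_an (q : Pp) (hv : v ≠ 0) : AnalyticAt ℝ (fun v => Dc v q) v := by
  induction q using MvPolynomial.induction_on' with
  | monomial α c =>
    simp only [Dc_mono]
    exact analyticAt_const.mul (Dl_an _ hv)
  | add p q hp hq => simp only [map_add]; exact hp.add hq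

/-- multiplication of the symbol by a variable is the derivative -/
theorem Dc_X (μ : Fin 4) (q : Pp) (hv : v ≠ 0) :
    Dc v (X μ * q) = fderiv ℝ (fun v => Dc v q) v (ee μ) := by
  induction q using MvPolynomial.induction_on' with
  | monomial α c =>
    have e : (X μ * monomial α c : Pp) = monomial (Finsupp.single μ 1 + α) c := by
      rw [X, monomial_mul, one_mul]
    simp only [Dc_mono, e]
    rw [fderiv_const_mul (Dl_an _ hv).differentiableAt, Dl_perm (l' := μ :: (Finsupp.toMultiset α).toList) _ hv]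
    · simp [Dl]
    · rw [← Multiset.coe_eq_coe, Multiset.coe_toList, ← Multiset.cons_coe, Multiset.coe_toList,
        map_add, Finsupp.toMultiset_single, one_smul, Multiset.singleton_add]
  | add p q hp hq =>
    simp only [mul_add, map_add, hp, hq]
    rw [fderiv_fun_add (Dc_an p hv).differentiableAt (Dc_an q hv).differentiableAt]; rfl

theorem Dc_fd (q : Pp) (hv : v ≠ 0) (h : R4) :
    fderiv ℝ (fun v => Dc v q) v h = ∑ μ, h μ * Dc v (X μ * q) := by
  conv_lhs => rw [← sum_ee h]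
  simp only [map_sum, map_smul, Dc_X _ _ hv, smul_eq_mul]

theorem Dc_prod {m : ℕ} (w : Fin m → Fin 4) (hv : v ≠ 0) :
    Dc v (∏ r, X (w r)) = iteratedFDeriv ℝ m G0 v (fun r => ee (w r)) := by
  rw [Dl_iter w hv]
  induction m generalizing v with
  | zero => simp [Dl, Dc_one]
  | succ m ih =>
    rw [Fin.prod_univ_succ, Dc_X _ _ hv, List.ofFn_succ,
      Filter.EventuallyEq.fderiv_eq ((ev_ne hv).mono fun u hu => ih (fun r => w r.succ) hu)]
    rfl

/-- uniqueness: a family with the same derivatives and the same first member -/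
theorem Dc_uniq {U : Set R4} (hU : IsOpen U) (Φ Ψ : R4 → Pp →ₗ[ℝ] ℝ)
    (h1 : ∀ v ∈ U, Φ v 1 = Ψ v 1)
    (hΦ : ∀ v ∈ U, ∀ μ q, HasDerivAt (fun t : ℝ => Φ (v + t • ee μ) q) (Φ v (X μ * q)) 0)
    (hΨ : ∀ v ∈ U, ∀ μ q, HasDerivAt (fun t : ℝ => Ψ (v + t • ee μ) q) (Ψ v (X μ * q)) 0)
    (q : Pp) (hv : v ∈ U) : Φ v q = Ψ v q := by
  induction q using MvPolynomial.induction_on generalizing v with
  | C c =>
    have : (C c : Pp) = c • 1 := by rw [smul_eq_C_mul, mul_one]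
    rw [this, map_smul, map_smul, h1 v hv]
  | add p q hp hq => rw [map_add, map_add, hp hv, hq hv]
  | mul_X p μ ih =>
    rw [mul_comm]
    refine (hΦ v hv μ p).unique ((hΨ v hv μ p).congr_of_eventuallyEq ?_)
    have : ContinuousAt (fun t : ℝ => v + t • ee μ) 0 := by fun_prop
    have h := this.eventually (hU.mem_nhds (by simpa using hv))
    exact h.mono fun t ht => ih ht

theorem Dc_line (μ : Fin 4) (q : Pp) (hv : v ≠ 0) :
    HasDerivAt (fun t : ℝ => Dc (v + t • ee μ) q) (Dc v (X μ * q)) 0 := by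
  rw [Dc_X μ q hv]
  exact (Dc_an q hv).differentiableAt.hasFDerivAt.hasLineDerivAt (ee μ)

theorem nsq (v : R4) : ‖v‖ ^ 2 = ∑ i, v i ^ 2 := by
  rw [EuclideanSpace.norm_sq_eq]; simp

theorem Dl_one (μ : Fin 4) (hv : v ≠ 0) :
    Dl [μ] v = -(2 * Real.pi ^ 2)⁻¹ * (v μ * ((‖v‖ ^ 2) ^ 2)⁻¹) := by
  have h0 : ‖v‖ ^ 2 ≠ 0 := pow_ne_zero _ (norm_ne_zero_iff.2 hv)
  have hp := Real.pi_ne_zero
  have h := (hasDerivAt_inv (x := 4 * Real.pi ^ 2 * ‖v‖ ^ 2) (by positivity)).comp_hasFDerivAt v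
    ((hasStrictFDerivAt_norm_sq v).hasFDerivAt.const_mul (4 * Real.pi ^ 2))
  show fderiv ℝ G0 v _ = _
  have e : G0 = (fun y : ℝ => y⁻¹) ∘ fun v : R4 => 4 * Real.pi ^ 2 * ‖v‖ ^ 2 := rfl
  rw [e, h.fderiv]
  simp [ee, EuclideanSpace.inner_single_right]
  field_simp
  ring

theorem Dl_two (μ : Fin 4) (hv : v ≠ 0) : Dl [μ, μ] v =
    -(2 * Real.pi ^ 2)⁻¹ * (((‖v‖ ^ 2) ^ 2)⁻¹ - 4 * v μ ^ 2 * ((‖v‖ ^ 2) ^ 3)⁻¹) := by
  have h0 : ‖v‖ ^ 2 ≠ 0 := pow_ne_zero _ (norm_ne_zero_iff.2 hv)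
  have h := (hasDerivAt_inv (x := (‖v‖ ^ 2) ^ 2) (by positivity)).comp_hasFDerivAt v
    ((hasStrictFDerivAt_norm_sq v).hasFDerivAt.pow 2)
  have h2 := (((EuclideanSpace.proj μ : R4 →L[ℝ] ℝ).hasFDerivAt (x := v)).mul h).const_mul
    (-(2 * Real.pi ^ 2)⁻¹)
  show fderiv ℝ (Dl [μ]) v _ = _
  rw [Filter.EventuallyEq.fderiv_eq ((ev_ne hv).mono fun u hu => Dl_one μ hu)]
  have h3 := h2.fderiv
  simp only [Function.comp_def, Pi.mul_def, EuclideanSpace.coe_proj] at h3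
  rw [h3]
  simp [ee, EuclideanSpace.inner_single_right]
  field_simp
  ring

/-- the fundamental solution is harmonic -/
theorem Dc_sq (q : Pp) (hv : v ≠ 0) : Dc v (sq4 * q) = 0 := by
  have := Dc_uniq (U := {0}ᶜ) isOpen_compl_singleton
    (fun v => Dc v ∘ₗ LinearMap.mulLeft ℝ sq4) (fun _ => 0) ?_ ?_ ?_ q hv
  · simpa using this
  · intro v hv
    have h0 : ‖v‖ ^ 2 ≠ 0 := pow_ne_zero _ (norm_ne_zero_iff.2 hv)
    have e (μ : Fin 4) : Dc v (X μ * X μ) = Dl [μ, μ] v := by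
      have := Dc_prod ![μ, μ] hv
      rw [Dl_iter _ hv] at this
      simpa using this
    simp only [sq4, LinearMap.comp_apply, LinearMap.mulLeft_apply, mul_one, map_sum, e,
      Dl_two _ hv, LinearMap.zero_apply, ← Finset.mul_sum,
      Finset.sum_sub_distrib, ← Finset.sum_mul, ← nsq]
    simp only [Finset.sum_const, Finset.card_univ, Fintype.card_fin, nsmul_eq_mul]
    field_simp
    ring
  · intro v hv μ q
    have := Dc_line μ (sq4 * q) hv
    simpa [mul_left_comm] using this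
  · intro v hv μ q
    simpa using hasDerivAt_const (0 : ℝ) (0 : ℝ)

theorem mv_nsq {g : Matrix (Fin 4) (Fin 4) ℝ} {s : ℝ} (hg : gᵀ * g = s • 1) (v : R4) :
    ‖mv g v‖ ^ 2 = s * ‖v‖ ^ 2 := by
  have e (u : R4) : ‖u‖ ^ 2 = u.ofLp ⬝ᵥ u.ofLp := by rw [nsq]; simp [dotProduct, sq]
  rw [e, e, mv_apply]
  show (g *ᵥ v.ofLp) ⬝ᵥ (g *ᵥ v.ofLp) = _
  rw [dotProduct_mulVec, vecMul_mulVec, hg]
  simp [vecMul_smul]

theorem mv_ne {g : Matrix (Fin 4) (Fin 4) ℝ} {s : ℝ} (hg : gᵀ * g = s • 1) (hs : s ≠ 0)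
    (hv : v ≠ 0) : mv g v ≠ 0 := by
  intro h
  have := mv_nsq hg v
  rw [h, norm_zero] at this
  simp [hs, hv] at this

/-- covariance under rotations, reflections and dilations -/
theorem Dc_cov {g : Matrix (Fin 4) (Fin 4) ℝ} {s : ℝ} (hg : gᵀ * g = s • 1) (hs : s ≠ 0) (q : Pp)
    (hv : v ≠ 0) : Dc (mv g v) (sb g q) = s⁻¹ * Dc v q := by
  have := Dc_uniq (U := {0}ᶜ) isOpen_compl_singleton
    (fun v => Dc (mv g v) ∘ₗ (sb g).toLinearMap) (fun v => s⁻¹ • Dc v) ?_ ?_ ?_ q hv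
  · simpa using this
  · intro v hv
    simp only [LinearMap.comp_apply, AlgHom.toLinearMap_apply, map_one, Dc_one,
      LinearMap.smul_apply, smul_eq_mul, G0, mv_nsq hg]
    rw [← mul_inv]; congr 1; ring
  · intro v hv μ q
    have h := ((Dc_an (sb g q) (mv_ne hg hs hv)).differentiableAt.hasFDerivAt.comp v
      (mv g).hasFDerivAt).hasLineDerivAt (ee μ)
    refine HasDerivAt.congr_deriv h ?_
    simp only [LinearMap.comp_apply, AlgHom.toLinearMap_apply, map_mul,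
      ContinuousLinearMap.comp_apply, Dc_fd _ (mv_ne hg hs hv)]
    simp [sb, Finset.sum_mul, mv_apply, ac, ee]
  · intro v hv μ q
    simpa using (Dc_line μ q hv).const_mul s⁻¹

end Pool.Agent.Lib.MP_7f377f_mp.Zf
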