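import Pool.Agent.Lib.MP_7f377f_mp.YZ

/-! The free theory of Wick polynomials in the jets of Maxwell fields: definitions and statements. -/

noncomputable section

namespace Pool.Agent.Lib.MP_7f377f_mp.Zf

open MeasureTheory MvPolynomial Filter Topology Matrix Set Asymptotics
open YZ (R4 Var pr Adm)
open scoped ContDiff

section wick
variable {σ K : Type} [Field K]

/-- the second order operator of a kernel -/
def dl (C : σ → σ → K) (P : MvPolynomial σ K) : MvPolynomial σ K :=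
  ∑ᶠ (p : σ) (q : σ), C p q • pderiv p (pderiv q P)

/-- its exponential -/
def ep (C : σ → σ → K) (P : MvPolynomial σ K) : MvPolynomial σ K :=
  ∑ᶠ m : ℕ, (m.factorial : K)⁻¹ • (dl C)^[m] P

/-- the Wick sum of a symmetric kernel -/
def wk (C : σ → σ → K) (P : MvPolynomial σ K) : K := constantCoeff (ep (fun p q => C p q / 2) P)

end wick

variable {K : Type} [RCLike K] {d k : ℕ} {ι : Type} [Fintype ι]

/-- labels -/
abbrev Lb (d : ℕ) (K : Type) [CommSemiring K] : Type := MvPolynomial (Var d) K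

/-- the dimension of a variable -/
def wt (p : Var d) : ℕ := p.1.1 + 2

/-- matrices act on all space-time indices -/
def rh (g : Matrix (Fin 4) (Fin 4) K) : Lb d K →ₐ[K] Lb d K :=
  aeval fun p => ∑ J, (∏ r, g (J r) (p.1.2 r)) • X (⟨p.1.1, J⟩, p.2)

/-- matrices act on the colour index -/
def ad (A : Matrix (Fin d) (Fin d) ℝ) : Lb d K →ₐ[K] Lb d K :=
  aeval fun p => ∑ b, (A p.2 b : K) • X (p.1, b)

/-- invariant polynomials -/
def Iv (K : Type) [RCLike K] (𝒜 : Set (Matrix (Fin d) (Fin d) ℝ)) : Subalgebra K (Lb d K) :=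
  ⨅ A ∈ 𝒜, AlgHom.equalizer (AlgHom.id K _) (ad A)

/-- the derivative -/
def Dv (μ : Fin 4) : Derivation K (Lb d K) (Lb d K) :=
  mkDerivation K fun p => X (⟨p.1.1 + 1, Fin.snoc p.1.2 μ⟩, p.2)

/-- infinitesimal action of a matrix on the indices -/
def Sp (w : Matrix (Fin 4) (Fin 4) ℝ) : Derivation K (Lb d K) (Lb d K) :=
  mkDerivation K fun p => ∑ r, ∑ l, (w l (p.1.2 r) : K) • X (⟨p.1.1, Function.update p.1.2 r l⟩, p.2)

/-- the tensor `F μ l F ν l` -/
def ff (μ ν : Fin 4) : Lb d K := ∑ l, ∑ a, X (⟨0, ![μ, l]⟩, a) * X (⟨0, ![ν, l]⟩, a)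

/-- the Lagrangian -/
def lg : Lb d K := (4⁻¹ : K) • ∑ μ, ff μ μ

/-- the free stress tensor -/
def t0 (μ ν : Fin 4) : Lb d K := ff μ ν - if μ = ν then lg else 0

open Classical in
/-- the kernel of a configuration -/
def kr (K : Type) [RCLike K] (y : ι → R4) (p q : ι × Var d) : K :=
  if y p.1 = y q.1 then 0 else (pr p.2 q.2 (y p.1 - y q.1) : ℝ)

/-- the free correlation function at points -/
def fp (c : ι → Lb d K) (y : ι → R4) : K := wk (kr K y) (∏ i, rename (Prod.mk i) (c i))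

/-- the smeared free correlation function -/
def fr (c : ι → Lb d K) (f : ι → R4 → ℝ) : K := ∫ y : ι → R4, (∏ i, (f i (y i) : K)) * fp c y

/-- polynomials in the momenta -/
abbrev Pp : Type := MvPolynomial (Fin 4) ℝ

/-- jets of solutions of the Maxwell equations: `η a l r` is `r(∂) A a l` at the point -/
def On (d : ℕ) : Set (Var d → ℝ) := {ξ | ∃ η : Fin d → Fin 4 → Pp →ₗ[ℝ] ℝ,
  (∀ a l r, ∑ μ, (η a l (X μ * X μ * r) - η a μ (X μ * X l * r)) = 0) ∧
  ∀ p : Var d, ξ p = η p.2 (p.1.2 1) (X (p.1.2 0) * ∏ r : Fin p.1.1, X (p.1.2 r.succ.succ)) -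
    η p.2 (p.1.2 0) (X (p.1.2 1) * ∏ r : Fin p.1.1, X (p.1.2 r.succ.succ))}

/-- the null ideal -/
def Nl (d : ℕ) (K : Type) [RCLike K] : Ideal (Lb d K) :=
  ⨅ ξ ∈ On d, RingHom.ker (eval fun p => (ξ p : K))

/-- matrices act on points -/
def ac (g : Matrix (Fin 4) (Fin 4) ℝ) (x : R4) : R4 := WithLp.toLp 2 (g *ᵥ x)

/-- the derivative of a function -/
def pd (μ : Fin 4) (f : R4 → ℝ) (y : R4) : ℝ := lineDeriv ℝ f y (EuclideanSpace.single μ 1)

/-! ### Statements -/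

variable (d)

/-- the link to the text of the theorem -/
def S_link : Prop := ∀ k (c : Fin k → Lb d ℂ) f, Adm f → YZ.free k c f = fr c f

/-- real labels -/
def S_real : Prop := ∀ (ι : Type) [Fintype ι] (c : ι → Lb d ℝ) (y : ι → R4),
  fp (fun i => map (algebraMap ℝ ℂ) (c i)) y = (fp c y : ℝ)

variable (K)

/-- multilinearity, symmetry, the unit, one point functions -/
def S_alg : Prop := ∀ (ι : Type) [Fintype ι] [DecidableEq ι] (y : ι → R4),
  (∃ m : MultilinearMap K (fun _ : ι => Lb d K) K, ∀ c, m c = fp c y) ∧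
  (∀ (κ : Type) [Fintype κ] (e : κ ≃ ι) (c : ι → Lb d K), fp (c ∘ e) (y ∘ e) = fp c y) ∧
  (∀ (c : ι → Lb d K) x, fp (fun i : Option ι => i.elim 1 c) (fun i => i.elim x y) = fp c y) ∧
  (∀ (c : ι → Lb d K) a b x, fp (fun i : Option (Option ι) => i.elim a fun i => i.elim b c)
    (fun i => i.elim x fun i => i.elim x y) =
      fp (fun i : Option ι => i.elim (a * b) c) fun i => i.elim x y) ∧
  ∀ (c : Lb d K) x, fp (fun _ : Unit => c) (fun _ => x) = constantCoeff c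

/-- covariance -/
def S_cov : Prop := ∀ (ι : Type) [Fintype ι] (c : ι → Lb d K) (y : ι → R4),
  (∀ v, fp c (fun i => y i + v) = fp c y) ∧
  (∀ (g : Matrix (Fin 4) (Fin 4) ℝ) (s : ℝ), s ≠ 0 → gᵀ * g = s • 1 →
    fp (fun i => rh (g.map (↑)) (c i)) (fun i => ac g (y i)) = fp c y) ∧
  ∀ A : Matrix (Fin d) (Fin d) ℝ, A * Aᵀ = 1 → fp (fun i => ad A (c i)) y = fp c y

/-- smoothness; the derivative of a label is the derivative of the function -/
def S_der : Prop := ∀ (ι : Type) [Fintype ι] [DecidableEq ι] (c : ι → Lb d K) (y : ι → R4),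
  Function.Injective y → ContDiffAt ℝ ∞ (fp c) y ∧ ∀ i μ,
    HasDerivAt (fun s : ℝ => fp c (Function.update y i (y i + EuclideanSpace.single μ s)))
      (fp (Function.update c i (Dv μ (c i))) y) 0

/-- the null ideal is invariant and is killed by the free theory -/
def S_null : Prop := ∀ c ∈ Nl d K,
  (∀ (g : Matrix (Fin 4) (Fin 4) ℝ) (s : ℝ), gᵀ * g = s • 1 → rh (g.map (↑)) c ∈ Nl d K) ∧
  (∀ A, ad A c ∈ Nl d K) ∧ (∀ μ, Dv μ c ∈ Nl d K) ∧ (∀ w, wᵀ = -w → Sp w c ∈ Nl d K) ∧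
  (∀ D, weightedHomogeneousComponent wt D c ∈ Nl d K) ∧ map (starRingEnd K) c ∈ Nl d K ∧
  ∀ (ι : Type) [Fintype ι] (a : ι → Lb d K) (y : ι → R4) i, a i = c → fp a y = 0

/-- the two point function is not degenerate: probes which respect the colour symmetry -/
def S_low : Prop := ∀ (n : ℕ) (v : R4), v ≠ 0 → ∃ τ : Lb d K →ₐ[K] Lb d K,
  (∀ A c, τ (ad A c) = ad A (τ c)) ∧ ∀ c : Lb d K, (∀ p ∈ c.vars, p.1.1 ≤ n) → c ∉ Nl d K →
    0 < RCLike.re (fp ![τ (map (starRingEnd K) c), c] ![v, 0])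

/-- the Ward identity for all Killing fields `y ↦ a + w y` -/
def S_ward : Prop := ∃ κ : ℝ, κ ≠ 0 ∧ ∀ (ι : Type) [Fintype ι] [DecidableEq ι] (c : ι → Lb d K)
  (y : ι → R4) (ξ : R4 → ℝ) (e : ι → ℝ) (a : R4) (w : Matrix (Fin 4) (Fin 4) ℝ), wᵀ = -w →
  Function.Injective y → ContDiff ℝ ∞ ξ → HasCompactSupport ξ → (∀ i, ∀ᶠ z in 𝓝 (y i), ξ z = e i) →
  ∑ μ, ∑ ν, ∫ z, (pd μ ξ z * (a + ac w z) ν : ℝ) *
      fp (fun i : Option ι => i.elim (t0 μ ν) c) (fun i => i.elim z y) =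
    κ * ∑ i, e i * fp (Function.update c i
      (∑ ν, ((a + ac w (y i)) ν : K) • Dv ν (c i) + Sp w (c i))) y

end Pool.Agent.Lib.MP_7f377f_mp.Zf
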