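import Pool.Agent.Lib.MP_7f377f_mp.G.ZfE0

/-! The regularised fundamental solution and the flux of the stress tensor of two point sources. -/

noncomputable section

namespace Pool.Agent.Lib.MP_7f377f_mp.Zf

open MvPolynomial Filter Topology Matrix MeasureTheory Function Real
open YZ (R4)
open scoped ContDiff

/-- affine substitutions -/
def cp (t : ℝ) (y : R4) : Sm →ₐ[ℝ] Sm where
  toFun f := ⟨fun z => f.1 (t • (z - y)), (sm f).comp (by fun_prop)⟩
  map_one' := rfl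
  map_mul' _ _ := rfl
  map_zero' := rfl
  map_add' _ _ := rfl
  commutes' _ := rfl

theorem ev_cp (t y z) (f : Sm) : ev z (cp t y f) = ev (t • (z - y)) f := rfl

theorem dd_cp (t y μ) (f : Sm) : dd μ (cp t y f) = t • cp t y (dd μ f) :=
  Subtype.ext (funext fun z => (pd_has (cp t y f) μ z).unique (by
    have := HasDerivAt.comp_of_eq (0 : ℝ) (pd_has f μ (t • (z - y)))
      ((hasDerivAt_id' 0).const_mul t) (by simp)
    simp only [comp_def, mul_smul, ← smul_add, ← add_sub_right_comm, mul_one, mul_comm _ t] at this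
    exact this))

theorem op_cp (t y) (s : Pp) (f : Sm) : op s (cp t y f) = cp t y (op (sc t s) f) := by
  induction s using MvPolynomial.induction_on generalizing f with
  | C a => simp
  | add p q a b => simp [a, b]
  | mul_X p μ a => simp [op_X, dd_cp, a, sc_X]

/-- `g` is the fundamental solution outside a ball -/
def Out (g : Sm) (y : R4) (r : ℝ) : Prop := 0 ≤ r ∧ ∀ z, r < ‖z - y‖ → ev z g = G0 (z - y)

variable {g ξ : Sm} {x y z : R4} {r e e' : ℝ}

theorem Out.ne (h : Out g y r) (hz : r < ‖z - y‖) : z - y ≠ 0 := norm_pos_iff.1 (h.1.trans_lt hz)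

theorem Out.op (h : Out g y r) (s : Pp) (hz : r < ‖z - y‖) : ev z (op s g) = Dc (z - y) s :=
  Dc_uniq (U := {z | r < ‖z - y‖}) (isOpen_lt (by fun_prop) (by fun_prop))
    (fun z => (ev z).toLinearMap ∘ₗ LinearMap.applyₗ g ∘ₗ Zf.op.toLinearMap) (fun z => Dc (z - y))
    (fun z hz => by simpa [Dc_one] using h.2 z hz)
    (fun z _ μ s => by
      have := pd_has (Zf.op s g) μ z
      rw [show pd μ _ z = ev z (dd μ (Zf.op s g)) from rfl, dd_op] at this
      exact this)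
    (fun z hz μ s => by simpa only [add_sub_right_comm] using Dc_line μ s (h.ne hz)) s hz

theorem Out.sq (h : Out g y r) (s : Pp) (hz : r < ‖z - y‖) : ev z (Zf.op (sq4 * s) g) = 0 := by
  rw [h.op _ hz, Dc_sq _ (h.ne hz)]

theorem Out.cs (h : Out g y r) : Zf.op sq4 g ∈ Cs :=
  HasCompactSupport.intro (isCompact_closedBall y r) fun z hz => by
    simpa [ev_eq] using h.sq 1 (by simpa [dist_eq_norm] using hz)

theorem Out.xi (h : Out g y r) (hξ : ∀ z, ‖z - y‖ ≤ r → ev z ξ = e) (s : Pp) :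
    ξ * Zf.op (sq4 * s) g = e • Zf.op (sq4 * s) g := Subtype.ext (funext fun z => by
  rcases le_or_gt ‖z - y‖ r with a | a
  · simp [ev_eq, hξ z a]
  · simp only [ev_eq, map_mul (ev z), map_smul, h.sq s a, mul_zero, smul_zero])

theorem ex_g : ∃ g : Sm, Out g 0 1 ∧ In (op sq4 g) ≠ 0 := by
  set c := (4 * π ^ 2)⁻¹ with hc
  have c0 : 0 < c := by positivity
  set ψ := fun u : ℝ => smoothTransition (2 * u - 1)
  have hψ : ContDiff ℝ ∞ ψ := smoothTransition.contDiff.comp (by fun_prop)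
  set φ := fun u : ℝ => c * ψ u / u ^ 2
  have hφ : ContDiff ℝ ∞ φ := contDiff_iff_contDiffAt.2 fun u => by
    by_cases h : u = 0
    · refine (contDiffAt_const (c := 0)).congr_of_eventuallyEq
        ((eventually_lt_nhds (show u < 1 / 2 by norm_num [h])).mono fun v a => ?_)
      simp [φ, ψ, smoothTransition.zero_of_nonpos (show 2 * v - 1 ≤ 0 by linarith)]
    · exact (contDiffAt_const.mul hψ.contDiffAt).div (by fun_prop) (pow_ne_zero _ h)
  set γ := fun s : ℝ => c - ∫ u in (1 : ℝ)..s, φ u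
  have dγ (s) : HasDerivAt γ (-φ s) s :=
    (hφ.continuous.integral_hasStrictDerivAt 1 s).hasDerivAt.const_sub c
  have hγ : ContDiff ℝ ∞ γ := contDiff_infty_iff_deriv.2 ⟨fun s => (dγ s).differentiableAt, by
    rw [show deriv γ = fun s => -φ s from funext fun s => (dγ s).deriv]; exact hφ.neg⟩
  let N : (ℝ → ℝ) → R4 → ℝ := fun f v => f (‖v‖ ^ 2)
  have hN {f} (h : ContDiff ℝ ∞ f) : ContDiff ℝ ∞ (N f) := h.comp (contDiff_norm_sq ℝ)
  have dN {f} (h : ContDiff ℝ ∞ f) (μ) : dd μ ⟨N f, hN h⟩ =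
      (2 : ℝ) • (xx μ * ⟨N (deriv f), hN (contDiff_infty_iff_deriv.1 h).2⟩) :=
    Subtype.ext (funext fun v => by
      have := ((h.differentiable (by simp) (‖v‖ ^ 2)).hasDerivAt.comp_hasFDerivAt v
        (hasStrictFDerivAt_norm_sq v).hasFDerivAt).fderiv
      change pd μ _ v = 2 * (v μ * deriv f (‖v‖ ^ 2))
      rw [pd_eq]
      refine (congrArg (· (ee μ)) this).trans ?_
      simp [ee, EuclideanSpace.inner_single_right]
      ring)
  have o : Out ⟨N γ, hN hγ⟩ 0 1 := ⟨zero_le_one, fun z hz => by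
    rw [sub_zero] at hz ⊢
    have h1 : 1 < ‖z‖ ^ 2 := by nlinarith
    change c - _ = _
    rw [intervalIntegral.integral_eq_sub_of_hasDerivAt (f := fun u => -(c * u⁻¹))
      (fun u hu => ?_) (hφ.continuous.intervalIntegrable _ _)]
    · simp [G0, hc, mul_comm]
    · rw [Set.uIcc_of_le h1.le] at hu
      refine ((hasDerivAt_inv (by linarith [hu.1])).const_mul c).neg.congr_deriv ?_
      simp [φ, ψ, smoothTransition.one_of_one_le (show 1 ≤ 2 * u - 1 by linarith [hu.1]),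
        div_eq_mul_inv]⟩
  refine ⟨_, o, ?_⟩
  have val (v : R4) : (-op sq4 ⟨N γ, hN hγ⟩).1 v = 4 * c * deriv ψ (‖v‖ ^ 2) / ‖v‖ ^ 2 := by
    have e : deriv γ = fun s => -φ s := funext fun s => (dγ s).deriv
    simp only [sq4, map_sum, LinearMap.sum_apply, op_mul, op_X, dN hγ,
      Derivation.leibniz, dN (contDiff_infty_iff_deriv.1 hγ).2, dd_xx, if_true, ev_eq, map_neg,
      map_smul, map_add, smul_eq_mul, map_mul (ev v), map_one]
    change -∑ μ, 2 * (v μ * (2 * (v μ * deriv (deriv γ) (‖v‖ ^ 2))) + deriv γ (‖v‖ ^ 2) * 1) = _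
    have : ∑ μ, 2 * (v μ * (2 * (v μ * deriv (deriv γ) (‖v‖ ^ 2))) + deriv γ (‖v‖ ^ 2) * 1) =
        4 * ‖v‖ ^ 2 * deriv (deriv γ) (‖v‖ ^ 2) + 8 * deriv γ (‖v‖ ^ 2) := by
      generalize deriv (deriv γ) _ = a, deriv γ _ = b
      rw [nsq, Fin.sum_univ_four, Fin.sum_univ_four]
      ring
    rw [this, e]
    generalize ‖v‖ ^ 2 = s
    by_cases h : s = 0
    · simp [h, φ]
    · rw [((((hψ.differentiable (by simp) s).hasDerivAt.const_mul c).fun_div
        (hasDerivAt_pow 2 s) (pow_ne_zero _ h)).fun_neg).deriv]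
      simp only [φ]
      field_simp
      ring
  obtain ⟨s, hs, ds⟩ := exists_deriv_eq_slope ψ (show (1 / 2 : ℝ) < 1 by norm_num)
    hψ.continuous.continuousOn (hψ.differentiable (by simp)).differentiableOn
  have := (sm (-op sq4 ⟨N γ, hN hγ⟩)).continuous.integral_pos_of_hasCompactSupport_nonneg_nonzero
    (μ := volume) (x := √s • ee 0) (Cs.neg_mem o.cs) (fun v => ?_) ?_
  · rw [← In_eq (Cs.neg_mem o.cs), map_neg] at this
    linarith
  · have : 0 ≤ deriv ψ (‖v‖ ^ 2) := Monotone.deriv_nonneg fun a b h =>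
      smoothTransition.monotone (by linarith)
    rw [val]
    positivity
  · have s0 : 0 < s := by linarith [hs.1]
    have : ‖√s • ee 0‖ ^ 2 = s := by simp [norm_smul, ee, sq_sqrt s0.le]
    rw [val, this, ds]
    norm_num [ψ, c0.ne', s0.ne']

/-- a smooth function which is the fundamental solution outside the unit ball -/
def g1 : Sm := ex_g.choose

/-- the same for the ball of radius `r` around `y` -/
def gr (r : ℝ) (y : R4) : Sm := r⁻¹ ^ 2 • cp r⁻¹ y g1

theorem gr_out (hr : 0 < r) (y) : Out (gr r y) y r := ⟨hr.le, fun z hz => by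
  have : ‖r⁻¹ • (z - y)‖ = r⁻¹ * ‖z - y‖ := by rw [norm_smul, norm_inv, norm_of_nonneg hr.le]
  rw [gr, map_smul, ev_cp, g1, ex_g.choose_spec.1.2 _ (by
    rwa [sub_zero, this, lt_inv_mul_iff₀ hr, mul_one]), sub_zero, G0, G0, this, smul_eq_mul]
  field_simp⟩

theorem ev_gr (hr : 0 < r) (y v) (s : Pp) :
    ev (y + r • v) (op s (gr r y)) = r⁻¹ ^ 2 * ev v (op (sc r⁻¹ s) g1) := by
  rw [gr, map_smul, op_cp, map_smul, ev_cp, add_sub_cancel_left, inv_smul_smul₀ hr.ne', smul_eq_mul]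

theorem In_gr (hr : 0 < r) (y) (f : Sm) :
    In (op sq4 (gr r y) * f) = ∫ v, ev v (op sq4 g1) * ev (y + r • v) f := by
  have := Measure.integral_comp_smul_of_nonneg volume
    (fun v => (op sq4 (gr r y) * f).1 (y + v)) r (hR := hr.le)
  simp only [integral_add_left_eq_self, ← In_eq (Cs.mul_mem_right _ (gr_out hr y).cs)] at this
  simp only [ev_eq, map_mul (ev _), ev_gr hr, sc_sq, map_smul, LinearMap.smul_apply, smul_eq_mul,
    mul_assoc, integral_const_mul, finrank_euclideanSpace_fin] at this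
  refine mul_left_cancel₀ (inv_ne_zero (pow_pos hr 4).ne') (this.symm.trans ?_)
  ring

theorem g1_out : Out g1 0 1 := ex_g.choose_spec.1

variable (a : R4) (w : Matrix (Fin 4) (Fin 4) ℝ)

/-- the Lie derivative of the propagator -/
def P0 (I J : Jx) (x y : R4) : ℝ := ∑ ν, (a + ac w x) ν * Dc (x - y) (X ν * spr I J) +
  ∑ r, ∑ m, w m (I.2 r) * Dc (x - y) (spr ⟨I.1, update I.2 r m⟩ J)

theorem ev_Ps (I J : Jx) (g : Sm) (z) : ev z (Ps a w I J g) =
    ∑ ν, (a + ac w z) ν * ev z (op (X ν * spr I J) g) +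
      ∑ r, ∑ m, w m (I.2 r) * ev z (op (spr ⟨I.1, update I.2 r m⟩ J) g) := by
  simp only [Ps, map_add, map_sum, map_mul (ev z), map_smul, ← kk_val, ev_eq, smul_eq_mul]

theorem Out.ps (h : Out g y r) (I J : Jx) (hz : r < ‖z - y‖) :
    ev z (Ps a w I J g) = P0 a w I J z y := by simp only [ev_Ps, h.op _ hz, P0]

theorem lim_ne (h : x ≠ y) (I J : Jx) :
    Tendsto (fun r => In (op sq4 (gr r x) * Ps a w I J (gr r y))) (𝓝[>] 0)
      (𝓝 (In (op sq4 g1) * P0 a w I J x y)) := by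
  have h0 : 0 < ‖x - y‖ / 2 := half_pos (norm_pos_iff.2 (sub_ne_zero.2 h))
  have o := gr_out h0 y
  have z (F : R4 → ℝ) : ∫ v in Metric.closedBall 0 1, ev v (op sq4 g1) * F v =
      ∫ v, ev v (op sq4 g1) * F v := setIntegral_eq_integral_of_forall_compl_eq_zero fun v hv => by
    rw [← mul_one sq4, g1_out.sq 1 (by simpa using hv), zero_mul]
  have c := (continuous_parametric_integral_of_continuous (μ := volume)
    (f := fun (r : ℝ) v => (op sq4 g1).1 v * (Ps a w I J (gr (‖x - y‖ / 2) y)).1 (x + r • v))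
    (((sm _).continuous.comp continuous_snd).mul ((sm _).continuous.comp (by fun_prop)))
    (isCompact_closedBall 0 1)).tendsto 0
  simp only [zero_smul, add_zero, ev_eq, z, integral_mul_const,
    o.ps a w I J (half_lt_self_iff.2 (by linarith))] at c
  rw [In_eq g1_out.cs]
  refine (c.mono_left nhdsWithin_le_nhds).congr' ?_
  filter_upwards [Ioo_mem_nhdsGT h0] with r hr
  rw [In_gr hr.1, ← z, ← z]
  refine setIntegral_congr_fun measurableSet_closedBall fun v hv => ?_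
  have : ‖x - y‖ / 2 < ‖x + r • v - y‖ := by
    have := norm_sub_norm_le (x - y) (-(r • v))
    rw [norm_neg, norm_smul, norm_of_nonneg hr.1.le, sub_neg_eq_add, ← add_sub_right_comm] at this
    nlinarith [mem_closedBall_zero_iff.1 hv, hr.1, hr.2]
  simp only [o.ps a w I J this, (gr_out hr.1 y).ps a w I J (hr.2.trans this)]

theorem hom_eq (x : R4) (I J : Jx) : ∃ c c' : ℝ, ∀ r > 0,
    r ^ (I.1 + J.1 + 5) * In (op sq4 (gr r x) * Ps a w I J (gr r x)) = c + r * c' := by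
  refine ⟨In (op sq4 g1 * Ps (a + ac w x) 0 I J g1), In (op sq4 g1 * Ps 0 w I J g1), fun r hr => ?_⟩
  rw [In_gr hr, ← smul_eq_mul r, ← map_smul, ← map_add, ← mul_smul_comm, ← mul_add,
    In_eq (Cs.mul_mem_right _ g1_out.cs), ← integral_const_mul]
  refine integral_congr_ae (.of_forall fun v => ?_)
  have e : a + ac w (x + r • v) = a + ac w x + r • ac w v := by
    simp only [← mv_apply, map_add, map_smul, add_assoc]
  generalize a + ac w x = b at e
  have e0 : ac 0 v = 0 := by simp [ac]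
  simp only [ev_eq, map_mul (ev v), map_add, map_smul, ev_Ps, ev_gr hr, map_mul (sc _), sc_X,
    sc_spr, smul_mul_smul_comm, LinearMap.smul_apply, smul_eq_mul, e, e0, PiLp.add_apply,
    PiLp.smul_apply, add_zero, zero_add, Matrix.zero_apply, zero_mul, Finset.sum_const_zero,
    add_mul, mul_add, Finset.sum_add_distrib, Finset.mul_sum, add_assoc, inv_pow]
  refine congrArg₂ _ (Finset.sum_congr rfl fun _ _ => ?_) (congrArg₂ _
    (Finset.sum_congr rfl fun _ _ => ?_)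
    (Finset.sum_congr rfl fun _ _ => Finset.sum_congr rfl fun _ _ => ?_)) <;> field_simp <;> ring

theorem zero_of_hom {Φ c c' : ℝ} {N : ℕ} (h : ∀ᶠ r in 𝓝[>] (0 : ℝ), r ^ (N + 2) * Φ = c + r * c') :
    Φ = 0 := by
  have l {f g : ℝ → ℝ} (a : Continuous f) (b : Continuous g) (e : f =ᶠ[𝓝[>] 0] g) : f 0 = g 0 :=
    tendsto_nhds_unique_of_eventuallyEq ((a.tendsto 0).mono_left nhdsWithin_le_nhds)
      ((b.tendsto 0).mono_left nhdsWithin_le_nhds) e
  have h1 : 0 = c := by simpa using l (by fun_prop) (by fun_prop) h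
  have h2 : ∀ᶠ r in 𝓝[>] (0 : ℝ), r ^ (N + 1) * Φ = c' := by
    filter_upwards [h, self_mem_nhdsWithin] with r a b
    exact mul_left_cancel₀ (ne_of_gt b) (by rw [← h1, zero_add] at a; rw [← a]; ring)
  have h3 : 0 = c' := by simpa using l (by fun_prop) (by fun_prop) h2
  obtain ⟨r, a, b⟩ := (h2.and self_mem_nhdsWithin).exists
  simpa [← h3, ne_of_gt b] using a

/-- the field of a point source -/
def Fz (x : R4) (I : Jx) (z : R4) (μ l : Fin 4) : ℝ := Dc (z - x) (spr ⟨0, ![μ, l]⟩ I)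

/-- the density of the flux -/
def fx (ξ : Sm) (x y : R4) (I J : Jx) (μ ν : Fin 4) (z : R4) : ℝ :=
  pd μ ξ.1 z * (a + ac w z) ν * Tb (Fz x I z) (Fz y J z) μ ν

theorem near (h : ∀ᶠ z in 𝓝 x, ξ.1 z = e) : ∀ᶠ r in 𝓝[>] (0 : ℝ), ∀ z, ‖z - x‖ ≤ r →
    ev z ξ = e ∧ ∀ μ, pd μ ξ.1 z = 0 := by
  filter_upwards [nhdsWithin_le_nhds (eventually_closedBall_subset h.eventually_nhds)]
    with r hr z hz
  have : ξ.1 =ᶠ[𝓝 z] fun _ => e := hr (mem_closedBall_iff_norm.2 hz)
  exact ⟨this.self_of_nhds, fun μ => by simp [pd_eq, this.fderiv_eq]⟩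

theorem fx_eq (hx : ∀ᶠ z in 𝓝 x, ξ.1 z = e) (hy : ∀ᶠ z in 𝓝 y, ξ.1 z = e') (I J : Jx) :
    ∀ᶠ r in 𝓝[>] (0 : ℝ), ∀ μ ν, fx a w ξ x y I J μ ν =
      (dd μ ξ * kk a w ν * Tb (fd I (gr r x)) (fd J (gr r y)) μ ν).1 := by
  filter_upwards [near hx, near hy, self_mem_nhdsWithin] with r h h' hr μ ν
  ext z
  simp only [ev_eq, map_mul, fx, ← kk_val]
  change _ = pd μ ξ.1 z * _ * _
  rcases le_or_gt ‖z - x‖ r with b | b
  · simp [(h z b).2]
  rcases le_or_gt ‖z - y‖ r with c | c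
  · simp [(h' z c).2]
  simp only [Tb, fd, Fz, map_sub, map_sum, map_mul (ev z), apply_ite (ev z), map_smul, map_zero,
    (gr_out hr x).op _ b, (gr_out hr y).op _ c]

theorem fx_int (hξ : ξ ∈ Cs) (hx : ∀ᶠ z in 𝓝 x, ξ.1 z = e) (hy : ∀ᶠ z in 𝓝 y, ξ.1 z = e')
    (I J : Jx) (μ ν) : Integrable (fx a w ξ x y I J μ ν) := by
  obtain ⟨r, h⟩ := (fx_eq a w hx hy I J).exists
  exact h μ ν ▸ Cs_int (Cs.mul_mem_right _ (Cs.mul_mem_right _ (dd_Cs hξ μ)))

/-- the flux of two point sources -/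
theorem two_leg (hw : wᵀ = -w) (hξ : ξ ∈ Cs) (hx : ∀ᶠ z in 𝓝 x, ξ.1 z = e)
    (hy : ∀ᶠ z in 𝓝 y, ξ.1 z = e') (I J : Jx) :
    (∑ μ, ∑ ν, ∫ z, fx a w ξ x y I J μ ν z) + ∑ μ, ∑ ν, ∫ z, fx a w ξ y x J I μ ν z =
      if x = y then 0 else -In (op sq4 g1) *
        (e * (-1) ^ (I.1 + 1) * P0 a w I J x y + e' * (-1) ^ (J.1 + 1) * P0 a w J I y x) := by
  have k : ∀ᶠ r in 𝓝[>] (0 : ℝ),
      (∑ μ, ∑ ν, ∫ z, fx a w ξ x y I J μ ν z) + ∑ μ, ∑ ν, ∫ z, fx a w ξ y x J I μ ν z =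
      -(e * (-1) ^ (I.1 + 1) * In (op sq4 (gr r x) * Ps a w I J (gr r y)) +
        e' * (-1) ^ (J.1 + 1) * In (op sq4 (gr r y) * Ps a w J I (gr r x))) := by
    filter_upwards [near hx, near hy, self_mem_nhdsWithin, fx_eq a w hx hy I J,
      fx_eq a w hy hx J I] with r h h' hr b c
    simp only [b, c, ← In_eq (Cs.mul_mem_right _ (Cs.mul_mem_right _ (dd_Cs hξ _)))]
    exact flux a w hw I J hξ (gr_out hr x).cs (gr_out hr y).cs
      ((gr_out hr x).xi fun z b => (h z b).1) ((gr_out hr y).xi fun z b => (h' z b).1)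
  split_ifs with h
  · subst h
    obtain ⟨c, c', b⟩ := hom_eq a w x I J
    obtain ⟨d, d', b'⟩ := hom_eq a w x J I
    refine zero_of_hom (N := I.1 + J.1 + 3) (c := -(e * (-1) ^ (I.1 + 1) * c +
      e' * (-1) ^ (J.1 + 1) * d)) (c' := -(e * (-1) ^ (I.1 + 1) * c' +
      e' * (-1) ^ (J.1 + 1) * d')) ?_
    filter_upwards [k, self_mem_nhdsWithin] with r k hr
    rw [add_comm J.1] at b'
    rw [k]
    linear_combination -(e * (-1) ^ (I.1 + 1)) * b r hr - (e' * (-1) ^ (J.1 + 1)) * b' r hr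
  · refine (tendsto_nhds_unique_of_eventuallyEq tendsto_const_nhds (((lim_ne a w h I J).const_mul
      _).add ((lim_ne a w (Ne.symm h) J I).const_mul _)).neg k).trans ?_
    ring

end Pool.Agent.Lib.MP_7f377f_mp.Zf
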