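import Pool.Agent.Lib.MP_7f377f_mp.G.ZfC
import Pool.Agent.Lib.MP_7f377f_mp.G.ZfE1

/-! The Ward identity of the free stress tensor. -/

noncomputable section

namespace Pool.Agent.Lib.MP_7f377f_mp.Zf

open MvPolynomial Filter Topology Matrix MeasureTheory Function
open YZ (R4 Var pr)
open scoped ContDiff

set_option linter.unusedSectionVars false

variable {K : Type} [RCLike K] {d : ℕ} {ι : Type} [Fintype ι]

theorem fp_opt (b : Lb d K) (c : ι → Lb d K) (z : R4) (y : ι → R4) :
    fp (fun i : Option ι => i.elim b c) (fun i => i.elim z y) = Ek (fun i : Option ι => i.elim z y)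
      (rename (Prod.mk none) b * rename (Prod.map some id) (Rn c)) := by
  simp only [fp_eq, Rn, Fintype.prod_option, map_prod, rename_rename]
  rfl

/-- the dependence on the kernel is linear -/
def Lk (y : ι → R4) (R : MvPolynomial (ι × Var d) K) : (ι × Var d → ι × Var d → K) →ₗ[K] K where
  toFun A := ∑ p ∈ R.vars, ∑ q ∈ R.vars, A p q * Ek y (pderiv p (pderiv q R))
  map_add' A B := by simp [add_mul, Finset.sum_add_distrib]
  map_smul' t A := by simp [Finset.mul_sum, mul_assoc]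

theorem Lk_eq (y : ι → R4) (R : MvPolynomial (ι × Var d) K) (A) : Lk y R A = Ek y (La A R) := by
  simp [Lk, La_sum A (subset_refl R.vars)]

theorem Ek_two (u v : Var d) (z : R4) (y : ι → R4) (R : MvPolynomial (ι × Var d) K) :
    Ek (fun i : Option ι => i.elim z y) (X (none, u) * X (none, v) * rename (Prod.map some id) R) =
      Lk y R fun p q => kr K (fun i : Option ι => i.elim z y) (none, u) (some p.1, p.2) *
        kr K (fun i : Option ι => i.elim z y) (none, v) (some q.1, q.2) := by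
  have m (c : Option ι × Var d → K) (P : MvPolynomial (ι × Var d) K) :
      D c (rename (Prod.map some id) P) = rename (Prod.map some id)
        (D (fun p => c (some p.1, p.2)) P) := D_map (rename _) (fun p => by simp [Prod.map]) P
  rw [mul_assoc, Ek_X_mul, Derivation.leibniz, D_X, show kr K _ (none, u) (none, v) = 0 from
    if_pos rfl, C_0, smul_zero, add_zero, smul_eq_mul, Ek_X_mul, m, m, Ek, E_rename,
    D_sum _ (subset_refl R.vars)]
  simp only [map_sum, Derivation.map_smul, D_pderiv, D_sum _ (subset_refl R.vars), map_smul,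
    Finset.mul_sum, smul_eq_mul, ← mul_assoc]
  rfl

/-- colours and signs -/
def sg (p q : Var d) : ℝ := if p.2 = q.2 then (-1) ^ (p.1.1 + 1) * (-1) ^ (q.1.1 + 1) else 0

theorem fp_t0 (c : ι → Lb d K) {z : R4} {y : ι → R4} (h : ∀ i, z ≠ y i) (μ ν) :
    fp (fun i : Option ι => i.elim (t0 μ ν) c) (fun i => i.elim z y) = Lk y (Rn c) fun p q =>
      (sg p.2 q.2 * Tb (Fz (y p.1) p.2.1 z) (Fz (y q.1) q.2.1 z) μ ν : ℝ) := by
  have f (μ ν) : Ek (fun i : Option ι => i.elim z y)
      (rename (Prod.mk none) (ff μ ν) * rename (Prod.map some id) (Rn c)) = Lk y (Rn c) fun p q =>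
        (sg p.2 q.2 * ∑ l, Fz (y p.1) p.2.1 z μ l * Fz (y q.1) q.2.1 z ν l : ℝ) := by
    simp only [ff, map_sum, Finset.sum_mul, map_mul, rename_X, Ek_two]
    simp only [← map_sum]
    refine congrArg _ (funext₂ fun p q => ?_)
    simp only [Finset.sum_apply, kr, Option.elim, h, if_false, pr_eq _ _ (sub_ne_zero.2 (h _)), sg,
      Fz]
    norm_cast
    split_ifs with e <;> simp [e, Finset.mul_sum, mul_mul_mul_comm, eq_comm]
  rw [fp_opt, t0]
  simp only [lg, map_sub, sub_mul, apply_ite (rename _), map_zero, ite_mul, zero_mul, map_smul,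
    map_sum, smul_mul_assoc, Finset.sum_mul, apply_ite (Ek _), f]
  split_ifs with e
  · simp only [← map_sum, ← map_smul, ← map_sub]
    refine congrArg _ (funext₂ fun p q => ?_)
    simp [Tb, e, mul_sub, Finset.mul_sum, mul_left_comm, map_ofNat]
  · simp [Tb, e]

theorem der_sum {R A κ : Type} [CommRing R] [CommRing A] [Algebra R A] (s : Finset κ)
    (f : κ → Derivation R A A) (x : A) : (∑ i ∈ s, f i) x = ∑ i ∈ s, f i x := by
  classical induction s using Finset.induction_on <;> simp_all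

theorem Sp_X (w : Matrix (Fin 4) (Fin 4) ℝ) (p : Var d) : Sp w (X p : Lb d K) =
    ∑ r, ∑ l, (w l (p.1.2 r) : K) • X (⟨p.1.1, update p.1.2 r l⟩, p.2) := mkDerivation_X _ _ _

/-- the normalisation of the stress tensor -/
def kap : ℝ := -In (op sq4 g1)

theorem kap_ne : kap ≠ 0 := neg_ne_zero.2 ex_g.choose_spec.2

theorem ward [DecidableEq ι] (c : ι → Lb d K) (y : ι → R4) {ξ : R4 → ℝ} (e : ι → ℝ) (a : R4)
    {w : Matrix (Fin 4) (Fin 4) ℝ} (hw : wᵀ = -w) (hξ : ContDiff ℝ ∞ ξ) (hc : HasCompactSupport ξ)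
    (he : ∀ i, ∀ᶠ z in 𝓝 (y i), ξ z = e i) :
    ∑ μ, ∑ ν, ∫ z, (pd μ ξ z * (a + ac w z) ν : ℝ) *
      fp (fun i : Option ι => i.elim (t0 μ ν) c) (fun i => i.elim z y) =
    kap * ∑ i, e i * fp (update c i
      (∑ ν, ((a + ac w (y i)) ν : K) • Dv ν (c i) + Sp w (c i))) y := by
  unfold kap
  set κ := -In (op sq4 g1)
  set δ : ι → Derivation K (Lb d K) (Lb d K) := fun i =>
    ((κ : K) * e i) • (∑ ν, ((a + ac w (y i)) ν : K) • Dv ν + Sp w)
  set Φ := fun p q : ι × Var d =>
    sg p.2 q.2 * ∑ μ, ∑ ν, ∫ z, fx a w ⟨ξ, hξ⟩ (y p.1) (y q.1) p.2.1 q.2.1 μ ν z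
  have l (μ ν) : ∫ z, (pd μ ξ z * (a + ac w z) ν : ℝ) *
      fp (fun i : Option ι => i.elim (t0 μ ν) c) (fun i => i.elim z y) = Lk y (Rn c) fun p q =>
        (sg p.2 q.2 * ∫ z, fx a w ⟨ξ, hξ⟩ (y p.1) (y q.1) p.2.1 q.2.1 μ ν z : ℝ) := by
    have i (p q : ι × Var d) : Integrable fun z =>
        ((sg p.2 q.2 * fx a w ⟨ξ, hξ⟩ (y p.1) (y q.1) p.2.1 q.2.1 μ ν z : ℝ) : K) *
          Ek y (pderiv p (pderiv q (Rn c))) :=
      (((fx_int a w (ξ := ⟨ξ, hξ⟩) hc (he _) (he _) _ _ μ ν).const_mul _).ofReal).mul_const _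
    simp only [Lk, LinearMap.coe_mk, AddHom.coe_mk, ← integral_const_mul, ← integral_ofReal,
      ← integral_mul_const, ← integral_finsetSum _ fun q _ => i _ q,
      ← integral_finsetSum _ fun p _ => integrable_finsetSum _ fun q _ => i p q]
    refine integral_congr_ae (.of_forall fun z => ?_)
    by_cases h : ∀ i, z ≠ y i
    · simp only [fp_t0 c h, Lk, LinearMap.coe_mk, AddHom.coe_mk, Finset.mul_sum, fx]
      refine Finset.sum_congr rfl fun p _ => Finset.sum_congr rfl fun q _ => ?_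
      push_cast
      ring
    · obtain ⟨j, rfl⟩ := by simpa using h
      obtain ⟨r, b, hr⟩ := ((near (ξ := ⟨ξ, hξ⟩) (he j)).and self_mem_nhdsWithin).exists
      have : pd μ ξ (y j) = 0 := (b _ (by simpa using le_of_lt hr)).2 μ
      simp [fx, this]
  have k (p q : ι × Var d) : Ek (K := K) y (X q * lift δ (X p)) = (if y p.1 = y q.1 then 0 else κ * e p.1 *
      sg p.2 q.2 * (-1) ^ (p.2.1.1 + 1) * P0 a w p.2.1 q.2.1 (y p.1) (y q.1) : ℝ) := by
    have u (ν) : spr ⟨p.2.1.1 + 1, Fin.snoc p.2.1.2 ν⟩ q.2.1 = X ν * spr p.2.1 q.2.1 := by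
      simp only [spr, Finset.mul_sum, ← mul_assoc, ← sy_up ν p.2]
      rfl
    simp only [mul_comm (X q), lift_X, δ, Derivation.smul_apply, Derivation.add_apply, der_sum,
      Dv_X, Sp_X, map_smul, map_add, map_sum, rename_X, smul_mul_assoc, add_mul, Finset.sum_mul,
      Ek_X_X, kr]
    split_ifs with h
    · simp
    · simp only [pr_eq _ _ (sub_ne_zero.2 h), u, sg, P0, smul_eq_mul]
      simp only [← RCLike.ofReal_mul, ← RCLike.ofReal_sum, ← RCLike.ofReal_add, RCLike.ofReal_inj]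
      split_ifs
      · simp only [mul_left_comm _ ((-1 : ℝ) ^ (q.2.1.1 + 1)), ← Finset.mul_sum]
        rcases neg_one_pow_eq_or ℝ (p.2.1.1 + 1) with h | h <;> rw [h] <;> ring
      · simp
  have := fp_der δ (fun i p => ?_) (y := y) (B := fun p q => Φ p q) (fun p q => ?_) c
  · simp only [l, ← map_sum, Finset.mul_sum, ← mul_assoc]
    simp only [← Lk_eq, δ, Derivation.smul_apply, ← fm_apply, MultilinearMap.map_update_smul,
      Derivation.add_apply, der_sum] at this
    simp only [← fm_apply]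
    refine Eq.trans (congrArg _ (funext₂ fun p q => ?_)) this.symm
    simp [Φ, Finset.mul_sum]
  · simp only [δ, Derivation.smul_apply, Derivation.add_apply, der_sum, Dv_X, Sp_X]
    exact Submodule.smul_mem _ _ (Submodule.add_mem _ (Submodule.sum_mem _ fun _ _ =>
      Submodule.smul_mem _ _ (X_mem_Lin _)) (Submodule.sum_mem _ fun _ _ =>
        Submodule.sum_mem _ fun _ _ => Submodule.smul_mem _ _ (X_mem_Lin _)))
  · have s : sg q.2 p.2 = sg p.2 q.2 := by simp only [sg, eq_comm, mul_comm]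
    rw [Derivation.leibniz, map_add, smul_eq_mul, smul_eq_mul, k, k, sy]
    simp only [← RCLike.ofReal_add, RCLike.ofReal_inj, κ, Φ, s, ← mul_add,
      two_leg a w hw (ξ := ⟨ξ, hξ⟩) hc (he _) (he _), eq_comm (a := y q.1)]
    split_ifs
    · simp
    · ring

theorem s_ward : S_ward K d :=
  ⟨kap, kap_ne, fun _ _ _ c y _ e a _ hw _ hξ hc he => ward c y e a hw hξ hc he⟩

end Pool.Agent.Lib.MP_7f377f_mp.Zf
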