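import Pool.Agent.Lib.MP_7f377f_mp.G.ZfB

/-! Smooth functions as a module over the symbols; the flux of the stress tensor of two Maxwell
fields with sources. -/

noncomputable section

namespace Pool.Agent.Lib.MP_7f377f_mp.Zf

open MvPolynomial Filter Topology Matrix MeasureTheory Function
open YZ (R4)
open scoped ContDiff

/-- smooth functions as a subalgebra -/
def SmS : Subalgebra ℝ (R4 → ℝ) where
  carrier := {f | ContDiff ℝ ∞ f}
  mul_mem' {f g} (h : ContDiff ℝ ∞ f) (h' : ContDiff ℝ ∞ g) := h.mul h'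
  add_mem' {f g} (h : ContDiff ℝ ∞ f) (h' : ContDiff ℝ ∞ g) := h.add h'
  algebraMap_mem' c := (contDiff_const : ContDiff ℝ ∞ fun _ : R4 => c)

/-- smooth functions -/
def Sm : Type := SmS

instance : CommRing Sm := inferInstanceAs (CommRing SmS)

instance : Algebra ℝ Sm := inferInstanceAs (Algebra ℝ SmS)

/-- evaluation -/
def ev (z : R4) : Sm →ₐ[ℝ] ℝ := (Pi.evalAlgHom ℝ (fun _ => ℝ) z).comp SmS.val

theorem ev_eq (z) (f : Sm) : f.1 z = ev z f := rfl

theorem sm (f : Sm) : ContDiff ℝ ∞ f.1 := f.2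

theorem pd_eq (f : Sm) (μ) : pd μ f.1 = fun y => fderiv ℝ f.1 y (ee μ) :=
  funext fun y => ((sm f).differentiable (by simp) y).lineDeriv_eq_fderiv

theorem pd_sm (f : Sm) (μ) : ContDiff ℝ ∞ (pd μ f.1) :=
  pd_eq f μ ▸ ((sm f).fderiv_right (m := ∞) (by simp)).clm_apply contDiff_const

theorem pd_has (f : Sm) (μ y) : HasDerivAt (fun t : ℝ => f.1 (y + t • ee μ)) (pd μ f.1 y) 0 :=
  ((sm f).differentiable (by simp) y).lineDifferentiableAt.hasLineDerivAt

/-- the derivatives -/
def dd (μ : Fin 4) : Derivation ℝ Sm Sm := .mk'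
  { toFun f := ⟨pd μ f.1, pd_sm f μ⟩
    map_add' f g := Subtype.ext (funext fun y =>
      (pd_has (f + g) μ y).unique ((pd_has f μ y).add (pd_has g μ y)))
    map_smul' c f := Subtype.ext (funext fun y =>
      (pd_has (c • f) μ y).unique ((pd_has f μ y).const_smul c)) }
  fun f g => Subtype.ext (funext fun y => (pd_has (f * g) μ y).unique (by
    have := (pd_has f μ y).mul (pd_has g μ y)
    simp only [zero_smul, add_zero] at this
    exact this.congr_deriv (by rw [add_comm, mul_comm (pd μ f.1 y)]; rfl)))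

theorem dd_comm (i j) (f : Sm) : dd i (dd j f) = dd j (dd i f) := Subtype.ext (funext fun y => by
  have k : ∀ i j, (dd i (dd j f)).1 y = fderiv ℝ (fderiv ℝ f.1) y (ee i) (ee j) := fun i j => by
    change pd i (dd j f).1 y = _
    rw [pd_eq, show (dd j f).1 = _ from pd_eq f j]
    simp only
    rw [fderiv_clm_apply (((sm f).fderiv_right (m := ∞) (by simp)).differentiable
      (by simp) y) (differentiableAt_const _)]
    simp
  exact (k i j).trans (((sm f).contDiffAt.isSymmSndFDerivAt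
    (by rw [minSmoothness_of_isRCLikeNormedField]; exact ENat.LEInfty.out) _ _).trans
    (k j i).symm))

open scoped IsMulCommutative in
theorem ex_op : ∃ op : Pp →ₐ[ℝ] Module.End ℝ Sm, ∀ μ f, op (X μ) f = dd μ f := by
  have := Algebra.isMulCommutative_adjoin ℝ (s := Set.range fun μ => (dd μ).toLinearMap) (by
    rintro _ ⟨i, rfl⟩ _ ⟨j, rfl⟩
    exact LinearMap.ext (dd_comm i j))
  exact ⟨(Algebra.adjoin ℝ (Set.range fun μ => (dd μ).toLinearMap)).val.comp
    (aeval fun μ => ⟨_, Algebra.subset_adjoin ⟨μ, rfl⟩⟩), fun μ f => by simp⟩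

/-- differential operators with constant coefficients -/
def op : Pp →ₐ[ℝ] Module.End ℝ Sm := ex_op.choose

theorem op_X (μ) (f : Sm) : op (X μ) f = dd μ f := ex_op.choose_spec μ f

theorem op_mul (s t : Pp) (f : Sm) : op (s * t) f = op s (op t f) := by
  rw [map_mul, Module.End.mul_apply]

theorem op_C (a : ℝ) (f : Sm) : op (C a) f = a • f := by simp [algHom_C]

theorem dd_op (μ) (s : Pp) (f : Sm) : dd μ (op s f) = op (X μ * s) f := by rw [op_mul, op_X]

/-- compact supports -/
def Cs : Ideal Sm where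
  carrier := {f | HasCompactSupport f.1}
  add_mem' h h' := HasCompactSupport.add h h'
  zero_mem' := HasCompactSupport.zero
  smul_mem' _ _ h := HasCompactSupport.mul_left h

theorem dd_Cs {f : Sm} (h : f ∈ Cs) (μ) : dd μ f ∈ Cs := by
  change HasCompactSupport (pd μ f.1)
  exact pd_eq f μ ▸ HasCompactSupport.fderiv_apply ℝ h _

theorem Cs_int {f : Sm} (h : f ∈ Cs) : Integrable f.1 :=
  (sm f).continuous.integrable_of_hasCompactSupport h

theorem ex_In : ∃ In : Sm →ₗ[ℝ] ℝ, ∀ f ∈ Cs, In f = ∫ z, f.1 z := by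
  obtain ⟨V, e⟩ := LinearMap.exists_extend (p := Cs.restrictScalars ℝ)
    { toFun f := ∫ z, f.1.1 z
      map_add' f g := integral_add (Cs_int f.2) (Cs_int g.2)
      map_smul' c f := integral_smul c f.1.1 }
  exact ⟨V, fun f hf => LinearMap.congr_fun e ⟨f, hf⟩⟩

/-- the integral -/
def In : Sm →ₗ[ℝ] ℝ := ex_In.choose

theorem In_eq {f : Sm} (h : f ∈ Cs) : In f = ∫ z, f.1 z := ex_In.choose_spec f h

theorem In_dd {f : Sm} (h : f ∈ Cs) (μ) : In (dd μ f) = 0 := by
  have := integral_mul_fderiv_eq_neg_fderiv_mul_of_integrable (μ := volume) (f := fun _ => (1 : ℝ))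
    (g := f.1) (v := ee μ) (by simp) (by simpa [← pd_eq] using (show Integrable (pd μ f.1) volume from Cs_int (dd_Cs h μ)))
    (by simpa using Cs_int h) (by simp) fun x _ => (sm f).differentiable (by simp) x
  rw [In_eq (dd_Cs h μ), show (dd μ f).1 = _ from pd_eq f μ]
  simpa using this

/-- scaling of symbols -/
def sc (t : ℝ) : Pp →ₐ[ℝ] Pp := aeval fun μ => t • X μ

theorem sc_X (t : ℝ) (μ) : sc t (X μ) = t • X μ := aeval_X _ _

theorem sc_syb (t : ℝ) (I : Jx) (l) : sc t (syb I l) = t ^ (I.1 + 1) • syb I l := by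
  simp only [syb, map_mul, map_sub, map_prod, apply_ite (sc t), sc_X, map_zero, smul_eq_C_mul,
    Finset.prod_mul_distrib, Finset.prod_const, Finset.card_univ,
    Fintype.card_fin, map_pow]
  split_ifs <;> ring

theorem sc_spr (t : ℝ) (I J : Jx) : sc t (spr I J) = t ^ (I.1 + 1 + (J.1 + 1)) • spr I J := by
  simp only [spr, map_sum, map_mul, sc_syb, smul_mul_smul_comm, Finset.smul_sum, pow_add t (_ + 1)]

theorem sc_sq (t : ℝ) : sc t sq4 = t ^ 2 • sq4 := by
  simp [sc, sq4, Finset.smul_sum, smul_smul, sq]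

/-- integration by parts -/
theorem In_op (s : Pp) {h : Sm} (hh : h ∈ Cs) (f : Sm) :
    In (op s h * f) = In (h * op (sc (-1) s) f) := by
  induction s using MvPolynomial.induction_on generalizing h with
  | C a => simp
  | add p q a b => simp [add_mul, mul_add, a hh, b hh]
  | mul_X p μ a =>
    have := In_dd (Cs.mul_mem_right (op (sc (-1) p) f) hh) μ
    rw [op_mul, op_X, a (dd_Cs hh μ), mul_comm p, map_mul (sc _), op_mul]
    simp only [Derivation.leibniz, smul_eq_mul, map_add, mul_comm _ (dd μ h)] at this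
    simp [sc_X, op_X, eq_neg_of_add_eq_zero_right this]

/-- coordinates -/
def xx (μ : Fin 4) : Sm := ⟨fun y => y μ, (by fun_prop : ContDiff ℝ ∞ fun y : R4 => y μ)⟩

theorem dd_xx (i j) : dd i (xx j) = if j = i then 1 else 0 := Subtype.ext (funext fun y => by
  refine (pd_has (xx j) i y).unique ?_
  rw [ev_eq y (ite _ _ _), apply_ite (ev y), map_one, map_zero]
  by_cases h : j = i
  · simpa [h, xx, ee] using (hasDerivAt_id (0 : ℝ)).const_add (y i)
  · simpa [h, xx, ee] using hasDerivAt_const (0 : ℝ) (y j))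

theorem op_xx (s : Pp) (α) (f : Sm) : op s (xx α * f) = xx α * op s f + op (pderiv α s) f := by
  induction s using MvPolynomial.induction_on generalizing f with
  | C a => simp
  | add p q a b => simp only [map_add, LinearMap.add_apply, a, b]; ring
  | mul_X p μ a =>
    simp only [op_mul, op_X, Derivation.leibniz, smul_eq_mul, map_add, a, dd_xx, pderiv_X,
      LinearMap.add_apply, mul_comm (X μ), Pi.single_apply]
    rcases eq_or_ne α μ with rfl | h
    · simp [add_assoc, add_comm]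
    · simp [h, h.symm]

variable (a : R4) (w : Matrix (Fin 4) (Fin 4) ℝ)

/-- the Killing field -/
def kk (ν : Fin 4) : Sm := a ν • 1 + ∑ α, w ν α • xx α

theorem kk_val (ν z) : (kk a w ν).1 z = (a + ac w z) ν := by
  simp only [ev_eq, kk, map_add, map_sum, map_smul, map_one]
  simp [← ev_eq, xx, ac, mulVec, dotProduct]

theorem dd_kk (μ ν) : dd μ (kk a w ν) = w ν μ • 1 := by simp [kk, dd_xx]

theorem op_kk (s : Pp) (ν) (f : Sm) :
    op s (kk a w ν * f) = kk a w ν * op s f + ∑ α, w ν α • op (pderiv α s) f := by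
  simp only [kk, add_mul, Finset.sum_mul, smul_mul_assoc, map_add, map_sum, map_smul, one_mul,
    op_xx, smul_add, Finset.sum_add_distrib, add_assoc]

theorem der_prod {R A ι : Type} [CommRing R] [CommRing A] [Algebra R A] [DecidableEq ι]
    (δ : Derivation R A A) (s : Finset ι) (f : ι → A) :
    δ (∏ i ∈ s, f i) = ∑ i ∈ s, (∏ j ∈ s.erase i, f j) * δ (f i) := by
  induction s using Finset.induction_on with
  | empty => simp
  | insert i s h ih =>
    rw [Finset.prod_insert h, Finset.sum_insert h, Finset.erase_insert h, Derivation.leibniz, ih,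
      add_comm, Finset.smul_sum]
    refine congrArg _ (Finset.sum_congr rfl fun j a => ?_)
    rw [Finset.erase_insert_of_ne (ne_of_mem_of_not_mem a h).symm,
      Finset.prod_insert fun b => h (Finset.mem_of_mem_erase b), smul_eq_mul, mul_assoc]

/-- infinitesimal action on symbols -/
def dwE : Derivation ℝ Pp Pp := mkDerivation ℝ fun α => ∑ ν, w ν α • X ν

theorem dwE_eq (s : Pp) : dwE w s = ∑ ν, ∑ α, w ν α • (X ν * pderiv α s) := by
  induction s using MvPolynomial.induction_on with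
  | C a => simp
  | add p q a b => simp [a, b, mul_add, Finset.sum_add_distrib]
  | mul_X p μ a =>
    simp only [Derivation.leibniz, a, smul_eq_mul, Finset.mul_sum, mul_add, smul_add, pderiv_X,
      Finset.sum_add_distrib, Pi.single_apply, mul_smul_comm, mul_left_comm (X μ)]
    simp [dwE, mkDerivation_X, Finset.mul_sum, mul_comm]

theorem sy_Sp {n : ℕ} (I : Fin (n + 2) → Fin 4) (l : Fin 4) :
    ∑ r, ∑ m, w m (I r) • syb ⟨n, update I r m⟩ l =
      dwE w (syb ⟨n, I⟩ l) + ∑ α, w l α • syb ⟨n, I⟩ α := by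
  have f (J : Fin (n + 2) → Fin 4) (l) : syb ⟨n, J⟩ l =
      ∏ r, (if r = 0 then (if J r = l then 1 else 0) else X (J r) : Pp) -
      ∏ r, (if r = 1 then (if J r = l then 1 else 0) else X (J r) : Pp) := by
    simp [syb, Fin.prod_univ_succ, sub_mul, Fin.succ_succ_ne_one]
  have e (k : Fin (n + 2)) : ∑ r, ∑ m, w m (I r) • ∏ s, (if s = k then
      (if update I r m s = l then 1 else 0) else X (update I r m s) : Pp) =
      dwE w (∏ s, (if s = k then (if I s = l then 1 else 0) else X (I s) : Pp)) +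
      ∑ α, w l α • ∏ s, (if s = k then (if I s = α then 1 else 0) else X (I s) : Pp) := by
    have p (r m) : ∏ s, (if s = k then
        (if update I r m s = l then 1 else 0) else X (update I r m s) : Pp) =
        (∏ s ∈ Finset.univ.erase r, (if s = k then (if I s = l then 1 else 0) else X (I s) : Pp)) *
          if r = k then (if m = l then 1 else 0) else X m := by
      rw [← Finset.prod_erase_mul _ _ (Finset.mem_univ r), update_self]
      exact congrArg (· * _) (Finset.prod_congr rfl fun s h => by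
        rw [update_of_ne (Finset.ne_of_mem_erase h)])
    have q (α) : ∏ s, (if s = k then (if I s = α then 1 else 0) else X (I s) : Pp) =
        (∏ s ∈ Finset.univ.erase k, (if s = k then (if I s = l then 1 else 0) else X (I s) : Pp)) *
          if I k = α then 1 else 0 := by
      rw [← Finset.prod_erase_mul _ _ (Finset.mem_univ k), if_pos rfl]
      exact congrArg (· * _) (Finset.prod_congr rfl fun s h => by
        simp only [Finset.ne_of_mem_erase h, if_false])
    rw [der_prod]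
    simp only [p, q, ← mul_smul_comm, ← Finset.mul_sum]
    rw [ ← Finset.sum_erase_add _ _ (Finset.mem_univ k),
      ← Finset.sum_erase_add _ _ (Finset.mem_univ k), add_assoc, ← mul_add]
    refine congrArg₂ _ (Finset.sum_congr rfl fun r h => ?_) ?_
    · simp [Finset.ne_of_mem_erase h, dwE]
    · simp [apply_ite (dwE w)]
  simp only [f, smul_sub, Finset.sum_sub_distrib, e, map_sub]
  abel

theorem sp_zero (μ l : Fin 4) (I : Jx) :
    spr ⟨0, ![μ, l]⟩ I = X l * syb I μ - X μ * syb I l := by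
  simp [spr, syb, sub_mul]

theorem sp_Sp (I J : Jx) : ∑ ν, ∑ l, ∑ α, w ν α • (pderiv α (syb I l) * spr ⟨0, ![ν, l]⟩ J) =
    -∑ r, ∑ m, w m (I.2 r) • spr ⟨I.1, update I.2 r m⟩ J := by
  have t (α) : ∑ l, pderiv α (syb I l) * X l = -syb I α := by
    have := congrArg (pderiv α) (sy_tr I)
    simp only [map_sum, Derivation.leibniz, smul_eq_mul, pderiv_X, Pi.single_apply, mul_ite, mul_one,
      mul_zero, Finset.sum_add_distrib, Finset.sum_ite_eq', Finset.mem_univ, if_true,
      map_zero, mul_comm (X _)] at this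
    exact eq_neg_of_add_eq_zero_right this
  have e : ∑ r, ∑ m, w m (I.2 r) • spr ⟨I.1, update I.2 r m⟩ J =
      ∑ l, (∑ r, ∑ m, w m (I.2 r) • syb ⟨I.1, update I.2 r m⟩ l) * syb J l := by
    simp only [spr, Finset.sum_mul, Finset.smul_sum, smul_mul_assoc]
    exact (Finset.sum_congr rfl fun _ _ => Finset.sum_comm).trans Finset.sum_comm
  simp only [e, sy_Sp, dwE_eq, sp_zero, mul_sub, smul_sub, Finset.sum_sub_distrib, add_mul,
    Finset.sum_add_distrib, neg_add]
  rw [add_comm, sub_eq_add_neg]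
  refine congrArg₂ _ ?_ (congrArg _ ?_)
  · rw [← Finset.sum_neg_distrib]
    refine Finset.sum_congr rfl fun ν _ => ?_
    rw [Finset.sum_comm]
    simp only [← Finset.smul_sum, ← mul_assoc, ← Finset.sum_mul, t]
    simp [Finset.sum_mul]
  · rw [Finset.sum_comm]
    simp only [Finset.sum_mul, smul_mul_assoc, mul_assoc, mul_left_comm (X _)]

/-- the stress tensor as a bilinear form -/
def Tb {A : Type} [CommRing A] [Algebra ℝ A] (F G : Fin 4 → Fin 4 → A) (μ ν : Fin 4) : A :=
  ∑ l, F μ l * G ν l - if μ = ν then (4⁻¹ : ℝ) • ∑ m, ∑ l, F m l * G m l else 0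

theorem Tb_div {F G : Fin 4 → Fin 4 → Sm} (hF : ∀ μ l, F μ l = -F l μ) (hG : ∀ μ l, G μ l = -G l μ)
    (bF : ∀ ν μ l, dd ν (F μ l) = dd μ (F ν l) + dd l (F μ ν))
    (bG : ∀ ν μ l, dd ν (G μ l) = dd μ (G ν l) + dd l (G μ ν)) (ν) :
    ∑ μ, dd μ (Tb F G μ ν + Tb G F μ ν) =
      ∑ l, ((∑ μ, dd μ (F μ l)) * G ν l + (∑ μ, dd μ (G μ l)) * F ν l) := by
  have k : ∀ {F G : Fin 4 → Fin 4 → Sm}, (∀ μ l, F μ l = -F l μ) → (∀ μ l, G μ l = -G l μ) →
      (∀ ν μ l, dd ν (G μ l) = dd μ (G ν l) + dd l (G μ ν)) →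
      ∑ m, ∑ l, F m l * dd ν (G m l) = (2 : ℝ) • ∑ m, ∑ l, F m l * dd m (G ν l) := by
    intro F G hF hG bG
    simp only [bG ν, mul_add, Finset.sum_add_distrib, two_smul]
    rw [Finset.sum_comm (f := fun m l => F m l * dd l (G m ν))]
    refine congrArg _ (Finset.sum_congr rfl fun m _ => Finset.sum_congr rfl fun l _ => ?_)
    rw [hF l m, hG l ν, map_neg, neg_mul_neg]
  have e : ∀ f : Fin 4 → Fin 4 → Sm, ∑ l, ∑ μ, f μ l = ∑ μ, ∑ l, f μ l :=
    fun f => Finset.sum_comm
  simp only [Tb, map_add, map_sub, map_sum, apply_ite (dd _), map_zero, Finset.sum_add_distrib,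
    Finset.sum_sub_distrib, Finset.sum_ite_eq', Finset.mem_univ, if_true, Derivation.map_smul,
    Derivation.leibniz, smul_eq_mul, k hF hG bG, k hG hF bF, Finset.sum_mul,
    e fun μ l => dd μ (F μ l) * G ν l, e fun μ l => dd μ (G μ l) * F ν l, mul_comm (F ν _), mul_comm (G ν _)]
  module

/-- the field of a jet -/
def fd (I : Jx) (g : Sm) (μ l : Fin 4) : Sm := op (spr ⟨0, ![μ, l]⟩ I) g

/-- the Lie derivative of the propagator -/
def Ps (I J : Jx) (g : Sm) : Sm := ∑ ν, kk a w ν * op (X ν * spr I J) g +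
  ∑ r, ∑ m, w m (I.2 r) • op (spr ⟨I.1, update I.2 r m⟩ J) g

theorem src (I J : Jx) {g ξ : Sm} (g' : Sm) {e : ℝ} (hg : op sq4 g ∈ Cs)
    (h : ∀ s, ξ * op (sq4 * s) g = e • op (sq4 * s) g) :
    ∑ ν, ∑ l, In (ξ * kk a w ν * ((∑ μ, dd μ (fd I g μ l)) * fd J g' ν l)) =
      e * (-1) ^ (I.1 + 1) * In (op sq4 g * Ps a w I J g') := by
  have dv (l) : ∑ μ, dd μ (fd I g μ l) = -op (sq4 * syb I l) g := by
    rw [← LinearMap.neg_apply, ← map_neg]
    simp only [fd, dd_op, sp_zero, ← LinearMap.sum_apply, ← map_sum, mul_sub, Finset.sum_sub_distrib, mul_left_comm _ (X l), ← Finset.mul_sum, sy_tr,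
      sq4, Finset.sum_mul, mul_assoc, mul_zero, zero_sub]
  have e1 (ν l) : In (ξ * kk a w ν * ((∑ μ, dd μ (fd I g μ l)) * fd J g' ν l)) =
      -(e * (-1) ^ (I.1 + 1) * In (op sq4 g * op (syb I l) (kk a w ν * fd J g' ν l))) := by
    rw [dv, neg_mul, mul_neg, map_neg, mul_mul_mul_comm, h, smul_mul_assoc, map_smul,
      mul_comm sq4, op_mul, In_op _ hg, sc_syb]
    simp [mul_assoc]
  have e2 (ν) : ∑ l, syb I l * spr ⟨0, ![ν, l]⟩ J = -(X ν * spr I J) := by
    simp only [sp_zero, mul_sub, Finset.sum_sub_distrib, ← mul_assoc, ← Finset.sum_mul,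
      mul_comm _ (X _ : Pp), sy_tr]
    simp [spr, Finset.mul_sum, mul_assoc]
  have e3 := congrArg (op · g') (sp_Sp w I J)
  simp only [map_sum, map_smul, map_neg, LinearMap.sum_apply, LinearMap.smul_apply,
    LinearMap.neg_apply] at e3
  simp only [e1, ← Finset.mul_sum, ← map_sum, ← mul_neg, ← map_neg]
  simp only [op_kk, fd, ← op_mul, Finset.sum_add_distrib, e3, ← Finset.mul_sum,
    ← LinearMap.sum_apply, ← map_sum op, e2, Ps, map_neg, LinearMap.neg_apply, mul_neg,
    Finset.sum_neg_distrib, neg_add, neg_neg]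

/-- the flux of the stress tensor -/
theorem flux (hw : wᵀ = -w) (I J : Jx) {g g' ξ : Sm} {e e' : ℝ} (hξ : ξ ∈ Cs) (hg : op sq4 g ∈ Cs)
    (hg' : op sq4 g' ∈ Cs) (h : ∀ s, ξ * op (sq4 * s) g = e • op (sq4 * s) g)
    (h' : ∀ s, ξ * op (sq4 * s) g' = e' • op (sq4 * s) g') :
    ∑ μ, ∑ ν, In (dd μ ξ * kk a w ν * Tb (fd I g) (fd J g') μ ν) +
      ∑ μ, ∑ ν, In (dd μ ξ * kk a w ν * Tb (fd J g') (fd I g) μ ν) =
      -(e * (-1) ^ (I.1 + 1) * In (op sq4 g * Ps a w I J g') +
        e' * (-1) ^ (J.1 + 1) * In (op sq4 g' * Ps a w J I g)) := by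
  have an (I g μ l) : fd I g μ l = -fd I g l μ := by
    simp only [fd, sp_zero, map_sub, LinearMap.sub_apply, neg_sub]
  have bi (I g ν μ l) : dd ν (fd I g μ l) = dd μ (fd I g ν l) + dd l (fd I g μ ν) := by
    simp only [fd, dd_op, sp_zero, ← LinearMap.add_apply, ← map_add]
    exact congrArg (op · g) (by ring)
  set S := fun μ ν => Tb (fd I g) (fd J g') μ ν + Tb (fd J g') (fd I g) μ ν with hS
  have sy (μ ν) : S μ ν = S ν μ := by
    simp only [hS, Tb, eq_comm (a := ν), mul_comm (fd J g' _ _)]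
    ring
  have e1 (μ ν) : In (dd μ ξ * kk a w ν * S μ ν) =
      -(w ν μ * In (ξ * S μ ν)) - In (ξ * kk a w ν * dd μ (S μ ν)) := by
    have := In_dd (Cs.mul_mem_right (S μ ν) (Cs.mul_mem_right (kk a w ν) hξ)) μ
    simp only [Derivation.leibniz, smul_eq_mul, dd_kk, add_mul, map_add, mul_smul_comm, mul_one,
      map_smul, mul_comm (S μ ν), mul_comm (kk a w ν) (dd μ ξ), smul_mul_assoc] at this
    linarith
  have e2 : ∑ μ, ∑ ν, w ν μ * In (ξ * S μ ν) = 0 := by
    have : ∑ μ, ∑ ν, w ν μ * In (ξ * S μ ν) = -∑ μ, ∑ ν, w ν μ * In (ξ * S μ ν) := by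
      simp only [← Finset.sum_neg_distrib]
      refine Finset.sum_comm.trans
        (Finset.sum_congr rfl fun μ _ => Finset.sum_congr rfl fun ν _ => ?_)
      rw [sy ν, show w μ ν = -w ν μ from congrFun₂ hw ν μ, neg_mul]
    linarith
  rw [← src a w I J g' hg h, ← src a w J I g hg' h']
  simp only [← Finset.sum_add_distrib, ← map_add, ← mul_add]
  refine (Finset.sum_congr rfl fun μ _ => Finset.sum_congr rfl fun ν _ => e1 μ ν).trans ?_
  simp only [Finset.sum_sub_distrib, Finset.sum_neg_distrib, e2, neg_zero, zero_sub]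
  rw [Finset.sum_comm]
  simp only [← map_sum, ← Finset.mul_sum, hS, Tb_div (an I g) (an J g') (bi I g) (bi J g')]

end Pool.Agent.Lib.MP_7f377f_mp.Zf
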