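import Pool.Agent.Lib.MP_7f377f_mp.G.ZfB

/-! Linear relations between the jets of the propagator are consequences of the field equations. -/

noncomputable section

namespace Pool.Agent.Lib.MP_7f377f_mp.Zf

open MvPolynomial Filter Topology Matrix
open YZ (R4 Var pr alt)
open scoped ContDiff

variable {d n : ℕ} {v : R4}

/-- the derivative of a polynomial along a line -/
theorem ev_der {σ K : Type} [RCLike K] (a b : σ → K)
    (δ : Derivation K (MvPolynomial σ K) (MvPolynomial σ K)) (h : ∀ p, eval a (δ (X p)) = b p)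
    (c : MvPolynomial σ K) :
    HasDerivAt (fun t : ℝ => eval (fun p => a p + t • b p) c) (eval a (δ c)) 0 := by
  induction c using MvPolynomial.induction_on with
  | C x => simpa using hasDerivAt_const (0 : ℝ) x
  | add p q hp hq => simp only [map_add]; exact hp.add hq
  | mul_X p u hp =>
    have := hp.mul (((hasDerivAt_id (0 : ℝ)).smul_const (b u)).const_add (a u))
    simp only [map_mul, eval_X, Derivation.leibniz, smul_eq_mul, map_add, h]
    refine HasDerivAt.congr_deriv this ?_
    simp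
    ring

theorem Dc_iter (n : ℕ) (q : Pp) (m : Fin n → R4) (hv : v ≠ 0) :
    iteratedFDeriv ℝ n (fun u => Dc u q) v m = Dc v ((∏ i, ∑ μ, m i μ • X μ) * q) := by
  induction n generalizing v with
  | zero => simp
  | succ n ih =>
    rw [DifferentiableAt.iteratedFDeriv_succ_apply_left'
      (((Dc_an q hv).contDiffAt (n := ω)).differentiableAt_iteratedFDeriv (by
        exact lt_of_lt_of_le (Nat.cast_lt.2 n.lt_succ_self) le_top)),
      Filter.EventuallyEq.fderiv_eq ((ev_ne hv).mono fun u hu => ih (Fin.tail m) hu), Dc_fd _ hv,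
      Fin.prod_univ_succ, mul_assoc, Finset.sum_mul, map_sum]
    simp [Fin.tail]

theorem Dc_ev (hv : v ≠ 0) {q : Pp} (h : ∀ r, Dc v (r * q) = 0) : ∀ᶠ u in 𝓝 v, Dc u q = 0 := by
  obtain ⟨p, r, hp⟩ := Dc_an q hv
  filter_upwards [Metric.eball_mem_nhds v hp.r_pos] with u hu
  have := hp.hasSum_iteratedFDeriv (y := u - v) (by
    simpa [Metric.mem_eball, edist_eq_enorm_sub] using hu)
  simp only [Dc_iter _ _ _ hv, h, smul_zero, add_sub_cancel] at this
  exact this.unique hasSum_zero

theorem ev_sq4 (u : R4) : eval u sq4 = ‖u‖ ^ 2 := by rw [nsq]; simp [sq4, sq]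

theorem sq4_ne : sq4 ≠ 0 := fun h => by
  have := ev_sq4 (ee 0)
  simp [h, ee] at this

/-- numerators of the derivatives of the fundamental solution -/
theorem num (n : ℕ) : ∃ c : ℝ, c ≠ 0 ∧ ∀ q : Pp, q.IsHomogeneous n → ∃ N : Pp,
    (∀ u : R4, u ≠ 0 → Dc u q * (‖u‖ ^ 2) ^ (n + 1) = eval u N) ∧ sq4 ∣ N - c • q := by
  induction n with
  | zero =>
    refine ⟨(4 * Real.pi ^ 2)⁻¹, by have := Real.pi_pos; positivity, fun q hq => ?_⟩
    rw [← totalDegree_zero_iff_isHomogeneous, totalDegree_eq_zero_iff_eq_C] at hq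
    refine ⟨(4 * Real.pi ^ 2)⁻¹ • q, fun u hu => ?_, by simp⟩
    have h0 : ‖u‖ ≠ 0 := norm_ne_zero_iff.2 hu
    rw [hq, Dc_C, G0]
    simp
    field_simp
  | succ n ih =>
    obtain ⟨c, hc, ih⟩ := ih
    refine ⟨-2 * (n + 1) * c, by positivity, fun q hq => ?_⟩
    obtain ⟨r, hr, rfl⟩ : ∃ r : Fin 4 → Pp, (∀ μ, (r μ).IsHomogeneous n) ∧ q = ∑ μ, X μ * r μ := by
      refine ⟨fun μ => ((n : ℝ) + 1)⁻¹ • pderiv μ q, fun μ =>
        (homogeneousSubmodule _ _ n).smul_mem _ (hq.pderiv (i := μ)), ?_⟩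
      simp only [mul_smul_comm, ← Finset.smul_sum, hq.sum_X_mul_pderiv]
      rw [← Nat.cast_smul_eq_nsmul ℝ, smul_smul]
      push_cast
      rw [inv_mul_cancel₀ (by positivity), one_smul]
    choose N h1 h2 using fun μ => ih (r μ) (hr μ)
    refine ⟨∑ μ, (sq4 * pderiv μ (N μ) - (2 * (n + 1) : ℝ) • (X μ * N μ)), fun u hu => ?_, ?_⟩
    · rw [map_sum, map_sum, Finset.sum_mul]
      refine Finset.sum_congr rfl fun μ _ => ?_
      have e (t : ℝ) : (u + t • ee μ).ofLp = fun p => u p + t • ee μ p := rfl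
      have a1 := ev_der u.ofLp (ee μ).ofLp (pderiv μ) (fun p => by
        simp [ee, Pi.single_apply]) (N μ)
      have a2 := ev_der u.ofLp (ee μ).ofLp (pderiv μ) (fun p => by
        simp [ee, Pi.single_apply]) sq4
      simp only [← e, ev_sq4] at a1 a2
      have a3 := (Dc_line μ (r μ) hu).mul (a2.pow (n + 1))
      have a4 : eval u (pderiv μ sq4) = 2 * u μ := by
        simp [sq4, Pi.single_apply, two_mul, Finset.sum_add_distrib]
      have hc : ContinuousAt (fun t : ℝ => u + t • ee μ) 0 := by fun_prop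
      have a5 := a1.unique (a3.congr_of_eventuallyEq
        ((hc.eventually (ev_ne (by simpa using hu))).mono fun t ht => (h1 μ _ ht).symm))
      simp only [zero_smul, add_zero, a4, Pi.pow_apply, Nat.add_sub_cancel] at a5
      simp only [map_sub, map_mul, ev_sq4, a5, smul_eval, eval_X, ← h1 μ u hu]
      push_cast
      ring
    · rw [Finset.smul_sum, ← Finset.sum_sub_distrib]
      refine Finset.dvd_sum fun μ _ => ?_
      obtain ⟨z, hz⟩ := h2 μ
      refine ⟨pderiv μ (N μ) - (2 * (n + 1) : ℝ) • (X μ * z), ?_⟩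
      rw [sub_eq_iff_eq_add.1 hz]
      simp only [smul_eq_C_mul, map_mul, map_neg, map_add, map_ofNat, map_one, map_natCast]
      ring

theorem ev_zero {N : Pp} (h : ∀ᶠ u : R4 in 𝓝 v, eval u N = 0) : N = 0 := by
  have := (AnalyticOnNhd.eval_continuousLinearMap' (𝕜 := ℝ)
    (fun i => (EuclideanSpace.proj i : R4 →L[ℝ] ℝ)) N).eqOn_zero_of_preconnected_of_eventuallyEq_zero
    isPreconnected_univ (Set.mem_univ v) h
  exact MvPolynomial.funext fun x => by
    rw [map_zero]; exact this (Set.mem_univ (WithLp.toLp 2 x))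

/-- the annihilator of the fundamental solution -/
theorem sq4_dvd (hv : v ≠ 0) {q : Pp} (h : ∀ r, Dc v (r * q) = 0) : sq4 ∣ q := by
  have k (f : ℕ → Pp) (hf : ∀ i, (f i).IsHomogeneous i) (n : ℕ) :
      (∃ N : Pp, ∀ u : R4, u ≠ 0 → Dc u (∑ i ∈ Finset.range n, f i) * (‖u‖ ^ 2) ^ n = eval u N) ∧
      ((∀ᶠ u in 𝓝 v, Dc u (∑ i ∈ Finset.range n, f i) = 0) → sq4 ∣ ∑ i ∈ Finset.range n, f i) := by
    induction n with
    | zero => exact ⟨⟨0, by simp⟩, by simp⟩
    | succ n ih =>
      obtain ⟨⟨N, hN⟩, ih⟩ := ih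
      obtain ⟨c, hc, hn⟩ := num n
      obtain ⟨M, hM, hd⟩ := hn _ (hf n)
      have e : ∀ u : R4, u ≠ 0 → Dc u (∑ i ∈ Finset.range (n + 1), f i) * (‖u‖ ^ 2) ^ (n + 1) =
          eval u (sq4 * N + M) := fun u hu => by
        rw [Finset.sum_range_succ, map_add, map_add, map_mul, ev_sq4, ← hN u hu, ← hM u hu]; ring
      refine ⟨⟨_, e⟩, fun h => ?_⟩
      have z : sq4 * N + M = 0 := ev_zero ((h.and (ev_ne hv)).mono fun u hu => by
        rw [← e u hu.2, hu.1, zero_mul])
      have hd2 : sq4 ∣ f n := by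
        obtain ⟨w, hw⟩ := hd
        refine ⟨c⁻¹ • (-N - w), ?_⟩
        rw [mul_smul_comm, eq_inv_smul_iff₀ hc]
        linear_combination z - hw
      rw [Finset.sum_range_succ] at h ⊢
      refine (ih ((h.and (ev_ne hv)).mono fun u hu => ?_)).add hd2
      obtain ⟨w, hw⟩ := hd2
      simpa [hw, Dc_sq _ hu.2] using hu.1
  rw [← sum_homogeneousComponent q]
  refine (k _ (fun i => homogeneousComponent_isHomogeneous i q) _).2 ?_
  rw [sum_homogeneousComponent]
  exact Dc_ev hv h

/-- the Euler operator plus a constant -/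
def eu (c : ℝ) (q : Pp) : Pp := ∑ μ, X μ * pderiv μ q + c • q

theorem eu_add (c : ℝ) (p q : Pp) : eu c (p + q) = eu c p + eu c q := by
  simp only [eu, map_add, mul_add, Finset.sum_add_distrib, smul_add]; abel

theorem eu_mono (c : ℝ) (α : Fin 4 →₀ ℕ) (a : ℝ) :
    eu c (monomial α a) = monomial α ((α.degree + c) * a) := by
  rw [eu, (isHomogeneous_monomial a rfl).sum_X_mul_pderiv, ← Nat.cast_smul_eq_nsmul ℝ, ← add_smul,
    smul_monomial, smul_eq_mul]

theorem eu_surj {c : ℝ} (hc : 0 < c) (q : Pp) : ∃ p, eu c p = q := by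
  induction q using MvPolynomial.induction_on' with
  | monomial α a =>
    exact ⟨monomial α ((α.degree + c)⁻¹ * a), by rw [eu_mono, mul_inv_cancel_left₀ (by positivity)]⟩
  | add p q hp hq => exact ⟨hp.choose + hq.choose, by rw [eu_add, hp.choose_spec, hq.choose_spec]⟩

theorem eu_inj {c : ℝ} (hc : 0 < c) {p q : Pp} (h : eu c p = eu c q) : p = q := by
  have k (α : Fin 4 →₀ ℕ) (q : Pp) : coeff α (eu c q) = (α.degree + c) * coeff α q := by
    induction q using MvPolynomial.induction_on' with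
    | monomial β a =>
      rw [eu_mono, coeff_monomial, coeff_monomial]
      split_ifs with h <;> simp [h]
    | add p q hp hq => rw [eu_add, coeff_add, coeff_add, hp, hq, mul_add]
  ext α
  exact mul_left_cancel₀ (by positivity) ((k α p).symm.trans (h ▸ k α q))

theorem eu_X (c : ℝ) (k : Fin 4) (q : Pp) : eu c (X k * q) = X k * eu (c + 1) q := by
  simp only [eu, Derivation.leibniz, pderiv_X, smul_eq_mul, mul_add, Finset.sum_add_distrib,
    Pi.single_apply, mul_ite, mul_one, mul_zero, Finset.sum_ite_eq, Finset.mem_univ, if_true,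
    Finset.mul_sum, add_smul, one_smul, mul_smul_comm, mul_left_comm (X k)]
  ring

/-- transverse vectors which are parallel to the momentum on the cone -/
theorem kos (w : Fin 4 → Pp) (h0 : ∑ l, X l * w l = 0) (h : ∀ k l, sq4 ∣ X k * w l - X l * w k) :
    ∃ a : Fin 4 → Pp, ∀ l, w l = sq4 * a l - X l * ∑ μ, X μ * a μ := by
  choose o ho using h
  have h1 (k l) : o k l = -o l k := mul_left_cancel₀ sq4_ne (by linear_combination -ho k l - ho l k)
  have h2 (k l m) : X m * o k l + X k * o l m - X l * o k m = 0 := mul_left_cancel₀ sq4_ne (by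
    linear_combination -X m * ho k l - X k * ho l m + X l * ho k m)
  have h3 (l) : w l = ∑ k, X k * o k l := mul_left_cancel₀ sq4_ne (by
    have : ∑ k, X k * (X k * w l - X l * w k) = sq4 * w l := by
      simp only [mul_sub, Finset.sum_sub_distrib, mul_left_comm _ (X l), ← Finset.mul_sum, h0, sq4,
        Finset.sum_mul, mul_assoc, mul_zero, sub_zero]
    rw [← this, Finset.mul_sum]
    simp only [ho, mul_left_comm sq4])
  choose a ha using fun l => eu_surj (c := 2 + 1) (by norm_num) (-∑ m, pderiv m (o l m))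
  have h4 (k l) : o k l = X k * a l - X l * a k := by
    refine eu_inj (c := 2) two_pos ?_
    have e : eu 2 (X k * a l - X l * a k) = X k * eu (2 + 1) (a l) - X l * eu (2 + 1) (a k) := by
      rw [eq_sub_iff_add_eq, ← eu_X, ← eu_add, sub_add_cancel, eu_X]
    have f := Finset.sum_congr (rfl : (Finset.univ : Finset (Fin 4)) = _) fun m _ =>
      congrArg (pderiv m) (h2 k l m)
    simp only [map_add, map_sub, Derivation.leibniz, pderiv_X, smul_eq_mul, Pi.single_apply,
      if_true, mul_ite, mul_one, mul_zero, Finset.sum_add_distrib, Finset.sum_sub_distrib,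
      Finset.sum_ite_eq, Finset.mem_univ, ← Finset.mul_sum, map_zero, Finset.sum_const,
      Finset.card_univ, Fintype.card_fin, nsmul_eq_mul, Nat.cast_ofNat] at f
    rw [e, ha, ha, eu, two_smul]
    linear_combination f - h1 l k
  refine ⟨a, fun l => ?_⟩
  simp only [h3 l, h4, mul_sub, Finset.sum_sub_distrib, sq4, Finset.sum_mul, Finset.mul_sum,
    mul_assoc, mul_left_comm (X l)]

theorem on_iff {ξ : Var d → ℝ} : ξ ∈ On d ↔ ∃ η : Fin d → Fin 4 → Pp →ₗ[ℝ] ℝ,
    (∀ a l r, η a l (sq4 * r) = ∑ μ, η a μ (X μ * (X l * r))) ∧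
      ∀ p : Var d, ξ p = -∑ l, η p.2 l (syb p.1 l) := by
  refine exists_congr fun η => and_congr (forall₃_congr fun a l r => ?_) (forall_congr' fun p => ?_)
  · simp only [Finset.sum_sub_distrib, sub_eq_zero, sq4, Finset.sum_mul, map_sum, mul_assoc]
  · simp only [syb, sub_mul, ite_mul, zero_mul, map_sub, apply_ite (η p.2 _), map_zero,
      Finset.sum_sub_distrib, Finset.sum_ite_eq, Finset.mem_univ, if_true, neg_sub]

/-- the jets of the propagator solve the field equations -/
theorem pr_on (q : Var d) (hv : v ≠ 0) : (fun p => pr p q v) ∈ On d := by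
  refine on_iff.2 ⟨fun a l => (if a = q.2 then -(-1 : ℝ) ^ (q.1.1 + 1) else 0) •
    Dc v ∘ₗ LinearMap.mulRight ℝ (syb q.1 l), fun a l r => ?_, fun p => ?_⟩
  · have : ∑ μ, X μ * (X l * r) * syb q.1 μ = X l * r * ∑ μ, X μ * syb q.1 μ := by
      rw [Finset.mul_sum]; exact Finset.sum_congr rfl fun _ _ => by ring
    simp only [LinearMap.smul_apply, LinearMap.comp_apply, LinearMap.mulRight_apply, smul_eq_mul,
      ← Finset.mul_sum, ← map_sum, this, sy_tr, mul_zero, map_zero]
    rw [mul_assoc, Dc_sq _ hv, mul_zero]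
  · simp only [LinearMap.smul_apply, LinearMap.comp_apply, LinearMap.mulRight_apply, smul_eq_mul,
      ← Finset.mul_sum, ← map_sum, pr_eq _ _ hv, spr]
    split_ifs <;> simp

/-- a linear relation between the jets of the propagator at one point holds on shell -/
theorem one_null (hv : v ≠ 0) {ι : Type} (s : Finset ι) (c : ι → ℝ) (I : ι → Jx)
    (h : ∀ J, ∑ i ∈ s, c i * pr0 J (I i) v = 0) {ξ : Var d → ℝ} (hξ : ξ ∈ On d) (a : Fin d) :
    ∑ i ∈ s, c i * ξ (I i, a) = 0 := by
  obtain ⟨η, h1, h2⟩ := on_iff.1 hξ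
  have hv' : -v ≠ 0 := neg_ne_zero.2 hv
  set w : Fin 4 → Pp := fun l => ∑ i ∈ s, c i • syb (I i) l with hw
  have e (J : Jx) : Dc (-v) (∑ l, w l * syb J l) = 0 := by
    have := h J
    simp only [pr0, pr_symm (J, _) _ hv, pr_eq _ _ hv', if_true, mul_left_comm (c _),
      ← Finset.mul_sum, mul_eq_zero, pow_eq_zero_iff', neg_eq_zero, one_ne_zero, false_and,
      false_or] at this
    simp only [hw, Finset.sum_mul, smul_mul_assoc]
    rw [Finset.sum_comm]
    simpa only [← Finset.smul_sum, map_sum (Dc (-v)) _ s, map_smul, smul_eq_mul, spr] using this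
  obtain ⟨u, hu⟩ := kos w (by
    simp only [hw, Finset.mul_sum, mul_smul_comm]
    rw [Finset.sum_comm]
    simp only [← Finset.smul_sum, sy_tr, smul_zero, Finset.sum_const_zero]) fun k l => by
    refine sq4_dvd hv' fun r => ?_
    have : ∀ (n : ℕ) (t : Fin n → Fin 4),
        Dc (-v) (r * (∏ i, X (t i)) * (X k * w l - X l * w k)) = 0 := by
      induction r using MvPolynomial.induction_on with
      | C x =>
        intro n t
        have := e ⟨n, vecCons l (vecCons k t)⟩
        simp only [sy_cons, sub_mul, mul_sub, ite_mul, mul_ite, zero_mul, mul_zero,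
          Finset.sum_sub_distrib, Finset.sum_ite_eq, Finset.mem_univ, if_true] at this
        rw [mul_assoc, ← smul_eq_C_mul, map_smul, smul_eq_mul]
        refine mul_eq_zero_of_right _ (Eq.trans (congrArg _ ?_) this)
        ring
      | add p q hp hq => intro n t; rw [add_mul, add_mul, map_add, hp, hq, add_zero]
      | mul_X p μ hp =>
        intro n t
        simpa only [Fin.prod_univ_succ, cons_val_zero, cons_val_succ, mul_assoc] using
          hp (n + 1) (vecCons μ t)
    simpa using this 0 ![]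
  have f : ∑ i ∈ s, c i * ξ (I i, a) = -∑ l, η a l (w l) := by
    simp only [h2, hw, map_sum, map_smul, smul_eq_mul, mul_neg, Finset.sum_neg_distrib,
      Finset.mul_sum]
    rw [Finset.sum_comm]
  simp only [f, hu, map_sub, h1, Finset.mul_sum, map_sum, Finset.sum_sub_distrib, neg_eq_zero,
    sub_eq_zero]
  exact Finset.sum_comm

end Pool.Agent.Lib.MP_7f377f_mp.Zf
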