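import Pool.Agent.Lib.MP_7f377f_mp.G.ZfO2

/-! The operator product expansion of the free theory. -/

noncomputable section

namespace Pool.Agent.Lib.MP_7f377f_mp.Zf

open MeasureTheory MvPolynomial Filter Topology Matrix Set Asymptotics
open YZ (R4 Var pr Adm)

section
variable {K : Type} [RCLike K] {d k : ℕ}

theorem adm_pi {f : Fin k → R4 → ℝ} (h : Adm f) : IsCompact (univ.pi fun i => tsupport (f i)) ∧
    (∀ y ∈ univ.pi fun i => tsupport (f i), Function.Injective y) ∧
    (Continuous fun y : Fin k → R4 => ∏ i, (f i (y i) : K)) ∧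
    ∀ y ∉ univ.pi fun i => tsupport (f i), ∏ i, (f i (y i) : K) = 0 := by
  refine ⟨isCompact_univ_pi fun i => (h.1 i).1, fun y e i j a => by_contra fun n =>
    disjoint_left.1 (h.2 n) (e i trivial) (a ▸ e j trivial), continuous_finsetProd _ fun i _ =>
      RCLike.continuous_ofReal.comp ((h.1 i).2.continuous.comp (continuous_apply i)), fun y e => ?_⟩
  obtain ⟨i, e⟩ := not_forall.1 (mem_univ_pi.not.1 e)
  exact Finset.prod_eq_zero (Finset.mem_univ i) (by simp [image_eq_zero_of_notMem_tsupport e])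

theorem fp_cont {ι Y : Type} [Fintype ι] [TopologicalSpace Y] {s : Set Y} {h : Y → ι → R4}
    (hc : Continuous h) (e : ∀ y ∈ s, Function.Injective (h y)) (c : ι → Lb d K) :
    ContinuousOn (fun y => fp c (h y)) s := fun y b =>
  ((fp_smooth (e y b) c).continuousAt.comp hc.continuousAt).continuousWithinAt

/-- the change of variables for the first two points -/
theorem int_app {t : ℝ} (ht : 0 < t) (z : R4) (F : (Fin (2 + k) → R4) → K) : ∫ y, F y =
    t ^ 8 * ∫ v : (Fin k → R4) × (Fin 2 → R4), F (Fin.append (fun i => z + t • v.2 i) v.1) := by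
  let φ : (Fin 2 → R4) ≃ᵐ (Fin 2 → R4) :=
    (MeasurableEquiv.smul₀ t ht.ne').trans (.addLeft fun _ => z)
  have m : MeasurePreserving φ (ENNReal.ofReal (t ^ 8) • volume) volume :=
    (measurePreserving_add_left _ _).comp (f := fun x => t • x) ⟨by fun_prop, by
      rw [Measure.map_smul, Measure.map_addHaar_smul _ ht.ne', smul_smul,
        ← ENNReal.ofReal_mul (by positivity)]
      simp [abs_of_pos ht, ht.ne', Module.finrank_pi_fintype]⟩
  have m2 := ((volume_measurePreserving_piCongrLeft (fun _ => R4) finSumFinEquiv).comp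
    (volume_measurePreserving_sumPiEquivProdPi_symm fun _ : Fin 2 ⊕ Fin k => R4)).comp
    (Measure.measurePreserving_swap.comp ((MeasurePreserving.id volume).prod m))
  rw [← m2.integral_comp (((MeasurableEquiv.measurableEmbedding _).comp
    (MeasurableEquiv.measurableEmbedding _)).comp (MeasurableEquiv.prodComm.measurableEmbedding.comp
      (MeasurableEmbedding.id.prodMap φ.measurableEmbedding))), Measure.prod_smul_right,
    integral_smul_measure, ENNReal.toReal_ofReal (by positivity), RCLike.real_smul_eq_coe_mul,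
    RCLike.ofReal_pow]
  refine congrArg _ (integral_congr_ae (.of_forall fun v => congrArg F (funext fun i => ?_)))
  obtain ⟨i, rfl⟩ := finSumFinEquiv.surjective i
  refine (MeasurableEquiv.piCongrLeft_apply_apply _ _ i).trans ?_
  rcases i with i | i
  · exact (Fin.append_left (fun i => z + t • v.2 i) v.1 i).symm
  · exact (Fin.append_right (fun i => z + t • v.2 i) v.1 i).symm

theorem fr_app {t : ℝ} (ht : 0 < t) (a : Fin 2 → Lb d K) (c : Fin k → Lb d K) (u : Fin 2 → R4 → ℝ)
    (g : Fin k → R4 → ℝ) (z : R4) :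
    fr (Fin.append a c) (Fin.append (fun i y => u i (t⁻¹ • (y - z))) g) =
      t ^ 8 * ∫ v : (Fin k → R4) × (Fin 2 → R4), (∏ i, (g i (v.1 i) : K)) * (∏ i, (u i (v.2 i) : K)) *
        fp (Sum.elim a c) (yt t (vecCons z v.1) v.2) := by
  rw [fr, int_app ht z]
  refine congrArg _ (integral_congr_ae (.of_forall fun v => congrArg₂ (· * ·) ?_ ?_))
  · simp [Fin.prod_univ_add, smul_smul, ht.ne', mul_comm]
  · rw [← (s_alg _ _).2.1 _ finSumFinEquiv]
    congr 1 <;> funext i <;> rcases i with i | i <;> simp [yt]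

theorem int_cons {F : Om k → K} (h : Integrable F) :
    Integrable (fun z => ∫ v : (Fin k → R4) × (Fin 2 → R4), F (vecCons z v.1, v.2)) ∧
      ∫ z, ∫ v : (Fin k → R4) × (Fin 2 → R4), F (vecCons z v.1, v.2) = ∫ y, F y := by
  have m : MeasurePreserving
      (fun v : R4 × (Fin k → R4) × (Fin 2 → R4) => ((vecCons v.1 v.2.1, v.2.2) : Om k)) := by
    convert (((volume_preserving_piFinSuccAbove (fun _ : Fin (k + 1) => R4) 0).symm _).prod
      (.id (volume : Measure (Fin 2 → R4)))).comp (volume_preserving_prodAssoc.symm _) using 1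
    · funext v
      simp [MeasurableEquiv.piFinSuccAbove_symm_apply, Fin.insertNthEquiv, vecCons,
        MeasurableEquiv.prodAssoc]
    · rfl
  have i := m.integrable_comp_of_integrable h
  refine ⟨i.integral_prod_left, (integral_prod _ i).symm.trans ?_⟩
  rw [← m.map_eq] at h
  exact (integral_map m.aemeasurable h.1).symm.trans (by rw [m.map_eq])

end

variable (d : ℕ) (K : Type) [RCLike K]

/-- the operator product expansion -/
def S_ope : Prop := ∀ (𝒜 : Set (Matrix (Fin d) (Fin d) ℝ)), (∀ A ∈ 𝒜, A * Aᵀ = 1) →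
  ∀ (a : Fin 2 → Lb d K) (u : Fin 2 → R4 → ℝ) (D : ℕ), (∀ i, a i ∈ Iv K 𝒜) → Adm u →
  ∃ B ∈ Iv K 𝒜, B.weightedTotalDegree wt ≤ D ∧
    ∀ k (c : Fin k → Lb d K) f (g : Fin k → R4 → ℝ), Adm (vecCons f g) →
      ∀ p : ℝ → R4 → K, (∀ t z, p t z = f z * fr (Fin.append (fun i => rh ((t : K) • 1) (a i)) c)
        (Fin.append (fun i y => u i (t⁻¹ • (y - z))) g)) →
      (∀ᶠ t : ℝ in 𝓝[>] 0, Integrable (p t)) ∧
      (fun t : ℝ => (∫ z, p t z) / t ^ 8 - fr (vecCons (rh ((t : K) • 1) B) c) (vecCons f g))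
        =O[𝓝[>] 0] fun t => t ^ (D + 1)

theorem s_ope' (a : Fin 2 → Lb d K) {u : Fin 2 → R4 → ℝ} (D : ℕ) (hu : Adm u) : ∃ B : Lb d K,
    (∀ l : _ →ₗ[K] K, l B = ∫ x : Fin 2 → R4, (∏ i, (u i (x i) : K)) * l (ph (D + 1) x (qx a x))) ∧
    ∀ k (c : Fin k → Lb d K) f (g : Fin k → R4 → ℝ), Adm (vecCons f g) →
      ∀ p : ℝ → R4 → K, (∀ t z, p t z = f z * fr (Fin.append (fun i => rh ((t : K) • 1) (a i)) c)
        (Fin.append (fun i y => u i (t⁻¹ • (y - z))) g)) →
      (∀ᶠ t : ℝ in 𝓝[>] 0, Integrable (p t)) ∧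
      (fun t : ℝ => (∫ z, p t z) / t ^ 8 - fr (vecCons (rh ((t : K) • 1) (tr D B)) c) (vecCons f g))
        =O[𝓝[>] 0] fun t => t ^ (D + 1) := by
  obtain ⟨u1, u2, u3, u4⟩ := adm_pi (K := K) hu
  have fc := Fc.comp (h := fun x => x) continuousOn_id (fun y e => u2 y e) (ph_Fc (D + 1) a)
  obtain ⟨B, hB⟩ := Fc.int u1 u3 u4 fc
  refine ⟨B, hB, fun k c f g hf p hp => ?_⟩
  obtain ⟨f1, f2, f3, f4⟩ := adm_pi (K := K) hf
  set s : Set (Om k) := (univ.pi fun i => tsupport (vecCons f g i)) ×ˢ univ.pi fun i => tsupport (u i)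
  have hs : IsCompact s := f1.prod u1
  have h := fun (y : Om k) (e : y ∈ s) => And.intro (f2 _ e.1) (u2 _ e.2)
  set W : Om k → K := fun y => (∏ i, (vecCons f g i (y.1 i) : K)) * ∏ i, (u i (y.2 i) : K) with hW
  have W1 : Continuous W := (f3.comp continuous_fst).mul (u3.comp continuous_snd)
  have W0 := fun (y : Om k) (e : y ∉ s) => show W y = 0 from
    mul_eq_zero.2 ((not_and_or.1 e).imp (f4 _) (u4 _))
  have i1 := (yt_inj hs h).mono fun t e => int_on hs W1 W0 (fp_cont (h := fun y : Om k =>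
    yt t y.1 y.2) (continuous_pi fun i => by
      rcases i with i | i <;> simp only [yt, Sum.elim_inl, Sum.elim_inr] <;> fun_prop) e
    (Sum.elim (fun i => rh ((t : K) • 1) (a i)) c))
  have i2 := fun t : ℝ => int_on hs W1 W0 (Fc.cont (fun y : Om k => (fm y.1).toLinearMap
    (vecCons 0 c) 0 ∘ₗ (rh ((t : K) • 1)).toLinearMap ∘ₗ tr D) (fun P => by
      simp only [LinearMap.comp_apply, ← vc_lin]
      exact fp_cont continuous_fst (fun y b => (h y b).1) _)
    (Fc.comp continuousOn_snd (fun y b => b.2) fc))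
  simp only [LinearMap.comp_apply, ← vc_lin, AlgHom.toLinearMap_apply] at i2
  have e1 : ∀ t > 0, p t = fun z => t ^ 8 * ∫ v : (Fin k → R4) × (Fin 2 → R4),
      W (vecCons z v.1, v.2) * fp (Sum.elim (fun i => rh ((t : K) • 1) (a i)) c)
        (yt t (vecCons z v.1) v.2) := fun t t0 => funext fun z => by
    rw [hp, fr_app t0, mul_left_comm, ← integral_const_mul]
    simp only [hW, Fin.prod_univ_succ (n := k), cons_val_zero, cons_val_succ, mul_assoc]
  refine ⟨(i1.and self_mem_nhdsWithin).mono fun t e => e1 t e.2 ▸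
    (int_cons e.1).1.const_mul _, ?_⟩
  obtain ⟨C, hC⟩ := (ope_pt hs h D a c).bound
  refine .of_bound (C * ∫ y, ‖W y‖) ?_
  filter_upwards [i1, self_mem_nhdsWithin, eventually_prod_principal_iff.1 hC] with t j1 t0 b
  have e2 : fr (vecCons (rh ((t : K) • 1) (tr D B)) c) (vecCons f g) = _ :=
    .trans (integral_congr_ae (.of_forall fun y => ?_)) (integral_prod _ (i2 t)).symm
  · rw [e1 t t0, e2, integral_const_mul, mul_div_cancel_left₀ _ (pow_ne_zero _ (by
      exact_mod_cast ne_of_gt t0)), (int_cons j1).2, ← Measure.volume_eq_prod,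
      ← integral_sub j1 (i2 t), mul_right_comm, ← integral_const_mul]
    refine norm_integral_le_of_norm_le (.const_mul (.norm (by simpa using
      (int_on hs W1 W0 (b := fun _ => 1) continuousOn_const))) _) (.of_forall fun y => ?_)
    by_cases e : y ∈ s
    · rw [← mul_sub, norm_mul, mul_comm]
      exact mul_le_mul_of_nonneg_right (b y e) (norm_nonneg _)
    · simp [W0 y e]
  · simp only [hW, mul_assoc, integral_const_mul, vc_lin]
    simpa only [LinearMap.comp_apply, AlgHom.toLinearMap_apply] using congrArg (_ * ·)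
      (hB ((fm y).toLinearMap (vecCons 0 c) 0 ∘ₗ (rh ((t : K) • 1)).toLinearMap ∘ₗ tr D))

theorem s_ope : S_ope d K := fun 𝒜 hA a u D ha hu => by
  obtain ⟨B, hB, h⟩ := s_ope' d K a D hu
  refine ⟨tr D B, ?_, tr_deg D B, h⟩
  simp only [Iv, Algebra.mem_iInf, AlgHom.mem_equalizer, AlgHom.id_apply] at ha ⊢
  refine fun A e => (tr_ad D A B).symm ▸ congrArg _ (MvPolynomial.ext _ _ fun m => ?_)
  refine (hB (lcoeff K m)).trans (.trans ?_ (hB (lcoeff K m ∘ₗ (ad A).toLinearMap)).symm)
  simp only [LinearMap.comp_apply, AlgHom.toLinearMap_apply,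
    ph_ad (hA A e) _ fun i => (ha i A e).symm]

end Pool.Agent.Lib.MP_7f377f_mp.Zf
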