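import Pool.Agent.Lib.MP_7f377f_mp.G.ZfC

/-! Tools for the operator product expansion of the free theory: continuous families of
polynomials, Taylor terms, comparison of Wick functionals. -/

noncomputable section

namespace Pool.Agent.Lib.MP_7f377f_mp.Zf

open MeasureTheory MvPolynomial Filter Topology Matrix Set Function Asymptotics
open YZ (R4 Var pr Adm)

set_option linter.unusedSectionVars false

variable {K : Type} [RCLike K] {d : ℕ} {σ τ Y Y' : Type}

theorem ex_lin_mul {A : σ → σ → K} {l : MvPolynomial σ K} (h : l ∈ Lin σ K) (Q : MvPolynomial σ K) :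
    ex A (l * Q) = l * ex A Q + ex A (D (fun q => E A (l * X q)) Q) := by
  induction h using Submodule.span_induction with
  | mem x hx => obtain ⟨r, rfl⟩ := hx; simp only [E_X_X]; exact ex_X_mul r Q
  | zero => simp [show D (fun _ : σ => (0 : K)) = 0 from derivation_ext fun q => by simp]
  | add x y _ _ a b =>
    simp only [add_mul, map_add, D_add, Derivation.add_apply, a, b]
    ring
  | smul t x _ a => simp only [smul_mul_assoc, map_smul, smul_eq_mul, D_smul,
      Derivation.smul_apply, a, smul_add]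

/-- the exponential commutes with linear substitutions -/
theorem ex_map {A : σ → σ → K} {L : τ → τ → K} (φ : MvPolynomial σ K →ₐ[K] MvPolynomial τ K)
    (hφ : ∀ q, φ (X q) ∈ Lin τ K) (h : ∀ r q, E L (φ (X r) * φ (X q)) = sy A r q)
    {R : MvPolynomial τ K} (h1 : ex L R = R) (h2 : ∀ r, ∀ q ∈ R.vars, E L (φ (X r) * X q) = 0)
    (P : MvPolynomial σ K) : ex L (φ P * R) = φ (ex A P) * R := by
  refine ind ((ex L ∘ₗ LinearMap.mulRight K R ∘ₗ φ.toLinearMap).eqLocus
    (LinearMap.mulRight K R ∘ₗ φ.toLinearMap ∘ₗ ex A)) (by simpa using h1) (fun r Q a b => ?_) P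
  have e : D (fun q => E L (φ (X r) * X q)) R = 0 :=
    derivation_eq_zero_of_forall_mem_vars fun q hq => by simp [h2 r q hq]
  have e' := D_map φ (fun q => (D_lin (E L ∘ₗ LinearMap.mulLeft K (φ (X r))) (hφ q)).trans
      (congrArg _ (h r q))) Q
  change ex L (φ _ * R) = φ (ex A _) * R at a ⊢
  have b : ex L (φ _ * R) = φ (ex A _) * R := b (sy A r)
  rw [map_mul φ, mul_assoc, ex_lin_mul (hφ r), a, Derivation.leibniz, e, smul_zero, zero_add,
    smul_eq_mul, mul_comm R, show D (fun q => E L (φ (X r) * X q)) (φ Q) = _ from e', b, ex_X_mul,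
    map_add, map_mul φ]
  ring

theorem ex_id {L : τ → τ → K} (f : σ → τ) (h : ∀ p, sy L (f p) = 0) (P : MvPolynomial σ K) :
    ex L (rename f P) = rename f P :=
  ind ((ex L ∘ₗ (rename f).toLinearMap).eqLocus (rename f).toLinearMap) (by simp) (fun r Q a _ => by
    change ex L (rename f _) = rename f _ at a ⊢
    simp [ex_X_mul, h, a, show D (0 : τ → K) = 0 from derivation_ext fun q => by simp]) P

/-- comparison of Wick functionals -/
theorem E_cmp {l : Filter Y} {g : Y → ℝ} (hg : g =O[l] fun _ => (1 : ℝ)) (A B : Y → σ → σ → K)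
    (h : ∀ r q, (fun y => sy (A y) r q - sy (B y) r q) =O[l] g ∧
      (fun y => sy (B y) r q) =O[l] fun _ => (1 : ℝ)) (P : MvPolynomial σ K) :
    (fun y => E (A y) P - E (B y) P) =O[l] g :=
  (E_mem (p := fun f : Y ⊕ Y → K => (fun y => f (.inl y) - f (.inr y)) =O[l] g ∧
    (fun y => f (.inr y)) =O[l] fun _ => (1 : ℝ))
    (fun a => ⟨by simpa using isBigO_zero _ _, isBigO_const_const _ one_ne_zero _⟩)
    (fun _ _ a b => ⟨(a.1.add b.1).congr_left fun _ => by ring, a.2.add b.2⟩)
    (fun _ _ a b => ⟨((((a.1.mul (b.1.trans hg)).add (a.1.mul b.2)).congr_right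
      fun _ => mul_one _).add ((a.2.mul b.1).congr_right fun _ => one_mul _)).congr_left
        fun _ => by ring, (a.2.mul b.2).congr_right fun _ => mul_one _⟩) (Sum.elim A B) h P).1

/-! ### Continuous families -/

variable [TopologicalSpace Y] [TopologicalSpace Y'] {s : Set Y} {M N : Type} [AddCommGroup M]
  [Module K M] [AddCommGroup N] [Module K N] {F : Y → M}

/-- finite sums of continuous multiples of fixed vectors -/
def Fc (K : Type) [RCLike K] (s : Set Y) (M : Type) [AddCommGroup M] [Module K M] :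
    Submodule K (Y → M) :=
  .span K {F | ∃ (b : Y → K) (P : M), ContinuousOn b s ∧ F = fun y => b y • P}

theorem Fc.const (P : M) : (fun _ => P) ∈ Fc K s M :=
  Submodule.subset_span ⟨1, P, continuousOn_const, by simp⟩

theorem Fc.ind {p : (Y → M) → Prop} (h : ∀ (b : Y → K) P, ContinuousOn b s → p fun y => b y • P)
    (ha : ∀ F G, p F → p G → p fun y => F y + G y) (hF : F ∈ Fc K s M) : p F := by
  suffices ∀ b : Y → K, ContinuousOn b s → p fun y => b y • F y by
    simpa using this 1 continuousOn_const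
  induction hF using Submodule.span_induction with
  | mem F e =>
    obtain ⟨c, P, e, rfl⟩ := e
    exact fun b hb => by simpa only [smul_smul] using h (fun y => b y * c y) P (hb.mul e)
  | zero => exact fun b hb => by simpa using h b 0 hb
  | add F G _ _ a c => exact fun b hb => by simpa using ha _ _ (a b hb) (c b hb)
  | smul c F _ a =>
    intro b hb
    simpa only [Pi.smul_apply, smul_smul] using a (fun y => b y * c) (hb.mul continuousOn_const)

theorem Fc.add {G : Y → M} (hF : F ∈ Fc K s M) (hG : G ∈ Fc K s M) :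
    (fun y => F y + G y) ∈ Fc K s M := Submodule.add_mem _ hF hG

theorem Fc.smul {b : Y → K} (hb : ContinuousOn b s) (hF : F ∈ Fc K s M) :
    (fun y => b y • F y) ∈ Fc K s M :=
  Fc.ind (p := fun F => (fun y => b y • F y) ∈ Fc K s M)
    (fun c P e => Submodule.subset_span ⟨_, P, hb.mul e, by simp only [smul_smul]; rfl⟩)
    (fun _ _ a c => by simpa only [smul_add] using Fc.add a c) hF

theorem Fc.map (T : Y → M →ₗ[K] N) (h : ∀ P, (fun y => T y P) ∈ Fc K s N) (hF : F ∈ Fc K s M) :
    (fun y => T y (F y)) ∈ Fc K s N :=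
  Fc.ind (p := fun F => (fun y => T y (F y)) ∈ Fc K s N)
    (fun c P e => by simpa only [map_smul] using Fc.smul e (h P))
    (fun _ _ a c => by simpa only [map_add] using Fc.add a c) hF

theorem Fc.sum {α : Type} (I : Finset α) {F : α → Y → M} (h : ∀ i, F i ∈ Fc K s M) :
    (fun y => ∑ i ∈ I, F i y) ∈ Fc K s M := by
  simpa only [← Finset.sum_apply] using Submodule.sum_mem _ fun i _ => h i

theorem Fc.mul {F G : Y → MvPolynomial σ K} (hF : F ∈ Fc K s _) (hG : G ∈ Fc K s _) :
    (fun y => F y * G y) ∈ Fc K s _ :=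
  Fc.map (fun y => LinearMap.mulLeft K (F y))
    (fun P => Fc.map (fun _ => LinearMap.mulRight K P) (fun _ => Fc.const _) hF) hG

theorem Fc.alg (φ : Y → MvPolynomial σ K →ₐ[K] MvPolynomial τ K)
    (h : ∀ p, (fun y => φ y (X p)) ∈ Fc K s _) (P : MvPolynomial σ K) :
    (fun y => φ y P) ∈ Fc K s _ := by
  induction P using MvPolynomial.induction_on with
  | C a => simpa using Fc.const _
  | add p q a b => simpa only [map_add] using Fc.add a b
  | mul_X p q a => simpa only [map_mul] using Fc.mul a (h q)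

theorem Fc.comp {s' : Set Y'} {h : Y' → Y} (hc : ContinuousOn h s') (hm : MapsTo h s' s)
    (hF : F ∈ Fc K s M) : (fun y => F (h y)) ∈ Fc K s' M :=
  Fc.ind (p := fun F => (fun y => F (h y)) ∈ Fc K s' M)
    (fun _ P e => Submodule.subset_span ⟨_, P, e.comp hc hm, rfl⟩)
    (fun _ _ a c => Submodule.add_mem _ a c) hF

theorem Fc.cont (T : Y → M →ₗ[K] K) (h : ∀ P, ContinuousOn (fun y => T y P) s)
    (hF : F ∈ Fc K s M) : ContinuousOn (fun y => T y (F y)) s :=
  Fc.ind (p := fun F => ContinuousOn (fun y => T y (F y)) s)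
    (fun c P e => by simpa only [map_smul] using e.fun_smul (h P))
    (fun _ _ a c => by simpa only [map_add] using a.fun_add c) hF

theorem Fc.ex (A : Y → σ → σ → K) (h : ∀ p q, ContinuousOn (fun y => sy (A y) p q) s)
    (P : MvPolynomial σ K) : (fun y => ex (A y) P) ∈ Fc K s _ := by
  classical
  refine Zf.ind ((Fc K s _).comap (LinearMap.pi fun y => Zf.ex (A y))) (by
    change (fun y => Zf.ex (A y) 1) ∈ Fc K s _
    simpa using Fc.const _) (fun r Q a b => ?_) P
  change (fun y => Zf.ex (A y) (X r * Q)) ∈ Fc K s _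
  simp only [ex_X_mul, D_sum _ (subset_refl Q.vars), map_sum, map_smul]
  exact Submodule.add_mem _ (Fc.mul (Fc.const _) a)
    (Fc.sum _ fun q => Fc.smul (h r q) (D_single (K := K) q ▸ b _))

/-- weighted integrals of continuous functions -/
theorem int_on [MeasureSpace Y] [OpensMeasurableSpace Y] [T2Space Y]
    [IsFiniteMeasureOnCompacts (volume : Measure Y)] (hs : IsCompact s) {U b : Y → K}
    (hU : Continuous U) (h : ∀ y ∉ s, U y = 0) (hb : ContinuousOn b s) :
    Integrable fun y => U y * b y :=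
  ((hU.continuousOn.mul hb).integrableOn_compact hs).integrable_of_forall_notMem_eq_zero
    fun y e => by simp [h y e]

theorem Fc.int [MeasureSpace Y] [OpensMeasurableSpace Y] [T2Space Y]
    [IsFiniteMeasureOnCompacts (volume : Measure Y)] (hs : IsCompact s) {U : Y → K}
    (hU : Continuous U) (h : ∀ y ∉ s, U y = 0) (hF : F ∈ Fc K s M) :
    ∃ B, ∀ l : M →ₗ[K] K, l B = ∫ y, U y * l (F y) :=
  (Fc.ind (p := fun F => F ∈ Fc K s M ∧ ∃ B, ∀ l : M →ₗ[K] K, l B = ∫ y, U y * l (F y))
    (fun c P e => ⟨Fc.smul e (Fc.const P), (∫ y, U y * c y) • P, fun l => by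
      simp only [map_smul, smul_eq_mul, ← mul_assoc, integral_mul_const]⟩)
    (fun _ _ ⟨a, B, e⟩ ⟨c, B', e'⟩ => ⟨Submodule.add_mem _ a c, B + B', fun l => by
      simp only [map_add, mul_add, e, e']
      exact (integral_add (int_on hs hU h (Fc.cont (fun _ => l) (fun _ => continuousOn_const) a))
        (int_on hs hU h (Fc.cont (fun _ => l) (fun _ => continuousOn_const) c))).symm⟩) hF).2

/-- small scales, uniformly on a set -/
abbrev Fl (s : Set Y) : Filter (ℝ × Y) := 𝓝[>] 0 ×ˢ 𝓟 s

theorem bdd_on {δ : ℝ} (δ0 : 0 < δ) (hs : IsCompact s) {b : ℝ × Y → K}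
    (hb : ContinuousOn b (Icc 0 δ ×ˢ s)) : b =O[Fl s] fun _ => (1 : ℝ) :=
  let ⟨C, e⟩ := (isCompact_Icc.prod hs).exists_bound_of_continuousOn hb
  .of_bound C (mem_of_superset (prod_mem_prod (Icc_mem_nhdsGT δ0) (mem_principal_self s))
    fun y a => by simpa using e y a)

theorem Fc.bigO (hs : IsCompact s) {F : ℝ × Y → M} {g : ℝ × Y → ℝ} (T : ℝ × Y → M →ₗ[K] K)
    (h : ∀ P, (fun y => T y P) =O[Fl s] g) (hF : F ∈ Fc K (univ ×ˢ s) M) :
    (fun y => T y (F y)) =O[Fl s] g :=
  Fc.ind (p := fun F => (fun y => T y (F y)) =O[Fl s] g)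
    (fun c P e => by simpa only [map_smul, smul_eq_mul, one_mul] using
      (bdd_on one_pos hs (e.mono (prod_mono (subset_univ _) le_rfl))).mul (h P))
    (fun _ _ a c => by simpa only [map_add] using a.add c) hF

/-! ### Taylor terms -/

/-- the Taylor term of the order `j` in the direction `h` -/
def Tj (F : Var d → M) (h : R4) : ℕ → Var d → M
  | 0, p => F p
  | j + 1, p => ((j + 1 : ℕ) : K)⁻¹ • ∑ μ, (h μ : K) • Tj F h j (up μ p)

theorem Tj_map (l : M →ₗ[K] N) (F : Var d → M) (h : R4) (j : ℕ) (p : Var d) :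
    l (Tj (K := K) F h j p) = Tj (K := K) (fun p => l (F p)) h j p := by
  induction j generalizing p <;> simp [Tj, *]

theorem Tj_mem {S : Submodule K M} {F : Var d → M} (e : ∀ p, F p ∈ S) (h : R4) (j : ℕ) (p : Var d) :
    Tj (K := K) F h j p ∈ S := by
  induction j generalizing p with
  | zero => exact e p
  | succ j ih => exact S.smul_mem _ (S.sum_mem fun _ _ => S.smul_mem _ (ih _))

theorem Tj_smul (t : ℝ) (F : Var d → M) (h : R4) (j : ℕ) (p : Var d) :
    Tj (K := K) F (t • h) j p = (t : K) ^ j • Tj (K := K) F h j p := by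
  induction j generalizing p with
  | zero => simp [Tj]
  | succ j ih =>
    simp only [Tj, ih, Finset.smul_sum, smul_smul, PiLp.smul_apply, smul_eq_mul, RCLike.ofReal_mul]
    exact Finset.sum_congr rfl fun _ _ => congrArg (· • _) (by ring)

theorem Tj_wt (t : K) (F : Var d → M) (h : R4) (j : ℕ) (p : Var d) :
    Tj (K := K) (fun p => t ^ wt p • F p) h j p = t ^ (wt p + j) • Tj (K := K) F h j p := by
  induction j generalizing p with
  | zero => simp [Tj]
  | succ j ih =>
    simp only [Tj, ih, show ∀ μ, wt (up μ p) + j = wt p + (j + 1) from fun _ => by simp [wt, up]; ring,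
      Finset.smul_sum, smul_comm (t ^ _)]

theorem Tj_ad (A : Fin d → Fin d → K) (F : Var d → M) (h : R4) (j : ℕ) (p : Var d) :
    Tj (K := K) (fun p => ∑ b, A p.2 b • F (p.1, b)) h j p =
      ∑ b, A p.2 b • Tj (K := K) F h j (p.1, b) := by
  induction j generalizing p with
  | zero => simp [Tj]
  | succ j ih =>
    simp only [Tj, ih, Finset.smul_sum, smul_comm (A _ _)]
    exact Finset.sum_comm

theorem Fc.tj {F : Y → Var d → M} (e : ∀ p, (fun y => F y p) ∈ Fc K s M) {h : Y → R4}
    (hh : ContinuousOn h s) (j : ℕ) (p : Var d) :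
    (fun y => Tj (K := K) (F y) (h y) j p) ∈ Fc K s M := by
  induction j generalizing p with
  | zero => exact e p
  | succ j ih => exact Fc.smul continuousOn_const (Fc.sum _ fun μ => Fc.smul (by fun_prop) (ih _))

/-- the Taylor expansion of the propagator -/
theorem pr_taylor (hs : IsCompact s) {v h : Y → R4} (hv : Continuous v) (hh : Continuous h)
    (h0 : ∀ y ∈ s, v y ≠ 0) (q : Var d) (n : ℕ) (p : Var d) :
    (fun y : ℝ × Y => (pr p q (v y.2 + y.1 • h y.2) : K) - ∑ j ∈ Finset.range n,
      Tj (K := K) (fun p => (pr p q (v y.2) : K)) (y.1 • h y.2) j p) =O[Fl s] fun y => y.1 ^ n := by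
  obtain ⟨δ, δ0, hδ⟩ := Metric.nhds_basis_closedBall.eventually_iff.1
    (hs.eventually_forall_of_forall_eventually (x₀ := (0 : ℝ)) (P := fun t y => v y + t • h y ≠ 0)
      fun y a => (isOpen_ne_fun (by fun_prop) continuous_const).mem_nhds (by simpa using h0 y a))
  replace hδ := fun t (a : t ∈ Icc 0 δ) => hδ (x := t) (by simpa [abs_of_nonneg a.1] using a.2)
  obtain ⟨H, hH⟩ := hs.exists_bound_of_continuousOn hh.continuousOn
  suffices ∃ C, ∀ t ∈ Icc 0 δ, ∀ y ∈ s, ‖(pr p q (v y + t • h y) : K) - ∑ j ∈ Finset.range n,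
      (t : K) ^ j • Tj (K := K) (fun p => (pr p q (v y) : K)) (h y) j p‖ ≤ C * t ^ n by
    obtain ⟨C, e⟩ := this
    exact .of_bound C (mem_of_superset (prod_mem_prod (Icc_mem_nhdsGT δ0) (mem_principal_self s))
      fun y a => by simpa [Tj_smul, abs_of_nonneg a.1.1] using e _ a.1 _ a.2)
  induction n generalizing p with
  | zero =>
    obtain ⟨C, e⟩ := (isCompact_Icc.prod hs).exists_bound_of_continuousOn ((pr_cont p q).comp
      (f := fun y : ℝ × Y => v y.2 + y.1 • h y.2) (by fun_prop) fun y a => hδ _ a.1 _ a.2)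
    exact ⟨C, fun t a y b => by simpa using e (t, y) ⟨a, b⟩⟩
  | succ n ih =>
    choose C e using fun μ => ih (up μ p)
    refine ⟨∑ μ, H * |C μ|, fun t a y b => ?_⟩
    have := norm_image_sub_le_of_norm_deriv_le_segment' (a := 0) (b := t)
      (f := fun t : ℝ => (pr p q (v y + t • h y) : K) - ∑ j ∈ Finset.range n,
        (t : K) ^ (j + 1) • Tj (K := K) (fun p => (pr p q (v y) : K)) (h y) (j + 1) p)
      (f' := fun t : ℝ => ∑ μ, (h y μ : K) * ((pr (up μ p) q (v y + t • h y) : K) -
        ∑ j ∈ Finset.range n, (t : K) ^ j • Tj (K := K) (fun p => (pr p q (v y) : K)) (h y) j (up μ p)))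
      (C := (∑ μ, H * |C μ|) * t ^ n) (fun x c => ?_) (fun x c => ?_) t ⟨a.1, le_rfl⟩
    · rw [Finset.sum_range_succ', pow_succ, ← mul_assoc]
      simpa [Tj, sub_sub] using this
    · have d1 := (RCLike.ofRealCLM (K := K)).hasFDerivAt.comp_hasDerivAt x
        ((pr_hasFDeriv p q (hδ x ⟨c.1, c.2.trans a.2⟩ y b)).comp_hasDerivAt x
          (((hasDerivAt_id x).smul_const (h y)).const_add (v y)))
      refine ((d1.fun_sub (.fun_sum fun j _ => (((RCLike.ofRealCLM (K := K)).hasDerivAt.fun_pow
        (j + 1)).smul_const _))).congr_deriv ?_).hasDerivWithinAt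
      simp only [mul_sub, Finset.sum_sub_distrib, Finset.mul_sum, Tj]
      rw [Finset.sum_comm (t := Finset.range n)]
      congr 1
      · simp [mul_comm]
      · refine Finset.sum_congr rfl fun j _ => ?_
        have : ((j + 1 : ℕ) : K) ≠ 0 := Nat.cast_ne_zero.2 j.succ_ne_zero
        simp only [smul_eq_mul, mul_left_comm (h y _ : K), ← Finset.mul_sum]
        simp
        field_simp
    · rw [Finset.sum_mul]
      refine norm_sum_le_of_le _ fun μ _ => ?_
      have h1 : ‖(h y μ : K)‖ ≤ H := by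
        simpa using (PiLp.norm_apply_le (h y) μ).trans (hH y b)
      rw [norm_mul, mul_assoc]
      exact mul_le_mul h1 ((e μ x ⟨c.1, c.2.le.trans a.2⟩ y b).trans (mul_le_mul (le_abs_self _)
        (pow_le_pow_left₀ c.1 c.2.le n) (pow_nonneg c.1 n) (abs_nonneg _))) (norm_nonneg _)
        ((norm_nonneg _).trans h1)

end Pool.Agent.Lib.MP_7f377f_mp.Zf
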