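import Pool.Agent.Lib.MP_7f377f_mp.G.ZfO1

/-! The operator product expansion of the free theory at points. -/

noncomputable section

namespace Pool.Agent.Lib.MP_7f377f_mp.Zf

open MeasureTheory MvPolynomial Filter Topology Matrix Set Function Asymptotics
open YZ (R4 Var pr Adm)

set_option linter.unusedSectionVars false

variable {K : Type} [RCLike K] {d k : ℕ}

theorem rh_sc (t : K) (p : Var d) : rh (t • 1) (X p : Lb d K) = t ^ wt p • X p := by
  rw [rh, aeval_X, smul_one_eq_diagonal, Finset.sum_eq_single p.1.2 (fun J _ h => ?_) (by simp)]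
  · simp [wt]
  · obtain ⟨r, hr⟩ := ne_iff.1 h
    rw [Finset.prod_eq_zero (f := fun r => diagonal (fun _ => t) (J r) (p.1.2 r)) (Finset.mem_univ r)
      (diagonal_apply_ne _ hr), zero_smul]

theorem rh_mon (t : K) (m : Var d →₀ ℕ) (a : K) :
    rh (t • 1) (monomial m a) = t ^ Finsupp.weight wt m • monomial m a := by
  simp only [monomial_eq, map_mul, algHom_C, algebraMap_eq, Finsupp.prod, map_prod, map_pow, rh_sc,
    smul_pow, Finset.prod_smul, mul_smul_comm, ← pow_mul, Finset.prod_pow_eq_pow_sum,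
    Finsupp.weight_apply, Finsupp.sum, smul_eq_mul, mul_comm (wt _)]

/-- the part of dimension at most `D` -/
def tr (D : ℕ) : Lb d K →ₗ[K] Lb d K := ∑ j ∈ Finset.range (D + 1), weightedHomogeneousComponent wt j

theorem tr_hom (D : ℕ) {n : ℕ} {P : Lb d K} (h : P.IsWeightedHomogeneous wt n) :
    tr D P = if n ≤ D then P else 0 := by
  simp [tr, weightedHomogeneousComponent_of_mem h, Nat.lt_succ_iff]

theorem tr_deg (D : ℕ) (P : Lb d K) : (tr D P).weightedTotalDegree wt ≤ D :=
  Finset.sup_le fun m hm => by_contra fun e => mem_support_iff.1 hm <| by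
    simp only [tr, LinearMap.sum_apply, coeff_sum, coeff_weightedHomogeneousComponent]
    exact Finset.sum_eq_zero fun j a => if_neg (by simp at a; omega)

theorem tr_ad (D : ℕ) (A : Matrix (Fin d) (Fin d) ℝ) (P : Lb d K) : ad A (tr D P) = tr D (ad A P) := by
  induction P using MvPolynomial.induction_on' with
  | add p q a b => simp [a, b]
  | monomial m a =>
    have : (ad A (monomial m a)).IsWeightedHomogeneous wt (Finsupp.weight wt m) := by
      simp only [monomial_eq, map_mul, algHom_C, algebraMap_eq, Finsupp.prod, map_prod, map_pow,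
        Finsupp.weight_apply, Finsupp.sum]
      refine .C_mul (.prod _ _ _ fun p _ => .pow ?_ _) _
      rw [ad, aeval_X]
      exact (weightedHomogeneousSubmodule K wt (wt p)).sum_mem fun b _ =>
        Submodule.smul_mem _ _ (isWeightedHomogeneous_X K wt (p.1, b))
    rw [tr_hom D this, tr_hom D (isWeightedHomogeneous_monomial _ _ _ rfl), apply_ite (ad A), map_zero]

/-- the Taylor polynomial of a variable -/
def ty (K : Type) [RCLike K] (n : ℕ) (h : R4) (p : Var d) : Lb d K :=
  ∑ j ∈ Finset.range n, Tj (K := K) X h j p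

theorem ty_Lin (n : ℕ) (h : R4) (p : Var d) : ty K n h p ∈ Lin _ K :=
  Submodule.sum_mem _ fun _ _ => Tj_mem X_mem_Lin _ _ _

/-- the merging of two points -/
def ph (n : ℕ) (x : Fin 2 → R4) : MvPolynomial (Fin 2 × Var d) K →ₐ[K] Lb d K :=
  aeval fun p => ty K n (x p.1) p.2

/-- the contractions between the two points -/
def qx (a : Fin 2 → Lb d K) (x : Fin 2 → R4) : MvPolynomial (Fin 2 × Var d) K :=
  ex (fun p q => kr K x p q / 2) (Rn a)

theorem kr_cont {ι : Type} [Fintype ι] (p q : ι × Var d) :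
    ContinuousOn (fun y => kr K y p q) {y | Injective y} :=
  fun _ h => (kr_smooth h p q).continuousAt.continuousWithinAt

theorem qx_Fc (a : Fin 2 → Lb d K) : qx a ∈ Fc K {x | Injective x} _ :=
  Fc.ex _ (fun p q => by simpa only [sy_kr] using kr_cont p q) _

theorem ph_Fc (n : ℕ) (a : Fin 2 → Lb d K) :
    (fun x => ph n x (qx a x)) ∈ Fc K {x | Injective x} _ :=
  Fc.map (fun x => (ph n x).toLinearMap) (Fc.alg (ph n) fun p => by
    simp only [ph, aeval_X, ty]
    exact Fc.sum _ fun j => Fc.tj (h := fun x : Fin 2 → R4 => x p.1) (fun p => Fc.const (X p))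
      (continuous_apply _).continuousOn j p.2) (qx_Fc a)

theorem ph_ad {A : Matrix (Fin d) (Fin d) ℝ} (h : A * Aᵀ = 1) (n : ℕ) {a : Fin 2 → Lb d K}
    (e : ∀ i, ad A (a i) = a i) (x : Fin 2 → R4) : ad A (ph n x (qx a x)) = ph n x (qx a x) := by
  set φ : MvPolynomial (Fin 2 × Var d) K →ₐ[K] MvPolynomial (Fin 2 × Var d) K :=
    aeval fun p => rename (Prod.mk p.1) (ad A (X p.2))
  have e1 : ∀ i P, φ (rename (Prod.mk i) P) = rename (Prod.mk i) (ad A P) := fun i =>
    DFunLike.congr_fun (algHom_ext (f := φ.comp (rename (Prod.mk i)))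
      (g := (rename (Prod.mk i)).comp (ad A)) fun p => by simp [φ])
  have e2 : ∀ P, ad A (ph n x P) = ph n x (φ P) :=
    DFunLike.congr_fun (algHom_ext (f := (ad A).comp (ph n x)) (g := (ph n x).comp φ) fun p => by
      have := fun j => Tj_map (ad A).toLinearMap (X : Var d → Lb d K) (x p.1) j p.2
      simp only [AlgHom.toLinearMap_apply] at this
      simp only [φ, ph, ty, AlgHom.comp_apply, aeval_X, map_sum, this]
      simp only [ad, aeval_X, map_sum, map_smul, rename_X, Finset.smul_sum,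
        Tj_ad (fun a b => (A a b : K))]
      exact Finset.sum_comm)
  have := ex_map (A := fun p q => kr K x p q / 2) (L := fun p q => kr K x p q / 2) φ
    (fun p => by simpa only [φ, ad, aeval_X] using rename_Lin _ (Submodule.sum_mem _ fun J _ =>
      Submodule.smul_mem _ _ (X_mem_Lin _))) (fun r q => by
      have := (s_cov (K := K) (Fin 2) ![X r.2, X q.2] (x ∘ ![r.1, q.1])).2.2 A h
      rw [sy_kr]
      change Ek x _ = _
      simpa [fp_comp, φ, Ek_X_X] using this) ex_one (by simp) (Rn a)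
  rw [e2, qx, ← mul_one (φ _), ← this]
  simp only [Rn, map_prod, e1, e, mul_one]

/-- two points near the first point of a configuration -/
def yt (t : ℝ) (y : Fin (k + 1) → R4) (x : Fin 2 → R4) : Fin 2 ⊕ Fin k → R4 :=
  Sum.elim (fun i => y 0 + t • x i) fun j => y j.succ

/-- the first two points at the scale `t` -/
def ps (k : ℕ) (t : K) :
    MvPolynomial (Fin 2 × Var d) K →ₐ[K] MvPolynomial ((Fin 2 ⊕ Fin k) × Var d) K :=
  aeval fun p => t ^ wt p.2 • X (.inl p.1, p.2)

/-- the kernel without the contractions between the two points -/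
def rest (K : Type) [RCLike K] (y : Fin 2 ⊕ Fin k → R4) (r q : (Fin 2 ⊕ Fin k) × Var d) : K :=
  if r.1.isLeft ∧ q.1.isLeft then 0 else kr K y r q

theorem fp_rest {t : ℝ} (ht : t ≠ 0) (a : Fin 2 → Lb d K) (c : Fin k → Lb d K) (y x) :
    fp (Sum.elim (fun i => rh ((t : K) • 1) (a i)) c) (yt t y x) =
      E (fun r q => rest K (yt t y x) r q / 2)
        (ps k (t : K) (qx a x) * rename (Prod.map .inr id) (Rn c)) := by
  set L := fun r q : (Fin 2 ⊕ Fin k) × Var d => (kr K (yt t y x) r q - rest K (yt t y x) r q) / 2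
  have l : ∀ r q, sy L r q = if r.1.isLeft ∧ q.1.isLeft then kr K (yt t y x) r q else 0 :=
    fun r q => by
      simp only [sy, L, rest, and_comm (a := q.1.isLeft = true), kr_symm _ q]
      split_ifs <;> ring
  have e1 : ∀ i (P : Lb d K), ps k (t : K) (rename (Prod.mk i) P) =
      rename (Prod.mk (.inl i)) (rh ((t : K) • 1) P) := fun i =>
    DFunLike.congr_fun (algHom_ext (f := (ps k (t : K)).comp (rename (Prod.mk i)))
      (g := (rename (Prod.mk (.inl i))).comp (rh ((t : K) • 1))) fun p => by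
        simp only [ps, AlgHom.comp_apply, rename_X, aeval_X, rh_sc, map_smul])
  rw [qx, ← ex_map (L := L) (ps k (t : K)) (fun p => by
    simpa only [ps, aeval_X] using Submodule.smul_mem _ _ (X_mem_Lin _)) (fun r q => ?_)
    (ex_id (Prod.map .inr id) (fun p => by ext q; simp [l]) (Rn c)) fun r q e => ?_, ← E_add, fp_eq, Ek]
  · refine congrArg₂ (fun A P => E A P) ?_ ?_
    · ext r q
      simp only [L, Pi.add_apply]
      ring
    · simp only [Rn, Fintype.prod_sum_type, map_prod, e1, rename_rename]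
      rfl
  · rw [sy_kr]
    simp only [ps, aeval_X, smul_mul_smul_comm, map_smul, E_X_X, l, kr, yt, Sum.elim_inl,
      add_right_inj, (smul_right_injective _ ht).eq_iff, add_sub_add_left_eq_sub, ← smul_sub]
    split_ifs with h1 h2
    · simp
    · simp [← pr_hom ht r.2 q.2 (sub_ne_zero.2 h2), wt, pow_add]
    all_goals simp at h1
  · classical
    obtain ⟨p, -, rfl⟩ := Finset.mem_image.1 (vars_rename _ _ e)
    simp [ps, E_X_X, l]

/-- the merging of the two points with the first point -/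
def Ph (K : Type) [RCLike K] (k n : ℕ) (x : Fin 2 → R4) (r : (Fin 2 ⊕ Fin k) × Var d) :
    MvPolynomial (Fin (k + 1) × Var d) K :=
  r.1.elim (fun i => rename (Prod.mk 0) (ty K n (x i) r.2)) fun j => X (j.succ, r.2)

theorem fp_Ph (n : ℕ) (t : ℝ) (Q : MvPolynomial (Fin 2 × Var d) K) (c : Fin k → Lb d K) (y)
    (x : Fin 2 → R4) :
    fp (vecCons (rh ((t : K) • 1) (ph n x Q)) c) y =
      E (fun r q => Ek y (Ph K k n (t • x) r * Ph K k n (t • x) q) / 2)
        (ps k (t : K) Q * rename (Prod.map .inr id) (Rn c)) := by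
  rw [← E_map (aeval (Ph K k n (t • x))) (L := fun p q => kr K y p q / 2) (fun ⟨i, p⟩ => by
    rcases i with i | i <;> simp [Ph, X_mem_Lin, rename_Lin _ (ty_Lin _ _ _)]) fun r q => by
      simp [sy, mul_comm, Ek], fp_eq, Ek, map_mul, Rn, Fin.prod_univ_succ]
  refine congrArg _ (congrArg₂ (· * ·) ?_ ?_)
  · refine DFunLike.congr_fun (algHom_ext (f := (rename (Prod.mk 0)).comp ((rh _).comp (ph n x)))
      (g := (aeval _).comp (ps k (t : K))) fun p => ?_) Q
    have := fun j => Tj_map (rh ((t : K) • 1)).toLinearMap (X : Var d → Lb d K) (x p.1) j p.2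
    simp only [AlgHom.toLinearMap_apply, rh_sc, Tj_wt] at this
    simp only [ph, ps, Ph, ty, this, Tj_smul, Finset.smul_sum, smul_smul, pow_add, AlgHom.comp_apply,
      aeval_X, map_sum, map_smul, Sum.elim_inl, Pi.smul_apply]
  · simp only [Rn, map_prod, rename_rename, aeval_rename, cons_val_succ]
    simp only [rename_eq_aeval]
    rfl

theorem Ek_lin {ι : Type} [Fintype ι] (y : ι → R4) (i : ι) (q : ι × Var d) (n : ℕ) (h : R4)
    (p : Var d) : Ek y (rename (Prod.mk i) (ty K n h p) * X q) =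
      ∑ j ∈ Finset.range n, Tj (K := K) (fun p => kr K y (i, p) q) h j p := by
  have := fun j => Tj_map (Ek y ∘ₗ LinearMap.mulRight K (X q) ∘ₗ (rename (Prod.mk i)).toLinearMap)
    (X : Var d → Lb d K) h j p
  simp only [LinearMap.comp_apply, AlgHom.toLinearMap_apply, LinearMap.mulRight_apply, rename_X,
    Ek_X_X] at this
  simp only [ty, map_sum, Finset.sum_mul, this]

theorem Ek_same {ι : Type} [Fintype ι] (y : ι → R4) (i : ι) {l l' : Lb d K} (h : l ∈ Lin _ K)
    (h' : l' ∈ Lin _ K) : Ek y (rename (Prod.mk i) l * rename (Prod.mk i) l') = 0 := by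
  rw [← map_mul, Ek, E_rename, E_zero (by ext; simp [sy, kr]), map_mul, mul_eq_zero]
  exact .inl ((Submodule.span_le (p := LinearMap.ker (lcoeff K 0))).2
    (range_subset_iff.2 fun q => by simp) h)

/-- configurations and the two directions -/
abbrev Om (k : ℕ) : Type := (Fin (k + 1) → R4) × (Fin 2 → R4)

variable {s : Set (Om k)}

theorem yt_inj (hs : IsCompact s) (h : ∀ y ∈ s, Injective y.1 ∧ Injective y.2) :
    ∀ᶠ t in 𝓝[>] (0 : ℝ), ∀ y ∈ s, Injective (yt t y.1 y.2) := by
  filter_upwards [nhdsWithin_le_nhds (hs.eventually_forall_of_forall_eventually (x₀ := (0 : ℝ))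
    (P := fun t y => ∀ i j, y.1 0 + t • y.2 i ≠ y.1 (Fin.succ j)) fun y a =>
      eventually_all.2 fun i => eventually_all.2 fun j => (isOpen_ne_fun (by fun_prop)
        (by fun_prop)).mem_nhds (by simpa using (h y a).1.ne j.succ_ne_zero.symm)),
    self_mem_nhdsWithin] with t e t0 y a
  exact Injective.sumElim (fun i j b => (h y a).2 (smul_right_injective _ (ne_of_gt t0)
    (add_left_cancel b))) ((h y a).1.comp (Fin.succ_injective _)) (e y a)

theorem pw_le {Y : Type} (s : Set Y) {m n : ℕ} (e : m ≤ n) :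
    (fun y : ℝ × Y => y.1 ^ n) =O[Fl s] fun y => y.1 ^ m :=
  .of_bound 1 ((tendsto_fst.eventually (Ioo_mem_nhdsGT one_pos)).mono fun y b => by
    simpa [abs_of_pos b.1] using pow_le_pow_of_le_one b.1.le b.2.le e)

/-- the comparison of the kernels -/
theorem kr_cmp (hs : IsCompact s) (h : ∀ y ∈ s, Injective y.1 ∧ Injective y.2) (n : ℕ)
    (r q : (Fin 2 ⊕ Fin k) × Var d) :
    (fun y : ℝ × Om k => rest K (yt y.1 y.2.1 y.2.2) r q - Ek y.2.1
      (Ph K k n (y.1 • y.2.2) r * Ph K k n (y.1 • y.2.2) q)) =O[Fl s] (fun y => y.1 ^ n) ∧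
    (fun y : ℝ × Om k => Ek y.2.1 (Ph K k n (y.1 • y.2.2) r * Ph K k n (y.1 • y.2.2) q))
      =O[Fl s] fun _ => (1 : ℝ) := by
  have kb : ∀ p q : Fin (k + 1) × Var d, ContinuousOn (fun y : ℝ × Om k => kr K y.2.1 p q)
      (Icc 0 1 ×ˢ s) := fun p q => (kr_cont p q).comp (by fun_prop) fun y b => (h _ b.2).1
  have z : ∀ (i : Fin 2) (j : Fin k) (p q : Var d), (fun y : ℝ × Om k =>
      kr K (yt y.1 y.2.1 y.2.2) (.inl i, p) (.inr j, q) - Ek y.2.1 (rename (Prod.mk 0)
        (ty K n (y.1 • y.2.2 i) p) * X (j.succ, q))) =O[Fl s] (fun y => y.1 ^ n) ∧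
      (fun y : ℝ × Om k => Ek y.2.1 (rename (Prod.mk 0) (ty K n (y.1 • y.2.2 i) p) *
        X (j.succ, q))) =O[Fl s] fun _ => (1 : ℝ) := fun i j p q => by
    simp only [Ek_lin]
    refine ⟨(pr_taylor hs (v := fun y => y.1 0 - y.1 j.succ) (h := fun y => y.2 i) (by fun_prop)
      (by fun_prop) (fun y b => sub_ne_zero.2 ((h y b).1.ne j.succ_ne_zero.symm)) q n
      p).congr' ?_ .rfl, bdd_on one_pos hs (continuousOn_finsetSum _ fun l _ =>
      Fc.cont (fun _ => .id) (fun _ => continuousOn_const) (Fc.tj (F := fun (y : ℝ × Om k) p =>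
        kr K y.2.1 (0, p) (j.succ, q)) (h := fun y : ℝ × Om k => y.1 • y.2.2 i) (fun p => by
          simpa using Fc.smul (kb (0, p) (j.succ, q)) (Fc.const (1 : K))) (by fun_prop) l p))⟩
    filter_upwards [(eventually_prod_principal_iff (p := fun y : ℝ × Om k =>
      Injective (yt y.1 y.2.1 y.2.2) ∧ Injective y.2.1)).2
        ((yt_inj hs h).mono fun t e y b => ⟨e y b, (h y b).1⟩)] with y e
    simp only [kr, e.1.eq_iff, e.2.eq_iff, reduceCtorEq, if_false, j.succ_ne_zero.symm]
    simp [yt, add_sub_right_comm]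
  obtain ⟨i | i, p⟩ := r <;> obtain ⟨j | j, q⟩ := q <;> simp only [rest, Ph]
  · simp [Ek_same _ _ (ty_Lin _ _ _) (ty_Lin _ _ _), isBigO_zero, isBoundedUnder_const]
  · simpa using z i j p q
  · simpa [kr_symm _ (Sum.inr i, p), mul_comm (X (i.succ, p))] using z j i q p
  · simpa [Ek_X_X, show ∀ t y x, kr K (yt t y x) (.inr i, p) (.inr j, q) = kr K y (i.succ, p)
      (j.succ, q) from fun _ _ _ => rfl, isBigO_zero] using bdd_on one_pos hs (kb _ _)

theorem vc_lin (P : Lb d K) (c : Fin k → Lb d K) (y : Fin (k + 1) → R4) :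
    fp (vecCons P c) y = (fm y).toLinearMap (vecCons 0 c) 0 P := by simp [fm_apply, vecCons]

theorem tr_rem (hs : IsCompact s) (h : ∀ y ∈ s, Injective y.1 ∧ Injective y.2) (D : ℕ)
    (c : Fin k → Lb d K) (P : Lb d K) : (fun y : ℝ × Om k =>
      fp (vecCons (rh ((y.1 : K) • 1) (P - tr D P)) c) y.2.1) =O[Fl s] fun y => y.1 ^ (D + 1) := by
  simp only [vc_lin]
  induction P using MvPolynomial.induction_on' with
  | add p q a b => simpa only [map_add, add_sub_add_comm] using a.add b
  | monomial m a =>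
    rw [tr_hom D (isWeightedHomogeneous_monomial _ _ _ rfl)]
    split_ifs with e
    · simpa using isBigO_zero _ _
    simp only [sub_zero, rh_mon, map_smul, smul_eq_mul]
    simp only [← vc_lin]
    have b := bdd_on (b := fun y => fp (vecCons (monomial m a) c) y.2.1) one_pos hs
      fun y b => ((fp_smooth (h _ b.2).1 _).continuousAt.comp
        (f := fun y : ℝ × Om k => y.2.1) (by fun_prop)).continuousWithinAt
    have b' : (fun y : ℝ × Om k => (y.1 : K) ^ Finsupp.weight wt m) =O[Fl s] _ :=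
      .trans (.of_bound 1 (.of_forall fun y => by simp)) (pw_le s (not_le.1 e))
    exact (b'.mul b).congr_right fun _ => mul_one _

/-- the expansion at points -/
theorem ope_pt (hs : IsCompact s) (h : ∀ y ∈ s, Injective y.1 ∧ Injective y.2) (D : ℕ)
    (a : Fin 2 → Lb d K) (c : Fin k → Lb d K) : (fun y : ℝ × Om k =>
      fp (Sum.elim (fun i => rh ((y.1 : K) • 1) (a i)) c) (yt y.1 y.2.1 y.2.2) -
      fp (vecCons (rh ((y.1 : K) • 1) (tr D (ph (D + 1) y.2.2 (qx a y.2.2)))) c) y.2.1)
      =O[Fl s] fun y => y.1 ^ (D + 1) := by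
  have m : MapsTo (fun y : ℝ × Om k => y.2.2) (univ ×ˢ s) {x | Injective x} :=
    fun y b => (h _ b.2).2
  have e : ∀ y : Fin 2 ⊕ Fin k → R4, sy (fun r q => rest K y r q / 2) = rest (d := d) K y :=
    fun y => sy_half fun r q => by simp only [rest, kr_symm y r, and_comm]
  have e' : ∀ (y : Fin (k + 1) → R4) x, sy (fun r q => Ek y (Ph K k (D + 1) x r *
      Ph K k (D + 1) x q) / 2) = fun r q => Ek y (Ph (d := d) K k (D + 1) x r * Ph K k (D + 1) x q) :=
    fun y x => sy_half fun r q => by rw [mul_comm]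
  have f1 : (fun y : ℝ × Om k => ps k (y.1 : K) (qx a y.2.2) * rename (Prod.map .inr id) (Rn c)) ∈
      Fc K (univ ×ˢ s) _ := Fc.mul (Fc.map (fun y : ℝ × Om k => (ps k (y.1 : K)).toLinearMap)
    (Fc.alg (fun y : ℝ × Om k => ps k (y.1 : K)) fun p => by
      simp only [ps, aeval_X]
      exact Fc.smul (by fun_prop) (Fc.const _)) (Fc.comp (by fun_prop) m (qx_Fc a))) (Fc.const _)
  have b1 := Fc.bigO hs (g := fun y : ℝ × Om k => y.1 ^ (D + 1))
    (fun y : ℝ × Om k => E (fun r q => rest K (yt y.1 y.2.1 y.2.2) r q / 2) - E fun r q =>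
      Ek y.2.1 (Ph K k (D + 1) (y.1 • y.2.2) r * Ph K k (D + 1) (y.1 • y.2.2) q) / 2)
    (fun P => by
      simp only [LinearMap.sub_apply]
      exact E_cmp (by simpa only [pow_zero] using pw_le s (D + 1).zero_le) _ _
        (fun r q => by simpa only [e, e'] using kr_cmp hs h (D + 1) r q) P) f1
  have b2 := Fc.bigO hs (g := fun y : ℝ × Om k => y.1 ^ (D + 1))
    (fun y : ℝ × Om k => (fm y.2.1).toLinearMap (vecCons 0 c) 0 ∘ₗ
      (rh ((y.1 : K) • 1)).toLinearMap ∘ₗ (.id - tr D))
    (fun P => by simpa only [vc_lin, LinearMap.comp_apply, LinearMap.sub_apply, LinearMap.id_apply,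
      AlgHom.toLinearMap_apply] using tr_rem hs h D c P)
    (Fc.comp (by fun_prop) m (ph_Fc (D + 1) a))
  refine (b1.add b2).congr' ((tendsto_fst.eventually self_mem_nhdsWithin).mono fun y e => ?_) .rfl
  simp only [fp_rest (ne_of_gt e), LinearMap.sub_apply, ← fp_Ph, vc_lin, LinearMap.comp_apply,
    map_sub, LinearMap.id_apply, AlgHom.toLinearMap_apply, sub_add_sub_cancel]

end Pool.Agent.Lib.MP_7f377f_mp.Zf
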