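import Pool.Agent.Lib.MP_7f377f_mp.G.ZfN

/-! An equivariant complement of the null ideal. -/

noncomputable section

namespace Pool.Agent.Lib.MP_7f377f_mp.Zf

open MvPolynomial Matrix Set
open Finsupp (weight weight_apply single single_eq_of_ne single_eq_same le_weight le_weight_of_ne_zero')
open YZ (R4 Var)

set_option linter.unusedSectionVars false

variable {K : Type} [RCLike K] {d D : ℕ} {c : Lb d K}

/-- homogeneous components -/
abbrev hc (D : ℕ) : Lb d K →ₗ[K] Lb d K := weightedHomogeneousComponent wt D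

/-- homogeneous labels -/
abbrev Hm (c : Lb d K) (D : ℕ) : Prop := IsWeightedHomogeneous wt c D

/-- labels of dimension at most `D` -/
def Fd (d : ℕ) (K : Type) [RCLike K] (D : ℕ) : Submodule K (Lb d K) :=
  restrictSupport K {m | weight wt m ≤ D}

theorem rh_X (g : Matrix (Fin 4) (Fin 4) K) (p : Var d) :
    rh g (X p) = ∑ J, (∏ r, g (J r) (p.1.2 r)) • X (⟨p.1.1, J⟩, p.2) := aeval_X _ _

theorem ad_X (A : Matrix (Fin d) (Fin d) ℝ) (p : Var d) :
    ad A (X p : Lb d K) = ∑ b, (A p.2 b : K) • X (p.1, b) := aeval_X _ _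

theorem rh_mul (g g' : Matrix (Fin 4) (Fin 4) K) (c : Lb d K) : rh (g * g') c = rh g (rh g' c) := by
  refine AlgHom.congr_fun (φ₁ := rh (g * g')) (φ₂ := (rh g).comp (rh g')) (algHom_ext fun p => ?_) c
  simp only [AlgHom.comp_apply, rh_X, map_sum, map_smul, Finset.smul_sum, smul_smul, mul_apply,
    Finset.prod_univ_sum, Fintype.piFinset_univ, Finset.sum_smul, Finset.prod_mul_distrib]
  rw [Finset.sum_comm]
  simp only [mul_comm]

theorem rh_diag (e : Fin 4 → K) (p : Var d) :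
    rh (diagonal e) (X p) = (∏ r, e (p.1.2 r)) • X p := by
  rw [rh_X, Finset.sum_eq_single p.1.2 (fun J _ h => ?_) (by simp)]
  · simp
  · obtain ⟨r, hr⟩ := Function.ne_iff.1 h
    rw [Finset.prod_eq_zero (Finset.mem_univ r) (by exact diagonal_apply_ne _ hr), zero_smul]

theorem rh_one (c : Lb d K) : rh 1 c = c :=
  AlgHom.congr_fun (φ₁ := rh 1) (φ₂ := AlgHom.id K _) (algHom_ext fun p => by
    rw [← diagonal_one, rh_diag]; simp) c

theorem ad_rh (A : Matrix (Fin d) (Fin d) ℝ) (g : Matrix (Fin 4) (Fin 4) K) (c : Lb d K) :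
    ad A (rh g c) = rh g (ad A c) := by
  refine AlgHom.congr_fun (φ₁ := (ad A).comp (rh g)) (φ₂ := (rh g).comp (ad A))
    (algHom_ext fun p => ?_) c
  simp only [AlgHom.comp_apply, rh_X, ad_X, map_sum, map_smul, Finset.smul_sum, smul_smul]
  rw [Finset.sum_comm]
  simp only [mul_comm]

theorem ad_mul (A B : Matrix (Fin d) (Fin d) ℝ) (c : Lb d K) : ad (A * B) c = ad B (ad A c) := by
  refine AlgHom.congr_fun (φ₁ := ad (A * B)) (φ₂ := (ad B).comp (ad A)) (algHom_ext fun p => ?_) c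
  simp only [AlgHom.comp_apply, ad_X, map_sum, map_smul, Finset.smul_sum, smul_smul, mul_apply,
    RCLike.ofReal_sum, RCLike.ofReal_mul, Finset.sum_smul]
  exact Finset.sum_comm

theorem ad_one (c : Lb d K) : ad 1 c = c :=
  AlgHom.congr_fun (φ₁ := ad 1) (φ₂ := AlgHom.id K _) (algHom_ext fun p => by
    simp [ad_X, one_apply, apply_ite]) c

theorem mem_Iv {𝒜 : Set (Matrix (Fin d) (Fin d) ℝ)} : c ∈ Iv K 𝒜 ↔ ∀ A ∈ 𝒜, ad A c = c := by
  simp [Iv, Algebra.mem_iInf, eq_comm]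

theorem rh_ff {g : Matrix (Fin 4) (Fin 4) K} {s : K} (h : g * gᵀ = s • 1) (μ ν : Fin 4) :
    rh g (ff μ ν : Lb d K) = s • ∑ α, ∑ β, (g α μ * g β ν) • ff α β := by
  have e : ∀ β δ, ∑ l, g β l * g δ l = if β = δ then s else 0 := fun β δ => by
    simpa [mul_apply, one_apply] using congrFun (congrFun h β) δ
  have k : ∀ (F : (Fin (0 + 2) → Fin 4) → Lb d K), ∑ J, F J = ∑ α, ∑ β, F ![α, β] := fun F => by
    rw [← Fintype.sum_prod_type', ← (piFinTwoEquiv fun _ => Fin 4).symm.sum_comp]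
    rfl
  simp only [ff, map_sum, map_mul, rh_X, k, Fin.prod_univ_succ, Finset.sum_mul, Finset.mul_sum,
    Finset.smul_sum, smul_mul_smul_comm, smul_smul]
  calc _ = ∑ α, ∑ γ, ∑ β, ∑ a, ∑ δ, (g α μ * g γ ν * ∑ l, g β l * g δ l) •
        (X (⟨0, ![α, β]⟩, a) * X (⟨0, ![γ, δ]⟩, a) : Lb d K) := by
        simp only [Finset.mul_sum, Finset.sum_smul]
        simp only [← Fintype.sum_prod_type']
        refine Fintype.sum_equiv ⟨fun p => (p.2.2.2.2.1, p.2.2.1, p.2.2.2.2.2, p.2.1, p.2.2.2.1, p.1),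
          fun p => (p.2.2.2.2.2, p.2.2.2.1, p.2.1, p.2.2.2.2.1, p.1, p.2.2.1), fun _ => rfl,
          fun _ => rfl⟩ _ _ fun p => ?_
        simp [mul_mul_mul_comm]
    _ = _ := by simp [e, mul_comm s]

theorem ad_ff {A : Matrix (Fin d) (Fin d) ℝ} (h : A * Aᵀ = 1) (μ ν : Fin 4) :
    ad A (ff μ ν : Lb d K) = ff μ ν := by
  have e : ∀ b c, ∑ a, (A a b : K) * A a c = if b = c then 1 else 0 := fun b c => by
    have : (Aᵀ * A) b c = (1 : Matrix _ _ ℝ) b c := by rw [mul_eq_one_comm.1 h]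
    simp only [mul_apply, one_apply, transpose_apply] at this
    simp only [← RCLike.ofReal_mul, ← RCLike.ofReal_sum, this]
    split_ifs <;> simp
  simp only [ff, map_sum, map_mul, ad_X, Finset.sum_mul, Finset.mul_sum, smul_mul_smul_comm]
  refine Finset.sum_congr rfl fun l _ => ?_
  rw [Finset.sum_comm]
  refine Finset.sum_congr rfl fun b _ => ?_
  rw [Finset.sum_comm]
  simp [← Finset.sum_smul, e]

theorem ff_symm (μ ν : Fin 4) : (ff μ ν : Lb d K) = ff ν μ := by simp only [ff, mul_comm]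

theorem Hm.smul (h : Hm c D) (a : K) : Hm (a • c) D :=
  (weightedHomogeneousSubmodule K wt D).smul_mem a h

theorem hm_ff (μ ν : Fin 4) : Hm (ff μ ν : Lb d K) 4 :=
  .sum _ _ _ fun _ _ => .sum _ _ _ fun _ _ =>
    (isWeightedHomogeneous_X K wt _).mul (isWeightedHomogeneous_X K wt _)

theorem hm_lg : Hm (lg : Lb d K) 4 := Hm.smul (.sum _ _ _ fun _ _ => hm_ff _ _) _

theorem hm_alg {φ : Lb d K →ₐ[K] Lb d K} (h : ∀ p, Hm (φ (X p)) (wt p)) (hc : Hm c D) :
    Hm (φ c) D := by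
  rw [c.as_sum, map_sum]
  refine .sum _ _ _ fun m hm => ?_
  rw [← hc (mem_support_iff.1 hm), monomial_eq, map_mul, algHom_C, algebraMap_eq, Finsupp.prod,
    map_prod, weight_apply, Finsupp.sum]
  exact .C_mul (.prod _ _ _ fun p _ => map_pow φ _ _ ▸ (h p).pow _) _

theorem hm_rh (g : Matrix (Fin 4) (Fin 4) K) (h : Hm c D) : Hm (rh g c) D :=
  hm_alg (fun p => rh_X g p ▸ .sum _ _ _ fun _ _ => Hm.smul (isWeightedHomogeneous_X K wt _) _) h

theorem hm_ad (A : Matrix (Fin d) (Fin d) ℝ) (h : Hm c D) : Hm (ad A c) D :=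
  hm_alg (fun p => ad_X (K := K) A p ▸ .sum _ _ _ fun _ _ =>
    Hm.smul (isWeightedHomogeneous_X K wt _) _) h

theorem hc_hm (D : ℕ) (c : Lb d K) : Hm (hc D c) D :=
  weightedHomogeneousComponent_isWeightedHomogeneous _ _

theorem Hm.hc_eq (h : Hm c D) (n : ℕ) : hc n c = if n = D then c else 0 :=
  weightedHomogeneousComponent_of_mem h

theorem hc_shift {L : Lb d K →ₗ[K] Lb d K} {n : ℕ} (h : ∀ D c, Hm c D → Hm (L c) (D + n)) (D : ℕ)
    (c : Lb d K) : L (hc D c) = hc (D + n) (L c) := by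
  induction c using MvPolynomial.induction_on' with
  | add p q hp hq => simp only [map_add, hp, hq]
  | monomial m a =>
    have e : Hm (monomial m a) (weight wt m) := isWeightedHomogeneous_monomial _ _ _ rfl
    rw [e.hc_eq, (h _ _ e).hc_eq]
    by_cases k : D = weight wt m <;> simp [k]

theorem hc_rh (g : Matrix (Fin 4) (Fin 4) K) (D : ℕ) (c : Lb d K) : rh g (hc D c) = hc D (rh g c) :=
  hc_shift (n := 0) (L := (rh g).toLinearMap) (fun _ _ => hm_rh g) D c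

theorem hc_ad (A : Matrix (Fin d) (Fin d) ℝ) (D : ℕ) (c : Lb d K) : ad A (hc D c) = hc D (ad A c) :=
  hc_shift (n := 0) (L := (ad A).toLinearMap) (fun _ _ => hm_ad A) D c

theorem rh_smul (h : Hm c D) (t : K) : rh (t • 1) c = t ^ D • c := by
  rw [c.as_sum, map_sum, Finset.smul_sum]
  refine Finset.sum_congr rfl fun m hm => ?_
  rw [← h (mem_support_iff.1 hm), monomial_eq, map_mul, algHom_C, algebraMap_eq, Finsupp.prod,
    map_prod, weight_apply, Finsupp.sum, ← mul_smul_comm, ← Finset.prod_pow_eq_pow_sum,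
    ← Finset.prod_smul]
  refine congrArg _ (Finset.prod_congr rfl fun p _ => ?_)
  rw [map_pow, smul_one_eq_diagonal, rh_diag, smul_pow, smul_eq_mul, mul_comm, pow_mul]
  simp [wt]

theorem mem_Fd : c ∈ Fd d K D ↔ c.weightedTotalDegree wt ≤ D := by
  simp [Fd, mem_restrictSupport_iff, weightedTotalDegree, subset_def]

theorem mem_Fd0 : c ∈ Fd d K D ↔ ∀ m, coeff m c ≠ 0 → weight wt m ≤ D := by
  simp [Fd, mem_restrictSupport_iff, subset_def]

theorem mem_Fd' : c ∈ Fd d K D ↔ ∀ n, D < n → hc n c = 0 :=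
  ⟨fun h _ e => weightedHomogeneousComponent_eq_zero _ _ ((mem_Fd.1 h).trans_lt e),
    fun h => mem_Fd0.2 fun m hm => not_lt.1 fun e => hm (by
      simpa [coeff_weightedHomogeneousComponent] using congrArg (coeff m) (h (weight wt m) e))⟩

theorem Hm.mem (h : Hm c D) : c ∈ Fd d K D := fun _ hm => (h (mem_support_iff.1 hm)).le

theorem Fd_mono : Monotone (Fd d K) := fun _ _ h => restrictSupport_mono K fun _ e => le_trans e h

theorem sum_hc (h : c ∈ Fd d K D) : ∑ n ∈ Finset.range (D + 1), hc n c = c := by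
  ext m
  simp only [coeff_sum, coeff_weightedHomogeneousComponent, Finset.sum_ite_eq, Finset.mem_range]
  split_ifs with e
  · rfl
  · exact (by_contra fun k => e (Nat.lt_succ_of_le (mem_Fd0.1 h m k)) : coeff m c = 0).symm

theorem Fd_up {L : Lb d K →ₗ[K] Lb d K} {n : ℕ} (h : ∀ D c, Hm c D → Hm (L c) (D + n))
    (hc : c ∈ Fd d K D) : L c ∈ Fd d K (D + n) := by
  rw [← sum_hc hc, map_sum]
  exact Submodule.sum_mem _ fun m hm => Fd_mono (by simp at hm; omega) (h _ _ (hc_hm m c)).mem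

instance : FiniteDimensional K (Fd d K D) := by
  have f : {p : Var d | wt p ≤ D}.Finite :=
    (finite_range fun q : (Σ n : Fin (D + 1), Fin (n + 2) → Fin 4) × Fin d =>
      ((⟨q.1.1, q.1.2⟩, q.2) : Var d)).subset fun p hp =>
        ⟨(⟨⟨p.1.1, by simp [wt] at hp; omega⟩, p.1.2⟩, p.2), rfl⟩
  have : {m : Var d →₀ ℕ | weight wt m ≤ D}.Finite := by
    classical
    refine (finite_Iic (∑ p ∈ f.toFinset, single p D)).subset fun m hm p => ?_
    by_cases e : m p = 0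
    · simp [e]
    have a := (le_weight_of_ne_zero' wt e).trans hm
    rw [Finsupp.finset_sum_apply, Finset.sum_eq_single p (fun q _ k => single_eq_of_ne k.symm)
      (fun k => (k (f.mem_toFinset.2 a)).elim), single_eq_same]
    exact (le_weight wt (by simp [wt]) m).trans hm
  have := this.to_subtype
  exact Module.Finite.of_basis (basisRestrictSupport K _)

theorem fis_rh (g : Matrix (Fin 4) (Fin 4) K) (P Q : Lb d K) : fis (rh g P) Q = fis P (rh gᵀ Q) := by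
  have k : ∀ (g : Matrix (Fin 4) (Fin 4) K) (u : Var d), rh g (X u) ∈ Submodule.span K (range X) :=
    fun g u => rh_X g u ▸ Submodule.sum_mem _ fun _ _ =>
      Submodule.smul_mem _ _ (Submodule.subset_span ⟨_, rfl⟩)
  refine fis_adj _ _ (k g) (k gᵀ) (fun ⟨⟨n, I⟩, a⟩ ⟨⟨m, J⟩, b⟩ => ?_) P Q
  simp only [rh_X, map_sum, map_smul, LinearMap.sum_apply, LinearMap.smul_apply, fis_XX]
  by_cases e : n = m
  · subst e
    by_cases e : a = b <;> simp [e]
  · simp [e]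

theorem fis_ad (A : Matrix (Fin d) (Fin d) ℝ) (P Q : Lb d K) : fis (ad A P) Q = fis P (ad Aᵀ Q) := by
  have k : ∀ (A : Matrix (Fin d) (Fin d) ℝ) (u : Var d),
      ad A (X u : Lb d K) ∈ Submodule.span K (range X) := fun A u => by
    rw [ad_X]
    exact Submodule.sum_mem _ fun _ _ => Submodule.smul_mem _ _ (Submodule.subset_span ⟨_, rfl⟩)
  refine fis_adj _ _ (k A) (k Aᵀ) (fun ⟨I, a⟩ ⟨J, b⟩ => ?_) P Q
  simp only [ad_X, map_sum, map_smul, LinearMap.sum_apply, LinearMap.smul_apply, fis_XX]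
  by_cases e : I = J <;> simp [e]

theorem fis_hc (D : ℕ) (P Q : Lb d K) : fis (hc D P) Q = fis P (hc D Q) := by
  induction P using MvPolynomial.induction_on' with
  | add p q hp hq => simp only [map_add, LinearMap.add_apply, hp, hq]
  | monomial m a =>
    rw [Hm.hc_eq (isWeightedHomogeneous_monomial _ _ _ rfl), fis_mon,
      coeff_weightedHomogeneousComponent]
    by_cases e : D = weight wt m
    · simp [e, fis_mon]
    · simp [e, Ne.symm e]

theorem conf {g : Matrix (Fin 4) (Fin 4) ℝ} {s : ℝ} (h : gᵀ * g = s • 1) :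
    ∃ (t : ℝ) (R : Matrix (Fin 4) (Fin 4) ℝ), Rᵀ * R = 1 ∧ g = (t • 1) * R := by
  have e : ∀ i, ∑ j, g j i * g j i = s := fun i => by
    simpa [mul_apply] using congrFun (congrFun h i) i
  have s0 : 0 ≤ s := e 0 ▸ Finset.sum_nonneg fun _ _ => mul_self_nonneg _
  rcases s0.eq_or_lt with rfl | s0
  · refine ⟨0, 1, by simp, ?_⟩
    ext j i
    simpa using (Finset.sum_mul_self_eq_zero_iff _ _).1 (e i) j (Finset.mem_univ _)
  have q := Real.sqrt_pos.2 s0
  refine ⟨√s, (√s)⁻¹ • g, ?_, by simp [smul_smul, q.ne']⟩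
  rw [transpose_smul, smul_mul_smul_comm, h, smul_smul, ← mul_inv, Real.mul_self_sqrt s0.le,
    inv_mul_cancel₀ s0.ne', one_smul]

/-- the Fischer product as a scalar product -/
@[reducible] def core (d : ℕ) : InnerProductSpace.Core ℝ (Lb d ℝ) where
  inner x y := fis x y
  conj_inner_symm x y := fis_symm y x
  re_inner_nonneg x := by
    by_cases h : x = 0
    · simp [h]
    · exact (fis_pos h).le
  definite x h := by_contra fun e => (fis_pos e).ne' h
  add_left x y z := by simp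
  smul_left x y r := by simp

instance : NormedAddCommGroup (Lb d ℝ) :=
  @InnerProductSpace.Core.toNormedAddCommGroup ℝ _ _ _ _ (core d)

instance : InnerProductSpace ℝ (Lb d ℝ) := .ofCore (core d).toCore

instance : UniformSpace (Lb d ℝ) := PseudoMetricSpace.toUniformSpace

instance : TopologicalSpace (Lb d ℝ) := UniformSpace.toTopologicalSpace

theorem inner_eq (P Q : Lb d ℝ) : inner ℝ P Q = fis P Q := rfl

theorem coeff_le (m : Var d →₀ ℕ) (c : Lb d ℝ) : |coeff m c| ≤ ‖c‖ := by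
  refine abs_le_of_sq_le_sq' ?_ (norm_nonneg _) |> abs_le.2
  by_cases h : coeff m c = 0
  · simp [h]
  rw [← real_inner_self_eq_norm_sq, inner_eq, fis_eq]
  refine le_trans ?_ (Finset.single_le_sum (f := fun m => coeff m c * (fc m * coeff m c))
    (fun m _ => ?_) (mem_support_iff.2 h))
  · have : (1 : ℝ) ≤ fc m := Nat.one_le_cast.2 (fc_pos m)
    nlinarith [mul_self_nonneg (coeff m c)]
  · rw [mul_left_comm]
    exact mul_nonneg (Nat.cast_nonneg _) (mul_self_nonneg _)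

theorem coeff_cont (m : Var d →₀ ℕ) : Continuous fun c : Lb d ℝ => coeff m c :=
  AddMonoidHomClass.continuous_of_bound (lcoeff ℝ m) 1 fun c => by simpa using coeff_le m c

theorem compl_orth {U : Submodule ℝ (Lb d ℝ)} (h : ∀ D, ∀ c ∈ U, hc D c ∈ U) : IsCompl U Uᗮ := by
  refine ⟨U.orthogonal_disjoint, codisjoint_iff.2 (Submodule.eq_top_iff'.2 fun c => ?_)⟩
  have m : c ∈ Fd d ℝ _ := mem_Fd.2 le_rfl
  generalize weightedTotalDegree wt c = D at m
  haveI := Submodule.finiteDimensional_inf_right U (Fd d ℝ D)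
  obtain ⟨u, hu, v, hv, rfl⟩ := (U ⊓ Fd d ℝ D).exists_add_mem_mem_orthogonal c
  refine Submodule.add_mem_sup hu.1 fun w hw => ?_
  rw [← sum_hc ((Submodule.add_mem_iff_right _ hu.2).1 m), inner_sum]
  exact Finset.sum_eq_zero fun n hn => (fis_hc n w v).symm.trans
    (hv _ ⟨h n w hw, Fd_mono (by simp at hn; omega) (hc_hm n w).mem⟩)

variable (d) in
/-- the span of the Lagrangian and of the stress tensor -/
def A4 : Submodule ℝ (Lb d ℝ) := .span ℝ (range fun p : Fin 4 × Fin 4 => ff p.1 p.2)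

variable (d) in
/-- the null ideal as a subspace -/
def Nr : Submodule ℝ (Lb d ℝ) := (Nl d ℝ).restrictScalars ℝ

variable (d) in
/-- the complement of the null ideal -/
def Cm : Submodule ℝ (Lb d ℝ) := A4 d ⊔ (A4 d ⊔ Nr d)ᗮ

instance : FiniteDimensional ℝ (A4 d) := FiniteDimensional.span_of_finite ℝ (finite_range _)

theorem ff_A4 (μ ν : Fin 4) : ff μ ν ∈ A4 d := Submodule.subset_span ⟨(μ, ν), rfl⟩

theorem A4_map {L : Lb d ℝ →ₗ[ℝ] Lb d ℝ} {S : Submodule ℝ (Lb d ℝ)} (h : ∀ μ ν, L (ff μ ν) ∈ S)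
    {c : Lb d ℝ} (hc : c ∈ A4 d) : L c ∈ S :=
  (Submodule.span_le (p := S.comap L)).2 (by rintro _ ⟨p, rfl⟩; exact h _ _) hc

theorem A4_hm {c : Lb d ℝ} (hc : c ∈ A4 d) : Hm c 4 :=
  A4_map (L := .id) (S := weightedHomogeneousSubmodule ℝ wt 4) hm_ff hc

theorem on_const (F : Fin d → Matrix (Fin 4) (Fin 4) ℝ) :
    (fun p : Var d => if p.1.1 = 0 then F p.2 (p.1.2 0) (p.1.2 1) - F p.2 (p.1.2 1) (p.1.2 0)
      else 0) ∈ On d := by
  have z : ∀ (μ ν l : Fin 4) (r : Pp), coeff (single l 1) (X μ * X ν * r) = 0 := fun μ ν l r => by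
    rw [mul_assoc, coeff_X_mul']
    split_ifs with h
    · obtain rfl : μ = l := by simpa [Finsupp.single_apply, eq_comm] using h
      rw [tsub_self, coeff_X_mul']
      simp
    · rfl
  refine ⟨fun a l => ∑ μ, F a μ l • lcoeff ℝ (single μ 1), fun a l r => by simp [z],
    fun ⟨⟨n, I⟩, a⟩ => ?_⟩
  cases n with
  | zero => simp [coeff_X', Finsupp.single_left_inj]
  | succ n => simp [Fin.prod_univ_succ, ← mul_assoc, z]

theorem A4_Nr : Disjoint (A4 d) (Nr d) := by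
  refine Submodule.disjoint_def.2 fun c h1 h2 => ?_
  obtain ⟨w, rfl⟩ := (Submodule.mem_span_range_iff_exists_fun ℝ).1 h1
  rcases d with _ | d
  · simp [ff]
  have k : ∀ F : Matrix (Fin 4) (Fin 4) ℝ,
      ∑ μ, ∑ ν, w (μ, ν) * ∑ l, (F μ l - F l μ) * (F ν l - F l ν) = 0 := fun F => by
    have := mem_Nl.1 h2 _ (on_const (Pi.single 0 F))
    simpa [ff, Fintype.sum_prod_type, Fin.sum_univ_succ (n := d)] using this
  have k1 := fun i j => k (Matrix.single i j 1)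
  have k2 := fun i j l => k (Matrix.single i j 1 + Matrix.single l j 1)
  have a1 := k1 0 1
  have a2 := k1 0 2
  have a3 := k1 1 2
  have a4 := k1 0 3
  have b1 := k2 0 2 1
  have b2 := k2 0 1 2
  have b3 := k2 0 1 3
  have b4 := k2 1 0 2
  have b5 := k2 1 0 3
  have b6 := k2 2 0 3
  simp [Fin.sum_univ_four, Matrix.single] at a1 a2 a3 a4 b1 b2 b3 b4 b5 b6
  simp only [Fintype.sum_prod_type, Fin.sum_univ_four, ff_symm 1 0, ff_symm 2 0, ff_symm 3 0,
    ff_symm 2 1, ff_symm 3 1, ff_symm 3 2]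
  match_scalars <;> linarith

/-- operators which together with their adjoints preserve `A4` and the null ideal -/
def Gd (L : Lb d ℝ →ₗ[ℝ] Lb d ℝ) : Prop := ∃ L' : Lb d ℝ →ₗ[ℝ] Lb d ℝ,
  (∀ P Q, fis (L' P) Q = fis P (L Q)) ∧ (∀ c ∈ A4 d, L c ∈ A4 d ∧ L' c ∈ A4 d) ∧
    ∀ c ∈ Nr d, L c ∈ Nr d ∧ L' c ∈ Nr d

theorem Gd.orth {L : Lb d ℝ →ₗ[ℝ] Lb d ℝ} (h : Gd L) {c} (hc : c ∈ (A4 d ⊔ Nr d)ᗮ) :
    L c ∈ (A4 d ⊔ Nr d)ᗮ := fun u hu => by
  obtain ⟨L', h1, h2, h3⟩ := h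
  obtain ⟨a, ha, b, hb, rfl⟩ := Submodule.mem_sup.1 hu
  exact (h1 _ _).symm.trans
    (hc _ (map_add L' a b ▸ Submodule.add_mem_sup (h2 a ha).2 (h3 b hb).2))

theorem Gd.cm {L : Lb d ℝ →ₗ[ℝ] Lb d ℝ} (h : Gd L) {c} (hc : c ∈ Cm d) : L c ∈ Cm d := by
  obtain ⟨a, ha, b, hb, rfl⟩ := Submodule.mem_sup.1 hc
  exact map_add L a b ▸ Submodule.add_mem_sup (h.choose_spec.2.1 a ha).1 (h.orth hb)

theorem ff_Cm (μ ν : Fin 4) : ff μ ν ∈ Cm d := Submodule.mem_sup_left (ff_A4 μ ν)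

theorem gd_hc (D : ℕ) : Gd (hc D : Lb d ℝ →ₗ[ℝ] _) :=
  ⟨hc D, fis_hc D, fun c h => by rw [(A4_hm h).hc_eq]; split_ifs <;> simp [h],
    fun c h => and_self_iff.2 ((s_null c h).2.2.2.2.1 D)⟩

theorem gd_rh {g : Matrix (Fin 4) (Fin 4) ℝ} {s : ℝ} (h : gᵀ * g = s • 1) :
    Gd (rh g : Lb d ℝ →ₐ[ℝ] _).toLinearMap := by
  have h' : gᵀᵀ * gᵀ = s • 1 := mul_tr h
  have k : ∀ g : Matrix (Fin 4) (Fin 4) ℝ, g * gᵀ = s • 1 → ∀ c ∈ A4 d, rh g c ∈ A4 d :=
    fun g h c => A4_map (L := (rh g).toLinearMap) fun μ ν => (rh_ff h μ ν).symm ▸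
      Submodule.smul_mem _ _ (Submodule.sum_mem _ fun _ _ => Submodule.sum_mem _ fun _ _ =>
        Submodule.smul_mem _ _ (ff_A4 _ _))
  exact ⟨(rh gᵀ).toLinearMap, fis_rh gᵀ, fun c e => ⟨k g h' c e, k gᵀ h c e⟩,
    fun c e => ⟨(s_null c e).1 g s h, (s_null c e).1 gᵀ s h'⟩⟩

theorem gd_ad {A : Matrix (Fin d) (Fin d) ℝ} (h : A * Aᵀ = 1) :
    Gd (ad A : Lb d ℝ →ₐ[ℝ] _).toLinearMap := by
  have k : ∀ A : Matrix (Fin d) (Fin d) ℝ, A * Aᵀ = 1 → ∀ c ∈ A4 d, ad A c ∈ A4 d :=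
    fun A h c => A4_map (L := (ad A).toLinearMap) fun μ ν => (ad_ff (K := ℝ) h μ ν).symm ▸ ff_A4 _ _
  exact ⟨(ad Aᵀ).toLinearMap, fis_ad Aᵀ, fun c e => ⟨k A h c e, k Aᵀ (mul_eq_one_comm.1 h) c e⟩,
    fun c e => ⟨(s_null c e).2.1 _, (s_null c e).2.1 _⟩⟩

theorem compl : IsCompl (Cm d) (Nr d) := by
  have h := compl_orth (U := A4 d ⊔ Nr d) fun D c e => by
    obtain ⟨a, ha, b, hb, rfl⟩ := Submodule.mem_sup.1 e
    obtain ⟨_, -, h2, h3⟩ := gd_hc (d := d) D
    exact map_add (hc D) a b ▸ Submodule.add_mem_sup (h2 a ha).1 (h3 b hb).1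
  refine ⟨Submodule.disjoint_def.2 fun c h1 h2 => ?_, codisjoint_iff.2 ?_⟩
  · obtain ⟨a, ha, b, hb, rfl⟩ := Submodule.mem_sup.1 h1
    obtain rfl := Submodule.disjoint_def.1 h.1 b ((Submodule.add_mem_iff_right _
      (Submodule.mem_sup_left ha)).1 (Submodule.mem_sup_right h2)) hb
    exact Submodule.disjoint_def.1 A4_Nr _ (by simpa using ha) h2
  · rw [Cm, sup_right_comm, h.sup_eq_top]

/-- the projection along the null ideal -/
def pj : Lb d ℝ →ₗ[ℝ] Lb d ℝ := (Cm d).projection (Nr d) compl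

theorem pj_mem (c : Lb d ℝ) : pj c ∈ Cm d := Submodule.projection_apply_mem compl c

theorem pj_of {c : Lb d ℝ} (h : c ∈ Cm d) : pj c = c := Submodule.projection_apply_of_mem_left compl h

theorem pj_null {c : Lb d ℝ} : pj c = 0 ↔ c ∈ Nl d ℝ :=
  Submodule.projection_apply_eq_zero_iff compl

theorem sub_pj (c : Lb d ℝ) : c - pj c ∈ Nl d ℝ := pj_null.1 (by simp [pj_of (pj_mem c)])

theorem Gd.pj {L : Lb d ℝ →ₗ[ℝ] Lb d ℝ} (h : Gd L) (c : Lb d ℝ) : pj (L c) = L (pj c) := by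
  rw [← pj_of (h.cm (pj_mem c)), ← sub_eq_zero, ← map_sub, ← map_sub, pj_null]
  exact (h.choose_spec.2.2 _ (sub_pj c)).1

theorem pj_hc (D : ℕ) (c : Lb d ℝ) : pj (hc D c) = hc D (pj c) := (gd_hc D).pj c

theorem pj_rh {g : Matrix (Fin 4) (Fin 4) ℝ} {s : ℝ} (h : gᵀ * g = s • 1) (c : Lb d ℝ) :
    pj (rh g c) = rh g (pj c) := (gd_rh h).pj c

theorem pj_ad {A : Matrix (Fin d) (Fin d) ℝ} (h : A * Aᵀ = 1) (c : Lb d ℝ) :
    pj (ad A c) = ad A (pj c) := (gd_ad h).pj c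

theorem pj_Fd {c : Lb d ℝ} (h : c ∈ Fd d ℝ D) : pj c ∈ Fd d ℝ D :=
  mem_Fd'.2 fun n e => by rw [← pj_hc, mem_Fd'.1 h n e, map_zero]

theorem one_Cm : 1 ∈ Cm d := Submodule.mem_sup_right fun u hu => by
  obtain ⟨a, ha, b, hb, rfl⟩ := Submodule.mem_sup.1 hu
  have e := mem_Nl.1 hb _ (on_const 0)
  simp only [Pi.zero_apply, Matrix.zero_apply, sub_self, ite_self, RCLike.ofReal_zero, eval_zero'] at e
  rw [inner_eq, fis_symm, ← C_1, fis_C, map_add, e, constantCoeff_eq,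
    (A4_hm ha).coeff_eq_zero 0 (by simp)]
  simp

end Pool.Agent.Lib.MP_7f377f_mp.Zf
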