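import Pool.Agent.Lib.MP_7f377f_mp.G.ZfR0
import Pool.Agent.Lib.MP_7f377f_mp.G.ZgA

/-! Reflection positivity of the free two point function. -/

noncomputable section

namespace Pool.Agent.Lib.MP_7f377f_mp.Zf

open MvPolynomial MeasureTheory Filter Topology Matrix Set ComplexConjugate
open YZ (R4 Var pr)

variable {d n : ℕ} {v : R4}

/-- the signs of the time reflection -/
def th : Fin 4 → ℝ := Fin.cons (-1) 1

theorem th_sq (l : Fin 4) : th l * th l = 1 := Fin.cases (by simp [th]) (by simp [th]) l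

theorem sy_sign {e : Fin 4 → ℝ} (he : ∀ l, e l * e l = 1) (z : Fin 4 → ℂ) (I : Jx) (l : Fin 4) :
    ((∏ r, e (I.2 r) : ℝ) : ℂ) * aeval z (syb I l) =
      e l * aeval (fun μ => e μ * z μ) (syb I l) := by
  have := congrArg ((↑) : ℝ → ℂ) (he l)
  simp only [syb, map_mul, map_sub, map_prod, aeval_X, apply_ite (aeval _), map_zero,
    Fin.prod_univ_succ (n := I.1 + 1), Fin.prod_univ_succ (n := I.1), Finset.prod_mul_distrib,
    Fin.succ_zero_eq_one]
  push_cast at this ⊢
  split_ifs with a b b <;> (try simp only [a]) <;> (try simp only [b]) <;> ring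

theorem one_pos' (c : Jn n → ℝ) :
    0 ≤ ∑ I, ∑ J, c I * c J * ((∏ r, th (I.1.2 r)) * pr0 I J (ee 0)) := by
  obtain ⟨κ, κ0, h⟩ := Dc_rep
  let W (p : E3) (l : Fin 4) : ℂ := ∑ J, c J * aeval (fun μ => -cone p μ) (syb J.1 l)
  have e1 (p l) : aeval (cone p) (∑ J : Jn n, (c J * (-1) ^ (J.1.1 + 1)) • syb J.1 l) = W p l := by
    simp only [map_sum, map_smul, Complex.real_smul, W]
    refine Finset.sum_congr rfl fun J _ => ?_
    have := sy_sign (e := fun _ => -1) (by simp) (cone p) J.1 l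
    simp only [Finset.prod_const, Finset.card_univ, Fintype.card_fin] at this
    push_cast at this ⊢
    simp only [neg_mul, one_mul] at this
    linear_combination (-c J : ℂ) * this
  have e2 (p l) : aeval (cone p) (∑ I : Jn n, (c I * ∏ r, th (I.1.2 r)) • syb I.1 l) =
      th l * conj (W p l) := by
    simp only [map_sum, map_smul, Complex.real_smul, W, Finset.mul_sum, map_mul,
      Complex.conj_ofReal, Complex.ofReal_mul, mul_assoc, sy_sign th_sq, mul_left_comm (th l : ℂ)]
    refine Finset.sum_congr rfl fun J _ => congrArg _ (congrArg _ ?_)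
    refine ((comp_aeval_apply (f := fun μ => -cone p μ) Complex.conjAe.toAlgHom _).trans
      (congrArg (aeval · _) (funext fun μ => ?_))).symm
    refine Fin.cases ?_ (fun k => ?_) μ <;> simp [th, cone]
  have e3 (p : E3) : 0 ≤ (∑ l, th l * ‖W p l‖ ^ 2) * wg ‖p‖ := by
    by_cases p0 : p = 0
    · simp [p0, wg]
    have p1 := norm_pos_iff.2 p0
    refine mul_nonneg ?_ (div_pos (Real.exp_pos _) p1).le
    have a : ∑ l, -cone p l * W p l = 0 := by
      simp only [W, Finset.mul_sum]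
      rw [Finset.sum_comm]
      refine Finset.sum_eq_zero fun J _ => ?_
      have := congrArg (aeval fun μ => -cone p μ) (sy_tr J.1)
      simp only [map_sum, map_mul, aeval_X, map_zero] at this
      simp only [mul_left_comm _ (c J : ℂ), ← Finset.mul_sum, this, mul_zero]
    rw [Fin.sum_univ_succ, add_eq_zero_iff_eq_neg] at a
    have b : ‖p‖ * ‖W p 0‖ ≤ ∑ k, |p k| * ‖W p k.succ‖ := by
      refine (le_of_eq ?_).trans (((congrArg norm a).trans (norm_neg _)).trans_le
        (norm_sum_le_of_le _ fun k _ => le_of_eq ?_)) <;> simp [cone]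
    have := (pow_le_pow_left₀ (by positivity) b 2).trans (Finset.sum_mul_sq_le_sq_mul_sq _ _ _)
    simp only [sq_abs, ← nsq3, mul_pow] at this
    have := le_of_mul_le_mul_left this (by positivity)
    simp only [Fin.sum_univ_succ (n := 3), th, Fin.cons_zero, Fin.cons_succ, Pi.one_apply, one_mul]
    linarith
  have := h (∑ l, (∑ I : Jn n, (c I * ∏ r, th (I.1.2 r)) • syb I.1 l) *
    ∑ J : Jn n, (c J * (-1) ^ (J.1.1 + 1)) • syb J.1 l)
  rw [show Lc _ = ((∫ p : E3, (∑ l, th l * ‖W p l‖ ^ 2) * wg ‖p‖ : ℝ) : ℂ) by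
    simp only [Lc_apply, map_sum (aeval _) _ (Finset.univ : Finset (Fin 4)), map_mul, e1, e2,
      mul_assoc, Complex.conj_mul', ← integral_complex_ofReal]
    push_cast
    rfl, ← Complex.ofReal_mul, Complex.ofReal_inj] at this
  refine ((mul_nonneg κ0.le (integral_nonneg e3)).trans_eq this.symm).trans_eq ?_
  simp only [Finset.sum_mul_sum, smul_mul_smul_comm, map_sum, map_smul, smul_eq_mul]
  simp only [pr0_eq _ _ (show ee 0 ≠ 0 by simp [ee]), spr, map_sum, Finset.mul_sum]
  rw [Finset.sum_comm]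
  refine Finset.sum_congr rfl fun I _ => Finset.sum_comm.trans (Finset.sum_congr rfl fun J _ =>
    Finset.sum_congr rfl fun l _ => by ring)

theorem th_o : (diagonal th)ᵀ * diagonal th = (1 : ℝ) • 1 := by
  simp [diagonal_mul_diagonal, th_sq]

theorem th_ee : ac (diagonal th) (ee 0) = -ee 0 := by
  ext i
  refine Fin.cases ?_ (fun k => ?_) i <;> simp [ac, ee, th]

theorem one_symm (I J : Jx) :
    (∏ r, th (J.2 r)) * pr0 J I (ee 0) = (∏ r, th (I.2 r)) * pr0 I J (ee 0) := by
  have e : ee 0 ≠ 0 := by simp [ee]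
  have := pr_diag th th_sq one_ne_zero (d := 1) (I, 0) (J, 0) e
  rw [pr0, pr0, ← this, th_ee, pr_neg _ _ e, ← mul_assoc, ← mul_assoc, ← Finset.prod_mul_distrib]
  simp [th_sq]

/-- the reflected two point function is a Fischer product -/
theorem fp_fock (n : ℕ) : ∃ (m : ℕ) (σ : MvPolynomial (Jn n × Fin d) ℝ →ₐ[ℝ]
    MvPolynomial (Fin m × Fin d) ℝ), ∀ A B, fp ![rh (diagonal th) (rename (fun p => (p.1.1, p.2)) A),
      rename (fun p => (p.1.1, p.2)) B] ![ee 0, 0] = fis (σ A) (σ B) := by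
  classical
  have hv : ee 0 ≠ 0 := by simp [ee]
  obtain ⟨m, a, ha⟩ := posSemidef_iff_eq_sum_vecMulVec.1 (posSemidef_iff_dotProduct_mulVec.2
    ⟨show IsHermitian (of fun I J : Jn n => (∏ r, th (I.1.2 r)) * pr0 I J (ee 0)) from
      Matrix.ext fun I J => one_symm _ _, fun c => (one_pos' c).trans_eq (by
        simp only [dotProduct, mulVec, Finset.mul_sum, of_apply, star_trivial]
        exact Finset.sum_congr rfl fun _ _ => Finset.sum_congr rfl fun _ _ => by ring)⟩)
  replace ha (I J : Jn n) : (∏ r, th (I.1.2 r)) * pr0 I J (ee 0) = ∑ i, a i I * a i J := by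
    simpa [Matrix.sum_apply, vecMulVec_apply] using congrFun₂ ha I J
  let σ : MvPolynomial (Jn n × Fin d) ℝ →ₐ[ℝ] MvPolynomial (Fin m × Fin d) ℝ :=
    aeval fun p => ∑ i, a i p.1 • X (i, p.2)
  let ψ : MvPolynomial (Fin m × Fin d) ℝ →ₐ[ℝ] MvPolynomial (Jn n × Fin d) ℝ :=
    aeval fun p => ∑ J, a p.1 J • X (J, p.2)
  let e : Jn n × Fin d → Var d := fun p => (p.1.1, p.2)
  have hσ (p) : σ (X p) = ∑ i, a i p.1 • X (i, p.2) := aeval_X _ _
  have hψ (p) : ψ (X p) = ∑ J, a p.1 J • X (J, p.2) := aeval_X _ _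
  refine ⟨m, σ, fun A B => ?_⟩
  rw [fp_eq, Rn, Fin.prod_univ_two, cons_val_zero, cons_val_one, cons_val_zero, rename_rename,
    fis_adj σ ψ (fun p => hσ p ▸ Submodule.sum_mem _ fun _ _ => Submodule.smul_mem _ _ (X_mem_Lin _))
      (fun p => hψ p ▸ Submodule.sum_mem _ fun _ _ => Submodule.smul_mem _ _ (X_mem_Lin _))
      fun ⟨I, x⟩ ⟨i, y⟩ => by by_cases h : x = y <;> simp [hσ, hψ, fis_XX, h],
    ← AlgHom.comp_apply ψ]
  induction A using MvPolynomial.induction_on generalizing B with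
  | C x =>
    rw [rename_C, algHom_C, algebraMap_eq, rename_C, ← smul_eq_C_mul, map_smul, Ek, E_rename,
      E_zero (by ext; simp [sy, kr]), fis_C, smul_eq_mul]
    exact congrArg _ (DFunLike.congr_fun (ringHom_ext (g := constantCoeff.comp (ψ.comp σ).toRingHom)
      (fun a => by simp) fun p => by simp [hσ, hψ]) B)
  | add p q hp hq => simp only [map_add, add_mul, hp, hq, LinearMap.add_apply]
  | mul_X A u ih =>
    have k (q) : E (fun p q => kr ℝ ![ee 0, 0] p q / 2)
        (rename (Prod.mk 0) (rh (diagonal th) (X (e u))) * X q) =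
        (∏ r, th (u.1.1.2 r)) * kr ℝ ![ee 0, 0] (0, e u) q := by
      simp only [rh_diag, map_smul, rename_X, smul_mul_assoc, E_X_X, sy_kr, smul_eq_mul, e]
    rw [mul_comm A, map_mul (rename _), map_mul (rh _), map_mul (rename _), rename_X, mul_assoc, Ek,
      E_lin_mul (rename_Lin _ (by rw [rh_diag]; exact Submodule.smul_mem _ _ (X_mem_Lin _))),
      Derivation.leibniz, D_map (rename (Prod.mk 0)) (c' := 0) (fun q => by
        rw [rename_X, D_X, k]; simp [kr]),
      D_map (rename _) (c' := fun q => if u.2 = q.2 then ∑ i, a i u.1 * a i q.1 else 0) (fun q => by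
        rw [rename_X, D_X, k]
        simp [kr, hv, e, pr_col, ha]),
      show D (0 : Var d → ℝ) = 0 from derivation_ext fun q => by simp, fis_X, ← D_single,
      D_map (ψ.comp σ) (c' := fun q => if u.2 = q.2 then ∑ i, a i u.1 * a i q.1 else 0) fun q => by
        obtain ⟨I, x⟩ := u
        by_cases h : x = q.2 <;>
          simp [hσ, hψ, Pi.single_apply, h, C_eq_smul_one, eq_comm (a := q.2), mul_comm, smul_smul],
      ← ih]
    simp [Ek]

theorem ex_ren (s : Finset (Lb d ℝ)) : ∃ n, ∀ c ∈ s, ∃ A : MvPolynomial (Jn n × Fin d) ℝ,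
    rename (fun p => (p.1.1, p.2)) A = c := by
  classical
  refine ⟨s.sup fun c => c.vars.sup fun p => p.1.1, fun c hc =>
    exists_rename_eq_of_vars_subset_range c _
      (fun p q h => Prod.ext (Subtype.ext (Prod.ext_iff.1 h).1) (Prod.ext_iff.1 h).2)
      fun p hp => ⟨(⟨p.1, (Finset.le_sup (f := fun p : Var d => p.1.1) hp).trans
        (Finset.le_sup (f := fun c : Lb d ℝ => c.vars.sup fun p => p.1.1) hc)⟩, p.2), rfl⟩⟩

/-- reflection positivity and the Schwarz inequality -/
theorem fp_rp (b c : Lb d ℝ) : 0 ≤ fp ![rh (diagonal th) c, c] ![ee 0, 0] ∧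
    fp ![rh (diagonal th) b, c] ![ee 0, 0] ^ 2 ≤
      fp ![rh (diagonal th) b, b] ![ee 0, 0] * fp ![rh (diagonal th) c, c] ![ee 0, 0] := by
  classical
  obtain ⟨n, h⟩ := ex_ren {b, c}
  obtain ⟨B, rfl⟩ := h b (by simp)
  obtain ⟨A, rfl⟩ := h c (by simp)
  obtain ⟨m, σ, e⟩ := fp_fock (d := d) n
  have p (P : MvPolynomial (Fin m × Fin d) ℝ) : 0 ≤ fis P P := by
    by_cases h : P = 0
    exacts [by simp [h], (fis_pos h).le]
  simp only [e]
  refine ⟨p _, ?_⟩
  have := discrim_le_zero (a := fis (σ B) (σ B)) (b := 2 * fis (σ B) (σ A)) (c := fis (σ A) (σ A))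
    fun x => (p (x • σ B + σ A)).trans_eq (by
      simp only [map_add, map_smul, LinearMap.add_apply, LinearMap.smul_apply, smul_eq_mul,
        fis_symm (σ A) (σ B)]
      ring)
  rw [discrim] at this
  linarith

end Pool.Agent.Lib.MP_7f377f_mp.Zf
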