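import Pool.Agent.Lib.MP_7f377f_mp.G.ZfN1

/-! The fundamental solution is an integral over the light cone. -/

noncomputable section

namespace Pool.Agent.Lib.MP_7f377f_mp.Zf

open MvPolynomial MeasureTheory Filter Topology Matrix Set
open YZ (R4)

/-- spatial momenta -/
abbrev E3 : Type := EuclideanSpace ℝ (Fin 3)

/-- the light cone -/
def cone (p : E3) : Fin 4 → ℂ := Fin.cons (-‖p‖) fun k => Complex.I * p k

/-- the weight -/
def wg (r : ℝ) : ℝ := Real.exp (-r) / r

theorem wg_eq (m : ℕ) : EqOn (fun y : ℝ => y ^ (Module.finrank ℝ E3 - 1) • (y ^ m * wg y))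
    (fun y => Real.exp (-y) * y ^ ((m + 1 : ℕ) + 1 - 1 : ℝ)) (Ioi 0) := fun y (hy : 0 < y) => by
  simp only [add_sub_cancel_right, Real.rpow_natCast, finrank_euclideanSpace, Fintype.card_fin, wg,
    smul_eq_mul]
  field_simp
  ring

theorem rad_int (m : ℕ) : Integrable fun p : E3 => ‖p‖ ^ m * wg ‖p‖ :=
  (integrable_fun_norm_addHaar volume (f := fun r => r ^ m * wg r)).2
    ((Real.GammaIntegral_convergent (by positivity)).congr_fun (wg_eq m).symm measurableSet_Ioi)

theorem rad_val (m : ℕ) : ∫ p : E3, ‖p‖ ^ m * wg ‖p‖ =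
    3 * volume.real (Metric.ball (0 : E3) 1) * (m + 1).factorial := by
  rw [integral_fun_norm_addHaar volume fun r => r ^ m * wg r,
    setIntegral_congr_fun measurableSet_Ioi (wg_eq m), ← Real.Gamma_eq_integral (by positivity),
    Real.Gamma_nat_eq_factorial]
  simp [mul_assoc]

theorem cone_cont (μ : Fin 4) : Continuous fun p => cone p μ := by
  refine Fin.cases ?_ (fun k => ?_) μ <;> simp only [cone, Fin.cons_zero, Fin.cons_succ] <;> fun_prop

theorem cone_le (p : E3) (μ : Fin 4) : ‖cone p μ‖ ≤ ‖p‖ := by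
  refine Fin.cases (by simp [cone]) (fun k => ?_) μ
  simpa [cone] using PiLp.norm_apply_le p k

theorem cone_int (q : Pp) : Integrable fun p : E3 => aeval (cone p) q * (wg ‖p‖ : ℂ) := by
  have k (m : ℕ) : Integrable fun p : E3 => ((‖p‖ ^ m * wg ‖p‖ : ℝ) : ℂ) * aeval (cone p) q := by
    induction q using MvPolynomial.induction_on generalizing m with
    | C a => simp only [aeval_C]; exact (rad_int m).ofReal.mul_const _
    | add p q a b => simp only [map_add, mul_add]; exact (a m).add (b m)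
    | mul_X q μ a =>
      refine (a (m + 1)).mono ?_ (.of_forall fun p => ?_)
      · simp only [map_mul, aeval_X, ← mul_assoc]
        exact (a m).1.mul (cone_cont μ).aestronglyMeasurable
      · simp only [map_mul, aeval_X, norm_mul, Complex.norm_real, norm_pow, norm_norm, pow_succ]
        refine (mul_le_mul_of_nonneg_left (mul_le_mul_of_nonneg_left (cone_le p μ) (norm_nonneg _))
          (by positivity)).trans_eq (by ring)
  simpa [mul_comm] using k 0

/-- the integral over the light cone -/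
def Lc : Pp →ₗ[ℝ] ℂ where
  toFun q := ∫ p : E3, aeval (cone p) q * (wg ‖p‖ : ℂ)
  map_add' p q := by
    simp only [map_add, add_mul]
    exact integral_add (cone_int p) (cone_int q)
  map_smul' t q := by simp only [map_smul, smul_mul_assoc, integral_smul, RingHom.id_apply]

theorem Lc_apply (q : Pp) : Lc q = ∫ p : E3, aeval (cone p) q * (wg ‖p‖ : ℂ) := rfl

theorem nsq3 (p : E3) : ‖p‖ ^ 2 = ∑ i, p i ^ 2 := by
  rw [EuclideanSpace.norm_sq_eq]; simp

theorem Lc_sq (q : Pp) : Lc (sq4 * q) = 0 := by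
  have e (p : E3) : aeval (cone p) sq4 = 0 := by
    have := congrArg ((↑) : ℝ → ℂ) (nsq3 p)
    simp only [sq4, map_sum, map_mul, aeval_X]
    simp only [Fin.sum_univ_succ (n := 3), cone, Fin.cons_zero, Fin.cons_succ]
    simp only [Fin.sum_univ_three] at this ⊢
    push_cast at this
    linear_combination this + (p 0 ^ 2 + p 1 ^ 2 + p 2 ^ 2 : ℂ) * Complex.I_mul_I
  simp [Lc_apply, e]

theorem Lc_pow (n : ℕ) : Lc (X 0 ^ n) =
    ((-1) ^ n * (3 * volume.real (Metric.ball (0 : E3) 1) * (n + 1).factorial) : ℝ) := by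
  rw [← rad_val, ← integral_const_mul, ← integral_complex_ofReal, Lc_apply]
  simp [cone, neg_pow (‖_‖ : ℂ), mul_assoc]

theorem Dc_pow (n : ℕ) {t : ℝ} (ht : t ≠ 0) : Dc (t • ee 0) (X 0 ^ n) =
    (-1) ^ n * (n + 1).factorial / (4 * Real.pi ^ 2) * (t ^ (n + 2))⁻¹ := by
  induction n generalizing t with
  | zero => simp [Dc_one, G0, norm_smul, ee, mul_comm]
  | succ n ih =>
    have e := (((hasDerivAt_id' (0 : ℝ)).const_add t).fun_pow (n + 2)).fun_inv (by simpa using ht)
    rw [pow_succ', (Dc_line 0 _ (smul_ne_zero ht (by simp [ee]))).unique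
      ((e.const_mul _).congr_of_eventuallyEq ((show ContinuousAt (fun s : ℝ => t + s) 0 by
        fun_prop).eventually_ne (by simpa using ht) |>.mono fun s hs =>
          (congrArg (Dc · _) (add_smul _ _ _).symm).trans (ih hs))), Nat.factorial_succ (n + 1)]
    simp only [add_zero, show n + 2 - 1 = n + 1 from rfl]
    push_cast
    field_simp
    ring

/-- spatial matrices -/
def bl (c : ℝ) (h : Matrix (Fin 3) (Fin 3) ℝ) : Matrix (Fin 4) (Fin 4) ℝ :=
  of (Fin.cons (Fin.cons c 0) fun k => Fin.cons 0 (h k))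

theorem Lc_rot {h : Matrix (Fin 3) (Fin 3) ℝ} (o : h * hᵀ = 1) (q : Pp) :
    Lc (sb (bl 1 h) q) = Lc q := by
  let Q : E3 →ₗᵢ[ℝ] E3 := ⟨toLpLin 2 2 hᵀ, fun p => (sq_eq_sq₀ (norm_nonneg _) (norm_nonneg _)).1 (by
    have e (u : E3) : ‖u‖ ^ 2 = u.ofLp ⬝ᵥ u.ofLp := by rw [nsq3]; simp [dotProduct, sq]
    rw [e, e]
    show (hᵀ *ᵥ p.ofLp) ⬝ᵥ (hᵀ *ᵥ p.ofLp) = _
    rw [dotProduct_mulVec, vecMul_mulVec, transpose_transpose, o, vecMul_one])⟩
  rw [Lc_apply q, ← (Q.toLinearIsometryEquiv rfl).measurePreserving.integral_comp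
    (Q.toLinearIsometryEquiv rfl).toHomeomorph.measurableEmbedding, Lc_apply]
  refine integral_congr_ae (.of_forall fun p => ?_)
  have e : (fun μ => aeval (cone p) (∑ ν, bl 1 h ν μ • (X ν : Pp))) = cone (Q p) := funext fun μ => by
    refine Fin.cases ?_ (fun k => ?_) μ
    · simp [bl, Fin.sum_univ_succ (n := 3), cone]
    · simp [bl, Fin.sum_univ_succ (n := 3), cone, Q, mulVec, dotProduct, Finset.mul_sum,
        mul_left_comm]
  simp only [sb, ← AlgHom.comp_apply, comp_aeval, e, LinearIsometry.toLinearIsometryEquiv_apply,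
    Q.norm_map]

theorem Dc_rot {h : Matrix (Fin 3) (Fin 3) ℝ} (o : h * hᵀ = 1) (q : Pp) :
    Dc (ee 0) (sb (bl 1 h) q) = Dc (ee 0) q := by
  have e : mv (bl 1 h) (ee 0) = ee 0 := by
    ext i
    refine Fin.cases ?_ (fun k => ?_) i <;> simp [mv_apply, ac, ee, bl]
  have := Dc_cov (g := bl 1 h) (s := 1) (by
    ext i j
    have o' : hᵀ * h = 1 := mul_eq_one_comm.1 o
    induction i using Fin.cases <;> induction j using Fin.cases <;>
      simp [mul_apply, bl, Fin.sum_univ_succ (n := 3), one_apply, Fin.succ_ne_zero,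
        (Fin.succ_ne_zero _).symm]
    simpa [mul_apply, one_apply] using congrFun₂ o' _ _) one_ne_zero q
    (v := ee 0) (by simp [ee])
  rwa [e, inv_one, one_mul] at this

theorem sb_der {g : ℝ → Matrix (Fin 4) (Fin 4) ℝ} {w : Matrix (Fin 4) (Fin 4) ℝ} (h0 : g 0 = 1)
    (h : ∀ i j, HasDerivAt (fun t => g t i j) (w i j) 0) (q : Pp) (L : Pp →ₗ[ℝ] ℂ) :
    HasDerivAt (fun t => L (sb (g t) q)) (L (dw w q)) 0 := by
  have e (q : Pp) : sb 1 q = q := by simp [sb, one_apply]
  induction q using MvPolynomial.induction_on generalizing L with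
  | C a => simpa using hasDerivAt_const (0 : ℝ) _
  | add p q a b => simpa using (a L).fun_add (b L)
  | mul_X q μ a =>
    simp only [map_mul, show ∀ g, sb g (X μ) = _ from fun g => aeval_X _ _, Finset.mul_sum,
      mul_smul_comm, map_sum, map_smul]
    refine (HasDerivAt.fun_sum fun ν _ => (h ν μ).fun_smul
      (a (L ∘ₗ LinearMap.mulRight ℝ (X ν)))).congr_deriv ?_
    simp [h0, e, one_apply, dw_X, Finset.sum_add_distrib, Finset.mul_sum, mul_comm (X μ), add_comm]

theorem rot_inv {L : Pp →ₗ[ℝ] ℂ} (h : ∀ g : Matrix (Fin 3) (Fin 3) ℝ, g * gᵀ = 1 → ∀ q,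
    L (sb (bl 1 g) q) = L q) (a b : Fin 3) (q : Pp) :
    L (X a.succ * pderiv b.succ q - X b.succ * pderiv a.succ q) = 0 := by
  set w : Matrix (Fin 3) (Fin 3) ℝ := single a b 1 - single b a 1 with hw
  have w1 : wᵀ = -w := by simp [hw]
  have w3 : w * (w * w) = -w := by
    rw [hw]
    ext i j
    fin_cases a <;> fin_cases b <;> fin_cases i <;> fin_cases j <;>
      simp [mul_apply, single_apply]
  have := sb_der (g := fun t => bl 1 (1 + Real.sin t • w + (1 - Real.cos t) • (w * w)))
    (w := bl 0 w) (by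
      ext i j
      refine Fin.cases ?_ (fun k => ?_) i <;> refine Fin.cases ?_ (fun l => ?_) j <;>
        simp [bl, one_apply, Fin.succ_ne_zero, (Fin.succ_ne_zero _).symm]) (fun i j => by
      refine Fin.cases ?_ (fun k => ?_) i <;> refine Fin.cases ?_ (fun l => ?_) j
      iterate 3 exact hasDerivAt_const _ _
      simpa [bl] using (((Real.hasDerivAt_sin 0).mul_const (w k l)).const_add
        ((1 : Matrix _ _ ℝ) k l)).fun_add (((Real.hasDerivAt_cos 0).const_sub 1).mul_const
          ((w * w) k l))) q L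
  simp only [fun t => h (1 + Real.sin t • w + (1 - Real.cos t) • (w * w)) (by
    simp only [transpose_add, transpose_smul, transpose_mul, w1, transpose_one, add_mul, mul_add,
      Matrix.mul_smul, Matrix.smul_mul, Matrix.mul_neg, Matrix.neg_mul, neg_neg, Matrix.mul_one,
      Matrix.one_mul, Matrix.mul_assoc, w3]
    match_scalars <;> first | ring1 | linear_combination -Real.sin_sq_add_cos_sq t)] at this
  rw [← this.unique (hasDerivAt_const _ _)]
  refine congrArg L (DFunLike.congr_fun (derivation_ext (D₁ := (X a.succ : Pp) • pderiv b.succ -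
    (X b.succ : Pp) • pderiv a.succ) (D₂ := dw (bl 0 w)) fun μ => ?_) q :)
  refine Fin.cases ?_ (fun k => ?_) μ <;>
    simp [dw_X, bl, Fin.sum_univ_succ (n := 3), hw, single_apply, Pi.single_apply, sub_smul,
      (Fin.succ_ne_zero _).symm, ite_and, @eq_comm _ a, @eq_comm _ b]

theorem uniq {L : Pp →ₗ[ℝ] ℂ} (h1 : ∀ q, L (sq4 * q) = 0) (h2 : ∀ (a b : Fin 3) q,
    L (X a.succ * pderiv b.succ q - X b.succ * pderiv a.succ q) = 0) (h3 : ∀ n, L (X 0 ^ n) = 0)
    (q : Pp) : L q = 0 := by
  have k (n : ℕ) : ∀ α : Fin 4 →₀ ℕ, ∑ a : Fin 3, α a.succ = n → ∀ c, L (monomial α c) = 0 := by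
    induction n using Nat.strong_induction_on with
    | _ n ih =>
      rintro α rfl c
      by_cases e : ∀ b : Fin 3, α b.succ = 0
      · rw [show α = Finsupp.single 0 (α 0) from Finsupp.ext fun μ =>
          Fin.cases (by simp) (fun b => by simp [e]) μ, ← C_mul_X_pow_eq_monomial,
          ← smul_eq_C_mul, map_smul, h3, smul_zero]
      obtain ⟨b, e⟩ := not_forall.1 e
      obtain ⟨β, rfl⟩ := le_iff_exists_add.1 (Finsupp.single_le_iff.2 (Nat.one_le_iff_ne_zero.2 e))
      have e1 : ∑ a : Fin 3, (X a.succ * pderiv b.succ (X a.succ * monomial β c) -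
          X b.succ * pderiv a.succ (X a.succ * monomial β c)) =
          sq4 * pderiv b.succ (monomial β c) - X 0 * (X 0 * pderiv b.succ (monomial β c)) -
            ((∑ a : Fin 3, β a.succ) + 2 : ℕ) • (X b.succ * monomial β c) := by
        simp only [Derivation.leibniz, smul_eq_mul, X_mul_pderiv_monomial, pderiv_X,
          Pi.single_apply, Fin.succ_inj, sq4, Fin.sum_univ_succ (n := 3), Fin.sum_univ_three,
          nsmul_eq_mul, if_true]
        push_cast
        fin_cases b <;> simp <;> ring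
      have e2 := congrArg L e1
      rw [map_sum, Finset.sum_eq_zero fun a _ => h2 a b _, map_sub, map_sub, h1, pderiv_monomial,
        X, monomial_mul, monomial_mul, ih _ _ _ rfl, X, monomial_mul, map_nsmul, one_mul] at e2
      · simpa [-Nat.cast_add, -Nat.cast_sum] using e2
      · simp only [Finsupp.add_apply, Finset.sum_add_distrib, Finsupp.single_apply,
          (Fin.succ_ne_zero _).symm, if_false, Fin.succ_inj, Finset.sum_ite_eq,
          Finset.mem_univ, if_true, zero_add]
        exact Nat.lt_one_add_iff.2 (Finset.sum_le_sum fun a _ => Nat.sub_le _ _)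
  induction q using MvPolynomial.induction_on' with
  | monomial α c => exact k _ α rfl c
  | add p q a b => rw [map_add, a, b, add_zero]

/-- the spectral representation -/
theorem Dc_rep : ∃ κ : ℝ, 0 < κ ∧ ∀ q, (Dc (ee 0) q : ℂ) = κ * Lc q := by
  have v0 : 0 < volume.real (Metric.ball (0 : E3) 1) :=
    ENNReal.toReal_pos (Metric.measure_ball_pos _ _ one_pos).ne' measure_ball_lt_top.ne
  have := Real.pi_pos
  set κ := (4 * Real.pi ^ 2 * (3 * volume.real (Metric.ball (0 : E3) 1)))⁻¹ with hκ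
  refine ⟨κ, by positivity,
    fun q => sub_eq_zero.1 (uniq (L := Complex.ofRealLI.toLinearMap ∘ₗ Dc (ee 0) - κ • Lc)
      (fun q => by simp [Lc_sq, Dc_sq q (v := ee 0) (by simp [ee])])
      (rot_inv fun g o q => by simp [Lc_rot o, Dc_rot o]) (fun n => ?_) q :)⟩
  have := Dc_pow n one_ne_zero
  rw [one_smul] at this
  simp only [LinearMap.sub_apply, LinearMap.comp_apply, LinearMap.smul_apply, this, Lc_pow,
    Complex.real_smul, ← Complex.ofReal_mul]
  refine sub_eq_zero.2 ((Complex.ofRealLI_apply _).trans (congrArg ((↑) : ℝ → ℂ) ?_))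
  rw [hκ]
  field_simp
  simp

end Pool.Agent.Lib.MP_7f377f_mp.Zf
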