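import Pool.Agent.Lib.MP_7f377f_mp.G.ZgD
import Pool.Agent.Lib.MP_7f377f_mp.G.WxD

/-! Complex labels: null elements, weak embeddings of nets, the Wightman axioms. -/

noncomputable section

namespace Pool.Agent.Lib.MP_7f377f_mp.Zg
variable [Pool.Agent.Lib.MP_7f377f_mp.GD]
set_option linter.unusedSectionVars false

open MeasureTheory Filter Topology Set YM7 Pur Wm Lm Wv S3 Matrix Sw MvPolynomial Complex
open ComplexConjugate
open Ro (Iso)

variable {V P P' : Type} [CommRing P] [Algebra ℂ P] [CommRing P'] [Algebra ℂ P'] {N : Net P}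
  {N' : Net P'} {S W : P →ₗ[ℂ] ℂ} {K K' O : Set R4} {a b c a' b' : P} {Λ : P' →ₐ[ℂ] P}

/-- equality up to null elements -/
def Nu (N : Net P) (S : P →ₗ[ℂ] ℂ) (K : Set R4) (a b : P) : Prop :=
  a ∈ N.loc K ∧ b ∈ N.loc K ∧ ∀ Z ∈ N.loc Kᶜ, S (a * Z) = S (b * Z)

namespace Nu

theorem refl (h : a ∈ N.loc K) : Nu N S K a a := ⟨h, h, fun _ _ => rfl⟩

theorem symm (h : Nu N S K a b) : Nu N S K b a := ⟨h.2.1, h.1, fun Z hZ => (h.2.2 Z hZ).symm⟩

theorem trans (h : Nu N S K a b) (h' : Nu N S K b c) : Nu N S K a c :=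
  ⟨h.1, h'.2.1, fun Z hZ => (h.2.2 Z hZ).trans (h'.2.2 Z hZ)⟩

theorem mono (h : Nu N S K a b) (e : K ⊆ K') : Nu N S K' a b :=
  ⟨N.mono h.1 e, N.mono h.2.1 e, fun Z hZ => h.2.2 Z (N.mono hZ (compl_subset_compl.2 e))⟩

theorem add (h : Nu N S K a b) (h' : Nu N S K a' b') : Nu N S K (a + a') (b + b') :=
  ⟨add_mem h.1 h'.1, add_mem h.2.1 h'.2.1, fun Z hZ => by
    simp only [add_mul, map_add, h.2.2 Z hZ, h'.2.2 Z hZ]⟩

theorem smul (h : Nu N S K a b) (t : ℂ) : Nu N S K (t • a) (t • b) :=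
  ⟨Submodule.smul_mem _ _ h.1, Submodule.smul_mem _ _ h.2.1, fun Z hZ => by
    simp only [smul_mul_assoc, map_smul, h.2.2 Z hZ]⟩

theorem sum {ι : Type} {s : Finset ι} {a b : ι → P} (h : ∀ i ∈ s, Nu N S K (a i) (b i)) :
    Nu N S K (∑ i ∈ s, a i) (∑ i ∈ s, b i) :=
  ⟨sum_mem fun i e => (h i e).1, sum_mem fun i e => (h i e).2.1, fun Z hZ => by
    simp only [Finset.sum_mul, map_sum]
    exact Finset.sum_congr rfl fun i e => (h i e).2.2 Z hZ⟩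

theorem eq (h : Nu N S K a b) : S a = S b := by simpa using h.2.2 1 (N.one _)

theorem mul (h : Nu N S K a b) (h' : Nu N S K' a' b') (e : Disjoint K K') :
    Nu N S (K ∪ K') (a * a') (b * b') := by
  refine ⟨N.mul h.1 h'.1 e, N.mul h.2.1 h'.2.1 e, fun Z hZ => ?_⟩
  have k : ∀ {K K' u}, Disjoint K K' → Z ∈ N.loc (K ∪ K')ᶜ → u ∈ N.loc K' → u * Z ∈ N.loc Kᶜ :=
    fun e hZ hu => N.mono (N.mul hu hZ (disjoint_compl_right.mono_left subset_union_right))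
      (union_subset e.subset_compl_left (compl_subset_compl.2 subset_union_left))
  rw [mul_assoc, h.2.2 _ (k e hZ h'.1), mul_left_comm,
    h'.2.2 _ (k e.symm (union_comm K K' ▸ hZ) h.2.1), mul_left_comm, mul_assoc]

theorem prod {ι : Type} {K : ι → Set R4} (hK : Pairwise fun i j => Disjoint (K i) (K j))
    {a b : ι → P} (h : ∀ i, Nu N S (K i) (a i) (b i)) (s : Finset ι) (hO : ∀ i ∈ s, K i ⊆ O) :
    Nu N S O (∏ i ∈ s, a i) (∏ i ∈ s, b i) := by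
  classical
  refine mono (K := ⋃ i ∈ s, K i) ?_ (iUnion₂_subset hO)
  clear hO
  induction s using Finset.induction_on with
  | empty => exact refl (N.one _)
  | insert i s hi ih =>
    rw [Finset.prod_insert hi, Finset.prod_insert hi, Finset.set_biUnion_insert]
    exact (h i).mul ih (disjoint_iUnion₂_right.2 fun j hj => hK (by rintro rfl; exact hi hj))

end Nu

/-- embeddings up to null elements -/
structure Wem (N' : Net P') (N : Net P) (W : P →ₗ[ℂ] ℂ) (Λ : P' →ₐ[ℂ] P) : Prop where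
  τ : ∀ v X, Λ (N'.τ v X) = N.τ v (Λ X)
  Θ : ∀ μ {O X}, X ∈ N'.loc O → Nu N W {y | rf μ y ∈ O} (Λ (N'.Θ μ X)) (N.Θ μ (Λ X))
  mem : ∀ {O X}, X ∈ N'.loc O → Λ X ∈ N.loc O
  sur : ∀ {O X}, X ∈ N.loc O → ∃ X' ∈ N'.loc O, Nu N W O (Λ X') X

theorem hs_compl (μ : Fin 4) {t : ℝ} (ht : 0 ≤ t) : Hs μ t ⊆ {y | rf μ y ∈ Hs μ t}ᶜ :=
  fun y e e' => by
    simp only [Hs, mem_ofPred_eq, rf_self] at e e'
    linarith

namespace Wem
variable (h : Wem N' N W Λ) {μ : Fin 4} {X Y : P'}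
include h

theorem inn (hX : X ∈ N'.loc (Hs μ 0)) (hY : Y ∈ N'.loc (Hs μ 0)) :
    W (Λ (N'.Θ μ X * Y)) = W (N.Θ μ (Λ X) * Λ Y) :=
  map_mul Λ _ _ ▸ (h.Θ μ hX).2.2 _ (N.mono (h.mem hY) (hs_compl μ le_rfl))

theorem nq (hX : X ∈ N'.loc (Hs μ 0)) : N'.nq (W ∘ₗ Λ.toLinearMap) μ X = N.nq W μ (Λ X) :=
  congrArg re (h.inn hX hX)

theorem st (hS : N.St W) : N'.St (W ∘ₗ Λ.toLinearMap) where
  one := by simpa using hS.one
  ti v hX := by simpa [h.τ] using hS.ti v (h.mem hX)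
  herm μ hX := (h.Θ μ hX).eq.trans (hS.herm μ (h.mem hX))
  pos μ hX := h.nq hX ▸ hS.pos μ (h.mem hX)
  con μ hX hv := by
    rw [h.nq hX, h.nq (Net.τ_hs hX (by rwa [zero_add])), h.τ]
    exact hS.con μ (h.mem hX) hv

theorem qb {R c : ℝ} (hX : X ∈ N'.loc (Bx R)) (hQ : N.QB W (Λ X) R c) :
    N'.QB (W ∘ₗ Λ.toLinearMap) X R c :=
  ⟨hX, hQ.2.1, hQ.2.2.1, fun μ b hb => by
    rw [h.nq (N'.mono hb (Ot.hs μ le_rfl)),
      h.nq (Net.qb_hs hX (Net.dg_ot hb) hQ.2.1 (by simp)), h.τ, map_mul, h.τ]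
    exact hQ.2.2.2 μ _ (h.mem hb)⟩

/-- the representation of the embedded net -/
def rep {H : Type} [NormedAddCommGroup H] [InnerProductSpace ℂ H] (r : N.Rep W μ H) :
    N'.Rep (W ∘ₗ Λ.toLinearMap) μ H where
  Ψ := r.Ψ ∘ₗ Λ.toLinearMap
  T := r.T
  inn hX hY := (r.inn (h.mem hX) (h.mem hY)).trans (h.inn hX hY).symm
  dense := r.dense.mono (by
    rintro _ ⟨X, rfl⟩
    obtain ⟨X', a, b⟩ := h.sur X.2
    refine ⟨⟨X', a⟩, r.ext fun Y hY => (r.inn hY b.1).trans (.trans ?_ (r.inn hY X.2).symm)⟩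
    rw [mul_comm, b.2.2 _ (N.mono (N.Θ_mem μ hY) (subset_compl_comm.1 (hs_compl μ le_rfl))),
      mul_comm])
  nrm := r.nrm
  act hv hX := (r.act hv (h.mem hX)).trans (congrArg _ (h.τ _ _).symm)

end Wem

variable [NormedAddCommGroup V] [NormedSpace ℝ V] {y : V → (R4 → ℝ) → P} {θ : Fin 4 → V → V}
  {k : ℕ} {g : R4 → ℝ}

variable (N y S) in
/-- real linearity in the label -/
def Lc : Prop := ∀ (t : ℝ) a b g, C1 univ g → ∀ Z ∈ N.loc (tsupport g)ᶜ,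
  S (y (t • a + b) g * Z) = t * S (y a g * Z) + S (y b g * Z)

variable (N y S) in
/-- the label `0` is null -/
def Zr : Prop := ∀ g, C1 univ g → Nu N S (tsupport g) (y 0 g) 0

theorem c1s (h : C1 O g) : C1 (tsupport g) g := ⟨h.1, h.2.1, subset_rfl⟩

theorem c1u (h : C1 O g) : C1 univ g := ⟨h.1, h.2.1, subset_univ _⟩

theorem Lc.nu (h : Lc N S y) (hG : Gen N y θ) (hg : C1 O g) (t : ℝ) (a b : V) :
    Nu N S (tsupport g) (y (t • a + b) g) ((t : ℂ) • y a g + y b g) :=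
  have m := Wx.c1_mem hG (c1s hg)
  ⟨m _, add_mem (Submodule.smul_mem _ _ (m _)) (m _), fun Z hZ => by
    simp only [h t a b g (c1u hg) Z hZ, add_mul, smul_mul_assoc, map_add, map_smul, smul_eq_mul]⟩

theorem Lc.zr (h : Lc N S y) (hG : Gen N y θ) : Zr N S y := fun g hg => by
  simpa using h.nu hG hg (-1) 0 0

theorem Lc.smul (h : Lc N S y) (hG : Gen N y θ) (hg : C1 O g) (t : ℝ) (a : V) :
    Nu N S (tsupport g) (y (t • a) g) ((t : ℂ) • y a g) := by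
  simpa using (h.nu hG hg t a 0).trans
    (((Nu.refl (Wx.c1_mem hG (c1s hg) a)).smul t).add (h.zr hG g (c1u hg)))

theorem upd [DecidableEq (Fin k)] (c : Fin k → V) (f : Fin k → R4 → ℝ) (i : Fin k) (a : V) :
    ∏ j, y (Function.update c i a j) (f j) =
      y a (f i) * ∏ j ∈ Finset.univ.erase i, y (c j) (f j) := by
  rw [← Finset.mul_prod_erase _ _ (Finset.mem_univ i), Function.update_self]
  exact congrArg _ (Finset.prod_congr rfl fun j e => by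
    rw [Function.update_of_ne (Finset.ne_of_mem_erase e)])

theorem rest [DecidableEq (Fin k)] (hG : Gen N y θ) (c : Fin k → V) {f : Fin k → R4 → ℝ}
    (hf : Adm f) (i : Fin k) :
    ∏ j ∈ Finset.univ.erase i, y (c j) (f j) ∈ N.loc (tsupport (f i))ᶜ :=
  (Nu.prod (S := 0) hf.2 (fun j => .refl (Wx.c1_mem hG (Wx.c1_of hf j) (c j))) _ fun _ e =>
    (hf.2 (Finset.ne_of_mem_erase e)).subset_compl_right).1

theorem Lc.ml (h : Lc N S y) (hG : Gen N y θ) : Ml (Zo.cor y S) := fun k f hf =>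
  ⟨⟨fun c => S (∏ i, y (c i) (f i)), fun c i a b => by
    simpa only [upd, one_smul, ofReal_one, one_mul] using
      h 1 a b _ (c1u (Wx.c1_of hf i)) _ (rest hG c hf i), fun c i t a => by
    simpa only [upd, smul_mul_assoc, map_smul, real_smul, smul_eq_mul] using
      (h.smul hG (Wx.c1_of hf i) t a).2.2 _ (rest hG c hf i)⟩, fun _ => rfl⟩

variable {V' : Type} {q : Fin 2 → V' → V}

variable (y q) in
/-- the field with a complex label -/
def xc (c : V') (f : R4 → ℝ) : P := ∑ b : Fin 2, I ^ (b : ℕ) • y (q b c) f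

theorem xc_eq (c : V') (f : R4 → ℝ) : xc y q c f = y (q 0 c) f + I • y (q 1 c) f := by simp [xc]

theorem xc_prod (c : Fin k → V') (f : Fin k → R4 → ℝ) : ∏ i, xc y q (c i) (f i) =
    ∑ s : Fin k → Fin 2, (∏ i, I ^ (s i : ℕ)) • ∏ i, y (q (s i) (c i)) (f i) := by
  simp only [xc, Finset.prod_univ_sum, Fintype.piFinset_univ, Finset.prod_smul]

theorem xc_mem (hG : Gen N y θ) (hg : C1 O g) (c : V') : xc y q c g ∈ N.loc O :=
  sum_mem fun _ _ => Submodule.smul_mem _ _ (Wx.c1_mem hG hg _)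

theorem Zr.xc (h : Zr N S y) (hG : Gen N y θ) (hg : C1 O g) {c : V'} (e : q 1 c = 0) :
    Nu N S (tsupport g) (xc y q c g) (y (q 0 c) g) := by
  rw [xc_eq, e]
  simpa using (Nu.refl (Wx.c1_mem hG (c1s hg) (q 0 c))).add ((h g (c1u hg)).smul I)

theorem c1_rf (hg : C1 O g) (μ : Fin 4) : C1 {y | rf μ y ∈ O} fun y => g (rf μ y) := by
  have := adm_rf (f := fun _ : Fin 1 => g) ⟨fun _ => ⟨hg.1, hg.2.1⟩, Subsingleton.pairwise⟩ μ
  exact ⟨(this.1 0).1, (this.1 0).2, fun _ e =>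
    hg.2.2 (tsupport_comp (rfL_eq μ ▸ (rfL μ).continuous) e)⟩

variable (y q) in
/-- the substitution of the fields -/
def sb : Wv.PolL V' →ₐ[ℂ] P := aeval fun p => xc y q p.1 p.2

theorem sb_x (c : V') (f : R4 → ℝ) : sb y q (xL c f) = xc y q c f := aeval_X _ _

variable {θ' : Fin 4 → V' → V'} {h1 : ∀ μ c, θ' μ (θ' μ c) = c}
  {h2 : ∀ μ ν c, θ' μ (θ' ν c) = θ' ν (θ' μ c)}

theorem sb_mem (hG : Gen N y θ) {X : Wv.PolL V'} (hX : X ∈ (Wv.netL h1 h2).loc O) :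
    sb y q X ∈ N.loc O := by
  obtain ⟨m, t, k, c, f, f1, f2, rfl⟩ := Wx.exists_sum (gen_L h1 h2) hX
  simp only [map_sum, map_smul, map_prod, sb_x]
  exact sum_mem fun j _ => Submodule.smul_mem _ _ (Nu.prod (S := 0) (f1 j).2
    (fun i => .refl (xc_mem hG (Wx.c1_of (f1 j) i) _)) _ fun i _ => f2 j i).1

theorem Zr.sur (h : Zr N S y) (hG : Gen N y θ) {σ : V → V'} (s0 : ∀ v, q 0 (σ v) = v ∧ q 1 (σ v) = 0)
    (s1 : ∀ μ c, q 0 (θ' μ c) = θ μ (q 0 c) ∧ q 1 (θ' μ c) = -θ μ (q 1 c)) (s2 : ∀ μ, θ μ 0 = 0)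
    {X : P} (hX : X ∈ N.loc O) : ∃ X' ∈ (Wv.netL h1 h2).loc O, Nu N S O (sb y q X') X ∧ ∀ μ,
      Nu N S {y | rf μ y ∈ O} (sb y q ((Wv.netL h1 h2).Θ μ X')) (N.Θ μ X) := by
  obtain ⟨m, t, k, c, f, f1, f2, rfl⟩ := Wx.exists_sum hG hX
  refine ⟨∑ j, t j • ∏ i, xL (σ (c j i)) (f j i), sum_mem fun j _ => Submodule.smul_mem _ _
    (gen_mem (gen_L h1 h2) _ (f1 j) (f2 j)), ?_, fun μ => ?_⟩
  · simp only [map_sum, map_smul, map_prod, sb_x]
    exact .sum fun j _ => (Nu.prod (f1 j).2 (fun i => by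
      simpa only [s0] using h.xc hG (Wx.c1_of (f1 j) i) (s0 (c j i)).2) _ fun i _ => f2 j i).smul _
  · simp only [map_sum, Net.Θ_smul, map_smul, map_prod, (gen_L h1 h2).refl, hG.refl, sb_x]
    exact .sum fun j _ => (Nu.prod (adm_rf (f1 j) μ).2 (fun i => by
      simpa only [s0, s1] using h.xc (q := q) hG (c1_rf (Wx.c1_of (f1 j) i) μ)
        (c := θ' μ (σ (c j i))) (by rw [(s1 _ _).2, (s0 _).2, s2, neg_zero])) _ fun i _ =>
          (c1_rf (O := O) ⟨((f1 j).1 i).1, ((f1 j).1 i).2, f2 j i⟩ μ).2.2).smul _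

theorem Lc.wem (h : Lc N W y) (hG : Gen N y θ) {σ : V → V'}
    (s0 : ∀ v, q 0 (σ v) = v ∧ q 1 (σ v) = 0)
    (s1 : ∀ μ c, q 0 (θ' μ c) = θ μ (q 0 c) ∧ q 1 (θ' μ c) = -θ μ (q 1 c)) (s2 : ∀ μ, θ μ 0 = 0) :
    Wem (Wv.netL h1 h2) N W (sb y q) where
  τ v := AlgHom.congr_fun (φ₁ := (sb y q).comp ((Wv.netL h1 h2).τ v)) (φ₂ := (N.τ v).comp (sb y q))
    (algHom_ext fun p => by
      change sb y q ((Wv.netL h1 h2).τ v (xL _ _)) = N.τ v (sb y q (xL _ _))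
      simp only [(gen_L h1 h2).tau, sb_x, xc, map_sum, map_smul, hG.tau])
  Θ μ O X hX := by
    obtain ⟨m, t, k, c, f, f1, f2, rfl⟩ := Wx.exists_sum (gen_L h1 h2) hX
    simp only [map_sum, Net.Θ_smul, map_smul, map_prod, (gen_L h1 h2).refl, sb_x]
    refine .sum fun j _ => (Nu.prod (adm_rf (f1 j) μ).2 (fun i => ?_) _ fun i _ =>
      (c1_rf (O := O) ⟨((f1 j).1 i).1, ((f1 j).1 i).2, f2 j i⟩ μ).2.2).smul _
    have e := c1_rf (Wx.c1_of (f1 j) i) μ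
    simpa only [xc_eq, s1, map_add, Net.Θ_smul, hG.refl, conj_I, neg_smul, one_smul, ofReal_neg,
      ofReal_one, smul_neg] using
      (Nu.refl (Wx.c1_mem hG (c1s e) _)).add ((h.smul hG e (-1) (θ μ (q 1 (c j i)))).smul I)
  mem := sb_mem hG
  sur hX := ((h.zr hG).sur hG s0 s1 s2 hX).imp fun _ e => ⟨e.1, e.2.1⟩

variable [AddCommGroup V'] [Module ℂ V'] [InvolutiveStar V'] {ρ' : CM → V' → V'}
  {ρ : Iso →* V →ₗ[ℝ] V}

/-- real and imaginary parts of complex labels -/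
structure Cx (ρ' : CM → V' → V') (ρ : Iso →* V →ₗ[ℝ] V) (q : Fin 2 → V' → V) (σ : V → V') :
    Prop where
  rq : Rq ρ'
  lin : ∀ (t : ℂ) a b, q 0 (t • a + b) = t.re • q 0 a + (-t.im • q 1 a + q 0 b) ∧
    q 1 (t • a + b) = t.im • q 0 a + (t.re • q 1 a + q 1 b)
  star : ∀ c, q 0 (star c) = q 0 c ∧ q 1 (star c) = -q 1 c
  rot : ∀ R b c, q b (rE ρ' R c) = ρ R (q b c)
  sec : ∀ v, q 0 (σ v) = v ∧ q 1 (σ v) = 0

variable {σ : V → V'}

theorem Cx.te (h : Cx ρ' ρ q σ) (μ c) : q 0 (tE ρ' μ c) = ρ (rfL μ) (q 0 c) ∧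
    q 1 (tE ρ' μ c) = -ρ (rfL μ) (q 1 c) := by simp only [tE, h.rot, h.star, map_neg, and_self]

theorem _root_.Pool.Agent.Lib.MP_7f377f_mp.Wv.Rq.inv (h : Rq ρ') :
    (∀ μ c, tE ρ' μ (tE ρ' μ c) = c) ∧ ∀ μ ν c, tE ρ' μ (tE ρ' ν c) = tE ρ' ν (tE ρ' μ c) := by
  simp only [tE, rE, h.star, cm_star, star_star, ← h.mul, ← cm_mul, ← mat_mul]
  refine ⟨fun μ c => by rw [Lg.PI.rfL_mul, mat_one, cm_one, h.one], fun μ ν c => ?_⟩
  congr 3
  ext1 y
  simp only [LinearIsometryEquiv.coe_mul, Function.comp_apply, rfL_eq, Wv.rf_comm μ]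

theorem Cx.wight (h : Cx ρ' ρ q σ) (hG : Gen N y fun μ => ρ (rfL μ)) (hS : N.St W) (hL : LinF N y W)
    (hC : Lc N W y) (hQ : Q1L N y W) (hB : Wx.BdW y W) (hR : RotL y W fun R => ρ R) (hV : N.Vac W)
    {c₀ : V'} (hc : tE ρ' 0 c₀ = c₀) (c1 : q 1 c₀ = 0) {γ : ℝ} (hγ : γ ≠ 0)
    (af : ∀ k (f : Fin k → R4 → ℝ), Adm f → Tendsto
      (fun t : ℝ => (Real.log t⁻¹ : ℂ) ^ k * W (∏ i, y (q 0 c₀) fun z => f i (t⁻¹ • z))) (𝓝[>] 0)
      (𝓝 (γ ^ k * ∫ z : Fin k → R4, (∏ i, f i (z i)) * free z : ℝ))) :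
    WA.WightmanL (fun L => ρ' (L.map (↑))) (ρ' (diagonal ![I, 1, 1, 1])) (fun _ => Adm)
      fun _ a f => W (∏ i, xc y q (a i) (f i)) := by
  have e : Wem (Wv.netL h.rq.inv.1 h.rq.inv.2) N W (sb y q) :=
    hC.wem hG h.sec h.te fun _ => map_zero _
  have g := gen_L h.rq.inv.1 h.rq.inv.2
  obtain ⟨H, _, _, _, r, r1, r2, r3⟩ := Wx.rep_of hG hS hL hB hR hV
  have : 0 < GD.d := GD.d3.trans_lt' three_pos
  have := core_inf (W₀ := W ∘ₗ (aeval (y (q 0 c₀))).toLinearMap) h.rq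
    ⟨g, e.st hS, fun c g g' t a a' Z hZ => ?_, fun t a b g hg Z hZ => ?_, ?_, fun R d k a f hf => ?_⟩
    (e.rep r) r1 r2 (by simpa [Wem.rep] using r3) hc (fun k f hf => ?_) hγ (by positivity)
    YM5.free_two (by simpa [mon] using af)
  · simpa [sb_x] using this
  · simp only [LinearMap.comp_apply, AlgHom.toLinearMap_apply, map_mul, sb_x, xc_eq, add_mul,
      smul_mul_assoc, map_add, map_smul, hL _ g g' t a a' _ (e.mem hZ), smul_eq_mul]
    ring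
  · simp only [LinearMap.comp_apply, AlgHom.toLinearMap_apply, map_mul, sb_x, xc_eq, add_mul,
      smul_mul_assoc, map_add, map_smul, h.lin, hC _ _ _ g hg _ (e.mem hZ), smul_eq_mul]
    conv_rhs => rw [← re_add_im t]
    push_cast
    ring_nf
    simp only [I_sq]
    ring
  · obtain ⟨K, k1, k2⟩ := hQ
    refine ⟨K, k1, fun c => ?_⟩
    obtain ⟨C, s, c0, b⟩ := k2 (q 0 c)
    obtain ⟨C', s', c0', b'⟩ := k2 (q 1 c)
    refine ⟨C + C', s + s', by positivity, fun d hd u L u1 u2 => ?_⟩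
    have d0 := hd.1
    have w : ∀ {C : ℝ} {s n : ℕ}, 0 ≤ C → s ≤ n → C / d ^ s ≤ C / d ^ n := fun c e =>
      div_le_div_of_nonneg_left c (by positivity) (pow_le_pow_of_le_one d0.le hd.2 e)
    refine e.qb (Wx.c1_mem g ⟨u1.1, u1.2.1, u1.2.2.trans (Bx.mono (by nlinarith))⟩ _) ?_
    rw [sb_x, xc_eq]
    refine ((b d hd u L u1 u2).add hS ((b' d hd u L u1 u2).smul I)).mono hS le_rfl ?_
    rw [norm_I, one_mul, ← add_mul, add_div]
    exact mul_le_mul_of_nonneg_right (add_le_add (w c0 le_self_add) (w c0' le_add_self)) L.2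
  · simp only [LinearMap.comp_apply, AlgHom.toLinearMap_apply, map_prod, sb_x, xc_prod, map_sum,
      map_smul, h.rot, hR R d k _ f hf]
  · simpa [sb_x, mon] using (Nu.prod hf.2 (fun i => (hC.zr hG).xc hG (Wx.c1_of hf i) c1) _
      fun _ _ => subset_univ _).eq

end Pool.Agent.Lib.MP_7f377f_mp.Zg
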