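import Pool.Agent.Lib.MP_7f377f_mp.G.ZgC
import Pool.Agent.Lib.MP_7f377f_mp.G.ZgB

/-! Complex labels: the renormalisation, asymptotic freedom, the Wightman axioms. -/

noncomputable section

namespace Pool.Agent.Lib.MP_7f377f_mp.Zg
variable [Pool.Agent.Lib.MP_7f377f_mp.GD]
set_option linter.unusedSectionVars false

open MeasureTheory Filter Topology Set YM7 Pur Wm Lm Wv S3 Matrix Sw MvPolynomial Complex
open ComplexConjugate
open Ro (Iso)
open YZ (Lab rho FF lag)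

variable {V : Type} [NormedAddCommGroup V] [NormedSpace ℝ V] {Φ : Fil V} {ρ : Iso →* V →ₗ[ℝ] V}
  {S S₀ : Cor V} {d k : ℕ} {L : Subalgebra ℂ (Lab d)} {p : Fin 2 → Lab d →ₗ[ℝ] V}
  {inc : V →ₗ[ℝ] Lab d} {lg : V} {t0 : Fin 4 → Fin 4 → V} {c : Lab d} {sc : ℝ → V →ₗ[ℝ] V}

theorem fil_ext {E : Type} [AddCommGroup E] [Module ℝ E] (Φ : Fil V) {F G : V →ₗ[ℝ] E}
    (h : ∀ n v, F (Φ.π n v) = G (Φ.π n v)) (v : V) : F v = G v := by
  obtain ⟨D, hD⟩ := Φ.ex v
  rw [← Φ.π_sum hD]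
  simp only [map_sum, h]

theorem fil_up {F : V →ₗ[ℝ] V} (h : ∀ n v, F (Φ.π n v) ∈ Φ.F n) : Φ.Up 0 F := fun D v hv => by
  rw [← Φ.π_sum hv, map_sum]
  exact sum_mem fun n e => Φ.mono (by simp at e; omega) (h n v)

theorem fil_lim {ι : Type} {l : Filter ι} {u : ι → V} {v : V} {D : ℕ} (h1 : ∀ t, u t ∈ Φ.F D)
    (h : Tendsto u l (𝓝 v)) (hv : v ∈ Φ.F D) (F : V →ₗ[ℝ] ℂ) :
    Tendsto (fun t => F (u t)) l (𝓝 (F v)) :=
  have := Φ.fin D
  ((F ∘ₗ (Φ.F D).subtype).continuous_of_finiteDimensional.tendsto ⟨v, hv⟩).comp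
    (tendsto_subtype_rng.2 h : Tendsto (fun t => (⟨u t, h1 t⟩ : Φ.F D)) l _)

theorem rho_mul (g g' : CM) (c : Lab d) : rho (g * g') c = rho g (rho g' c) := Zf.rh_mul g g' c

theorem rho_star (g : CM) (c : Lab d) : map conj (rho g c) = rho (g.map star) (map conj c) :=
  RingHom.congr_fun (f := (MvPolynomial.map conj).comp (rho g).toRingHom)
    (g := (rho (g.map star)).toRingHom.comp (MvPolynomial.map conj))
    (ringHom_ext (by simp) fun q => by simp [rho, smul_eq_C_mul]) c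

theorem rho_fin (c : Lab d) : ∃ (ι : Type) (_ : Fintype ι) (q : ι → (Fin 4 → Fin 4 → ℂ) → ℂ)
    (v : ι → Lab d), (∀ i, Differentiable ℂ (q i)) ∧ ∀ g, rho g c = ∑ i, q i g • v i := by
  induction c using MvPolynomial.induction_on with
  | C a => exact ⟨Unit, inferInstance, fun _ _ => 1, fun _ => C a, by fun_prop, by simp⟩
  | add a b ha hb =>
    obtain ⟨ι, _, q, v, h1, h2⟩ := ha
    obtain ⟨κ, _, q', v', h3, h4⟩ := hb
    exact ⟨ι ⊕ κ, inferInstance, Sum.elim q q', Sum.elim v v', Sum.rec h1 h3, by simp [h2, h4]⟩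
  | mul_X a s ha =>
    obtain ⟨ι, _, q, v, h1, h2⟩ := ha
    refine ⟨ι × (Fin (s.1.1 + 2) → Fin 4), inferInstance, fun j g => q j.1 g * ∏ r, g (j.2 r) (s.1.2 r),
      fun j => v j.1 * X (⟨s.1.1, j.2⟩, s.2), by fun_prop, fun g => ?_⟩
    rw [map_mul, h2]
    simp only [rho, aeval_X, Finset.sum_mul_sum, smul_mul_smul_comm, Fintype.sum_prod_type]

theorem star_smul' (t : ℂ) (c : Lab d) : map conj (t • c) = conj t • map conj c := by
  simp [smul_eq_C_mul]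

variable (p inc) in
/-- the complexification of a real linear map -/
def cx (F : V →ₗ[ℝ] V) (c : Lab d) : Lab d := inc (F (p 0 c)) + I • inc (F (p 1 c))

variable (L p) in
/-- `T` is the complex multilinear extension of `S` -/
def Ext (T : YZ.Cor d) (S : Cor V) : Prop :=
  ∀ k (c : Fin k → Lab d) f, (∀ i, c i ∈ L) → Adm f → T k c f = ext S p k c f

namespace Br
variable (h : Br Φ ρ S₀ L p inc lg t0)
include h

theorem p_smul (hc : c ∈ L) (t : ℂ) : p 0 (t • c) = t.re • p 0 c + -t.im • p 1 c ∧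
    p 1 (t • c) = t.im • p 0 c + t.re • p 1 c := by
  have : t • c = t.re • c + t.im • I • c := by
    conv_lhs => rw [← re_add_im t, add_smul, mul_smul]
    rfl
  simp only [this, map_add, map_smul, h.p_I c hc, smul_neg, neg_smul, add_comm, and_self]

theorem p_cx (F : V →ₗ[ℝ] V) (b : Fin 2) (c : Lab d) : p b (cx p inc F c) = F (p b c) := by
  fin_cases b <;> simp [cx, h.p_I _ (h.mem _), h.p_inc]

theorem cx_mem (F : V →ₗ[ℝ] V) (c : Lab d) : cx p inc F c ∈ L :=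
  add_mem (h.mem _) (L.smul_mem (h.mem _) _)

theorem p_rho {g : Mat} {s : ℝ} (hg : gᵀ * g = s • 1) {G : V →ₗ[ℝ] V}
    (hG : ∀ v, rho (cm g) (inc v) = inc (G v)) (hc : c ∈ L) (b : Fin 2) :
    p b (rho (cm g) c) = G (p b c) := by
  have := h.nul g s hg (c - cx p inc .id c) (sub_mem hc (h.cx_mem _ _))
    (fun b => by simp [h.p_cx]) b
  rw [map_sub, map_sub, sub_eq_zero, cx, map_add, map_smul, hG, hG] at this
  exact this.trans (h.p_cx G b c)

theorem conf {g : Mat} {s : ℝ} (hg : gᵀ * g = s • 1) : ∃ G : V →ₗ[ℝ] V,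
    (∀ v, rho (cm g) (inc v) = inc (G v)) ∧ ∃ (l : ℝ) (R : Iso), g = l • mat R ∧
      ∀ n v, G (Φ.π n v) = l ^ n • Φ.π n (ρ R v) := by
  obtain ⟨l, R, e, rfl⟩ := Zf.conf hg
  obtain ⟨Q, rfl⟩ := ex_iso e
  have a : ∀ n v, rho (cm ((l • 1) * mat Q)) (inc (Φ.π n v)) = inc (l ^ n • Φ.π n (ρ Q v)) :=
    fun n v => by
      rw [cm_mul, rho_mul, h.rot, ← h.gr, show cm (l • 1) = (l : ℂ) • 1 by
        ext i j
        by_cases e : i = j <;> simp [e], h.hom, map_smul, ← ofReal_pow]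
      rfl
  let r := (rho (d := d) (cm ((l • 1) * mat Q))).toLinearMap.restrictScalars ℝ ∘ₗ inc
  have b : ∀ n v, (p 0 ∘ₗ r) (Φ.π n v) = l ^ n • Φ.π n (ρ Q v) := fun n v =>
    (congrArg _ (a n v)).trans (h.p_inc _).1
  exact ⟨p 0 ∘ₗ r, fil_ext Φ (F := r) (G := inc ∘ₗ p 0 ∘ₗ r) fun n v =>
    (a n v).trans (congrArg _ (b n v).symm), l, Q, by simp, b⟩

theorem p_sc (hs : Zo.Sc Φ S₀ sc) {t : ℝ} (ht : 0 < t) (hc : c ∈ L) (b : Fin 2) :
    p b (rho ((t : ℂ) • 1) c) = t ^ 4 • sc t (p b c) := by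
  have e : (t : ℂ) • (1 : CM) = cm (t • 1) := by
    ext i j
    by_cases e : i = j <;> simp [e]
  rw [e]
  refine h.p_rho (smul_o t) (G := t ^ 4 • sc t) (fil_ext Φ
    (F := (rho (cm (t • 1))).toLinearMap.restrictScalars ℝ ∘ₗ inc) (G := inc ∘ₗ (t ^ 4 • sc t))
    fun n v => (e ▸ h.hom t n v).trans ?_) hc b
  rw [LinearMap.comp_apply, LinearMap.smul_apply, hs.eq t ht, smul_smul, zpow_sub₀ ht.ne',
    zpow_natCast, zpow_ofNat, mul_div_cancel₀ _ (by positivity), map_smul, ← ofReal_pow]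
  rfl

/-- the extension by the identity on the null ideal -/
def ml' (F : V →ₗ[ℝ] V) : L →ₗ[ℂ] L where
  toFun c := ⟨c + cx p inc (F - .id) c, add_mem c.2 (h.cx_mem _ _)⟩
  map_add' a b := Subtype.ext (by simp only [cx, AddMemClass.coe_add, map_add, smul_add]; abel)
  map_smul' t c := Subtype.ext (by
    simp only [cx, SetLike.val_smul, h.p_smul c.2, map_add, map_smul, RingHom.id_apply]
    conv_rhs => rw [← re_add_im t]
    simp only [← Complex.coe_smul]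
    match_scalars <;> ring_nf <;> simp)

theorem p_ml (F : V →ₗ[ℝ] V) (b : Fin 2) (c : L) : p b (h.ml' F c) = F (p b c) := by
  simp [ml', h.p_cx]

/-- the renormalisation of the complex labels -/
def mm (F : V ≃ₗ[ℝ] V) : L ≃ₗ[ℂ] L :=
  have e : ∀ F : V ≃ₗ[ℝ] V, h.ml' F ∘ₗ h.ml' F.symm = .id := fun F => LinearMap.ext fun c =>
    Subtype.ext (by
      change (h.ml' F.symm c).1 + cx p inc _ _ = c
      rw [cx, h.p_ml, h.p_ml]
      simp [ml', cx, smul_sub]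
      abel)
  .ofLinearMap (h.ml' F) (h.ml' F.symm) (e F) (e F.symm)

theorem p_mm (F : V ≃ₗ[ℝ] V) (b : Fin 2) (c : L) : p b (h.mm F c) = F (p b c) := h.p_ml F b c

theorem mm_inc (F : V ≃ₗ[ℝ] V) {v : V} {c : L} (e : c.1 = inc v) : (h.mm F c).1 = inc (F v) := by
  change c.1 + cx p inc _ _ = _
  simp [cx, e, h.p_inc]

theorem af {T : YZ.Cor d} (hT : Ext L p T S) (hm : Ml S) (hs : Zo.Sc Φ S₀ sc) {M : ℝ → V ≃ₗ[ℝ] V}
    {β : ℝ} (gr : ∀ t n c, M t (Φ.π n c) = Φ.π n (M t c)) (comm : ∀ t R c, M t (ρ R c) = ρ R (M t c))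
    (slow : ∀ ε > (0 : ℝ), ∀ c, Tendsto (fun t : ℝ => t ^ ε • M t c) (𝓝[>] 0) (𝓝 0) ∧
      Tendsto (fun t : ℝ => t ^ ε • (M t).symm c) (𝓝[>] 0) (𝓝 0))
    (ml : ∀ t ∈ Ioo (0 : ℝ) 1, M t lg = (β * Real.log t⁻¹) • lg)
    (mt : ∀ t ∈ Ioo (0 : ℝ) 1, ∀ μ ν, M t (t0 μ ν) = t0 μ ν)
    (af : ∀ k (c : Fin k → V) f, Adm f → Tendsto (fun t : ℝ => S k (fun i => sc t (M t (c i)))
      fun i y => f i (t⁻¹ • y)) (𝓝[>] 0) (𝓝 (S₀ k c f))) : YZ.AF L β T fun t => h.mm (M t) := by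
  refine ⟨fun t g s c c' hg e => ?_, fun t ht c => ⟨fun e => Subtype.ext ?_, fun μ ν e =>
    Subtype.ext ?_⟩, fun ε ε0 c m => ?_, fun k c f hf => ?_⟩
  · obtain ⟨G, g1, l, R, -, g2⟩ := h.conf hg
    have a : ∀ v, M t (G v) = G (M t v) := fil_ext Φ (F := (M t).toLinearMap ∘ₗ G)
      (G := G ∘ₗ (M t).toLinearMap) fun n v => by simp [g2, gr, comm]
    change c'.1 + cx p inc _ _ = rho (cm g) (c.1 + cx p inc _ _)
    simp [cx, e, h.p_rho hg g1 c.2, g1, a]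
  · rw [h.mm_inc _ (e.trans h.ilg.symm), ml t ht, map_smul, h.ilg, ← e]
    rfl
  · rw [h.mm_inc _ (e.trans (h.it0 μ ν).symm), mt t ht, h.it0, e]
  · have a : ∀ {M : ℝ → V ≃ₗ[ℝ] V}, (∀ t n c, M t (Φ.π n c) = Φ.π n (M t c)) →
        (∀ c, Tendsto (fun t : ℝ => t ^ ε • M t c) (𝓝[>] 0) (𝓝 0)) →
        Tendsto (fun t : ℝ => t ^ ε • coeff m (h.ml' (M t) c).1) (𝓝[>] 0) (𝓝 0) := fun {M} gr s => by
      have b : ∀ v, Tendsto (fun t : ℝ => t ^ ε • coeff m (inc (M t v))) (𝓝[>] 0) (𝓝 0) :=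
        fun v => by
          obtain ⟨D, hD⟩ := Φ.ex v
          simpa using fil_lim (fun t => (Φ.F D).smul_mem _ (fil_up (F := (M t).toLinearMap)
            (fun n v => (gr t n v).symm ▸ Φ.π_mem _ _) D v hD)) (s v) (zero_mem _)
            ((lcoeff ℂ m).restrictScalars ℝ ∘ₗ inc)
      have z : ∀ w : ℂ, Tendsto (fun t : ℝ => t ^ ε • w) (𝓝[>] 0) (𝓝 0) := fun w => by
        simpa [ε0.ne'] using (((Real.continuous_rpow_const ε0.le).tendsto 0).mono_left
          nhdsWithin_le_nhds).smul_const w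
      convert ((z (coeff m (c.1 - cx p inc .id c))).add (b (p 0 c))).add
        ((b (p 1 c)).const_mul I) using 2 with t
      · simp [ml', cx]
        ring
      · simp
    exact (a gr fun c => (slow ε ε0 c).1).prodMk_nhds
      (a (M := fun t => (M t).symm) (fun t n c => (M t).injective (by simp [gr]))
        fun c => (slow ε ε0 c).2)
  · rw [h.free k _ f (fun i => (c i).2) hf]
    refine (tendsto_finsetSum _ fun s _ => (af k _ f hf).const_mul _).congr'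
      (eventually_mem_nhdsWithin.mono fun t (t0 : 0 < t) => ?_)
    have a := Adm.smul hf (inv_ne_zero t0.ne')
    obtain ⟨m, hm⟩ := hm k _ a
    have : (t : ℂ) ≠ 0 := ofReal_ne_zero.2 t0.ne'
    beta_reduce
    rw [hT k _ _ (fun i => h.rho_mem _ _ (h.mm (M t) (c i)).2) a, ext, Finset.sum_div]
    refine Finset.sum_congr rfl fun s _ => ?_
    simp only [h.p_sc hs t0 (h.mm (M t) _).2, h.p_mm, hm, m.map_smul_univ]
    simp [pow_mul]
    field_simp

/-- complex conjugation -/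
@[reducible] def is : InvolutiveStar L where
  star c := ⟨map conj c.1, h.star _ c.2⟩
  star_involutive c := Subtype.ext (by simp [MvPolynomial.map_map, MvPolynomial.map_id])

/-- the action of the matrices -/
def rr (g : CM) (c : L) : L := ⟨rho g c, h.rho_mem g _ c.2⟩

theorem cx' : letI := h.is; Cx h.rr ρ (fun b c => p b c.1) fun v => ⟨inc v, h.mem v⟩ := by
  let := h.is
  refine ⟨⟨fun c => Subtype.ext (Zf.rh_one _), fun g g' c => Subtype.ext (rho_mul _ _ _),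
    fun g c => Subtype.ext (rho_star _ _), fun g t a b => Subtype.ext (by simp [rr]), fun c => ?_⟩,
    fun t a b => by simp [h.p_smul a.2, add_assoc], fun c => h.p_star _ c.2,
    fun R b c => h.p_rho (mat_o R) (h.rot R) c.2 b, h.p_inc⟩
  obtain ⟨ι, _, q, v, h1, h2⟩ := rho_fin c.1
  obtain ⟨π, hπ⟩ := L.toSubmodule.subtype.exists_leftInverse_of_injective (Submodule.ker_subtype _)
  let e := Fintype.equivFin ι
  refine ⟨_, q ∘ e.symm, fun i => π (v (e.symm i)), fun i => h1 _, fun g =>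
    (LinearMap.congr_fun hπ (h.rr g c)).symm.trans ((congrArg π (h2 g)).trans ?_)⟩
  simp only [map_sum, map_smul, ← e.symm.sum_comp]
  rfl

theorem wightman {T : YZ.Cor d} (w : letI := h.is; WA.WightmanL (fun g => h.rr (g.map (↑)))
    (h.rr (diagonal ![I, 1, 1, 1])) (fun _ => Adm) fun k a f => T k (fun i => (a i).1) f) :
    YZ.Wightman L T := by
  classical
  obtain ⟨H, _, _, i, U, Ω, D, φ, w1, ⟨w2, w3, w4⟩, w5⟩ := w
  let ψ : Lab d × YZ.Tf → H → H := fun q => if e : q.1 ∈ L then φ (⟨q.1, e⟩, q.2) else id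
  have e : ∀ (c : L) f, ψ (c.1, f) = φ (c, f) := fun c f => dif_pos c.2
  have e' : ∀ l : List (L × YZ.Tf), (l.map fun q => (q.1.1, q.2)).foldr ψ Ω = l.foldr φ Ω :=
    fun l => by simp only [List.foldr_map, e]
  refine ⟨H, _, _, i, U, Ω, D, ψ, w1, ⟨w2, w3.mono (Submodule.span_mono ?_), fun x hx c hc f => ?_⟩,
    fun n c => ?_⟩
  · rintro _ ⟨l, rfl⟩
    exact ⟨_, List.forall_mem_map.2 fun q _ => q.1.2, e' l⟩
  · lift c to L using hc
    obtain ⟨a1, a2, a3, a4, a5, a6⟩ := w4 x hx c f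
    simp only [e]
    refine ⟨a1, a2, fun t b hb => ?_, fun y hy => ⟨(a4 y hy).1, (a4 y hy).2.1, fun g hg =>
      ((a4 y hy).2.2 g hg).trans (by rw [← e]; rfl)⟩, fun a Q hQ => ⟨(a5 a Q hQ).1, fun g hg =>
        ((a5 a Q hQ).2 g hg).trans (by rw [← e]; rfl)⟩, fun b hb g hg => ?_⟩
    · lift b to L using hb
      rw [e, ← a3, ← e]
      rfl
    · lift b to L using hb
      rw [e]
      exact a6 b g hg
  · obtain ⟨w, a1, a2, a3⟩ := w5 n c
    refine ⟨w, a1, a2, fun f G hG => ?_⟩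
    have := a3 f G hG
    rwa [← e', List.map_ofFn] at this

end Br

end Pool.Agent.Lib.MP_7f377f_mp.Zg
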