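import Pool.Agent.Lib.MP_7f377f_mp.G.ZgE

/-! Complex labels: the lattice approximation and the far insertions. -/

noncomputable section

namespace Pool.Agent.Lib.MP_7f377f_mp.Zg
variable [Pool.Agent.Lib.MP_7f377f_mp.GD]
set_option linter.unusedSectionVars false

open MeasureTheory Filter Topology Set YM7 Pur Wm Lm Wv S3 Matrix Sw MvPolynomial Complex
open Ro (Iso)
open YZ (Lab rho FF lag Fp Loc)

variable {V P : Type} [NormedAddCommGroup V] [NormedSpace ℝ V] [CommRing P] [Algebra ℂ P]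
  {Φ : Fil V} {N : Net P} {x : V → (R4 → ℝ) → P} {S W : P →ₗ[ℂ] ℂ} {ρ : Iso →* V →ₗ[ℝ] V}
  {S₀ : Cor V} {d k m : ℕ} {L : Subalgebra ℂ (Lab d)} {p : Fin 2 → Lab d →ₗ[ℝ] V}
  {inc : V →ₗ[ℝ] Lab d} {lg φ : V} {t0 : Fin 4 → Fin 4 → V} {θ : Fin 4 → V → V} {O : Set R4}
  {Z : Fp d} {q : Fin 2 → Lab d → V}

theorem loc_mem (hG : Gen N x θ) (hZ : Z ∈ Loc L O) : sb x q Z ∈ N.loc O := by
  refine span_map' (map_add _) (fun c X => ⟨c, map_smul _ c X⟩) ?_ hZ
  rintro _ ⟨k, c, f, f1, f2, rfl⟩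
  simp only [map_prod, sb, aeval_X]
  exact (Nu.prod (S := 0) f1.2 (fun i => .refl (xc_mem hG (Wx.c1_of f1 i) _)) _ fun i _ => f2 i).1

/-- forget the subalgebra -/
def fg : Wv.PolL L →ₐ[ℂ] Fp d := rename fun r => (r.1.1, r.2)

theorem sb_fg (X : Wv.PolL L) : sb x q (fg X) = sb x (fun b c => q b c.1) X := aeval_rename _ _ _

theorem loc_iff {θ : Fin 4 → L → L} {h1 h2} :
    Z ∈ Loc L O ↔ ∃ X ∈ (Wv.netL (θ := θ) h1 h2).loc O, fg X = Z := by
  refine ⟨fun h => span_map' (g := id) (B := ((Wv.netL h1 h2).loc O).map fg.toLinearMap)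
    (fun _ _ => rfl) (fun c _ => ⟨c, rfl⟩) ?_ h, ?_⟩
  · rintro _ ⟨k, c, f, f1, f2, rfl⟩
    exact ⟨_, gen_mem (gen_L h1 h2) c f1 f2, by simp [fg, xL]⟩
  · rintro ⟨X, h, rfl⟩
    obtain ⟨m, t, k, c, f, f1, f2, rfl⟩ := Wx.exists_sum (gen_L h1 h2) h
    simp only [map_sum, map_smul]
    exact sum_mem fun j _ => Submodule.smul_mem _ _
      (Submodule.subset_span ⟨_, c j, f j, f1 j, f2 j, by simp [fg, xL]⟩)

theorem Br.ins (h : Br Φ ρ S₀ L p inc lg t0) (hG : Gen N x fun μ => ρ (rfL μ)) (hZ : Zr N S x)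
    {r : ℕ → ℕ} {B : ∀ j, Fin (r j) → P} (b1 : ∀ (j : ℕ) i, B j i ∈ N.loc (Hs 0 j)) :
    ∃ B' : ∀ j, Fin (r j) → Fp d, (∀ (j : ℕ) i, B' j i ∈ Loc L {y | j < y 0}) ∧
      ∀ Z ∈ Loc L univ, ∀ᶠ j in atTop, YZ.ins (B' j) Z ∈ Loc L univ ∧
        S (sb x (fun b => p b) (YZ.ins (B' j) Z)) =
          S (∑ i, N.Θ 0 (B j i) * (sb x (fun b => p b) Z * B j i)) := by
  let := h.is
  have c := h.cx'
  choose B' a1 a2 a3 using fun j i => hZ.sur (h1 := c.rq.inv.1) (h2 := c.rq.inv.2)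
    (q := fun b (c : L) => p b c.1) hG c.sec c.te (fun _ => map_zero _) (b1 j i)
  refine ⟨fun j i => fg (B' j i), fun j i => loc_iff.2 ⟨_, a1 j i, rfl⟩, fun Z hZ => ?_⟩
  obtain ⟨Z, z, rfl⟩ := (loc_iff (h1 := c.rq.inv.1) (h2 := c.rq.inv.2)).1 hZ
  have e : ∀ j, YZ.ins (fun i => fg (B' j i)) (fg Z) =
      fg (∑ i, (Wv.netL c.rq.inv.1 c.rq.inv.2).Θ 0 (B' j i) * (Z * B' j i)) := fun j => by
    simp only [YZ.ins, map_sum, map_mul]
    refine Finset.sum_congr rfl fun i _ => congrArg (· * _) ?_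
    change _ = fg (rename _ (map _ _))
    simp only [fg, map_rename, rename_rename, Function.comp_def, tE, rE, mat_rf]
    rfl
  filter_upwards [tendsto_natCast_atTop_atTop.eventually (Net.box z)] with j hj
  have z1 := (Wv.netL c.rq.inv.1 c.rq.inv.2).mono hj inter_subset_right
  have d1 : Disjoint (Bx j) (Hs 0 j) := disjoint_left.2 fun y e e' =>
    ((le_abs_self _).trans_lt (e 0)).not_gt e'
  refine ⟨e j ▸ loc_iff.2 ⟨_, sum_mem fun i _ => mul_assoc _ Z _ ▸
    Net.sand z1 j.cast_nonneg (a1 j i) (a1 j i), rfl⟩, ?_⟩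
  simp only [e, sb_fg, map_sum, map_mul]
  refine Finset.sum_congr rfl fun i _ => ((a3 j i 0).mul
    ((Nu.refl (sb_mem hG z1)).mul (a2 j i) d1) (disjoint_left.2 fun y e e' => ?_)).eq
  rcases e' with e' | e'
  · exact disjoint_left.1 d1 (fun l => (abs_rf 0 l y).trans_lt (e' l)) e
  · exact hs_compl 0 j.cast_nonneg e' e

theorem dz_sh {n : ℕ} (U : Cfg n) (z : Fin 4 → ZMod n) : dz (YZ.sh U z) = dens U z := by
  have e : ∀ i, (fun l => z l + ((Pi.single i 1 : Fin 4 → ℤ) l : ZMod n)) = z + Pi.single i 1 :=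
    fun i => funext fun l => by by_cases h : l = i <;> simp [h]
  simp [dz, dens, YZ.sh, e]

theorem dz_eq {ρ : GD.G →* unitaryGroup (Fin m) ℂ} (hn : GD.n = m + m)
    (ht : ∀ a, (GD.rho a).trace = 2 * (ρ a).1.trace.re) (U : YZ.Cfg SU2 ℤ) :
    dz U = 4 * GD.t ^ 2 * YZ.dens ρ U := by
  simp only [dz, YZ.dens, Finset.mul_sum, GD.re1, ht, hn]
  refine Finset.sum_congr rfl fun i _ => Finset.sum_congr rfl fun j _ => ?_
  split_ifs
  · push_cast
    ring
  · ring

theorem obs_add {R R' : ℕ} {F F' : YZ.Cfg SU2 ℤ → ℂ} (h : YZ.Obs R F) (h' : YZ.Obs R' F') (t : ℂ) :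
    YZ.Obs (R + R') fun U => F U + t * F' U :=
  ⟨h.1.add (h'.1.const_mul t), fun U U' e => by
    beta_reduce
    rw [h.2.1 fun l hl => e l fun i => (hl i).trans (by simp),
      h'.2.1 fun l hl => e l fun i => (hl i).trans (by simp)],
    fun U g => by simp only [h.2.2, h'.2.2]⟩

variable [MeasurableSpace SU2] [BorelSpace SU2] {h : Measure SU2} [h.IsHaarMeasure]
  [IsProbabilityMeasure h] {n : ℕ → ℕ+} {a b : ℕ → ℝ} {F : ℕ → V →ₗ[ℝ] YZ.Cfg SU2 ℤ → ℝ}

theorem Lat.comp (H : Lat x S h φ n a b F) (J : V ≃ₗ[ℝ] V) :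
    Lat (fun c => x (J c)) S h (J.symm φ) n a b fun j => F j ∘ₗ J.toLinearMap :=
  ⟨H.a0, H.vol, H.cpl, fun _ => H.obs _, by simpa using H.ph, fun k _ => H.lim k _⟩

theorem Lat.zr (H : Lat x S h φ n a b F) (hG : Gen N x θ) : Zr N S x := fun g hg =>
  ⟨Wx.c1_mem hG (c1s hg) _, zero_mem _, fun Z hZ => by
    obtain ⟨m, t, k, c, f, f1, f2, rfl⟩ := Wx.exists_sum hG hZ
    simp only [Finset.mul_sum, mul_smul_comm, map_sum, map_smul, zero_mul, map_zero]
    refine Finset.sum_congr rfl fun j _ => congrArg _ ?_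
    have := H.lim _ (Fin.cons 0 (c j)) _ (PN.adm_cons hg.1 hg.2.1 (f1 j) fun i =>
      (subset_compl_iff_disjoint_left.1 (f2 j i)))
    simpa [Fin.prod_univ_succ, fld, eq_comm] using this⟩

theorem Lat.vev (H : Lat x S h φ n a b F) {ρ : GD.G →* unitaryGroup (Fin m) ℂ} (hn : GD.n = m + m)
    (ht : ∀ a, (GD.rho a).trace = 2 * (ρ a).1.trace.re) (hZ : Z ∈ Loc L univ) :
    Tendsto (fun j => YZ.vev ρ h (4 * GD.t ^ 2 * b j) (n j) (a j)
      (fun c U => F j (q 0 c) U + I * F j (q 1 c) U) Z) atTop (𝓝 (S (sb x q Z))) := by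
  have w : ∀ j, ((Measure.pi fun _ => h).tilted fun U : Cfg (n j) =>
      -(4 * GD.t ^ 2 * b j) * ∑ z, YZ.dens ρ (YZ.sh U z)) = wilson h (b j) (n j) := fun j => by
    simp only [wilson, ← dz_sh, dz_eq hn ht, ← Finset.mul_sum]
    congr with U
    ring
  have c0 : ∀ j (z : Fin 4 → ZMod (n j)) c, Continuous fun U : Cfg (n j) => F j c (YZ.sh U z) :=
    fun j z c => (continuous_re.comp ((H.obs c).choose_spec j).1).comp
      (continuous_pi fun _ => continuous_apply _)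
  have c1 : ∀ j c f, Continuous (fld (n := n j) (a j) (F j c) f) := fun j c f =>
    continuous_finsetSum _ fun z _ => (c0 j z c).const_mul _
  let E := fun j (U : Cfg (n j)) => aeval (R := ℂ) fun r : Lab d × (R4 → ℝ) =>
    ∑ b : Fin 2, I ^ (b : ℕ) * fld (a j) (F j (q b r.1)) r.2 U
  have c2 : ∀ j Z, Integrable (fun U => E j U Z) (wilson h (b j) (n j)) := fun j Z => by
    refine Continuous.integrable_of_hasCompactSupport ?_ (.of_compactSpace _)
    induction Z using MvPolynomial.induction_on with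
    | C a => simpa [E] using continuous_const
    | add a b ha hb => simp only [map_add]; exact ha.add hb
    | mul_X a s ha =>
      simp only [map_mul, E, aeval_X]
      exact ha.mul (by fun_prop)
  refine Tendsto.congr (f₁ := fun j => ∫ U, E j U Z ∂wilson h (b j) (n j)) (fun j => ?_) ?_
  · rw [YZ.vev, w]
    congr with U
    refine congrArg (eval · Z) (funext fun r => ?_)
    simp [fld, Finset.mul_sum, mul_add, Finset.sum_add_distrib, mul_left_comm I]
  induction hZ using Submodule.span_induction with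
  | zero => simp
  | add Y Z _ _ h1 h2 => simpa only [map_add, integral_add (c2 _ _) (c2 _ _)] using h1.add h2
  | smul t Z _ h1 => simpa only [map_smul, integral_smul] using h1.const_smul t
  | mem Z hZ =>
    obtain ⟨k, c, f, f1, -, rfl⟩ := hZ
    rw [map_prod, sb]
    simp only [aeval_X, xc_prod, map_sum]
    refine (tendsto_finsetSum _ fun s _ => map_smul S _ _ ▸ (H.lim k _ f f1).const_smul _).congr
      fun j => ?_
    simp only [map_prod, E, aeval_X, Finset.prod_univ_sum, Fintype.piFinset_univ,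
      Finset.prod_mul_distrib, ← ofReal_prod]
    rw [integral_finsetSum _ fun s _ => (Continuous.integrable_of_hasCompactSupport (by fun_prop)
      (.of_compactSpace _))]
    simp only [integral_const_mul, integral_complex_ofReal, smul_eq_mul]

end Pool.Agent.Lib.MP_7f377f_mp.Zg
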