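import Pool.Agent.Lib.MP_7f377f_mp.G.ZgE
import Pool.Agent.Lib.MP_7f377f_mp.G.SwK

/-! Complex labels: the Ward identity of the stress tensor. -/

noncomputable section

namespace Pool.Agent.Lib.MP_7f377f_mp.Zg
variable [Pool.Agent.Lib.MP_7f377f_mp.GD]
set_option linter.unusedSectionVars false

open MeasureTheory Filter Topology Set YM7 Pur Wm Lm Wv S3 Matrix Sw MvPolynomial Complex
open Ro (Iso)
open YZ (Lab rho FF lag)

variable {V P : Type} [NormedAddCommGroup V] [NormedSpace ℝ V] [CommRing P] [Algebra ℂ P]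
  {Φ : Fil V} {N : Net P} {x : V → (R4 → ℝ) → P} {W : P →ₗ[ℂ] ℂ} {ρ : Iso →* V →ₗ[ℝ] V}
  {A M : ℝ → V ≃ₗ[ℝ] V} {S₀ : Cor V} {d k : ℕ} {L : Subalgebra ℂ (Lab d)}
  {p : Fin 2 → Lab d →ₗ[ℝ] V} {inc : V →ₗ[ℝ] Lab d} {lg φ u : V} {T t0 : Fin 4 → Fin 4 → V}
  {D : Fin 4 → V →ₗ[ℝ] V} {σ : Mat → V →ₗ[ℝ] V} {sc : ℝ → V →ₗ[ℝ] V} {J : V ≃ₗ[ℝ] V} {β : ℝ}

theorem int_pd {ξ : R4 → ℝ} (h : Ds univ ξ) (ν : Fin 4) : ∫ y, pd ν ξ y = 0 := by
  have i : ∀ {f : R4 → ℝ}, Ds univ f → Integrable f := fun h =>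
    h.1.continuous.integrable_of_hasCompactSupport h.2.1
  simpa [pd_eq h.1] using integral_mul_fderiv_eq_neg_fderiv_mul_of_integrable (μ := volume)
    (f := fun _ => (1 : ℝ)) (g := ξ) (v := ax ν 1) (by simp)
    (by simpa [pd_eq h.1] using i (h.pd ν)) (by simpa using i h) (by simp)
    fun y _ => h.1.differentiable (by simp) y

theorem ward0 (h : Rg Φ N x W ρ A S₀) (hc : Cu Φ N x W ρ T) (ho : Ops Φ N x W T D D σ)
    (c : Fin k → V) {g : Fin k → R4 → ℝ} (hg : Adm g) (hs : ∀ i, Ds univ (g i)) {ξ : R4 → ℝ}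
    (hξ : Ds univ ξ) {a : Fin k → ℝ} (ha : ∀ i, ∀ᶠ y in 𝓝ˢ (tsupport (g i)), ξ y = a i) (ν : Fin 4) :
    ∑ μ, W (x (T μ ν) (pd μ ξ) * ∏ i, x (c i) (g i)) = ∑ i, a i *
      W (∏ j, x (c j) (Function.update g i (pd ν (g i)) j)) := by
  have z : ∀ (c : V) {O Z}, Z ∈ N.loc O → W (x c 0 * Z) = 0 := fun c O Z hZ =>
    h.lf0 (O := ∅) c (N.mono hZ (by simp))
  have := h.ward (Λ := 0) (e := ax ν 1) hc ho (by simp) c hg hs hξ ha
  simp only [fl, km_tr, Finset.sum_mul, map_sum, sub_mul, map_sub, ho.σ0, LinearMap.zero_apply]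
    at this
  refine ((Finset.sum_congr rfl fun μ _ => ?_).trans this).trans
    (Finset.sum_congr rfl fun i _ => congrArg _ ?_)
  · rw [Finset.sum_eq_single ν (fun l _ e => by
      rw [if_neg e, z _ (gen_mem h.gen c hg fun _ => subset_univ _)]) (by simp), if_pos rfl]
  · have r := rest h.gen c hg i
    have := prod_upd (x := x) c g i (c i) (pd ν (g i))
    rw [Function.update_eq_self] at this
    rw [Finset.sum_eq_single ν (fun l _ e => by rw [if_neg e, z _ r]) (by simp), if_pos rfl,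
      (Lc.zr h.linc h.gen _ (dc (hs i))).2.2 _ r, ho.der ν _ _ (hs i) _ r, this]
    simp

theorem Fx.gen (h : Fx Φ x W ρ A sc T t0 β φ u lg J M) (hG : Gen N x fun μ => ρ (rfL μ)) :
    Gen N (fun c => x (J c)) fun μ => ρ (rfL μ) :=
  ⟨fun U => (hG.loc U).trans (by
    congr with f q
    exact J.surjective.exists), fun v c => hG.tau v _,
    fun μ c f => (hG.refl μ _ f).trans (by rw [h.refl])⟩

theorem Lc.comp (h : Lc N W x) (J : V ≃ₗ[ℝ] V) : Lc N W fun c => x (J c) := fun t a b => by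
  simpa only [map_add, map_smul] using h t (J a) (J b)

theorem Br.ward (h : Br Φ ρ S₀ L p inc lg t0) (hr : Rg Φ N x W ρ A S₀) (hc : Cu Φ N x W ρ T)
    (ho : Ops Φ N x W T D D σ) (hf : Fx Φ x W ρ A sc T t0 β φ u lg J M)
    (hu : ∀ f, C1 univ f → ∀ Z ∈ N.loc (tsupport f)ᶜ, W (x u f * Z) = (∫ y, f y : ℝ) * W Z) :
    YZ.Ward L fun _ c f => W (∏ i, xc (fun c => x (J c)) (fun b c => p b c) (c i) (f i)) := by
  obtain ⟨s, s', γ, e⟩ := hf.jt
  refine ⟨s, s' - s, fun k c g ξ a ν hg h1 h2 h3 => ?_⟩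
  have hs : ∀ i, Ds univ (g i) := fun i => ⟨(h1 i).1, (hg.1 i).1, subset_univ _⟩
  have hξ : Ds univ ξ := ⟨h2, h3, subset_univ _⟩
  have l : Lc N W x := hr.linc
  have G := hf.gen hr.gen
  have a1 : ∀ μ, (s : ℂ) • FF μ ν + (if μ = ν then (s' - s : ℂ) • lag else 0) =
      inc (s • t0 μ ν + if μ = ν then s' • lg else 0) := fun μ => by
    split_ifs with e <;> simp [h.it0, h.ilg, e, sub_smul, smul_sub]
    abel
  have a2 : ∀ μ, J (s • t0 μ ν + if μ = ν then s' • lg else 0) =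
      (if μ = ν then -γ else 0) • u + T μ ν := fun μ => by
    rw [e]
    split_ifs <;> simp [hf.jl]
    abel
  have a3 : ∀ (c : Fin k → V) μ, ∏ i, x (c i) (g i) ∈ N.loc (tsupport (pd μ ξ))ᶜ := fun c μ =>
    gen_mem hr.gen c hg fun i y hy e => ((gs_diff hξ (h1 i).2 μ).2.2 e).2 hy
  have a4 : ∀ (c : Fin k → V), ∑ μ, W (xc (fun c => x (J c)) (fun b c => p b c)
      (inc (s • t0 μ ν + if μ = ν then s' • lg else 0)) (pd μ ξ) * ∏ i, x (c i) (g i)) =
        ∑ μ, W (x (T μ ν) (pd μ ξ) * ∏ i, x (c i) (g i)) := fun c =>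
    Finset.sum_congr rfl fun μ _ => by
      have b := dc (hξ.pd μ)
      rw [(((l.comp J).zr G).xc (q := fun b c => p b c) G b (h.p_inc _).2).2.2 _ (a3 c μ)]
      simp only [h.p_inc, a2, l _ _ _ _ b _ (a3 c μ), hu _ b _ (a3 c μ), int_pd hξ]
      simp
  simp only [Fin.prod_univ_succ, cons_val_zero, cons_val_succ, a1, xc_prod, Finset.mul_sum,
    mul_smul_comm, map_sum, map_smul]
  rw [Finset.sum_comm, Finset.sum_comm (s := Finset.univ (α := Fin k))]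
  refine Finset.sum_congr rfl fun r _ => ?_
  rw [← Finset.smul_sum]
  refine (congrArg _ ((a4 _).trans (ward0 hr hc ho _ hg hs hξ (fun i => (h1 i).2) ν))).trans ?_
  simp only [Finset.smul_sum]
  rfl

end Pool.Agent.Lib.MP_7f377f_mp.Zg
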