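import Pool.Agent.Lib.MP_7f377f_mp.G.ZgO
import Pool.Agent.Lib.MP_7f377f_mp.G.ZgW
import Pool.Agent.Lib.MP_7f377f_mp.G.ZgL
import Pool.Agent.Lib.MP_7f377f_mp.G.Zo
import Pool.Agent.Lib.MP_7f377f_mp.G.WmNG

/-! Complex labels: the assembly. -/

noncomputable section

namespace Pool.Agent.Lib.MP_7f377f_mp.Zg
variable [Pool.Agent.Lib.MP_7f377f_mp.GD]
set_option linter.unusedSectionVars false

open MeasureTheory Filter Topology Set YM7 Pur Wm Lm Wv S3 Matrix Sw MvPolynomial Complex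
open Ro (Iso)
open YZ (Lab rho FF lag Fp Loc)

variable {V P : Type} [NormedAddCommGroup V] [NormedSpace ℝ V] [CommRing P] [Algebra ℂ P]
  {Φ : Fil V} {N : Net P} {x : V → (R4 → ℝ) → P} {S W : P →ₗ[ℂ] ℂ} {ρ : Iso →* V →ₗ[ℝ] V}
  {A M : ℝ → V ≃ₗ[ℝ] V} {S₀ : Cor V} {d m : ℕ} {L : Subalgebra ℂ (Lab d)}
  {p : Fin 2 → Lab d →ₗ[ℝ] V} {inc : V →ₗ[ℝ] Lab d} {lg φ u : V} {T t0 : Fin 4 → Fin 4 → V}
  {D : Fin 4 → V →ₗ[ℝ] V} {σ : Mat → V →ₗ[ℝ] V} {sc : ℝ → V →ₗ[ℝ] V} {J : V ≃ₗ[ℝ] V} {β q : ℝ}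

theorem exists_sc (hs : Zo.Sc Φ S₀ sc) : ∃ E : ℝ → V ≃ₗ[ℝ] V, (∀ t > (0 : ℝ), ∀ c, E t c = sc t c) ∧
    ∀ t, Φ.Up 0 (E t) ∧ Φ.Up 0 (E t).symm := by
  have a : ∀ t > (0 : ℝ), ∀ t' > (0 : ℝ), t * t' = 1 → sc t ∘ₗ sc t' = .id := fun t e t' e' k =>
    LinearMap.ext (fil_ext Φ fun n v => by
      simp [hs.eq _ e, hs.eq _ e', smul_smul, ← mul_zpow, mul_comm t', k])
  have b : ∀ t > (0 : ℝ), Φ.Up 0 (sc t) := fun t e =>
    fil_up fun n v => hs.eq t e n v ▸ Submodule.smul_mem _ _ (Φ.π_mem _ _)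
  refine ⟨fun t => if e : 0 < t then .ofLinearMap (sc t) (sc t⁻¹)
    (a _ e _ (inv_pos.2 e) (mul_inv_cancel₀ e.ne')) (a _ (inv_pos.2 e) _ e (inv_mul_cancel₀ e.ne'))
    else .refl ℝ V, fun t (e : 0 < t) c => by simp only [dif_pos e]; rfl, fun t => ?_⟩
  beta_reduce
  by_cases e : 0 < t
  · rw [dif_pos e]
    exact ⟨b t e, b _ (inv_pos.2 e)⟩
  · rw [dif_neg e]
    exact ⟨fun _ _ => id, fun _ _ => id⟩

theorem ex_comp {v : Fin 2 → R4 → ℝ} {a a' : ℝ → Fin 2 → V} {b b' : ℝ → V} {r : ℝ}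
    (ha : ∀ t > (0 : ℝ), ∀ i, a t i = J (a' t i)) (hb : ∀ t > (0 : ℝ), b t = J (b' t))
    (e : Zo.Ex (Zo.cor x W) v a b r) : Zo.Ex (Zo.cor (fun c => x (J c)) W) v a' b' r :=
  fun k c f g hf => by
    obtain ⟨e1, e2⟩ := e k (fun i => J (c i)) f g hf
    have h : ∀ t > (0 : ℝ), Zo.pp (Zo.cor x W) v (a t) t (fun i => J (c i)) f g =
        Zo.pp (Zo.cor (fun c => x (J c)) W) v (a' t) t c f g := fun t ht => funext fun z => by
      simp only [Zo.pp, Zo.cor, Fin.prod_univ_add, Fin.append_left, Fin.append_right, ha t ht]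
    refine ⟨(e1.and self_mem_nhdsWithin).mono fun t ht => h t ht.2 ▸ ht.1,
      e2.congr' (eventually_mem_nhdsWithin.mono fun t ht => ?_) .rfl⟩
    simp only [Zo.rm, h t ht, hb t ht, Zo.cor, Fin.prod_univ_succ, cons_val_zero, cons_val_succ]

theorem Fx.af (fx : Fx Φ x W ρ A sc T t0 β (q • φ) u lg J M) (ph : Ph Φ N x W A φ u lg)
    (hm : Ml (Zo.cor x W)) (hq : q ≠ 0) : ∃ γ : ℝ, γ ≠ 0 ∧ ∀ k (f : Fin k → R4 → ℝ), Adm f → Tendsto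
      (fun t : ℝ => (Real.log t⁻¹ : ℂ) ^ k * W (∏ i, x (J lg) fun y => f i (t⁻¹ • y))) (𝓝[>] 0)
      (𝓝 (γ ^ k * ∫ y : Fin k → R4, (∏ i, f i (y i)) * free y : ℝ)) := by
  obtain ⟨γ, γ0, af⟩ := ph.af
  refine ⟨q * γ, mul_ne_zero hq γ0, fun k f hf => ?_⟩
  rw [mul_pow, mul_assoc, ofReal_mul]
  refine ((af k f hf).const_mul _).congr' (eventually_mem_nhdsWithin.mono fun t (e : 0 < t) => ?_)
  obtain ⟨μ, hμ⟩ := hm k _ (hf.smul (inv_ne_zero e.ne'))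
  have := μ.map_smul_univ (fun _ => q) fun _ => φ
  simp only [← hμ, Zo.cor, Finset.prod_const, Finset.card_fin, real_smul] at this
  simp only [fx.jl, this, mul_left_comm]

theorem Fx.ren (fx : Fx Φ x W ρ A sc T t0 β φ u lg J M) (hs : Zo.Sc Φ S₀ sc) :
    ∃ A' : ℝ → V ≃ₗ[ℝ] V, (∀ t > (0 : ℝ), ∀ c, A' t c = J (sc t (M t c))) ∧
      (∀ t, Φ.Up 0 (A' t) ∧ Φ.Up 0 (A' t).symm) ∧
      ∀ c, Tendsto (fun t => (A t).symm (A' t c)) (𝓝[>] 0) (𝓝 c) := by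
  obtain ⟨E, e1, e2⟩ := exists_sc hs
  refine ⟨fun t => M t ≪≫ₗ E t ≪≫ₗ J, fun t e c => by simp [e1 t e], fun t =>
    ⟨fun D c e => fx.up.1 D _ ((e2 t).1 D _ (fil_up (F := (M t).toLinearMap)
      (fun n v => ?_) D c e)), fun D c e => fil_up (F := (M t).symm.toLinearMap) (fun n v => ?_) D _
        ((e2 t).2 D _ (fx.up.2 D c e))⟩, fun c => (fx.slow.lim c).congr'
    (eventually_mem_nhdsWithin.mono fun t e => by simp [e1 t e])⟩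
  · exact (fx.slow.gr t n v).symm ▸ Φ.π_mem _ _
  · exact ((M t).injective (by simp [fx.slow.gr]) :
      (M t).symm (Φ.π n v) = Φ.π n ((M t).symm v)).symm ▸ Φ.π_mem _ _

theorem ng {θ : Fin 4 → V → V} {q : Fin 2 → Lab d → V} (G : Gen N x θ) (l : Lc N W x) (h1 : W 1 = 1)
    (pl : q 0 lag = lg ∧ q 1 lag = 0) {γ : ℝ} (γ0 : γ ≠ 0)
    (af : ∀ k (f : Fin k → R4 → ℝ), Adm f → Tendsto
      (fun t : ℝ => (Real.log t⁻¹ : ℂ) ^ k * W (∏ i, x lg fun y => f i (t⁻¹ • y))) (𝓝[>] 0)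
      (𝓝 (γ ^ k * ∫ y : Fin k → R4, (∏ i, f i (y i)) * free y : ℝ))) {W' : Fp d →ₗ[ℂ] ℂ}
    (hW : W' = W ∘ₗ (sb x q).toLinearMap) :
    ∃ (f : Fin 4 → R4 → ℝ) (Y : Fin 4 → Fp d), YZ.Adm f ∧
      (∀ i j, i < j → ∀ x ∈ tsupport (f i), ∀ y ∈ tsupport (f j), x 0 < y 0) ∧
      (∀ i, Y i = X (lag, f i) - C (W' (X (lag, f i)))) ∧ W' (Y 0 * Y 1 * Y 2 * Y 3) ≠
        W' (Y 0 * Y 1) * W' (Y 2 * Y 3) + W' (Y 0 * Y 2) * W' (Y 1 * Y 3) +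
          W' (Y 0 * Y 3) * W' (Y 1 * Y 2) := by
  obtain ⟨f, Y, g1, -, g2, g3, g4⟩ := non_gauss_ord
    (W := W' ∘ₗ (rename fun f => (lag, f)).toLinearMap) (by simpa [hW] using h1) γ0
    fun k f hf => (af k f hf).congr' (eventually_mem_nhdsWithin.mono fun t (e : 0 < t) => by
      have a := hf.smul (inv_ne_zero e.ne')
      simpa [mon, hW, sb, pl] using congrArg ((Real.log t⁻¹ : ℂ) ^ k * ·) (Nu.prod a.2
        (fun i => (l.zr G).xc (q := q) G (Wx.c1_of a i) pl.2) _ fun _ _ => subset_univ _).eq.symm)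
  exact ⟨f, fun i => rename (fun f => (lag, f)) (Y i), g1, g2, fun i => by simp [g3],
    by simpa using g4⟩

theorem core [MeasurableSpace SU2] [BorelSpace SU2] {h : Measure SU2} [h.IsHaarMeasure]
    [IsProbabilityMeasure h] {n : ℕ → ℕ+} {a b : ℕ → ℝ} {F : ℕ → V →ₗ[ℝ] YZ.Cfg SU2 ℤ → ℝ}
    {r : GD.G →* unitaryGroup (Fin m) ℂ} (hn : GD.n = m + m)
    (ht : ∀ a, (GD.rho a).trace = 2 * (r a).1.trace.re)
    (hβ : β = 4 * GD.t ^ 2 * (11 * GD.b0 / (48 * Real.pi ^ 2))) (br : Br Φ ρ S₀ L p inc lg t0)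
    (hs : Zo.Sc Φ S₀ sc) (lat : Lat x S h φ n a b F) (pu : Pu N x S W) (ph : Ph Φ N x W A φ u lg)
    (rg : Rg Φ N x W ρ A S₀) (mu : Zo.Mu2 Φ x W A S₀) (cu : Cu Φ N x W ρ T)
    (ops : Ops Φ N x W T D D σ)
    (fx : Fx Φ x W ρ A sc T t0 β ((4 * GD.t ^ 2)⁻¹ • φ) u lg J M) : Out h r L β := by
  have t1 := YM5.t_pos.ne'
  have G := fx.gen rg.gen
  have l : Lc N W fun c => x (J c) := Lc.comp rg.linc J
  have la := lat.comp J
  obtain ⟨s, B, b1, b2⟩ := pu.ins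
  obtain ⟨B', b3, b4⟩ := br.ins G (la.zr G) b1
  obtain ⟨A', e1, up, lim⟩ := fx.ren hs
  have pl : p 0 lag = lg ∧ p 1 lag = 0 := br.ilg ▸ br.p_inc lg
  have ll : lag ∈ L := br.ilg ▸ br.mem lg
  obtain ⟨γ, γ0, af⟩ := fx.af ph (Lc.ml rg.linc rg.gen) (by positivity)
  have hT : Ext L p (fun _ c f => W (∏ i, xc (fun c => x (J c)) (fun b => p b) (c i) (f i)))
      (Zo.cor (fun c => x (J c)) W) := fun k c f _ _ => by
    simp only [xc_prod, map_sum, map_smul, ext, Zo.cor, smul_eq_mul]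
  refine ⟨n, a, fun j => 4 * GD.t ^ 2 * b j, fun j c U => F j (J (p 0 c)) U + I * F j (J (p 1 c)) U,
    S ∘ₗ (sb (fun c => x (J c)) fun b => p b).toLinearMap,
    W ∘ₗ (sb (fun c => x (J c)) fun b => p b).toLinearMap, s, B',
    fun _ c f => W (∏ i, xc (fun c => x (J c)) (fun b => p b) (c i) (f i)), fun t => br.mm (M t),
    lat.a0, lat.vol, ?_, fun c _ => ?_, fun j => ?_, b3, fun Z hZ => ⟨?_, ?_, ?_⟩, fun k c f => ?_,
    ?_, ?_, ?_, ?_, ?_⟩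
  · simpa only [hβ, mul_div_assoc] using lat.cpl.const_mul (4 * GD.t ^ 2)
  · obtain ⟨R, e⟩ := lat.obs (J (p 0 c))
    obtain ⟨R', e'⟩ := lat.obs (J (p 1 c))
    exact ⟨_, fun j => obs_add (e j) (e' j) I⟩
  · obtain ⟨z, e⟩ := lat.ph j
    refine ⟨(4 * GD.t ^ 2)⁻¹ * z, funext fun U => ?_⟩
    simp only [pl, fx.jl, map_zero, map_smul, e, dz_eq hn ht, Pi.zero_apply, ofReal_zero, mul_zero,
      add_zero, Pi.smul_apply, smul_eq_mul]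
    congr 1
    field_simp
  · exact la.vev (q := fun b => p b) hn ht hZ
  · exact (b2 _ (loc_mem G hZ)).congr' ((b4 Z hZ).mono fun _ e => e.2.symm)
  · exact (b4 Z hZ).mono fun _ e => e.1
  · simp [sb]
  · let := br.is
    obtain ⟨K, k1, k2⟩ := pu.q1
    exact br.wightman (br.cx'.wight (c₀ := ⟨lag, ll⟩) G rg.st (fun _ => rg.lin _) l
      ⟨K, k1, fun _ => k2 _⟩ (fun k _ => rg.bd k _) fx.cov pu.vac (Subtype.ext (by
        change rho (cm (mat (rfL 0))) (map _ lag) = lag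
        rw [← br.ilg, br.real, br.rot, br.rlg])) pl.2 γ0 (by simpa only [pl] using af))
  · exact br.af hT (l.ml G) hs fx.slow.gr fx.slow.comm fx.slow.slow fx.ml fx.mt fun k c f hf =>
      (Zo.af' rg (fun t => (up t).1) lim k c f hf).congr'
        (eventually_mem_nhdsWithin.mono fun t e => by simp [Zo.cor, e1 t e])
  · refine br.ope hT (l.ml G) hs fun a v D hv => ?_
    obtain ⟨δ, d1, C, B, c1, c2, c3, c4⟩ := Zo.ope2 rg hs mu up lim a v D hv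
    exact ⟨δ, d1, C, B, c1, c2, c3, ex_comp (fun t e i => e1 t e _) (fun t e => e1 t e _) c4⟩
  · exact br.ward rg cu ops fx ph.unit
  · exact ng G l rg.st.one pl γ0 af rfl

end Pool.Agent.Lib.MP_7f377f_mp.Zg
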