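import Pool.Agent.Lib.MP_7f377f_mp.G.KzZ
import Pool.Agent.Lib.MP_7f377f_mp.G.JuK3
import Pool.Agent.Lib.MP_7f377f_mp.G.GReal
import Pool.Agent.Lib.MP_7f377f_mp.G.GMk

/-! All gauge invariant local fields for a compact group with simple Lie algebra. -/

noncomputable section

namespace Pool.Agent.Lib.MP_7f377f_mp.Zg

open MeasureTheory Filter Real Matrix RG RG.Q4 RG.Q4.En GE

theorem outG [GD] {N : ℕ} {ρ : GD.G →* unitaryGroup (Fin N) ℂ} (hn : GD.n = N + N)
    (ht : ∀ a, (GD.rho a).trace = 2 * (ρ a).1.trace.re) [m : MeasurableSpace GD.G]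
    (h : Measure GD.G) [s : BorelSpace GD.G] [h.IsHaarMeasure] [IsProbabilityMeasure h] {O}
    (hO : O * Oᵀ = 1) : Out h ρ ((Zf.Iv ℂ AdG).comap (Zf.ad O))
      (11 * (2 * (GD.b0 * GD.t ^ 2)) / (24 * π ^ 2)) := by
  obtain rfl : m = Fi.mS := s.measurable_eq
  have : (Fi.tr haar).IsHaarMeasure := (inferInstance : haar.IsHaarMeasure)
  obtain rfl := Measure.isHaarMeasure_eq_of_isProbabilityMeasure h (Fi.tr haar)
  obtain ⟨-, -, -, S, -, -, -, -, G, β, U, S₀, R, q⟩ := out_runP _ ev_stA (Fi.tr haar)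
  obtain ⟨O, A, φ, H⟩ := rg_of R q
  convert run hn ht hO R H using 1
  ring

attribute [local instance 100] LieRing.ofAssociativeRing

theorem mainZ (G : Type) [Group G] [TopologicalSpace G] [IsTopologicalGroup G] [CompactSpace G]
    [m : MeasurableSpace G] [s : BorelSpace G] (h : Measure G) [i : h.IsHaarMeasure]
    [p : IsProbabilityMeasure h] {N : ℕ} (ρ : G →* unitaryGroup (Fin N) ℂ) (hρ : Continuous ρ)
    (hi : Function.Injective ρ) (L : LieSubalgebra ℝ (Matrix (Fin N) (Fin N) ℂ))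
    [LieAlgebra.IsSimple ℝ L] (hL : ∀ X, X ∈ L ↔ ∀ s : ℝ, ∃ g, (ρ g).1 = NormedSpace.exp (s • X))
    {d : ℕ} (e : Module.Basis (Fin d) ℝ L)
    (he : ∀ a b, -((e a).1 * (e b).1).trace.re = if a = b then 1 else 0) :
    ∃ c > (0 : ℝ), (∀ X Y : L, killingForm ℝ L X Y = c * (X.1 * Y.1).trace.re) ∧
      Out h ρ (YZ.Inv ρ fun a => e a) (11 * c / (24 * π ^ 2)) := by
  let φ := LieSubalgebra.equivMapOfInjective (rl N).toLieHom L rl_inj
  have := simple_of_equiv φ
  have c1 : Continuous ((Submonoid.subtype _).comp (rlRep ρ)) :=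
    rl_cont.comp (continuous_subtype_val.comp hρ)
  have c2 : Function.Injective ((Submonoid.subtype _).comp (rlRep ρ)) := fun a b h =>
    hi (Subtype.ext (rl_inj h))
  have c3 : ∀ X, X ∈ L.map (rl N).toLieHom ↔
      ∀ s : ℝ, ∃ a, ((Submonoid.subtype _).comp (rlRep ρ)) a = NormedSpace.exp (s • X) :=
    fun X => ⟨by
      rintro ⟨Y, hY, rfl⟩ s
      exact ((hL Y).1 hY s).imp fun a e => (congrArg (rl N) e).trans ((rl_exp _).trans
        (congrArg _ (map_smul _ _ _))), fun h => by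
      obtain ⟨Y, rfl⟩ := mem_of_exp (LinearMap.range (rl N).toLinearMap) (X := X) fun s =>
        (h s).elim fun a e => ⟨ρ a, e⟩
      exact ⟨Y, (hL Y).2 fun s => (h s).imp fun a e => rl_inj (e.trans
        ((rl_exp _).trans (congrArg _ (map_smul _ _ _))).symm), rfl⟩⟩
  obtain rfl : d = Module.finrank ℝ (L.map (rl N).toLieHom) := by
    simp [← φ.toLinearEquiv.finrank_eq, Module.finrank_eq_card_basis e]
  have k := mkGD_c G _ c1 (fun a => (rlRep ρ a).2.1) c2 _ c3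
  let D := mkGD G _ c1 (fun a => (rlRep ρ a).2.1) c2 _ c3
  have := GD.b0_pos
  have := GD.t_pos
  obtain ⟨O, o, q⟩ := inv_eq (ρ := ρ) (e := fun a => e a) (rl N) rl_star rl_trace (fun _ => rfl)
    (fun a => (GD.lie _).2 ((c3 _).1 ⟨_, (e a).2, rfl⟩)) he
  refine ⟨2 * (GD.b0 * GD.t ^ 2), by positivity, fun X Y => ?_,
    q ▸ @outG D N ρ rfl (fun a => rl_trace _) m h s i p _ o⟩
  rw [← LieAlgebra.killingForm_of_equiv_apply φ, k, show (φ X).1 * (φ Y).1 = rl N (X.1 * Y.1) from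
    (map_mul (rl N) _ _).symm, rl_trace]
  ring

end Pool.Agent.Lib.MP_7f377f_mp.Zg
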