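import Pool.Agent.Lib.MP_7f377f_mp.G.ZgE

/-! Complex labels: the operator product expansion. -/

noncomputable section

namespace Pool.Agent.Lib.MP_7f377f_mp.Zg
variable [Pool.Agent.Lib.MP_7f377f_mp.GD]
set_option linter.unusedSectionVars false

open MeasureTheory Filter Topology Set YM7 Pur Wm Lm Wv S3 Matrix Sw MvPolynomial Complex
open Asymptotics
open Ro (Iso)
open YZ (Lab rho FF lag)

variable {V : Type} [NormedAddCommGroup V] [NormedSpace ℝ V] {Φ : Fil V} {ρ : Iso →* V →ₗ[ℝ] V}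
  {S S₀ : Cor V} {d k m : ℕ} {L : Subalgebra ℂ (Lab d)} {p : Fin 2 → Lab d →ₗ[ℝ] V}
  {inc : V →ₗ[ℝ] Lab d} {lg : V} {t0 : Fin 4 → Fin 4 → V} {sc : ℝ → V →ₗ[ℝ] V} {T : YZ.Cor d}

theorem adm_tail {f : R4 → ℝ} {g : Fin k → R4 → ℝ} (h : Adm (vecCons f g)) : Adm g :=
  ⟨fun i => h.1 i.succ, fun _ _ e => h.2 ((Fin.succ_injective _).ne e)⟩

theorem adm_near {u : Fin m → R4 → ℝ} (hu : Adm u) {f : R4 → ℝ} {g : Fin k → R4 → ℝ}
    (h : Adm (vecCons f g)) : ∀ᶠ t : ℝ in 𝓝[>] 0, ∀ z, f z ≠ 0 →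
      Adm (Fin.append (fun i y => u i (t⁻¹ • (y - z))) g) := by
  obtain ⟨D, -, u1, -⟩ := hu.data
  obtain ⟨-, q, -, -, h3⟩ := h.data
  filter_upwards [Ioo_mem_nhdsGT (show 0 < 1 / (q + 1 : ℝ) / (D + 1) by positivity)] with t ht z hz
  have t0 := ht.1
  refine (hu.comp ((Homeomorph.subRight z).trans (.smulOfNeZero t⁻¹ (inv_ne_zero t0.ne')))
    (show ContDiff ℝ 1 fun y : R4 => t⁻¹ • (y - z) by fun_prop)).append (adm_tail h) fun i j =>
      disjoint_left.2 fun y e e' => ?_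
  have a := u1 i _ (tsupport_comp (θ := fun y => t⁻¹ • (y - z)) (by fun_prop) e)
  have b := h3 0 j.succ (Fin.succ_ne_zero j).symm z (subset_tsupport _ hz) y e'
  rw [norm_smul, Real.norm_of_nonneg (inv_pos.2 t0).le, inv_mul_le_iff₀ t0] at a
  rw [dist_comm, dist_eq_norm] at b
  nlinarith [(lt_div_iff₀ (by positivity)).1 ht.2]

theorem ext_append (a : Fin m → Lab d) (c : Fin k → Lab d) (F : Fin (m + k) → R4 → ℝ) :
    ext S p (m + k) (Fin.append a c) F = ∑ r : (Fin m → Fin 2) × (Fin k → Fin 2),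
      (∏ i, I ^ (r.1 i : ℕ)) * (∏ i, I ^ (r.2 i : ℕ)) *
        S (m + k) (Fin.append (fun i => p (r.1 i) (a i)) fun i => p (r.2 i) (c i)) F := by
  rw [ext, ← (Fin.appendEquiv m k).sum_comp]
  refine Finset.sum_congr rfl fun r _ => ?_
  simp only [Fin.appendEquiv_apply, Fin.prod_univ_add, Fin.append_left, Fin.append_right]
  congr 2
  funext i
  induction i using Fin.addCases <;> simp

theorem ext_cons (a : Lab d) (c : Fin k → Lab d) (F : Fin (k + 1) → R4 → ℝ) :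
    ext S p (k + 1) (vecCons a c) F = ∑ s : Fin k → Fin 2, (∏ i, I ^ (s i : ℕ)) *
      (S (k + 1) (vecCons (p 0 a) fun i => p (s i) (c i)) F +
        I * S (k + 1) (vecCons (p 1 a) fun i => p (s i) (c i)) F) := by
  have e : ∀ (b : Fin 2) (s : Fin k → Fin 2), (fun i => p (Fin.cons (α := fun _ => Fin 2) b s i)
      (vecCons a c i)) = vecCons (p b a) fun i => p (s i) (c i) := fun b s => funext fun i => by
    induction i using Fin.cases <;> simp
  rw [ext, ← (Fin.consEquiv fun _ => Fin 2).sum_comp, Fintype.sum_prod_type, Finset.sum_comm]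
  refine Finset.sum_congr rfl fun s _ => ?_
  simp only [Fin.consEquiv_apply, e, Fin.prod_univ_succ, Fin.sum_univ_two, Fin.cons_zero,
    Fin.cons_succ]
  simp
  ring

theorem app_smul (M : MultilinearMap ℝ (fun _ : Fin (m + k) => V) ℂ) (t : ℝ) (a : Fin m → V)
    (c : Fin k → V) : M (Fin.append (fun i => t • a i) c) = t ^ m * M (Fin.append a c) := by
  have := M.map_smul_univ (Fin.append (fun _ => t) fun _ => 1) (Fin.append a c)
  rw [Fin.prod_univ_add] at this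
  simp only [Fin.append_left, Fin.append_right] at this
  refine (congrArg M (funext fun i => ?_)).trans (this.trans (by simp))
  induction i using Fin.addCases <;> simp

namespace Br
variable (h : Br Φ ρ S₀ L p inc lg t0)
include h

theorem lin_ext (φ : V →ₗ[ℝ] ℂ) {ι : Type} [Fintype ι] (z : ι → ℂ) (b : ι → V) :
    φ (p 0 (∑ s, z s • inc (b s))) + I * φ (p 1 (∑ s, z s • inc (b s))) = ∑ s, z s * φ (b s) := by
  simp only [map_sum, h.p_smul (h.mem _), h.p_inc, Finset.mul_sum, ← Finset.sum_add_distrib]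
  refine Finset.sum_congr rfl fun s _ => ?_
  simp only [smul_zero, add_zero, map_smul, real_smul]
  conv_rhs => rw [← re_add_im (z s)]
  ring

theorem exp (hT : Ext L p T S) (hm : Ml S) (hs : Zo.Sc Φ S₀ sc) {u : Fin 2 → R4 → ℝ} (hu : Adm u)
    {A : ℝ → Fin 2 → L} {B : ℝ → L} {a : (Fin 2 → Fin 2) → ℝ → Fin 2 → V}
    {b : (Fin 2 → Fin 2) → ℝ → V} {D : ℝ} {F : ℝ → V →ₗ[ℝ] V}
    (hA : ∀ s t i, p (s i) (A t i) = F t (a s t i))
    (hB : ∀ t r, p r (B t) = F t (p r (∑ s, (∏ i, I ^ (s i : ℕ)) • inc (b s t))))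
    (e : ∀ s, Zo.Ex S u (fun t i => sc t (F t (a s t i))) (fun t => sc t (F t (b s t))) D) :
    YZ.Exp L T u A B D := fun k c f g hf => by
  let r := (Fin 2 → Fin 2) × (Fin k → Fin 2)
  have e' := fun r : r => e r.1 k (fun i => p (r.2 i) (c i)) f g hf
  refine (IsBigO.fun_sum (s := Finset.univ) fun r _ => (e' r).2.const_mul_left
    ((∏ i, I ^ (r.1 i : ℕ)) * ∏ i, I ^ (r.2 i : ℕ))).congr' ?_ .rfl
  filter_upwards [eventually_all.2 fun r => (e' r).1, adm_near hu hf, self_mem_nhdsWithin]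
    with t i1 i2 (t0 : 0 < t)
  have t1 : (t : ℂ) ≠ 0 := ofReal_ne_zero.2 t0.ne'
  obtain ⟨m, hm'⟩ := hm (k + 1) _ hf
  rw [hT _ _ _ (Fin.cases (h.rho_mem _ _ (B t).2) fun i => (c i).2) hf, ext_cons,
    integral_congr_ae (g := fun z => ∑ r : r, t ^ 8 * ((∏ i, I ^ (r.1 i : ℕ)) *
      (∏ i, I ^ (r.2 i : ℕ)) * Zo.pp S u (fun i => sc t (F t (a r.1 t i))) t
        (fun i => p (r.2 i) (c i)) f g z)) (.of_forall fun z => ?_),
    integral_finsetSum _ fun r _ => ((i1 r).const_mul _).const_mul _]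
  · simp only [integral_const_mul, ← Finset.mul_sum, mul_div_cancel_left₀ _ (pow_ne_zero 8 t1),
      Zo.rm, mul_sub, Finset.sum_sub_distrib]
    congr 1
    rw [Fintype.sum_prod_type, Finset.sum_comm]
    refine Finset.sum_congr rfl fun s _ => ?_
    have := h.lin_ext (m.toLinearMap (vecCons 0 fun i => p (s i) (c i)) 0 ∘ₗ (t ^ 4 • sc t) ∘ₗ F t)
      (fun s : Fin 2 → Fin 2 => ∏ i, I ^ (s i : ℕ)) fun s => b s t
    have e2 := fun v => (m.toLinearMap (vecCons 0 fun i => p (s i) (c i)) 0).map_smul (t ^ 4) v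
    simp only [LinearMap.comp_apply, MultilinearMap.toLinearMap_apply, vecCons,
      Fin.update_cons_zero, LinearMap.smul_apply, ← hB] at this e2
    simp only [hm']
    simp only [h.p_sc hs t0 (B t).2, vecCons]
    rw [this, Finset.mul_sum]
    refine Finset.sum_congr rfl fun s _ => ?_
    rw [e2, real_smul]
    push_cast
    ring
  · by_cases z0 : f z = 0
    · simp [Zo.pp, z0]
    obtain ⟨m, hm'⟩ := hm _ _ (i2 z z0)
    beta_reduce
    rw [hT _ _ _ (Fin.addCases (by simpa using fun i => h.rho_mem _ _ (A t i).2)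
      (by simp)) (i2 z z0), ext_append, Finset.mul_sum]
    refine Finset.sum_congr rfl fun r _ => ?_
    simp only [Zo.pp, hm', h.p_sc hs t0 (A t _).2, hA, app_smul]
    push_cast
    ring

theorem ope (hT : Ext L p T S) (hm : Ml S) (hs : Zo.Sc Φ S₀ sc) {M : ℝ → V ≃ₗ[ℝ] V}
    (e : ∀ (a : Fin 2 → V) u (D : ℕ), Adm u → ∃ δ ∈ Ioc (0 : ℝ) 1, ∃ (C : ℝ → V) (B : V),
      (∀ t, C t ∈ Φ.F D) ∧ Tendsto C (𝓝[>] 0) (𝓝 B) ∧ Zo.Fo Φ S₀ sc a u D B ∧
      Zo.Ex S u (fun t i => sc t (M t (a i))) (fun t => sc t (M t (C t))) (D + δ)) :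
    YZ.Ope L T fun t => h.mm (M t) := fun a u D hu => by
  choose δ d1 C B c1 c2 c3 c4 using fun s : Fin 2 → Fin 2 => e (fun i => p (s i) (a i)) u D hu
  obtain ⟨s₀, h₀⟩ := Finite.exists_min δ
  have m : ∀ b : (Fin 2 → Fin 2) → V, ∑ s, (∏ i, I ^ (s i : ℕ)) • inc (b s) ∈ L := fun b =>
    sum_mem fun _ _ => L.smul_mem (h.mem _) _
  have w : ∀ {S : Cor V} {a b} {D D' : ℝ}, D' ≤ D → Zo.Ex S u a b D → Zo.Ex S u a b D' :=
    fun l e k c f g hf => ⟨(e k c f g hf).1, (e k c f g hf).2.trans (.of_bound' (by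
      filter_upwards [Ioo_mem_nhdsGT one_pos] with t ht
      rw [Real.norm_of_nonneg (Real.rpow_nonneg ht.1.le _),
        Real.norm_of_nonneg (Real.rpow_nonneg ht.1.le _)]
      exact Real.rpow_le_rpow_of_exponent_ge ht.1 ht.2.le l))⟩
  refine ⟨δ s₀, (d1 _).1, fun t => ⟨_, m fun s => C s t⟩, ⟨_, m B⟩, fun t => ?_, fun n => ?_, ?_, ?_⟩
  · exact Zf.mem_Fd.1 (sum_mem fun s _ =>
      Submodule.smul_mem _ _ (Zf.mem_Fd.2 (h.deg D _ (c1 s t))))
  · simp only [coeff_sum, coeff_smul]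
    exact tendsto_finsetSum _ fun s _ => (fil_lim (c1 s) (c2 s) (c3 s).1
      ((lcoeff ℂ n).restrictScalars ℝ ∘ₗ inc)).const_smul _
  · exact h.exp (F := fun _ => .id) (a := fun s _ i => p (s i) (a i)) (b := fun s _ => B s) h.free
      h.ml hs hu (fun _ _ _ => rfl) (fun _ _ => rfl) fun s => w (by linarith [(d1 s₀).2]) (c3 s).2
  · exact h.exp (F := fun t => M t) (a := fun s _ i => p (s i) (a i)) (b := C) hT hm hs hu
      (fun _ _ _ => h.p_mm _ _ _) (fun _ _ => h.p_mm _ _ _) fun s => w (by linarith [h₀ s]) (c4 s)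

end Br

end Pool.Agent.Lib.MP_7f377f_mp.Zg
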