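import Pool.Agent.Lib.MP_7f377f_mp.G.ZhA0
import Pool.Agent.Lib.MP_7f377f_mp.G.ZfO

/-! The coefficients of the free operator product expansion on the space of labels. -/

noncomputable section

namespace Pool.Agent.Lib.MP_7f377f_mp.Zg
variable [Pool.Agent.Lib.MP_7f377f_mp.GD]
set_option linter.unusedSectionVars false

open MeasureTheory MvPolynomial Filter Topology Set YM7 Pur Wm Lm Wv Matrix Sw Zf Function Asymptotics

variable {d k D : ℕ} {𝒜 : Set (Matrix (Fin d) (Fin d) ℝ)} [o : Og 𝒜] {u : Fin 2 → R4 → ℝ}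

/-- the product of two fields at the points `x 0`, `x 1`, expanded at the origin -/
def Bp (a : Fin 2 → V0 𝒜) (D : ℕ) (x : Fin 2 → R4) : V0 𝒜 :=
  p0 𝒜 ⟨tr D (ph (D + 1) x (qx (fun i => (a i).1) x)), mem_Iv.2 fun A e => by
    rw [tr_ad, ph_ad (o.orth A e) _ fun i => mem_Iv.1 (a i).2.1 A e]⟩

theorem Bp_val (a : Fin 2 → V0 𝒜) (x) :
    (Bp a D x).1 = pj (tr D (ph (D + 1) x (qx (fun i => (a i).1) x))) := rfl

theorem Bp_mem (a : Fin 2 → V0 𝒜) (x) : Bp a D x ∈ (fil 𝒜).F D := pj_Fd (mem_Fd.2 (tr_deg _ _))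

theorem Bp_cont (a : Fin 2 → V0 𝒜) : ContinuousOn (Bp a D) {x | Injective x} :=
  Topology.IsInducing.subtypeVal.continuousOn_iff.2 (Fc.ind
    (p := fun F => ContinuousOn (fun x => pj (tr D (F x))) {x | Injective x})
    (fun b P e => by simpa only [map_smul] using e.fun_smul continuousOn_const)
    (fun _ _ a c => by simpa only [map_add] using a.fun_add c) (ph_Fc (D + 1) fun i => (a i).1))

theorem rh_pj (t : ℝ) (P : Lb d ℝ) (c : Fin k → Lb d ℝ) (i) :
    vecCons (rh (t • 1) P) c i - vecCons (rh (t • 1) (pj P)) c i ∈ Nl d ℝ := by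
  cases i using Fin.cases
  · simpa [pj_rh (smul_o t)] using sub_pj (rh (t • 1) P)
  · simp

/-- the expansion at points -/
theorem Bp_pt {s : Set (Om k)} (hs : IsCompact s) (h : ∀ y ∈ s, Injective y.1 ∧ Injective y.2)
    (a : Fin 2 → V0 𝒜) (c : Fin k → Lb d ℝ) : (fun y : ℝ × Om k =>
      fp (Sum.elim (fun i => rh (y.1 • 1) (a i).1) c) (yt y.1 y.2.1 y.2.2) -
      fp (vecCons (rh (y.1 • 1) (Bp a D y.2.2).1) c) y.2.1) =O[Fl s] fun y => y.1 ^ (D + 1) :=
  (ope_pt hs h D (fun i => (a i).1) c).congr_left fun y =>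
    congrArg _ (fp_mod (rh_pj _ _ c) _)

/-- the smeared expansion -/
theorem fo1 (a : Fin 2 → V0 𝒜) (D : ℕ) (hu : Adm u) : ∃ B, Zo.Fo (fil 𝒜) (S0 𝒜) (sc 𝒜) a u D B ∧
    ∀ l : V0 𝒜 →ₗ[ℝ] ℝ, l B = ∫ x : Fin 2 → R4, (∏ i, u i (x i)) * l (Bp a D x) := by
  obtain ⟨B, hB, h⟩ := s_ope' d ℝ (fun i => (a i).1) D hu
  simp only [RCLike.ofReal_real_eq_id, id] at hB h
  have m : tr D B ∈ Iv ℝ 𝒜 := mem_Iv.2 fun A e =>
    (tr_ad D A B).trans (congrArg _ (MvPolynomial.ext _ _ fun m =>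
      (hB (lcoeff ℝ m ∘ₗ (ad A).toLinearMap)).trans (.trans (by
        simp only [LinearMap.comp_apply, AlgHom.toLinearMap_apply,
          ph_ad (o.orth A e) _ fun i => mem_Iv.1 (a i).2.1 A e]) (hB (lcoeff ℝ m)).symm)))
  refine ⟨p0 𝒜 ⟨_, m⟩, ⟨pj_Fd (mem_Fd.2 (tr_deg _ _)), fun k c f g hg => ?_⟩, fun l => ?_⟩
  · obtain ⟨h1, h2⟩ := h k (fun i => (c i).1) f g hg _ fun _ _ => rfl
    have e : ∀ t, Zo.pp (S0 𝒜) u (fun i => sc 𝒜 t (a i)) t c f g = fun z => (((t ^ 8)⁻¹ * (f z *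
        fr (Fin.append (fun i => rh (t • 1) (a i).1) fun i => (c i).1)
          (Fin.append (fun i y => u i (t⁻¹ • (y - z))) g)) : ℝ) : ℂ) := fun t => funext fun z => by
      have := fr_smul (Fin.append (fun _ : Fin 2 => (t ^ 4)⁻¹) fun _ : Fin k => 1)
        (Fin.append (fun i => rh (t • 1) (a i).1) fun i => (c i).1)
        (Fin.append (fun i y => u i (t⁻¹ • (y - z))) g)
      rw [Zo.pp, S0, ← Complex.ofReal_mul, mul_left_comm]
      refine congrArg (fun r : ℝ => ((f z * r : ℝ) : ℂ)) (Eq.trans (congrArg (fr · _) (funext fun i => ?_))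
        (this.trans ?_))
      · induction i using Fin.addCases <;> simp [sc_val]
      · simp [Fin.prod_univ_add, ← pow_mul]
    refine ⟨h1.mono fun t p => e t ▸ (p.const_mul _).ofReal, (Complex.isBigO_ofReal_left.2 h2).congr'
      (eventually_mem_nhdsWithin.mono fun t (t0 : 0 < t) => ?_) (.of_forall fun t => ?_)⟩
    · simp only [Zo.rm, e, integral_complex_ofReal, integral_const_mul, S0_cons, sc_val, fr_smul0,
        p0_val, ← fr_mod (rh_pj _ _ _)]
      have : (t : ℂ) ≠ 0 := by exact_mod_cast t0.ne'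
      push_cast
      field_simp
    · simp only [← Real.rpow_natCast]
      push_cast
      rfl
  · obtain ⟨L, e⟩ := LinearMap.exists_extend l
    have k (v : V0 𝒜) : l v = L v := (LinearMap.congr_fun e v).symm
    simpa only [k, p0_val, Bp_val, LinearMap.comp_apply] using hB (L ∘ₗ pj ∘ₗ tr D)

theorem fo2 (a u D) (hu : Adm u) : ∃ B, Zo.Fo (fil 𝒜) (S0 𝒜) (sc 𝒜) a u D B :=
  (fo1 a D hu).imp fun _ => And.left

end Pool.Agent.Lib.MP_7f377f_mp.Zg
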