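import Pool.Agent.Lib.MP_7f377f_mp.G.ZoB

/-! Slow renormalisation: the graded part. -/

noncomputable section

namespace Pool.Agent.Lib.MP_7f377f_mp.Zo
variable [Pool.Agent.Lib.MP_7f377f_mp.GD]
set_option linter.unusedSectionVars false

open Filter Topology Set YM7 Pur Wm Lm Wv S3 Sw Function Sw.Fil
open Ro (Iso)

variable {V P : Type} [NormedAddCommGroup V] [NormedSpace ℝ V] [CommRing P] [Algebra ℂ P]
  {Φ : Fil V} {N : Net P} {x : V → (R4 → ℝ) → P} {W : P →ₗ[ℂ] ℂ} {ρ : Iso →* V →ₗ[ℝ] V}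
  {A : ℝ → V ≃ₗ[ℝ] V} {S : Cor V} {sc : ℝ → V →ₗ[ℝ] V} {D : ℕ} {c c' : V}

theorem ext_π (Φ : Fil V) (h : ∀ d, Φ.π d c = Φ.π d c') : c = c' := by
  obtain ⟨D, h1, h2⟩ := Φ.ex₂ c c'
  rw [← Φ.π_sum h1, ← Φ.π_sum h2]
  simp only [h]

theorem glue_π {β : ℕ → Φ.alg} (hβ : ∀ d d' c, d' ≠ d → Φ.π d ((β d').1 (Φ.π d' c)) = 0) (d c) :
    Φ.π d ((Φ.glue fun d => Φ.res d (β d)).1 c) = Φ.π d ((β d).1 (Φ.π d c)) := by
  obtain ⟨D, hc⟩ := Φ.ex c
  rw [glue_apply _ (Φ.mono (le_max_left D d) hc), map_sum]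
  exact Finset.sum_eq_single d (fun d' _ e => hβ d d' c e) (by simp [Nat.lt_succ_iff])

theorem π_low (M : Φ.alg) (h : c ∈ Φ.F D) : Φ.π D (M.1 (Φ.π D c)) = Φ.π D (M.1 c) := by
  conv_rhs => rw [← Φ.π_sum h, Finset.sum_range_succ, map_add, map_add, map_sum, map_sum,
    Finset.sum_eq_zero fun d hd => Φ.π_zero (M.2 d _ (Φ.π_mem d c)) (Finset.mem_range.1 hd), zero_add]

theorem nrm0 {𝔸 : Type} [NormedRing 𝔸] {s : Finset ℕ} {p : ℕ → 𝔸} (h1 : ∑ d ∈ s, p d = 1) (e : 𝔸)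
    {b : ℝ} (h : ∀ d' d, ‖p d' * e * p d‖ ≤ ‖p d'‖ * b * ‖p d‖) : ‖e‖ ≤ (∑ d ∈ s, ‖p d‖) ^ 2 * b := by
  rw [← one_mul e, ← mul_one (1 * _), ← h1, Finset.sum_mul, Finset.sum_mul_sum, sq,
    Finset.sum_mul_sum, Finset.sum_mul]
  refine norm_sum_le_of_le _ fun d' _ => ?_
  rw [Finset.sum_mul]
  exact norm_sum_le_of_le _ fun d _ => by simpa only [mul_right_comm _ b] using h d' d

namespace Sc1
variable (hs : Sc1 Φ S sc)
include hs

theorem pp (d c) : Φ.π d (Φ.π d c) = Φ.π d c := by simp [hs.pi]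

theorem pc (d d' c) : Φ.π d' (Φ.π d c) = Φ.π d (Φ.π d' c) := by
  by_cases e : d = d'
  · rw [e]
  · simp [hs.pi, e, Ne.symm e]

/-- the projections -/
def pa (d : ℕ) : Φ.alg := ⟨Φ.π d, up_of (hs.pc d)⟩

/-- the dilations -/
def sa (s : ℝ) : Φ.alg := ⟨sc s, hs.up s⟩

theorem gr_π' (M : Φ.alg) (d c) :
    Φ.π d ((Φ.glue fun d => Φ.res d (hs.pa d * M)).1 c) = Φ.π d (M.1 (Φ.π d c)) :=
  (glue_π (fun d d' c e => (hs.pi ..).trans (if_neg e.symm)) d c).trans (hs.pp ..)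

/-- the graded part -/
def gr : Φ.alg →+* Φ.alg where
  toFun M := Φ.glue fun d => Φ.res d (hs.pa d * M)
  map_one' := Subtype.ext (LinearMap.ext fun c => ext_π Φ fun d => (hs.gr_π' ..).trans (hs.pp ..))
  map_mul' M M' := Subtype.ext (LinearMap.ext fun c => ext_π Φ fun d => (hs.gr_π' ..).trans
    (.symm ((hs.gr_π' ..).trans (by rw [hs.gr_π', π_low (D := d) M (M'.2 d _ (Φ.π_mem d c))]; rfl))))
  map_zero' := Subtype.ext (LinearMap.ext fun c => ext_π Φ fun d => hs.gr_π' ..)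
  map_add' M M' := Subtype.ext (LinearMap.ext fun c => ext_π Φ fun d => (hs.gr_π' ..).trans
    ((map_add ..).trans (.symm ((map_add ..).trans (by rw [hs.gr_π', hs.gr_π'])))))

theorem gr_π (M : Φ.alg) (d c) : Φ.π d ((hs.gr M).1 c) = Φ.π d (M.1 (Φ.π d c)) := hs.gr_π' ..

theorem gr_comm (M : Φ.alg) {L : V →ₗ[ℝ] V} (h : ∀ d c, Φ.π d (L c) = L (Φ.π d c))
    (h' : ∀ d c, Φ.π d (M.1 (L (Φ.π d c))) = Φ.π d (L (M.1 (Φ.π d c)))) (c) :
    (hs.gr M).1 (L c) = L ((hs.gr M).1 c) :=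
  ext_π Φ fun d => by rw [hs.gr_π, h, h', h, h, hs.gr_π]

theorem gr_gr (M : Φ.alg) (d c) : Φ.π d ((hs.gr M).1 c) = (hs.gr M).1 (Φ.π d c) :=
  (hs.gr_comm M (hs.pc d) (fun d' c => by
    by_cases e : d = d'
    · rw [e, hs.pp, hs.pp]
    · simp [hs.pi, e, Ne.symm e]) c).symm

theorem nrm (e : Φ.alg) {b : ℝ} (h : ∀ d' d, ‖Φ.res D (hs.pa d' * e * hs.pa d)‖ ≤
    ‖Φ.res D (hs.pa d')‖ * b * ‖Φ.res D (hs.pa d)‖) :
    ‖Φ.res D e‖ ≤ (∑ d ∈ Finset.range (D + 1), ‖Φ.res D (hs.pa d)‖) ^ 2 * b :=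
  nrm0 (𝔸 := Φ.L D) (ContinuousLinearMap.ext fun c => Subtype.ext ((map_sum (ap c) _ _).trans (Φ.π_sum c.2))) _
    fun d' d => by simpa only [map_mul] using h d' d

theorem grd (D : ℕ) : ∃ K ≥ (0 : ℝ), Gr (Φ.res D).toRingHom hs.gr hs.sa K := by
  have n : ∀ d' a d, ‖Φ.res D (hs.pa d' * a * hs.pa d)‖ ≤
      ‖Φ.res D (hs.pa d')‖ * ‖Φ.res D a‖ * ‖Φ.res D (hs.pa d)‖ := fun d' a d => by
    rw [map_mul, map_mul]
    exact norm_mul₃_le
  refine ⟨_, sq_nonneg _, fun a => ?_, fun r => ?_, fun r a => ?_, fun r r0 s s0 => ?_, ?_,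
    fun a => hs.nrm _ fun d' d => ?_, fun a ha r hr => (hs.nrm _ (b := r * ‖Φ.res D a‖)
      fun d' d => ?_).trans_eq (mul_assoc ..).symm⟩
  · exact Subtype.ext (LinearMap.ext fun c => ext_π Φ fun d => by rw [hs.gr_π, ← hs.gr_gr, hs.pp])
  · exact Subtype.ext (LinearMap.ext fun c => ext_π Φ fun d => (hs.gr_π ..).trans
      ((congrArg _ (hs.comm (hs.pc d) r c)).trans (hs.pp ..)))
  · exact Subtype.ext (LinearMap.ext (hs.comm (hs.gr_gr a) r))
  · exact Subtype.ext (LinearMap.ext (hs.mul r0 s0))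
  · exact Subtype.ext (LinearMap.ext hs.one)
  · by_cases e : d' = d
    · subst e
      exact (congrArg (‖Φ.res D ·‖) (Subtype.ext (LinearMap.ext fun c =>
        (hs.gr_π ..).trans (congrArg (Φ.π d' <| a.1 ·) (hs.pp ..))))).trans_le (n d' a d')
    · rw [show hs.pa d' * hs.gr a * hs.pa d = 0 from Subtype.ext (LinearMap.ext fun c =>
        (hs.gr_π ..).trans (by simp [pa, hs.pi, e])), map_zero, norm_zero]
      positivity
  · have r0 := hr.1
    rw [show hs.pa d' * (hs.sa r⁻¹ * a * hs.sa r) * hs.pa d =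
      r ^ ((d : ℤ) - d') • (hs.pa d' * a * hs.pa d) from Subtype.ext (LinearMap.ext fun c => by
        change Φ.π d' (sc _ (a.1 (sc _ (Φ.π d c)))) = r ^ ((d : ℤ) - d') • Φ.π d' (a.1 (Φ.π d c))
        rw [← hs.comm (hs.pc d'), hs.eq _ r0, hs.eq _ (inv_pos.2 r0), map_smul, map_smul, smul_smul, inv_zpow',
          ← zpow_add₀ r0.ne']
        congr 2
        ring), map_smul, norm_smul]
    rcases lt_trichotomy d' d with e | rfl | e
    · have : ‖r ^ ((d : ℤ) - d')‖ ≤ r := by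
        rw [Real.norm_of_nonneg (by positivity)]
        exact (zpow_le_zpow_right_of_le_one₀ r0 hr.2 (by omega)).trans_eq (zpow_one r)
      exact (mul_le_mul this (n ..) (norm_nonneg _) r0.le).trans_eq (by ring)
    · rw [show hs.pa d' * a * hs.pa d' = 0 from Subtype.ext (LinearMap.ext fun c =>
        (hs.gr_π ..).symm.trans (by simp [ha])), map_zero, norm_zero, mul_zero]
      positivity
    · rw [show hs.pa d' * a * hs.pa d = 0 from Subtype.ext (LinearMap.ext fun c =>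
        Φ.π_zero (a.2 d _ (Φ.π_mem d c)) e), map_zero, norm_zero, mul_zero]
      positivity

end Sc1

theorem bs_of (h : Rg Φ N x W ρ A S) (hs : Sc1 Φ S sc) (hb : Bdu x W A)
    (gr : ∀ R d c, Φ.π d (ρ R c) = ρ R (Φ.π d c)) (J : Φ.algˣ) (D : ℕ) :
    ∃ C ≥ (0 : ℝ), Bs (Φ.res D).toRingHom hs.sa (fun t => J⁻¹ * Φ.un (A t) (h.up t)) C := by
  refine (bd h hs hb gr D).imp fun C ⟨C0, H⟩ => ⟨C0, fun κ κ0 => ?_⟩
  by_contra! e
  choose s m s' m' a ha a' ha' e b using fun n : ℕ => e _ (Nat.one_div_pos_of_nat (n := n))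
  have t : ∀ {s : ℕ → ℝ}, (∀ n : ℕ, s n ∈ Ioc 0 (1 / ((n : ℝ) + 1))) → Tendsto s atTop (𝓝[>] 0) :=
    fun m => tendsto_nhdsWithin_iff.2 ⟨squeeze_zero (fun n => (m n).1.le) (fun n => (m n).2)
      tendsto_one_div_add_atTop_nhds_zero_nat, .of_forall fun n => (m n).1⟩
  obtain ⟨n, hn⟩ := (H ℕ atTop s s' a a' κ κ0 (t m) (t m') (.of_forall fun n => ⟨ha n, ha' n, e n⟩)).exists
  refine (b n).not_ge (ContinuousLinearMap.opNorm_le_bound _ C0 fun c => ?_)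
  rw [mul_assoc (hs.sa _), ← Units.val_mul, mul_inv_rev, inv_inv, mul_assoc _ J, mul_inv_cancel_left]
  exact hn c c.2

theorem slow' (h : Rg Φ N x W ρ A S) (hs : Sc1 Φ S sc) (hb : Bdu x W A)
    (gr : ∀ R d c, Φ.π d (ρ R c) = ρ R (Φ.π d c)) {J : V ≃ₗ[ℝ] V} {X : ℝ → V →ₗ[ℝ] V}
    (upJ : Φ.Up 0 J ∧ Φ.Up 0 J.symm) (upX : ∀ t, Φ.Up 0 (X t))
    (lim : ∀ c, Tendsto (fun t => X t c) (𝓝[>] 0) (𝓝 c))
    (comm : ∀ t R c, J.symm (A t (X t (ρ R c))) = ρ R (J.symm (A t (X t c)))) :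
    ∃ M, Slow Φ ρ A sc J M := by
  classical
  let u : ℝ → Φ.algˣ := fun t => (Φ.un J upJ)⁻¹ * Φ.un (A t) (h.up t)
  let y : ℝ → Φ.alg := fun t => ⟨X t, upX t⟩
  let G : ℝ → Φ.alg := fun t => hs.sa t⁻¹ * hs.gr (u t * y t)
  let β : ℝ → ℕ → Φ.alg := fun t d => if IsUnit (Φ.res d (G t)) then G t else 1
  have b : ∀ t d (L : V →ₗ[ℝ] V), (∀ d c, Φ.π d (L c) = L (Φ.π d c)) →
      (∀ d c, Φ.π d ((u t * y t).1 (L (Φ.π d c))) = Φ.π d (L ((u t * y t).1 (Φ.π d c)))) →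
      ∀ c, (β t d).1 (L c) = L ((β t d).1 c) := fun t d L h1 h2 c => by
    simp only [β]
    split_ifs
    · exact (congrArg (sc _) (hs.gr_comm _ h1 h2 c)).trans (hs.comm h1 _ _)
    · rfl
  have b1 : ∀ t d d' c, Φ.π d' ((β t d).1 c) = (β t d).1 (Φ.π d' c) := fun t d d' c => by
    simp only [β]
    split_ifs
    · exact (hs.comm (hs.pc d') _ _).symm.trans (congrArg (sc _) (hs.gr_gr ..))
    · rfl
  let m : ℝ → Φ.alg := fun t => Φ.glue fun d => Φ.res d (β t d)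
  have m1 : ∀ t d c, Φ.π d ((m t).1 c) = (β t d).1 (Φ.π d c) := fun t d c => by
    rw [glue_π fun d d' c e => by simp [b1, hs.pi, e.symm], b1, hs.pp]
  have m2 : ∀ t, Injective (m t).1 := fun t => (injective_iff_map_eq_zero _).2 fun c e =>
    ext_π Φ fun d => by
      have := m1 t d c
      rw [e, map_zero] at this
      simp only [β] at this
      split_ifs at this with q
      · exact (congrArg Subtype.val ((ContinuousLinearMap.isUnit_iff_bijective.1 q).1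
          (a₁ := ⟨_, Φ.π_mem d c⟩) (a₂ := 0) (Subtype.ext (this.symm.trans (map_zero _).symm)))).trans
          (map_zero _).symm
      · exact this.symm.trans (map_zero _).symm
  let M := fun t => LinearEquiv.ofBijective (m t).1 ⟨m2 t, fun c =>
    let ⟨w, e⟩ := isUnit (m2 t)
    ⟨w⁻¹.1.1 c, e ▸ congrArg (fun L : Φ.alg => L.1 c) w.mul_inv⟩⟩
  have y1 : ∀ D, Tendsto (fun t => Φ.res D (hs.gr (y t))) (𝓝[>] 0) (𝓝 1) := fun D => by
    obtain ⟨K, -, g⟩ := hs.grd D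
    have := (tendsto_iff_norm_sub_tendsto_zero.1 ((cv_iff (M := y) (M' := 1)).2 lim D)).const_mul K
    refine tendsto_iff_norm_sub_tendsto_zero.2 (squeeze_zero (fun _ => norm_nonneg _) (fun t => ?_)
      (mul_zero K ▸ this))
    simpa using g.bd (y t - 1)
  have y2 : ∀ D, ∀ᶠ t in 𝓝[>] 0, IsUnit (Φ.res D (hs.gr (y t))) := fun D =>
    (y1 D).eventually (Units.nhds 1)
  have e : ∀ D, ∀ᶠ t in 𝓝[>] 0, 0 < t ∧ ∀ c ∈ Φ.F D, M t c = (G t).1 c := fun D => by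
    filter_upwards [self_mem_nhdsWithin, (eventually_all_finset (Finset.range (D + 1))).2
      fun d _ => y2 d] with t t0 ht
    refine ⟨t0, fun c hc => (glue_apply _ hc).trans ?_⟩
    obtain ⟨K, -, g⟩ := hs.grd D
    rw [← Φ.π_sum hc, map_sum, Φ.π_sum hc]
    refine Finset.sum_congr rfl fun d hd => ?_
    rw [res_apply, show β t d = G t from if_pos (by
      simp only [G, map_mul]
      exact (IsUnit.map _ ⟨⟨_, _, (g.inv t0).2, (g.inv t0).1⟩, rfl⟩).mul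
        ((((u t).isUnit.map _).map _).mul (ht d hd)))]
  refine ⟨M, fun t d c => ext_π Φ fun d' => ?_, fun t R c => ext_π Φ fun d => ?_, fun c => ?_,
    fun ε ε0 c => ?_⟩
  · change Φ.π _ ((m t).1 _) = Φ.π _ (Φ.π _ ((m t).1 _))
    rw [hs.pc, m1, m1, hs.pc, b1]
  · change Φ.π _ ((m t).1 _) = Φ.π _ (ρ R ((m t).1 _))
    rw [gr, m1, m1, gr, b t d _ (gr R) fun d c => congrArg _ (comm t R _)]
  all_goals
    obtain ⟨D, hc⟩ := Φ.ex c
    obtain ⟨K, K0, g⟩ := hs.grd D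
    obtain ⟨C, C0, hC⟩ := bs_of h hs hb gr (Φ.un J upJ) D
    have k := fun Y => (ap ⟨c, hc⟩).continuous.tendsto Y
  · have := g.lim hC K0 C0
    simp only [map_sub, map_one] at this
    have := (k _).comp ((tendsto_iff_norm_sub_tendsto_zero.2 this).mul (y1 D))
    rw [one_mul] at this
    refine this.congr' ((e D).mono fun t ht => ?_)
    change _ = (A t).symm (J (sc t (M t c)))
    rw [ht.2 c hc]
    change _ = (A t).symm (J (sc t (sc t⁻¹ ((hs.gr (u t * y t)).1 c))))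
    rw [hs.can ht.1, map_mul]
    rfl
  · obtain ⟨s1, s2⟩ := g.slow hC K0 C0 ε0
    have z : ∀ {Y : ℝ → Φ.L D}, Tendsto (fun t : ℝ => t ^ ε * ‖Y t‖) (𝓝[>] 0) (𝓝 0) →
        Tendsto (fun t : ℝ => t ^ ε • Y t) (𝓝[>] 0) (𝓝 0) := fun h =>
      tendsto_zero_iff_norm_tendsto_zero.2 (h.congr' (eventually_mem_nhdsWithin.mono
        fun t (ht : 0 < t) => show _ = ‖_ • _‖ by rw [norm_smul, Real.norm_of_nonneg (by positivity)]))
    have a1 := (k _).comp ((z s1).mul (y1 D))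
    have a2 := (k _).comp ((((NormedRing.inverse_continuousAt 1).tendsto.comp (y1 D))).mul (z s2))
    rw [zero_mul, map_zero] at a1
    rw [mul_zero, map_zero] at a2
    refine ⟨a1.congr' ((e D).mono fun t ht => ?_), a2.congr' (((e D).and (y2 D)).mono fun t ht => ?_)⟩
    · simp only [ht.2 c hc, G, map_mul, comp_apply, smul_mul_assoc, map_smul]
      rfl
    · simp only [comp_apply, mul_smul_comm, map_smul]
      refine congrArg _ ((M t).eq_symm_apply.2 ((ht.1.2 _ (Subtype.property _)).trans ?_))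
      have : Φ.res D (G t) * (Ring.inverse (Φ.res D (hs.gr (y t))) *
          Φ.res D (hs.gr (u t)⁻¹.1 * hs.sa t)) = 1 := by
        simp only [G]
        rw [map_mul hs.gr, ← mul_assoc (hs.sa _), map_mul, mul_assoc, Ring.mul_inverse_cancel_left _ _ ht.2,
          ← map_mul, mul_assoc, ← mul_assoc (hs.gr _), ← map_mul, Units.mul_inv, map_one, one_mul,
          (g.inv ht.1.1).2, map_one]
      exact congrArg (ap ⟨c, hc⟩) this

end Pool.Agent.Lib.MP_7f377f_mp.Zo
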