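import Pool.Agent.Lib.MP_7f377f_mp.G.ZoE

/-! The limit of the coefficients of the operator product expansion. -/

noncomputable section

namespace Pool.Agent.Lib.MP_7f377f_mp.Zo
variable [Pool.Agent.Lib.MP_7f377f_mp.GD]
set_option linter.unusedSectionVars false

open MeasureTheory Filter Topology Set YM7 Pur Wm Lm Wv S3 Matrix Sw Function Asymptotics Module
open Ro (Iso)

variable {V P ι : Type} [NormedAddCommGroup V] [NormedSpace ℝ V] [CommRing P] [Algebra ℂ P]
  {Φ : Fil V} {N : Net P} {x : V → (R4 → ℝ) → P} {W : P →ₗ[ℂ] ℂ} {ρ : Iso →* V →ₗ[ℝ] V}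
  {A : ℝ → V ≃ₗ[ℝ] V} {S T : Cor V} {sc : ℝ → V →ₗ[ℝ] V} {k m D : ℕ} {l : Filter ι}
  {u : Fin 2 → R4 → ℝ} {f : R4 → ℝ} {g : Fin k → R4 → ℝ} {t : ℝ}

theorem coef (h : Rg Φ N x W ρ A S) (hs : Sc1 Φ S sc) (hb : Bdu x W A)
    (gr : ∀ R d c, Φ.π d (ρ R c) = ρ R (Φ.π d c)) {a : Fin 2 → V} {δ : ℝ} {C : ℝ → V} {B : V}
    (hu : Adm u) (δ0 : 0 < δ) (hC : ∀ t, C t ∈ Φ.F D)
    (h3 : ∀ c f g, Adm ![f, g] → ∃ C₀ : ℝ, ∀ᶠ r : ℝ in 𝓝[>] 0, ∀ᶠ s : ℝ in 𝓝[>] 0,
      ‖rm (cor x W) u (fun i => A (r * s) (a i)) (A (r * s) (C (r * s))) (r * s) ![A s c]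
        (fun y => f (s⁻¹ • y)) ![fun y => g (s⁻¹ • y)]‖ ≤ C₀ * s ^ 4 * r ^ (D + δ))
    (hB : Fo Φ S sc a u D B) : Tendsto C (𝓝[>] 0) (𝓝 B) := by
  refine (tendsto_iff_ultrafilter _ _ _).2 fun U hU => Metric.tendsto_nhds.2 fun ε ε0 => ?_
  refine U.eventually_or.1 (.of_forall fun t => lt_or_ge (dist (C t) B) ε) |>.elim id fun e => ?_
  simp only [dist_eq_norm] at e
  have m := fun t => (Φ.F D).smul_mem ‖C t - B‖⁻¹ (sub_mem (hC t) hB.1)
  have n1 : ∀ᶠ t in (U : Filter ℝ), ‖‖C t - B‖⁻¹ • (C t - B)‖ = 1 := e.mono fun t e => by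
    simp [norm_smul, (ε0.trans_le e).ne']
  obtain ⟨w, hw, tw⟩ := exists_lim U m (n1.mono fun _ e => e.le)
  obtain ⟨f, hf, ne⟩ := h.low w (by
    rintro rfl
    simpa using tendsto_nhds_unique tw.norm (tendsto_const_nhds.congr' (n1.mono fun _ e => e.symm)))
  have ad := adm_rf hf
  generalize (fun y => f (rf 0 y)) = g at ad ne
  have hc := up_of (gr (rfL 0)) D w hw
  generalize ρ (rfL 0) w = c at hc ne
  let b := finBasis ℝ (Φ.F D)
  choose C₀ h0 using fun j => h3 (b j) f g ad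
  obtain ⟨Cb, -, hCb⟩ := bd h hs hb gr D
  obtain ⟨i2, C₂⟩ := hB.2 1 ![c] f ![g] ad
  obtain ⟨C₂, h2⟩ := C₂.bound
  let C₁ := ∑ j, ‖(b.coord j).toContinuousLinearMap‖ * (Cb * ‖c‖) * |C₀ j|
  have key : ∀ᶠ r : ℝ in 𝓝[>] 0, ‖(r : ℂ) ^ 4 * S 2 ![sc r w, c] ![f, g]‖ ≤
      ε⁻¹ * (C₁ * r ^ (D + δ) + C₂ * ‖r ^ (D + 1 : ℝ)‖) := by
    filter_upwards [eventually_all.2 h0, h2, adm_app hu ad, Ioo_mem_nhdsGT one_pos] with r p1 p2 p3 hr
    have r0 := hr.1
    have r1 : r⁻¹ ∈ Icc r r⁻¹ ∧ 1 ∈ Icc r r⁻¹ :=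
      have := (one_le_inv₀ r0).2 hr.2.le
      ⟨⟨hr.2.le.trans this, le_rfl⟩, hr.2.le, this⟩
    have ts : Tendsto (fun t => r⁻¹ * t) (𝓝[>] 0) (𝓝[>] 0) := tendsto_nhdsWithin_iff.2
      ⟨tendsto_nhdsWithin_of_tendsto_nhds ((continuous_const_mul _).tendsto' _ _ (mul_zero _)),
        eventually_mem_nhdsWithin.mono fun t ht => mul_pos (inv_pos.2 r0) ht⟩
    let F : ℝ → R4 → ℂ := fun t z =>
      cor x W _ (fun i => A t (sc r⁻¹ (sc r (Fin.append a ![sc r⁻¹ c] i))))
        fun i y => Fin.append (fun i y => u i (r⁻¹ • (y - z))) ![g] i ((r⁻¹ * t)⁻¹ • y)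
    let Λ : ℝ → V → ℂ := fun t b => cor x W 2 (fun i => A t (sc r⁻¹ (![sc r b, c] i)))
      fun i y => ![f, g] i ((r⁻¹ * t)⁻¹ • y)
    have ea : (fun i => sc r (Fin.append a ![sc r⁻¹ c] i)) = Fin.append (fun i => sc r (a i)) ![c] := by
      funext i
      fin_cases i
      exacts [rfl, rfl, hs.can r0 c]
    obtain ⟨D', hD⟩ := exF Φ fun i => sc r (Fin.append a ![sc r⁻¹ c] i)
    have cF := fun z hz => afu' (l := 𝓝[>] 0 ×ˢ 𝓝 z) (a := fun _ => r⁻¹) h hs hb tendsto_fst r0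
      (.of_forall fun _ => r1.1) (fun _ => hD) hD (fun _ => tendsto_const_nhds) (p3 z hz)
      fun i => (cv_app hu (fun i => (ad.1 i.succ).2) r0.ne' z i).comp tendsto_snd
    obtain ⟨M, hM⟩ := (ad.1 0).1.isCompact.induction_on
      (p := fun K => ∃ M, ∀ᶠ t in 𝓝[>] 0, ∀ z ∈ K, ‖F t z‖ ≤ M) ⟨0, by simp⟩
      (fun _ _ e ⟨M, p⟩ => ⟨M, p.mono fun _ p z hz => p z (e hz)⟩)
      (fun _ _ ⟨M, p⟩ ⟨M', p'⟩ => ⟨max M M', (p.and p').mono fun _ p z hz =>
        hz.elim (fun e => (p.1 z e).trans (le_max_left ..)) fun e => (p.2 z e).trans (le_max_right ..)⟩)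
      fun z hz =>
        let ⟨_, p, _, q, e⟩ := eventually_prod_iff.1 ((cF z hz).norm.eventually_le_const (lt_add_one _))
        ⟨_, mem_nhdsWithin_of_mem_nhds q, _, p.mono fun _ p _ q => e p q⟩
    have cΛ : ∀ {v : ℝ → V} {v₀}, (∀ t, v t ∈ Φ.F D) → v₀ ∈ Φ.F D → Tendsto v U (𝓝 v₀) →
        Tendsto (fun t => Λ t (v t)) U (𝓝 (S 2 ![sc r v₀, c] ![f, g])) := fun m m0 tv =>
      afu' (a := fun _ => r⁻¹) (g := fun _ => _) h hs hb (tendsto_id'.2 hU) r0
        (.of_forall fun _ => r1.1) (fun t => Fin.forall_fin_two.2 ⟨hs.up r D _ (m t), hc⟩)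
        (Fin.forall_fin_two.2 ⟨hs.up r D _ m0, hc⟩)
        (Fin.forall_fin_two.2 ⟨lin_tend _ m m0 tv, tendsto_const_nhds⟩) ad fun i => cv1_const (ad.1 i).2
    have k : ∀ᶠ t in 𝓝[>] 0, Integrable (fun z => f z * F t z) ∧
        ‖(∫ z, f z * F t z) - r ^ 4 * Λ t (C t)‖ ≤ C₁ * r ^ (D + δ) := by
      filter_upwards [self_mem_nhdsWithin, ts.eventually (eventually_all.2 p1), hCb ℝ _ id _ (fun _ => r⁻¹)
        (fun _ => 1) r r0 tendsto_id ts (.of_forall fun t => ⟨r1.1, r1.2, (one_mul _).symm⟩)]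
        with t (t0 : 0 < t) q1 q2
      have q2 := q2 c hc
      obtain ⟨s, rfl⟩ : ∃ s, t = r * s := ⟨_, (mul_inv_cancel_left₀ r0.ne' t).symm⟩
      have s0 : 0 < s := (mul_pos_iff_of_pos_left r0).1 t0
      simp only [F, Λ, inv_mul_cancel_left₀ r0.ne', inv_one, hs.one, id] at q1 q2 ⊢
      let v : Φ.F D := ⟨(A s).symm (A (r * s) (sc r⁻¹ c)), (h.up _).2 D _ ((h.up _).1 D _ (hs.up _ D _ hc))⟩
      have ev : A (r * s) (sc r⁻¹ c) = ∑ j, b.coord j v • A s (b j) := by
        rw [← (A s).apply_symm_apply (A (r * s) _)]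
        change A s v.1 = _
        conv_lhs => rw [← b.sum_repr v]
        simp only [Submodule.coe_sum, Submodule.coe_smul, map_sum, map_smul]
        rfl
      have a1 : Adm (vecCons (fun y => f (s⁻¹ • y)) ![fun y => g (s⁻¹ • y)]) := by
        convert ad.smul (inv_pos.2 s0).ne' using 1
        exact funext (Fin.forall_fin_two.2 ⟨rfl, rfl⟩)
      have a2 : ∀ z ∈ tsupport fun y => f (s⁻¹ • y), Adm (Fin.append
          (fun i y => u i ((r * s)⁻¹ • (y - z))) ![fun y => g (s⁻¹ • y)]) := fun z hz => by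
        simpa only [app_sc s0.ne', smul_inv_smul₀ s0.ne'] using
          (p3 _ (tsupport_comp (continuous_const_smul _) hz)).smul (inv_pos.2 s0).ne'
      obtain ⟨i1, e1⟩ := rm_sum (a₀ := fun i => A (r * s) (a i)) (b₀ := A (r * s) (C (r * s)))
        (b := fun _ => A (r * s) (C (r * s))) (c₀ := ![A (r * s) (sc r⁻¹ c)]) (fun j => b.coord j v)
        (fun j => int_cor h hu a1 t0.ne' a2 (fun i => A (r * s) (a i)) ![A s (b j)])
        (fun z hz => by simpa only [← app_last, ← ev] using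
          ((ml_cor h (a2 z hz)).slot (Fin.append (fun i => A (r * s) (a i)) ![0]) (Fin.natAdd 2 0)
            (fun j => b.coord j v) fun j => A s (b j))) (by
          have e : ∀ y y' : V, update ![y, 0] 1 y' = ![y, y'] := fun y y' =>
            funext (Fin.forall_fin_two.2 ⟨rfl, rfl⟩)
          simpa only [e, ← ev] using ((ml_cor h a1).slot ![A (r * s) (C (r * s)), 0] 1
            (fun j => b.coord j v) fun j => A s (b j)))
      have e2 : ∀ z, pp (cor x W) u (fun i => A (r * s) (a i)) (r * s) ![A (r * s) (sc r⁻¹ c)]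
          (fun y => f (s⁻¹ • y)) ![fun y => g (s⁻¹ • y)] (s • z) =
          f z * cor x W _ (fun i => A (r * s) (sc r⁻¹ (sc r (Fin.append a ![sc r⁻¹ c] i))))
            fun i y => Fin.append (fun i y => u i (r⁻¹ • (y - z))) ![g] i (s⁻¹ • y) := fun z => by
        have e := hs.can (inv_pos.2 r0)
        simp only [inv_inv] at e
        simp only [pp, inv_smul_smul₀ s0.ne', app_sc s0.ne', e]
        congr 2
        funext i
        fin_cases i <;> rfl
      refine ⟨(i1.comp_smul s0.ne').congr (.of_forall e2), le_of_mul_le_mul_left ?_ (pow_pos s0 4)⟩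
      have e3 := Measure.integral_comp_smul volume (pp (cor x W) u (fun i => A (r * s) (a i)) (r * s)
        ![A (r * s) (sc r⁻¹ c)] (fun y => f (s⁻¹ • y)) ![fun y => g (s⁻¹ • y)]) s
      simp only [e2, finrank_euclideanSpace_fin, abs_of_pos (inv_pos.2 (pow_pos s0 4))] at e3
      calc _ = ‖rm (cor x W) u (fun i => A (r * s) (a i)) (A (r * s) (C (r * s))) (r * s)
            ![A (r * s) (sc r⁻¹ c)] (fun y => f (s⁻¹ • y)) ![fun y => g (s⁻¹ • y)]‖ := by
            have e := hs.can (inv_pos.2 r0)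
            simp only [inv_inv] at e
            rw [← Real.norm_of_nonneg (pow_pos s0 4).le, ← norm_smul, smul_sub, e3,
              smul_inv_smul₀ (pow_pos s0 4).ne', rm, Complex.real_smul]
            congr 2
            push_cast
            rw [mul_pow, ← mul_assoc, mul_comm (_ ^ 4)]
            congr 2 <;> funext i <;> fin_cases i <;> simp [e]
        _ ≤ _ := by
            rw [e1, Finset.sum_mul, Finset.mul_sum]
            refine norm_sum_le_of_le _ fun j _ => (norm_smul_le _ _).trans ((mul_le_mul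
              (((b.coord j).toContinuousLinearMap.le_opNorm v).trans
                (mul_le_mul_of_nonneg_left q2 (norm_nonneg _))) ((q1 j).trans (show _ ≤ |C₀ j| * s ^ 4 *
                  r ^ (D + δ) by gcongr; exact le_abs_self _)) (norm_nonneg _)
                    (mul_nonneg (norm_nonneg _) ((norm_nonneg _).trans q2))).trans_eq (by ring))
    have cI := tendsto_integral_filter_of_dominated_convergence (μ := volume)
      (f := pp S u (fun i => sc r (a i)) r ![c] f ![g]) (fun z => ‖f z‖ * M) (k.mono fun _ e => e.1.1)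
      (hM.mono fun t e => .of_forall fun z => by
        by_cases c : z ∈ tsupport f
        · rw [norm_mul, Complex.norm_real]
          exact mul_le_mul_of_nonneg_left (e z c) (norm_nonneg _)
        · simp [image_eq_zero_of_notMem_tsupport c])
      (((ad.1 0).2.continuous.integrable_of_hasCompactSupport (ad.1 0).1).norm.mul_const M)
      (.of_forall fun z => by
        by_cases c : z ∈ tsupport f
        · have := ((cF z c).comp (tendsto_id.prodMk tendsto_const_nhds)).const_mul (f z : ℂ)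
          rw [ea] at this
          exact this
        · simp [pp, image_eq_zero_of_notMem_tsupport c])
    refine (le_of_tendsto_of_tendsto ((cΛ m hw tw).const_mul _).norm
      (((((cI.mono_left hU).sub ((cΛ (fun _ => hB.1) hB.1 tendsto_const_nhds).const_mul
        ((r : ℂ) ^ 4))).norm).const_add (C₁ * r ^ (D + δ))).const_mul ε⁻¹) ?_).trans
      (mul_le_mul_of_nonneg_left (add_le_add le_rfl p2) (inv_pos.2 ε0).le)
    filter_upwards [e, k.filter_mono hU, hU self_mem_nhdsWithin] with t e1 e2 (t0 : 0 < t)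
    obtain ⟨L, hL⟩ := ((ml_cor h (ad.smul (inv_pos.2 (mul_pos (inv_pos.2 r0) t0)).ne')).comp
      ((A t).toLinearMap ∘ₗ sc r⁻¹))
    have e3 : ∀ b, Λ t b = L (Fin.cons (sc r b) ![c]) := fun b => (congrFun hL _).symm
    have : (r : ℂ) ^ 4 * Λ t (‖C t - B‖⁻¹ • (C t - B)) = ‖C t - B‖⁻¹ •
        (((∫ z, f z * F t z) - r ^ 4 * Λ t B) - ((∫ z, f z * F t z) - r ^ 4 * Λ t (C t))) := by
      simp only [e3, map_smul, map_sub, L.cons_smul, sub_eq_add_neg (sc r _), ← neg_one_smul ℝ (sc r _),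
        L.cons_add, Complex.real_smul]
      push_cast
      ring
    rw [this, norm_smul, norm_inv, norm_norm, add_comm]
    exact mul_le_mul (inv_anti₀ ε0 e1) (norm_sub_le_of_le le_rfl e2.2) (norm_nonneg _) (inv_pos.2 ε0).le
  have z := poly0 D (fun d => S 2 ![Φ.π d w, c] ![f, g]) (squeeze_zero_norm' (a := fun r =>
    ε⁻¹ * (C₁ * r ^ δ + C₂ * r)) ((key.and self_mem_nhdsWithin).mono fun r ⟨e, (r0 : 0 < r)⟩ => ?_) ?_)
  · refine (ne ?_).elim
    have := (ml_S h ad).head ![c] (fun _ : Finset.range (D + 1) => 1) fun d => Φ.π d w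
    simp only [one_smul, Finset.sum_coe_sort _ fun d => Φ.π d w, Φ.π_sum hw] at this
    exact this.trans (Finset.sum_eq_zero fun d _ => z d (Nat.lt_succ_iff.1 (Finset.mem_range.1 d.2)))
  · have := (ml_S h ad).head ![c] (fun d : Finset.range (D + 1) => r ^ (((d : ℕ) : ℤ) - 4)) fun d => Φ.π d w
    simp only [Finset.sum_coe_sort _ fun d : ℕ => r ^ ((d : ℤ) - 4) • Φ.π d w, ← hs.apply hw r0,
      Finset.sum_coe_sort _ fun d : ℕ => r ^ ((d : ℤ) - 4) • S 2 ![Φ.π d w, c] ![f, g]] at this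
    have r1 : (r : ℂ) ≠ 0 := by exact_mod_cast r0.ne'
    rw [this, Finset.mul_sum, Finset.sum_congr rfl (g := fun d => (r : ℂ) ^ d * S 2 ![Φ.π d w, c] ![f, g])
      fun d _ => by simp [zpow_sub₀ r1]; field_simp, Real.rpow_add r0, Real.rpow_add r0,
      Real.rpow_natCast, Real.rpow_one, Real.norm_of_nonneg (by positivity)] at e
    rw [norm_div, norm_pow, Complex.norm_real, Real.norm_of_nonneg r0.le, div_le_iff₀ (by positivity)]
    exact e.trans_eq (by ring)
  · exact tendsto_nhdsWithin_of_tendsto_nhds ((continuous_const.mul ((continuous_const.mul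
      (Real.continuous_rpow_const δ0.le)).add (continuous_const.mul continuous_id))).tendsto' _ _
      (by simp [δ0.ne']))

end Pool.Agent.Lib.MP_7f377f_mp.Zo
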